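import Pool.Agent.MalP.CertPar

/-! # The expression for (A4) -/

set_option autoImplicit false

namespace Pool.Agent.MalP

/-- (A4'): letters 0..4 odd; a = 5; c = 6; y = 7: with `k(X; y) = e'(X; a) (y c) - (e'(X; a) c) y`,
`5 k(X; y) + ∑ i, k(X with y at i; x_i)` before alternation -/
def A4xEx : PEx :=
  5 • (PEx.pe (.X 0) (.X 1) (.X 2) (.X 3) (.X 4) (.X 5) * (.X 7 * .X 6) -
    (PEx.pe (.X 0) (.X 1) (.X 2) (.X 3) (.X 4) (.X 5) * .X 6) * .X 7) +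
  (PEx.pe1 (.X 7) (.X 0) (.X 1) (.X 2) (.X 3) (.X 5) * (.X 4 * .X 6) -
    (PEx.pe1 (.X 7) (.X 0) (.X 1) (.X 2) (.X 3) (.X 5) * .X 6) * .X 4)

theorem A4xEx_ml : A4xEx.ml = true := by decide +kernel

end Pool.Agent.MalP
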