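import Pool.Agent.MalP.AlBe
import Pool.Agent.MalP.A4xEx

/-! # (A4) from two certificates -/

set_option autoImplicit false

namespace Pool.Agent.MalP

universe u v

open Finset Equiv

section

variable {A : Type v} [NonUnitalNonAssocRing A]

/-- the value of `A4xEx` -/
def A4F (a c y : A) (t : Fin 5 → A) : A :=
  5 • (pe t a * (y * c) - (pe t a * c) * y) +
    (pe1B y ![t 0, t 1, t 2, t 3] a * (t 4 * c) - (pe1B y ![t 0, t 1, t 2, t 3] a * c) * t 4)

theorem A4xEx_ev (w : ℕ → A) :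
    A4xEx.ev w = A4F (w 5) (w 6) (w 7) ![w 0, w 1, w 2, w 3, w 4] := by
  show 5 • ((PEx.pe (.X 0) (.X 1) (.X 2) (.X 3) (.X 4) (.X 5)).ev w * (w 7 * w 6) -
    ((PEx.pe (.X 0) (.X 1) (.X 2) (.X 3) (.X 4) (.X 5)).ev w * w 6) * w 7) +
    ((PEx.pe1 (.X 7) (.X 0) (.X 1) (.X 2) (.X 3) (.X 5)).ev w * (w 4 * w 6) -
    ((PEx.pe1 (.X 7) (.X 0) (.X 1) (.X 2) (.X 3) (.X 5)).ev w * w 6) * w 4) = _
  rw [pe1_ev]
  rfl

theorem alt_last5 (g : A → (Fin 4 → A) → A) (x0 x1 x2 x3 y : A)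
    (h0 : ∀ s z1 z2 z3, Alt 4 (g s) ![z1, z2, z3, y] = 0) :
    Alt 5 (fun t => g (t 4) ![t 0, t 1, t 2, t 3]) ![x0, x1, x2, x3, y] =
      Alt 4 (g y) ![x0, x1, x2, x3] := by
  have h1 := Alt_rot (fun t => g (t 4) ![t 0, t 1, t 2, t 3]) ![x0, x1, x2, x3, y] (finRotate 5)
  have h2 : Perm.sign (finRotate 5) = 1 := (sign_finRotate 5).trans (by norm_num)
  rw [h2, one_smul] at h1
  rw [← h1, Alt_succ, Fin.sum_univ_five]
  have e0 : (fun j => (![x0, x1, x2, x3, y] : Fin 5 → A) ((0 : Fin 5).succAbove j)) =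
      ![x1, x2, x3, y] := by
    funext j; fin_cases j <;> rfl
  have e1 : (fun j => (![x0, x1, x2, x3, y] : Fin 5 → A) ((1 : Fin 5).succAbove j)) =
      ![x0, x2, x3, y] := by
    funext j; fin_cases j <;> rfl
  have e2 : (fun j => (![x0, x1, x2, x3, y] : Fin 5 → A) ((2 : Fin 5).succAbove j)) =
      ![x0, x1, x3, y] := by
    funext j; fin_cases j <;> rfl
  have e3 : (fun j => (![x0, x1, x2, x3, y] : Fin 5 → A) ((3 : Fin 5).succAbove j)) =
      ![x0, x1, x2, y] := by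
    funext j; fin_cases j <;> rfl
  have e4 : (fun j => (![x0, x1, x2, x3, y] : Fin 5 → A) ((4 : Fin 5).succAbove j)) =
      ![x0, x1, x2, x3] := by
    funext j; fin_cases j <;> rfl
  rw [e0, e1, e2, e3, e4]
  have f : ∀ s : A, (fun t : Fin 4 → A => (fun t : Fin 5 → A => (fun y : Fin 5 → A =>
      g (y 4) ![y 0, y 1, y 2, y 3]) (t ∘ finRotate 5)) (Fin.cons s t)) = g s := by
    intro s
    funext t
    show g ((Fin.cons s t : Fin 5 → A) (finRotate 5 4)) _ = g s t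
    congr 1
    funext j
    fin_cases j <;> rfl
  rw [f, f, f, f, f, h0, h0, h0, h0]
  have s4 : (-1 : ℤˣ) ^ ((4 : Fin 5) : ℕ) = 1 := rfl
  rw [s4, one_smul]
  simp only [smul_zero, zero_add]
  rfl

end

variable (F : Type u) [Field F] {A : Type v} [NonUnitalNonAssocRing A] [Module F A]
  [IsScalarTower F A A] [SMulCommClass F A A]

theorem ee_04 (y z1 z2 z3 a : A) : ee F y z1 z2 z3 y a = 0 := by
  unfold ee
  rw [(eL F (A := A)).map_eq_zero_of_eq ![y, z1, z2, z3, y] (i := 0) (j := 4) rfl (by decide)]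
  rfl

theorem A4F_alt (x0 x1 x2 x3 y a c : A) :
    Alt 5 (A4F a c y) ![x0, x1, x2, x3, y] =
      6 • (ee F x0 x1 x2 x3 y a * (y * c) - (ee F x0 x1 x2 x3 y a * c) * y) := by
  have h1 : ∀ (s : A) (z : Fin 4 → A), Alt 4 (fun t => pe1B y t a * (s * c) -
      (pe1B y t a * c) * s) z = Alt 4 (fun t => pe1B y t a) z * (s * c) -
      (Alt 4 (fun t => pe1B y t a) z * c) * s := by
    intro s z
    rw [Alt_sub, Alt_mul, Alt_mul, Alt_mul]
  have h2 := alt_last5 (fun s t => pe1B y t a * (s * c) - (pe1B y t a * c) * s) x0 x1 x2 x3 y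
    (fun s z1 z2 z3 => by
      rw [h1, ← ee1 F, ee_04]
      simp)
  rw [h1, ← ee1 F, ← eeA_rot F] at h2
  have h3 : Alt 5 (A4F a c y) ![x0, x1, x2, x3, y] =
      5 • (ee F x0 x1 x2 x3 y a * (y * c) - (ee F x0 x1 x2 x3 y a * c) * y) +
      Alt 5 (fun t => pe1B y ![t 0, t 1, t 2, t 3] a * (t 4 * c) -
        (pe1B y ![t 0, t 1, t 2, t 3] a * c) * t 4) ![x0, x1, x2, x3, y] := by
    rw [ee0, ← Alt_mul, ← Alt_mul, ← Alt_mul, ← Alt_sub, ← Alt_nsmul, ← Alt_add]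
    rfl
  rw [h3, h2]
  exact (succ_nsmul _ 5).symm

variable [CI 5 F]

/-- the permutations used for (A4) -/
def tc (r : Perm (Fin 5) × Bool) : Perm (Fin 7) :=
  r.1.viaFintypeEmbedding em57 * bp (swap 5 6) r.2

theorem bp_em57 (b : Bool) (i : Fin 5) : bp (swap (5 : Fin 7) 6) b (em57 i) = em57 i := by
  revert i b
  decide

theorem tc_em (r : Perm (Fin 5) × Bool) (i : Fin 5) : tc r (em57 i) = em57 (r.1 i) := by
  unfold tc
  rw [Perm.mul_apply, bp_em57, Perm.viaFintypeEmbedding_apply_image]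

theorem tc_5 (τ : Perm (Fin 5)) (b : Bool) : tc (τ, b) 5 = if b then 6 else 5 := by
  unfold tc
  rw [Perm.mul_apply]
  cases b with
  | true =>
    show (τ.viaFintypeEmbedding em57) (swap 5 6 5) = 6
    rw [swap_apply_left]
    exact Perm.viaFintypeEmbedding_apply_notMem_range τ em57 (em57_not (Or.inr rfl))
  | false =>
    exact Perm.viaFintypeEmbedding_apply_notMem_range τ em57 (em57_not (Or.inl rfl))

theorem tc_6 (τ : Perm (Fin 5)) (b : Bool) : tc (τ, b) 6 = if b then 5 else 6 := by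
  unfold tc
  rw [Perm.mul_apply]
  cases b with
  | true =>
    show (τ.viaFintypeEmbedding em57) (swap 5 6 6) = 5
    rw [swap_apply_right]
    exact Perm.viaFintypeEmbedding_apply_notMem_range τ em57 (em57_not (Or.inl rfl))
  | false =>
    exact Perm.viaFintypeEmbedding_apply_notMem_range τ em57 (em57_not (Or.inr rfl))

theorem tc_sign (τ : Perm (Fin 5)) (b : Bool) :
    Perm.sign (tc (τ, b)) = Perm.sign τ * (if b then -1 else 1) := by
  unfold tc
  rw [Perm.sign_mul, Perm.viaFintypeEmbedding_sign]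
  congr 1
  show Perm.sign (bp (swap (5 : Fin 7) 6) b) = _
  revert b
  decide

theorem tc_cls (r : Perm (Fin 5) × Bool) (i : Fin 7) :
    clsL [0, 0, 0, 0, 0, 1, 1, 2] (tc r i) = clsL [0, 0, 0, 0, 0, 1, 1, 2] i := by
  obtain ⟨τ, b⟩ := r
  have h1 : ∀ i : Fin 7, (∃ i' : Fin 5, em57 i' = i) ∨ i = 5 ∨ i = 6 := by decide
  have h3 : ∀ a b : Fin 5, clsL [0, 0, 0, 0, 0, 1, 1, 2] (em57 a) =
    clsL [0, 0, 0, 0, 0, 1, 1, 2] (em57 b) := by decide
  rcases h1 i with ⟨i', rfl⟩ | rfl | rfl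
  · rw [tc_em]
    exact h3 _ _
  · rw [tc_5]
    cases b <;> rfl
  · rw [tc_6]
    cases b <;> rfl

omit [IsScalarTower F A A] [SMulCommClass F A A] in
include F in
theorem A4_skew (C : Cert.{v} 5 idsM par2 (clsL [0, 0, 0, 0, 0, 1, 1, 2]) A4xEx)
    (h : IsMalcev A) (x0 x1 x2 x3 x4 a c y : A) :
    Alt 5 (fun t => A4F a c y t - A4F c a y t) ![x0, x1, x2, x3, x4] = 0 := by
  have key := super_skew2 (hsm := by decide +kernel) idsM_ml 7 par2 (clsL [0, 0, 0, 0, 0, 1, 1, 2]) A4xEx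
    (by decide +kernel) (by decide +kernel) (by decide) (by decide +kernel) C (h.algM 5 F)
    (fun _ => y) tc tc_cls
    (fun q => Alt 5 (fun t => A4F (q 5) (q 6) y t - A4F (q 6) (q 5) y t) (q ∘ em57))
    (fun q => by
      rw [Fintype.sum_prod_type]
      unfold Alt
      refine sum_congr rfl fun τ _ => ?_
      rw [Fintype.sum_bool, A4xEx_ev, A4xEx_ev, tc_sign, tc_sign, if_pos rfl]
      have e1 : ∀ b : Bool, (![asg 7 (clsL [0, 0, 0, 0, 0, 1, 1, 2]) (q ∘ tc (τ, b)) (fun _ => y) 0,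
          asg 7 (clsL [0, 0, 0, 0, 0, 1, 1, 2]) (q ∘ tc (τ, b)) (fun _ => y) 1,
          asg 7 (clsL [0, 0, 0, 0, 0, 1, 1, 2]) (q ∘ tc (τ, b)) (fun _ => y) 2,
          asg 7 (clsL [0, 0, 0, 0, 0, 1, 1, 2]) (q ∘ tc (τ, b)) (fun _ => y) 3,
          asg 7 (clsL [0, 0, 0, 0, 0, 1, 1, 2]) (q ∘ tc (τ, b)) (fun _ => y) 4] : Fin 5 → A) =
          (q ∘ em57) ∘ τ := by
        intro b
        funext j
        have e2 : (((q ∘ em57) ∘ τ) j : A) = q (tc (τ, b) (em57 j)) := by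
          rw [tc_em]
          rfl
        rw [e2]
        fin_cases j <;> rfl
      have e4 : ∀ b : Bool, asg 7 (clsL [0, 0, 0, 0, 0, 1, 1, 2]) (q ∘ tc (τ, b)) (fun _ => y) 5 =
          q (if b then 6 else 5) := by
        intro b
        rw [← tc_5 τ b]
        rfl
      have e5 : ∀ b : Bool, asg 7 (clsL [0, 0, 0, 0, 0, 1, 1, 2]) (q ∘ tc (τ, b)) (fun _ => y) 6 =
          q (if b then 5 else 6) := by
        intro b
        rw [← tc_6 τ b]
        rfl
      have e6 : ∀ b : Bool, asg 7 (clsL [0, 0, 0, 0, 0, 1, 1, 2]) (q ∘ tc (τ, b)) (fun _ => y) 7 =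
          y := fun b => rfl
      rw [e1, e1, e4, e4, e5, e5, e6, e6]
      simp only [if_true, Bool.false_eq_true, if_false, mul_one, mul_neg, Units.val_neg]
      rw [neg_smul, add_comm, ← sub_eq_add_neg, ← smul_sub]
      rfl)
    (fun i j hij hc q => by
      rcases em57_cls i j hij hc with ⟨i', j', h1, rfl, rfl⟩ | ⟨rfl, rfl⟩ | ⟨rfl, rfl⟩
      · have e1 : (q ∘ swap (em57 i') (em57 j')) ∘ em57 = (q ∘ em57) ∘ swap i' j' := by
          funext l
          simp only [Function.comp_apply]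
          rw [em57.injective.swap_apply]
        have e5 : (q ∘ swap (em57 i') (em57 j')) 5 = q 5 := by
          have h5 := em57_not (j := 5) (Or.inl rfl)
          rw [Function.comp_apply, swap_apply_of_ne_of_ne]
          · rintro e; exact h5 ⟨i', e.symm⟩
          · rintro e; exact h5 ⟨j', e.symm⟩
        have e6 : (q ∘ swap (em57 i') (em57 j')) 6 = q 6 := by
          have h5 := em57_not (j := 6) (Or.inr rfl)
          rw [Function.comp_apply, swap_apply_of_ne_of_ne]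
          · rintro e; exact h5 ⟨i', e.symm⟩
          · rintro e; exact h5 ⟨j', e.symm⟩
        rw [e1, e5, e6, Alt_swap _ _ h1]
      · have e1 : (q ∘ swap (5 : Fin 7) 6) ∘ em57 = q ∘ em57 := sw56 q
        have e5 : (q ∘ swap (5 : Fin 7) 6) 5 = q 6 := rfl
        have e6 : (q ∘ swap (5 : Fin 7) 6) 6 = q 5 := rfl
        rw [e1, e5, e6, Alt_sub, Alt_sub, neg_sub]
      · have e1 : (q ∘ swap (6 : Fin 7) 5) ∘ em57 = q ∘ em57 := sw65 q
        have e5 : (q ∘ swap (6 : Fin 7) 5) 5 = q 6 := rfl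
        have e6 : (q ∘ swap (6 : Fin 7) 5) 6 = q 5 := rfl
        rw [e1, e5, e6, Alt_sub, Alt_sub, neg_sub]) ![x0, x1, x2, x3, x4, a, c]
  have e5 : (![x0, x1, x2, x3, x4, a, c] : Fin 7 → A) 5 = a := rfl
  have e6 : (![x0, x1, x2, x3, x4, a, c] : Fin 7 → A) 6 = c := rfl
  simp only [v57, e5, e6] at key
  exact key

theorem base_A4_of2 (Cs : Cert.{v} 5 idsM par1 (clsL [0, 0, 0, 0, 0, 1, 1, 2]) A4xEx)
    (Ck : Cert.{v} 5 idsM par2 (clsL [0, 0, 0, 0, 0, 1, 1, 2]) A4xEx)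
    (h : IsMalcev A) (x0 x1 x2 x3 x a c : A) :
    ee F x0 x1 x2 x3 x a * (x * c) = (ee F x0 x1 x2 x3 x a * c) * x := by
  -- the symmetric part
  have hs : ∀ a : A, ee F x0 x1 x2 x3 x a * (x * a) - (ee F x0 x1 x2 x3 x a * a) * x = 0 := by
    intro a
    have key := super_alt idsM_ml 5 par1 _ A4xEx (by decide +kernel) (by decide +kernel)
      (by decide) rfl (by decide +kernel) Cs (h.algM 5 F) (wv a x 0 0) ![x0, x1, x2, x3, x]
    have k0 : Alt 5 (A4F a a x) ![x0, x1, x2, x3, x] = 0 := by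
      rw [← key]
      congr 1
    rw [A4F_alt F] at k0
    exact tf_of_field (M := 5) F 6 _ smooth_6 (by rw [← k0]; exact ofNat_zsmul _ 6)
  have hk : ∀ a c : A, (ee F x0 x1 x2 x3 x a * (x * c) - (ee F x0 x1 x2 x3 x a * c) * x) -
      (ee F x0 x1 x2 x3 x c * (x * a) - (ee F x0 x1 x2 x3 x c * a) * x) = 0 := by
    intro a c
    have key := A4_skew F Ck h x0 x1 x2 x3 x a c x
    rw [Alt_sub, A4F_alt F, A4F_alt F, ← smul_sub] at key
    exact tf_of_field (M := 5) F 6 _ smooth_6 (by rw [← key]; exact ofNat_zsmul _ 6)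
  have hadd : ∀ a c : A, ee F x0 x1 x2 x3 x (a + c) = ee F x0 x1 x2 x3 x a +
      ee F x0 x1 x2 x3 x c := fun a c => map_add _ a c
  have h1 := hs (a + c)
  have h2 := hs a
  have h3 := hs c
  have h4 := hk a c
  rw [hadd] at h1
  have h5 : (2 : ℤ) • (ee F x0 x1 x2 x3 x a * (x * c) - (ee F x0 x1 x2 x3 x a * c) * x) = 0 := by
    have e : (2 : ℤ) • (ee F x0 x1 x2 x3 x a * (x * c) - (ee F x0 x1 x2 x3 x a * c) * x) =
      ((ee F x0 x1 x2 x3 x a + ee F x0 x1 x2 x3 x c) * (x * (a + c)) -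
        ((ee F x0 x1 x2 x3 x a + ee F x0 x1 x2 x3 x c) * (a + c)) * x) -
      (ee F x0 x1 x2 x3 x a * (x * a) - (ee F x0 x1 x2 x3 x a * a) * x) -
      (ee F x0 x1 x2 x3 x c * (x * c) - (ee F x0 x1 x2 x3 x c * c) * x) +
      ((ee F x0 x1 x2 x3 x a * (x * c) - (ee F x0 x1 x2 x3 x a * c) * x) -
      (ee F x0 x1 x2 x3 x c * (x * a) - (ee F x0 x1 x2 x3 x c * a) * x)) := by
      simp only [mul_add, add_mul]
      abel
    rw [e, h1, h2, h3, h4]
    simp
  exact sub_eq_zero.1 (tf_of_field (M := 5) F 2 _ smooth_2 h5)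

end Pool.Agent.MalP
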