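import Pool.Agent.MalP.FIdsOf

/-! # F6 from its certificate -/

set_option autoImplicit false

namespace Pool.Agent.MalP

universe u v

open Finset Equiv

theorem GP.ext' {B : Type u} {g h : GP B} (h1 : g.j = h.j) (h2 : ∀ y x, g.G y x = h.G y x) :
    g = h := by
  cases g
  cases h
  simp only at h1 h2
  subst h1
  congr
  funext y x
  exact h2 y x

section

variable {B : Type u} [NonUnitalNonAssocRing B]

theorem P108_nega (a b c d x : B) : P108 (-a) b c d x = - P108 a b c d x := by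
  unfold P108
  simp only [Jac_negl, Jac_negm, neg_mul, mul_neg]
  abel

theorem GP.add_j (g h : GP B) : (g + h).j = g.j + h.j := rfl
theorem GP.sub_j (g h : GP B) : (g - h).j = g.j - h.j := rfl
theorem GP.neg_j (g : GP B) : (-g).j = -g.j := rfl
theorem GP.z_j (n : ℤ) (g : GP B) : (GP.z n g).j = n • g.j := rfl
theorem GP.m_j (g : GP B) (x : B) : (g.m x).j = g.j * x := rfl
theorem GP.J_j (a b c : B) : (GP.J a b c).j = Jac a b c := rfl
theorem GP.add_G (g h : GP B) (y x : B) : (g + h).G y x = g.G y x + h.G y x := rfl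
theorem GP.sub_G (g h : GP B) (y x : B) : (g - h).G y x = g.G y x - h.G y x := rfl
theorem GP.neg_G (g : GP B) (y x : B) : (-g).G y x = -g.G y x := rfl
theorem GP.z_G (n : ℤ) (g : GP B) (y x : B) : (GP.z n g).G y x = n • g.G y x := rfl
theorem GP.m_G (g : GP B) (w y x : B) : (g.m w).G y x = g.G (w * y) x := rfl
theorem GP.J_G (a b c y x : B) : (GP.J a b c).G y x = P108 a b c y x := rfl

theorem GP.neg_sig (g : GP B) (x y : B) : (-g).sig x y = - g.sig x y := by
  show - (36 • (((-g.j) * x) * y)) + 12 • Jac (-g.j) x y + -g.G y x =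
    -(- (36 • ((g.j * x) * y)) + 12 • Jac g.j x y + g.G y x)
  rw [Jac_negl, neg_mul, neg_mul, smul_neg, smul_neg]
  abel

theorem GP.S_12 (h : IsMalcev B) (a b c x y : B) : GP.S b a c x y = - GP.S a b c x y := by
  apply GP.ext'
  · simp only [GP.S, GP.P, GP.add_j, GP.sub_j, GP.neg_j, GP.z_j, GP.m_j, GP.J_j]
    simp only [h.Jac12 a b, h.Jac23 _ a b, neg_mul, Jac_negl, smul_neg]
    abel
  · intro y' x'
    simp only [GP.S, GP.P, GP.add_G, GP.sub_G, GP.neg_G, GP.z_G, GP.m_G, GP.J_G]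
    simp only [h.Jac12 a b, h.Jac23 _ a b, h.P12 a b, h.P23 _ a b, P108_nega, smul_neg]
    abel

theorem GP.S_23 (h : IsMalcev B) (a b c x y : B) : GP.S a c b x y = - GP.S a b c x y := by
  apply GP.ext'
  · simp only [GP.S, GP.P, GP.add_j, GP.sub_j, GP.neg_j, GP.z_j, GP.m_j, GP.J_j]
    simp only [h.Jac12 b c, h.Jac23 _ b c, neg_mul, Jac_negl, smul_neg]
    abel
  · intro y' x'
    simp only [GP.S, GP.P, GP.add_G, GP.sub_G, GP.neg_G, GP.z_G, GP.m_G, GP.J_G]
    simp only [h.Jac12 b c, h.Jac23 _ b c, h.P12 b c, h.P23 _ b c, P108_nega, smul_neg]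
    abel

end

theorem F6Ex_ml : F6Ex.ml = true := by decide +kernel

theorem F6_of (F : Type v) [Field F] [C23 F] {B : Type u} [NonUnitalNonAssocRing B]
    [Module F B] (C : Cert.{u} 1 idsV par1 (cls1 3) F6Ex) (h : IsV B) (a b c x y z t : B) :
    (GP.S a b c z t).sig x y = (GP.S a b c x y).sig z t := by
  have hM := h.toIsMalcev
  have e : ∀ q : Fin 3 → B, F6Ex.ev (asg 3 (cls1 3) q (wv x y z t)) =
      (GP.S (q 0) (q 1) (q 2) z t).sig x y - (GP.S (q 0) (q 1) (q 2) x y).sig z t :=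
    fun q => F6Ex_ev _
  have hsk : ∀ (i : Fin 2) (q : Fin 3 → B), F6Ex.ev (asg 3 (cls1 3) (q ∘ swap i.castSucc i.succ)
      (wv x y z t)) = - F6Ex.ev (asg 3 (cls1 3) q (wv x y z t)) := by
    intro i q
    rw [e, e]
    fin_cases i
    · show (GP.S (q 1) (q 0) (q 2) z t).sig x y - (GP.S (q 1) (q 0) (q 2) x y).sig z t =
          -((GP.S (q 0) (q 1) (q 2) z t).sig x y - (GP.S (q 0) (q 1) (q 2) x y).sig z t)
      rw [GP.S_12 hM (q 0), GP.S_12 hM (q 0), GP.neg_sig, GP.neg_sig]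
      abel
    · show (GP.S (q 0) (q 2) (q 1) z t).sig x y - (GP.S (q 0) (q 2) (q 1) x y).sig z t =
          -((GP.S (q 0) (q 1) (q 2) z t).sig x y - (GP.S (q 0) (q 1) (q 2) x y).sig z t)
      rw [GP.S_23 hM (q 0) (q 1), GP.S_23 hM (q 0) (q 1), GP.neg_sig, GP.neg_sig]
      abel
  have key := super_skew (hsm := by decide +kernel) idsV_ml 3 par1 (cls1 3) F6Ex F6Ex_ml (by decide +kernel)
    (by decide) (by decide +kernel) C (h.algV 1 F) (wv x y z t)
    (fun i j hij _ => skew_of_adj (fun y' => F6Ex.ev (asg 3 (cls1 3) y' (wv x y z t))) hsk i j hij)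
    ![a, b, c]
  rw [e] at key
  exact sub_eq_zero.1 key

end Pool.Agent.MalP
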