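import Pool.Agent.MalP.Two
import Pool.Agent.MalP.FIds6

/-! # F6 from three certificates -/

set_option autoImplicit false

namespace Pool.Agent.MalP

universe u v

open Finset Equiv

theorem linv_false : ∀ l m : List ℕ, linv (fun _ => false) l m = false
  | [], _ => rfl
  | i :: l, m => by
    have h1 : ∀ m : List ℕ, oinv (fun _ => false) i m = false := by
      intro m
      induction m with
      | nil => rfl
      | cons j m ih =>
        show xor (false && false && Nat.blt j i) (oinv (fun _ => false) i m) = false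
        rw [ih]
        rfl
    show xor (oinv (fun _ => false) i m) (linv (fun _ => false) l m) = false
    rw [h1, linv_false l m]
    rfl

theorem PEx.sev_false {A : Type u} [NonUnitalNonAssocRing A] (z : ℕ → A) (e : PEx) :
    e.sev (fun _ => false) z = e.ev z := by
  induction e with
  | X i => rfl
  | add a b iha ihb =>
    show a.sev _ z + b.sev _ z = a.ev z + b.ev z
    rw [iha, ihb]
  | sub a b iha ihb =>
    show a.sev _ z - b.sev _ z = a.ev z - b.ev z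
    rw [iha, ihb]
  | neg a ih =>
    show - a.sev _ z = - a.ev z
    rw [ih]
  | zs n a ih =>
    show n • a.sev _ z = n • a.ev z
    rw [ih]
  | ns n a ih =>
    show n • a.sev _ z = n • a.ev z
    rw [ih]
  | mul a b iha ihb =>
    show sg (linv (fun _ => false) a.lts b.lts) • (a.sev _ z * b.sev _ z) = a.ev z * b.ev z
    rw [linv_false, iha, ihb]
    exact one_smul ℤ _

theorem PEx.ev_add {A : Type u} [NonUnitalNonAssocRing A] (z : ℕ → A) (e : PEx) (he : e.ml = true)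
    (l : ℕ) (hl : l ∈ e.ls) (x y : A) : e.ev (Function.update z l (x + y)) =
      e.ev (Function.update z l x) + e.ev (Function.update z l y) := by
  rw [← PEx.sev_false, ← PEx.sev_false, ← PEx.sev_false, PEx.sev_add _ z e he l hl]

section

variable {B : Type u} [NonUnitalNonAssocRing B]

/-- seven values -/
def v7 (a b c x y z t : B) : ℕ → B
  | 0 => a
  | 1 => b
  | 2 => c
  | 3 => x
  | 4 => y
  | 5 => z
  | 6 => t
  | _ => 0

/-- the value of `F6Ex` -/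
def F6v (a b c x y z t : B) : B := (GP.S a b c z t).sig x y - (GP.S a b c x y).sig z t

theorem F6v_ev (y : ℕ → B) : F6Ex.ev y = F6v (y 0) (y 1) (y 2) (y 3) (y 4) (y 5) (y 6) :=
  F6Ex_ev y

theorem F6Ex_ls (l : ℕ) (hl : l < 7) : l ∈ F6Ex.ls := by
  have h : ∀ i : Fin 7, (i : ℕ) ∈ F6Ex.ls := by decide +kernel
  exact h ⟨l, hl⟩

theorem F6v_x (a b c x x' y z t : B) :
    F6v a b c (x + x') y z t = F6v a b c x y z t + F6v a b c x' y z t := by
  have h := PEx.ev_add (v7 a b c x y z t) F6Ex F6Ex_ml 3 (F6Ex_ls 3 (by norm_num)) x x'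
  rw [F6v_ev, F6v_ev, F6v_ev] at h
  exact h

theorem F6v_y (a b c x y y' z t : B) :
    F6v a b c x (y + y') z t = F6v a b c x y z t + F6v a b c x y' z t := by
  have h := PEx.ev_add (v7 a b c x y z t) F6Ex F6Ex_ml 4 (F6Ex_ls 4 (by norm_num)) y y'
  rw [F6v_ev, F6v_ev, F6v_ev] at h
  exact h

theorem F6v_z (a b c x y z z' t : B) :
    F6v a b c x y (z + z') t = F6v a b c x y z t + F6v a b c x y z' t := by
  have h := PEx.ev_add (v7 a b c x y z t) F6Ex F6Ex_ml 5 (F6Ex_ls 5 (by norm_num)) z z'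
  rw [F6v_ev, F6v_ev, F6v_ev] at h
  exact h

theorem F6v_t (a b c x y z t t' : B) :
    F6v a b c x y z (t + t') = F6v a b c x y z t + F6v a b c x y z t' := by
  have h := PEx.ev_add (v7 a b c x y z t) F6Ex F6Ex_ml 6 (F6Ex_ls 6 (by norm_num)) t t'
  rw [F6v_ev, F6v_ev, F6v_ev] at h
  exact h

theorem F6v_exch (a b c x y z t : B) : F6v a b c z t x y = - F6v a b c x y z t := by
  unfold F6v
  abel

theorem F6v_01 (h : IsMalcev B) (a b c x y z t : B) : F6v b a c x y z t = - F6v a b c x y z t := by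
  unfold F6v
  rw [GP.S_12 h a, GP.S_12 h a, GP.neg_sig, GP.neg_sig]
  abel

theorem F6v_12 (h : IsMalcev B) (a b c x y z t : B) : F6v a c b x y z t = - F6v a b c x y z t := by
  unfold F6v
  rw [GP.S_23 h a b, GP.S_23 h a b, GP.neg_sig, GP.neg_sig]
  abel

theorem F6v_02 (h : IsMalcev B) (a b c x y z t : B) : F6v c b a x y z t = - F6v a b c x y z t := by
  rw [F6v_01 h b c a, F6v_12 h b a c, F6v_01 h a b c]
  abel

end

theorem F6v_eq {B : Type u} [NonUnitalNonAssocRing B] (a b c x y z t : B) : F6v a b c x y z t =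
    (GP.S a b c z t).sig x y - (GP.S a b c x y).sig z t := rfl

attribute [irreducible] F6v

theorem skew3 {n : ℕ} {B : Type u} [AddCommGroup B] (G : (Fin n → B) → B) (i j : Fin n)
    (h : ∀ q, G (q ∘ swap i j) = - G q) (q : Fin n → B) : G (q ∘ swap j i) = - G q := by
  rw [swap_comm]
  exact h q

theorem F6_ss (F : Type v) [Field F] [C23 F] {B : Type u} [NonUnitalNonAssocRing B]
    [Module F B] (C : Cert.{u} 1 idsV par1 (clsL [0, 0, 0, 1, 1, 2, 2]) F6Ex) (h : IsV B)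
    (a b c x z : B) : F6v a b c x x z z = 0 := by
  have hM := h.toIsMalcev
  have hc : ∀ i j : Fin 3, i ≠ j → (i = 0 ∧ j = 1) ∨ (i = 1 ∧ j = 0) ∨ (i = 0 ∧ j = 2) ∨
      (i = 2 ∧ j = 0) ∨ (i = 1 ∧ j = 2) ∨ (i = 2 ∧ j = 1) := by decide
  exact super_skew2 (hsm := by decide +kernel) idsV_ml 3 par1 (clsL [0, 0, 0, 1, 1, 2, 2]) F6Ex F6Ex_ml (by decide +kernel)
    (by decide) (by decide +kernel) C (h.algV 1 F) (wv x z 0 0) (fun _ : Unit => 1)
    (fun _ _ => rfl) (fun q => F6v (q 0) (q 1) (q 2) x x z z)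
    (fun q => by
      rw [Fintype.sum_unique, Perm.sign_one, Units.val_one, one_smul, F6v_ev]
      rfl)
    (fun i j hij _ q => by
      rcases hc i j hij with ⟨rfl, rfl⟩ | ⟨rfl, rfl⟩ | ⟨rfl, rfl⟩ | ⟨rfl, rfl⟩ | ⟨rfl, rfl⟩ |
        ⟨rfl, rfl⟩
      · exact F6v_01 hM _ _ _ _ _ _ _
      · exact F6v_01 hM _ _ _ _ _ _ _
      · exact F6v_02 hM _ _ _ _ _ _ _
      · exact F6v_02 hM _ _ _ _ _ _ _
      · exact F6v_12 hM _ _ _ _ _ _ _
      · exact F6v_12 hM _ _ _ _ _ _ _) ![a, b, c]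

/-- a permutation or the identity -/
def bp {n : ℕ} (σ : Perm (Fin n)) (b : Bool) : Perm (Fin n) := if b then σ else 1

theorem F6_as (F : Type v) [Field F] [C23 F] {B : Type u} [NonUnitalNonAssocRing B]
    [Module F B] (C : Cert.{u} 1 idsV par2 (clsL [0, 0, 0, 1, 1, 2, 2]) F6Ex) (h : IsV B)
    (a b c x y z : B) : F6v a b c x y z z - F6v a b c y x z z = 0 := by
  have hM := h.toIsMalcev
  have hc : ∀ i j : Fin 5, i ≠ j → clsL [0, 0, 0, 1, 1, 2, 2] i = clsL [0, 0, 0, 1, 1, 2, 2] j →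
      (i = 0 ∧ j = 1) ∨ (i = 1 ∧ j = 0) ∨ (i = 0 ∧ j = 2) ∨
      (i = 2 ∧ j = 0) ∨ (i = 1 ∧ j = 2) ∨ (i = 2 ∧ j = 1) ∨ (i = 3 ∧ j = 4) ∨
      (i = 4 ∧ j = 3) := by decide
  exact super_skew2 (hsm := by decide +kernel) idsV_ml 5 par2 (clsL [0, 0, 0, 1, 1, 2, 2]) F6Ex F6Ex_ml (by decide +kernel)
    (by decide) (by decide +kernel) C (h.algV 1 F) (fun _ => z) (bp (swap 3 4))
    (by decide)
    (fun q => F6v (q 0) (q 1) (q 2) (q 3) (q 4) z z - F6v (q 0) (q 1) (q 2) (q 4) (q 3) z z)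
    (fun q => by
      rw [Fintype.sum_bool, F6v_ev, F6v_ev]
      have s1 : Perm.sign (bp (swap (3 : Fin 5) 4) true) = -1 := by decide
      have s2 : Perm.sign (bp (swap (3 : Fin 5) 4) false) = 1 := by decide
      rw [s1, s2, Units.val_neg, Units.val_one, one_smul, neg_smul, one_smul, add_comm,
        ← sub_eq_add_neg]
      rfl)
    (fun i j hij hcl q => by
      have e0 : ∀ u u' w w' : B, u = -w → u' = - w' → u - u' = - (w - w') := by
        rintro _ _ w w' rfl rfl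
        abel
      rcases hc i j hij hcl with ⟨rfl, rfl⟩ | ⟨rfl, rfl⟩ | ⟨rfl, rfl⟩ | ⟨rfl, rfl⟩ | ⟨rfl, rfl⟩ |
        ⟨rfl, rfl⟩ | ⟨rfl, rfl⟩ | ⟨rfl, rfl⟩
      · exact e0 _ _ _ _ (F6v_01 hM _ _ _ _ _ _ _) (F6v_01 hM _ _ _ _ _ _ _)
      · exact e0 _ _ _ _ (F6v_01 hM _ _ _ _ _ _ _) (F6v_01 hM _ _ _ _ _ _ _)
      · exact e0 _ _ _ _ (F6v_02 hM _ _ _ _ _ _ _) (F6v_02 hM _ _ _ _ _ _ _)
      · exact e0 _ _ _ _ (F6v_02 hM _ _ _ _ _ _ _) (F6v_02 hM _ _ _ _ _ _ _)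
      · exact e0 _ _ _ _ (F6v_12 hM _ _ _ _ _ _ _) (F6v_12 hM _ _ _ _ _ _ _)
      · exact e0 _ _ _ _ (F6v_12 hM _ _ _ _ _ _ _) (F6v_12 hM _ _ _ _ _ _ _)
      · exact (neg_sub _ _).symm
      · exact (neg_sub _ _).symm) ![a, b, c, x, y]

theorem F6_aa (F : Type v) [Field F] [C23 F] {B : Type u} [NonUnitalNonAssocRing B]
    [Module F B] (C : Cert.{u} 1 idsV par3 (clsL [0, 0, 0, 1, 1, 2, 2]) F6Ex) (h : IsV B)
    (a b c x y z t : B) : F6v a b c x y z t - F6v a b c y x z t - F6v a b c x y t z +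
      F6v a b c y x t z = 0 := by
  have hM := h.toIsMalcev
  have hc : ∀ i j : Fin 7, i ≠ j → clsL [0, 0, 0, 1, 1, 2, 2] i = clsL [0, 0, 0, 1, 1, 2, 2] j →
      (i = 0 ∧ j = 1) ∨ (i = 1 ∧ j = 0) ∨ (i = 0 ∧ j = 2) ∨
      (i = 2 ∧ j = 0) ∨ (i = 1 ∧ j = 2) ∨ (i = 2 ∧ j = 1) ∨ (i = 3 ∧ j = 4) ∨
      (i = 4 ∧ j = 3) ∨ (i = 5 ∧ j = 6) ∨ (i = 6 ∧ j = 5) := by decide
  exact super_skew2 (hsm := by decide +kernel) idsV_ml 7 par3 (clsL [0, 0, 0, 1, 1, 2, 2]) F6Ex F6Ex_ml (by decide +kernel)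
    (by decide) (by decide +kernel) C (h.algV 1 F) (fun _ => 0)
    (fun r : Bool × Bool => bp (swap 3 4) r.1 * bp (swap 5 6) r.2)
    (by decide)
    (fun q => F6v (q 0) (q 1) (q 2) (q 3) (q 4) (q 5) (q 6) -
      F6v (q 0) (q 1) (q 2) (q 4) (q 3) (q 5) (q 6) -
      F6v (q 0) (q 1) (q 2) (q 3) (q 4) (q 6) (q 5) +
      F6v (q 0) (q 1) (q 2) (q 4) (q 3) (q 6) (q 5))
    (fun q => by
      rw [Fintype.sum_prod_type, Fintype.sum_bool, Fintype.sum_bool, Fintype.sum_bool, F6v_ev,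
        F6v_ev, F6v_ev, F6v_ev]
      have s1 : Perm.sign (bp (swap (3 : Fin 7) 4) true * bp (swap 5 6) true) = 1 := by decide
      have s2 : Perm.sign (bp (swap (3 : Fin 7) 4) true * bp (swap 5 6) false) = -1 := by decide
      have s3 : Perm.sign (bp (swap (3 : Fin 7) 4) false * bp (swap 5 6) true) = -1 := by decide
      have s4 : Perm.sign (bp (swap (3 : Fin 7) 4) false * bp (swap 5 6) false) = 1 := by decide
      rw [s1, s2, s3, s4]
      simp only [Units.val_neg, Units.val_one, one_smul, neg_smul]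
      have e0 : ∀ u1 u2 u3 u4 : B, u1 - u2 - u3 + u4 = u4 + -u2 + (-u3 + u1) := by
        intro u1 u2 u3 u4
        abel
      exact e0 _ _ _ _)
    (fun i j hij hcl q => by
      have e0 : ∀ u u' w w' u1 u1' w1 w1' : B, u = -w → u' = - w' → u1 = - w1 → u1' = - w1' →
          u - u' - u1 + u1' = - (w - w' - w1 + w1') := by
        rintro _ _ w w' _ _ w1 w1' rfl rfl rfl rfl
        abel
      have e1 : ∀ w w' w1 w1' : B, w' - w - w1' + w1 = - (w - w' - w1 + w1') := by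
        intro w w' w1 w1'
        abel
      have e2 : ∀ w w' w1 w1' : B, w1 - w1' - w + w' = - (w - w' - w1 + w1') := by
        intro w w' w1 w1'
        abel
      rcases hc i j hij hcl with ⟨rfl, rfl⟩ | ⟨rfl, rfl⟩ | ⟨rfl, rfl⟩ | ⟨rfl, rfl⟩ | ⟨rfl, rfl⟩ |
        ⟨rfl, rfl⟩ | ⟨rfl, rfl⟩ | ⟨rfl, rfl⟩ | ⟨rfl, rfl⟩ | ⟨rfl, rfl⟩
      · exact e0 _ _ _ _ _ _ _ _ (F6v_01 hM _ _ _ _ _ _ _) (F6v_01 hM _ _ _ _ _ _ _)
          (F6v_01 hM _ _ _ _ _ _ _) (F6v_01 hM _ _ _ _ _ _ _)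
      · exact e0 _ _ _ _ _ _ _ _ (F6v_01 hM _ _ _ _ _ _ _) (F6v_01 hM _ _ _ _ _ _ _)
          (F6v_01 hM _ _ _ _ _ _ _) (F6v_01 hM _ _ _ _ _ _ _)
      · exact e0 _ _ _ _ _ _ _ _ (F6v_02 hM _ _ _ _ _ _ _) (F6v_02 hM _ _ _ _ _ _ _)
          (F6v_02 hM _ _ _ _ _ _ _) (F6v_02 hM _ _ _ _ _ _ _)
      · exact e0 _ _ _ _ _ _ _ _ (F6v_02 hM _ _ _ _ _ _ _) (F6v_02 hM _ _ _ _ _ _ _)
          (F6v_02 hM _ _ _ _ _ _ _) (F6v_02 hM _ _ _ _ _ _ _)
      · exact e0 _ _ _ _ _ _ _ _ (F6v_12 hM _ _ _ _ _ _ _) (F6v_12 hM _ _ _ _ _ _ _)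
          (F6v_12 hM _ _ _ _ _ _ _) (F6v_12 hM _ _ _ _ _ _ _)
      · exact e0 _ _ _ _ _ _ _ _ (F6v_12 hM _ _ _ _ _ _ _) (F6v_12 hM _ _ _ _ _ _ _)
          (F6v_12 hM _ _ _ _ _ _ _) (F6v_12 hM _ _ _ _ _ _ _)
      · exact e1 _ _ _ _
      · exact e1 _ _ _ _
      · exact e2 _ _ _ _
      · exact e2 _ _ _ _) ![a, b, c, x, y, z, t]

theorem F6_of3 (F : Type v) [Field F] [C23 F] {B : Type u} [NonUnitalNonAssocRing B]
    [Module F B] (C1 : Cert.{u} 1 idsV par1 (clsL [0, 0, 0, 1, 1, 2, 2]) F6Ex)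
    (C2 : Cert.{u} 1 idsV par2 (clsL [0, 0, 0, 1, 1, 2, 2]) F6Ex)
    (C3 : Cert.{u} 1 idsV par3 (clsL [0, 0, 0, 1, 1, 2, 2]) F6Ex) (h : IsV B)
    (a b c x y z t : B) : (GP.S a b c z t).sig x y = (GP.S a b c x y).sig z t := by
  have tf := (h.algV 1 F).tf
  have h1 : ∀ x y z, F6v a b c x y z z = 0 := by
    intro x y z
    have e1 := F6_ss F C1 h a b c (x + y) z
    rw [F6v_x, F6v_y, F6v_y, F6_ss F C1 h, F6_ss F C1 h, zero_add, add_zero] at e1
    have e2 := F6_as F C2 h a b c x y z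
    apply tf 2 _ smooth_2
    rw [two_smul]
    calc F6v a b c x y z z + F6v a b c x y z z =
        (F6v a b c x y z z + F6v a b c y x z z) + (F6v a b c x y z z - F6v a b c y x z z) := by
          abel
      _ = 0 := by rw [e1, e2, add_zero]
  have h2 : ∀ x y z t, F6v a b c x y z t = - F6v a b c x y t z := by
    intro x y z t
    have e1 := h1 x y (z + t)
    rw [F6v_z, F6v_t, F6v_t, h1, h1, zero_add, add_zero] at e1
    exact eq_neg_of_add_eq_zero_left e1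
  have h3 : ∀ x y z t, F6v a b c x y z t = - F6v a b c y x z t := by
    intro x y z t
    rw [F6v_exch a b c z t x y, h2 z t x y, F6v_exch a b c y x z t, neg_neg]
  have h4 := F6_aa F C3 h a b c x y z t
  rw [h2 x y t z, h3 y x t z, h2 x y t z, h3 y x z t] at h4
  have h5 : F6v a b c x y z t = 0 := by
    clear h1 h2 h3
    apply tf 4 _ smooth_4
    rw [← h4]
    abel
  have h6 : (GP.S a b c z t).sig x y - (GP.S a b c x y).sig z t = 0 := by
    rw [← F6v_eq]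
    exact h5
  exact sub_eq_zero.1 h6

end Pool.Agent.MalP
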