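import Pool.Agent.MalP.AlBeEx
import Pool.Agent.MalP.F6Three

/-! # (A3) and (a') from (P') and two identities of degree 7 -/

set_option autoImplicit false

namespace Pool.Agent.MalP

universe u v

open Finset Equiv

section alt

variable {A : Type u} [AddCommGroup A] {n : ℕ}

theorem Alt_perm (g : (Fin n → A) → A) (x : Fin n → A) (π : Perm (Fin n)) :
    Alt n g (x ∘ π) = Perm.sign π • Alt n g x := by
  unfold Alt
  rw [smul_sum, ← Equiv.sum_comp (Equiv.mulLeft π) (fun σ : Perm (Fin n) =>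
    Perm.sign π • Perm.sign σ • g (x ∘ σ))]
  refine sum_congr rfl fun σ _ => ?_
  have h1 : (x ∘ ⇑π) ∘ ⇑σ = x ∘ ⇑(Equiv.mulLeft π σ) := rfl
  have h2 : Perm.sign (Equiv.mulLeft π σ) = Perm.sign π * Perm.sign σ := Perm.sign_mul π σ
  rw [h1, h2, ← mul_smul, ← mul_assoc, Int.units_mul_self, one_mul]

theorem Alt_swap (g : (Fin n → A) → A) (x : Fin n → A) {i j : Fin n} (h : i ≠ j) :
    Alt n g (x ∘ swap i j) = - Alt n g x := by
  rw [Alt_perm, Perm.sign_swap h, Units.neg_smul, one_smul]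

theorem Alt_rot (g : (Fin n → A) → A) (x : Fin n → A) (π : Perm (Fin n)) :
    Alt n (fun y => g (y ∘ π)) x = Perm.sign π • Alt n g x := by
  have h := Alt_absorb (fun _ : Unit => π) g x
  rw [Fintype.card_unit, one_smul] at h
  rw [← h]
  have h2 : (fun y => ∑ _i : Unit, Perm.sign π • g (y ∘ π)) = fun y => Perm.sign π • g (y ∘ π) := by
    funext y
    rw [Fintype.sum_unique]
  rw [h2]
  unfold Alt
  rw [smul_sum]
  refine sum_congr rfl fun σ _ => ?_
  rw [smul_comm (Perm.sign π), smul_smul (Perm.sign π), Int.units_mul_self, one_smul]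

theorem alt_last4 (g : (Fin 4 → A) → A)
    (h : ∀ (s : A) (y : Fin 3 → A), Alt 3 (fun t => g ![t 0, t 1, t 2, s]) y = 0)
    (x : Fin 4 → A) : Alt 4 g x = 0 := by
  have h1 := Alt_rot g x (finRotate 4)
  have h2 : Alt 4 (fun y => g (y ∘ finRotate 4)) x = 0 := by
    rw [Alt_succ]
    refine sum_eq_zero fun i _ => ?_
    have h3 : (fun t : Fin 3 → A => g ((Fin.cons (x i) t : Fin 4 → A) ∘ finRotate 4)) =
        fun t => g ![t 0, t 1, t 2, x i] := by
      funext t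
      congr 1
      funext j
      fin_cases j <;> rfl
    rw [h3, h, smul_zero]
  rw [h2] at h1
  rcases Int.units_eq_one_or (Perm.sign (finRotate 4)) with h4 | h4
  · rw [h4, one_smul] at h1
    exact h1.symm
  · rw [h4, Units.neg_smul, one_smul] at h1
    exact neg_eq_zero.1 h1.symm

theorem alt_last3 (g : (Fin 3 → A) → A)
    (h : ∀ (s : A) (y : Fin 2 → A), Alt 2 (fun t => g ![t 0, t 1, s]) y = 0)
    (x : Fin 3 → A) : Alt 3 g x = 0 := by
  have h1 := Alt_rot g x (finRotate 3)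
  have h2 : Alt 3 (fun y => g (y ∘ finRotate 3)) x = 0 := by
    rw [Alt_succ]
    refine sum_eq_zero fun i _ => ?_
    have h3 : (fun t : Fin 2 → A => g ((Fin.cons (x i) t : Fin 3 → A) ∘ finRotate 3)) =
        fun t => g ![t 0, t 1, x i] := by
      funext t
      congr 1
      funext j
      fin_cases j <;> rfl
    rw [h3, h, smul_zero]
  rw [h2] at h1
  rcases Int.units_eq_one_or (Perm.sign (finRotate 3)) with h4 | h4
  · rw [h4, one_smul] at h1
    exact h1.symm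
  · rw [h4, Units.neg_smul, one_smul] at h1
    exact neg_eq_zero.1 h1.symm

end alt

section

variable {A : Type v} [NonUnitalNonAssocRing A]

def PP1B (b : A) (t : Fin 4 → A) (u v : A) : A :=
  pe1B b t (u * v) - pe1B b t v * u + pe1B b t u * v

def PP2B (b c : A) (t : Fin 3 → A) (u v : A) : A :=
  pe2B b c t (u * v) - pe2B b c t v * u + pe2B b c t u * v

def PP3B (b c d : A) (t : Fin 2 → A) (u v : A) : A :=
  pe3B b c d t (u * v) - pe3B b c d t v * u + pe3B b c d t u * v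

theorem PP1_ev (w : ℕ → A) (b x0 x1 x2 x3 u v : PEx) : (PEx.PP1 b x0 x1 x2 x3 u v).ev w =
    PP1B (b.ev w) ![x0.ev w, x1.ev w, x2.ev w, x3.ev w] (u.ev w) (v.ev w) := rfl

theorem PP2_ev (w : ℕ → A) (b c x0 x1 x2 u v : PEx) : (PEx.PP2 b c x0 x1 x2 u v).ev w =
    PP2B (b.ev w) (c.ev w) ![x0.ev w, x1.ev w, x2.ev w] (u.ev w) (v.ev w) := by
  unfold PEx.PP2 PP2B
  show (PEx.pe2 b c x0 x1 x2 (u * v)).ev w - (PEx.pe2 b c x0 x1 x2 v).ev w * u.ev w +
    (PEx.pe2 b c x0 x1 x2 u).ev w * v.ev w = _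
  rw [pe2_ev, pe2_ev, pe2_ev]
  rfl

theorem PP3_ev (w : ℕ → A) (b c d x0 x1 u v : PEx) : (PEx.PP3 b c d x0 x1 u v).ev w =
    PP3B (b.ev w) (c.ev w) (d.ev w) ![x0.ev w, x1.ev w] (u.ev w) (v.ev w) := by
  unfold PEx.PP3 PP3B
  show (PEx.pe3 b c d x0 x1 (u * v)).ev w - (PEx.pe3 b c d x0 x1 v).ev w * u.ev w +
    (PEx.pe3 b c d x0 x1 u).ev w * v.ev w = _
  rw [pe3_ev, pe3_ev, pe3_ev]
  rfl

/-- the value of `AlEx` -/
def AlF (x x' a : A) (t : Fin 4 → A) : A :=
  16 • (pe1B x t a * x') + 20 • PP1B x t x' a - 15 • PP2B x a ![t 0, t 1, t 2] (t 3) x'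

/-- the value of `BeEx` -/
def BeF (u v a : A) (t : Fin 4 → A) : A :=
  16 • pe1B (u * v) t a + 12 • PP1B a t u v + 22 • PP2B v a ![t 0, t 1, t 2] (t 3) u -
    24 • PP2B u v ![t 0, t 1, t 2] (t 3) a + 48 • PP1B v t u a +
    3 • PP3B u v a ![t 0, t 1] (t 2) (t 3)

theorem AlEx_ev (w : ℕ → A) : AlEx.ev w = AlF (w 4) (w 5) (w 6) ![w 0, w 1, w 2, w 3] := by
  show 16 • ((PEx.pe1 (.X 4) (.X 0) (.X 1) (.X 2) (.X 3) (.X 6)).ev w * w 5) +
    20 • (PEx.PP1 (.X 4) (.X 0) (.X 1) (.X 2) (.X 3) (.X 5) (.X 6)).ev w -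
    15 • (PEx.PP2 (.X 4) (.X 6) (.X 0) (.X 1) (.X 2) (.X 3) (.X 5)).ev w = _
  rw [pe1_ev, PP1_ev, PP2_ev]
  rfl

theorem BeEx_ev (w : ℕ → A) : BeEx.ev w = BeF (w 4) (w 5) (w 6) ![w 0, w 1, w 2, w 3] := by
  show 16 • (PEx.pe1 (.X 4 * .X 5) (.X 0) (.X 1) (.X 2) (.X 3) (.X 6)).ev w +
    12 • (PEx.PP1 (.X 6) (.X 0) (.X 1) (.X 2) (.X 3) (.X 4) (.X 5)).ev w +
    22 • (PEx.PP2 (.X 5) (.X 6) (.X 0) (.X 1) (.X 2) (.X 3) (.X 4)).ev w -
    24 • (PEx.PP2 (.X 4) (.X 5) (.X 0) (.X 1) (.X 2) (.X 3) (.X 6)).ev w +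
    48 • (PEx.PP1 (.X 5) (.X 0) (.X 1) (.X 2) (.X 3) (.X 4) (.X 6)).ev w +
    3 • (PEx.PP3 (.X 4) (.X 5) (.X 6) (.X 0) (.X 1) (.X 2) (.X 3)).ev w = _
  rw [pe1_ev, PP1_ev, PP1_ev, PP2_ev, PP2_ev, PP3_ev]
  rfl

end

variable (F : Type u) [Field F] {A : Type v} [NonUnitalNonAssocRing A] [Module F A]
  [IsScalarTower F A A] [SMulCommClass F A A]

/-- the identity (P') -/
def HP (F : Type u) [Field F] (A : Type v) [NonUnitalNonAssocRing A] [Module F A]
    [IsScalarTower F A A] [SMulCommClass F A A] : Prop :=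
  ∀ x0 x1 x2 x3 x4 u v c : A,
    (ee F x0 x1 x2 x3 x4 (u * v) - ee F x0 x1 x2 x3 x4 v * u + ee F x0 x1 x2 x3 x4 u * v) * c = 0

variable {F}

theorem PP1_zero (hP : HP F A) (b u v c x0 x1 x2 x3 : A) :
    Alt 4 (fun t => PP1B b t u v * c) ![x0, x1, x2, x3] = 0 := by
  have h := hP b x0 x1 x2 x3 u v c
  rw [ee1, ee1, ee1, ← Alt_mul, ← Alt_mul, ← Alt_sub, ← Alt_add, ← Alt_mul] at h
  exact h

theorem PP2_zero (hP : HP F A) (b b' v c : A) (x : Fin 4 → A) :
    Alt 4 (fun t => PP2B b b' ![t 0, t 1, t 2] (t 3) v * c) x = 0 := by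
  apply alt_last4
  intro s y
  have h := hP b b' (y 0) (y 1) (y 2) s v c
  rw [ee2, ee2, ee2, ← Alt_mul, ← Alt_mul, ← Alt_sub, ← Alt_add, ← Alt_mul] at h
  have e : y = ![y 0, y 1, y 2] := by
    funext j; fin_cases j <;> rfl
  rw [e]
  exact h

theorem PP3_zero (hP : HP F A) (b b' b'' c : A) (x : Fin 4 → A) :
    Alt 4 (fun t => PP3B b b' b'' ![t 0, t 1] (t 2) (t 3) * c) x = 0 := by
  apply alt_last4
  intro s y
  show Alt 3 (fun t => PP3B b b' b'' ![t 0, t 1] (t 2) s * c) y = 0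
  apply alt_last3
  intro r z
  have h := hP b b' b'' (z 0) (z 1) r s c
  rw [ee3, ee3, ee3, ← Alt_mul, ← Alt_mul, ← Alt_sub, ← Alt_add, ← Alt_mul] at h
  have e : z = ![z 0, z 1] := by
    funext j; fin_cases j <;> rfl
  rw [e]
  exact h

variable (F) [CI 5 F]

theorem base_A3_ofP (C : Cert.{v} 5 idsM par1 (clsL [0, 0, 0, 0, 1, 1, 2]) AlEx) (hP : HP F A)
    (h : IsMalcev A) (x0 x1 x2 x3 x a c : A) : (ee F x0 x1 x2 x3 x a * x) * c = 0 := by
  have key := super_alt idsM_ml 4 par1 _ AlEx (by decide +kernel) (by decide +kernel)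
    (by decide) rfl (by decide +kernel) C (h.algM 5 F) (wv x a 0 0) ![x0, x1, x2, x3]
  have k0 : Alt 4 (fun t => AlF x x a t) ![x0, x1, x2, x3] = 0 := by
    rw [← key]
    congr 1
  have k1 : Alt 4 (fun t => AlF x x a t * c) ![x0, x1, x2, x3] = 0 := by
    rw [Alt_mul, k0, zero_mul]
  have k2 : (fun t => AlF x x a t * c) = fun t => 16 • (pe1B x t a * x * c) +
      20 • (PP1B x t x a * c) - 15 • (PP2B x a ![t 0, t 1, t 2] (t 3) x * c) := by
    funext t
    unfold AlF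
    rw [sub_mul, add_mul, smul_mul_assoc, smul_mul_assoc, smul_mul_assoc]
  rw [k2, Alt_sub, Alt_add, Alt_nsmul, Alt_nsmul, Alt_nsmul, PP1_zero hP, PP2_zero hP, smul_zero,
    smul_zero, add_zero, sub_zero, Alt_mul, Alt_mul, ← ee1 F, ← eeA_rot F] at k1
  exact tf_of_field (M := 5) F 16 _ smooth_16 (by rw [← k1]; exact ofNat_zsmul _ 16)

/-- the embedding `i ↦ i` -/
def em46 : Fin 4 ↪ Fin 6 := ⟨![0, 1, 2, 3], by decide⟩

theorem em46_not {j : Fin 6} (hj : j = 4 ∨ j = 5) : j ∉ Set.range em46 := by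
  rintro ⟨i, hi⟩
  revert hi hj
  revert i j
  decide

/-- the permutations used for (beta) -/
def tb (r : Perm (Fin 4) × Bool) : Perm (Fin 6) :=
  r.1.viaFintypeEmbedding em46 * bp (swap 4 5) r.2

theorem bp_em46 (b : Bool) (i : Fin 4) : bp (swap (4 : Fin 6) 5) b (em46 i) = em46 i := by
  revert i b
  decide

theorem tb_em (r : Perm (Fin 4) × Bool) (i : Fin 4) : tb r (em46 i) = em46 (r.1 i) := by
  unfold tb
  rw [Perm.mul_apply, bp_em46, Perm.viaFintypeEmbedding_apply_image]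

theorem tb_4 (τ : Perm (Fin 4)) (b : Bool) : tb (τ, b) 4 = if b then 5 else 4 := by
  unfold tb
  rw [Perm.mul_apply]
  cases b with
  | true =>
    show (τ.viaFintypeEmbedding em46) (swap 4 5 4) = 5
    rw [swap_apply_left]
    exact Perm.viaFintypeEmbedding_apply_notMem_range τ em46 (em46_not (Or.inr rfl))
  | false =>
    exact Perm.viaFintypeEmbedding_apply_notMem_range τ em46 (em46_not (Or.inl rfl))

theorem tb_5 (τ : Perm (Fin 4)) (b : Bool) : tb (τ, b) 5 = if b then 4 else 5 := by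
  unfold tb
  rw [Perm.mul_apply]
  cases b with
  | true =>
    show (τ.viaFintypeEmbedding em46) (swap 4 5 5) = 4
    rw [swap_apply_right]
    exact Perm.viaFintypeEmbedding_apply_notMem_range τ em46 (em46_not (Or.inl rfl))
  | false =>
    exact Perm.viaFintypeEmbedding_apply_notMem_range τ em46 (em46_not (Or.inr rfl))

theorem tb_sign (τ : Perm (Fin 4)) (b : Bool) :
    Perm.sign (tb (τ, b)) = Perm.sign τ * (if b then -1 else 1) := by
  unfold tb
  rw [Perm.sign_mul, Perm.viaFintypeEmbedding_sign]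
  congr 1
  show Perm.sign (bp (swap (4 : Fin 6) 5) b) = _
  revert b
  decide

theorem em46_cls : ∀ i j : Fin 6, i ≠ j →
    clsL [0, 0, 0, 0, 1, 1, 2] i = clsL [0, 0, 0, 0, 1, 1, 2] j →
    (∃ i' j' : Fin 4, i' ≠ j' ∧ em46 i' = i ∧ em46 j' = j) ∨ (i = 4 ∧ j = 5) ∨
      (i = 5 ∧ j = 4) := by decide

theorem tb_cls (r : Perm (Fin 4) × Bool) (i : Fin 6) :
    clsL [0, 0, 0, 0, 1, 1, 2] (tb r i) = clsL [0, 0, 0, 0, 1, 1, 2] i := by
  obtain ⟨τ, b⟩ := r
  have h1 : ∀ i : Fin 6, (∃ i' : Fin 4, em46 i' = i) ∨ i = 4 ∨ i = 5 := by decide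
  have h3 : ∀ a b : Fin 4, clsL [0, 0, 0, 0, 1, 1, 2] (em46 a) =
    clsL [0, 0, 0, 0, 1, 1, 2] (em46 b) := by decide
  rcases h1 i with ⟨i', rfl⟩ | rfl | rfl
  · rw [tb_em]
    exact h3 _ _
  · rw [tb_4]
    cases b <;> rfl
  · rw [tb_5]
    cases b <;> rfl

theorem base_a_ofP (C : Cert.{v} 5 idsM par2 (clsL [0, 0, 0, 0, 1, 1, 2]) BeEx) (hP : HP F A)
    (h : IsMalcev A) (u v x0 x1 x2 x3 a c : A) : ee F (u * v) x0 x1 x2 x3 a * c = 0 := by
  have key := super_skew2 (hsm := by decide +kernel) idsM_ml 6 par2 (clsL [0, 0, 0, 0, 1, 1, 2]) BeEx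
    (by decide +kernel) (by decide +kernel) (by decide) (by decide +kernel) C (h.algM 5 F)
    (fun _ => a) tb tb_cls
    (fun q => Alt 4 (fun t => BeF (q 4) (q 5) a t - BeF (q 5) (q 4) a t) (q ∘ em46))
    (fun q => by
      rw [Fintype.sum_prod_type]
      unfold Alt
      refine sum_congr rfl fun τ _ => ?_
      rw [Fintype.sum_bool, BeEx_ev, BeEx_ev, tb_sign, tb_sign, if_pos rfl]
      have e1 : ∀ b : Bool, (![asg 6 (clsL [0, 0, 0, 0, 1, 1, 2]) (q ∘ tb (τ, b)) (fun _ => a) 0,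
          asg 6 (clsL [0, 0, 0, 0, 1, 1, 2]) (q ∘ tb (τ, b)) (fun _ => a) 1,
          asg 6 (clsL [0, 0, 0, 0, 1, 1, 2]) (q ∘ tb (τ, b)) (fun _ => a) 2,
          asg 6 (clsL [0, 0, 0, 0, 1, 1, 2]) (q ∘ tb (τ, b)) (fun _ => a) 3] : Fin 4 → A) =
          (q ∘ em46) ∘ τ := by
        intro b
        funext j
        have e2 : (((q ∘ em46) ∘ τ) j : A) = q (tb (τ, b) (em46 j)) := by
          rw [tb_em]
          rfl
        rw [e2]
        fin_cases j <;> rfl
      have e4 : ∀ b : Bool, asg 6 (clsL [0, 0, 0, 0, 1, 1, 2]) (q ∘ tb (τ, b)) (fun _ => a) 4 =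
          q (if b then 5 else 4) := by
        intro b
        rw [← tb_4 τ b]
        rfl
      have e5 : ∀ b : Bool, asg 6 (clsL [0, 0, 0, 0, 1, 1, 2]) (q ∘ tb (τ, b)) (fun _ => a) 5 =
          q (if b then 4 else 5) := by
        intro b
        rw [← tb_5 τ b]
        rfl
      have e6 : ∀ b : Bool, asg 6 (clsL [0, 0, 0, 0, 1, 1, 2]) (q ∘ tb (τ, b)) (fun _ => a) 6 =
          a := fun b => rfl
      rw [e1, e1, e4, e4, e5, e5, e6, e6]
      simp only [if_true, Bool.false_eq_true, if_false, mul_one, mul_neg, Units.val_neg]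
      rw [neg_smul, add_comm, ← sub_eq_add_neg, ← smul_sub]
      rfl)
    (fun i j hij hc q => by
      rcases em46_cls i j hij hc with ⟨i', j', h1, rfl, rfl⟩ | ⟨rfl, rfl⟩ | ⟨rfl, rfl⟩
      · have e1 : (q ∘ swap (em46 i') (em46 j')) ∘ em46 = (q ∘ em46) ∘ swap i' j' := by
          funext l
          simp only [Function.comp_apply]
          rw [em46.injective.swap_apply]
        have e5 : (q ∘ swap (em46 i') (em46 j')) 4 = q 4 := by
          have h5 := em46_not (j := 4) (Or.inl rfl)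
          rw [Function.comp_apply, swap_apply_of_ne_of_ne]
          · rintro e; exact h5 ⟨i', e.symm⟩
          · rintro e; exact h5 ⟨j', e.symm⟩
        have e6 : (q ∘ swap (em46 i') (em46 j')) 5 = q 5 := by
          have h5 := em46_not (j := 5) (Or.inr rfl)
          rw [Function.comp_apply, swap_apply_of_ne_of_ne]
          · rintro e; exact h5 ⟨i', e.symm⟩
          · rintro e; exact h5 ⟨j', e.symm⟩
        rw [e1, e5, e6, Alt_swap _ _ h1]
      · have e1 : (q ∘ swap (4 : Fin 6) 5) ∘ em46 = q ∘ em46 := by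
          funext l
          simp only [Function.comp_apply]
          rw [swap_apply_of_ne_of_ne]
          · rintro e; exact em46_not (j := 4) (Or.inl rfl) ⟨l, e⟩
          · rintro e; exact em46_not (j := 5) (Or.inr rfl) ⟨l, e⟩
        have e5 : (q ∘ swap (4 : Fin 6) 5) 4 = q 5 := rfl
        have e6 : (q ∘ swap (4 : Fin 6) 5) 5 = q 4 := rfl
        rw [e1, e5, e6, Alt_sub, Alt_sub, neg_sub]
      · have e1 : (q ∘ swap (5 : Fin 6) 4) ∘ em46 = q ∘ em46 := by
          funext l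
          simp only [Function.comp_apply]
          rw [swap_apply_of_ne_of_ne]
          · rintro e; exact em46_not (j := 5) (Or.inr rfl) ⟨l, e⟩
          · rintro e; exact em46_not (j := 4) (Or.inl rfl) ⟨l, e⟩
        have e5 : (q ∘ swap (5 : Fin 6) 4) 4 = q 5 := rfl
        have e6 : (q ∘ swap (5 : Fin 6) 4) 5 = q 4 := rfl
        rw [e1, e5, e6, Alt_sub, Alt_sub, neg_sub]) ![x0, x1, x2, x3, u, v]
  have e1 : ((![x0, x1, x2, x3, u, v] : Fin 6 → A) ∘ em46) = ![x0, x1, x2, x3] := by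
    funext l; fin_cases l <;> rfl
  have e4 : (![x0, x1, x2, x3, u, v] : Fin 6 → A) 4 = u := rfl
  have e5 : (![x0, x1, x2, x3, u, v] : Fin 6 → A) 5 = v := rfl
  simp only [e1, e4, e5] at key
  have k1 : Alt 4 (fun t => (BeF u v a t - BeF v u a t) * c) ![x0, x1, x2, x3] = 0 := by
    rw [Alt_mul, key, zero_mul]
  have k2 : ∀ u v : A, (fun t => BeF u v a t * c) = fun t => 16 • (pe1B (u * v) t a * c) +
      12 • (PP1B a t u v * c) + 22 • (PP2B v a ![t 0, t 1, t 2] (t 3) u * c) -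
      24 • (PP2B u v ![t 0, t 1, t 2] (t 3) a * c) + 48 • (PP1B v t u a * c) +
      3 • (PP3B u v a ![t 0, t 1] (t 2) (t 3) * c) := by
    intro u v
    funext t
    unfold BeF
    rw [add_mul, add_mul, sub_mul, add_mul, add_mul, smul_mul_assoc, smul_mul_assoc,
      smul_mul_assoc, smul_mul_assoc, smul_mul_assoc, smul_mul_assoc]
  have k3 : ∀ u v : A, Alt 4 (fun t => BeF u v a t * c) ![x0, x1, x2, x3] =
      16 • (ee F (u * v) x0 x1 x2 x3 a * c) := by
    intro u v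
    rw [k2, Alt_add, Alt_add, Alt_sub, Alt_add, Alt_add, Alt_nsmul, Alt_nsmul, Alt_nsmul,
      Alt_nsmul, Alt_nsmul, Alt_nsmul, PP1_zero hP, PP1_zero hP, PP2_zero hP, PP2_zero hP,
      PP3_zero hP, smul_zero, smul_zero, smul_zero, smul_zero, smul_zero, add_zero, add_zero,
      sub_zero, add_zero, add_zero, Alt_mul, ← ee1 F]
  have k4 : (fun t => (BeF u v a t - BeF v u a t) * c) =
      fun t => BeF u v a t * c - BeF v u a t * c := by
    funext t
    rw [sub_mul]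
  have k5 : ee F (v * u) x0 x1 x2 x3 a = - ee F (u * v) x0 x1 x2 x3 a := by
    have e6 : v * u = -(u * v) := h.ac v u
    have e7 : (![-(u * v), x0, x1, x2, x3] : Fin 5 → A) =
        Function.update ![u * v, x0, x1, x2, x3] 0 (-(u * v)) := by
      funext l; fin_cases l <;> rfl
    have e8 : (![u * v, x0, x1, x2, x3] : Fin 5 → A) =
        Function.update ![u * v, x0, x1, x2, x3] 0 (u * v) := by
      funext l; fin_cases l <;> rfl
    unfold ee
    rw [e6, e7, AlternatingMap.map_update_neg, ← e8, LinearMap.neg_apply]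
  rw [k4, Alt_sub, k3, k3, k5, neg_mul, smul_neg, sub_neg_eq_add, ← add_smul] at k1
  exact tf_of_field (M := 5) F 32 _ smooth_32 (by rw [← k1]; exact ofNat_zsmul _ 32)

end Pool.Agent.MalP
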