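import Pool.Agent.MalP.BaseEx

/-! # The two identities of degree 7 which give (A3) and (a') from (P') -/

set_option autoImplicit false

namespace Pool.Agent.MalP

namespace PEx

/-- `P(b, t; u, v)`, the alternation in `t` of one placed argument -/
def PP1 (b t0 t1 t2 t3 u v : PEx) : PEx :=
  pe1 b t0 t1 t2 t3 (u * v) - pe1 b t0 t1 t2 t3 v * u + pe1 b t0 t1 t2 t3 u * v

/-- two placed arguments -/
def PP2 (b c t0 t1 t2 u v : PEx) : PEx :=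
  pe2 b c t0 t1 t2 (u * v) - pe2 b c t0 t1 t2 v * u + pe2 b c t0 t1 t2 u * v

/-- three placed arguments -/
def PP3 (b c d t0 t1 u v : PEx) : PEx :=
  pe3 b c d t0 t1 (u * v) - pe3 b c d t0 t1 v * u + pe3 b c d t0 t1 u * v

end PEx

/-- (alpha): letters 0..3 odd; x = 4, 5 even; a = 6 even -/
def AlEx : PEx :=
  16 • (PEx.pe1 (.X 4) (.X 0) (.X 1) (.X 2) (.X 3) (.X 6) * .X 5) +
    20 • PEx.PP1 (.X 4) (.X 0) (.X 1) (.X 2) (.X 3) (.X 5) (.X 6) -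
    15 • PEx.PP2 (.X 4) (.X 6) (.X 0) (.X 1) (.X 2) (.X 3) (.X 5)

/-- (beta): letters 0..3 odd; u = 4, v = 5 odd (another generator); a = 6 even -/
def BeEx : PEx :=
  16 • PEx.pe1 (.X 4 * .X 5) (.X 0) (.X 1) (.X 2) (.X 3) (.X 6) +
    12 • PEx.PP1 (.X 6) (.X 0) (.X 1) (.X 2) (.X 3) (.X 4) (.X 5) +
    22 • PEx.PP2 (.X 5) (.X 6) (.X 0) (.X 1) (.X 2) (.X 3) (.X 4) -
    24 • PEx.PP2 (.X 4) (.X 5) (.X 0) (.X 1) (.X 2) (.X 3) (.X 6) +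
    48 • PEx.PP1 (.X 5) (.X 0) (.X 1) (.X 2) (.X 3) (.X 4) (.X 6) +
    3 • PEx.PP3 (.X 4) (.X 5) (.X 6) (.X 0) (.X 1) (.X 2) (.X 3)

theorem AlBe_ml : [AlEx, BeEx].all PEx.ml = true := by decide +kernel

end Pool.Agent.MalP
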