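import Pool.Agent.MalP.Check4
import Pool.Agent.MalP.A4xEx

/-! # Certificate of A4xEx -/

set_option autoImplicit false
set_option maxRecDepth 100000

namespace Pool.Agent.MalP

universe u

namespace Chk

noncomputable def dA4s_c289 : Cm := .mk (nat_lit 14) (nat_lit 289) (nat_lit 17) (nat_lit 4) (.c (nat_lit 5) (nat_lit 1) (nat_lit 3) (nat_lit 1) (nat_lit 4) (.c (nat_lit 7) (nat_lit 1) (nat_lit 2) (nat_lit 1) (nat_lit 5) (.c (nat_lit 8) (nat_lit 3) (nat_lit 1) (nat_lit 1) (nat_lit 6) (.c (nat_lit 11) (nat_lit 1) (nat_lit 0) (nat_lit 1) (nat_lit 9) (.c (nat_lit 2032) (nat_lit 0) (nat_lit 4) (nat_lit 1) (nat_lit 10) .nil)))))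

noncomputable def dA4s_c274 : Cm := .mk (nat_lit 20) (nat_lit 274) (nat_lit 21) (nat_lit 6) (.c (nat_lit 5) (nat_lit 1) (nat_lit 4) (nat_lit 1) (nat_lit 6) (.c (nat_lit 6) (nat_lit 1) (nat_lit 3) (nat_lit 1) (nat_lit 7) (.c (nat_lit 8) (nat_lit 3) (nat_lit 2) (nat_lit 1) (nat_lit 8) (.c (nat_lit 12) (nat_lit 2) (nat_lit 1) (nat_lit 1) (nat_lit 11) (.c (nat_lit 14) (nat_lit 2) (nat_lit 0) (nat_lit 1) (nat_lit 13) .nil)))))

noncomputable def dA4s_c34 : Cm := .mk (nat_lit 29) (nat_lit 34) (nat_lit 27) (nat_lit 3) (.c (nat_lit 5) (nat_lit 1) (nat_lit 5) (nat_lit 1) (nat_lit 3) (.c (nat_lit 11) (nat_lit 1) (nat_lit 2) (nat_lit 1) (nat_lit 4) (.c (nat_lit 14) (nat_lit 2) (nat_lit 1) (nat_lit 1) (nat_lit 5) (.c (nat_lit 2032) (nat_lit 0) (nat_lit 6) (nat_lit 1) (nat_lit 7) .nil))))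

noncomputable def dA4s_c259 : Cm := .mk (nat_lit 33) (nat_lit 259) (nat_lit 30) (nat_lit 3) (.c (nat_lit 6) (nat_lit 1) (nat_lit 4) (nat_lit 1) (nat_lit 3) (.c (nat_lit 12) (nat_lit 2) (nat_lit 2) (nat_lit 1) (nat_lit 4) (.c (nat_lit 16) (nat_lit 1) (nat_lit 0) (nat_lit 1) (nat_lit 6) .nil)))

noncomputable def dA4s_c19 : Cm := .mk (nat_lit 37) (nat_lit 19) (nat_lit 33) (nat_lit 3) (.c (nat_lit 6) (nat_lit 1) (nat_lit 5) (nat_lit 1) (nat_lit 3) (.c (nat_lit 14) (nat_lit 2) (nat_lit 2) (nat_lit 1) (nat_lit 4) (.c (nat_lit 16) (nat_lit 1) (nat_lit 1) (nat_lit 1) (nat_lit 6) .nil)))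

noncomputable def dA4s_c290 : Cm := .mk (nat_lit 42) (nat_lit 290) (nat_lit 37) (nat_lit 11) (.c (nat_lit 7) (nat_lit 1) (nat_lit 6) (nat_lit 1) (nat_lit 11) (.c (nat_lit 8) (nat_lit 3) (nat_lit 5) (nat_lit 1) (nat_lit 12) (.c (nat_lit 11) (nat_lit 1) (nat_lit 4) (nat_lit 1) (nat_lit 15) (.c (nat_lit 14) (nat_lit 2) (nat_lit 3) (nat_lit 1) (nat_lit 16) (.c (nat_lit 17) (nat_lit 4) (nat_lit 2) (nat_lit 1) (nat_lit 18) (.c (nat_lit 21) (nat_lit 6) (nat_lit 1) (nat_lit 1) (nat_lit 22) (.c (nat_lit 27) (nat_lit 3) (nat_lit 0) (nat_lit 1) (nat_lit 28) (.c (nat_lit 2032) (nat_lit 0) (nat_lit 12) (nat_lit 2) (nat_lit 31) .nil))))))))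

noncomputable def dA4s_c275 : Cm := .mk (nat_lit 62) (nat_lit 275) (nat_lit 48) (nat_lit 11) (.c (nat_lit 8) (nat_lit 3) (nat_lit 6) (nat_lit 1) (nat_lit 11) (.c (nat_lit 12) (nat_lit 2) (nat_lit 5) (nat_lit 1) (nat_lit 14) (.c (nat_lit 14) (nat_lit 2) (nat_lit 4) (nat_lit 1) (nat_lit 16) (.c (nat_lit 16) (nat_lit 1) (nat_lit 3) (nat_lit 1) (nat_lit 18) (.c (nat_lit 21) (nat_lit 6) (nat_lit 2) (nat_lit 1) (nat_lit 19) (.c (nat_lit 30) (nat_lit 3) (nat_lit 1) (nat_lit 1) (nat_lit 25) (.c (nat_lit 33) (nat_lit 3) (nat_lit 0) (nat_lit 1) (nat_lit 28) .nil)))))))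

noncomputable def dA4s_c35 : Cm := .mk (nat_lit 82) (nat_lit 35) (nat_lit 59) (nat_lit 5) (.c (nat_lit 11) (nat_lit 1) (nat_lit 6) (nat_lit 1) (nat_lit 5) (.c (nat_lit 14) (nat_lit 2) (nat_lit 5) (nat_lit 1) (nat_lit 6) (.c (nat_lit 27) (nat_lit 3) (nat_lit 2) (nat_lit 1) (nat_lit 8) (.c (nat_lit 33) (nat_lit 3) (nat_lit 1) (nat_lit 1) (nat_lit 11) (.c (nat_lit 2032) (nat_lit 0) (nat_lit 16) (nat_lit 1) (nat_lit 14) .nil)))))

noncomputable def dA4s_c260 : Cm := .mk (nat_lit 91) (nat_lit 260) (nat_lit 64) (nat_lit 4) (.c (nat_lit 12) (nat_lit 2) (nat_lit 6) (nat_lit 1) (nat_lit 4) (.c (nat_lit 16) (nat_lit 1) (nat_lit 4) (nat_lit 1) (nat_lit 6) (.c (nat_lit 30) (nat_lit 3) (nat_lit 2) (nat_lit 1) (nat_lit 7) (.c (nat_lit 36) (nat_lit 1) (nat_lit 0) (nat_lit 1) (nat_lit 10) .nil))))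

noncomputable def dA4s_c20 : Cm := .mk (nat_lit 98) (nat_lit 20) (nat_lit 68) (nat_lit 4) (.c (nat_lit 14) (nat_lit 2) (nat_lit 6) (nat_lit 1) (nat_lit 4) (.c (nat_lit 16) (nat_lit 1) (nat_lit 5) (nat_lit 1) (nat_lit 6) (.c (nat_lit 33) (nat_lit 3) (nat_lit 2) (nat_lit 1) (nat_lit 7) (.c (nat_lit 36) (nat_lit 1) (nat_lit 1) (nat_lit 1) (nat_lit 10) .nil))))

noncomputable def dA4s_c5 : Cm := .mk (nat_lit 105) (nat_lit 5) (nat_lit 72) (nat_lit 1) (.c (nat_lit 16) (nat_lit 1) (nat_lit 6) (nat_lit 1) (nat_lit 1) (.c (nat_lit 36) (nat_lit 1) (nat_lit 2) (nat_lit 1) (nat_lit 2) .nil))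

noncomputable def dA4s_c291 : Cm := .mk (nat_lit 107) (nat_lit 291) (nat_lit 73) (nat_lit 21) (.c (nat_lit 12) (nat_lit 2) (nat_lit 11) (nat_lit 1) (nat_lit 21) (.c (nat_lit 14) (nat_lit 2) (nat_lit 8) (nat_lit 3) (nat_lit 23) (.c (nat_lit 16) (nat_lit 1) (nat_lit 7) (nat_lit 1) (nat_lit 29) (.c (nat_lit 17) (nat_lit 4) (nat_lit 6) (nat_lit 1) (nat_lit 30) (.c (nat_lit 21) (nat_lit 6) (nat_lit 5) (nat_lit 1) (nat_lit 34) (.c (nat_lit 27) (nat_lit 3) (nat_lit 4) (nat_lit 1) (nat_lit 40) (.c (nat_lit 33) (nat_lit 3) (nat_lit 3) (nat_lit 1) (nat_lit 43) (.c (nat_lit 37) (nat_lit 11) (nat_lit 2) (nat_lit 1) (nat_lit 46) (.c (nat_lit 48) (nat_lit 11) (nat_lit 1) (nat_lit 1) (nat_lit 57) (.c (nat_lit 59) (nat_lit 5) (nat_lit 0) (nat_lit 1) (nat_lit 68) (.c (nat_lit 2032) (nat_lit 0) (nat_lit 30) (nat_lit 3) (nat_lit 73) .nil)))))))))))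

noncomputable def dA4s_c276 : Cm := .mk (nat_lit 159) (nat_lit 276) (nat_lit 94) (nat_lit 16) (.c (nat_lit 14) (nat_lit 2) (nat_lit 12) (nat_lit 2) (nat_lit 16) (.c (nat_lit 16) (nat_lit 1) (nat_lit 8) (nat_lit 3) (nat_lit 20) (.c (nat_lit 21) (nat_lit 6) (nat_lit 6) (nat_lit 1) (nat_lit 23) (.c (nat_lit 30) (nat_lit 3) (nat_lit 5) (nat_lit 1) (nat_lit 29) (.c (nat_lit 33) (nat_lit 3) (nat_lit 4) (nat_lit 1) (nat_lit 32) (.c (nat_lit 36) (nat_lit 1) (nat_lit 3) (nat_lit 1) (nat_lit 35) (.c (nat_lit 48) (nat_lit 11) (nat_lit 2) (nat_lit 1) (nat_lit 36) (.c (nat_lit 64) (nat_lit 4) (nat_lit 1) (nat_lit 1) (nat_lit 47) (.c (nat_lit 68) (nat_lit 4) (nat_lit 0) (nat_lit 1) (nat_lit 51) .nil)))))))))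

noncomputable def dA4s_c36 : Cm := .mk (nat_lit 198) (nat_lit 36) (nat_lit 110) (nat_lit 6) (.c (nat_lit 14) (nat_lit 2) (nat_lit 14) (nat_lit 2) (nat_lit 6) (.c (nat_lit 16) (nat_lit 1) (nat_lit 11) (nat_lit 1) (nat_lit 10) (.c (nat_lit 27) (nat_lit 3) (nat_lit 6) (nat_lit 1) (nat_lit 11) (.c (nat_lit 33) (nat_lit 3) (nat_lit 5) (nat_lit 1) (nat_lit 14) (.c (nat_lit 59) (nat_lit 5) (nat_lit 2) (nat_lit 1) (nat_lit 17) (.c (nat_lit 68) (nat_lit 4) (nat_lit 1) (nat_lit 1) (nat_lit 22) (.c (nat_lit 2032) (nat_lit 0) (nat_lit 36) (nat_lit 1) (nat_lit 26) .nil)))))))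

noncomputable def dA4s_c261 : Cm := .mk (nat_lit 215) (nat_lit 261) (nat_lit 116) (nat_lit 5) (.c (nat_lit 16) (nat_lit 1) (nat_lit 12) (nat_lit 2) (nat_lit 5) (.c (nat_lit 30) (nat_lit 3) (nat_lit 6) (nat_lit 1) (nat_lit 7) (.c (nat_lit 36) (nat_lit 1) (nat_lit 4) (nat_lit 1) (nat_lit 10) (.c (nat_lit 64) (nat_lit 4) (nat_lit 2) (nat_lit 1) (nat_lit 11) (.c (nat_lit 72) (nat_lit 1) (nat_lit 0) (nat_lit 1) (nat_lit 15) .nil)))))

noncomputable def dA4s_c21 : Cm := .mk (nat_lit 225) (nat_lit 21) (nat_lit 121) (nat_lit 5) (.c (nat_lit 16) (nat_lit 1) (nat_lit 14) (nat_lit 2) (nat_lit 5) (.c (nat_lit 33) (nat_lit 3) (nat_lit 6) (nat_lit 1) (nat_lit 7) (.c (nat_lit 36) (nat_lit 1) (nat_lit 5) (nat_lit 1) (nat_lit 10) (.c (nat_lit 68) (nat_lit 4) (nat_lit 2) (nat_lit 1) (nat_lit 11) (.c (nat_lit 72) (nat_lit 1) (nat_lit 1) (nat_lit 1) (nat_lit 15) .nil)))))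

noncomputable def dA4s_c292 : Cm := .mk (nat_lit 236) (nat_lit 292) (nat_lit 126) (nat_lit 30) (.c (nat_lit 17) (nat_lit 4) (nat_lit 16) (nat_lit 1) (nat_lit 30) (.c (nat_lit 21) (nat_lit 6) (nat_lit 14) (nat_lit 2) (nat_lit 34) (.c (nat_lit 27) (nat_lit 3) (nat_lit 12) (nat_lit 2) (nat_lit 46) (.c (nat_lit 30) (nat_lit 3) (nat_lit 11) (nat_lit 1) (nat_lit 52) (.c (nat_lit 33) (nat_lit 3) (nat_lit 8) (nat_lit 3) (nat_lit 55) (.c (nat_lit 36) (nat_lit 1) (nat_lit 7) (nat_lit 1) (nat_lit 64) (.c (nat_lit 37) (nat_lit 11) (nat_lit 6) (nat_lit 1) (nat_lit 65) (.c (nat_lit 48) (nat_lit 11) (nat_lit 5) (nat_lit 1) (nat_lit 76) (.c (nat_lit 59) (nat_lit 5) (nat_lit 4) (nat_lit 1) (nat_lit 87) (.c (nat_lit 68) (nat_lit 4) (nat_lit 3) (nat_lit 1) (nat_lit 92) (.c (nat_lit 73) (nat_lit 21) (nat_lit 2) (nat_lit 1) (nat_lit 96) (.c (nat_lit 94) (nat_lit 16) (nat_lit 1) (nat_lit 1) (nat_lit 117) (.c (nat_lit 110) (nat_lit 6) (nat_lit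 0) (nat_lit 1) (nat_lit 133) (.c (nat_lit 2032) (nat_lit 0) (nat_lit 64) (nat_lit 4) (nat_lit 139) .nil))))))))))))))

noncomputable def dA4s_c277 : Cm := .mk (nat_lit 335) (nat_lit 277) (nat_lit 156) (nat_lit 19) (.c (nat_lit 21) (nat_lit 6) (nat_lit 16) (nat_lit 1) (nat_lit 19) (.c (nat_lit 30) (nat_lit 3) (nat_lit 14) (nat_lit 2) (nat_lit 25) (.c (nat_lit 33) (nat_lit 3) (nat_lit 12) (nat_lit 2) (nat_lit 31) (.c (nat_lit 36) (nat_lit 1) (nat_lit 8) (nat_lit 3) (nat_lit 37) (.c (nat_lit 48) (nat_lit 11) (nat_lit 6) (nat_lit 1) (nat_lit 40) (.c (nat_lit 64) (nat_lit 4) (nat_lit 5) (nat_lit 1) (nat_lit 51) (.c (nat_lit 68) (nat_lit 4) (nat_lit 4) (nat_lit 1) (nat_lit 55) (.c (nat_lit 72) (nat_lit 1) (nat_lit 3) (nat_lit 1) (nat_lit 59) (.c (nat_lit 94) (nat_lit 16) (nat_lit 2) (nat_lit 1) (nat_lit 60) (.c (nat_lit 116) (nat_lit 5) (nat_lit 1) (nat_lit 1) (nat_lit 76) (.c (nat_lit 121) (nat_lit 5) (nat_lit 0) (nat_lit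 1) (nat_lit 81) .nil)))))))))))

noncomputable def dA4s_c37 : Cm := .mk (nat_lit 395) (nat_lit 37) (nat_lit 175) (nat_lit 8) (.c (nat_lit 27) (nat_lit 3) (nat_lit 16) (nat_lit 1) (nat_lit 8) (.c (nat_lit 33) (nat_lit 3) (nat_lit 14) (nat_lit 2) (nat_lit 11) (.c (nat_lit 36) (nat_lit 1) (nat_lit 11) (nat_lit 1) (nat_lit 17) (.c (nat_lit 59) (nat_lit 5) (nat_lit 6) (nat_lit 1) (nat_lit 18) (.c (nat_lit 68) (nat_lit 4) (nat_lit 5) (nat_lit 1) (nat_lit 23) (.c (nat_lit 110) (nat_lit 6) (nat_lit 2) (nat_lit 1) (nat_lit 27) (.c (nat_lit 121) (nat_lit 5) (nat_lit 1) (nat_lit 1) (nat_lit 33) (.c (nat_lit 2032) (nat_lit 0) (nat_lit 72) (nat_lit 1) (nat_lit 38) .nil))))))))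

noncomputable def dA4s_i0 : IL := (.s true (nat_lit 4) (nat_lit 5) (nat_lit 1) (nat_lit 4) (nat_lit 2) true (nat_lit 4) true (nat_lit 7) true (nat_lit 4) true (nat_lit 8) true (nat_lit 5) (.s false (nat_lit 2) (nat_lit 5) (nat_lit 2) (nat_lit 1) (nat_lit 4) false (nat_lit 0) true (nat_lit 5) true (nat_lit 4) true (nat_lit 7) true (nat_lit 8) (.s true (nat_lit 2) (nat_lit 5) (nat_lit 3) (nat_lit 2) (nat_lit 2) true (nat_lit 1) true (nat_lit 7) true (nat_lit 4) true (nat_lit 6) true (nat_lit 7) (.s true (nat_lit 1) (nat_lit 6) (nat_lit 1) (nat_lit 2) (nat_lit 3) true (nat_lit 2) true (nat_lit 6) true (nat_lit 3) true (nat_lit 8) true (nat_lit 7) (.s true (nat_lit 2) (nat_lit 6) (nat_lit 3) (nat_lit 2) (nat_lit 1) true (nat_lit 2) true (nat_lit 8) true (nat_lit 3) true (nat_lit 6) true (nat_lit 7) (.s true (nat_lit 1) (nat_lit 7) (nat_lit 2) (nat_lit 2) (nat_lit 2) true (nat_lit 3) true (nat_lit 7) true (nat_lit 2) true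 (nat_lit 7) true (nat_lit 7) (.s false (nat_lit 2) (nat_lit 8) (nat_lit 1) (nat_lit 2) (nat_lit 2) true (nat_lit 4) true (nat_lit 7) true (nat_lit 1) true (nat_lit 8) true (nat_lit 7) (.s true (nat_lit 2) (nat_lit 10) (nat_lit 1) (nat_lit 2) (nat_lit 2) true (nat_lit 4) true (nat_lit 7) true (nat_lit 1) true (nat_lit 8) true (nat_lit 7) (.s true (nat_lit 2) (nat_lit 8) (nat_lit 2) (nat_lit 1) (nat_lit 2) true (nat_lit 3) true (nat_lit 7) true (nat_lit 1) true (nat_lit 7) true (nat_lit 8) (.s true (nat_lit 2) (nat_lit 12) (nat_lit 1) (nat_lit 2) (nat_lit 1) false (nat_lit 10) true (nat_lit 8) false (nat_lit 0) true (nat_lit 8) true (nat_lit 7) (.s false (nat_lit 2) (nat_lit 14) (nat_lit 0) (nat_lit 1) (nat_lit 2) true (nat_lit 5) true (nat_lit 7) false (nat_lit 1) true (nat_lit 9) true (nat_lit 8) (.e false (nat_lit 864) (nat_lit 22) (nat_lit 5) (nat_lit 4) (.e false (nat_lit 1080) (nat_lit 41) (nat_lit 2) (nat_lit 7)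 (.e true (nat_lit 1080) (nat_lit 42) (nat_lit 2) (nat_lit 7) (.e false (nat_lit 216) (nat_lit 43) (nat_lit 2) (nat_lit 7) (.e true (nat_lit 216) (nat_lit 44) (nat_lit 2) (nat_lit 7) (.e true (nat_lit 216) (nat_lit 45) (nat_lit 2) (nat_lit 7) (.e false (nat_lit 216) (nat_lit 47) (nat_lit 2) (nat_lit 7) (.e true (nat_lit 432) (nat_lit 48) (nat_lit 1) (nat_lit 8) (.e false (nat_lit 432) (nat_lit 49) (nat_lit 1) (nat_lit 8) (.e true (nat_lit 216) (nat_lit 34) (nat_lit 3) (nat_lit 6) (.e true (nat_lit 216) (nat_lit 19) (nat_lit 6) (nat_lit 3) (.e false (nat_lit 216) (nat_lit 20) (nat_lit 6) (nat_lit 3) (.e true (nat_lit 216) (nat_lit 57) (nat_lit 1) (nat_lit 8) (.e true (nat_lit 432) (nat_lit 50) (nat_lit 1) (nat_lit 8) .nil)))))))))))))))))))))))))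

noncomputable def dA4s_i1 : IL := (.s false (nat_lit 1) (nat_lit 5) (nat_lit 1) (nat_lit 4) (nat_lit 2) true (nat_lit 4) true (nat_lit 7) true (nat_lit 4) true (nat_lit 8) true (nat_lit 5) (.s true (nat_lit 1) (nat_lit 5) (nat_lit 2) (nat_lit 1) (nat_lit 4) false (nat_lit 0) true (nat_lit 5) true (nat_lit 4) true (nat_lit 7) true (nat_lit 8) (.s false (nat_lit 1) (nat_lit 5) (nat_lit 2) (nat_lit 4) (nat_lit 1) true (nat_lit 4) true (nat_lit 8) true (nat_lit 4) true (nat_lit 7) true (nat_lit 5) (.s true (nat_lit 1) (nat_lit 5) (nat_lit 3) (nat_lit 2) (nat_lit 2) true (nat_lit 1) true (nat_lit 7) true (nat_lit 4) true (nat_lit 6) true (nat_lit 7) (.s false (nat_lit 1) (nat_lit 5) (nat_lit 4) (nat_lit 1) (nat_lit 2) false (nat_lit 0) true (nat_lit 7) true (nat_lit 4) true (nat_lit 5) true (nat_lit 8) (.s false (nat_lit 1) (nat_lit 8) (nat_lit 1) (nat_lit 2) (nat_lit 2) true (nat_lit 4) true (nat_lit 7) true (nat_lit 1)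 true (nat_lit 8) true (nat_lit 7) (.s true (nat_lit 1) (nat_lit 9) (nat_lit 2) (nat_lit 1) (nat_lit 2) true (nat_lit 3) true (nat_lit 7) true (nat_lit 1) true (nat_lit 7) true (nat_lit 8) (.s false (nat_lit 1) (nat_lit 10) (nat_lit 2) (nat_lit 1) (nat_lit 2) true (nat_lit 3) true (nat_lit 7) true (nat_lit 1) true (nat_lit 7) true (nat_lit 8) (.s true (nat_lit 1) (nat_lit 12) (nat_lit 1) (nat_lit 1) (nat_lit 2) true (nat_lit 4) true (nat_lit 7) false (nat_lit 0) true (nat_lit 8) true (nat_lit 8) (.s true (nat_lit 1) (nat_lit 13) (nat_lit 1) (nat_lit 1) (nat_lit 2) true (nat_lit 4) true (nat_lit 7) false (nat_lit 0) true (nat_lit 8) true (nat_lit 8) (.s false (nat_lit 1) (nat_lit 16) (nat_lit 1) (nat_lit 1) (nat_lit 0) true (nat_lit 6) true (nat_lit 9) false (nat_lit 2) true (nat_lit 8) true (nat_lit 8) (.e true (nat_lit 432) (nat_lit 23) (nat_lit 5) (nat_lit 4) (.e true (nat_lit 216) (nat_lit 21) (nat_lit 5) (nat_lit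 4) (.e true (nat_lit 216) (nat_lit 22) (nat_lit 5) (nat_lit 4) (.e false (nat_lit 216) (nat_lit 63) (nat_lit 0) (nat_lit 9) (.e true (nat_lit 648) (nat_lit 41) (nat_lit 2) (nat_lit 7) (.e false (nat_lit 648) (nat_lit 43) (nat_lit 2) (nat_lit 7) (.e true (nat_lit 648) (nat_lit 45) (nat_lit 2) (nat_lit 7) (.e false (nat_lit 432) (nat_lit 58) (nat_lit 1) (nat_lit 8) (.e true (nat_lit 648) (nat_lit 55) (nat_lit 1) (nat_lit 8) (.e false (nat_lit 216) (nat_lit 34) (nat_lit 3) (nat_lit 6) (.e false (nat_lit 216) (nat_lit 19) (nat_lit 6) (nat_lit 3) (.e true (nat_lit 216) (nat_lit 20) (nat_lit 6) (nat_lit 3) (.e false (nat_lit 216) (nat_lit 50) (nat_lit 1) (nat_lit 8) (.e false (nat_lit 216) (nat_lit 56) (nat_lit 1) (nat_lit 8) .nil)))))))))))))))))))))))))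

noncomputable def dA4s_i2 : IL := (.s true (nat_lit 4) (nat_lit 35) (nat_lit 1) (nat_lit 2) (nat_lit 0) true (nat_lit 9) true (nat_lit 12) false (nat_lit 4) true (nat_lit 11) true (nat_lit 10) (.s true (nat_lit 4) (nat_lit 35) (nat_lit 2) (nat_lit 1) (nat_lit 0) true (nat_lit 8) true (nat_lit 12) false (nat_lit 4) true (nat_lit 10) true (nat_lit 11) (.s true (nat_lit 2) (nat_lit 36) (nat_lit 0) (nat_lit 1) (nat_lit 1) true (nat_lit 9) true (nat_lit 11) false (nat_lit 5) true (nat_lit 12) true (nat_lit 11) (.e true (nat_lit 3024) (nat_lit 103) (nat_lit 1) (nat_lit 11) (.e false (nat_lit 1728) (nat_lit 95) (nat_lit 1) (nat_lit 11) (.e true (nat_lit 5184) (nat_lit 97) (nat_lit 1) (nat_lit 11) (.e true (nat_lit 2592) (nat_lit 104) (nat_lit 1) (nat_lit 11) (.e true (nat_lit 2592) (nat_lit 105) (nat_lit 1) (nat_lit 11) (.e true (nat_lit 3456) (nat_lit 106) (nat_lit 1) (nat_lit 11) (.e false (nat_lit 4320) (nat_lit 107) (nat_lit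 1) (nat_lit 11) (.e false (nat_lit 6912) (nat_lit 94) (nat_lit 1) (nat_lit 11) (.e true (nat_lit 3456) (nat_lit 98) (nat_lit 1) (nat_lit 11) (.e false (nat_lit 6912) (nat_lit 99) (nat_lit 1) (nat_lit 11) (.e false (nat_lit 3456) (nat_lit 109) (nat_lit 1) (nat_lit 11) (.e true (nat_lit 864) (nat_lit 73) (nat_lit 2) (nat_lit 10) (.e true (nat_lit 432) (nat_lit 85) (nat_lit 2) (nat_lit 10) (.e true (nat_lit 3456) (nat_lit 86) (nat_lit 2) (nat_lit 10) (.e true (nat_lit 432) (nat_lit 87) (nat_lit 2) (nat_lit 10) (.e false (nat_lit 2592) (nat_lit 90) (nat_lit 2) (nat_lit 10) (.e false (nat_lit 864) (nat_lit 82) (nat_lit 2) (nat_lit 10) (.e false (nat_lit 864) (nat_lit 76) (nat_lit 2) (nat_lit 10) (.e true (nat_lit 864) (nat_lit 78) (nat_lit 2) (nat_lit 10) (.e true (nat_lit 864) (nat_lit 100) (nat_lit 1) (nat_lit 11) (.e true (nat_lit 864) (nat_lit 102) (nat_lit 1) (nat_lit 11) (.e false (nat_lit 864) (nat_lit 84) (nat_lit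 2) (nat_lit 10) .nil)))))))))))))))))))))))))

noncomputable def dA4s_i3 : IL := (.s false (nat_lit 4) (nat_lit 16) (nat_lit 1) (nat_lit 1) (nat_lit 4) true (nat_lit 4) true (nat_lit 8) true (nat_lit 0) true (nat_lit 11) true (nat_lit 11) (.s false (nat_lit 8) (nat_lit 16) (nat_lit 1) (nat_lit 4) (nat_lit 1) false (nat_lit 13) true (nat_lit 11) true (nat_lit 0) true (nat_lit 11) true (nat_lit 8) (.s false (nat_lit 4) (nat_lit 16) (nat_lit 2) (nat_lit 1) (nat_lit 3) true (nat_lit 4) true (nat_lit 9) true (nat_lit 0) true (nat_lit 10) true (nat_lit 11) (.s true (nat_lit 2) (nat_lit 16) (nat_lit 5) (nat_lit 1) (nat_lit 0) true (nat_lit 4) true (nat_lit 12) true (nat_lit 0) true (nat_lit 7) true (nat_lit 11) (.s false (nat_lit 2) (nat_lit 19) (nat_lit 2) (nat_lit 2) (nat_lit 2) true (nat_lit 6) true (nat_lit 10) false (nat_lit 0) true (nat_lit 10) true (nat_lit 10) (.s false (nat_lit 2) (nat_lit 22) (nat_lit 1) (nat_lit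 2) (nat_lit 2) true (nat_lit 7) true (nat_lit 10) false (nat_lit 1) true (nat_lit 11) true (nat_lit 10) (.s true (nat_lit 1) (nat_lit 25) (nat_lit 1) (nat_lit 2) (nat_lit 2) true (nat_lit 7) true (nat_lit 10) false (nat_lit 1) true (nat_lit 11) true (nat_lit 10) (.s true (nat_lit 2) (nat_lit 22) (nat_lit 2) (nat_lit 1) (nat_lit 2) true (nat_lit 6) true (nat_lit 10) false (nat_lit 1) true (nat_lit 10) true (nat_lit 11) (.s true (nat_lit 1) (nat_lit 25) (nat_lit 2) (nat_lit 1) (nat_lit 2) true (nat_lit 6) true (nat_lit 10) false (nat_lit 1) true (nat_lit 10) true (nat_lit 11) (.s true (nat_lit 6) (nat_lit 22) (nat_lit 2) (nat_lit 2) (nat_lit 1) true (nat_lit 7) true (nat_lit 11) false (nat_lit 1) true (nat_lit 10) true (nat_lit 10) (.s false (nat_lit 4) (nat_lit 23) (nat_lit 2) (nat_lit 2) (nat_lit 1) true (nat_lit 7) true (nat_lit 11) false (nat_lit 1) true (nat_lit 10) true (nat_lit 10) (.s true (nat_lit 4) (nat_lit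 24) (nat_lit 2) (nat_lit 2) (nat_lit 1) true (nat_lit 7) true (nat_lit 11) false (nat_lit 1) true (nat_lit 10) true (nat_lit 10) (.s false (nat_lit 1) (nat_lit 25) (nat_lit 2) (nat_lit 2) (nat_lit 1) true (nat_lit 7) true (nat_lit 11) false (nat_lit 1) true (nat_lit 10) true (nat_lit 10) (.s false (nat_lit 4) (nat_lit 26) (nat_lit 2) (nat_lit 2) (nat_lit 1) true (nat_lit 7) true (nat_lit 11) false (nat_lit 1) true (nat_lit 10) true (nat_lit 10) (.s false (nat_lit 2) (nat_lit 29) (nat_lit 0) (nat_lit 2) (nat_lit 2) true (nat_lit 8) true (nat_lit 10) false (nat_lit 2) true (nat_lit 12) true (nat_lit 10) (.s false (nat_lit 2) (nat_lit 29) (nat_lit 2) (nat_lit 0) (nat_lit 2) true (nat_lit 6) true (nat_lit 10) false (nat_lit 2) true (nat_lit 10) true (nat_lit 12) (.s false (nat_lit 2) (nat_lit 29) (nat_lit 2) (nat_lit 2) (nat_lit 0) true (nat_lit 8) true (nat_lit 12) false (nat_lit 2) true (nat_lit 10) true (nat_lit 10)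 (.s true (nat_lit 4) (nat_lit 30) (nat_lit 1) (nat_lit 1) (nat_lit 2) true (nat_lit 7) true (nat_lit 10) false (nat_lit 3) true (nat_lit 11) true (nat_lit 11) (.s false (nat_lit 4) (nat_lit 31) (nat_lit 1) (nat_lit 1) (nat_lit 2) true (nat_lit 7) true (nat_lit 10) false (nat_lit 3) true (nat_lit 11) true (nat_lit 11) (.s false (nat_lit 10) (nat_lit 32) (nat_lit 1) (nat_lit 1) (nat_lit 2) true (nat_lit 7) true (nat_lit 10) false (nat_lit 3) true (nat_lit 11) true (nat_lit 11) (.s false (nat_lit 4) (nat_lit 32) (nat_lit 1) (nat_lit 2) (nat_lit 1) false (nat_lit 13) true (nat_lit 11) false (nat_lit 3) true (nat_lit 11) true (nat_lit 10) (.s true (nat_lit 4) (nat_lit 30) (nat_lit 2) (nat_lit 1) (nat_lit 1) true (nat_lit 7) true (nat_lit 11) false (nat_lit 3) true (nat_lit 10) true (nat_lit 11) (.s true (nat_lit 4) (nat_lit 31) (nat_lit 2) (nat_lit 1) (nat_lit 1) true (nat_lit 7) true (nat_lit 11) false (nat_lit 3) true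 (nat_lit 10) true (nat_lit 11) (.s true (nat_lit 4) (nat_lit 35) (nat_lit 0) (nat_lit 1) (nat_lit 2) true (nat_lit 8) true (nat_lit 10) false (nat_lit 4) true (nat_lit 12) true (nat_lit 11) (.s true (nat_lit 2) (nat_lit 35) (nat_lit 0) (nat_lit 2) (nat_lit 1) true (nat_lit 9) true (nat_lit 11) false (nat_lit 4) true (nat_lit 12) true (nat_lit 10) dA4s_i2)))))))))))))))))))))))))

noncomputable def dA4s_i4 : IL := (.s true (nat_lit 20) (nat_lit 34) (nat_lit 0) (nat_lit 1) (nat_lit 2) true (nat_lit 8) true (nat_lit 10) false (nat_lit 4) true (nat_lit 12) true (nat_lit 11) (.s true (nat_lit 36) (nat_lit 35) (nat_lit 0) (nat_lit 1) (nat_lit 2) true (nat_lit 8) true (nat_lit 10) false (nat_lit 4) true (nat_lit 12) true (nat_lit 11) (.s true (nat_lit 22) (nat_lit 35) (nat_lit 0) (nat_lit 2) (nat_lit 1) true (nat_lit 9) true (nat_lit 11) false (nat_lit 4) true (nat_lit 12) true (nat_lit 10) (.s true (nat_lit 16) (nat_lit 35)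 (nat_lit 1) (nat_lit 0) (nat_lit 2) true (nat_lit 7) true (nat_lit 10) false (nat_lit 4) true (nat_lit 11) true (nat_lit 12) (.s false (nat_lit 12) (nat_lit 34) (nat_lit 1) (nat_lit 2) (nat_lit 0) true (nat_lit 9) true (nat_lit 12) false (nat_lit 4) true (nat_lit 11) true (nat_lit 10) (.s true (nat_lit 4) (nat_lit 35) (nat_lit 1) (nat_lit 2) (nat_lit 0) true (nat_lit 9) true (nat_lit 12) false (nat_lit 4) true (nat_lit 11) true (nat_lit 10) (.s true (nat_lit 16) (nat_lit 35) (nat_lit 2) (nat_lit 1) (nat_lit 0) true (nat_lit 8) true (nat_lit 12) false (nat_lit 4) true (nat_lit 10) true (nat_lit 11) (.s true (nat_lit 6) (nat_lit 36) (nat_lit 0) (nat_lit 1) (nat_lit 1) true (nat_lit 9) true (nat_lit 11) false (nat_lit 5) true (nat_lit 12) true (nat_lit 11) (.e false (nat_lit 2592) (nat_lit 81) (nat_lit 2) (nat_lit 10) (.e true (nat_lit 1296) (nat_lit 85) (nat_lit 2) (nat_lit 10) (.e true (nat_lit 2592) (nat_lit 86) (nat_lit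 2) (nat_lit 10) (.e true (nat_lit 1296) (nat_lit 57) (nat_lit 5) (nat_lit 7) (.e true (nat_lit 8640) (nat_lit 97) (nat_lit 1) (nat_lit 11) (.e true (nat_lit 4320) (nat_lit 104) (nat_lit 1) (nat_lit 11) (.e true (nat_lit 4320) (nat_lit 105) (nat_lit 1) (nat_lit 11) (.e true (nat_lit 5184) (nat_lit 106) (nat_lit 1) (nat_lit 11) (.e false (nat_lit 6048) (nat_lit 107) (nat_lit 1) (nat_lit 11) (.e false (nat_lit 8640) (nat_lit 94) (nat_lit 1) (nat_lit 11) (.e true (nat_lit 3456) (nat_lit 98) (nat_lit 1) (nat_lit 11) (.e false (nat_lit 8640) (nat_lit 99) (nat_lit 1) (nat_lit 11) (.e false (nat_lit 6912) (nat_lit 109) (nat_lit 1) (nat_lit 11) (.e true (nat_lit 3024) (nat_lit 103) (nat_lit 1) (nat_lit 11) (.e true (nat_lit 1296) (nat_lit 87) (nat_lit 2) (nat_lit 10) (.e false (nat_lit 2592) (nat_lit 80) (nat_lit 2) (nat_lit 10) (.e false (nat_lit 2592) (nat_lit 84) (nat_lit 2) (nat_lit 10) .nil)))))))))))))))))))))))))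

noncomputable def dA4s_i5 : IL := (.s true (nat_lit 4) (nat_lit 14) (nat_lit 2) (nat_lit 1) (nat_lit 4) true (nat_lit 2) true (nat_lit 8) true (nat_lit 1) true (nat_lit 10) true (nat_lit 11) (.s true (nat_lit 20) (nat_lit 14) (nat_lit 2) (nat_lit 4) (nat_lit 1) true (nat_lit 7) true (nat_lit 11) true (nat_lit 1) true (nat_lit 10) true (nat_lit 8) (.s true (nat_lit 8) (nat_lit 14) (nat_lit 5) (nat_lit 0) (nat_lit 2) true (nat_lit 1) true (nat_lit 10) true (nat_lit 1) true (nat_lit 7) true (nat_lit 12) (.s true (nat_lit 8) (nat_lit 14) (nat_lit 5) (nat_lit 2) (nat_lit 0) true (nat_lit 4) true (nat_lit 12) true (nat_lit 1) true (nat_lit 7) true (nat_lit 10) (.s true (nat_lit 6) (nat_lit 16) (nat_lit 0) (nat_lit 1) (nat_lit 5) true (nat_lit 4) true (nat_lit 7) true (nat_lit 0) true (nat_lit 12) true (nat_lit 11) (.s true (nat_lit 16) (nat_lit 16) (nat_lit 0) (nat_lit 5) (nat_lit 1) true (nat_lit 9) true (nat_lit 11) true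 (nat_lit 0) true (nat_lit 12) true (nat_lit 7) (.s false (nat_lit 8) (nat_lit 16) (nat_lit 1) (nat_lit 1) (nat_lit 4) true (nat_lit 4) true (nat_lit 8) true (nat_lit 0) true (nat_lit 11) true (nat_lit 11) (.s false (nat_lit 16) (nat_lit 16) (nat_lit 1) (nat_lit 4) (nat_lit 1) false (nat_lit 13) true (nat_lit 11) true (nat_lit 0) true (nat_lit 11) true (nat_lit 8) (.s true (nat_lit 6) (nat_lit 16) (nat_lit 5) (nat_lit 1) (nat_lit 0) true (nat_lit 4) true (nat_lit 12) true (nat_lit 0) true (nat_lit 7) true (nat_lit 11) (.s true (nat_lit 2) (nat_lit 19) (nat_lit 2) (nat_lit 2) (nat_lit 2) true (nat_lit 6) true (nat_lit 10) false (nat_lit 0) true (nat_lit 10) true (nat_lit 10) (.s true (nat_lit 8) (nat_lit 21) (nat_lit 1) (nat_lit 2) (nat_lit 2) true (nat_lit 7) true (nat_lit 10) false (nat_lit 1) true (nat_lit 11) true (nat_lit 10) (.s true (nat_lit 14) (nat_lit 22) (nat_lit 1) (nat_lit 2) (nat_lit 2) true (nat_lit 7)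 true (nat_lit 10) false (nat_lit 1) true (nat_lit 11) true (nat_lit 10) (.s false (nat_lit 8) (nat_lit 23) (nat_lit 1) (nat_lit 2) (nat_lit 2) true (nat_lit 7) true (nat_lit 10) false (nat_lit 1) true (nat_lit 11) true (nat_lit 10) (.s false (nat_lit 11) (nat_lit 25) (nat_lit 1) (nat_lit 2) (nat_lit 2) true (nat_lit 7) true (nat_lit 10) false (nat_lit 1) true (nat_lit 11) true (nat_lit 10) (.s true (nat_lit 14) (nat_lit 22) (nat_lit 2) (nat_lit 1) (nat_lit 2) true (nat_lit 6) true (nat_lit 10) false (nat_lit 1) true (nat_lit 10) true (nat_lit 11) (.s false (nat_lit 8) (nat_lit 23) (nat_lit 2) (nat_lit 1) (nat_lit 2) true (nat_lit 6) true (nat_lit 10) false (nat_lit 1) true (nat_lit 10) true (nat_lit 11) (.s false (nat_lit 3) (nat_lit 25) (nat_lit 2) (nat_lit 1) (nat_lit 2) true (nat_lit 6) true (nat_lit 10) false (nat_lit 1) true (nat_lit 10) true (nat_lit 11) (.s false (nat_lit 8) (nat_lit 26) (nat_lit 2) (nat_lit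 1) (nat_lit 2) true (nat_lit 6) true (nat_lit 10) false (nat_lit 1) true (nat_lit 10) true (nat_lit 11) (.s false (nat_lit 14) (nat_lit 22) (nat_lit 2) (nat_lit 2) (nat_lit 1) true (nat_lit 7) true (nat_lit 11) false (nat_lit 1) true (nat_lit 10) true (nat_lit 10) (.s true (nat_lit 3) (nat_lit 25) (nat_lit 2) (nat_lit 2) (nat_lit 1) true (nat_lit 7) true (nat_lit 11) false (nat_lit 1) true (nat_lit 10) true (nat_lit 10) (.s false (nat_lit 4) (nat_lit 29) (nat_lit 2) (nat_lit 2) (nat_lit 0) true (nat_lit 8) true (nat_lit 12) false (nat_lit 2) true (nat_lit 10) true (nat_lit 10) (.s true (nat_lit 12) (nat_lit 31) (nat_lit 1) (nat_lit 1) (nat_lit 2) true (nat_lit 7) true (nat_lit 10) false (nat_lit 3) true (nat_lit 11) true (nat_lit 11) (.s true (nat_lit 10) (nat_lit 32) (nat_lit 1) (nat_lit 1) (nat_lit 2) true (nat_lit 7) true (nat_lit 10) false (nat_lit 3) true (nat_lit 11) true (nat_lit 11) (.s true (nat_lit 20) (nat_lit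 32) (nat_lit 1) (nat_lit 2) (nat_lit 1) false (nat_lit 13) true (nat_lit 11) false (nat_lit 3) true (nat_lit 11) true (nat_lit 10) (.s false (nat_lit 4) (nat_lit 31) (nat_lit 2) (nat_lit 1) (nat_lit 1) true (nat_lit 7) true (nat_lit 11) false (nat_lit 3) true (nat_lit 10) true (nat_lit 11) dA4s_i4)))))))))))))))))))))))))

noncomputable def dA4s_i6 : IL := (.e true (nat_lit 864) (nat_lit 73) (nat_lit 2) (nat_lit 10) (.e true (nat_lit 864) (nat_lit 78) (nat_lit 2) (nat_lit 10) (.e true (nat_lit 4752) (nat_lit 85) (nat_lit 2) (nat_lit 10) (.e true (nat_lit 14688) (nat_lit 86) (nat_lit 2) (nat_lit 10) (.e false (nat_lit 1512) (nat_lit 57) (nat_lit 5) (nat_lit 7) (.e false (nat_lit 9936) (nat_lit 95) (nat_lit 1) (nat_lit 11) (.e true (nat_lit 17280) (nat_lit 97) (nat_lit 1) (nat_lit 11) (.e true (nat_lit 5400) (nat_lit 101) (nat_lit 1) (nat_lit 11) (.e true (nat_lit 9288) (nat_lit 104) (nat_lit 1) (nat_lit 11) (.e true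 (nat_lit 9288) (nat_lit 105) (nat_lit 1) (nat_lit 11) (.e true (nat_lit 15336) (nat_lit 106) (nat_lit 1) (nat_lit 11) (.e false (nat_lit 13176) (nat_lit 107) (nat_lit 1) (nat_lit 11) (.e false (nat_lit 27216) (nat_lit 94) (nat_lit 1) (nat_lit 11) (.e true (nat_lit 9072) (nat_lit 98) (nat_lit 1) (nat_lit 11) (.e false (nat_lit 25920) (nat_lit 99) (nat_lit 1) (nat_lit 11) (.e false (nat_lit 14904) (nat_lit 109) (nat_lit 1) (nat_lit 11) (.e true (nat_lit 16416) (nat_lit 103) (nat_lit 1) (nat_lit 11) (.e true (nat_lit 4752) (nat_lit 87) (nat_lit 2) (nat_lit 10) (.e true (nat_lit 4104) (nat_lit 88) (nat_lit 2) (nat_lit 10) (.e false (nat_lit 5184) (nat_lit 90) (nat_lit 2) (nat_lit 10) (.e false (nat_lit 9072) (nat_lit 80) (nat_lit 2) (nat_lit 10) (.e true (nat_lit 2160) (nat_lit 82) (nat_lit 2) (nat_lit 10) (.e true (nat_lit 3024) (nat_lit 100) (nat_lit 1) (nat_lit 11) (.e true (nat_lit 3024) (nat_lit 102) (nat_lit 1) (nat_lit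 11) (.e false (nat_lit 9504) (nat_lit 84) (nat_lit 2) (nat_lit 10) .nil)))))))))))))))))))))))))

noncomputable def dA4s_i7 : IL := (.s true (nat_lit 18) (nat_lit 23) (nat_lit 2) (nat_lit 1) (nat_lit 2) true (nat_lit 6) true (nat_lit 10) false (nat_lit 1) true (nat_lit 10) true (nat_lit 11) (.s false (nat_lit 6) (nat_lit 24) (nat_lit 2) (nat_lit 1) (nat_lit 2) true (nat_lit 6) true (nat_lit 10) false (nat_lit 1) true (nat_lit 10) true (nat_lit 11) (.s false (nat_lit 18) (nat_lit 25) (nat_lit 2) (nat_lit 1) (nat_lit 2) true (nat_lit 6) true (nat_lit 10) false (nat_lit 1) true (nat_lit 10) true (nat_lit 11) (.s true (nat_lit 6) (nat_lit 26) (nat_lit 2) (nat_lit 1) (nat_lit 2) true (nat_lit 6) true (nat_lit 10) false (nat_lit 1) true (nat_lit 10) true (nat_lit 11) (.s false (nat_lit 24) (nat_lit 22) (nat_lit 2) (nat_lit 2) (nat_lit 1) true (nat_lit 7) true (nat_lit 11) false (nat_lit 1) true (nat_lit 10) true (nat_lit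 10) (.s false (nat_lit 6) (nat_lit 25) (nat_lit 2) (nat_lit 2) (nat_lit 1) true (nat_lit 7) true (nat_lit 11) false (nat_lit 1) true (nat_lit 10) true (nat_lit 10) (.s false (nat_lit 6) (nat_lit 29) (nat_lit 0) (nat_lit 2) (nat_lit 2) true (nat_lit 8) true (nat_lit 10) false (nat_lit 2) true (nat_lit 12) true (nat_lit 10) (.s false (nat_lit 6) (nat_lit 29) (nat_lit 2) (nat_lit 0) (nat_lit 2) true (nat_lit 6) true (nat_lit 10) false (nat_lit 2) true (nat_lit 10) true (nat_lit 12) (.s false (nat_lit 9) (nat_lit 29) (nat_lit 2) (nat_lit 2) (nat_lit 0) true (nat_lit 8) true (nat_lit 12) false (nat_lit 2) true (nat_lit 10) true (nat_lit 10) (.s false (nat_lit 9) (nat_lit 30) (nat_lit 1) (nat_lit 1) (nat_lit 2) true (nat_lit 7) true (nat_lit 10) false (nat_lit 3) true (nat_lit 11) true (nat_lit 11) (.s true (nat_lit 18) (nat_lit 31) (nat_lit 1) (nat_lit 1) (nat_lit 2) true (nat_lit 7) true (nat_lit 10) false (nat_lit 3) true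 (nat_lit 11) true (nat_lit 11) (.s false (nat_lit 27) (nat_lit 32) (nat_lit 1) (nat_lit 1) (nat_lit 2) true (nat_lit 7) true (nat_lit 10) false (nat_lit 3) true (nat_lit 11) true (nat_lit 11) (.s true (nat_lit 18) (nat_lit 32) (nat_lit 1) (nat_lit 2) (nat_lit 1) false (nat_lit 13) true (nat_lit 11) false (nat_lit 3) true (nat_lit 11) true (nat_lit 10) (.s false (nat_lit 3) (nat_lit 30) (nat_lit 2) (nat_lit 1) (nat_lit 1) true (nat_lit 7) true (nat_lit 11) false (nat_lit 3) true (nat_lit 10) true (nat_lit 11) (.s true (nat_lit 15) (nat_lit 31) (nat_lit 2) (nat_lit 1) (nat_lit 1) true (nat_lit 7) true (nat_lit 11) false (nat_lit 3) true (nat_lit 10) true (nat_lit 11) (.s true (nat_lit 36) (nat_lit 34) (nat_lit 0) (nat_lit 1) (nat_lit 2) true (nat_lit 8) true (nat_lit 10) false (nat_lit 4) true (nat_lit 12) true (nat_lit 11) (.s true (nat_lit 71) (nat_lit 35) (nat_lit 0) (nat_lit 1) (nat_lit 2) true (nat_lit 8) true (nat_lit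 10) false (nat_lit 4) true (nat_lit 12) true (nat_lit 11) (.s true (nat_lit 44) (nat_lit 35) (nat_lit 0) (nat_lit 2) (nat_lit 1) true (nat_lit 9) true (nat_lit 11) false (nat_lit 4) true (nat_lit 12) true (nat_lit 10) (.s true (nat_lit 21) (nat_lit 35) (nat_lit 1) (nat_lit 0) (nat_lit 2) true (nat_lit 7) true (nat_lit 10) false (nat_lit 4) true (nat_lit 11) true (nat_lit 12) (.s false (nat_lit 30) (nat_lit 34) (nat_lit 1) (nat_lit 2) (nat_lit 0) true (nat_lit 9) true (nat_lit 12) false (nat_lit 4) true (nat_lit 11) true (nat_lit 10) (.s false (nat_lit 12) (nat_lit 35) (nat_lit 1) (nat_lit 2) (nat_lit 0) true (nat_lit 9) true (nat_lit 12) false (nat_lit 4) true (nat_lit 11) true (nat_lit 10) (.s true (nat_lit 66) (nat_lit 35) (nat_lit 2) (nat_lit 1) (nat_lit 0) true (nat_lit 8) true (nat_lit 12) false (nat_lit 4) true (nat_lit 10) true (nat_lit 11) (.s true (nat_lit 23) (nat_lit 36) (nat_lit 0) (nat_lit 1) (nat_lit 1)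 true (nat_lit 9) true (nat_lit 11) false (nat_lit 5) true (nat_lit 12) true (nat_lit 11) (.e false (nat_lit 864) (nat_lit 76) (nat_lit 2) (nat_lit 10) (.e false (nat_lit 11664) (nat_lit 81) (nat_lit 2) (nat_lit 10) dA4s_i6)))))))))))))))))))))))))

noncomputable def dA4s_i8 : IL := (.s true (nat_lit 24) (nat_lit 9) (nat_lit 6) (nat_lit 2) (nat_lit 1) true (nat_lit 1) true (nat_lit 11) true (nat_lit 4) true (nat_lit 6) true (nat_lit 10) (.s false (nat_lit 33) (nat_lit 11) (nat_lit 2) (nat_lit 2) (nat_lit 4) true (nat_lit 2) true (nat_lit 8) true (nat_lit 3) true (nat_lit 10) true (nat_lit 10) (.s false (nat_lit 33) (nat_lit 11) (nat_lit 6) (nat_lit 0) (nat_lit 2) true (nat_lit 0) true (nat_lit 10) true (nat_lit 3) true (nat_lit 6) true (nat_lit 12) (.s false (nat_lit 6) (nat_lit 13) (nat_lit 1) (nat_lit 1) (nat_lit 6) true (nat_lit 1) true (nat_lit 6) true (nat_lit 2) true (nat_lit 11) true (nat_lit 11) (.s true (nat_lit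 9) (nat_lit 12) (nat_lit 1) (nat_lit 5) (nat_lit 2) true (nat_lit 7) true (nat_lit 10) true (nat_lit 2) true (nat_lit 11) true (nat_lit 7) (.s true (nat_lit 9) (nat_lit 13) (nat_lit 1) (nat_lit 6) (nat_lit 1) false (nat_lit 13) true (nat_lit 11) true (nat_lit 2) true (nat_lit 11) true (nat_lit 6) (.s true (nat_lit 42) (nat_lit 12) (nat_lit 5) (nat_lit 1) (nat_lit 2) true (nat_lit 1) true (nat_lit 10) true (nat_lit 2) true (nat_lit 7) true (nat_lit 11) (.s false (nat_lit 3) (nat_lit 12) (nat_lit 5) (nat_lit 2) (nat_lit 1) true (nat_lit 3) true (nat_lit 11) true (nat_lit 2) true (nat_lit 7) true (nat_lit 10) (.s false (nat_lit 6) (nat_lit 14) (nat_lit 0) (nat_lit 5) (nat_lit 2) true (nat_lit 8) true (nat_lit 10) true (nat_lit 1) true (nat_lit 12) true (nat_lit 7) (.s false (nat_lit 3) (nat_lit 14) (nat_lit 2) (nat_lit 1) (nat_lit 4) true (nat_lit 2) true (nat_lit 8) true (nat_lit 1) true (nat_lit 10) true (nat_lit 11)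 (.s true (nat_lit 36) (nat_lit 14) (nat_lit 2) (nat_lit 4) (nat_lit 1) true (nat_lit 7) true (nat_lit 11) true (nat_lit 1) true (nat_lit 10) true (nat_lit 8) (.s true (nat_lit 48) (nat_lit 16) (nat_lit 0) (nat_lit 1) (nat_lit 5) true (nat_lit 4) true (nat_lit 7) true (nat_lit 0) true (nat_lit 12) true (nat_lit 11) (.s true (nat_lit 27) (nat_lit 16) (nat_lit 0) (nat_lit 5) (nat_lit 1) true (nat_lit 9) true (nat_lit 11) true (nat_lit 0) true (nat_lit 12) true (nat_lit 7) (.s false (nat_lit 20) (nat_lit 16) (nat_lit 1) (nat_lit 1) (nat_lit 4) true (nat_lit 4) true (nat_lit 8) true (nat_lit 0) true (nat_lit 11) true (nat_lit 11) (.s false (nat_lit 17) (nat_lit 16) (nat_lit 1) (nat_lit 3) (nat_lit 2) true (nat_lit 7) true (nat_lit 10) true (nat_lit 0) true (nat_lit 11) true (nat_lit 9) (.s false (nat_lit 63) (nat_lit 16) (nat_lit 1) (nat_lit 4) (nat_lit 1) false (nat_lit 13) true (nat_lit 11) true (nat_lit 0) true (nat_lit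 11) true (nat_lit 8) (.s false (nat_lit 14) (nat_lit 16) (nat_lit 2) (nat_lit 1) (nat_lit 3) true (nat_lit 4) true (nat_lit 9) true (nat_lit 0) true (nat_lit 10) true (nat_lit 11) (.s true (nat_lit 2) (nat_lit 18) (nat_lit 2) (nat_lit 2) (nat_lit 2) true (nat_lit 6) true (nat_lit 10) false (nat_lit 0) true (nat_lit 10) true (nat_lit 10) (.s true (nat_lit 7) (nat_lit 19) (nat_lit 2) (nat_lit 2) (nat_lit 2) true (nat_lit 6) true (nat_lit 10) false (nat_lit 0) true (nat_lit 10) true (nat_lit 10) (.s true (nat_lit 2) (nat_lit 20) (nat_lit 2) (nat_lit 2) (nat_lit 2) true (nat_lit 6) true (nat_lit 10) false (nat_lit 0) true (nat_lit 10) true (nat_lit 10) (.s false (nat_lit 6) (nat_lit 21) (nat_lit 1) (nat_lit 2) (nat_lit 2) true (nat_lit 7) true (nat_lit 10) false (nat_lit 1) true (nat_lit 11) true (nat_lit 10) (.s false (nat_lit 6) (nat_lit 22) (nat_lit 1) (nat_lit 2) (nat_lit 2) true (nat_lit 7) true (nat_lit 10) false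 (nat_lit 1) true (nat_lit 11) true (nat_lit 10) (.s true (nat_lit 6) (nat_lit 23) (nat_lit 1) (nat_lit 2) (nat_lit 2) true (nat_lit 7) true (nat_lit 10) false (nat_lit 1) true (nat_lit 11) true (nat_lit 10) (.s false (nat_lit 12) (nat_lit 25) (nat_lit 1) (nat_lit 2) (nat_lit 2) true (nat_lit 7) true (nat_lit 10) false (nat_lit 1) true (nat_lit 11) true (nat_lit 10) (.s true (nat_lit 21) (nat_lit 22) (nat_lit 2) (nat_lit 1) (nat_lit 2) true (nat_lit 6) true (nat_lit 10) false (nat_lit 1) true (nat_lit 10) true (nat_lit 11) dA4s_i7)))))))))))))))))))))))))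

noncomputable def dA4s_i9 : IL := (.s true (nat_lit 4) (nat_lit 35) (nat_lit 2) (nat_lit 1) (nat_lit 0) true (nat_lit 8) true (nat_lit 12) false (nat_lit 4) true (nat_lit 10) true (nat_lit 11) (.s true (nat_lit 2) (nat_lit 36) (nat_lit 0) (nat_lit 1) (nat_lit 1) true (nat_lit 9) true (nat_lit 11) false (nat_lit 5) true (nat_lit 12) true (nat_lit 11) (.e false (nat_lit 432) (nat_lit 57) (nat_lit 5) (nat_lit 7) (.e true (nat_lit 864) (nat_lit 97) (nat_lit 1) (nat_lit 11) (.e true (nat_lit 864) (nat_lit 101) (nat_lit 1) (nat_lit 11) (.e true (nat_lit 1728) (nat_lit 104) (nat_lit 1) (nat_lit 11) (.e true (nat_lit 1728) (nat_lit 105) (nat_lit 1) (nat_lit 11) (.e true (nat_lit 1728) (nat_lit 106) (nat_lit 1) (nat_lit 11) (.e false (nat_lit 864) (nat_lit 107) (nat_lit 1) (nat_lit 11) (.e false (nat_lit 864) (nat_lit 94) (nat_lit 1) (nat_lit 11) (.e false (nat_lit 1728) (nat_lit 98) (nat_lit 1) (nat_lit 11) (.e true (nat_lit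 864) (nat_lit 99) (nat_lit 1) (nat_lit 11) (.e false (nat_lit 864) (nat_lit 109) (nat_lit 1) (nat_lit 11) (.e true (nat_lit 1728) (nat_lit 96) (nat_lit 1) (nat_lit 11) (.e true (nat_lit 3024) (nat_lit 103) (nat_lit 1) (nat_lit 11) (.e false (nat_lit 1728) (nat_lit 81) (nat_lit 2) (nat_lit 10) (.e true (nat_lit 432) (nat_lit 85) (nat_lit 2) (nat_lit 10) (.e true (nat_lit 1728) (nat_lit 86) (nat_lit 2) (nat_lit 10) (.e true (nat_lit 432) (nat_lit 87) (nat_lit 2) (nat_lit 10) (.e true (nat_lit 864) (nat_lit 88) (nat_lit 2) (nat_lit 10) (.e false (nat_lit 1728) (nat_lit 80) (nat_lit 2) (nat_lit 10) (.e true (nat_lit 864) (nat_lit 82) (nat_lit 2) (nat_lit 10) (.e false (nat_lit 864) (nat_lit 100) (nat_lit 1) (nat_lit 11) (.e false (nat_lit 864) (nat_lit 102) (nat_lit 1) (nat_lit 11) (.e false (nat_lit 864) (nat_lit 84) (nat_lit 2) (nat_lit 10) .nil)))))))))))))))))))))))))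

noncomputable def dA4s_i10 : IL := (.s true (nat_lit 6) (nat_lit 9) (nat_lit 6) (nat_lit 2) (nat_lit 1) true (nat_lit 1) true (nat_lit 11) true (nat_lit 4) true (nat_lit 6) true (nat_lit 10) (.s false (nat_lit 8) (nat_lit 11) (nat_lit 2) (nat_lit 2) (nat_lit 4) true (nat_lit 2) true (nat_lit 8) true (nat_lit 3) true (nat_lit 10) true (nat_lit 10) (.s false (nat_lit 4) (nat_lit 11) (nat_lit 6) (nat_lit 0) (nat_lit 2) true (nat_lit 0) true (nat_lit 10) true (nat_lit 3) true (nat_lit 6) true (nat_lit 12) (.s false (nat_lit 1) (nat_lit 13) (nat_lit 1) (nat_lit 1) (nat_lit 6) true (nat_lit 1) true (nat_lit 6) true (nat_lit 2) true (nat_lit 11) true (nat_lit 11) (.s true (nat_lit 8) (nat_lit 12) (nat_lit 5) (nat_lit 1) (nat_lit 2) true (nat_lit 1) true (nat_lit 10) true (nat_lit 2) true (nat_lit 7) true (nat_lit 11) (.s true (nat_lit 8) (nat_lit 14) (nat_lit 2) (nat_lit 4) (nat_lit 1) true (nat_lit 7) true (nat_lit 11) true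 (nat_lit 1) true (nat_lit 10) true (nat_lit 8) (.s true (nat_lit 2) (nat_lit 16) (nat_lit 0) (nat_lit 1) (nat_lit 5) true (nat_lit 4) true (nat_lit 7) true (nat_lit 0) true (nat_lit 12) true (nat_lit 11) (.s true (nat_lit 4) (nat_lit 16) (nat_lit 0) (nat_lit 5) (nat_lit 1) true (nat_lit 9) true (nat_lit 11) true (nat_lit 0) true (nat_lit 12) true (nat_lit 7) (.s false (nat_lit 4) (nat_lit 16) (nat_lit 1) (nat_lit 4) (nat_lit 1) false (nat_lit 13) true (nat_lit 11) true (nat_lit 0) true (nat_lit 11) true (nat_lit 8) (.s true (nat_lit 2) (nat_lit 16) (nat_lit 5) (nat_lit 1) (nat_lit 0) true (nat_lit 4) true (nat_lit 12) true (nat_lit 0) true (nat_lit 7) true (nat_lit 11) (.s true (nat_lit 2) (nat_lit 19) (nat_lit 2) (nat_lit 2) (nat_lit 2) true (nat_lit 6) true (nat_lit 10) false (nat_lit 0) true (nat_lit 10) true (nat_lit 10) (.s true (nat_lit 2) (nat_lit 22) (nat_lit 1) (nat_lit 2) (nat_lit 2) true (nat_lit 7) true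 (nat_lit 10) false (nat_lit 1) true (nat_lit 11) true (nat_lit 10) (.s false (nat_lit 3) (nat_lit 25) (nat_lit 1) (nat_lit 2) (nat_lit 2) true (nat_lit 7) true (nat_lit 10) false (nat_lit 1) true (nat_lit 11) true (nat_lit 10) (.s true (nat_lit 6) (nat_lit 22) (nat_lit 2) (nat_lit 1) (nat_lit 2) true (nat_lit 6) true (nat_lit 10) false (nat_lit 1) true (nat_lit 10) true (nat_lit 11) (.s false (nat_lit 3) (nat_lit 25) (nat_lit 2) (nat_lit 1) (nat_lit 2) true (nat_lit 6) true (nat_lit 10) false (nat_lit 1) true (nat_lit 10) true (nat_lit 11) (.s false (nat_lit 6) (nat_lit 22) (nat_lit 2) (nat_lit 2) (nat_lit 1) true (nat_lit 7) true (nat_lit 11) false (nat_lit 1) true (nat_lit 10) true (nat_lit 10) (.s false (nat_lit 1) (nat_lit 25) (nat_lit 2) (nat_lit 2) (nat_lit 1) true (nat_lit 7) true (nat_lit 11) false (nat_lit 1) true (nat_lit 10) true (nat_lit 10) (.s true (nat_lit 4) (nat_lit 31) (nat_lit 1) (nat_lit 1) (nat_lit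 2) true (nat_lit 7) true (nat_lit 10) false (nat_lit 3) true (nat_lit 11) true (nat_lit 11) (.s true (nat_lit 6) (nat_lit 32) (nat_lit 1) (nat_lit 1) (nat_lit 2) true (nat_lit 7) true (nat_lit 10) false (nat_lit 3) true (nat_lit 11) true (nat_lit 11) (.s true (nat_lit 4) (nat_lit 32) (nat_lit 1) (nat_lit 2) (nat_lit 1) false (nat_lit 13) true (nat_lit 11) false (nat_lit 3) true (nat_lit 11) true (nat_lit 10) (.s true (nat_lit 4) (nat_lit 34) (nat_lit 0) (nat_lit 1) (nat_lit 2) true (nat_lit 8) true (nat_lit 10) false (nat_lit 4) true (nat_lit 12) true (nat_lit 11) (.s true (nat_lit 8) (nat_lit 35) (nat_lit 0) (nat_lit 1) (nat_lit 2) true (nat_lit 8) true (nat_lit 10) false (nat_lit 4) true (nat_lit 12) true (nat_lit 11) (.s true (nat_lit 6) (nat_lit 35) (nat_lit 0) (nat_lit 2) (nat_lit 1) true (nat_lit 9) true (nat_lit 11) false (nat_lit 4) true (nat_lit 12) true (nat_lit 10) (.s true (nat_lit 4) (nat_lit 35) (nat_lit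 1) (nat_lit 0) (nat_lit 2) true (nat_lit 7) true (nat_lit 10) false (nat_lit 4) true (nat_lit 11) true (nat_lit 12) (.s false (nat_lit 4) (nat_lit 34) (nat_lit 1) (nat_lit 2) (nat_lit 0) true (nat_lit 9) true (nat_lit 12) false (nat_lit 4) true (nat_lit 11) true (nat_lit 10) dA4s_i9)))))))))))))))))))))))))

noncomputable def dA4s_i11 : IL := (.s false (nat_lit 1) (nat_lit 35) (nat_lit 0) (nat_lit 1) (nat_lit 2) true (nat_lit 8) true (nat_lit 10) false (nat_lit 4) true (nat_lit 12) true (nat_lit 11) (.s false (nat_lit 1) (nat_lit 35) (nat_lit 0) (nat_lit 2) (nat_lit 1) true (nat_lit 9) true (nat_lit 11) false (nat_lit 4) true (nat_lit 12) true (nat_lit 10) (.s false (nat_lit 1) (nat_lit 36) (nat_lit 0) (nat_lit 1) (nat_lit 1) true (nat_lit 9) true (nat_lit 11) false (nat_lit 5) true (nat_lit 12) true (nat_lit 11) (.e false (nat_lit 432) (nat_lit 73) (nat_lit 2) (nat_lit 10) (.e true (nat_lit 2592) (nat_lit 81) (nat_lit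 2) (nat_lit 10) (.e false (nat_lit 1080) (nat_lit 85) (nat_lit 2) (nat_lit 10) (.e false (nat_lit 864) (nat_lit 86) (nat_lit 2) (nat_lit 10) (.e false (nat_lit 1080) (nat_lit 87) (nat_lit 2) (nat_lit 10) (.e false (nat_lit 1728) (nat_lit 88) (nat_lit 2) (nat_lit 10) (.e false (nat_lit 1296) (nat_lit 90) (nat_lit 2) (nat_lit 10) (.e true (nat_lit 216) (nat_lit 103) (nat_lit 1) (nat_lit 11) (.e false (nat_lit 864) (nat_lit 97) (nat_lit 1) (nat_lit 11) (.e true (nat_lit 432) (nat_lit 100) (nat_lit 1) (nat_lit 11) (.e true (nat_lit 864) (nat_lit 101) (nat_lit 1) (nat_lit 11) (.e true (nat_lit 432) (nat_lit 102) (nat_lit 1) (nat_lit 11) (.e false (nat_lit 432) (nat_lit 104) (nat_lit 1) (nat_lit 11) (.e false (nat_lit 432) (nat_lit 105) (nat_lit 1) (nat_lit 11) (.e false (nat_lit 864) (nat_lit 106) (nat_lit 1) (nat_lit 11) (.e true (nat_lit 432) (nat_lit 107) (nat_lit 1) (nat_lit 11) (.e false (nat_lit 864) (nat_lit 95) (nat_lit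 1) (nat_lit 11) (.e false (nat_lit 216) (nat_lit 57) (nat_lit 5) (nat_lit 7) (.e false (nat_lit 432) (nat_lit 82) (nat_lit 2) (nat_lit 10) (.e false (nat_lit 432) (nat_lit 84) (nat_lit 2) (nat_lit 10) (.e true (nat_lit 432) (nat_lit 76) (nat_lit 2) (nat_lit 10) (.e false (nat_lit 432) (nat_lit 78) (nat_lit 2) (nat_lit 10) .nil)))))))))))))))))))))))))

noncomputable def dA4s_i12 : IL := (.e false (nat_lit 432) (nat_lit 104) (nat_lit 1) (nat_lit 11) (.e false (nat_lit 864) (nat_lit 105) (nat_lit 1) (nat_lit 11) (.e false (nat_lit 648) (nat_lit 106) (nat_lit 1) (nat_lit 11) (.e false (nat_lit 648) (nat_lit 107) (nat_lit 1) (nat_lit 11) (.e false (nat_lit 1512) (nat_lit 94) (nat_lit 1) (nat_lit 11) (.e true (nat_lit 2160) (nat_lit 98) (nat_lit 1) (nat_lit 11) (.e false (nat_lit 3240) (nat_lit 99) (nat_lit 1) (nat_lit 11) (.e false (nat_lit 1728) (nat_lit 96) (nat_lit 1) (nat_lit 11) (.e false (nat_lit 648) (nat_lit 63)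 (nat_lit 4) (nat_lit 8) (.e false (nat_lit 648) (nat_lit 81) (nat_lit 2) (nat_lit 10) (.e false (nat_lit 1296) (nat_lit 83) (nat_lit 2) (nat_lit 10) (.e true (nat_lit 648) (nat_lit 85) (nat_lit 2) (nat_lit 10) (.e true (nat_lit 1512) (nat_lit 86) (nat_lit 2) (nat_lit 10) (.e true (nat_lit 648) (nat_lit 87) (nat_lit 2) (nat_lit 10) (.e false (nat_lit 864) (nat_lit 90) (nat_lit 2) (nat_lit 10) (.e true (nat_lit 1728) (nat_lit 73) (nat_lit 2) (nat_lit 10) (.e false (nat_lit 432) (nat_lit 79) (nat_lit 2) (nat_lit 10) (.e false (nat_lit 648) (nat_lit 82) (nat_lit 2) (nat_lit 10) (.e false (nat_lit 864) (nat_lit 76) (nat_lit 2) (nat_lit 10) (.e true (nat_lit 864) (nat_lit 78) (nat_lit 2) (nat_lit 10) (.e true (nat_lit 1512) (nat_lit 80) (nat_lit 2) (nat_lit 10) (.e false (nat_lit 2160) (nat_lit 103) (nat_lit 1) (nat_lit 11) (.e true (nat_lit 864) (nat_lit 100) (nat_lit 1) (nat_lit 11) (.e true (nat_lit 864) (nat_lit 102)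 (nat_lit 1) (nat_lit 11) (.e true (nat_lit 432) (nat_lit 111) (nat_lit 0) (nat_lit 12) .nil)))))))))))))))))))))))))

noncomputable def dA4s_i13 : IL := (.s false (nat_lit 1) (nat_lit 16) (nat_lit 1) (nat_lit 4) (nat_lit 1) false (nat_lit 13) true (nat_lit 11) true (nat_lit 0) true (nat_lit 11) true (nat_lit 8) (.s false (nat_lit 1) (nat_lit 16) (nat_lit 2) (nat_lit 1) (nat_lit 3) true (nat_lit 4) true (nat_lit 9) true (nat_lit 0) true (nat_lit 10) true (nat_lit 11) (.s false (nat_lit 1) (nat_lit 16) (nat_lit 5) (nat_lit 1) (nat_lit 0) true (nat_lit 4) true (nat_lit 12) true (nat_lit 0) true (nat_lit 7) true (nat_lit 11) (.s false (nat_lit 1) (nat_lit 18) (nat_lit 2) (nat_lit 2) (nat_lit 2) true (nat_lit 6) true (nat_lit 10) false (nat_lit 0) true (nat_lit 10) true (nat_lit 10) (.s true (nat_lit 2) (nat_lit 19) (nat_lit 2) (nat_lit 2) (nat_lit 2) true (nat_lit 6) true (nat_lit 10) false (nat_lit 0) true (nat_lit 10)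 true (nat_lit 10) (.s false (nat_lit 1) (nat_lit 20) (nat_lit 2) (nat_lit 2) (nat_lit 2) true (nat_lit 6) true (nat_lit 10) false (nat_lit 0) true (nat_lit 10) true (nat_lit 10) (.s true (nat_lit 1) (nat_lit 22) (nat_lit 1) (nat_lit 2) (nat_lit 2) true (nat_lit 7) true (nat_lit 10) false (nat_lit 1) true (nat_lit 11) true (nat_lit 10) (.s false (nat_lit 1) (nat_lit 22) (nat_lit 2) (nat_lit 1) (nat_lit 2) true (nat_lit 6) true (nat_lit 10) false (nat_lit 1) true (nat_lit 10) true (nat_lit 11) (.s true (nat_lit 2) (nat_lit 23) (nat_lit 2) (nat_lit 1) (nat_lit 2) true (nat_lit 6) true (nat_lit 10) false (nat_lit 1) true (nat_lit 10) true (nat_lit 11) (.s false (nat_lit 2) (nat_lit 24) (nat_lit 2) (nat_lit 1) (nat_lit 2) true (nat_lit 6) true (nat_lit 10) false (nat_lit 1) true (nat_lit 10) true (nat_lit 11) (.s true (nat_lit 2) (nat_lit 26) (nat_lit 2) (nat_lit 1) (nat_lit 2) true (nat_lit 6) true (nat_lit 10) false (nat_lit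 1) true (nat_lit 10) true (nat_lit 11) (.s false (nat_lit 1) (nat_lit 25) (nat_lit 2) (nat_lit 2) (nat_lit 1) true (nat_lit 7) true (nat_lit 11) false (nat_lit 1) true (nat_lit 10) true (nat_lit 10) (.s false (nat_lit 1) (nat_lit 29) (nat_lit 0) (nat_lit 2) (nat_lit 2) true (nat_lit 8) true (nat_lit 10) false (nat_lit 2) true (nat_lit 12) true (nat_lit 10) (.s false (nat_lit 1) (nat_lit 29) (nat_lit 2) (nat_lit 0) (nat_lit 2) true (nat_lit 6) true (nat_lit 10) false (nat_lit 2) true (nat_lit 10) true (nat_lit 12) (.s true (nat_lit 1) (nat_lit 29) (nat_lit 2) (nat_lit 2) (nat_lit 0) true (nat_lit 8) true (nat_lit 12) false (nat_lit 2) true (nat_lit 10) true (nat_lit 10) (.s true (nat_lit 1) (nat_lit 30) (nat_lit 1) (nat_lit 1) (nat_lit 2) true (nat_lit 7) true (nat_lit 10) false (nat_lit 3) true (nat_lit 11) true (nat_lit 11) (.s false (nat_lit 3) (nat_lit 32) (nat_lit 1) (nat_lit 1) (nat_lit 2) true (nat_lit 7) true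 (nat_lit 10) false (nat_lit 3) true (nat_lit 11) true (nat_lit 11) (.s true (nat_lit 1) (nat_lit 30) (nat_lit 2) (nat_lit 1) (nat_lit 1) true (nat_lit 7) true (nat_lit 11) false (nat_lit 3) true (nat_lit 10) true (nat_lit 11) (.s true (nat_lit 2) (nat_lit 35) (nat_lit 0) (nat_lit 1) (nat_lit 2) true (nat_lit 8) true (nat_lit 10) false (nat_lit 4) true (nat_lit 12) true (nat_lit 11) (.s true (nat_lit 1) (nat_lit 35) (nat_lit 0) (nat_lit 2) (nat_lit 1) true (nat_lit 9) true (nat_lit 11) false (nat_lit 4) true (nat_lit 12) true (nat_lit 10) (.s true (nat_lit 1) (nat_lit 35) (nat_lit 1) (nat_lit 0) (nat_lit 2) true (nat_lit 7) true (nat_lit 10) false (nat_lit 4) true (nat_lit 11) true (nat_lit 12) (.s true (nat_lit 5) (nat_lit 35) (nat_lit 2) (nat_lit 1) (nat_lit 0) true (nat_lit 8) true (nat_lit 12) false (nat_lit 4) true (nat_lit 10) true (nat_lit 11) (.e true (nat_lit 432) (nat_lit 57) (nat_lit 5) (nat_lit 7) (.e true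 (nat_lit 1512) (nat_lit 97) (nat_lit 1) (nat_lit 11) (.e false (nat_lit 864) (nat_lit 101) (nat_lit 1) (nat_lit 11) dA4s_i12)))))))))))))))))))))))))

noncomputable def dA4s_i14 : IL := (.s false (nat_lit 2) (nat_lit 35) (nat_lit 0) (nat_lit 2) (nat_lit 1) true (nat_lit 9) true (nat_lit 11) false (nat_lit 4) true (nat_lit 12) true (nat_lit 10) (.s false (nat_lit 2) (nat_lit 35) (nat_lit 1) (nat_lit 0) (nat_lit 2) true (nat_lit 7) true (nat_lit 10) false (nat_lit 4) true (nat_lit 11) true (nat_lit 12) (.s true (nat_lit 2) (nat_lit 35) (nat_lit 2) (nat_lit 1) (nat_lit 0) true (nat_lit 8) true (nat_lit 12) false (nat_lit 4) true (nat_lit 10) true (nat_lit 11) (.e false (nat_lit 864) (nat_lit 95) (nat_lit 1) (nat_lit 11) (.e true (nat_lit 1296) (nat_lit 97) (nat_lit 1) (nat_lit 11) (.e true (nat_lit 1728) (nat_lit 101) (nat_lit 1) (nat_lit 11) (.e true (nat_lit 1728) (nat_lit 104) (nat_lit 1) (nat_lit 11) (.e true (nat_lit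 1728) (nat_lit 105) (nat_lit 1) (nat_lit 11) (.e true (nat_lit 1296) (nat_lit 106) (nat_lit 1) (nat_lit 11) (.e false (nat_lit 1296) (nat_lit 107) (nat_lit 1) (nat_lit 11) (.e false (nat_lit 2160) (nat_lit 94) (nat_lit 1) (nat_lit 11) (.e false (nat_lit 864) (nat_lit 98) (nat_lit 1) (nat_lit 11) (.e false (nat_lit 1296) (nat_lit 99) (nat_lit 1) (nat_lit 11) (.e false (nat_lit 1728) (nat_lit 109) (nat_lit 1) (nat_lit 11) (.e true (nat_lit 864) (nat_lit 96) (nat_lit 1) (nat_lit 11) (.e true (nat_lit 1296) (nat_lit 63) (nat_lit 4) (nat_lit 8) (.e false (nat_lit 1296) (nat_lit 80) (nat_lit 2) (nat_lit 10) (.e true (nat_lit 432) (nat_lit 82) (nat_lit 2) (nat_lit 10) (.e true (nat_lit 2160) (nat_lit 86) (nat_lit 2) (nat_lit 10) (.e true (nat_lit 864) (nat_lit 88) (nat_lit 2) (nat_lit 10) (.e true (nat_lit 2592) (nat_lit 103) (nat_lit 1) (nat_lit 11) (.e false (nat_lit 1296) (nat_lit 81) (nat_lit 2) (nat_lit 10) (.e true (nat_lit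 432) (nat_lit 85) (nat_lit 2) (nat_lit 10) (.e false (nat_lit 864) (nat_lit 84) (nat_lit 2) (nat_lit 10) (.e true (nat_lit 432) (nat_lit 87) (nat_lit 2) (nat_lit 10) .nil)))))))))))))))))))))))))

noncomputable def dA4s_i15 : IL := (.s false (nat_lit 2) (nat_lit 35) (nat_lit 2) (nat_lit 1) (nat_lit 0) true (nat_lit 8) true (nat_lit 12) false (nat_lit 4) true (nat_lit 10) true (nat_lit 11) (.e false (nat_lit 432) (nat_lit 57) (nat_lit 5) (nat_lit 7) (.e true (nat_lit 1728) (nat_lit 95) (nat_lit 1) (nat_lit 11) (.e false (nat_lit 1296) (nat_lit 97) (nat_lit 1) (nat_lit 11) (.e false (nat_lit 432) (nat_lit 101) (nat_lit 1) (nat_lit 11) (.e false (nat_lit 432) (nat_lit 104) (nat_lit 1) (nat_lit 11) (.e false (nat_lit 1296) (nat_lit 105) (nat_lit 1) (nat_lit 11) (.e false (nat_lit 1728) (nat_lit 106) (nat_lit 1) (nat_lit 11) (.e true (nat_lit 1296) (nat_lit 107) (nat_lit 1) (nat_lit 11) (.e true (nat_lit 3024) (nat_lit 94)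 (nat_lit 1) (nat_lit 11) (.e false (nat_lit 1728) (nat_lit 98) (nat_lit 1) (nat_lit 11) (.e true (nat_lit 2160) (nat_lit 99) (nat_lit 1) (nat_lit 11) (.e true (nat_lit 1296) (nat_lit 109) (nat_lit 1) (nat_lit 11) (.e false (nat_lit 864) (nat_lit 96) (nat_lit 1) (nat_lit 11) (.e true (nat_lit 432) (nat_lit 63) (nat_lit 4) (nat_lit 8) (.e false (nat_lit 864) (nat_lit 79) (nat_lit 2) (nat_lit 10) (.e true (nat_lit 432) (nat_lit 81) (nat_lit 2) (nat_lit 10) (.e false (nat_lit 432) (nat_lit 86) (nat_lit 2) (nat_lit 10) (.e false (nat_lit 864) (nat_lit 88) (nat_lit 2) (nat_lit 10) (.e false (nat_lit 2160) (nat_lit 103) (nat_lit 1) (nat_lit 11) (.e true (nat_lit 432) (nat_lit 80) (nat_lit 2) (nat_lit 10) (.e false (nat_lit 432) (nat_lit 82) (nat_lit 2) (nat_lit 10) (.e false (nat_lit 432) (nat_lit 100) (nat_lit 1) (nat_lit 11) (.e false (nat_lit 432) (nat_lit 102) (nat_lit 1) (nat_lit 11) (.e true (nat_lit 864) (nat_lit 111)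 (nat_lit 0) (nat_lit 12) .nil)))))))))))))))))))))))))

noncomputable def dA4s_i16 : IL := (.s false (nat_lit 4) (nat_lit 13) (nat_lit 1) (nat_lit 6) (nat_lit 1) false (nat_lit 13) true (nat_lit 11) true (nat_lit 2) true (nat_lit 11) true (nat_lit 6) (.s true (nat_lit 2) (nat_lit 12) (nat_lit 2) (nat_lit 5) (nat_lit 1) true (nat_lit 7) true (nat_lit 11) true (nat_lit 2) true (nat_lit 10) true (nat_lit 7) (.s true (nat_lit 6) (nat_lit 12) (nat_lit 5) (nat_lit 1) (nat_lit 2) true (nat_lit 1) true (nat_lit 10) true (nat_lit 2) true (nat_lit 7) true (nat_lit 11) (.s false (nat_lit 2) (nat_lit 12) (nat_lit 5) (nat_lit 2) (nat_lit 1) true (nat_lit 3) true (nat_lit 11) true (nat_lit 2) true (nat_lit 7) true (nat_lit 10) (.s true (nat_lit 6) (nat_lit 14) (nat_lit 2) (nat_lit 4) (nat_lit 1) true (nat_lit 7) true (nat_lit 11) true (nat_lit 1) true (nat_lit 10) true (nat_lit 8) (.s false (nat_lit 2) (nat_lit 16) (nat_lit 0) (nat_lit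 1) (nat_lit 5) true (nat_lit 4) true (nat_lit 7) true (nat_lit 0) true (nat_lit 12) true (nat_lit 11) (.s true (nat_lit 4) (nat_lit 16) (nat_lit 1) (nat_lit 1) (nat_lit 4) true (nat_lit 4) true (nat_lit 8) true (nat_lit 0) true (nat_lit 11) true (nat_lit 11) (.s true (nat_lit 2) (nat_lit 16) (nat_lit 1) (nat_lit 3) (nat_lit 2) true (nat_lit 7) true (nat_lit 10) true (nat_lit 0) true (nat_lit 11) true (nat_lit 9) (.s true (nat_lit 8) (nat_lit 16) (nat_lit 1) (nat_lit 4) (nat_lit 1) false (nat_lit 13) true (nat_lit 11) true (nat_lit 0) true (nat_lit 11) true (nat_lit 8) (.s true (nat_lit 2) (nat_lit 16) (nat_lit 5) (nat_lit 1) (nat_lit 0) true (nat_lit 4) true (nat_lit 12) true (nat_lit 0) true (nat_lit 7) true (nat_lit 11) (.s true (nat_lit 2) (nat_lit 19) (nat_lit 2) (nat_lit 2) (nat_lit 2) true (nat_lit 6) true (nat_lit 10) false (nat_lit 0) true (nat_lit 10) true (nat_lit 10) (.s true (nat_lit 2) (nat_lit 22) (nat_lit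 1) (nat_lit 2) (nat_lit 2) true (nat_lit 7) true (nat_lit 10) false (nat_lit 1) true (nat_lit 11) true (nat_lit 10) (.s false (nat_lit 1) (nat_lit 25) (nat_lit 1) (nat_lit 2) (nat_lit 2) true (nat_lit 7) true (nat_lit 10) false (nat_lit 1) true (nat_lit 11) true (nat_lit 10) (.s true (nat_lit 2) (nat_lit 22) (nat_lit 2) (nat_lit 1) (nat_lit 2) true (nat_lit 6) true (nat_lit 10) false (nat_lit 1) true (nat_lit 10) true (nat_lit 11) (.s false (nat_lit 1) (nat_lit 25) (nat_lit 2) (nat_lit 1) (nat_lit 2) true (nat_lit 6) true (nat_lit 10) false (nat_lit 1) true (nat_lit 10) true (nat_lit 11) (.s false (nat_lit 4) (nat_lit 22) (nat_lit 2) (nat_lit 2) (nat_lit 1) true (nat_lit 7) true (nat_lit 11) false (nat_lit 1) true (nat_lit 10) true (nat_lit 10) (.s false (nat_lit 1) (nat_lit 25) (nat_lit 2) (nat_lit 2) (nat_lit 1) true (nat_lit 7) true (nat_lit 11) false (nat_lit 1) true (nat_lit 10) true (nat_lit 10) (.s true (nat_lit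 4) (nat_lit 29) (nat_lit 2) (nat_lit 2) (nat_lit 0) true (nat_lit 8) true (nat_lit 12) false (nat_lit 2) true (nat_lit 10) true (nat_lit 10) (.s false (nat_lit 2) (nat_lit 30) (nat_lit 1) (nat_lit 1) (nat_lit 2) true (nat_lit 7) true (nat_lit 10) false (nat_lit 3) true (nat_lit 11) true (nat_lit 11) (.s true (nat_lit 4) (nat_lit 31) (nat_lit 1) (nat_lit 1) (nat_lit 2) true (nat_lit 7) true (nat_lit 10) false (nat_lit 3) true (nat_lit 11) true (nat_lit 11) (.s true (nat_lit 12) (nat_lit 32) (nat_lit 1) (nat_lit 1) (nat_lit 2) true (nat_lit 7) true (nat_lit 10) false (nat_lit 3) true (nat_lit 11) true (nat_lit 11) (.s true (nat_lit 4) (nat_lit 32) (nat_lit 1) (nat_lit 2) (nat_lit 1) false (nat_lit 13) true (nat_lit 11) false (nat_lit 3) true (nat_lit 11) true (nat_lit 10) (.s false (nat_lit 2) (nat_lit 30) (nat_lit 2) (nat_lit 1) (nat_lit 1) true (nat_lit 7) true (nat_lit 11) false (nat_lit 3) true (nat_lit 10) true (nat_lit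 11) (.s false (nat_lit 4) (nat_lit 31) (nat_lit 2) (nat_lit 1) (nat_lit 1) true (nat_lit 7) true (nat_lit 11) false (nat_lit 3) true (nat_lit 10) true (nat_lit 11) (.s true (nat_lit 2) (nat_lit 35) (nat_lit 1) (nat_lit 2) (nat_lit 0) true (nat_lit 9) true (nat_lit 12) false (nat_lit 4) true (nat_lit 11) true (nat_lit 10) dA4s_i15)))))))))))))))))))))))))

noncomputable def dA4s_i17 : IL := (.e false (nat_lit 864) (nat_lit 57) (nat_lit 5) (nat_lit 7) (.e false (nat_lit 2592) (nat_lit 95) (nat_lit 1) (nat_lit 11) (.e false (nat_lit 3024) (nat_lit 97) (nat_lit 1) (nat_lit 11) (.e true (nat_lit 2592) (nat_lit 101) (nat_lit 1) (nat_lit 11) (.e false (nat_lit 1728) (nat_lit 104) (nat_lit 1) (nat_lit 11) (.e false (nat_lit 1728) (nat_lit 105) (nat_lit 1) (nat_lit 11) (.e false (nat_lit 2160) (nat_lit 106) (nat_lit 1) (nat_lit 11) (.e true (nat_lit 2160) (nat_lit 107) (nat_lit 1) (nat_lit 11) (.e true (nat_lit 432) (nat_lit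 94) (nat_lit 1) (nat_lit 11) (.e false (nat_lit 432) (nat_lit 99) (nat_lit 1) (nat_lit 11) (.e false (nat_lit 432) (nat_lit 63) (nat_lit 4) (nat_lit 8) (.e true (nat_lit 4320) (nat_lit 81) (nat_lit 2) (nat_lit 10) (.e true (nat_lit 5184) (nat_lit 83) (nat_lit 2) (nat_lit 10) (.e false (nat_lit 1728) (nat_lit 85) (nat_lit 2) (nat_lit 10) (.e false (nat_lit 2592) (nat_lit 86) (nat_lit 2) (nat_lit 10) (.e false (nat_lit 1728) (nat_lit 87) (nat_lit 2) (nat_lit 10) (.e false (nat_lit 3456) (nat_lit 88) (nat_lit 2) (nat_lit 10) (.e false (nat_lit 1296) (nat_lit 90) (nat_lit 2) (nat_lit 10) (.e false (nat_lit 1296) (nat_lit 73) (nat_lit 2) (nat_lit 10) (.e false (nat_lit 1728) (nat_lit 84) (nat_lit 2) (nat_lit 10) (.e true (nat_lit 1296) (nat_lit 76) (nat_lit 2) (nat_lit 10) (.e false (nat_lit 1296) (nat_lit 78) (nat_lit 2) (nat_lit 10) (.e false (nat_lit 864) (nat_lit 80) (nat_lit 2) (nat_lit 10) (.e true (nat_lit 864) (nat_lit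 100) (nat_lit 1) (nat_lit 11) (.e true (nat_lit 864) (nat_lit 102) (nat_lit 1) (nat_lit 11) .nil)))))))))))))))))))))))))

noncomputable def dA4s_i18 : IL := (.s true (nat_lit 1) (nat_lit 13) (nat_lit 1) (nat_lit 1) (nat_lit 6) true (nat_lit 1) true (nat_lit 6) true (nat_lit 2) true (nat_lit 11) true (nat_lit 11) (.s true (nat_lit 2) (nat_lit 12) (nat_lit 2) (nat_lit 5) (nat_lit 1) true (nat_lit 7) true (nat_lit 11) true (nat_lit 2) true (nat_lit 10) true (nat_lit 7) (.s false (nat_lit 2) (nat_lit 12) (nat_lit 5) (nat_lit 1) (nat_lit 2) true (nat_lit 1) true (nat_lit 10) true (nat_lit 2) true (nat_lit 7) true (nat_lit 11) (.s false (nat_lit 2) (nat_lit 12) (nat_lit 5) (nat_lit 2) (nat_lit 1) true (nat_lit 3) true (nat_lit 11) true (nat_lit 2) true (nat_lit 7) true (nat_lit 10) (.s false (nat_lit 4) (nat_lit 14) (nat_lit 2) (nat_lit 2) (nat_lit 3) true (nat_lit 4) true (nat_lit 9) true (nat_lit 1) true (nat_lit 10) true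 (nat_lit 10) (.s true (nat_lit 4) (nat_lit 14) (nat_lit 2) (nat_lit 3) (nat_lit 2) true (nat_lit 6) true (nat_lit 10) true (nat_lit 1) true (nat_lit 10) true (nat_lit 9) (.s false (nat_lit 2) (nat_lit 14) (nat_lit 2) (nat_lit 4) (nat_lit 1) true (nat_lit 7) true (nat_lit 11) true (nat_lit 1) true (nat_lit 10) true (nat_lit 8) (.s false (nat_lit 2) (nat_lit 16) (nat_lit 0) (nat_lit 1) (nat_lit 5) true (nat_lit 4) true (nat_lit 7) true (nat_lit 0) true (nat_lit 12) true (nat_lit 11) (.s false (nat_lit 2) (nat_lit 16) (nat_lit 0) (nat_lit 5) (nat_lit 1) true (nat_lit 9) true (nat_lit 11) true (nat_lit 0) true (nat_lit 12) true (nat_lit 7) (.s true (nat_lit 2) (nat_lit 16) (nat_lit 1) (nat_lit 3) (nat_lit 2) true (nat_lit 7) true (nat_lit 10) true (nat_lit 0) true (nat_lit 11) true (nat_lit 9) (.s true (nat_lit 2) (nat_lit 16) (nat_lit 1) (nat_lit 4) (nat_lit 1) false (nat_lit 13) true (nat_lit 11) true (nat_lit 0) true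 (nat_lit 11) true (nat_lit 8) (.s false (nat_lit 4) (nat_lit 22) (nat_lit 1) (nat_lit 2) (nat_lit 2) true (nat_lit 7) true (nat_lit 10) false (nat_lit 1) true (nat_lit 11) true (nat_lit 10) (.s true (nat_lit 4) (nat_lit 23) (nat_lit 1) (nat_lit 2) (nat_lit 2) true (nat_lit 7) true (nat_lit 10) false (nat_lit 1) true (nat_lit 11) true (nat_lit 10) (.s true (nat_lit 1) (nat_lit 25) (nat_lit 1) (nat_lit 2) (nat_lit 2) true (nat_lit 7) true (nat_lit 10) false (nat_lit 1) true (nat_lit 11) true (nat_lit 10) (.s true (nat_lit 4) (nat_lit 24) (nat_lit 2) (nat_lit 1) (nat_lit 2) true (nat_lit 6) true (nat_lit 10) false (nat_lit 1) true (nat_lit 10) true (nat_lit 11) (.s true (nat_lit 1) (nat_lit 25) (nat_lit 2) (nat_lit 1) (nat_lit 2) true (nat_lit 6) true (nat_lit 10) false (nat_lit 1) true (nat_lit 10) true (nat_lit 11) (.s false (nat_lit 4) (nat_lit 26) (nat_lit 2) (nat_lit 1) (nat_lit 2) true (nat_lit 6) true (nat_lit 10)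 false (nat_lit 1) true (nat_lit 10) true (nat_lit 11) (.s true (nat_lit 2) (nat_lit 22) (nat_lit 2) (nat_lit 2) (nat_lit 1) true (nat_lit 7) true (nat_lit 11) false (nat_lit 1) true (nat_lit 10) true (nat_lit 10) (.s true (nat_lit 1) (nat_lit 25) (nat_lit 2) (nat_lit 2) (nat_lit 1) true (nat_lit 7) true (nat_lit 11) false (nat_lit 1) true (nat_lit 10) true (nat_lit 10) (.s false (nat_lit 2) (nat_lit 30) (nat_lit 1) (nat_lit 1) (nat_lit 2) true (nat_lit 7) true (nat_lit 10) false (nat_lit 3) true (nat_lit 11) true (nat_lit 11) (.s false (nat_lit 2) (nat_lit 30) (nat_lit 2) (nat_lit 1) (nat_lit 1) true (nat_lit 7) true (nat_lit 11) false (nat_lit 3) true (nat_lit 10) true (nat_lit 11) (.s false (nat_lit 2) (nat_lit 35) (nat_lit 0) (nat_lit 1) (nat_lit 2) true (nat_lit 8) true (nat_lit 10) false (nat_lit 4) true (nat_lit 12) true (nat_lit 11) (.s false (nat_lit 2) (nat_lit 35) (nat_lit 0) (nat_lit 2) (nat_lit 1) true (nat_lit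 9) true (nat_lit 11) false (nat_lit 4) true (nat_lit 12) true (nat_lit 10) (.s false (nat_lit 2) (nat_lit 35) (nat_lit 1) (nat_lit 0) (nat_lit 2) true (nat_lit 7) true (nat_lit 10) false (nat_lit 4) true (nat_lit 11) true (nat_lit 12) (.s false (nat_lit 2) (nat_lit 35) (nat_lit 2) (nat_lit 1) (nat_lit 0) true (nat_lit 8) true (nat_lit 12) false (nat_lit 4) true (nat_lit 10) true (nat_lit 11) dA4s_i17)))))))))))))))))))))))))

noncomputable def dA4s_i19 : IL := (.s true (nat_lit 1) (nat_lit 35) (nat_lit 1) (nat_lit 2) (nat_lit 0) true (nat_lit 9) true (nat_lit 12) false (nat_lit 4) true (nat_lit 11) true (nat_lit 10) (.s false (nat_lit 1) (nat_lit 35) (nat_lit 2) (nat_lit 1) (nat_lit 0) true (nat_lit 8) true (nat_lit 12) false (nat_lit 4) true (nat_lit 10) true (nat_lit 11) (.e true (nat_lit 432) (nat_lit 81) (nat_lit 2) (nat_lit 10) (.e true (nat_lit 1728) (nat_lit 83) (nat_lit 2) (nat_lit 10) (.e false (nat_lit 216)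 (nat_lit 85) (nat_lit 2) (nat_lit 10) (.e true (nat_lit 432) (nat_lit 86) (nat_lit 2) (nat_lit 10) (.e false (nat_lit 216) (nat_lit 87) (nat_lit 2) (nat_lit 10) (.e false (nat_lit 648) (nat_lit 88) (nat_lit 2) (nat_lit 10) (.e false (nat_lit 864) (nat_lit 90) (nat_lit 2) (nat_lit 10) (.e false (nat_lit 432) (nat_lit 73) (nat_lit 2) (nat_lit 10) (.e false (nat_lit 1296) (nat_lit 80) (nat_lit 2) (nat_lit 10) (.e true (nat_lit 432) (nat_lit 96) (nat_lit 1) (nat_lit 11) (.e false (nat_lit 864) (nat_lit 98) (nat_lit 1) (nat_lit 11) (.e true (nat_lit 432) (nat_lit 99) (nat_lit 1) (nat_lit 11) (.e true (nat_lit 432) (nat_lit 101) (nat_lit 1) (nat_lit 11) (.e true (nat_lit 1080) (nat_lit 103) (nat_lit 1) (nat_lit 11) (.e true (nat_lit 432) (nat_lit 76) (nat_lit 2) (nat_lit 10) (.e false (nat_lit 432) (nat_lit 78) (nat_lit 2) (nat_lit 10) (.e false (nat_lit 216) (nat_lit 100) (nat_lit 1) (nat_lit 11) (.e false (nat_lit 216)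 (nat_lit 102) (nat_lit 1) (nat_lit 11) (.e false (nat_lit 1296) (nat_lit 84) (nat_lit 2) (nat_lit 10) (.e false (nat_lit 432) (nat_lit 57) (nat_lit 5) (nat_lit 7) (.e true (nat_lit 432) (nat_lit 106) (nat_lit 1) (nat_lit 11) (.e true (nat_lit 432) (nat_lit 104) (nat_lit 1) (nat_lit 11) (.e true (nat_lit 432) (nat_lit 105) (nat_lit 1) (nat_lit 11) .nil)))))))))))))))))))))))))

noncomputable def dA4s_i20 : IL := (.s false (nat_lit 1) (nat_lit 35) (nat_lit 2) (nat_lit 1) (nat_lit 0) true (nat_lit 8) true (nat_lit 12) false (nat_lit 4) true (nat_lit 10) true (nat_lit 11) (.e true (nat_lit 432) (nat_lit 63) (nat_lit 4) (nat_lit 8) (.e true (nat_lit 432) (nat_lit 94) (nat_lit 1) (nat_lit 11) (.e true (nat_lit 864) (nat_lit 96) (nat_lit 1) (nat_lit 11) (.e false (nat_lit 1296) (nat_lit 97) (nat_lit 1) (nat_lit 11) (.e false (nat_lit 864) (nat_lit 98) (nat_lit 1) (nat_lit 11) (.e true (nat_lit 1296) (nat_lit 99) (nat_lit 1)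 (nat_lit 11) (.e true (nat_lit 1080) (nat_lit 101) (nat_lit 1) (nat_lit 11) (.e true (nat_lit 648) (nat_lit 103) (nat_lit 1) (nat_lit 11) (.e false (nat_lit 216) (nat_lit 104) (nat_lit 1) (nat_lit 11) (.e false (nat_lit 216) (nat_lit 105) (nat_lit 1) (nat_lit 11) (.e false (nat_lit 648) (nat_lit 106) (nat_lit 1) (nat_lit 11) (.e true (nat_lit 648) (nat_lit 107) (nat_lit 1) (nat_lit 11) (.e true (nat_lit 216) (nat_lit 109) (nat_lit 1) (nat_lit 11) (.e false (nat_lit 864) (nat_lit 95) (nat_lit 1) (nat_lit 11) (.e false (nat_lit 216) (nat_lit 111) (nat_lit 0) (nat_lit 12) (.e false (nat_lit 864) (nat_lit 113) (nat_lit 0) (nat_lit 12) (.e false (nat_lit 216) (nat_lit 114) (nat_lit 0) (nat_lit 12) (.e true (nat_lit 432) (nat_lit 90) (nat_lit 2) (nat_lit 10) (.e true (nat_lit 432) (nat_lit 82) (nat_lit 2) (nat_lit 10) (.e true (nat_lit 432) (nat_lit 84) (nat_lit 2) (nat_lit 10) (.e false (nat_lit 216) (nat_lit 85) (nat_lit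 2) (nat_lit 10) (.e false (nat_lit 432) (nat_lit 86) (nat_lit 2) (nat_lit 10) (.e false (nat_lit 216) (nat_lit 87) (nat_lit 2) (nat_lit 10) (.e true (nat_lit 216) (nat_lit 88) (nat_lit 2) (nat_lit 10) .nil)))))))))))))))))))))))))

noncomputable def dA4s_i21 : IL := (.s true (nat_lit 2) (nat_lit 35) (nat_lit 2) (nat_lit 1) (nat_lit 0) true (nat_lit 8) true (nat_lit 12) false (nat_lit 4) true (nat_lit 10) true (nat_lit 11) (.e false (nat_lit 432) (nat_lit 57) (nat_lit 5) (nat_lit 7) (.e true (nat_lit 432) (nat_lit 44) (nat_lit 6) (nat_lit 6) (.e false (nat_lit 432) (nat_lit 45) (nat_lit 6) (nat_lit 6) (.e false (nat_lit 432) (nat_lit 95) (nat_lit 1) (nat_lit 11) (.e true (nat_lit 1296) (nat_lit 101) (nat_lit 1) (nat_lit 11) (.e false (nat_lit 432) (nat_lit 105) (nat_lit 1) (nat_lit 11) (.e false (nat_lit 864) (nat_lit 106) (nat_lit 1) (nat_lit 11) (.e false (nat_lit 432) (nat_lit 94) (nat_lit 1) (nat_lit 11) (.e false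 (nat_lit 1728) (nat_lit 99) (nat_lit 1) (nat_lit 11) (.e false (nat_lit 1296) (nat_lit 109) (nat_lit 1) (nat_lit 11) (.e false (nat_lit 1296) (nat_lit 96) (nat_lit 1) (nat_lit 11) (.e false (nat_lit 432) (nat_lit 63) (nat_lit 4) (nat_lit 8) (.e false (nat_lit 432) (nat_lit 103) (nat_lit 1) (nat_lit 11) (.e true (nat_lit 1296) (nat_lit 83) (nat_lit 2) (nat_lit 10) (.e false (nat_lit 432) (nat_lit 86) (nat_lit 2) (nat_lit 10) (.e false (nat_lit 864) (nat_lit 88) (nat_lit 2) (nat_lit 10) (.e false (nat_lit 864) (nat_lit 90) (nat_lit 2) (nat_lit 10) (.e false (nat_lit 864) (nat_lit 74) (nat_lit 2) (nat_lit 10) (.e false (nat_lit 432) (nat_lit 79) (nat_lit 2) (nat_lit 10) (.e false (nat_lit 432) (nat_lit 80) (nat_lit 2) (nat_lit 10) (.e true (nat_lit 864) (nat_lit 100) (nat_lit 1) (nat_lit 11) (.e true (nat_lit 864) (nat_lit 102) (nat_lit 1) (nat_lit 11) (.e false (nat_lit 1296) (nat_lit 84) (nat_lit 2) (nat_lit 10) (.e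 true (nat_lit 432) (nat_lit 115) (nat_lit 0) (nat_lit 12) .nil)))))))))))))))))))))))))

noncomputable def dA4s_i22 : IL := (.s false (nat_lit 2) (nat_lit 16) (nat_lit 1) (nat_lit 1) (nat_lit 4) true (nat_lit 4) true (nat_lit 8) true (nat_lit 0) true (nat_lit 11) true (nat_lit 11) (.s false (nat_lit 4) (nat_lit 16) (nat_lit 1) (nat_lit 4) (nat_lit 1) false (nat_lit 13) true (nat_lit 11) true (nat_lit 0) true (nat_lit 11) true (nat_lit 8) (.s false (nat_lit 2) (nat_lit 16) (nat_lit 5) (nat_lit 1) (nat_lit 0) true (nat_lit 4) true (nat_lit 12) true (nat_lit 0) true (nat_lit 7) true (nat_lit 11) (.s false (nat_lit 2) (nat_lit 19) (nat_lit 2) (nat_lit 2) (nat_lit 2) true (nat_lit 6) true (nat_lit 10) false (nat_lit 0) true (nat_lit 10) true (nat_lit 10) (.s false (nat_lit 4) (nat_lit 22) (nat_lit 1) (nat_lit 2) (nat_lit 2) true (nat_lit 7) true (nat_lit 10) false (nat_lit 1) true (nat_lit 11) true (nat_lit 10) (.s true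 (nat_lit 4) (nat_lit 23) (nat_lit 1) (nat_lit 2) (nat_lit 2) true (nat_lit 7) true (nat_lit 10) false (nat_lit 1) true (nat_lit 11) true (nat_lit 10) (.s true (nat_lit 1) (nat_lit 25) (nat_lit 1) (nat_lit 2) (nat_lit 2) true (nat_lit 7) true (nat_lit 10) false (nat_lit 1) true (nat_lit 11) true (nat_lit 10) (.s false (nat_lit 2) (nat_lit 22) (nat_lit 2) (nat_lit 1) (nat_lit 2) true (nat_lit 6) true (nat_lit 10) false (nat_lit 1) true (nat_lit 10) true (nat_lit 11) (.s false (nat_lit 2) (nat_lit 23) (nat_lit 2) (nat_lit 1) (nat_lit 2) true (nat_lit 6) true (nat_lit 10) false (nat_lit 1) true (nat_lit 10) true (nat_lit 11) (.s true (nat_lit 2) (nat_lit 24) (nat_lit 2) (nat_lit 1) (nat_lit 2) true (nat_lit 6) true (nat_lit 10) false (nat_lit 1) true (nat_lit 10) true (nat_lit 11) (.s true (nat_lit 1) (nat_lit 25) (nat_lit 2) (nat_lit 1) (nat_lit 2) true (nat_lit 6) true (nat_lit 10) false (nat_lit 1) true (nat_lit 10)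 true (nat_lit 11) (.s false (nat_lit 2) (nat_lit 26) (nat_lit 2) (nat_lit 1) (nat_lit 2) true (nat_lit 6) true (nat_lit 10) false (nat_lit 1) true (nat_lit 10) true (nat_lit 11) (.s true (nat_lit 2) (nat_lit 22) (nat_lit 2) (nat_lit 2) (nat_lit 1) true (nat_lit 7) true (nat_lit 11) false (nat_lit 1) true (nat_lit 10) true (nat_lit 10) (.s true (nat_lit 1) (nat_lit 25) (nat_lit 2) (nat_lit 2) (nat_lit 1) true (nat_lit 7) true (nat_lit 11) false (nat_lit 1) true (nat_lit 10) true (nat_lit 10) (.s false (nat_lit 1) (nat_lit 29) (nat_lit 0) (nat_lit 2) (nat_lit 2) true (nat_lit 8) true (nat_lit 10) false (nat_lit 2) true (nat_lit 12) true (nat_lit 10) (.s false (nat_lit 1) (nat_lit 29) (nat_lit 2) (nat_lit 0) (nat_lit 2) true (nat_lit 6) true (nat_lit 10) false (nat_lit 2) true (nat_lit 10) true (nat_lit 12) (.s false (nat_lit 1) (nat_lit 29) (nat_lit 2) (nat_lit 2) (nat_lit 0) true (nat_lit 8) true (nat_lit 12) false (nat_lit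 2) true (nat_lit 10) true (nat_lit 10) (.s false (nat_lit 2) (nat_lit 30) (nat_lit 1) (nat_lit 1) (nat_lit 2) true (nat_lit 7) true (nat_lit 10) false (nat_lit 3) true (nat_lit 11) true (nat_lit 11) (.s false (nat_lit 2) (nat_lit 31) (nat_lit 1) (nat_lit 1) (nat_lit 2) true (nat_lit 7) true (nat_lit 10) false (nat_lit 3) true (nat_lit 11) true (nat_lit 11) (.s false (nat_lit 4) (nat_lit 32) (nat_lit 1) (nat_lit 1) (nat_lit 2) true (nat_lit 7) true (nat_lit 10) false (nat_lit 3) true (nat_lit 11) true (nat_lit 11) (.s false (nat_lit 2) (nat_lit 30) (nat_lit 2) (nat_lit 1) (nat_lit 1) true (nat_lit 7) true (nat_lit 11) false (nat_lit 3) true (nat_lit 10) true (nat_lit 11) (.s true (nat_lit 2) (nat_lit 34) (nat_lit 0) (nat_lit 1) (nat_lit 2) true (nat_lit 8) true (nat_lit 10) false (nat_lit 4) true (nat_lit 12) true (nat_lit 11) (.s true (nat_lit 2) (nat_lit 35) (nat_lit 0) (nat_lit 1) (nat_lit 2) true (nat_lit 8) true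 (nat_lit 10) false (nat_lit 4) true (nat_lit 12) true (nat_lit 11) (.s true (nat_lit 2) (nat_lit 34) (nat_lit 1) (nat_lit 2) (nat_lit 0) true (nat_lit 9) true (nat_lit 12) false (nat_lit 4) true (nat_lit 11) true (nat_lit 10) (.s true (nat_lit 2) (nat_lit 35) (nat_lit 1) (nat_lit 2) (nat_lit 0) true (nat_lit 9) true (nat_lit 12) false (nat_lit 4) true (nat_lit 11) true (nat_lit 10) dA4s_i21)))))))))))))))))))))))))

noncomputable def dA4s_i23 : IL := (.s true (nat_lit 1) (nat_lit 25) (nat_lit 2) (nat_lit 1) (nat_lit 2) true (nat_lit 6) true (nat_lit 10) false (nat_lit 1) true (nat_lit 10) true (nat_lit 11) (.s true (nat_lit 2) (nat_lit 22) (nat_lit 2) (nat_lit 2) (nat_lit 1) true (nat_lit 7) true (nat_lit 11) false (nat_lit 1) true (nat_lit 10) true (nat_lit 10) (.s true (nat_lit 1) (nat_lit 25) (nat_lit 2) (nat_lit 2) (nat_lit 1) true (nat_lit 7) true (nat_lit 11) false (nat_lit 1) true (nat_lit 10) true (nat_lit 10)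 (.s false (nat_lit 2) (nat_lit 32) (nat_lit 1) (nat_lit 1) (nat_lit 2) true (nat_lit 7) true (nat_lit 10) false (nat_lit 3) true (nat_lit 11) true (nat_lit 11) (.e true (nat_lit 432) (nat_lit 50) (nat_lit 5) (nat_lit 7) (.e true (nat_lit 432) (nat_lit 57) (nat_lit 5) (nat_lit 7) (.e false (nat_lit 864) (nat_lit 101) (nat_lit 1) (nat_lit 11) (.e false (nat_lit 1296) (nat_lit 104) (nat_lit 1) (nat_lit 11) (.e false (nat_lit 1296) (nat_lit 105) (nat_lit 1) (nat_lit 11) (.e false (nat_lit 864) (nat_lit 106) (nat_lit 1) (nat_lit 11) (.e true (nat_lit 432) (nat_lit 107) (nat_lit 1) (nat_lit 11) (.e true (nat_lit 1728) (nat_lit 98) (nat_lit 1) (nat_lit 11) (.e false (nat_lit 1296) (nat_lit 99) (nat_lit 1) (nat_lit 11) (.e true (nat_lit 432) (nat_lit 109) (nat_lit 1) (nat_lit 11) (.e false (nat_lit 1296) (nat_lit 96) (nat_lit 1) (nat_lit 11) (.e false (nat_lit 864) (nat_lit 63) (nat_lit 4) (nat_lit 8) (.e true (nat_lit 864)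 (nat_lit 80) (nat_lit 2) (nat_lit 10) (.e false (nat_lit 432) (nat_lit 82) (nat_lit 2) (nat_lit 10) (.e false (nat_lit 864) (nat_lit 86) (nat_lit 2) (nat_lit 10) (.e false (nat_lit 432) (nat_lit 88) (nat_lit 2) (nat_lit 10) (.e false (nat_lit 2160) (nat_lit 103) (nat_lit 1) (nat_lit 11) (.e true (nat_lit 864) (nat_lit 81) (nat_lit 2) (nat_lit 10) (.e true (nat_lit 432) (nat_lit 100) (nat_lit 1) (nat_lit 11) (.e true (nat_lit 432) (nat_lit 102) (nat_lit 1) (nat_lit 11) (.e true (nat_lit 432) (nat_lit 84) (nat_lit 2) (nat_lit 10) .nil)))))))))))))))))))))))))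

noncomputable def dA4s_i24 : IL := (.e true (nat_lit 864) (nat_lit 75) (nat_lit 2) (nat_lit 10) (.e false (nat_lit 432) (nat_lit 76) (nat_lit 2) (nat_lit 10) (.e true (nat_lit 432) (nat_lit 78) (nat_lit 2) (nat_lit 10) (.e true (nat_lit 432) (nat_lit 80) (nat_lit 2) (nat_lit 10) (.e false (nat_lit 432) (nat_lit 83) (nat_lit 2) (nat_lit 10) (.e false (nat_lit 432) (nat_lit 84) (nat_lit 2) (nat_lit 10) (.e true (nat_lit 432) (nat_lit 85) (nat_lit 2) (nat_lit 10) (.e false (nat_lit 432) (nat_lit 88) (nat_lit 2) (nat_lit 10) (.e false (nat_lit 432) (nat_lit 90) (nat_lit 2) (nat_lit 10) (.e false (nat_lit 432) (nat_lit 92) (nat_lit 2) (nat_lit 10) (.e true (nat_lit 216) (nat_lit 107) (nat_lit 1) (nat_lit 11) (.e false (nat_lit 1080) (nat_lit 105) (nat_lit 1) (nat_lit 11) (.e false (nat_lit 1080) (nat_lit 106) (nat_lit 1) (nat_lit 11) (.e false (nat_lit 432) (nat_lit 94) (nat_lit 1) (nat_lit 11) (.e true (nat_lit 432) (nat_lit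 97) (nat_lit 1) (nat_lit 11) (.e true (nat_lit 432) (nat_lit 98) (nat_lit 1) (nat_lit 11) (.e false (nat_lit 864) (nat_lit 99) (nat_lit 1) (nat_lit 11) (.e false (nat_lit 216) (nat_lit 100) (nat_lit 1) (nat_lit 11) (.e false (nat_lit 216) (nat_lit 101) (nat_lit 1) (nat_lit 11) (.e true (nat_lit 216) (nat_lit 102) (nat_lit 1) (nat_lit 11) (.e false (nat_lit 216) (nat_lit 104) (nat_lit 1) (nat_lit 11) (.e false (nat_lit 216) (nat_lit 109) (nat_lit 1) (nat_lit 11) (.e false (nat_lit 864) (nat_lit 79) (nat_lit 2) (nat_lit 10) (.e true (nat_lit 432) (nat_lit 111) (nat_lit 0) (nat_lit 12) (.e false (nat_lit 432) (nat_lit 96) (nat_lit 1) (nat_lit 11) .nil)))))))))))))))))))))))))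

noncomputable def dA4s_i25 : IL := (.e true (nat_lit 2592) (nat_lit 49) (nat_lit 5) (nat_lit 7) (.e false (nat_lit 9504) (nat_lit 73) (nat_lit 2) (nat_lit 10) (.e true (nat_lit 8640) (nat_lit 76) (nat_lit 2) (nat_lit 10) (.e false (nat_lit 1728) (nat_lit 78) (nat_lit 2) (nat_lit 10) (.e false (nat_lit 7776) (nat_lit 80) (nat_lit 2) (nat_lit 10) (.e true (nat_lit 16416) (nat_lit 81) (nat_lit 2) (nat_lit 10) (.e false (nat_lit 2592) (nat_lit 82) (nat_lit 2) (nat_lit 10) (.e false (nat_lit 1728) (nat_lit 86) (nat_lit 2) (nat_lit 10) (.e false (nat_lit 9936) (nat_lit 88) (nat_lit 2) (nat_lit 10) (.e true (nat_lit 11232) (nat_lit 74) (nat_lit 2) (nat_lit 10) (.e false (nat_lit 6480) (nat_lit 103) (nat_lit 1) (nat_lit 11) (.e true (nat_lit 19872) (nat_lit 83) (nat_lit 2) (nat_lit 10) (.e false (nat_lit 2592) (nat_lit 100) (nat_lit 1) (nat_lit 11) (.e false (nat_lit 1728) (nat_lit 102) (nat_lit 1) (nat_lit 11) (.e false (nat_lit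 9936) (nat_lit 85) (nat_lit 2) (nat_lit 10) (.e false (nat_lit 1728) (nat_lit 57) (nat_lit 5) (nat_lit 7) (.e false (nat_lit 10800) (nat_lit 87) (nat_lit 2) (nat_lit 10) (.e false (nat_lit 7776) (nat_lit 90) (nat_lit 2) (nat_lit 10) (.e true (nat_lit 864) (nat_lit 75) (nat_lit 2) (nat_lit 10) (.e false (nat_lit 864) (nat_lit 92) (nat_lit 2) (nat_lit 10) (.e false (nat_lit 3456) (nat_lit 111) (nat_lit 0) (nat_lit 12) (.e true (nat_lit 864) (nat_lit 112) (nat_lit 0) (nat_lit 12) (.e true (nat_lit 2592) (nat_lit 113) (nat_lit 0) (nat_lit 12) (.e true (nat_lit 2592) (nat_lit 114) (nat_lit 0) (nat_lit 12) (.e true (nat_lit 2592) (nat_lit 79) (nat_lit 2) (nat_lit 10) .nil)))))))))))))))))))))))))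

noncomputable def dA4s_i26 : IL := (.s true (nat_lit 16) (nat_lit 26) (nat_lit 2) (nat_lit 1) (nat_lit 2) true (nat_lit 6) true (nat_lit 10) false (nat_lit 1) true (nat_lit 10) true (nat_lit 11) (.s true (nat_lit 12) (nat_lit 22) (nat_lit 2) (nat_lit 2) (nat_lit 1) true (nat_lit 7) true (nat_lit 11) false (nat_lit 1) true (nat_lit 10) true (nat_lit 10) (.s false (nat_lit 1) (nat_lit 25) (nat_lit 2) (nat_lit 2) (nat_lit 1) true (nat_lit 7) true (nat_lit 11) false (nat_lit 1) true (nat_lit 10) true (nat_lit 10) (.s false (nat_lit 12) (nat_lit 29) (nat_lit 2) (nat_lit 2) (nat_lit 0) true (nat_lit 8) true (nat_lit 12) false (nat_lit 2) true (nat_lit 10) true (nat_lit 10) (.s true (nat_lit 16) (nat_lit 30) (nat_lit 1) (nat_lit 1) (nat_lit 2) true (nat_lit 7) true (nat_lit 10) false (nat_lit 3) true (nat_lit 11) true (nat_lit 11) (.s false (nat_lit 4) (nat_lit 31) (nat_lit 1) (nat_lit 1) (nat_lit 2) true (nat_lit 7) true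 (nat_lit 10) false (nat_lit 3) true (nat_lit 11) true (nat_lit 11) (.s false (nat_lit 8) (nat_lit 32) (nat_lit 1) (nat_lit 1) (nat_lit 2) true (nat_lit 7) true (nat_lit 10) false (nat_lit 3) true (nat_lit 11) true (nat_lit 11) (.s false (nat_lit 12) (nat_lit 32) (nat_lit 1) (nat_lit 2) (nat_lit 1) false (nat_lit 13) true (nat_lit 11) false (nat_lit 3) true (nat_lit 11) true (nat_lit 10) (.s false (nat_lit 4) (nat_lit 30) (nat_lit 2) (nat_lit 1) (nat_lit 1) true (nat_lit 7) true (nat_lit 11) false (nat_lit 3) true (nat_lit 10) true (nat_lit 11) (.s true (nat_lit 12) (nat_lit 31) (nat_lit 2) (nat_lit 1) (nat_lit 1) true (nat_lit 7) true (nat_lit 11) false (nat_lit 3) true (nat_lit 10) true (nat_lit 11) (.e false (nat_lit 5184) (nat_lit 63) (nat_lit 4) (nat_lit 8) (.e false (nat_lit 1296) (nat_lit 44) (nat_lit 6) (nat_lit 6) (.e false (nat_lit 3456) (nat_lit 45) (nat_lit 6) (nat_lit 6) (.e true (nat_lit 10368) (nat_lit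 95) (nat_lit 1) (nat_lit 11) (.e false (nat_lit 2592) (nat_lit 97) (nat_lit 1) (nat_lit 11) (.e false (nat_lit 5616) (nat_lit 101) (nat_lit 1) (nat_lit 11) (.e false (nat_lit 1296) (nat_lit 104) (nat_lit 1) (nat_lit 11) (.e true (nat_lit 1296) (nat_lit 105) (nat_lit 1) (nat_lit 11) (.e true (nat_lit 1296) (nat_lit 106) (nat_lit 1) (nat_lit 11) (.e true (nat_lit 4320) (nat_lit 107) (nat_lit 1) (nat_lit 11) (.e true (nat_lit 10368) (nat_lit 94) (nat_lit 1) (nat_lit 11) (.e false (nat_lit 4320) (nat_lit 98) (nat_lit 1) (nat_lit 11) (.e true (nat_lit 4320) (nat_lit 99) (nat_lit 1) (nat_lit 11) (.e true (nat_lit 4752) (nat_lit 109) (nat_lit 1) (nat_lit 11) (.e false (nat_lit 9504) (nat_lit 96) (nat_lit 1) (nat_lit 11) dA4s_i25)))))))))))))))))))))))))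

noncomputable def dA4s_i27 : IL := (.s false (nat_lit 1) (nat_lit 22) (nat_lit 2) (nat_lit 1) (nat_lit 2) true (nat_lit 6) true (nat_lit 10) false (nat_lit 1) true (nat_lit 10) true (nat_lit 11) (.s true (nat_lit 1) (nat_lit 22) (nat_lit 2) (nat_lit 2) (nat_lit 1) true (nat_lit 7) true (nat_lit 11) false (nat_lit 1) true (nat_lit 10) true (nat_lit 10) (.s false (nat_lit 1) (nat_lit 29) (nat_lit 2) (nat_lit 2) (nat_lit 0) true (nat_lit 8) true (nat_lit 12) false (nat_lit 2) true (nat_lit 10) true (nat_lit 10) (.s true (nat_lit 1) (nat_lit 30) (nat_lit 1) (nat_lit 1) (nat_lit 2) true (nat_lit 7) true (nat_lit 10) false (nat_lit 3) true (nat_lit 11) true (nat_lit 11) (.s false (nat_lit 1) (nat_lit 31) (nat_lit 1) (nat_lit 1) (nat_lit 2) true (nat_lit 7) true (nat_lit 10) false (nat_lit 3) true (nat_lit 11) true (nat_lit 11) (.s false (nat_lit 2) (nat_lit 32) (nat_lit 1) (nat_lit 1) (nat_lit 2) true (nat_lit 7) true (nat_lit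 10) false (nat_lit 3) true (nat_lit 11) true (nat_lit 11) (.s false (nat_lit 1) (nat_lit 32) (nat_lit 1) (nat_lit 2) (nat_lit 1) false (nat_lit 13) true (nat_lit 11) false (nat_lit 3) true (nat_lit 11) true (nat_lit 10) (.s true (nat_lit 1) (nat_lit 30) (nat_lit 2) (nat_lit 1) (nat_lit 1) true (nat_lit 7) true (nat_lit 11) false (nat_lit 3) true (nat_lit 10) true (nat_lit 11) (.s true (nat_lit 1) (nat_lit 31) (nat_lit 2) (nat_lit 1) (nat_lit 1) true (nat_lit 7) true (nat_lit 11) false (nat_lit 3) true (nat_lit 10) true (nat_lit 11) (.e false (nat_lit 432) (nat_lit 63) (nat_lit 4) (nat_lit 8) (.e false (nat_lit 216) (nat_lit 44) (nat_lit 6) (nat_lit 6) (.e false (nat_lit 432) (nat_lit 95) (nat_lit 1) (nat_lit 11) (.e false (nat_lit 216) (nat_lit 104) (nat_lit 1) (nat_lit 11) (.e true (nat_lit 216) (nat_lit 106) (nat_lit 1) (nat_lit 11) (.e false (nat_lit 216) (nat_lit 94) (nat_lit 1) (nat_lit 11) (.e true (nat_lit 216)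 (nat_lit 98) (nat_lit 1) (nat_lit 11) (.e true (nat_lit 216) (nat_lit 109) (nat_lit 1) (nat_lit 11) (.e true (nat_lit 216) (nat_lit 96) (nat_lit 1) (nat_lit 11) (.e false (nat_lit 216) (nat_lit 49) (nat_lit 5) (nat_lit 7) (.e false (nat_lit 216) (nat_lit 81) (nat_lit 2) (nat_lit 10) (.e true (nat_lit 432) (nat_lit 103) (nat_lit 1) (nat_lit 11) (.e true (nat_lit 216) (nat_lit 100) (nat_lit 1) (nat_lit 11) (.e true (nat_lit 216) (nat_lit 102) (nat_lit 1) (nat_lit 11) (.e false (nat_lit 216) (nat_lit 111) (nat_lit 0) (nat_lit 12) (.e true (nat_lit 216) (nat_lit 79) (nat_lit 2) (nat_lit 10) .nil)))))))))))))))))))))))))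

noncomputable def dA4s_i28 : IL := (.e true (nat_lit 216) (nat_lit 98) (nat_lit 1) (nat_lit 11) (.e false (nat_lit 432) (nat_lit 99) (nat_lit 1) (nat_lit 11) (.e true (nat_lit 108) (nat_lit 100) (nat_lit 1) (nat_lit 11) (.e false (nat_lit 324) (nat_lit 101) (nat_lit 1) (nat_lit 11) (.e false (nat_lit 108) (nat_lit 102) (nat_lit 1) (nat_lit 11) (.e true (nat_lit 540) (nat_lit 104) (nat_lit 1) (nat_lit 11) (.e true (nat_lit 540) (nat_lit 105) (nat_lit 1) (nat_lit 11) (.e true (nat_lit 972) (nat_lit 106) (nat_lit 1) (nat_lit 11) (.e false (nat_lit 756) (nat_lit 107) (nat_lit 1) (nat_lit 11) (.e false (nat_lit 540) (nat_lit 109) (nat_lit 1) (nat_lit 11) (.e false (nat_lit 216) (nat_lit 81) (nat_lit 2) (nat_lit 10) (.e false (nat_lit 216) (nat_lit 82) (nat_lit 2) (nat_lit 10) (.e false (nat_lit 216) (nat_lit 49) (nat_lit 5) (nat_lit 7) (.e false (nat_lit 216) (nat_lit 50) (nat_lit 5) (nat_lit 7) (.e true (nat_lit 864) (nat_lit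 97) (nat_lit 1) (nat_lit 11) (.e true (nat_lit 432) (nat_lit 103) (nat_lit 1) (nat_lit 11) (.e false (nat_lit 216) (nat_lit 63) (nat_lit 4) (nat_lit 8) (.e false (nat_lit 216) (nat_lit 84) (nat_lit 2) (nat_lit 10) (.e true (nat_lit 216) (nat_lit 87) (nat_lit 2) (nat_lit 10) (.e true (nat_lit 108) (nat_lit 111) (nat_lit 0) (nat_lit 12) (.e true (nat_lit 432) (nat_lit 113) (nat_lit 0) (nat_lit 12) (.e false (nat_lit 108) (nat_lit 114) (nat_lit 0) (nat_lit 12) (.e false (nat_lit 108) (nat_lit 115) (nat_lit 0) (nat_lit 12) (.e false (nat_lit 216) (nat_lit 53) (nat_lit 5) (nat_lit 7) (.e false (nat_lit 216) (nat_lit 90) (nat_lit 2) (nat_lit 10) .nil)))))))))))))))))))))))))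

noncomputable def dA4s_i29 : IL := (.s false (nat_lit 2) (nat_lit 14) (nat_lit 2) (nat_lit 1) (nat_lit 4) true (nat_lit 2) true (nat_lit 8) true (nat_lit 1) true (nat_lit 10) true (nat_lit 11) (.s true (nat_lit 1) (nat_lit 25) (nat_lit 1) (nat_lit 2) (nat_lit 2) true (nat_lit 7) true (nat_lit 10) false (nat_lit 1) true (nat_lit 11) true (nat_lit 10) (.s true (nat_lit 1) (nat_lit 25) (nat_lit 2) (nat_lit 1) (nat_lit 2) true (nat_lit 6) true (nat_lit 10) false (nat_lit 1) true (nat_lit 10) true (nat_lit 11) (.s true (nat_lit 1) (nat_lit 25) (nat_lit 2) (nat_lit 2) (nat_lit 1) true (nat_lit 7) true (nat_lit 11) false (nat_lit 1) true (nat_lit 10) true (nat_lit 10) (.s false (nat_lit 2) (nat_lit 32) (nat_lit 1) (nat_lit 2) (nat_lit 1) false (nat_lit 13) true (nat_lit 11) false (nat_lit 3) true (nat_lit 11) true (nat_lit 10) (.s true (nat_lit 2) (nat_lit 31) (nat_lit 2) (nat_lit 1) (nat_lit 1) true (nat_lit 7) true (nat_lit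 11) false (nat_lit 3) true (nat_lit 10) true (nat_lit 11) (.e true (nat_lit 864) (nat_lit 49) (nat_lit 5) (nat_lit 7) (.e true (nat_lit 432) (nat_lit 53) (nat_lit 5) (nat_lit 7) (.e true (nat_lit 432) (nat_lit 63) (nat_lit 4) (nat_lit 8) (.e true (nat_lit 432) (nat_lit 81) (nat_lit 2) (nat_lit 10) (.e true (nat_lit 432) (nat_lit 86) (nat_lit 2) (nat_lit 10) (.e true (nat_lit 432) (nat_lit 80) (nat_lit 2) (nat_lit 10) (.e true (nat_lit 432) (nat_lit 107) (nat_lit 1) (nat_lit 11) (.e true (nat_lit 1296) (nat_lit 94) (nat_lit 1) (nat_lit 11) (.e false (nat_lit 864) (nat_lit 98) (nat_lit 1) (nat_lit 11) (.e true (nat_lit 1728) (nat_lit 99) (nat_lit 1) (nat_lit 11) (.e false (nat_lit 432) (nat_lit 100) (nat_lit 1) (nat_lit 11) (.e false (nat_lit 432) (nat_lit 102) (nat_lit 1) (nat_lit 11) (.e true (nat_lit 432) (nat_lit 96) (nat_lit 1) (nat_lit 11) (.e false (nat_lit 1296) (nat_lit 97) (nat_lit 1) (nat_lit 11) (.e true (nat_lit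 432) (nat_lit 101) (nat_lit 1) (nat_lit 11) (.e true (nat_lit 864) (nat_lit 109) (nat_lit 1) (nat_lit 11) (.e false (nat_lit 432) (nat_lit 50) (nat_lit 5) (nat_lit 7) (.e false (nat_lit 432) (nat_lit 57) (nat_lit 5) (nat_lit 7) (.e true (nat_lit 432) (nat_lit 84) (nat_lit 2) (nat_lit 10) .nil)))))))))))))))))))))))))

noncomputable def dA4s_i30 : IL := (.s true (nat_lit 1) (nat_lit 19) (nat_lit 2) (nat_lit 2) (nat_lit 2) true (nat_lit 6) true (nat_lit 10) false (nat_lit 0) true (nat_lit 10) true (nat_lit 10) (.s true (nat_lit 1) (nat_lit 22) (nat_lit 2) (nat_lit 1) (nat_lit 2) true (nat_lit 6) true (nat_lit 10) false (nat_lit 1) true (nat_lit 10) true (nat_lit 11) (.s true (nat_lit 1) (nat_lit 22) (nat_lit 2) (nat_lit 2) (nat_lit 1) true (nat_lit 7) true (nat_lit 11) false (nat_lit 1) true (nat_lit 10) true (nat_lit 10) (.e true (nat_lit 216) (nat_lit 41) (nat_lit 6) (nat_lit 6) (.e false (nat_lit 216) (nat_lit 74)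 (nat_lit 2) (nat_lit 10) (.e false (nat_lit 216) (nat_lit 80) (nat_lit 2) (nat_lit 10) (.e true (nat_lit 216) (nat_lit 82) (nat_lit 2) (nat_lit 10) (.e true (nat_lit 216) (nat_lit 86) (nat_lit 2) (nat_lit 10) (.e true (nat_lit 216) (nat_lit 88) (nat_lit 2) (nat_lit 10) (.e true (nat_lit 216) (nat_lit 93) (nat_lit 2) (nat_lit 10) (.e false (nat_lit 864) (nat_lit 94) (nat_lit 1) (nat_lit 11) (.e false (nat_lit 216) (nat_lit 95) (nat_lit 1) (nat_lit 11) (.e false (nat_lit 216) (nat_lit 96) (nat_lit 1) (nat_lit 11) (.e true (nat_lit 216) (nat_lit 97) (nat_lit 1) (nat_lit 11) (.e true (nat_lit 864) (nat_lit 98) (nat_lit 1) (nat_lit 11) (.e false (nat_lit 1080) (nat_lit 99) (nat_lit 1) (nat_lit 11) (.e false (nat_lit 216) (nat_lit 101) (nat_lit 1) (nat_lit 11) (.e false (nat_lit 216) (nat_lit 103) (nat_lit 1) (nat_lit 11) (.e true (nat_lit 432) (nat_lit 49) (nat_lit 5) (nat_lit 7) (.e true (nat_lit 216) (nat_lit 43) (nat_lit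 6) (nat_lit 6) (.e false (nat_lit 216) (nat_lit 44) (nat_lit 6) (nat_lit 6) (.e true (nat_lit 216) (nat_lit 45) (nat_lit 6) (nat_lit 6) (.e false (nat_lit 216) (nat_lit 63) (nat_lit 4) (nat_lit 8) (.e true (nat_lit 216) (nat_lit 106) (nat_lit 1) (nat_lit 11) (.e false (nat_lit 216) (nat_lit 107) (nat_lit 1) (nat_lit 11) .nil)))))))))))))))))))))))))

noncomputable def dA4s_i31 : IL := (.s true (nat_lit 1) (nat_lit 26) (nat_lit 2) (nat_lit 1) (nat_lit 2) true (nat_lit 6) true (nat_lit 10) false (nat_lit 1) true (nat_lit 10) true (nat_lit 11) (.e false (nat_lit 108) (nat_lit 73) (nat_lit 2) (nat_lit 10) (.e false (nat_lit 648) (nat_lit 74) (nat_lit 2) (nat_lit 10) (.e true (nat_lit 648) (nat_lit 75) (nat_lit 2) (nat_lit 10) (.e false (nat_lit 1188) (nat_lit 81) (nat_lit 2) (nat_lit 10) (.e true (nat_lit 324) (nat_lit 82) (nat_lit 2) (nat_lit 10) (.e false (nat_lit 1296) (nat_lit 83) (nat_lit 2) (nat_lit 10) (.e true (nat_lit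 648) (nat_lit 84) (nat_lit 2) (nat_lit 10) (.e true (nat_lit 324) (nat_lit 85) (nat_lit 2) (nat_lit 10) (.e true (nat_lit 324) (nat_lit 86) (nat_lit 2) (nat_lit 10) (.e true (nat_lit 324) (nat_lit 87) (nat_lit 2) (nat_lit 10) (.e true (nat_lit 864) (nat_lit 88) (nat_lit 2) (nat_lit 10) (.e true (nat_lit 324) (nat_lit 90) (nat_lit 2) (nat_lit 10) (.e false (nat_lit 324) (nat_lit 76) (nat_lit 2) (nat_lit 10) (.e true (nat_lit 324) (nat_lit 78) (nat_lit 2) (nat_lit 10) (.e true (nat_lit 216) (nat_lit 57) (nat_lit 5) (nat_lit 7) (.e true (nat_lit 324) (nat_lit 80) (nat_lit 2) (nat_lit 10) (.e true (nat_lit 216) (nat_lit 23) (nat_lit 14) (nat_lit 1) (.e true (nat_lit 216) (nat_lit 77) (nat_lit 2) (nat_lit 10) (.e false (nat_lit 216) (nat_lit 79) (nat_lit 2) (nat_lit 10) (.e true (nat_lit 216) (nat_lit 93) (nat_lit 2) (nat_lit 10) (.e true (nat_lit 216) (nat_lit 41) (nat_lit 6) (nat_lit 6) (.e false (nat_lit 216) (nat_lit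 95) (nat_lit 1) (nat_lit 11) (.e false (nat_lit 216) (nat_lit 97) (nat_lit 1) (nat_lit 11) (.e true (nat_lit 216) (nat_lit 99) (nat_lit 1) (nat_lit 11) .nil)))))))))))))))))))))))))

noncomputable def dA4s_i32 : IL := (.s true (nat_lit 1) (nat_lit 10) (nat_lit 2) (nat_lit 2) (nat_lit 5) true (nat_lit 1) true (nat_lit 7) true (nat_lit 4) true (nat_lit 10) true (nat_lit 10) (.s true (nat_lit 1) (nat_lit 20) (nat_lit 2) (nat_lit 2) (nat_lit 2) true (nat_lit 6) true (nat_lit 10) false (nat_lit 0) true (nat_lit 10) true (nat_lit 10) (.s true (nat_lit 1) (nat_lit 23) (nat_lit 2) (nat_lit 1) (nat_lit 2) true (nat_lit 6) true (nat_lit 10) false (nat_lit 1) true (nat_lit 10) true (nat_lit 11) (.e false (nat_lit 108) (nat_lit 73) (nat_lit 2) (nat_lit 10) (.e true (nat_lit 108) (nat_lit 76) (nat_lit 2) (nat_lit 10) (.e false (nat_lit 108) (nat_lit 78) (nat_lit 2) (nat_lit 10) (.e true (nat_lit 756) (nat_lit 81) (nat_lit 2) (nat_lit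 10) (.e true (nat_lit 648) (nat_lit 83) (nat_lit 2) (nat_lit 10) (.e false (nat_lit 324) (nat_lit 85) (nat_lit 2) (nat_lit 10) (.e false (nat_lit 324) (nat_lit 86) (nat_lit 2) (nat_lit 10) (.e false (nat_lit 324) (nat_lit 87) (nat_lit 2) (nat_lit 10) (.e false (nat_lit 432) (nat_lit 88) (nat_lit 2) (nat_lit 10) (.e false (nat_lit 108) (nat_lit 90) (nat_lit 2) (nat_lit 10) (.e false (nat_lit 216) (nat_lit 92) (nat_lit 2) (nat_lit 10) (.e true (nat_lit 216) (nat_lit 95) (nat_lit 1) (nat_lit 11) (.e true (nat_lit 216) (nat_lit 97) (nat_lit 1) (nat_lit 11) (.e true (nat_lit 216) (nat_lit 98) (nat_lit 1) (nat_lit 11) (.e false (nat_lit 216) (nat_lit 99) (nat_lit 1) (nat_lit 11) (.e false (nat_lit 216) (nat_lit 100) (nat_lit 1) (nat_lit 11) (.e false (nat_lit 216) (nat_lit 101) (nat_lit 1) (nat_lit 11) (.e false (nat_lit 216) (nat_lit 102) (nat_lit 1) (nat_lit 11) (.e false (nat_lit 216) (nat_lit 103) (nat_lit 1) (nat_lit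 11) (.e true (nat_lit 216) (nat_lit 50) (nat_lit 5) (nat_lit 7) (.e true (nat_lit 108) (nat_lit 80) (nat_lit 2) (nat_lit 10) (.e true (nat_lit 108) (nat_lit 82) (nat_lit 2) (nat_lit 10) .nil)))))))))))))))))))))))))

noncomputable def dA4s_i33 : IL := (.s false (nat_lit 1) (nat_lit 12) (nat_lit 1) (nat_lit 5) (nat_lit 2) true (nat_lit 7) true (nat_lit 10) true (nat_lit 2) true (nat_lit 11) true (nat_lit 7) (.s false (nat_lit 1) (nat_lit 12) (nat_lit 5) (nat_lit 1) (nat_lit 2) true (nat_lit 1) true (nat_lit 10) true (nat_lit 2) true (nat_lit 7) true (nat_lit 11) (.s true (nat_lit 1) (nat_lit 24) (nat_lit 2) (nat_lit 1) (nat_lit 2) true (nat_lit 6) true (nat_lit 10) false (nat_lit 1) true (nat_lit 10) true (nat_lit 11) (.s true (nat_lit 1) (nat_lit 30) (nat_lit 1) (nat_lit 1) (nat_lit 2) true (nat_lit 7) true (nat_lit 10) false (nat_lit 3) true (nat_lit 11) true (nat_lit 11) (.e true (nat_lit 432) (nat_lit 76) (nat_lit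 2) (nat_lit 10) (.e false (nat_lit 216) (nat_lit 80) (nat_lit 2) (nat_lit 10) (.e false (nat_lit 216) (nat_lit 81) (nat_lit 2) (nat_lit 10) (.e true (nat_lit 216) (nat_lit 82) (nat_lit 2) (nat_lit 10) (.e true (nat_lit 432) (nat_lit 83) (nat_lit 2) (nat_lit 10) (.e false (nat_lit 216) (nat_lit 85) (nat_lit 2) (nat_lit 10) (.e true (nat_lit 216) (nat_lit 88) (nat_lit 2) (nat_lit 10) (.e true (nat_lit 648) (nat_lit 94) (nat_lit 1) (nat_lit 11) (.e true (nat_lit 864) (nat_lit 95) (nat_lit 1) (nat_lit 11) (.e false (nat_lit 432) (nat_lit 96) (nat_lit 1) (nat_lit 11) (.e true (nat_lit 216) (nat_lit 97) (nat_lit 1) (nat_lit 11) (.e false (nat_lit 432) (nat_lit 98) (nat_lit 1) (nat_lit 11) (.e true (nat_lit 216) (nat_lit 99) (nat_lit 1) (nat_lit 11) (.e false (nat_lit 216) (nat_lit 100) (nat_lit 1) (nat_lit 11) (.e false (nat_lit 216) (nat_lit 101) (nat_lit 1) (nat_lit 11) (.e false (nat_lit 216) (nat_lit 102) (nat_lit 1)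 (nat_lit 11) (.e false (nat_lit 432) (nat_lit 103) (nat_lit 1) (nat_lit 11) (.e true (nat_lit 216) (nat_lit 104) (nat_lit 1) (nat_lit 11) (.e true (nat_lit 216) (nat_lit 105) (nat_lit 1) (nat_lit 11) (.e false (nat_lit 216) (nat_lit 109) (nat_lit 1) (nat_lit 11) (.e false (nat_lit 216) (nat_lit 43) (nat_lit 6) (nat_lit 6) .nil)))))))))))))))))))))))))

noncomputable def dA4s_i34 : IL := (.s false (nat_lit 1) (nat_lit 12) (nat_lit 5) (nat_lit 1) (nat_lit 2) true (nat_lit 1) true (nat_lit 10) true (nat_lit 2) true (nat_lit 7) true (nat_lit 11) (.s false (nat_lit 1) (nat_lit 14) (nat_lit 2) (nat_lit 4) (nat_lit 1) true (nat_lit 7) true (nat_lit 11) true (nat_lit 1) true (nat_lit 10) true (nat_lit 8) (.s false (nat_lit 1) (nat_lit 32) (nat_lit 1) (nat_lit 1) (nat_lit 2) true (nat_lit 7) true (nat_lit 10) false (nat_lit 3) true (nat_lit 11) true (nat_lit 11) (.s false (nat_lit 1) (nat_lit 32) (nat_lit 1) (nat_lit 2) (nat_lit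 1) false (nat_lit 13) true (nat_lit 11) false (nat_lit 3) true (nat_lit 11) true (nat_lit 10) (.s true (nat_lit 1) (nat_lit 31) (nat_lit 2) (nat_lit 1) (nat_lit 1) true (nat_lit 7) true (nat_lit 11) false (nat_lit 3) true (nat_lit 10) true (nat_lit 11) (.e false (nat_lit 216) (nat_lit 83) (nat_lit 2) (nat_lit 10) (.e true (nat_lit 216) (nat_lit 81) (nat_lit 2) (nat_lit 10) (.e false (nat_lit 216) (nat_lit 91) (nat_lit 2) (nat_lit 10) (.e true (nat_lit 432) (nat_lit 74) (nat_lit 2) (nat_lit 10) (.e false (nat_lit 216) (nat_lit 49) (nat_lit 5) (nat_lit 7) (.e false (nat_lit 216) (nat_lit 51) (nat_lit 5) (nat_lit 7) (.e false (nat_lit 216) (nat_lit 94) (nat_lit 1) (nat_lit 11) (.e false (nat_lit 648) (nat_lit 95) (nat_lit 1) (nat_lit 11) (.e true (nat_lit 216) (nat_lit 96) (nat_lit 1) (nat_lit 11) (.e false (nat_lit 432) (nat_lit 97) (nat_lit 1) (nat_lit 11) (.e true (nat_lit 216) (nat_lit 98) (nat_lit 1) (nat_lit 11)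 (.e true (nat_lit 108) (nat_lit 100) (nat_lit 1) (nat_lit 11) (.e true (nat_lit 108) (nat_lit 101) (nat_lit 1) (nat_lit 11) (.e true (nat_lit 324) (nat_lit 102) (nat_lit 1) (nat_lit 11) (.e false (nat_lit 324) (nat_lit 104) (nat_lit 1) (nat_lit 11) (.e false (nat_lit 540) (nat_lit 105) (nat_lit 1) (nat_lit 11) (.e false (nat_lit 540) (nat_lit 106) (nat_lit 1) (nat_lit 11) (.e true (nat_lit 324) (nat_lit 107) (nat_lit 1) (nat_lit 11) (.e true (nat_lit 324) (nat_lit 109) (nat_lit 1) (nat_lit 11) (.e true (nat_lit 216) (nat_lit 63) (nat_lit 4) (nat_lit 8) .nil)))))))))))))))))))))))))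

noncomputable def dA4s_i35 : IL := (.e true (nat_lit 108) (nat_lit 77) (nat_lit 2) (nat_lit 10) (.e false (nat_lit 216) (nat_lit 78) (nat_lit 2) (nat_lit 10) (.e true (nat_lit 2376) (nat_lit 81) (nat_lit 2) (nat_lit 10) (.e false (nat_lit 648) (nat_lit 82) (nat_lit 2) (nat_lit 10) (.e true (nat_lit 1836) (nat_lit 83) (nat_lit 2) (nat_lit 10) (.e true (nat_lit 108) (nat_lit 84) (nat_lit 2) (nat_lit 10) (.e false (nat_lit 1080) (nat_lit 85) (nat_lit 2) (nat_lit 10) (.e false (nat_lit 648) (nat_lit 86) (nat_lit 2) (nat_lit 10) (.e false (nat_lit 1296) (nat_lit 88) (nat_lit 2) (nat_lit 10) (.e false (nat_lit 756) (nat_lit 90) (nat_lit 2) (nat_lit 10) (.e false (nat_lit 108) (nat_lit 92) (nat_lit 2) (nat_lit 10) (.e true (nat_lit 648) (nat_lit 93) (nat_lit 2) (nat_lit 10) (.e false (nat_lit 108) (nat_lit 80) (nat_lit 2) (nat_lit 10) (.e false (nat_lit 1080) (nat_lit 87) (nat_lit 2) (nat_lit 10) (.e false (nat_lit 216) (nat_lit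 23) (nat_lit 14) (nat_lit 1) (.e true (nat_lit 216) (nat_lit 49) (nat_lit 5) (nat_lit 7) (.e true (nat_lit 216) (nat_lit 51) (nat_lit 5) (nat_lit 7) (.e false (nat_lit 216) (nat_lit 54) (nat_lit 5) (nat_lit 7) (.e false (nat_lit 216) (nat_lit 55) (nat_lit 5) (nat_lit 7) (.e false (nat_lit 108) (nat_lit 111) (nat_lit 0) (nat_lit 12) (.e true (nat_lit 108) (nat_lit 112) (nat_lit 0) (nat_lit 12) (.e true (nat_lit 324) (nat_lit 113) (nat_lit 0) (nat_lit 12) (.e true (nat_lit 324) (nat_lit 114) (nat_lit 0) (nat_lit 12) (.e false (nat_lit 216) (nat_lit 45) (nat_lit 6) (nat_lit 6) (.e true (nat_lit 216) (nat_lit 99) (nat_lit 1) (nat_lit 11) .nil)))))))))))))))))))))))))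

noncomputable def dA4s_i36 : IL := (.e true (nat_lit 216) (nat_lit 54) (nat_lit 5) (nat_lit 7) (.e false (nat_lit 216) (nat_lit 57) (nat_lit 5) (nat_lit 7) (.e false (nat_lit 216) (nat_lit 58) (nat_lit 5) (nat_lit 7) (.e true (nat_lit 216) (nat_lit 80) (nat_lit 2) (nat_lit 10) (.e true (nat_lit 216) (nat_lit 81) (nat_lit 2) (nat_lit 10) (.e false (nat_lit 216) (nat_lit 82) (nat_lit 2) (nat_lit 10) (.e false (nat_lit 216) (nat_lit 83) (nat_lit 2) (nat_lit 10) (.e true (nat_lit 216) (nat_lit 85) (nat_lit 2) (nat_lit 10) (.e false (nat_lit 216) (nat_lit 88) (nat_lit 2) (nat_lit 10) (.e false (nat_lit 216) (nat_lit 89) (nat_lit 2) (nat_lit 10) (.e true (nat_lit 972) (nat_lit 94) (nat_lit 1) (nat_lit 11) (.e true (nat_lit 756) (nat_lit 95) (nat_lit 1) (nat_lit 11) (.e false (nat_lit 216) (nat_lit 96) (nat_lit 1) (nat_lit 11) (.e false (nat_lit 432) (nat_lit 97) (nat_lit 1) (nat_lit 11) (.e false (nat_lit 756) (nat_lit 98)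 (nat_lit 1) (nat_lit 11) (.e true (nat_lit 756) (nat_lit 99) (nat_lit 1) (nat_lit 11) (.e false (nat_lit 162) (nat_lit 100) (nat_lit 1) (nat_lit 11) (.e true (nat_lit 54) (nat_lit 101) (nat_lit 1) (nat_lit 11) (.e false (nat_lit 270) (nat_lit 102) (nat_lit 1) (nat_lit 11) (.e false (nat_lit 216) (nat_lit 103) (nat_lit 1) (nat_lit 11) (.e true (nat_lit 54) (nat_lit 104) (nat_lit 1) (nat_lit 11) (.e true (nat_lit 270) (nat_lit 105) (nat_lit 1) (nat_lit 11) (.e true (nat_lit 54) (nat_lit 106) (nat_lit 1) (nat_lit 11) (.e true (nat_lit 162) (nat_lit 107) (nat_lit 1) (nat_lit 11) (.e false (nat_lit 54) (nat_lit 109) (nat_lit 1) (nat_lit 11) .nil)))))))))))))))))))))))))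

noncomputable def dA4s_i37 : IL := (.s true (nat_lit 1) (nat_lit 10) (nat_lit 2) (nat_lit 2) (nat_lit 5) true (nat_lit 1) true (nat_lit 7) true (nat_lit 4) true (nat_lit 10) true (nat_lit 10) (.e true (nat_lit 432) (nat_lit 48) (nat_lit 5) (nat_lit 7) (.e true (nat_lit 216) (nat_lit 49) (nat_lit 5) (nat_lit 7) (.e false (nat_lit 216) (nat_lit 52) (nat_lit 5) (nat_lit 7) (.e true (nat_lit 216) (nat_lit 53) (nat_lit 5) (nat_lit 7) (.e false (nat_lit 216) (nat_lit 56) (nat_lit 5) (nat_lit 7) (.e false (nat_lit 216) (nat_lit 57) (nat_lit 5) (nat_lit 7) (.e false (nat_lit 216) (nat_lit 37) (nat_lit 6) (nat_lit 6) (.e false (nat_lit 216) (nat_lit 39) (nat_lit 6) (nat_lit 6) (.e true (nat_lit 216) (nat_lit 40) (nat_lit 6) (nat_lit 6) (.e true (nat_lit 216) (nat_lit 41) (nat_lit 6) (nat_lit 6) (.e true (nat_lit 216) (nat_lit 43) (nat_lit 6) (nat_lit 6) (.e false (nat_lit 216) (nat_lit 44) (nat_lit 6) (nat_lit 6) (.e false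 (nat_lit 432) (nat_lit 112) (nat_lit 0) (nat_lit 12) (.e false (nat_lit 1296) (nat_lit 113) (nat_lit 0) (nat_lit 12) (.e false (nat_lit 1080) (nat_lit 114) (nat_lit 0) (nat_lit 12) (.e true (nat_lit 216) (nat_lit 111) (nat_lit 0) (nat_lit 12) (.e true (nat_lit 216) (nat_lit 115) (nat_lit 0) (nat_lit 12) (.e false (nat_lit 216) (nat_lit 51) (nat_lit 5) (nat_lit 7) (.e true (nat_lit 216) (nat_lit 54) (nat_lit 5) (nat_lit 7) (.e true (nat_lit 216) (nat_lit 55) (nat_lit 5) (nat_lit 7) (.e true (nat_lit 216) (nat_lit 23) (nat_lit 14) (nat_lit 1) (.e false (nat_lit 216) (nat_lit 75) (nat_lit 2) (nat_lit 10) (.e false (nat_lit 216) (nat_lit 82) (nat_lit 2) (nat_lit 10) (.e true (nat_lit 216) (nat_lit 92) (nat_lit 2) (nat_lit 10) .nil)))))))))))))))))))))))))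

noncomputable def dA4s_i38 : IL := (.s true (nat_lit 1) (nat_lit 12) (nat_lit 5) (nat_lit 1) (nat_lit 2) true (nat_lit 1) true (nat_lit 10) true (nat_lit 2) true (nat_lit 7) true (nat_lit 11) (.s true (nat_lit 1) (nat_lit 27) (nat_lit 2) (nat_lit 0) (nat_lit 2) true (nat_lit 6) true (nat_lit 10) false (nat_lit 2) true (nat_lit 10) true (nat_lit 12) (.e false (nat_lit 216) (nat_lit 24) (nat_lit 14) (nat_lit 1) (.e false (nat_lit 432) (nat_lit 89) (nat_lit 2) (nat_lit 10) (.e false (nat_lit 216) (nat_lit 58) (nat_lit 5) (nat_lit 7) (.e true (nat_lit 216) (nat_lit 108) (nat_lit 1) (nat_lit 11) (.e false (nat_lit 216) (nat_lit 46) (nat_lit 6) (nat_lit 6) (.e true (nat_lit 324) (nat_lit 73) (nat_lit 2) (nat_lit 10) (.e true (nat_lit 648) (nat_lit 74) (nat_lit 2) (nat_lit 10) (.e false (nat_lit 324) (nat_lit 75) (nat_lit 2) (nat_lit 10) (.e false (nat_lit 432) (nat_lit 76) (nat_lit 2) (nat_lit 10) (.e true (nat_lit 108)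 (nat_lit 77) (nat_lit 2) (nat_lit 10) (.e true (nat_lit 216) (nat_lit 78) (nat_lit 2) (nat_lit 10) (.e true (nat_lit 108) (nat_lit 79) (nat_lit 2) (nat_lit 10) (.e false (nat_lit 432) (nat_lit 81) (nat_lit 2) (nat_lit 10) (.e false (nat_lit 108) (nat_lit 82) (nat_lit 2) (nat_lit 10) (.e false (nat_lit 972) (nat_lit 83) (nat_lit 2) (nat_lit 10) (.e true (nat_lit 540) (nat_lit 84) (nat_lit 2) (nat_lit 10) (.e true (nat_lit 216) (nat_lit 85) (nat_lit 2) (nat_lit 10) (.e true (nat_lit 108) (nat_lit 86) (nat_lit 2) (nat_lit 10) (.e true (nat_lit 756) (nat_lit 90) (nat_lit 2) (nat_lit 10) (.e true (nat_lit 216) (nat_lit 92) (nat_lit 2) (nat_lit 10) (.e true (nat_lit 756) (nat_lit 93) (nat_lit 2) (nat_lit 10) (.e true (nat_lit 216) (nat_lit 80) (nat_lit 2) (nat_lit 10) (.e false (nat_lit 108) (nat_lit 87) (nat_lit 2) (nat_lit 10) .nil)))))))))))))))))))))))))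

noncomputable def dA4s_i39 : IL := (.s true (nat_lit 1) (nat_lit 15) (nat_lit 2) (nat_lit 6) (nat_lit 0) true (nat_lit 6) true (nat_lit 10) true (nat_lit 1) true (nat_lit 8) true (nat_lit 4) (.s false (nat_lit 2) (nat_lit 16) (nat_lit 0) (nat_lit 6) (nat_lit 1) true (nat_lit 7) true (nat_lit 9) true (nat_lit 0) true (nat_lit 10) true (nat_lit 4) (.s true (nat_lit 8) (nat_lit 16) (nat_lit 3) (nat_lit 2) (nat_lit 2) true (nat_lit 3) true (nat_lit 8) true (nat_lit 0) true (nat_lit 7) true (nat_lit 8) (.s false (nat_lit 4) (nat_lit 16) (nat_lit 5) (nat_lit 2) (nat_lit 0) true (nat_lit 3) true (nat_lit 10) true (nat_lit 0) true (nat_lit 5) true (nat_lit 8) (.s true (nat_lit 3) (nat_lit 16) (nat_lit 6) (nat_lit 0) (nat_lit 1) true (nat_lit 1) true (nat_lit 9) true (nat_lit 0) true (nat_lit 4) true (nat_lit 10) (.s true (nat_lit 4) (nat_lit 25) (nat_lit 2) (nat_lit 2) (nat_lit 2) true (nat_lit 4) true (nat_lit 8) false (nat_lit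 0) true (nat_lit 8) true (nat_lit 8) (.s false (nat_lit 4) (nat_lit 26) (nat_lit 2) (nat_lit 2) (nat_lit 2) true (nat_lit 4) true (nat_lit 8) false (nat_lit 0) true (nat_lit 8) true (nat_lit 8) (.s true (nat_lit 2) (nat_lit 31) (nat_lit 1) (nat_lit 2) (nat_lit 2) true (nat_lit 5) true (nat_lit 8) false (nat_lit 1) true (nat_lit 9) true (nat_lit 8) (.s false (nat_lit 4) (nat_lit 32) (nat_lit 2) (nat_lit 2) (nat_lit 1) true (nat_lit 5) true (nat_lit 9) false (nat_lit 1) true (nat_lit 8) true (nat_lit 8) (.s true (nat_lit 2) (nat_lit 34) (nat_lit 0) (nat_lit 2) (nat_lit 2) true (nat_lit 6) true (nat_lit 8) false (nat_lit 2) true (nat_lit 10) true (nat_lit 8) (.e true (nat_lit 864) (nat_lit 55) (nat_lit 6) (nat_lit 4) (.e false (nat_lit 864) (nat_lit 118) (nat_lit 1) (nat_lit 9) (.e true (nat_lit 864) (nat_lit 103) (nat_lit 2) (nat_lit 8) (.e false (nat_lit 864) (nat_lit 94) (nat_lit 2) (nat_lit 8) (.e false (nat_lit 864)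 (nat_lit 95) (nat_lit 2) (nat_lit 8) (.e true (nat_lit 864) (nat_lit 99) (nat_lit 2) (nat_lit 8) (.e false (nat_lit 432) (nat_lit 100) (nat_lit 2) (nat_lit 8) (.e false (nat_lit 432) (nat_lit 101) (nat_lit 2) (nat_lit 8) (.e false (nat_lit 432) (nat_lit 102) (nat_lit 2) (nat_lit 8) (.e false (nat_lit 432) (nat_lit 104) (nat_lit 2) (nat_lit 8) (.e false (nat_lit 432) (nat_lit 105) (nat_lit 2) (nat_lit 8) (.e true (nat_lit 2160) (nat_lit 106) (nat_lit 2) (nat_lit 8) (.e true (nat_lit 432) (nat_lit 107) (nat_lit 2) (nat_lit 8) (.e true (nat_lit 2160) (nat_lit 109) (nat_lit 2) (nat_lit 8) (.e true (nat_lit 1728) (nat_lit 96) (nat_lit 2) (nat_lit 8) .nil)))))))))))))))))))))))))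

noncomputable def dA4s_i40 : IL := (.s false (nat_lit 2) (nat_lit 15) (nat_lit 2) (nat_lit 2) (nat_lit 4) true (nat_lit 2) true (nat_lit 6) true (nat_lit 1) true (nat_lit 8) true (nat_lit 8) (.s false (nat_lit 5) (nat_lit 15) (nat_lit 2) (nat_lit 6) (nat_lit 0) true (nat_lit 6) true (nat_lit 10) true (nat_lit 1) true (nat_lit 8) true (nat_lit 4) (.s true (nat_lit 8) (nat_lit 16) (nat_lit 0) (nat_lit 6) (nat_lit 1) true (nat_lit 7) true (nat_lit 9) true (nat_lit 0) true (nat_lit 10) true (nat_lit 4) (.s false (nat_lit 4) (nat_lit 16) (nat_lit 2) (nat_lit 1) (nat_lit 4) true (nat_lit 2) true (nat_lit 6) true (nat_lit 0) true (nat_lit 8) true (nat_lit 9) (.s false (nat_lit 4) (nat_lit 16) (nat_lit 2) (nat_lit 5) (nat_lit 0) true (nat_lit 6) true (nat_lit 10) true (nat_lit 0) true (nat_lit 8) true (nat_lit 5) (.s true (nat_lit 6) (nat_lit 16) (nat_lit 3) (nat_lit 2) (nat_lit 2) true (nat_lit 3) true (nat_lit 8) true (nat_lit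 0) true (nat_lit 7) true (nat_lit 8) (.s true (nat_lit 3) (nat_lit 16) (nat_lit 6) (nat_lit 0) (nat_lit 1) true (nat_lit 1) true (nat_lit 9) true (nat_lit 0) true (nat_lit 4) true (nat_lit 10) (.s true (nat_lit 4) (nat_lit 25) (nat_lit 2) (nat_lit 2) (nat_lit 2) true (nat_lit 4) true (nat_lit 8) false (nat_lit 0) true (nat_lit 8) true (nat_lit 8) (.s false (nat_lit 6) (nat_lit 31) (nat_lit 1) (nat_lit 2) (nat_lit 2) true (nat_lit 5) true (nat_lit 8) false (nat_lit 1) true (nat_lit 9) true (nat_lit 8) (.s false (nat_lit 4) (nat_lit 31) (nat_lit 2) (nat_lit 1) (nat_lit 2) true (nat_lit 4) true (nat_lit 8) false (nat_lit 1) true (nat_lit 8) true (nat_lit 9) (.s false (nat_lit 4) (nat_lit 32) (nat_lit 2) (nat_lit 1) (nat_lit 2) true (nat_lit 4) true (nat_lit 8) false (nat_lit 1) true (nat_lit 8) true (nat_lit 9) (.s true (nat_lit 2) (nat_lit 34) (nat_lit 0) (nat_lit 2) (nat_lit 2) true (nat_lit 6) true (nat_lit 8) false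 (nat_lit 2) true (nat_lit 10) true (nat_lit 8) (.s false (nat_lit 4) (nat_lit 35) (nat_lit 0) (nat_lit 2) (nat_lit 2) true (nat_lit 6) true (nat_lit 8) false (nat_lit 2) true (nat_lit 10) true (nat_lit 8) (.e true (nat_lit 3456) (nat_lit 55) (nat_lit 6) (nat_lit 4) (.e false (nat_lit 4320) (nat_lit 103) (nat_lit 2) (nat_lit 8) (.e false (nat_lit 1728) (nat_lit 95) (nat_lit 2) (nat_lit 8) (.e false (nat_lit 6048) (nat_lit 100) (nat_lit 2) (nat_lit 8) (.e true (nat_lit 864) (nat_lit 102) (nat_lit 2) (nat_lit 8) (.e false (nat_lit 5184) (nat_lit 104) (nat_lit 2) (nat_lit 8) (.e false (nat_lit 5184) (nat_lit 105) (nat_lit 2) (nat_lit 8) (.e false (nat_lit 5184) (nat_lit 106) (nat_lit 2) (nat_lit 8) (.e true (nat_lit 5184) (nat_lit 107) (nat_lit 2) (nat_lit 8) (.e false (nat_lit 1728) (nat_lit 94) (nat_lit 2) (nat_lit 8) (.e false (nat_lit 1728) (nat_lit 99) (nat_lit 2) (nat_lit 8) (.e true (nat_lit 1728) (nat_lit 109) (nat_lit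 2) (nat_lit 8) .nil)))))))))))))))))))))))))

noncomputable def dA4s_i41 : IL := (.s true (nat_lit 1) (nat_lit 14) (nat_lit 0) (nat_lit 2) (nat_lit 6) true (nat_lit 2) true (nat_lit 4) true (nat_lit 1) true (nat_lit 10) true (nat_lit 8) (.s false (nat_lit 1) (nat_lit 15) (nat_lit 2) (nat_lit 6) (nat_lit 0) true (nat_lit 6) true (nat_lit 10) true (nat_lit 1) true (nat_lit 8) true (nat_lit 4) (.s false (nat_lit 1) (nat_lit 16) (nat_lit 0) (nat_lit 5) (nat_lit 2) true (nat_lit 6) true (nat_lit 8) true (nat_lit 0) true (nat_lit 10) true (nat_lit 5) (.s true (nat_lit 1) (nat_lit 16) (nat_lit 2) (nat_lit 5) (nat_lit 0) true (nat_lit 6) true (nat_lit 10) true (nat_lit 0) true (nat_lit 8) true (nat_lit 5) (.s false (nat_lit 2) (nat_lit 16) (nat_lit 3) (nat_lit 2) (nat_lit 2) true (nat_lit 3) true (nat_lit 8) true (nat_lit 0) true (nat_lit 7) true (nat_lit 8) (.s false (nat_lit 1) (nat_lit 16) (nat_lit 5) (nat_lit 0) (nat_lit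 2) true (nat_lit 1) true (nat_lit 8) true (nat_lit 0) true (nat_lit 5) true (nat_lit 10) (.s true (nat_lit 1) (nat_lit 16) (nat_lit 6) (nat_lit 0) (nat_lit 1) true (nat_lit 1) true (nat_lit 9) true (nat_lit 0) true (nat_lit 4) true (nat_lit 10) (.s true (nat_lit 2) (nat_lit 25) (nat_lit 2) (nat_lit 2) (nat_lit 2) true (nat_lit 4) true (nat_lit 8) false (nat_lit 0) true (nat_lit 8) true (nat_lit 8) (.s true (nat_lit 1) (nat_lit 26) (nat_lit 2) (nat_lit 2) (nat_lit 2) true (nat_lit 4) true (nat_lit 8) false (nat_lit 0) true (nat_lit 8) true (nat_lit 8) (.e true (nat_lit 432) (nat_lit 54) (nat_lit 6) (nat_lit 4) (.e true (nat_lit 432) (nat_lit 55) (nat_lit 6) (nat_lit 4) (.e false (nat_lit 864) (nat_lit 103) (nat_lit 2) (nat_lit 8) (.e false (nat_lit 864) (nat_lit 66) (nat_lit 5) (nat_lit 5) (.e false (nat_lit 432) (nat_lit 100) (nat_lit 2) (nat_lit 8) (.e true (nat_lit 432) (nat_lit 101) (nat_lit 2) (nat_lit 8) (.e true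 (nat_lit 432) (nat_lit 102) (nat_lit 2) (nat_lit 8) (.e false (nat_lit 864) (nat_lit 104) (nat_lit 2) (nat_lit 8) (.e false (nat_lit 864) (nat_lit 105) (nat_lit 2) (nat_lit 8) (.e false (nat_lit 1728) (nat_lit 106) (nat_lit 2) (nat_lit 8) (.e true (nat_lit 432) (nat_lit 107) (nat_lit 2) (nat_lit 8) (.e true (nat_lit 432) (nat_lit 98) (nat_lit 2) (nat_lit 8) (.e false (nat_lit 864) (nat_lit 99) (nat_lit 2) (nat_lit 8) (.e false (nat_lit 864) (nat_lit 96) (nat_lit 2) (nat_lit 8) (.e false (nat_lit 432) (nat_lit 109) (nat_lit 2) (nat_lit 8) (.e false (nat_lit 432) (nat_lit 67) (nat_lit 5) (nat_lit 5) .nil)))))))))))))))))))))))))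

noncomputable def dA4s_i42 : IL := (.s false (nat_lit 8) (nat_lit 16) (nat_lit 2) (nat_lit 5) (nat_lit 0) true (nat_lit 6) true (nat_lit 10) true (nat_lit 0) true (nat_lit 8) true (nat_lit 5) (.s true (nat_lit 12) (nat_lit 16) (nat_lit 3) (nat_lit 2) (nat_lit 2) true (nat_lit 3) true (nat_lit 8) true (nat_lit 0) true (nat_lit 7) true (nat_lit 8) (.s true (nat_lit 4) (nat_lit 16) (nat_lit 5) (nat_lit 0) (nat_lit 2) true (nat_lit 1) true (nat_lit 8) true (nat_lit 0) true (nat_lit 5) true (nat_lit 10) (.s false (nat_lit 1) (nat_lit 16) (nat_lit 6) (nat_lit 0) (nat_lit 1) true (nat_lit 1) true (nat_lit 9) true (nat_lit 0) true (nat_lit 4) true (nat_lit 10) (.s false (nat_lit 8) (nat_lit 26) (nat_lit 2) (nat_lit 2) (nat_lit 2) true (nat_lit 4) true (nat_lit 8) false (nat_lit 0) true (nat_lit 8) true (nat_lit 8) (.s true (nat_lit 4) (nat_lit 30) (nat_lit 1) (nat_lit 2) (nat_lit 2) true (nat_lit 5) true (nat_lit 8) false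 (nat_lit 1) true (nat_lit 9) true (nat_lit 8) (.s false (nat_lit 2) (nat_lit 31) (nat_lit 1) (nat_lit 2) (nat_lit 2) true (nat_lit 5) true (nat_lit 8) false (nat_lit 1) true (nat_lit 9) true (nat_lit 8) (.s false (nat_lit 4) (nat_lit 32) (nat_lit 2) (nat_lit 1) (nat_lit 2) true (nat_lit 4) true (nat_lit 8) false (nat_lit 1) true (nat_lit 8) true (nat_lit 9) (.s true (nat_lit 4) (nat_lit 32) (nat_lit 2) (nat_lit 2) (nat_lit 1) true (nat_lit 5) true (nat_lit 9) false (nat_lit 1) true (nat_lit 8) true (nat_lit 8) (.s false (nat_lit 2) (nat_lit 34) (nat_lit 0) (nat_lit 2) (nat_lit 2) true (nat_lit 6) true (nat_lit 8) false (nat_lit 2) true (nat_lit 10) true (nat_lit 8) (.e true (nat_lit 864) (nat_lit 49) (nat_lit 6) (nat_lit 4) (.e false (nat_lit 1728) (nat_lit 53) (nat_lit 6) (nat_lit 4) (.e true (nat_lit 864) (nat_lit 103) (nat_lit 2) (nat_lit 8) (.e true (nat_lit 4320) (nat_lit 66) (nat_lit 5) (nat_lit 5) (.e false (nat_lit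 3456) (nat_lit 95) (nat_lit 2) (nat_lit 8) (.e false (nat_lit 864) (nat_lit 100) (nat_lit 2) (nat_lit 8) (.e false (nat_lit 2592) (nat_lit 101) (nat_lit 2) (nat_lit 8) (.e false (nat_lit 864) (nat_lit 102) (nat_lit 2) (nat_lit 8) (.e true (nat_lit 5184) (nat_lit 106) (nat_lit 2) (nat_lit 8) (.e true (nat_lit 864) (nat_lit 107) (nat_lit 2) (nat_lit 8) (.e false (nat_lit 3456) (nat_lit 94) (nat_lit 2) (nat_lit 8) (.e true (nat_lit 864) (nat_lit 98) (nat_lit 2) (nat_lit 8) (.e true (nat_lit 2592) (nat_lit 67) (nat_lit 5) (nat_lit 5) (.e true (nat_lit 3456) (nat_lit 96) (nat_lit 2) (nat_lit 8) (.e true (nat_lit 4320) (nat_lit 109) (nat_lit 2) (nat_lit 8) .nil)))))))))))))))))))))))))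

noncomputable def dA4s_i43 : IL := (.s true (nat_lit 13) (nat_lit 6) (nat_lit 2) (nat_lit 6) (nat_lit 3) true (nat_lit 3) true (nat_lit 7) true (nat_lit 4) true (nat_lit 8) true (nat_lit 4) (.s true (nat_lit 13) (nat_lit 8) (nat_lit 6) (nat_lit 2) (nat_lit 2) true (nat_lit 0) true (nat_lit 8) true (nat_lit 3) true (nat_lit 4) true (nat_lit 8) (.s true (nat_lit 4) (nat_lit 16) (nat_lit 0) (nat_lit 5) (nat_lit 2) true (nat_lit 6) true (nat_lit 8) true (nat_lit 0) true (nat_lit 10) true (nat_lit 5) (.s false (nat_lit 8) (nat_lit 16) (nat_lit 2) (nat_lit 5) (nat_lit 0) true (nat_lit 6) true (nat_lit 10) true (nat_lit 0) true (nat_lit 8) true (nat_lit 5) (.s true (nat_lit 13) (nat_lit 16) (nat_lit 3) (nat_lit 2) (nat_lit 2) true (nat_lit 3) true (nat_lit 8) true (nat_lit 0) true (nat_lit 7) true (nat_lit 8) (.s true (nat_lit 4) (nat_lit 16) (nat_lit 5) (nat_lit 0) (nat_lit 2) true (nat_lit 1) true (nat_lit 8) true (nat_lit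 0) true (nat_lit 5) true (nat_lit 10) (.s false (nat_lit 8) (nat_lit 26) (nat_lit 2) (nat_lit 2) (nat_lit 2) true (nat_lit 4) true (nat_lit 8) false (nat_lit 0) true (nat_lit 8) true (nat_lit 8) (.s false (nat_lit 4) (nat_lit 32) (nat_lit 2) (nat_lit 1) (nat_lit 2) true (nat_lit 4) true (nat_lit 8) false (nat_lit 1) true (nat_lit 8) true (nat_lit 9) (.e false (nat_lit 1728) (nat_lit 53) (nat_lit 6) (nat_lit 4) (.e true (nat_lit 1728) (nat_lit 103) (nat_lit 2) (nat_lit 8) (.e false (nat_lit 2592) (nat_lit 95) (nat_lit 2) (nat_lit 8) (.e false (nat_lit 864) (nat_lit 100) (nat_lit 2) (nat_lit 8) (.e false (nat_lit 2160) (nat_lit 101) (nat_lit 2) (nat_lit 8) (.e false (nat_lit 864) (nat_lit 102) (nat_lit 2) (nat_lit 8) (.e true (nat_lit 5616) (nat_lit 106) (nat_lit 2) (nat_lit 8) (.e true (nat_lit 864) (nat_lit 107) (nat_lit 2) (nat_lit 8) (.e true (nat_lit 864) (nat_lit 70) (nat_lit 4) (nat_lit 6) (.e true (nat_lit 4752)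 (nat_lit 109) (nat_lit 2) (nat_lit 8) (.e true (nat_lit 1728) (nat_lit 67) (nat_lit 5) (nat_lit 5) (.e false (nat_lit 2592) (nat_lit 94) (nat_lit 2) (nat_lit 8) (.e true (nat_lit 4320) (nat_lit 96) (nat_lit 2) (nat_lit 8) (.e true (nat_lit 2592) (nat_lit 66) (nat_lit 5) (nat_lit 5) (.e true (nat_lit 1728) (nat_lit 99) (nat_lit 2) (nat_lit 8) (.e true (nat_lit 864) (nat_lit 55) (nat_lit 6) (nat_lit 4) (.e false (nat_lit 864) (nat_lit 118) (nat_lit 1) (nat_lit 9) .nil)))))))))))))))))))))))))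

noncomputable def dA4s_i44 : IL := (.s true (nat_lit 2) (nat_lit 6) (nat_lit 5) (nat_lit 0) (nat_lit 6) false (nat_lit 2) true (nat_lit 4) true (nat_lit 4) true (nat_lit 5) true (nat_lit 10) (.s false (nat_lit 1) (nat_lit 8) (nat_lit 6) (nat_lit 2) (nat_lit 2) true (nat_lit 0) true (nat_lit 8) true (nat_lit 3) true (nat_lit 4) true (nat_lit 8) (.s true (nat_lit 3) (nat_lit 13) (nat_lit 2) (nat_lit 1) (nat_lit 6) true (nat_lit 0) true (nat_lit 4) true (nat_lit 2) true (nat_lit 8) true (nat_lit 9) (.s true (nat_lit 4) (nat_lit 13) (nat_lit 2) (nat_lit 2) (nat_lit 5) true (nat_lit 1) true (nat_lit 5) true (nat_lit 2) true (nat_lit 8) true (nat_lit 8) (.s false (nat_lit 1) (nat_lit 15) (nat_lit 2) (nat_lit 6) (nat_lit 0) true (nat_lit 6) true (nat_lit 10) true (nat_lit 1) true (nat_lit 8) true (nat_lit 4) (.s false (nat_lit 1) (nat_lit 16) (nat_lit 3) (nat_lit 2) (nat_lit 2) true (nat_lit 3) true (nat_lit 8) true (nat_lit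 0) true (nat_lit 7) true (nat_lit 8) (.s true (nat_lit 1) (nat_lit 16) (nat_lit 6) (nat_lit 0) (nat_lit 1) true (nat_lit 1) true (nat_lit 9) true (nat_lit 0) true (nat_lit 4) true (nat_lit 10) (.s true (nat_lit 4) (nat_lit 25) (nat_lit 2) (nat_lit 2) (nat_lit 2) true (nat_lit 4) true (nat_lit 8) false (nat_lit 0) true (nat_lit 8) true (nat_lit 8) (.s false (nat_lit 4) (nat_lit 32) (nat_lit 2) (nat_lit 1) (nat_lit 2) true (nat_lit 4) true (nat_lit 8) false (nat_lit 1) true (nat_lit 8) true (nat_lit 9) (.e true (nat_lit 432) (nat_lit 52) (nat_lit 6) (nat_lit 4) (.e true (nat_lit 864) (nat_lit 54) (nat_lit 6) (nat_lit 4) (.e true (nat_lit 1296) (nat_lit 55) (nat_lit 6) (nat_lit 4) (.e true (nat_lit 864) (nat_lit 69) (nat_lit 4) (nat_lit 6) (.e true (nat_lit 864) (nat_lit 70) (nat_lit 4) (nat_lit 6) (.e false (nat_lit 864) (nat_lit 117) (nat_lit 1) (nat_lit 9) (.e false (nat_lit 1728) (nat_lit 118) (nat_lit 1) (nat_lit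 9) (.e false (nat_lit 1728) (nat_lit 66) (nat_lit 5) (nat_lit 5) (.e false (nat_lit 864) (nat_lit 67) (nat_lit 5) (nat_lit 5) (.e true (nat_lit 432) (nat_lit 104) (nat_lit 2) (nat_lit 8) (.e true (nat_lit 432) (nat_lit 105) (nat_lit 2) (nat_lit 8) (.e false (nat_lit 864) (nat_lit 99) (nat_lit 2) (nat_lit 8) (.e false (nat_lit 864) (nat_lit 96) (nat_lit 2) (nat_lit 8) (.e false (nat_lit 864) (nat_lit 103) (nat_lit 2) (nat_lit 8) (.e false (nat_lit 1296) (nat_lit 100) (nat_lit 2) (nat_lit 8) (.e false (nat_lit 432) (nat_lit 102) (nat_lit 2) (nat_lit 8) .nil)))))))))))))))))))))))))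

noncomputable def dA4s_t0 : Tr := (.nd (.nd (.nd (.nd (.nd (.nd (.nd .leaf (nat_lit 1024) (nat_lit 0) (.p (nat_lit 3) (nat_lit 216) .z) .df .leaf) (nat_lit 2048) (nat_lit 1) (.p (nat_lit 4) (nat_lit 216) .z) .df (.nd .leaf (nat_lit 2049) (nat_lit 2) (.p (nat_lit 5) (nat_lit 216) .z) .df .leaf)) (nat_lit 2050) (nat_lit 3) (.p (nat_lit 6) (nat_lit 216) .z) .df (.nd (.nd .leaf (nat_lit 3073) (nat_lit 4) (.p (nat_lit 7) (nat_lit 216) .z) .df .leaf) (nat_lit 3074) (nat_lit 5) (.p (nat_lit 8) (nat_lit 216) .z) .df .leaf)) (nat_lit 4097) (nat_lit 6) (.p (nat_lit 9) (nat_lit 216) .z) .df (.nd (.nd (.nd .leaf (nat_lit 4098) (nat_lit 9) (.p (nat_lit 12) (nat_lit 216) .z) .df .leaf) (nat_lit 5120) (nat_lit 7) (.p (nat_lit 10) (nat_lit 216) .z) .df (.nd .leaf (nat_lit 5121) (nat_lit 8) (.p (nat_lit 11) (nat_lit 216) .z) .df .leaf)) (nat_lit 5122) (nat_lit 11) (.p (nat_lit 14) (nat_lit 216) .z) .df (.nd (.nd .leaf (nat_lit 5123)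 (nat_lit 19) (.p (nat_lit 17) (nat_lit 216) (.n (nat_lit 19) (nat_lit 216) (.p (nat_lit 20) (nat_lit 216) .z))) (.ct dA4s_c289 (nat_lit 216) (nat_lit 0) (.s true (nat_lit 1) (nat_lit 2) (nat_lit 0) (nat_lit 1) (nat_lit 1) true (nat_lit 0) true (nat_lit 2) true (nat_lit 1) true (nat_lit 3) true (nat_lit 2) (.e true (nat_lit 216) (nat_lit 9) (nat_lit 1) (nat_lit 2) (.e false (nat_lit 216) (nat_lit 7) (nat_lit 2) (nat_lit 1) (.e false (nat_lit 216) (nat_lit 10) (nat_lit 1) (nat_lit 2) .nil))))) .leaf) (nat_lit 5124) (nat_lit 26) (.n (nat_lit 21) (nat_lit 216) (.n (nat_lit 22) (nat_lit 216) (.p (nat_lit 25) (nat_lit 216) (.n (nat_lit 26) (nat_lit 216) .z)))) (.ct dA4s_c274 (nat_lit 216) (nat_lit 0) (.s true (nat_lit 1) (nat_lit 2) (nat_lit 0) (nat_lit 1) (nat_lit 2) true (nat_lit 0) true (nat_lit 2) true (nat_lit 2) true (nat_lit 4) true (nat_lit 3) (.e true (nat_lit 216) (nat_lit 9) (nat_lit 2) (nat_lit 2) (.e true (nat_lit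 216) (nat_lit 8) (nat_lit 2) (nat_lit 2) (.e true (nat_lit 216) (nat_lit 14) (nat_lit 0) (nat_lit 4) (.e false (nat_lit 216) (nat_lit 13) (nat_lit 1) (nat_lit 3) .nil)))))) .leaf))) (nat_lit 5125) (nat_lit 32) (.n (nat_lit 27) (nat_lit 216) (.n (nat_lit 28) (nat_lit 216) (.p (nat_lit 29) (nat_lit 216) .z))) (.ct dA4s_c34 (nat_lit 216) (nat_lit 0) (.s true (nat_lit 1) (nat_lit 2) (nat_lit 1) (nat_lit 1) (nat_lit 2) true (nat_lit 0) true (nat_lit 1) true (nat_lit 1) true (nat_lit 2) true (nat_lit 2) (.e true (nat_lit 216) (nat_lit 11) (nat_lit 2) (nat_lit 1) (.e true (nat_lit 216) (nat_lit 14) (nat_lit 1) (nat_lit 2) (.e false (nat_lit 216) (nat_lit 15) (nat_lit 1) (nat_lit 2) .nil))))) (.nd (.nd (.nd (.nd .leaf (nat_lit 6144) (nat_lit 10) (.p (nat_lit 13) (nat_lit 216) .z) .df .leaf) (nat_lit 6145) (nat_lit 12) (.p (nat_lit 15) (nat_lit 216) .z) .df (.nd .leaf (nat_lit 6146) (nat_lit 13) (.p (nat_lit 16) (nat_lit 216)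 .z) .df .leaf)) (nat_lit 6147) (nat_lit 28) (.n (nat_lit 22) (nat_lit 216) (.p (nat_lit 23) (nat_lit 216) (.n (nat_lit 24) (nat_lit 216) (.p (nat_lit 26) (nat_lit 216) .z)))) (.ct dA4s_c274 (nat_lit 216) (nat_lit 1) (.s true (nat_lit 1) (nat_lit 2) (nat_lit 0) (nat_lit 2) (nat_lit 1) true (nat_lit 1) true (nat_lit 3) true (nat_lit 2) true (nat_lit 4) true (nat_lit 2) (.e true (nat_lit 216) (nat_lit 12) (nat_lit 1) (nat_lit 3) (.e true (nat_lit 216) (nat_lit 9) (nat_lit 2) (nat_lit 2) (.e false (nat_lit 216) (nat_lit 14) (nat_lit 0) (nat_lit 4) (.e false (nat_lit 216) (nat_lit 10) (nat_lit 2) (nat_lit 2) .nil)))))) (.nd (.nd .leaf (nat_lit 6148) (nat_lit 36) (.n (nat_lit 31) (nat_lit 216) (.n (nat_lit 32) (nat_lit 216) .z)) (.ct dA4s_c259 (nat_lit 216) (nat_lit 0) (.s true (nat_lit 1) (nat_lit 2) (nat_lit 0) (nat_lit 2) (nat_lit 2) true (nat_lit 0) true (nat_lit 1) true (nat_lit 1) true (nat_lit 2) true (nat_lit 1) (.e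 true (nat_lit 216) (nat_lit 16) (nat_lit 0) (nat_lit 2) (.e true (nat_lit 216) (nat_lit 13) (nat_lit 2) (nat_lit 1) .nil)))) .leaf) (nat_lit 6149) (nat_lit 40) (.n (nat_lit 34) (nat_lit 216) (.n (nat_lit 35) (nat_lit 216) .z)) (.ct dA4s_c19 (nat_lit 216) (nat_lit 0) (.s true (nat_lit 1) (nat_lit 2) (nat_lit 1) (nat_lit 2) (nat_lit 2) true (nat_lit 0) true (nat_lit 1) true (nat_lit 1) true (nat_lit 2) true (nat_lit 1) (.e true (nat_lit 216) (nat_lit 16) (nat_lit 1) (nat_lit 2) (.e true (nat_lit 216) (nat_lit 15) (nat_lit 2) (nat_lit 1) .nil)))) .leaf)) (nat_lit 7170) (nat_lit 14) (.p (nat_lit 17) (nat_lit 216) .z) .df (.nd (.nd (.nd .leaf (nat_lit 7174) (nat_lit 59) (.p (nat_lit 40) (nat_lit 432) (.p (nat_lit 41) (nat_lit 432) (.n (nat_lit 42) (nat_lit 432) (.n (nat_lit 44) (nat_lit 216) (.p (nat_lit 47) (nat_lit 216) .z))))) (.ct dA4s_c290 (nat_lit 216) (nat_lit 0) (.s true (nat_lit 1) (nat_lit 6) (nat_lit 1) (nat_lit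 0) (nat_lit 1) false (nat_lit 7) true (nat_lit 5) true (nat_lit 0) true (nat_lit 5) true (nat_lit 6) (.e false (nat_lit 432) (nat_lit 21) (nat_lit 1) (nat_lit 5) (.e false (nat_lit 432) (nat_lit 22) (nat_lit 1) (nat_lit 5) (.e true (nat_lit 432) (nat_lit 23) (nat_lit 1) (nat_lit 5) (.e true (nat_lit 216) (nat_lit 25) (nat_lit 1) (nat_lit 5) (.e false (nat_lit 216) (nat_lit 29) (nat_lit 0) (nat_lit 6) .nil))))))) .leaf) (nat_lit 8193) (nat_lit 15) (.p (nat_lit 18) (nat_lit 216) .z) .df .leaf) (nat_lit 8194) (nat_lit 20) (.p (nat_lit 21) (nat_lit 216) .z) .df (.nd (.nd .leaf (nat_lit 8197) (nat_lit 53) (.p (nat_lit 37) (nat_lit 432) (.n (nat_lit 38) (nat_lit 216) (.p (nat_lit 39) (nat_lit 216) (.n (nat_lit 40) (nat_lit 216) (.n (nat_lit 41) (nat_lit 216) (.p (nat_lit 42) (nat_lit 216) (.n (nat_lit 43) (nat_lit 216) (.p (nat_lit 44) (nat_lit 216) (.p (nat_lit 45) (nat_lit 216) (.n (nat_lit 47) (nat_lit 216) .z))))))))))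 (.ct dA4s_c290 (nat_lit 216) (nat_lit 1) (.s true (nat_lit 1) (nat_lit 3) (nat_lit 2) (nat_lit 2) (nat_lit 1) true (nat_lit 1) true (nat_lit 5) true (nat_lit 3) true (nat_lit 4) true (nat_lit 4) (.s true (nat_lit 1) (nat_lit 6) (nat_lit 1) (nat_lit 1) (nat_lit 0) true (nat_lit 3) true (nat_lit 6) true (nat_lit 0) true (nat_lit 5) true (nat_lit 5) (.e true (nat_lit 216) (nat_lit 21) (nat_lit 1) (nat_lit 5) (.e false (nat_lit 432) (nat_lit 17) (nat_lit 2) (nat_lit 4) (.e true (nat_lit 216) (nat_lit 19) (nat_lit 2) (nat_lit 4) (.e false (nat_lit 216) (nat_lit 20) (nat_lit 2) (nat_lit 4) (.e true (nat_lit 216) (nat_lit 29) (nat_lit 0) (nat_lit 6) (.e true (nat_lit 216) (nat_lit 22) (nat_lit 1) (nat_lit 5) (.e false (nat_lit 216) (nat_lit 23) (nat_lit 1) (nat_lit 5) (.e true (nat_lit 216) (nat_lit 24) (nat_lit 1) (nat_lit 5) (.e false (nat_lit 216) (nat_lit 26) (nat_lit 1) (nat_lit 5) (.e false (nat_lit 216) (nat_lit 25)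 (nat_lit 1) (nat_lit 5) .nil))))))))))))) .leaf) (nat_lit 8198) (nat_lit 71) (.p (nat_lit 57) (nat_lit 216) .z) .df .leaf)))) (nat_lit 9217) (nat_lit 16) (.p (nat_lit 19) (nat_lit 216) .z) .df (.nd (.nd (.nd (.nd (.nd .leaf (nat_lit 9218) (nat_lit 21) (.p (nat_lit 22) (nat_lit 216) .z) .df .leaf) (nat_lit 9221) (nat_lit 54) (.n (nat_lit 38) (nat_lit 216) (.p (nat_lit 40) (nat_lit 216) (.p (nat_lit 41) (nat_lit 216) (.p (nat_lit 43) (nat_lit 216) (.n (nat_lit 44) (nat_lit 216) (.p (nat_lit 45) (nat_lit 216) .z)))))) (.ct dA4s_c290 (nat_lit 216) (nat_lit 1) (.s true (nat_lit 1) (nat_lit 4) (nat_lit 1) (nat_lit 1) (nat_lit 2) true (nat_lit 1) true (nat_lit 4) true (nat_lit 2) true (nat_lit 5) true (nat_lit 5) (.e true (nat_lit 216) (nat_lit 19) (nat_lit 2) (nat_lit 4) (.e false (nat_lit 216) (nat_lit 21) (nat_lit 1) (nat_lit 5) (.e false (nat_lit 216) (nat_lit 22) (nat_lit 1) (nat_lit 5) (.e true (nat_lit 216) (nat_lit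 25) (nat_lit 1) (nat_lit 5) (.e false (nat_lit 216) (nat_lit 26) (nat_lit 1) (nat_lit 5) (.e false (nat_lit 216) (nat_lit 24) (nat_lit 1) (nat_lit 5) .nil)))))))) (.nd .leaf (nat_lit 9222) (nat_lit 73) (.p (nat_lit 48) (nat_lit 432) (.p (nat_lit 49) (nat_lit 648) (.n (nat_lit 50) (nat_lit 216) (.p (nat_lit 51) (nat_lit 216) (.n (nat_lit 52) (nat_lit 216) (.p (nat_lit 53) (nat_lit 216) (.n (nat_lit 55) (nat_lit 216) (.n (nat_lit 57) (nat_lit 216) .z)))))))) (.ct dA4s_c275 (nat_lit 216) (nat_lit 0) (.s false (nat_lit 1) (nat_lit 4) (nat_lit 2) (nat_lit 1) (nat_lit 2) true (nat_lit 0) true (nat_lit 4) true (nat_lit 2) true (nat_lit 4) true (nat_lit 5) (.s true (nat_lit 1) (nat_lit 4) (nat_lit 2) (nat_lit 2) (nat_lit 1) true (nat_lit 1) true (nat_lit 5) true (nat_lit 2) true (nat_lit 4) true (nat_lit 4) (.s true (nat_lit 1) (nat_lit 5) (nat_lit 0) (nat_lit 2) (nat_lit 2) true (nat_lit 2) true (nat_lit 4) true (nat_lit 1)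 true (nat_lit 6) true (nat_lit 4) (.s false (nat_lit 1) (nat_lit 6) (nat_lit 0) (nat_lit 1) (nat_lit 2) true (nat_lit 2) true (nat_lit 4) true (nat_lit 0) true (nat_lit 6) true (nat_lit 5) (.e false (nat_lit 216) (nat_lit 24) (nat_lit 2) (nat_lit 4) (.e false (nat_lit 432) (nat_lit 21) (nat_lit 2) (nat_lit 4) (.e false (nat_lit 648) (nat_lit 22) (nat_lit 2) (nat_lit 4) (.e true (nat_lit 216) (nat_lit 25) (nat_lit 2) (nat_lit 4) (.e false (nat_lit 216) (nat_lit 26) (nat_lit 2) (nat_lit 4) (.e true (nat_lit 216) (nat_lit 23) (nat_lit 2) (nat_lit 4) (.e true (nat_lit 216) (nat_lit 8) (nat_lit 6) (nat_lit 0) (.e true (nat_lit 216) (nat_lit 32) (nat_lit 1) (nat_lit 5) .nil))))))))))))) .leaf)) (nat_lit 10241) (nat_lit 17) (.p (nat_lit 20) (nat_lit 216) .z) .df (.nd (.nd .leaf (nat_lit 10242) (nat_lit 22) (.p (nat_lit 23) (nat_lit 216) .z) .df .leaf) (nat_lit 10245) (nat_lit 58) (.p (nat_lit 37) (nat_lit 216) (.p (nat_lit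 39) (nat_lit 216) (.n (nat_lit 40) (nat_lit 216) (.n (nat_lit 41) (nat_lit 216) (.n (nat_lit 43) (nat_lit 216) (.p (nat_lit 44) (nat_lit 216) (.n (nat_lit 46) (nat_lit 216) .z))))))) (.ct dA4s_c290 (nat_lit 216) (nat_lit 1) (.s false (nat_lit 1) (nat_lit 5) (nat_lit 2) (nat_lit 0) (nat_lit 1) true (nat_lit 1) true (nat_lit 5) true (nat_lit 1) true (nat_lit 4) true (nat_lit 6) (.e false (nat_lit 216) (nat_lit 26) (nat_lit 1) (nat_lit 5) (.e true (nat_lit 216) (nat_lit 9) (nat_lit 5) (nat_lit 1) (.e false (nat_lit 216) (nat_lit 17) (nat_lit 2) (nat_lit 4) (.e true (nat_lit 216) (nat_lit 19) (nat_lit 2) (nat_lit 4) (.e false (nat_lit 216) (nat_lit 20) (nat_lit 2) (nat_lit 4) (.e true (nat_lit 216) (nat_lit 27) (nat_lit 0) (nat_lit 6) .nil)))))))) .leaf)) (nat_lit 10246) (nat_lit 75) (.n (nat_lit 49) (nat_lit 216) (.p (nat_lit 50) (nat_lit 216) (.n (nat_lit 51) (nat_lit 216) (.n (nat_lit 52) (nat_lit 216) (.p (nat_lit 53)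 (nat_lit 216) (.p (nat_lit 54) (nat_lit 216) (.p (nat_lit 55) (nat_lit 216) (.p (nat_lit 56) (nat_lit 216) (.p (nat_lit 57) (nat_lit 216) .z))))))))) (.ct dA4s_c275 (nat_lit 216) (nat_lit 0) (.s true (nat_lit 1) (nat_lit 4) (nat_lit 1) (nat_lit 2) (nat_lit 2) true (nat_lit 1) true (nat_lit 4) true (nat_lit 2) true (nat_lit 5) true (nat_lit 4) (.s false (nat_lit 1) (nat_lit 5) (nat_lit 2) (nat_lit 0) (nat_lit 2) true (nat_lit 0) true (nat_lit 4) true (nat_lit 1) true (nat_lit 4) true (nat_lit 6) (.s true (nat_lit 1) (nat_lit 5) (nat_lit 2) (nat_lit 2) (nat_lit 0) true (nat_lit 2) true (nat_lit 6) true (nat_lit 1) true (nat_lit 4) true (nat_lit 4) (.s true (nat_lit 1) (nat_lit 6) (nat_lit 2) (nat_lit 0) (nat_lit 1) true (nat_lit 1) true (nat_lit 5) true (nat_lit 0) true (nat_lit 4) true (nat_lit 6) (.e false (nat_lit 432) (nat_lit 22) (nat_lit 2) (nat_lit 4) (.e false (nat_lit 216) (nat_lit 31) (nat_lit 1) (nat_lit 5)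 (.e false (nat_lit 432) (nat_lit 26) (nat_lit 2) (nat_lit 4) (.e false (nat_lit 432) (nat_lit 21) (nat_lit 2) (nat_lit 4) (.e true (nat_lit 432) (nat_lit 25) (nat_lit 2) (nat_lit 4) (.e true (nat_lit 216) (nat_lit 9) (nat_lit 6) (nat_lit 0) (.e false (nat_lit 216) (nat_lit 34) (nat_lit 0) (nat_lit 6) .nil)))))))))))) (.nd (.nd (.nd .leaf (nat_lit 11264) (nat_lit 18) (.p (nat_lit 17) (nat_lit 216) (.n (nat_lit 18) (nat_lit 216) (.p (nat_lit 20) (nat_lit 216) .z))) (.ct dA4s_c289 (nat_lit 216) (nat_lit 3) (.s false (nat_lit 1) (nat_lit 2) (nat_lit 1) (nat_lit 0) (nat_lit 1) false (nat_lit 4) true (nat_lit 2) true (nat_lit 1) true (nat_lit 2) true (nat_lit 3) (.e false (nat_lit 216) (nat_lit 10) (nat_lit 1) (nat_lit 2) (.e false (nat_lit 216) (nat_lit 7) (nat_lit 2) (nat_lit 1) (.e true (nat_lit 216) (nat_lit 8) (nat_lit 1) (nat_lit 2) .nil))))) .leaf) (nat_lit 11266) (nat_lit 29) (.p (nat_lit 27) (nat_lit 216) .z) .df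 .leaf) (nat_lit 11268) (nat_lit 61) (.p (nat_lit 38) (nat_lit 216) (.n (nat_lit 40) (nat_lit 216) (.n (nat_lit 41) (nat_lit 432) (.p (nat_lit 44) (nat_lit 216) (.n (nat_lit 45) (nat_lit 216) .z))))) (.ct dA4s_c290 (nat_lit 216) (nat_lit 2) (.s false (nat_lit 1) (nat_lit 4) (nat_lit 2) (nat_lit 1) (nat_lit 1) true (nat_lit 1) true (nat_lit 5) true (nat_lit 2) true (nat_lit 4) true (nat_lit 5) (.e true (nat_lit 216) (nat_lit 9) (nat_lit 5) (nat_lit 1) (.e false (nat_lit 216) (nat_lit 24) (nat_lit 1) (nat_lit 5) (.e true (nat_lit 216) (nat_lit 22) (nat_lit 1) (nat_lit 5) .nil))))) (.nd (.nd .leaf (nat_lit 11270) (nat_lit 87) (.n (nat_lit 60) (nat_lit 216) (.p (nat_lit 62) (nat_lit 432) (.p (nat_lit 63) (nat_lit 216) .z))) (.ct dA4s_c35 (nat_lit 216) (nat_lit 0) (.s false (nat_lit 1) (nat_lit 6) (nat_lit 1) (nat_lit 2) (nat_lit 1) false (nat_lit 4) true (nat_lit 3) true (nat_lit 0) true (nat_lit 3) true (nat_lit 2) (.e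 false (nat_lit 432) (nat_lit 34) (nat_lit 1) (nat_lit 3) (.e false (nat_lit 216) (nat_lit 35) (nat_lit 1) (nat_lit 3) (.e true (nat_lit 216) (nat_lit 29) (nat_lit 2) (nat_lit 2) .nil))))) .leaf) (nat_lit 12289) (nat_lit 23) (.p (nat_lit 24) (nat_lit 216) .z) .df .leaf))) (nat_lit 12290) (nat_lit 33) (.p (nat_lit 30) (nat_lit 216) .z) .df (.nd (.nd (.nd (.nd .leaf (nat_lit 12293) (nat_lit 72) (.p (nat_lit 58) (nat_lit 216) .z) .df .leaf) (nat_lit 12294) (nat_lit 95) (.p (nat_lit 65) (nat_lit 216) (.n (nat_lit 67) (nat_lit 216) .z)) (.ct dA4s_c260 (nat_lit 432) (nat_lit 0) (.s true (nat_lit 1) (nat_lit 4) (nat_lit 2) (nat_lit 2) (nat_lit 2) true (nat_lit 0) true (nat_lit 2) true (nat_lit 1) true (nat_lit 2) true (nat_lit 2) (.s true (nat_lit 1) (nat_lit 6) (nat_lit 2) (nat_lit 0) (nat_lit 2) true (nat_lit 0) true (nat_lit 2) true (nat_lit 0) true (nat_lit 2) true (nat_lit 3) (.s true (nat_lit 1) (nat_lit 6) (nat_lit 2)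 (nat_lit 2) (nat_lit 0) true (nat_lit 1) true (nat_lit 3) true (nat_lit 0) true (nat_lit 2) true (nat_lit 2) (.e false (nat_lit 432) (nat_lit 31) (nat_lit 2) (nat_lit 2) (.e true (nat_lit 432) (nat_lit 36) (nat_lit 0) (nat_lit 3) .nil)))))) (.nd .leaf (nat_lit 12299) (nat_lit 157) (.p (nat_lit 76) (nat_lit 216) (.n (nat_lit 83) (nat_lit 216) (.p (nat_lit 89) (nat_lit 216) .z))) (.ct dA4s_c291 (nat_lit 216) (nat_lit 0) (.s true (nat_lit 1) (nat_lit 12) (nat_lit 1) (nat_lit 2) (nat_lit 1) false (nat_lit 10) true (nat_lit 8) false (nat_lit 0) true (nat_lit 8) true (nat_lit 7) (.e true (nat_lit 216) (nat_lit 51) (nat_lit 1) (nat_lit 8) (.e false (nat_lit 216) (nat_lit 58) (nat_lit 1) (nat_lit 8) (.e false (nat_lit 216) (nat_lit 43) (nat_lit 2) (nat_lit 7) .nil))))) .leaf)) (nat_lit 13313) (nat_lit 24) (.p (nat_lit 25) (nat_lit 216) .z) .df (.nd (.nd .leaf (nat_lit 13314) (nat_lit 34) (.p (nat_lit 31) (nat_lit 216) .z) .df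 .leaf) (nat_lit 13317) (nat_lit 77) (.p (nat_lit 48) (nat_lit 432) (.p (nat_lit 49) (nat_lit 432) (.n (nat_lit 52) (nat_lit 216) (.p (nat_lit 53) (nat_lit 432) (.n (nat_lit 56) (nat_lit 216) (.n (nat_lit 57) (nat_lit 216) .z)))))) (.ct dA4s_c275 (nat_lit 216) (nat_lit 1) (.s false (nat_lit 1) (nat_lit 6) (nat_lit 2) (nat_lit 0) (nat_lit 1) true (nat_lit 1) true (nat_lit 5) true (nat_lit 0) true (nat_lit 4) true (nat_lit 6) (.e false (nat_lit 216) (nat_lit 32) (nat_lit 1) (nat_lit 5) (.e false (nat_lit 216) (nat_lit 9) (nat_lit 6) (nat_lit 0) (.e true (nat_lit 216) (nat_lit 22) (nat_lit 2) (nat_lit 4) (.e false (nat_lit 216) (nat_lit 23) (nat_lit 2) (nat_lit 4) (.e true (nat_lit 216) (nat_lit 24) (nat_lit 2) (nat_lit 4) (.e false (nat_lit 216) (nat_lit 26) (nat_lit 2) (nat_lit 4) (.e true (nat_lit 216) (nat_lit 34) (nat_lit 0) (nat_lit 6) .nil))))))))) .leaf)) (nat_lit 13318) (nat_lit 96) (.p (nat_lit 65) (nat_lit 432)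 (.p (nat_lit 66) (nat_lit 432) .z)) (.ct dA4s_c260 (nat_lit 216) (nat_lit 0) (.s false (nat_lit 1) (nat_lit 6) (nat_lit 2) (nat_lit 0) (nat_lit 2) true (nat_lit 0) true (nat_lit 2) true (nat_lit 0) true (nat_lit 2) true (nat_lit 3) (.e false (nat_lit 432) (nat_lit 32) (nat_lit 2) (nat_lit 2) (.e false (nat_lit 216) (nat_lit 12) (nat_lit 6) (nat_lit 0) (.e false (nat_lit 216) (nat_lit 31) (nat_lit 2) (nat_lit 2) (.e false (nat_lit 216) (nat_lit 36) (nat_lit 0) (nat_lit 3) .nil)))))) (.nd (.nd (.nd .leaf (nat_lit 13323) (nat_lit 158) (.p (nat_lit 74) (nat_lit 432) (.p (nat_lit 77) (nat_lit 216) (.n (nat_lit 83) (nat_lit 432) (.n (nat_lit 87) (nat_lit 216) (.n (nat_lit 88) (nat_lit 216) (.p (nat_lit 93) (nat_lit 432) .z)))))) (.ct dA4s_c291 (nat_lit 216) (nat_lit 0) (.s false (nat_lit 1) (nat_lit 13) (nat_lit 2) (nat_lit 1) (nat_lit 1) true (nat_lit 4) true (nat_lit 8) false (nat_lit 0) true (nat_lit 7) true (nat_lit 8)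 (.e true (nat_lit 216) (nat_lit 25) (nat_lit 5) (nat_lit 4) (.e false (nat_lit 216) (nat_lit 54) (nat_lit 1) (nat_lit 8) (.e true (nat_lit 216) (nat_lit 52) (nat_lit 1) (nat_lit 8) .nil))))) .leaf) (nat_lit 14336) (nat_lit 25) (.p (nat_lit 26) (nat_lit 216) .z) .df .leaf) (nat_lit 14337) (nat_lit 30) (.p (nat_lit 28) (nat_lit 216) .z) .df (.nd (.nd .leaf (nat_lit 14338) (nat_lit 37) (.p (nat_lit 33) (nat_lit 216) .z) .df .leaf) (nat_lit 14339) (nat_lit 57) (.p (nat_lit 37) (nat_lit 216) (.n (nat_lit 43) (nat_lit 216) (.p (nat_lit 45) (nat_lit 216) .z))) (.ct dA4s_c290 (nat_lit 216) (nat_lit 3) (.s false (nat_lit 1) (nat_lit 3) (nat_lit 1) (nat_lit 2) (nat_lit 2) true (nat_lit 1) true (nat_lit 4) true (nat_lit 3) true (nat_lit 5) true (nat_lit 4) (.e false (nat_lit 216) (nat_lit 8) (nat_lit 5) (nat_lit 1) (.e false (nat_lit 216) (nat_lit 17) (nat_lit 2) (nat_lit 4) (.e true (nat_lit 216) (nat_lit 22) (nat_lit 1) (nat_lit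 5) (.e false (nat_lit 216) (nat_lit 23) (nat_lit 1) (nat_lit 5) (.e true (nat_lit 216) (nat_lit 24) (nat_lit 1) (nat_lit 5) (.e false (nat_lit 216) (nat_lit 26) (nat_lit 1) (nat_lit 5) (.e false (nat_lit 216) (nat_lit 18) (nat_lit 2) (nat_lit 4) .nil))))))))) .leaf))))) (nat_lit 14340) (nat_lit 76) (.p (nat_lit 49) (nat_lit 216) (.p (nat_lit 51) (nat_lit 216) (.n (nat_lit 54) (nat_lit 216) (.n (nat_lit 55) (nat_lit 216) (.p (nat_lit 58) (nat_lit 216) .z))))) (.ct dA4s_c275 (nat_lit 216) (nat_lit 2) (.s false (nat_lit 1) (nat_lit 4) (nat_lit 1) (nat_lit 2) (nat_lit 2) true (nat_lit 1) true (nat_lit 4) true (nat_lit 2) true (nat_lit 5) true (nat_lit 4) (.e false (nat_lit 216) (nat_lit 12) (nat_lit 5) (nat_lit 1) (.e false (nat_lit 216) (nat_lit 22) (nat_lit 2) (nat_lit 4) (.e true (nat_lit 216) (nat_lit 31) (nat_lit 1) (nat_lit 5) (.e true (nat_lit 216) (nat_lit 32) (nat_lit 1) (nat_lit 5) (.e false (nat_lit 216) (nat_lit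 24) (nat_lit 2) (nat_lit 4) .nil))))))) (.nd (.nd (.nd (.nd (.nd (.nd .leaf (nat_lit 14341) (nat_lit 90) (.p (nat_lit 59) (nat_lit 216) (.n (nat_lit 61) (nat_lit 216) (.n (nat_lit 63) (nat_lit 216) .z))) (.ct dA4s_c35 (nat_lit 216) (nat_lit 1) (.s true (nat_lit 1) (nat_lit 5) (nat_lit 2) (nat_lit 1) (nat_lit 2) true (nat_lit 0) true (nat_lit 2) true (nat_lit 1) true (nat_lit 2) true (nat_lit 3) (.e false (nat_lit 216) (nat_lit 11) (nat_lit 6) (nat_lit 0) (.e true (nat_lit 432) (nat_lit 28) (nat_lit 2) (nat_lit 2) (.e true (nat_lit 216) (nat_lit 27) (nat_lit 2) (nat_lit 2) (.e false (nat_lit 216) (nat_lit 29) (nat_lit 2) (nat_lit 2) (.e true (nat_lit 216) (nat_lit 33) (nat_lit 1) (nat_lit 3) .nil))))))) .leaf) (nat_lit 14342) (nat_lit 102) (.p (nat_lit 69) (nat_lit 216) (.n (nat_lit 71) (nat_lit 216) .z)) (.ct dA4s_c20 (nat_lit 432) (nat_lit 0) (.s true (nat_lit 1) (nat_lit 5) (nat_lit 2) (nat_lit 2) (nat_lit 2) true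 (nat_lit 0) true (nat_lit 2) true (nat_lit 1) true (nat_lit 2) true (nat_lit 2) (.s true (nat_lit 1) (nat_lit 6) (nat_lit 2) (nat_lit 1) (nat_lit 2) true (nat_lit 0) true (nat_lit 2) true (nat_lit 0) true (nat_lit 2) true (nat_lit 3) (.s true (nat_lit 1) (nat_lit 6) (nat_lit 2) (nat_lit 2) (nat_lit 1) true (nat_lit 1) true (nat_lit 3) true (nat_lit 0) true (nat_lit 2) true (nat_lit 2) (.e false (nat_lit 432) (nat_lit 34) (nat_lit 2) (nat_lit 2) (.e true (nat_lit 432) (nat_lit 36) (nat_lit 1) (nat_lit 3) .nil)))))) (.nd .leaf (nat_lit 14344) (nat_lit 150) (.n (nat_lit 73) (nat_lit 432) (.p (nat_lit 74) (nat_lit 108) (.n (nat_lit 75) (nat_lit 108) (.p (nat_lit 76) (nat_lit 324) (.n (nat_lit 78) (nat_lit 324) (.n (nat_lit 80) (nat_lit 216) (.p (nat_lit 81) (nat_lit 1188) (.n (nat_lit 82) (nat_lit 324) (.p (nat_lit 83) (nat_lit 1188) (.n (nat_lit 84) (nat_lit 324) (.n (nat_lit 85) (nat_lit 432) (.n (nat_lit 86) (nat_lit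 324) (.n (nat_lit 87) (nat_lit 432) (.n (nat_lit 88) (nat_lit 756) (.n (nat_lit 90) (nat_lit 540) (.p (nat_lit 91) (nat_lit 108) (.n (nat_lit 92) (nat_lit 108) .z))))))))))))))))) (.ct dA4s_c291 (nat_lit 216) (nat_lit 1) (.s false (nat_lit 1) (nat_lit 5) (nat_lit 3) (nat_lit 2) (nat_lit 2) true (nat_lit 1) true (nat_lit 7) true (nat_lit 4) true (nat_lit 6) true (nat_lit 7) (.e false (nat_lit 432) (nat_lit 37) (nat_lit 2) (nat_lit 7) (.e true (nat_lit 216) (nat_lit 38) (nat_lit 2) (nat_lit 7) (.e false (nat_lit 216) (nat_lit 39) (nat_lit 2) (nat_lit 7) (.e false (nat_lit 216) (nat_lit 21) (nat_lit 5) (nat_lit 4) (.e true (nat_lit 216) (nat_lit 34) (nat_lit 3) (nat_lit 6) (.e true (nat_lit 216) (nat_lit 35) (nat_lit 3) (nat_lit 6) (.e true (nat_lit 216) (nat_lit 43) (nat_lit 2) (nat_lit 7) (.e false (nat_lit 216) (nat_lit 45) (nat_lit 2) (nat_lit 7) .nil)))))))))) .leaf)) (nat_lit 14345) (nat_lit 151) (.p (nat_lit 73)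 (nat_lit 108) (.p (nat_lit 76) (nat_lit 108) (.n (nat_lit 77) (nat_lit 108) (.p (nat_lit 78) (nat_lit 108) (.n (nat_lit 80) (nat_lit 108) (.n (nat_lit 81) (nat_lit 324) (.p (nat_lit 82) (nat_lit 108) (.p (nat_lit 86) (nat_lit 108) (.p (nat_lit 88) (nat_lit 108) (.p (nat_lit 91) (nat_lit 108) .z)))))))))) (.ct dA4s_c291 (nat_lit 216) (nat_lit 1) (.s true (nat_lit 1) (nat_lit 9) (nat_lit 2) (nat_lit 1) (nat_lit 2) true (nat_lit 3) true (nat_lit 7) true (nat_lit 1) true (nat_lit 7) true (nat_lit 8) (.e false (nat_lit 216) (nat_lit 19) (nat_lit 6) (nat_lit 3) (.e true (nat_lit 216) (nat_lit 38) (nat_lit 2) (nat_lit 7) (.e false (nat_lit 216) (nat_lit 40) (nat_lit 2) (nat_lit 7) (.e false (nat_lit 216) (nat_lit 43) (nat_lit 2) (nat_lit 7) (.e true (nat_lit 216) (nat_lit 44) (nat_lit 2) (nat_lit 7) (.e false (nat_lit 216) (nat_lit 45) (nat_lit 2) (nat_lit 7) (.e true (nat_lit 216) (nat_lit 49) (nat_lit 1) (nat_lit 8) .nil)))))))))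 (.nd (.nd .leaf (nat_lit 14346) (nat_lit 144) (.n (nat_lit 73) (nat_lit 648) (.p (nat_lit 74) (nat_lit 1188) (.n (nat_lit 75) (nat_lit 540) (.p (nat_lit 76) (nat_lit 324) (.n (nat_lit 77) (nat_lit 108) (.n (nat_lit 78) (nat_lit 108) (.n (nat_lit 80) (nat_lit 216) (.p (nat_lit 81) (nat_lit 2484) (.n (nat_lit 82) (nat_lit 972) (.p (nat_lit 83) (nat_lit 2052) (.n (nat_lit 84) (nat_lit 108) (.n (nat_lit 85) (nat_lit 972) (.n (nat_lit 86) (nat_lit 540) (.n (nat_lit 87) (nat_lit 1188) (.n (nat_lit 88) (nat_lit 1512) (.n (nat_lit 89) (nat_lit 432) (.n (nat_lit 90) (nat_lit 864) (.p (nat_lit 92) (nat_lit 108) (.p (nat_lit 93) (nat_lit 648) .z))))))))))))))))))) (.ct dA4s_c291 (nat_lit 216) (nat_lit 1) (.s true (nat_lit 1) (nat_lit 10) (nat_lit 2) (nat_lit 1) (nat_lit 2) true (nat_lit 3) true (nat_lit 7) true (nat_lit 1) true (nat_lit 7) true (nat_lit 8) (.e false (nat_lit 216) (nat_lit 20) (nat_lit 6) (nat_lit 3) (.e true (nat_lit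 216) (nat_lit 42) (nat_lit 2) (nat_lit 7) (.e false (nat_lit 216) (nat_lit 37) (nat_lit 2) (nat_lit 7) (.e false (nat_lit 216) (nat_lit 39) (nat_lit 2) (nat_lit 7) (.e true (nat_lit 216) (nat_lit 40) (nat_lit 2) (nat_lit 7) (.e true (nat_lit 216) (nat_lit 41) (nat_lit 2) (nat_lit 7) (.e true (nat_lit 216) (nat_lit 43) (nat_lit 2) (nat_lit 7) (.e false (nat_lit 216) (nat_lit 44) (nat_lit 2) (nat_lit 7) (.e true (nat_lit 216) (nat_lit 46) (nat_lit 2) (nat_lit 7) (.e true (nat_lit 216) (nat_lit 50) (nat_lit 1) (nat_lit 8) .nil)))))))))))) .leaf) (nat_lit 14348) (nat_lit 190) (.p (nat_lit 94) (nat_lit 324) (.n (nat_lit 95) (nat_lit 108) (.p (nat_lit 96) (nat_lit 216) (.n (nat_lit 97) (nat_lit 432) (.n (nat_lit 98) (nat_lit 324) (.p (nat_lit 99) (nat_lit 540) (.p (nat_lit 100) (nat_lit 54) (.p (nat_lit 101) (nat_lit 270) (.n (nat_lit 102) (nat_lit 54) (.p (nat_lit 103) (nat_lit 216) (.n (nat_lit 104) (nat_lit 162) (.p (nat_lit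 105) (nat_lit 54) (.p (nat_lit 106) (nat_lit 54) (.p (nat_lit 107) (nat_lit 162) (.p (nat_lit 108) (nat_lit 216) (.p (nat_lit 109) (nat_lit 162) .z)))))))))))))))) (.ct dA4s_c276 (nat_lit 216) (nat_lit 0) (.s false (nat_lit 1) (nat_lit 12) (nat_lit 1) (nat_lit 2) (nat_lit 2) true (nat_lit 3) true (nat_lit 6) true (nat_lit 0) true (nat_lit 7) true (nat_lit 6) (.e false (nat_lit 216) (nat_lit 30) (nat_lit 5) (nat_lit 3) (.e true (nat_lit 216) (nat_lit 65) (nat_lit 1) (nat_lit 7) (.e false (nat_lit 216) (nat_lit 67) (nat_lit 1) (nat_lit 7) (.e false (nat_lit 216) (nat_lit 48) (nat_lit 2) (nat_lit 6) (.e false (nat_lit 216) (nat_lit 49) (nat_lit 2) (nat_lit 6) (.e true (nat_lit 216) (nat_lit 50) (nat_lit 2) (nat_lit 6) (.e false (nat_lit 216) (nat_lit 54) (nat_lit 2) (nat_lit 6) (.e true (nat_lit 216) (nat_lit 57) (nat_lit 2) (nat_lit 6) (.e true (nat_lit 216) (nat_lit 58) (nat_lit 2) (nat_lit 6) .nil))))))))))) .leaf))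 (nat_lit 14349) (nat_lit 192) (.p (nat_lit 94) (nat_lit 432) (.p (nat_lit 95) (nat_lit 432) (.n (nat_lit 98) (nat_lit 216) (.p (nat_lit 99) (nat_lit 432) (.n (nat_lit 100) (nat_lit 216) (.n (nat_lit 102) (nat_lit 216) (.n (nat_lit 103) (nat_lit 216) (.n (nat_lit 104) (nat_lit 216) (.p (nat_lit 107) (nat_lit 216) .z))))))))) (.ct dA4s_c276 (nat_lit 216) (nat_lit 0) (.s false (nat_lit 1) (nat_lit 13) (nat_lit 1) (nat_lit 2) (nat_lit 2) true (nat_lit 3) true (nat_lit 6) true (nat_lit 0) true (nat_lit 7) true (nat_lit 6) (.e false (nat_lit 216) (nat_lit 31) (nat_lit 5) (nat_lit 3) (.e false (nat_lit 216) (nat_lit 52) (nat_lit 2) (nat_lit 6) (.e true (nat_lit 432) (nat_lit 65) (nat_lit 1) (nat_lit 7) (.e true (nat_lit 432) (nat_lit 66) (nat_lit 1) (nat_lit 7) (.e false (nat_lit 216) (nat_lit 54) (nat_lit 2) (nat_lit 6) .nil))))))) (.nd (.nd (.nd .leaf (nat_lit 15360) (nat_lit 27) (.n (nat_lit 21) (nat_lit 432) (.n (nat_lit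 22) (nat_lit 216) (.p (nat_lit 23) (nat_lit 216) (.p (nat_lit 24) (nat_lit 216) (.p (nat_lit 25) (nat_lit 216) (.n (nat_lit 26) (nat_lit 216) .z)))))) (.ct dA4s_c274 (nat_lit 216) (nat_lit 4) (.s false (nat_lit 1) (nat_lit 2) (nat_lit 1) (nat_lit 0) (nat_lit 2) false (nat_lit 0) true (nat_lit 2) true (nat_lit 2) true (nat_lit 3) true (nat_lit 4) (.e false (nat_lit 216) (nat_lit 5) (nat_lit 4) (nat_lit 0) (.e false (nat_lit 216) (nat_lit 10) (nat_lit 2) (nat_lit 2) (.e true (nat_lit 216) (nat_lit 8) (nat_lit 2) (nat_lit 2) (.e false (nat_lit 216) (nat_lit 12) (nat_lit 1) (nat_lit 3) .nil)))))) .leaf) (nat_lit 15361) (nat_lit 31) (.p (nat_lit 29) (nat_lit 216) .z) .df (.nd .leaf (nat_lit 15362) (nat_lit 38) (.p (nat_lit 34) (nat_lit 216) .z) .df .leaf)) (nat_lit 15363) (nat_lit 60) (.p (nat_lit 41) (nat_lit 216) (.n (nat_lit 42) (nat_lit 216) (.p (nat_lit 43) (nat_lit 216) (.n (nat_lit 44) (nat_lit 216) (.n (nat_lit 45)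 (nat_lit 216) (.p (nat_lit 47) (nat_lit 216) .z)))))) (.ct dA4s_c290 (nat_lit 216) (nat_lit 3) (.s true (nat_lit 1) (nat_lit 3) (nat_lit 2) (nat_lit 2) (nat_lit 1) true (nat_lit 1) true (nat_lit 5) true (nat_lit 3) true (nat_lit 4) true (nat_lit 4) (.e true (nat_lit 216) (nat_lit 8) (nat_lit 5) (nat_lit 1) (.e true (nat_lit 216) (nat_lit 21) (nat_lit 1) (nat_lit 5) (.e false (nat_lit 432) (nat_lit 17) (nat_lit 2) (nat_lit 4) (.e true (nat_lit 216) (nat_lit 19) (nat_lit 2) (nat_lit 4) (.e false (nat_lit 216) (nat_lit 20) (nat_lit 2) (nat_lit 4) .nil))))))) (.nd (.nd .leaf (nat_lit 15364) (nat_lit 78) (.p (nat_lit 49) (nat_lit 216) (.p (nat_lit 50) (nat_lit 216) (.p (nat_lit 51) (nat_lit 216) (.n (nat_lit 52) (nat_lit 216) (.p (nat_lit 53) (nat_lit 216) (.n (nat_lit 54) (nat_lit 216) (.p (nat_lit 57) (nat_lit 216) .z))))))) (.ct dA4s_c275 (nat_lit 216) (nat_lit 2) (.s true (nat_lit 1) (nat_lit 6) (nat_lit 0) (nat_lit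 1) (nat_lit 2) true (nat_lit 2) true (nat_lit 4) true (nat_lit 0) true (nat_lit 6) true (nat_lit 5) (.e true (nat_lit 216) (nat_lit 25) (nat_lit 2) (nat_lit 4) (.e false (nat_lit 216) (nat_lit 8) (nat_lit 6) (nat_lit 0) (.e false (nat_lit 216) (nat_lit 34) (nat_lit 0) (nat_lit 6) (.e false (nat_lit 216) (nat_lit 35) (nat_lit 0) (nat_lit 6) (.e false (nat_lit 216) (nat_lit 32) (nat_lit 1) (nat_lit 5) .nil))))))) .leaf) (nat_lit 15365) (nat_lit 88) (.n (nat_lit 60) (nat_lit 216) (.p (nat_lit 62) (nat_lit 216) (.p (nat_lit 63) (nat_lit 432) .z))) (.ct dA4s_c35 (nat_lit 216) (nat_lit 1) (.s true (nat_lit 1) (nat_lit 6) (nat_lit 1) (nat_lit 1) (nat_lit 2) true (nat_lit 1) true (nat_lit 2) true (nat_lit 0) true (nat_lit 3) true (nat_lit 3) (.e true (nat_lit 216) (nat_lit 29) (nat_lit 2) (nat_lit 2) (.e false (nat_lit 216) (nat_lit 34) (nat_lit 1) (nat_lit 3) (.e false (nat_lit 432) (nat_lit 35) (nat_lit 1) (nat_lit 3) .nil)))))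 .leaf))) (nat_lit 15366) (nat_lit 103) (.p (nat_lit 69) (nat_lit 432) (.p (nat_lit 70) (nat_lit 432) .z)) (.ct dA4s_c20 (nat_lit 216) (nat_lit 0) (.s false (nat_lit 1) (nat_lit 6) (nat_lit 2) (nat_lit 1) (nat_lit 2) true (nat_lit 0) true (nat_lit 2) true (nat_lit 0) true (nat_lit 2) true (nat_lit 3) (.e false (nat_lit 432) (nat_lit 35) (nat_lit 2) (nat_lit 2) (.e false (nat_lit 216) (nat_lit 14) (nat_lit 6) (nat_lit 0) (.e false (nat_lit 216) (nat_lit 34) (nat_lit 2) (nat_lit 2) (.e false (nat_lit 216) (nat_lit 36) (nat_lit 1) (nat_lit 3) .nil)))))) (.nd (.nd (.nd (.nd .leaf (nat_lit 15368) (nat_lit 149) (.p (nat_lit 81) (nat_lit 432) (.p (nat_lit 83) (nat_lit 432) (.n (nat_lit 85) (nat_lit 216) (.n (nat_lit 87) (nat_lit 216) (.n (nat_lit 88) (nat_lit 432) (.n (nat_lit 90) (nat_lit 432) (.p (nat_lit 91) (nat_lit 216) (.n (nat_lit 92) (nat_lit 216) .z)))))))) (.ct dA4s_c291 (nat_lit 216) (nat_lit 1) (.s true (nat_lit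 1) (nat_lit 15) (nat_lit 0) (nat_lit 1) (nat_lit 2) true (nat_lit 5) true (nat_lit 7) false (nat_lit 1) true (nat_lit 9) true (nat_lit 8) (.e true (nat_lit 216) (nat_lit 29) (nat_lit 4) (nat_lit 5) (.e false (nat_lit 432) (nat_lit 40) (nat_lit 2) (nat_lit 7) (.e false (nat_lit 216) (nat_lit 41) (nat_lit 2) (nat_lit 7) (.e true (nat_lit 216) (nat_lit 42) (nat_lit 2) (nat_lit 7) (.e true (nat_lit 216) (nat_lit 43) (nat_lit 2) (nat_lit 7) (.e true (nat_lit 216) (nat_lit 44) (nat_lit 2) (nat_lit 7) (.e false (nat_lit 216) (nat_lit 45) (nat_lit 2) (nat_lit 7) (.e false (nat_lit 216) (nat_lit 60) (nat_lit 0) (nat_lit 9) (.e true (nat_lit 216) (nat_lit 62) (nat_lit 0) (nat_lit 9) (.e true (nat_lit 432) (nat_lit 63) (nat_lit 0) (nat_lit 9) (.e false (nat_lit 216) (nat_lit 56) (nat_lit 1) (nat_lit 8) .nil))))))))))))) .leaf) (nat_lit 15369) (nat_lit 152) (.n (nat_lit 74) (nat_lit 216) (.p (nat_lit 80) (nat_lit 216) (.n (nat_lit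 82) (nat_lit 216) (.n (nat_lit 86) (nat_lit 216) (.n (nat_lit 88) (nat_lit 216) (.p (nat_lit 91) (nat_lit 216) (.n (nat_lit 93) (nat_lit 216) .z))))))) (.ct dA4s_c291 (nat_lit 216) (nat_lit 1) (.s false (nat_lit 1) (nat_lit 6) (nat_lit 4) (nat_lit 1) (nat_lit 1) true (nat_lit 1) true (nat_lit 8) true (nat_lit 3) true (nat_lit 5) true (nat_lit 8) (.e true (nat_lit 216) (nat_lit 55) (nat_lit 1) (nat_lit 8) (.e false (nat_lit 216) (nat_lit 19) (nat_lit 6) (nat_lit 3) (.e true (nat_lit 216) (nat_lit 49) (nat_lit 1) (nat_lit 8) (.e true (nat_lit 216) (nat_lit 50) (nat_lit 1) (nat_lit 8) (.e true (nat_lit 216) (nat_lit 51) (nat_lit 1) (nat_lit 8) (.e false (nat_lit 216) (nat_lit 52) (nat_lit 1) (nat_lit 8) (.e true (nat_lit 216) (nat_lit 53) (nat_lit 1) (nat_lit 8) (.e true (nat_lit 216) (nat_lit 57) (nat_lit 1) (nat_lit 8) .nil)))))))))) (.nd .leaf (nat_lit 15370) (nat_lit 153) (.p (nat_lit 73) (nat_lit 216) (.n (nat_lit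 74) (nat_lit 216) (.n (nat_lit 76) (nat_lit 216) (.p (nat_lit 78) (nat_lit 216) (.n (nat_lit 81) (nat_lit 1080) (.n (nat_lit 83) (nat_lit 864) (.p (nat_lit 85) (nat_lit 432) (.p (nat_lit 86) (nat_lit 432) (.p (nat_lit 87) (nat_lit 432) (.p (nat_lit 88) (nat_lit 648) (.p (nat_lit 90) (nat_lit 216) (.p (nat_lit 92) (nat_lit 216) (.n (nat_lit 93) (nat_lit 216) .z))))))))))))) (.ct dA4s_c291 (nat_lit 216) (nat_lit 1) (.s true (nat_lit 1) (nat_lit 10) (nat_lit 2) (nat_lit 2) (nat_lit 1) true (nat_lit 4) true (nat_lit 8) true (nat_lit 1) true (nat_lit 7) true (nat_lit 7) (.e true (nat_lit 216) (nat_lit 23) (nat_lit 5) (nat_lit 4) (.e true (nat_lit 216) (nat_lit 50) (nat_lit 1) (nat_lit 8) (.e true (nat_lit 216) (nat_lit 37) (nat_lit 2) (nat_lit 7) (.e false (nat_lit 216) (nat_lit 40) (nat_lit 2) (nat_lit 7) (.e false (nat_lit 216) (nat_lit 41) (nat_lit 2) (nat_lit 7) (.e false (nat_lit 216) (nat_lit 43) (nat_lit 2) (nat_lit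 7) (.e true (nat_lit 216) (nat_lit 44) (nat_lit 2) (nat_lit 7) (.e false (nat_lit 216) (nat_lit 46) (nat_lit 2) (nat_lit 7) .nil)))))))))) .leaf)) (nat_lit 15372) (nat_lit 189) (.p (nat_lit 94) (nat_lit 864) (.p (nat_lit 95) (nat_lit 648) (.n (nat_lit 96) (nat_lit 216) (.n (nat_lit 97) (nat_lit 216) (.n (nat_lit 98) (nat_lit 648) (.p (nat_lit 99) (nat_lit 648) (.n (nat_lit 100) (nat_lit 216) (.n (nat_lit 102) (nat_lit 216) (.n (nat_lit 103) (nat_lit 216) (.p (nat_lit 105) (nat_lit 216) (.p (nat_lit 107) (nat_lit 216) .z))))))))))) (.ct dA4s_c276 (nat_lit 216) (nat_lit 0) (.s false (nat_lit 1) (nat_lit 6) (nat_lit 4) (nat_lit 1) (nat_lit 2) true (nat_lit 0) true (nat_lit 6) true (nat_lit 2) true (nat_lit 4) true (nat_lit 7) (.e true (nat_lit 216) (nat_lit 54) (nat_lit 2) (nat_lit 6) (.e true (nat_lit 216) (nat_lit 55) (nat_lit 2) (nat_lit 6) (.e false (nat_lit 216) (nat_lit 22) (nat_lit 6) (nat_lit 2) (.e false (nat_lit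 216) (nat_lit 34) (nat_lit 4) (nat_lit 4) (.e false (nat_lit 216) (nat_lit 35) (nat_lit 4) (nat_lit 4) (.e true (nat_lit 216) (nat_lit 66) (nat_lit 1) (nat_lit 7) (.e true (nat_lit 216) (nat_lit 67) (nat_lit 1) (nat_lit 7) .nil))))))))) (.nd (.nd .leaf (nat_lit 15373) (nat_lit 193) (.p (nat_lit 103) (nat_lit 432) (.p (nat_lit 105) (nat_lit 432) (.p (nat_lit 106) (nat_lit 432) (.n (nat_lit 107) (nat_lit 216) .z)))) (.ct dA4s_c276 (nat_lit 216) (nat_lit 0) (.s false (nat_lit 1) (nat_lit 6) (nat_lit 1) (nat_lit 0) (nat_lit 6) false (nat_lit 0) true (nat_lit 2) true (nat_lit 2) true (nat_lit 7) true (nat_lit 8) (.e true (nat_lit 432) (nat_lit 21) (nat_lit 6) (nat_lit 2) (.e false (nat_lit 432) (nat_lit 24) (nat_lit 6) (nat_lit 2) (.e false (nat_lit 216) (nat_lit 25) (nat_lit 6) (nat_lit 2) (.e true (nat_lit 432) (nat_lit 26) (nat_lit 6) (nat_lit 2) (.e true (nat_lit 432) (nat_lit 65) (nat_lit 1) (nat_lit 7) (.e true (nat_lit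 432) (nat_lit 66) (nat_lit 1) (nat_lit 7) .nil)))))))) .leaf) (nat_lit 15374) (nat_lit 209) (.n (nat_lit 111) (nat_lit 108) (.n (nat_lit 113) (nat_lit 648) (.n (nat_lit 114) (nat_lit 324) (.p (nat_lit 115) (nat_lit 108) .z)))) (.ct dA4s_c36 (nat_lit 216) (nat_lit 0) (.s false (nat_lit 1) (nat_lit 6) (nat_lit 1) (nat_lit 1) (nat_lit 6) true (nat_lit 0) true (nat_lit 2) true (nat_lit 2) true (nat_lit 5) true (nat_lit 5) (.s false (nat_lit 1) (nat_lit 15) (nat_lit 2) (nat_lit 1) (nat_lit 2) true (nat_lit 2) true (nat_lit 4) true (nat_lit 0) true (nat_lit 4) true (nat_lit 5) (.a false (nat_lit 23328) (nat_lit 15) (nat_lit 15) (nat_lit 0) (nat_lit 0) (.a false (nat_lit 46656) (nat_lit 14) (nat_lit 15) (nat_lit 0) (nat_lit 0) (.e true (nat_lit 216) (nat_lit 69) (nat_lit 1) (nat_lit 5) (.e true (nat_lit 432) (nat_lit 70) (nat_lit 1) (nat_lit 5) (.e false (nat_lit 216) (nat_lit 60) (nat_lit 2) (nat_lit 4) (.e true (nat_lit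 432) (nat_lit 63) (nat_lit 2) (nat_lit 4) .nil))))))))) .leaf)) (nat_lit 16384) (nat_lit 35) (.p (nat_lit 32) (nat_lit 216) .z) .df (.nd (.nd (.nd .leaf (nat_lit 16385) (nat_lit 39) (.p (nat_lit 35) (nat_lit 216) .z) .df .leaf) (nat_lit 16386) (nat_lit 41) (.p (nat_lit 36) (nat_lit 216) .z) .df .leaf) (nat_lit 16387) (nat_lit 79) (.p (nat_lit 49) (nat_lit 216) (.n (nat_lit 50) (nat_lit 216) (.p (nat_lit 51) (nat_lit 216) (.n (nat_lit 53) (nat_lit 216) (.n (nat_lit 57) (nat_lit 216) .z))))) (.ct dA4s_c275 (nat_lit 216) (nat_lit 3) (.s true (nat_lit 1) (nat_lit 3) (nat_lit 2) (nat_lit 2) (nat_lit 2) true (nat_lit 0) true (nat_lit 4) true (nat_lit 3) true (nat_lit 4) true (nat_lit 4) (.e true (nat_lit 216) (nat_lit 8) (nat_lit 6) (nat_lit 0) (.e false (nat_lit 216) (nat_lit 22) (nat_lit 2) (nat_lit 4) (.e true (nat_lit 216) (nat_lit 23) (nat_lit 2) (nat_lit 4) (.e false (nat_lit 216) (nat_lit 24) (nat_lit 2) (nat_lit 4)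 (.e true (nat_lit 216) (nat_lit 26) (nat_lit 2) (nat_lit 4) .nil))))))) (.nd (.nd .leaf (nat_lit 16388) (nat_lit 97) (.n (nat_lit 66) (nat_lit 216) (.n (nat_lit 67) (nat_lit 216) .z)) (.ct dA4s_c260 (nat_lit 216) (nat_lit 1) (.s false (nat_lit 1) (nat_lit 4) (nat_lit 2) (nat_lit 2) (nat_lit 2) true (nat_lit 0) true (nat_lit 2) true (nat_lit 1) true (nat_lit 2) true (nat_lit 2) (.e false (nat_lit 216) (nat_lit 12) (nat_lit 6) (nat_lit 0) (.e true (nat_lit 216) (nat_lit 31) (nat_lit 2) (nat_lit 2) (.e true (nat_lit 216) (nat_lit 32) (nat_lit 2) (nat_lit 2) .nil))))) .leaf) (nat_lit 16389) (nat_lit 104) (.n (nat_lit 70) (nat_lit 216) (.n (nat_lit 71) (nat_lit 216) .z)) (.ct dA4s_c20 (nat_lit 216) (nat_lit 1) (.s false (nat_lit 1) (nat_lit 5) (nat_lit 2) (nat_lit 2) (nat_lit 2) true (nat_lit 0) true (nat_lit 2) true (nat_lit 1) true (nat_lit 2) true (nat_lit 2) (.e false (nat_lit 216) (nat_lit 14) (nat_lit 6) (nat_lit 0)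 (.e true (nat_lit 216) (nat_lit 34) (nat_lit 2) (nat_lit 2) (.e true (nat_lit 216) (nat_lit 35) (nat_lit 2) (nat_lit 2) .nil))))) .leaf)))) (nat_lit 16390) (nat_lit 106) .z (.ct dA4s_c5 (nat_lit 432) (nat_lit 0) (.s true (nat_lit 1) (nat_lit 6) (nat_lit 2) (nat_lit 2) (nat_lit 2) true (nat_lit 0) true (nat_lit 1) true (nat_lit 0) true (nat_lit 1) true (nat_lit 1) .nil)) (.nd (.nd (.nd (.nd (.nd .leaf (nat_lit 16391) (nat_lit 156) (.p (nat_lit 81) (nat_lit 432) (.p (nat_lit 83) (nat_lit 432) (.n (nat_lit 85) (nat_lit 216) (.n (nat_lit 86) (nat_lit 216) (.n (nat_lit 87) (nat_lit 216) (.n (nat_lit 88) (nat_lit 216) (.n (nat_lit 90) (nat_lit 216) .z))))))) (.ct dA4s_c291 (nat_lit 216) (nat_lit 2) (.s true (nat_lit 1) (nat_lit 7) (nat_lit 2) (nat_lit 2) (nat_lit 2) true (nat_lit 3) true (nat_lit 7) true (nat_lit 2) true (nat_lit 7) true (nat_lit 7) (.e true (nat_lit 216) (nat_lit 17) (nat_lit 6) (nat_lit 3) (.e false (nat_lit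 432) (nat_lit 40) (nat_lit 2) (nat_lit 7) (.e false (nat_lit 432) (nat_lit 41) (nat_lit 2) (nat_lit 7) (.e true (nat_lit 432) (nat_lit 42) (nat_lit 2) (nat_lit 7) (.e true (nat_lit 216) (nat_lit 44) (nat_lit 2) (nat_lit 7) (.e false (nat_lit 216) (nat_lit 47) (nat_lit 2) (nat_lit 7) .nil)))))))) .leaf) (nat_lit 16392) (nat_lit 196) (.p (nat_lit 95) (nat_lit 432) (.p (nat_lit 97) (nat_lit 432) (.n (nat_lit 100) (nat_lit 216) (.n (nat_lit 101) (nat_lit 432) (.n (nat_lit 102) (nat_lit 216) (.p (nat_lit 104) (nat_lit 216) (.p (nat_lit 105) (nat_lit 216) (.p (nat_lit 106) (nat_lit 432) (.n (nat_lit 107) (nat_lit 216) .z))))))))) (.ct dA4s_c276 (nat_lit 216) (nat_lit 1) (.s false (nat_lit 1) (nat_lit 6) (nat_lit 3) (nat_lit 2) (nat_lit 2) true (nat_lit 1) true (nat_lit 6) true (nat_lit 2) true (nat_lit 5) true (nat_lit 6) (.e false (nat_lit 216) (nat_lit 21) (nat_lit 6) (nat_lit 2) (.e true (nat_lit 216) (nat_lit 57) (nat_lit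 2) (nat_lit 6) .nil)))) (.nd .leaf (nat_lit 16393) (nat_lit 188) (.p (nat_lit 94) (nat_lit 216) (.p (nat_lit 96) (nat_lit 216) (.n (nat_lit 97) (nat_lit 216) (.n (nat_lit 98) (nat_lit 432) (.p (nat_lit 99) (nat_lit 432) (.n (nat_lit 100) (nat_lit 108) (.p (nat_lit 101) (nat_lit 324) (.n (nat_lit 102) (nat_lit 108) (.p (nat_lit 103) (nat_lit 216) (.p (nat_lit 104) (nat_lit 108) (.p (nat_lit 105) (nat_lit 108) (.n (nat_lit 106) (nat_lit 108) (.p (nat_lit 107) (nat_lit 108) (.n (nat_lit 109) (nat_lit 108) .z)))))))))))))) (.ct dA4s_c276 (nat_lit 216) (nat_lit 1) (.s false (nat_lit 1) (nat_lit 16) (nat_lit 2) (nat_lit 0) (nat_lit 1) true (nat_lit 3) true (nat_lit 7) false (nat_lit 1) true (nat_lit 6) true (nat_lit 8) (.e true (nat_lit 216) (nat_lit 32) (nat_lit 5) (nat_lit 3) (.e false (nat_lit 216) (nat_lit 67) (nat_lit 1) (nat_lit 7) (.e false (nat_lit 216) (nat_lit 49) (nat_lit 2) (nat_lit 6) (.e true (nat_lit 216) (nat_lit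 50) (nat_lit 2) (nat_lit 6) (.e false (nat_lit 216) (nat_lit 51) (nat_lit 2) (nat_lit 6) (.e true (nat_lit 216) (nat_lit 53) (nat_lit 2) (nat_lit 6) (.e true (nat_lit 216) (nat_lit 57) (nat_lit 2) (nat_lit 6) (.e true (nat_lit 216) (nat_lit 70) (nat_lit 0) (nat_lit 8) .nil)))))))))) .leaf)) (nat_lit 16394) (nat_lit 187) (.p (nat_lit 94) (nat_lit 216) (.p (nat_lit 95) (nat_lit 864) (.n (nat_lit 96) (nat_lit 216) (.p (nat_lit 97) (nat_lit 648) (.n (nat_lit 100) (nat_lit 324) (.n (nat_lit 101) (nat_lit 540) (.n (nat_lit 102) (nat_lit 324) (.n (nat_lit 103) (nat_lit 216) (.p (nat_lit 104) (nat_lit 324) (.p (nat_lit 105) (nat_lit 324) (.p (nat_lit 106) (nat_lit 324) (.n (nat_lit 107) (nat_lit 324) (.n (nat_lit 109) (nat_lit 108) .z))))))))))))) (.ct dA4s_c276 (nat_lit 216) (nat_lit 1) (.s false (nat_lit 1) (nat_lit 16) (nat_lit 2) (nat_lit 1) (nat_lit 0) true (nat_lit 4) true (nat_lit 8) false (nat_lit 1) true (nat_lit 6)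 true (nat_lit 7) (.e true (nat_lit 216) (nat_lit 35) (nat_lit 4) (nat_lit 4) (.e false (nat_lit 216) (nat_lit 71) (nat_lit 0) (nat_lit 8) (.e true (nat_lit 216) (nat_lit 49) (nat_lit 2) (nat_lit 6) (.e false (nat_lit 216) (nat_lit 50) (nat_lit 2) (nat_lit 6) (.e true (nat_lit 216) (nat_lit 51) (nat_lit 2) (nat_lit 6) (.e false (nat_lit 216) (nat_lit 53) (nat_lit 2) (nat_lit 6) (.e false (nat_lit 216) (nat_lit 57) (nat_lit 2) (nat_lit 6) (.e true (nat_lit 216) (nat_lit 66) (nat_lit 1) (nat_lit 7) .nil)))))))))) (.nd (.nd .leaf (nat_lit 16395) (nat_lit 212) (.p (nat_lit 111) (nat_lit 108) (.p (nat_lit 114) (nat_lit 108) (.n (nat_lit 115) (nat_lit 108) .z))) (.ct dA4s_c36 (nat_lit 216) (nat_lit 1) (.s true (nat_lit 1) (nat_lit 16) (nat_lit 1) (nat_lit 2) (nat_lit 1) false (nat_lit 6) true (nat_lit 5) false (nat_lit 1) true (nat_lit 5) true (nat_lit 4) (.e true (nat_lit 432) (nat_lit 70) (nat_lit 1) (nat_lit 5) (.e true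 (nat_lit 216) (nat_lit 71) (nat_lit 1) (nat_lit 5) (.e false (nat_lit 216) (nat_lit 63) (nat_lit 2) (nat_lit 4) .nil))))) .leaf) (nat_lit 16396) (nat_lit 221) (.n (nat_lit 120) (nat_lit 216) .z) (.ct dA4s_c261 (nat_lit 216) (nat_lit 0) (.s true (nat_lit 1) (nat_lit 16) (nat_lit 0) (nat_lit 2) (nat_lit 2) true (nat_lit 2) true (nat_lit 3) false (nat_lit 0) true (nat_lit 4) true (nat_lit 3) (.e true (nat_lit 216) (nat_lit 36) (nat_lit 4) (nat_lit 2) (.e true (nat_lit 216) (nat_lit 66) (nat_lit 2) (nat_lit 3) (.e true (nat_lit 216) (nat_lit 67) (nat_lit 2) (nat_lit 3) .nil))))) .leaf)) (nat_lit 16397) (nat_lit 223) (.p (nat_lit 117) (nat_lit 432) (.p (nat_lit 118) (nat_lit 432) (.n (nat_lit 119) (nat_lit 216) .z))) (.ct dA4s_c261 (nat_lit 216) (nat_lit 0) (.s true (nat_lit 1) (nat_lit 6) (nat_lit 0) (nat_lit 2) (nat_lit 6) true (nat_lit 0) true (nat_lit 1) true (nat_lit 1) true (nat_lit 4) true (nat_lit 3) (.e false (nat_lit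 216) (nat_lit 32) (nat_lit 6) (nat_lit 1) .nil))) (.nd (.nd (.nd .leaf (nat_lit 16398) (nat_lit 232) (.n (nat_lit 125) (nat_lit 216) .z) (.ct dA4s_c21 (nat_lit 216) (nat_lit 0) (.s true (nat_lit 1) (nat_lit 16) (nat_lit 1) (nat_lit 2) (nat_lit 2) true (nat_lit 2) true (nat_lit 3) false (nat_lit 0) true (nat_lit 4) true (nat_lit 3) (.e true (nat_lit 216) (nat_lit 36) (nat_lit 5) (nat_lit 2) (.e true (nat_lit 216) (nat_lit 70) (nat_lit 2) (nat_lit 3) (.e true (nat_lit 216) (nat_lit 71) (nat_lit 2) (nat_lit 3) .nil))))) .leaf) (nat_lit 16399) (nat_lit 234) (.p (nat_lit 122) (nat_lit 432) (.p (nat_lit 123) (nat_lit 432) (.n (nat_lit 124) (nat_lit 216) .z))) (.ct dA4s_c21 (nat_lit 216) (nat_lit 0) (.s true (nat_lit 1) (nat_lit 6) (nat_lit 1) (nat_lit 2) (nat_lit 6) true (nat_lit 0) true (nat_lit 1) true (nat_lit 1) true (nat_lit 4) true (nat_lit 3) (.e false (nat_lit 216) (nat_lit 35) (nat_lit 6) (nat_lit 1) .nil))) .leaf)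 (nat_lit 17410) (nat_lit 42) (.p (nat_lit 37) (nat_lit 216) .z) .df (.nd (.nd .leaf (nat_lit 17414) (nat_lit 139) (.p (nat_lit 73) (nat_lit 432) (.p (nat_lit 74) (nat_lit 432) (.n (nat_lit 75) (nat_lit 432) (.n (nat_lit 77) (nat_lit 216) (.p (nat_lit 79) (nat_lit 216) (.n (nat_lit 81) (nat_lit 432) (.n (nat_lit 83) (nat_lit 432) (.p (nat_lit 85) (nat_lit 216) (.p (nat_lit 86) (nat_lit 216) (.p (nat_lit 87) (nat_lit 216) (.p (nat_lit 88) (nat_lit 216) (.p (nat_lit 90) (nat_lit 216) .z)))))))))))) (.ct dA4s_c291 (nat_lit 432) (nat_lit 3) (.s false (nat_lit 1) (nat_lit 6) (nat_lit 1) (nat_lit 2) (nat_lit 3) true (nat_lit 2) true (nat_lit 6) true (nat_lit 3) true (nat_lit 8) true (nat_lit 7) (.s true (nat_lit 1) (nat_lit 7) (nat_lit 2) (nat_lit 2) (nat_lit 2) true (nat_lit 3) true (nat_lit 7) true (nat_lit 2) true (nat_lit 7) true (nat_lit 7) (.e false (nat_lit 216) (nat_lit 34) (nat_lit 3) (nat_lit 6) (.e false (nat_lit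 216) (nat_lit 19) (nat_lit 6) (nat_lit 3) (.e true (nat_lit 216) (nat_lit 20) (nat_lit 6) (nat_lit 3) (.e true (nat_lit 216) (nat_lit 57) (nat_lit 1) (nat_lit 8) (.e false (nat_lit 648) (nat_lit 41) (nat_lit 2) (nat_lit 7) (.e true (nat_lit 648) (nat_lit 42) (nat_lit 2) (nat_lit 7) (.e false (nat_lit 216) (nat_lit 43) (nat_lit 2) (nat_lit 7) (.e true (nat_lit 216) (nat_lit 45) (nat_lit 2) (nat_lit 7) (.e false (nat_lit 432) (nat_lit 40) (nat_lit 2) (nat_lit 7) (.e true (nat_lit 216) (nat_lit 44) (nat_lit 2) (nat_lit 7) (.e false (nat_lit 216) (nat_lit 47) (nat_lit 2) (nat_lit 7) .nil)))))))))))))) .leaf) (nat_lit 17424) (nat_lit 315) (.p (nat_lit 126) (nat_lit 528) (.n (nat_lit 128) (nat_lit 528) (.p (nat_lit 129) (nat_lit 528) (.n (nat_lit 131) (nat_lit 264) (.n (nat_lit 132) (nat_lit 552) (.n (nat_lit 133) (nat_lit 264) (.n (nat_lit 134) (nat_lit 816) (.p (nat_lit 135) (nat_lit 408) (.p (nat_lit 136) (nat_lit 2472)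 (.p (nat_lit 137) (nat_lit 408) (.n (nat_lit 138) (nat_lit 1656) (.n (nat_lit 141) (nat_lit 4504) (.n (nat_lit 142) (nat_lit 1248) (.p (nat_lit 143) (nat_lit 3256) (.p (nat_lit 144) (nat_lit 2320) (.n (nat_lit 145) (nat_lit 4792) (.p (nat_lit 146) (nat_lit 624) (.p (nat_lit 147) (nat_lit 24) (.p (nat_lit 148) (nat_lit 624) (.p (nat_lit 149) (nat_lit 1856) (.p (nat_lit 150) (nat_lit 1376) (.p (nat_lit 151) (nat_lit 1376) (.p (nat_lit 152) (nat_lit 2232) (.n (nat_lit 153) (nat_lit 2464) (.n (nat_lit 154) (nat_lit 1976) .z))))))))))))))))))))))))) (.ct dA4s_c292 (nat_lit 216) (nat_lit 0) (.s false (nat_lit 1) (nat_lit 7) (nat_lit 2) (nat_lit 2) (nat_lit 6) true (nat_lit 0) true (nat_lit 6) true (nat_lit 5) true (nat_lit 10) true (nat_lit 10) (.e false (nat_lit 216) (nat_lit 37) (nat_lit 6) (nat_lit 6) (.e false (nat_lit 432) (nat_lit 81) (nat_lit 2) (nat_lit 10) (.e false (nat_lit 432) (nat_lit 83) (nat_lit 2) (nat_lit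 10) (.e true (nat_lit 216) (nat_lit 85) (nat_lit 2) (nat_lit 10) (.e true (nat_lit 216) (nat_lit 86) (nat_lit 2) (nat_lit 10) (.e true (nat_lit 216) (nat_lit 87) (nat_lit 2) (nat_lit 10) (.e true (nat_lit 216) (nat_lit 88) (nat_lit 2) (nat_lit 10) (.e true (nat_lit 216) (nat_lit 90) (nat_lit 2) (nat_lit 10) (.e true (nat_lit 432) (nat_lit 73) (nat_lit 2) (nat_lit 10) (.e true (nat_lit 432) (nat_lit 74) (nat_lit 2) (nat_lit 10) (.e false (nat_lit 432) (nat_lit 75) (nat_lit 2) (nat_lit 10) (.e false (nat_lit 216) (nat_lit 77) (nat_lit 2) (nat_lit 10) (.e true (nat_lit 216) (nat_lit 79) (nat_lit 2) (nat_lit 10) .nil))))))))))))))) .leaf))) (nat_lit 18434) (nat_lit 55) (.n (nat_lit 37) (nat_lit 432) (.p (nat_lit 38) (nat_lit 216) (.n (nat_lit 39) (nat_lit 216) (.p (nat_lit 40) (nat_lit 216) (.p (nat_lit 41) (nat_lit 432) (.n (nat_lit 42) (nat_lit 432) (.p (nat_lit 43) (nat_lit 216) (.n (nat_lit 44) (nat_lit 216) (.n (nat_lit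 45) (nat_lit 216) (.p (nat_lit 47) (nat_lit 216) .z)))))))))) (.ct dA4s_c290 (nat_lit 432) (nat_lit 4) (.s true (nat_lit 1) (nat_lit 3) (nat_lit 1) (nat_lit 2) (nat_lit 2) true (nat_lit 1) true (nat_lit 4) true (nat_lit 3) true (nat_lit 5) true (nat_lit 4) (.s true (nat_lit 1) (nat_lit 4) (nat_lit 2) (nat_lit 1) (nat_lit 1) true (nat_lit 1) true (nat_lit 5) true (nat_lit 2) true (nat_lit 4) true (nat_lit 5) (.s true (nat_lit 1) (nat_lit 5) (nat_lit 0) (nat_lit 1) (nat_lit 2) true (nat_lit 2) true (nat_lit 4) true (nat_lit 1) true (nat_lit 6) true (nat_lit 5) (.s true (nat_lit 1) (nat_lit 5) (nat_lit 0) (nat_lit 2) (nat_lit 1) true (nat_lit 3) true (nat_lit 5) true (nat_lit 1) true (nat_lit 6) true (nat_lit 4) (.e true (nat_lit 432) (nat_lit 8) (nat_lit 5) (nat_lit 1) (.e false (nat_lit 432) (nat_lit 22) (nat_lit 1) (nat_lit 5) (.e true (nat_lit 432) (nat_lit 23) (nat_lit 1) (nat_lit 5) .nil)))))))) (.nd (.nd (.nd (.nd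 .leaf (nat_lit 18438) (nat_lit 148) (.n (nat_lit 73) (nat_lit 432) (.p (nat_lit 76) (nat_lit 432) (.n (nat_lit 78) (nat_lit 432) (.p (nat_lit 81) (nat_lit 1728) (.n (nat_lit 82) (nat_lit 432) (.p (nat_lit 83) (nat_lit 1728) (.n (nat_lit 84) (nat_lit 432) (.n (nat_lit 85) (nat_lit 648) (.n (nat_lit 86) (nat_lit 432) (.n (nat_lit 87) (nat_lit 648) (.n (nat_lit 88) (nat_lit 1080) (.n (nat_lit 90) (nat_lit 864) (.p (nat_lit 91) (nat_lit 216) (.n (nat_lit 92) (nat_lit 216) .z)))))))))))))) (.ct dA4s_c291 (nat_lit 216) (nat_lit 3) (.s false (nat_lit 1) (nat_lit 5) (nat_lit 3) (nat_lit 2) (nat_lit 2) true (nat_lit 1) true (nat_lit 7) true (nat_lit 4) true (nat_lit 6) true (nat_lit 7) (.s false (nat_lit 1) (nat_lit 8) (nat_lit 2) (nat_lit 1) (nat_lit 2) true (nat_lit 3) true (nat_lit 7) true (nat_lit 1) true (nat_lit 7) true (nat_lit 8) (.e false (nat_lit 216) (nat_lit 21) (nat_lit 5) (nat_lit 4) (.e true (nat_lit 216) (nat_lit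 34) (nat_lit 3) (nat_lit 6) (.e true (nat_lit 216) (nat_lit 35) (nat_lit 3) (nat_lit 6) (.e false (nat_lit 432) (nat_lit 40) (nat_lit 2) (nat_lit 7) (.e false (nat_lit 216) (nat_lit 41) (nat_lit 2) (nat_lit 7) (.e true (nat_lit 216) (nat_lit 42) (nat_lit 2) (nat_lit 7) (.e true (nat_lit 216) (nat_lit 44) (nat_lit 2) (nat_lit 7) (.e false (nat_lit 216) (nat_lit 47) (nat_lit 2) (nat_lit 7) (.e false (nat_lit 216) (nat_lit 48) (nat_lit 1) (nat_lit 8) .nil)))))))))))) .leaf) (nat_lit 19458) (nat_lit 43) (.p (nat_lit 38) (nat_lit 216) .z) .df (.nd .leaf (nat_lit 19462) (nat_lit 125) (.p (nat_lit 91) (nat_lit 216) .z) .df .leaf)) (nat_lit 20482) (nat_lit 44) (.p (nat_lit 39) (nat_lit 216) .z) .df (.nd (.nd .leaf (nat_lit 20486) (nat_lit 126) (.p (nat_lit 92) (nat_lit 216) .z) .df .leaf) (nat_lit 20496) (nat_lit 333) (.n (nat_lit 126) (nat_lit 12) (.p (nat_lit 128) (nat_lit 12) (.n (nat_lit 129) (nat_lit 12) (.n (nat_lit 131)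 (nat_lit 156) (.n (nat_lit 132) (nat_lit 12) (.n (nat_lit 133) (nat_lit 156) (.n (nat_lit 134) (nat_lit 168) (.p (nat_lit 135) (nat_lit 84) (.n (nat_lit 136) (nat_lit 12) (.p (nat_lit 137) (nat_lit 84) (.n (nat_lit 138) (nat_lit 36) (.n (nat_lit 141) (nat_lit 40) (.n (nat_lit 142) (nat_lit 384) (.n (nat_lit 143) (nat_lit 344) (.n (nat_lit 144) (nat_lit 200) (.p (nat_lit 145) (nat_lit 104) (.p (nat_lit 146) (nat_lit 192) (.p (nat_lit 147) (nat_lit 456) (.p (nat_lit 148) (nat_lit 192) (.p (nat_lit 149) (nat_lit 272) (.p (nat_lit 150) (nat_lit 8) (.p (nat_lit 151) (nat_lit 8) (.n (nat_lit 152) (nat_lit 144) (.p (nat_lit 153) (nat_lit 56) (.n (nat_lit 154) (nat_lit 176) .z))))))))))))))))))))))))) (.ct dA4s_c292 (nat_lit 216) (nat_lit 0) (.s false (nat_lit 1) (nat_lit 20) (nat_lit 2) (nat_lit 2) (nat_lit 2) true (nat_lit 6) true (nat_lit 10) false (nat_lit 0) true (nat_lit 10) true (nat_lit 10) (.e false (nat_lit 216) (nat_lit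 39) (nat_lit 6) (nat_lit 6) (.e true (nat_lit 216) (nat_lit 92) (nat_lit 2) (nat_lit 10) .nil)))) .leaf)) (nat_lit 21505) (nat_lit 45) (.p (nat_lit 40) (nat_lit 216) .z) .df (.nd (.nd (.nd .leaf (nat_lit 21506) (nat_lit 62) (.p (nat_lit 48) (nat_lit 216) .z) .df .leaf) (nat_lit 21509) (nat_lit 132) (.n (nat_lit 73) (nat_lit 432) (.p (nat_lit 76) (nat_lit 216) (.n (nat_lit 78) (nat_lit 216) (.n (nat_lit 80) (nat_lit 216) (.p (nat_lit 81) (nat_lit 648) (.n (nat_lit 82) (nat_lit 216) (.p (nat_lit 83) (nat_lit 648) (.n (nat_lit 84) (nat_lit 216) (.n (nat_lit 85) (nat_lit 216) (.n (nat_lit 86) (nat_lit 216) (.n (nat_lit 87) (nat_lit 216) (.n (nat_lit 88) (nat_lit 216) (.n (nat_lit 90) (nat_lit 216) .z))))))))))))) (.ct dA4s_c291 (nat_lit 216) (nat_lit 4) (.s false (nat_lit 1) (nat_lit 5) (nat_lit 0) (nat_lit 2) (nat_lit 5) true (nat_lit 1) true (nat_lit 4) true (nat_lit 4) true (nat_lit 9) true (nat_lit 7) (.s false (nat_lit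 2) (nat_lit 5) (nat_lit 1) (nat_lit 4) (nat_lit 2) true (nat_lit 4) true (nat_lit 7) true (nat_lit 4) true (nat_lit 8) true (nat_lit 5) (.s true (nat_lit 1) (nat_lit 5) (nat_lit 2) (nat_lit 1) (nat_lit 4) false (nat_lit 0) true (nat_lit 5) true (nat_lit 4) true (nat_lit 7) true (nat_lit 8) (.s true (nat_lit 1) (nat_lit 8) (nat_lit 1) (nat_lit 2) (nat_lit 2) true (nat_lit 4) true (nat_lit 7) true (nat_lit 1) true (nat_lit 8) true (nat_lit 7) (.s false (nat_lit 1) (nat_lit 10) (nat_lit 1) (nat_lit 2) (nat_lit 2) true (nat_lit 4) true (nat_lit 7) true (nat_lit 1) true (nat_lit 8) true (nat_lit 7) (.s false (nat_lit 1) (nat_lit 12) (nat_lit 1) (nat_lit 2) (nat_lit 1) false (nat_lit 10) true (nat_lit 8) false (nat_lit 0) true (nat_lit 8) true (nat_lit 7) (.s true (nat_lit 1) (nat_lit 14) (nat_lit 0) (nat_lit 1) (nat_lit 2) true (nat_lit 5) true (nat_lit 7) false (nat_lit 1) true (nat_lit 9) true (nat_lit 8) (.e false (nat_lit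 432) (nat_lit 23) (nat_lit 5) (nat_lit 4) (.e true (nat_lit 432) (nat_lit 22) (nat_lit 5) (nat_lit 4) (.e true (nat_lit 216) (nat_lit 40) (nat_lit 2) (nat_lit 7) (.e true (nat_lit 432) (nat_lit 41) (nat_lit 2) (nat_lit 7) (.e false (nat_lit 432) (nat_lit 42) (nat_lit 2) (nat_lit 7) (.e true (nat_lit 216) (nat_lit 53) (nat_lit 1) (nat_lit 8) (.e false (nat_lit 216) (nat_lit 57) (nat_lit 1) (nat_lit 8) (.e false (nat_lit 216) (nat_lit 51) (nat_lit 1) (nat_lit 8) .nil)))))))))))))))) .leaf) (nat_lit 21510) (nat_lit 178) (.p (nat_lit 95) (nat_lit 432) (.p (nat_lit 97) (nat_lit 432) (.n (nat_lit 100) (nat_lit 216) (.n (nat_lit 101) (nat_lit 432) (.n (nat_lit 102) (nat_lit 216) (.p (nat_lit 103) (nat_lit 216) (.p (nat_lit 104) (nat_lit 216) (.p (nat_lit 105) (nat_lit 216) (.p (nat_lit 106) (nat_lit 432) (.n (nat_lit 107) (nat_lit 216) .z)))))))))) (.ct dA4s_c276 (nat_lit 432) (nat_lit 2) (.s true (nat_lit 2) (nat_lit 6) (nat_lit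 3) (nat_lit 2) (nat_lit 2) true (nat_lit 1) true (nat_lit 6) true (nat_lit 2) true (nat_lit 5) true (nat_lit 6) (.s true (nat_lit 1) (nat_lit 16) (nat_lit 0) (nat_lit 1) (nat_lit 2) true (nat_lit 4) true (nat_lit 6) false (nat_lit 1) true (nat_lit 8) true (nat_lit 7) (.s false (nat_lit 1) (nat_lit 16) (nat_lit 1) (nat_lit 0) (nat_lit 2) true (nat_lit 3) true (nat_lit 6) false (nat_lit 1) true (nat_lit 7) true (nat_lit 8) (.e false (nat_lit 216) (nat_lit 49) (nat_lit 2) (nat_lit 6) (.e false (nat_lit 216) (nat_lit 50) (nat_lit 2) (nat_lit 6) (.e false (nat_lit 216) (nat_lit 51) (nat_lit 2) (nat_lit 6) (.e false (nat_lit 216) (nat_lit 53) (nat_lit 2) (nat_lit 6) (.e false (nat_lit 432) (nat_lit 57) (nat_lit 2) (nat_lit 6) (.e true (nat_lit 216) (nat_lit 35) (nat_lit 4) (nat_lit 4) (.e true (nat_lit 432) (nat_lit 55) (nat_lit 2) (nat_lit 6) (.e false (nat_lit 216) (nat_lit 70) (nat_lit 0) (nat_lit 8) (.e false (nat_lit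 216) (nat_lit 32) (nat_lit 5) (nat_lit 3) (.e true (nat_lit 216) (nat_lit 54) (nat_lit 2) (nat_lit 6) (.e true (nat_lit 216) (nat_lit 56) (nat_lit 2) (nat_lit 6) (.e true (nat_lit 216) (nat_lit 66) (nat_lit 1) (nat_lit 7) .nil)))))))))))))))) (.nd (.nd .leaf (nat_lit 21518) (nat_lit 305) (.n (nat_lit 126) (nat_lit 228) (.p (nat_lit 128) (nat_lit 12) (.n (nat_lit 129) (nat_lit 12) (.n (nat_lit 131) (nat_lit 156) (.n (nat_lit 132) (nat_lit 12) (.n (nat_lit 133) (nat_lit 156) (.n (nat_lit 134) (nat_lit 168) (.p (nat_lit 135) (nat_lit 84) (.n (nat_lit 136) (nat_lit 12) (.p (nat_lit 137) (nat_lit 84) (.p (nat_lit 138) (nat_lit 180) (.p (nat_lit 141) (nat_lit 320) (.p (nat_lit 142) (nat_lit 696) (.p (nat_lit 143) (nat_lit 592) (.n (nat_lit 144) (nat_lit 344) (.p (nat_lit 145) (nat_lit 248) (.n (nat_lit 146) (nat_lit 348) (.n (nat_lit 147) (nat_lit 300) (.n (nat_lit 148) (nat_lit 348) (.p (nat_lit 149) (nat_lit 200) (.p (nat_lit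 150) (nat_lit 476) (.p (nat_lit 151) (nat_lit 476) (.p (nat_lit 152) (nat_lit 612) (.n (nat_lit 153) (nat_lit 340) (.n (nat_lit 154) (nat_lit 212) .z))))))))))))))))))))))))) (.ct dA4s_c292 (nat_lit 216) (nat_lit 1) (.s true (nat_lit 1) (nat_lit 21) (nat_lit 1) (nat_lit 2) (nat_lit 2) true (nat_lit 7) true (nat_lit 10) false (nat_lit 1) true (nat_lit 11) true (nat_lit 10) (.e true (nat_lit 216) (nat_lit 48) (nat_lit 5) (nat_lit 7) (.e true (nat_lit 216) (nat_lit 73) (nat_lit 2) (nat_lit 10) (.e false (nat_lit 432) (nat_lit 95) (nat_lit 1) (nat_lit 11) (.e false (nat_lit 432) (nat_lit 97) (nat_lit 1) (nat_lit 11) (.e true (nat_lit 216) (nat_lit 100) (nat_lit 1) (nat_lit 11) (.e true (nat_lit 432) (nat_lit 101) (nat_lit 1) (nat_lit 11) (.e true (nat_lit 216) (nat_lit 102) (nat_lit 1) (nat_lit 11) (.e false (nat_lit 216) (nat_lit 103) (nat_lit 1) (nat_lit 11) (.e false (nat_lit 216) (nat_lit 104) (nat_lit 1) (nat_lit 11)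 (.e false (nat_lit 216) (nat_lit 105) (nat_lit 1) (nat_lit 11) (.e false (nat_lit 432) (nat_lit 106) (nat_lit 1) (nat_lit 11) (.e true (nat_lit 216) (nat_lit 107) (nat_lit 1) (nat_lit 11) (.e true (nat_lit 216) (nat_lit 80) (nat_lit 2) (nat_lit 10) .nil))))))))))))))) .leaf) (nat_lit 21519) (nat_lit 312) (.n (nat_lit 126) (nat_lit 420) (.n (nat_lit 128) (nat_lit 12) (.p (nat_lit 129) (nat_lit 12) (.n (nat_lit 131) (nat_lit 60) (.p (nat_lit 132) (nat_lit 228) (.n (nat_lit 133) (nat_lit 60) (.p (nat_lit 134) (nat_lit 168) (.n (nat_lit 135) (nat_lit 84) (.p (nat_lit 136) (nat_lit 228) (.n (nat_lit 137) (nat_lit 84) (.n (nat_lit 138) (nat_lit 396) (.n (nat_lit 141) (nat_lit 248) (.n (nat_lit 142) (nat_lit 264) (.n (nat_lit 143) (nat_lit 16) (.p (nat_lit 144) (nat_lit 488) (.n (nat_lit 145) (nat_lit 392) (.p (nat_lit 146) (nat_lit 132) (.n (nat_lit 147) (nat_lit 348) (.p (nat_lit 148) (nat_lit 132) (.p (nat_lit 149) (nat_lit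 88) (.n (nat_lit 150) (nat_lit 188) (.n (nat_lit 151) (nat_lit 188) (.p (nat_lit 152) (nat_lit 36) (.n (nat_lit 153) (nat_lit 20) (.p (nat_lit 154) (nat_lit 356) .z))))))))))))))))))))))))) (.ct dA4s_c292 (nat_lit 216) (nat_lit 1) (.s false (nat_lit 1) (nat_lit 21) (nat_lit 2) (nat_lit 2) (nat_lit 1) true (nat_lit 7) true (nat_lit 11) false (nat_lit 1) true (nat_lit 10) true (nat_lit 10) (.e false (nat_lit 216) (nat_lit 48) (nat_lit 5) (nat_lit 7) (.e false (nat_lit 216) (nat_lit 94) (nat_lit 1) (nat_lit 11) (.e true (nat_lit 648) (nat_lit 73) (nat_lit 2) (nat_lit 10) (.e false (nat_lit 216) (nat_lit 76) (nat_lit 2) (nat_lit 10) (.e true (nat_lit 216) (nat_lit 78) (nat_lit 2) (nat_lit 10) (.e true (nat_lit 216) (nat_lit 80) (nat_lit 2) (nat_lit 10) (.e false (nat_lit 648) (nat_lit 81) (nat_lit 2) (nat_lit 10) (.e true (nat_lit 216) (nat_lit 82) (nat_lit 2) (nat_lit 10) (.e false (nat_lit 648) (nat_lit 83) (nat_lit 2)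 (nat_lit 10) (.e true (nat_lit 216) (nat_lit 84) (nat_lit 2) (nat_lit 10) (.e true (nat_lit 216) (nat_lit 85) (nat_lit 2) (nat_lit 10) (.e true (nat_lit 216) (nat_lit 86) (nat_lit 2) (nat_lit 10) (.e true (nat_lit 216) (nat_lit 87) (nat_lit 2) (nat_lit 10) (.e true (nat_lit 216) (nat_lit 88) (nat_lit 2) (nat_lit 10) (.e true (nat_lit 216) (nat_lit 90) (nat_lit 2) (nat_lit 10) .nil))))))))))))))))) .leaf))))))

noncomputable def dA4s_t1 : Tr := (.nd (.nd (.nd (.nd (.nd (.nd (.nd .leaf (nat_lit 22529) (nat_lit 46) (.p (nat_lit 41) (nat_lit 216) .z) .df .leaf) (nat_lit 22530) (nat_lit 63) (.p (nat_lit 49) (nat_lit 216) .z) .df (.nd .leaf (nat_lit 22533) (nat_lit 127) (.p (nat_lit 93) (nat_lit 216) .z) .df .leaf)) (nat_lit 22534) (nat_lit 181) (.p (nat_lit 94) (nat_lit 648) (.p (nat_lit 95) (nat_lit 648) (.n (nat_lit 98) (nat_lit 648) (.p (nat_lit 99) (nat_lit 648) (.n (nat_lit 100) (nat_lit 108) (.p (nat_lit 101) (nat_lit 108) (.n (nat_lit 102) (nat_lit 108) (.p (nat_lit 104) (nat_lit 108) (.p (nat_lit 105) (nat_lit 108) (.n (nat_lit 106) (nat_lit 108) (.p (nat_lit 107) (nat_lit 108) (.n (nat_lit 109) (nat_lit 108) .z)))))))))))) (.ct dA4s_c276 (nat_lit 216) (nat_lit 2) (.s true (nat_lit 1) (nat_lit 9) (nat_lit 2) (nat_lit 2) (nat_lit 2) true (nat_lit 2) true (nat_lit 6) true (nat_lit 1) true (nat_lit 6) true (nat_lit 6) (.s false (nat_lit 1) (nat_lit 16) (nat_lit 2) (nat_lit 0) (nat_lit 1) true (nat_lit 3) true (nat_lit 7) false (nat_lit 1) true (nat_lit 6) true (nat_lit 8) (.e false (nat_lit 864) (nat_lit 49) (nat_lit 2) (nat_lit 6) (.e false (nat_lit 432) (nat_lit 48) (nat_lit 2) (nat_lit 6) (.e true (nat_lit 432) (nat_lit 50) (nat_lit 2) (nat_lit 6) (.e false (nat_lit 432) (nat_lit 51) (nat_lit 2) (nat_lit 6) (.e true (nat_lit 216) (nat_lit 52) (nat_lit 2) (nat_lit 6) (.e true (nat_lit 216) (nat_lit 55) (nat_lit 2) (nat_lit 6) (.e true (nat_lit 432) (nat_lit 57) (nat_lit 2) (nat_lit 6) (.e true (nat_lit 216) (nat_lit 32) (nat_lit 5) (nat_lit 3) (.e false (nat_lit 216) (nat_lit 67) (nat_lit 1) (nat_lit 7) (.e true (nat_lit 216) (nat_lit 70) (nat_lit 0) (nat_lit 8) .nil))))))))))))) (.nd (.nd .leaf (nat_lit 22542) (nat_lit 318) (.p (nat_lit 126) (nat_lit 228) (.n (nat_lit 127) (nat_lit 216) (.n (nat_lit 128) (nat_lit 228) (.p (nat_lit 129) (nat_lit 228) (.n (nat_lit 131) (nat_lit 60) (.n (nat_lit 132) (nat_lit 204) (.n (nat_lit 133) (nat_lit 60) (.n (nat_lit 134) (nat_lit 264) (.p (nat_lit 135) (nat_lit 132) (.p (nat_lit 136) (nat_lit 1092) (.p (nat_lit 137) (nat_lit 132) (.n (nat_lit 138) (nat_lit 828) (.n (nat_lit 141) (nat_lit 1976) (.n (nat_lit 142) (nat_lit 480) (.p (nat_lit 143) (nat_lit 1280) (.p (nat_lit 144) (nat_lit 920) (.n (nat_lit 145) (nat_lit 2120) (.p (nat_lit 146) (nat_lit 348) (.p (nat_lit 147) (nat_lit 300) (.p (nat_lit 148) (nat_lit 348) (.p (nat_lit 149) (nat_lit 952) (.p (nat_lit 150) (nat_lit 676) (.p (nat_lit 151) (nat_lit 676) (.p (nat_lit 152) (nat_lit 900) (.n (nat_lit 153) (nat_lit 1100) (.n (nat_lit 154) (nat_lit 1156) .z)))))))))))))))))))))))))) (.ct dA4s_c292 (nat_lit 216) (nat_lit 1) (.s false (nat_lit 1) (nat_lit 22) (nat_lit 2) (nat_lit 1) (nat_lit 2) true (nat_lit 6) true (nat_lit 10) false (nat_lit 1) true (nat_lit 10) true (nat_lit 11) (.e true (nat_lit 216) (nat_lit 41) (nat_lit 6) (nat_lit 6) (.e false (nat_lit 216) (nat_lit 81) (nat_lit 2) (nat_lit 10) (.e true (nat_lit 216) (nat_lit 93) (nat_lit 2) (nat_lit 10) (.e false (nat_lit 216) (nat_lit 95) (nat_lit 1) (nat_lit 11) .nil)))))) .leaf) (nat_lit 22543) (nat_lit 326) (.n (nat_lit 126) (nat_lit 840) (.n (nat_lit 127) (nat_lit 432) (.p (nat_lit 128) (nat_lit 696) (.n (nat_lit 129) (nat_lit 840) (.p (nat_lit 130) (nat_lit 72) (.p (nat_lit 131) (nat_lit 384) (.p (nat_lit 132) (nat_lit 528) (.p (nat_lit 133) (nat_lit 384) (.p (nat_lit 134) (nat_lit 912) (.n (nat_lit 135) (nat_lit 456) (.n (nat_lit 136) (nat_lit 3648) (.n (nat_lit 137) (nat_lit 456) (.p (nat_lit 138) (nat_lit 2448) (.p (nat_lit 141) (nat_lit 6176) (.p (nat_lit 142) (nat_lit 1992) (.n (nat_lit 143) (nat_lit 4184) (.n (nat_lit 144) (nat_lit 2960) (.p (nat_lit 145) (nat_lit 6320) (.n (nat_lit 146) (nat_lit 780) (.n (nat_lit 147) (nat_lit 192) (.n (nat_lit 148) (nat_lit 780) (.n (nat_lit 149) (nat_lit 2800) (.n (nat_lit 150) (nat_lit 2164) (.n (nat_lit 151) (nat_lit 2092) (.n (nat_lit 152) (nat_lit 3096) (.p (nat_lit 153) (nat_lit 3500) (.p (nat_lit 154) (nat_lit 2788) (.n (nat_lit 155) (nat_lit 72) .z)))))))))))))))))))))))))))) (.ct dA4s_c292 (nat_lit 216) (nat_lit 1) (.s false (nat_lit 1) (nat_lit 22) (nat_lit 2) (nat_lit 2) (nat_lit 1) true (nat_lit 7) true (nat_lit 11) false (nat_lit 1) true (nat_lit 10) true (nat_lit 10) (.e false (nat_lit 216) (nat_lit 49) (nat_lit 5) (nat_lit 7) (.e false (nat_lit 216) (nat_lit 95) (nat_lit 1) (nat_lit 11) (.e false (nat_lit 216) (nat_lit 93) (nat_lit 2) (nat_lit 10) (.e true (nat_lit 216) (nat_lit 74) (nat_lit 2) (nat_lit 10) .nil)))))) .leaf)) (nat_lit 22544) (nat_lit 374) (.n (nat_lit 156) (nat_lit 756) (.n (nat_lit 157) (nat_lit 756) (.p (nat_lit 159) (nat_lit 864) (.n (nat_lit 160) (nat_lit 756) (.p (nat_lit 161) (nat_lit 378) (.p (nat_lit 163) (nat_lit 378) (.p (nat_lit 164) (nat_lit 54) (.n (nat_lit 165) (nat_lit 540) (.n (nat_lit 166) (nat_lit 540) (.n (nat_lit 167) (nat_lit 324) (.p (nat_lit 168) (nat_lit 108) (.p (nat_lit 169) (nat_lit 324) (.p (nat_lit 171) (nat_lit 216) (.n (nat_lit 172) (nat_lit 216) .z)))))))))))))) (.ct dA4s_c277 (nat_lit 216) (nat_lit 0) (.s false (nat_lit 1) (nat_lit 9) (nat_lit 2) (nat_lit 2) (nat_lit 6) true (nat_lit 0) true (nat_lit 4) true (nat_lit 3) true (nat_lit 8) true (nat_lit 8) (.e false (nat_lit 216) (nat_lit 49) (nat_lit 6) (nat_lit 4) (.e true (nat_lit 648) (nat_lit 94) (nat_lit 2) (nat_lit 8) (.e false (nat_lit 648) (nat_lit 98) (nat_lit 2) (nat_lit 8) (.e true (nat_lit 648) (nat_lit 99) (nat_lit 2) (nat_lit 8) (.e false (nat_lit 108) (nat_lit 100) (nat_lit 2) (nat_lit 8) (.e true (nat_lit 108) (nat_lit 101) (nat_lit 2) (nat_lit 8) (.e false (nat_lit 108) (nat_lit 102) (nat_lit 2) (nat_lit 8) (.e true (nat_lit 108) (nat_lit 104) (nat_lit 2) (nat_lit 8) (.e true (nat_lit 108) (nat_lit 105) (nat_lit 2) (nat_lit 8) (.e false (nat_lit 108) (nat_lit 106) (nat_lit 2) (nat_lit 8) (.e true (nat_lit 108) (nat_lit 107) (nat_lit 2) (nat_lit 8) (.e false (nat_lit 108) (nat_lit 109) (nat_lit 2) (nat_lit 8) (.e true (nat_lit 648) (nat_lit 95) (nat_lit 2) (nat_lit 8) .nil))))))))))))))) (.nd (.nd (.nd .leaf (nat_lit 23553) (nat_lit 47) (.p (nat_lit 42) (nat_lit 216) .z) .df .leaf) (nat_lit 23554) (nat_lit 64) (.p (nat_lit 50) (nat_lit 216) .z) .df (.nd .leaf (nat_lit 23557) (nat_lit 129) (.n (nat_lit 73) (nat_lit 108) (.p (nat_lit 74) (nat_lit 216) (.n (nat_lit 75) (nat_lit 216) (.p (nat_lit 76) (nat_lit 108) (.n (nat_lit 78) (nat_lit 108) (.n (nat_lit 80) (nat_lit 108) (.p (nat_lit 81) (nat_lit 324) (.n (nat_lit 82) (nat_lit 108) (.p (nat_lit 83) (nat_lit 216) (.n (nat_lit 85) (nat_lit 108) (.n (nat_lit 86) (nat_lit 108) (.n (nat_lit 87) (nat_lit 108) (.n (nat_lit 88) (nat_lit 216) (.n (nat_lit 90) (nat_lit 108) (.p (nat_lit 93) (nat_lit 216) .z))))))))))))))) (.ct dA4s_c291 (nat_lit 864) (nat_lit 4) (.s true (nat_lit 2) (nat_lit 5) (nat_lit 0) (nat_lit 2) (nat_lit 5) true (nat_lit 1) true (nat_lit 4) true (nat_lit 4) true (nat_lit 9) true (nat_lit 7) dA4s_i0)) .leaf)) (nat_lit 23558) (nat_lit 185) (.p (nat_lit 94) (nat_lit 216) (.p (nat_lit 95) (nat_lit 648) (.p (nat_lit 97) (nat_lit 432) (.n (nat_lit 98) (nat_lit 216) (.p (nat_lit 99) (nat_lit 216) (.n (nat_lit 100) (nat_lit 108) (.n (nat_lit 101) (nat_lit 324) (.n (nat_lit 102) (nat_lit 108) (.p (nat_lit 104) (nat_lit 324) (.p (nat_lit 105) (nat_lit 324) (.p (nat_lit 106) (nat_lit 324) (.n (nat_lit 107) (nat_lit 324) (.n (nat_lit 109) (nat_lit 108) .z))))))))))))) (.ct dA4s_c276 (nat_lit 216) (nat_lit 2) (.s false (nat_lit 1) (nat_lit 6) (nat_lit 0) (nat_lit 6) (nat_lit 1) true (nat_lit 5) true (nat_lit 7) true (nat_lit 2) true (nat_lit 8) true (nat_lit 2) (.e false (nat_lit 432) (nat_lit 65) (nat_lit 1) (nat_lit 7) (.e false (nat_lit 432) (nat_lit 66) (nat_lit 1) (nat_lit 7) (.e true (nat_lit 432) (nat_lit 25) (nat_lit 6) (nat_lit 2) (.e false (nat_lit 432) (nat_lit 69) (nat_lit 0) (nat_lit 8) (.e false (nat_lit 432) (nat_lit 70) (nat_lit 0) (nat_lit 8) (.e false (nat_lit 432) (nat_lit 21) (nat_lit 6) (nat_lit 2) (.e false (nat_lit 216) (nat_lit 22) (nat_lit 6) (nat_lit 2) (.e true (nat_lit 216) (nat_lit 24) (nat_lit 6) (nat_lit 2) (.e false (nat_lit 216) (nat_lit 26) (nat_lit 6) (nat_lit 2) .nil))))))))))) (.nd (.nd .leaf (nat_lit 23566) (nat_lit 288) (.p (nat_lit 126) (nat_lit 456) (.n (nat_lit 127) (nat_lit 216) (.n (nat_lit 128) (nat_lit 240) (.p (nat_lit 129) (nat_lit 240) (.p (nat_lit 131) (nat_lit 96) (.n (nat_lit 132) (nat_lit 192) (.p (nat_lit 133) (nat_lit 96) (.n (nat_lit 134) (nat_lit 96) (.p (nat_lit 135) (nat_lit 48) (.p (nat_lit 136) (nat_lit 240) (.p (nat_lit 137) (nat_lit 48) (.n (nat_lit 138) (nat_lit 144) (.n (nat_lit 141) (nat_lit 784) (.p (nat_lit 142) (nat_lit 336) (.p (nat_lit 143) (nat_lit 1120) (.p (nat_lit 144) (nat_lit 184) (.n (nat_lit 145) (nat_lit 856) (.n (nat_lit 146) (nat_lit 60) (.p (nat_lit 147) (nat_lit 60) (.n (nat_lit 148) (nat_lit 60) (.p (nat_lit 149) (nat_lit 536) (.p (nat_lit 150) (nat_lit 740) (.p (nat_lit 151) (nat_lit 740) (.p (nat_lit 152) (nat_lit 612) (.n (nat_lit 153) (nat_lit 868) (.n (nat_lit 154) (nat_lit 1052) .z)))))))))))))))))))))))))) (.ct dA4s_c292 (nat_lit 216) (nat_lit 1) (.s true (nat_lit 1) (nat_lit 23) (nat_lit 1) (nat_lit 2) (nat_lit 2) true (nat_lit 7) true (nat_lit 10) false (nat_lit 1) true (nat_lit 11) true (nat_lit 10) (.e true (nat_lit 216) (nat_lit 50) (nat_lit 5) (nat_lit 7) (.e true (nat_lit 216) (nat_lit 75) (nat_lit 2) (nat_lit 10) (.e false (nat_lit 216) (nat_lit 94) (nat_lit 1) (nat_lit 11) (.e false (nat_lit 648) (nat_lit 95) (nat_lit 1) (nat_lit 11) (.e false (nat_lit 432) (nat_lit 97) (nat_lit 1) (nat_lit 11) (.e true (nat_lit 216) (nat_lit 98) (nat_lit 1) (nat_lit 11) (.e false (nat_lit 216) (nat_lit 99) (nat_lit 1) (nat_lit 11) (.e true (nat_lit 108) (nat_lit 100) (nat_lit 1) (nat_lit 11) (.e true (nat_lit 324) (nat_lit 101) (nat_lit 1) (nat_lit 11) (.e true (nat_lit 108) (nat_lit 102) (nat_lit 1) (nat_lit 11) (.e false (nat_lit 324) (nat_lit 104) (nat_lit 1) (nat_lit 11) (.e false (nat_lit 324) (nat_lit 105) (nat_lit 1) (nat_lit 11) (.e false (nat_lit 324) (nat_lit 106) (nat_lit 1) (nat_lit 11) (.e true (nat_lit 324) (nat_lit 107) (nat_lit 1) (nat_lit 11) (.e true (nat_lit 108) (nat_lit 109) (nat_lit 1) (nat_lit 11) (.e true (nat_lit 216) (nat_lit 82) (nat_lit 2) (nat_lit 10) .nil)))))))))))))))))) .leaf) (nat_lit 23567) (nat_lit 314) (.p (nat_lit 126) (nat_lit 36) (.n (nat_lit 127) (nat_lit 432) (.p (nat_lit 128) (nat_lit 252) (.n (nat_lit 129) (nat_lit 396) (.p (nat_lit 130) (nat_lit 72) (.p (nat_lit 131) (nat_lit 756) (.p (nat_lit 132) (nat_lit 324) (.p (nat_lit 133) (nat_lit 756) (.p (nat_lit 134) (nat_lit 1080) (.n (nat_lit 135) (nat_lit 540) (.n (nat_lit 136) (nat_lit 2988) (.n (nat_lit 137) (nat_lit 540) (.p (nat_lit 138) (nat_lit 1620) (.p (nat_lit 141) (nat_lit 3624) (.p (nat_lit 142) (nat_lit 864) (.n (nat_lit 143) (nat_lit 2760) (.n (nat_lit 144) (nat_lit 1464) (.p (nat_lit 145) (nat_lit 3624) (.n (nat_lit 146) (nat_lit 216) (.p (nat_lit 147) (nat_lit 324) (.n (nat_lit 148) (nat_lit 216) (.n (nat_lit 149) (nat_lit 1992) (.n (nat_lit 150) (nat_lit 1632) (.n (nat_lit 151) (nat_lit 1560) (.n (nat_lit 152) (nat_lit 2628) (.p (nat_lit 153) (nat_lit 2256) (.p (nat_lit 154) (nat_lit 1128) (.n (nat_lit 155) (nat_lit 72) .z)))))))))))))))))))))))))))) (.ct dA4s_c292 (nat_lit 216) (nat_lit 1) (.s false (nat_lit 1) (nat_lit 23) (nat_lit 2) (nat_lit 2) (nat_lit 1) true (nat_lit 7) true (nat_lit 11) false (nat_lit 1) true (nat_lit 10) true (nat_lit 10) (.e false (nat_lit 216) (nat_lit 50) (nat_lit 5) (nat_lit 7) (.e false (nat_lit 216) (nat_lit 96) (nat_lit 1) (nat_lit 11) (.e true (nat_lit 108) (nat_lit 73) (nat_lit 2) (nat_lit 10) (.e false (nat_lit 216) (nat_lit 74) (nat_lit 2) (nat_lit 10) (.e true (nat_lit 432) (nat_lit 75) (nat_lit 2) (nat_lit 10) (.e false (nat_lit 108) (nat_lit 76) (nat_lit 2) (nat_lit 10) (.e true (nat_lit 108) (nat_lit 78) (nat_lit 2) (nat_lit 10) (.e true (nat_lit 108) (nat_lit 80) (nat_lit 2) (nat_lit 10) (.e false (nat_lit 324) (nat_lit 81) (nat_lit 2) (nat_lit 10) (.e true (nat_lit 108) (nat_lit 82) (nat_lit 2) (nat_lit 10) (.e false (nat_lit 216) (nat_lit 83) (nat_lit 2) (nat_lit 10) (.e true (nat_lit 108) (nat_lit 85) (nat_lit 2) (nat_lit 10) (.e true (nat_lit 108) (nat_lit 86) (nat_lit 2) (nat_lit 10) (.e true (nat_lit 108) (nat_lit 87) (nat_lit 2) (nat_lit 10) (.e true (nat_lit 216) (nat_lit 88) (nat_lit 2) (nat_lit 10) (.e true (nat_lit 108) (nat_lit 90) (nat_lit 2) (nat_lit 10) (.e false (nat_lit 216) (nat_lit 93) (nat_lit 2) (nat_lit 10) .nil))))))))))))))))))) .leaf))) (nat_lit 23568) (nat_lit 386) (.n (nat_lit 156) (nat_lit 216) (.n (nat_lit 157) (nat_lit 216) (.p (nat_lit 159) (nat_lit 432) (.n (nat_lit 160) (nat_lit 216) (.p (nat_lit 161) (nat_lit 108) (.n (nat_lit 162) (nat_lit 216) (.p (nat_lit 163) (nat_lit 108) (.n (nat_lit 164) (nat_lit 324) (.n (nat_lit 165) (nat_lit 432) (.n (nat_lit 166) (nat_lit 432) (.n (nat_lit 167) (nat_lit 216) (.p (nat_lit 168) (nat_lit 216) (.p (nat_lit 169) (nat_lit 432) (.p (nat_lit 171) (nat_lit 216) (.n (nat_lit 173) (nat_lit 216) .z))))))))))))))) (.ct dA4s_c277 (nat_lit 216) (nat_lit 0) (.s false (nat_lit 1) (nat_lit 16) (nat_lit 0) (nat_lit 5) (nat_lit 2) true (nat_lit 6) true (nat_lit 8) true (nat_lit 0) true (nat_lit 10) true (nat_lit 5) (.e true (nat_lit 216) (nat_lit 70) (nat_lit 4) (nat_lit 6) (.e true (nat_lit 216) (nat_lit 71) (nat_lit 4) (nat_lit 6) (.e false (nat_lit 216) (nat_lit 109) (nat_lit 2) (nat_lit 8) (.e false (nat_lit 216) (nat_lit 125) (nat_lit 0) (nat_lit 10) (.e false (nat_lit 216) (nat_lit 67) (nat_lit 5) (nat_lit 5) .nil))))))) (.nd (.nd (.nd (.nd .leaf (nat_lit 24577) (nat_lit 48) (.p (nat_lit 43) (nat_lit 216) .z) .df .leaf) (nat_lit 24578) (nat_lit 65) (.p (nat_lit 51) (nat_lit 216) .z) .df (.nd .leaf (nat_lit 24581) (nat_lit 141) (.n (nat_lit 76) (nat_lit 216) (.p (nat_lit 80) (nat_lit 216) (.p (nat_lit 81) (nat_lit 216) (.n (nat_lit 82) (nat_lit 216) (.n (nat_lit 83) (nat_lit 216) (.p (nat_lit 85) (nat_lit 216) (.n (nat_lit 88) (nat_lit 216) (.n (nat_lit 89) (nat_lit 432) .z)))))))) (.ct dA4s_c291 (nat_lit 216) (nat_lit 4) (.s true (nat_lit 1) (nat_lit 12) (nat_lit 1) (nat_lit 1) (nat_lit 2) true (nat_lit 4) true (nat_lit 7) false (nat_lit 0) true (nat_lit 8) true (nat_lit 8) (.e true (nat_lit 216) (nat_lit 43) (nat_lit 2) (nat_lit 7) (.e true (nat_lit 432) (nat_lit 58) (nat_lit 1) (nat_lit 8) (.e false (nat_lit 216) (nat_lit 48) (nat_lit 1) (nat_lit 8) (.e false (nat_lit 216) (nat_lit 49) (nat_lit 1) (nat_lit 8) (.e true (nat_lit 216) (nat_lit 50) (nat_lit 1) (nat_lit 8) (.e true (nat_lit 216) (nat_lit 51) (nat_lit 1) (nat_lit 8) (.e false (nat_lit 216) (nat_lit 54) (nat_lit 1) (nat_lit 8) (.e true (nat_lit 216) (nat_lit 57) (nat_lit 1) (nat_lit 8) .nil)))))))))) .leaf)) (nat_lit 24582) (nat_lit 183) (.n (nat_lit 94) (nat_lit 648) (.n (nat_lit 95) (nat_lit 864) (.p (nat_lit 96) (nat_lit 216) (.n (nat_lit 97) (nat_lit 216) (.p (nat_lit 98) (nat_lit 648) (.n (nat_lit 99) (nat_lit 432) (.p (nat_lit 100) (nat_lit 324) (.p (nat_lit 101) (nat_lit 108) (.p (nat_lit 102) (nat_lit 324) (.p (nat_lit 103) (nat_lit 216) (.n (nat_lit 104) (nat_lit 324) (.n (nat_lit 105) (nat_lit 324) (.n (nat_lit 106) (nat_lit 108) (.p (nat_lit 107) (nat_lit 108) (.p (nat_lit 109) (nat_lit 324) .z))))))))))))))) (.ct dA4s_c276 (nat_lit 432) (nat_lit 2) (.s false (nat_lit 1) (nat_lit 6) (nat_lit 0) (nat_lit 6) (nat_lit 1) true (nat_lit 5) true (nat_lit 7) true (nat_lit 2) true (nat_lit 8) true (nat_lit 2) (.s false (nat_lit 1) (nat_lit 6) (nat_lit 2) (nat_lit 2) (nat_lit 3) true (nat_lit 1) true (nat_lit 5) true (nat_lit 2) true (nat_lit 6) true (nat_lit 6) (.s false (nat_lit 1) (nat_lit 16) (nat_lit 0) (nat_lit 1) (nat_lit 2) true (nat_lit 4) true (nat_lit 6) false (nat_lit 1) true (nat_lit 8) true (nat_lit 7) (.s false (nat_lit 1) (nat_lit 16) (nat_lit 1) (nat_lit 2) (nat_lit 0) true (nat_lit 5) true (nat_lit 8) false (nat_lit 1) true (nat_lit 7) true (nat_lit 6) (.s false (nat_lit 1) (nat_lit 16) (nat_lit 2) (nat_lit 1) (nat_lit 0) true (nat_lit 4) true (nat_lit 8) false (nat_lit 1) true (nat_lit 6) true (nat_lit 7) (.e false (nat_lit 432) (nat_lit 65) (nat_lit 1) (nat_lit 7) (.e false (nat_lit 432) (nat_lit 66) (nat_lit 1) (nat_lit 7) (.e true (nat_lit 432) (nat_lit 25) (nat_lit 6) (nat_lit 2) (.e false (nat_lit 432) (nat_lit 69) (nat_lit 0) (nat_lit 8) (.e false (nat_lit 432) (nat_lit 70) (nat_lit 0) (nat_lit 8) (.e false (nat_lit 432) (nat_lit 21) (nat_lit 6) (nat_lit 2) (.e false (nat_lit 432) (nat_lit 26) (nat_lit 6) (nat_lit 2) (.e false (nat_lit 432) (nat_lit 57) (nat_lit 2) (nat_lit 6) .nil)))))))))))))) (.nd (.nd .leaf (nat_lit 24590) (nat_lit 307) (.n (nat_lit 126) (nat_lit 888) (.p (nat_lit 128) (nat_lit 672) (.n (nat_lit 129) (nat_lit 888) (.p (nat_lit 131) (nat_lit 552) (.p (nat_lit 132) (nat_lit 840) (.p (nat_lit 133) (nat_lit 552) (.p (nat_lit 134) (nat_lit 1392) (.n (nat_lit 135) (nat_lit 696) (.n (nat_lit 136) (nat_lit 4344) (.n (nat_lit 137) (nat_lit 696) (.p (nat_lit 138) (nat_lit 2952) (.p (nat_lit 141) (nat_lit 7192) (.p (nat_lit 142) (nat_lit 1824) (.n (nat_lit 143) (nat_lit 5152) (.n (nat_lit 144) (nat_lit 3136) (.p (nat_lit 145) (nat_lit 7480) (.n (nat_lit 146) (nat_lit 912) (.n (nat_lit 147) (nat_lit 384) (.n (nat_lit 148) (nat_lit 912) (.n (nat_lit 149) (nat_lit 3632) (.n (nat_lit 150) (nat_lit 2864) (.n (nat_lit 151) (nat_lit 2864) (.n (nat_lit 152) (nat_lit 3960) (.p (nat_lit 153) (nat_lit 4360) (.p (nat_lit 154) (nat_lit 3824) .z))))))))))))))))))))))))) (.ct dA4s_c292 (nat_lit 216) (nat_lit 1) (.s false (nat_lit 1) (nat_lit 24) (nat_lit 2) (nat_lit 1) (nat_lit 2) true (nat_lit 6) true (nat_lit 10) false (nat_lit 1) true (nat_lit 10) true (nat_lit 11) (.e true (nat_lit 216) (nat_lit 43) (nat_lit 6) (nat_lit 6) (.e false (nat_lit 432) (nat_lit 83) (nat_lit 2) (nat_lit 10) (.e false (nat_lit 216) (nat_lit 76) (nat_lit 2) (nat_lit 10) (.e true (nat_lit 216) (nat_lit 80) (nat_lit 2) (nat_lit 10) (.e true (nat_lit 216) (nat_lit 81) (nat_lit 2) (nat_lit 10) (.e false (nat_lit 216) (nat_lit 82) (nat_lit 2) (nat_lit 10) (.e true (nat_lit 216) (nat_lit 85) (nat_lit 2) (nat_lit 10) (.e false (nat_lit 216) (nat_lit 88) (nat_lit 2) (nat_lit 10) (.e false (nat_lit 432) (nat_lit 89) (nat_lit 2) (nat_lit 10) (.e false (nat_lit 216) (nat_lit 97) (nat_lit 1) (nat_lit 11) .nil)))))))))))) .leaf) (nat_lit 24591) (nat_lit 323) (.p (nat_lit 126) (nat_lit 1548) (.n (nat_lit 128) (nat_lit 1548) (.p (nat_lit 129) (nat_lit 1548) (.n (nat_lit 130) (nat_lit 216) (.n (nat_lit 131) (nat_lit 1044) (.n (nat_lit 132) (nat_lit 1476) (.n (nat_lit 133) (nat_lit 1044) (.n (nat_lit 134) (nat_lit 2520) (.p (nat_lit 135) (nat_lit 1260) (.p (nat_lit 136) (nat_lit 7596) (.p (nat_lit 137) (nat_lit 1260) (.n (nat_lit 138) (nat_lit 5076) (.n (nat_lit 141) (nat_lit 12912) (.n (nat_lit 142) (nat_lit 3384) (.p (nat_lit 143) (nat_lit 9528) (.p (nat_lit 144) (nat_lit 5856) (.n (nat_lit 145) (nat_lit 13344) (.p (nat_lit 146) (nat_lit 1692) (.p (nat_lit 147) (nat_lit 468) (.p (nat_lit 148) (nat_lit 1692) (.p (nat_lit 149) (nat_lit 6240) (.p (nat_lit 150) (nat_lit 4980) (.p (nat_lit 151) (nat_lit 4764) (.p (nat_lit 152) (nat_lit 6804) (.n (nat_lit 153) (nat_lit 7692) (.n (nat_lit 154) (nat_lit 6420) (.p (nat_lit 155) (nat_lit 216) .z))))))))))))))))))))))))))) (.ct dA4s_c292 (nat_lit 216) (nat_lit 1) (.s false (nat_lit 1) (nat_lit 24) (nat_lit 2) (nat_lit 2) (nat_lit 1) true (nat_lit 7) true (nat_lit 11) false (nat_lit 1) true (nat_lit 10) true (nat_lit 10) (.e false (nat_lit 216) (nat_lit 51) (nat_lit 5) (nat_lit 7) (.e false (nat_lit 216) (nat_lit 97) (nat_lit 1) (nat_lit 11) (.e true (nat_lit 432) (nat_lit 76) (nat_lit 2) (nat_lit 10) (.e false (nat_lit 216) (nat_lit 80) (nat_lit 2) (nat_lit 10) (.e false (nat_lit 216) (nat_lit 81) (nat_lit 2) (nat_lit 10) (.e true (nat_lit 216) (nat_lit 82) (nat_lit 2) (nat_lit 10) (.e true (nat_lit 216) (nat_lit 83) (nat_lit 2) (nat_lit 10) (.e false (nat_lit 216) (nat_lit 85) (nat_lit 2) (nat_lit 10) (.e true (nat_lit 216) (nat_lit 88) (nat_lit 2) (nat_lit 10) (.e true (nat_lit 432) (nat_lit 89) (nat_lit 2) (nat_lit 10) .nil)))))))))))) .leaf)) (nat_lit 24592) (nat_lit 375) (.p (nat_lit 156) (nat_lit 1296) (.p (nat_lit 157) (nat_lit 1296) (.n (nat_lit 158) (nat_lit 216) (.n (nat_lit 159) (nat_lit 1296) (.p (nat_lit 160) (nat_lit 1080) (.n (nat_lit 161) (nat_lit 540) (.n (nat_lit 163) (nat_lit 540) (.n (nat_lit 164) (nat_lit 216) (.p (nat_lit 165) (nat_lit 756) (.p (nat_lit 166) (nat_lit 756) (.p (nat_lit 167) (nat_lit 216) (.n (nat_lit 168) (nat_lit 108) (.n (nat_lit 169) (nat_lit 648) (.n (nat_lit 171) (nat_lit 216) (.p (nat_lit 172) (nat_lit 216) .z))))))))))))))) (.ct dA4s_c277 (nat_lit 216) (nat_lit 0) (.s false (nat_lit 1) (nat_lit 6) (nat_lit 2) (nat_lit 3) (nat_lit 6) true (nat_lit 0) true (nat_lit 4) true (nat_lit 4) true (nat_lit 8) true (nat_lit 7) (.s false (nat_lit 2) (nat_lit 6) (nat_lit 2) (nat_lit 6) (nat_lit 3) true (nat_lit 3) true (nat_lit 7) true (nat_lit 4) true (nat_lit 8) true (nat_lit 4) (.s false (nat_lit 1) (nat_lit 16) (nat_lit 0) (nat_lit 5) (nat_lit 2) true (nat_lit 6) true (nat_lit 8) true (nat_lit 0) true (nat_lit 10) true (nat_lit 5) (.e true (nat_lit 216) (nat_lit 22) (nat_lit 16) (nat_lit 0) (.e false (nat_lit 216) (nat_lit 26) (nat_lit 16) (nat_lit 0) (.e false (nat_lit 216) (nat_lit 49) (nat_lit 6) (nat_lit 4) (.e true (nat_lit 216) (nat_lit 50) (nat_lit 6) (nat_lit 4) (.e false (nat_lit 216) (nat_lit 51) (nat_lit 6) (nat_lit 4) (.e true (nat_lit 216) (nat_lit 53) (nat_lit 6) (nat_lit 4) (.e true (nat_lit 432) (nat_lit 103) (nat_lit 2) (nat_lit 8) (.e true (nat_lit 216) (nat_lit 70) (nat_lit 4) (nat_lit 6) (.e true (nat_lit 216) (nat_lit 71) (nat_lit 4) (nat_lit 6) (.e false (nat_lit 216) (nat_lit 109) (nat_lit 2) (nat_lit 8) (.e false (nat_lit 216) (nat_lit 125) (nat_lit 0) (nat_lit 10) (.e false (nat_lit 216) (nat_lit 67) (nat_lit 5) (nat_lit 5) .nil)))))))))))))))) (.nd (.nd (.nd .leaf (nat_lit 25601) (nat_lit 49) (.p (nat_lit 44) (nat_lit 216) .z) .df .leaf) (nat_lit 25602) (nat_lit 66) (.p (nat_lit 52) (nat_lit 216) .z) .df .leaf) (nat_lit 25605) (nat_lit 142) (.n (nat_lit 74) (nat_lit 216) (.n (nat_lit 77) (nat_lit 216) (.n (nat_lit 80) (nat_lit 216) (.n (nat_lit 81) (nat_lit 216) (.p (nat_lit 83) (nat_lit 216) (.n (nat_lit 84) (nat_lit 216) (.p (nat_lit 85) (nat_lit 216) (.p (nat_lit 87) (nat_lit 216) (.p (nat_lit 88) (nat_lit 216) (.n (nat_lit 93) (nat_lit 216) .z)))))))))) (.ct dA4s_c291 (nat_lit 216) (nat_lit 4) (.s true (nat_lit 1) (nat_lit 13) (nat_lit 1) (nat_lit 1) (nat_lit 2) true (nat_lit 4) true (nat_lit 7) false (nat_lit 0) true (nat_lit 8) true (nat_lit 8) (.e true (nat_lit 216) (nat_lit 44) (nat_lit 2) (nat_lit 7) (.e true (nat_lit 432) (nat_lit 48) (nat_lit 1) (nat_lit 8) (.e true (nat_lit 432) (nat_lit 49) (nat_lit 1) (nat_lit 8) (.e false (nat_lit 216) (nat_lit 52) (nat_lit 1) (nat_lit 8) (.e true (nat_lit 432) (nat_lit 53) (nat_lit 1) (nat_lit 8) (.e false (nat_lit 216) (nat_lit 56) (nat_lit 1) (nat_lit 8) (.e false (nat_lit 216) (nat_lit 57) (nat_lit 1) (nat_lit 8) (.e false (nat_lit 216) (nat_lit 54) (nat_lit 1) (nat_lit 8) .nil)))))))))) (.nd (.nd .leaf (nat_lit 25606) (nat_lit 172) (.p (nat_lit 107) (nat_lit 216) .z) .df .leaf) (nat_lit 25614) (nat_lit 308) (.p (nat_lit 126) (nat_lit 564) (.n (nat_lit 128) (nat_lit 564) (.p (nat_lit 129) (nat_lit 564) (.n (nat_lit 130) (nat_lit 216) (.n (nat_lit 131) (nat_lit 444) (.n (nat_lit 132) (nat_lit 732) (.n (nat_lit 133) (nat_lit 444) (.n (nat_lit 134) (nat_lit 1176) (.p (nat_lit 135) (nat_lit 588) (.p (nat_lit 136) (nat_lit 3156) (.p (nat_lit 137) (nat_lit 588) (.n (nat_lit 138) (nat_lit 1980) (.n (nat_lit 141) (nat_lit 5608) (.n (nat_lit 142) (nat_lit 1392) (.p (nat_lit 143) (nat_lit 4216) (.p (nat_lit 144) (nat_lit 2632) (.n (nat_lit 145) (nat_lit 5896) (.p (nat_lit 146) (nat_lit 696) (.p (nat_lit 147) (nat_lit 384) (.p (nat_lit 148) (nat_lit 696) (.p (nat_lit 149) (nat_lit 2408) (.p (nat_lit 150) (nat_lit 2072) (.p (nat_lit 151) (nat_lit 1856) (.p (nat_lit 152) (nat_lit 2880) (.n (nat_lit 153) (nat_lit 3208) (.n (nat_lit 154) (nat_lit 3032) (.p (nat_lit 155) (nat_lit 216) .z))))))))))))))))))))))))))) (.ct dA4s_c292 (nat_lit 216) (nat_lit 1) (.s true (nat_lit 1) (nat_lit 25) (nat_lit 1) (nat_lit 2) (nat_lit 2) true (nat_lit 7) true (nat_lit 10) false (nat_lit 1) true (nat_lit 11) true (nat_lit 10) (.e true (nat_lit 216) (nat_lit 52) (nat_lit 5) (nat_lit 7) (.e true (nat_lit 216) (nat_lit 77) (nat_lit 2) (nat_lit 10) (.e false (nat_lit 216) (nat_lit 107) (nat_lit 1) (nat_lit 11) (.e false (nat_lit 216) (nat_lit 74) (nat_lit 2) (nat_lit 10) (.e true (nat_lit 216) (nat_lit 80) (nat_lit 2) (nat_lit 10) (.e true (nat_lit 216) (nat_lit 81) (nat_lit 2) (nat_lit 10) (.e true (nat_lit 216) (nat_lit 83) (nat_lit 2) (nat_lit 10) (.e true (nat_lit 216) (nat_lit 84) (nat_lit 2) (nat_lit 10) (.e false (nat_lit 216) (nat_lit 93) (nat_lit 2) (nat_lit 10) .nil))))))))))) .leaf)))) (nat_lit 25616) (nat_lit 394) (.n (nat_lit 156) (nat_lit 1080) (.n (nat_lit 157) (nat_lit 1080) (.p (nat_lit 159) (nat_lit 864) (.n (nat_lit 160) (nat_lit 1080) (.p (nat_lit 161) (nat_lit 540) (.p (nat_lit 162) (nat_lit 432) (.p (nat_lit 163) (nat_lit 540) (.p (nat_lit 164) (nat_lit 324) (.n (nat_lit 165) (nat_lit 216) (.n (nat_lit 166) (nat_lit 216) (.n (nat_lit 167) (nat_lit 216) (.n (nat_lit 168) (nat_lit 216) (.n (nat_lit 169) (nat_lit 216) (.p (nat_lit 173) (nat_lit 216) .z)))))))))))))) (.ct dA4s_c277 (nat_lit 216) (nat_lit 0) (.s false (nat_lit 1) (nat_lit 25) (nat_lit 2) (nat_lit 2) (nat_lit 2) true (nat_lit 4) true (nat_lit 8) false (nat_lit 0) true (nat_lit 8) true (nat_lit 8) (.e false (nat_lit 216) (nat_lit 52) (nat_lit 6) (nat_lit 4) (.e true (nat_lit 216) (nat_lit 107) (nat_lit 2) (nat_lit 8) .nil)))) (.nd (.nd (.nd (.nd (.nd .leaf (nat_lit 26625) (nat_lit 50) (.p (nat_lit 45) (nat_lit 216) .z) .df .leaf) (nat_lit 26626) (nat_lit 67) (.p (nat_lit 53) (nat_lit 216) .z) .df (.nd .leaf (nat_lit 26629) (nat_lit 130) (.p (nat_lit 73) (nat_lit 540) (.n (nat_lit 76) (nat_lit 540) (.p (nat_lit 78) (nat_lit 324) (.p (nat_lit 80) (nat_lit 324) (.n (nat_lit 81) (nat_lit 756) (.p (nat_lit 82) (nat_lit 108) (.n (nat_lit 83) (nat_lit 1080) (.p (nat_lit 84) (nat_lit 216) (.p (nat_lit 85) (nat_lit 540) (.p (nat_lit 86) (nat_lit 108) (.p (nat_lit 87) (nat_lit 324) (.p (nat_lit 88) (nat_lit 216) (.n (nat_lit 89) (nat_lit 432) (.p (nat_lit 90) (nat_lit 540) .z)))))))))))))) (.ct dA4s_c291 (nat_lit 216) (nat_lit 4) (.s false (nat_lit 1) (nat_lit 6) (nat_lit 4) (nat_lit 1) (nat_lit 1) true (nat_lit 1) true (nat_lit 8) true (nat_lit 3) true (nat_lit 5) true (nat_lit 8) (.s true (nat_lit 1) (nat_lit 6) (nat_lit 5) (nat_lit 0) (nat_lit 1) true (nat_lit 0) true (nat_lit 8) true (nat_lit 3) true (nat_lit 4) true (nat_lit 9) (.s true (nat_lit 1) (nat_lit 12) (nat_lit 1) (nat_lit 1) (nat_lit 2) true (nat_lit 4) true (nat_lit 7) false (nat_lit 0) true (nat_lit 8) true (nat_lit 8) (.s false (nat_lit 1) (nat_lit 13) (nat_lit 1) (nat_lit 1) (nat_lit 2) true (nat_lit 4) true (nat_lit 7) false (nat_lit 0) true (nat_lit 8) true (nat_lit 8) (.s false (nat_lit 1) (nat_lit 13) (nat_lit 2) (nat_lit 1) (nat_lit 1) true (nat_lit 4) true (nat_lit 8) false (nat_lit 0) true (nat_lit 7) true (nat_lit 8) (.s false (nat_lit 1) (nat_lit 15) (nat_lit 0) (nat_lit 2) (nat_lit 1) true (nat_lit 6) true (nat_lit 8) false (nat_lit 1) true (nat_lit 9) true (nat_lit 7) (.e true (nat_lit 432) (nat_lit 55) (nat_lit 1) (nat_lit 8) (.e false (nat_lit 216) (nat_lit 19) (nat_lit 6) (nat_lit 3) (.e false (nat_lit 432) (nat_lit 49) (nat_lit 1) (nat_lit 8) (.e false (nat_lit 216) (nat_lit 53) (nat_lit 1) (nat_lit 8) (.e true (nat_lit 648) (nat_lit 57) (nat_lit 1) (nat_lit 8) (.e true (nat_lit 216) (nat_lit 20) (nat_lit 6) (nat_lit 3) (.e false (nat_lit 216) (nat_lit 22) (nat_lit 5) (nat_lit 4) (.e true (nat_lit 216) (nat_lit 23) (nat_lit 5) (nat_lit 4) (.e true (nat_lit 216) (nat_lit 43) (nat_lit 2) (nat_lit 7) (.e true (nat_lit 432) (nat_lit 58) (nat_lit 1) (nat_lit 8) (.e false (nat_lit 216) (nat_lit 48) (nat_lit 1) (nat_lit 8) (.e false (nat_lit 216) (nat_lit 44) (nat_lit 2) (nat_lit 7) (.e true (nat_lit 216) (nat_lit 56) (nat_lit 1) (nat_lit 8) (.e false (nat_lit 216) (nat_lit 34) (nat_lit 3) (nat_lit 6) (.e true (nat_lit 216) (nat_lit 47) (nat_lit 2) (nat_lit 7) .nil)))))))))))))))))))))) .leaf)) (nat_lit 26630) (nat_lit 179) (.n (nat_lit 94) (nat_lit 216) (.n (nat_lit 95) (nat_lit 864) (.p (nat_lit 96) (nat_lit 216) (.n (nat_lit 97) (nat_lit 648) (.p (nat_lit 98) (nat_lit 216) (.p (nat_lit 100) (nat_lit 324) (.p (nat_lit 101) (nat_lit 540) (.p (nat_lit 102) (nat_lit 324) (.n (nat_lit 103) (nat_lit 216) (.n (nat_lit 104) (nat_lit 540) (.n (nat_lit 105) (nat_lit 540) (.n (nat_lit 106) (nat_lit 540) (.p (nat_lit 107) (nat_lit 540) (.p (nat_lit 109) (nat_lit 324) .z)))))))))))))) (.ct dA4s_c276 (nat_lit 432) (nat_lit 2) (.s false (nat_lit 1) (nat_lit 6) (nat_lit 0) (nat_lit 6) (nat_lit 1) true (nat_lit 5) true (nat_lit 7) true (nat_lit 2) true (nat_lit 8) true (nat_lit 2) (.s false (nat_lit 2) (nat_lit 6) (nat_lit 1) (nat_lit 0) (nat_lit 6) false (nat_lit 0) true (nat_lit 2) true (nat_lit 2) true (nat_lit 7) true (nat_lit 8) (.s false (nat_lit 1) (nat_lit 6) (nat_lit 2) (nat_lit 2) (nat_lit 3) true (nat_lit 1) true (nat_lit 5) true (nat_lit 2) true (nat_lit 6) true (nat_lit 6) (.s true (nat_lit 2) (nat_lit 6) (nat_lit 4) (nat_lit 2) (nat_lit 1) true (nat_lit 1) true (nat_lit 7) true (nat_lit 2) true (nat_lit 4) true (nat_lit 6) (.s true (nat_lit 2) (nat_lit 15) (nat_lit 2) (nat_lit 2) (nat_lit 0) true (nat_lit 4) true (nat_lit 8) false (nat_lit 0) true (nat_lit 6) true (nat_lit 6) (.s false (nat_lit 1) (nat_lit 16) (nat_lit 0) (nat_lit 1) (nat_lit 2) true (nat_lit 4) true (nat_lit 6) false (nat_lit 1) true (nat_lit 8) true (nat_lit 7) (.s false (nat_lit 1) (nat_lit 16) (nat_lit 1) (nat_lit 2) (nat_lit 0) true (nat_lit 5) true (nat_lit 8) false (nat_lit 1) true (nat_lit 7) true (nat_lit 6) (.s true (nat_lit 2) (nat_lit 16) (nat_lit 2) (nat_lit 0) (nat_lit 1) true (nat_lit 3) true (nat_lit 7) false (nat_lit 1) true (nat_lit 6) true (nat_lit 8) (.s false (nat_lit 1) (nat_lit 16) (nat_lit 2) (nat_lit 1) (nat_lit 0) true (nat_lit 4) true (nat_lit 8) false (nat_lit 1) true (nat_lit 6) true (nat_lit 7) (.e false (nat_lit 864) (nat_lit 70) (nat_lit 0) (nat_lit 8) (.e true (nat_lit 432) (nat_lit 21) (nat_lit 6) (nat_lit 2) (.e false (nat_lit 864) (nat_lit 57) (nat_lit 2) (nat_lit 6) (.e true (nat_lit 864) (nat_lit 49) (nat_lit 2) (nat_lit 6) (.e false (nat_lit 864) (nat_lit 50) (nat_lit 2) (nat_lit 6) (.e false (nat_lit 432) (nat_lit 35) (nat_lit 4) (nat_lit 4) (.e false (nat_lit 432) (nat_lit 52) (nat_lit 2) (nat_lit 6) (.e true (nat_lit 864) (nat_lit 48) (nat_lit 2) (nat_lit 6) (.e true (nat_lit 432) (nat_lit 67) (nat_lit 1) (nat_lit 7) (.e false (nat_lit 432) (nat_lit 32) (nat_lit 5) (nat_lit 3) .nil)))))))))))))))))))) (.nd (.nd .leaf (nat_lit 26638) (nat_lit 303) (.n (nat_lit 126) (nat_lit 552) (.p (nat_lit 128) (nat_lit 552) (.n (nat_lit 129) (nat_lit 768) (.p (nat_lit 131) (nat_lit 384) (.p (nat_lit 132) (nat_lit 528) (.p (nat_lit 133) (nat_lit 384) (.p (nat_lit 134) (nat_lit 912) (.n (nat_lit 135) (nat_lit 456) (.n (nat_lit 136) (nat_lit 2712) (.n (nat_lit 137) (nat_lit 456) (.p (nat_lit 138) (nat_lit 1800) (.p (nat_lit 141) (nat_lit 5360) (.p (nat_lit 142) (nat_lit 1128) (.n (nat_lit 143) (nat_lit 4232) (.n (nat_lit 144) (nat_lit 2360) (.p (nat_lit 145) (nat_lit 5720) (.n (nat_lit 146) (nat_lit 564) (.n (nat_lit 147) (nat_lit 84) (.n (nat_lit 148) (nat_lit 564) (.n (nat_lit 149) (nat_lit 2968) (.n (nat_lit 150) (nat_lit 2476) (.n (nat_lit 151) (nat_lit 2476) (.n (nat_lit 152) (nat_lit 3276) (.p (nat_lit 153) (nat_lit 3620) (.p (nat_lit 154) (nat_lit 3172) .z))))))))))))))))))))))))) (.ct dA4s_c292 (nat_lit 216) (nat_lit 1) (.s false (nat_lit 1) (nat_lit 26) (nat_lit 2) (nat_lit 1) (nat_lit 2) true (nat_lit 6) true (nat_lit 10) false (nat_lit 1) true (nat_lit 10) true (nat_lit 11) (.e true (nat_lit 216) (nat_lit 45) (nat_lit 6) (nat_lit 6) (.e true (nat_lit 540) (nat_lit 73) (nat_lit 2) (nat_lit 10) (.e false (nat_lit 540) (nat_lit 76) (nat_lit 2) (nat_lit 10) (.e true (nat_lit 324) (nat_lit 78) (nat_lit 2) (nat_lit 10) (.e true (nat_lit 324) (nat_lit 80) (nat_lit 2) (nat_lit 10) (.e false (nat_lit 756) (nat_lit 81) (nat_lit 2) (nat_lit 10) (.e true (nat_lit 108) (nat_lit 82) (nat_lit 2) (nat_lit 10) (.e false (nat_lit 1080) (nat_lit 83) (nat_lit 2) (nat_lit 10) (.e true (nat_lit 540) (nat_lit 85) (nat_lit 2) (nat_lit 10) (.e true (nat_lit 108) (nat_lit 86) (nat_lit 2) (nat_lit 10) (.e true (nat_lit 324) (nat_lit 87) (nat_lit 2) (nat_lit 10) (.e true (nat_lit 216) (nat_lit 88) (nat_lit 2) (nat_lit 10) (.e false (nat_lit 432) (nat_lit 89) (nat_lit 2) (nat_lit 10) (.e true (nat_lit 540) (nat_lit 90) (nat_lit 2) (nat_lit 10) (.e false (nat_lit 216) (nat_lit 99) (nat_lit 1) (nat_lit 11) .nil))))))))))))))))) .leaf) (nat_lit 26639) (nat_lit 306) (.p (nat_lit 126) (nat_lit 1752) (.n (nat_lit 128) (nat_lit 1320) (.p (nat_lit 129) (nat_lit 1320) (.n (nat_lit 130) (nat_lit 216) (.n (nat_lit 131) (nat_lit 768) (.n (nat_lit 132) (nat_lit 1488) (.n (nat_lit 133) (nat_lit 768) (.n (nat_lit 134) (nat_lit 2256) (.p (nat_lit 135) (nat_lit 1128) (.p (nat_lit 136) (nat_lit 6288) (.p (nat_lit 137) (nat_lit 1128) (.n (nat_lit 138) (nat_lit 4032) (.n (nat_lit 141) (nat_lit 11512) (.n (nat_lit 142) (nat_lit 3120) (.p (nat_lit 143) (nat_lit 8392) (.p (nat_lit 144) (nat_lit 5080) (.n (nat_lit 145) (nat_lit 11800) (.p (nat_lit 146) (nat_lit 1560) (.p (nat_lit 147) (nat_lit 816) (.p (nat_lit 148) (nat_lit 1560) (.p (nat_lit 149) (nat_lit 5576) (.p (nat_lit 150) (nat_lit 4592) (.p (nat_lit 151) (nat_lit 4376) (.p (nat_lit 152) (nat_lit 5904) (.n (nat_lit 153) (nat_lit 6952) (.n (nat_lit 154) (nat_lit 6200) (.p (nat_lit 155) (nat_lit 216) .z))))))))))))))))))))))))))) (.ct dA4s_c292 (nat_lit 216) (nat_lit 1) (.s false (nat_lit 1) (nat_lit 26) (nat_lit 2) (nat_lit 2) (nat_lit 1) true (nat_lit 7) true (nat_lit 11) false (nat_lit 1) true (nat_lit 10) true (nat_lit 10) (.e false (nat_lit 216) (nat_lit 53) (nat_lit 5) (nat_lit 7) (.e false (nat_lit 216) (nat_lit 99) (nat_lit 1) (nat_lit 11) (.e false (nat_lit 540) (nat_lit 73) (nat_lit 2) (nat_lit 10) (.e true (nat_lit 540) (nat_lit 76) (nat_lit 2) (nat_lit 10) (.e false (nat_lit 108) (nat_lit 78) (nat_lit 2) (nat_lit 10) (.e false (nat_lit 324) (nat_lit 80) (nat_lit 2) (nat_lit 10) (.e true (nat_lit 756) (nat_lit 81) (nat_lit 2) (nat_lit 10) (.e false (nat_lit 108) (nat_lit 82) (nat_lit 2) (nat_lit 10) (.e true (nat_lit 1080) (nat_lit 83) (nat_lit 2) (nat_lit 10) (.e false (nat_lit 216) (nat_lit 84) (nat_lit 2) (nat_lit 10) (.e false (nat_lit 540) (nat_lit 85) (nat_lit 2) (nat_lit 10) (.e false (nat_lit 108) (nat_lit 86) (nat_lit 2) (nat_lit 10) (.e false (nat_lit 324) (nat_lit 87) (nat_lit 2) (nat_lit 10) (.e false (nat_lit 216) (nat_lit 88) (nat_lit 2) (nat_lit 10) (.e true (nat_lit 432) (nat_lit 89) (nat_lit 2) (nat_lit 10) (.e false (nat_lit 540) (nat_lit 90) (nat_lit 2) (nat_lit 10) .nil)))))))))))))))))) .leaf)) (nat_lit 26640) (nat_lit 370) (.p (nat_lit 156) (nat_lit 108) (.p (nat_lit 157) (nat_lit 108) (.n (nat_lit 158) (nat_lit 216) (.n (nat_lit 159) (nat_lit 432) (.n (nat_lit 160) (nat_lit 108) (.p (nat_lit 161) (nat_lit 54) (.p (nat_lit 162) (nat_lit 432) (.p (nat_lit 163) (nat_lit 54) (.p (nat_lit 164) (nat_lit 486) (.p (nat_lit 165) (nat_lit 648) (.p (nat_lit 166) (nat_lit 648) (.p (nat_lit 167) (nat_lit 108) (.n (nat_lit 168) (nat_lit 432) (.n (nat_lit 169) (nat_lit 756) (.n (nat_lit 171) (nat_lit 216) (.p (nat_lit 173) (nat_lit 216) .z)))))))))))))))) (.ct dA4s_c277 (nat_lit 216) (nat_lit 0) (.s false (nat_lit 1) (nat_lit 26) (nat_lit 2) (nat_lit 2) (nat_lit 2) true (nat_lit 4) true (nat_lit 8) false (nat_lit 0) true (nat_lit 8) true (nat_lit 8) (.e false (nat_lit 216) (nat_lit 53) (nat_lit 6) (nat_lit 4) (.e false (nat_lit 216) (nat_lit 94) (nat_lit 2) (nat_lit 8) (.e false (nat_lit 864) (nat_lit 95) (nat_lit 2) (nat_lit 8) (.e true (nat_lit 216) (nat_lit 96) (nat_lit 2) (nat_lit 8) (.e false (nat_lit 648) (nat_lit 97) (nat_lit 2) (nat_lit 8) (.e true (nat_lit 216) (nat_lit 98) (nat_lit 2) (nat_lit 8) (.e true (nat_lit 324) (nat_lit 100) (nat_lit 2) (nat_lit 8) (.e true (nat_lit 540) (nat_lit 101) (nat_lit 2) (nat_lit 8) (.e true (nat_lit 324) (nat_lit 102) (nat_lit 2) (nat_lit 8) (.e false (nat_lit 216) (nat_lit 103) (nat_lit 2) (nat_lit 8) (.e false (nat_lit 540) (nat_lit 104) (nat_lit 2) (nat_lit 8) (.e false (nat_lit 540) (nat_lit 105) (nat_lit 2) (nat_lit 8) (.e false (nat_lit 540) (nat_lit 106) (nat_lit 2) (nat_lit 8) (.e true (nat_lit 540) (nat_lit 107) (nat_lit 2) (nat_lit 8) (.e true (nat_lit 324) (nat_lit 109) (nat_lit 2) (nat_lit 8) .nil))))))))))))))))) (.nd (.nd (.nd .leaf (nat_lit 27648) (nat_lit 51) (.p (nat_lit 46) (nat_lit 216) .z) .df .leaf) (nat_lit 27650) (nat_lit 82) (.p (nat_lit 59) (nat_lit 216) .z) .df .leaf) (nat_lit 27652) (nat_lit 147) (.p (nat_lit 76) (nat_lit 216) (.n (nat_lit 77) (nat_lit 324) (.n (nat_lit 80) (nat_lit 216) (.p (nat_lit 81) (nat_lit 216) (.p (nat_lit 83) (nat_lit 648) (.n (nat_lit 84) (nat_lit 216) (.n (nat_lit 85) (nat_lit 108) (.p (nat_lit 87) (nat_lit 108) (.p (nat_lit 88) (nat_lit 108) (.p (nat_lit 89) (nat_lit 216) (.n (nat_lit 90) (nat_lit 324) (.n (nat_lit 91) (nat_lit 108) (.n (nat_lit 93) (nat_lit 432) .z))))))))))))) (.ct dA4s_c291 (nat_lit 216) (nat_lit 5) (.s true (nat_lit 1) (nat_lit 5) (nat_lit 1) (nat_lit 2) (nat_lit 4) true (nat_lit 1) true (nat_lit 5) true (nat_lit 4) true (nat_lit 8) true (nat_lit 7) (.s false (nat_lit 1) (nat_lit 9) (nat_lit 2) (nat_lit 1) (nat_lit 2) true (nat_lit 3) true (nat_lit 7) true (nat_lit 1) true (nat_lit 7) true (nat_lit 8) (.e true (nat_lit 216) (nat_lit 21) (nat_lit 5) (nat_lit 4) (.e true (nat_lit 216) (nat_lit 22) (nat_lit 5) (nat_lit 4) (.e false (nat_lit 216) (nat_lit 25) (nat_lit 5) (nat_lit 4) (.e true (nat_lit 216) (nat_lit 26) (nat_lit 5) (nat_lit 4) (.e true (nat_lit 216) (nat_lit 58) (nat_lit 1) (nat_lit 8) (.e false (nat_lit 216) (nat_lit 41) (nat_lit 2) (nat_lit 7) (.e true (nat_lit 216) (nat_lit 19) (nat_lit 6) (nat_lit 3) (.e false (nat_lit 216) (nat_lit 38) (nat_lit 2) (nat_lit 7) (.e true (nat_lit 216) (nat_lit 43) (nat_lit 2) (nat_lit 7) (.e false (nat_lit 216) (nat_lit 49) (nat_lit 1) (nat_lit 8) .nil))))))))))))) (.nd (.nd .leaf (nat_lit 27654) (nat_lit 206) (.p (nat_lit 112) (nat_lit 432) (.p (nat_lit 113) (nat_lit 432) (.p (nat_lit 114) (nat_lit 432) (.n (nat_lit 115) (nat_lit 216) .z)))) (.ct dA4s_c36 (nat_lit 216) (nat_lit 2) (.s false (nat_lit 1) (nat_lit 6) (nat_lit 1) (nat_lit 5) (nat_lit 2) true (nat_lit 3) true (nat_lit 4) true (nat_lit 2) true (nat_lit 5) true (nat_lit 3) (.s true (nat_lit 1) (nat_lit 15) (nat_lit 2) (nat_lit 2) (nat_lit 1) true (nat_lit 3) true (nat_lit 5) true (nat_lit 0) true (nat_lit 4) true (nat_lit 4) (.a true (nat_lit 23328) (nat_lit 15) (nat_lit 15) (nat_lit 0) (nat_lit 0) (.e true (nat_lit 432) (nat_lit 34) (nat_lit 5) (nat_lit 3) (.e false (nat_lit 216) (nat_lit 60) (nat_lit 2) (nat_lit 4) (.e true (nat_lit 216) (nat_lit 71) (nat_lit 1) (nat_lit 5) .nil))))))) .leaf) (nat_lit 27661) (nat_lit 321) (.p (nat_lit 126) (nat_lit 2184) (.n (nat_lit 128) (nat_lit 1896) (.p (nat_lit 129) (nat_lit 2184) (.n (nat_lit 130) (nat_lit 360) (.n (nat_lit 131) (nat_lit 480) (.n (nat_lit 132) (nat_lit 1632) (.n (nat_lit 133) (nat_lit 1344) (.n (nat_lit 134) (nat_lit 2112) (.p (nat_lit 135) (nat_lit 1056) (.p (nat_lit 136) (nat_lit 8664) (.p (nat_lit 137) (nat_lit 1488) (.n (nat_lit 138) (nat_lit 5976) (.n (nat_lit 141) (nat_lit 13768) (.n (nat_lit 142) (nat_lit 2976) (.p (nat_lit 143) (nat_lit 10792) (.p (nat_lit 144) (nat_lit 5968) (.n (nat_lit 145) (nat_lit 14056) (.p (nat_lit 146) (nat_lit 1920) (.p (nat_lit 147) (nat_lit 456) (.p (nat_lit 148) (nat_lit 1488) (.p (nat_lit 149) (nat_lit 7064) (.p (nat_lit 150) (nat_lit 5864) (.p (nat_lit 151) (nat_lit 5720) (.p (nat_lit 152) (nat_lit 8136) (.n (nat_lit 153) (nat_lit 8992) (.n (nat_lit 154) (nat_lit 7184) (.p (nat_lit 155) (nat_lit 360) .z))))))))))))))))))))))))))) (.ct dA4s_c292 (nat_lit 216) (nat_lit 2) (.s false (nat_lit 1) (nat_lit 13) (nat_lit 1) (nat_lit 6) (nat_lit 1) false (nat_lit 13) true (nat_lit 11) true (nat_lit 2) true (nat_lit 11) true (nat_lit 6) (.s false (nat_lit 1) (nat_lit 13) (nat_lit 2) (nat_lit 1) (nat_lit 5) true (nat_lit 1) true (nat_lit 7) true (nat_lit 2) true (nat_lit 10) true (nat_lit 11) (.s false (nat_lit 1) (nat_lit 13) (nat_lit 2) (nat_lit 5) (nat_lit 1) true (nat_lit 7) true (nat_lit 11) true (nat_lit 2) true (nat_lit 10) true (nat_lit 7) (.e false (nat_lit 216) (nat_lit 107) (nat_lit 1) (nat_lit 11) (.e true (nat_lit 216) (nat_lit 44) (nat_lit 6) (nat_lit 6) (.e true (nat_lit 216) (nat_lit 25) (nat_lit 14) (nat_lit 1) (.e false (nat_lit 216) (nat_lit 54) (nat_lit 5) (nat_lit 7) (.e false (nat_lit 216) (nat_lit 98) (nat_lit 1) (nat_lit 11) (.e false (nat_lit 432) (nat_lit 48) (nat_lit 5) (nat_lit 7) (.e false (nat_lit 432) (nat_lit 49) (nat_lit 5) (nat_lit 7) (.e true (nat_lit 432) (nat_lit 52) (nat_lit 5) (nat_lit 7) (.e false (nat_lit 432) (nat_lit 53) (nat_lit 5) (nat_lit 7) (.e true (nat_lit 216) (nat_lit 56) (nat_lit 5) (nat_lit 7) (.e true (nat_lit 216) (nat_lit 57) (nat_lit 5) (nat_lit 7) (.e true (nat_lit 216) (nat_lit 104) (nat_lit 1) (nat_lit 11) .nil)))))))))))))))) .leaf))) (nat_lit 27664) (nat_lit 416) (.p (nat_lit 177) (nat_lit 1080) (.p (nat_lit 178) (nat_lit 432) (.p (nat_lit 181) (nat_lit 216) (.p (nat_lit 182) (nat_lit 216) .z)))) (.ct dA4s_c37 (nat_lit 216) (nat_lit 0) (.s false (nat_lit 1) (nat_lit 11) (nat_lit 2) (nat_lit 2) (nat_lit 6) true (nat_lit 0) true (nat_lit 3) true (nat_lit 2) true (nat_lit 5) true (nat_lit 5) (.e false (nat_lit 216) (nat_lit 59) (nat_lit 6) (nat_lit 3) (.e true (nat_lit 432) (nat_lit 114) (nat_lit 2) (nat_lit 5) (.e false (nat_lit 216) (nat_lit 115) (nat_lit 2) (nat_lit 5) (.e true (nat_lit 432) (nat_lit 112) (nat_lit 2) (nat_lit 5) (.e true (nat_lit 432) (nat_lit 113) (nat_lit 2) (nat_lit 5) .nil))))))) (.nd (.nd (.nd (.nd .leaf (nat_lit 28672) (nat_lit 56) (.p (nat_lit 37) (nat_lit 432) (.p (nat_lit 39) (nat_lit 432) (.n (nat_lit 40) (nat_lit 432) (.n (nat_lit 41) (nat_lit 648) (.p (nat_lit 42) (nat_lit 216) (.n (nat_lit 43) (nat_lit 216) (.p (nat_lit 44) (nat_lit 432) (.n (nat_lit 45) (nat_lit 216) (.n (nat_lit 46) (nat_lit 216) .z))))))))) (.ct dA4s_c290 (nat_lit 216) (nat_lit 6) (.s false (nat_lit 1) (nat_lit 4) (nat_lit 2) (nat_lit 1) (nat_lit 1) true (nat_lit 1) true (nat_lit 5) true (nat_lit 2) true (nat_lit 4) true (nat_lit 5) (.s false (nat_lit 1) (nat_lit 5) (nat_lit 0) (nat_lit 1) (nat_lit 2) true (nat_lit 2) true (nat_lit 4) true (nat_lit 1) true (nat_lit 6) true (nat_lit 5) (.e true (nat_lit 216) (nat_lit 9) (nat_lit 5) (nat_lit 1) (.e false (nat_lit 216) (nat_lit 24) (nat_lit 1) (nat_lit 5) (.e true (nat_lit 216) (nat_lit 22) (nat_lit 1) (nat_lit 5) (.e false (nat_lit 216) (nat_lit 20) (nat_lit 2) (nat_lit 4) (.e false (nat_lit 216) (nat_lit 8) (nat_lit 5) (nat_lit 1) (.e true (nat_lit 216) (nat_lit 27) (nat_lit 0) (nat_lit 6) (.e false (nat_lit 216) (nat_lit 29) (nat_lit 0) (nat_lit 6) (.e true (nat_lit 216) (nat_lit 26) (nat_lit 1) (nat_lit 5) .nil))))))))))) .leaf) (nat_lit 28674) (nat_lit 89) (.n (nat_lit 59) (nat_lit 216) (.p (nat_lit 62) (nat_lit 216) (.p (nat_lit 63) (nat_lit 216) .z))) (.ct dA4s_c35 (nat_lit 216) (nat_lit 2) (.s true (nat_lit 1) (nat_lit 5) (nat_lit 1) (nat_lit 2) (nat_lit 2) true (nat_lit 1) true (nat_lit 2) true (nat_lit 1) true (nat_lit 3) true (nat_lit 2) (.e true (nat_lit 216) (nat_lit 27) (nat_lit 2) (nat_lit 2) (.e false (nat_lit 216) (nat_lit 34) (nat_lit 1) (nat_lit 3) (.e false (nat_lit 216) (nat_lit 35) (nat_lit 1) (nat_lit 3) .nil))))) (.nd .leaf (nat_lit 28676) (nat_lit 146) (.p (nat_lit 73) (nat_lit 216) (.p (nat_lit 74) (nat_lit 648) (.n (nat_lit 76) (nat_lit 432) (.p (nat_lit 77) (nat_lit 108) (.p (nat_lit 78) (nat_lit 216) (.p (nat_lit 80) (nat_lit 216) (.n (nat_lit 83) (nat_lit 648) (.p (nat_lit 84) (nat_lit 216) (.p (nat_lit 85) (nat_lit 108) (.n (nat_lit 87) (nat_lit 108) (.n (nat_lit 88) (nat_lit 108) (.n (nat_lit 89) (nat_lit 648) (.p (nat_lit 90) (nat_lit 324) (.n (nat_lit 91) (nat_lit 108) (.p (nat_lit 93) (nat_lit 648) .z))))))))))))))) (.ct dA4s_c291 (nat_lit 216) (nat_lit 5) (.s true (nat_lit 1) (nat_lit 5) (nat_lit 1) (nat_lit 4) (nat_lit 2) true (nat_lit 4) true (nat_lit 7) true (nat_lit 4) true (nat_lit 8) true (nat_lit 5) (.e false (nat_lit 216) (nat_lit 21) (nat_lit 5) (nat_lit 4) (.e false (nat_lit 432) (nat_lit 22) (nat_lit 5) (nat_lit 4) (.e true (nat_lit 216) (nat_lit 25) (nat_lit 5) (nat_lit 4) (.e false (nat_lit 216) (nat_lit 26) (nat_lit 5) (nat_lit 4) (.e true (nat_lit 216) (nat_lit 38) (nat_lit 2) (nat_lit 7) (.e false (nat_lit 216) (nat_lit 40) (nat_lit 2) (nat_lit 7) (.e false (nat_lit 432) (nat_lit 41) (nat_lit 2) (nat_lit 7) (.e true (nat_lit 216) (nat_lit 44) (nat_lit 2) (nat_lit 7) (.e false (nat_lit 216) (nat_lit 45) (nat_lit 2) (nat_lit 7) (.e true (nat_lit 216) (nat_lit 58) (nat_lit 1) (nat_lit 8) .nil)))))))))))) .leaf)) (nat_lit 28678) (nat_lit 203) (.p (nat_lit 115) (nat_lit 216) .z) .df (.nd (.nd .leaf (nat_lit 28685) (nat_lit 322) (.p (nat_lit 126) (nat_lit 888) (.n (nat_lit 128) (nat_lit 888) (.p (nat_lit 129) (nat_lit 888) (.n (nat_lit 130) (nat_lit 216) (.n (nat_lit 131) (nat_lit 768) (.n (nat_lit 132) (nat_lit 1056) (.n (nat_lit 133) (nat_lit 768) (.n (nat_lit 134) (nat_lit 1824) (.p (nat_lit 135) (nat_lit 912) (.p (nat_lit 136) (nat_lit 4776) (.p (nat_lit 137) (nat_lit 912) (.n (nat_lit 138) (nat_lit 2952) (.n (nat_lit 141) (nat_lit 7336) (.n (nat_lit 142) (nat_lit 2256) (.p (nat_lit 143) (nat_lit 5080) (.p (nat_lit 144) (nat_lit 3280) (.n (nat_lit 145) (nat_lit 7624) (.p (nat_lit 146) (nat_lit 1128) (.p (nat_lit 147) (nat_lit 168) (.p (nat_lit 148) (nat_lit 1128) (.p (nat_lit 149) (nat_lit 3704) (.p (nat_lit 150) (nat_lit 2720) (.p (nat_lit 151) (nat_lit 2720) (.p (nat_lit 152) (nat_lit 3960) (.n (nat_lit 153) (nat_lit 4288) (.n (nat_lit 154) (nat_lit 3032) (.p (nat_lit 155) (nat_lit 216) .z))))))))))))))))))))))))))) (.ct dA4s_c292 (nat_lit 216) (nat_lit 2) (.s false (nat_lit 1) (nat_lit 13) (nat_lit 1) (nat_lit 6) (nat_lit 1) false (nat_lit 13) true (nat_lit 11) true (nat_lit 2) true (nat_lit 11) true (nat_lit 6) (.s false (nat_lit 1) (nat_lit 13) (nat_lit 2) (nat_lit 1) (nat_lit 5) true (nat_lit 1) true (nat_lit 7) true (nat_lit 2) true (nat_lit 10) true (nat_lit 11) (.e false (nat_lit 216) (nat_lit 103) (nat_lit 1) (nat_lit 11) (.e false (nat_lit 432) (nat_lit 105) (nat_lit 1) (nat_lit 11) (.e false (nat_lit 432) (nat_lit 106) (nat_lit 1) (nat_lit 11) (.e true (nat_lit 216) (nat_lit 44) (nat_lit 6) (nat_lit 6) (.e true (nat_lit 216) (nat_lit 25) (nat_lit 14) (nat_lit 1) (.e false (nat_lit 216) (nat_lit 54) (nat_lit 5) (nat_lit 7) (.e true (nat_lit 216) (nat_lit 27) (nat_lit 13) (nat_lit 2) (.e true (nat_lit 432) (nat_lit 74) (nat_lit 2) (nat_lit 10) (.e true (nat_lit 216) (nat_lit 77) (nat_lit 2) (nat_lit 10) (.e false (nat_lit 432) (nat_lit 83) (nat_lit 2) (nat_lit 10) (.e false (nat_lit 216) (nat_lit 87) (nat_lit 2) (nat_lit 10) (.e false (nat_lit 216) (nat_lit 88) (nat_lit 2) (nat_lit 10) (.e true (nat_lit 432) (nat_lit 93) (nat_lit 2) (nat_lit 10) (.e false (nat_lit 432) (nat_lit 94) (nat_lit 1) (nat_lit 11) (.e false (nat_lit 432) (nat_lit 95) (nat_lit 1) (nat_lit 11) (.e true (nat_lit 216) (nat_lit 98) (nat_lit 1) (nat_lit 11) (.e false (nat_lit 432) (nat_lit 99) (nat_lit 1) (nat_lit 11) (.e true (nat_lit 216) (nat_lit 102) (nat_lit 1) (nat_lit 11) .nil))))))))))))))))))))) .leaf) (nat_lit 29696) (nat_lit 52) (.p (nat_lit 47) (nat_lit 216) .z) .df .leaf)) (nat_lit 29698) (nat_lit 83) (.p (nat_lit 60) (nat_lit 216) .z) .df (.nd (.nd (.nd .leaf (nat_lit 29700) (nat_lit 145) (.p (nat_lit 74) (nat_lit 432) (.p (nat_lit 81) (nat_lit 432) (.n (nat_lit 85) (nat_lit 216) (.n (nat_lit 86) (nat_lit 216) (.n (nat_lit 91) (nat_lit 216) (.p (nat_lit 93) (nat_lit 432) .z)))))) (.ct dA4s_c291 (nat_lit 216) (nat_lit 5) (.s true (nat_lit 1) (nat_lit 5) (nat_lit 1) (nat_lit 2) (nat_lit 4) true (nat_lit 1) true (nat_lit 5) true (nat_lit 4) true (nat_lit 8) true (nat_lit 7) (.s true (nat_lit 1) (nat_lit 5) (nat_lit 1) (nat_lit 4) (nat_lit 2) true (nat_lit 4) true (nat_lit 7) true (nat_lit 4) true (nat_lit 8) true (nat_lit 5) (.s false (nat_lit 1) (nat_lit 5) (nat_lit 4) (nat_lit 1) (nat_lit 2) false (nat_lit 0) true (nat_lit 7) true (nat_lit 4) true (nat_lit 5) true (nat_lit 8) (.s false (nat_lit 1) (nat_lit 9) (nat_lit 2) (nat_lit 1) (nat_lit 2) true (nat_lit 3) true (nat_lit 7) true (nat_lit 1) true (nat_lit 7) true (nat_lit 8) (.s true (nat_lit 1) (nat_lit 12) (nat_lit 1) (nat_lit 2) (nat_lit 1) false (nat_lit 10) true (nat_lit 8) false (nat_lit 0) true (nat_lit 8) true (nat_lit 7) (.e false (nat_lit 432) (nat_lit 22) (nat_lit 5) (nat_lit 4) (.e false (nat_lit 432) (nat_lit 41) (nat_lit 2) (nat_lit 7) (.e false (nat_lit 432) (nat_lit 49) (nat_lit 1) (nat_lit 8) (.e true (nat_lit 216) (nat_lit 54) (nat_lit 1) (nat_lit 8) (.e true (nat_lit 216) (nat_lit 55) (nat_lit 1) (nat_lit 8) (.e true (nat_lit 216) (nat_lit 19) (nat_lit 6) (nat_lit 3) .nil)))))))))))) .leaf) (nat_lit 29702) (nat_lit 213) (.p (nat_lit 111) (nat_lit 216) (.n (nat_lit 113) (nat_lit 864) (.n (nat_lit 114) (nat_lit 648) (.p (nat_lit 115) (nat_lit 216) .z)))) (.ct dA4s_c36 (nat_lit 216) (nat_lit 2) (.s true (nat_lit 1) (nat_lit 6) (nat_lit 1) (nat_lit 1) (nat_lit 6) true (nat_lit 0) true (nat_lit 2) true (nat_lit 2) true (nat_lit 5) true (nat_lit 5) (.a true (nat_lit 23328) (nat_lit 15) (nat_lit 15) (nat_lit 0) (nat_lit 0) (.e false (nat_lit 432) (nat_lit 69) (nat_lit 1) (nat_lit 5) (.e false (nat_lit 432) (nat_lit 70) (nat_lit 1) (nat_lit 5) .nil))))) .leaf) (nat_lit 29709) (nat_lit 334) (.p (nat_lit 126) (nat_lit 1344) (.n (nat_lit 128) (nat_lit 1344) (.p (nat_lit 129) (nat_lit 1344) (.n (nat_lit 130) (nat_lit 432) (.n (nat_lit 131) (nat_lit 1104) (.n (nat_lit 132) (nat_lit 1680) (.n (nat_lit 133) (nat_lit 1104) (.n (nat_lit 134) (nat_lit 2784) (.p (nat_lit 135) (nat_lit 1392) (.p (nat_lit 136) (nat_lit 6960) (.p (nat_lit 137) (nat_lit 1392) (.n (nat_lit 138) (nat_lit 4608) (.n (nat_lit 141) (nat_lit 12656) (.n (nat_lit 142) (nat_lit 3648) (.p (nat_lit 143) (nat_lit 9008) (.p (nat_lit 144) (nat_lit 5840) (.n (nat_lit 145) (nat_lit 13232) (.p (nat_lit 146) (nat_lit 1824) (.p (nat_lit 147) (nat_lit 768) (.p (nat_lit 148) (nat_lit 1824) (.p (nat_lit 149) (nat_lit 5968) (.p (nat_lit 150) (nat_lit 4432) (.p (nat_lit 151) (nat_lit 4432) (.p (nat_lit 152) (nat_lit 6624) (.n (nat_lit 153) (nat_lit 7208) (.n (nat_lit 154) (nat_lit 6352) (.p (nat_lit 155) (nat_lit 432) .z))))))))))))))))))))))))))) (.ct dA4s_c292 (nat_lit 216) (nat_lit 2) (.s false (nat_lit 1) (nat_lit 13) (nat_lit 1) (nat_lit 6) (nat_lit 1) false (nat_lit 13) true (nat_lit 11) true (nat_lit 2) true (nat_lit 11) true (nat_lit 6) (.e false (nat_lit 432) (nat_lit 103) (nat_lit 1) (nat_lit 11) (.e false (nat_lit 432) (nat_lit 105) (nat_lit 1) (nat_lit 11) (.e false (nat_lit 432) (nat_lit 106) (nat_lit 1) (nat_lit 11) (.e true (nat_lit 216) (nat_lit 44) (nat_lit 6) (nat_lit 6) .nil)))))) (.nd (.nd .leaf (nat_lit 30721) (nat_lit 80) (.p (nat_lit 48) (nat_lit 216) (.p (nat_lit 49) (nat_lit 216) (.n (nat_lit 50) (nat_lit 216) (.n (nat_lit 51) (nat_lit 216) (.p (nat_lit 54) (nat_lit 216) (.n (nat_lit 57) (nat_lit 216) (.n (nat_lit 58) (nat_lit 216) .z))))))) (.ct dA4s_c275 (nat_lit 216) (nat_lit 5) (.s true (nat_lit 1) (nat_lit 4) (nat_lit 2) (nat_lit 2) (nat_lit 1) true (nat_lit 1) true (nat_lit 5) true (nat_lit 2) true (nat_lit 4) true (nat_lit 4) (.e true (nat_lit 216) (nat_lit 12) (nat_lit 5) (nat_lit 1) (.e true (nat_lit 216) (nat_lit 15) (nat_lit 4) (nat_lit 2) (.e false (nat_lit 216) (nat_lit 21) (nat_lit 2) (nat_lit 4) (.e false (nat_lit 432) (nat_lit 22) (nat_lit 2) (nat_lit 4) (.e true (nat_lit 216) (nat_lit 25) (nat_lit 2) (nat_lit 4) (.e false (nat_lit 216) (nat_lit 26) (nat_lit 2) (nat_lit 4) .nil)))))))) .leaf) (nat_lit 30722) (nat_lit 91) (.p (nat_lit 64) (nat_lit 216) .z) .df .leaf))))) (nat_lit 30725) (nat_lit 173) (.p (nat_lit 108) (nat_lit 216) .z) .df (.nd (.nd (.nd (.nd (.nd (.nd .leaf (nat_lit 30726) (nat_lit 224) (.p (nat_lit 117) (nat_lit 216) (.p (nat_lit 118) (nat_lit 216) (.p (nat_lit 120) (nat_lit 216) .z))) (.ct dA4s_c261 (nat_lit 216) (nat_lit 1) (.s true (nat_lit 1) (nat_lit 6) (nat_lit 4) (nat_lit 2) (nat_lit 2) true (nat_lit 0) true (nat_lit 3) true (nat_lit 1) true (nat_lit 2) true (nat_lit 3) (.e true (nat_lit 216) (nat_lit 16) (nat_lit 12) (nat_lit 0) (.e false (nat_lit 216) (nat_lit 65) (nat_lit 2) (nat_lit 3) (.e true (nat_lit 216) (nat_lit 67) (nat_lit 2) (nat_lit 3) .nil))))) .leaf) (nat_lit 30734) (nat_lit 353) (.p (nat_lit 174) (nat_lit 216) .z) .df (.nd .leaf (nat_lit 31745) (nat_lit 68) (.p (nat_lit 54) (nat_lit 216) .z) .df .leaf)) (nat_lit 31746) (nat_lit 92) (.p (nat_lit 65) (nat_lit 216) .z) .df (.nd (.nd .leaf (nat_lit 31749) (nat_lit 182) (.n (nat_lit 94) (nat_lit 432) (.n (nat_lit 95) (nat_lit 432) (.p (nat_lit 98) (nat_lit 432) (.n (nat_lit 99) (nat_lit 432) (.p (nat_lit 102) (nat_lit 216) (.n (nat_lit 103) (nat_lit 216) (.n (nat_lit 104) (nat_lit 216) (.n (nat_lit 105) (nat_lit 432) (.n (nat_lit 106) (nat_lit 432) (.p (nat_lit 107) (nat_lit 216) .z)))))))))) (.ct dA4s_c276 (nat_lit 216) (nat_lit 3) (.s true (nat_lit 1) (nat_lit 13) (nat_lit 1) (nat_lit 2) (nat_lit 2) true (nat_lit 3) true (nat_lit 6) true (nat_lit 0) true (nat_lit 7) true (nat_lit 6) (.s true (nat_lit 1) (nat_lit 13) (nat_lit 2) (nat_lit 1) (nat_lit 2) true (nat_lit 2) true (nat_lit 6) true (nat_lit 0) true (nat_lit 6) true (nat_lit 7) (.e true (nat_lit 432) (nat_lit 52) (nat_lit 2) (nat_lit 6) (.e false (nat_lit 216) (nat_lit 65) (nat_lit 1) (nat_lit 7) (.e false (nat_lit 432) (nat_lit 66) (nat_lit 1) (nat_lit 7) (.e true (nat_lit 432) (nat_lit 54) (nat_lit 2) (nat_lit 6) (.e false (nat_lit 216) (nat_lit 25) (nat_lit 6) (nat_lit 2) (.e false (nat_lit 432) (nat_lit 48) (nat_lit 2) (nat_lit 6) (.e false (nat_lit 432) (nat_lit 49) (nat_lit 2) (nat_lit 6) (.e false (nat_lit 432) (nat_lit 53) (nat_lit 2) (nat_lit 6) (.e true (nat_lit 216) (nat_lit 56) (nat_lit 2) (nat_lit 6) (.e true (nat_lit 216) (nat_lit 57) (nat_lit 2) (nat_lit 6) .nil))))))))))))) .leaf) (nat_lit 31750) (nat_lit 217) (.p (nat_lit 119) (nat_lit 216) .z) .df .leaf)) (nat_lit 31755) (nat_lit 331) (.p (nat_lit 135) (nat_lit 216) (.n (nat_lit 141) (nat_lit 432) (.n (nat_lit 142) (nat_lit 432) (.p (nat_lit 144) (nat_lit 432) (.n (nat_lit 145) (nat_lit 432) (.n (nat_lit 146) (nat_lit 216) (.p (nat_lit 148) (nat_lit 216) (.n (nat_lit 149) (nat_lit 216) (.n (nat_lit 150) (nat_lit 216) (.n (nat_lit 151) (nat_lit 432) (.n (nat_lit 152) (nat_lit 432) (.p (nat_lit 153) (nat_lit 216) .z)))))))))))) (.ct dA4s_c292 (nat_lit 216) (nat_lit 3) (.s false (nat_lit 1) (nat_lit 31) (nat_lit 2) (nat_lit 1) (nat_lit 1) true (nat_lit 7) true (nat_lit 11) false (nat_lit 3) true (nat_lit 10) true (nat_lit 11) (.e true (nat_lit 216) (nat_lit 54) (nat_lit 5) (nat_lit 7) (.e false (nat_lit 216) (nat_lit 104) (nat_lit 1) (nat_lit 11) (.e true (nat_lit 216) (nat_lit 100) (nat_lit 1) (nat_lit 11) .nil))))) (.nd (.nd (.nd .leaf (nat_lit 31758) (nat_lit 391) (.p (nat_lit 156) (nat_lit 324) (.p (nat_lit 157) (nat_lit 324) (.n (nat_lit 159) (nat_lit 432) (.p (nat_lit 160) (nat_lit 324) (.n (nat_lit 161) (nat_lit 378) (.n (nat_lit 163) (nat_lit 162) (.n (nat_lit 164) (nat_lit 54) (.p (nat_lit 165) (nat_lit 108) (.p (nat_lit 166) (nat_lit 108) (.p (nat_lit 167) (nat_lit 108) (.p (nat_lit 168) (nat_lit 108) (.p (nat_lit 169) (nat_lit 108) (.p (nat_lit 170) (nat_lit 216) (.p (nat_lit 173) (nat_lit 216) .z)))))))))))))) (.ct dA4s_c277 (nat_lit 216) (nat_lit 1) (.s true (nat_lit 1) (nat_lit 31) (nat_lit 1) (nat_lit 2) (nat_lit 2) true (nat_lit 5) true (nat_lit 8) false (nat_lit 1) true (nat_lit 9) true (nat_lit 8) (.e true (nat_lit 216) (nat_lit 65) (nat_lit 5) (nat_lit 5) (.e true (nat_lit 216) (nat_lit 100) (nat_lit 2) (nat_lit 8) (.e false (nat_lit 216) (nat_lit 119) (nat_lit 1) (nat_lit 9) (.e true (nat_lit 216) (nat_lit 104) (nat_lit 2) (nat_lit 8) .nil)))))) .leaf) (nat_lit 31759) (nat_lit 381) (.p (nat_lit 156) (nat_lit 216) (.p (nat_lit 157) (nat_lit 216) (.p (nat_lit 160) (nat_lit 216) (.n (nat_lit 161) (nat_lit 540) (.n (nat_lit 162) (nat_lit 432) (.n (nat_lit 163) (nat_lit 108) (.n (nat_lit 164) (nat_lit 324) (.n (nat_lit 165) (nat_lit 216) (.n (nat_lit 166) (nat_lit 216) (.n (nat_lit 167) (nat_lit 216) (.p (nat_lit 168) (nat_lit 216) (.p (nat_lit 169) (nat_lit 216) (.p (nat_lit 170) (nat_lit 432) (.p (nat_lit 171) (nat_lit 432) (.n (nat_lit 173) (nat_lit 216) .z))))))))))))))) (.ct dA4s_c277 (nat_lit 216) (nat_lit 1) (.s false (nat_lit 1) (nat_lit 6) (nat_lit 1) (nat_lit 4) (nat_lit 6) true (nat_lit 1) true (nat_lit 4) true (nat_lit 4) true (nat_lit 9) true (nat_lit 6) (.s true (nat_lit 2) (nat_lit 6) (nat_lit 2) (nat_lit 6) (nat_lit 3) true (nat_lit 3) true (nat_lit 7) true (nat_lit 4) true (nat_lit 8) true (nat_lit 4) (.s true (nat_lit 1) (nat_lit 32) (nat_lit 2) (nat_lit 2) (nat_lit 1) true (nat_lit 5) true (nat_lit 9) false (nat_lit 1) true (nat_lit 8) true (nat_lit 8) (.e true (nat_lit 432) (nat_lit 49) (nat_lit 6) (nat_lit 4) (.e false (nat_lit 432) (nat_lit 50) (nat_lit 6) (nat_lit 4) (.e true (nat_lit 216) (nat_lit 54) (nat_lit 6) (nat_lit 4) (.e true (nat_lit 432) (nat_lit 48) (nat_lit 6) (nat_lit 4) (.e false (nat_lit 216) (nat_lit 55) (nat_lit 6) (nat_lit 4) (.e false (nat_lit 432) (nat_lit 117) (nat_lit 1) (nat_lit 9) (.e false (nat_lit 216) (nat_lit 118) (nat_lit 1) (nat_lit 9) (.e false (nat_lit 864) (nat_lit 103) (nat_lit 2) (nat_lit 8) (.e true (nat_lit 216) (nat_lit 66) (nat_lit 5) (nat_lit 5) (.e true (nat_lit 216) (nat_lit 109) (nat_lit 2) (nat_lit 8) (.e false (nat_lit 216) (nat_lit 101) (nat_lit 2) (nat_lit 8) .nil))))))))))))))) .leaf) (nat_lit 32769) (nat_lit 69) (.p (nat_lit 55) (nat_lit 216) .z) .df (.nd (.nd .leaf (nat_lit 32770) (nat_lit 93) (.p (nat_lit 66) (nat_lit 216) .z) .df .leaf) (nat_lit 32773) (nat_lit 174) (.p (nat_lit 109) (nat_lit 216) .z) .df .leaf))) (nat_lit 32774) (nat_lit 219) (.p (nat_lit 117) (nat_lit 432) (.p (nat_lit 118) (nat_lit 432) (.n (nat_lit 119) (nat_lit 216) .z))) (.ct dA4s_c261 (nat_lit 216) (nat_lit 1) (.s false (nat_lit 1) (nat_lit 6) (nat_lit 0) (nat_lit 6) (nat_lit 2) true (nat_lit 2) true (nat_lit 3) true (nat_lit 1) true (nat_lit 4) true (nat_lit 1) (.e false (nat_lit 432) (nat_lit 65) (nat_lit 2) (nat_lit 3) (.e false (nat_lit 432) (nat_lit 66) (nat_lit 2) (nat_lit 3) (.e true (nat_lit 216) (nat_lit 31) (nat_lit 6) (nat_lit 1) .nil))))) (.nd (.nd (.nd (.nd .leaf (nat_lit 32779) (nat_lit 332) (.p (nat_lit 136) (nat_lit 216) (.n (nat_lit 147) (nat_lit 216) (.p (nat_lit 154) (nat_lit 216) .z))) (.ct dA4s_c292 (nat_lit 216) (nat_lit 3) (.s true (nat_lit 1) (nat_lit 32) (nat_lit 1) (nat_lit 2) (nat_lit 1) false (nat_lit 13) true (nat_lit 11) false (nat_lit 3) true (nat_lit 11) true (nat_lit 10) (.e true (nat_lit 216) (nat_lit 101) (nat_lit 1) (nat_lit 11) (.e false (nat_lit 216) (nat_lit 109) (nat_lit 1) (nat_lit 11) (.e false (nat_lit 216) (nat_lit 86) (nat_lit 2) (nat_lit 10) .nil))))) .leaf) (nat_lit 32782) (nat_lit 379) (.n (nat_lit 156) (nat_lit 432) (.n (nat_lit 157) (nat_lit 432) (.p (nat_lit 159) (nat_lit 432) (.n (nat_lit 160) (nat_lit 432) (.p (nat_lit 161) (nat_lit 216) (.p (nat_lit 163) (nat_lit 216) (.n (nat_lit 165) (nat_lit 216) (.n (nat_lit 166) (nat_lit 216) (.n (nat_lit 167) (nat_lit 216) (.n (nat_lit 169) (nat_lit 216) (.p (nat_lit 171) (nat_lit 216) (.n (nat_lit 173) (nat_lit 216) .z)))))))))))) (.ct dA4s_c277 (nat_lit 216) (nat_lit 1) (.s false (nat_lit 1) (nat_lit 32) (nat_lit 2) (nat_lit 1) (nat_lit 2) true (nat_lit 4) true (nat_lit 8) false (nat_lit 1) true (nat_lit 8) true (nat_lit 9) (.e true (nat_lit 216) (nat_lit 55) (nat_lit 6) (nat_lit 4) (.e true (nat_lit 432) (nat_lit 94) (nat_lit 2) (nat_lit 8) (.e true (nat_lit 432) (nat_lit 95) (nat_lit 2) (nat_lit 8) (.e false (nat_lit 432) (nat_lit 98) (nat_lit 2) (nat_lit 8) (.e true (nat_lit 432) (nat_lit 99) (nat_lit 2) (nat_lit 8) (.e false (nat_lit 216) (nat_lit 100) (nat_lit 2) (nat_lit 8) (.e false (nat_lit 216) (nat_lit 102) (nat_lit 2) (nat_lit 8) (.e true (nat_lit 216) (nat_lit 104) (nat_lit 2) (nat_lit 8) (.e true (nat_lit 216) (nat_lit 105) (nat_lit 2) (nat_lit 8) (.e true (nat_lit 216) (nat_lit 106) (nat_lit 2) (nat_lit 8) (.e true (nat_lit 216) (nat_lit 109) (nat_lit 2) (nat_lit 8) (.e false (nat_lit 216) (nat_lit 118) (nat_lit 1) (nat_lit 9) .nil)))))))))))))) (.nd .leaf (nat_lit 32783) (nat_lit 392) (.n (nat_lit 156) (nat_lit 108) (.n (nat_lit 157) (nat_lit 108) (.n (nat_lit 160) (nat_lit 108) (.p (nat_lit 161) (nat_lit 54) (.p (nat_lit 163) (nat_lit 54) (.p (nat_lit 164) (nat_lit 162) (.p (nat_lit 165) (nat_lit 108) (.p (nat_lit 166) (nat_lit 108) (.p (nat_lit 167) (nat_lit 108) (.n (nat_lit 168) (nat_lit 108) (.p (nat_lit 169) (nat_lit 108) (.p (nat_lit 173) (nat_lit 216) .z)))))))))))) (.ct dA4s_c277 (nat_lit 216) (nat_lit 1) (.s false (nat_lit 1) (nat_lit 32) (nat_lit 2) (nat_lit 2) (nat_lit 1) true (nat_lit 5) true (nat_lit 9) false (nat_lit 1) true (nat_lit 8) true (nat_lit 8) (.e false (nat_lit 216) (nat_lit 66) (nat_lit 5) (nat_lit 5) (.e false (nat_lit 216) (nat_lit 118) (nat_lit 1) (nat_lit 9) (.e false (nat_lit 216) (nat_lit 109) (nat_lit 2) (nat_lit 8) (.e true (nat_lit 216) (nat_lit 101) (nat_lit 2) (nat_lit 8) .nil)))))) .leaf)) (nat_lit 33792) (nat_lit 81) (.n (nat_lit 48) (nat_lit 216) (.n (nat_lit 49) (nat_lit 432) (.p (nat_lit 50) (nat_lit 216) (.n (nat_lit 51) (nat_lit 216) (.n (nat_lit 53) (nat_lit 216) (.p (nat_lit 54) (nat_lit 216) (.p (nat_lit 55) (nat_lit 216) (.p (nat_lit 56) (nat_lit 216) (.p (nat_lit 57) (nat_lit 216) (.n (nat_lit 58) (nat_lit 216) .z)))))))))) (.ct dA4s_c275 (nat_lit 216) (nat_lit 6) (.s true (nat_lit 1) (nat_lit 5) (nat_lit 2) (nat_lit 0) (nat_lit 2) true (nat_lit 0) true (nat_lit 4) true (nat_lit 1) true (nat_lit 4) true (nat_lit 6) (.e false (nat_lit 216) (nat_lit 10) (nat_lit 6) (nat_lit 0) (.e true (nat_lit 432) (nat_lit 26) (nat_lit 2) (nat_lit 4) (.e true (nat_lit 216) (nat_lit 12) (nat_lit 5) (nat_lit 1) (.e true (nat_lit 216) (nat_lit 21) (nat_lit 2) (nat_lit 4) (.e true (nat_lit 216) (nat_lit 22) (nat_lit 2) (nat_lit 4) (.e false (nat_lit 216) (nat_lit 25) (nat_lit 2) (nat_lit 4) .nil)))))))) (.nd (.nd .leaf (nat_lit 33793) (nat_lit 84) (.p (nat_lit 61) (nat_lit 216) .z) .df .leaf) (nat_lit 33794) (nat_lit 98) (.p (nat_lit 68) (nat_lit 216) .z) .df .leaf)) (nat_lit 33795) (nat_lit 155) (.n (nat_lit 73) (nat_lit 756) (.p (nat_lit 74) (nat_lit 756) (.n (nat_lit 75) (nat_lit 432) (.p (nat_lit 76) (nat_lit 540) (.n (nat_lit 77) (nat_lit 108) (.n (nat_lit 78) (nat_lit 540) (.p (nat_lit 79) (nat_lit 108) (.n (nat_lit 80) (nat_lit 432) (.p (nat_lit 81) (nat_lit 1836) (.n (nat_lit 82) (nat_lit 648) (.p (nat_lit 83) (nat_lit 1728) (.n (nat_lit 84) (nat_lit 432) (.n (nat_lit 85) (nat_lit 648) (.n (nat_lit 86) (nat_lit 216) (.n (nat_lit 87) (nat_lit 756) (.n (nat_lit 88) (nat_lit 972) (.n (nat_lit 89) (nat_lit 216) (.n (nat_lit 90) (nat_lit 864) (.n (nat_lit 91) (nat_lit 108) (.p (nat_lit 92) (nat_lit 108) (.p (nat_lit 93) (nat_lit 324) .z))))))))))))))))))))) (.ct dA4s_c291 (nat_lit 216) (nat_lit 6) (.s false (nat_lit 1) (nat_lit 14) (nat_lit 1) (nat_lit 2) (nat_lit 0) true (nat_lit 6) true (nat_lit 9) false (nat_lit 1) true (nat_lit 8) true (nat_lit 7) (.e true (nat_lit 216) (nat_lit 59) (nat_lit 0) (nat_lit 9) (.e false (nat_lit 216) (nat_lit 62) (nat_lit 0) (nat_lit 9) (.e false (nat_lit 216) (nat_lit 63) (nat_lit 0) (nat_lit 9) (.e false (nat_lit 216) (nat_lit 14) (nat_lit 10) (nat_lit 1) (.e true (nat_lit 216) (nat_lit 49) (nat_lit 1) (nat_lit 8) (.e true (nat_lit 216) (nat_lit 51) (nat_lit 1) (nat_lit 8) (.e false (nat_lit 216) (nat_lit 54) (nat_lit 1) (nat_lit 8) (.e false (nat_lit 216) (nat_lit 55) (nat_lit 1) (nat_lit 8) (.e true (nat_lit 216) (nat_lit 58) (nat_lit 1) (nat_lit 8) (.e true (nat_lit 216) (nat_lit 45) (nat_lit 2) (nat_lit 7) .nil)))))))))))) (.nd (.nd (.nd .leaf (nat_lit 33796) (nat_lit 191) (.n (nat_lit 94) (nat_lit 216) (.p (nat_lit 95) (nat_lit 216) (.n (nat_lit 96) (nat_lit 216) (.p (nat_lit 97) (nat_lit 432) (.p (nat_lit 98) (nat_lit 216) (.n (nat_lit 99) (nat_lit 432) (.n (nat_lit 100) (nat_lit 108) (.n (nat_lit 101) (nat_lit 324) (.n (nat_lit 102) (nat_lit 108) (.p (nat_lit 104) (nat_lit 324) (.p (nat_lit 105) (nat_lit 324) (.p (nat_lit 106) (nat_lit 324) (.n (nat_lit 107) (nat_lit 324) (.n (nat_lit 108) (nat_lit 216) (.n (nat_lit 109) (nat_lit 324) .z))))))))))))))) (.ct dA4s_c276 (nat_lit 216) (nat_lit 4) (.s true (nat_lit 1) (nat_lit 5) (nat_lit 2) (nat_lit 2) (nat_lit 4) true (nat_lit 0) true (nat_lit 4) true (nat_lit 3) true (nat_lit 6) true (nat_lit 6) (.e true (nat_lit 216) (nat_lit 14) (nat_lit 12) (nat_lit 0) (.e true (nat_lit 216) (nat_lit 31) (nat_lit 5) (nat_lit 3) (.e true (nat_lit 216) (nat_lit 32) (nat_lit 5) (nat_lit 3) (.e true (nat_lit 216) (nat_lit 58) (nat_lit 2) (nat_lit 6) (.e true (nat_lit 216) (nat_lit 48) (nat_lit 2) (nat_lit 6) (.e true (nat_lit 216) (nat_lit 49) (nat_lit 2) (nat_lit 6) (.e false (nat_lit 216) (nat_lit 52) (nat_lit 2) (nat_lit 6) (.e true (nat_lit 216) (nat_lit 53) (nat_lit 2) (nat_lit 6) .nil)))))))))) .leaf) (nat_lit 33797) (nat_lit 211) (.p (nat_lit 111) (nat_lit 108) (.n (nat_lit 112) (nat_lit 108) (.n (nat_lit 113) (nat_lit 324) (.n (nat_lit 114) (nat_lit 324) .z)))) (.ct dA4s_c36 (nat_lit 216) (nat_lit 3) (.s true (nat_lit 1) (nat_lit 5) (nat_lit 2) (nat_lit 2) (nat_lit 5) true (nat_lit 0) true (nat_lit 3) true (nat_lit 3) true (nat_lit 4) true (nat_lit 4) (.a true (nat_lit 23328) (nat_lit 14) (nat_lit 14) (nat_lit 0) (nat_lit 0) (.e true (nat_lit 216) (nat_lit 34) (nat_lit 5) (nat_lit 3) (.e true (nat_lit 216) (nat_lit 35) (nat_lit 5) (nat_lit 3) (.e true (nat_lit 216) (nat_lit 59) (nat_lit 2) (nat_lit 4) (.e false (nat_lit 216) (nat_lit 61) (nat_lit 2) (nat_lit 4) (.e true (nat_lit 216) (nat_lit 62) (nat_lit 2) (nat_lit 4) (.e false (nat_lit 216) (nat_lit 60) (nat_lit 2) (nat_lit 4) .nil))))))))) .leaf) (nat_lit 33798) (nat_lit 235) (.p (nat_lit 122) (nat_lit 216) (.p (nat_lit 123) (nat_lit 216) (.p (nat_lit 125) (nat_lit 216) .z))) (.ct dA4s_c21 (nat_lit 216) (nat_lit 1) (.s true (nat_lit 1) (nat_lit 6) (nat_lit 5) (nat_lit 2) (nat_lit 2) true (nat_lit 0) true (nat_lit 3) true (nat_lit 1) true (nat_lit 2) true (nat_lit 3) (.e true (nat_lit 216) (nat_lit 16) (nat_lit 14) (nat_lit 0) (.e false (nat_lit 216) (nat_lit 69) (nat_lit 2) (nat_lit 3) (.e true (nat_lit 216) (nat_lit 71) (nat_lit 2) (nat_lit 3) .nil))))) (.nd (.nd .leaf (nat_lit 33800) (nat_lit 319) (.p (nat_lit 126) (nat_lit 888) (.n (nat_lit 128) (nat_lit 672) (.p (nat_lit 129) (nat_lit 672) (.n (nat_lit 131) (nat_lit 120) (.n (nat_lit 132) (nat_lit 408) (.n (nat_lit 133) (nat_lit 336) (.n (nat_lit 134) (nat_lit 744) (.p (nat_lit 135) (nat_lit 372) (.p (nat_lit 136) (nat_lit 2076) (.p (nat_lit 137) (nat_lit 372) (.n (nat_lit 138) (nat_lit 1332) (.n (nat_lit 139) (nat_lit 108) (.p (nat_lit 140) (nat_lit 108) (.n (nat_lit 141) (nat_lit 4456) (.n (nat_lit 142) (nat_lit 744) (.p (nat_lit 143) (nat_lit 3928) (.p (nat_lit 144) (nat_lit 1912) (.n (nat_lit 145) (nat_lit 4528) (.p (nat_lit 146) (nat_lit 372) (.p (nat_lit 147) (nat_lit 276) (.p (nat_lit 148) (nat_lit 372) (.p (nat_lit 149) (nat_lit 2372) (.p (nat_lit 150) (nat_lit 2144) (.p (nat_lit 151) (nat_lit 2144) (.p (nat_lit 152) (nat_lit 2556) (.n (nat_lit 153) (nat_lit 3136) (.n (nat_lit 154) (nat_lit 2996) .z))))))))))))))))))))))))))) (.ct dA4s_c292 (nat_lit 216) (nat_lit 4) (.s false (nat_lit 1) (nat_lit 8) (nat_lit 5) (nat_lit 2) (nat_lit 2) true (nat_lit 1) true (nat_lit 10) true (nat_lit 4) true (nat_lit 7) true (nat_lit 10) (.e false (nat_lit 216) (nat_lit 21) (nat_lit 14) (nat_lit 1) (.e false (nat_lit 648) (nat_lit 73) (nat_lit 2) (nat_lit 10) (.e false (nat_lit 108) (nat_lit 74) (nat_lit 2) (nat_lit 10) (.e true (nat_lit 108) (nat_lit 75) (nat_lit 2) (nat_lit 10) (.e true (nat_lit 1188) (nat_lit 81) (nat_lit 2) (nat_lit 10) (.e false (nat_lit 324) (nat_lit 82) (nat_lit 2) (nat_lit 10) (.e true (nat_lit 1188) (nat_lit 83) (nat_lit 2) (nat_lit 10) (.e false (nat_lit 324) (nat_lit 84) (nat_lit 2) (nat_lit 10) (.e false (nat_lit 432) (nat_lit 85) (nat_lit 2) (nat_lit 10) (.e false (nat_lit 324) (nat_lit 86) (nat_lit 2) (nat_lit 10) (.e false (nat_lit 432) (nat_lit 87) (nat_lit 2) (nat_lit 10) (.e false (nat_lit 540) (nat_lit 88) (nat_lit 2) (nat_lit 10) (.e false (nat_lit 540) (nat_lit 90) (nat_lit 2) (nat_lit 10) (.e true (nat_lit 324) (nat_lit 76) (nat_lit 2) (nat_lit 10) (.e false (nat_lit 324) (nat_lit 78) (nat_lit 2) (nat_lit 10) (.e true (nat_lit 108) (nat_lit 91) (nat_lit 2) (nat_lit 10) (.e false (nat_lit 108) (nat_lit 92) (nat_lit 2) (nat_lit 10) (.e true (nat_lit 216) (nat_lit 57) (nat_lit 5) (nat_lit 7) (.e false (nat_lit 216) (nat_lit 80) (nat_lit 2) (nat_lit 10) .nil))))))))))))))))))))) .leaf) (nat_lit 33801) (nat_lit 324) (.p (nat_lit 126) (nat_lit 522) (.p (nat_lit 127) (nat_lit 216) (.n (nat_lit 128) (nat_lit 306) (.p (nat_lit 129) (nat_lit 522) (.n (nat_lit 130) (nat_lit 108) (.n (nat_lit 131) (nat_lit 126) (.n (nat_lit 132) (nat_lit 342) (.n (nat_lit 133) (nat_lit 126) (.n (nat_lit 134) (nat_lit 684) (.p (nat_lit 135) (nat_lit 342) (.p (nat_lit 136) (nat_lit 2250) (.p (nat_lit 137) (nat_lit 342) (.n (nat_lit 138) (nat_lit 1674) (.n (nat_lit 139) (nat_lit 108) (.n (nat_lit 141) (nat_lit 5388) (.n (nat_lit 142) (nat_lit 2736) (.p (nat_lit 143) (nat_lit 2436) (.p (nat_lit 144) (nat_lit 3192) (.n (nat_lit 145) (nat_lit 5820) (.p (nat_lit 146) (nat_lit 1260) (.p (nat_lit 147) (nat_lit 792) (.p (nat_lit 148) (nat_lit 1260) (.p (nat_lit 149) (nat_lit 1884) (.p (nat_lit 150) (nat_lit 948) (.p (nat_lit 151) (nat_lit 840) (.p (nat_lit 152) (nat_lit 1728) (.n (nat_lit 153) (nat_lit 2328) (.n (nat_lit 154) (nat_lit 2388) (.p (nat_lit 155) (nat_lit 108) .z))))))))))))))))))))))))))))) (.ct dA4s_c292 (nat_lit 216) (nat_lit 4) (.s false (nat_lit 1) (nat_lit 9) (nat_lit 2) (nat_lit 5) (nat_lit 2) true (nat_lit 6) true (nat_lit 10) true (nat_lit 4) true (nat_lit 10) true (nat_lit 7) (.e true (nat_lit 216) (nat_lit 38) (nat_lit 6) (nat_lit 6) (.e false (nat_lit 216) (nat_lit 40) (nat_lit 6) (nat_lit 6) (.e false (nat_lit 216) (nat_lit 41) (nat_lit 6) (nat_lit 6) (.e false (nat_lit 216) (nat_lit 43) (nat_lit 6) (nat_lit 6) (.e true (nat_lit 216) (nat_lit 44) (nat_lit 6) (nat_lit 6) (.e false (nat_lit 216) (nat_lit 45) (nat_lit 6) (nat_lit 6) (.e false (nat_lit 216) (nat_lit 93) (nat_lit 2) (nat_lit 10) (.e false (nat_lit 108) (nat_lit 73) (nat_lit 2) (nat_lit 10) (.e false (nat_lit 108) (nat_lit 76) (nat_lit 2) (nat_lit 10) (.e true (nat_lit 108) (nat_lit 77) (nat_lit 2) (nat_lit 10) (.e false (nat_lit 108) (nat_lit 78) (nat_lit 2) (nat_lit 10) (.e true (nat_lit 108) (nat_lit 80) (nat_lit 2) (nat_lit 10) (.e true (nat_lit 324) (nat_lit 81) (nat_lit 2) (nat_lit 10) (.e false (nat_lit 108) (nat_lit 82) (nat_lit 2) (nat_lit 10) (.e false (nat_lit 108) (nat_lit 86) (nat_lit 2) (nat_lit 10) (.e false (nat_lit 108) (nat_lit 88) (nat_lit 2) (nat_lit 10) (.e false (nat_lit 108) (nat_lit 91) (nat_lit 2) (nat_lit 10) (.e true (nat_lit 216) (nat_lit 49) (nat_lit 5) (nat_lit 7) .nil)))))))))))))))))))) .leaf)))) (nat_lit 33804) (nat_lit 384) (.p (nat_lit 156) (nat_lit 162) (.p (nat_lit 157) (nat_lit 162) (.p (nat_lit 158) (nat_lit 216) (.n (nat_lit 159) (nat_lit 108) (.p (nat_lit 160) (nat_lit 378) (.n (nat_lit 161) (nat_lit 405) (.n (nat_lit 162) (nat_lit 486) (.n (nat_lit 163) (nat_lit 189) (.n (nat_lit 164) (nat_lit 81) (.n (nat_lit 165) (nat_lit 216) (.n (nat_lit 166) (nat_lit 108) (.p (nat_lit 167) (nat_lit 324) (.p (nat_lit 168) (nat_lit 216) (.p (nat_lit 169) (nat_lit 648) (.p (nat_lit 170) (nat_lit 216) (.p (nat_lit 171) (nat_lit 216) (.n (nat_lit 174) (nat_lit 216) .z))))))))))))))))) (.ct dA4s_c277 (nat_lit 216) (nat_lit 2) (.s true (nat_lit 1) (nat_lit 12) (nat_lit 5) (nat_lit 2) (nat_lit 2) true (nat_lit 1) true (nat_lit 8) true (nat_lit 2) true (nat_lit 5) true (nat_lit 8) (.e true (nat_lit 216) (nat_lit 30) (nat_lit 14) (nat_lit 1) (.e true (nat_lit 108) (nat_lit 94) (nat_lit 2) (nat_lit 8) (.e true (nat_lit 108) (nat_lit 95) (nat_lit 2) (nat_lit 8) (.e false (nat_lit 108) (nat_lit 98) (nat_lit 2) (nat_lit 8) (.e true (nat_lit 108) (nat_lit 99) (nat_lit 2) (nat_lit 8) (.e true (nat_lit 54) (nat_lit 100) (nat_lit 2) (nat_lit 8) (.e true (nat_lit 54) (nat_lit 101) (nat_lit 2) (nat_lit 8) (.e false (nat_lit 54) (nat_lit 102) (nat_lit 2) (nat_lit 8) (.e true (nat_lit 54) (nat_lit 104) (nat_lit 2) (nat_lit 8) (.e true (nat_lit 54) (nat_lit 105) (nat_lit 2) (nat_lit 8) (.e true (nat_lit 54) (nat_lit 106) (nat_lit 2) (nat_lit 8) (.e false (nat_lit 54) (nat_lit 107) (nat_lit 2) (nat_lit 8) (.e false (nat_lit 54) (nat_lit 109) (nat_lit 2) (nat_lit 8) (.e false (nat_lit 216) (nat_lit 65) (nat_lit 5) (nat_lit 5) (.e true (nat_lit 216) (nat_lit 67) (nat_lit 5) (nat_lit 5) (.e false (nat_lit 216) (nat_lit 108) (nat_lit 2) (nat_lit 8) .nil)))))))))))))))))) (.nd (.nd (.nd (.nd (.nd .leaf (nat_lit 33805) (nat_lit 388) (.n (nat_lit 156) (nat_lit 108) (.n (nat_lit 157) (nat_lit 108) (.p (nat_lit 159) (nat_lit 216) (.n (nat_lit 160) (nat_lit 108) (.n (nat_lit 161) (nat_lit 162) (.n (nat_lit 162) (nat_lit 432) (.p (nat_lit 163) (nat_lit 54) (.p (nat_lit 164) (nat_lit 162) (.n (nat_lit 165) (nat_lit 108) (.p (nat_lit 166) (nat_lit 108) (.p (nat_lit 167) (nat_lit 108) (.n (nat_lit 168) (nat_lit 108) (.p (nat_lit 169) (nat_lit 108) (.p (nat_lit 170) (nat_lit 216) (.p (nat_lit 171) (nat_lit 432) (.n (nat_lit 173) (nat_lit 216) .z)))))))))))))))) (.ct dA4s_c277 (nat_lit 216) (nat_lit 2) (.s true (nat_lit 1) (nat_lit 13) (nat_lit 5) (nat_lit 2) (nat_lit 2) true (nat_lit 1) true (nat_lit 8) true (nat_lit 2) true (nat_lit 5) true (nat_lit 8) (.s false (nat_lit 1) (nat_lit 31) (nat_lit 1) (nat_lit 2) (nat_lit 2) true (nat_lit 5) true (nat_lit 8) false (nat_lit 1) true (nat_lit 9) true (nat_lit 8) (.e true (nat_lit 864) (nat_lit 94) (nat_lit 2) (nat_lit 8) (.e true (nat_lit 864) (nat_lit 95) (nat_lit 2) (nat_lit 8) (.e false (nat_lit 648) (nat_lit 98) (nat_lit 2) (nat_lit 8) (.e true (nat_lit 864) (nat_lit 99) (nat_lit 2) (nat_lit 8) (.e false (nat_lit 432) (nat_lit 102) (nat_lit 2) (nat_lit 8) (.e false (nat_lit 648) (nat_lit 65) (nat_lit 5) (nat_lit 5) (.e false (nat_lit 432) (nat_lit 66) (nat_lit 5) (nat_lit 5) (.e true (nat_lit 432) (nat_lit 105) (nat_lit 2) (nat_lit 8) (.e true (nat_lit 432) (nat_lit 106) (nat_lit 2) (nat_lit 8) (.e false (nat_lit 216) (nat_lit 107) (nat_lit 2) (nat_lit 8) (.e false (nat_lit 216) (nat_lit 100) (nat_lit 2) (nat_lit 8) (.e true (nat_lit 216) (nat_lit 119) (nat_lit 1) (nat_lit 9) .nil))))))))))))))) .leaf) (nat_lit 33806) (nat_lit 418) (.n (nat_lit 176) (nat_lit 108) (.p (nat_lit 177) (nat_lit 648) (.p (nat_lit 178) (nat_lit 216) (.p (nat_lit 180) (nat_lit 108) (.p (nat_lit 181) (nat_lit 108) (.p (nat_lit 182) (nat_lit 432) .z)))))) (.ct dA4s_c37 (nat_lit 432) (nat_lit 1) (.s true (nat_lit 1) (nat_lit 14) (nat_lit 5) (nat_lit 2) (nat_lit 2) true (nat_lit 1) true (nat_lit 5) true (nat_lit 1) true (nat_lit 4) true (nat_lit 5) (.e true (nat_lit 216) (nat_lit 112) (nat_lit 2) (nat_lit 5) (.e true (nat_lit 648) (nat_lit 113) (nat_lit 2) (nat_lit 5) (.e true (nat_lit 540) (nat_lit 114) (nat_lit 2) (nat_lit 5) (.e false (nat_lit 108) (nat_lit 115) (nat_lit 2) (nat_lit 5) (.e false (nat_lit 216) (nat_lit 69) (nat_lit 5) (nat_lit 4) (.e true (nat_lit 216) (nat_lit 71) (nat_lit 5) (nat_lit 4) (.e false (nat_lit 108) (nat_lit 111) (nat_lit 2) (nat_lit 5) .nil))))))))) (.nd .leaf (nat_lit 33807) (nat_lit 417) (.n (nat_lit 176) (nat_lit 216) (.p (nat_lit 177) (nat_lit 216) (.n (nat_lit 178) (nat_lit 216) (.p (nat_lit 180) (nat_lit 216) (.p (nat_lit 181) (nat_lit 432) (.p (nat_lit 182) (nat_lit 216) .z)))))) (.ct dA4s_c37 (nat_lit 216) (nat_lit 1) (.s true (nat_lit 1) (nat_lit 15) (nat_lit 2) (nat_lit 5) (nat_lit 2) true (nat_lit 3) true (nat_lit 5) true (nat_lit 1) true (nat_lit 5) true (nat_lit 4) (.e false (nat_lit 216) (nat_lit 60) (nat_lit 6) (nat_lit 3) (.e true (nat_lit 216) (nat_lit 62) (nat_lit 6) (nat_lit 3) (.e true (nat_lit 432) (nat_lit 63) (nat_lit 6) (nat_lit 3) (.e true (nat_lit 216) (nat_lit 111) (nat_lit 2) (nat_lit 5) (.e false (nat_lit 216) (nat_lit 112) (nat_lit 2) (nat_lit 5) (.e true (nat_lit 432) (nat_lit 113) (nat_lit 2) (nat_lit 5) (.e false (nat_lit 216) (nat_lit 69) (nat_lit 5) (nat_lit 4) .nil))))))))) .leaf)) (nat_lit 34816) (nat_lit 70) (.p (nat_lit 56) (nat_lit 216) .z) .df (.nd (.nd .leaf (nat_lit 34817) (nat_lit 85) (.p (nat_lit 62) (nat_lit 216) .z) .df .leaf) (nat_lit 34818) (nat_lit 99) (.p (nat_lit 69) (nat_lit 216) .z) .df .leaf)) (nat_lit 34819) (nat_lit 128) (.p (nat_lit 73) (nat_lit 432) (.p (nat_lit 74) (nat_lit 216) (.n (nat_lit 75) (nat_lit 216) (.n (nat_lit 76) (nat_lit 216) (.n (nat_lit 77) (nat_lit 216) (.p (nat_lit 78) (nat_lit 216) (.p (nat_lit 79) (nat_lit 216) (.n (nat_lit 81) (nat_lit 864) (.n (nat_lit 83) (nat_lit 864) (.p (nat_lit 85) (nat_lit 432) (.p (nat_lit 86) (nat_lit 432) (.p (nat_lit 87) (nat_lit 432) (.p (nat_lit 88) (nat_lit 648) (.p (nat_lit 90) (nat_lit 432) (.n (nat_lit 91) (nat_lit 216) (.p (nat_lit 92) (nat_lit 216) .z)))))))))))))))) (.ct dA4s_c291 (nat_lit 216) (nat_lit 6) (.s true (nat_lit 1) (nat_lit 6) (nat_lit 1) (nat_lit 2) (nat_lit 3) true (nat_lit 2) true (nat_lit 6) true (nat_lit 3) true (nat_lit 8) true (nat_lit 7) (.s true (nat_lit 1) (nat_lit 7) (nat_lit 2) (nat_lit 2) (nat_lit 2) true (nat_lit 3) true (nat_lit 7) true (nat_lit 2) true (nat_lit 7) true (nat_lit 7) (.s true (nat_lit 2) (nat_lit 16) (nat_lit 1) (nat_lit 0) (nat_lit 1) false (nat_lit 10) true (nat_lit 8) false (nat_lit 2) true (nat_lit 8) true (nat_lit 9) (.e true (nat_lit 216) (nat_lit 19) (nat_lit 6) (nat_lit 3) (.e false (nat_lit 216) (nat_lit 20) (nat_lit 6) (nat_lit 3) (.e false (nat_lit 648) (nat_lit 57) (nat_lit 1) (nat_lit 8) (.e false (nat_lit 216) (nat_lit 41) (nat_lit 2) (nat_lit 7) (.e true (nat_lit 216) (nat_lit 42) (nat_lit 2) (nat_lit 7) (.e true (nat_lit 216) (nat_lit 43) (nat_lit 2) (nat_lit 7) (.e false (nat_lit 216) (nat_lit 45) (nat_lit 2) (nat_lit 7) (.e false (nat_lit 432) (nat_lit 40) (nat_lit 2) (nat_lit 7) (.e true (nat_lit 216) (nat_lit 44) (nat_lit 2) (nat_lit 7) (.e false (nat_lit 216) (nat_lit 47) (nat_lit 2) (nat_lit 7) (.e true (nat_lit 864) (nat_lit 49) (nat_lit 1) (nat_lit 8) (.e true (nat_lit 864) (nat_lit 51) (nat_lit 1) (nat_lit 8) (.e false (nat_lit 432) (nat_lit 54) (nat_lit 1) (nat_lit 8) (.e false (nat_lit 432) (nat_lit 55) (nat_lit 1) (nat_lit 8) (.e false (nat_lit 432) (nat_lit 56) (nat_lit 1) (nat_lit 8) (.e false (nat_lit 432) (nat_lit 63) (nat_lit 0) (nat_lit 9) .nil)))))))))))))))))))) (.nd (.nd (.nd .leaf (nat_lit 34820) (nat_lit 180) (.n (nat_lit 94) (nat_lit 432) (.n (nat_lit 95) (nat_lit 432) (.p (nat_lit 98) (nat_lit 432) (.n (nat_lit 99) (nat_lit 432) (.p (nat_lit 100) (nat_lit 216) (.p (nat_lit 103) (nat_lit 216) (.p (nat_lit 105) (nat_lit 216) (.p (nat_lit 106) (nat_lit 432) (.n (nat_lit 107) (nat_lit 216) .z))))))))) (.ct dA4s_c276 (nat_lit 216) (nat_lit 4) (.s false (nat_lit 1) (nat_lit 6) (nat_lit 0) (nat_lit 6) (nat_lit 1) true (nat_lit 5) true (nat_lit 7) true (nat_lit 2) true (nat_lit 8) true (nat_lit 2) (.s false (nat_lit 1) (nat_lit 6) (nat_lit 1) (nat_lit 0) (nat_lit 6) false (nat_lit 0) true (nat_lit 2) true (nat_lit 2) true (nat_lit 7) true (nat_lit 8) (.s false (nat_lit 1) (nat_lit 6) (nat_lit 2) (nat_lit 2) (nat_lit 3) true (nat_lit 1) true (nat_lit 5) true (nat_lit 2) true (nat_lit 6) true (nat_lit 6) (.s true (nat_lit 1) (nat_lit 15) (nat_lit 2) (nat_lit 2) (nat_lit 0) true (nat_lit 4) true (nat_lit 8) false (nat_lit 0) true (nat_lit 6) true (nat_lit 6) (.s false (nat_lit 1) (nat_lit 16) (nat_lit 0) (nat_lit 1) (nat_lit 2) true (nat_lit 4) true (nat_lit 6) false (nat_lit 1) true (nat_lit 8) true (nat_lit 7) (.s false (nat_lit 1) (nat_lit 16) (nat_lit 1) (nat_lit 2) (nat_lit 0) true (nat_lit 5) true (nat_lit 8) false (nat_lit 1) true (nat_lit 7) true (nat_lit 6) (.s false (nat_lit 1) (nat_lit 16) (nat_lit 2) (nat_lit 1) (nat_lit 0) true (nat_lit 4) true (nat_lit 8) false (nat_lit 1) true (nat_lit 6) true (nat_lit 7) (.e true (nat_lit 216) (nat_lit 25) (nat_lit 6) (nat_lit 2) (.e false (nat_lit 216) (nat_lit 69) (nat_lit 0) (nat_lit 8) (.e false (nat_lit 432) (nat_lit 70) (nat_lit 0) (nat_lit 8) (.e false (nat_lit 216) (nat_lit 57) (nat_lit 2) (nat_lit 6) (.e true (nat_lit 432) (nat_lit 49) (nat_lit 2) (nat_lit 6) (.e true (nat_lit 432) (nat_lit 53) (nat_lit 2) (nat_lit 6) (.e false (nat_lit 432) (nat_lit 52) (nat_lit 2) (nat_lit 6) (.e false (nat_lit 216) (nat_lit 54) (nat_lit 2) (nat_lit 6) (.e true (nat_lit 432) (nat_lit 48) (nat_lit 2) (nat_lit 6) .nil))))))))))))))))) .leaf) (nat_lit 34821) (nat_lit 204) (.p (nat_lit 111) (nat_lit 108) (.n (nat_lit 112) (nat_lit 216) (.n (nat_lit 113) (nat_lit 216) (.n (nat_lit 114) (nat_lit 324) (.p (nat_lit 115) (nat_lit 108) .z))))) (.ct dA4s_c36 (nat_lit 432) (nat_lit 3) (.s false (nat_lit 1) (nat_lit 6) (nat_lit 2) (nat_lit 5) (nat_lit 1) true (nat_lit 3) true (nat_lit 5) true (nat_lit 2) true (nat_lit 4) true (nat_lit 3) (.s false (nat_lit 1) (nat_lit 16) (nat_lit 1) (nat_lit 1) (nat_lit 2) true (nat_lit 3) true (nat_lit 4) false (nat_lit 1) true (nat_lit 5) true (nat_lit 5) (.e true (nat_lit 432) (nat_lit 70) (nat_lit 1) (nat_lit 5) (.e true (nat_lit 648) (nat_lit 71) (nat_lit 1) (nat_lit 5) (.e false (nat_lit 216) (nat_lit 28) (nat_lit 6) (nat_lit 2) (.e false (nat_lit 216) (nat_lit 60) (nat_lit 2) (nat_lit 4) (.e true (nat_lit 432) (nat_lit 62) (nat_lit 2) (nat_lit 4) .nil)))))))) .leaf) (nat_lit 34822) (nat_lit 228) (.p (nat_lit 124) (nat_lit 216) .z) .df (.nd (.nd .leaf (nat_lit 34824) (nat_lit 325) (.p (nat_lit 126) (nat_lit 1236) (.n (nat_lit 128) (nat_lit 804) (.p (nat_lit 129) (nat_lit 804) (.p (nat_lit 131) (nat_lit 300) (.n (nat_lit 132) (nat_lit 276) (.n (nat_lit 133) (nat_lit 132) (.n (nat_lit 134) (nat_lit 408) (.p (nat_lit 135) (nat_lit 204) (.p (nat_lit 136) (nat_lit 2316) (.p (nat_lit 137) (nat_lit 204) (.n (nat_lit 138) (nat_lit 1908) (.n (nat_lit 139) (nat_lit 216) (.p (nat_lit 140) (nat_lit 216) (.n (nat_lit 141) (nat_lit 5384) (.n (nat_lit 142) (nat_lit 2136) (.p (nat_lit 143) (nat_lit 3248) (.p (nat_lit 144) (nat_lit 2888) (.n (nat_lit 145) (nat_lit 5528) (.p (nat_lit 146) (nat_lit 1068) (.p (nat_lit 147) (nat_lit 660) (.p (nat_lit 148) (nat_lit 1068) (.p (nat_lit 149) (nat_lit 2224) (.p (nat_lit 150) (nat_lit 1444) (.p (nat_lit 151) (nat_lit 1444) (.p (nat_lit 152) (nat_lit 1764) (.n (nat_lit 153) (nat_lit 2852) (.n (nat_lit 154) (nat_lit 2716) .z))))))))))))))))))))))))))) (.ct dA4s_c292 (nat_lit 216) (nat_lit 4) (.s true (nat_lit 1) (nat_lit 34) (nat_lit 0) (nat_lit 1) (nat_lit 2) true (nat_lit 8) true (nat_lit 10) false (nat_lit 4) true (nat_lit 12) true (nat_lit 11) (.e true (nat_lit 216) (nat_lit 62) (nat_lit 4) (nat_lit 8) (.e true (nat_lit 216) (nat_lit 87) (nat_lit 2) (nat_lit 10) (.e true (nat_lit 108) (nat_lit 111) (nat_lit 0) (nat_lit 12) (.e false (nat_lit 216) (nat_lit 112) (nat_lit 0) (nat_lit 12) (.e false (nat_lit 216) (nat_lit 113) (nat_lit 0) (nat_lit 12) (.e false (nat_lit 324) (nat_lit 114) (nat_lit 0) (nat_lit 12) (.e true (nat_lit 108) (nat_lit 115) (nat_lit 0) (nat_lit 12) (.e false (nat_lit 216) (nat_lit 105) (nat_lit 1) (nat_lit 11) .nil)))))))))) .leaf) (nat_lit 34825) (nat_lit 316) (.n (nat_lit 126) (nat_lit 876) (.p (nat_lit 127) (nat_lit 432) (.p (nat_lit 128) (nat_lit 876) (.n (nat_lit 129) (nat_lit 876) (.p (nat_lit 131) (nat_lit 492) (.p (nat_lit 132) (nat_lit 1068) (.p (nat_lit 133) (nat_lit 492) (.p (nat_lit 134) (nat_lit 1128) (.n (nat_lit 135) (nat_lit 564) (.n (nat_lit 136) (nat_lit 4116) (.n (nat_lit 137) (nat_lit 564) (.p (nat_lit 138) (nat_lit 2772) (.n (nat_lit 139) (nat_lit 216) (.p (nat_lit 141) (nat_lit 6224) (.p (nat_lit 142) (nat_lit 912) (.n (nat_lit 143) (nat_lit 5312) (.n (nat_lit 144) (nat_lit 2576) (.p (nat_lit 145) (nat_lit 6368) (.n (nat_lit 146) (nat_lit 672) (.p (nat_lit 147) (nat_lit 24) (.n (nat_lit 148) (nat_lit 672) (.n (nat_lit 149) (nat_lit 3400) (.n (nat_lit 150) (nat_lit 2800) (.n (nat_lit 151) (nat_lit 2800) (.n (nat_lit 152) (nat_lit 3816) (.p (nat_lit 153) (nat_lit 4160) (.p (nat_lit 154) (nat_lit 3280) .z))))))))))))))))))))))))))) (.ct dA4s_c292 (nat_lit 216) (nat_lit 4) (.s true (nat_lit 1) (nat_lit 9) (nat_lit 2) (nat_lit 2) (nat_lit 5) true (nat_lit 1) true (nat_lit 7) true (nat_lit 4) true (nat_lit 10) true (nat_lit 10) (.s false (nat_lit 1) (nat_lit 16) (nat_lit 1) (nat_lit 1) (nat_lit 4) true (nat_lit 4) true (nat_lit 8) true (nat_lit 0) true (nat_lit 11) true (nat_lit 11) (.s true (nat_lit 1) (nat_lit 22) (nat_lit 2) (nat_lit 1) (nat_lit 2) true (nat_lit 6) true (nat_lit 10) false (nat_lit 1) true (nat_lit 10) true (nat_lit 11) (.e true (nat_lit 216) (nat_lit 49) (nat_lit 5) (nat_lit 7) (.e true (nat_lit 216) (nat_lit 91) (nat_lit 2) (nat_lit 10) (.e false (nat_lit 216) (nat_lit 74) (nat_lit 2) (nat_lit 10) (.e false (nat_lit 216) (nat_lit 63) (nat_lit 4) (nat_lit 8) (.e false (nat_lit 648) (nat_lit 96) (nat_lit 1) (nat_lit 11) (.e true (nat_lit 648) (nat_lit 97) (nat_lit 1) (nat_lit 11) (.e true (nat_lit 432) (nat_lit 98) (nat_lit 1) (nat_lit 11) (.e false (nat_lit 648) (nat_lit 99) (nat_lit 1) (nat_lit 11) (.e false (nat_lit 648) (nat_lit 101) (nat_lit 1) (nat_lit 11) (.e false (nat_lit 648) (nat_lit 103) (nat_lit 1) (nat_lit 11) (.e true (nat_lit 216) (nat_lit 106) (nat_lit 1) (nat_lit 11) (.e false (nat_lit 216) (nat_lit 107) (nat_lit 1) (nat_lit 11) (.e true (nat_lit 864) (nat_lit 95) (nat_lit 1) (nat_lit 11) (.e false (nat_lit 216) (nat_lit 41) (nat_lit 6) (nat_lit 6) (.e false (nat_lit 216) (nat_lit 93) (nat_lit 2) (nat_lit 10) .nil))))))))))))))))))) .leaf))) (nat_lit 34826) (nat_lit 298) (.n (nat_lit 126) (nat_lit 1044) (.p (nat_lit 127) (nat_lit 432) (.p (nat_lit 128) (nat_lit 612) (.n (nat_lit 129) (nat_lit 612) (.n (nat_lit 131) (nat_lit 396) (.p (nat_lit 132) (nat_lit 468) (.p (nat_lit 133) (nat_lit 36) (.p (nat_lit 134) (nat_lit 72) (.n (nat_lit 135) (nat_lit 36) (.n (nat_lit 136) (nat_lit 1044) (.n (nat_lit 137) (nat_lit 36) (.p (nat_lit 138) (nat_lit 756) (.n (nat_lit 140) (nat_lit 216) (.p (nat_lit 141) (nat_lit 2280) (.p (nat_lit 142) (nat_lit 504) (.n (nat_lit 143) (nat_lit 1776) (.n (nat_lit 144) (nat_lit 696) (.p (nat_lit 145) (nat_lit 2280) (.n (nat_lit 146) (nat_lit 468) (.n (nat_lit 147) (nat_lit 828) (.n (nat_lit 148) (nat_lit 468) (.n (nat_lit 149) (nat_lit 1464) (.n (nat_lit 150) (nat_lit 1212) (.n (nat_lit 151) (nat_lit 1212) (.n (nat_lit 152) (nat_lit 972) (.p (nat_lit 153) (nat_lit 1668) (.p (nat_lit 154) (nat_lit 2148) .z))))))))))))))))))))))))))) (.ct dA4s_c292 (nat_lit 216) (nat_lit 4) (.s true (nat_lit 1) (nat_lit 10) (nat_lit 2) (nat_lit 2) (nat_lit 5) true (nat_lit 1) true (nat_lit 7) true (nat_lit 4) true (nat_lit 10) true (nat_lit 10) (.s true (nat_lit 1) (nat_lit 35) (nat_lit 2) (nat_lit 1) (nat_lit 0) true (nat_lit 8) true (nat_lit 12) false (nat_lit 4) true (nat_lit 10) true (nat_lit 11) (.e true (nat_lit 216) (nat_lit 23) (nat_lit 14) (nat_lit 1) (.e true (nat_lit 216) (nat_lit 50) (nat_lit 5) (nat_lit 7) (.e false (nat_lit 216) (nat_lit 75) (nat_lit 2) (nat_lit 10) (.e true (nat_lit 216) (nat_lit 81) (nat_lit 2) (nat_lit 10) (.e false (nat_lit 432) (nat_lit 82) (nat_lit 2) (nat_lit 10) (.e true (nat_lit 216) (nat_lit 83) (nat_lit 2) (nat_lit 10) (.e false (nat_lit 216) (nat_lit 84) (nat_lit 2) (nat_lit 10) (.e true (nat_lit 216) (nat_lit 86) (nat_lit 2) (nat_lit 10) (.e false (nat_lit 216) (nat_lit 88) (nat_lit 2) (nat_lit 10) (.e false (nat_lit 216) (nat_lit 90) (nat_lit 2) (nat_lit 10) (.e true (nat_lit 216) (nat_lit 92) (nat_lit 2) (nat_lit 10) (.e false (nat_lit 216) (nat_lit 63) (nat_lit 4) (nat_lit 8) (.e true (nat_lit 216) (nat_lit 113) (nat_lit 0) (nat_lit 12) (.e false (nat_lit 216) (nat_lit 95) (nat_lit 1) (nat_lit 11) (.e false (nat_lit 216) (nat_lit 96) (nat_lit 1) (nat_lit 11) (.e false (nat_lit 216) (nat_lit 97) (nat_lit 1) (nat_lit 11) (.e false (nat_lit 216) (nat_lit 99) (nat_lit 1) (nat_lit 11) (.e true (nat_lit 216) (nat_lit 100) (nat_lit 1) (nat_lit 11) (.e true (nat_lit 216) (nat_lit 101) (nat_lit 1) (nat_lit 11) (.e true (nat_lit 216) (nat_lit 102) (nat_lit 1) (nat_lit 11) .nil))))))))))))))))))))))) (.nd (.nd (.nd (.nd .leaf (nat_lit 34829) (nat_lit 385) (.n (nat_lit 161) (nat_lit 432) (.n (nat_lit 165) (nat_lit 432) (.p (nat_lit 168) (nat_lit 216) (.p (nat_lit 170) (nat_lit 432) (.p (nat_lit 171) (nat_lit 432) (.p (nat_lit 173) (nat_lit 216) .z)))))) (.ct dA4s_c277 (nat_lit 216) (nat_lit 2) (.s false (nat_lit 1) (nat_lit 13) (nat_lit 1) (nat_lit 6) (nat_lit 2) true (nat_lit 5) true (nat_lit 8) true (nat_lit 2) true (nat_lit 9) true (nat_lit 4) (.e false (nat_lit 432) (nat_lit 65) (nat_lit 5) (nat_lit 5) (.e false (nat_lit 432) (nat_lit 66) (nat_lit 5) (nat_lit 5) (.e false (nat_lit 216) (nat_lit 107) (nat_lit 2) (nat_lit 8) (.e false (nat_lit 432) (nat_lit 117) (nat_lit 1) (nat_lit 9) (.e false (nat_lit 432) (nat_lit 118) (nat_lit 1) (nat_lit 9) (.e true (nat_lit 216) (nat_lit 119) (nat_lit 1) (nat_lit 9) (.e true (nat_lit 216) (nat_lit 54) (nat_lit 6) (nat_lit 4) .nil))))))))) .leaf) (nat_lit 34830) (nat_lit 411) (.n (nat_lit 176) (nat_lit 216) (.p (nat_lit 180) (nat_lit 216) (.p (nat_lit 182) (nat_lit 432) .z))) (.ct dA4s_c37 (nat_lit 216) (nat_lit 1) (.s false (nat_lit 1) (nat_lit 34) (nat_lit 2) (nat_lit 1) (nat_lit 2) true (nat_lit 3) true (nat_lit 5) false (nat_lit 1) true (nat_lit 5) true (nat_lit 6) (.e true (nat_lit 216) (nat_lit 62) (nat_lit 6) (nat_lit 3) (.e true (nat_lit 432) (nat_lit 113) (nat_lit 2) (nat_lit 5) (.e false (nat_lit 216) (nat_lit 112) (nat_lit 2) (nat_lit 5) (.e false (nat_lit 216) (nat_lit 122) (nat_lit 1) (nat_lit 6) .nil)))))) (.nd .leaf (nat_lit 34831) (nat_lit 415) (.n (nat_lit 176) (nat_lit 432) (.p (nat_lit 177) (nat_lit 432) (.p (nat_lit 180) (nat_lit 432) (.p (nat_lit 181) (nat_lit 432) (.p (nat_lit 182) (nat_lit 216) .z))))) (.ct dA4s_c37 (nat_lit 216) (nat_lit 1) (.s false (nat_lit 1) (nat_lit 6) (nat_lit 1) (nat_lit 5) (nat_lit 6) true (nat_lit 1) true (nat_lit 3) true (nat_lit 3) true (nat_lit 6) true (nat_lit 4) (.e true (nat_lit 216) (nat_lit 35) (nat_lit 15) (nat_lit 1) (.e true (nat_lit 216) (nat_lit 62) (nat_lit 6) (nat_lit 3) (.e false (nat_lit 216) (nat_lit 63) (nat_lit 6) (nat_lit 3) (.e false (nat_lit 432) (nat_lit 122) (nat_lit 1) (nat_lit 6) (.e false (nat_lit 432) (nat_lit 123) (nat_lit 1) (nat_lit 6) .nil))))))) .leaf)) (nat_lit 35840) (nat_lit 74) (.p (nat_lit 49) (nat_lit 216) (.p (nat_lit 50) (nat_lit 216) (.p (nat_lit 51) (nat_lit 216) (.p (nat_lit 53) (nat_lit 216) (.n (nat_lit 54) (nat_lit 216) (.n (nat_lit 55) (nat_lit 216) (.n (nat_lit 56) (nat_lit 216) .z))))))) (.ct dA4s_c275 (nat_lit 216) (nat_lit 6) (.s false (nat_lit 1) (nat_lit 4) (nat_lit 1) (nat_lit 2) (nat_lit 2) true (nat_lit 1) true (nat_lit 4) true (nat_lit 2) true (nat_lit 5) true (nat_lit 4) (.s false (nat_lit 1) (nat_lit 5) (nat_lit 0) (nat_lit 2) (nat_lit 2) true (nat_lit 2) true (nat_lit 4) true (nat_lit 1) true (nat_lit 6) true (nat_lit 4) (.e false (nat_lit 216) (nat_lit 22) (nat_lit 2) (nat_lit 4) (.e true (nat_lit 216) (nat_lit 31) (nat_lit 1) (nat_lit 5) (.e true (nat_lit 216) (nat_lit 32) (nat_lit 1) (nat_lit 5) (.e false (nat_lit 216) (nat_lit 24) (nat_lit 2) (nat_lit 4) (.e false (nat_lit 216) (nat_lit 23) (nat_lit 2) (nat_lit 4) (.e true (nat_lit 216) (nat_lit 34) (nat_lit 0) (nat_lit 6) (.e false (nat_lit 216) (nat_lit 26) (nat_lit 2) (nat_lit 4) .nil)))))))))) (.nd (.nd .leaf (nat_lit 35841) (nat_lit 86) (.p (nat_lit 63) (nat_lit 216) .z) .df .leaf) (nat_lit 35842) (nat_lit 100) (.p (nat_lit 70) (nat_lit 216) .z) .df .leaf)) (nat_lit 35843) (nat_lit 140) (.n (nat_lit 81) (nat_lit 216) (.p (nat_lit 82) (nat_lit 216) (.n (nat_lit 83) (nat_lit 216) (.p (nat_lit 84) (nat_lit 216) (.n (nat_lit 86) (nat_lit 216) (.p (nat_lit 88) (nat_lit 216) (.p (nat_lit 90) (nat_lit 216) .z))))))) (.ct dA4s_c291 (nat_lit 216) (nat_lit 6) (.s false (nat_lit 1) (nat_lit 16) (nat_lit 1) (nat_lit 1) (nat_lit 0) true (nat_lit 6) true (nat_lit 9) false (nat_lit 2) true (nat_lit 8) true (nat_lit 8) (.e false (nat_lit 216) (nat_lit 63) (nat_lit 0) (nat_lit 9) (.e true (nat_lit 216) (nat_lit 49) (nat_lit 1) (nat_lit 8) (.e false (nat_lit 216) (nat_lit 50) (nat_lit 1) (nat_lit 8) (.e true (nat_lit 216) (nat_lit 51) (nat_lit 1) (nat_lit 8) (.e false (nat_lit 216) (nat_lit 53) (nat_lit 1) (nat_lit 8) (.e false (nat_lit 216) (nat_lit 57) (nat_lit 1) (nat_lit 8) (.e true (nat_lit 216) (nat_lit 55) (nat_lit 1) (nat_lit 8) .nil))))))))) (.nd (.nd (.nd .leaf (nat_lit 35844) (nat_lit 175) (.p (nat_lit 94) (nat_lit 432) (.n (nat_lit 95) (nat_lit 216) (.p (nat_lit 96) (nat_lit 216) (.n (nat_lit 97) (nat_lit 648) (.n (nat_lit 98) (nat_lit 432) (.p (nat_lit 99) (nat_lit 648) (.p (nat_lit 101) (nat_lit 432) (.n (nat_lit 104) (nat_lit 216) (.n (nat_lit 105) (nat_lit 216) (.n (nat_lit 106) (nat_lit 432) (.p (nat_lit 107) (nat_lit 432) (.p (nat_lit 109) (nat_lit 216) .z)))))))))))) (.ct dA4s_c276 (nat_lit 432) (nat_lit 4) (.s true (nat_lit 1) (nat_lit 6) (nat_lit 0) (nat_lit 6) (nat_lit 1) true (nat_lit 5) true (nat_lit 7) true (nat_lit 2) true (nat_lit 8) true (nat_lit 2) (.s true (nat_lit 2) (nat_lit 6) (nat_lit 1) (nat_lit 4) (nat_lit 2) true (nat_lit 3) true (nat_lit 6) true (nat_lit 2) true (nat_lit 7) true (nat_lit 4) (.s false (nat_lit 1) (nat_lit 6) (nat_lit 2) (nat_lit 2) (nat_lit 3) true (nat_lit 1) true (nat_lit 5) true (nat_lit 2) true (nat_lit 6) true (nat_lit 6) (.s false (nat_lit 2) (nat_lit 6) (nat_lit 3) (nat_lit 2) (nat_lit 2) true (nat_lit 1) true (nat_lit 6) true (nat_lit 2) true (nat_lit 5) true (nat_lit 6) (.s true (nat_lit 2) (nat_lit 10) (nat_lit 2) (nat_lit 2) (nat_lit 2) true (nat_lit 2) true (nat_lit 6) true (nat_lit 1) true (nat_lit 6) true (nat_lit 6) (.s true (nat_lit 2) (nat_lit 13) (nat_lit 1) (nat_lit 2) (nat_lit 2) true (nat_lit 3) true (nat_lit 6) true (nat_lit 0) true (nat_lit 7) true (nat_lit 6) (.s true (nat_lit 2) (nat_lit 13) (nat_lit 2) (nat_lit 1) (nat_lit 2) true (nat_lit 2) true (nat_lit 6) true (nat_lit 0) true (nat_lit 6) true (nat_lit 7) (.s false (nat_lit 3) (nat_lit 16) (nat_lit 0) (nat_lit 1) (nat_lit 2) true (nat_lit 4) true (nat_lit 6) false (nat_lit 1) true (nat_lit 8) true (nat_lit 7) (.s false (nat_lit 1) (nat_lit 16) (nat_lit 1) (nat_lit 2) (nat_lit 0) true (nat_lit 5) true (nat_lit 8) false (nat_lit 1) true (nat_lit 7) true (nat_lit 6) (.s false (nat_lit 3) (nat_lit 16) (nat_lit 2) (nat_lit 1) (nat_lit 0) true (nat_lit 4) true (nat_lit 8) false (nat_lit 1) true (nat_lit 6) true (nat_lit 7) (.e true (nat_lit 432) (nat_lit 65) (nat_lit 1) (nat_lit 7) (.e false (nat_lit 864) (nat_lit 25) (nat_lit 6) (nat_lit 2) (.e true (nat_lit 432) (nat_lit 69) (nat_lit 0) (nat_lit 8) (.e true (nat_lit 864) (nat_lit 70) (nat_lit 0) (nat_lit 8) (.e false (nat_lit 432) (nat_lit 32) (nat_lit 5) (nat_lit 3) (.e true (nat_lit 432) (nat_lit 49) (nat_lit 2) (nat_lit 6) (.e false (nat_lit 432) (nat_lit 50) (nat_lit 2) (nat_lit 6) (.e true (nat_lit 1296) (nat_lit 51) (nat_lit 2) (nat_lit 6) (.e true (nat_lit 864) (nat_lit 52) (nat_lit 2) (nat_lit 6) (.e false (nat_lit 1296) (nat_lit 53) (nat_lit 2) (nat_lit 6) (.e false (nat_lit 864) (nat_lit 55) (nat_lit 2) (nat_lit 6) (.e false (nat_lit 864) (nat_lit 48) (nat_lit 2) (nat_lit 6) .nil))))))))))))))))))))))) .leaf) (nat_lit 35845) (nat_lit 208) (.n (nat_lit 111) (nat_lit 108) (.n (nat_lit 113) (nat_lit 216) (.p (nat_lit 114) (nat_lit 108) (.p (nat_lit 115) (nat_lit 108) .z)))) (.ct dA4s_c36 (nat_lit 216) (nat_lit 3) (.s true (nat_lit 1) (nat_lit 16) (nat_lit 1) (nat_lit 1) (nat_lit 2) true (nat_lit 3) true (nat_lit 4) false (nat_lit 1) true (nat_lit 5) true (nat_lit 5) (.e true (nat_lit 216) (nat_lit 63) (nat_lit 2) (nat_lit 4) (.e false (nat_lit 216) (nat_lit 70) (nat_lit 1) (nat_lit 5) (.e false (nat_lit 432) (nat_lit 71) (nat_lit 1) (nat_lit 5) .nil))))) .leaf) (nat_lit 35846) (nat_lit 230) (.p (nat_lit 122) (nat_lit 432) (.p (nat_lit 123) (nat_lit 432) (.n (nat_lit 124) (nat_lit 216) .z))) (.ct dA4s_c21 (nat_lit 216) (nat_lit 1) (.s false (nat_lit 1) (nat_lit 6) (nat_lit 1) (nat_lit 6) (nat_lit 2) true (nat_lit 2) true (nat_lit 3) true (nat_lit 1) true (nat_lit 4) true (nat_lit 1) (.e false (nat_lit 432) (nat_lit 69) (nat_lit 2) (nat_lit 3) (.e false (nat_lit 432) (nat_lit 70) (nat_lit 2) (nat_lit 3) (.e true (nat_lit 216) (nat_lit 34) (nat_lit 6) (nat_lit 1) .nil))))) (.nd (.nd .leaf (nat_lit 35848) (nat_lit 320) (.n (nat_lit 126) (nat_lit 444) (.p (nat_lit 128) (nat_lit 444) (.n (nat_lit 129) (nat_lit 444) (.p (nat_lit 131) (nat_lit 60) (.p (nat_lit 132) (nat_lit 204) (.p (nat_lit 133) (nat_lit 60) (.p (nat_lit 134) (nat_lit 264) (.n (nat_lit 135) (nat_lit 132) (.n (nat_lit 136) (nat_lit 1524) (.n (nat_lit 137) (nat_lit 132) (.p (nat_lit 138) (nat_lit 1260) (.p (nat_lit 141) (nat_lit 3416) (.p (nat_lit 142) (nat_lit 696) (.n (nat_lit 143) (nat_lit 2720) (.n (nat_lit 144) (nat_lit 1928) (.p (nat_lit 145) (nat_lit 3560) (.n (nat_lit 146) (nat_lit 348) (.p (nat_lit 147) (nat_lit 348) (.n (nat_lit 148) (nat_lit 348) (.n (nat_lit 149) (nat_lit 1456) (.n (nat_lit 150) (nat_lit 1180) (.n (nat_lit 151) (nat_lit 1180) (.n (nat_lit 152) (nat_lit 1764) (.p (nat_lit 153) (nat_lit 2108) (.p (nat_lit 154) (nat_lit 1660) .z))))))))))))))))))))))))) (.ct dA4s_c292 (nat_lit 216) (nat_lit 4) (.s true (nat_lit 1) (nat_lit 35) (nat_lit 0) (nat_lit 1) (nat_lit 2) true (nat_lit 8) true (nat_lit 10) false (nat_lit 4) true (nat_lit 12) true (nat_lit 11) (.e true (nat_lit 216) (nat_lit 63) (nat_lit 4) (nat_lit 8) (.e true (nat_lit 216) (nat_lit 81) (nat_lit 2) (nat_lit 10) (.e true (nat_lit 216) (nat_lit 82) (nat_lit 2) (nat_lit 10) (.e true (nat_lit 216) (nat_lit 83) (nat_lit 2) (nat_lit 10) (.e true (nat_lit 216) (nat_lit 84) (nat_lit 2) (nat_lit 10) (.e false (nat_lit 216) (nat_lit 85) (nat_lit 2) (nat_lit 10) (.e false (nat_lit 216) (nat_lit 86) (nat_lit 2) (nat_lit 10) (.e false (nat_lit 216) (nat_lit 87) (nat_lit 2) (nat_lit 10) (.e false (nat_lit 108) (nat_lit 111) (nat_lit 0) (nat_lit 12) (.e false (nat_lit 216) (nat_lit 113) (nat_lit 0) (nat_lit 12) (.e true (nat_lit 108) (nat_lit 114) (nat_lit 0) (nat_lit 12) (.e true (nat_lit 108) (nat_lit 115) (nat_lit 0) (nat_lit 12) (.e false (nat_lit 216) (nat_lit 106) (nat_lit 1) (nat_lit 11) .nil))))))))))))))) .leaf) (nat_lit 35849) (nat_lit 329) (.p (nat_lit 126) (nat_lit 876) (.n (nat_lit 128) (nat_lit 876) (.p (nat_lit 129) (nat_lit 876) (.n (nat_lit 131) (nat_lit 492) (.n (nat_lit 132) (nat_lit 636) (.n (nat_lit 133) (nat_lit 492) (.n (nat_lit 134) (nat_lit 1128) (.p (nat_lit 135) (nat_lit 564) (.p (nat_lit 136) (nat_lit 4116) (.p (nat_lit 137) (nat_lit 564) (.n (nat_lit 138) (nat_lit 2772) (.n (nat_lit 141) (nat_lit 6872) (.n (nat_lit 142) (nat_lit 1560) (.p (nat_lit 143) (nat_lit 5312) (.p (nat_lit 144) (nat_lit 3224) (.n (nat_lit 145) (nat_lit 7016) (.p (nat_lit 146) (nat_lit 780) (.n (nat_lit 147) (nat_lit 132) (.p (nat_lit 148) (nat_lit 780) (.p (nat_lit 149) (nat_lit 3400) (.p (nat_lit 150) (nat_lit 2692) (.p (nat_lit 151) (nat_lit 2692) (.p (nat_lit 152) (nat_lit 3924) (.n (nat_lit 153) (nat_lit 4268) (.n (nat_lit 154) (nat_lit 3172) .z))))))))))))))))))))))))) (.ct dA4s_c292 (nat_lit 216) (nat_lit 4) (.s true (nat_lit 1) (nat_lit 9) (nat_lit 2) (nat_lit 2) (nat_lit 5) true (nat_lit 1) true (nat_lit 7) true (nat_lit 4) true (nat_lit 10) true (nat_lit 10) (.e true (nat_lit 216) (nat_lit 22) (nat_lit 14) (nat_lit 1) (.e true (nat_lit 216) (nat_lit 49) (nat_lit 5) (nat_lit 7) (.e true (nat_lit 216) (nat_lit 34) (nat_lit 9) (nat_lit 4) (.e false (nat_lit 216) (nat_lit 81) (nat_lit 2) (nat_lit 10) (.e true (nat_lit 216) (nat_lit 91) (nat_lit 2) (nat_lit 10) (.e false (nat_lit 216) (nat_lit 74) (nat_lit 2) (nat_lit 10) .nil)))))))) .leaf))))))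

noncomputable def dA4s_t2 : Tr := (.nd dA4s_t0 (nat_lit 21520) (nat_lit 378) (.n (nat_lit 164) (nat_lit 216) (.p (nat_lit 172) (nat_lit 216) .z)) (.ct dA4s_c277 (nat_lit 216) (nat_lit 0) (.s false (nat_lit 1) (nat_lit 8) (nat_lit 2) (nat_lit 2) (nat_lit 6) true (nat_lit 0) true (nat_lit 4) true (nat_lit 3) true (nat_lit 8) true (nat_lit 8) (.e false (nat_lit 216) (nat_lit 48) (nat_lit 6) (nat_lit 4) (.e true (nat_lit 432) (nat_lit 95) (nat_lit 2) (nat_lit 8) (.e true (nat_lit 432) (nat_lit 97) (nat_lit 2) (nat_lit 8) (.e false (nat_lit 216) (nat_lit 100) (nat_lit 2) (nat_lit 8) (.e false (nat_lit 432) (nat_lit 101) (nat_lit 2) (nat_lit 8) (.e false (nat_lit 216) (nat_lit 102) (nat_lit 2) (nat_lit 8) (.e true (nat_lit 216) (nat_lit 104) (nat_lit 2) (nat_lit 8) (.e true (nat_lit 216) (nat_lit 105) (nat_lit 2) (nat_lit 8) (.e true (nat_lit 432) (nat_lit 106) (nat_lit 2) (nat_lit 8) (.e false (nat_lit 216) (nat_lit 107)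 (nat_lit 2) (nat_lit 8) (.e true (nat_lit 216) (nat_lit 103) (nat_lit 2) (nat_lit 8) .nil))))))))))))) dA4s_t1)

noncomputable def dA4s_t3 : Tr := (.nd (.nd (.nd (.nd (.nd (.nd (.nd .leaf (nat_lit 35853) (nat_lit 389) (.p (nat_lit 156) (nat_lit 972) (.p (nat_lit 157) (nat_lit 972) (.n (nat_lit 159) (nat_lit 864) (.p (nat_lit 160) (nat_lit 972) (.n (nat_lit 161) (nat_lit 486) (.n (nat_lit 162) (nat_lit 432) (.n (nat_lit 163) (nat_lit 486) (.n (nat_lit 164) (nat_lit 162) (.p (nat_lit 165) (nat_lit 324) (.p (nat_lit 166) (nat_lit 324) (.p (nat_lit 167) (nat_lit 324) (.p (nat_lit 168) (nat_lit 108) (.p (nat_lit 169) (nat_lit 324) (.n (nat_lit 173) (nat_lit 216) .z)))))))))))))) (.ct dA4s_c277 (nat_lit 216) (nat_lit 2) (.s false (nat_lit 1) (nat_lit 13) (nat_lit 2) (nat_lit 2) (nat_lit 5) true (nat_lit 1) true (nat_lit 5) true (nat_lit 2) true (nat_lit 8) true (nat_lit 8) (.s true (nat_lit 1) (nat_lit 31) (nat_lit 1) (nat_lit 2) (nat_lit 2) true (nat_lit 5) true (nat_lit 8) false (nat_lit 1) true (nat_lit 9) true (nat_lit 8) (.e true (nat_lit 216) (nat_lit 34) (nat_lit 13) (nat_lit 2) (.e true (nat_lit 432) (nat_lit 100) (nat_lit 2) (nat_lit 8) (.e true (nat_lit 432) (nat_lit 104) (nat_lit 2) (nat_lit 8) (.e false (nat_lit 216) (nat_lit 107) (nat_lit 2) (nat_lit 8) (.e false (nat_lit 216) (nat_lit 119) (nat_lit 1) (nat_lit 9) .nil)))))))) .leaf) (nat_lit 35855) (nat_lit 414) (.p (nat_lit 182) (nat_lit 432) .z) (.ct dA4s_c37 (nat_lit 216) (nat_lit 1) (.s false (nat_lit 1) (nat_lit 15) (nat_lit 2) (nat_lit 6) (nat_lit 1) true (nat_lit 4) true (nat_lit 6) true (nat_lit 1) true (nat_lit 5) true (nat_lit 3) (.e true (nat_lit 432) (nat_lit 69) (nat_lit 5) (nat_lit 4) (.e true (nat_lit 432) (nat_lit 70) (nat_lit 5) (nat_lit 4) (.e false (nat_lit 216) (nat_lit 124) (nat_lit 1) (nat_lit 6) (.e true (nat_lit 216) (nat_lit 60) (nat_lit 6) (nat_lit 3) .nil)))))) (.nd .leaf (nat_lit 36864) (nat_lit 94) (.p (nat_lit 67) (nat_lit 216) .z) .df .leaf)) (nat_lit 36865) (nat_lit 101) (.p (nat_lit 71) (nat_lit 216) .z) .df (.nd (.nd .leaf (nat_lit 36866) (nat_lit 105) (.p (nat_lit 72) (nat_lit 216) .z) .df .leaf) (nat_lit 36867) (nat_lit 194) (.p (nat_lit 95) (nat_lit 216) (.p (nat_lit 96) (nat_lit 216) (.p (nat_lit 97) (nat_lit 216) (.p (nat_lit 99) (nat_lit 216) (.n (nat_lit 100) (nat_lit 216) (.n (nat_lit 101) (nat_lit 432) (.n (nat_lit 102) (nat_lit 216) (.p (nat_lit 103) (nat_lit 216) (.p (nat_lit 104) (nat_lit 216) (.p (nat_lit 105) (nat_lit 216) (.p (nat_lit 106) (nat_lit 432) (.n (nat_lit 107) (nat_lit 216) .z)))))))))))) (.ct dA4s_c276 (nat_lit 216) (nat_lit 5) (.s false (nat_lit 1) (nat_lit 16) (nat_lit 1) (nat_lit 2) (nat_lit 0) true (nat_lit 5) true (nat_lit 8) false (nat_lit 1) true (nat_lit 7) true (nat_lit 6) (.e false (nat_lit 216) (nat_lit 70) (nat_lit 0) (nat_lit 8) (.e false (nat_lit 216) (nat_lit 16) (nat_lit 10) (nat_lit 1) (.e false (nat_lit 216) (nat_lit 66) (nat_lit 1) (nat_lit 7) (.e false (nat_lit 216) (nat_lit 67) (nat_lit 1) (nat_lit 7) (.e true (nat_lit 216) (nat_lit 55) (nat_lit 2) (nat_lit 6) .nil))))))) .leaf)) (nat_lit 36868) (nat_lit 218) (.p (nat_lit 120) (nat_lit 216) .z) .df (.nd (.nd (.nd .leaf (nat_lit 36869) (nat_lit 229) (.p (nat_lit 125) (nat_lit 216) .z) .df .leaf) (nat_lit 36871) (nat_lit 330) (.p (nat_lit 126) (nat_lit 456) (.n (nat_lit 128) (nat_lit 456) (.p (nat_lit 129) (nat_lit 456) (.n (nat_lit 131) (nat_lit 336) (.n (nat_lit 132) (nat_lit 624) (.n (nat_lit 133) (nat_lit 336) (.n (nat_lit 134) (nat_lit 960) (.p (nat_lit 135) (nat_lit 480) (.p (nat_lit 136) (nat_lit 2616) (.p (nat_lit 137) (nat_lit 480) (.n (nat_lit 138) (nat_lit 1656) (.n (nat_lit 141) (nat_lit 4744) (.n (nat_lit 142) (nat_lit 1392) (.p (nat_lit 143) (nat_lit 3352) (.p (nat_lit 144) (nat_lit 2416) (.n (nat_lit 145) (nat_lit 5032) (.p (nat_lit 146) (nat_lit 696) (.p (nat_lit 147) (nat_lit 168) (.p (nat_lit 148) (nat_lit 696) (.p (nat_lit 149) (nat_lit 1976) (.p (nat_lit 150) (nat_lit 1424) (.p (nat_lit 151) (nat_lit 1424) (.p (nat_lit 152) (nat_lit 2232) (.n (nat_lit 153) (nat_lit 2560) (.n (nat_lit 154) (nat_lit 2168) .z))))))))))))))))))))))))) (.ct dA4s_c292 (nat_lit 216) (nat_lit 5) (.s true (nat_lit 1) (nat_lit 36) (nat_lit 0) (nat_lit 1) (nat_lit 1) true (nat_lit 9) true (nat_lit 11) false (nat_lit 5) true (nat_lit 12) true (nat_lit 11) (.e true (nat_lit 216) (nat_lit 71) (nat_lit 3) (nat_lit 9) (.e false (nat_lit 648) (nat_lit 95) (nat_lit 1) (nat_lit 11) (.e true (nat_lit 648) (nat_lit 96) (nat_lit 1) (nat_lit 11) (.e false (nat_lit 648) (nat_lit 97) (nat_lit 1) (nat_lit 11) (.e false (nat_lit 432) (nat_lit 98) (nat_lit 1) (nat_lit 11) (.e true (nat_lit 648) (nat_lit 99) (nat_lit 1) (nat_lit 11) (.e true (nat_lit 432) (nat_lit 101) (nat_lit 1) (nat_lit 11) (.e true (nat_lit 864) (nat_lit 103) (nat_lit 1) (nat_lit 11) (.e true (nat_lit 216) (nat_lit 104) (nat_lit 1) (nat_lit 11) (.e true (nat_lit 216) (nat_lit 105) (nat_lit 1) (nat_lit 11) (.e true (nat_lit 432) (nat_lit 106) (nat_lit 1) (nat_lit 11) .nil))))))))))))) (.nd .leaf (nat_lit 36873) (nat_lit 382) (.n (nat_lit 156) (nat_lit 540) (.n (nat_lit 157) (nat_lit 540) (.p (nat_lit 158) (nat_lit 216) (.p (nat_lit 159) (nat_lit 432) (.n (nat_lit 160) (nat_lit 324) (.p (nat_lit 161) (nat_lit 162) (.p (nat_lit 162) (nat_lit 108) (.p (nat_lit 163) (nat_lit 162) (.p (nat_lit 164) (nat_lit 270) (.n (nat_lit 165) (nat_lit 324) (.n (nat_lit 166) (nat_lit 324) (.n (nat_lit 167) (nat_lit 216) (.p (nat_lit 168) (nat_lit 108) (.p (nat_lit 169) (nat_lit 216) (.p (nat_lit 171) (nat_lit 216) (.n (nat_lit 172) (nat_lit 216) .z)))))))))))))))) (.ct dA4s_c277 (nat_lit 216) (nat_lit 3) (.s true (nat_lit 1) (nat_lit 16) (nat_lit 4) (nat_lit 2) (nat_lit 1) true (nat_lit 3) true (nat_lit 9) true (nat_lit 0) true (nat_lit 6) true (nat_lit 8) (.e true (nat_lit 216) (nat_lit 24) (nat_lit 16) (nat_lit 0) (.e false (nat_lit 216) (nat_lit 70) (nat_lit 4) (nat_lit 6) (.e false (nat_lit 216) (nat_lit 71) (nat_lit 4) (nat_lit 6) (.e false (nat_lit 432) (nat_lit 94) (nat_lit 2) (nat_lit 8) (.e true (nat_lit 216) (nat_lit 95) (nat_lit 2) (nat_lit 8) (.e false (nat_lit 216) (nat_lit 96) (nat_lit 2) (nat_lit 8) (.e true (nat_lit 648) (nat_lit 97) (nat_lit 2) (nat_lit 8) (.e true (nat_lit 432) (nat_lit 98) (nat_lit 2) (nat_lit 8) (.e false (nat_lit 648) (nat_lit 99) (nat_lit 2) (nat_lit 8) (.e false (nat_lit 432) (nat_lit 101) (nat_lit 2) (nat_lit 8) (.e true (nat_lit 216) (nat_lit 104) (nat_lit 2) (nat_lit 8) (.e true (nat_lit 216) (nat_lit 105) (nat_lit 2) (nat_lit 8) (.e true (nat_lit 432) (nat_lit 106) (nat_lit 2) (nat_lit 8) (.e false (nat_lit 432) (nat_lit 107) (nat_lit 2) (nat_lit 8) (.e false (nat_lit 216) (nat_lit 109) (nat_lit 2) (nat_lit 8) .nil))))))))))))))))) .leaf)) (nat_lit 37890) (nat_lit 133) (.p (nat_lit 73) (nat_lit 540) (.n (nat_lit 74) (nat_lit 432) (.p (nat_lit 75) (nat_lit 108) (.n (nat_lit 77) (nat_lit 108) (.p (nat_lit 79) (nat_lit 108) (.p (nat_lit 80) (nat_lit 216) (.n (nat_lit 81) (nat_lit 1080) (.p (nat_lit 82) (nat_lit 324) (.n (nat_lit 83) (nat_lit 972) (.p (nat_lit 84) (nat_lit 108) (.p (nat_lit 85) (nat_lit 432) (.p (nat_lit 86) (nat_lit 108) (.p (nat_lit 87) (nat_lit 540) (.p (nat_lit 88) (nat_lit 648) (.p (nat_lit 89) (nat_lit 216) (.p (nat_lit 90) (nat_lit 540) (.n (nat_lit 93) (nat_lit 324) .z))))))))))))))))) (.ct dA4s_c291 (nat_lit 432) (nat_lit 7) (.s true (nat_lit 1) (nat_lit 5) (nat_lit 0) (nat_lit 2) (nat_lit 5) true (nat_lit 1) true (nat_lit 4) true (nat_lit 4) true (nat_lit 9) true (nat_lit 7) (.s false (nat_lit 1) (nat_lit 5) (nat_lit 0) (nat_lit 5) (nat_lit 2) true (nat_lit 5) true (nat_lit 7) true (nat_lit 4) true (nat_lit 9) true (nat_lit 4) (.s false (nat_lit 1) (nat_lit 5) (nat_lit 1) (nat_lit 2) (nat_lit 4) true (nat_lit 1) true (nat_lit 5) true (nat_lit 4) true (nat_lit 8) true (nat_lit 7) dA4s_i1)))) (.nd (.nd .leaf (nat_lit 37894) (nat_lit 290) (.p (nat_lit 126) (nat_lit 2604) (.n (nat_lit 128) (nat_lit 1740) (.p (nat_lit 129) (nat_lit 1740) (.n (nat_lit 131) (nat_lit 492) (.n (nat_lit 132) (nat_lit 1932) (.n (nat_lit 133) (nat_lit 492) (.n (nat_lit 134) (nat_lit 2424) (.p (nat_lit 135) (nat_lit 1212) (.p (nat_lit 136) (nat_lit 7356) (.p (nat_lit 137) (nat_lit 1212) (.n (nat_lit 138) (nat_lit 4932) (.n (nat_lit 141) (nat_lit 14432) (.n (nat_lit 142) (nat_lit 4368) (.p (nat_lit 143) (nat_lit 10064) (.p (nat_lit 144) (nat_lit 6896) (.n (nat_lit 145) (nat_lit 15008) (.p (nat_lit 146) (nat_lit 2184) (.p (nat_lit 147) (nat_lit 1272) (.p (nat_lit 148) (nat_lit 2184) (.p (nat_lit 149) (nat_lit 6424) (.p (nat_lit 150) (nat_lit 4744) (.p (nat_lit 151) (nat_lit 4528) (.p (nat_lit 152) (nat_lit 6408) (.n (nat_lit 153) (nat_lit 8048) (.n (nat_lit 154) (nat_lit 7600) (.p (nat_lit 155) (nat_lit 216) .z)))))))))))))))))))))))))) (.ct dA4s_c292 (nat_lit 216) (nat_lit 6) (.s false (nat_lit 1) (nat_lit 8) (nat_lit 5) (nat_lit 2) (nat_lit 2) true (nat_lit 1) true (nat_lit 10) true (nat_lit 4) true (nat_lit 7) true (nat_lit 10) (.s true (nat_lit 1) (nat_lit 14) (nat_lit 2) (nat_lit 2) (nat_lit 3) true (nat_lit 4) true (nat_lit 9) true (nat_lit 1) true (nat_lit 10) true (nat_lit 10) (.s false (nat_lit 1) (nat_lit 14) (nat_lit 2) (nat_lit 3) (nat_lit 2) true (nat_lit 6) true (nat_lit 10) true (nat_lit 1) true (nat_lit 10) true (nat_lit 9) (.s false (nat_lit 1) (nat_lit 22) (nat_lit 2) (nat_lit 1) (nat_lit 2) true (nat_lit 6) true (nat_lit 10) false (nat_lit 1) true (nat_lit 10) true (nat_lit 11) (.s false (nat_lit 1) (nat_lit 24) (nat_lit 2) (nat_lit 1) (nat_lit 2) true (nat_lit 6) true (nat_lit 10) false (nat_lit 1) true (nat_lit 10) true (nat_lit 11) dA4s_i31)))))) .leaf) (nat_lit 38914) (nat_lit 135) (.p (nat_lit 73) (nat_lit 108) (.p (nat_lit 76) (nat_lit 108) (.n (nat_lit 77) (nat_lit 108) (.p (nat_lit 78) (nat_lit 108) (.p (nat_lit 80) (nat_lit 108) (.p (nat_lit 81) (nat_lit 108) (.n (nat_lit 82) (nat_lit 108) (.n (nat_lit 86) (nat_lit 108) (.n (nat_lit 88) (nat_lit 108) (.p (nat_lit 91) (nat_lit 108) .z)))))))))) (.ct dA4s_c291 (nat_lit 432) (nat_lit 7) (.s false (nat_lit 1) (nat_lit 5) (nat_lit 1) (nat_lit 2) (nat_lit 4) true (nat_lit 1) true (nat_lit 5) true (nat_lit 4) true (nat_lit 8) true (nat_lit 7) (.s false (nat_lit 1) (nat_lit 5) (nat_lit 2) (nat_lit 4) (nat_lit 1) true (nat_lit 4) true (nat_lit 8) true (nat_lit 4) true (nat_lit 7) true (nat_lit 5) (.s true (nat_lit 1) (nat_lit 9) (nat_lit 2) (nat_lit 1) (nat_lit 2) true (nat_lit 3) true (nat_lit 7) true (nat_lit 1) true (nat_lit 7) true (nat_lit 8) (.s true (nat_lit 1) (nat_lit 12) (nat_lit 1) (nat_lit 1) (nat_lit 2) true (nat_lit 4) true (nat_lit 7) false (nat_lit 0) true (nat_lit 8) true (nat_lit 8) (.e false (nat_lit 216) (nat_lit 40) (nat_lit 2) (nat_lit 7) (.e true (nat_lit 216) (nat_lit 44) (nat_lit 2) (nat_lit 7) (.e false (nat_lit 216) (nat_lit 45) (nat_lit 2) (nat_lit 7) (.e false (nat_lit 216) (nat_lit 49) (nat_lit 1) (nat_lit 8) (.e true (nat_lit 216) (nat_lit 55) (nat_lit 1) (nat_lit 8) (.e false (nat_lit 216) (nat_lit 43) (nat_lit 2) (nat_lit 7) (.e false (nat_lit 216) (nat_lit 19) (nat_lit 6) (nat_lit 3) (.e false (nat_lit 216) (nat_lit 48) (nat_lit 1) (nat_lit 8) (.e true (nat_lit 216) (nat_lit 50) (nat_lit 1) (nat_lit 8) (.e true (nat_lit 216) (nat_lit 57) (nat_lit 1) (nat_lit 8) .nil))))))))))))))) .leaf))) (nat_lit 38918) (nat_lit 299) (.p (nat_lit 126) (nat_lit 456) (.n (nat_lit 128) (nat_lit 456) (.p (nat_lit 129) (nat_lit 456) (.n (nat_lit 131) (nat_lit 336) (.n (nat_lit 132) (nat_lit 624) (.n (nat_lit 133) (nat_lit 336) (.n (nat_lit 134) (nat_lit 960) (.p (nat_lit 135) (nat_lit 480) (.p (nat_lit 136) (nat_lit 2400) (.p (nat_lit 137) (nat_lit 480) (.n (nat_lit 138) (nat_lit 1656) (.p (nat_lit 139) (nat_lit 216) (.n (nat_lit 141) (nat_lit 5104) (.n (nat_lit 142) (nat_lit 1608) (.p (nat_lit 143) (nat_lit 3496) (.p (nat_lit 144) (nat_lit 2560) (.n (nat_lit 145) (nat_lit 5392) (.p (nat_lit 146) (nat_lit 804) (.p (nat_lit 147) (nat_lit 276) (.p (nat_lit 148) (nat_lit 804) (.p (nat_lit 149) (nat_lit 2264) (.p (nat_lit 150) (nat_lit 1604) (.p (nat_lit 151) (nat_lit 1604) (.p (nat_lit 152) (nat_lit 2556) (.n (nat_lit 153) (nat_lit 2812) (.n (nat_lit 154) (nat_lit 2564) .z)))))))))))))))))))))))))) (.ct dA4s_c292 (nat_lit 216) (nat_lit 6) (.s true (nat_lit 1) (nat_lit 9) (nat_lit 2) (nat_lit 1) (nat_lit 6) true (nat_lit 0) true (nat_lit 6) true (nat_lit 4) true (nat_lit 10) true (nat_lit 11) (.s true (nat_lit 1) (nat_lit 9) (nat_lit 2) (nat_lit 2) (nat_lit 5) true (nat_lit 1) true (nat_lit 7) true (nat_lit 4) true (nat_lit 10) true (nat_lit 10) (.s true (nat_lit 1) (nat_lit 19) (nat_lit 2) (nat_lit 2) (nat_lit 2) true (nat_lit 6) true (nat_lit 10) false (nat_lit 0) true (nat_lit 10) true (nat_lit 10) (.s true (nat_lit 1) (nat_lit 22) (nat_lit 2) (nat_lit 1) (nat_lit 2) true (nat_lit 6) true (nat_lit 10) false (nat_lit 1) true (nat_lit 10) true (nat_lit 11) (.e false (nat_lit 216) (nat_lit 80) (nat_lit 2) (nat_lit 10) (.e true (nat_lit 216) (nat_lit 82) (nat_lit 2) (nat_lit 10) (.e true (nat_lit 216) (nat_lit 86) (nat_lit 2) (nat_lit 10) (.e true (nat_lit 216) (nat_lit 88) (nat_lit 2) (nat_lit 10) (.e false (nat_lit 216) (nat_lit 91) (nat_lit 2) (nat_lit 10) (.e false (nat_lit 432) (nat_lit 94) (nat_lit 1) (nat_lit 11) (.e false (nat_lit 432) (nat_lit 95) (nat_lit 1) (nat_lit 11) (.e true (nat_lit 216) (nat_lit 96) (nat_lit 1) (nat_lit 11) (.e false (nat_lit 216) (nat_lit 97) (nat_lit 1) (nat_lit 11) (.e true (nat_lit 216) (nat_lit 98) (nat_lit 1) (nat_lit 11) (.e false (nat_lit 216) (nat_lit 99) (nat_lit 1) (nat_lit 11) (.e true (nat_lit 216) (nat_lit 101) (nat_lit 1) (nat_lit 11) (.e true (nat_lit 216) (nat_lit 103) (nat_lit 1) (nat_lit 11) (.e true (nat_lit 216) (nat_lit 49) (nat_lit 5) (nat_lit 7) .nil))))))))))))))))))) (.nd (.nd (.nd (.nd .leaf (nat_lit 39938) (nat_lit 143) (.n (nat_lit 73) (nat_lit 540) (.p (nat_lit 74) (nat_lit 1188) (.n (nat_lit 75) (nat_lit 540) (.p (nat_lit 76) (nat_lit 216) (.n (nat_lit 77) (nat_lit 108) (.n (nat_lit 80) (nat_lit 324) (.p (nat_lit 81) (nat_lit 1728) (.n (nat_lit 82) (nat_lit 648) (.p (nat_lit 83) (nat_lit 1404) (.n (nat_lit 84) (nat_lit 108) (.n (nat_lit 85) (nat_lit 648) (.n (nat_lit 86) (nat_lit 216) (.n (nat_lit 87) (nat_lit 864) (.n (nat_lit 88) (nat_lit 1080) (.n (nat_lit 89) (nat_lit 432) (.n (nat_lit 90) (nat_lit 756) (.p (nat_lit 92) (nat_lit 108) (.p (nat_lit 93) (nat_lit 648) .z)))))))))))))))))) (.ct dA4s_c291 (nat_lit 432) (nat_lit 7) (.s true (nat_lit 1) (nat_lit 5) (nat_lit 3) (nat_lit 2) (nat_lit 2) true (nat_lit 1) true (nat_lit 7) true (nat_lit 4) true (nat_lit 6) true (nat_lit 7) (.s false (nat_lit 1) (nat_lit 8) (nat_lit 1) (nat_lit 2) (nat_lit 2) true (nat_lit 4) true (nat_lit 7) true (nat_lit 1) true (nat_lit 8) true (nat_lit 7) (.e true (nat_lit 864) (nat_lit 37) (nat_lit 2) (nat_lit 7) (.e false (nat_lit 432) (nat_lit 38) (nat_lit 2) (nat_lit 7) (.e false (nat_lit 216) (nat_lit 34) (nat_lit 3) (nat_lit 6) (.e false (nat_lit 216) (nat_lit 35) (nat_lit 3) (nat_lit 6) (.e false (nat_lit 432) (nat_lit 43) (nat_lit 2) (nat_lit 7) (.e true (nat_lit 432) (nat_lit 45) (nat_lit 2) (nat_lit 7) (.e false (nat_lit 432) (nat_lit 40) (nat_lit 2) (nat_lit 7) (.e false (nat_lit 432) (nat_lit 41) (nat_lit 2) (nat_lit 7) (.e true (nat_lit 432) (nat_lit 42) (nat_lit 2) (nat_lit 7) (.e true (nat_lit 216) (nat_lit 44) (nat_lit 2) (nat_lit 7) (.e false (nat_lit 216) (nat_lit 47) (nat_lit 2) (nat_lit 7) (.e true (nat_lit 216) (nat_lit 57) (nat_lit 1) (nat_lit 8) .nil))))))))))))))) .leaf) (nat_lit 39942) (nat_lit 291) (.n (nat_lit 126) (nat_lit 12) (.p (nat_lit 128) (nat_lit 12) (.n (nat_lit 129) (nat_lit 12) (.n (nat_lit 131) (nat_lit 156) (.n (nat_lit 132) (nat_lit 12) (.n (nat_lit 133) (nat_lit 156) (.n (nat_lit 134) (nat_lit 168) (.p (nat_lit 135) (nat_lit 84) (.n (nat_lit 136) (nat_lit 12) (.p (nat_lit 137) (nat_lit 84) (.n (nat_lit 138) (nat_lit 36) (.p (nat_lit 140) (nat_lit 216) (.n (nat_lit 141) (nat_lit 40) (.n (nat_lit 142) (nat_lit 384) (.n (nat_lit 143) (nat_lit 344) (.n (nat_lit 144) (nat_lit 200) (.p (nat_lit 145) (nat_lit 104) (.p (nat_lit 146) (nat_lit 192) (.p (nat_lit 147) (nat_lit 456) (.p (nat_lit 148) (nat_lit 192) (.p (nat_lit 149) (nat_lit 272) (.p (nat_lit 150) (nat_lit 8) (.p (nat_lit 151) (nat_lit 8) (.n (nat_lit 152) (nat_lit 144) (.p (nat_lit 153) (nat_lit 56) (.n (nat_lit 154) (nat_lit 176) .z)))))))))))))))))))))))))) (.ct dA4s_c292 (nat_lit 216) (nat_lit 6) (.s true (nat_lit 1) (nat_lit 10) (nat_lit 2) (nat_lit 1) (nat_lit 6) true (nat_lit 0) true (nat_lit 6) true (nat_lit 4) true (nat_lit 10) true (nat_lit 11) dA4s_i32)) (.nd .leaf (nat_lit 40962) (nat_lit 107) (.p (nat_lit 73) (nat_lit 216) .z) .df .leaf)) (nat_lit 40966) (nat_lit 289) (.p (nat_lit 126) (nat_lit 444) (.n (nat_lit 128) (nat_lit 12) (.p (nat_lit 129) (nat_lit 12) (.p (nat_lit 131) (nat_lit 372) (.n (nat_lit 132) (nat_lit 204) (.p (nat_lit 133) (nat_lit 372) (.p (nat_lit 134) (nat_lit 168) (.n (nat_lit 135) (nat_lit 84) (.n (nat_lit 136) (nat_lit 204) (.n (nat_lit 137) (nat_lit 84) (.p (nat_lit 138) (nat_lit 36) (.p (nat_lit 141) (nat_lit 40) (.n (nat_lit 142) (nat_lit 696) (.n (nat_lit 143) (nat_lit 736) (.p (nat_lit 144) (nat_lit 200) (.n (nat_lit 145) (nat_lit 104) (.p (nat_lit 146) (nat_lit 348) (.p (nat_lit 147) (nat_lit 516) (.p (nat_lit 148) (nat_lit 348) (.n (nat_lit 149) (nat_lit 272) (.n (nat_lit 150) (nat_lit 548) (.n (nat_lit 151) (nat_lit 548) (.n (nat_lit 152) (nat_lit 828) (.p (nat_lit 153) (nat_lit 484) (.p (nat_lit 154) (nat_lit 68) .z))))))))))))))))))))))))) (.ct dA4s_c292 (nat_lit 216) (nat_lit 6) (.s true (nat_lit 1) (nat_lit 9) (nat_lit 2) (nat_lit 1) (nat_lit 6) true (nat_lit 0) true (nat_lit 6) true (nat_lit 4) true (nat_lit 10) true (nat_lit 11) (.s true (nat_lit 1) (nat_lit 9) (nat_lit 2) (nat_lit 2) (nat_lit 5) true (nat_lit 1) true (nat_lit 7) true (nat_lit 4) true (nat_lit 10) true (nat_lit 10) (.s false (nat_lit 1) (nat_lit 9) (nat_lit 6) (nat_lit 2) (nat_lit 1) true (nat_lit 1) true (nat_lit 11) true (nat_lit 4) true (nat_lit 6) true (nat_lit 10) (.s false (nat_lit 1) (nat_lit 16) (nat_lit 1) (nat_lit 1) (nat_lit 4) true (nat_lit 4) true (nat_lit 8) true (nat_lit 0) true (nat_lit 11) true (nat_lit 11) dA4s_i30))))) (.nd (.nd .leaf (nat_lit 41986) (nat_lit 108) (.p (nat_lit 74) (nat_lit 216) .z) .df .leaf) (nat_lit 41990) (nat_lit 282) (.p (nat_lit 126) (nat_lit 384) (.p (nat_lit 127) (nat_lit 432) (.n (nat_lit 128) (nat_lit 240) (.p (nat_lit 129) (nat_lit 384) (.n (nat_lit 130) (nat_lit 72) (.n (nat_lit 131) (nat_lit 264) (.n (nat_lit 132) (nat_lit 120) (.n (nat_lit 133) (nat_lit 264) (.n (nat_lit 134) (nat_lit 384) (.p (nat_lit 135) (nat_lit 192) (.p (nat_lit 136) (nat_lit 1464) (.p (nat_lit 137) (nat_lit 192) (.n (nat_lit 138) (nat_lit 792) (.n (nat_lit 141) (nat_lit 1576) (.p (nat_lit 142) (nat_lit 48) (.p (nat_lit 143) (nat_lit 1624) (.p (nat_lit 144) (nat_lit 472) (.n (nat_lit 145) (nat_lit 1432) (.n (nat_lit 146) (nat_lit 24) (.n (nat_lit 147) (nat_lit 300) (.n (nat_lit 148) (nat_lit 24) (.p (nat_lit 149) (nat_lit 896) (.p (nat_lit 150) (nat_lit 920) (.p (nat_lit 151) (nat_lit 848) (.p (nat_lit 152) (nat_lit 1188) (.n (nat_lit 153) (nat_lit 1192) (.n (nat_lit 154) (nat_lit 584) (.p (nat_lit 155) (nat_lit 72) .z)))))))))))))))))))))))))))) (.ct dA4s_c292 (nat_lit 216) (nat_lit 6) (.s false (nat_lit 1) (nat_lit 22) (nat_lit 1) (nat_lit 2) (nat_lit 2) true (nat_lit 7) true (nat_lit 10) false (nat_lit 1) true (nat_lit 11) true (nat_lit 10) (.s false (nat_lit 1) (nat_lit 22) (nat_lit 2) (nat_lit 1) (nat_lit 2) true (nat_lit 6) true (nat_lit 10) false (nat_lit 1) true (nat_lit 10) true (nat_lit 11) (.e false (nat_lit 216) (nat_lit 49) (nat_lit 5) (nat_lit 7) (.e false (nat_lit 216) (nat_lit 74) (nat_lit 2) (nat_lit 10) (.e true (nat_lit 648) (nat_lit 94) (nat_lit 1) (nat_lit 11) (.e true (nat_lit 432) (nat_lit 95) (nat_lit 1) (nat_lit 11) (.e false (nat_lit 648) (nat_lit 98) (nat_lit 1) (nat_lit 11) (.e true (nat_lit 648) (nat_lit 99) (nat_lit 1) (nat_lit 11) (.e false (nat_lit 108) (nat_lit 100) (nat_lit 1) (nat_lit 11) (.e true (nat_lit 108) (nat_lit 101) (nat_lit 1) (nat_lit 11) (.e false (nat_lit 108) (nat_lit 102) (nat_lit 1) (nat_lit 11) (.e true (nat_lit 108) (nat_lit 104) (nat_lit 1) (nat_lit 11) (.e true (nat_lit 108) (nat_lit 105) (nat_lit 1) (nat_lit 11) (.e false (nat_lit 108) (nat_lit 106) (nat_lit 1) (nat_lit 11) (.e true (nat_lit 108) (nat_lit 107) (nat_lit 1) (nat_lit 11) (.e false (nat_lit 108) (nat_lit 109) (nat_lit 1) (nat_lit 11) (.e false (nat_lit 432) (nat_lit 81) (nat_lit 2) (nat_lit 10) (.e true (nat_lit 216) (nat_lit 93) (nat_lit 2) (nat_lit 10) .nil))))))))))))))))))) .leaf)) (nat_lit 43010) (nat_lit 109) (.p (nat_lit 75) (nat_lit 216) .z) .df (.nd (.nd (.nd .leaf (nat_lit 43014) (nat_lit 300) (.n (nat_lit 126) (nat_lit 684) (.p (nat_lit 127) (nat_lit 432) (.p (nat_lit 128) (nat_lit 396) (.n (nat_lit 129) (nat_lit 252) (.n (nat_lit 130) (nat_lit 72) (.n (nat_lit 131) (nat_lit 108) (.p (nat_lit 132) (nat_lit 324) (.n (nat_lit 133) (nat_lit 108) (.p (nat_lit 134) (nat_lit 216) (.n (nat_lit 135) (nat_lit 108) (.n (nat_lit 136) (nat_lit 252) (.n (nat_lit 137) (nat_lit 108) (.p (nat_lit 138) (nat_lit 324) (.p (nat_lit 141) (nat_lit 2352) (.p (nat_lit 142) (nat_lit 648) (.n (nat_lit 143) (nat_lit 1704) (.n (nat_lit 144) (nat_lit 1056) (.p (nat_lit 145) (nat_lit 2352) (.n (nat_lit 146) (nat_lit 324) (.n (nat_lit 147) (nat_lit 648) (.n (nat_lit 148) (nat_lit 324) (.n (nat_lit 149) (nat_lit 1320) (.n (nat_lit 150) (nat_lit 924) (.n (nat_lit 151) (nat_lit 996) (.n (nat_lit 152) (nat_lit 936) (.p (nat_lit 153) (nat_lit 1452) (.p (nat_lit 154) (nat_lit 2076) (.p (nat_lit 155) (nat_lit 72) .z)))))))))))))))))))))))))))) (.ct dA4s_c292 (nat_lit 216) (nat_lit 6) (.s false (nat_lit 1) (nat_lit 23) (nat_lit 2) (nat_lit 1) (nat_lit 2) true (nat_lit 6) true (nat_lit 10) false (nat_lit 1) true (nat_lit 10) true (nat_lit 11) (.e false (nat_lit 324) (nat_lit 82) (nat_lit 2) (nat_lit 10) (.e true (nat_lit 216) (nat_lit 23) (nat_lit 14) (nat_lit 1) (.e false (nat_lit 108) (nat_lit 73) (nat_lit 2) (nat_lit 10) (.e true (nat_lit 216) (nat_lit 74) (nat_lit 2) (nat_lit 10) (.e false (nat_lit 216) (nat_lit 75) (nat_lit 2) (nat_lit 10) (.e true (nat_lit 108) (nat_lit 76) (nat_lit 2) (nat_lit 10) (.e false (nat_lit 108) (nat_lit 78) (nat_lit 2) (nat_lit 10) (.e false (nat_lit 108) (nat_lit 80) (nat_lit 2) (nat_lit 10) (.e true (nat_lit 324) (nat_lit 81) (nat_lit 2) (nat_lit 10) (.e true (nat_lit 216) (nat_lit 83) (nat_lit 2) (nat_lit 10) (.e false (nat_lit 108) (nat_lit 85) (nat_lit 2) (nat_lit 10) (.e false (nat_lit 108) (nat_lit 86) (nat_lit 2) (nat_lit 10) (.e false (nat_lit 108) (nat_lit 87) (nat_lit 2) (nat_lit 10) (.e false (nat_lit 216) (nat_lit 88) (nat_lit 2) (nat_lit 10) (.e false (nat_lit 108) (nat_lit 90) (nat_lit 2) (nat_lit 10) (.e true (nat_lit 216) (nat_lit 93) (nat_lit 2) (nat_lit 10) (.e false (nat_lit 216) (nat_lit 96) (nat_lit 1) (nat_lit 11) .nil))))))))))))))))))) .leaf) (nat_lit 44034) (nat_lit 110) (.p (nat_lit 76) (nat_lit 216) .z) .df .leaf) (nat_lit 44038) (nat_lit 283) (.n (nat_lit 126) (nat_lit 216) (.p (nat_lit 128) (nat_lit 216) (.n (nat_lit 129) (nat_lit 216) (.p (nat_lit 130) (nat_lit 216) (.p (nat_lit 131) (nat_lit 216) (.p (nat_lit 132) (nat_lit 216) (.p (nat_lit 133) (nat_lit 216) (.p (nat_lit 134) (nat_lit 432) (.n (nat_lit 135) (nat_lit 216) (.n (nat_lit 136) (nat_lit 1080) (.n (nat_lit 137) (nat_lit 216) (.p (nat_lit 138) (nat_lit 648) (.p (nat_lit 141) (nat_lit 1800) (.p (nat_lit 142) (nat_lit 216) (.n (nat_lit 143) (nat_lit 1584) (.n (nat_lit 144) (nat_lit 720) (.p (nat_lit 145) (nat_lit 1800) (.n (nat_lit 146) (nat_lit 108) (.p (nat_lit 147) (nat_lit 108) (.n (nat_lit 148) (nat_lit 108) (.n (nat_lit 149) (nat_lit 792) (.n (nat_lit 150) (nat_lit 900) (.n (nat_lit 151) (nat_lit 684) (.n (nat_lit 152) (nat_lit 972) (.p (nat_lit 153) (nat_lit 1260) (.p (nat_lit 154) (nat_lit 900) (.n (nat_lit 155) (nat_lit 216) .z))))))))))))))))))))))))))) (.ct dA4s_c292 (nat_lit 216) (nat_lit 6) (.s false (nat_lit 1) (nat_lit 6) (nat_lit 1) (nat_lit 5) (nat_lit 4) true (nat_lit 4) true (nat_lit 8) true (nat_lit 6) true (nat_lit 11) true (nat_lit 7) (.s false (nat_lit 1) (nat_lit 9) (nat_lit 2) (nat_lit 2) (nat_lit 5) true (nat_lit 1) true (nat_lit 7) true (nat_lit 4) true (nat_lit 10) true (nat_lit 10) (.s false (nat_lit 1) (nat_lit 9) (nat_lit 6) (nat_lit 2) (nat_lit 1) true (nat_lit 1) true (nat_lit 11) true (nat_lit 4) true (nat_lit 6) true (nat_lit 10) (.s true (nat_lit 1) (nat_lit 11) (nat_lit 2) (nat_lit 2) (nat_lit 4) true (nat_lit 2) true (nat_lit 8) true (nat_lit 3) true (nat_lit 10) true (nat_lit 10) (.s true (nat_lit 1) (nat_lit 13) (nat_lit 1) (nat_lit 6) (nat_lit 1) false (nat_lit 13) true (nat_lit 11) true (nat_lit 2) true (nat_lit 11) true (nat_lit 6) (.s false (nat_lit 1) (nat_lit 12) (nat_lit 2) (nat_lit 5) (nat_lit 1) true (nat_lit 7) true (nat_lit 11) true (nat_lit 2) true (nat_lit 10) true (nat_lit 7) (.s false (nat_lit 1) (nat_lit 12) (nat_lit 5) (nat_lit 1) (nat_lit 2) true (nat_lit 1) true (nat_lit 10) true (nat_lit 2) true (nat_lit 7) true (nat_lit 11) (.s true (nat_lit 1) (nat_lit 12) (nat_lit 5) (nat_lit 2) (nat_lit 1) true (nat_lit 3) true (nat_lit 11) true (nat_lit 2) true (nat_lit 7) true (nat_lit 10) (.s false (nat_lit 1) (nat_lit 14) (nat_lit 2) (nat_lit 4) (nat_lit 1) true (nat_lit 7) true (nat_lit 11) true (nat_lit 1) true (nat_lit 10) true (nat_lit 8) (.s false (nat_lit 1) (nat_lit 16) (nat_lit 1) (nat_lit 1) (nat_lit 4) true (nat_lit 4) true (nat_lit 8) true (nat_lit 0) true (nat_lit 11) true (nat_lit 11) dA4s_i27))))))))))) (.nd (.nd .leaf (nat_lit 45058) (nat_lit 111) (.p (nat_lit 77) (nat_lit 216) .z) .df .leaf) (nat_lit 45062) (nat_lit 273) (.n (nat_lit 126) (nat_lit 1344) (.p (nat_lit 128) (nat_lit 1344) (.n (nat_lit 129) (nat_lit 1344) (.p (nat_lit 130) (nat_lit 432) (.p (nat_lit 131) (nat_lit 1104) (.p (nat_lit 132) (nat_lit 1680) (.p (nat_lit 133) (nat_lit 1104) (.p (nat_lit 134) (nat_lit 2784) (.n (nat_lit 135) (nat_lit 1392) (.n (nat_lit 136) (nat_lit 6960) (.n (nat_lit 137) (nat_lit 1392) (.p (nat_lit 138) (nat_lit 4608) (.p (nat_lit 141) (nat_lit 12656) (.p (nat_lit 142) (nat_lit 3648) (.n (nat_lit 143) (nat_lit 9008) (.n (nat_lit 144) (nat_lit 5840) (.p (nat_lit 145) (nat_lit 13232) (.n (nat_lit 146) (nat_lit 1824) (.n (nat_lit 147) (nat_lit 768) (.n (nat_lit 148) (nat_lit 1824) (.n (nat_lit 149) (nat_lit 5536) (.n (nat_lit 150) (nat_lit 4432) (.n (nat_lit 151) (nat_lit 4000) (.n (nat_lit 152) (nat_lit 6192) (.p (nat_lit 153) (nat_lit 7208) (.p (nat_lit 154) (nat_lit 6352) (.n (nat_lit 155) (nat_lit 432) .z))))))))))))))))))))))))))) (.ct dA4s_c292 (nat_lit 432) (nat_lit 6) (.s false (nat_lit 2) (nat_lit 6) (nat_lit 1) (nat_lit 4) (nat_lit 5) true (nat_lit 3) true (nat_lit 7) true (nat_lit 6) true (nat_lit 11) true (nat_lit 8) (.s true (nat_lit 4) (nat_lit 6) (nat_lit 1) (nat_lit 5) (nat_lit 4) true (nat_lit 4) true (nat_lit 8) true (nat_lit 6) true (nat_lit 11) true (nat_lit 7) (.s false (nat_lit 2) (nat_lit 6) (nat_lit 2) (nat_lit 5) (nat_lit 3) true (nat_lit 4) true (nat_lit 9) true (nat_lit 6) true (nat_lit 10) true (nat_lit 7) (.s true (nat_lit 2) (nat_lit 7) (nat_lit 2) (nat_lit 2) (nat_lit 6) true (nat_lit 0) true (nat_lit 6) true (nat_lit 5) true (nat_lit 10) true (nat_lit 10) (.s false (nat_lit 2) (nat_lit 8) (nat_lit 2) (nat_lit 1) (nat_lit 6) true (nat_lit 0) true (nat_lit 6) true (nat_lit 4) true (nat_lit 10) true (nat_lit 11) (.s false (nat_lit 4) (nat_lit 9) (nat_lit 2) (nat_lit 1) (nat_lit 6) true (nat_lit 0) true (nat_lit 6) true (nat_lit 4) true (nat_lit 10) true (nat_lit 11) (.s true (nat_lit 4) (nat_lit 9) (nat_lit 6) (nat_lit 2) (nat_lit 1) true (nat_lit 1) true (nat_lit 11) true (nat_lit 4) true (nat_lit 6) true (nat_lit 10) (.s false (nat_lit 6) (nat_lit 11) (nat_lit 2) (nat_lit 2) (nat_lit 4) true (nat_lit 2) true (nat_lit 8) true (nat_lit 3) true (nat_lit 10) true (nat_lit 10) (.s false (nat_lit 1) (nat_lit 13) (nat_lit 1) (nat_lit 1) (nat_lit 6) true (nat_lit 1) true (nat_lit 6) true (nat_lit 2) true (nat_lit 11) true (nat_lit 11) dA4s_i16)))))))))) .leaf)))) (nat_lit 46082) (nat_lit 112) (.p (nat_lit 78) (nat_lit 216) .z) .df (.nd (.nd (.nd (.nd (.nd .leaf (nat_lit 46086) (nat_lit 271) (.n (nat_lit 126) (nat_lit 1092) (.p (nat_lit 128) (nat_lit 660) (.n (nat_lit 129) (nat_lit 660) (.p (nat_lit 130) (nat_lit 216) (.p (nat_lit 131) (nat_lit 276) (.p (nat_lit 132) (nat_lit 852) (.p (nat_lit 133) (nat_lit 276) (.p (nat_lit 134) (nat_lit 1128) (.n (nat_lit 135) (nat_lit 564) (.n (nat_lit 136) (nat_lit 3036) (.n (nat_lit 137) (nat_lit 564) (.p (nat_lit 138) (nat_lit 1908) (.p (nat_lit 141) (nat_lit 4496) (.p (nat_lit 142) (nat_lit 1344) (.n (nat_lit 143) (nat_lit 3152) (.n (nat_lit 144) (nat_lit 1928) (.p (nat_lit 145) (nat_lit 4640) (.n (nat_lit 146) (nat_lit 672) (.n (nat_lit 147) (nat_lit 408) (.n (nat_lit 148) (nat_lit 672) (.n (nat_lit 149) (nat_lit 1888) (.n (nat_lit 150) (nat_lit 1504) (.n (nat_lit 151) (nat_lit 1288) (.n (nat_lit 152) (nat_lit 1872) (.p (nat_lit 153) (nat_lit 2432) (.p (nat_lit 154) (nat_lit 1984) (.n (nat_lit 155) (nat_lit 216) .z))))))))))))))))))))))))))) (.ct dA4s_c292 (nat_lit 432) (nat_lit 6) (.s false (nat_lit 1) (nat_lit 6) (nat_lit 1) (nat_lit 4) (nat_lit 5) true (nat_lit 3) true (nat_lit 7) true (nat_lit 6) true (nat_lit 11) true (nat_lit 8) (.s false (nat_lit 4) (nat_lit 7) (nat_lit 2) (nat_lit 2) (nat_lit 6) true (nat_lit 0) true (nat_lit 6) true (nat_lit 5) true (nat_lit 10) true (nat_lit 10) (.s false (nat_lit 2) (nat_lit 8) (nat_lit 5) (nat_lit 2) (nat_lit 2) true (nat_lit 1) true (nat_lit 10) true (nat_lit 4) true (nat_lit 7) true (nat_lit 10) (.s false (nat_lit 1) (nat_lit 11) (nat_lit 2) (nat_lit 2) (nat_lit 4) true (nat_lit 2) true (nat_lit 8) true (nat_lit 3) true (nat_lit 10) true (nat_lit 10) (.s false (nat_lit 1) (nat_lit 13) (nat_lit 1) (nat_lit 1) (nat_lit 6) true (nat_lit 1) true (nat_lit 6) true (nat_lit 2) true (nat_lit 11) true (nat_lit 11) (.s false (nat_lit 1) (nat_lit 13) (nat_lit 1) (nat_lit 6) (nat_lit 1) false (nat_lit 13) true (nat_lit 11) true (nat_lit 2) true (nat_lit 11) true (nat_lit 6) (.s false (nat_lit 1) (nat_lit 12) (nat_lit 2) (nat_lit 5) (nat_lit 1) true (nat_lit 7) true (nat_lit 11) true (nat_lit 2) true (nat_lit 10) true (nat_lit 7) (.s true (nat_lit 1) (nat_lit 12) (nat_lit 5) (nat_lit 1) (nat_lit 2) true (nat_lit 1) true (nat_lit 10) true (nat_lit 2) true (nat_lit 7) true (nat_lit 11) (.s true (nat_lit 1) (nat_lit 12) (nat_lit 5) (nat_lit 2) (nat_lit 1) true (nat_lit 3) true (nat_lit 11) true (nat_lit 2) true (nat_lit 7) true (nat_lit 10) (.s true (nat_lit 2) (nat_lit 14) (nat_lit 2) (nat_lit 2) (nat_lit 3) true (nat_lit 4) true (nat_lit 9) true (nat_lit 1) true (nat_lit 10) true (nat_lit 10) (.s false (nat_lit 2) (nat_lit 14) (nat_lit 2) (nat_lit 3) (nat_lit 2) true (nat_lit 6) true (nat_lit 10) true (nat_lit 1) true (nat_lit 10) true (nat_lit 9) (.s true (nat_lit 1) (nat_lit 14) (nat_lit 2) (nat_lit 4) (nat_lit 1) true (nat_lit 7) true (nat_lit 11) true (nat_lit 1) true (nat_lit 10) true (nat_lit 8) (.s true (nat_lit 4) (nat_lit 16) (nat_lit 0) (nat_lit 1) (nat_lit 5) true (nat_lit 4) true (nat_lit 7) true (nat_lit 0) true (nat_lit 12) true (nat_lit 11) (.s true (nat_lit 1) (nat_lit 16) (nat_lit 0) (nat_lit 5) (nat_lit 1) true (nat_lit 9) true (nat_lit 11) true (nat_lit 0) true (nat_lit 12) true (nat_lit 7) (.s false (nat_lit 1) (nat_lit 16) (nat_lit 1) (nat_lit 1) (nat_lit 4) true (nat_lit 4) true (nat_lit 8) true (nat_lit 0) true (nat_lit 11) true (nat_lit 11) (.s false (nat_lit 2) (nat_lit 16) (nat_lit 1) (nat_lit 3) (nat_lit 2) true (nat_lit 7) true (nat_lit 10) true (nat_lit 0) true (nat_lit 11) true (nat_lit 9) dA4s_i13))))))))))))))))) .leaf) (nat_lit 47106) (nat_lit 134) (.p (nat_lit 73) (nat_lit 432) (.n (nat_lit 74) (nat_lit 648) (.n (nat_lit 75) (nat_lit 108) (.n (nat_lit 76) (nat_lit 324) (.p (nat_lit 77) (nat_lit 108) (.p (nat_lit 78) (nat_lit 108) (.p (nat_lit 79) (nat_lit 108) (.p (nat_lit 80) (nat_lit 108) (.n (nat_lit 81) (nat_lit 1836) (.p (nat_lit 82) (nat_lit 432) (.n (nat_lit 83) (nat_lit 1620) (.p (nat_lit 84) (nat_lit 108) (.p (nat_lit 85) (nat_lit 756) (.p (nat_lit 86) (nat_lit 432) (.p (nat_lit 87) (nat_lit 864) (.p (nat_lit 88) (nat_lit 1080) (.p (nat_lit 89) (nat_lit 216) (.p (nat_lit 90) (nat_lit 648) (.p (nat_lit 92) (nat_lit 216) (.n (nat_lit 93) (nat_lit 324) .z)))))))))))))))))))) (.ct dA4s_c291 (nat_lit 216) (nat_lit 7) (.s true (nat_lit 1) (nat_lit 5) (nat_lit 1) (nat_lit 4) (nat_lit 2) true (nat_lit 4) true (nat_lit 7) true (nat_lit 4) true (nat_lit 8) true (nat_lit 5) (.s false (nat_lit 1) (nat_lit 5) (nat_lit 2) (nat_lit 1) (nat_lit 4) false (nat_lit 0) true (nat_lit 5) true (nat_lit 4) true (nat_lit 7) true (nat_lit 8) (.s true (nat_lit 1) (nat_lit 10) (nat_lit 1) (nat_lit 2) (nat_lit 2) true (nat_lit 4) true (nat_lit 7) true (nat_lit 1) true (nat_lit 8) true (nat_lit 7) (.s true (nat_lit 1) (nat_lit 10) (nat_lit 2) (nat_lit 1) (nat_lit 2) true (nat_lit 3) true (nat_lit 7) true (nat_lit 1) true (nat_lit 7) true (nat_lit 8) (.s true (nat_lit 1) (nat_lit 12) (nat_lit 1) (nat_lit 2) (nat_lit 1) false (nat_lit 10) true (nat_lit 8) false (nat_lit 0) true (nat_lit 8) true (nat_lit 7) (.e false (nat_lit 216) (nat_lit 22) (nat_lit 5) (nat_lit 4) (.e true (nat_lit 216) (nat_lit 40) (nat_lit 2) (nat_lit 7) (.e false (nat_lit 216) (nat_lit 44) (nat_lit 2) (nat_lit 7) (.e true (nat_lit 216) (nat_lit 43) (nat_lit 2) (nat_lit 7) (.e true (nat_lit 216) (nat_lit 48) (nat_lit 1) (nat_lit 8) (.e true (nat_lit 432) (nat_lit 49) (nat_lit 1) (nat_lit 8) (.e true (nat_lit 216) (nat_lit 23) (nat_lit 5) (nat_lit 4) (.e true (nat_lit 432) (nat_lit 51) (nat_lit 1) (nat_lit 8) (.e false (nat_lit 216) (nat_lit 54) (nat_lit 1) (nat_lit 8) (.e false (nat_lit 216) (nat_lit 55) (nat_lit 1) (nat_lit 8) (.e false (nat_lit 216) (nat_lit 56) (nat_lit 1) (nat_lit 8) (.e false (nat_lit 216) (nat_lit 57) (nat_lit 1) (nat_lit 8) (.e true (nat_lit 432) (nat_lit 42) (nat_lit 2) (nat_lit 7) (.e false (nat_lit 216) (nat_lit 20) (nat_lit 6) (nat_lit 3) (.e false (nat_lit 216) (nat_lit 37) (nat_lit 2) (nat_lit 7) .nil))))))))))))))))))))) (.nd .leaf (nat_lit 47110) (nat_lit 304) (.p (nat_lit 126) (nat_lit 1008) (.n (nat_lit 127) (nat_lit 864) (.n (nat_lit 128) (nat_lit 432) (.p (nat_lit 129) (nat_lit 144) (.p (nat_lit 130) (nat_lit 360) (.p (nat_lit 131) (nat_lit 720) (.n (nat_lit 132) (nat_lit 144) (.p (nat_lit 133) (nat_lit 720) (.p (nat_lit 134) (nat_lit 576) (.n (nat_lit 135) (nat_lit 288) (.n (nat_lit 136) (nat_lit 1152) (.n (nat_lit 137) (nat_lit 288) (.p (nat_lit 138) (nat_lit 432) (.p (nat_lit 140) (nat_lit 432) (.n (nat_lit 141) (nat_lit 1224) (.n (nat_lit 142) (nat_lit 936) (.p (nat_lit 143) (nat_lit 288) (.p (nat_lit 144) (nat_lit 720) (.n (nat_lit 145) (nat_lit 1224) (.p (nat_lit 146) (nat_lit 468) (.p (nat_lit 147) (nat_lit 1476) (.p (nat_lit 148) (nat_lit 468) (.p (nat_lit 149) (nat_lit 792) (.p (nat_lit 150) (nat_lit 180) (.p (nat_lit 151) (nat_lit 324) (.n (nat_lit 152) (nat_lit 612) (.n (nat_lit 153) (nat_lit 540) (.n (nat_lit 154) (nat_lit 2124) (.n (nat_lit 155) (nat_lit 144) .z))))))))))))))))))))))))))))) (.ct dA4s_c292 (nat_lit 216) (nat_lit 6) (.s true (nat_lit 1) (nat_lit 6) (nat_lit 0) (nat_lit 5) (nat_lit 5) true (nat_lit 4) true (nat_lit 7) true (nat_lit 6) true (nat_lit 12) true (nat_lit 7) dA4s_i37)) .leaf)) (nat_lit 48130) (nat_lit 113) (.p (nat_lit 79) (nat_lit 216) .z) .df (.nd (.nd .leaf (nat_lit 48134) (nat_lit 293) (.n (nat_lit 126) (nat_lit 216) (.p (nat_lit 128) (nat_lit 216) (.n (nat_lit 129) (nat_lit 216) (.p (nat_lit 130) (nat_lit 432) (.p (nat_lit 131) (nat_lit 216) (.p (nat_lit 132) (nat_lit 216) (.p (nat_lit 133) (nat_lit 216) (.p (nat_lit 134) (nat_lit 432) (.n (nat_lit 135) (nat_lit 216) (.n (nat_lit 136) (nat_lit 216) (.n (nat_lit 137) (nat_lit 216) (.p (nat_lit 138) (nat_lit 216) (.p (nat_lit 141) (nat_lit 576) (.n (nat_lit 143) (nat_lit 576) (.n (nat_lit 144) (nat_lit 144) (.p (nat_lit 145) (nat_lit 576) (.n (nat_lit 149) (nat_lit 288) (.n (nat_lit 150) (nat_lit 288) (.n (nat_lit 151) (nat_lit 288) (.n (nat_lit 152) (nat_lit 432) (.p (nat_lit 153) (nat_lit 360) (.p (nat_lit 154) (nat_lit 288) .z)))))))))))))))))))))) (.ct dA4s_c292 (nat_lit 216) (nat_lit 6) (.s false (nat_lit 1) (nat_lit 13) (nat_lit 1) (nat_lit 6) (nat_lit 1) false (nat_lit 13) true (nat_lit 11) true (nat_lit 2) true (nat_lit 11) true (nat_lit 6) (.s false (nat_lit 1) (nat_lit 29) (nat_lit 0) (nat_lit 2) (nat_lit 2) true (nat_lit 8) true (nat_lit 10) false (nat_lit 2) true (nat_lit 12) true (nat_lit 10) (.s false (nat_lit 1) (nat_lit 29) (nat_lit 2) (nat_lit 0) (nat_lit 2) true (nat_lit 6) true (nat_lit 10) false (nat_lit 2) true (nat_lit 10) true (nat_lit 12) (.s true (nat_lit 1) (nat_lit 29) (nat_lit 2) (nat_lit 2) (nat_lit 0) true (nat_lit 8) true (nat_lit 12) false (nat_lit 2) true (nat_lit 10) true (nat_lit 10) (.e false (nat_lit 432) (nat_lit 103) (nat_lit 1) (nat_lit 11) (.e false (nat_lit 432) (nat_lit 105) (nat_lit 1) (nat_lit 11) (.e false (nat_lit 432) (nat_lit 106) (nat_lit 1) (nat_lit 11) (.e true (nat_lit 216) (nat_lit 44) (nat_lit 6) (nat_lit 6) (.e false (nat_lit 864) (nat_lit 79) (nat_lit 2) (nat_lit 10) (.e true (nat_lit 216) (nat_lit 111) (nat_lit 0) (nat_lit 12) (.e false (nat_lit 864) (nat_lit 113) (nat_lit 0) (nat_lit 12) (.e false (nat_lit 648) (nat_lit 114) (nat_lit 0) (nat_lit 12) (.e true (nat_lit 216) (nat_lit 115) (nat_lit 0) (nat_lit 12) (.e true (nat_lit 432) (nat_lit 73) (nat_lit 2) (nat_lit 10) (.e false (nat_lit 432) (nat_lit 76) (nat_lit 2) (nat_lit 10) (.e true (nat_lit 432) (nat_lit 78) (nat_lit 2) (nat_lit 10) (.e true (nat_lit 432) (nat_lit 80) (nat_lit 2) (nat_lit 10) (.e true (nat_lit 432) (nat_lit 81) (nat_lit 2) (nat_lit 10) (.e false (nat_lit 432) (nat_lit 82) (nat_lit 2) (nat_lit 10) (.e false (nat_lit 432) (nat_lit 88) (nat_lit 2) (nat_lit 10) (.e false (nat_lit 432) (nat_lit 90) (nat_lit 2) (nat_lit 10) (.e false (nat_lit 432) (nat_lit 86) (nat_lit 2) (nat_lit 10) .nil))))))))))))))))))))))) .leaf) (nat_lit 49153) (nat_lit 114) (.p (nat_lit 80) (nat_lit 216) .z) .df .leaf)) (nat_lit 49154) (nat_lit 159) (.p (nat_lit 94) (nat_lit 216) .z) .df (.nd (.nd (.nd .leaf (nat_lit 49157) (nat_lit 285) (.p (nat_lit 126) (nat_lit 12) (.n (nat_lit 128) (nat_lit 12) (.p (nat_lit 129) (nat_lit 12) (.n (nat_lit 131) (nat_lit 60) (.p (nat_lit 132) (nat_lit 12) (.p (nat_lit 133) (nat_lit 156) (.p (nat_lit 134) (nat_lit 168) (.n (nat_lit 135) (nat_lit 84) (.p (nat_lit 136) (nat_lit 12) (.n (nat_lit 137) (nat_lit 84) (.n (nat_lit 138) (nat_lit 180) (.n (nat_lit 141) (nat_lit 320) (.n (nat_lit 142) (nat_lit 264) (.n (nat_lit 143) (nat_lit 160) (.p (nat_lit 144) (nat_lit 344) (.n (nat_lit 145) (nat_lit 248) (.p (nat_lit 146) (nat_lit 132) (.n (nat_lit 147) (nat_lit 132) (.p (nat_lit 148) (nat_lit 132) (.p (nat_lit 149) (nat_lit 16) (.n (nat_lit 150) (nat_lit 260) (.n (nat_lit 151) (nat_lit 260) (.n (nat_lit 152) (nat_lit 180) (.p (nat_lit 153) (nat_lit 124) (.p (nat_lit 154) (nat_lit 212) .z))))))))))))))))))))))))) (.ct dA4s_c292 (nat_lit 864) (nat_lit 7) (.s false (nat_lit 2) (nat_lit 5) (nat_lit 4) (nat_lit 2) (nat_lit 5) false (nat_lit 1) true (nat_lit 7) true (nat_lit 7) true (nat_lit 8) true (nat_lit 10) (.s true (nat_lit 2) (nat_lit 11) (nat_lit 2) (nat_lit 2) (nat_lit 4) true (nat_lit 2) true (nat_lit 8) true (nat_lit 3) true (nat_lit 10) true (nat_lit 10) (.s true (nat_lit 1) (nat_lit 13) (nat_lit 1) (nat_lit 1) (nat_lit 6) true (nat_lit 1) true (nat_lit 6) true (nat_lit 2) true (nat_lit 11) true (nat_lit 11) (.s true (nat_lit 2) (nat_lit 12) (nat_lit 1) (nat_lit 5) (nat_lit 2) true (nat_lit 7) true (nat_lit 10) true (nat_lit 2) true (nat_lit 11) true (nat_lit 7) (.s false (nat_lit 2) (nat_lit 12) (nat_lit 2) (nat_lit 5) (nat_lit 1) true (nat_lit 7) true (nat_lit 11) true (nat_lit 2) true (nat_lit 10) true (nat_lit 7) dA4s_i29)))))) .leaf) (nat_lit 49158) (nat_lit 351) (.p (nat_lit 172) (nat_lit 216) .z) .df .leaf) (nat_lit 50177) (nat_lit 115) (.p (nat_lit 81) (nat_lit 216) .z) .df (.nd (.nd .leaf (nat_lit 50178) (nat_lit 160) (.p (nat_lit 95) (nat_lit 216) .z) .df .leaf) (nat_lit 50181) (nat_lit 279) (.n (nat_lit 126) (nat_lit 228) (.p (nat_lit 128) (nat_lit 228) (.n (nat_lit 129) (nat_lit 228) (.p (nat_lit 131) (nat_lit 60) (.n (nat_lit 132) (nat_lit 12) (.p (nat_lit 133) (nat_lit 60) (.p (nat_lit 134) (nat_lit 264) (.n (nat_lit 135) (nat_lit 132) (.n (nat_lit 136) (nat_lit 1092) (.n (nat_lit 137) (nat_lit 132) (.p (nat_lit 138) (nat_lit 828) (.p (nat_lit 141) (nat_lit 2624) (.p (nat_lit 142) (nat_lit 1128) (.n (nat_lit 143) (nat_lit 1280) (.n (nat_lit 144) (nat_lit 1568) (.p (nat_lit 145) (nat_lit 2768) (.n (nat_lit 146) (nat_lit 456) (.n (nat_lit 147) (nat_lit 192) (.n (nat_lit 148) (nat_lit 456) (.n (nat_lit 149) (nat_lit 952) (.n (nat_lit 150) (nat_lit 568) (.n (nat_lit 151) (nat_lit 568) (.n (nat_lit 152) (nat_lit 1008) (.p (nat_lit 153) (nat_lit 1208) (.p (nat_lit 154) (nat_lit 1048) .z))))))))))))))))))))))))) (.ct dA4s_c292 (nat_lit 216) (nat_lit 7) (.s true (nat_lit 1) (nat_lit 9) (nat_lit 2) (nat_lit 1) (nat_lit 6) true (nat_lit 0) true (nat_lit 6) true (nat_lit 4) true (nat_lit 10) true (nat_lit 11) (.s true (nat_lit 1) (nat_lit 9) (nat_lit 2) (nat_lit 2) (nat_lit 5) true (nat_lit 1) true (nat_lit 7) true (nat_lit 4) true (nat_lit 10) true (nat_lit 10) (.s false (nat_lit 1) (nat_lit 16) (nat_lit 1) (nat_lit 4) (nat_lit 1) false (nat_lit 13) true (nat_lit 11) true (nat_lit 0) true (nat_lit 11) true (nat_lit 8) (.s true (nat_lit 1) (nat_lit 22) (nat_lit 2) (nat_lit 1) (nat_lit 2) true (nat_lit 6) true (nat_lit 10) false (nat_lit 1) true (nat_lit 10) true (nat_lit 11) (.e false (nat_lit 216) (nat_lit 80) (nat_lit 2) (nat_lit 10) (.e true (nat_lit 216) (nat_lit 82) (nat_lit 2) (nat_lit 10) (.e true (nat_lit 216) (nat_lit 86) (nat_lit 2) (nat_lit 10) (.e true (nat_lit 216) (nat_lit 88) (nat_lit 2) (nat_lit 10) (.e false (nat_lit 648) (nat_lit 94) (nat_lit 1) (nat_lit 11) (.e false (nat_lit 216) (nat_lit 95) (nat_lit 1) (nat_lit 11) (.e true (nat_lit 216) (nat_lit 96) (nat_lit 1) (nat_lit 11) (.e true (nat_lit 216) (nat_lit 97) (nat_lit 1) (nat_lit 11) (.e true (nat_lit 216) (nat_lit 98) (nat_lit 1) (nat_lit 11) (.e false (nat_lit 432) (nat_lit 99) (nat_lit 1) (nat_lit 11) (.e true (nat_lit 108) (nat_lit 101) (nat_lit 1) (nat_lit 11) (.e true (nat_lit 432) (nat_lit 103) (nat_lit 1) (nat_lit 11) (.e true (nat_lit 324) (nat_lit 104) (nat_lit 1) (nat_lit 11) (.e true (nat_lit 324) (nat_lit 105) (nat_lit 1) (nat_lit 11) (.e true (nat_lit 324) (nat_lit 106) (nat_lit 1) (nat_lit 11) (.e false (nat_lit 324) (nat_lit 107) (nat_lit 1) (nat_lit 11) (.e false (nat_lit 324) (nat_lit 109) (nat_lit 1) (nat_lit 11) (.e false (nat_lit 108) (nat_lit 100) (nat_lit 1) (nat_lit 11) (.e false (nat_lit 108) (nat_lit 102) (nat_lit 1) (nat_lit 11) (.e true (nat_lit 216) (nat_lit 63) (nat_lit 4) (nat_lit 8) .nil))))))))))))))))))))))))) .leaf))) (nat_lit 50182) (nat_lit 359) (.n (nat_lit 156) (nat_lit 108) (.n (nat_lit 157) (nat_lit 108) (.p (nat_lit 159) (nat_lit 216) (.n (nat_lit 160) (nat_lit 108) (.p (nat_lit 161) (nat_lit 270) (.p (nat_lit 162) (nat_lit 108) (.p (nat_lit 163) (nat_lit 270) (.p (nat_lit 164) (nat_lit 54) (.n (nat_lit 165) (nat_lit 432) (.n (nat_lit 166) (nat_lit 432) (.n (nat_lit 167) (nat_lit 432) (.p (nat_lit 168) (nat_lit 216) (.p (nat_lit 169) (nat_lit 216) (.p (nat_lit 171) (nat_lit 216) (.n (nat_lit 172) (nat_lit 216) .z))))))))))))))) (.ct dA4s_c277 (nat_lit 864) (nat_lit 4) (.s true (nat_lit 1) (nat_lit 6) (nat_lit 0) (nat_lit 5) (nat_lit 6) true (nat_lit 2) true (nat_lit 4) true (nat_lit 4) true (nat_lit 10) true (nat_lit 5) (.s false (nat_lit 2) (nat_lit 6) (nat_lit 1) (nat_lit 4) (nat_lit 6) true (nat_lit 1) true (nat_lit 4) true (nat_lit 4) true (nat_lit 9) true (nat_lit 6) (.s false (nat_lit 1) (nat_lit 6) (nat_lit 1) (nat_lit 6) (nat_lit 4) true (nat_lit 3) true (nat_lit 6) true (nat_lit 4) true (nat_lit 9) true (nat_lit 4) (.s true (nat_lit 2) (nat_lit 6) (nat_lit 5) (nat_lit 0) (nat_lit 6) false (nat_lit 2) true (nat_lit 4) true (nat_lit 4) true (nat_lit 5) true (nat_lit 10) (.s true (nat_lit 2) (nat_lit 13) (nat_lit 1) (nat_lit 6) (nat_lit 2) true (nat_lit 5) true (nat_lit 8) true (nat_lit 2) true (nat_lit 9) true (nat_lit 4) (.s true (nat_lit 1) (nat_lit 13) (nat_lit 2) (nat_lit 1) (nat_lit 6) true (nat_lit 0) true (nat_lit 4) true (nat_lit 2) true (nat_lit 8) true (nat_lit 9) (.s true (nat_lit 2) (nat_lit 13) (nat_lit 2) (nat_lit 2) (nat_lit 5) true (nat_lit 1) true (nat_lit 5) true (nat_lit 2) true (nat_lit 8) true (nat_lit 8) (.s true (nat_lit 2) (nat_lit 15) (nat_lit 2) (nat_lit 2) (nat_lit 4) true (nat_lit 2) true (nat_lit 6) true (nat_lit 1) true (nat_lit 8) true (nat_lit 8) (.s false (nat_lit 1) (nat_lit 15) (nat_lit 2) (nat_lit 6) (nat_lit 0) true (nat_lit 6) true (nat_lit 10) true (nat_lit 1) true (nat_lit 8) true (nat_lit 4) (.s false (nat_lit 2) (nat_lit 15) (nat_lit 6) (nat_lit 2) (nat_lit 0) true (nat_lit 2) true (nat_lit 10) true (nat_lit 1) true (nat_lit 4) true (nat_lit 8) (.s false (nat_lit 1) (nat_lit 16) (nat_lit 6) (nat_lit 0) (nat_lit 1) true (nat_lit 1) true (nat_lit 9) true (nat_lit 0) true (nat_lit 4) true (nat_lit 10) (.s false (nat_lit 2) (nat_lit 31) (nat_lit 1) (nat_lit 2) (nat_lit 2) true (nat_lit 5) true (nat_lit 8) false (nat_lit 1) true (nat_lit 9) true (nat_lit 8) (.s false (nat_lit 2) (nat_lit 34) (nat_lit 0) (nat_lit 2) (nat_lit 2) true (nat_lit 6) true (nat_lit 8) false (nat_lit 2) true (nat_lit 10) true (nat_lit 8) (.e true (nat_lit 864) (nat_lit 48) (nat_lit 6) (nat_lit 4) (.e false (nat_lit 864) (nat_lit 52) (nat_lit 6) (nat_lit 4) (.e true (nat_lit 864) (nat_lit 53) (nat_lit 6) (nat_lit 4) (.e false (nat_lit 864) (nat_lit 105) (nat_lit 2) (nat_lit 8) (.e false (nat_lit 3456) (nat_lit 94) (nat_lit 2) (nat_lit 8) (.e false (nat_lit 3456) (nat_lit 95) (nat_lit 2) (nat_lit 8) (.e true (nat_lit 3456) (nat_lit 98) (nat_lit 2) (nat_lit 8) (.e false (nat_lit 3456) (nat_lit 99) (nat_lit 2) (nat_lit 8) (.e true (nat_lit 864) (nat_lit 100) (nat_lit 2) (nat_lit 8) (.e true (nat_lit 864) (nat_lit 102) (nat_lit 2) (nat_lit 8) (.e false (nat_lit 864) (nat_lit 104) (nat_lit 2) (nat_lit 8) .nil))))))))))))))))))))))))) (.nd (.nd (.nd (.nd .leaf (nat_lit 51201) (nat_lit 116) (.p (nat_lit 82) (nat_lit 216) .z) .df .leaf) (nat_lit 51202) (nat_lit 161) (.p (nat_lit 96) (nat_lit 216) .z) .df (.nd .leaf (nat_lit 51205) (nat_lit 274) (.p (nat_lit 126) (nat_lit 120) (.n (nat_lit 128) (nat_lit 120) (.p (nat_lit 129) (nat_lit 120) (.p (nat_lit 131) (nat_lit 48) (.n (nat_lit 132) (nat_lit 96) (.n (nat_lit 133) (nat_lit 168) (.n (nat_lit 134) (nat_lit 48) (.p (nat_lit 135) (nat_lit 24) (.p (nat_lit 136) (nat_lit 552) (.p (nat_lit 137) (nat_lit 24) (.n (nat_lit 138) (nat_lit 504) (.n (nat_lit 141) (nat_lit 824) (.n (nat_lit 142) (nat_lit 264) (.p (nat_lit 143) (nat_lit 560) (.p (nat_lit 144) (nat_lit 416) (.n (nat_lit 145) (nat_lit 752) (.p (nat_lit 146) (nat_lit 240) (.n (nat_lit 147) (nat_lit 24) (.p (nat_lit 148) (nat_lit 240) (.p (nat_lit 149) (nat_lit 376) (.p (nat_lit 150) (nat_lit 208) (.p (nat_lit 151) (nat_lit 208) (.p (nat_lit 152) (nat_lit 360) (.n (nat_lit 153) (nat_lit 488) (.n (nat_lit 154) (nat_lit 256) .z))))))))))))))))))))))))) (.ct dA4s_c292 (nat_lit 864) (nat_lit 7) (.s true (nat_lit 2) (nat_lit 6) (nat_lit 1) (nat_lit 4) (nat_lit 5) true (nat_lit 3) true (nat_lit 7) true (nat_lit 6) true (nat_lit 11) true (nat_lit 8) (.s true (nat_lit 4) (nat_lit 7) (nat_lit 2) (nat_lit 2) (nat_lit 6) true (nat_lit 0) true (nat_lit 6) true (nat_lit 5) true (nat_lit 10) true (nat_lit 10) (.s true (nat_lit 4) (nat_lit 8) (nat_lit 5) (nat_lit 2) (nat_lit 2) true (nat_lit 1) true (nat_lit 10) true (nat_lit 4) true (nat_lit 7) true (nat_lit 10) (.s false (nat_lit 2) (nat_lit 9) (nat_lit 6) (nat_lit 2) (nat_lit 1) true (nat_lit 1) true (nat_lit 11) true (nat_lit 4) true (nat_lit 6) true (nat_lit 10) (.s true (nat_lit 2) (nat_lit 11) (nat_lit 2) (nat_lit 2) (nat_lit 4) true (nat_lit 2) true (nat_lit 8) true (nat_lit 3) true (nat_lit 10) true (nat_lit 10) dA4s_i18)))))) .leaf)) (nat_lit 51206) (nat_lit 368) (.p (nat_lit 159) (nat_lit 216) (.p (nat_lit 161) (nat_lit 216) (.n (nat_lit 162) (nat_lit 108) (.p (nat_lit 163) (nat_lit 216) (.n (nat_lit 164) (nat_lit 324) (.n (nat_lit 165) (nat_lit 324) (.n (nat_lit 166) (nat_lit 324) (.n (nat_lit 167) (nat_lit 324) (.p (nat_lit 168) (nat_lit 108) (.p (nat_lit 169) (nat_lit 324) (.p (nat_lit 171) (nat_lit 216) (.n (nat_lit 173) (nat_lit 216) .z)))))))))))) (.ct dA4s_c277 (nat_lit 216) (nat_lit 4) (.s false (nat_lit 1) (nat_lit 6) (nat_lit 1) (nat_lit 6) (nat_lit 4) true (nat_lit 3) true (nat_lit 6) true (nat_lit 4) true (nat_lit 9) true (nat_lit 4) (.s false (nat_lit 1) (nat_lit 6) (nat_lit 2) (nat_lit 6) (nat_lit 3) true (nat_lit 3) true (nat_lit 7) true (nat_lit 4) true (nat_lit 8) true (nat_lit 4) (.e false (nat_lit 432) (nat_lit 69) (nat_lit 4) (nat_lit 6) (.e false (nat_lit 432) (nat_lit 70) (nat_lit 4) (nat_lit 6) (.e true (nat_lit 216) (nat_lit 49) (nat_lit 6) (nat_lit 4) (.e true (nat_lit 216) (nat_lit 51) (nat_lit 6) (nat_lit 4) (.e false (nat_lit 216) (nat_lit 52) (nat_lit 6) (nat_lit 4) (.e true (nat_lit 216) (nat_lit 53) (nat_lit 6) (nat_lit 4) (.e false (nat_lit 432) (nat_lit 54) (nat_lit 6) (nat_lit 4) (.e true (nat_lit 432) (nat_lit 117) (nat_lit 1) (nat_lit 9) (.e true (nat_lit 432) (nat_lit 118) (nat_lit 1) (nat_lit 9) (.e false (nat_lit 216) (nat_lit 55) (nat_lit 6) (nat_lit 4) (.e true (nat_lit 432) (nat_lit 103) (nat_lit 2) (nat_lit 8) .nil)))))))))))))) (.nd (.nd .leaf (nat_lit 52225) (nat_lit 117) (.p (nat_lit 83) (nat_lit 216) .z) .df .leaf) (nat_lit 52226) (nat_lit 162) (.p (nat_lit 97) (nat_lit 216) .z) .df .leaf)) (nat_lit 52229) (nat_lit 287) (.p (nat_lit 126) (nat_lit 300) (.n (nat_lit 128) (nat_lit 300) (.p (nat_lit 129) (nat_lit 300) (.n (nat_lit 131) (nat_lit 420) (.n (nat_lit 132) (nat_lit 348) (.n (nat_lit 133) (nat_lit 204) (.n (nat_lit 134) (nat_lit 768) (.p (nat_lit 135) (nat_lit 276) (.p (nat_lit 136) (nat_lit 1812) (.p (nat_lit 137) (nat_lit 276) (.n (nat_lit 138) (nat_lit 1260) (.n (nat_lit 141) (nat_lit 3536) (.n (nat_lit 142) (nat_lit 1200) (.p (nat_lit 143) (nat_lit 2120) (.p (nat_lit 144) (nat_lit 1760) (.n (nat_lit 145) (nat_lit 3680) (.p (nat_lit 146) (nat_lit 600) (.p (nat_lit 147) (nat_lit 264) (.p (nat_lit 148) (nat_lit 600) (.p (nat_lit 149) (nat_lit 1624) (.p (nat_lit 150) (nat_lit 1096) (.p (nat_lit 151) (nat_lit 1096) (.p (nat_lit 152) (nat_lit 1656) (.n (nat_lit 153) (nat_lit 1832) (.n (nat_lit 154) (nat_lit 1648) .z))))))))))))))))))))))))) (.ct dA4s_c292 (nat_lit 216) (nat_lit 7) (.s false (nat_lit 1) (nat_lit 12) (nat_lit 2) (nat_lit 5) (nat_lit 1) true (nat_lit 7) true (nat_lit 11) true (nat_lit 2) true (nat_lit 10) true (nat_lit 7) (.s true (nat_lit 1) (nat_lit 12) (nat_lit 5) (nat_lit 2) (nat_lit 1) true (nat_lit 3) true (nat_lit 11) true (nat_lit 2) true (nat_lit 7) true (nat_lit 10) (.s true (nat_lit 1) (nat_lit 30) (nat_lit 1) (nat_lit 1) (nat_lit 2) true (nat_lit 7) true (nat_lit 10) false (nat_lit 3) true (nat_lit 11) true (nat_lit 11) (.s true (nat_lit 1) (nat_lit 30) (nat_lit 2) (nat_lit 1) (nat_lit 1) true (nat_lit 7) true (nat_lit 11) false (nat_lit 3) true (nat_lit 10) true (nat_lit 11) (.e true (nat_lit 216) (nat_lit 83) (nat_lit 2) (nat_lit 10) (.e false (nat_lit 216) (nat_lit 98) (nat_lit 1) (nat_lit 11) (.e true (nat_lit 216) (nat_lit 99) (nat_lit 1) (nat_lit 11) (.e false (nat_lit 108) (nat_lit 100) (nat_lit 1) (nat_lit 11) (.e true (nat_lit 108) (nat_lit 101) (nat_lit 1) (nat_lit 11) (.e false (nat_lit 108) (nat_lit 102) (nat_lit 1) (nat_lit 11) (.e true (nat_lit 108) (nat_lit 104) (nat_lit 1) (nat_lit 11) (.e true (nat_lit 108) (nat_lit 105) (nat_lit 1) (nat_lit 11) (.e true (nat_lit 108) (nat_lit 106) (nat_lit 1) (nat_lit 11) (.e false (nat_lit 108) (nat_lit 107) (nat_lit 1) (nat_lit 11) (.e false (nat_lit 108) (nat_lit 109) (nat_lit 1) (nat_lit 11) (.e true (nat_lit 216) (nat_lit 96) (nat_lit 1) (nat_lit 11) (.e true (nat_lit 216) (nat_lit 97) (nat_lit 1) (nat_lit 11) (.e true (nat_lit 216) (nat_lit 103) (nat_lit 1) (nat_lit 11) .nil))))))))))))))))))) (.nd (.nd (.nd .leaf (nat_lit 52230) (nat_lit 362) (.p (nat_lit 156) (nat_lit 648) (.p (nat_lit 157) (nat_lit 648) (.n (nat_lit 159) (nat_lit 648) (.p (nat_lit 160) (nat_lit 648) (.n (nat_lit 161) (nat_lit 324) (.n (nat_lit 162) (nat_lit 108) (.n (nat_lit 163) (nat_lit 324) (.p (nat_lit 165) (nat_lit 540) (.p (nat_lit 166) (nat_lit 540) (.p (nat_lit 167) (nat_lit 324) (.n (nat_lit 168) (nat_lit 108) (.n (nat_lit 169) (nat_lit 324) (.n (nat_lit 171) (nat_lit 216) (.p (nat_lit 172) (nat_lit 216) .z)))))))))))))) (.ct dA4s_c277 (nat_lit 432) (nat_lit 4) (.s false (nat_lit 1) (nat_lit 6) (nat_lit 1) (nat_lit 4) (nat_lit 6) true (nat_lit 1) true (nat_lit 4) true (nat_lit 4) true (nat_lit 9) true (nat_lit 6) (.s false (nat_lit 1) (nat_lit 6) (nat_lit 1) (nat_lit 6) (nat_lit 4) true (nat_lit 3) true (nat_lit 6) true (nat_lit 4) true (nat_lit 9) true (nat_lit 4) (.s true (nat_lit 1) (nat_lit 6) (nat_lit 2) (nat_lit 6) (nat_lit 3) true (nat_lit 3) true (nat_lit 7) true (nat_lit 4) true (nat_lit 8) true (nat_lit 4) (.s true (nat_lit 1) (nat_lit 15) (nat_lit 2) (nat_lit 2) (nat_lit 4) true (nat_lit 2) true (nat_lit 6) true (nat_lit 1) true (nat_lit 8) true (nat_lit 8) (.s false (nat_lit 1) (nat_lit 15) (nat_lit 2) (nat_lit 6) (nat_lit 0) true (nat_lit 6) true (nat_lit 10) true (nat_lit 1) true (nat_lit 8) true (nat_lit 4) (.s true (nat_lit 1) (nat_lit 32) (nat_lit 2) (nat_lit 2) (nat_lit 1) true (nat_lit 5) true (nat_lit 9) false (nat_lit 1) true (nat_lit 8) true (nat_lit 8) (.s false (nat_lit 1) (nat_lit 34) (nat_lit 0) (nat_lit 2) (nat_lit 2) true (nat_lit 6) true (nat_lit 8) false (nat_lit 2) true (nat_lit 10) true (nat_lit 8) (.e true (nat_lit 432) (nat_lit 49) (nat_lit 6) (nat_lit 4) (.e false (nat_lit 216) (nat_lit 54) (nat_lit 6) (nat_lit 4) (.e false (nat_lit 432) (nat_lit 55) (nat_lit 6) (nat_lit 4) (.e true (nat_lit 216) (nat_lit 118) (nat_lit 1) (nat_lit 9) (.e false (nat_lit 864) (nat_lit 94) (nat_lit 2) (nat_lit 8) (.e false (nat_lit 864) (nat_lit 95) (nat_lit 2) (nat_lit 8) (.e true (nat_lit 864) (nat_lit 98) (nat_lit 2) (nat_lit 8) (.e false (nat_lit 864) (nat_lit 99) (nat_lit 2) (nat_lit 8) (.e true (nat_lit 432) (nat_lit 100) (nat_lit 2) (nat_lit 8) (.e false (nat_lit 432) (nat_lit 107) (nat_lit 2) (nat_lit 8) (.e true (nat_lit 432) (nat_lit 106) (nat_lit 2) (nat_lit 8) (.e true (nat_lit 216) (nat_lit 66) (nat_lit 5) (nat_lit 5) (.e true (nat_lit 216) (nat_lit 109) (nat_lit 2) (nat_lit 8) (.e false (nat_lit 216) (nat_lit 101) (nat_lit 2) (nat_lit 8) .nil)))))))))))))))))))))) .leaf) (nat_lit 53249) (nat_lit 137) (.n (nat_lit 74) (nat_lit 216) (.p (nat_lit 80) (nat_lit 216) (.p (nat_lit 81) (nat_lit 216) (.p (nat_lit 83) (nat_lit 216) (.p (nat_lit 84) (nat_lit 216) (.n (nat_lit 93) (nat_lit 216) .z)))))) (.ct dA4s_c291 (nat_lit 216) (nat_lit 8) (.s false (nat_lit 1) (nat_lit 5) (nat_lit 1) (nat_lit 4) (nat_lit 2) true (nat_lit 4) true (nat_lit 7) true (nat_lit 4) true (nat_lit 8) true (nat_lit 5) (.s true (nat_lit 1) (nat_lit 5) (nat_lit 2) (nat_lit 1) (nat_lit 4) false (nat_lit 0) true (nat_lit 5) true (nat_lit 4) true (nat_lit 7) true (nat_lit 8) (.s false (nat_lit 1) (nat_lit 12) (nat_lit 1) (nat_lit 2) (nat_lit 1) false (nat_lit 10) true (nat_lit 8) false (nat_lit 0) true (nat_lit 8) true (nat_lit 7) (.e true (nat_lit 216) (nat_lit 22) (nat_lit 5) (nat_lit 4) (.e true (nat_lit 216) (nat_lit 41) (nat_lit 2) (nat_lit 7) (.e false (nat_lit 216) (nat_lit 48) (nat_lit 1) (nat_lit 8) (.e false (nat_lit 216) (nat_lit 49) (nat_lit 1) (nat_lit 8) (.e false (nat_lit 216) (nat_lit 53) (nat_lit 1) (nat_lit 8) (.e false (nat_lit 216) (nat_lit 51) (nat_lit 1) (nat_lit 8) .nil)))))))))) .leaf) (nat_lit 53250) (nat_lit 163) (.p (nat_lit 98) (nat_lit 216) .z) .df (.nd (.nd .leaf (nat_lit 53253) (nat_lit 294) (.n (nat_lit 126) (nat_lit 756) (.p (nat_lit 128) (nat_lit 612) (.n (nat_lit 129) (nat_lit 756) (.p (nat_lit 130) (nat_lit 72) (.n (nat_lit 131) (nat_lit 36) (.p (nat_lit 132) (nat_lit 396) (.p (nat_lit 133) (nat_lit 396) (.p (nat_lit 134) (nat_lit 360) (.n (nat_lit 135) (nat_lit 396) (.n (nat_lit 136) (nat_lit 2916) (.n (nat_lit 137) (nat_lit 396) (.p (nat_lit 138) (nat_lit 1836) (.p (nat_lit 141) (nat_lit 3504) (.p (nat_lit 142) (nat_lit 360) (.n (nat_lit 143) (nat_lit 3144) (.n (nat_lit 144) (nat_lit 1416) (.p (nat_lit 145) (nat_lit 3504) (.n (nat_lit 146) (nat_lit 180) (.p (nat_lit 147) (nat_lit 72) (.n (nat_lit 148) (nat_lit 180) (.n (nat_lit 149) (nat_lit 1824) (.n (nat_lit 150) (nat_lit 1716) (.n (nat_lit 151) (nat_lit 1644) (.n (nat_lit 152) (nat_lit 2304) (.p (nat_lit 153) (nat_lit 2532) (.p (nat_lit 154) (nat_lit 1788) (.n (nat_lit 155) (nat_lit 72) .z))))))))))))))))))))))))))) (.ct dA4s_c292 (nat_lit 216) (nat_lit 7) (.s true (nat_lit 1) (nat_lit 25) (nat_lit 1) (nat_lit 2) (nat_lit 2) true (nat_lit 7) true (nat_lit 10) false (nat_lit 1) true (nat_lit 11) true (nat_lit 10) (.s true (nat_lit 1) (nat_lit 25) (nat_lit 2) (nat_lit 1) (nat_lit 2) true (nat_lit 6) true (nat_lit 10) false (nat_lit 1) true (nat_lit 10) true (nat_lit 11) (.e true (nat_lit 432) (nat_lit 77) (nat_lit 2) (nat_lit 10) (.e false (nat_lit 216) (nat_lit 107) (nat_lit 1) (nat_lit 11) (.e false (nat_lit 216) (nat_lit 74) (nat_lit 2) (nat_lit 10) (.e true (nat_lit 648) (nat_lit 80) (nat_lit 2) (nat_lit 10) (.e true (nat_lit 648) (nat_lit 81) (nat_lit 2) (nat_lit 10) (.e true (nat_lit 216) (nat_lit 83) (nat_lit 2) (nat_lit 10) (.e true (nat_lit 648) (nat_lit 84) (nat_lit 2) (nat_lit 10) (.e false (nat_lit 216) (nat_lit 93) (nat_lit 2) (nat_lit 10) (.e false (nat_lit 216) (nat_lit 44) (nat_lit 6) (nat_lit 6) (.e false (nat_lit 216) (nat_lit 85) (nat_lit 2) (nat_lit 10) (.e false (nat_lit 216) (nat_lit 87) (nat_lit 2) (nat_lit 10) (.e false (nat_lit 216) (nat_lit 88) (nat_lit 2) (nat_lit 10) (.e true (nat_lit 216) (nat_lit 98) (nat_lit 1) (nat_lit 11) .nil)))))))))))))))) .leaf) (nat_lit 53254) (nat_lit 358) (.n (nat_lit 156) (nat_lit 1080) (.n (nat_lit 157) (nat_lit 1080) (.p (nat_lit 159) (nat_lit 864) (.n (nat_lit 160) (nat_lit 1080) (.p (nat_lit 161) (nat_lit 540) (.p (nat_lit 162) (nat_lit 432) (.p (nat_lit 163) (nat_lit 540) (.p (nat_lit 164) (nat_lit 324) (.n (nat_lit 165) (nat_lit 216) (.n (nat_lit 166) (nat_lit 216) (.n (nat_lit 167) (nat_lit 216) (.n (nat_lit 169) (nat_lit 216) (.p (nat_lit 173) (nat_lit 216) .z))))))))))))) (.ct dA4s_c277 (nat_lit 432) (nat_lit 4) (.s true (nat_lit 1) (nat_lit 6) (nat_lit 0) (nat_lit 5) (nat_lit 6) true (nat_lit 2) true (nat_lit 4) true (nat_lit 4) true (nat_lit 10) true (nat_lit 5) (.s false (nat_lit 1) (nat_lit 6) (nat_lit 1) (nat_lit 6) (nat_lit 4) true (nat_lit 3) true (nat_lit 6) true (nat_lit 4) true (nat_lit 9) true (nat_lit 4) (.s true (nat_lit 2) (nat_lit 6) (nat_lit 5) (nat_lit 0) (nat_lit 6) false (nat_lit 2) true (nat_lit 4) true (nat_lit 4) true (nat_lit 5) true (nat_lit 10) (.s true (nat_lit 3) (nat_lit 13) (nat_lit 2) (nat_lit 1) (nat_lit 6) true (nat_lit 0) true (nat_lit 4) true (nat_lit 2) true (nat_lit 8) true (nat_lit 9) (.s true (nat_lit 4) (nat_lit 13) (nat_lit 2) (nat_lit 2) (nat_lit 5) true (nat_lit 1) true (nat_lit 5) true (nat_lit 2) true (nat_lit 8) true (nat_lit 8) (.s false (nat_lit 1) (nat_lit 15) (nat_lit 2) (nat_lit 6) (nat_lit 0) true (nat_lit 6) true (nat_lit 10) true (nat_lit 1) true (nat_lit 8) true (nat_lit 4) (.s true (nat_lit 1) (nat_lit 16) (nat_lit 6) (nat_lit 0) (nat_lit 1) true (nat_lit 1) true (nat_lit 9) true (nat_lit 0) true (nat_lit 4) true (nat_lit 10) (.s true (nat_lit 4) (nat_lit 25) (nat_lit 2) (nat_lit 2) (nat_lit 2) true (nat_lit 4) true (nat_lit 8) false (nat_lit 0) true (nat_lit 8) true (nat_lit 8) (.s true (nat_lit 4) (nat_lit 31) (nat_lit 2) (nat_lit 1) (nat_lit 2) true (nat_lit 4) true (nat_lit 8) false (nat_lit 1) true (nat_lit 8) true (nat_lit 9) (.e true (nat_lit 432) (nat_lit 55) (nat_lit 6) (nat_lit 4) (.e false (nat_lit 864) (nat_lit 118) (nat_lit 1) (nat_lit 9) (.e false (nat_lit 864) (nat_lit 66) (nat_lit 5) (nat_lit 5) (.e true (nat_lit 864) (nat_lit 105) (nat_lit 2) (nat_lit 8) (.e true (nat_lit 864) (nat_lit 106) (nat_lit 2) (nat_lit 8) (.e false (nat_lit 432) (nat_lit 107) (nat_lit 2) (nat_lit 8) (.e true (nat_lit 1728) (nat_lit 94) (nat_lit 2) (nat_lit 8) (.e true (nat_lit 1728) (nat_lit 95) (nat_lit 2) (nat_lit 8) (.e false (nat_lit 1728) (nat_lit 98) (nat_lit 2) (nat_lit 8) (.e true (nat_lit 1728) (nat_lit 99) (nat_lit 2) (nat_lit 8) (.e false (nat_lit 864) (nat_lit 100) (nat_lit 2) (nat_lit 8) (.e false (nat_lit 864) (nat_lit 102) (nat_lit 2) (nat_lit 8) (.e true (nat_lit 864) (nat_lit 104) (nat_lit 2) (nat_lit 8) .nil))))))))))))))))))))))) .leaf))))) (nat_lit 54273) (nat_lit 118) (.p (nat_lit 84) (nat_lit 216) .z) .df (.nd (.nd (.nd (.nd (.nd (.nd .leaf (nat_lit 54274) (nat_lit 164) (.p (nat_lit 99) (nat_lit 216) .z) .df .leaf) (nat_lit 54277) (nat_lit 278) (.p (nat_lit 126) (nat_lit 108) (.n (nat_lit 128) (nat_lit 108) (.p (nat_lit 129) (nat_lit 108) (.n (nat_lit 131) (nat_lit 108) (.n (nat_lit 132) (nat_lit 108) (.n (nat_lit 133) (nat_lit 108) (.n (nat_lit 134) (nat_lit 432) (.p (nat_lit 135) (nat_lit 108) (.p (nat_lit 136) (nat_lit 540) (.p (nat_lit 137) (nat_lit 108) (.n (nat_lit 138) (nat_lit 324) (.n (nat_lit 141) (nat_lit 1656) (.n (nat_lit 142) (nat_lit 648) (.p (nat_lit 143) (nat_lit 1008) (.p (nat_lit 144) (nat_lit 792) (.n (nat_lit 145) (nat_lit 1872) (.p (nat_lit 146) (nat_lit 324) (.p (nat_lit 147) (nat_lit 324) (.p (nat_lit 148) (nat_lit 324) (.p (nat_lit 149) (nat_lit 720) (.p (nat_lit 150) (nat_lit 612) (.p (nat_lit 151) (nat_lit 612) (.p (nat_lit 152) (nat_lit 756) (.n (nat_lit 153) (nat_lit 900) (.n (nat_lit 154) (nat_lit 1044) .z))))))))))))))))))))))))) (.ct dA4s_c292 (nat_lit 432) (nat_lit 7) (.s true (nat_lit 2) (nat_lit 6) (nat_lit 1) (nat_lit 4) (nat_lit 5) true (nat_lit 3) true (nat_lit 7) true (nat_lit 6) true (nat_lit 11) true (nat_lit 8) (.s false (nat_lit 2) (nat_lit 9) (nat_lit 2) (nat_lit 1) (nat_lit 6) true (nat_lit 0) true (nat_lit 6) true (nat_lit 4) true (nat_lit 10) true (nat_lit 11) (.s false (nat_lit 2) (nat_lit 9) (nat_lit 2) (nat_lit 2) (nat_lit 5) true (nat_lit 1) true (nat_lit 7) true (nat_lit 4) true (nat_lit 10) true (nat_lit 10) (.s false (nat_lit 2) (nat_lit 9) (nat_lit 6) (nat_lit 2) (nat_lit 1) true (nat_lit 1) true (nat_lit 11) true (nat_lit 4) true (nat_lit 6) true (nat_lit 10) (.s true (nat_lit 2) (nat_lit 11) (nat_lit 2) (nat_lit 2) (nat_lit 4) true (nat_lit 2) true (nat_lit 8) true (nat_lit 3) true (nat_lit 10) true (nat_lit 10) (.s true (nat_lit 1) (nat_lit 13) (nat_lit 1) (nat_lit 1) (nat_lit 6) true (nat_lit 1) true (nat_lit 6) true (nat_lit 2) true (nat_lit 11) true (nat_lit 11) (.s false (nat_lit 2) (nat_lit 12) (nat_lit 5) (nat_lit 1) (nat_lit 2) true (nat_lit 1) true (nat_lit 10) true (nat_lit 2) true (nat_lit 7) true (nat_lit 11) (.s false (nat_lit 2) (nat_lit 14) (nat_lit 2) (nat_lit 4) (nat_lit 1) true (nat_lit 7) true (nat_lit 11) true (nat_lit 1) true (nat_lit 10) true (nat_lit 8) (.s false (nat_lit 2) (nat_lit 16) (nat_lit 1) (nat_lit 1) (nat_lit 4) true (nat_lit 4) true (nat_lit 8) true (nat_lit 0) true (nat_lit 11) true (nat_lit 11) (.s true (nat_lit 2) (nat_lit 16) (nat_lit 1) (nat_lit 4) (nat_lit 1) false (nat_lit 13) true (nat_lit 11) true (nat_lit 0) true (nat_lit 11) true (nat_lit 8) (.s true (nat_lit 1) (nat_lit 25) (nat_lit 1) (nat_lit 2) (nat_lit 2) true (nat_lit 7) true (nat_lit 10) false (nat_lit 1) true (nat_lit 11) true (nat_lit 10) (.s false (nat_lit 2) (nat_lit 22) (nat_lit 2) (nat_lit 1) (nat_lit 2) true (nat_lit 6) true (nat_lit 10) false (nat_lit 1) true (nat_lit 10) true (nat_lit 11) dA4s_i23))))))))))))) (.nd .leaf (nat_lit 54278) (nat_lit 357) (.n (nat_lit 156) (nat_lit 108) (.n (nat_lit 157) (nat_lit 108) (.n (nat_lit 159) (nat_lit 216) (.n (nat_lit 160) (nat_lit 108) (.p (nat_lit 161) (nat_lit 54) (.p (nat_lit 162) (nat_lit 324) (.p (nat_lit 163) (nat_lit 54) (.p (nat_lit 164) (nat_lit 270) (.p (nat_lit 165) (nat_lit 432) (.p (nat_lit 166) (nat_lit 432) (.p (nat_lit 167) (nat_lit 216) (.n (nat_lit 168) (nat_lit 216) (.n (nat_lit 169) (nat_lit 432) (.n (nat_lit 171) (nat_lit 216) (.p (nat_lit 173) (nat_lit 216) .z))))))))))))))) (.ct dA4s_c277 (nat_lit 432) (nat_lit 4) (.s true (nat_lit 1) (nat_lit 6) (nat_lit 0) (nat_lit 5) (nat_lit 6) true (nat_lit 2) true (nat_lit 4) true (nat_lit 4) true (nat_lit 10) true (nat_lit 5) (.s false (nat_lit 1) (nat_lit 6) (nat_lit 1) (nat_lit 6) (nat_lit 4) true (nat_lit 3) true (nat_lit 6) true (nat_lit 4) true (nat_lit 9) true (nat_lit 4) (.s false (nat_lit 2) (nat_lit 6) (nat_lit 2) (nat_lit 6) (nat_lit 3) true (nat_lit 3) true (nat_lit 7) true (nat_lit 4) true (nat_lit 8) true (nat_lit 4) (.s true (nat_lit 2) (nat_lit 6) (nat_lit 5) (nat_lit 0) (nat_lit 6) false (nat_lit 2) true (nat_lit 4) true (nat_lit 4) true (nat_lit 5) true (nat_lit 10) (.s false (nat_lit 2) (nat_lit 8) (nat_lit 6) (nat_lit 2) (nat_lit 2) true (nat_lit 0) true (nat_lit 8) true (nat_lit 3) true (nat_lit 4) true (nat_lit 8) (.s true (nat_lit 1) (nat_lit 13) (nat_lit 2) (nat_lit 1) (nat_lit 6) true (nat_lit 0) true (nat_lit 4) true (nat_lit 2) true (nat_lit 8) true (nat_lit 9) (.s true (nat_lit 2) (nat_lit 13) (nat_lit 2) (nat_lit 2) (nat_lit 5) true (nat_lit 1) true (nat_lit 5) true (nat_lit 2) true (nat_lit 8) true (nat_lit 8) (.s false (nat_lit 1) (nat_lit 13) (nat_lit 5) (nat_lit 2) (nat_lit 2) true (nat_lit 1) true (nat_lit 8) true (nat_lit 2) true (nat_lit 5) true (nat_lit 8) dA4s_i41))))))))) .leaf)) (nat_lit 55297) (nat_lit 119) (.p (nat_lit 85) (nat_lit 216) .z) .df (.nd (.nd .leaf (nat_lit 55298) (nat_lit 165) (.p (nat_lit 100) (nat_lit 216) .z) .df .leaf) (nat_lit 55301) (nat_lit 296) (.n (nat_lit 135) (nat_lit 216) (.p (nat_lit 141) (nat_lit 432) (.p (nat_lit 142) (nat_lit 432) (.n (nat_lit 144) (nat_lit 432) (.p (nat_lit 145) (nat_lit 432) (.n (nat_lit 148) (nat_lit 216) (.p (nat_lit 149) (nat_lit 216) (.p (nat_lit 150) (nat_lit 432) (.p (nat_lit 151) (nat_lit 432) (.p (nat_lit 152) (nat_lit 432) (.n (nat_lit 153) (nat_lit 216) .z))))))))))) (.ct dA4s_c292 (nat_lit 216) (nat_lit 7) (.s true (nat_lit 1) (nat_lit 31) (nat_lit 1) (nat_lit 1) (nat_lit 2) true (nat_lit 7) true (nat_lit 10) false (nat_lit 3) true (nat_lit 11) true (nat_lit 11) (.e true (nat_lit 216) (nat_lit 85) (nat_lit 2) (nat_lit 10) (.e false (nat_lit 432) (nat_lit 94) (nat_lit 1) (nat_lit 11) (.e false (nat_lit 432) (nat_lit 95) (nat_lit 1) (nat_lit 11) (.e true (nat_lit 432) (nat_lit 98) (nat_lit 1) (nat_lit 11) (.e false (nat_lit 432) (nat_lit 99) (nat_lit 1) (nat_lit 11) (.e true (nat_lit 216) (nat_lit 102) (nat_lit 1) (nat_lit 11) (.e false (nat_lit 216) (nat_lit 103) (nat_lit 1) (nat_lit 11) (.e false (nat_lit 432) (nat_lit 104) (nat_lit 1) (nat_lit 11) (.e false (nat_lit 432) (nat_lit 105) (nat_lit 1) (nat_lit 11) (.e false (nat_lit 432) (nat_lit 106) (nat_lit 1) (nat_lit 11) (.e true (nat_lit 216) (nat_lit 107) (nat_lit 1) (nat_lit 11) .nil))))))))))))) .leaf)) (nat_lit 55302) (nat_lit 355) (.p (nat_lit 156) (nat_lit 108) (.p (nat_lit 157) (nat_lit 108) (.p (nat_lit 160) (nat_lit 108) (.p (nat_lit 161) (nat_lit 378) (.n (nat_lit 163) (nat_lit 54) (.p (nat_lit 164) (nat_lit 270) (.p (nat_lit 165) (nat_lit 324) (.p (nat_lit 166) (nat_lit 324) (.p (nat_lit 167) (nat_lit 324) (.n (nat_lit 168) (nat_lit 324) (.n (nat_lit 169) (nat_lit 108) (.n (nat_lit 173) (nat_lit 216) .z)))))))))))) (.ct dA4s_c277 (nat_lit 3456) (nat_lit 4) (.s true (nat_lit 7) (nat_lit 6) (nat_lit 0) (nat_lit 5) (nat_lit 6) true (nat_lit 2) true (nat_lit 4) true (nat_lit 4) true (nat_lit 10) true (nat_lit 5) (.s true (nat_lit 4) (nat_lit 6) (nat_lit 1) (nat_lit 4) (nat_lit 6) true (nat_lit 1) true (nat_lit 4) true (nat_lit 4) true (nat_lit 9) true (nat_lit 6) (.s false (nat_lit 5) (nat_lit 6) (nat_lit 1) (nat_lit 6) (nat_lit 4) true (nat_lit 3) true (nat_lit 6) true (nat_lit 4) true (nat_lit 9) true (nat_lit 4) (.s true (nat_lit 4) (nat_lit 6) (nat_lit 2) (nat_lit 6) (nat_lit 3) true (nat_lit 3) true (nat_lit 7) true (nat_lit 4) true (nat_lit 8) true (nat_lit 4) (.s true (nat_lit 6) (nat_lit 6) (nat_lit 5) (nat_lit 0) (nat_lit 6) false (nat_lit 2) true (nat_lit 4) true (nat_lit 4) true (nat_lit 5) true (nat_lit 10) (.s true (nat_lit 4) (nat_lit 8) (nat_lit 2) (nat_lit 2) (nat_lit 6) true (nat_lit 0) true (nat_lit 4) true (nat_lit 3) true (nat_lit 8) true (nat_lit 8) (.s true (nat_lit 4) (nat_lit 9) (nat_lit 2) (nat_lit 2) (nat_lit 6) true (nat_lit 0) true (nat_lit 4) true (nat_lit 3) true (nat_lit 8) true (nat_lit 8) (.s true (nat_lit 6) (nat_lit 8) (nat_lit 6) (nat_lit 2) (nat_lit 2) true (nat_lit 0) true (nat_lit 8) true (nat_lit 3) true (nat_lit 4) true (nat_lit 8) (.s true (nat_lit 2) (nat_lit 13) (nat_lit 1) (nat_lit 2) (nat_lit 6) true (nat_lit 1) true (nat_lit 4) true (nat_lit 2) true (nat_lit 9) true (nat_lit 8) (.s true (nat_lit 13) (nat_lit 13) (nat_lit 2) (nat_lit 1) (nat_lit 6) true (nat_lit 0) true (nat_lit 4) true (nat_lit 2) true (nat_lit 8) true (nat_lit 9) (.s true (nat_lit 10) (nat_lit 13) (nat_lit 2) (nat_lit 2) (nat_lit 5) true (nat_lit 1) true (nat_lit 5) true (nat_lit 2) true (nat_lit 8) true (nat_lit 8) (.s false (nat_lit 4) (nat_lit 13) (nat_lit 5) (nat_lit 2) (nat_lit 2) true (nat_lit 1) true (nat_lit 8) true (nat_lit 2) true (nat_lit 5) true (nat_lit 8) (.s true (nat_lit 4) (nat_lit 14) (nat_lit 0) (nat_lit 2) (nat_lit 6) true (nat_lit 2) true (nat_lit 4) true (nat_lit 1) true (nat_lit 10) true (nat_lit 8) dA4s_i40)))))))))))))) (.nd (.nd (.nd .leaf (nat_lit 56321) (nat_lit 120) (.p (nat_lit 86) (nat_lit 216) .z) .df .leaf) (nat_lit 56322) (nat_lit 166) (.p (nat_lit 101) (nat_lit 216) .z) .df .leaf) (nat_lit 56325) (nat_lit 297) (.n (nat_lit 136) (nat_lit 216) (.n (nat_lit 141) (nat_lit 432) (.n (nat_lit 142) (nat_lit 432) (.p (nat_lit 144) (nat_lit 432) (.n (nat_lit 145) (nat_lit 432) (.p (nat_lit 146) (nat_lit 216) (.p (nat_lit 148) (nat_lit 216) (.n (nat_lit 150) (nat_lit 216) (.n (nat_lit 151) (nat_lit 216) (.n (nat_lit 152) (nat_lit 216) (.n (nat_lit 154) (nat_lit 216) .z))))))))))) (.ct dA4s_c292 (nat_lit 216) (nat_lit 7) (.s true (nat_lit 1) (nat_lit 32) (nat_lit 1) (nat_lit 1) (nat_lit 2) true (nat_lit 7) true (nat_lit 10) false (nat_lit 3) true (nat_lit 11) true (nat_lit 11) (.e true (nat_lit 216) (nat_lit 86) (nat_lit 2) (nat_lit 10) (.e true (nat_lit 216) (nat_lit 109) (nat_lit 1) (nat_lit 11) (.e true (nat_lit 432) (nat_lit 94) (nat_lit 1) (nat_lit 11) (.e true (nat_lit 432) (nat_lit 95) (nat_lit 1) (nat_lit 11) (.e false (nat_lit 432) (nat_lit 98) (nat_lit 1) (nat_lit 11) (.e true (nat_lit 432) (nat_lit 99) (nat_lit 1) (nat_lit 11) (.e false (nat_lit 216) (nat_lit 100) (nat_lit 1) (nat_lit 11) (.e false (nat_lit 216) (nat_lit 102) (nat_lit 1) (nat_lit 11) (.e true (nat_lit 216) (nat_lit 104) (nat_lit 1) (nat_lit 11) (.e true (nat_lit 216) (nat_lit 105) (nat_lit 1) (nat_lit 11) (.e true (nat_lit 216) (nat_lit 106) (nat_lit 1) (nat_lit 11) .nil))))))))))))) (.nd (.nd .leaf (nat_lit 56326) (nat_lit 352) (.p (nat_lit 173) (nat_lit 216) .z) .df .leaf) (nat_lit 57345) (nat_lit 121) (.p (nat_lit 87) (nat_lit 216) .z) .df .leaf))) (nat_lit 57346) (nat_lit 167) (.p (nat_lit 102) (nat_lit 216) .z) .df (.nd (.nd (.nd (.nd .leaf (nat_lit 57349) (nat_lit 284) (.p (nat_lit 126) (nat_lit 324) (.n (nat_lit 128) (nat_lit 324) (.p (nat_lit 129) (nat_lit 324) (.n (nat_lit 131) (nat_lit 324) (.n (nat_lit 132) (nat_lit 324) (.n (nat_lit 133) (nat_lit 324) (.n (nat_lit 134) (nat_lit 648) (.p (nat_lit 135) (nat_lit 324) (.p (nat_lit 136) (nat_lit 1620) (.p (nat_lit 137) (nat_lit 108) (.n (nat_lit 138) (nat_lit 972) (.n (nat_lit 141) (nat_lit 2016) (.p (nat_lit 143) (nat_lit 2016) (.p (nat_lit 144) (nat_lit 720) (.n (nat_lit 145) (nat_lit 2016) (.n (nat_lit 147) (nat_lit 216) (.p (nat_lit 148) (nat_lit 216) (.p (nat_lit 149) (nat_lit 1008) (.p (nat_lit 150) (nat_lit 1008) (.p (nat_lit 151) (nat_lit 1008) (.p (nat_lit 152) (nat_lit 1080) (.n (nat_lit 153) (nat_lit 1368) (.n (nat_lit 154) (nat_lit 1008) .z))))))))))))))))))))))) (.ct dA4s_c292 (nat_lit 216) (nat_lit 7) (.s false (nat_lit 1) (nat_lit 12) (nat_lit 2) (nat_lit 5) (nat_lit 1) true (nat_lit 7) true (nat_lit 11) true (nat_lit 2) true (nat_lit 10) true (nat_lit 7) (.s true (nat_lit 1) (nat_lit 12) (nat_lit 5) (nat_lit 2) (nat_lit 1) true (nat_lit 3) true (nat_lit 11) true (nat_lit 2) true (nat_lit 7) true (nat_lit 10) (.s true (nat_lit 1) (nat_lit 30) (nat_lit 1) (nat_lit 1) (nat_lit 2) true (nat_lit 7) true (nat_lit 10) false (nat_lit 3) true (nat_lit 11) true (nat_lit 11) (.s false (nat_lit 1) (nat_lit 31) (nat_lit 1) (nat_lit 1) (nat_lit 2) true (nat_lit 7) true (nat_lit 10) false (nat_lit 3) true (nat_lit 11) true (nat_lit 11) (.s false (nat_lit 1) (nat_lit 32) (nat_lit 1) (nat_lit 1) (nat_lit 2) true (nat_lit 7) true (nat_lit 10) false (nat_lit 3) true (nat_lit 11) true (nat_lit 11) (.s true (nat_lit 1) (nat_lit 30) (nat_lit 2) (nat_lit 1) (nat_lit 1) true (nat_lit 7) true (nat_lit 11) false (nat_lit 3) true (nat_lit 10) true (nat_lit 11) (.s false (nat_lit 1) (nat_lit 35) (nat_lit 0) (nat_lit 1) (nat_lit 2) true (nat_lit 8) true (nat_lit 10) false (nat_lit 4) true (nat_lit 12) true (nat_lit 11) (.s false (nat_lit 1) (nat_lit 35) (nat_lit 1) (nat_lit 0) (nat_lit 2) true (nat_lit 7) true (nat_lit 10) false (nat_lit 4) true (nat_lit 11) true (nat_lit 12) (.e false (nat_lit 432) (nat_lit 94) (nat_lit 1) (nat_lit 11) (.e true (nat_lit 216) (nat_lit 95) (nat_lit 1) (nat_lit 11) dA4s_i28))))))))))) .leaf) (nat_lit 57350) (nat_lit 376) (.n (nat_lit 156) (nat_lit 108) (.n (nat_lit 157) (nat_lit 108) (.n (nat_lit 160) (nat_lit 108) (.p (nat_lit 161) (nat_lit 54) (.p (nat_lit 162) (nat_lit 432) (.p (nat_lit 163) (nat_lit 486) (.n (nat_lit 164) (nat_lit 270) (.n (nat_lit 165) (nat_lit 324) (.n (nat_lit 166) (nat_lit 324) (.n (nat_lit 167) (nat_lit 756) (.p (nat_lit 168) (nat_lit 324) (.n (nat_lit 169) (nat_lit 324) (.p (nat_lit 173) (nat_lit 216) .z))))))))))))) (.ct dA4s_c277 (nat_lit 216) (nat_lit 4) (.s false (nat_lit 1) (nat_lit 6) (nat_lit 2) (nat_lit 6) (nat_lit 3) true (nat_lit 3) true (nat_lit 7) true (nat_lit 4) true (nat_lit 8) true (nat_lit 4) (.s true (nat_lit 1) (nat_lit 6) (nat_lit 5) (nat_lit 0) (nat_lit 6) false (nat_lit 2) true (nat_lit 4) true (nat_lit 4) true (nat_lit 5) true (nat_lit 10) (.s true (nat_lit 1) (nat_lit 13) (nat_lit 2) (nat_lit 2) (nat_lit 5) true (nat_lit 1) true (nat_lit 5) true (nat_lit 2) true (nat_lit 8) true (nat_lit 8) (.s false (nat_lit 1) (nat_lit 31) (nat_lit 1) (nat_lit 2) (nat_lit 2) true (nat_lit 5) true (nat_lit 8) false (nat_lit 1) true (nat_lit 9) true (nat_lit 8) (.e false (nat_lit 432) (nat_lit 49) (nat_lit 6) (nat_lit 4) (.e false (nat_lit 432) (nat_lit 51) (nat_lit 6) (nat_lit 4) (.e true (nat_lit 432) (nat_lit 103) (nat_lit 2) (nat_lit 8) (.e true (nat_lit 432) (nat_lit 54) (nat_lit 6) (nat_lit 4) (.e true (nat_lit 432) (nat_lit 55) (nat_lit 6) (nat_lit 4) (.e false (nat_lit 216) (nat_lit 52) (nat_lit 6) (nat_lit 4) (.e false (nat_lit 432) (nat_lit 65) (nat_lit 5) (nat_lit 5) (.e false (nat_lit 432) (nat_lit 66) (nat_lit 5) (nat_lit 5) (.e false (nat_lit 432) (nat_lit 100) (nat_lit 2) (nat_lit 8) (.e false (nat_lit 432) (nat_lit 104) (nat_lit 2) (nat_lit 8) (.e true (nat_lit 216) (nat_lit 107) (nat_lit 2) (nat_lit 8) (.e true (nat_lit 216) (nat_lit 119) (nat_lit 1) (nat_lit 9) .nil))))))))))))))))) (.nd .leaf (nat_lit 58369) (nat_lit 122) (.p (nat_lit 88) (nat_lit 216) .z) .df .leaf)) (nat_lit 58370) (nat_lit 168) (.p (nat_lit 103) (nat_lit 216) .z) .df (.nd (.nd .leaf (nat_lit 58373) (nat_lit 266) (.n (nat_lit 126) (nat_lit 432) (.p (nat_lit 128) (nat_lit 432) (.n (nat_lit 129) (nat_lit 432) (.p (nat_lit 133) (nat_lit 432) (.p (nat_lit 134) (nat_lit 432) (.n (nat_lit 135) (nat_lit 216) (.n (nat_lit 136) (nat_lit 1728) (.n (nat_lit 137) (nat_lit 216) (.p (nat_lit 138) (nat_lit 1296) (.p (nat_lit 141) (nat_lit 3456) (.p (nat_lit 142) (nat_lit 864) (.n (nat_lit 143) (nat_lit 2592) (.n (nat_lit 144) (nat_lit 1728) (.p (nat_lit 145) (nat_lit 3456) (.n (nat_lit 146) (nat_lit 432) (.n (nat_lit 148) (nat_lit 432) (.n (nat_lit 149) (nat_lit 1512) (.n (nat_lit 150) (nat_lit 1296) (.n (nat_lit 151) (nat_lit 1296) (.n (nat_lit 152) (nat_lit 1728) (.p (nat_lit 153) (nat_lit 2160) (.p (nat_lit 154) (nat_lit 1728) .z)))))))))))))))))))))) (.ct dA4s_c292 (nat_lit 432) (nat_lit 7) (.s false (nat_lit 4) (nat_lit 6) (nat_lit 1) (nat_lit 3) (nat_lit 6) true (nat_lit 1) true (nat_lit 6) true (nat_lit 6) true (nat_lit 11) true (nat_lit 9) (.s false (nat_lit 4) (nat_lit 6) (nat_lit 1) (nat_lit 5) (nat_lit 4) true (nat_lit 4) true (nat_lit 8) true (nat_lit 6) true (nat_lit 11) true (nat_lit 7) (.s false (nat_lit 2) (nat_lit 6) (nat_lit 2) (nat_lit 5) (nat_lit 3) true (nat_lit 4) true (nat_lit 9) true (nat_lit 6) true (nat_lit 10) true (nat_lit 7) (.s true (nat_lit 2) (nat_lit 7) (nat_lit 2) (nat_lit 6) (nat_lit 2) true (nat_lit 6) true (nat_lit 10) true (nat_lit 5) true (nat_lit 10) true (nat_lit 6) (.s false (nat_lit 2) (nat_lit 8) (nat_lit 2) (nat_lit 1) (nat_lit 6) true (nat_lit 0) true (nat_lit 6) true (nat_lit 4) true (nat_lit 10) true (nat_lit 11) (.s true (nat_lit 8) (nat_lit 9) (nat_lit 2) (nat_lit 1) (nat_lit 6) true (nat_lit 0) true (nat_lit 6) true (nat_lit 4) true (nat_lit 10) true (nat_lit 11) (.s true (nat_lit 4) (nat_lit 9) (nat_lit 2) (nat_lit 2) (nat_lit 5) true (nat_lit 1) true (nat_lit 7) true (nat_lit 4) true (nat_lit 10) true (nat_lit 10) (.s false (nat_lit 2) (nat_lit 9) (nat_lit 6) (nat_lit 2) (nat_lit 1) true (nat_lit 1) true (nat_lit 11) true (nat_lit 4) true (nat_lit 6) true (nat_lit 10) (.s true (nat_lit 4) (nat_lit 11) (nat_lit 2) (nat_lit 2) (nat_lit 4) true (nat_lit 2) true (nat_lit 8) true (nat_lit 3) true (nat_lit 10) true (nat_lit 10) (.s false (nat_lit 1) (nat_lit 13) (nat_lit 1) (nat_lit 1) (nat_lit 6) true (nat_lit 1) true (nat_lit 6) true (nat_lit 2) true (nat_lit 11) true (nat_lit 11) (.s true (nat_lit 2) (nat_lit 13) (nat_lit 1) (nat_lit 6) (nat_lit 1) false (nat_lit 13) true (nat_lit 11) true (nat_lit 2) true (nat_lit 11) true (nat_lit 6) (.s false (nat_lit 4) (nat_lit 12) (nat_lit 2) (nat_lit 5) (nat_lit 1) true (nat_lit 7) true (nat_lit 11) true (nat_lit 2) true (nat_lit 10) true (nat_lit 7) (.s false (nat_lit 4) (nat_lit 12) (nat_lit 5) (nat_lit 1) (nat_lit 2) true (nat_lit 1) true (nat_lit 10) true (nat_lit 2) true (nat_lit 7) true (nat_lit 11) (.s true (nat_lit 4) (nat_lit 12) (nat_lit 5) (nat_lit 2) (nat_lit 1) true (nat_lit 3) true (nat_lit 11) true (nat_lit 2) true (nat_lit 7) true (nat_lit 10) (.s false (nat_lit 4) (nat_lit 14) (nat_lit 2) (nat_lit 4) (nat_lit 1) true (nat_lit 7) true (nat_lit 11) true (nat_lit 1) true (nat_lit 10) true (nat_lit 8) (.s true (nat_lit 2) (nat_lit 16) (nat_lit 0) (nat_lit 1) (nat_lit 5) true (nat_lit 4) true (nat_lit 7) true (nat_lit 0) true (nat_lit 12) true (nat_lit 11) dA4s_i3))))))))))))))))) .leaf) (nat_lit 58374) (nat_lit 393) (.p (nat_lit 164) (nat_lit 432) .z) (.ct dA4s_c277 (nat_lit 216) (nat_lit 4) (.s true (nat_lit 1) (nat_lit 6) (nat_lit 2) (nat_lit 6) (nat_lit 3) true (nat_lit 3) true (nat_lit 7) true (nat_lit 4) true (nat_lit 8) true (nat_lit 4) (.e false (nat_lit 432) (nat_lit 103) (nat_lit 2) (nat_lit 8) .nil))) .leaf)) (nat_lit 59393) (nat_lit 123) (.p (nat_lit 89) (nat_lit 216) .z) .df (.nd (.nd (.nd .leaf (nat_lit 59394) (nat_lit 186) (.p (nat_lit 94) (nat_lit 108) (.p (nat_lit 95) (nat_lit 108) (.n (nat_lit 98) (nat_lit 108) (.p (nat_lit 99) (nat_lit 108) (.p (nat_lit 100) (nat_lit 54) (.p (nat_lit 101) (nat_lit 54) (.n (nat_lit 102) (nat_lit 54) (.p (nat_lit 104) (nat_lit 54) (.p (nat_lit 105) (nat_lit 54) (.p (nat_lit 106) (nat_lit 54) (.n (nat_lit 107) (nat_lit 54) (.n (nat_lit 109) (nat_lit 54) .z)))))))))))) (.ct dA4s_c276 (nat_lit 432) (nat_lit 6) (.s false (nat_lit 1) (nat_lit 5) (nat_lit 4) (nat_lit 2) (nat_lit 2) true (nat_lit 0) true (nat_lit 6) true (nat_lit 3) true (nat_lit 4) true (nat_lit 6) (.s false (nat_lit 1) (nat_lit 12) (nat_lit 1) (nat_lit 2) (nat_lit 2) true (nat_lit 3) true (nat_lit 6) true (nat_lit 0) true (nat_lit 7) true (nat_lit 6) (.e true (nat_lit 216) (nat_lit 49) (nat_lit 2) (nat_lit 6) (.e false (nat_lit 216) (nat_lit 52) (nat_lit 2) (nat_lit 6) (.e true (nat_lit 216) (nat_lit 53) (nat_lit 2) (nat_lit 6) (.e true (nat_lit 216) (nat_lit 34) (nat_lit 4) (nat_lit 4) (.e true (nat_lit 216) (nat_lit 35) (nat_lit 4) (nat_lit 4) (.e true (nat_lit 216) (nat_lit 51) (nat_lit 2) (nat_lit 6) (.e false (nat_lit 432) (nat_lit 54) (nat_lit 2) (nat_lit 6) (.e false (nat_lit 216) (nat_lit 55) (nat_lit 2) (nat_lit 6) (.e true (nat_lit 216) (nat_lit 65) (nat_lit 1) (nat_lit 7) (.e false (nat_lit 216) (nat_lit 67) (nat_lit 1) (nat_lit 7) (.e true (nat_lit 216) (nat_lit 50) (nat_lit 2) (nat_lit 6) (.e true (nat_lit 216) (nat_lit 57) (nat_lit 2) (nat_lit 6) .nil))))))))))))))) .leaf) (nat_lit 59397) (nat_lit 301) (.p (nat_lit 126) (nat_lit 1572) (.n (nat_lit 128) (nat_lit 1356) (.p (nat_lit 129) (nat_lit 1572) (.n (nat_lit 130) (nat_lit 108) (.n (nat_lit 131) (nat_lit 840) (.n (nat_lit 132) (nat_lit 1344) (.n (nat_lit 133) (nat_lit 1056) (.n (nat_lit 134) (nat_lit 2184) (.p (nat_lit 135) (nat_lit 1092) (.p (nat_lit 136) (nat_lit 7188) (.p (nat_lit 137) (nat_lit 1200) (.n (nat_lit 138) (nat_lit 4788) (.n (nat_lit 141) (nat_lit 10924) (.n (nat_lit 142) (nat_lit 2400) (.p (nat_lit 143) (nat_lit 8524) (.p (nat_lit 144) (nat_lit 4564) (.n (nat_lit 145) (nat_lit 11212) (.p (nat_lit 146) (nat_lit 1308) (.p (nat_lit 147) (nat_lit 96) (.p (nat_lit 148) (nat_lit 1200) (.p (nat_lit 149) (nat_lit 5984) (.p (nat_lit 150) (nat_lit 5036) (.p (nat_lit 151) (nat_lit 4928) (.p (nat_lit 152) (nat_lit 6552) (.n (nat_lit 153) (nat_lit 7300) (.n (nat_lit 154) (nat_lit 5492) (.p (nat_lit 155) (nat_lit 108) .z))))))))))))))))))))))))))) (.ct dA4s_c292 (nat_lit 216) (nat_lit 7) (.s false (nat_lit 1) (nat_lit 14) (nat_lit 5) (nat_lit 0) (nat_lit 2) true (nat_lit 1) true (nat_lit 10) true (nat_lit 1) true (nat_lit 7) true (nat_lit 12) (.s true (nat_lit 1) (nat_lit 26) (nat_lit 2) (nat_lit 1) (nat_lit 2) true (nat_lit 6) true (nat_lit 10) false (nat_lit 1) true (nat_lit 10) true (nat_lit 11) (.e false (nat_lit 756) (nat_lit 73) (nat_lit 2) (nat_lit 10) (.e true (nat_lit 756) (nat_lit 74) (nat_lit 2) (nat_lit 10) (.e false (nat_lit 108) (nat_lit 75) (nat_lit 2) (nat_lit 10) (.e true (nat_lit 432) (nat_lit 76) (nat_lit 2) (nat_lit 10) dA4s_i35))))))) .leaf) (nat_lit 59398) (nat_lit 365) (.n (nat_lit 156) (nat_lit 216) (.n (nat_lit 157) (nat_lit 216) (.n (nat_lit 158) (nat_lit 216) (.p (nat_lit 159) (nat_lit 216) (.n (nat_lit 160) (nat_lit 432) (.p (nat_lit 161) (nat_lit 432) (.p (nat_lit 162) (nat_lit 432) (.p (nat_lit 163) (nat_lit 216) (.p (nat_lit 164) (nat_lit 108) (.p (nat_lit 165) (nat_lit 108) (.p (nat_lit 166) (nat_lit 108) (.n (nat_lit 167) (nat_lit 216) (.n (nat_lit 168) (nat_lit 324) (.n (nat_lit 169) (nat_lit 648) .z)))))))))))))) (.ct dA4s_c277 (nat_lit 864) (nat_lit 4) (.s true (nat_lit 1) (nat_lit 6) (nat_lit 0) (nat_lit 5) (nat_lit 6) true (nat_lit 2) true (nat_lit 4) true (nat_lit 4) true (nat_lit 10) true (nat_lit 5) (.s false (nat_lit 1) (nat_lit 6) (nat_lit 1) (nat_lit 6) (nat_lit 4) true (nat_lit 3) true (nat_lit 6) true (nat_lit 4) true (nat_lit 9) true (nat_lit 4) (.s true (nat_lit 4) (nat_lit 6) (nat_lit 2) (nat_lit 4) (nat_lit 5) true (nat_lit 1) true (nat_lit 5) true (nat_lit 4) true (nat_lit 8) true (nat_lit 6) (.s false (nat_lit 1) (nat_lit 6) (nat_lit 2) (nat_lit 6) (nat_lit 3) true (nat_lit 3) true (nat_lit 7) true (nat_lit 4) true (nat_lit 8) true (nat_lit 4) dA4s_i44))))) (.nd (.nd .leaf (nat_lit 60416) (nat_lit 136) (.p (nat_lit 73) (nat_lit 324) (.p (nat_lit 74) (nat_lit 648) (.n (nat_lit 75) (nat_lit 324) (.n (nat_lit 76) (nat_lit 216) (.n (nat_lit 77) (nat_lit 216) (.p (nat_lit 78) (nat_lit 216) (.p (nat_lit 79) (nat_lit 108) (.n (nat_lit 81) (nat_lit 216) (.n (nat_lit 82) (nat_lit 108) (.n (nat_lit 83) (nat_lit 324) (.p (nat_lit 84) (nat_lit 324) (.p (nat_lit 85) (nat_lit 108) (.p (nat_lit 86) (nat_lit 108) (.p (nat_lit 88) (nat_lit 108) (.n (nat_lit 89) (nat_lit 432) (.p (nat_lit 90) (nat_lit 432) (.n (nat_lit 91) (nat_lit 108) (.p (nat_lit 92) (nat_lit 216) (.p (nat_lit 93) (nat_lit 324) .z))))))))))))))))))) (.ct dA4s_c291 (nat_lit 216) (nat_lit 9) (.s true (nat_lit 1) (nat_lit 5) (nat_lit 0) (nat_lit 2) (nat_lit 5) true (nat_lit 1) true (nat_lit 4) true (nat_lit 4) true (nat_lit 9) true (nat_lit 7) (.s true (nat_lit 1) (nat_lit 5) (nat_lit 1) (nat_lit 4) (nat_lit 2) true (nat_lit 4) true (nat_lit 7) true (nat_lit 4) true (nat_lit 8) true (nat_lit 5) (.s true (nat_lit 1) (nat_lit 5) (nat_lit 3) (nat_lit 2) (nat_lit 2) true (nat_lit 1) true (nat_lit 7) true (nat_lit 4) true (nat_lit 6) true (nat_lit 7) (.s false (nat_lit 1) (nat_lit 8) (nat_lit 1) (nat_lit 2) (nat_lit 2) true (nat_lit 4) true (nat_lit 7) true (nat_lit 1) true (nat_lit 8) true (nat_lit 7) (.s true (nat_lit 1) (nat_lit 14) (nat_lit 2) (nat_lit 1) (nat_lit 0) true (nat_lit 5) true (nat_lit 9) false (nat_lit 1) true (nat_lit 7) true (nat_lit 8) (.s false (nat_lit 1) (nat_lit 16) (nat_lit 1) (nat_lit 1) (nat_lit 0) true (nat_lit 6) true (nat_lit 9) false (nat_lit 2) true (nat_lit 8) true (nat_lit 8) (.e true (nat_lit 216) (nat_lit 23) (nat_lit 5) (nat_lit 4) (.e false (nat_lit 216) (nat_lit 22) (nat_lit 5) (nat_lit 4) (.e false (nat_lit 432) (nat_lit 63) (nat_lit 0) (nat_lit 9) (.e true (nat_lit 216) (nat_lit 37) (nat_lit 2) (nat_lit 7) (.e false (nat_lit 216) (nat_lit 40) (nat_lit 2) (nat_lit 7) (.e false (nat_lit 216) (nat_lit 41) (nat_lit 2) (nat_lit 7) (.e true (nat_lit 216) (nat_lit 42) (nat_lit 2) (nat_lit 7) (.e true (nat_lit 216) (nat_lit 45) (nat_lit 2) (nat_lit 7) (.e false (nat_lit 216) (nat_lit 38) (nat_lit 2) (nat_lit 7) (.e true (nat_lit 216) (nat_lit 58) (nat_lit 1) (nat_lit 8) (.e false (nat_lit 216) (nat_lit 34) (nat_lit 3) (nat_lit 6) (.e false (nat_lit 432) (nat_lit 53) (nat_lit 1) (nat_lit 8) (.e true (nat_lit 216) (nat_lit 49) (nat_lit 1) (nat_lit 8) (.e false (nat_lit 216) (nat_lit 50) (nat_lit 1) (nat_lit 8) (.e true (nat_lit 216) (nat_lit 51) (nat_lit 1) (nat_lit 8) (.e true (nat_lit 216) (nat_lit 55) (nat_lit 1) (nat_lit 8) .nil))))))))))))))))))))))) .leaf) (nat_lit 60418) (nat_lit 198) (.p (nat_lit 110) (nat_lit 216) .z) .df .leaf)))) (nat_lit 60420) (nat_lit 311) (.n (nat_lit 126) (nat_lit 594) (.n (nat_lit 127) (nat_lit 432) (.p (nat_lit 128) (nat_lit 378) (.n (nat_lit 129) (nat_lit 594) (.p (nat_lit 130) (nat_lit 216) (.p (nat_lit 131) (nat_lit 378) (.p (nat_lit 132) (nat_lit 378) (.p (nat_lit 133) (nat_lit 378) (.p (nat_lit 134) (nat_lit 756) (.n (nat_lit 135) (nat_lit 486) (.n (nat_lit 136) (nat_lit 2538) (.n (nat_lit 137) (nat_lit 378) (.p (nat_lit 138) (nat_lit 1458) (.p (nat_lit 139) (nat_lit 108) (.p (nat_lit 141) (nat_lit 3492) (.p (nat_lit 142) (nat_lit 540) (.n (nat_lit 143) (nat_lit 3168) (.n (nat_lit 144) (nat_lit 1332) (.p (nat_lit 145) (nat_lit 3492) (.n (nat_lit 146) (nat_lit 54) (.p (nat_lit 147) (nat_lit 324) (.n (nat_lit 148) (nat_lit 270) (.n (nat_lit 149) (nat_lit 1800) (.n (nat_lit 150) (nat_lit 1854) (.n (nat_lit 151) (nat_lit 1530) (.n (nat_lit 152) (nat_lit 1944) (.p (nat_lit 153) (nat_lit 2466) (.p (nat_lit 154) (nat_lit 1638) (.n (nat_lit 155) (nat_lit 216) .z))))))))))))))))))))))))))))) (.ct dA4s_c292 (nat_lit 216) (nat_lit 8) (.s true (nat_lit 1) (nat_lit 11) (nat_lit 2) (nat_lit 2) (nat_lit 4) true (nat_lit 2) true (nat_lit 8) true (nat_lit 3) true (nat_lit 10) true (nat_lit 10) (.s false (nat_lit 1) (nat_lit 12) (nat_lit 5) (nat_lit 1) (nat_lit 2) true (nat_lit 1) true (nat_lit 10) true (nat_lit 2) true (nat_lit 7) true (nat_lit 11) (.s false (nat_lit 1) (nat_lit 32) (nat_lit 1) (nat_lit 2) (nat_lit 1) false (nat_lit 13) true (nat_lit 11) false (nat_lit 3) true (nat_lit 11) true (nat_lit 10) (.s true (nat_lit 1) (nat_lit 31) (nat_lit 2) (nat_lit 1) (nat_lit 1) true (nat_lit 7) true (nat_lit 11) false (nat_lit 3) true (nat_lit 10) true (nat_lit 11) (.e true (nat_lit 108) (nat_lit 76) (nat_lit 2) (nat_lit 10) (.e false (nat_lit 216) (nat_lit 83) (nat_lit 2) (nat_lit 10) (.e true (nat_lit 108) (nat_lit 73) (nat_lit 2) (nat_lit 10) (.e false (nat_lit 108) (nat_lit 77) (nat_lit 2) (nat_lit 10) (.e true (nat_lit 108) (nat_lit 78) (nat_lit 2) (nat_lit 10) (.e false (nat_lit 108) (nat_lit 80) (nat_lit 2) (nat_lit 10) (.e false (nat_lit 108) (nat_lit 81) (nat_lit 2) (nat_lit 10) (.e true (nat_lit 108) (nat_lit 82) (nat_lit 2) (nat_lit 10) (.e true (nat_lit 324) (nat_lit 86) (nat_lit 2) (nat_lit 10) (.e true (nat_lit 108) (nat_lit 88) (nat_lit 2) (nat_lit 10) (.e false (nat_lit 108) (nat_lit 91) (nat_lit 2) (nat_lit 10) (.e true (nat_lit 432) (nat_lit 74) (nat_lit 2) (nat_lit 10) (.e true (nat_lit 216) (nat_lit 24) (nat_lit 14) (nat_lit 1) (.e true (nat_lit 216) (nat_lit 58) (nat_lit 5) (nat_lit 7) (.e false (nat_lit 216) (nat_lit 108) (nat_lit 1) (nat_lit 11) (.e false (nat_lit 216) (nat_lit 101) (nat_lit 1) (nat_lit 11) (.e true (nat_lit 216) (nat_lit 109) (nat_lit 1) (nat_lit 11) (.e false (nat_lit 216) (nat_lit 54) (nat_lit 5) (nat_lit 7) (.e true (nat_lit 216) (nat_lit 104) (nat_lit 1) (nat_lit 11) (.e false (nat_lit 216) (nat_lit 100) (nat_lit 1) (nat_lit 11) .nil))))))))))))))))))))))))) (.nd (.nd (.nd (.nd (.nd .leaf (nat_lit 60422) (nat_lit 409) (.p (nat_lit 176) (nat_lit 432) (.p (nat_lit 177) (nat_lit 1512) (.p (nat_lit 178) (nat_lit 864) (.n (nat_lit 179) (nat_lit 216) (.p (nat_lit 181) (nat_lit 216) (.p (nat_lit 182) (nat_lit 216) .z)))))) (.ct dA4s_c37 (nat_lit 216) (nat_lit 3) (.s true (nat_lit 1) (nat_lit 11) (nat_lit 2) (nat_lit 2) (nat_lit 6) true (nat_lit 0) true (nat_lit 3) true (nat_lit 2) true (nat_lit 5) true (nat_lit 5) (.s false (nat_lit 1) (nat_lit 16) (nat_lit 1) (nat_lit 5) (nat_lit 2) true (nat_lit 4) true (nat_lit 5) true (nat_lit 0) true (nat_lit 6) true (nat_lit 4) (.e true (nat_lit 108) (nat_lit 111) (nat_lit 2) (nat_lit 5) (.e false (nat_lit 540) (nat_lit 114) (nat_lit 2) (nat_lit 5) (.e true (nat_lit 108) (nat_lit 115) (nat_lit 2) (nat_lit 5) (.e false (nat_lit 432) (nat_lit 112) (nat_lit 2) (nat_lit 5) (.e false (nat_lit 216) (nat_lit 113) (nat_lit 2) (nat_lit 5) (.e true (nat_lit 216) (nat_lit 70) (nat_lit 5) (nat_lit 4) (.e false (nat_lit 216) (nat_lit 125) (nat_lit 1) (nat_lit 6) .nil)))))))))) .leaf) (nat_lit 61440) (nat_lit 138) (.n (nat_lit 73) (nat_lit 216) (.p (nat_lit 74) (nat_lit 432) (.p (nat_lit 76) (nat_lit 216) (.n (nat_lit 78) (nat_lit 216) (.p (nat_lit 79) (nat_lit 216) (.n (nat_lit 80) (nat_lit 216) (.p (nat_lit 81) (nat_lit 216) (.p (nat_lit 82) (nat_lit 216) (.n (nat_lit 85) (nat_lit 216) (.p (nat_lit 88) (nat_lit 216) (.p (nat_lit 90) (nat_lit 216) (.n (nat_lit 91) (nat_lit 216) (.p (nat_lit 93) (nat_lit 432) .z))))))))))))) (.ct dA4s_c291 (nat_lit 216) (nat_lit 9) (.s true (nat_lit 1) (nat_lit 6) (nat_lit 4) (nat_lit 1) (nat_lit 1) true (nat_lit 1) true (nat_lit 8) true (nat_lit 3) true (nat_lit 5) true (nat_lit 8) (.s true (nat_lit 1) (nat_lit 15) (nat_lit 0) (nat_lit 2) (nat_lit 1) true (nat_lit 6) true (nat_lit 8) false (nat_lit 1) true (nat_lit 9) true (nat_lit 7) (.e false (nat_lit 216) (nat_lit 55) (nat_lit 1) (nat_lit 8) (.e true (nat_lit 216) (nat_lit 19) (nat_lit 6) (nat_lit 3) (.e false (nat_lit 432) (nat_lit 49) (nat_lit 1) (nat_lit 8) (.e true (nat_lit 432) (nat_lit 52) (nat_lit 1) (nat_lit 8) (.e false (nat_lit 432) (nat_lit 53) (nat_lit 1) (nat_lit 8) (.e false (nat_lit 216) (nat_lit 57) (nat_lit 1) (nat_lit 8) (.e true (nat_lit 216) (nat_lit 34) (nat_lit 3) (nat_lit 6) (.e false (nat_lit 432) (nat_lit 48) (nat_lit 1) (nat_lit 8) (.e false (nat_lit 216) (nat_lit 62) (nat_lit 0) (nat_lit 9) (.e false (nat_lit 432) (nat_lit 63) (nat_lit 0) (nat_lit 9) (.e false (nat_lit 216) (nat_lit 47) (nat_lit 2) (nat_lit 7) .nil)))))))))))))) (.nd .leaf (nat_lit 61442) (nat_lit 199) (.p (nat_lit 111) (nat_lit 216) .z) .df .leaf)) (nat_lit 61446) (nat_lit 410) (.n (nat_lit 177) (nat_lit 1728) (.n (nat_lit 178) (nat_lit 864) (.p (nat_lit 179) (nat_lit 432) (.n (nat_lit 182) (nat_lit 648) .z)))) (.ct dA4s_c37 (nat_lit 216) (nat_lit 3) (.s true (nat_lit 1) (nat_lit 6) (nat_lit 1) (nat_lit 6) (nat_lit 5) true (nat_lit 2) true (nat_lit 4) true (nat_lit 3) true (nat_lit 6) true (nat_lit 3) (.e true (nat_lit 432) (nat_lit 69) (nat_lit 5) (nat_lit 4) (.e true (nat_lit 432) (nat_lit 70) (nat_lit 5) (nat_lit 4) (.e false (nat_lit 216) (nat_lit 63) (nat_lit 6) (nat_lit 3) (.e false (nat_lit 432) (nat_lit 122) (nat_lit 1) (nat_lit 6) (.e false (nat_lit 432) (nat_lit 123) (nat_lit 1) (nat_lit 6) .nil))))))) (.nd (.nd .leaf (nat_lit 62464) (nat_lit 154) (.p (nat_lit 73) (nat_lit 108) (.p (nat_lit 74) (nat_lit 1404) (.n (nat_lit 75) (nat_lit 432) (.n (nat_lit 76) (nat_lit 324) (.n (nat_lit 77) (nat_lit 108) (.p (nat_lit 78) (nat_lit 324) (.p (nat_lit 79) (nat_lit 108) (.p (nat_lit 80) (nat_lit 216) (.p (nat_lit 81) (nat_lit 1404) (.n (nat_lit 82) (nat_lit 648) (.p (nat_lit 83) (nat_lit 432) (.p (nat_lit 84) (nat_lit 432) (.n (nat_lit 85) (nat_lit 432) (.n (nat_lit 86) (nat_lit 432) (.n (nat_lit 87) (nat_lit 756) (.n (nat_lit 88) (nat_lit 972) (.n (nat_lit 89) (nat_lit 864) (.n (nat_lit 91) (nat_lit 108) (.p (nat_lit 92) (nat_lit 108) (.p (nat_lit 93) (nat_lit 972) .z)))))))))))))))))))) (.ct dA4s_c291 (nat_lit 216) (nat_lit 9) (.s true (nat_lit 1) (nat_lit 14) (nat_lit 2) (nat_lit 1) (nat_lit 0) true (nat_lit 5) true (nat_lit 9) false (nat_lit 1) true (nat_lit 7) true (nat_lit 8) (.e false (nat_lit 216) (nat_lit 28) (nat_lit 4) (nat_lit 5) (.e false (nat_lit 216) (nat_lit 14) (nat_lit 10) (nat_lit 1) (.e false (nat_lit 216) (nat_lit 37) (nat_lit 2) (nat_lit 7) (.e true (nat_lit 216) (nat_lit 43) (nat_lit 2) (nat_lit 7) (.e false (nat_lit 216) (nat_lit 45) (nat_lit 2) (nat_lit 7) (.e false (nat_lit 216) (nat_lit 53) (nat_lit 1) (nat_lit 8) .nil)))))))) .leaf) (nat_lit 62466) (nat_lit 210) (.p (nat_lit 110) (nat_lit 216) (.n (nat_lit 111) (nat_lit 108) (.n (nat_lit 112) (nat_lit 108) (.n (nat_lit 113) (nat_lit 756) (.n (nat_lit 114) (nat_lit 540) (.p (nat_lit 115) (nat_lit 216) .z)))))) (.ct dA4s_c36 (nat_lit 432) (nat_lit 4) (.s false (nat_lit 1) (nat_lit 5) (nat_lit 2) (nat_lit 2) (nat_lit 5) true (nat_lit 0) true (nat_lit 3) true (nat_lit 3) true (nat_lit 4) true (nat_lit 4) (.s true (nat_lit 1) (nat_lit 14) (nat_lit 1) (nat_lit 2) (nat_lit 2) true (nat_lit 3) true (nat_lit 4) true (nat_lit 0) true (nat_lit 5) true (nat_lit 4) (.a false (nat_lit 46656) (nat_lit 14) (nat_lit 14) (nat_lit 0) (nat_lit 0) (.e false (nat_lit 216) (nat_lit 34) (nat_lit 5) (nat_lit 3) (.e false (nat_lit 216) (nat_lit 35) (nat_lit 5) (nat_lit 3) (.e false (nat_lit 432) (nat_lit 59) (nat_lit 2) (nat_lit 4) (.e true (nat_lit 216) (nat_lit 63) (nat_lit 2) (nat_lit 4) (.e true (nat_lit 216) (nat_lit 60) (nat_lit 2) (nat_lit 4) (.e false (nat_lit 216) (nat_lit 69) (nat_lit 1) (nat_lit 5) (.e true (nat_lit 216) (nat_lit 71) (nat_lit 1) (nat_lit 5) .nil))))))))))) .leaf)) (nat_lit 62468) (nat_lit 313) (.n (nat_lit 126) (nat_lit 1386) (.n (nat_lit 127) (nat_lit 216) (.p (nat_lit 128) (nat_lit 1170) (.n (nat_lit 129) (nat_lit 1386) (.p (nat_lit 130) (nat_lit 108) (.p (nat_lit 131) (nat_lit 990) (.p (nat_lit 132) (nat_lit 1206) (.p (nat_lit 133) (nat_lit 990) (.p (nat_lit 134) (nat_lit 2412) (.n (nat_lit 135) (nat_lit 1206) (.n (nat_lit 136) (nat_lit 6570) (.n (nat_lit 137) (nat_lit 1206) (.p (nat_lit 138) (nat_lit 4266) (.p (nat_lit 139) (nat_lit 108) (.p (nat_lit 141) (nat_lit 11112) (.p (nat_lit 142) (nat_lit 2412) (.n (nat_lit 143) (nat_lit 8916) (.n (nat_lit 144) (nat_lit 4704) (.p (nat_lit 145) (nat_lit 11544) (.n (nat_lit 146) (nat_lit 1098) (.n (nat_lit 147) (nat_lit 36) (.n (nat_lit 148) (nat_lit 1206) (.n (nat_lit 149) (nat_lit 5880) (.n (nat_lit 150) (nat_lit 5106) (.n (nat_lit 151) (nat_lit 4890) (.n (nat_lit 152) (nat_lit 6480) (.p (nat_lit 153) (nat_lit 7350) (.p (nat_lit 154) (nat_lit 5898) (.n (nat_lit 155) (nat_lit 108) .z))))))))))))))))))))))))))))) (.ct dA4s_c292 (nat_lit 216) (nat_lit 8) (.s false (nat_lit 1) (nat_lit 5) (nat_lit 4) (nat_lit 2) (nat_lit 5) false (nat_lit 1) true (nat_lit 7) true (nat_lit 7) true (nat_lit 8) true (nat_lit 10) (.s false (nat_lit 1) (nat_lit 22) (nat_lit 2) (nat_lit 1) (nat_lit 2) true (nat_lit 6) true (nat_lit 10) false (nat_lit 1) true (nat_lit 10) true (nat_lit 11) (.e false (nat_lit 216) (nat_lit 21) (nat_lit 14) (nat_lit 1) (.e true (nat_lit 216) (nat_lit 25) (nat_lit 14) (nat_lit 1) (.e false (nat_lit 216) (nat_lit 26) (nat_lit 14) (nat_lit 1) (.e true (nat_lit 216) (nat_lit 48) (nat_lit 5) (nat_lit 7) (.e true (nat_lit 216) (nat_lit 49) (nat_lit 5) (nat_lit 7) (.e false (nat_lit 216) (nat_lit 52) (nat_lit 5) (nat_lit 7) (.e true (nat_lit 216) (nat_lit 53) (nat_lit 5) (nat_lit 7) (.e true (nat_lit 216) (nat_lit 58) (nat_lit 5) (nat_lit 7) (.e false (nat_lit 216) (nat_lit 59) (nat_lit 4) (nat_lit 8) (.e true (nat_lit 216) (nat_lit 63) (nat_lit 4) (nat_lit 8) (.e true (nat_lit 216) (nat_lit 76) (nat_lit 2) (nat_lit 10) (.e true (nat_lit 216) (nat_lit 77) (nat_lit 2) (nat_lit 10) (.e true (nat_lit 432) (nat_lit 89) (nat_lit 2) (nat_lit 10) (.e true (nat_lit 432) (nat_lit 93) (nat_lit 2) (nat_lit 10) (.e false (nat_lit 216) (nat_lit 73) (nat_lit 2) (nat_lit 10) (.e false (nat_lit 216) (nat_lit 74) (nat_lit 2) (nat_lit 10) (.e false (nat_lit 216) (nat_lit 78) (nat_lit 2) (nat_lit 10) (.e false (nat_lit 216) (nat_lit 85) (nat_lit 2) (nat_lit 10) (.e false (nat_lit 216) (nat_lit 86) (nat_lit 2) (nat_lit 10) (.e true (nat_lit 216) (nat_lit 41) (nat_lit 6) (nat_lit 6) (.e false (nat_lit 216) (nat_lit 95) (nat_lit 1) (nat_lit 11) .nil)))))))))))))))))))))))) (.nd (.nd (.nd .leaf (nat_lit 62470) (nat_lit 413) (.p (nat_lit 176) (nat_lit 216) (.p (nat_lit 177) (nat_lit 1728) (.p (nat_lit 178) (nat_lit 864) (.p (nat_lit 181) (nat_lit 216) (.p (nat_lit 182) (nat_lit 648) .z))))) (.ct dA4s_c37 (nat_lit 216) (nat_lit 3) (.s false (nat_lit 1) (nat_lit 14) (nat_lit 1) (nat_lit 6) (nat_lit 2) true (nat_lit 4) true (nat_lit 5) true (nat_lit 1) true (nat_lit 6) true (nat_lit 3) (.e false (nat_lit 216) (nat_lit 69) (nat_lit 5) (nat_lit 4) (.e true (nat_lit 216) (nat_lit 71) (nat_lit 5) (nat_lit 4) (.e false (nat_lit 216) (nat_lit 115) (nat_lit 2) (nat_lit 5) (.e true (nat_lit 216) (nat_lit 34) (nat_lit 14) (nat_lit 1) (.e true (nat_lit 216) (nat_lit 125) (nat_lit 1) (nat_lit 6) .nil))))))) .leaf) (nat_lit 63488) (nat_lit 131) (.p (nat_lit 73) (nat_lit 216) (.p (nat_lit 74) (nat_lit 216) (.n (nat_lit 75) (nat_lit 216) (.n (nat_lit 77) (nat_lit 216) (.p (nat_lit 79) (nat_lit 216) (.n (nat_lit 80) (nat_lit 216) (.n (nat_lit 81) (nat_lit 648) (.p (nat_lit 82) (nat_lit 216) (.n (nat_lit 83) (nat_lit 432) (.p (nat_lit 85) (nat_lit 216) (.p (nat_lit 86) (nat_lit 216) (.p (nat_lit 87) (nat_lit 432) (.p (nat_lit 88) (nat_lit 648) (.p (nat_lit 90) (nat_lit 216) (.n (nat_lit 91) (nat_lit 216) (.p (nat_lit 92) (nat_lit 216) .z)))))))))))))))) (.ct dA4s_c291 (nat_lit 216) (nat_lit 9) (.s true (nat_lit 1) (nat_lit 5) (nat_lit 1) (nat_lit 2) (nat_lit 4) true (nat_lit 1) true (nat_lit 5) true (nat_lit 4) true (nat_lit 8) true (nat_lit 7) (.s true (nat_lit 1) (nat_lit 5) (nat_lit 1) (nat_lit 4) (nat_lit 2) true (nat_lit 4) true (nat_lit 7) true (nat_lit 4) true (nat_lit 8) true (nat_lit 5) (.s false (nat_lit 1) (nat_lit 5) (nat_lit 4) (nat_lit 1) (nat_lit 2) false (nat_lit 0) true (nat_lit 7) true (nat_lit 4) true (nat_lit 5) true (nat_lit 8) (.s true (nat_lit 1) (nat_lit 10) (nat_lit 1) (nat_lit 2) (nat_lit 2) true (nat_lit 4) true (nat_lit 7) true (nat_lit 1) true (nat_lit 8) true (nat_lit 7) (.s false (nat_lit 1) (nat_lit 9) (nat_lit 2) (nat_lit 1) (nat_lit 2) true (nat_lit 3) true (nat_lit 7) true (nat_lit 1) true (nat_lit 7) true (nat_lit 8) (.s true (nat_lit 1) (nat_lit 10) (nat_lit 2) (nat_lit 1) (nat_lit 2) true (nat_lit 3) true (nat_lit 7) true (nat_lit 1) true (nat_lit 7) true (nat_lit 8) (.s true (nat_lit 1) (nat_lit 10) (nat_lit 2) (nat_lit 2) (nat_lit 1) true (nat_lit 4) true (nat_lit 8) true (nat_lit 1) true (nat_lit 7) true (nat_lit 7) (.s true (nat_lit 1) (nat_lit 12) (nat_lit 1) (nat_lit 2) (nat_lit 1) false (nat_lit 10) true (nat_lit 8) false (nat_lit 0) true (nat_lit 8) true (nat_lit 7) (.s true (nat_lit 1) (nat_lit 15) (nat_lit 2) (nat_lit 1) (nat_lit 0) true (nat_lit 5) true (nat_lit 9) false (nat_lit 1) true (nat_lit 7) true (nat_lit 8) (.e false (nat_lit 432) (nat_lit 22) (nat_lit 5) (nat_lit 4) (.e false (nat_lit 648) (nat_lit 41) (nat_lit 2) (nat_lit 7) (.e true (nat_lit 216) (nat_lit 44) (nat_lit 2) (nat_lit 7) (.e true (nat_lit 216) (nat_lit 45) (nat_lit 2) (nat_lit 7) (.e true (nat_lit 432) (nat_lit 23) (nat_lit 5) (nat_lit 4) (.e false (nat_lit 216) (nat_lit 56) (nat_lit 1) (nat_lit 8) (.e false (nat_lit 216) (nat_lit 57) (nat_lit 1) (nat_lit 8) (.e true (nat_lit 648) (nat_lit 42) (nat_lit 2) (nat_lit 7) (.e true (nat_lit 216) (nat_lit 19) (nat_lit 6) (nat_lit 3) (.e false (nat_lit 216) (nat_lit 43) (nat_lit 2) (nat_lit 7) (.e false (nat_lit 216) (nat_lit 20) (nat_lit 6) (nat_lit 3) (.e false (nat_lit 216) (nat_lit 47) (nat_lit 2) (nat_lit 7) (.e true (nat_lit 432) (nat_lit 48) (nat_lit 1) (nat_lit 8) .nil))))))))))))))))))))))) .leaf) (nat_lit 63490) (nat_lit 200) (.p (nat_lit 112) (nat_lit 216) .z) .df (.nd (.nd .leaf (nat_lit 63492) (nat_lit 295) (.p (nat_lit 126) (nat_lit 204) (.n (nat_lit 127) (nat_lit 432) (.n (nat_lit 128) (nat_lit 204) (.p (nat_lit 129) (nat_lit 204) (.n (nat_lit 131) (nat_lit 156) (.n (nat_lit 132) (nat_lit 444) (.n (nat_lit 133) (nat_lit 156) (.n (nat_lit 134) (nat_lit 168) (.p (nat_lit 135) (nat_lit 84) (.p (nat_lit 136) (nat_lit 852) (.p (nat_lit 137) (nat_lit 84) (.n (nat_lit 138) (nat_lit 468) (.p (nat_lit 139) (nat_lit 216) (.n (nat_lit 141) (nat_lit 112) (.p (nat_lit 142) (nat_lit 912) (.p (nat_lit 143) (nat_lit 1024) (.n (nat_lit 144) (nat_lit 560) (.p (nat_lit 145) (nat_lit 32) (.n (nat_lit 146) (nat_lit 240) (.n (nat_lit 147) (nat_lit 192) (.n (nat_lit 148) (nat_lit 456) (.p (nat_lit 149) (nat_lit 848) (.p (nat_lit 150) (nat_lit 1016) (.p (nat_lit 151) (nat_lit 1232) (.p (nat_lit 152) (nat_lit 1152) (.n (nat_lit 153) (nat_lit 880) (.n (nat_lit 154) (nat_lit 536) .z))))))))))))))))))))))))))) (.ct dA4s_c292 (nat_lit 216) (nat_lit 8) (.s true (nat_lit 1) (nat_lit 11) (nat_lit 2) (nat_lit 2) (nat_lit 4) true (nat_lit 2) true (nat_lit 8) true (nat_lit 3) true (nat_lit 10) true (nat_lit 10) dA4s_i34)) .leaf) (nat_lit 63494) (nat_lit 405) (.p (nat_lit 176) (nat_lit 432) (.n (nat_lit 177) (nat_lit 432) (.n (nat_lit 182) (nat_lit 432) .z))) (.ct dA4s_c37 (nat_lit 216) (nat_lit 3) (.s false (nat_lit 1) (nat_lit 6) (nat_lit 2) (nat_lit 5) (nat_lit 5) true (nat_lit 1) true (nat_lit 4) true (nat_lit 3) true (nat_lit 5) true (nat_lit 4) (.s true (nat_lit 2) (nat_lit 11) (nat_lit 2) (nat_lit 2) (nat_lit 6) true (nat_lit 0) true (nat_lit 3) true (nat_lit 2) true (nat_lit 5) true (nat_lit 5) (.s true (nat_lit 1) (nat_lit 14) (nat_lit 1) (nat_lit 6) (nat_lit 2) true (nat_lit 4) true (nat_lit 5) true (nat_lit 1) true (nat_lit 6) true (nat_lit 3) (.s false (nat_lit 1) (nat_lit 16) (nat_lit 1) (nat_lit 5) (nat_lit 2) true (nat_lit 4) true (nat_lit 5) true (nat_lit 0) true (nat_lit 6) true (nat_lit 4) (.s true (nat_lit 1) (nat_lit 16) (nat_lit 2) (nat_lit 5) (nat_lit 1) true (nat_lit 4) true (nat_lit 6) true (nat_lit 0) true (nat_lit 5) true (nat_lit 4) (.s true (nat_lit 1) (nat_lit 16) (nat_lit 5) (nat_lit 1) (nat_lit 2) true (nat_lit 1) true (nat_lit 5) true (nat_lit 0) true (nat_lit 4) true (nat_lit 6) (.s true (nat_lit 1) (nat_lit 28) (nat_lit 2) (nat_lit 2) (nat_lit 2) true (nat_lit 3) true (nat_lit 5) false (nat_lit 0) true (nat_lit 5) true (nat_lit 5) (.e true (nat_lit 432) (nat_lit 63) (nat_lit 6) (nat_lit 3) (.e false (nat_lit 432) (nat_lit 112) (nat_lit 2) (nat_lit 5) (.e true (nat_lit 432) (nat_lit 113) (nat_lit 2) (nat_lit 5) .nil))))))))))) .leaf))) (nat_lit 64512) (nat_lit 124) (.p (nat_lit 90) (nat_lit 216) .z) .df (.nd (.nd (.nd (.nd .leaf (nat_lit 64514) (nat_lit 207) (.p (nat_lit 111) (nat_lit 108) (.p (nat_lit 113) (nat_lit 432) (.p (nat_lit 114) (nat_lit 324) (.n (nat_lit 115) (nat_lit 108) .z)))) (.ct dA4s_c36 (nat_lit 432) (nat_lit 4) (.s true (nat_lit 1) (nat_lit 15) (nat_lit 2) (nat_lit 2) (nat_lit 1) true (nat_lit 3) true (nat_lit 5) true (nat_lit 0) true (nat_lit 4) true (nat_lit 4) (.a true (nat_lit 23328) (nat_lit 15) (nat_lit 15) (nat_lit 0) (nat_lit 0) (.e true (nat_lit 216) (nat_lit 34) (nat_lit 5) (nat_lit 3) (.e true (nat_lit 216) (nat_lit 69) (nat_lit 1) (nat_lit 5) (.e false (nat_lit 432) (nat_lit 60) (nat_lit 2) (nat_lit 4) (.e true (nat_lit 216) (nat_lit 62) (nat_lit 2) (nat_lit 4) .nil))))))) .leaf) (nat_lit 64516) (nat_lit 269) (.p (nat_lit 126) (nat_lit 456) (.n (nat_lit 128) (nat_lit 456) (.p (nat_lit 129) (nat_lit 456) (.n (nat_lit 131) (nat_lit 336) (.n (nat_lit 132) (nat_lit 624) (.n (nat_lit 133) (nat_lit 336) (.n (nat_lit 134) (nat_lit 960) (.p (nat_lit 135) (nat_lit 480) (.p (nat_lit 136) (nat_lit 2400) (.p (nat_lit 137) (nat_lit 480) (.n (nat_lit 138) (nat_lit 1656) (.n (nat_lit 141) (nat_lit 4888) (.n (nat_lit 142) (nat_lit 1824) (.p (nat_lit 143) (nat_lit 3064) (.p (nat_lit 144) (nat_lit 2560) (.n (nat_lit 145) (nat_lit 5176) (.p (nat_lit 146) (nat_lit 912) (.p (nat_lit 147) (nat_lit 384) (.p (nat_lit 148) (nat_lit 912) (.p (nat_lit 149) (nat_lit 2048) (.p (nat_lit 150) (nat_lit 1280) (.p (nat_lit 151) (nat_lit 1280) (.p (nat_lit 152) (nat_lit 2232) (.n (nat_lit 153) (nat_lit 2488) (.n (nat_lit 154) (nat_lit 2240) .z))))))))))))))))))))))))) (.ct dA4s_c292 (nat_lit 864) (nat_lit 8) (.s false (nat_lit 4) (nat_lit 6) (nat_lit 1) (nat_lit 4) (nat_lit 5) true (nat_lit 3) true (nat_lit 7) true (nat_lit 6) true (nat_lit 11) true (nat_lit 8) (.s false (nat_lit 2) (nat_lit 6) (nat_lit 1) (nat_lit 6) (nat_lit 3) true (nat_lit 5) true (nat_lit 9) true (nat_lit 6) true (nat_lit 11) true (nat_lit 6) (.s false (nat_lit 2) (nat_lit 6) (nat_lit 2) (nat_lit 5) (nat_lit 3) true (nat_lit 4) true (nat_lit 9) true (nat_lit 6) true (nat_lit 10) true (nat_lit 7) (.s true (nat_lit 2) (nat_lit 7) (nat_lit 2) (nat_lit 6) (nat_lit 2) true (nat_lit 6) true (nat_lit 10) true (nat_lit 5) true (nat_lit 10) true (nat_lit 6) (.s true (nat_lit 2) (nat_lit 8) (nat_lit 2) (nat_lit 1) (nat_lit 6) true (nat_lit 0) true (nat_lit 6) true (nat_lit 4) true (nat_lit 10) true (nat_lit 11) (.s true (nat_lit 4) (nat_lit 9) (nat_lit 2) (nat_lit 1) (nat_lit 6) true (nat_lit 0) true (nat_lit 6) true (nat_lit 4) true (nat_lit 10) true (nat_lit 11) (.s false (nat_lit 4) (nat_lit 10) (nat_lit 2) (nat_lit 1) (nat_lit 6) true (nat_lit 0) true (nat_lit 6) true (nat_lit 4) true (nat_lit 10) true (nat_lit 11) (.s true (nat_lit 4) (nat_lit 9) (nat_lit 2) (nat_lit 2) (nat_lit 5) true (nat_lit 1) true (nat_lit 7) true (nat_lit 4) true (nat_lit 10) true (nat_lit 10) dA4s_i10))))))))) (.nd .leaf (nat_lit 64518) (nat_lit 402) (.p (nat_lit 182) (nat_lit 216) .z) .df .leaf)) (nat_lit 65537) (nat_lit 197) (.n (nat_lit 94) (nat_lit 972) (.n (nat_lit 95) (nat_lit 756) (.p (nat_lit 96) (nat_lit 216) (.p (nat_lit 97) (nat_lit 432) (.p (nat_lit 98) (nat_lit 756) (.n (nat_lit 99) (nat_lit 756) (.p (nat_lit 100) (nat_lit 162) (.n (nat_lit 101) (nat_lit 54) (.p (nat_lit 102) (nat_lit 270) (.p (nat_lit 103) (nat_lit 216) (.n (nat_lit 104) (nat_lit 54) (.n (nat_lit 105) (nat_lit 270) (.n (nat_lit 106) (nat_lit 54) (.n (nat_lit 107) (nat_lit 162) (.n (nat_lit 108) (nat_lit 216) (.p (nat_lit 109) (nat_lit 54) .z)))))))))))))))) (.ct dA4s_c276 (nat_lit 216) (nat_lit 7) (.s true (nat_lit 1) (nat_lit 12) (nat_lit 2) (nat_lit 2) (nat_lit 1) true (nat_lit 3) true (nat_lit 7) true (nat_lit 0) true (nat_lit 6) true (nat_lit 6) (.e true (nat_lit 216) (nat_lit 30) (nat_lit 5) (nat_lit 3) (.e true (nat_lit 216) (nat_lit 15) (nat_lit 12) (nat_lit 0) (.e true (nat_lit 216) (nat_lit 58) (nat_lit 2) (nat_lit 6) (.e false (nat_lit 216) (nat_lit 51) (nat_lit 2) (nat_lit 6) .nil)))))) (.nd (.nd .leaf (nat_lit 66561) (nat_lit 169) (.p (nat_lit 104) (nat_lit 216) .z) .df .leaf) (nat_lit 66562) (nat_lit 215) (.p (nat_lit 117) (nat_lit 216) .z) .df .leaf)) (nat_lit 66565) (nat_lit 367) (.p (nat_lit 156) (nat_lit 648) (.p (nat_lit 157) (nat_lit 648) (.n (nat_lit 159) (nat_lit 432) (.p (nat_lit 160) (nat_lit 648) (.n (nat_lit 161) (nat_lit 324) (.n (nat_lit 162) (nat_lit 432) (.n (nat_lit 163) (nat_lit 324) (.n (nat_lit 164) (nat_lit 108) (.p (nat_lit 166) (nat_lit 216) (.p (nat_lit 167) (nat_lit 216) (.p (nat_lit 169) (nat_lit 216) (.p (nat_lit 170) (nat_lit 216) (.p (nat_lit 171) (nat_lit 432) (.n (nat_lit 173) (nat_lit 216) .z)))))))))))))) (.ct dA4s_c277 (nat_lit 864) (nat_lit 5) (.s false (nat_lit 1) (nat_lit 6) (nat_lit 0) (nat_lit 5) (nat_lit 6) true (nat_lit 2) true (nat_lit 4) true (nat_lit 4) true (nat_lit 10) true (nat_lit 5) (.s true (nat_lit 1) (nat_lit 6) (nat_lit 1) (nat_lit 6) (nat_lit 4) true (nat_lit 3) true (nat_lit 6) true (nat_lit 4) true (nat_lit 9) true (nat_lit 4) (.s false (nat_lit 2) (nat_lit 6) (nat_lit 5) (nat_lit 0) (nat_lit 6) false (nat_lit 2) true (nat_lit 4) true (nat_lit 4) true (nat_lit 5) true (nat_lit 10) (.s true (nat_lit 1) (nat_lit 13) (nat_lit 2) (nat_lit 1) (nat_lit 6) true (nat_lit 0) true (nat_lit 4) true (nat_lit 2) true (nat_lit 8) true (nat_lit 9) (.s true (nat_lit 1) (nat_lit 15) (nat_lit 2) (nat_lit 6) (nat_lit 0) true (nat_lit 6) true (nat_lit 10) true (nat_lit 1) true (nat_lit 8) true (nat_lit 4) (.s false (nat_lit 1) (nat_lit 16) (nat_lit 6) (nat_lit 0) (nat_lit 1) true (nat_lit 1) true (nat_lit 9) true (nat_lit 0) true (nat_lit 4) true (nat_lit 10) (.e true (nat_lit 432) (nat_lit 52) (nat_lit 6) (nat_lit 4) (.e false (nat_lit 432) (nat_lit 55) (nat_lit 6) (nat_lit 4) (.e false (nat_lit 864) (nat_lit 117) (nat_lit 1) (nat_lit 9) (.e false (nat_lit 864) (nat_lit 118) (nat_lit 1) (nat_lit 9) (.e true (nat_lit 864) (nat_lit 66) (nat_lit 5) (nat_lit 5) (.e false (nat_lit 864) (nat_lit 103) (nat_lit 2) (nat_lit 8) (.e false (nat_lit 864) (nat_lit 105) (nat_lit 2) (nat_lit 8) (.e false (nat_lit 864) (nat_lit 106) (nat_lit 2) (nat_lit 8) (.e true (nat_lit 432) (nat_lit 107) (nat_lit 2) (nat_lit 8) .nil)))))))))))))))) (.nd (.nd (.nd .leaf (nat_lit 67585) (nat_lit 176) (.n (nat_lit 94) (nat_lit 432) (.n (nat_lit 95) (nat_lit 432) (.p (nat_lit 98) (nat_lit 432) (.n (nat_lit 99) (nat_lit 432) (.p (nat_lit 100) (nat_lit 216) (.p (nat_lit 102) (nat_lit 216) (.n (nat_lit 104) (nat_lit 216) (.n (nat_lit 105) (nat_lit 216) (.n (nat_lit 106) (nat_lit 216) .z))))))))) (.ct dA4s_c276 (nat_lit 432) (nat_lit 7) (.s true (nat_lit 1) (nat_lit 6) (nat_lit 0) (nat_lit 6) (nat_lit 1) true (nat_lit 5) true (nat_lit 7) true (nat_lit 2) true (nat_lit 8) true (nat_lit 2) (.s true (nat_lit 2) (nat_lit 6) (nat_lit 1) (nat_lit 4) (nat_lit 2) true (nat_lit 3) true (nat_lit 6) true (nat_lit 2) true (nat_lit 7) true (nat_lit 4) (.s false (nat_lit 1) (nat_lit 6) (nat_lit 2) (nat_lit 2) (nat_lit 3) true (nat_lit 1) true (nat_lit 5) true (nat_lit 2) true (nat_lit 6) true (nat_lit 6) (.s false (nat_lit 2) (nat_lit 6) (nat_lit 3) (nat_lit 2) (nat_lit 2) true (nat_lit 1) true (nat_lit 6) true (nat_lit 2) true (nat_lit 5) true (nat_lit 6) (.s true (nat_lit 2) (nat_lit 6) (nat_lit 5) (nat_lit 0) (nat_lit 2) false (nat_lit 0) true (nat_lit 6) true (nat_lit 2) true (nat_lit 3) true (nat_lit 8) (.s false (nat_lit 2) (nat_lit 13) (nat_lit 2) (nat_lit 1) (nat_lit 2) true (nat_lit 2) true (nat_lit 6) true (nat_lit 0) true (nat_lit 6) true (nat_lit 7) (.s false (nat_lit 3) (nat_lit 16) (nat_lit 0) (nat_lit 1) (nat_lit 2) true (nat_lit 4) true (nat_lit 6) false (nat_lit 1) true (nat_lit 8) true (nat_lit 7) (.s false (nat_lit 1) (nat_lit 16) (nat_lit 1) (nat_lit 2) (nat_lit 0) true (nat_lit 5) true (nat_lit 8) false (nat_lit 1) true (nat_lit 7) true (nat_lit 6) (.s false (nat_lit 1) (nat_lit 16) (nat_lit 2) (nat_lit 1) (nat_lit 0) true (nat_lit 4) true (nat_lit 8) false (nat_lit 1) true (nat_lit 6) true (nat_lit 7) (.e true (nat_lit 432) (nat_lit 65) (nat_lit 1) (nat_lit 7) (.e true (nat_lit 432) (nat_lit 69) (nat_lit 0) (nat_lit 8) (.e true (nat_lit 432) (nat_lit 70) (nat_lit 0) (nat_lit 8) (.e true (nat_lit 864) (nat_lit 49) (nat_lit 2) (nat_lit 6) (.e false (nat_lit 864) (nat_lit 52) (nat_lit 2) (nat_lit 6) (.e true (nat_lit 864) (nat_lit 53) (nat_lit 2) (nat_lit 6) (.e false (nat_lit 432) (nat_lit 54) (nat_lit 2) (nat_lit 6) (.e true (nat_lit 864) (nat_lit 48) (nat_lit 2) (nat_lit 6) (.e false (nat_lit 432) (nat_lit 56) (nat_lit 2) (nat_lit 6) .nil))))))))))))))))))) .leaf) (nat_lit 67586) (nat_lit 216) (.p (nat_lit 118) (nat_lit 216) .z) .df .leaf) (nat_lit 67589) (nat_lit 356) (.n (nat_lit 156) (nat_lit 108) (.n (nat_lit 157) (nat_lit 108) (.n (nat_lit 160) (nat_lit 108) (.p (nat_lit 161) (nat_lit 54) (.p (nat_lit 162) (nat_lit 216) (.p (nat_lit 163) (nat_lit 54) (.p (nat_lit 164) (nat_lit 162) (.p (nat_lit 165) (nat_lit 108) (.p (nat_lit 166) (nat_lit 108) (.p (nat_lit 167) (nat_lit 108) (.n (nat_lit 168) (nat_lit 108) (.n (nat_lit 169) (nat_lit 108) (.n (nat_lit 171) (nat_lit 216) (.p (nat_lit 173) (nat_lit 216) .z)))))))))))))) (.ct dA4s_c277 (nat_lit 432) (nat_lit 5) (.s true (nat_lit 1) (nat_lit 6) (nat_lit 0) (nat_lit 5) (nat_lit 6) true (nat_lit 2) true (nat_lit 4) true (nat_lit 4) true (nat_lit 10) true (nat_lit 5) (.s false (nat_lit 1) (nat_lit 6) (nat_lit 1) (nat_lit 6) (nat_lit 4) true (nat_lit 3) true (nat_lit 6) true (nat_lit 4) true (nat_lit 9) true (nat_lit 4) (.s true (nat_lit 3) (nat_lit 13) (nat_lit 2) (nat_lit 1) (nat_lit 6) true (nat_lit 0) true (nat_lit 4) true (nat_lit 2) true (nat_lit 8) true (nat_lit 9) (.s true (nat_lit 2) (nat_lit 13) (nat_lit 2) (nat_lit 2) (nat_lit 5) true (nat_lit 1) true (nat_lit 5) true (nat_lit 2) true (nat_lit 8) true (nat_lit 8) (.s false (nat_lit 1) (nat_lit 15) (nat_lit 2) (nat_lit 6) (nat_lit 0) true (nat_lit 6) true (nat_lit 10) true (nat_lit 1) true (nat_lit 8) true (nat_lit 4) (.s true (nat_lit 2) (nat_lit 16) (nat_lit 0) (nat_lit 6) (nat_lit 1) true (nat_lit 7) true (nat_lit 9) true (nat_lit 0) true (nat_lit 10) true (nat_lit 4) (.s false (nat_lit 1) (nat_lit 16) (nat_lit 6) (nat_lit 0) (nat_lit 1) true (nat_lit 1) true (nat_lit 9) true (nat_lit 0) true (nat_lit 4) true (nat_lit 10) (.s false (nat_lit 2) (nat_lit 31) (nat_lit 1) (nat_lit 2) (nat_lit 2) true (nat_lit 5) true (nat_lit 8) false (nat_lit 1) true (nat_lit 9) true (nat_lit 8) (.s true (nat_lit 2) (nat_lit 32) (nat_lit 2) (nat_lit 2) (nat_lit 1) true (nat_lit 5) true (nat_lit 9) false (nat_lit 1) true (nat_lit 8) true (nat_lit 8) (.e true (nat_lit 432) (nat_lit 54) (nat_lit 6) (nat_lit 4) (.e true (nat_lit 432) (nat_lit 118) (nat_lit 1) (nat_lit 9) (.e false (nat_lit 864) (nat_lit 103) (nat_lit 2) (nat_lit 8) (.e false (nat_lit 864) (nat_lit 105) (nat_lit 2) (nat_lit 8) (.e false (nat_lit 864) (nat_lit 106) (nat_lit 2) (nat_lit 8) (.e true (nat_lit 864) (nat_lit 107) (nat_lit 2) (nat_lit 8) (.e false (nat_lit 864) (nat_lit 100) (nat_lit 2) (nat_lit 8) (.e false (nat_lit 864) (nat_lit 104) (nat_lit 2) (nat_lit 8) (.e true (nat_lit 432) (nat_lit 109) (nat_lit 2) (nat_lit 8) (.e false (nat_lit 432) (nat_lit 101) (nat_lit 2) (nat_lit 8) .nil)))))))))))))))))))) (.nd (.nd .leaf (nat_lit 68609) (nat_lit 177) (.p (nat_lit 94) (nat_lit 216) (.n (nat_lit 95) (nat_lit 216) (.p (nat_lit 96) (nat_lit 432) (.n (nat_lit 97) (nat_lit 432) (.n (nat_lit 98) (nat_lit 432) (.p (nat_lit 99) (nat_lit 648) (.n (nat_lit 100) (nat_lit 108) (.p (nat_lit 101) (nat_lit 324) (.n (nat_lit 102) (nat_lit 108) (.p (nat_lit 103) (nat_lit 432) (.p (nat_lit 104) (nat_lit 108) (.p (nat_lit 105) (nat_lit 108) (.p (nat_lit 106) (nat_lit 108) (.p (nat_lit 107) (nat_lit 108) (.p (nat_lit 109) (nat_lit 108) .z))))))))))))))) (.ct dA4s_c276 (nat_lit 432) (nat_lit 7) (.s false (nat_lit 1) (nat_lit 6) (nat_lit 1) (nat_lit 4) (nat_lit 2) true (nat_lit 3) true (nat_lit 6) true (nat_lit 2) true (nat_lit 7) true (nat_lit 4) (.s false (nat_lit 1) (nat_lit 9) (nat_lit 2) (nat_lit 2) (nat_lit 2) true (nat_lit 2) true (nat_lit 6) true (nat_lit 1) true (nat_lit 6) true (nat_lit 6) (.s false (nat_lit 1) (nat_lit 13) (nat_lit 1) (nat_lit 2) (nat_lit 2) true (nat_lit 3) true (nat_lit 6) true (nat_lit 0) true (nat_lit 7) true (nat_lit 6) (.s false (nat_lit 1) (nat_lit 13) (nat_lit 2) (nat_lit 1) (nat_lit 2) true (nat_lit 2) true (nat_lit 6) true (nat_lit 0) true (nat_lit 6) true (nat_lit 7) (.s true (nat_lit 1) (nat_lit 16) (nat_lit 2) (nat_lit 0) (nat_lit 1) true (nat_lit 3) true (nat_lit 7) false (nat_lit 1) true (nat_lit 6) true (nat_lit 8) (.e true (nat_lit 1080) (nat_lit 49) (nat_lit 2) (nat_lit 6) (.e false (nat_lit 648) (nat_lit 50) (nat_lit 2) (nat_lit 6) (.e true (nat_lit 216) (nat_lit 51) (nat_lit 2) (nat_lit 6) (.e false (nat_lit 432) (nat_lit 52) (nat_lit 2) (nat_lit 6) (.e true (nat_lit 216) (nat_lit 53) (nat_lit 2) (nat_lit 6) (.e false (nat_lit 216) (nat_lit 54) (nat_lit 2) (nat_lit 6) (.e false (nat_lit 864) (nat_lit 57) (nat_lit 2) (nat_lit 6) (.e false (nat_lit 216) (nat_lit 35) (nat_lit 4) (nat_lit 4) (.e true (nat_lit 864) (nat_lit 48) (nat_lit 2) (nat_lit 6) (.e false (nat_lit 216) (nat_lit 55) (nat_lit 2) (nat_lit 6) (.e true (nat_lit 432) (nat_lit 66) (nat_lit 1) (nat_lit 7) (.e true (nat_lit 216) (nat_lit 25) (nat_lit 6) (nat_lit 2) (.e false (nat_lit 216) (nat_lit 56) (nat_lit 2) (nat_lit 6) (.e false (nat_lit 216) (nat_lit 70) (nat_lit 0) (nat_lit 8) .nil)))))))))))))))))))) .leaf) (nat_lit 68610) (nat_lit 220) (.n (nat_lit 118) (nat_lit 216) .z) (.ct dA4s_c261 (nat_lit 864) (nat_lit 3) (.s false (nat_lit 1) (nat_lit 6) (nat_lit 0) (nat_lit 2) (nat_lit 6) true (nat_lit 0) true (nat_lit 1) true (nat_lit 1) true (nat_lit 4) true (nat_lit 3) (.s true (nat_lit 1) (nat_lit 16) (nat_lit 0) (nat_lit 2) (nat_lit 2) true (nat_lit 2) true (nat_lit 3) false (nat_lit 0) true (nat_lit 4) true (nat_lit 3) (.s true (nat_lit 1) (nat_lit 16) (nat_lit 2) (nat_lit 0) (nat_lit 2) true (nat_lit 1) true (nat_lit 3) false (nat_lit 0) true (nat_lit 3) true (nat_lit 4) (.s false (nat_lit 1) (nat_lit 16) (nat_lit 2) (nat_lit 2) (nat_lit 0) true (nat_lit 2) true (nat_lit 4) false (nat_lit 0) true (nat_lit 3) true (nat_lit 3) (.e true (nat_lit 864) (nat_lit 66) (nat_lit 2) (nat_lit 3) .nil)))))) .leaf))))))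

noncomputable def dA4s_t4 : Tr := (.nd (.nd (.nd (.nd (.nd (.nd (.nd .leaf (nat_lit 69632) (nat_lit 195) (.p (nat_lit 94) (nat_lit 540) (.n (nat_lit 95) (nat_lit 108) (.p (nat_lit 96) (nat_lit 216) (.n (nat_lit 97) (nat_lit 648) (.n (nat_lit 98) (nat_lit 324) (.p (nat_lit 99) (nat_lit 972) (.p (nat_lit 100) (nat_lit 54) (.p (nat_lit 101) (nat_lit 486) (.n (nat_lit 102) (nat_lit 54) (.n (nat_lit 103) (nat_lit 216) (.n (nat_lit 104) (nat_lit 594) (.n (nat_lit 105) (nat_lit 378) (.n (nat_lit 106) (nat_lit 378) (.p (nat_lit 107) (nat_lit 594) (.p (nat_lit 108) (nat_lit 216) (.p (nat_lit 109) (nat_lit 378) .z)))))))))))))))) (.ct dA4s_c276 (nat_lit 216) (nat_lit 8) (.s true (nat_lit 1) (nat_lit 14) (nat_lit 2) (nat_lit 2) (nat_lit 0) true (nat_lit 4) true (nat_lit 8) false (nat_lit 0) true (nat_lit 6) true (nat_lit 6) (.e true (nat_lit 216) (nat_lit 33) (nat_lit 4) (nat_lit 4) (.e false (nat_lit 216) (nat_lit 14) (nat_lit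 13) (nat_lit 0) (.e true (nat_lit 216) (nat_lit 49) (nat_lit 2) (nat_lit 6) (.e true (nat_lit 216) (nat_lit 51) (nat_lit 2) (nat_lit 6) (.e false (nat_lit 216) (nat_lit 54) (nat_lit 2) (nat_lit 6) (.e false (nat_lit 216) (nat_lit 55) (nat_lit 2) (nat_lit 6) (.e true (nat_lit 216) (nat_lit 58) (nat_lit 2) (nat_lit 6) (.e false (nat_lit 216) (nat_lit 53) (nat_lit 2) (nat_lit 6) .nil)))))))))) .leaf) (nat_lit 69633) (nat_lit 214) (.n (nat_lit 110) (nat_lit 216) (.p (nat_lit 111) (nat_lit 108) (.p (nat_lit 112) (nat_lit 216) (.p (nat_lit 113) (nat_lit 1080) (.p (nat_lit 114) (nat_lit 756) (.n (nat_lit 115) (nat_lit 108) .z)))))) (.ct dA4s_c36 (nat_lit 216) (nat_lit 5) (.s true (nat_lit 1) (nat_lit 14) (nat_lit 2) (nat_lit 1) (nat_lit 2) true (nat_lit 2) true (nat_lit 4) true (nat_lit 0) true (nat_lit 4) true (nat_lit 5) (.a true (nat_lit 23328) (nat_lit 14) (nat_lit 14) (nat_lit 0) (nat_lit 0) (.e false (nat_lit 216) (nat_lit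 28) (nat_lit 6) (nat_lit 2) (.e true (nat_lit 432) (nat_lit 61) (nat_lit 2) (nat_lit 4) (.e false (nat_lit 216) (nat_lit 59) (nat_lit 2) (nat_lit 4) (.e true (nat_lit 216) (nat_lit 63) (nat_lit 2) (nat_lit 4) .nil))))))) (.nd .leaf (nat_lit 69634) (nat_lit 225) (.p (nat_lit 121) (nat_lit 216) .z) .df .leaf)) (nat_lit 69635) (nat_lit 327) (.p (nat_lit 126) (nat_lit 864) (.n (nat_lit 128) (nat_lit 864) (.p (nat_lit 129) (nat_lit 864) (.n (nat_lit 131) (nat_lit 540) (.n (nat_lit 132) (nat_lit 756) (.n (nat_lit 133) (nat_lit 540) (.n (nat_lit 134) (nat_lit 1296) (.p (nat_lit 135) (nat_lit 648) (.p (nat_lit 136) (nat_lit 3132) (.p (nat_lit 137) (nat_lit 648) (.n (nat_lit 138) (nat_lit 1836) (.n (nat_lit 141) (nat_lit 6660) (.n (nat_lit 142) (nat_lit 1296) (.p (nat_lit 143) (nat_lit 5580) (.p (nat_lit 144) (nat_lit 2880) (.n (nat_lit 145) (nat_lit 6876) (.p (nat_lit 146) (nat_lit 648) (.p (nat_lit 147) (nat_lit 270) (.p (nat_lit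 148) (nat_lit 648) (.p (nat_lit 149) (nat_lit 3492) (.p (nat_lit 150) (nat_lit 2952) (.p (nat_lit 151) (nat_lit 2844) (.p (nat_lit 152) (nat_lit 3834) (.n (nat_lit 153) (nat_lit 4392) (.n (nat_lit 154) (nat_lit 3924) (.p (nat_lit 155) (nat_lit 108) .z)))))))))))))))))))))))))) (.ct dA4s_c292 (nat_lit 216) (nat_lit 9) (.s true (nat_lit 1) (nat_lit 14) (nat_lit 2) (nat_lit 2) (nat_lit 3) true (nat_lit 4) true (nat_lit 9) true (nat_lit 1) true (nat_lit 10) true (nat_lit 10) (.e false (nat_lit 216) (nat_lit 33) (nat_lit 8) (nat_lit 4) (.e false (nat_lit 216) (nat_lit 22) (nat_lit 14) (nat_lit 1) (.e true (nat_lit 216) (nat_lit 23) (nat_lit 14) (nat_lit 1) (.e false (nat_lit 216) (nat_lit 24) (nat_lit 14) (nat_lit 1) (.e true (nat_lit 216) (nat_lit 26) (nat_lit 14) (nat_lit 1) (.e false (nat_lit 108) (nat_lit 73) (nat_lit 2) (nat_lit 10) (.e true (nat_lit 324) (nat_lit 74) (nat_lit 2) (nat_lit 10) (.e false (nat_lit 108)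 (nat_lit 76) (nat_lit 2) (nat_lit 10) (.e true (nat_lit 108) (nat_lit 78) (nat_lit 2) (nat_lit 10) (.e false (nat_lit 108) (nat_lit 81) (nat_lit 2) (nat_lit 10) (.e false (nat_lit 216) (nat_lit 83) (nat_lit 2) (nat_lit 10) (.e true (nat_lit 216) (nat_lit 84) (nat_lit 2) (nat_lit 10) (.e true (nat_lit 216) (nat_lit 86) (nat_lit 2) (nat_lit 10) (.e false (nat_lit 108) (nat_lit 87) (nat_lit 2) (nat_lit 10) (.e true (nat_lit 108) (nat_lit 88) (nat_lit 2) (nat_lit 10) (.e false (nat_lit 108) (nat_lit 91) (nat_lit 2) (nat_lit 10) (.e true (nat_lit 108) (nat_lit 92) (nat_lit 2) (nat_lit 10) (.e true (nat_lit 108) (nat_lit 77) (nat_lit 2) (nat_lit 10) (.e false (nat_lit 108) (nat_lit 79) (nat_lit 2) (nat_lit 10) (.e false (nat_lit 216) (nat_lit 89) (nat_lit 2) (nat_lit 10) (.e true (nat_lit 324) (nat_lit 93) (nat_lit 2) (nat_lit 10) .nil))))))))))))))))))))))) (.nd (.nd .leaf (nat_lit 69636) (nat_lit 387) (.n (nat_lit 158)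 (nat_lit 216) (.n (nat_lit 159) (nat_lit 108) (.n (nat_lit 160) (nat_lit 216) (.p (nat_lit 161) (nat_lit 108) (.p (nat_lit 162) (nat_lit 486) (.p (nat_lit 163) (nat_lit 216) (.p (nat_lit 164) (nat_lit 54) (.p (nat_lit 165) (nat_lit 54) (.p (nat_lit 166) (nat_lit 54) (.n (nat_lit 167) (nat_lit 486) (.n (nat_lit 168) (nat_lit 54) (.n (nat_lit 169) (nat_lit 810) (.p (nat_lit 174) (nat_lit 216) .z))))))))))))) (.ct dA4s_c277 (nat_lit 216) (nat_lit 6) (.s true (nat_lit 1) (nat_lit 33) (nat_lit 0) (nat_lit 2) (nat_lit 2) true (nat_lit 6) true (nat_lit 8) false (nat_lit 2) true (nat_lit 10) true (nat_lit 8) (.e true (nat_lit 216) (nat_lit 94) (nat_lit 2) (nat_lit 8) (.e false (nat_lit 648) (nat_lit 95) (nat_lit 2) (nat_lit 8) (.e true (nat_lit 432) (nat_lit 96) (nat_lit 2) (nat_lit 8) (.e false (nat_lit 864) (nat_lit 97) (nat_lit 2) (nat_lit 8) (.e true (nat_lit 648) (nat_lit 99) (nat_lit 2) (nat_lit 8) (.e true (nat_lit 216)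 (nat_lit 100) (nat_lit 2) (nat_lit 8) (.e true (nat_lit 648) (nat_lit 101) (nat_lit 2) (nat_lit 8) (.e true (nat_lit 216) (nat_lit 102) (nat_lit 2) (nat_lit 8) (.e false (nat_lit 216) (nat_lit 98) (nat_lit 2) (nat_lit 8) (.e false (nat_lit 648) (nat_lit 104) (nat_lit 2) (nat_lit 8) (.e false (nat_lit 432) (nat_lit 105) (nat_lit 2) (nat_lit 8) (.e false (nat_lit 432) (nat_lit 106) (nat_lit 2) (nat_lit 8) (.e true (nat_lit 648) (nat_lit 107) (nat_lit 2) (nat_lit 8) (.e true (nat_lit 432) (nat_lit 109) (nat_lit 2) (nat_lit 8) (.e true (nat_lit 216) (nat_lit 33) (nat_lit 12) (nat_lit 2) (.e false (nat_lit 216) (nat_lit 122) (nat_lit 0) (nat_lit 10) (.e false (nat_lit 216) (nat_lit 123) (nat_lit 0) (nat_lit 10) (.e false (nat_lit 216) (nat_lit 125) (nat_lit 0) (nat_lit 10) (.e true (nat_lit 216) (nat_lit 108) (nat_lit 2) (nat_lit 8) .nil))))))))))))))))))))) .leaf) (nat_lit 70656) (nat_lit 170) (.p (nat_lit 105) (nat_lit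 216) .z) .df .leaf)) (nat_lit 70657) (nat_lit 205) (.p (nat_lit 111) (nat_lit 108) (.n (nat_lit 113) (nat_lit 648) (.n (nat_lit 114) (nat_lit 324) (.p (nat_lit 115) (nat_lit 108) .z)))) (.ct dA4s_c36 (nat_lit 216) (nat_lit 5) (.s true (nat_lit 1) (nat_lit 6) (nat_lit 1) (nat_lit 5) (nat_lit 2) true (nat_lit 3) true (nat_lit 4) true (nat_lit 2) true (nat_lit 5) true (nat_lit 3) (.s true (nat_lit 1) (nat_lit 11) (nat_lit 2) (nat_lit 2) (nat_lit 2) true (nat_lit 2) true (nat_lit 4) true (nat_lit 1) true (nat_lit 4) true (nat_lit 4) (.s true (nat_lit 1) (nat_lit 16) (nat_lit 1) (nat_lit 2) (nat_lit 1) false (nat_lit 6) true (nat_lit 5) false (nat_lit 1) true (nat_lit 5) true (nat_lit 4) (.e false (nat_lit 216) (nat_lit 34) (nat_lit 5) (nat_lit 3) (.e false (nat_lit 216) (nat_lit 62) (nat_lit 2) (nat_lit 4) (.e true (nat_lit 432) (nat_lit 70) (nat_lit 1) (nat_lit 5) .nil))))))) (.nd (.nd (.nd .leaf (nat_lit 70658) (nat_lit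 226) (.p (nat_lit 122) (nat_lit 216) .z) .df .leaf) (nat_lit 70659) (nat_lit 328) (.p (nat_lit 126) (nat_lit 1152) (.n (nat_lit 128) (nat_lit 1152) (.p (nat_lit 129) (nat_lit 1152) (.n (nat_lit 131) (nat_lit 792) (.n (nat_lit 132) (nat_lit 1224) (.n (nat_lit 133) (nat_lit 792) (.n (nat_lit 134) (nat_lit 2016) (.p (nat_lit 135) (nat_lit 1008) (.p (nat_lit 136) (nat_lit 6336) (.p (nat_lit 137) (nat_lit 1008) (.n (nat_lit 138) (nat_lit 4320) (.n (nat_lit 141) (nat_lit 10848) (.n (nat_lit 142) (nat_lit 3096) (.p (nat_lit 143) (nat_lit 7752) (.p (nat_lit 144) (nat_lit 5160) (.n (nat_lit 145) (nat_lit 11280) (.p (nat_lit 146) (nat_lit 1548) (.p (nat_lit 147) (nat_lit 396) (.p (nat_lit 148) (nat_lit 1548) (.p (nat_lit 149) (nat_lit 4992) (.p (nat_lit 150) (nat_lit 3660) (.p (nat_lit 151) (nat_lit 3444) (.p (nat_lit 152) (nat_lit 5292) (.n (nat_lit 153) (nat_lit 6132) (.n (nat_lit 154) (nat_lit 5028) (.p (nat_lit 155) (nat_lit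 216) .z)))))))))))))))))))))))))) (.ct dA4s_c292 (nat_lit 432) (nat_lit 9) (.s true (nat_lit 1) (nat_lit 6) (nat_lit 1) (nat_lit 6) (nat_lit 3) true (nat_lit 5) true (nat_lit 9) true (nat_lit 6) true (nat_lit 11) true (nat_lit 6) (.e true (nat_lit 432) (nat_lit 70) (nat_lit 3) (nat_lit 9) (.e true (nat_lit 216) (nat_lit 44) (nat_lit 6) (nat_lit 6) (.e false (nat_lit 216) (nat_lit 47) (nat_lit 6) (nat_lit 6) (.e false (nat_lit 432) (nat_lit 103) (nat_lit 1) (nat_lit 11) .nil)))))) (.nd .leaf (nat_lit 70660) (nat_lit 361) (.n (nat_lit 158) (nat_lit 432) (.p (nat_lit 159) (nat_lit 216) (.n (nat_lit 160) (nat_lit 432) (.p (nat_lit 162) (nat_lit 108) (.p (nat_lit 163) (nat_lit 432) (.n (nat_lit 164) (nat_lit 324) (.n (nat_lit 165) (nat_lit 540) (.n (nat_lit 166) (nat_lit 540) (.n (nat_lit 167) (nat_lit 972) (.p (nat_lit 168) (nat_lit 324) (.p (nat_lit 169) (nat_lit 108) (.p (nat_lit 170) (nat_lit 216) (.p (nat_lit 171) (nat_lit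 432) (.n (nat_lit 172) (nat_lit 216) .z)))))))))))))) (.ct dA4s_c277 (nat_lit 864) (nat_lit 6) (.s true (nat_lit 1) (nat_lit 6) (nat_lit 1) (nat_lit 6) (nat_lit 4) true (nat_lit 3) true (nat_lit 6) true (nat_lit 4) true (nat_lit 9) true (nat_lit 4) (.s true (nat_lit 1) (nat_lit 6) (nat_lit 2) (nat_lit 6) (nat_lit 3) true (nat_lit 3) true (nat_lit 7) true (nat_lit 4) true (nat_lit 8) true (nat_lit 4) (.s true (nat_lit 1) (nat_lit 13) (nat_lit 1) (nat_lit 2) (nat_lit 6) true (nat_lit 1) true (nat_lit 4) true (nat_lit 2) true (nat_lit 9) true (nat_lit 8) (.s false (nat_lit 1) (nat_lit 13) (nat_lit 2) (nat_lit 2) (nat_lit 5) true (nat_lit 1) true (nat_lit 5) true (nat_lit 2) true (nat_lit 8) true (nat_lit 8) (.s true (nat_lit 1) (nat_lit 15) (nat_lit 2) (nat_lit 2) (nat_lit 4) true (nat_lit 2) true (nat_lit 6) true (nat_lit 1) true (nat_lit 8) true (nat_lit 8) (.s false (nat_lit 1) (nat_lit 15) (nat_lit 2) (nat_lit 6) (nat_lit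 0) true (nat_lit 6) true (nat_lit 10) true (nat_lit 1) true (nat_lit 8) true (nat_lit 4) (.s true (nat_lit 1) (nat_lit 31) (nat_lit 1) (nat_lit 2) (nat_lit 2) true (nat_lit 5) true (nat_lit 8) false (nat_lit 1) true (nat_lit 9) true (nat_lit 8) (.s false (nat_lit 1) (nat_lit 34) (nat_lit 0) (nat_lit 2) (nat_lit 2) true (nat_lit 6) true (nat_lit 8) false (nat_lit 2) true (nat_lit 10) true (nat_lit 8) (.e true (nat_lit 864) (nat_lit 70) (nat_lit 4) (nat_lit 6) (.e false (nat_lit 432) (nat_lit 49) (nat_lit 6) (nat_lit 4) (.e true (nat_lit 648) (nat_lit 52) (nat_lit 6) (nat_lit 4) (.e false (nat_lit 432) (nat_lit 53) (nat_lit 6) (nat_lit 4) (.e true (nat_lit 432) (nat_lit 54) (nat_lit 6) (nat_lit 4) (.e false (nat_lit 864) (nat_lit 117) (nat_lit 1) (nat_lit 9) (.e false (nat_lit 864) (nat_lit 118) (nat_lit 1) (nat_lit 9) (.e true (nat_lit 216) (nat_lit 55) (nat_lit 6) (nat_lit 4) (.e true (nat_lit 432) (nat_lit 100) (nat_lit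 2) (nat_lit 8) (.e false (nat_lit 432) (nat_lit 102) (nat_lit 2) (nat_lit 8) (.e true (nat_lit 432) (nat_lit 105) (nat_lit 2) (nat_lit 8) (.e true (nat_lit 864) (nat_lit 106) (nat_lit 2) (nat_lit 8) (.e true (nat_lit 432) (nat_lit 104) (nat_lit 2) (nat_lit 8) (.e false (nat_lit 648) (nat_lit 107) (nat_lit 2) (nat_lit 8) (.e false (nat_lit 432) (nat_lit 48) (nat_lit 6) (nat_lit 4) .nil)))))))))))))))))))))))) .leaf)) (nat_lit 70661) (nat_lit 403) (.p (nat_lit 177) (nat_lit 1080) (.p (nat_lit 178) (nat_lit 432) (.n (nat_lit 179) (nat_lit 216) (.p (nat_lit 180) (nat_lit 216) (.p (nat_lit 181) (nat_lit 432) (.p (nat_lit 182) (nat_lit 432) .z)))))) (.ct dA4s_c37 (nat_lit 432) (nat_lit 4) (.s true (nat_lit 1) (nat_lit 6) (nat_lit 1) (nat_lit 6) (nat_lit 5) true (nat_lit 2) true (nat_lit 4) true (nat_lit 3) true (nat_lit 6) true (nat_lit 3) (.s true (nat_lit 2) (nat_lit 6) (nat_lit 2) (nat_lit 5) (nat_lit 5) true (nat_lit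 1) true (nat_lit 4) true (nat_lit 3) true (nat_lit 5) true (nat_lit 4) (.s false (nat_lit 3) (nat_lit 11) (nat_lit 2) (nat_lit 2) (nat_lit 6) true (nat_lit 0) true (nat_lit 3) true (nat_lit 2) true (nat_lit 5) true (nat_lit 5) (.s false (nat_lit 1) (nat_lit 11) (nat_lit 2) (nat_lit 6) (nat_lit 2) true (nat_lit 3) true (nat_lit 5) true (nat_lit 2) true (nat_lit 5) true (nat_lit 3) (.s false (nat_lit 2) (nat_lit 14) (nat_lit 1) (nat_lit 6) (nat_lit 2) true (nat_lit 4) true (nat_lit 5) true (nat_lit 1) true (nat_lit 6) true (nat_lit 3) (.s false (nat_lit 2) (nat_lit 16) (nat_lit 1) (nat_lit 5) (nat_lit 2) true (nat_lit 4) true (nat_lit 5) true (nat_lit 0) true (nat_lit 6) true (nat_lit 4) (.s false (nat_lit 2) (nat_lit 16) (nat_lit 2) (nat_lit 5) (nat_lit 1) true (nat_lit 4) true (nat_lit 6) true (nat_lit 0) true (nat_lit 5) true (nat_lit 4) (.s false (nat_lit 5) (nat_lit 16) (nat_lit 5) (nat_lit 1) (nat_lit 2) true (nat_lit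 1) true (nat_lit 5) true (nat_lit 0) true (nat_lit 4) true (nat_lit 6) (.s false (nat_lit 2) (nat_lit 28) (nat_lit 2) (nat_lit 2) (nat_lit 2) true (nat_lit 3) true (nat_lit 5) false (nat_lit 0) true (nat_lit 5) true (nat_lit 5) (.s false (nat_lit 3) (nat_lit 35) (nat_lit 1) (nat_lit 2) (nat_lit 2) true (nat_lit 4) true (nat_lit 5) false (nat_lit 1) true (nat_lit 6) true (nat_lit 5) (.s true (nat_lit 3) (nat_lit 36) (nat_lit 1) (nat_lit 1) (nat_lit 2) true (nat_lit 4) true (nat_lit 5) false (nat_lit 2) true (nat_lit 6) true (nat_lit 6) (.s false (nat_lit 1) (nat_lit 36) (nat_lit 1) (nat_lit 2) (nat_lit 1) false (nat_lit 7) true (nat_lit 6) false (nat_lit 2) true (nat_lit 6) true (nat_lit 5) (.e false (nat_lit 864) (nat_lit 63) (nat_lit 6) (nat_lit 3) (.e false (nat_lit 432) (nat_lit 122) (nat_lit 1) (nat_lit 6) (.e false (nat_lit 864) (nat_lit 123) (nat_lit 1) (nat_lit 6) (.e false (nat_lit 2160) (nat_lit 113) (nat_lit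 2) (nat_lit 5) (.e false (nat_lit 864) (nat_lit 114) (nat_lit 2) (nat_lit 5) (.e true (nat_lit 432) (nat_lit 115) (nat_lit 2) (nat_lit 5) .nil))))))))))))))))))) (.nd (.nd .leaf (nat_lit 71680) (nat_lit 171) (.p (nat_lit 106) (nat_lit 216) .z) .df .leaf) (nat_lit 71681) (nat_lit 201) (.p (nat_lit 113) (nat_lit 216) .z) .df .leaf))) (nat_lit 71682) (nat_lit 227) (.p (nat_lit 123) (nat_lit 216) .z) .df (.nd (.nd (.nd (.nd .leaf (nat_lit 71683) (nat_lit 309) (.n (nat_lit 126) (nat_lit 588) (.p (nat_lit 128) (nat_lit 588) (.n (nat_lit 129) (nat_lit 588) (.p (nat_lit 131) (nat_lit 348) (.p (nat_lit 132) (nat_lit 492) (.p (nat_lit 133) (nat_lit 348) (.p (nat_lit 134) (nat_lit 840) (.n (nat_lit 135) (nat_lit 420) (.n (nat_lit 136) (nat_lit 2964) (.n (nat_lit 137) (nat_lit 420) (.p (nat_lit 138) (nat_lit 2124) (.p (nat_lit 141) (nat_lit 4808) (.p (nat_lit 142) (nat_lit 1272) (.n (nat_lit 143) (nat_lit 3536) (.n (nat_lit 144)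 (nat_lit 2312) (.p (nat_lit 145) (nat_lit 4952) (.n (nat_lit 146) (nat_lit 636) (.n (nat_lit 147) (nat_lit 12) (.n (nat_lit 148) (nat_lit 636) (.n (nat_lit 149) (nat_lit 2152) (.n (nat_lit 150) (nat_lit 1588) (.n (nat_lit 151) (nat_lit 1588) (.n (nat_lit 152) (nat_lit 2412) (.p (nat_lit 153) (nat_lit 2708) (.p (nat_lit 154) (nat_lit 1996) .z))))))))))))))))))))))))) (.ct dA4s_c292 (nat_lit 432) (nat_lit 9) (.s true (nat_lit 1) (nat_lit 6) (nat_lit 1) (nat_lit 6) (nat_lit 3) true (nat_lit 5) true (nat_lit 9) true (nat_lit 6) true (nat_lit 11) true (nat_lit 6) (.s true (nat_lit 2) (nat_lit 34) (nat_lit 1) (nat_lit 2) (nat_lit 0) true (nat_lit 9) true (nat_lit 12) false (nat_lit 4) true (nat_lit 11) true (nat_lit 10) (.e true (nat_lit 216) (nat_lit 44) (nat_lit 6) (nat_lit 6) (.e false (nat_lit 216) (nat_lit 47) (nat_lit 6) (nat_lit 6) (.e false (nat_lit 864) (nat_lit 103) (nat_lit 1) (nat_lit 11) (.e true (nat_lit 432)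 (nat_lit 112) (nat_lit 0) (nat_lit 12) (.e true (nat_lit 432) (nat_lit 34) (nat_lit 10) (nat_lit 4) (.e true (nat_lit 864) (nat_lit 94) (nat_lit 1) (nat_lit 11) (.e true (nat_lit 864) (nat_lit 95) (nat_lit 1) (nat_lit 11) (.e false (nat_lit 864) (nat_lit 98) (nat_lit 1) (nat_lit 11) (.e true (nat_lit 864) (nat_lit 99) (nat_lit 1) (nat_lit 11) (.e false (nat_lit 432) (nat_lit 100) (nat_lit 1) (nat_lit 11) (.e false (nat_lit 432) (nat_lit 105) (nat_lit 1) (nat_lit 11) (.e false (nat_lit 864) (nat_lit 106) (nat_lit 1) (nat_lit 11) (.e true (nat_lit 432) (nat_lit 107) (nat_lit 1) (nat_lit 11) (.e false (nat_lit 432) (nat_lit 87) (nat_lit 2) (nat_lit 10) .nil))))))))))))))))) .leaf) (nat_lit 71684) (nat_lit 360) (.p (nat_lit 156) (nat_lit 648) (.p (nat_lit 157) (nat_lit 648) (.p (nat_lit 158) (nat_lit 432) (.n (nat_lit 159) (nat_lit 864) (.p (nat_lit 160) (nat_lit 1080) (.n (nat_lit 161) (nat_lit 540) (.n (nat_lit 162) (nat_lit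 216) (.n (nat_lit 163) (nat_lit 540) (.p (nat_lit 164) (nat_lit 108) (.p (nat_lit 165) (nat_lit 432) (.p (nat_lit 166) (nat_lit 432) (.p (nat_lit 167) (nat_lit 648) (.n (nat_lit 171) (nat_lit 216) (.p (nat_lit 172) (nat_lit 216) .z)))))))))))))) (.ct dA4s_c277 (nat_lit 864) (nat_lit 6) (.s false (nat_lit 1) (nat_lit 6) (nat_lit 0) (nat_lit 5) (nat_lit 6) true (nat_lit 2) true (nat_lit 4) true (nat_lit 4) true (nat_lit 10) true (nat_lit 5) (.s false (nat_lit 1) (nat_lit 6) (nat_lit 1) (nat_lit 6) (nat_lit 4) true (nat_lit 3) true (nat_lit 6) true (nat_lit 4) true (nat_lit 9) true (nat_lit 4) (.s true (nat_lit 14) (nat_lit 6) (nat_lit 2) (nat_lit 6) (nat_lit 3) true (nat_lit 3) true (nat_lit 7) true (nat_lit 4) true (nat_lit 8) true (nat_lit 4) (.s false (nat_lit 2) (nat_lit 6) (nat_lit 5) (nat_lit 0) (nat_lit 6) false (nat_lit 2) true (nat_lit 4) true (nat_lit 4) true (nat_lit 5) true (nat_lit 10) (.s true (nat_lit 12)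 (nat_lit 8) (nat_lit 6) (nat_lit 2) (nat_lit 2) true (nat_lit 0) true (nat_lit 8) true (nat_lit 3) true (nat_lit 4) true (nat_lit 8) (.s false (nat_lit 2) (nat_lit 13) (nat_lit 1) (nat_lit 2) (nat_lit 6) true (nat_lit 1) true (nat_lit 4) true (nat_lit 2) true (nat_lit 9) true (nat_lit 8) (.s false (nat_lit 4) (nat_lit 12) (nat_lit 1) (nat_lit 6) (nat_lit 2) true (nat_lit 5) true (nat_lit 8) true (nat_lit 2) true (nat_lit 9) true (nat_lit 4) (.s true (nat_lit 1) (nat_lit 13) (nat_lit 2) (nat_lit 1) (nat_lit 6) true (nat_lit 0) true (nat_lit 4) true (nat_lit 2) true (nat_lit 8) true (nat_lit 9) (.s true (nat_lit 2) (nat_lit 13) (nat_lit 2) (nat_lit 2) (nat_lit 5) true (nat_lit 1) true (nat_lit 5) true (nat_lit 2) true (nat_lit 8) true (nat_lit 8) (.s true (nat_lit 4) (nat_lit 12) (nat_lit 2) (nat_lit 5) (nat_lit 2) true (nat_lit 4) true (nat_lit 8) true (nat_lit 2) true (nat_lit 8) true (nat_lit 5) (.s false (nat_lit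 2) (nat_lit 15) (nat_lit 2) (nat_lit 2) (nat_lit 4) true (nat_lit 2) true (nat_lit 6) true (nat_lit 1) true (nat_lit 8) true (nat_lit 8) (.s false (nat_lit 1) (nat_lit 15) (nat_lit 2) (nat_lit 6) (nat_lit 0) true (nat_lit 6) true (nat_lit 10) true (nat_lit 1) true (nat_lit 8) true (nat_lit 4) (.s false (nat_lit 4) (nat_lit 14) (nat_lit 4) (nat_lit 2) (nat_lit 2) true (nat_lit 2) true (nat_lit 8) true (nat_lit 1) true (nat_lit 6) true (nat_lit 8) (.s true (nat_lit 4) (nat_lit 16) (nat_lit 0) (nat_lit 5) (nat_lit 2) true (nat_lit 6) true (nat_lit 8) true (nat_lit 0) true (nat_lit 10) true (nat_lit 5) dA4s_i42))))))))))))))) (.nd .leaf (nat_lit 71685) (nat_lit 406) (.n (nat_lit 177) (nat_lit 216) (.n (nat_lit 181) (nat_lit 216) .z)) (.ct dA4s_c37 (nat_lit 216) (nat_lit 4) (.s true (nat_lit 1) (nat_lit 16) (nat_lit 1) (nat_lit 5) (nat_lit 2) true (nat_lit 4) true (nat_lit 5) true (nat_lit 0) true (nat_lit 6) true (nat_lit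 4) (.s true (nat_lit 1) (nat_lit 16) (nat_lit 5) (nat_lit 1) (nat_lit 2) true (nat_lit 1) true (nat_lit 5) true (nat_lit 0) true (nat_lit 4) true (nat_lit 6) (.s true (nat_lit 1) (nat_lit 35) (nat_lit 1) (nat_lit 2) (nat_lit 2) true (nat_lit 4) true (nat_lit 5) false (nat_lit 1) true (nat_lit 6) true (nat_lit 5) (.s false (nat_lit 1) (nat_lit 36) (nat_lit 1) (nat_lit 1) (nat_lit 2) true (nat_lit 4) true (nat_lit 5) false (nat_lit 2) true (nat_lit 6) true (nat_lit 6) (.e true (nat_lit 216) (nat_lit 113) (nat_lit 2) (nat_lit 5) (.e true (nat_lit 216) (nat_lit 123) (nat_lit 1) (nat_lit 6) .nil))))))) .leaf)) (nat_lit 72704) (nat_lit 184) (.p (nat_lit 94) (nat_lit 216) (.p (nat_lit 95) (nat_lit 432) (.n (nat_lit 96) (nat_lit 216) (.p (nat_lit 97) (nat_lit 216) (.n (nat_lit 100) (nat_lit 108) (.n (nat_lit 101) (nat_lit 108) (.n (nat_lit 102) (nat_lit 108) (.n (nat_lit 103) (nat_lit 432) (.n (nat_lit 104) (nat_lit 108) (.n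 (nat_lit 105) (nat_lit 108) (.n (nat_lit 106) (nat_lit 324) (.p (nat_lit 107) (nat_lit 108) (.p (nat_lit 109) (nat_lit 108) .z))))))))))))) (.ct dA4s_c276 (nat_lit 216) (nat_lit 8) (.s false (nat_lit 1) (nat_lit 6) (nat_lit 3) (nat_lit 2) (nat_lit 2) true (nat_lit 1) true (nat_lit 6) true (nat_lit 2) true (nat_lit 5) true (nat_lit 6) (.s false (nat_lit 1) (nat_lit 16) (nat_lit 0) (nat_lit 1) (nat_lit 2) true (nat_lit 4) true (nat_lit 6) false (nat_lit 1) true (nat_lit 8) true (nat_lit 7) (.e false (nat_lit 216) (nat_lit 21) (nat_lit 6) (nat_lit 2) (.e true (nat_lit 216) (nat_lit 57) (nat_lit 2) (nat_lit 6) (.e false (nat_lit 216) (nat_lit 35) (nat_lit 4) (nat_lit 4) (.e false (nat_lit 216) (nat_lit 55) (nat_lit 2) (nat_lit 6) (.e true (nat_lit 216) (nat_lit 70) (nat_lit 0) (nat_lit 8) (.e true (nat_lit 216) (nat_lit 67) (nat_lit 1) (nat_lit 7) .nil))))))))) (.nd (.nd .leaf (nat_lit 72705) (nat_lit 202) (.p (nat_lit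 114) (nat_lit 216) .z) .df .leaf) (nat_lit 72706) (nat_lit 231) (.n (nat_lit 123) (nat_lit 216) .z) (.ct dA4s_c21 (nat_lit 864) (nat_lit 3) (.s false (nat_lit 1) (nat_lit 6) (nat_lit 1) (nat_lit 2) (nat_lit 6) true (nat_lit 0) true (nat_lit 1) true (nat_lit 1) true (nat_lit 4) true (nat_lit 3) (.s true (nat_lit 1) (nat_lit 16) (nat_lit 1) (nat_lit 2) (nat_lit 2) true (nat_lit 2) true (nat_lit 3) false (nat_lit 0) true (nat_lit 4) true (nat_lit 3) (.s true (nat_lit 1) (nat_lit 16) (nat_lit 2) (nat_lit 1) (nat_lit 2) true (nat_lit 1) true (nat_lit 3) false (nat_lit 0) true (nat_lit 3) true (nat_lit 4) (.s false (nat_lit 1) (nat_lit 16) (nat_lit 2) (nat_lit 2) (nat_lit 1) true (nat_lit 2) true (nat_lit 4) false (nat_lit 0) true (nat_lit 3) true (nat_lit 3) (.e true (nat_lit 864) (nat_lit 70) (nat_lit 2) (nat_lit 3) .nil)))))) .leaf)) (nat_lit 72707) (nat_lit 310) (.p (nat_lit 126) (nat_lit 876) (.n (nat_lit 128) (nat_lit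 876) (.p (nat_lit 129) (nat_lit 876) (.n (nat_lit 131) (nat_lit 492) (.n (nat_lit 132) (nat_lit 636) (.n (nat_lit 133) (nat_lit 492) (.n (nat_lit 134) (nat_lit 1128) (.p (nat_lit 135) (nat_lit 564) (.p (nat_lit 136) (nat_lit 3900) (.p (nat_lit 137) (nat_lit 564) (.n (nat_lit 138) (nat_lit 2772) (.n (nat_lit 141) (nat_lit 7016) (.n (nat_lit 142) (nat_lit 1992) (.p (nat_lit 143) (nat_lit 5024) (.p (nat_lit 144) (nat_lit 3368) (.n (nat_lit 145) (nat_lit 7160) (.p (nat_lit 146) (nat_lit 996) (.p (nat_lit 147) (nat_lit 300) (.p (nat_lit 148) (nat_lit 996) (.p (nat_lit 149) (nat_lit 3256) (.p (nat_lit 150) (nat_lit 2332) (.p (nat_lit 151) (nat_lit 2332) (.p (nat_lit 152) (nat_lit 3276) (.n (nat_lit 153) (nat_lit 3980) (.n (nat_lit 154) (nat_lit 3244) .z))))))))))))))))))))))))) (.ct dA4s_c292 (nat_lit 216) (nat_lit 9) (.s false (nat_lit 1) (nat_lit 16) (nat_lit 0) (nat_lit 5) (nat_lit 1) true (nat_lit 9) true (nat_lit 11)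 true (nat_lit 0) true (nat_lit 12) true (nat_lit 7) (.s false (nat_lit 1) (nat_lit 20) (nat_lit 2) (nat_lit 2) (nat_lit 2) true (nat_lit 6) true (nat_lit 10) false (nat_lit 0) true (nat_lit 10) true (nat_lit 10) (.e true (nat_lit 216) (nat_lit 70) (nat_lit 3) (nat_lit 9) (.e false (nat_lit 216) (nat_lit 109) (nat_lit 1) (nat_lit 11) (.e true (nat_lit 108) (nat_lit 111) (nat_lit 0) (nat_lit 12) (.e true (nat_lit 108) (nat_lit 114) (nat_lit 0) (nat_lit 12) (.e false (nat_lit 108) (nat_lit 115) (nat_lit 0) (nat_lit 12) (.e true (nat_lit 216) (nat_lit 49) (nat_lit 5) (nat_lit 7) (.e true (nat_lit 216) (nat_lit 50) (nat_lit 5) (nat_lit 7) (.e true (nat_lit 216) (nat_lit 51) (nat_lit 5) (nat_lit 7) (.e true (nat_lit 216) (nat_lit 53) (nat_lit 5) (nat_lit 7) (.e false (nat_lit 216) (nat_lit 54) (nat_lit 5) (nat_lit 7) (.e false (nat_lit 216) (nat_lit 55) (nat_lit 5) (nat_lit 7) (.e false (nat_lit 216) (nat_lit 56) (nat_lit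 5) (nat_lit 7) (.e false (nat_lit 216) (nat_lit 39) (nat_lit 6) (nat_lit 6) (.e true (nat_lit 216) (nat_lit 92) (nat_lit 2) (nat_lit 10) .nil))))))))))))))))) (.nd (.nd (.nd .leaf (nat_lit 72708) (nat_lit 363) (.n (nat_lit 156) (nat_lit 324) (.n (nat_lit 157) (nat_lit 324) (.n (nat_lit 158) (nat_lit 648) (.p (nat_lit 159) (nat_lit 432) (.n (nat_lit 160) (nat_lit 972) (.p (nat_lit 161) (nat_lit 486) (.p (nat_lit 162) (nat_lit 540) (.p (nat_lit 163) (nat_lit 486) (.n (nat_lit 164) (nat_lit 54) (.n (nat_lit 165) (nat_lit 108) (.n (nat_lit 166) (nat_lit 108) (.n (nat_lit 167) (nat_lit 864) (.n (nat_lit 168) (nat_lit 108) (.n (nat_lit 169) (nat_lit 648) (.p (nat_lit 171) (nat_lit 216) (.n (nat_lit 172) (nat_lit 216) .z)))))))))))))))) (.ct dA4s_c277 (nat_lit 864) (nat_lit 6) dA4s_i43) .leaf) (nat_lit 72709) (nat_lit 407) (.n (nat_lit 177) (nat_lit 1296) (.n (nat_lit 178) (nat_lit 648) (.p (nat_lit 181) (nat_lit 216) (.n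 (nat_lit 182) (nat_lit 648) .z)))) (.ct dA4s_c37 (nat_lit 216) (nat_lit 4) (.s false (nat_lit 1) (nat_lit 6) (nat_lit 2) (nat_lit 5) (nat_lit 5) true (nat_lit 1) true (nat_lit 4) true (nat_lit 3) true (nat_lit 5) true (nat_lit 4) (.s true (nat_lit 1) (nat_lit 11) (nat_lit 2) (nat_lit 2) (nat_lit 6) true (nat_lit 0) true (nat_lit 3) true (nat_lit 2) true (nat_lit 5) true (nat_lit 5) (.s true (nat_lit 1) (nat_lit 14) (nat_lit 1) (nat_lit 6) (nat_lit 2) true (nat_lit 4) true (nat_lit 5) true (nat_lit 1) true (nat_lit 6) true (nat_lit 3) (.s true (nat_lit 1) (nat_lit 16) (nat_lit 5) (nat_lit 1) (nat_lit 2) true (nat_lit 1) true (nat_lit 5) true (nat_lit 0) true (nat_lit 4) true (nat_lit 6) (.e true (nat_lit 216) (nat_lit 70) (nat_lit 5) (nat_lit 4) (.e true (nat_lit 216) (nat_lit 63) (nat_lit 6) (nat_lit 3) (.e true (nat_lit 648) (nat_lit 113) (nat_lit 2) (nat_lit 5) (.e true (nat_lit 432) (nat_lit 114) (nat_lit 2) (nat_lit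 5) (.e false (nat_lit 216) (nat_lit 111) (nat_lit 2) (nat_lit 5) (.e true (nat_lit 216) (nat_lit 115) (nat_lit 2) (nat_lit 5) .nil))))))))))) .leaf) (nat_lit 73728) (nat_lit 222) (.p (nat_lit 117) (nat_lit 432) (.p (nat_lit 118) (nat_lit 648) (.n (nat_lit 119) (nat_lit 216) (.n (nat_lit 120) (nat_lit 216) .z)))) (.ct dA4s_c261 (nat_lit 216) (nat_lit 4) (.s true (nat_lit 1) (nat_lit 16) (nat_lit 2) (nat_lit 0) (nat_lit 2) true (nat_lit 1) true (nat_lit 3) false (nat_lit 0) true (nat_lit 3) true (nat_lit 4) (.e false (nat_lit 216) (nat_lit 32) (nat_lit 6) (nat_lit 1) (.e true (nat_lit 432) (nat_lit 67) (nat_lit 2) (nat_lit 3) (.e false (nat_lit 216) (nat_lit 16) (nat_lit 12) (nat_lit 0) (.e true (nat_lit 216) (nat_lit 66) (nat_lit 2) (nat_lit 3) .nil)))))) (.nd (.nd .leaf (nat_lit 73729) (nat_lit 233) (.p (nat_lit 122) (nat_lit 432) (.p (nat_lit 123) (nat_lit 648) (.n (nat_lit 124) (nat_lit 216) (.n (nat_lit 125) (nat_lit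 216) .z)))) (.ct dA4s_c21 (nat_lit 216) (nat_lit 4) (.s true (nat_lit 1) (nat_lit 16) (nat_lit 2) (nat_lit 1) (nat_lit 2) true (nat_lit 1) true (nat_lit 3) false (nat_lit 0) true (nat_lit 3) true (nat_lit 4) (.e false (nat_lit 216) (nat_lit 35) (nat_lit 6) (nat_lit 1) (.e true (nat_lit 432) (nat_lit 71) (nat_lit 2) (nat_lit 3) (.e false (nat_lit 216) (nat_lit 16) (nat_lit 14) (nat_lit 0) (.e true (nat_lit 216) (nat_lit 70) (nat_lit 2) (nat_lit 3) .nil)))))) .leaf) (nat_lit 73731) (nat_lit 390) (.p (nat_lit 156) (nat_lit 648) (.p (nat_lit 157) (nat_lit 648) (.n (nat_lit 158) (nat_lit 216) (.n (nat_lit 159) (nat_lit 432) (.p (nat_lit 160) (nat_lit 432) (.n (nat_lit 161) (nat_lit 216) (.n (nat_lit 163) (nat_lit 216) (.n (nat_lit 164) (nat_lit 756) (.n (nat_lit 165) (nat_lit 108) (.n (nat_lit 166) (nat_lit 108) (.n (nat_lit 167) (nat_lit 216) (.p (nat_lit 168) (nat_lit 324) (.p (nat_lit 172) (nat_lit 216) .z)))))))))))))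 (.ct dA4s_c277 (nat_lit 216) (nat_lit 7) (.s true (nat_lit 1) (nat_lit 36) (nat_lit 0) (nat_lit 2) (nat_lit 1) true (nat_lit 7) true (nat_lit 9) false (nat_lit 3) true (nat_lit 10) true (nat_lit 8) (.e false (nat_lit 216) (nat_lit 118) (nat_lit 1) (nat_lit 9) (.e true (nat_lit 216) (nat_lit 36) (nat_lit 9) (nat_lit 3) (.e false (nat_lit 216) (nat_lit 125) (nat_lit 0) (nat_lit 10) (.e false (nat_lit 216) (nat_lit 94) (nat_lit 2) (nat_lit 8) (.e false (nat_lit 432) (nat_lit 95) (nat_lit 2) (nat_lit 8) (.e true (nat_lit 216) (nat_lit 96) (nat_lit 2) (nat_lit 8) (.e false (nat_lit 216) (nat_lit 97) (nat_lit 2) (nat_lit 8) (.e true (nat_lit 108) (nat_lit 100) (nat_lit 2) (nat_lit 8) (.e true (nat_lit 108) (nat_lit 101) (nat_lit 2) (nat_lit 8) (.e true (nat_lit 108) (nat_lit 102) (nat_lit 2) (nat_lit 8) (.e true (nat_lit 432) (nat_lit 103) (nat_lit 2) (nat_lit 8) (.e true (nat_lit 108) (nat_lit 104) (nat_lit 2) (nat_lit 8)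 (.e true (nat_lit 108) (nat_lit 105) (nat_lit 2) (nat_lit 8) (.e true (nat_lit 324) (nat_lit 106) (nat_lit 2) (nat_lit 8) (.e false (nat_lit 108) (nat_lit 107) (nat_lit 2) (nat_lit 8) (.e false (nat_lit 108) (nat_lit 109) (nat_lit 2) (nat_lit 8) .nil)))))))))))))))))) .leaf)))) (nat_lit 74754) (nat_lit 236) (.p (nat_lit 126) (nat_lit 216) .z) .df (.nd (.nd (.nd (.nd (.nd .leaf (nat_lit 75778) (nat_lit 237) (.p (nat_lit 127) (nat_lit 216) .z) .df .leaf) (nat_lit 76802) (nat_lit 277) (.n (nat_lit 126) (nat_lit 576) (.p (nat_lit 127) (nat_lit 216) (.p (nat_lit 128) (nat_lit 360) (.n (nat_lit 129) (nat_lit 360) (.n (nat_lit 131) (nat_lit 144) (.p (nat_lit 132) (nat_lit 288) (.n (nat_lit 133) (nat_lit 144) (.p (nat_lit 134) (nat_lit 144) (.n (nat_lit 135) (nat_lit 72) (.n (nat_lit 136) (nat_lit 792) (.n (nat_lit 137) (nat_lit 72) (.p (nat_lit 138) (nat_lit 648) (.p (nat_lit 141) (nat_lit 1824) (.p (nat_lit 142) (nat_lit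 576) (.n (nat_lit 143) (nat_lit 1248) (.n (nat_lit 144) (nat_lit 816) (.p (nat_lit 145) (nat_lit 1824) (.n (nat_lit 146) (nat_lit 288) (.n (nat_lit 147) (nat_lit 360) (.n (nat_lit 148) (nat_lit 288) (.n (nat_lit 149) (nat_lit 912) (.n (nat_lit 150) (nat_lit 624) (.n (nat_lit 151) (nat_lit 624) (.n (nat_lit 152) (nat_lit 648) (.p (nat_lit 153) (nat_lit 1032) (.p (nat_lit 154) (nat_lit 1200) .z)))))))))))))))))))))))))) (.ct dA4s_c292 (nat_lit 864) (nat_lit 10) (.s true (nat_lit 2) (nat_lit 6) (nat_lit 1) (nat_lit 4) (nat_lit 5) true (nat_lit 3) true (nat_lit 7) true (nat_lit 6) true (nat_lit 11) true (nat_lit 8) (.s false (nat_lit 2) (nat_lit 6) (nat_lit 1) (nat_lit 5) (nat_lit 4) true (nat_lit 4) true (nat_lit 8) true (nat_lit 6) true (nat_lit 11) true (nat_lit 7) (.s true (nat_lit 1) (nat_lit 6) (nat_lit 1) (nat_lit 6) (nat_lit 3) true (nat_lit 5) true (nat_lit 9) true (nat_lit 6) true (nat_lit 11) true (nat_lit 6)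 (.s true (nat_lit 2) (nat_lit 7) (nat_lit 2) (nat_lit 2) (nat_lit 6) true (nat_lit 0) true (nat_lit 6) true (nat_lit 5) true (nat_lit 10) true (nat_lit 10) (.s true (nat_lit 2) (nat_lit 8) (nat_lit 2) (nat_lit 1) (nat_lit 6) true (nat_lit 0) true (nat_lit 6) true (nat_lit 4) true (nat_lit 10) true (nat_lit 11) (.s true (nat_lit 2) (nat_lit 9) (nat_lit 2) (nat_lit 1) (nat_lit 6) true (nat_lit 0) true (nat_lit 6) true (nat_lit 4) true (nat_lit 10) true (nat_lit 11) (.s false (nat_lit 2) (nat_lit 10) (nat_lit 2) (nat_lit 1) (nat_lit 6) true (nat_lit 0) true (nat_lit 6) true (nat_lit 4) true (nat_lit 10) true (nat_lit 11) (.s false (nat_lit 4) (nat_lit 10) (nat_lit 2) (nat_lit 2) (nat_lit 5) true (nat_lit 1) true (nat_lit 7) true (nat_lit 4) true (nat_lit 10) true (nat_lit 10) (.s true (nat_lit 2) (nat_lit 8) (nat_lit 5) (nat_lit 2) (nat_lit 2) true (nat_lit 1) true (nat_lit 10) true (nat_lit 4) true (nat_lit 7) true (nat_lit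 10) (.s false (nat_lit 2) (nat_lit 9) (nat_lit 6) (nat_lit 2) (nat_lit 1) true (nat_lit 1) true (nat_lit 11) true (nat_lit 4) true (nat_lit 6) true (nat_lit 10) (.s true (nat_lit 2) (nat_lit 11) (nat_lit 2) (nat_lit 2) (nat_lit 4) true (nat_lit 2) true (nat_lit 8) true (nat_lit 3) true (nat_lit 10) true (nat_lit 10) (.s true (nat_lit 1) (nat_lit 13) (nat_lit 1) (nat_lit 1) (nat_lit 6) true (nat_lit 1) true (nat_lit 6) true (nat_lit 2) true (nat_lit 11) true (nat_lit 11) (.s true (nat_lit 1) (nat_lit 13) (nat_lit 1) (nat_lit 6) (nat_lit 1) false (nat_lit 13) true (nat_lit 11) true (nat_lit 2) true (nat_lit 11) true (nat_lit 6) (.s true (nat_lit 2) (nat_lit 12) (nat_lit 2) (nat_lit 5) (nat_lit 1) true (nat_lit 7) true (nat_lit 11) true (nat_lit 2) true (nat_lit 10) true (nat_lit 7) (.s false (nat_lit 2) (nat_lit 12) (nat_lit 5) (nat_lit 1) (nat_lit 2) true (nat_lit 1) true (nat_lit 10) true (nat_lit 2) true (nat_lit 7)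 true (nat_lit 11) (.s false (nat_lit 2) (nat_lit 12) (nat_lit 5) (nat_lit 2) (nat_lit 1) true (nat_lit 3) true (nat_lit 11) true (nat_lit 2) true (nat_lit 7) true (nat_lit 10) (.s false (nat_lit 2) (nat_lit 14) (nat_lit 2) (nat_lit 2) (nat_lit 3) true (nat_lit 4) true (nat_lit 9) true (nat_lit 1) true (nat_lit 10) true (nat_lit 10) (.s true (nat_lit 2) (nat_lit 14) (nat_lit 2) (nat_lit 3) (nat_lit 2) true (nat_lit 6) true (nat_lit 10) true (nat_lit 1) true (nat_lit 10) true (nat_lit 9) (.s false (nat_lit 2) (nat_lit 14) (nat_lit 2) (nat_lit 4) (nat_lit 1) true (nat_lit 7) true (nat_lit 11) true (nat_lit 1) true (nat_lit 10) true (nat_lit 8) dA4s_i22)))))))))))))))))))) (.nd .leaf (nat_lit 77826) (nat_lit 238) (.p (nat_lit 128) (nat_lit 216) .z) .df .leaf)) (nat_lit 78850) (nat_lit 286) (.n (nat_lit 126) (nat_lit 564) (.p (nat_lit 128) (nat_lit 564) (.n (nat_lit 129) (nat_lit 564) (.p (nat_lit 130) (nat_lit 216) (.p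 (nat_lit 131) (nat_lit 444) (.p (nat_lit 132) (nat_lit 732) (.p (nat_lit 133) (nat_lit 444) (.p (nat_lit 134) (nat_lit 1176) (.n (nat_lit 135) (nat_lit 588) (.n (nat_lit 136) (nat_lit 3156) (.n (nat_lit 137) (nat_lit 588) (.p (nat_lit 138) (nat_lit 1980) (.p (nat_lit 141) (nat_lit 6040) (.p (nat_lit 142) (nat_lit 1824) (.n (nat_lit 143) (nat_lit 4216) (.n (nat_lit 144) (nat_lit 2848) (.p (nat_lit 145) (nat_lit 6328) (.n (nat_lit 146) (nat_lit 912) (.n (nat_lit 147) (nat_lit 384) (.n (nat_lit 148) (nat_lit 912) (.n (nat_lit 149) (nat_lit 2624) (.n (nat_lit 150) (nat_lit 2072) (.n (nat_lit 151) (nat_lit 1856) (.n (nat_lit 152) (nat_lit 2880) (.p (nat_lit 153) (nat_lit 3424) (.p (nat_lit 154) (nat_lit 3032) (.n (nat_lit 155) (nat_lit 216) .z))))))))))))))))))))))))))) (.ct dA4s_c292 (nat_lit 864) (nat_lit 10) (.s false (nat_lit 1) (nat_lit 13) (nat_lit 1) (nat_lit 1) (nat_lit 6) true (nat_lit 1) true (nat_lit 6) true (nat_lit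 2) true (nat_lit 11) true (nat_lit 11) (.s true (nat_lit 1) (nat_lit 25) (nat_lit 1) (nat_lit 2) (nat_lit 2) true (nat_lit 7) true (nat_lit 10) false (nat_lit 1) true (nat_lit 11) true (nat_lit 10) (.s true (nat_lit 1) (nat_lit 25) (nat_lit 2) (nat_lit 1) (nat_lit 2) true (nat_lit 6) true (nat_lit 10) false (nat_lit 1) true (nat_lit 10) true (nat_lit 11) (.s false (nat_lit 1) (nat_lit 25) (nat_lit 2) (nat_lit 2) (nat_lit 1) true (nat_lit 7) true (nat_lit 11) false (nat_lit 1) true (nat_lit 10) true (nat_lit 10) (.e false (nat_lit 432) (nat_lit 44) (nat_lit 6) (nat_lit 6) (.e true (nat_lit 432) (nat_lit 103) (nat_lit 1) (nat_lit 11) (.e false (nat_lit 432) (nat_lit 107) (nat_lit 1) (nat_lit 11) (.e false (nat_lit 864) (nat_lit 94) (nat_lit 1) (nat_lit 11) (.e false (nat_lit 864) (nat_lit 95) (nat_lit 1) (nat_lit 11) (.e true (nat_lit 864) (nat_lit 98) (nat_lit 1) (nat_lit 11) (.e false (nat_lit 864) (nat_lit 99) (nat_lit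 1) (nat_lit 11) (.e true (nat_lit 432) (nat_lit 100) (nat_lit 1) (nat_lit 11) (.e true (nat_lit 432) (nat_lit 102) (nat_lit 1) (nat_lit 11) (.e true (nat_lit 864) (nat_lit 80) (nat_lit 2) (nat_lit 10) (.e true (nat_lit 864) (nat_lit 81) (nat_lit 2) (nat_lit 10) (.e true (nat_lit 864) (nat_lit 84) (nat_lit 2) (nat_lit 10) (.e false (nat_lit 432) (nat_lit 85) (nat_lit 2) (nat_lit 10) (.e false (nat_lit 432) (nat_lit 87) (nat_lit 2) (nat_lit 10) (.e false (nat_lit 432) (nat_lit 88) (nat_lit 2) (nat_lit 10) .nil)))))))))))))))))))) (.nd (.nd .leaf (nat_lit 79874) (nat_lit 239) (.p (nat_lit 129) (nat_lit 216) .z) .df .leaf) (nat_lit 80898) (nat_lit 240) (.p (nat_lit 130) (nat_lit 216) .z) .df .leaf)) (nat_lit 81922) (nat_lit 241) (.p (nat_lit 131) (nat_lit 216) .z) .df (.nd (.nd (.nd .leaf (nat_lit 82946) (nat_lit 242) (.p (nat_lit 132) (nat_lit 216) .z) .df .leaf) (nat_lit 83970) (nat_lit 243) (.p (nat_lit 133) (nat_lit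 216) .z) .df .leaf) (nat_lit 84994) (nat_lit 270) (.p (nat_lit 126) (nat_lit 144) (.n (nat_lit 128) (nat_lit 144) (.p (nat_lit 129) (nat_lit 144) (.p (nat_lit 131) (nat_lit 144) (.n (nat_lit 132) (nat_lit 72) (.n (nat_lit 133) (nat_lit 72) (.p (nat_lit 134) (nat_lit 72) (.p (nat_lit 135) (nat_lit 72) (.p (nat_lit 136) (nat_lit 360) (.p (nat_lit 137) (nat_lit 72) (.n (nat_lit 138) (nat_lit 216) (.n (nat_lit 141) (nat_lit 384) (.n (nat_lit 142) (nat_lit 144) (.p (nat_lit 143) (nat_lit 240) (.p (nat_lit 144) (nat_lit 240) (.n (nat_lit 145) (nat_lit 384) (.p (nat_lit 146) (nat_lit 72) (.n (nat_lit 147) (nat_lit 72) (.p (nat_lit 148) (nat_lit 72) (.p (nat_lit 149) (nat_lit 192) (.p (nat_lit 150) (nat_lit 120) (.p (nat_lit 151) (nat_lit 120) (.p (nat_lit 152) (nat_lit 216) (.n (nat_lit 153) (nat_lit 240) (.n (nat_lit 154) (nat_lit 48) .z))))))))))))))))))))))))) (.ct dA4s_c292 (nat_lit 2592) (nat_lit 10) (.s false (nat_lit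 1) (nat_lit 6) (nat_lit 2) (nat_lit 5) (nat_lit 3) true (nat_lit 4) true (nat_lit 9) true (nat_lit 6) true (nat_lit 10) true (nat_lit 7) (.s false (nat_lit 1) (nat_lit 7) (nat_lit 2) (nat_lit 6) (nat_lit 2) true (nat_lit 6) true (nat_lit 10) true (nat_lit 5) true (nat_lit 10) true (nat_lit 6) (.s false (nat_lit 1) (nat_lit 8) (nat_lit 2) (nat_lit 1) (nat_lit 6) true (nat_lit 0) true (nat_lit 6) true (nat_lit 4) true (nat_lit 10) true (nat_lit 11) (.s true (nat_lit 1) (nat_lit 16) (nat_lit 1) (nat_lit 1) (nat_lit 4) true (nat_lit 4) true (nat_lit 8) true (nat_lit 0) true (nat_lit 11) true (nat_lit 11) (.s true (nat_lit 1) (nat_lit 16) (nat_lit 1) (nat_lit 3) (nat_lit 2) true (nat_lit 7) true (nat_lit 10) true (nat_lit 0) true (nat_lit 11) true (nat_lit 9) (.s true (nat_lit 1) (nat_lit 16) (nat_lit 2) (nat_lit 1) (nat_lit 3) true (nat_lit 4) true (nat_lit 9) true (nat_lit 0) true (nat_lit 10) true (nat_lit 11) (.s false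 (nat_lit 1) (nat_lit 18) (nat_lit 2) (nat_lit 2) (nat_lit 2) true (nat_lit 6) true (nat_lit 10) false (nat_lit 0) true (nat_lit 10) true (nat_lit 10) (.s true (nat_lit 1) (nat_lit 19) (nat_lit 2) (nat_lit 2) (nat_lit 2) true (nat_lit 6) true (nat_lit 10) false (nat_lit 0) true (nat_lit 10) true (nat_lit 10) (.s false (nat_lit 1) (nat_lit 20) (nat_lit 2) (nat_lit 2) (nat_lit 2) true (nat_lit 6) true (nat_lit 10) false (nat_lit 0) true (nat_lit 10) true (nat_lit 10) dA4s_i11)))))))))) (.nd (.nd .leaf (nat_lit 86018) (nat_lit 244) (.p (nat_lit 134) (nat_lit 216) .z) .df .leaf) (nat_lit 87042) (nat_lit 245) (.p (nat_lit 135) (nat_lit 216) .z) .df .leaf))) (nat_lit 88066) (nat_lit 246) (.p (nat_lit 136) (nat_lit 216) .z) .df (.nd (.nd (.nd (.nd .leaf (nat_lit 89090) (nat_lit 247) (.p (nat_lit 137) (nat_lit 216) .z) .df .leaf) (nat_lit 90114) (nat_lit 267) (.p (nat_lit 126) (nat_lit 216) (.n (nat_lit 128) (nat_lit 216) (.p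 (nat_lit 129) (nat_lit 216) (.p (nat_lit 131) (nat_lit 216) (.p (nat_lit 132) (nat_lit 216) (.n (nat_lit 133) (nat_lit 216) (.p (nat_lit 136) (nat_lit 648) (.n (nat_lit 138) (nat_lit 648) (.n (nat_lit 141) (nat_lit 1008) (.n (nat_lit 142) (nat_lit 432) (.p (nat_lit 143) (nat_lit 576) (.p (nat_lit 144) (nat_lit 576) (.n (nat_lit 145) (nat_lit 1008) (.p (nat_lit 146) (nat_lit 216) (.p (nat_lit 148) (nat_lit 216) (.p (nat_lit 149) (nat_lit 504) (.p (nat_lit 150) (nat_lit 288) (.p (nat_lit 151) (nat_lit 288) (.p (nat_lit 152) (nat_lit 432) (.n (nat_lit 153) (nat_lit 576) (.n (nat_lit 154) (nat_lit 288) .z))))))))))))))))))))) (.ct dA4s_c292 (nat_lit 2592) (nat_lit 10) (.s true (nat_lit 4) (nat_lit 5) (nat_lit 4) (nat_lit 2) (nat_lit 5) false (nat_lit 1) true (nat_lit 7) true (nat_lit 7) true (nat_lit 8) true (nat_lit 10) (.s false (nat_lit 4) (nat_lit 6) (nat_lit 1) (nat_lit 4) (nat_lit 5) true (nat_lit 3) true (nat_lit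 7) true (nat_lit 6) true (nat_lit 11) true (nat_lit 8) (.s false (nat_lit 4) (nat_lit 6) (nat_lit 1) (nat_lit 5) (nat_lit 4) true (nat_lit 4) true (nat_lit 8) true (nat_lit 6) true (nat_lit 11) true (nat_lit 7) (.s false (nat_lit 6) (nat_lit 6) (nat_lit 1) (nat_lit 6) (nat_lit 3) true (nat_lit 5) true (nat_lit 9) true (nat_lit 6) true (nat_lit 11) true (nat_lit 6) (.s false (nat_lit 10) (nat_lit 6) (nat_lit 2) (nat_lit 5) (nat_lit 3) true (nat_lit 4) true (nat_lit 9) true (nat_lit 6) true (nat_lit 10) true (nat_lit 7) (.s true (nat_lit 4) (nat_lit 7) (nat_lit 2) (nat_lit 2) (nat_lit 6) true (nat_lit 0) true (nat_lit 6) true (nat_lit 5) true (nat_lit 10) true (nat_lit 10) (.s true (nat_lit 6) (nat_lit 7) (nat_lit 2) (nat_lit 6) (nat_lit 2) true (nat_lit 6) true (nat_lit 10) true (nat_lit 5) true (nat_lit 10) true (nat_lit 6) (.s true (nat_lit 10) (nat_lit 8) (nat_lit 2) (nat_lit 1) (nat_lit 6) true (nat_lit 0) true (nat_lit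 6) true (nat_lit 4) true (nat_lit 10) true (nat_lit 11) (.s true (nat_lit 12) (nat_lit 9) (nat_lit 2) (nat_lit 1) (nat_lit 6) true (nat_lit 0) true (nat_lit 6) true (nat_lit 4) true (nat_lit 10) true (nat_lit 11) (.s false (nat_lit 20) (nat_lit 10) (nat_lit 2) (nat_lit 1) (nat_lit 6) true (nat_lit 0) true (nat_lit 6) true (nat_lit 4) true (nat_lit 10) true (nat_lit 11) (.s true (nat_lit 8) (nat_lit 9) (nat_lit 2) (nat_lit 2) (nat_lit 5) true (nat_lit 1) true (nat_lit 7) true (nat_lit 4) true (nat_lit 10) true (nat_lit 10) (.s false (nat_lit 8) (nat_lit 10) (nat_lit 2) (nat_lit 2) (nat_lit 5) true (nat_lit 1) true (nat_lit 7) true (nat_lit 4) true (nat_lit 10) true (nat_lit 10) (.s true (nat_lit 14) (nat_lit 9) (nat_lit 6) (nat_lit 2) (nat_lit 1) true (nat_lit 1) true (nat_lit 11) true (nat_lit 4) true (nat_lit 6) true (nat_lit 10) (.s false (nat_lit 24) (nat_lit 11) (nat_lit 2) (nat_lit 2) (nat_lit 4) true (nat_lit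 2) true (nat_lit 8) true (nat_lit 3) true (nat_lit 10) true (nat_lit 10) (.s false (nat_lit 16) (nat_lit 11) (nat_lit 6) (nat_lit 0) (nat_lit 2) true (nat_lit 0) true (nat_lit 10) true (nat_lit 3) true (nat_lit 6) true (nat_lit 12) (.s true (nat_lit 3) (nat_lit 13) (nat_lit 1) (nat_lit 1) (nat_lit 6) true (nat_lit 1) true (nat_lit 6) true (nat_lit 2) true (nat_lit 11) true (nat_lit 11) (.s false (nat_lit 4) (nat_lit 12) (nat_lit 1) (nat_lit 5) (nat_lit 2) true (nat_lit 7) true (nat_lit 10) true (nat_lit 2) true (nat_lit 11) true (nat_lit 7) (.s true (nat_lit 4) (nat_lit 13) (nat_lit 1) (nat_lit 6) (nat_lit 1) false (nat_lit 13) true (nat_lit 11) true (nat_lit 2) true (nat_lit 11) true (nat_lit 6) (.s true (nat_lit 4) (nat_lit 12) (nat_lit 2) (nat_lit 5) (nat_lit 1) true (nat_lit 7) true (nat_lit 11) true (nat_lit 2) true (nat_lit 10) true (nat_lit 7) (.s true (nat_lit 20) (nat_lit 12) (nat_lit 5) (nat_lit 1) (nat_lit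 2) true (nat_lit 1) true (nat_lit 10) true (nat_lit 2) true (nat_lit 7) true (nat_lit 11) (.s false (nat_lit 8) (nat_lit 14) (nat_lit 0) (nat_lit 2) (nat_lit 5) true (nat_lit 4) true (nat_lit 7) true (nat_lit 1) true (nat_lit 12) true (nat_lit 10) dA4s_i5)))))))))))))))))))))) (.nd .leaf (nat_lit 91138) (nat_lit 292) (.n (nat_lit 126) (nat_lit 804) (.p (nat_lit 128) (nat_lit 588) (.n (nat_lit 129) (nat_lit 804) (.p (nat_lit 130) (nat_lit 108) (.p (nat_lit 131) (nat_lit 240) (.p (nat_lit 132) (nat_lit 600) (.p (nat_lit 133) (nat_lit 456) (.p (nat_lit 134) (nat_lit 840) (.n (nat_lit 135) (nat_lit 420) (.n (nat_lit 136) (nat_lit 3396) (.n (nat_lit 137) (nat_lit 528) (.p (nat_lit 138) (nat_lit 2340) (.p (nat_lit 141) (nat_lit 5384) (.p (nat_lit 142) (nat_lit 1380) (.n (nat_lit 143) (nat_lit 4004) (.n (nat_lit 144) (nat_lit 2456) (.p (nat_lit 145) (nat_lit 5528) (.n (nat_lit 146) (nat_lit 690) (.n (nat_lit 147) (nat_lit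 66) (.n (nat_lit 148) (nat_lit 690) (.n (nat_lit 149) (nat_lit 2656) (.n (nat_lit 150) (nat_lit 2146) (.n (nat_lit 151) (nat_lit 2038) (.n (nat_lit 152) (nat_lit 2898) (.p (nat_lit 153) (nat_lit 3338) (.p (nat_lit 154) (nat_lit 2554) (.n (nat_lit 155) (nat_lit 108) .z))))))))))))))))))))))))))) (.ct dA4s_c292 (nat_lit 432) (nat_lit 10) dA4s_i33) .leaf)) (nat_lit 92162) (nat_lit 248) (.p (nat_lit 138) (nat_lit 216) .z) .df (.nd (.nd .leaf (nat_lit 93186) (nat_lit 249) (.p (nat_lit 139) (nat_lit 216) .z) .df .leaf) (nat_lit 94210) (nat_lit 250) (.p (nat_lit 140) (nat_lit 216) .z) .df .leaf)) (nat_lit 95234) (nat_lit 281) (.n (nat_lit 126) (nat_lit 612) (.n (nat_lit 127) (nat_lit 216) (.p (nat_lit 128) (nat_lit 468) (.n (nat_lit 129) (nat_lit 612) (.p (nat_lit 130) (nat_lit 72) (.p (nat_lit 131) (nat_lit 324) (.p (nat_lit 132) (nat_lit 540) (.p (nat_lit 133) (nat_lit 324) (.p (nat_lit 134) (nat_lit 648) (.n (nat_lit 135)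 (nat_lit 324) (.n (nat_lit 136) (nat_lit 2556) (.n (nat_lit 137) (nat_lit 324) (.p (nat_lit 138) (nat_lit 1620) (.p (nat_lit 141) (nat_lit 3552) (.p (nat_lit 142) (nat_lit 648) (.n (nat_lit 143) (nat_lit 2904) (.n (nat_lit 144) (nat_lit 1392) (.p (nat_lit 145) (nat_lit 3552) (.n (nat_lit 146) (nat_lit 324) (.n (nat_lit 148) (nat_lit 324) (.n (nat_lit 149) (nat_lit 1848) (.n (nat_lit 150) (nat_lit 1596) (.n (nat_lit 151) (nat_lit 1524) (.n (nat_lit 152) (nat_lit 2088) (.p (nat_lit 153) (nat_lit 2292) (.p (nat_lit 154) (nat_lit 1740) (.n (nat_lit 155) (nat_lit 72) .z))))))))))))))))))))))))))) (.ct dA4s_c292 (nat_lit 10368) (nat_lit 10) (.s false (nat_lit 12) (nat_lit 6) (nat_lit 1) (nat_lit 5) (nat_lit 4) true (nat_lit 4) true (nat_lit 8) true (nat_lit 6) true (nat_lit 11) true (nat_lit 7) (.s false (nat_lit 12) (nat_lit 9) (nat_lit 2) (nat_lit 2) (nat_lit 5) true (nat_lit 1) true (nat_lit 7) true (nat_lit 4) true (nat_lit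 10) true (nat_lit 10) (.s false (nat_lit 12) (nat_lit 9) (nat_lit 6) (nat_lit 2) (nat_lit 1) true (nat_lit 1) true (nat_lit 11) true (nat_lit 4) true (nat_lit 6) true (nat_lit 10) (.s true (nat_lit 12) (nat_lit 11) (nat_lit 2) (nat_lit 2) (nat_lit 4) true (nat_lit 2) true (nat_lit 8) true (nat_lit 3) true (nat_lit 10) true (nat_lit 10) (.s false (nat_lit 1) (nat_lit 13) (nat_lit 1) (nat_lit 1) (nat_lit 6) true (nat_lit 1) true (nat_lit 6) true (nat_lit 2) true (nat_lit 11) true (nat_lit 11) (.s false (nat_lit 12) (nat_lit 12) (nat_lit 1) (nat_lit 5) (nat_lit 2) true (nat_lit 7) true (nat_lit 10) true (nat_lit 2) true (nat_lit 11) true (nat_lit 7) (.s true (nat_lit 12) (nat_lit 13) (nat_lit 1) (nat_lit 6) (nat_lit 1) false (nat_lit 13) true (nat_lit 11) true (nat_lit 2) true (nat_lit 11) true (nat_lit 6) (.s false (nat_lit 4) (nat_lit 12) (nat_lit 2) (nat_lit 5) (nat_lit 1) true (nat_lit 7) true (nat_lit 11) true (nat_lit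 2) true (nat_lit 10) true (nat_lit 7) (.s false (nat_lit 24) (nat_lit 12) (nat_lit 5) (nat_lit 1) (nat_lit 2) true (nat_lit 1) true (nat_lit 10) true (nat_lit 2) true (nat_lit 7) true (nat_lit 11) (.s false (nat_lit 4) (nat_lit 12) (nat_lit 5) (nat_lit 2) (nat_lit 1) true (nat_lit 3) true (nat_lit 11) true (nat_lit 2) true (nat_lit 7) true (nat_lit 10) (.s true (nat_lit 8) (nat_lit 14) (nat_lit 1) (nat_lit 4) (nat_lit 2) true (nat_lit 7) true (nat_lit 10) true (nat_lit 1) true (nat_lit 11) true (nat_lit 8) (.s false (nat_lit 8) (nat_lit 14) (nat_lit 2) (nat_lit 1) (nat_lit 4) true (nat_lit 2) true (nat_lit 8) true (nat_lit 1) true (nat_lit 10) true (nat_lit 11) (.s false (nat_lit 12) (nat_lit 14) (nat_lit 2) (nat_lit 4) (nat_lit 1) true (nat_lit 7) true (nat_lit 11) true (nat_lit 1) true (nat_lit 10) true (nat_lit 8) (.s false (nat_lit 8) (nat_lit 14) (nat_lit 5) (nat_lit 0) (nat_lit 2) true (nat_lit 1) true (nat_lit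 10) true (nat_lit 1) true (nat_lit 7) true (nat_lit 12) (.s false (nat_lit 12) (nat_lit 16) (nat_lit 1) (nat_lit 1) (nat_lit 4) true (nat_lit 4) true (nat_lit 8) true (nat_lit 0) true (nat_lit 11) true (nat_lit 11) (.s false (nat_lit 8) (nat_lit 21) (nat_lit 1) (nat_lit 2) (nat_lit 2) true (nat_lit 7) true (nat_lit 10) false (nat_lit 1) true (nat_lit 11) true (nat_lit 10) (.s true (nat_lit 8) (nat_lit 23) (nat_lit 1) (nat_lit 2) (nat_lit 2) true (nat_lit 7) true (nat_lit 10) false (nat_lit 1) true (nat_lit 11) true (nat_lit 10) (.s true (nat_lit 1) (nat_lit 25) (nat_lit 1) (nat_lit 2) (nat_lit 2) true (nat_lit 7) true (nat_lit 10) false (nat_lit 1) true (nat_lit 11) true (nat_lit 10) (.s false (nat_lit 12) (nat_lit 22) (nat_lit 2) (nat_lit 1) (nat_lit 2) true (nat_lit 6) true (nat_lit 10) false (nat_lit 1) true (nat_lit 10) true (nat_lit 11) (.s true (nat_lit 12) (nat_lit 24) (nat_lit 2) (nat_lit 1) (nat_lit 2) true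 (nat_lit 6) true (nat_lit 10) false (nat_lit 1) true (nat_lit 10) true (nat_lit 11) (.s false (nat_lit 7) (nat_lit 25) (nat_lit 2) (nat_lit 1) (nat_lit 2) true (nat_lit 6) true (nat_lit 10) false (nat_lit 1) true (nat_lit 10) true (nat_lit 11) dA4s_i26)))))))))))))))))))))) (.nd (.nd (.nd .leaf (nat_lit 96257) (nat_lit 251) (.p (nat_lit 141) (nat_lit 216) .z) .df .leaf) (nat_lit 96258) (nat_lit 335) (.p (nat_lit 156) (nat_lit 216) .z) .df .leaf) (nat_lit 97281) (nat_lit 252) (.p (nat_lit 142) (nat_lit 216) .z) .df (.nd (.nd .leaf (nat_lit 97282) (nat_lit 336) (.p (nat_lit 157) (nat_lit 216) .z) .df .leaf) (nat_lit 98305) (nat_lit 268) (.n (nat_lit 126) (nat_lit 444) (.p (nat_lit 128) (nat_lit 444) (.n (nat_lit 129) (nat_lit 444) (.p (nat_lit 131) (nat_lit 276) (.p (nat_lit 132) (nat_lit 420) (.p (nat_lit 133) (nat_lit 276) (.p (nat_lit 134) (nat_lit 696) (.n (nat_lit 135) (nat_lit 348) (.n (nat_lit 136) (nat_lit 2172)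 (.n (nat_lit 137) (nat_lit 348) (.p (nat_lit 138) (nat_lit 1476) (.p (nat_lit 141) (nat_lit 3920) (.p (nat_lit 142) (nat_lit 1344) (.n (nat_lit 143) (nat_lit 2576) (.n (nat_lit 144) (nat_lit 1784) (.p (nat_lit 145) (nat_lit 3848) (.n (nat_lit 146) (nat_lit 564) (.n (nat_lit 147) (nat_lit 300) (.n (nat_lit 148) (nat_lit 564) (.n (nat_lit 149) (nat_lit 2032) (.n (nat_lit 150) (nat_lit 1324) (.n (nat_lit 151) (nat_lit 1324) (.n (nat_lit 152) (nat_lit 1980) (.p (nat_lit 153) (nat_lit 2180) (.p (nat_lit 154) (nat_lit 1804) .z))))))))))))))))))))))))) (.ct dA4s_c292 (nat_lit 3888) (nat_lit 11) (.s true (nat_lit 3) (nat_lit 5) (nat_lit 4) (nat_lit 2) (nat_lit 5) false (nat_lit 1) true (nat_lit 7) true (nat_lit 7) true (nat_lit 8) true (nat_lit 10) (.s false (nat_lit 15) (nat_lit 6) (nat_lit 1) (nat_lit 4) (nat_lit 5) true (nat_lit 3) true (nat_lit 7) true (nat_lit 6) true (nat_lit 11) true (nat_lit 8) (.s false (nat_lit 15)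 (nat_lit 6) (nat_lit 1) (nat_lit 5) (nat_lit 4) true (nat_lit 4) true (nat_lit 8) true (nat_lit 6) true (nat_lit 11) true (nat_lit 7) (.s false (nat_lit 15) (nat_lit 6) (nat_lit 1) (nat_lit 6) (nat_lit 3) true (nat_lit 5) true (nat_lit 9) true (nat_lit 6) true (nat_lit 11) true (nat_lit 6) (.s false (nat_lit 1) (nat_lit 6) (nat_lit 2) (nat_lit 5) (nat_lit 3) true (nat_lit 4) true (nat_lit 9) true (nat_lit 6) true (nat_lit 10) true (nat_lit 7) (.s false (nat_lit 18) (nat_lit 7) (nat_lit 2) (nat_lit 2) (nat_lit 6) true (nat_lit 0) true (nat_lit 6) true (nat_lit 5) true (nat_lit 10) true (nat_lit 10) (.s true (nat_lit 23) (nat_lit 7) (nat_lit 2) (nat_lit 6) (nat_lit 2) true (nat_lit 6) true (nat_lit 10) true (nat_lit 5) true (nat_lit 10) true (nat_lit 6) (.s true (nat_lit 35) (nat_lit 8) (nat_lit 2) (nat_lit 1) (nat_lit 6) true (nat_lit 0) true (nat_lit 6) true (nat_lit 4) true (nat_lit 10) true (nat_lit 11) (.s true (nat_lit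 36) (nat_lit 9) (nat_lit 2) (nat_lit 1) (nat_lit 6) true (nat_lit 0) true (nat_lit 6) true (nat_lit 4) true (nat_lit 10) true (nat_lit 11) (.s false (nat_lit 24) (nat_lit 10) (nat_lit 2) (nat_lit 1) (nat_lit 6) true (nat_lit 0) true (nat_lit 6) true (nat_lit 4) true (nat_lit 10) true (nat_lit 11) (.s true (nat_lit 21) (nat_lit 9) (nat_lit 2) (nat_lit 2) (nat_lit 5) true (nat_lit 1) true (nat_lit 7) true (nat_lit 4) true (nat_lit 10) true (nat_lit 10) (.s true (nat_lit 6) (nat_lit 10) (nat_lit 2) (nat_lit 2) (nat_lit 5) true (nat_lit 1) true (nat_lit 7) true (nat_lit 4) true (nat_lit 10) true (nat_lit 10) dA4s_i8))))))))))))) .leaf))))) (nat_lit 98306) (nat_lit 337) (.p (nat_lit 158) (nat_lit 216) .z) .df (.nd (.nd (.nd (.nd (.nd (.nd .leaf (nat_lit 99329) (nat_lit 253) (.p (nat_lit 143) (nat_lit 216) .z) .df .leaf) (nat_lit 99330) (nat_lit 366) (.n (nat_lit 157) (nat_lit 216) (.p (nat_lit 161) (nat_lit 108) (.p (nat_lit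 162) (nat_lit 216) (.p (nat_lit 163) (nat_lit 108) (.n (nat_lit 165) (nat_lit 108) (.n (nat_lit 166) (nat_lit 108) (.n (nat_lit 167) (nat_lit 216) (.p (nat_lit 168) (nat_lit 108) .z)))))))) (.ct dA4s_c277 (nat_lit 864) (nat_lit 8) (.s true (nat_lit 1) (nat_lit 6) (nat_lit 2) (nat_lit 6) (nat_lit 3) true (nat_lit 3) true (nat_lit 7) true (nat_lit 4) true (nat_lit 8) true (nat_lit 4) (.s true (nat_lit 1) (nat_lit 8) (nat_lit 6) (nat_lit 2) (nat_lit 2) true (nat_lit 0) true (nat_lit 8) true (nat_lit 3) true (nat_lit 4) true (nat_lit 8) (.s true (nat_lit 1) (nat_lit 16) (nat_lit 3) (nat_lit 2) (nat_lit 2) true (nat_lit 3) true (nat_lit 8) true (nat_lit 0) true (nat_lit 7) true (nat_lit 8) (.e true (nat_lit 864) (nat_lit 95) (nat_lit 2) (nat_lit 8) (.e false (nat_lit 432) (nat_lit 100) (nat_lit 2) (nat_lit 8) (.e false (nat_lit 864) (nat_lit 101) (nat_lit 2) (nat_lit 8) (.e false (nat_lit 432) (nat_lit 102) (nat_lit 2) (nat_lit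 8) (.e true (nat_lit 432) (nat_lit 104) (nat_lit 2) (nat_lit 8) (.e true (nat_lit 432) (nat_lit 105) (nat_lit 2) (nat_lit 8) (.e true (nat_lit 864) (nat_lit 106) (nat_lit 2) (nat_lit 8) (.e false (nat_lit 432) (nat_lit 107) (nat_lit 2) (nat_lit 8) .nil)))))))))))) (.nd .leaf (nat_lit 100353) (nat_lit 254) (.p (nat_lit 144) (nat_lit 216) .z) .df .leaf)) (nat_lit 100354) (nat_lit 338) (.p (nat_lit 159) (nat_lit 216) .z) .df (.nd (.nd .leaf (nat_lit 101377) (nat_lit 255) (.p (nat_lit 145) (nat_lit 216) .z) .df .leaf) (nat_lit 101378) (nat_lit 339) (.p (nat_lit 160) (nat_lit 216) .z) .df .leaf)) (nat_lit 102401) (nat_lit 256) (.p (nat_lit 146) (nat_lit 216) .z) .df (.nd (.nd (.nd .leaf (nat_lit 102402) (nat_lit 340) (.p (nat_lit 161) (nat_lit 216) .z) .df .leaf) (nat_lit 103425) (nat_lit 257) (.p (nat_lit 147) (nat_lit 216) .z) .df .leaf) (nat_lit 103426) (nat_lit 341) (.p (nat_lit 162) (nat_lit 216) .z) .df (.nd (.nd .leaf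 (nat_lit 104449) (nat_lit 258) (.p (nat_lit 148) (nat_lit 216) .z) .df .leaf) (nat_lit 104450) (nat_lit 342) (.p (nat_lit 163) (nat_lit 216) .z) .df .leaf))) (nat_lit 105473) (nat_lit 259) (.p (nat_lit 149) (nat_lit 216) .z) .df (.nd (.nd (.nd (.nd .leaf (nat_lit 105474) (nat_lit 343) (.p (nat_lit 164) (nat_lit 216) .z) .df .leaf) (nat_lit 106497) (nat_lit 260) (.p (nat_lit 150) (nat_lit 216) .z) .df (.nd .leaf (nat_lit 106498) (nat_lit 344) (.p (nat_lit 165) (nat_lit 216) .z) .df .leaf)) (nat_lit 107521) (nat_lit 261) (.p (nat_lit 151) (nat_lit 216) .z) .df (.nd (.nd .leaf (nat_lit 107522) (nat_lit 345) (.p (nat_lit 166) (nat_lit 216) .z) .df .leaf) (nat_lit 108545) (nat_lit 262) (.p (nat_lit 152) (nat_lit 216) .z) .df .leaf)) (nat_lit 108546) (nat_lit 346) (.p (nat_lit 167) (nat_lit 216) .z) .df (.nd (.nd (.nd .leaf (nat_lit 109569) (nat_lit 263) (.p (nat_lit 153) (nat_lit 216) .z) .df .leaf) (nat_lit 109570) (nat_lit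 347) (.p (nat_lit 168) (nat_lit 216) .z) .df .leaf) (nat_lit 110593) (nat_lit 302) (.p (nat_lit 126) (nat_lit 444) (.n (nat_lit 128) (nat_lit 444) (.p (nat_lit 129) (nat_lit 444) (.n (nat_lit 131) (nat_lit 276) (.n (nat_lit 132) (nat_lit 420) (.n (nat_lit 133) (nat_lit 276) (.n (nat_lit 134) (nat_lit 696) (.p (nat_lit 135) (nat_lit 348) (.p (nat_lit 136) (nat_lit 2172) (.p (nat_lit 137) (nat_lit 348) (.n (nat_lit 138) (nat_lit 1476) (.n (nat_lit 141) (nat_lit 3812) (.n (nat_lit 142) (nat_lit 1452) (.p (nat_lit 143) (nat_lit 2360) (.p (nat_lit 144) (nat_lit 2000) (.n (nat_lit 145) (nat_lit 3956) (.p (nat_lit 146) (nat_lit 618) (.p (nat_lit 147) (nat_lit 84) (.p (nat_lit 148) (nat_lit 726) (.p (nat_lit 149) (nat_lit 1708) (.p (nat_lit 150) (nat_lit 1162) (.p (nat_lit 151) (nat_lit 1054) (.p (nat_lit 152) (nat_lit 1656) (.n (nat_lit 153) (nat_lit 2018) (.n (nat_lit 154) (nat_lit 1426) .z))))))))))))))))))))))))) (.ct dA4s_c292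 (nat_lit 432) (nat_lit 11) (.s true (nat_lit 1) (nat_lit 30) (nat_lit 1) (nat_lit 1) (nat_lit 2) true (nat_lit 7) true (nat_lit 10) false (nat_lit 3) true (nat_lit 11) true (nat_lit 11) (.e true (nat_lit 216) (nat_lit 48) (nat_lit 5) (nat_lit 7) (.e true (nat_lit 216) (nat_lit 49) (nat_lit 5) (nat_lit 7) (.e false (nat_lit 216) (nat_lit 50) (nat_lit 5) (nat_lit 7) (.e false (nat_lit 216) (nat_lit 51) (nat_lit 5) (nat_lit 7) dA4s_i36)))))) (.nd (.nd .leaf (nat_lit 110594) (nat_lit 383) (.n (nat_lit 156) (nat_lit 162) (.n (nat_lit 157) (nat_lit 162) (.n (nat_lit 158) (nat_lit 216) (.p (nat_lit 159) (nat_lit 216) (.n (nat_lit 160) (nat_lit 378) (.p (nat_lit 161) (nat_lit 81) (.p (nat_lit 162) (nat_lit 108) (.p (nat_lit 163) (nat_lit 189) (.n (nat_lit 164) (nat_lit 189) (.n (nat_lit 165) (nat_lit 54) (.n (nat_lit 166) (nat_lit 162) (.n (nat_lit 167) (nat_lit 378) (.p (nat_lit 168) (nat_lit 54) (.n (nat_lit 169) (nat_lit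 162) .z)))))))))))))) (.ct dA4s_c277 (nat_lit 432) (nat_lit 8) (.s false (nat_lit 1) (nat_lit 12) (nat_lit 5) (nat_lit 2) (nat_lit 2) true (nat_lit 1) true (nat_lit 8) true (nat_lit 2) true (nat_lit 5) true (nat_lit 8) (.s true (nat_lit 1) (nat_lit 14) (nat_lit 4) (nat_lit 2) (nat_lit 2) true (nat_lit 2) true (nat_lit 8) true (nat_lit 1) true (nat_lit 6) true (nat_lit 8) (.e true (nat_lit 216) (nat_lit 94) (nat_lit 2) (nat_lit 8) (.e false (nat_lit 216) (nat_lit 98) (nat_lit 2) (nat_lit 8) (.e true (nat_lit 432) (nat_lit 99) (nat_lit 2) (nat_lit 8) (.e false (nat_lit 108) (nat_lit 100) (nat_lit 2) (nat_lit 8) (.e true (nat_lit 108) (nat_lit 101) (nat_lit 2) (nat_lit 8) (.e true (nat_lit 108) (nat_lit 102) (nat_lit 2) (nat_lit 8) (.e false (nat_lit 324) (nat_lit 104) (nat_lit 2) (nat_lit 8) (.e false (nat_lit 324) (nat_lit 105) (nat_lit 2) (nat_lit 8) (.e false (nat_lit 324) (nat_lit 106) (nat_lit 2) (nat_lit 8) (.e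 true (nat_lit 324) (nat_lit 107) (nat_lit 2) (nat_lit 8) (.e true (nat_lit 324) (nat_lit 109) (nat_lit 2) (nat_lit 8) (.e true (nat_lit 216) (nat_lit 65) (nat_lit 5) (nat_lit 5) (.e false (nat_lit 216) (nat_lit 67) (nat_lit 5) (nat_lit 5) (.e false (nat_lit 216) (nat_lit 97) (nat_lit 2) (nat_lit 8) (.e false (nat_lit 216) (nat_lit 69) (nat_lit 4) (nat_lit 6) (.e true (nat_lit 216) (nat_lit 71) (nat_lit 4) (nat_lit 6) (.e true (nat_lit 216) (nat_lit 96) (nat_lit 2) (nat_lit 8) .nil)))))))))))))))))))) .leaf) (nat_lit 111617) (nat_lit 264) (.p (nat_lit 154) (nat_lit 216) .z) .df .leaf)))) (nat_lit 111618) (nat_lit 348) (.p (nat_lit 169) (nat_lit 216) .z) .df (.nd (.nd (.nd (.nd (.nd .leaf (nat_lit 112640) (nat_lit 317) (.p (nat_lit 126) (nat_lit 1524) (.n (nat_lit 127) (nat_lit 432) (.n (nat_lit 128) (nat_lit 1092) (.p (nat_lit 129) (nat_lit 1092) (.p (nat_lit 131) (nat_lit 48) (.n (nat_lit 132) (nat_lit 744) (.n (nat_lit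 133) (nat_lit 384) (.n (nat_lit 134) (nat_lit 696) (.p (nat_lit 135) (nat_lit 348) (.p (nat_lit 136) (nat_lit 3576) (.p (nat_lit 137) (nat_lit 564) (.n (nat_lit 138) (nat_lit 2664) (.p (nat_lit 140) (nat_lit 216) (.n (nat_lit 141) (nat_lit 4820) (.n (nat_lit 142) (nat_lit 264) (.p (nat_lit 143) (nat_lit 4772) (.p (nat_lit 144) (nat_lit 1388) (.n (nat_lit 145) (nat_lit 4532) (.p (nat_lit 146) (nat_lit 348) (.p (nat_lit 147) (nat_lit 300) (.p (nat_lit 148) (nat_lit 132) (.p (nat_lit 149) (nat_lit 3400) (.p (nat_lit 150) (nat_lit 3124) (.p (nat_lit 151) (nat_lit 3124) (.p (nat_lit 152) (nat_lit 3276) (.n (nat_lit 153) (nat_lit 4052) (.n (nat_lit 154) (nat_lit 3280) (.p (nat_lit 155) (nat_lit 108) .z)))))))))))))))))))))))))))) (.ct dA4s_c292 (nat_lit 216) (nat_lit 12) dA4s_i38) .leaf) (nat_lit 112642) (nat_lit 395) (.p (nat_lit 175) (nat_lit 216) .z) .df (.nd .leaf (nat_lit 113664) (nat_lit 265) (.p (nat_lit 155) (nat_lit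 216) .z) .df .leaf)) (nat_lit 113666) (nat_lit 404) (.n (nat_lit 177) (nat_lit 864) (.n (nat_lit 178) (nat_lit 216) (.p (nat_lit 179) (nat_lit 216) (.n (nat_lit 182) (nat_lit 432) .z)))) (.ct dA4s_c37 (nat_lit 216) (nat_lit 5) (.s false (nat_lit 1) (nat_lit 6) (nat_lit 2) (nat_lit 5) (nat_lit 5) true (nat_lit 1) true (nat_lit 4) true (nat_lit 3) true (nat_lit 5) true (nat_lit 4) (.s true (nat_lit 3) (nat_lit 11) (nat_lit 2) (nat_lit 2) (nat_lit 6) true (nat_lit 0) true (nat_lit 3) true (nat_lit 2) true (nat_lit 5) true (nat_lit 5) (.s true (nat_lit 1) (nat_lit 14) (nat_lit 1) (nat_lit 6) (nat_lit 2) true (nat_lit 4) true (nat_lit 5) true (nat_lit 1) true (nat_lit 6) true (nat_lit 3) (.s false (nat_lit 2) (nat_lit 14) (nat_lit 2) (nat_lit 2) (nat_lit 5) true (nat_lit 1) true (nat_lit 4) true (nat_lit 1) true (nat_lit 5) true (nat_lit 5) (.s true (nat_lit 2) (nat_lit 16) (nat_lit 2) (nat_lit 5) (nat_lit 1) true (nat_lit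 4) true (nat_lit 6) true (nat_lit 0) true (nat_lit 5) true (nat_lit 4) (.s true (nat_lit 3) (nat_lit 16) (nat_lit 5) (nat_lit 1) (nat_lit 2) true (nat_lit 1) true (nat_lit 5) true (nat_lit 0) true (nat_lit 4) true (nat_lit 6) (.s true (nat_lit 2) (nat_lit 28) (nat_lit 2) (nat_lit 2) (nat_lit 2) true (nat_lit 3) true (nat_lit 5) false (nat_lit 0) true (nat_lit 5) true (nat_lit 5) (.s true (nat_lit 2) (nat_lit 33) (nat_lit 1) (nat_lit 2) (nat_lit 2) true (nat_lit 4) true (nat_lit 5) false (nat_lit 1) true (nat_lit 6) true (nat_lit 5) (.s true (nat_lit 1) (nat_lit 35) (nat_lit 1) (nat_lit 2) (nat_lit 2) true (nat_lit 4) true (nat_lit 5) false (nat_lit 1) true (nat_lit 6) true (nat_lit 5) (.s true (nat_lit 2) (nat_lit 34) (nat_lit 2) (nat_lit 1) (nat_lit 2) true (nat_lit 3) true (nat_lit 5) false (nat_lit 1) true (nat_lit 5) true (nat_lit 6) (.s true (nat_lit 1) (nat_lit 35) (nat_lit 2) (nat_lit 1) (nat_lit 2) true (nat_lit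 3) true (nat_lit 5) false (nat_lit 1) true (nat_lit 5) true (nat_lit 6) (.s false (nat_lit 1) (nat_lit 36) (nat_lit 1) (nat_lit 1) (nat_lit 2) true (nat_lit 4) true (nat_lit 5) false (nat_lit 2) true (nat_lit 6) true (nat_lit 6) (.e true (nat_lit 432) (nat_lit 63) (nat_lit 6) (nat_lit 3) (.e true (nat_lit 864) (nat_lit 113) (nat_lit 2) (nat_lit 5) (.e true (nat_lit 216) (nat_lit 114) (nat_lit 2) (nat_lit 5) (.e false (nat_lit 216) (nat_lit 115) (nat_lit 2) (nat_lit 5) .nil))))))))))))))))) (.nd (.nd .leaf (nat_lit 114688) (nat_lit 280) (.p (nat_lit 126) (nat_lit 2196) (.n (nat_lit 127) (nat_lit 432) (.n (nat_lit 128) (nat_lit 1764) (.p (nat_lit 129) (nat_lit 1764) (.n (nat_lit 131) (nat_lit 396) (.n (nat_lit 132) (nat_lit 1692) (.n (nat_lit 133) (nat_lit 828) (.n (nat_lit 134) (nat_lit 2088) (.p (nat_lit 135) (nat_lit 1044) (.p (nat_lit 136) (nat_lit 7380) (.p (nat_lit 137) (nat_lit 1260) (.n (nat_lit 138) (nat_lit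 5076) (.p (nat_lit 140) (nat_lit 216) (.n (nat_lit 141) (nat_lit 13560) (.n (nat_lit 142) (nat_lit 4032) (.p (nat_lit 143) (nat_lit 9528) (.p (nat_lit 144) (nat_lit 6288) (.n (nat_lit 145) (nat_lit 13992) (.p (nat_lit 146) (nat_lit 2232) (.p (nat_lit 147) (nat_lit 1224) (.p (nat_lit 148) (nat_lit 2016) (.p (nat_lit 149) (nat_lit 6672) (.p (nat_lit 150) (nat_lit 4872) (.p (nat_lit 151) (nat_lit 4872) (.p (nat_lit 152) (nat_lit 6696) (.n (nat_lit 153) (nat_lit 8016) (.n (nat_lit 154) (nat_lit 7176) (.p (nat_lit 155) (nat_lit 216) .z)))))))))))))))))))))))))))) (.ct dA4s_c292 (nat_lit 432) (nat_lit 12) (.s true (nat_lit 1) (nat_lit 6) (nat_lit 1) (nat_lit 6) (nat_lit 3) true (nat_lit 5) true (nat_lit 9) true (nat_lit 6) true (nat_lit 11) true (nat_lit 6) (.s false (nat_lit 2) (nat_lit 10) (nat_lit 2) (nat_lit 2) (nat_lit 5) true (nat_lit 1) true (nat_lit 7) true (nat_lit 4) true (nat_lit 10) true (nat_lit 10) (.s false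 (nat_lit 1) (nat_lit 13) (nat_lit 1) (nat_lit 6) (nat_lit 1) false (nat_lit 13) true (nat_lit 11) true (nat_lit 2) true (nat_lit 11) true (nat_lit 6) (.s true (nat_lit 2) (nat_lit 23) (nat_lit 1) (nat_lit 2) (nat_lit 2) true (nat_lit 7) true (nat_lit 10) false (nat_lit 1) true (nat_lit 11) true (nat_lit 10) (.s false (nat_lit 1) (nat_lit 29) (nat_lit 0) (nat_lit 2) (nat_lit 2) true (nat_lit 8) true (nat_lit 10) false (nat_lit 2) true (nat_lit 12) true (nat_lit 10) (.s false (nat_lit 1) (nat_lit 29) (nat_lit 2) (nat_lit 0) (nat_lit 2) true (nat_lit 6) true (nat_lit 10) false (nat_lit 2) true (nat_lit 10) true (nat_lit 12) (.s true (nat_lit 1) (nat_lit 29) (nat_lit 2) (nat_lit 2) (nat_lit 0) true (nat_lit 8) true (nat_lit 12) false (nat_lit 2) true (nat_lit 10) true (nat_lit 10) (.s true (nat_lit 2) (nat_lit 34) (nat_lit 1) (nat_lit 2) (nat_lit 0) true (nat_lit 9) true (nat_lit 12) false (nat_lit 4) true (nat_lit 11)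 true (nat_lit 10) (.s true (nat_lit 2) (nat_lit 35) (nat_lit 1) (nat_lit 2) (nat_lit 0) true (nat_lit 9) true (nat_lit 12) false (nat_lit 4) true (nat_lit 11) true (nat_lit 10) (.e true (nat_lit 432) (nat_lit 44) (nat_lit 6) (nat_lit 6) (.e false (nat_lit 1296) (nat_lit 103) (nat_lit 1) (nat_lit 11) (.e true (nat_lit 432) (nat_lit 73) (nat_lit 2) (nat_lit 10) dA4s_i24))))))))))))) .leaf) (nat_lit 114690) (nat_lit 396) (.p (nat_lit 176) (nat_lit 216) .z) .df .leaf)) (nat_lit 115712) (nat_lit 275) (.n (nat_lit 126) (nat_lit 24) (.p (nat_lit 128) (nat_lit 24) (.n (nat_lit 129) (nat_lit 24) (.p (nat_lit 131) (nat_lit 120) (.n (nat_lit 132) (nat_lit 24) (.p (nat_lit 133) (nat_lit 120) (.p (nat_lit 134) (nat_lit 96) (.n (nat_lit 135) (nat_lit 48) (.n (nat_lit 136) (nat_lit 240) (.n (nat_lit 137) (nat_lit 48) (.p (nat_lit 138) (nat_lit 144) (.n (nat_lit 141) (nat_lit 440) (.n (nat_lit 142) (nat_lit 552) (.n (nat_lit 143) (nat_lit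 112) (.p (nat_lit 144) (nat_lit 392) (.n (nat_lit 145) (nat_lit 584) (.p (nat_lit 146) (nat_lit 276) (.p (nat_lit 147) (nat_lit 372) (.p (nat_lit 148) (nat_lit 276) (.n (nat_lit 149) (nat_lit 32) (.n (nat_lit 150) (nat_lit 236) (.n (nat_lit 151) (nat_lit 236) (.n (nat_lit 152) (nat_lit 180) (.p (nat_lit 153) (nat_lit 76) (.n (nat_lit 154) (nat_lit 316) .z))))))))))))))))))))))))) (.ct dA4s_c292 (nat_lit 432) (nat_lit 12) (.s true (nat_lit 2) (nat_lit 7) (nat_lit 2) (nat_lit 2) (nat_lit 6) true (nat_lit 0) true (nat_lit 6) true (nat_lit 5) true (nat_lit 10) true (nat_lit 10) (.s true (nat_lit 2) (nat_lit 9) (nat_lit 2) (nat_lit 1) (nat_lit 6) true (nat_lit 0) true (nat_lit 6) true (nat_lit 4) true (nat_lit 10) true (nat_lit 11) (.s false (nat_lit 2) (nat_lit 10) (nat_lit 2) (nat_lit 1) (nat_lit 6) true (nat_lit 0) true (nat_lit 6) true (nat_lit 4) true (nat_lit 10) true (nat_lit 11) (.s true (nat_lit 2) (nat_lit 9) (nat_lit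 2) (nat_lit 2) (nat_lit 5) true (nat_lit 1) true (nat_lit 7) true (nat_lit 4) true (nat_lit 10) true (nat_lit 10) (.s false (nat_lit 2) (nat_lit 10) (nat_lit 2) (nat_lit 2) (nat_lit 5) true (nat_lit 1) true (nat_lit 7) true (nat_lit 4) true (nat_lit 10) true (nat_lit 10) (.s true (nat_lit 2) (nat_lit 8) (nat_lit 5) (nat_lit 2) (nat_lit 2) true (nat_lit 1) true (nat_lit 10) true (nat_lit 4) true (nat_lit 7) true (nat_lit 10) (.s false (nat_lit 2) (nat_lit 14) (nat_lit 2) (nat_lit 2) (nat_lit 3) true (nat_lit 4) true (nat_lit 9) true (nat_lit 1) true (nat_lit 10) true (nat_lit 10) (.s true (nat_lit 2) (nat_lit 14) (nat_lit 2) (nat_lit 3) (nat_lit 2) true (nat_lit 6) true (nat_lit 10) true (nat_lit 1) true (nat_lit 10) true (nat_lit 9) (.s false (nat_lit 2) (nat_lit 16) (nat_lit 0) (nat_lit 1) (nat_lit 5) true (nat_lit 4) true (nat_lit 7) true (nat_lit 0) true (nat_lit 12) true (nat_lit 11) (.s false (nat_lit 1) (nat_lit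 16) (nat_lit 1) (nat_lit 1) (nat_lit 4) true (nat_lit 4) true (nat_lit 8) true (nat_lit 0) true (nat_lit 11) true (nat_lit 11) (.s false (nat_lit 2) (nat_lit 22) (nat_lit 1) (nat_lit 2) (nat_lit 2) true (nat_lit 7) true (nat_lit 10) false (nat_lit 1) true (nat_lit 11) true (nat_lit 10) (.s true (nat_lit 2) (nat_lit 23) (nat_lit 1) (nat_lit 2) (nat_lit 2) true (nat_lit 7) true (nat_lit 10) false (nat_lit 1) true (nat_lit 11) true (nat_lit 10) (.s true (nat_lit 2) (nat_lit 22) (nat_lit 2) (nat_lit 1) (nat_lit 2) true (nat_lit 6) true (nat_lit 10) false (nat_lit 1) true (nat_lit 10) true (nat_lit 11) (.s false (nat_lit 2) (nat_lit 23) (nat_lit 2) (nat_lit 1) (nat_lit 2) true (nat_lit 6) true (nat_lit 10) false (nat_lit 1) true (nat_lit 10) true (nat_lit 11) (.s true (nat_lit 2) (nat_lit 24) (nat_lit 2) (nat_lit 1) (nat_lit 2) true (nat_lit 6) true (nat_lit 10) false (nat_lit 1) true (nat_lit 10) true (nat_lit 11) (.s false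 (nat_lit 2) (nat_lit 26) (nat_lit 2) (nat_lit 1) (nat_lit 2) true (nat_lit 6) true (nat_lit 10) false (nat_lit 1) true (nat_lit 10) true (nat_lit 11) (.s true (nat_lit 2) (nat_lit 32) (nat_lit 1) (nat_lit 1) (nat_lit 2) true (nat_lit 7) true (nat_lit 10) false (nat_lit 3) true (nat_lit 11) true (nat_lit 11) (.s true (nat_lit 1) (nat_lit 35) (nat_lit 0) (nat_lit 2) (nat_lit 1) true (nat_lit 9) true (nat_lit 11) false (nat_lit 4) true (nat_lit 12) true (nat_lit 10) dA4s_i19))))))))))))))))))) (.nd (.nd (.nd .leaf (nat_lit 115714) (nat_lit 397) (.p (nat_lit 177) (nat_lit 216) .z) .df .leaf) (nat_lit 116736) (nat_lit 272) (.n (nat_lit 126) (nat_lit 456) (.p (nat_lit 128) (nat_lit 456) (.n (nat_lit 129) (nat_lit 456) (.p (nat_lit 131) (nat_lit 336) (.p (nat_lit 132) (nat_lit 624) (.p (nat_lit 133) (nat_lit 336) (.p (nat_lit 134) (nat_lit 960) (.n (nat_lit 135) (nat_lit 480) (.n (nat_lit 136) (nat_lit 2616) (.n (nat_lit 137)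 (nat_lit 480) (.p (nat_lit 138) (nat_lit 1656) (.p (nat_lit 141) (nat_lit 4960) (.p (nat_lit 142) (nat_lit 2040) (.n (nat_lit 143) (nat_lit 2920) (.n (nat_lit 144) (nat_lit 2416) (.p (nat_lit 145) (nat_lit 5248) (.n (nat_lit 146) (nat_lit 1020) (.n (nat_lit 147) (nat_lit 708) (.n (nat_lit 148) (nat_lit 1020) (.n (nat_lit 149) (nat_lit 2192) (.n (nat_lit 150) (nat_lit 1316) (.n (nat_lit 151) (nat_lit 1316) (.n (nat_lit 152) (nat_lit 2124) (.p (nat_lit 153) (nat_lit 2452) (.p (nat_lit 154) (nat_lit 2276) .z))))))))))))))))))))))))) (.ct dA4s_c292 (nat_lit 864) (nat_lit 12) (.s false (nat_lit 2) (nat_lit 6) (nat_lit 1) (nat_lit 4) (nat_lit 5) true (nat_lit 3) true (nat_lit 7) true (nat_lit 6) true (nat_lit 11) true (nat_lit 8) (.s true (nat_lit 4) (nat_lit 9) (nat_lit 2) (nat_lit 1) (nat_lit 6) true (nat_lit 0) true (nat_lit 6) true (nat_lit 4) true (nat_lit 10) true (nat_lit 11) (.s true (nat_lit 4) (nat_lit 9) (nat_lit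 2) (nat_lit 2) (nat_lit 5) true (nat_lit 1) true (nat_lit 7) true (nat_lit 4) true (nat_lit 10) true (nat_lit 10) (.s true (nat_lit 2) (nat_lit 9) (nat_lit 6) (nat_lit 2) (nat_lit 1) true (nat_lit 1) true (nat_lit 11) true (nat_lit 4) true (nat_lit 6) true (nat_lit 10) (.s false (nat_lit 2) (nat_lit 11) (nat_lit 2) (nat_lit 2) (nat_lit 4) true (nat_lit 2) true (nat_lit 8) true (nat_lit 3) true (nat_lit 10) true (nat_lit 10) (.s false (nat_lit 1) (nat_lit 13) (nat_lit 1) (nat_lit 1) (nat_lit 6) true (nat_lit 1) true (nat_lit 6) true (nat_lit 2) true (nat_lit 11) true (nat_lit 11) (.s false (nat_lit 2) (nat_lit 12) (nat_lit 2) (nat_lit 5) (nat_lit 1) true (nat_lit 7) true (nat_lit 11) true (nat_lit 2) true (nat_lit 10) true (nat_lit 7) (.s true (nat_lit 2) (nat_lit 12) (nat_lit 5) (nat_lit 1) (nat_lit 2) true (nat_lit 1) true (nat_lit 10) true (nat_lit 2) true (nat_lit 7) true (nat_lit 11) (.s true (nat_lit 2) (nat_lit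 12) (nat_lit 5) (nat_lit 2) (nat_lit 1) true (nat_lit 3) true (nat_lit 11) true (nat_lit 2) true (nat_lit 7) true (nat_lit 10) (.s true (nat_lit 2) (nat_lit 14) (nat_lit 2) (nat_lit 4) (nat_lit 1) true (nat_lit 7) true (nat_lit 11) true (nat_lit 1) true (nat_lit 10) true (nat_lit 8) (.s true (nat_lit 2) (nat_lit 16) (nat_lit 0) (nat_lit 1) (nat_lit 5) true (nat_lit 4) true (nat_lit 7) true (nat_lit 0) true (nat_lit 12) true (nat_lit 11) (.s false (nat_lit 2) (nat_lit 16) (nat_lit 0) (nat_lit 5) (nat_lit 1) true (nat_lit 9) true (nat_lit 11) true (nat_lit 0) true (nat_lit 12) true (nat_lit 7) (.s true (nat_lit 4) (nat_lit 16) (nat_lit 1) (nat_lit 1) (nat_lit 4) true (nat_lit 4) true (nat_lit 8) true (nat_lit 0) true (nat_lit 11) true (nat_lit 11) (.s false (nat_lit 2) (nat_lit 16) (nat_lit 1) (nat_lit 3) (nat_lit 2) true (nat_lit 7) true (nat_lit 10) true (nat_lit 0) true (nat_lit 11) true (nat_lit 9) (.s false (nat_lit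 2) (nat_lit 16) (nat_lit 1) (nat_lit 4) (nat_lit 1) false (nat_lit 13) true (nat_lit 11) true (nat_lit 0) true (nat_lit 11) true (nat_lit 8) (.s false (nat_lit 4) (nat_lit 16) (nat_lit 2) (nat_lit 1) (nat_lit 3) true (nat_lit 4) true (nat_lit 9) true (nat_lit 0) true (nat_lit 10) true (nat_lit 11) (.s false (nat_lit 1) (nat_lit 25) (nat_lit 1) (nat_lit 2) (nat_lit 2) true (nat_lit 7) true (nat_lit 10) false (nat_lit 1) true (nat_lit 11) true (nat_lit 10) (.s true (nat_lit 4) (nat_lit 22) (nat_lit 2) (nat_lit 1) (nat_lit 2) true (nat_lit 6) true (nat_lit 10) false (nat_lit 1) true (nat_lit 10) true (nat_lit 11) (.s false (nat_lit 1) (nat_lit 25) (nat_lit 2) (nat_lit 1) (nat_lit 2) true (nat_lit 6) true (nat_lit 10) false (nat_lit 1) true (nat_lit 10) true (nat_lit 11) (.s false (nat_lit 2) (nat_lit 22) (nat_lit 2) (nat_lit 2) (nat_lit 1) true (nat_lit 7) true (nat_lit 11) false (nat_lit 1) true (nat_lit 10) true (nat_lit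 10) (.s false (nat_lit 1) (nat_lit 25) (nat_lit 2) (nat_lit 2) (nat_lit 1) true (nat_lit 7) true (nat_lit 11) false (nat_lit 1) true (nat_lit 10) true (nat_lit 10) (.s true (nat_lit 2) (nat_lit 30) (nat_lit 1) (nat_lit 1) (nat_lit 2) true (nat_lit 7) true (nat_lit 10) false (nat_lit 3) true (nat_lit 11) true (nat_lit 11) (.s true (nat_lit 2) (nat_lit 30) (nat_lit 2) (nat_lit 1) (nat_lit 1) true (nat_lit 7) true (nat_lit 11) false (nat_lit 3) true (nat_lit 10) true (nat_lit 11) (.s true (nat_lit 2) (nat_lit 35) (nat_lit 0) (nat_lit 1) (nat_lit 2) true (nat_lit 8) true (nat_lit 10) false (nat_lit 4) true (nat_lit 12) true (nat_lit 11) dA4s_i14))))))))))))))))))))))))) .leaf) (nat_lit 116738) (nat_lit 398) (.p (nat_lit 178) (nat_lit 216) .z) .df (.nd (.nd .leaf (nat_lit 117760) (nat_lit 276) (.p (nat_lit 126) (nat_lit 96) (.n (nat_lit 128) (nat_lit 96) (.p (nat_lit 129) (nat_lit 96) (.p (nat_lit 131) (nat_lit 168) (.n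 (nat_lit 132) (nat_lit 120) (.p (nat_lit 133) (nat_lit 168) (.p (nat_lit 134) (nat_lit 48) (.n (nat_lit 135) (nat_lit 24) (.p (nat_lit 136) (nat_lit 96) (.n (nat_lit 137) (nat_lit 24) (.n (nat_lit 138) (nat_lit 144) (.n (nat_lit 141) (nat_lit 2128) (.n (nat_lit 142) (nat_lit 600) (.p (nat_lit 143) (nat_lit 1528) (.p (nat_lit 144) (nat_lit 1456) (.n (nat_lit 145) (nat_lit 2416) (.p (nat_lit 146) (nat_lit 300) (.p (nat_lit 147) (nat_lit 132) (.p (nat_lit 148) (nat_lit 300) (.p (nat_lit 149) (nat_lit 560) (.p (nat_lit 150) (nat_lit 404) (.p (nat_lit 151) (nat_lit 404) (.p (nat_lit 152) (nat_lit 828) (.n (nat_lit 153) (nat_lit 1060) (.n (nat_lit 154) (nat_lit 1652) (.p (nat_lit 155) (nat_lit 216) .z)))))))))))))))))))))))))) (.ct dA4s_c292 (nat_lit 216) (nat_lit 12) (.s true (nat_lit 1) (nat_lit 16) (nat_lit 1) (nat_lit 1) (nat_lit 4) true (nat_lit 4) true (nat_lit 8) true (nat_lit 0) true (nat_lit 11) true (nat_lit 11)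 (.s false (nat_lit 1) (nat_lit 35) (nat_lit 0) (nat_lit 2) (nat_lit 1) true (nat_lit 9) true (nat_lit 11) false (nat_lit 4) true (nat_lit 12) true (nat_lit 10) (.s false (nat_lit 1) (nat_lit 35) (nat_lit 1) (nat_lit 2) (nat_lit 0) true (nat_lit 9) true (nat_lit 12) false (nat_lit 4) true (nat_lit 11) true (nat_lit 10) dA4s_i20)))) .leaf) (nat_lit 117762) (nat_lit 399) (.p (nat_lit 179) (nat_lit 216) .z) .df .leaf))) (nat_lit 119809) (nat_lit 349) (.p (nat_lit 170) (nat_lit 216) .z) .df (.nd (.nd (.nd (.nd .leaf (nat_lit 120833) (nat_lit 350) (.p (nat_lit 171) (nat_lit 216) .z) .df .leaf) (nat_lit 121857) (nat_lit 369) (.p (nat_lit 156) (nat_lit 972) (.p (nat_lit 157) (nat_lit 972) (.n (nat_lit 159) (nat_lit 864) (.p (nat_lit 160) (nat_lit 972) (.n (nat_lit 161) (nat_lit 486) (.n (nat_lit 162) (nat_lit 432) (.n (nat_lit 163) (nat_lit 486) (.n (nat_lit 164) (nat_lit 162) (.p (nat_lit 165) (nat_lit 324) (.p (nat_lit 166)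 (nat_lit 324) (.p (nat_lit 167) (nat_lit 324) (.p (nat_lit 168) (nat_lit 108) (.p (nat_lit 169) (nat_lit 324) (.p (nat_lit 170) (nat_lit 432) (.p (nat_lit 171) (nat_lit 432) .z))))))))))))))) (.ct dA4s_c277 (nat_lit 216) (nat_lit 9) (.s true (nat_lit 1) (nat_lit 13) (nat_lit 2) (nat_lit 1) (nat_lit 6) true (nat_lit 0) true (nat_lit 4) true (nat_lit 2) true (nat_lit 8) true (nat_lit 9) (.s true (nat_lit 1) (nat_lit 13) (nat_lit 2) (nat_lit 2) (nat_lit 5) true (nat_lit 1) true (nat_lit 5) true (nat_lit 2) true (nat_lit 8) true (nat_lit 8) (.s true (nat_lit 1) (nat_lit 25) (nat_lit 2) (nat_lit 2) (nat_lit 2) true (nat_lit 4) true (nat_lit 8) false (nat_lit 0) true (nat_lit 8) true (nat_lit 8) (.s false (nat_lit 1) (nat_lit 31) (nat_lit 1) (nat_lit 2) (nat_lit 2) true (nat_lit 5) true (nat_lit 8) false (nat_lit 1) true (nat_lit 9) true (nat_lit 8) (.e true (nat_lit 216) (nat_lit 54) (nat_lit 6) (nat_lit 4) (.e false (nat_lit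 432) (nat_lit 103) (nat_lit 2) (nat_lit 8) (.e false (nat_lit 432) (nat_lit 105) (nat_lit 2) (nat_lit 8) (.e false (nat_lit 432) (nat_lit 106) (nat_lit 2) (nat_lit 8) (.e true (nat_lit 216) (nat_lit 107) (nat_lit 2) (nat_lit 8) (.e false (nat_lit 432) (nat_lit 117) (nat_lit 1) (nat_lit 9) (.e false (nat_lit 432) (nat_lit 118) (nat_lit 1) (nat_lit 9) (.e false (nat_lit 432) (nat_lit 100) (nat_lit 2) (nat_lit 8) (.e false (nat_lit 432) (nat_lit 104) (nat_lit 2) (nat_lit 8) (.e true (nat_lit 216) (nat_lit 52) (nat_lit 6) (nat_lit 4) .nil))))))))))))))) (.nd .leaf (nat_lit 122881) (nat_lit 377) (.n (nat_lit 156) (nat_lit 756) (.n (nat_lit 157) (nat_lit 756) (.p (nat_lit 159) (nat_lit 864) (.n (nat_lit 160) (nat_lit 756) (.p (nat_lit 161) (nat_lit 378) (.p (nat_lit 163) (nat_lit 378) (.p (nat_lit 164) (nat_lit 54) (.n (nat_lit 165) (nat_lit 324) (.n (nat_lit 166) (nat_lit 324) (.n (nat_lit 167) (nat_lit 108) (.n (nat_lit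 168) (nat_lit 108) (.p (nat_lit 169) (nat_lit 108) .z)))))))))))) (.ct dA4s_c277 (nat_lit 216) (nat_lit 9) (.s false (nat_lit 1) (nat_lit 12) (nat_lit 2) (nat_lit 5) (nat_lit 2) true (nat_lit 4) true (nat_lit 8) true (nat_lit 2) true (nat_lit 8) true (nat_lit 5) (.s true (nat_lit 1) (nat_lit 14) (nat_lit 4) (nat_lit 2) (nat_lit 2) true (nat_lit 2) true (nat_lit 8) true (nat_lit 1) true (nat_lit 6) true (nat_lit 8) (.s false (nat_lit 1) (nat_lit 30) (nat_lit 1) (nat_lit 2) (nat_lit 2) true (nat_lit 5) true (nat_lit 8) false (nat_lit 1) true (nat_lit 9) true (nat_lit 8) (.e false (nat_lit 216) (nat_lit 58) (nat_lit 6) (nat_lit 4) (.e true (nat_lit 864) (nat_lit 94) (nat_lit 2) (nat_lit 8) (.e true (nat_lit 864) (nat_lit 95) (nat_lit 2) (nat_lit 8) (.e false (nat_lit 864) (nat_lit 98) (nat_lit 2) (nat_lit 8) (.e true (nat_lit 864) (nat_lit 99) (nat_lit 2) (nat_lit 8) (.e false (nat_lit 432) (nat_lit 100) (nat_lit 2) (nat_lit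 8) (.e false (nat_lit 216) (nat_lit 102) (nat_lit 2) (nat_lit 8) (.e false (nat_lit 216) (nat_lit 103) (nat_lit 2) (nat_lit 8) (.e false (nat_lit 216) (nat_lit 106) (nat_lit 2) (nat_lit 8) (.e true (nat_lit 216) (nat_lit 107) (nat_lit 2) (nat_lit 8) (.e false (nat_lit 216) (nat_lit 69) (nat_lit 4) (nat_lit 6) (.e true (nat_lit 216) (nat_lit 71) (nat_lit 4) (nat_lit 6) (.e true (nat_lit 216) (nat_lit 117) (nat_lit 1) (nat_lit 9) (.e true (nat_lit 216) (nat_lit 118) (nat_lit 1) (nat_lit 9) .nil)))))))))))))))))) .leaf)) (nat_lit 123905) (nat_lit 419) (.p (nat_lit 175) (nat_lit 216) (.n (nat_lit 176) (nat_lit 216) (.p (nat_lit 177) (nat_lit 972) (.p (nat_lit 179) (nat_lit 108) (.p (nat_lit 180) (nat_lit 108) (.p (nat_lit 181) (nat_lit 324) (.p (nat_lit 182) (nat_lit 1080) .z))))))) (.ct dA4s_c37 (nat_lit 216) (nat_lit 6) (.s true (nat_lit 1) (nat_lit 33) (nat_lit 2) (nat_lit 1) (nat_lit 2) true (nat_lit 3) true (nat_lit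 5) false (nat_lit 1) true (nat_lit 5) true (nat_lit 6) (.e false (nat_lit 216) (nat_lit 61) (nat_lit 6) (nat_lit 3) (.e false (nat_lit 216) (nat_lit 110) (nat_lit 2) (nat_lit 5) (.e true (nat_lit 324) (nat_lit 112) (nat_lit 2) (nat_lit 5) (.e true (nat_lit 1404) (nat_lit 113) (nat_lit 2) (nat_lit 5) (.e true (nat_lit 1080) (nat_lit 114) (nat_lit 2) (nat_lit 5) (.e false (nat_lit 108) (nat_lit 115) (nat_lit 2) (nat_lit 5) (.e false (nat_lit 216) (nat_lit 33) (nat_lit 14) (nat_lit 1) .nil))))))))) (.nd (.nd .leaf (nat_lit 124928) (nat_lit 372) (.p (nat_lit 156) (nat_lit 432) (.p (nat_lit 157) (nat_lit 432) (.p (nat_lit 158) (nat_lit 432) (.n (nat_lit 159) (nat_lit 648) (.p (nat_lit 160) (nat_lit 864) (.n (nat_lit 161) (nat_lit 648) (.n (nat_lit 162) (nat_lit 108) (.n (nat_lit 163) (nat_lit 216) (.p (nat_lit 164) (nat_lit 108) (.p (nat_lit 165) (nat_lit 108) (.p (nat_lit 166) (nat_lit 324) (.p (nat_lit 167) (nat_lit 540)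 (.p (nat_lit 168) (nat_lit 108) (.n (nat_lit 169) (nat_lit 108) (.p (nat_lit 170) (nat_lit 216) (.p (nat_lit 172) (nat_lit 216) (.p (nat_lit 173) (nat_lit 216) .z))))))))))))))))) (.ct dA4s_c277 (nat_lit 432) (nat_lit 10) (.s false (nat_lit 1) (nat_lit 6) (nat_lit 2) (nat_lit 6) (nat_lit 3) true (nat_lit 3) true (nat_lit 7) true (nat_lit 4) true (nat_lit 8) true (nat_lit 4) (.s true (nat_lit 1) (nat_lit 15) (nat_lit 2) (nat_lit 6) (nat_lit 0) true (nat_lit 6) true (nat_lit 10) true (nat_lit 1) true (nat_lit 8) true (nat_lit 4) (.s false (nat_lit 1) (nat_lit 16) (nat_lit 6) (nat_lit 0) (nat_lit 1) true (nat_lit 1) true (nat_lit 9) true (nat_lit 0) true (nat_lit 4) true (nat_lit 10) (.s false (nat_lit 1) (nat_lit 25) (nat_lit 2) (nat_lit 2) (nat_lit 2) true (nat_lit 4) true (nat_lit 8) false (nat_lit 0) true (nat_lit 8) true (nat_lit 8) (.e false (nat_lit 432) (nat_lit 51) (nat_lit 6) (nat_lit 4) (.e true (nat_lit 432)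 (nat_lit 53) (nat_lit 6) (nat_lit 4) (.e false (nat_lit 432) (nat_lit 69) (nat_lit 4) (nat_lit 6) (.e false (nat_lit 432) (nat_lit 70) (nat_lit 4) (nat_lit 6) (.e false (nat_lit 432) (nat_lit 105) (nat_lit 2) (nat_lit 8) (.e false (nat_lit 432) (nat_lit 106) (nat_lit 2) (nat_lit 8) (.e true (nat_lit 432) (nat_lit 107) (nat_lit 2) (nat_lit 8) (.e true (nat_lit 432) (nat_lit 48) (nat_lit 6) (nat_lit 4) (.e false (nat_lit 432) (nat_lit 52) (nat_lit 6) (nat_lit 4) (.e true (nat_lit 432) (nat_lit 123) (nat_lit 0) (nat_lit 10) .nil))))))))))))))) .leaf) (nat_lit 124929) (nat_lit 400) (.p (nat_lit 180) (nat_lit 216) .z) .df .leaf)) (nat_lit 125952) (nat_lit 371) (.n (nat_lit 156) (nat_lit 108) (.n (nat_lit 157) (nat_lit 108) (.n (nat_lit 158) (nat_lit 432) (.p (nat_lit 159) (nat_lit 432) (.n (nat_lit 160) (nat_lit 540) (.p (nat_lit 161) (nat_lit 270) (.p (nat_lit 163) (nat_lit 270) (.n (nat_lit 164) (nat_lit 270) (.n (nat_lit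 165) (nat_lit 324) (.n (nat_lit 166) (nat_lit 324) (.n (nat_lit 167) (nat_lit 756) (.p (nat_lit 168) (nat_lit 108) (.p (nat_lit 169) (nat_lit 108) (.p (nat_lit 171) (nat_lit 216) (.n (nat_lit 172) (nat_lit 216) (.n (nat_lit 173) (nat_lit 216) .z)))))))))))))))) (.ct dA4s_c277 (nat_lit 216) (nat_lit 10) (.s true (nat_lit 1) (nat_lit 13) (nat_lit 1) (nat_lit 6) (nat_lit 2) true (nat_lit 5) true (nat_lit 8) true (nat_lit 2) true (nat_lit 9) true (nat_lit 4) (.s false (nat_lit 1) (nat_lit 13) (nat_lit 2) (nat_lit 2) (nat_lit 5) true (nat_lit 1) true (nat_lit 5) true (nat_lit 2) true (nat_lit 8) true (nat_lit 8) (.s true (nat_lit 1) (nat_lit 31) (nat_lit 1) (nat_lit 2) (nat_lit 2) true (nat_lit 5) true (nat_lit 8) false (nat_lit 1) true (nat_lit 9) true (nat_lit 8) (.s true (nat_lit 1) (nat_lit 35) (nat_lit 2) (nat_lit 2) (nat_lit 0) true (nat_lit 6) true (nat_lit 10) false (nat_lit 2) true (nat_lit 8) true (nat_lit 8) (.e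 true (nat_lit 432) (nat_lit 65) (nat_lit 5) (nat_lit 5) (.e true (nat_lit 432) (nat_lit 66) (nat_lit 5) (nat_lit 5) (.e true (nat_lit 432) (nat_lit 107) (nat_lit 2) (nat_lit 8) (.e true (nat_lit 432) (nat_lit 117) (nat_lit 1) (nat_lit 9) (.e true (nat_lit 432) (nat_lit 118) (nat_lit 1) (nat_lit 9) (.e false (nat_lit 432) (nat_lit 119) (nat_lit 1) (nat_lit 9) (.e false (nat_lit 216) (nat_lit 54) (nat_lit 6) (nat_lit 4) (.e true (nat_lit 432) (nat_lit 94) (nat_lit 2) (nat_lit 8) (.e false (nat_lit 432) (nat_lit 95) (nat_lit 2) (nat_lit 8) (.e false (nat_lit 432) (nat_lit 98) (nat_lit 2) (nat_lit 8) (.e true (nat_lit 432) (nat_lit 99) (nat_lit 2) (nat_lit 8) (.e true (nat_lit 648) (nat_lit 100) (nat_lit 2) (nat_lit 8) (.e true (nat_lit 216) (nat_lit 102) (nat_lit 2) (nat_lit 8) (.e true (nat_lit 216) (nat_lit 104) (nat_lit 2) (nat_lit 8) (.e true (nat_lit 216) (nat_lit 70) (nat_lit 4) (nat_lit 6) (.e false (nat_lit 864)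 (nat_lit 97) (nat_lit 2) (nat_lit 8) (.e true (nat_lit 648) (nat_lit 101) (nat_lit 2) (nat_lit 8) (.e false (nat_lit 216) (nat_lit 105) (nat_lit 2) (nat_lit 8) (.e false (nat_lit 432) (nat_lit 106) (nat_lit 2) (nat_lit 8) (.e true (nat_lit 216) (nat_lit 109) (nat_lit 2) (nat_lit 8) .nil))))))))))))))))))))))))) (.nd (.nd (.nd .leaf (nat_lit 125953) (nat_lit 401) (.p (nat_lit 181) (nat_lit 216) .z) .df .leaf) (nat_lit 126976) (nat_lit 373) (.p (nat_lit 156) (nat_lit 972) (.p (nat_lit 157) (nat_lit 972) (.n (nat_lit 159) (nat_lit 864) (.p (nat_lit 160) (nat_lit 972) (.n (nat_lit 161) (nat_lit 918) (.n (nat_lit 162) (nat_lit 432) (.n (nat_lit 163) (nat_lit 54) (.n (nat_lit 164) (nat_lit 162) (.n (nat_lit 165) (nat_lit 108) (.p (nat_lit 166) (nat_lit 324) (.n (nat_lit 167) (nat_lit 108) (.p (nat_lit 168) (nat_lit 324) (.p (nat_lit 169) (nat_lit 324) (.p (nat_lit 170) (nat_lit 432) (.p (nat_lit 171) (nat_lit 432) .z)))))))))))))))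 (.ct dA4s_c277 (nat_lit 216) (nat_lit 10) (.s true (nat_lit 1) (nat_lit 6) (nat_lit 2) (nat_lit 6) (nat_lit 3) true (nat_lit 3) true (nat_lit 7) true (nat_lit 4) true (nat_lit 8) true (nat_lit 4) (.s true (nat_lit 1) (nat_lit 16) (nat_lit 6) (nat_lit 0) (nat_lit 1) true (nat_lit 1) true (nat_lit 9) true (nat_lit 0) true (nat_lit 4) true (nat_lit 10) (.s true (nat_lit 1) (nat_lit 25) (nat_lit 2) (nat_lit 2) (nat_lit 2) true (nat_lit 4) true (nat_lit 8) false (nat_lit 0) true (nat_lit 8) true (nat_lit 8) (.s false (nat_lit 1) (nat_lit 32) (nat_lit 2) (nat_lit 2) (nat_lit 1) true (nat_lit 5) true (nat_lit 9) false (nat_lit 1) true (nat_lit 8) true (nat_lit 8) (.e true (nat_lit 216) (nat_lit 49) (nat_lit 6) (nat_lit 4) (.e false (nat_lit 216) (nat_lit 50) (nat_lit 6) (nat_lit 4) (.e true (nat_lit 216) (nat_lit 51) (nat_lit 6) (nat_lit 4) (.e false (nat_lit 216) (nat_lit 53) (nat_lit 6) (nat_lit 4) (.e false (nat_lit 432)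 (nat_lit 103) (nat_lit 2) (nat_lit 8) (.e false (nat_lit 432) (nat_lit 122) (nat_lit 0) (nat_lit 10) (.e false (nat_lit 432) (nat_lit 123) (nat_lit 0) (nat_lit 10) (.e true (nat_lit 216) (nat_lit 52) (nat_lit 6) (nat_lit 4) (.e false (nat_lit 216) (nat_lit 107) (nat_lit 2) (nat_lit 8) (.e false (nat_lit 216) (nat_lit 66) (nat_lit 5) (nat_lit 5) (.e false (nat_lit 216) (nat_lit 118) (nat_lit 1) (nat_lit 9) (.e false (nat_lit 216) (nat_lit 109) (nat_lit 2) (nat_lit 8) (.e true (nat_lit 216) (nat_lit 101) (nat_lit 2) (nat_lit 8) .nil)))))))))))))))))) .leaf) (nat_lit 126977) (nat_lit 412) (.p (nat_lit 180) (nat_lit 432) (.p (nat_lit 181) (nat_lit 432) (.p (nat_lit 182) (nat_lit 648) .z))) (.ct dA4s_c37 (nat_lit 216) (nat_lit 6) (.s true (nat_lit 1) (nat_lit 36) (nat_lit 1) (nat_lit 1) (nat_lit 2) true (nat_lit 4) true (nat_lit 5) false (nat_lit 2) true (nat_lit 6) true (nat_lit 6) (.e true (nat_lit 216) (nat_lit 71) (nat_lit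 5) (nat_lit 4) (.e true (nat_lit 216) (nat_lit 114) (nat_lit 2) (nat_lit 5) (.e true (nat_lit 432) (nat_lit 125) (nat_lit 1) (nat_lit 6) (.e false (nat_lit 432) (nat_lit 122) (nat_lit 1) (nat_lit 6) (.e false (nat_lit 648) (nat_lit 123) (nat_lit 1) (nat_lit 6) .nil))))))) (.nd (.nd .leaf (nat_lit 128000) (nat_lit 364) (.n (nat_lit 156) (nat_lit 108) (.n (nat_lit 157) (nat_lit 108) (.p (nat_lit 158) (nat_lit 216) (.p (nat_lit 160) (nat_lit 108) (.n (nat_lit 161) (nat_lit 54) (.n (nat_lit 163) (nat_lit 54) (.n (nat_lit 164) (nat_lit 54) (.n (nat_lit 165) (nat_lit 216) (.n (nat_lit 166) (nat_lit 216) (.p (nat_lit 167) (nat_lit 108) (.p (nat_lit 168) (nat_lit 216) (.p (nat_lit 169) (nat_lit 108) .z)))))))))))) (.ct dA4s_c277 (nat_lit 432) (nat_lit 10) (.s false (nat_lit 3) (nat_lit 6) (nat_lit 2) (nat_lit 6) (nat_lit 3) true (nat_lit 3) true (nat_lit 7) true (nat_lit 4) true (nat_lit 8) true (nat_lit 4) (.s false (nat_lit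 3) (nat_lit 8) (nat_lit 6) (nat_lit 2) (nat_lit 2) true (nat_lit 0) true (nat_lit 8) true (nat_lit 3) true (nat_lit 4) true (nat_lit 8) (.s true (nat_lit 2) (nat_lit 16) (nat_lit 2) (nat_lit 5) (nat_lit 0) true (nat_lit 6) true (nat_lit 10) true (nat_lit 0) true (nat_lit 8) true (nat_lit 5) (.s false (nat_lit 3) (nat_lit 16) (nat_lit 3) (nat_lit 2) (nat_lit 2) true (nat_lit 3) true (nat_lit 8) true (nat_lit 0) true (nat_lit 7) true (nat_lit 8) (.s true (nat_lit 2) (nat_lit 26) (nat_lit 2) (nat_lit 2) (nat_lit 2) true (nat_lit 4) true (nat_lit 8) false (nat_lit 0) true (nat_lit 8) true (nat_lit 8) (.e true (nat_lit 432) (nat_lit 53) (nat_lit 6) (nat_lit 4) (.e true (nat_lit 864) (nat_lit 95) (nat_lit 2) (nat_lit 8) (.e true (nat_lit 432) (nat_lit 101) (nat_lit 2) (nat_lit 8) (.e true (nat_lit 432) (nat_lit 104) (nat_lit 2) (nat_lit 8) (.e true (nat_lit 432) (nat_lit 105) (nat_lit 2) (nat_lit 8) (.e false (nat_lit 864)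 (nat_lit 106) (nat_lit 2) (nat_lit 8) (.e false (nat_lit 432) (nat_lit 107) (nat_lit 2) (nat_lit 8) (.e false (nat_lit 432) (nat_lit 70) (nat_lit 4) (nat_lit 6) (.e false (nat_lit 432) (nat_lit 71) (nat_lit 4) (nat_lit 6) (.e true (nat_lit 864) (nat_lit 94) (nat_lit 2) (nat_lit 8) (.e false (nat_lit 864) (nat_lit 96) (nat_lit 2) (nat_lit 8) (.e false (nat_lit 864) (nat_lit 109) (nat_lit 2) (nat_lit 8) (.e false (nat_lit 432) (nat_lit 66) (nat_lit 5) (nat_lit 5) (.e false (nat_lit 432) (nat_lit 98) (nat_lit 2) (nat_lit 8) .nil)))))))))))))))))))) .leaf) (nat_lit 128001) (nat_lit 408) (.p (nat_lit 177) (nat_lit 648) (.p (nat_lit 178) (nat_lit 216) .z)) (.ct dA4s_c37 (nat_lit 432) (nat_lit 6) (.s true (nat_lit 1) (nat_lit 6) (nat_lit 2) (nat_lit 5) (nat_lit 5) true (nat_lit 1) true (nat_lit 4) true (nat_lit 3) true (nat_lit 5) true (nat_lit 4) (.s false (nat_lit 1) (nat_lit 11) (nat_lit 2) (nat_lit 2) (nat_lit 6) true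 (nat_lit 0) true (nat_lit 3) true (nat_lit 2) true (nat_lit 5) true (nat_lit 5) (.s false (nat_lit 1) (nat_lit 14) (nat_lit 1) (nat_lit 6) (nat_lit 2) true (nat_lit 4) true (nat_lit 5) true (nat_lit 1) true (nat_lit 6) true (nat_lit 3) (.s true (nat_lit 1) (nat_lit 16) (nat_lit 1) (nat_lit 5) (nat_lit 2) true (nat_lit 4) true (nat_lit 5) true (nat_lit 0) true (nat_lit 6) true (nat_lit 4) (.s false (nat_lit 1) (nat_lit 35) (nat_lit 2) (nat_lit 1) (nat_lit 2) true (nat_lit 3) true (nat_lit 5) false (nat_lit 1) true (nat_lit 5) true (nat_lit 6) (.e false (nat_lit 216) (nat_lit 70) (nat_lit 5) (nat_lit 4) (.e false (nat_lit 1512) (nat_lit 113) (nat_lit 2) (nat_lit 5) (.e false (nat_lit 432) (nat_lit 114) (nat_lit 2) (nat_lit 5) (.e false (nat_lit 216) (nat_lit 123) (nat_lit 1) (nat_lit 6) .nil)))))))))) .leaf))))))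

noncomputable def dA4s_t5 : Tr := (.nd dA4s_t3 (nat_lit 68613) (nat_lit 354) (.p (nat_lit 156) (nat_lit 216) (.p (nat_lit 157) (nat_lit 216) (.n (nat_lit 158) (nat_lit 432) (.n (nat_lit 160) (nat_lit 216) (.p (nat_lit 161) (nat_lit 108) (.p (nat_lit 162) (nat_lit 108) (.p (nat_lit 163) (nat_lit 108) (.n (nat_lit 164) (nat_lit 216) (.p (nat_lit 165) (nat_lit 108) (.p (nat_lit 166) (nat_lit 108) (.n (nat_lit 167) (nat_lit 540) (.n (nat_lit 168) (nat_lit 108) (.n (nat_lit 169) (nat_lit 540) (.p (nat_lit 171) (nat_lit 216) (.n (nat_lit 173) (nat_lit 216) .z))))))))))))))) (.ct dA4s_c277 (nat_lit 864) (nat_lit 5) (.s true (nat_lit 1) (nat_lit 6) (nat_lit 0) (nat_lit 5) (nat_lit 6) true (nat_lit 2) true (nat_lit 4) true (nat_lit 4) true (nat_lit 10) true (nat_lit 5) (.s true (nat_lit 2) (nat_lit 6) (nat_lit 1) (nat_lit 4) (nat_lit 6) true (nat_lit 1) true (nat_lit 4) true (nat_lit 4) true (nat_lit 9) true (nat_lit 6) (.s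 true (nat_lit 1) (nat_lit 6) (nat_lit 1) (nat_lit 6) (nat_lit 4) true (nat_lit 3) true (nat_lit 6) true (nat_lit 4) true (nat_lit 9) true (nat_lit 4) (.s true (nat_lit 6) (nat_lit 6) (nat_lit 2) (nat_lit 6) (nat_lit 3) true (nat_lit 3) true (nat_lit 7) true (nat_lit 4) true (nat_lit 8) true (nat_lit 4) (.s false (nat_lit 4) (nat_lit 10) (nat_lit 2) (nat_lit 6) (nat_lit 2) true (nat_lit 4) true (nat_lit 8) true (nat_lit 3) true (nat_lit 8) true (nat_lit 4) (.s true (nat_lit 8) (nat_lit 8) (nat_lit 6) (nat_lit 2) (nat_lit 2) true (nat_lit 0) true (nat_lit 8) true (nat_lit 3) true (nat_lit 4) true (nat_lit 8) (.s false (nat_lit 1) (nat_lit 13) (nat_lit 2) (nat_lit 1) (nat_lit 6) true (nat_lit 0) true (nat_lit 4) true (nat_lit 2) true (nat_lit 8) true (nat_lit 9) (.s false (nat_lit 2) (nat_lit 13) (nat_lit 2) (nat_lit 2) (nat_lit 5) true (nat_lit 1) true (nat_lit 5) true (nat_lit 2) true (nat_lit 8) true (nat_lit 8) (.s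 false (nat_lit 2) (nat_lit 15) (nat_lit 2) (nat_lit 2) (nat_lit 4) true (nat_lit 2) true (nat_lit 6) true (nat_lit 1) true (nat_lit 8) true (nat_lit 8) dA4s_i39)))))))))) dA4s_t4)

noncomputable def dA4s_t6 : Tr := (.nd dA4s_t2 (nat_lit 35852) (nat_lit 380) (.n (nat_lit 156) (nat_lit 972) (.n (nat_lit 157) (nat_lit 972) (.n (nat_lit 158) (nat_lit 648) (.p (nat_lit 159) (nat_lit 1296) (.n (nat_lit 160) (nat_lit 1620) (.p (nat_lit 161) (nat_lit 810) (.p (nat_lit 162) (nat_lit 432) (.p (nat_lit 163) (nat_lit 810) (.n (nat_lit 164) (nat_lit 270) (.n (nat_lit 165) (nat_lit 648) (.n (nat_lit 166) (nat_lit 648) (.n (nat_lit 167) (nat_lit 972) (.n (nat_lit 169) (nat_lit 324) (.p (nat_lit 171) (nat_lit 216) (.n (nat_lit 172) (nat_lit 216) .z))))))))))))))) (.ct dA4s_c277 (nat_lit 216) (nat_lit 2) (.s true (nat_lit 1) (nat_lit 35) (nat_lit 0) (nat_lit 2) (nat_lit 2) true (nat_lit 6) true (nat_lit 8) false (nat_lit 2) true (nat_lit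 10) true (nat_lit 8) (.e true (nat_lit 216) (nat_lit 70) (nat_lit 4) (nat_lit 6) (.e true (nat_lit 216) (nat_lit 95) (nat_lit 2) (nat_lit 8) (.e true (nat_lit 216) (nat_lit 96) (nat_lit 2) (nat_lit 8) (.e true (nat_lit 216) (nat_lit 97) (nat_lit 2) (nat_lit 8) (.e true (nat_lit 216) (nat_lit 99) (nat_lit 2) (nat_lit 8) (.e false (nat_lit 216) (nat_lit 100) (nat_lit 2) (nat_lit 8) (.e false (nat_lit 216) (nat_lit 101) (nat_lit 2) (nat_lit 8) (.e false (nat_lit 216) (nat_lit 102) (nat_lit 2) (nat_lit 8) (.e false (nat_lit 432) (nat_lit 122) (nat_lit 0) (nat_lit 10) (.e false (nat_lit 432) (nat_lit 123) (nat_lit 0) (nat_lit 10) (.e true (nat_lit 216) (nat_lit 124) (nat_lit 0) (nat_lit 10) (.e true (nat_lit 216) (nat_lit 106) (nat_lit 2) (nat_lit 8) .nil)))))))))))))) dA4s_t5)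

noncomputable def dA4s_cl : CL := (.c (nat_lit 256) (nat_lit 0) (nat_lit 1) (.c (nat_lit 16) (nat_lit 1) (nat_lit 1) (.c (nat_lit 1) (nat_lit 2) (nat_lit 1) (.c (nat_lit 272) (nat_lit 3) (nat_lit 1) (.c (nat_lit 32) (nat_lit 2032) (nat_lit 0) (.c (nat_lit 257) (nat_lit 4) (nat_lit 1) (.c (nat_lit 17) (nat_lit 5) (nat_lit 1) (.c (nat_lit 2) (nat_lit 6) (nat_lit 1) (.c (nat_lit 288) (nat_lit 7) (nat_lit 1) (.c (nat_lit 273) (nat_lit 8) (nat_lit 3) (.c (nat_lit 33) (nat_lit 11) (nat_lit 1) (.c (nat_lit 258) (nat_lit 12) (nat_lit 2) (.c (nat_lit 18) (nat_lit 14) (nat_lit 2) (.c (nat_lit 3) (nat_lit 16) (nat_lit 1) (.c (nat_lit 289) (nat_lit 17) (nat_lit 4) (.c (nat_lit 274) (nat_lit 21) (nat_lit 6) (.c (nat_lit 34) (nat_lit 27) (nat_lit 3) (.c (nat_lit 259) (nat_lit 30) (nat_lit 3) (.c (nat_lit 19) (nat_lit 33) (nat_lit 3) (.c (nat_lit 4) (nat_lit 36) (nat_lit 1) (.c (nat_lit 290) (nat_lit 37) (nat_lit 11) (.c (nat_lit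 275) (nat_lit 48) (nat_lit 11) (.c (nat_lit 35) (nat_lit 59) (nat_lit 5) (.c (nat_lit 260) (nat_lit 64) (nat_lit 4) (.c (nat_lit 20) (nat_lit 68) (nat_lit 4) (.c (nat_lit 5) (nat_lit 72) (nat_lit 1) (.c (nat_lit 291) (nat_lit 73) (nat_lit 21) (.c (nat_lit 276) (nat_lit 94) (nat_lit 16) (.c (nat_lit 36) (nat_lit 110) (nat_lit 6) (.c (nat_lit 261) (nat_lit 116) (nat_lit 5) (.c (nat_lit 21) (nat_lit 121) (nat_lit 5) (.c (nat_lit 292) (nat_lit 126) (nat_lit 30) (.c (nat_lit 277) (nat_lit 156) (nat_lit 19) (.c (nat_lit 37) (nat_lit 175) (nat_lit 8) .nil))))))))))))))))))))))))))))))))))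

noncomputable def dA4s_D : Dt := ⟨(nat_lit 79228162514264337593543950336), (nat_lit 39614081257132168796771975168), (nat_lit 216), (nat_lit 183), (nat_lit 1022661726588588075850808471493809719215238216325191224372462780907524737599317437746846715700678519982491990521042630460318391527186864665369127467293021166772488880679788674652435733285866753979425210573345500404913426163234868459636498307044802168563410957788729325759250321457927134870497038003580040093698403776916309792298445171323089268421192155958348461236897849251888209794675966676999253663070105284474148146756094064610662502819067383191054669200079603272625097376343056549611835194438148691598278521450360703330897610785217721580604052929843233749883883504039678373416402372195533866577158523247922181449975471323273185642265120792474138135436888603030433771763522744837930701052880740495879314356928120999104072386801073187385304402821677257011705211392179308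950157958366952136699355062872480423820954463603566477497342683051461926692747495642995185341517017582656179633022097968613851813307868896629851587923619253307215828794351835484172615750825173755098254221404180490206635274374243397974799509614145218116525642031405515946111694160694597003036956888935903204646471177613245958750449611203774201546299366983431778567583239931806952881780619196853118231489917289071946319797281919261714787892536627237562241634451280763060616287966710110587151687399758667194890510316549374323900501781371236904492597253), (nat_lit 12259964235583258618672858829777265972615452360768950068), dA4s_t6, dA4s_cl⟩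

noncomputable def dA4s_gs : BL := (.c (nat_lit 30) (nat_lit 3) (nat_lit 27) (nat_lit 3) (nat_lit 0) (.c (nat_lit 33) (nat_lit 3) (nat_lit 21) (nat_lit 6) (nat_lit 9) (.c (nat_lit 36) (nat_lit 1) (nat_lit 17) (nat_lit 4) (nat_lit 27) (.c (nat_lit 37) (nat_lit 11) (nat_lit 16) (nat_lit 1) (nat_lit 31) (.c (nat_lit 48) (nat_lit 11) (nat_lit 14) (nat_lit 2) (nat_lit 42) (.c (nat_lit 59) (nat_lit 5) (nat_lit 12) (nat_lit 2) (nat_lit 64) (.c (nat_lit 64) (nat_lit 4) (nat_lit 11) (nat_lit 1) (nat_lit 74) (.c (nat_lit 68) (nat_lit 4) (nat_lit 8) (nat_lit 3) (nat_lit 78) (.c (nat_lit 72) (nat_lit 1) (nat_lit 7) (nat_lit 1) (nat_lit 90) (.c (nat_lit 73) (nat_lit 21) (nat_lit 6) (nat_lit 1) (nat_lit 91) (.c (nat_lit 94) (nat_lit 16) (nat_lit 5) (nat_lit 1) (nat_lit 112) (.c (nat_lit 110) (nat_lit 6) (nat_lit 4) (nat_lit 1) (nat_lit 128) (.c (nat_lit 121) (nat_lit 5) (nat_lit 3) (nat_lit 1) (nat_lit 134) (.c (nat_lit 126) (nat_lit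 30) (nat_lit 2) (nat_lit 1) (nat_lit 139) (.c (nat_lit 156) (nat_lit 19) (nat_lit 1) (nat_lit 1) (nat_lit 169) (.c (nat_lit 175) (nat_lit 8) (nat_lit 0) (nat_lit 1) (nat_lit 188) (.c (nat_lit 2032) (nat_lit 0) (nat_lit 116) (nat_lit 5) (nat_lit 196) .nil)))))))))))))))))

noncomputable def dA4s_i45 : IL := (.s false (nat_lit 108839116800) (nat_lit 59) (nat_lit 0) (nat_lit 2) (nat_lit 2) true (nat_lit 11) true (nat_lit 13) false (nat_lit 5) true (nat_lit 15) true (nat_lit 13) (.s false (nat_lit 19642195408896) (nat_lit 62) (nat_lit 0) (nat_lit 2) (nat_lit 2) true (nat_lit 11) true (nat_lit 13) false (nat_lit 5) true (nat_lit 15) true (nat_lit 13) (.s false (nat_lit 31331131081344) (nat_lit 63) (nat_lit 0) (nat_lit 2) (nat_lit 2) true (nat_lit 11) true (nat_lit 13) false (nat_lit 5) true (nat_lit 15) true (nat_lit 13) (.s false (nat_lit 19696614967296) (nat_lit 62) (nat_lit 2) (nat_lit 0) (nat_lit 2) true (nat_lit 9)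 true (nat_lit 13) false (nat_lit 5) true (nat_lit 13) true (nat_lit 15) (.s false (nat_lit 41739778617984) (nat_lit 63) (nat_lit 2) (nat_lit 0) (nat_lit 2) true (nat_lit 9) true (nat_lit 13) false (nat_lit 5) true (nat_lit 13) true (nat_lit 15) (.s true (nat_lit 108839116800) (nat_lit 59) (nat_lit 2) (nat_lit 2) (nat_lit 0) true (nat_lit 11) true (nat_lit 15) false (nat_lit 5) true (nat_lit 13) true (nat_lit 13) (.s true (nat_lit 38710785997440) (nat_lit 63) (nat_lit 2) (nat_lit 2) (nat_lit 0) true (nat_lit 11) true (nat_lit 15) false (nat_lit 5) true (nat_lit 13) true (nat_lit 13) (.s false (nat_lit 97099797686400) (nat_lit 65) (nat_lit 1) (nat_lit 1) (nat_lit 2) true (nat_lit 10) true (nat_lit 13) false (nat_lit 6) true (nat_lit 14) true (nat_lit 14) (.s false (nat_lit 179216349057792) (nat_lit 66) (nat_lit 1) (nat_lit 1) (nat_lit 2) true (nat_lit 10) true (nat_lit 13) false (nat_lit 6) true (nat_lit 14) true (nat_lit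 14) (.s false (nat_lit 11106306275328) (nat_lit 67) (nat_lit 1) (nat_lit 1) (nat_lit 2) true (nat_lit 10) true (nat_lit 13) false (nat_lit 6) true (nat_lit 14) true (nat_lit 14) (.s false (nat_lit 366079666437504) (nat_lit 65) (nat_lit 2) (nat_lit 1) (nat_lit 1) true (nat_lit 10) true (nat_lit 14) false (nat_lit 6) true (nat_lit 13) true (nat_lit 14) (.s false (nat_lit 159463545896448) (nat_lit 66) (nat_lit 2) (nat_lit 1) (nat_lit 1) true (nat_lit 10) true (nat_lit 14) false (nat_lit 6) true (nat_lit 13) true (nat_lit 14) (.s false (nat_lit 13369797107712) (nat_lit 67) (nat_lit 2) (nat_lit 1) (nat_lit 1) true (nat_lit 10) true (nat_lit 14) false (nat_lit 6) true (nat_lit 13) true (nat_lit 14) (.s true (nat_lit 31399677050112) (nat_lit 69) (nat_lit 0) (nat_lit 1) (nat_lit 2) true (nat_lit 11) true (nat_lit 13) false (nat_lit 7) true (nat_lit 15) true (nat_lit 14) (.s false (nat_lit 171777739620096) (nat_lit 70) (nat_lit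 0) (nat_lit 1) (nat_lit 2) true (nat_lit 11) true (nat_lit 13) false (nat_lit 7) true (nat_lit 15) true (nat_lit 14) (.s false (nat_lit 178730064953856) (nat_lit 70) (nat_lit 0) (nat_lit 2) (nat_lit 1) true (nat_lit 12) true (nat_lit 14) false (nat_lit 7) true (nat_lit 15) true (nat_lit 13) (.s true (nat_lit 3869956196352) (nat_lit 71) (nat_lit 0) (nat_lit 2) (nat_lit 1) true (nat_lit 12) true (nat_lit 14) false (nat_lit 7) true (nat_lit 15) true (nat_lit 13) (.s true (nat_lit 185237555747328) (nat_lit 69) (nat_lit 1) (nat_lit 0) (nat_lit 2) true (nat_lit 10) true (nat_lit 13) false (nat_lit 7) true (nat_lit 14) true (nat_lit 15) (.s false (nat_lit 9013692856320) (nat_lit 71) (nat_lit 1) (nat_lit 0) (nat_lit 2) true (nat_lit 10) true (nat_lit 13) false (nat_lit 7) true (nat_lit 14) true (nat_lit 15) (.s true (nat_lit 311409029799936) (nat_lit 69) (nat_lit 1) (nat_lit 2) (nat_lit 0) true (nat_lit 12) true (nat_lit 15)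 false (nat_lit 7) true (nat_lit 14) true (nat_lit 13) (.s true (nat_lit 111410078137344) (nat_lit 70) (nat_lit 1) (nat_lit 2) (nat_lit 0) true (nat_lit 12) true (nat_lit 15) false (nat_lit 7) true (nat_lit 14) true (nat_lit 13) (.s false (nat_lit 181127427899904) (nat_lit 70) (nat_lit 2) (nat_lit 0) (nat_lit 1) true (nat_lit 10) true (nat_lit 14) false (nat_lit 7) true (nat_lit 13) true (nat_lit 15) (.s true (nat_lit 85336624666368) (nat_lit 69) (nat_lit 2) (nat_lit 1) (nat_lit 0) true (nat_lit 11) true (nat_lit 15) false (nat_lit 7) true (nat_lit 13) true (nat_lit 14) (.s false (nat_lit 114662326996224) (nat_lit 70) (nat_lit 2) (nat_lit 1) (nat_lit 0) true (nat_lit 11) true (nat_lit 15) false (nat_lit 7) true (nat_lit 13) true (nat_lit 14) (.s true (nat_lit 6321738700800) (nat_lit 72) (nat_lit 0) (nat_lit 1) (nat_lit 1) true (nat_lit 12) true (nat_lit 14) false (nat_lit 8) true (nat_lit 15) true (nat_lit 14) .nil)))))))))))))))))))))))))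

noncomputable def dA4s_i46 : IL := (.s true (nat_lit 196520975010432) (nat_lit 49) (nat_lit 1) (nat_lit 2) (nat_lit 2) true (nat_lit 10) true (nat_lit 13) false (nat_lit 4) true (nat_lit 14) true (nat_lit 13) (.s false (nat_lit 34836158788992) (nat_lit 50) (nat_lit 1) (nat_lit 2) (nat_lit 2) true (nat_lit 10) true (nat_lit 13) false (nat_lit 4) true (nat_lit 14) true (nat_lit 13) (.s true (nat_lit 124140241360512) (nat_lit 51) (nat_lit 1) (nat_lit 2) (nat_lit 2) true (nat_lit 10) true (nat_lit 13) false (nat_lit 4) true (nat_lit 14) true (nat_lit 13) (.s true (nat_lit 23063893167744) (nat_lit 53) (nat_lit 1) (nat_lit 2) (nat_lit 2) true (nat_lit 10) true (nat_lit 13) false (nat_lit 4) true (nat_lit 14) true (nat_lit 13) (.s false (nat_lit 4725794451456) (nat_lit 55) (nat_lit 1) (nat_lit 2) (nat_lit 2) true (nat_lit 10) true (nat_lit 13) false (nat_lit 4) true (nat_lit 14) true (nat_lit 13) (.s false (nat_lit 67276428494976)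 (nat_lit 56) (nat_lit 1) (nat_lit 2) (nat_lit 2) true (nat_lit 10) true (nat_lit 13) false (nat_lit 4) true (nat_lit 14) true (nat_lit 13) (.s false (nat_lit 111767501261952) (nat_lit 57) (nat_lit 1) (nat_lit 2) (nat_lit 2) true (nat_lit 10) true (nat_lit 13) false (nat_lit 4) true (nat_lit 14) true (nat_lit 13) (.s true (nat_lit 68251014761472) (nat_lit 48) (nat_lit 2) (nat_lit 1) (nat_lit 2) true (nat_lit 9) true (nat_lit 13) false (nat_lit 4) true (nat_lit 13) true (nat_lit 14) (.s true (nat_lit 194984529478272) (nat_lit 49) (nat_lit 2) (nat_lit 1) (nat_lit 2) true (nat_lit 9) true (nat_lit 13) false (nat_lit 4) true (nat_lit 13) true (nat_lit 14) (.s false (nat_lit 31928340385152) (nat_lit 50) (nat_lit 2) (nat_lit 1) (nat_lit 2) true (nat_lit 9) true (nat_lit 13) false (nat_lit 4) true (nat_lit 13) true (nat_lit 14) (.s true (nat_lit 121286842515072) (nat_lit 51) (nat_lit 2) (nat_lit 1) (nat_lit 2) true (nat_lit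 9) true (nat_lit 13) false (nat_lit 4) true (nat_lit 13) true (nat_lit 14) (.s false (nat_lit 66925399668480) (nat_lit 52) (nat_lit 2) (nat_lit 1) (nat_lit 2) true (nat_lit 9) true (nat_lit 13) false (nat_lit 4) true (nat_lit 13) true (nat_lit 14) (.s true (nat_lit 43124030785152) (nat_lit 53) (nat_lit 2) (nat_lit 1) (nat_lit 2) true (nat_lit 9) true (nat_lit 13) false (nat_lit 4) true (nat_lit 13) true (nat_lit 14) (.s true (nat_lit 76705796078208) (nat_lit 54) (nat_lit 2) (nat_lit 1) (nat_lit 2) true (nat_lit 9) true (nat_lit 13) false (nat_lit 4) true (nat_lit 13) true (nat_lit 14) (.s false (nat_lit 78661430933760) (nat_lit 55) (nat_lit 2) (nat_lit 1) (nat_lit 2) true (nat_lit 9) true (nat_lit 13) false (nat_lit 4) true (nat_lit 13) true (nat_lit 14) (.s false (nat_lit 72326563514496) (nat_lit 56) (nat_lit 2) (nat_lit 1) (nat_lit 2) true (nat_lit 9) true (nat_lit 13) false (nat_lit 4) true (nat_lit 13) true (nat_lit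 14) (.s false (nat_lit 101455357742208) (nat_lit 57) (nat_lit 2) (nat_lit 1) (nat_lit 2) true (nat_lit 9) true (nat_lit 13) false (nat_lit 4) true (nat_lit 13) true (nat_lit 14) (.s false (nat_lit 50915029538304) (nat_lit 48) (nat_lit 2) (nat_lit 2) (nat_lit 1) true (nat_lit 10) true (nat_lit 14) false (nat_lit 4) true (nat_lit 13) true (nat_lit 13) (.s false (nat_lit 167729309947008) (nat_lit 49) (nat_lit 2) (nat_lit 2) (nat_lit 1) true (nat_lit 10) true (nat_lit 14) false (nat_lit 4) true (nat_lit 13) true (nat_lit 13) (.s true (nat_lit 21261018547584) (nat_lit 50) (nat_lit 2) (nat_lit 2) (nat_lit 1) true (nat_lit 10) true (nat_lit 14) false (nat_lit 4) true (nat_lit 13) true (nat_lit 13) (.s false (nat_lit 111367608206976) (nat_lit 51) (nat_lit 2) (nat_lit 2) (nat_lit 1) true (nat_lit 10) true (nat_lit 14) false (nat_lit 4) true (nat_lit 13) true (nat_lit 13) (.s false (nat_lit 36455367399552) (nat_lit 53) (nat_lit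 2) (nat_lit 2) (nat_lit 1) true (nat_lit 10) true (nat_lit 14) false (nat_lit 4) true (nat_lit 13) true (nat_lit 13) (.s true (nat_lit 303104151691776) (nat_lit 54) (nat_lit 2) (nat_lit 2) (nat_lit 1) true (nat_lit 10) true (nat_lit 14) false (nat_lit 4) true (nat_lit 13) true (nat_lit 13) (.s true (nat_lit 61412857126272) (nat_lit 56) (nat_lit 2) (nat_lit 2) (nat_lit 1) true (nat_lit 10) true (nat_lit 14) false (nat_lit 4) true (nat_lit 13) true (nat_lit 13) (.s true (nat_lit 107140206211200) (nat_lit 57) (nat_lit 2) (nat_lit 2) (nat_lit 1) true (nat_lit 10) true (nat_lit 14) false (nat_lit 4) true (nat_lit 13) true (nat_lit 13) dA4s_i45)))))))))))))))))))))))))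

noncomputable def dA4s_i47 : IL := (.s false (nat_lit 57696250710528) (nat_lit 32) (nat_lit 1) (nat_lit 1) (nat_lit 6) true (nat_lit 4) true (nat_lit 9) false (nat_lit 0) true (nat_lit 14) true (nat_lit 14) (.s false (nat_lit 141389427388032) (nat_lit 31) (nat_lit 1) (nat_lit 2) (nat_lit 5) true (nat_lit 6) true (nat_lit 10) false (nat_lit 0) true (nat_lit 14) true (nat_lit 13) (.s false (nat_lit 132555885944832) (nat_lit 31) (nat_lit 1) (nat_lit 5) (nat_lit 2) true (nat_lit 10) true (nat_lit 13) false (nat_lit 0) true (nat_lit 14) true (nat_lit 10) (.s true (nat_lit 77712353835264) (nat_lit 32) (nat_lit 1) (nat_lit 5) (nat_lit 2) true (nat_lit 10) true (nat_lit 13) false (nat_lit 0) true (nat_lit 14) true (nat_lit 10) (.s false (nat_lit 50815146973824) (nat_lit 32) (nat_lit 1) (nat_lit 6) (nat_lit 1) false (nat_lit 16) true (nat_lit 14) false (nat_lit 0) true (nat_lit 14) true (nat_lit 9) (.s true (nat_lit 148752393639552)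 (nat_lit 31) (nat_lit 2) (nat_lit 5) (nat_lit 1) true (nat_lit 10) true (nat_lit 14) false (nat_lit 0) true (nat_lit 13) true (nat_lit 10) (.s true (nat_lit 659723771520) (nat_lit 31) (nat_lit 5) (nat_lit 1) (nat_lit 2) true (nat_lit 4) true (nat_lit 13) false (nat_lit 0) true (nat_lit 10) true (nat_lit 14) (.s true (nat_lit 69538536163584) (nat_lit 32) (nat_lit 5) (nat_lit 1) (nat_lit 2) true (nat_lit 4) true (nat_lit 13) false (nat_lit 0) true (nat_lit 10) true (nat_lit 14) (.s true (nat_lit 3289118109696) (nat_lit 32) (nat_lit 5) (nat_lit 2) (nat_lit 1) true (nat_lit 6) true (nat_lit 14) false (nat_lit 0) true (nat_lit 10) true (nat_lit 13) (.s false (nat_lit 140731109455104) (nat_lit 31) (nat_lit 6) (nat_lit 1) (nat_lit 1) true (nat_lit 4) true (nat_lit 14) false (nat_lit 0) true (nat_lit 9) true (nat_lit 14) (.s false (nat_lit 47952383429376) (nat_lit 35) (nat_lit 0) (nat_lit 1) (nat_lit 6) true (nat_lit 5) true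 (nat_lit 9) false (nat_lit 1) true (nat_lit 15) true (nat_lit 14) (.s true (nat_lit 44207592217344) (nat_lit 34) (nat_lit 0) (nat_lit 6) (nat_lit 1) true (nat_lit 12) true (nat_lit 14) false (nat_lit 1) true (nat_lit 15) true (nat_lit 9) (.s true (nat_lit 24293480414976) (nat_lit 34) (nat_lit 1) (nat_lit 6) (nat_lit 0) true (nat_lit 12) true (nat_lit 15) false (nat_lit 1) true (nat_lit 14) true (nat_lit 9) (.s true (nat_lit 108839116800) (nat_lit 33) (nat_lit 2) (nat_lit 2) (nat_lit 3) true (nat_lit 7) true (nat_lit 12) false (nat_lit 1) true (nat_lit 13) true (nat_lit 13) (.s true (nat_lit 47952383429376) (nat_lit 35) (nat_lit 2) (nat_lit 2) (nat_lit 3) true (nat_lit 7) true (nat_lit 12) false (nat_lit 1) true (nat_lit 13) true (nat_lit 13) (.s true (nat_lit 70092708666624) (nat_lit 34) (nat_lit 2) (nat_lit 3) (nat_lit 2) true (nat_lit 9) true (nat_lit 13) false (nat_lit 1) true (nat_lit 13) true (nat_lit 12) (.s false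 (nat_lit 1634763534336) (nat_lit 35) (nat_lit 2) (nat_lit 3) (nat_lit 2) true (nat_lit 9) true (nat_lit 13) false (nat_lit 1) true (nat_lit 13) true (nat_lit 12) (.s false (nat_lit 528958107648) (nat_lit 35) (nat_lit 2) (nat_lit 4) (nat_lit 1) true (nat_lit 10) true (nat_lit 14) false (nat_lit 1) true (nat_lit 13) true (nat_lit 11) (.s true (nat_lit 2800793272320) (nat_lit 33) (nat_lit 3) (nat_lit 2) (nat_lit 2) true (nat_lit 7) true (nat_lit 13) false (nat_lit 1) true (nat_lit 12) true (nat_lit 13) (.s false (nat_lit 54419558400) (nat_lit 33) (nat_lit 4) (nat_lit 1) (nat_lit 2) true (nat_lit 5) true (nat_lit 13) false (nat_lit 1) true (nat_lit 11) true (nat_lit 14) (.s false (nat_lit 2397362946048) (nat_lit 35) (nat_lit 4) (nat_lit 2) (nat_lit 1) true (nat_lit 7) true (nat_lit 14) false (nat_lit 1) true (nat_lit 11) true (nat_lit 13) (.s false (nat_lit 3869956196352) (nat_lit 36) (nat_lit 1) (nat_lit 1) (nat_lit 4)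 true (nat_lit 7) true (nat_lit 11) false (nat_lit 2) true (nat_lit 14) true (nat_lit 14) (.s true (nat_lit 9013692856320) (nat_lit 36) (nat_lit 3) (nat_lit 1) (nat_lit 2) true (nat_lit 7) true (nat_lit 13) false (nat_lit 2) true (nat_lit 12) true (nat_lit 14) (.s false (nat_lit 17843084808192) (nat_lit 43) (nat_lit 2) (nat_lit 2) (nat_lit 2) true (nat_lit 9) true (nat_lit 13) false (nat_lit 3) true (nat_lit 13) true (nat_lit 13) (.s true (nat_lit 75651349109760) (nat_lit 48) (nat_lit 1) (nat_lit 2) (nat_lit 2) true (nat_lit 10) true (nat_lit 13) false (nat_lit 4) true (nat_lit 14) true (nat_lit 13) dA4s_i46)))))))))))))))))))))))))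

noncomputable def dA4s_i48 : IL := (.s true (nat_lit 1926180269568) (nat_lit 20) (nat_lit 6) (nat_lit 2) (nat_lit 2) true (nat_lit 3) true (nat_lit 13) true (nat_lit 2) true (nat_lit 9) true (nat_lit 13) (.s true (nat_lit 31143043482624) (nat_lit 21) (nat_lit 1) (nat_lit 2) (nat_lit 6) true (nat_lit 4) true (nat_lit 9) true (nat_lit 1) true (nat_lit 14) true (nat_lit 13) (.s true (nat_lit 1053562650624) (nat_lit 22) (nat_lit 1) (nat_lit 2) (nat_lit 6) true (nat_lit 4) true (nat_lit 9) true (nat_lit 1) true (nat_lit 14) true (nat_lit 13) (.s true (nat_lit 7044543810432) (nat_lit 25) (nat_lit 1) (nat_lit 2) (nat_lit 6) true (nat_lit 4) true (nat_lit 9) true (nat_lit 1) true (nat_lit 14) true (nat_lit 13) (.s false (nat_lit 8488725516288) (nat_lit 26) (nat_lit 1) (nat_lit 6) (nat_lit 2) true (nat_lit 10) true (nat_lit 13) true (nat_lit 1) true (nat_lit 14) true (nat_lit 9) (.s true (nat_lit 23556594244608) (nat_lit 21)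 (nat_lit 2) (nat_lit 1) (nat_lit 6) true (nat_lit 3) true (nat_lit 9) true (nat_lit 1) true (nat_lit 13) true (nat_lit 14) (.s false (nat_lit 9221212772352) (nat_lit 21) (nat_lit 2) (nat_lit 2) (nat_lit 5) true (nat_lit 4) true (nat_lit 10) true (nat_lit 1) true (nat_lit 13) true (nat_lit 13) (.s false (nat_lit 2960423976960) (nat_lit 22) (nat_lit 2) (nat_lit 2) (nat_lit 5) true (nat_lit 4) true (nat_lit 10) true (nat_lit 1) true (nat_lit 13) true (nat_lit 13) (.s true (nat_lit 8488725516288) (nat_lit 26) (nat_lit 2) (nat_lit 2) (nat_lit 5) true (nat_lit 4) true (nat_lit 10) true (nat_lit 1) true (nat_lit 13) true (nat_lit 13) (.s true (nat_lit 6799179626496) (nat_lit 21) (nat_lit 2) (nat_lit 5) (nat_lit 2) true (nat_lit 9) true (nat_lit 13) true (nat_lit 1) true (nat_lit 13) true (nat_lit 10) (.s true (nat_lit 11538760366080) (nat_lit 22) (nat_lit 2) (nat_lit 5) (nat_lit 2) true (nat_lit 9) true (nat_lit 13) true (nat_lit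 1) true (nat_lit 13) true (nat_lit 10) (.s false (nat_lit 7196079605760) (nat_lit 23) (nat_lit 2) (nat_lit 5) (nat_lit 2) true (nat_lit 9) true (nat_lit 13) true (nat_lit 1) true (nat_lit 13) true (nat_lit 10) (.s true (nat_lit 7196079605760) (nat_lit 24) (nat_lit 2) (nat_lit 5) (nat_lit 2) true (nat_lit 9) true (nat_lit 13) true (nat_lit 1) true (nat_lit 13) true (nat_lit 10) (.s true (nat_lit 70741299103488) (nat_lit 25) (nat_lit 2) (nat_lit 5) (nat_lit 2) true (nat_lit 9) true (nat_lit 13) true (nat_lit 1) true (nat_lit 13) true (nat_lit 10) (.s false (nat_lit 7130776135680) (nat_lit 26) (nat_lit 2) (nat_lit 5) (nat_lit 2) true (nat_lit 9) true (nat_lit 13) true (nat_lit 1) true (nat_lit 13) true (nat_lit 10) (.s false (nat_lit 8488725516288) (nat_lit 26) (nat_lit 2) (nat_lit 6) (nat_lit 1) true (nat_lit 10) true (nat_lit 14) true (nat_lit 1) true (nat_lit 13) true (nat_lit 9) (.s false (nat_lit 6908018743296) (nat_lit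 21) (nat_lit 5) (nat_lit 2) (nat_lit 2) true (nat_lit 4) true (nat_lit 13) true (nat_lit 1) true (nat_lit 10) true (nat_lit 13) (.s true (nat_lit 6624220746240) (nat_lit 25) (nat_lit 5) (nat_lit 2) (nat_lit 2) true (nat_lit 4) true (nat_lit 13) true (nat_lit 1) true (nat_lit 10) true (nat_lit 13) (.s true (nat_lit 23556594244608) (nat_lit 21) (nat_lit 6) (nat_lit 1) (nat_lit 2) true (nat_lit 3) true (nat_lit 13) true (nat_lit 1) true (nat_lit 9) true (nat_lit 14) (.s false (nat_lit 1906861326336) (nat_lit 22) (nat_lit 6) (nat_lit 1) (nat_lit 2) true (nat_lit 3) true (nat_lit 13) true (nat_lit 1) true (nat_lit 9) true (nat_lit 14) (.s true (nat_lit 94052597188608) (nat_lit 25) (nat_lit 6) (nat_lit 1) (nat_lit 2) true (nat_lit 3) true (nat_lit 13) true (nat_lit 1) true (nat_lit 9) true (nat_lit 14) (.s false (nat_lit 1906861326336) (nat_lit 22) (nat_lit 6) (nat_lit 2) (nat_lit 1) true (nat_lit 4) true (nat_lit 14) true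 (nat_lit 1) true (nat_lit 9) true (nat_lit 13) (.s false (nat_lit 6655874789376) (nat_lit 24) (nat_lit 6) (nat_lit 2) (nat_lit 1) true (nat_lit 4) true (nat_lit 14) true (nat_lit 1) true (nat_lit 9) true (nat_lit 13) (.s false (nat_lit 139923047037312) (nat_lit 29) (nat_lit 2) (nat_lit 6) (nat_lit 0) true (nat_lit 11) true (nat_lit 15) true (nat_lit 0) true (nat_lit 13) true (nat_lit 9) (.s false (nat_lit 54419558400) (nat_lit 28) (nat_lit 4) (nat_lit 2) (nat_lit 2) true (nat_lit 5) true (nat_lit 13) true (nat_lit 0) true (nat_lit 11) true (nat_lit 13) dA4s_i47)))))))))))))))))))))))))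

noncomputable def dA4s_i49 : IL := (.s false (nat_lit 85818781953792) (nat_lit 15) (nat_lit 2) (nat_lit 3) (nat_lit 6) true (nat_lit 3) true (nat_lit 9) true (nat_lit 4) true (nat_lit 13) true (nat_lit 12) (.s false (nat_lit 13755631776768) (nat_lit 15) (nat_lit 2) (nat_lit 6) (nat_lit 3) true (nat_lit 7) true (nat_lit 12) true (nat_lit 4) true (nat_lit 13) true (nat_lit 9) (.s false (nat_lit 4397100318720) (nat_lit 14) (nat_lit 2) (nat_lit 9) (nat_lit 2) true (nat_lit 9) true (nat_lit 13) true (nat_lit 4) true (nat_lit 13) true (nat_lit 7) (.s true (nat_lit 65303470080) (nat_lit 14) (nat_lit 5) (nat_lit 4) (nat_lit 2) true (nat_lit 4) true (nat_lit 13) true (nat_lit 4) true (nat_lit 10) true (nat_lit 11) (.s false (nat_lit 7304918722560) (nat_lit 14) (nat_lit 6) (nat_lit 2) (nat_lit 3) true (nat_lit 1) true (nat_lit 12) true (nat_lit 4) true (nat_lit 9) true (nat_lit 13) (.s true (nat_lit 54343212294528) (nat_lit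 15) (nat_lit 6) (nat_lit 4) (nat_lit 1) true (nat_lit 4) true (nat_lit 14) true (nat_lit 4) true (nat_lit 9) true (nat_lit 11) (.s false (nat_lit 29391822093312) (nat_lit 15) (nat_lit 8) (nat_lit 2) (nat_lit 2) true (nat_lit 1) true (nat_lit 13) true (nat_lit 4) true (nat_lit 7) true (nat_lit 13) (.s true (nat_lit 54419558400) (nat_lit 14) (nat_lit 12) (nat_lit 1) (nat_lit 2) false (nat_lit 0) true (nat_lit 13) true (nat_lit 4) true (nat_lit 5) true (nat_lit 14) (.s true (nat_lit 4073848141824) (nat_lit 14) (nat_lit 13) (nat_lit 1) (nat_lit 2) false (nat_lit 0) true (nat_lit 13) true (nat_lit 4) true (nat_lit 5) true (nat_lit 14) (.s true (nat_lit 3947436042624) (nat_lit 15) (nat_lit 13) (nat_lit 1) (nat_lit 2) false (nat_lit 0) true (nat_lit 13) true (nat_lit 4) true (nat_lit 5) true (nat_lit 14) (.s true (nat_lit 77365519849728) (nat_lit 14) (nat_lit 13) (nat_lit 2) (nat_lit 1) true (nat_lit 1) true (nat_lit 14) true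 (nat_lit 4) true (nat_lit 5) true (nat_lit 13) (.s true (nat_lit 131215645595520) (nat_lit 15) (nat_lit 13) (nat_lit 2) (nat_lit 1) true (nat_lit 1) true (nat_lit 14) true (nat_lit 4) true (nat_lit 5) true (nat_lit 13) (.s false (nat_lit 1906861326336) (nat_lit 16) (nat_lit 0) (nat_lit 11) (nat_lit 2) true (nat_lit 11) true (nat_lit 13) true (nat_lit 3) true (nat_lit 15) true (nat_lit 6) (.s true (nat_lit 3729553735680) (nat_lit 16) (nat_lit 1) (nat_lit 1) (nat_lit 12) true (nat_lit 1) true (nat_lit 5) true (nat_lit 3) true (nat_lit 14) true (nat_lit 14) (.s true (nat_lit 7044543810432) (nat_lit 16) (nat_lit 1) (nat_lit 1) (nat_lit 13) true (nat_lit 1) true (nat_lit 5) true (nat_lit 3) true (nat_lit 14) true (nat_lit 14) (.s false (nat_lit 57177201497472) (nat_lit 16) (nat_lit 1) (nat_lit 3) (nat_lit 6) true (nat_lit 4) true (nat_lit 9) true (nat_lit 3) true (nat_lit 14) true (nat_lit 12) (.s true (nat_lit 14029362155520)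 (nat_lit 16) (nat_lit 1) (nat_lit 12) (nat_lit 1) false (nat_lit 16) true (nat_lit 14) true (nat_lit 3) true (nat_lit 14) true (nat_lit 5) (.s false (nat_lit 6326953908480) (nat_lit 16) (nat_lit 1) (nat_lit 13) (nat_lit 1) false (nat_lit 16) true (nat_lit 14) true (nat_lit 3) true (nat_lit 14) true (nat_lit 5) (.s false (nat_lit 6321738700800) (nat_lit 16) (nat_lit 2) (nat_lit 2) (nat_lit 7) true (nat_lit 2) true (nat_lit 8) true (nat_lit 3) true (nat_lit 13) true (nat_lit 13) (.s false (nat_lit 156242724332544) (nat_lit 16) (nat_lit 7) (nat_lit 2) (nat_lit 2) true (nat_lit 2) true (nat_lit 13) true (nat_lit 3) true (nat_lit 8) true (nat_lit 13) (.s true (nat_lit 85818781953792) (nat_lit 16) (nat_lit 15) (nat_lit 0) (nat_lit 1) true (nat_lit 0) true (nat_lit 14) true (nat_lit 3) true (nat_lit 4) true (nat_lit 15) (.s true (nat_lit 3028629823488) (nat_lit 17) (nat_lit 2) (nat_lit 2) (nat_lit 6) true (nat_lit 3) true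 (nat_lit 9) true (nat_lit 2) true (nat_lit 13) true (nat_lit 13) (.s true (nat_lit 1887542383104) (nat_lit 20) (nat_lit 2) (nat_lit 2) (nat_lit 6) true (nat_lit 3) true (nat_lit 9) true (nat_lit 2) true (nat_lit 13) true (nat_lit 13) (.s true (nat_lit 1926180269568) (nat_lit 20) (nat_lit 2) (nat_lit 6) (nat_lit 2) true (nat_lit 9) true (nat_lit 13) true (nat_lit 2) true (nat_lit 13) true (nat_lit 9) (.s false (nat_lit 153550770177024) (nat_lit 17) (nat_lit 6) (nat_lit 2) (nat_lit 2) true (nat_lit 3) true (nat_lit 13) true (nat_lit 2) true (nat_lit 9) true (nat_lit 13) dA4s_i48)))))))))))))))))))))))))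

noncomputable def dA4s_il : IL := (.s false (nat_lit 33706544805504) (nat_lit 6) (nat_lit 3) (nat_lit 6) (nat_lit 5) true (nat_lit 2) true (nat_lit 10) true (nat_lit 9) true (nat_lit 12) true (nat_lit 9) (.s true (nat_lit 3289118109696) (nat_lit 6) (nat_lit 5) (nat_lit 4) (nat_lit 5) true (nat_lit 0) true (nat_lit 10) true (nat_lit 9) true (nat_lit 10) true (nat_lit 11) (.s true (nat_lit 24226703081856) (nat_lit 7) (nat_lit 2) (nat_lit 6) (nat_lit 6) true (nat_lit 3) true (nat_lit 9) true (nat_lit 8) true (nat_lit 13) true (nat_lit 9) (.s false (nat_lit 94614751226880) (nat_lit 7) (nat_lit 6) (nat_lit 2) (nat_lit 6) false (nat_lit 2) true (nat_lit 9) true (nat_lit 8) true (nat_lit 9) true (nat_lit 13) (.s false (nat_lit 953430663168) (nat_lit 9) (nat_lit 1) (nat_lit 6) (nat_lit 6) true (nat_lit 4) true (nat_lit 9) true (nat_lit 7) true (nat_lit 14) true (nat_lit 9) (.s true (nat_lit 113036202566784) (nat_lit 10) (nat_lit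 1) (nat_lit 6) (nat_lit 6) true (nat_lit 4) true (nat_lit 9) true (nat_lit 7) true (nat_lit 14) true (nat_lit 9) (.s false (nat_lit 10313957505024) (nat_lit 8) (nat_lit 5) (nat_lit 6) (nat_lit 2) true (nat_lit 4) true (nat_lit 13) true (nat_lit 7) true (nat_lit 10) true (nat_lit 9) (.s true (nat_lit 99385849960704) (nat_lit 8) (nat_lit 6) (nat_lit 1) (nat_lit 6) false (nat_lit 2) true (nat_lit 9) true (nat_lit 7) true (nat_lit 9) true (nat_lit 14) (.s true (nat_lit 1906861326336) (nat_lit 9) (nat_lit 6) (nat_lit 5) (nat_lit 2) true (nat_lit 3) true (nat_lit 13) true (nat_lit 7) true (nat_lit 9) true (nat_lit 10) (.s true (nat_lit 90125319057408) (nat_lit 8) (nat_lit 6) (nat_lit 6) (nat_lit 1) true (nat_lit 4) true (nat_lit 14) true (nat_lit 7) true (nat_lit 9) true (nat_lit 9) (.s false (nat_lit 4875765684480) (nat_lit 9) (nat_lit 6) (nat_lit 6) (nat_lit 1) true (nat_lit 4) true (nat_lit 14) true (nat_lit 7) true (nat_lit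 9) true (nat_lit 9) (.s true (nat_lit 11462935781376) (nat_lit 11) (nat_lit 6) (nat_lit 2) (nat_lit 4) false (nat_lit 0) true (nat_lit 11) true (nat_lit 6) true (nat_lit 9) true (nat_lit 13) (.s false (nat_lit 75644864112384) (nat_lit 13) (nat_lit 1) (nat_lit 6) (nat_lit 5) true (nat_lit 6) true (nat_lit 10) true (nat_lit 5) true (nat_lit 14) true (nat_lit 9) (.s true (nat_lit 73400510824704) (nat_lit 13) (nat_lit 2) (nat_lit 11) (nat_lit 2) true (nat_lit 9) true (nat_lit 13) true (nat_lit 5) true (nat_lit 13) true (nat_lit 6) (.s false (nat_lit 65303470080) (nat_lit 14) (nat_lit 0) (nat_lit 2) (nat_lit 14) true (nat_lit 1) true (nat_lit 4) true (nat_lit 4) true (nat_lit 15) true (nat_lit 13) (.s false (nat_lit 24293480414976) (nat_lit 15) (nat_lit 0) (nat_lit 2) (nat_lit 15) true (nat_lit 1) true (nat_lit 4) true (nat_lit 4) true (nat_lit 15) true (nat_lit 13) (.s true (nat_lit 51623345440512) (nat_lit 15) (nat_lit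 0) (nat_lit 5) (nat_lit 6) true (nat_lit 5) true (nat_lit 9) true (nat_lit 4) true (nat_lit 15) true (nat_lit 10) (.s true (nat_lit 5050135019520) (nat_lit 15) (nat_lit 0) (nat_lit 14) (nat_lit 2) true (nat_lit 11) true (nat_lit 13) true (nat_lit 4) true (nat_lit 15) true (nat_lit 4) (.s true (nat_lit 54548940900096) (nat_lit 15) (nat_lit 1) (nat_lit 4) (nat_lit 6) true (nat_lit 4) true (nat_lit 9) true (nat_lit 4) true (nat_lit 14) true (nat_lit 11) (.s true (nat_lit 73291671707904) (nat_lit 14) (nat_lit 1) (nat_lit 13) (nat_lit 2) true (nat_lit 10) true (nat_lit 13) true (nat_lit 4) true (nat_lit 14) true (nat_lit 5) (.s true (nat_lit 2909632389120) (nat_lit 14) (nat_lit 2) (nat_lit 2) (nat_lit 8) true (nat_lit 1) true (nat_lit 7) true (nat_lit 4) true (nat_lit 13) true (nat_lit 13) (.s false (nat_lit 4397100318720) (nat_lit 14) (nat_lit 2) (nat_lit 2) (nat_lit 9) true (nat_lit 1) true (nat_lit 7) true (nat_lit 4)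 true (nat_lit 13) true (nat_lit 13) (.s false (nat_lit 65892244352256) (nat_lit 15) (nat_lit 2) (nat_lit 2) (nat_lit 8) true (nat_lit 1) true (nat_lit 7) true (nat_lit 4) true (nat_lit 13) true (nat_lit 13) dA4s_i49)))))))))))))))))))))))

theorem dA4s_chk : chk 5 idsM dA4s_D par1 (clsL [0,0,0,0,0,1,1,2]) A4xEx (.c (nat_lit 2) (nat_lit 1) (.c (nat_lit 2) (nat_lit 1) (.c (nat_lit 2) (nat_lit 1) (.c (nat_lit 2) (nat_lit 1) (.c (nat_lit 2) (nat_lit 1) (.c (nat_lit 1) (nat_lit 16) (.c (nat_lit 1) (nat_lit 16) (.c (nat_lit 0) (nat_lit 256) .nil)))))))) (nat_lit 420) (nat_lit 293) (nat_lit 5) dA4s_gs dA4s_il = true := by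
  decide +kernel

end Chk

/-- certificate of `A4xEx` -/
theorem cert_A4s : Cert.{u} 5 idsM par1 (clsL [0,0,0,0,0,1,1,2]) A4xEx :=
  Chk.chk_sound _ _ (by simp [idsM]) (by simp [idsM]) _ _ _ _ _ _ _ _ _ _ Chk.dA4s_chk

end Pool.Agent.MalP
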