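import Pool.Agent.MalP.BaseEx

/-! # Parities of generators -/

set_option autoImplicit false

namespace Pool.Agent.MalP

/-- the generators 0, 1 are odd -/
def par2 (g : ℕ) : Bool := Nat.ble g 1

/-- the generators 0, 1, 2 are odd -/
def par3 (g : ℕ) : Bool := Nat.ble g 2

end Pool.Agent.MalP
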