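import Pool.Agent.MalP.Check4
import Pool.Agent.MalP.AlBeEx
import Pool.Agent.MalP.CertPar

/-! # Certificate of BeEx -/

set_option autoImplicit false
set_option maxRecDepth 100000

namespace Pool.Agent.MalP

universe u

namespace Chk

noncomputable def dBe_c289 : Cm := .mk (nat_lit 17) (nat_lit 289) (nat_lit 20) (nat_lit 6) (.c (nat_lit 5) (nat_lit 1) (nat_lit 4) (nat_lit 1) (nat_lit 6) (.c (nat_lit 6) (nat_lit 1) (nat_lit 3) (nat_lit 1) (nat_lit 7) (.c (nat_lit 8) (nat_lit 2) (nat_lit 2) (nat_lit 1) (nat_lit 8) (.c (nat_lit 10) (nat_lit 3) (nat_lit 1) (nat_lit 1) (nat_lit 10) (.c (nat_lit 13) (nat_lit 2) (nat_lit 0) (nat_lit 1) (nat_lit 13) .nil)))))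

noncomputable def dBe_c274 : Cm := .mk (nat_lit 26) (nat_lit 274) (nat_lit 26) (nat_lit 6) (.c (nat_lit 6) (nat_lit 1) (nat_lit 5) (nat_lit 1) (nat_lit 6) (.c (nat_lit 7) (nat_lit 1) (nat_lit 3) (nat_lit 1) (nat_lit 7) (.c (nat_lit 10) (nat_lit 3) (nat_lit 2) (nat_lit 1) (nat_lit 8) (.c (nat_lit 15) (nat_lit 2) (nat_lit 1) (nat_lit 1) (nat_lit 11) (.c (nat_lit 17) (nat_lit 2) (nat_lit 0) (nat_lit 1) (nat_lit 13) .nil)))))

noncomputable def dBe_c34 : Cm := .mk (nat_lit 35) (nat_lit 34) (nat_lit 32) (nat_lit 3) (.c (nat_lit 6) (nat_lit 1) (nat_lit 6) (nat_lit 1) (nat_lit 3) (.c (nat_lit 7) (nat_lit 1) (nat_lit 4) (nat_lit 1) (nat_lit 4) (.c (nat_lit 13) (nat_lit 2) (nat_lit 2) (nat_lit 1) (nat_lit 5) (.c (nat_lit 17) (nat_lit 2) (nat_lit 1) (nat_lit 1) (nat_lit 7) .nil))))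

noncomputable def dBe_c259 : Cm := .mk (nat_lit 40) (nat_lit 259) (nat_lit 35) (nat_lit 3) (.c (nat_lit 7) (nat_lit 1) (nat_lit 5) (nat_lit 1) (nat_lit 3) (.c (nat_lit 15) (nat_lit 2) (nat_lit 2) (nat_lit 1) (nat_lit 4) (.c (nat_lit 19) (nat_lit 1) (nat_lit 0) (nat_lit 1) (nat_lit 6) .nil)))

noncomputable def dBe_c19 : Cm := .mk (nat_lit 44) (nat_lit 19) (nat_lit 38) (nat_lit 3) (.c (nat_lit 7) (nat_lit 1) (nat_lit 6) (nat_lit 1) (nat_lit 3) (.c (nat_lit 17) (nat_lit 2) (nat_lit 2) (nat_lit 1) (nat_lit 4) (.c (nat_lit 19) (nat_lit 1) (nat_lit 1) (nat_lit 1) (nat_lit 6) .nil)))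

noncomputable def dBe_c290 : Cm := .mk (nat_lit 49) (nat_lit 290) (nat_lit 42) (nat_lit 14) (.c (nat_lit 8) (nat_lit 2) (nat_lit 7) (nat_lit 1) (nat_lit 14) (.c (nat_lit 10) (nat_lit 3) (nat_lit 6) (nat_lit 1) (nat_lit 16) (.c (nat_lit 13) (nat_lit 2) (nat_lit 5) (nat_lit 1) (nat_lit 19) (.c (nat_lit 15) (nat_lit 2) (nat_lit 4) (nat_lit 1) (nat_lit 21) (.c (nat_lit 17) (nat_lit 2) (nat_lit 3) (nat_lit 1) (nat_lit 23) (.c (nat_lit 20) (nat_lit 6) (nat_lit 2) (nat_lit 1) (nat_lit 25) (.c (nat_lit 26) (nat_lit 6) (nat_lit 1) (nat_lit 1) (nat_lit 31) (.c (nat_lit 32) (nat_lit 3) (nat_lit 0) (nat_lit 1) (nat_lit 37) .nil))))))))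

noncomputable def dBe_c275 : Cm := .mk (nat_lit 75) (nat_lit 275) (nat_lit 56) (nat_lit 11) (.c (nat_lit 10) (nat_lit 3) (nat_lit 7) (nat_lit 1) (nat_lit 11) (.c (nat_lit 15) (nat_lit 2) (nat_lit 6) (nat_lit 1) (nat_lit 14) (.c (nat_lit 17) (nat_lit 2) (nat_lit 5) (nat_lit 1) (nat_lit 16) (.c (nat_lit 19) (nat_lit 1) (nat_lit 3) (nat_lit 1) (nat_lit 18) (.c (nat_lit 26) (nat_lit 6) (nat_lit 2) (nat_lit 1) (nat_lit 19) (.c (nat_lit 35) (nat_lit 3) (nat_lit 1) (nat_lit 1) (nat_lit 25) (.c (nat_lit 38) (nat_lit 3) (nat_lit 0) (nat_lit 1) (nat_lit 28) .nil)))))))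

noncomputable def dBe_c35 : Cm := .mk (nat_lit 95) (nat_lit 35) (nat_lit 67) (nat_lit 6) (.c (nat_lit 13) (nat_lit 2) (nat_lit 7) (nat_lit 1) (nat_lit 6) (.c (nat_lit 17) (nat_lit 2) (nat_lit 6) (nat_lit 1) (nat_lit 8) (.c (nat_lit 19) (nat_lit 1) (nat_lit 4) (nat_lit 1) (nat_lit 10) (.c (nat_lit 32) (nat_lit 3) (nat_lit 2) (nat_lit 1) (nat_lit 11) (.c (nat_lit 38) (nat_lit 3) (nat_lit 1) (nat_lit 1) (nat_lit 14) .nil)))))

noncomputable def dBe_c260 : Cm := .mk (nat_lit 106) (nat_lit 260) (nat_lit 73) (nat_lit 4) (.c (nat_lit 15) (nat_lit 2) (nat_lit 7) (nat_lit 1) (nat_lit 4) (.c (nat_lit 19) (nat_lit 1) (nat_lit 5) (nat_lit 1) (nat_lit 6) (.c (nat_lit 35) (nat_lit 3) (nat_lit 2) (nat_lit 1) (nat_lit 7) (.c (nat_lit 41) (nat_lit 1) (nat_lit 0) (nat_lit 1) (nat_lit 10) .nil))))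

noncomputable def dBe_c20 : Cm := .mk (nat_lit 113) (nat_lit 20) (nat_lit 77) (nat_lit 4) (.c (nat_lit 17) (nat_lit 2) (nat_lit 7) (nat_lit 1) (nat_lit 4) (.c (nat_lit 19) (nat_lit 1) (nat_lit 6) (nat_lit 1) (nat_lit 6) (.c (nat_lit 38) (nat_lit 3) (nat_lit 2) (nat_lit 1) (nat_lit 7) (.c (nat_lit 41) (nat_lit 1) (nat_lit 1) (nat_lit 1) (nat_lit 10) .nil))))

noncomputable def dBe_c291 : Cm := .mk (nat_lit 120) (nat_lit 291) (nat_lit 81) (nat_lit 26) (.c (nat_lit 15) (nat_lit 2) (nat_lit 13) (nat_lit 2) (nat_lit 26) (.c (nat_lit 17) (nat_lit 2) (nat_lit 10) (nat_lit 3) (nat_lit 30) (.c (nat_lit 19) (nat_lit 1) (nat_lit 8) (nat_lit 2) (nat_lit 36) (.c (nat_lit 20) (nat_lit 6) (nat_lit 7) (nat_lit 1) (nat_lit 38) (.c (nat_lit 26) (nat_lit 6) (nat_lit 6) (nat_lit 1) (nat_lit 44) (.c (nat_lit 32) (nat_lit 3) (nat_lit 5) (nat_lit 1) (nat_lit 50) (.c (nat_lit 35) (nat_lit 3) (nat_lit 4) (nat_lit 1)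 (nat_lit 53) (.c (nat_lit 38) (nat_lit 3) (nat_lit 3) (nat_lit 1) (nat_lit 56) (.c (nat_lit 42) (nat_lit 14) (nat_lit 2) (nat_lit 1) (nat_lit 59) (.c (nat_lit 56) (nat_lit 11) (nat_lit 1) (nat_lit 1) (nat_lit 73) (.c (nat_lit 67) (nat_lit 6) (nat_lit 0) (nat_lit 1) (nat_lit 84) .nil)))))))))))

noncomputable def dBe_c276 : Cm := .mk (nat_lit 183) (nat_lit 276) (nat_lit 107) (nat_lit 16) (.c (nat_lit 17) (nat_lit 2) (nat_lit 15) (nat_lit 2) (nat_lit 16) (.c (nat_lit 19) (nat_lit 1) (nat_lit 10) (nat_lit 3) (nat_lit 20) (.c (nat_lit 26) (nat_lit 6) (nat_lit 7) (nat_lit 1) (nat_lit 23) (.c (nat_lit 35) (nat_lit 3) (nat_lit 6) (nat_lit 1) (nat_lit 29) (.c (nat_lit 38) (nat_lit 3) (nat_lit 5) (nat_lit 1) (nat_lit 32) (.c (nat_lit 41) (nat_lit 1) (nat_lit 3) (nat_lit 1) (nat_lit 35) (.c (nat_lit 56) (nat_lit 11) (nat_lit 2) (nat_lit 1) (nat_lit 36) (.c (nat_lit 73) (nat_lit 4) (nat_lit 1) (nat_lit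 1) (nat_lit 47) (.c (nat_lit 77) (nat_lit 4) (nat_lit 0) (nat_lit 1) (nat_lit 51) .nil)))))))))

noncomputable def dBe_c36 : Cm := .mk (nat_lit 222) (nat_lit 36) (nat_lit 123) (nat_lit 10) (.c (nat_lit 17) (nat_lit 2) (nat_lit 17) (nat_lit 2) (nat_lit 10) (.c (nat_lit 19) (nat_lit 1) (nat_lit 13) (nat_lit 2) (nat_lit 14) (.c (nat_lit 32) (nat_lit 3) (nat_lit 7) (nat_lit 1) (nat_lit 16) (.c (nat_lit 38) (nat_lit 3) (nat_lit 6) (nat_lit 1) (nat_lit 19) (.c (nat_lit 41) (nat_lit 1) (nat_lit 4) (nat_lit 1) (nat_lit 22) (.c (nat_lit 67) (nat_lit 6) (nat_lit 2) (nat_lit 1) (nat_lit 23) (.c (nat_lit 77) (nat_lit 4) (nat_lit 1) (nat_lit 1) (nat_lit 29) .nil)))))))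

noncomputable def dBe_i0 : IL := (.s true (nat_lit 1) (nat_lit 15) (nat_lit 2) (nat_lit 1) (nat_lit 1) true (nat_lit 4) true (nat_lit 9) false (nat_lit 0) true (nat_lit 8) true (nat_lit 9) (.s false (nat_lit 1) (nat_lit 17) (nat_lit 2) (nat_lit 0) (nat_lit 1) true (nat_lit 4) true (nat_lit 9) false (nat_lit 1) true (nat_lit 8) true (nat_lit 10) (.e false (nat_lit 12) (nat_lit 43) (nat_lit 2) (nat_lit 8) (.e true (nat_lit 12) (nat_lit 44) (nat_lit 2) (nat_lit 8) (.e true (nat_lit 12) (nat_lit 45) (nat_lit 2) (nat_lit 8) (.e true (nat_lit 24) (nat_lit 46) (nat_lit 2) (nat_lit 8) (.e false (nat_lit 12) (nat_lit 47) (nat_lit 2) (nat_lit 8) (.e true (nat_lit 24) (nat_lit 55) (nat_lit 2) (nat_lit 8) (.e false (nat_lit 24) (nat_lit 28) (nat_lit 6) (nat_lit 4) (.e true (nat_lit 12) (nat_lit 68) (nat_lit 0) (nat_lit 10) (.e true (nat_lit 12) (nat_lit 69) (nat_lit 0) (nat_lit 10) (.e false (nat_lit 12)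 (nat_lit 70) (nat_lit 0) (nat_lit 10) (.e false (nat_lit 12) (nat_lit 26) (nat_lit 6) (nat_lit 4) (.e true (nat_lit 24) (nat_lit 27) (nat_lit 6) (nat_lit 4) (.e true (nat_lit 12) (nat_lit 56) (nat_lit 1) (nat_lit 9) (.e false (nat_lit 12) (nat_lit 60) (nat_lit 1) (nat_lit 9) (.e false (nat_lit 24) (nat_lit 61) (nat_lit 1) (nat_lit 9) (.e true (nat_lit 12) (nat_lit 62) (nat_lit 1) (nat_lit 9) (.e false (nat_lit 12) (nat_lit 67) (nat_lit 0) (nat_lit 10) (.e false (nat_lit 12) (nat_lit 72) (nat_lit 0) (nat_lit 10) (.e false (nat_lit 12) (nat_lit 25) (nat_lit 7) (nat_lit 3) (.e true (nat_lit 12) (nat_lit 52) (nat_lit 2) (nat_lit 8) (.e false (nat_lit 12) (nat_lit 23) (nat_lit 7) (nat_lit 3) (.e true (nat_lit 12) (nat_lit 65) (nat_lit 1) (nat_lit 9) (.e false (nat_lit 24) (nat_lit 58) (nat_lit 1) (nat_lit 9) .nil)))))))))))))))))))))))))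

noncomputable def dBe_i1 : IL := (.s true (nat_lit 1) (nat_lit 7) (nat_lit 2) (nat_lit 4) (nat_lit 0) true (nat_lit 5) true (nat_lit 10) true (nat_lit 3) true (nat_lit 8) true (nat_lit 6) (.s true (nat_lit 1) (nat_lit 11) (nat_lit 2) (nat_lit 2) (nat_lit 1) true (nat_lit 4) true (nat_lit 9) true (nat_lit 1) true (nat_lit 8) true (nat_lit 8) (.s true (nat_lit 1) (nat_lit 14) (nat_lit 2) (nat_lit 2) (nat_lit 0) true (nat_lit 5) true (nat_lit 10) true (nat_lit 0) true (nat_lit 8) true (nat_lit 8) (.s true (nat_lit 1) (nat_lit 16) (nat_lit 1) (nat_lit 2) (nat_lit 1) true (nat_lit 6) true (nat_lit 9) false (nat_lit 0) true (nat_lit 9) true (nat_lit 8) (.s true (nat_lit 1) (nat_lit 17) (nat_lit 0) (nat_lit 2) (nat_lit 1) true (nat_lit 7) true (nat_lit 9) false (nat_lit 1) true (nat_lit 10) true (nat_lit 8) (.s false (nat_lit 1) (nat_lit 17) (nat_lit 1) (nat_lit 0) (nat_lit 2) true (nat_lit 4) true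 (nat_lit 8) false (nat_lit 1) true (nat_lit 9) true (nat_lit 10) (.s true (nat_lit 1) (nat_lit 18) (nat_lit 2) (nat_lit 0) (nat_lit 1) true (nat_lit 4) true (nat_lit 9) false (nat_lit 1) true (nat_lit 8) true (nat_lit 10) (.e false (nat_lit 12) (nat_lit 43) (nat_lit 2) (nat_lit 8) (.e true (nat_lit 24) (nat_lit 44) (nat_lit 2) (nat_lit 8) (.e true (nat_lit 36) (nat_lit 46) (nat_lit 2) (nat_lit 8) (.e false (nat_lit 24) (nat_lit 47) (nat_lit 2) (nat_lit 8) (.e true (nat_lit 24) (nat_lit 53) (nat_lit 2) (nat_lit 8) (.e true (nat_lit 12) (nat_lit 55) (nat_lit 2) (nat_lit 8) (.e true (nat_lit 36) (nat_lit 68) (nat_lit 0) (nat_lit 10) (.e true (nat_lit 12) (nat_lit 69) (nat_lit 0) (nat_lit 10) (.e false (nat_lit 12) (nat_lit 71) (nat_lit 0) (nat_lit 10) (.e false (nat_lit 24) (nat_lit 29) (nat_lit 6) (nat_lit 4) (.e true (nat_lit 12) (nat_lit 26) (nat_lit 6) (nat_lit 4) (.e true (nat_lit 12) (nat_lit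 56) (nat_lit 1) (nat_lit 9) (.e true (nat_lit 12) (nat_lit 60) (nat_lit 1) (nat_lit 9) (.e false (nat_lit 24) (nat_lit 67) (nat_lit 0) (nat_lit 10) (.e false (nat_lit 24) (nat_lit 72) (nat_lit 0) (nat_lit 10) (.e false (nat_lit 12) (nat_lit 25) (nat_lit 7) (nat_lit 3) (.e true (nat_lit 12) (nat_lit 52) (nat_lit 2) (nat_lit 8) (.e false (nat_lit 12) (nat_lit 65) (nat_lit 1) (nat_lit 9) .nil)))))))))))))))))))))))))

noncomputable def dBe_i2 : IL := (.s false (nat_lit 9) (nat_lit 17) (nat_lit 1) (nat_lit 2) (nat_lit 0) true (nat_lit 7) true (nat_lit 10) false (nat_lit 1) true (nat_lit 9) true (nat_lit 8) (.s true (nat_lit 4) (nat_lit 18) (nat_lit 2) (nat_lit 0) (nat_lit 1) true (nat_lit 4) true (nat_lit 9) false (nat_lit 1) true (nat_lit 8) true (nat_lit 10) (.s true (nat_lit 1) (nat_lit 19) (nat_lit 1) (nat_lit 1) (nat_lit 0) true (nat_lit 7) true (nat_lit 10) false (nat_lit 2) true (nat_lit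 9) true (nat_lit 9) (.e false (nat_lit 72) (nat_lit 28) (nat_lit 6) (nat_lit 4) (.e false (nat_lit 120) (nat_lit 26) (nat_lit 6) (nat_lit 4) (.e true (nat_lit 72) (nat_lit 27) (nat_lit 6) (nat_lit 4) (.e true (nat_lit 48) (nat_lit 30) (nat_lit 6) (nat_lit 4) (.e true (nat_lit 12) (nat_lit 68) (nat_lit 0) (nat_lit 10) (.e false (nat_lit 96) (nat_lit 69) (nat_lit 0) (nat_lit 10) (.e false (nat_lit 72) (nat_lit 44) (nat_lit 2) (nat_lit 8) (.e false (nat_lit 72) (nat_lit 45) (nat_lit 2) (nat_lit 8) (.e false (nat_lit 48) (nat_lit 46) (nat_lit 2) (nat_lit 8) (.e true (nat_lit 84) (nat_lit 47) (nat_lit 2) (nat_lit 8) (.e false (nat_lit 60) (nat_lit 53) (nat_lit 2) (nat_lit 8) (.e true (nat_lit 72) (nat_lit 55) (nat_lit 2) (nat_lit 8) (.e false (nat_lit 36) (nat_lit 34) (nat_lit 5) (nat_lit 5) (.e true (nat_lit 36) (nat_lit 29) (nat_lit 6) (nat_lit 4) (.e true (nat_lit 36) (nat_lit 62) (nat_lit 1)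 (nat_lit 9) (.e false (nat_lit 12) (nat_lit 23) (nat_lit 7) (nat_lit 3) (.e false (nat_lit 12) (nat_lit 72) (nat_lit 0) (nat_lit 10) (.e false (nat_lit 48) (nat_lit 60) (nat_lit 1) (nat_lit 9) (.e true (nat_lit 84) (nat_lit 65) (nat_lit 1) (nat_lit 9) (.e false (nat_lit 12) (nat_lit 56) (nat_lit 1) (nat_lit 9) (.e true (nat_lit 24) (nat_lit 67) (nat_lit 0) (nat_lit 10) (.e true (nat_lit 36) (nat_lit 52) (nat_lit 2) (nat_lit 8) .nil)))))))))))))))))))))))))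

noncomputable def dBe_i3 : IL := (.s false (nat_lit 1) (nat_lit 6) (nat_lit 0) (nat_lit 2) (nat_lit 6) true (nat_lit 1) true (nat_lit 4) true (nat_lit 4) true (nat_lit 10) true (nat_lit 8) (.s false (nat_lit 1) (nat_lit 6) (nat_lit 5) (nat_lit 2) (nat_lit 1) true (nat_lit 1) true (nat_lit 9) true (nat_lit 4) true (nat_lit 5) true (nat_lit 8) (.s false (nat_lit 1) (nat_lit 10) (nat_lit 1) (nat_lit 2) (nat_lit 2) true (nat_lit 4) true (nat_lit 8) true (nat_lit 1) true (nat_lit 9) true (nat_lit 8) (.s true (nat_lit 1) (nat_lit 17) (nat_lit 0) (nat_lit 2) (nat_lit 1) true (nat_lit 7) true (nat_lit 9) false (nat_lit 1) true (nat_lit 10) true (nat_lit 8) (.s false (nat_lit 1) (nat_lit 17) (nat_lit 1) (nat_lit 0) (nat_lit 2) true (nat_lit 4) true (nat_lit 8) false (nat_lit 1) true (nat_lit 9) true (nat_lit 10) (.s false (nat_lit 1) (nat_lit 17) (nat_lit 1) (nat_lit 2) (nat_lit 0) true (nat_lit 7)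 true (nat_lit 10) false (nat_lit 1) true (nat_lit 9) true (nat_lit 8) (.e false (nat_lit 12) (nat_lit 28) (nat_lit 6) (nat_lit 4) (.e false (nat_lit 24) (nat_lit 26) (nat_lit 6) (nat_lit 4) (.e true (nat_lit 12) (nat_lit 27) (nat_lit 6) (nat_lit 4) (.e true (nat_lit 12) (nat_lit 30) (nat_lit 6) (nat_lit 4) (.e true (nat_lit 24) (nat_lit 31) (nat_lit 6) (nat_lit 4) (.e true (nat_lit 6) (nat_lit 68) (nat_lit 0) (nat_lit 10) (.e false (nat_lit 30) (nat_lit 69) (nat_lit 0) (nat_lit 10) (.e true (nat_lit 6) (nat_lit 70) (nat_lit 0) (nat_lit 10) (.e false (nat_lit 6) (nat_lit 71) (nat_lit 0) (nat_lit 10) (.e false (nat_lit 12) (nat_lit 56) (nat_lit 1) (nat_lit 9) (.e true (nat_lit 12) (nat_lit 60) (nat_lit 1) (nat_lit 9) (.e true (nat_lit 24) (nat_lit 61) (nat_lit 1) (nat_lit 9) (.e false (nat_lit 12) (nat_lit 29) (nat_lit 6) (nat_lit 4) (.e false (nat_lit 12) (nat_lit 43) (nat_lit 2) (nat_lit 8)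 (.e false (nat_lit 12) (nat_lit 45) (nat_lit 2) (nat_lit 8) (.e true (nat_lit 12) (nat_lit 47) (nat_lit 2) (nat_lit 8) (.e true (nat_lit 12) (nat_lit 55) (nat_lit 2) (nat_lit 8) (.e true (nat_lit 12) (nat_lit 65) (nat_lit 1) (nat_lit 9) (.e false (nat_lit 12) (nat_lit 72) (nat_lit 0) (nat_lit 10) .nil)))))))))))))))))))))))))

noncomputable def dBe_i4 : IL := (.s false (nat_lit 1) (nat_lit 11) (nat_lit 2) (nat_lit 2) (nat_lit 1) true (nat_lit 4) true (nat_lit 9) true (nat_lit 1) true (nat_lit 8) true (nat_lit 8) (.s false (nat_lit 1) (nat_lit 13) (nat_lit 2) (nat_lit 2) (nat_lit 0) true (nat_lit 5) true (nat_lit 10) true (nat_lit 0) true (nat_lit 8) true (nat_lit 8) (.s false (nat_lit 1) (nat_lit 17) (nat_lit 0) (nat_lit 2) (nat_lit 1) true (nat_lit 7) true (nat_lit 9) false (nat_lit 1) true (nat_lit 10) true (nat_lit 8) (.s true (nat_lit 1) (nat_lit 18) (nat_lit 1) (nat_lit 0) (nat_lit 2) true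 (nat_lit 4) true (nat_lit 8) false (nat_lit 1) true (nat_lit 9) true (nat_lit 10) (.s true (nat_lit 2) (nat_lit 17) (nat_lit 1) (nat_lit 2) (nat_lit 0) true (nat_lit 7) true (nat_lit 10) false (nat_lit 1) true (nat_lit 9) true (nat_lit 8) (.s false (nat_lit 1) (nat_lit 18) (nat_lit 2) (nat_lit 0) (nat_lit 1) true (nat_lit 4) true (nat_lit 9) false (nat_lit 1) true (nat_lit 8) true (nat_lit 10) (.e true (nat_lit 12) (nat_lit 28) (nat_lit 6) (nat_lit 4) (.e true (nat_lit 36) (nat_lit 26) (nat_lit 6) (nat_lit 4) (.e false (nat_lit 12) (nat_lit 27) (nat_lit 6) (nat_lit 4) (.e false (nat_lit 12) (nat_lit 30) (nat_lit 6) (nat_lit 4) (.e false (nat_lit 12) (nat_lit 31) (nat_lit 6) (nat_lit 4) (.e true (nat_lit 24) (nat_lit 69) (nat_lit 0) (nat_lit 10) (.e true (nat_lit 12) (nat_lit 44) (nat_lit 2) (nat_lit 8) (.e true (nat_lit 12) (nat_lit 45) (nat_lit 2) (nat_lit 8) (.e true (nat_lit 12) (nat_lit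 46) (nat_lit 2) (nat_lit 8) (.e false (nat_lit 24) (nat_lit 47) (nat_lit 2) (nat_lit 8) (.e true (nat_lit 12) (nat_lit 53) (nat_lit 2) (nat_lit 8) (.e false (nat_lit 12) (nat_lit 55) (nat_lit 2) (nat_lit 8) (.e false (nat_lit 12) (nat_lit 29) (nat_lit 6) (nat_lit 4) (.e true (nat_lit 12) (nat_lit 57) (nat_lit 1) (nat_lit 9) (.e false (nat_lit 12) (nat_lit 58) (nat_lit 1) (nat_lit 9) (.e true (nat_lit 12) (nat_lit 60) (nat_lit 1) (nat_lit 9) (.e false (nat_lit 12) (nat_lit 65) (nat_lit 1) (nat_lit 9) (.e false (nat_lit 12) (nat_lit 67) (nat_lit 0) (nat_lit 10) (.e false (nat_lit 12) (nat_lit 52) (nat_lit 2) (nat_lit 8) .nil)))))))))))))))))))))))))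

noncomputable def dBe_t0 : Tr := (.nd (.nd (.nd (.nd (.nd (.nd .leaf (nat_lit 1024) (nat_lit 0) (.p (nat_lit 3) (nat_lit 12) .z) .df .leaf) (nat_lit 1025) (nat_lit 1) (.p (nat_lit 4) (nat_lit 12) .z) .df (.nd .leaf (nat_lit 2048) (nat_lit 2) (.p (nat_lit 5) (nat_lit 12) .z) .df .leaf)) (nat_lit 2049) (nat_lit 3) (.p (nat_lit 6) (nat_lit 12) .z) .df (.nd (.nd .leaf (nat_lit 2050) (nat_lit 4) (.p (nat_lit 7) (nat_lit 12) .z) .df .leaf) (nat_lit 3073) (nat_lit 5) (.p (nat_lit 8) (nat_lit 12) .z) .df (.nd .leaf (nat_lit 3074) (nat_lit 7) (.p (nat_lit 10) (nat_lit 12) .z) .df .leaf))) (nat_lit 4096) (nat_lit 6) (.p (nat_lit 9) (nat_lit 12) .z) .df (.nd (.nd (.nd .leaf (nat_lit 4098) (nat_lit 10) (.p (nat_lit 13) (nat_lit 12) .z) .df .leaf) (nat_lit 5121) (nat_lit 8) (.p (nat_lit 11) (nat_lit 12) .z) .df (.nd .leaf (nat_lit 5122) (nat_lit 12) (.p (nat_lit 15) (nat_lit 12) .z) .df .leaf)) (nat_lit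 5124) (nat_lit 25) (.n (nat_lit 21) (nat_lit 12) (.n (nat_lit 22) (nat_lit 24) (.p (nat_lit 23) (nat_lit 24) (.p (nat_lit 24) (nat_lit 24) (.p (nat_lit 25) (nat_lit 12) .z))))) (.ct dBe_c289 (nat_lit 12) (nat_lit 0) (.s false (nat_lit 1) (nat_lit 2) (nat_lit 1) (nat_lit 0) (nat_lit 1) true (nat_lit 0) true (nat_lit 3) true (nat_lit 2) true (nat_lit 3) true (nat_lit 4) (.e false (nat_lit 12) (nat_lit 12) (nat_lit 1) (nat_lit 3) (.e false (nat_lit 12) (nat_lit 8) (nat_lit 2) (nat_lit 2) (.e true (nat_lit 12) (nat_lit 10) (nat_lit 1) (nat_lit 3) (.e false (nat_lit 12) (nat_lit 14) (nat_lit 0) (nat_lit 4) .nil)))))) (.nd (.nd .leaf (nat_lit 6144) (nat_lit 9) (.p (nat_lit 12) (nat_lit 12) .z) .df .leaf) (nat_lit 6145) (nat_lit 11) (.p (nat_lit 14) (nat_lit 12) .z) .df (.nd .leaf (nat_lit 6146) (nat_lit 14) (.p (nat_lit 17) (nat_lit 12) .z) .df .leaf)))) (nat_lit 6147) (nat_lit 23) (.p (nat_lit 20)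 (nat_lit 12) (.n (nat_lit 23) (nat_lit 12) (.n (nat_lit 24) (nat_lit 12) (.n (nat_lit 25) (nat_lit 12) .z)))) (.ct dBe_c289 (nat_lit 12) (nat_lit 1) (.s true (nat_lit 1) (nat_lit 2) (nat_lit 0) (nat_lit 1) (nat_lit 1) true (nat_lit 1) true (nat_lit 3) true (nat_lit 2) true (nat_lit 4) true (nat_lit 3) (.e true (nat_lit 12) (nat_lit 11) (nat_lit 1) (nat_lit 3) (.e false (nat_lit 12) (nat_lit 8) (nat_lit 2) (nat_lit 2) (.e true (nat_lit 12) (nat_lit 13) (nat_lit 0) (nat_lit 4) (.e true (nat_lit 12) (nat_lit 12) (nat_lit 1) (nat_lit 3) .nil)))))) (.nd (.nd (.nd (.nd .leaf (nat_lit 6149) (nat_lit 32) (.p (nat_lit 26) (nat_lit 12) (.n (nat_lit 27) (nat_lit 12) (.n (nat_lit 30) (nat_lit 12) (.n (nat_lit 31) (nat_lit 12) .z)))) (.ct dBe_c274 (nat_lit 12) (nat_lit 0) (.s true (nat_lit 1) (nat_lit 2) (nat_lit 0) (nat_lit 1) (nat_lit 2) true (nat_lit 0) true (nat_lit 2) true (nat_lit 2) true (nat_lit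 4) true (nat_lit 3) (.e true (nat_lit 12) (nat_lit 11) (nat_lit 2) (nat_lit 2) (.e false (nat_lit 12) (nat_lit 10) (nat_lit 2) (nat_lit 2) (.e true (nat_lit 12) (nat_lit 17) (nat_lit 0) (nat_lit 4) (.e true (nat_lit 12) (nat_lit 16) (nat_lit 1) (nat_lit 3) .nil)))))) .leaf) (nat_lit 7168) (nat_lit 13) (.p (nat_lit 16) (nat_lit 12) .z) .df (.nd .leaf (nat_lit 7169) (nat_lit 15) (.p (nat_lit 18) (nat_lit 12) .z) .df .leaf)) (nat_lit 7170) (nat_lit 16) (.p (nat_lit 19) (nat_lit 12) .z) .df (.nd (.nd .leaf (nat_lit 7171) (nat_lit 34) (.p (nat_lit 27) (nat_lit 12) (.n (nat_lit 28) (nat_lit 12) (.n (nat_lit 29) (nat_lit 12) (.n (nat_lit 31) (nat_lit 12) .z)))) (.ct dBe_c274 (nat_lit 12) (nat_lit 1) (.s true (nat_lit 1) (nat_lit 2) (nat_lit 0) (nat_lit 2) (nat_lit 1) true (nat_lit 1) true (nat_lit 3) true (nat_lit 2) true (nat_lit 4) true (nat_lit 2) (.e true (nat_lit 12) (nat_lit 15) (nat_lit 1) (nat_lit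 3) (.e false (nat_lit 12) (nat_lit 11) (nat_lit 2) (nat_lit 2) (.e true (nat_lit 12) (nat_lit 17) (nat_lit 0) (nat_lit 4) (.e true (nat_lit 12) (nat_lit 12) (nat_lit 2) (nat_lit 2) .nil)))))) .leaf) (nat_lit 7172) (nat_lit 39) (.p (nat_lit 33) (nat_lit 24) (.n (nat_lit 34) (nat_lit 24) .z)) (.ct dBe_c34 (nat_lit 12) (nat_lit 1) (.s true (nat_lit 1) (nat_lit 2) (nat_lit 1) (nat_lit 2) (nat_lit 1) true (nat_lit 1) true (nat_lit 3) true (nat_lit 2) true (nat_lit 3) true (nat_lit 2) (.e true (nat_lit 24) (nat_lit 17) (nat_lit 1) (nat_lit 3) (.e false (nat_lit 24) (nat_lit 14) (nat_lit 2) (nat_lit 2) .nil)))) (.nd .leaf (nat_lit 7173) (nat_lit 43) (.n (nat_lit 36) (nat_lit 12) (.n (nat_lit 37) (nat_lit 12) .z)) (.ct dBe_c259 (nat_lit 12) (nat_lit 0) (.s true (nat_lit 1) (nat_lit 2) (nat_lit 0) (nat_lit 2) (nat_lit 2) true (nat_lit 0) true (nat_lit 1) true (nat_lit 1) true (nat_lit 2) true (nat_lit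 1) (.e true (nat_lit 12) (nat_lit 19) (nat_lit 0) (nat_lit 2) (.e true (nat_lit 12) (nat_lit 16) (nat_lit 2) (nat_lit 1) .nil)))) .leaf))) (nat_lit 7174) (nat_lit 47) (.p (nat_lit 39) (nat_lit 12) (.n (nat_lit 40) (nat_lit 12) .z)) (.ct dBe_c19 (nat_lit 12) (nat_lit 0) (.s true (nat_lit 1) (nat_lit 2) (nat_lit 1) (nat_lit 2) (nat_lit 2) true (nat_lit 0) true (nat_lit 1) true (nat_lit 1) true (nat_lit 2) true (nat_lit 1) (.e true (nat_lit 12) (nat_lit 19) (nat_lit 1) (nat_lit 2) (.e false (nat_lit 12) (nat_lit 18) (nat_lit 2) (nat_lit 1) .nil)))) (.nd (.nd (.nd .leaf (nat_lit 8194) (nat_lit 17) (.p (nat_lit 20) (nat_lit 12) .z) .df .leaf) (nat_lit 8199) (nat_lit 69) (.n (nat_lit 43) (nat_lit 12) (.p (nat_lit 48) (nat_lit 12) (.n (nat_lit 49) (nat_lit 12) (.p (nat_lit 51) (nat_lit 12) (.n (nat_lit 53) (nat_lit 12) (.p (nat_lit 54) (nat_lit 12) (.p (nat_lit 55) (nat_lit 12) .z))))))) (.ct dBe_c290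 (nat_lit 12) (nat_lit 0) (.s true (nat_lit 1) (nat_lit 3) (nat_lit 2) (nat_lit 1) (nat_lit 2) true (nat_lit 0) true (nat_lit 5) true (nat_lit 4) true (nat_lit 5) true (nat_lit 6) (.e true (nat_lit 12) (nat_lit 22) (nat_lit 2) (nat_lit 5) (.e false (nat_lit 12) (nat_lit 17) (nat_lit 3) (nat_lit 4) (.e true (nat_lit 12) (nat_lit 20) (nat_lit 2) (nat_lit 5) (.e false (nat_lit 12) (nat_lit 23) (nat_lit 2) (nat_lit 5) (.e false (nat_lit 12) (nat_lit 24) (nat_lit 2) (nat_lit 5) (.e false (nat_lit 12) (nat_lit 25) (nat_lit 2) (nat_lit 5) (.e false (nat_lit 12) (nat_lit 26) (nat_lit 1) (nat_lit 6) .nil))))))))) (.nd .leaf (nat_lit 9218) (nat_lit 18) (.p (nat_lit 21) (nat_lit 12) .z) .df .leaf)) (nat_lit 9223) (nat_lit 73) (.n (nat_lit 43) (nat_lit 12) (.p (nat_lit 44) (nat_lit 24) (.p (nat_lit 45) (nat_lit 24) (.p (nat_lit 46) (nat_lit 24) (.n (nat_lit 48) (nat_lit 12) (.p (nat_lit 49) (nat_lit 12)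 (.p (nat_lit 52) (nat_lit 12) (.n (nat_lit 54) (nat_lit 24) (.n (nat_lit 55) (nat_lit 12) .z))))))))) (.ct dBe_c290 (nat_lit 12) (nat_lit 0) (.s false (nat_lit 1) (nat_lit 4) (nat_lit 2) (nat_lit 0) (nat_lit 2) true (nat_lit 0) true (nat_lit 5) true (nat_lit 3) true (nat_lit 5) true (nat_lit 7) (.e false (nat_lit 24) (nat_lit 25) (nat_lit 2) (nat_lit 5) (.e false (nat_lit 12) (nat_lit 15) (nat_lit 4) (nat_lit 3) (.e true (nat_lit 12) (nat_lit 21) (nat_lit 2) (nat_lit 5) (.e true (nat_lit 24) (nat_lit 22) (nat_lit 2) (nat_lit 5) (.e false (nat_lit 24) (nat_lit 23) (nat_lit 2) (nat_lit 5) (.e false (nat_lit 24) (nat_lit 24) (nat_lit 2) (nat_lit 5) (.e false (nat_lit 12) (nat_lit 32) (nat_lit 0) (nat_lit 7) .nil))))))))) (.nd (.nd .leaf (nat_lit 10241) (nat_lit 19) (.p (nat_lit 22) (nat_lit 12) .z) .df .leaf) (nat_lit 10242) (nat_lit 26) (.p (nat_lit 26) (nat_lit 12) .z) .df .leaf)))) (nat_lit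 10246) (nat_lit 62) (.p (nat_lit 55) (nat_lit 12) .z) .df (.nd (.nd (.nd (.nd (.nd .leaf (nat_lit 10247) (nat_lit 84) (.p (nat_lit 65) (nat_lit 12) .z) .df .leaf) (nat_lit 11265) (nat_lit 20) (.p (nat_lit 23) (nat_lit 12) .z) .df (.nd .leaf (nat_lit 11266) (nat_lit 27) (.p (nat_lit 27) (nat_lit 12) .z) .df .leaf)) (nat_lit 11270) (nat_lit 65) (.p (nat_lit 45) (nat_lit 12) (.p (nat_lit 49) (nat_lit 12) (.n (nat_lit 53) (nat_lit 12) (.n (nat_lit 54) (nat_lit 12) (.n (nat_lit 55) (nat_lit 12) .z))))) (.ct dBe_c290 (nat_lit 12) (nat_lit 1) (.s false (nat_lit 1) (nat_lit 6) (nat_lit 0) (nat_lit 2) (nat_lit 1) true (nat_lit 4) true (nat_lit 6) true (nat_lit 1) true (nat_lit 7) true (nat_lit 5) (.s true (nat_lit 1) (nat_lit 6) (nat_lit 1) (nat_lit 0) (nat_lit 2) true (nat_lit 1) true (nat_lit 5) true (nat_lit 1) true (nat_lit 6) true (nat_lit 7) (.s true (nat_lit 1) (nat_lit 6) (nat_lit 1) (nat_lit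 2) (nat_lit 0) true (nat_lit 4) true (nat_lit 7) true (nat_lit 1) true (nat_lit 6) true (nat_lit 5) (.e false (nat_lit 12) (nat_lit 28) (nat_lit 1) (nat_lit 6) (.e false (nat_lit 12) (nat_lit 24) (nat_lit 2) (nat_lit 5) (.e true (nat_lit 12) (nat_lit 10) (nat_lit 6) (nat_lit 1) (.e true (nat_lit 12) (nat_lit 34) (nat_lit 0) (nat_lit 7) (.e true (nat_lit 12) (nat_lit 33) (nat_lit 0) (nat_lit 7) .nil))))))))) (.nd (.nd .leaf (nat_lit 11271) (nat_lit 86) (.n (nat_lit 56) (nat_lit 24) (.p (nat_lit 57) (nat_lit 36) (.n (nat_lit 58) (nat_lit 12) (.n (nat_lit 59) (nat_lit 12) (.p (nat_lit 60) (nat_lit 12) (.p (nat_lit 61) (nat_lit 12) (.n (nat_lit 63) (nat_lit 12) (.p (nat_lit 65) (nat_lit 12) .z)))))))) (.ct dBe_c275 (nat_lit 12) (nat_lit 0) (.s true (nat_lit 1) (nat_lit 5) (nat_lit 2) (nat_lit 1) (nat_lit 2) true (nat_lit 0) true (nat_lit 4) true (nat_lit 2) true (nat_lit 4) true (nat_lit 5) (.s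 true (nat_lit 1) (nat_lit 5) (nat_lit 2) (nat_lit 2) (nat_lit 1) true (nat_lit 1) true (nat_lit 5) true (nat_lit 2) true (nat_lit 4) true (nat_lit 4) (.s true (nat_lit 1) (nat_lit 6) (nat_lit 0) (nat_lit 2) (nat_lit 2) true (nat_lit 2) true (nat_lit 4) true (nat_lit 1) true (nat_lit 6) true (nat_lit 4) (.s true (nat_lit 1) (nat_lit 7) (nat_lit 0) (nat_lit 1) (nat_lit 2) true (nat_lit 2) true (nat_lit 4) true (nat_lit 0) true (nat_lit 6) true (nat_lit 5) (.e true (nat_lit 12) (nat_lit 29) (nat_lit 2) (nat_lit 4) (.e true (nat_lit 24) (nat_lit 26) (nat_lit 2) (nat_lit 4) (.e false (nat_lit 36) (nat_lit 27) (nat_lit 2) (nat_lit 4) (.e false (nat_lit 12) (nat_lit 30) (nat_lit 2) (nat_lit 4) (.e false (nat_lit 12) (nat_lit 31) (nat_lit 2) (nat_lit 4) (.e true (nat_lit 12) (nat_lit 28) (nat_lit 2) (nat_lit 4) (.e false (nat_lit 12) (nat_lit 10) (nat_lit 7) (nat_lit 0) (.e true (nat_lit 12) (nat_lit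 37) (nat_lit 1) (nat_lit 5) .nil))))))))))))) .leaf) (nat_lit 12289) (nat_lit 21) (.p (nat_lit 24) (nat_lit 12) .z) .df (.nd .leaf (nat_lit 12290) (nat_lit 28) (.p (nat_lit 28) (nat_lit 12) .z) .df .leaf))) (nat_lit 12294) (nat_lit 67) (.n (nat_lit 42) (nat_lit 12) (.n (nat_lit 43) (nat_lit 12) (.p (nat_lit 44) (nat_lit 24) (.p (nat_lit 45) (nat_lit 36) (.p (nat_lit 46) (nat_lit 24) (.p (nat_lit 47) (nat_lit 12) (.p (nat_lit 49) (nat_lit 12) (.n (nat_lit 50) (nat_lit 12) (.n (nat_lit 51) (nat_lit 12) (.p (nat_lit 53) (nat_lit 12) (.n (nat_lit 54) (nat_lit 24) (.n (nat_lit 55) (nat_lit 12) .z)))))))))))) (.ct dBe_c290 (nat_lit 12) (nat_lit 1) (.s true (nat_lit 1) (nat_lit 6) (nat_lit 1) (nat_lit 2) (nat_lit 0) true (nat_lit 4) true (nat_lit 7) true (nat_lit 1) true (nat_lit 6) true (nat_lit 5) (.e true (nat_lit 12) (nat_lit 17) (nat_lit 3) (nat_lit 4) (.e true (nat_lit 12) (nat_lit 33) (nat_lit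 0) (nat_lit 7) (.e true (nat_lit 12) (nat_lit 26) (nat_lit 1) (nat_lit 6) (.e false (nat_lit 12) (nat_lit 27) (nat_lit 1) (nat_lit 6) (.e false (nat_lit 12) (nat_lit 30) (nat_lit 1) (nat_lit 6) (.e false (nat_lit 12) (nat_lit 31) (nat_lit 1) (nat_lit 6) (.e false (nat_lit 12) (nat_lit 24) (nat_lit 2) (nat_lit 5) .nil))))))))) (.nd (.nd (.nd .leaf (nat_lit 12295) (nat_lit 88) (.n (nat_lit 57) (nat_lit 12) (.p (nat_lit 58) (nat_lit 12) (.p (nat_lit 59) (nat_lit 12) (.p (nat_lit 60) (nat_lit 12) (.p (nat_lit 61) (nat_lit 12) (.p (nat_lit 62) (nat_lit 12) (.p (nat_lit 63) (nat_lit 12) (.n (nat_lit 64) (nat_lit 12) (.n (nat_lit 65) (nat_lit 12) .z))))))))) (.ct dBe_c275 (nat_lit 12) (nat_lit 0) (.s true (nat_lit 1) (nat_lit 5) (nat_lit 1) (nat_lit 2) (nat_lit 2) true (nat_lit 1) true (nat_lit 4) true (nat_lit 2) true (nat_lit 5) true (nat_lit 4) (.s false (nat_lit 1) (nat_lit 6) (nat_lit 2) (nat_lit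 0) (nat_lit 2) true (nat_lit 0) true (nat_lit 4) true (nat_lit 1) true (nat_lit 4) true (nat_lit 6) (.s true (nat_lit 1) (nat_lit 6) (nat_lit 2) (nat_lit 2) (nat_lit 0) true (nat_lit 2) true (nat_lit 6) true (nat_lit 1) true (nat_lit 4) true (nat_lit 4) (.s true (nat_lit 1) (nat_lit 7) (nat_lit 2) (nat_lit 0) (nat_lit 1) true (nat_lit 1) true (nat_lit 5) true (nat_lit 0) true (nat_lit 4) true (nat_lit 6) (.e false (nat_lit 24) (nat_lit 27) (nat_lit 2) (nat_lit 4) (.e false (nat_lit 12) (nat_lit 36) (nat_lit 1) (nat_lit 5) (.e false (nat_lit 24) (nat_lit 31) (nat_lit 2) (nat_lit 4) (.e true (nat_lit 24) (nat_lit 26) (nat_lit 2) (nat_lit 4) (.e false (nat_lit 24) (nat_lit 30) (nat_lit 2) (nat_lit 4) (.e true (nat_lit 12) (nat_lit 11) (nat_lit 7) (nat_lit 0) (.e true (nat_lit 12) (nat_lit 39) (nat_lit 0) (nat_lit 6) .nil)))))))))))) .leaf) (nat_lit 13312) (nat_lit 22) (.p (nat_lit 25) (nat_lit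 12) .z) .df (.nd .leaf (nat_lit 13314) (nat_lit 35) (.p (nat_lit 32) (nat_lit 12) .z) .df .leaf)) (nat_lit 13317) (nat_lit 68) (.p (nat_lit 43) (nat_lit 12) (.n (nat_lit 46) (nat_lit 12) (.n (nat_lit 48) (nat_lit 12) (.p (nat_lit 49) (nat_lit 12) (.n (nat_lit 53) (nat_lit 24) (.n (nat_lit 55) (nat_lit 12) .z)))))) (.ct dBe_c290 (nat_lit 12) (nat_lit 2) (.s false (nat_lit 1) (nat_lit 5) (nat_lit 1) (nat_lit 1) (nat_lit 2) true (nat_lit 1) true (nat_lit 5) true (nat_lit 2) true (nat_lit 6) true (nat_lit 6) (.e false (nat_lit 12) (nat_lit 11) (nat_lit 6) (nat_lit 1) (.e false (nat_lit 12) (nat_lit 23) (nat_lit 2) (nat_lit 5) (.e false (nat_lit 12) (nat_lit 26) (nat_lit 1) (nat_lit 6) (.e true (nat_lit 12) (nat_lit 27) (nat_lit 1) (nat_lit 6) (.e true (nat_lit 12) (nat_lit 30) (nat_lit 1) (nat_lit 6) (.e true (nat_lit 12) (nat_lit 31) (nat_lit 1) (nat_lit 6) (.e true (nat_lit 12) (nat_lit 29) (nat_lit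 1) (nat_lit 6) .nil))))))))) (.nd (.nd .leaf (nat_lit 13319) (nat_lit 102) (.p (nat_lit 67) (nat_lit 12) (.n (nat_lit 68) (nat_lit 36) (.p (nat_lit 69) (nat_lit 12) (.p (nat_lit 71) (nat_lit 12) (.p (nat_lit 72) (nat_lit 12) .z))))) (.ct dBe_c35 (nat_lit 12) (nat_lit 0) (.s true (nat_lit 1) (nat_lit 7) (nat_lit 1) (nat_lit 1) (nat_lit 2) true (nat_lit 1) true (nat_lit 3) true (nat_lit 0) true (nat_lit 4) true (nat_lit 4) (.e true (nat_lit 12) (nat_lit 18) (nat_lit 6) (nat_lit 1) (.e false (nat_lit 12) (nat_lit 32) (nat_lit 2) (nat_lit 3) (.e true (nat_lit 12) (nat_lit 33) (nat_lit 2) (nat_lit 3) (.e true (nat_lit 12) (nat_lit 34) (nat_lit 2) (nat_lit 3) (.e false (nat_lit 12) (nat_lit 39) (nat_lit 1) (nat_lit 4) .nil))))))) .leaf) (nat_lit 14336) (nat_lit 24) (.n (nat_lit 20) (nat_lit 12) (.n (nat_lit 21) (nat_lit 12) (.n (nat_lit 22) (nat_lit 12) (.p (nat_lit 23) (nat_lit 24) (.p (nat_lit 24)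 (nat_lit 12) (.p (nat_lit 25) (nat_lit 12) .z)))))) (.ct dBe_c289 (nat_lit 12) (nat_lit 4) (.s true (nat_lit 1) (nat_lit 2) (nat_lit 1) (nat_lit 1) (nat_lit 0) true (nat_lit 1) true (nat_lit 4) true (nat_lit 2) true (nat_lit 3) true (nat_lit 3) (.e true (nat_lit 12) (nat_lit 6) (nat_lit 3) (nat_lit 1) (.e true (nat_lit 12) (nat_lit 9) (nat_lit 2) (nat_lit 2) (.e true (nat_lit 12) (nat_lit 10) (nat_lit 1) (nat_lit 3) (.e false (nat_lit 12) (nat_lit 11) (nat_lit 1) (nat_lit 3) .nil)))))) .leaf))) (nat_lit 14338) (nat_lit 36) (.p (nat_lit 33) (nat_lit 12) .z) .df (.nd (.nd (.nd (.nd .leaf (nat_lit 14341) (nat_lit 72) (.p (nat_lit 43) (nat_lit 12) (.n (nat_lit 44) (nat_lit 12) (.n (nat_lit 45) (nat_lit 24) (.n (nat_lit 46) (nat_lit 12) (.n (nat_lit 47) (nat_lit 12) (.p (nat_lit 50) (nat_lit 12) (.p (nat_lit 51) (nat_lit 12) (.n (nat_lit 53) (nat_lit 12) (.p (nat_lit 54) (nat_lit 12) (.p (nat_lit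 55) (nat_lit 12) .z)))))))))) (.ct dBe_c290 (nat_lit 12) (nat_lit 2) (.s true (nat_lit 1) (nat_lit 6) (nat_lit 0) (nat_lit 1) (nat_lit 2) true (nat_lit 2) true (nat_lit 5) true (nat_lit 1) true (nat_lit 7) true (nat_lit 6) (.e true (nat_lit 12) (nat_lit 24) (nat_lit 2) (nat_lit 5) (.e false (nat_lit 12) (nat_lit 10) (nat_lit 6) (nat_lit 1) (.e true (nat_lit 12) (nat_lit 31) (nat_lit 1) (nat_lit 6) .nil))))) .leaf) (nat_lit 14343) (nat_lit 100) (.p (nat_lit 72) (nat_lit 12) .z) .df (.nd .leaf (nat_lit 15361) (nat_lit 29) (.p (nat_lit 29) (nat_lit 12) .z) .df .leaf)) (nat_lit 15362) (nat_lit 40) (.p (nat_lit 35) (nat_lit 12) .z) .df (.nd (.nd .leaf (nat_lit 15364) (nat_lit 70) (.p (nat_lit 44) (nat_lit 12) (.n (nat_lit 45) (nat_lit 12) (.n (nat_lit 47) (nat_lit 12) (.p (nat_lit 51) (nat_lit 12) (.p (nat_lit 55) (nat_lit 12) .z))))) (.ct dBe_c290 (nat_lit 12) (nat_lit 3) (.s false (nat_lit 1) (nat_lit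 4) (nat_lit 0) (nat_lit 2) (nat_lit 2) true (nat_lit 2) true (nat_lit 5) true (nat_lit 3) true (nat_lit 7) true (nat_lit 5) (.e false (nat_lit 12) (nat_lit 13) (nat_lit 5) (nat_lit 2) (.e false (nat_lit 12) (nat_lit 21) (nat_lit 2) (nat_lit 5) (.e false (nat_lit 24) (nat_lit 33) (nat_lit 0) (nat_lit 7) (.e true (nat_lit 24) (nat_lit 34) (nat_lit 0) (nat_lit 7) (.e false (nat_lit 12) (nat_lit 25) (nat_lit 2) (nat_lit 5) .nil))))))) .leaf) (nat_lit 15366) (nat_lit 85) (.p (nat_lit 66) (nat_lit 12) .z) .df (.nd .leaf (nat_lit 15367) (nat_lit 110) (.p (nat_lit 74) (nat_lit 12) (.n (nat_lit 76) (nat_lit 12) .z)) (.ct dBe_c260 (nat_lit 24) (nat_lit 0) (.s true (nat_lit 1) (nat_lit 5) (nat_lit 2) (nat_lit 2) (nat_lit 2) true (nat_lit 0) true (nat_lit 2) true (nat_lit 1) true (nat_lit 2) true (nat_lit 2) (.s true (nat_lit 1) (nat_lit 7) (nat_lit 2) (nat_lit 0) (nat_lit 2) true (nat_lit 0) true (nat_lit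 2) true (nat_lit 0) true (nat_lit 2) true (nat_lit 3) (.s true (nat_lit 1) (nat_lit 7) (nat_lit 2) (nat_lit 2) (nat_lit 0) true (nat_lit 1) true (nat_lit 3) true (nat_lit 0) true (nat_lit 2) true (nat_lit 2) (.e false (nat_lit 24) (nat_lit 36) (nat_lit 2) (nat_lit 2) (.e true (nat_lit 24) (nat_lit 41) (nat_lit 0) (nat_lit 3) .nil)))))) .leaf))) (nat_lit 15373) (nat_lit 174) (.n (nat_lit 81) (nat_lit 4) (.p (nat_lit 82) (nat_lit 4) (.p (nat_lit 83) (nat_lit 4) (.p (nat_lit 85) (nat_lit 4) (.n (nat_lit 86) (nat_lit 8) (.n (nat_lit 87) (nat_lit 16) (.p (nat_lit 88) (nat_lit 8) (.n (nat_lit 89) (nat_lit 4) (.n (nat_lit 90) (nat_lit 8) (.n (nat_lit 92) (nat_lit 8) (.p (nat_lit 93) (nat_lit 4) (.p (nat_lit 94) (nat_lit 12) (.n (nat_lit 95) (nat_lit 12) (.n (nat_lit 98) (nat_lit 4) (.p (nat_lit 102) (nat_lit 8) (.n (nat_lit 103) (nat_lit 12) (.p (nat_lit 104) (nat_lit 8) (.n (nat_lit 105) (nat_lit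 8) .z)))))))))))))))))) (.ct dBe_c291 (nat_lit 12) (nat_lit 0) (.s false (nat_lit 1) (nat_lit 13) (nat_lit 0) (nat_lit 2) (nat_lit 2) true (nat_lit 5) true (nat_lit 8) true (nat_lit 0) true (nat_lit 10) true (nat_lit 8) (.e false (nat_lit 12) (nat_lit 32) (nat_lit 5) (nat_lit 5) (.e false (nat_lit 12) (nat_lit 46) (nat_lit 2) (nat_lit 8) (.e true (nat_lit 12) (nat_lit 67) (nat_lit 0) (nat_lit 10) (.e false (nat_lit 36) (nat_lit 68) (nat_lit 0) (nat_lit 10) (.e true (nat_lit 12) (nat_lit 69) (nat_lit 0) (nat_lit 10) (.e true (nat_lit 12) (nat_lit 71) (nat_lit 0) (nat_lit 10) (.e true (nat_lit 12) (nat_lit 72) (nat_lit 0) (nat_lit 10) (.e false (nat_lit 12) (nat_lit 52) (nat_lit 2) (nat_lit 8) .nil)))))))))) (.nd (.nd (.nd .leaf (nat_lit 15374) (nat_lit 168) (.p (nat_lit 81) (nat_lit 10) (.n (nat_lit 82) (nat_lit 76) (.n (nat_lit 83) (nat_lit 88) (.n (nat_lit 84) (nat_lit 54) (.p (nat_lit 85)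 (nat_lit 80) (.p (nat_lit 86) (nat_lit 26) (.n (nat_lit 87) (nat_lit 44) (.p (nat_lit 88) (nat_lit 34) (.n (nat_lit 89) (nat_lit 14) (.p (nat_lit 90) (nat_lit 44) (.n (nat_lit 91) (nat_lit 18) (.p (nat_lit 92) (nat_lit 20) (.p (nat_lit 93) (nat_lit 20) (.p (nat_lit 94) (nat_lit 54) (.p (nat_lit 95) (nat_lit 12) (.p (nat_lit 96) (nat_lit 36) (.n (nat_lit 97) (nat_lit 84) (.p (nat_lit 98) (nat_lit 22) (.n (nat_lit 99) (nat_lit 12) (.n (nat_lit 100) (nat_lit 12) (.p (nat_lit 101) (nat_lit 12) (.p (nat_lit 102) (nat_lit 10) (.n (nat_lit 103) (nat_lit 54) (.p (nat_lit 104) (nat_lit 16) (.n (nat_lit 105) (nat_lit 16) (.p (nat_lit 106) (nat_lit 12) .z)))))))))))))))))))))))))) (.ct dBe_c291 (nat_lit 12) (nat_lit 0) (.s false (nat_lit 1) (nat_lit 15) (nat_lit 2) (nat_lit 1) (nat_lit 1) true (nat_lit 4) true (nat_lit 9) false (nat_lit 0) true (nat_lit 8) true (nat_lit 9) (.e false (nat_lit 12) (nat_lit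 29) (nat_lit 6) (nat_lit 4) (.e true (nat_lit 12) (nat_lit 56) (nat_lit 1) (nat_lit 9) (.e false (nat_lit 12) (nat_lit 57) (nat_lit 1) (nat_lit 9) (.e true (nat_lit 12) (nat_lit 58) (nat_lit 1) (nat_lit 9) (.e false (nat_lit 12) (nat_lit 62) (nat_lit 1) (nat_lit 9) (.e false (nat_lit 12) (nat_lit 65) (nat_lit 1) (nat_lit 9) (.e true (nat_lit 12) (nat_lit 66) (nat_lit 1) (nat_lit 9) (.e true (nat_lit 12) (nat_lit 44) (nat_lit 2) (nat_lit 8) (.e false (nat_lit 12) (nat_lit 45) (nat_lit 2) (nat_lit 8) (.e false (nat_lit 12) (nat_lit 47) (nat_lit 2) (nat_lit 8) (.e true (nat_lit 12) (nat_lit 51) (nat_lit 2) (nat_lit 8) (.e true (nat_lit 12) (nat_lit 55) (nat_lit 2) (nat_lit 8) .nil)))))))))))))) .leaf) (nat_lit 16385) (nat_lit 30) (.p (nat_lit 30) (nat_lit 12) .z) .df (.nd .leaf (nat_lit 16386) (nat_lit 41) (.p (nat_lit 36) (nat_lit 12) .z) .df .leaf)) (nat_lit 16388) (nat_lit 74) (.n (nat_lit 43)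 (nat_lit 36) (.p (nat_lit 44) (nat_lit 24) (.p (nat_lit 45) (nat_lit 24) (.p (nat_lit 46) (nat_lit 24) (.p (nat_lit 48) (nat_lit 12) (.n (nat_lit 49) (nat_lit 12) (.n (nat_lit 52) (nat_lit 12) (.p (nat_lit 53) (nat_lit 24) (.p (nat_lit 55) (nat_lit 12) .z))))))))) (.ct dBe_c290 (nat_lit 12) (nat_lit 3) (.s true (nat_lit 1) (nat_lit 4) (nat_lit 2) (nat_lit 2) (nat_lit 0) true (nat_lit 2) true (nat_lit 7) true (nat_lit 3) true (nat_lit 5) true (nat_lit 5) (.e true (nat_lit 12) (nat_lit 13) (nat_lit 5) (nat_lit 2) (.e true (nat_lit 12) (nat_lit 32) (nat_lit 0) (nat_lit 7) (.e true (nat_lit 24) (nat_lit 22) (nat_lit 2) (nat_lit 5) (.e false (nat_lit 24) (nat_lit 23) (nat_lit 2) (nat_lit 5) (.e false (nat_lit 24) (nat_lit 24) (nat_lit 2) (nat_lit 5) (.e false (nat_lit 12) (nat_lit 25) (nat_lit 2) (nat_lit 5) .nil)))))))) (.nd (.nd .leaf (nat_lit 16390) (nat_lit 90) (.n (nat_lit 56) (nat_lit 24) (.p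 (nat_lit 57) (nat_lit 24) (.p (nat_lit 60) (nat_lit 12) (.p (nat_lit 61) (nat_lit 24) (.p (nat_lit 64) (nat_lit 12) (.p (nat_lit 65) (nat_lit 12) .z)))))) (.ct dBe_c275 (nat_lit 12) (nat_lit 1) (.s false (nat_lit 1) (nat_lit 7) (nat_lit 2) (nat_lit 0) (nat_lit 1) true (nat_lit 1) true (nat_lit 5) true (nat_lit 0) true (nat_lit 4) true (nat_lit 6) (.e false (nat_lit 12) (nat_lit 37) (nat_lit 1) (nat_lit 5) (.e false (nat_lit 12) (nat_lit 11) (nat_lit 7) (nat_lit 0) (.e true (nat_lit 12) (nat_lit 27) (nat_lit 2) (nat_lit 4) (.e false (nat_lit 12) (nat_lit 28) (nat_lit 2) (nat_lit 4) (.e false (nat_lit 12) (nat_lit 29) (nat_lit 2) (nat_lit 4) (.e false (nat_lit 12) (nat_lit 31) (nat_lit 2) (nat_lit 4) (.e false (nat_lit 12) (nat_lit 39) (nat_lit 0) (nat_lit 6) .nil))))))))) .leaf) (nat_lit 16391) (nat_lit 111) (.p (nat_lit 74) (nat_lit 24) (.p (nat_lit 75) (nat_lit 24) .z)) (.ct dBe_c260 (nat_lit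 12) (nat_lit 0) (.s false (nat_lit 1) (nat_lit 7) (nat_lit 2) (nat_lit 0) (nat_lit 2) true (nat_lit 0) true (nat_lit 2) true (nat_lit 0) true (nat_lit 2) true (nat_lit 3) (.e false (nat_lit 24) (nat_lit 37) (nat_lit 2) (nat_lit 2) (.e false (nat_lit 12) (nat_lit 15) (nat_lit 7) (nat_lit 0) (.e false (nat_lit 12) (nat_lit 36) (nat_lit 2) (nat_lit 2) (.e false (nat_lit 12) (nat_lit 41) (nat_lit 0) (nat_lit 3) .nil)))))) .leaf)))))

noncomputable def dBe_t1 : Tr := (.nd (.nd (.nd (.nd (.nd (.nd .leaf (nat_lit 16398) (nat_lit 176) (.p (nat_lit 81) (nat_lit 32) (.n (nat_lit 82) (nat_lit 32) (.n (nat_lit 83) (nat_lit 32) (.n (nat_lit 84) (nat_lit 36) (.p (nat_lit 85) (nat_lit 16) (.p (nat_lit 86) (nat_lit 4) (.n (nat_lit 87) (nat_lit 16) (.n (nat_lit 88) (nat_lit 16) (.n (nat_lit 89) (nat_lit 16) (.p (nat_lit 90) (nat_lit 16) (.p (nat_lit 92) (nat_lit 16) (.p (nat_lit 93) (nat_lit 4) (.p (nat_lit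 95) (nat_lit 12) (.n (nat_lit 96) (nat_lit 12) (.n (nat_lit 97) (nat_lit 12) (.p (nat_lit 98) (nat_lit 8) (.p (nat_lit 100) (nat_lit 12) (.p (nat_lit 101) (nat_lit 12) (.p (nat_lit 102) (nat_lit 8) (.n (nat_lit 104) (nat_lit 16) (.p (nat_lit 105) (nat_lit 16) .z))))))))))))))))))))) (.ct dBe_c291 (nat_lit 12) (nat_lit 0) (.s false (nat_lit 1) (nat_lit 16) (nat_lit 1) (nat_lit 2) (nat_lit 1) true (nat_lit 6) true (nat_lit 9) false (nat_lit 0) true (nat_lit 9) true (nat_lit 8) (.e false (nat_lit 12) (nat_lit 36) (nat_lit 4) (nat_lit 6) (.e false (nat_lit 24) (nat_lit 56) (nat_lit 1) (nat_lit 9) (.e true (nat_lit 24) (nat_lit 57) (nat_lit 1) (nat_lit 9) (.e true (nat_lit 24) (nat_lit 61) (nat_lit 1) (nat_lit 9) (.e true (nat_lit 12) (nat_lit 64) (nat_lit 1) (nat_lit 9) (.e true (nat_lit 12) (nat_lit 65) (nat_lit 1) (nat_lit 9) (.e true (nat_lit 12) (nat_lit 51) (nat_lit 2) (nat_lit 8) .nil)))))))))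 .leaf) (nat_lit 17408) (nat_lit 31) (.p (nat_lit 31) (nat_lit 12) .z) .df (.nd .leaf (nat_lit 17409) (nat_lit 37) (.p (nat_lit 34) (nat_lit 12) .z) .df .leaf)) (nat_lit 17410) (nat_lit 44) (.p (nat_lit 38) (nat_lit 12) .z) .df (.nd (.nd .leaf (nat_lit 17411) (nat_lit 63) (.p (nat_lit 42) (nat_lit 12) (.n (nat_lit 44) (nat_lit 12) (.n (nat_lit 45) (nat_lit 12) (.n (nat_lit 46) (nat_lit 12) (.n (nat_lit 47) (nat_lit 12) (.p (nat_lit 48) (nat_lit 12) (.n (nat_lit 49) (nat_lit 12) (.p (nat_lit 51) (nat_lit 12) (.n (nat_lit 53) (nat_lit 12) (.p (nat_lit 54) (nat_lit 12) (.p (nat_lit 55) (nat_lit 12) .z))))))))))) (.ct dBe_c290 (nat_lit 12) (nat_lit 4) (.s true (nat_lit 1) (nat_lit 6) (nat_lit 0) (nat_lit 2) (nat_lit 1) true (nat_lit 4) true (nat_lit 6) true (nat_lit 1) true (nat_lit 7) true (nat_lit 5) (.s false (nat_lit 1) (nat_lit 6) (nat_lit 1) (nat_lit 0) (nat_lit 2) true (nat_lit 1) true (nat_lit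 5) true (nat_lit 1) true (nat_lit 6) true (nat_lit 7) (.s true (nat_lit 1) (nat_lit 6) (nat_lit 2) (nat_lit 0) (nat_lit 1) true (nat_lit 1) true (nat_lit 6) true (nat_lit 1) true (nat_lit 5) true (nat_lit 7) (.e true (nat_lit 12) (nat_lit 28) (nat_lit 1) (nat_lit 6) (.e false (nat_lit 12) (nat_lit 20) (nat_lit 2) (nat_lit 5) (.e true (nat_lit 12) (nat_lit 23) (nat_lit 2) (nat_lit 5) (.e true (nat_lit 12) (nat_lit 24) (nat_lit 2) (nat_lit 5) (.e true (nat_lit 12) (nat_lit 25) (nat_lit 2) (nat_lit 5) (.e false (nat_lit 12) (nat_lit 10) (nat_lit 6) (nat_lit 1) (.e true (nat_lit 12) (nat_lit 26) (nat_lit 1) (nat_lit 6) (.e false (nat_lit 12) (nat_lit 27) (nat_lit 1) (nat_lit 6) (.e false (nat_lit 12) (nat_lit 30) (nat_lit 1) (nat_lit 6) (.e false (nat_lit 12) (nat_lit 34) (nat_lit 0) (nat_lit 7) (.e true (nat_lit 12) (nat_lit 33) (nat_lit 0) (nat_lit 7) .nil))))))))))))))) .leaf) (nat_lit 17413)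 (nat_lit 89) (.p (nat_lit 57) (nat_lit 12) (.n (nat_lit 59) (nat_lit 12) (.n (nat_lit 62) (nat_lit 12) (.n (nat_lit 63) (nat_lit 12) (.p (nat_lit 66) (nat_lit 12) .z))))) (.ct dBe_c275 (nat_lit 12) (nat_lit 2) (.s false (nat_lit 1) (nat_lit 5) (nat_lit 1) (nat_lit 2) (nat_lit 2) true (nat_lit 1) true (nat_lit 4) true (nat_lit 2) true (nat_lit 5) true (nat_lit 4) (.e false (nat_lit 12) (nat_lit 15) (nat_lit 6) (nat_lit 1) (.e false (nat_lit 12) (nat_lit 27) (nat_lit 2) (nat_lit 4) (.e true (nat_lit 12) (nat_lit 36) (nat_lit 1) (nat_lit 5) (.e true (nat_lit 12) (nat_lit 37) (nat_lit 1) (nat_lit 5) (.e true (nat_lit 12) (nat_lit 29) (nat_lit 2) (nat_lit 4) .nil))))))) (.nd .leaf (nat_lit 17414) (nat_lit 103) (.n (nat_lit 68) (nat_lit 6) (.p (nat_lit 69) (nat_lit 6) (.n (nat_lit 70) (nat_lit 6) (.p (nat_lit 71) (nat_lit 6) .z)))) (.ct dBe_c35 (nat_lit 24) (nat_lit 1) (.s true (nat_lit 1) (nat_lit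 6) (nat_lit 1) (nat_lit 2) (nat_lit 2) true (nat_lit 1) true (nat_lit 3) true (nat_lit 1) true (nat_lit 4) true (nat_lit 3) (.e true (nat_lit 12) (nat_lit 33) (nat_lit 2) (nat_lit 3) (.e true (nat_lit 12) (nat_lit 39) (nat_lit 1) (nat_lit 4) (.e false (nat_lit 12) (nat_lit 40) (nat_lit 1) (nat_lit 4) (.e false (nat_lit 12) (nat_lit 34) (nat_lit 2) (nat_lit 3) .nil)))))) .leaf))) (nat_lit 17415) (nat_lit 117) (.n (nat_lit 78) (nat_lit 12) (.p (nat_lit 80) (nat_lit 12) .z)) (.ct dBe_c20 (nat_lit 24) (nat_lit 0) (.s true (nat_lit 1) (nat_lit 6) (nat_lit 2) (nat_lit 2) (nat_lit 2) true (nat_lit 0) true (nat_lit 2) true (nat_lit 1) true (nat_lit 2) true (nat_lit 2) (.s true (nat_lit 1) (nat_lit 7) (nat_lit 2) (nat_lit 1) (nat_lit 2) true (nat_lit 0) true (nat_lit 2) true (nat_lit 0) true (nat_lit 2) true (nat_lit 3) (.s false (nat_lit 1) (nat_lit 7) (nat_lit 2) (nat_lit 2) (nat_lit 1) true (nat_lit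 1) true (nat_lit 3) true (nat_lit 0) true (nat_lit 2) true (nat_lit 2) (.e true (nat_lit 24) (nat_lit 39) (nat_lit 2) (nat_lit 2) (.e false (nat_lit 24) (nat_lit 41) (nat_lit 1) (nat_lit 3) .nil)))))) (.nd (.nd (.nd .leaf (nat_lit 17418) (nat_lit 180) (.n (nat_lit 81) (nat_lit 12) (.p (nat_lit 85) (nat_lit 12) (.p (nat_lit 94) (nat_lit 12) (.n (nat_lit 103) (nat_lit 12) .z)))) (.ct dBe_c291 (nat_lit 12) (nat_lit 1) (.s true (nat_lit 1) (nat_lit 10) (nat_lit 1) (nat_lit 2) (nat_lit 2) true (nat_lit 4) true (nat_lit 8) true (nat_lit 1) true (nat_lit 9) true (nat_lit 8) (.e true (nat_lit 12) (nat_lit 26) (nat_lit 6) (nat_lit 4) (.e true (nat_lit 12) (nat_lit 43) (nat_lit 2) (nat_lit 8) (.e false (nat_lit 12) (nat_lit 65) (nat_lit 1) (nat_lit 9) (.e false (nat_lit 12) (nat_lit 47) (nat_lit 2) (nat_lit 8) .nil)))))) .leaf) (nat_lit 17419) (nat_lit 171) (.p (nat_lit 81) (nat_lit 22) (.n (nat_lit 82)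 (nat_lit 88) (.n (nat_lit 83) (nat_lit 112) (.n (nat_lit 84) (nat_lit 54) (.p (nat_lit 85) (nat_lit 80) (.p (nat_lit 86) (nat_lit 38) (.n (nat_lit 87) (nat_lit 32) (.p (nat_lit 88) (nat_lit 34) (.n (nat_lit 89) (nat_lit 14) (.p (nat_lit 90) (nat_lit 68) (.n (nat_lit 91) (nat_lit 18) (.p (nat_lit 92) (nat_lit 32) (.p (nat_lit 93) (nat_lit 20) (.p (nat_lit 94) (nat_lit 42) (.p (nat_lit 95) (nat_lit 12) (.p (nat_lit 96) (nat_lit 54) (.n (nat_lit 97) (nat_lit 90) (.p (nat_lit 98) (nat_lit 28) (.n (nat_lit 99) (nat_lit 18) (.n (nat_lit 100) (nat_lit 12) (.p (nat_lit 101) (nat_lit 12) (.p (nat_lit 102) (nat_lit 10) (.n (nat_lit 103) (nat_lit 54) (.p (nat_lit 104) (nat_lit 4) (.n (nat_lit 105) (nat_lit 4) (.p (nat_lit 106) (nat_lit 12) .z)))))))))))))))))))))))))) (.ct dBe_c291 (nat_lit 12) (nat_lit 1) (.s true (nat_lit 1) (nat_lit 11) (nat_lit 2) (nat_lit 1) (nat_lit 2) true (nat_lit 3) true (nat_lit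 8) true (nat_lit 1) true (nat_lit 8) true (nat_lit 9) (.e true (nat_lit 12) (nat_lit 23) (nat_lit 7) (nat_lit 3) (.e true (nat_lit 12) (nat_lit 48) (nat_lit 2) (nat_lit 8) (.e false (nat_lit 12) (nat_lit 45) (nat_lit 2) (nat_lit 8) (.e false (nat_lit 12) (nat_lit 49) (nat_lit 2) (nat_lit 8) (.e true (nat_lit 12) (nat_lit 53) (nat_lit 2) (nat_lit 8) (.e true (nat_lit 12) (nat_lit 54) (nat_lit 2) (nat_lit 8) (.e true (nat_lit 12) (nat_lit 55) (nat_lit 2) (nat_lit 8) (.e false (nat_lit 12) (nat_lit 57) (nat_lit 1) (nat_lit 9) .nil)))))))))) (.nd .leaf (nat_lit 17420) (nat_lit 173) (.p (nat_lit 81) (nat_lit 2) (.p (nat_lit 82) (nat_lit 16) (.p (nat_lit 83) (nat_lit 28) (.p (nat_lit 84) (nat_lit 6) (.n (nat_lit 85) (nat_lit 20) (.n (nat_lit 86) (nat_lit 14) (.p (nat_lit 87) (nat_lit 8) (.n (nat_lit 88) (nat_lit 22) (.p (nat_lit 89) (nat_lit 2) (.n (nat_lit 90) (nat_lit 8) (.p (nat_lit 91) (nat_lit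 6) (.n (nat_lit 92) (nat_lit 8) (.n (nat_lit 93) (nat_lit 8) (.n (nat_lit 94) (nat_lit 18) (.n (nat_lit 96) (nat_lit 24) (.p (nat_lit 97) (nat_lit 36) (.n (nat_lit 98) (nat_lit 10) (.p (nat_lit 99) (nat_lit 12) (.p (nat_lit 100) (nat_lit 12) (.p (nat_lit 102) (nat_lit 2) (.p (nat_lit 103) (nat_lit 18) (.n (nat_lit 104) (nat_lit 4) (.p (nat_lit 105) (nat_lit 4) .z))))))))))))))))))))))) (.ct dBe_c291 (nat_lit 12) (nat_lit 1) (.s true (nat_lit 1) (nat_lit 6) (nat_lit 0) (nat_lit 2) (nat_lit 6) true (nat_lit 1) true (nat_lit 4) true (nat_lit 4) true (nat_lit 10) true (nat_lit 8) (.e true (nat_lit 12) (nat_lit 28) (nat_lit 6) (nat_lit 4) (.e true (nat_lit 12) (nat_lit 26) (nat_lit 6) (nat_lit 4) (.e false (nat_lit 12) (nat_lit 27) (nat_lit 6) (nat_lit 4) (.e false (nat_lit 12) (nat_lit 30) (nat_lit 6) (nat_lit 4) (.e false (nat_lit 12) (nat_lit 31) (nat_lit 6) (nat_lit 4) (.e true (nat_lit 6) (nat_lit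 68) (nat_lit 0) (nat_lit 10) (.e false (nat_lit 6) (nat_lit 69) (nat_lit 0) (nat_lit 10) (.e true (nat_lit 6) (nat_lit 70) (nat_lit 0) (nat_lit 10) (.e false (nat_lit 6) (nat_lit 71) (nat_lit 0) (nat_lit 10) .nil))))))))))) .leaf)) (nat_lit 17423) (nat_lit 214) (.n (nat_lit 107) (nat_lit 18) (.n (nat_lit 108) (nat_lit 6) (.p (nat_lit 109) (nat_lit 12) (.p (nat_lit 110) (nat_lit 24) (.p (nat_lit 111) (nat_lit 18) (.p (nat_lit 112) (nat_lit 30) (.p (nat_lit 113) (nat_lit 3) (.p (nat_lit 114) (nat_lit 15) (.p (nat_lit 115) (nat_lit 3) (.n (nat_lit 116) (nat_lit 12) (.p (nat_lit 117) (nat_lit 9) (.n (nat_lit 118) (nat_lit 3) (.p (nat_lit 119) (nat_lit 3) (.n (nat_lit 120) (nat_lit 9) (.n (nat_lit 121) (nat_lit 12) (.n (nat_lit 122) (nat_lit 9) .z)))))))))))))))) (.ct dBe_c276 (nat_lit 12) (nat_lit 0) (.s true (nat_lit 1) (nat_lit 15) (nat_lit 1) (nat_lit 2) (nat_lit 2) true (nat_lit 3) true (nat_lit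 6) true (nat_lit 0) true (nat_lit 7) true (nat_lit 6) (.e true (nat_lit 12) (nat_lit 35) (nat_lit 6) (nat_lit 3) (.e false (nat_lit 12) (nat_lit 74) (nat_lit 1) (nat_lit 7) (.e true (nat_lit 12) (nat_lit 76) (nat_lit 1) (nat_lit 7) (.e true (nat_lit 12) (nat_lit 56) (nat_lit 2) (nat_lit 6) (.e false (nat_lit 12) (nat_lit 57) (nat_lit 2) (nat_lit 6) (.e true (nat_lit 12) (nat_lit 58) (nat_lit 2) (nat_lit 6) (.e false (nat_lit 12) (nat_lit 62) (nat_lit 2) (nat_lit 6) (.e false (nat_lit 12) (nat_lit 65) (nat_lit 2) (nat_lit 6) (.e true (nat_lit 12) (nat_lit 66) (nat_lit 2) (nat_lit 6) .nil))))))))))) (.nd (.nd .leaf (nat_lit 17424) (nat_lit 216) (.n (nat_lit 107) (nat_lit 24) (.p (nat_lit 108) (nat_lit 24) (.p (nat_lit 111) (nat_lit 12) (.p (nat_lit 112) (nat_lit 24) (.n (nat_lit 113) (nat_lit 12) (.p (nat_lit 115) (nat_lit 12) (.p (nat_lit 116) (nat_lit 12) (.p (nat_lit 117) (nat_lit 12) (.n (nat_lit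 120) (nat_lit 12) .z))))))))) (.ct dBe_c276 (nat_lit 12) (nat_lit 0) (.s true (nat_lit 1) (nat_lit 16) (nat_lit 1) (nat_lit 2) (nat_lit 2) true (nat_lit 3) true (nat_lit 6) true (nat_lit 0) true (nat_lit 7) true (nat_lit 6) (.e true (nat_lit 12) (nat_lit 36) (nat_lit 6) (nat_lit 3) (.e true (nat_lit 12) (nat_lit 60) (nat_lit 2) (nat_lit 6) (.e false (nat_lit 24) (nat_lit 74) (nat_lit 1) (nat_lit 7) (.e false (nat_lit 24) (nat_lit 75) (nat_lit 1) (nat_lit 7) (.e false (nat_lit 12) (nat_lit 62) (nat_lit 2) (nat_lit 6) .nil))))))) .leaf) (nat_lit 17425) (nat_lit 237) (.p (nat_lit 124) (nat_lit 6) (.n (nat_lit 125) (nat_lit 6) (.p (nat_lit 126) (nat_lit 6) (.n (nat_lit 127) (nat_lit 6) (.n (nat_lit 128) (nat_lit 12) (.p (nat_lit 129) (nat_lit 12) (.n (nat_lit 130) (nat_lit 12) (.p (nat_lit 132) (nat_lit 12) .z)))))))) (.ct dBe_c36 (nat_lit 12) (nat_lit 0) (.s false (nat_lit 1) (nat_lit 6) (nat_lit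 2) (nat_lit 2) (nat_lit 6) true (nat_lit 0) true (nat_lit 3) true (nat_lit 3) true (nat_lit 5) true (nat_lit 5) (.e false (nat_lit 12) (nat_lit 38) (nat_lit 6) (nat_lit 3) (.e false (nat_lit 12) (nat_lit 39) (nat_lit 6) (nat_lit 3) (.e true (nat_lit 12) (nat_lit 40) (nat_lit 6) (nat_lit 3) (.e true (nat_lit 6) (nat_lit 68) (nat_lit 2) (nat_lit 5) (.e false (nat_lit 6) (nat_lit 69) (nat_lit 2) (nat_lit 5) (.e true (nat_lit 6) (nat_lit 70) (nat_lit 2) (nat_lit 5) (.e false (nat_lit 6) (nat_lit 71) (nat_lit 2) (nat_lit 5) .nil))))))))) (.nd .leaf (nat_lit 18432) (nat_lit 33) (.n (nat_lit 26) (nat_lit 24) (.p (nat_lit 27) (nat_lit 12) (.n (nat_lit 28) (nat_lit 12) (.p (nat_lit 29) (nat_lit 12) (.p (nat_lit 30) (nat_lit 12) (.p (nat_lit 31) (nat_lit 12) .z)))))) (.ct dBe_c274 (nat_lit 12) (nat_lit 4) (.s true (nat_lit 1) (nat_lit 2) (nat_lit 1) (nat_lit 0) (nat_lit 2) false (nat_lit 0) true (nat_lit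 2) true (nat_lit 2) true (nat_lit 3) true (nat_lit 4) (.e true (nat_lit 12) (nat_lit 6) (nat_lit 5) (nat_lit 0) (.e true (nat_lit 12) (nat_lit 12) (nat_lit 2) (nat_lit 2) (.e true (nat_lit 12) (nat_lit 10) (nat_lit 2) (nat_lit 2) (.e false (nat_lit 12) (nat_lit 15) (nat_lit 1) (nat_lit 3) .nil)))))) .leaf)))) (nat_lit 18433) (nat_lit 38) (.n (nat_lit 32) (nat_lit 12) (.p (nat_lit 33) (nat_lit 12) (.p (nat_lit 34) (nat_lit 12) .z))) (.ct dBe_c34 (nat_lit 12) (nat_lit 3) (.s false (nat_lit 1) (nat_lit 2) (nat_lit 1) (nat_lit 1) (nat_lit 2) true (nat_lit 0) true (nat_lit 2) true (nat_lit 2) true (nat_lit 3) true (nat_lit 3) (.a false (nat_lit 72) (nat_lit 6) (nat_lit 6) (nat_lit 0) (nat_lit 0) (.e false (nat_lit 12) (nat_lit 14) (nat_lit 2) (nat_lit 2) (.e true (nat_lit 12) (nat_lit 13) (nat_lit 2) (nat_lit 2) (.e false (nat_lit 12) (nat_lit 17) (nat_lit 1) (nat_lit 3) .nil)))))) (.nd (.nd (.nd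 (.nd .leaf (nat_lit 18434) (nat_lit 45) (.p (nat_lit 39) (nat_lit 12) .z) .df .leaf) (nat_lit 18435) (nat_lit 71) (.n (nat_lit 44) (nat_lit 12) (.n (nat_lit 45) (nat_lit 12) (.n (nat_lit 46) (nat_lit 12) (.p (nat_lit 47) (nat_lit 12) (.p (nat_lit 55) (nat_lit 12) .z))))) (.ct dBe_c290 (nat_lit 12) (nat_lit 4) (.s false (nat_lit 1) (nat_lit 3) (nat_lit 2) (nat_lit 2) (nat_lit 1) true (nat_lit 1) true (nat_lit 6) true (nat_lit 4) true (nat_lit 5) true (nat_lit 5) (.e false (nat_lit 12) (nat_lit 10) (nat_lit 6) (nat_lit 1) (.e false (nat_lit 12) (nat_lit 26) (nat_lit 1) (nat_lit 6) (.e true (nat_lit 12) (nat_lit 23) (nat_lit 2) (nat_lit 5) (.e true (nat_lit 12) (nat_lit 24) (nat_lit 2) (nat_lit 5) (.e true (nat_lit 12) (nat_lit 25) (nat_lit 2) (nat_lit 5) .nil))))))) (.nd .leaf (nat_lit 18437) (nat_lit 91) (.n (nat_lit 57) (nat_lit 12) (.n (nat_lit 58) (nat_lit 12) (.p (nat_lit 59) (nat_lit 12)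 (.n (nat_lit 60) (nat_lit 12) (.n (nat_lit 61) (nat_lit 12) (.p (nat_lit 62) (nat_lit 12) (.p (nat_lit 65) (nat_lit 12) .z))))))) (.ct dBe_c275 (nat_lit 12) (nat_lit 2) (.s true (nat_lit 1) (nat_lit 7) (nat_lit 0) (nat_lit 1) (nat_lit 2) true (nat_lit 2) true (nat_lit 4) true (nat_lit 0) true (nat_lit 6) true (nat_lit 5) (.e true (nat_lit 12) (nat_lit 30) (nat_lit 2) (nat_lit 4) (.e false (nat_lit 12) (nat_lit 10) (nat_lit 7) (nat_lit 0) (.e false (nat_lit 12) (nat_lit 39) (nat_lit 0) (nat_lit 6) (.e true (nat_lit 12) (nat_lit 40) (nat_lit 0) (nat_lit 6) (.e true (nat_lit 12) (nat_lit 37) (nat_lit 1) (nat_lit 5) .nil))))))) .leaf)) (nat_lit 18438) (nat_lit 101) (.p (nat_lit 68) (nat_lit 24) (.n (nat_lit 69) (nat_lit 24) (.p (nat_lit 70) (nat_lit 12) (.n (nat_lit 71) (nat_lit 12) (.n (nat_lit 72) (nat_lit 12) .z))))) (.ct dBe_c35 (nat_lit 12) (nat_lit 1) (.s true (nat_lit 1) (nat_lit 7) (nat_lit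 2) (nat_lit 1) (nat_lit 1) true (nat_lit 1) true (nat_lit 4) true (nat_lit 0) true (nat_lit 3) true (nat_lit 4) (.e true (nat_lit 12) (nat_lit 40) (nat_lit 1) (nat_lit 4) (.e true (nat_lit 12) (nat_lit 14) (nat_lit 7) (nat_lit 0) (.e false (nat_lit 24) (nat_lit 33) (nat_lit 2) (nat_lit 3) (.e true (nat_lit 24) (nat_lit 34) (nat_lit 2) (nat_lit 3) (.e false (nat_lit 12) (nat_lit 39) (nat_lit 1) (nat_lit 4) .nil))))))) (.nd (.nd .leaf (nat_lit 18439) (nat_lit 118) (.p (nat_lit 78) (nat_lit 24) (.n (nat_lit 79) (nat_lit 24) .z)) (.ct dBe_c20 (nat_lit 12) (nat_lit 0) (.s true (nat_lit 1) (nat_lit 7) (nat_lit 2) (nat_lit 1) (nat_lit 2) true (nat_lit 0) true (nat_lit 2) true (nat_lit 0) true (nat_lit 2) true (nat_lit 3) (.e true (nat_lit 24) (nat_lit 40) (nat_lit 2) (nat_lit 2) (.e true (nat_lit 12) (nat_lit 17) (nat_lit 7) (nat_lit 0) (.e false (nat_lit 12) (nat_lit 39) (nat_lit 2) (nat_lit 2) (.e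 false (nat_lit 12) (nat_lit 41) (nat_lit 1) (nat_lit 3) .nil)))))) .leaf) (nat_lit 18442) (nat_lit 181) (.p (nat_lit 81) (nat_lit 12) (.p (nat_lit 88) (nat_lit 12) (.n (nat_lit 89) (nat_lit 12) (.n (nat_lit 103) (nat_lit 12) .z)))) (.ct dBe_c291 (nat_lit 12) (nat_lit 1) (.s true (nat_lit 1) (nat_lit 10) (nat_lit 2) (nat_lit 2) (nat_lit 1) true (nat_lit 4) true (nat_lit 9) true (nat_lit 1) true (nat_lit 8) true (nat_lit 8) (.e true (nat_lit 12) (nat_lit 26) (nat_lit 6) (nat_lit 4) (.e true (nat_lit 12) (nat_lit 56) (nat_lit 1) (nat_lit 9) (.e false (nat_lit 12) (nat_lit 55) (nat_lit 2) (nat_lit 8) (.e false (nat_lit 12) (nat_lit 43) (nat_lit 2) (nat_lit 8) .nil)))))) (.nd .leaf (nat_lit 18443) (nat_lit 175) (.n (nat_lit 81) (nat_lit 34) (.p (nat_lit 82) (nat_lit 52) (.p (nat_lit 83) (nat_lit 52) (.p (nat_lit 84) (nat_lit 42) (.n (nat_lit 85) (nat_lit 32) (.n (nat_lit 86) (nat_lit 14) (.p (nat_lit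 87) (nat_lit 8) (.p (nat_lit 88) (nat_lit 2) (.p (nat_lit 89) (nat_lit 14) (.n (nat_lit 90) (nat_lit 44) (.p (nat_lit 91) (nat_lit 6) (.n (nat_lit 92) (nat_lit 32) (.p (nat_lit 93) (nat_lit 4) (.p (nat_lit 94) (nat_lit 6) (.n (nat_lit 95) (nat_lit 24) (.p (nat_lit 97) (nat_lit 36) (.n (nat_lit 98) (nat_lit 10) (.n (nat_lit 100) (nat_lit 12) (.n (nat_lit 101) (nat_lit 12) (.n (nat_lit 102) (nat_lit 10) (.p (nat_lit 103) (nat_lit 18) (.p (nat_lit 104) (nat_lit 8) (.n (nat_lit 105) (nat_lit 8) (.n (nat_lit 106) (nat_lit 24) .z)))))))))))))))))))))))) (.ct dBe_c291 (nat_lit 12) (nat_lit 1) (.s true (nat_lit 1) (nat_lit 11) (nat_lit 2) (nat_lit 2) (nat_lit 1) true (nat_lit 4) true (nat_lit 9) true (nat_lit 1) true (nat_lit 8) true (nat_lit 8) (.e true (nat_lit 12) (nat_lit 27) (nat_lit 6) (nat_lit 4) (.e true (nat_lit 12) (nat_lit 57) (nat_lit 1) (nat_lit 9) (.e false (nat_lit 12) (nat_lit 45) (nat_lit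 2) (nat_lit 8) (.e false (nat_lit 12) (nat_lit 49) (nat_lit 2) (nat_lit 8) (.e true (nat_lit 12) (nat_lit 53) (nat_lit 2) (nat_lit 8) (.e true (nat_lit 12) (nat_lit 54) (nat_lit 2) (nat_lit 8) (.e true (nat_lit 12) (nat_lit 55) (nat_lit 2) (nat_lit 8) (.e false (nat_lit 12) (nat_lit 44) (nat_lit 2) (nat_lit 8) .nil)))))))))) .leaf))) (nat_lit 18444) (nat_lit 172) (.n (nat_lit 81) (nat_lit 10) (.p (nat_lit 82) (nat_lit 28) (.p (nat_lit 83) (nat_lit 52) (.p (nat_lit 84) (nat_lit 30) (.n (nat_lit 85) (nat_lit 32) (.n (nat_lit 86) (nat_lit 2) (.p (nat_lit 87) (nat_lit 8) (.p (nat_lit 88) (nat_lit 2) (.p (nat_lit 89) (nat_lit 14) (.n (nat_lit 90) (nat_lit 44) (.n (nat_lit 91) (nat_lit 6) (.n (nat_lit 92) (nat_lit 32) (.p (nat_lit 93) (nat_lit 4) (.n (nat_lit 94) (nat_lit 6) (.n (nat_lit 95) (nat_lit 12) (.p (nat_lit 97) (nat_lit 36) (.n (nat_lit 98) (nat_lit 10) (.n (nat_lit 101) (nat_lit 12) (.n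 (nat_lit 102) (nat_lit 10) (.p (nat_lit 103) (nat_lit 18) (.p (nat_lit 104) (nat_lit 8) (.n (nat_lit 105) (nat_lit 8) .z)))))))))))))))))))))) (.ct dBe_c291 (nat_lit 12) (nat_lit 1) (.s true (nat_lit 1) (nat_lit 7) (nat_lit 0) (nat_lit 1) (nat_lit 6) true (nat_lit 1) true (nat_lit 4) true (nat_lit 3) true (nat_lit 10) true (nat_lit 9) (.e true (nat_lit 12) (nat_lit 30) (nat_lit 6) (nat_lit 4) (.e true (nat_lit 12) (nat_lit 20) (nat_lit 7) (nat_lit 3) (.e false (nat_lit 12) (nat_lit 23) (nat_lit 7) (nat_lit 3) (.e false (nat_lit 12) (nat_lit 24) (nat_lit 7) (nat_lit 3) (.e false (nat_lit 12) (nat_lit 25) (nat_lit 7) (nat_lit 3) (.e false (nat_lit 12) (nat_lit 72) (nat_lit 0) (nat_lit 10) (.e true (nat_lit 12) (nat_lit 57) (nat_lit 1) (nat_lit 9) (.e true (nat_lit 12) (nat_lit 58) (nat_lit 1) (nat_lit 9) (.e false (nat_lit 12) (nat_lit 59) (nat_lit 1) (nat_lit 9) (.e true (nat_lit 12) (nat_lit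 61) (nat_lit 1) (nat_lit 9) (.e false (nat_lit 12) (nat_lit 62) (nat_lit 1) (nat_lit 9) (.e false (nat_lit 12) (nat_lit 63) (nat_lit 1) (nat_lit 9) .nil)))))))))))))) (.nd (.nd (.nd .leaf (nat_lit 18447) (nat_lit 213) (.p (nat_lit 107) (nat_lit 48) (.n (nat_lit 108) (nat_lit 36) (.p (nat_lit 109) (nat_lit 12) (.n (nat_lit 110) (nat_lit 12) (.n (nat_lit 111) (nat_lit 36) (.n (nat_lit 112) (nat_lit 36) (.p (nat_lit 113) (nat_lit 12) (.n (nat_lit 115) (nat_lit 12) (.n (nat_lit 116) (nat_lit 12) (.p (nat_lit 118) (nat_lit 12) (.p (nat_lit 120) (nat_lit 12) .z))))))))))) (.ct dBe_c276 (nat_lit 12) (nat_lit 0) (.s true (nat_lit 1) (nat_lit 7) (nat_lit 5) (nat_lit 1) (nat_lit 2) true (nat_lit 0) true (nat_lit 6) true (nat_lit 2) true (nat_lit 4) true (nat_lit 7) (.e false (nat_lit 12) (nat_lit 62) (nat_lit 2) (nat_lit 6) (.e false (nat_lit 12) (nat_lit 63) (nat_lit 2) (nat_lit 6) (.e true (nat_lit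 12) (nat_lit 27) (nat_lit 7) (nat_lit 2) (.e false (nat_lit 12) (nat_lit 39) (nat_lit 5) (nat_lit 4) (.e true (nat_lit 12) (nat_lit 40) (nat_lit 5) (nat_lit 4) (.e true (nat_lit 12) (nat_lit 75) (nat_lit 1) (nat_lit 7) (.e true (nat_lit 12) (nat_lit 76) (nat_lit 1) (nat_lit 7) .nil))))))))) .leaf) (nat_lit 18448) (nat_lit 217) (.p (nat_lit 116) (nat_lit 24) (.p (nat_lit 118) (nat_lit 24) (.n (nat_lit 119) (nat_lit 24) (.n (nat_lit 120) (nat_lit 12) .z)))) (.ct dBe_c276 (nat_lit 12) (nat_lit 0) (.s false (nat_lit 1) (nat_lit 7) (nat_lit 1) (nat_lit 0) (nat_lit 7) false (nat_lit 0) true (nat_lit 2) true (nat_lit 2) true (nat_lit 7) true (nat_lit 8) (.e true (nat_lit 24) (nat_lit 26) (nat_lit 7) (nat_lit 2) (.e false (nat_lit 24) (nat_lit 29) (nat_lit 7) (nat_lit 2) (.e false (nat_lit 12) (nat_lit 30) (nat_lit 7) (nat_lit 2) (.e false (nat_lit 24) (nat_lit 31) (nat_lit 7) (nat_lit 2) (.e true (nat_lit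 24) (nat_lit 74) (nat_lit 1) (nat_lit 7) (.e true (nat_lit 24) (nat_lit 75) (nat_lit 1) (nat_lit 7) .nil)))))))) (.nd .leaf (nat_lit 18450) (nat_lit 240) (.p (nat_lit 123) (nat_lit 12) (.n (nat_lit 124) (nat_lit 36) (.p (nat_lit 125) (nat_lit 12) (.p (nat_lit 129) (nat_lit 24) (.n (nat_lit 130) (nat_lit 12) (.p (nat_lit 131) (nat_lit 12) .z)))))) (.ct dBe_c36 (nat_lit 12) (nat_lit 0) (.s false (nat_lit 1) (nat_lit 7) (nat_lit 1) (nat_lit 1) (nat_lit 7) true (nat_lit 0) true (nat_lit 2) true (nat_lit 2) true (nat_lit 6) true (nat_lit 6) (.e true (nat_lit 12) (nat_lit 32) (nat_lit 7) (nat_lit 2) (.e true (nat_lit 12) (nat_lit 33) (nat_lit 7) (nat_lit 2) (.e false (nat_lit 36) (nat_lit 34) (nat_lit 7) (nat_lit 2) (.e false (nat_lit 24) (nat_lit 78) (nat_lit 1) (nat_lit 6) (.e true (nat_lit 24) (nat_lit 79) (nat_lit 1) (nat_lit 6) .nil))))))) .leaf)) (nat_lit 19456) (nat_lit 42) (.p (nat_lit 37)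 (nat_lit 12) .z) .df (.nd (.nd .leaf (nat_lit 19457) (nat_lit 46) (.p (nat_lit 40) (nat_lit 12) .z) .df .leaf) (nat_lit 19458) (nat_lit 48) (.p (nat_lit 41) (nat_lit 12) .z) .df .leaf)))) (nat_lit 19459) (nat_lit 92) (.p (nat_lit 57) (nat_lit 12) (.n (nat_lit 58) (nat_lit 12) (.n (nat_lit 59) (nat_lit 12) (.n (nat_lit 61) (nat_lit 12) (.p (nat_lit 65) (nat_lit 12) .z))))) (.ct dBe_c275 (nat_lit 12) (nat_lit 3) (.s false (nat_lit 1) (nat_lit 3) (nat_lit 2) (nat_lit 2) (nat_lit 2) true (nat_lit 0) true (nat_lit 4) true (nat_lit 3) true (nat_lit 4) true (nat_lit 4) (.e false (nat_lit 12) (nat_lit 10) (nat_lit 7) (nat_lit 0) (.e false (nat_lit 12) (nat_lit 27) (nat_lit 2) (nat_lit 4) (.e true (nat_lit 12) (nat_lit 28) (nat_lit 2) (nat_lit 4) (.e true (nat_lit 12) (nat_lit 29) (nat_lit 2) (nat_lit 4) (.e true (nat_lit 12) (nat_lit 31) (nat_lit 2) (nat_lit 4) .nil))))))) (.nd (.nd (.nd (.nd (.nd .leaf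 (nat_lit 19460) (nat_lit 105) (.n (nat_lit 67) (nat_lit 12) (.p (nat_lit 68) (nat_lit 12) (.p (nat_lit 69) (nat_lit 12) (.n (nat_lit 71) (nat_lit 12) (.n (nat_lit 72) (nat_lit 12) .z))))) (.ct dBe_c35 (nat_lit 12) (nat_lit 2) (.s true (nat_lit 1) (nat_lit 4) (nat_lit 2) (nat_lit 2) (nat_lit 2) true (nat_lit 0) true (nat_lit 3) true (nat_lit 2) true (nat_lit 3) true (nat_lit 3) (.e true (nat_lit 12) (nat_lit 13) (nat_lit 7) (nat_lit 0) (.e true (nat_lit 24) (nat_lit 33) (nat_lit 2) (nat_lit 3) (.e false (nat_lit 24) (nat_lit 34) (nat_lit 2) (nat_lit 3) .nil))))) .leaf) (nat_lit 19461) (nat_lit 112) (.n (nat_lit 75) (nat_lit 12) (.n (nat_lit 76) (nat_lit 12) .z)) (.ct dBe_c260 (nat_lit 12) (nat_lit 1) (.s false (nat_lit 1) (nat_lit 5) (nat_lit 2) (nat_lit 2) (nat_lit 2) true (nat_lit 0) true (nat_lit 2) true (nat_lit 1) true (nat_lit 2) true (nat_lit 2) (.e false (nat_lit 12) (nat_lit 15) (nat_lit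 7) (nat_lit 0) (.e true (nat_lit 12) (nat_lit 36) (nat_lit 2) (nat_lit 2) (.e true (nat_lit 12) (nat_lit 37) (nat_lit 2) (nat_lit 2) .nil))))) (.nd .leaf (nat_lit 19462) (nat_lit 119) (.p (nat_lit 79) (nat_lit 12) (.n (nat_lit 80) (nat_lit 12) .z)) (.ct dBe_c20 (nat_lit 12) (nat_lit 1) (.s true (nat_lit 1) (nat_lit 6) (nat_lit 2) (nat_lit 2) (nat_lit 2) true (nat_lit 0) true (nat_lit 2) true (nat_lit 1) true (nat_lit 2) true (nat_lit 2) (.e true (nat_lit 12) (nat_lit 17) (nat_lit 7) (nat_lit 0) (.e true (nat_lit 12) (nat_lit 39) (nat_lit 2) (nat_lit 2) (.e false (nat_lit 12) (nat_lit 40) (nat_lit 2) (nat_lit 2) .nil))))) .leaf)) (nat_lit 19465) (nat_lit 178) (.p (nat_lit 81) (nat_lit 28) (.n (nat_lit 82) (nat_lit 88) (.n (nat_lit 83) (nat_lit 136) (.n (nat_lit 84) (nat_lit 60) (.p (nat_lit 85) (nat_lit 80) (.p (nat_lit 86) (nat_lit 44) (.n (nat_lit 87) (nat_lit 32) (.p (nat_lit 88) (nat_lit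 52) (.n (nat_lit 89) (nat_lit 20) (.p (nat_lit 90) (nat_lit 56) (.n (nat_lit 91) (nat_lit 12) (.p (nat_lit 92) (nat_lit 32) (.p (nat_lit 93) (nat_lit 32) (.p (nat_lit 94) (nat_lit 60) (.p (nat_lit 95) (nat_lit 12) (.p (nat_lit 96) (nat_lit 60) (.n (nat_lit 97) (nat_lit 108) (.p (nat_lit 98) (nat_lit 28) (.n (nat_lit 99) (nat_lit 12) (.n (nat_lit 100) (nat_lit 12) (.p (nat_lit 101) (nat_lit 24) (.p (nat_lit 102) (nat_lit 16) (.n (nat_lit 103) (nat_lit 60) (.p (nat_lit 104) (nat_lit 16) (.n (nat_lit 105) (nat_lit 16) .z))))))))))))))))))))))))) (.ct dBe_c291 (nat_lit 12) (nat_lit 2) (.s false (nat_lit 1) (nat_lit 19) (nat_lit 1) (nat_lit 1) (nat_lit 0) true (nat_lit 7) true (nat_lit 10) false (nat_lit 2) true (nat_lit 9) true (nat_lit 9) (.e false (nat_lit 12) (nat_lit 40) (nat_lit 3) (nat_lit 7) (.e false (nat_lit 12) (nat_lit 71) (nat_lit 0) (nat_lit 10) (.e false (nat_lit 12) (nat_lit 57) (nat_lit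 1) (nat_lit 9) (.e true (nat_lit 12) (nat_lit 58) (nat_lit 1) (nat_lit 9) (.e true (nat_lit 12) (nat_lit 59) (nat_lit 1) (nat_lit 9) (.e true (nat_lit 12) (nat_lit 61) (nat_lit 1) (nat_lit 9) (.e false (nat_lit 12) (nat_lit 65) (nat_lit 1) (nat_lit 9) (.e true (nat_lit 12) (nat_lit 63) (nat_lit 1) (nat_lit 9) .nil)))))))))) (.nd (.nd .leaf (nat_lit 19466) (nat_lit 220) (.p (nat_lit 108) (nat_lit 24) (.n (nat_lit 110) (nat_lit 24) (.n (nat_lit 113) (nat_lit 12) (.n (nat_lit 114) (nat_lit 24) (.p (nat_lit 115) (nat_lit 12) (.n (nat_lit 117) (nat_lit 12) (.n (nat_lit 118) (nat_lit 12) (.p (nat_lit 119) (nat_lit 24) (.p (nat_lit 120) (nat_lit 12) .z))))))))) (.ct dBe_c276 (nat_lit 12) (nat_lit 1) (.s true (nat_lit 1) (nat_lit 7) (nat_lit 3) (nat_lit 2) (nat_lit 2) true (nat_lit 1) true (nat_lit 6) true (nat_lit 2) true (nat_lit 5) true (nat_lit 6) (.e true (nat_lit 12) (nat_lit 26) (nat_lit 7) (nat_lit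 2) (.e false (nat_lit 12) (nat_lit 65) (nat_lit 2) (nat_lit 6) .nil)))) .leaf) (nat_lit 19467) (nat_lit 212) (.p (nat_lit 107) (nat_lit 12) (.n (nat_lit 109) (nat_lit 12) (.n (nat_lit 110) (nat_lit 12) (.n (nat_lit 111) (nat_lit 24) (.n (nat_lit 112) (nat_lit 24) (.p (nat_lit 113) (nat_lit 6) (.n (nat_lit 114) (nat_lit 18) (.n (nat_lit 115) (nat_lit 6) (.p (nat_lit 116) (nat_lit 12) (.p (nat_lit 117) (nat_lit 6) (.p (nat_lit 118) (nat_lit 6) (.p (nat_lit 119) (nat_lit 6) (.p (nat_lit 120) (nat_lit 6) (.n (nat_lit 122) (nat_lit 6) .z)))))))))))))) (.ct dBe_c276 (nat_lit 12) (nat_lit 1) (.s false (nat_lit 1) (nat_lit 19) (nat_lit 2) (nat_lit 0) (nat_lit 1) true (nat_lit 3) true (nat_lit 7) false (nat_lit 1) true (nat_lit 6) true (nat_lit 8) (.e true (nat_lit 12) (nat_lit 37) (nat_lit 6) (nat_lit 3) (.e false (nat_lit 12) (nat_lit 76) (nat_lit 1) (nat_lit 7) (.e true (nat_lit 12) (nat_lit 57) (nat_lit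 2) (nat_lit 6) (.e false (nat_lit 12) (nat_lit 58) (nat_lit 2) (nat_lit 6) (.e false (nat_lit 12) (nat_lit 59) (nat_lit 2) (nat_lit 6) (.e false (nat_lit 12) (nat_lit 61) (nat_lit 2) (nat_lit 6) (.e true (nat_lit 12) (nat_lit 65) (nat_lit 2) (nat_lit 6) (.e false (nat_lit 12) (nat_lit 79) (nat_lit 0) (nat_lit 8) .nil)))))))))) (.nd .leaf (nat_lit 19468) (nat_lit 211) (.p (nat_lit 107) (nat_lit 12) (.n (nat_lit 108) (nat_lit 48) (.p (nat_lit 109) (nat_lit 12) (.p (nat_lit 110) (nat_lit 36) (.p (nat_lit 113) (nat_lit 18) (.p (nat_lit 114) (nat_lit 30) (.n (nat_lit 115) (nat_lit 18) (.n (nat_lit 116) (nat_lit 12) (.p (nat_lit 117) (nat_lit 18) (.p (nat_lit 118) (nat_lit 18) (.n (nat_lit 119) (nat_lit 18) (.n (nat_lit 120) (nat_lit 18) (.n (nat_lit 122) (nat_lit 6) .z))))))))))))) (.ct dBe_c276 (nat_lit 12) (nat_lit 1) (.s false (nat_lit 1) (nat_lit 19) (nat_lit 2) (nat_lit 1) (nat_lit 0) true (nat_lit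 4) true (nat_lit 8) false (nat_lit 1) true (nat_lit 6) true (nat_lit 7) (.e false (nat_lit 12) (nat_lit 40) (nat_lit 5) (nat_lit 4) (.e false (nat_lit 12) (nat_lit 80) (nat_lit 0) (nat_lit 8) (.e false (nat_lit 12) (nat_lit 57) (nat_lit 2) (nat_lit 6) (.e true (nat_lit 12) (nat_lit 58) (nat_lit 2) (nat_lit 6) (.e true (nat_lit 12) (nat_lit 59) (nat_lit 2) (nat_lit 6) (.e true (nat_lit 12) (nat_lit 61) (nat_lit 2) (nat_lit 6) (.e false (nat_lit 12) (nat_lit 65) (nat_lit 2) (nat_lit 6) (.e true (nat_lit 12) (nat_lit 75) (nat_lit 1) (nat_lit 7) .nil)))))))))) .leaf))) (nat_lit 19470) (nat_lit 238) (.n (nat_lit 128) (nat_lit 12) (.p (nat_lit 131) (nat_lit 12) .z)) (.ct dBe_c36 (nat_lit 12) (nat_lit 1) (.s false (nat_lit 1) (nat_lit 14) (nat_lit 2) (nat_lit 2) (nat_lit 2) true (nat_lit 2) true (nat_lit 5) true (nat_lit 1) true (nat_lit 5) true (nat_lit 5) (.e false (nat_lit 12) (nat_lit 33) (nat_lit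 7) (nat_lit 2) (.e true (nat_lit 12) (nat_lit 72) (nat_lit 2) (nat_lit 5) .nil)))) (.nd (.nd (.nd .leaf (nat_lit 20482) (nat_lit 49) (.p (nat_lit 42) (nat_lit 12) .z) .df .leaf) (nat_lit 20487) (nat_lit 157) (.p (nat_lit 81) (nat_lit 20) (.n (nat_lit 82) (nat_lit 20) (.n (nat_lit 83) (nat_lit 32) (.n (nat_lit 84) (nat_lit 12) (.p (nat_lit 85) (nat_lit 4) (.p (nat_lit 86) (nat_lit 16) (.n (nat_lit 87) (nat_lit 16) (.p (nat_lit 88) (nat_lit 8) (.n (nat_lit 89) (nat_lit 4) (.p (nat_lit 90) (nat_lit 4) (.n (nat_lit 91) (nat_lit 12) (.n (nat_lit 92) (nat_lit 8) (.p (nat_lit 93) (nat_lit 16) (.p (nat_lit 94) (nat_lit 12) (.p (nat_lit 96) (nat_lit 18) (.n (nat_lit 97) (nat_lit 18) (.p (nat_lit 98) (nat_lit 2) (.n (nat_lit 99) (nat_lit 6) (.p (nat_lit 101) (nat_lit 12) (.p (nat_lit 102) (nat_lit 8) (.n (nat_lit 103) (nat_lit 12) (.n (nat_lit 104) (nat_lit 4) (.p (nat_lit 105) (nat_lit 4) (.p (nat_lit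 106) (nat_lit 12) .z)))))))))))))))))))))))) (.ct dBe_c291 (nat_lit 12) (nat_lit 3) (.s false (nat_lit 1) (nat_lit 6) (nat_lit 3) (nat_lit 2) (nat_lit 2) true (nat_lit 1) true (nat_lit 8) true (nat_lit 4) true (nat_lit 7) true (nat_lit 8) (.s true (nat_lit 1) (nat_lit 7) (nat_lit 1) (nat_lit 3) (nat_lit 2) true (nat_lit 4) true (nat_lit 8) true (nat_lit 3) true (nat_lit 9) true (nat_lit 7) (.s false (nat_lit 1) (nat_lit 7) (nat_lit 2) (nat_lit 3) (nat_lit 1) true (nat_lit 4) true (nat_lit 9) true (nat_lit 3) true (nat_lit 8) true (nat_lit 7) (.s true (nat_lit 1) (nat_lit 10) (nat_lit 2) (nat_lit 1) (nat_lit 2) true (nat_lit 3) true (nat_lit 8) true (nat_lit 1) true (nat_lit 8) true (nat_lit 9) (.e false (nat_lit 12) (nat_lit 44) (nat_lit 2) (nat_lit 8) (.e false (nat_lit 12) (nat_lit 45) (nat_lit 2) (nat_lit 8) (.e false (nat_lit 12) (nat_lit 46) (nat_lit 2) (nat_lit 8) (.e false (nat_lit 12)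 (nat_lit 26) (nat_lit 6) (nat_lit 4) (.e true (nat_lit 12) (nat_lit 47) (nat_lit 2) (nat_lit 8) (.e false (nat_lit 12) (nat_lit 57) (nat_lit 1) (nat_lit 9) (.e true (nat_lit 12) (nat_lit 58) (nat_lit 1) (nat_lit 9) (.e true (nat_lit 12) (nat_lit 59) (nat_lit 1) (nat_lit 9) (.e true (nat_lit 12) (nat_lit 61) (nat_lit 1) (nat_lit 9) (.e true (nat_lit 12) (nat_lit 43) (nat_lit 2) (nat_lit 8) (.e false (nat_lit 12) (nat_lit 56) (nat_lit 1) (nat_lit 9) .nil)))))))))))))))) (.nd .leaf (nat_lit 21506) (nat_lit 66) (.n (nat_lit 43) (nat_lit 12) (.p (nat_lit 44) (nat_lit 12) (.n (nat_lit 45) (nat_lit 12) (.n (nat_lit 47) (nat_lit 12) (.p (nat_lit 48) (nat_lit 12) (.n (nat_lit 49) (nat_lit 12) (.p (nat_lit 51) (nat_lit 12) (.p (nat_lit 54) (nat_lit 24) (.p (nat_lit 55) (nat_lit 24) .z))))))))) (.ct dBe_c290 (nat_lit 12) (nat_lit 5) (.s false (nat_lit 1) (nat_lit 6) (nat_lit 0) (nat_lit 2) (nat_lit 1)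 true (nat_lit 4) true (nat_lit 6) true (nat_lit 1) true (nat_lit 7) true (nat_lit 5) (.e false (nat_lit 12) (nat_lit 17) (nat_lit 3) (nat_lit 4) (.e false (nat_lit 12) (nat_lit 28) (nat_lit 1) (nat_lit 6) (.e true (nat_lit 12) (nat_lit 11) (nat_lit 6) (nat_lit 1) (.e true (nat_lit 12) (nat_lit 20) (nat_lit 2) (nat_lit 5) (.e true (nat_lit 12) (nat_lit 22) (nat_lit 2) (nat_lit 5) (.e false (nat_lit 24) (nat_lit 23) (nat_lit 2) (nat_lit 5) (.e false (nat_lit 12) (nat_lit 24) (nat_lit 2) (nat_lit 5) (.e false (nat_lit 12) (nat_lit 25) (nat_lit 2) (nat_lit 5) .nil)))))))))) .leaf)) (nat_lit 21511) (nat_lit 159) (.n (nat_lit 81) (nat_lit 20) (.p (nat_lit 82) (nat_lit 20) (.p (nat_lit 83) (nat_lit 20) (.p (nat_lit 84) (nat_lit 36) (.n (nat_lit 85) (nat_lit 4) (.p (nat_lit 86) (nat_lit 8) (.p (nat_lit 87) (nat_lit 16) (.n (nat_lit 88) (nat_lit 8) (.p (nat_lit 89) (nat_lit 4) (.p (nat_lit 90) (nat_lit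 8) (.p (nat_lit 92) (nat_lit 8) (.n (nat_lit 93) (nat_lit 4) (.n (nat_lit 94) (nat_lit 12) (.n (nat_lit 95) (nat_lit 12) (.p (nat_lit 96) (nat_lit 12) (.p (nat_lit 97) (nat_lit 12) (.p (nat_lit 98) (nat_lit 4) (.n (nat_lit 99) (nat_lit 12) (.n (nat_lit 100) (nat_lit 12) (.n (nat_lit 102) (nat_lit 8) (.p (nat_lit 103) (nat_lit 12) (.n (nat_lit 104) (nat_lit 8) (.p (nat_lit 105) (nat_lit 8) .z))))))))))))))))))))))) (.ct dBe_c291 (nat_lit 12) (nat_lit 3) (.s false (nat_lit 1) (nat_lit 7) (nat_lit 1) (nat_lit 5) (nat_lit 1) true (nat_lit 6) true (nat_lit 9) true (nat_lit 3) true (nat_lit 9) true (nat_lit 5) (.s true (nat_lit 1) (nat_lit 7) (nat_lit 4) (nat_lit 0) (nat_lit 2) true (nat_lit 0) true (nat_lit 8) true (nat_lit 3) true (nat_lit 6) true (nat_lit 10) (.s true (nat_lit 1) (nat_lit 13) (nat_lit 2) (nat_lit 2) (nat_lit 0) true (nat_lit 5) true (nat_lit 10) true (nat_lit 0) true (nat_lit 8)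 true (nat_lit 8) (.e false (nat_lit 24) (nat_lit 57) (nat_lit 1) (nat_lit 9) (.e true (nat_lit 24) (nat_lit 58) (nat_lit 1) (nat_lit 9) (.e false (nat_lit 12) (nat_lit 62) (nat_lit 1) (nat_lit 9) (.e false (nat_lit 24) (nat_lit 65) (nat_lit 1) (nat_lit 9) (.e false (nat_lit 12) (nat_lit 23) (nat_lit 7) (nat_lit 3) (.e true (nat_lit 24) (nat_lit 56) (nat_lit 1) (nat_lit 9) (.e true (nat_lit 12) (nat_lit 63) (nat_lit 1) (nat_lit 9) (.e true (nat_lit 12) (nat_lit 33) (nat_lit 5) (nat_lit 5) (.e true (nat_lit 12) (nat_lit 34) (nat_lit 5) (nat_lit 5) (.e false (nat_lit 24) (nat_lit 54) (nat_lit 2) (nat_lit 8) (.e true (nat_lit 24) (nat_lit 67) (nat_lit 0) (nat_lit 10) (.e false (nat_lit 12) (nat_lit 68) (nat_lit 0) (nat_lit 10) (.e false (nat_lit 12) (nat_lit 69) (nat_lit 0) (nat_lit 10) (.e true (nat_lit 12) (nat_lit 71) (nat_lit 0) (nat_lit 10) (.e true (nat_lit 12) (nat_lit 72) (nat_lit 0) (nat_lit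 10) (.e true (nat_lit 12) (nat_lit 43) (nat_lit 2) (nat_lit 8) (.e false (nat_lit 24) (nat_lit 46) (nat_lit 2) (nat_lit 8) (.e false (nat_lit 12) (nat_lit 48) (nat_lit 2) (nat_lit 8) (.e true (nat_lit 12) (nat_lit 49) (nat_lit 2) (nat_lit 8) (.e false (nat_lit 12) (nat_lit 55) (nat_lit 2) (nat_lit 8) .nil)))))))))))))))))))))))) (.nd (.nd .leaf (nat_lit 22530) (nat_lit 50) (.p (nat_lit 43) (nat_lit 12) .z) .df .leaf) (nat_lit 22535) (nat_lit 170) (.p (nat_lit 81) (nat_lit 12) (.n (nat_lit 85) (nat_lit 24) (.p (nat_lit 88) (nat_lit 12) (.p (nat_lit 89) (nat_lit 12) (.n (nat_lit 94) (nat_lit 12) (.p (nat_lit 103) (nat_lit 12) .z)))))) (.ct dBe_c291 (nat_lit 12) (nat_lit 3) (.s false (nat_lit 1) (nat_lit 10) (nat_lit 1) (nat_lit 2) (nat_lit 2) true (nat_lit 4) true (nat_lit 8) true (nat_lit 1) true (nat_lit 9) true (nat_lit 8) (.s true (nat_lit 1) (nat_lit 10) (nat_lit 2) (nat_lit 1) (nat_lit 2)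 true (nat_lit 3) true (nat_lit 8) true (nat_lit 1) true (nat_lit 8) true (nat_lit 9) (.e false (nat_lit 12) (nat_lit 26) (nat_lit 6) (nat_lit 4) (.e false (nat_lit 12) (nat_lit 43) (nat_lit 2) (nat_lit 8) (.e true (nat_lit 12) (nat_lit 65) (nat_lit 1) (nat_lit 9) (.e true (nat_lit 24) (nat_lit 47) (nat_lit 2) (nat_lit 8) (.e false (nat_lit 12) (nat_lit 55) (nat_lit 2) (nat_lit 8) (.e false (nat_lit 12) (nat_lit 56) (nat_lit 1) (nat_lit 9) .nil))))))))) .leaf))) (nat_lit 23554) (nat_lit 51) (.p (nat_lit 44) (nat_lit 12) .z) .df (.nd (.nd (.nd (.nd .leaf (nat_lit 23559) (nat_lit 140) (.p (nat_lit 101) (nat_lit 12) .z) .df .leaf) (nat_lit 24578) (nat_lit 52) (.p (nat_lit 45) (nat_lit 12) .z) .df (.nd .leaf (nat_lit 24583) (nat_lit 161) (.p (nat_lit 81) (nat_lit 20) (.n (nat_lit 82) (nat_lit 32) (.n (nat_lit 83) (nat_lit 44) (.n (nat_lit 84) (nat_lit 12) (.p (nat_lit 85) (nat_lit 16) (.p (nat_lit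 86) (nat_lit 28) (.n (nat_lit 87) (nat_lit 16) (.p (nat_lit 88) (nat_lit 20) (.n (nat_lit 89) (nat_lit 4) (.p (nat_lit 90) (nat_lit 28) (.n (nat_lit 91) (nat_lit 12) (.p (nat_lit 92) (nat_lit 16) (.p (nat_lit 93) (nat_lit 16) (.p (nat_lit 94) (nat_lit 12) (.p (nat_lit 96) (nat_lit 42) (.n (nat_lit 97) (nat_lit 42) (.p (nat_lit 98) (nat_lit 14) (.n (nat_lit 99) (nat_lit 18) (.n (nat_lit 100) (nat_lit 12) (.n (nat_lit 102) (nat_lit 4) (.n (nat_lit 103) (nat_lit 12) (.n (nat_lit 104) (nat_lit 4) (.p (nat_lit 105) (nat_lit 4) (.p (nat_lit 106) (nat_lit 12) .z)))))))))))))))))))))))) (.ct dBe_c291 (nat_lit 12) (nat_lit 3) (.s false (nat_lit 1) (nat_lit 6) (nat_lit 0) (nat_lit 2) (nat_lit 6) true (nat_lit 1) true (nat_lit 4) true (nat_lit 4) true (nat_lit 10) true (nat_lit 8) (.s true (nat_lit 1) (nat_lit 6) (nat_lit 0) (nat_lit 6) (nat_lit 2) true (nat_lit 5) true (nat_lit 8) true (nat_lit 4) true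 (nat_lit 10) true (nat_lit 4) (.s true (nat_lit 1) (nat_lit 12) (nat_lit 2) (nat_lit 1) (nat_lit 2) true (nat_lit 3) true (nat_lit 8) true (nat_lit 1) true (nat_lit 8) true (nat_lit 9) (.e false (nat_lit 24) (nat_lit 28) (nat_lit 6) (nat_lit 4) (.e false (nat_lit 12) (nat_lit 26) (nat_lit 6) (nat_lit 4) (.e true (nat_lit 12) (nat_lit 27) (nat_lit 6) (nat_lit 4) (.e true (nat_lit 12) (nat_lit 30) (nat_lit 6) (nat_lit 4) (.e false (nat_lit 12) (nat_lit 68) (nat_lit 0) (nat_lit 10) (.e true (nat_lit 12) (nat_lit 69) (nat_lit 0) (nat_lit 10) (.e false (nat_lit 12) (nat_lit 70) (nat_lit 0) (nat_lit 10) (.e true (nat_lit 12) (nat_lit 71) (nat_lit 0) (nat_lit 10) (.e true (nat_lit 12) (nat_lit 49) (nat_lit 2) (nat_lit 8) (.e false (nat_lit 12) (nat_lit 58) (nat_lit 1) (nat_lit 9) .nil)))))))))))))) .leaf)) (nat_lit 25602) (nat_lit 53) (.p (nat_lit 46) (nat_lit 12) .z) .df (.nd (.nd .leaf (nat_lit 25607)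 (nat_lit 141) (.p (nat_lit 102) (nat_lit 12) .z) .df .leaf) (nat_lit 26625) (nat_lit 54) (.p (nat_lit 47) (nat_lit 12) .z) .df (.nd .leaf (nat_lit 26626) (nat_lit 75) (.p (nat_lit 56) (nat_lit 12) .z) .df .leaf))) (nat_lit 26630) (nat_lit 142) (.p (nat_lit 103) (nat_lit 12) .z) .df (.nd (.nd (.nd .leaf (nat_lit 26631) (nat_lit 202) (.n (nat_lit 108) (nat_lit 24) (.p (nat_lit 110) (nat_lit 24) (.p (nat_lit 113) (nat_lit 12) (.p (nat_lit 114) (nat_lit 24) (.n (nat_lit 115) (nat_lit 12) (.p (nat_lit 116) (nat_lit 12) (.p (nat_lit 117) (nat_lit 12) (.p (nat_lit 118) (nat_lit 12) (.n (nat_lit 119) (nat_lit 24) (.n (nat_lit 120) (nat_lit 12) .z)))))))))) (.ct dBe_c276 (nat_lit 24) (nat_lit 2) (.s true (nat_lit 2) (nat_lit 7) (nat_lit 3) (nat_lit 2) (nat_lit 2) true (nat_lit 1) true (nat_lit 6) true (nat_lit 2) true (nat_lit 5) true (nat_lit 6) (.s false (nat_lit 1) (nat_lit 19) (nat_lit 0) (nat_lit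 1) (nat_lit 2) true (nat_lit 4) true (nat_lit 6) false (nat_lit 1) true (nat_lit 8) true (nat_lit 7) (.s true (nat_lit 1) (nat_lit 19) (nat_lit 1) (nat_lit 0) (nat_lit 2) true (nat_lit 3) true (nat_lit 6) false (nat_lit 1) true (nat_lit 7) true (nat_lit 8) (.e true (nat_lit 12) (nat_lit 57) (nat_lit 2) (nat_lit 6) (.e true (nat_lit 12) (nat_lit 58) (nat_lit 2) (nat_lit 6) (.e false (nat_lit 12) (nat_lit 59) (nat_lit 2) (nat_lit 6) (.e true (nat_lit 12) (nat_lit 61) (nat_lit 2) (nat_lit 6) (.e false (nat_lit 24) (nat_lit 65) (nat_lit 2) (nat_lit 6) (.e false (nat_lit 12) (nat_lit 40) (nat_lit 5) (nat_lit 4) (.e false (nat_lit 24) (nat_lit 63) (nat_lit 2) (nat_lit 6) (.e true (nat_lit 12) (nat_lit 79) (nat_lit 0) (nat_lit 8) (.e false (nat_lit 12) (nat_lit 37) (nat_lit 6) (nat_lit 3) (.e false (nat_lit 12) (nat_lit 62) (nat_lit 2) (nat_lit 6) (.e true (nat_lit 12) (nat_lit 64) (nat_lit 2) (nat_lit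 6) (.e true (nat_lit 12) (nat_lit 75) (nat_lit 1) (nat_lit 7) .nil)))))))))))))))) .leaf) (nat_lit 27649) (nat_lit 55) (.p (nat_lit 48) (nat_lit 12) .z) .df (.nd .leaf (nat_lit 27650) (nat_lit 76) (.p (nat_lit 57) (nat_lit 12) .z) .df .leaf)) (nat_lit 27654) (nat_lit 143) (.p (nat_lit 104) (nat_lit 12) .z) .df (.nd (.nd .leaf (nat_lit 27655) (nat_lit 205) (.n (nat_lit 107) (nat_lit 36) (.p (nat_lit 108) (nat_lit 36) (.p (nat_lit 111) (nat_lit 36) (.p (nat_lit 112) (nat_lit 36) (.n (nat_lit 113) (nat_lit 6) (.p (nat_lit 114) (nat_lit 6) (.p (nat_lit 115) (nat_lit 6) (.n (nat_lit 117) (nat_lit 6) (.n (nat_lit 118) (nat_lit 6) (.n (nat_lit 119) (nat_lit 6) (.n (nat_lit 120) (nat_lit 6) (.p (nat_lit 122) (nat_lit 6) .z)))))))))))) (.ct dBe_c276 (nat_lit 12) (nat_lit 2) (.s true (nat_lit 1) (nat_lit 11) (nat_lit 2) (nat_lit 2) (nat_lit 2) true (nat_lit 2) true (nat_lit 6) true (nat_lit 1) true (nat_lit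 6) true (nat_lit 6) (.s true (nat_lit 1) (nat_lit 19) (nat_lit 2) (nat_lit 0) (nat_lit 1) true (nat_lit 3) true (nat_lit 7) false (nat_lit 1) true (nat_lit 6) true (nat_lit 8) (.e false (nat_lit 48) (nat_lit 57) (nat_lit 2) (nat_lit 6) (.e true (nat_lit 24) (nat_lit 56) (nat_lit 2) (nat_lit 6) (.e true (nat_lit 24) (nat_lit 58) (nat_lit 2) (nat_lit 6) (.e true (nat_lit 24) (nat_lit 59) (nat_lit 2) (nat_lit 6) (.e false (nat_lit 12) (nat_lit 60) (nat_lit 2) (nat_lit 6) (.e true (nat_lit 12) (nat_lit 63) (nat_lit 2) (nat_lit 6) (.e false (nat_lit 24) (nat_lit 65) (nat_lit 2) (nat_lit 6) (.e false (nat_lit 12) (nat_lit 37) (nat_lit 6) (nat_lit 3) (.e true (nat_lit 12) (nat_lit 76) (nat_lit 1) (nat_lit 7) (.e true (nat_lit 12) (nat_lit 79) (nat_lit 0) (nat_lit 8) .nil))))))))))))) .leaf) (nat_lit 28673) (nat_lit 56) (.p (nat_lit 49) (nat_lit 12) .z) .df .leaf)))))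

noncomputable def dBe_t2 : Tr := (.nd dBe_t0 (nat_lit 16397) (nat_lit 177) (.p (nat_lit 81) (nat_lit 8) (.n (nat_lit 82) (nat_lit 8) (.n (nat_lit 83) (nat_lit 8) (.p (nat_lit 84) (nat_lit 24) (.n (nat_lit 85) (nat_lit 8) (.p (nat_lit 86) (nat_lit 16) (.p (nat_lit 87) (nat_lit 32) (.n (nat_lit 88) (nat_lit 16) (.p (nat_lit 89) (nat_lit 8) (.p (nat_lit 90) (nat_lit 16) (.p (nat_lit 92) (nat_lit 16) (.n (nat_lit 93) (nat_lit 8) (.n (nat_lit 94) (nat_lit 24) (.n (nat_lit 95) (nat_lit 12) (.p (nat_lit 96) (nat_lit 36) (.n (nat_lit 97) (nat_lit 12) (.p (nat_lit 98) (nat_lit 8) (.n (nat_lit 99) (nat_lit 12) (.n (nat_lit 100) (nat_lit 12) (.n (nat_lit 102) (nat_lit 4) (.p (nat_lit 103) (nat_lit 24) (.n (nat_lit 104) (nat_lit 16) (.p (nat_lit 105) (nat_lit 16) .z))))))))))))))))))))))) (.ct dBe_c291 (nat_lit 12) (nat_lit 0) (.s true (nat_lit 1) (nat_lit 13) (nat_lit 2) (nat_lit 2) (nat_lit 0) true (nat_lit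 5) true (nat_lit 10) true (nat_lit 0) true (nat_lit 8) true (nat_lit 8) (.e true (nat_lit 12) (nat_lit 32) (nat_lit 5) (nat_lit 5) (.e true (nat_lit 12) (nat_lit 67) (nat_lit 0) (nat_lit 10) (.e true (nat_lit 12) (nat_lit 43) (nat_lit 2) (nat_lit 8) (.e false (nat_lit 24) (nat_lit 46) (nat_lit 2) (nat_lit 8) (.e false (nat_lit 12) (nat_lit 48) (nat_lit 2) (nat_lit 8) (.e true (nat_lit 12) (nat_lit 49) (nat_lit 2) (nat_lit 8) (.e false (nat_lit 24) (nat_lit 53) (nat_lit 2) (nat_lit 8) (.e false (nat_lit 12) (nat_lit 55) (nat_lit 2) (nat_lit 8) .nil)))))))))) dBe_t1)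

noncomputable def dBe_t3 : Tr := (.nd (.nd (.nd (.nd (.nd (.nd .leaf (nat_lit 28678) (nat_lit 144) (.p (nat_lit 105) (nat_lit 12) .z) .df .leaf) (nat_lit 28679) (nat_lit 209) (.n (nat_lit 107) (nat_lit 12) (.p (nat_lit 108) (nat_lit 36) (.n (nat_lit 110) (nat_lit 24) (.p (nat_lit 111) (nat_lit 12) (.p (nat_lit 112) (nat_lit 12) (.n (nat_lit 113) (nat_lit 6) (.n (nat_lit 114) (nat_lit 18) (.p (nat_lit 115) (nat_lit 6) (.n (nat_lit 117) (nat_lit 18) (.n (nat_lit 118) (nat_lit 18) (.p (nat_lit 119) (nat_lit 18) (.p (nat_lit 120) (nat_lit 18) (.p (nat_lit 122) (nat_lit 6) .z))))))))))))) (.ct dBe_c276 (nat_lit 12) (nat_lit 2) (.s true (nat_lit 1) (nat_lit 7) (nat_lit 0) (nat_lit 7) (nat_lit 1) true (nat_lit 5) true (nat_lit 7) true (nat_lit 2) true (nat_lit 8) true (nat_lit 2) (.e true (nat_lit 24) (nat_lit 74) (nat_lit 1) (nat_lit 7) (.e true (nat_lit 24) (nat_lit 75) (nat_lit 1) (nat_lit 7) (.e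 false (nat_lit 24) (nat_lit 30) (nat_lit 7) (nat_lit 2) (.e true (nat_lit 24) (nat_lit 78) (nat_lit 0) (nat_lit 8) (.e false (nat_lit 24) (nat_lit 79) (nat_lit 0) (nat_lit 8) (.e true (nat_lit 24) (nat_lit 26) (nat_lit 7) (nat_lit 2) (.e false (nat_lit 12) (nat_lit 27) (nat_lit 7) (nat_lit 2) (.e false (nat_lit 12) (nat_lit 29) (nat_lit 7) (nat_lit 2) (.e false (nat_lit 12) (nat_lit 31) (nat_lit 7) (nat_lit 2) .nil))))))))))) (.nd .leaf (nat_lit 29697) (nat_lit 57) (.p (nat_lit 50) (nat_lit 12) .z) .df .leaf)) (nat_lit 29698) (nat_lit 78) (.p (nat_lit 59) (nat_lit 12) .z) .df (.nd (.nd .leaf (nat_lit 29702) (nat_lit 145) (.p (nat_lit 106) (nat_lit 12) .z) .df .leaf) (nat_lit 29703) (nat_lit 207) (.n (nat_lit 107) (nat_lit 36) (.p (nat_lit 108) (nat_lit 48) (.n (nat_lit 109) (nat_lit 12) (.n (nat_lit 110) (nat_lit 12) (.p (nat_lit 111) (nat_lit 36) (.p (nat_lit 112) (nat_lit 24) (.n (nat_lit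 113) (nat_lit 18) (.n (nat_lit 114) (nat_lit 6) (.p (nat_lit 115) (nat_lit 18) (.p (nat_lit 116) (nat_lit 12) (.n (nat_lit 117) (nat_lit 18) (.n (nat_lit 118) (nat_lit 18) (.p (nat_lit 119) (nat_lit 6) (.p (nat_lit 120) (nat_lit 6) (.p (nat_lit 122) (nat_lit 18) .z))))))))))))))) (.ct dBe_c276 (nat_lit 24) (nat_lit 2) (.s false (nat_lit 1) (nat_lit 7) (nat_lit 0) (nat_lit 7) (nat_lit 1) true (nat_lit 5) true (nat_lit 7) true (nat_lit 2) true (nat_lit 8) true (nat_lit 2) (.s false (nat_lit 1) (nat_lit 7) (nat_lit 2) (nat_lit 2) (nat_lit 3) true (nat_lit 1) true (nat_lit 5) true (nat_lit 2) true (nat_lit 6) true (nat_lit 6) (.s true (nat_lit 1) (nat_lit 19) (nat_lit 0) (nat_lit 1) (nat_lit 2) true (nat_lit 4) true (nat_lit 6) false (nat_lit 1) true (nat_lit 8) true (nat_lit 7) (.s true (nat_lit 1) (nat_lit 19) (nat_lit 1) (nat_lit 2) (nat_lit 0) true (nat_lit 5) true (nat_lit 8) false (nat_lit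 1) true (nat_lit 7) true (nat_lit 6) (.s false (nat_lit 1) (nat_lit 19) (nat_lit 2) (nat_lit 1) (nat_lit 0) true (nat_lit 4) true (nat_lit 8) false (nat_lit 1) true (nat_lit 6) true (nat_lit 7) (.e false (nat_lit 24) (nat_lit 74) (nat_lit 1) (nat_lit 7) (.e false (nat_lit 24) (nat_lit 75) (nat_lit 1) (nat_lit 7) (.e true (nat_lit 24) (nat_lit 30) (nat_lit 7) (nat_lit 2) (.e false (nat_lit 24) (nat_lit 78) (nat_lit 0) (nat_lit 8) (.e true (nat_lit 24) (nat_lit 79) (nat_lit 0) (nat_lit 8) (.e false (nat_lit 24) (nat_lit 26) (nat_lit 7) (nat_lit 2) (.e true (nat_lit 24) (nat_lit 31) (nat_lit 7) (nat_lit 2) (.e false (nat_lit 24) (nat_lit 65) (nat_lit 2) (nat_lit 6) .nil)))))))))))))) (.nd .leaf (nat_lit 30721) (nat_lit 58) (.p (nat_lit 51) (nat_lit 12) .z) .df .leaf))) (nat_lit 30722) (nat_lit 79) (.p (nat_lit 60) (nat_lit 12) .z) .df (.nd (.nd (.nd .leaf (nat_lit 30726) (nat_lit 146) (.p (nat_lit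 81) (nat_lit 12) (.n (nat_lit 82) (nat_lit 12) (.n (nat_lit 83) (nat_lit 12) (.n (nat_lit 84) (nat_lit 24) (.p (nat_lit 85) (nat_lit 12) (.n (nat_lit 86) (nat_lit 12) (.n (nat_lit 88) (nat_lit 24) (.n (nat_lit 89) (nat_lit 12) (.p (nat_lit 90) (nat_lit 24) (.p (nat_lit 91) (nat_lit 12) (.p (nat_lit 92) (nat_lit 24) (.n (nat_lit 93) (nat_lit 12) (.n (nat_lit 94) (nat_lit 12) (.p (nat_lit 95) (nat_lit 12) (.n (nat_lit 96) (nat_lit 12) (.n (nat_lit 97) (nat_lit 12) (.p (nat_lit 98) (nat_lit 12) (.p (nat_lit 100) (nat_lit 12) (.p (nat_lit 101) (nat_lit 12) (.p (nat_lit 102) (nat_lit 12) (.p (nat_lit 103) (nat_lit 12) (.n (nat_lit 104) (nat_lit 24) (.p (nat_lit 105) (nat_lit 24) .z))))))))))))))))))))))) (.ct dBe_c291 (nat_lit 12) (nat_lit 4) (.s true (nat_lit 2) (nat_lit 6) (nat_lit 0) (nat_lit 6) (nat_lit 2) true (nat_lit 5) true (nat_lit 8) true (nat_lit 4) true (nat_lit 10) true (nat_lit 4) (.s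 true (nat_lit 1) (nat_lit 6) (nat_lit 1) (nat_lit 5) (nat_lit 2) true (nat_lit 4) true (nat_lit 8) true (nat_lit 4) true (nat_lit 9) true (nat_lit 5) (.s false (nat_lit 1) (nat_lit 6) (nat_lit 2) (nat_lit 1) (nat_lit 5) false (nat_lit 0) true (nat_lit 5) true (nat_lit 4) true (nat_lit 8) true (nat_lit 9) (.s false (nat_lit 1) (nat_lit 6) (nat_lit 2) (nat_lit 5) (nat_lit 1) true (nat_lit 4) true (nat_lit 9) true (nat_lit 4) true (nat_lit 8) true (nat_lit 5) (.s true (nat_lit 1) (nat_lit 7) (nat_lit 2) (nat_lit 4) (nat_lit 0) true (nat_lit 5) true (nat_lit 10) true (nat_lit 3) true (nat_lit 8) true (nat_lit 6) (.s false (nat_lit 1) (nat_lit 11) (nat_lit 2) (nat_lit 1) (nat_lit 2) true (nat_lit 3) true (nat_lit 8) true (nat_lit 1) true (nat_lit 8) true (nat_lit 9) (.s true (nat_lit 1) (nat_lit 14) (nat_lit 2) (nat_lit 2) (nat_lit 0) true (nat_lit 5) true (nat_lit 10) true (nat_lit 0) true (nat_lit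 8) true (nat_lit 8) (.s true (nat_lit 1) (nat_lit 16) (nat_lit 1) (nat_lit 2) (nat_lit 1) true (nat_lit 6) true (nat_lit 9) false (nat_lit 0) true (nat_lit 9) true (nat_lit 8) dBe_i0))))))))) .leaf) (nat_lit 30727) (nat_lit 196) (.p (nat_lit 120) (nat_lit 12) .z) .df (.nd .leaf (nat_lit 31745) (nat_lit 64) (.n (nat_lit 43) (nat_lit 12) (.p (nat_lit 44) (nat_lit 12) (.p (nat_lit 45) (nat_lit 12) (.p (nat_lit 46) (nat_lit 12) (.p (nat_lit 47) (nat_lit 12) (.n (nat_lit 50) (nat_lit 12) (.n (nat_lit 51) (nat_lit 12) (.p (nat_lit 53) (nat_lit 12) (.n (nat_lit 54) (nat_lit 12) .z))))))))) (.ct dBe_c290 (nat_lit 12) (nat_lit 6) (.s false (nat_lit 1) (nat_lit 3) (nat_lit 1) (nat_lit 2) (nat_lit 2) true (nat_lit 1) true (nat_lit 5) true (nat_lit 4) true (nat_lit 6) true (nat_lit 5) (.e false (nat_lit 12) (nat_lit 10) (nat_lit 6) (nat_lit 1) (.e false (nat_lit 12) (nat_lit 20) (nat_lit 2) (nat_lit 5)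 (.e true (nat_lit 12) (nat_lit 17) (nat_lit 3) (nat_lit 4) (.e false (nat_lit 12) (nat_lit 27) (nat_lit 1) (nat_lit 6) (.e true (nat_lit 12) (nat_lit 28) (nat_lit 1) (nat_lit 6) (.e true (nat_lit 12) (nat_lit 29) (nat_lit 1) (nat_lit 6) (.e true (nat_lit 12) (nat_lit 22) (nat_lit 2) (nat_lit 5) .nil))))))))) .leaf)) (nat_lit 31746) (nat_lit 80) (.p (nat_lit 61) (nat_lit 12) .z) .df (.nd (.nd .leaf (nat_lit 31750) (nat_lit 148) (.n (nat_lit 81) (nat_lit 10) (.p (nat_lit 82) (nat_lit 28) (.p (nat_lit 83) (nat_lit 40) (.p (nat_lit 84) (nat_lit 30) (.n (nat_lit 85) (nat_lit 32) (.n (nat_lit 86) (nat_lit 2) (.p (nat_lit 87) (nat_lit 8) (.p (nat_lit 88) (nat_lit 2) (.p (nat_lit 89) (nat_lit 14) (.n (nat_lit 90) (nat_lit 32) (.n (nat_lit 91) (nat_lit 6) (.n (nat_lit 92) (nat_lit 32) (.p (nat_lit 93) (nat_lit 4) (.n (nat_lit 94) (nat_lit 6) (.n (nat_lit 95) (nat_lit 12) (.n (nat_lit 96) (nat_lit 6)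 (.p (nat_lit 97) (nat_lit 42) (.n (nat_lit 98) (nat_lit 16) (.p (nat_lit 99) (nat_lit 6) (.n (nat_lit 101) (nat_lit 12) (.n (nat_lit 102) (nat_lit 10) (.p (nat_lit 103) (nat_lit 18) (.p (nat_lit 104) (nat_lit 8) (.n (nat_lit 105) (nat_lit 8) .z)))))))))))))))))))))))) (.ct dBe_c291 (nat_lit 36) (nat_lit 4) (.s false (nat_lit 9) (nat_lit 6) (nat_lit 0) (nat_lit 2) (nat_lit 6) true (nat_lit 1) true (nat_lit 4) true (nat_lit 4) true (nat_lit 10) true (nat_lit 8) (.s false (nat_lit 3) (nat_lit 6) (nat_lit 0) (nat_lit 6) (nat_lit 2) true (nat_lit 5) true (nat_lit 8) true (nat_lit 4) true (nat_lit 10) true (nat_lit 4) (.s true (nat_lit 6) (nat_lit 6) (nat_lit 1) (nat_lit 5) (nat_lit 2) true (nat_lit 4) true (nat_lit 8) true (nat_lit 4) true (nat_lit 9) true (nat_lit 5) (.s true (nat_lit 3) (nat_lit 6) (nat_lit 2) (nat_lit 2) (nat_lit 3) true (nat_lit 1) true (nat_lit 7) true (nat_lit 4) true (nat_lit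 8) true (nat_lit 8) (.s true (nat_lit 3) (nat_lit 6) (nat_lit 2) (nat_lit 5) (nat_lit 1) true (nat_lit 4) true (nat_lit 9) true (nat_lit 4) true (nat_lit 8) true (nat_lit 5) (.s true (nat_lit 1) (nat_lit 6) (nat_lit 3) (nat_lit 2) (nat_lit 2) true (nat_lit 1) true (nat_lit 8) true (nat_lit 4) true (nat_lit 7) true (nat_lit 8) (.s true (nat_lit 4) (nat_lit 7) (nat_lit 0) (nat_lit 1) (nat_lit 6) true (nat_lit 1) true (nat_lit 4) true (nat_lit 3) true (nat_lit 10) true (nat_lit 9) (.s false (nat_lit 3) (nat_lit 7) (nat_lit 1) (nat_lit 5) (nat_lit 1) true (nat_lit 6) true (nat_lit 9) true (nat_lit 3) true (nat_lit 9) true (nat_lit 5) (.s true (nat_lit 1) (nat_lit 7) (nat_lit 2) (nat_lit 3) (nat_lit 1) true (nat_lit 4) true (nat_lit 9) true (nat_lit 3) true (nat_lit 8) true (nat_lit 7) (.s true (nat_lit 3) (nat_lit 7) (nat_lit 4) (nat_lit 0) (nat_lit 2) true (nat_lit 0) true (nat_lit 8) true (nat_lit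 3) true (nat_lit 6) true (nat_lit 10) (.s true (nat_lit 4) (nat_lit 7) (nat_lit 6) (nat_lit 1) (nat_lit 0) true (nat_lit 1) true (nat_lit 10) true (nat_lit 3) true (nat_lit 4) true (nat_lit 9) (.s true (nat_lit 1) (nat_lit 9) (nat_lit 2) (nat_lit 2) (nat_lit 2) true (nat_lit 3) true (nat_lit 8) true (nat_lit 2) true (nat_lit 8) true (nat_lit 8) (.s false (nat_lit 7) (nat_lit 10) (nat_lit 1) (nat_lit 2) (nat_lit 2) true (nat_lit 4) true (nat_lit 8) true (nat_lit 1) true (nat_lit 9) true (nat_lit 8) (.s false (nat_lit 4) (nat_lit 11) (nat_lit 1) (nat_lit 2) (nat_lit 2) true (nat_lit 4) true (nat_lit 8) true (nat_lit 1) true (nat_lit 9) true (nat_lit 8) (.s true (nat_lit 3) (nat_lit 10) (nat_lit 2) (nat_lit 1) (nat_lit 2) true (nat_lit 3) true (nat_lit 8) true (nat_lit 1) true (nat_lit 8) true (nat_lit 9) (.s false (nat_lit 2) (nat_lit 11) (nat_lit 2) (nat_lit 1) (nat_lit 2) true (nat_lit 3) true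 (nat_lit 8) true (nat_lit 1) true (nat_lit 8) true (nat_lit 9) (.s false (nat_lit 4) (nat_lit 10) (nat_lit 2) (nat_lit 2) (nat_lit 1) true (nat_lit 4) true (nat_lit 9) true (nat_lit 1) true (nat_lit 8) true (nat_lit 8) (.s true (nat_lit 4) (nat_lit 11) (nat_lit 2) (nat_lit 2) (nat_lit 1) true (nat_lit 4) true (nat_lit 9) true (nat_lit 1) true (nat_lit 8) true (nat_lit 8) (.s true (nat_lit 3) (nat_lit 13) (nat_lit 2) (nat_lit 2) (nat_lit 0) true (nat_lit 5) true (nat_lit 10) true (nat_lit 0) true (nat_lit 8) true (nat_lit 8) (.s true (nat_lit 6) (nat_lit 17) (nat_lit 0) (nat_lit 2) (nat_lit 1) true (nat_lit 7) true (nat_lit 9) false (nat_lit 1) true (nat_lit 10) true (nat_lit 8) (.s false (nat_lit 4) (nat_lit 18) (nat_lit 1) (nat_lit 0) (nat_lit 2) true (nat_lit 4) true (nat_lit 8) false (nat_lit 1) true (nat_lit 9) true (nat_lit 10) dBe_i2)))))))))))))))))))))) .leaf) (nat_lit 31751) (nat_lit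 203) (.p (nat_lit 107) (nat_lit 12) (.n (nat_lit 108) (nat_lit 48) (.p (nat_lit 109) (nat_lit 12) (.p (nat_lit 110) (nat_lit 36) (.n (nat_lit 111) (nat_lit 12) (.p (nat_lit 113) (nat_lit 18) (.p (nat_lit 114) (nat_lit 30) (.n (nat_lit 115) (nat_lit 18) (.p (nat_lit 116) (nat_lit 12) (.p (nat_lit 117) (nat_lit 30) (.p (nat_lit 118) (nat_lit 30) (.n (nat_lit 119) (nat_lit 30) (.n (nat_lit 120) (nat_lit 30) (.n (nat_lit 122) (nat_lit 18) .z)))))))))))))) (.ct dBe_c276 (nat_lit 24) (nat_lit 2) (.s true (nat_lit 1) (nat_lit 7) (nat_lit 0) (nat_lit 7) (nat_lit 1) true (nat_lit 5) true (nat_lit 7) true (nat_lit 2) true (nat_lit 8) true (nat_lit 2) (.s true (nat_lit 2) (nat_lit 7) (nat_lit 1) (nat_lit 0) (nat_lit 7) false (nat_lit 0) true (nat_lit 2) true (nat_lit 2) true (nat_lit 7) true (nat_lit 8) (.s true (nat_lit 1) (nat_lit 7) (nat_lit 2) (nat_lit 2) (nat_lit 3) true (nat_lit 1) true (nat_lit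 5) true (nat_lit 2) true (nat_lit 6) true (nat_lit 6) (.s false (nat_lit 2) (nat_lit 7) (nat_lit 5) (nat_lit 2) (nat_lit 1) true (nat_lit 1) true (nat_lit 7) true (nat_lit 2) true (nat_lit 4) true (nat_lit 6) (.s false (nat_lit 2) (nat_lit 18) (nat_lit 2) (nat_lit 2) (nat_lit 0) true (nat_lit 4) true (nat_lit 8) false (nat_lit 0) true (nat_lit 6) true (nat_lit 6) (.s false (nat_lit 1) (nat_lit 19) (nat_lit 0) (nat_lit 1) (nat_lit 2) true (nat_lit 4) true (nat_lit 6) false (nat_lit 1) true (nat_lit 8) true (nat_lit 7) (.s false (nat_lit 1) (nat_lit 19) (nat_lit 1) (nat_lit 2) (nat_lit 0) true (nat_lit 5) true (nat_lit 8) false (nat_lit 1) true (nat_lit 7) true (nat_lit 6) (.s false (nat_lit 2) (nat_lit 19) (nat_lit 2) (nat_lit 0) (nat_lit 1) true (nat_lit 3) true (nat_lit 7) false (nat_lit 1) true (nat_lit 6) true (nat_lit 8) (.s true (nat_lit 1) (nat_lit 19) (nat_lit 2) (nat_lit 1) (nat_lit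 0) true (nat_lit 4) true (nat_lit 8) false (nat_lit 1) true (nat_lit 6) true (nat_lit 7) (.e false (nat_lit 48) (nat_lit 79) (nat_lit 0) (nat_lit 8) (.e false (nat_lit 24) (nat_lit 26) (nat_lit 7) (nat_lit 2) (.e true (nat_lit 48) (nat_lit 65) (nat_lit 2) (nat_lit 6) (.e true (nat_lit 48) (nat_lit 57) (nat_lit 2) (nat_lit 6) (.e false (nat_lit 48) (nat_lit 58) (nat_lit 2) (nat_lit 6) (.e false (nat_lit 24) (nat_lit 40) (nat_lit 5) (nat_lit 4) (.e true (nat_lit 24) (nat_lit 60) (nat_lit 2) (nat_lit 6) (.e false (nat_lit 48) (nat_lit 56) (nat_lit 2) (nat_lit 6) (.e false (nat_lit 24) (nat_lit 76) (nat_lit 1) (nat_lit 7) (.e true (nat_lit 24) (nat_lit 37) (nat_lit 6) (nat_lit 3) .nil)))))))))))))))))))) (.nd .leaf (nat_lit 32768) (nat_lit 59) (.p (nat_lit 52) (nat_lit 12) .z) .df .leaf)))) (nat_lit 32770) (nat_lit 95) (.p (nat_lit 67) (nat_lit 12) .z) .df (.nd (.nd (.nd (.nd .leaf (nat_lit 32773)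 (nat_lit 163) (.n (nat_lit 81) (nat_lit 4) (.p (nat_lit 82) (nat_lit 4) (.p (nat_lit 83) (nat_lit 4) (.n (nat_lit 84) (nat_lit 12) (.p (nat_lit 85) (nat_lit 4) (.n (nat_lit 86) (nat_lit 20) (.n (nat_lit 87) (nat_lit 16) (.p (nat_lit 88) (nat_lit 8) (.n (nat_lit 89) (nat_lit 4) (.n (nat_lit 90) (nat_lit 8) (.n (nat_lit 92) (nat_lit 8) (.p (nat_lit 93) (nat_lit 4) (.p (nat_lit 94) (nat_lit 12) (.n (nat_lit 96) (nat_lit 36) (.p (nat_lit 97) (nat_lit 12) (.n (nat_lit 98) (nat_lit 4) (.p (nat_lit 99) (nat_lit 12) (.p (nat_lit 100) (nat_lit 12) (.p (nat_lit 102) (nat_lit 8) (.n (nat_lit 103) (nat_lit 12) (.p (nat_lit 104) (nat_lit 8) (.n (nat_lit 105) (nat_lit 8) .z)))))))))))))))))))))) (.ct dBe_c291 (nat_lit 12) (nat_lit 5) (.s true (nat_lit 1) (nat_lit 13) (nat_lit 0) (nat_lit 2) (nat_lit 2) true (nat_lit 5) true (nat_lit 8) true (nat_lit 0) true (nat_lit 10) true (nat_lit 8) (.s true (nat_lit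 1) (nat_lit 13) (nat_lit 2) (nat_lit 0) (nat_lit 2) true (nat_lit 3) true (nat_lit 8) true (nat_lit 0) true (nat_lit 8) true (nat_lit 10) (.e true (nat_lit 24) (nat_lit 46) (nat_lit 2) (nat_lit 8) (.e true (nat_lit 36) (nat_lit 68) (nat_lit 0) (nat_lit 10) (.e false (nat_lit 12) (nat_lit 69) (nat_lit 0) (nat_lit 10) (.e false (nat_lit 12) (nat_lit 71) (nat_lit 0) (nat_lit 10) (.e false (nat_lit 12) (nat_lit 72) (nat_lit 0) (nat_lit 10) (.e true (nat_lit 24) (nat_lit 52) (nat_lit 2) (nat_lit 8) (.e false (nat_lit 12) (nat_lit 25) (nat_lit 7) (nat_lit 3) (.e false (nat_lit 12) (nat_lit 43) (nat_lit 2) (nat_lit 8) (.e true (nat_lit 12) (nat_lit 48) (nat_lit 2) (nat_lit 8) (.e false (nat_lit 12) (nat_lit 49) (nat_lit 2) (nat_lit 8) (.e true (nat_lit 24) (nat_lit 53) (nat_lit 2) (nat_lit 8) (.e true (nat_lit 12) (nat_lit 55) (nat_lit 2) (nat_lit 8) .nil))))))))))))))) .leaf) (nat_lit 32775) (nat_lit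 236) (.n (nat_lit 124) (nat_lit 24) (.p (nat_lit 125) (nat_lit 24) (.p (nat_lit 127) (nat_lit 12) (.n (nat_lit 128) (nat_lit 12) (.n (nat_lit 130) (nat_lit 12) (.p (nat_lit 131) (nat_lit 12) .z)))))) (.ct dBe_c36 (nat_lit 12) (nat_lit 2) (.s true (nat_lit 1) (nat_lit 7) (nat_lit 4) (nat_lit 2) (nat_lit 2) true (nat_lit 1) true (nat_lit 5) true (nat_lit 2) true (nat_lit 4) true (nat_lit 5) (.s false (nat_lit 1) (nat_lit 19) (nat_lit 1) (nat_lit 1) (nat_lit 2) true (nat_lit 3) true (nat_lit 5) false (nat_lit 1) true (nat_lit 6) true (nat_lit 6) (.e true (nat_lit 36) (nat_lit 68) (nat_lit 2) (nat_lit 5) (.e false (nat_lit 12) (nat_lit 69) (nat_lit 2) (nat_lit 5) (.e false (nat_lit 12) (nat_lit 67) (nat_lit 2) (nat_lit 5) (.e false (nat_lit 24) (nat_lit 71) (nat_lit 2) (nat_lit 5) (.e false (nat_lit 12) (nat_lit 72) (nat_lit 2) (nat_lit 5) (.e false (nat_lit 12) (nat_lit 40) (nat_lit 6) (nat_lit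 3) (.e true (nat_lit 12) (nat_lit 79) (nat_lit 1) (nat_lit 6) .nil)))))))))) (.nd .leaf (nat_lit 33792) (nat_lit 60) (.p (nat_lit 53) (nat_lit 12) .z) .df .leaf)) (nat_lit 33794) (nat_lit 96) (.p (nat_lit 68) (nat_lit 12) .z) .df (.nd (.nd .leaf (nat_lit 33797) (nat_lit 154) (.n (nat_lit 81) (nat_lit 12) (.p (nat_lit 85) (nat_lit 12) (.n (nat_lit 87) (nat_lit 12) (.p (nat_lit 88) (nat_lit 12) (.p (nat_lit 94) (nat_lit 12) (.n (nat_lit 97) (nat_lit 12) (.n (nat_lit 103) (nat_lit 12) (.p (nat_lit 104) (nat_lit 12) (.n (nat_lit 105) (nat_lit 12) .z))))))))) (.ct dBe_c291 (nat_lit 12) (nat_lit 5) (.s true (nat_lit 1) (nat_lit 6) (nat_lit 0) (nat_lit 2) (nat_lit 6) true (nat_lit 1) true (nat_lit 4) true (nat_lit 4) true (nat_lit 10) true (nat_lit 8) (.s true (nat_lit 1) (nat_lit 6) (nat_lit 0) (nat_lit 6) (nat_lit 2) true (nat_lit 5) true (nat_lit 8) true (nat_lit 4) true (nat_lit 10) true (nat_lit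 4) (.s false (nat_lit 1) (nat_lit 6) (nat_lit 2) (nat_lit 2) (nat_lit 3) true (nat_lit 1) true (nat_lit 7) true (nat_lit 4) true (nat_lit 8) true (nat_lit 8) (.s false (nat_lit 1) (nat_lit 6) (nat_lit 2) (nat_lit 5) (nat_lit 1) true (nat_lit 4) true (nat_lit 9) true (nat_lit 4) true (nat_lit 8) true (nat_lit 5) (.s true (nat_lit 1) (nat_lit 10) (nat_lit 1) (nat_lit 2) (nat_lit 2) true (nat_lit 4) true (nat_lit 8) true (nat_lit 1) true (nat_lit 9) true (nat_lit 8) (.s true (nat_lit 1) (nat_lit 17) (nat_lit 1) (nat_lit 2) (nat_lit 0) true (nat_lit 7) true (nat_lit 10) false (nat_lit 1) true (nat_lit 9) true (nat_lit 8) (.e true (nat_lit 12) (nat_lit 28) (nat_lit 6) (nat_lit 4) (.e true (nat_lit 12) (nat_lit 26) (nat_lit 6) (nat_lit 4) (.e false (nat_lit 12) (nat_lit 27) (nat_lit 6) (nat_lit 4) (.e true (nat_lit 12) (nat_lit 69) (nat_lit 0) (nat_lit 10) (.e true (nat_lit 12) (nat_lit 43) (nat_lit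 2) (nat_lit 8) (.e false (nat_lit 12) (nat_lit 47) (nat_lit 2) (nat_lit 8) (.e true (nat_lit 12) (nat_lit 53) (nat_lit 2) (nat_lit 8) (.e false (nat_lit 12) (nat_lit 55) (nat_lit 2) (nat_lit 8) (.e false (nat_lit 12) (nat_lit 65) (nat_lit 1) (nat_lit 9) .nil)))))))))))))))) .leaf) (nat_lit 33799) (nat_lit 230) (.p (nat_lit 131) (nat_lit 12) .z) .df (.nd .leaf (nat_lit 34816) (nat_lit 61) (.p (nat_lit 54) (nat_lit 12) .z) .df .leaf))) (nat_lit 34818) (nat_lit 97) (.p (nat_lit 69) (nat_lit 12) .z) .df (.nd (.nd (.nd .leaf (nat_lit 34821) (nat_lit 147) (.p (nat_lit 81) (nat_lit 6) (.n (nat_lit 82) (nat_lit 12) (.n (nat_lit 84) (nat_lit 18) (.p (nat_lit 85) (nat_lit 12) (.n (nat_lit 86) (nat_lit 6) (.n (nat_lit 87) (nat_lit 12) (.n (nat_lit 88) (nat_lit 6) (.n (nat_lit 89) (nat_lit 6) (.n (nat_lit 91) (nat_lit 6) (.p (nat_lit 94) (nat_lit 6) (.p (nat_lit 95) (nat_lit 12) (.n (nat_lit 96) (nat_lit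 18) (.n (nat_lit 97) (nat_lit 6) (.p (nat_lit 99) (nat_lit 6) (.p (nat_lit 100) (nat_lit 12) (.p (nat_lit 102) (nat_lit 6) (.n (nat_lit 103) (nat_lit 6) (.p (nat_lit 106) (nat_lit 12) .z)))))))))))))))))) (.ct dBe_c291 (nat_lit 24) (nat_lit 5) (.s true (nat_lit 2) (nat_lit 6) (nat_lit 0) (nat_lit 6) (nat_lit 2) true (nat_lit 5) true (nat_lit 8) true (nat_lit 4) true (nat_lit 10) true (nat_lit 4) (.s false (nat_lit 1) (nat_lit 6) (nat_lit 2) (nat_lit 2) (nat_lit 3) true (nat_lit 1) true (nat_lit 7) true (nat_lit 4) true (nat_lit 8) true (nat_lit 8) (.s false (nat_lit 1) (nat_lit 6) (nat_lit 2) (nat_lit 5) (nat_lit 1) true (nat_lit 4) true (nat_lit 9) true (nat_lit 4) true (nat_lit 8) true (nat_lit 5) (.s false (nat_lit 1) (nat_lit 6) (nat_lit 5) (nat_lit 2) (nat_lit 1) true (nat_lit 1) true (nat_lit 9) true (nat_lit 4) true (nat_lit 5) true (nat_lit 8) dBe_i1))))) .leaf) (nat_lit 34823) (nat_lit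 235) (.p (nat_lit 123) (nat_lit 12) (.n (nat_lit 124) (nat_lit 36) (.p (nat_lit 125) (nat_lit 12) (.p (nat_lit 127) (nat_lit 12) (.p (nat_lit 128) (nat_lit 12) (.p (nat_lit 131) (nat_lit 12) .z)))))) (.ct dBe_c36 (nat_lit 12) (nat_lit 2) (.s false (nat_lit 1) (nat_lit 7) (nat_lit 2) (nat_lit 6) (nat_lit 1) true (nat_lit 3) true (nat_lit 6) true (nat_lit 2) true (nat_lit 5) true (nat_lit 3) (.e false (nat_lit 12) (nat_lit 40) (nat_lit 6) (nat_lit 3) (.e false (nat_lit 12) (nat_lit 79) (nat_lit 1) (nat_lit 6) (.e true (nat_lit 12) (nat_lit 80) (nat_lit 1) (nat_lit 6) (.e true (nat_lit 12) (nat_lit 72) (nat_lit 2) (nat_lit 5) .nil)))))) (.nd .leaf (nat_lit 35841) (nat_lit 93) (.n (nat_lit 56) (nat_lit 12) (.p (nat_lit 57) (nat_lit 12) (.n (nat_lit 58) (nat_lit 12) (.p (nat_lit 59) (nat_lit 12) (.p (nat_lit 62) (nat_lit 12) (.p (nat_lit 65) (nat_lit 12) (.n (nat_lit 66) (nat_lit 12) .z))))))) (.ct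 dBe_c275 (nat_lit 12) (nat_lit 5) (.s true (nat_lit 1) (nat_lit 5) (nat_lit 2) (nat_lit 2) (nat_lit 1) true (nat_lit 1) true (nat_lit 5) true (nat_lit 2) true (nat_lit 4) true (nat_lit 4) (.e true (nat_lit 12) (nat_lit 15) (nat_lit 6) (nat_lit 1) (.e false (nat_lit 12) (nat_lit 18) (nat_lit 5) (nat_lit 2) (.e true (nat_lit 12) (nat_lit 26) (nat_lit 2) (nat_lit 4) (.e false (nat_lit 24) (nat_lit 27) (nat_lit 2) (nat_lit 4) (.e false (nat_lit 12) (nat_lit 30) (nat_lit 2) (nat_lit 4) (.e false (nat_lit 12) (nat_lit 31) (nat_lit 2) (nat_lit 4) .nil)))))))) .leaf)) (nat_lit 35842) (nat_lit 106) (.p (nat_lit 73) (nat_lit 12) .z) .df (.nd (.nd .leaf (nat_lit 35844) (nat_lit 182) (.p (nat_lit 81) (nat_lit 32) (.n (nat_lit 82) (nat_lit 68) (.n (nat_lit 83) (nat_lit 56) (.n (nat_lit 84) (nat_lit 84) (.p (nat_lit 85) (nat_lit 76) (.n (nat_lit 86) (nat_lit 8) (.n (nat_lit 87) (nat_lit 64) (.n (nat_lit 88)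 (nat_lit 4) (.n (nat_lit 89) (nat_lit 40) (.p (nat_lit 90) (nat_lit 28) (.n (nat_lit 91) (nat_lit 12) (.p (nat_lit 92) (nat_lit 16) (.p (nat_lit 93) (nat_lit 16) (.p (nat_lit 94) (nat_lit 48) (.p (nat_lit 95) (nat_lit 24) (.n (nat_lit 96) (nat_lit 18) (.n (nat_lit 97) (nat_lit 54) (.p (nat_lit 98) (nat_lit 14) (.p (nat_lit 99) (nat_lit 6) (.p (nat_lit 100) (nat_lit 24) (.p (nat_lit 101) (nat_lit 24) (.p (nat_lit 102) (nat_lit 32) (.n (nat_lit 103) (nat_lit 48) (.n (nat_lit 104) (nat_lit 4) (.p (nat_lit 105) (nat_lit 4) (.p (nat_lit 106) (nat_lit 12) .z)))))))))))))))))))))))))) (.ct dBe_c291 (nat_lit 12) (nat_lit 6) (.s true (nat_lit 1) (nat_lit 15) (nat_lit 1) (nat_lit 2) (nat_lit 1) true (nat_lit 6) true (nat_lit 9) false (nat_lit 0) true (nat_lit 9) true (nat_lit 8) (.e true (nat_lit 12) (nat_lit 59) (nat_lit 1) (nat_lit 9) (.e false (nat_lit 12) (nat_lit 15) (nat_lit 14) (nat_lit 0) (.e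 false (nat_lit 12) (nat_lit 66) (nat_lit 1) (nat_lit 9) (.e false (nat_lit 12) (nat_lit 50) (nat_lit 2) (nat_lit 8) .nil)))))) .leaf) (nat_lit 35846) (nat_lit 197) (.p (nat_lit 121) (nat_lit 12) .z) .df .leaf)))) (nat_lit 36865) (nat_lit 81) (.p (nat_lit 62) (nat_lit 12) .z) .df (.nd (.nd (.nd (.nd (.nd .leaf (nat_lit 36866) (nat_lit 107) (.p (nat_lit 74) (nat_lit 12) .z) .df .leaf) (nat_lit 36868) (nat_lit 164) (.p (nat_lit 81) (nat_lit 44) (.n (nat_lit 82) (nat_lit 92) (.n (nat_lit 83) (nat_lit 116) (.n (nat_lit 84) (nat_lit 60) (.p (nat_lit 85) (nat_lit 76) (.p (nat_lit 86) (nat_lit 40) (.n (nat_lit 87) (nat_lit 16) (.p (nat_lit 88) (nat_lit 8) (.n (nat_lit 89) (nat_lit 28) (.p (nat_lit 90) (nat_lit 64) (.n (nat_lit 91) (nat_lit 24) (.p (nat_lit 92) (nat_lit 40) (.p (nat_lit 93) (nat_lit 28) (.p (nat_lit 94) (nat_lit 36) (.p (nat_lit 95) (nat_lit 12) (.p (nat_lit 96) (nat_lit 48) (.n (nat_lit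 97) (nat_lit 72) (.p (nat_lit 98) (nat_lit 32) (.n (nat_lit 99) (nat_lit 24) (.n (nat_lit 100) (nat_lit 12) (.p (nat_lit 101) (nat_lit 24) (.p (nat_lit 102) (nat_lit 8) (.n (nat_lit 103) (nat_lit 36) (.n (nat_lit 104) (nat_lit 16) (.p (nat_lit 105) (nat_lit 16) (.p (nat_lit 106) (nat_lit 24) .z)))))))))))))))))))))))))) (.ct dBe_c291 (nat_lit 12) (nat_lit 6) (.s false (nat_lit 1) (nat_lit 7) (nat_lit 2) (nat_lit 4) (nat_lit 0) true (nat_lit 5) true (nat_lit 10) true (nat_lit 3) true (nat_lit 8) true (nat_lit 6) (.e true (nat_lit 24) (nat_lit 33) (nat_lit 5) (nat_lit 5) (.e false (nat_lit 24) (nat_lit 34) (nat_lit 5) (nat_lit 5) (.e true (nat_lit 12) (nat_lit 67) (nat_lit 0) (nat_lit 10) (.e false (nat_lit 12) (nat_lit 68) (nat_lit 0) (nat_lit 10) (.e false (nat_lit 12) (nat_lit 69) (nat_lit 0) (nat_lit 10) (.e true (nat_lit 12) (nat_lit 71) (nat_lit 0) (nat_lit 10) (.e true (nat_lit 12) (nat_lit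 72) (nat_lit 0) (nat_lit 10) (.e true (nat_lit 12) (nat_lit 25) (nat_lit 7) (nat_lit 3) (.e true (nat_lit 12) (nat_lit 43) (nat_lit 2) (nat_lit 8) (.e false (nat_lit 24) (nat_lit 44) (nat_lit 2) (nat_lit 8) (.e false (nat_lit 24) (nat_lit 45) (nat_lit 2) (nat_lit 8) (.e false (nat_lit 24) (nat_lit 46) (nat_lit 2) (nat_lit 8) (.e true (nat_lit 12) (nat_lit 48) (nat_lit 2) (nat_lit 8) (.e false (nat_lit 12) (nat_lit 49) (nat_lit 2) (nat_lit 8) (.e false (nat_lit 12) (nat_lit 52) (nat_lit 2) (nat_lit 8) (.e true (nat_lit 24) (nat_lit 54) (nat_lit 2) (nat_lit 8) (.e true (nat_lit 12) (nat_lit 55) (nat_lit 2) (nat_lit 8) .nil))))))))))))))))))) (.nd .leaf (nat_lit 36870) (nat_lit 206) (.n (nat_lit 107) (nat_lit 24) (.p (nat_lit 108) (nat_lit 24) (.p (nat_lit 111) (nat_lit 24) (.p (nat_lit 112) (nat_lit 24) (.p (nat_lit 115) (nat_lit 12) (.n (nat_lit 116) (nat_lit 12) (.n (nat_lit 117) (nat_lit 12)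 (.n (nat_lit 118) (nat_lit 24) (.p (nat_lit 119) (nat_lit 24) (.p (nat_lit 120) (nat_lit 12) .z)))))))))) (.ct dBe_c276 (nat_lit 12) (nat_lit 3) (.s true (nat_lit 1) (nat_lit 16) (nat_lit 1) (nat_lit 2) (nat_lit 2) true (nat_lit 3) true (nat_lit 6) true (nat_lit 0) true (nat_lit 7) true (nat_lit 6) (.s false (nat_lit 1) (nat_lit 16) (nat_lit 2) (nat_lit 1) (nat_lit 2) true (nat_lit 2) true (nat_lit 6) true (nat_lit 0) true (nat_lit 6) true (nat_lit 7) (.e true (nat_lit 24) (nat_lit 60) (nat_lit 2) (nat_lit 6) (.e false (nat_lit 12) (nat_lit 74) (nat_lit 1) (nat_lit 7) (.e false (nat_lit 24) (nat_lit 75) (nat_lit 1) (nat_lit 7) (.e false (nat_lit 24) (nat_lit 62) (nat_lit 2) (nat_lit 6) (.e false (nat_lit 12) (nat_lit 30) (nat_lit 7) (nat_lit 2) (.e false (nat_lit 24) (nat_lit 56) (nat_lit 2) (nat_lit 6) (.e true (nat_lit 24) (nat_lit 57) (nat_lit 2) (nat_lit 6) (.e true (nat_lit 24) (nat_lit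 61) (nat_lit 2) (nat_lit 6) (.e true (nat_lit 12) (nat_lit 64) (nat_lit 2) (nat_lit 6) (.e true (nat_lit 12) (nat_lit 65) (nat_lit 2) (nat_lit 6) .nil))))))))))))) .leaf)) (nat_lit 37889) (nat_lit 82) (.p (nat_lit 63) (nat_lit 12) .z) .df (.nd (.nd .leaf (nat_lit 37890) (nat_lit 108) (.p (nat_lit 75) (nat_lit 12) .z) .df .leaf) (nat_lit 37892) (nat_lit 169) (.n (nat_lit 81) (nat_lit 36) (.p (nat_lit 82) (nat_lit 24) (.p (nat_lit 84) (nat_lit 12) (.n (nat_lit 86) (nat_lit 12) (.p (nat_lit 88) (nat_lit 36) (.p (nat_lit 89) (nat_lit 12) (.p (nat_lit 91) (nat_lit 12) (.p (nat_lit 94) (nat_lit 12) (.n (nat_lit 96) (nat_lit 12) (.n (nat_lit 97) (nat_lit 12) (.p (nat_lit 99) (nat_lit 12) (.n (nat_lit 103) (nat_lit 12) (.p (nat_lit 104) (nat_lit 24) (.n (nat_lit 105) (nat_lit 24) (.n (nat_lit 106) (nat_lit 24) .z))))))))))))))) (.ct dBe_c291 (nat_lit 12) (nat_lit 6) (.s false (nat_lit 1) (nat_lit 7)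 (nat_lit 1) (nat_lit 5) (nat_lit 1) true (nat_lit 6) true (nat_lit 9) true (nat_lit 3) true (nat_lit 9) true (nat_lit 5) (.e true (nat_lit 12) (nat_lit 36) (nat_lit 4) (nat_lit 6) (.e false (nat_lit 24) (nat_lit 57) (nat_lit 1) (nat_lit 9) (.e true (nat_lit 24) (nat_lit 58) (nat_lit 1) (nat_lit 9) (.e false (nat_lit 12) (nat_lit 62) (nat_lit 1) (nat_lit 9) (.e false (nat_lit 24) (nat_lit 65) (nat_lit 1) (nat_lit 9) (.e false (nat_lit 12) (nat_lit 23) (nat_lit 7) (nat_lit 3) (.e true (nat_lit 24) (nat_lit 56) (nat_lit 1) (nat_lit 9) (.e true (nat_lit 12) (nat_lit 63) (nat_lit 1) (nat_lit 9) (.e false (nat_lit 12) (nat_lit 32) (nat_lit 5) (nat_lit 5) (.e true (nat_lit 12) (nat_lit 33) (nat_lit 5) (nat_lit 5) (.e true (nat_lit 12) (nat_lit 34) (nat_lit 5) (nat_lit 5) .nil))))))))))))) (.nd .leaf (nat_lit 37894) (nat_lit 198) (.p (nat_lit 122) (nat_lit 12) .z) .df .leaf))) (nat_lit 38912) (nat_lit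 94) (.p (nat_lit 56) (nat_lit 12) (.n (nat_lit 57) (nat_lit 24) (.p (nat_lit 58) (nat_lit 12) (.p (nat_lit 59) (nat_lit 12) (.n (nat_lit 61) (nat_lit 12) (.p (nat_lit 62) (nat_lit 12) (.p (nat_lit 63) (nat_lit 12) (.n (nat_lit 64) (nat_lit 12) (.n (nat_lit 65) (nat_lit 12) (.n (nat_lit 66) (nat_lit 12) .z)))))))))) (.ct dBe_c275 (nat_lit 12) (nat_lit 6) (.s true (nat_lit 1) (nat_lit 6) (nat_lit 2) (nat_lit 0) (nat_lit 2) true (nat_lit 0) true (nat_lit 4) true (nat_lit 1) true (nat_lit 4) true (nat_lit 6) (.e false (nat_lit 12) (nat_lit 12) (nat_lit 7) (nat_lit 0) (.e true (nat_lit 24) (nat_lit 31) (nat_lit 2) (nat_lit 4) (.e true (nat_lit 12) (nat_lit 15) (nat_lit 6) (nat_lit 1) (.e false (nat_lit 12) (nat_lit 26) (nat_lit 2) (nat_lit 4) (.e true (nat_lit 12) (nat_lit 27) (nat_lit 2) (nat_lit 4) (.e true (nat_lit 12) (nat_lit 30) (nat_lit 2) (nat_lit 4) .nil)))))))) (.nd (.nd (.nd .leaf (nat_lit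 38913) (nat_lit 104) (.n (nat_lit 68) (nat_lit 6) (.p (nat_lit 69) (nat_lit 18) (.n (nat_lit 70) (nat_lit 6) (.p (nat_lit 71) (nat_lit 6) (.p (nat_lit 72) (nat_lit 12) .z))))) (.ct dBe_c35 (nat_lit 12) (nat_lit 4) (.s false (nat_lit 1) (nat_lit 6) (nat_lit 2) (nat_lit 1) (nat_lit 2) true (nat_lit 0) true (nat_lit 3) true (nat_lit 1) true (nat_lit 3) true (nat_lit 4) (.e false (nat_lit 12) (nat_lit 14) (nat_lit 7) (nat_lit 0) (.e false (nat_lit 12) (nat_lit 34) (nat_lit 2) (nat_lit 3) (.e false (nat_lit 12) (nat_lit 17) (nat_lit 6) (nat_lit 1) .nil))))) .leaf) (nat_lit 38914) (nat_lit 113) (.p (nat_lit 77) (nat_lit 12) .z) .df (.nd .leaf (nat_lit 38915) (nat_lit 179) (.n (nat_lit 81) (nat_lit 4) (.p (nat_lit 82) (nat_lit 40) (.p (nat_lit 83) (nat_lit 40) (.p (nat_lit 84) (nat_lit 24) (.n (nat_lit 85) (nat_lit 44) (.n (nat_lit 86) (nat_lit 20) (.p (nat_lit 87) (nat_lit 20) (.n (nat_lit 88) (nat_lit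 16) (.p (nat_lit 89) (nat_lit 8) (.n (nat_lit 90) (nat_lit 32) (.p (nat_lit 91) (nat_lit 12) (.n (nat_lit 92) (nat_lit 20) (.n (nat_lit 93) (nat_lit 8) (.n (nat_lit 94) (nat_lit 24) (.n (nat_lit 95) (nat_lit 12) (.n (nat_lit 96) (nat_lit 24) (.p (nat_lit 97) (nat_lit 48) (.n (nat_lit 98) (nat_lit 16) (.p (nat_lit 99) (nat_lit 12) (.n (nat_lit 102) (nat_lit 4) (.p (nat_lit 103) (nat_lit 36) (.n (nat_lit 104) (nat_lit 4) (.p (nat_lit 105) (nat_lit 4) (.n (nat_lit 106) (nat_lit 12) .z)))))))))))))))))))))))) (.ct dBe_c291 (nat_lit 12) (nat_lit 7) (.s true (nat_lit 1) (nat_lit 17) (nat_lit 0) (nat_lit 2) (nat_lit 1) true (nat_lit 7) true (nat_lit 9) false (nat_lit 1) true (nat_lit 10) true (nat_lit 8) (.e true (nat_lit 12) (nat_lit 61) (nat_lit 1) (nat_lit 9) (.e true (nat_lit 12) (nat_lit 17) (nat_lit 11) (nat_lit 1) (.e true (nat_lit 6) (nat_lit 68) (nat_lit 0) (nat_lit 10) (.e false (nat_lit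 6) (nat_lit 69) (nat_lit 0) (nat_lit 10) (.e true (nat_lit 6) (nat_lit 70) (nat_lit 0) (nat_lit 10) (.e false (nat_lit 6) (nat_lit 71) (nat_lit 0) (nat_lit 10) (.e true (nat_lit 12) (nat_lit 54) (nat_lit 2) (nat_lit 8) .nil))))))))) .leaf)) (nat_lit 38917) (nat_lit 215) (.p (nat_lit 107) (nat_lit 12) (.p (nat_lit 108) (nat_lit 12) (.n (nat_lit 109) (nat_lit 12) (.n (nat_lit 110) (nat_lit 24) (.n (nat_lit 111) (nat_lit 12) (.n (nat_lit 112) (nat_lit 24) (.n (nat_lit 113) (nat_lit 6) (.n (nat_lit 114) (nat_lit 18) (.p (nat_lit 115) (nat_lit 6) (.n (nat_lit 117) (nat_lit 18) (.n (nat_lit 118) (nat_lit 18) (.p (nat_lit 119) (nat_lit 18) (.p (nat_lit 120) (nat_lit 18) (.p (nat_lit 121) (nat_lit 12) (.p (nat_lit 122) (nat_lit 18) .z))))))))))))))) (.ct dBe_c276 (nat_lit 12) (nat_lit 4) (.s true (nat_lit 1) (nat_lit 6) (nat_lit 2) (nat_lit 2) (nat_lit 5) true (nat_lit 0) true (nat_lit 4) true (nat_lit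 3) true (nat_lit 6) true (nat_lit 6) (.e true (nat_lit 12) (nat_lit 17) (nat_lit 15) (nat_lit 0) (.e false (nat_lit 12) (nat_lit 36) (nat_lit 6) (nat_lit 3) (.e false (nat_lit 12) (nat_lit 37) (nat_lit 6) (nat_lit 3) (.e true (nat_lit 12) (nat_lit 66) (nat_lit 2) (nat_lit 6) (.e false (nat_lit 12) (nat_lit 56) (nat_lit 2) (nat_lit 6) (.e true (nat_lit 12) (nat_lit 57) (nat_lit 2) (nat_lit 6) (.e true (nat_lit 12) (nat_lit 60) (nat_lit 2) (nat_lit 6) (.e true (nat_lit 12) (nat_lit 61) (nat_lit 2) (nat_lit 6) .nil)))))))))) (.nd (.nd .leaf (nat_lit 38918) (nat_lit 231) (.p (nat_lit 132) (nat_lit 12) .z) .df .leaf) (nat_lit 39936) (nat_lit 83) (.p (nat_lit 64) (nat_lit 12) .z) .df .leaf))) (nat_lit 39937) (nat_lit 98) (.p (nat_lit 70) (nat_lit 12) .z) .df (.nd (.nd (.nd (.nd .leaf (nat_lit 39938) (nat_lit 114) (.p (nat_lit 78) (nat_lit 12) .z) .df .leaf) (nat_lit 39939) (nat_lit 167) (.p (nat_lit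 81) (nat_lit 44) (.n (nat_lit 82) (nat_lit 44) (.n (nat_lit 83) (nat_lit 56) (.n (nat_lit 84) (nat_lit 24) (.p (nat_lit 85) (nat_lit 4) (.p (nat_lit 86) (nat_lit 28) (.n (nat_lit 87) (nat_lit 16) (.p (nat_lit 88) (nat_lit 8) (.n (nat_lit 89) (nat_lit 4) (.p (nat_lit 90) (nat_lit 28) (.n (nat_lit 91) (nat_lit 12) (.p (nat_lit 92) (nat_lit 16) (.p (nat_lit 93) (nat_lit 16) (.p (nat_lit 96) (nat_lit 42) (.n (nat_lit 97) (nat_lit 42) (.p (nat_lit 98) (nat_lit 14) (.n (nat_lit 99) (nat_lit 18) (.n (nat_lit 100) (nat_lit 12) (.p (nat_lit 101) (nat_lit 12) (.p (nat_lit 102) (nat_lit 8) (.n (nat_lit 103) (nat_lit 12) (.n (nat_lit 104) (nat_lit 4) (.p (nat_lit 105) (nat_lit 4) (.p (nat_lit 106) (nat_lit 12) .z)))))))))))))))))))))))) (.ct dBe_c291 (nat_lit 12) (nat_lit 7) (.s true (nat_lit 1) (nat_lit 6) (nat_lit 3) (nat_lit 2) (nat_lit 2) true (nat_lit 1) true (nat_lit 8) true (nat_lit 4) true (nat_lit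 7) true (nat_lit 8) (.s false (nat_lit 1) (nat_lit 10) (nat_lit 1) (nat_lit 2) (nat_lit 2) true (nat_lit 4) true (nat_lit 8) true (nat_lit 1) true (nat_lit 9) true (nat_lit 8) (.e false (nat_lit 12) (nat_lit 40) (nat_lit 3) (nat_lit 7) (.e true (nat_lit 24) (nat_lit 47) (nat_lit 2) (nat_lit 8) (.e false (nat_lit 12) (nat_lit 48) (nat_lit 2) (nat_lit 8) (.e true (nat_lit 12) (nat_lit 49) (nat_lit 2) (nat_lit 8) (.e false (nat_lit 12) (nat_lit 51) (nat_lit 2) (nat_lit 8) (.e true (nat_lit 12) (nat_lit 53) (nat_lit 2) (nat_lit 8) (.e false (nat_lit 12) (nat_lit 54) (nat_lit 2) (nat_lit 8) (.e false (nat_lit 12) (nat_lit 55) (nat_lit 2) (nat_lit 8) (.e false (nat_lit 12) (nat_lit 43) (nat_lit 2) (nat_lit 8) (.e true (nat_lit 12) (nat_lit 65) (nat_lit 1) (nat_lit 9) .nil))))))))))))) (.nd .leaf (nat_lit 39941) (nat_lit 204) (.n (nat_lit 107) (nat_lit 24) (.p (nat_lit 108) (nat_lit 24) (.p (nat_lit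 111) (nat_lit 24) (.p (nat_lit 112) (nat_lit 24) (.n (nat_lit 113) (nat_lit 12) (.p (nat_lit 116) (nat_lit 12) (.p (nat_lit 118) (nat_lit 12) (.n (nat_lit 119) (nat_lit 24) (.n (nat_lit 120) (nat_lit 12) .z))))))))) (.ct dBe_c276 (nat_lit 12) (nat_lit 4) (.s false (nat_lit 1) (nat_lit 7) (nat_lit 0) (nat_lit 7) (nat_lit 1) true (nat_lit 5) true (nat_lit 7) true (nat_lit 2) true (nat_lit 8) true (nat_lit 2) (.s false (nat_lit 1) (nat_lit 7) (nat_lit 1) (nat_lit 0) (nat_lit 7) false (nat_lit 0) true (nat_lit 2) true (nat_lit 2) true (nat_lit 7) true (nat_lit 8) (.s false (nat_lit 1) (nat_lit 7) (nat_lit 2) (nat_lit 2) (nat_lit 3) true (nat_lit 1) true (nat_lit 5) true (nat_lit 2) true (nat_lit 6) true (nat_lit 6) (.s true (nat_lit 1) (nat_lit 18) (nat_lit 2) (nat_lit 2) (nat_lit 0) true (nat_lit 4) true (nat_lit 8) false (nat_lit 0) true (nat_lit 6) true (nat_lit 6) (.s true (nat_lit 1) (nat_lit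 19) (nat_lit 0) (nat_lit 1) (nat_lit 2) true (nat_lit 4) true (nat_lit 6) false (nat_lit 1) true (nat_lit 8) true (nat_lit 7) (.s true (nat_lit 1) (nat_lit 19) (nat_lit 1) (nat_lit 2) (nat_lit 0) true (nat_lit 5) true (nat_lit 8) false (nat_lit 1) true (nat_lit 7) true (nat_lit 6) (.s false (nat_lit 1) (nat_lit 19) (nat_lit 2) (nat_lit 1) (nat_lit 0) true (nat_lit 4) true (nat_lit 8) false (nat_lit 1) true (nat_lit 6) true (nat_lit 7) (.e true (nat_lit 12) (nat_lit 30) (nat_lit 7) (nat_lit 2) (.e false (nat_lit 12) (nat_lit 78) (nat_lit 0) (nat_lit 8) (.e true (nat_lit 24) (nat_lit 79) (nat_lit 0) (nat_lit 8) (.e false (nat_lit 12) (nat_lit 65) (nat_lit 2) (nat_lit 6) (.e false (nat_lit 24) (nat_lit 57) (nat_lit 2) (nat_lit 6) (.e false (nat_lit 24) (nat_lit 61) (nat_lit 2) (nat_lit 6) (.e false (nat_lit 24) (nat_lit 60) (nat_lit 2) (nat_lit 6) (.e true (nat_lit 12) (nat_lit 62) (nat_lit 2)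 (nat_lit 6) (.e true (nat_lit 24) (nat_lit 56) (nat_lit 2) (nat_lit 6) .nil))))))))))))))))) .leaf)) (nat_lit 39942) (nat_lit 232) (.p (nat_lit 126) (nat_lit 12) (.n (nat_lit 127) (nat_lit 12) (.n (nat_lit 128) (nat_lit 12) (.p (nat_lit 129) (nat_lit 12) (.n (nat_lit 130) (nat_lit 12) (.p (nat_lit 131) (nat_lit 12) .z)))))) (.ct dBe_c36 (nat_lit 12) (nat_lit 3) (.s true (nat_lit 1) (nat_lit 7) (nat_lit 1) (nat_lit 2) (nat_lit 6) true (nat_lit 1) true (nat_lit 3) true (nat_lit 2) true (nat_lit 6) true (nat_lit 5) (.s false (nat_lit 1) (nat_lit 14) (nat_lit 2) (nat_lit 2) (nat_lit 2) true (nat_lit 2) true (nat_lit 5) true (nat_lit 1) true (nat_lit 5) true (nat_lit 5) (.e false (nat_lit 12) (nat_lit 78) (nat_lit 1) (nat_lit 6) (.e true (nat_lit 12) (nat_lit 80) (nat_lit 1) (nat_lit 6) (.e false (nat_lit 12) (nat_lit 70) (nat_lit 2) (nat_lit 5) (.e true (nat_lit 12) (nat_lit 71) (nat_lit 2) (nat_lit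 5) (.e false (nat_lit 12) (nat_lit 33) (nat_lit 7) (nat_lit 2) (.e true (nat_lit 12) (nat_lit 72) (nat_lit 2) (nat_lit 5) .nil))))))))) (.nd (.nd .leaf (nat_lit 40960) (nat_lit 87) (.p (nat_lit 57) (nat_lit 12) (.p (nat_lit 58) (nat_lit 12) (.n (nat_lit 59) (nat_lit 12) (.p (nat_lit 61) (nat_lit 12) (.n (nat_lit 62) (nat_lit 12) (.n (nat_lit 63) (nat_lit 12) (.p (nat_lit 64) (nat_lit 12) .z))))))) (.ct dBe_c275 (nat_lit 12) (nat_lit 6) (.s false (nat_lit 1) (nat_lit 5) (nat_lit 1) (nat_lit 2) (nat_lit 2) true (nat_lit 1) true (nat_lit 4) true (nat_lit 2) true (nat_lit 5) true (nat_lit 4) (.s false (nat_lit 1) (nat_lit 6) (nat_lit 0) (nat_lit 2) (nat_lit 2) true (nat_lit 2) true (nat_lit 4) true (nat_lit 1) true (nat_lit 6) true (nat_lit 4) (.e false (nat_lit 12) (nat_lit 27) (nat_lit 2) (nat_lit 4) (.e true (nat_lit 12) (nat_lit 36) (nat_lit 1) (nat_lit 5) (.e true (nat_lit 12) (nat_lit 37)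 (nat_lit 1) (nat_lit 5) (.e true (nat_lit 12) (nat_lit 29) (nat_lit 2) (nat_lit 4) (.e false (nat_lit 12) (nat_lit 28) (nat_lit 2) (nat_lit 4) (.e false (nat_lit 12) (nat_lit 39) (nat_lit 0) (nat_lit 6) (.e false (nat_lit 12) (nat_lit 31) (nat_lit 2) (nat_lit 4) .nil)))))))))) .leaf) (nat_lit 40961) (nat_lit 99) (.p (nat_lit 71) (nat_lit 12) .z) .df (.nd .leaf (nat_lit 40962) (nat_lit 115) (.p (nat_lit 79) (nat_lit 12) .z) .df .leaf))) (nat_lit 40963) (nat_lit 166) (.p (nat_lit 81) (nat_lit 30) (.n (nat_lit 82) (nat_lit 60) (.n (nat_lit 83) (nat_lit 84) (.n (nat_lit 84) (nat_lit 54) (.p (nat_lit 85) (nat_lit 48) (.p (nat_lit 86) (nat_lit 18) (.n (nat_lit 87) (nat_lit 24) (.p (nat_lit 88) (nat_lit 18) (.n (nat_lit 89) (nat_lit 18) (.p (nat_lit 90) (nat_lit 36) (.n (nat_lit 91) (nat_lit 6) (.p (nat_lit 92) (nat_lit 24) (.p (nat_lit 93) (nat_lit 12) (.p (nat_lit 94) (nat_lit 30) (.p (nat_lit 95)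 (nat_lit 12) (.p (nat_lit 96) (nat_lit 24) (.n (nat_lit 97) (nat_lit 60) (.p (nat_lit 98) (nat_lit 18) (.n (nat_lit 99) (nat_lit 12) (.p (nat_lit 101) (nat_lit 24) (.p (nat_lit 102) (nat_lit 18) (.n (nat_lit 103) (nat_lit 30) .z)))))))))))))))))))))) (.ct dBe_c291 (nat_lit 12) (nat_lit 7) (.s false (nat_lit 1) (nat_lit 7) (nat_lit 1) (nat_lit 3) (nat_lit 2) true (nat_lit 4) true (nat_lit 8) true (nat_lit 3) true (nat_lit 9) true (nat_lit 7) (.e false (nat_lit 12) (nat_lit 27) (nat_lit 6) (nat_lit 4) (.e true (nat_lit 12) (nat_lit 28) (nat_lit 6) (nat_lit 4) (.e true (nat_lit 12) (nat_lit 29) (nat_lit 6) (nat_lit 4) (.e true (nat_lit 12) (nat_lit 31) (nat_lit 6) (nat_lit 4) (.e true (nat_lit 12) (nat_lit 44) (nat_lit 2) (nat_lit 8) (.e true (nat_lit 12) (nat_lit 45) (nat_lit 2) (nat_lit 8) (.e true (nat_lit 12) (nat_lit 46) (nat_lit 2) (nat_lit 8) (.e false (nat_lit 12) (nat_lit 47) (nat_lit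 2) (nat_lit 8) (.e false (nat_lit 12) (nat_lit 55) (nat_lit 2) (nat_lit 8) (.e false (nat_lit 12) (nat_lit 20) (nat_lit 7) (nat_lit 3) (.e false (nat_lit 12) (nat_lit 65) (nat_lit 1) (nat_lit 9) .nil))))))))))))) (.nd (.nd (.nd .leaf (nat_lit 40965) (nat_lit 199) (.n (nat_lit 107) (nat_lit 24) (.n (nat_lit 108) (nat_lit 12) (.p (nat_lit 109) (nat_lit 12) (.p (nat_lit 110) (nat_lit 36) (.p (nat_lit 111) (nat_lit 24) (.p (nat_lit 112) (nat_lit 36) (.p (nat_lit 114) (nat_lit 24) (.p (nat_lit 117) (nat_lit 12) (.p (nat_lit 118) (nat_lit 12) (.n (nat_lit 119) (nat_lit 24) (.n (nat_lit 120) (nat_lit 24) (.n (nat_lit 122) (nat_lit 12) .z)))))))))))) (.ct dBe_c276 (nat_lit 24) (nat_lit 4) (.s false (nat_lit 1) (nat_lit 7) (nat_lit 0) (nat_lit 7) (nat_lit 1) true (nat_lit 5) true (nat_lit 7) true (nat_lit 2) true (nat_lit 8) true (nat_lit 2) (.s false (nat_lit 2) (nat_lit 7) (nat_lit 1) (nat_lit 5) (nat_lit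 2) true (nat_lit 3) true (nat_lit 6) true (nat_lit 2) true (nat_lit 7) true (nat_lit 4) (.s true (nat_lit 1) (nat_lit 7) (nat_lit 2) (nat_lit 2) (nat_lit 3) true (nat_lit 1) true (nat_lit 5) true (nat_lit 2) true (nat_lit 6) true (nat_lit 6) (.s true (nat_lit 2) (nat_lit 7) (nat_lit 3) (nat_lit 2) (nat_lit 2) true (nat_lit 1) true (nat_lit 6) true (nat_lit 2) true (nat_lit 5) true (nat_lit 6) (.s true (nat_lit 2) (nat_lit 12) (nat_lit 2) (nat_lit 2) (nat_lit 2) true (nat_lit 2) true (nat_lit 6) true (nat_lit 1) true (nat_lit 6) true (nat_lit 6) (.s false (nat_lit 2) (nat_lit 16) (nat_lit 1) (nat_lit 2) (nat_lit 2) true (nat_lit 3) true (nat_lit 6) true (nat_lit 0) true (nat_lit 7) true (nat_lit 6) (.s true (nat_lit 2) (nat_lit 16) (nat_lit 2) (nat_lit 1) (nat_lit 2) true (nat_lit 2) true (nat_lit 6) true (nat_lit 0) true (nat_lit 6) true (nat_lit 7) (.s false (nat_lit 3) (nat_lit 19) (nat_lit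 0) (nat_lit 1) (nat_lit 2) true (nat_lit 4) true (nat_lit 6) false (nat_lit 1) true (nat_lit 8) true (nat_lit 7) (.s false (nat_lit 1) (nat_lit 19) (nat_lit 1) (nat_lit 2) (nat_lit 0) true (nat_lit 5) true (nat_lit 8) false (nat_lit 1) true (nat_lit 7) true (nat_lit 6) (.s true (nat_lit 3) (nat_lit 19) (nat_lit 2) (nat_lit 1) (nat_lit 0) true (nat_lit 4) true (nat_lit 8) false (nat_lit 1) true (nat_lit 6) true (nat_lit 7) (.e false (nat_lit 24) (nat_lit 74) (nat_lit 1) (nat_lit 7) (.e true (nat_lit 48) (nat_lit 30) (nat_lit 7) (nat_lit 2) (.e false (nat_lit 24) (nat_lit 78) (nat_lit 0) (nat_lit 8) (.e true (nat_lit 48) (nat_lit 79) (nat_lit 0) (nat_lit 8) (.e true (nat_lit 24) (nat_lit 37) (nat_lit 6) (nat_lit 3) (.e true (nat_lit 24) (nat_lit 57) (nat_lit 2) (nat_lit 6) (.e false (nat_lit 24) (nat_lit 58) (nat_lit 2) (nat_lit 6) (.e false (nat_lit 72) (nat_lit 59) (nat_lit 2) (nat_lit 6) (.e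 false (nat_lit 48) (nat_lit 60) (nat_lit 2) (nat_lit 6) (.e false (nat_lit 72) (nat_lit 61) (nat_lit 2) (nat_lit 6) (.e false (nat_lit 48) (nat_lit 63) (nat_lit 2) (nat_lit 6) (.e true (nat_lit 48) (nat_lit 56) (nat_lit 2) (nat_lit 6) .nil))))))))))))))))))))))) .leaf) (nat_lit 40966) (nat_lit 233) (.n (nat_lit 124) (nat_lit 12) (.p (nat_lit 125) (nat_lit 12) (.p (nat_lit 131) (nat_lit 12) .z))) (.ct dBe_c36 (nat_lit 12) (nat_lit 3) (.s false (nat_lit 1) (nat_lit 6) (nat_lit 2) (nat_lit 2) (nat_lit 6) true (nat_lit 0) true (nat_lit 3) true (nat_lit 3) true (nat_lit 5) true (nat_lit 5) (.s true (nat_lit 1) (nat_lit 17) (nat_lit 1) (nat_lit 2) (nat_lit 2) true (nat_lit 3) true (nat_lit 5) true (nat_lit 0) true (nat_lit 6) true (nat_lit 5) (.e false (nat_lit 12) (nat_lit 39) (nat_lit 6) (nat_lit 3) (.e true (nat_lit 12) (nat_lit 68) (nat_lit 2) (nat_lit 5) (.e false (nat_lit 12) (nat_lit 69) (nat_lit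 2) (nat_lit 5) (.e true (nat_lit 12) (nat_lit 70) (nat_lit 2) (nat_lit 5) (.e false (nat_lit 12) (nat_lit 71) (nat_lit 2) (nat_lit 5) (.e true (nat_lit 12) (nat_lit 78) (nat_lit 1) (nat_lit 6) (.e false (nat_lit 12) (nat_lit 80) (nat_lit 1) (nat_lit 6) (.e false (nat_lit 12) (nat_lit 72) (nat_lit 2) (nat_lit 5) .nil))))))))))) (.nd .leaf (nat_lit 41984) (nat_lit 109) (.p (nat_lit 76) (nat_lit 12) .z) .df .leaf)) (nat_lit 41985) (nat_lit 116) (.p (nat_lit 80) (nat_lit 12) .z) .df (.nd (.nd .leaf (nat_lit 41987) (nat_lit 218) (.n (nat_lit 108) (nat_lit 12) (.n (nat_lit 109) (nat_lit 12) (.p (nat_lit 110) (nat_lit 12) (.n (nat_lit 112) (nat_lit 12) (.p (nat_lit 113) (nat_lit 12) (.p (nat_lit 114) (nat_lit 24) (.n (nat_lit 115) (nat_lit 12) (.p (nat_lit 116) (nat_lit 12) (.p (nat_lit 117) (nat_lit 12) (.p (nat_lit 118) (nat_lit 12) (.n (nat_lit 119) (nat_lit 24) (.n (nat_lit 120) (nat_lit 12) .z))))))))))))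 (.ct dBe_c276 (nat_lit 12) (nat_lit 5) (.s true (nat_lit 1) (nat_lit 19) (nat_lit 1) (nat_lit 2) (nat_lit 0) true (nat_lit 5) true (nat_lit 8) false (nat_lit 1) true (nat_lit 7) true (nat_lit 6) (.e true (nat_lit 12) (nat_lit 79) (nat_lit 0) (nat_lit 8) (.e false (nat_lit 12) (nat_lit 19) (nat_lit 12) (nat_lit 1) (.e false (nat_lit 12) (nat_lit 75) (nat_lit 1) (nat_lit 7) (.e false (nat_lit 12) (nat_lit 76) (nat_lit 1) (nat_lit 7) (.e false (nat_lit 12) (nat_lit 63) (nat_lit 2) (nat_lit 6) .nil))))))) .leaf) (nat_lit 41988) (nat_lit 239) (.p (nat_lit 127) (nat_lit 12) (.n (nat_lit 128) (nat_lit 12) (.n (nat_lit 130) (nat_lit 12) (.p (nat_lit 131) (nat_lit 12) .z)))) (.ct dBe_c36 (nat_lit 12) (nat_lit 4) (.s true (nat_lit 1) (nat_lit 19) (nat_lit 1) (nat_lit 2) (nat_lit 1) true (nat_lit 4) true (nat_lit 6) false (nat_lit 1) true (nat_lit 6) true (nat_lit 5) (.e false (nat_lit 12) (nat_lit 19)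 (nat_lit 14) (nat_lit 1) (.e true (nat_lit 12) (nat_lit 80) (nat_lit 1) (nat_lit 6) (.e false (nat_lit 12) (nat_lit 71) (nat_lit 2) (nat_lit 5) .nil))))) .leaf)))))

noncomputable def dBe_t4 : Tr := (.nd dBe_t3 (nat_lit 43010) (nat_lit 162) (.n (nat_lit 81) (nat_lit 6) (.p (nat_lit 82) (nat_lit 24) (.p (nat_lit 83) (nat_lit 12) (.p (nat_lit 84) (nat_lit 6) (.n (nat_lit 86) (nat_lit 18) (.p (nat_lit 87) (nat_lit 12) (.n (nat_lit 88) (nat_lit 6) (.n (nat_lit 89) (nat_lit 6) (.p (nat_lit 91) (nat_lit 18) (.p (nat_lit 92) (nat_lit 12) (.n (nat_lit 93) (nat_lit 12) (.n (nat_lit 94) (nat_lit 6) (.n (nat_lit 96) (nat_lit 18) (.p (nat_lit 97) (nat_lit 6) (.p (nat_lit 99) (nat_lit 6) (.p (nat_lit 101) (nat_lit 12) (.p (nat_lit 102) (nat_lit 6) (.p (nat_lit 103) (nat_lit 6) (.n (nat_lit 106) (nat_lit 24) .z))))))))))))))))))) (.ct dBe_c291 (nat_lit 12) (nat_lit 8) (.s false (nat_lit 1) (nat_lit 6) (nat_lit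 0) (nat_lit 6) (nat_lit 2) true (nat_lit 5) true (nat_lit 8) true (nat_lit 4) true (nat_lit 10) true (nat_lit 4) (.e true (nat_lit 12) (nat_lit 43) (nat_lit 2) (nat_lit 8) (.e false (nat_lit 24) (nat_lit 44) (nat_lit 2) (nat_lit 8) (.e false (nat_lit 36) (nat_lit 45) (nat_lit 2) (nat_lit 8) (.e false (nat_lit 24) (nat_lit 46) (nat_lit 2) (nat_lit 8) (.e false (nat_lit 12) (nat_lit 47) (nat_lit 2) (nat_lit 8) (.e false (nat_lit 12) (nat_lit 49) (nat_lit 2) (nat_lit 8) (.e true (nat_lit 12) (nat_lit 50) (nat_lit 2) (nat_lit 8) (.e true (nat_lit 12) (nat_lit 51) (nat_lit 2) (nat_lit 8) (.e false (nat_lit 12) (nat_lit 53) (nat_lit 2) (nat_lit 8) (.e true (nat_lit 24) (nat_lit 54) (nat_lit 2) (nat_lit 8) (.e true (nat_lit 12) (nat_lit 55) (nat_lit 2) (nat_lit 8) (.e true (nat_lit 12) (nat_lit 28) (nat_lit 6) (nat_lit 4) (.e true (nat_lit 6) (nat_lit 68) (nat_lit 0) (nat_lit 10) (.e false (nat_lit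 6) (nat_lit 69) (nat_lit 0) (nat_lit 10) (.e true (nat_lit 6) (nat_lit 70) (nat_lit 0) (nat_lit 10) (.e false (nat_lit 6) (nat_lit 71) (nat_lit 0) (nat_lit 10) (.e true (nat_lit 12) (nat_lit 31) (nat_lit 6) (nat_lit 4) .nil))))))))))))))))))) (.nd (.nd (.nd (.nd (.nd (.nd .leaf (nat_lit 44034) (nat_lit 120) (.p (nat_lit 81) (nat_lit 12) .z) .df .leaf) (nat_lit 45058) (nat_lit 121) (.p (nat_lit 82) (nat_lit 12) .z) .df (.nd .leaf (nat_lit 46082) (nat_lit 122) (.p (nat_lit 83) (nat_lit 12) .z) .df .leaf)) (nat_lit 47106) (nat_lit 123) (.p (nat_lit 84) (nat_lit 12) .z) .df (.nd (.nd .leaf (nat_lit 48130) (nat_lit 124) (.p (nat_lit 85) (nat_lit 12) .z) .df .leaf) (nat_lit 49154) (nat_lit 151) (.n (nat_lit 81) (nat_lit 16) (.p (nat_lit 82) (nat_lit 40) (.p (nat_lit 83) (nat_lit 52) (.p (nat_lit 84) (nat_lit 24) (.n (nat_lit 85) (nat_lit 32) (.n (nat_lit 86) (nat_lit 20) (.p (nat_lit 87) (nat_lit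 8) (.n (nat_lit 88) (nat_lit 16) (.p (nat_lit 89) (nat_lit 20) (.n (nat_lit 90) (nat_lit 32) (.n (nat_lit 92) (nat_lit 32) (.n (nat_lit 93) (nat_lit 8) (.n (nat_lit 94) (nat_lit 12) (.n (nat_lit 95) (nat_lit 12) (.n (nat_lit 96) (nat_lit 18) (.p (nat_lit 97) (nat_lit 42) (.n (nat_lit 98) (nat_lit 10) (.p (nat_lit 99) (nat_lit 6) (.n (nat_lit 101) (nat_lit 12) (.n (nat_lit 102) (nat_lit 4) (.p (nat_lit 103) (nat_lit 24) (.p (nat_lit 104) (nat_lit 8) (.p (nat_lit 105) (nat_lit 4) (.n (nat_lit 106) (nat_lit 12) .z)))))))))))))))))))))))) (.ct dBe_c291 (nat_lit 12) (nat_lit 8) (.s false (nat_lit 1) (nat_lit 6) (nat_lit 0) (nat_lit 2) (nat_lit 6) true (nat_lit 1) true (nat_lit 4) true (nat_lit 4) true (nat_lit 10) true (nat_lit 8) (.s true (nat_lit 1) (nat_lit 6) (nat_lit 1) (nat_lit 5) (nat_lit 2) true (nat_lit 4) true (nat_lit 8) true (nat_lit 4) true (nat_lit 9) true (nat_lit 5) (.s false (nat_lit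 1) (nat_lit 11) (nat_lit 1) (nat_lit 2) (nat_lit 2) true (nat_lit 4) true (nat_lit 8) true (nat_lit 1) true (nat_lit 9) true (nat_lit 8) (.s true (nat_lit 1) (nat_lit 17) (nat_lit 0) (nat_lit 2) (nat_lit 1) true (nat_lit 7) true (nat_lit 9) false (nat_lit 1) true (nat_lit 10) true (nat_lit 8) (.s false (nat_lit 1) (nat_lit 17) (nat_lit 1) (nat_lit 2) (nat_lit 0) true (nat_lit 7) true (nat_lit 10) false (nat_lit 1) true (nat_lit 9) true (nat_lit 8) (.e false (nat_lit 12) (nat_lit 28) (nat_lit 6) (nat_lit 4) (.e false (nat_lit 12) (nat_lit 69) (nat_lit 0) (nat_lit 10) (.e false (nat_lit 12) (nat_lit 44) (nat_lit 2) (nat_lit 8) (.e false (nat_lit 12) (nat_lit 45) (nat_lit 2) (nat_lit 8) (.e true (nat_lit 12) (nat_lit 54) (nat_lit 2) (nat_lit 8) (.e true (nat_lit 12) (nat_lit 55) (nat_lit 2) (nat_lit 8) (.e false (nat_lit 12) (nat_lit 34) (nat_lit 5) (nat_lit 5) (.e false (nat_lit 24) (nat_lit 56)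 (nat_lit 1) (nat_lit 9) (.e true (nat_lit 24) (nat_lit 57) (nat_lit 1) (nat_lit 9) (.e false (nat_lit 12) (nat_lit 58) (nat_lit 1) (nat_lit 9) (.e true (nat_lit 12) (nat_lit 60) (nat_lit 1) (nat_lit 9) (.e true (nat_lit 24) (nat_lit 61) (nat_lit 1) (nat_lit 9) (.e true (nat_lit 12) (nat_lit 65) (nat_lit 1) (nat_lit 9) (.e true (nat_lit 12) (nat_lit 62) (nat_lit 1) (nat_lit 9) .nil)))))))))))))))))))) (.nd .leaf (nat_lit 50178) (nat_lit 155) (.n (nat_lit 81) (nat_lit 32) (.p (nat_lit 82) (nat_lit 44) (.p (nat_lit 83) (nat_lit 56) (.p (nat_lit 84) (nat_lit 36) (.n (nat_lit 85) (nat_lit 28) (.n (nat_lit 86) (nat_lit 16) (.p (nat_lit 87) (nat_lit 16) (.p (nat_lit 88) (nat_lit 4) (.p (nat_lit 89) (nat_lit 16) (.n (nat_lit 90) (nat_lit 40) (.n (nat_lit 92) (nat_lit 40) (.n (nat_lit 93) (nat_lit 4) (.n (nat_lit 95) (nat_lit 12) (.n (nat_lit 96) (nat_lit 18) (.p (nat_lit 97) (nat_lit 42) (.n (nat_lit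 98) (nat_lit 14) (.p (nat_lit 99) (nat_lit 6) (.n (nat_lit 101) (nat_lit 12) (.n (nat_lit 102) (nat_lit 8) (.p (nat_lit 103) (nat_lit 12) (.p (nat_lit 104) (nat_lit 16) (.n (nat_lit 105) (nat_lit 4) (.n (nat_lit 106) (nat_lit 12) .z))))))))))))))))))))))) (.ct dBe_c291 (nat_lit 12) (nat_lit 8) (.s false (nat_lit 1) (nat_lit 6) (nat_lit 0) (nat_lit 2) (nat_lit 6) true (nat_lit 1) true (nat_lit 4) true (nat_lit 4) true (nat_lit 10) true (nat_lit 8) (.s true (nat_lit 1) (nat_lit 6) (nat_lit 2) (nat_lit 5) (nat_lit 1) true (nat_lit 4) true (nat_lit 9) true (nat_lit 4) true (nat_lit 8) true (nat_lit 5) (.s false (nat_lit 1) (nat_lit 6) (nat_lit 5) (nat_lit 2) (nat_lit 1) true (nat_lit 1) true (nat_lit 9) true (nat_lit 4) true (nat_lit 5) true (nat_lit 8) (.s true (nat_lit 1) (nat_lit 17) (nat_lit 0) (nat_lit 2) (nat_lit 1) true (nat_lit 7) true (nat_lit 9) false (nat_lit 1) true (nat_lit 10) true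 (nat_lit 8) (.s false (nat_lit 1) (nat_lit 17) (nat_lit 1) (nat_lit 2) (nat_lit 0) true (nat_lit 7) true (nat_lit 10) false (nat_lit 1) true (nat_lit 9) true (nat_lit 8) (.e false (nat_lit 12) (nat_lit 28) (nat_lit 6) (nat_lit 4) (.e false (nat_lit 12) (nat_lit 69) (nat_lit 0) (nat_lit 10) (.e true (nat_lit 12) (nat_lit 57) (nat_lit 1) (nat_lit 9) (.e false (nat_lit 12) (nat_lit 53) (nat_lit 2) (nat_lit 8) (.e false (nat_lit 12) (nat_lit 33) (nat_lit 5) (nat_lit 5) (.e false (nat_lit 12) (nat_lit 56) (nat_lit 1) (nat_lit 9) (.e true (nat_lit 12) (nat_lit 60) (nat_lit 1) (nat_lit 9) (.e true (nat_lit 24) (nat_lit 61) (nat_lit 1) (nat_lit 9) .nil)))))))))))))) .leaf))) (nat_lit 51202) (nat_lit 160) (.p (nat_lit 81) (nat_lit 4) (.n (nat_lit 82) (nat_lit 52) (.n (nat_lit 83) (nat_lit 64) (.n (nat_lit 84) (nat_lit 48) (.p (nat_lit 85) (nat_lit 68) (.p (nat_lit 86) (nat_lit 8) (.n (nat_lit 87) (nat_lit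 32) (.p (nat_lit 88) (nat_lit 16) (.n (nat_lit 89) (nat_lit 8) (.p (nat_lit 90) (nat_lit 44) (.n (nat_lit 91) (nat_lit 12) (.p (nat_lit 92) (nat_lit 20) (.p (nat_lit 93) (nat_lit 8) (.p (nat_lit 94) (nat_lit 36) (.p (nat_lit 95) (nat_lit 12) (.p (nat_lit 96) (nat_lit 18) (.n (nat_lit 97) (nat_lit 66) (.p (nat_lit 98) (nat_lit 22) (.n (nat_lit 99) (nat_lit 6) (.p (nat_lit 101) (nat_lit 12) (.p (nat_lit 102) (nat_lit 16) (.n (nat_lit 103) (nat_lit 36) (.p (nat_lit 104) (nat_lit 4) (.n (nat_lit 105) (nat_lit 4) .z)))))))))))))))))))))))) (.ct dBe_c291 (nat_lit 12) (nat_lit 8) (.s false (nat_lit 1) (nat_lit 6) (nat_lit 5) (nat_lit 2) (nat_lit 1) true (nat_lit 1) true (nat_lit 9) true (nat_lit 4) true (nat_lit 5) true (nat_lit 8) (.s true (nat_lit 1) (nat_lit 11) (nat_lit 2) (nat_lit 1) (nat_lit 2) true (nat_lit 3) true (nat_lit 8) true (nat_lit 1) true (nat_lit 8) true (nat_lit 9) (.e false (nat_lit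 12) (nat_lit 56) (nat_lit 1) (nat_lit 9) (.e true (nat_lit 12) (nat_lit 60) (nat_lit 1) (nat_lit 9) (.e true (nat_lit 12) (nat_lit 61) (nat_lit 1) (nat_lit 9) (.e false (nat_lit 12) (nat_lit 29) (nat_lit 6) (nat_lit 4) (.e true (nat_lit 12) (nat_lit 43) (nat_lit 2) (nat_lit 8) (.e false (nat_lit 12) (nat_lit 44) (nat_lit 2) (nat_lit 8) (.e false (nat_lit 36) (nat_lit 45) (nat_lit 2) (nat_lit 8) (.e false (nat_lit 12) (nat_lit 46) (nat_lit 2) (nat_lit 8) (.e false (nat_lit 12) (nat_lit 47) (nat_lit 2) (nat_lit 8) (.e true (nat_lit 12) (nat_lit 51) (nat_lit 2) (nat_lit 8) (.e true (nat_lit 24) (nat_lit 54) (nat_lit 2) (nat_lit 8) (.e true (nat_lit 24) (nat_lit 55) (nat_lit 2) (nat_lit 8) (.e true (nat_lit 12) (nat_lit 23) (nat_lit 7) (nat_lit 3) (.e true (nat_lit 12) (nat_lit 48) (nat_lit 2) (nat_lit 8) (.e false (nat_lit 12) (nat_lit 49) (nat_lit 2) (nat_lit 8) .nil)))))))))))))))))) (.nd (.nd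 (.nd .leaf (nat_lit 52226) (nat_lit 152) (.p (nat_lit 81) (nat_lit 4) (.n (nat_lit 82) (nat_lit 28) (.n (nat_lit 83) (nat_lit 40) (.p (nat_lit 84) (nat_lit 12) (.p (nat_lit 85) (nat_lit 20) (.p (nat_lit 86) (nat_lit 32) (.p (nat_lit 87) (nat_lit 16) (.p (nat_lit 88) (nat_lit 16) (.p (nat_lit 89) (nat_lit 4) (.p (nat_lit 90) (nat_lit 20) (.n (nat_lit 91) (nat_lit 12) (.p (nat_lit 92) (nat_lit 8) (.p (nat_lit 93) (nat_lit 20) (.p (nat_lit 94) (nat_lit 12) (.n (nat_lit 95) (nat_lit 12) (.p (nat_lit 96) (nat_lit 54) (.n (nat_lit 97) (nat_lit 30) (.p (nat_lit 98) (nat_lit 10) (.n (nat_lit 99) (nat_lit 18) (.n (nat_lit 100) (nat_lit 24) (.n (nat_lit 102) (nat_lit 8) (.n (nat_lit 103) (nat_lit 12) (.p (nat_lit 104) (nat_lit 4) (.n (nat_lit 105) (nat_lit 4) (.p (nat_lit 106) (nat_lit 12) .z))))))))))))))))))))))))) (.ct dBe_c291 (nat_lit 12) (nat_lit 8) (.s false (nat_lit 1) (nat_lit 6) (nat_lit 1)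 (nat_lit 5) (nat_lit 2) true (nat_lit 4) true (nat_lit 8) true (nat_lit 4) true (nat_lit 9) true (nat_lit 5) (.s true (nat_lit 1) (nat_lit 6) (nat_lit 2) (nat_lit 1) (nat_lit 5) false (nat_lit 0) true (nat_lit 5) true (nat_lit 4) true (nat_lit 8) true (nat_lit 9) (.s false (nat_lit 1) (nat_lit 6) (nat_lit 5) (nat_lit 2) (nat_lit 1) true (nat_lit 1) true (nat_lit 9) true (nat_lit 4) true (nat_lit 5) true (nat_lit 8) (.s true (nat_lit 1) (nat_lit 11) (nat_lit 2) (nat_lit 1) (nat_lit 2) true (nat_lit 3) true (nat_lit 8) true (nat_lit 1) true (nat_lit 8) true (nat_lit 9) (.s false (nat_lit 1) (nat_lit 15) (nat_lit 2) (nat_lit 1) (nat_lit 1) true (nat_lit 4) true (nat_lit 9) false (nat_lit 0) true (nat_lit 8) true (nat_lit 9) (.e false (nat_lit 12) (nat_lit 27) (nat_lit 6) (nat_lit 4) (.e true (nat_lit 12) (nat_lit 44) (nat_lit 2) (nat_lit 8) (.e false (nat_lit 12) (nat_lit 45) (nat_lit 2) (nat_lit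 8) (.e false (nat_lit 12) (nat_lit 47) (nat_lit 2) (nat_lit 8) (.e true (nat_lit 12) (nat_lit 55) (nat_lit 2) (nat_lit 8) (.e true (nat_lit 24) (nat_lit 34) (nat_lit 5) (nat_lit 5) (.e false (nat_lit 12) (nat_lit 56) (nat_lit 1) (nat_lit 9) (.e true (nat_lit 24) (nat_lit 60) (nat_lit 1) (nat_lit 9) (.e true (nat_lit 24) (nat_lit 61) (nat_lit 1) (nat_lit 9) (.e false (nat_lit 24) (nat_lit 29) (nat_lit 6) (nat_lit 4) (.e true (nat_lit 12) (nat_lit 23) (nat_lit 7) (nat_lit 3) (.e true (nat_lit 12) (nat_lit 48) (nat_lit 2) (nat_lit 8) (.e true (nat_lit 12) (nat_lit 58) (nat_lit 1) (nat_lit 9) (.e false (nat_lit 12) (nat_lit 62) (nat_lit 1) (nat_lit 9) (.e false (nat_lit 12) (nat_lit 65) (nat_lit 1) (nat_lit 9) .nil))))))))))))))))))))) .leaf) (nat_lit 53250) (nat_lit 125) (.p (nat_lit 86) (nat_lit 12) .z) .df (.nd .leaf (nat_lit 54274) (nat_lit 126) (.p (nat_lit 87) (nat_lit 12) .z) .df .leaf))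 (nat_lit 55298) (nat_lit 150) (.n (nat_lit 81) (nat_lit 18) (.p (nat_lit 82) (nat_lit 48) (.p (nat_lit 83) (nat_lit 72) (.p (nat_lit 84) (nat_lit 30) (.n (nat_lit 85) (nat_lit 36) (.n (nat_lit 86) (nat_lit 18) (.p (nat_lit 87) (nat_lit 12) (.n (nat_lit 88) (nat_lit 18) (.p (nat_lit 89) (nat_lit 6) (.n (nat_lit 90) (nat_lit 36) (.p (nat_lit 91) (nat_lit 6) (.n (nat_lit 92) (nat_lit 24) (.n (nat_lit 93) (nat_lit 12) (.n (nat_lit 94) (nat_lit 18) (.n (nat_lit 96) (nat_lit 36) (.p (nat_lit 97) (nat_lit 48) (.n (nat_lit 98) (nat_lit 18) (.p (nat_lit 99) (nat_lit 12) (.p (nat_lit 100) (nat_lit 12) (.n (nat_lit 101) (nat_lit 12) (.n (nat_lit 102) (nat_lit 6) (.p (nat_lit 103) (nat_lit 18) .z)))))))))))))))))))))) (.ct dBe_c291 (nat_lit 12) (nat_lit 8) (.s true (nat_lit 2) (nat_lit 6) (nat_lit 0) (nat_lit 2) (nat_lit 6) true (nat_lit 1) true (nat_lit 4) true (nat_lit 4) true (nat_lit 10) true (nat_lit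 8) (.s true (nat_lit 1) (nat_lit 6) (nat_lit 0) (nat_lit 6) (nat_lit 2) true (nat_lit 5) true (nat_lit 8) true (nat_lit 4) true (nat_lit 10) true (nat_lit 4) (.s false (nat_lit 1) (nat_lit 6) (nat_lit 1) (nat_lit 5) (nat_lit 2) true (nat_lit 4) true (nat_lit 8) true (nat_lit 4) true (nat_lit 9) true (nat_lit 5) (.s false (nat_lit 1) (nat_lit 6) (nat_lit 2) (nat_lit 2) (nat_lit 3) true (nat_lit 1) true (nat_lit 7) true (nat_lit 4) true (nat_lit 8) true (nat_lit 8) (.s false (nat_lit 1) (nat_lit 6) (nat_lit 2) (nat_lit 5) (nat_lit 1) true (nat_lit 4) true (nat_lit 9) true (nat_lit 4) true (nat_lit 8) true (nat_lit 5) (.s false (nat_lit 1) (nat_lit 7) (nat_lit 0) (nat_lit 1) (nat_lit 6) true (nat_lit 1) true (nat_lit 4) true (nat_lit 3) true (nat_lit 10) true (nat_lit 9) (.s true (nat_lit 1) (nat_lit 7) (nat_lit 1) (nat_lit 5) (nat_lit 1) true (nat_lit 6) true (nat_lit 9) true (nat_lit 3) true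 (nat_lit 9) true (nat_lit 5) (.s false (nat_lit 1) (nat_lit 7) (nat_lit 4) (nat_lit 0) (nat_lit 2) true (nat_lit 0) true (nat_lit 8) true (nat_lit 3) true (nat_lit 6) true (nat_lit 10) (.s false (nat_lit 1) (nat_lit 7) (nat_lit 6) (nat_lit 1) (nat_lit 0) true (nat_lit 1) true (nat_lit 10) true (nat_lit 3) true (nat_lit 4) true (nat_lit 9) (.s true (nat_lit 2) (nat_lit 10) (nat_lit 1) (nat_lit 2) (nat_lit 2) true (nat_lit 4) true (nat_lit 8) true (nat_lit 1) true (nat_lit 9) true (nat_lit 8) (.s true (nat_lit 1) (nat_lit 11) (nat_lit 1) (nat_lit 2) (nat_lit 2) true (nat_lit 4) true (nat_lit 8) true (nat_lit 1) true (nat_lit 9) true (nat_lit 8) (.s false (nat_lit 1) (nat_lit 10) (nat_lit 2) (nat_lit 1) (nat_lit 2) true (nat_lit 3) true (nat_lit 8) true (nat_lit 1) true (nat_lit 8) true (nat_lit 9) (.s true (nat_lit 1) (nat_lit 10) (nat_lit 2) (nat_lit 2) (nat_lit 1) true (nat_lit 4) true (nat_lit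 9) true (nat_lit 1) true (nat_lit 8) true (nat_lit 8) dBe_i4)))))))))))))) (.nd (.nd .leaf (nat_lit 56322) (nat_lit 127) (.p (nat_lit 88) (nat_lit 12) .z) .df .leaf) (nat_lit 57345) (nat_lit 128) (.p (nat_lit 89) (nat_lit 12) .z) .df .leaf))) (nat_lit 57346) (nat_lit 183) (.p (nat_lit 107) (nat_lit 12) .z) .df (.nd (.nd (.nd (.nd .leaf (nat_lit 58369) (nat_lit 149) (.p (nat_lit 81) (nat_lit 20) (.n (nat_lit 82) (nat_lit 44) (.n (nat_lit 83) (nat_lit 56) (.n (nat_lit 84) (nat_lit 36) (.p (nat_lit 85) (nat_lit 40) (.p (nat_lit 86) (nat_lit 16) (.n (nat_lit 87) (nat_lit 16) (.p (nat_lit 88) (nat_lit 8) (.n (nat_lit 89) (nat_lit 4) (.p (nat_lit 90) (nat_lit 40) (.n (nat_lit 91) (nat_lit 12) (.p (nat_lit 92) (nat_lit 16) (.p (nat_lit 93) (nat_lit 4) (.p (nat_lit 94) (nat_lit 12) (.p (nat_lit 95) (nat_lit 12) (.p (nat_lit 96) (nat_lit 18) (.n (nat_lit 97) (nat_lit 42) (.p (nat_lit 98) (nat_lit 14)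 (.n (nat_lit 99) (nat_lit 6) (.p (nat_lit 101) (nat_lit 12) (.p (nat_lit 102) (nat_lit 8) (.n (nat_lit 103) (nat_lit 24) (.n (nat_lit 104) (nat_lit 4) (.p (nat_lit 105) (nat_lit 4) (.p (nat_lit 106) (nat_lit 12) .z))))))))))))))))))))))))) (.ct dBe_c291 (nat_lit 12) (nat_lit 9) dBe_i3) .leaf) (nat_lit 58370) (nat_lit 184) (.p (nat_lit 108) (nat_lit 12) .z) .df (.nd .leaf (nat_lit 59393) (nat_lit 129) (.p (nat_lit 90) (nat_lit 12) .z) .df .leaf)) (nat_lit 59394) (nat_lit 185) (.p (nat_lit 109) (nat_lit 12) .z) .df (.nd (.nd .leaf (nat_lit 60417) (nat_lit 153) (.n (nat_lit 81) (nat_lit 12) (.n (nat_lit 82) (nat_lit 12) (.n (nat_lit 83) (nat_lit 12) (.n (nat_lit 84) (nat_lit 12) (.p (nat_lit 85) (nat_lit 24) (.p (nat_lit 89) (nat_lit 12) (.p (nat_lit 90) (nat_lit 24) (.p (nat_lit 92) (nat_lit 12) (.n (nat_lit 93) (nat_lit 12) (.p (nat_lit 95) (nat_lit 12) (.n (nat_lit 97) (nat_lit 24) (.p (nat_lit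 98) (nat_lit 12) .z)))))))))))) (.ct dBe_c291 (nat_lit 12) (nat_lit 9) (.s false (nat_lit 1) (nat_lit 10) (nat_lit 2) (nat_lit 2) (nat_lit 1) true (nat_lit 4) true (nat_lit 9) true (nat_lit 1) true (nat_lit 8) true (nat_lit 8) (.s false (nat_lit 1) (nat_lit 18) (nat_lit 1) (nat_lit 0) (nat_lit 2) true (nat_lit 4) true (nat_lit 8) false (nat_lit 1) true (nat_lit 9) true (nat_lit 10) (.e false (nat_lit 36) (nat_lit 26) (nat_lit 6) (nat_lit 4) (.e false (nat_lit 12) (nat_lit 56) (nat_lit 1) (nat_lit 9) (.e true (nat_lit 12) (nat_lit 55) (nat_lit 2) (nat_lit 8) (.e true (nat_lit 12) (nat_lit 43) (nat_lit 2) (nat_lit 8) (.e true (nat_lit 12) (nat_lit 27) (nat_lit 6) (nat_lit 4) (.e false (nat_lit 12) (nat_lit 28) (nat_lit 6) (nat_lit 4) (.e true (nat_lit 12) (nat_lit 29) (nat_lit 6) (nat_lit 4) (.e true (nat_lit 12) (nat_lit 30) (nat_lit 6) (nat_lit 4) (.e true (nat_lit 12) (nat_lit 31) (nat_lit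 6) (nat_lit 4) (.e true (nat_lit 12) (nat_lit 52) (nat_lit 2) (nat_lit 8) (.e false (nat_lit 12) (nat_lit 53) (nat_lit 2) (nat_lit 8) (.e false (nat_lit 12) (nat_lit 54) (nat_lit 2) (nat_lit 8) (.e false (nat_lit 12) (nat_lit 57) (nat_lit 1) (nat_lit 9) (.e false (nat_lit 12) (nat_lit 58) (nat_lit 1) (nat_lit 9) (.e false (nat_lit 12) (nat_lit 60) (nat_lit 1) (nat_lit 9) (.e false (nat_lit 12) (nat_lit 61) (nat_lit 1) (nat_lit 9) (.e true (nat_lit 12) (nat_lit 62) (nat_lit 1) (nat_lit 9) (.e true (nat_lit 12) (nat_lit 65) (nat_lit 1) (nat_lit 9) (.e false (nat_lit 12) (nat_lit 70) (nat_lit 0) (nat_lit 10) .nil)))))))))))))))))))))) .leaf) (nat_lit 60418) (nat_lit 186) (.p (nat_lit 110) (nat_lit 12) .z) .df (.nd .leaf (nat_lit 61441) (nat_lit 130) (.p (nat_lit 91) (nat_lit 12) .z) .df .leaf))) (nat_lit 61442) (nat_lit 187) (.p (nat_lit 111) (nat_lit 12) .z) .df (.nd (.nd (.nd .leaf (nat_lit 62465)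 (nat_lit 131) (.p (nat_lit 92) (nat_lit 12) .z) .df .leaf) (nat_lit 62466) (nat_lit 188) (.p (nat_lit 112) (nat_lit 12) .z) .df (.nd .leaf (nat_lit 63489) (nat_lit 132) (.p (nat_lit 93) (nat_lit 12) .z) .df .leaf)) (nat_lit 63490) (nat_lit 189) (.p (nat_lit 113) (nat_lit 12) .z) .df (.nd (.nd .leaf (nat_lit 64513) (nat_lit 156) (.p (nat_lit 81) (nat_lit 34) (.n (nat_lit 82) (nat_lit 4) (.p (nat_lit 83) (nat_lit 8) (.n (nat_lit 84) (nat_lit 18) (.n (nat_lit 85) (nat_lit 16) (.n (nat_lit 86) (nat_lit 10) (.n (nat_lit 87) (nat_lit 8) (.n (nat_lit 88) (nat_lit 26) (.n (nat_lit 89) (nat_lit 14) (.n (nat_lit 90) (nat_lit 16) (.n (nat_lit 91) (nat_lit 6) (.n (nat_lit 92) (nat_lit 16) (.n (nat_lit 93) (nat_lit 4) (.n (nat_lit 94) (nat_lit 6) (.n (nat_lit 96) (nat_lit 18) (.p (nat_lit 97) (nat_lit 30) (.n (nat_lit 98) (nat_lit 8) (.p (nat_lit 99) (nat_lit 6) (.p (nat_lit 100) (nat_lit 12) (.p (nat_lit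 101) (nat_lit 12) (.p (nat_lit 102) (nat_lit 10) (.p (nat_lit 103) (nat_lit 6) (.n (nat_lit 104) (nat_lit 20) (.p (nat_lit 105) (nat_lit 20) (.p (nat_lit 106) (nat_lit 12) .z))))))))))))))))))))))))) (.ct dBe_c291 (nat_lit 12) (nat_lit 9) (.s true (nat_lit 1) (nat_lit 6) (nat_lit 1) (nat_lit 5) (nat_lit 2) true (nat_lit 4) true (nat_lit 8) true (nat_lit 4) true (nat_lit 9) true (nat_lit 5) (.s false (nat_lit 1) (nat_lit 6) (nat_lit 2) (nat_lit 5) (nat_lit 1) true (nat_lit 4) true (nat_lit 9) true (nat_lit 4) true (nat_lit 8) true (nat_lit 5) (.s true (nat_lit 1) (nat_lit 6) (nat_lit 5) (nat_lit 2) (nat_lit 1) true (nat_lit 1) true (nat_lit 9) true (nat_lit 4) true (nat_lit 5) true (nat_lit 8) (.s false (nat_lit 1) (nat_lit 11) (nat_lit 2) (nat_lit 1) (nat_lit 2) true (nat_lit 3) true (nat_lit 8) true (nat_lit 1) true (nat_lit 8) true (nat_lit 9) (.e true (nat_lit 12) (nat_lit 27) (nat_lit 6)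 (nat_lit 4) (.e false (nat_lit 12) (nat_lit 34) (nat_lit 5) (nat_lit 5) (.e false (nat_lit 12) (nat_lit 57) (nat_lit 1) (nat_lit 9) (.e true (nat_lit 12) (nat_lit 59) (nat_lit 1) (nat_lit 9) (.e true (nat_lit 12) (nat_lit 62) (nat_lit 1) (nat_lit 9) (.e true (nat_lit 12) (nat_lit 33) (nat_lit 5) (nat_lit 5) (.e true (nat_lit 12) (nat_lit 56) (nat_lit 1) (nat_lit 9) (.e false (nat_lit 12) (nat_lit 60) (nat_lit 1) (nat_lit 9) (.e false (nat_lit 12) (nat_lit 61) (nat_lit 1) (nat_lit 9) (.e false (nat_lit 12) (nat_lit 23) (nat_lit 7) (nat_lit 3) (.e false (nat_lit 12) (nat_lit 48) (nat_lit 2) (nat_lit 8) .nil)))))))))))))))) .leaf) (nat_lit 64514) (nat_lit 190) (.p (nat_lit 114) (nat_lit 12) .z) .df .leaf)))) (nat_lit 65537) (nat_lit 158) (.n (nat_lit 81) (nat_lit 32) (.p (nat_lit 82) (nat_lit 56) (.p (nat_lit 83) (nat_lit 68) (.p (nat_lit 84) (nat_lit 36) (.n (nat_lit 85) (nat_lit 40) (.n (nat_lit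 86) (nat_lit 28) (.p (nat_lit 87) (nat_lit 16) (.n (nat_lit 88) (nat_lit 8) (.p (nat_lit 89) (nat_lit 16) (.n (nat_lit 90) (nat_lit 52) (.p (nat_lit 91) (nat_lit 12) (.n (nat_lit 92) (nat_lit 40) (.n (nat_lit 93) (nat_lit 4) (.n (nat_lit 94) (nat_lit 12) (.n (nat_lit 95) (nat_lit 12) (.n (nat_lit 96) (nat_lit 30) (.p (nat_lit 97) (nat_lit 54) (.n (nat_lit 98) (nat_lit 14) (.p (nat_lit 99) (nat_lit 6) (.n (nat_lit 101) (nat_lit 12) (.n (nat_lit 102) (nat_lit 8) (.p (nat_lit 103) (nat_lit 24) (.p (nat_lit 104) (nat_lit 4) (.n (nat_lit 105) (nat_lit 4) (.n (nat_lit 106) (nat_lit 12) .z))))))))))))))))))))))))) (.ct dBe_c291 (nat_lit 12) (nat_lit 9) (.s true (nat_lit 1) (nat_lit 11) (nat_lit 2) (nat_lit 2) (nat_lit 1) true (nat_lit 4) true (nat_lit 9) true (nat_lit 1) true (nat_lit 8) true (nat_lit 8) (.s true (nat_lit 1) (nat_lit 18) (nat_lit 2) (nat_lit 0) (nat_lit 1) true (nat_lit 4) true (nat_lit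 9) false (nat_lit 1) true (nat_lit 8) true (nat_lit 10) (.e true (nat_lit 12) (nat_lit 57) (nat_lit 1) (nat_lit 9) (.e false (nat_lit 12) (nat_lit 49) (nat_lit 2) (nat_lit 8) (.e true (nat_lit 12) (nat_lit 53) (nat_lit 2) (nat_lit 8) (.e true (nat_lit 12) (nat_lit 54) (nat_lit 2) (nat_lit 8) (.e true (nat_lit 24) (nat_lit 26) (nat_lit 6) (nat_lit 4) (.e true (nat_lit 12) (nat_lit 28) (nat_lit 6) (nat_lit 4) (.e false (nat_lit 12) (nat_lit 29) (nat_lit 6) (nat_lit 4) (.e false (nat_lit 12) (nat_lit 30) (nat_lit 6) (nat_lit 4) (.e false (nat_lit 12) (nat_lit 31) (nat_lit 6) (nat_lit 4) (.e true (nat_lit 12) (nat_lit 46) (nat_lit 2) (nat_lit 8) (.e false (nat_lit 12) (nat_lit 47) (nat_lit 2) (nat_lit 8) (.e false (nat_lit 12) (nat_lit 67) (nat_lit 0) (nat_lit 10) (.e true (nat_lit 12) (nat_lit 68) (nat_lit 0) (nat_lit 10) (.e true (nat_lit 12) (nat_lit 69) (nat_lit 0) (nat_lit 10) .nil)))))))))))))))))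 (.nd (.nd (.nd (.nd (.nd .leaf (nat_lit 65538) (nat_lit 191) (.p (nat_lit 115) (nat_lit 12) .z) .df .leaf) (nat_lit 66561) (nat_lit 133) (.p (nat_lit 94) (nat_lit 12) .z) .df (.nd .leaf (nat_lit 66562) (nat_lit 192) (.p (nat_lit 116) (nat_lit 12) .z) .df .leaf)) (nat_lit 67585) (nat_lit 165) (.p (nat_lit 81) (nat_lit 6) (.p (nat_lit 82) (nat_lit 48) (.p (nat_lit 83) (nat_lit 84) (.p (nat_lit 84) (nat_lit 6) (.n (nat_lit 85) (nat_lit 48) (.n (nat_lit 86) (nat_lit 42) (.p (nat_lit 87) (nat_lit 12) (.n (nat_lit 88) (nat_lit 54) (.n (nat_lit 89) (nat_lit 6) (.n (nat_lit 90) (nat_lit 36) (.p (nat_lit 91) (nat_lit 18) (.n (nat_lit 92) (nat_lit 12) (.n (nat_lit 93) (nat_lit 24) (.n (nat_lit 94) (nat_lit 42) (.p (nat_lit 95) (nat_lit 12) (.n (nat_lit 96) (nat_lit 72) (.p (nat_lit 97) (nat_lit 72) (.n (nat_lit 98) (nat_lit 18) (.p (nat_lit 99) (nat_lit 24) (.p (nat_lit 100) (nat_lit 36) (.p (nat_lit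 102) (nat_lit 6) (.p (nat_lit 103) (nat_lit 42) (.n (nat_lit 104) (nat_lit 24) (.p (nat_lit 105) (nat_lit 24) .z)))))))))))))))))))))))) (.ct dBe_c291 (nat_lit 12) (nat_lit 9) (.s true (nat_lit 1) (nat_lit 6) (nat_lit 1) (nat_lit 5) (nat_lit 2) true (nat_lit 4) true (nat_lit 8) true (nat_lit 4) true (nat_lit 9) true (nat_lit 5) (.e true (nat_lit 12) (nat_lit 26) (nat_lit 6) (nat_lit 4) (.e false (nat_lit 12) (nat_lit 30) (nat_lit 6) (nat_lit 4) (.e false (nat_lit 12) (nat_lit 31) (nat_lit 6) (nat_lit 4) (.e true (nat_lit 12) (nat_lit 43) (nat_lit 2) (nat_lit 8) (.e false (nat_lit 12) (nat_lit 44) (nat_lit 2) (nat_lit 8) (.e false (nat_lit 24) (nat_lit 45) (nat_lit 2) (nat_lit 8) (.e false (nat_lit 12) (nat_lit 46) (nat_lit 2) (nat_lit 8) (.e false (nat_lit 12) (nat_lit 47) (nat_lit 2) (nat_lit 8) (.e true (nat_lit 12) (nat_lit 50) (nat_lit 2) (nat_lit 8) (.e true (nat_lit 12) (nat_lit 51) (nat_lit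 2) (nat_lit 8) (.e false (nat_lit 12) (nat_lit 53) (nat_lit 2) (nat_lit 8) (.e true (nat_lit 12) (nat_lit 54) (nat_lit 2) (nat_lit 8) (.e true (nat_lit 12) (nat_lit 55) (nat_lit 2) (nat_lit 8) (.e false (nat_lit 12) (nat_lit 34) (nat_lit 5) (nat_lit 5) .nil)))))))))))))))) (.nd (.nd .leaf (nat_lit 67586) (nat_lit 210) (.n (nat_lit 107) (nat_lit 6) (.p (nat_lit 108) (nat_lit 6) (.p (nat_lit 111) (nat_lit 6) (.p (nat_lit 112) (nat_lit 6) (.p (nat_lit 113) (nat_lit 3) (.p (nat_lit 114) (nat_lit 3) (.p (nat_lit 115) (nat_lit 3) (.n (nat_lit 117) (nat_lit 3) (.n (nat_lit 118) (nat_lit 3) (.p (nat_lit 119) (nat_lit 3) (.p (nat_lit 120) (nat_lit 3) (.p (nat_lit 122) (nat_lit 3) .z)))))))))))) (.ct dBe_c276 (nat_lit 24) (nat_lit 6) (.s false (nat_lit 1) (nat_lit 6) (nat_lit 5) (nat_lit 2) (nat_lit 2) true (nat_lit 0) true (nat_lit 6) true (nat_lit 3) true (nat_lit 4) true (nat_lit 6) (.s true (nat_lit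 1) (nat_lit 15) (nat_lit 1) (nat_lit 2) (nat_lit 2) true (nat_lit 3) true (nat_lit 6) true (nat_lit 0) true (nat_lit 7) true (nat_lit 6) (.e true (nat_lit 12) (nat_lit 57) (nat_lit 2) (nat_lit 6) (.e true (nat_lit 12) (nat_lit 60) (nat_lit 2) (nat_lit 6) (.e true (nat_lit 12) (nat_lit 61) (nat_lit 2) (nat_lit 6) (.e false (nat_lit 12) (nat_lit 39) (nat_lit 5) (nat_lit 4) (.e true (nat_lit 12) (nat_lit 40) (nat_lit 5) (nat_lit 4) (.e false (nat_lit 12) (nat_lit 59) (nat_lit 2) (nat_lit 6) (.e false (nat_lit 24) (nat_lit 62) (nat_lit 2) (nat_lit 6) (.e false (nat_lit 12) (nat_lit 63) (nat_lit 2) (nat_lit 6) (.e false (nat_lit 12) (nat_lit 74) (nat_lit 1) (nat_lit 7) (.e true (nat_lit 12) (nat_lit 76) (nat_lit 1) (nat_lit 7) (.e true (nat_lit 12) (nat_lit 58) (nat_lit 2) (nat_lit 6) (.e false (nat_lit 12) (nat_lit 65) (nat_lit 2) (nat_lit 6) .nil))))))))))))))) .leaf) (nat_lit 68608) (nat_lit 134)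 (.p (nat_lit 95) (nat_lit 12) .z) .df (.nd .leaf (nat_lit 68610) (nat_lit 222) (.p (nat_lit 123) (nat_lit 12) .z) .df .leaf))) (nat_lit 69632) (nat_lit 135) (.p (nat_lit 96) (nat_lit 12) .z) .df (.nd (.nd (.nd .leaf (nat_lit 69634) (nat_lit 223) (.p (nat_lit 124) (nat_lit 12) .z) .df .leaf) (nat_lit 70656) (nat_lit 136) (.p (nat_lit 97) (nat_lit 12) .z) .df (.nd .leaf (nat_lit 70658) (nat_lit 224) (.p (nat_lit 125) (nat_lit 12) .z) .df .leaf)) (nat_lit 71680) (nat_lit 137) (.p (nat_lit 98) (nat_lit 12) .z) .df (.nd (.nd .leaf (nat_lit 71682) (nat_lit 225) (.p (nat_lit 126) (nat_lit 12) .z) .df .leaf) (nat_lit 72704) (nat_lit 138) (.p (nat_lit 99) (nat_lit 12) .z) .df .leaf))) (nat_lit 72706) (nat_lit 226) (.p (nat_lit 127) (nat_lit 12) .z) .df (.nd (.nd (.nd (.nd .leaf (nat_lit 73728) (nat_lit 139) (.p (nat_lit 100) (nat_lit 12) .z) .df .leaf) (nat_lit 73730) (nat_lit 227) (.p (nat_lit 128)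 (nat_lit 12) .z) .df (.nd .leaf (nat_lit 74753) (nat_lit 221) (.n (nat_lit 107) (nat_lit 54) (.p (nat_lit 108) (nat_lit 42) (.n (nat_lit 109) (nat_lit 12) (.p (nat_lit 110) (nat_lit 24) (.p (nat_lit 111) (nat_lit 42) (.p (nat_lit 112) (nat_lit 42) (.n (nat_lit 113) (nat_lit 9) (.p (nat_lit 114) (nat_lit 3) (.p (nat_lit 115) (nat_lit 15) (.p (nat_lit 116) (nat_lit 12) (.n (nat_lit 117) (nat_lit 3) (.n (nat_lit 118) (nat_lit 15) (.p (nat_lit 119) (nat_lit 3) (.n (nat_lit 120) (nat_lit 9) (.n (nat_lit 121) (nat_lit 12) (.p (nat_lit 122) (nat_lit 3) .z)))))))))))))))) (.ct dBe_c276 (nat_lit 12) (nat_lit 7) (.s true (nat_lit 1) (nat_lit 15) (nat_lit 2) (nat_lit 2) (nat_lit 1) true (nat_lit 3) true (nat_lit 7) true (nat_lit 0) true (nat_lit 6) true (nat_lit 6) (.e true (nat_lit 12) (nat_lit 35) (nat_lit 6) (nat_lit 3) (.e true (nat_lit 12) (nat_lit 18) (nat_lit 15) (nat_lit 0) (.e false (nat_lit 12)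 (nat_lit 66) (nat_lit 2) (nat_lit 6) (.e false (nat_lit 12) (nat_lit 59) (nat_lit 2) (nat_lit 6) .nil)))))) .leaf)) (nat_lit 75777) (nat_lit 193) (.p (nat_lit 117) (nat_lit 12) .z) .df (.nd (.nd .leaf (nat_lit 76801) (nat_lit 200) (.n (nat_lit 107) (nat_lit 24) (.p (nat_lit 108) (nat_lit 24) (.p (nat_lit 111) (nat_lit 24) (.p (nat_lit 112) (nat_lit 24) (.n (nat_lit 113) (nat_lit 12) (.p (nat_lit 115) (nat_lit 12) (.n (nat_lit 117) (nat_lit 12) (.n (nat_lit 118) (nat_lit 12) (.p (nat_lit 119) (nat_lit 12) .z))))))))) (.ct dBe_c276 (nat_lit 24) (nat_lit 7) (.s true (nat_lit 1) (nat_lit 7) (nat_lit 0) (nat_lit 7) (nat_lit 1) true (nat_lit 5) true (nat_lit 7) true (nat_lit 2) true (nat_lit 8) true (nat_lit 2) (.s true (nat_lit 2) (nat_lit 7) (nat_lit 1) (nat_lit 5) (nat_lit 2) true (nat_lit 3) true (nat_lit 6) true (nat_lit 2) true (nat_lit 7) true (nat_lit 4) (.s false (nat_lit 1) (nat_lit 7) (nat_lit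 2) (nat_lit 2) (nat_lit 3) true (nat_lit 1) true (nat_lit 5) true (nat_lit 2) true (nat_lit 6) true (nat_lit 6) (.s false (nat_lit 2) (nat_lit 7) (nat_lit 3) (nat_lit 2) (nat_lit 2) true (nat_lit 1) true (nat_lit 6) true (nat_lit 2) true (nat_lit 5) true (nat_lit 6) (.s false (nat_lit 2) (nat_lit 7) (nat_lit 6) (nat_lit 0) (nat_lit 2) false (nat_lit 0) true (nat_lit 6) true (nat_lit 2) true (nat_lit 3) true (nat_lit 8) (.s true (nat_lit 2) (nat_lit 16) (nat_lit 2) (nat_lit 1) (nat_lit 2) true (nat_lit 2) true (nat_lit 6) true (nat_lit 0) true (nat_lit 6) true (nat_lit 7) (.s true (nat_lit 3) (nat_lit 19) (nat_lit 0) (nat_lit 1) (nat_lit 2) true (nat_lit 4) true (nat_lit 6) false (nat_lit 1) true (nat_lit 8) true (nat_lit 7) (.s true (nat_lit 1) (nat_lit 19) (nat_lit 1) (nat_lit 2) (nat_lit 0) true (nat_lit 5) true (nat_lit 8) false (nat_lit 1) true (nat_lit 7) true (nat_lit 6) (.s false (nat_lit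 1) (nat_lit 19) (nat_lit 2) (nat_lit 1) (nat_lit 0) true (nat_lit 4) true (nat_lit 8) false (nat_lit 1) true (nat_lit 6) true (nat_lit 7) (.e true (nat_lit 24) (nat_lit 74) (nat_lit 1) (nat_lit 7) (.e true (nat_lit 24) (nat_lit 78) (nat_lit 0) (nat_lit 8) (.e false (nat_lit 24) (nat_lit 79) (nat_lit 0) (nat_lit 8) (.e false (nat_lit 48) (nat_lit 57) (nat_lit 2) (nat_lit 6) (.e false (nat_lit 48) (nat_lit 60) (nat_lit 2) (nat_lit 6) (.e false (nat_lit 48) (nat_lit 61) (nat_lit 2) (nat_lit 6) (.e true (nat_lit 24) (nat_lit 62) (nat_lit 2) (nat_lit 6) (.e true (nat_lit 48) (nat_lit 56) (nat_lit 2) (nat_lit 6) (.e false (nat_lit 24) (nat_lit 64) (nat_lit 2) (nat_lit 6) .nil))))))))))))))))))) .leaf) (nat_lit 77825) (nat_lit 201) (.p (nat_lit 107) (nat_lit 12) (.p (nat_lit 108) (nat_lit 12) (.n (nat_lit 109) (nat_lit 24) (.n (nat_lit 110) (nat_lit 24) (.n (nat_lit 111) (nat_lit 24) (.n (nat_lit 112)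 (nat_lit 36) (.p (nat_lit 113) (nat_lit 6) (.n (nat_lit 114) (nat_lit 18) (.n (nat_lit 115) (nat_lit 6) (.p (nat_lit 116) (nat_lit 24) (.p (nat_lit 117) (nat_lit 6) (.p (nat_lit 118) (nat_lit 6) (.n (nat_lit 119) (nat_lit 6) (.p (nat_lit 120) (nat_lit 6) (.p (nat_lit 122) (nat_lit 6) .z))))))))))))))) (.ct dBe_c276 (nat_lit 24) (nat_lit 7) (.s false (nat_lit 1) (nat_lit 7) (nat_lit 1) (nat_lit 5) (nat_lit 2) true (nat_lit 3) true (nat_lit 6) true (nat_lit 2) true (nat_lit 7) true (nat_lit 4) (.s true (nat_lit 1) (nat_lit 11) (nat_lit 2) (nat_lit 2) (nat_lit 2) true (nat_lit 2) true (nat_lit 6) true (nat_lit 1) true (nat_lit 6) true (nat_lit 6) (.s false (nat_lit 1) (nat_lit 16) (nat_lit 1) (nat_lit 2) (nat_lit 2) true (nat_lit 3) true (nat_lit 6) true (nat_lit 0) true (nat_lit 7) true (nat_lit 6) (.s true (nat_lit 1) (nat_lit 16) (nat_lit 2) (nat_lit 1) (nat_lit 2) true (nat_lit 2) true (nat_lit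 6) true (nat_lit 0) true (nat_lit 6) true (nat_lit 7) (.s true (nat_lit 1) (nat_lit 19) (nat_lit 2) (nat_lit 0) (nat_lit 1) true (nat_lit 3) true (nat_lit 7) false (nat_lit 1) true (nat_lit 6) true (nat_lit 8) (.e false (nat_lit 60) (nat_lit 57) (nat_lit 2) (nat_lit 6) (.e true (nat_lit 36) (nat_lit 58) (nat_lit 2) (nat_lit 6) (.e true (nat_lit 12) (nat_lit 59) (nat_lit 2) (nat_lit 6) (.e false (nat_lit 24) (nat_lit 60) (nat_lit 2) (nat_lit 6) (.e false (nat_lit 12) (nat_lit 61) (nat_lit 2) (nat_lit 6) (.e true (nat_lit 12) (nat_lit 62) (nat_lit 2) (nat_lit 6) (.e false (nat_lit 48) (nat_lit 65) (nat_lit 2) (nat_lit 6) (.e true (nat_lit 12) (nat_lit 40) (nat_lit 5) (nat_lit 4) (.e true (nat_lit 48) (nat_lit 56) (nat_lit 2) (nat_lit 6) (.e true (nat_lit 12) (nat_lit 63) (nat_lit 2) (nat_lit 6) (.e true (nat_lit 24) (nat_lit 75) (nat_lit 1) (nat_lit 7) (.e true (nat_lit 12) (nat_lit 30) (nat_lit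 7) (nat_lit 2) (.e false (nat_lit 12) (nat_lit 64) (nat_lit 2) (nat_lit 6) (.e true (nat_lit 12) (nat_lit 79) (nat_lit 0) (nat_lit 8) .nil)))))))))))))))))))) (.nd .leaf (nat_lit 78848) (nat_lit 219) (.n (nat_lit 107) (nat_lit 30) (.n (nat_lit 108) (nat_lit 6) (.p (nat_lit 109) (nat_lit 12) (.p (nat_lit 110) (nat_lit 36) (.p (nat_lit 111) (nat_lit 18) (.p (nat_lit 112) (nat_lit 54) (.p (nat_lit 113) (nat_lit 3) (.p (nat_lit 114) (nat_lit 27) (.p (nat_lit 115) (nat_lit 3) (.p (nat_lit 116) (nat_lit 12) (.p (nat_lit 117) (nat_lit 33) (.p (nat_lit 118) (nat_lit 21) (.n (nat_lit 119) (nat_lit 21) (.n (nat_lit 120) (nat_lit 33) (.n (nat_lit 121) (nat_lit 12) (.n (nat_lit 122) (nat_lit 21) .z)))))))))))))))) (.ct dBe_c276 (nat_lit 12) (nat_lit 8) (.s true (nat_lit 1) (nat_lit 17) (nat_lit 2) (nat_lit 2) (nat_lit 0) true (nat_lit 4) true (nat_lit 8) false (nat_lit 0) true (nat_lit 6) true (nat_lit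 6) (.e true (nat_lit 12) (nat_lit 38) (nat_lit 5) (nat_lit 4) (.e false (nat_lit 12) (nat_lit 17) (nat_lit 16) (nat_lit 0) (.e true (nat_lit 12) (nat_lit 57) (nat_lit 2) (nat_lit 6) (.e false (nat_lit 12) (nat_lit 59) (nat_lit 2) (nat_lit 6) (.e false (nat_lit 12) (nat_lit 62) (nat_lit 2) (nat_lit 6) (.e false (nat_lit 12) (nat_lit 63) (nat_lit 2) (nat_lit 6) (.e true (nat_lit 12) (nat_lit 66) (nat_lit 2) (nat_lit 6) (.e false (nat_lit 12) (nat_lit 61) (nat_lit 2) (nat_lit 6) .nil)))))))))) .leaf))) (nat_lit 78849) (nat_lit 241) (.p (nat_lit 123) (nat_lit 12) (.n (nat_lit 124) (nat_lit 42) (.p (nat_lit 125) (nat_lit 30) (.n (nat_lit 126) (nat_lit 6) (.p (nat_lit 127) (nat_lit 18) (.p (nat_lit 128) (nat_lit 36) (.n (nat_lit 129) (nat_lit 12) (.p (nat_lit 130) (nat_lit 12) (.p (nat_lit 131) (nat_lit 12) (.n (nat_lit 132) (nat_lit 12) .z)))))))))) (.ct dBe_c36 (nat_lit 12) (nat_lit 6) (.s false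 (nat_lit 1) (nat_lit 17) (nat_lit 2) (nat_lit 1) (nat_lit 2) true (nat_lit 2) true (nat_lit 5) true (nat_lit 0) true (nat_lit 5) true (nat_lit 6) (.e false (nat_lit 12) (nat_lit 34) (nat_lit 7) (nat_lit 2) (.e false (nat_lit 12) (nat_lit 69) (nat_lit 2) (nat_lit 5) (.e false (nat_lit 12) (nat_lit 72) (nat_lit 2) (nat_lit 5) (.e true (nat_lit 12) (nat_lit 17) (nat_lit 17) (nat_lit 0) .nil)))))) (.nd (.nd (.nd .leaf (nat_lit 79872) (nat_lit 194) (.p (nat_lit 118) (nat_lit 12) .z) .df .leaf) (nat_lit 79873) (nat_lit 228) (.p (nat_lit 129) (nat_lit 12) .z) .df (.nd .leaf (nat_lit 80896) (nat_lit 195) (.p (nat_lit 119) (nat_lit 12) .z) .df .leaf)) (nat_lit 80897) (nat_lit 234) (.p (nat_lit 123) (nat_lit 12) (.n (nat_lit 124) (nat_lit 24) (.p (nat_lit 127) (nat_lit 12) (.p (nat_lit 128) (nat_lit 24) (.p (nat_lit 130) (nat_lit 12) .z))))) (.ct dBe_c36 (nat_lit 12) (nat_lit 6) (.s false (nat_lit 1)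 (nat_lit 7) (nat_lit 2) (nat_lit 1) (nat_lit 6) true (nat_lit 0) true (nat_lit 3) true (nat_lit 2) true (nat_lit 5) true (nat_lit 6) (.s true (nat_lit 1) (nat_lit 18) (nat_lit 1) (nat_lit 2) (nat_lit 2) true (nat_lit 3) true (nat_lit 5) true (nat_lit 0) true (nat_lit 6) true (nat_lit 5) (.a false (nat_lit 144) (nat_lit 17) (nat_lit 18) (nat_lit 0) (nat_lit 0) (.e false (nat_lit 12) (nat_lit 40) (nat_lit 6) (nat_lit 3) (.e false (nat_lit 12) (nat_lit 72) (nat_lit 2) (nat_lit 5) (.e false (nat_lit 12) (nat_lit 78) (nat_lit 1) (nat_lit 6) (.e true (nat_lit 12) (nat_lit 39) (nat_lit 6) (nat_lit 3) (.e false (nat_lit 12) (nat_lit 67) (nat_lit 2) (nat_lit 5) (.e true (nat_lit 12) (nat_lit 68) (nat_lit 2) (nat_lit 5) (.e true (nat_lit 12) (nat_lit 69) (nat_lit 2) (nat_lit 5) (.e false (nat_lit 12) (nat_lit 70) (nat_lit 2) (nat_lit 5) .nil)))))))))))) (.nd (.nd .leaf (nat_lit 81920) (nat_lit 208) (.p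 (nat_lit 107) (nat_lit 12) (.n (nat_lit 108) (nat_lit 24) (.p (nat_lit 109) (nat_lit 12) (.p (nat_lit 110) (nat_lit 12) (.p (nat_lit 113) (nat_lit 6) (.p (nat_lit 114) (nat_lit 6) (.n (nat_lit 115) (nat_lit 6) (.n (nat_lit 116) (nat_lit 24) (.n (nat_lit 117) (nat_lit 6) (.n (nat_lit 118) (nat_lit 6) (.p (nat_lit 119) (nat_lit 18) (.p (nat_lit 120) (nat_lit 6) (.p (nat_lit 122) (nat_lit 6) .z))))))))))))) (.ct dBe_c276 (nat_lit 12) (nat_lit 8) (.s false (nat_lit 1) (nat_lit 7) (nat_lit 3) (nat_lit 2) (nat_lit 2) true (nat_lit 1) true (nat_lit 6) true (nat_lit 2) true (nat_lit 5) true (nat_lit 6) (.s true (nat_lit 1) (nat_lit 19) (nat_lit 0) (nat_lit 1) (nat_lit 2) true (nat_lit 4) true (nat_lit 6) false (nat_lit 1) true (nat_lit 8) true (nat_lit 7) (.e false (nat_lit 12) (nat_lit 26) (nat_lit 7) (nat_lit 2) (.e true (nat_lit 12) (nat_lit 65) (nat_lit 2) (nat_lit 6) (.e true (nat_lit 12) (nat_lit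 40) (nat_lit 5) (nat_lit 4) (.e true (nat_lit 12) (nat_lit 63) (nat_lit 2) (nat_lit 6) (.e false (nat_lit 12) (nat_lit 79) (nat_lit 0) (nat_lit 8) (.e true (nat_lit 12) (nat_lit 76) (nat_lit 1) (nat_lit 7) .nil))))))))) .leaf) (nat_lit 81921) (nat_lit 229) (.p (nat_lit 130) (nat_lit 12) .z) .df .leaf))))))

noncomputable def dBe_t5 : Tr := (.nd dBe_t2 (nat_lit 28674) (nat_lit 77) (.p (nat_lit 58) (nat_lit 12) .z) .df dBe_t4)

noncomputable def dBe_cl : CL := (.c (nat_lit 256) (nat_lit 0) (nat_lit 1) (.c (nat_lit 16) (nat_lit 1) (nat_lit 1) (.c (nat_lit 1) (nat_lit 2) (nat_lit 1) (.c (nat_lit 272) (nat_lit 3) (nat_lit 1) (.c (nat_lit 32) (nat_lit 4) (nat_lit 1) (.c (nat_lit 257) (nat_lit 5) (nat_lit 1) (.c (nat_lit 17) (nat_lit 6) (nat_lit 1) (.c (nat_lit 2) (nat_lit 7) (nat_lit 1) (.c (nat_lit 288) (nat_lit 8) (nat_lit 2) (.c (nat_lit 273) (nat_lit 10) (nat_lit 3) (.c (nat_lit 33) (nat_lit 13)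 (nat_lit 2) (.c (nat_lit 258) (nat_lit 15) (nat_lit 2) (.c (nat_lit 18) (nat_lit 17) (nat_lit 2) (.c (nat_lit 3) (nat_lit 19) (nat_lit 1) (.c (nat_lit 289) (nat_lit 20) (nat_lit 6) (.c (nat_lit 274) (nat_lit 26) (nat_lit 6) (.c (nat_lit 34) (nat_lit 32) (nat_lit 3) (.c (nat_lit 259) (nat_lit 35) (nat_lit 3) (.c (nat_lit 19) (nat_lit 38) (nat_lit 3) (.c (nat_lit 4) (nat_lit 41) (nat_lit 1) (.c (nat_lit 290) (nat_lit 42) (nat_lit 14) (.c (nat_lit 275) (nat_lit 56) (nat_lit 11) (.c (nat_lit 35) (nat_lit 67) (nat_lit 6) (.c (nat_lit 260) (nat_lit 73) (nat_lit 4) (.c (nat_lit 20) (nat_lit 77) (nat_lit 4) (.c (nat_lit 291) (nat_lit 81) (nat_lit 26) (.c (nat_lit 276) (nat_lit 107) (nat_lit 16) (.c (nat_lit 36) (nat_lit 123) (nat_lit 10) .nil))))))))))))))))))))))))))))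

noncomputable def dBe_D : Dt := ⟨(nat_lit 18446744073709551616), (nat_lit 9223372036854775808), (nat_lit 12), (nat_lit 133), (nat_lit 35826699031365613046008086613831123727179846428055469891970222819919132131011206256439322405440768254923612183505143765230072739034917022252418168921451530198235256684018887696354665257448200824837111242810111215301644687406351951847194116809418704820876710333499351588812946173383960839470653674857620232817146204848175771325225884422034468840638106894738415256201351054854348410604343482741326765590395153332538682884234520793175051198551102150536061519769997859383968138394430714078396522830559271565192203350327002791661810978208582454246158044453008445004617940875139843751754639423659516751688297451200324668782119594828368063862911783916419764553813306237668025990746814155715326151026516484496424015315371255115575627890589671262252310880075271323232828055598291123874618869984763113732311710332827802381242869867209190454428337440891318539769071090252392488745826672436067445751736892968722281474922863417987830394043861726213288470493847812688576517),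 (nat_lit 10633823966279185164662018048022962222), dBe_t5, dBe_cl⟩

noncomputable def dBe_gs : BL := (.c (nat_lit 20) (nat_lit 6) (nat_lit 19) (nat_lit 1) (nat_lit 0) (.c (nat_lit 26) (nat_lit 6) (nat_lit 17) (nat_lit 2) (nat_lit 6) (.c (nat_lit 32) (nat_lit 3) (nat_lit 15) (nat_lit 2) (nat_lit 18) (.c (nat_lit 35) (nat_lit 3) (nat_lit 13) (nat_lit 2) (nat_lit 24) (.c (nat_lit 38) (nat_lit 3) (nat_lit 10) (nat_lit 3) (nat_lit 30) (.c (nat_lit 41) (nat_lit 1) (nat_lit 8) (nat_lit 2) (nat_lit 39) (.c (nat_lit 42) (nat_lit 14) (nat_lit 7) (nat_lit 1) (nat_lit 41) (.c (nat_lit 56) (nat_lit 11) (nat_lit 6) (nat_lit 1) (nat_lit 55) (.c (nat_lit 67) (nat_lit 6) (nat_lit 5) (nat_lit 1) (nat_lit 66) (.c (nat_lit 73) (nat_lit 4) (nat_lit 4) (nat_lit 1) (nat_lit 72) (.c (nat_lit 77) (nat_lit 4) (nat_lit 3) (nat_lit 1) (nat_lit 76) (.c (nat_lit 81) (nat_lit 26) (nat_lit 2) (nat_lit 1) (nat_lit 80) (.c (nat_lit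 107) (nat_lit 16) (nat_lit 1) (nat_lit 1) (nat_lit 106) (.c (nat_lit 123) (nat_lit 10) (nat_lit 0) (nat_lit 1) (nat_lit 122) .nil))))))))))))))

noncomputable def dBe_i5 : IL := (.s true (nat_lit 5410176) (nat_lit 26) (nat_lit 2) (nat_lit 1) (nat_lit 2) true (nat_lit 6) true (nat_lit 11) false (nat_lit 1) true (nat_lit 11) true (nat_lit 12) (.s false (nat_lit 4884096) (nat_lit 27) (nat_lit 2) (nat_lit 1) (nat_lit 2) true (nat_lit 6) true (nat_lit 11) false (nat_lit 1) true (nat_lit 11) true (nat_lit 12) (.s true (nat_lit 4199040) (nat_lit 28) (nat_lit 2) (nat_lit 1) (nat_lit 2) true (nat_lit 6) true (nat_lit 11) false (nat_lit 1) true (nat_lit 11) true (nat_lit 12) (.s false (nat_lit 1929216) (nat_lit 29) (nat_lit 2) (nat_lit 1) (nat_lit 2) true (nat_lit 6) true (nat_lit 11) false (nat_lit 1) true (nat_lit 11) true (nat_lit 12) (.s true (nat_lit 13824) (nat_lit 31) (nat_lit 2) (nat_lit 1) (nat_lit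 2) true (nat_lit 6) true (nat_lit 11) false (nat_lit 1) true (nat_lit 11) true (nat_lit 12) (.s false (nat_lit 1403136) (nat_lit 26) (nat_lit 2) (nat_lit 2) (nat_lit 1) true (nat_lit 7) true (nat_lit 12) false (nat_lit 1) true (nat_lit 11) true (nat_lit 11) (.s false (nat_lit 878592) (nat_lit 28) (nat_lit 2) (nat_lit 2) (nat_lit 1) true (nat_lit 7) true (nat_lit 12) false (nat_lit 1) true (nat_lit 11) true (nat_lit 11) (.s true (nat_lit 2025984) (nat_lit 31) (nat_lit 2) (nat_lit 2) (nat_lit 1) true (nat_lit 7) true (nat_lit 12) false (nat_lit 1) true (nat_lit 11) true (nat_lit 11) (.s true (nat_lit 1832448) (nat_lit 32) (nat_lit 0) (nat_lit 2) (nat_lit 2) true (nat_lit 8) true (nat_lit 11) false (nat_lit 2) true (nat_lit 13) true (nat_lit 11) (.s false (nat_lit 7824768) (nat_lit 33) (nat_lit 0) (nat_lit 2) (nat_lit 2) true (nat_lit 8) true (nat_lit 11) false (nat_lit 2) true (nat_lit 13) true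 (nat_lit 11) (.s false (nat_lit 442752) (nat_lit 33) (nat_lit 2) (nat_lit 0) (nat_lit 2) true (nat_lit 6) true (nat_lit 11) false (nat_lit 2) true (nat_lit 11) true (nat_lit 13) (.s true (nat_lit 5087232) (nat_lit 34) (nat_lit 2) (nat_lit 0) (nat_lit 2) true (nat_lit 6) true (nat_lit 11) false (nat_lit 2) true (nat_lit 11) true (nat_lit 13) (.s true (nat_lit 2185344) (nat_lit 33) (nat_lit 2) (nat_lit 2) (nat_lit 0) true (nat_lit 8) true (nat_lit 13) false (nat_lit 2) true (nat_lit 11) true (nat_lit 11) (.s false (nat_lit 5613312) (nat_lit 34) (nat_lit 2) (nat_lit 2) (nat_lit 0) true (nat_lit 8) true (nat_lit 13) false (nat_lit 2) true (nat_lit 11) true (nat_lit 11) (.s false (nat_lit 11137152) (nat_lit 36) (nat_lit 1) (nat_lit 1) (nat_lit 2) true (nat_lit 7) true (nat_lit 11) false (nat_lit 3) true (nat_lit 12) true (nat_lit 12) (.s true (nat_lit 1168896) (nat_lit 37) (nat_lit 1) (nat_lit 1)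 (nat_lit 2) true (nat_lit 7) true (nat_lit 11) false (nat_lit 3) true (nat_lit 12) true (nat_lit 12) (.s false (nat_lit 1730688) (nat_lit 36) (nat_lit 1) (nat_lit 2) (nat_lit 1) true (nat_lit 9) true (nat_lit 12) false (nat_lit 3) true (nat_lit 12) true (nat_lit 11) (.s true (nat_lit 1890048) (nat_lit 39) (nat_lit 0) (nat_lit 1) (nat_lit 2) true (nat_lit 8) true (nat_lit 11) false (nat_lit 4) true (nat_lit 13) true (nat_lit 12) (.s false (nat_lit 460416) (nat_lit 40) (nat_lit 0) (nat_lit 1) (nat_lit 2) true (nat_lit 8) true (nat_lit 11) false (nat_lit 4) true (nat_lit 13) true (nat_lit 12) (.s false (nat_lit 6654336) (nat_lit 39) (nat_lit 0) (nat_lit 2) (nat_lit 1) true (nat_lit 10) true (nat_lit 12) false (nat_lit 4) true (nat_lit 13) true (nat_lit 11) (.s true (nat_lit 7468800) (nat_lit 40) (nat_lit 0) (nat_lit 2) (nat_lit 1) true (nat_lit 10) true (nat_lit 12) false (nat_lit 4) true (nat_lit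 13) true (nat_lit 11) (.s false (nat_lit 2143104) (nat_lit 39) (nat_lit 1) (nat_lit 0) (nat_lit 2) true (nat_lit 7) true (nat_lit 11) false (nat_lit 4) true (nat_lit 12) true (nat_lit 13) (.s false (nat_lit 1059072) (nat_lit 40) (nat_lit 1) (nat_lit 0) (nat_lit 2) true (nat_lit 7) true (nat_lit 11) false (nat_lit 4) true (nat_lit 12) true (nat_lit 13) (.s true (nat_lit 165888) (nat_lit 41) (nat_lit 1) (nat_lit 0) (nat_lit 1) true (nat_lit 9) true (nat_lit 12) false (nat_lit 5) true (nat_lit 12) true (nat_lit 13) (.s true (nat_lit 3533952) (nat_lit 41) (nat_lit 1) (nat_lit 1) (nat_lit 0) true (nat_lit 10) true (nat_lit 13) false (nat_lit 5) true (nat_lit 12) true (nat_lit 12) .nil)))))))))))))))))))))))))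

noncomputable def dBe_i6 : IL := (.s false (nat_lit 152064) (nat_lit 17) (nat_lit 0) (nat_lit 2) (nat_lit 6) true (nat_lit 4) true (nat_lit 7) true (nat_lit 1) true (nat_lit 13) true (nat_lit 11) (.s true (nat_lit 2156544) (nat_lit 17) (nat_lit 1) (nat_lit 2) (nat_lit 5) true (nat_lit 4) true (nat_lit 8) true (nat_lit 1) true (nat_lit 12) true (nat_lit 11) (.s true (nat_lit 2025984) (nat_lit 18) (nat_lit 2) (nat_lit 1) (nat_lit 5) true (nat_lit 2) true (nat_lit 8) true (nat_lit 1) true (nat_lit 11) true (nat_lit 12) (.s false (nat_lit 4348416) (nat_lit 18) (nat_lit 2) (nat_lit 2) (nat_lit 3) true (nat_lit 4) true (nat_lit 10) true (nat_lit 1) true (nat_lit 11) true (nat_lit 11) (.s false (nat_lit 5348736) (nat_lit 17) (nat_lit 2) (nat_lit 6) (nat_lit 0) true (nat_lit 8) true (nat_lit 13) true (nat_lit 1) true (nat_lit 11) true (nat_lit 7) (.s false (nat_lit 2799744) (nat_lit 18) (nat_lit 3)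 (nat_lit 2) (nat_lit 2) true (nat_lit 4) true (nat_lit 11) true (nat_lit 1) true (nat_lit 10) true (nat_lit 11) (.s true (nat_lit 2605056) (nat_lit 18) (nat_lit 5) (nat_lit 1) (nat_lit 2) true (nat_lit 2) true (nat_lit 11) true (nat_lit 1) true (nat_lit 8) true (nat_lit 12) (.s false (nat_lit 5590656) (nat_lit 17) (nat_lit 6) (nat_lit 0) (nat_lit 2) true (nat_lit 1) true (nat_lit 11) true (nat_lit 1) true (nat_lit 7) true (nat_lit 13) (.s true (nat_lit 1003008) (nat_lit 18) (nat_lit 6) (nat_lit 0) (nat_lit 2) true (nat_lit 1) true (nat_lit 11) true (nat_lit 1) true (nat_lit 7) true (nat_lit 13) (.s false (nat_lit 2716800) (nat_lit 19) (nat_lit 0) (nat_lit 1) (nat_lit 6) true (nat_lit 4) true (nat_lit 7) true (nat_lit 0) true (nat_lit 13) true (nat_lit 12) (.s true (nat_lit 3533952) (nat_lit 19) (nat_lit 0) (nat_lit 6) (nat_lit 1) true (nat_lit 10) true (nat_lit 12) true (nat_lit 0) true (nat_lit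 13) true (nat_lit 7) (.s false (nat_lit 262656) (nat_lit 19) (nat_lit 1) (nat_lit 0) (nat_lit 6) true (nat_lit 3) true (nat_lit 7) true (nat_lit 0) true (nat_lit 12) true (nat_lit 13) (.s false (nat_lit 1092480) (nat_lit 19) (nat_lit 1) (nat_lit 5) (nat_lit 1) true (nat_lit 9) true (nat_lit 12) true (nat_lit 0) true (nat_lit 12) true (nat_lit 8) (.s false (nat_lit 295296) (nat_lit 19) (nat_lit 4) (nat_lit 0) (nat_lit 2) true (nat_lit 3) true (nat_lit 11) true (nat_lit 0) true (nat_lit 9) true (nat_lit 13) (.s false (nat_lit 1221888) (nat_lit 19) (nat_lit 4) (nat_lit 2) (nat_lit 0) true (nat_lit 5) true (nat_lit 13) true (nat_lit 0) true (nat_lit 9) true (nat_lit 11) (.s false (nat_lit 442752) (nat_lit 19) (nat_lit 5) (nat_lit 1) (nat_lit 1) true (nat_lit 4) true (nat_lit 12) true (nat_lit 0) true (nat_lit 8) true (nat_lit 12) (.s false (nat_lit 1925376) (nat_lit 19) (nat_lit 6) (nat_lit 0) (nat_lit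 1) true (nat_lit 3) true (nat_lit 12) true (nat_lit 0) true (nat_lit 7) true (nat_lit 13) (.s false (nat_lit 2454144) (nat_lit 19) (nat_lit 6) (nat_lit 1) (nat_lit 0) true (nat_lit 4) true (nat_lit 13) true (nat_lit 0) true (nat_lit 7) true (nat_lit 12) (.s true (nat_lit 3679104) (nat_lit 22) (nat_lit 2) (nat_lit 2) (nat_lit 2) true (nat_lit 6) true (nat_lit 11) false (nat_lit 0) true (nat_lit 11) true (nat_lit 11) (.s true (nat_lit 5004672) (nat_lit 23) (nat_lit 2) (nat_lit 2) (nat_lit 2) true (nat_lit 6) true (nat_lit 11) false (nat_lit 0) true (nat_lit 11) true (nat_lit 11) (.s false (nat_lit 783744) (nat_lit 24) (nat_lit 2) (nat_lit 2) (nat_lit 2) true (nat_lit 6) true (nat_lit 11) false (nat_lit 0) true (nat_lit 11) true (nat_lit 11) (.s true (nat_lit 5987136) (nat_lit 25) (nat_lit 2) (nat_lit 2) (nat_lit 2) true (nat_lit 6) true (nat_lit 11) false (nat_lit 0) true (nat_lit 11) true (nat_lit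 11) (.s false (nat_lit 1272576) (nat_lit 27) (nat_lit 1) (nat_lit 2) (nat_lit 2) true (nat_lit 7) true (nat_lit 11) false (nat_lit 1) true (nat_lit 12) true (nat_lit 11) (.s true (nat_lit 2622720) (nat_lit 28) (nat_lit 1) (nat_lit 2) (nat_lit 2) true (nat_lit 7) true (nat_lit 11) false (nat_lit 1) true (nat_lit 12) true (nat_lit 11) (.s true (nat_lit 739584) (nat_lit 29) (nat_lit 1) (nat_lit 2) (nat_lit 2) true (nat_lit 7) true (nat_lit 11) false (nat_lit 1) true (nat_lit 12) true (nat_lit 11) dBe_i5)))))))))))))))))))))))))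

noncomputable def dBe_i7 : IL := (.s false (nat_lit 1215360) (nat_lit 10) (nat_lit 6) (nat_lit 2) (nat_lit 2) true (nat_lit 1) true (nat_lit 11) true (nat_lit 4) true (nat_lit 7) true (nat_lit 11) (.s true (nat_lit 936192) (nat_lit 11) (nat_lit 6) (nat_lit 2) (nat_lit 2) true (nat_lit 1) true (nat_lit 11) true (nat_lit 4) true (nat_lit 7) true (nat_lit 11) (.s true (nat_lit 110592) (nat_lit 12) (nat_lit 7) (nat_lit 1) (nat_lit 2) true (nat_lit 0) true (nat_lit 11) true (nat_lit 4) true (nat_lit 6) true (nat_lit 12) (.s true (nat_lit 2184576) (nat_lit 10) (nat_lit 7) (nat_lit 2) (nat_lit 1) true (nat_lit 1) true (nat_lit 12) true (nat_lit 4) true (nat_lit 6) true (nat_lit 11) (.s false (nat_lit 703488) (nat_lit 11) (nat_lit 7) (nat_lit 2) (nat_lit 1) true (nat_lit 1) true (nat_lit 12) true (nat_lit 4) true (nat_lit 6) true (nat_lit 11) (.s true (nat_lit 5988864) (nat_lit 13) (nat_lit 2) (nat_lit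 0) (nat_lit 7) true (nat_lit 0) true (nat_lit 6) true (nat_lit 3) true (nat_lit 11) true (nat_lit 13) (.s true (nat_lit 2826240) (nat_lit 13) (nat_lit 2) (nat_lit 2) (nat_lit 5) true (nat_lit 2) true (nat_lit 8) true (nat_lit 3) true (nat_lit 11) true (nat_lit 11) (.s true (nat_lit 4077696) (nat_lit 13) (nat_lit 2) (nat_lit 7) (nat_lit 0) true (nat_lit 8) true (nat_lit 13) true (nat_lit 3) true (nat_lit 11) true (nat_lit 6) (.s false (nat_lit 1586688) (nat_lit 14) (nat_lit 2) (nat_lit 7) (nat_lit 0) true (nat_lit 8) true (nat_lit 13) true (nat_lit 3) true (nat_lit 11) true (nat_lit 6) (.s false (nat_lit 27648) (nat_lit 13) (nat_lit 5) (nat_lit 2) (nat_lit 2) true (nat_lit 2) true (nat_lit 11) true (nat_lit 3) true (nat_lit 8) true (nat_lit 11) (.s true (nat_lit 1161408) (nat_lit 13) (nat_lit 7) (nat_lit 0) (nat_lit 2) true (nat_lit 0) true (nat_lit 11) true (nat_lit 3) true (nat_lit 6) true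 (nat_lit 13) (.s true (nat_lit 2025984) (nat_lit 16) (nat_lit 1) (nat_lit 1) (nat_lit 7) true (nat_lit 1) true (nat_lit 6) true (nat_lit 2) true (nat_lit 12) true (nat_lit 12) (.s true (nat_lit 4186752) (nat_lit 16) (nat_lit 1) (nat_lit 2) (nat_lit 6) true (nat_lit 3) true (nat_lit 7) true (nat_lit 2) true (nat_lit 12) true (nat_lit 11) (.s false (nat_lit 1876608) (nat_lit 15) (nat_lit 1) (nat_lit 6) (nat_lit 2) true (nat_lit 7) true (nat_lit 11) true (nat_lit 2) true (nat_lit 12) true (nat_lit 7) (.s true (nat_lit 11927808) (nat_lit 16) (nat_lit 1) (nat_lit 6) (nat_lit 2) true (nat_lit 7) true (nat_lit 11) true (nat_lit 2) true (nat_lit 12) true (nat_lit 7) (.s false (nat_lit 4041984) (nat_lit 16) (nat_lit 1) (nat_lit 7) (nat_lit 1) true (nat_lit 9) true (nat_lit 12) true (nat_lit 2) true (nat_lit 12) true (nat_lit 6) (.s false (nat_lit 528768) (nat_lit 15) (nat_lit 2) (nat_lit 1) (nat_lit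 6) true (nat_lit 1) true (nat_lit 7) true (nat_lit 2) true (nat_lit 11) true (nat_lit 12) (.s false (nat_lit 55296) (nat_lit 15) (nat_lit 2) (nat_lit 2) (nat_lit 4) true (nat_lit 3) true (nat_lit 9) true (nat_lit 2) true (nat_lit 11) true (nat_lit 11) (.s true (nat_lit 1868928) (nat_lit 16) (nat_lit 2) (nat_lit 2) (nat_lit 4) true (nat_lit 3) true (nat_lit 9) true (nat_lit 2) true (nat_lit 11) true (nat_lit 11) (.s false (nat_lit 452352) (nat_lit 16) (nat_lit 2) (nat_lit 6) (nat_lit 1) true (nat_lit 7) true (nat_lit 12) true (nat_lit 2) true (nat_lit 11) true (nat_lit 7) (.s true (nat_lit 5151552) (nat_lit 16) (nat_lit 4) (nat_lit 2) (nat_lit 2) true (nat_lit 3) true (nat_lit 11) true (nat_lit 2) true (nat_lit 9) true (nat_lit 11) (.s true (nat_lit 487296) (nat_lit 15) (nat_lit 6) (nat_lit 1) (nat_lit 2) true (nat_lit 1) true (nat_lit 11) true (nat_lit 2) true (nat_lit 7) true (nat_lit 12) (.s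 false (nat_lit 152064) (nat_lit 15) (nat_lit 6) (nat_lit 2) (nat_lit 1) true (nat_lit 3) true (nat_lit 12) true (nat_lit 2) true (nat_lit 7) true (nat_lit 11) (.s false (nat_lit 2380032) (nat_lit 16) (nat_lit 6) (nat_lit 2) (nat_lit 1) true (nat_lit 3) true (nat_lit 12) true (nat_lit 2) true (nat_lit 7) true (nat_lit 11) (.s true (nat_lit 1109568) (nat_lit 18) (nat_lit 0) (nat_lit 1) (nat_lit 7) true (nat_lit 2) true (nat_lit 6) true (nat_lit 1) true (nat_lit 13) true (nat_lit 12) dBe_i6)))))))))))))))))))))))))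

noncomputable def dBe_il : IL := (.s false (nat_lit 2645376) (nat_lit 6) (nat_lit 2) (nat_lit 6) (nat_lit 5) true (nat_lit 2) true (nat_lit 8) true (nat_lit 7) true (nat_lit 11) true (nat_lit 7) (.s false (nat_lit 1001472) (nat_lit 6) (nat_lit 5) (nat_lit 2) (nat_lit 6) false (nat_lit 1) true (nat_lit 7) true (nat_lit 7) true (nat_lit 8) true (nat_lit 11) (.s true (nat_lit 3790944) (nat_lit 7) (nat_lit 0) (nat_lit 4) (nat_lit 7) true (nat_lit 2) true (nat_lit 6) true (nat_lit 6) true (nat_lit 13) true (nat_lit 9) (.s true (nat_lit 3301056) (nat_lit 7) (nat_lit 1) (nat_lit 3) (nat_lit 7) true (nat_lit 1) true (nat_lit 6) true (nat_lit 6) true (nat_lit 12) true (nat_lit 10) (.s false (nat_lit 356352) (nat_lit 7) (nat_lit 1) (nat_lit 6) (nat_lit 5) true (nat_lit 4) true (nat_lit 8) true (nat_lit 6) true (nat_lit 12) true (nat_lit 7) (.s true (nat_lit 2753472) (nat_lit 7) (nat_lit 1) (nat_lit 7)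 (nat_lit 3) true (nat_lit 5) true (nat_lit 10) true (nat_lit 6) true (nat_lit 12) true (nat_lit 6) (.s false (nat_lit 815808) (nat_lit 7) (nat_lit 4) (nat_lit 0) (nat_lit 7) false (nat_lit 2) true (nat_lit 6) true (nat_lit 6) true (nat_lit 9) true (nat_lit 13) (.s false (nat_lit 2201856) (nat_lit 7) (nat_lit 6) (nat_lit 0) (nat_lit 6) false (nat_lit 2) true (nat_lit 7) true (nat_lit 6) true (nat_lit 7) true (nat_lit 13) (.s false (nat_lit 5945856) (nat_lit 7) (nat_lit 6) (nat_lit 6) (nat_lit 0) true (nat_lit 4) true (nat_lit 13) true (nat_lit 6) true (nat_lit 7) true (nat_lit 7) (.s false (nat_lit 2096640) (nat_lit 9) (nat_lit 2) (nat_lit 2) (nat_lit 7) true (nat_lit 0) true (nat_lit 6) true (nat_lit 5) true (nat_lit 11) true (nat_lit 11) (.s false (nat_lit 2325888) (nat_lit 9) (nat_lit 2) (nat_lit 7) (nat_lit 2) true (nat_lit 6) true (nat_lit 11) true (nat_lit 5) true (nat_lit 11) true (nat_lit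 6) (.s false (nat_lit 7680) (nat_lit 10) (nat_lit 1) (nat_lit 2) (nat_lit 7) true (nat_lit 1) true (nat_lit 6) true (nat_lit 4) true (nat_lit 12) true (nat_lit 11) (.s false (nat_lit 6133248) (nat_lit 10) (nat_lit 2) (nat_lit 1) (nat_lit 7) true (nat_lit 0) true (nat_lit 6) true (nat_lit 4) true (nat_lit 11) true (nat_lit 12) (.s false (nat_lit 1139712) (nat_lit 11) (nat_lit 2) (nat_lit 1) (nat_lit 7) true (nat_lit 0) true (nat_lit 6) true (nat_lit 4) true (nat_lit 11) true (nat_lit 12) (.s true (nat_lit 6132480) (nat_lit 12) (nat_lit 2) (nat_lit 1) (nat_lit 7) true (nat_lit 0) true (nat_lit 6) true (nat_lit 4) true (nat_lit 11) true (nat_lit 12) (.s false (nat_lit 3191808) (nat_lit 10) (nat_lit 2) (nat_lit 2) (nat_lit 6) true (nat_lit 1) true (nat_lit 7) true (nat_lit 4) true (nat_lit 11) true (nat_lit 11) (.s true (nat_lit 4992384) (nat_lit 11) (nat_lit 2) (nat_lit 2) (nat_lit 6) true (nat_lit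 1) true (nat_lit 7) true (nat_lit 4) true (nat_lit 11) true (nat_lit 11) (.s false (nat_lit 883584) (nat_lit 10) (nat_lit 2) (nat_lit 6) (nat_lit 2) true (nat_lit 6) true (nat_lit 11) true (nat_lit 4) true (nat_lit 11) true (nat_lit 7) (.s true (nat_lit 3424512) (nat_lit 11) (nat_lit 2) (nat_lit 6) (nat_lit 2) true (nat_lit 6) true (nat_lit 11) true (nat_lit 4) true (nat_lit 11) true (nat_lit 7) dBe_i7)))))))))))))))))))

theorem dBe_chk : chk 5 idsM dBe_D par2 (clsL [0,0,0,0,1,1,2]) BeEx (.c (nat_lit 2) (nat_lit 1) (.c (nat_lit 2) (nat_lit 1) (.c (nat_lit 2) (nat_lit 1) (.c (nat_lit 2) (nat_lit 1) (.c (nat_lit 1) (nat_lit 16) (.c (nat_lit 1) (nat_lit 16) (.c (nat_lit 0) (nat_lit 256) .nil))))))) (nat_lit 242) (nat_lit 292) (nat_lit 1) dBe_gs dBe_il = true := by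
  decide +kernel

end Chk

/-- certificate of `BeEx` -/
theorem cert_BeEx : Cert.{u} 5 idsM par2 (clsL [0,0,0,0,1,1,2]) BeEx :=
  Chk.chk_sound _ _ (by simp [idsM]) (by simp [idsM]) _ _ _ _ _ _ _ _ _ _ Chk.dBe_chk

end Pool.Agent.MalP
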