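import Pool.Agent.MalP.Check4
import Pool.Agent.MalP.CertPar

/-! # Certificate of P8Ex -/

set_option autoImplicit false
set_option maxRecDepth 100000

namespace Pool.Agent.MalP

universe u

namespace Chk

noncomputable def dP8_c289 : Cm := .mk (nat_lit 17) (nat_lit 289) (nat_lit 20) (nat_lit 6) (.c (nat_lit 5) (nat_lit 1) (nat_lit 4) (nat_lit 1) (nat_lit 6) (.c (nat_lit 6) (nat_lit 1) (nat_lit 3) (nat_lit 1) (nat_lit 7) (.c (nat_lit 8) (nat_lit 2) (nat_lit 2) (nat_lit 1) (nat_lit 8) (.c (nat_lit 10) (nat_lit 3) (nat_lit 1) (nat_lit 1) (nat_lit 10) (.c (nat_lit 13) (nat_lit 2) (nat_lit 0) (nat_lit 1) (nat_lit 13) .nil)))))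

noncomputable def dP8_c274 : Cm := .mk (nat_lit 26) (nat_lit 274) (nat_lit 26) (nat_lit 6) (.c (nat_lit 6) (nat_lit 1) (nat_lit 5) (nat_lit 1) (nat_lit 6) (.c (nat_lit 7) (nat_lit 1) (nat_lit 3) (nat_lit 1) (nat_lit 7) (.c (nat_lit 10) (nat_lit 3) (nat_lit 2) (nat_lit 1) (nat_lit 8) (.c (nat_lit 15) (nat_lit 2) (nat_lit 1) (nat_lit 1) (nat_lit 11) (.c (nat_lit 17) (nat_lit 2) (nat_lit 0) (nat_lit 1) (nat_lit 13) .nil)))))

noncomputable def dP8_c34 : Cm := .mk (nat_lit 35) (nat_lit 34) (nat_lit 32) (nat_lit 3) (.c (nat_lit 6) (nat_lit 1) (nat_lit 6) (nat_lit 1) (nat_lit 3) (.c (nat_lit 7) (nat_lit 1) (nat_lit 4) (nat_lit 1) (nat_lit 4) (.c (nat_lit 13) (nat_lit 2) (nat_lit 2) (nat_lit 1) (nat_lit 5) (.c (nat_lit 17) (nat_lit 2) (nat_lit 1) (nat_lit 1) (nat_lit 7) .nil))))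

noncomputable def dP8_c259 : Cm := .mk (nat_lit 40) (nat_lit 259) (nat_lit 35) (nat_lit 3) (.c (nat_lit 7) (nat_lit 1) (nat_lit 5) (nat_lit 1) (nat_lit 3) (.c (nat_lit 15) (nat_lit 2) (nat_lit 2) (nat_lit 1) (nat_lit 4) (.c (nat_lit 19) (nat_lit 1) (nat_lit 0) (nat_lit 1) (nat_lit 6) .nil)))

noncomputable def dP8_c19 : Cm := .mk (nat_lit 44) (nat_lit 19) (nat_lit 38) (nat_lit 3) (.c (nat_lit 7) (nat_lit 1) (nat_lit 6) (nat_lit 1) (nat_lit 3) (.c (nat_lit 17) (nat_lit 2) (nat_lit 2) (nat_lit 1) (nat_lit 4) (.c (nat_lit 19) (nat_lit 1) (nat_lit 1) (nat_lit 1) (nat_lit 6) .nil)))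

noncomputable def dP8_c290 : Cm := .mk (nat_lit 49) (nat_lit 290) (nat_lit 42) (nat_lit 14) (.c (nat_lit 8) (nat_lit 2) (nat_lit 7) (nat_lit 1) (nat_lit 14) (.c (nat_lit 10) (nat_lit 3) (nat_lit 6) (nat_lit 1) (nat_lit 16) (.c (nat_lit 13) (nat_lit 2) (nat_lit 5) (nat_lit 1) (nat_lit 19) (.c (nat_lit 15) (nat_lit 2) (nat_lit 4) (nat_lit 1) (nat_lit 21) (.c (nat_lit 17) (nat_lit 2) (nat_lit 3) (nat_lit 1) (nat_lit 23) (.c (nat_lit 20) (nat_lit 6) (nat_lit 2) (nat_lit 1) (nat_lit 25) (.c (nat_lit 26) (nat_lit 6) (nat_lit 1) (nat_lit 1) (nat_lit 31) (.c (nat_lit 32) (nat_lit 3) (nat_lit 0) (nat_lit 1) (nat_lit 37) .nil))))))))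

noncomputable def dP8_c275 : Cm := .mk (nat_lit 75) (nat_lit 275) (nat_lit 56) (nat_lit 11) (.c (nat_lit 10) (nat_lit 3) (nat_lit 7) (nat_lit 1) (nat_lit 11) (.c (nat_lit 15) (nat_lit 2) (nat_lit 6) (nat_lit 1) (nat_lit 14) (.c (nat_lit 17) (nat_lit 2) (nat_lit 5) (nat_lit 1) (nat_lit 16) (.c (nat_lit 19) (nat_lit 1) (nat_lit 3) (nat_lit 1) (nat_lit 18) (.c (nat_lit 26) (nat_lit 6) (nat_lit 2) (nat_lit 1) (nat_lit 19) (.c (nat_lit 35) (nat_lit 3) (nat_lit 1) (nat_lit 1) (nat_lit 25) (.c (nat_lit 38) (nat_lit 3) (nat_lit 0) (nat_lit 1) (nat_lit 28) .nil)))))))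

noncomputable def dP8_c35 : Cm := .mk (nat_lit 95) (nat_lit 35) (nat_lit 67) (nat_lit 6) (.c (nat_lit 13) (nat_lit 2) (nat_lit 7) (nat_lit 1) (nat_lit 6) (.c (nat_lit 17) (nat_lit 2) (nat_lit 6) (nat_lit 1) (nat_lit 8) (.c (nat_lit 19) (nat_lit 1) (nat_lit 4) (nat_lit 1) (nat_lit 10) (.c (nat_lit 32) (nat_lit 3) (nat_lit 2) (nat_lit 1) (nat_lit 11) (.c (nat_lit 38) (nat_lit 3) (nat_lit 1) (nat_lit 1) (nat_lit 14) .nil)))))

noncomputable def dP8_c260 : Cm := .mk (nat_lit 106) (nat_lit 260) (nat_lit 73) (nat_lit 4) (.c (nat_lit 15) (nat_lit 2) (nat_lit 7) (nat_lit 1) (nat_lit 4) (.c (nat_lit 19) (nat_lit 1) (nat_lit 5) (nat_lit 1) (nat_lit 6) (.c (nat_lit 35) (nat_lit 3) (nat_lit 2) (nat_lit 1) (nat_lit 7) (.c (nat_lit 41) (nat_lit 1) (nat_lit 0) (nat_lit 1) (nat_lit 10) .nil))))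

noncomputable def dP8_c20 : Cm := .mk (nat_lit 113) (nat_lit 20) (nat_lit 77) (nat_lit 4) (.c (nat_lit 17) (nat_lit 2) (nat_lit 7) (nat_lit 1) (nat_lit 4) (.c (nat_lit 19) (nat_lit 1) (nat_lit 6) (nat_lit 1) (nat_lit 6) (.c (nat_lit 38) (nat_lit 3) (nat_lit 2) (nat_lit 1) (nat_lit 7) (.c (nat_lit 41) (nat_lit 1) (nat_lit 1) (nat_lit 1) (nat_lit 10) .nil))))

noncomputable def dP8_c5 : Cm := .mk (nat_lit 120) (nat_lit 5) (nat_lit 81) (nat_lit 1) (.c (nat_lit 19) (nat_lit 1) (nat_lit 7) (nat_lit 1) (nat_lit 1) (.c (nat_lit 41) (nat_lit 1) (nat_lit 2) (nat_lit 1) (nat_lit 2) .nil))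

noncomputable def dP8_c291 : Cm := .mk (nat_lit 122) (nat_lit 291) (nat_lit 82) (nat_lit 26) (.c (nat_lit 15) (nat_lit 2) (nat_lit 13) (nat_lit 2) (nat_lit 26) (.c (nat_lit 17) (nat_lit 2) (nat_lit 10) (nat_lit 3) (nat_lit 30) (.c (nat_lit 19) (nat_lit 1) (nat_lit 8) (nat_lit 2) (nat_lit 36) (.c (nat_lit 20) (nat_lit 6) (nat_lit 7) (nat_lit 1) (nat_lit 38) (.c (nat_lit 26) (nat_lit 6) (nat_lit 6) (nat_lit 1) (nat_lit 44) (.c (nat_lit 32) (nat_lit 3) (nat_lit 5) (nat_lit 1) (nat_lit 50) (.c (nat_lit 35) (nat_lit 3) (nat_lit 4) (nat_lit 1) (nat_lit 53) (.c (nat_lit 38) (nat_lit 3) (nat_lit 3) (nat_lit 1) (nat_lit 56) (.c (nat_lit 42) (nat_lit 14) (nat_lit 2) (nat_lit 1) (nat_lit 59) (.c (nat_lit 56) (nat_lit 11) (nat_lit 1) (nat_lit 1) (nat_lit 73) (.c (nat_lit 67) (nat_lit 6) (nat_lit 0) (nat_lit 1) (nat_lit 84) .nil)))))))))))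

noncomputable def dP8_c276 : Cm := .mk (nat_lit 184) (nat_lit 276) (nat_lit 108) (nat_lit 16) (.c (nat_lit 17) (nat_lit 2) (nat_lit 15) (nat_lit 2) (nat_lit 16) (.c (nat_lit 19) (nat_lit 1) (nat_lit 10) (nat_lit 3) (nat_lit 20) (.c (nat_lit 26) (nat_lit 6) (nat_lit 7) (nat_lit 1) (nat_lit 23) (.c (nat_lit 35) (nat_lit 3) (nat_lit 6) (nat_lit 1) (nat_lit 29) (.c (nat_lit 38) (nat_lit 3) (nat_lit 5) (nat_lit 1) (nat_lit 32) (.c (nat_lit 41) (nat_lit 1) (nat_lit 3) (nat_lit 1) (nat_lit 35) (.c (nat_lit 56) (nat_lit 11) (nat_lit 2) (nat_lit 1) (nat_lit 36) (.c (nat_lit 73) (nat_lit 4) (nat_lit 1) (nat_lit 1) (nat_lit 47) (.c (nat_lit 77) (nat_lit 4) (nat_lit 0) (nat_lit 1) (nat_lit 51) .nil)))))))))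

noncomputable def dP8_c36 : Cm := .mk (nat_lit 223) (nat_lit 36) (nat_lit 124) (nat_lit 10) (.c (nat_lit 17) (nat_lit 2) (nat_lit 17) (nat_lit 2) (nat_lit 10) (.c (nat_lit 19) (nat_lit 1) (nat_lit 13) (nat_lit 2) (nat_lit 14) (.c (nat_lit 32) (nat_lit 3) (nat_lit 7) (nat_lit 1) (nat_lit 16) (.c (nat_lit 38) (nat_lit 3) (nat_lit 6) (nat_lit 1) (nat_lit 19) (.c (nat_lit 41) (nat_lit 1) (nat_lit 4) (nat_lit 1) (nat_lit 22) (.c (nat_lit 67) (nat_lit 6) (nat_lit 2) (nat_lit 1) (nat_lit 23) (.c (nat_lit 77) (nat_lit 4) (nat_lit 1) (nat_lit 1) (nat_lit 29) .nil)))))))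

noncomputable def dP8_c261 : Cm := .mk (nat_lit 242) (nat_lit 261) (nat_lit 134) (nat_lit 5) (.c (nat_lit 19) (nat_lit 1) (nat_lit 15) (nat_lit 2) (nat_lit 5) (.c (nat_lit 35) (nat_lit 3) (nat_lit 7) (nat_lit 1) (nat_lit 7) (.c (nat_lit 41) (nat_lit 1) (nat_lit 5) (nat_lit 1) (nat_lit 10) (.c (nat_lit 73) (nat_lit 4) (nat_lit 2) (nat_lit 1) (nat_lit 11) (.c (nat_lit 81) (nat_lit 1) (nat_lit 0) (nat_lit 1) (nat_lit 15) .nil)))))

noncomputable def dP8_c21 : Cm := .mk (nat_lit 251) (nat_lit 21) (nat_lit 139) (nat_lit 5) (.c (nat_lit 19) (nat_lit 1) (nat_lit 17) (nat_lit 2) (nat_lit 5) (.c (nat_lit 38) (nat_lit 3) (nat_lit 7) (nat_lit 1) (nat_lit 7) (.c (nat_lit 41) (nat_lit 1) (nat_lit 6) (nat_lit 1) (nat_lit 10) (.c (nat_lit 77) (nat_lit 4) (nat_lit 2) (nat_lit 1) (nat_lit 11) (.c (nat_lit 81) (nat_lit 1) (nat_lit 1) (nat_lit 1) (nat_lit 15) .nil)))))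

noncomputable def dP8_c292 : Cm := .mk (nat_lit 262) (nat_lit 292) (nat_lit 144) (nat_lit 37) (.c (nat_lit 20) (nat_lit 6) (nat_lit 19) (nat_lit 1) (nat_lit 37) (.c (nat_lit 26) (nat_lit 6) (nat_lit 17) (nat_lit 2) (nat_lit 43) (.c (nat_lit 32) (nat_lit 3) (nat_lit 15) (nat_lit 2) (nat_lit 55) (.c (nat_lit 35) (nat_lit 3) (nat_lit 13) (nat_lit 2) (nat_lit 61) (.c (nat_lit 38) (nat_lit 3) (nat_lit 10) (nat_lit 3) (nat_lit 67) (.c (nat_lit 41) (nat_lit 1) (nat_lit 8) (nat_lit 2) (nat_lit 76) (.c (nat_lit 42) (nat_lit 14) (nat_lit 7) (nat_lit 1) (nat_lit 78) (.c (nat_lit 56) (nat_lit 11) (nat_lit 6) (nat_lit 1) (nat_lit 92) (.c (nat_lit 67) (nat_lit 6) (nat_lit 5) (nat_lit 1) (nat_lit 103) (.c (nat_lit 73) (nat_lit 4) (nat_lit 4) (nat_lit 1) (nat_lit 109) (.c (nat_lit 77) (nat_lit 4) (nat_lit 3) (nat_lit 1) (nat_lit 113) (.c (nat_lit 82) (nat_lit 26) (nat_lit 2) (nat_lit 1) (nat_lit 117) (.c (nat_lit 108) (nat_lit 16)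 (nat_lit 1) (nat_lit 1) (nat_lit 143) (.c (nat_lit 124) (nat_lit 10) (nat_lit 0) (nat_lit 1) (nat_lit 159) .nil))))))))))))))

noncomputable def dP8_c277 : Cm := .mk (nat_lit 387) (nat_lit 277) (nat_lit 181) (nat_lit 19) (.c (nat_lit 26) (nat_lit 6) (nat_lit 19) (nat_lit 1) (nat_lit 19) (.c (nat_lit 35) (nat_lit 3) (nat_lit 17) (nat_lit 2) (nat_lit 25) (.c (nat_lit 38) (nat_lit 3) (nat_lit 15) (nat_lit 2) (nat_lit 31) (.c (nat_lit 41) (nat_lit 1) (nat_lit 10) (nat_lit 3) (nat_lit 37) (.c (nat_lit 56) (nat_lit 11) (nat_lit 7) (nat_lit 1) (nat_lit 40) (.c (nat_lit 73) (nat_lit 4) (nat_lit 6) (nat_lit 1) (nat_lit 51) (.c (nat_lit 77) (nat_lit 4) (nat_lit 5) (nat_lit 1) (nat_lit 55) (.c (nat_lit 81) (nat_lit 1) (nat_lit 3) (nat_lit 1) (nat_lit 59) (.c (nat_lit 108) (nat_lit 16) (nat_lit 2) (nat_lit 1) (nat_lit 60) (.c (nat_lit 134) (nat_lit 5) (nat_lit 1) (nat_lit 1) (nat_lit 76) (.c (nat_lit 139) (nat_lit 5) (nat_lit 0)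 (nat_lit 1) (nat_lit 81) .nil)))))))))))

noncomputable def dP8_c37 : Cm := .mk (nat_lit 440) (nat_lit 37) (nat_lit 200) (nat_lit 11) (.c (nat_lit 32) (nat_lit 3) (nat_lit 19) (nat_lit 1) (nat_lit 11) (.c (nat_lit 38) (nat_lit 3) (nat_lit 17) (nat_lit 2) (nat_lit 14) (.c (nat_lit 41) (nat_lit 1) (nat_lit 13) (nat_lit 2) (nat_lit 20) (.c (nat_lit 67) (nat_lit 6) (nat_lit 7) (nat_lit 1) (nat_lit 22) (.c (nat_lit 77) (nat_lit 4) (nat_lit 6) (nat_lit 1) (nat_lit 28) (.c (nat_lit 81) (nat_lit 1) (nat_lit 4) (nat_lit 1) (nat_lit 32) (.c (nat_lit 124) (nat_lit 10) (nat_lit 2) (nat_lit 1) (nat_lit 33) (.c (nat_lit 139) (nat_lit 5) (nat_lit 1) (nat_lit 1) (nat_lit 43) .nil))))))))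

noncomputable def dP8_i0 : IL := (.s true (nat_lit 1) (nat_lit 15) (nat_lit 2) (nat_lit 1) (nat_lit 1) true (nat_lit 4) true (nat_lit 9) false (nat_lit 0) true (nat_lit 8) true (nat_lit 9) (.s false (nat_lit 1) (nat_lit 17) (nat_lit 2) (nat_lit 0) (nat_lit 1) true (nat_lit 4) true (nat_lit 9) false (nat_lit 1) true (nat_lit 8) true (nat_lit 10) (.e false (nat_lit 576) (nat_lit 43) (nat_lit 2) (nat_lit 8) (.e true (nat_lit 576) (nat_lit 44) (nat_lit 2) (nat_lit 8) (.e true (nat_lit 576) (nat_lit 45) (nat_lit 2) (nat_lit 8) (.e true (nat_lit 1152) (nat_lit 46) (nat_lit 2) (nat_lit 8) (.e false (nat_lit 576) (nat_lit 47) (nat_lit 2) (nat_lit 8) (.e true (nat_lit 1152) (nat_lit 55) (nat_lit 2) (nat_lit 8) (.e false (nat_lit 1152) (nat_lit 28) (nat_lit 6) (nat_lit 4) (.e true (nat_lit 576) (nat_lit 68) (nat_lit 0) (nat_lit 10) (.e true (nat_lit 576) (nat_lit 69) (nat_lit 0) (nat_lit 10) (.e false (nat_lit 576) (nat_lit 70)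 (nat_lit 0) (nat_lit 10) (.e false (nat_lit 576) (nat_lit 26) (nat_lit 6) (nat_lit 4) (.e true (nat_lit 1152) (nat_lit 27) (nat_lit 6) (nat_lit 4) (.e true (nat_lit 576) (nat_lit 56) (nat_lit 1) (nat_lit 9) (.e false (nat_lit 576) (nat_lit 60) (nat_lit 1) (nat_lit 9) (.e false (nat_lit 1152) (nat_lit 61) (nat_lit 1) (nat_lit 9) (.e true (nat_lit 576) (nat_lit 62) (nat_lit 1) (nat_lit 9) (.e false (nat_lit 576) (nat_lit 67) (nat_lit 0) (nat_lit 10) (.e false (nat_lit 576) (nat_lit 72) (nat_lit 0) (nat_lit 10) (.e false (nat_lit 576) (nat_lit 25) (nat_lit 7) (nat_lit 3) (.e true (nat_lit 576) (nat_lit 52) (nat_lit 2) (nat_lit 8) (.e false (nat_lit 576) (nat_lit 23) (nat_lit 7) (nat_lit 3) (.e true (nat_lit 576) (nat_lit 65) (nat_lit 1) (nat_lit 9) (.e false (nat_lit 1152) (nat_lit 58) (nat_lit 1) (nat_lit 9) .nil)))))))))))))))))))))))))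

noncomputable def dP8_i1 : IL := (.s true (nat_lit 1) (nat_lit 7) (nat_lit 2) (nat_lit 4) (nat_lit 0) true (nat_lit 5) true (nat_lit 10) true (nat_lit 3) true (nat_lit 8) true (nat_lit 6) (.s true (nat_lit 1) (nat_lit 11) (nat_lit 2) (nat_lit 2) (nat_lit 1) true (nat_lit 4) true (nat_lit 9) true (nat_lit 1) true (nat_lit 8) true (nat_lit 8) (.s true (nat_lit 1) (nat_lit 14) (nat_lit 2) (nat_lit 2) (nat_lit 0) true (nat_lit 5) true (nat_lit 10) true (nat_lit 0) true (nat_lit 8) true (nat_lit 8) (.s true (nat_lit 1) (nat_lit 16) (nat_lit 1) (nat_lit 2) (nat_lit 1) true (nat_lit 6) true (nat_lit 9) false (nat_lit 0) true (nat_lit 9) true (nat_lit 8) (.s true (nat_lit 1) (nat_lit 17) (nat_lit 0) (nat_lit 2) (nat_lit 1) true (nat_lit 7) true (nat_lit 9) false (nat_lit 1) true (nat_lit 10) true (nat_lit 8) (.s false (nat_lit 1) (nat_lit 17) (nat_lit 1) (nat_lit 0) (nat_lit 2) true (nat_lit 4) true (nat_lit 8) false (nat_lit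 1) true (nat_lit 9) true (nat_lit 10) (.s true (nat_lit 1) (nat_lit 18) (nat_lit 2) (nat_lit 0) (nat_lit 1) true (nat_lit 4) true (nat_lit 9) false (nat_lit 1) true (nat_lit 8) true (nat_lit 10) (.e false (nat_lit 576) (nat_lit 43) (nat_lit 2) (nat_lit 8) (.e true (nat_lit 1152) (nat_lit 44) (nat_lit 2) (nat_lit 8) (.e true (nat_lit 1728) (nat_lit 46) (nat_lit 2) (nat_lit 8) (.e false (nat_lit 1152) (nat_lit 47) (nat_lit 2) (nat_lit 8) (.e true (nat_lit 1152) (nat_lit 53) (nat_lit 2) (nat_lit 8) (.e true (nat_lit 576) (nat_lit 55) (nat_lit 2) (nat_lit 8) (.e true (nat_lit 1728) (nat_lit 68) (nat_lit 0) (nat_lit 10) (.e true (nat_lit 576) (nat_lit 69) (nat_lit 0) (nat_lit 10) (.e false (nat_lit 576) (nat_lit 71) (nat_lit 0) (nat_lit 10) (.e false (nat_lit 1152) (nat_lit 29) (nat_lit 6) (nat_lit 4) (.e true (nat_lit 576) (nat_lit 26) (nat_lit 6) (nat_lit 4) (.e true (nat_lit 576) (nat_lit 56) (nat_lit 1) (nat_lit 9) (.e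 true (nat_lit 576) (nat_lit 60) (nat_lit 1) (nat_lit 9) (.e false (nat_lit 1152) (nat_lit 67) (nat_lit 0) (nat_lit 10) (.e false (nat_lit 1152) (nat_lit 72) (nat_lit 0) (nat_lit 10) (.e false (nat_lit 576) (nat_lit 25) (nat_lit 7) (nat_lit 3) (.e true (nat_lit 576) (nat_lit 52) (nat_lit 2) (nat_lit 8) (.e false (nat_lit 576) (nat_lit 65) (nat_lit 1) (nat_lit 9) .nil)))))))))))))))))))))))))

noncomputable def dP8_i2 : IL := (.s false (nat_lit 9) (nat_lit 17) (nat_lit 1) (nat_lit 2) (nat_lit 0) true (nat_lit 7) true (nat_lit 10) false (nat_lit 1) true (nat_lit 9) true (nat_lit 8) (.s true (nat_lit 4) (nat_lit 18) (nat_lit 2) (nat_lit 0) (nat_lit 1) true (nat_lit 4) true (nat_lit 9) false (nat_lit 1) true (nat_lit 8) true (nat_lit 10) (.s true (nat_lit 1) (nat_lit 19) (nat_lit 1) (nat_lit 1) (nat_lit 0) true (nat_lit 7) true (nat_lit 10) false (nat_lit 2) true (nat_lit 9) true (nat_lit 9) (.e false (nat_lit 3456) (nat_lit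 28) (nat_lit 6) (nat_lit 4) (.e false (nat_lit 5760) (nat_lit 26) (nat_lit 6) (nat_lit 4) (.e true (nat_lit 3456) (nat_lit 27) (nat_lit 6) (nat_lit 4) (.e true (nat_lit 2304) (nat_lit 30) (nat_lit 6) (nat_lit 4) (.e true (nat_lit 576) (nat_lit 68) (nat_lit 0) (nat_lit 10) (.e false (nat_lit 4608) (nat_lit 69) (nat_lit 0) (nat_lit 10) (.e false (nat_lit 3456) (nat_lit 44) (nat_lit 2) (nat_lit 8) (.e false (nat_lit 3456) (nat_lit 45) (nat_lit 2) (nat_lit 8) (.e false (nat_lit 2304) (nat_lit 46) (nat_lit 2) (nat_lit 8) (.e true (nat_lit 4032) (nat_lit 47) (nat_lit 2) (nat_lit 8) (.e false (nat_lit 2880) (nat_lit 53) (nat_lit 2) (nat_lit 8) (.e true (nat_lit 3456) (nat_lit 55) (nat_lit 2) (nat_lit 8) (.e false (nat_lit 1728) (nat_lit 34) (nat_lit 5) (nat_lit 5) (.e true (nat_lit 1728) (nat_lit 29) (nat_lit 6) (nat_lit 4) (.e true (nat_lit 1728) (nat_lit 62) (nat_lit 1) (nat_lit 9) (.e false (nat_lit 576) (nat_lit 23) (nat_lit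 7) (nat_lit 3) (.e false (nat_lit 576) (nat_lit 72) (nat_lit 0) (nat_lit 10) (.e false (nat_lit 2304) (nat_lit 60) (nat_lit 1) (nat_lit 9) (.e true (nat_lit 4032) (nat_lit 65) (nat_lit 1) (nat_lit 9) (.e false (nat_lit 576) (nat_lit 56) (nat_lit 1) (nat_lit 9) (.e true (nat_lit 1152) (nat_lit 67) (nat_lit 0) (nat_lit 10) (.e true (nat_lit 1728) (nat_lit 52) (nat_lit 2) (nat_lit 8) .nil)))))))))))))))))))))))))

noncomputable def dP8_i3 : IL := (.s false (nat_lit 1) (nat_lit 6) (nat_lit 0) (nat_lit 2) (nat_lit 6) true (nat_lit 1) true (nat_lit 4) true (nat_lit 4) true (nat_lit 10) true (nat_lit 8) (.s false (nat_lit 1) (nat_lit 6) (nat_lit 5) (nat_lit 2) (nat_lit 1) true (nat_lit 1) true (nat_lit 9) true (nat_lit 4) true (nat_lit 5) true (nat_lit 8) (.s false (nat_lit 1) (nat_lit 10) (nat_lit 1) (nat_lit 2) (nat_lit 2) true (nat_lit 4) true (nat_lit 8) true (nat_lit 1) true (nat_lit 9) true (nat_lit 8) (.s true (nat_lit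 1) (nat_lit 17) (nat_lit 0) (nat_lit 2) (nat_lit 1) true (nat_lit 7) true (nat_lit 9) false (nat_lit 1) true (nat_lit 10) true (nat_lit 8) (.s false (nat_lit 1) (nat_lit 17) (nat_lit 1) (nat_lit 0) (nat_lit 2) true (nat_lit 4) true (nat_lit 8) false (nat_lit 1) true (nat_lit 9) true (nat_lit 10) (.s false (nat_lit 1) (nat_lit 17) (nat_lit 1) (nat_lit 2) (nat_lit 0) true (nat_lit 7) true (nat_lit 10) false (nat_lit 1) true (nat_lit 9) true (nat_lit 8) (.e false (nat_lit 576) (nat_lit 28) (nat_lit 6) (nat_lit 4) (.e false (nat_lit 1152) (nat_lit 26) (nat_lit 6) (nat_lit 4) (.e true (nat_lit 576) (nat_lit 27) (nat_lit 6) (nat_lit 4) (.e true (nat_lit 576) (nat_lit 30) (nat_lit 6) (nat_lit 4) (.e true (nat_lit 1152) (nat_lit 31) (nat_lit 6) (nat_lit 4) (.e true (nat_lit 288) (nat_lit 68) (nat_lit 0) (nat_lit 10) (.e false (nat_lit 1440) (nat_lit 69) (nat_lit 0) (nat_lit 10) (.e true (nat_lit 288) (nat_lit 70) (nat_lit 0)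 (nat_lit 10) (.e false (nat_lit 288) (nat_lit 71) (nat_lit 0) (nat_lit 10) (.e false (nat_lit 576) (nat_lit 56) (nat_lit 1) (nat_lit 9) (.e true (nat_lit 576) (nat_lit 60) (nat_lit 1) (nat_lit 9) (.e true (nat_lit 1152) (nat_lit 61) (nat_lit 1) (nat_lit 9) (.e false (nat_lit 576) (nat_lit 29) (nat_lit 6) (nat_lit 4) (.e false (nat_lit 576) (nat_lit 43) (nat_lit 2) (nat_lit 8) (.e false (nat_lit 576) (nat_lit 45) (nat_lit 2) (nat_lit 8) (.e true (nat_lit 576) (nat_lit 47) (nat_lit 2) (nat_lit 8) (.e true (nat_lit 576) (nat_lit 55) (nat_lit 2) (nat_lit 8) (.e true (nat_lit 576) (nat_lit 65) (nat_lit 1) (nat_lit 9) (.e false (nat_lit 576) (nat_lit 72) (nat_lit 0) (nat_lit 10) .nil)))))))))))))))))))))))))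

noncomputable def dP8_i4 : IL := (.s false (nat_lit 1) (nat_lit 11) (nat_lit 2) (nat_lit 2) (nat_lit 1) true (nat_lit 4) true (nat_lit 9) true (nat_lit 1) true (nat_lit 8) true (nat_lit 8) (.s false (nat_lit 1) (nat_lit 13) (nat_lit 2) (nat_lit 2) (nat_lit 0) true (nat_lit 5) true (nat_lit 10) true (nat_lit 0) true (nat_lit 8) true (nat_lit 8) (.s false (nat_lit 1) (nat_lit 17) (nat_lit 0) (nat_lit 2) (nat_lit 1) true (nat_lit 7) true (nat_lit 9) false (nat_lit 1) true (nat_lit 10) true (nat_lit 8) (.s true (nat_lit 1) (nat_lit 18) (nat_lit 1) (nat_lit 0) (nat_lit 2) true (nat_lit 4) true (nat_lit 8) false (nat_lit 1) true (nat_lit 9) true (nat_lit 10) (.s true (nat_lit 2) (nat_lit 17) (nat_lit 1) (nat_lit 2) (nat_lit 0) true (nat_lit 7) true (nat_lit 10) false (nat_lit 1) true (nat_lit 9) true (nat_lit 8) (.s false (nat_lit 1) (nat_lit 18) (nat_lit 2) (nat_lit 0) (nat_lit 1) true (nat_lit 4) true (nat_lit 9) false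 (nat_lit 1) true (nat_lit 8) true (nat_lit 10) (.e true (nat_lit 576) (nat_lit 28) (nat_lit 6) (nat_lit 4) (.e true (nat_lit 1728) (nat_lit 26) (nat_lit 6) (nat_lit 4) (.e false (nat_lit 576) (nat_lit 27) (nat_lit 6) (nat_lit 4) (.e false (nat_lit 576) (nat_lit 30) (nat_lit 6) (nat_lit 4) (.e false (nat_lit 576) (nat_lit 31) (nat_lit 6) (nat_lit 4) (.e true (nat_lit 1152) (nat_lit 69) (nat_lit 0) (nat_lit 10) (.e true (nat_lit 576) (nat_lit 44) (nat_lit 2) (nat_lit 8) (.e true (nat_lit 576) (nat_lit 45) (nat_lit 2) (nat_lit 8) (.e true (nat_lit 576) (nat_lit 46) (nat_lit 2) (nat_lit 8) (.e false (nat_lit 1152) (nat_lit 47) (nat_lit 2) (nat_lit 8) (.e true (nat_lit 576) (nat_lit 53) (nat_lit 2) (nat_lit 8) (.e false (nat_lit 576) (nat_lit 55) (nat_lit 2) (nat_lit 8) (.e false (nat_lit 576) (nat_lit 29) (nat_lit 6) (nat_lit 4) (.e true (nat_lit 576) (nat_lit 57) (nat_lit 1) (nat_lit 9) (.e false (nat_lit 576) (nat_lit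 58) (nat_lit 1) (nat_lit 9) (.e true (nat_lit 576) (nat_lit 60) (nat_lit 1) (nat_lit 9) (.e false (nat_lit 576) (nat_lit 65) (nat_lit 1) (nat_lit 9) (.e false (nat_lit 576) (nat_lit 67) (nat_lit 0) (nat_lit 10) (.e false (nat_lit 576) (nat_lit 52) (nat_lit 2) (nat_lit 8) .nil)))))))))))))))))))))))))

noncomputable def dP8_i5 : IL := (.e false (nat_lit 347136) (nat_lit 90) (nat_lit 2) (nat_lit 11) (.e true (nat_lit 2835456) (nat_lit 91) (nat_lit 2) (nat_lit 11) (.e false (nat_lit 506880) (nat_lit 92) (nat_lit 2) (nat_lit 11) (.e true (nat_lit 1996800) (nat_lit 93) (nat_lit 2) (nat_lit 11) (.e false (nat_lit 159744) (nat_lit 94) (nat_lit 2) (nat_lit 11) (.e true (nat_lit 1105920) (nat_lit 96) (nat_lit 2) (nat_lit 11) (.e true (nat_lit 1506816) (nat_lit 97) (nat_lit 2) (nat_lit 11) (.e false (nat_lit 3128832) (nat_lit 98) (nat_lit 2) (nat_lit 11) (.e true (nat_lit 1224192) (nat_lit 99) (nat_lit 2) (nat_lit 11) (.e false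 (nat_lit 502272) (nat_lit 100) (nat_lit 2) (nat_lit 11) (.e false (nat_lit 147456) (nat_lit 101) (nat_lit 2) (nat_lit 11) (.e true (nat_lit 433152) (nat_lit 102) (nat_lit 2) (nat_lit 11) (.e true (nat_lit 187392) (nat_lit 103) (nat_lit 2) (nat_lit 11) (.e false (nat_lit 267264) (nat_lit 104) (nat_lit 2) (nat_lit 11) (.e false (nat_lit 936960) (nat_lit 105) (nat_lit 2) (nat_lit 11) (.e true (nat_lit 678912) (nat_lit 106) (nat_lit 2) (nat_lit 11) (.e true (nat_lit 562176) (nat_lit 107) (nat_lit 2) (nat_lit 11) (.e true (nat_lit 184320) (nat_lit 108) (nat_lit 1) (nat_lit 12) (.e false (nat_lit 313344) (nat_lit 109) (nat_lit 1) (nat_lit 12) (.e false (nat_lit 184320) (nat_lit 112) (nat_lit 1) (nat_lit 12) (.e false (nat_lit 184320) (nat_lit 113) (nat_lit 1) (nat_lit 12) (.e false (nat_lit 64512) (nat_lit 121) (nat_lit 1) (nat_lit 12) (.e true (nat_lit 221184) (nat_lit 114) (nat_lit 1) (nat_lit 12) (.e false (nat_lit 221184)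 (nat_lit 116) (nat_lit 1) (nat_lit 12) (.e true (nat_lit 221184) (nat_lit 118) (nat_lit 1) (nat_lit 12) .nil)))))))))))))))))))))))))

noncomputable def dP8_i6 : IL := (.s false (nat_lit 116) (nat_lit 33) (nat_lit 0) (nat_lit 2) (nat_lit 2) true (nat_lit 8) true (nat_lit 11) false (nat_lit 2) true (nat_lit 13) true (nat_lit 11) (.s true (nat_lit 524) (nat_lit 34) (nat_lit 0) (nat_lit 2) (nat_lit 2) true (nat_lit 8) true (nat_lit 11) false (nat_lit 2) true (nat_lit 13) true (nat_lit 11) (.s true (nat_lit 816) (nat_lit 33) (nat_lit 2) (nat_lit 0) (nat_lit 2) true (nat_lit 6) true (nat_lit 11) false (nat_lit 2) true (nat_lit 11) true (nat_lit 13) (.s false (nat_lit 968) (nat_lit 34) (nat_lit 2) (nat_lit 0) (nat_lit 2) true (nat_lit 6) true (nat_lit 11) false (nat_lit 2) true (nat_lit 11) true (nat_lit 13) (.s false (nat_lit 176) (nat_lit 33) (nat_lit 2) (nat_lit 2) (nat_lit 0) true (nat_lit 8) true (nat_lit 13) false (nat_lit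 2) true (nat_lit 11) true (nat_lit 11) (.s true (nat_lit 328) (nat_lit 34) (nat_lit 2) (nat_lit 2) (nat_lit 0) true (nat_lit 8) true (nat_lit 13) false (nat_lit 2) true (nat_lit 11) true (nat_lit 11) (.s true (nat_lit 268) (nat_lit 36) (nat_lit 1) (nat_lit 2) (nat_lit 1) true (nat_lit 9) true (nat_lit 12) false (nat_lit 3) true (nat_lit 12) true (nat_lit 11) (.s true (nat_lit 152) (nat_lit 38) (nat_lit 0) (nat_lit 1) (nat_lit 2) true (nat_lit 8) true (nat_lit 11) false (nat_lit 4) true (nat_lit 13) true (nat_lit 12) (.s false (nat_lit 128) (nat_lit 40) (nat_lit 0) (nat_lit 1) (nat_lit 2) true (nat_lit 8) true (nat_lit 11) false (nat_lit 4) true (nat_lit 13) true (nat_lit 12) (.s false (nat_lit 320) (nat_lit 40) (nat_lit 0) (nat_lit 2) (nat_lit 1) true (nat_lit 10) true (nat_lit 12) false (nat_lit 4) true (nat_lit 13) true (nat_lit 11) (.s false (nat_lit 384) (nat_lit 39) (nat_lit 1) (nat_lit 0) (nat_lit 2) true (nat_lit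 7) true (nat_lit 11) false (nat_lit 4) true (nat_lit 12) true (nat_lit 13) (.s true (nat_lit 192) (nat_lit 40) (nat_lit 1) (nat_lit 0) (nat_lit 2) true (nat_lit 7) true (nat_lit 11) false (nat_lit 4) true (nat_lit 12) true (nat_lit 13) (.s true (nat_lit 192) (nat_lit 41) (nat_lit 1) (nat_lit 1) (nat_lit 0) true (nat_lit 10) true (nat_lit 13) false (nat_lit 5) true (nat_lit 12) true (nat_lit 12) (.e false (nat_lit 129024) (nat_lit 57) (nat_lit 6) (nat_lit 7) (.e true (nat_lit 129024) (nat_lit 48) (nat_lit 7) (nat_lit 6) (.e false (nat_lit 313344) (nat_lit 53) (nat_lit 7) (nat_lit 6) (.e true (nat_lit 313344) (nat_lit 54) (nat_lit 7) (nat_lit 6) (.e true (nat_lit 998400) (nat_lit 82) (nat_lit 2) (nat_lit 11) (.e false (nat_lit 2924544) (nat_lit 83) (nat_lit 2) (nat_lit 11) (.e false (nat_lit 3081216) (nat_lit 84) (nat_lit 2) (nat_lit 11) (.e false (nat_lit 1880064) (nat_lit 85) (nat_lit 2) (nat_lit 11) (.e true (nat_lit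 2402304) (nat_lit 86) (nat_lit 2) (nat_lit 11) (.e true (nat_lit 890880) (nat_lit 87) (nat_lit 2) (nat_lit 11) (.e true (nat_lit 344064) (nat_lit 88) (nat_lit 2) (nat_lit 11) (.e false (nat_lit 365568) (nat_lit 89) (nat_lit 2) (nat_lit 11) dP8_i5)))))))))))))))))))))))))

noncomputable def dP8_i7 : IL := (.s false (nat_lit 152) (nat_lit 17) (nat_lit 6) (nat_lit 0) (nat_lit 2) true (nat_lit 1) true (nat_lit 11) true (nat_lit 1) true (nat_lit 7) true (nat_lit 13) (.s true (nat_lit 116) (nat_lit 18) (nat_lit 7) (nat_lit 0) (nat_lit 1) true (nat_lit 1) true (nat_lit 12) true (nat_lit 1) true (nat_lit 6) true (nat_lit 13) (.s false (nat_lit 76) (nat_lit 19) (nat_lit 0) (nat_lit 4) (nat_lit 2) true (nat_lit 8) true (nat_lit 11) true (nat_lit 0) true (nat_lit 13) true (nat_lit 9) (.s true (nat_lit 192) (nat_lit 19) (nat_lit 0) (nat_lit 6) (nat_lit 1) true (nat_lit 10) true (nat_lit 12) true (nat_lit 0) true (nat_lit 13) true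 (nat_lit 7) (.s true (nat_lit 58) (nat_lit 19) (nat_lit 1) (nat_lit 1) (nat_lit 5) true (nat_lit 4) true (nat_lit 8) true (nat_lit 0) true (nat_lit 12) true (nat_lit 12) (.s false (nat_lit 70) (nat_lit 19) (nat_lit 1) (nat_lit 5) (nat_lit 1) true (nat_lit 9) true (nat_lit 12) true (nat_lit 0) true (nat_lit 12) true (nat_lit 8) (.s false (nat_lit 152) (nat_lit 19) (nat_lit 2) (nat_lit 3) (nat_lit 1) true (nat_lit 7) true (nat_lit 12) true (nat_lit 0) true (nat_lit 11) true (nat_lit 10) (.s true (nat_lit 70) (nat_lit 19) (nat_lit 5) (nat_lit 1) (nat_lit 1) true (nat_lit 4) true (nat_lit 12) true (nat_lit 0) true (nat_lit 8) true (nat_lit 12) (.s false (nat_lit 144) (nat_lit 22) (nat_lit 2) (nat_lit 2) (nat_lit 2) true (nat_lit 6) true (nat_lit 11) false (nat_lit 0) true (nat_lit 11) true (nat_lit 11) (.s true (nat_lit 116) (nat_lit 23) (nat_lit 2) (nat_lit 2) (nat_lit 2) true (nat_lit 6) true (nat_lit 11) false (nat_lit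 0) true (nat_lit 11) true (nat_lit 11) (.s true (nat_lit 308) (nat_lit 24) (nat_lit 2) (nat_lit 2) (nat_lit 2) true (nat_lit 6) true (nat_lit 11) false (nat_lit 0) true (nat_lit 11) true (nat_lit 11) (.s true (nat_lit 58) (nat_lit 25) (nat_lit 2) (nat_lit 2) (nat_lit 2) true (nat_lit 6) true (nat_lit 11) false (nat_lit 0) true (nat_lit 11) true (nat_lit 11) (.s true (nat_lit 40) (nat_lit 26) (nat_lit 1) (nat_lit 2) (nat_lit 2) true (nat_lit 7) true (nat_lit 11) false (nat_lit 1) true (nat_lit 12) true (nat_lit 11) (.s true (nat_lit 552) (nat_lit 27) (nat_lit 1) (nat_lit 2) (nat_lit 2) true (nat_lit 7) true (nat_lit 11) false (nat_lit 1) true (nat_lit 12) true (nat_lit 11) (.s true (nat_lit 232) (nat_lit 28) (nat_lit 1) (nat_lit 2) (nat_lit 2) true (nat_lit 7) true (nat_lit 11) false (nat_lit 1) true (nat_lit 12) true (nat_lit 11) (.s true (nat_lit 752) (nat_lit 30) (nat_lit 1) (nat_lit 2) (nat_lit 2) true (nat_lit 7)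 true (nat_lit 11) false (nat_lit 1) true (nat_lit 12) true (nat_lit 11) (.s true (nat_lit 240) (nat_lit 26) (nat_lit 2) (nat_lit 1) (nat_lit 2) true (nat_lit 6) true (nat_lit 11) false (nat_lit 1) true (nat_lit 11) true (nat_lit 12) (.s false (nat_lit 168) (nat_lit 27) (nat_lit 2) (nat_lit 1) (nat_lit 2) true (nat_lit 6) true (nat_lit 11) false (nat_lit 1) true (nat_lit 11) true (nat_lit 12) (.s true (nat_lit 48) (nat_lit 28) (nat_lit 2) (nat_lit 1) (nat_lit 2) true (nat_lit 6) true (nat_lit 11) false (nat_lit 1) true (nat_lit 11) true (nat_lit 12) (.s false (nat_lit 672) (nat_lit 30) (nat_lit 2) (nat_lit 1) (nat_lit 2) true (nat_lit 6) true (nat_lit 11) false (nat_lit 1) true (nat_lit 11) true (nat_lit 12) (.s true (nat_lit 272) (nat_lit 26) (nat_lit 2) (nat_lit 2) (nat_lit 1) true (nat_lit 7) true (nat_lit 12) false (nat_lit 1) true (nat_lit 11) true (nat_lit 11) (.s false (nat_lit 424) (nat_lit 27) (nat_lit 2) (nat_lit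 2) (nat_lit 1) true (nat_lit 7) true (nat_lit 12) false (nat_lit 1) true (nat_lit 11) true (nat_lit 11) (.s true (nat_lit 232) (nat_lit 28) (nat_lit 2) (nat_lit 2) (nat_lit 1) true (nat_lit 7) true (nat_lit 12) false (nat_lit 1) true (nat_lit 11) true (nat_lit 11) (.s false (nat_lit 588) (nat_lit 30) (nat_lit 2) (nat_lit 2) (nat_lit 1) true (nat_lit 7) true (nat_lit 12) false (nat_lit 1) true (nat_lit 11) true (nat_lit 11) (.s false (nat_lit 268) (nat_lit 32) (nat_lit 0) (nat_lit 2) (nat_lit 2) true (nat_lit 8) true (nat_lit 11) false (nat_lit 2) true (nat_lit 13) true (nat_lit 11) dP8_i6)))))))))))))))))))))))))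

noncomputable def dP8_i8 : IL := (.s false (nat_lit 64) (nat_lit 12) (nat_lit 6) (nat_lit 2) (nat_lit 2) true (nat_lit 1) true (nat_lit 11) true (nat_lit 4) true (nat_lit 7) true (nat_lit 11) (.s false (nat_lit 68) (nat_lit 10) (nat_lit 7) (nat_lit 2) (nat_lit 1) true (nat_lit 1) true (nat_lit 12) true (nat_lit 4) true (nat_lit 6) true (nat_lit 11) (.s true (nat_lit 192) (nat_lit 11) (nat_lit 7) (nat_lit 2) (nat_lit 1) true (nat_lit 1) true (nat_lit 12) true (nat_lit 4) true (nat_lit 6) true (nat_lit 11) (.s false (nat_lit 268) (nat_lit 13) (nat_lit 0) (nat_lit 2) (nat_lit 7) true (nat_lit 2) true (nat_lit 6) true (nat_lit 3) true (nat_lit 13) true (nat_lit 11) (.s true (nat_lit 268) (nat_lit 13) (nat_lit 2) (nat_lit 2) (nat_lit 5) true (nat_lit 2) true (nat_lit 8) true (nat_lit 3) true (nat_lit 11) true (nat_lit 11) (.s true (nat_lit 740) (nat_lit 13) (nat_lit 5) (nat_lit 2) (nat_lit 2) true (nat_lit 2) true (nat_lit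 11) true (nat_lit 3) true (nat_lit 8) true (nat_lit 11) (.s false (nat_lit 560) (nat_lit 14) (nat_lit 5) (nat_lit 2) (nat_lit 2) true (nat_lit 2) true (nat_lit 11) true (nat_lit 3) true (nat_lit 8) true (nat_lit 11) (.s true (nat_lit 149) (nat_lit 16) (nat_lit 1) (nat_lit 1) (nat_lit 7) true (nat_lit 1) true (nat_lit 6) true (nat_lit 2) true (nat_lit 12) true (nat_lit 12) (.s false (nat_lit 268) (nat_lit 16) (nat_lit 1) (nat_lit 2) (nat_lit 6) true (nat_lit 3) true (nat_lit 7) true (nat_lit 2) true (nat_lit 12) true (nat_lit 11) (.s false (nat_lit 152) (nat_lit 15) (nat_lit 1) (nat_lit 6) (nat_lit 2) true (nat_lit 7) true (nat_lit 11) true (nat_lit 2) true (nat_lit 12) true (nat_lit 7) (.s true (nat_lit 323) (nat_lit 16) (nat_lit 1) (nat_lit 7) (nat_lit 1) true (nat_lit 9) true (nat_lit 12) true (nat_lit 2) true (nat_lit 12) true (nat_lit 6) (.s false (nat_lit 152) (nat_lit 15) (nat_lit 2) (nat_lit 1) (nat_lit 6) true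 (nat_lit 1) true (nat_lit 7) true (nat_lit 2) true (nat_lit 11) true (nat_lit 12) (.s false (nat_lit 232) (nat_lit 16) (nat_lit 2) (nat_lit 1) (nat_lit 6) true (nat_lit 1) true (nat_lit 7) true (nat_lit 2) true (nat_lit 11) true (nat_lit 12) (.s false (nat_lit 344) (nat_lit 16) (nat_lit 2) (nat_lit 4) (nat_lit 2) true (nat_lit 6) true (nat_lit 11) true (nat_lit 2) true (nat_lit 11) true (nat_lit 9) (.s true (nat_lit 152) (nat_lit 15) (nat_lit 2) (nat_lit 6) (nat_lit 1) true (nat_lit 7) true (nat_lit 12) true (nat_lit 2) true (nat_lit 11) true (nat_lit 7) (.s false (nat_lit 740) (nat_lit 15) (nat_lit 4) (nat_lit 2) (nat_lit 2) true (nat_lit 3) true (nat_lit 11) true (nat_lit 2) true (nat_lit 9) true (nat_lit 11) (.s true (nat_lit 152) (nat_lit 15) (nat_lit 6) (nat_lit 1) (nat_lit 2) true (nat_lit 1) true (nat_lit 11) true (nat_lit 2) true (nat_lit 7) true (nat_lit 12) (.s true (nat_lit 560) (nat_lit 15) (nat_lit 6) (nat_lit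 2) (nat_lit 1) true (nat_lit 3) true (nat_lit 12) true (nat_lit 2) true (nat_lit 7) true (nat_lit 11) (.s true (nat_lit 207) (nat_lit 16) (nat_lit 7) (nat_lit 1) (nat_lit 1) true (nat_lit 1) true (nat_lit 12) true (nat_lit 2) true (nat_lit 6) true (nat_lit 12) (.s true (nat_lit 192) (nat_lit 18) (nat_lit 0) (nat_lit 1) (nat_lit 7) true (nat_lit 2) true (nat_lit 6) true (nat_lit 1) true (nat_lit 13) true (nat_lit 12) (.s true (nat_lit 64) (nat_lit 17) (nat_lit 0) (nat_lit 2) (nat_lit 6) true (nat_lit 4) true (nat_lit 7) true (nat_lit 1) true (nat_lit 13) true (nat_lit 11) (.s true (nat_lit 64) (nat_lit 17) (nat_lit 0) (nat_lit 6) (nat_lit 2) true (nat_lit 8) true (nat_lit 11) true (nat_lit 1) true (nat_lit 13) true (nat_lit 7) (.s false (nat_lit 712) (nat_lit 17) (nat_lit 2) (nat_lit 1) (nat_lit 5) true (nat_lit 2) true (nat_lit 8) true (nat_lit 1) true (nat_lit 11) true (nat_lit 12) (.s true (nat_lit 4) (nat_lit 18)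 (nat_lit 2) (nat_lit 2) (nat_lit 3) true (nat_lit 4) true (nat_lit 10) true (nat_lit 1) true (nat_lit 11) true (nat_lit 11) (.s true (nat_lit 28) (nat_lit 18) (nat_lit 2) (nat_lit 3) (nat_lit 2) true (nat_lit 6) true (nat_lit 11) true (nat_lit 1) true (nat_lit 11) true (nat_lit 10) dP8_i7)))))))))))))))))))))))))

noncomputable def dP8_i9 : IL := (.e false (nat_lit 4608) (nat_lit 92) (nat_lit 2) (nat_lit 11) (.e true (nat_lit 58368) (nat_lit 93) (nat_lit 2) (nat_lit 11) (.e false (nat_lit 29184) (nat_lit 94) (nat_lit 2) (nat_lit 11) (.e true (nat_lit 18432) (nat_lit 96) (nat_lit 2) (nat_lit 11) (.e true (nat_lit 34560) (nat_lit 97) (nat_lit 2) (nat_lit 11) (.e false (nat_lit 16128) (nat_lit 98) (nat_lit 2) (nat_lit 11) (.e true (nat_lit 22272) (nat_lit 99) (nat_lit 2) (nat_lit 11) (.e false (nat_lit 11520) (nat_lit 100) (nat_lit 2) (nat_lit 11) (.e false (nat_lit 13824) (nat_lit 101) (nat_lit 2) (nat_lit 11) (.e false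 (nat_lit 18432) (nat_lit 102) (nat_lit 2) (nat_lit 11) (.e false (nat_lit 23808) (nat_lit 103) (nat_lit 2) (nat_lit 11) (.e false (nat_lit 50688) (nat_lit 104) (nat_lit 2) (nat_lit 11) (.e false (nat_lit 35328) (nat_lit 105) (nat_lit 2) (nat_lit 11) (.e true (nat_lit 26112) (nat_lit 106) (nat_lit 2) (nat_lit 11) (.e true (nat_lit 23040) (nat_lit 107) (nat_lit 2) (nat_lit 11) (.e false (nat_lit 4608) (nat_lit 57) (nat_lit 6) (nat_lit 7) (.e false (nat_lit 36864) (nat_lit 108) (nat_lit 1) (nat_lit 12) (.e true (nat_lit 32256) (nat_lit 109) (nat_lit 1) (nat_lit 12) (.e true (nat_lit 46080) (nat_lit 112) (nat_lit 1) (nat_lit 12) (.e true (nat_lit 36864) (nat_lit 113) (nat_lit 1) (nat_lit 12) (.e false (nat_lit 13824) (nat_lit 119) (nat_lit 1) (nat_lit 12) (.e false (nat_lit 6912) (nat_lit 121) (nat_lit 1) (nat_lit 12) (.e false (nat_lit 13824) (nat_lit 114) (nat_lit 1) (nat_lit 12) (.e true (nat_lit 13824) (nat_lit 116)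 (nat_lit 1) (nat_lit 12) (.e false (nat_lit 13824) (nat_lit 118) (nat_lit 1) (nat_lit 12) .nil)))))))))))))))))))))))))

noncomputable def dP8_i10 : IL := (.s false (nat_lit 4) (nat_lit 28) (nat_lit 2) (nat_lit 2) (nat_lit 1) true (nat_lit 7) true (nat_lit 12) false (nat_lit 1) true (nat_lit 11) true (nat_lit 11) (.s true (nat_lit 2) (nat_lit 30) (nat_lit 2) (nat_lit 2) (nat_lit 1) true (nat_lit 7) true (nat_lit 12) false (nat_lit 1) true (nat_lit 11) true (nat_lit 11) (.s true (nat_lit 20) (nat_lit 32) (nat_lit 0) (nat_lit 2) (nat_lit 2) true (nat_lit 8) true (nat_lit 11) false (nat_lit 2) true (nat_lit 13) true (nat_lit 11) (.s false (nat_lit 20) (nat_lit 34) (nat_lit 0) (nat_lit 2) (nat_lit 2) true (nat_lit 8) true (nat_lit 11) false (nat_lit 2) true (nat_lit 13) true (nat_lit 11) (.s true (nat_lit 8) (nat_lit 33) (nat_lit 2) (nat_lit 0) (nat_lit 2) true (nat_lit 6) true (nat_lit 11) false (nat_lit 2) true (nat_lit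 11) true (nat_lit 13) (.s false (nat_lit 28) (nat_lit 34) (nat_lit 2) (nat_lit 0) (nat_lit 2) true (nat_lit 6) true (nat_lit 11) false (nat_lit 2) true (nat_lit 11) true (nat_lit 13) (.s false (nat_lit 16) (nat_lit 33) (nat_lit 2) (nat_lit 2) (nat_lit 0) true (nat_lit 8) true (nat_lit 13) false (nat_lit 2) true (nat_lit 11) true (nat_lit 11) (.s true (nat_lit 36) (nat_lit 34) (nat_lit 2) (nat_lit 2) (nat_lit 0) true (nat_lit 8) true (nat_lit 13) false (nat_lit 2) true (nat_lit 11) true (nat_lit 11) (.s false (nat_lit 4) (nat_lit 36) (nat_lit 1) (nat_lit 2) (nat_lit 1) true (nat_lit 9) true (nat_lit 12) false (nat_lit 3) true (nat_lit 12) true (nat_lit 11) (.s true (nat_lit 8) (nat_lit 40) (nat_lit 0) (nat_lit 2) (nat_lit 1) true (nat_lit 10) true (nat_lit 12) false (nat_lit 4) true (nat_lit 13) true (nat_lit 11) (.s true (nat_lit 16) (nat_lit 39) (nat_lit 1) (nat_lit 0) (nat_lit 2) true (nat_lit 7) true (nat_lit 11)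 false (nat_lit 4) true (nat_lit 12) true (nat_lit 13) (.s false (nat_lit 16) (nat_lit 40) (nat_lit 1) (nat_lit 0) (nat_lit 2) true (nat_lit 7) true (nat_lit 11) false (nat_lit 4) true (nat_lit 12) true (nat_lit 13) (.e true (nat_lit 4608) (nat_lit 48) (nat_lit 7) (nat_lit 6) (.e false (nat_lit 11520) (nat_lit 53) (nat_lit 7) (nat_lit 6) (.e true (nat_lit 11520) (nat_lit 54) (nat_lit 7) (nat_lit 6) (.e false (nat_lit 44544) (nat_lit 82) (nat_lit 2) (nat_lit 11) (.e false (nat_lit 24576) (nat_lit 83) (nat_lit 2) (nat_lit 11) (.e true (nat_lit 7680) (nat_lit 84) (nat_lit 2) (nat_lit 11) (.e true (nat_lit 13824) (nat_lit 85) (nat_lit 2) (nat_lit 11) (.e true (nat_lit 76800) (nat_lit 86) (nat_lit 2) (nat_lit 11) (.e true (nat_lit 16896) (nat_lit 87) (nat_lit 2) (nat_lit 11) (.e true (nat_lit 70656) (nat_lit 88) (nat_lit 2) (nat_lit 11) (.e false (nat_lit 7680) (nat_lit 89) (nat_lit 2) (nat_lit 11) (.e false (nat_lit 3072)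 (nat_lit 90) (nat_lit 2) (nat_lit 11) (.e true (nat_lit 58368) (nat_lit 91) (nat_lit 2) (nat_lit 11) dP8_i9)))))))))))))))))))))))))

noncomputable def dP8_i11 : IL := (.s true (nat_lit 4) (nat_lit 16) (nat_lit 1) (nat_lit 2) (nat_lit 6) true (nat_lit 3) true (nat_lit 7) true (nat_lit 2) true (nat_lit 12) true (nat_lit 11) (.s false (nat_lit 14) (nat_lit 16) (nat_lit 1) (nat_lit 7) (nat_lit 1) true (nat_lit 9) true (nat_lit 12) true (nat_lit 2) true (nat_lit 12) true (nat_lit 6) (.s true (nat_lit 16) (nat_lit 16) (nat_lit 2) (nat_lit 1) (nat_lit 6) true (nat_lit 1) true (nat_lit 7) true (nat_lit 2) true (nat_lit 11) true (nat_lit 12) (.s false (nat_lit 4) (nat_lit 16) (nat_lit 2) (nat_lit 4) (nat_lit 2) true (nat_lit 6) true (nat_lit 11) true (nat_lit 2) true (nat_lit 11) true (nat_lit 9) (.s false (nat_lit 12) (nat_lit 15) (nat_lit 4) (nat_lit 2) (nat_lit 2) true (nat_lit 3) true (nat_lit 11) true (nat_lit 2) true (nat_lit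 9) true (nat_lit 11) (.s true (nat_lit 4) (nat_lit 16) (nat_lit 7) (nat_lit 1) (nat_lit 1) true (nat_lit 1) true (nat_lit 12) true (nat_lit 2) true (nat_lit 6) true (nat_lit 12) (.s false (nat_lit 8) (nat_lit 18) (nat_lit 0) (nat_lit 1) (nat_lit 7) true (nat_lit 2) true (nat_lit 6) true (nat_lit 1) true (nat_lit 13) true (nat_lit 12) (.s false (nat_lit 52) (nat_lit 18) (nat_lit 2) (nat_lit 2) (nat_lit 3) true (nat_lit 4) true (nat_lit 10) true (nat_lit 1) true (nat_lit 11) true (nat_lit 11) (.s false (nat_lit 44) (nat_lit 18) (nat_lit 2) (nat_lit 3) (nat_lit 2) true (nat_lit 6) true (nat_lit 11) true (nat_lit 1) true (nat_lit 11) true (nat_lit 10) (.s false (nat_lit 2) (nat_lit 18) (nat_lit 7) (nat_lit 0) (nat_lit 1) true (nat_lit 1) true (nat_lit 12) true (nat_lit 1) true (nat_lit 6) true (nat_lit 13) (.s false (nat_lit 8) (nat_lit 19) (nat_lit 0) (nat_lit 4) (nat_lit 2) true (nat_lit 8) true (nat_lit 11) true (nat_lit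 0) true (nat_lit 13) true (nat_lit 9) (.s true (nat_lit 36) (nat_lit 22) (nat_lit 2) (nat_lit 2) (nat_lit 2) true (nat_lit 6) true (nat_lit 11) false (nat_lit 0) true (nat_lit 11) true (nat_lit 11) (.s false (nat_lit 32) (nat_lit 23) (nat_lit 2) (nat_lit 2) (nat_lit 2) true (nat_lit 6) true (nat_lit 11) false (nat_lit 0) true (nat_lit 11) true (nat_lit 11) (.s false (nat_lit 32) (nat_lit 24) (nat_lit 2) (nat_lit 2) (nat_lit 2) true (nat_lit 6) true (nat_lit 11) false (nat_lit 0) true (nat_lit 11) true (nat_lit 11) (.s false (nat_lit 46) (nat_lit 25) (nat_lit 2) (nat_lit 2) (nat_lit 2) true (nat_lit 6) true (nat_lit 11) false (nat_lit 0) true (nat_lit 11) true (nat_lit 11) (.s false (nat_lit 4) (nat_lit 26) (nat_lit 1) (nat_lit 2) (nat_lit 2) true (nat_lit 7) true (nat_lit 11) false (nat_lit 1) true (nat_lit 12) true (nat_lit 11) (.s false (nat_lit 4) (nat_lit 27) (nat_lit 1) (nat_lit 2) (nat_lit 2) true (nat_lit 7) true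 (nat_lit 11) false (nat_lit 1) true (nat_lit 12) true (nat_lit 11) (.s false (nat_lit 28) (nat_lit 28) (nat_lit 1) (nat_lit 2) (nat_lit 2) true (nat_lit 7) true (nat_lit 11) false (nat_lit 1) true (nat_lit 12) true (nat_lit 11) (.s true (nat_lit 10) (nat_lit 30) (nat_lit 1) (nat_lit 2) (nat_lit 2) true (nat_lit 7) true (nat_lit 11) false (nat_lit 1) true (nat_lit 12) true (nat_lit 11) (.s true (nat_lit 20) (nat_lit 26) (nat_lit 2) (nat_lit 1) (nat_lit 2) true (nat_lit 6) true (nat_lit 11) false (nat_lit 1) true (nat_lit 11) true (nat_lit 12) (.s false (nat_lit 12) (nat_lit 27) (nat_lit 2) (nat_lit 1) (nat_lit 2) true (nat_lit 6) true (nat_lit 11) false (nat_lit 1) true (nat_lit 11) true (nat_lit 12) (.s true (nat_lit 28) (nat_lit 28) (nat_lit 2) (nat_lit 1) (nat_lit 2) true (nat_lit 6) true (nat_lit 11) false (nat_lit 1) true (nat_lit 11) true (nat_lit 12) (.s false (nat_lit 26) (nat_lit 30) (nat_lit 2) (nat_lit 1) (nat_lit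 2) true (nat_lit 6) true (nat_lit 11) false (nat_lit 1) true (nat_lit 11) true (nat_lit 12) (.s false (nat_lit 12) (nat_lit 26) (nat_lit 2) (nat_lit 2) (nat_lit 1) true (nat_lit 7) true (nat_lit 12) false (nat_lit 1) true (nat_lit 11) true (nat_lit 11) (.s true (nat_lit 12) (nat_lit 27) (nat_lit 2) (nat_lit 2) (nat_lit 1) true (nat_lit 7) true (nat_lit 12) false (nat_lit 1) true (nat_lit 11) true (nat_lit 11) dP8_i10)))))))))))))))))))))))))

noncomputable def dP8_i12 : IL := (.e true (nat_lit 251904) (nat_lit 86) (nat_lit 2) (nat_lit 11) (.e true (nat_lit 67584) (nat_lit 87) (nat_lit 2) (nat_lit 11) (.e false (nat_lit 49152) (nat_lit 88) (nat_lit 2) (nat_lit 11) (.e true (nat_lit 33792) (nat_lit 89) (nat_lit 2) (nat_lit 11) (.e false (nat_lit 58368) (nat_lit 90) (nat_lit 2) (nat_lit 11) (.e true (nat_lit 224256) (nat_lit 91) (nat_lit 2) (nat_lit 11) (.e false (nat_lit 46080) (nat_lit 92) (nat_lit 2) (nat_lit 11) (.e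 true (nat_lit 141312) (nat_lit 93) (nat_lit 2) (nat_lit 11) (.e true (nat_lit 12288) (nat_lit 94) (nat_lit 2) (nat_lit 11) (.e true (nat_lit 73728) (nat_lit 96) (nat_lit 2) (nat_lit 11) (.e true (nat_lit 96768) (nat_lit 97) (nat_lit 2) (nat_lit 11) (.e false (nat_lit 244224) (nat_lit 98) (nat_lit 2) (nat_lit 11) (.e true (nat_lit 84480) (nat_lit 99) (nat_lit 2) (nat_lit 11) (.e false (nat_lit 32256) (nat_lit 100) (nat_lit 2) (nat_lit 11) (.e true (nat_lit 46080) (nat_lit 102) (nat_lit 2) (nat_lit 11) (.e true (nat_lit 33792) (nat_lit 103) (nat_lit 2) (nat_lit 11) (.e false (nat_lit 138240) (nat_lit 104) (nat_lit 2) (nat_lit 11) (.e false (nat_lit 58368) (nat_lit 105) (nat_lit 2) (nat_lit 11) (.e true (nat_lit 21504) (nat_lit 106) (nat_lit 2) (nat_lit 11) (.e true (nat_lit 64512) (nat_lit 107) (nat_lit 2) (nat_lit 11) (.e false (nat_lit 9216) (nat_lit 121) (nat_lit 1) (nat_lit 12) (.e false (nat_lit 36864) (nat_lit 108)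 (nat_lit 1) (nat_lit 12) (.e true (nat_lit 18432) (nat_lit 109) (nat_lit 1) (nat_lit 12) (.e true (nat_lit 36864) (nat_lit 112) (nat_lit 1) (nat_lit 12) (.e true (nat_lit 36864) (nat_lit 113) (nat_lit 1) (nat_lit 12) .nil)))))))))))))))))))))))))

noncomputable def dP8_i13 : IL := (.s true (nat_lit 16) (nat_lit 26) (nat_lit 2) (nat_lit 1) (nat_lit 2) true (nat_lit 6) true (nat_lit 11) false (nat_lit 1) true (nat_lit 11) true (nat_lit 12) (.s true (nat_lit 8) (nat_lit 27) (nat_lit 2) (nat_lit 1) (nat_lit 2) true (nat_lit 6) true (nat_lit 11) false (nat_lit 1) true (nat_lit 11) true (nat_lit 12) (.s true (nat_lit 16) (nat_lit 28) (nat_lit 2) (nat_lit 1) (nat_lit 2) true (nat_lit 6) true (nat_lit 11) false (nat_lit 1) true (nat_lit 11) true (nat_lit 12) (.s false (nat_lit 32) (nat_lit 30) (nat_lit 2) (nat_lit 1) (nat_lit 2) true (nat_lit 6) true (nat_lit 11) false (nat_lit 1) true (nat_lit 11) true (nat_lit 12) (.s false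 (nat_lit 16) (nat_lit 26) (nat_lit 2) (nat_lit 2) (nat_lit 1) true (nat_lit 7) true (nat_lit 12) false (nat_lit 1) true (nat_lit 11) true (nat_lit 11) (.s true (nat_lit 8) (nat_lit 27) (nat_lit 2) (nat_lit 2) (nat_lit 1) true (nat_lit 7) true (nat_lit 12) false (nat_lit 1) true (nat_lit 11) true (nat_lit 11) (.s false (nat_lit 8) (nat_lit 28) (nat_lit 2) (nat_lit 2) (nat_lit 1) true (nat_lit 7) true (nat_lit 12) false (nat_lit 1) true (nat_lit 11) true (nat_lit 11) (.s false (nat_lit 4) (nat_lit 30) (nat_lit 2) (nat_lit 2) (nat_lit 1) true (nat_lit 7) true (nat_lit 12) false (nat_lit 1) true (nat_lit 11) true (nat_lit 11) (.s false (nat_lit 4) (nat_lit 32) (nat_lit 0) (nat_lit 2) (nat_lit 2) true (nat_lit 8) true (nat_lit 11) false (nat_lit 2) true (nat_lit 13) true (nat_lit 11) (.s true (nat_lit 4) (nat_lit 33) (nat_lit 0) (nat_lit 2) (nat_lit 2) true (nat_lit 8) true (nat_lit 11) false (nat_lit 2) true (nat_lit 13)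 true (nat_lit 11) (.s true (nat_lit 4) (nat_lit 34) (nat_lit 0) (nat_lit 2) (nat_lit 2) true (nat_lit 8) true (nat_lit 11) false (nat_lit 2) true (nat_lit 13) true (nat_lit 11) (.s true (nat_lit 16) (nat_lit 33) (nat_lit 2) (nat_lit 0) (nat_lit 2) true (nat_lit 6) true (nat_lit 11) false (nat_lit 2) true (nat_lit 11) true (nat_lit 13) (.s false (nat_lit 24) (nat_lit 34) (nat_lit 2) (nat_lit 0) (nat_lit 2) true (nat_lit 6) true (nat_lit 11) false (nat_lit 2) true (nat_lit 11) true (nat_lit 13) (.s false (nat_lit 16) (nat_lit 33) (nat_lit 2) (nat_lit 2) (nat_lit 0) true (nat_lit 8) true (nat_lit 13) false (nat_lit 2) true (nat_lit 11) true (nat_lit 11) (.s true (nat_lit 24) (nat_lit 34) (nat_lit 2) (nat_lit 2) (nat_lit 0) true (nat_lit 8) true (nat_lit 13) false (nat_lit 2) true (nat_lit 11) true (nat_lit 11) (.s true (nat_lit 4) (nat_lit 36) (nat_lit 1) (nat_lit 2) (nat_lit 1) true (nat_lit 9) true (nat_lit 12) false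 (nat_lit 3) true (nat_lit 12) true (nat_lit 11) (.s true (nat_lit 8) (nat_lit 38) (nat_lit 0) (nat_lit 1) (nat_lit 2) true (nat_lit 8) true (nat_lit 11) false (nat_lit 4) true (nat_lit 13) true (nat_lit 12) (.e false (nat_lit 18432) (nat_lit 57) (nat_lit 6) (nat_lit 7) (.e true (nat_lit 18432) (nat_lit 48) (nat_lit 7) (nat_lit 6) (.e false (nat_lit 18432) (nat_lit 53) (nat_lit 7) (nat_lit 6) (.e true (nat_lit 18432) (nat_lit 54) (nat_lit 7) (nat_lit 6) (.e true (nat_lit 70656) (nat_lit 82) (nat_lit 2) (nat_lit 11) (.e false (nat_lit 245760) (nat_lit 83) (nat_lit 2) (nat_lit 11) (.e false (nat_lit 273408) (nat_lit 84) (nat_lit 2) (nat_lit 11) (.e false (nat_lit 184320) (nat_lit 85) (nat_lit 2) (nat_lit 11) dP8_i12)))))))))))))))))))))))))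

noncomputable def dP8_i14 : IL := (.s true (nat_lit 8) (nat_lit 16) (nat_lit 2) (nat_lit 1) (nat_lit 6) true (nat_lit 1) true (nat_lit 7) true (nat_lit 2) true (nat_lit 11) true (nat_lit 12) (.s false (nat_lit 8) (nat_lit 16) (nat_lit 2) (nat_lit 4) (nat_lit 2) true (nat_lit 6) true (nat_lit 11) true (nat_lit 2) true (nat_lit 11) true (nat_lit 9) (.s true (nat_lit 8) (nat_lit 15) (nat_lit 2) (nat_lit 6) (nat_lit 1) true (nat_lit 7) true (nat_lit 12) true (nat_lit 2) true (nat_lit 11) true (nat_lit 7) (.s false (nat_lit 12) (nat_lit 15) (nat_lit 4) (nat_lit 2) (nat_lit 2) true (nat_lit 3) true (nat_lit 11) true (nat_lit 2) true (nat_lit 9) true (nat_lit 11) (.s true (nat_lit 8) (nat_lit 15) (nat_lit 6) (nat_lit 1) (nat_lit 2) true (nat_lit 1) true (nat_lit 11) true (nat_lit 2) true (nat_lit 7) true (nat_lit 12) (.s true (nat_lit 16) (nat_lit 15) (nat_lit 6) (nat_lit 2) (nat_lit 1) true (nat_lit 3) true (nat_lit 12) true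 (nat_lit 2) true (nat_lit 7) true (nat_lit 11) (.s true (nat_lit 5) (nat_lit 16) (nat_lit 7) (nat_lit 1) (nat_lit 1) true (nat_lit 1) true (nat_lit 12) true (nat_lit 2) true (nat_lit 6) true (nat_lit 12) (.s false (nat_lit 24) (nat_lit 17) (nat_lit 2) (nat_lit 1) (nat_lit 5) true (nat_lit 2) true (nat_lit 8) true (nat_lit 1) true (nat_lit 11) true (nat_lit 12) (.s false (nat_lit 20) (nat_lit 18) (nat_lit 2) (nat_lit 2) (nat_lit 3) true (nat_lit 4) true (nat_lit 10) true (nat_lit 1) true (nat_lit 11) true (nat_lit 11) (.s false (nat_lit 12) (nat_lit 18) (nat_lit 2) (nat_lit 3) (nat_lit 2) true (nat_lit 6) true (nat_lit 11) true (nat_lit 1) true (nat_lit 11) true (nat_lit 10) (.s false (nat_lit 8) (nat_lit 17) (nat_lit 6) (nat_lit 0) (nat_lit 2) true (nat_lit 1) true (nat_lit 11) true (nat_lit 1) true (nat_lit 7) true (nat_lit 13) (.s false (nat_lit 4) (nat_lit 18) (nat_lit 7) (nat_lit 0) (nat_lit 1) true (nat_lit 1) true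 (nat_lit 12) true (nat_lit 1) true (nat_lit 6) true (nat_lit 13) (.s false (nat_lit 4) (nat_lit 19) (nat_lit 0) (nat_lit 4) (nat_lit 2) true (nat_lit 8) true (nat_lit 11) true (nat_lit 0) true (nat_lit 13) true (nat_lit 9) (.s false (nat_lit 2) (nat_lit 19) (nat_lit 1) (nat_lit 1) (nat_lit 5) true (nat_lit 4) true (nat_lit 8) true (nat_lit 0) true (nat_lit 12) true (nat_lit 12) (.s false (nat_lit 2) (nat_lit 19) (nat_lit 1) (nat_lit 5) (nat_lit 1) true (nat_lit 9) true (nat_lit 12) true (nat_lit 0) true (nat_lit 12) true (nat_lit 8) (.s false (nat_lit 8) (nat_lit 19) (nat_lit 2) (nat_lit 3) (nat_lit 1) true (nat_lit 7) true (nat_lit 12) true (nat_lit 0) true (nat_lit 11) true (nat_lit 10) (.s true (nat_lit 2) (nat_lit 19) (nat_lit 5) (nat_lit 1) (nat_lit 1) true (nat_lit 4) true (nat_lit 12) true (nat_lit 0) true (nat_lit 8) true (nat_lit 12) (.s true (nat_lit 16) (nat_lit 22) (nat_lit 2) (nat_lit 2) (nat_lit 2) true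 (nat_lit 6) true (nat_lit 11) false (nat_lit 0) true (nat_lit 11) true (nat_lit 11) (.s false (nat_lit 4) (nat_lit 23) (nat_lit 2) (nat_lit 2) (nat_lit 2) true (nat_lit 6) true (nat_lit 11) false (nat_lit 0) true (nat_lit 11) true (nat_lit 11) (.s false (nat_lit 4) (nat_lit 24) (nat_lit 2) (nat_lit 2) (nat_lit 2) true (nat_lit 6) true (nat_lit 11) false (nat_lit 0) true (nat_lit 11) true (nat_lit 11) (.s false (nat_lit 2) (nat_lit 25) (nat_lit 2) (nat_lit 2) (nat_lit 2) true (nat_lit 6) true (nat_lit 11) false (nat_lit 0) true (nat_lit 11) true (nat_lit 11) (.s false (nat_lit 8) (nat_lit 26) (nat_lit 1) (nat_lit 2) (nat_lit 2) true (nat_lit 7) true (nat_lit 11) false (nat_lit 1) true (nat_lit 12) true (nat_lit 11) (.s false (nat_lit 8) (nat_lit 27) (nat_lit 1) (nat_lit 2) (nat_lit 2) true (nat_lit 7) true (nat_lit 11) false (nat_lit 1) true (nat_lit 12) true (nat_lit 11) (.s false (nat_lit 8) (nat_lit 28) (nat_lit 1)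 (nat_lit 2) (nat_lit 2) true (nat_lit 7) true (nat_lit 11) false (nat_lit 1) true (nat_lit 12) true (nat_lit 11) (.s true (nat_lit 16) (nat_lit 30) (nat_lit 1) (nat_lit 2) (nat_lit 2) true (nat_lit 7) true (nat_lit 11) false (nat_lit 1) true (nat_lit 12) true (nat_lit 11) dP8_i13)))))))))))))))))))))))))

noncomputable def dP8_i15 : IL := (.e true (nat_lit 6144) (nat_lit 90) (nat_lit 2) (nat_lit 11) (.e true (nat_lit 62976) (nat_lit 91) (nat_lit 2) (nat_lit 11) (.e false (nat_lit 4608) (nat_lit 92) (nat_lit 2) (nat_lit 11) (.e true (nat_lit 67584) (nat_lit 93) (nat_lit 2) (nat_lit 11) (.e false (nat_lit 24576) (nat_lit 94) (nat_lit 2) (nat_lit 11) (.e false (nat_lit 18432) (nat_lit 95) (nat_lit 2) (nat_lit 11) (.e true (nat_lit 23040) (nat_lit 96) (nat_lit 2) (nat_lit 11) (.e true (nat_lit 48384) (nat_lit 97) (nat_lit 2) (nat_lit 11) (.e false (nat_lit 57600) (nat_lit 98) (nat_lit 2) (nat_lit 11) (.e true (nat_lit 31488)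 (nat_lit 99) (nat_lit 2) (nat_lit 11) (.e false (nat_lit 20736) (nat_lit 100) (nat_lit 2) (nat_lit 11) (.e false (nat_lit 23040) (nat_lit 101) (nat_lit 2) (nat_lit 11) (.e false (nat_lit 13824) (nat_lit 102) (nat_lit 2) (nat_lit 11) (.e false (nat_lit 21504) (nat_lit 103) (nat_lit 2) (nat_lit 11) (.e true (nat_lit 9216) (nat_lit 104) (nat_lit 2) (nat_lit 11) (.e false (nat_lit 16896) (nat_lit 105) (nat_lit 2) (nat_lit 11) (.e true (nat_lit 16896) (nat_lit 106) (nat_lit 2) (nat_lit 11) (.e true (nat_lit 13824) (nat_lit 107) (nat_lit 2) (nat_lit 11) (.e false (nat_lit 13824) (nat_lit 121) (nat_lit 1) (nat_lit 12) (.e false (nat_lit 27648) (nat_lit 108) (nat_lit 1) (nat_lit 12) (.e true (nat_lit 27648) (nat_lit 109) (nat_lit 1) (nat_lit 12) (.e true (nat_lit 27648) (nat_lit 112) (nat_lit 1) (nat_lit 12) (.e true (nat_lit 27648) (nat_lit 113) (nat_lit 1) (nat_lit 12) (.e false (nat_lit 13824) (nat_lit 114) (nat_lit 1) (nat_lit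 12) (.e true (nat_lit 13824) (nat_lit 116) (nat_lit 1) (nat_lit 12) .nil)))))))))))))))))))))))))

noncomputable def dP8_i16 : IL := (.s true (nat_lit 20) (nat_lit 28) (nat_lit 2) (nat_lit 1) (nat_lit 2) true (nat_lit 6) true (nat_lit 11) false (nat_lit 1) true (nat_lit 11) true (nat_lit 12) (.s false (nat_lit 22) (nat_lit 30) (nat_lit 2) (nat_lit 1) (nat_lit 2) true (nat_lit 6) true (nat_lit 11) false (nat_lit 1) true (nat_lit 11) true (nat_lit 12) (.s true (nat_lit 12) (nat_lit 26) (nat_lit 2) (nat_lit 2) (nat_lit 1) true (nat_lit 7) true (nat_lit 12) false (nat_lit 1) true (nat_lit 11) true (nat_lit 11) (.s false (nat_lit 12) (nat_lit 27) (nat_lit 2) (nat_lit 2) (nat_lit 1) true (nat_lit 7) true (nat_lit 12) false (nat_lit 1) true (nat_lit 11) true (nat_lit 11) (.s true (nat_lit 12) (nat_lit 28) (nat_lit 2) (nat_lit 2) (nat_lit 1) true (nat_lit 7) true (nat_lit 12) false (nat_lit 1) true (nat_lit 11) true (nat_lit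 11) (.s false (nat_lit 14) (nat_lit 30) (nat_lit 2) (nat_lit 2) (nat_lit 1) true (nat_lit 7) true (nat_lit 12) false (nat_lit 1) true (nat_lit 11) true (nat_lit 11) (.s true (nat_lit 24) (nat_lit 32) (nat_lit 0) (nat_lit 2) (nat_lit 2) true (nat_lit 8) true (nat_lit 11) false (nat_lit 2) true (nat_lit 13) true (nat_lit 11) (.s false (nat_lit 6) (nat_lit 33) (nat_lit 0) (nat_lit 2) (nat_lit 2) true (nat_lit 8) true (nat_lit 11) false (nat_lit 2) true (nat_lit 13) true (nat_lit 11) (.s false (nat_lit 14) (nat_lit 34) (nat_lit 0) (nat_lit 2) (nat_lit 2) true (nat_lit 8) true (nat_lit 11) false (nat_lit 2) true (nat_lit 13) true (nat_lit 11) (.s true (nat_lit 2) (nat_lit 33) (nat_lit 2) (nat_lit 0) (nat_lit 2) true (nat_lit 6) true (nat_lit 11) false (nat_lit 2) true (nat_lit 11) true (nat_lit 13) (.s false (nat_lit 38) (nat_lit 34) (nat_lit 2) (nat_lit 0) (nat_lit 2) true (nat_lit 6) true (nat_lit 11) false (nat_lit 2)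 true (nat_lit 11) true (nat_lit 13) (.s false (nat_lit 10) (nat_lit 33) (nat_lit 2) (nat_lit 2) (nat_lit 0) true (nat_lit 8) true (nat_lit 13) false (nat_lit 2) true (nat_lit 11) true (nat_lit 11) (.s true (nat_lit 46) (nat_lit 34) (nat_lit 2) (nat_lit 2) (nat_lit 0) true (nat_lit 8) true (nat_lit 13) false (nat_lit 2) true (nat_lit 11) true (nat_lit 11) (.s true (nat_lit 4) (nat_lit 40) (nat_lit 0) (nat_lit 1) (nat_lit 2) true (nat_lit 8) true (nat_lit 11) false (nat_lit 4) true (nat_lit 13) true (nat_lit 12) (.s true (nat_lit 4) (nat_lit 40) (nat_lit 0) (nat_lit 2) (nat_lit 1) true (nat_lit 10) true (nat_lit 12) false (nat_lit 4) true (nat_lit 13) true (nat_lit 11) (.e false (nat_lit 4608) (nat_lit 53) (nat_lit 7) (nat_lit 6) (.e true (nat_lit 4608) (nat_lit 54) (nat_lit 7) (nat_lit 6) (.e false (nat_lit 21504) (nat_lit 82) (nat_lit 2) (nat_lit 11) (.e false (nat_lit 43008) (nat_lit 83) (nat_lit 2) (nat_lit 11) (.e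 false (nat_lit 19968) (nat_lit 84) (nat_lit 2) (nat_lit 11) (.e true (nat_lit 4608) (nat_lit 85) (nat_lit 2) (nat_lit 11) (.e true (nat_lit 58368) (nat_lit 86) (nat_lit 2) (nat_lit 11) (.e true (nat_lit 30720) (nat_lit 87) (nat_lit 2) (nat_lit 11) (.e true (nat_lit 52224) (nat_lit 88) (nat_lit 2) (nat_lit 11) (.e false (nat_lit 21504) (nat_lit 89) (nat_lit 2) (nat_lit 11) dP8_i15)))))))))))))))))))))))))

noncomputable def dP8_i17 : IL := (.s false (nat_lit 5) (nat_lit 16) (nat_lit 1) (nat_lit 1) (nat_lit 7) true (nat_lit 1) true (nat_lit 6) true (nat_lit 2) true (nat_lit 12) true (nat_lit 12) (.s false (nat_lit 11) (nat_lit 16) (nat_lit 1) (nat_lit 7) (nat_lit 1) true (nat_lit 9) true (nat_lit 12) true (nat_lit 2) true (nat_lit 12) true (nat_lit 6) (.s false (nat_lit 12) (nat_lit 16) (nat_lit 2) (nat_lit 4) (nat_lit 2) true (nat_lit 6) true (nat_lit 11) true (nat_lit 2) true (nat_lit 11) true (nat_lit 9) (.s false (nat_lit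 20) (nat_lit 15) (nat_lit 4) (nat_lit 2) (nat_lit 2) true (nat_lit 3) true (nat_lit 11) true (nat_lit 2) true (nat_lit 9) true (nat_lit 11) (.s true (nat_lit 16) (nat_lit 15) (nat_lit 6) (nat_lit 2) (nat_lit 1) true (nat_lit 3) true (nat_lit 12) true (nat_lit 2) true (nat_lit 7) true (nat_lit 11) (.s true (nat_lit 7) (nat_lit 16) (nat_lit 7) (nat_lit 1) (nat_lit 1) true (nat_lit 1) true (nat_lit 12) true (nat_lit 2) true (nat_lit 6) true (nat_lit 12) (.s true (nat_lit 4) (nat_lit 17) (nat_lit 0) (nat_lit 2) (nat_lit 6) true (nat_lit 4) true (nat_lit 7) true (nat_lit 1) true (nat_lit 13) true (nat_lit 11) (.s true (nat_lit 4) (nat_lit 17) (nat_lit 0) (nat_lit 6) (nat_lit 2) true (nat_lit 8) true (nat_lit 11) true (nat_lit 1) true (nat_lit 13) true (nat_lit 7) (.s false (nat_lit 16) (nat_lit 17) (nat_lit 2) (nat_lit 1) (nat_lit 5) true (nat_lit 2) true (nat_lit 8) true (nat_lit 1) true (nat_lit 11) true (nat_lit 12) (.s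 false (nat_lit 36) (nat_lit 18) (nat_lit 2) (nat_lit 2) (nat_lit 3) true (nat_lit 4) true (nat_lit 10) true (nat_lit 1) true (nat_lit 11) true (nat_lit 11) (.s false (nat_lit 32) (nat_lit 18) (nat_lit 2) (nat_lit 3) (nat_lit 2) true (nat_lit 6) true (nat_lit 11) true (nat_lit 1) true (nat_lit 11) true (nat_lit 10) (.s true (nat_lit 6) (nat_lit 18) (nat_lit 7) (nat_lit 0) (nat_lit 1) true (nat_lit 1) true (nat_lit 12) true (nat_lit 1) true (nat_lit 6) true (nat_lit 13) (.s false (nat_lit 12) (nat_lit 19) (nat_lit 0) (nat_lit 4) (nat_lit 2) true (nat_lit 8) true (nat_lit 11) true (nat_lit 0) true (nat_lit 13) true (nat_lit 9) (.s true (nat_lit 4) (nat_lit 19) (nat_lit 1) (nat_lit 5) (nat_lit 1) true (nat_lit 9) true (nat_lit 12) true (nat_lit 0) true (nat_lit 12) true (nat_lit 8) (.s false (nat_lit 4) (nat_lit 19) (nat_lit 5) (nat_lit 1) (nat_lit 1) true (nat_lit 4) true (nat_lit 12) true (nat_lit 0) true (nat_lit 8) true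 (nat_lit 12) (.s true (nat_lit 32) (nat_lit 22) (nat_lit 2) (nat_lit 2) (nat_lit 2) true (nat_lit 6) true (nat_lit 11) false (nat_lit 0) true (nat_lit 11) true (nat_lit 11) (.s false (nat_lit 12) (nat_lit 23) (nat_lit 2) (nat_lit 2) (nat_lit 2) true (nat_lit 6) true (nat_lit 11) false (nat_lit 0) true (nat_lit 11) true (nat_lit 11) (.s false (nat_lit 12) (nat_lit 24) (nat_lit 2) (nat_lit 2) (nat_lit 2) true (nat_lit 6) true (nat_lit 11) false (nat_lit 0) true (nat_lit 11) true (nat_lit 11) (.s false (nat_lit 30) (nat_lit 25) (nat_lit 2) (nat_lit 2) (nat_lit 2) true (nat_lit 6) true (nat_lit 11) false (nat_lit 0) true (nat_lit 11) true (nat_lit 11) (.s false (nat_lit 12) (nat_lit 26) (nat_lit 1) (nat_lit 2) (nat_lit 2) true (nat_lit 7) true (nat_lit 11) false (nat_lit 1) true (nat_lit 12) true (nat_lit 11) (.s true (nat_lit 20) (nat_lit 27) (nat_lit 1) (nat_lit 2) (nat_lit 2) true (nat_lit 7) true (nat_lit 11) false (nat_lit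 1) true (nat_lit 12) true (nat_lit 11) (.s false (nat_lit 12) (nat_lit 28) (nat_lit 1) (nat_lit 2) (nat_lit 2) true (nat_lit 7) true (nat_lit 11) false (nat_lit 1) true (nat_lit 12) true (nat_lit 11) (.s true (nat_lit 22) (nat_lit 30) (nat_lit 1) (nat_lit 2) (nat_lit 2) true (nat_lit 7) true (nat_lit 11) false (nat_lit 1) true (nat_lit 12) true (nat_lit 11) (.s true (nat_lit 20) (nat_lit 26) (nat_lit 2) (nat_lit 1) (nat_lit 2) true (nat_lit 6) true (nat_lit 11) false (nat_lit 1) true (nat_lit 11) true (nat_lit 12) (.s false (nat_lit 20) (nat_lit 27) (nat_lit 2) (nat_lit 1) (nat_lit 2) true (nat_lit 6) true (nat_lit 11) false (nat_lit 1) true (nat_lit 11) true (nat_lit 12) dP8_i16)))))))))))))))))))))))))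

noncomputable def dP8_i18 : IL := (.e false (nat_lit 3072) (nat_lit 88) (nat_lit 2) (nat_lit 11) (.e false (nat_lit 768) (nat_lit 89) (nat_lit 2) (nat_lit 11) (.e true (nat_lit 3840) (nat_lit 90) (nat_lit 2) (nat_lit 11) (.e false (nat_lit 32640) (nat_lit 91) (nat_lit 2) (nat_lit 11) (.e true (nat_lit 6912) (nat_lit 92) (nat_lit 2) (nat_lit 11) (.e false (nat_lit 24576) (nat_lit 93) (nat_lit 2) (nat_lit 11) (.e false (nat_lit 384) (nat_lit 94) (nat_lit 2) (nat_lit 11) (.e false (nat_lit 6912) (nat_lit 95) (nat_lit 2) (nat_lit 11) (.e false (nat_lit 9216) (nat_lit 96) (nat_lit 2) (nat_lit 11) (.e false (nat_lit 23040) (nat_lit 97) (nat_lit 2) (nat_lit 11) (.e true (nat_lit 41472) (nat_lit 98) (nat_lit 2) (nat_lit 11) (.e false (nat_lit 15744) (nat_lit 99) (nat_lit 2) (nat_lit 11) (.e true (nat_lit 9216) (nat_lit 100) (nat_lit 2) (nat_lit 11) (.e true (nat_lit 6912) (nat_lit 101) (nat_lit 2) (nat_lit 11) (.e false (nat_lit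 3456) (nat_lit 102) (nat_lit 2) (nat_lit 11) (.e false (nat_lit 768) (nat_lit 103) (nat_lit 2) (nat_lit 11) (.e true (nat_lit 8064) (nat_lit 104) (nat_lit 2) (nat_lit 11) (.e true (nat_lit 6144) (nat_lit 105) (nat_lit 2) (nat_lit 11) (.e false (nat_lit 3840) (nat_lit 106) (nat_lit 2) (nat_lit 11) (.e false (nat_lit 6912) (nat_lit 107) (nat_lit 2) (nat_lit 11) (.e false (nat_lit 2304) (nat_lit 119) (nat_lit 1) (nat_lit 12) (.e true (nat_lit 1152) (nat_lit 120) (nat_lit 1) (nat_lit 12) (.e true (nat_lit 2304) (nat_lit 121) (nat_lit 1) (nat_lit 12) (.e true (nat_lit 1152) (nat_lit 109) (nat_lit 1) (nat_lit 12) (.e false (nat_lit 1152) (nat_lit 118) (nat_lit 1) (nat_lit 12) .nil)))))))))))))))))))))))))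

noncomputable def dP8_i19 : IL := (.s false (nat_lit 10) (nat_lit 26) (nat_lit 2) (nat_lit 1) (nat_lit 2) true (nat_lit 6) true (nat_lit 11) false (nat_lit 1) true (nat_lit 11) true (nat_lit 12) (.s true (nat_lit 4) (nat_lit 27) (nat_lit 2) (nat_lit 1) (nat_lit 2) true (nat_lit 6) true (nat_lit 11) false (nat_lit 1) true (nat_lit 11) true (nat_lit 12) (.s false (nat_lit 6) (nat_lit 28) (nat_lit 2) (nat_lit 1) (nat_lit 2) true (nat_lit 6) true (nat_lit 11) false (nat_lit 1) true (nat_lit 11) true (nat_lit 12) (.s true (nat_lit 6) (nat_lit 30) (nat_lit 2) (nat_lit 1) (nat_lit 2) true (nat_lit 6) true (nat_lit 11) false (nat_lit 1) true (nat_lit 11) true (nat_lit 12) (.s false (nat_lit 12) (nat_lit 26) (nat_lit 2) (nat_lit 2) (nat_lit 1) true (nat_lit 7) true (nat_lit 12) false (nat_lit 1) true (nat_lit 11) true (nat_lit 11) (.s true (nat_lit 8) (nat_lit 27) (nat_lit 2) (nat_lit 2) (nat_lit 1) true (nat_lit 7) true (nat_lit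 12) false (nat_lit 1) true (nat_lit 11) true (nat_lit 11) (.s false (nat_lit 8) (nat_lit 28) (nat_lit 2) (nat_lit 2) (nat_lit 1) true (nat_lit 7) true (nat_lit 12) false (nat_lit 1) true (nat_lit 11) true (nat_lit 11) (.s true (nat_lit 8) (nat_lit 30) (nat_lit 2) (nat_lit 2) (nat_lit 1) true (nat_lit 7) true (nat_lit 12) false (nat_lit 1) true (nat_lit 11) true (nat_lit 11) (.s false (nat_lit 8) (nat_lit 32) (nat_lit 0) (nat_lit 2) (nat_lit 2) true (nat_lit 8) true (nat_lit 11) false (nat_lit 2) true (nat_lit 13) true (nat_lit 11) (.s true (nat_lit 4) (nat_lit 33) (nat_lit 0) (nat_lit 2) (nat_lit 2) true (nat_lit 8) true (nat_lit 11) false (nat_lit 2) true (nat_lit 13) true (nat_lit 11) (.s true (nat_lit 4) (nat_lit 34) (nat_lit 0) (nat_lit 2) (nat_lit 2) true (nat_lit 8) true (nat_lit 11) false (nat_lit 2) true (nat_lit 13) true (nat_lit 11) (.s true (nat_lit 4) (nat_lit 33) (nat_lit 2) (nat_lit 0) (nat_lit 2) true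 (nat_lit 6) true (nat_lit 11) false (nat_lit 2) true (nat_lit 11) true (nat_lit 13) (.s true (nat_lit 8) (nat_lit 34) (nat_lit 2) (nat_lit 0) (nat_lit 2) true (nat_lit 6) true (nat_lit 11) false (nat_lit 2) true (nat_lit 11) true (nat_lit 13) (.s false (nat_lit 8) (nat_lit 34) (nat_lit 2) (nat_lit 2) (nat_lit 0) true (nat_lit 8) true (nat_lit 13) false (nat_lit 2) true (nat_lit 11) true (nat_lit 11) (.e false (nat_lit 1152) (nat_lit 57) (nat_lit 6) (nat_lit 7) (.e false (nat_lit 1152) (nat_lit 48) (nat_lit 7) (nat_lit 6) (.e true (nat_lit 1152) (nat_lit 53) (nat_lit 7) (nat_lit 6) (.e false (nat_lit 3456) (nat_lit 54) (nat_lit 7) (nat_lit 6) (.e false (nat_lit 2304) (nat_lit 117) (nat_lit 1) (nat_lit 12) (.e false (nat_lit 6528) (nat_lit 82) (nat_lit 2) (nat_lit 11) (.e true (nat_lit 36480) (nat_lit 83) (nat_lit 2) (nat_lit 11) (.e true (nat_lit 38784) (nat_lit 84) (nat_lit 2) (nat_lit 11) (.e true (nat_lit 19584) (nat_lit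 85) (nat_lit 2) (nat_lit 11) (.e false (nat_lit 34944) (nat_lit 86) (nat_lit 2) (nat_lit 11) (.e false (nat_lit 14208) (nat_lit 87) (nat_lit 2) (nat_lit 11) dP8_i18)))))))))))))))))))))))))

noncomputable def dP8_i20 : IL := (.s true (nat_lit 1) (nat_lit 16) (nat_lit 1) (nat_lit 1) (nat_lit 7) true (nat_lit 1) true (nat_lit 6) true (nat_lit 2) true (nat_lit 12) true (nat_lit 12) (.s true (nat_lit 6) (nat_lit 15) (nat_lit 1) (nat_lit 6) (nat_lit 2) true (nat_lit 7) true (nat_lit 11) true (nat_lit 2) true (nat_lit 12) true (nat_lit 7) (.s true (nat_lit 3) (nat_lit 16) (nat_lit 1) (nat_lit 7) (nat_lit 1) true (nat_lit 9) true (nat_lit 12) true (nat_lit 2) true (nat_lit 12) true (nat_lit 6) (.s false (nat_lit 6) (nat_lit 15) (nat_lit 2) (nat_lit 1) (nat_lit 6) true (nat_lit 1) true (nat_lit 7) true (nat_lit 2) true (nat_lit 11) true (nat_lit 12) (.s false (nat_lit 8) (nat_lit 15) (nat_lit 2) (nat_lit 6) (nat_lit 1) true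 (nat_lit 7) true (nat_lit 12) true (nat_lit 2) true (nat_lit 11) true (nat_lit 7) (.s true (nat_lit 2) (nat_lit 15) (nat_lit 6) (nat_lit 1) (nat_lit 2) true (nat_lit 1) true (nat_lit 11) true (nat_lit 2) true (nat_lit 7) true (nat_lit 12) (.s false (nat_lit 1) (nat_lit 16) (nat_lit 7) (nat_lit 1) (nat_lit 1) true (nat_lit 1) true (nat_lit 12) true (nat_lit 2) true (nat_lit 6) true (nat_lit 12) (.s false (nat_lit 1) (nat_lit 17) (nat_lit 0) (nat_lit 2) (nat_lit 6) true (nat_lit 4) true (nat_lit 7) true (nat_lit 1) true (nat_lit 13) true (nat_lit 11) (.s false (nat_lit 1) (nat_lit 17) (nat_lit 0) (nat_lit 6) (nat_lit 2) true (nat_lit 8) true (nat_lit 11) true (nat_lit 1) true (nat_lit 13) true (nat_lit 7) (.s true (nat_lit 10) (nat_lit 18) (nat_lit 2) (nat_lit 2) (nat_lit 3) true (nat_lit 4) true (nat_lit 10) true (nat_lit 1) true (nat_lit 11) true (nat_lit 11) (.s true (nat_lit 14) (nat_lit 18) (nat_lit 2) (nat_lit 3)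 (nat_lit 2) true (nat_lit 6) true (nat_lit 11) true (nat_lit 1) true (nat_lit 11) true (nat_lit 10) (.s false (nat_lit 4) (nat_lit 18) (nat_lit 7) (nat_lit 0) (nat_lit 1) true (nat_lit 1) true (nat_lit 12) true (nat_lit 1) true (nat_lit 6) true (nat_lit 13) (.s true (nat_lit 2) (nat_lit 19) (nat_lit 1) (nat_lit 1) (nat_lit 5) true (nat_lit 4) true (nat_lit 8) true (nat_lit 0) true (nat_lit 12) true (nat_lit 12) (.s true (nat_lit 2) (nat_lit 19) (nat_lit 1) (nat_lit 5) (nat_lit 1) true (nat_lit 9) true (nat_lit 12) true (nat_lit 0) true (nat_lit 12) true (nat_lit 8) (.s false (nat_lit 4) (nat_lit 19) (nat_lit 2) (nat_lit 3) (nat_lit 1) true (nat_lit 7) true (nat_lit 12) true (nat_lit 0) true (nat_lit 11) true (nat_lit 10) (.s false (nat_lit 2) (nat_lit 19) (nat_lit 5) (nat_lit 1) (nat_lit 1) true (nat_lit 4) true (nat_lit 12) true (nat_lit 0) true (nat_lit 8) true (nat_lit 12) (.s false (nat_lit 18) (nat_lit 22) (nat_lit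 2) (nat_lit 2) (nat_lit 2) true (nat_lit 6) true (nat_lit 11) false (nat_lit 0) true (nat_lit 11) true (nat_lit 11) (.s true (nat_lit 8) (nat_lit 23) (nat_lit 2) (nat_lit 2) (nat_lit 2) true (nat_lit 6) true (nat_lit 11) false (nat_lit 0) true (nat_lit 11) true (nat_lit 11) (.s true (nat_lit 8) (nat_lit 24) (nat_lit 2) (nat_lit 2) (nat_lit 2) true (nat_lit 6) true (nat_lit 11) false (nat_lit 0) true (nat_lit 11) true (nat_lit 11) (.s true (nat_lit 10) (nat_lit 25) (nat_lit 2) (nat_lit 2) (nat_lit 2) true (nat_lit 6) true (nat_lit 11) false (nat_lit 0) true (nat_lit 11) true (nat_lit 11) (.s true (nat_lit 2) (nat_lit 26) (nat_lit 1) (nat_lit 2) (nat_lit 2) true (nat_lit 7) true (nat_lit 11) false (nat_lit 1) true (nat_lit 12) true (nat_lit 11) (.s false (nat_lit 4) (nat_lit 27) (nat_lit 1) (nat_lit 2) (nat_lit 2) true (nat_lit 7) true (nat_lit 11) false (nat_lit 1) true (nat_lit 12) true (nat_lit 11) (.s true (nat_lit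 4) (nat_lit 28) (nat_lit 1) (nat_lit 2) (nat_lit 2) true (nat_lit 7) true (nat_lit 11) false (nat_lit 1) true (nat_lit 12) true (nat_lit 11) (.s true (nat_lit 4) (nat_lit 29) (nat_lit 1) (nat_lit 2) (nat_lit 2) true (nat_lit 7) true (nat_lit 11) false (nat_lit 1) true (nat_lit 12) true (nat_lit 11) (.s false (nat_lit 6) (nat_lit 30) (nat_lit 1) (nat_lit 2) (nat_lit 2) true (nat_lit 7) true (nat_lit 11) false (nat_lit 1) true (nat_lit 12) true (nat_lit 11) dP8_i19)))))))))))))))))))))))))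

noncomputable def dP8_i21 : IL := (.e false (nat_lit 5760) (nat_lit 92) (nat_lit 2) (nat_lit 11) (.e true (nat_lit 9216) (nat_lit 93) (nat_lit 2) (nat_lit 11) (.e true (nat_lit 6912) (nat_lit 94) (nat_lit 2) (nat_lit 11) (.e true (nat_lit 5760) (nat_lit 95) (nat_lit 2) (nat_lit 11) (.e true (nat_lit 2304) (nat_lit 96) (nat_lit 2) (nat_lit 11) (.e true (nat_lit 16128) (nat_lit 97) (nat_lit 2) (nat_lit 11) (.e false (nat_lit 23040) (nat_lit 98) (nat_lit 2) (nat_lit 11) (.e true (nat_lit 8064) (nat_lit 99) (nat_lit 2) (nat_lit 11) (.e false (nat_lit 6912) (nat_lit 100) (nat_lit 2) (nat_lit 11) (.e false (nat_lit 2304) (nat_lit 101) (nat_lit 2) (nat_lit 11) (.e true (nat_lit 9216) (nat_lit 102) (nat_lit 2) (nat_lit 11) (.e true (nat_lit 5760) (nat_lit 103) (nat_lit 2) (nat_lit 11) (.e false (nat_lit 3456) (nat_lit 104) (nat_lit 2) (nat_lit 11) (.e false (nat_lit 4608) (nat_lit 105) (nat_lit 2) (nat_lit 11) (.e true (nat_lit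 4608) (nat_lit 106) (nat_lit 2) (nat_lit 11) (.e true (nat_lit 4608) (nat_lit 107) (nat_lit 2) (nat_lit 11) (.e true (nat_lit 6912) (nat_lit 119) (nat_lit 1) (nat_lit 12) (.e false (nat_lit 4608) (nat_lit 120) (nat_lit 1) (nat_lit 12) (.e true (nat_lit 13824) (nat_lit 108) (nat_lit 1) (nat_lit 12) (.e false (nat_lit 13824) (nat_lit 109) (nat_lit 1) (nat_lit 12) (.e false (nat_lit 13824) (nat_lit 112) (nat_lit 1) (nat_lit 12) (.e false (nat_lit 13824) (nat_lit 113) (nat_lit 1) (nat_lit 12) (.e true (nat_lit 6912) (nat_lit 114) (nat_lit 1) (nat_lit 12) (.e false (nat_lit 6912) (nat_lit 116) (nat_lit 1) (nat_lit 12) (.e true (nat_lit 2304) (nat_lit 118) (nat_lit 1) (nat_lit 12) .nil)))))))))))))))))))))))))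

noncomputable def dP8_i22 : IL := (.s false (nat_lit 1) (nat_lit 30) (nat_lit 2) (nat_lit 1) (nat_lit 2) true (nat_lit 6) true (nat_lit 11) false (nat_lit 1) true (nat_lit 11) true (nat_lit 12) (.s false (nat_lit 2) (nat_lit 26) (nat_lit 2) (nat_lit 2) (nat_lit 1) true (nat_lit 7) true (nat_lit 12) false (nat_lit 1) true (nat_lit 11) true (nat_lit 11) (.s true (nat_lit 2) (nat_lit 27) (nat_lit 2) (nat_lit 2) (nat_lit 1) true (nat_lit 7) true (nat_lit 12) false (nat_lit 1) true (nat_lit 11) true (nat_lit 11) (.s false (nat_lit 2) (nat_lit 28) (nat_lit 2) (nat_lit 2) (nat_lit 1) true (nat_lit 7) true (nat_lit 12) false (nat_lit 1) true (nat_lit 11) true (nat_lit 11) (.s false (nat_lit 1) (nat_lit 30) (nat_lit 2) (nat_lit 2) (nat_lit 1) true (nat_lit 7) true (nat_lit 12) false (nat_lit 1) true (nat_lit 11) true (nat_lit 11) (.s false (nat_lit 2) (nat_lit 32) (nat_lit 0) (nat_lit 2) (nat_lit 2) true (nat_lit 8) true (nat_lit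 11) false (nat_lit 2) true (nat_lit 13) true (nat_lit 11) (.s true (nat_lit 1) (nat_lit 33) (nat_lit 0) (nat_lit 2) (nat_lit 2) true (nat_lit 8) true (nat_lit 11) false (nat_lit 2) true (nat_lit 13) true (nat_lit 11) (.s true (nat_lit 1) (nat_lit 34) (nat_lit 0) (nat_lit 2) (nat_lit 2) true (nat_lit 8) true (nat_lit 11) false (nat_lit 2) true (nat_lit 13) true (nat_lit 11) (.s false (nat_lit 3) (nat_lit 33) (nat_lit 2) (nat_lit 0) (nat_lit 2) true (nat_lit 6) true (nat_lit 11) false (nat_lit 2) true (nat_lit 11) true (nat_lit 13) (.s true (nat_lit 5) (nat_lit 34) (nat_lit 2) (nat_lit 0) (nat_lit 2) true (nat_lit 6) true (nat_lit 11) false (nat_lit 2) true (nat_lit 11) true (nat_lit 13) (.s false (nat_lit 5) (nat_lit 33) (nat_lit 2) (nat_lit 2) (nat_lit 0) true (nat_lit 8) true (nat_lit 13) false (nat_lit 2) true (nat_lit 11) true (nat_lit 11) (.s true (nat_lit 3) (nat_lit 34) (nat_lit 2) (nat_lit 2) (nat_lit 0) true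 (nat_lit 8) true (nat_lit 13) false (nat_lit 2) true (nat_lit 11) true (nat_lit 11) (.e true (nat_lit 2304) (nat_lit 53) (nat_lit 7) (nat_lit 6) (.e false (nat_lit 2304) (nat_lit 54) (nat_lit 7) (nat_lit 6) (.e false (nat_lit 4608) (nat_lit 125) (nat_lit 0) (nat_lit 13) (.e true (nat_lit 17280) (nat_lit 82) (nat_lit 2) (nat_lit 11) (.e false (nat_lit 25344) (nat_lit 83) (nat_lit 2) (nat_lit 11) (.e false (nat_lit 34560) (nat_lit 84) (nat_lit 2) (nat_lit 11) (.e false (nat_lit 17280) (nat_lit 85) (nat_lit 2) (nat_lit 11) (.e true (nat_lit 13824) (nat_lit 86) (nat_lit 2) (nat_lit 11) (.e true (nat_lit 10368) (nat_lit 87) (nat_lit 2) (nat_lit 11) (.e false (nat_lit 4608) (nat_lit 88) (nat_lit 2) (nat_lit 11) (.e true (nat_lit 1152) (nat_lit 89) (nat_lit 2) (nat_lit 11) (.e false (nat_lit 5760) (nat_lit 90) (nat_lit 2) (nat_lit 11) (.e true (nat_lit 16128) (nat_lit 91) (nat_lit 2) (nat_lit 11) dP8_i21)))))))))))))))))))))))))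

noncomputable def dP8_i23 : IL := (.s false (nat_lit 4) (nat_lit 8) (nat_lit 2) (nat_lit 2) (nat_lit 7) true (nat_lit 0) true (nat_lit 6) true (nat_lit 5) true (nat_lit 11) true (nat_lit 11) (.s true (nat_lit 2) (nat_lit 9) (nat_lit 2) (nat_lit 2) (nat_lit 7) true (nat_lit 0) true (nat_lit 6) true (nat_lit 5) true (nat_lit 11) true (nat_lit 11) (.s true (nat_lit 4) (nat_lit 10) (nat_lit 2) (nat_lit 1) (nat_lit 7) true (nat_lit 0) true (nat_lit 6) true (nat_lit 4) true (nat_lit 11) true (nat_lit 12) (.s true (nat_lit 4) (nat_lit 10) (nat_lit 2) (nat_lit 6) (nat_lit 2) true (nat_lit 6) true (nat_lit 11) true (nat_lit 4) true (nat_lit 11) true (nat_lit 7) (.s true (nat_lit 4) (nat_lit 10) (nat_lit 6) (nat_lit 2) (nat_lit 2) true (nat_lit 1) true (nat_lit 11) true (nat_lit 4) true (nat_lit 7) true (nat_lit 11) (.s false (nat_lit 4) (nat_lit 10) (nat_lit 7) (nat_lit 2) (nat_lit 1) true (nat_lit 1) true (nat_lit 12) true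 (nat_lit 4) true (nat_lit 6) true (nat_lit 11) (.s false (nat_lit 1) (nat_lit 13) (nat_lit 0) (nat_lit 2) (nat_lit 7) true (nat_lit 2) true (nat_lit 6) true (nat_lit 3) true (nat_lit 13) true (nat_lit 11) (.s true (nat_lit 1) (nat_lit 13) (nat_lit 2) (nat_lit 0) (nat_lit 7) true (nat_lit 0) true (nat_lit 6) true (nat_lit 3) true (nat_lit 11) true (nat_lit 13) (.s true (nat_lit 2) (nat_lit 13) (nat_lit 2) (nat_lit 2) (nat_lit 5) true (nat_lit 2) true (nat_lit 8) true (nat_lit 3) true (nat_lit 11) true (nat_lit 11) (.s true (nat_lit 3) (nat_lit 16) (nat_lit 1) (nat_lit 1) (nat_lit 7) true (nat_lit 1) true (nat_lit 6) true (nat_lit 2) true (nat_lit 12) true (nat_lit 12) (.s true (nat_lit 1) (nat_lit 16) (nat_lit 1) (nat_lit 7) (nat_lit 1) true (nat_lit 9) true (nat_lit 12) true (nat_lit 2) true (nat_lit 12) true (nat_lit 6) (.s true (nat_lit 4) (nat_lit 18) (nat_lit 2) (nat_lit 2) (nat_lit 3) true (nat_lit 4) true (nat_lit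 10) true (nat_lit 1) true (nat_lit 11) true (nat_lit 11) (.s true (nat_lit 4) (nat_lit 18) (nat_lit 2) (nat_lit 3) (nat_lit 2) true (nat_lit 6) true (nat_lit 11) true (nat_lit 1) true (nat_lit 11) true (nat_lit 10) (.s false (nat_lit 1) (nat_lit 18) (nat_lit 7) (nat_lit 0) (nat_lit 1) true (nat_lit 1) true (nat_lit 12) true (nat_lit 1) true (nat_lit 6) true (nat_lit 13) (.s false (nat_lit 2) (nat_lit 19) (nat_lit 1) (nat_lit 1) (nat_lit 5) true (nat_lit 4) true (nat_lit 8) true (nat_lit 0) true (nat_lit 12) true (nat_lit 12) (.s false (nat_lit 2) (nat_lit 19) (nat_lit 1) (nat_lit 5) (nat_lit 1) true (nat_lit 9) true (nat_lit 12) true (nat_lit 0) true (nat_lit 12) true (nat_lit 8) (.s true (nat_lit 2) (nat_lit 19) (nat_lit 5) (nat_lit 1) (nat_lit 1) true (nat_lit 4) true (nat_lit 12) true (nat_lit 0) true (nat_lit 8) true (nat_lit 12) (.s true (nat_lit 3) (nat_lit 25) (nat_lit 2) (nat_lit 2) (nat_lit 2) true (nat_lit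 6) true (nat_lit 11) false (nat_lit 0) true (nat_lit 11) true (nat_lit 11) (.s false (nat_lit 2) (nat_lit 26) (nat_lit 1) (nat_lit 2) (nat_lit 2) true (nat_lit 7) true (nat_lit 11) false (nat_lit 1) true (nat_lit 12) true (nat_lit 11) (.s false (nat_lit 2) (nat_lit 27) (nat_lit 1) (nat_lit 2) (nat_lit 2) true (nat_lit 7) true (nat_lit 11) false (nat_lit 1) true (nat_lit 12) true (nat_lit 11) (.s true (nat_lit 2) (nat_lit 28) (nat_lit 1) (nat_lit 2) (nat_lit 2) true (nat_lit 7) true (nat_lit 11) false (nat_lit 1) true (nat_lit 12) true (nat_lit 11) (.s true (nat_lit 1) (nat_lit 30) (nat_lit 1) (nat_lit 2) (nat_lit 2) true (nat_lit 7) true (nat_lit 11) false (nat_lit 1) true (nat_lit 12) true (nat_lit 11) (.s false (nat_lit 2) (nat_lit 26) (nat_lit 2) (nat_lit 1) (nat_lit 2) true (nat_lit 6) true (nat_lit 11) false (nat_lit 1) true (nat_lit 11) true (nat_lit 12) (.s true (nat_lit 2) (nat_lit 27) (nat_lit 2) (nat_lit 1)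 (nat_lit 2) true (nat_lit 6) true (nat_lit 11) false (nat_lit 1) true (nat_lit 11) true (nat_lit 12) (.s false (nat_lit 2) (nat_lit 28) (nat_lit 2) (nat_lit 1) (nat_lit 2) true (nat_lit 6) true (nat_lit 11) false (nat_lit 1) true (nat_lit 11) true (nat_lit 12) dP8_i22)))))))))))))))))))))))))

noncomputable def dP8_i24 : IL := (.e true (nat_lit 768) (nat_lit 82) (nat_lit 2) (nat_lit 11) (.e true (nat_lit 3072) (nat_lit 89) (nat_lit 2) (nat_lit 11) (.e false (nat_lit 1536) (nat_lit 90) (nat_lit 2) (nat_lit 11) (.e false (nat_lit 6912) (nat_lit 104) (nat_lit 2) (nat_lit 11) (.e true (nat_lit 1536) (nat_lit 86) (nat_lit 2) (nat_lit 11) (.e true (nat_lit 3456) (nat_lit 95) (nat_lit 2) (nat_lit 11) (.e false (nat_lit 576) (nat_lit 97) (nat_lit 2) (nat_lit 11) (.e true (nat_lit 576) (nat_lit 98) (nat_lit 2) (nat_lit 11) (.e true (nat_lit 576) (nat_lit 100) (nat_lit 2) (nat_lit 11) (.e true (nat_lit 1152) (nat_lit 101) (nat_lit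 2) (nat_lit 11) (.e false (nat_lit 768) (nat_lit 83) (nat_lit 2) (nat_lit 11) (.e false (nat_lit 1920) (nat_lit 84) (nat_lit 2) (nat_lit 11) (.e false (nat_lit 1152) (nat_lit 85) (nat_lit 2) (nat_lit 11) (.e true (nat_lit 384) (nat_lit 87) (nat_lit 2) (nat_lit 11) (.e false (nat_lit 1536) (nat_lit 88) (nat_lit 2) (nat_lit 11) (.e false (nat_lit 1920) (nat_lit 91) (nat_lit 2) (nat_lit 11) (.e false (nat_lit 3072) (nat_lit 93) (nat_lit 2) (nat_lit 11) (.e true (nat_lit 1536) (nat_lit 94) (nat_lit 2) (nat_lit 11) (.e false (nat_lit 960) (nat_lit 99) (nat_lit 2) (nat_lit 11) (.e true (nat_lit 768) (nat_lit 103) (nat_lit 2) (nat_lit 11) (.e false (nat_lit 384) (nat_lit 105) (nat_lit 2) (nat_lit 11) (.e true (nat_lit 384) (nat_lit 106) (nat_lit 2) (nat_lit 11) (.e false (nat_lit 1152) (nat_lit 92) (nat_lit 2) (nat_lit 11) (.e true (nat_lit 1152) (nat_lit 102) (nat_lit 2) (nat_lit 11) (.e true (nat_lit 1152) (nat_lit 107) (nat_lit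 2) (nat_lit 11) .nil)))))))))))))))))))))))))

noncomputable def dP8_i25 : IL := (.s true (nat_lit 2) (nat_lit 18) (nat_lit 2) (nat_lit 2) (nat_lit 3) true (nat_lit 4) true (nat_lit 10) true (nat_lit 1) true (nat_lit 11) true (nat_lit 11) (.s true (nat_lit 2) (nat_lit 18) (nat_lit 2) (nat_lit 3) (nat_lit 2) true (nat_lit 6) true (nat_lit 11) true (nat_lit 1) true (nat_lit 11) true (nat_lit 10) (.s false (nat_lit 1) (nat_lit 18) (nat_lit 7) (nat_lit 0) (nat_lit 1) true (nat_lit 1) true (nat_lit 12) true (nat_lit 1) true (nat_lit 6) true (nat_lit 13) (.s false (nat_lit 4) (nat_lit 22) (nat_lit 2) (nat_lit 2) (nat_lit 2) true (nat_lit 6) true (nat_lit 11) false (nat_lit 0) true (nat_lit 11) true (nat_lit 11) (.s true (nat_lit 1) (nat_lit 25) (nat_lit 2) (nat_lit 2) (nat_lit 2) true (nat_lit 6) true (nat_lit 11) false (nat_lit 0) true (nat_lit 11) true (nat_lit 11) (.s true (nat_lit 2) (nat_lit 26) (nat_lit 1) (nat_lit 2)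 (nat_lit 2) true (nat_lit 7) true (nat_lit 11) false (nat_lit 1) true (nat_lit 12) true (nat_lit 11) (.s false (nat_lit 2) (nat_lit 27) (nat_lit 1) (nat_lit 2) (nat_lit 2) true (nat_lit 7) true (nat_lit 11) false (nat_lit 1) true (nat_lit 12) true (nat_lit 11) (.s true (nat_lit 2) (nat_lit 28) (nat_lit 1) (nat_lit 2) (nat_lit 2) true (nat_lit 7) true (nat_lit 11) false (nat_lit 1) true (nat_lit 12) true (nat_lit 11) (.s false (nat_lit 1) (nat_lit 30) (nat_lit 1) (nat_lit 2) (nat_lit 2) true (nat_lit 7) true (nat_lit 11) false (nat_lit 1) true (nat_lit 12) true (nat_lit 11) (.s false (nat_lit 2) (nat_lit 26) (nat_lit 2) (nat_lit 1) (nat_lit 2) true (nat_lit 6) true (nat_lit 11) false (nat_lit 1) true (nat_lit 11) true (nat_lit 12) (.s true (nat_lit 2) (nat_lit 27) (nat_lit 2) (nat_lit 1) (nat_lit 2) true (nat_lit 6) true (nat_lit 11) false (nat_lit 1) true (nat_lit 11) true (nat_lit 12) (.s false (nat_lit 2) (nat_lit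 28) (nat_lit 2) (nat_lit 1) (nat_lit 2) true (nat_lit 6) true (nat_lit 11) false (nat_lit 1) true (nat_lit 11) true (nat_lit 12) (.s true (nat_lit 1) (nat_lit 30) (nat_lit 2) (nat_lit 1) (nat_lit 2) true (nat_lit 6) true (nat_lit 11) false (nat_lit 1) true (nat_lit 11) true (nat_lit 12) (.s false (nat_lit 2) (nat_lit 26) (nat_lit 2) (nat_lit 2) (nat_lit 1) true (nat_lit 7) true (nat_lit 12) false (nat_lit 1) true (nat_lit 11) true (nat_lit 11) (.s true (nat_lit 2) (nat_lit 27) (nat_lit 2) (nat_lit 2) (nat_lit 1) true (nat_lit 7) true (nat_lit 12) false (nat_lit 1) true (nat_lit 11) true (nat_lit 11) (.s false (nat_lit 2) (nat_lit 28) (nat_lit 2) (nat_lit 2) (nat_lit 1) true (nat_lit 7) true (nat_lit 12) false (nat_lit 1) true (nat_lit 11) true (nat_lit 11) (.s true (nat_lit 1) (nat_lit 30) (nat_lit 2) (nat_lit 2) (nat_lit 1) true (nat_lit 7) true (nat_lit 12) false (nat_lit 1) true (nat_lit 11) true (nat_lit 11) (.s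 false (nat_lit 2) (nat_lit 32) (nat_lit 0) (nat_lit 2) (nat_lit 2) true (nat_lit 8) true (nat_lit 11) false (nat_lit 2) true (nat_lit 13) true (nat_lit 11) (.s true (nat_lit 1) (nat_lit 33) (nat_lit 0) (nat_lit 2) (nat_lit 2) true (nat_lit 8) true (nat_lit 11) false (nat_lit 2) true (nat_lit 13) true (nat_lit 11) (.s true (nat_lit 1) (nat_lit 34) (nat_lit 0) (nat_lit 2) (nat_lit 2) true (nat_lit 8) true (nat_lit 11) false (nat_lit 2) true (nat_lit 13) true (nat_lit 11) (.s true (nat_lit 1) (nat_lit 33) (nat_lit 2) (nat_lit 0) (nat_lit 2) true (nat_lit 6) true (nat_lit 11) false (nat_lit 2) true (nat_lit 11) true (nat_lit 13) (.s true (nat_lit 1) (nat_lit 34) (nat_lit 2) (nat_lit 0) (nat_lit 2) true (nat_lit 6) true (nat_lit 11) false (nat_lit 2) true (nat_lit 11) true (nat_lit 13) (.s false (nat_lit 1) (nat_lit 33) (nat_lit 2) (nat_lit 2) (nat_lit 0) true (nat_lit 8) true (nat_lit 13) false (nat_lit 2) true (nat_lit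 11) true (nat_lit 11) (.s false (nat_lit 1) (nat_lit 34) (nat_lit 2) (nat_lit 2) (nat_lit 0) true (nat_lit 8) true (nat_lit 13) false (nat_lit 2) true (nat_lit 11) true (nat_lit 11) (.e false (nat_lit 1152) (nat_lit 117) (nat_lit 1) (nat_lit 12) dP8_i24)))))))))))))))))))))))))

noncomputable def dP8_i26 : IL := (.e false (nat_lit 11520) (nat_lit 86) (nat_lit 2) (nat_lit 11) (.e true (nat_lit 11520) (nat_lit 87) (nat_lit 2) (nat_lit 11) (.e true (nat_lit 27648) (nat_lit 88) (nat_lit 2) (nat_lit 11) (.e false (nat_lit 16128) (nat_lit 89) (nat_lit 2) (nat_lit 11) (.e true (nat_lit 4608) (nat_lit 90) (nat_lit 2) (nat_lit 11) (.e true (nat_lit 2304) (nat_lit 92) (nat_lit 2) (nat_lit 11) (.e true (nat_lit 4608) (nat_lit 93) (nat_lit 2) (nat_lit 11) (.e false (nat_lit 6912) (nat_lit 94) (nat_lit 2) (nat_lit 11) (.e false (nat_lit 20736) (nat_lit 95) (nat_lit 2) (nat_lit 11) (.e true (nat_lit 6912) (nat_lit 96) (nat_lit 2)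 (nat_lit 11) (.e true (nat_lit 11520) (nat_lit 97) (nat_lit 2) (nat_lit 11) (.e true (nat_lit 6912) (nat_lit 98) (nat_lit 2) (nat_lit 11) (.e false (nat_lit 2304) (nat_lit 100) (nat_lit 2) (nat_lit 11) (.e false (nat_lit 2304) (nat_lit 101) (nat_lit 2) (nat_lit 11) (.e false (nat_lit 4608) (nat_lit 102) (nat_lit 2) (nat_lit 11) (.e false (nat_lit 9216) (nat_lit 103) (nat_lit 2) (nat_lit 11) (.e true (nat_lit 13824) (nat_lit 104) (nat_lit 2) (nat_lit 11) (.e false (nat_lit 13824) (nat_lit 105) (nat_lit 2) (nat_lit 11) (.e true (nat_lit 13824) (nat_lit 106) (nat_lit 2) (nat_lit 11) (.e true (nat_lit 2304) (nat_lit 65) (nat_lit 6) (nat_lit 7) (.e false (nat_lit 4608) (nat_lit 108) (nat_lit 1) (nat_lit 12) (.e true (nat_lit 4608) (nat_lit 109) (nat_lit 1) (nat_lit 12) (.e true (nat_lit 4608) (nat_lit 113) (nat_lit 1) (nat_lit 12) (.e false (nat_lit 2304) (nat_lit 114) (nat_lit 1) (nat_lit 12) (.e true (nat_lit 2304) (nat_lit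 116) (nat_lit 1) (nat_lit 12) .nil)))))))))))))))))))))))))

noncomputable def dP8_i27 : IL := (.s true (nat_lit 8) (nat_lit 13) (nat_lit 5) (nat_lit 2) (nat_lit 2) true (nat_lit 2) true (nat_lit 11) true (nat_lit 3) true (nat_lit 8) true (nat_lit 11) (.s true (nat_lit 1) (nat_lit 16) (nat_lit 1) (nat_lit 1) (nat_lit 7) true (nat_lit 1) true (nat_lit 6) true (nat_lit 2) true (nat_lit 12) true (nat_lit 12) (.s true (nat_lit 4) (nat_lit 16) (nat_lit 1) (nat_lit 2) (nat_lit 6) true (nat_lit 3) true (nat_lit 7) true (nat_lit 2) true (nat_lit 12) true (nat_lit 11) (.s false (nat_lit 1) (nat_lit 16) (nat_lit 1) (nat_lit 7) (nat_lit 1) true (nat_lit 9) true (nat_lit 12) true (nat_lit 2) true (nat_lit 12) true (nat_lit 6) (.s false (nat_lit 8) (nat_lit 15) (nat_lit 4) (nat_lit 2) (nat_lit 2) true (nat_lit 3) true (nat_lit 11) true (nat_lit 2) true (nat_lit 9) true (nat_lit 11) (.s false (nat_lit 1) (nat_lit 16) (nat_lit 7) (nat_lit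 1) (nat_lit 1) true (nat_lit 1) true (nat_lit 12) true (nat_lit 2) true (nat_lit 6) true (nat_lit 12) (.s false (nat_lit 4) (nat_lit 18) (nat_lit 2) (nat_lit 2) (nat_lit 3) true (nat_lit 4) true (nat_lit 10) true (nat_lit 1) true (nat_lit 11) true (nat_lit 11) (.s false (nat_lit 4) (nat_lit 18) (nat_lit 2) (nat_lit 3) (nat_lit 2) true (nat_lit 6) true (nat_lit 11) true (nat_lit 1) true (nat_lit 11) true (nat_lit 10) (.s false (nat_lit 4) (nat_lit 19) (nat_lit 0) (nat_lit 4) (nat_lit 2) true (nat_lit 8) true (nat_lit 11) true (nat_lit 0) true (nat_lit 13) true (nat_lit 9) (.s false (nat_lit 4) (nat_lit 25) (nat_lit 2) (nat_lit 2) (nat_lit 2) true (nat_lit 6) true (nat_lit 11) false (nat_lit 0) true (nat_lit 11) true (nat_lit 11) (.s false (nat_lit 4) (nat_lit 30) (nat_lit 1) (nat_lit 2) (nat_lit 2) true (nat_lit 7) true (nat_lit 11) false (nat_lit 1) true (nat_lit 12) true (nat_lit 11) (.s true (nat_lit 4) (nat_lit 30)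 (nat_lit 2) (nat_lit 1) (nat_lit 2) true (nat_lit 6) true (nat_lit 11) false (nat_lit 1) true (nat_lit 11) true (nat_lit 12) (.s true (nat_lit 4) (nat_lit 32) (nat_lit 0) (nat_lit 2) (nat_lit 2) true (nat_lit 8) true (nat_lit 11) false (nat_lit 2) true (nat_lit 13) true (nat_lit 11) (.s true (nat_lit 2) (nat_lit 33) (nat_lit 0) (nat_lit 2) (nat_lit 2) true (nat_lit 8) true (nat_lit 11) false (nat_lit 2) true (nat_lit 13) true (nat_lit 11) (.s false (nat_lit 2) (nat_lit 34) (nat_lit 0) (nat_lit 2) (nat_lit 2) true (nat_lit 8) true (nat_lit 11) false (nat_lit 2) true (nat_lit 13) true (nat_lit 11) (.s true (nat_lit 10) (nat_lit 33) (nat_lit 2) (nat_lit 0) (nat_lit 2) true (nat_lit 6) true (nat_lit 11) false (nat_lit 2) true (nat_lit 11) true (nat_lit 13) (.s false (nat_lit 10) (nat_lit 34) (nat_lit 2) (nat_lit 0) (nat_lit 2) true (nat_lit 6) true (nat_lit 11) false (nat_lit 2) true (nat_lit 11) true (nat_lit 13) (.s false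 (nat_lit 10) (nat_lit 33) (nat_lit 2) (nat_lit 2) (nat_lit 0) true (nat_lit 8) true (nat_lit 13) false (nat_lit 2) true (nat_lit 11) true (nat_lit 11) (.s true (nat_lit 10) (nat_lit 34) (nat_lit 2) (nat_lit 2) (nat_lit 0) true (nat_lit 8) true (nat_lit 13) false (nat_lit 2) true (nat_lit 11) true (nat_lit 11) (.s false (nat_lit 4) (nat_lit 36) (nat_lit 1) (nat_lit 2) (nat_lit 1) true (nat_lit 9) true (nat_lit 12) false (nat_lit 3) true (nat_lit 12) true (nat_lit 11) (.e false (nat_lit 4608) (nat_lit 53) (nat_lit 7) (nat_lit 6) (.e true (nat_lit 9216) (nat_lit 82) (nat_lit 2) (nat_lit 11) (.e false (nat_lit 2304) (nat_lit 83) (nat_lit 2) (nat_lit 11) (.e true (nat_lit 6912) (nat_lit 84) (nat_lit 2) (nat_lit 11) (.e true (nat_lit 9216) (nat_lit 85) (nat_lit 2) (nat_lit 11) dP8_i26)))))))))))))))))))))))))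

noncomputable def dP8_i28 : IL := (.e true (nat_lit 3072) (nat_lit 90) (nat_lit 2) (nat_lit 11) (.e false (nat_lit 14592) (nat_lit 91) (nat_lit 2) (nat_lit 11) (.e true (nat_lit 1152) (nat_lit 92) (nat_lit 2) (nat_lit 11) (.e false (nat_lit 9984) (nat_lit 93) (nat_lit 2) (nat_lit 11) (.e true (nat_lit 2688) (nat_lit 94) (nat_lit 2) (nat_lit 11) (.e false (nat_lit 1152) (nat_lit 95) (nat_lit 2) (nat_lit 11) (.e false (nat_lit 1152) (nat_lit 96) (nat_lit 2) (nat_lit 11) (.e false (nat_lit 5760) (nat_lit 97) (nat_lit 2) (nat_lit 11) (.e true (nat_lit 1152) (nat_lit 98) (nat_lit 2) (nat_lit 11) (.e false (nat_lit 3840) (nat_lit 99) (nat_lit 2) (nat_lit 11) (.e true (nat_lit 1152) (nat_lit 100) (nat_lit 2) (nat_lit 11) (.e true (nat_lit 768) (nat_lit 103) (nat_lit 2) (nat_lit 11) (.e true (nat_lit 11520) (nat_lit 104) (nat_lit 2) (nat_lit 11) (.e true (nat_lit 1152) (nat_lit 101) (nat_lit 2) (nat_lit 11) (.e true (nat_lit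 2304) (nat_lit 119) (nat_lit 1) (nat_lit 12) (.e false (nat_lit 2304) (nat_lit 120) (nat_lit 1) (nat_lit 12) (.e false (nat_lit 2304) (nat_lit 121) (nat_lit 1) (nat_lit 12) (.e false (nat_lit 2304) (nat_lit 108) (nat_lit 1) (nat_lit 12) (.e true (nat_lit 4608) (nat_lit 109) (nat_lit 1) (nat_lit 12) (.e false (nat_lit 2304) (nat_lit 112) (nat_lit 1) (nat_lit 12) (.e true (nat_lit 2304) (nat_lit 113) (nat_lit 1) (nat_lit 12) (.e false (nat_lit 3456) (nat_lit 114) (nat_lit 1) (nat_lit 12) (.e true (nat_lit 3456) (nat_lit 116) (nat_lit 1) (nat_lit 12) (.e true (nat_lit 4608) (nat_lit 118) (nat_lit 1) (nat_lit 12) (.e true (nat_lit 2304) (nat_lit 57) (nat_lit 6) (nat_lit 7) .nil)))))))))))))))))))))))))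

noncomputable def dP8_i29 : IL := (.s false (nat_lit 1) (nat_lit 30) (nat_lit 1) (nat_lit 2) (nat_lit 2) true (nat_lit 7) true (nat_lit 11) false (nat_lit 1) true (nat_lit 12) true (nat_lit 11) (.s false (nat_lit 4) (nat_lit 26) (nat_lit 2) (nat_lit 1) (nat_lit 2) true (nat_lit 6) true (nat_lit 11) false (nat_lit 1) true (nat_lit 11) true (nat_lit 12) (.s false (nat_lit 4) (nat_lit 28) (nat_lit 2) (nat_lit 1) (nat_lit 2) true (nat_lit 6) true (nat_lit 11) false (nat_lit 1) true (nat_lit 11) true (nat_lit 12) (.s true (nat_lit 5) (nat_lit 30) (nat_lit 2) (nat_lit 1) (nat_lit 2) true (nat_lit 6) true (nat_lit 11) false (nat_lit 1) true (nat_lit 11) true (nat_lit 12) (.s false (nat_lit 1) (nat_lit 30) (nat_lit 2) (nat_lit 2) (nat_lit 1) true (nat_lit 7) true (nat_lit 12) false (nat_lit 1) true (nat_lit 11) true (nat_lit 11) (.s false (nat_lit 4) (nat_lit 33) (nat_lit 0) (nat_lit 2) (nat_lit 2) true (nat_lit 8) true (nat_lit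 11) false (nat_lit 2) true (nat_lit 13) true (nat_lit 11) (.s false (nat_lit 4) (nat_lit 33) (nat_lit 2) (nat_lit 0) (nat_lit 2) true (nat_lit 6) true (nat_lit 11) false (nat_lit 2) true (nat_lit 11) true (nat_lit 13) (.s true (nat_lit 4) (nat_lit 33) (nat_lit 2) (nat_lit 2) (nat_lit 0) true (nat_lit 8) true (nat_lit 13) false (nat_lit 2) true (nat_lit 11) true (nat_lit 11) (.s true (nat_lit 2) (nat_lit 36) (nat_lit 1) (nat_lit 2) (nat_lit 1) true (nat_lit 9) true (nat_lit 12) false (nat_lit 3) true (nat_lit 12) true (nat_lit 11) (.e false (nat_lit 2304) (nat_lit 48) (nat_lit 7) (nat_lit 6) (.e true (nat_lit 2304) (nat_lit 53) (nat_lit 7) (nat_lit 6) (.e false (nat_lit 2304) (nat_lit 54) (nat_lit 7) (nat_lit 6) (.e true (nat_lit 4608) (nat_lit 117) (nat_lit 1) (nat_lit 12) (.e true (nat_lit 1152) (nat_lit 65) (nat_lit 6) (nat_lit 7) (.e true (nat_lit 9984) (nat_lit 105) (nat_lit 2) (nat_lit 11) (.e false (nat_lit 5376)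 (nat_lit 106) (nat_lit 2) (nat_lit 11) (.e false (nat_lit 4608) (nat_lit 107) (nat_lit 2) (nat_lit 11) (.e true (nat_lit 3072) (nat_lit 82) (nat_lit 2) (nat_lit 11) (.e true (nat_lit 4992) (nat_lit 83) (nat_lit 2) (nat_lit 11) (.e true (nat_lit 4992) (nat_lit 84) (nat_lit 2) (nat_lit 11) (.e true (nat_lit 2304) (nat_lit 85) (nat_lit 2) (nat_lit 11) (.e false (nat_lit 13440) (nat_lit 86) (nat_lit 2) (nat_lit 11) (.e true (nat_lit 384) (nat_lit 87) (nat_lit 2) (nat_lit 11) (.e false (nat_lit 10752) (nat_lit 88) (nat_lit 2) (nat_lit 11) (.e false (nat_lit 384) (nat_lit 89) (nat_lit 2) (nat_lit 11) dP8_i28)))))))))))))))))))))))))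

noncomputable def dP8_i30 : IL := (.s false (nat_lit 2) (nat_lit 7) (nat_lit 1) (nat_lit 7) (nat_lit 3) true (nat_lit 5) true (nat_lit 10) true (nat_lit 6) true (nat_lit 12) true (nat_lit 6) (.s true (nat_lit 4) (nat_lit 7) (nat_lit 6) (nat_lit 2) (nat_lit 3) false (nat_lit 0) true (nat_lit 10) true (nat_lit 6) true (nat_lit 7) true (nat_lit 11) (.s false (nat_lit 4) (nat_lit 8) (nat_lit 2) (nat_lit 2) (nat_lit 7) true (nat_lit 0) true (nat_lit 6) true (nat_lit 5) true (nat_lit 11) true (nat_lit 11) (.s true (nat_lit 4) (nat_lit 10) (nat_lit 2) (nat_lit 1) (nat_lit 7) true (nat_lit 0) true (nat_lit 6) true (nat_lit 4) true (nat_lit 11) true (nat_lit 12) (.s false (nat_lit 2) (nat_lit 10) (nat_lit 2) (nat_lit 2) (nat_lit 6) true (nat_lit 1) true (nat_lit 7) true (nat_lit 4) true (nat_lit 11) true (nat_lit 11) (.s true (nat_lit 6) (nat_lit 10) (nat_lit 2) (nat_lit 6) (nat_lit 2) true (nat_lit 6) true (nat_lit 11) true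 (nat_lit 4) true (nat_lit 11) true (nat_lit 7) (.s true (nat_lit 6) (nat_lit 10) (nat_lit 6) (nat_lit 2) (nat_lit 2) true (nat_lit 1) true (nat_lit 11) true (nat_lit 4) true (nat_lit 7) true (nat_lit 11) (.s false (nat_lit 6) (nat_lit 10) (nat_lit 7) (nat_lit 2) (nat_lit 1) true (nat_lit 1) true (nat_lit 12) true (nat_lit 4) true (nat_lit 6) true (nat_lit 11) (.s true (nat_lit 4) (nat_lit 14) (nat_lit 0) (nat_lit 7) (nat_lit 2) true (nat_lit 8) true (nat_lit 11) true (nat_lit 3) true (nat_lit 13) true (nat_lit 6) (.s true (nat_lit 4) (nat_lit 14) (nat_lit 5) (nat_lit 2) (nat_lit 2) true (nat_lit 2) true (nat_lit 11) true (nat_lit 3) true (nat_lit 8) true (nat_lit 11) (.s false (nat_lit 1) (nat_lit 16) (nat_lit 1) (nat_lit 1) (nat_lit 7) true (nat_lit 1) true (nat_lit 6) true (nat_lit 2) true (nat_lit 12) true (nat_lit 12) (.s true (nat_lit 2) (nat_lit 16) (nat_lit 1) (nat_lit 2) (nat_lit 6) true (nat_lit 3) true (nat_lit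 7) true (nat_lit 2) true (nat_lit 12) true (nat_lit 11) (.s true (nat_lit 4) (nat_lit 15) (nat_lit 1) (nat_lit 6) (nat_lit 2) true (nat_lit 7) true (nat_lit 11) true (nat_lit 2) true (nat_lit 12) true (nat_lit 7) (.s false (nat_lit 4) (nat_lit 16) (nat_lit 2) (nat_lit 1) (nat_lit 6) true (nat_lit 1) true (nat_lit 7) true (nat_lit 2) true (nat_lit 11) true (nat_lit 12) (.s false (nat_lit 2) (nat_lit 16) (nat_lit 2) (nat_lit 4) (nat_lit 2) true (nat_lit 6) true (nat_lit 11) true (nat_lit 2) true (nat_lit 11) true (nat_lit 9) (.s false (nat_lit 4) (nat_lit 15) (nat_lit 2) (nat_lit 6) (nat_lit 1) true (nat_lit 7) true (nat_lit 12) true (nat_lit 2) true (nat_lit 11) true (nat_lit 7) (.s false (nat_lit 4) (nat_lit 15) (nat_lit 6) (nat_lit 2) (nat_lit 1) true (nat_lit 3) true (nat_lit 12) true (nat_lit 2) true (nat_lit 7) true (nat_lit 11) (.s true (nat_lit 2) (nat_lit 16) (nat_lit 7) (nat_lit 1) (nat_lit 1) true (nat_lit 1)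 true (nat_lit 12) true (nat_lit 2) true (nat_lit 6) true (nat_lit 12) (.s true (nat_lit 6) (nat_lit 18) (nat_lit 2) (nat_lit 2) (nat_lit 3) true (nat_lit 4) true (nat_lit 10) true (nat_lit 1) true (nat_lit 11) true (nat_lit 11) (.s true (nat_lit 6) (nat_lit 18) (nat_lit 2) (nat_lit 3) (nat_lit 2) true (nat_lit 6) true (nat_lit 11) true (nat_lit 1) true (nat_lit 11) true (nat_lit 10) (.s false (nat_lit 4) (nat_lit 22) (nat_lit 2) (nat_lit 2) (nat_lit 2) true (nat_lit 6) true (nat_lit 11) false (nat_lit 0) true (nat_lit 11) true (nat_lit 11) (.s true (nat_lit 4) (nat_lit 23) (nat_lit 2) (nat_lit 2) (nat_lit 2) true (nat_lit 6) true (nat_lit 11) false (nat_lit 0) true (nat_lit 11) true (nat_lit 11) (.s true (nat_lit 4) (nat_lit 24) (nat_lit 2) (nat_lit 2) (nat_lit 2) true (nat_lit 6) true (nat_lit 11) false (nat_lit 0) true (nat_lit 11) true (nat_lit 11) (.s true (nat_lit 4) (nat_lit 25) (nat_lit 2) (nat_lit 2) (nat_lit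 2) true (nat_lit 6) true (nat_lit 11) false (nat_lit 0) true (nat_lit 11) true (nat_lit 11) (.s true (nat_lit 4) (nat_lit 28) (nat_lit 1) (nat_lit 2) (nat_lit 2) true (nat_lit 7) true (nat_lit 11) false (nat_lit 1) true (nat_lit 12) true (nat_lit 11) dP8_i29)))))))))))))))))))))))))

noncomputable def dP8_i31 : IL := (.e false (nat_lit 18432) (nat_lit 88) (nat_lit 2) (nat_lit 11) (.e false (nat_lit 11520) (nat_lit 89) (nat_lit 2) (nat_lit 11) (.e true (nat_lit 11520) (nat_lit 90) (nat_lit 2) (nat_lit 11) (.e false (nat_lit 27648) (nat_lit 91) (nat_lit 2) (nat_lit 11) (.e false (nat_lit 2304) (nat_lit 92) (nat_lit 2) (nat_lit 11) (.e false (nat_lit 18432) (nat_lit 93) (nat_lit 2) (nat_lit 11) (.e true (nat_lit 4608) (nat_lit 94) (nat_lit 2) (nat_lit 11) (.e false (nat_lit 11520) (nat_lit 95) (nat_lit 2) (nat_lit 11) (.e true (nat_lit 13824) (nat_lit 97) (nat_lit 2) (nat_lit 11) (.e false (nat_lit 18432) (nat_lit 98) (nat_lit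 2) (nat_lit 11) (.e true (nat_lit 2304) (nat_lit 99) (nat_lit 2) (nat_lit 11) (.e false (nat_lit 9216) (nat_lit 100) (nat_lit 2) (nat_lit 11) (.e false (nat_lit 9216) (nat_lit 101) (nat_lit 2) (nat_lit 11) (.e true (nat_lit 4608) (nat_lit 102) (nat_lit 2) (nat_lit 11) (.e true (nat_lit 57600) (nat_lit 104) (nat_lit 2) (nat_lit 11) (.e true (nat_lit 36864) (nat_lit 105) (nat_lit 2) (nat_lit 11) (.e false (nat_lit 9216) (nat_lit 106) (nat_lit 2) (nat_lit 11) (.e true (nat_lit 9216) (nat_lit 65) (nat_lit 6) (nat_lit 7) (.e false (nat_lit 18432) (nat_lit 107) (nat_lit 2) (nat_lit 11) (.e true (nat_lit 4608) (nat_lit 109) (nat_lit 1) (nat_lit 12) (.e true (nat_lit 9216) (nat_lit 120) (nat_lit 1) (nat_lit 12) (.e false (nat_lit 2304) (nat_lit 121) (nat_lit 1) (nat_lit 12) (.e false (nat_lit 4608) (nat_lit 114) (nat_lit 1) (nat_lit 12) (.e true (nat_lit 4608) (nat_lit 116) (nat_lit 1) (nat_lit 12) (.e true (nat_lit 9216) (nat_lit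 118) (nat_lit 1) (nat_lit 12) .nil)))))))))))))))))))))))))

noncomputable def dP8_i32 : IL := (.s true (nat_lit 12) (nat_lit 30) (nat_lit 2) (nat_lit 1) (nat_lit 2) true (nat_lit 6) true (nat_lit 11) false (nat_lit 1) true (nat_lit 11) true (nat_lit 12) (.s false (nat_lit 8) (nat_lit 26) (nat_lit 2) (nat_lit 2) (nat_lit 1) true (nat_lit 7) true (nat_lit 12) false (nat_lit 1) true (nat_lit 11) true (nat_lit 11) (.s false (nat_lit 8) (nat_lit 27) (nat_lit 2) (nat_lit 2) (nat_lit 1) true (nat_lit 7) true (nat_lit 12) false (nat_lit 1) true (nat_lit 11) true (nat_lit 11) (.s true (nat_lit 16) (nat_lit 32) (nat_lit 0) (nat_lit 2) (nat_lit 2) true (nat_lit 8) true (nat_lit 11) false (nat_lit 2) true (nat_lit 13) true (nat_lit 11) (.s false (nat_lit 6) (nat_lit 33) (nat_lit 0) (nat_lit 2) (nat_lit 2) true (nat_lit 8) true (nat_lit 11) false (nat_lit 2) true (nat_lit 13) true (nat_lit 11) (.s false (nat_lit 2) (nat_lit 34)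 (nat_lit 0) (nat_lit 2) (nat_lit 2) true (nat_lit 8) true (nat_lit 11) false (nat_lit 2) true (nat_lit 13) true (nat_lit 11) (.s false (nat_lit 14) (nat_lit 33) (nat_lit 2) (nat_lit 0) (nat_lit 2) true (nat_lit 6) true (nat_lit 11) false (nat_lit 2) true (nat_lit 11) true (nat_lit 13) (.s true (nat_lit 6) (nat_lit 34) (nat_lit 2) (nat_lit 0) (nat_lit 2) true (nat_lit 6) true (nat_lit 11) false (nat_lit 2) true (nat_lit 11) true (nat_lit 13) (.s true (nat_lit 6) (nat_lit 33) (nat_lit 2) (nat_lit 2) (nat_lit 0) true (nat_lit 8) true (nat_lit 13) false (nat_lit 2) true (nat_lit 11) true (nat_lit 11) (.s true (nat_lit 2) (nat_lit 34) (nat_lit 2) (nat_lit 2) (nat_lit 0) true (nat_lit 8) true (nat_lit 13) false (nat_lit 2) true (nat_lit 11) true (nat_lit 11) (.s true (nat_lit 4) (nat_lit 36) (nat_lit 1) (nat_lit 2) (nat_lit 1) true (nat_lit 9) true (nat_lit 12) false (nat_lit 3) true (nat_lit 12) true (nat_lit 11) (.s false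 (nat_lit 8) (nat_lit 40) (nat_lit 0) (nat_lit 2) (nat_lit 1) true (nat_lit 10) true (nat_lit 12) false (nat_lit 4) true (nat_lit 13) true (nat_lit 11) (.s true (nat_lit 16) (nat_lit 39) (nat_lit 1) (nat_lit 0) (nat_lit 2) true (nat_lit 7) true (nat_lit 11) false (nat_lit 4) true (nat_lit 12) true (nat_lit 13) (.e true (nat_lit 4608) (nat_lit 57) (nat_lit 6) (nat_lit 7) (.e false (nat_lit 13824) (nat_lit 48) (nat_lit 7) (nat_lit 6) (.e true (nat_lit 16128) (nat_lit 53) (nat_lit 7) (nat_lit 6) (.e false (nat_lit 16128) (nat_lit 54) (nat_lit 7) (nat_lit 6) (.e true (nat_lit 9216) (nat_lit 129) (nat_lit 0) (nat_lit 13) (.e false (nat_lit 9216) (nat_lit 51) (nat_lit 7) (nat_lit 6) (.e false (nat_lit 4608) (nat_lit 117) (nat_lit 1) (nat_lit 12) (.e true (nat_lit 6912) (nat_lit 82) (nat_lit 2) (nat_lit 11) (.e true (nat_lit 9216) (nat_lit 83) (nat_lit 2) (nat_lit 11) (.e true (nat_lit 16128) (nat_lit 85) (nat_lit 2) (nat_lit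 11) (.e false (nat_lit 32256) (nat_lit 86) (nat_lit 2) (nat_lit 11) (.e true (nat_lit 20736) (nat_lit 87) (nat_lit 2) (nat_lit 11) dP8_i31)))))))))))))))))))))))))

noncomputable def dP8_i33 : IL := (.s false (nat_lit 4) (nat_lit 10) (nat_lit 7) (nat_lit 2) (nat_lit 1) true (nat_lit 1) true (nat_lit 12) true (nat_lit 4) true (nat_lit 6) true (nat_lit 11) (.s true (nat_lit 8) (nat_lit 11) (nat_lit 7) (nat_lit 2) (nat_lit 1) true (nat_lit 1) true (nat_lit 12) true (nat_lit 4) true (nat_lit 6) true (nat_lit 11) (.s true (nat_lit 8) (nat_lit 13) (nat_lit 0) (nat_lit 2) (nat_lit 7) true (nat_lit 2) true (nat_lit 6) true (nat_lit 3) true (nat_lit 13) true (nat_lit 11) (.s false (nat_lit 8) (nat_lit 13) (nat_lit 2) (nat_lit 0) (nat_lit 7) true (nat_lit 0) true (nat_lit 6) true (nat_lit 3) true (nat_lit 11) true (nat_lit 13) (.s false (nat_lit 16) (nat_lit 13) (nat_lit 2) (nat_lit 2) (nat_lit 5) true (nat_lit 2) true (nat_lit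 8) true (nat_lit 3) true (nat_lit 11) true (nat_lit 11) (.s false (nat_lit 4) (nat_lit 13) (nat_lit 5) (nat_lit 2) (nat_lit 2) true (nat_lit 2) true (nat_lit 11) true (nat_lit 3) true (nat_lit 8) true (nat_lit 11) (.s false (nat_lit 10) (nat_lit 16) (nat_lit 1) (nat_lit 1) (nat_lit 7) true (nat_lit 1) true (nat_lit 6) true (nat_lit 2) true (nat_lit 12) true (nat_lit 12) (.s false (nat_lit 4) (nat_lit 16) (nat_lit 1) (nat_lit 2) (nat_lit 6) true (nat_lit 3) true (nat_lit 7) true (nat_lit 2) true (nat_lit 12) true (nat_lit 11) (.s false (nat_lit 10) (nat_lit 16) (nat_lit 1) (nat_lit 7) (nat_lit 1) true (nat_lit 9) true (nat_lit 12) true (nat_lit 2) true (nat_lit 12) true (nat_lit 6) (.s false (nat_lit 4) (nat_lit 16) (nat_lit 2) (nat_lit 4) (nat_lit 2) true (nat_lit 6) true (nat_lit 11) true (nat_lit 2) true (nat_lit 11) true (nat_lit 9) (.s true (nat_lit 4) (nat_lit 15) (nat_lit 4) (nat_lit 2) (nat_lit 2) true (nat_lit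 3) true (nat_lit 11) true (nat_lit 2) true (nat_lit 9) true (nat_lit 11) (.s false (nat_lit 16) (nat_lit 16) (nat_lit 6) (nat_lit 1) (nat_lit 2) true (nat_lit 1) true (nat_lit 11) true (nat_lit 2) true (nat_lit 7) true (nat_lit 12) (.s true (nat_lit 10) (nat_lit 16) (nat_lit 7) (nat_lit 1) (nat_lit 1) true (nat_lit 1) true (nat_lit 12) true (nat_lit 2) true (nat_lit 6) true (nat_lit 12) (.s false (nat_lit 8) (nat_lit 18) (nat_lit 0) (nat_lit 1) (nat_lit 7) true (nat_lit 2) true (nat_lit 6) true (nat_lit 1) true (nat_lit 13) true (nat_lit 12) (.s false (nat_lit 8) (nat_lit 17) (nat_lit 0) (nat_lit 2) (nat_lit 6) true (nat_lit 4) true (nat_lit 7) true (nat_lit 1) true (nat_lit 13) true (nat_lit 11) (.s false (nat_lit 8) (nat_lit 17) (nat_lit 0) (nat_lit 6) (nat_lit 2) true (nat_lit 8) true (nat_lit 11) true (nat_lit 1) true (nat_lit 13) true (nat_lit 7) (.s true (nat_lit 20) (nat_lit 18) (nat_lit 2) (nat_lit 2) (nat_lit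 3) true (nat_lit 4) true (nat_lit 10) true (nat_lit 1) true (nat_lit 11) true (nat_lit 11) (.s true (nat_lit 12) (nat_lit 18) (nat_lit 2) (nat_lit 3) (nat_lit 2) true (nat_lit 6) true (nat_lit 11) true (nat_lit 1) true (nat_lit 11) true (nat_lit 10) (.s false (nat_lit 4) (nat_lit 22) (nat_lit 2) (nat_lit 2) (nat_lit 2) true (nat_lit 6) true (nat_lit 11) false (nat_lit 0) true (nat_lit 11) true (nat_lit 11) (.s true (nat_lit 24) (nat_lit 23) (nat_lit 2) (nat_lit 2) (nat_lit 2) true (nat_lit 6) true (nat_lit 11) false (nat_lit 0) true (nat_lit 11) true (nat_lit 11) (.s true (nat_lit 24) (nat_lit 24) (nat_lit 2) (nat_lit 2) (nat_lit 2) true (nat_lit 6) true (nat_lit 11) false (nat_lit 0) true (nat_lit 11) true (nat_lit 11) (.s true (nat_lit 16) (nat_lit 25) (nat_lit 2) (nat_lit 2) (nat_lit 2) true (nat_lit 6) true (nat_lit 11) false (nat_lit 0) true (nat_lit 11) true (nat_lit 11) (.s true (nat_lit 4) (nat_lit 30) (nat_lit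 1) (nat_lit 2) (nat_lit 2) true (nat_lit 7) true (nat_lit 11) false (nat_lit 1) true (nat_lit 12) true (nat_lit 11) (.s false (nat_lit 24) (nat_lit 26) (nat_lit 2) (nat_lit 1) (nat_lit 2) true (nat_lit 6) true (nat_lit 11) false (nat_lit 1) true (nat_lit 11) true (nat_lit 12) (.s false (nat_lit 16) (nat_lit 28) (nat_lit 2) (nat_lit 1) (nat_lit 2) true (nat_lit 6) true (nat_lit 11) false (nat_lit 1) true (nat_lit 11) true (nat_lit 12) dP8_i32)))))))))))))))))))))))))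

noncomputable def dP8_i34 : IL := (.e false (nat_lit 2880) (nat_lit 100) (nat_lit 2) (nat_lit 11) (.e false (nat_lit 13440) (nat_lit 83) (nat_lit 2) (nat_lit 11) (.e false (nat_lit 19200) (nat_lit 84) (nat_lit 2) (nat_lit 11) (.e false (nat_lit 11520) (nat_lit 85) (nat_lit 2) (nat_lit 11) (.e false (nat_lit 4224) (nat_lit 87) (nat_lit 2) (nat_lit 11) (.e true (nat_lit 3072) (nat_lit 88) (nat_lit 2) (nat_lit 11) (.e true (nat_lit 14208) (nat_lit 91) (nat_lit 2) (nat_lit 11) (.e true (nat_lit 8448) (nat_lit 93) (nat_lit 2) (nat_lit 11) (.e true (nat_lit 4992) (nat_lit 94) (nat_lit 2) (nat_lit 11) (.e true (nat_lit 7104) (nat_lit 99) (nat_lit 2) (nat_lit 11) (.e true (nat_lit 6528) (nat_lit 103) (nat_lit 2) (nat_lit 11) (.e false (nat_lit 7296) (nat_lit 105) (nat_lit 2) (nat_lit 11) (.e true (nat_lit 7296) (nat_lit 106) (nat_lit 2) (nat_lit 11) (.e true (nat_lit 6912) (nat_lit 119) (nat_lit 1) (nat_lit 12) (.e false (nat_lit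 6912) (nat_lit 120) (nat_lit 1) (nat_lit 12) (.e false (nat_lit 2304) (nat_lit 121) (nat_lit 1) (nat_lit 12) (.e true (nat_lit 11520) (nat_lit 108) (nat_lit 1) (nat_lit 12) (.e false (nat_lit 11520) (nat_lit 109) (nat_lit 1) (nat_lit 12) (.e false (nat_lit 9216) (nat_lit 112) (nat_lit 1) (nat_lit 12) (.e false (nat_lit 11520) (nat_lit 113) (nat_lit 1) (nat_lit 12) (.e true (nat_lit 5760) (nat_lit 114) (nat_lit 1) (nat_lit 12) (.e false (nat_lit 5760) (nat_lit 116) (nat_lit 1) (nat_lit 12) (.e true (nat_lit 5760) (nat_lit 102) (nat_lit 2) (nat_lit 11) (.e true (nat_lit 5760) (nat_lit 107) (nat_lit 2) (nat_lit 11) (.e false (nat_lit 5760) (nat_lit 92) (nat_lit 2) (nat_lit 11) .nil)))))))))))))))))))))))))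

noncomputable def dP8_i35 : IL := (.s true (nat_lit 5) (nat_lit 30) (nat_lit 1) (nat_lit 2) (nat_lit 2) true (nat_lit 7) true (nat_lit 11) false (nat_lit 1) true (nat_lit 12) true (nat_lit 11) (.s false (nat_lit 5) (nat_lit 30) (nat_lit 2) (nat_lit 1) (nat_lit 2) true (nat_lit 6) true (nat_lit 11) false (nat_lit 1) true (nat_lit 11) true (nat_lit 12) (.s false (nat_lit 3) (nat_lit 30) (nat_lit 2) (nat_lit 2) (nat_lit 1) true (nat_lit 7) true (nat_lit 12) false (nat_lit 1) true (nat_lit 11) true (nat_lit 11) (.s false (nat_lit 8) (nat_lit 32) (nat_lit 0) (nat_lit 2) (nat_lit 2) true (nat_lit 8) true (nat_lit 11) false (nat_lit 2) true (nat_lit 13) true (nat_lit 11) (.s true (nat_lit 4) (nat_lit 33) (nat_lit 0) (nat_lit 2) (nat_lit 2) true (nat_lit 8) true (nat_lit 11) false (nat_lit 2) true (nat_lit 13) true (nat_lit 11) (.s true (nat_lit 4) (nat_lit 33) (nat_lit 2) (nat_lit 0) (nat_lit 2) true (nat_lit 6) true (nat_lit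 11) false (nat_lit 2) true (nat_lit 11) true (nat_lit 13) (.s false (nat_lit 4) (nat_lit 33) (nat_lit 2) (nat_lit 2) (nat_lit 0) true (nat_lit 8) true (nat_lit 13) false (nat_lit 2) true (nat_lit 11) true (nat_lit 11) (.s true (nat_lit 2) (nat_lit 36) (nat_lit 1) (nat_lit 2) (nat_lit 1) true (nat_lit 9) true (nat_lit 12) false (nat_lit 3) true (nat_lit 12) true (nat_lit 11) (.e true (nat_lit 2304) (nat_lit 54) (nat_lit 7) (nat_lit 6) (.e false (nat_lit 4608) (nat_lit 125) (nat_lit 0) (nat_lit 13) (.e true (nat_lit 4608) (nat_lit 126) (nat_lit 0) (nat_lit 13) (.e false (nat_lit 2304) (nat_lit 129) (nat_lit 0) (nat_lit 13) (.e false (nat_lit 2304) (nat_lit 51) (nat_lit 7) (nat_lit 6) (.e true (nat_lit 3456) (nat_lit 117) (nat_lit 1) (nat_lit 12) (.e true (nat_lit 11136) (nat_lit 82) (nat_lit 2) (nat_lit 11) (.e true (nat_lit 4992) (nat_lit 86) (nat_lit 2) (nat_lit 11) (.e false (nat_lit 1152) (nat_lit 95) (nat_lit 2) (nat_lit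 11) (.e true (nat_lit 8064) (nat_lit 104) (nat_lit 2) (nat_lit 11) (.e false (nat_lit 6144) (nat_lit 89) (nat_lit 2) (nat_lit 11) (.e false (nat_lit 2304) (nat_lit 65) (nat_lit 6) (nat_lit 7) (.e false (nat_lit 2688) (nat_lit 90) (nat_lit 2) (nat_lit 11) (.e false (nat_lit 2304) (nat_lit 131) (nat_lit 0) (nat_lit 13) (.e false (nat_lit 3456) (nat_lit 96) (nat_lit 2) (nat_lit 11) (.e true (nat_lit 7488) (nat_lit 97) (nat_lit 2) (nat_lit 11) (.e false (nat_lit 9792) (nat_lit 98) (nat_lit 2) (nat_lit 11) dP8_i34)))))))))))))))))))))))))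

noncomputable def dP8_i36 : IL := (.e false (nat_lit 9216) (nat_lit 90) (nat_lit 2) (nat_lit 11) (.e true (nat_lit 20736) (nat_lit 91) (nat_lit 2) (nat_lit 11) (.e false (nat_lit 9216) (nat_lit 92) (nat_lit 2) (nat_lit 11) (.e true (nat_lit 4608) (nat_lit 93) (nat_lit 2) (nat_lit 11) (.e true (nat_lit 6912) (nat_lit 94) (nat_lit 2) (nat_lit 11) (.e true (nat_lit 41472) (nat_lit 95) (nat_lit 2) (nat_lit 11) (.e true (nat_lit 6912) (nat_lit 96) (nat_lit 2) (nat_lit 11) (.e false (nat_lit 1152) (nat_lit 97) (nat_lit 2) (nat_lit 11) (.e false (nat_lit 35712) (nat_lit 98) (nat_lit 2) (nat_lit 11) (.e true (nat_lit 3456) (nat_lit 99) (nat_lit 2) (nat_lit 11) (.e true (nat_lit 1152) (nat_lit 100) (nat_lit 2) (nat_lit 11) (.e true (nat_lit 2304) (nat_lit 102) (nat_lit 2) (nat_lit 11) (.e true (nat_lit 4608) (nat_lit 103) (nat_lit 2) (nat_lit 11) (.e false (nat_lit 64512) (nat_lit 104) (nat_lit 2) (nat_lit 11) (.e false (nat_lit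 13824) (nat_lit 119) (nat_lit 1) (nat_lit 12) (.e true (nat_lit 9216) (nat_lit 120) (nat_lit 1) (nat_lit 12) (.e false (nat_lit 4608) (nat_lit 121) (nat_lit 1) (nat_lit 12) (.e false (nat_lit 36864) (nat_lit 108) (nat_lit 1) (nat_lit 12) (.e true (nat_lit 32256) (nat_lit 109) (nat_lit 1) (nat_lit 12) (.e true (nat_lit 41472) (nat_lit 112) (nat_lit 1) (nat_lit 12) (.e true (nat_lit 41472) (nat_lit 113) (nat_lit 1) (nat_lit 12) (.e false (nat_lit 16128) (nat_lit 114) (nat_lit 1) (nat_lit 12) (.e true (nat_lit 16128) (nat_lit 116) (nat_lit 1) (nat_lit 12) (.e false (nat_lit 4608) (nat_lit 118) (nat_lit 1) (nat_lit 12) (.e false (nat_lit 4608) (nat_lit 57) (nat_lit 6) (nat_lit 7) .nil)))))))))))))))))))))))))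

noncomputable def dP8_i37 : IL := (.s false (nat_lit 2) (nat_lit 34) (nat_lit 0) (nat_lit 2) (nat_lit 2) true (nat_lit 8) true (nat_lit 11) false (nat_lit 2) true (nat_lit 13) true (nat_lit 11) (.s false (nat_lit 6) (nat_lit 33) (nat_lit 2) (nat_lit 0) (nat_lit 2) true (nat_lit 6) true (nat_lit 11) false (nat_lit 2) true (nat_lit 11) true (nat_lit 13) (.s false (nat_lit 2) (nat_lit 34) (nat_lit 2) (nat_lit 0) (nat_lit 2) true (nat_lit 6) true (nat_lit 11) false (nat_lit 2) true (nat_lit 11) true (nat_lit 13) (.s true (nat_lit 14) (nat_lit 33) (nat_lit 2) (nat_lit 2) (nat_lit 0) true (nat_lit 8) true (nat_lit 13) false (nat_lit 2) true (nat_lit 11) true (nat_lit 11) (.s false (nat_lit 6) (nat_lit 34) (nat_lit 2) (nat_lit 2) (nat_lit 0) true (nat_lit 8) true (nat_lit 13) false (nat_lit 2) true (nat_lit 11) true (nat_lit 11) (.s true (nat_lit 4) (nat_lit 36) (nat_lit 1) (nat_lit 2) (nat_lit 1) true (nat_lit 9) true (nat_lit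 12) false (nat_lit 3) true (nat_lit 12) true (nat_lit 11) (.s true (nat_lit 4) (nat_lit 40) (nat_lit 0) (nat_lit 1) (nat_lit 2) true (nat_lit 8) true (nat_lit 11) false (nat_lit 4) true (nat_lit 13) true (nat_lit 12) (.s true (nat_lit 4) (nat_lit 40) (nat_lit 0) (nat_lit 2) (nat_lit 1) true (nat_lit 10) true (nat_lit 12) false (nat_lit 4) true (nat_lit 13) true (nat_lit 11) (.e true (nat_lit 4608) (nat_lit 48) (nat_lit 7) (nat_lit 6) (.e true (nat_lit 4608) (nat_lit 53) (nat_lit 7) (nat_lit 6) (.e true (nat_lit 9216) (nat_lit 125) (nat_lit 0) (nat_lit 13) (.e false (nat_lit 9216) (nat_lit 126) (nat_lit 0) (nat_lit 13) (.e false (nat_lit 4608) (nat_lit 51) (nat_lit 7) (nat_lit 6) (.e false (nat_lit 2304) (nat_lit 117) (nat_lit 1) (nat_lit 12) (.e true (nat_lit 11520) (nat_lit 105) (nat_lit 2) (nat_lit 11) (.e false (nat_lit 20736) (nat_lit 106) (nat_lit 2) (nat_lit 11) (.e true (nat_lit 16128) (nat_lit 107) (nat_lit 2)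 (nat_lit 11) (.e false (nat_lit 18432) (nat_lit 82) (nat_lit 2) (nat_lit 11) (.e false (nat_lit 20736) (nat_lit 83) (nat_lit 2) (nat_lit 11) (.e false (nat_lit 27648) (nat_lit 84) (nat_lit 2) (nat_lit 11) (.e false (nat_lit 20736) (nat_lit 85) (nat_lit 2) (nat_lit 11) (.e true (nat_lit 52992) (nat_lit 86) (nat_lit 2) (nat_lit 11) (.e true (nat_lit 9216) (nat_lit 87) (nat_lit 2) (nat_lit 11) (.e false (nat_lit 46080) (nat_lit 88) (nat_lit 2) (nat_lit 11) (.e true (nat_lit 39168) (nat_lit 89) (nat_lit 2) (nat_lit 11) dP8_i36)))))))))))))))))))))))))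

noncomputable def dP8_i38 : IL := (.s true (nat_lit 4) (nat_lit 7) (nat_lit 1) (nat_lit 3) (nat_lit 7) true (nat_lit 1) true (nat_lit 6) true (nat_lit 6) true (nat_lit 12) true (nat_lit 10) (.s true (nat_lit 8) (nat_lit 7) (nat_lit 1) (nat_lit 7) (nat_lit 3) true (nat_lit 5) true (nat_lit 10) true (nat_lit 6) true (nat_lit 12) true (nat_lit 6) (.s false (nat_lit 12) (nat_lit 7) (nat_lit 6) (nat_lit 2) (nat_lit 3) false (nat_lit 0) true (nat_lit 10) true (nat_lit 6) true (nat_lit 7) true (nat_lit 11) (.s true (nat_lit 12) (nat_lit 8) (nat_lit 2) (nat_lit 2) (nat_lit 7) true (nat_lit 0) true (nat_lit 6) true (nat_lit 5) true (nat_lit 11) true (nat_lit 11) (.s true (nat_lit 4) (nat_lit 10) (nat_lit 2) (nat_lit 2) (nat_lit 6) true (nat_lit 1) true (nat_lit 7) true (nat_lit 4) true (nat_lit 11) true (nat_lit 11) (.s false (nat_lit 12) (nat_lit 10) (nat_lit 2) (nat_lit 6) (nat_lit 2) true (nat_lit 6) true (nat_lit 11) true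 (nat_lit 4) true (nat_lit 11) true (nat_lit 7) (.s false (nat_lit 12) (nat_lit 10) (nat_lit 6) (nat_lit 2) (nat_lit 2) true (nat_lit 1) true (nat_lit 11) true (nat_lit 4) true (nat_lit 7) true (nat_lit 11) (.s false (nat_lit 4) (nat_lit 13) (nat_lit 5) (nat_lit 2) (nat_lit 2) true (nat_lit 2) true (nat_lit 11) true (nat_lit 3) true (nat_lit 8) true (nat_lit 11) (.s false (nat_lit 6) (nat_lit 16) (nat_lit 1) (nat_lit 1) (nat_lit 7) true (nat_lit 1) true (nat_lit 6) true (nat_lit 2) true (nat_lit 12) true (nat_lit 12) (.s false (nat_lit 4) (nat_lit 16) (nat_lit 1) (nat_lit 2) (nat_lit 6) true (nat_lit 3) true (nat_lit 7) true (nat_lit 2) true (nat_lit 12) true (nat_lit 11) (.s false (nat_lit 2) (nat_lit 16) (nat_lit 1) (nat_lit 7) (nat_lit 1) true (nat_lit 9) true (nat_lit 12) true (nat_lit 2) true (nat_lit 12) true (nat_lit 6) (.s false (nat_lit 4) (nat_lit 16) (nat_lit 2) (nat_lit 4) (nat_lit 2) true (nat_lit 6) true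 (nat_lit 11) true (nat_lit 2) true (nat_lit 11) true (nat_lit 9) (.s true (nat_lit 4) (nat_lit 15) (nat_lit 4) (nat_lit 2) (nat_lit 2) true (nat_lit 3) true (nat_lit 11) true (nat_lit 2) true (nat_lit 9) true (nat_lit 11) (.s true (nat_lit 2) (nat_lit 16) (nat_lit 7) (nat_lit 1) (nat_lit 1) true (nat_lit 1) true (nat_lit 12) true (nat_lit 2) true (nat_lit 6) true (nat_lit 12) (.s false (nat_lit 4) (nat_lit 18) (nat_lit 2) (nat_lit 2) (nat_lit 3) true (nat_lit 4) true (nat_lit 10) true (nat_lit 1) true (nat_lit 11) true (nat_lit 11) (.s true (nat_lit 4) (nat_lit 19) (nat_lit 1) (nat_lit 5) (nat_lit 1) true (nat_lit 9) true (nat_lit 12) true (nat_lit 0) true (nat_lit 12) true (nat_lit 8) (.s false (nat_lit 4) (nat_lit 19) (nat_lit 5) (nat_lit 1) (nat_lit 1) true (nat_lit 4) true (nat_lit 12) true (nat_lit 0) true (nat_lit 8) true (nat_lit 12) (.s false (nat_lit 12) (nat_lit 23) (nat_lit 2) (nat_lit 2) (nat_lit 2) true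 (nat_lit 6) true (nat_lit 11) false (nat_lit 0) true (nat_lit 11) true (nat_lit 11) (.s false (nat_lit 12) (nat_lit 24) (nat_lit 2) (nat_lit 2) (nat_lit 2) true (nat_lit 6) true (nat_lit 11) false (nat_lit 0) true (nat_lit 11) true (nat_lit 11) (.s false (nat_lit 12) (nat_lit 25) (nat_lit 2) (nat_lit 2) (nat_lit 2) true (nat_lit 6) true (nat_lit 11) false (nat_lit 0) true (nat_lit 11) true (nat_lit 11) (.s true (nat_lit 8) (nat_lit 26) (nat_lit 1) (nat_lit 2) (nat_lit 2) true (nat_lit 7) true (nat_lit 11) false (nat_lit 1) true (nat_lit 12) true (nat_lit 11) (.s false (nat_lit 8) (nat_lit 27) (nat_lit 1) (nat_lit 2) (nat_lit 2) true (nat_lit 7) true (nat_lit 11) false (nat_lit 1) true (nat_lit 12) true (nat_lit 11) (.s true (nat_lit 8) (nat_lit 27) (nat_lit 2) (nat_lit 1) (nat_lit 2) true (nat_lit 6) true (nat_lit 11) false (nat_lit 1) true (nat_lit 11) true (nat_lit 12) (.s true (nat_lit 4) (nat_lit 30) (nat_lit 2)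 (nat_lit 2) (nat_lit 1) true (nat_lit 7) true (nat_lit 12) false (nat_lit 1) true (nat_lit 11) true (nat_lit 11) (.s false (nat_lit 6) (nat_lit 33) (nat_lit 0) (nat_lit 2) (nat_lit 2) true (nat_lit 8) true (nat_lit 11) false (nat_lit 2) true (nat_lit 13) true (nat_lit 11) dP8_i37)))))))))))))))))))))))))

noncomputable def dP8_i39 : IL := (.e false (nat_lit 2304) (nat_lit 92) (nat_lit 2) (nat_lit 11) (.e true (nat_lit 3072) (nat_lit 93) (nat_lit 2) (nat_lit 11) (.e true (nat_lit 3072) (nat_lit 94) (nat_lit 2) (nat_lit 11) (.e false (nat_lit 11520) (nat_lit 95) (nat_lit 2) (nat_lit 11) (.e false (nat_lit 4608) (nat_lit 96) (nat_lit 2) (nat_lit 11) (.e true (nat_lit 11520) (nat_lit 97) (nat_lit 2) (nat_lit 11) (.e true (nat_lit 2304) (nat_lit 98) (nat_lit 2) (nat_lit 11) (.e true (nat_lit 6144) (nat_lit 99) (nat_lit 2) (nat_lit 11) (.e false (nat_lit 6912) (nat_lit 100) (nat_lit 2) (nat_lit 11) (.e true (nat_lit 9216)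 (nat_lit 102) (nat_lit 2) (nat_lit 11) (.e true (nat_lit 6144) (nat_lit 103) (nat_lit 2) (nat_lit 11) (.e true (nat_lit 20736) (nat_lit 104) (nat_lit 2) (nat_lit 11) (.e false (nat_lit 7680) (nat_lit 105) (nat_lit 2) (nat_lit 11) (.e true (nat_lit 16896) (nat_lit 106) (nat_lit 2) (nat_lit 11) (.e false (nat_lit 4608) (nat_lit 107) (nat_lit 2) (nat_lit 11) (.e false (nat_lit 4608) (nat_lit 109) (nat_lit 1) (nat_lit 12) (.e false (nat_lit 9216) (nat_lit 110) (nat_lit 1) (nat_lit 12) (.e false (nat_lit 9216) (nat_lit 112) (nat_lit 1) (nat_lit 12) (.e false (nat_lit 9216) (nat_lit 113) (nat_lit 1) (nat_lit 12) (.e true (nat_lit 9216) (nat_lit 119) (nat_lit 1) (nat_lit 12) (.e false (nat_lit 9216) (nat_lit 120) (nat_lit 1) (nat_lit 12) (.e false (nat_lit 2304) (nat_lit 121) (nat_lit 1) (nat_lit 12) (.e true (nat_lit 9216) (nat_lit 114) (nat_lit 1) (nat_lit 12) (.e false (nat_lit 9216) (nat_lit 116) (nat_lit 1) (nat_lit 12)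 (.e false (nat_lit 4608) (nat_lit 57) (nat_lit 6) (nat_lit 7) .nil)))))))))))))))))))))))))

noncomputable def dP8_i40 : IL := (.s false (nat_lit 4) (nat_lit 30) (nat_lit 2) (nat_lit 2) (nat_lit 1) true (nat_lit 7) true (nat_lit 12) false (nat_lit 1) true (nat_lit 11) true (nat_lit 11) (.s true (nat_lit 10) (nat_lit 33) (nat_lit 0) (nat_lit 2) (nat_lit 2) true (nat_lit 8) true (nat_lit 11) false (nat_lit 2) true (nat_lit 13) true (nat_lit 11) (.s false (nat_lit 2) (nat_lit 34) (nat_lit 0) (nat_lit 2) (nat_lit 2) true (nat_lit 8) true (nat_lit 11) false (nat_lit 2) true (nat_lit 13) true (nat_lit 11) (.s true (nat_lit 2) (nat_lit 33) (nat_lit 2) (nat_lit 0) (nat_lit 2) true (nat_lit 6) true (nat_lit 11) false (nat_lit 2) true (nat_lit 11) true (nat_lit 13) (.s true (nat_lit 6) (nat_lit 34) (nat_lit 2) (nat_lit 0) (nat_lit 2) true (nat_lit 6) true (nat_lit 11) false (nat_lit 2) true (nat_lit 11) true (nat_lit 13) (.s false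 (nat_lit 10) (nat_lit 33) (nat_lit 2) (nat_lit 2) (nat_lit 0) true (nat_lit 8) true (nat_lit 13) false (nat_lit 2) true (nat_lit 11) true (nat_lit 11) (.s true (nat_lit 2) (nat_lit 34) (nat_lit 2) (nat_lit 2) (nat_lit 0) true (nat_lit 8) true (nat_lit 13) false (nat_lit 2) true (nat_lit 11) true (nat_lit 11) (.s false (nat_lit 4) (nat_lit 36) (nat_lit 1) (nat_lit 2) (nat_lit 1) true (nat_lit 9) true (nat_lit 12) false (nat_lit 3) true (nat_lit 12) true (nat_lit 11) (.s false (nat_lit 8) (nat_lit 40) (nat_lit 0) (nat_lit 2) (nat_lit 1) true (nat_lit 10) true (nat_lit 12) false (nat_lit 4) true (nat_lit 13) true (nat_lit 11) (.e false (nat_lit 4608) (nat_lit 48) (nat_lit 7) (nat_lit 6) (.e false (nat_lit 2304) (nat_lit 53) (nat_lit 7) (nat_lit 6) (.e true (nat_lit 2304) (nat_lit 54) (nat_lit 7) (nat_lit 6) (.e false (nat_lit 9216) (nat_lit 125) (nat_lit 0) (nat_lit 13) (.e true (nat_lit 9216) (nat_lit 126) (nat_lit 0)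 (nat_lit 13) (.e true (nat_lit 9216) (nat_lit 117) (nat_lit 1) (nat_lit 12) (.e true (nat_lit 13056) (nat_lit 82) (nat_lit 2) (nat_lit 11) (.e false (nat_lit 10752) (nat_lit 83) (nat_lit 2) (nat_lit 11) (.e false (nat_lit 15360) (nat_lit 84) (nat_lit 2) (nat_lit 11) (.e false (nat_lit 6912) (nat_lit 85) (nat_lit 2) (nat_lit 11) (.e true (nat_lit 3072) (nat_lit 86) (nat_lit 2) (nat_lit 11) (.e false (nat_lit 3840) (nat_lit 87) (nat_lit 2) (nat_lit 11) (.e true (nat_lit 24576) (nat_lit 88) (nat_lit 2) (nat_lit 11) (.e false (nat_lit 28416) (nat_lit 89) (nat_lit 2) (nat_lit 11) (.e false (nat_lit 768) (nat_lit 90) (nat_lit 2) (nat_lit 11) (.e true (nat_lit 7680) (nat_lit 91) (nat_lit 2) (nat_lit 11) dP8_i39)))))))))))))))))))))))))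

noncomputable def dP8_i41 : IL := (.s true (nat_lit 4) (nat_lit 7) (nat_lit 5) (nat_lit 4) (nat_lit 2) true (nat_lit 2) true (nat_lit 11) true (nat_lit 6) true (nat_lit 8) true (nat_lit 9) (.s true (nat_lit 8) (nat_lit 7) (nat_lit 6) (nat_lit 2) (nat_lit 3) false (nat_lit 0) true (nat_lit 10) true (nat_lit 6) true (nat_lit 7) true (nat_lit 11) (.s false (nat_lit 8) (nat_lit 8) (nat_lit 2) (nat_lit 2) (nat_lit 7) true (nat_lit 0) true (nat_lit 6) true (nat_lit 5) true (nat_lit 11) true (nat_lit 11) (.s false (nat_lit 12) (nat_lit 10) (nat_lit 2) (nat_lit 1) (nat_lit 7) true (nat_lit 0) true (nat_lit 6) true (nat_lit 4) true (nat_lit 11) true (nat_lit 12) (.s false (nat_lit 16) (nat_lit 10) (nat_lit 2) (nat_lit 2) (nat_lit 6) true (nat_lit 1) true (nat_lit 7) true (nat_lit 4) true (nat_lit 11) true (nat_lit 11) (.s true (nat_lit 8) (nat_lit 10) (nat_lit 2) (nat_lit 6) (nat_lit 2) true (nat_lit 6) true (nat_lit 11) true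 (nat_lit 4) true (nat_lit 11) true (nat_lit 7) (.s true (nat_lit 8) (nat_lit 10) (nat_lit 6) (nat_lit 2) (nat_lit 2) true (nat_lit 1) true (nat_lit 11) true (nat_lit 4) true (nat_lit 7) true (nat_lit 11) (.s false (nat_lit 4) (nat_lit 10) (nat_lit 7) (nat_lit 2) (nat_lit 1) true (nat_lit 1) true (nat_lit 12) true (nat_lit 4) true (nat_lit 6) true (nat_lit 11) (.s true (nat_lit 8) (nat_lit 11) (nat_lit 7) (nat_lit 2) (nat_lit 1) true (nat_lit 1) true (nat_lit 12) true (nat_lit 4) true (nat_lit 6) true (nat_lit 11) (.s false (nat_lit 4) (nat_lit 13) (nat_lit 5) (nat_lit 2) (nat_lit 2) true (nat_lit 2) true (nat_lit 11) true (nat_lit 3) true (nat_lit 8) true (nat_lit 11) (.s true (nat_lit 6) (nat_lit 16) (nat_lit 1) (nat_lit 1) (nat_lit 7) true (nat_lit 1) true (nat_lit 6) true (nat_lit 2) true (nat_lit 12) true (nat_lit 12) (.s true (nat_lit 4) (nat_lit 16) (nat_lit 1) (nat_lit 2) (nat_lit 6) true (nat_lit 3) true (nat_lit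 7) true (nat_lit 2) true (nat_lit 12) true (nat_lit 11) (.s true (nat_lit 2) (nat_lit 16) (nat_lit 1) (nat_lit 7) (nat_lit 1) true (nat_lit 9) true (nat_lit 12) true (nat_lit 2) true (nat_lit 12) true (nat_lit 6) (.s true (nat_lit 4) (nat_lit 16) (nat_lit 2) (nat_lit 4) (nat_lit 2) true (nat_lit 6) true (nat_lit 11) true (nat_lit 2) true (nat_lit 11) true (nat_lit 9) (.s true (nat_lit 4) (nat_lit 15) (nat_lit 4) (nat_lit 2) (nat_lit 2) true (nat_lit 3) true (nat_lit 11) true (nat_lit 2) true (nat_lit 9) true (nat_lit 11) (.s false (nat_lit 2) (nat_lit 16) (nat_lit 7) (nat_lit 1) (nat_lit 1) true (nat_lit 1) true (nat_lit 12) true (nat_lit 2) true (nat_lit 6) true (nat_lit 12) (.s true (nat_lit 4) (nat_lit 18) (nat_lit 2) (nat_lit 2) (nat_lit 3) true (nat_lit 4) true (nat_lit 10) true (nat_lit 1) true (nat_lit 11) true (nat_lit 11) (.s false (nat_lit 4) (nat_lit 18) (nat_lit 2) (nat_lit 3) (nat_lit 2) true (nat_lit 6)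 true (nat_lit 11) true (nat_lit 1) true (nat_lit 11) true (nat_lit 10) (.s true (nat_lit 12) (nat_lit 22) (nat_lit 2) (nat_lit 2) (nat_lit 2) true (nat_lit 6) true (nat_lit 11) false (nat_lit 0) true (nat_lit 11) true (nat_lit 11) (.s true (nat_lit 8) (nat_lit 23) (nat_lit 2) (nat_lit 2) (nat_lit 2) true (nat_lit 6) true (nat_lit 11) false (nat_lit 0) true (nat_lit 11) true (nat_lit 11) (.s true (nat_lit 8) (nat_lit 24) (nat_lit 2) (nat_lit 2) (nat_lit 2) true (nat_lit 6) true (nat_lit 11) false (nat_lit 0) true (nat_lit 11) true (nat_lit 11) (.s true (nat_lit 8) (nat_lit 25) (nat_lit 2) (nat_lit 2) (nat_lit 2) true (nat_lit 6) true (nat_lit 11) false (nat_lit 0) true (nat_lit 11) true (nat_lit 11) (.s true (nat_lit 8) (nat_lit 26) (nat_lit 2) (nat_lit 1) (nat_lit 2) true (nat_lit 6) true (nat_lit 11) false (nat_lit 1) true (nat_lit 11) true (nat_lit 12) (.s true (nat_lit 8) (nat_lit 26) (nat_lit 2) (nat_lit 2) (nat_lit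 1) true (nat_lit 7) true (nat_lit 12) false (nat_lit 1) true (nat_lit 11) true (nat_lit 11) (.s false (nat_lit 8) (nat_lit 27) (nat_lit 2) (nat_lit 2) (nat_lit 1) true (nat_lit 7) true (nat_lit 12) false (nat_lit 1) true (nat_lit 11) true (nat_lit 11) dP8_i40)))))))))))))))))))))))))

noncomputable def dP8_i42 : IL := (.e true (nat_lit 1152) (nat_lit 83) (nat_lit 2) (nat_lit 11) (.e true (nat_lit 2304) (nat_lit 84) (nat_lit 2) (nat_lit 11) (.e false (nat_lit 3456) (nat_lit 86) (nat_lit 2) (nat_lit 11) (.e true (nat_lit 3456) (nat_lit 87) (nat_lit 2) (nat_lit 11) (.e true (nat_lit 1152) (nat_lit 90) (nat_lit 2) (nat_lit 11) (.e false (nat_lit 3456) (nat_lit 91) (nat_lit 2) (nat_lit 11) (.e false (nat_lit 2304) (nat_lit 93) (nat_lit 2) (nat_lit 11) (.e true (nat_lit 1152) (nat_lit 94) (nat_lit 2) (nat_lit 11) (.e false (nat_lit 1152) (nat_lit 95) (nat_lit 2) (nat_lit 11) (.e false (nat_lit 1728) (nat_lit 99) (nat_lit 2)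 (nat_lit 11) (.e false (nat_lit 2304) (nat_lit 103) (nat_lit 2) (nat_lit 11) (.e true (nat_lit 1152) (nat_lit 104) (nat_lit 2) (nat_lit 11) (.e true (nat_lit 1152) (nat_lit 105) (nat_lit 2) (nat_lit 11) (.e false (nat_lit 1152) (nat_lit 106) (nat_lit 2) (nat_lit 11) (.e false (nat_lit 2304) (nat_lit 108) (nat_lit 1) (nat_lit 12) (.e true (nat_lit 2304) (nat_lit 109) (nat_lit 1) (nat_lit 12) (.e true (nat_lit 2304) (nat_lit 113) (nat_lit 1) (nat_lit 12) (.e false (nat_lit 1152) (nat_lit 114) (nat_lit 1) (nat_lit 12) (.e true (nat_lit 1152) (nat_lit 116) (nat_lit 1) (nat_lit 12) (.e true (nat_lit 1152) (nat_lit 117) (nat_lit 1) (nat_lit 12) (.e true (nat_lit 2304) (nat_lit 85) (nat_lit 2) (nat_lit 11) (.e false (nat_lit 1152) (nat_lit 102) (nat_lit 2) (nat_lit 11) (.e false (nat_lit 1152) (nat_lit 107) (nat_lit 2) (nat_lit 11) (.e true (nat_lit 1152) (nat_lit 51) (nat_lit 7) (nat_lit 6) (.e true (nat_lit 1152) (nat_lit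 92) (nat_lit 2) (nat_lit 11) .nil)))))))))))))))))))))))))

noncomputable def dP8_i43 : IL := (.e false (nat_lit 2304) (nat_lit 92) (nat_lit 2) (nat_lit 11) (.e true (nat_lit 10752) (nat_lit 93) (nat_lit 2) (nat_lit 11) (.e true (nat_lit 3840) (nat_lit 94) (nat_lit 2) (nat_lit 11) (.e true (nat_lit 6912) (nat_lit 95) (nat_lit 2) (nat_lit 11) (.e true (nat_lit 2304) (nat_lit 96) (nat_lit 2) (nat_lit 11) (.e true (nat_lit 2304) (nat_lit 97) (nat_lit 2) (nat_lit 11) (.e false (nat_lit 20736) (nat_lit 98) (nat_lit 2) (nat_lit 11) (.e true (nat_lit 7680) (nat_lit 99) (nat_lit 2) (nat_lit 11) (.e false (nat_lit 2304) (nat_lit 100) (nat_lit 2) (nat_lit 11) (.e true (nat_lit 2304) (nat_lit 101) (nat_lit 2) (nat_lit 11) (.e true (nat_lit 9216) (nat_lit 102) (nat_lit 2) (nat_lit 11) (.e true (nat_lit 9984) (nat_lit 103) (nat_lit 2) (nat_lit 11) (.e false (nat_lit 4608) (nat_lit 104) (nat_lit 2) (nat_lit 11) (.e false (nat_lit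 1536) (nat_lit 105) (nat_lit 2) (nat_lit 11) (.e true (nat_lit 1536) (nat_lit 106) (nat_lit 2) (nat_lit 11) (.e true (nat_lit 2304) (nat_lit 65) (nat_lit 6) (nat_lit 7) (.e true (nat_lit 4608) (nat_lit 119) (nat_lit 1) (nat_lit 12) (.e false (nat_lit 4608) (nat_lit 120) (nat_lit 1) (nat_lit 12) (.e false (nat_lit 2304) (nat_lit 121) (nat_lit 1) (nat_lit 12) (.e true (nat_lit 4608) (nat_lit 108) (nat_lit 1) (nat_lit 12) (.e false (nat_lit 4608) (nat_lit 109) (nat_lit 1) (nat_lit 12) (.e false (nat_lit 4608) (nat_lit 112) (nat_lit 1) (nat_lit 12) (.e false (nat_lit 4608) (nat_lit 113) (nat_lit 1) (nat_lit 12) (.e true (nat_lit 2304) (nat_lit 114) (nat_lit 1) (nat_lit 12) (.e false (nat_lit 2304) (nat_lit 116) (nat_lit 1) (nat_lit 12) .nil)))))))))))))))))))))))))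

noncomputable def dP8_i44 : IL := (.s true (nat_lit 8) (nat_lit 24) (nat_lit 2) (nat_lit 2) (nat_lit 2) true (nat_lit 6) true (nat_lit 11) false (nat_lit 0) true (nat_lit 11) true (nat_lit 11) (.s true (nat_lit 8) (nat_lit 25) (nat_lit 2) (nat_lit 2) (nat_lit 2) true (nat_lit 6) true (nat_lit 11) false (nat_lit 0) true (nat_lit 11) true (nat_lit 11) (.s true (nat_lit 2) (nat_lit 30) (nat_lit 1) (nat_lit 2) (nat_lit 2) true (nat_lit 7) true (nat_lit 11) false (nat_lit 1) true (nat_lit 12) true (nat_lit 11) (.s false (nat_lit 2) (nat_lit 30) (nat_lit 2) (nat_lit 1) (nat_lit 2) true (nat_lit 6) true (nat_lit 11) false (nat_lit 1) true (nat_lit 11) true (nat_lit 12) (.s false (nat_lit 2) (nat_lit 30) (nat_lit 2) (nat_lit 2) (nat_lit 1) true (nat_lit 7) true (nat_lit 12) false (nat_lit 1) true (nat_lit 11) true (nat_lit 11) (.s true (nat_lit 2) (nat_lit 33) (nat_lit 0) (nat_lit 2) (nat_lit 2) true (nat_lit 8) true (nat_lit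 11) false (nat_lit 2) true (nat_lit 13) true (nat_lit 11) (.s false (nat_lit 2) (nat_lit 34) (nat_lit 0) (nat_lit 2) (nat_lit 2) true (nat_lit 8) true (nat_lit 11) false (nat_lit 2) true (nat_lit 13) true (nat_lit 11) (.s false (nat_lit 6) (nat_lit 33) (nat_lit 2) (nat_lit 0) (nat_lit 2) true (nat_lit 6) true (nat_lit 11) false (nat_lit 2) true (nat_lit 11) true (nat_lit 13) (.s true (nat_lit 6) (nat_lit 34) (nat_lit 2) (nat_lit 0) (nat_lit 2) true (nat_lit 6) true (nat_lit 11) false (nat_lit 2) true (nat_lit 11) true (nat_lit 13) (.s false (nat_lit 2) (nat_lit 33) (nat_lit 2) (nat_lit 2) (nat_lit 0) true (nat_lit 8) true (nat_lit 13) false (nat_lit 2) true (nat_lit 11) true (nat_lit 11) (.s true (nat_lit 2) (nat_lit 34) (nat_lit 2) (nat_lit 2) (nat_lit 0) true (nat_lit 8) true (nat_lit 13) false (nat_lit 2) true (nat_lit 11) true (nat_lit 11) (.e false (nat_lit 2304) (nat_lit 53) (nat_lit 7) (nat_lit 6) (.e false (nat_lit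 2304) (nat_lit 54) (nat_lit 7) (nat_lit 6) (.e false (nat_lit 4608) (nat_lit 125) (nat_lit 0) (nat_lit 13) (.e true (nat_lit 4608) (nat_lit 126) (nat_lit 0) (nat_lit 13) (.e true (nat_lit 12288) (nat_lit 82) (nat_lit 2) (nat_lit 11) (.e false (nat_lit 23808) (nat_lit 83) (nat_lit 2) (nat_lit 11) (.e false (nat_lit 33024) (nat_lit 84) (nat_lit 2) (nat_lit 11) (.e false (nat_lit 23040) (nat_lit 85) (nat_lit 2) (nat_lit 11) (.e true (nat_lit 22272) (nat_lit 86) (nat_lit 2) (nat_lit 11) (.e false (nat_lit 768) (nat_lit 87) (nat_lit 2) (nat_lit 11) (.e false (nat_lit 6144) (nat_lit 88) (nat_lit 2) (nat_lit 11) (.e false (nat_lit 3840) (nat_lit 89) (nat_lit 2) (nat_lit 11) (.e false (nat_lit 10752) (nat_lit 90) (nat_lit 2) (nat_lit 11) (.e true (nat_lit 15360) (nat_lit 91) (nat_lit 2) (nat_lit 11) dP8_i43)))))))))))))))))))))))))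

noncomputable def dP8_i45 : IL := (.e true (nat_lit 576) (nat_lit 65) (nat_lit 6) (nat_lit 7) (.e true (nat_lit 192) (nat_lit 105) (nat_lit 2) (nat_lit 11) (.e false (nat_lit 192) (nat_lit 106) (nat_lit 2) (nat_lit 11) (.e false (nat_lit 576) (nat_lit 107) (nat_lit 2) (nat_lit 11) (.e true (nat_lit 2496) (nat_lit 82) (nat_lit 2) (nat_lit 11) (.e false (nat_lit 3072) (nat_lit 83) (nat_lit 2) (nat_lit 11) (.e false (nat_lit 4800) (nat_lit 84) (nat_lit 2) (nat_lit 11) (.e false (nat_lit 3456) (nat_lit 85) (nat_lit 2) (nat_lit 11) (.e true (nat_lit 1536) (nat_lit 86) (nat_lit 2) (nat_lit 11) (.e true (nat_lit 384) (nat_lit 87) (nat_lit 2) (nat_lit 11) (.e false (nat_lit 1536) (nat_lit 88) (nat_lit 2) (nat_lit 11) (.e false (nat_lit 2112) (nat_lit 89) (nat_lit 2) (nat_lit 11) (.e false (nat_lit 960) (nat_lit 90) (nat_lit 2) (nat_lit 11) (.e true (nat_lit 2112) (nat_lit 91) (nat_lit 2) (nat_lit 11) (.e true (nat_lit 1536)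 (nat_lit 93) (nat_lit 2) (nat_lit 11) (.e true (nat_lit 384) (nat_lit 94) (nat_lit 2) (nat_lit 11) (.e true (nat_lit 1152) (nat_lit 96) (nat_lit 2) (nat_lit 11) (.e true (nat_lit 288) (nat_lit 97) (nat_lit 2) (nat_lit 11) (.e false (nat_lit 3744) (nat_lit 98) (nat_lit 2) (nat_lit 11) (.e true (nat_lit 1056) (nat_lit 99) (nat_lit 2) (nat_lit 11) (.e false (nat_lit 288) (nat_lit 100) (nat_lit 2) (nat_lit 11) (.e true (nat_lit 1728) (nat_lit 102) (nat_lit 2) (nat_lit 11) (.e true (nat_lit 1344) (nat_lit 103) (nat_lit 2) (nat_lit 11) (.e true (nat_lit 576) (nat_lit 104) (nat_lit 2) (nat_lit 11) (.e true (nat_lit 576) (nat_lit 101) (nat_lit 2) (nat_lit 11) .nil)))))))))))))))))))))))))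

noncomputable def dP8_i46 : IL := (.e false (nat_lit 384) (nat_lit 86) (nat_lit 2) (nat_lit 11) (.e false (nat_lit 576) (nat_lit 95) (nat_lit 2) (nat_lit 11) (.e true (nat_lit 2304) (nat_lit 104) (nat_lit 2) (nat_lit 11) (.e false (nat_lit 768) (nat_lit 89) (nat_lit 2) (nat_lit 11) (.e false (nat_lit 576) (nat_lit 65) (nat_lit 6) (nat_lit 7) (.e true (nat_lit 384) (nat_lit 90) (nat_lit 2) (nat_lit 11) (.e false (nat_lit 1536) (nat_lit 83) (nat_lit 2) (nat_lit 11) (.e false (nat_lit 2112) (nat_lit 84) (nat_lit 2) (nat_lit 11) (.e false (nat_lit 576) (nat_lit 85) (nat_lit 2) (nat_lit 11) (.e true (nat_lit 1344) (nat_lit 87) (nat_lit 2) (nat_lit 11) (.e false (nat_lit 768) (nat_lit 88) (nat_lit 2) (nat_lit 11) (.e true (nat_lit 1344) (nat_lit 91) (nat_lit 2) (nat_lit 11) (.e false (nat_lit 576) (nat_lit 92) (nat_lit 2) (nat_lit 11) (.e true (nat_lit 768) (nat_lit 93) (nat_lit 2) (nat_lit 11) (.e true (nat_lit 768) (nat_lit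 94) (nat_lit 2) (nat_lit 11) (.e true (nat_lit 2016) (nat_lit 97) (nat_lit 2) (nat_lit 11) (.e false (nat_lit 2016) (nat_lit 98) (nat_lit 2) (nat_lit 11) (.e true (nat_lit 672) (nat_lit 99) (nat_lit 2) (nat_lit 11) (.e false (nat_lit 864) (nat_lit 100) (nat_lit 2) (nat_lit 11) (.e false (nat_lit 576) (nat_lit 101) (nat_lit 2) (nat_lit 11) (.e true (nat_lit 576) (nat_lit 102) (nat_lit 2) (nat_lit 11) (.e true (nat_lit 384) (nat_lit 103) (nat_lit 2) (nat_lit 11) (.e false (nat_lit 192) (nat_lit 105) (nat_lit 2) (nat_lit 11) (.e true (nat_lit 192) (nat_lit 106) (nat_lit 2) (nat_lit 11) (.e true (nat_lit 576) (nat_lit 107) (nat_lit 2) (nat_lit 11) .nil)))))))))))))))))))))))))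

noncomputable def dP8_i47 : IL := (.e false (nat_lit 9600) (nat_lit 83) (nat_lit 2) (nat_lit 11) (.e false (nat_lit 10752) (nat_lit 84) (nat_lit 2) (nat_lit 11) (.e false (nat_lit 7488) (nat_lit 85) (nat_lit 2) (nat_lit 11) (.e true (nat_lit 3648) (nat_lit 87) (nat_lit 2) (nat_lit 11) (.e false (nat_lit 768) (nat_lit 88) (nat_lit 2) (nat_lit 11) (.e false (nat_lit 1920) (nat_lit 90) (nat_lit 2) (nat_lit 11) (.e true (nat_lit 8832) (nat_lit 91) (nat_lit 2) (nat_lit 11) (.e false (nat_lit 1728) (nat_lit 92) (nat_lit 2) (nat_lit 11) (.e true (nat_lit 5376) (nat_lit 93) (nat_lit 2) (nat_lit 11) (.e false (nat_lit 384) (nat_lit 94) (nat_lit 2) (nat_lit 11) (.e true (nat_lit 4608) (nat_lit 96) (nat_lit 2) (nat_lit 11) (.e true (nat_lit 2880) (nat_lit 97) (nat_lit 2) (nat_lit 11) (.e false (nat_lit 8640) (nat_lit 98) (nat_lit 2) (nat_lit 11) (.e true (nat_lit 2688) (nat_lit 99) (nat_lit 2) (nat_lit 11) (.e false (nat_lit 576)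 (nat_lit 100) (nat_lit 2) (nat_lit 11) (.e true (nat_lit 1152) (nat_lit 101) (nat_lit 2) (nat_lit 11) (.e true (nat_lit 2304) (nat_lit 102) (nat_lit 2) (nat_lit 11) (.e true (nat_lit 960) (nat_lit 103) (nat_lit 2) (nat_lit 11) (.e false (nat_lit 4224) (nat_lit 105) (nat_lit 2) (nat_lit 11) (.e true (nat_lit 1920) (nat_lit 106) (nat_lit 2) (nat_lit 11) (.e true (nat_lit 1152) (nat_lit 48) (nat_lit 7) (nat_lit 6) (.e false (nat_lit 1152) (nat_lit 53) (nat_lit 7) (nat_lit 6) (.e true (nat_lit 1152) (nat_lit 125) (nat_lit 0) (nat_lit 13) (.e true (nat_lit 1152) (nat_lit 54) (nat_lit 7) (nat_lit 6) (.e false (nat_lit 1152) (nat_lit 126) (nat_lit 0) (nat_lit 13) .nil)))))))))))))))))))))))))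

noncomputable def dP8_i48 : IL := (.s true (nat_lit 1) (nat_lit 26) (nat_lit 1) (nat_lit 2) (nat_lit 2) true (nat_lit 7) true (nat_lit 11) false (nat_lit 1) true (nat_lit 12) true (nat_lit 11) (.s false (nat_lit 2) (nat_lit 27) (nat_lit 1) (nat_lit 2) (nat_lit 2) true (nat_lit 7) true (nat_lit 11) false (nat_lit 1) true (nat_lit 12) true (nat_lit 11) (.s false (nat_lit 2) (nat_lit 29) (nat_lit 1) (nat_lit 2) (nat_lit 2) true (nat_lit 7) true (nat_lit 11) false (nat_lit 1) true (nat_lit 12) true (nat_lit 11) (.s true (nat_lit 2) (nat_lit 27) (nat_lit 2) (nat_lit 1) (nat_lit 2) true (nat_lit 6) true (nat_lit 11) false (nat_lit 1) true (nat_lit 11) true (nat_lit 12) (.s true (nat_lit 2) (nat_lit 33) (nat_lit 2) (nat_lit 0) (nat_lit 2) true (nat_lit 6) true (nat_lit 11) false (nat_lit 2) true (nat_lit 11) true (nat_lit 13) (.s false (nat_lit 2) (nat_lit 34) (nat_lit 2) (nat_lit 0) (nat_lit 2) true (nat_lit 6) true (nat_lit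 11) false (nat_lit 2) true (nat_lit 11) true (nat_lit 13) (.e true (nat_lit 576) (nat_lit 55) (nat_lit 7) (nat_lit 6) (.e false (nat_lit 4608) (nat_lit 104) (nat_lit 2) (nat_lit 11) (.e true (nat_lit 4992) (nat_lit 82) (nat_lit 2) (nat_lit 11) (.e true (nat_lit 7680) (nat_lit 86) (nat_lit 2) (nat_lit 11) (.e false (nat_lit 768) (nat_lit 89) (nat_lit 2) (nat_lit 11) (.e true (nat_lit 576) (nat_lit 65) (nat_lit 6) (nat_lit 7) (.e true (nat_lit 3456) (nat_lit 107) (nat_lit 2) (nat_lit 11) (.e false (nat_lit 8064) (nat_lit 108) (nat_lit 1) (nat_lit 12) (.e true (nat_lit 6912) (nat_lit 109) (nat_lit 1) (nat_lit 12) (.e true (nat_lit 8064) (nat_lit 112) (nat_lit 1) (nat_lit 12) (.e true (nat_lit 8064) (nat_lit 113) (nat_lit 1) (nat_lit 12) (.e false (nat_lit 2880) (nat_lit 114) (nat_lit 1) (nat_lit 12) (.e true (nat_lit 2880) (nat_lit 116) (nat_lit 1) (nat_lit 12) (.e false (nat_lit 576) (nat_lit 117) (nat_lit 1) (nat_lit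 12) (.e false (nat_lit 1728) (nat_lit 118) (nat_lit 1) (nat_lit 12) (.e false (nat_lit 2880) (nat_lit 119) (nat_lit 1) (nat_lit 12) (.e true (nat_lit 1152) (nat_lit 120) (nat_lit 1) (nat_lit 12) (.e false (nat_lit 576) (nat_lit 121) (nat_lit 1) (nat_lit 12) (.e false (nat_lit 1152) (nat_lit 57) (nat_lit 6) (nat_lit 7) dP8_i47)))))))))))))))))))))))))

noncomputable def dP8_i49 : IL := (.e true (nat_lit 2304) (nat_lit 53) (nat_lit 7) (nat_lit 6) (.e false (nat_lit 2304) (nat_lit 54) (nat_lit 7) (nat_lit 6) (.e false (nat_lit 3072) (nat_lit 82) (nat_lit 2) (nat_lit 11) (.e true (nat_lit 7680) (nat_lit 83) (nat_lit 2) (nat_lit 11) (.e true (nat_lit 9984) (nat_lit 84) (nat_lit 2) (nat_lit 11) (.e true (nat_lit 2304) (nat_lit 85) (nat_lit 2) (nat_lit 11) (.e false (nat_lit 6144) (nat_lit 86) (nat_lit 2) (nat_lit 11) (.e false (nat_lit 3840) (nat_lit 87) (nat_lit 2) (nat_lit 11) (.e false (nat_lit 3072) (nat_lit 88) (nat_lit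 2) (nat_lit 11) (.e true (nat_lit 1536) (nat_lit 89) (nat_lit 2) (nat_lit 11) (.e true (nat_lit 1536) (nat_lit 90) (nat_lit 2) (nat_lit 11) (.e false (nat_lit 8448) (nat_lit 91) (nat_lit 2) (nat_lit 11) (.e true (nat_lit 2304) (nat_lit 92) (nat_lit 2) (nat_lit 11) (.e false (nat_lit 6144) (nat_lit 93) (nat_lit 2) (nat_lit 11) (.e false (nat_lit 1536) (nat_lit 94) (nat_lit 2) (nat_lit 11) (.e false (nat_lit 8064) (nat_lit 97) (nat_lit 2) (nat_lit 11) (.e true (nat_lit 8064) (nat_lit 98) (nat_lit 2) (nat_lit 11) (.e false (nat_lit 4224) (nat_lit 99) (nat_lit 2) (nat_lit 11) (.e true (nat_lit 3456) (nat_lit 100) (nat_lit 2) (nat_lit 11) (.e true (nat_lit 2304) (nat_lit 101) (nat_lit 2) (nat_lit 11) (.e false (nat_lit 768) (nat_lit 103) (nat_lit 2) (nat_lit 11) (.e true (nat_lit 3840) (nat_lit 105) (nat_lit 2) (nat_lit 11) (.e false (nat_lit 3840) (nat_lit 106) (nat_lit 2) (nat_lit 11) (.e false (nat_lit 2304) (nat_lit 107)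 (nat_lit 2) (nat_lit 11) (.e false (nat_lit 2304) (nat_lit 102) (nat_lit 2) (nat_lit 11) .nil)))))))))))))))))))))))))

noncomputable def dP8_i50 : IL := (.e true (nat_lit 1728) (nat_lit 95) (nat_lit 2) (nat_lit 11) (.e true (nat_lit 1728) (nat_lit 96) (nat_lit 2) (nat_lit 11) (.e true (nat_lit 2592) (nat_lit 97) (nat_lit 2) (nat_lit 11) (.e false (nat_lit 6048) (nat_lit 98) (nat_lit 2) (nat_lit 11) (.e true (nat_lit 1824) (nat_lit 99) (nat_lit 2) (nat_lit 11) (.e false (nat_lit 864) (nat_lit 100) (nat_lit 2) (nat_lit 11) (.e true (nat_lit 1728) (nat_lit 102) (nat_lit 2) (nat_lit 11) (.e true (nat_lit 960) (nat_lit 103) (nat_lit 2) (nat_lit 11) (.e false (nat_lit 3456) (nat_lit 104) (nat_lit 2) (nat_lit 11) (.e false (nat_lit 1344) (nat_lit 105) (nat_lit 2) (nat_lit 11) (.e true (nat_lit 192) (nat_lit 106) (nat_lit 2) (nat_lit 11) (.e true (nat_lit 1728) (nat_lit 107) (nat_lit 2) (nat_lit 11) (.e false (nat_lit 1728)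 (nat_lit 108) (nat_lit 1) (nat_lit 12) (.e true (nat_lit 1152) (nat_lit 109) (nat_lit 1) (nat_lit 12) (.e true (nat_lit 1728) (nat_lit 112) (nat_lit 1) (nat_lit 12) (.e true (nat_lit 1728) (nat_lit 113) (nat_lit 1) (nat_lit 12) (.e false (nat_lit 288) (nat_lit 114) (nat_lit 1) (nat_lit 12) (.e true (nat_lit 288) (nat_lit 116) (nat_lit 1) (nat_lit 12) (.e false (nat_lit 288) (nat_lit 118) (nat_lit 1) (nat_lit 12) (.e false (nat_lit 288) (nat_lit 119) (nat_lit 1) (nat_lit 12) (.e false (nat_lit 288) (nat_lit 120) (nat_lit 1) (nat_lit 12) (.e false (nat_lit 288) (nat_lit 121) (nat_lit 1) (nat_lit 12) (.e true (nat_lit 288) (nat_lit 123) (nat_lit 1) (nat_lit 12) (.e false (nat_lit 1152) (nat_lit 92) (nat_lit 2) (nat_lit 11) (.e true (nat_lit 576) (nat_lit 48) (nat_lit 7) (nat_lit 6) .nil)))))))))))))))))))))))))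

noncomputable def dP8_i51 : IL := (.e false (nat_lit 1152) (nat_lit 105) (nat_lit 2) (nat_lit 11) (.e false (nat_lit 1152) (nat_lit 94) (nat_lit 2) (nat_lit 11) (.e true (nat_lit 2880) (nat_lit 117) (nat_lit 1) (nat_lit 12) (.e false (nat_lit 2304) (nat_lit 97) (nat_lit 2) (nat_lit 11) (.e true (nat_lit 1152) (nat_lit 100) (nat_lit 2) (nat_lit 11) (.e false (nat_lit 6336) (nat_lit 108) (nat_lit 1) (nat_lit 12) (.e true (nat_lit 6336) (nat_lit 109) (nat_lit 1) (nat_lit 12) (.e true (nat_lit 4032) (nat_lit 112) (nat_lit 1) (nat_lit 12) (.e true (nat_lit 6336) (nat_lit 113) (nat_lit 1) (nat_lit 12) (.e false (nat_lit 2592) (nat_lit 114) (nat_lit 1) (nat_lit 12) (.e true (nat_lit 288) (nat_lit 115) (nat_lit 1) (nat_lit 12) (.e true (nat_lit 2016) (nat_lit 116) (nat_lit 1) (nat_lit 12) (.e false (nat_lit 864) (nat_lit 118) (nat_lit 1) (nat_lit 12) (.e true (nat_lit 288) (nat_lit 119) (nat_lit 1) (nat_lit 12) (.e false (nat_lit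 3168) (nat_lit 120) (nat_lit 1) (nat_lit 12) (.e false (nat_lit 1440) (nat_lit 121) (nat_lit 1) (nat_lit 12) (.e true (nat_lit 1440) (nat_lit 123) (nat_lit 1) (nat_lit 12) (.e true (nat_lit 576) (nat_lit 125) (nat_lit 0) (nat_lit 13) (.e false (nat_lit 576) (nat_lit 126) (nat_lit 0) (nat_lit 13) (.e false (nat_lit 576) (nat_lit 128) (nat_lit 0) (nat_lit 13) (.e false (nat_lit 1152) (nat_lit 129) (nat_lit 0) (nat_lit 13) (.e false (nat_lit 1152) (nat_lit 131) (nat_lit 0) (nat_lit 13) (.e true (nat_lit 1152) (nat_lit 48) (nat_lit 7) (nat_lit 6) (.e false (nat_lit 1152) (nat_lit 49) (nat_lit 7) (nat_lit 6) (.e true (nat_lit 2304) (nat_lit 51) (nat_lit 7) (nat_lit 6) .nil)))))))))))))))))))))))))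

noncomputable def dP8_i52 : IL := (.s true (nat_lit 2) (nat_lit 27) (nat_lit 2) (nat_lit 1) (nat_lit 2) true (nat_lit 6) true (nat_lit 11) false (nat_lit 1) true (nat_lit 11) true (nat_lit 12) (.s false (nat_lit 2) (nat_lit 28) (nat_lit 2) (nat_lit 1) (nat_lit 2) true (nat_lit 6) true (nat_lit 11) false (nat_lit 1) true (nat_lit 11) true (nat_lit 12) (.s true (nat_lit 4) (nat_lit 30) (nat_lit 2) (nat_lit 1) (nat_lit 2) true (nat_lit 6) true (nat_lit 11) false (nat_lit 1) true (nat_lit 11) true (nat_lit 12) (.s true (nat_lit 2) (nat_lit 26) (nat_lit 2) (nat_lit 2) (nat_lit 1) true (nat_lit 7) true (nat_lit 12) false (nat_lit 1) true (nat_lit 11) true (nat_lit 11) (.s false (nat_lit 2) (nat_lit 39) (nat_lit 1) (nat_lit 0) (nat_lit 2) true (nat_lit 7) true (nat_lit 11) false (nat_lit 4) true (nat_lit 12) true (nat_lit 13) (.e true (nat_lit 1728) (nat_lit 82) (nat_lit 2) (nat_lit 11) (.e false (nat_lit 6912) (nat_lit 86)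 (nat_lit 2) (nat_lit 11) (.e false (nat_lit 5184) (nat_lit 95) (nat_lit 2) (nat_lit 11) (.e true (nat_lit 2880) (nat_lit 104) (nat_lit 2) (nat_lit 11) (.e false (nat_lit 576) (nat_lit 89) (nat_lit 2) (nat_lit 11) (.e true (nat_lit 576) (nat_lit 55) (nat_lit 7) (nat_lit 6) (.e false (nat_lit 576) (nat_lit 65) (nat_lit 6) (nat_lit 7) (.e true (nat_lit 3456) (nat_lit 84) (nat_lit 2) (nat_lit 11) (.e true (nat_lit 3456) (nat_lit 85) (nat_lit 2) (nat_lit 11) (.e true (nat_lit 1152) (nat_lit 87) (nat_lit 2) (nat_lit 11) (.e true (nat_lit 3456) (nat_lit 88) (nat_lit 2) (nat_lit 11) (.e true (nat_lit 1728) (nat_lit 90) (nat_lit 2) (nat_lit 11) (.e true (nat_lit 2304) (nat_lit 92) (nat_lit 2) (nat_lit 11) (.e false (nat_lit 1152) (nat_lit 93) (nat_lit 2) (nat_lit 11) (.e true (nat_lit 5760) (nat_lit 98) (nat_lit 2) (nat_lit 11) (.e false (nat_lit 1152) (nat_lit 102) (nat_lit 2) (nat_lit 11) (.e false (nat_lit 2304) (nat_lit 103)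 (nat_lit 2) (nat_lit 11) (.e true (nat_lit 3456) (nat_lit 83) (nat_lit 2) (nat_lit 11) (.e false (nat_lit 3456) (nat_lit 91) (nat_lit 2) (nat_lit 11) (.e false (nat_lit 3456) (nat_lit 99) (nat_lit 2) (nat_lit 11) dP8_i51)))))))))))))))))))))))))

noncomputable def dP8_i53 : IL := (.e true (nat_lit 192) (nat_lit 90) (nat_lit 2) (nat_lit 11) (.e true (nat_lit 2112) (nat_lit 83) (nat_lit 2) (nat_lit 11) (.e true (nat_lit 2688) (nat_lit 84) (nat_lit 2) (nat_lit 11) (.e true (nat_lit 1728) (nat_lit 85) (nat_lit 2) (nat_lit 11) (.e false (nat_lit 768) (nat_lit 87) (nat_lit 2) (nat_lit 11) (.e true (nat_lit 768) (nat_lit 88) (nat_lit 2) (nat_lit 11) (.e false (nat_lit 3072) (nat_lit 91) (nat_lit 2) (nat_lit 11) (.e false (nat_lit 1920) (nat_lit 93) (nat_lit 2) (nat_lit 11) (.e false (nat_lit 192) (nat_lit 94) (nat_lit 2) (nat_lit 11) (.e false (nat_lit 576) (nat_lit 96) (nat_lit 2) (nat_lit 11) (.e false (nat_lit 864) (nat_lit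 97) (nat_lit 2) (nat_lit 11) (.e true (nat_lit 2016) (nat_lit 98) (nat_lit 2) (nat_lit 11) (.e false (nat_lit 672) (nat_lit 99) (nat_lit 2) (nat_lit 11) (.e true (nat_lit 288) (nat_lit 100) (nat_lit 2) (nat_lit 11) (.e false (nat_lit 576) (nat_lit 102) (nat_lit 2) (nat_lit 11) (.e false (nat_lit 384) (nat_lit 103) (nat_lit 2) (nat_lit 11) (.e true (nat_lit 768) (nat_lit 105) (nat_lit 2) (nat_lit 11) (.e true (nat_lit 384) (nat_lit 106) (nat_lit 2) (nat_lit 11) (.e false (nat_lit 576) (nat_lit 107) (nat_lit 2) (nat_lit 11) (.e true (nat_lit 576) (nat_lit 108) (nat_lit 1) (nat_lit 12) (.e false (nat_lit 576) (nat_lit 112) (nat_lit 1) (nat_lit 12) (.e false (nat_lit 576) (nat_lit 113) (nat_lit 1) (nat_lit 12) (.e false (nat_lit 288) (nat_lit 123) (nat_lit 1) (nat_lit 12) (.e false (nat_lit 576) (nat_lit 49) (nat_lit 7) (nat_lit 6) (.e true (nat_lit 576) (nat_lit 110) (nat_lit 1) (nat_lit 12) .nil)))))))))))))))))))))))))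

noncomputable def dP8_i54 : IL := (.e false (nat_lit 1152) (nat_lit 101) (nat_lit 2) (nat_lit 11) (.e true (nat_lit 4608) (nat_lit 82) (nat_lit 2) (nat_lit 11) (.e false (nat_lit 11520) (nat_lit 83) (nat_lit 2) (nat_lit 11) (.e false (nat_lit 13824) (nat_lit 84) (nat_lit 2) (nat_lit 11) (.e true (nat_lit 9216) (nat_lit 86) (nat_lit 2) (nat_lit 11) (.e true (nat_lit 4608) (nat_lit 87) (nat_lit 2) (nat_lit 11) (.e false (nat_lit 4608) (nat_lit 88) (nat_lit 2) (nat_lit 11) (.e true (nat_lit 2304) (nat_lit 89) (nat_lit 2) (nat_lit 11) (.e false (nat_lit 2304) (nat_lit 90) (nat_lit 2) (nat_lit 11) (.e true (nat_lit 6912) (nat_lit 91) (nat_lit 2) (nat_lit 11) (.e true (nat_lit 4608) (nat_lit 93) (nat_lit 2) (nat_lit 11) (.e true (nat_lit 2304) (nat_lit 94) (nat_lit 2) (nat_lit 11) (.e true (nat_lit 4608) (nat_lit 95) (nat_lit 2) (nat_lit 11) (.e true (nat_lit 3456) (nat_lit 99) (nat_lit 2) (nat_lit 11) (.e true (nat_lit 1152)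 (nat_lit 103) (nat_lit 2) (nat_lit 11) (.e false (nat_lit 4608) (nat_lit 104) (nat_lit 2) (nat_lit 11) (.e false (nat_lit 2304) (nat_lit 121) (nat_lit 1) (nat_lit 12) (.e true (nat_lit 2304) (nat_lit 117) (nat_lit 1) (nat_lit 12) (.e true (nat_lit 2304) (nat_lit 119) (nat_lit 1) (nat_lit 12) (.e false (nat_lit 2304) (nat_lit 120) (nat_lit 1) (nat_lit 12) (.e false (nat_lit 1152) (nat_lit 51) (nat_lit 7) (nat_lit 6) (.e false (nat_lit 9216) (nat_lit 85) (nat_lit 2) (nat_lit 11) (.e false (nat_lit 2304) (nat_lit 92) (nat_lit 2) (nat_lit 11) (.e true (nat_lit 2304) (nat_lit 107) (nat_lit 2) (nat_lit 11) (.e true (nat_lit 2304) (nat_lit 102) (nat_lit 2) (nat_lit 11) .nil)))))))))))))))))))))))))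

noncomputable def dP8_i55 : IL := (.e false (nat_lit 1152) (nat_lit 54) (nat_lit 7) (nat_lit 6) (.e true (nat_lit 1152) (nat_lit 96) (nat_lit 2) (nat_lit 11) (.e false (nat_lit 1152) (nat_lit 97) (nat_lit 2) (nat_lit 11) (.e false (nat_lit 5760) (nat_lit 98) (nat_lit 2) (nat_lit 11) (.e false (nat_lit 1152) (nat_lit 100) (nat_lit 2) (nat_lit 11) (.e false (nat_lit 1152) (nat_lit 101) (nat_lit 2) (nat_lit 11) (.e false (nat_lit 4608) (nat_lit 82) (nat_lit 2) (nat_lit 11) (.e true (nat_lit 4608) (nat_lit 86) (nat_lit 2) (nat_lit 11) (.e true (nat_lit 2304) (nat_lit 87) (nat_lit 2) (nat_lit 11) (.e false (nat_lit 9216) (nat_lit 88) (nat_lit 2) (nat_lit 11) (.e true (nat_lit 4608) (nat_lit 89) (nat_lit 2) (nat_lit 11) (.e true (nat_lit 4608) (nat_lit 95) (nat_lit 2) (nat_lit 11) (.e false (nat_lit 1152) (nat_lit 103) (nat_lit 2) (nat_lit 11) (.e false (nat_lit 4608) (nat_lit 104) (nat_lit 2) (nat_lit 11) (.e true (nat_lit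 4608) (nat_lit 105) (nat_lit 2) (nat_lit 11) (.e false (nat_lit 4608) (nat_lit 106) (nat_lit 2) (nat_lit 11) (.e false (nat_lit 1152) (nat_lit 51) (nat_lit 7) (nat_lit 6) (.e false (nat_lit 2304) (nat_lit 119) (nat_lit 1) (nat_lit 12) (.e true (nat_lit 2304) (nat_lit 120) (nat_lit 1) (nat_lit 12) (.e false (nat_lit 4608) (nat_lit 108) (nat_lit 1) (nat_lit 12) (.e true (nat_lit 4608) (nat_lit 109) (nat_lit 1) (nat_lit 12) (.e true (nat_lit 4608) (nat_lit 112) (nat_lit 1) (nat_lit 12) (.e true (nat_lit 4608) (nat_lit 113) (nat_lit 1) (nat_lit 12) (.e false (nat_lit 2304) (nat_lit 114) (nat_lit 1) (nat_lit 12) (.e true (nat_lit 2304) (nat_lit 116) (nat_lit 1) (nat_lit 12) .nil)))))))))))))))))))))))))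

noncomputable def dP8_i56 : IL := (.e true (nat_lit 1152) (nat_lit 85) (nat_lit 2) (nat_lit 11) (.e false (nat_lit 1920) (nat_lit 87) (nat_lit 2) (nat_lit 11) (.e false (nat_lit 1536) (nat_lit 88) (nat_lit 2) (nat_lit 11) (.e true (nat_lit 2304) (nat_lit 92) (nat_lit 2) (nat_lit 11) (.e false (nat_lit 3072) (nat_lit 93) (nat_lit 2) (nat_lit 11) (.e true (nat_lit 4032) (nat_lit 98) (nat_lit 2) (nat_lit 11) (.e false (nat_lit 1152) (nat_lit 102) (nat_lit 2) (nat_lit 11) (.e false (nat_lit 384) (nat_lit 103) (nat_lit 2) (nat_lit 11) (.e true (nat_lit 3840) (nat_lit 83) (nat_lit 2) (nat_lit 11) (.e false (nat_lit 3072) (nat_lit 91) (nat_lit 2) (nat_lit 11) (.e false (nat_lit 2112) (nat_lit 99) (nat_lit 2) (nat_lit 11) (.e true (nat_lit 1920) (nat_lit 105) (nat_lit 2) (nat_lit 11) (.e false (nat_lit 768) (nat_lit 94) (nat_lit 2) (nat_lit 11) (.e false (nat_lit 4224) (nat_lit 106) (nat_lit 2) (nat_lit 11) (.e false (nat_lit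 4032) (nat_lit 97) (nat_lit 2) (nat_lit 11) (.e true (nat_lit 1728) (nat_lit 100) (nat_lit 2) (nat_lit 11) (.e false (nat_lit 1152) (nat_lit 43) (nat_lit 7) (nat_lit 6) (.e true (nat_lit 1152) (nat_lit 101) (nat_lit 2) (nat_lit 11) (.e false (nat_lit 1152) (nat_lit 107) (nat_lit 2) (nat_lit 11) (.e true (nat_lit 1152) (nat_lit 121) (nat_lit 1) (nat_lit 12) (.e true (nat_lit 1152) (nat_lit 108) (nat_lit 1) (nat_lit 12) (.e true (nat_lit 1152) (nat_lit 49) (nat_lit 7) (nat_lit 6) (.e false (nat_lit 1152) (nat_lit 110) (nat_lit 1) (nat_lit 12) (.e true (nat_lit 1152) (nat_lit 51) (nat_lit 7) (nat_lit 6) (.e false (nat_lit 1152) (nat_lit 112) (nat_lit 1) (nat_lit 12) .nil)))))))))))))))))))))))))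

noncomputable def dP8_i57 : IL := (.e false (nat_lit 2304) (nat_lit 128) (nat_lit 0) (nat_lit 13) (.e false (nat_lit 2304) (nat_lit 129) (nat_lit 0) (nat_lit 13) (.e false (nat_lit 1152) (nat_lit 51) (nat_lit 7) (nat_lit 6) (.e false (nat_lit 2304) (nat_lit 117) (nat_lit 1) (nat_lit 12) (.e false (nat_lit 4608) (nat_lit 82) (nat_lit 2) (nat_lit 11) (.e true (nat_lit 4608) (nat_lit 89) (nat_lit 2) (nat_lit 11) (.e false (nat_lit 23040) (nat_lit 104) (nat_lit 2) (nat_lit 11) (.e true (nat_lit 4608) (nat_lit 86) (nat_lit 2) (nat_lit 11) (.e true (nat_lit 9216) (nat_lit 95) (nat_lit 2) (nat_lit 11) (.e true (nat_lit 4608) (nat_lit 65) (nat_lit 6) (nat_lit 7) (.e false (nat_lit 2304) (nat_lit 131) (nat_lit 0) (nat_lit 13) (.e true (nat_lit 4608) (nat_lit 132) (nat_lit 0) (nat_lit 13) (.e true (nat_lit 1152) (nat_lit 96) (nat_lit 2) (nat_lit 11) (.e false (nat_lit 1152) (nat_lit 97) (nat_lit 2) (nat_lit 11) (.e false (nat_lit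 5760) (nat_lit 98) (nat_lit 2) (nat_lit 11) (.e false (nat_lit 1152) (nat_lit 100) (nat_lit 2) (nat_lit 11) (.e false (nat_lit 1152) (nat_lit 101) (nat_lit 2) (nat_lit 11) (.e true (nat_lit 2304) (nat_lit 87) (nat_lit 2) (nat_lit 11) (.e false (nat_lit 9216) (nat_lit 88) (nat_lit 2) (nat_lit 11) (.e false (nat_lit 1152) (nat_lit 103) (nat_lit 2) (nat_lit 11) (.e true (nat_lit 4608) (nat_lit 105) (nat_lit 2) (nat_lit 11) (.e false (nat_lit 4608) (nat_lit 106) (nat_lit 2) (nat_lit 11) (.e true (nat_lit 2304) (nat_lit 121) (nat_lit 1) (nat_lit 12) (.e false (nat_lit 6912) (nat_lit 119) (nat_lit 1) (nat_lit 12) (.e true (nat_lit 6912) (nat_lit 120) (nat_lit 1) (nat_lit 12) .nil)))))))))))))))))))))))))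

noncomputable def dP8_i58 : IL := (.e true (nat_lit 4608) (nat_lit 84) (nat_lit 2) (nat_lit 11) (.e true (nat_lit 2880) (nat_lit 85) (nat_lit 2) (nat_lit 11) (.e false (nat_lit 1152) (nat_lit 57) (nat_lit 6) (nat_lit 7) (.e true (nat_lit 1152) (nat_lit 58) (nat_lit 6) (nat_lit 7) (.e true (nat_lit 1152) (nat_lit 61) (nat_lit 6) (nat_lit 7) (.e true (nat_lit 1152) (nat_lit 110) (nat_lit 1) (nat_lit 12) (.e true (nat_lit 1152) (nat_lit 113) (nat_lit 1) (nat_lit 12) (.e false (nat_lit 576) (nat_lit 114) (nat_lit 1) (nat_lit 12) (.e false (nat_lit 1152) (nat_lit 115) (nat_lit 1) (nat_lit 12) (.e true (nat_lit 576) (nat_lit 116) (nat_lit 1) (nat_lit 12) (.e false (nat_lit 576) (nat_lit 118) (nat_lit 1) (nat_lit 12) (.e false (nat_lit 576) (nat_lit 119) (nat_lit 1) (nat_lit 12) (.e true (nat_lit 1152) (nat_lit 120) (nat_lit 1) (nat_lit 12) (.e true (nat_lit 576) (nat_lit 121) (nat_lit 1) (nat_lit 12) (.e false (nat_lit 576)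 (nat_lit 87) (nat_lit 2) (nat_lit 11) (.e true (nat_lit 2304) (nat_lit 88) (nat_lit 2) (nat_lit 11) (.e false (nat_lit 1152) (nat_lit 91) (nat_lit 2) (nat_lit 11) (.e true (nat_lit 576) (nat_lit 92) (nat_lit 2) (nat_lit 11) (.e false (nat_lit 1152) (nat_lit 94) (nat_lit 2) (nat_lit 11) (.e false (nat_lit 1152) (nat_lit 96) (nat_lit 2) (nat_lit 11) (.e true (nat_lit 3456) (nat_lit 98) (nat_lit 2) (nat_lit 11) (.e false (nat_lit 576) (nat_lit 99) (nat_lit 2) (nat_lit 11) (.e false (nat_lit 1152) (nat_lit 101) (nat_lit 2) (nat_lit 11) (.e false (nat_lit 2304) (nat_lit 102) (nat_lit 2) (nat_lit 11) (.e false (nat_lit 1728) (nat_lit 103) (nat_lit 2) (nat_lit 11) .nil)))))))))))))))))))))))))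

noncomputable def dP8_i59 : IL := (.s true (nat_lit 2) (nat_lit 10) (nat_lit 2) (nat_lit 1) (nat_lit 7) true (nat_lit 0) true (nat_lit 6) true (nat_lit 4) true (nat_lit 11) true (nat_lit 12) (.s true (nat_lit 4) (nat_lit 10) (nat_lit 2) (nat_lit 2) (nat_lit 6) true (nat_lit 1) true (nat_lit 7) true (nat_lit 4) true (nat_lit 11) true (nat_lit 11) (.s false (nat_lit 1) (nat_lit 10) (nat_lit 2) (nat_lit 6) (nat_lit 2) true (nat_lit 6) true (nat_lit 11) true (nat_lit 4) true (nat_lit 11) true (nat_lit 7) (.s false (nat_lit 1) (nat_lit 10) (nat_lit 6) (nat_lit 2) (nat_lit 2) true (nat_lit 1) true (nat_lit 11) true (nat_lit 4) true (nat_lit 7) true (nat_lit 11) (.s true (nat_lit 2) (nat_lit 10) (nat_lit 7) (nat_lit 2) (nat_lit 1) true (nat_lit 1) true (nat_lit 12) true (nat_lit 4) true (nat_lit 6) true (nat_lit 11) (.s false (nat_lit 2) (nat_lit 18) (nat_lit 2) (nat_lit 2) (nat_lit 3) true (nat_lit 4) true (nat_lit 10) true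 (nat_lit 1) true (nat_lit 11) true (nat_lit 11) (.s false (nat_lit 2) (nat_lit 19) (nat_lit 2) (nat_lit 3) (nat_lit 1) true (nat_lit 7) true (nat_lit 12) true (nat_lit 0) true (nat_lit 11) true (nat_lit 10) (.s false (nat_lit 1) (nat_lit 26) (nat_lit 1) (nat_lit 2) (nat_lit 2) true (nat_lit 7) true (nat_lit 11) false (nat_lit 1) true (nat_lit 12) true (nat_lit 11) (.s false (nat_lit 2) (nat_lit 26) (nat_lit 2) (nat_lit 1) (nat_lit 2) true (nat_lit 6) true (nat_lit 11) false (nat_lit 1) true (nat_lit 11) true (nat_lit 12) (.s false (nat_lit 2) (nat_lit 26) (nat_lit 2) (nat_lit 2) (nat_lit 1) true (nat_lit 7) true (nat_lit 12) false (nat_lit 1) true (nat_lit 11) true (nat_lit 11) (.e false (nat_lit 1152) (nat_lit 44) (nat_lit 7) (nat_lit 6) (.e false (nat_lit 1152) (nat_lit 45) (nat_lit 7) (nat_lit 6) (.e false (nat_lit 1152) (nat_lit 46) (nat_lit 7) (nat_lit 6) (.e true (nat_lit 1152) (nat_lit 55) (nat_lit 7) (nat_lit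 6) (.e false (nat_lit 576) (nat_lit 43) (nat_lit 7) (nat_lit 6) (.e true (nat_lit 1728) (nat_lit 48) (nat_lit 7) (nat_lit 6) (.e false (nat_lit 1728) (nat_lit 49) (nat_lit 7) (nat_lit 6) (.e true (nat_lit 1728) (nat_lit 51) (nat_lit 7) (nat_lit 6) (.e false (nat_lit 1728) (nat_lit 53) (nat_lit 7) (nat_lit 6) (.e true (nat_lit 1728) (nat_lit 54) (nat_lit 7) (nat_lit 6) (.e false (nat_lit 1728) (nat_lit 117) (nat_lit 1) (nat_lit 12) (.e false (nat_lit 2304) (nat_lit 82) (nat_lit 2) (nat_lit 11) (.e false (nat_lit 1152) (nat_lit 95) (nat_lit 2) (nat_lit 11) (.e false (nat_lit 576) (nat_lit 65) (nat_lit 6) (nat_lit 7) (.e true (nat_lit 2304) (nat_lit 83) (nat_lit 2) (nat_lit 11) dP8_i58)))))))))))))))))))))))))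

noncomputable def dP8_i60 : IL := (.e true (nat_lit 2688) (nat_lit 88) (nat_lit 2) (nat_lit 11) (.e false (nat_lit 3264) (nat_lit 91) (nat_lit 2) (nat_lit 11) (.e false (nat_lit 1536) (nat_lit 93) (nat_lit 2) (nat_lit 11) (.e false (nat_lit 384) (nat_lit 94) (nat_lit 2) (nat_lit 11) (.e false (nat_lit 1728) (nat_lit 96) (nat_lit 2) (nat_lit 11) (.e false (nat_lit 576) (nat_lit 97) (nat_lit 2) (nat_lit 11) (.e true (nat_lit 4032) (nat_lit 98) (nat_lit 2) (nat_lit 11) (.e false (nat_lit 768) (nat_lit 99) (nat_lit 2) (nat_lit 11) (.e false (nat_lit 576) (nat_lit 101) (nat_lit 2) (nat_lit 11) (.e false (nat_lit 576) (nat_lit 102) (nat_lit 2) (nat_lit 11) (.e false (nat_lit 768) (nat_lit 103) (nat_lit 2) (nat_lit 11) (.e true (nat_lit 768) (nat_lit 106) (nat_lit 2) (nat_lit 11) (.e false (nat_lit 1152) (nat_lit 107) (nat_lit 2) (nat_lit 11) (.e false (nat_lit 1152) (nat_lit 57) (nat_lit 6) (nat_lit 7) (.e true (nat_lit 576)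 (nat_lit 58) (nat_lit 6) (nat_lit 7) (.e true (nat_lit 576) (nat_lit 59) (nat_lit 6) (nat_lit 7) (.e false (nat_lit 576) (nat_lit 61) (nat_lit 6) (nat_lit 7) (.e false (nat_lit 576) (nat_lit 65) (nat_lit 6) (nat_lit 7) (.e true (nat_lit 1152) (nat_lit 43) (nat_lit 7) (nat_lit 6) (.e false (nat_lit 576) (nat_lit 121) (nat_lit 1) (nat_lit 12) (.e false (nat_lit 1152) (nat_lit 108) (nat_lit 1) (nat_lit 12) (.e false (nat_lit 576) (nat_lit 48) (nat_lit 7) (nat_lit 6) (.e true (nat_lit 576) (nat_lit 109) (nat_lit 1) (nat_lit 12) (.e false (nat_lit 576) (nat_lit 51) (nat_lit 7) (nat_lit 6) (.e true (nat_lit 576) (nat_lit 112) (nat_lit 1) (nat_lit 12) .nil)))))))))))))))))))))))))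

noncomputable def dP8_i61 : IL := (.s false (nat_lit 2) (nat_lit 10) (nat_lit 2) (nat_lit 2) (nat_lit 6) true (nat_lit 1) true (nat_lit 7) true (nat_lit 4) true (nat_lit 11) true (nat_lit 11) (.s true (nat_lit 1) (nat_lit 11) (nat_lit 2) (nat_lit 6) (nat_lit 2) true (nat_lit 6) true (nat_lit 11) true (nat_lit 4) true (nat_lit 11) true (nat_lit 7) (.s true (nat_lit 1) (nat_lit 11) (nat_lit 6) (nat_lit 2) (nat_lit 2) true (nat_lit 1) true (nat_lit 11) true (nat_lit 4) true (nat_lit 7) true (nat_lit 11) (.s true (nat_lit 2) (nat_lit 22) (nat_lit 2) (nat_lit 2) (nat_lit 2) true (nat_lit 6) true (nat_lit 11) false (nat_lit 0) true (nat_lit 11) true (nat_lit 11) (.s true (nat_lit 1) (nat_lit 30) (nat_lit 1) (nat_lit 2) (nat_lit 2) true (nat_lit 7) true (nat_lit 11) false (nat_lit 1) true (nat_lit 12) true (nat_lit 11) (.s true (nat_lit 2) (nat_lit 26) (nat_lit 2) (nat_lit 1) (nat_lit 2) true (nat_lit 6) true (nat_lit 11)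 false (nat_lit 1) true (nat_lit 11) true (nat_lit 12) (.s false (nat_lit 1) (nat_lit 27) (nat_lit 2) (nat_lit 1) (nat_lit 2) true (nat_lit 6) true (nat_lit 11) false (nat_lit 1) true (nat_lit 11) true (nat_lit 12) (.s false (nat_lit 1) (nat_lit 30) (nat_lit 2) (nat_lit 1) (nat_lit 2) true (nat_lit 6) true (nat_lit 11) false (nat_lit 1) true (nat_lit 11) true (nat_lit 12) (.e false (nat_lit 3072) (nat_lit 82) (nat_lit 2) (nat_lit 11) (.e false (nat_lit 3072) (nat_lit 89) (nat_lit 2) (nat_lit 11) (.e true (nat_lit 2112) (nat_lit 90) (nat_lit 2) (nat_lit 11) (.e true (nat_lit 3456) (nat_lit 104) (nat_lit 2) (nat_lit 11) (.e true (nat_lit 1152) (nat_lit 117) (nat_lit 1) (nat_lit 12) (.e false (nat_lit 2688) (nat_lit 86) (nat_lit 2) (nat_lit 11) (.e false (nat_lit 1728) (nat_lit 95) (nat_lit 2) (nat_lit 11) (.e false (nat_lit 576) (nat_lit 45) (nat_lit 7) (nat_lit 6) (.e false (nat_lit 576) (nat_lit 49) (nat_lit 7) (nat_lit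 6) (.e true (nat_lit 576) (nat_lit 53) (nat_lit 7) (nat_lit 6) (.e true (nat_lit 576) (nat_lit 54) (nat_lit 7) (nat_lit 6) (.e true (nat_lit 576) (nat_lit 55) (nat_lit 7) (nat_lit 6) (.e true (nat_lit 1536) (nat_lit 105) (nat_lit 2) (nat_lit 11) (.e true (nat_lit 4224) (nat_lit 83) (nat_lit 2) (nat_lit 11) (.e true (nat_lit 5376) (nat_lit 84) (nat_lit 2) (nat_lit 11) (.e true (nat_lit 4032) (nat_lit 85) (nat_lit 2) (nat_lit 11) (.e false (nat_lit 1536) (nat_lit 87) (nat_lit 2) (nat_lit 11) dP8_i60)))))))))))))))))))))))))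

noncomputable def dP8_i62 : IL := (.s false (nat_lit 1) (nat_lit 30) (nat_lit 2) (nat_lit 1) (nat_lit 2) true (nat_lit 6) true (nat_lit 11) false (nat_lit 1) true (nat_lit 11) true (nat_lit 12) (.e false (nat_lit 960) (nat_lit 82) (nat_lit 2) (nat_lit 11) (.e true (nat_lit 960) (nat_lit 83) (nat_lit 2) (nat_lit 11) (.e true (nat_lit 960) (nat_lit 84) (nat_lit 2) (nat_lit 11) (.e true (nat_lit 576) (nat_lit 85) (nat_lit 2) (nat_lit 11) (.e false (nat_lit 192) (nat_lit 86) (nat_lit 2) (nat_lit 11) (.e false (nat_lit 768) (nat_lit 87) (nat_lit 2) (nat_lit 11) (.e true (nat_lit 768) (nat_lit 88) (nat_lit 2) (nat_lit 11) (.e false (nat_lit 384) (nat_lit 89) (nat_lit 2) (nat_lit 11) (.e true (nat_lit 192) (nat_lit 90) (nat_lit 2) (nat_lit 11) (.e true (nat_lit 384) (nat_lit 91) (nat_lit 2) (nat_lit 11) (.e true (nat_lit 384) (nat_lit 93) (nat_lit 2) (nat_lit 11) (.e false (nat_lit 768) (nat_lit 94) (nat_lit 2) (nat_lit 11)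 (.e true (nat_lit 192) (nat_lit 99) (nat_lit 2) (nat_lit 11) (.e true (nat_lit 192) (nat_lit 103) (nat_lit 2) (nat_lit 11) (.e false (nat_lit 384) (nat_lit 105) (nat_lit 2) (nat_lit 11) (.e true (nat_lit 384) (nat_lit 106) (nat_lit 2) (nat_lit 11) (.e true (nat_lit 1152) (nat_lit 108) (nat_lit 1) (nat_lit 12) (.e false (nat_lit 1152) (nat_lit 109) (nat_lit 1) (nat_lit 12) (.e false (nat_lit 1152) (nat_lit 113) (nat_lit 1) (nat_lit 12) (.e false (nat_lit 576) (nat_lit 116) (nat_lit 1) (nat_lit 12) (.e false (nat_lit 576) (nat_lit 117) (nat_lit 1) (nat_lit 12) (.e false (nat_lit 576) (nat_lit 51) (nat_lit 7) (nat_lit 6) (.e false (nat_lit 576) (nat_lit 95) (nat_lit 2) (nat_lit 11) (.e true (nat_lit 576) (nat_lit 104) (nat_lit 2) (nat_lit 11) .nil)))))))))))))))))))))))))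

noncomputable def dP8_i63 : IL := (.e true (nat_lit 576) (nat_lit 96) (nat_lit 2) (nat_lit 11) (.e false (nat_lit 1056) (nat_lit 99) (nat_lit 2) (nat_lit 11) (.e true (nat_lit 960) (nat_lit 105) (nat_lit 2) (nat_lit 11) (.e true (nat_lit 192) (nat_lit 94) (nat_lit 2) (nat_lit 11) (.e false (nat_lit 2688) (nat_lit 106) (nat_lit 2) (nat_lit 11) (.e true (nat_lit 576) (nat_lit 58) (nat_lit 6) (nat_lit 7) (.e true (nat_lit 1152) (nat_lit 61) (nat_lit 6) (nat_lit 7) (.e false (nat_lit 576) (nat_lit 65) (nat_lit 6) (nat_lit 7) (.e true (nat_lit 576) (nat_lit 55) (nat_lit 7) (nat_lit 6) (.e true (nat_lit 288) (nat_lit 125) (nat_lit 0) (nat_lit 13) (.e false (nat_lit 288) (nat_lit 126) (nat_lit 0) (nat_lit 13) (.e true (nat_lit 288) (nat_lit 127) (nat_lit 0) (nat_lit 13) (.e false (nat_lit 288) (nat_lit 128) (nat_lit 0) (nat_lit 13) (.e false (nat_lit 576) (nat_lit 129) (nat_lit 0) (nat_lit 13) (.e false (nat_lit 576) (nat_lit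 131) (nat_lit 0) (nat_lit 13) (.e false (nat_lit 576) (nat_lit 97) (nat_lit 2) (nat_lit 11) (.e true (nat_lit 576) (nat_lit 100) (nat_lit 2) (nat_lit 11) (.e true (nat_lit 576) (nat_lit 48) (nat_lit 7) (nat_lit 6) (.e true (nat_lit 576) (nat_lit 109) (nat_lit 1) (nat_lit 12) (.e true (nat_lit 1152) (nat_lit 51) (nat_lit 7) (nat_lit 6) (.e false (nat_lit 576) (nat_lit 108) (nat_lit 1) (nat_lit 12) (.e true (nat_lit 1152) (nat_lit 113) (nat_lit 1) (nat_lit 12) (.e false (nat_lit 576) (nat_lit 114) (nat_lit 1) (nat_lit 12) (.e true (nat_lit 576) (nat_lit 119) (nat_lit 1) (nat_lit 12) (.e false (nat_lit 1152) (nat_lit 120) (nat_lit 1) (nat_lit 12) .nil)))))))))))))))))))))))))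

noncomputable def dP8_i64 : IL := (.s false (nat_lit 1) (nat_lit 12) (nat_lit 6) (nat_lit 2) (nat_lit 2) true (nat_lit 1) true (nat_lit 11) true (nat_lit 4) true (nat_lit 7) true (nat_lit 11) (.s false (nat_lit 1) (nat_lit 10) (nat_lit 7) (nat_lit 2) (nat_lit 1) true (nat_lit 1) true (nat_lit 12) true (nat_lit 4) true (nat_lit 6) true (nat_lit 11) (.s true (nat_lit 1) (nat_lit 17) (nat_lit 0) (nat_lit 2) (nat_lit 6) true (nat_lit 4) true (nat_lit 7) true (nat_lit 1) true (nat_lit 13) true (nat_lit 11) (.s true (nat_lit 1) (nat_lit 17) (nat_lit 6) (nat_lit 0) (nat_lit 2) true (nat_lit 1) true (nat_lit 11) true (nat_lit 1) true (nat_lit 7) true (nat_lit 13) (.s false (nat_lit 1) (nat_lit 30) (nat_lit 1) (nat_lit 2) (nat_lit 2) true (nat_lit 7) true (nat_lit 11) false (nat_lit 1) true (nat_lit 12) true (nat_lit 11) (.s true (nat_lit 1) (nat_lit 27) (nat_lit 2) (nat_lit 1) (nat_lit 2) true (nat_lit 6) true (nat_lit 11)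 false (nat_lit 1) true (nat_lit 11) true (nat_lit 12) (.s true (nat_lit 2) (nat_lit 30) (nat_lit 2) (nat_lit 1) (nat_lit 2) true (nat_lit 6) true (nat_lit 11) false (nat_lit 1) true (nat_lit 11) true (nat_lit 12) (.s true (nat_lit 1) (nat_lit 26) (nat_lit 2) (nat_lit 2) (nat_lit 1) true (nat_lit 7) true (nat_lit 12) false (nat_lit 1) true (nat_lit 11) true (nat_lit 11) (.s false (nat_lit 1) (nat_lit 39) (nat_lit 1) (nat_lit 0) (nat_lit 2) true (nat_lit 7) true (nat_lit 11) false (nat_lit 4) true (nat_lit 12) true (nat_lit 13) (.e true (nat_lit 96) (nat_lit 82) (nat_lit 2) (nat_lit 11) (.e true (nat_lit 1344) (nat_lit 86) (nat_lit 2) (nat_lit 11) (.e true (nat_lit 1440) (nat_lit 95) (nat_lit 2) (nat_lit 11) (.e false (nat_lit 3168) (nat_lit 104) (nat_lit 2) (nat_lit 11) (.e true (nat_lit 1824) (nat_lit 89) (nat_lit 2) (nat_lit 11) (.e false (nat_lit 1536) (nat_lit 84) (nat_lit 2) (nat_lit 11) (.e false (nat_lit 1440)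 (nat_lit 85) (nat_lit 2) (nat_lit 11) (.e true (nat_lit 480) (nat_lit 87) (nat_lit 2) (nat_lit 11) (.e false (nat_lit 1920) (nat_lit 88) (nat_lit 2) (nat_lit 11) (.e false (nat_lit 480) (nat_lit 90) (nat_lit 2) (nat_lit 11) (.e true (nat_lit 864) (nat_lit 92) (nat_lit 2) (nat_lit 11) (.e false (nat_lit 384) (nat_lit 93) (nat_lit 2) (nat_lit 11) (.e false (nat_lit 1152) (nat_lit 98) (nat_lit 2) (nat_lit 11) (.e true (nat_lit 96) (nat_lit 103) (nat_lit 2) (nat_lit 11) (.e false (nat_lit 960) (nat_lit 83) (nat_lit 2) (nat_lit 11) (.e true (nat_lit 192) (nat_lit 91) (nat_lit 2) (nat_lit 11) dP8_i63)))))))))))))))))))))))))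

noncomputable def dP8_i65 : IL := (.e false (nat_lit 576) (nat_lit 59) (nat_lit 6) (nat_lit 7) (.e true (nat_lit 1344) (nat_lit 83) (nat_lit 2) (nat_lit 11) (.e true (nat_lit 1920) (nat_lit 84) (nat_lit 2) (nat_lit 11) (.e true (nat_lit 1152) (nat_lit 85) (nat_lit 2) (nat_lit 11) (.e false (nat_lit 384) (nat_lit 87) (nat_lit 2) (nat_lit 11) (.e true (nat_lit 1536) (nat_lit 88) (nat_lit 2) (nat_lit 11) (.e true (nat_lit 192) (nat_lit 91) (nat_lit 2) (nat_lit 11) (.e true (nat_lit 576) (nat_lit 92) (nat_lit 2) (nat_lit 11) (.e true (nat_lit 192) (nat_lit 93) (nat_lit 2) (nat_lit 11) (.e false (nat_lit 1536) (nat_lit 94) (nat_lit 2) (nat_lit 11) (.e true (nat_lit 576) (nat_lit 96) (nat_lit 2) (nat_lit 11) (.e false (nat_lit 864) (nat_lit 97) (nat_lit 2) (nat_lit 11) (.e true (nat_lit 864) (nat_lit 98) (nat_lit 2) (nat_lit 11) (.e true (nat_lit 96) (nat_lit 99) (nat_lit 2) (nat_lit 11) (.e true (nat_lit 288) (nat_lit 100)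 (nat_lit 2) (nat_lit 11) (.e false (nat_lit 576) (nat_lit 102) (nat_lit 2) (nat_lit 11) (.e false (nat_lit 768) (nat_lit 103) (nat_lit 2) (nat_lit 11) (.e false (nat_lit 192) (nat_lit 105) (nat_lit 2) (nat_lit 11) (.e true (nat_lit 192) (nat_lit 106) (nat_lit 2) (nat_lit 11) (.e false (nat_lit 1728) (nat_lit 108) (nat_lit 1) (nat_lit 12) (.e false (nat_lit 576) (nat_lit 110) (nat_lit 1) (nat_lit 12) (.e true (nat_lit 1728) (nat_lit 112) (nat_lit 1) (nat_lit 12) (.e true (nat_lit 1152) (nat_lit 113) (nat_lit 1) (nat_lit 12) (.e true (nat_lit 864) (nat_lit 123) (nat_lit 1) (nat_lit 12) (.e false (nat_lit 576) (nat_lit 107) (nat_lit 2) (nat_lit 11) .nil)))))))))))))))))))))))))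

noncomputable def dP8_i66 : IL := (.e true (nat_lit 1152) (nat_lit 82) (nat_lit 2) (nat_lit 11) (.e false (nat_lit 3456) (nat_lit 83) (nat_lit 2) (nat_lit 11) (.e false (nat_lit 4608) (nat_lit 84) (nat_lit 2) (nat_lit 11) (.e false (nat_lit 2304) (nat_lit 85) (nat_lit 2) (nat_lit 11) (.e true (nat_lit 3456) (nat_lit 86) (nat_lit 2) (nat_lit 11) (.e true (nat_lit 1152) (nat_lit 87) (nat_lit 2) (nat_lit 11) (.e true (nat_lit 3456) (nat_lit 91) (nat_lit 2) (nat_lit 11) (.e true (nat_lit 2304) (nat_lit 93) (nat_lit 2) (nat_lit 11) (.e true (nat_lit 1152) (nat_lit 95) (nat_lit 2) (nat_lit 11) (.e true (nat_lit 576) (nat_lit 96) (nat_lit 2) (nat_lit 11) (.e true (nat_lit 2304) (nat_lit 97) (nat_lit 2) (nat_lit 11) (.e false (nat_lit 3456) (nat_lit 98) (nat_lit 2) (nat_lit 11) (.e true (nat_lit 1728) (nat_lit 99) (nat_lit 2) (nat_lit 11) (.e false (nat_lit 1152) (nat_lit 100) (nat_lit 2) (nat_lit 11) (.e true (nat_lit 1152)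 (nat_lit 102) (nat_lit 2) (nat_lit 11) (.e true (nat_lit 576) (nat_lit 103) (nat_lit 2) (nat_lit 11) (.e false (nat_lit 1152) (nat_lit 104) (nat_lit 2) (nat_lit 11) (.e false (nat_lit 1152) (nat_lit 105) (nat_lit 2) (nat_lit 11) (.e true (nat_lit 1152) (nat_lit 106) (nat_lit 2) (nat_lit 11) (.e true (nat_lit 1152) (nat_lit 107) (nat_lit 2) (nat_lit 11) (.e false (nat_lit 1152) (nat_lit 92) (nat_lit 2) (nat_lit 11) (.e false (nat_lit 576) (nat_lit 101) (nat_lit 2) (nat_lit 11) (.e false (nat_lit 576) (nat_lit 51) (nat_lit 7) (nat_lit 6) (.e true (nat_lit 1152) (nat_lit 119) (nat_lit 1) (nat_lit 12) (.e false (nat_lit 1152) (nat_lit 120) (nat_lit 1) (nat_lit 12) .nil)))))))))))))))))))))))))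

noncomputable def dP8_i67 : IL := (.e true (nat_lit 3264) (nat_lit 84) (nat_lit 2) (nat_lit 11) (.e true (nat_lit 1728) (nat_lit 85) (nat_lit 2) (nat_lit 11) (.e false (nat_lit 1344) (nat_lit 87) (nat_lit 2) (nat_lit 11) (.e true (nat_lit 768) (nat_lit 88) (nat_lit 2) (nat_lit 11) (.e false (nat_lit 2496) (nat_lit 91) (nat_lit 2) (nat_lit 11) (.e true (nat_lit 576) (nat_lit 92) (nat_lit 2) (nat_lit 11) (.e false (nat_lit 1920) (nat_lit 93) (nat_lit 2) (nat_lit 11) (.e false (nat_lit 192) (nat_lit 94) (nat_lit 2) (nat_lit 11) (.e false (nat_lit 576) (nat_lit 96) (nat_lit 2) (nat_lit 11) (.e false (nat_lit 1440) (nat_lit 97) (nat_lit 2) (nat_lit 11) (.e true (nat_lit 2592) (nat_lit 98) (nat_lit 2) (nat_lit 11) (.e false (nat_lit 672) (nat_lit 99) (nat_lit 2) (nat_lit 11) (.e true (nat_lit 288) (nat_lit 100) (nat_lit 2) (nat_lit 11) (.e false (nat_lit 576) (nat_lit 102) (nat_lit 2) (nat_lit 11) (.e false (nat_lit 384)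 (nat_lit 103) (nat_lit 2) (nat_lit 11) (.e true (nat_lit 192) (nat_lit 105) (nat_lit 2) (nat_lit 11) (.e false (nat_lit 192) (nat_lit 106) (nat_lit 2) (nat_lit 11) (.e false (nat_lit 576) (nat_lit 107) (nat_lit 2) (nat_lit 11) (.e false (nat_lit 576) (nat_lit 127) (nat_lit 0) (nat_lit 13) (.e true (nat_lit 576) (nat_lit 128) (nat_lit 0) (nat_lit 13) (.e true (nat_lit 576) (nat_lit 129) (nat_lit 0) (nat_lit 13) (.e false (nat_lit 576) (nat_lit 130) (nat_lit 0) (nat_lit 13) (.e true (nat_lit 576) (nat_lit 131) (nat_lit 0) (nat_lit 13) (.e false (nat_lit 576) (nat_lit 132) (nat_lit 0) (nat_lit 13) (.e true (nat_lit 576) (nat_lit 119) (nat_lit 1) (nat_lit 12) .nil)))))))))))))))))))))))))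

noncomputable def dP8_i68 : IL := (.e false (nat_lit 1920) (nat_lit 83) (nat_lit 2) (nat_lit 11) (.e false (nat_lit 2496) (nat_lit 84) (nat_lit 2) (nat_lit 11) (.e false (nat_lit 576) (nat_lit 85) (nat_lit 2) (nat_lit 11) (.e true (nat_lit 1536) (nat_lit 86) (nat_lit 2) (nat_lit 11) (.e true (nat_lit 960) (nat_lit 87) (nat_lit 2) (nat_lit 11) (.e true (nat_lit 768) (nat_lit 88) (nat_lit 2) (nat_lit 11) (.e false (nat_lit 384) (nat_lit 89) (nat_lit 2) (nat_lit 11) (.e false (nat_lit 384) (nat_lit 90) (nat_lit 2) (nat_lit 11) (.e true (nat_lit 2112) (nat_lit 91) (nat_lit 2) (nat_lit 11) (.e false (nat_lit 1152) (nat_lit 92) (nat_lit 2) (nat_lit 11) (.e true (nat_lit 1536) (nat_lit 93) (nat_lit 2) (nat_lit 11) (.e true (nat_lit 384) (nat_lit 94) (nat_lit 2) (nat_lit 11) (.e true (nat_lit 2016) (nat_lit 97) (nat_lit 2) (nat_lit 11) (.e false (nat_lit 2016) (nat_lit 98) (nat_lit 2) (nat_lit 11) (.e true (nat_lit 1056) (nat_lit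 99) (nat_lit 2) (nat_lit 11) (.e false (nat_lit 864) (nat_lit 100) (nat_lit 2) (nat_lit 11) (.e false (nat_lit 576) (nat_lit 101) (nat_lit 2) (nat_lit 11) (.e true (nat_lit 192) (nat_lit 103) (nat_lit 2) (nat_lit 11) (.e false (nat_lit 960) (nat_lit 105) (nat_lit 2) (nat_lit 11) (.e true (nat_lit 960) (nat_lit 106) (nat_lit 2) (nat_lit 11) (.e true (nat_lit 576) (nat_lit 107) (nat_lit 2) (nat_lit 11) (.e false (nat_lit 576) (nat_lit 121) (nat_lit 1) (nat_lit 12) (.e false (nat_lit 576) (nat_lit 51) (nat_lit 7) (nat_lit 6) (.e true (nat_lit 576) (nat_lit 102) (nat_lit 2) (nat_lit 11) (.e true (nat_lit 576) (nat_lit 112) (nat_lit 1) (nat_lit 12) .nil)))))))))))))))))))))))))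

noncomputable def dP8_i69 : IL := (.e true (nat_lit 576) (nat_lit 43) (nat_lit 7) (nat_lit 6) (.e true (nat_lit 1344) (nat_lit 83) (nat_lit 2) (nat_lit 11) (.e true (nat_lit 768) (nat_lit 84) (nat_lit 2) (nat_lit 11) (.e true (nat_lit 1440) (nat_lit 85) (nat_lit 2) (nat_lit 11) (.e false (nat_lit 96) (nat_lit 87) (nat_lit 2) (nat_lit 11) (.e true (nat_lit 384) (nat_lit 88) (nat_lit 2) (nat_lit 11) (.e false (nat_lit 384) (nat_lit 91) (nat_lit 2) (nat_lit 11) (.e true (nat_lit 288) (nat_lit 92) (nat_lit 2) (nat_lit 11) (.e false (nat_lit 384) (nat_lit 93) (nat_lit 2) (nat_lit 11) (.e true (nat_lit 192) (nat_lit 94) (nat_lit 2) (nat_lit 11) (.e true (nat_lit 288) (nat_lit 97) (nat_lit 2) (nat_lit 11) (.e true (nat_lit 288) (nat_lit 98) (nat_lit 2) (nat_lit 11) (.e false (nat_lit 192) (nat_lit 99) (nat_lit 2) (nat_lit 11) (.e false (nat_lit 288) (nat_lit 100) (nat_lit 2) (nat_lit 11) (.e false (nat_lit 480) (nat_lit 103)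 (nat_lit 2) (nat_lit 11) (.e true (nat_lit 960) (nat_lit 105) (nat_lit 2) (nat_lit 11) (.e false (nat_lit 960) (nat_lit 106) (nat_lit 2) (nat_lit 11) (.e false (nat_lit 576) (nat_lit 101) (nat_lit 2) (nat_lit 11) (.e false (nat_lit 576) (nat_lit 96) (nat_lit 2) (nat_lit 11) (.e false (nat_lit 576) (nat_lit 102) (nat_lit 2) (nat_lit 11) (.e false (nat_lit 576) (nat_lit 107) (nat_lit 2) (nat_lit 11) (.e true (nat_lit 576) (nat_lit 125) (nat_lit 0) (nat_lit 13) (.e false (nat_lit 576) (nat_lit 126) (nat_lit 0) (nat_lit 13) (.e false (nat_lit 576) (nat_lit 132) (nat_lit 0) (nat_lit 13) (.e true (nat_lit 576) (nat_lit 120) (nat_lit 1) (nat_lit 12) .nil)))))))))))))))))))))))))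

noncomputable def dP8_i70 : IL := (.s true (nat_lit 2) (nat_lit 18) (nat_lit 2) (nat_lit 2) (nat_lit 3) true (nat_lit 4) true (nat_lit 10) true (nat_lit 1) true (nat_lit 11) true (nat_lit 11) (.s true (nat_lit 2) (nat_lit 22) (nat_lit 2) (nat_lit 2) (nat_lit 2) true (nat_lit 6) true (nat_lit 11) false (nat_lit 0) true (nat_lit 11) true (nat_lit 11) (.s true (nat_lit 2) (nat_lit 26) (nat_lit 2) (nat_lit 1) (nat_lit 2) true (nat_lit 6) true (nat_lit 11) false (nat_lit 1) true (nat_lit 11) true (nat_lit 12) (.s true (nat_lit 2) (nat_lit 26) (nat_lit 2) (nat_lit 2) (nat_lit 1) true (nat_lit 7) true (nat_lit 12) false (nat_lit 1) true (nat_lit 11) true (nat_lit 11) (.e true (nat_lit 1152) (nat_lit 44) (nat_lit 7) (nat_lit 6) (.e true (nat_lit 1152) (nat_lit 45) (nat_lit 7) (nat_lit 6) (.e true (nat_lit 1152) (nat_lit 46) (nat_lit 7) (nat_lit 6) (.e false (nat_lit 1728) (nat_lit 55) (nat_lit 7) (nat_lit 6) (.e true (nat_lit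 1728) (nat_lit 43) (nat_lit 7) (nat_lit 6) (.e false (nat_lit 1728) (nat_lit 48) (nat_lit 7) (nat_lit 6) (.e true (nat_lit 1728) (nat_lit 49) (nat_lit 7) (nat_lit 6) (.e false (nat_lit 1728) (nat_lit 51) (nat_lit 7) (nat_lit 6) (.e true (nat_lit 1728) (nat_lit 53) (nat_lit 7) (nat_lit 6) (.e false (nat_lit 1728) (nat_lit 54) (nat_lit 7) (nat_lit 6) (.e true (nat_lit 1152) (nat_lit 117) (nat_lit 1) (nat_lit 12) (.e false (nat_lit 1152) (nat_lit 82) (nat_lit 2) (nat_lit 11) (.e false (nat_lit 2304) (nat_lit 89) (nat_lit 2) (nat_lit 11) (.e true (nat_lit 1152) (nat_lit 90) (nat_lit 2) (nat_lit 11) (.e true (nat_lit 3456) (nat_lit 104) (nat_lit 2) (nat_lit 11) (.e false (nat_lit 1152) (nat_lit 86) (nat_lit 2) (nat_lit 11) (.e false (nat_lit 1152) (nat_lit 95) (nat_lit 2) (nat_lit 11) (.e false (nat_lit 1152) (nat_lit 65) (nat_lit 6) (nat_lit 7) (.e true (nat_lit 1152) (nat_lit 83) (nat_lit 2) (nat_lit 11) (.e true (nat_lit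 1152) (nat_lit 84) (nat_lit 2) (nat_lit 11) (.e true (nat_lit 1152) (nat_lit 85) (nat_lit 2) (nat_lit 11) .nil)))))))))))))))))))))))))

noncomputable def dP8_i71 : IL := (.e false (nat_lit 576) (nat_lit 45) (nat_lit 7) (nat_lit 6) (.e false (nat_lit 2112) (nat_lit 84) (nat_lit 2) (nat_lit 11) (.e true (nat_lit 960) (nat_lit 82) (nat_lit 2) (nat_lit 11) (.e false (nat_lit 1536) (nat_lit 83) (nat_lit 2) (nat_lit 11) (.e false (nat_lit 576) (nat_lit 85) (nat_lit 2) (nat_lit 11) (.e true (nat_lit 768) (nat_lit 86) (nat_lit 2) (nat_lit 11) (.e true (nat_lit 1344) (nat_lit 87) (nat_lit 2) (nat_lit 11) (.e false (nat_lit 768) (nat_lit 88) (nat_lit 2) (nat_lit 11) (.e true (nat_lit 960) (nat_lit 89) (nat_lit 2) (nat_lit 11) (.e false (nat_lit 192) (nat_lit 90) (nat_lit 2) (nat_lit 11) (.e true (nat_lit 1344) (nat_lit 91) (nat_lit 2) (nat_lit 11) (.e false (nat_lit 576) (nat_lit 92) (nat_lit 2) (nat_lit 11) (.e true (nat_lit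 768) (nat_lit 93) (nat_lit 2) (nat_lit 11) (.e true (nat_lit 768) (nat_lit 94) (nat_lit 2) (nat_lit 11) (.e true (nat_lit 576) (nat_lit 95) (nat_lit 2) (nat_lit 11) (.e true (nat_lit 2016) (nat_lit 97) (nat_lit 2) (nat_lit 11) (.e false (nat_lit 2016) (nat_lit 98) (nat_lit 2) (nat_lit 11) (.e true (nat_lit 672) (nat_lit 99) (nat_lit 2) (nat_lit 11) (.e false (nat_lit 864) (nat_lit 100) (nat_lit 2) (nat_lit 11) (.e false (nat_lit 576) (nat_lit 101) (nat_lit 2) (nat_lit 11) (.e false (nat_lit 192) (nat_lit 103) (nat_lit 2) (nat_lit 11) (.e false (nat_lit 576) (nat_lit 104) (nat_lit 2) (nat_lit 11) (.e false (nat_lit 192) (nat_lit 105) (nat_lit 2) (nat_lit 11) (.e true (nat_lit 192) (nat_lit 106) (nat_lit 2) (nat_lit 11) (.e true (nat_lit 576) (nat_lit 107) (nat_lit 2) (nat_lit 11) .nil)))))))))))))))))))))))))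

noncomputable def dP8_i72 : IL := (.e false (nat_lit 2304) (nat_lit 85) (nat_lit 2) (nat_lit 11) (.e true (nat_lit 2304) (nat_lit 86) (nat_lit 2) (nat_lit 11) (.e true (nat_lit 576) (nat_lit 87) (nat_lit 2) (nat_lit 11) (.e false (nat_lit 1152) (nat_lit 88) (nat_lit 2) (nat_lit 11) (.e true (nat_lit 576) (nat_lit 89) (nat_lit 2) (nat_lit 11) (.e false (nat_lit 576) (nat_lit 90) (nat_lit 2) (nat_lit 11) (.e true (nat_lit 1728) (nat_lit 91) (nat_lit 2) (nat_lit 11) (.e false (nat_lit 576) (nat_lit 92) (nat_lit 2) (nat_lit 11) (.e true (nat_lit 1152) (nat_lit 93) (nat_lit 2) (nat_lit 11) (.e true (nat_lit 576) (nat_lit 94) (nat_lit 2) (nat_lit 11) (.e true (nat_lit 1152) (nat_lit 95) (nat_lit 2) (nat_lit 11) (.e true (nat_lit 864) (nat_lit 97) (nat_lit 2) (nat_lit 11) (.e false (nat_lit 3744) (nat_lit 98) (nat_lit 2) (nat_lit 11) (.e true (nat_lit 864) (nat_lit 99) (nat_lit 2) (nat_lit 11) (.e false (nat_lit 288) (nat_lit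 100) (nat_lit 2) (nat_lit 11) (.e true (nat_lit 576) (nat_lit 102) (nat_lit 2) (nat_lit 11) (.e true (nat_lit 576) (nat_lit 103) (nat_lit 2) (nat_lit 11) (.e false (nat_lit 1152) (nat_lit 104) (nat_lit 2) (nat_lit 11) (.e false (nat_lit 1728) (nat_lit 125) (nat_lit 0) (nat_lit 13) (.e true (nat_lit 576) (nat_lit 128) (nat_lit 0) (nat_lit 13) (.e true (nat_lit 576) (nat_lit 129) (nat_lit 0) (nat_lit 13) (.e true (nat_lit 576) (nat_lit 132) (nat_lit 0) (nat_lit 13) (.e true (nat_lit 576) (nat_lit 54) (nat_lit 7) (nat_lit 6) (.e true (nat_lit 576) (nat_lit 96) (nat_lit 2) (nat_lit 11) (.e true (nat_lit 576) (nat_lit 107) (nat_lit 2) (nat_lit 11) .nil)))))))))))))))))))))))))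

noncomputable def dP8_i73 : IL := (.e true (nat_lit 384) (nat_lit 82) (nat_lit 2) (nat_lit 11) (.e true (nat_lit 1920) (nat_lit 86) (nat_lit 2) (nat_lit 11) (.e true (nat_lit 384) (nat_lit 89) (nat_lit 2) (nat_lit 11) (.e false (nat_lit 768) (nat_lit 90) (nat_lit 2) (nat_lit 11) (.e true (nat_lit 1152) (nat_lit 95) (nat_lit 2) (nat_lit 11) (.e false (nat_lit 1152) (nat_lit 104) (nat_lit 2) (nat_lit 11) (.e false (nat_lit 1536) (nat_lit 83) (nat_lit 2) (nat_lit 11) (.e false (nat_lit 768) (nat_lit 88) (nat_lit 2) (nat_lit 11) (.e true (nat_lit 768) (nat_lit 93) (nat_lit 2) (nat_lit 11) (.e true (nat_lit 384) (nat_lit 103) (nat_lit 2) (nat_lit 11) (.e true (nat_lit 576) (nat_lit 129) (nat_lit 0) (nat_lit 13) (.e false (nat_lit 576) (nat_lit 132) (nat_lit 0) (nat_lit 13) (.e false (nat_lit 576) (nat_lit 53) (nat_lit 7) (nat_lit 6) (.e true (nat_lit 576) (nat_lit 74) (nat_lit 4) (nat_lit 9) (.e true (nat_lit 576) (nat_lit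 114) (nat_lit 1) (nat_lit 12) (.e true (nat_lit 1152) (nat_lit 108) (nat_lit 1) (nat_lit 12) (.e false (nat_lit 1152) (nat_lit 109) (nat_lit 1) (nat_lit 12) (.e false (nat_lit 1152) (nat_lit 112) (nat_lit 1) (nat_lit 12) (.e false (nat_lit 1152) (nat_lit 113) (nat_lit 1) (nat_lit 12) (.e false (nat_lit 576) (nat_lit 116) (nat_lit 1) (nat_lit 12) (.e true (nat_lit 576) (nat_lit 117) (nat_lit 1) (nat_lit 12) (.e true (nat_lit 576) (nat_lit 118) (nat_lit 1) (nat_lit 12) (.e true (nat_lit 1152) (nat_lit 119) (nat_lit 1) (nat_lit 12) (.e false (nat_lit 1152) (nat_lit 120) (nat_lit 1) (nat_lit 12) (.e false (nat_lit 576) (nat_lit 121) (nat_lit 1) (nat_lit 12) .nil)))))))))))))))))))))))))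

noncomputable def dP8_i74 : IL := (.s false (nat_lit 1) (nat_lit 40) (nat_lit 0) (nat_lit 2) (nat_lit 1) true (nat_lit 10) true (nat_lit 12) false (nat_lit 4) true (nat_lit 13) true (nat_lit 11) (.e true (nat_lit 1728) (nat_lit 108) (nat_lit 1) (nat_lit 12) (.e false (nat_lit 1728) (nat_lit 109) (nat_lit 1) (nat_lit 12) (.e false (nat_lit 1728) (nat_lit 113) (nat_lit 1) (nat_lit 12) (.e true (nat_lit 864) (nat_lit 114) (nat_lit 1) (nat_lit 12) (.e false (nat_lit 864) (nat_lit 116) (nat_lit 1) (nat_lit 12) (.e false (nat_lit 288) (nat_lit 118) (nat_lit 1) (nat_lit 12) (.e false (nat_lit 288) (nat_lit 119) (nat_lit 1) (nat_lit 12) (.e true (nat_lit 864) (nat_lit 120) (nat_lit 1) (nat_lit 12) (.e true (nat_lit 288) (nat_lit 115) (nat_lit 1) (nat_lit 12) (.e false (nat_lit 1152) (nat_lit 117) (nat_lit 1) (nat_lit 12) (.e true (nat_lit 864) (nat_lit 121) (nat_lit 1) (nat_lit 12) (.e true (nat_lit 288) (nat_lit 123) (nat_lit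 1) (nat_lit 12) (.e false (nat_lit 576) (nat_lit 68) (nat_lit 5) (nat_lit 8) (.e false (nat_lit 576) (nat_lit 69) (nat_lit 5) (nat_lit 8) (.e true (nat_lit 576) (nat_lit 71) (nat_lit 5) (nat_lit 8) (.e true (nat_lit 576) (nat_lit 72) (nat_lit 5) (nat_lit 8) (.e false (nat_lit 1152) (nat_lit 112) (nat_lit 1) (nat_lit 12) (.e false (nat_lit 576) (nat_lit 44) (nat_lit 7) (nat_lit 6) (.e true (nat_lit 576) (nat_lit 102) (nat_lit 2) (nat_lit 11) (.e false (nat_lit 576) (nat_lit 79) (nat_lit 3) (nat_lit 10) (.e false (nat_lit 576) (nat_lit 125) (nat_lit 0) (nat_lit 13) (.e true (nat_lit 576) (nat_lit 126) (nat_lit 0) (nat_lit 13) (.e true (nat_lit 576) (nat_lit 132) (nat_lit 0) (nat_lit 13) (.e false (nat_lit 576) (nat_lit 100) (nat_lit 2) (nat_lit 11) .nil)))))))))))))))))))))))))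

noncomputable def dP8_i75 : IL := (.e false (nat_lit 3456) (nat_lit 104) (nat_lit 2) (nat_lit 11) (.e true (nat_lit 576) (nat_lit 82) (nat_lit 2) (nat_lit 11) (.e true (nat_lit 3456) (nat_lit 86) (nat_lit 2) (nat_lit 11) (.e true (nat_lit 1728) (nat_lit 95) (nat_lit 2) (nat_lit 11) (.e true (nat_lit 576) (nat_lit 89) (nat_lit 2) (nat_lit 11) (.e true (nat_lit 576) (nat_lit 65) (nat_lit 6) (nat_lit 7) (.e false (nat_lit 3456) (nat_lit 83) (nat_lit 2) (nat_lit 11) (.e false (nat_lit 4608) (nat_lit 84) (nat_lit 2) (nat_lit 11) (.e false (nat_lit 1152) (nat_lit 85) (nat_lit 2) (nat_lit 11) (.e true (nat_lit 2304) (nat_lit 87) (nat_lit 2) (nat_lit 11) (.e true (nat_lit 2880) (nat_lit 91) (nat_lit 2) (nat_lit 11) (.e false (nat_lit 1728) (nat_lit 92) (nat_lit 2) (nat_lit 11) (.e true (nat_lit 1152) (nat_lit 93) (nat_lit 2) (nat_lit 11) (.e true (nat_lit 1152) (nat_lit 94) (nat_lit 2) (nat_lit 11) (.e true (nat_lit 3456) (nat_lit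 97) (nat_lit 2) (nat_lit 11) (.e false (nat_lit 3456) (nat_lit 98) (nat_lit 2) (nat_lit 11) (.e true (nat_lit 1152) (nat_lit 99) (nat_lit 2) (nat_lit 11) (.e false (nat_lit 1152) (nat_lit 100) (nat_lit 2) (nat_lit 11) (.e false (nat_lit 1152) (nat_lit 101) (nat_lit 2) (nat_lit 11) (.e false (nat_lit 576) (nat_lit 105) (nat_lit 2) (nat_lit 11) (.e true (nat_lit 1152) (nat_lit 107) (nat_lit 2) (nat_lit 11) (.e false (nat_lit 576) (nat_lit 121) (nat_lit 1) (nat_lit 12) (.e true (nat_lit 576) (nat_lit 48) (nat_lit 7) (nat_lit 6) (.e true (nat_lit 576) (nat_lit 102) (nat_lit 2) (nat_lit 11) (.e false (nat_lit 576) (nat_lit 109) (nat_lit 1) (nat_lit 12) .nil)))))))))))))))))))))))))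

noncomputable def dP8_i76 : IL := (.e false (nat_lit 5184) (nat_lit 84) (nat_lit 2) (nat_lit 11) (.e true (nat_lit 4032) (nat_lit 86) (nat_lit 2) (nat_lit 11) (.e false (nat_lit 2304) (nat_lit 88) (nat_lit 2) (nat_lit 11) (.e true (nat_lit 1152) (nat_lit 89) (nat_lit 2) (nat_lit 11) (.e false (nat_lit 1728) (nat_lit 90) (nat_lit 2) (nat_lit 11) (.e true (nat_lit 2304) (nat_lit 91) (nat_lit 2) (nat_lit 11) (.e true (nat_lit 1152) (nat_lit 93) (nat_lit 2) (nat_lit 11) (.e true (nat_lit 1728) (nat_lit 94) (nat_lit 2) (nat_lit 11) (.e true (nat_lit 2880) (nat_lit 95) (nat_lit 2) (nat_lit 11) (.e true (nat_lit 1152) (nat_lit 99) (nat_lit 2) (nat_lit 11) (.e true (nat_lit 1728) (nat_lit 103) (nat_lit 2) (nat_lit 11) (.e false (nat_lit 2880) (nat_lit 104) (nat_lit 2) (nat_lit 11) (.e true (nat_lit 576) (nat_lit 67) (nat_lit 5) (nat_lit 8) (.e false (nat_lit 1728) (nat_lit 68) (nat_lit 5) (nat_lit 8) (.e true (nat_lit 576)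 (nat_lit 69) (nat_lit 5) (nat_lit 8) (.e true (nat_lit 576) (nat_lit 71) (nat_lit 5) (nat_lit 8) (.e true (nat_lit 576) (nat_lit 72) (nat_lit 5) (nat_lit 8) (.e false (nat_lit 4032) (nat_lit 85) (nat_lit 2) (nat_lit 11) (.e false (nat_lit 3456) (nat_lit 98) (nat_lit 2) (nat_lit 11) (.e true (nat_lit 576) (nat_lit 101) (nat_lit 2) (nat_lit 11) (.e false (nat_lit 1152) (nat_lit 92) (nat_lit 2) (nat_lit 11) (.e true (nat_lit 576) (nat_lit 96) (nat_lit 2) (nat_lit 11) (.e true (nat_lit 1152) (nat_lit 107) (nat_lit 2) (nat_lit 11) (.e false (nat_lit 576) (nat_lit 74) (nat_lit 4) (nat_lit 9) (.e true (nat_lit 1152) (nat_lit 102) (nat_lit 2) (nat_lit 11) .nil)))))))))))))))))))))))))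

noncomputable def dP8_i77 : IL := (.s false (nat_lit 1) (nat_lit 10) (nat_lit 6) (nat_lit 2) (nat_lit 2) true (nat_lit 1) true (nat_lit 11) true (nat_lit 4) true (nat_lit 7) true (nat_lit 11) (.s false (nat_lit 1) (nat_lit 22) (nat_lit 2) (nat_lit 2) (nat_lit 2) true (nat_lit 6) true (nat_lit 11) false (nat_lit 0) true (nat_lit 11) true (nat_lit 11) (.e true (nat_lit 1152) (nat_lit 58) (nat_lit 6) (nat_lit 7) (.e true (nat_lit 1152) (nat_lit 61) (nat_lit 6) (nat_lit 7) (.e false (nat_lit 1152) (nat_lit 44) (nat_lit 7) (nat_lit 6) (.e false (nat_lit 1728) (nat_lit 45) (nat_lit 7) (nat_lit 6) (.e false (nat_lit 1152) (nat_lit 46) (nat_lit 7) (nat_lit 6) (.e false (nat_lit 576) (nat_lit 49) (nat_lit 7) (nat_lit 6) (.e true (nat_lit 576) (nat_lit 50) (nat_lit 7) (nat_lit 6) (.e true (nat_lit 576) (nat_lit 51) (nat_lit 7) (nat_lit 6) (.e false (nat_lit 576) (nat_lit 53) (nat_lit 7) (nat_lit 6) (.e true (nat_lit 1152) (nat_lit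 54) (nat_lit 7) (nat_lit 6) (.e true (nat_lit 1152) (nat_lit 55) (nat_lit 7) (nat_lit 6) (.e true (nat_lit 576) (nat_lit 60) (nat_lit 6) (nat_lit 7) (.e false (nat_lit 576) (nat_lit 64) (nat_lit 6) (nat_lit 7) (.e true (nat_lit 576) (nat_lit 127) (nat_lit 0) (nat_lit 13) (.e false (nat_lit 576) (nat_lit 128) (nat_lit 0) (nat_lit 13) (.e false (nat_lit 576) (nat_lit 129) (nat_lit 0) (nat_lit 13) (.e true (nat_lit 576) (nat_lit 130) (nat_lit 0) (nat_lit 13) (.e false (nat_lit 576) (nat_lit 131) (nat_lit 0) (nat_lit 13) (.e true (nat_lit 576) (nat_lit 125) (nat_lit 0) (nat_lit 13) (.e false (nat_lit 576) (nat_lit 126) (nat_lit 0) (nat_lit 13) (.e false (nat_lit 2304) (nat_lit 104) (nat_lit 2) (nat_lit 11) (.e false (nat_lit 576) (nat_lit 117) (nat_lit 1) (nat_lit 12) (.e true (nat_lit 576) (nat_lit 95) (nat_lit 2) (nat_lit 11) .nil)))))))))))))))))))))))))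

noncomputable def dP8_i78 : IL := (.e true (nat_lit 2112) (nat_lit 83) (nat_lit 2) (nat_lit 11) (.e true (nat_lit 2688) (nat_lit 84) (nat_lit 2) (nat_lit 11) (.e true (nat_lit 1728) (nat_lit 85) (nat_lit 2) (nat_lit 11) (.e false (nat_lit 1920) (nat_lit 86) (nat_lit 2) (nat_lit 11) (.e false (nat_lit 768) (nat_lit 87) (nat_lit 2) (nat_lit 11) (.e true (nat_lit 768) (nat_lit 88) (nat_lit 2) (nat_lit 11) (.e false (nat_lit 384) (nat_lit 89) (nat_lit 2) (nat_lit 11) (.e true (nat_lit 192) (nat_lit 90) (nat_lit 2) (nat_lit 11) (.e false (nat_lit 1920) (nat_lit 91) (nat_lit 2) (nat_lit 11) (.e true (nat_lit 576) (nat_lit 92) (nat_lit 2) (nat_lit 11) (.e false (nat_lit 768) (nat_lit 93) (nat_lit 2) (nat_lit 11) (.e false (nat_lit 192) (nat_lit 94) (nat_lit 2) (nat_lit 11) (.e false (nat_lit 576) (nat_lit 95) (nat_lit 2) (nat_lit 11) (.e false (nat_lit 576) (nat_lit 96) (nat_lit 2) (nat_lit 11) (.e false (nat_lit 864) (nat_lit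 97) (nat_lit 2) (nat_lit 11) (.e true (nat_lit 2016) (nat_lit 98) (nat_lit 2) (nat_lit 11) (.e false (nat_lit 672) (nat_lit 99) (nat_lit 2) (nat_lit 11) (.e true (nat_lit 288) (nat_lit 100) (nat_lit 2) (nat_lit 11) (.e false (nat_lit 576) (nat_lit 102) (nat_lit 2) (nat_lit 11) (.e false (nat_lit 384) (nat_lit 103) (nat_lit 2) (nat_lit 11) (.e true (nat_lit 1152) (nat_lit 104) (nat_lit 2) (nat_lit 11) (.e true (nat_lit 768) (nat_lit 105) (nat_lit 2) (nat_lit 11) (.e false (nat_lit 192) (nat_lit 106) (nat_lit 2) (nat_lit 11) (.e false (nat_lit 576) (nat_lit 107) (nat_lit 2) (nat_lit 11) (.e true (nat_lit 576) (nat_lit 109) (nat_lit 1) (nat_lit 12) .nil)))))))))))))))))))))))))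

noncomputable def dP8_i79 : IL := (.e false (nat_lit 576) (nat_lit 113) (nat_lit 1) (nat_lit 12) (.e false (nat_lit 576) (nat_lit 82) (nat_lit 2) (nat_lit 11) (.e true (nat_lit 3456) (nat_lit 83) (nat_lit 2) (nat_lit 11) (.e true (nat_lit 4032) (nat_lit 84) (nat_lit 2) (nat_lit 11) (.e true (nat_lit 2304) (nat_lit 85) (nat_lit 2) (nat_lit 11) (.e false (nat_lit 3456) (nat_lit 86) (nat_lit 2) (nat_lit 11) (.e false (nat_lit 1152) (nat_lit 87) (nat_lit 2) (nat_lit 11) (.e true (nat_lit 1152) (nat_lit 88) (nat_lit 2) (nat_lit 11) (.e false (nat_lit 576) (nat_lit 89) (nat_lit 2) (nat_lit 11) (.e true (nat_lit 576) (nat_lit 90) (nat_lit 2) (nat_lit 11) (.e false (nat_lit 2880) (nat_lit 91) (nat_lit 2) (nat_lit 11) (.e true (nat_lit 576) (nat_lit 92) (nat_lit 2) (nat_lit 11) (.e false (nat_lit 1728) (nat_lit 93) (nat_lit 2) (nat_lit 11) (.e false (nat_lit 576) (nat_lit 94) (nat_lit 2) (nat_lit 11) (.e false (nat_lit 1728)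 (nat_lit 95) (nat_lit 2) (nat_lit 11) (.e false (nat_lit 576) (nat_lit 96) (nat_lit 2) (nat_lit 11) (.e false (nat_lit 2016) (nat_lit 97) (nat_lit 2) (nat_lit 11) (.e true (nat_lit 4320) (nat_lit 98) (nat_lit 2) (nat_lit 11) (.e false (nat_lit 1440) (nat_lit 99) (nat_lit 2) (nat_lit 11) (.e true (nat_lit 864) (nat_lit 100) (nat_lit 2) (nat_lit 11) (.e false (nat_lit 576) (nat_lit 102) (nat_lit 2) (nat_lit 11) (.e false (nat_lit 576) (nat_lit 103) (nat_lit 2) (nat_lit 11) (.e true (nat_lit 2304) (nat_lit 104) (nat_lit 2) (nat_lit 11) (.e true (nat_lit 576) (nat_lit 101) (nat_lit 2) (nat_lit 11) (.e false (nat_lit 576) (nat_lit 107) (nat_lit 2) (nat_lit 11) .nil)))))))))))))))))))))))))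

noncomputable def dP8_i80 : IL := (.e false (nat_lit 576) (nat_lit 42) (nat_lit 7) (nat_lit 6) (.e true (nat_lit 960) (nat_lit 82) (nat_lit 2) (nat_lit 11) (.e false (nat_lit 960) (nat_lit 83) (nat_lit 2) (nat_lit 11) (.e false (nat_lit 1536) (nat_lit 84) (nat_lit 2) (nat_lit 11) (.e false (nat_lit 576) (nat_lit 85) (nat_lit 2) (nat_lit 11) (.e true (nat_lit 192) (nat_lit 86) (nat_lit 2) (nat_lit 11) (.e true (nat_lit 768) (nat_lit 87) (nat_lit 2) (nat_lit 11) (.e false (nat_lit 768) (nat_lit 88) (nat_lit 2) (nat_lit 11) (.e true (nat_lit 384) (nat_lit 89) (nat_lit 2) (nat_lit 11) (.e false (nat_lit 192) (nat_lit 90) (nat_lit 2) (nat_lit 11) (.e true (nat_lit 192) (nat_lit 91) (nat_lit 2) (nat_lit 11) (.e false (nat_lit 576) (nat_lit 92) (nat_lit 2) (nat_lit 11) (.e true (nat_lit 768) (nat_lit 94) (nat_lit 2) (nat_lit 11) (.e true (nat_lit 576) (nat_lit 95) (nat_lit 2) (nat_lit 11) (.e false (nat_lit 864) (nat_lit 98)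 (nat_lit 2) (nat_lit 11) (.e true (nat_lit 96) (nat_lit 99) (nat_lit 2) (nat_lit 11) (.e true (nat_lit 576) (nat_lit 102) (nat_lit 2) (nat_lit 11) (.e true (nat_lit 384) (nat_lit 103) (nat_lit 2) (nat_lit 11) (.e false (nat_lit 576) (nat_lit 104) (nat_lit 2) (nat_lit 11) (.e false (nat_lit 384) (nat_lit 93) (nat_lit 2) (nat_lit 11) (.e false (nat_lit 192) (nat_lit 105) (nat_lit 2) (nat_lit 11) (.e true (nat_lit 192) (nat_lit 106) (nat_lit 2) (nat_lit 11) (.e true (nat_lit 864) (nat_lit 97) (nat_lit 2) (nat_lit 11) (.e false (nat_lit 288) (nat_lit 100) (nat_lit 2) (nat_lit 11) (.e true (nat_lit 576) (nat_lit 107) (nat_lit 2) (nat_lit 11) .nil)))))))))))))))))))))))))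

noncomputable def dP8_i81 : IL := (.e false (nat_lit 576) (nat_lit 58) (nat_lit 6) (nat_lit 7) (.e false (nat_lit 576) (nat_lit 110) (nat_lit 1) (nat_lit 12) (.e true (nat_lit 384) (nat_lit 106) (nat_lit 2) (nat_lit 11) (.e false (nat_lit 1536) (nat_lit 82) (nat_lit 2) (nat_lit 11) (.e true (nat_lit 2112) (nat_lit 83) (nat_lit 2) (nat_lit 11) (.e true (nat_lit 2688) (nat_lit 84) (nat_lit 2) (nat_lit 11) (.e true (nat_lit 1728) (nat_lit 85) (nat_lit 2) (nat_lit 11) (.e false (nat_lit 1344) (nat_lit 86) (nat_lit 2) (nat_lit 11) (.e false (nat_lit 768) (nat_lit 87) (nat_lit 2) (nat_lit 11) (.e true (nat_lit 768) (nat_lit 88) (nat_lit 2) (nat_lit 11) (.e true (nat_lit 192) (nat_lit 89) (nat_lit 2) (nat_lit 11) (.e true (nat_lit 768) (nat_lit 90) (nat_lit 2) (nat_lit 11) (.e false (nat_lit 1920) (nat_lit 91) (nat_lit 2) (nat_lit 11) (.e false (nat_lit 1920) (nat_lit 93) (nat_lit 2) (nat_lit 11) (.e false (nat_lit 192) (nat_lit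 94) (nat_lit 2) (nat_lit 11) (.e false (nat_lit 576) (nat_lit 96) (nat_lit 2) (nat_lit 11) (.e false (nat_lit 864) (nat_lit 97) (nat_lit 2) (nat_lit 11) (.e true (nat_lit 2016) (nat_lit 98) (nat_lit 2) (nat_lit 11) (.e false (nat_lit 672) (nat_lit 99) (nat_lit 2) (nat_lit 11) (.e true (nat_lit 288) (nat_lit 100) (nat_lit 2) (nat_lit 11) (.e false (nat_lit 576) (nat_lit 102) (nat_lit 2) (nat_lit 11) (.e false (nat_lit 384) (nat_lit 103) (nat_lit 2) (nat_lit 11) (.e true (nat_lit 576) (nat_lit 104) (nat_lit 2) (nat_lit 11) (.e true (nat_lit 768) (nat_lit 105) (nat_lit 2) (nat_lit 11) (.e false (nat_lit 576) (nat_lit 107) (nat_lit 2) (nat_lit 11) .nil)))))))))))))))))))))))))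

noncomputable def dP8_i82 : IL := (.e false (nat_lit 2112) (nat_lit 82) (nat_lit 2) (nat_lit 11) (.e true (nat_lit 2112) (nat_lit 83) (nat_lit 2) (nat_lit 11) (.e true (nat_lit 2688) (nat_lit 84) (nat_lit 2) (nat_lit 11) (.e true (nat_lit 1152) (nat_lit 85) (nat_lit 2) (nat_lit 11) (.e false (nat_lit 192) (nat_lit 86) (nat_lit 2) (nat_lit 11) (.e false (nat_lit 1344) (nat_lit 87) (nat_lit 2) (nat_lit 11) (.e true (nat_lit 768) (nat_lit 88) (nat_lit 2) (nat_lit 11) (.e false (nat_lit 384) (nat_lit 89) (nat_lit 2) (nat_lit 11) (.e true (nat_lit 192) (nat_lit 90) (nat_lit 2) (nat_lit 11) (.e false (nat_lit 1344) (nat_lit 91) (nat_lit 2) (nat_lit 11) (.e true (nat_lit 576) (nat_lit 92) (nat_lit 2) (nat_lit 11) (.e false (nat_lit 768) (nat_lit 93) (nat_lit 2) (nat_lit 11) (.e false (nat_lit 768) (nat_lit 94) (nat_lit 2) (nat_lit 11) (.e false (nat_lit 2016) (nat_lit 97) (nat_lit 2) (nat_lit 11) (.e true (nat_lit 2016) (nat_lit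 98) (nat_lit 2) (nat_lit 11) (.e false (nat_lit 672) (nat_lit 99) (nat_lit 2) (nat_lit 11) (.e true (nat_lit 864) (nat_lit 100) (nat_lit 2) (nat_lit 11) (.e true (nat_lit 576) (nat_lit 101) (nat_lit 2) (nat_lit 11) (.e false (nat_lit 576) (nat_lit 102) (nat_lit 2) (nat_lit 11) (.e false (nat_lit 384) (nat_lit 103) (nat_lit 2) (nat_lit 11) (.e true (nat_lit 576) (nat_lit 104) (nat_lit 2) (nat_lit 11) (.e true (nat_lit 192) (nat_lit 105) (nat_lit 2) (nat_lit 11) (.e false (nat_lit 192) (nat_lit 106) (nat_lit 2) (nat_lit 11) (.e false (nat_lit 576) (nat_lit 107) (nat_lit 2) (nat_lit 11) (.e true (nat_lit 576) (nat_lit 116) (nat_lit 1) (nat_lit 12) .nil)))))))))))))))))))))))))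

noncomputable def dP8_i83 : IL := (.e false (nat_lit 4224) (nat_lit 83) (nat_lit 2) (nat_lit 11) (.e false (nat_lit 5376) (nat_lit 84) (nat_lit 2) (nat_lit 11) (.e false (nat_lit 2592) (nat_lit 85) (nat_lit 2) (nat_lit 11) (.e true (nat_lit 3840) (nat_lit 86) (nat_lit 2) (nat_lit 11) (.e true (nat_lit 1824) (nat_lit 87) (nat_lit 2) (nat_lit 11) (.e false (nat_lit 1536) (nat_lit 88) (nat_lit 2) (nat_lit 11) (.e true (nat_lit 1632) (nat_lit 89) (nat_lit 2) (nat_lit 11) (.e false (nat_lit 672) (nat_lit 90) (nat_lit 2) (nat_lit 11) (.e true (nat_lit 3264) (nat_lit 91) (nat_lit 2) (nat_lit 11) (.e false (nat_lit 864) (nat_lit 92) (nat_lit 2) (nat_lit 11) (.e true (nat_lit 1536) (nat_lit 93) (nat_lit 2) (nat_lit 11) (.e true (nat_lit 960) (nat_lit 94) (nat_lit 2) (nat_lit 11) (.e true (nat_lit 2016) (nat_lit 95) (nat_lit 2) (nat_lit 11) (.e true (nat_lit 576) (nat_lit 96) (nat_lit 2) (nat_lit 11) (.e true (nat_lit 2592) (nat_lit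 97) (nat_lit 2) (nat_lit 11) (.e false (nat_lit 4320) (nat_lit 98) (nat_lit 2) (nat_lit 11) (.e true (nat_lit 1344) (nat_lit 99) (nat_lit 2) (nat_lit 11) (.e false (nat_lit 864) (nat_lit 100) (nat_lit 2) (nat_lit 11) (.e false (nat_lit 576) (nat_lit 101) (nat_lit 2) (nat_lit 11) (.e true (nat_lit 576) (nat_lit 102) (nat_lit 2) (nat_lit 11) (.e true (nat_lit 480) (nat_lit 103) (nat_lit 2) (nat_lit 11) (.e false (nat_lit 2592) (nat_lit 104) (nat_lit 2) (nat_lit 11) (.e false (nat_lit 192) (nat_lit 106) (nat_lit 2) (nat_lit 11) (.e true (nat_lit 576) (nat_lit 107) (nat_lit 2) (nat_lit 11) (.e false (nat_lit 576) (nat_lit 57) (nat_lit 6) (nat_lit 7) .nil)))))))))))))))))))))))))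

noncomputable def dP8_i84 : IL := (.s false (nat_lit 1) (nat_lit 18) (nat_lit 2) (nat_lit 7) (nat_lit 0) true (nat_lit 6) true (nat_lit 10) true (nat_lit 1) true (nat_lit 8) true (nat_lit 4) (.s false (nat_lit 2) (nat_lit 19) (nat_lit 0) (nat_lit 7) (nat_lit 1) true (nat_lit 7) true (nat_lit 9) true (nat_lit 0) true (nat_lit 10) true (nat_lit 4) (.s true (nat_lit 8) (nat_lit 19) (nat_lit 3) (nat_lit 2) (nat_lit 2) true (nat_lit 3) true (nat_lit 8) true (nat_lit 0) true (nat_lit 7) true (nat_lit 8) (.s true (nat_lit 4) (nat_lit 19) (nat_lit 6) (nat_lit 2) (nat_lit 0) true (nat_lit 3) true (nat_lit 10) true (nat_lit 0) true (nat_lit 5) true (nat_lit 8) (.s true (nat_lit 3) (nat_lit 19) (nat_lit 7) (nat_lit 0) (nat_lit 1) true (nat_lit 1) true (nat_lit 9) true (nat_lit 0) true (nat_lit 4) true (nat_lit 10) (.s false (nat_lit 4) (nat_lit 30) (nat_lit 2) (nat_lit 2) (nat_lit 2) true (nat_lit 4) true (nat_lit 8) false (nat_lit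 0) true (nat_lit 8) true (nat_lit 8) (.s false (nat_lit 4) (nat_lit 31) (nat_lit 2) (nat_lit 2) (nat_lit 2) true (nat_lit 4) true (nat_lit 8) false (nat_lit 0) true (nat_lit 8) true (nat_lit 8) (.s true (nat_lit 2) (nat_lit 36) (nat_lit 1) (nat_lit 2) (nat_lit 2) true (nat_lit 5) true (nat_lit 8) false (nat_lit 1) true (nat_lit 9) true (nat_lit 8) (.s false (nat_lit 4) (nat_lit 37) (nat_lit 2) (nat_lit 2) (nat_lit 1) true (nat_lit 5) true (nat_lit 9) false (nat_lit 1) true (nat_lit 8) true (nat_lit 8) (.s false (nat_lit 2) (nat_lit 39) (nat_lit 0) (nat_lit 2) (nat_lit 2) true (nat_lit 6) true (nat_lit 8) false (nat_lit 2) true (nat_lit 10) true (nat_lit 8) (.e true (nat_lit 2304) (nat_lit 63) (nat_lit 7) (nat_lit 4) (.e false (nat_lit 2304) (nat_lit 136) (nat_lit 1) (nat_lit 9) (.e false (nat_lit 2304) (nat_lit 117) (nat_lit 2) (nat_lit 8) (.e true (nat_lit 2304) (nat_lit 108) (nat_lit 2) (nat_lit 8) (.e false (nat_lit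 2304) (nat_lit 109) (nat_lit 2) (nat_lit 8) (.e true (nat_lit 2304) (nat_lit 113) (nat_lit 2) (nat_lit 8) (.e false (nat_lit 1152) (nat_lit 114) (nat_lit 2) (nat_lit 8) (.e false (nat_lit 1152) (nat_lit 115) (nat_lit 2) (nat_lit 8) (.e true (nat_lit 1152) (nat_lit 116) (nat_lit 2) (nat_lit 8) (.e true (nat_lit 1152) (nat_lit 118) (nat_lit 2) (nat_lit 8) (.e true (nat_lit 1152) (nat_lit 119) (nat_lit 2) (nat_lit 8) (.e true (nat_lit 5760) (nat_lit 120) (nat_lit 2) (nat_lit 8) (.e false (nat_lit 1152) (nat_lit 121) (nat_lit 2) (nat_lit 8) (.e false (nat_lit 5760) (nat_lit 123) (nat_lit 2) (nat_lit 8) (.e true (nat_lit 4608) (nat_lit 110) (nat_lit 2) (nat_lit 8) .nil)))))))))))))))))))))))))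

noncomputable def dP8_i85 : IL := (.s true (nat_lit 2) (nat_lit 18) (nat_lit 2) (nat_lit 2) (nat_lit 5) true (nat_lit 2) true (nat_lit 6) true (nat_lit 1) true (nat_lit 8) true (nat_lit 8) (.s true (nat_lit 5) (nat_lit 18) (nat_lit 2) (nat_lit 7) (nat_lit 0) true (nat_lit 6) true (nat_lit 10) true (nat_lit 1) true (nat_lit 8) true (nat_lit 4) (.s true (nat_lit 8) (nat_lit 19) (nat_lit 0) (nat_lit 7) (nat_lit 1) true (nat_lit 7) true (nat_lit 9) true (nat_lit 0) true (nat_lit 10) true (nat_lit 4) (.s true (nat_lit 4) (nat_lit 19) (nat_lit 2) (nat_lit 1) (nat_lit 5) true (nat_lit 2) true (nat_lit 6) true (nat_lit 0) true (nat_lit 8) true (nat_lit 9) (.s false (nat_lit 4) (nat_lit 19) (nat_lit 2) (nat_lit 6) (nat_lit 0) true (nat_lit 6) true (nat_lit 10) true (nat_lit 0) true (nat_lit 8) true (nat_lit 5) (.s true (nat_lit 6) (nat_lit 19) (nat_lit 3) (nat_lit 2) (nat_lit 2) true (nat_lit 3) true (nat_lit 8) true (nat_lit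 0) true (nat_lit 7) true (nat_lit 8) (.s true (nat_lit 3) (nat_lit 19) (nat_lit 7) (nat_lit 0) (nat_lit 1) true (nat_lit 1) true (nat_lit 9) true (nat_lit 0) true (nat_lit 4) true (nat_lit 10) (.s false (nat_lit 4) (nat_lit 30) (nat_lit 2) (nat_lit 2) (nat_lit 2) true (nat_lit 4) true (nat_lit 8) false (nat_lit 0) true (nat_lit 8) true (nat_lit 8) (.s false (nat_lit 6) (nat_lit 36) (nat_lit 1) (nat_lit 2) (nat_lit 2) true (nat_lit 5) true (nat_lit 8) false (nat_lit 1) true (nat_lit 9) true (nat_lit 8) (.s true (nat_lit 4) (nat_lit 36) (nat_lit 2) (nat_lit 1) (nat_lit 2) true (nat_lit 4) true (nat_lit 8) false (nat_lit 1) true (nat_lit 8) true (nat_lit 9) (.s true (nat_lit 4) (nat_lit 37) (nat_lit 2) (nat_lit 1) (nat_lit 2) true (nat_lit 4) true (nat_lit 8) false (nat_lit 1) true (nat_lit 8) true (nat_lit 9) (.s false (nat_lit 2) (nat_lit 39) (nat_lit 0) (nat_lit 2) (nat_lit 2) true (nat_lit 6) true (nat_lit 8) false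 (nat_lit 2) true (nat_lit 10) true (nat_lit 8) (.s false (nat_lit 4) (nat_lit 40) (nat_lit 0) (nat_lit 2) (nat_lit 2) true (nat_lit 6) true (nat_lit 8) false (nat_lit 2) true (nat_lit 10) true (nat_lit 8) (.e true (nat_lit 9216) (nat_lit 63) (nat_lit 7) (nat_lit 4) (.e true (nat_lit 11520) (nat_lit 117) (nat_lit 2) (nat_lit 8) (.e false (nat_lit 4608) (nat_lit 109) (nat_lit 2) (nat_lit 8) (.e false (nat_lit 16128) (nat_lit 114) (nat_lit 2) (nat_lit 8) (.e false (nat_lit 2304) (nat_lit 116) (nat_lit 2) (nat_lit 8) (.e true (nat_lit 13824) (nat_lit 118) (nat_lit 2) (nat_lit 8) (.e true (nat_lit 13824) (nat_lit 119) (nat_lit 2) (nat_lit 8) (.e false (nat_lit 13824) (nat_lit 120) (nat_lit 2) (nat_lit 8) (.e false (nat_lit 13824) (nat_lit 121) (nat_lit 2) (nat_lit 8) (.e true (nat_lit 4608) (nat_lit 108) (nat_lit 2) (nat_lit 8) (.e false (nat_lit 4608) (nat_lit 113) (nat_lit 2) (nat_lit 8) (.e false (nat_lit 4608) (nat_lit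 123) (nat_lit 2) (nat_lit 8) .nil)))))))))))))))))))))))))

noncomputable def dP8_i86 : IL := (.s true (nat_lit 1) (nat_lit 17) (nat_lit 0) (nat_lit 2) (nat_lit 7) true (nat_lit 2) true (nat_lit 4) true (nat_lit 1) true (nat_lit 10) true (nat_lit 8) (.s true (nat_lit 1) (nat_lit 18) (nat_lit 2) (nat_lit 7) (nat_lit 0) true (nat_lit 6) true (nat_lit 10) true (nat_lit 1) true (nat_lit 8) true (nat_lit 4) (.s true (nat_lit 1) (nat_lit 19) (nat_lit 0) (nat_lit 6) (nat_lit 2) true (nat_lit 6) true (nat_lit 8) true (nat_lit 0) true (nat_lit 10) true (nat_lit 5) (.s true (nat_lit 1) (nat_lit 19) (nat_lit 2) (nat_lit 6) (nat_lit 0) true (nat_lit 6) true (nat_lit 10) true (nat_lit 0) true (nat_lit 8) true (nat_lit 5) (.s false (nat_lit 2) (nat_lit 19) (nat_lit 3) (nat_lit 2) (nat_lit 2) true (nat_lit 3) true (nat_lit 8) true (nat_lit 0) true (nat_lit 7) true (nat_lit 8) (.s true (nat_lit 1) (nat_lit 19) (nat_lit 6) (nat_lit 0)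 (nat_lit 2) true (nat_lit 1) true (nat_lit 8) true (nat_lit 0) true (nat_lit 5) true (nat_lit 10) (.s true (nat_lit 1) (nat_lit 19) (nat_lit 7) (nat_lit 0) (nat_lit 1) true (nat_lit 1) true (nat_lit 9) true (nat_lit 0) true (nat_lit 4) true (nat_lit 10) (.s false (nat_lit 2) (nat_lit 30) (nat_lit 2) (nat_lit 2) (nat_lit 2) true (nat_lit 4) true (nat_lit 8) false (nat_lit 0) true (nat_lit 8) true (nat_lit 8) (.s true (nat_lit 1) (nat_lit 31) (nat_lit 2) (nat_lit 2) (nat_lit 2) true (nat_lit 4) true (nat_lit 8) false (nat_lit 0) true (nat_lit 8) true (nat_lit 8) (.e true (nat_lit 1152) (nat_lit 62) (nat_lit 7) (nat_lit 4) (.e true (nat_lit 1152) (nat_lit 63) (nat_lit 7) (nat_lit 4) (.e true (nat_lit 2304) (nat_lit 117) (nat_lit 2) (nat_lit 8) (.e false (nat_lit 2304) (nat_lit 75) (nat_lit 6) (nat_lit 5) (.e false (nat_lit 1152) (nat_lit 114) (nat_lit 2) (nat_lit 8) (.e true (nat_lit 1152) (nat_lit 115) (nat_lit 2) (nat_lit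 8) (.e false (nat_lit 1152) (nat_lit 116) (nat_lit 2) (nat_lit 8) (.e true (nat_lit 2304) (nat_lit 118) (nat_lit 2) (nat_lit 8) (.e true (nat_lit 2304) (nat_lit 119) (nat_lit 2) (nat_lit 8) (.e false (nat_lit 4608) (nat_lit 120) (nat_lit 2) (nat_lit 8) (.e false (nat_lit 1152) (nat_lit 121) (nat_lit 2) (nat_lit 8) (.e false (nat_lit 1152) (nat_lit 112) (nat_lit 2) (nat_lit 8) (.e false (nat_lit 2304) (nat_lit 113) (nat_lit 2) (nat_lit 8) (.e false (nat_lit 2304) (nat_lit 110) (nat_lit 2) (nat_lit 8) (.e true (nat_lit 1152) (nat_lit 123) (nat_lit 2) (nat_lit 8) (.e false (nat_lit 1152) (nat_lit 76) (nat_lit 6) (nat_lit 5) .nil)))))))))))))))))))))))))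

noncomputable def dP8_i87 : IL := (.s false (nat_lit 8) (nat_lit 19) (nat_lit 2) (nat_lit 6) (nat_lit 0) true (nat_lit 6) true (nat_lit 10) true (nat_lit 0) true (nat_lit 8) true (nat_lit 5) (.s true (nat_lit 12) (nat_lit 19) (nat_lit 3) (nat_lit 2) (nat_lit 2) true (nat_lit 3) true (nat_lit 8) true (nat_lit 0) true (nat_lit 7) true (nat_lit 8) (.s false (nat_lit 4) (nat_lit 19) (nat_lit 6) (nat_lit 0) (nat_lit 2) true (nat_lit 1) true (nat_lit 8) true (nat_lit 0) true (nat_lit 5) true (nat_lit 10) (.s false (nat_lit 1) (nat_lit 19) (nat_lit 7) (nat_lit 0) (nat_lit 1) true (nat_lit 1) true (nat_lit 9) true (nat_lit 0) true (nat_lit 4) true (nat_lit 10) (.s false (nat_lit 8) (nat_lit 31) (nat_lit 2) (nat_lit 2) (nat_lit 2) true (nat_lit 4) true (nat_lit 8) false (nat_lit 0) true (nat_lit 8) true (nat_lit 8) (.s true (nat_lit 4) (nat_lit 35) (nat_lit 1) (nat_lit 2) (nat_lit 2) true (nat_lit 5) true (nat_lit 8) false (nat_lit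 1) true (nat_lit 9) true (nat_lit 8) (.s false (nat_lit 2) (nat_lit 36) (nat_lit 1) (nat_lit 2) (nat_lit 2) true (nat_lit 5) true (nat_lit 8) false (nat_lit 1) true (nat_lit 9) true (nat_lit 8) (.s true (nat_lit 4) (nat_lit 37) (nat_lit 2) (nat_lit 1) (nat_lit 2) true (nat_lit 4) true (nat_lit 8) false (nat_lit 1) true (nat_lit 8) true (nat_lit 9) (.s true (nat_lit 4) (nat_lit 37) (nat_lit 2) (nat_lit 2) (nat_lit 1) true (nat_lit 5) true (nat_lit 9) false (nat_lit 1) true (nat_lit 8) true (nat_lit 8) (.s true (nat_lit 2) (nat_lit 39) (nat_lit 0) (nat_lit 2) (nat_lit 2) true (nat_lit 6) true (nat_lit 8) false (nat_lit 2) true (nat_lit 10) true (nat_lit 8) (.e true (nat_lit 2304) (nat_lit 57) (nat_lit 7) (nat_lit 4) (.e false (nat_lit 4608) (nat_lit 61) (nat_lit 7) (nat_lit 4) (.e false (nat_lit 2304) (nat_lit 117) (nat_lit 2) (nat_lit 8) (.e true (nat_lit 11520) (nat_lit 75) (nat_lit 6) (nat_lit 5) (.e false (nat_lit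 9216) (nat_lit 109) (nat_lit 2) (nat_lit 8) (.e false (nat_lit 2304) (nat_lit 114) (nat_lit 2) (nat_lit 8) (.e false (nat_lit 6912) (nat_lit 115) (nat_lit 2) (nat_lit 8) (.e true (nat_lit 2304) (nat_lit 116) (nat_lit 2) (nat_lit 8) (.e true (nat_lit 13824) (nat_lit 120) (nat_lit 2) (nat_lit 8) (.e false (nat_lit 2304) (nat_lit 121) (nat_lit 2) (nat_lit 8) (.e true (nat_lit 9216) (nat_lit 108) (nat_lit 2) (nat_lit 8) (.e false (nat_lit 2304) (nat_lit 112) (nat_lit 2) (nat_lit 8) (.e true (nat_lit 6912) (nat_lit 76) (nat_lit 6) (nat_lit 5) (.e true (nat_lit 9216) (nat_lit 110) (nat_lit 2) (nat_lit 8) (.e false (nat_lit 11520) (nat_lit 123) (nat_lit 2) (nat_lit 8) .nil)))))))))))))))))))))))))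

noncomputable def dP8_i88 : IL := (.s false (nat_lit 13) (nat_lit 7) (nat_lit 2) (nat_lit 7) (nat_lit 3) true (nat_lit 3) true (nat_lit 7) true (nat_lit 4) true (nat_lit 8) true (nat_lit 4) (.s true (nat_lit 13) (nat_lit 10) (nat_lit 7) (nat_lit 2) (nat_lit 2) true (nat_lit 0) true (nat_lit 8) true (nat_lit 3) true (nat_lit 4) true (nat_lit 8) (.s true (nat_lit 4) (nat_lit 19) (nat_lit 0) (nat_lit 6) (nat_lit 2) true (nat_lit 6) true (nat_lit 8) true (nat_lit 0) true (nat_lit 10) true (nat_lit 5) (.s true (nat_lit 8) (nat_lit 19) (nat_lit 2) (nat_lit 6) (nat_lit 0) true (nat_lit 6) true (nat_lit 10) true (nat_lit 0) true (nat_lit 8) true (nat_lit 5) (.s false (nat_lit 13) (nat_lit 19) (nat_lit 3) (nat_lit 2) (nat_lit 2) true (nat_lit 3) true (nat_lit 8) true (nat_lit 0) true (nat_lit 7) true (nat_lit 8) (.s true (nat_lit 4) (nat_lit 19) (nat_lit 6) (nat_lit 0) (nat_lit 2) true (nat_lit 1) true (nat_lit 8) true (nat_lit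 0) true (nat_lit 5) true (nat_lit 10) (.s true (nat_lit 8) (nat_lit 31) (nat_lit 2) (nat_lit 2) (nat_lit 2) true (nat_lit 4) true (nat_lit 8) false (nat_lit 0) true (nat_lit 8) true (nat_lit 8) (.s false (nat_lit 4) (nat_lit 37) (nat_lit 2) (nat_lit 1) (nat_lit 2) true (nat_lit 4) true (nat_lit 8) false (nat_lit 1) true (nat_lit 8) true (nat_lit 9) (.e true (nat_lit 4608) (nat_lit 61) (nat_lit 7) (nat_lit 4) (.e true (nat_lit 4608) (nat_lit 117) (nat_lit 2) (nat_lit 8) (.e true (nat_lit 6912) (nat_lit 109) (nat_lit 2) (nat_lit 8) (.e true (nat_lit 2304) (nat_lit 114) (nat_lit 2) (nat_lit 8) (.e true (nat_lit 5760) (nat_lit 115) (nat_lit 2) (nat_lit 8) (.e false (nat_lit 2304) (nat_lit 116) (nat_lit 2) (nat_lit 8) (.e false (nat_lit 14976) (nat_lit 120) (nat_lit 2) (nat_lit 8) (.e true (nat_lit 2304) (nat_lit 121) (nat_lit 2) (nat_lit 8) (.e false (nat_lit 2304) (nat_lit 79) (nat_lit 5) (nat_lit 6) (.e true (nat_lit 12672)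 (nat_lit 123) (nat_lit 2) (nat_lit 8) (.e false (nat_lit 4608) (nat_lit 76) (nat_lit 6) (nat_lit 5) (.e false (nat_lit 6912) (nat_lit 108) (nat_lit 2) (nat_lit 8) (.e false (nat_lit 11520) (nat_lit 110) (nat_lit 2) (nat_lit 8) (.e false (nat_lit 6912) (nat_lit 75) (nat_lit 6) (nat_lit 5) (.e false (nat_lit 4608) (nat_lit 113) (nat_lit 2) (nat_lit 8) (.e false (nat_lit 2304) (nat_lit 63) (nat_lit 7) (nat_lit 4) (.e true (nat_lit 2304) (nat_lit 136) (nat_lit 1) (nat_lit 9) .nil)))))))))))))))))))))))))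

noncomputable def dP8_i89 : IL := (.s true (nat_lit 2) (nat_lit 7) (nat_lit 6) (nat_lit 0) (nat_lit 7) false (nat_lit 2) true (nat_lit 4) true (nat_lit 4) true (nat_lit 5) true (nat_lit 10) (.s true (nat_lit 1) (nat_lit 10) (nat_lit 7) (nat_lit 2) (nat_lit 2) true (nat_lit 0) true (nat_lit 8) true (nat_lit 3) true (nat_lit 4) true (nat_lit 8) (.s true (nat_lit 3) (nat_lit 16) (nat_lit 2) (nat_lit 1) (nat_lit 7) true (nat_lit 0) true (nat_lit 4) true (nat_lit 2) true (nat_lit 8) true (nat_lit 9) (.s true (nat_lit 4) (nat_lit 16) (nat_lit 2) (nat_lit 2) (nat_lit 6) true (nat_lit 1) true (nat_lit 5) true (nat_lit 2) true (nat_lit 8) true (nat_lit 8) (.s true (nat_lit 1) (nat_lit 18) (nat_lit 2) (nat_lit 7) (nat_lit 0) true (nat_lit 6) true (nat_lit 10) true (nat_lit 1) true (nat_lit 8) true (nat_lit 4) (.s false (nat_lit 1) (nat_lit 19) (nat_lit 3) (nat_lit 2) (nat_lit 2) true (nat_lit 3) true (nat_lit 8) true (nat_lit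 0) true (nat_lit 7) true (nat_lit 8) (.s true (nat_lit 1) (nat_lit 19) (nat_lit 7) (nat_lit 0) (nat_lit 1) true (nat_lit 1) true (nat_lit 9) true (nat_lit 0) true (nat_lit 4) true (nat_lit 10) (.s false (nat_lit 4) (nat_lit 30) (nat_lit 2) (nat_lit 2) (nat_lit 2) true (nat_lit 4) true (nat_lit 8) false (nat_lit 0) true (nat_lit 8) true (nat_lit 8) (.s true (nat_lit 4) (nat_lit 37) (nat_lit 2) (nat_lit 1) (nat_lit 2) true (nat_lit 4) true (nat_lit 8) false (nat_lit 1) true (nat_lit 8) true (nat_lit 9) (.e false (nat_lit 1152) (nat_lit 60) (nat_lit 7) (nat_lit 4) (.e true (nat_lit 2304) (nat_lit 62) (nat_lit 7) (nat_lit 4) (.e true (nat_lit 3456) (nat_lit 63) (nat_lit 7) (nat_lit 4) (.e false (nat_lit 2304) (nat_lit 78) (nat_lit 5) (nat_lit 6) (.e true (nat_lit 2304) (nat_lit 79) (nat_lit 5) (nat_lit 6) (.e false (nat_lit 2304) (nat_lit 135) (nat_lit 1) (nat_lit 9) (.e false (nat_lit 4608) (nat_lit 136) (nat_lit 1) (nat_lit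 9) (.e false (nat_lit 4608) (nat_lit 75) (nat_lit 6) (nat_lit 5) (.e false (nat_lit 2304) (nat_lit 76) (nat_lit 6) (nat_lit 5) (.e false (nat_lit 1152) (nat_lit 118) (nat_lit 2) (nat_lit 8) (.e false (nat_lit 1152) (nat_lit 119) (nat_lit 2) (nat_lit 8) (.e false (nat_lit 2304) (nat_lit 113) (nat_lit 2) (nat_lit 8) (.e false (nat_lit 2304) (nat_lit 110) (nat_lit 2) (nat_lit 8) (.e true (nat_lit 2304) (nat_lit 117) (nat_lit 2) (nat_lit 8) (.e false (nat_lit 3456) (nat_lit 114) (nat_lit 2) (nat_lit 8) (.e true (nat_lit 1152) (nat_lit 116) (nat_lit 2) (nat_lit 8) .nil)))))))))))))))))))))))))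

noncomputable def dP8_t0 : Tr := (.nd (.nd (.nd (.nd (.nd (.nd (.nd .leaf (nat_lit 1024) (nat_lit 0) (.p (nat_lit 3) (nat_lit 576) .z) .df .leaf) (nat_lit 1025) (nat_lit 1) (.p (nat_lit 4) (nat_lit 576) .z) .df (.nd .leaf (nat_lit 2048) (nat_lit 2) (.p (nat_lit 5) (nat_lit 576) .z) .df .leaf)) (nat_lit 2049) (nat_lit 3) (.p (nat_lit 6) (nat_lit 576) .z) .df (.nd (.nd .leaf (nat_lit 2050) (nat_lit 4) (.p (nat_lit 7) (nat_lit 576) .z) .df .leaf) (nat_lit 3073) (nat_lit 5) (.p (nat_lit 8) (nat_lit 576) .z) .df (.nd .leaf (nat_lit 3074) (nat_lit 7) (.p (nat_lit 10) (nat_lit 576) .z) .df .leaf))) (nat_lit 4096) (nat_lit 6) (.p (nat_lit 9) (nat_lit 576) .z) .df (.nd (.nd (.nd .leaf (nat_lit 4098) (nat_lit 10) (.p (nat_lit 13) (nat_lit 576) .z) .df .leaf) (nat_lit 5121) (nat_lit 8) (.p (nat_lit 11) (nat_lit 576) .z) .df (.nd .leaf (nat_lit 5122) (nat_lit 12) (.p (nat_lit 15) (nat_lit 576) .z) .df .leaf)) (nat_lit 5124) (nat_lit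 25) (.n (nat_lit 21) (nat_lit 576) (.n (nat_lit 22) (nat_lit 1152) (.p (nat_lit 23) (nat_lit 1152) (.p (nat_lit 24) (nat_lit 1152) (.p (nat_lit 25) (nat_lit 576) .z))))) (.ct dP8_c289 (nat_lit 576) (nat_lit 0) (.s false (nat_lit 1) (nat_lit 2) (nat_lit 1) (nat_lit 0) (nat_lit 1) true (nat_lit 0) true (nat_lit 3) true (nat_lit 2) true (nat_lit 3) true (nat_lit 4) (.e false (nat_lit 576) (nat_lit 12) (nat_lit 1) (nat_lit 3) (.e false (nat_lit 576) (nat_lit 8) (nat_lit 2) (nat_lit 2) (.e true (nat_lit 576) (nat_lit 10) (nat_lit 1) (nat_lit 3) (.e false (nat_lit 576) (nat_lit 14) (nat_lit 0) (nat_lit 4) .nil)))))) (.nd (.nd .leaf (nat_lit 6144) (nat_lit 9) (.p (nat_lit 12) (nat_lit 576) .z) .df .leaf) (nat_lit 6145) (nat_lit 11) (.p (nat_lit 14) (nat_lit 576) .z) .df .leaf))) (nat_lit 6146) (nat_lit 14) (.p (nat_lit 17) (nat_lit 576) .z) .df (.nd (.nd (.nd (.nd .leaf (nat_lit 6147) (nat_lit 23) (.p (nat_lit 20) (nat_lit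 576) (.n (nat_lit 23) (nat_lit 576) (.n (nat_lit 24) (nat_lit 576) (.n (nat_lit 25) (nat_lit 576) .z)))) (.ct dP8_c289 (nat_lit 576) (nat_lit 1) (.s true (nat_lit 1) (nat_lit 2) (nat_lit 0) (nat_lit 1) (nat_lit 1) true (nat_lit 1) true (nat_lit 3) true (nat_lit 2) true (nat_lit 4) true (nat_lit 3) (.e true (nat_lit 576) (nat_lit 11) (nat_lit 1) (nat_lit 3) (.e false (nat_lit 576) (nat_lit 8) (nat_lit 2) (nat_lit 2) (.e true (nat_lit 576) (nat_lit 13) (nat_lit 0) (nat_lit 4) (.e true (nat_lit 576) (nat_lit 12) (nat_lit 1) (nat_lit 3) .nil)))))) .leaf) (nat_lit 6149) (nat_lit 32) (.p (nat_lit 26) (nat_lit 576) (.n (nat_lit 27) (nat_lit 576) (.n (nat_lit 30) (nat_lit 576) (.n (nat_lit 31) (nat_lit 576) .z)))) (.ct dP8_c274 (nat_lit 576) (nat_lit 0) (.s true (nat_lit 1) (nat_lit 2) (nat_lit 0) (nat_lit 1) (nat_lit 2) true (nat_lit 0) true (nat_lit 2) true (nat_lit 2) true (nat_lit 4) true (nat_lit 3) (.e true (nat_lit 576)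 (nat_lit 11) (nat_lit 2) (nat_lit 2) (.e false (nat_lit 576) (nat_lit 10) (nat_lit 2) (nat_lit 2) (.e true (nat_lit 576) (nat_lit 17) (nat_lit 0) (nat_lit 4) (.e true (nat_lit 576) (nat_lit 16) (nat_lit 1) (nat_lit 3) .nil)))))) (.nd .leaf (nat_lit 7168) (nat_lit 13) (.p (nat_lit 16) (nat_lit 576) .z) .df .leaf)) (nat_lit 7169) (nat_lit 15) (.p (nat_lit 18) (nat_lit 576) .z) .df (.nd (.nd .leaf (nat_lit 7170) (nat_lit 16) (.p (nat_lit 19) (nat_lit 576) .z) .df .leaf) (nat_lit 7171) (nat_lit 34) (.p (nat_lit 27) (nat_lit 576) (.n (nat_lit 28) (nat_lit 576) (.n (nat_lit 29) (nat_lit 576) (.n (nat_lit 31) (nat_lit 576) .z)))) (.ct dP8_c274 (nat_lit 576) (nat_lit 1) (.s true (nat_lit 1) (nat_lit 2) (nat_lit 0) (nat_lit 2) (nat_lit 1) true (nat_lit 1) true (nat_lit 3) true (nat_lit 2) true (nat_lit 4) true (nat_lit 2) (.e true (nat_lit 576) (nat_lit 15) (nat_lit 1) (nat_lit 3) (.e false (nat_lit 576) (nat_lit 11) (nat_lit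 2) (nat_lit 2) (.e true (nat_lit 576) (nat_lit 17) (nat_lit 0) (nat_lit 4) (.e true (nat_lit 576) (nat_lit 12) (nat_lit 2) (nat_lit 2) .nil)))))) (.nd .leaf (nat_lit 7172) (nat_lit 39) (.p (nat_lit 33) (nat_lit 1152) (.n (nat_lit 34) (nat_lit 1152) .z)) (.ct dP8_c34 (nat_lit 576) (nat_lit 1) (.s true (nat_lit 1) (nat_lit 2) (nat_lit 1) (nat_lit 2) (nat_lit 1) true (nat_lit 1) true (nat_lit 3) true (nat_lit 2) true (nat_lit 3) true (nat_lit 2) (.e true (nat_lit 1152) (nat_lit 17) (nat_lit 1) (nat_lit 3) (.e false (nat_lit 1152) (nat_lit 14) (nat_lit 2) (nat_lit 2) .nil)))) .leaf))) (nat_lit 7173) (nat_lit 43) (.n (nat_lit 36) (nat_lit 576) (.n (nat_lit 37) (nat_lit 576) .z)) (.ct dP8_c259 (nat_lit 576) (nat_lit 0) (.s true (nat_lit 1) (nat_lit 2) (nat_lit 0) (nat_lit 2) (nat_lit 2) true (nat_lit 0) true (nat_lit 1) true (nat_lit 1) true (nat_lit 2) true (nat_lit 1) (.e true (nat_lit 576) (nat_lit 19) (nat_lit 0) (nat_lit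 2) (.e true (nat_lit 576) (nat_lit 16) (nat_lit 2) (nat_lit 1) .nil)))) (.nd (.nd (.nd .leaf (nat_lit 7174) (nat_lit 47) (.p (nat_lit 39) (nat_lit 576) (.n (nat_lit 40) (nat_lit 576) .z)) (.ct dP8_c19 (nat_lit 576) (nat_lit 0) (.s true (nat_lit 1) (nat_lit 2) (nat_lit 1) (nat_lit 2) (nat_lit 2) true (nat_lit 0) true (nat_lit 1) true (nat_lit 1) true (nat_lit 2) true (nat_lit 1) (.e true (nat_lit 576) (nat_lit 19) (nat_lit 1) (nat_lit 2) (.e false (nat_lit 576) (nat_lit 18) (nat_lit 2) (nat_lit 1) .nil)))) .leaf) (nat_lit 8194) (nat_lit 17) (.p (nat_lit 20) (nat_lit 576) .z) .df (.nd .leaf (nat_lit 8199) (nat_lit 69) (.n (nat_lit 43) (nat_lit 576) (.p (nat_lit 48) (nat_lit 576) (.n (nat_lit 49) (nat_lit 576) (.p (nat_lit 51) (nat_lit 576) (.n (nat_lit 53) (nat_lit 576) (.p (nat_lit 54) (nat_lit 576) (.p (nat_lit 55) (nat_lit 576) .z))))))) (.ct dP8_c290 (nat_lit 576) (nat_lit 0) (.s true (nat_lit 1) (nat_lit 3) (nat_lit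 2) (nat_lit 1) (nat_lit 2) true (nat_lit 0) true (nat_lit 5) true (nat_lit 4) true (nat_lit 5) true (nat_lit 6) (.e true (nat_lit 576) (nat_lit 22) (nat_lit 2) (nat_lit 5) (.e false (nat_lit 576) (nat_lit 17) (nat_lit 3) (nat_lit 4) (.e true (nat_lit 576) (nat_lit 20) (nat_lit 2) (nat_lit 5) (.e false (nat_lit 576) (nat_lit 23) (nat_lit 2) (nat_lit 5) (.e false (nat_lit 576) (nat_lit 24) (nat_lit 2) (nat_lit 5) (.e false (nat_lit 576) (nat_lit 25) (nat_lit 2) (nat_lit 5) (.e false (nat_lit 576) (nat_lit 26) (nat_lit 1) (nat_lit 6) .nil))))))))) .leaf)) (nat_lit 9218) (nat_lit 18) (.p (nat_lit 21) (nat_lit 576) .z) .df (.nd (.nd .leaf (nat_lit 9223) (nat_lit 73) (.n (nat_lit 43) (nat_lit 576) (.p (nat_lit 44) (nat_lit 1152) (.p (nat_lit 45) (nat_lit 1152) (.p (nat_lit 46) (nat_lit 1152) (.n (nat_lit 48) (nat_lit 576) (.p (nat_lit 49) (nat_lit 576) (.p (nat_lit 52) (nat_lit 576) (.n (nat_lit 54) (nat_lit 1152) (.n (nat_lit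 55) (nat_lit 576) .z))))))))) (.ct dP8_c290 (nat_lit 576) (nat_lit 0) (.s false (nat_lit 1) (nat_lit 4) (nat_lit 2) (nat_lit 0) (nat_lit 2) true (nat_lit 0) true (nat_lit 5) true (nat_lit 3) true (nat_lit 5) true (nat_lit 7) (.e false (nat_lit 1152) (nat_lit 25) (nat_lit 2) (nat_lit 5) (.e false (nat_lit 576) (nat_lit 15) (nat_lit 4) (nat_lit 3) (.e true (nat_lit 576) (nat_lit 21) (nat_lit 2) (nat_lit 5) (.e true (nat_lit 1152) (nat_lit 22) (nat_lit 2) (nat_lit 5) (.e false (nat_lit 1152) (nat_lit 23) (nat_lit 2) (nat_lit 5) (.e false (nat_lit 1152) (nat_lit 24) (nat_lit 2) (nat_lit 5) (.e false (nat_lit 576) (nat_lit 32) (nat_lit 0) (nat_lit 7) .nil))))))))) .leaf) (nat_lit 10241) (nat_lit 19) (.p (nat_lit 22) (nat_lit 576) .z) .df .leaf)))) (nat_lit 10242) (nat_lit 26) (.p (nat_lit 26) (nat_lit 576) .z) .df (.nd (.nd (.nd (.nd (.nd .leaf (nat_lit 10246) (nat_lit 62) (.p (nat_lit 55) (nat_lit 576) .z) .df .leaf) (nat_lit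 10247) (nat_lit 84) (.p (nat_lit 65) (nat_lit 576) .z) .df (.nd .leaf (nat_lit 11265) (nat_lit 20) (.p (nat_lit 23) (nat_lit 576) .z) .df .leaf)) (nat_lit 11266) (nat_lit 27) (.p (nat_lit 27) (nat_lit 576) .z) .df (.nd (.nd .leaf (nat_lit 11270) (nat_lit 65) (.p (nat_lit 45) (nat_lit 576) (.p (nat_lit 49) (nat_lit 576) (.n (nat_lit 53) (nat_lit 576) (.n (nat_lit 54) (nat_lit 576) (.n (nat_lit 55) (nat_lit 576) .z))))) (.ct dP8_c290 (nat_lit 576) (nat_lit 1) (.s false (nat_lit 1) (nat_lit 6) (nat_lit 0) (nat_lit 2) (nat_lit 1) true (nat_lit 4) true (nat_lit 6) true (nat_lit 1) true (nat_lit 7) true (nat_lit 5) (.s true (nat_lit 1) (nat_lit 6) (nat_lit 1) (nat_lit 0) (nat_lit 2) true (nat_lit 1) true (nat_lit 5) true (nat_lit 1) true (nat_lit 6) true (nat_lit 7) (.s true (nat_lit 1) (nat_lit 6) (nat_lit 1) (nat_lit 2) (nat_lit 0) true (nat_lit 4) true (nat_lit 7) true (nat_lit 1) true (nat_lit 6) true (nat_lit 5) (.e false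 (nat_lit 576) (nat_lit 28) (nat_lit 1) (nat_lit 6) (.e false (nat_lit 576) (nat_lit 24) (nat_lit 2) (nat_lit 5) (.e true (nat_lit 576) (nat_lit 10) (nat_lit 6) (nat_lit 1) (.e true (nat_lit 576) (nat_lit 34) (nat_lit 0) (nat_lit 7) (.e true (nat_lit 576) (nat_lit 33) (nat_lit 0) (nat_lit 7) .nil))))))))) .leaf) (nat_lit 11271) (nat_lit 86) (.n (nat_lit 56) (nat_lit 1152) (.p (nat_lit 57) (nat_lit 1728) (.n (nat_lit 58) (nat_lit 576) (.n (nat_lit 59) (nat_lit 576) (.p (nat_lit 60) (nat_lit 576) (.p (nat_lit 61) (nat_lit 576) (.n (nat_lit 63) (nat_lit 576) (.p (nat_lit 65) (nat_lit 576) .z)))))))) (.ct dP8_c275 (nat_lit 576) (nat_lit 0) (.s true (nat_lit 1) (nat_lit 5) (nat_lit 2) (nat_lit 1) (nat_lit 2) true (nat_lit 0) true (nat_lit 4) true (nat_lit 2) true (nat_lit 4) true (nat_lit 5) (.s true (nat_lit 1) (nat_lit 5) (nat_lit 2) (nat_lit 2) (nat_lit 1) true (nat_lit 1) true (nat_lit 5) true (nat_lit 2) true (nat_lit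 4) true (nat_lit 4) (.s true (nat_lit 1) (nat_lit 6) (nat_lit 0) (nat_lit 2) (nat_lit 2) true (nat_lit 2) true (nat_lit 4) true (nat_lit 1) true (nat_lit 6) true (nat_lit 4) (.s true (nat_lit 1) (nat_lit 7) (nat_lit 0) (nat_lit 1) (nat_lit 2) true (nat_lit 2) true (nat_lit 4) true (nat_lit 0) true (nat_lit 6) true (nat_lit 5) (.e true (nat_lit 576) (nat_lit 29) (nat_lit 2) (nat_lit 4) (.e true (nat_lit 1152) (nat_lit 26) (nat_lit 2) (nat_lit 4) (.e false (nat_lit 1728) (nat_lit 27) (nat_lit 2) (nat_lit 4) (.e false (nat_lit 576) (nat_lit 30) (nat_lit 2) (nat_lit 4) (.e false (nat_lit 576) (nat_lit 31) (nat_lit 2) (nat_lit 4) (.e true (nat_lit 576) (nat_lit 28) (nat_lit 2) (nat_lit 4) (.e false (nat_lit 576) (nat_lit 10) (nat_lit 7) (nat_lit 0) (.e true (nat_lit 576) (nat_lit 37) (nat_lit 1) (nat_lit 5) .nil))))))))))))) (.nd .leaf (nat_lit 12289) (nat_lit 21) (.p (nat_lit 24) (nat_lit 576) .z) .df .leaf))) (nat_lit 12290)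 (nat_lit 28) (.p (nat_lit 28) (nat_lit 576) .z) .df (.nd (.nd (.nd .leaf (nat_lit 12294) (nat_lit 67) (.n (nat_lit 42) (nat_lit 576) (.n (nat_lit 43) (nat_lit 576) (.p (nat_lit 44) (nat_lit 1152) (.p (nat_lit 45) (nat_lit 1728) (.p (nat_lit 46) (nat_lit 1152) (.p (nat_lit 47) (nat_lit 576) (.p (nat_lit 49) (nat_lit 576) (.n (nat_lit 50) (nat_lit 576) (.n (nat_lit 51) (nat_lit 576) (.p (nat_lit 53) (nat_lit 576) (.n (nat_lit 54) (nat_lit 1152) (.n (nat_lit 55) (nat_lit 576) .z)))))))))))) (.ct dP8_c290 (nat_lit 576) (nat_lit 1) (.s true (nat_lit 1) (nat_lit 6) (nat_lit 1) (nat_lit 2) (nat_lit 0) true (nat_lit 4) true (nat_lit 7) true (nat_lit 1) true (nat_lit 6) true (nat_lit 5) (.e true (nat_lit 576) (nat_lit 17) (nat_lit 3) (nat_lit 4) (.e true (nat_lit 576) (nat_lit 33) (nat_lit 0) (nat_lit 7) (.e true (nat_lit 576) (nat_lit 26) (nat_lit 1) (nat_lit 6) (.e false (nat_lit 576) (nat_lit 27) (nat_lit 1) (nat_lit 6) (.e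 false (nat_lit 576) (nat_lit 30) (nat_lit 1) (nat_lit 6) (.e false (nat_lit 576) (nat_lit 31) (nat_lit 1) (nat_lit 6) (.e false (nat_lit 576) (nat_lit 24) (nat_lit 2) (nat_lit 5) .nil))))))))) .leaf) (nat_lit 12295) (nat_lit 88) (.n (nat_lit 57) (nat_lit 576) (.p (nat_lit 58) (nat_lit 576) (.p (nat_lit 59) (nat_lit 576) (.p (nat_lit 60) (nat_lit 576) (.p (nat_lit 61) (nat_lit 576) (.p (nat_lit 62) (nat_lit 576) (.p (nat_lit 63) (nat_lit 576) (.n (nat_lit 64) (nat_lit 576) (.n (nat_lit 65) (nat_lit 576) .z))))))))) (.ct dP8_c275 (nat_lit 576) (nat_lit 0) (.s true (nat_lit 1) (nat_lit 5) (nat_lit 1) (nat_lit 2) (nat_lit 2) true (nat_lit 1) true (nat_lit 4) true (nat_lit 2) true (nat_lit 5) true (nat_lit 4) (.s false (nat_lit 1) (nat_lit 6) (nat_lit 2) (nat_lit 0) (nat_lit 2) true (nat_lit 0) true (nat_lit 4) true (nat_lit 1) true (nat_lit 4) true (nat_lit 6) (.s true (nat_lit 1) (nat_lit 6) (nat_lit 2) (nat_lit 2) (nat_lit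 0) true (nat_lit 2) true (nat_lit 6) true (nat_lit 1) true (nat_lit 4) true (nat_lit 4) (.s true (nat_lit 1) (nat_lit 7) (nat_lit 2) (nat_lit 0) (nat_lit 1) true (nat_lit 1) true (nat_lit 5) true (nat_lit 0) true (nat_lit 4) true (nat_lit 6) (.e false (nat_lit 1152) (nat_lit 27) (nat_lit 2) (nat_lit 4) (.e false (nat_lit 576) (nat_lit 36) (nat_lit 1) (nat_lit 5) (.e false (nat_lit 1152) (nat_lit 31) (nat_lit 2) (nat_lit 4) (.e true (nat_lit 1152) (nat_lit 26) (nat_lit 2) (nat_lit 4) (.e false (nat_lit 1152) (nat_lit 30) (nat_lit 2) (nat_lit 4) (.e true (nat_lit 576) (nat_lit 11) (nat_lit 7) (nat_lit 0) (.e true (nat_lit 576) (nat_lit 39) (nat_lit 0) (nat_lit 6) .nil)))))))))))) (.nd .leaf (nat_lit 13312) (nat_lit 22) (.p (nat_lit 25) (nat_lit 576) .z) .df .leaf)) (nat_lit 13314) (nat_lit 35) (.p (nat_lit 32) (nat_lit 576) .z) .df (.nd (.nd .leaf (nat_lit 13317) (nat_lit 68) (.p (nat_lit 43) (nat_lit 576) (.n (nat_lit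 46) (nat_lit 576) (.n (nat_lit 48) (nat_lit 576) (.p (nat_lit 49) (nat_lit 576) (.n (nat_lit 53) (nat_lit 1152) (.n (nat_lit 55) (nat_lit 576) .z)))))) (.ct dP8_c290 (nat_lit 576) (nat_lit 2) (.s false (nat_lit 1) (nat_lit 5) (nat_lit 1) (nat_lit 1) (nat_lit 2) true (nat_lit 1) true (nat_lit 5) true (nat_lit 2) true (nat_lit 6) true (nat_lit 6) (.e false (nat_lit 576) (nat_lit 11) (nat_lit 6) (nat_lit 1) (.e false (nat_lit 576) (nat_lit 23) (nat_lit 2) (nat_lit 5) (.e false (nat_lit 576) (nat_lit 26) (nat_lit 1) (nat_lit 6) (.e true (nat_lit 576) (nat_lit 27) (nat_lit 1) (nat_lit 6) (.e true (nat_lit 576) (nat_lit 30) (nat_lit 1) (nat_lit 6) (.e true (nat_lit 576) (nat_lit 31) (nat_lit 1) (nat_lit 6) (.e true (nat_lit 576) (nat_lit 29) (nat_lit 1) (nat_lit 6) .nil))))))))) .leaf) (nat_lit 13319) (nat_lit 102) (.p (nat_lit 67) (nat_lit 576) (.n (nat_lit 68) (nat_lit 1728) (.p (nat_lit 69) (nat_lit 576) (.p (nat_lit 71)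 (nat_lit 576) (.p (nat_lit 72) (nat_lit 576) .z))))) (.ct dP8_c35 (nat_lit 576) (nat_lit 0) (.s true (nat_lit 1) (nat_lit 7) (nat_lit 1) (nat_lit 1) (nat_lit 2) true (nat_lit 1) true (nat_lit 3) true (nat_lit 0) true (nat_lit 4) true (nat_lit 4) (.e true (nat_lit 576) (nat_lit 18) (nat_lit 6) (nat_lit 1) (.e false (nat_lit 576) (nat_lit 32) (nat_lit 2) (nat_lit 3) (.e true (nat_lit 576) (nat_lit 33) (nat_lit 2) (nat_lit 3) (.e true (nat_lit 576) (nat_lit 34) (nat_lit 2) (nat_lit 3) (.e false (nat_lit 576) (nat_lit 39) (nat_lit 1) (nat_lit 4) .nil))))))) .leaf))) (nat_lit 14336) (nat_lit 24) (.n (nat_lit 20) (nat_lit 576) (.n (nat_lit 21) (nat_lit 576) (.n (nat_lit 22) (nat_lit 576) (.p (nat_lit 23) (nat_lit 1152) (.p (nat_lit 24) (nat_lit 576) (.p (nat_lit 25) (nat_lit 576) .z)))))) (.ct dP8_c289 (nat_lit 576) (nat_lit 4) (.s true (nat_lit 1) (nat_lit 2) (nat_lit 1) (nat_lit 1) (nat_lit 0) true (nat_lit 1) true (nat_lit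 4) true (nat_lit 2) true (nat_lit 3) true (nat_lit 3) (.e true (nat_lit 576) (nat_lit 6) (nat_lit 3) (nat_lit 1) (.e true (nat_lit 576) (nat_lit 9) (nat_lit 2) (nat_lit 2) (.e true (nat_lit 576) (nat_lit 10) (nat_lit 1) (nat_lit 3) (.e false (nat_lit 576) (nat_lit 11) (nat_lit 1) (nat_lit 3) .nil)))))) (.nd (.nd (.nd (.nd .leaf (nat_lit 14338) (nat_lit 36) (.p (nat_lit 33) (nat_lit 576) .z) .df .leaf) (nat_lit 14341) (nat_lit 72) (.p (nat_lit 43) (nat_lit 576) (.n (nat_lit 44) (nat_lit 576) (.n (nat_lit 45) (nat_lit 1152) (.n (nat_lit 46) (nat_lit 576) (.n (nat_lit 47) (nat_lit 576) (.p (nat_lit 50) (nat_lit 576) (.p (nat_lit 51) (nat_lit 576) (.n (nat_lit 53) (nat_lit 576) (.p (nat_lit 54) (nat_lit 576) (.p (nat_lit 55) (nat_lit 576) .z)))))))))) (.ct dP8_c290 (nat_lit 576) (nat_lit 2) (.s true (nat_lit 1) (nat_lit 6) (nat_lit 0) (nat_lit 1) (nat_lit 2) true (nat_lit 2) true (nat_lit 5) true (nat_lit 1) true (nat_lit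 7) true (nat_lit 6) (.e true (nat_lit 576) (nat_lit 24) (nat_lit 2) (nat_lit 5) (.e false (nat_lit 576) (nat_lit 10) (nat_lit 6) (nat_lit 1) (.e true (nat_lit 576) (nat_lit 31) (nat_lit 1) (nat_lit 6) .nil))))) (.nd .leaf (nat_lit 14343) (nat_lit 100) (.p (nat_lit 72) (nat_lit 576) .z) .df .leaf)) (nat_lit 15361) (nat_lit 29) (.p (nat_lit 29) (nat_lit 576) .z) .df (.nd (.nd .leaf (nat_lit 15362) (nat_lit 40) (.p (nat_lit 35) (nat_lit 576) .z) .df .leaf) (nat_lit 15364) (nat_lit 70) (.p (nat_lit 44) (nat_lit 576) (.n (nat_lit 45) (nat_lit 576) (.n (nat_lit 47) (nat_lit 576) (.p (nat_lit 51) (nat_lit 576) (.p (nat_lit 55) (nat_lit 576) .z))))) (.ct dP8_c290 (nat_lit 576) (nat_lit 3) (.s false (nat_lit 1) (nat_lit 4) (nat_lit 0) (nat_lit 2) (nat_lit 2) true (nat_lit 2) true (nat_lit 5) true (nat_lit 3) true (nat_lit 7) true (nat_lit 5) (.e false (nat_lit 576) (nat_lit 13) (nat_lit 5) (nat_lit 2) (.e false (nat_lit 576)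 (nat_lit 21) (nat_lit 2) (nat_lit 5) (.e false (nat_lit 1152) (nat_lit 33) (nat_lit 0) (nat_lit 7) (.e true (nat_lit 1152) (nat_lit 34) (nat_lit 0) (nat_lit 7) (.e false (nat_lit 576) (nat_lit 25) (nat_lit 2) (nat_lit 5) .nil))))))) (.nd .leaf (nat_lit 15366) (nat_lit 85) (.p (nat_lit 66) (nat_lit 576) .z) .df .leaf))) (nat_lit 15367) (nat_lit 110) (.p (nat_lit 74) (nat_lit 576) (.n (nat_lit 76) (nat_lit 576) .z)) (.ct dP8_c260 (nat_lit 1152) (nat_lit 0) (.s true (nat_lit 1) (nat_lit 5) (nat_lit 2) (nat_lit 2) (nat_lit 2) true (nat_lit 0) true (nat_lit 2) true (nat_lit 1) true (nat_lit 2) true (nat_lit 2) (.s true (nat_lit 1) (nat_lit 7) (nat_lit 2) (nat_lit 0) (nat_lit 2) true (nat_lit 0) true (nat_lit 2) true (nat_lit 0) true (nat_lit 2) true (nat_lit 3) (.s true (nat_lit 1) (nat_lit 7) (nat_lit 2) (nat_lit 2) (nat_lit 0) true (nat_lit 1) true (nat_lit 3) true (nat_lit 0) true (nat_lit 2) true (nat_lit 2) (.e false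 (nat_lit 1152) (nat_lit 36) (nat_lit 2) (nat_lit 2) (.e true (nat_lit 1152) (nat_lit 41) (nat_lit 0) (nat_lit 3) .nil)))))) (.nd (.nd (.nd .leaf (nat_lit 15373) (nat_lit 174) (.n (nat_lit 82) (nat_lit 192) (.p (nat_lit 83) (nat_lit 192) (.p (nat_lit 84) (nat_lit 192) (.p (nat_lit 86) (nat_lit 192) (.n (nat_lit 87) (nat_lit 384) (.n (nat_lit 88) (nat_lit 768) (.p (nat_lit 89) (nat_lit 384) (.n (nat_lit 90) (nat_lit 192) (.n (nat_lit 91) (nat_lit 384) (.n (nat_lit 93) (nat_lit 384) (.p (nat_lit 94) (nat_lit 192) (.p (nat_lit 95) (nat_lit 576) (.n (nat_lit 96) (nat_lit 576) (.n (nat_lit 99) (nat_lit 192) (.p (nat_lit 103) (nat_lit 384) (.n (nat_lit 104) (nat_lit 576) (.p (nat_lit 105) (nat_lit 384) (.n (nat_lit 106) (nat_lit 384) .z)))))))))))))))))) (.ct dP8_c291 (nat_lit 576) (nat_lit 0) (.s false (nat_lit 1) (nat_lit 13) (nat_lit 0) (nat_lit 2) (nat_lit 2) true (nat_lit 5) true (nat_lit 8) true (nat_lit 0) true (nat_lit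 10) true (nat_lit 8) (.e false (nat_lit 576) (nat_lit 32) (nat_lit 5) (nat_lit 5) (.e false (nat_lit 576) (nat_lit 46) (nat_lit 2) (nat_lit 8) (.e true (nat_lit 576) (nat_lit 67) (nat_lit 0) (nat_lit 10) (.e false (nat_lit 1728) (nat_lit 68) (nat_lit 0) (nat_lit 10) (.e true (nat_lit 576) (nat_lit 69) (nat_lit 0) (nat_lit 10) (.e true (nat_lit 576) (nat_lit 71) (nat_lit 0) (nat_lit 10) (.e true (nat_lit 576) (nat_lit 72) (nat_lit 0) (nat_lit 10) (.e false (nat_lit 576) (nat_lit 52) (nat_lit 2) (nat_lit 8) .nil)))))))))) .leaf) (nat_lit 15374) (nat_lit 170) (.p (nat_lit 82) (nat_lit 480) (.n (nat_lit 83) (nat_lit 3648) (.n (nat_lit 84) (nat_lit 4224) (.n (nat_lit 85) (nat_lit 2592) (.p (nat_lit 86) (nat_lit 3840) (.p (nat_lit 87) (nat_lit 1248) (.n (nat_lit 88) (nat_lit 2112) (.p (nat_lit 89) (nat_lit 1632) (.n (nat_lit 90) (nat_lit 672) (.p (nat_lit 91) (nat_lit 2112) (.n (nat_lit 92) (nat_lit 864) (.p (nat_lit 93) (nat_lit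 960) (.p (nat_lit 94) (nat_lit 960) (.p (nat_lit 95) (nat_lit 2592) (.p (nat_lit 96) (nat_lit 576) (.p (nat_lit 97) (nat_lit 1728) (.n (nat_lit 98) (nat_lit 4032) (.p (nat_lit 99) (nat_lit 1056) (.n (nat_lit 100) (nat_lit 576) (.n (nat_lit 101) (nat_lit 576) (.p (nat_lit 102) (nat_lit 576) (.p (nat_lit 103) (nat_lit 480) (.n (nat_lit 104) (nat_lit 2592) (.p (nat_lit 105) (nat_lit 768) (.n (nat_lit 106) (nat_lit 768) (.p (nat_lit 107) (nat_lit 576) .z)))))))))))))))))))))))))) (.ct dP8_c291 (nat_lit 576) (nat_lit 0) (.s false (nat_lit 1) (nat_lit 15) (nat_lit 2) (nat_lit 1) (nat_lit 1) true (nat_lit 4) true (nat_lit 9) false (nat_lit 0) true (nat_lit 8) true (nat_lit 9) (.e false (nat_lit 576) (nat_lit 29) (nat_lit 6) (nat_lit 4) (.e true (nat_lit 576) (nat_lit 56) (nat_lit 1) (nat_lit 9) (.e false (nat_lit 576) (nat_lit 57) (nat_lit 1) (nat_lit 9) (.e true (nat_lit 576) (nat_lit 58) (nat_lit 1) (nat_lit 9) (.e false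 (nat_lit 576) (nat_lit 62) (nat_lit 1) (nat_lit 9) (.e false (nat_lit 576) (nat_lit 65) (nat_lit 1) (nat_lit 9) (.e true (nat_lit 576) (nat_lit 66) (nat_lit 1) (nat_lit 9) (.e true (nat_lit 576) (nat_lit 44) (nat_lit 2) (nat_lit 8) (.e false (nat_lit 576) (nat_lit 45) (nat_lit 2) (nat_lit 8) (.e false (nat_lit 576) (nat_lit 47) (nat_lit 2) (nat_lit 8) (.e true (nat_lit 576) (nat_lit 51) (nat_lit 2) (nat_lit 8) (.e true (nat_lit 576) (nat_lit 55) (nat_lit 2) (nat_lit 8) .nil)))))))))))))) (.nd .leaf (nat_lit 16385) (nat_lit 30) (.p (nat_lit 30) (nat_lit 576) .z) .df .leaf)) (nat_lit 16386) (nat_lit 41) (.p (nat_lit 36) (nat_lit 576) .z) .df (.nd (.nd .leaf (nat_lit 16388) (nat_lit 74) (.n (nat_lit 43) (nat_lit 1728) (.p (nat_lit 44) (nat_lit 1152) (.p (nat_lit 45) (nat_lit 1152) (.p (nat_lit 46) (nat_lit 1152) (.p (nat_lit 48) (nat_lit 576) (.n (nat_lit 49) (nat_lit 576) (.n (nat_lit 52) (nat_lit 576) (.p (nat_lit 53)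 (nat_lit 1152) (.p (nat_lit 55) (nat_lit 576) .z))))))))) (.ct dP8_c290 (nat_lit 576) (nat_lit 3) (.s true (nat_lit 1) (nat_lit 4) (nat_lit 2) (nat_lit 2) (nat_lit 0) true (nat_lit 2) true (nat_lit 7) true (nat_lit 3) true (nat_lit 5) true (nat_lit 5) (.e true (nat_lit 576) (nat_lit 13) (nat_lit 5) (nat_lit 2) (.e true (nat_lit 576) (nat_lit 32) (nat_lit 0) (nat_lit 7) (.e true (nat_lit 1152) (nat_lit 22) (nat_lit 2) (nat_lit 5) (.e false (nat_lit 1152) (nat_lit 23) (nat_lit 2) (nat_lit 5) (.e false (nat_lit 1152) (nat_lit 24) (nat_lit 2) (nat_lit 5) (.e false (nat_lit 576) (nat_lit 25) (nat_lit 2) (nat_lit 5) .nil)))))))) .leaf) (nat_lit 16390) (nat_lit 90) (.n (nat_lit 56) (nat_lit 1152) (.p (nat_lit 57) (nat_lit 1152) (.p (nat_lit 60) (nat_lit 576) (.p (nat_lit 61) (nat_lit 1152) (.p (nat_lit 64) (nat_lit 576) (.p (nat_lit 65) (nat_lit 576) .z)))))) (.ct dP8_c275 (nat_lit 576) (nat_lit 1) (.s false (nat_lit 1) (nat_lit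 7) (nat_lit 2) (nat_lit 0) (nat_lit 1) true (nat_lit 1) true (nat_lit 5) true (nat_lit 0) true (nat_lit 4) true (nat_lit 6) (.e false (nat_lit 576) (nat_lit 37) (nat_lit 1) (nat_lit 5) (.e false (nat_lit 576) (nat_lit 11) (nat_lit 7) (nat_lit 0) (.e true (nat_lit 576) (nat_lit 27) (nat_lit 2) (nat_lit 4) (.e false (nat_lit 576) (nat_lit 28) (nat_lit 2) (nat_lit 4) (.e false (nat_lit 576) (nat_lit 29) (nat_lit 2) (nat_lit 4) (.e false (nat_lit 576) (nat_lit 31) (nat_lit 2) (nat_lit 4) (.e false (nat_lit 576) (nat_lit 39) (nat_lit 0) (nat_lit 6) .nil))))))))) .leaf))))) (nat_lit 16391) (nat_lit 111) (.p (nat_lit 74) (nat_lit 1152) (.p (nat_lit 75) (nat_lit 1152) .z)) (.ct dP8_c260 (nat_lit 576) (nat_lit 0) (.s false (nat_lit 1) (nat_lit 7) (nat_lit 2) (nat_lit 0) (nat_lit 2) true (nat_lit 0) true (nat_lit 2) true (nat_lit 0) true (nat_lit 2) true (nat_lit 3) (.e false (nat_lit 1152) (nat_lit 37) (nat_lit 2) (nat_lit 2)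 (.e false (nat_lit 576) (nat_lit 15) (nat_lit 7) (nat_lit 0) (.e false (nat_lit 576) (nat_lit 36) (nat_lit 2) (nat_lit 2) (.e false (nat_lit 576) (nat_lit 41) (nat_lit 0) (nat_lit 3) .nil)))))) (.nd (.nd (.nd (.nd (.nd (.nd .leaf (nat_lit 16397) (nat_lit 178) (.p (nat_lit 82) (nat_lit 384) (.n (nat_lit 83) (nat_lit 384) (.n (nat_lit 84) (nat_lit 384) (.p (nat_lit 85) (nat_lit 1152) (.n (nat_lit 86) (nat_lit 384) (.p (nat_lit 87) (nat_lit 768) (.p (nat_lit 88) (nat_lit 1536) (.n (nat_lit 89) (nat_lit 768) (.p (nat_lit 90) (nat_lit 384) (.p (nat_lit 91) (nat_lit 768) (.p (nat_lit 93) (nat_lit 768) (.n (nat_lit 94) (nat_lit 384) (.n (nat_lit 95) (nat_lit 1152) (.n (nat_lit 96) (nat_lit 576) (.p (nat_lit 97) (nat_lit 1728) (.n (nat_lit 98) (nat_lit 576) (.p (nat_lit 99) (nat_lit 384) (.n (nat_lit 100) (nat_lit 576) (.n (nat_lit 101) (nat_lit 576) (.n (nat_lit 103) (nat_lit 192) (.p (nat_lit 104) (nat_lit 1152) (.n (nat_lit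 105) (nat_lit 768) (.p (nat_lit 106) (nat_lit 768) .z))))))))))))))))))))))) (.ct dP8_c291 (nat_lit 576) (nat_lit 0) (.s true (nat_lit 1) (nat_lit 13) (nat_lit 2) (nat_lit 2) (nat_lit 0) true (nat_lit 5) true (nat_lit 10) true (nat_lit 0) true (nat_lit 8) true (nat_lit 8) (.e true (nat_lit 576) (nat_lit 32) (nat_lit 5) (nat_lit 5) (.e true (nat_lit 576) (nat_lit 67) (nat_lit 0) (nat_lit 10) (.e true (nat_lit 576) (nat_lit 43) (nat_lit 2) (nat_lit 8) (.e false (nat_lit 1152) (nat_lit 46) (nat_lit 2) (nat_lit 8) (.e false (nat_lit 576) (nat_lit 48) (nat_lit 2) (nat_lit 8) (.e true (nat_lit 576) (nat_lit 49) (nat_lit 2) (nat_lit 8) (.e false (nat_lit 1152) (nat_lit 53) (nat_lit 2) (nat_lit 8) (.e false (nat_lit 576) (nat_lit 55) (nat_lit 2) (nat_lit 8) .nil)))))))))) .leaf) (nat_lit 16398) (nat_lit 177) (.p (nat_lit 82) (nat_lit 1536) (.n (nat_lit 83) (nat_lit 1536) (.n (nat_lit 84) (nat_lit 1536) (.n (nat_lit 85) (nat_lit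 1728) (.p (nat_lit 86) (nat_lit 768) (.p (nat_lit 87) (nat_lit 192) (.n (nat_lit 88) (nat_lit 768) (.n (nat_lit 89) (nat_lit 768) (.n (nat_lit 90) (nat_lit 768) (.p (nat_lit 91) (nat_lit 768) (.p (nat_lit 93) (nat_lit 768) (.p (nat_lit 94) (nat_lit 192) (.p (nat_lit 96) (nat_lit 576) (.n (nat_lit 97) (nat_lit 576) (.n (nat_lit 98) (nat_lit 576) (.p (nat_lit 99) (nat_lit 384) (.p (nat_lit 101) (nat_lit 576) (.p (nat_lit 102) (nat_lit 576) (.p (nat_lit 103) (nat_lit 384) (.n (nat_lit 105) (nat_lit 768) (.p (nat_lit 106) (nat_lit 768) .z))))))))))))))))))))) (.ct dP8_c291 (nat_lit 576) (nat_lit 0) (.s false (nat_lit 1) (nat_lit 16) (nat_lit 1) (nat_lit 2) (nat_lit 1) true (nat_lit 6) true (nat_lit 9) false (nat_lit 0) true (nat_lit 9) true (nat_lit 8) (.e false (nat_lit 576) (nat_lit 36) (nat_lit 4) (nat_lit 6) (.e false (nat_lit 1152) (nat_lit 56) (nat_lit 1) (nat_lit 9) (.e true (nat_lit 1152) (nat_lit 57) (nat_lit 1)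 (nat_lit 9) (.e true (nat_lit 1152) (nat_lit 61) (nat_lit 1) (nat_lit 9) (.e true (nat_lit 576) (nat_lit 64) (nat_lit 1) (nat_lit 9) (.e true (nat_lit 576) (nat_lit 65) (nat_lit 1) (nat_lit 9) (.e true (nat_lit 576) (nat_lit 51) (nat_lit 2) (nat_lit 8) .nil))))))))) (.nd .leaf (nat_lit 17408) (nat_lit 31) (.p (nat_lit 31) (nat_lit 576) .z) .df .leaf)) (nat_lit 17409) (nat_lit 37) (.p (nat_lit 34) (nat_lit 576) .z) .df (.nd (.nd .leaf (nat_lit 17410) (nat_lit 44) (.p (nat_lit 38) (nat_lit 576) .z) .df .leaf) (nat_lit 17411) (nat_lit 63) (.p (nat_lit 42) (nat_lit 576) (.n (nat_lit 44) (nat_lit 576) (.n (nat_lit 45) (nat_lit 576) (.n (nat_lit 46) (nat_lit 576) (.n (nat_lit 47) (nat_lit 576) (.p (nat_lit 48) (nat_lit 576) (.n (nat_lit 49) (nat_lit 576) (.p (nat_lit 51) (nat_lit 576) (.n (nat_lit 53) (nat_lit 576) (.p (nat_lit 54) (nat_lit 576) (.p (nat_lit 55) (nat_lit 576) .z))))))))))) (.ct dP8_c290 (nat_lit 576) (nat_lit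 4) (.s true (nat_lit 1) (nat_lit 6) (nat_lit 0) (nat_lit 2) (nat_lit 1) true (nat_lit 4) true (nat_lit 6) true (nat_lit 1) true (nat_lit 7) true (nat_lit 5) (.s false (nat_lit 1) (nat_lit 6) (nat_lit 1) (nat_lit 0) (nat_lit 2) true (nat_lit 1) true (nat_lit 5) true (nat_lit 1) true (nat_lit 6) true (nat_lit 7) (.s true (nat_lit 1) (nat_lit 6) (nat_lit 2) (nat_lit 0) (nat_lit 1) true (nat_lit 1) true (nat_lit 6) true (nat_lit 1) true (nat_lit 5) true (nat_lit 7) (.e true (nat_lit 576) (nat_lit 28) (nat_lit 1) (nat_lit 6) (.e false (nat_lit 576) (nat_lit 20) (nat_lit 2) (nat_lit 5) (.e true (nat_lit 576) (nat_lit 23) (nat_lit 2) (nat_lit 5) (.e true (nat_lit 576) (nat_lit 24) (nat_lit 2) (nat_lit 5) (.e true (nat_lit 576) (nat_lit 25) (nat_lit 2) (nat_lit 5) (.e false (nat_lit 576) (nat_lit 10) (nat_lit 6) (nat_lit 1) (.e true (nat_lit 576) (nat_lit 26) (nat_lit 1) (nat_lit 6) (.e false (nat_lit 576) (nat_lit 27) (nat_lit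 1) (nat_lit 6) (.e false (nat_lit 576) (nat_lit 30) (nat_lit 1) (nat_lit 6) (.e false (nat_lit 576) (nat_lit 34) (nat_lit 0) (nat_lit 7) (.e true (nat_lit 576) (nat_lit 33) (nat_lit 0) (nat_lit 7) .nil))))))))))))))) (.nd .leaf (nat_lit 17413) (nat_lit 89) (.p (nat_lit 57) (nat_lit 576) (.n (nat_lit 59) (nat_lit 576) (.n (nat_lit 62) (nat_lit 576) (.n (nat_lit 63) (nat_lit 576) (.p (nat_lit 66) (nat_lit 576) .z))))) (.ct dP8_c275 (nat_lit 576) (nat_lit 2) (.s false (nat_lit 1) (nat_lit 5) (nat_lit 1) (nat_lit 2) (nat_lit 2) true (nat_lit 1) true (nat_lit 4) true (nat_lit 2) true (nat_lit 5) true (nat_lit 4) (.e false (nat_lit 576) (nat_lit 15) (nat_lit 6) (nat_lit 1) (.e false (nat_lit 576) (nat_lit 27) (nat_lit 2) (nat_lit 4) (.e true (nat_lit 576) (nat_lit 36) (nat_lit 1) (nat_lit 5) (.e true (nat_lit 576) (nat_lit 37) (nat_lit 1) (nat_lit 5) (.e true (nat_lit 576) (nat_lit 29) (nat_lit 2) (nat_lit 4) .nil))))))) .leaf)))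 (nat_lit 17414) (nat_lit 103) (.n (nat_lit 68) (nat_lit 288) (.p (nat_lit 69) (nat_lit 288) (.n (nat_lit 70) (nat_lit 288) (.p (nat_lit 71) (nat_lit 288) .z)))) (.ct dP8_c35 (nat_lit 1152) (nat_lit 1) (.s true (nat_lit 1) (nat_lit 6) (nat_lit 1) (nat_lit 2) (nat_lit 2) true (nat_lit 1) true (nat_lit 3) true (nat_lit 1) true (nat_lit 4) true (nat_lit 3) (.e true (nat_lit 576) (nat_lit 33) (nat_lit 2) (nat_lit 3) (.e true (nat_lit 576) (nat_lit 39) (nat_lit 1) (nat_lit 4) (.e false (nat_lit 576) (nat_lit 40) (nat_lit 1) (nat_lit 4) (.e false (nat_lit 576) (nat_lit 34) (nat_lit 2) (nat_lit 3) .nil)))))) (.nd (.nd (.nd .leaf (nat_lit 17415) (nat_lit 117) (.n (nat_lit 78) (nat_lit 576) (.p (nat_lit 80) (nat_lit 576) .z)) (.ct dP8_c20 (nat_lit 1152) (nat_lit 0) (.s true (nat_lit 1) (nat_lit 6) (nat_lit 2) (nat_lit 2) (nat_lit 2) true (nat_lit 0) true (nat_lit 2) true (nat_lit 1) true (nat_lit 2) true (nat_lit 2) (.s true (nat_lit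 1) (nat_lit 7) (nat_lit 2) (nat_lit 1) (nat_lit 2) true (nat_lit 0) true (nat_lit 2) true (nat_lit 0) true (nat_lit 2) true (nat_lit 3) (.s false (nat_lit 1) (nat_lit 7) (nat_lit 2) (nat_lit 2) (nat_lit 1) true (nat_lit 1) true (nat_lit 3) true (nat_lit 0) true (nat_lit 2) true (nat_lit 2) (.e true (nat_lit 1152) (nat_lit 39) (nat_lit 2) (nat_lit 2) (.e false (nat_lit 1152) (nat_lit 41) (nat_lit 1) (nat_lit 3) .nil)))))) .leaf) (nat_lit 17418) (nat_lit 181) (.n (nat_lit 82) (nat_lit 576) (.p (nat_lit 86) (nat_lit 576) (.p (nat_lit 95) (nat_lit 576) (.n (nat_lit 104) (nat_lit 576) .z)))) (.ct dP8_c291 (nat_lit 576) (nat_lit 1) (.s true (nat_lit 1) (nat_lit 10) (nat_lit 1) (nat_lit 2) (nat_lit 2) true (nat_lit 4) true (nat_lit 8) true (nat_lit 1) true (nat_lit 9) true (nat_lit 8) (.e true (nat_lit 576) (nat_lit 26) (nat_lit 6) (nat_lit 4) (.e true (nat_lit 576) (nat_lit 43) (nat_lit 2) (nat_lit 8) (.e false (nat_lit 576)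 (nat_lit 65) (nat_lit 1) (nat_lit 9) (.e false (nat_lit 576) (nat_lit 47) (nat_lit 2) (nat_lit 8) .nil)))))) (.nd .leaf (nat_lit 17419) (nat_lit 173) (.p (nat_lit 82) (nat_lit 1056) (.n (nat_lit 83) (nat_lit 4224) (.n (nat_lit 84) (nat_lit 5376) (.n (nat_lit 85) (nat_lit 2592) (.p (nat_lit 86) (nat_lit 3840) (.p (nat_lit 87) (nat_lit 1824) (.n (nat_lit 88) (nat_lit 1536) (.p (nat_lit 89) (nat_lit 1632) (.n (nat_lit 90) (nat_lit 672) (.p (nat_lit 91) (nat_lit 3264) (.n (nat_lit 92) (nat_lit 864) (.p (nat_lit 93) (nat_lit 1536) (.p (nat_lit 94) (nat_lit 960) (.p (nat_lit 95) (nat_lit 2016) (.p (nat_lit 96) (nat_lit 576) (.p (nat_lit 97) (nat_lit 2592) (.n (nat_lit 98) (nat_lit 4320) (.p (nat_lit 99) (nat_lit 1344) (.n (nat_lit 100) (nat_lit 864) (.n (nat_lit 101) (nat_lit 576) (.p (nat_lit 102) (nat_lit 576) (.p (nat_lit 103) (nat_lit 480) (.n (nat_lit 104) (nat_lit 2592) (.p (nat_lit 105) (nat_lit 192) (.n (nat_lit 106)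 (nat_lit 192) (.p (nat_lit 107) (nat_lit 576) .z)))))))))))))))))))))))))) (.ct dP8_c291 (nat_lit 576) (nat_lit 1) (.s true (nat_lit 1) (nat_lit 11) (nat_lit 2) (nat_lit 1) (nat_lit 2) true (nat_lit 3) true (nat_lit 8) true (nat_lit 1) true (nat_lit 8) true (nat_lit 9) (.e true (nat_lit 576) (nat_lit 23) (nat_lit 7) (nat_lit 3) (.e true (nat_lit 576) (nat_lit 48) (nat_lit 2) (nat_lit 8) (.e false (nat_lit 576) (nat_lit 45) (nat_lit 2) (nat_lit 8) (.e false (nat_lit 576) (nat_lit 49) (nat_lit 2) (nat_lit 8) (.e true (nat_lit 576) (nat_lit 53) (nat_lit 2) (nat_lit 8) (.e true (nat_lit 576) (nat_lit 54) (nat_lit 2) (nat_lit 8) (.e true (nat_lit 576) (nat_lit 55) (nat_lit 2) (nat_lit 8) (.e false (nat_lit 576) (nat_lit 57) (nat_lit 1) (nat_lit 9) .nil)))))))))) .leaf)) (nat_lit 17423) (nat_lit 215) (.n (nat_lit 108) (nat_lit 864) (.n (nat_lit 109) (nat_lit 288) (.p (nat_lit 110) (nat_lit 576) (.p (nat_lit 111) (nat_lit 1152)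 (.p (nat_lit 112) (nat_lit 864) (.p (nat_lit 113) (nat_lit 1440) (.p (nat_lit 114) (nat_lit 144) (.p (nat_lit 115) (nat_lit 720) (.p (nat_lit 116) (nat_lit 144) (.n (nat_lit 117) (nat_lit 576) (.p (nat_lit 118) (nat_lit 432) (.n (nat_lit 119) (nat_lit 144) (.p (nat_lit 120) (nat_lit 144) (.n (nat_lit 121) (nat_lit 432) (.n (nat_lit 122) (nat_lit 576) (.n (nat_lit 123) (nat_lit 432) .z)))))))))))))))) (.ct dP8_c276 (nat_lit 576) (nat_lit 0) (.s true (nat_lit 1) (nat_lit 15) (nat_lit 1) (nat_lit 2) (nat_lit 2) true (nat_lit 3) true (nat_lit 6) true (nat_lit 0) true (nat_lit 7) true (nat_lit 6) (.e true (nat_lit 576) (nat_lit 35) (nat_lit 6) (nat_lit 3) (.e false (nat_lit 576) (nat_lit 74) (nat_lit 1) (nat_lit 7) (.e true (nat_lit 576) (nat_lit 76) (nat_lit 1) (nat_lit 7) (.e true (nat_lit 576) (nat_lit 56) (nat_lit 2) (nat_lit 6) (.e false (nat_lit 576) (nat_lit 57) (nat_lit 2) (nat_lit 6) (.e true (nat_lit 576) (nat_lit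 58) (nat_lit 2) (nat_lit 6) (.e false (nat_lit 576) (nat_lit 62) (nat_lit 2) (nat_lit 6) (.e false (nat_lit 576) (nat_lit 65) (nat_lit 2) (nat_lit 6) (.e true (nat_lit 576) (nat_lit 66) (nat_lit 2) (nat_lit 6) .nil))))))))))) (.nd (.nd .leaf (nat_lit 17424) (nat_lit 217) (.n (nat_lit 108) (nat_lit 1152) (.p (nat_lit 109) (nat_lit 1152) (.p (nat_lit 112) (nat_lit 576) (.p (nat_lit 113) (nat_lit 1152) (.n (nat_lit 114) (nat_lit 576) (.p (nat_lit 116) (nat_lit 576) (.p (nat_lit 117) (nat_lit 576) (.p (nat_lit 118) (nat_lit 576) (.n (nat_lit 121) (nat_lit 576) .z))))))))) (.ct dP8_c276 (nat_lit 576) (nat_lit 0) (.s true (nat_lit 1) (nat_lit 16) (nat_lit 1) (nat_lit 2) (nat_lit 2) true (nat_lit 3) true (nat_lit 6) true (nat_lit 0) true (nat_lit 7) true (nat_lit 6) (.e true (nat_lit 576) (nat_lit 36) (nat_lit 6) (nat_lit 3) (.e true (nat_lit 576) (nat_lit 60) (nat_lit 2) (nat_lit 6) (.e false (nat_lit 1152) (nat_lit 74) (nat_lit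 1) (nat_lit 7) (.e false (nat_lit 1152) (nat_lit 75) (nat_lit 1) (nat_lit 7) (.e false (nat_lit 576) (nat_lit 62) (nat_lit 2) (nat_lit 6) .nil))))))) .leaf) (nat_lit 17425) (nat_lit 238) (.p (nat_lit 125) (nat_lit 288) (.n (nat_lit 126) (nat_lit 288) (.p (nat_lit 127) (nat_lit 288) (.n (nat_lit 128) (nat_lit 288) (.n (nat_lit 129) (nat_lit 576) (.p (nat_lit 130) (nat_lit 576) (.n (nat_lit 131) (nat_lit 576) (.p (nat_lit 133) (nat_lit 576) .z)))))))) (.ct dP8_c36 (nat_lit 576) (nat_lit 0) (.s false (nat_lit 1) (nat_lit 6) (nat_lit 2) (nat_lit 2) (nat_lit 6) true (nat_lit 0) true (nat_lit 3) true (nat_lit 3) true (nat_lit 5) true (nat_lit 5) (.e false (nat_lit 576) (nat_lit 38) (nat_lit 6) (nat_lit 3) (.e false (nat_lit 576) (nat_lit 39) (nat_lit 6) (nat_lit 3) (.e true (nat_lit 576) (nat_lit 40) (nat_lit 6) (nat_lit 3) (.e true (nat_lit 288) (nat_lit 68) (nat_lit 2) (nat_lit 5) (.e false (nat_lit 288) (nat_lit 69) (nat_lit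 2) (nat_lit 5) (.e true (nat_lit 288) (nat_lit 70) (nat_lit 2) (nat_lit 5) (.e false (nat_lit 288) (nat_lit 71) (nat_lit 2) (nat_lit 5) .nil))))))))) .leaf))) (nat_lit 18432) (nat_lit 33) (.n (nat_lit 26) (nat_lit 1152) (.p (nat_lit 27) (nat_lit 576) (.n (nat_lit 28) (nat_lit 576) (.p (nat_lit 29) (nat_lit 576) (.p (nat_lit 30) (nat_lit 576) (.p (nat_lit 31) (nat_lit 576) .z)))))) (.ct dP8_c274 (nat_lit 576) (nat_lit 4) (.s true (nat_lit 1) (nat_lit 2) (nat_lit 1) (nat_lit 0) (nat_lit 2) false (nat_lit 0) true (nat_lit 2) true (nat_lit 2) true (nat_lit 3) true (nat_lit 4) (.e true (nat_lit 576) (nat_lit 6) (nat_lit 5) (nat_lit 0) (.e true (nat_lit 576) (nat_lit 12) (nat_lit 2) (nat_lit 2) (.e true (nat_lit 576) (nat_lit 10) (nat_lit 2) (nat_lit 2) (.e false (nat_lit 576) (nat_lit 15) (nat_lit 1) (nat_lit 3) .nil)))))) (.nd (.nd (.nd (.nd .leaf (nat_lit 18433) (nat_lit 38) (.n (nat_lit 32) (nat_lit 576) (.p (nat_lit 33)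 (nat_lit 576) (.p (nat_lit 34) (nat_lit 576) .z))) (.ct dP8_c34 (nat_lit 576) (nat_lit 3) (.s false (nat_lit 1) (nat_lit 2) (nat_lit 1) (nat_lit 1) (nat_lit 2) true (nat_lit 0) true (nat_lit 2) true (nat_lit 2) true (nat_lit 3) true (nat_lit 3) (.a false (nat_lit 165888) (nat_lit 6) (nat_lit 6) (nat_lit 0) (nat_lit 0) (.e false (nat_lit 576) (nat_lit 14) (nat_lit 2) (nat_lit 2) (.e true (nat_lit 576) (nat_lit 13) (nat_lit 2) (nat_lit 2) (.e false (nat_lit 576) (nat_lit 17) (nat_lit 1) (nat_lit 3) .nil)))))) .leaf) (nat_lit 18434) (nat_lit 45) (.p (nat_lit 39) (nat_lit 576) .z) .df (.nd .leaf (nat_lit 18435) (nat_lit 71) (.n (nat_lit 44) (nat_lit 576) (.n (nat_lit 45) (nat_lit 576) (.n (nat_lit 46) (nat_lit 576) (.p (nat_lit 47) (nat_lit 576) (.p (nat_lit 55) (nat_lit 576) .z))))) (.ct dP8_c290 (nat_lit 576) (nat_lit 4) (.s false (nat_lit 1) (nat_lit 3) (nat_lit 2) (nat_lit 2) (nat_lit 1) true (nat_lit 1) true (nat_lit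 6) true (nat_lit 4) true (nat_lit 5) true (nat_lit 5) (.e false (nat_lit 576) (nat_lit 10) (nat_lit 6) (nat_lit 1) (.e false (nat_lit 576) (nat_lit 26) (nat_lit 1) (nat_lit 6) (.e true (nat_lit 576) (nat_lit 23) (nat_lit 2) (nat_lit 5) (.e true (nat_lit 576) (nat_lit 24) (nat_lit 2) (nat_lit 5) (.e true (nat_lit 576) (nat_lit 25) (nat_lit 2) (nat_lit 5) .nil))))))) .leaf)) (nat_lit 18437) (nat_lit 91) (.n (nat_lit 57) (nat_lit 576) (.n (nat_lit 58) (nat_lit 576) (.p (nat_lit 59) (nat_lit 576) (.n (nat_lit 60) (nat_lit 576) (.n (nat_lit 61) (nat_lit 576) (.p (nat_lit 62) (nat_lit 576) (.p (nat_lit 65) (nat_lit 576) .z))))))) (.ct dP8_c275 (nat_lit 576) (nat_lit 2) (.s true (nat_lit 1) (nat_lit 7) (nat_lit 0) (nat_lit 1) (nat_lit 2) true (nat_lit 2) true (nat_lit 4) true (nat_lit 0) true (nat_lit 6) true (nat_lit 5) (.e true (nat_lit 576) (nat_lit 30) (nat_lit 2) (nat_lit 4) (.e false (nat_lit 576) (nat_lit 10) (nat_lit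 7) (nat_lit 0) (.e false (nat_lit 576) (nat_lit 39) (nat_lit 0) (nat_lit 6) (.e true (nat_lit 576) (nat_lit 40) (nat_lit 0) (nat_lit 6) (.e true (nat_lit 576) (nat_lit 37) (nat_lit 1) (nat_lit 5) .nil))))))) (.nd (.nd .leaf (nat_lit 18438) (nat_lit 101) (.p (nat_lit 68) (nat_lit 1152) (.n (nat_lit 69) (nat_lit 1152) (.p (nat_lit 70) (nat_lit 576) (.n (nat_lit 71) (nat_lit 576) (.n (nat_lit 72) (nat_lit 576) .z))))) (.ct dP8_c35 (nat_lit 576) (nat_lit 1) (.s true (nat_lit 1) (nat_lit 7) (nat_lit 2) (nat_lit 1) (nat_lit 1) true (nat_lit 1) true (nat_lit 4) true (nat_lit 0) true (nat_lit 3) true (nat_lit 4) (.e true (nat_lit 576) (nat_lit 40) (nat_lit 1) (nat_lit 4) (.e true (nat_lit 576) (nat_lit 14) (nat_lit 7) (nat_lit 0) (.e false (nat_lit 1152) (nat_lit 33) (nat_lit 2) (nat_lit 3) (.e true (nat_lit 1152) (nat_lit 34) (nat_lit 2) (nat_lit 3) (.e false (nat_lit 576) (nat_lit 39) (nat_lit 1) (nat_lit 4) .nil))))))) .leaf)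 (nat_lit 18439) (nat_lit 118) (.p (nat_lit 78) (nat_lit 1152) (.n (nat_lit 79) (nat_lit 1152) .z)) (.ct dP8_c20 (nat_lit 576) (nat_lit 0) (.s true (nat_lit 1) (nat_lit 7) (nat_lit 2) (nat_lit 1) (nat_lit 2) true (nat_lit 0) true (nat_lit 2) true (nat_lit 0) true (nat_lit 2) true (nat_lit 3) (.e true (nat_lit 1152) (nat_lit 40) (nat_lit 2) (nat_lit 2) (.e true (nat_lit 576) (nat_lit 17) (nat_lit 7) (nat_lit 0) (.e false (nat_lit 576) (nat_lit 39) (nat_lit 2) (nat_lit 2) (.e false (nat_lit 576) (nat_lit 41) (nat_lit 1) (nat_lit 3) .nil)))))) (.nd .leaf (nat_lit 18442) (nat_lit 182) (.p (nat_lit 82) (nat_lit 576) (.p (nat_lit 89) (nat_lit 576) (.n (nat_lit 90) (nat_lit 576) (.n (nat_lit 104) (nat_lit 576) .z)))) (.ct dP8_c291 (nat_lit 576) (nat_lit 1) (.s true (nat_lit 1) (nat_lit 10) (nat_lit 2) (nat_lit 2) (nat_lit 1) true (nat_lit 4) true (nat_lit 9) true (nat_lit 1) true (nat_lit 8) true (nat_lit 8) (.e true (nat_lit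 576) (nat_lit 26) (nat_lit 6) (nat_lit 4) (.e true (nat_lit 576) (nat_lit 56) (nat_lit 1) (nat_lit 9) (.e false (nat_lit 576) (nat_lit 55) (nat_lit 2) (nat_lit 8) (.e false (nat_lit 576) (nat_lit 43) (nat_lit 2) (nat_lit 8) .nil)))))) .leaf))) (nat_lit 18443) (nat_lit 175) (.n (nat_lit 82) (nat_lit 1632) (.p (nat_lit 83) (nat_lit 2496) (.p (nat_lit 84) (nat_lit 2496) (.p (nat_lit 85) (nat_lit 2016) (.n (nat_lit 86) (nat_lit 1536) (.n (nat_lit 87) (nat_lit 672) (.p (nat_lit 88) (nat_lit 384) (.p (nat_lit 89) (nat_lit 96) (.p (nat_lit 90) (nat_lit 672) (.n (nat_lit 91) (nat_lit 2112) (.p (nat_lit 92) (nat_lit 288) (.n (nat_lit 93) (nat_lit 1536) (.p (nat_lit 94) (nat_lit 192) (.p (nat_lit 95) (nat_lit 288) (.n (nat_lit 96) (nat_lit 1152) (.p (nat_lit 98) (nat_lit 1728) (.n (nat_lit 99) (nat_lit 480) (.n (nat_lit 101) (nat_lit 576) (.n (nat_lit 102) (nat_lit 576) (.n (nat_lit 103) (nat_lit 480) (.p (nat_lit 104) (nat_lit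 864) (.p (nat_lit 105) (nat_lit 384) (.n (nat_lit 106) (nat_lit 384) (.n (nat_lit 107) (nat_lit 1152) .z)))))))))))))))))))))))) (.ct dP8_c291 (nat_lit 576) (nat_lit 1) (.s true (nat_lit 1) (nat_lit 11) (nat_lit 2) (nat_lit 2) (nat_lit 1) true (nat_lit 4) true (nat_lit 9) true (nat_lit 1) true (nat_lit 8) true (nat_lit 8) (.e true (nat_lit 576) (nat_lit 27) (nat_lit 6) (nat_lit 4) (.e true (nat_lit 576) (nat_lit 57) (nat_lit 1) (nat_lit 9) (.e false (nat_lit 576) (nat_lit 45) (nat_lit 2) (nat_lit 8) (.e false (nat_lit 576) (nat_lit 49) (nat_lit 2) (nat_lit 8) (.e true (nat_lit 576) (nat_lit 53) (nat_lit 2) (nat_lit 8) (.e true (nat_lit 576) (nat_lit 54) (nat_lit 2) (nat_lit 8) (.e true (nat_lit 576) (nat_lit 55) (nat_lit 2) (nat_lit 8) (.e false (nat_lit 576) (nat_lit 44) (nat_lit 2) (nat_lit 8) .nil)))))))))) (.nd (.nd (.nd .leaf (nat_lit 18447) (nat_lit 214) (.p (nat_lit 108) (nat_lit 2304) (.n (nat_lit 109) (nat_lit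 1728) (.p (nat_lit 110) (nat_lit 576) (.n (nat_lit 111) (nat_lit 576) (.n (nat_lit 112) (nat_lit 1728) (.n (nat_lit 113) (nat_lit 1728) (.p (nat_lit 114) (nat_lit 576) (.n (nat_lit 116) (nat_lit 576) (.n (nat_lit 117) (nat_lit 576) (.p (nat_lit 119) (nat_lit 576) (.p (nat_lit 121) (nat_lit 576) .z))))))))))) (.ct dP8_c276 (nat_lit 576) (nat_lit 0) (.s true (nat_lit 1) (nat_lit 7) (nat_lit 5) (nat_lit 1) (nat_lit 2) true (nat_lit 0) true (nat_lit 6) true (nat_lit 2) true (nat_lit 4) true (nat_lit 7) (.e false (nat_lit 576) (nat_lit 62) (nat_lit 2) (nat_lit 6) (.e false (nat_lit 576) (nat_lit 63) (nat_lit 2) (nat_lit 6) (.e true (nat_lit 576) (nat_lit 27) (nat_lit 7) (nat_lit 2) (.e false (nat_lit 576) (nat_lit 39) (nat_lit 5) (nat_lit 4) (.e true (nat_lit 576) (nat_lit 40) (nat_lit 5) (nat_lit 4) (.e true (nat_lit 576) (nat_lit 75) (nat_lit 1) (nat_lit 7) (.e true (nat_lit 576) (nat_lit 76) (nat_lit 1) (nat_lit 7) .nil)))))))))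 .leaf) (nat_lit 18448) (nat_lit 218) (.p (nat_lit 117) (nat_lit 1152) (.p (nat_lit 119) (nat_lit 1152) (.n (nat_lit 120) (nat_lit 1152) (.n (nat_lit 121) (nat_lit 576) .z)))) (.ct dP8_c276 (nat_lit 576) (nat_lit 0) (.s false (nat_lit 1) (nat_lit 7) (nat_lit 1) (nat_lit 0) (nat_lit 7) false (nat_lit 0) true (nat_lit 2) true (nat_lit 2) true (nat_lit 7) true (nat_lit 8) (.e true (nat_lit 1152) (nat_lit 26) (nat_lit 7) (nat_lit 2) (.e false (nat_lit 1152) (nat_lit 29) (nat_lit 7) (nat_lit 2) (.e false (nat_lit 576) (nat_lit 30) (nat_lit 7) (nat_lit 2) (.e false (nat_lit 1152) (nat_lit 31) (nat_lit 7) (nat_lit 2) (.e true (nat_lit 1152) (nat_lit 74) (nat_lit 1) (nat_lit 7) (.e true (nat_lit 1152) (nat_lit 75) (nat_lit 1) (nat_lit 7) .nil)))))))) (.nd .leaf (nat_lit 18450) (nat_lit 241) (.p (nat_lit 124) (nat_lit 576) (.n (nat_lit 125) (nat_lit 1728) (.p (nat_lit 126) (nat_lit 576) (.p (nat_lit 130) (nat_lit 1152) (.n (nat_lit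 131) (nat_lit 576) (.p (nat_lit 132) (nat_lit 576) .z)))))) (.ct dP8_c36 (nat_lit 576) (nat_lit 0) (.s false (nat_lit 1) (nat_lit 7) (nat_lit 1) (nat_lit 1) (nat_lit 7) true (nat_lit 0) true (nat_lit 2) true (nat_lit 2) true (nat_lit 6) true (nat_lit 6) (.e true (nat_lit 576) (nat_lit 32) (nat_lit 7) (nat_lit 2) (.e true (nat_lit 576) (nat_lit 33) (nat_lit 7) (nat_lit 2) (.e false (nat_lit 1728) (nat_lit 34) (nat_lit 7) (nat_lit 2) (.e false (nat_lit 1152) (nat_lit 78) (nat_lit 1) (nat_lit 6) (.e true (nat_lit 1152) (nat_lit 79) (nat_lit 1) (nat_lit 6) .nil))))))) .leaf)) (nat_lit 19456) (nat_lit 42) (.p (nat_lit 37) (nat_lit 576) .z) .df (.nd (.nd .leaf (nat_lit 19457) (nat_lit 46) (.p (nat_lit 40) (nat_lit 576) .z) .df .leaf) (nat_lit 19458) (nat_lit 48) (.p (nat_lit 41) (nat_lit 576) .z) .df .leaf)))) (nat_lit 19459) (nat_lit 92) (.p (nat_lit 57) (nat_lit 576) (.n (nat_lit 58) (nat_lit 576) (.n (nat_lit 59) (nat_lit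 576) (.n (nat_lit 61) (nat_lit 576) (.p (nat_lit 65) (nat_lit 576) .z))))) (.ct dP8_c275 (nat_lit 576) (nat_lit 3) (.s false (nat_lit 1) (nat_lit 3) (nat_lit 2) (nat_lit 2) (nat_lit 2) true (nat_lit 0) true (nat_lit 4) true (nat_lit 3) true (nat_lit 4) true (nat_lit 4) (.e false (nat_lit 576) (nat_lit 10) (nat_lit 7) (nat_lit 0) (.e false (nat_lit 576) (nat_lit 27) (nat_lit 2) (nat_lit 4) (.e true (nat_lit 576) (nat_lit 28) (nat_lit 2) (nat_lit 4) (.e true (nat_lit 576) (nat_lit 29) (nat_lit 2) (nat_lit 4) (.e true (nat_lit 576) (nat_lit 31) (nat_lit 2) (nat_lit 4) .nil))))))) (.nd (.nd (.nd (.nd (.nd .leaf (nat_lit 19460) (nat_lit 105) (.n (nat_lit 67) (nat_lit 576) (.p (nat_lit 68) (nat_lit 576) (.p (nat_lit 69) (nat_lit 576) (.n (nat_lit 71) (nat_lit 576) (.n (nat_lit 72) (nat_lit 576) .z))))) (.ct dP8_c35 (nat_lit 576) (nat_lit 2) (.s true (nat_lit 1) (nat_lit 4) (nat_lit 2) (nat_lit 2) (nat_lit 2) true (nat_lit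 0) true (nat_lit 3) true (nat_lit 2) true (nat_lit 3) true (nat_lit 3) (.e true (nat_lit 576) (nat_lit 13) (nat_lit 7) (nat_lit 0) (.e true (nat_lit 1152) (nat_lit 33) (nat_lit 2) (nat_lit 3) (.e false (nat_lit 1152) (nat_lit 34) (nat_lit 2) (nat_lit 3) .nil))))) .leaf) (nat_lit 19461) (nat_lit 112) (.n (nat_lit 75) (nat_lit 576) (.n (nat_lit 76) (nat_lit 576) .z)) (.ct dP8_c260 (nat_lit 576) (nat_lit 1) (.s false (nat_lit 1) (nat_lit 5) (nat_lit 2) (nat_lit 2) (nat_lit 2) true (nat_lit 0) true (nat_lit 2) true (nat_lit 1) true (nat_lit 2) true (nat_lit 2) (.e false (nat_lit 576) (nat_lit 15) (nat_lit 7) (nat_lit 0) (.e true (nat_lit 576) (nat_lit 36) (nat_lit 2) (nat_lit 2) (.e true (nat_lit 576) (nat_lit 37) (nat_lit 2) (nat_lit 2) .nil))))) (.nd .leaf (nat_lit 19462) (nat_lit 119) (.p (nat_lit 79) (nat_lit 576) (.n (nat_lit 80) (nat_lit 576) .z)) (.ct dP8_c20 (nat_lit 576) (nat_lit 1) (.s true (nat_lit 1) (nat_lit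 6) (nat_lit 2) (nat_lit 2) (nat_lit 2) true (nat_lit 0) true (nat_lit 2) true (nat_lit 1) true (nat_lit 2) true (nat_lit 2) (.e true (nat_lit 576) (nat_lit 17) (nat_lit 7) (nat_lit 0) (.e true (nat_lit 576) (nat_lit 39) (nat_lit 2) (nat_lit 2) (.e false (nat_lit 576) (nat_lit 40) (nat_lit 2) (nat_lit 2) .nil))))) .leaf)) (nat_lit 19463) (nat_lit 121) .z (.ct dP8_c5 (nat_lit 1152) (nat_lit 0) (.s true (nat_lit 1) (nat_lit 7) (nat_lit 2) (nat_lit 2) (nat_lit 2) true (nat_lit 0) true (nat_lit 1) true (nat_lit 0) true (nat_lit 1) true (nat_lit 1) .nil)) (.nd (.nd .leaf (nat_lit 19464) (nat_lit 176) (.n (nat_lit 82) (nat_lit 1440) (.p (nat_lit 83) (nat_lit 1728) (.p (nat_lit 84) (nat_lit 2880) (.p (nat_lit 85) (nat_lit 2016) (.n (nat_lit 86) (nat_lit 1152) (.n (nat_lit 87) (nat_lit 288) (.p (nat_lit 88) (nat_lit 1152) (.n (nat_lit 89) (nat_lit 864) (.p (nat_lit 90) (nat_lit 864) (.n (nat_lit 91) (nat_lit 576) (.p (nat_lit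 92) (nat_lit 288) (.n (nat_lit 94) (nat_lit 576) (.n (nat_lit 95) (nat_lit 1440) (.n (nat_lit 96) (nat_lit 576) (.p (nat_lit 98) (nat_lit 1728) (.n (nat_lit 99) (nat_lit 288) (.n (nat_lit 101) (nat_lit 576) (.n (nat_lit 102) (nat_lit 1152) (.n (nat_lit 103) (nat_lit 864) (.p (nat_lit 104) (nat_lit 1440) .z)))))))))))))))))))) (.ct dP8_c291 (nat_lit 576) (nat_lit 2) (.s true (nat_lit 1) (nat_lit 8) (nat_lit 2) (nat_lit 2) (nat_lit 2) true (nat_lit 3) true (nat_lit 8) true (nat_lit 2) true (nat_lit 8) true (nat_lit 8) (.e true (nat_lit 576) (nat_lit 20) (nat_lit 7) (nat_lit 3) (.e true (nat_lit 576) (nat_lit 43) (nat_lit 2) (nat_lit 8) (.e false (nat_lit 576) (nat_lit 48) (nat_lit 2) (nat_lit 8) (.e true (nat_lit 576) (nat_lit 49) (nat_lit 2) (nat_lit 8) (.e false (nat_lit 576) (nat_lit 51) (nat_lit 2) (nat_lit 8) (.e true (nat_lit 576) (nat_lit 53) (nat_lit 2) (nat_lit 8) (.e false (nat_lit 576) (nat_lit 54) (nat_lit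 2) (nat_lit 8) (.e false (nat_lit 576) (nat_lit 55) (nat_lit 2) (nat_lit 8) .nil)))))))))) .leaf) (nat_lit 19465) (nat_lit 179) (.p (nat_lit 82) (nat_lit 1344) (.n (nat_lit 83) (nat_lit 4224) (.n (nat_lit 84) (nat_lit 6528) (.n (nat_lit 85) (nat_lit 2880) (.p (nat_lit 86) (nat_lit 3840) (.p (nat_lit 87) (nat_lit 2112) (.n (nat_lit 88) (nat_lit 1536) (.p (nat_lit 89) (nat_lit 2496) (.n (nat_lit 90) (nat_lit 960) (.p (nat_lit 91) (nat_lit 2688) (.n (nat_lit 92) (nat_lit 576) (.p (nat_lit 93) (nat_lit 1536) (.p (nat_lit 94) (nat_lit 1536) (.p (nat_lit 95) (nat_lit 2880) (.p (nat_lit 96) (nat_lit 576) (.p (nat_lit 97) (nat_lit 2880) (.n (nat_lit 98) (nat_lit 5184) (.p (nat_lit 99) (nat_lit 1344) (.n (nat_lit 100) (nat_lit 576) (.n (nat_lit 101) (nat_lit 576) (.p (nat_lit 102) (nat_lit 1152) (.p (nat_lit 103) (nat_lit 768) (.n (nat_lit 104) (nat_lit 2880) (.p (nat_lit 105) (nat_lit 768) (.n (nat_lit 106) (nat_lit 768) .z)))))))))))))))))))))))))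 (.ct dP8_c291 (nat_lit 576) (nat_lit 2) (.s false (nat_lit 1) (nat_lit 19) (nat_lit 1) (nat_lit 1) (nat_lit 0) true (nat_lit 7) true (nat_lit 10) false (nat_lit 2) true (nat_lit 9) true (nat_lit 9) (.e false (nat_lit 576) (nat_lit 40) (nat_lit 3) (nat_lit 7) (.e false (nat_lit 576) (nat_lit 71) (nat_lit 0) (nat_lit 10) (.e false (nat_lit 576) (nat_lit 57) (nat_lit 1) (nat_lit 9) (.e true (nat_lit 576) (nat_lit 58) (nat_lit 1) (nat_lit 9) (.e true (nat_lit 576) (nat_lit 59) (nat_lit 1) (nat_lit 9) (.e true (nat_lit 576) (nat_lit 61) (nat_lit 1) (nat_lit 9) (.e false (nat_lit 576) (nat_lit 65) (nat_lit 1) (nat_lit 9) (.e true (nat_lit 576) (nat_lit 63) (nat_lit 1) (nat_lit 9) .nil)))))))))) (.nd .leaf (nat_lit 19466) (nat_lit 221) (.p (nat_lit 109) (nat_lit 1152) (.n (nat_lit 111) (nat_lit 1152) (.n (nat_lit 114) (nat_lit 576) (.n (nat_lit 115) (nat_lit 1152) (.p (nat_lit 116) (nat_lit 576) (.n (nat_lit 118) (nat_lit 576)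 (.n (nat_lit 119) (nat_lit 576) (.p (nat_lit 120) (nat_lit 1152) (.p (nat_lit 121) (nat_lit 576) .z))))))))) (.ct dP8_c276 (nat_lit 576) (nat_lit 1) (.s true (nat_lit 1) (nat_lit 7) (nat_lit 3) (nat_lit 2) (nat_lit 2) true (nat_lit 1) true (nat_lit 6) true (nat_lit 2) true (nat_lit 5) true (nat_lit 6) (.e true (nat_lit 576) (nat_lit 26) (nat_lit 7) (nat_lit 2) (.e false (nat_lit 576) (nat_lit 65) (nat_lit 2) (nat_lit 6) .nil)))) .leaf))) (nat_lit 19467) (nat_lit 213) (.p (nat_lit 108) (nat_lit 576) (.n (nat_lit 110) (nat_lit 576) (.n (nat_lit 111) (nat_lit 576) (.n (nat_lit 112) (nat_lit 1152) (.n (nat_lit 113) (nat_lit 1152) (.p (nat_lit 114) (nat_lit 288) (.n (nat_lit 115) (nat_lit 864) (.n (nat_lit 116) (nat_lit 288) (.p (nat_lit 117) (nat_lit 576) (.p (nat_lit 118) (nat_lit 288) (.p (nat_lit 119) (nat_lit 288) (.p (nat_lit 120) (nat_lit 288) (.p (nat_lit 121) (nat_lit 288) (.n (nat_lit 123) (nat_lit 288) .z))))))))))))))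 (.ct dP8_c276 (nat_lit 576) (nat_lit 1) (.s false (nat_lit 1) (nat_lit 19) (nat_lit 2) (nat_lit 0) (nat_lit 1) true (nat_lit 3) true (nat_lit 7) false (nat_lit 1) true (nat_lit 6) true (nat_lit 8) (.e true (nat_lit 576) (nat_lit 37) (nat_lit 6) (nat_lit 3) (.e false (nat_lit 576) (nat_lit 76) (nat_lit 1) (nat_lit 7) (.e true (nat_lit 576) (nat_lit 57) (nat_lit 2) (nat_lit 6) (.e false (nat_lit 576) (nat_lit 58) (nat_lit 2) (nat_lit 6) (.e false (nat_lit 576) (nat_lit 59) (nat_lit 2) (nat_lit 6) (.e false (nat_lit 576) (nat_lit 61) (nat_lit 2) (nat_lit 6) (.e true (nat_lit 576) (nat_lit 65) (nat_lit 2) (nat_lit 6) (.e false (nat_lit 576) (nat_lit 79) (nat_lit 0) (nat_lit 8) .nil)))))))))) (.nd (.nd (.nd .leaf (nat_lit 19468) (nat_lit 212) (.p (nat_lit 108) (nat_lit 576) (.n (nat_lit 109) (nat_lit 2304) (.p (nat_lit 110) (nat_lit 576) (.p (nat_lit 111) (nat_lit 1728) (.p (nat_lit 114) (nat_lit 864) (.p (nat_lit 115) (nat_lit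 1440) (.n (nat_lit 116) (nat_lit 864) (.n (nat_lit 117) (nat_lit 576) (.p (nat_lit 118) (nat_lit 864) (.p (nat_lit 119) (nat_lit 864) (.n (nat_lit 120) (nat_lit 864) (.n (nat_lit 121) (nat_lit 864) (.n (nat_lit 123) (nat_lit 288) .z))))))))))))) (.ct dP8_c276 (nat_lit 576) (nat_lit 1) (.s false (nat_lit 1) (nat_lit 19) (nat_lit 2) (nat_lit 1) (nat_lit 0) true (nat_lit 4) true (nat_lit 8) false (nat_lit 1) true (nat_lit 6) true (nat_lit 7) (.e false (nat_lit 576) (nat_lit 40) (nat_lit 5) (nat_lit 4) (.e false (nat_lit 576) (nat_lit 80) (nat_lit 0) (nat_lit 8) (.e false (nat_lit 576) (nat_lit 57) (nat_lit 2) (nat_lit 6) (.e true (nat_lit 576) (nat_lit 58) (nat_lit 2) (nat_lit 6) (.e true (nat_lit 576) (nat_lit 59) (nat_lit 2) (nat_lit 6) (.e true (nat_lit 576) (nat_lit 61) (nat_lit 2) (nat_lit 6) (.e false (nat_lit 576) (nat_lit 65) (nat_lit 2) (nat_lit 6) (.e true (nat_lit 576) (nat_lit 75) (nat_lit 1) (nat_lit 7) .nil))))))))))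 .leaf) (nat_lit 19469) (nat_lit 240) (.n (nat_lit 124) (nat_lit 576) (.p (nat_lit 125) (nat_lit 576) (.p (nat_lit 126) (nat_lit 576) (.n (nat_lit 129) (nat_lit 1152) (.n (nat_lit 131) (nat_lit 576) (.p (nat_lit 132) (nat_lit 576) .z)))))) (.ct dP8_c36 (nat_lit 576) (nat_lit 1) (.s false (nat_lit 1) (nat_lit 19) (nat_lit 1) (nat_lit 1) (nat_lit 2) true (nat_lit 3) true (nat_lit 5) false (nat_lit 1) true (nat_lit 6) true (nat_lit 6) (.e false (nat_lit 576) (nat_lit 40) (nat_lit 6) (nat_lit 3) (.e false (nat_lit 576) (nat_lit 71) (nat_lit 2) (nat_lit 5) (.e true (nat_lit 576) (nat_lit 79) (nat_lit 1) (nat_lit 6) .nil))))) (.nd .leaf (nat_lit 19470) (nat_lit 239) (.n (nat_lit 129) (nat_lit 576) (.p (nat_lit 132) (nat_lit 576) .z)) (.ct dP8_c36 (nat_lit 576) (nat_lit 1) (.s false (nat_lit 1) (nat_lit 14) (nat_lit 2) (nat_lit 2) (nat_lit 2) true (nat_lit 2) true (nat_lit 5) true (nat_lit 1) true (nat_lit 5) true (nat_lit 5)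 (.e false (nat_lit 576) (nat_lit 33) (nat_lit 7) (nat_lit 2) (.e true (nat_lit 576) (nat_lit 72) (nat_lit 2) (nat_lit 5) .nil)))) .leaf)) (nat_lit 19471) (nat_lit 248) (.n (nat_lit 138) (nat_lit 576) .z) (.ct dP8_c261 (nat_lit 576) (nat_lit 0) (.s true (nat_lit 1) (nat_lit 19) (nat_lit 0) (nat_lit 2) (nat_lit 2) true (nat_lit 2) true (nat_lit 3) false (nat_lit 0) true (nat_lit 4) true (nat_lit 3) (.e true (nat_lit 576) (nat_lit 41) (nat_lit 5) (nat_lit 2) (.e true (nat_lit 576) (nat_lit 75) (nat_lit 2) (nat_lit 3) (.e true (nat_lit 576) (nat_lit 76) (nat_lit 2) (nat_lit 3) .nil))))) (.nd (.nd .leaf (nat_lit 19472) (nat_lit 249) (.p (nat_lit 135) (nat_lit 1152) (.p (nat_lit 136) (nat_lit 1152) (.n (nat_lit 137) (nat_lit 576) .z))) (.ct dP8_c261 (nat_lit 576) (nat_lit 0) (.s true (nat_lit 1) (nat_lit 7) (nat_lit 0) (nat_lit 2) (nat_lit 7) true (nat_lit 0) true (nat_lit 1) true (nat_lit 1) true (nat_lit 4) true (nat_lit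 3) (.e false (nat_lit 576) (nat_lit 37) (nat_lit 7) (nat_lit 1) .nil))) .leaf) (nat_lit 19473) (nat_lit 258) (.p (nat_lit 143) (nat_lit 576) .z) (.ct dP8_c21 (nat_lit 576) (nat_lit 0) (.s false (nat_lit 1) (nat_lit 19) (nat_lit 1) (nat_lit 2) (nat_lit 2) true (nat_lit 2) true (nat_lit 3) false (nat_lit 0) true (nat_lit 4) true (nat_lit 3) (.e false (nat_lit 576) (nat_lit 41) (nat_lit 6) (nat_lit 2) (.e false (nat_lit 576) (nat_lit 79) (nat_lit 2) (nat_lit 3) (.e true (nat_lit 576) (nat_lit 80) (nat_lit 2) (nat_lit 3) .nil))))) .leaf))) (nat_lit 19474) (nat_lit 260) (.n (nat_lit 140) (nat_lit 1152) (.p (nat_lit 141) (nat_lit 1152) (.p (nat_lit 142) (nat_lit 576) .z))) (.ct dP8_c21 (nat_lit 576) (nat_lit 0) (.s false (nat_lit 1) (nat_lit 7) (nat_lit 1) (nat_lit 2) (nat_lit 7) true (nat_lit 0) true (nat_lit 1) true (nat_lit 1) true (nat_lit 4) true (nat_lit 3) (.e false (nat_lit 576) (nat_lit 40) (nat_lit 7) (nat_lit 1)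 .nil))) (.nd (.nd (.nd (.nd .leaf (nat_lit 20482) (nat_lit 49) (.p (nat_lit 42) (nat_lit 576) .z) .df .leaf) (nat_lit 20487) (nat_lit 159) (.p (nat_lit 82) (nat_lit 960) (.n (nat_lit 83) (nat_lit 960) (.n (nat_lit 84) (nat_lit 1536) (.n (nat_lit 85) (nat_lit 576) (.p (nat_lit 86) (nat_lit 192) (.p (nat_lit 87) (nat_lit 768) (.n (nat_lit 88) (nat_lit 768) (.p (nat_lit 89) (nat_lit 384) (.n (nat_lit 90) (nat_lit 192) (.p (nat_lit 91) (nat_lit 192) (.n (nat_lit 92) (nat_lit 576) (.n (nat_lit 93) (nat_lit 384) (.p (nat_lit 94) (nat_lit 768) (.p (nat_lit 95) (nat_lit 576) (.p (nat_lit 97) (nat_lit 864) (.n (nat_lit 98) (nat_lit 864) (.p (nat_lit 99) (nat_lit 96) (.n (nat_lit 100) (nat_lit 288) (.p (nat_lit 102) (nat_lit 576) (.p (nat_lit 103) (nat_lit 384) (.n (nat_lit 104) (nat_lit 576) (.n (nat_lit 105) (nat_lit 192) (.p (nat_lit 106) (nat_lit 192) (.p (nat_lit 107) (nat_lit 576) .z)))))))))))))))))))))))) (.ct dP8_c291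 (nat_lit 576) (nat_lit 3) (.s false (nat_lit 1) (nat_lit 6) (nat_lit 3) (nat_lit 2) (nat_lit 2) true (nat_lit 1) true (nat_lit 8) true (nat_lit 4) true (nat_lit 7) true (nat_lit 8) (.s true (nat_lit 1) (nat_lit 7) (nat_lit 1) (nat_lit 3) (nat_lit 2) true (nat_lit 4) true (nat_lit 8) true (nat_lit 3) true (nat_lit 9) true (nat_lit 7) (.s false (nat_lit 1) (nat_lit 7) (nat_lit 2) (nat_lit 3) (nat_lit 1) true (nat_lit 4) true (nat_lit 9) true (nat_lit 3) true (nat_lit 8) true (nat_lit 7) (.s true (nat_lit 1) (nat_lit 10) (nat_lit 2) (nat_lit 1) (nat_lit 2) true (nat_lit 3) true (nat_lit 8) true (nat_lit 1) true (nat_lit 8) true (nat_lit 9) (.e false (nat_lit 576) (nat_lit 44) (nat_lit 2) (nat_lit 8) (.e false (nat_lit 576) (nat_lit 45) (nat_lit 2) (nat_lit 8) (.e false (nat_lit 576) (nat_lit 46) (nat_lit 2) (nat_lit 8) (.e false (nat_lit 576) (nat_lit 26) (nat_lit 6) (nat_lit 4) (.e true (nat_lit 576) (nat_lit 47) (nat_lit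 2) (nat_lit 8) (.e false (nat_lit 576) (nat_lit 57) (nat_lit 1) (nat_lit 9) (.e true (nat_lit 576) (nat_lit 58) (nat_lit 1) (nat_lit 9) (.e true (nat_lit 576) (nat_lit 59) (nat_lit 1) (nat_lit 9) (.e true (nat_lit 576) (nat_lit 61) (nat_lit 1) (nat_lit 9) (.e true (nat_lit 576) (nat_lit 43) (nat_lit 2) (nat_lit 8) (.e false (nat_lit 576) (nat_lit 56) (nat_lit 1) (nat_lit 9) .nil)))))))))))))))) (.nd .leaf (nat_lit 20499) (nat_lit 353) (.n (nat_lit 144) (nat_lit 3974) (.p (nat_lit 145) (nat_lit 512) (.p (nat_lit 146) (nat_lit 2090) (.p (nat_lit 147) (nat_lit 936) (.p (nat_lit 148) (nat_lit 3308) (.n (nat_lit 149) (nat_lit 1900) (.p (nat_lit 150) (nat_lit 3616) (.n (nat_lit 151) (nat_lit 494) (.n (nat_lit 152) (nat_lit 290) (.p (nat_lit 153) (nat_lit 2198) (.p (nat_lit 154) (nat_lit 726) (.p (nat_lit 155) (nat_lit 3284) (.n (nat_lit 156) (nat_lit 2152) (.p (nat_lit 157) (nat_lit 432) (.n (nat_lit 158) (nat_lit 819) (.n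 (nat_lit 159) (nat_lit 141) (.p (nat_lit 160) (nat_lit 1189) (.p (nat_lit 161) (nat_lit 273) (.n (nat_lit 162) (nat_lit 192) (.n (nat_lit 163) (nat_lit 1254) (.n (nat_lit 164) (nat_lit 926) (.n (nat_lit 165) (nat_lit 510) (.n (nat_lit 166) (nat_lit 338) (.p (nat_lit 167) (nat_lit 74) (.n (nat_lit 168) (nat_lit 546) (.p (nat_lit 169) (nat_lit 888) (.n (nat_lit 170) (nat_lit 444) (.n (nat_lit 171) (nat_lit 312) (.n (nat_lit 172) (nat_lit 888) (.n (nat_lit 176) (nat_lit 66) (.p (nat_lit 177) (nat_lit 132) (.n (nat_lit 178) (nat_lit 1236) (.p (nat_lit 179) (nat_lit 1236) (.p (nat_lit 180) (nat_lit 444) .z)))))))))))))))))))))))))))))))))) (.ct dP8_c292 (nat_lit 576) (nat_lit 0) (.s false (nat_lit 1) (nat_lit 8) (nat_lit 2) (nat_lit 2) (nat_lit 7) true (nat_lit 0) true (nat_lit 6) true (nat_lit 5) true (nat_lit 11) true (nat_lit 11) dP8_i80)) .leaf)) (nat_lit 21506) (nat_lit 66) (.n (nat_lit 43) (nat_lit 576) (.p (nat_lit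 44) (nat_lit 576) (.n (nat_lit 45) (nat_lit 576) (.n (nat_lit 47) (nat_lit 576) (.p (nat_lit 48) (nat_lit 576) (.n (nat_lit 49) (nat_lit 576) (.p (nat_lit 51) (nat_lit 576) (.p (nat_lit 54) (nat_lit 1152) (.p (nat_lit 55) (nat_lit 1152) .z))))))))) (.ct dP8_c290 (nat_lit 576) (nat_lit 5) (.s false (nat_lit 1) (nat_lit 6) (nat_lit 0) (nat_lit 2) (nat_lit 1) true (nat_lit 4) true (nat_lit 6) true (nat_lit 1) true (nat_lit 7) true (nat_lit 5) (.e false (nat_lit 576) (nat_lit 17) (nat_lit 3) (nat_lit 4) (.e false (nat_lit 576) (nat_lit 28) (nat_lit 1) (nat_lit 6) (.e true (nat_lit 576) (nat_lit 11) (nat_lit 6) (nat_lit 1) (.e true (nat_lit 576) (nat_lit 20) (nat_lit 2) (nat_lit 5) (.e true (nat_lit 576) (nat_lit 22) (nat_lit 2) (nat_lit 5) (.e false (nat_lit 1152) (nat_lit 23) (nat_lit 2) (nat_lit 5) (.e false (nat_lit 576) (nat_lit 24) (nat_lit 2) (nat_lit 5) (.e false (nat_lit 576) (nat_lit 25) (nat_lit 2) (nat_lit 5)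 .nil)))))))))) (.nd (.nd .leaf (nat_lit 21511) (nat_lit 161) (.n (nat_lit 82) (nat_lit 960) (.p (nat_lit 83) (nat_lit 960) (.p (nat_lit 84) (nat_lit 960) (.p (nat_lit 85) (nat_lit 1728) (.n (nat_lit 86) (nat_lit 192) (.p (nat_lit 87) (nat_lit 384) (.p (nat_lit 88) (nat_lit 768) (.n (nat_lit 89) (nat_lit 384) (.p (nat_lit 90) (nat_lit 192) (.p (nat_lit 91) (nat_lit 384) (.p (nat_lit 93) (nat_lit 384) (.n (nat_lit 94) (nat_lit 192) (.n (nat_lit 95) (nat_lit 576) (.n (nat_lit 96) (nat_lit 576) (.p (nat_lit 97) (nat_lit 576) (.p (nat_lit 98) (nat_lit 576) (.p (nat_lit 99) (nat_lit 192) (.n (nat_lit 100) (nat_lit 576) (.n (nat_lit 101) (nat_lit 576) (.n (nat_lit 103) (nat_lit 384) (.p (nat_lit 104) (nat_lit 576) (.n (nat_lit 105) (nat_lit 384) (.p (nat_lit 106) (nat_lit 384) .z))))))))))))))))))))))) (.ct dP8_c291 (nat_lit 576) (nat_lit 3) (.s false (nat_lit 1) (nat_lit 7) (nat_lit 1) (nat_lit 5) (nat_lit 1) true (nat_lit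 6) true (nat_lit 9) true (nat_lit 3) true (nat_lit 9) true (nat_lit 5) (.s true (nat_lit 1) (nat_lit 7) (nat_lit 4) (nat_lit 0) (nat_lit 2) true (nat_lit 0) true (nat_lit 8) true (nat_lit 3) true (nat_lit 6) true (nat_lit 10) (.s true (nat_lit 1) (nat_lit 13) (nat_lit 2) (nat_lit 2) (nat_lit 0) true (nat_lit 5) true (nat_lit 10) true (nat_lit 0) true (nat_lit 8) true (nat_lit 8) (.e false (nat_lit 1152) (nat_lit 57) (nat_lit 1) (nat_lit 9) (.e true (nat_lit 1152) (nat_lit 58) (nat_lit 1) (nat_lit 9) (.e false (nat_lit 576) (nat_lit 62) (nat_lit 1) (nat_lit 9) (.e false (nat_lit 1152) (nat_lit 65) (nat_lit 1) (nat_lit 9) (.e false (nat_lit 576) (nat_lit 23) (nat_lit 7) (nat_lit 3) (.e true (nat_lit 1152) (nat_lit 56) (nat_lit 1) (nat_lit 9) (.e true (nat_lit 576) (nat_lit 63) (nat_lit 1) (nat_lit 9) (.e true (nat_lit 576) (nat_lit 33) (nat_lit 5) (nat_lit 5) (.e true (nat_lit 576) (nat_lit 34) (nat_lit 5) (nat_lit 5)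 (.e false (nat_lit 1152) (nat_lit 54) (nat_lit 2) (nat_lit 8) (.e true (nat_lit 1152) (nat_lit 67) (nat_lit 0) (nat_lit 10) (.e false (nat_lit 576) (nat_lit 68) (nat_lit 0) (nat_lit 10) (.e false (nat_lit 576) (nat_lit 69) (nat_lit 0) (nat_lit 10) (.e true (nat_lit 576) (nat_lit 71) (nat_lit 0) (nat_lit 10) (.e true (nat_lit 576) (nat_lit 72) (nat_lit 0) (nat_lit 10) (.e true (nat_lit 576) (nat_lit 43) (nat_lit 2) (nat_lit 8) (.e false (nat_lit 1152) (nat_lit 46) (nat_lit 2) (nat_lit 8) (.e false (nat_lit 576) (nat_lit 48) (nat_lit 2) (nat_lit 8) (.e true (nat_lit 576) (nat_lit 49) (nat_lit 2) (nat_lit 8) (.e false (nat_lit 576) (nat_lit 55) (nat_lit 2) (nat_lit 8) .nil)))))))))))))))))))))))) .leaf) (nat_lit 22530) (nat_lit 50) (.p (nat_lit 43) (nat_lit 576) .z) .df .leaf)) (nat_lit 22535) (nat_lit 172) (.p (nat_lit 82) (nat_lit 576) (.n (nat_lit 86) (nat_lit 1152) (.p (nat_lit 89) (nat_lit 576) (.p (nat_lit 90) (nat_lit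 576) (.n (nat_lit 95) (nat_lit 576) (.p (nat_lit 104) (nat_lit 576) .z)))))) (.ct dP8_c291 (nat_lit 576) (nat_lit 3) (.s false (nat_lit 1) (nat_lit 10) (nat_lit 1) (nat_lit 2) (nat_lit 2) true (nat_lit 4) true (nat_lit 8) true (nat_lit 1) true (nat_lit 9) true (nat_lit 8) (.s true (nat_lit 1) (nat_lit 10) (nat_lit 2) (nat_lit 1) (nat_lit 2) true (nat_lit 3) true (nat_lit 8) true (nat_lit 1) true (nat_lit 8) true (nat_lit 9) (.e false (nat_lit 576) (nat_lit 26) (nat_lit 6) (nat_lit 4) (.e false (nat_lit 576) (nat_lit 43) (nat_lit 2) (nat_lit 8) (.e true (nat_lit 576) (nat_lit 65) (nat_lit 1) (nat_lit 9) (.e true (nat_lit 1152) (nat_lit 47) (nat_lit 2) (nat_lit 8) (.e false (nat_lit 576) (nat_lit 55) (nat_lit 2) (nat_lit 8) (.e false (nat_lit 576) (nat_lit 56) (nat_lit 1) (nat_lit 9) .nil))))))))) (.nd (.nd (.nd .leaf (nat_lit 22547) (nat_lit 365) (.n (nat_lit 144) (nat_lit 2564) (.p (nat_lit 145) (nat_lit 2144) (.p (nat_lit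 146) (nat_lit 3452) (.p (nat_lit 147) (nat_lit 1584) (.p (nat_lit 148) (nat_lit 296) (.n (nat_lit 149) (nat_lit 1672) (.p (nat_lit 150) (nat_lit 1408) (.n (nat_lit 151) (nat_lit 596) (.n (nat_lit 152) (nat_lit 428) (.n (nat_lit 153) (nat_lit 796) (.p (nat_lit 154) (nat_lit 708) (.p (nat_lit 155) (nat_lit 632) (.n (nat_lit 156) (nat_lit 1168) (.n (nat_lit 157) (nat_lit 288) (.n (nat_lit 158) (nat_lit 1602) (.p (nat_lit 159) (nat_lit 1794) (.n (nat_lit 160) (nat_lit 146) (.p (nat_lit 161) (nat_lit 534) (.p (nat_lit 162) (nat_lit 96) (.n (nat_lit 163) (nat_lit 1092) (.n (nat_lit 164) (nat_lit 596) (.p (nat_lit 165) (nat_lit 300) (.p (nat_lit 166) (nat_lit 244) (.n (nat_lit 167) (nat_lit 292) (.n (nat_lit 168) (nat_lit 492) (.p (nat_lit 169) (nat_lit 1104) (.n (nat_lit 170) (nat_lit 552) (.n (nat_lit 171) (nat_lit 528) (.n (nat_lit 172) (nat_lit 1104) (.n (nat_lit 176) (nat_lit 12) (.p (nat_lit 177) (nat_lit 24) (.n (nat_lit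 178) (nat_lit 408) (.p (nat_lit 179) (nat_lit 408) (.p (nat_lit 180) (nat_lit 552) .z)))))))))))))))))))))))))))))))))) (.ct dP8_c292 (nat_lit 576) (nat_lit 0) (.s false (nat_lit 1) (nat_lit 22) (nat_lit 2) (nat_lit 2) (nat_lit 2) true (nat_lit 6) true (nat_lit 11) false (nat_lit 0) true (nat_lit 11) true (nat_lit 11) (.e false (nat_lit 576) (nat_lit 43) (nat_lit 7) (nat_lit 6) (.e true (nat_lit 576) (nat_lit 82) (nat_lit 2) (nat_lit 11) (.e false (nat_lit 1152) (nat_lit 86) (nat_lit 2) (nat_lit 11) (.e true (nat_lit 576) (nat_lit 89) (nat_lit 2) (nat_lit 11) (.e true (nat_lit 576) (nat_lit 90) (nat_lit 2) (nat_lit 11) (.e false (nat_lit 576) (nat_lit 95) (nat_lit 2) (nat_lit 11) (.e true (nat_lit 576) (nat_lit 104) (nat_lit 2) (nat_lit 11) .nil))))))))) .leaf) (nat_lit 23554) (nat_lit 51) (.p (nat_lit 44) (nat_lit 576) .z) .df (.nd .leaf (nat_lit 23559) (nat_lit 142) (.p (nat_lit 102) (nat_lit 576) .z) .df .leaf)) (nat_lit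 23571) (nat_lit 385) (.n (nat_lit 144) (nat_lit 2478) (.p (nat_lit 145) (nat_lit 7104) (.p (nat_lit 146) (nat_lit 6978) (.p (nat_lit 147) (nat_lit 3528) (.n (nat_lit 148) (nat_lit 5892) (.n (nat_lit 149) (nat_lit 4092) (.n (nat_lit 150) (nat_lit 1632) (.p (nat_lit 151) (nat_lit 330) (.p (nat_lit 152) (nat_lit 294) (.n (nat_lit 153) (nat_lit 6594) (.p (nat_lit 154) (nat_lit 1854) (.n (nat_lit 155) (nat_lit 4092) (.p (nat_lit 156) (nat_lit 696) (.n (nat_lit 157) (nat_lit 3024) (.n (nat_lit 158) (nat_lit 4455) (.p (nat_lit 159) (nat_lit 6183) (.n (nat_lit 160) (nat_lit 2415) (.p (nat_lit 161) (nat_lit 1485) (.p (nat_lit 162) (nat_lit 576) (.n (nat_lit 163) (nat_lit 1422) (.p (nat_lit 164) (nat_lit 186) (.p (nat_lit 165) (nat_lit 3258) (.p (nat_lit 166) (nat_lit 3318) (.n (nat_lit 167) (nat_lit 2526) (.n (nat_lit 168) (nat_lit 2970) (.p (nat_lit 169) (nat_lit 1944) (.n (nat_lit 170) (nat_lit 972) (.n (nat_lit 171) (nat_lit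 1944) (.n (nat_lit 172) (nat_lit 1944) (.p (nat_lit 176) (nat_lit 486) (.n (nat_lit 177) (nat_lit 396) (.n (nat_lit 178) (nat_lit 36) (.p (nat_lit 179) (nat_lit 36) (.p (nat_lit 180) (nat_lit 972) .z)))))))))))))))))))))))))))))))))) (.ct dP8_c292 (nat_lit 576) (nat_lit 0) (.s false (nat_lit 1) (nat_lit 23) (nat_lit 2) (nat_lit 2) (nat_lit 2) true (nat_lit 6) true (nat_lit 11) false (nat_lit 0) true (nat_lit 11) true (nat_lit 11) (.e false (nat_lit 576) (nat_lit 44) (nat_lit 7) (nat_lit 6) (.e true (nat_lit 576) (nat_lit 102) (nat_lit 2) (nat_lit 11) .nil)))) (.nd (.nd .leaf (nat_lit 24578) (nat_lit 52) (.p (nat_lit 45) (nat_lit 576) .z) .df .leaf) (nat_lit 24583) (nat_lit 163) (.p (nat_lit 82) (nat_lit 960) (.n (nat_lit 83) (nat_lit 1536) (.n (nat_lit 84) (nat_lit 2112) (.n (nat_lit 85) (nat_lit 576) (.p (nat_lit 86) (nat_lit 768) (.p (nat_lit 87) (nat_lit 1344) (.n (nat_lit 88) (nat_lit 768) (.p (nat_lit 89) (nat_lit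 960) (.n (nat_lit 90) (nat_lit 192) (.p (nat_lit 91) (nat_lit 1344) (.n (nat_lit 92) (nat_lit 576) (.p (nat_lit 93) (nat_lit 768) (.p (nat_lit 94) (nat_lit 768) (.p (nat_lit 95) (nat_lit 576) (.p (nat_lit 97) (nat_lit 2016) (.n (nat_lit 98) (nat_lit 2016) (.p (nat_lit 99) (nat_lit 672) (.n (nat_lit 100) (nat_lit 864) (.n (nat_lit 101) (nat_lit 576) (.n (nat_lit 103) (nat_lit 192) (.n (nat_lit 104) (nat_lit 576) (.n (nat_lit 105) (nat_lit 192) (.p (nat_lit 106) (nat_lit 192) (.p (nat_lit 107) (nat_lit 576) .z)))))))))))))))))))))))) (.ct dP8_c291 (nat_lit 576) (nat_lit 3) (.s false (nat_lit 1) (nat_lit 6) (nat_lit 0) (nat_lit 2) (nat_lit 6) true (nat_lit 1) true (nat_lit 4) true (nat_lit 4) true (nat_lit 10) true (nat_lit 8) (.s true (nat_lit 1) (nat_lit 6) (nat_lit 0) (nat_lit 6) (nat_lit 2) true (nat_lit 5) true (nat_lit 8) true (nat_lit 4) true (nat_lit 10) true (nat_lit 4) (.s true (nat_lit 1) (nat_lit 12) (nat_lit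 2) (nat_lit 1) (nat_lit 2) true (nat_lit 3) true (nat_lit 8) true (nat_lit 1) true (nat_lit 8) true (nat_lit 9) (.e false (nat_lit 1152) (nat_lit 28) (nat_lit 6) (nat_lit 4) (.e false (nat_lit 576) (nat_lit 26) (nat_lit 6) (nat_lit 4) (.e true (nat_lit 576) (nat_lit 27) (nat_lit 6) (nat_lit 4) (.e true (nat_lit 576) (nat_lit 30) (nat_lit 6) (nat_lit 4) (.e false (nat_lit 576) (nat_lit 68) (nat_lit 0) (nat_lit 10) (.e true (nat_lit 576) (nat_lit 69) (nat_lit 0) (nat_lit 10) (.e false (nat_lit 576) (nat_lit 70) (nat_lit 0) (nat_lit 10) (.e true (nat_lit 576) (nat_lit 71) (nat_lit 0) (nat_lit 10) (.e true (nat_lit 576) (nat_lit 49) (nat_lit 2) (nat_lit 8) (.e false (nat_lit 576) (nat_lit 58) (nat_lit 1) (nat_lit 9) .nil)))))))))))))) .leaf))))))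

noncomputable def dP8_t1 : Tr := (.nd (.nd (.nd (.nd (.nd (.nd (.nd .leaf (nat_lit 25602) (nat_lit 53) (.p (nat_lit 46) (nat_lit 576) .z) .df .leaf) (nat_lit 25607) (nat_lit 143) (.p (nat_lit 103) (nat_lit 576) .z) .df (.nd .leaf (nat_lit 25619) (nat_lit 386) (.p (nat_lit 144) (nat_lit 3064) (.n (nat_lit 145) (nat_lit 12448) (.n (nat_lit 146) (nat_lit 12328) (.n (nat_lit 147) (nat_lit 7776) (.p (nat_lit 148) (nat_lit 12272) (.p (nat_lit 149) (nat_lit 3248) (.p (nat_lit 150) (nat_lit 2752) (.n (nat_lit 151) (nat_lit 1736) (.n (nat_lit 152) (nat_lit 2072) (.p (nat_lit 153) (nat_lit 13448) (.n (nat_lit 154) (nat_lit 2136) (.p (nat_lit 155) (nat_lit 10160) (.n (nat_lit 156) (nat_lit 1792) (.p (nat_lit 157) (nat_lit 4608) (.p (nat_lit 158) (nat_lit 5436) (.n (nat_lit 159) (nat_lit 12156) (.p (nat_lit 160) (nat_lit 5500) (.n (nat_lit 161) (nat_lit 2004) (.n (nat_lit 162) (nat_lit 480) (.p (nat_lit 163) (nat_lit 1464) (.p (nat_lit 164) (nat_lit 280) (.n (nat_lit 165) (nat_lit 3048) (.n (nat_lit 166) (nat_lit 5144) (.p (nat_lit 167) (nat_lit 3512) (.p (nat_lit 168) (nat_lit 3432) (.n (nat_lit 169) (nat_lit 1632) (.p (nat_lit 170) (nat_lit 816) (.p (nat_lit 171) (nat_lit 2208) (.p (nat_lit 172) (nat_lit 1632) (.n (nat_lit 176) (nat_lit 696) (.p (nat_lit 177) (nat_lit 816) (.n (nat_lit 178) (nat_lit 2064) (.p (nat_lit 179) (nat_lit 1488) (.n (nat_lit 180) (nat_lit 816) .z)))))))))))))))))))))))))))))))))) (.ct dP8_c292 (nat_lit 576) (nat_lit 0) (.s false (nat_lit 1) (nat_lit 25) (nat_lit 2) (nat_lit 2) (nat_lit 2) true (nat_lit 6) true (nat_lit 11) false (nat_lit 0) true (nat_lit 11) true (nat_lit 11) (.e false (nat_lit 576) (nat_lit 46) (nat_lit 7) (nat_lit 6) (.e true (nat_lit 576) (nat_lit 103) (nat_lit 2) (nat_lit 11) .nil)))) .leaf)) (nat_lit 26625) (nat_lit 54) (.p (nat_lit 47) (nat_lit 576) .z) .df (.nd (.nd .leaf (nat_lit 26626) (nat_lit 75) (.p (nat_lit 56) (nat_lit 576) .z) .df .leaf) (nat_lit 26630) (nat_lit 144) (.p (nat_lit 104) (nat_lit 576) .z) .df (.nd .leaf (nat_lit 26631) (nat_lit 203) (.n (nat_lit 109) (nat_lit 1152) (.p (nat_lit 111) (nat_lit 1152) (.p (nat_lit 114) (nat_lit 576) (.p (nat_lit 115) (nat_lit 1152) (.n (nat_lit 116) (nat_lit 576) (.p (nat_lit 117) (nat_lit 576) (.p (nat_lit 118) (nat_lit 576) (.p (nat_lit 119) (nat_lit 576) (.n (nat_lit 120) (nat_lit 1152) (.n (nat_lit 121) (nat_lit 576) .z)))))))))) (.ct dP8_c276 (nat_lit 1152) (nat_lit 2) (.s true (nat_lit 2) (nat_lit 7) (nat_lit 3) (nat_lit 2) (nat_lit 2) true (nat_lit 1) true (nat_lit 6) true (nat_lit 2) true (nat_lit 5) true (nat_lit 6) (.s false (nat_lit 1) (nat_lit 19) (nat_lit 0) (nat_lit 1) (nat_lit 2) true (nat_lit 4) true (nat_lit 6) false (nat_lit 1) true (nat_lit 8) true (nat_lit 7) (.s true (nat_lit 1) (nat_lit 19) (nat_lit 1) (nat_lit 0) (nat_lit 2) true (nat_lit 3) true (nat_lit 6) false (nat_lit 1) true (nat_lit 7) true (nat_lit 8) (.e true (nat_lit 576) (nat_lit 57) (nat_lit 2) (nat_lit 6) (.e true (nat_lit 576) (nat_lit 58) (nat_lit 2) (nat_lit 6) (.e false (nat_lit 576) (nat_lit 59) (nat_lit 2) (nat_lit 6) (.e true (nat_lit 576) (nat_lit 61) (nat_lit 2) (nat_lit 6) (.e false (nat_lit 1152) (nat_lit 65) (nat_lit 2) (nat_lit 6) (.e false (nat_lit 576) (nat_lit 40) (nat_lit 5) (nat_lit 4) (.e false (nat_lit 1152) (nat_lit 63) (nat_lit 2) (nat_lit 6) (.e true (nat_lit 576) (nat_lit 79) (nat_lit 0) (nat_lit 8) (.e false (nat_lit 576) (nat_lit 37) (nat_lit 6) (nat_lit 3) (.e false (nat_lit 576) (nat_lit 62) (nat_lit 2) (nat_lit 6) (.e true (nat_lit 576) (nat_lit 64) (nat_lit 2) (nat_lit 6) (.e true (nat_lit 576) (nat_lit 75) (nat_lit 1) (nat_lit 7) .nil)))))))))))))))) .leaf))) (nat_lit 26641) (nat_lit 378) (.n (nat_lit 144) (nat_lit 272) (.n (nat_lit 145) (nat_lit 544) (.n (nat_lit 146) (nat_lit 496) (.n (nat_lit 147) (nat_lit 1152) (.p (nat_lit 148) (nat_lit 1280) (.n (nat_lit 149) (nat_lit 1120) (.p (nat_lit 150) (nat_lit 64) (.n (nat_lit 151) (nat_lit 176) (.n (nat_lit 152) (nat_lit 368) (.p (nat_lit 153) (nat_lit 656) (.p (nat_lit 154) (nat_lit 240) (.p (nat_lit 155) (nat_lit 1184) (.n (nat_lit 156) (nat_lit 544) (.p (nat_lit 157) (nat_lit 576) (.n (nat_lit 158) (nat_lit 1224) (.n (nat_lit 159) (nat_lit 888) (.p (nat_lit 160) (nat_lit 472) (.p (nat_lit 161) (nat_lit 408) (.p (nat_lit 162) (nat_lit 672) (.p (nat_lit 163) (nat_lit 240) (.p (nat_lit 164) (nat_lit 400) (.p (nat_lit 165) (nat_lit 624) (.p (nat_lit 166) (nat_lit 16) (.n (nat_lit 167) (nat_lit 208) (.n (nat_lit 168) (nat_lit 240) (.p (nat_lit 169) (nat_lit 384) (.n (nat_lit 170) (nat_lit 480) (.n (nat_lit 171) (nat_lit 384) (.n (nat_lit 172) (nat_lit 960) (.n (nat_lit 176) (nat_lit 48) (.p (nat_lit 177) (nat_lit 96) (.n (nat_lit 178) (nat_lit 480) (.p (nat_lit 179) (nat_lit 480) (.p (nat_lit 180) (nat_lit 480) .z)))))))))))))))))))))))))))))))))) (.ct dP8_c292 (nat_lit 576) (nat_lit 1) (.s false (nat_lit 1) (nat_lit 26) (nat_lit 2) (nat_lit 1) (nat_lit 2) true (nat_lit 6) true (nat_lit 11) false (nat_lit 1) true (nat_lit 11) true (nat_lit 12) (.e false (nat_lit 576) (nat_lit 47) (nat_lit 7) (nat_lit 6) (.e false (nat_lit 576) (nat_lit 90) (nat_lit 2) (nat_lit 11) (.e true (nat_lit 576) (nat_lit 104) (nat_lit 2) (nat_lit 11) (.e true (nat_lit 576) (nat_lit 108) (nat_lit 1) (nat_lit 12) .nil)))))) (.nd (.nd (.nd .leaf (nat_lit 26642) (nat_lit 381) (.n (nat_lit 144) (nat_lit 1852) (.p (nat_lit 145) (nat_lit 4576) (.p (nat_lit 146) (nat_lit 4996) (.p (nat_lit 147) (nat_lit 1872) (.n (nat_lit 148) (nat_lit 3944) (.n (nat_lit 149) (nat_lit 3128) (.n (nat_lit 150) (nat_lit 640) (.p (nat_lit 151) (nat_lit 212) (.p (nat_lit 152) (nat_lit 620) (.n (nat_lit 153) (nat_lit 4004) (.p (nat_lit 154) (nat_lit 1020) (.n (nat_lit 155) (nat_lit 2552) (.n (nat_lit 156) (nat_lit 176) (.n (nat_lit 157) (nat_lit 1440) (.n (nat_lit 158) (nat_lit 3870) (.p (nat_lit 159) (nat_lit 4830) (.n (nat_lit 160) (nat_lit 1678) (.p (nat_lit 161) (nat_lit 1482) (.p (nat_lit 162) (nat_lit 1056) (.n (nat_lit 163) (nat_lit 636) (.p (nat_lit 164) (nat_lit 212) (.p (nat_lit 165) (nat_lit 276) (.p (nat_lit 166) (nat_lit 1100) (.n (nat_lit 167) (nat_lit 1052) (.n (nat_lit 168) (nat_lit 1236) (.p (nat_lit 169) (nat_lit 2352) (.n (nat_lit 170) (nat_lit 1752) (.n (nat_lit 171) (nat_lit 1776) (.n (nat_lit 172) (nat_lit 2352) (.p (nat_lit 173) (nat_lit 576) (.n (nat_lit 174) (nat_lit 576) (.p (nat_lit 176) (nat_lit 588) (.n (nat_lit 177) (nat_lit 24) (.n (nat_lit 178) (nat_lit 168) (.p (nat_lit 179) (nat_lit 168) (.p (nat_lit 180) (nat_lit 600) .z)))))))))))))))))))))))))))))))))))) (.ct dP8_c292 (nat_lit 576) (nat_lit 1) (.s false (nat_lit 1) (nat_lit 26) (nat_lit 2) (nat_lit 2) (nat_lit 1) true (nat_lit 7) true (nat_lit 12) false (nat_lit 1) true (nat_lit 11) true (nat_lit 11) (.e false (nat_lit 576) (nat_lit 56) (nat_lit 6) (nat_lit 7) (.e false (nat_lit 576) (nat_lit 108) (nat_lit 1) (nat_lit 12) (.e true (nat_lit 576) (nat_lit 104) (nat_lit 2) (nat_lit 11) (.e true (nat_lit 576) (nat_lit 86) (nat_lit 2) (nat_lit 11) .nil)))))) .leaf) (nat_lit 26643) (nat_lit 429) (.n (nat_lit 189) (nat_lit 576) (.p (nat_lit 197) (nat_lit 576) .z)) (.ct dP8_c277 (nat_lit 576) (nat_lit 0) (.s false (nat_lit 1) (nat_lit 10) (nat_lit 2) (nat_lit 2) (nat_lit 7) true (nat_lit 0) true (nat_lit 4) true (nat_lit 3) true (nat_lit 8) true (nat_lit 8) (.e false (nat_lit 576) (nat_lit 56) (nat_lit 7) (nat_lit 4) (.e false (nat_lit 1152) (nat_lit 109) (nat_lit 2) (nat_lit 8) (.e true (nat_lit 1152) (nat_lit 111) (nat_lit 2) (nat_lit 8) (.e true (nat_lit 576) (nat_lit 114) (nat_lit 2) (nat_lit 8) (.e true (nat_lit 1152) (nat_lit 115) (nat_lit 2) (nat_lit 8) (.e false (nat_lit 576) (nat_lit 116) (nat_lit 2) (nat_lit 8) (.e true (nat_lit 576) (nat_lit 118) (nat_lit 2) (nat_lit 8) (.e true (nat_lit 576) (nat_lit 119) (nat_lit 2) (nat_lit 8) (.e false (nat_lit 1152) (nat_lit 120) (nat_lit 2) (nat_lit 8) (.e false (nat_lit 576) (nat_lit 121) (nat_lit 2) (nat_lit 8) (.e true (nat_lit 576) (nat_lit 117) (nat_lit 2) (nat_lit 8) .nil))))))))))))) (.nd .leaf (nat_lit 27649) (nat_lit 55) (.p (nat_lit 48) (nat_lit 576) .z) .df .leaf)) (nat_lit 27650) (nat_lit 76) (.p (nat_lit 57) (nat_lit 576) .z) .df (.nd (.nd .leaf (nat_lit 27654) (nat_lit 145) (.p (nat_lit 105) (nat_lit 576) .z) .df .leaf) (nat_lit 27655) (nat_lit 206) (.n (nat_lit 108) (nat_lit 1728) (.p (nat_lit 109) (nat_lit 1728) (.p (nat_lit 112) (nat_lit 1728) (.p (nat_lit 113) (nat_lit 1728) (.n (nat_lit 114) (nat_lit 288) (.p (nat_lit 115) (nat_lit 288) (.p (nat_lit 116) (nat_lit 288) (.n (nat_lit 118) (nat_lit 288) (.n (nat_lit 119) (nat_lit 288) (.n (nat_lit 120) (nat_lit 288) (.n (nat_lit 121) (nat_lit 288) (.p (nat_lit 123) (nat_lit 288) .z)))))))))))) (.ct dP8_c276 (nat_lit 576) (nat_lit 2) (.s true (nat_lit 1) (nat_lit 11) (nat_lit 2) (nat_lit 2) (nat_lit 2) true (nat_lit 2) true (nat_lit 6) true (nat_lit 1) true (nat_lit 6) true (nat_lit 6) (.s true (nat_lit 1) (nat_lit 19) (nat_lit 2) (nat_lit 0) (nat_lit 1) true (nat_lit 3) true (nat_lit 7) false (nat_lit 1) true (nat_lit 6) true (nat_lit 8) (.e false (nat_lit 2304) (nat_lit 57) (nat_lit 2) (nat_lit 6) (.e true (nat_lit 1152) (nat_lit 56) (nat_lit 2) (nat_lit 6) (.e true (nat_lit 1152) (nat_lit 58) (nat_lit 2) (nat_lit 6) (.e true (nat_lit 1152) (nat_lit 59) (nat_lit 2) (nat_lit 6) (.e false (nat_lit 576) (nat_lit 60) (nat_lit 2) (nat_lit 6) (.e true (nat_lit 576) (nat_lit 63) (nat_lit 2) (nat_lit 6) (.e false (nat_lit 1152) (nat_lit 65) (nat_lit 2) (nat_lit 6) (.e false (nat_lit 576) (nat_lit 37) (nat_lit 6) (nat_lit 3) (.e true (nat_lit 576) (nat_lit 76) (nat_lit 1) (nat_lit 7) (.e true (nat_lit 576) (nat_lit 79) (nat_lit 0) (nat_lit 8) .nil))))))))))))) .leaf))) (nat_lit 27665) (nat_lit 348) (.p (nat_lit 144) (nat_lit 408) (.n (nat_lit 145) (nat_lit 192) (.n (nat_lit 146) (nat_lit 552) (.n (nat_lit 147) (nat_lit 288) (.n (nat_lit 148) (nat_lit 48) (.p (nat_lit 149) (nat_lit 240) (.n (nat_lit 150) (nat_lit 384) (.p (nat_lit 151) (nat_lit 120) (.p (nat_lit 152) (nat_lit 264) (.p (nat_lit 153) (nat_lit 168) (.n (nat_lit 154) (nat_lit 216) (.n (nat_lit 155) (nat_lit 336) (.p (nat_lit 156) (nat_lit 96) (.p (nat_lit 158) (nat_lit 108) (.n (nat_lit 159) (nat_lit 108) (.p (nat_lit 160) (nat_lit 12) (.n (nat_lit 161) (nat_lit 36) (.p (nat_lit 163) (nat_lit 216) (.p (nat_lit 164) (nat_lit 120) (.n (nat_lit 165) (nat_lit 72) (.n (nat_lit 166) (nat_lit 312) (.p (nat_lit 167) (nat_lit 24) (.p (nat_lit 168) (nat_lit 72) (.p (nat_lit 169) (nat_lit 288) (.n (nat_lit 170) (nat_lit 720) (.n (nat_lit 171) (nat_lit 288) (.n (nat_lit 172) (nat_lit 288) (.p (nat_lit 176) (nat_lit 72) (.p (nat_lit 177) (nat_lit 432) (.p (nat_lit 178) (nat_lit 144) (.n (nat_lit 179) (nat_lit 144) (.p (nat_lit 180) (nat_lit 144) .z)))))))))))))))))))))))))))))))) (.ct dP8_c292 (nat_lit 576) (nat_lit 1) (.s false (nat_lit 1) (nat_lit 27) (nat_lit 2) (nat_lit 1) (nat_lit 2) true (nat_lit 6) true (nat_lit 11) false (nat_lit 1) true (nat_lit 11) true (nat_lit 12) (.e false (nat_lit 576) (nat_lit 48) (nat_lit 7) (nat_lit 6) (.e false (nat_lit 960) (nat_lit 82) (nat_lit 2) (nat_lit 11) dP8_i78)))) (.nd (.nd (.nd (.nd .leaf (nat_lit 27666) (nat_lit 351) (.p (nat_lit 144) (nat_lit 216) (.n (nat_lit 146) (nat_lit 360) (.p (nat_lit 147) (nat_lit 288) (.n (nat_lit 148) (nat_lit 432) (.p (nat_lit 149) (nat_lit 432) (.p (nat_lit 151) (nat_lit 504) (.n (nat_lit 152) (nat_lit 504) (.n (nat_lit 153) (nat_lit 216) (.p (nat_lit 154) (nat_lit 360) (.p (nat_lit 155) (nat_lit 432) (.p (nat_lit 156) (nat_lit 288) (.p (nat_lit 158) (nat_lit 108) (.n (nat_lit 159) (nat_lit 108) (.n (nat_lit 160) (nat_lit 180) (.n (nat_lit 161) (nat_lit 36) (.p (nat_lit 163) (nat_lit 216) (.n (nat_lit 164) (nat_lit 72) (.n (nat_lit 165) (nat_lit 72) (.n (nat_lit 166) (nat_lit 504) (.n (nat_lit 167) (nat_lit 360) (.p (nat_lit 168) (nat_lit 72) (.p (nat_lit 169) (nat_lit 288) (.p (nat_lit 170) (nat_lit 432) (.n (nat_lit 171) (nat_lit 288) (.n (nat_lit 172) (nat_lit 288) (.p (nat_lit 176) (nat_lit 72) (.n (nat_lit 177) (nat_lit 144) (.p (nat_lit 178) (nat_lit 144) (.n (nat_lit 179) (nat_lit 144) (.p (nat_lit 180) (nat_lit 720) .z)))))))))))))))))))))))))))))) (.ct dP8_c292 (nat_lit 576) (nat_lit 1) (.s false (nat_lit 1) (nat_lit 11) (nat_lit 7) (nat_lit 2) (nat_lit 1) true (nat_lit 1) true (nat_lit 12) true (nat_lit 4) true (nat_lit 6) true (nat_lit 11) (.s true (nat_lit 1) (nat_lit 40) (nat_lit 0) (nat_lit 2) (nat_lit 1) true (nat_lit 10) true (nat_lit 12) false (nat_lit 4) true (nat_lit 13) true (nat_lit 11) (.e true (nat_lit 1152) (nat_lit 108) (nat_lit 1) (nat_lit 12) (.e false (nat_lit 1152) (nat_lit 109) (nat_lit 1) (nat_lit 12) (.e true (nat_lit 1152) (nat_lit 110) (nat_lit 1) (nat_lit 12) (.e false (nat_lit 576) (nat_lit 112) (nat_lit 1) (nat_lit 12) (.e false (nat_lit 576) (nat_lit 117) (nat_lit 1) (nat_lit 12) (.e true (nat_lit 576) (nat_lit 45) (nat_lit 7) (nat_lit 6) (.e true (nat_lit 576) (nat_lit 49) (nat_lit 7) (nat_lit 6) (.e false (nat_lit 576) (nat_lit 53) (nat_lit 7) (nat_lit 6) (.e false (nat_lit 576) (nat_lit 54) (nat_lit 7) (nat_lit 6) (.e false (nat_lit 576) (nat_lit 55) (nat_lit 7) (nat_lit 6) (.e false (nat_lit 576) (nat_lit 102) (nat_lit 2) (nat_lit 11) (.e true (nat_lit 576) (nat_lit 79) (nat_lit 3) (nat_lit 10) (.e false (nat_lit 576) (nat_lit 114) (nat_lit 1) (nat_lit 12) (.e true (nat_lit 576) (nat_lit 116) (nat_lit 1) (nat_lit 12) (.e true (nat_lit 576) (nat_lit 125) (nat_lit 0) (nat_lit 13) (.e false (nat_lit 576) (nat_lit 126) (nat_lit 0) (nat_lit 13) (.e false (nat_lit 576) (nat_lit 132) (nat_lit 0) (nat_lit 13) (.e true (nat_lit 576) (nat_lit 100) (nat_lit 2) (nat_lit 11) .nil))))))))))))))))))))) .leaf) (nat_lit 27667) (nat_lit 425) (.p (nat_lit 181) (nat_lit 2016) (.n (nat_lit 182) (nat_lit 2016) (.n (nat_lit 184) (nat_lit 2304) (.n (nat_lit 185) (nat_lit 2016) (.p (nat_lit 186) (nat_lit 1008) (.n (nat_lit 188) (nat_lit 1008) (.n (nat_lit 189) (nat_lit 144) (.p (nat_lit 190) (nat_lit 1440) (.p (nat_lit 191) (nat_lit 1440) (.n (nat_lit 192) (nat_lit 864) (.n (nat_lit 193) (nat_lit 288) (.n (nat_lit 194) (nat_lit 864) (.p (nat_lit 196) (nat_lit 576) (.p (nat_lit 197) (nat_lit 576) .z)))))))))))))) (.ct dP8_c277 (nat_lit 576) (nat_lit 0) (.s false (nat_lit 1) (nat_lit 11) (nat_lit 2) (nat_lit 2) (nat_lit 7) true (nat_lit 0) true (nat_lit 4) true (nat_lit 3) true (nat_lit 8) true (nat_lit 8) (.e false (nat_lit 576) (nat_lit 57) (nat_lit 7) (nat_lit 4) (.e false (nat_lit 1728) (nat_lit 108) (nat_lit 2) (nat_lit 8) (.e true (nat_lit 1728) (nat_lit 112) (nat_lit 2) (nat_lit 8) (.e true (nat_lit 1728) (nat_lit 113) (nat_lit 2) (nat_lit 8) (.e false (nat_lit 288) (nat_lit 114) (nat_lit 2) (nat_lit 8) (.e true (nat_lit 288) (nat_lit 115) (nat_lit 2) (nat_lit 8) (.e true (nat_lit 288) (nat_lit 116) (nat_lit 2) (nat_lit 8) (.e false (nat_lit 288) (nat_lit 118) (nat_lit 2) (nat_lit 8) (.e false (nat_lit 288) (nat_lit 119) (nat_lit 2) (nat_lit 8) (.e false (nat_lit 288) (nat_lit 120) (nat_lit 2) (nat_lit 8) (.e false (nat_lit 288) (nat_lit 121) (nat_lit 2) (nat_lit 8) (.e true (nat_lit 288) (nat_lit 123) (nat_lit 2) (nat_lit 8) (.e true (nat_lit 1728) (nat_lit 109) (nat_lit 2) (nat_lit 8) .nil))))))))))))))) (.nd .leaf (nat_lit 28673) (nat_lit 56) (.p (nat_lit 49) (nat_lit 576) .z) .df .leaf)) (nat_lit 28674) (nat_lit 77) (.p (nat_lit 58) (nat_lit 576) .z) .df (.nd (.nd .leaf (nat_lit 28678) (nat_lit 146) (.p (nat_lit 106) (nat_lit 576) .z) .df .leaf) (nat_lit 28679) (nat_lit 210) (.n (nat_lit 108) (nat_lit 576) (.p (nat_lit 109) (nat_lit 1728) (.n (nat_lit 111) (nat_lit 1152) (.p (nat_lit 112) (nat_lit 576) (.p (nat_lit 113) (nat_lit 576) (.n (nat_lit 114) (nat_lit 288) (.n (nat_lit 115) (nat_lit 864) (.p (nat_lit 116) (nat_lit 288) (.n (nat_lit 118) (nat_lit 864) (.n (nat_lit 119) (nat_lit 864) (.p (nat_lit 120) (nat_lit 864) (.p (nat_lit 121) (nat_lit 864) (.p (nat_lit 123) (nat_lit 288) .z))))))))))))) (.ct dP8_c276 (nat_lit 576) (nat_lit 2) (.s true (nat_lit 1) (nat_lit 7) (nat_lit 0) (nat_lit 7) (nat_lit 1) true (nat_lit 5) true (nat_lit 7) true (nat_lit 2) true (nat_lit 8) true (nat_lit 2) (.e true (nat_lit 1152) (nat_lit 74) (nat_lit 1) (nat_lit 7) (.e true (nat_lit 1152) (nat_lit 75) (nat_lit 1) (nat_lit 7) (.e false (nat_lit 1152) (nat_lit 30) (nat_lit 7) (nat_lit 2) (.e true (nat_lit 1152) (nat_lit 78) (nat_lit 0) (nat_lit 8) (.e false (nat_lit 1152) (nat_lit 79) (nat_lit 0) (nat_lit 8) (.e true (nat_lit 1152) (nat_lit 26) (nat_lit 7) (nat_lit 2) (.e false (nat_lit 576) (nat_lit 27) (nat_lit 7) (nat_lit 2) (.e false (nat_lit 576) (nat_lit 29) (nat_lit 7) (nat_lit 2) (.e false (nat_lit 576) (nat_lit 31) (nat_lit 7) (nat_lit 2) .nil))))))))))) (.nd .leaf (nat_lit 28689) (nat_lit 382) (.n (nat_lit 144) (nat_lit 5676) (.p (nat_lit 145) (nat_lit 13056) (.p (nat_lit 146) (nat_lit 13236) (.p (nat_lit 147) (nat_lit 10512) (.n (nat_lit 148) (nat_lit 10920) (.n (nat_lit 149) (nat_lit 1560) (.n (nat_lit 150) (nat_lit 960) (.p (nat_lit 151) (nat_lit 2820) (.p (nat_lit 152) (nat_lit 3036) (.n (nat_lit 153) (nat_lit 12468) (.p (nat_lit 154) (nat_lit 1548) (.n (nat_lit 155) (nat_lit 9624) (.p (nat_lit 156) (nat_lit 816) (.n (nat_lit 157) (nat_lit 4896) (.n (nat_lit 158) (nat_lit 4086) (.p (nat_lit 159) (nat_lit 12150) (.n (nat_lit 160) (nat_lit 5190) (.p (nat_lit 161) (nat_lit 1170) (.n (nat_lit 162) (nat_lit 1152) (.n (nat_lit 163) (nat_lit 2412) (.n (nat_lit 164) (nat_lit 2076) (.p (nat_lit 165) (nat_lit 1764) (.p (nat_lit 166) (nat_lit 5052) (.n (nat_lit 167) (nat_lit 3468) (.n (nat_lit 168) (nat_lit 2340) (.p (nat_lit 169) (nat_lit 432) (.p (nat_lit 170) (nat_lit 72) (.n (nat_lit 171) (nat_lit 432) (.p (nat_lit 172) (nat_lit 144) (.n (nat_lit 173) (nat_lit 576) (.p (nat_lit 174) (nat_lit 576) (.n (nat_lit 176) (nat_lit 36) (.n (nat_lit 177) (nat_lit 504) (.p (nat_lit 178) (nat_lit 2520) (.n (nat_lit 179) (nat_lit 1944) (.p (nat_lit 180) (nat_lit 504) .z)))))))))))))))))))))))))))))))))))) (.ct dP8_c292 (nat_lit 576) (nat_lit 1) (.s false (nat_lit 1) (nat_lit 28) (nat_lit 2) (nat_lit 1) (nat_lit 2) true (nat_lit 6) true (nat_lit 11) false (nat_lit 1) true (nat_lit 11) true (nat_lit 12) (.e false (nat_lit 576) (nat_lit 49) (nat_lit 7) (nat_lit 6) (.e false (nat_lit 576) (nat_lit 91) (nat_lit 2) (nat_lit 11) (.e true (nat_lit 576) (nat_lit 106) (nat_lit 2) (nat_lit 11) (.e true (nat_lit 576) (nat_lit 110) (nat_lit 1) (nat_lit 12) .nil)))))) .leaf))) (nat_lit 28690) (nat_lit 354) (.n (nat_lit 144) (nat_lit 1836) (.p (nat_lit 145) (nat_lit 6912) (.p (nat_lit 146) (nat_lit 6516) (.p (nat_lit 147) (nat_lit 3600) (.n (nat_lit 148) (nat_lit 6120) (.n (nat_lit 149) (nat_lit 3096) (.n (nat_lit 150) (nat_lit 1728) (.p (nat_lit 151) (nat_lit 900) (.p (nat_lit 152) (nat_lit 540) (.n (nat_lit 153) (nat_lit 5940) (.p (nat_lit 154) (nat_lit 1548) (.n (nat_lit 155) (nat_lit 4248) (.p (nat_lit 156) (nat_lit 432) (.n (nat_lit 157) (nat_lit 2592) (.n (nat_lit 158) (nat_lit 4374) (.p (nat_lit 159) (nat_lit 6678) (.n (nat_lit 160) (nat_lit 2790) (.p (nat_lit 161) (nat_lit 1458) (.p (nat_lit 162) (nat_lit 576) (.n (nat_lit 163) (nat_lit 684) (.p (nat_lit 164) (nat_lit 36) (.p (nat_lit 165) (nat_lit 1188) (.p (nat_lit 166) (nat_lit 2556) (.n (nat_lit 167) (nat_lit 2700) (.n (nat_lit 168) (nat_lit 1764) (.p (nat_lit 169) (nat_lit 1008) (.n (nat_lit 170) (nat_lit 504) (.n (nat_lit 171) (nat_lit 1008) (.n (nat_lit 172) (nat_lit 1008) (.p (nat_lit 173) (nat_lit 576) (.n (nat_lit 174) (nat_lit 576) (.p (nat_lit 176) (nat_lit 540) (.n (nat_lit 177) (nat_lit 504) (.p (nat_lit 178) (nat_lit 792) (.n (nat_lit 179) (nat_lit 216) (.p (nat_lit 180) (nat_lit 504) .z)))))))))))))))))))))))))))))))))))) (.ct dP8_c292 (nat_lit 576) (nat_lit 1) (.s false (nat_lit 1) (nat_lit 28) (nat_lit 2) (nat_lit 2) (nat_lit 1) true (nat_lit 7) true (nat_lit 12) false (nat_lit 1) true (nat_lit 11) true (nat_lit 11) dP8_i81)) (.nd (.nd (.nd .leaf (nat_lit 28691) (nat_lit 434) (.p (nat_lit 181) (nat_lit 576) (.n (nat_lit 182) (nat_lit 576) (.n (nat_lit 184) (nat_lit 1152) (.n (nat_lit 185) (nat_lit 576) (.p (nat_lit 186) (nat_lit 288) (.n (nat_lit 187) (nat_lit 576) (.n (nat_lit 188) (nat_lit 288) (.p (nat_lit 189) (nat_lit 864) (.p (nat_lit 190) (nat_lit 1152) (.p (nat_lit 191) (nat_lit 1152) (.n (nat_lit 192) (nat_lit 576) (.n (nat_lit 193) (nat_lit 576) (.n (nat_lit 194) (nat_lit 1152) (.p (nat_lit 196) (nat_lit 576) (.n (nat_lit 198) (nat_lit 576) .z))))))))))))))) (.ct dP8_c277 (nat_lit 576) (nat_lit 0) (.s true (nat_lit 1) (nat_lit 19) (nat_lit 0) (nat_lit 6) (nat_lit 2) true (nat_lit 6) true (nat_lit 8) true (nat_lit 0) true (nat_lit 10) true (nat_lit 5) (.e true (nat_lit 576) (nat_lit 79) (nat_lit 5) (nat_lit 6) (.e false (nat_lit 576) (nat_lit 80) (nat_lit 5) (nat_lit 6) (.e true (nat_lit 576) (nat_lit 123) (nat_lit 2) (nat_lit 8) (.e false (nat_lit 576) (nat_lit 143) (nat_lit 0) (nat_lit 10) (.e false (nat_lit 576) (nat_lit 76) (nat_lit 6) (nat_lit 5) .nil))))))) .leaf) (nat_lit 29697) (nat_lit 57) (.p (nat_lit 50) (nat_lit 576) .z) .df (.nd .leaf (nat_lit 29698) (nat_lit 78) (.p (nat_lit 59) (nat_lit 576) .z) .df .leaf)) (nat_lit 29702) (nat_lit 147) (.p (nat_lit 107) (nat_lit 576) .z) .df (.nd (.nd .leaf (nat_lit 29703) (nat_lit 208) (.n (nat_lit 108) (nat_lit 1728) (.p (nat_lit 109) (nat_lit 2304) (.n (nat_lit 110) (nat_lit 576) (.n (nat_lit 111) (nat_lit 576) (.p (nat_lit 112) (nat_lit 1728) (.p (nat_lit 113) (nat_lit 1152) (.n (nat_lit 114) (nat_lit 864) (.n (nat_lit 115) (nat_lit 288) (.p (nat_lit 116) (nat_lit 864) (.p (nat_lit 117) (nat_lit 576) (.n (nat_lit 118) (nat_lit 864) (.n (nat_lit 119) (nat_lit 864) (.p (nat_lit 120) (nat_lit 288) (.p (nat_lit 121) (nat_lit 288) (.p (nat_lit 123) (nat_lit 864) .z))))))))))))))) (.ct dP8_c276 (nat_lit 1152) (nat_lit 2) (.s false (nat_lit 1) (nat_lit 7) (nat_lit 0) (nat_lit 7) (nat_lit 1) true (nat_lit 5) true (nat_lit 7) true (nat_lit 2) true (nat_lit 8) true (nat_lit 2) (.s false (nat_lit 1) (nat_lit 7) (nat_lit 2) (nat_lit 2) (nat_lit 3) true (nat_lit 1) true (nat_lit 5) true (nat_lit 2) true (nat_lit 6) true (nat_lit 6) (.s true (nat_lit 1) (nat_lit 19) (nat_lit 0) (nat_lit 1) (nat_lit 2) true (nat_lit 4) true (nat_lit 6) false (nat_lit 1) true (nat_lit 8) true (nat_lit 7) (.s true (nat_lit 1) (nat_lit 19) (nat_lit 1) (nat_lit 2) (nat_lit 0) true (nat_lit 5) true (nat_lit 8) false (nat_lit 1) true (nat_lit 7) true (nat_lit 6) (.s false (nat_lit 1) (nat_lit 19) (nat_lit 2) (nat_lit 1) (nat_lit 0) true (nat_lit 4) true (nat_lit 8) false (nat_lit 1) true (nat_lit 6) true (nat_lit 7) (.e false (nat_lit 1152) (nat_lit 74) (nat_lit 1) (nat_lit 7) (.e false (nat_lit 1152) (nat_lit 75) (nat_lit 1) (nat_lit 7) (.e true (nat_lit 1152) (nat_lit 30) (nat_lit 7) (nat_lit 2) (.e false (nat_lit 1152) (nat_lit 78) (nat_lit 0) (nat_lit 8) (.e true (nat_lit 1152) (nat_lit 79) (nat_lit 0) (nat_lit 8) (.e false (nat_lit 1152) (nat_lit 26) (nat_lit 7) (nat_lit 2) (.e true (nat_lit 1152) (nat_lit 31) (nat_lit 7) (nat_lit 2) (.e false (nat_lit 1152) (nat_lit 65) (nat_lit 2) (nat_lit 6) .nil)))))))))))))) .leaf) (nat_lit 29713) (nat_lit 360) (.p (nat_lit 144) (nat_lit 3488) (.n (nat_lit 145) (nat_lit 8576) (.n (nat_lit 146) (nat_lit 9056) (.n (nat_lit 147) (nat_lit 6336) (.p (nat_lit 148) (nat_lit 7744) (.p (nat_lit 149) (nat_lit 1792) (.p (nat_lit 150) (nat_lit 1280) (.n (nat_lit 151) (nat_lit 1504) (.n (nat_lit 152) (nat_lit 1888) (.p (nat_lit 153) (nat_lit 8800) (.n (nat_lit 154) (nat_lit 1248) (.p (nat_lit 155) (nat_lit 6400) (.n (nat_lit 156) (nat_lit 512) (.p (nat_lit 157) (nat_lit 2880) (.p (nat_lit 158) (nat_lit 3600) (.n (nat_lit 159) (nat_lit 7824) (.p (nat_lit 160) (nat_lit 3536) (.n (nat_lit 161) (nat_lit 1200) (.p (nat_lit 162) (nat_lit 192) (.p (nat_lit 163) (nat_lit 1632) (.p (nat_lit 164) (nat_lit 1088) (.n (nat_lit 165) (nat_lit 1632) (.n (nat_lit 166) (nat_lit 4000) (.p (nat_lit 167) (nat_lit 2464) (.p (nat_lit 168) (nat_lit 1824) (.n (nat_lit 169) (nat_lit 960) (.p (nat_lit 170) (nat_lit 192) (.p (nat_lit 171) (nat_lit 960) (.p (nat_lit 172) (nat_lit 960) (.n (nat_lit 176) (nat_lit 384) (.p (nat_lit 177) (nat_lit 768) (.n (nat_lit 178) (nat_lit 1248) (.p (nat_lit 179) (nat_lit 1248) (.n (nat_lit 180) (nat_lit 192) .z)))))))))))))))))))))))))))))))))) (.ct dP8_c292 (nat_lit 576) (nat_lit 1) (.s false (nat_lit 1) (nat_lit 29) (nat_lit 2) (nat_lit 1) (nat_lit 2) true (nat_lit 6) true (nat_lit 11) false (nat_lit 1) true (nat_lit 11) true (nat_lit 12) (.e false (nat_lit 576) (nat_lit 50) (nat_lit 7) (nat_lit 6) (.e true (nat_lit 576) (nat_lit 82) (nat_lit 2) (nat_lit 11) (.e true (nat_lit 576) (nat_lit 83) (nat_lit 2) (nat_lit 11) (.e true (nat_lit 576) (nat_lit 84) (nat_lit 2) (nat_lit 11) (.e true (nat_lit 576) (nat_lit 85) (nat_lit 2) (nat_lit 11) (.e false (nat_lit 1152) (nat_lit 86) (nat_lit 2) (nat_lit 11) (.e false (nat_lit 576) (nat_lit 90) (nat_lit 2) (nat_lit 11) (.e false (nat_lit 1152) (nat_lit 91) (nat_lit 2) (nat_lit 11) (.e false (nat_lit 576) (nat_lit 93) (nat_lit 2) (nat_lit 11) (.e true (nat_lit 576) (nat_lit 94) (nat_lit 2) (nat_lit 11) (.e false (nat_lit 576) (nat_lit 96) (nat_lit 2) (nat_lit 11) (.e true (nat_lit 1152) (nat_lit 98) (nat_lit 2) (nat_lit 11) (.e false (nat_lit 576) (nat_lit 99) (nat_lit 2) (nat_lit 11) (.e true (nat_lit 576) (nat_lit 107) (nat_lit 2) (nat_lit 11) (.e true (nat_lit 576) (nat_lit 111) (nat_lit 1) (nat_lit 12) .nil))))))))))))))))) .leaf)))) (nat_lit 29714) (nat_lit 363) (.n (nat_lit 144) (nat_lit 348) (.p (nat_lit 145) (nat_lit 2112) (.p (nat_lit 146) (nat_lit 1284) (.p (nat_lit 147) (nat_lit 1296) (.n (nat_lit 148) (nat_lit 1992) (.n (nat_lit 149) (nat_lit 120) (.n (nat_lit 150) (nat_lit 960) (.p (nat_lit 151) (nat_lit 1236) (.p (nat_lit 152) (nat_lit 12) (.n (nat_lit 153) (nat_lit 1668) (.p (nat_lit 154) (nat_lit 828) (.n (nat_lit 155) (nat_lit 1272) (.p (nat_lit 156) (nat_lit 240) (.n (nat_lit 157) (nat_lit 864) (.n (nat_lit 158) (nat_lit 1134) (.p (nat_lit 159) (nat_lit 2286) (.n (nat_lit 160) (nat_lit 1086) (.p (nat_lit 161) (nat_lit 378) (.p (nat_lit 163) (nat_lit 36) (.n (nat_lit 164) (nat_lit 204) (.n (nat_lit 165) (nat_lit 396) (.p (nat_lit 166) (nat_lit 300) (.n (nat_lit 167) (nat_lit 1020) (.n (nat_lit 168) (nat_lit 756) (.p (nat_lit 169) (nat_lit 432) (.n (nat_lit 170) (nat_lit 216) (.n (nat_lit 171) (nat_lit 432) (.n (nat_lit 172) (nat_lit 432) (.p (nat_lit 176) (nat_lit 396) (.p (nat_lit 177) (nat_lit 360) (.p (nat_lit 178) (nat_lit 504) (.n (nat_lit 179) (nat_lit 504) (.p (nat_lit 180) (nat_lit 216) .z))))))))))))))))))))))))))))))))) (.ct dP8_c292 (nat_lit 576) (nat_lit 1) (.s true (nat_lit 1) (nat_lit 7) (nat_lit 1) (nat_lit 3) (nat_lit 7) true (nat_lit 1) true (nat_lit 6) true (nat_lit 6) true (nat_lit 12) true (nat_lit 10) (.e false (nat_lit 576) (nat_lit 27) (nat_lit 18) (nat_lit 1) (.e true (nat_lit 576) (nat_lit 28) (nat_lit 18) (nat_lit 1) (.e true (nat_lit 576) (nat_lit 31) (nat_lit 18) (nat_lit 1) (.e false (nat_lit 576) (nat_lit 44) (nat_lit 7) (nat_lit 6) (.e false (nat_lit 576) (nat_lit 45) (nat_lit 7) (nat_lit 6) (.e false (nat_lit 576) (nat_lit 46) (nat_lit 7) (nat_lit 6) (.e true (nat_lit 576) (nat_lit 47) (nat_lit 7) (nat_lit 6) (.e true (nat_lit 1152) (nat_lit 55) (nat_lit 7) (nat_lit 6) (.e false (nat_lit 576) (nat_lit 43) (nat_lit 7) (nat_lit 6) (.e true (nat_lit 576) (nat_lit 48) (nat_lit 7) (nat_lit 6) (.e false (nat_lit 576) (nat_lit 49) (nat_lit 7) (nat_lit 6) (.e true (nat_lit 576) (nat_lit 51) (nat_lit 7) (nat_lit 6) (.e false (nat_lit 576) (nat_lit 53) (nat_lit 7) (nat_lit 6) (.e true (nat_lit 576) (nat_lit 54) (nat_lit 7) (nat_lit 6) (.e false (nat_lit 1152) (nat_lit 117) (nat_lit 1) (nat_lit 12) .nil))))))))))))))))) (.nd (.nd (.nd (.nd (.nd .leaf (nat_lit 29715) (nat_lit 426) (.p (nat_lit 181) (nat_lit 3456) (.n (nat_lit 182) (nat_lit 3456) (.p (nat_lit 183) (nat_lit 576) (.n (nat_lit 184) (nat_lit 3456) (.n (nat_lit 185) (nat_lit 2880) (.p (nat_lit 186) (nat_lit 1440) (.n (nat_lit 188) (nat_lit 1440) (.n (nat_lit 189) (nat_lit 576) (.p (nat_lit 190) (nat_lit 2016) (.p (nat_lit 191) (nat_lit 2016) (.n (nat_lit 192) (nat_lit 576) (.n (nat_lit 193) (nat_lit 288) (.n (nat_lit 194) (nat_lit 1728) (.p (nat_lit 196) (nat_lit 576) (.p (nat_lit 197) (nat_lit 576) .z))))))))))))))) (.ct dP8_c277 (nat_lit 576) (nat_lit 0) (.s true (nat_lit 1) (nat_lit 7) (nat_lit 2) (nat_lit 3) (nat_lit 7) true (nat_lit 0) true (nat_lit 4) true (nat_lit 4) true (nat_lit 8) true (nat_lit 7) (.s true (nat_lit 2) (nat_lit 7) (nat_lit 2) (nat_lit 7) (nat_lit 3) true (nat_lit 3) true (nat_lit 7) true (nat_lit 4) true (nat_lit 8) true (nat_lit 4) (.s false (nat_lit 1) (nat_lit 19) (nat_lit 0) (nat_lit 6) (nat_lit 2) true (nat_lit 6) true (nat_lit 8) true (nat_lit 0) true (nat_lit 10) true (nat_lit 5) (.e false (nat_lit 576) (nat_lit 27) (nat_lit 19) (nat_lit 0) (.e true (nat_lit 576) (nat_lit 31) (nat_lit 19) (nat_lit 0) (.e true (nat_lit 576) (nat_lit 57) (nat_lit 7) (nat_lit 4) (.e false (nat_lit 576) (nat_lit 58) (nat_lit 7) (nat_lit 4) (.e false (nat_lit 576) (nat_lit 59) (nat_lit 7) (nat_lit 4) (.e false (nat_lit 576) (nat_lit 61) (nat_lit 7) (nat_lit 4) (.e true (nat_lit 1152) (nat_lit 117) (nat_lit 2) (nat_lit 8) (.e false (nat_lit 576) (nat_lit 79) (nat_lit 5) (nat_lit 6) (.e true (nat_lit 576) (nat_lit 80) (nat_lit 5) (nat_lit 6) (.e false (nat_lit 576) (nat_lit 123) (nat_lit 2) (nat_lit 8) (.e true (nat_lit 576) (nat_lit 143) (nat_lit 0) (nat_lit 10) (.e true (nat_lit 576) (nat_lit 76) (nat_lit 6) (nat_lit 5) .nil)))))))))))))))) .leaf) (nat_lit 30721) (nat_lit 58) (.p (nat_lit 51) (nat_lit 576) .z) .df (.nd .leaf (nat_lit 30722) (nat_lit 79) (.p (nat_lit 60) (nat_lit 576) .z) .df .leaf)) (nat_lit 30726) (nat_lit 148) (.p (nat_lit 82) (nat_lit 576) (.n (nat_lit 83) (nat_lit 576) (.n (nat_lit 84) (nat_lit 576) (.n (nat_lit 85) (nat_lit 1152) (.p (nat_lit 86) (nat_lit 576) (.n (nat_lit 87) (nat_lit 576) (.n (nat_lit 89) (nat_lit 1152) (.n (nat_lit 90) (nat_lit 576) (.p (nat_lit 91) (nat_lit 1152) (.p (nat_lit 92) (nat_lit 576) (.p (nat_lit 93) (nat_lit 1152) (.n (nat_lit 94) (nat_lit 576) (.n (nat_lit 95) (nat_lit 576) (.p (nat_lit 96) (nat_lit 576) (.n (nat_lit 97) (nat_lit 576) (.n (nat_lit 98) (nat_lit 576) (.p (nat_lit 99) (nat_lit 576) (.p (nat_lit 101) (nat_lit 576) (.p (nat_lit 102) (nat_lit 576) (.p (nat_lit 103) (nat_lit 576) (.p (nat_lit 104) (nat_lit 576) (.n (nat_lit 105) (nat_lit 1152) (.p (nat_lit 106) (nat_lit 1152) .z))))))))))))))))))))))) (.ct dP8_c291 (nat_lit 576) (nat_lit 4) (.s true (nat_lit 2) (nat_lit 6) (nat_lit 0) (nat_lit 6) (nat_lit 2) true (nat_lit 5) true (nat_lit 8) true (nat_lit 4) true (nat_lit 10) true (nat_lit 4) (.s true (nat_lit 1) (nat_lit 6) (nat_lit 1) (nat_lit 5) (nat_lit 2) true (nat_lit 4) true (nat_lit 8) true (nat_lit 4) true (nat_lit 9) true (nat_lit 5) (.s false (nat_lit 1) (nat_lit 6) (nat_lit 2) (nat_lit 1) (nat_lit 5) false (nat_lit 0) true (nat_lit 5) true (nat_lit 4) true (nat_lit 8) true (nat_lit 9) (.s false (nat_lit 1) (nat_lit 6) (nat_lit 2) (nat_lit 5) (nat_lit 1) true (nat_lit 4) true (nat_lit 9) true (nat_lit 4) true (nat_lit 8) true (nat_lit 5) (.s true (nat_lit 1) (nat_lit 7) (nat_lit 2) (nat_lit 4) (nat_lit 0) true (nat_lit 5) true (nat_lit 10) true (nat_lit 3) true (nat_lit 8) true (nat_lit 6) (.s false (nat_lit 1) (nat_lit 11) (nat_lit 2) (nat_lit 1) (nat_lit 2) true (nat_lit 3) true (nat_lit 8) true (nat_lit 1) true (nat_lit 8) true (nat_lit 9) (.s true (nat_lit 1) (nat_lit 14) (nat_lit 2) (nat_lit 2) (nat_lit 0) true (nat_lit 5) true (nat_lit 10) true (nat_lit 0) true (nat_lit 8) true (nat_lit 8) (.s true (nat_lit 1) (nat_lit 16) (nat_lit 1) (nat_lit 2) (nat_lit 1) true (nat_lit 6) true (nat_lit 9) false (nat_lit 0) true (nat_lit 9) true (nat_lit 8) dP8_i0))))))))) (.nd (.nd .leaf (nat_lit 30727) (nat_lit 197) (.p (nat_lit 121) (nat_lit 576) .z) .df .leaf) (nat_lit 30737) (nat_lit 356) (.n (nat_lit 144) (nat_lit 5480) (.p (nat_lit 145) (nat_lit 11936) (.p (nat_lit 146) (nat_lit 12344) (.p (nat_lit 147) (nat_lit 8928) (.n (nat_lit 148) (nat_lit 10000) (.n (nat_lit 149) (nat_lit 3472) (.n (nat_lit 150) (nat_lit 320) (.p (nat_lit 151) (nat_lit 1816) (.p (nat_lit 152) (nat_lit 2632) (.n (nat_lit 153) (nat_lit 11416) (.p (nat_lit 154) (nat_lit 1608) (.n (nat_lit 155) (nat_lit 8080) (.p (nat_lit 156) (nat_lit 704) (.n (nat_lit 157) (nat_lit 4608) (.n (nat_lit 158) (nat_lit 4788) (.p (nat_lit 159) (nat_lit 10740) (.n (nat_lit 160) (nat_lit 4340) (.p (nat_lit 161) (nat_lit 1596) (.n (nat_lit 162) (nat_lit 480) (.n (nat_lit 163) (nat_lit 2280) (.n (nat_lit 164) (nat_lit 1352) (.p (nat_lit 165) (nat_lit 3000) (.p (nat_lit 166) (nat_lit 5320) (.n (nat_lit 167) (nat_lit 3496) (.n (nat_lit 168) (nat_lit 2616) (.p (nat_lit 169) (nat_lit 1824) (.n (nat_lit 170) (nat_lit 912) (.n (nat_lit 171) (nat_lit 1824) (.n (nat_lit 172) (nat_lit 1824) (.p (nat_lit 176) (nat_lit 168) (.n (nat_lit 177) (nat_lit 912) (.p (nat_lit 178) (nat_lit 1392) (.n (nat_lit 179) (nat_lit 816) (.p (nat_lit 180) (nat_lit 912) .z)))))))))))))))))))))))))))))))))) (.ct dP8_c292 (nat_lit 576) (nat_lit 1) (.s true (nat_lit 1) (nat_lit 6) (nat_lit 5) (nat_lit 2) (nat_lit 6) false (nat_lit 1) true (nat_lit 7) true (nat_lit 7) true (nat_lit 8) true (nat_lit 11) (.s false (nat_lit 1) (nat_lit 26) (nat_lit 2) (nat_lit 1) (nat_lit 2) true (nat_lit 6) true (nat_lit 11) false (nat_lit 1) true (nat_lit 11) true (nat_lit 12) (.e true (nat_lit 576) (nat_lit 27) (nat_lit 17) (nat_lit 1) (.e true (nat_lit 576) (nat_lit 31) (nat_lit 17) (nat_lit 1) (.e true (nat_lit 576) (nat_lit 56) (nat_lit 6) (nat_lit 7) (.e false (nat_lit 576) (nat_lit 57) (nat_lit 6) (nat_lit 7) (.e false (nat_lit 576) (nat_lit 60) (nat_lit 6) (nat_lit 7) (.e false (nat_lit 576) (nat_lit 61) (nat_lit 6) (nat_lit 7) (.e true (nat_lit 576) (nat_lit 66) (nat_lit 6) (nat_lit 7) (.e false (nat_lit 288) (nat_lit 68) (nat_lit 5) (nat_lit 8) (.e true (nat_lit 288) (nat_lit 69) (nat_lit 5) (nat_lit 8) (.e false (nat_lit 288) (nat_lit 70) (nat_lit 5) (nat_lit 8) (.e true (nat_lit 288) (nat_lit 71) (nat_lit 5) (nat_lit 8) (.e false (nat_lit 576) (nat_lit 47) (nat_lit 7) (nat_lit 6) (.e false (nat_lit 576) (nat_lit 90) (nat_lit 2) (nat_lit 11) (.e true (nat_lit 576) (nat_lit 104) (nat_lit 2) (nat_lit 11) (.e true (nat_lit 576) (nat_lit 108) (nat_lit 1) (nat_lit 12) .nil)))))))))))))))))) (.nd .leaf (nat_lit 30739) (nat_lit 438) (.n (nat_lit 181) (nat_lit 2880) (.p (nat_lit 182) (nat_lit 2880) (.p (nat_lit 184) (nat_lit 2304) (.p (nat_lit 185) (nat_lit 2880) (.n (nat_lit 186) (nat_lit 1440) (.n (nat_lit 187) (nat_lit 1152) (.p (nat_lit 188) (nat_lit 1440) (.p (nat_lit 189) (nat_lit 864) (.n (nat_lit 190) (nat_lit 576) (.n (nat_lit 191) (nat_lit 576) (.p (nat_lit 192) (nat_lit 576) (.n (nat_lit 193) (nat_lit 576) (.n (nat_lit 194) (nat_lit 576) (.n (nat_lit 198) (nat_lit 576) .z)))))))))))))) (.ct dP8_c277 (nat_lit 576) (nat_lit 0) (.s false (nat_lit 1) (nat_lit 30) (nat_lit 2) (nat_lit 2) (nat_lit 2) true (nat_lit 4) true (nat_lit 8) false (nat_lit 0) true (nat_lit 8) true (nat_lit 8) (.e false (nat_lit 576) (nat_lit 60) (nat_lit 7) (nat_lit 4) (.e true (nat_lit 576) (nat_lit 121) (nat_lit 2) (nat_lit 8) .nil)))) .leaf))) (nat_lit 31745) (nat_lit 64) (.n (nat_lit 43) (nat_lit 576) (.p (nat_lit 44) (nat_lit 576) (.p (nat_lit 45) (nat_lit 576) (.p (nat_lit 46) (nat_lit 576) (.p (nat_lit 47) (nat_lit 576) (.n (nat_lit 50) (nat_lit 576) (.n (nat_lit 51) (nat_lit 576) (.p (nat_lit 53) (nat_lit 576) (.n (nat_lit 54) (nat_lit 576) .z))))))))) (.ct dP8_c290 (nat_lit 576) (nat_lit 6) (.s false (nat_lit 1) (nat_lit 3) (nat_lit 1) (nat_lit 2) (nat_lit 2) true (nat_lit 1) true (nat_lit 5) true (nat_lit 4) true (nat_lit 6) true (nat_lit 5) (.e false (nat_lit 576) (nat_lit 10) (nat_lit 6) (nat_lit 1) (.e false (nat_lit 576) (nat_lit 20) (nat_lit 2) (nat_lit 5) (.e true (nat_lit 576) (nat_lit 17) (nat_lit 3) (nat_lit 4) (.e false (nat_lit 576) (nat_lit 27) (nat_lit 1) (nat_lit 6) (.e true (nat_lit 576) (nat_lit 28) (nat_lit 1) (nat_lit 6) (.e true (nat_lit 576) (nat_lit 29) (nat_lit 1) (nat_lit 6) (.e true (nat_lit 576) (nat_lit 22) (nat_lit 2) (nat_lit 5) .nil))))))))) (.nd (.nd (.nd .leaf (nat_lit 31746) (nat_lit 80) (.p (nat_lit 61) (nat_lit 576) .z) .df .leaf) (nat_lit 31750) (nat_lit 150) (.n (nat_lit 82) (nat_lit 480) (.p (nat_lit 83) (nat_lit 1344) (.p (nat_lit 84) (nat_lit 1920) (.p (nat_lit 85) (nat_lit 1440) (.n (nat_lit 86) (nat_lit 1536) (.n (nat_lit 87) (nat_lit 96) (.p (nat_lit 88) (nat_lit 384) (.p (nat_lit 89) (nat_lit 96) (.p (nat_lit 90) (nat_lit 672) (.n (nat_lit 91) (nat_lit 1536) (.n (nat_lit 92) (nat_lit 288) (.n (nat_lit 93) (nat_lit 1536) (.p (nat_lit 94) (nat_lit 192) (.n (nat_lit 95) (nat_lit 288) (.n (nat_lit 96) (nat_lit 576) (.n (nat_lit 97) (nat_lit 288) (.p (nat_lit 98) (nat_lit 2016) (.n (nat_lit 99) (nat_lit 768) (.p (nat_lit 100) (nat_lit 288) (.n (nat_lit 102) (nat_lit 576) (.n (nat_lit 103) (nat_lit 480) (.p (nat_lit 104) (nat_lit 864) (.p (nat_lit 105) (nat_lit 384) (.n (nat_lit 106) (nat_lit 384) .z)))))))))))))))))))))))) (.ct dP8_c291 (nat_lit 1728) (nat_lit 4) (.s false (nat_lit 9) (nat_lit 6) (nat_lit 0) (nat_lit 2) (nat_lit 6) true (nat_lit 1) true (nat_lit 4) true (nat_lit 4) true (nat_lit 10) true (nat_lit 8) (.s false (nat_lit 3) (nat_lit 6) (nat_lit 0) (nat_lit 6) (nat_lit 2) true (nat_lit 5) true (nat_lit 8) true (nat_lit 4) true (nat_lit 10) true (nat_lit 4) (.s true (nat_lit 6) (nat_lit 6) (nat_lit 1) (nat_lit 5) (nat_lit 2) true (nat_lit 4) true (nat_lit 8) true (nat_lit 4) true (nat_lit 9) true (nat_lit 5) (.s true (nat_lit 3) (nat_lit 6) (nat_lit 2) (nat_lit 2) (nat_lit 3) true (nat_lit 1) true (nat_lit 7) true (nat_lit 4) true (nat_lit 8) true (nat_lit 8) (.s true (nat_lit 3) (nat_lit 6) (nat_lit 2) (nat_lit 5) (nat_lit 1) true (nat_lit 4) true (nat_lit 9) true (nat_lit 4) true (nat_lit 8) true (nat_lit 5) (.s true (nat_lit 1) (nat_lit 6) (nat_lit 3) (nat_lit 2) (nat_lit 2) true (nat_lit 1) true (nat_lit 8) true (nat_lit 4) true (nat_lit 7) true (nat_lit 8) (.s true (nat_lit 4) (nat_lit 7) (nat_lit 0) (nat_lit 1) (nat_lit 6) true (nat_lit 1) true (nat_lit 4) true (nat_lit 3) true (nat_lit 10) true (nat_lit 9) (.s false (nat_lit 3) (nat_lit 7) (nat_lit 1) (nat_lit 5) (nat_lit 1) true (nat_lit 6) true (nat_lit 9) true (nat_lit 3) true (nat_lit 9) true (nat_lit 5) (.s true (nat_lit 1) (nat_lit 7) (nat_lit 2) (nat_lit 3) (nat_lit 1) true (nat_lit 4) true (nat_lit 9) true (nat_lit 3) true (nat_lit 8) true (nat_lit 7) (.s true (nat_lit 3) (nat_lit 7) (nat_lit 4) (nat_lit 0) (nat_lit 2) true (nat_lit 0) true (nat_lit 8) true (nat_lit 3) true (nat_lit 6) true (nat_lit 10) (.s true (nat_lit 4) (nat_lit 7) (nat_lit 6) (nat_lit 1) (nat_lit 0) true (nat_lit 1) true (nat_lit 10) true (nat_lit 3) true (nat_lit 4) true (nat_lit 9) (.s true (nat_lit 1) (nat_lit 9) (nat_lit 2) (nat_lit 2) (nat_lit 2) true (nat_lit 3) true (nat_lit 8) true (nat_lit 2) true (nat_lit 8) true (nat_lit 8) (.s false (nat_lit 7) (nat_lit 10) (nat_lit 1) (nat_lit 2) (nat_lit 2) true (nat_lit 4) true (nat_lit 8) true (nat_lit 1) true (nat_lit 9) true (nat_lit 8) (.s false (nat_lit 4) (nat_lit 11) (nat_lit 1) (nat_lit 2) (nat_lit 2) true (nat_lit 4) true (nat_lit 8) true (nat_lit 1) true (nat_lit 9) true (nat_lit 8) (.s true (nat_lit 3) (nat_lit 10) (nat_lit 2) (nat_lit 1) (nat_lit 2) true (nat_lit 3) true (nat_lit 8) true (nat_lit 1) true (nat_lit 8) true (nat_lit 9) (.s false (nat_lit 2) (nat_lit 11) (nat_lit 2) (nat_lit 1) (nat_lit 2) true (nat_lit 3) true (nat_lit 8) true (nat_lit 1) true (nat_lit 8) true (nat_lit 9) (.s false (nat_lit 4) (nat_lit 10) (nat_lit 2) (nat_lit 2) (nat_lit 1) true (nat_lit 4) true (nat_lit 9) true (nat_lit 1) true (nat_lit 8) true (nat_lit 8) (.s true (nat_lit 4) (nat_lit 11) (nat_lit 2) (nat_lit 2) (nat_lit 1) true (nat_lit 4) true (nat_lit 9) true (nat_lit 1) true (nat_lit 8) true (nat_lit 8) (.s true (nat_lit 3) (nat_lit 13) (nat_lit 2) (nat_lit 2) (nat_lit 0) true (nat_lit 5) true (nat_lit 10) true (nat_lit 0) true (nat_lit 8) true (nat_lit 8) (.s true (nat_lit 6) (nat_lit 17) (nat_lit 0) (nat_lit 2) (nat_lit 1) true (nat_lit 7) true (nat_lit 9) false (nat_lit 1) true (nat_lit 10) true (nat_lit 8) (.s false (nat_lit 4) (nat_lit 18) (nat_lit 1) (nat_lit 0) (nat_lit 2) true (nat_lit 4) true (nat_lit 8) false (nat_lit 1) true (nat_lit 9) true (nat_lit 10) dP8_i2)))))))))))))))))))))) (.nd .leaf (nat_lit 31751) (nat_lit 204) (.p (nat_lit 108) (nat_lit 576) (.n (nat_lit 109) (nat_lit 2304) (.p (nat_lit 110) (nat_lit 576) (.p (nat_lit 111) (nat_lit 1728) (.n (nat_lit 112) (nat_lit 576) (.p (nat_lit 114) (nat_lit 864) (.p (nat_lit 115) (nat_lit 1440) (.n (nat_lit 116) (nat_lit 864) (.p (nat_lit 117) (nat_lit 576) (.p (nat_lit 118) (nat_lit 1440) (.p (nat_lit 119) (nat_lit 1440) (.n (nat_lit 120) (nat_lit 1440) (.n (nat_lit 121) (nat_lit 1440) (.n (nat_lit 123) (nat_lit 864) .z)))))))))))))) (.ct dP8_c276 (nat_lit 1152) (nat_lit 2) (.s true (nat_lit 1) (nat_lit 7) (nat_lit 0) (nat_lit 7) (nat_lit 1) true (nat_lit 5) true (nat_lit 7) true (nat_lit 2) true (nat_lit 8) true (nat_lit 2) (.s true (nat_lit 2) (nat_lit 7) (nat_lit 1) (nat_lit 0) (nat_lit 7) false (nat_lit 0) true (nat_lit 2) true (nat_lit 2) true (nat_lit 7) true (nat_lit 8) (.s true (nat_lit 1) (nat_lit 7) (nat_lit 2) (nat_lit 2) (nat_lit 3) true (nat_lit 1) true (nat_lit 5) true (nat_lit 2) true (nat_lit 6) true (nat_lit 6) (.s false (nat_lit 2) (nat_lit 7) (nat_lit 5) (nat_lit 2) (nat_lit 1) true (nat_lit 1) true (nat_lit 7) true (nat_lit 2) true (nat_lit 4) true (nat_lit 6) (.s false (nat_lit 2) (nat_lit 18) (nat_lit 2) (nat_lit 2) (nat_lit 0) true (nat_lit 4) true (nat_lit 8) false (nat_lit 0) true (nat_lit 6) true (nat_lit 6) (.s false (nat_lit 1) (nat_lit 19) (nat_lit 0) (nat_lit 1) (nat_lit 2) true (nat_lit 4) true (nat_lit 6) false (nat_lit 1) true (nat_lit 8) true (nat_lit 7) (.s false (nat_lit 1) (nat_lit 19) (nat_lit 1) (nat_lit 2) (nat_lit 0) true (nat_lit 5) true (nat_lit 8) false (nat_lit 1) true (nat_lit 7) true (nat_lit 6) (.s false (nat_lit 2) (nat_lit 19) (nat_lit 2) (nat_lit 0) (nat_lit 1) true (nat_lit 3) true (nat_lit 7) false (nat_lit 1) true (nat_lit 6) true (nat_lit 8) (.s true (nat_lit 1) (nat_lit 19) (nat_lit 2) (nat_lit 1) (nat_lit 0) true (nat_lit 4) true (nat_lit 8) false (nat_lit 1) true (nat_lit 6) true (nat_lit 7) (.e false (nat_lit 2304) (nat_lit 79) (nat_lit 0) (nat_lit 8) (.e false (nat_lit 1152) (nat_lit 26) (nat_lit 7) (nat_lit 2) (.e true (nat_lit 2304) (nat_lit 65) (nat_lit 2) (nat_lit 6) (.e true (nat_lit 2304) (nat_lit 57) (nat_lit 2) (nat_lit 6) (.e false (nat_lit 2304) (nat_lit 58) (nat_lit 2) (nat_lit 6) (.e false (nat_lit 1152) (nat_lit 40) (nat_lit 5) (nat_lit 4) (.e true (nat_lit 1152) (nat_lit 60) (nat_lit 2) (nat_lit 6) (.e false (nat_lit 2304) (nat_lit 56) (nat_lit 2) (nat_lit 6) (.e false (nat_lit 1152) (nat_lit 76) (nat_lit 1) (nat_lit 7) (.e true (nat_lit 1152) (nat_lit 37) (nat_lit 6) (nat_lit 3) .nil)))))))))))))))))))) .leaf)) (nat_lit 31761) (nat_lit 343) (.p (nat_lit 144) (nat_lit 2154) (.n (nat_lit 145) (nat_lit 6240) (.n (nat_lit 146) (nat_lit 6150) (.n (nat_lit 147) (nat_lit 4824) (.p (nat_lit 148) (nat_lit 5676) (.p (nat_lit 149) (nat_lit 1140) (.p (nat_lit 150) (nat_lit 480) (.n (nat_lit 151) (nat_lit 1374) (.n (nat_lit 152) (nat_lit 1554) (.p (nat_lit 153) (nat_lit 5478) (.n (nat_lit 154) (nat_lit 378) (.p (nat_lit 155) (nat_lit 5172) (.n (nat_lit 156) (nat_lit 840) (.p (nat_lit 157) (nat_lit 2736) (.p (nat_lit 158) (nat_lit 1989) (.n (nat_lit 159) (nat_lit 6597) (.p (nat_lit 160) (nat_lit 2685) (.n (nat_lit 161) (nat_lit 855) (.p (nat_lit 162) (nat_lit 288) (.p (nat_lit 163) (nat_lit 1098) (.p (nat_lit 164) (nat_lit 786) (.n (nat_lit 165) (nat_lit 270) (.n (nat_lit 166) (nat_lit 1986) (.p (nat_lit 167) (nat_lit 1914) (.p (nat_lit 168) (nat_lit 558) (.n (nat_lit 169) (nat_lit 72) (.p (nat_lit 170) (nat_lit 36) (.p (nat_lit 171) (nat_lit 72) (.n (nat_lit 172) (nat_lit 504) (.n (nat_lit 176) (nat_lit 18) (.p (nat_lit 177) (nat_lit 36) (.n (nat_lit 178) (nat_lit 1044) (.p (nat_lit 179) (nat_lit 468) (.n (nat_lit 180) (nat_lit 36) .z)))))))))))))))))))))))))))))))))) (.ct dP8_c292 (nat_lit 576) (nat_lit 1) (.s true (nat_lit 1) (nat_lit 6) (nat_lit 5) (nat_lit 2) (nat_lit 6) false (nat_lit 1) true (nat_lit 7) true (nat_lit 7) true (nat_lit 8) true (nat_lit 11) (.s false (nat_lit 1) (nat_lit 10) (nat_lit 2) (nat_lit 6) (nat_lit 2) true (nat_lit 6) true (nat_lit 11) true (nat_lit 4) true (nat_lit 11) true (nat_lit 7) (.s false (nat_lit 1) (nat_lit 10) (nat_lit 6) (nat_lit 2) (nat_lit 2) true (nat_lit 1) true (nat_lit 11) true (nat_lit 4) true (nat_lit 7) true (nat_lit 11) (.s true (nat_lit 1) (nat_lit 30) (nat_lit 1) (nat_lit 2) (nat_lit 2) true (nat_lit 7) true (nat_lit 11) false (nat_lit 1) true (nat_lit 12) true (nat_lit 11) (.s true (nat_lit 1) (nat_lit 27) (nat_lit 2) (nat_lit 1) (nat_lit 2) true (nat_lit 6) true (nat_lit 11) false (nat_lit 1) true (nat_lit 11) true (nat_lit 12) (.e false (nat_lit 576) (nat_lit 57) (nat_lit 6) (nat_lit 7) (.e false (nat_lit 576) (nat_lit 61) (nat_lit 6) (nat_lit 7) (.e true (nat_lit 576) (nat_lit 66) (nat_lit 6) (nat_lit 7) (.e false (nat_lit 288) (nat_lit 68) (nat_lit 5) (nat_lit 8) (.e true (nat_lit 288) (nat_lit 69) (nat_lit 5) (nat_lit 8) (.e false (nat_lit 288) (nat_lit 70) (nat_lit 5) (nat_lit 8) (.e true (nat_lit 288) (nat_lit 71) (nat_lit 5) (nat_lit 8) (.e true (nat_lit 576) (nat_lit 55) (nat_lit 7) (nat_lit 6) dP8_i75)))))))))))))) (.nd (.nd .leaf (nat_lit 31762) (nat_lit 350) (.p (nat_lit 144) (nat_lit 3392) (.n (nat_lit 145) (nat_lit 7616) (.n (nat_lit 146) (nat_lit 7808) (.n (nat_lit 147) (nat_lit 5760) (.p (nat_lit 148) (nat_lit 5824) (.p (nat_lit 149) (nat_lit 1024) (.p (nat_lit 150) (nat_lit 896) (.n (nat_lit 151) (nat_lit 2176) (.n (nat_lit 152) (nat_lit 1408) (.p (nat_lit 153) (nat_lit 7168) (.n (nat_lit 154) (nat_lit 960) (.p (nat_lit 155) (nat_lit 5632) (.n (nat_lit 156) (nat_lit 128) (.p (nat_lit 157) (nat_lit 2304) (.p (nat_lit 158) (nat_lit 3168) (.n (nat_lit 159) (nat_lit 7392) (.p (nat_lit 160) (nat_lit 3296) (.n (nat_lit 161) (nat_lit 1056) (.p (nat_lit 162) (nat_lit 192) (.p (nat_lit 163) (nat_lit 1344) (.p (nat_lit 164) (nat_lit 1280) (.n (nat_lit 165) (nat_lit 768) (.n (nat_lit 166) (nat_lit 2944) (.p (nat_lit 167) (nat_lit 2560) (.p (nat_lit 168) (nat_lit 960) (.p (nat_lit 169) (nat_lit 768) (.n (nat_lit 170) (nat_lit 960) (.n (nat_lit 171) (nat_lit 768) (.n (nat_lit 172) (nat_lit 768) (.p (nat_lit 173) (nat_lit 576) (.n (nat_lit 174) (nat_lit 576) (.p (nat_lit 176) (nat_lit 192) (.p (nat_lit 177) (nat_lit 192) (.n (nat_lit 178) (nat_lit 1536) (.p (nat_lit 179) (nat_lit 960) (.n (nat_lit 180) (nat_lit 192) .z)))))))))))))))))))))))))))))))))))) (.ct dP8_c292 (nat_lit 576) (nat_lit 1) (.s false (nat_lit 1) (nat_lit 31) (nat_lit 2) (nat_lit 2) (nat_lit 1) true (nat_lit 7) true (nat_lit 12) false (nat_lit 1) true (nat_lit 11) true (nat_lit 11) (.e false (nat_lit 576) (nat_lit 61) (nat_lit 6) (nat_lit 7) dP8_i79))) .leaf) (nat_lit 31763) (nat_lit 421) (.n (nat_lit 181) (nat_lit 288) (.p (nat_lit 182) (nat_lit 288) (.n (nat_lit 183) (nat_lit 576) (.p (nat_lit 184) (nat_lit 1152) (.n (nat_lit 185) (nat_lit 288) (.p (nat_lit 186) (nat_lit 144) (.p (nat_lit 187) (nat_lit 1152) (.n (nat_lit 188) (nat_lit 144) (.n (nat_lit 189) (nat_lit 1296) (.n (nat_lit 190) (nat_lit 1728) (.n (nat_lit 191) (nat_lit 1728) (.p (nat_lit 192) (nat_lit 288) (.p (nat_lit 193) (nat_lit 1152) (.p (nat_lit 194) (nat_lit 2016) (.n (nat_lit 196) (nat_lit 576) (.p (nat_lit 198) (nat_lit 576) .z)))))))))))))))) (.ct dP8_c277 (nat_lit 576) (nat_lit 0) (.s false (nat_lit 1) (nat_lit 31) (nat_lit 2) (nat_lit 2) (nat_lit 2) true (nat_lit 4) true (nat_lit 8) false (nat_lit 0) true (nat_lit 8) true (nat_lit 8) (.e false (nat_lit 576) (nat_lit 61) (nat_lit 7) (nat_lit 4) (.e true (nat_lit 576) (nat_lit 108) (nat_lit 2) (nat_lit 8) (.e false (nat_lit 2304) (nat_lit 109) (nat_lit 2) (nat_lit 8) (.e true (nat_lit 576) (nat_lit 110) (nat_lit 2) (nat_lit 8) (.e true (nat_lit 1728) (nat_lit 111) (nat_lit 2) (nat_lit 8) (.e false (nat_lit 576) (nat_lit 112) (nat_lit 2) (nat_lit 8) (.e true (nat_lit 864) (nat_lit 114) (nat_lit 2) (nat_lit 8) (.e true (nat_lit 1440) (nat_lit 115) (nat_lit 2) (nat_lit 8) (.e false (nat_lit 864) (nat_lit 116) (nat_lit 2) (nat_lit 8) (.e true (nat_lit 576) (nat_lit 117) (nat_lit 2) (nat_lit 8) (.e true (nat_lit 1440) (nat_lit 118) (nat_lit 2) (nat_lit 8) (.e true (nat_lit 1440) (nat_lit 119) (nat_lit 2) (nat_lit 8) (.e false (nat_lit 1440) (nat_lit 120) (nat_lit 2) (nat_lit 8) (.e false (nat_lit 1440) (nat_lit 121) (nat_lit 2) (nat_lit 8) (.e false (nat_lit 864) (nat_lit 123) (nat_lit 2) (nat_lit 8) .nil))))))))))))))))) .leaf))) (nat_lit 32768) (nat_lit 59) (.p (nat_lit 52) (nat_lit 576) .z) .df (.nd (.nd (.nd (.nd .leaf (nat_lit 32770) (nat_lit 95) (.p (nat_lit 67) (nat_lit 576) .z) .df .leaf) (nat_lit 32773) (nat_lit 165) (.n (nat_lit 82) (nat_lit 192) (.p (nat_lit 83) (nat_lit 192) (.p (nat_lit 84) (nat_lit 192) (.n (nat_lit 85) (nat_lit 576) (.p (nat_lit 86) (nat_lit 192) (.n (nat_lit 87) (nat_lit 960) (.n (nat_lit 88) (nat_lit 768) (.p (nat_lit 89) (nat_lit 384) (.n (nat_lit 90) (nat_lit 192) (.n (nat_lit 91) (nat_lit 384) (.n (nat_lit 93) (nat_lit 384) (.p (nat_lit 94) (nat_lit 192) (.p (nat_lit 95) (nat_lit 576) (.n (nat_lit 97) (nat_lit 1728) (.p (nat_lit 98) (nat_lit 576) (.n (nat_lit 99) (nat_lit 192) (.p (nat_lit 100) (nat_lit 576) (.p (nat_lit 101) (nat_lit 576) (.p (nat_lit 103) (nat_lit 384) (.n (nat_lit 104) (nat_lit 576) (.p (nat_lit 105) (nat_lit 384) (.n (nat_lit 106) (nat_lit 384) .z)))))))))))))))))))))) (.ct dP8_c291 (nat_lit 576) (nat_lit 5) (.s true (nat_lit 1) (nat_lit 13) (nat_lit 0) (nat_lit 2) (nat_lit 2) true (nat_lit 5) true (nat_lit 8) true (nat_lit 0) true (nat_lit 10) true (nat_lit 8) (.s true (nat_lit 1) (nat_lit 13) (nat_lit 2) (nat_lit 0) (nat_lit 2) true (nat_lit 3) true (nat_lit 8) true (nat_lit 0) true (nat_lit 8) true (nat_lit 10) (.e true (nat_lit 1152) (nat_lit 46) (nat_lit 2) (nat_lit 8) (.e true (nat_lit 1728) (nat_lit 68) (nat_lit 0) (nat_lit 10) (.e false (nat_lit 576) (nat_lit 69) (nat_lit 0) (nat_lit 10) (.e false (nat_lit 576) (nat_lit 71) (nat_lit 0) (nat_lit 10) (.e false (nat_lit 576) (nat_lit 72) (nat_lit 0) (nat_lit 10) (.e true (nat_lit 1152) (nat_lit 52) (nat_lit 2) (nat_lit 8) (.e false (nat_lit 576) (nat_lit 25) (nat_lit 7) (nat_lit 3) (.e false (nat_lit 576) (nat_lit 43) (nat_lit 2) (nat_lit 8) (.e true (nat_lit 576) (nat_lit 48) (nat_lit 2) (nat_lit 8) (.e false (nat_lit 576) (nat_lit 49) (nat_lit 2) (nat_lit 8) (.e true (nat_lit 1152) (nat_lit 53) (nat_lit 2) (nat_lit 8) (.e true (nat_lit 576) (nat_lit 55) (nat_lit 2) (nat_lit 8) .nil))))))))))))))) (.nd .leaf (nat_lit 32775) (nat_lit 237) (.n (nat_lit 125) (nat_lit 1152) (.p (nat_lit 126) (nat_lit 1152) (.p (nat_lit 128) (nat_lit 576) (.n (nat_lit 129) (nat_lit 576) (.n (nat_lit 131) (nat_lit 576) (.p (nat_lit 132) (nat_lit 576) .z)))))) (.ct dP8_c36 (nat_lit 576) (nat_lit 2) (.s true (nat_lit 1) (nat_lit 7) (nat_lit 4) (nat_lit 2) (nat_lit 2) true (nat_lit 1) true (nat_lit 5) true (nat_lit 2) true (nat_lit 4) true (nat_lit 5) (.s false (nat_lit 1) (nat_lit 19) (nat_lit 1) (nat_lit 1) (nat_lit 2) true (nat_lit 3) true (nat_lit 5) false (nat_lit 1) true (nat_lit 6) true (nat_lit 6) (.e true (nat_lit 1728) (nat_lit 68) (nat_lit 2) (nat_lit 5) (.e false (nat_lit 576) (nat_lit 69) (nat_lit 2) (nat_lit 5) (.e false (nat_lit 576) (nat_lit 67) (nat_lit 2) (nat_lit 5) (.e false (nat_lit 1152) (nat_lit 71) (nat_lit 2) (nat_lit 5) (.e false (nat_lit 576) (nat_lit 72) (nat_lit 2) (nat_lit 5) (.e false (nat_lit 576) (nat_lit 40) (nat_lit 6) (nat_lit 3) (.e true (nat_lit 576) (nat_lit 79) (nat_lit 1) (nat_lit 6) .nil)))))))))) .leaf)) (nat_lit 32783) (nat_lit 364) (.p (nat_lit 144) (nat_lit 3192) (.n (nat_lit 145) (nat_lit 384) (.n (nat_lit 146) (nat_lit 1608) (.n (nat_lit 147) (nat_lit 2016) (.n (nat_lit 148) (nat_lit 3696) (.n (nat_lit 149) (nat_lit 1104) (.n (nat_lit 150) (nat_lit 3072) (.n (nat_lit 151) (nat_lit 1128) (.p (nat_lit 152) (nat_lit 744) (.n (nat_lit 153) (nat_lit 3192) (.p (nat_lit 154) (nat_lit 72) (.n (nat_lit 155) (nat_lit 2832) (.p (nat_lit 156) (nat_lit 1632) (.n (nat_lit 157) (nat_lit 1152) (.n (nat_lit 158) (nat_lit 324) (.n (nat_lit 159) (nat_lit 828) (.n (nat_lit 160) (nat_lit 228) (.p (nat_lit 161) (nat_lit 108) (.p (nat_lit 163) (nat_lit 504) (.p (nat_lit 164) (nat_lit 1464) (.p (nat_lit 165) (nat_lit 5976) (.p (nat_lit 166) (nat_lit 3048) (.n (nat_lit 167) (nat_lit 1608) (.n (nat_lit 168) (nat_lit 2520) (.p (nat_lit 169) (nat_lit 1440) (.n (nat_lit 170) (nat_lit 1296) (.n (nat_lit 171) (nat_lit 2016) (.n (nat_lit 172) (nat_lit 1440) (.p (nat_lit 175) (nat_lit 576) (.p (nat_lit 176) (nat_lit 648) (.n (nat_lit 177) (nat_lit 720) (.n (nat_lit 178) (nat_lit 144) (.p (nat_lit 179) (nat_lit 144) (.p (nat_lit 180) (nat_lit 1296) .z)))))))))))))))))))))))))))))))))) (.ct dP8_c292 (nat_lit 576) (nat_lit 2) (.s true (nat_lit 1) (nat_lit 32) (nat_lit 0) (nat_lit 2) (nat_lit 2) true (nat_lit 8) true (nat_lit 11) false (nat_lit 2) true (nat_lit 13) true (nat_lit 11) (.e true (nat_lit 576) (nat_lit 67) (nat_lit 5) (nat_lit 8) (.e true (nat_lit 576) (nat_lit 87) (nat_lit 2) (nat_lit 11) (.e true (nat_lit 1152) (nat_lit 125) (nat_lit 0) (nat_lit 13) (.e false (nat_lit 1152) (nat_lit 126) (nat_lit 0) (nat_lit 13) (.e false (nat_lit 576) (nat_lit 128) (nat_lit 0) (nat_lit 13) (.e true (nat_lit 576) (nat_lit 129) (nat_lit 0) (nat_lit 13) (.e true (nat_lit 576) (nat_lit 131) (nat_lit 0) (nat_lit 13) (.e false (nat_lit 576) (nat_lit 132) (nat_lit 0) (nat_lit 13) (.e true (nat_lit 576) (nat_lit 96) (nat_lit 2) (nat_lit 11) .nil))))))))))) (.nd (.nd .leaf (nat_lit 32784) (nat_lit 377) (.n (nat_lit 144) (nat_lit 3376) (.p (nat_lit 145) (nat_lit 22624) (.p (nat_lit 146) (nat_lit 20848) (.p (nat_lit 147) (nat_lit 11520) (.n (nat_lit 148) (nat_lit 24128) (.n (nat_lit 149) (nat_lit 7904) (.n (nat_lit 150) (nat_lit 12352) (.p (nat_lit 151) (nat_lit 4016) (.p (nat_lit 152) (nat_lit 3632) (.n (nat_lit 153) (nat_lit 25232) (.p (nat_lit 154) (nat_lit 4368) (.n (nat_lit 155) (nat_lit 20000) (.p (nat_lit 156) (nat_lit 3616) (.n (nat_lit 157) (nat_lit 8640) (.n (nat_lit 158) (nat_lit 15768) (.p (nat_lit 159) (nat_lit 21336) (.n (nat_lit 160) (nat_lit 10744) (.p (nat_lit 161) (nat_lit 5064) (.p (nat_lit 162) (nat_lit 2784) (.n (nat_lit 163) (nat_lit 1392) (.p (nat_lit 164) (nat_lit 848) (.p (nat_lit 165) (nat_lit 8016) (.p (nat_lit 166) (nat_lit 11888) (.n (nat_lit 167) (nat_lit 9392) (.n (nat_lit 168) (nat_lit 7248) (.p (nat_lit 169) (nat_lit 2496) (.n (nat_lit 170) (nat_lit 1248) (.n (nat_lit 171) (nat_lit 4224) (.n (nat_lit 172) (nat_lit 2496) (.p (nat_lit 175) (nat_lit 1152) (.p (nat_lit 176) (nat_lit 1488) (.n (nat_lit 177) (nat_lit 1248) (.p (nat_lit 178) (nat_lit 4224) (.n (nat_lit 179) (nat_lit 3648) (.p (nat_lit 180) (nat_lit 1248) .z))))))))))))))))))))))))))))))))))) (.ct dP8_c292 (nat_lit 576) (nat_lit 2) (.s true (nat_lit 1) (nat_lit 16) (nat_lit 1) (nat_lit 7) (nat_lit 1) true (nat_lit 9) true (nat_lit 12) true (nat_lit 2) true (nat_lit 12) true (nat_lit 6) (.e false (nat_lit 1152) (nat_lit 74) (nat_lit 4) (nat_lit 9) (.e false (nat_lit 1152) (nat_lit 75) (nat_lit 4) (nat_lit 9) (.e true (nat_lit 1152) (nat_lit 121) (nat_lit 1) (nat_lit 12) (.e false (nat_lit 576) (nat_lit 33) (nat_lit 16) (nat_lit 2) (.e false (nat_lit 576) (nat_lit 34) (nat_lit 16) (nat_lit 2) (.e false (nat_lit 1152) (nat_lit 117) (nat_lit 1) (nat_lit 12) (.e false (nat_lit 1152) (nat_lit 119) (nat_lit 1) (nat_lit 12) (.e true (nat_lit 1152) (nat_lit 120) (nat_lit 1) (nat_lit 12) (.e true (nat_lit 576) (nat_lit 51) (nat_lit 7) (nat_lit 6) .nil))))))))))) .leaf) (nat_lit 32787) (nat_lit 464) (.p (nat_lit 200) (nat_lit 1728) (.n (nat_lit 201) (nat_lit 1728) (.n (nat_lit 202) (nat_lit 576) (.p (nat_lit 204) (nat_lit 576) (.n (nat_lit 205) (nat_lit 1728) (.p (nat_lit 206) (nat_lit 3456) (.n (nat_lit 207) (nat_lit 4032) (.n (nat_lit 208) (nat_lit 1728) (.p (nat_lit 209) (nat_lit 576) .z))))))))) (.ct dP8_c37 (nat_lit 576) (nat_lit 0) (.s false (nat_lit 1) (nat_lit 14) (nat_lit 2) (nat_lit 2) (nat_lit 7) true (nat_lit 0) true (nat_lit 3) true (nat_lit 2) true (nat_lit 6) true (nat_lit 6) (.s true (nat_lit 1) (nat_lit 19) (nat_lit 1) (nat_lit 7) (nat_lit 1) true (nat_lit 5) true (nat_lit 7) true (nat_lit 0) true (nat_lit 7) true (nat_lit 3) (.e false (nat_lit 576) (nat_lit 68) (nat_lit 7) (nat_lit 3) (.e true (nat_lit 576) (nat_lit 132) (nat_lit 2) (nat_lit 6) (.e false (nat_lit 2304) (nat_lit 140) (nat_lit 1) (nat_lit 7) (.e true (nat_lit 2304) (nat_lit 141) (nat_lit 1) (nat_lit 7) (.e true (nat_lit 1152) (nat_lit 142) (nat_lit 1) (nat_lit 7) (.e false (nat_lit 576) (nat_lit 34) (nat_lit 19) (nat_lit 0) (.e true (nat_lit 576) (nat_lit 71) (nat_lit 7) (nat_lit 3) .nil)))))))))) (.nd .leaf (nat_lit 33792) (nat_lit 60) (.p (nat_lit 53) (nat_lit 576) .z) .df .leaf))) (nat_lit 33794) (nat_lit 96) (.p (nat_lit 68) (nat_lit 576) .z) .df (.nd (.nd (.nd .leaf (nat_lit 33797) (nat_lit 156) (.n (nat_lit 82) (nat_lit 576) (.p (nat_lit 86) (nat_lit 576) (.n (nat_lit 88) (nat_lit 576) (.p (nat_lit 89) (nat_lit 576) (.p (nat_lit 95) (nat_lit 576) (.n (nat_lit 98) (nat_lit 576) (.n (nat_lit 104) (nat_lit 576) (.p (nat_lit 105) (nat_lit 576) (.n (nat_lit 106) (nat_lit 576) .z))))))))) (.ct dP8_c291 (nat_lit 576) (nat_lit 5) (.s true (nat_lit 1) (nat_lit 6) (nat_lit 0) (nat_lit 2) (nat_lit 6) true (nat_lit 1) true (nat_lit 4) true (nat_lit 4) true (nat_lit 10) true (nat_lit 8) (.s true (nat_lit 1) (nat_lit 6) (nat_lit 0) (nat_lit 6) (nat_lit 2) true (nat_lit 5) true (nat_lit 8) true (nat_lit 4) true (nat_lit 10) true (nat_lit 4) (.s false (nat_lit 1) (nat_lit 6) (nat_lit 2) (nat_lit 2) (nat_lit 3) true (nat_lit 1) true (nat_lit 7) true (nat_lit 4) true (nat_lit 8) true (nat_lit 8) (.s false (nat_lit 1) (nat_lit 6) (nat_lit 2) (nat_lit 5) (nat_lit 1) true (nat_lit 4) true (nat_lit 9) true (nat_lit 4) true (nat_lit 8) true (nat_lit 5) (.s true (nat_lit 1) (nat_lit 10) (nat_lit 1) (nat_lit 2) (nat_lit 2) true (nat_lit 4) true (nat_lit 8) true (nat_lit 1) true (nat_lit 9) true (nat_lit 8) (.s true (nat_lit 1) (nat_lit 17) (nat_lit 1) (nat_lit 2) (nat_lit 0) true (nat_lit 7) true (nat_lit 10) false (nat_lit 1) true (nat_lit 9) true (nat_lit 8) (.e true (nat_lit 576) (nat_lit 28) (nat_lit 6) (nat_lit 4) (.e true (nat_lit 576) (nat_lit 26) (nat_lit 6) (nat_lit 4) (.e false (nat_lit 576) (nat_lit 27) (nat_lit 6) (nat_lit 4) (.e true (nat_lit 576) (nat_lit 69) (nat_lit 0) (nat_lit 10) (.e true (nat_lit 576) (nat_lit 43) (nat_lit 2) (nat_lit 8) (.e false (nat_lit 576) (nat_lit 47) (nat_lit 2) (nat_lit 8) (.e true (nat_lit 576) (nat_lit 53) (nat_lit 2) (nat_lit 8) (.e false (nat_lit 576) (nat_lit 55) (nat_lit 2) (nat_lit 8) (.e false (nat_lit 576) (nat_lit 65) (nat_lit 1) (nat_lit 9) .nil)))))))))))))))) .leaf) (nat_lit 33799) (nat_lit 231) (.p (nat_lit 132) (nat_lit 576) .z) .df (.nd .leaf (nat_lit 33807) (nat_lit 383) (.n (nat_lit 144) (nat_lit 778) (.p (nat_lit 145) (nat_lit 208) (.p (nat_lit 146) (nat_lit 502) (.p (nat_lit 147) (nat_lit 1368) (.p (nat_lit 148) (nat_lit 4) (.p (nat_lit 149) (nat_lit 460) (.p (nat_lit 150) (nat_lit 2432) (.n (nat_lit 151) (nat_lit 370) (.p (nat_lit 152) (nat_lit 434) (.n (nat_lit 153) (nat_lit 326) (.n (nat_lit 154) (nat_lit 150) (.p (nat_lit 155) (nat_lit 172) (.n (nat_lit 156) (nat_lit 8) (.n (nat_lit 157) (nat_lit 720) (.p (nat_lit 158) (nat_lit 1899) (.p (nat_lit 159) (nat_lit 501) (.p (nat_lit 160) (nat_lit 323) (.n (nat_lit 161) (nat_lit 633) (.n (nat_lit 162) (nat_lit 1104) (.n (nat_lit 163) (nat_lit 618) (.n (nat_lit 164) (nat_lit 658) (.p (nat_lit 165) (nat_lit 366) (.n (nat_lit 166) (nat_lit 382) (.p (nat_lit 167) (nat_lit 646) (.n (nat_lit 168) (nat_lit 174) (.p (nat_lit 169) (nat_lit 840) (.n (nat_lit 170) (nat_lit 708) (.n (nat_lit 171) (nat_lit 552) (.n (nat_lit 172) (nat_lit 840) (.n (nat_lit 175) (nat_lit 288) (.p (nat_lit 176) (nat_lit 66) (.n (nat_lit 177) (nat_lit 132) (.n (nat_lit 178) (nat_lit 348) (.p (nat_lit 179) (nat_lit 348) (.p (nat_lit 180) (nat_lit 708) .z))))))))))))))))))))))))))))))))))) (.ct dP8_c292 (nat_lit 576) (nat_lit 2) (.s true (nat_lit 1) (nat_lit 33) (nat_lit 0) (nat_lit 2) (nat_lit 2) true (nat_lit 8) true (nat_lit 11) false (nat_lit 2) true (nat_lit 13) true (nat_lit 11) (.e true (nat_lit 576) (nat_lit 68) (nat_lit 5) (nat_lit 8) (.e true (nat_lit 576) (nat_lit 88) (nat_lit 2) (nat_lit 11) (.e false (nat_lit 576) (nat_lit 132) (nat_lit 0) (nat_lit 13) (.e true (nat_lit 576) (nat_lit 97) (nat_lit 2) (nat_lit 11) .nil)))))) .leaf)) (nat_lit 33808) (nat_lit 349) (.n (nat_lit 144) (nat_lit 5192) (.p (nat_lit 145) (nat_lit 5600) (.p (nat_lit 146) (nat_lit 7448) (.p (nat_lit 147) (nat_lit 5472) (.n (nat_lit 148) (nat_lit 1936) (.n (nat_lit 149) (nat_lit 1744) (.p (nat_lit 150) (nat_lit 3136) (.p (nat_lit 151) (nat_lit 376) (.p (nat_lit 152) (nat_lit 1192) (.n (nat_lit 153) (nat_lit 3640) (.p (nat_lit 154) (nat_lit 744) (.n (nat_lit 155) (nat_lit 1744) (.n (nat_lit 156) (nat_lit 1024) (.n (nat_lit 157) (nat_lit 1728) (.n (nat_lit 158) (nat_lit 1764) (.p (nat_lit 159) (nat_lit 5412) (.n (nat_lit 160) (nat_lit 1316) (.p (nat_lit 161) (nat_lit 588) (.n (nat_lit 162) (nat_lit 480) (.n (nat_lit 163) (nat_lit 1992) (.n (nat_lit 164) (nat_lit 1640) (.n (nat_lit 165) (nat_lit 744) (.p (nat_lit 166) (nat_lit 1000) (.n (nat_lit 167) (nat_lit 328) (.n (nat_lit 168) (nat_lit 600) (.p (nat_lit 169) (nat_lit 672) (.n (nat_lit 170) (nat_lit 336) (.n (nat_lit 171) (nat_lit 96) (.n (nat_lit 172) (nat_lit 672) (.n (nat_lit 175) (nat_lit 576) (.n (nat_lit 176) (nat_lit 120) (.n (nat_lit 177) (nat_lit 336) (.p (nat_lit 178) (nat_lit 240) (.p (nat_lit 179) (nat_lit 336) (.p (nat_lit 180) (nat_lit 336) .z))))))))))))))))))))))))))))))))))) (.ct dP8_c292 (nat_lit 576) (nat_lit 2) (.s false (nat_lit 1) (nat_lit 33) (nat_lit 2) (nat_lit 2) (nat_lit 0) true (nat_lit 8) true (nat_lit 13) false (nat_lit 2) true (nat_lit 11) true (nat_lit 11) (.e false (nat_lit 576) (nat_lit 68) (nat_lit 5) (nat_lit 8) (.e false (nat_lit 576) (nat_lit 125) (nat_lit 0) (nat_lit 13) (.e true (nat_lit 576) (nat_lit 82) (nat_lit 2) (nat_lit 11) (.e false (nat_lit 576) (nat_lit 86) (nat_lit 2) (nat_lit 11) (.e true (nat_lit 1152) (nat_lit 88) (nat_lit 2) (nat_lit 11) (.e false (nat_lit 576) (nat_lit 89) (nat_lit 2) (nat_lit 11) (.e false (nat_lit 576) (nat_lit 95) (nat_lit 2) (nat_lit 11) (.e true (nat_lit 576) (nat_lit 98) (nat_lit 2) (nat_lit 11) (.e true (nat_lit 576) (nat_lit 104) (nat_lit 2) (nat_lit 11) (.e false (nat_lit 576) (nat_lit 105) (nat_lit 2) (nat_lit 11) (.e true (nat_lit 576) (nat_lit 106) (nat_lit 2) (nat_lit 11) .nil))))))))))))) (.nd (.nd .leaf (nat_lit 33811) (nat_lit 470) (.n (nat_lit 205) (nat_lit 576) (.p (nat_lit 209) (nat_lit 576) .z)) (.ct dP8_c37 (nat_lit 576) (nat_lit 0) (.s false (nat_lit 1) (nat_lit 14) (nat_lit 2) (nat_lit 2) (nat_lit 7) true (nat_lit 0) true (nat_lit 3) true (nat_lit 2) true (nat_lit 6) true (nat_lit 6) (.e false (nat_lit 576) (nat_lit 68) (nat_lit 7) (nat_lit 3) (.e true (nat_lit 576) (nat_lit 132) (nat_lit 2) (nat_lit 6) .nil)))) .leaf) (nat_lit 34816) (nat_lit 61) (.p (nat_lit 54) (nat_lit 576) .z) .df .leaf))))) (nat_lit 34818) (nat_lit 97) (.p (nat_lit 69) (nat_lit 576) .z) .df (.nd (.nd (.nd (.nd (.nd (.nd .leaf (nat_lit 34821) (nat_lit 149) (.p (nat_lit 82) (nat_lit 288) (.n (nat_lit 83) (nat_lit 576) (.n (nat_lit 85) (nat_lit 864) (.p (nat_lit 86) (nat_lit 576) (.n (nat_lit 87) (nat_lit 288) (.n (nat_lit 88) (nat_lit 576) (.n (nat_lit 89) (nat_lit 288) (.n (nat_lit 90) (nat_lit 288) (.n (nat_lit 92) (nat_lit 288) (.p (nat_lit 95) (nat_lit 288) (.p (nat_lit 96) (nat_lit 576) (.n (nat_lit 97) (nat_lit 864) (.n (nat_lit 98) (nat_lit 288) (.p (nat_lit 100) (nat_lit 288) (.p (nat_lit 101) (nat_lit 576) (.p (nat_lit 103) (nat_lit 288) (.n (nat_lit 104) (nat_lit 288) (.p (nat_lit 107) (nat_lit 576) .z)))))))))))))))))) (.ct dP8_c291 (nat_lit 1152) (nat_lit 5) (.s true (nat_lit 2) (nat_lit 6) (nat_lit 0) (nat_lit 6) (nat_lit 2) true (nat_lit 5) true (nat_lit 8) true (nat_lit 4) true (nat_lit 10) true (nat_lit 4) (.s false (nat_lit 1) (nat_lit 6) (nat_lit 2) (nat_lit 2) (nat_lit 3) true (nat_lit 1) true (nat_lit 7) true (nat_lit 4) true (nat_lit 8) true (nat_lit 8) (.s false (nat_lit 1) (nat_lit 6) (nat_lit 2) (nat_lit 5) (nat_lit 1) true (nat_lit 4) true (nat_lit 9) true (nat_lit 4) true (nat_lit 8) true (nat_lit 5) (.s false (nat_lit 1) (nat_lit 6) (nat_lit 5) (nat_lit 2) (nat_lit 1) true (nat_lit 1) true (nat_lit 9) true (nat_lit 4) true (nat_lit 5) true (nat_lit 8) dP8_i1))))) .leaf) (nat_lit 34823) (nat_lit 236) (.p (nat_lit 124) (nat_lit 576) (.n (nat_lit 125) (nat_lit 1728) (.p (nat_lit 126) (nat_lit 576) (.p (nat_lit 128) (nat_lit 576) (.p (nat_lit 129) (nat_lit 576) (.p (nat_lit 132) (nat_lit 576) .z)))))) (.ct dP8_c36 (nat_lit 576) (nat_lit 2) (.s false (nat_lit 1) (nat_lit 7) (nat_lit 2) (nat_lit 6) (nat_lit 1) true (nat_lit 3) true (nat_lit 6) true (nat_lit 2) true (nat_lit 5) true (nat_lit 3) (.e false (nat_lit 576) (nat_lit 40) (nat_lit 6) (nat_lit 3) (.e false (nat_lit 576) (nat_lit 79) (nat_lit 1) (nat_lit 6) (.e true (nat_lit 576) (nat_lit 80) (nat_lit 1) (nat_lit 6) (.e true (nat_lit 576) (nat_lit 72) (nat_lit 2) (nat_lit 5) .nil)))))) (.nd .leaf (nat_lit 34831) (nat_lit 352) (.n (nat_lit 144) (nat_lit 604) (.p (nat_lit 145) (nat_lit 4048) (.p (nat_lit 146) (nat_lit 2740) (.p (nat_lit 147) (nat_lit 2448) (.n (nat_lit 148) (nat_lit 5048) (.n (nat_lit 149) (nat_lit 1208) (.n (nat_lit 150) (nat_lit 1696) (.p (nat_lit 151) (nat_lit 1028) (.p (nat_lit 152) (nat_lit 1292) (.n (nat_lit 153) (nat_lit 4676) (.p (nat_lit 154) (nat_lit 876) (.n (nat_lit 155) (nat_lit 3800) (.p (nat_lit 156) (nat_lit 1024) (.n (nat_lit 157) (nat_lit 2304) (.n (nat_lit 158) (nat_lit 1422) (.p (nat_lit 159) (nat_lit 3246) (.n (nat_lit 160) (nat_lit 1582) (.p (nat_lit 161) (nat_lit 474) (.n (nat_lit 162) (nat_lit 528) (.n (nat_lit 163) (nat_lit 348) (.p (nat_lit 164) (nat_lit 20) (.p (nat_lit 165) (nat_lit 2868) (.p (nat_lit 166) (nat_lit 2636) (.n (nat_lit 167) (nat_lit 2012) (.n (nat_lit 168) (nat_lit 2388) (.p (nat_lit 169) (nat_lit 1200) (.n (nat_lit 170) (nat_lit 888) (.n (nat_lit 171) (nat_lit 1488) (.n (nat_lit 172) (nat_lit 1200) (.p (nat_lit 175) (nat_lit 288) (.p (nat_lit 176) (nat_lit 444) (.n (nat_lit 177) (nat_lit 312) (.p (nat_lit 178) (nat_lit 552) (.n (nat_lit 179) (nat_lit 552) (.p (nat_lit 180) (nat_lit 888) .z))))))))))))))))))))))))))))))))))) (.ct dP8_c292 (nat_lit 576) (nat_lit 2) (.s false (nat_lit 1) (nat_lit 34) (nat_lit 2) (nat_lit 0) (nat_lit 2) true (nat_lit 6) true (nat_lit 11) false (nat_lit 2) true (nat_lit 11) true (nat_lit 13) (.e true (nat_lit 576) (nat_lit 54) (nat_lit 7) (nat_lit 6) (.e false (nat_lit 864) (nat_lit 98) (nat_lit 2) (nat_lit 11) (.e true (nat_lit 288) (nat_lit 82) (nat_lit 2) (nat_lit 11) (.e false (nat_lit 576) (nat_lit 83) (nat_lit 2) (nat_lit 11) (.e false (nat_lit 864) (nat_lit 85) (nat_lit 2) (nat_lit 11) (.e true (nat_lit 576) (nat_lit 86) (nat_lit 2) (nat_lit 11) (.e false (nat_lit 288) (nat_lit 87) (nat_lit 2) (nat_lit 11) (.e false (nat_lit 576) (nat_lit 88) (nat_lit 2) (nat_lit 11) (.e false (nat_lit 288) (nat_lit 89) (nat_lit 2) (nat_lit 11) (.e false (nat_lit 288) (nat_lit 90) (nat_lit 2) (nat_lit 11) (.e false (nat_lit 288) (nat_lit 92) (nat_lit 2) (nat_lit 11) (.e true (nat_lit 288) (nat_lit 95) (nat_lit 2) (nat_lit 11) (.e true (nat_lit 576) (nat_lit 96) (nat_lit 2) (nat_lit 11) (.e false (nat_lit 864) (nat_lit 97) (nat_lit 2) (nat_lit 11) (.e true (nat_lit 288) (nat_lit 100) (nat_lit 2) (nat_lit 11) (.e true (nat_lit 576) (nat_lit 101) (nat_lit 2) (nat_lit 11) (.e true (nat_lit 288) (nat_lit 103) (nat_lit 2) (nat_lit 11) (.e false (nat_lit 288) (nat_lit 104) (nat_lit 2) (nat_lit 11) (.e true (nat_lit 576) (nat_lit 107) (nat_lit 2) (nat_lit 11) (.e false (nat_lit 576) (nat_lit 126) (nat_lit 0) (nat_lit 13) .nil)))))))))))))))))))))) .leaf)) (nat_lit 34832) (nat_lit 341) (.n (nat_lit 144) (nat_lit 3152) (.p (nat_lit 145) (nat_lit 13856) (.p (nat_lit 146) (nat_lit 13328) (.p (nat_lit 147) (nat_lit 7488) (.n (nat_lit 148) (nat_lit 14272) (.n (nat_lit 149) (nat_lit 5152) (.n (nat_lit 150) (nat_lit 5696) (.p (nat_lit 151) (nat_lit 2128) (.p (nat_lit 152) (nat_lit 2512) (.n (nat_lit 153) (nat_lit 15472) (.p (nat_lit 154) (nat_lit 2544) (.n (nat_lit 155) (nat_lit 11488) (.p (nat_lit 156) (nat_lit 1760) (.n (nat_lit 157) (nat_lit 5184) (.n (nat_lit 158) (nat_lit 9000) (.p (nat_lit 159) (nat_lit 12648) (.n (nat_lit 160) (nat_lit 6152) (.p (nat_lit 161) (nat_lit 3000) (.p (nat_lit 162) (nat_lit 1248) (.n (nat_lit 163) (nat_lit 1488) (.p (nat_lit 164) (nat_lit 112) (.p (nat_lit 165) (nat_lit 5232) (.p (nat_lit 166) (nat_lit 7504) (.n (nat_lit 167) (nat_lit 5392) (.n (nat_lit 168) (nat_lit 4272) (.p (nat_lit 169) (nat_lit 2112) (.n (nat_lit 170) (nat_lit 1056) (.n (nat_lit 171) (nat_lit 2688) (.n (nat_lit 172) (nat_lit 2112) (.p (nat_lit 175) (nat_lit 576) (.p (nat_lit 176) (nat_lit 816) (.n (nat_lit 177) (nat_lit 1056) (.p (nat_lit 178) (nat_lit 2112) (.n (nat_lit 179) (nat_lit 1536) (.p (nat_lit 180) (nat_lit 1056) .z))))))))))))))))))))))))))))))))))) (.ct dP8_c292 (nat_lit 2304) (nat_lit 2) (.s false (nat_lit 1) (nat_lit 7) (nat_lit 0) (nat_lit 4) (nat_lit 7) true (nat_lit 2) true (nat_lit 6) true (nat_lit 6) true (nat_lit 13) true (nat_lit 9) (.s false (nat_lit 2) (nat_lit 7) (nat_lit 0) (nat_lit 7) (nat_lit 4) true (nat_lit 5) true (nat_lit 9) true (nat_lit 6) true (nat_lit 13) true (nat_lit 6) (.s true (nat_lit 2) (nat_lit 13) (nat_lit 0) (nat_lit 2) (nat_lit 7) true (nat_lit 2) true (nat_lit 6) true (nat_lit 3) true (nat_lit 13) true (nat_lit 11) (.s false (nat_lit 2) (nat_lit 13) (nat_lit 2) (nat_lit 2) (nat_lit 5) true (nat_lit 2) true (nat_lit 8) true (nat_lit 3) true (nat_lit 11) true (nat_lit 11) (.s false (nat_lit 2) (nat_lit 16) (nat_lit 1) (nat_lit 7) (nat_lit 1) true (nat_lit 9) true (nat_lit 12) true (nat_lit 2) true (nat_lit 12) true (nat_lit 6) (.s true (nat_lit 2) (nat_lit 32) (nat_lit 0) (nat_lit 2) (nat_lit 2) true (nat_lit 8) true (nat_lit 11) false (nat_lit 2) true (nat_lit 13) true (nat_lit 11) (.e false (nat_lit 2304) (nat_lit 43) (nat_lit 7) (nat_lit 6) (.e true (nat_lit 2304) (nat_lit 44) (nat_lit 7) (nat_lit 6) (.e true (nat_lit 2304) (nat_lit 45) (nat_lit 7) (nat_lit 6) (.e true (nat_lit 3456) (nat_lit 46) (nat_lit 7) (nat_lit 6) (.e true (nat_lit 3456) (nat_lit 53) (nat_lit 7) (nat_lit 6) (.e false (nat_lit 3456) (nat_lit 54) (nat_lit 7) (nat_lit 6) (.e true (nat_lit 1152) (nat_lit 96) (nat_lit 2) (nat_lit 11) (.e true (nat_lit 3456) (nat_lit 97) (nat_lit 2) (nat_lit 11) (.e false (nat_lit 1152) (nat_lit 98) (nat_lit 2) (nat_lit 11) (.e false (nat_lit 1152) (nat_lit 100) (nat_lit 2) (nat_lit 11) (.e false (nat_lit 1152) (nat_lit 101) (nat_lit 2) (nat_lit 11) (.e true (nat_lit 2304) (nat_lit 87) (nat_lit 2) (nat_lit 11) (.e false (nat_lit 1152) (nat_lit 103) (nat_lit 2) (nat_lit 11) (.e false (nat_lit 2304) (nat_lit 121) (nat_lit 1) (nat_lit 12) (.e true (nat_lit 2304) (nat_lit 117) (nat_lit 1) (nat_lit 12) (.e true (nat_lit 2304) (nat_lit 119) (nat_lit 1) (nat_lit 12) (.e false (nat_lit 2304) (nat_lit 120) (nat_lit 1) (nat_lit 12) (.e false (nat_lit 1152) (nat_lit 51) (nat_lit 7) (nat_lit 6) .nil))))))))))))))))))))))))) (.nd (.nd .leaf (nat_lit 34835) (nat_lit 453) (.n (nat_lit 205) (nat_lit 576) (.n (nat_lit 206) (nat_lit 1152) (.p (nat_lit 207) (nat_lit 1152) (.p (nat_lit 208) (nat_lit 576) (.p (nat_lit 209) (nat_lit 576) .z))))) (.ct dP8_c37 (nat_lit 1152) (nat_lit 0) (.s false (nat_lit 1) (nat_lit 7) (nat_lit 1) (nat_lit 7) (nat_lit 6) true (nat_lit 2) true (nat_lit 4) true (nat_lit 3) true (nat_lit 7) true (nat_lit 3) (.s false (nat_lit 2) (nat_lit 14) (nat_lit 2) (nat_lit 2) (nat_lit 7) true (nat_lit 0) true (nat_lit 3) true (nat_lit 2) true (nat_lit 6) true (nat_lit 6) (.s true (nat_lit 1) (nat_lit 18) (nat_lit 7) (nat_lit 1) (nat_lit 2) true (nat_lit 0) true (nat_lit 6) true (nat_lit 1) true (nat_lit 3) true (nat_lit 7) (.s true (nat_lit 2) (nat_lit 19) (nat_lit 1) (nat_lit 6) (nat_lit 2) true (nat_lit 4) true (nat_lit 6) true (nat_lit 0) true (nat_lit 7) true (nat_lit 4) (.s false (nat_lit 1) (nat_lit 19) (nat_lit 1) (nat_lit 7) (nat_lit 1) true (nat_lit 5) true (nat_lit 7) true (nat_lit 0) true (nat_lit 7) true (nat_lit 3) (.s false (nat_lit 2) (nat_lit 19) (nat_lit 2) (nat_lit 1) (nat_lit 6) true (nat_lit 1) true (nat_lit 4) true (nat_lit 0) true (nat_lit 6) true (nat_lit 7) (.s false (nat_lit 2) (nat_lit 19) (nat_lit 2) (nat_lit 6) (nat_lit 1) true (nat_lit 4) true (nat_lit 7) true (nat_lit 0) true (nat_lit 6) true (nat_lit 4) (.s true (nat_lit 1) (nat_lit 39) (nat_lit 1) (nat_lit 2) (nat_lit 2) true (nat_lit 4) true (nat_lit 6) false (nat_lit 1) true (nat_lit 7) true (nat_lit 6) (.s false (nat_lit 1) (nat_lit 39) (nat_lit 2) (nat_lit 1) (nat_lit 2) true (nat_lit 3) true (nat_lit 6) false (nat_lit 1) true (nat_lit 6) true (nat_lit 7) (.s true (nat_lit 2) (nat_lit 40) (nat_lit 2) (nat_lit 1) (nat_lit 2) true (nat_lit 3) true (nat_lit 6) false (nat_lit 1) true (nat_lit 6) true (nat_lit 7) (.s true (nat_lit 1) (nat_lit 39) (nat_lit 2) (nat_lit 2) (nat_lit 1) true (nat_lit 4) true (nat_lit 7) false (nat_lit 1) true (nat_lit 6) true (nat_lit 6) (.e false (nat_lit 1152) (nat_lit 68) (nat_lit 7) (nat_lit 3) (.e true (nat_lit 2304) (nat_lit 140) (nat_lit 1) (nat_lit 7) (.e false (nat_lit 2304) (nat_lit 141) (nat_lit 1) (nat_lit 7) (.e true (nat_lit 1152) (nat_lit 132) (nat_lit 2) (nat_lit 6) (.e false (nat_lit 1152) (nat_lit 142) (nat_lit 1) (nat_lit 7) .nil))))))))))))))))) .leaf) (nat_lit 35841) (nat_lit 93) (.n (nat_lit 56) (nat_lit 576) (.p (nat_lit 57) (nat_lit 576) (.n (nat_lit 58) (nat_lit 576) (.p (nat_lit 59) (nat_lit 576) (.p (nat_lit 62) (nat_lit 576) (.p (nat_lit 65) (nat_lit 576) (.n (nat_lit 66) (nat_lit 576) .z))))))) (.ct dP8_c275 (nat_lit 576) (nat_lit 5) (.s true (nat_lit 1) (nat_lit 5) (nat_lit 2) (nat_lit 2) (nat_lit 1) true (nat_lit 1) true (nat_lit 5) true (nat_lit 2) true (nat_lit 4) true (nat_lit 4) (.e true (nat_lit 576) (nat_lit 15) (nat_lit 6) (nat_lit 1) (.e false (nat_lit 576) (nat_lit 18) (nat_lit 5) (nat_lit 2) (.e true (nat_lit 576) (nat_lit 26) (nat_lit 2) (nat_lit 4) (.e false (nat_lit 1152) (nat_lit 27) (nat_lit 2) (nat_lit 4) (.e false (nat_lit 576) (nat_lit 30) (nat_lit 2) (nat_lit 4) (.e false (nat_lit 576) (nat_lit 31) (nat_lit 2) (nat_lit 4) .nil)))))))) (.nd .leaf (nat_lit 35842) (nat_lit 106) (.p (nat_lit 73) (nat_lit 576) .z) .df .leaf))) (nat_lit 35844) (nat_lit 183) (.p (nat_lit 82) (nat_lit 1536) (.n (nat_lit 83) (nat_lit 3264) (.n (nat_lit 84) (nat_lit 2688) (.n (nat_lit 85) (nat_lit 4032) (.p (nat_lit 86) (nat_lit 3648) (.n (nat_lit 87) (nat_lit 384) (.n (nat_lit 88) (nat_lit 3072) (.n (nat_lit 89) (nat_lit 192) (.n (nat_lit 90) (nat_lit 1920) (.p (nat_lit 91) (nat_lit 1344) (.n (nat_lit 92) (nat_lit 576) (.p (nat_lit 93) (nat_lit 768) (.p (nat_lit 94) (nat_lit 768) (.p (nat_lit 95) (nat_lit 2304) (.p (nat_lit 96) (nat_lit 1152) (.n (nat_lit 97) (nat_lit 864) (.n (nat_lit 98) (nat_lit 2592) (.p (nat_lit 99) (nat_lit 672) (.p (nat_lit 100) (nat_lit 288) (.p (nat_lit 101) (nat_lit 1152) (.p (nat_lit 102) (nat_lit 1152) (.p (nat_lit 103) (nat_lit 1536) (.n (nat_lit 104) (nat_lit 2304) (.n (nat_lit 105) (nat_lit 192) (.p (nat_lit 106) (nat_lit 192) (.p (nat_lit 107) (nat_lit 576) .z)))))))))))))))))))))))))) (.ct dP8_c291 (nat_lit 576) (nat_lit 6) (.s true (nat_lit 1) (nat_lit 15) (nat_lit 1) (nat_lit 2) (nat_lit 1) true (nat_lit 6) true (nat_lit 9) false (nat_lit 0) true (nat_lit 9) true (nat_lit 8) (.e true (nat_lit 576) (nat_lit 59) (nat_lit 1) (nat_lit 9) (.e false (nat_lit 576) (nat_lit 15) (nat_lit 14) (nat_lit 0) (.e false (nat_lit 576) (nat_lit 66) (nat_lit 1) (nat_lit 9) (.e false (nat_lit 576) (nat_lit 50) (nat_lit 2) (nat_lit 8) .nil)))))) (.nd (.nd (.nd .leaf (nat_lit 35846) (nat_lit 198) (.p (nat_lit 122) (nat_lit 576) .z) .df .leaf) (nat_lit 35847) (nat_lit 250) (.p (nat_lit 135) (nat_lit 576) (.p (nat_lit 136) (nat_lit 576) (.p (nat_lit 138) (nat_lit 576) .z))) (.ct dP8_c261 (nat_lit 576) (nat_lit 1) (.s true (nat_lit 1) (nat_lit 7) (nat_lit 5) (nat_lit 2) (nat_lit 2) true (nat_lit 0) true (nat_lit 3) true (nat_lit 1) true (nat_lit 2) true (nat_lit 3) (.e true (nat_lit 576) (nat_lit 19) (nat_lit 15) (nat_lit 0) (.e false (nat_lit 576) (nat_lit 74) (nat_lit 2) (nat_lit 3) (.e true (nat_lit 576) (nat_lit 76) (nat_lit 2) (nat_lit 3) .nil))))) (.nd .leaf (nat_lit 35853) (nat_lit 380) (.n (nat_lit 144) (nat_lit 1824) (.n (nat_lit 145) (nat_lit 192) (.p (nat_lit 146) (nat_lit 1824) (.p (nat_lit 148) (nat_lit 1536) (.n (nat_lit 149) (nat_lit 2496) (.p (nat_lit 150) (nat_lit 4224) (.n (nat_lit 151) (nat_lit 2400) (.p (nat_lit 152) (nat_lit 480) (.p (nat_lit 153) (nat_lit 96) (.n (nat_lit 154) (nat_lit 288) (.p (nat_lit 155) (nat_lit 960) (.n (nat_lit 156) (nat_lit 768) (.n (nat_lit 157) (nat_lit 576) (.p (nat_lit 158) (nat_lit 432) (.p (nat_lit 159) (nat_lit 720) (.p (nat_lit 160) (nat_lit 1200) (.n (nat_lit 161) (nat_lit 144) (.n (nat_lit 162) (nat_lit 576) (.n (nat_lit 163) (nat_lit 1440) (.n (nat_lit 164) (nat_lit 384) (.p (nat_lit 165) (nat_lit 2016) (.n (nat_lit 166) (nat_lit 96) (.p (nat_lit 167) (nat_lit 1248) (.n (nat_lit 168) (nat_lit 864) (.p (nat_lit 169) (nat_lit 1152) (.n (nat_lit 170) (nat_lit 1152) (.n (nat_lit 171) (nat_lit 576) (.n (nat_lit 172) (nat_lit 1152) (.n (nat_lit 175) (nat_lit 576) (.n (nat_lit 177) (nat_lit 576) (.n (nat_lit 178) (nat_lit 2016) (.p (nat_lit 179) (nat_lit 2016) (.p (nat_lit 180) (nat_lit 1152) .z))))))))))))))))))))))))))))))))) (.ct dP8_c292 (nat_lit 576) (nat_lit 3) (.s false (nat_lit 1) (nat_lit 13) (nat_lit 5) (nat_lit 2) (nat_lit 2) true (nat_lit 2) true (nat_lit 11) true (nat_lit 3) true (nat_lit 8) true (nat_lit 11) (.e false (nat_lit 576) (nat_lit 32) (nat_lit 15) (nat_lit 2) (.e false (nat_lit 1152) (nat_lit 87) (nat_lit 2) (nat_lit 11) (.e true (nat_lit 576) (nat_lit 103) (nat_lit 2) (nat_lit 11) (.e true (nat_lit 576) (nat_lit 67) (nat_lit 5) (nat_lit 8) (.e false (nat_lit 1728) (nat_lit 68) (nat_lit 5) (nat_lit 8) (.e true (nat_lit 576) (nat_lit 69) (nat_lit 5) (nat_lit 8) (.e true (nat_lit 576) (nat_lit 71) (nat_lit 5) (nat_lit 8) (.e true (nat_lit 576) (nat_lit 72) (nat_lit 5) (nat_lit 8) (.e false (nat_lit 576) (nat_lit 85) (nat_lit 2) (nat_lit 11) (.e false (nat_lit 1728) (nat_lit 97) (nat_lit 2) (nat_lit 11) (.e true (nat_lit 576) (nat_lit 98) (nat_lit 2) (nat_lit 11) (.e true (nat_lit 576) (nat_lit 100) (nat_lit 2) (nat_lit 11) (.e true (nat_lit 576) (nat_lit 101) (nat_lit 2) (nat_lit 11) .nil))))))))))))))) .leaf)) (nat_lit 35854) (nat_lit 375) (.n (nat_lit 144) (nat_lit 3554) (.p (nat_lit 145) (nat_lit 11792) (.p (nat_lit 146) (nat_lit 11102) (.p (nat_lit 147) (nat_lit 7992) (.n (nat_lit 148) (nat_lit 11980) (.n (nat_lit 149) (nat_lit 3364) (.n (nat_lit 150) (nat_lit 2624) (.p (nat_lit 151) (nat_lit 1942) (.p (nat_lit 152) (nat_lit 2794) (.n (nat_lit 153) (nat_lit 12910) (.p (nat_lit 154) (nat_lit 1986) (.n (nat_lit 155) (nat_lit 9412) (.p (nat_lit 156) (nat_lit 1496) (.n (nat_lit 157) (nat_lit 5328) (.n (nat_lit 158) (nat_lit 4545) (.p (nat_lit 159) (nat_lit 10209) (.n (nat_lit 160) (nat_lit 4745) (.p (nat_lit 161) (nat_lit 1515) (.n (nat_lit 162) (nat_lit 912) (.n (nat_lit 163) (nat_lit 1794) (.n (nat_lit 164) (nat_lit 650) (.p (nat_lit 165) (nat_lit 4854) (.p (nat_lit 166) (nat_lit 6202) (.n (nat_lit 167) (nat_lit 4306) (.n (nat_lit 168) (nat_lit 3894) (.p (nat_lit 169) (nat_lit 2472) (.n (nat_lit 170) (nat_lit 1524) (.n (nat_lit 171) (nat_lit 2760) (.n (nat_lit 172) (nat_lit 2472) (.p (nat_lit 175) (nat_lit 288) (.p (nat_lit 176) (nat_lit 762) (.n (nat_lit 177) (nat_lit 948) (.p (nat_lit 178) (nat_lit 1428) (.n (nat_lit 179) (nat_lit 1428) (.p (nat_lit 180) (nat_lit 1524) .z))))))))))))))))))))))))))))))))))) (.ct dP8_c292 (nat_lit 576) (nat_lit 3) (.s false (nat_lit 1) (nat_lit 15) (nat_lit 6) (nat_lit 2) (nat_lit 1) true (nat_lit 3) true (nat_lit 12) true (nat_lit 2) true (nat_lit 7) true (nat_lit 11) (.e true (nat_lit 288) (nat_lit 108) (nat_lit 1) (nat_lit 12) (.e false (nat_lit 288) (nat_lit 109) (nat_lit 1) (nat_lit 12) (.e false (nat_lit 288) (nat_lit 112) (nat_lit 1) (nat_lit 12) (.e false (nat_lit 288) (nat_lit 113) (nat_lit 1) (nat_lit 12) (.e false (nat_lit 144) (nat_lit 114) (nat_lit 1) (nat_lit 12) (.e false (nat_lit 144) (nat_lit 115) (nat_lit 1) (nat_lit 12) (.e false (nat_lit 144) (nat_lit 116) (nat_lit 1) (nat_lit 12) (.e true (nat_lit 144) (nat_lit 118) (nat_lit 1) (nat_lit 12) (.e true (nat_lit 144) (nat_lit 119) (nat_lit 1) (nat_lit 12) (.e false (nat_lit 144) (nat_lit 120) (nat_lit 1) (nat_lit 12) (.e false (nat_lit 144) (nat_lit 121) (nat_lit 1) (nat_lit 12) (.e false (nat_lit 144) (nat_lit 123) (nat_lit 1) (nat_lit 12) (.e false (nat_lit 576) (nat_lit 34) (nat_lit 15) (nat_lit 2) (.e true (nat_lit 576) (nat_lit 66) (nat_lit 6) (nat_lit 7) (.e false (nat_lit 576) (nat_lit 107) (nat_lit 2) (nat_lit 11) .nil))))))))))))))))) (.nd (.nd .leaf (nat_lit 36865) (nat_lit 81) (.p (nat_lit 62) (nat_lit 576) .z) .df .leaf) (nat_lit 36866) (nat_lit 107) (.p (nat_lit 74) (nat_lit 576) .z) .df .leaf))) (nat_lit 36868) (nat_lit 166) (.p (nat_lit 82) (nat_lit 2112) (.n (nat_lit 83) (nat_lit 4416) (.n (nat_lit 84) (nat_lit 5568) (.n (nat_lit 85) (nat_lit 2880) (.p (nat_lit 86) (nat_lit 3648) (.p (nat_lit 87) (nat_lit 1920) (.n (nat_lit 88) (nat_lit 768) (.p (nat_lit 89) (nat_lit 384) (.n (nat_lit 90) (nat_lit 1344) (.p (nat_lit 91) (nat_lit 3072) (.n (nat_lit 92) (nat_lit 1152) (.p (nat_lit 93) (nat_lit 1920) (.p (nat_lit 94) (nat_lit 1344) (.p (nat_lit 95) (nat_lit 1728) (.p (nat_lit 96) (nat_lit 576) (.p (nat_lit 97) (nat_lit 2304) (.n (nat_lit 98) (nat_lit 3456) (.p (nat_lit 99) (nat_lit 1536) (.n (nat_lit 100) (nat_lit 1152) (.n (nat_lit 101) (nat_lit 576) (.p (nat_lit 102) (nat_lit 1152) (.p (nat_lit 103) (nat_lit 384) (.n (nat_lit 104) (nat_lit 1728) (.n (nat_lit 105) (nat_lit 768) (.p (nat_lit 106) (nat_lit 768) (.p (nat_lit 107) (nat_lit 1152) .z)))))))))))))))))))))))))) (.ct dP8_c291 (nat_lit 576) (nat_lit 6) (.s false (nat_lit 1) (nat_lit 7) (nat_lit 2) (nat_lit 4) (nat_lit 0) true (nat_lit 5) true (nat_lit 10) true (nat_lit 3) true (nat_lit 8) true (nat_lit 6) (.e true (nat_lit 1152) (nat_lit 33) (nat_lit 5) (nat_lit 5) (.e false (nat_lit 1152) (nat_lit 34) (nat_lit 5) (nat_lit 5) (.e true (nat_lit 576) (nat_lit 67) (nat_lit 0) (nat_lit 10) (.e false (nat_lit 576) (nat_lit 68) (nat_lit 0) (nat_lit 10) (.e false (nat_lit 576) (nat_lit 69) (nat_lit 0) (nat_lit 10) (.e true (nat_lit 576) (nat_lit 71) (nat_lit 0) (nat_lit 10) (.e true (nat_lit 576) (nat_lit 72) (nat_lit 0) (nat_lit 10) (.e true (nat_lit 576) (nat_lit 25) (nat_lit 7) (nat_lit 3) (.e true (nat_lit 576) (nat_lit 43) (nat_lit 2) (nat_lit 8) (.e false (nat_lit 1152) (nat_lit 44) (nat_lit 2) (nat_lit 8) (.e false (nat_lit 1152) (nat_lit 45) (nat_lit 2) (nat_lit 8) (.e false (nat_lit 1152) (nat_lit 46) (nat_lit 2) (nat_lit 8) (.e true (nat_lit 576) (nat_lit 48) (nat_lit 2) (nat_lit 8) (.e false (nat_lit 576) (nat_lit 49) (nat_lit 2) (nat_lit 8) (.e false (nat_lit 576) (nat_lit 52) (nat_lit 2) (nat_lit 8) (.e true (nat_lit 1152) (nat_lit 54) (nat_lit 2) (nat_lit 8) (.e true (nat_lit 576) (nat_lit 55) (nat_lit 2) (nat_lit 8) .nil))))))))))))))))))) (.nd (.nd (.nd (.nd .leaf (nat_lit 36870) (nat_lit 207) (.n (nat_lit 108) (nat_lit 1152) (.p (nat_lit 109) (nat_lit 1152) (.p (nat_lit 112) (nat_lit 1152) (.p (nat_lit 113) (nat_lit 1152) (.p (nat_lit 116) (nat_lit 576) (.n (nat_lit 117) (nat_lit 576) (.n (nat_lit 118) (nat_lit 576) (.n (nat_lit 119) (nat_lit 1152) (.p (nat_lit 120) (nat_lit 1152) (.p (nat_lit 121) (nat_lit 576) .z)))))))))) (.ct dP8_c276 (nat_lit 576) (nat_lit 3) (.s true (nat_lit 1) (nat_lit 16) (nat_lit 1) (nat_lit 2) (nat_lit 2) true (nat_lit 3) true (nat_lit 6) true (nat_lit 0) true (nat_lit 7) true (nat_lit 6) (.s false (nat_lit 1) (nat_lit 16) (nat_lit 2) (nat_lit 1) (nat_lit 2) true (nat_lit 2) true (nat_lit 6) true (nat_lit 0) true (nat_lit 6) true (nat_lit 7) (.e true (nat_lit 1152) (nat_lit 60) (nat_lit 2) (nat_lit 6) (.e false (nat_lit 576) (nat_lit 74) (nat_lit 1) (nat_lit 7) (.e false (nat_lit 1152) (nat_lit 75) (nat_lit 1) (nat_lit 7) (.e false (nat_lit 1152) (nat_lit 62) (nat_lit 2) (nat_lit 6) (.e false (nat_lit 576) (nat_lit 30) (nat_lit 7) (nat_lit 2) (.e false (nat_lit 1152) (nat_lit 56) (nat_lit 2) (nat_lit 6) (.e true (nat_lit 1152) (nat_lit 57) (nat_lit 2) (nat_lit 6) (.e true (nat_lit 1152) (nat_lit 61) (nat_lit 2) (nat_lit 6) (.e true (nat_lit 576) (nat_lit 64) (nat_lit 2) (nat_lit 6) (.e true (nat_lit 576) (nat_lit 65) (nat_lit 2) (nat_lit 6) .nil))))))))))))) .leaf) (nat_lit 36871) (nat_lit 244) (.p (nat_lit 137) (nat_lit 576) .z) .df (.nd .leaf (nat_lit 36877) (nat_lit 372) (.n (nat_lit 144) (nat_lit 6592) (.p (nat_lit 145) (nat_lit 8416) (.p (nat_lit 146) (nat_lit 11104) (.p (nat_lit 147) (nat_lit 7488) (.n (nat_lit 148) (nat_lit 3488) (.n (nat_lit 149) (nat_lit 2816) (.p (nat_lit 150) (nat_lit 5312) (.p (nat_lit 151) (nat_lit 224) (.p (nat_lit 152) (nat_lit 1280) (.n (nat_lit 153) (nat_lit 5888) (.p (nat_lit 154) (nat_lit 1056) (.n (nat_lit 155) (nat_lit 3392) (.n (nat_lit 156) (nat_lit 800) (.n (nat_lit 157) (nat_lit 2304) (.n (nat_lit 158) (nat_lit 3168) (.p (nat_lit 159) (nat_lit 9888) (.n (nat_lit 160) (nat_lit 2368) (.p (nat_lit 161) (nat_lit 1248) (.n (nat_lit 162) (nat_lit 96) (.n (nat_lit 163) (nat_lit 2688) (.n (nat_lit 164) (nat_lit 2368) (.n (nat_lit 165) (nat_lit 1920) (.p (nat_lit 166) (nat_lit 320) (.p (nat_lit 167) (nat_lit 448) (.n (nat_lit 168) (nat_lit 768) (.p (nat_lit 169) (nat_lit 768) (.n (nat_lit 170) (nat_lit 384) (.n (nat_lit 171) (nat_lit 192) (.n (nat_lit 172) (nat_lit 768) (.n (nat_lit 175) (nat_lit 1152) (.n (nat_lit 176) (nat_lit 96) (.n (nat_lit 177) (nat_lit 384) (.n (nat_lit 178) (nat_lit 96) (.p (nat_lit 179) (nat_lit 672) (.p (nat_lit 180) (nat_lit 384) .z))))))))))))))))))))))))))))))))))) (.ct dP8_c292 (nat_lit 576) (nat_lit 3) (.s false (nat_lit 1) (nat_lit 36) (nat_lit 1) (nat_lit 1) (nat_lit 2) true (nat_lit 7) true (nat_lit 11) false (nat_lit 3) true (nat_lit 12) true (nat_lit 12) (.e false (nat_lit 576) (nat_lit 62) (nat_lit 6) (nat_lit 7) (.e false (nat_lit 576) (nat_lit 94) (nat_lit 2) (nat_lit 11) (.e false (nat_lit 1152) (nat_lit 108) (nat_lit 1) (nat_lit 12) (.e true (nat_lit 1152) (nat_lit 109) (nat_lit 1) (nat_lit 12) (.e true (nat_lit 1152) (nat_lit 112) (nat_lit 1) (nat_lit 12) (.e true (nat_lit 1152) (nat_lit 113) (nat_lit 1) (nat_lit 12) (.e true (nat_lit 576) (nat_lit 116) (nat_lit 1) (nat_lit 12) (.e false (nat_lit 576) (nat_lit 117) (nat_lit 1) (nat_lit 12) (.e false (nat_lit 1152) (nat_lit 119) (nat_lit 1) (nat_lit 12) (.e true (nat_lit 1152) (nat_lit 120) (nat_lit 1) (nat_lit 12) (.e true (nat_lit 576) (nat_lit 121) (nat_lit 1) (nat_lit 12) .nil))))))))))))) .leaf)) (nat_lit 36878) (nat_lit 368) (.n (nat_lit 144) (nat_lit 4240) (.p (nat_lit 145) (nat_lit 13408) (.p (nat_lit 146) (nat_lit 13648) (.p (nat_lit 147) (nat_lit 7488) (.n (nat_lit 148) (nat_lit 12032) (.n (nat_lit 149) (nat_lit 5600) (.n (nat_lit 150) (nat_lit 3136) (.p (nat_lit 151) (nat_lit 2000) (.p (nat_lit 152) (nat_lit 2192) (.n (nat_lit 153) (nat_lit 13424) (.p (nat_lit 154) (nat_lit 2352) (.n (nat_lit 155) (nat_lit 10208) (.p (nat_lit 156) (nat_lit 736) (.n (nat_lit 157) (nat_lit 4608) (.n (nat_lit 158) (nat_lit 8424) (.p (nat_lit 159) (nat_lit 12840) (.n (nat_lit 160) (nat_lit 5704) (.p (nat_lit 161) (nat_lit 3192) (.p (nat_lit 162) (nat_lit 1632) (.n (nat_lit 163) (nat_lit 1680) (.n (nat_lit 164) (nat_lit 16) (.p (nat_lit 165) (nat_lit 2544) (.p (nat_lit 166) (nat_lit 5264) (.n (nat_lit 167) (nat_lit 3920) (.n (nat_lit 168) (nat_lit 3504) (.p (nat_lit 169) (nat_lit 1344) (.n (nat_lit 170) (nat_lit 672) (.n (nat_lit 171) (nat_lit 1920) (.n (nat_lit 172) (nat_lit 1344) (.p (nat_lit 175) (nat_lit 576) (.p (nat_lit 176) (nat_lit 624) (.n (nat_lit 177) (nat_lit 672) (.p (nat_lit 178) (nat_lit 1344) (.n (nat_lit 179) (nat_lit 768) (.p (nat_lit 180) (nat_lit 672) .z))))))))))))))))))))))))))))))))))) (.ct dP8_c292 (nat_lit 576) (nat_lit 3) (.s false (nat_lit 1) (nat_lit 36) (nat_lit 1) (nat_lit 2) (nat_lit 1) true (nat_lit 9) true (nat_lit 12) false (nat_lit 3) true (nat_lit 12) true (nat_lit 11) (.e false (nat_lit 576) (nat_lit 74) (nat_lit 4) (nat_lit 9) (.e false (nat_lit 576) (nat_lit 114) (nat_lit 1) (nat_lit 12) (.e false (nat_lit 1152) (nat_lit 108) (nat_lit 1) (nat_lit 12) (.e true (nat_lit 1152) (nat_lit 109) (nat_lit 1) (nat_lit 12) (.e true (nat_lit 1152) (nat_lit 112) (nat_lit 1) (nat_lit 12) (.e true (nat_lit 1152) (nat_lit 113) (nat_lit 1) (nat_lit 12) (.e true (nat_lit 576) (nat_lit 116) (nat_lit 1) (nat_lit 12) (.e false (nat_lit 576) (nat_lit 117) (nat_lit 1) (nat_lit 12) (.e false (nat_lit 576) (nat_lit 118) (nat_lit 1) (nat_lit 12) (.e false (nat_lit 1152) (nat_lit 119) (nat_lit 1) (nat_lit 12) (.e true (nat_lit 1152) (nat_lit 120) (nat_lit 1) (nat_lit 12) (.e true (nat_lit 576) (nat_lit 121) (nat_lit 1) (nat_lit 12) (.e true (nat_lit 576) (nat_lit 94) (nat_lit 2) (nat_lit 11) .nil))))))))))))))) (.nd (.nd .leaf (nat_lit 36882) (nat_lit 432) (.n (nat_lit 181) (nat_lit 576) (.p (nat_lit 182) (nat_lit 576) (.p (nat_lit 185) (nat_lit 576) (.n (nat_lit 186) (nat_lit 1440) (.n (nat_lit 187) (nat_lit 1152) (.p (nat_lit 188) (nat_lit 288) (.p (nat_lit 189) (nat_lit 864) (.p (nat_lit 190) (nat_lit 576) (.p (nat_lit 191) (nat_lit 576) (.n (nat_lit 192) (nat_lit 576) (.n (nat_lit 193) (nat_lit 576) (.n (nat_lit 194) (nat_lit 576) (.p (nat_lit 195) (nat_lit 1152) (.p (nat_lit 196) (nat_lit 1152) (.n (nat_lit 198) (nat_lit 576) .z))))))))))))))) (.ct dP8_c277 (nat_lit 576) (nat_lit 1) (.s true (nat_lit 1) (nat_lit 7) (nat_lit 1) (nat_lit 5) (nat_lit 7) true (nat_lit 1) true (nat_lit 4) true (nat_lit 4) true (nat_lit 9) true (nat_lit 6) (.s true (nat_lit 2) (nat_lit 7) (nat_lit 2) (nat_lit 7) (nat_lit 3) true (nat_lit 3) true (nat_lit 7) true (nat_lit 4) true (nat_lit 8) true (nat_lit 4) (.s true (nat_lit 1) (nat_lit 37) (nat_lit 2) (nat_lit 2) (nat_lit 1) true (nat_lit 5) true (nat_lit 9) false (nat_lit 1) true (nat_lit 8) true (nat_lit 8) (.e true (nat_lit 1152) (nat_lit 57) (nat_lit 7) (nat_lit 4) (.e false (nat_lit 1152) (nat_lit 58) (nat_lit 7) (nat_lit 4) (.e true (nat_lit 576) (nat_lit 62) (nat_lit 7) (nat_lit 4) (.e false (nat_lit 1152) (nat_lit 56) (nat_lit 7) (nat_lit 4) (.e false (nat_lit 576) (nat_lit 63) (nat_lit 7) (nat_lit 4) (.e false (nat_lit 1152) (nat_lit 135) (nat_lit 1) (nat_lit 9) (.e false (nat_lit 576) (nat_lit 136) (nat_lit 1) (nat_lit 9) (.e true (nat_lit 2304) (nat_lit 117) (nat_lit 2) (nat_lit 8) (.e true (nat_lit 576) (nat_lit 75) (nat_lit 6) (nat_lit 5) (.e false (nat_lit 576) (nat_lit 123) (nat_lit 2) (nat_lit 8) (.e false (nat_lit 576) (nat_lit 115) (nat_lit 2) (nat_lit 8) .nil))))))))))))))) .leaf) (nat_lit 37889) (nat_lit 82) (.p (nat_lit 63) (nat_lit 576) .z) .df (.nd .leaf (nat_lit 37890) (nat_lit 108) (.p (nat_lit 75) (nat_lit 576) .z) .df .leaf))) (nat_lit 37892) (nat_lit 171) (.n (nat_lit 82) (nat_lit 1728) (.p (nat_lit 83) (nat_lit 1152) (.p (nat_lit 85) (nat_lit 576) (.n (nat_lit 87) (nat_lit 576) (.p (nat_lit 89) (nat_lit 1728) (.p (nat_lit 90) (nat_lit 576) (.p (nat_lit 92) (nat_lit 576) (.p (nat_lit 95) (nat_lit 576) (.n (nat_lit 97) (nat_lit 576) (.n (nat_lit 98) (nat_lit 576) (.p (nat_lit 100) (nat_lit 576) (.n (nat_lit 104) (nat_lit 576) (.p (nat_lit 105) (nat_lit 1152) (.n (nat_lit 106) (nat_lit 1152) (.n (nat_lit 107) (nat_lit 1152) .z))))))))))))))) (.ct dP8_c291 (nat_lit 576) (nat_lit 6) (.s false (nat_lit 1) (nat_lit 7) (nat_lit 1) (nat_lit 5) (nat_lit 1) true (nat_lit 6) true (nat_lit 9) true (nat_lit 3) true (nat_lit 9) true (nat_lit 5) (.e true (nat_lit 576) (nat_lit 36) (nat_lit 4) (nat_lit 6) (.e false (nat_lit 1152) (nat_lit 57) (nat_lit 1) (nat_lit 9) (.e true (nat_lit 1152) (nat_lit 58) (nat_lit 1) (nat_lit 9) (.e false (nat_lit 576) (nat_lit 62) (nat_lit 1) (nat_lit 9) (.e false (nat_lit 1152) (nat_lit 65) (nat_lit 1) (nat_lit 9) (.e false (nat_lit 576) (nat_lit 23) (nat_lit 7) (nat_lit 3) (.e true (nat_lit 1152) (nat_lit 56) (nat_lit 1) (nat_lit 9) (.e true (nat_lit 576) (nat_lit 63) (nat_lit 1) (nat_lit 9) (.e false (nat_lit 576) (nat_lit 32) (nat_lit 5) (nat_lit 5) (.e true (nat_lit 576) (nat_lit 33) (nat_lit 5) (nat_lit 5) (.e true (nat_lit 576) (nat_lit 34) (nat_lit 5) (nat_lit 5) .nil))))))))))))) (.nd (.nd (.nd .leaf (nat_lit 37894) (nat_lit 199) (.p (nat_lit 123) (nat_lit 576) .z) .df .leaf) (nat_lit 37895) (nat_lit 246) (.p (nat_lit 135) (nat_lit 1152) (.p (nat_lit 136) (nat_lit 1152) (.n (nat_lit 137) (nat_lit 576) .z))) (.ct dP8_c261 (nat_lit 576) (nat_lit 1) (.s false (nat_lit 1) (nat_lit 7) (nat_lit 0) (nat_lit 7) (nat_lit 2) true (nat_lit 2) true (nat_lit 3) true (nat_lit 1) true (nat_lit 4) true (nat_lit 1) (.e false (nat_lit 1152) (nat_lit 74) (nat_lit 2) (nat_lit 3) (.e false (nat_lit 1152) (nat_lit 75) (nat_lit 2) (nat_lit 3) (.e true (nat_lit 576) (nat_lit 36) (nat_lit 7) (nat_lit 1) .nil))))) (.nd .leaf (nat_lit 37905) (nat_lit 430) (.n (nat_lit 181) (nat_lit 1152) (.p (nat_lit 182) (nat_lit 1152) (.p (nat_lit 184) (nat_lit 1152) (.p (nat_lit 185) (nat_lit 1152) (.n (nat_lit 186) (nat_lit 576) (.p (nat_lit 188) (nat_lit 576) (.n (nat_lit 190) (nat_lit 576) (.n (nat_lit 191) (nat_lit 576) (.p (nat_lit 192) (nat_lit 576) (.n (nat_lit 194) (nat_lit 576) (.n (nat_lit 196) (nat_lit 576) (.p (nat_lit 198) (nat_lit 576) .z)))))))))))) (.ct dP8_c277 (nat_lit 576) (nat_lit 1) (.s false (nat_lit 1) (nat_lit 37) (nat_lit 2) (nat_lit 1) (nat_lit 2) true (nat_lit 4) true (nat_lit 8) false (nat_lit 1) true (nat_lit 8) true (nat_lit 9) (.e false (nat_lit 576) (nat_lit 63) (nat_lit 7) (nat_lit 4) (.e true (nat_lit 1152) (nat_lit 108) (nat_lit 2) (nat_lit 8) (.e false (nat_lit 1152) (nat_lit 109) (nat_lit 2) (nat_lit 8) (.e false (nat_lit 1152) (nat_lit 112) (nat_lit 2) (nat_lit 8) (.e false (nat_lit 1152) (nat_lit 113) (nat_lit 2) (nat_lit 8) (.e true (nat_lit 576) (nat_lit 114) (nat_lit 2) (nat_lit 8) (.e false (nat_lit 576) (nat_lit 116) (nat_lit 2) (nat_lit 8) (.e true (nat_lit 576) (nat_lit 118) (nat_lit 2) (nat_lit 8) (.e true (nat_lit 576) (nat_lit 119) (nat_lit 2) (nat_lit 8) (.e false (nat_lit 576) (nat_lit 120) (nat_lit 2) (nat_lit 8) (.e true (nat_lit 576) (nat_lit 123) (nat_lit 2) (nat_lit 8) (.e true (nat_lit 576) (nat_lit 136) (nat_lit 1) (nat_lit 9) .nil)))))))))))))) .leaf)) (nat_lit 38912) (nat_lit 94) (.p (nat_lit 56) (nat_lit 576) (.n (nat_lit 57) (nat_lit 1152) (.p (nat_lit 58) (nat_lit 576) (.p (nat_lit 59) (nat_lit 576) (.n (nat_lit 61) (nat_lit 576) (.p (nat_lit 62) (nat_lit 576) (.p (nat_lit 63) (nat_lit 576) (.n (nat_lit 64) (nat_lit 576) (.n (nat_lit 65) (nat_lit 576) (.n (nat_lit 66) (nat_lit 576) .z)))))))))) (.ct dP8_c275 (nat_lit 576) (nat_lit 6) (.s true (nat_lit 1) (nat_lit 6) (nat_lit 2) (nat_lit 0) (nat_lit 2) true (nat_lit 0) true (nat_lit 4) true (nat_lit 1) true (nat_lit 4) true (nat_lit 6) (.e false (nat_lit 576) (nat_lit 12) (nat_lit 7) (nat_lit 0) (.e true (nat_lit 1152) (nat_lit 31) (nat_lit 2) (nat_lit 4) (.e true (nat_lit 576) (nat_lit 15) (nat_lit 6) (nat_lit 1) (.e false (nat_lit 576) (nat_lit 26) (nat_lit 2) (nat_lit 4) (.e true (nat_lit 576) (nat_lit 27) (nat_lit 2) (nat_lit 4) (.e true (nat_lit 576) (nat_lit 30) (nat_lit 2) (nat_lit 4) .nil)))))))) (.nd (.nd .leaf (nat_lit 38913) (nat_lit 104) (.n (nat_lit 68) (nat_lit 288) (.p (nat_lit 69) (nat_lit 864) (.n (nat_lit 70) (nat_lit 288) (.p (nat_lit 71) (nat_lit 288) (.p (nat_lit 72) (nat_lit 576) .z))))) (.ct dP8_c35 (nat_lit 576) (nat_lit 4) (.s false (nat_lit 1) (nat_lit 6) (nat_lit 2) (nat_lit 1) (nat_lit 2) true (nat_lit 0) true (nat_lit 3) true (nat_lit 1) true (nat_lit 3) true (nat_lit 4) (.e false (nat_lit 576) (nat_lit 14) (nat_lit 7) (nat_lit 0) (.e false (nat_lit 576) (nat_lit 34) (nat_lit 2) (nat_lit 3) (.e false (nat_lit 576) (nat_lit 17) (nat_lit 6) (nat_lit 1) .nil))))) .leaf) (nat_lit 38914) (nat_lit 113) (.p (nat_lit 77) (nat_lit 576) .z) .df .leaf)))) (nat_lit 38915) (nat_lit 180) (.n (nat_lit 82) (nat_lit 192) (.p (nat_lit 83) (nat_lit 1920) (.p (nat_lit 84) (nat_lit 1920) (.p (nat_lit 85) (nat_lit 1152) (.n (nat_lit 86) (nat_lit 2112) (.n (nat_lit 87) (nat_lit 960) (.p (nat_lit 88) (nat_lit 960) (.n (nat_lit 89) (nat_lit 768) (.p (nat_lit 90) (nat_lit 384) (.n (nat_lit 91) (nat_lit 1536) (.p (nat_lit 92) (nat_lit 576) (.n (nat_lit 93) (nat_lit 960) (.n (nat_lit 94) (nat_lit 384) (.n (nat_lit 95) (nat_lit 1152) (.n (nat_lit 96) (nat_lit 576) (.n (nat_lit 97) (nat_lit 1152) (.p (nat_lit 98) (nat_lit 2304) (.n (nat_lit 99) (nat_lit 768) (.p (nat_lit 100) (nat_lit 576) (.n (nat_lit 103) (nat_lit 192) (.p (nat_lit 104) (nat_lit 1728) (.n (nat_lit 105) (nat_lit 192) (.p (nat_lit 106) (nat_lit 192) (.n (nat_lit 107) (nat_lit 576) .z)))))))))))))))))))))))) (.ct dP8_c291 (nat_lit 576) (nat_lit 7) (.s true (nat_lit 1) (nat_lit 17) (nat_lit 0) (nat_lit 2) (nat_lit 1) true (nat_lit 7) true (nat_lit 9) false (nat_lit 1) true (nat_lit 10) true (nat_lit 8) (.e true (nat_lit 576) (nat_lit 61) (nat_lit 1) (nat_lit 9) (.e true (nat_lit 576) (nat_lit 17) (nat_lit 11) (nat_lit 1) (.e true (nat_lit 288) (nat_lit 68) (nat_lit 0) (nat_lit 10) (.e false (nat_lit 288) (nat_lit 69) (nat_lit 0) (nat_lit 10) (.e true (nat_lit 288) (nat_lit 70) (nat_lit 0) (nat_lit 10) (.e false (nat_lit 288) (nat_lit 71) (nat_lit 0) (nat_lit 10) (.e true (nat_lit 576) (nat_lit 54) (nat_lit 2) (nat_lit 8) .nil))))))))) (.nd (.nd (.nd (.nd (.nd .leaf (nat_lit 38917) (nat_lit 216) (.p (nat_lit 108) (nat_lit 576) (.p (nat_lit 109) (nat_lit 576) (.n (nat_lit 110) (nat_lit 576) (.n (nat_lit 111) (nat_lit 1152) (.n (nat_lit 112) (nat_lit 576) (.n (nat_lit 113) (nat_lit 1152) (.n (nat_lit 114) (nat_lit 288) (.n (nat_lit 115) (nat_lit 864) (.p (nat_lit 116) (nat_lit 288) (.n (nat_lit 118) (nat_lit 864) (.n (nat_lit 119) (nat_lit 864) (.p (nat_lit 120) (nat_lit 864) (.p (nat_lit 121) (nat_lit 864) (.p (nat_lit 122) (nat_lit 576) (.p (nat_lit 123) (nat_lit 864) .z))))))))))))))) (.ct dP8_c276 (nat_lit 576) (nat_lit 4) (.s true (nat_lit 1) (nat_lit 6) (nat_lit 2) (nat_lit 2) (nat_lit 5) true (nat_lit 0) true (nat_lit 4) true (nat_lit 3) true (nat_lit 6) true (nat_lit 6) (.e true (nat_lit 576) (nat_lit 17) (nat_lit 15) (nat_lit 0) (.e false (nat_lit 576) (nat_lit 36) (nat_lit 6) (nat_lit 3) (.e false (nat_lit 576) (nat_lit 37) (nat_lit 6) (nat_lit 3) (.e true (nat_lit 576) (nat_lit 66) (nat_lit 2) (nat_lit 6) (.e false (nat_lit 576) (nat_lit 56) (nat_lit 2) (nat_lit 6) (.e true (nat_lit 576) (nat_lit 57) (nat_lit 2) (nat_lit 6) (.e true (nat_lit 576) (nat_lit 60) (nat_lit 2) (nat_lit 6) (.e true (nat_lit 576) (nat_lit 61) (nat_lit 2) (nat_lit 6) .nil)))))))))) .leaf) (nat_lit 38918) (nat_lit 232) (.p (nat_lit 133) (nat_lit 576) .z) .df (.nd .leaf (nat_lit 38919) (nat_lit 261) (.n (nat_lit 140) (nat_lit 576) (.p (nat_lit 141) (nat_lit 576) (.p (nat_lit 143) (nat_lit 576) .z))) (.ct dP8_c21 (nat_lit 576) (nat_lit 1) (.s true (nat_lit 1) (nat_lit 7) (nat_lit 6) (nat_lit 2) (nat_lit 2) true (nat_lit 0) true (nat_lit 3) true (nat_lit 1) true (nat_lit 2) true (nat_lit 3) (.e false (nat_lit 576) (nat_lit 19) (nat_lit 17) (nat_lit 0) (.e true (nat_lit 576) (nat_lit 78) (nat_lit 2) (nat_lit 3) (.e false (nat_lit 576) (nat_lit 80) (nat_lit 2) (nat_lit 3) .nil))))) .leaf)) (nat_lit 38923) (nat_lit 359) (.p (nat_lit 144) (nat_lit 5862) (.n (nat_lit 145) (nat_lit 13440) (.n (nat_lit 146) (nat_lit 13386) (.n (nat_lit 147) (nat_lit 10728) (.p (nat_lit 148) (nat_lit 11796) (.p (nat_lit 149) (nat_lit 2220) (.p (nat_lit 150) (nat_lit 480) (.n (nat_lit 151) (nat_lit 2418) (.n (nat_lit 152) (nat_lit 3390) (.p (nat_lit 153) (nat_lit 13002) (.n (nat_lit 154) (nat_lit 1782) (.p (nat_lit 155) (nat_lit 9708) (.n (nat_lit 156) (nat_lit 984) (.p (nat_lit 157) (nat_lit 5328) (.p (nat_lit 158) (nat_lit 3843) (.n (nat_lit 159) (nat_lit 12483) (.p (nat_lit 160) (nat_lit 4971) (.n (nat_lit 161) (nat_lit 1089) (.p (nat_lit 162) (nat_lit 1152) (.p (nat_lit 163) (nat_lit 2502) (.p (nat_lit 164) (nat_lit 2046) (.n (nat_lit 165) (nat_lit 2466) (.n (nat_lit 166) (nat_lit 5262) (.p (nat_lit 167) (nat_lit 3030) (.p (nat_lit 168) (nat_lit 3330) (.n (nat_lit 169) (nat_lit 1656) (.p (nat_lit 170) (nat_lit 828) (.p (nat_lit 171) (nat_lit 1656) (.p (nat_lit 172) (nat_lit 1656) (.n (nat_lit 176) (nat_lit 414) (.p (nat_lit 177) (nat_lit 828) (.n (nat_lit 178) (nat_lit 1836) (.p (nat_lit 179) (nat_lit 1836) (.n (nat_lit 180) (nat_lit 252) .z)))))))))))))))))))))))))))))))))) (.ct dP8_c292 (nat_lit 576) (nat_lit 4) (.s false (nat_lit 1) (nat_lit 11) (nat_lit 2) (nat_lit 6) (nat_lit 2) true (nat_lit 6) true (nat_lit 11) true (nat_lit 4) true (nat_lit 11) true (nat_lit 7) (.e true (nat_lit 576) (nat_lit 45) (nat_lit 7) (nat_lit 6) (.e true (nat_lit 576) (nat_lit 49) (nat_lit 7) (nat_lit 6) (.e false (nat_lit 576) (nat_lit 53) (nat_lit 7) (nat_lit 6) (.e false (nat_lit 576) (nat_lit 54) (nat_lit 7) (nat_lit 6) (.e false (nat_lit 576) (nat_lit 55) (nat_lit 7) (nat_lit 6) (.e false (nat_lit 384) (nat_lit 105) (nat_lit 2) (nat_lit 11) (.e true (nat_lit 1056) (nat_lit 82) (nat_lit 2) (nat_lit 11) dP8_i83))))))))) (.nd (.nd .leaf (nat_lit 38924) (nat_lit 371) (.n (nat_lit 144) (nat_lit 4218) (.p (nat_lit 145) (nat_lit 10752) (.p (nat_lit 146) (nat_lit 9942) (.p (nat_lit 147) (nat_lit 7704) (.n (nat_lit 148) (nat_lit 9516) (.n (nat_lit 149) (nat_lit 2388) (.n (nat_lit 150) (nat_lit 672) (.p (nat_lit 151) (nat_lit 1902) (.p (nat_lit 152) (nat_lit 2082) (.n (nat_lit 153) (nat_lit 9750) (.p (nat_lit 154) (nat_lit 1962) (.n (nat_lit 155) (nat_lit 6996) (.p (nat_lit 156) (nat_lit 744) (.n (nat_lit 157) (nat_lit 3888) (.n (nat_lit 158) (nat_lit 4077) (.p (nat_lit 159) (nat_lit 9261) (.n (nat_lit 160) (nat_lit 4101) (.p (nat_lit 161) (nat_lit 1359) (.n (nat_lit 162) (nat_lit 576) (.n (nat_lit 163) (nat_lit 1818) (.n (nat_lit 164) (nat_lit 1122) (.p (nat_lit 165) (nat_lit 1854) (.p (nat_lit 166) (nat_lit 4242) (.n (nat_lit 167) (nat_lit 3018) (.n (nat_lit 168) (nat_lit 2718) (.p (nat_lit 169) (nat_lit 1224) (.n (nat_lit 170) (nat_lit 324) (.n (nat_lit 171) (nat_lit 1224) (.n (nat_lit 172) (nat_lit 648) (.p (nat_lit 176) (nat_lit 450) (.n (nat_lit 177) (nat_lit 900) (.p (nat_lit 178) (nat_lit 1620) (.n (nat_lit 179) (nat_lit 1044) (.p (nat_lit 180) (nat_lit 900) .z)))))))))))))))))))))))))))))))))) (.ct dP8_c292 (nat_lit 576) (nat_lit 4) (.s true (nat_lit 1) (nat_lit 17) (nat_lit 0) (nat_lit 2) (nat_lit 6) true (nat_lit 4) true (nat_lit 7) true (nat_lit 1) true (nat_lit 13) true (nat_lit 11) (.s false (nat_lit 1) (nat_lit 26) (nat_lit 2) (nat_lit 1) (nat_lit 2) true (nat_lit 6) true (nat_lit 11) false (nat_lit 1) true (nat_lit 11) true (nat_lit 12) (.e true (nat_lit 576) (nat_lit 61) (nat_lit 6) (nat_lit 7) (.e true (nat_lit 576) (nat_lit 27) (nat_lit 17) (nat_lit 1) (.e true (nat_lit 576) (nat_lit 30) (nat_lit 17) (nat_lit 1) (.e true (nat_lit 576) (nat_lit 31) (nat_lit 17) (nat_lit 1) (.e true (nat_lit 288) (nat_lit 125) (nat_lit 0) (nat_lit 13) (.e false (nat_lit 288) (nat_lit 126) (nat_lit 0) (nat_lit 13) (.e true (nat_lit 288) (nat_lit 127) (nat_lit 0) (nat_lit 13) (.e false (nat_lit 288) (nat_lit 128) (nat_lit 0) (nat_lit 13) (.e false (nat_lit 576) (nat_lit 129) (nat_lit 0) (nat_lit 13) (.e true (nat_lit 576) (nat_lit 130) (nat_lit 0) (nat_lit 13) (.e false (nat_lit 576) (nat_lit 131) (nat_lit 0) (nat_lit 13) (.e true (nat_lit 576) (nat_lit 133) (nat_lit 0) (nat_lit 13) (.e true (nat_lit 288) (nat_lit 97) (nat_lit 2) (nat_lit 11) (.e false (nat_lit 288) (nat_lit 98) (nat_lit 2) (nat_lit 11) (.e true (nat_lit 288) (nat_lit 99) (nat_lit 2) (nat_lit 11) (.e false (nat_lit 288) (nat_lit 100) (nat_lit 2) (nat_lit 11) (.e false (nat_lit 576) (nat_lit 47) (nat_lit 7) (nat_lit 6) (.e false (nat_lit 576) (nat_lit 90) (nat_lit 2) (nat_lit 11) (.e true (nat_lit 576) (nat_lit 104) (nat_lit 2) (nat_lit 11) (.e true (nat_lit 576) (nat_lit 108) (nat_lit 1) (nat_lit 12) .nil))))))))))))))))))))))) .leaf) (nat_lit 38930) (nat_lit 469) (.p (nat_lit 200) (nat_lit 3744) (.n (nat_lit 201) (nat_lit 3744) (.n (nat_lit 202) (nat_lit 1440) (.p (nat_lit 203) (nat_lit 288) (.n (nat_lit 204) (nat_lit 288) (.n (nat_lit 205) (nat_lit 3168) (.p (nat_lit 206) (nat_lit 6336) (.n (nat_lit 207) (nat_lit 6336) (.n (nat_lit 208) (nat_lit 3168) (.p (nat_lit 209) (nat_lit 576) .z)))))))))) (.ct dP8_c37 (nat_lit 576) (nat_lit 1) (.s false (nat_lit 1) (nat_lit 17) (nat_lit 1) (nat_lit 2) (nat_lit 7) true (nat_lit 1) true (nat_lit 3) true (nat_lit 1) true (nat_lit 7) true (nat_lit 6) (.e false (nat_lit 576) (nat_lit 69) (nat_lit 7) (nat_lit 3) (.e true (nat_lit 576) (nat_lit 39) (nat_lit 17) (nat_lit 1) (.e false (nat_lit 576) (nat_lit 40) (nat_lit 17) (nat_lit 1) (.e true (nat_lit 576) (nat_lit 143) (nat_lit 1) (nat_lit 7) (.e false (nat_lit 576) (nat_lit 130) (nat_lit 2) (nat_lit 6) (.e true (nat_lit 576) (nat_lit 131) (nat_lit 2) (nat_lit 6) .nil)))))))) (.nd .leaf (nat_lit 39936) (nat_lit 83) (.p (nat_lit 64) (nat_lit 576) .z) .df .leaf))) (nat_lit 39937) (nat_lit 98) (.p (nat_lit 70) (nat_lit 576) .z) .df (.nd (.nd (.nd .leaf (nat_lit 39938) (nat_lit 114) (.p (nat_lit 78) (nat_lit 576) .z) .df .leaf) (nat_lit 39939) (nat_lit 169) (.p (nat_lit 82) (nat_lit 2112) (.n (nat_lit 83) (nat_lit 2112) (.n (nat_lit 84) (nat_lit 2688) (.n (nat_lit 85) (nat_lit 1152) (.p (nat_lit 86) (nat_lit 192) (.p (nat_lit 87) (nat_lit 1344) (.n (nat_lit 88) (nat_lit 768) (.p (nat_lit 89) (nat_lit 384) (.n (nat_lit 90) (nat_lit 192) (.p (nat_lit 91) (nat_lit 1344) (.n (nat_lit 92) (nat_lit 576) (.p (nat_lit 93) (nat_lit 768) (.p (nat_lit 94) (nat_lit 768) (.p (nat_lit 97) (nat_lit 2016) (.n (nat_lit 98) (nat_lit 2016) (.p (nat_lit 99) (nat_lit 672) (.n (nat_lit 100) (nat_lit 864) (.n (nat_lit 101) (nat_lit 576) (.p (nat_lit 102) (nat_lit 576) (.p (nat_lit 103) (nat_lit 384) (.n (nat_lit 104) (nat_lit 576) (.n (nat_lit 105) (nat_lit 192) (.p (nat_lit 106) (nat_lit 192) (.p (nat_lit 107) (nat_lit 576) .z)))))))))))))))))))))))) (.ct dP8_c291 (nat_lit 576) (nat_lit 7) (.s true (nat_lit 1) (nat_lit 6) (nat_lit 3) (nat_lit 2) (nat_lit 2) true (nat_lit 1) true (nat_lit 8) true (nat_lit 4) true (nat_lit 7) true (nat_lit 8) (.s false (nat_lit 1) (nat_lit 10) (nat_lit 1) (nat_lit 2) (nat_lit 2) true (nat_lit 4) true (nat_lit 8) true (nat_lit 1) true (nat_lit 9) true (nat_lit 8) (.e false (nat_lit 576) (nat_lit 40) (nat_lit 3) (nat_lit 7) (.e true (nat_lit 1152) (nat_lit 47) (nat_lit 2) (nat_lit 8) (.e false (nat_lit 576) (nat_lit 48) (nat_lit 2) (nat_lit 8) (.e true (nat_lit 576) (nat_lit 49) (nat_lit 2) (nat_lit 8) (.e false (nat_lit 576) (nat_lit 51) (nat_lit 2) (nat_lit 8) (.e true (nat_lit 576) (nat_lit 53) (nat_lit 2) (nat_lit 8) (.e false (nat_lit 576) (nat_lit 54) (nat_lit 2) (nat_lit 8) (.e false (nat_lit 576) (nat_lit 55) (nat_lit 2) (nat_lit 8) (.e false (nat_lit 576) (nat_lit 43) (nat_lit 2) (nat_lit 8) (.e true (nat_lit 576) (nat_lit 65) (nat_lit 1) (nat_lit 9) .nil))))))))))))) (.nd .leaf (nat_lit 39941) (nat_lit 205) (.n (nat_lit 108) (nat_lit 1152) (.p (nat_lit 109) (nat_lit 1152) (.p (nat_lit 112) (nat_lit 1152) (.p (nat_lit 113) (nat_lit 1152) (.n (nat_lit 114) (nat_lit 576) (.p (nat_lit 117) (nat_lit 576) (.p (nat_lit 119) (nat_lit 576) (.n (nat_lit 120) (nat_lit 1152) (.n (nat_lit 121) (nat_lit 576) .z))))))))) (.ct dP8_c276 (nat_lit 576) (nat_lit 4) (.s false (nat_lit 1) (nat_lit 7) (nat_lit 0) (nat_lit 7) (nat_lit 1) true (nat_lit 5) true (nat_lit 7) true (nat_lit 2) true (nat_lit 8) true (nat_lit 2) (.s false (nat_lit 1) (nat_lit 7) (nat_lit 1) (nat_lit 0) (nat_lit 7) false (nat_lit 0) true (nat_lit 2) true (nat_lit 2) true (nat_lit 7) true (nat_lit 8) (.s false (nat_lit 1) (nat_lit 7) (nat_lit 2) (nat_lit 2) (nat_lit 3) true (nat_lit 1) true (nat_lit 5) true (nat_lit 2) true (nat_lit 6) true (nat_lit 6) (.s true (nat_lit 1) (nat_lit 18) (nat_lit 2) (nat_lit 2) (nat_lit 0) true (nat_lit 4) true (nat_lit 8) false (nat_lit 0) true (nat_lit 6) true (nat_lit 6) (.s true (nat_lit 1) (nat_lit 19) (nat_lit 0) (nat_lit 1) (nat_lit 2) true (nat_lit 4) true (nat_lit 6) false (nat_lit 1) true (nat_lit 8) true (nat_lit 7) (.s true (nat_lit 1) (nat_lit 19) (nat_lit 1) (nat_lit 2) (nat_lit 0) true (nat_lit 5) true (nat_lit 8) false (nat_lit 1) true (nat_lit 7) true (nat_lit 6) (.s false (nat_lit 1) (nat_lit 19) (nat_lit 2) (nat_lit 1) (nat_lit 0) true (nat_lit 4) true (nat_lit 8) false (nat_lit 1) true (nat_lit 6) true (nat_lit 7) (.e true (nat_lit 576) (nat_lit 30) (nat_lit 7) (nat_lit 2) (.e false (nat_lit 576) (nat_lit 78) (nat_lit 0) (nat_lit 8) (.e true (nat_lit 1152) (nat_lit 79) (nat_lit 0) (nat_lit 8) (.e false (nat_lit 576) (nat_lit 65) (nat_lit 2) (nat_lit 6) (.e false (nat_lit 1152) (nat_lit 57) (nat_lit 2) (nat_lit 6) (.e false (nat_lit 1152) (nat_lit 61) (nat_lit 2) (nat_lit 6) (.e false (nat_lit 1152) (nat_lit 60) (nat_lit 2) (nat_lit 6) (.e true (nat_lit 576) (nat_lit 62) (nat_lit 2) (nat_lit 6) (.e true (nat_lit 1152) (nat_lit 56) (nat_lit 2) (nat_lit 6) .nil))))))))))))))))) .leaf)) (nat_lit 39942) (nat_lit 233) (.p (nat_lit 127) (nat_lit 576) (.n (nat_lit 128) (nat_lit 576) (.n (nat_lit 129) (nat_lit 576) (.p (nat_lit 130) (nat_lit 576) (.n (nat_lit 131) (nat_lit 576) (.p (nat_lit 132) (nat_lit 576) .z)))))) (.ct dP8_c36 (nat_lit 576) (nat_lit 3) (.s true (nat_lit 1) (nat_lit 7) (nat_lit 1) (nat_lit 2) (nat_lit 6) true (nat_lit 1) true (nat_lit 3) true (nat_lit 2) true (nat_lit 6) true (nat_lit 5) (.s false (nat_lit 1) (nat_lit 14) (nat_lit 2) (nat_lit 2) (nat_lit 2) true (nat_lit 2) true (nat_lit 5) true (nat_lit 1) true (nat_lit 5) true (nat_lit 5) (.e false (nat_lit 576) (nat_lit 78) (nat_lit 1) (nat_lit 6) (.e true (nat_lit 576) (nat_lit 80) (nat_lit 1) (nat_lit 6) (.e false (nat_lit 576) (nat_lit 70) (nat_lit 2) (nat_lit 5) (.e true (nat_lit 576) (nat_lit 71) (nat_lit 2) (nat_lit 5) (.e false (nat_lit 576) (nat_lit 33) (nat_lit 7) (nat_lit 2) (.e true (nat_lit 576) (nat_lit 72) (nat_lit 2) (nat_lit 5) .nil))))))))) (.nd (.nd .leaf (nat_lit 39943) (nat_lit 254) (.p (nat_lit 142) (nat_lit 576) .z) .df .leaf) (nat_lit 39946) (nat_lit 370) (.n (nat_lit 144) (nat_lit 2316) (.n (nat_lit 145) (nat_lit 672) (.p (nat_lit 146) (nat_lit 948) (.p (nat_lit 147) (nat_lit 720) (.p (nat_lit 148) (nat_lit 3000) (.n (nat_lit 149) (nat_lit 24) (.p (nat_lit 150) (nat_lit 2688) (.p (nat_lit 151) (nat_lit 708) (.n (nat_lit 152) (nat_lit 516) (.p (nat_lit 153) (nat_lit 1452) (.n (nat_lit 154) (nat_lit 180) (.p (nat_lit 155) (nat_lit 2280) (.n (nat_lit 156) (nat_lit 1392) (.p (nat_lit 157) (nat_lit 864) (.p (nat_lit 158) (nat_lit 378) (.n (nat_lit 159) (nat_lit 954) (.p (nat_lit 160) (nat_lit 906) (.n (nat_lit 161) (nat_lit 126) (.n (nat_lit 162) (nat_lit 288) (.n (nat_lit 163) (nat_lit 972) (.n (nat_lit 164) (nat_lit 1020) (.n (nat_lit 165) (nat_lit 1404) (.n (nat_lit 166) (nat_lit 804) (.p (nat_lit 167) (nat_lit 660) (.p (nat_lit 168) (nat_lit 828) (.n (nat_lit 169) (nat_lit 144) (.p (nat_lit 170) (nat_lit 648) (.p (nat_lit 171) (nat_lit 720) (.p (nat_lit 172) (nat_lit 144) (.n (nat_lit 173) (nat_lit 576) (.p (nat_lit 174) (nat_lit 576) (.n (nat_lit 176) (nat_lit 612) (.p (nat_lit 177) (nat_lit 72) (.n (nat_lit 178) (nat_lit 648) (.p (nat_lit 179) (nat_lit 648) (.p (nat_lit 180) (nat_lit 504) .z)))))))))))))))))))))))))))))))))))) (.ct dP8_c292 (nat_lit 576) (nat_lit 4) (.s false (nat_lit 1) (nat_lit 10) (nat_lit 2) (nat_lit 1) (nat_lit 7) true (nat_lit 0) true (nat_lit 6) true (nat_lit 4) true (nat_lit 11) true (nat_lit 12) (.s true (nat_lit 1) (nat_lit 10) (nat_lit 7) (nat_lit 2) (nat_lit 1) true (nat_lit 1) true (nat_lit 12) true (nat_lit 4) true (nat_lit 6) true (nat_lit 11) (.s false (nat_lit 1) (nat_lit 26) (nat_lit 2) (nat_lit 2) (nat_lit 1) true (nat_lit 7) true (nat_lit 12) false (nat_lit 1) true (nat_lit 11) true (nat_lit 11) (.e true (nat_lit 576) (nat_lit 22) (nat_lit 19) (nat_lit 0) (.e false (nat_lit 576) (nat_lit 47) (nat_lit 7) (nat_lit 6) (.e true (nat_lit 1152) (nat_lit 90) (nat_lit 2) (nat_lit 11) (.e true (nat_lit 1728) (nat_lit 104) (nat_lit 2) (nat_lit 11) (.e true (nat_lit 1152) (nat_lit 117) (nat_lit 1) (nat_lit 12) (.e false (nat_lit 576) (nat_lit 55) (nat_lit 7) (nat_lit 6) (.e false (nat_lit 576) (nat_lit 86) (nat_lit 2) (nat_lit 11) (.e false (nat_lit 576) (nat_lit 95) (nat_lit 2) (nat_lit 11) (.e false (nat_lit 576) (nat_lit 56) (nat_lit 6) (nat_lit 7) (.e false (nat_lit 576) (nat_lit 108) (nat_lit 1) (nat_lit 12) .nil)))))))))))))) .leaf))) (nat_lit 39947) (nat_lit 373) (.n (nat_lit 144) (nat_lit 5772) (.p (nat_lit 145) (nat_lit 14592) (.p (nat_lit 146) (nat_lit 15060) (.p (nat_lit 147) (nat_lit 8784) (.n (nat_lit 148) (nat_lit 11688) (.n (nat_lit 149) (nat_lit 5784) (.n (nat_lit 150) (nat_lit 2496) (.p (nat_lit 151) (nat_lit 1572) (.p (nat_lit 152) (nat_lit 2364) (.n (nat_lit 153) (nat_lit 13524) (.p (nat_lit 154) (nat_lit 2412) (.n (nat_lit 155) (nat_lit 9816) (.p (nat_lit 156) (nat_lit 624) (.n (nat_lit 157) (nat_lit 5472) (.n (nat_lit 158) (nat_lit 7974) (.p (nat_lit 159) (nat_lit 13734) (.n (nat_lit 160) (nat_lit 5430) (.p (nat_lit 161) (nat_lit 2466) (.p (nat_lit 162) (nat_lit 576) (.n (nat_lit 163) (nat_lit 2124) (.n (nat_lit 164) (nat_lit 732) (.p (nat_lit 165) (nat_lit 3204) (.p (nat_lit 166) (nat_lit 4956) (.n (nat_lit 167) (nat_lit 3948) (.n (nat_lit 168) (nat_lit 3780) (.p (nat_lit 169) (nat_lit 2160) (.n (nat_lit 170) (nat_lit 1656) (.n (nat_lit 171) (nat_lit 2160) (.n (nat_lit 172) (nat_lit 2160) (.p (nat_lit 176) (nat_lit 540) (.p (nat_lit 177) (nat_lit 72) (.p (nat_lit 178) (nat_lit 1080) (.n (nat_lit 179) (nat_lit 1080) (.p (nat_lit 180) (nat_lit 504) .z)))))))))))))))))))))))))))))))))) (.ct dP8_c292 (nat_lit 576) (nat_lit 4) (.s true (nat_lit 1) (nat_lit 39) (nat_lit 0) (nat_lit 2) (nat_lit 1) true (nat_lit 10) true (nat_lit 12) false (nat_lit 4) true (nat_lit 13) true (nat_lit 11) (.e true (nat_lit 576) (nat_lit 78) (nat_lit 3) (nat_lit 10) (.e true (nat_lit 576) (nat_lit 116) (nat_lit 1) (nat_lit 12) (.e false (nat_lit 576) (nat_lit 127) (nat_lit 0) (nat_lit 13) (.e true (nat_lit 576) (nat_lit 128) (nat_lit 0) (nat_lit 13) (.e true (nat_lit 576) (nat_lit 129) (nat_lit 0) (nat_lit 13) (.e false (nat_lit 576) (nat_lit 130) (nat_lit 0) (nat_lit 13) (.e true (nat_lit 576) (nat_lit 131) (nat_lit 0) (nat_lit 13) (.e false (nat_lit 576) (nat_lit 132) (nat_lit 0) (nat_lit 13) (.e true (nat_lit 576) (nat_lit 99) (nat_lit 2) (nat_lit 11) .nil))))))))))) (.nd (.nd (.nd (.nd .leaf (nat_lit 39948) (nat_lit 355) (.n (nat_lit 144) (nat_lit 4968) (.p (nat_lit 145) (nat_lit 9792) (.p (nat_lit 146) (nat_lit 10584) (.p (nat_lit 147) (nat_lit 9504) (.n (nat_lit 148) (nat_lit 7920) (.p (nat_lit 149) (nat_lit 432) (.p (nat_lit 150) (nat_lit 1152) (.p (nat_lit 151) (nat_lit 2808) (.p (nat_lit 152) (nat_lit 2952) (.n (nat_lit 153) (nat_lit 10008) (.p (nat_lit 154) (nat_lit 360) (.n (nat_lit 155) (nat_lit 7632) (.p (nat_lit 156) (nat_lit 288) (.n (nat_lit 157) (nat_lit 3456) (.n (nat_lit 158) (nat_lit 1044) (.p (nat_lit 159) (nat_lit 9108) (.n (nat_lit 160) (nat_lit 3636) (.n (nat_lit 161) (nat_lit 36) (.n (nat_lit 162) (nat_lit 1728) (.n (nat_lit 163) (nat_lit 2088) (.n (nat_lit 164) (nat_lit 2664) (.p (nat_lit 165) (nat_lit 504) (.p (nat_lit 166) (nat_lit 2952) (.n (nat_lit 167) (nat_lit 1512) (.n (nat_lit 168) (nat_lit 1080) (.p (nat_lit 169) (nat_lit 288) (.n (nat_lit 170) (nat_lit 144) (.n (nat_lit 171) (nat_lit 288) (.n (nat_lit 172) (nat_lit 288) (.n (nat_lit 173) (nat_lit 576) (.p (nat_lit 174) (nat_lit 576) (.n (nat_lit 176) (nat_lit 216) (.n (nat_lit 177) (nat_lit 144) (.p (nat_lit 178) (nat_lit 2160) (.n (nat_lit 179) (nat_lit 1584) (.p (nat_lit 180) (nat_lit 144) .z)))))))))))))))))))))))))))))))))))) (.ct dP8_c292 (nat_lit 576) (nat_lit 4) (.s false (nat_lit 1) (nat_lit 39) (nat_lit 2) (nat_lit 1) (nat_lit 0) true (nat_lit 8) true (nat_lit 13) false (nat_lit 4) true (nat_lit 11) true (nat_lit 12) (.e false (nat_lit 576) (nat_lit 70) (nat_lit 5) (nat_lit 8) (.e false (nat_lit 576) (nat_lit 130) (nat_lit 0) (nat_lit 13) dP8_i82)))) .leaf) (nat_lit 39952) (nat_lit 433) (.p (nat_lit 186) (nat_lit 1152) (.n (nat_lit 190) (nat_lit 1152) (.p (nat_lit 193) (nat_lit 576) (.n (nat_lit 195) (nat_lit 1152) (.n (nat_lit 196) (nat_lit 1152) (.n (nat_lit 198) (nat_lit 576) .z)))))) (.ct dP8_c277 (nat_lit 576) (nat_lit 2) (.s false (nat_lit 1) (nat_lit 16) (nat_lit 1) (nat_lit 7) (nat_lit 2) true (nat_lit 5) true (nat_lit 8) true (nat_lit 2) true (nat_lit 9) true (nat_lit 4) (.e true (nat_lit 1152) (nat_lit 74) (nat_lit 6) (nat_lit 5) (.e true (nat_lit 1152) (nat_lit 75) (nat_lit 6) (nat_lit 5) (.e false (nat_lit 576) (nat_lit 121) (nat_lit 2) (nat_lit 8) (.e true (nat_lit 1152) (nat_lit 135) (nat_lit 1) (nat_lit 9) (.e true (nat_lit 1152) (nat_lit 136) (nat_lit 1) (nat_lit 9) (.e false (nat_lit 576) (nat_lit 137) (nat_lit 1) (nat_lit 9) (.e false (nat_lit 576) (nat_lit 62) (nat_lit 7) (nat_lit 4) .nil))))))))) (.nd .leaf (nat_lit 39953) (nat_lit 456) (.p (nat_lit 200) (nat_lit 2016) (.n (nat_lit 201) (nat_lit 2016) (.n (nat_lit 202) (nat_lit 864) (.p (nat_lit 203) (nat_lit 288) (.n (nat_lit 204) (nat_lit 288) (.n (nat_lit 205) (nat_lit 2016) (.p (nat_lit 206) (nat_lit 2880) (.n (nat_lit 207) (nat_lit 2880) (.n (nat_lit 208) (nat_lit 1440) (.p (nat_lit 209) (nat_lit 576) .z)))))))))) (.ct dP8_c37 (nat_lit 4608) (nat_lit 1) (.s false (nat_lit 2) (nat_lit 7) (nat_lit 1) (nat_lit 7) (nat_lit 6) true (nat_lit 2) true (nat_lit 4) true (nat_lit 3) true (nat_lit 7) true (nat_lit 3) (.s false (nat_lit 3) (nat_lit 14) (nat_lit 2) (nat_lit 2) (nat_lit 7) true (nat_lit 0) true (nat_lit 3) true (nat_lit 2) true (nat_lit 6) true (nat_lit 6) (.s false (nat_lit 1) (nat_lit 14) (nat_lit 2) (nat_lit 7) (nat_lit 2) true (nat_lit 3) true (nat_lit 6) true (nat_lit 2) true (nat_lit 6) true (nat_lit 3) (.s false (nat_lit 1) (nat_lit 14) (nat_lit 7) (nat_lit 2) (nat_lit 2) true (nat_lit 0) true (nat_lit 6) true (nat_lit 2) true (nat_lit 3) true (nat_lit 6) (.s true (nat_lit 4) (nat_lit 19) (nat_lit 1) (nat_lit 6) (nat_lit 2) true (nat_lit 4) true (nat_lit 6) true (nat_lit 0) true (nat_lit 7) true (nat_lit 4) (.s false (nat_lit 4) (nat_lit 19) (nat_lit 2) (nat_lit 1) (nat_lit 6) true (nat_lit 1) true (nat_lit 4) true (nat_lit 0) true (nat_lit 6) true (nat_lit 7) (.s false (nat_lit 4) (nat_lit 19) (nat_lit 2) (nat_lit 6) (nat_lit 1) true (nat_lit 4) true (nat_lit 7) true (nat_lit 0) true (nat_lit 6) true (nat_lit 4) (.s true (nat_lit 4) (nat_lit 34) (nat_lit 2) (nat_lit 2) (nat_lit 2) true (nat_lit 3) true (nat_lit 6) false (nat_lit 0) true (nat_lit 6) true (nat_lit 6) (.s false (nat_lit 4) (nat_lit 39) (nat_lit 1) (nat_lit 2) (nat_lit 2) true (nat_lit 4) true (nat_lit 6) false (nat_lit 1) true (nat_lit 7) true (nat_lit 6) (.s false (nat_lit 4) (nat_lit 39) (nat_lit 2) (nat_lit 1) (nat_lit 2) true (nat_lit 3) true (nat_lit 6) false (nat_lit 1) true (nat_lit 6) true (nat_lit 7) (.s true (nat_lit 4) (nat_lit 40) (nat_lit 2) (nat_lit 1) (nat_lit 2) true (nat_lit 3) true (nat_lit 6) false (nat_lit 1) true (nat_lit 6) true (nat_lit 7) (.e false (nat_lit 4608) (nat_lit 78) (nat_lit 6) (nat_lit 4) (.e true (nat_lit 2304) (nat_lit 125) (nat_lit 2) (nat_lit 6) (.e false (nat_lit 2304) (nat_lit 126) (nat_lit 2) (nat_lit 6) (.e false (nat_lit 2304) (nat_lit 128) (nat_lit 2) (nat_lit 6) (.e true (nat_lit 2304) (nat_lit 142) (nat_lit 1) (nat_lit 7) (.e true (nat_lit 2304) (nat_lit 130) (nat_lit 2) (nat_lit 6) .nil)))))))))))))))))) .leaf)) (nat_lit 39954) (nat_lit 461) (.p (nat_lit 200) (nat_lit 1152) (.n (nat_lit 201) (nat_lit 1152) (.n (nat_lit 203) (nat_lit 576) (.n (nat_lit 205) (nat_lit 1152) (.p (nat_lit 206) (nat_lit 1152) (.n (nat_lit 207) (nat_lit 576) (.n (nat_lit 208) (nat_lit 576) (.p (nat_lit 209) (nat_lit 576) .z)))))))) (.ct dP8_c37 (nat_lit 576) (nat_lit 1) (.s false (nat_lit 2) (nat_lit 39) (nat_lit 1) (nat_lit 2) (nat_lit 2) true (nat_lit 4) true (nat_lit 6) false (nat_lit 1) true (nat_lit 7) true (nat_lit 6) (.s false (nat_lit 1) (nat_lit 39) (nat_lit 2) (nat_lit 2) (nat_lit 1) true (nat_lit 4) true (nat_lit 7) false (nat_lit 1) true (nat_lit 6) true (nat_lit 6) (.e false (nat_lit 1728) (nat_lit 78) (nat_lit 6) (nat_lit 4) (.e true (nat_lit 1152) (nat_lit 39) (nat_lit 17) (nat_lit 1) (.e true (nat_lit 1152) (nat_lit 142) (nat_lit 1) (nat_lit 7) (.e true (nat_lit 1728) (nat_lit 130) (nat_lit 2) (nat_lit 6) (.e false (nat_lit 576) (nat_lit 140) (nat_lit 1) (nat_lit 7) (.e false (nat_lit 576) (nat_lit 128) (nat_lit 2) (nat_lit 6) (.e false (nat_lit 576) (nat_lit 129) (nat_lit 2) (nat_lit 6) (.e false (nat_lit 576) (nat_lit 131) (nat_lit 2) (nat_lit 6) (.e true (nat_lit 576) (nat_lit 132) (nat_lit 2) (nat_lit 6) .nil)))))))))))) (.nd (.nd .leaf (nat_lit 40960) (nat_lit 87) (.p (nat_lit 57) (nat_lit 576) (.p (nat_lit 58) (nat_lit 576) (.n (nat_lit 59) (nat_lit 576) (.p (nat_lit 61) (nat_lit 576) (.n (nat_lit 62) (nat_lit 576) (.n (nat_lit 63) (nat_lit 576) (.p (nat_lit 64) (nat_lit 576) .z))))))) (.ct dP8_c275 (nat_lit 576) (nat_lit 6) (.s false (nat_lit 1) (nat_lit 5) (nat_lit 1) (nat_lit 2) (nat_lit 2) true (nat_lit 1) true (nat_lit 4) true (nat_lit 2) true (nat_lit 5) true (nat_lit 4) (.s false (nat_lit 1) (nat_lit 6) (nat_lit 0) (nat_lit 2) (nat_lit 2) true (nat_lit 2) true (nat_lit 4) true (nat_lit 1) true (nat_lit 6) true (nat_lit 4) (.e false (nat_lit 576) (nat_lit 27) (nat_lit 2) (nat_lit 4) (.e true (nat_lit 576) (nat_lit 36) (nat_lit 1) (nat_lit 5) (.e true (nat_lit 576) (nat_lit 37) (nat_lit 1) (nat_lit 5) (.e true (nat_lit 576) (nat_lit 29) (nat_lit 2) (nat_lit 4) (.e false (nat_lit 576) (nat_lit 28) (nat_lit 2) (nat_lit 4) (.e false (nat_lit 576) (nat_lit 39) (nat_lit 0) (nat_lit 6) (.e false (nat_lit 576) (nat_lit 31) (nat_lit 2) (nat_lit 4) .nil)))))))))) .leaf) (nat_lit 40961) (nat_lit 99) (.p (nat_lit 71) (nat_lit 576) .z) .df .leaf)) (nat_lit 40962) (nat_lit 115) (.p (nat_lit 79) (nat_lit 576) .z) .df (.nd (.nd (.nd .leaf (nat_lit 40963) (nat_lit 168) (.p (nat_lit 82) (nat_lit 1440) (.n (nat_lit 83) (nat_lit 2880) (.n (nat_lit 84) (nat_lit 4032) (.n (nat_lit 85) (nat_lit 2592) (.p (nat_lit 86) (nat_lit 2304) (.p (nat_lit 87) (nat_lit 864) (.n (nat_lit 88) (nat_lit 1152) (.p (nat_lit 89) (nat_lit 864) (.n (nat_lit 90) (nat_lit 864) (.p (nat_lit 91) (nat_lit 1728) (.n (nat_lit 92) (nat_lit 288) (.p (nat_lit 93) (nat_lit 1152) (.p (nat_lit 94) (nat_lit 576) (.p (nat_lit 95) (nat_lit 1440) (.p (nat_lit 96) (nat_lit 576) (.p (nat_lit 97) (nat_lit 1152) (.n (nat_lit 98) (nat_lit 2880) (.p (nat_lit 99) (nat_lit 864) (.n (nat_lit 100) (nat_lit 576) (.p (nat_lit 102) (nat_lit 1152) (.p (nat_lit 103) (nat_lit 864) (.n (nat_lit 104) (nat_lit 1440) .z)))))))))))))))))))))) (.ct dP8_c291 (nat_lit 576) (nat_lit 7) (.s false (nat_lit 1) (nat_lit 7) (nat_lit 1) (nat_lit 3) (nat_lit 2) true (nat_lit 4) true (nat_lit 8) true (nat_lit 3) true (nat_lit 9) true (nat_lit 7) (.e false (nat_lit 576) (nat_lit 27) (nat_lit 6) (nat_lit 4) (.e true (nat_lit 576) (nat_lit 28) (nat_lit 6) (nat_lit 4) (.e true (nat_lit 576) (nat_lit 29) (nat_lit 6) (nat_lit 4) (.e true (nat_lit 576) (nat_lit 31) (nat_lit 6) (nat_lit 4) (.e true (nat_lit 576) (nat_lit 44) (nat_lit 2) (nat_lit 8) (.e true (nat_lit 576) (nat_lit 45) (nat_lit 2) (nat_lit 8) (.e true (nat_lit 576) (nat_lit 46) (nat_lit 2) (nat_lit 8) (.e false (nat_lit 576) (nat_lit 47) (nat_lit 2) (nat_lit 8) (.e false (nat_lit 576) (nat_lit 55) (nat_lit 2) (nat_lit 8) (.e false (nat_lit 576) (nat_lit 20) (nat_lit 7) (nat_lit 3) (.e false (nat_lit 576) (nat_lit 65) (nat_lit 1) (nat_lit 9) .nil))))))))))))) .leaf) (nat_lit 40965) (nat_lit 200) (.n (nat_lit 108) (nat_lit 1152) (.n (nat_lit 109) (nat_lit 576) (.p (nat_lit 110) (nat_lit 576) (.p (nat_lit 111) (nat_lit 1728) (.p (nat_lit 112) (nat_lit 1152) (.p (nat_lit 113) (nat_lit 1728) (.p (nat_lit 115) (nat_lit 1152) (.p (nat_lit 118) (nat_lit 576) (.p (nat_lit 119) (nat_lit 576) (.n (nat_lit 120) (nat_lit 1152) (.n (nat_lit 121) (nat_lit 1152) (.n (nat_lit 123) (nat_lit 576) .z)))))))))))) (.ct dP8_c276 (nat_lit 1152) (nat_lit 4) (.s false (nat_lit 1) (nat_lit 7) (nat_lit 0) (nat_lit 7) (nat_lit 1) true (nat_lit 5) true (nat_lit 7) true (nat_lit 2) true (nat_lit 8) true (nat_lit 2) (.s false (nat_lit 2) (nat_lit 7) (nat_lit 1) (nat_lit 5) (nat_lit 2) true (nat_lit 3) true (nat_lit 6) true (nat_lit 2) true (nat_lit 7) true (nat_lit 4) (.s true (nat_lit 1) (nat_lit 7) (nat_lit 2) (nat_lit 2) (nat_lit 3) true (nat_lit 1) true (nat_lit 5) true (nat_lit 2) true (nat_lit 6) true (nat_lit 6) (.s true (nat_lit 2) (nat_lit 7) (nat_lit 3) (nat_lit 2) (nat_lit 2) true (nat_lit 1) true (nat_lit 6) true (nat_lit 2) true (nat_lit 5) true (nat_lit 6) (.s true (nat_lit 2) (nat_lit 12) (nat_lit 2) (nat_lit 2) (nat_lit 2) true (nat_lit 2) true (nat_lit 6) true (nat_lit 1) true (nat_lit 6) true (nat_lit 6) (.s false (nat_lit 2) (nat_lit 16) (nat_lit 1) (nat_lit 2) (nat_lit 2) true (nat_lit 3) true (nat_lit 6) true (nat_lit 0) true (nat_lit 7) true (nat_lit 6) (.s true (nat_lit 2) (nat_lit 16) (nat_lit 2) (nat_lit 1) (nat_lit 2) true (nat_lit 2) true (nat_lit 6) true (nat_lit 0) true (nat_lit 6) true (nat_lit 7) (.s false (nat_lit 3) (nat_lit 19) (nat_lit 0) (nat_lit 1) (nat_lit 2) true (nat_lit 4) true (nat_lit 6) false (nat_lit 1) true (nat_lit 8) true (nat_lit 7) (.s false (nat_lit 1) (nat_lit 19) (nat_lit 1) (nat_lit 2) (nat_lit 0) true (nat_lit 5) true (nat_lit 8) false (nat_lit 1) true (nat_lit 7) true (nat_lit 6) (.s true (nat_lit 3) (nat_lit 19) (nat_lit 2) (nat_lit 1) (nat_lit 0) true (nat_lit 4) true (nat_lit 8) false (nat_lit 1) true (nat_lit 6) true (nat_lit 7) (.e false (nat_lit 1152) (nat_lit 74) (nat_lit 1) (nat_lit 7) (.e true (nat_lit 2304) (nat_lit 30) (nat_lit 7) (nat_lit 2) (.e false (nat_lit 1152) (nat_lit 78) (nat_lit 0) (nat_lit 8) (.e true (nat_lit 2304) (nat_lit 79) (nat_lit 0) (nat_lit 8) (.e true (nat_lit 1152) (nat_lit 37) (nat_lit 6) (nat_lit 3) (.e true (nat_lit 1152) (nat_lit 57) (nat_lit 2) (nat_lit 6) (.e false (nat_lit 1152) (nat_lit 58) (nat_lit 2) (nat_lit 6) (.e false (nat_lit 3456) (nat_lit 59) (nat_lit 2) (nat_lit 6) (.e false (nat_lit 2304) (nat_lit 60) (nat_lit 2) (nat_lit 6) (.e false (nat_lit 3456) (nat_lit 61) (nat_lit 2) (nat_lit 6) (.e false (nat_lit 2304) (nat_lit 63) (nat_lit 2) (nat_lit 6) (.e true (nat_lit 2304) (nat_lit 56) (nat_lit 2) (nat_lit 6) .nil))))))))))))))))))))))) (.nd .leaf (nat_lit 40966) (nat_lit 234) (.n (nat_lit 125) (nat_lit 576) (.p (nat_lit 126) (nat_lit 576) (.p (nat_lit 132) (nat_lit 576) .z))) (.ct dP8_c36 (nat_lit 576) (nat_lit 3) (.s false (nat_lit 1) (nat_lit 6) (nat_lit 2) (nat_lit 2) (nat_lit 6) true (nat_lit 0) true (nat_lit 3) true (nat_lit 3) true (nat_lit 5) true (nat_lit 5) (.s true (nat_lit 1) (nat_lit 17) (nat_lit 1) (nat_lit 2) (nat_lit 2) true (nat_lit 3) true (nat_lit 5) true (nat_lit 0) true (nat_lit 6) true (nat_lit 5) (.e false (nat_lit 576) (nat_lit 39) (nat_lit 6) (nat_lit 3) (.e true (nat_lit 576) (nat_lit 68) (nat_lit 2) (nat_lit 5) (.e false (nat_lit 576) (nat_lit 69) (nat_lit 2) (nat_lit 5) (.e true (nat_lit 576) (nat_lit 70) (nat_lit 2) (nat_lit 5) (.e false (nat_lit 576) (nat_lit 71) (nat_lit 2) (nat_lit 5) (.e true (nat_lit 576) (nat_lit 78) (nat_lit 1) (nat_lit 6) (.e false (nat_lit 576) (nat_lit 80) (nat_lit 1) (nat_lit 6) (.e false (nat_lit 576) (nat_lit 72) (nat_lit 2) (nat_lit 5) .nil))))))))))) .leaf)) (nat_lit 40967) (nat_lit 256) (.n (nat_lit 140) (nat_lit 1152) (.p (nat_lit 141) (nat_lit 1152) (.p (nat_lit 142) (nat_lit 576) .z))) (.ct dP8_c21 (nat_lit 576) (nat_lit 1) (.s true (nat_lit 1) (nat_lit 7) (nat_lit 1) (nat_lit 7) (nat_lit 2) true (nat_lit 2) true (nat_lit 3) true (nat_lit 1) true (nat_lit 4) true (nat_lit 1) (.e true (nat_lit 1152) (nat_lit 78) (nat_lit 2) (nat_lit 3) (.e false (nat_lit 1152) (nat_lit 79) (nat_lit 2) (nat_lit 3) (.e false (nat_lit 576) (nat_lit 39) (nat_lit 7) (nat_lit 1) .nil))))) (.nd (.nd .leaf (nat_lit 40970) (nat_lit 374) (.n (nat_lit 144) (nat_lit 5024) (.p (nat_lit 145) (nat_lit 6368) (.p (nat_lit 146) (nat_lit 8576) (.p (nat_lit 147) (nat_lit 5184) (.n (nat_lit 148) (nat_lit 3040) (.n (nat_lit 149) (nat_lit 2560) (.p (nat_lit 150) (nat_lit 2368) (.p (nat_lit 151) (nat_lit 256) (.p (nat_lit 152) (nat_lit 928) (.n (nat_lit 153) (nat_lit 4960) (.p (nat_lit 154) (nat_lit 960) (.n (nat_lit 155) (nat_lit 2560) (.n (nat_lit 156) (nat_lit 1120) (.n (nat_lit 157) (nat_lit 1728) (.n (nat_lit 158) (nat_lit 3024) (.p (nat_lit 159) (nat_lit 6672) (.n (nat_lit 160) (nat_lit 1904) (.p (nat_lit 161) (nat_lit 1200) (.p (nat_lit 162) (nat_lit 96) (.n (nat_lit 163) (nat_lit 2208) (.n (nat_lit 164) (nat_lit 1472) (.n (nat_lit 165) (nat_lit 672) (.p (nat_lit 166) (nat_lit 736) (.n (nat_lit 167) (nat_lit 352) (.n (nat_lit 168) (nat_lit 672) (.p (nat_lit 169) (nat_lit 1536) (.n (nat_lit 170) (nat_lit 768) (.n (nat_lit 171) (nat_lit 960) (.n (nat_lit 172) (nat_lit 1536) (.p (nat_lit 176) (nat_lit 96) (.n (nat_lit 177) (nat_lit 192) (.n (nat_lit 178) (nat_lit 192) (.p (nat_lit 179) (nat_lit 192) (.p (nat_lit 180) (nat_lit 768) .z)))))))))))))))))))))))))))))))))) (.ct dP8_c292 (nat_lit 576) (nat_lit 4) (.s true (nat_lit 1) (nat_lit 10) (nat_lit 2) (nat_lit 1) (nat_lit 7) true (nat_lit 0) true (nat_lit 6) true (nat_lit 4) true (nat_lit 11) true (nat_lit 12) (.e false (nat_lit 576) (nat_lit 22) (nat_lit 19) (nat_lit 0) (.e true (nat_lit 576) (nat_lit 47) (nat_lit 7) (nat_lit 6) (.e false (nat_lit 576) (nat_lit 39) (nat_lit 10) (nat_lit 4) (.e true (nat_lit 576) (nat_lit 82) (nat_lit 2) (nat_lit 11) (.e true (nat_lit 576) (nat_lit 89) (nat_lit 2) (nat_lit 11) (.e false (nat_lit 576) (nat_lit 90) (nat_lit 2) (nat_lit 11) (.e false (nat_lit 576) (nat_lit 104) (nat_lit 2) (nat_lit 11) (.e false (nat_lit 576) (nat_lit 117) (nat_lit 1) (nat_lit 12) .nil)))))))))) .leaf) (nat_lit 40971) (nat_lit 369) (.n (nat_lit 144) (nat_lit 5556) (.p (nat_lit 145) (nat_lit 14592) (.p (nat_lit 146) (nat_lit 14700) (.p (nat_lit 147) (nat_lit 9072) (.n (nat_lit 148) (nat_lit 12120) (.n (nat_lit 149) (nat_lit 5352) (.n (nat_lit 150) (nat_lit 2496) (.p (nat_lit 151) (nat_lit 2076) (.p (nat_lit 152) (nat_lit 1860) (.n (nat_lit 153) (nat_lit 13740) (.p (nat_lit 154) (nat_lit 2772) (.n (nat_lit 155) (nat_lit 9384) (.p (nat_lit 156) (nat_lit 912) (.n (nat_lit 157) (nat_lit 5472) (.n (nat_lit 158) (nat_lit 7866) (.p (nat_lit 159) (nat_lit 13626) (.n (nat_lit 160) (nat_lit 5610) (.p (nat_lit 161) (nat_lit 2430) (.p (nat_lit 162) (nat_lit 576) (.n (nat_lit 163) (nat_lit 2484) (.n (nat_lit 164) (nat_lit 804) (.p (nat_lit 165) (nat_lit 3132) (.p (nat_lit 166) (nat_lit 5604) (.n (nat_lit 167) (nat_lit 4308) (.n (nat_lit 168) (nat_lit 3708) (.p (nat_lit 169) (nat_lit 2448) (.n (nat_lit 170) (nat_lit 1224) (.n (nat_lit 171) (nat_lit 2448) (.n (nat_lit 172) (nat_lit 2448) (.p (nat_lit 176) (nat_lit 612) (.n (nat_lit 177) (nat_lit 648) (.p (nat_lit 178) (nat_lit 1224) (.n (nat_lit 179) (nat_lit 1224) (.p (nat_lit 180) (nat_lit 1224) .z)))))))))))))))))))))))))))))))))) (.ct dP8_c292 (nat_lit 576) (nat_lit 4) (.s true (nat_lit 1) (nat_lit 40) (nat_lit 0) (nat_lit 2) (nat_lit 1) true (nat_lit 10) true (nat_lit 12) false (nat_lit 4) true (nat_lit 13) true (nat_lit 11) (.e true (nat_lit 576) (nat_lit 79) (nat_lit 3) (nat_lit 10) (.e true (nat_lit 576) (nat_lit 109) (nat_lit 1) (nat_lit 12) (.e true (nat_lit 576) (nat_lit 110) (nat_lit 1) (nat_lit 12) (.e false (nat_lit 576) (nat_lit 111) (nat_lit 1) (nat_lit 12) (.e true (nat_lit 576) (nat_lit 113) (nat_lit 1) (nat_lit 12) (.e false (nat_lit 576) (nat_lit 114) (nat_lit 1) (nat_lit 12) (.e false (nat_lit 576) (nat_lit 115) (nat_lit 1) (nat_lit 12) (.e true (nat_lit 576) (nat_lit 116) (nat_lit 1) (nat_lit 12) (.e true (nat_lit 576) (nat_lit 125) (nat_lit 0) (nat_lit 13) (.e false (nat_lit 576) (nat_lit 126) (nat_lit 0) (nat_lit 13) (.e false (nat_lit 576) (nat_lit 132) (nat_lit 0) (nat_lit 13) (.e true (nat_lit 576) (nat_lit 100) (nat_lit 2) (nat_lit 11) .nil)))))))))))))) .leaf))))))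

noncomputable def dP8_t2 : Tr := (.nd dP8_t0 (nat_lit 24595) (nat_lit 337) (.n (nat_lit 144) (nat_lit 1662) (.p (nat_lit 145) (nat_lit 3264) (.p (nat_lit 146) (nat_lit 4146) (.p (nat_lit 147) (nat_lit 2952) (.n (nat_lit 148) (nat_lit 2532) (.n (nat_lit 149) (nat_lit 156) (.p (nat_lit 150) (nat_lit 1056) (.p (nat_lit 151) (nat_lit 570) (.p (nat_lit 152) (nat_lit 822) (.n (nat_lit 153) (nat_lit 3378) (.p (nat_lit 154) (nat_lit 270) (.n (nat_lit 155) (nat_lit 2460) (.n (nat_lit 156) (nat_lit 264) (.n (nat_lit 157) (nat_lit 720) (.n (nat_lit 158) (nat_lit 1071) (.p (nat_lit 159) (nat_lit 3951) (.n (nat_lit 160) (nat_lit 1527) (.p (nat_lit 161) (nat_lit 549) (.n (nat_lit 163) (nat_lit 414) (.n (nat_lit 164) (nat_lit 726) (.n (nat_lit 165) (nat_lit 918) (.p (nat_lit 166) (nat_lit 390) (.n (nat_lit 167) (nat_lit 174) (.p (nat_lit 168) (nat_lit 54) (.p (nat_lit 169) (nat_lit 216) (.n (nat_lit 170) (nat_lit 108) (.n (nat_lit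 171) (nat_lit 216) (.n (nat_lit 172) (nat_lit 216) (.p (nat_lit 176) (nat_lit 54) (.n (nat_lit 177) (nat_lit 108) (.p (nat_lit 178) (nat_lit 828) (.n (nat_lit 179) (nat_lit 252) (.p (nat_lit 180) (nat_lit 108) .z))))))))))))))))))))))))))))))))) (.ct dP8_c292 (nat_lit 576) (nat_lit 0) (.s false (nat_lit 1) (nat_lit 24) (nat_lit 2) (nat_lit 2) (nat_lit 2) true (nat_lit 6) true (nat_lit 11) false (nat_lit 0) true (nat_lit 11) true (nat_lit 11) dP8_i71)) dP8_t1)

noncomputable def dP8_t3 : Tr := (.nd (.nd (.nd (.nd (.nd (.nd (.nd .leaf (nat_lit 40975) (nat_lit 431) (.p (nat_lit 181) (nat_lit 2592) (.n (nat_lit 182) (nat_lit 2592) (.n (nat_lit 183) (nat_lit 1728) (.n (nat_lit 184) (nat_lit 3456) (.n (nat_lit 185) (nat_lit 4320) (.p (nat_lit 186) (nat_lit 2160) (.p (nat_lit 187) (nat_lit 1152) (.n (nat_lit 188) (nat_lit 2160) (.p (nat_lit 189) (nat_lit 720) (.p (nat_lit 190) (nat_lit 1728) (.p (nat_lit 191) (nat_lit 1728) (.n (nat_lit 192) (nat_lit 2592) (.p (nat_lit 194) (nat_lit 864) (.p (nat_lit 196) (nat_lit 576) (.p (nat_lit 197) (nat_lit 576) .z))))))))))))))) (.ct dP8_c277 (nat_lit 576) (nat_lit 2) (.s true (nat_lit 1) (nat_lit 40) (nat_lit 0) (nat_lit 2) (nat_lit 2) true (nat_lit 6) true (nat_lit 8) false (nat_lit 2) true (nat_lit 10) true (nat_lit 8) (.e true (nat_lit 576) (nat_lit 79) (nat_lit 5) (nat_lit 6) (.e true (nat_lit 576) (nat_lit 109) (nat_lit 2) (nat_lit 8) (.e true (nat_lit 576) (nat_lit 110) (nat_lit 2) (nat_lit 8) (.e false (nat_lit 576) (nat_lit 111) (nat_lit 2) (nat_lit 8) (.e true (nat_lit 576) (nat_lit 113) (nat_lit 2) (nat_lit 8) (.e false (nat_lit 576) (nat_lit 114) (nat_lit 2) (nat_lit 8) (.e false (nat_lit 576) (nat_lit 115) (nat_lit 2) (nat_lit 8) (.e true (nat_lit 576) (nat_lit 116) (nat_lit 2) (nat_lit 8) (.e true (nat_lit 1152) (nat_lit 140) (nat_lit 0) (nat_lit 10) (.e false (nat_lit 1152) (nat_lit 141) (nat_lit 0) (nat_lit 10) (.e false (nat_lit 576) (nat_lit 142) (nat_lit 0) (nat_lit 10) (.e true (nat_lit 576) (nat_lit 120) (nat_lit 2) (nat_lit 8) .nil)))))))))))))) .leaf) (nat_lit 40976) (nat_lit 436) (.n (nat_lit 181) (nat_lit 2592) (.p (nat_lit 182) (nat_lit 2592) (.p (nat_lit 184) (nat_lit 2304) (.p (nat_lit 185) (nat_lit 2592) (.n (nat_lit 186) (nat_lit 1296) (.n (nat_lit 187) (nat_lit 1152) (.p (nat_lit 188) (nat_lit 1296) (.p (nat_lit 189) (nat_lit 432) (.n (nat_lit 190) (nat_lit 864) (.n (nat_lit 191) (nat_lit 864) (.p (nat_lit 192) (nat_lit 864) (.n (nat_lit 193) (nat_lit 288) (.n (nat_lit 194) (nat_lit 864) (.n (nat_lit 198) (nat_lit 576) .z)))))))))))))) (.ct dP8_c277 (nat_lit 576) (nat_lit 2) (.s false (nat_lit 1) (nat_lit 16) (nat_lit 2) (nat_lit 2) (nat_lit 6) true (nat_lit 1) true (nat_lit 5) true (nat_lit 2) true (nat_lit 8) true (nat_lit 8) (.s true (nat_lit 1) (nat_lit 36) (nat_lit 1) (nat_lit 2) (nat_lit 2) true (nat_lit 5) true (nat_lit 8) false (nat_lit 1) true (nat_lit 9) true (nat_lit 8) (.e false (nat_lit 576) (nat_lit 39) (nat_lit 16) (nat_lit 2) (.e true (nat_lit 1152) (nat_lit 114) (nat_lit 2) (nat_lit 8) (.e false (nat_lit 1152) (nat_lit 118) (nat_lit 2) (nat_lit 8) (.e true (nat_lit 576) (nat_lit 121) (nat_lit 2) (nat_lit 8) (.e false (nat_lit 576) (nat_lit 137) (nat_lit 1) (nat_lit 9) .nil)))))))) (.nd .leaf (nat_lit 40977) (nat_lit 467) (.p (nat_lit 200) (nat_lit 1728) (.n (nat_lit 201) (nat_lit 1728) (.n (nat_lit 205) (nat_lit 2304) (.p (nat_lit 206) (nat_lit 2304) (.n (nat_lit 207) (nat_lit 2304) (.n (nat_lit 208) (nat_lit 1152) (.p (nat_lit 209) (nat_lit 576) .z))))))) (.ct dP8_c37 (nat_lit 576) (nat_lit 1) (.s false (nat_lit 1) (nat_lit 19) (nat_lit 2) (nat_lit 1) (nat_lit 6) true (nat_lit 1) true (nat_lit 4) true (nat_lit 0) true (nat_lit 6) true (nat_lit 7) (.e false (nat_lit 576) (nat_lit 80) (nat_lit 6) (nat_lit 4) (.e false (nat_lit 576) (nat_lit 129) (nat_lit 2) (nat_lit 6) (.e true (nat_lit 576) (nat_lit 132) (nat_lit 2) (nat_lit 6) .nil))))) .leaf)) (nat_lit 40978) (nat_lit 463) (.n (nat_lit 200) (nat_lit 1728) (.p (nat_lit 201) (nat_lit 1728) (.p (nat_lit 202) (nat_lit 576) (.n (nat_lit 204) (nat_lit 576) (.p (nat_lit 205) (nat_lit 576) (.n (nat_lit 206) (nat_lit 3456) (.p (nat_lit 207) (nat_lit 4032) (.p (nat_lit 208) (nat_lit 1728) (.p (nat_lit 209) (nat_lit 576) .z))))))))) (.ct dP8_c37 (nat_lit 576) (nat_lit 1) (.s false (nat_lit 1) (nat_lit 40) (nat_lit 2) (nat_lit 2) (nat_lit 1) true (nat_lit 4) true (nat_lit 7) false (nat_lit 1) true (nat_lit 6) true (nat_lit 6) (.e false (nat_lit 576) (nat_lit 79) (nat_lit 6) (nat_lit 4) (.e false (nat_lit 576) (nat_lit 141) (nat_lit 1) (nat_lit 7) (.e false (nat_lit 576) (nat_lit 125) (nat_lit 2) (nat_lit 6) (.e true (nat_lit 576) (nat_lit 126) (nat_lit 2) (nat_lit 6) (.e true (nat_lit 576) (nat_lit 132) (nat_lit 2) (nat_lit 6) (.e true (nat_lit 576) (nat_lit 128) (nat_lit 2) (nat_lit 6) .nil)))))))) (.nd (.nd .leaf (nat_lit 41984) (nat_lit 109) (.p (nat_lit 76) (nat_lit 576) .z) .df .leaf) (nat_lit 41985) (nat_lit 116) (.p (nat_lit 80) (nat_lit 576) .z) .df (.nd .leaf (nat_lit 41986) (nat_lit 120) (.p (nat_lit 81) (nat_lit 576) .z) .df .leaf))) (nat_lit 41987) (nat_lit 219) (.n (nat_lit 109) (nat_lit 576) (.n (nat_lit 110) (nat_lit 576) (.p (nat_lit 111) (nat_lit 576) (.n (nat_lit 113) (nat_lit 576) (.p (nat_lit 114) (nat_lit 576) (.p (nat_lit 115) (nat_lit 1152) (.n (nat_lit 116) (nat_lit 576) (.p (nat_lit 117) (nat_lit 576) (.p (nat_lit 118) (nat_lit 576) (.p (nat_lit 119) (nat_lit 576) (.n (nat_lit 120) (nat_lit 1152) (.n (nat_lit 121) (nat_lit 576) .z)))))))))))) (.ct dP8_c276 (nat_lit 576) (nat_lit 5) (.s true (nat_lit 1) (nat_lit 19) (nat_lit 1) (nat_lit 2) (nat_lit 0) true (nat_lit 5) true (nat_lit 8) false (nat_lit 1) true (nat_lit 7) true (nat_lit 6) (.e true (nat_lit 576) (nat_lit 79) (nat_lit 0) (nat_lit 8) (.e false (nat_lit 576) (nat_lit 19) (nat_lit 12) (nat_lit 1) (.e false (nat_lit 576) (nat_lit 75) (nat_lit 1) (nat_lit 7) (.e false (nat_lit 576) (nat_lit 76) (nat_lit 1) (nat_lit 7) (.e false (nat_lit 576) (nat_lit 63) (nat_lit 2) (nat_lit 6) .nil))))))) (.nd (.nd (.nd .leaf (nat_lit 41989) (nat_lit 245) (.p (nat_lit 138) (nat_lit 576) .z) .df .leaf) (nat_lit 41990) (nat_lit 255) (.p (nat_lit 143) (nat_lit 576) .z) .df (.nd .leaf (nat_lit 41992) (nat_lit 376) (.n (nat_lit 144) (nat_lit 3914) (.p (nat_lit 145) (nat_lit 3584) (.p (nat_lit 146) (nat_lit 4550) (.p (nat_lit 147) (nat_lit 2520) (.n (nat_lit 148) (nat_lit 460) (.n (nat_lit 149) (nat_lit 2932) (.p (nat_lit 150) (nat_lit 3424) (.n (nat_lit 151) (nat_lit 290) (.n (nat_lit 152) (nat_lit 14) (.n (nat_lit 153) (nat_lit 1606) (.p (nat_lit 154) (nat_lit 1338) (.p (nat_lit 155) (nat_lit 524) (.n (nat_lit 156) (nat_lit 1816) (.n (nat_lit 157) (nat_lit 432) (.n (nat_lit 158) (nat_lit 2709) (.p (nat_lit 159) (nat_lit 2901) (.n (nat_lit 160) (nat_lit 173) (.p (nat_lit 161) (nat_lit 903) (.p (nat_lit 162) (nat_lit 384) (.n (nat_lit 163) (nat_lit 1002) (.n (nat_lit 164) (nat_lit 722) (.p (nat_lit 165) (nat_lit 750) (.p (nat_lit 166) (nat_lit 802) (.n (nat_lit 167) (nat_lit 346) (.n (nat_lit 168) (nat_lit 1806) (.p (nat_lit 169) (nat_lit 1608) (.n (nat_lit 170) (nat_lit 804) (.n (nat_lit 171) (nat_lit 1032) (.n (nat_lit 172) (nat_lit 1608) (.p (nat_lit 176) (nat_lit 114) (.n (nat_lit 177) (nat_lit 228) (.n (nat_lit 178) (nat_lit 876) (.p (nat_lit 179) (nat_lit 876) (.p (nat_lit 180) (nat_lit 804) .z)))))))))))))))))))))))))))))))))) (.ct dP8_c292 (nat_lit 576) (nat_lit 5) (.s false (nat_lit 1) (nat_lit 41) (nat_lit 1) (nat_lit 0) (nat_lit 1) true (nat_lit 9) true (nat_lit 12) false (nat_lit 5) true (nat_lit 12) true (nat_lit 13) (.e true (nat_lit 576) (nat_lit 76) (nat_lit 4) (nat_lit 9) (.e false (nat_lit 576) (nat_lit 108) (nat_lit 1) (nat_lit 12) (.e true (nat_lit 576) (nat_lit 109) (nat_lit 1) (nat_lit 12) (.e false (nat_lit 1152) (nat_lit 110) (nat_lit 1) (nat_lit 12) (.e true (nat_lit 288) (nat_lit 114) (nat_lit 1) (nat_lit 12) (.e true (nat_lit 864) (nat_lit 115) (nat_lit 1) (nat_lit 12) (.e false (nat_lit 288) (nat_lit 116) (nat_lit 1) (nat_lit 12) (.e true (nat_lit 1728) (nat_lit 117) (nat_lit 1) (nat_lit 12) (.e true (nat_lit 864) (nat_lit 118) (nat_lit 1) (nat_lit 12) (.e true (nat_lit 864) (nat_lit 119) (nat_lit 1) (nat_lit 12) (.e false (nat_lit 2016) (nat_lit 120) (nat_lit 1) (nat_lit 12) (.e false (nat_lit 864) (nat_lit 121) (nat_lit 1) (nat_lit 12) (.e false (nat_lit 288) (nat_lit 123) (nat_lit 1) (nat_lit 12) (.e false (nat_lit 576) (nat_lit 113) (nat_lit 1) (nat_lit 12) (.e false (nat_lit 576) (nat_lit 131) (nat_lit 0) (nat_lit 13) .nil))))))))))))))))) .leaf)) (nat_lit 41994) (nat_lit 435) (.n (nat_lit 189) (nat_lit 576) (.p (nat_lit 197) (nat_lit 576) .z)) (.ct dP8_c277 (nat_lit 576) (nat_lit 3) (.s true (nat_lit 1) (nat_lit 19) (nat_lit 3) (nat_lit 2) (nat_lit 2) true (nat_lit 3) true (nat_lit 8) true (nat_lit 0) true (nat_lit 7) true (nat_lit 8) (.e true (nat_lit 1152) (nat_lit 109) (nat_lit 2) (nat_lit 8) (.e false (nat_lit 1152) (nat_lit 111) (nat_lit 2) (nat_lit 8) (.e false (nat_lit 576) (nat_lit 26) (nat_lit 19) (nat_lit 0) (.e false (nat_lit 576) (nat_lit 114) (nat_lit 2) (nat_lit 8) (.e false (nat_lit 1152) (nat_lit 115) (nat_lit 2) (nat_lit 8) (.e true (nat_lit 576) (nat_lit 116) (nat_lit 2) (nat_lit 8) (.e false (nat_lit 576) (nat_lit 118) (nat_lit 2) (nat_lit 8) (.e false (nat_lit 576) (nat_lit 119) (nat_lit 2) (nat_lit 8) (.e true (nat_lit 1152) (nat_lit 120) (nat_lit 2) (nat_lit 8) (.e true (nat_lit 576) (nat_lit 121) (nat_lit 2) (nat_lit 8) .nil)))))))))))) (.nd (.nd .leaf (nat_lit 41996) (nat_lit 439) (.n (nat_lit 183) (nat_lit 576) (.n (nat_lit 184) (nat_lit 1152) (.n (nat_lit 185) (nat_lit 576) (.p (nat_lit 186) (nat_lit 288) (.n (nat_lit 187) (nat_lit 288) (.n (nat_lit 188) (nat_lit 288) (.p (nat_lit 189) (nat_lit 1440) (.p (nat_lit 190) (nat_lit 1152) (.p (nat_lit 191) (nat_lit 1152) (.n (nat_lit 192) (nat_lit 1440) (.n (nat_lit 193) (nat_lit 576) (.n (nat_lit 194) (nat_lit 864) (.p (nat_lit 196) (nat_lit 576) (.n (nat_lit 198) (nat_lit 576) .z)))))))))))))) (.ct dP8_c277 (nat_lit 576) (nat_lit 3) (.s false (nat_lit 1) (nat_lit 19) (nat_lit 6) (nat_lit 2) (nat_lit 0) true (nat_lit 3) true (nat_lit 10) true (nat_lit 0) true (nat_lit 5) true (nat_lit 8) (.e true (nat_lit 576) (nat_lit 31) (nat_lit 19) (nat_lit 0) (.e false (nat_lit 576) (nat_lit 75) (nat_lit 6) (nat_lit 5) (.e false (nat_lit 576) (nat_lit 76) (nat_lit 6) (nat_lit 5) (.e true (nat_lit 576) (nat_lit 123) (nat_lit 2) (nat_lit 8) .nil)))))) .leaf) (nat_lit 41997) (nat_lit 472) (.p (nat_lit 200) (nat_lit 1728) (.n (nat_lit 201) (nat_lit 1728) (.n (nat_lit 202) (nat_lit 576) (.p (nat_lit 204) (nat_lit 576) (.n (nat_lit 205) (nat_lit 1728) (.p (nat_lit 206) (nat_lit 3456) (.n (nat_lit 207) (nat_lit 4032) (.n (nat_lit 208) (nat_lit 1728) (.p (nat_lit 209) (nat_lit 576) .z))))))))) (.ct dP8_c37 (nat_lit 576) (nat_lit 2) (.s false (nat_lit 1) (nat_lit 41) (nat_lit 1) (nat_lit 1) (nat_lit 2) true (nat_lit 4) true (nat_lit 6) false (nat_lit 2) true (nat_lit 7) true (nat_lit 7) (.e false (nat_lit 576) (nat_lit 80) (nat_lit 6) (nat_lit 4) (.e false (nat_lit 576) (nat_lit 131) (nat_lit 2) (nat_lit 6) (.e false (nat_lit 1152) (nat_lit 140) (nat_lit 1) (nat_lit 7) (.e true (nat_lit 1728) (nat_lit 141) (nat_lit 1) (nat_lit 7) (.e true (nat_lit 576) (nat_lit 142) (nat_lit 1) (nat_lit 7) .nil))))))) .leaf))) (nat_lit 43010) (nat_lit 164) (.n (nat_lit 82) (nat_lit 288) (.p (nat_lit 83) (nat_lit 1152) (.p (nat_lit 84) (nat_lit 576) (.p (nat_lit 85) (nat_lit 288) (.n (nat_lit 87) (nat_lit 864) (.p (nat_lit 88) (nat_lit 576) (.n (nat_lit 89) (nat_lit 288) (.n (nat_lit 90) (nat_lit 288) (.p (nat_lit 92) (nat_lit 864) (.p (nat_lit 93) (nat_lit 576) (.n (nat_lit 94) (nat_lit 576) (.n (nat_lit 95) (nat_lit 288) (.n (nat_lit 97) (nat_lit 864) (.p (nat_lit 98) (nat_lit 288) (.p (nat_lit 100) (nat_lit 288) (.p (nat_lit 102) (nat_lit 576) (.p (nat_lit 103) (nat_lit 288) (.p (nat_lit 104) (nat_lit 288) (.n (nat_lit 107) (nat_lit 1152) .z))))))))))))))))))) (.ct dP8_c291 (nat_lit 576) (nat_lit 8) (.s false (nat_lit 1) (nat_lit 6) (nat_lit 0) (nat_lit 6) (nat_lit 2) true (nat_lit 5) true (nat_lit 8) true (nat_lit 4) true (nat_lit 10) true (nat_lit 4) (.e true (nat_lit 576) (nat_lit 43) (nat_lit 2) (nat_lit 8) (.e false (nat_lit 1152) (nat_lit 44) (nat_lit 2) (nat_lit 8) (.e false (nat_lit 1728) (nat_lit 45) (nat_lit 2) (nat_lit 8) (.e false (nat_lit 1152) (nat_lit 46) (nat_lit 2) (nat_lit 8) (.e false (nat_lit 576) (nat_lit 47) (nat_lit 2) (nat_lit 8) (.e false (nat_lit 576) (nat_lit 49) (nat_lit 2) (nat_lit 8) (.e true (nat_lit 576) (nat_lit 50) (nat_lit 2) (nat_lit 8) (.e true (nat_lit 576) (nat_lit 51) (nat_lit 2) (nat_lit 8) (.e false (nat_lit 576) (nat_lit 53) (nat_lit 2) (nat_lit 8) (.e true (nat_lit 1152) (nat_lit 54) (nat_lit 2) (nat_lit 8) (.e true (nat_lit 576) (nat_lit 55) (nat_lit 2) (nat_lit 8) (.e true (nat_lit 576) (nat_lit 28) (nat_lit 6) (nat_lit 4) (.e true (nat_lit 288) (nat_lit 68) (nat_lit 0) (nat_lit 10) (.e false (nat_lit 288) (nat_lit 69) (nat_lit 0) (nat_lit 10) (.e true (nat_lit 288) (nat_lit 70) (nat_lit 0) (nat_lit 10) (.e false (nat_lit 288) (nat_lit 71) (nat_lit 0) (nat_lit 10) (.e true (nat_lit 576) (nat_lit 31) (nat_lit 6) (nat_lit 4) .nil))))))))))))))))))) (.nd (.nd (.nd (.nd .leaf (nat_lit 43015) (nat_lit 345) (.n (nat_lit 144) (nat_lit 3566) (.p (nat_lit 145) (nat_lit 1472) (.p (nat_lit 146) (nat_lit 2690) (.p (nat_lit 147) (nat_lit 1800) (.p (nat_lit 148) (nat_lit 1532) (.n (nat_lit 149) (nat_lit 1660) (.p (nat_lit 150) (nat_lit 3232) (.n (nat_lit 151) (nat_lit 374) (.n (nat_lit 152) (nat_lit 26) (.p (nat_lit 153) (nat_lit 638) (.p (nat_lit 154) (nat_lit 510) (.p (nat_lit 155) (nat_lit 1796) (.n (nat_lit 156) (nat_lit 1480) (.n (nat_lit 157) (nat_lit 144) (.n (nat_lit 158) (nat_lit 711) (.p (nat_lit 159) (nat_lit 903) (.p (nat_lit 160) (nat_lit 625) (.p (nat_lit 161) (nat_lit 237) (.n (nat_lit 162) (nat_lit 192) (.n (nat_lit 163) (nat_lit 1038) (.n (nat_lit 164) (nat_lit 806) (.n (nat_lit 165) (nat_lit 6) (.n (nat_lit 166) (nat_lit 74) (.p (nat_lit 167) (nat_lit 98) (.n (nat_lit 168) (nat_lit 474) (.p (nat_lit 169) (nat_lit 1176) (.n (nat_lit 170) (nat_lit 588) (.n (nat_lit 171) (nat_lit 600) (.n (nat_lit 172) (nat_lit 1176) (.p (nat_lit 176) (nat_lit 6) (.n (nat_lit 177) (nat_lit 12) (.n (nat_lit 178) (nat_lit 1092) (.p (nat_lit 179) (nat_lit 1092) (.p (nat_lit 180) (nat_lit 588) .z)))))))))))))))))))))))))))))))))) (.ct dP8_c292 (nat_lit 576) (nat_lit 6) (.s false (nat_lit 1) (nat_lit 7) (nat_lit 6) (nat_lit 0) (nat_lit 6) false (nat_lit 2) true (nat_lit 7) true (nat_lit 6) true (nat_lit 7) true (nat_lit 13) (.s true (nat_lit 1) (nat_lit 10) (nat_lit 2) (nat_lit 1) (nat_lit 7) true (nat_lit 0) true (nat_lit 6) true (nat_lit 4) true (nat_lit 11) true (nat_lit 12) (.s true (nat_lit 1) (nat_lit 10) (nat_lit 2) (nat_lit 2) (nat_lit 6) true (nat_lit 1) true (nat_lit 7) true (nat_lit 4) true (nat_lit 11) true (nat_lit 11) (.s false (nat_lit 1) (nat_lit 10) (nat_lit 2) (nat_lit 6) (nat_lit 2) true (nat_lit 6) true (nat_lit 11) true (nat_lit 4) true (nat_lit 11) true (nat_lit 7) dP8_i77))))) .leaf) (nat_lit 44034) (nat_lit 122) (.p (nat_lit 82) (nat_lit 576) .z) .df (.nd .leaf (nat_lit 44039) (nat_lit 311) (.n (nat_lit 144) (nat_lit 1436) (.p (nat_lit 145) (nat_lit 224) (.p (nat_lit 146) (nat_lit 1316) (.p (nat_lit 147) (nat_lit 144) (.p (nat_lit 148) (nat_lit 1112) (.n (nat_lit 149) (nat_lit 1144) (.p (nat_lit 150) (nat_lit 1024) (.p (nat_lit 151) (nat_lit 244) (.n (nat_lit 152) (nat_lit 308) (.p (nat_lit 153) (nat_lit 956) (.p (nat_lit 154) (nat_lit 348) (.p (nat_lit 155) (nat_lit 1736) (.n (nat_lit 156) (nat_lit 1072) (.p (nat_lit 157) (nat_lit 288) (.n (nat_lit 158) (nat_lit 846) (.n (nat_lit 159) (nat_lit 114) (.p (nat_lit 160) (nat_lit 514) (.p (nat_lit 161) (nat_lit 282) (.p (nat_lit 162) (nat_lit 96) (.n (nat_lit 163) (nat_lit 732) (.n (nat_lit 164) (nat_lit 332) (.n (nat_lit 165) (nat_lit 204) (.n (nat_lit 166) (nat_lit 212) (.n (nat_lit 167) (nat_lit 124) (.p (nat_lit 168) (nat_lit 12) (.p (nat_lit 169) (nat_lit 816) (.n (nat_lit 170) (nat_lit 408) (.n (nat_lit 171) (nat_lit 240) (.n (nat_lit 172) (nat_lit 816) (.n (nat_lit 176) (nat_lit 84) (.p (nat_lit 177) (nat_lit 168) (.n (nat_lit 178) (nat_lit 552) (.p (nat_lit 179) (nat_lit 552) (.p (nat_lit 180) (nat_lit 408) .z)))))))))))))))))))))))))))))))))) (.ct dP8_c292 (nat_lit 9216) (nat_lit 6) (.s true (nat_lit 3) (nat_lit 7) (nat_lit 0) (nat_lit 4) (nat_lit 7) true (nat_lit 2) true (nat_lit 6) true (nat_lit 6) true (nat_lit 13) true (nat_lit 9) (.s true (nat_lit 4) (nat_lit 7) (nat_lit 0) (nat_lit 7) (nat_lit 4) true (nat_lit 5) true (nat_lit 9) true (nat_lit 6) true (nat_lit 13) true (nat_lit 6) (.s false (nat_lit 4) (nat_lit 7) (nat_lit 1) (nat_lit 3) (nat_lit 7) true (nat_lit 1) true (nat_lit 6) true (nat_lit 6) true (nat_lit 12) true (nat_lit 10) (.s false (nat_lit 8) (nat_lit 7) (nat_lit 1) (nat_lit 7) (nat_lit 3) true (nat_lit 5) true (nat_lit 10) true (nat_lit 6) true (nat_lit 12) true (nat_lit 6) dP8_i41))))) .leaf)) (nat_lit 45058) (nat_lit 123) (.p (nat_lit 83) (nat_lit 576) .z) .df (.nd (.nd .leaf (nat_lit 45063) (nat_lit 317) (.n (nat_lit 144) (nat_lit 2478) (.p (nat_lit 145) (nat_lit 7104) (.p (nat_lit 146) (nat_lit 6978) (.p (nat_lit 147) (nat_lit 3528) (.n (nat_lit 148) (nat_lit 5892) (.n (nat_lit 149) (nat_lit 4092) (.n (nat_lit 150) (nat_lit 1632) (.p (nat_lit 151) (nat_lit 330) (.p (nat_lit 152) (nat_lit 294) (.n (nat_lit 153) (nat_lit 6594) (.p (nat_lit 154) (nat_lit 1854) (.n (nat_lit 155) (nat_lit 4092) (.p (nat_lit 156) (nat_lit 696) (.n (nat_lit 157) (nat_lit 3024) (.n (nat_lit 158) (nat_lit 4455) (.p (nat_lit 159) (nat_lit 6183) (.n (nat_lit 160) (nat_lit 2415) (.p (nat_lit 161) (nat_lit 1485) (.p (nat_lit 162) (nat_lit 576) (.n (nat_lit 163) (nat_lit 846) (.p (nat_lit 164) (nat_lit 186) (.p (nat_lit 165) (nat_lit 3258) (.p (nat_lit 166) (nat_lit 3318) (.n (nat_lit 167) (nat_lit 2526) (.n (nat_lit 168) (nat_lit 2970) (.p (nat_lit 169) (nat_lit 1944) (.n (nat_lit 170) (nat_lit 972) (.n (nat_lit 171) (nat_lit 1944) (.n (nat_lit 172) (nat_lit 1944) (.p (nat_lit 176) (nat_lit 486) (.n (nat_lit 177) (nat_lit 396) (.n (nat_lit 178) (nat_lit 36) (.p (nat_lit 179) (nat_lit 36) (.p (nat_lit 180) (nat_lit 972) .z)))))))))))))))))))))))))))))))))) (.ct dP8_c292 (nat_lit 2304) (nat_lit 6) (.s false (nat_lit 1) (nat_lit 7) (nat_lit 0) (nat_lit 4) (nat_lit 7) true (nat_lit 2) true (nat_lit 6) true (nat_lit 6) true (nat_lit 13) true (nat_lit 9) (.s false (nat_lit 1) (nat_lit 7) (nat_lit 0) (nat_lit 7) (nat_lit 4) true (nat_lit 5) true (nat_lit 9) true (nat_lit 6) true (nat_lit 13) true (nat_lit 6) (.s false (nat_lit 1) (nat_lit 16) (nat_lit 1) (nat_lit 1) (nat_lit 7) true (nat_lit 1) true (nat_lit 6) true (nat_lit 2) true (nat_lit 12) true (nat_lit 12) (.s false (nat_lit 1) (nat_lit 16) (nat_lit 1) (nat_lit 7) (nat_lit 1) true (nat_lit 9) true (nat_lit 12) true (nat_lit 2) true (nat_lit 12) true (nat_lit 6) (.s false (nat_lit 1) (nat_lit 16) (nat_lit 7) (nat_lit 1) (nat_lit 1) true (nat_lit 1) true (nat_lit 12) true (nat_lit 2) true (nat_lit 6) true (nat_lit 12) (.s false (nat_lit 2) (nat_lit 30) (nat_lit 1) (nat_lit 2) (nat_lit 2) true (nat_lit 7) true (nat_lit 11) false (nat_lit 1) true (nat_lit 12) true (nat_lit 11) (.s true (nat_lit 2) (nat_lit 30) (nat_lit 2) (nat_lit 1) (nat_lit 2) true (nat_lit 6) true (nat_lit 11) false (nat_lit 1) true (nat_lit 11) true (nat_lit 12) (.s true (nat_lit 2) (nat_lit 30) (nat_lit 2) (nat_lit 2) (nat_lit 1) true (nat_lit 7) true (nat_lit 12) false (nat_lit 1) true (nat_lit 11) true (nat_lit 11) (.e false (nat_lit 2304) (nat_lit 43) (nat_lit 7) (nat_lit 6) (.e true (nat_lit 2304) (nat_lit 45) (nat_lit 7) (nat_lit 6) (.e true (nat_lit 2304) (nat_lit 46) (nat_lit 7) (nat_lit 6) dP8_i49)))))))))))) .leaf) (nat_lit 46082) (nat_lit 124) (.p (nat_lit 84) (nat_lit 576) .z) .df (.nd .leaf (nat_lit 46087) (nat_lit 313) (.n (nat_lit 144) (nat_lit 1254) (.p (nat_lit 145) (nat_lit 3648) (.p (nat_lit 146) (nat_lit 4170) (.p (nat_lit 147) (nat_lit 3816) (.n (nat_lit 148) (nat_lit 3732) (.p (nat_lit 149) (nat_lit 660) (.p (nat_lit 150) (nat_lit 672) (.p (nat_lit 151) (nat_lit 1266) (.p (nat_lit 152) (nat_lit 1086) (.n (nat_lit 153) (nat_lit 3786) (.p (nat_lit 154) (nat_lit 54) (.n (nat_lit 155) (nat_lit 2796) (.p (nat_lit 156) (nat_lit 408) (.n (nat_lit 157) (nat_lit 1296) (.p (nat_lit 158) (nat_lit 189) (.p (nat_lit 159) (nat_lit 3843) (.n (nat_lit 160) (nat_lit 1515) (.n (nat_lit 161) (nat_lit 63) (.n (nat_lit 162) (nat_lit 576) (.n (nat_lit 163) (nat_lit 774) (.n (nat_lit 164) (nat_lit 1182) (.n (nat_lit 165) (nat_lit 414) (.p (nat_lit 166) (nat_lit 654) (.n (nat_lit 167) (nat_lit 150) (.p (nat_lit 168) (nat_lit 126) (.p (nat_lit 169) (nat_lit 504) (.n (nat_lit 170) (nat_lit 252) (.n (nat_lit 171) (nat_lit 504) (.n (nat_lit 172) (nat_lit 504) (.p (nat_lit 176) (nat_lit 126) (.n (nat_lit 177) (nat_lit 252) (.p (nat_lit 178) (nat_lit 972) (.n (nat_lit 179) (nat_lit 396) (.p (nat_lit 180) (nat_lit 252) .z)))))))))))))))))))))))))))))))))) (.ct dP8_c292 (nat_lit 4608) (nat_lit 6) (.s true (nat_lit 1) (nat_lit 7) (nat_lit 0) (nat_lit 4) (nat_lit 7) true (nat_lit 2) true (nat_lit 6) true (nat_lit 6) true (nat_lit 13) true (nat_lit 9) (.s true (nat_lit 2) (nat_lit 7) (nat_lit 0) (nat_lit 7) (nat_lit 4) true (nat_lit 5) true (nat_lit 9) true (nat_lit 6) true (nat_lit 13) true (nat_lit 6) (.s false (nat_lit 4) (nat_lit 7) (nat_lit 1) (nat_lit 7) (nat_lit 3) true (nat_lit 5) true (nat_lit 10) true (nat_lit 6) true (nat_lit 12) true (nat_lit 6) (.s true (nat_lit 4) (nat_lit 7) (nat_lit 5) (nat_lit 4) (nat_lit 2) true (nat_lit 2) true (nat_lit 11) true (nat_lit 6) true (nat_lit 8) true (nat_lit 9) (.s true (nat_lit 8) (nat_lit 7) (nat_lit 6) (nat_lit 2) (nat_lit 3) false (nat_lit 0) true (nat_lit 10) true (nat_lit 6) true (nat_lit 7) true (nat_lit 11) (.s false (nat_lit 8) (nat_lit 8) (nat_lit 2) (nat_lit 2) (nat_lit 7) true (nat_lit 0) true (nat_lit 6) true (nat_lit 5) true (nat_lit 11) true (nat_lit 11) (.s false (nat_lit 4) (nat_lit 10) (nat_lit 2) (nat_lit 1) (nat_lit 7) true (nat_lit 0) true (nat_lit 6) true (nat_lit 4) true (nat_lit 11) true (nat_lit 12) (.s false (nat_lit 4) (nat_lit 10) (nat_lit 2) (nat_lit 2) (nat_lit 6) true (nat_lit 1) true (nat_lit 7) true (nat_lit 4) true (nat_lit 11) true (nat_lit 11) (.s true (nat_lit 4) (nat_lit 10) (nat_lit 2) (nat_lit 6) (nat_lit 2) true (nat_lit 6) true (nat_lit 11) true (nat_lit 4) true (nat_lit 11) true (nat_lit 7) (.s true (nat_lit 4) (nat_lit 10) (nat_lit 6) (nat_lit 2) (nat_lit 2) true (nat_lit 1) true (nat_lit 11) true (nat_lit 4) true (nat_lit 7) true (nat_lit 11) (.s false (nat_lit 4) (nat_lit 13) (nat_lit 5) (nat_lit 2) (nat_lit 2) true (nat_lit 2) true (nat_lit 11) true (nat_lit 3) true (nat_lit 8) true (nat_lit 11) (.s true (nat_lit 2) (nat_lit 16) (nat_lit 1) (nat_lit 1) (nat_lit 7) true (nat_lit 1) true (nat_lit 6) true (nat_lit 2) true (nat_lit 12) true (nat_lit 12) (.s true (nat_lit 4) (nat_lit 15) (nat_lit 4) (nat_lit 2) (nat_lit 2) true (nat_lit 3) true (nat_lit 11) true (nat_lit 2) true (nat_lit 9) true (nat_lit 11) (.s true (nat_lit 4) (nat_lit 22) (nat_lit 2) (nat_lit 2) (nat_lit 2) true (nat_lit 6) true (nat_lit 11) false (nat_lit 0) true (nat_lit 11) true (nat_lit 11) (.s true (nat_lit 8) (nat_lit 23) (nat_lit 2) (nat_lit 2) (nat_lit 2) true (nat_lit 6) true (nat_lit 11) false (nat_lit 0) true (nat_lit 11) true (nat_lit 11) dP8_i44)))))))))))))))) .leaf))) (nat_lit 47106) (nat_lit 125) (.p (nat_lit 85) (nat_lit 576) .z) .df (.nd (.nd (.nd .leaf (nat_lit 47111) (nat_lit 312) (.p (nat_lit 144) (nat_lit 3064) (.n (nat_lit 145) (nat_lit 12448) (.n (nat_lit 146) (nat_lit 12328) (.n (nat_lit 147) (nat_lit 7776) (.p (nat_lit 148) (nat_lit 12272) (.p (nat_lit 149) (nat_lit 3248) (.p (nat_lit 150) (nat_lit 2752) (.n (nat_lit 151) (nat_lit 1736) (.n (nat_lit 152) (nat_lit 2072) (.p (nat_lit 153) (nat_lit 13448) (.n (nat_lit 154) (nat_lit 2136) (.p (nat_lit 155) (nat_lit 10160) (.n (nat_lit 156) (nat_lit 1792) (.p (nat_lit 157) (nat_lit 4608) (.p (nat_lit 158) (nat_lit 5436) (.n (nat_lit 159) (nat_lit 12156) (.p (nat_lit 160) (nat_lit 5500) (.n (nat_lit 161) (nat_lit 2004) (.n (nat_lit 162) (nat_lit 480) (.p (nat_lit 163) (nat_lit 1464) (.p (nat_lit 164) (nat_lit 856) (.n (nat_lit 165) (nat_lit 3048) (.n (nat_lit 166) (nat_lit 5144) (.p (nat_lit 167) (nat_lit 3512) (.p (nat_lit 168) (nat_lit 3432) (.n (nat_lit 169) (nat_lit 1632) (.p (nat_lit 170) (nat_lit 816) (.p (nat_lit 171) (nat_lit 2208) (.p (nat_lit 172) (nat_lit 1632) (.n (nat_lit 176) (nat_lit 696) (.p (nat_lit 177) (nat_lit 816) (.n (nat_lit 178) (nat_lit 2064) (.p (nat_lit 179) (nat_lit 1488) (.n (nat_lit 180) (nat_lit 816) .z)))))))))))))))))))))))))))))))))) (.ct dP8_c292 (nat_lit 1152) (nat_lit 6) (.s false (nat_lit 1) (nat_lit 7) (nat_lit 0) (nat_lit 7) (nat_lit 4) true (nat_lit 5) true (nat_lit 9) true (nat_lit 6) true (nat_lit 13) true (nat_lit 6) (.s true (nat_lit 2) (nat_lit 13) (nat_lit 0) (nat_lit 2) (nat_lit 7) true (nat_lit 2) true (nat_lit 6) true (nat_lit 3) true (nat_lit 13) true (nat_lit 11) (.s false (nat_lit 2) (nat_lit 13) (nat_lit 2) (nat_lit 2) (nat_lit 5) true (nat_lit 2) true (nat_lit 8) true (nat_lit 3) true (nat_lit 11) true (nat_lit 11) (.s true (nat_lit 2) (nat_lit 16) (nat_lit 1) (nat_lit 2) (nat_lit 6) true (nat_lit 3) true (nat_lit 7) true (nat_lit 2) true (nat_lit 12) true (nat_lit 11) (.s false (nat_lit 1) (nat_lit 16) (nat_lit 1) (nat_lit 7) (nat_lit 1) true (nat_lit 9) true (nat_lit 12) true (nat_lit 2) true (nat_lit 12) true (nat_lit 6) (.s true (nat_lit 2) (nat_lit 16) (nat_lit 2) (nat_lit 4) (nat_lit 2) true (nat_lit 6) true (nat_lit 11) true (nat_lit 2) true (nat_lit 11) true (nat_lit 9) (.s false (nat_lit 1) (nat_lit 16) (nat_lit 7) (nat_lit 1) (nat_lit 1) true (nat_lit 1) true (nat_lit 12) true (nat_lit 2) true (nat_lit 6) true (nat_lit 12) (.s false (nat_lit 3) (nat_lit 30) (nat_lit 1) (nat_lit 2) (nat_lit 2) true (nat_lit 7) true (nat_lit 11) false (nat_lit 1) true (nat_lit 12) true (nat_lit 11) (.s true (nat_lit 3) (nat_lit 30) (nat_lit 2) (nat_lit 1) (nat_lit 2) true (nat_lit 6) true (nat_lit 11) false (nat_lit 1) true (nat_lit 11) true (nat_lit 12) (.s true (nat_lit 1) (nat_lit 30) (nat_lit 2) (nat_lit 2) (nat_lit 1) true (nat_lit 7) true (nat_lit 12) false (nat_lit 1) true (nat_lit 11) true (nat_lit 11) (.s true (nat_lit 2) (nat_lit 32) (nat_lit 0) (nat_lit 2) (nat_lit 2) true (nat_lit 8) true (nat_lit 11) false (nat_lit 2) true (nat_lit 13) true (nat_lit 11) (.s false (nat_lit 2) (nat_lit 36) (nat_lit 1) (nat_lit 2) (nat_lit 1) true (nat_lit 9) true (nat_lit 12) false (nat_lit 3) true (nat_lit 12) true (nat_lit 11) (.e true (nat_lit 1152) (nat_lit 53) (nat_lit 7) (nat_lit 6) (.e false (nat_lit 1152) (nat_lit 54) (nat_lit 7) (nat_lit 6) (.e true (nat_lit 2880) (nat_lit 97) (nat_lit 2) (nat_lit 11) (.e true (nat_lit 1728) (nat_lit 98) (nat_lit 2) (nat_lit 11) (.e false (nat_lit 576) (nat_lit 100) (nat_lit 2) (nat_lit 11) (.e false (nat_lit 1152) (nat_lit 101) (nat_lit 2) (nat_lit 11) (.e true (nat_lit 1152) (nat_lit 82) (nat_lit 2) (nat_lit 11) dP8_i42)))))))))))))))))))) .leaf) (nat_lit 48130) (nat_lit 126) (.p (nat_lit 86) (nat_lit 576) .z) .df (.nd .leaf (nat_lit 48135) (nat_lit 346) (.n (nat_lit 144) (nat_lit 272) (.n (nat_lit 145) (nat_lit 544) (.n (nat_lit 146) (nat_lit 496) (.n (nat_lit 147) (nat_lit 1152) (.p (nat_lit 148) (nat_lit 1280) (.n (nat_lit 149) (nat_lit 1120) (.p (nat_lit 150) (nat_lit 64) (.n (nat_lit 151) (nat_lit 176) (.n (nat_lit 152) (nat_lit 944) (.p (nat_lit 153) (nat_lit 656) (.p (nat_lit 154) (nat_lit 240) (.p (nat_lit 155) (nat_lit 1184) (.n (nat_lit 156) (nat_lit 544) (.p (nat_lit 157) (nat_lit 576) (.n (nat_lit 158) (nat_lit 1224) (.n (nat_lit 159) (nat_lit 888) (.p (nat_lit 160) (nat_lit 472) (.p (nat_lit 161) (nat_lit 408) (.p (nat_lit 162) (nat_lit 672) (.p (nat_lit 163) (nat_lit 240) (.p (nat_lit 164) (nat_lit 400) (.p (nat_lit 165) (nat_lit 1200) (.p (nat_lit 166) (nat_lit 16) (.n (nat_lit 167) (nat_lit 208) (.n (nat_lit 168) (nat_lit 240) (.p (nat_lit 169) (nat_lit 960) (.n (nat_lit 170) (nat_lit 480) (.n (nat_lit 171) (nat_lit 384) (.n (nat_lit 172) (nat_lit 960) (.n (nat_lit 176) (nat_lit 48) (.p (nat_lit 177) (nat_lit 96) (.n (nat_lit 178) (nat_lit 480) (.p (nat_lit 179) (nat_lit 480) (.p (nat_lit 180) (nat_lit 480) .z)))))))))))))))))))))))))))))))))) (.ct dP8_c292 (nat_lit 576) (nat_lit 6) (.s true (nat_lit 1) (nat_lit 10) (nat_lit 2) (nat_lit 1) (nat_lit 7) true (nat_lit 0) true (nat_lit 6) true (nat_lit 4) true (nat_lit 11) true (nat_lit 12) (.s true (nat_lit 1) (nat_lit 10) (nat_lit 2) (nat_lit 2) (nat_lit 6) true (nat_lit 1) true (nat_lit 7) true (nat_lit 4) true (nat_lit 11) true (nat_lit 11) (.s false (nat_lit 1) (nat_lit 10) (nat_lit 2) (nat_lit 6) (nat_lit 2) true (nat_lit 6) true (nat_lit 11) true (nat_lit 4) true (nat_lit 11) true (nat_lit 7) (.s false (nat_lit 1) (nat_lit 10) (nat_lit 6) (nat_lit 2) (nat_lit 2) true (nat_lit 1) true (nat_lit 11) true (nat_lit 4) true (nat_lit 7) true (nat_lit 11) (.s false (nat_lit 1) (nat_lit 22) (nat_lit 2) (nat_lit 2) (nat_lit 2) true (nat_lit 6) true (nat_lit 11) false (nat_lit 0) true (nat_lit 11) true (nat_lit 11) (.e false (nat_lit 2304) (nat_lit 104) (nat_lit 2) (nat_lit 11) (.e false (nat_lit 576) (nat_lit 117) (nat_lit 1) (nat_lit 12) (.e true (nat_lit 576) (nat_lit 95) (nat_lit 2) (nat_lit 11) (.e true (nat_lit 576) (nat_lit 55) (nat_lit 7) (nat_lit 6) (.e true (nat_lit 576) (nat_lit 65) (nat_lit 6) (nat_lit 7) (.e false (nat_lit 576) (nat_lit 43) (nat_lit 7) (nat_lit 6) .nil)))))))))))) .leaf)) (nat_lit 49154) (nat_lit 153) (.n (nat_lit 82) (nat_lit 768) (.p (nat_lit 83) (nat_lit 1920) (.p (nat_lit 84) (nat_lit 2496) (.p (nat_lit 85) (nat_lit 1152) (.n (nat_lit 86) (nat_lit 1536) (.n (nat_lit 87) (nat_lit 960) (.p (nat_lit 88) (nat_lit 384) (.n (nat_lit 89) (nat_lit 768) (.p (nat_lit 90) (nat_lit 960) (.n (nat_lit 91) (nat_lit 1536) (.n (nat_lit 93) (nat_lit 1536) (.n (nat_lit 94) (nat_lit 384) (.n (nat_lit 95) (nat_lit 576) (.n (nat_lit 96) (nat_lit 576) (.n (nat_lit 97) (nat_lit 864) (.p (nat_lit 98) (nat_lit 2016) (.n (nat_lit 99) (nat_lit 480) (.p (nat_lit 100) (nat_lit 288) (.n (nat_lit 102) (nat_lit 576) (.n (nat_lit 103) (nat_lit 192) (.p (nat_lit 104) (nat_lit 1152) (.p (nat_lit 105) (nat_lit 384) (.p (nat_lit 106) (nat_lit 192) (.n (nat_lit 107) (nat_lit 576) .z)))))))))))))))))))))))) (.ct dP8_c291 (nat_lit 576) (nat_lit 8) (.s false (nat_lit 1) (nat_lit 6) (nat_lit 0) (nat_lit 2) (nat_lit 6) true (nat_lit 1) true (nat_lit 4) true (nat_lit 4) true (nat_lit 10) true (nat_lit 8) (.s true (nat_lit 1) (nat_lit 6) (nat_lit 1) (nat_lit 5) (nat_lit 2) true (nat_lit 4) true (nat_lit 8) true (nat_lit 4) true (nat_lit 9) true (nat_lit 5) (.s false (nat_lit 1) (nat_lit 11) (nat_lit 1) (nat_lit 2) (nat_lit 2) true (nat_lit 4) true (nat_lit 8) true (nat_lit 1) true (nat_lit 9) true (nat_lit 8) (.s true (nat_lit 1) (nat_lit 17) (nat_lit 0) (nat_lit 2) (nat_lit 1) true (nat_lit 7) true (nat_lit 9) false (nat_lit 1) true (nat_lit 10) true (nat_lit 8) (.s false (nat_lit 1) (nat_lit 17) (nat_lit 1) (nat_lit 2) (nat_lit 0) true (nat_lit 7) true (nat_lit 10) false (nat_lit 1) true (nat_lit 9) true (nat_lit 8) (.e false (nat_lit 576) (nat_lit 28) (nat_lit 6) (nat_lit 4) (.e false (nat_lit 576) (nat_lit 69) (nat_lit 0) (nat_lit 10) (.e false (nat_lit 576) (nat_lit 44) (nat_lit 2) (nat_lit 8) (.e false (nat_lit 576) (nat_lit 45) (nat_lit 2) (nat_lit 8) (.e true (nat_lit 576) (nat_lit 54) (nat_lit 2) (nat_lit 8) (.e true (nat_lit 576) (nat_lit 55) (nat_lit 2) (nat_lit 8) (.e false (nat_lit 576) (nat_lit 34) (nat_lit 5) (nat_lit 5) (.e false (nat_lit 1152) (nat_lit 56) (nat_lit 1) (nat_lit 9) (.e true (nat_lit 1152) (nat_lit 57) (nat_lit 1) (nat_lit 9) (.e false (nat_lit 576) (nat_lit 58) (nat_lit 1) (nat_lit 9) (.e true (nat_lit 576) (nat_lit 60) (nat_lit 1) (nat_lit 9) (.e true (nat_lit 1152) (nat_lit 61) (nat_lit 1) (nat_lit 9) (.e true (nat_lit 576) (nat_lit 65) (nat_lit 1) (nat_lit 9) (.e true (nat_lit 576) (nat_lit 62) (nat_lit 1) (nat_lit 9) .nil)))))))))))))))))))) (.nd (.nd .leaf (nat_lit 49159) (nat_lit 295) (.p (nat_lit 177) (nat_lit 576) .z) .df .leaf) (nat_lit 50178) (nat_lit 157) (.n (nat_lit 82) (nat_lit 1536) (.p (nat_lit 83) (nat_lit 2112) (.p (nat_lit 84) (nat_lit 2688) (.p (nat_lit 85) (nat_lit 1728) (.n (nat_lit 86) (nat_lit 1344) (.n (nat_lit 87) (nat_lit 768) (.p (nat_lit 88) (nat_lit 768) (.p (nat_lit 89) (nat_lit 192) (.p (nat_lit 90) (nat_lit 768) (.n (nat_lit 91) (nat_lit 1920) (.n (nat_lit 93) (nat_lit 1920) (.n (nat_lit 94) (nat_lit 192) (.n (nat_lit 96) (nat_lit 576) (.n (nat_lit 97) (nat_lit 864) (.p (nat_lit 98) (nat_lit 2016) (.n (nat_lit 99) (nat_lit 672) (.p (nat_lit 100) (nat_lit 288) (.n (nat_lit 102) (nat_lit 576) (.n (nat_lit 103) (nat_lit 384) (.p (nat_lit 104) (nat_lit 576) (.p (nat_lit 105) (nat_lit 768) (.n (nat_lit 106) (nat_lit 192) (.n (nat_lit 107) (nat_lit 576) .z))))))))))))))))))))))) (.ct dP8_c291 (nat_lit 576) (nat_lit 8) (.s false (nat_lit 1) (nat_lit 6) (nat_lit 0) (nat_lit 2) (nat_lit 6) true (nat_lit 1) true (nat_lit 4) true (nat_lit 4) true (nat_lit 10) true (nat_lit 8) (.s true (nat_lit 1) (nat_lit 6) (nat_lit 2) (nat_lit 5) (nat_lit 1) true (nat_lit 4) true (nat_lit 9) true (nat_lit 4) true (nat_lit 8) true (nat_lit 5) (.s false (nat_lit 1) (nat_lit 6) (nat_lit 5) (nat_lit 2) (nat_lit 1) true (nat_lit 1) true (nat_lit 9) true (nat_lit 4) true (nat_lit 5) true (nat_lit 8) (.s true (nat_lit 1) (nat_lit 17) (nat_lit 0) (nat_lit 2) (nat_lit 1) true (nat_lit 7) true (nat_lit 9) false (nat_lit 1) true (nat_lit 10) true (nat_lit 8) (.s false (nat_lit 1) (nat_lit 17) (nat_lit 1) (nat_lit 2) (nat_lit 0) true (nat_lit 7) true (nat_lit 10) false (nat_lit 1) true (nat_lit 9) true (nat_lit 8) (.e false (nat_lit 576) (nat_lit 28) (nat_lit 6) (nat_lit 4) (.e false (nat_lit 576) (nat_lit 69) (nat_lit 0) (nat_lit 10) (.e true (nat_lit 576) (nat_lit 57) (nat_lit 1) (nat_lit 9) (.e false (nat_lit 576) (nat_lit 53) (nat_lit 2) (nat_lit 8) (.e false (nat_lit 576) (nat_lit 33) (nat_lit 5) (nat_lit 5) (.e false (nat_lit 576) (nat_lit 56) (nat_lit 1) (nat_lit 9) (.e true (nat_lit 576) (nat_lit 60) (nat_lit 1) (nat_lit 9) (.e true (nat_lit 1152) (nat_lit 61) (nat_lit 1) (nat_lit 9) .nil)))))))))))))) .leaf)))) (nat_lit 50183) (nat_lit 315) (.n (nat_lit 144) (nat_lit 5616) (.p (nat_lit 145) (nat_lit 11520) (.p (nat_lit 146) (nat_lit 12240) (.p (nat_lit 147) (nat_lit 8064) (.n (nat_lit 148) (nat_lit 8352) (.n (nat_lit 149) (nat_lit 3744) (.p (nat_lit 151) (nat_lit 1872) (.p (nat_lit 152) (nat_lit 2160) (.n (nat_lit 153) (nat_lit 10512) (.p (nat_lit 154) (nat_lit 1584) (.n (nat_lit 155) (nat_lit 7776) (.n (nat_lit 157) (nat_lit 4032) (.n (nat_lit 158) (nat_lit 5400) (.p (nat_lit 159) (nat_lit 11160) (.n (nat_lit 160) (nat_lit 4248) (.p (nat_lit 161) (nat_lit 1800) (.n (nat_lit 163) (nat_lit 2160) (.n (nat_lit 164) (nat_lit 1296) (.p (nat_lit 165) (nat_lit 1296) (.p (nat_lit 166) (nat_lit 3888) (.n (nat_lit 167) (nat_lit 2160) (.n (nat_lit 168) (nat_lit 2448) (.p (nat_lit 169) (nat_lit 576) (.n (nat_lit 170) (nat_lit 288) (.n (nat_lit 171) (nat_lit 576) (.n (nat_lit 172) (nat_lit 576) (.p (nat_lit 176) (nat_lit 144) (.n (nat_lit 177) (nat_lit 288) (.p (nat_lit 178) (nat_lit 1152) (.n (nat_lit 179) (nat_lit 576) (.p (nat_lit 180) (nat_lit 288) .z))))))))))))))))))))))))))))))) (.ct dP8_c292 (nat_lit 576) (nat_lit 6) (.s false (nat_lit 1) (nat_lit 7) (nat_lit 1) (nat_lit 3) (nat_lit 7) true (nat_lit 1) true (nat_lit 6) true (nat_lit 6) true (nat_lit 12) true (nat_lit 10) (.s false (nat_lit 1) (nat_lit 10) (nat_lit 2) (nat_lit 2) (nat_lit 6) true (nat_lit 1) true (nat_lit 7) true (nat_lit 4) true (nat_lit 11) true (nat_lit 11) (.s true (nat_lit 1) (nat_lit 10) (nat_lit 2) (nat_lit 6) (nat_lit 2) true (nat_lit 6) true (nat_lit 11) true (nat_lit 4) true (nat_lit 11) true (nat_lit 7) (.s true (nat_lit 1) (nat_lit 10) (nat_lit 6) (nat_lit 2) (nat_lit 2) true (nat_lit 1) true (nat_lit 11) true (nat_lit 4) true (nat_lit 7) true (nat_lit 11) (.s false (nat_lit 1) (nat_lit 10) (nat_lit 7) (nat_lit 2) (nat_lit 1) true (nat_lit 1) true (nat_lit 12) true (nat_lit 4) true (nat_lit 6) true (nat_lit 11) (.s true (nat_lit 1) (nat_lit 18) (nat_lit 2) (nat_lit 2) (nat_lit 3) true (nat_lit 4) true (nat_lit 10) true (nat_lit 1) true (nat_lit 11) true (nat_lit 11) (.s true (nat_lit 1) (nat_lit 18) (nat_lit 2) (nat_lit 3) (nat_lit 2) true (nat_lit 6) true (nat_lit 11) true (nat_lit 1) true (nat_lit 11) true (nat_lit 10) (.e false (nat_lit 576) (nat_lit 55) (nat_lit 7) (nat_lit 6) (.e true (nat_lit 576) (nat_lit 43) (nat_lit 7) (nat_lit 6) (.e false (nat_lit 576) (nat_lit 48) (nat_lit 7) (nat_lit 6) (.e false (nat_lit 576) (nat_lit 51) (nat_lit 7) (nat_lit 6) (.e true (nat_lit 576) (nat_lit 53) (nat_lit 7) (nat_lit 6) (.e false (nat_lit 576) (nat_lit 54) (nat_lit 7) (nat_lit 6) (.e true (nat_lit 576) (nat_lit 117) (nat_lit 1) (nat_lit 12) (.e true (nat_lit 1536) (nat_lit 82) (nat_lit 2) (nat_lit 11) dP8_i46)))))))))))))))) (.nd (.nd (.nd (.nd (.nd .leaf (nat_lit 51202) (nat_lit 162) (.p (nat_lit 82) (nat_lit 192) (.n (nat_lit 83) (nat_lit 2496) (.n (nat_lit 84) (nat_lit 3072) (.n (nat_lit 85) (nat_lit 2304) (.p (nat_lit 86) (nat_lit 3264) (.p (nat_lit 87) (nat_lit 384) (.n (nat_lit 88) (nat_lit 1536) (.p (nat_lit 89) (nat_lit 768) (.n (nat_lit 90) (nat_lit 384) (.p (nat_lit 91) (nat_lit 2112) (.n (nat_lit 92) (nat_lit 576) (.p (nat_lit 93) (nat_lit 960) (.p (nat_lit 94) (nat_lit 384) (.p (nat_lit 95) (nat_lit 1728) (.p (nat_lit 96) (nat_lit 576) (.p (nat_lit 97) (nat_lit 864) (.n (nat_lit 98) (nat_lit 3168) (.p (nat_lit 99) (nat_lit 1056) (.n (nat_lit 100) (nat_lit 288) (.p (nat_lit 102) (nat_lit 576) (.p (nat_lit 103) (nat_lit 768) (.n (nat_lit 104) (nat_lit 1728) (.p (nat_lit 105) (nat_lit 192) (.n (nat_lit 106) (nat_lit 192) .z)))))))))))))))))))))))) (.ct dP8_c291 (nat_lit 576) (nat_lit 8) (.s false (nat_lit 1) (nat_lit 6) (nat_lit 5) (nat_lit 2) (nat_lit 1) true (nat_lit 1) true (nat_lit 9) true (nat_lit 4) true (nat_lit 5) true (nat_lit 8) (.s true (nat_lit 1) (nat_lit 11) (nat_lit 2) (nat_lit 1) (nat_lit 2) true (nat_lit 3) true (nat_lit 8) true (nat_lit 1) true (nat_lit 8) true (nat_lit 9) (.e false (nat_lit 576) (nat_lit 56) (nat_lit 1) (nat_lit 9) (.e true (nat_lit 576) (nat_lit 60) (nat_lit 1) (nat_lit 9) (.e true (nat_lit 576) (nat_lit 61) (nat_lit 1) (nat_lit 9) (.e false (nat_lit 576) (nat_lit 29) (nat_lit 6) (nat_lit 4) (.e true (nat_lit 576) (nat_lit 43) (nat_lit 2) (nat_lit 8) (.e false (nat_lit 576) (nat_lit 44) (nat_lit 2) (nat_lit 8) (.e false (nat_lit 1728) (nat_lit 45) (nat_lit 2) (nat_lit 8) (.e false (nat_lit 576) (nat_lit 46) (nat_lit 2) (nat_lit 8) (.e false (nat_lit 576) (nat_lit 47) (nat_lit 2) (nat_lit 8) (.e true (nat_lit 576) (nat_lit 51) (nat_lit 2) (nat_lit 8) (.e true (nat_lit 1152) (nat_lit 54) (nat_lit 2) (nat_lit 8) (.e true (nat_lit 1152) (nat_lit 55) (nat_lit 2) (nat_lit 8) (.e true (nat_lit 576) (nat_lit 23) (nat_lit 7) (nat_lit 3) (.e true (nat_lit 576) (nat_lit 48) (nat_lit 2) (nat_lit 8) (.e false (nat_lit 576) (nat_lit 49) (nat_lit 2) (nat_lit 8) .nil)))))))))))))))))) .leaf) (nat_lit 51207) (nat_lit 329) (.p (nat_lit 144) (nat_lit 2898) (.n (nat_lit 145) (nat_lit 6048) (.n (nat_lit 146) (nat_lit 7326) (.n (nat_lit 147) (nat_lit 3960) (.p (nat_lit 148) (nat_lit 5148) (.p (nat_lit 149) (nat_lit 2052) (.p (nat_lit 150) (nat_lit 864) (.n (nat_lit 151) (nat_lit 342) (.n (nat_lit 152) (nat_lit 1818) (.p (nat_lit 153) (nat_lit 6462) (.n (nat_lit 154) (nat_lit 738) (.p (nat_lit 155) (nat_lit 4932) (.p (nat_lit 156) (nat_lit 216) (.p (nat_lit 157) (nat_lit 1584) (.p (nat_lit 158) (nat_lit 3321) (.n (nat_lit 159) (nat_lit 5625) (.p (nat_lit 160) (nat_lit 2385) (.n (nat_lit 161) (nat_lit 1107) (.n (nat_lit 162) (nat_lit 288) (.p (nat_lit 163) (nat_lit 1458) (.p (nat_lit 164) (nat_lit 666) (.n (nat_lit 165) (nat_lit 1350) (.n (nat_lit 166) (nat_lit 2826) (.p (nat_lit 167) (nat_lit 1314) (.p (nat_lit 168) (nat_lit 1638) (.n (nat_lit 169) (nat_lit 360) (.p (nat_lit 170) (nat_lit 180) (.p (nat_lit 171) (nat_lit 360) (.p (nat_lit 172) (nat_lit 360) (.n (nat_lit 176) (nat_lit 90) (.p (nat_lit 177) (nat_lit 756) (.n (nat_lit 178) (nat_lit 612) (.p (nat_lit 179) (nat_lit 612) (.n (nat_lit 180) (nat_lit 180) .z)))))))))))))))))))))))))))))))))) (.ct dP8_c292 (nat_lit 576) (nat_lit 6) (.s true (nat_lit 1) (nat_lit 10) (nat_lit 2) (nat_lit 6) (nat_lit 2) true (nat_lit 6) true (nat_lit 11) true (nat_lit 4) true (nat_lit 11) true (nat_lit 7) (.s true (nat_lit 1) (nat_lit 10) (nat_lit 6) (nat_lit 2) (nat_lit 2) true (nat_lit 1) true (nat_lit 11) true (nat_lit 4) true (nat_lit 7) true (nat_lit 11) (.s false (nat_lit 1) (nat_lit 26) (nat_lit 1) (nat_lit 2) (nat_lit 2) true (nat_lit 7) true (nat_lit 11) false (nat_lit 1) true (nat_lit 12) true (nat_lit 11) (.s false (nat_lit 1) (nat_lit 29) (nat_lit 1) (nat_lit 2) (nat_lit 2) true (nat_lit 7) true (nat_lit 11) false (nat_lit 1) true (nat_lit 12) true (nat_lit 11) (.s true (nat_lit 1) (nat_lit 29) (nat_lit 2) (nat_lit 1) (nat_lit 2) true (nat_lit 6) true (nat_lit 11) false (nat_lit 1) true (nat_lit 11) true (nat_lit 12) (.e false (nat_lit 576) (nat_lit 55) (nat_lit 7) (nat_lit 6) (.e true (nat_lit 3456) (nat_lit 104) (nat_lit 2) (nat_lit 11) (.e false (nat_lit 768) (nat_lit 82) (nat_lit 2) (nat_lit 11) (.e false (nat_lit 2112) (nat_lit 86) (nat_lit 2) (nat_lit 11) (.e false (nat_lit 2304) (nat_lit 95) (nat_lit 2) (nat_lit 11) (.e false (nat_lit 192) (nat_lit 89) (nat_lit 2) (nat_lit 11) (.e false (nat_lit 576) (nat_lit 65) (nat_lit 6) (nat_lit 7) (.e true (nat_lit 1152) (nat_lit 109) (nat_lit 1) (nat_lit 12) (.e false (nat_lit 288) (nat_lit 114) (nat_lit 1) (nat_lit 12) (.e true (nat_lit 864) (nat_lit 115) (nat_lit 1) (nat_lit 12) (.e true (nat_lit 288) (nat_lit 116) (nat_lit 1) (nat_lit 12) (.e true (nat_lit 1152) (nat_lit 117) (nat_lit 1) (nat_lit 12) (.e false (nat_lit 288) (nat_lit 118) (nat_lit 1) (nat_lit 12) (.e false (nat_lit 288) (nat_lit 119) (nat_lit 1) (nat_lit 12) (.e false (nat_lit 864) (nat_lit 120) (nat_lit 1) (nat_lit 12) (.e false (nat_lit 288) (nat_lit 121) (nat_lit 1) (nat_lit 12) (.e true (nat_lit 2112) (nat_lit 90) (nat_lit 2) (nat_lit 11) dP8_i65))))))))))))))))))))))) (.nd .leaf (nat_lit 52226) (nat_lit 154) (.p (nat_lit 82) (nat_lit 192) (.n (nat_lit 83) (nat_lit 1344) (.n (nat_lit 84) (nat_lit 1920) (.p (nat_lit 85) (nat_lit 576) (.p (nat_lit 86) (nat_lit 960) (.p (nat_lit 87) (nat_lit 1536) (.p (nat_lit 88) (nat_lit 768) (.p (nat_lit 89) (nat_lit 768) (.p (nat_lit 90) (nat_lit 192) (.p (nat_lit 91) (nat_lit 960) (.n (nat_lit 92) (nat_lit 576) (.p (nat_lit 93) (nat_lit 384) (.p (nat_lit 94) (nat_lit 960) (.p (nat_lit 95) (nat_lit 576) (.n (nat_lit 96) (nat_lit 576) (.p (nat_lit 97) (nat_lit 2592) (.n (nat_lit 98) (nat_lit 1440) (.p (nat_lit 99) (nat_lit 480) (.n (nat_lit 100) (nat_lit 864) (.n (nat_lit 101) (nat_lit 1152) (.n (nat_lit 103) (nat_lit 384) (.n (nat_lit 104) (nat_lit 576) (.p (nat_lit 105) (nat_lit 192) (.n (nat_lit 106) (nat_lit 192) (.p (nat_lit 107) (nat_lit 576) .z))))))))))))))))))))))))) (.ct dP8_c291 (nat_lit 576) (nat_lit 8) (.s false (nat_lit 1) (nat_lit 6) (nat_lit 1) (nat_lit 5) (nat_lit 2) true (nat_lit 4) true (nat_lit 8) true (nat_lit 4) true (nat_lit 9) true (nat_lit 5) (.s true (nat_lit 1) (nat_lit 6) (nat_lit 2) (nat_lit 1) (nat_lit 5) false (nat_lit 0) true (nat_lit 5) true (nat_lit 4) true (nat_lit 8) true (nat_lit 9) (.s false (nat_lit 1) (nat_lit 6) (nat_lit 5) (nat_lit 2) (nat_lit 1) true (nat_lit 1) true (nat_lit 9) true (nat_lit 4) true (nat_lit 5) true (nat_lit 8) (.s true (nat_lit 1) (nat_lit 11) (nat_lit 2) (nat_lit 1) (nat_lit 2) true (nat_lit 3) true (nat_lit 8) true (nat_lit 1) true (nat_lit 8) true (nat_lit 9) (.s false (nat_lit 1) (nat_lit 15) (nat_lit 2) (nat_lit 1) (nat_lit 1) true (nat_lit 4) true (nat_lit 9) false (nat_lit 0) true (nat_lit 8) true (nat_lit 9) (.e false (nat_lit 576) (nat_lit 27) (nat_lit 6) (nat_lit 4) (.e true (nat_lit 576) (nat_lit 44) (nat_lit 2) (nat_lit 8) (.e false (nat_lit 576) (nat_lit 45) (nat_lit 2) (nat_lit 8) (.e false (nat_lit 576) (nat_lit 47) (nat_lit 2) (nat_lit 8) (.e true (nat_lit 576) (nat_lit 55) (nat_lit 2) (nat_lit 8) (.e true (nat_lit 1152) (nat_lit 34) (nat_lit 5) (nat_lit 5) (.e false (nat_lit 576) (nat_lit 56) (nat_lit 1) (nat_lit 9) (.e true (nat_lit 1152) (nat_lit 60) (nat_lit 1) (nat_lit 9) (.e true (nat_lit 1152) (nat_lit 61) (nat_lit 1) (nat_lit 9) (.e false (nat_lit 1152) (nat_lit 29) (nat_lit 6) (nat_lit 4) (.e true (nat_lit 576) (nat_lit 23) (nat_lit 7) (nat_lit 3) (.e true (nat_lit 576) (nat_lit 48) (nat_lit 2) (nat_lit 8) (.e true (nat_lit 576) (nat_lit 58) (nat_lit 1) (nat_lit 9) (.e false (nat_lit 576) (nat_lit 62) (nat_lit 1) (nat_lit 9) (.e false (nat_lit 576) (nat_lit 65) (nat_lit 1) (nat_lit 9) .nil))))))))))))))))))))) .leaf)) (nat_lit 52231) (nat_lit 306) (.n (nat_lit 144) (nat_lit 4352) (.p (nat_lit 145) (nat_lit 9440) (.p (nat_lit 146) (nat_lit 9632) (.p (nat_lit 147) (nat_lit 6336) (.n (nat_lit 148) (nat_lit 7456) (.n (nat_lit 149) (nat_lit 3520) (.n (nat_lit 150) (nat_lit 704) (.p (nat_lit 151) (nat_lit 928) (.p (nat_lit 152) (nat_lit 1600) (.n (nat_lit 153) (nat_lit 8512) (.p (nat_lit 154) (nat_lit 1248) (.n (nat_lit 155) (nat_lit 5824) (.p (nat_lit 156) (nat_lit 224) (.n (nat_lit 157) (nat_lit 3456) (.n (nat_lit 158) (nat_lit 4608) (.p (nat_lit 159) (nat_lit 8256) (.n (nat_lit 160) (nat_lit 3104) (.p (nat_lit 161) (nat_lit 1344) (.p (nat_lit 162) (nat_lit 96) (.n (nat_lit 163) (nat_lit 1344) (.n (nat_lit 164) (nat_lit 512) (.p (nat_lit 165) (nat_lit 2496) (.p (nat_lit 166) (nat_lit 3712) (.n (nat_lit 167) (nat_lit 2176) (.n (nat_lit 168) (nat_lit 2112) (.p (nat_lit 169) (nat_lit 1536) (.n (nat_lit 170) (nat_lit 768) (.n (nat_lit 171) (nat_lit 960) (.n (nat_lit 172) (nat_lit 1536) (.p (nat_lit 176) (nat_lit 96) (.n (nat_lit 177) (nat_lit 768) (.p (nat_lit 178) (nat_lit 1248) (.n (nat_lit 179) (nat_lit 672) (.p (nat_lit 180) (nat_lit 768) .z)))))))))))))))))))))))))))))))))) (.ct dP8_c292 (nat_lit 4608) (nat_lit 6) (.s false (nat_lit 4) (nat_lit 7) (nat_lit 0) (nat_lit 4) (nat_lit 7) true (nat_lit 2) true (nat_lit 6) true (nat_lit 6) true (nat_lit 13) true (nat_lit 9) (.s false (nat_lit 3) (nat_lit 7) (nat_lit 0) (nat_lit 7) (nat_lit 4) true (nat_lit 5) true (nat_lit 9) true (nat_lit 6) true (nat_lit 13) true (nat_lit 6) (.s true (nat_lit 4) (nat_lit 7) (nat_lit 1) (nat_lit 3) (nat_lit 7) true (nat_lit 1) true (nat_lit 6) true (nat_lit 6) true (nat_lit 12) true (nat_lit 10) (.s false (nat_lit 4) (nat_lit 7) (nat_lit 5) (nat_lit 4) (nat_lit 2) true (nat_lit 2) true (nat_lit 11) true (nat_lit 6) true (nat_lit 8) true (nat_lit 9) (.s false (nat_lit 4) (nat_lit 9) (nat_lit 2) (nat_lit 2) (nat_lit 7) true (nat_lit 0) true (nat_lit 6) true (nat_lit 5) true (nat_lit 11) true (nat_lit 11) (.s true (nat_lit 4) (nat_lit 10) (nat_lit 2) (nat_lit 2) (nat_lit 6) true (nat_lit 1) true (nat_lit 7) true (nat_lit 4) true (nat_lit 11) true (nat_lit 11) (.s false (nat_lit 4) (nat_lit 10) (nat_lit 2) (nat_lit 6) (nat_lit 2) true (nat_lit 6) true (nat_lit 11) true (nat_lit 4) true (nat_lit 11) true (nat_lit 7) (.s false (nat_lit 4) (nat_lit 10) (nat_lit 6) (nat_lit 2) (nat_lit 2) true (nat_lit 1) true (nat_lit 11) true (nat_lit 4) true (nat_lit 7) true (nat_lit 11) (.s true (nat_lit 4) (nat_lit 10) (nat_lit 7) (nat_lit 2) (nat_lit 1) true (nat_lit 1) true (nat_lit 12) true (nat_lit 4) true (nat_lit 6) true (nat_lit 11) (.s false (nat_lit 4) (nat_lit 13) (nat_lit 2) (nat_lit 0) (nat_lit 7) true (nat_lit 0) true (nat_lit 6) true (nat_lit 3) true (nat_lit 11) true (nat_lit 13) (.s false (nat_lit 4) (nat_lit 13) (nat_lit 2) (nat_lit 2) (nat_lit 5) true (nat_lit 2) true (nat_lit 8) true (nat_lit 3) true (nat_lit 11) true (nat_lit 11) dP8_i27)))))))))))) (.nd (.nd .leaf (nat_lit 53250) (nat_lit 127) (.p (nat_lit 87) (nat_lit 576) .z) .df .leaf) (nat_lit 53255) (nat_lit 367) (.p (nat_lit 144) (nat_lit 2816) (.n (nat_lit 145) (nat_lit 5600) (.n (nat_lit 146) (nat_lit 5792) (.n (nat_lit 147) (nat_lit 2880) (.p (nat_lit 148) (nat_lit 4384) (.p (nat_lit 149) (nat_lit 3904) (.n (nat_lit 150) (nat_lit 832) (.n (nat_lit 151) (nat_lit 160) (.n (nat_lit 152) (nat_lit 832) (.p (nat_lit 153) (nat_lit 5440) (.n (nat_lit 154) (nat_lit 1248) (.p (nat_lit 155) (nat_lit 2752) (.p (nat_lit 156) (nat_lit 160) (.p (nat_lit 157) (nat_lit 2304) (.p (nat_lit 158) (nat_lit 3456) (.n (nat_lit 159) (nat_lit 4800) (.p (nat_lit 160) (nat_lit 1568) (.n (nat_lit 161) (nat_lit 1344) (.n (nat_lit 162) (nat_lit 96) (.p (nat_lit 163) (nat_lit 1344) (.p (nat_lit 164) (nat_lit 128) (.n (nat_lit 165) (nat_lit 2496) (.n (nat_lit 166) (nat_lit 2944) (.p (nat_lit 167) (nat_lit 1408) (.p (nat_lit 168) (nat_lit 2112) (.n (nat_lit 169) (nat_lit 1536) (.p (nat_lit 170) (nat_lit 768) (.p (nat_lit 171) (nat_lit 960) (.p (nat_lit 172) (nat_lit 1536) (.n (nat_lit 176) (nat_lit 96) (.p (nat_lit 177) (nat_lit 768) (.p (nat_lit 178) (nat_lit 480) (.p (nat_lit 179) (nat_lit 96) (.n (nat_lit 180) (nat_lit 768) .z)))))))))))))))))))))))))))))))))) (.ct dP8_c292 (nat_lit 1152) (nat_lit 6) (.s false (nat_lit 1) (nat_lit 7) (nat_lit 0) (nat_lit 4) (nat_lit 7) true (nat_lit 2) true (nat_lit 6) true (nat_lit 6) true (nat_lit 13) true (nat_lit 9) (.e false (nat_lit 1152) (nat_lit 33) (nat_lit 16) (nat_lit 2) (.e true (nat_lit 1152) (nat_lit 34) (nat_lit 16) (nat_lit 2) (.e true (nat_lit 1152) (nat_lit 43) (nat_lit 7) (nat_lit 6) (.e false (nat_lit 1152) (nat_lit 48) (nat_lit 7) (nat_lit 6) (.e true (nat_lit 1152) (nat_lit 49) (nat_lit 7) (nat_lit 6) (.e false (nat_lit 1152) (nat_lit 53) (nat_lit 7) (nat_lit 6) (.e false (nat_lit 1152) (nat_lit 55) (nat_lit 7) (nat_lit 6) (.e false (nat_lit 1152) (nat_lit 54) (nat_lit 7) (nat_lit 6) (.e false (nat_lit 1152) (nat_lit 124) (nat_lit 0) (nat_lit 13) (.e true (nat_lit 3456) (nat_lit 125) (nat_lit 0) (nat_lit 13) (.e false (nat_lit 1152) (nat_lit 126) (nat_lit 0) (nat_lit 13) (.e false (nat_lit 1152) (nat_lit 128) (nat_lit 0) (nat_lit 13) (.e false (nat_lit 1152) (nat_lit 129) (nat_lit 0) (nat_lit 13) .nil))))))))))))))) (.nd .leaf (nat_lit 54274) (nat_lit 128) (.p (nat_lit 88) (nat_lit 576) .z) .df .leaf))) (nat_lit 54279) (nat_lit 296) (.p (nat_lit 178) (nat_lit 576) .z) .df (.nd (.nd (.nd .leaf (nat_lit 55298) (nat_lit 152) (.n (nat_lit 82) (nat_lit 864) (.p (nat_lit 83) (nat_lit 2304) (.p (nat_lit 84) (nat_lit 3456) (.p (nat_lit 85) (nat_lit 1440) (.n (nat_lit 86) (nat_lit 1728) (.n (nat_lit 87) (nat_lit 864) (.p (nat_lit 88) (nat_lit 576) (.n (nat_lit 89) (nat_lit 864) (.p (nat_lit 90) (nat_lit 288) (.n (nat_lit 91) (nat_lit 1728) (.p (nat_lit 92) (nat_lit 288) (.n (nat_lit 93) (nat_lit 1152) (.n (nat_lit 94) (nat_lit 576) (.n (nat_lit 95) (nat_lit 864) (.n (nat_lit 97) (nat_lit 1728) (.p (nat_lit 98) (nat_lit 2304) (.n (nat_lit 99) (nat_lit 864) (.p (nat_lit 100) (nat_lit 576) (.p (nat_lit 101) (nat_lit 576) (.n (nat_lit 102) (nat_lit 576) (.n (nat_lit 103) (nat_lit 288) (.p (nat_lit 104) (nat_lit 864) .z)))))))))))))))))))))) (.ct dP8_c291 (nat_lit 576) (nat_lit 8) (.s true (nat_lit 2) (nat_lit 6) (nat_lit 0) (nat_lit 2) (nat_lit 6) true (nat_lit 1) true (nat_lit 4) true (nat_lit 4) true (nat_lit 10) true (nat_lit 8) (.s true (nat_lit 1) (nat_lit 6) (nat_lit 0) (nat_lit 6) (nat_lit 2) true (nat_lit 5) true (nat_lit 8) true (nat_lit 4) true (nat_lit 10) true (nat_lit 4) (.s false (nat_lit 1) (nat_lit 6) (nat_lit 1) (nat_lit 5) (nat_lit 2) true (nat_lit 4) true (nat_lit 8) true (nat_lit 4) true (nat_lit 9) true (nat_lit 5) (.s false (nat_lit 1) (nat_lit 6) (nat_lit 2) (nat_lit 2) (nat_lit 3) true (nat_lit 1) true (nat_lit 7) true (nat_lit 4) true (nat_lit 8) true (nat_lit 8) (.s false (nat_lit 1) (nat_lit 6) (nat_lit 2) (nat_lit 5) (nat_lit 1) true (nat_lit 4) true (nat_lit 9) true (nat_lit 4) true (nat_lit 8) true (nat_lit 5) (.s false (nat_lit 1) (nat_lit 7) (nat_lit 0) (nat_lit 1) (nat_lit 6) true (nat_lit 1) true (nat_lit 4) true (nat_lit 3) true (nat_lit 10) true (nat_lit 9) (.s true (nat_lit 1) (nat_lit 7) (nat_lit 1) (nat_lit 5) (nat_lit 1) true (nat_lit 6) true (nat_lit 9) true (nat_lit 3) true (nat_lit 9) true (nat_lit 5) (.s false (nat_lit 1) (nat_lit 7) (nat_lit 4) (nat_lit 0) (nat_lit 2) true (nat_lit 0) true (nat_lit 8) true (nat_lit 3) true (nat_lit 6) true (nat_lit 10) (.s false (nat_lit 1) (nat_lit 7) (nat_lit 6) (nat_lit 1) (nat_lit 0) true (nat_lit 1) true (nat_lit 10) true (nat_lit 3) true (nat_lit 4) true (nat_lit 9) (.s true (nat_lit 2) (nat_lit 10) (nat_lit 1) (nat_lit 2) (nat_lit 2) true (nat_lit 4) true (nat_lit 8) true (nat_lit 1) true (nat_lit 9) true (nat_lit 8) (.s true (nat_lit 1) (nat_lit 11) (nat_lit 1) (nat_lit 2) (nat_lit 2) true (nat_lit 4) true (nat_lit 8) true (nat_lit 1) true (nat_lit 9) true (nat_lit 8) (.s false (nat_lit 1) (nat_lit 10) (nat_lit 2) (nat_lit 1) (nat_lit 2) true (nat_lit 3) true (nat_lit 8) true (nat_lit 1) true (nat_lit 8) true (nat_lit 9) (.s true (nat_lit 1) (nat_lit 10) (nat_lit 2) (nat_lit 2) (nat_lit 1) true (nat_lit 4) true (nat_lit 9) true (nat_lit 1) true (nat_lit 8) true (nat_lit 8) dP8_i4)))))))))))))) .leaf) (nat_lit 55303) (nat_lit 297) (.p (nat_lit 179) (nat_lit 576) .z) .df (.nd .leaf (nat_lit 56322) (nat_lit 129) (.p (nat_lit 89) (nat_lit 576) .z) .df .leaf)) (nat_lit 56327) (nat_lit 314) (.n (nat_lit 144) (nat_lit 1884) (.p (nat_lit 145) (nat_lit 4224) (.p (nat_lit 146) (nat_lit 5124) (.p (nat_lit 147) (nat_lit 3600) (.n (nat_lit 148) (nat_lit 3336) (.n (nat_lit 149) (nat_lit 888) (.p (nat_lit 150) (nat_lit 960) (.p (nat_lit 151) (nat_lit 1428) (.p (nat_lit 152) (nat_lit 780) (.n (nat_lit 153) (nat_lit 4164) (.p (nat_lit 154) (nat_lit 252) (.n (nat_lit 155) (nat_lit 3192) (.p (nat_lit 156) (nat_lit 48) (.n (nat_lit 157) (nat_lit 1440) (.n (nat_lit 158) (nat_lit 1422) (.p (nat_lit 159) (nat_lit 4878) (.n (nat_lit 160) (nat_lit 1758) (.p (nat_lit 161) (nat_lit 666) (.n (nat_lit 163) (nat_lit 1116) (.n (nat_lit 164) (nat_lit 876) (.n (nat_lit 165) (nat_lit 396) (.p (nat_lit 166) (nat_lit 492) (.n (nat_lit 167) (nat_lit 60) (.n (nat_lit 168) (nat_lit 180) (.p (nat_lit 169) (nat_lit 432) (.n (nat_lit 170) (nat_lit 216) (.n (nat_lit 171) (nat_lit 432) (.n (nat_lit 172) (nat_lit 432) (.p (nat_lit 176) (nat_lit 108) (.n (nat_lit 177) (nat_lit 216) (.p (nat_lit 178) (nat_lit 216) (.n (nat_lit 179) (nat_lit 216) (.p (nat_lit 180) (nat_lit 216) .z))))))))))))))))))))))))))))))))) (.ct dP8_c292 (nat_lit 1152) (nat_lit 6) (.s false (nat_lit 1) (nat_lit 7) (nat_lit 1) (nat_lit 3) (nat_lit 7) true (nat_lit 1) true (nat_lit 6) true (nat_lit 6) true (nat_lit 12) true (nat_lit 10) (.s false (nat_lit 1) (nat_lit 7) (nat_lit 1) (nat_lit 7) (nat_lit 3) true (nat_lit 5) true (nat_lit 10) true (nat_lit 6) true (nat_lit 12) true (nat_lit 6) (.s true (nat_lit 2) (nat_lit 7) (nat_lit 6) (nat_lit 2) (nat_lit 3) false (nat_lit 0) true (nat_lit 10) true (nat_lit 6) true (nat_lit 7) true (nat_lit 11) (.s false (nat_lit 2) (nat_lit 8) (nat_lit 2) (nat_lit 2) (nat_lit 7) true (nat_lit 0) true (nat_lit 6) true (nat_lit 5) true (nat_lit 11) true (nat_lit 11) (.s false (nat_lit 1) (nat_lit 10) (nat_lit 2) (nat_lit 2) (nat_lit 6) true (nat_lit 1) true (nat_lit 7) true (nat_lit 4) true (nat_lit 11) true (nat_lit 11) (.s true (nat_lit 1) (nat_lit 10) (nat_lit 2) (nat_lit 6) (nat_lit 2) true (nat_lit 6) true (nat_lit 11) true (nat_lit 4) true (nat_lit 11) true (nat_lit 7) (.s true (nat_lit 1) (nat_lit 10) (nat_lit 6) (nat_lit 2) (nat_lit 2) true (nat_lit 1) true (nat_lit 11) true (nat_lit 4) true (nat_lit 7) true (nat_lit 11) (.s false (nat_lit 1) (nat_lit 10) (nat_lit 7) (nat_lit 2) (nat_lit 1) true (nat_lit 1) true (nat_lit 12) true (nat_lit 4) true (nat_lit 6) true (nat_lit 11) (.s true (nat_lit 1) (nat_lit 18) (nat_lit 2) (nat_lit 2) (nat_lit 3) true (nat_lit 4) true (nat_lit 10) true (nat_lit 1) true (nat_lit 11) true (nat_lit 11) (.s true (nat_lit 1) (nat_lit 18) (nat_lit 2) (nat_lit 3) (nat_lit 2) true (nat_lit 6) true (nat_lit 11) true (nat_lit 1) true (nat_lit 11) true (nat_lit 10) (.s true (nat_lit 2) (nat_lit 23) (nat_lit 2) (nat_lit 2) (nat_lit 2) true (nat_lit 6) true (nat_lit 11) false (nat_lit 0) true (nat_lit 11) true (nat_lit 11) (.s true (nat_lit 2) (nat_lit 24) (nat_lit 2) (nat_lit 2) (nat_lit 2) true (nat_lit 6) true (nat_lit 11) false (nat_lit 0) true (nat_lit 11) true (nat_lit 11) (.s true (nat_lit 2) (nat_lit 25) (nat_lit 2) (nat_lit 2) (nat_lit 2) true (nat_lit 6) true (nat_lit 11) false (nat_lit 0) true (nat_lit 11) true (nat_lit 11) (.e false (nat_lit 576) (nat_lit 117) (nat_lit 1) (nat_lit 12) dP8_i45))))))))))))))) (.nd (.nd .leaf (nat_lit 57345) (nat_lit 130) (.p (nat_lit 90) (nat_lit 576) .z) .df .leaf) (nat_lit 57346) (nat_lit 184) (.p (nat_lit 108) (nat_lit 576) .z) .df .leaf))) (nat_lit 57350) (nat_lit 347) (.n (nat_lit 144) (nat_lit 1852) (.p (nat_lit 145) (nat_lit 4576) (.p (nat_lit 146) (nat_lit 4996) (.p (nat_lit 147) (nat_lit 1872) (.n (nat_lit 148) (nat_lit 3368) (.n (nat_lit 149) (nat_lit 3128) (.n (nat_lit 150) (nat_lit 640) (.p (nat_lit 151) (nat_lit 212) (.p (nat_lit 152) (nat_lit 620) (.n (nat_lit 153) (nat_lit 4004) (.p (nat_lit 154) (nat_lit 1020) (.n (nat_lit 155) (nat_lit 2552) (.n (nat_lit 156) (nat_lit 176) (.n (nat_lit 157) (nat_lit 1440) (.n (nat_lit 158) (nat_lit 3870) (.p (nat_lit 159) (nat_lit 4830) (.n (nat_lit 160) (nat_lit 1678) (.p (nat_lit 161) (nat_lit 1482) (.p (nat_lit 162) (nat_lit 1056) (.n (nat_lit 163) (nat_lit 636) (.p (nat_lit 164) (nat_lit 212) (.p (nat_lit 165) (nat_lit 852) (.p (nat_lit 166) (nat_lit 1100) (.n (nat_lit 167) (nat_lit 1052) (.n (nat_lit 168) (nat_lit 1236) (.p (nat_lit 169) (nat_lit 1776) (.n (nat_lit 170) (nat_lit 1752) (.n (nat_lit 171) (nat_lit 1776) (.n (nat_lit 172) (nat_lit 2352) (.p (nat_lit 173) (nat_lit 576) (.n (nat_lit 174) (nat_lit 576) (.p (nat_lit 176) (nat_lit 588) (.n (nat_lit 177) (nat_lit 24) (.n (nat_lit 178) (nat_lit 168) (.p (nat_lit 179) (nat_lit 168) (.p (nat_lit 180) (nat_lit 600) .z)))))))))))))))))))))))))))))))))))) (.ct dP8_c292 (nat_lit 576) (nat_lit 7) (.s true (nat_lit 1) (nat_lit 10) (nat_lit 2) (nat_lit 1) (nat_lit 7) true (nat_lit 0) true (nat_lit 6) true (nat_lit 4) true (nat_lit 11) true (nat_lit 12) (.s true (nat_lit 1) (nat_lit 10) (nat_lit 2) (nat_lit 2) (nat_lit 6) true (nat_lit 1) true (nat_lit 7) true (nat_lit 4) true (nat_lit 11) true (nat_lit 11) (.s false (nat_lit 1) (nat_lit 22) (nat_lit 2) (nat_lit 2) (nat_lit 2) true (nat_lit 6) true (nat_lit 11) false (nat_lit 0) true (nat_lit 11) true (nat_lit 11) (.s false (nat_lit 1) (nat_lit 26) (nat_lit 2) (nat_lit 1) (nat_lit 2) true (nat_lit 6) true (nat_lit 11) false (nat_lit 1) true (nat_lit 11) true (nat_lit 12) (.e true (nat_lit 576) (nat_lit 82) (nat_lit 2) (nat_lit 11) (.e true (nat_lit 576) (nat_lit 89) (nat_lit 2) (nat_lit 11) (.e false (nat_lit 576) (nat_lit 90) (nat_lit 2) (nat_lit 11) (.e false (nat_lit 576) (nat_lit 117) (nat_lit 1) (nat_lit 12) (.e false (nat_lit 576) (nat_lit 86) (nat_lit 2) (nat_lit 11) (.e false (nat_lit 576) (nat_lit 43) (nat_lit 7) (nat_lit 6) (.e true (nat_lit 576) (nat_lit 108) (nat_lit 1) (nat_lit 12) .nil)))))))))))) (.nd (.nd (.nd (.nd .leaf (nat_lit 57351) (nat_lit 403) (.p (nat_lit 197) (nat_lit 576) .z) .df .leaf) (nat_lit 58369) (nat_lit 151) (.p (nat_lit 82) (nat_lit 960) (.n (nat_lit 83) (nat_lit 2112) (.n (nat_lit 84) (nat_lit 2688) (.n (nat_lit 85) (nat_lit 1728) (.p (nat_lit 86) (nat_lit 1920) (.p (nat_lit 87) (nat_lit 768) (.n (nat_lit 88) (nat_lit 768) (.p (nat_lit 89) (nat_lit 384) (.n (nat_lit 90) (nat_lit 192) (.p (nat_lit 91) (nat_lit 1920) (.n (nat_lit 92) (nat_lit 576) (.p (nat_lit 93) (nat_lit 768) (.p (nat_lit 94) (nat_lit 192) (.p (nat_lit 95) (nat_lit 576) (.p (nat_lit 96) (nat_lit 576) (.p (nat_lit 97) (nat_lit 864) (.n (nat_lit 98) (nat_lit 2016) (.p (nat_lit 99) (nat_lit 672) (.n (nat_lit 100) (nat_lit 288) (.p (nat_lit 102) (nat_lit 576) (.p (nat_lit 103) (nat_lit 384) (.n (nat_lit 104) (nat_lit 1152) (.n (nat_lit 105) (nat_lit 192) (.p (nat_lit 106) (nat_lit 192) (.p (nat_lit 107) (nat_lit 576) .z))))))))))))))))))))))))) (.ct dP8_c291 (nat_lit 576) (nat_lit 9) dP8_i3) (.nd .leaf (nat_lit 58370) (nat_lit 185) (.p (nat_lit 109) (nat_lit 576) .z) .df .leaf)) (nat_lit 58374) (nat_lit 298) (.p (nat_lit 180) (nat_lit 576) .z) .df (.nd (.nd .leaf (nat_lit 58375) (nat_lit 410) (.p (nat_lit 181) (nat_lit 288) (.n (nat_lit 182) (nat_lit 288) (.n (nat_lit 184) (nat_lit 576) (.n (nat_lit 185) (nat_lit 288) (.p (nat_lit 186) (nat_lit 720) (.p (nat_lit 187) (nat_lit 288) (.n (nat_lit 188) (nat_lit 720) (.n (nat_lit 189) (nat_lit 144) (.p (nat_lit 190) (nat_lit 1152) (.p (nat_lit 191) (nat_lit 1152) (.n (nat_lit 192) (nat_lit 1152) (.n (nat_lit 193) (nat_lit 576) (.n (nat_lit 194) (nat_lit 576) (.p (nat_lit 196) (nat_lit 576) (.p (nat_lit 197) (nat_lit 576) .z))))))))))))))) (.ct dP8_c277 (nat_lit 2304) (nat_lit 4) (.s true (nat_lit 1) (nat_lit 7) (nat_lit 0) (nat_lit 6) (nat_lit 7) true (nat_lit 2) true (nat_lit 4) true (nat_lit 4) true (nat_lit 10) true (nat_lit 5) (.s true (nat_lit 2) (nat_lit 7) (nat_lit 1) (nat_lit 5) (nat_lit 7) true (nat_lit 1) true (nat_lit 4) true (nat_lit 4) true (nat_lit 9) true (nat_lit 6) (.s true (nat_lit 1) (nat_lit 7) (nat_lit 1) (nat_lit 7) (nat_lit 5) true (nat_lit 3) true (nat_lit 6) true (nat_lit 4) true (nat_lit 9) true (nat_lit 4) (.s true (nat_lit 2) (nat_lit 7) (nat_lit 6) (nat_lit 0) (nat_lit 7) false (nat_lit 2) true (nat_lit 4) true (nat_lit 4) true (nat_lit 5) true (nat_lit 10) (.s false (nat_lit 2) (nat_lit 16) (nat_lit 1) (nat_lit 7) (nat_lit 2) true (nat_lit 5) true (nat_lit 8) true (nat_lit 2) true (nat_lit 9) true (nat_lit 4) (.s true (nat_lit 1) (nat_lit 16) (nat_lit 2) (nat_lit 1) (nat_lit 7) true (nat_lit 0) true (nat_lit 4) true (nat_lit 2) true (nat_lit 8) true (nat_lit 9) (.s true (nat_lit 2) (nat_lit 16) (nat_lit 2) (nat_lit 2) (nat_lit 6) true (nat_lit 1) true (nat_lit 5) true (nat_lit 2) true (nat_lit 8) true (nat_lit 8) (.s false (nat_lit 2) (nat_lit 18) (nat_lit 2) (nat_lit 2) (nat_lit 5) true (nat_lit 2) true (nat_lit 6) true (nat_lit 1) true (nat_lit 8) true (nat_lit 8) (.s true (nat_lit 1) (nat_lit 18) (nat_lit 2) (nat_lit 7) (nat_lit 0) true (nat_lit 6) true (nat_lit 10) true (nat_lit 1) true (nat_lit 8) true (nat_lit 4) (.s true (nat_lit 2) (nat_lit 18) (nat_lit 7) (nat_lit 2) (nat_lit 0) true (nat_lit 2) true (nat_lit 10) true (nat_lit 1) true (nat_lit 4) true (nat_lit 8) (.s false (nat_lit 1) (nat_lit 19) (nat_lit 7) (nat_lit 0) (nat_lit 1) true (nat_lit 1) true (nat_lit 9) true (nat_lit 0) true (nat_lit 4) true (nat_lit 10) (.s false (nat_lit 2) (nat_lit 36) (nat_lit 1) (nat_lit 2) (nat_lit 2) true (nat_lit 5) true (nat_lit 8) false (nat_lit 1) true (nat_lit 9) true (nat_lit 8) (.s true (nat_lit 2) (nat_lit 39) (nat_lit 0) (nat_lit 2) (nat_lit 2) true (nat_lit 6) true (nat_lit 8) false (nat_lit 2) true (nat_lit 10) true (nat_lit 8) (.e false (nat_lit 2304) (nat_lit 56) (nat_lit 7) (nat_lit 4) (.e true (nat_lit 2304) (nat_lit 60) (nat_lit 7) (nat_lit 4) (.e true (nat_lit 2304) (nat_lit 61) (nat_lit 7) (nat_lit 4) (.e true (nat_lit 2304) (nat_lit 119) (nat_lit 2) (nat_lit 8) (.e true (nat_lit 9216) (nat_lit 108) (nat_lit 2) (nat_lit 8) (.e false (nat_lit 9216) (nat_lit 109) (nat_lit 2) (nat_lit 8) (.e false (nat_lit 9216) (nat_lit 112) (nat_lit 2) (nat_lit 8) (.e false (nat_lit 9216) (nat_lit 113) (nat_lit 2) (nat_lit 8) (.e true (nat_lit 2304) (nat_lit 114) (nat_lit 2) (nat_lit 8) (.e false (nat_lit 2304) (nat_lit 116) (nat_lit 2) (nat_lit 8) (.e true (nat_lit 2304) (nat_lit 118) (nat_lit 2) (nat_lit 8) .nil))))))))))))))))))))))))) .leaf) (nat_lit 59393) (nat_lit 131) (.p (nat_lit 91) (nat_lit 576) .z) .df (.nd .leaf (nat_lit 59394) (nat_lit 186) (.p (nat_lit 110) (nat_lit 576) .z) .df .leaf))) (nat_lit 59398) (nat_lit 320) (.n (nat_lit 144) (nat_lit 3432) (.p (nat_lit 145) (nat_lit 10560) (.p (nat_lit 146) (nat_lit 10200) (.p (nat_lit 147) (nat_lit 7776) (.n (nat_lit 148) (nat_lit 10032) (.n (nat_lit 149) (nat_lit 1680) (.n (nat_lit 150) (nat_lit 1920) (.p (nat_lit 151) (nat_lit 2040) (.p (nat_lit 152) (nat_lit 2184) (.n (nat_lit 153) (nat_lit 10392) (.p (nat_lit 154) (nat_lit 1512) (.n (nat_lit 155) (nat_lit 8016) (.p (nat_lit 156) (nat_lit 1056) (.n (nat_lit 157) (nat_lit 4032) (.n (nat_lit 158) (nat_lit 3924) (.p (nat_lit 159) (nat_lit 9684) (.n (nat_lit 160) (nat_lit 4404) (.p (nat_lit 161) (nat_lit 1116) (.n (nat_lit 162) (nat_lit 576) (.n (nat_lit 163) (nat_lit 1512) (.n (nat_lit 164) (nat_lit 1128) (.p (nat_lit 165) (nat_lit 2232) (.p (nat_lit 166) (nat_lit 4488) (.n (nat_lit 167) (nat_lit 3048) (.n (nat_lit 168) (nat_lit 2232) (.p (nat_lit 169) (nat_lit 864) (.n (nat_lit 170) (nat_lit 144) (.n (nat_lit 171) (nat_lit 864) (.n (nat_lit 172) (nat_lit 288) (.p (nat_lit 176) (nat_lit 360) (.n (nat_lit 177) (nat_lit 720) (.p (nat_lit 178) (nat_lit 2160) (.n (nat_lit 179) (nat_lit 1584) (.p (nat_lit 180) (nat_lit 720) .z)))))))))))))))))))))))))))))))))) (.ct dP8_c292 (nat_lit 576) (nat_lit 7) (.s false (nat_lit 1) (nat_lit 10) (nat_lit 2) (nat_lit 6) (nat_lit 2) true (nat_lit 6) true (nat_lit 11) true (nat_lit 4) true (nat_lit 11) true (nat_lit 7) (.s false (nat_lit 1) (nat_lit 10) (nat_lit 6) (nat_lit 2) (nat_lit 2) true (nat_lit 1) true (nat_lit 11) true (nat_lit 4) true (nat_lit 7) true (nat_lit 11) (.s true (nat_lit 1) (nat_lit 26) (nat_lit 1) (nat_lit 2) (nat_lit 2) true (nat_lit 7) true (nat_lit 11) false (nat_lit 1) true (nat_lit 12) true (nat_lit 11) (.s true (nat_lit 1) (nat_lit 28) (nat_lit 1) (nat_lit 2) (nat_lit 2) true (nat_lit 7) true (nat_lit 11) false (nat_lit 1) true (nat_lit 12) true (nat_lit 11) (.s false (nat_lit 1) (nat_lit 28) (nat_lit 2) (nat_lit 1) (nat_lit 2) true (nat_lit 6) true (nat_lit 11) false (nat_lit 1) true (nat_lit 11) true (nat_lit 12) (.e true (nat_lit 576) (nat_lit 55) (nat_lit 7) (nat_lit 6) (.e false (nat_lit 1152) (nat_lit 104) (nat_lit 2) (nat_lit 11) (.e false (nat_lit 2112) (nat_lit 82) (nat_lit 2) (nat_lit 11) (.e false (nat_lit 192) (nat_lit 86) (nat_lit 2) (nat_lit 11) (.e true (nat_lit 576) (nat_lit 95) (nat_lit 2) (nat_lit 11) (.e false (nat_lit 384) (nat_lit 89) (nat_lit 2) (nat_lit 11) (.e true (nat_lit 576) (nat_lit 65) (nat_lit 6) (nat_lit 7) (.e false (nat_lit 576) (nat_lit 109) (nat_lit 1) (nat_lit 12) (.e false (nat_lit 288) (nat_lit 114) (nat_lit 1) (nat_lit 12) (.e false (nat_lit 288) (nat_lit 115) (nat_lit 1) (nat_lit 12) (.e true (nat_lit 288) (nat_lit 116) (nat_lit 1) (nat_lit 12) (.e false (nat_lit 576) (nat_lit 117) (nat_lit 1) (nat_lit 12) (.e true (nat_lit 288) (nat_lit 118) (nat_lit 1) (nat_lit 12) (.e true (nat_lit 288) (nat_lit 119) (nat_lit 1) (nat_lit 12) (.e true (nat_lit 288) (nat_lit 120) (nat_lit 1) (nat_lit 12) (.e false (nat_lit 288) (nat_lit 121) (nat_lit 1) (nat_lit 12) dP8_i53)))))))))))))))))))))) (.nd (.nd (.nd .leaf (nat_lit 59399) (nat_lit 419) (.n (nat_lit 184) (nat_lit 576) (.p (nat_lit 186) (nat_lit 576) (.n (nat_lit 187) (nat_lit 288) (.n (nat_lit 188) (nat_lit 576) (.p (nat_lit 189) (nat_lit 864) (.p (nat_lit 190) (nat_lit 864) (.p (nat_lit 191) (nat_lit 864) (.n (nat_lit 192) (nat_lit 864) (.n (nat_lit 193) (nat_lit 288) (.n (nat_lit 194) (nat_lit 864) (.p (nat_lit 196) (nat_lit 576) (.n (nat_lit 198) (nat_lit 576) .z)))))))))))) (.ct dP8_c277 (nat_lit 576) (nat_lit 4) (.s true (nat_lit 1) (nat_lit 7) (nat_lit 1) (nat_lit 7) (nat_lit 5) true (nat_lit 3) true (nat_lit 6) true (nat_lit 4) true (nat_lit 9) true (nat_lit 4) (.s false (nat_lit 1) (nat_lit 7) (nat_lit 2) (nat_lit 7) (nat_lit 3) true (nat_lit 3) true (nat_lit 7) true (nat_lit 4) true (nat_lit 8) true (nat_lit 4) (.e true (nat_lit 1152) (nat_lit 78) (nat_lit 5) (nat_lit 6) (.e false (nat_lit 1152) (nat_lit 79) (nat_lit 5) (nat_lit 6) (.e true (nat_lit 576) (nat_lit 57) (nat_lit 7) (nat_lit 4) (.e false (nat_lit 576) (nat_lit 59) (nat_lit 7) (nat_lit 4) (.e true (nat_lit 576) (nat_lit 60) (nat_lit 7) (nat_lit 4) (.e true (nat_lit 576) (nat_lit 61) (nat_lit 7) (nat_lit 4) (.e false (nat_lit 1152) (nat_lit 62) (nat_lit 7) (nat_lit 4) (.e true (nat_lit 1152) (nat_lit 135) (nat_lit 1) (nat_lit 9) (.e true (nat_lit 1152) (nat_lit 136) (nat_lit 1) (nat_lit 9) (.e false (nat_lit 576) (nat_lit 63) (nat_lit 7) (nat_lit 4) (.e false (nat_lit 1152) (nat_lit 117) (nat_lit 2) (nat_lit 8) .nil)))))))))))))) .leaf) (nat_lit 60417) (nat_lit 155) (.n (nat_lit 82) (nat_lit 576) (.n (nat_lit 83) (nat_lit 576) (.n (nat_lit 84) (nat_lit 576) (.n (nat_lit 85) (nat_lit 576) (.p (nat_lit 86) (nat_lit 1152) (.p (nat_lit 90) (nat_lit 576) (.p (nat_lit 91) (nat_lit 1152) (.p (nat_lit 93) (nat_lit 576) (.n (nat_lit 94) (nat_lit 576) (.p (nat_lit 96) (nat_lit 576) (.n (nat_lit 98) (nat_lit 1152) (.p (nat_lit 99) (nat_lit 576) .z)))))))))))) (.ct dP8_c291 (nat_lit 576) (nat_lit 9) (.s false (nat_lit 1) (nat_lit 10) (nat_lit 2) (nat_lit 2) (nat_lit 1) true (nat_lit 4) true (nat_lit 9) true (nat_lit 1) true (nat_lit 8) true (nat_lit 8) (.s false (nat_lit 1) (nat_lit 18) (nat_lit 1) (nat_lit 0) (nat_lit 2) true (nat_lit 4) true (nat_lit 8) false (nat_lit 1) true (nat_lit 9) true (nat_lit 10) (.e false (nat_lit 1728) (nat_lit 26) (nat_lit 6) (nat_lit 4) (.e false (nat_lit 576) (nat_lit 56) (nat_lit 1) (nat_lit 9) (.e true (nat_lit 576) (nat_lit 55) (nat_lit 2) (nat_lit 8) (.e true (nat_lit 576) (nat_lit 43) (nat_lit 2) (nat_lit 8) (.e true (nat_lit 576) (nat_lit 27) (nat_lit 6) (nat_lit 4) (.e false (nat_lit 576) (nat_lit 28) (nat_lit 6) (nat_lit 4) (.e true (nat_lit 576) (nat_lit 29) (nat_lit 6) (nat_lit 4) (.e true (nat_lit 576) (nat_lit 30) (nat_lit 6) (nat_lit 4) (.e true (nat_lit 576) (nat_lit 31) (nat_lit 6) (nat_lit 4) (.e true (nat_lit 576) (nat_lit 52) (nat_lit 2) (nat_lit 8) (.e false (nat_lit 576) (nat_lit 53) (nat_lit 2) (nat_lit 8) (.e false (nat_lit 576) (nat_lit 54) (nat_lit 2) (nat_lit 8) (.e false (nat_lit 576) (nat_lit 57) (nat_lit 1) (nat_lit 9) (.e false (nat_lit 576) (nat_lit 58) (nat_lit 1) (nat_lit 9) (.e false (nat_lit 576) (nat_lit 60) (nat_lit 1) (nat_lit 9) (.e false (nat_lit 576) (nat_lit 61) (nat_lit 1) (nat_lit 9) (.e true (nat_lit 576) (nat_lit 62) (nat_lit 1) (nat_lit 9) (.e true (nat_lit 576) (nat_lit 65) (nat_lit 1) (nat_lit 9) (.e false (nat_lit 576) (nat_lit 70) (nat_lit 0) (nat_lit 10) .nil)))))))))))))))))))))) (.nd .leaf (nat_lit 60418) (nat_lit 187) (.p (nat_lit 111) (nat_lit 576) .z) .df .leaf)) (nat_lit 60422) (nat_lit 325) (.n (nat_lit 144) (nat_lit 646) (.p (nat_lit 145) (nat_lit 3424) (.p (nat_lit 146) (nat_lit 3466) (.p (nat_lit 147) (nat_lit 1512) (.n (nat_lit 148) (nat_lit 3188) (.n (nat_lit 149) (nat_lit 1580) (.n (nat_lit 150) (nat_lit 928) (.p (nat_lit 151) (nat_lit 50) (.p (nat_lit 152) (nat_lit 350) (.n (nat_lit 153) (nat_lit 3626) (.p (nat_lit 154) (nat_lit 822) (.n (nat_lit 155) (nat_lit 2732) (.p (nat_lit 156) (nat_lit 184) (.n (nat_lit 157) (nat_lit 1296) (.n (nat_lit 158) (nat_lit 2259) (.p (nat_lit 159) (nat_lit 3795) (.n (nat_lit 160) (nat_lit 1435) (.p (nat_lit 161) (nat_lit 753) (.p (nat_lit 162) (nat_lit 480) (.n (nat_lit 163) (nat_lit 294) (.p (nat_lit 164) (nat_lit 194) (.p (nat_lit 165) (nat_lit 834) (.p (nat_lit 166) (nat_lit 686) (.n (nat_lit 167) (nat_lit 566) (.n (nat_lit 168) (nat_lit 930) (.p (nat_lit 169) (nat_lit 696) (.n (nat_lit 170) (nat_lit 636) (.n (nat_lit 171) (nat_lit 696) (.n (nat_lit 172) (nat_lit 696) (.p (nat_lit 176) (nat_lit 318) (.n (nat_lit 177) (nat_lit 60) (.p (nat_lit 178) (nat_lit 300) (.n (nat_lit 179) (nat_lit 300) (.p (nat_lit 180) (nat_lit 636) .z)))))))))))))))))))))))))))))))))) (.ct dP8_c292 (nat_lit 1152) (nat_lit 7) (.s true (nat_lit 2) (nat_lit 7) (nat_lit 1) (nat_lit 3) (nat_lit 7) true (nat_lit 1) true (nat_lit 6) true (nat_lit 6) true (nat_lit 12) true (nat_lit 10) (.s true (nat_lit 1) (nat_lit 7) (nat_lit 1) (nat_lit 7) (nat_lit 3) true (nat_lit 5) true (nat_lit 10) true (nat_lit 6) true (nat_lit 12) true (nat_lit 6) dP8_i59))) (.nd (.nd .leaf (nat_lit 60423) (nat_lit 413) (.p (nat_lit 181) (nat_lit 1728) (.n (nat_lit 182) (nat_lit 1728) (.n (nat_lit 184) (nat_lit 1728) (.n (nat_lit 185) (nat_lit 1728) (.p (nat_lit 186) (nat_lit 864) (.p (nat_lit 187) (nat_lit 288) (.n (nat_lit 188) (nat_lit 864) (.p (nat_lit 190) (nat_lit 1440) (.p (nat_lit 191) (nat_lit 1440) (.n (nat_lit 192) (nat_lit 864) (.n (nat_lit 193) (nat_lit 288) (.n (nat_lit 194) (nat_lit 864) (.p (nat_lit 196) (nat_lit 576) (.p (nat_lit 197) (nat_lit 576) .z)))))))))))))) (.ct dP8_c277 (nat_lit 1152) (nat_lit 4) (.s false (nat_lit 1) (nat_lit 7) (nat_lit 1) (nat_lit 5) (nat_lit 7) true (nat_lit 1) true (nat_lit 4) true (nat_lit 4) true (nat_lit 9) true (nat_lit 6) (.s false (nat_lit 1) (nat_lit 7) (nat_lit 1) (nat_lit 7) (nat_lit 5) true (nat_lit 3) true (nat_lit 6) true (nat_lit 4) true (nat_lit 9) true (nat_lit 4) (.s false (nat_lit 1) (nat_lit 7) (nat_lit 2) (nat_lit 7) (nat_lit 3) true (nat_lit 3) true (nat_lit 7) true (nat_lit 4) true (nat_lit 8) true (nat_lit 4) (.s true (nat_lit 1) (nat_lit 18) (nat_lit 2) (nat_lit 2) (nat_lit 5) true (nat_lit 2) true (nat_lit 6) true (nat_lit 1) true (nat_lit 8) true (nat_lit 8) (.s false (nat_lit 1) (nat_lit 18) (nat_lit 2) (nat_lit 7) (nat_lit 0) true (nat_lit 6) true (nat_lit 10) true (nat_lit 1) true (nat_lit 8) true (nat_lit 4) (.s false (nat_lit 1) (nat_lit 37) (nat_lit 2) (nat_lit 2) (nat_lit 1) true (nat_lit 5) true (nat_lit 9) false (nat_lit 1) true (nat_lit 8) true (nat_lit 8) (.s false (nat_lit 1) (nat_lit 39) (nat_lit 0) (nat_lit 2) (nat_lit 2) true (nat_lit 6) true (nat_lit 8) false (nat_lit 2) true (nat_lit 10) true (nat_lit 8) (.e false (nat_lit 1152) (nat_lit 57) (nat_lit 7) (nat_lit 4) (.e true (nat_lit 576) (nat_lit 62) (nat_lit 7) (nat_lit 4) (.e true (nat_lit 1152) (nat_lit 63) (nat_lit 7) (nat_lit 4) (.e false (nat_lit 576) (nat_lit 136) (nat_lit 1) (nat_lit 9) (.e false (nat_lit 2304) (nat_lit 108) (nat_lit 2) (nat_lit 8) (.e true (nat_lit 2304) (nat_lit 109) (nat_lit 2) (nat_lit 8) (.e true (nat_lit 2304) (nat_lit 112) (nat_lit 2) (nat_lit 8) (.e true (nat_lit 2304) (nat_lit 113) (nat_lit 2) (nat_lit 8) (.e false (nat_lit 1152) (nat_lit 114) (nat_lit 2) (nat_lit 8) (.e false (nat_lit 1152) (nat_lit 121) (nat_lit 2) (nat_lit 8) (.e false (nat_lit 1152) (nat_lit 120) (nat_lit 2) (nat_lit 8) (.e false (nat_lit 576) (nat_lit 75) (nat_lit 6) (nat_lit 5) (.e true (nat_lit 576) (nat_lit 123) (nat_lit 2) (nat_lit 8) (.e true (nat_lit 576) (nat_lit 115) (nat_lit 2) (nat_lit 8) .nil)))))))))))))))))))))) .leaf) (nat_lit 61441) (nat_lit 132) (.p (nat_lit 92) (nat_lit 576) .z) .df .leaf))))) (nat_lit 61442) (nat_lit 188) (.p (nat_lit 112) (nat_lit 576) .z) .df (.nd (.nd (.nd (.nd (.nd (.nd .leaf (nat_lit 61446) (nat_lit 332) (.n (nat_lit 144) (nat_lit 5120) (.p (nat_lit 145) (nat_lit 11360) (.p (nat_lit 146) (nat_lit 12128) (.p (nat_lit 147) (nat_lit 6912) (.n (nat_lit 148) (nat_lit 8992) (.n (nat_lit 149) (nat_lit 4480) (.n (nat_lit 150) (nat_lit 1472) (.p (nat_lit 151) (nat_lit 1312) (.p (nat_lit 152) (nat_lit 1984) (.n (nat_lit 153) (nat_lit 10624) (.p (nat_lit 154) (nat_lit 2400) (.n (nat_lit 155) (nat_lit 7360) (.n (nat_lit 156) (nat_lit 160) (.n (nat_lit 157) (nat_lit 3456) (.n (nat_lit 158) (nat_lit 6624) (.p (nat_lit 159) (nat_lit 10272) (.n (nat_lit 160) (nat_lit 4160) (.p (nat_lit 161) (nat_lit 2208) (.p (nat_lit 162) (nat_lit 672) (.n (nat_lit 163) (nat_lit 1920) (.n (nat_lit 164) (nat_lit 704) (.p (nat_lit 165) (nat_lit 2496) (.p (nat_lit 166) (nat_lit 4672) (.n (nat_lit 167) (nat_lit 3136) (.n (nat_lit 168) (nat_lit 2688) (.p (nat_lit 169) (nat_lit 1536) (.n (nat_lit 170) (nat_lit 768) (.n (nat_lit 171) (nat_lit 1536) (.n (nat_lit 172) (nat_lit 1536) (.p (nat_lit 176) (nat_lit 672) (.n (nat_lit 177) (nat_lit 768) (.p (nat_lit 178) (nat_lit 1248) (.n (nat_lit 179) (nat_lit 672) (.p (nat_lit 180) (nat_lit 768) .z)))))))))))))))))))))))))))))))))) (.ct dP8_c292 (nat_lit 576) (nat_lit 7) (.s true (nat_lit 1) (nat_lit 30) (nat_lit 1) (nat_lit 2) (nat_lit 2) true (nat_lit 7) true (nat_lit 11) false (nat_lit 1) true (nat_lit 12) true (nat_lit 11) (.s false (nat_lit 1) (nat_lit 30) (nat_lit 2) (nat_lit 1) (nat_lit 2) true (nat_lit 6) true (nat_lit 11) false (nat_lit 1) true (nat_lit 11) true (nat_lit 12) (.e true (nat_lit 768) (nat_lit 82) (nat_lit 2) (nat_lit 11) dP8_i68)))) .leaf) (nat_lit 61447) (nat_lit 409) (.n (nat_lit 181) (nat_lit 2880) (.p (nat_lit 182) (nat_lit 2880) (.p (nat_lit 184) (nat_lit 2304) (.p (nat_lit 185) (nat_lit 2880) (.n (nat_lit 186) (nat_lit 1440) (.n (nat_lit 187) (nat_lit 1152) (.p (nat_lit 188) (nat_lit 1440) (.p (nat_lit 189) (nat_lit 864) (.n (nat_lit 190) (nat_lit 576) (.n (nat_lit 191) (nat_lit 576) (.p (nat_lit 192) (nat_lit 576) (.n (nat_lit 194) (nat_lit 576) (.n (nat_lit 198) (nat_lit 576) .z))))))))))))) (.ct dP8_c277 (nat_lit 1152) (nat_lit 4) (.s false (nat_lit 1) (nat_lit 7) (nat_lit 0) (nat_lit 6) (nat_lit 7) true (nat_lit 2) true (nat_lit 4) true (nat_lit 4) true (nat_lit 10) true (nat_lit 5) (.s false (nat_lit 1) (nat_lit 7) (nat_lit 1) (nat_lit 7) (nat_lit 5) true (nat_lit 3) true (nat_lit 6) true (nat_lit 4) true (nat_lit 9) true (nat_lit 4) (.s false (nat_lit 2) (nat_lit 7) (nat_lit 6) (nat_lit 0) (nat_lit 7) false (nat_lit 2) true (nat_lit 4) true (nat_lit 4) true (nat_lit 5) true (nat_lit 10) (.s false (nat_lit 3) (nat_lit 16) (nat_lit 2) (nat_lit 1) (nat_lit 7) true (nat_lit 0) true (nat_lit 4) true (nat_lit 2) true (nat_lit 8) true (nat_lit 9) (.s false (nat_lit 4) (nat_lit 16) (nat_lit 2) (nat_lit 2) (nat_lit 6) true (nat_lit 1) true (nat_lit 5) true (nat_lit 2) true (nat_lit 8) true (nat_lit 8) (.s false (nat_lit 1) (nat_lit 18) (nat_lit 2) (nat_lit 7) (nat_lit 0) true (nat_lit 6) true (nat_lit 10) true (nat_lit 1) true (nat_lit 8) true (nat_lit 4) (.s false (nat_lit 1) (nat_lit 19) (nat_lit 7) (nat_lit 0) (nat_lit 1) true (nat_lit 1) true (nat_lit 9) true (nat_lit 0) true (nat_lit 4) true (nat_lit 10) (.s true (nat_lit 4) (nat_lit 30) (nat_lit 2) (nat_lit 2) (nat_lit 2) true (nat_lit 4) true (nat_lit 8) false (nat_lit 0) true (nat_lit 8) true (nat_lit 8) (.s true (nat_lit 4) (nat_lit 36) (nat_lit 2) (nat_lit 1) (nat_lit 2) true (nat_lit 4) true (nat_lit 8) false (nat_lit 1) true (nat_lit 8) true (nat_lit 9) (.e false (nat_lit 1152) (nat_lit 63) (nat_lit 7) (nat_lit 4) (.e true (nat_lit 2304) (nat_lit 136) (nat_lit 1) (nat_lit 9) (.e true (nat_lit 2304) (nat_lit 75) (nat_lit 6) (nat_lit 5) (.e true (nat_lit 2304) (nat_lit 119) (nat_lit 2) (nat_lit 8) (.e false (nat_lit 2304) (nat_lit 120) (nat_lit 2) (nat_lit 8) (.e false (nat_lit 1152) (nat_lit 121) (nat_lit 2) (nat_lit 8) (.e true (nat_lit 4608) (nat_lit 108) (nat_lit 2) (nat_lit 8) (.e false (nat_lit 4608) (nat_lit 109) (nat_lit 2) (nat_lit 8) (.e false (nat_lit 4608) (nat_lit 112) (nat_lit 2) (nat_lit 8) (.e false (nat_lit 4608) (nat_lit 113) (nat_lit 2) (nat_lit 8) (.e true (nat_lit 2304) (nat_lit 114) (nat_lit 2) (nat_lit 8) (.e false (nat_lit 2304) (nat_lit 116) (nat_lit 2) (nat_lit 8) (.e true (nat_lit 2304) (nat_lit 118) (nat_lit 2) (nat_lit 8) .nil))))))))))))))))))))))) (.nd .leaf (nat_lit 62465) (nat_lit 133) (.p (nat_lit 93) (nat_lit 576) .z) .df .leaf)) (nat_lit 62466) (nat_lit 189) (.p (nat_lit 113) (nat_lit 576) .z) .df (.nd (.nd .leaf (nat_lit 62470) (nat_lit 323) (.p (nat_lit 144) (nat_lit 4472) (.n (nat_lit 145) (nat_lit 9920) (.n (nat_lit 146) (nat_lit 10184) (.n (nat_lit 147) (nat_lit 7776) (.p (nat_lit 148) (nat_lit 8272) (.p (nat_lit 149) (nat_lit 1456) (.p (nat_lit 150) (nat_lit 896) (.n (nat_lit 151) (nat_lit 1960) (.n (nat_lit 152) (nat_lit 2200) (.p (nat_lit 153) (nat_lit 9544) (.n (nat_lit 154) (nat_lit 1464) (.p (nat_lit 155) (nat_lit 7216) (.n (nat_lit 156) (nat_lit 416) (.p (nat_lit 157) (nat_lit 3456) (.p (nat_lit 158) (nat_lit 3420) (.n (nat_lit 159) (nat_lit 8796) (.p (nat_lit 160) (nat_lit 3836) (.n (nat_lit 161) (nat_lit 948) (.p (nat_lit 162) (nat_lit 768) (.p (nat_lit 163) (nat_lit 1848) (.p (nat_lit 164) (nat_lit 1496) (.n (nat_lit 165) (nat_lit 1704) (.n (nat_lit 166) (nat_lit 4312) (.p (nat_lit 167) (nat_lit 3064) (.p (nat_lit 168) (nat_lit 1896) (.n (nat_lit 169) (nat_lit 96) (.n (nat_lit 170) (nat_lit 528) (.p (nat_lit 171) (nat_lit 96) (.n (nat_lit 172) (nat_lit 480) (.p (nat_lit 173) (nat_lit 576) (.n (nat_lit 174) (nat_lit 576) (.n (nat_lit 176) (nat_lit 24) (.p (nat_lit 177) (nat_lit 624) (.n (nat_lit 178) (nat_lit 1968) (.p (nat_lit 179) (nat_lit 1392) (.n (nat_lit 180) (nat_lit 624) .z)))))))))))))))))))))))))))))))))))) (.ct dP8_c292 (nat_lit 2304) (nat_lit 7) (.s false (nat_lit 1) (nat_lit 6) (nat_lit 5) (nat_lit 2) (nat_lit 6) false (nat_lit 1) true (nat_lit 7) true (nat_lit 7) true (nat_lit 8) true (nat_lit 11) (.s true (nat_lit 2) (nat_lit 10) (nat_lit 2) (nat_lit 1) (nat_lit 7) true (nat_lit 0) true (nat_lit 6) true (nat_lit 4) true (nat_lit 11) true (nat_lit 12) (.s true (nat_lit 2) (nat_lit 10) (nat_lit 2) (nat_lit 2) (nat_lit 6) true (nat_lit 1) true (nat_lit 7) true (nat_lit 4) true (nat_lit 11) true (nat_lit 11) (.s false (nat_lit 1) (nat_lit 12) (nat_lit 6) (nat_lit 2) (nat_lit 2) true (nat_lit 1) true (nat_lit 11) true (nat_lit 4) true (nat_lit 7) true (nat_lit 11) (.s true (nat_lit 1) (nat_lit 17) (nat_lit 0) (nat_lit 2) (nat_lit 6) true (nat_lit 4) true (nat_lit 7) true (nat_lit 1) true (nat_lit 13) true (nat_lit 11) (.s true (nat_lit 1) (nat_lit 17) (nat_lit 0) (nat_lit 6) (nat_lit 2) true (nat_lit 8) true (nat_lit 11) true (nat_lit 1) true (nat_lit 13) true (nat_lit 7) (.s false (nat_lit 2) (nat_lit 22) (nat_lit 2) (nat_lit 2) (nat_lit 2) true (nat_lit 6) true (nat_lit 11) false (nat_lit 0) true (nat_lit 11) true (nat_lit 11) (.s false (nat_lit 2) (nat_lit 30) (nat_lit 1) (nat_lit 2) (nat_lit 2) true (nat_lit 7) true (nat_lit 11) false (nat_lit 1) true (nat_lit 12) true (nat_lit 11) (.s false (nat_lit 2) (nat_lit 26) (nat_lit 2) (nat_lit 1) (nat_lit 2) true (nat_lit 6) true (nat_lit 11) false (nat_lit 1) true (nat_lit 11) true (nat_lit 12) (.s true (nat_lit 2) (nat_lit 28) (nat_lit 2) (nat_lit 1) (nat_lit 2) true (nat_lit 6) true (nat_lit 11) false (nat_lit 1) true (nat_lit 11) true (nat_lit 12) (.s true (nat_lit 2) (nat_lit 30) (nat_lit 2) (nat_lit 1) (nat_lit 2) true (nat_lit 6) true (nat_lit 11) false (nat_lit 1) true (nat_lit 11) true (nat_lit 12) (.e true (nat_lit 1152) (nat_lit 57) (nat_lit 6) (nat_lit 7) (.e false (nat_lit 384) (nat_lit 82) (nat_lit 2) (nat_lit 11) (.e true (nat_lit 1920) (nat_lit 89) (nat_lit 2) (nat_lit 11) (.e false (nat_lit 384) (nat_lit 90) (nat_lit 2) (nat_lit 11) (.e false (nat_lit 1152) (nat_lit 117) (nat_lit 1) (nat_lit 12) (.e false (nat_lit 4224) (nat_lit 86) (nat_lit 2) (nat_lit 11) (.e true (nat_lit 4992) (nat_lit 84) (nat_lit 2) (nat_lit 11) dP8_i56))))))))))))))))))) .leaf) (nat_lit 62471) (nat_lit 408) (.p (nat_lit 181) (nat_lit 288) (.n (nat_lit 182) (nat_lit 288) (.p (nat_lit 184) (nat_lit 576) (.n (nat_lit 185) (nat_lit 288) (.p (nat_lit 186) (nat_lit 144) (.p (nat_lit 187) (nat_lit 864) (.n (nat_lit 188) (nat_lit 144) (.n (nat_lit 189) (nat_lit 720) (.n (nat_lit 190) (nat_lit 1152) (.n (nat_lit 191) (nat_lit 1152) (.p (nat_lit 192) (nat_lit 576) (.p (nat_lit 193) (nat_lit 576) (.p (nat_lit 194) (nat_lit 1152) (.n (nat_lit 196) (nat_lit 576) (.p (nat_lit 198) (nat_lit 576) .z))))))))))))))) (.ct dP8_c277 (nat_lit 1152) (nat_lit 4) (.s true (nat_lit 1) (nat_lit 7) (nat_lit 0) (nat_lit 6) (nat_lit 7) true (nat_lit 2) true (nat_lit 4) true (nat_lit 4) true (nat_lit 10) true (nat_lit 5) (.s true (nat_lit 1) (nat_lit 7) (nat_lit 1) (nat_lit 7) (nat_lit 5) true (nat_lit 3) true (nat_lit 6) true (nat_lit 4) true (nat_lit 9) true (nat_lit 4) (.s false (nat_lit 2) (nat_lit 7) (nat_lit 2) (nat_lit 7) (nat_lit 3) true (nat_lit 3) true (nat_lit 7) true (nat_lit 4) true (nat_lit 8) true (nat_lit 4) (.s true (nat_lit 2) (nat_lit 7) (nat_lit 6) (nat_lit 0) (nat_lit 7) false (nat_lit 2) true (nat_lit 4) true (nat_lit 4) true (nat_lit 5) true (nat_lit 10) (.s true (nat_lit 2) (nat_lit 10) (nat_lit 7) (nat_lit 2) (nat_lit 2) true (nat_lit 0) true (nat_lit 8) true (nat_lit 3) true (nat_lit 4) true (nat_lit 8) (.s true (nat_lit 1) (nat_lit 16) (nat_lit 2) (nat_lit 1) (nat_lit 7) true (nat_lit 0) true (nat_lit 4) true (nat_lit 2) true (nat_lit 8) true (nat_lit 9) (.s true (nat_lit 2) (nat_lit 16) (nat_lit 2) (nat_lit 2) (nat_lit 6) true (nat_lit 1) true (nat_lit 5) true (nat_lit 2) true (nat_lit 8) true (nat_lit 8) (.s false (nat_lit 1) (nat_lit 16) (nat_lit 6) (nat_lit 2) (nat_lit 2) true (nat_lit 1) true (nat_lit 8) true (nat_lit 2) true (nat_lit 5) true (nat_lit 8) dP8_i86))))))))) (.nd .leaf (nat_lit 63489) (nat_lit 134) (.p (nat_lit 94) (nat_lit 576) .z) .df .leaf))) (nat_lit 63490) (nat_lit 190) (.p (nat_lit 114) (nat_lit 576) .z) .df (.nd (.nd (.nd .leaf (nat_lit 63494) (nat_lit 327) (.n (nat_lit 144) (nat_lit 3784) (.p (nat_lit 145) (nat_lit 14752) (.p (nat_lit 146) (nat_lit 14488) (.p (nat_lit 147) (nat_lit 8928) (.n (nat_lit 148) (nat_lit 14288) (.n (nat_lit 149) (nat_lit 5264) (.n (nat_lit 150) (nat_lit 2752) (.p (nat_lit 151) (nat_lit 1592) (.p (nat_lit 152) (nat_lit 2216) (.n (nat_lit 153) (nat_lit 15608) (.p (nat_lit 154) (nat_lit 2280) (.n (nat_lit 155) (nat_lit 11600) (.p (nat_lit 156) (nat_lit 1792) (.n (nat_lit 157) (nat_lit 5760) (.n (nat_lit 158) (nat_lit 8388) (.p (nat_lit 159) (nat_lit 15108) (.n (nat_lit 160) (nat_lit 6148) (.p (nat_lit 161) (nat_lit 2796) (.p (nat_lit 162) (nat_lit 1056) (.n (nat_lit 163) (nat_lit 1608) (.n (nat_lit 164) (nat_lit 424) (.p (nat_lit 165) (nat_lit 4056) (.p (nat_lit 166) (nat_lit 5864) (.n (nat_lit 167) (nat_lit 3656) (.n (nat_lit 168) (nat_lit 3864) (.p (nat_lit 169) (nat_lit 2208) (.n (nat_lit 170) (nat_lit 1104) (.n (nat_lit 171) (nat_lit 2784) (.n (nat_lit 172) (nat_lit 2208) (.p (nat_lit 173) (nat_lit 576) (.p (nat_lit 176) (nat_lit 840) (.n (nat_lit 177) (nat_lit 1104) (.p (nat_lit 178) (nat_lit 1776) (.n (nat_lit 179) (nat_lit 1200) (.p (nat_lit 180) (nat_lit 1104) .z))))))))))))))))))))))))))))))))))) (.ct dP8_c292 (nat_lit 576) (nat_lit 7) (.s true (nat_lit 1) (nat_lit 16) (nat_lit 2) (nat_lit 1) (nat_lit 6) true (nat_lit 1) true (nat_lit 7) true (nat_lit 2) true (nat_lit 11) true (nat_lit 12) dP8_i62)) .leaf) (nat_lit 63495) (nat_lit 406) (.n (nat_lit 181) (nat_lit 288) (.p (nat_lit 182) (nat_lit 288) (.p (nat_lit 185) (nat_lit 288) (.p (nat_lit 186) (nat_lit 1008) (.p (nat_lit 188) (nat_lit 144) (.n (nat_lit 189) (nat_lit 720) (.n (nat_lit 190) (nat_lit 864) (.n (nat_lit 191) (nat_lit 864) (.p (nat_lit 192) (nat_lit 864) (.p (nat_lit 193) (nat_lit 864) (.p (nat_lit 194) (nat_lit 288) (.n (nat_lit 198) (nat_lit 576) .z)))))))))))) (.ct dP8_c277 (nat_lit 9216) (nat_lit 4) (.s true (nat_lit 7) (nat_lit 7) (nat_lit 0) (nat_lit 6) (nat_lit 7) true (nat_lit 2) true (nat_lit 4) true (nat_lit 4) true (nat_lit 10) true (nat_lit 5) (.s false (nat_lit 4) (nat_lit 7) (nat_lit 1) (nat_lit 5) (nat_lit 7) true (nat_lit 1) true (nat_lit 4) true (nat_lit 4) true (nat_lit 9) true (nat_lit 6) (.s true (nat_lit 5) (nat_lit 7) (nat_lit 1) (nat_lit 7) (nat_lit 5) true (nat_lit 3) true (nat_lit 6) true (nat_lit 4) true (nat_lit 9) true (nat_lit 4) (.s true (nat_lit 4) (nat_lit 7) (nat_lit 2) (nat_lit 7) (nat_lit 3) true (nat_lit 3) true (nat_lit 7) true (nat_lit 4) true (nat_lit 8) true (nat_lit 4) (.s true (nat_lit 6) (nat_lit 7) (nat_lit 6) (nat_lit 0) (nat_lit 7) false (nat_lit 2) true (nat_lit 4) true (nat_lit 4) true (nat_lit 5) true (nat_lit 10) (.s false (nat_lit 4) (nat_lit 10) (nat_lit 2) (nat_lit 2) (nat_lit 7) true (nat_lit 0) true (nat_lit 4) true (nat_lit 3) true (nat_lit 8) true (nat_lit 8) (.s true (nat_lit 4) (nat_lit 11) (nat_lit 2) (nat_lit 2) (nat_lit 7) true (nat_lit 0) true (nat_lit 4) true (nat_lit 3) true (nat_lit 8) true (nat_lit 8) (.s false (nat_lit 6) (nat_lit 10) (nat_lit 7) (nat_lit 2) (nat_lit 2) true (nat_lit 0) true (nat_lit 8) true (nat_lit 3) true (nat_lit 4) true (nat_lit 8) (.s false (nat_lit 2) (nat_lit 16) (nat_lit 1) (nat_lit 2) (nat_lit 7) true (nat_lit 1) true (nat_lit 4) true (nat_lit 2) true (nat_lit 9) true (nat_lit 8) (.s true (nat_lit 13) (nat_lit 16) (nat_lit 2) (nat_lit 1) (nat_lit 7) true (nat_lit 0) true (nat_lit 4) true (nat_lit 2) true (nat_lit 8) true (nat_lit 9) (.s true (nat_lit 10) (nat_lit 16) (nat_lit 2) (nat_lit 2) (nat_lit 6) true (nat_lit 1) true (nat_lit 5) true (nat_lit 2) true (nat_lit 8) true (nat_lit 8) (.s false (nat_lit 4) (nat_lit 16) (nat_lit 6) (nat_lit 2) (nat_lit 2) true (nat_lit 1) true (nat_lit 8) true (nat_lit 2) true (nat_lit 5) true (nat_lit 8) (.s true (nat_lit 4) (nat_lit 17) (nat_lit 0) (nat_lit 2) (nat_lit 7) true (nat_lit 2) true (nat_lit 4) true (nat_lit 1) true (nat_lit 10) true (nat_lit 8) dP8_i85)))))))))))))) (.nd .leaf (nat_lit 64513) (nat_lit 158) (.p (nat_lit 82) (nat_lit 1632) (.n (nat_lit 83) (nat_lit 192) (.p (nat_lit 84) (nat_lit 384) (.n (nat_lit 85) (nat_lit 864) (.n (nat_lit 86) (nat_lit 768) (.n (nat_lit 87) (nat_lit 480) (.n (nat_lit 88) (nat_lit 384) (.n (nat_lit 89) (nat_lit 1248) (.n (nat_lit 90) (nat_lit 672) (.n (nat_lit 91) (nat_lit 768) (.n (nat_lit 92) (nat_lit 288) (.n (nat_lit 93) (nat_lit 768) (.n (nat_lit 94) (nat_lit 192) (.n (nat_lit 95) (nat_lit 288) (.n (nat_lit 97) (nat_lit 864) (.p (nat_lit 98) (nat_lit 1440) (.n (nat_lit 99) (nat_lit 384) (.p (nat_lit 100) (nat_lit 288) (.p (nat_lit 101) (nat_lit 576) (.p (nat_lit 102) (nat_lit 576) (.p (nat_lit 103) (nat_lit 480) (.p (nat_lit 104) (nat_lit 288) (.n (nat_lit 105) (nat_lit 960) (.p (nat_lit 106) (nat_lit 960) (.p (nat_lit 107) (nat_lit 576) .z))))))))))))))))))))))))) (.ct dP8_c291 (nat_lit 576) (nat_lit 9) (.s true (nat_lit 1) (nat_lit 6) (nat_lit 1) (nat_lit 5) (nat_lit 2) true (nat_lit 4) true (nat_lit 8) true (nat_lit 4) true (nat_lit 9) true (nat_lit 5) (.s false (nat_lit 1) (nat_lit 6) (nat_lit 2) (nat_lit 5) (nat_lit 1) true (nat_lit 4) true (nat_lit 9) true (nat_lit 4) true (nat_lit 8) true (nat_lit 5) (.s true (nat_lit 1) (nat_lit 6) (nat_lit 5) (nat_lit 2) (nat_lit 1) true (nat_lit 1) true (nat_lit 9) true (nat_lit 4) true (nat_lit 5) true (nat_lit 8) (.s false (nat_lit 1) (nat_lit 11) (nat_lit 2) (nat_lit 1) (nat_lit 2) true (nat_lit 3) true (nat_lit 8) true (nat_lit 1) true (nat_lit 8) true (nat_lit 9) (.e true (nat_lit 576) (nat_lit 27) (nat_lit 6) (nat_lit 4) (.e false (nat_lit 576) (nat_lit 34) (nat_lit 5) (nat_lit 5) (.e false (nat_lit 576) (nat_lit 57) (nat_lit 1) (nat_lit 9) (.e true (nat_lit 576) (nat_lit 59) (nat_lit 1) (nat_lit 9) (.e true (nat_lit 576) (nat_lit 62) (nat_lit 1) (nat_lit 9) (.e true (nat_lit 576) (nat_lit 33) (nat_lit 5) (nat_lit 5) (.e true (nat_lit 576) (nat_lit 56) (nat_lit 1) (nat_lit 9) (.e false (nat_lit 576) (nat_lit 60) (nat_lit 1) (nat_lit 9) (.e false (nat_lit 576) (nat_lit 61) (nat_lit 1) (nat_lit 9) (.e false (nat_lit 576) (nat_lit 23) (nat_lit 7) (nat_lit 3) (.e false (nat_lit 576) (nat_lit 48) (nat_lit 2) (nat_lit 8) .nil)))))))))))))))) .leaf)) (nat_lit 64514) (nat_lit 191) (.p (nat_lit 115) (nat_lit 576) .z) .df (.nd (.nd .leaf (nat_lit 64518) (nat_lit 326) (.p (nat_lit 144) (nat_lit 4612) (.n (nat_lit 145) (nat_lit 12160) (.n (nat_lit 146) (nat_lit 13660) (.n (nat_lit 147) (nat_lit 7920) (.p (nat_lit 148) (nat_lit 10040) (.p (nat_lit 149) (nat_lit 4616) (.p (nat_lit 150) (nat_lit 448) (.n (nat_lit 151) (nat_lit 908) (.n (nat_lit 152) (nat_lit 1748) (.p (nat_lit 153) (nat_lit 12188) (.n (nat_lit 154) (nat_lit 1956) (.p (nat_lit 155) (nat_lit 8648) (.n (nat_lit 156) (nat_lit 208) (.p (nat_lit 157) (nat_lit 4320) (.p (nat_lit 158) (nat_lit 6786) (.n (nat_lit 159) (nat_lit 12930) (.p (nat_lit 160) (nat_lit 4978) (.n (nat_lit 161) (nat_lit 2454) (.n (nat_lit 162) (nat_lit 768) (.p (nat_lit 163) (nat_lit 1860) (.p (nat_lit 164) (nat_lit 820) (.n (nat_lit 165) (nat_lit 1644) (.n (nat_lit 166) (nat_lit 3956) (.p (nat_lit 167) (nat_lit 2468) (.p (nat_lit 168) (nat_lit 2604) (.n (nat_lit 169) (nat_lit 1488) (.p (nat_lit 170) (nat_lit 744) (.p (nat_lit 171) (nat_lit 1488) (.p (nat_lit 172) (nat_lit 1488) (.n (nat_lit 176) (nat_lit 372) (.p (nat_lit 177) (nat_lit 744) (.n (nat_lit 178) (nat_lit 1128) (.p (nat_lit 179) (nat_lit 552) (.n (nat_lit 180) (nat_lit 744) .z)))))))))))))))))))))))))))))))))) (.ct dP8_c292 (nat_lit 576) (nat_lit 7) (.s false (nat_lit 2) (nat_lit 10) (nat_lit 2) (nat_lit 1) (nat_lit 7) true (nat_lit 0) true (nat_lit 6) true (nat_lit 4) true (nat_lit 11) true (nat_lit 12) dP8_i61)) .leaf) (nat_lit 64519) (nat_lit 404) (.p (nat_lit 198) (nat_lit 576) .z) .df .leaf))) (nat_lit 65537) (nat_lit 160) (.n (nat_lit 82) (nat_lit 1536) (.p (nat_lit 83) (nat_lit 2688) (.p (nat_lit 84) (nat_lit 3264) (.p (nat_lit 85) (nat_lit 1728) (.n (nat_lit 86) (nat_lit 1920) (.n (nat_lit 87) (nat_lit 1344) (.p (nat_lit 88) (nat_lit 768) (.n (nat_lit 89) (nat_lit 384) (.p (nat_lit 90) (nat_lit 768) (.n (nat_lit 91) (nat_lit 2496) (.p (nat_lit 92) (nat_lit 576) (.n (nat_lit 93) (nat_lit 1920) (.n (nat_lit 94) (nat_lit 192) (.n (nat_lit 95) (nat_lit 576) (.n (nat_lit 96) (nat_lit 576) (.n (nat_lit 97) (nat_lit 1440) (.p (nat_lit 98) (nat_lit 2592) (.n (nat_lit 99) (nat_lit 672) (.p (nat_lit 100) (nat_lit 288) (.n (nat_lit 102) (nat_lit 576) (.n (nat_lit 103) (nat_lit 384) (.p (nat_lit 104) (nat_lit 1152) (.p (nat_lit 105) (nat_lit 192) (.n (nat_lit 106) (nat_lit 192) (.n (nat_lit 107) (nat_lit 576) .z))))))))))))))))))))))))) (.ct dP8_c291 (nat_lit 576) (nat_lit 9) (.s true (nat_lit 1) (nat_lit 11) (nat_lit 2) (nat_lit 2) (nat_lit 1) true (nat_lit 4) true (nat_lit 9) true (nat_lit 1) true (nat_lit 8) true (nat_lit 8) (.s true (nat_lit 1) (nat_lit 18) (nat_lit 2) (nat_lit 0) (nat_lit 1) true (nat_lit 4) true (nat_lit 9) false (nat_lit 1) true (nat_lit 8) true (nat_lit 10) (.e true (nat_lit 576) (nat_lit 57) (nat_lit 1) (nat_lit 9) (.e false (nat_lit 576) (nat_lit 49) (nat_lit 2) (nat_lit 8) (.e true (nat_lit 576) (nat_lit 53) (nat_lit 2) (nat_lit 8) (.e true (nat_lit 576) (nat_lit 54) (nat_lit 2) (nat_lit 8) (.e true (nat_lit 1152) (nat_lit 26) (nat_lit 6) (nat_lit 4) (.e true (nat_lit 576) (nat_lit 28) (nat_lit 6) (nat_lit 4) (.e false (nat_lit 576) (nat_lit 29) (nat_lit 6) (nat_lit 4) (.e false (nat_lit 576) (nat_lit 30) (nat_lit 6) (nat_lit 4) (.e false (nat_lit 576) (nat_lit 31) (nat_lit 6) (nat_lit 4) (.e true (nat_lit 576) (nat_lit 46) (nat_lit 2) (nat_lit 8) (.e false (nat_lit 576) (nat_lit 47) (nat_lit 2) (nat_lit 8) (.e false (nat_lit 576) (nat_lit 67) (nat_lit 0) (nat_lit 10) (.e true (nat_lit 576) (nat_lit 68) (nat_lit 0) (nat_lit 10) (.e true (nat_lit 576) (nat_lit 69) (nat_lit 0) (nat_lit 10) .nil))))))))))))))))) (.nd (.nd (.nd (.nd .leaf (nat_lit 65538) (nat_lit 192) (.p (nat_lit 116) (nat_lit 576) .z) .df .leaf) (nat_lit 65542) (nat_lit 339) (.n (nat_lit 144) (nat_lit 6584) (.p (nat_lit 145) (nat_lit 20960) (.p (nat_lit 146) (nat_lit 20648) (.p (nat_lit 147) (nat_lit 13536) (.n (nat_lit 148) (nat_lit 19120) (.n (nat_lit 149) (nat_lit 5680) (.n (nat_lit 150) (nat_lit 4160) (.p (nat_lit 151) (nat_lit 3016) (.p (nat_lit 152) (nat_lit 3544) (.n (nat_lit 153) (nat_lit 21832) (.p (nat_lit 154) (nat_lit 3480) (.n (nat_lit 155) (nat_lit 16048) (.p (nat_lit 156) (nat_lit 1664) (.n (nat_lit 157) (nat_lit 7488) (.n (nat_lit 158) (nat_lit 10908) (.p (nat_lit 159) (nat_lit 20316) (.n (nat_lit 160) (nat_lit 8540) (.p (nat_lit 161) (nat_lit 3252) (.p (nat_lit 162) (nat_lit 672) (.n (nat_lit 163) (nat_lit 2424) (.n (nat_lit 164) (nat_lit 1304) (.p (nat_lit 165) (nat_lit 4584) (.p (nat_lit 166) (nat_lit 7960) (.n (nat_lit 167) (nat_lit 5560) (.n (nat_lit 168) (nat_lit 4776) (.p (nat_lit 169) (nat_lit 2400) (.n (nat_lit 170) (nat_lit 1200) (.n (nat_lit 171) (nat_lit 2976) (.n (nat_lit 172) (nat_lit 2400) (.p (nat_lit 174) (nat_lit 576) (.p (nat_lit 176) (nat_lit 888) (.n (nat_lit 177) (nat_lit 1200) (.p (nat_lit 178) (nat_lit 3408) (.n (nat_lit 179) (nat_lit 2832) (.p (nat_lit 180) (nat_lit 1200) .z))))))))))))))))))))))))))))))))))) (.ct dP8_c292 (nat_lit 576) (nat_lit 7) (.s false (nat_lit 1) (nat_lit 10) (nat_lit 2) (nat_lit 1) (nat_lit 7) true (nat_lit 0) true (nat_lit 6) true (nat_lit 4) true (nat_lit 11) true (nat_lit 12) (.s false (nat_lit 2) (nat_lit 10) (nat_lit 2) (nat_lit 2) (nat_lit 6) true (nat_lit 1) true (nat_lit 7) true (nat_lit 4) true (nat_lit 11) true (nat_lit 11) (.s true (nat_lit 1) (nat_lit 10) (nat_lit 2) (nat_lit 6) (nat_lit 2) true (nat_lit 6) true (nat_lit 11) true (nat_lit 4) true (nat_lit 11) true (nat_lit 7) (.s true (nat_lit 1) (nat_lit 10) (nat_lit 6) (nat_lit 2) (nat_lit 2) true (nat_lit 1) true (nat_lit 11) true (nat_lit 4) true (nat_lit 7) true (nat_lit 11) (.s false (nat_lit 1) (nat_lit 10) (nat_lit 7) (nat_lit 2) (nat_lit 1) true (nat_lit 1) true (nat_lit 12) true (nat_lit 4) true (nat_lit 6) true (nat_lit 11) (.s true (nat_lit 1) (nat_lit 22) (nat_lit 2) (nat_lit 2) (nat_lit 2) true (nat_lit 6) true (nat_lit 11) false (nat_lit 0) true (nat_lit 11) true (nat_lit 11) (.s true (nat_lit 1) (nat_lit 26) (nat_lit 2) (nat_lit 1) (nat_lit 2) true (nat_lit 6) true (nat_lit 11) false (nat_lit 1) true (nat_lit 11) true (nat_lit 12) (.s true (nat_lit 1) (nat_lit 26) (nat_lit 2) (nat_lit 2) (nat_lit 1) true (nat_lit 7) true (nat_lit 12) false (nat_lit 1) true (nat_lit 11) true (nat_lit 11) (.s false (nat_lit 1) (nat_lit 39) (nat_lit 1) (nat_lit 0) (nat_lit 2) true (nat_lit 7) true (nat_lit 11) false (nat_lit 4) true (nat_lit 12) true (nat_lit 13) (.e true (nat_lit 1152) (nat_lit 104) (nat_lit 2) (nat_lit 11) (.e true (nat_lit 576) (nat_lit 117) (nat_lit 1) (nat_lit 12) (.e false (nat_lit 576) (nat_lit 95) (nat_lit 2) (nat_lit 11) (.e false (nat_lit 576) (nat_lit 65) (nat_lit 6) (nat_lit 7) (.e true (nat_lit 576) (nat_lit 43) (nat_lit 7) (nat_lit 6) (.e false (nat_lit 1152) (nat_lit 108) (nat_lit 1) (nat_lit 12) (.e false (nat_lit 576) (nat_lit 99) (nat_lit 2) (nat_lit 11) (.e true (nat_lit 1152) (nat_lit 109) (nat_lit 1) (nat_lit 12) (.e true (nat_lit 1152) (nat_lit 112) (nat_lit 1) (nat_lit 12) (.e true (nat_lit 1152) (nat_lit 113) (nat_lit 1) (nat_lit 12) (.e false (nat_lit 576) (nat_lit 114) (nat_lit 1) (nat_lit 12) (.e true (nat_lit 576) (nat_lit 119) (nat_lit 1) (nat_lit 12) (.e false (nat_lit 1152) (nat_lit 120) (nat_lit 1) (nat_lit 12) (.e false (nat_lit 576) (nat_lit 121) (nat_lit 1) (nat_lit 12) (.e false (nat_lit 576) (nat_lit 130) (nat_lit 0) (nat_lit 13) .nil))))))))))))))))))))))))) (.nd .leaf (nat_lit 65543) (nat_lit 427) (.n (nat_lit 181) (nat_lit 288) (.p (nat_lit 182) (nat_lit 288) (.p (nat_lit 185) (nat_lit 288) (.n (nat_lit 186) (nat_lit 144) (.n (nat_lit 187) (nat_lit 1152) (.p (nat_lit 188) (nat_lit 1296) (.n (nat_lit 189) (nat_lit 720) (.n (nat_lit 190) (nat_lit 864) (.n (nat_lit 191) (nat_lit 864) (.p (nat_lit 192) (nat_lit 2016) (.p (nat_lit 193) (nat_lit 864) (.n (nat_lit 194) (nat_lit 864) (.n (nat_lit 198) (nat_lit 576) .z))))))))))))) (.ct dP8_c277 (nat_lit 576) (nat_lit 4) (.s true (nat_lit 1) (nat_lit 7) (nat_lit 2) (nat_lit 7) (nat_lit 3) true (nat_lit 3) true (nat_lit 7) true (nat_lit 4) true (nat_lit 8) true (nat_lit 4) (.s false (nat_lit 1) (nat_lit 7) (nat_lit 6) (nat_lit 0) (nat_lit 7) false (nat_lit 2) true (nat_lit 4) true (nat_lit 4) true (nat_lit 5) true (nat_lit 10) (.s false (nat_lit 1) (nat_lit 16) (nat_lit 2) (nat_lit 2) (nat_lit 6) true (nat_lit 1) true (nat_lit 5) true (nat_lit 2) true (nat_lit 8) true (nat_lit 8) (.s true (nat_lit 1) (nat_lit 36) (nat_lit 1) (nat_lit 2) (nat_lit 2) true (nat_lit 5) true (nat_lit 8) false (nat_lit 1) true (nat_lit 9) true (nat_lit 8) (.e true (nat_lit 1152) (nat_lit 57) (nat_lit 7) (nat_lit 4) (.e false (nat_lit 1152) (nat_lit 59) (nat_lit 7) (nat_lit 4) (.e true (nat_lit 1152) (nat_lit 117) (nat_lit 2) (nat_lit 8) (.e false (nat_lit 1152) (nat_lit 62) (nat_lit 7) (nat_lit 4) (.e false (nat_lit 1152) (nat_lit 63) (nat_lit 7) (nat_lit 4) (.e false (nat_lit 576) (nat_lit 60) (nat_lit 7) (nat_lit 4) (.e true (nat_lit 1152) (nat_lit 74) (nat_lit 6) (nat_lit 5) (.e true (nat_lit 1152) (nat_lit 75) (nat_lit 6) (nat_lit 5) (.e true (nat_lit 1152) (nat_lit 114) (nat_lit 2) (nat_lit 8) (.e false (nat_lit 1152) (nat_lit 118) (nat_lit 2) (nat_lit 8) (.e true (nat_lit 576) (nat_lit 121) (nat_lit 2) (nat_lit 8) (.e false (nat_lit 576) (nat_lit 137) (nat_lit 1) (nat_lit 9) .nil))))))))))))))))) .leaf)) (nat_lit 66561) (nat_lit 135) (.p (nat_lit 95) (nat_lit 576) .z) .df (.nd (.nd .leaf (nat_lit 66562) (nat_lit 193) (.p (nat_lit 117) (nat_lit 576) .z) .df .leaf) (nat_lit 66566) (nat_lit 305) (.p (nat_lit 144) (nat_lit 1432) (.n (nat_lit 145) (nat_lit 1024) (.n (nat_lit 146) (nat_lit 1768) (.n (nat_lit 147) (nat_lit 2016) (.p (nat_lit 148) (nat_lit 80) (.n (nat_lit 149) (nat_lit 592) (.n (nat_lit 150) (nat_lit 2048) (.n (nat_lit 151) (nat_lit 200) (.n (nat_lit 152) (nat_lit 248) (.p (nat_lit 153) (nat_lit 1256) (.p (nat_lit 154) (nat_lit 168) (.p (nat_lit 155) (nat_lit 560) (.p (nat_lit 156) (nat_lit 416) (.n (nat_lit 158) (nat_lit 468) (.n (nat_lit 159) (nat_lit 1068) (.p (nat_lit 160) (nat_lit 268) (.p (nat_lit 161) (nat_lit 156) (.p (nat_lit 162) (nat_lit 384) (.p (nat_lit 163) (nat_lit 600) (.p (nat_lit 164) (nat_lit 952) (.p (nat_lit 165) (nat_lit 1272) (.p (nat_lit 166) (nat_lit 136) (.n (nat_lit 167) (nat_lit 616) (.n (nat_lit 168) (nat_lit 312) (.p (nat_lit 169) (nat_lit 672) (.n (nat_lit 170) (nat_lit 912) (.n (nat_lit 171) (nat_lit 672) (.n (nat_lit 172) (nat_lit 672) (.p (nat_lit 173) (nat_lit 576) (.n (nat_lit 174) (nat_lit 576) (.p (nat_lit 176) (nat_lit 456) (.p (nat_lit 177) (nat_lit 240) (.n (nat_lit 178) (nat_lit 48) (.p (nat_lit 179) (nat_lit 48) (.n (nat_lit 180) (nat_lit 240) .z))))))))))))))))))))))))))))))))))) (.ct dP8_c292 (nat_lit 1152) (nat_lit 7) (.s true (nat_lit 1) (nat_lit 7) (nat_lit 0) (nat_lit 4) (nat_lit 7) true (nat_lit 2) true (nat_lit 6) true (nat_lit 6) true (nat_lit 13) true (nat_lit 9) (.s true (nat_lit 1) (nat_lit 7) (nat_lit 0) (nat_lit 7) (nat_lit 4) true (nat_lit 5) true (nat_lit 9) true (nat_lit 6) true (nat_lit 13) true (nat_lit 6) (.s false (nat_lit 3) (nat_lit 7) (nat_lit 1) (nat_lit 3) (nat_lit 7) true (nat_lit 1) true (nat_lit 6) true (nat_lit 6) true (nat_lit 12) true (nat_lit 10) (.s true (nat_lit 4) (nat_lit 10) (nat_lit 2) (nat_lit 1) (nat_lit 7) true (nat_lit 0) true (nat_lit 6) true (nat_lit 4) true (nat_lit 11) true (nat_lit 12) (.s true (nat_lit 2) (nat_lit 10) (nat_lit 2) (nat_lit 2) (nat_lit 6) true (nat_lit 1) true (nat_lit 7) true (nat_lit 4) true (nat_lit 11) true (nat_lit 11) (.s false (nat_lit 2) (nat_lit 10) (nat_lit 2) (nat_lit 6) (nat_lit 2) true (nat_lit 6) true (nat_lit 11) true (nat_lit 4) true (nat_lit 11) true (nat_lit 7) (.s false (nat_lit 2) (nat_lit 10) (nat_lit 6) (nat_lit 2) (nat_lit 2) true (nat_lit 1) true (nat_lit 11) true (nat_lit 4) true (nat_lit 7) true (nat_lit 11) (.s false (nat_lit 2) (nat_lit 10) (nat_lit 7) (nat_lit 2) (nat_lit 1) true (nat_lit 1) true (nat_lit 12) true (nat_lit 4) true (nat_lit 6) true (nat_lit 11) (.s false (nat_lit 1) (nat_lit 13) (nat_lit 0) (nat_lit 2) (nat_lit 7) true (nat_lit 2) true (nat_lit 6) true (nat_lit 3) true (nat_lit 13) true (nat_lit 11) (.s true (nat_lit 1) (nat_lit 13) (nat_lit 2) (nat_lit 0) (nat_lit 7) true (nat_lit 0) true (nat_lit 6) true (nat_lit 3) true (nat_lit 11) true (nat_lit 13) (.s true (nat_lit 2) (nat_lit 13) (nat_lit 2) (nat_lit 2) (nat_lit 5) true (nat_lit 2) true (nat_lit 8) true (nat_lit 3) true (nat_lit 11) true (nat_lit 11) (.s true (nat_lit 1) (nat_lit 16) (nat_lit 1) (nat_lit 1) (nat_lit 7) true (nat_lit 1) true (nat_lit 6) true (nat_lit 2) true (nat_lit 12) true (nat_lit 12) (.s true (nat_lit 1) (nat_lit 16) (nat_lit 1) (nat_lit 7) (nat_lit 1) true (nat_lit 9) true (nat_lit 12) true (nat_lit 2) true (nat_lit 12) true (nat_lit 6) dP8_i25)))))))))))))) (.nd .leaf (nat_lit 66567) (nat_lit 437) (.p (nat_lit 189) (nat_lit 1152) .z) (.ct dP8_c277 (nat_lit 576) (nat_lit 4) (.s false (nat_lit 1) (nat_lit 7) (nat_lit 2) (nat_lit 7) (nat_lit 3) true (nat_lit 3) true (nat_lit 7) true (nat_lit 4) true (nat_lit 8) true (nat_lit 4) (.e false (nat_lit 1152) (nat_lit 117) (nat_lit 2) (nat_lit 8) .nil))) .leaf))) (nat_lit 67585) (nat_lit 167) (.p (nat_lit 82) (nat_lit 288) (.p (nat_lit 83) (nat_lit 2304) (.p (nat_lit 84) (nat_lit 4032) (.p (nat_lit 85) (nat_lit 288) (.n (nat_lit 86) (nat_lit 2304) (.n (nat_lit 87) (nat_lit 2016) (.p (nat_lit 88) (nat_lit 576) (.n (nat_lit 89) (nat_lit 2592) (.n (nat_lit 90) (nat_lit 288) (.n (nat_lit 91) (nat_lit 1728) (.p (nat_lit 92) (nat_lit 864) (.n (nat_lit 93) (nat_lit 576) (.n (nat_lit 94) (nat_lit 1152) (.n (nat_lit 95) (nat_lit 2016) (.p (nat_lit 96) (nat_lit 576) (.n (nat_lit 97) (nat_lit 3456) (.p (nat_lit 98) (nat_lit 3456) (.n (nat_lit 99) (nat_lit 864) (.p (nat_lit 100) (nat_lit 1152) (.p (nat_lit 101) (nat_lit 1728) (.p (nat_lit 103) (nat_lit 288) (.p (nat_lit 104) (nat_lit 2016) (.n (nat_lit 105) (nat_lit 1152) (.p (nat_lit 106) (nat_lit 1152) .z)))))))))))))))))))))))) (.ct dP8_c291 (nat_lit 576) (nat_lit 9) (.s true (nat_lit 1) (nat_lit 6) (nat_lit 1) (nat_lit 5) (nat_lit 2) true (nat_lit 4) true (nat_lit 8) true (nat_lit 4) true (nat_lit 9) true (nat_lit 5) (.e true (nat_lit 576) (nat_lit 26) (nat_lit 6) (nat_lit 4) (.e false (nat_lit 576) (nat_lit 30) (nat_lit 6) (nat_lit 4) (.e false (nat_lit 576) (nat_lit 31) (nat_lit 6) (nat_lit 4) (.e true (nat_lit 576) (nat_lit 43) (nat_lit 2) (nat_lit 8) (.e false (nat_lit 576) (nat_lit 44) (nat_lit 2) (nat_lit 8) (.e false (nat_lit 1152) (nat_lit 45) (nat_lit 2) (nat_lit 8) (.e false (nat_lit 576) (nat_lit 46) (nat_lit 2) (nat_lit 8) (.e false (nat_lit 576) (nat_lit 47) (nat_lit 2) (nat_lit 8) (.e true (nat_lit 576) (nat_lit 50) (nat_lit 2) (nat_lit 8) (.e true (nat_lit 576) (nat_lit 51) (nat_lit 2) (nat_lit 8) (.e false (nat_lit 576) (nat_lit 53) (nat_lit 2) (nat_lit 8) (.e true (nat_lit 576) (nat_lit 54) (nat_lit 2) (nat_lit 8) (.e true (nat_lit 576) (nat_lit 55) (nat_lit 2) (nat_lit 8) (.e false (nat_lit 576) (nat_lit 34) (nat_lit 5) (nat_lit 5) .nil)))))))))))))))) (.nd (.nd (.nd .leaf (nat_lit 67586) (nat_lit 211) (.n (nat_lit 108) (nat_lit 288) (.p (nat_lit 109) (nat_lit 288) (.p (nat_lit 112) (nat_lit 288) (.p (nat_lit 113) (nat_lit 288) (.p (nat_lit 114) (nat_lit 144) (.p (nat_lit 115) (nat_lit 144) (.p (nat_lit 116) (nat_lit 144) (.n (nat_lit 118) (nat_lit 144) (.n (nat_lit 119) (nat_lit 144) (.p (nat_lit 120) (nat_lit 144) (.p (nat_lit 121) (nat_lit 144) (.p (nat_lit 123) (nat_lit 144) .z)))))))))))) (.ct dP8_c276 (nat_lit 1152) (nat_lit 6) (.s false (nat_lit 1) (nat_lit 6) (nat_lit 5) (nat_lit 2) (nat_lit 2) true (nat_lit 0) true (nat_lit 6) true (nat_lit 3) true (nat_lit 4) true (nat_lit 6) (.s true (nat_lit 1) (nat_lit 15) (nat_lit 1) (nat_lit 2) (nat_lit 2) true (nat_lit 3) true (nat_lit 6) true (nat_lit 0) true (nat_lit 7) true (nat_lit 6) (.e true (nat_lit 576) (nat_lit 57) (nat_lit 2) (nat_lit 6) (.e true (nat_lit 576) (nat_lit 60) (nat_lit 2) (nat_lit 6) (.e true (nat_lit 576) (nat_lit 61) (nat_lit 2) (nat_lit 6) (.e false (nat_lit 576) (nat_lit 39) (nat_lit 5) (nat_lit 4) (.e true (nat_lit 576) (nat_lit 40) (nat_lit 5) (nat_lit 4) (.e false (nat_lit 576) (nat_lit 59) (nat_lit 2) (nat_lit 6) (.e false (nat_lit 1152) (nat_lit 62) (nat_lit 2) (nat_lit 6) (.e false (nat_lit 576) (nat_lit 63) (nat_lit 2) (nat_lit 6) (.e false (nat_lit 576) (nat_lit 74) (nat_lit 1) (nat_lit 7) (.e true (nat_lit 576) (nat_lit 76) (nat_lit 1) (nat_lit 7) (.e true (nat_lit 576) (nat_lit 58) (nat_lit 2) (nat_lit 6) (.e false (nat_lit 576) (nat_lit 65) (nat_lit 2) (nat_lit 6) .nil))))))))))))))) .leaf) (nat_lit 67590) (nat_lit 328) (.p (nat_lit 144) (nat_lit 1876) (.n (nat_lit 145) (nat_lit 1072) (.n (nat_lit 146) (nat_lit 1852) (.n (nat_lit 147) (nat_lit 2160) (.p (nat_lit 148) (nat_lit 104) (.n (nat_lit 149) (nat_lit 568) (.n (nat_lit 150) (nat_lit 1568) (.n (nat_lit 151) (nat_lit 332) (.n (nat_lit 152) (nat_lit 740) (.p (nat_lit 153) (nat_lit 812) (.p (nat_lit 154) (nat_lit 60) (.p (nat_lit 155) (nat_lit 8) (.p (nat_lit 156) (nat_lit 512) (.p (nat_lit 157) (nat_lit 288) (.n (nat_lit 158) (nat_lit 1062) (.n (nat_lit 159) (nat_lit 186) (.p (nat_lit 160) (nat_lit 154) (.p (nat_lit 161) (nat_lit 354) (.p (nat_lit 162) (nat_lit 1104) (.p (nat_lit 163) (nat_lit 852) (.p (nat_lit 164) (nat_lit 964) (.p (nat_lit 165) (nat_lit 228) (.n (nat_lit 166) (nat_lit 644) (.p (nat_lit 167) (nat_lit 308) (.p (nat_lit 168) (nat_lit 156) (.n (nat_lit 169) (nat_lit 336) (.p (nat_lit 170) (nat_lit 168) (.p (nat_lit 171) (nat_lit 48) (.p (nat_lit 172) (nat_lit 336) (.p (nat_lit 173) (nat_lit 288) (.p (nat_lit 176) (nat_lit 204) (.p (nat_lit 177) (nat_lit 168) (.n (nat_lit 178) (nat_lit 120) (.p (nat_lit 179) (nat_lit 120) (.n (nat_lit 180) (nat_lit 168) .z))))))))))))))))))))))))))))))))))) (.ct dP8_c292 (nat_lit 576) (nat_lit 7) (.s false (nat_lit 1) (nat_lit 10) (nat_lit 2) (nat_lit 2) (nat_lit 6) true (nat_lit 1) true (nat_lit 7) true (nat_lit 4) true (nat_lit 11) true (nat_lit 11) dP8_i64)) (.nd .leaf (nat_lit 67591) (nat_lit 416) (.p (nat_lit 181) (nat_lit 576) (.n (nat_lit 182) (nat_lit 576) (.n (nat_lit 183) (nat_lit 576) (.n (nat_lit 184) (nat_lit 576) (.n (nat_lit 185) (nat_lit 1152) (.p (nat_lit 186) (nat_lit 1152) (.p (nat_lit 187) (nat_lit 1152) (.n (nat_lit 188) (nat_lit 576) (.n (nat_lit 189) (nat_lit 288) (.n (nat_lit 190) (nat_lit 288) (.n (nat_lit 191) (nat_lit 288) (.n (nat_lit 192) (nat_lit 576) (.p (nat_lit 193) (nat_lit 864) (.p (nat_lit 194) (nat_lit 1728) .z)))))))))))))) (.ct dP8_c277 (nat_lit 2304) (nat_lit 4) (.s true (nat_lit 1) (nat_lit 7) (nat_lit 0) (nat_lit 6) (nat_lit 7) true (nat_lit 2) true (nat_lit 4) true (nat_lit 4) true (nat_lit 10) true (nat_lit 5) (.s true (nat_lit 1) (nat_lit 7) (nat_lit 1) (nat_lit 7) (nat_lit 5) true (nat_lit 3) true (nat_lit 6) true (nat_lit 4) true (nat_lit 9) true (nat_lit 4) (.s true (nat_lit 4) (nat_lit 7) (nat_lit 2) (nat_lit 5) (nat_lit 6) true (nat_lit 1) true (nat_lit 5) true (nat_lit 4) true (nat_lit 8) true (nat_lit 6) (.s false (nat_lit 1) (nat_lit 7) (nat_lit 2) (nat_lit 7) (nat_lit 3) true (nat_lit 3) true (nat_lit 7) true (nat_lit 4) true (nat_lit 8) true (nat_lit 4) dP8_i89))))) .leaf)) (nat_lit 68608) (nat_lit 136) (.p (nat_lit 96) (nat_lit 576) .z) .df (.nd (.nd .leaf (nat_lit 68610) (nat_lit 223) (.p (nat_lit 124) (nat_lit 576) .z) .df .leaf) (nat_lit 68613) (nat_lit 342) (.n (nat_lit 144) (nat_lit 7896) (.p (nat_lit 145) (nat_lit 24384) (.p (nat_lit 146) (nat_lit 23592) (.p (nat_lit 147) (nat_lit 14688) (.n (nat_lit 148) (nat_lit 21264) (.n (nat_lit 149) (nat_lit 7152) (.n (nat_lit 150) (nat_lit 7680) (.p (nat_lit 151) (nat_lit 5064) (.p (nat_lit 152) (nat_lit 3192) (.n (nat_lit 153) (nat_lit 23208) (.p (nat_lit 154) (nat_lit 4824) (.n (nat_lit 155) (nat_lit 16944) (.p (nat_lit 156) (nat_lit 1632) (.n (nat_lit 157) (nat_lit 8064) (.n (nat_lit 158) (nat_lit 13932) (.p (nat_lit 159) (nat_lit 21996) (.n (nat_lit 160) (nat_lit 10380) (.p (nat_lit 161) (nat_lit 4644) (.p (nat_lit 162) (nat_lit 1728) (.n (nat_lit 163) (nat_lit 2520) (.n (nat_lit 164) (nat_lit 984) (.p (nat_lit 165) (nat_lit 3528) (.p (nat_lit 166) (nat_lit 10104) (.n (nat_lit 167) (nat_lit 8088) (.n (nat_lit 168) (nat_lit 5832) (.p (nat_lit 169) (nat_lit 2016) (.n (nat_lit 170) (nat_lit 432) (.n (nat_lit 171) (nat_lit 2592) (.n (nat_lit 172) (nat_lit 2016) (.p (nat_lit 175) (nat_lit 576) (.p (nat_lit 176) (nat_lit 792) (.n (nat_lit 177) (nat_lit 1008) (.p (nat_lit 178) (nat_lit 3600) (.n (nat_lit 179) (nat_lit 3600) (.p (nat_lit 180) (nat_lit 432) .z))))))))))))))))))))))))))))))))))) (.ct dP8_c292 (nat_lit 576) (nat_lit 8) (.s true (nat_lit 1) (nat_lit 19) (nat_lit 5) (nat_lit 1) (nat_lit 1) true (nat_lit 4) true (nat_lit 12) true (nat_lit 0) true (nat_lit 8) true (nat_lit 12) (.s false (nat_lit 1) (nat_lit 23) (nat_lit 2) (nat_lit 2) (nat_lit 2) true (nat_lit 6) true (nat_lit 11) false (nat_lit 0) true (nat_lit 11) true (nat_lit 11) dP8_i74))) .leaf)))) (nat_lit 68615) (nat_lit 465) (.p (nat_lit 200) (nat_lit 4032) (.n (nat_lit 201) (nat_lit 4032) (.n (nat_lit 202) (nat_lit 1728) (.p (nat_lit 204) (nat_lit 576) (.n (nat_lit 205) (nat_lit 4032) (.p (nat_lit 206) (nat_lit 8064) (.n (nat_lit 207) (nat_lit 8640) (.n (nat_lit 208) (nat_lit 4032) (.p (nat_lit 209) (nat_lit 576) .z))))))))) (.ct dP8_c37 (nat_lit 1152) (nat_lit 3) (.s true (nat_lit 2) (nat_lit 7) (nat_lit 4) (nat_lit 2) (nat_lit 7) false (nat_lit 0) true (nat_lit 3) true (nat_lit 3) true (nat_lit 5) true (nat_lit 6) (.s false (nat_lit 5) (nat_lit 14) (nat_lit 2) (nat_lit 2) (nat_lit 7) true (nat_lit 0) true (nat_lit 3) true (nat_lit 2) true (nat_lit 6) true (nat_lit 6) (.s true (nat_lit 1) (nat_lit 14) (nat_lit 2) (nat_lit 7) (nat_lit 2) true (nat_lit 3) true (nat_lit 6) true (nat_lit 2) true (nat_lit 6) true (nat_lit 3) (.s true (nat_lit 1) (nat_lit 14) (nat_lit 7) (nat_lit 2) (nat_lit 2) true (nat_lit 0) true (nat_lit 6) true (nat_lit 2) true (nat_lit 3) true (nat_lit 6) (.e true (nat_lit 2304) (nat_lit 34) (nat_lit 19) (nat_lit 0) (.e false (nat_lit 3456) (nat_lit 68) (nat_lit 7) (nat_lit 3) (.e false (nat_lit 1152) (nat_lit 69) (nat_lit 7) (nat_lit 3) (.e true (nat_lit 1152) (nat_lit 71) (nat_lit 7) (nat_lit 3) (.e true (nat_lit 4608) (nat_lit 132) (nat_lit 2) (nat_lit 6) .nil)))))))))) (.nd (.nd (.nd (.nd (.nd .leaf (nat_lit 69632) (nat_lit 137) (.p (nat_lit 97) (nat_lit 576) .z) .df .leaf) (nat_lit 69634) (nat_lit 224) (.p (nat_lit 125) (nat_lit 576) .z) .df (.nd .leaf (nat_lit 69637) (nat_lit 336) (.n (nat_lit 144) (nat_lit 2158) (.p (nat_lit 145) (nat_lit 1552) (.p (nat_lit 146) (nat_lit 2674) (.p (nat_lit 147) (nat_lit 1224) (.p (nat_lit 148) (nat_lit 844) (.n (nat_lit 149) (nat_lit 1148) (.p (nat_lit 150) (nat_lit 1664) (.p (nat_lit 151) (nat_lit 122) (.n (nat_lit 152) (nat_lit 154) (.p (nat_lit 153) (nat_lit 190) (.p (nat_lit 154) (nat_lit 174) (.p (nat_lit 155) (nat_lit 292) (.n (nat_lit 156) (nat_lit 824) (.p (nat_lit 157) (nat_lit 144) (.n (nat_lit 158) (nat_lit 1575) (.p (nat_lit 159) (nat_lit 2247) (.n (nat_lit 160) (nat_lit 319) (.p (nat_lit 161) (nat_lit 717) (.p (nat_lit 162) (nat_lit 624) (.n (nat_lit 163) (nat_lit 654) (.n (nat_lit 164) (nat_lit 454) (.n (nat_lit 165) (nat_lit 2118) (.n (nat_lit 166) (nat_lit 682) (.p (nat_lit 167) (nat_lit 514) (.p (nat_lit 168) (nat_lit 582) (.n (nat_lit 169) (nat_lit 744) (.p (nat_lit 170) (nat_lit 660) (.p (nat_lit 171) (nat_lit 1032) (.p (nat_lit 172) (nat_lit 744) (.n (nat_lit 175) (nat_lit 288) (.n (nat_lit 176) (nat_lit 330) (.p (nat_lit 177) (nat_lit 84) (.n (nat_lit 178) (nat_lit 276) (.p (nat_lit 179) (nat_lit 276) (.n (nat_lit 180) (nat_lit 660) .z))))))))))))))))))))))))))))))))))) (.ct dP8_c292 (nat_lit 576) (nat_lit 8) (.s true (nat_lit 1) (nat_lit 33) (nat_lit 0) (nat_lit 2) (nat_lit 2) true (nat_lit 8) true (nat_lit 11) false (nat_lit 2) true (nat_lit 13) true (nat_lit 11) (.s true (nat_lit 1) (nat_lit 33) (nat_lit 2) (nat_lit 0) (nat_lit 2) true (nat_lit 6) true (nat_lit 11) false (nat_lit 2) true (nat_lit 11) true (nat_lit 13) (.e true (nat_lit 1152) (nat_lit 88) (nat_lit 2) (nat_lit 11) (.e false (nat_lit 576) (nat_lit 132) (nat_lit 0) (nat_lit 13) (.e true (nat_lit 1152) (nat_lit 97) (nat_lit 2) (nat_lit 11) (.e false (nat_lit 576) (nat_lit 53) (nat_lit 7) (nat_lit 6) (.e true (nat_lit 576) (nat_lit 82) (nat_lit 2) (nat_lit 11) (.e false (nat_lit 576) (nat_lit 86) (nat_lit 2) (nat_lit 11) (.e false (nat_lit 576) (nat_lit 89) (nat_lit 2) (nat_lit 11) (.e false (nat_lit 576) (nat_lit 95) (nat_lit 2) (nat_lit 11) (.e true (nat_lit 576) (nat_lit 98) (nat_lit 2) (nat_lit 11) (.e true (nat_lit 576) (nat_lit 104) (nat_lit 2) (nat_lit 11) (.e false (nat_lit 576) (nat_lit 105) (nat_lit 2) (nat_lit 11) (.e true (nat_lit 576) (nat_lit 106) (nat_lit 2) (nat_lit 11) (.e true (nat_lit 576) (nat_lit 125) (nat_lit 0) (nat_lit 13) .nil)))))))))))))))) .leaf)) (nat_lit 69639) (nat_lit 449) (.p (nat_lit 209) (nat_lit 576) .z) .df (.nd (.nd .leaf (nat_lit 70656) (nat_lit 138) (.p (nat_lit 98) (nat_lit 576) .z) .df .leaf) (nat_lit 70658) (nat_lit 225) (.p (nat_lit 126) (nat_lit 576) .z) .df (.nd .leaf (nat_lit 70661) (nat_lit 321) (.n (nat_lit 144) (nat_lit 2608) (.p (nat_lit 145) (nat_lit 8464) (.p (nat_lit 146) (nat_lit 8704) (.p (nat_lit 147) (nat_lit 4608) (.n (nat_lit 148) (nat_lit 7184) (.n (nat_lit 149) (nat_lit 2912) (.n (nat_lit 150) (nat_lit 3232) (.p (nat_lit 151) (nat_lit 1472) (.p (nat_lit 152) (nat_lit 944) (.n (nat_lit 153) (nat_lit 8144) (.p (nat_lit 154) (nat_lit 1632) (.n (nat_lit 155) (nat_lit 6080) (.p (nat_lit 156) (nat_lit 400) (.n (nat_lit 157) (nat_lit 2592) (.n (nat_lit 158) (nat_lit 5688) (.p (nat_lit 159) (nat_lit 8088) (.n (nat_lit 160) (nat_lit 3784) (.p (nat_lit 161) (nat_lit 1896) (.p (nat_lit 162) (nat_lit 1200) (.n (nat_lit 163) (nat_lit 816) (.n (nat_lit 164) (nat_lit 112) (.p (nat_lit 165) (nat_lit 1104) (.p (nat_lit 166) (nat_lit 3728) (.n (nat_lit 167) (nat_lit 2960) (.n (nat_lit 168) (nat_lit 1776) (.p (nat_lit 169) (nat_lit 192) (.p (nat_lit 170) (nat_lit 192) (.n (nat_lit 171) (nat_lit 480) (.n (nat_lit 172) (nat_lit 192) (.p (nat_lit 175) (nat_lit 288) (.p (nat_lit 176) (nat_lit 192) (.n (nat_lit 177) (nat_lit 384) (.p (nat_lit 178) (nat_lit 1200) (.n (nat_lit 179) (nat_lit 1200) (.n (nat_lit 180) (nat_lit 192) .z))))))))))))))))))))))))))))))))))) (.ct dP8_c292 (nat_lit 2304) (nat_lit 8) (.s false (nat_lit 1) (nat_lit 7) (nat_lit 0) (nat_lit 4) (nat_lit 7) true (nat_lit 2) true (nat_lit 6) true (nat_lit 6) true (nat_lit 13) true (nat_lit 9) (.s false (nat_lit 2) (nat_lit 7) (nat_lit 0) (nat_lit 7) (nat_lit 4) true (nat_lit 5) true (nat_lit 9) true (nat_lit 6) true (nat_lit 13) true (nat_lit 6) (.s true (nat_lit 2) (nat_lit 13) (nat_lit 0) (nat_lit 2) (nat_lit 7) true (nat_lit 2) true (nat_lit 6) true (nat_lit 3) true (nat_lit 13) true (nat_lit 11) (.s false (nat_lit 2) (nat_lit 13) (nat_lit 2) (nat_lit 2) (nat_lit 5) true (nat_lit 2) true (nat_lit 8) true (nat_lit 3) true (nat_lit 11) true (nat_lit 11) (.s false (nat_lit 2) (nat_lit 16) (nat_lit 1) (nat_lit 7) (nat_lit 1) true (nat_lit 9) true (nat_lit 12) true (nat_lit 2) true (nat_lit 12) true (nat_lit 6) (.s true (nat_lit 2) (nat_lit 32) (nat_lit 0) (nat_lit 2) (nat_lit 2) true (nat_lit 8) true (nat_lit 11) false (nat_lit 2) true (nat_lit 13) true (nat_lit 11) (.s true (nat_lit 4) (nat_lit 34) (nat_lit 2) (nat_lit 2) (nat_lit 0) true (nat_lit 8) true (nat_lit 13) false (nat_lit 2) true (nat_lit 11) true (nat_lit 11) (.e false (nat_lit 2304) (nat_lit 43) (nat_lit 7) (nat_lit 6) (.e true (nat_lit 2304) (nat_lit 44) (nat_lit 7) (nat_lit 6) (.e true (nat_lit 2304) (nat_lit 45) (nat_lit 7) (nat_lit 6) (.e true (nat_lit 3456) (nat_lit 46) (nat_lit 7) (nat_lit 6) (.e true (nat_lit 3456) (nat_lit 53) (nat_lit 7) (nat_lit 6) (.e false (nat_lit 3456) (nat_lit 54) (nat_lit 7) (nat_lit 6) (.e true (nat_lit 2304) (nat_lit 126) (nat_lit 0) (nat_lit 13) (.e true (nat_lit 3456) (nat_lit 96) (nat_lit 2) (nat_lit 11) (.e true (nat_lit 6912) (nat_lit 97) (nat_lit 2) (nat_lit 11) (.e false (nat_lit 11520) (nat_lit 98) (nat_lit 2) (nat_lit 11) (.e false (nat_lit 2304) (nat_lit 100) (nat_lit 2) (nat_lit 11) dP8_i54))))))))))))))))))) .leaf))) (nat_lit 70663) (nat_lit 460) (.p (nat_lit 200) (nat_lit 2304) (.n (nat_lit 201) (nat_lit 2304) (.n (nat_lit 202) (nat_lit 1152) (.n (nat_lit 205) (nat_lit 2304) (.p (nat_lit 206) (nat_lit 3456) (.n (nat_lit 207) (nat_lit 3456) (.n (nat_lit 208) (nat_lit 1728) (.p (nat_lit 209) (nat_lit 576) .z)))))))) (.ct dP8_c37 (nat_lit 576) (nat_lit 3) (.s true (nat_lit 1) (nat_lit 34) (nat_lit 2) (nat_lit 2) (nat_lit 2) true (nat_lit 3) true (nat_lit 6) false (nat_lit 0) true (nat_lit 6) true (nat_lit 6) (.e false (nat_lit 576) (nat_lit 126) (nat_lit 2) (nat_lit 6) (.e false (nat_lit 576) (nat_lit 34) (nat_lit 19) (nat_lit 0) (.e false (nat_lit 576) (nat_lit 124) (nat_lit 2) (nat_lit 6) (.e true (nat_lit 1728) (nat_lit 125) (nat_lit 2) (nat_lit 6) (.e false (nat_lit 576) (nat_lit 128) (nat_lit 2) (nat_lit 6) (.e false (nat_lit 576) (nat_lit 129) (nat_lit 2) (nat_lit 6) (.e false (nat_lit 576) (nat_lit 132) (nat_lit 2) (nat_lit 6) .nil))))))))) (.nd (.nd (.nd .leaf (nat_lit 71680) (nat_lit 139) (.p (nat_lit 99) (nat_lit 576) .z) .df .leaf) (nat_lit 71682) (nat_lit 226) (.p (nat_lit 127) (nat_lit 576) .z) .df (.nd .leaf (nat_lit 71685) (nat_lit 331) (.p (nat_lit 144) (nat_lit 2028) (.p (nat_lit 145) (nat_lit 5568) (.p (nat_lit 146) (nat_lit 3084) (.p (nat_lit 147) (nat_lit 2736) (.n (nat_lit 148) (nat_lit 9048) (.p (nat_lit 149) (nat_lit 24) (.n (nat_lit 150) (nat_lit 5568) (.p (nat_lit 151) (nat_lit 1020) (.p (nat_lit 152) (nat_lit 1956) (.n (nat_lit 153) (nat_lit 8076) (.p (nat_lit 154) (nat_lit 180) (.n (nat_lit 155) (nat_lit 8040) (.p (nat_lit 156) (nat_lit 2832) (.n (nat_lit 157) (nat_lit 3168) (.n (nat_lit 158) (nat_lit 1674) (.p (nat_lit 159) (nat_lit 5130) (.n (nat_lit 160) (nat_lit 3066) (.p (nat_lit 161) (nat_lit 558) (.p (nat_lit 163) (nat_lit 684) (.p (nat_lit 164) (nat_lit 732) (.p (nat_lit 165) (nat_lit 4572) (.p (nat_lit 166) (nat_lit 3972) (.n (nat_lit 167) (nat_lit 2676) (.n (nat_lit 168) (nat_lit 2268) (.p (nat_lit 169) (nat_lit 1296) (.n (nat_lit 170) (nat_lit 1800) (.n (nat_lit 171) (nat_lit 2448) (.n (nat_lit 172) (nat_lit 1296) (.p (nat_lit 173) (nat_lit 576) (.p (nat_lit 175) (nat_lit 576) (.p (nat_lit 176) (nat_lit 612) (.n (nat_lit 177) (nat_lit 72) (.p (nat_lit 178) (nat_lit 2088) (.n (nat_lit 179) (nat_lit 2088) (.n (nat_lit 180) (nat_lit 504) .z))))))))))))))))))))))))))))))))))) (.ct dP8_c292 (nat_lit 576) (nat_lit 8) (.s false (nat_lit 1) (nat_lit 10) (nat_lit 2) (nat_lit 1) (nat_lit 7) true (nat_lit 0) true (nat_lit 6) true (nat_lit 4) true (nat_lit 11) true (nat_lit 12) (.s false (nat_lit 2) (nat_lit 10) (nat_lit 2) (nat_lit 2) (nat_lit 6) true (nat_lit 1) true (nat_lit 7) true (nat_lit 4) true (nat_lit 11) true (nat_lit 11) (.s true (nat_lit 1) (nat_lit 10) (nat_lit 2) (nat_lit 6) (nat_lit 2) true (nat_lit 6) true (nat_lit 11) true (nat_lit 4) true (nat_lit 11) true (nat_lit 7) (.s true (nat_lit 1) (nat_lit 10) (nat_lit 6) (nat_lit 2) (nat_lit 2) true (nat_lit 1) true (nat_lit 11) true (nat_lit 4) true (nat_lit 7) true (nat_lit 11) (.s false (nat_lit 1) (nat_lit 10) (nat_lit 7) (nat_lit 2) (nat_lit 1) true (nat_lit 1) true (nat_lit 12) true (nat_lit 4) true (nat_lit 6) true (nat_lit 11) (.s true (nat_lit 1) (nat_lit 22) (nat_lit 2) (nat_lit 2) (nat_lit 2) true (nat_lit 6) true (nat_lit 11) false (nat_lit 0) true (nat_lit 11) true (nat_lit 11) (.s true (nat_lit 1) (nat_lit 26) (nat_lit 2) (nat_lit 1) (nat_lit 2) true (nat_lit 6) true (nat_lit 11) false (nat_lit 1) true (nat_lit 11) true (nat_lit 12) (.s true (nat_lit 1) (nat_lit 26) (nat_lit 2) (nat_lit 2) (nat_lit 1) true (nat_lit 7) true (nat_lit 12) false (nat_lit 1) true (nat_lit 11) true (nat_lit 11) (.s true (nat_lit 1) (nat_lit 39) (nat_lit 0) (nat_lit 1) (nat_lit 2) true (nat_lit 8) true (nat_lit 11) false (nat_lit 4) true (nat_lit 13) true (nat_lit 12) (.e false (nat_lit 1536) (nat_lit 82) (nat_lit 2) (nat_lit 11) (.e false (nat_lit 384) (nat_lit 89) (nat_lit 2) (nat_lit 11) (.e true (nat_lit 768) (nat_lit 90) (nat_lit 2) (nat_lit 11) (.e true (nat_lit 2304) (nat_lit 104) (nat_lit 2) (nat_lit 11) (.e false (nat_lit 1920) (nat_lit 86) (nat_lit 2) (nat_lit 11) (.e false (nat_lit 1152) (nat_lit 95) (nat_lit 2) (nat_lit 11) (.e false (nat_lit 576) (nat_lit 65) (nat_lit 6) (nat_lit 7) (.e true (nat_lit 576) (nat_lit 43) (nat_lit 7) (nat_lit 6) (.e true (nat_lit 2688) (nat_lit 83) (nat_lit 2) (nat_lit 11) dP8_i67))))))))))))))))))) .leaf)) (nat_lit 71687) (nat_lit 458) (.n (nat_lit 202) (nat_lit 1152) (.p (nat_lit 203) (nat_lit 576) (.n (nat_lit 204) (nat_lit 1152) (.p (nat_lit 206) (nat_lit 1152) (.n (nat_lit 207) (nat_lit 576) (.p (nat_lit 209) (nat_lit 576) .z)))))) (.ct dP8_c37 (nat_lit 576) (nat_lit 3) (.s true (nat_lit 1) (nat_lit 39) (nat_lit 1) (nat_lit 2) (nat_lit 2) true (nat_lit 4) true (nat_lit 6) false (nat_lit 1) true (nat_lit 7) true (nat_lit 6) (.s true (nat_lit 1) (nat_lit 39) (nat_lit 2) (nat_lit 1) (nat_lit 2) true (nat_lit 3) true (nat_lit 6) false (nat_lit 1) true (nat_lit 6) true (nat_lit 7) (.e true (nat_lit 576) (nat_lit 78) (nat_lit 6) (nat_lit 4) (.e false (nat_lit 1152) (nat_lit 39) (nat_lit 17) (nat_lit 1) (.e false (nat_lit 576) (nat_lit 142) (nat_lit 1) (nat_lit 7) (.e false (nat_lit 576) (nat_lit 130) (nat_lit 2) (nat_lit 6) (.e true (nat_lit 576) (nat_lit 128) (nat_lit 2) (nat_lit 6) (.e true (nat_lit 576) (nat_lit 129) (nat_lit 2) (nat_lit 6) (.e true (nat_lit 576) (nat_lit 131) (nat_lit 2) (nat_lit 6) (.e false (nat_lit 576) (nat_lit 132) (nat_lit 2) (nat_lit 6) (.e false (nat_lit 576) (nat_lit 140) (nat_lit 1) (nat_lit 7) .nil)))))))))))) (.nd (.nd .leaf (nat_lit 72704) (nat_lit 140) (.p (nat_lit 100) (nat_lit 576) .z) .df .leaf) (nat_lit 72706) (nat_lit 227) (.p (nat_lit 128) (nat_lit 576) .z) .df .leaf))) (nat_lit 72709) (nat_lit 334) (.p (nat_lit 144) (nat_lit 6426) (.n (nat_lit 145) (nat_lit 17568) (.n (nat_lit 146) (nat_lit 17622) (.n (nat_lit 147) (nat_lit 11736) (.p (nat_lit 148) (nat_lit 15372) (.p (nat_lit 149) (nat_lit 5076) (.p (nat_lit 150) (nat_lit 3168) (.n (nat_lit 151) (nat_lit 2862) (.n (nat_lit 152) (nat_lit 2754) (.p (nat_lit 153) (nat_lit 17334) (.n (nat_lit 154) (nat_lit 3114) (.p (nat_lit 155) (nat_lit 11988) (.n (nat_lit 156) (nat_lit 1224) (.p (nat_lit 157) (nat_lit 6768) (.p (nat_lit 158) (nat_lit 8829) (.n (nat_lit 159) (nat_lit 16893) (.p (nat_lit 160) (nat_lit 7029) (.n (nat_lit 161) (nat_lit 2367) (.n (nat_lit 162) (nat_lit 288) (.p (nat_lit 163) (nat_lit 2682) (.p (nat_lit 164) (nat_lit 1314) (.n (nat_lit 165) (nat_lit 3294) (.n (nat_lit 166) (nat_lit 6642) (.p (nat_lit 167) (nat_lit 4842) (.p (nat_lit 168) (nat_lit 4158) (.n (nat_lit 169) (nat_lit 2952) (.p (nat_lit 170) (nat_lit 1476) (.p (nat_lit 171) (nat_lit 2952) (.p (nat_lit 172) (nat_lit 2952) (.n (nat_lit 176) (nat_lit 738) (.p (nat_lit 177) (nat_lit 900) (.n (nat_lit 178) (nat_lit 2196) (.p (nat_lit 179) (nat_lit 2196) (.n (nat_lit 180) (nat_lit 1476) .z)))))))))))))))))))))))))))))))))) (.ct dP8_c292 (nat_lit 576) (nat_lit 8) (.s false (nat_lit 1) (nat_lit 10) (nat_lit 2) (nat_lit 1) (nat_lit 7) true (nat_lit 0) true (nat_lit 6) true (nat_lit 4) true (nat_lit 11) true (nat_lit 12) (.s false (nat_lit 1) (nat_lit 10) (nat_lit 2) (nat_lit 2) (nat_lit 6) true (nat_lit 1) true (nat_lit 7) true (nat_lit 4) true (nat_lit 11) true (nat_lit 11) (.s false (nat_lit 1) (nat_lit 10) (nat_lit 7) (nat_lit 2) (nat_lit 1) true (nat_lit 1) true (nat_lit 12) true (nat_lit 4) true (nat_lit 6) true (nat_lit 11) (.s true (nat_lit 1) (nat_lit 22) (nat_lit 2) (nat_lit 2) (nat_lit 2) true (nat_lit 6) true (nat_lit 11) false (nat_lit 0) true (nat_lit 11) true (nat_lit 11) (.s true (nat_lit 1) (nat_lit 26) (nat_lit 2) (nat_lit 1) (nat_lit 2) true (nat_lit 6) true (nat_lit 11) false (nat_lit 1) true (nat_lit 11) true (nat_lit 12) (.s true (nat_lit 1) (nat_lit 26) (nat_lit 2) (nat_lit 2) (nat_lit 1) true (nat_lit 7) true (nat_lit 12) false (nat_lit 1) true (nat_lit 11) true (nat_lit 11) (.s true (nat_lit 1) (nat_lit 40) (nat_lit 0) (nat_lit 1) (nat_lit 2) true (nat_lit 8) true (nat_lit 11) false (nat_lit 4) true (nat_lit 13) true (nat_lit 12) (.e false (nat_lit 2784) (nat_lit 82) (nat_lit 2) (nat_lit 11) (.e true (nat_lit 96) (nat_lit 89) (nat_lit 2) (nat_lit 11) (.e true (nat_lit 672) (nat_lit 90) (nat_lit 2) (nat_lit 11) (.e false (nat_lit 1440) (nat_lit 104) (nat_lit 2) (nat_lit 11) (.e true (nat_lit 768) (nat_lit 86) (nat_lit 2) (nat_lit 11) (.e true (nat_lit 864) (nat_lit 95) (nat_lit 2) (nat_lit 11) (.e true (nat_lit 576) (nat_lit 55) (nat_lit 7) (nat_lit 6) dP8_i69))))))))))))))) (.nd (.nd (.nd (.nd .leaf (nat_lit 72711) (nat_lit 457) (.n (nat_lit 200) (nat_lit 1728) (.p (nat_lit 201) (nat_lit 1728) (.p (nat_lit 202) (nat_lit 576) (.n (nat_lit 204) (nat_lit 576) (.p (nat_lit 205) (nat_lit 576) (.n (nat_lit 206) (nat_lit 2304) (.p (nat_lit 207) (nat_lit 2880) (.p (nat_lit 208) (nat_lit 1152) (.p (nat_lit 209) (nat_lit 576) .z))))))))) (.ct dP8_c37 (nat_lit 576) (nat_lit 3) (.s false (nat_lit 1) (nat_lit 19) (nat_lit 2) (nat_lit 1) (nat_lit 6) true (nat_lit 1) true (nat_lit 4) true (nat_lit 0) true (nat_lit 6) true (nat_lit 7) (.s true (nat_lit 1) (nat_lit 40) (nat_lit 2) (nat_lit 1) (nat_lit 2) true (nat_lit 3) true (nat_lit 6) false (nat_lit 1) true (nat_lit 6) true (nat_lit 7) (.e false (nat_lit 576) (nat_lit 80) (nat_lit 6) (nat_lit 4) (.e true (nat_lit 576) (nat_lit 129) (nat_lit 2) (nat_lit 6) (.e true (nat_lit 576) (nat_lit 124) (nat_lit 2) (nat_lit 6) (.e false (nat_lit 576) (nat_lit 125) (nat_lit 2) (nat_lit 6) (.e true (nat_lit 576) (nat_lit 128) (nat_lit 2) (nat_lit 6) (.e true (nat_lit 576) (nat_lit 131) (nat_lit 2) (nat_lit 6) (.e false (nat_lit 576) (nat_lit 126) (nat_lit 2) (nat_lit 6) (.e false (nat_lit 576) (nat_lit 141) (nat_lit 1) (nat_lit 7) .nil))))))))))) .leaf) (nat_lit 73728) (nat_lit 141) (.p (nat_lit 101) (nat_lit 576) .z) .df (.nd .leaf (nat_lit 73730) (nat_lit 228) (.p (nat_lit 129) (nat_lit 576) .z) .df .leaf)) (nat_lit 73733) (nat_lit 340) (.p (nat_lit 144) (nat_lit 2620) (.n (nat_lit 145) (nat_lit 10816) (.n (nat_lit 146) (nat_lit 10084) (.n (nat_lit 147) (nat_lit 5328) (.p (nat_lit 148) (nat_lit 10376) (.p (nat_lit 149) (nat_lit 4088) (.p (nat_lit 150) (nat_lit 5440) (.n (nat_lit 151) (nat_lit 2036) (.n (nat_lit 152) (nat_lit 1580) (.p (nat_lit 153) (nat_lit 11300) (.n (nat_lit 154) (nat_lit 2460) (.p (nat_lit 155) (nat_lit 8120) (.n (nat_lit 156) (nat_lit 880) (.p (nat_lit 157) (nat_lit 3744) (.p (nat_lit 158) (nat_lit 7038) (.n (nat_lit 159) (nat_lit 8574) (.p (nat_lit 160) (nat_lit 4750) (.n (nat_lit 161) (nat_lit 2346) (.n (nat_lit 162) (nat_lit 768) (.p (nat_lit 163) (nat_lit 636) (.n (nat_lit 164) (nat_lit 308) (.n (nat_lit 165) (nat_lit 3732) (.n (nat_lit 166) (nat_lit 6092) (.p (nat_lit 167) (nat_lit 4892) (.p (nat_lit 168) (nat_lit 3540) (.n (nat_lit 169) (nat_lit 1200) (.p (nat_lit 170) (nat_lit 600) (.p (nat_lit 171) (nat_lit 1776) (.p (nat_lit 172) (nat_lit 1200) (.n (nat_lit 175) (nat_lit 576) (.n (nat_lit 176) (nat_lit 588) (.p (nat_lit 177) (nat_lit 600) (.n (nat_lit 178) (nat_lit 1560) (.p (nat_lit 179) (nat_lit 1560) (.n (nat_lit 180) (nat_lit 600) .z))))))))))))))))))))))))))))))))))) (.ct dP8_c292 (nat_lit 576) (nat_lit 8) (.s true (nat_lit 1) (nat_lit 14) (nat_lit 0) (nat_lit 7) (nat_lit 2) true (nat_lit 8) true (nat_lit 11) true (nat_lit 3) true (nat_lit 13) true (nat_lit 6) (.s true (nat_lit 1) (nat_lit 36) (nat_lit 1) (nat_lit 2) (nat_lit 1) true (nat_lit 9) true (nat_lit 12) false (nat_lit 3) true (nat_lit 12) true (nat_lit 11) (.e false (nat_lit 1536) (nat_lit 84) (nat_lit 2) (nat_lit 11) (.e false (nat_lit 1728) (nat_lit 85) (nat_lit 2) (nat_lit 11) (.e true (nat_lit 192) (nat_lit 87) (nat_lit 2) (nat_lit 11) (.e true (nat_lit 768) (nat_lit 91) (nat_lit 2) (nat_lit 11) (.e false (nat_lit 384) (nat_lit 94) (nat_lit 2) (nat_lit 11) (.e true (nat_lit 576) (nat_lit 97) (nat_lit 2) (nat_lit 11) (.e false (nat_lit 1728) (nat_lit 98) (nat_lit 2) (nat_lit 11) (.e true (nat_lit 384) (nat_lit 99) (nat_lit 2) (nat_lit 11) (.e true (nat_lit 576) (nat_lit 102) (nat_lit 2) (nat_lit 11) (.e true (nat_lit 384) (nat_lit 105) (nat_lit 2) (nat_lit 11) (.e false (nat_lit 384) (nat_lit 106) (nat_lit 2) (nat_lit 11) (.e true (nat_lit 576) (nat_lit 96) (nat_lit 2) (nat_lit 11) dP8_i73))))))))))))))) (.nd (.nd .leaf (nat_lit 73735) (nat_lit 468) (.p (nat_lit 205) (nat_lit 1152) .z) (.ct dP8_c37 (nat_lit 1152) (nat_lit 3) (.s true (nat_lit 1) (nat_lit 14) (nat_lit 2) (nat_lit 2) (nat_lit 7) true (nat_lit 0) true (nat_lit 3) true (nat_lit 2) true (nat_lit 6) true (nat_lit 6) (.s false (nat_lit 1) (nat_lit 14) (nat_lit 2) (nat_lit 7) (nat_lit 2) true (nat_lit 3) true (nat_lit 6) true (nat_lit 2) true (nat_lit 6) true (nat_lit 3) (.s false (nat_lit 1) (nat_lit 14) (nat_lit 7) (nat_lit 2) (nat_lit 2) true (nat_lit 0) true (nat_lit 6) true (nat_lit 2) true (nat_lit 3) true (nat_lit 6) (.e false (nat_lit 2304) (nat_lit 132) (nat_lit 2) (nat_lit 6) .nil))))) .leaf) (nat_lit 74753) (nat_lit 222) (.n (nat_lit 108) (nat_lit 2592) (.p (nat_lit 109) (nat_lit 2016) (.n (nat_lit 110) (nat_lit 576) (.p (nat_lit 111) (nat_lit 1152) (.p (nat_lit 112) (nat_lit 2016) (.p (nat_lit 113) (nat_lit 2016) (.n (nat_lit 114) (nat_lit 432) (.p (nat_lit 115) (nat_lit 144) (.p (nat_lit 116) (nat_lit 720) (.p (nat_lit 117) (nat_lit 576) (.n (nat_lit 118) (nat_lit 144) (.n (nat_lit 119) (nat_lit 720) (.p (nat_lit 120) (nat_lit 144) (.n (nat_lit 121) (nat_lit 432) (.n (nat_lit 122) (nat_lit 576) (.p (nat_lit 123) (nat_lit 144) .z)))))))))))))))) (.ct dP8_c276 (nat_lit 576) (nat_lit 7) (.s true (nat_lit 1) (nat_lit 15) (nat_lit 2) (nat_lit 2) (nat_lit 1) true (nat_lit 3) true (nat_lit 7) true (nat_lit 0) true (nat_lit 6) true (nat_lit 6) (.e true (nat_lit 576) (nat_lit 35) (nat_lit 6) (nat_lit 3) (.e true (nat_lit 576) (nat_lit 18) (nat_lit 15) (nat_lit 0) (.e false (nat_lit 576) (nat_lit 66) (nat_lit 2) (nat_lit 6) (.e false (nat_lit 576) (nat_lit 59) (nat_lit 2) (nat_lit 6) .nil)))))) .leaf)) (nat_lit 74756) (nat_lit 384) (.n (nat_lit 144) (nat_lit 2580) (.p (nat_lit 145) (nat_lit 10752) (.p (nat_lit 146) (nat_lit 8268) (.p (nat_lit 147) (nat_lit 5616) (.n (nat_lit 148) (nat_lit 11928) (.n (nat_lit 149) (nat_lit 5736) (.n (nat_lit 150) (nat_lit 3264) (.p (nat_lit 151) (nat_lit 1596) (.p (nat_lit 152) (nat_lit 3108) (.n (nat_lit 153) (nat_lit 11532) (.p (nat_lit 154) (nat_lit 1908) (.n (nat_lit 155) (nat_lit 9192) (.p (nat_lit 156) (nat_lit 2256) (.n (nat_lit 157) (nat_lit 6048) (.n (nat_lit 158) (nat_lit 5130) (.p (nat_lit 159) (nat_lit 8586) (.n (nat_lit 160) (nat_lit 3642) (.p (nat_lit 161) (nat_lit 1710) (.n (nat_lit 162) (nat_lit 576) (.n (nat_lit 163) (nat_lit 1620) (.p (nat_lit 164) (nat_lit 444) (.p (nat_lit 165) (nat_lit 8028) (.p (nat_lit 166) (nat_lit 7428) (.n (nat_lit 167) (nat_lit 4980) (.n (nat_lit 168) (nat_lit 5724) (.p (nat_lit 169) (nat_lit 2448) (.n (nat_lit 170) (nat_lit 1800) (.n (nat_lit 171) (nat_lit 3024) (.n (nat_lit 172) (nat_lit 2448) (.p (nat_lit 175) (nat_lit 576) (.p (nat_lit 176) (nat_lit 900) (.n (nat_lit 177) (nat_lit 1224) (.p (nat_lit 178) (nat_lit 72) (.n (nat_lit 179) (nat_lit 72) (.p (nat_lit 180) (nat_lit 1800) .z))))))))))))))))))))))))))))))))))) (.ct dP8_c292 (nat_lit 576) (nat_lit 9) (.s true (nat_lit 1) (nat_lit 15) (nat_lit 2) (nat_lit 2) (nat_lit 4) true (nat_lit 3) true (nat_lit 9) true (nat_lit 2) true (nat_lit 11) true (nat_lit 11) (.e false (nat_lit 576) (nat_lit 35) (nat_lit 13) (nat_lit 3) (.e true (nat_lit 1152) (nat_lit 33) (nat_lit 15) (nat_lit 2) (.e false (nat_lit 1152) (nat_lit 34) (nat_lit 15) (nat_lit 2) (.e true (nat_lit 576) (nat_lit 83) (nat_lit 2) (nat_lit 11) (.e true (nat_lit 2304) (nat_lit 84) (nat_lit 2) (nat_lit 11) (.e false (nat_lit 576) (nat_lit 86) (nat_lit 2) (nat_lit 11) (.e false (nat_lit 1152) (nat_lit 87) (nat_lit 2) (nat_lit 11) (.e false (nat_lit 1728) (nat_lit 89) (nat_lit 2) (nat_lit 11) (.e false (nat_lit 576) (nat_lit 91) (nat_lit 2) (nat_lit 11) (.e false (nat_lit 1152) (nat_lit 94) (nat_lit 2) (nat_lit 11) (.e false (nat_lit 1152) (nat_lit 95) (nat_lit 2) (nat_lit 11) (.e true (nat_lit 1152) (nat_lit 96) (nat_lit 2) (nat_lit 11) (.e false (nat_lit 288) (nat_lit 99) (nat_lit 2) (nat_lit 11) (.e true (nat_lit 1152) (nat_lit 104) (nat_lit 2) (nat_lit 11) (.e false (nat_lit 576) (nat_lit 105) (nat_lit 2) (nat_lit 11) (.e true (nat_lit 576) (nat_lit 106) (nat_lit 2) (nat_lit 11) (.e false (nat_lit 576) (nat_lit 85) (nat_lit 2) (nat_lit 11) (.e true (nat_lit 576) (nat_lit 92) (nat_lit 2) (nat_lit 11) (.e false (nat_lit 2592) (nat_lit 97) (nat_lit 2) (nat_lit 11) (.e true (nat_lit 1440) (nat_lit 98) (nat_lit 2) (nat_lit 11) (.e true (nat_lit 864) (nat_lit 100) (nat_lit 2) (nat_lit 11) (.e true (nat_lit 1152) (nat_lit 101) (nat_lit 2) (nat_lit 11) (.e false (nat_lit 576) (nat_lit 107) (nat_lit 2) (nat_lit 11) .nil))))))))))))))))))))))))) (.nd (.nd (.nd .leaf (nat_lit 75777) (nat_lit 194) (.p (nat_lit 118) (nat_lit 576) .z) .df .leaf) (nat_lit 75778) (nat_lit 242) (.p (nat_lit 135) (nat_lit 576) .z) .df (.nd .leaf (nat_lit 75780) (nat_lit 330) (.n (nat_lit 144) (nat_lit 1432) (.p (nat_lit 145) (nat_lit 19744) (.p (nat_lit 146) (nat_lit 17032) (.p (nat_lit 147) (nat_lit 8928) (.n (nat_lit 148) (nat_lit 22832) (.n (nat_lit 149) (nat_lit 8048) (.n (nat_lit 150) (nat_lit 11200) (.p (nat_lit 151) (nat_lit 3368) (.p (nat_lit 152) (nat_lit 3128) (.n (nat_lit 153) (nat_lit 23144) (.p (nat_lit 154) (nat_lit 3576) (.n (nat_lit 155) (nat_lit 18416) (.p (nat_lit 156) (nat_lit 4480) (.n (nat_lit 157) (nat_lit 8064) (.n (nat_lit 158) (nat_lit 13644) (.p (nat_lit 159) (nat_lit 18060) (.n (nat_lit 160) (nat_lit 9484) (.p (nat_lit 161) (nat_lit 4740) (.p (nat_lit 162) (nat_lit 2784) (.n (nat_lit 163) (nat_lit 600) (.p (nat_lit 164) (nat_lit 1928) (.p (nat_lit 165) (nat_lit 8520) (.p (nat_lit 166) (nat_lit 10808) (.n (nat_lit 167) (nat_lit 8024) (.n (nat_lit 168) (nat_lit 6600) (.p (nat_lit 169) (nat_lit 2784) (.n (nat_lit 170) (nat_lit 1392) (.n (nat_lit 171) (nat_lit 4512) (.n (nat_lit 172) (nat_lit 2784) (.p (nat_lit 175) (nat_lit 1152) (.p (nat_lit 176) (nat_lit 1560) (.n (nat_lit 177) (nat_lit 1392) (.p (nat_lit 178) (nat_lit 3216) (.n (nat_lit 179) (nat_lit 2640) (.p (nat_lit 180) (nat_lit 1392) .z))))))))))))))))))))))))))))))))))) (.ct dP8_c292 (nat_lit 576) (nat_lit 9) (.s false (nat_lit 1) (nat_lit 16) (nat_lit 1) (nat_lit 2) (nat_lit 6) true (nat_lit 3) true (nat_lit 7) true (nat_lit 2) true (nat_lit 12) true (nat_lit 11) (.s true (nat_lit 1) (nat_lit 30) (nat_lit 1) (nat_lit 2) (nat_lit 2) true (nat_lit 7) true (nat_lit 11) false (nat_lit 1) true (nat_lit 12) true (nat_lit 11) (.s false (nat_lit 1) (nat_lit 30) (nat_lit 2) (nat_lit 1) (nat_lit 2) true (nat_lit 6) true (nat_lit 11) false (nat_lit 1) true (nat_lit 11) true (nat_lit 12) (.s true (nat_lit 1) (nat_lit 36) (nat_lit 1) (nat_lit 2) (nat_lit 1) true (nat_lit 9) true (nat_lit 12) false (nat_lit 3) true (nat_lit 12) true (nat_lit 11) (.e true (nat_lit 2304) (nat_lit 108) (nat_lit 1) (nat_lit 12) (.e false (nat_lit 2304) (nat_lit 109) (nat_lit 1) (nat_lit 12) (.e false (nat_lit 1152) (nat_lit 112) (nat_lit 1) (nat_lit 12) (.e false (nat_lit 2304) (nat_lit 113) (nat_lit 1) (nat_lit 12) (.e true (nat_lit 1152) (nat_lit 114) (nat_lit 1) (nat_lit 12) (.e false (nat_lit 1152) (nat_lit 116) (nat_lit 1) (nat_lit 12) (.e false (nat_lit 576) (nat_lit 121) (nat_lit 1) (nat_lit 12) (.e false (nat_lit 1152) (nat_lit 90) (nat_lit 2) (nat_lit 11) dP8_i66))))))))))))) .leaf)) (nat_lit 75782) (nat_lit 418) (.n (nat_lit 181) (nat_lit 1728) (.p (nat_lit 182) (nat_lit 1728) (.p (nat_lit 184) (nat_lit 1152) (.p (nat_lit 185) (nat_lit 1728) (.n (nat_lit 186) (nat_lit 864) (.n (nat_lit 187) (nat_lit 1152) (.p (nat_lit 188) (nat_lit 864) (.p (nat_lit 189) (nat_lit 288) (.n (nat_lit 191) (nat_lit 576) (.p (nat_lit 192) (nat_lit 576) (.n (nat_lit 194) (nat_lit 576) (.p (nat_lit 195) (nat_lit 576) (.p (nat_lit 196) (nat_lit 1152) (.n (nat_lit 198) (nat_lit 576) .z)))))))))))))) (.ct dP8_c277 (nat_lit 2304) (nat_lit 5) (.s false (nat_lit 1) (nat_lit 7) (nat_lit 0) (nat_lit 6) (nat_lit 7) true (nat_lit 2) true (nat_lit 4) true (nat_lit 4) true (nat_lit 10) true (nat_lit 5) (.s false (nat_lit 1) (nat_lit 7) (nat_lit 1) (nat_lit 7) (nat_lit 5) true (nat_lit 3) true (nat_lit 6) true (nat_lit 4) true (nat_lit 9) true (nat_lit 4) (.s false (nat_lit 2) (nat_lit 7) (nat_lit 6) (nat_lit 0) (nat_lit 7) false (nat_lit 2) true (nat_lit 4) true (nat_lit 4) true (nat_lit 5) true (nat_lit 10) (.s true (nat_lit 1) (nat_lit 16) (nat_lit 2) (nat_lit 1) (nat_lit 7) true (nat_lit 0) true (nat_lit 4) true (nat_lit 2) true (nat_lit 8) true (nat_lit 9) (.s false (nat_lit 1) (nat_lit 18) (nat_lit 2) (nat_lit 7) (nat_lit 0) true (nat_lit 6) true (nat_lit 10) true (nat_lit 1) true (nat_lit 8) true (nat_lit 4) (.s false (nat_lit 1) (nat_lit 19) (nat_lit 7) (nat_lit 0) (nat_lit 1) true (nat_lit 1) true (nat_lit 9) true (nat_lit 0) true (nat_lit 4) true (nat_lit 10) (.e false (nat_lit 1152) (nat_lit 60) (nat_lit 7) (nat_lit 4) (.e false (nat_lit 1152) (nat_lit 63) (nat_lit 7) (nat_lit 4) (.e false (nat_lit 2304) (nat_lit 135) (nat_lit 1) (nat_lit 9) (.e false (nat_lit 2304) (nat_lit 136) (nat_lit 1) (nat_lit 9) (.e true (nat_lit 2304) (nat_lit 75) (nat_lit 6) (nat_lit 5) (.e true (nat_lit 2304) (nat_lit 117) (nat_lit 2) (nat_lit 8) (.e true (nat_lit 2304) (nat_lit 119) (nat_lit 2) (nat_lit 8) (.e false (nat_lit 2304) (nat_lit 120) (nat_lit 2) (nat_lit 8) (.e false (nat_lit 1152) (nat_lit 121) (nat_lit 2) (nat_lit 8) .nil)))))))))))))))) (.nd (.nd .leaf (nat_lit 76801) (nat_lit 201) (.n (nat_lit 108) (nat_lit 1152) (.p (nat_lit 109) (nat_lit 1152) (.p (nat_lit 112) (nat_lit 1152) (.p (nat_lit 113) (nat_lit 1152) (.n (nat_lit 114) (nat_lit 576) (.p (nat_lit 116) (nat_lit 576) (.n (nat_lit 118) (nat_lit 576) (.n (nat_lit 119) (nat_lit 576) (.p (nat_lit 120) (nat_lit 576) .z))))))))) (.ct dP8_c276 (nat_lit 1152) (nat_lit 7) (.s true (nat_lit 1) (nat_lit 7) (nat_lit 0) (nat_lit 7) (nat_lit 1) true (nat_lit 5) true (nat_lit 7) true (nat_lit 2) true (nat_lit 8) true (nat_lit 2) (.s true (nat_lit 2) (nat_lit 7) (nat_lit 1) (nat_lit 5) (nat_lit 2) true (nat_lit 3) true (nat_lit 6) true (nat_lit 2) true (nat_lit 7) true (nat_lit 4) (.s false (nat_lit 1) (nat_lit 7) (nat_lit 2) (nat_lit 2) (nat_lit 3) true (nat_lit 1) true (nat_lit 5) true (nat_lit 2) true (nat_lit 6) true (nat_lit 6) (.s false (nat_lit 2) (nat_lit 7) (nat_lit 3) (nat_lit 2) (nat_lit 2) true (nat_lit 1) true (nat_lit 6) true (nat_lit 2) true (nat_lit 5) true (nat_lit 6) (.s false (nat_lit 2) (nat_lit 7) (nat_lit 6) (nat_lit 0) (nat_lit 2) false (nat_lit 0) true (nat_lit 6) true (nat_lit 2) true (nat_lit 3) true (nat_lit 8) (.s true (nat_lit 2) (nat_lit 16) (nat_lit 2) (nat_lit 1) (nat_lit 2) true (nat_lit 2) true (nat_lit 6) true (nat_lit 0) true (nat_lit 6) true (nat_lit 7) (.s true (nat_lit 3) (nat_lit 19) (nat_lit 0) (nat_lit 1) (nat_lit 2) true (nat_lit 4) true (nat_lit 6) false (nat_lit 1) true (nat_lit 8) true (nat_lit 7) (.s true (nat_lit 1) (nat_lit 19) (nat_lit 1) (nat_lit 2) (nat_lit 0) true (nat_lit 5) true (nat_lit 8) false (nat_lit 1) true (nat_lit 7) true (nat_lit 6) (.s false (nat_lit 1) (nat_lit 19) (nat_lit 2) (nat_lit 1) (nat_lit 0) true (nat_lit 4) true (nat_lit 8) false (nat_lit 1) true (nat_lit 6) true (nat_lit 7) (.e true (nat_lit 1152) (nat_lit 74) (nat_lit 1) (nat_lit 7) (.e true (nat_lit 1152) (nat_lit 78) (nat_lit 0) (nat_lit 8) (.e false (nat_lit 1152) (nat_lit 79) (nat_lit 0) (nat_lit 8) (.e false (nat_lit 2304) (nat_lit 57) (nat_lit 2) (nat_lit 6) (.e false (nat_lit 2304) (nat_lit 60) (nat_lit 2) (nat_lit 6) (.e false (nat_lit 2304) (nat_lit 61) (nat_lit 2) (nat_lit 6) (.e true (nat_lit 1152) (nat_lit 62) (nat_lit 2) (nat_lit 6) (.e true (nat_lit 2304) (nat_lit 56) (nat_lit 2) (nat_lit 6) (.e false (nat_lit 1152) (nat_lit 64) (nat_lit 2) (nat_lit 6) .nil))))))))))))))))))) .leaf) (nat_lit 76802) (nat_lit 243) (.p (nat_lit 136) (nat_lit 576) .z) .df .leaf))))))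

noncomputable def dP8_t4 : Tr := (.nd (.nd (.nd (.nd (.nd (.nd (.nd .leaf (nat_lit 76806) (nat_lit 407) (.p (nat_lit 181) (nat_lit 288) (.n (nat_lit 182) (nat_lit 288) (.n (nat_lit 185) (nat_lit 288) (.p (nat_lit 186) (nat_lit 144) (.p (nat_lit 187) (nat_lit 576) (.n (nat_lit 188) (nat_lit 144) (.n (nat_lit 189) (nat_lit 432) (.n (nat_lit 190) (nat_lit 288) (.n (nat_lit 191) (nat_lit 288) (.p (nat_lit 192) (nat_lit 288) (.p (nat_lit 193) (nat_lit 288) (.p (nat_lit 194) (nat_lit 288) (.n (nat_lit 196) (nat_lit 576) (.p (nat_lit 198) (nat_lit 576) .z)))))))))))))) (.ct dP8_c277 (nat_lit 1152) (nat_lit 5) (.s true (nat_lit 1) (nat_lit 7) (nat_lit 0) (nat_lit 6) (nat_lit 7) true (nat_lit 2) true (nat_lit 4) true (nat_lit 4) true (nat_lit 10) true (nat_lit 5) (.s true (nat_lit 1) (nat_lit 7) (nat_lit 1) (nat_lit 7) (nat_lit 5) true (nat_lit 3) true (nat_lit 6) true (nat_lit 4) true (nat_lit 9) true (nat_lit 4) (.s true (nat_lit 3) (nat_lit 16) (nat_lit 2) (nat_lit 1) (nat_lit 7) true (nat_lit 0) true (nat_lit 4) true (nat_lit 2) true (nat_lit 8) true (nat_lit 9) (.s true (nat_lit 2) (nat_lit 16) (nat_lit 2) (nat_lit 2) (nat_lit 6) true (nat_lit 1) true (nat_lit 5) true (nat_lit 2) true (nat_lit 8) true (nat_lit 8) (.s true (nat_lit 1) (nat_lit 18) (nat_lit 2) (nat_lit 7) (nat_lit 0) true (nat_lit 6) true (nat_lit 10) true (nat_lit 1) true (nat_lit 8) true (nat_lit 4) (.s true (nat_lit 2) (nat_lit 19) (nat_lit 0) (nat_lit 7) (nat_lit 1) true (nat_lit 7) true (nat_lit 9) true (nat_lit 0) true (nat_lit 10) true (nat_lit 4) (.s false (nat_lit 1) (nat_lit 19) (nat_lit 7) (nat_lit 0) (nat_lit 1) true (nat_lit 1) true (nat_lit 9) true (nat_lit 0) true (nat_lit 4) true (nat_lit 10) (.s false (nat_lit 2) (nat_lit 36) (nat_lit 1) (nat_lit 2) (nat_lit 2) true (nat_lit 5) true (nat_lit 8) false (nat_lit 1) true (nat_lit 9) true (nat_lit 8) (.s true (nat_lit 2) (nat_lit 37) (nat_lit 2) (nat_lit 2) (nat_lit 1) true (nat_lit 5) true (nat_lit 9) false (nat_lit 1) true (nat_lit 8) true (nat_lit 8) (.e true (nat_lit 1152) (nat_lit 62) (nat_lit 7) (nat_lit 4) (.e true (nat_lit 1152) (nat_lit 136) (nat_lit 1) (nat_lit 9) (.e true (nat_lit 2304) (nat_lit 117) (nat_lit 2) (nat_lit 8) (.e true (nat_lit 2304) (nat_lit 119) (nat_lit 2) (nat_lit 8) (.e false (nat_lit 2304) (nat_lit 120) (nat_lit 2) (nat_lit 8) (.e false (nat_lit 2304) (nat_lit 121) (nat_lit 2) (nat_lit 8) (.e false (nat_lit 2304) (nat_lit 114) (nat_lit 2) (nat_lit 8) (.e true (nat_lit 2304) (nat_lit 118) (nat_lit 2) (nat_lit 8) (.e false (nat_lit 1152) (nat_lit 123) (nat_lit 2) (nat_lit 8) (.e false (nat_lit 1152) (nat_lit 115) (nat_lit 2) (nat_lit 8) .nil)))))))))))))))))))) .leaf) (nat_lit 77825) (nat_lit 202) (.p (nat_lit 108) (nat_lit 576) (.p (nat_lit 109) (nat_lit 576) (.n (nat_lit 110) (nat_lit 1152) (.n (nat_lit 111) (nat_lit 1152) (.n (nat_lit 112) (nat_lit 1152) (.n (nat_lit 113) (nat_lit 1728) (.p (nat_lit 114) (nat_lit 288) (.n (nat_lit 115) (nat_lit 864) (.n (nat_lit 116) (nat_lit 288) (.p (nat_lit 117) (nat_lit 1152) (.p (nat_lit 118) (nat_lit 288) (.p (nat_lit 119) (nat_lit 288) (.n (nat_lit 120) (nat_lit 288) (.p (nat_lit 121) (nat_lit 288) (.p (nat_lit 123) (nat_lit 288) .z))))))))))))))) (.ct dP8_c276 (nat_lit 1152) (nat_lit 7) (.s false (nat_lit 1) (nat_lit 7) (nat_lit 1) (nat_lit 5) (nat_lit 2) true (nat_lit 3) true (nat_lit 6) true (nat_lit 2) true (nat_lit 7) true (nat_lit 4) (.s true (nat_lit 1) (nat_lit 11) (nat_lit 2) (nat_lit 2) (nat_lit 2) true (nat_lit 2) true (nat_lit 6) true (nat_lit 1) true (nat_lit 6) true (nat_lit 6) (.s false (nat_lit 1) (nat_lit 16) (nat_lit 1) (nat_lit 2) (nat_lit 2) true (nat_lit 3) true (nat_lit 6) true (nat_lit 0) true (nat_lit 7) true (nat_lit 6) (.s true (nat_lit 1) (nat_lit 16) (nat_lit 2) (nat_lit 1) (nat_lit 2) true (nat_lit 2) true (nat_lit 6) true (nat_lit 0) true (nat_lit 6) true (nat_lit 7) (.s true (nat_lit 1) (nat_lit 19) (nat_lit 2) (nat_lit 0) (nat_lit 1) true (nat_lit 3) true (nat_lit 7) false (nat_lit 1) true (nat_lit 6) true (nat_lit 8) (.e false (nat_lit 2880) (nat_lit 57) (nat_lit 2) (nat_lit 6) (.e true (nat_lit 1728) (nat_lit 58) (nat_lit 2) (nat_lit 6) (.e true (nat_lit 576) (nat_lit 59) (nat_lit 2) (nat_lit 6) (.e false (nat_lit 1152) (nat_lit 60) (nat_lit 2) (nat_lit 6) (.e false (nat_lit 576) (nat_lit 61) (nat_lit 2) (nat_lit 6) (.e true (nat_lit 576) (nat_lit 62) (nat_lit 2) (nat_lit 6) (.e false (nat_lit 2304) (nat_lit 65) (nat_lit 2) (nat_lit 6) (.e true (nat_lit 576) (nat_lit 40) (nat_lit 5) (nat_lit 4) (.e true (nat_lit 2304) (nat_lit 56) (nat_lit 2) (nat_lit 6) (.e true (nat_lit 576) (nat_lit 63) (nat_lit 2) (nat_lit 6) (.e true (nat_lit 1152) (nat_lit 75) (nat_lit 1) (nat_lit 7) (.e true (nat_lit 576) (nat_lit 30) (nat_lit 7) (nat_lit 2) (.e false (nat_lit 576) (nat_lit 64) (nat_lit 2) (nat_lit 6) (.e true (nat_lit 576) (nat_lit 79) (nat_lit 0) (nat_lit 8) .nil)))))))))))))))))))) (.nd .leaf (nat_lit 77826) (nat_lit 247) (.n (nat_lit 136) (nat_lit 576) .z) (.ct dP8_c261 (nat_lit 2304) (nat_lit 3) (.s false (nat_lit 1) (nat_lit 7) (nat_lit 0) (nat_lit 2) (nat_lit 7) true (nat_lit 0) true (nat_lit 1) true (nat_lit 1) true (nat_lit 4) true (nat_lit 3) (.s true (nat_lit 1) (nat_lit 19) (nat_lit 0) (nat_lit 2) (nat_lit 2) true (nat_lit 2) true (nat_lit 3) false (nat_lit 0) true (nat_lit 4) true (nat_lit 3) (.s true (nat_lit 1) (nat_lit 19) (nat_lit 2) (nat_lit 0) (nat_lit 2) true (nat_lit 1) true (nat_lit 3) false (nat_lit 0) true (nat_lit 3) true (nat_lit 4) (.s false (nat_lit 1) (nat_lit 19) (nat_lit 2) (nat_lit 2) (nat_lit 0) true (nat_lit 2) true (nat_lit 4) false (nat_lit 0) true (nat_lit 3) true (nat_lit 3) (.e true (nat_lit 2304) (nat_lit 75) (nat_lit 2) (nat_lit 3) .nil)))))) .leaf)) (nat_lit 77828) (nat_lit 344) (.n (nat_lit 144) (nat_lit 5416) (.p (nat_lit 145) (nat_lit 14368) (.p (nat_lit 146) (nat_lit 14968) (.p (nat_lit 147) (nat_lit 7200) (.n (nat_lit 148) (nat_lit 11792) (.n (nat_lit 149) (nat_lit 7952) (.n (nat_lit 150) (nat_lit 3520) (.p (nat_lit 151) (nat_lit 2264) (.p (nat_lit 152) (nat_lit 2312) (.n (nat_lit 153) (nat_lit 13400) (.p (nat_lit 154) (nat_lit 2568) (.n (nat_lit 155) (nat_lit 10256) (.p (nat_lit 156) (nat_lit 832) (.n (nat_lit 157) (nat_lit 5184) (.n (nat_lit 158) (nat_lit 10836) (.p (nat_lit 159) (nat_lit 14100) (.n (nat_lit 160) (nat_lit 5908) (.p (nat_lit 161) (nat_lit 3804) (.p (nat_lit 162) (nat_lit 2208) (.n (nat_lit 163) (nat_lit 1896) (.p (nat_lit 164) (nat_lit 248) (.p (nat_lit 165) (nat_lit 2040) (.p (nat_lit 166) (nat_lit 5384) (.n (nat_lit 167) (nat_lit 4328) (.n (nat_lit 168) (nat_lit 3576) (.p (nat_lit 169) (nat_lit 1056) (.n (nat_lit 170) (nat_lit 528) (.n (nat_lit 171) (nat_lit 1632) (.n (nat_lit 172) (nat_lit 1056) (.p (nat_lit 176) (nat_lit 552) (.n (nat_lit 177) (nat_lit 528) (.p (nat_lit 178) (nat_lit 624) (.n (nat_lit 179) (nat_lit 48) (.p (nat_lit 180) (nat_lit 528) .z)))))))))))))))))))))))))))))))))) (.ct dP8_c292 (nat_lit 576) (nat_lit 9) (.s false (nat_lit 1) (nat_lit 13) (nat_lit 5) (nat_lit 2) (nat_lit 2) true (nat_lit 2) true (nat_lit 11) true (nat_lit 3) true (nat_lit 8) true (nat_lit 11) (.s true (nat_lit 1) (nat_lit 15) (nat_lit 4) (nat_lit 2) (nat_lit 2) true (nat_lit 3) true (nat_lit 11) true (nat_lit 2) true (nat_lit 9) true (nat_lit 11) (.e true (nat_lit 1728) (nat_lit 82) (nat_lit 2) (nat_lit 11) (.e false (nat_lit 4032) (nat_lit 83) (nat_lit 2) (nat_lit 11) dP8_i76))))) (.nd (.nd .leaf (nat_lit 77830) (nat_lit 405) (.n (nat_lit 181) (nat_lit 576) (.p (nat_lit 182) (nat_lit 576) (.n (nat_lit 183) (nat_lit 1152) (.n (nat_lit 185) (nat_lit 576) (.p (nat_lit 186) (nat_lit 288) (.p (nat_lit 187) (nat_lit 288) (.n (nat_lit 188) (nat_lit 288) (.p (nat_lit 189) (nat_lit 576) (.n (nat_lit 190) (nat_lit 288) (.n (nat_lit 191) (nat_lit 288) (.n (nat_lit 192) (nat_lit 1440) (.p (nat_lit 193) (nat_lit 288) (.p (nat_lit 194) (nat_lit 1440) (.p (nat_lit 196) (nat_lit 576) (.n (nat_lit 198) (nat_lit 576) .z))))))))))))))) (.ct dP8_c277 (nat_lit 2304) (nat_lit 5) (.s true (nat_lit 1) (nat_lit 7) (nat_lit 0) (nat_lit 6) (nat_lit 7) true (nat_lit 2) true (nat_lit 4) true (nat_lit 4) true (nat_lit 10) true (nat_lit 5) (.s false (nat_lit 2) (nat_lit 7) (nat_lit 1) (nat_lit 5) (nat_lit 7) true (nat_lit 1) true (nat_lit 4) true (nat_lit 4) true (nat_lit 9) true (nat_lit 6) (.s false (nat_lit 1) (nat_lit 7) (nat_lit 1) (nat_lit 7) (nat_lit 5) true (nat_lit 3) true (nat_lit 6) true (nat_lit 4) true (nat_lit 9) true (nat_lit 4) (.s true (nat_lit 6) (nat_lit 7) (nat_lit 2) (nat_lit 7) (nat_lit 3) true (nat_lit 3) true (nat_lit 7) true (nat_lit 4) true (nat_lit 8) true (nat_lit 4) (.s false (nat_lit 4) (nat_lit 12) (nat_lit 2) (nat_lit 7) (nat_lit 2) true (nat_lit 4) true (nat_lit 8) true (nat_lit 3) true (nat_lit 8) true (nat_lit 4) (.s false (nat_lit 8) (nat_lit 10) (nat_lit 7) (nat_lit 2) (nat_lit 2) true (nat_lit 0) true (nat_lit 8) true (nat_lit 3) true (nat_lit 4) true (nat_lit 8) (.s false (nat_lit 1) (nat_lit 16) (nat_lit 2) (nat_lit 1) (nat_lit 7) true (nat_lit 0) true (nat_lit 4) true (nat_lit 2) true (nat_lit 8) true (nat_lit 9) (.s false (nat_lit 2) (nat_lit 16) (nat_lit 2) (nat_lit 2) (nat_lit 6) true (nat_lit 1) true (nat_lit 5) true (nat_lit 2) true (nat_lit 8) true (nat_lit 8) (.s true (nat_lit 2) (nat_lit 18) (nat_lit 2) (nat_lit 2) (nat_lit 5) true (nat_lit 2) true (nat_lit 6) true (nat_lit 1) true (nat_lit 8) true (nat_lit 8) dP8_i84)))))))))) .leaf) (nat_lit 78848) (nat_lit 220) (.n (nat_lit 108) (nat_lit 1440) (.n (nat_lit 109) (nat_lit 288) (.p (nat_lit 110) (nat_lit 576) (.p (nat_lit 111) (nat_lit 1728) (.p (nat_lit 112) (nat_lit 864) (.p (nat_lit 113) (nat_lit 2592) (.p (nat_lit 114) (nat_lit 144) (.p (nat_lit 115) (nat_lit 1296) (.p (nat_lit 116) (nat_lit 144) (.p (nat_lit 117) (nat_lit 576) (.p (nat_lit 118) (nat_lit 1584) (.p (nat_lit 119) (nat_lit 1008) (.n (nat_lit 120) (nat_lit 1008) (.n (nat_lit 121) (nat_lit 1584) (.n (nat_lit 122) (nat_lit 576) (.n (nat_lit 123) (nat_lit 1008) .z)))))))))))))))) (.ct dP8_c276 (nat_lit 576) (nat_lit 8) (.s true (nat_lit 1) (nat_lit 17) (nat_lit 2) (nat_lit 2) (nat_lit 0) true (nat_lit 4) true (nat_lit 8) false (nat_lit 0) true (nat_lit 6) true (nat_lit 6) (.e true (nat_lit 576) (nat_lit 38) (nat_lit 5) (nat_lit 4) (.e false (nat_lit 576) (nat_lit 17) (nat_lit 16) (nat_lit 0) (.e true (nat_lit 576) (nat_lit 57) (nat_lit 2) (nat_lit 6) (.e false (nat_lit 576) (nat_lit 59) (nat_lit 2) (nat_lit 6) (.e false (nat_lit 576) (nat_lit 62) (nat_lit 2) (nat_lit 6) (.e false (nat_lit 576) (nat_lit 63) (nat_lit 2) (nat_lit 6) (.e true (nat_lit 576) (nat_lit 66) (nat_lit 2) (nat_lit 6) (.e false (nat_lit 576) (nat_lit 61) (nat_lit 2) (nat_lit 6) .nil)))))))))) (.nd .leaf (nat_lit 78850) (nat_lit 251) (.p (nat_lit 139) (nat_lit 576) .z) .df .leaf))) (nat_lit 78851) (nat_lit 379) (.n (nat_lit 144) (nat_lit 934) (.p (nat_lit 145) (nat_lit 2560) (.p (nat_lit 146) (nat_lit 2890) (.p (nat_lit 147) (nat_lit 3240) (.n (nat_lit 148) (nat_lit 2900) (.p (nat_lit 149) (nat_lit 724) (.p (nat_lit 150) (nat_lit 1376) (.p (nat_lit 151) (nat_lit 626) (.p (nat_lit 152) (nat_lit 1214) (.n (nat_lit 153) (nat_lit 2186) (.n (nat_lit 154) (nat_lit 330) (.n (nat_lit 155) (nat_lit 2732) (.p (nat_lit 156) (nat_lit 472) (.n (nat_lit 157) (nat_lit 1296) (.p (nat_lit 158) (nat_lit 1053) (.p (nat_lit 159) (nat_lit 3363) (.n (nat_lit 160) (nat_lit 1291) (.p (nat_lit 161) (nat_lit 33) (.n (nat_lit 162) (nat_lit 960) (.n (nat_lit 163) (nat_lit 582) (.n (nat_lit 164) (nat_lit 958) (.n (nat_lit 165) (nat_lit 1758) (.n (nat_lit 166) (nat_lit 178) (.p (nat_lit 167) (nat_lit 298) (.p (nat_lit 168) (nat_lit 510) (.n (nat_lit 169) (nat_lit 456) (.p (nat_lit 170) (nat_lit 516) (.p (nat_lit 171) (nat_lit 456) (.p (nat_lit 172) (nat_lit 1032) (.p (nat_lit 176) (nat_lit 30) (.n (nat_lit 177) (nat_lit 60) (.p (nat_lit 178) (nat_lit 300) (.n (nat_lit 179) (nat_lit 300) (.n (nat_lit 180) (nat_lit 516) .z)))))))))))))))))))))))))))))))))) (.ct dP8_c292 (nat_lit 576) (nat_lit 10) (.s true (nat_lit 1) (nat_lit 38) (nat_lit 0) (nat_lit 2) (nat_lit 1) true (nat_lit 10) true (nat_lit 12) false (nat_lit 4) true (nat_lit 13) true (nat_lit 11) (.e true (nat_lit 864) (nat_lit 108) (nat_lit 1) (nat_lit 12) (.e false (nat_lit 1440) (nat_lit 109) (nat_lit 1) (nat_lit 12) (.e true (nat_lit 576) (nat_lit 110) (nat_lit 1) (nat_lit 12) (.e true (nat_lit 576) (nat_lit 111) (nat_lit 1) (nat_lit 12) (.e false (nat_lit 864) (nat_lit 113) (nat_lit 1) (nat_lit 12) (.e true (nat_lit 432) (nat_lit 114) (nat_lit 1) (nat_lit 12) (.e true (nat_lit 432) (nat_lit 115) (nat_lit 1) (nat_lit 12) (.e false (nat_lit 720) (nat_lit 116) (nat_lit 1) (nat_lit 12) (.e false (nat_lit 576) (nat_lit 117) (nat_lit 1) (nat_lit 12) (.e false (nat_lit 288) (nat_lit 112) (nat_lit 1) (nat_lit 12) (.e true (nat_lit 144) (nat_lit 118) (nat_lit 1) (nat_lit 12) (.e true (nat_lit 144) (nat_lit 119) (nat_lit 1) (nat_lit 12) (.e false (nat_lit 144) (nat_lit 120) (nat_lit 1) (nat_lit 12) (.e false (nat_lit 144) (nat_lit 121) (nat_lit 1) (nat_lit 12) (.e false (nat_lit 144) (nat_lit 123) (nat_lit 1) (nat_lit 12) (.e true (nat_lit 576) (nat_lit 38) (nat_lit 11) (nat_lit 4) (.e false (nat_lit 576) (nat_lit 133) (nat_lit 0) (nat_lit 13) (.e false (nat_lit 288) (nat_lit 97) (nat_lit 2) (nat_lit 11) (.e true (nat_lit 864) (nat_lit 98) (nat_lit 2) (nat_lit 11) (.e false (nat_lit 288) (nat_lit 99) (nat_lit 2) (nat_lit 11) (.e true (nat_lit 288) (nat_lit 100) (nat_lit 2) (nat_lit 11) (.e true (nat_lit 576) (nat_lit 101) (nat_lit 2) (nat_lit 11) .nil)))))))))))))))))))))))) (.nd (.nd (.nd .leaf (nat_lit 78854) (nat_lit 450) (.p (nat_lit 210) (nat_lit 576) .z) .df .leaf) (nat_lit 79872) (nat_lit 195) (.p (nat_lit 119) (nat_lit 576) .z) .df (.nd .leaf (nat_lit 79873) (nat_lit 229) (.p (nat_lit 130) (nat_lit 576) .z) .df .leaf)) (nat_lit 79874) (nat_lit 252) (.p (nat_lit 140) (nat_lit 576) .z) .df (.nd (.nd .leaf (nat_lit 79875) (nat_lit 358) (.p (nat_lit 144) (nat_lit 1900) (.n (nat_lit 145) (nat_lit 1312) (.n (nat_lit 146) (nat_lit 1876) (.n (nat_lit 147) (nat_lit 144) (.n (nat_lit 148) (nat_lit 568) (.p (nat_lit 149) (nat_lit 2648) (.n (nat_lit 150) (nat_lit 896) (.p (nat_lit 151) (nat_lit 988) (.p (nat_lit 152) (nat_lit 292) (.n (nat_lit 153) (nat_lit 1228) (.n (nat_lit 154) (nat_lit 876) (.n (nat_lit 155) (nat_lit 1960) (.p (nat_lit 156) (nat_lit 1136) (.p (nat_lit 157) (nat_lit 288) (.p (nat_lit 158) (nat_lit 2070) (.n (nat_lit 159) (nat_lit 726) (.n (nat_lit 160) (nat_lit 506) (.n (nat_lit 161) (nat_lit 690) (.n (nat_lit 162) (nat_lit 480) (.p (nat_lit 163) (nat_lit 492) (.n (nat_lit 164) (nat_lit 164) (.p (nat_lit 165) (nat_lit 732) (.p (nat_lit 166) (nat_lit 388) (.p (nat_lit 167) (nat_lit 140) (.p (nat_lit 168) (nat_lit 804) (.n (nat_lit 169) (nat_lit 1776) (.p (nat_lit 170) (nat_lit 1464) (.p (nat_lit 171) (nat_lit 1200) (.p (nat_lit 172) (nat_lit 1776) (.n (nat_lit 173) (nat_lit 576) (.p (nat_lit 174) (nat_lit 576) (.n (nat_lit 176) (nat_lit 444) (.n (nat_lit 177) (nat_lit 264) (.p (nat_lit 178) (nat_lit 1032) (.n (nat_lit 179) (nat_lit 1032) (.n (nat_lit 180) (nat_lit 312) .z)))))))))))))))))))))))))))))))))))) (.ct dP8_c292 (nat_lit 1152) (nat_lit 10) (.s true (nat_lit 1) (nat_lit 7) (nat_lit 1) (nat_lit 7) (nat_lit 3) true (nat_lit 5) true (nat_lit 10) true (nat_lit 6) true (nat_lit 12) true (nat_lit 6) (.e false (nat_lit 1152) (nat_lit 79) (nat_lit 3) (nat_lit 10) (.e false (nat_lit 1152) (nat_lit 47) (nat_lit 7) (nat_lit 6) (.e false (nat_lit 576) (nat_lit 55) (nat_lit 7) (nat_lit 6) (.e true (nat_lit 1152) (nat_lit 117) (nat_lit 1) (nat_lit 12) (.e true (nat_lit 576) (nat_lit 48) (nat_lit 7) (nat_lit 6) (.e false (nat_lit 576) (nat_lit 49) (nat_lit 7) (nat_lit 6) (.e true (nat_lit 576) (nat_lit 43) (nat_lit 7) (nat_lit 6) (.e true (nat_lit 576) (nat_lit 51) (nat_lit 7) (nat_lit 6) (.e false (nat_lit 576) (nat_lit 53) (nat_lit 7) (nat_lit 6) (.e true (nat_lit 576) (nat_lit 54) (nat_lit 7) (nat_lit 6) .nil)))))))))))) .leaf) (nat_lit 79877) (nat_lit 412) (.p (nat_lit 183) (nat_lit 1152) (.p (nat_lit 184) (nat_lit 576) (.p (nat_lit 185) (nat_lit 1152) (.n (nat_lit 187) (nat_lit 288) (.p (nat_lit 188) (nat_lit 1152) (.n (nat_lit 189) (nat_lit 864) (.n (nat_lit 190) (nat_lit 1440) (.n (nat_lit 191) (nat_lit 1440) (.p (nat_lit 192) (nat_lit 2592) (.p (nat_lit 193) (nat_lit 864) (.p (nat_lit 194) (nat_lit 288) (.n (nat_lit 195) (nat_lit 576) (.n (nat_lit 196) (nat_lit 1152) (.n (nat_lit 197) (nat_lit 576) .z)))))))))))))) (.ct dP8_c277 (nat_lit 2304) (nat_lit 6) (.s true (nat_lit 1) (nat_lit 7) (nat_lit 1) (nat_lit 7) (nat_lit 5) true (nat_lit 3) true (nat_lit 6) true (nat_lit 4) true (nat_lit 9) true (nat_lit 4) (.s false (nat_lit 1) (nat_lit 7) (nat_lit 2) (nat_lit 7) (nat_lit 3) true (nat_lit 3) true (nat_lit 7) true (nat_lit 4) true (nat_lit 8) true (nat_lit 4) (.s true (nat_lit 1) (nat_lit 16) (nat_lit 1) (nat_lit 2) (nat_lit 7) true (nat_lit 1) true (nat_lit 4) true (nat_lit 2) true (nat_lit 9) true (nat_lit 8) (.s true (nat_lit 1) (nat_lit 16) (nat_lit 2) (nat_lit 2) (nat_lit 6) true (nat_lit 1) true (nat_lit 5) true (nat_lit 2) true (nat_lit 8) true (nat_lit 8) (.s true (nat_lit 1) (nat_lit 18) (nat_lit 2) (nat_lit 2) (nat_lit 5) true (nat_lit 2) true (nat_lit 6) true (nat_lit 1) true (nat_lit 8) true (nat_lit 8) (.s false (nat_lit 1) (nat_lit 18) (nat_lit 2) (nat_lit 7) (nat_lit 0) true (nat_lit 6) true (nat_lit 10) true (nat_lit 1) true (nat_lit 8) true (nat_lit 4) (.s false (nat_lit 1) (nat_lit 36) (nat_lit 1) (nat_lit 2) (nat_lit 2) true (nat_lit 5) true (nat_lit 8) false (nat_lit 1) true (nat_lit 9) true (nat_lit 8) (.s false (nat_lit 1) (nat_lit 39) (nat_lit 0) (nat_lit 2) (nat_lit 2) true (nat_lit 6) true (nat_lit 8) false (nat_lit 2) true (nat_lit 10) true (nat_lit 8) (.e false (nat_lit 2304) (nat_lit 79) (nat_lit 5) (nat_lit 6) (.e true (nat_lit 1152) (nat_lit 57) (nat_lit 7) (nat_lit 4) (.e true (nat_lit 1728) (nat_lit 60) (nat_lit 7) (nat_lit 4) (.e true (nat_lit 1152) (nat_lit 61) (nat_lit 7) (nat_lit 4) (.e false (nat_lit 1152) (nat_lit 62) (nat_lit 7) (nat_lit 4) (.e true (nat_lit 2304) (nat_lit 135) (nat_lit 1) (nat_lit 9) (.e true (nat_lit 2304) (nat_lit 136) (nat_lit 1) (nat_lit 9) (.e false (nat_lit 576) (nat_lit 63) (nat_lit 7) (nat_lit 4) (.e false (nat_lit 1152) (nat_lit 114) (nat_lit 2) (nat_lit 8) (.e false (nat_lit 1152) (nat_lit 116) (nat_lit 2) (nat_lit 8) (.e true (nat_lit 1152) (nat_lit 119) (nat_lit 2) (nat_lit 8) (.e false (nat_lit 2304) (nat_lit 120) (nat_lit 2) (nat_lit 8) (.e true (nat_lit 1152) (nat_lit 118) (nat_lit 2) (nat_lit 8) (.e false (nat_lit 1728) (nat_lit 121) (nat_lit 2) (nat_lit 8) (.e false (nat_lit 1152) (nat_lit 56) (nat_lit 7) (nat_lit 4) .nil)))))))))))))))))))))))) .leaf))) (nat_lit 79878) (nat_lit 451) (.p (nat_lit 200) (nat_lit 576) (.n (nat_lit 201) (nat_lit 576) (.n (nat_lit 202) (nat_lit 576) (.p (nat_lit 203) (nat_lit 576) (.n (nat_lit 204) (nat_lit 576) (.n (nat_lit 205) (nat_lit 576) (.p (nat_lit 206) (nat_lit 576) (.n (nat_lit 207) (nat_lit 576) (.p (nat_lit 209) (nat_lit 576) .z))))))))) (.ct dP8_c37 (nat_lit 1152) (nat_lit 4) (.s false (nat_lit 1) (nat_lit 7) (nat_lit 6) (nat_lit 6) (nat_lit 2) true (nat_lit 1) true (nat_lit 6) true (nat_lit 3) true (nat_lit 4) true (nat_lit 4) (.s false (nat_lit 2) (nat_lit 14) (nat_lit 2) (nat_lit 2) (nat_lit 7) true (nat_lit 0) true (nat_lit 3) true (nat_lit 2) true (nat_lit 6) true (nat_lit 6) (.s true (nat_lit 1) (nat_lit 19) (nat_lit 1) (nat_lit 6) (nat_lit 2) true (nat_lit 4) true (nat_lit 6) true (nat_lit 0) true (nat_lit 7) true (nat_lit 4) (.s true (nat_lit 1) (nat_lit 19) (nat_lit 2) (nat_lit 1) (nat_lit 6) true (nat_lit 1) true (nat_lit 4) true (nat_lit 0) true (nat_lit 6) true (nat_lit 7) (.s false (nat_lit 1) (nat_lit 19) (nat_lit 6) (nat_lit 1) (nat_lit 2) true (nat_lit 1) true (nat_lit 6) true (nat_lit 0) true (nat_lit 4) true (nat_lit 7) (.s true (nat_lit 1) (nat_lit 39) (nat_lit 1) (nat_lit 2) (nat_lit 2) true (nat_lit 4) true (nat_lit 6) false (nat_lit 1) true (nat_lit 7) true (nat_lit 6) (.s false (nat_lit 1) (nat_lit 40) (nat_lit 1) (nat_lit 2) (nat_lit 2) true (nat_lit 4) true (nat_lit 6) false (nat_lit 1) true (nat_lit 7) true (nat_lit 6) (.e true (nat_lit 1152) (nat_lit 129) (nat_lit 2) (nat_lit 6) (.e false (nat_lit 1152) (nat_lit 130) (nat_lit 2) (nat_lit 6) (.e true (nat_lit 1152) (nat_lit 131) (nat_lit 2) (nat_lit 6) (.e false (nat_lit 1152) (nat_lit 125) (nat_lit 2) (nat_lit 6) (.e true (nat_lit 1152) (nat_lit 126) (nat_lit 2) (nat_lit 6) (.e false (nat_lit 1152) (nat_lit 68) (nat_lit 7) (nat_lit 3) (.e true (nat_lit 1152) (nat_lit 132) (nat_lit 2) (nat_lit 6) (.e false (nat_lit 1152) (nat_lit 140) (nat_lit 1) (nat_lit 7) (.e true (nat_lit 1152) (nat_lit 141) (nat_lit 1) (nat_lit 7) .nil))))))))))))))))) (.nd (.nd (.nd (.nd .leaf (nat_lit 80896) (nat_lit 196) (.p (nat_lit 120) (nat_lit 576) .z) .df .leaf) (nat_lit 80897) (nat_lit 235) (.p (nat_lit 124) (nat_lit 576) (.n (nat_lit 125) (nat_lit 1152) (.p (nat_lit 128) (nat_lit 576) (.p (nat_lit 129) (nat_lit 1152) (.p (nat_lit 131) (nat_lit 576) .z))))) (.ct dP8_c36 (nat_lit 576) (nat_lit 6) (.s false (nat_lit 1) (nat_lit 7) (nat_lit 2) (nat_lit 1) (nat_lit 6) true (nat_lit 0) true (nat_lit 3) true (nat_lit 2) true (nat_lit 5) true (nat_lit 6) (.s true (nat_lit 1) (nat_lit 18) (nat_lit 1) (nat_lit 2) (nat_lit 2) true (nat_lit 3) true (nat_lit 5) true (nat_lit 0) true (nat_lit 6) true (nat_lit 5) (.a false (nat_lit 331776) (nat_lit 17) (nat_lit 18) (nat_lit 0) (nat_lit 0) (.e false (nat_lit 576) (nat_lit 40) (nat_lit 6) (nat_lit 3) (.e false (nat_lit 576) (nat_lit 72) (nat_lit 2) (nat_lit 5) (.e false (nat_lit 576) (nat_lit 78) (nat_lit 1) (nat_lit 6) (.e true (nat_lit 576) (nat_lit 39) (nat_lit 6) (nat_lit 3) (.e false (nat_lit 576) (nat_lit 67) (nat_lit 2) (nat_lit 5) (.e true (nat_lit 576) (nat_lit 68) (nat_lit 2) (nat_lit 5) (.e true (nat_lit 576) (nat_lit 69) (nat_lit 2) (nat_lit 5) (.e false (nat_lit 576) (nat_lit 70) (nat_lit 2) (nat_lit 5) .nil)))))))))))) (.nd .leaf (nat_lit 80898) (nat_lit 253) (.p (nat_lit 141) (nat_lit 576) .z) .df .leaf)) (nat_lit 80899) (nat_lit 335) (.p (nat_lit 144) (nat_lit 3188) (.p (nat_lit 145) (nat_lit 544) (.n (nat_lit 146) (nat_lit 908) (.p (nat_lit 147) (nat_lit 144) (.n (nat_lit 148) (nat_lit 4232) (.p (nat_lit 149) (nat_lit 1768) (.n (nat_lit 150) (nat_lit 2944) (.p (nat_lit 151) (nat_lit 644) (.p (nat_lit 152) (nat_lit 764) (.n (nat_lit 153) (nat_lit 3284) (.n (nat_lit 154) (nat_lit 564) (.n (nat_lit 155) (nat_lit 3992) (.p (nat_lit 156) (nat_lit 2128) (.n (nat_lit 157) (nat_lit 864) (.p (nat_lit 158) (nat_lit 954) (.p (nat_lit 159) (nat_lit 1158) (.n (nat_lit 160) (nat_lit 1462) (.n (nat_lit 161) (nat_lit 318) (.n (nat_lit 162) (nat_lit 96) (.p (nat_lit 163) (nat_lit 948) (.p (nat_lit 164) (nat_lit 644) (.p (nat_lit 165) (nat_lit 1284) (.p (nat_lit 166) (nat_lit 1244) (.n (nat_lit 167) (nat_lit 620) (.p (nat_lit 168) (nat_lit 60) (.n (nat_lit 169) (nat_lit 528) (.p (nat_lit 170) (nat_lit 264) (.n (nat_lit 171) (nat_lit 48) (.p (nat_lit 172) (nat_lit 528) (.p (nat_lit 176) (nat_lit 156) (.n (nat_lit 177) (nat_lit 312) (.p (nat_lit 178) (nat_lit 1272) (.n (nat_lit 179) (nat_lit 1272) (.n (nat_lit 180) (nat_lit 264) .z)))))))))))))))))))))))))))))))))) (.ct dP8_c292 (nat_lit 1152) (nat_lit 10) (.s false (nat_lit 2) (nat_lit 7) (nat_lit 1) (nat_lit 3) (nat_lit 7) true (nat_lit 1) true (nat_lit 6) true (nat_lit 6) true (nat_lit 12) true (nat_lit 10) (.s false (nat_lit 1) (nat_lit 7) (nat_lit 1) (nat_lit 7) (nat_lit 3) true (nat_lit 5) true (nat_lit 10) true (nat_lit 6) true (nat_lit 12) true (nat_lit 6) (.s false (nat_lit 2) (nat_lit 10) (nat_lit 2) (nat_lit 1) (nat_lit 7) true (nat_lit 0) true (nat_lit 6) true (nat_lit 4) true (nat_lit 11) true (nat_lit 12) (.s false (nat_lit 4) (nat_lit 10) (nat_lit 2) (nat_lit 2) (nat_lit 6) true (nat_lit 1) true (nat_lit 7) true (nat_lit 4) true (nat_lit 11) true (nat_lit 11) (.s true (nat_lit 2) (nat_lit 10) (nat_lit 2) (nat_lit 6) (nat_lit 2) true (nat_lit 6) true (nat_lit 11) true (nat_lit 4) true (nat_lit 11) true (nat_lit 7) (.s true (nat_lit 2) (nat_lit 10) (nat_lit 6) (nat_lit 2) (nat_lit 2) true (nat_lit 1) true (nat_lit 11) true (nat_lit 4) true (nat_lit 7) true (nat_lit 11) (.s false (nat_lit 2) (nat_lit 10) (nat_lit 7) (nat_lit 2) (nat_lit 1) true (nat_lit 1) true (nat_lit 12) true (nat_lit 4) true (nat_lit 6) true (nat_lit 11) dP8_i70)))))))) (.nd (.nd .leaf (nat_lit 80901) (nat_lit 411) (.n (nat_lit 181) (nat_lit 1728) (.p (nat_lit 182) (nat_lit 1728) (.p (nat_lit 183) (nat_lit 1152) (.p (nat_lit 184) (nat_lit 2304) (.p (nat_lit 185) (nat_lit 2880) (.n (nat_lit 186) (nat_lit 1440) (.n (nat_lit 187) (nat_lit 576) (.p (nat_lit 188) (nat_lit 1440) (.n (nat_lit 189) (nat_lit 288) (.n (nat_lit 190) (nat_lit 1152) (.n (nat_lit 191) (nat_lit 1152) (.p (nat_lit 192) (nat_lit 1728) (.n (nat_lit 196) (nat_lit 576) (.n (nat_lit 197) (nat_lit 576) .z)))))))))))))) (.ct dP8_c277 (nat_lit 2304) (nat_lit 6) (.s false (nat_lit 1) (nat_lit 7) (nat_lit 0) (nat_lit 6) (nat_lit 7) true (nat_lit 2) true (nat_lit 4) true (nat_lit 4) true (nat_lit 10) true (nat_lit 5) (.s true (nat_lit 1) (nat_lit 7) (nat_lit 1) (nat_lit 7) (nat_lit 5) true (nat_lit 3) true (nat_lit 6) true (nat_lit 4) true (nat_lit 9) true (nat_lit 4) (.s true (nat_lit 14) (nat_lit 7) (nat_lit 2) (nat_lit 7) (nat_lit 3) true (nat_lit 3) true (nat_lit 7) true (nat_lit 4) true (nat_lit 8) true (nat_lit 4) (.s false (nat_lit 2) (nat_lit 7) (nat_lit 6) (nat_lit 0) (nat_lit 7) false (nat_lit 2) true (nat_lit 4) true (nat_lit 4) true (nat_lit 5) true (nat_lit 10) (.s false (nat_lit 12) (nat_lit 10) (nat_lit 7) (nat_lit 2) (nat_lit 2) true (nat_lit 0) true (nat_lit 8) true (nat_lit 3) true (nat_lit 4) true (nat_lit 8) (.s true (nat_lit 2) (nat_lit 16) (nat_lit 1) (nat_lit 2) (nat_lit 7) true (nat_lit 1) true (nat_lit 4) true (nat_lit 2) true (nat_lit 9) true (nat_lit 8) (.s true (nat_lit 4) (nat_lit 15) (nat_lit 1) (nat_lit 7) (nat_lit 2) true (nat_lit 5) true (nat_lit 8) true (nat_lit 2) true (nat_lit 9) true (nat_lit 4) (.s true (nat_lit 1) (nat_lit 16) (nat_lit 2) (nat_lit 1) (nat_lit 7) true (nat_lit 0) true (nat_lit 4) true (nat_lit 2) true (nat_lit 8) true (nat_lit 9) (.s true (nat_lit 2) (nat_lit 16) (nat_lit 2) (nat_lit 2) (nat_lit 6) true (nat_lit 1) true (nat_lit 5) true (nat_lit 2) true (nat_lit 8) true (nat_lit 8) (.s false (nat_lit 4) (nat_lit 15) (nat_lit 2) (nat_lit 6) (nat_lit 2) true (nat_lit 4) true (nat_lit 8) true (nat_lit 2) true (nat_lit 8) true (nat_lit 5) (.s true (nat_lit 2) (nat_lit 18) (nat_lit 2) (nat_lit 2) (nat_lit 5) true (nat_lit 2) true (nat_lit 6) true (nat_lit 1) true (nat_lit 8) true (nat_lit 8) (.s true (nat_lit 1) (nat_lit 18) (nat_lit 2) (nat_lit 7) (nat_lit 0) true (nat_lit 6) true (nat_lit 10) true (nat_lit 1) true (nat_lit 8) true (nat_lit 4) (.s false (nat_lit 4) (nat_lit 17) (nat_lit 5) (nat_lit 2) (nat_lit 2) true (nat_lit 2) true (nat_lit 8) true (nat_lit 1) true (nat_lit 6) true (nat_lit 8) (.s false (nat_lit 4) (nat_lit 19) (nat_lit 0) (nat_lit 6) (nat_lit 2) true (nat_lit 6) true (nat_lit 8) true (nat_lit 0) true (nat_lit 10) true (nat_lit 5) dP8_i87))))))))))))))) .leaf) (nat_lit 80902) (nat_lit 459) (.p (nat_lit 200) (nat_lit 1152) (.n (nat_lit 201) (nat_lit 1152) (.n (nat_lit 205) (nat_lit 1728) (.p (nat_lit 206) (nat_lit 1152) (.n (nat_lit 207) (nat_lit 1152) (.n (nat_lit 208) (nat_lit 576) (.p (nat_lit 209) (nat_lit 576) .z))))))) (.ct dP8_c37 (nat_lit 576) (nat_lit 4) (.s true (nat_lit 1) (nat_lit 14) (nat_lit 2) (nat_lit 2) (nat_lit 7) true (nat_lit 0) true (nat_lit 3) true (nat_lit 2) true (nat_lit 6) true (nat_lit 6) (.s false (nat_lit 1) (nat_lit 19) (nat_lit 1) (nat_lit 6) (nat_lit 2) true (nat_lit 4) true (nat_lit 6) true (nat_lit 0) true (nat_lit 7) true (nat_lit 4) (.s true (nat_lit 1) (nat_lit 19) (nat_lit 2) (nat_lit 6) (nat_lit 1) true (nat_lit 4) true (nat_lit 7) true (nat_lit 0) true (nat_lit 6) true (nat_lit 4) (.e true (nat_lit 576) (nat_lit 68) (nat_lit 7) (nat_lit 3) (.e false (nat_lit 576) (nat_lit 129) (nat_lit 2) (nat_lit 6) (.e false (nat_lit 576) (nat_lit 132) (nat_lit 2) (nat_lit 6) (.e false (nat_lit 576) (nat_lit 80) (nat_lit 6) (nat_lit 4) (.e true (nat_lit 576) (nat_lit 125) (nat_lit 2) (nat_lit 6) (.e false (nat_lit 576) (nat_lit 126) (nat_lit 2) (nat_lit 6) (.e false (nat_lit 576) (nat_lit 34) (nat_lit 19) (nat_lit 0) .nil))))))))))) (.nd .leaf (nat_lit 81920) (nat_lit 209) (.p (nat_lit 108) (nat_lit 576) (.n (nat_lit 109) (nat_lit 1152) (.p (nat_lit 110) (nat_lit 576) (.p (nat_lit 111) (nat_lit 576) (.p (nat_lit 114) (nat_lit 288) (.p (nat_lit 115) (nat_lit 288) (.n (nat_lit 116) (nat_lit 288) (.n (nat_lit 117) (nat_lit 1152) (.n (nat_lit 118) (nat_lit 288) (.n (nat_lit 119) (nat_lit 288) (.p (nat_lit 120) (nat_lit 864) (.p (nat_lit 121) (nat_lit 288) (.p (nat_lit 123) (nat_lit 288) .z))))))))))))) (.ct dP8_c276 (nat_lit 576) (nat_lit 8) (.s false (nat_lit 1) (nat_lit 7) (nat_lit 3) (nat_lit 2) (nat_lit 2) true (nat_lit 1) true (nat_lit 6) true (nat_lit 2) true (nat_lit 5) true (nat_lit 6) (.s true (nat_lit 1) (nat_lit 19) (nat_lit 0) (nat_lit 1) (nat_lit 2) true (nat_lit 4) true (nat_lit 6) false (nat_lit 1) true (nat_lit 8) true (nat_lit 7) (.e false (nat_lit 576) (nat_lit 26) (nat_lit 7) (nat_lit 2) (.e true (nat_lit 576) (nat_lit 65) (nat_lit 2) (nat_lit 6) (.e true (nat_lit 576) (nat_lit 40) (nat_lit 5) (nat_lit 4) (.e true (nat_lit 576) (nat_lit 63) (nat_lit 2) (nat_lit 6) (.e false (nat_lit 576) (nat_lit 79) (nat_lit 0) (nat_lit 8) (.e true (nat_lit 576) (nat_lit 76) (nat_lit 1) (nat_lit 7) .nil))))))))) .leaf))) (nat_lit 81921) (nat_lit 230) (.p (nat_lit 131) (nat_lit 576) .z) .df (.nd (.nd (.nd .leaf (nat_lit 81922) (nat_lit 257) (.p (nat_lit 141) (nat_lit 576) .z) (.ct dP8_c21 (nat_lit 2304) (nat_lit 3) (.s false (nat_lit 1) (nat_lit 7) (nat_lit 1) (nat_lit 2) (nat_lit 7) true (nat_lit 0) true (nat_lit 1) true (nat_lit 1) true (nat_lit 4) true (nat_lit 3) (.s false (nat_lit 1) (nat_lit 19) (nat_lit 1) (nat_lit 2) (nat_lit 2) true (nat_lit 2) true (nat_lit 3) false (nat_lit 0) true (nat_lit 4) true (nat_lit 3) (.s true (nat_lit 1) (nat_lit 19) (nat_lit 2) (nat_lit 1) (nat_lit 2) true (nat_lit 1) true (nat_lit 3) false (nat_lit 0) true (nat_lit 3) true (nat_lit 4) (.s true (nat_lit 1) (nat_lit 19) (nat_lit 2) (nat_lit 2) (nat_lit 1) true (nat_lit 2) true (nat_lit 4) false (nat_lit 0) true (nat_lit 3) true (nat_lit 3) (.e false (nat_lit 2304) (nat_lit 79) (nat_lit 2) (nat_lit 3) .nil)))))) .leaf) (nat_lit 81923) (nat_lit 361) (.p (nat_lit 144) (nat_lit 3332) (.n (nat_lit 145) (nat_lit 2912) (.n (nat_lit 146) (nat_lit 4220) (.n (nat_lit 147) (nat_lit 2160) (.p (nat_lit 148) (nat_lit 88) (.p (nat_lit 149) (nat_lit 2632) (.n (nat_lit 150) (nat_lit 2944) (.p (nat_lit 151) (nat_lit 212) (.p (nat_lit 152) (nat_lit 44) (.p (nat_lit 153) (nat_lit 1180) (.n (nat_lit 154) (nat_lit 708) (.n (nat_lit 155) (nat_lit 248) (.p (nat_lit 156) (nat_lit 1552) (.p (nat_lit 157) (nat_lit 288) (.p (nat_lit 158) (nat_lit 2754) (.n (nat_lit 159) (nat_lit 2946) (.p (nat_lit 160) (nat_lit 338) (.n (nat_lit 161) (nat_lit 1110) (.n (nat_lit 162) (nat_lit 672) (.p (nat_lit 163) (nat_lit 1092) (.p (nat_lit 164) (nat_lit 788) (.p (nat_lit 165) (nat_lit 852) (.p (nat_lit 166) (nat_lit 524) (.n (nat_lit 167) (nat_lit 476) (.p (nat_lit 168) (nat_lit 492) (.n (nat_lit 169) (nat_lit 1104) (.p (nat_lit 170) (nat_lit 552) (.p (nat_lit 171) (nat_lit 528) (.p (nat_lit 172) (nat_lit 1104) (.p (nat_lit 176) (nat_lit 12) (.n (nat_lit 177) (nat_lit 24) (.p (nat_lit 178) (nat_lit 984) (.n (nat_lit 179) (nat_lit 984) (.n (nat_lit 180) (nat_lit 552) .z)))))))))))))))))))))))))))))))))) (.ct dP8_c292 (nat_lit 576) (nat_lit 10) (.s false (nat_lit 1) (nat_lit 19) (nat_lit 0) (nat_lit 6) (nat_lit 1) true (nat_lit 10) true (nat_lit 12) true (nat_lit 0) true (nat_lit 13) true (nat_lit 7) (.e false (nat_lit 576) (nat_lit 79) (nat_lit 3) (nat_lit 10) (.e false (nat_lit 576) (nat_lit 123) (nat_lit 1) (nat_lit 12) (.e false (nat_lit 576) (nat_lit 24) (nat_lit 19) (nat_lit 0) (.e false (nat_lit 576) (nat_lit 129) (nat_lit 0) (nat_lit 13) (.e true (nat_lit 576) (nat_lit 132) (nat_lit 0) (nat_lit 13) (.e true (nat_lit 576) (nat_lit 57) (nat_lit 6) (nat_lit 7) (.e true (nat_lit 576) (nat_lit 58) (nat_lit 6) (nat_lit 7) (.e false (nat_lit 576) (nat_lit 59) (nat_lit 6) (nat_lit 7) (.e true (nat_lit 576) (nat_lit 61) (nat_lit 6) (nat_lit 7) (.e false (nat_lit 576) (nat_lit 62) (nat_lit 6) (nat_lit 7) (.e false (nat_lit 576) (nat_lit 63) (nat_lit 6) (nat_lit 7) (.e true (nat_lit 576) (nat_lit 64) (nat_lit 6) (nat_lit 7) .nil)))))))))))))) (.nd .leaf (nat_lit 81925) (nat_lit 414) (.n (nat_lit 181) (nat_lit 864) (.p (nat_lit 182) (nat_lit 864) (.p (nat_lit 183) (nat_lit 1728) (.p (nat_lit 184) (nat_lit 1152) (.p (nat_lit 185) (nat_lit 2592) (.n (nat_lit 186) (nat_lit 1296) (.n (nat_lit 187) (nat_lit 1440) (.p (nat_lit 188) (nat_lit 1296) (.n (nat_lit 189) (nat_lit 144) (.n (nat_lit 190) (nat_lit 288) (.n (nat_lit 191) (nat_lit 288) (.p (nat_lit 192) (nat_lit 2304) (.n (nat_lit 193) (nat_lit 288) (.n (nat_lit 194) (nat_lit 1728) (.n (nat_lit 196) (nat_lit 576) (.n (nat_lit 197) (nat_lit 576) .z)))))))))))))))) (.ct dP8_c277 (nat_lit 2304) (nat_lit 6) dP8_i88) .leaf)) (nat_lit 81926) (nat_lit 454) (.p (nat_lit 200) (nat_lit 1728) (.n (nat_lit 201) (nat_lit 1728) (.n (nat_lit 202) (nat_lit 576) (.n (nat_lit 205) (nat_lit 1728) (.p (nat_lit 206) (nat_lit 2304) (.n (nat_lit 207) (nat_lit 2304) (.n (nat_lit 208) (nat_lit 1152) (.p (nat_lit 209) (nat_lit 576) .z)))))))) (.ct dP8_c37 (nat_lit 1152) (nat_lit 4) (.s true (nat_lit 1) (nat_lit 17) (nat_lit 1) (nat_lit 2) (nat_lit 7) true (nat_lit 1) true (nat_lit 3) true (nat_lit 1) true (nat_lit 7) true (nat_lit 6) (.s true (nat_lit 1) (nat_lit 18) (nat_lit 6) (nat_lit 2) (nat_lit 2) true (nat_lit 1) true (nat_lit 6) true (nat_lit 1) true (nat_lit 4) true (nat_lit 6) (.s true (nat_lit 1) (nat_lit 19) (nat_lit 1) (nat_lit 6) (nat_lit 2) true (nat_lit 4) true (nat_lit 6) true (nat_lit 0) true (nat_lit 7) true (nat_lit 4) (.s false (nat_lit 1) (nat_lit 19) (nat_lit 2) (nat_lit 6) (nat_lit 1) true (nat_lit 4) true (nat_lit 7) true (nat_lit 0) true (nat_lit 6) true (nat_lit 4) (.s true (nat_lit 1) (nat_lit 19) (nat_lit 6) (nat_lit 1) (nat_lit 2) true (nat_lit 1) true (nat_lit 6) true (nat_lit 0) true (nat_lit 4) true (nat_lit 7) (.s false (nat_lit 1) (nat_lit 34) (nat_lit 2) (nat_lit 2) (nat_lit 2) true (nat_lit 3) true (nat_lit 6) false (nat_lit 0) true (nat_lit 6) true (nat_lit 6) (.s false (nat_lit 2) (nat_lit 39) (nat_lit 1) (nat_lit 2) (nat_lit 2) true (nat_lit 4) true (nat_lit 6) false (nat_lit 1) true (nat_lit 7) true (nat_lit 6) (.e true (nat_lit 2304) (nat_lit 130) (nat_lit 2) (nat_lit 6) (.e false (nat_lit 1152) (nat_lit 131) (nat_lit 2) (nat_lit 6) (.e false (nat_lit 2304) (nat_lit 125) (nat_lit 2) (nat_lit 6) (.e true (nat_lit 1152) (nat_lit 129) (nat_lit 2) (nat_lit 6) (.e false (nat_lit 2304) (nat_lit 78) (nat_lit 6) (nat_lit 4) (.e true (nat_lit 1152) (nat_lit 132) (nat_lit 2) (nat_lit 6) (.e true (nat_lit 1152) (nat_lit 34) (nat_lit 19) (nat_lit 0) (.e true (nat_lit 1152) (nat_lit 124) (nat_lit 2) (nat_lit 6) (.e true (nat_lit 1152) (nat_lit 142) (nat_lit 1) (nat_lit 7) .nil))))))))))))))))) (.nd (.nd .leaf (nat_lit 82945) (nat_lit 259) (.n (nat_lit 140) (nat_lit 1152) (.p (nat_lit 141) (nat_lit 1728) (.p (nat_lit 142) (nat_lit 576) (.n (nat_lit 143) (nat_lit 576) .z)))) (.ct dP8_c21 (nat_lit 576) (nat_lit 4) (.s false (nat_lit 1) (nat_lit 19) (nat_lit 2) (nat_lit 1) (nat_lit 2) true (nat_lit 1) true (nat_lit 3) false (nat_lit 0) true (nat_lit 3) true (nat_lit 4) (.e false (nat_lit 576) (nat_lit 40) (nat_lit 7) (nat_lit 1) (.e false (nat_lit 1152) (nat_lit 80) (nat_lit 2) (nat_lit 3) (.e true (nat_lit 576) (nat_lit 19) (nat_lit 17) (nat_lit 0) (.e true (nat_lit 576) (nat_lit 79) (nat_lit 2) (nat_lit 3) .nil)))))) .leaf) (nat_lit 83970) (nat_lit 262) (.p (nat_lit 144) (nat_lit 576) .z) .df .leaf)))) (nat_lit 84994) (nat_lit 263) (.p (nat_lit 145) (nat_lit 576) .z) .df (.nd (.nd (.nd (.nd (.nd .leaf (nat_lit 86018) (nat_lit 264) (.p (nat_lit 146) (nat_lit 576) .z) .df .leaf) (nat_lit 87042) (nat_lit 265) (.p (nat_lit 147) (nat_lit 576) .z) .df (.nd .leaf (nat_lit 88066) (nat_lit 266) (.p (nat_lit 148) (nat_lit 576) .z) .df .leaf)) (nat_lit 89090) (nat_lit 267) (.p (nat_lit 149) (nat_lit 576) .z) .df (.nd (.nd .leaf (nat_lit 90114) (nat_lit 268) (.p (nat_lit 150) (nat_lit 576) .z) .df .leaf) (nat_lit 91138) (nat_lit 269) (.p (nat_lit 151) (nat_lit 576) .z) .df (.nd .leaf (nat_lit 92162) (nat_lit 270) (.p (nat_lit 152) (nat_lit 576) .z) .df .leaf))) (nat_lit 93186) (nat_lit 271) (.p (nat_lit 153) (nat_lit 576) .z) .df (.nd (.nd (.nd .leaf (nat_lit 94210) (nat_lit 272) (.p (nat_lit 154) (nat_lit 576) .z) .df .leaf) (nat_lit 95234) (nat_lit 273) (.p (nat_lit 155) (nat_lit 576) .z) .df (.nd .leaf (nat_lit 96258) (nat_lit 274) (.p (nat_lit 156) (nat_lit 576) .z) .df .leaf)) (nat_lit 97282) (nat_lit 301) (.n (nat_lit 144) (nat_lit 552) (.p (nat_lit 145) (nat_lit 1920) (.p (nat_lit 146) (nat_lit 2136) (.p (nat_lit 147) (nat_lit 1440) (.n (nat_lit 148) (nat_lit 1968) (.n (nat_lit 149) (nat_lit 528) (.p (nat_lit 150) (nat_lit 384) (.n (nat_lit 151) (nat_lit 264) (.p (nat_lit 152) (nat_lit 456) (.n (nat_lit 153) (nat_lit 1752) (.p (nat_lit 154) (nat_lit 360) (.n (nat_lit 155) (nat_lit 1104) (.n (nat_lit 156) (nat_lit 96) (.n (nat_lit 157) (nat_lit 576) (.n (nat_lit 158) (nat_lit 756) (.p (nat_lit 159) (nat_lit 1908) (.n (nat_lit 160) (nat_lit 660) (.p (nat_lit 161) (nat_lit 252) (.n (nat_lit 163) (nat_lit 360) (.n (nat_lit 164) (nat_lit 264) (.p (nat_lit 165) (nat_lit 1080) (.p (nat_lit 166) (nat_lit 456) (.n (nat_lit 167) (nat_lit 168) (.n (nat_lit 168) (nat_lit 504) (.p (nat_lit 169) (nat_lit 288) (.n (nat_lit 170) (nat_lit 144) (.n (nat_lit 171) (nat_lit 288) (.n (nat_lit 172) (nat_lit 288) (.p (nat_lit 176) (nat_lit 72) (.n (nat_lit 177) (nat_lit 144) (.p (nat_lit 178) (nat_lit 144) (.n (nat_lit 179) (nat_lit 144) (.p (nat_lit 180) (nat_lit 144) .z))))))))))))))))))))))))))))))))) (.ct dP8_c292 (nat_lit 73728) (nat_lit 11) (.s true (nat_lit 16) (nat_lit 6) (nat_lit 5) (nat_lit 2) (nat_lit 6) false (nat_lit 1) true (nat_lit 7) true (nat_lit 7) true (nat_lit 8) true (nat_lit 11) (.s false (nat_lit 3) (nat_lit 7) (nat_lit 0) (nat_lit 4) (nat_lit 7) true (nat_lit 2) true (nat_lit 6) true (nat_lit 6) true (nat_lit 13) true (nat_lit 9) (.s false (nat_lit 3) (nat_lit 7) (nat_lit 0) (nat_lit 7) (nat_lit 4) true (nat_lit 5) true (nat_lit 9) true (nat_lit 6) true (nat_lit 13) true (nat_lit 6) (.s true (nat_lit 16) (nat_lit 7) (nat_lit 1) (nat_lit 3) (nat_lit 7) true (nat_lit 1) true (nat_lit 6) true (nat_lit 6) true (nat_lit 12) true (nat_lit 10) (.s true (nat_lit 4) (nat_lit 7) (nat_lit 1) (nat_lit 7) (nat_lit 3) true (nat_lit 5) true (nat_lit 10) true (nat_lit 6) true (nat_lit 12) true (nat_lit 6) (.s false (nat_lit 6) (nat_lit 7) (nat_lit 5) (nat_lit 4) (nat_lit 2) true (nat_lit 2) true (nat_lit 11) true (nat_lit 6) true (nat_lit 8) true (nat_lit 9) (.s false (nat_lit 2) (nat_lit 9) (nat_lit 2) (nat_lit 2) (nat_lit 7) true (nat_lit 0) true (nat_lit 6) true (nat_lit 5) true (nat_lit 11) true (nat_lit 11) (.s false (nat_lit 4) (nat_lit 10) (nat_lit 2) (nat_lit 1) (nat_lit 7) true (nat_lit 0) true (nat_lit 6) true (nat_lit 4) true (nat_lit 11) true (nat_lit 12) (.s true (nat_lit 16) (nat_lit 10) (nat_lit 2) (nat_lit 2) (nat_lit 6) true (nat_lit 1) true (nat_lit 7) true (nat_lit 4) true (nat_lit 11) true (nat_lit 11) (.s false (nat_lit 8) (nat_lit 10) (nat_lit 2) (nat_lit 6) (nat_lit 2) true (nat_lit 6) true (nat_lit 11) true (nat_lit 4) true (nat_lit 11) true (nat_lit 7) (.s false (nat_lit 8) (nat_lit 11) (nat_lit 2) (nat_lit 6) (nat_lit 2) true (nat_lit 6) true (nat_lit 11) true (nat_lit 4) true (nat_lit 11) true (nat_lit 7) (.s false (nat_lit 16) (nat_lit 10) (nat_lit 6) (nat_lit 2) (nat_lit 2) true (nat_lit 1) true (nat_lit 11) true (nat_lit 4) true (nat_lit 7) true (nat_lit 11) (.s false (nat_lit 8) (nat_lit 11) (nat_lit 6) (nat_lit 2) (nat_lit 2) true (nat_lit 1) true (nat_lit 11) true (nat_lit 4) true (nat_lit 7) true (nat_lit 11) (.s true (nat_lit 20) (nat_lit 10) (nat_lit 7) (nat_lit 2) (nat_lit 1) true (nat_lit 1) true (nat_lit 12) true (nat_lit 4) true (nat_lit 6) true (nat_lit 11) (.s false (nat_lit 4) (nat_lit 13) (nat_lit 0) (nat_lit 2) (nat_lit 7) true (nat_lit 2) true (nat_lit 6) true (nat_lit 3) true (nat_lit 13) true (nat_lit 11) (.s true (nat_lit 4) (nat_lit 13) (nat_lit 2) (nat_lit 2) (nat_lit 5) true (nat_lit 2) true (nat_lit 8) true (nat_lit 3) true (nat_lit 11) true (nat_lit 11) (.s true (nat_lit 12) (nat_lit 13) (nat_lit 5) (nat_lit 2) (nat_lit 2) true (nat_lit 2) true (nat_lit 11) true (nat_lit 3) true (nat_lit 8) true (nat_lit 11) (.s false (nat_lit 16) (nat_lit 14) (nat_lit 5) (nat_lit 2) (nat_lit 2) true (nat_lit 2) true (nat_lit 11) true (nat_lit 3) true (nat_lit 8) true (nat_lit 11) (.s true (nat_lit 7) (nat_lit 16) (nat_lit 1) (nat_lit 1) (nat_lit 7) true (nat_lit 1) true (nat_lit 6) true (nat_lit 2) true (nat_lit 12) true (nat_lit 12) (.s false (nat_lit 4) (nat_lit 16) (nat_lit 1) (nat_lit 2) (nat_lit 6) true (nat_lit 3) true (nat_lit 7) true (nat_lit 2) true (nat_lit 12) true (nat_lit 11) (.s false (nat_lit 8) (nat_lit 15) (nat_lit 1) (nat_lit 6) (nat_lit 2) true (nat_lit 7) true (nat_lit 11) true (nat_lit 2) true (nat_lit 12) true (nat_lit 7) (.s true (nat_lit 1) (nat_lit 16) (nat_lit 1) (nat_lit 7) (nat_lit 1) true (nat_lit 9) true (nat_lit 12) true (nat_lit 2) true (nat_lit 12) true (nat_lit 6) (.s false (nat_lit 8) (nat_lit 15) (nat_lit 2) (nat_lit 1) (nat_lit 6) true (nat_lit 1) true (nat_lit 7) true (nat_lit 2) true (nat_lit 11) true (nat_lit 12) dP8_i14)))))))))))))))))))))))) (.nd (.nd .leaf (nat_lit 98306) (nat_lit 275) (.p (nat_lit 157) (nat_lit 576) .z) .df .leaf) (nat_lit 99330) (nat_lit 276) (.p (nat_lit 158) (nat_lit 576) .z) .df .leaf))) (nat_lit 100354) (nat_lit 277) (.p (nat_lit 159) (nat_lit 576) .z) .df (.nd (.nd (.nd (.nd .leaf (nat_lit 101378) (nat_lit 278) (.p (nat_lit 160) (nat_lit 576) .z) .df .leaf) (nat_lit 102402) (nat_lit 279) (.p (nat_lit 161) (nat_lit 576) .z) .df (.nd .leaf (nat_lit 103426) (nat_lit 280) (.p (nat_lit 162) (nat_lit 576) .z) .df .leaf)) (nat_lit 104450) (nat_lit 281) (.p (nat_lit 163) (nat_lit 576) .z) .df (.nd (.nd .leaf (nat_lit 105474) (nat_lit 282) (.p (nat_lit 164) (nat_lit 576) .z) .df .leaf) (nat_lit 106498) (nat_lit 283) (.p (nat_lit 165) (nat_lit 576) .z) .df .leaf)) (nat_lit 107522) (nat_lit 284) (.p (nat_lit 166) (nat_lit 576) .z) .df (.nd (.nd (.nd .leaf (nat_lit 108546) (nat_lit 285) (.p (nat_lit 167) (nat_lit 576) .z) .df .leaf) (nat_lit 109570) (nat_lit 286) (.p (nat_lit 168) (nat_lit 576) .z) .df (.nd .leaf (nat_lit 110593) (nat_lit 287) (.p (nat_lit 169) (nat_lit 576) .z) .df .leaf)) (nat_lit 110594) (nat_lit 387) (.p (nat_lit 181) (nat_lit 576) .z) .df (.nd (.nd .leaf (nat_lit 111617) (nat_lit 288) (.p (nat_lit 170) (nat_lit 576) .z) .df .leaf) (nat_lit 111618) (nat_lit 388) (.p (nat_lit 182) (nat_lit 576) .z) .df .leaf))))) (nat_lit 112641) (nat_lit 310) (.p (nat_lit 144) (nat_lit 60) (.n (nat_lit 145) (nat_lit 1536) (.n (nat_lit 146) (nat_lit 996) (.n (nat_lit 147) (nat_lit 2448) (.p (nat_lit 148) (nat_lit 2568) (.n (nat_lit 149) (nat_lit 2184) (.p (nat_lit 150) (nat_lit 960) (.n (nat_lit 151) (nat_lit 948) (.n (nat_lit 152) (nat_lit 876) (.p (nat_lit 153) (nat_lit 2532) (.p (nat_lit 154) (nat_lit 36) (.p (nat_lit 155) (nat_lit 1848) (.n (nat_lit 156) (nat_lit 816) (.p (nat_lit 157) (nat_lit 864) (.n (nat_lit 158) (nat_lit 1314) (.n (nat_lit 159) (nat_lit 990) (.p (nat_lit 160) (nat_lit 942) (.p (nat_lit 161) (nat_lit 630) (.p (nat_lit 162) (nat_lit 1152) (.p (nat_lit 163) (nat_lit 252) (.p (nat_lit 164) (nat_lit 780) (.n (nat_lit 165) (nat_lit 468) (.n (nat_lit 166) (nat_lit 1164) (.p (nat_lit 167) (nat_lit 732) (.n (nat_lit 168) (nat_lit 108) (.p (nat_lit 169) (nat_lit 144) (.n (nat_lit 170) (nat_lit 360) (.n (nat_lit 171) (nat_lit 144) (.n (nat_lit 172) (nat_lit 720) (.p (nat_lit 173) (nat_lit 576) (.n (nat_lit 174) (nat_lit 576) (.p (nat_lit 176) (nat_lit 180) (.p (nat_lit 177) (nat_lit 216) (.n (nat_lit 178) (nat_lit 1368) (.p (nat_lit 179) (nat_lit 1368) (.n (nat_lit 180) (nat_lit 216) .z)))))))))))))))))))))))))))))))))))) (.ct dP8_c292 (nat_lit 4608) (nat_lit 12) (.s false (nat_lit 1) (nat_lit 7) (nat_lit 0) (nat_lit 4) (nat_lit 7) true (nat_lit 2) true (nat_lit 6) true (nat_lit 6) true (nat_lit 13) true (nat_lit 9) dP8_i38)) (.nd (.nd (.nd (.nd (.nd (.nd .leaf (nat_lit 112642) (nat_lit 389) (.p (nat_lit 183) (nat_lit 576) .z) .df .leaf) (nat_lit 113665) (nat_lit 333) (.n (nat_lit 144) (nat_lit 1166) (.p (nat_lit 145) (nat_lit 1952) (.p (nat_lit 146) (nat_lit 1154) (.p (nat_lit 147) (nat_lit 1800) (.n (nat_lit 148) (nat_lit 1444) (.p (nat_lit 149) (nat_lit 260) (.n (nat_lit 150) (nat_lit 416) (.p (nat_lit 151) (nat_lit 1162) (.p (nat_lit 152) (nat_lit 646) (.n (nat_lit 153) (nat_lit 1186) (.p (nat_lit 154) (nat_lit 510) (.n (nat_lit 155) (nat_lit 892) (.p (nat_lit 156) (nat_lit 152) (.n (nat_lit 157) (nat_lit 720) (.n (nat_lit 158) (nat_lit 279) (.p (nat_lit 159) (nat_lit 1047) (.n (nat_lit 160) (nat_lit 575) (.p (nat_lit 161) (nat_lit 93) (.n (nat_lit 162) (nat_lit 480) (.n (nat_lit 163) (nat_lit 174) (.n (nat_lit 164) (nat_lit 422) (.p (nat_lit 165) (nat_lit 282) (.p (nat_lit 166) (nat_lit 1174) (.n (nat_lit 167) (nat_lit 1150) (.n (nat_lit 168) (nat_lit 762) (.p (nat_lit 169) (nat_lit 600) (.n (nat_lit 170) (nat_lit 12) (.n (nat_lit 171) (nat_lit 600) (.n (nat_lit 172) (nat_lit 600) (.p (nat_lit 176) (nat_lit 294) (.n (nat_lit 177) (nat_lit 12) (.p (nat_lit 178) (nat_lit 636) (.n (nat_lit 179) (nat_lit 636) (.p (nat_lit 180) (nat_lit 12) .z)))))))))))))))))))))))))))))))))) (.ct dP8_c292 (nat_lit 1152) (nat_lit 12) (.s true (nat_lit 1) (nat_lit 10) (nat_lit 2) (nat_lit 6) (nat_lit 2) true (nat_lit 6) true (nat_lit 11) true (nat_lit 4) true (nat_lit 11) true (nat_lit 7) (.s true (nat_lit 1) (nat_lit 10) (nat_lit 6) (nat_lit 2) (nat_lit 2) true (nat_lit 1) true (nat_lit 11) true (nat_lit 4) true (nat_lit 7) true (nat_lit 11) (.s false (nat_lit 1) (nat_lit 26) (nat_lit 1) (nat_lit 2) (nat_lit 2) true (nat_lit 7) true (nat_lit 11) false (nat_lit 1) true (nat_lit 12) true (nat_lit 11) (.e false (nat_lit 576) (nat_lit 55) (nat_lit 7) (nat_lit 6) (.e true (nat_lit 1728) (nat_lit 104) (nat_lit 2) (nat_lit 11) (.e true (nat_lit 576) (nat_lit 82) (nat_lit 2) (nat_lit 11) (.e false (nat_lit 1152) (nat_lit 86) (nat_lit 2) (nat_lit 11) (.e false (nat_lit 576) (nat_lit 95) (nat_lit 2) (nat_lit 11) (.e true (nat_lit 576) (nat_lit 89) (nat_lit 2) (nat_lit 11) (.e false (nat_lit 576) (nat_lit 65) (nat_lit 6) (nat_lit 7) (.e false (nat_lit 1152) (nat_lit 109) (nat_lit 1) (nat_lit 12) (.e true (nat_lit 576) (nat_lit 114) (nat_lit 1) (nat_lit 12) (.e true (nat_lit 1152) (nat_lit 115) (nat_lit 1) (nat_lit 12) (.e false (nat_lit 576) (nat_lit 116) (nat_lit 1) (nat_lit 12) (.e true (nat_lit 576) (nat_lit 117) (nat_lit 1) (nat_lit 12) (.e true (nat_lit 576) (nat_lit 118) (nat_lit 1) (nat_lit 12) (.e true (nat_lit 576) (nat_lit 119) (nat_lit 1) (nat_lit 12) (.e false (nat_lit 1152) (nat_lit 120) (nat_lit 1) (nat_lit 12) (.e false (nat_lit 576) (nat_lit 121) (nat_lit 1) (nat_lit 12) (.e true (nat_lit 576) (nat_lit 90) (nat_lit 2) (nat_lit 11) .nil))))))))))))))))))))) (.nd .leaf (nat_lit 113666) (nat_lit 417) (.p (nat_lit 182) (nat_lit 576) (.n (nat_lit 186) (nat_lit 288) (.n (nat_lit 187) (nat_lit 576) (.p (nat_lit 188) (nat_lit 288) (.n (nat_lit 190) (nat_lit 288) (.n (nat_lit 191) (nat_lit 288) (.p (nat_lit 192) (nat_lit 576) (.p (nat_lit 193) (nat_lit 288) .z)))))))) (.ct dP8_c277 (nat_lit 2304) (nat_lit 8) (.s false (nat_lit 1) (nat_lit 7) (nat_lit 2) (nat_lit 7) (nat_lit 3) true (nat_lit 3) true (nat_lit 7) true (nat_lit 4) true (nat_lit 8) true (nat_lit 4) (.s true (nat_lit 1) (nat_lit 10) (nat_lit 7) (nat_lit 2) (nat_lit 2) true (nat_lit 0) true (nat_lit 8) true (nat_lit 3) true (nat_lit 4) true (nat_lit 8) (.s false (nat_lit 1) (nat_lit 19) (nat_lit 3) (nat_lit 2) (nat_lit 2) true (nat_lit 3) true (nat_lit 8) true (nat_lit 0) true (nat_lit 7) true (nat_lit 8) (.e false (nat_lit 2304) (nat_lit 109) (nat_lit 2) (nat_lit 8) (.e true (nat_lit 1152) (nat_lit 114) (nat_lit 2) (nat_lit 8) (.e true (nat_lit 2304) (nat_lit 115) (nat_lit 2) (nat_lit 8) (.e false (nat_lit 1152) (nat_lit 116) (nat_lit 2) (nat_lit 8) (.e true (nat_lit 1152) (nat_lit 118) (nat_lit 2) (nat_lit 8) (.e true (nat_lit 1152) (nat_lit 119) (nat_lit 2) (nat_lit 8) (.e false (nat_lit 2304) (nat_lit 120) (nat_lit 2) (nat_lit 8) (.e false (nat_lit 1152) (nat_lit 121) (nat_lit 2) (nat_lit 8) .nil)))))))))))) .leaf)) (nat_lit 114689) (nat_lit 289) (.p (nat_lit 171) (nat_lit 576) .z) .df (.nd (.nd .leaf (nat_lit 114690) (nat_lit 390) (.p (nat_lit 184) (nat_lit 576) .z) .df .leaf) (nat_lit 115713) (nat_lit 290) (.p (nat_lit 172) (nat_lit 576) .z) .df (.nd .leaf (nat_lit 115714) (nat_lit 391) (.p (nat_lit 185) (nat_lit 576) .z) .df .leaf))) (nat_lit 116737) (nat_lit 291) (.p (nat_lit 173) (nat_lit 576) .z) .df (.nd (.nd (.nd .leaf (nat_lit 116738) (nat_lit 392) (.p (nat_lit 186) (nat_lit 576) .z) .df .leaf) (nat_lit 117761) (nat_lit 318) (.p (nat_lit 144) (nat_lit 480) (.p (nat_lit 145) (nat_lit 7584) (.p (nat_lit 146) (nat_lit 7296) (.p (nat_lit 147) (nat_lit 2880) (.n (nat_lit 148) (nat_lit 9120) (.n (nat_lit 149) (nat_lit 3648) (.n (nat_lit 150) (nat_lit 4416) (.p (nat_lit 151) (nat_lit 192) (.p (nat_lit 152) (nat_lit 480) (.n (nat_lit 153) (nat_lit 9696) (.p (nat_lit 154) (nat_lit 1152) (.n (nat_lit 155) (nat_lit 7680) (.p (nat_lit 156) (nat_lit 1824) (.n (nat_lit 157) (nat_lit 3456) (.n (nat_lit 158) (nat_lit 5616) (.p (nat_lit 159) (nat_lit 8496) (.n (nat_lit 160) (nat_lit 3984) (.p (nat_lit 161) (nat_lit 1872) (.p (nat_lit 162) (nat_lit 1440) (.n (nat_lit 163) (nat_lit 288) (.p (nat_lit 164) (nat_lit 1056) (.p (nat_lit 165) (nat_lit 3168) (.p (nat_lit 166) (nat_lit 3360) (.n (nat_lit 167) (nat_lit 2208) (.n (nat_lit 168) (nat_lit 2016) (.p (nat_lit 169) (nat_lit 1152) (.n (nat_lit 170) (nat_lit 576) (.n (nat_lit 171) (nat_lit 1728) (.n (nat_lit 172) (nat_lit 1152) (.p (nat_lit 176) (nat_lit 576) (.n (nat_lit 177) (nat_lit 576) (.p (nat_lit 178) (nat_lit 864) (.n (nat_lit 179) (nat_lit 864) (.p (nat_lit 180) (nat_lit 576) .z)))))))))))))))))))))))))))))))))) (.ct dP8_c292 (nat_lit 288) (nat_lit 12) (.s false (nat_lit 1) (nat_lit 27) (nat_lit 1) (nat_lit 2) (nat_lit 2) true (nat_lit 7) true (nat_lit 11) false (nat_lit 1) true (nat_lit 12) true (nat_lit 11) (.s true (nat_lit 1) (nat_lit 27) (nat_lit 2) (nat_lit 1) (nat_lit 2) true (nat_lit 6) true (nat_lit 11) false (nat_lit 1) true (nat_lit 11) true (nat_lit 12) (.e false (nat_lit 576) (nat_lit 57) (nat_lit 6) (nat_lit 7) (.e true (nat_lit 2688) (nat_lit 82) (nat_lit 2) (nat_lit 11) (.e false (nat_lit 6144) (nat_lit 83) (nat_lit 2) (nat_lit 11) (.e false (nat_lit 7872) (nat_lit 84) (nat_lit 2) (nat_lit 11) (.e false (nat_lit 4608) (nat_lit 85) (nat_lit 2) (nat_lit 11) (.e true (nat_lit 5376) (nat_lit 86) (nat_lit 2) (nat_lit 11) (.e true (nat_lit 2496) (nat_lit 87) (nat_lit 2) (nat_lit 11) (.e false (nat_lit 1920) (nat_lit 88) (nat_lit 2) (nat_lit 11) (.e true (nat_lit 1536) (nat_lit 89) (nat_lit 2) (nat_lit 11) (.e false (nat_lit 1344) (nat_lit 90) (nat_lit 2) (nat_lit 11) (.e true (nat_lit 5376) (nat_lit 91) (nat_lit 2) (nat_lit 11) (.e true (nat_lit 3072) (nat_lit 93) (nat_lit 2) (nat_lit 11) (.e true (nat_lit 768) (nat_lit 94) (nat_lit 2) (nat_lit 11) dP8_i50)))))))))))))))) (.nd .leaf (nat_lit 117762) (nat_lit 393) (.p (nat_lit 187) (nat_lit 576) .z) .df .leaf)) (nat_lit 118785) (nat_lit 292) (.p (nat_lit 174) (nat_lit 576) .z) .df (.nd (.nd .leaf (nat_lit 118786) (nat_lit 394) (.p (nat_lit 188) (nat_lit 576) .z) .df .leaf) (nat_lit 119809) (nat_lit 302) (.p (nat_lit 144) (nat_lit 160) (.p (nat_lit 145) (nat_lit 4352) (.p (nat_lit 146) (nat_lit 3680) (.p (nat_lit 147) (nat_lit 1728) (.n (nat_lit 148) (nat_lit 5056) (.n (nat_lit 149) (nat_lit 1984) (.n (nat_lit 150) (nat_lit 1664) (.p (nat_lit 151) (nat_lit 544) (.p (nat_lit 152) (nat_lit 352) (.n (nat_lit 153) (nat_lit 4960) (.p (nat_lit 154) (nat_lit 672) (.n (nat_lit 155) (nat_lit 4288) (.p (nat_lit 156) (nat_lit 896) (.n (nat_lit 157) (nat_lit 1728) (.n (nat_lit 158) (nat_lit 3024) (.p (nat_lit 159) (nat_lit 4944) (.n (nat_lit 160) (nat_lit 2192) (.p (nat_lit 161) (nat_lit 1200) (.p (nat_lit 162) (nat_lit 960) (.p (nat_lit 163) (nat_lit 96) (.p (nat_lit 164) (nat_lit 544) (.p (nat_lit 165) (nat_lit 1056) (.p (nat_lit 166) (nat_lit 1312) (.n (nat_lit 167) (nat_lit 928) (.n (nat_lit 168) (nat_lit 1248) (.p (nat_lit 169) (nat_lit 1536) (.n (nat_lit 170) (nat_lit 1344) (.n (nat_lit 171) (nat_lit 1536) (.n (nat_lit 172) (nat_lit 1536) (.p (nat_lit 173) (nat_lit 576) (.n (nat_lit 174) (nat_lit 576) (.p (nat_lit 176) (nat_lit 672) (.n (nat_lit 177) (nat_lit 192) (.p (nat_lit 178) (nat_lit 384) (.n (nat_lit 179) (nat_lit 384) (.p (nat_lit 180) (nat_lit 192) .z)))))))))))))))))))))))))))))))))))) (.ct dP8_c292 (nat_lit 13824) (nat_lit 12) (.s true (nat_lit 12) (nat_lit 6) (nat_lit 5) (nat_lit 2) (nat_lit 6) false (nat_lit 1) true (nat_lit 7) true (nat_lit 7) true (nat_lit 8) true (nat_lit 11) (.s false (nat_lit 19) (nat_lit 7) (nat_lit 0) (nat_lit 4) (nat_lit 7) true (nat_lit 2) true (nat_lit 6) true (nat_lit 6) true (nat_lit 13) true (nat_lit 9) (.s false (nat_lit 15) (nat_lit 7) (nat_lit 0) (nat_lit 7) (nat_lit 4) true (nat_lit 5) true (nat_lit 9) true (nat_lit 6) true (nat_lit 13) true (nat_lit 6) (.s true (nat_lit 42) (nat_lit 7) (nat_lit 1) (nat_lit 3) (nat_lit 7) true (nat_lit 1) true (nat_lit 6) true (nat_lit 6) true (nat_lit 12) true (nat_lit 10) (.s true (nat_lit 8) (nat_lit 7) (nat_lit 1) (nat_lit 7) (nat_lit 3) true (nat_lit 5) true (nat_lit 10) true (nat_lit 6) true (nat_lit 12) true (nat_lit 6) (.s false (nat_lit 12) (nat_lit 7) (nat_lit 5) (nat_lit 4) (nat_lit 2) true (nat_lit 2) true (nat_lit 11) true (nat_lit 6) true (nat_lit 8) true (nat_lit 9) (.s false (nat_lit 12) (nat_lit 7) (nat_lit 6) (nat_lit 2) (nat_lit 3) false (nat_lit 0) true (nat_lit 10) true (nat_lit 6) true (nat_lit 7) true (nat_lit 11) (.s true (nat_lit 12) (nat_lit 8) (nat_lit 2) (nat_lit 2) (nat_lit 7) true (nat_lit 0) true (nat_lit 6) true (nat_lit 5) true (nat_lit 11) true (nat_lit 11) (.s false (nat_lit 12) (nat_lit 9) (nat_lit 2) (nat_lit 2) (nat_lit 7) true (nat_lit 0) true (nat_lit 6) true (nat_lit 5) true (nat_lit 11) true (nat_lit 11) (.s false (nat_lit 32) (nat_lit 10) (nat_lit 2) (nat_lit 1) (nat_lit 7) true (nat_lit 0) true (nat_lit 6) true (nat_lit 4) true (nat_lit 11) true (nat_lit 12) (.s true (nat_lit 4) (nat_lit 10) (nat_lit 2) (nat_lit 2) (nat_lit 6) true (nat_lit 1) true (nat_lit 7) true (nat_lit 4) true (nat_lit 11) true (nat_lit 11) (.s false (nat_lit 12) (nat_lit 10) (nat_lit 2) (nat_lit 6) (nat_lit 2) true (nat_lit 6) true (nat_lit 11) true (nat_lit 4) true (nat_lit 11) true (nat_lit 7) (.s false (nat_lit 12) (nat_lit 10) (nat_lit 6) (nat_lit 2) (nat_lit 2) true (nat_lit 1) true (nat_lit 11) true (nat_lit 4) true (nat_lit 7) true (nat_lit 11) (.s false (nat_lit 4) (nat_lit 12) (nat_lit 6) (nat_lit 2) (nat_lit 2) true (nat_lit 1) true (nat_lit 11) true (nat_lit 4) true (nat_lit 7) true (nat_lit 11) (.s true (nat_lit 32) (nat_lit 10) (nat_lit 7) (nat_lit 2) (nat_lit 1) true (nat_lit 1) true (nat_lit 12) true (nat_lit 4) true (nat_lit 6) true (nat_lit 11) (.s true (nat_lit 6) (nat_lit 13) (nat_lit 0) (nat_lit 2) (nat_lit 7) true (nat_lit 2) true (nat_lit 6) true (nat_lit 3) true (nat_lit 13) true (nat_lit 11) (.s false (nat_lit 18) (nat_lit 13) (nat_lit 2) (nat_lit 0) (nat_lit 7) true (nat_lit 0) true (nat_lit 6) true (nat_lit 3) true (nat_lit 11) true (nat_lit 13) (.s false (nat_lit 24) (nat_lit 13) (nat_lit 2) (nat_lit 2) (nat_lit 5) true (nat_lit 2) true (nat_lit 8) true (nat_lit 3) true (nat_lit 11) true (nat_lit 11) (.s true (nat_lit 20) (nat_lit 13) (nat_lit 5) (nat_lit 2) (nat_lit 2) true (nat_lit 2) true (nat_lit 11) true (nat_lit 3) true (nat_lit 8) true (nat_lit 11) (.s false (nat_lit 16) (nat_lit 14) (nat_lit 5) (nat_lit 2) (nat_lit 2) true (nat_lit 2) true (nat_lit 11) true (nat_lit 3) true (nat_lit 8) true (nat_lit 11) dP8_i17))))))))))))))))))))) .leaf))) (nat_lit 119810) (nat_lit 395) (.p (nat_lit 189) (nat_lit 576) .z) .df (.nd (.nd (.nd (.nd .leaf (nat_lit 120833) (nat_lit 293) (.p (nat_lit 175) (nat_lit 576) .z) .df .leaf) (nat_lit 120834) (nat_lit 396) (.p (nat_lit 190) (nat_lit 576) .z) .df (.nd .leaf (nat_lit 121857) (nat_lit 299) (.n (nat_lit 144) (nat_lit 2600) (.p (nat_lit 145) (nat_lit 7616) (.p (nat_lit 146) (nat_lit 8024) (.p (nat_lit 147) (nat_lit 4896) (.n (nat_lit 148) (nat_lit 6256) (.n (nat_lit 149) (nat_lit 2320) (.n (nat_lit 150) (nat_lit 896) (.p (nat_lit 151) (nat_lit 952) (.p (nat_lit 152) (nat_lit 904) (.n (nat_lit 153) (nat_lit 7384) (.p (nat_lit 154) (nat_lit 1320) (.n (nat_lit 155) (nat_lit 5200) (.p (nat_lit 156) (nat_lit 416) (.n (nat_lit 157) (nat_lit 2880) (.n (nat_lit 158) (nat_lit 3924) (.p (nat_lit 159) (nat_lit 8148) (.n (nat_lit 160) (nat_lit 3188) (.p (nat_lit 161) (nat_lit 1308) (.p (nat_lit 162) (nat_lit 384) (.n (nat_lit 163) (nat_lit 1128) (.n (nat_lit 164) (nat_lit 488) (.p (nat_lit 165) (nat_lit 696) (.p (nat_lit 166) (nat_lit 2440) (.n (nat_lit 167) (nat_lit 1768) (.n (nat_lit 168) (nat_lit 1464) (.n (nat_lit 169) (nat_lit 480) (.p (nat_lit 170) (nat_lit 816) (.p (nat_lit 171) (nat_lit 480) (.p (nat_lit 172) (nat_lit 480) (.n (nat_lit 173) (nat_lit 576) (.p (nat_lit 174) (nat_lit 576) (.n (nat_lit 175) (nat_lit 576) (.p (nat_lit 176) (nat_lit 168) (.n (nat_lit 177) (nat_lit 336) (.p (nat_lit 178) (nat_lit 816) (.n (nat_lit 179) (nat_lit 816) (.p (nat_lit 180) (nat_lit 336) .z))))))))))))))))))))))))))))))))))))) (.ct dP8_c292 (nat_lit 221184) (nat_lit 12) (.s true (nat_lit 496) (nat_lit 6) (nat_lit 5) (nat_lit 2) (nat_lit 6) false (nat_lit 1) true (nat_lit 7) true (nat_lit 7) true (nat_lit 8) true (nat_lit 11) (.s true (nat_lit 23) (nat_lit 7) (nat_lit 0) (nat_lit 4) (nat_lit 7) true (nat_lit 2) true (nat_lit 6) true (nat_lit 6) true (nat_lit 13) true (nat_lit 9) (.s false (nat_lit 9) (nat_lit 7) (nat_lit 0) (nat_lit 7) (nat_lit 4) true (nat_lit 5) true (nat_lit 9) true (nat_lit 6) true (nat_lit 13) true (nat_lit 6) (.s false (nat_lit 80) (nat_lit 7) (nat_lit 1) (nat_lit 3) (nat_lit 7) true (nat_lit 1) true (nat_lit 6) true (nat_lit 6) true (nat_lit 12) true (nat_lit 10) (.s true (nat_lit 12) (nat_lit 7) (nat_lit 1) (nat_lit 7) (nat_lit 3) true (nat_lit 5) true (nat_lit 10) true (nat_lit 6) true (nat_lit 12) true (nat_lit 6) (.s false (nat_lit 594) (nat_lit 7) (nat_lit 5) (nat_lit 4) (nat_lit 2) true (nat_lit 2) true (nat_lit 11) true (nat_lit 6) true (nat_lit 8) true (nat_lit 9) (.s false (nat_lit 134) (nat_lit 9) (nat_lit 2) (nat_lit 2) (nat_lit 7) true (nat_lit 0) true (nat_lit 6) true (nat_lit 5) true (nat_lit 11) true (nat_lit 11) (.s false (nat_lit 192) (nat_lit 9) (nat_lit 2) (nat_lit 7) (nat_lit 2) true (nat_lit 6) true (nat_lit 11) true (nat_lit 5) true (nat_lit 11) true (nat_lit 6) (.s true (nat_lit 180) (nat_lit 10) (nat_lit 2) (nat_lit 1) (nat_lit 7) true (nat_lit 0) true (nat_lit 6) true (nat_lit 4) true (nat_lit 11) true (nat_lit 12) (.s false (nat_lit 208) (nat_lit 10) (nat_lit 2) (nat_lit 2) (nat_lit 6) true (nat_lit 1) true (nat_lit 7) true (nat_lit 4) true (nat_lit 11) true (nat_lit 11) (.s true (nat_lit 232) (nat_lit 10) (nat_lit 2) (nat_lit 6) (nat_lit 2) true (nat_lit 6) true (nat_lit 11) true (nat_lit 4) true (nat_lit 11) true (nat_lit 7) (.s false (nat_lit 536) (nat_lit 11) (nat_lit 2) (nat_lit 6) (nat_lit 2) true (nat_lit 6) true (nat_lit 11) true (nat_lit 4) true (nat_lit 11) true (nat_lit 7) (.s true (nat_lit 80) (nat_lit 10) (nat_lit 6) (nat_lit 2) (nat_lit 2) true (nat_lit 1) true (nat_lit 11) true (nat_lit 4) true (nat_lit 7) true (nat_lit 11) (.s false (nat_lit 536) (nat_lit 11) (nat_lit 6) (nat_lit 2) (nat_lit 2) true (nat_lit 1) true (nat_lit 11) true (nat_lit 4) true (nat_lit 7) true (nat_lit 11) dP8_i8))))))))))))))) .leaf)) (nat_lit 121858) (nat_lit 397) (.p (nat_lit 191) (nat_lit 576) .z) .df (.nd (.nd .leaf (nat_lit 122881) (nat_lit 300) (.n (nat_lit 144) (nat_lit 1116) (.p (nat_lit 145) (nat_lit 12960) (.p (nat_lit 146) (nat_lit 11556) (.p (nat_lit 147) (nat_lit 6480) (.n (nat_lit 148) (nat_lit 14184) (.n (nat_lit 149) (nat_lit 4536) (.n (nat_lit 150) (nat_lit 5760) (.p (nat_lit 151) (nat_lit 1908) (.p (nat_lit 152) (nat_lit 1548) (.n (nat_lit 153) (nat_lit 14724) (.p (nat_lit 154) (nat_lit 2268) (.n (nat_lit 155) (nat_lit 11448) (.p (nat_lit 156) (nat_lit 2448) (.n (nat_lit 157) (nat_lit 5472) (.n (nat_lit 158) (nat_lit 8046) (.p (nat_lit 159) (nat_lit 13230) (.n (nat_lit 160) (nat_lit 6174) (.p (nat_lit 161) (nat_lit 2682) (.p (nat_lit 162) (nat_lit 1440) (.n (nat_lit 163) (nat_lit 540) (.p (nat_lit 164) (nat_lit 756) (.p (nat_lit 165) (nat_lit 4212) (.p (nat_lit 166) (nat_lit 5868) (.n (nat_lit 167) (nat_lit 4284) (.n (nat_lit 168) (nat_lit 3636) (.p (nat_lit 169) (nat_lit 1584) (.n (nat_lit 170) (nat_lit 792) (.n (nat_lit 171) (nat_lit 2160) (.n (nat_lit 172) (nat_lit 1584) (.p (nat_lit 176) (nat_lit 684) (.n (nat_lit 177) (nat_lit 792) (.p (nat_lit 178) (nat_lit 1944) (.n (nat_lit 179) (nat_lit 1944) (.p (nat_lit 180) (nat_lit 792) .z)))))))))))))))))))))))))))))))))) (.ct dP8_c292 (nat_lit 9216) (nat_lit 12) (.s false (nat_lit 15) (nat_lit 7) (nat_lit 0) (nat_lit 4) (nat_lit 7) true (nat_lit 2) true (nat_lit 6) true (nat_lit 6) true (nat_lit 13) true (nat_lit 9) (.s false (nat_lit 16) (nat_lit 7) (nat_lit 0) (nat_lit 7) (nat_lit 4) true (nat_lit 5) true (nat_lit 9) true (nat_lit 6) true (nat_lit 13) true (nat_lit 6) (.s true (nat_lit 58) (nat_lit 7) (nat_lit 1) (nat_lit 3) (nat_lit 7) true (nat_lit 1) true (nat_lit 6) true (nat_lit 6) true (nat_lit 12) true (nat_lit 10) (.s true (nat_lit 20) (nat_lit 7) (nat_lit 1) (nat_lit 7) (nat_lit 3) true (nat_lit 5) true (nat_lit 10) true (nat_lit 6) true (nat_lit 12) true (nat_lit 6) (.s false (nat_lit 4) (nat_lit 7) (nat_lit 5) (nat_lit 4) (nat_lit 2) true (nat_lit 2) true (nat_lit 11) true (nat_lit 6) true (nat_lit 8) true (nat_lit 9) (.s false (nat_lit 32) (nat_lit 7) (nat_lit 6) (nat_lit 2) (nat_lit 3) false (nat_lit 0) true (nat_lit 10) true (nat_lit 6) true (nat_lit 7) true (nat_lit 11) (.s true (nat_lit 32) (nat_lit 8) (nat_lit 2) (nat_lit 2) (nat_lit 7) true (nat_lit 0) true (nat_lit 6) true (nat_lit 5) true (nat_lit 11) true (nat_lit 11) (.s false (nat_lit 8) (nat_lit 9) (nat_lit 2) (nat_lit 2) (nat_lit 7) true (nat_lit 0) true (nat_lit 6) true (nat_lit 5) true (nat_lit 11) true (nat_lit 11) (.s false (nat_lit 36) (nat_lit 10) (nat_lit 2) (nat_lit 1) (nat_lit 7) true (nat_lit 0) true (nat_lit 6) true (nat_lit 4) true (nat_lit 11) true (nat_lit 12) (.s true (nat_lit 32) (nat_lit 10) (nat_lit 2) (nat_lit 2) (nat_lit 6) true (nat_lit 1) true (nat_lit 7) true (nat_lit 4) true (nat_lit 11) true (nat_lit 11) (.s false (nat_lit 48) (nat_lit 10) (nat_lit 2) (nat_lit 6) (nat_lit 2) true (nat_lit 6) true (nat_lit 11) true (nat_lit 4) true (nat_lit 11) true (nat_lit 7) (.s true (nat_lit 16) (nat_lit 11) (nat_lit 2) (nat_lit 6) (nat_lit 2) true (nat_lit 6) true (nat_lit 11) true (nat_lit 4) true (nat_lit 11) true (nat_lit 7) (.s false (nat_lit 48) (nat_lit 10) (nat_lit 6) (nat_lit 2) (nat_lit 2) true (nat_lit 1) true (nat_lit 11) true (nat_lit 4) true (nat_lit 7) true (nat_lit 11) (.s true (nat_lit 16) (nat_lit 11) (nat_lit 6) (nat_lit 2) (nat_lit 2) true (nat_lit 1) true (nat_lit 11) true (nat_lit 4) true (nat_lit 7) true (nat_lit 11) (.s true (nat_lit 52) (nat_lit 10) (nat_lit 7) (nat_lit 2) (nat_lit 1) true (nat_lit 1) true (nat_lit 12) true (nat_lit 4) true (nat_lit 6) true (nat_lit 11) (.s false (nat_lit 8) (nat_lit 11) (nat_lit 7) (nat_lit 2) (nat_lit 1) true (nat_lit 1) true (nat_lit 12) true (nat_lit 4) true (nat_lit 6) true (nat_lit 11) (.s true (nat_lit 6) (nat_lit 13) (nat_lit 0) (nat_lit 2) (nat_lit 7) true (nat_lit 2) true (nat_lit 6) true (nat_lit 3) true (nat_lit 13) true (nat_lit 11) (.s false (nat_lit 14) (nat_lit 13) (nat_lit 2) (nat_lit 0) (nat_lit 7) true (nat_lit 0) true (nat_lit 6) true (nat_lit 3) true (nat_lit 11) true (nat_lit 13) (.s false (nat_lit 20) (nat_lit 13) (nat_lit 2) (nat_lit 2) (nat_lit 5) true (nat_lit 2) true (nat_lit 8) true (nat_lit 3) true (nat_lit 11) true (nat_lit 11) (.s true (nat_lit 12) (nat_lit 13) (nat_lit 5) (nat_lit 2) (nat_lit 2) true (nat_lit 2) true (nat_lit 11) true (nat_lit 3) true (nat_lit 8) true (nat_lit 11) (.s false (nat_lit 2) (nat_lit 16) (nat_lit 1) (nat_lit 1) (nat_lit 7) true (nat_lit 1) true (nat_lit 6) true (nat_lit 2) true (nat_lit 12) true (nat_lit 12) dP8_i11)))))))))))))))))))))) .leaf) (nat_lit 122882) (nat_lit 398) (.p (nat_lit 192) (nat_lit 576) .z) .df (.nd .leaf (nat_lit 123905) (nat_lit 294) (.p (nat_lit 176) (nat_lit 576) .z) .df .leaf))) (nat_lit 123906) (nat_lit 399) (.p (nat_lit 193) (nat_lit 576) .z) .df (.nd (.nd (.nd .leaf (nat_lit 125953) (nat_lit 316) (.n (nat_lit 144) (nat_lit 6260) (.p (nat_lit 145) (nat_lit 13760) (.p (nat_lit 146) (nat_lit 15212) (.p (nat_lit 147) (nat_lit 9072) (.n (nat_lit 148) (nat_lit 10264) (.n (nat_lit 149) (nat_lit 5032) (.n (nat_lit 150) (nat_lit 704) (.p (nat_lit 151) (nat_lit 1180) (.p (nat_lit 152) (nat_lit 1924) (.n (nat_lit 153) (nat_lit 12652) (.p (nat_lit 154) (nat_lit 2580) (.n (nat_lit 155) (nat_lit 8488) (.p (nat_lit 156) (nat_lit 80) (.n (nat_lit 157) (nat_lit 4896) (.n (nat_lit 158) (nat_lit 7002) (.p (nat_lit 159) (nat_lit 13530) (.n (nat_lit 160) (nat_lit 5066) (.p (nat_lit 161) (nat_lit 2334) (.p (nat_lit 162) (nat_lit 384) (.n (nat_lit 163) (nat_lit 2676) (.n (nat_lit 164) (nat_lit 1124) (.p (nat_lit 165) (nat_lit 2172) (.p (nat_lit 166) (nat_lit 4900) (.n (nat_lit 167) (nat_lit 3220) (.n (nat_lit 168) (nat_lit 3516) (.p (nat_lit 169) (nat_lit 1680) (.n (nat_lit 170) (nat_lit 840) (.n (nat_lit 171) (nat_lit 1680) (.n (nat_lit 172) (nat_lit 1680) (.p (nat_lit 176) (nat_lit 420) (.n (nat_lit 177) (nat_lit 840) (.p (nat_lit 178) (nat_lit 1032) (.n (nat_lit 179) (nat_lit 1032) (.p (nat_lit 180) (nat_lit 840) .z)))))))))))))))))))))))))))))))))) (.ct dP8_c292 (nat_lit 1152) (nat_lit 12) (.s false (nat_lit 1) (nat_lit 10) (nat_lit 2) (nat_lit 6) (nat_lit 2) true (nat_lit 6) true (nat_lit 11) true (nat_lit 4) true (nat_lit 11) true (nat_lit 7) (.s false (nat_lit 1) (nat_lit 10) (nat_lit 6) (nat_lit 2) (nat_lit 2) true (nat_lit 1) true (nat_lit 11) true (nat_lit 4) true (nat_lit 7) true (nat_lit 11) (.s false (nat_lit 2) (nat_lit 15) (nat_lit 1) (nat_lit 6) (nat_lit 2) true (nat_lit 7) true (nat_lit 11) true (nat_lit 2) true (nat_lit 12) true (nat_lit 7) (.s true (nat_lit 2) (nat_lit 15) (nat_lit 2) (nat_lit 1) (nat_lit 6) true (nat_lit 1) true (nat_lit 7) true (nat_lit 2) true (nat_lit 11) true (nat_lit 12) (.s true (nat_lit 2) (nat_lit 15) (nat_lit 2) (nat_lit 6) (nat_lit 1) true (nat_lit 7) true (nat_lit 12) true (nat_lit 2) true (nat_lit 11) true (nat_lit 7) dP8_i48)))))) .leaf) (nat_lit 125954) (nat_lit 400) (.p (nat_lit 194) (nat_lit 576) .z) .df (.nd .leaf (nat_lit 126976) (nat_lit 338) (.p (nat_lit 144) (nat_lit 5264) (.n (nat_lit 145) (nat_lit 3872) (.n (nat_lit 146) (nat_lit 5072) (.n (nat_lit 147) (nat_lit 4032) (.n (nat_lit 148) (nat_lit 1088) (.p (nat_lit 149) (nat_lit 1312) (.n (nat_lit 150) (nat_lit 4288) (.n (nat_lit 151) (nat_lit 1168) (.p (nat_lit 152) (nat_lit 176) (.p (nat_lit 153) (nat_lit 112) (.n (nat_lit 154) (nat_lit 816) (.n (nat_lit 155) (nat_lit 1568) (.p (nat_lit 156) (nat_lit 1888) (.p (nat_lit 158) (nat_lit 648) (.n (nat_lit 159) (nat_lit 3144) (.p (nat_lit 160) (nat_lit 488) (.n (nat_lit 161) (nat_lit 408) (.p (nat_lit 162) (nat_lit 480) (.p (nat_lit 163) (nat_lit 1488) (.p (nat_lit 164) (nat_lit 1712) (.p (nat_lit 165) (nat_lit 3984) (.p (nat_lit 166) (nat_lit 944) (.n (nat_lit 167) (nat_lit 752) (.n (nat_lit 168) (nat_lit 912) (.p (nat_lit 169) (nat_lit 192) (.n (nat_lit 170) (nat_lit 672) (.n (nat_lit 171) (nat_lit 1344) (.n (nat_lit 172) (nat_lit 192) (.p (nat_lit 175) (nat_lit 576) (.p (nat_lit 176) (nat_lit 624) (.n (nat_lit 177) (nat_lit 96) (.p (nat_lit 178) (nat_lit 480) (.p (nat_lit 179) (nat_lit 96) (.p (nat_lit 180) (nat_lit 672) .z)))))))))))))))))))))))))))))))))) (.ct dP8_c292 (nat_lit 576) (nat_lit 13) (.s false (nat_lit 1) (nat_lit 34) (nat_lit 0) (nat_lit 2) (nat_lit 2) true (nat_lit 8) true (nat_lit 11) false (nat_lit 2) true (nat_lit 13) true (nat_lit 11) (.s false (nat_lit 1) (nat_lit 34) (nat_lit 2) (nat_lit 0) (nat_lit 2) true (nat_lit 6) true (nat_lit 11) false (nat_lit 2) true (nat_lit 11) true (nat_lit 13) (.e false (nat_lit 576) (nat_lit 69) (nat_lit 5) (nat_lit 8) (.e true (nat_lit 1152) (nat_lit 82) (nat_lit 2) (nat_lit 11) (.e false (nat_lit 2880) (nat_lit 83) (nat_lit 2) (nat_lit 11) (.e false (nat_lit 3456) (nat_lit 84) (nat_lit 2) (nat_lit 11) dP8_i72))))))) .leaf)) (nat_lit 126978) (nat_lit 452) (.p (nat_lit 200) (nat_lit 576) (.p (nat_lit 201) (nat_lit 576) (.n (nat_lit 202) (nat_lit 1152) (.n (nat_lit 204) (nat_lit 576) (.p (nat_lit 205) (nat_lit 576) .z))))) (.ct dP8_c37 (nat_lit 1152) (nat_lit 6) (.s false (nat_lit 1) (nat_lit 7) (nat_lit 1) (nat_lit 7) (nat_lit 6) true (nat_lit 2) true (nat_lit 4) true (nat_lit 3) true (nat_lit 7) true (nat_lit 3) (.s true (nat_lit 1) (nat_lit 18) (nat_lit 7) (nat_lit 1) (nat_lit 2) true (nat_lit 0) true (nat_lit 6) true (nat_lit 1) true (nat_lit 3) true (nat_lit 7) (.s false (nat_lit 1) (nat_lit 19) (nat_lit 1) (nat_lit 7) (nat_lit 1) true (nat_lit 5) true (nat_lit 7) true (nat_lit 0) true (nat_lit 7) true (nat_lit 3) (.s true (nat_lit 1) (nat_lit 39) (nat_lit 1) (nat_lit 2) (nat_lit 2) true (nat_lit 4) true (nat_lit 6) false (nat_lit 1) true (nat_lit 7) true (nat_lit 6) (.s false (nat_lit 2) (nat_lit 40) (nat_lit 1) (nat_lit 2) (nat_lit 2) true (nat_lit 4) true (nat_lit 6) false (nat_lit 1) true (nat_lit 7) true (nat_lit 6) (.s false (nat_lit 1) (nat_lit 39) (nat_lit 2) (nat_lit 1) (nat_lit 2) true (nat_lit 3) true (nat_lit 6) false (nat_lit 1) true (nat_lit 6) true (nat_lit 7) (.s true (nat_lit 2) (nat_lit 40) (nat_lit 2) (nat_lit 1) (nat_lit 2) true (nat_lit 3) true (nat_lit 6) false (nat_lit 1) true (nat_lit 6) true (nat_lit 7) (.s true (nat_lit 1) (nat_lit 39) (nat_lit 2) (nat_lit 2) (nat_lit 1) true (nat_lit 4) true (nat_lit 7) false (nat_lit 1) true (nat_lit 6) true (nat_lit 6) (.e false (nat_lit 1152) (nat_lit 125) (nat_lit 2) (nat_lit 6) (.e true (nat_lit 2304) (nat_lit 129) (nat_lit 2) (nat_lit 6) (.e true (nat_lit 1152) (nat_lit 131) (nat_lit 2) (nat_lit 6) (.e false (nat_lit 1152) (nat_lit 132) (nat_lit 2) (nat_lit 6) (.e false (nat_lit 1152) (nat_lit 126) (nat_lit 2) (nat_lit 6) .nil)))))))))))))) (.nd (.nd .leaf (nat_lit 128000) (nat_lit 303) (.n (nat_lit 144) (nat_lit 1906) (.p (nat_lit 145) (nat_lit 2128) (.p (nat_lit 146) (nat_lit 2638) (.p (nat_lit 147) (nat_lit 2808) (.n (nat_lit 148) (nat_lit 1388) (.n (nat_lit 149) (nat_lit 68) (.p (nat_lit 150) (nat_lit 2240) (.n (nat_lit 151) (nat_lit 58) (.p (nat_lit 152) (nat_lit 890) (.n (nat_lit 153) (nat_lit 2078) (.p (nat_lit 154) (nat_lit 210) (.n (nat_lit 155) (nat_lit 932) (.n (nat_lit 156) (nat_lit 104) (.n (nat_lit 157) (nat_lit 1296) (.p (nat_lit 158) (nat_lit 567) (.p (nat_lit 159) (nat_lit 1833) (.n (nat_lit 160) (nat_lit 337) (.n (nat_lit 161) (nat_lit 381) (.n (nat_lit 162) (nat_lit 1104) (.n (nat_lit 163) (nat_lit 978) (.n (nat_lit 164) (nat_lit 922) (.p (nat_lit 165) (nat_lit 870) (.p (nat_lit 166) (nat_lit 650) (.n (nat_lit 167) (nat_lit 98) (.n (nat_lit 168) (nat_lit 678) (.p (nat_lit 169) (nat_lit 1128) (.n (nat_lit 170) (nat_lit 852) (.n (nat_lit 171) (nat_lit 840) (.n (nat_lit 172) (nat_lit 1128) (.n (nat_lit 175) (nat_lit 288) (.p (nat_lit 176) (nat_lit 138) (.n (nat_lit 177) (nat_lit 276) (.p (nat_lit 178) (nat_lit 372) (.p (nat_lit 179) (nat_lit 204) (.p (nat_lit 180) (nat_lit 852) .z))))))))))))))))))))))))))))))))))) (.ct dP8_c292 (nat_lit 2304) (nat_lit 13) (.s true (nat_lit 1) (nat_lit 6) (nat_lit 5) (nat_lit 2) (nat_lit 6) false (nat_lit 1) true (nat_lit 7) true (nat_lit 7) true (nat_lit 8) true (nat_lit 11) (.s true (nat_lit 3) (nat_lit 7) (nat_lit 0) (nat_lit 4) (nat_lit 7) true (nat_lit 2) true (nat_lit 6) true (nat_lit 6) true (nat_lit 13) true (nat_lit 9) (.s true (nat_lit 3) (nat_lit 7) (nat_lit 0) (nat_lit 7) (nat_lit 4) true (nat_lit 5) true (nat_lit 9) true (nat_lit 6) true (nat_lit 13) true (nat_lit 6) (.s false (nat_lit 14) (nat_lit 7) (nat_lit 1) (nat_lit 3) (nat_lit 7) true (nat_lit 1) true (nat_lit 6) true (nat_lit 6) true (nat_lit 12) true (nat_lit 10) (.s false (nat_lit 2) (nat_lit 7) (nat_lit 5) (nat_lit 4) (nat_lit 2) true (nat_lit 2) true (nat_lit 11) true (nat_lit 6) true (nat_lit 8) true (nat_lit 9) (.s true (nat_lit 4) (nat_lit 7) (nat_lit 6) (nat_lit 2) (nat_lit 3) false (nat_lit 0) true (nat_lit 10) true (nat_lit 6) true (nat_lit 7) true (nat_lit 11) (.s false (nat_lit 4) (nat_lit 8) (nat_lit 2) (nat_lit 2) (nat_lit 7) true (nat_lit 0) true (nat_lit 6) true (nat_lit 5) true (nat_lit 11) true (nat_lit 11) (.s false (nat_lit 2) (nat_lit 9) (nat_lit 2) (nat_lit 2) (nat_lit 7) true (nat_lit 0) true (nat_lit 6) true (nat_lit 5) true (nat_lit 11) true (nat_lit 11) (.s true (nat_lit 18) (nat_lit 10) (nat_lit 2) (nat_lit 1) (nat_lit 7) true (nat_lit 0) true (nat_lit 6) true (nat_lit 4) true (nat_lit 11) true (nat_lit 12) (.s true (nat_lit 8) (nat_lit 10) (nat_lit 2) (nat_lit 2) (nat_lit 6) true (nat_lit 1) true (nat_lit 7) true (nat_lit 4) true (nat_lit 11) true (nat_lit 11) (.s true (nat_lit 1) (nat_lit 12) (nat_lit 6) (nat_lit 2) (nat_lit 2) true (nat_lit 1) true (nat_lit 11) true (nat_lit 4) true (nat_lit 7) true (nat_lit 11) (.s false (nat_lit 10) (nat_lit 10) (nat_lit 7) (nat_lit 2) (nat_lit 1) true (nat_lit 1) true (nat_lit 12) true (nat_lit 4) true (nat_lit 6) true (nat_lit 11) (.s false (nat_lit 4) (nat_lit 13) (nat_lit 0) (nat_lit 2) (nat_lit 7) true (nat_lit 2) true (nat_lit 6) true (nat_lit 3) true (nat_lit 13) true (nat_lit 11) (.s true (nat_lit 4) (nat_lit 13) (nat_lit 2) (nat_lit 0) (nat_lit 7) true (nat_lit 0) true (nat_lit 6) true (nat_lit 3) true (nat_lit 11) true (nat_lit 13) (.s true (nat_lit 8) (nat_lit 13) (nat_lit 2) (nat_lit 2) (nat_lit 5) true (nat_lit 2) true (nat_lit 8) true (nat_lit 3) true (nat_lit 11) true (nat_lit 11) dP8_i20)))))))))))))))) .leaf) (nat_lit 128002) (nat_lit 440) (.p (nat_lit 200) (nat_lit 576) .z) .df .leaf)))) (nat_lit 129024) (nat_lit 304) (.n (nat_lit 144) (nat_lit 592) (.p (nat_lit 145) (nat_lit 4432) (.p (nat_lit 146) (nat_lit 3808) (.p (nat_lit 147) (nat_lit 2304) (.n (nat_lit 148) (nat_lit 5456) (.n (nat_lit 149) (nat_lit 1760) (.n (nat_lit 150) (nat_lit 2080) (.p (nat_lit 151) (nat_lit 608) (.p (nat_lit 152) (nat_lit 1232) (.n (nat_lit 153) (nat_lit 5552) (.p (nat_lit 154) (nat_lit 768) (.n (nat_lit 155) (nat_lit 4352) (.p (nat_lit 156) (nat_lit 976) (.n (nat_lit 157) (nat_lit 2016) (.n (nat_lit 158) (nat_lit 2664) (.p (nat_lit 159) (nat_lit 3336) (.n (nat_lit 160) (nat_lit 1912) (.p (nat_lit 161) (nat_lit 888) (.p (nat_lit 162) (nat_lit 48) (.n (nat_lit 163) (nat_lit 528) (.p (nat_lit 164) (nat_lit 176) (.p (nat_lit 165) (nat_lit 3120) (.p (nat_lit 166) (nat_lit 2864) (.n (nat_lit 167) (nat_lit 2096) (.n (nat_lit 168) (nat_lit 2064) (.p (nat_lit 169) (nat_lit 1344) (.n (nat_lit 170) (nat_lit 960) (.n (nat_lit 171) (nat_lit 1632) (.n (nat_lit 172) (nat_lit 1344) (.p (nat_lit 175) (nat_lit 288) (.p (nat_lit 176) (nat_lit 480) (.n (nat_lit 177) (nat_lit 384) (.p (nat_lit 178) (nat_lit 624) (.n (nat_lit 179) (nat_lit 48) (.p (nat_lit 180) (nat_lit 960) .z))))))))))))))))))))))))))))))))))) (.ct dP8_c292 (nat_lit 4608) (nat_lit 13) (.s true (nat_lit 1) (nat_lit 7) (nat_lit 0) (nat_lit 4) (nat_lit 7) true (nat_lit 2) true (nat_lit 6) true (nat_lit 6) true (nat_lit 13) true (nat_lit 9) (.s true (nat_lit 1) (nat_lit 7) (nat_lit 0) (nat_lit 7) (nat_lit 4) true (nat_lit 5) true (nat_lit 9) true (nat_lit 6) true (nat_lit 13) true (nat_lit 6) (.s false (nat_lit 5) (nat_lit 7) (nat_lit 1) (nat_lit 3) (nat_lit 7) true (nat_lit 1) true (nat_lit 6) true (nat_lit 6) true (nat_lit 12) true (nat_lit 10) (.s false (nat_lit 2) (nat_lit 7) (nat_lit 1) (nat_lit 7) (nat_lit 3) true (nat_lit 5) true (nat_lit 10) true (nat_lit 6) true (nat_lit 12) true (nat_lit 6) (.s true (nat_lit 2) (nat_lit 7) (nat_lit 5) (nat_lit 4) (nat_lit 2) true (nat_lit 2) true (nat_lit 11) true (nat_lit 6) true (nat_lit 8) true (nat_lit 9) (.s true (nat_lit 4) (nat_lit 7) (nat_lit 6) (nat_lit 2) (nat_lit 3) false (nat_lit 0) true (nat_lit 10) true (nat_lit 6) true (nat_lit 7) true (nat_lit 11) dP8_i23))))))) (.nd (.nd (.nd (.nd (.nd .leaf (nat_lit 129026) (nat_lit 441) (.p (nat_lit 201) (nat_lit 576) .z) .df .leaf) (nat_lit 130048) (nat_lit 319) (.n (nat_lit 144) (nat_lit 7644) (.p (nat_lit 145) (nat_lit 25824) (.p (nat_lit 146) (nat_lit 24996) (.p (nat_lit 147) (nat_lit 16272) (.n (nat_lit 148) (nat_lit 24360) (.n (nat_lit 149) (nat_lit 7800) (.n (nat_lit 150) (nat_lit 6528) (.p (nat_lit 151) (nat_lit 4020) (.p (nat_lit 152) (nat_lit 4812) (.n (nat_lit 153) (nat_lit 26628) (.p (nat_lit 154) (nat_lit 3996) (.n (nat_lit 155) (nat_lit 19896) (.p (nat_lit 156) (nat_lit 2640) (.n (nat_lit 157) (nat_lit 10080) (.n (nat_lit 158) (nat_lit 12942) (.p (nat_lit 159) (nat_lit 23886) (.n (nat_lit 160) (nat_lit 10110) (.p (nat_lit 161) (nat_lit 3546) (.p (nat_lit 162) (nat_lit 288) (.n (nat_lit 163) (nat_lit 2844) (.n (nat_lit 164) (nat_lit 1164) (.p (nat_lit 165) (nat_lit 6516) (.p (nat_lit 166) (nat_lit 10284) (.n (nat_lit 167) (nat_lit 7548) (.n (nat_lit 168) (nat_lit 6516) (.p (nat_lit 169) (nat_lit 5040) (.n (nat_lit 170) (nat_lit 3672) (.n (nat_lit 171) (nat_lit 5616) (.n (nat_lit 172) (nat_lit 5040) (.p (nat_lit 173) (nat_lit 576) (.p (nat_lit 175) (nat_lit 576) (.p (nat_lit 176) (nat_lit 1260) (.n (nat_lit 177) (nat_lit 792) (.p (nat_lit 178) (nat_lit 3672) (.n (nat_lit 179) (nat_lit 3096) (.p (nat_lit 180) (nat_lit 1368) .z)))))))))))))))))))))))))))))))))))) (.ct dP8_c292 (nat_lit 576) (nat_lit 13) (.s true (nat_lit 1) (nat_lit 6) (nat_lit 5) (nat_lit 2) (nat_lit 6) false (nat_lit 1) true (nat_lit 7) true (nat_lit 7) true (nat_lit 8) true (nat_lit 11) (.s false (nat_lit 2) (nat_lit 10) (nat_lit 2) (nat_lit 2) (nat_lit 6) true (nat_lit 1) true (nat_lit 7) true (nat_lit 4) true (nat_lit 11) true (nat_lit 11) (.s true (nat_lit 1) (nat_lit 10) (nat_lit 2) (nat_lit 6) (nat_lit 2) true (nat_lit 6) true (nat_lit 11) true (nat_lit 4) true (nat_lit 11) true (nat_lit 7) (.s true (nat_lit 1) (nat_lit 10) (nat_lit 6) (nat_lit 2) (nat_lit 2) true (nat_lit 1) true (nat_lit 11) true (nat_lit 4) true (nat_lit 7) true (nat_lit 11) (.s false (nat_lit 1) (nat_lit 12) (nat_lit 6) (nat_lit 2) (nat_lit 2) true (nat_lit 1) true (nat_lit 11) true (nat_lit 4) true (nat_lit 7) true (nat_lit 11) (.s false (nat_lit 2) (nat_lit 10) (nat_lit 7) (nat_lit 2) (nat_lit 1) true (nat_lit 1) true (nat_lit 12) true (nat_lit 4) true (nat_lit 6) true (nat_lit 11) (.s true (nat_lit 2) (nat_lit 15) (nat_lit 2) (nat_lit 1) (nat_lit 6) true (nat_lit 1) true (nat_lit 7) true (nat_lit 2) true (nat_lit 11) true (nat_lit 12) (.s false (nat_lit 2) (nat_lit 16) (nat_lit 2) (nat_lit 1) (nat_lit 6) true (nat_lit 1) true (nat_lit 7) true (nat_lit 2) true (nat_lit 11) true (nat_lit 12) (.s true (nat_lit 1) (nat_lit 17) (nat_lit 0) (nat_lit 2) (nat_lit 6) true (nat_lit 4) true (nat_lit 7) true (nat_lit 1) true (nat_lit 13) true (nat_lit 11) (.s false (nat_lit 1) (nat_lit 17) (nat_lit 0) (nat_lit 6) (nat_lit 2) true (nat_lit 8) true (nat_lit 11) true (nat_lit 1) true (nat_lit 13) true (nat_lit 7) (.s true (nat_lit 2) (nat_lit 17) (nat_lit 6) (nat_lit 0) (nat_lit 2) true (nat_lit 1) true (nat_lit 11) true (nat_lit 1) true (nat_lit 7) true (nat_lit 13) (.s false (nat_lit 1) (nat_lit 26) (nat_lit 1) (nat_lit 2) (nat_lit 2) true (nat_lit 7) true (nat_lit 11) false (nat_lit 1) true (nat_lit 12) true (nat_lit 11) (.s false (nat_lit 2) (nat_lit 29) (nat_lit 1) (nat_lit 2) (nat_lit 2) true (nat_lit 7) true (nat_lit 11) false (nat_lit 1) true (nat_lit 12) true (nat_lit 11) dP8_i52)))))))))))))) (.nd .leaf (nat_lit 130050) (nat_lit 466) (.p (nat_lit 200) (nat_lit 1440) (.n (nat_lit 201) (nat_lit 1440) (.n (nat_lit 202) (nat_lit 288) (.p (nat_lit 203) (nat_lit 288) (.p (nat_lit 204) (nat_lit 288) (.n (nat_lit 205) (nat_lit 1440) (.p (nat_lit 206) (nat_lit 2304) (.n (nat_lit 207) (nat_lit 2304) (.n (nat_lit 208) (nat_lit 864) .z))))))))) (.ct dP8_c37 (nat_lit 576) (nat_lit 6) (.s true (nat_lit 1) (nat_lit 39) (nat_lit 1) (nat_lit 2) (nat_lit 2) true (nat_lit 4) true (nat_lit 6) false (nat_lit 1) true (nat_lit 7) true (nat_lit 6) (.e true (nat_lit 576) (nat_lit 78) (nat_lit 6) (nat_lit 4) (.e false (nat_lit 576) (nat_lit 39) (nat_lit 17) (nat_lit 1) (.e false (nat_lit 576) (nat_lit 142) (nat_lit 1) (nat_lit 7) (.e false (nat_lit 576) (nat_lit 130) (nat_lit 2) (nat_lit 6) .nil)))))) .leaf)) (nat_lit 131072) (nat_lit 309) (.n (nat_lit 144) (nat_lit 10106) (.p (nat_lit 145) (nat_lit 19136) (.p (nat_lit 146) (nat_lit 20822) (.p (nat_lit 147) (nat_lit 14616) (.n (nat_lit 148) (nat_lit 13996) (.n (nat_lit 149) (nat_lit 4948) (.p (nat_lit 150) (nat_lit 1120) (.p (nat_lit 151) (nat_lit 2734) (.p (nat_lit 152) (nat_lit 3298) (.n (nat_lit 153) (nat_lit 17302) (.p (nat_lit 154) (nat_lit 3498) (.n (nat_lit 155) (nat_lit 10708) (.n (nat_lit 156) (nat_lit 664) (.n (nat_lit 157) (nat_lit 6192) (.n (nat_lit 158) (nat_lit 8109) (.p (nat_lit 159) (nat_lit 17517) (.n (nat_lit 160) (nat_lit 6725) (.p (nat_lit 161) (nat_lit 2127) (.n (nat_lit 162) (nat_lit 768) (.n (nat_lit 163) (nat_lit 3738) (.n (nat_lit 164) (nat_lit 2882) (.p (nat_lit 165) (nat_lit 2046) (.p (nat_lit 166) (nat_lit 6418) (.n (nat_lit 167) (nat_lit 4234) (.n (nat_lit 168) (nat_lit 4254) (.p (nat_lit 169) (nat_lit 3336) (.n (nat_lit 170) (nat_lit 1668) (.n (nat_lit 171) (nat_lit 2760) (.n (nat_lit 172) (nat_lit 3336) (.p (nat_lit 176) (nat_lit 546) (.n (nat_lit 177) (nat_lit 1092) (.p (nat_lit 178) (nat_lit 2292) (.n (nat_lit 179) (nat_lit 1716) (.p (nat_lit 180) (nat_lit 1668) .z)))))))))))))))))))))))))))))))))) (.ct dP8_c292 (nat_lit 2304) (nat_lit 13) (.s true (nat_lit 2) (nat_lit 7) (nat_lit 0) (nat_lit 4) (nat_lit 7) true (nat_lit 2) true (nat_lit 6) true (nat_lit 6) true (nat_lit 13) true (nat_lit 9) (.s true (nat_lit 2) (nat_lit 7) (nat_lit 0) (nat_lit 7) (nat_lit 4) true (nat_lit 5) true (nat_lit 9) true (nat_lit 6) true (nat_lit 13) true (nat_lit 6) (.s false (nat_lit 4) (nat_lit 7) (nat_lit 1) (nat_lit 3) (nat_lit 7) true (nat_lit 1) true (nat_lit 6) true (nat_lit 6) true (nat_lit 12) true (nat_lit 10) (.s false (nat_lit 4) (nat_lit 10) (nat_lit 2) (nat_lit 2) (nat_lit 6) true (nat_lit 1) true (nat_lit 7) true (nat_lit 4) true (nat_lit 11) true (nat_lit 11) (.s true (nat_lit 4) (nat_lit 10) (nat_lit 2) (nat_lit 6) (nat_lit 2) true (nat_lit 6) true (nat_lit 11) true (nat_lit 4) true (nat_lit 11) true (nat_lit 7) (.s true (nat_lit 4) (nat_lit 10) (nat_lit 6) (nat_lit 2) (nat_lit 2) true (nat_lit 1) true (nat_lit 11) true (nat_lit 4) true (nat_lit 7) true (nat_lit 11) (.s false (nat_lit 4) (nat_lit 10) (nat_lit 7) (nat_lit 2) (nat_lit 1) true (nat_lit 1) true (nat_lit 12) true (nat_lit 4) true (nat_lit 6) true (nat_lit 11) (.s false (nat_lit 4) (nat_lit 13) (nat_lit 0) (nat_lit 2) (nat_lit 7) true (nat_lit 2) true (nat_lit 6) true (nat_lit 3) true (nat_lit 13) true (nat_lit 11) (.s true (nat_lit 4) (nat_lit 13) (nat_lit 2) (nat_lit 0) (nat_lit 7) true (nat_lit 0) true (nat_lit 6) true (nat_lit 3) true (nat_lit 11) true (nat_lit 13) (.s true (nat_lit 8) (nat_lit 13) (nat_lit 2) (nat_lit 2) (nat_lit 5) true (nat_lit 2) true (nat_lit 8) true (nat_lit 3) true (nat_lit 11) true (nat_lit 11) (.s true (nat_lit 3) (nat_lit 16) (nat_lit 1) (nat_lit 1) (nat_lit 7) true (nat_lit 1) true (nat_lit 6) true (nat_lit 2) true (nat_lit 12) true (nat_lit 12) (.s false (nat_lit 2) (nat_lit 16) (nat_lit 1) (nat_lit 2) (nat_lit 6) true (nat_lit 3) true (nat_lit 7) true (nat_lit 2) true (nat_lit 12) true (nat_lit 11) (.s true (nat_lit 2) (nat_lit 16) (nat_lit 1) (nat_lit 7) (nat_lit 1) true (nat_lit 9) true (nat_lit 12) true (nat_lit 2) true (nat_lit 12) true (nat_lit 6) (.s false (nat_lit 2) (nat_lit 16) (nat_lit 2) (nat_lit 4) (nat_lit 2) true (nat_lit 6) true (nat_lit 11) true (nat_lit 2) true (nat_lit 11) true (nat_lit 9) (.s true (nat_lit 4) (nat_lit 18) (nat_lit 2) (nat_lit 2) (nat_lit 3) true (nat_lit 4) true (nat_lit 10) true (nat_lit 1) true (nat_lit 11) true (nat_lit 11) (.s true (nat_lit 4) (nat_lit 18) (nat_lit 2) (nat_lit 3) (nat_lit 2) true (nat_lit 6) true (nat_lit 11) true (nat_lit 1) true (nat_lit 11) true (nat_lit 10) (.s true (nat_lit 4) (nat_lit 25) (nat_lit 2) (nat_lit 2) (nat_lit 2) true (nat_lit 6) true (nat_lit 11) false (nat_lit 0) true (nat_lit 11) true (nat_lit 11) dP8_i35)))))))))))))))))) (.nd (.nd .leaf (nat_lit 131074) (nat_lit 455) (.p (nat_lit 200) (nat_lit 3456) (.n (nat_lit 201) (nat_lit 3456) (.n (nat_lit 202) (nat_lit 576) (.p (nat_lit 204) (nat_lit 576) (.n (nat_lit 205) (nat_lit 2880) (.p (nat_lit 206) (nat_lit 4608) (.n (nat_lit 207) (nat_lit 4608) (.n (nat_lit 208) (nat_lit 2304) .z)))))))) (.ct dP8_c37 (nat_lit 576) (nat_lit 6) (.s true (nat_lit 2) (nat_lit 14) (nat_lit 2) (nat_lit 2) (nat_lit 7) true (nat_lit 0) true (nat_lit 3) true (nat_lit 2) true (nat_lit 6) true (nat_lit 6) (.s false (nat_lit 1) (nat_lit 19) (nat_lit 1) (nat_lit 6) (nat_lit 2) true (nat_lit 4) true (nat_lit 6) true (nat_lit 0) true (nat_lit 7) true (nat_lit 4) (.s false (nat_lit 1) (nat_lit 19) (nat_lit 2) (nat_lit 1) (nat_lit 6) true (nat_lit 1) true (nat_lit 4) true (nat_lit 0) true (nat_lit 6) true (nat_lit 7) (.s true (nat_lit 1) (nat_lit 19) (nat_lit 6) (nat_lit 1) (nat_lit 2) true (nat_lit 1) true (nat_lit 6) true (nat_lit 0) true (nat_lit 4) true (nat_lit 7) (.e true (nat_lit 1152) (nat_lit 68) (nat_lit 7) (nat_lit 3) (.e true (nat_lit 576) (nat_lit 129) (nat_lit 2) (nat_lit 6) (.e false (nat_lit 1152) (nat_lit 132) (nat_lit 2) (nat_lit 6) (.e false (nat_lit 1152) (nat_lit 80) (nat_lit 6) (nat_lit 4) (.e false (nat_lit 576) (nat_lit 125) (nat_lit 2) (nat_lit 6) (.e false (nat_lit 576) (nat_lit 126) (nat_lit 2) (nat_lit 6) (.e true (nat_lit 576) (nat_lit 124) (nat_lit 2) (nat_lit 6) .nil)))))))))))) .leaf) (nat_lit 132096) (nat_lit 307) (.n (nat_lit 144) (nat_lit 596) (.n (nat_lit 145) (nat_lit 3136) (.n (nat_lit 146) (nat_lit 3124) (.n (nat_lit 147) (nat_lit 720) (.p (nat_lit 148) (nat_lit 4520) (.p (nat_lit 149) (nat_lit 1688) (.p (nat_lit 150) (nat_lit 2368) (.n (nat_lit 151) (nat_lit 68) (.n (nat_lit 152) (nat_lit 476) (.p (nat_lit 153) (nat_lit 4724) (.n (nat_lit 154) (nat_lit 588) (.p (nat_lit 155) (nat_lit 3992) (.n (nat_lit 156) (nat_lit 688) (.p (nat_lit 157) (nat_lit 864) (.p (nat_lit 158) (nat_lit 3222) (.n (nat_lit 159) (nat_lit 3606) (.p (nat_lit 160) (nat_lit 1894) (.n (nat_lit 161) (nat_lit 1266) (.n (nat_lit 162) (nat_lit 1344) (.n (nat_lit 163) (nat_lit 84) (.n (nat_lit 164) (nat_lit 644) (.n (nat_lit 165) (nat_lit 1572) (.n (nat_lit 166) (nat_lit 1532) (.p (nat_lit 167) (nat_lit 908) (.p (nat_lit 168) (nat_lit 1380) (.n (nat_lit 169) (nat_lit 624) (.p (nat_lit 170) (nat_lit 312) (.p (nat_lit 171) (nat_lit 1200) (.p (nat_lit 172) (nat_lit 624) (.n (nat_lit 175) (nat_lit 576) (.n (nat_lit 176) (nat_lit 444) (.p (nat_lit 177) (nat_lit 312) (.n (nat_lit 178) (nat_lit 120) (.p (nat_lit 179) (nat_lit 120) (.n (nat_lit 180) (nat_lit 312) .z))))))))))))))))))))))))))))))))))) (.ct dP8_c292 (nat_lit 2304) (nat_lit 13) (.s false (nat_lit 6) (nat_lit 7) (nat_lit 1) (nat_lit 3) (nat_lit 7) true (nat_lit 1) true (nat_lit 6) true (nat_lit 6) true (nat_lit 12) true (nat_lit 10) dP8_i30)) (.nd .leaf (nat_lit 132098) (nat_lit 442) (.p (nat_lit 202) (nat_lit 576) .z) .df .leaf))) (nat_lit 133120) (nat_lit 324) (.n (nat_lit 144) (nat_lit 9108) (.p (nat_lit 145) (nat_lit 6336) (.p (nat_lit 146) (nat_lit 10188) (.p (nat_lit 147) (nat_lit 7920) (.p (nat_lit 148) (nat_lit 936) (.n (nat_lit 149) (nat_lit 936) (.p (nat_lit 150) (nat_lit 7488) (.p (nat_lit 151) (nat_lit 1404) (.p (nat_lit 152) (nat_lit 1188) (.n (nat_lit 153) (nat_lit 3276) (.p (nat_lit 154) (nat_lit 756) (.n (nat_lit 155) (nat_lit 360) (.n (nat_lit 156) (nat_lit 3312) (.n (nat_lit 157) (nat_lit 288) (.n (nat_lit 158) (nat_lit 1386) (.p (nat_lit 159) (nat_lit 5994) (.n (nat_lit 160) (nat_lit 1242) (.p (nat_lit 161) (nat_lit 270) (.n (nat_lit 162) (nat_lit 1152) (.n (nat_lit 163) (nat_lit 3348) (.n (nat_lit 164) (nat_lit 3780) (.n (nat_lit 165) (nat_lit 3492) (.n (nat_lit 166) (nat_lit 828) (.p (nat_lit 167) (nat_lit 972) (.p (nat_lit 168) (nat_lit 612) (.n (nat_lit 169) (nat_lit 1008) (.p (nat_lit 170) (nat_lit 1656) (.p (nat_lit 171) (nat_lit 2160) (.p (nat_lit 172) (nat_lit 1008) (.n (nat_lit 173) (nat_lit 1152) (.p (nat_lit 174) (nat_lit 1152) (.n (nat_lit 175) (nat_lit 576) (.n (nat_lit 176) (nat_lit 828) (.n (nat_lit 177) (nat_lit 72) (.p (nat_lit 178) (nat_lit 72) (.p (nat_lit 179) (nat_lit 504) (.p (nat_lit 180) (nat_lit 648) .z))))))))))))))))))))))))))))))))))))) (.ct dP8_c292 (nat_lit 4608) (nat_lit 13) (.s true (nat_lit 1) (nat_lit 7) (nat_lit 0) (nat_lit 4) (nat_lit 7) true (nat_lit 2) true (nat_lit 6) true (nat_lit 6) true (nat_lit 13) true (nat_lit 9) (.s true (nat_lit 2) (nat_lit 7) (nat_lit 0) (nat_lit 7) (nat_lit 4) true (nat_lit 5) true (nat_lit 9) true (nat_lit 6) true (nat_lit 13) true (nat_lit 6) (.s false (nat_lit 4) (nat_lit 7) (nat_lit 1) (nat_lit 3) (nat_lit 7) true (nat_lit 1) true (nat_lit 6) true (nat_lit 6) true (nat_lit 12) true (nat_lit 10) (.s true (nat_lit 8) (nat_lit 10) (nat_lit 2) (nat_lit 1) (nat_lit 7) true (nat_lit 0) true (nat_lit 6) true (nat_lit 4) true (nat_lit 11) true (nat_lit 12) (.s true (nat_lit 8) (nat_lit 10) (nat_lit 2) (nat_lit 2) (nat_lit 6) true (nat_lit 1) true (nat_lit 7) true (nat_lit 4) true (nat_lit 11) true (nat_lit 11) (.s false (nat_lit 8) (nat_lit 10) (nat_lit 2) (nat_lit 6) (nat_lit 2) true (nat_lit 6) true (nat_lit 11) true (nat_lit 4) true (nat_lit 11) true (nat_lit 7) (.s false (nat_lit 8) (nat_lit 10) (nat_lit 6) (nat_lit 2) (nat_lit 2) true (nat_lit 1) true (nat_lit 11) true (nat_lit 4) true (nat_lit 7) true (nat_lit 11) (.s true (nat_lit 2) (nat_lit 13) (nat_lit 0) (nat_lit 2) (nat_lit 7) true (nat_lit 2) true (nat_lit 6) true (nat_lit 3) true (nat_lit 13) true (nat_lit 11) (.s false (nat_lit 2) (nat_lit 13) (nat_lit 2) (nat_lit 2) (nat_lit 5) true (nat_lit 2) true (nat_lit 8) true (nat_lit 3) true (nat_lit 11) true (nat_lit 11) (.s true (nat_lit 2) (nat_lit 16) (nat_lit 1) (nat_lit 7) (nat_lit 1) true (nat_lit 9) true (nat_lit 12) true (nat_lit 2) true (nat_lit 12) true (nat_lit 6) (.s true (nat_lit 4) (nat_lit 18) (nat_lit 0) (nat_lit 1) (nat_lit 7) true (nat_lit 2) true (nat_lit 6) true (nat_lit 1) true (nat_lit 13) true (nat_lit 12) (.s false (nat_lit 8) (nat_lit 22) (nat_lit 2) (nat_lit 2) (nat_lit 2) true (nat_lit 6) true (nat_lit 11) false (nat_lit 0) true (nat_lit 11) true (nat_lit 11) (.s true (nat_lit 2) (nat_lit 32) (nat_lit 0) (nat_lit 2) (nat_lit 2) true (nat_lit 8) true (nat_lit 11) false (nat_lit 2) true (nat_lit 13) true (nat_lit 11) (.s false (nat_lit 4) (nat_lit 33) (nat_lit 0) (nat_lit 2) (nat_lit 2) true (nat_lit 8) true (nat_lit 11) false (nat_lit 2) true (nat_lit 13) true (nat_lit 11) (.s false (nat_lit 4) (nat_lit 33) (nat_lit 2) (nat_lit 0) (nat_lit 2) true (nat_lit 6) true (nat_lit 11) false (nat_lit 2) true (nat_lit 11) true (nat_lit 13) (.s true (nat_lit 4) (nat_lit 33) (nat_lit 2) (nat_lit 2) (nat_lit 0) true (nat_lit 8) true (nat_lit 13) false (nat_lit 2) true (nat_lit 11) true (nat_lit 11) (.e false (nat_lit 2304) (nat_lit 43) (nat_lit 7) (nat_lit 6) (.e true (nat_lit 2304) (nat_lit 44) (nat_lit 7) (nat_lit 6) (.e true (nat_lit 2304) (nat_lit 45) (nat_lit 7) (nat_lit 6) (.e true (nat_lit 3456) (nat_lit 46) (nat_lit 7) (nat_lit 6) (.e true (nat_lit 3456) (nat_lit 53) (nat_lit 7) (nat_lit 6) (.e false (nat_lit 1152) (nat_lit 54) (nat_lit 7) (nat_lit 6) dP8_i57))))))))))))))))))))))) (.nd (.nd (.nd .leaf (nat_lit 133122) (nat_lit 443) (.p (nat_lit 203) (nat_lit 576) .z) .df .leaf) (nat_lit 134144) (nat_lit 308) (.n (nat_lit 144) (nat_lit 5114) (.p (nat_lit 145) (nat_lit 4640) (.p (nat_lit 146) (nat_lit 7478) (.p (nat_lit 147) (nat_lit 4248) (.n (nat_lit 148) (nat_lit 844) (.n (nat_lit 149) (nat_lit 3028) (.p (nat_lit 150) (nat_lit 5536) (.n (nat_lit 151) (nat_lit 50) (.p (nat_lit 152) (nat_lit 802) (.n (nat_lit 153) (nat_lit 2710) (.p (nat_lit 154) (nat_lit 330) (.n (nat_lit 155) (nat_lit 1300) (.n (nat_lit 156) (nat_lit 1912) (.n (nat_lit 157) (nat_lit 432) (.n (nat_lit 158) (nat_lit 2637) (.p (nat_lit 159) (nat_lit 5709) (.n (nat_lit 160) (nat_lit 1157) (.p (nat_lit 161) (nat_lit 1263) (.p (nat_lit 162) (nat_lit 672) (.n (nat_lit 163) (nat_lit 2010) (.n (nat_lit 164) (nat_lit 1634) (.n (nat_lit 165) (nat_lit 3138) (.n (nat_lit 166) (nat_lit 1838) (.p (nat_lit 167) (nat_lit 1718) (.p (nat_lit 168) (nat_lit 354) (.p (nat_lit 169) (nat_lit 1032) (.n (nat_lit 170) (nat_lit 516) (.n (nat_lit 171) (nat_lit 456) (.n (nat_lit 172) (nat_lit 1032) (.n (nat_lit 176) (nat_lit 30) (.p (nat_lit 177) (nat_lit 60) (.n (nat_lit 178) (nat_lit 1164) (.p (nat_lit 179) (nat_lit 1740) (.p (nat_lit 180) (nat_lit 516) .z)))))))))))))))))))))))))))))))))) (.ct dP8_c292 (nat_lit 9216) (nat_lit 13) (.s true (nat_lit 8) (nat_lit 6) (nat_lit 5) (nat_lit 2) (nat_lit 6) false (nat_lit 1) true (nat_lit 7) true (nat_lit 7) true (nat_lit 8) true (nat_lit 11) (.s false (nat_lit 5) (nat_lit 7) (nat_lit 0) (nat_lit 4) (nat_lit 7) true (nat_lit 2) true (nat_lit 6) true (nat_lit 6) true (nat_lit 13) true (nat_lit 9) (.s false (nat_lit 8) (nat_lit 7) (nat_lit 0) (nat_lit 7) (nat_lit 4) true (nat_lit 5) true (nat_lit 9) true (nat_lit 6) true (nat_lit 13) true (nat_lit 6) (.s false (nat_lit 12) (nat_lit 7) (nat_lit 1) (nat_lit 3) (nat_lit 7) true (nat_lit 1) true (nat_lit 6) true (nat_lit 6) true (nat_lit 12) true (nat_lit 10) (.s false (nat_lit 16) (nat_lit 7) (nat_lit 1) (nat_lit 7) (nat_lit 3) true (nat_lit 5) true (nat_lit 10) true (nat_lit 6) true (nat_lit 12) true (nat_lit 6) (.s true (nat_lit 4) (nat_lit 7) (nat_lit 5) (nat_lit 4) (nat_lit 2) true (nat_lit 2) true (nat_lit 11) true (nat_lit 6) true (nat_lit 8) true (nat_lit 9) (.s true (nat_lit 24) (nat_lit 7) (nat_lit 6) (nat_lit 2) (nat_lit 3) false (nat_lit 0) true (nat_lit 10) true (nat_lit 6) true (nat_lit 7) true (nat_lit 11) (.s false (nat_lit 24) (nat_lit 8) (nat_lit 2) (nat_lit 2) (nat_lit 7) true (nat_lit 0) true (nat_lit 6) true (nat_lit 5) true (nat_lit 11) true (nat_lit 11) (.s true (nat_lit 4) (nat_lit 10) (nat_lit 2) (nat_lit 1) (nat_lit 7) true (nat_lit 0) true (nat_lit 6) true (nat_lit 4) true (nat_lit 11) true (nat_lit 12) (.s true (nat_lit 24) (nat_lit 10) (nat_lit 2) (nat_lit 6) (nat_lit 2) true (nat_lit 6) true (nat_lit 11) true (nat_lit 4) true (nat_lit 11) true (nat_lit 7) (.s true (nat_lit 24) (nat_lit 10) (nat_lit 6) (nat_lit 2) (nat_lit 2) true (nat_lit 1) true (nat_lit 11) true (nat_lit 4) true (nat_lit 7) true (nat_lit 11) (.s true (nat_lit 8) (nat_lit 12) (nat_lit 6) (nat_lit 2) (nat_lit 2) true (nat_lit 1) true (nat_lit 11) true (nat_lit 4) true (nat_lit 7) true (nat_lit 11) dP8_i33))))))))))))) (.nd .leaf (nat_lit 134146) (nat_lit 444) (.p (nat_lit 204) (nat_lit 576) .z) .df .leaf)) (nat_lit 135168) (nat_lit 322) (.n (nat_lit 144) (nat_lit 2936) (.p (nat_lit 145) (nat_lit 1760) (.p (nat_lit 146) (nat_lit 3176) (.p (nat_lit 147) (nat_lit 2592) (.p (nat_lit 148) (nat_lit 848) (.n (nat_lit 149) (nat_lit 688) (.p (nat_lit 150) (nat_lit 4672) (.n (nat_lit 151) (nat_lit 248) (.p (nat_lit 152) (nat_lit 280) (.n (nat_lit 153) (nat_lit 136) (.p (nat_lit 154) (nat_lit 24) (.p (nat_lit 155) (nat_lit 464) (.n (nat_lit 156) (nat_lit 832) (.n (nat_lit 157) (nat_lit 576) (.p (nat_lit 158) (nat_lit 900) (.p (nat_lit 159) (nat_lit 2748) (.p (nat_lit 160) (nat_lit 4) (.p (nat_lit 161) (nat_lit 84) (.n (nat_lit 162) (nat_lit 480) (.n (nat_lit 163) (nat_lit 1272) (.n (nat_lit 164) (nat_lit 1112) (.n (nat_lit 165) (nat_lit 1752) (.n (nat_lit 166) (nat_lit 1064) (.p (nat_lit 167) (nat_lit 1160) (.p (nat_lit 168) (nat_lit 408) (.p (nat_lit 169) (nat_lit 96) (.n (nat_lit 170) (nat_lit 48) (.p (nat_lit 171) (nat_lit 480) (.n (nat_lit 172) (nat_lit 96) (.n (nat_lit 175) (nat_lit 576) (.n (nat_lit 176) (nat_lit 264) (.n (nat_lit 177) (nat_lit 48) (.n (nat_lit 178) (nat_lit 624) (.p (nat_lit 179) (nat_lit 624) (.p (nat_lit 180) (nat_lit 48) .z))))))))))))))))))))))))))))))))))) (.ct dP8_c292 (nat_lit 2304) (nat_lit 13) (.s false (nat_lit 1) (nat_lit 7) (nat_lit 0) (nat_lit 7) (nat_lit 4) true (nat_lit 5) true (nat_lit 9) true (nat_lit 6) true (nat_lit 13) true (nat_lit 6) (.s true (nat_lit 2) (nat_lit 13) (nat_lit 0) (nat_lit 2) (nat_lit 7) true (nat_lit 2) true (nat_lit 6) true (nat_lit 3) true (nat_lit 13) true (nat_lit 11) (.s false (nat_lit 2) (nat_lit 13) (nat_lit 2) (nat_lit 2) (nat_lit 5) true (nat_lit 2) true (nat_lit 8) true (nat_lit 3) true (nat_lit 11) true (nat_lit 11) (.s false (nat_lit 1) (nat_lit 16) (nat_lit 1) (nat_lit 1) (nat_lit 7) true (nat_lit 1) true (nat_lit 6) true (nat_lit 2) true (nat_lit 12) true (nat_lit 12) (.s false (nat_lit 1) (nat_lit 16) (nat_lit 1) (nat_lit 7) (nat_lit 1) true (nat_lit 9) true (nat_lit 12) true (nat_lit 2) true (nat_lit 12) true (nat_lit 6) (.s true (nat_lit 1) (nat_lit 16) (nat_lit 7) (nat_lit 1) (nat_lit 1) true (nat_lit 1) true (nat_lit 12) true (nat_lit 2) true (nat_lit 6) true (nat_lit 12) (.s true (nat_lit 2) (nat_lit 32) (nat_lit 0) (nat_lit 2) (nat_lit 2) true (nat_lit 8) true (nat_lit 11) false (nat_lit 2) true (nat_lit 13) true (nat_lit 11) (.s false (nat_lit 4) (nat_lit 33) (nat_lit 0) (nat_lit 2) (nat_lit 2) true (nat_lit 8) true (nat_lit 11) false (nat_lit 2) true (nat_lit 13) true (nat_lit 11) (.s false (nat_lit 4) (nat_lit 33) (nat_lit 2) (nat_lit 0) (nat_lit 2) true (nat_lit 6) true (nat_lit 11) false (nat_lit 2) true (nat_lit 11) true (nat_lit 13) (.s true (nat_lit 4) (nat_lit 33) (nat_lit 2) (nat_lit 2) (nat_lit 0) true (nat_lit 8) true (nat_lit 13) false (nat_lit 2) true (nat_lit 11) true (nat_lit 11) (.e true (nat_lit 1152) (nat_lit 46) (nat_lit 7) (nat_lit 6) (.e true (nat_lit 3456) (nat_lit 53) (nat_lit 7) (nat_lit 6) dP8_i55))))))))))))) (.nd (.nd .leaf (nat_lit 135170) (nat_lit 445) (.p (nat_lit 205) (nat_lit 576) .z) .df .leaf) (nat_lit 136192) (nat_lit 366) (.p (nat_lit 144) (nat_lit 5216) (.n (nat_lit 145) (nat_lit 13904) (.n (nat_lit 146) (nat_lit 13232) (.n (nat_lit 147) (nat_lit 10368) (.p (nat_lit 148) (nat_lit 12784) (.p (nat_lit 149) (nat_lit 2080) (.p (nat_lit 150) (nat_lit 2144) (.n (nat_lit 151) (nat_lit 2512) (.n (nat_lit 152) (nat_lit 3040) (.p (nat_lit 153) (nat_lit 14848) (.n (nat_lit 154) (nat_lit 2256) (.p (nat_lit 155) (nat_lit 10144) (.n (nat_lit 156) (nat_lit 1232) (.p (nat_lit 157) (nat_lit 5184) (.p (nat_lit 158) (nat_lit 4608) (.n (nat_lit 159) (nat_lit 11424) (.p (nat_lit 160) (nat_lit 4976) (.n (nat_lit 161) (nat_lit 768) (.p (nat_lit 162) (nat_lit 1200) (.p (nat_lit 163) (nat_lit 2208) (.p (nat_lit 164) (nat_lit 1664) (.n (nat_lit 165) (nat_lit 4512) (.n (nat_lit 166) (nat_lit 6304) (.p (nat_lit 167) (nat_lit 3616) (.p (nat_lit 168) (nat_lit 4128) (.n (nat_lit 169) (nat_lit 2112) (.p (nat_lit 170) (nat_lit 1056) (.p (nat_lit 171) (nat_lit 2400) (.p (nat_lit 172) (nat_lit 2112) (.p (nat_lit 173) (nat_lit 288) (.n (nat_lit 174) (nat_lit 576) (.n (nat_lit 176) (nat_lit 528) (.p (nat_lit 177) (nat_lit 1056) (.n (nat_lit 178) (nat_lit 2544) (.p (nat_lit 179) (nat_lit 2544) (.n (nat_lit 180) (nat_lit 1056) .z)))))))))))))))))))))))))))))))))))) (.ct dP8_c292 (nat_lit 576) (nat_lit 13) (.s false (nat_lit 1) (nat_lit 17) (nat_lit 6) (nat_lit 0) (nat_lit 2) true (nat_lit 1) true (nat_lit 11) true (nat_lit 1) true (nat_lit 7) true (nat_lit 13) (.s true (nat_lit 1) (nat_lit 28) (nat_lit 2) (nat_lit 1) (nat_lit 2) true (nat_lit 6) true (nat_lit 11) false (nat_lit 1) true (nat_lit 11) true (nat_lit 12) (.e true (nat_lit 576) (nat_lit 31) (nat_lit 17) (nat_lit 1) (.e true (nat_lit 288) (nat_lit 97) (nat_lit 2) (nat_lit 11) (.e false (nat_lit 288) (nat_lit 98) (nat_lit 2) (nat_lit 11) (.e true (nat_lit 288) (nat_lit 99) (nat_lit 2) (nat_lit 11) (.e false (nat_lit 288) (nat_lit 100) (nat_lit 2) (nat_lit 11) (.e false (nat_lit 576) (nat_lit 57) (nat_lit 6) (nat_lit 7) (.e true (nat_lit 576) (nat_lit 59) (nat_lit 6) (nat_lit 7) (.e true (nat_lit 576) (nat_lit 62) (nat_lit 6) (nat_lit 7) (.e true (nat_lit 576) (nat_lit 63) (nat_lit 6) (nat_lit 7) (.e false (nat_lit 576) (nat_lit 66) (nat_lit 6) (nat_lit 7) (.e true (nat_lit 576) (nat_lit 49) (nat_lit 7) (nat_lit 6) (.e true (nat_lit 576) (nat_lit 91) (nat_lit 2) (nat_lit 11) (.e false (nat_lit 576) (nat_lit 106) (nat_lit 2) (nat_lit 11) (.e false (nat_lit 576) (nat_lit 110) (nat_lit 1) (nat_lit 12) .nil))))))))))))))))) .leaf))) (nat_lit 136194) (nat_lit 471) (.p (nat_lit 200) (nat_lit 432) (.n (nat_lit 201) (nat_lit 432) (.p (nat_lit 202) (nat_lit 144) (.n (nat_lit 203) (nat_lit 432) (.p (nat_lit 204) (nat_lit 432) (.n (nat_lit 205) (nat_lit 432) (.p (nat_lit 206) (nat_lit 576) (.n (nat_lit 207) (nat_lit 576) (.n (nat_lit 208) (nat_lit 432) .z))))))))) (.ct dP8_c37 (nat_lit 576) (nat_lit 6) (.s true (nat_lit 1) (nat_lit 17) (nat_lit 6) (nat_lit 2) (nat_lit 2) true (nat_lit 1) true (nat_lit 6) true (nat_lit 1) true (nat_lit 4) true (nat_lit 6) (.e false (nat_lit 288) (nat_lit 125) (nat_lit 2) (nat_lit 6) (.e true (nat_lit 288) (nat_lit 126) (nat_lit 2) (nat_lit 6) (.e false (nat_lit 288) (nat_lit 127) (nat_lit 2) (nat_lit 6) (.e true (nat_lit 288) (nat_lit 128) (nat_lit 2) (nat_lit 6) (.e true (nat_lit 576) (nat_lit 78) (nat_lit 6) (nat_lit 4) (.e false (nat_lit 576) (nat_lit 80) (nat_lit 6) (nat_lit 4) .nil)))))))) (.nd (.nd (.nd (.nd .leaf (nat_lit 138241) (nat_lit 401) (.p (nat_lit 195) (nat_lit 576) .z) .df .leaf) (nat_lit 139265) (nat_lit 402) (.p (nat_lit 196) (nat_lit 576) .z) .df (.nd .leaf (nat_lit 140289) (nat_lit 420) (.n (nat_lit 181) (nat_lit 2592) (.p (nat_lit 182) (nat_lit 2592) (.p (nat_lit 184) (nat_lit 2304) (.p (nat_lit 185) (nat_lit 2592) (.n (nat_lit 186) (nat_lit 1296) (.n (nat_lit 187) (nat_lit 1152) (.p (nat_lit 188) (nat_lit 1296) (.p (nat_lit 189) (nat_lit 432) (.n (nat_lit 190) (nat_lit 864) (.n (nat_lit 191) (nat_lit 864) (.p (nat_lit 192) (nat_lit 864) (.n (nat_lit 193) (nat_lit 288) (.n (nat_lit 194) (nat_lit 864) (.p (nat_lit 195) (nat_lit 1152) (.p (nat_lit 196) (nat_lit 1152) .z))))))))))))))) (.ct dP8_c277 (nat_lit 576) (nat_lit 9) (.s true (nat_lit 1) (nat_lit 16) (nat_lit 2) (nat_lit 1) (nat_lit 7) true (nat_lit 0) true (nat_lit 4) true (nat_lit 2) true (nat_lit 8) true (nat_lit 9) (.s true (nat_lit 1) (nat_lit 16) (nat_lit 2) (nat_lit 2) (nat_lit 6) true (nat_lit 1) true (nat_lit 5) true (nat_lit 2) true (nat_lit 8) true (nat_lit 8) (.s false (nat_lit 1) (nat_lit 30) (nat_lit 2) (nat_lit 2) (nat_lit 2) true (nat_lit 4) true (nat_lit 8) false (nat_lit 0) true (nat_lit 8) true (nat_lit 8) (.s false (nat_lit 1) (nat_lit 36) (nat_lit 1) (nat_lit 2) (nat_lit 2) true (nat_lit 5) true (nat_lit 8) false (nat_lit 1) true (nat_lit 9) true (nat_lit 8) (.e true (nat_lit 576) (nat_lit 62) (nat_lit 7) (nat_lit 4) (.e true (nat_lit 1152) (nat_lit 117) (nat_lit 2) (nat_lit 8) (.e true (nat_lit 1152) (nat_lit 119) (nat_lit 2) (nat_lit 8) (.e false (nat_lit 1152) (nat_lit 120) (nat_lit 2) (nat_lit 8) (.e false (nat_lit 576) (nat_lit 121) (nat_lit 2) (nat_lit 8) (.e false (nat_lit 1152) (nat_lit 135) (nat_lit 1) (nat_lit 9) (.e false (nat_lit 1152) (nat_lit 136) (nat_lit 1) (nat_lit 9) (.e false (nat_lit 1152) (nat_lit 114) (nat_lit 2) (nat_lit 8) (.e true (nat_lit 1152) (nat_lit 118) (nat_lit 2) (nat_lit 8) (.e false (nat_lit 576) (nat_lit 60) (nat_lit 7) (nat_lit 4) .nil))))))))))))))) .leaf)) (nat_lit 141313) (nat_lit 428) (.p (nat_lit 181) (nat_lit 2016) (.n (nat_lit 182) (nat_lit 2016) (.n (nat_lit 184) (nat_lit 2304) (.n (nat_lit 185) (nat_lit 2016) (.p (nat_lit 186) (nat_lit 1008) (.n (nat_lit 188) (nat_lit 1008) (.n (nat_lit 189) (nat_lit 144) (.p (nat_lit 190) (nat_lit 864) (.p (nat_lit 191) (nat_lit 864) (.n (nat_lit 192) (nat_lit 288) (.p (nat_lit 193) (nat_lit 288) (.n (nat_lit 194) (nat_lit 288) .z)))))))))))) (.ct dP8_c277 (nat_lit 576) (nat_lit 9) (.s true (nat_lit 1) (nat_lit 15) (nat_lit 2) (nat_lit 6) (nat_lit 2) true (nat_lit 4) true (nat_lit 8) true (nat_lit 2) true (nat_lit 8) true (nat_lit 5) (.s true (nat_lit 1) (nat_lit 17) (nat_lit 5) (nat_lit 2) (nat_lit 2) true (nat_lit 2) true (nat_lit 8) true (nat_lit 1) true (nat_lit 6) true (nat_lit 8) (.s false (nat_lit 1) (nat_lit 35) (nat_lit 1) (nat_lit 2) (nat_lit 2) true (nat_lit 5) true (nat_lit 8) false (nat_lit 1) true (nat_lit 9) true (nat_lit 8) (.e false (nat_lit 576) (nat_lit 66) (nat_lit 7) (nat_lit 4) (.e false (nat_lit 2304) (nat_lit 108) (nat_lit 2) (nat_lit 8) (.e true (nat_lit 2304) (nat_lit 109) (nat_lit 2) (nat_lit 8) (.e true (nat_lit 2304) (nat_lit 112) (nat_lit 2) (nat_lit 8) (.e true (nat_lit 2304) (nat_lit 113) (nat_lit 2) (nat_lit 8) (.e false (nat_lit 1152) (nat_lit 114) (nat_lit 2) (nat_lit 8) (.e true (nat_lit 576) (nat_lit 116) (nat_lit 2) (nat_lit 8) (.e true (nat_lit 576) (nat_lit 117) (nat_lit 2) (nat_lit 8) (.e false (nat_lit 576) (nat_lit 120) (nat_lit 2) (nat_lit 8) (.e false (nat_lit 576) (nat_lit 121) (nat_lit 2) (nat_lit 8) (.e true (nat_lit 576) (nat_lit 78) (nat_lit 5) (nat_lit 6) (.e false (nat_lit 576) (nat_lit 80) (nat_lit 5) (nat_lit 6) (.e true (nat_lit 576) (nat_lit 135) (nat_lit 1) (nat_lit 9) (.e true (nat_lit 576) (nat_lit 136) (nat_lit 1) (nat_lit 9) .nil)))))))))))))))))) (.nd (.nd .leaf (nat_lit 142337) (nat_lit 473) (.p (nat_lit 200) (nat_lit 4896) (.n (nat_lit 201) (nat_lit 4320) (.n (nat_lit 202) (nat_lit 864) (.n (nat_lit 203) (nat_lit 288) (.p (nat_lit 204) (nat_lit 288) (.n (nat_lit 205) (nat_lit 4320) (.p (nat_lit 206) (nat_lit 8064) (.n (nat_lit 207) (nat_lit 8064) (.n (nat_lit 208) (nat_lit 4320) (.p (nat_lit 209) (nat_lit 576) (.n (nat_lit 210) (nat_lit 576) .z))))))))))) (.ct dP8_c37 (nat_lit 576) (nat_lit 7) (.s true (nat_lit 1) (nat_lit 38) (nat_lit 2) (nat_lit 2) (nat_lit 1) true (nat_lit 4) true (nat_lit 7) false (nat_lit 1) true (nat_lit 6) true (nat_lit 6) (.e true (nat_lit 576) (nat_lit 77) (nat_lit 6) (nat_lit 4) (.e false (nat_lit 576) (nat_lit 38) (nat_lit 18) (nat_lit 1) (.e false (nat_lit 576) (nat_lit 133) (nat_lit 2) (nat_lit 6) (.e true (nat_lit 288) (nat_lit 125) (nat_lit 2) (nat_lit 6) (.e false (nat_lit 864) (nat_lit 126) (nat_lit 2) (nat_lit 6) (.e true (nat_lit 288) (nat_lit 127) (nat_lit 2) (nat_lit 6) (.e false (nat_lit 288) (nat_lit 128) (nat_lit 2) (nat_lit 6) (.e false (nat_lit 576) (nat_lit 129) (nat_lit 2) (nat_lit 6) .nil)))))))))) .leaf) (nat_lit 143360) (nat_lit 423) (.p (nat_lit 181) (nat_lit 1152) (.n (nat_lit 182) (nat_lit 1152) (.n (nat_lit 183) (nat_lit 1152) (.n (nat_lit 184) (nat_lit 1728) (.n (nat_lit 185) (nat_lit 2304) (.p (nat_lit 186) (nat_lit 1728) (.p (nat_lit 187) (nat_lit 288) (.n (nat_lit 188) (nat_lit 576) (.p (nat_lit 189) (nat_lit 288) (.p (nat_lit 190) (nat_lit 288) (.p (nat_lit 191) (nat_lit 864) (.n (nat_lit 192) (nat_lit 1440) (.p (nat_lit 193) (nat_lit 288) (.n (nat_lit 194) (nat_lit 288) (.n (nat_lit 195) (nat_lit 576) (.p (nat_lit 197) (nat_lit 576) (.n (nat_lit 198) (nat_lit 576) .z))))))))))))))))) (.ct dP8_c277 (nat_lit 1152) (nat_lit 10) (.s true (nat_lit 1) (nat_lit 7) (nat_lit 2) (nat_lit 7) (nat_lit 3) true (nat_lit 3) true (nat_lit 7) true (nat_lit 4) true (nat_lit 8) true (nat_lit 4) (.s true (nat_lit 1) (nat_lit 18) (nat_lit 2) (nat_lit 7) (nat_lit 0) true (nat_lit 6) true (nat_lit 10) true (nat_lit 1) true (nat_lit 8) true (nat_lit 4) (.s true (nat_lit 1) (nat_lit 19) (nat_lit 7) (nat_lit 0) (nat_lit 1) true (nat_lit 1) true (nat_lit 9) true (nat_lit 0) true (nat_lit 4) true (nat_lit 10) (.s false (nat_lit 1) (nat_lit 30) (nat_lit 2) (nat_lit 2) (nat_lit 2) true (nat_lit 4) true (nat_lit 8) false (nat_lit 0) true (nat_lit 8) true (nat_lit 8) (.e false (nat_lit 1152) (nat_lit 59) (nat_lit 7) (nat_lit 4) (.e false (nat_lit 1152) (nat_lit 61) (nat_lit 7) (nat_lit 4) (.e false (nat_lit 1152) (nat_lit 78) (nat_lit 5) (nat_lit 6) (.e true (nat_lit 1152) (nat_lit 79) (nat_lit 5) (nat_lit 6) (.e false (nat_lit 1152) (nat_lit 119) (nat_lit 2) (nat_lit 8) (.e true (nat_lit 1152) (nat_lit 120) (nat_lit 2) (nat_lit 8) (.e true (nat_lit 1152) (nat_lit 121) (nat_lit 2) (nat_lit 8) (.e true (nat_lit 1152) (nat_lit 56) (nat_lit 7) (nat_lit 4) (.e false (nat_lit 1152) (nat_lit 60) (nat_lit 7) (nat_lit 4) (.e false (nat_lit 1152) (nat_lit 141) (nat_lit 0) (nat_lit 10) .nil))))))))))))))) .leaf)) (nat_lit 143361) (nat_lit 446) (.p (nat_lit 206) (nat_lit 576) .z) .df (.nd (.nd (.nd .leaf (nat_lit 144384) (nat_lit 422) (.p (nat_lit 181) (nat_lit 288) (.n (nat_lit 182) (nat_lit 288) (.n (nat_lit 183) (nat_lit 1152) (.n (nat_lit 184) (nat_lit 1152) (.n (nat_lit 185) (nat_lit 1440) (.p (nat_lit 186) (nat_lit 720) (.n (nat_lit 188) (nat_lit 720) (.p (nat_lit 189) (nat_lit 720) (.p (nat_lit 190) (nat_lit 864) (.p (nat_lit 191) (nat_lit 864) (.n (nat_lit 192) (nat_lit 2016) (.n (nat_lit 193) (nat_lit 288) (.n (nat_lit 194) (nat_lit 288) (.p (nat_lit 196) (nat_lit 576) (.p (nat_lit 197) (nat_lit 576) (.n (nat_lit 198) (nat_lit 576) .z)))))))))))))))) (.ct dP8_c277 (nat_lit 576) (nat_lit 10) (.s false (nat_lit 1) (nat_lit 16) (nat_lit 1) (nat_lit 7) (nat_lit 2) true (nat_lit 5) true (nat_lit 8) true (nat_lit 2) true (nat_lit 9) true (nat_lit 4) (.s false (nat_lit 1) (nat_lit 16) (nat_lit 2) (nat_lit 2) (nat_lit 6) true (nat_lit 1) true (nat_lit 5) true (nat_lit 2) true (nat_lit 8) true (nat_lit 8) (.s true (nat_lit 1) (nat_lit 36) (nat_lit 1) (nat_lit 2) (nat_lit 2) true (nat_lit 5) true (nat_lit 8) false (nat_lit 1) true (nat_lit 9) true (nat_lit 8) (.s true (nat_lit 1) (nat_lit 40) (nat_lit 2) (nat_lit 2) (nat_lit 0) true (nat_lit 6) true (nat_lit 10) false (nat_lit 2) true (nat_lit 8) true (nat_lit 8) (.e true (nat_lit 1152) (nat_lit 74) (nat_lit 6) (nat_lit 5) (.e true (nat_lit 1152) (nat_lit 75) (nat_lit 6) (nat_lit 5) (.e false (nat_lit 1152) (nat_lit 121) (nat_lit 2) (nat_lit 8) (.e true (nat_lit 1152) (nat_lit 135) (nat_lit 1) (nat_lit 9) (.e true (nat_lit 1152) (nat_lit 136) (nat_lit 1) (nat_lit 9) (.e false (nat_lit 1152) (nat_lit 137) (nat_lit 1) (nat_lit 9) (.e false (nat_lit 576) (nat_lit 62) (nat_lit 7) (nat_lit 4) (.e false (nat_lit 1152) (nat_lit 108) (nat_lit 2) (nat_lit 8) (.e false (nat_lit 1152) (nat_lit 109) (nat_lit 2) (nat_lit 8) (.e true (nat_lit 1152) (nat_lit 112) (nat_lit 2) (nat_lit 8) (.e true (nat_lit 1152) (nat_lit 113) (nat_lit 2) (nat_lit 8) (.e true (nat_lit 1728) (nat_lit 114) (nat_lit 2) (nat_lit 8) (.e false (nat_lit 576) (nat_lit 116) (nat_lit 2) (nat_lit 8) (.e false (nat_lit 576) (nat_lit 118) (nat_lit 2) (nat_lit 8) (.e true (nat_lit 576) (nat_lit 79) (nat_lit 5) (nat_lit 6) (.e true (nat_lit 2304) (nat_lit 111) (nat_lit 2) (nat_lit 8) (.e true (nat_lit 1728) (nat_lit 115) (nat_lit 2) (nat_lit 8) (.e true (nat_lit 576) (nat_lit 119) (nat_lit 2) (nat_lit 8) (.e false (nat_lit 1152) (nat_lit 120) (nat_lit 2) (nat_lit 8) (.e false (nat_lit 576) (nat_lit 123) (nat_lit 2) (nat_lit 8) .nil))))))))))))))))))))))))) .leaf) (nat_lit 144385) (nat_lit 447) (.p (nat_lit 207) (nat_lit 576) .z) .df (.nd .leaf (nat_lit 145408) (nat_lit 424) (.p (nat_lit 181) (nat_lit 2592) (.n (nat_lit 182) (nat_lit 2592) (.n (nat_lit 184) (nat_lit 2304) (.n (nat_lit 185) (nat_lit 2592) (.p (nat_lit 186) (nat_lit 2448) (.p (nat_lit 187) (nat_lit 1152) (.n (nat_lit 188) (nat_lit 144) (.n (nat_lit 189) (nat_lit 432) (.n (nat_lit 190) (nat_lit 288) (.p (nat_lit 191) (nat_lit 864) (.p (nat_lit 192) (nat_lit 288) (.p (nat_lit 193) (nat_lit 864) (.p (nat_lit 194) (nat_lit 864) (.n (nat_lit 195) (nat_lit 1152) (.n (nat_lit 196) (nat_lit 1152) .z))))))))))))))) (.ct dP8_c277 (nat_lit 576) (nat_lit 10) (.s false (nat_lit 1) (nat_lit 7) (nat_lit 2) (nat_lit 7) (nat_lit 3) true (nat_lit 3) true (nat_lit 7) true (nat_lit 4) true (nat_lit 8) true (nat_lit 4) (.s false (nat_lit 1) (nat_lit 19) (nat_lit 7) (nat_lit 0) (nat_lit 1) true (nat_lit 1) true (nat_lit 9) true (nat_lit 0) true (nat_lit 4) true (nat_lit 10) (.s true (nat_lit 1) (nat_lit 30) (nat_lit 2) (nat_lit 2) (nat_lit 2) true (nat_lit 4) true (nat_lit 8) false (nat_lit 0) true (nat_lit 8) true (nat_lit 8) (.s true (nat_lit 1) (nat_lit 37) (nat_lit 2) (nat_lit 2) (nat_lit 1) true (nat_lit 5) true (nat_lit 9) false (nat_lit 1) true (nat_lit 8) true (nat_lit 8) (.e false (nat_lit 576) (nat_lit 57) (nat_lit 7) (nat_lit 4) (.e true (nat_lit 576) (nat_lit 58) (nat_lit 7) (nat_lit 4) (.e true (nat_lit 576) (nat_lit 59) (nat_lit 7) (nat_lit 4) (.e true (nat_lit 576) (nat_lit 61) (nat_lit 7) (nat_lit 4) (.e false (nat_lit 1152) (nat_lit 117) (nat_lit 2) (nat_lit 8) (.e false (nat_lit 1152) (nat_lit 140) (nat_lit 0) (nat_lit 10) (.e true (nat_lit 1152) (nat_lit 141) (nat_lit 0) (nat_lit 10) (.e true (nat_lit 576) (nat_lit 60) (nat_lit 7) (nat_lit 4) (.e false (nat_lit 576) (nat_lit 121) (nat_lit 2) (nat_lit 8) (.e true (nat_lit 576) (nat_lit 75) (nat_lit 6) (nat_lit 5) (.e true (nat_lit 576) (nat_lit 136) (nat_lit 1) (nat_lit 9) (.e false (nat_lit 576) (nat_lit 123) (nat_lit 2) (nat_lit 8) (.e false (nat_lit 576) (nat_lit 115) (nat_lit 2) (nat_lit 8) .nil)))))))))))))))))) .leaf)) (nat_lit 145409) (nat_lit 448) (.p (nat_lit 208) (nat_lit 576) .z) .df (.nd (.nd .leaf (nat_lit 146432) (nat_lit 415) (.p (nat_lit 181) (nat_lit 288) (.n (nat_lit 182) (nat_lit 288) (.p (nat_lit 183) (nat_lit 576) (.p (nat_lit 185) (nat_lit 288) (.n (nat_lit 186) (nat_lit 144) (.p (nat_lit 188) (nat_lit 144) (.p (nat_lit 189) (nat_lit 144) (.p (nat_lit 190) (nat_lit 576) (.p (nat_lit 191) (nat_lit 576) (.p (nat_lit 192) (nat_lit 288) (.n (nat_lit 193) (nat_lit 576) (.n (nat_lit 194) (nat_lit 288) .z)))))))))))) (.ct dP8_c277 (nat_lit 1152) (nat_lit 10) (.s false (nat_lit 3) (nat_lit 7) (nat_lit 2) (nat_lit 7) (nat_lit 3) true (nat_lit 3) true (nat_lit 7) true (nat_lit 4) true (nat_lit 8) true (nat_lit 4) (.s true (nat_lit 3) (nat_lit 10) (nat_lit 7) (nat_lit 2) (nat_lit 2) true (nat_lit 0) true (nat_lit 8) true (nat_lit 3) true (nat_lit 4) true (nat_lit 8) (.s true (nat_lit 2) (nat_lit 19) (nat_lit 2) (nat_lit 6) (nat_lit 0) true (nat_lit 6) true (nat_lit 10) true (nat_lit 0) true (nat_lit 8) true (nat_lit 5) (.s false (nat_lit 3) (nat_lit 19) (nat_lit 3) (nat_lit 2) (nat_lit 2) true (nat_lit 3) true (nat_lit 8) true (nat_lit 0) true (nat_lit 7) true (nat_lit 8) (.s true (nat_lit 2) (nat_lit 31) (nat_lit 2) (nat_lit 2) (nat_lit 2) true (nat_lit 4) true (nat_lit 8) false (nat_lit 0) true (nat_lit 8) true (nat_lit 8) (.e true (nat_lit 1152) (nat_lit 61) (nat_lit 7) (nat_lit 4) (.e true (nat_lit 2304) (nat_lit 109) (nat_lit 2) (nat_lit 8) (.e true (nat_lit 1152) (nat_lit 115) (nat_lit 2) (nat_lit 8) (.e false (nat_lit 1152) (nat_lit 118) (nat_lit 2) (nat_lit 8) (.e false (nat_lit 1152) (nat_lit 119) (nat_lit 2) (nat_lit 8) (.e false (nat_lit 2304) (nat_lit 120) (nat_lit 2) (nat_lit 8) (.e true (nat_lit 1152) (nat_lit 121) (nat_lit 2) (nat_lit 8) (.e false (nat_lit 1152) (nat_lit 79) (nat_lit 5) (nat_lit 6) (.e true (nat_lit 1152) (nat_lit 80) (nat_lit 5) (nat_lit 6) (.e false (nat_lit 2304) (nat_lit 108) (nat_lit 2) (nat_lit 8) (.e false (nat_lit 2304) (nat_lit 110) (nat_lit 2) (nat_lit 8) (.e true (nat_lit 2304) (nat_lit 123) (nat_lit 2) (nat_lit 8) (.e false (nat_lit 1152) (nat_lit 75) (nat_lit 6) (nat_lit 5) (.e true (nat_lit 1152) (nat_lit 112) (nat_lit 2) (nat_lit 8) .nil)))))))))))))))))))) .leaf) (nat_lit 146433) (nat_lit 462) (.n (nat_lit 200) (nat_lit 1728) (.p (nat_lit 201) (nat_lit 1728) (.p (nat_lit 202) (nat_lit 1152) (.p (nat_lit 205) (nat_lit 576) (.n (nat_lit 206) (nat_lit 3456) (.p (nat_lit 207) (nat_lit 3456) (.p (nat_lit 208) (nat_lit 1728) .z))))))) (.ct dP8_c37 (nat_lit 576) (nat_lit 7) (.s true (nat_lit 1) (nat_lit 19) (nat_lit 2) (nat_lit 6) (nat_lit 1) true (nat_lit 4) true (nat_lit 7) true (nat_lit 0) true (nat_lit 6) true (nat_lit 4) (.e true (nat_lit 576) (nat_lit 80) (nat_lit 6) (nat_lit 4) (.e false (nat_lit 576) (nat_lit 34) (nat_lit 19) (nat_lit 0) (.e false (nat_lit 576) (nat_lit 129) (nat_lit 2) (nat_lit 6) (.e true (nat_lit 576) (nat_lit 132) (nat_lit 2) (nat_lit 6) .nil)))))) .leaf))))))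

noncomputable def dP8_t5 : Tr := (.nd dP8_t3 (nat_lit 76804) (nat_lit 357) (.p (nat_lit 144) (nat_lit 3064) (.n (nat_lit 145) (nat_lit 12448) (.n (nat_lit 146) (nat_lit 12328) (.n (nat_lit 147) (nat_lit 6624) (.p (nat_lit 148) (nat_lit 12272) (.p (nat_lit 149) (nat_lit 5552) (.p (nat_lit 150) (nat_lit 2752) (.n (nat_lit 151) (nat_lit 1736) (.n (nat_lit 152) (nat_lit 2072) (.p (nat_lit 153) (nat_lit 13448) (.n (nat_lit 154) (nat_lit 2136) (.p (nat_lit 155) (nat_lit 10160) (.n (nat_lit 156) (nat_lit 1792) (.p (nat_lit 157) (nat_lit 4608) (.p (nat_lit 158) (nat_lit 7740) (.n (nat_lit 159) (nat_lit 12156) (.p (nat_lit 160) (nat_lit 5500) (.n (nat_lit 161) (nat_lit 3156) (.n (nat_lit 162) (nat_lit 1632) (.p (nat_lit 163) (nat_lit 1464) (.n (nat_lit 164) (nat_lit 296) (.n (nat_lit 165) (nat_lit 3048) (.n (nat_lit 166) (nat_lit 5144) (.p (nat_lit 167) (nat_lit 3512) (.p (nat_lit 168) (nat_lit 3432) (.n (nat_lit 169) (nat_lit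 1632) (.p (nat_lit 170) (nat_lit 816) (.p (nat_lit 171) (nat_lit 2208) (.p (nat_lit 172) (nat_lit 1632) (.n (nat_lit 176) (nat_lit 696) (.p (nat_lit 177) (nat_lit 816) (.n (nat_lit 178) (nat_lit 912) (.p (nat_lit 179) (nat_lit 336) (.n (nat_lit 180) (nat_lit 816) .z)))))))))))))))))))))))))))))))))) (.ct dP8_c292 (nat_lit 2304) (nat_lit 9) (.s true (nat_lit 1) (nat_lit 7) (nat_lit 0) (nat_lit 4) (nat_lit 7) true (nat_lit 2) true (nat_lit 6) true (nat_lit 6) true (nat_lit 13) true (nat_lit 9) (.s true (nat_lit 2) (nat_lit 7) (nat_lit 0) (nat_lit 7) (nat_lit 4) true (nat_lit 5) true (nat_lit 9) true (nat_lit 6) true (nat_lit 13) true (nat_lit 6) (.e true (nat_lit 1152) (nat_lit 33) (nat_lit 16) (nat_lit 2) (.e false (nat_lit 1152) (nat_lit 34) (nat_lit 16) (nat_lit 2) (.e true (nat_lit 2304) (nat_lit 43) (nat_lit 7) (nat_lit 6) (.e false (nat_lit 2304) (nat_lit 44) (nat_lit 7) (nat_lit 6) (.e false (nat_lit 2304) (nat_lit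 45) (nat_lit 7) (nat_lit 6) (.e false (nat_lit 2304) (nat_lit 46) (nat_lit 7) (nat_lit 6) (.e false (nat_lit 3456) (nat_lit 53) (nat_lit 7) (nat_lit 6) (.e true (nat_lit 3456) (nat_lit 54) (nat_lit 7) (nat_lit 6) (.e false (nat_lit 1152) (nat_lit 124) (nat_lit 0) (nat_lit 13) (.e true (nat_lit 3456) (nat_lit 125) (nat_lit 0) (nat_lit 13) (.e false (nat_lit 1152) (nat_lit 126) (nat_lit 0) (nat_lit 13) (.e false (nat_lit 1152) (nat_lit 128) (nat_lit 0) (nat_lit 13) (.e false (nat_lit 1152) (nat_lit 129) (nat_lit 0) (nat_lit 13) (.e true (nat_lit 2304) (nat_lit 74) (nat_lit 4) (nat_lit 9) .nil))))))))))))))))) dP8_t4)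

noncomputable def dP8_t6 : Tr := (.nd dP8_t2 (nat_lit 40972) (nat_lit 362) (.n (nat_lit 144) (nat_lit 1596) (.p (nat_lit 145) (nat_lit 4800) (.p (nat_lit 146) (nat_lit 4836) (.p (nat_lit 147) (nat_lit 4176) (.n (nat_lit 148) (nat_lit 4488) (.p (nat_lit 149) (nat_lit 264) (.n (nat_lit 150) (nat_lit 192) (.p (nat_lit 151) (nat_lit 1140) (.p (nat_lit 152) (nat_lit 1068) (.n (nat_lit 153) (nat_lit 5028) (.p (nat_lit 154) (nat_lit 540) (.n (nat_lit 155) (nat_lit 3768) (.p (nat_lit 156) (nat_lit 48) (.n (nat_lit 157) (nat_lit 1440) (.n (nat_lit 158) (nat_lit 1278) (.p (nat_lit 159) (nat_lit 4734) (.n (nat_lit 160) (nat_lit 2190) (.p (nat_lit 161) (nat_lit 234) (.n (nat_lit 162) (nat_lit 576) (.n (nat_lit 163) (nat_lit 252) (.n (nat_lit 164) (nat_lit 876) (.n (nat_lit 165) (nat_lit 108) (.p (nat_lit 166) (nat_lit 1356) (.n (nat_lit 167) (nat_lit 924) (.n (nat_lit 168) (nat_lit 468) (.p (nat_lit 169) (nat_lit 432) (.n (nat_lit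 170) (nat_lit 216) (.n (nat_lit 171) (nat_lit 432) (.n (nat_lit 172) (nat_lit 432) (.p (nat_lit 176) (nat_lit 108) (.n (nat_lit 177) (nat_lit 216) (.p (nat_lit 178) (nat_lit 1656) (.n (nat_lit 179) (nat_lit 1080) (.p (nat_lit 180) (nat_lit 216) .z)))))))))))))))))))))))))))))))))) (.ct dP8_c292 (nat_lit 576) (nat_lit 4) (.s true (nat_lit 1) (nat_lit 7) (nat_lit 6) (nat_lit 6) (nat_lit 0) true (nat_lit 4) true (nat_lit 13) true (nat_lit 6) true (nat_lit 7) true (nat_lit 7) (.e false (nat_lit 576) (nat_lit 39) (nat_lit 12) (nat_lit 4) (.e true (nat_lit 576) (nat_lit 127) (nat_lit 0) (nat_lit 13) (.e false (nat_lit 576) (nat_lit 128) (nat_lit 0) (nat_lit 13) (.e false (nat_lit 576) (nat_lit 129) (nat_lit 0) (nat_lit 13) (.e true (nat_lit 576) (nat_lit 130) (nat_lit 0) (nat_lit 13) (.e false (nat_lit 576) (nat_lit 131) (nat_lit 0) (nat_lit 13) (.e true (nat_lit 576) (nat_lit 125) (nat_lit 0) (nat_lit 13) (.e false (nat_lit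 576) (nat_lit 126) (nat_lit 0) (nat_lit 13) (.e false (nat_lit 1728) (nat_lit 57) (nat_lit 6) (nat_lit 7) (.e true (nat_lit 576) (nat_lit 58) (nat_lit 6) (nat_lit 7) (.e true (nat_lit 576) (nat_lit 59) (nat_lit 6) (nat_lit 7) (.e false (nat_lit 576) (nat_lit 61) (nat_lit 6) (nat_lit 7) (.e true (nat_lit 576) (nat_lit 62) (nat_lit 6) (nat_lit 7) (.e true (nat_lit 576) (nat_lit 63) (nat_lit 6) (nat_lit 7) (.e false (nat_lit 1152) (nat_lit 64) (nat_lit 6) (nat_lit 7) (.e false (nat_lit 1152) (nat_lit 65) (nat_lit 6) (nat_lit 7) (.e true (nat_lit 1152) (nat_lit 56) (nat_lit 6) (nat_lit 7) .nil))))))))))))))))))) dP8_t5)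

noncomputable def dP8_cl : CL := (.c (nat_lit 256) (nat_lit 0) (nat_lit 1) (.c (nat_lit 16) (nat_lit 1) (nat_lit 1) (.c (nat_lit 1) (nat_lit 2) (nat_lit 1) (.c (nat_lit 272) (nat_lit 3) (nat_lit 1) (.c (nat_lit 32) (nat_lit 4) (nat_lit 1) (.c (nat_lit 257) (nat_lit 5) (nat_lit 1) (.c (nat_lit 17) (nat_lit 6) (nat_lit 1) (.c (nat_lit 2) (nat_lit 7) (nat_lit 1) (.c (nat_lit 288) (nat_lit 8) (nat_lit 2) (.c (nat_lit 273) (nat_lit 10) (nat_lit 3) (.c (nat_lit 33) (nat_lit 13) (nat_lit 2) (.c (nat_lit 258) (nat_lit 15) (nat_lit 2) (.c (nat_lit 18) (nat_lit 17) (nat_lit 2) (.c (nat_lit 3) (nat_lit 19) (nat_lit 1) (.c (nat_lit 289) (nat_lit 20) (nat_lit 6) (.c (nat_lit 274) (nat_lit 26) (nat_lit 6) (.c (nat_lit 34) (nat_lit 32) (nat_lit 3) (.c (nat_lit 259) (nat_lit 35) (nat_lit 3) (.c (nat_lit 19) (nat_lit 38) (nat_lit 3) (.c (nat_lit 4) (nat_lit 41) (nat_lit 1) (.c (nat_lit 290) (nat_lit 42) (nat_lit 14) (.c (nat_lit 275)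 (nat_lit 56) (nat_lit 11) (.c (nat_lit 35) (nat_lit 67) (nat_lit 6) (.c (nat_lit 260) (nat_lit 73) (nat_lit 4) (.c (nat_lit 20) (nat_lit 77) (nat_lit 4) (.c (nat_lit 5) (nat_lit 81) (nat_lit 1) (.c (nat_lit 291) (nat_lit 82) (nat_lit 26) (.c (nat_lit 276) (nat_lit 108) (nat_lit 16) (.c (nat_lit 36) (nat_lit 124) (nat_lit 10) (.c (nat_lit 261) (nat_lit 134) (nat_lit 5) (.c (nat_lit 21) (nat_lit 139) (nat_lit 5) (.c (nat_lit 292) (nat_lit 144) (nat_lit 37) (.c (nat_lit 277) (nat_lit 181) (nat_lit 19) (.c (nat_lit 37) (nat_lit 200) (nat_lit 11) .nil))))))))))))))))))))))))))))))))))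

noncomputable def dP8_D : Dt := ⟨(nat_lit 79228162514264337593543950336), (nat_lit 39614081257132168796771975168), (nat_lit 576), (nat_lit 211), (nat_lit 244924310164942518181997131666557528245062154198724815894891594515692483426268852689205358400179850657709090246110897074280670115251959065446202743630251033256039560783651281355092186157990228684084176451177923638313195833105895191763518289134065461727570481960492062111283912582608938498623701337447345108862204328599608608161174261449982679308086416800395061286254290404711817049893249582935143278781125399635879506918388765866812678088534866571902651450870317154926482089239692746745080378426359292973540058419228670822032148818783498175454747045286377236038009984050671230097932997019775823629271117899757350471155580403017664576751926671782825266426709054246455126383716516621850321953846028165896255790221586605886197654385100066246531505153356233803673151608080838787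10679861213952276469667358624322003794535385882733012400119716282921656030787046441054479059891953583122224813897113612401282622949593453029284607370709498747708565429120043333317171865161625728792691156999447187110778216326166708702964985934977083468150664787233010518463424927631410962562986972278672372188258873492685025700697586331163937799057753869602773337719061872469281670159905634748039635526733198643209260929581235623033413620894632401841133715727777350101857924118124051040126712405619796310199883462222561586255662643264126713929244455445891424337919210488489044310046043519649113936023925842643027095807186681741024562648514127255466776882251784913834878895995473176229485348990222739498489952259762875497864341213760672644767351308293), (nat_lit 3289402176598153094035071544505978921832973011386996092259164206), dP8_t6, dP8_cl⟩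

noncomputable def dP8_gs : BL := (.c (nat_lit 35) (nat_lit 3) (nat_lit 32) (nat_lit 3) (nat_lit 0) (.c (nat_lit 38) (nat_lit 3) (nat_lit 26) (nat_lit 6) (nat_lit 9) (.c (nat_lit 41) (nat_lit 1) (nat_lit 20) (nat_lit 6) (nat_lit 27) (.c (nat_lit 42) (nat_lit 14) (nat_lit 19) (nat_lit 1) (nat_lit 33) (.c (nat_lit 56) (nat_lit 11) (nat_lit 17) (nat_lit 2) (nat_lit 47) (.c (nat_lit 67) (nat_lit 6) (nat_lit 15) (nat_lit 2) (nat_lit 69) (.c (nat_lit 73) (nat_lit 4) (nat_lit 13) (nat_lit 2) (nat_lit 81) (.c (nat_lit 77) (nat_lit 4) (nat_lit 10) (nat_lit 3) (nat_lit 89) (.c (nat_lit 81) (nat_lit 1) (nat_lit 8) (nat_lit 2) (nat_lit 101) (.c (nat_lit 82) (nat_lit 26) (nat_lit 7) (nat_lit 1) (nat_lit 103) (.c (nat_lit 108) (nat_lit 16) (nat_lit 6) (nat_lit 1) (nat_lit 129) (.c (nat_lit 124) (nat_lit 10) (nat_lit 5) (nat_lit 1) (nat_lit 145) (.c (nat_lit 134) (nat_lit 5) (nat_lit 4) (nat_lit 1) (nat_lit 155) (.c (nat_lit 139) (nat_lit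 5) (nat_lit 3) (nat_lit 1) (nat_lit 160) (.c (nat_lit 144) (nat_lit 37) (nat_lit 2) (nat_lit 1) (nat_lit 165) (.c (nat_lit 181) (nat_lit 19) (nat_lit 1) (nat_lit 1) (nat_lit 202) (.c (nat_lit 200) (nat_lit 11) (nat_lit 0) (nat_lit 1) (nat_lit 221) .nil)))))))))))))))))

noncomputable def dP8_i90 : IL := (.s false (nat_lit 13073545691136) (nat_lit 62) (nat_lit 2) (nat_lit 2) (nat_lit 1) true (nat_lit 10) true (nat_lit 15) false (nat_lit 4) true (nat_lit 14) true (nat_lit 14) (.s true (nat_lit 1027369598976) (nat_lit 64) (nat_lit 2) (nat_lit 2) (nat_lit 1) true (nat_lit 10) true (nat_lit 15) false (nat_lit 4) true (nat_lit 14) true (nat_lit 14) (.s false (nat_lit 82099558416384) (nat_lit 65) (nat_lit 2) (nat_lit 2) (nat_lit 1) true (nat_lit 10) true (nat_lit 15) false (nat_lit 4) true (nat_lit 14) true (nat_lit 14) (.s false (nat_lit 23483880308736) (nat_lit 67) (nat_lit 0) (nat_lit 2) (nat_lit 2) true (nat_lit 11) true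 (nat_lit 14) false (nat_lit 5) true (nat_lit 16) true (nat_lit 14) (.s true (nat_lit 15659742265344) (nat_lit 68) (nat_lit 0) (nat_lit 2) (nat_lit 2) true (nat_lit 11) true (nat_lit 14) false (nat_lit 5) true (nat_lit 16) true (nat_lit 14) (.s true (nat_lit 3447879892992) (nat_lit 69) (nat_lit 0) (nat_lit 2) (nat_lit 2) true (nat_lit 11) true (nat_lit 14) false (nat_lit 5) true (nat_lit 16) true (nat_lit 14) (.s false (nat_lit 10239679660032) (nat_lit 71) (nat_lit 0) (nat_lit 2) (nat_lit 2) true (nat_lit 11) true (nat_lit 14) false (nat_lit 5) true (nat_lit 16) true (nat_lit 14) (.s false (nat_lit 47293017882624) (nat_lit 72) (nat_lit 0) (nat_lit 2) (nat_lit 2) true (nat_lit 11) true (nat_lit 14) false (nat_lit 5) true (nat_lit 16) true (nat_lit 14) (.s true (nat_lit 30799302230016) (nat_lit 68) (nat_lit 2) (nat_lit 0) (nat_lit 2) true (nat_lit 9) true (nat_lit 14) false (nat_lit 5) true (nat_lit 14) true (nat_lit 16)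 (.s false (nat_lit 27962187448320) (nat_lit 69) (nat_lit 2) (nat_lit 0) (nat_lit 2) true (nat_lit 9) true (nat_lit 14) false (nat_lit 5) true (nat_lit 14) true (nat_lit 16) (.s true (nat_lit 3082108796928) (nat_lit 70) (nat_lit 2) (nat_lit 0) (nat_lit 2) true (nat_lit 9) true (nat_lit 14) false (nat_lit 5) true (nat_lit 14) true (nat_lit 16) (.s true (nat_lit 12157589127168) (nat_lit 71) (nat_lit 2) (nat_lit 0) (nat_lit 2) true (nat_lit 9) true (nat_lit 14) false (nat_lit 5) true (nat_lit 14) true (nat_lit 16) (.s false (nat_lit 25993062383616) (nat_lit 72) (nat_lit 2) (nat_lit 0) (nat_lit 2) true (nat_lit 9) true (nat_lit 14) false (nat_lit 5) true (nat_lit 14) true (nat_lit 16) (.s true (nat_lit 3009489666048) (nat_lit 67) (nat_lit 2) (nat_lit 2) (nat_lit 0) true (nat_lit 11) true (nat_lit 16) false (nat_lit 5) true (nat_lit 14) true (nat_lit 14) (.s false (nat_lit 22239799934976) (nat_lit 68) (nat_lit 2) (nat_lit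 2) (nat_lit 0) true (nat_lit 11) true (nat_lit 16) false (nat_lit 5) true (nat_lit 14) true (nat_lit 14) (.s true (nat_lit 13383705821184) (nat_lit 69) (nat_lit 2) (nat_lit 2) (nat_lit 0) true (nat_lit 11) true (nat_lit 16) false (nat_lit 5) true (nat_lit 14) true (nat_lit 14) (.s true (nat_lit 15433476341760) (nat_lit 72) (nat_lit 2) (nat_lit 2) (nat_lit 0) true (nat_lit 11) true (nat_lit 16) false (nat_lit 5) true (nat_lit 14) true (nat_lit 14) (.s false (nat_lit 5833991651328) (nat_lit 74) (nat_lit 1) (nat_lit 1) (nat_lit 2) true (nat_lit 10) true (nat_lit 14) false (nat_lit 6) true (nat_lit 15) true (nat_lit 15) (.s false (nat_lit 11804813033472) (nat_lit 79) (nat_lit 0) (nat_lit 1) (nat_lit 2) true (nat_lit 11) true (nat_lit 14) false (nat_lit 7) true (nat_lit 16) true (nat_lit 15) (.s false (nat_lit 5139905642496) (nat_lit 80) (nat_lit 0) (nat_lit 1) (nat_lit 2) true (nat_lit 11) true (nat_lit 14) false (nat_lit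 7) true (nat_lit 16) true (nat_lit 15) (.s true (nat_lit 1541054398464) (nat_lit 78) (nat_lit 0) (nat_lit 2) (nat_lit 1) true (nat_lit 13) true (nat_lit 15) false (nat_lit 7) true (nat_lit 16) true (nat_lit 14) (.s false (nat_lit 1541054398464) (nat_lit 79) (nat_lit 0) (nat_lit 2) (nat_lit 1) true (nat_lit 13) true (nat_lit 15) false (nat_lit 7) true (nat_lit 16) true (nat_lit 14) (.s false (nat_lit 22022324748288) (nat_lit 79) (nat_lit 1) (nat_lit 0) (nat_lit 2) true (nat_lit 10) true (nat_lit 14) false (nat_lit 7) true (nat_lit 15) true (nat_lit 16) (.s true (nat_lit 16037361745920) (nat_lit 79) (nat_lit 2) (nat_lit 1) (nat_lit 0) true (nat_lit 11) true (nat_lit 16) false (nat_lit 7) true (nat_lit 14) true (nat_lit 15) (.s false (nat_lit 6245245255680) (nat_lit 80) (nat_lit 2) (nat_lit 1) (nat_lit 0) true (nat_lit 11) true (nat_lit 16) false (nat_lit 7) true (nat_lit 14) true (nat_lit 15) .nil)))))))))))))))))))))))))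

noncomputable def dP8_i91 : IL := (.s true (nat_lit 33327976808448) (nat_lit 50) (nat_lit 2) (nat_lit 2) (nat_lit 2) true (nat_lit 9) true (nat_lit 14) false (nat_lit 3) true (nat_lit 14) true (nat_lit 14) (.s false (nat_lit 20641605746688) (nat_lit 51) (nat_lit 2) (nat_lit 2) (nat_lit 2) true (nat_lit 9) true (nat_lit 14) false (nat_lit 3) true (nat_lit 14) true (nat_lit 14) (.s false (nat_lit 3900602843136) (nat_lit 53) (nat_lit 2) (nat_lit 2) (nat_lit 2) true (nat_lit 9) true (nat_lit 14) false (nat_lit 3) true (nat_lit 14) true (nat_lit 14) (.s true (nat_lit 21851669790720) (nat_lit 54) (nat_lit 2) (nat_lit 2) (nat_lit 2) true (nat_lit 9) true (nat_lit 14) false (nat_lit 3) true (nat_lit 14) true (nat_lit 14) (.s true (nat_lit 28902605193216) (nat_lit 55) (nat_lit 2) (nat_lit 2) (nat_lit 2) true (nat_lit 9) true (nat_lit 14) false (nat_lit 3) true (nat_lit 14) true (nat_lit 14) (.s true (nat_lit 24823129964544)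 (nat_lit 56) (nat_lit 1) (nat_lit 2) (nat_lit 2) true (nat_lit 10) true (nat_lit 14) false (nat_lit 4) true (nat_lit 15) true (nat_lit 14) (.s false (nat_lit 29878568091648) (nat_lit 57) (nat_lit 1) (nat_lit 2) (nat_lit 2) true (nat_lit 10) true (nat_lit 14) false (nat_lit 4) true (nat_lit 15) true (nat_lit 14) (.s true (nat_lit 6808234622976) (nat_lit 58) (nat_lit 1) (nat_lit 2) (nat_lit 2) true (nat_lit 10) true (nat_lit 14) false (nat_lit 4) true (nat_lit 15) true (nat_lit 14) (.s true (nat_lit 3726125826048) (nat_lit 59) (nat_lit 1) (nat_lit 2) (nat_lit 2) true (nat_lit 10) true (nat_lit 14) false (nat_lit 4) true (nat_lit 15) true (nat_lit 14) (.s false (nat_lit 3465461366784) (nat_lit 61) (nat_lit 1) (nat_lit 2) (nat_lit 2) true (nat_lit 10) true (nat_lit 14) false (nat_lit 4) true (nat_lit 15) true (nat_lit 14) (.s true (nat_lit 17696708886528) (nat_lit 62) (nat_lit 1) (nat_lit 2) (nat_lit 2) true (nat_lit 10)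 true (nat_lit 14) false (nat_lit 4) true (nat_lit 15) true (nat_lit 14) (.s false (nat_lit 4109478395904) (nat_lit 64) (nat_lit 1) (nat_lit 2) (nat_lit 2) true (nat_lit 10) true (nat_lit 14) false (nat_lit 4) true (nat_lit 15) true (nat_lit 14) (.s true (nat_lit 15752045002752) (nat_lit 65) (nat_lit 1) (nat_lit 2) (nat_lit 2) true (nat_lit 10) true (nat_lit 14) false (nat_lit 4) true (nat_lit 15) true (nat_lit 14) (.s false (nat_lit 30445761724416) (nat_lit 57) (nat_lit 2) (nat_lit 1) (nat_lit 2) true (nat_lit 9) true (nat_lit 14) false (nat_lit 4) true (nat_lit 14) true (nat_lit 15) (.s true (nat_lit 15084522307584) (nat_lit 58) (nat_lit 2) (nat_lit 1) (nat_lit 2) true (nat_lit 9) true (nat_lit 14) false (nat_lit 4) true (nat_lit 14) true (nat_lit 15) (.s true (nat_lit 39258666565632) (nat_lit 61) (nat_lit 2) (nat_lit 1) (nat_lit 2) true (nat_lit 9) true (nat_lit 14) false (nat_lit 4) true (nat_lit 14) true (nat_lit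 15) (.s false (nat_lit 36482131427328) (nat_lit 62) (nat_lit 2) (nat_lit 1) (nat_lit 2) true (nat_lit 9) true (nat_lit 14) false (nat_lit 4) true (nat_lit 14) true (nat_lit 15) (.s false (nat_lit 13761707507712) (nat_lit 63) (nat_lit 2) (nat_lit 1) (nat_lit 2) true (nat_lit 9) true (nat_lit 14) false (nat_lit 4) true (nat_lit 14) true (nat_lit 15) (.s true (nat_lit 21684072480768) (nat_lit 64) (nat_lit 2) (nat_lit 1) (nat_lit 2) true (nat_lit 9) true (nat_lit 14) false (nat_lit 4) true (nat_lit 14) true (nat_lit 15) (.s true (nat_lit 86544613638144) (nat_lit 65) (nat_lit 2) (nat_lit 1) (nat_lit 2) true (nat_lit 9) true (nat_lit 14) false (nat_lit 4) true (nat_lit 14) true (nat_lit 15) (.s true (nat_lit 12328435187712) (nat_lit 56) (nat_lit 2) (nat_lit 2) (nat_lit 1) true (nat_lit 10) true (nat_lit 15) false (nat_lit 4) true (nat_lit 14) true (nat_lit 14) (.s false (nat_lit 65555200475136) (nat_lit 57) (nat_lit 2) (nat_lit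 2) (nat_lit 1) true (nat_lit 10) true (nat_lit 15) false (nat_lit 4) true (nat_lit 14) true (nat_lit 14) (.s true (nat_lit 10935294492672) (nat_lit 58) (nat_lit 2) (nat_lit 2) (nat_lit 1) true (nat_lit 10) true (nat_lit 15) false (nat_lit 4) true (nat_lit 14) true (nat_lit 14) (.s true (nat_lit 22781003563008) (nat_lit 59) (nat_lit 2) (nat_lit 2) (nat_lit 1) true (nat_lit 10) true (nat_lit 15) false (nat_lit 4) true (nat_lit 14) true (nat_lit 14) (.s true (nat_lit 22781003563008) (nat_lit 61) (nat_lit 2) (nat_lit 2) (nat_lit 1) true (nat_lit 10) true (nat_lit 15) false (nat_lit 4) true (nat_lit 14) true (nat_lit 14) dP8_i90)))))))))))))))))))))))))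

noncomputable def dP8_i92 : IL := (.s false (nat_lit 21193702244352) (nat_lit 34) (nat_lit 5) (nat_lit 2) (nat_lit 2) true (nat_lit 5) true (nat_lit 14) true (nat_lit 0) true (nat_lit 11) true (nat_lit 14) (.s true (nat_lit 3499095490560) (nat_lit 33) (nat_lit 7) (nat_lit 2) (nat_lit 0) true (nat_lit 5) true (nat_lit 16) true (nat_lit 0) true (nat_lit 9) true (nat_lit 14) (.s true (nat_lit 4026157498368) (nat_lit 34) (nat_lit 7) (nat_lit 2) (nat_lit 0) true (nat_lit 5) true (nat_lit 16) true (nat_lit 0) true (nat_lit 9) true (nat_lit 14) (.s true (nat_lit 11330399895552) (nat_lit 36) (nat_lit 1) (nat_lit 1) (nat_lit 7) true (nat_lit 4) true (nat_lit 9) false (nat_lit 0) true (nat_lit 15) true (nat_lit 15) (.s true (nat_lit 15083662344192) (nat_lit 36) (nat_lit 1) (nat_lit 7) (nat_lit 1) true (nat_lit 12) true (nat_lit 15) false (nat_lit 0) true (nat_lit 15) true (nat_lit 9) (.s true (nat_lit 4292937252864) (nat_lit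 36) (nat_lit 2) (nat_lit 1) (nat_lit 6) true (nat_lit 4) true (nat_lit 10) false (nat_lit 0) true (nat_lit 14) true (nat_lit 15) (.s false (nat_lit 7951030419456) (nat_lit 35) (nat_lit 4) (nat_lit 2) (nat_lit 2) true (nat_lit 6) true (nat_lit 14) false (nat_lit 0) true (nat_lit 12) true (nat_lit 14) (.s false (nat_lit 13340516548608) (nat_lit 36) (nat_lit 4) (nat_lit 2) (nat_lit 2) true (nat_lit 6) true (nat_lit 14) false (nat_lit 0) true (nat_lit 12) true (nat_lit 14) (.s true (nat_lit 32105299968) (nat_lit 37) (nat_lit 6) (nat_lit 1) (nat_lit 2) true (nat_lit 4) true (nat_lit 14) false (nat_lit 0) true (nat_lit 10) true (nat_lit 15) (.s true (nat_lit 1743145795584) (nat_lit 36) (nat_lit 7) (nat_lit 1) (nat_lit 1) true (nat_lit 4) true (nat_lit 15) false (nat_lit 0) true (nat_lit 9) true (nat_lit 15) (.s true (nat_lit 2054739197952) (nat_lit 40) (nat_lit 0) (nat_lit 6) (nat_lit 2) true (nat_lit 11) true (nat_lit 14)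 false (nat_lit 1) true (nat_lit 16) true (nat_lit 10) (.s true (nat_lit 1284211998720) (nat_lit 39) (nat_lit 0) (nat_lit 7) (nat_lit 1) true (nat_lit 13) true (nat_lit 15) false (nat_lit 1) true (nat_lit 16) true (nat_lit 9) (.s false (nat_lit 25174377234432) (nat_lit 40) (nat_lit 0) (nat_lit 7) (nat_lit 1) true (nat_lit 13) true (nat_lit 15) false (nat_lit 1) true (nat_lit 16) true (nat_lit 9) (.s true (nat_lit 1027369598976) (nat_lit 39) (nat_lit 1) (nat_lit 0) (nat_lit 7) true (nat_lit 4) true (nat_lit 9) false (nat_lit 1) true (nat_lit 15) true (nat_lit 16) (.s true (nat_lit 1027369598976) (nat_lit 39) (nat_lit 1) (nat_lit 7) (nat_lit 0) true (nat_lit 13) true (nat_lit 16) false (nat_lit 1) true (nat_lit 15) true (nat_lit 9) (.s false (nat_lit 7639150362624) (nat_lit 40) (nat_lit 2) (nat_lit 0) (nat_lit 6) true (nat_lit 4) true (nat_lit 10) false (nat_lit 1) true (nat_lit 14) true (nat_lit 16) (.s false (nat_lit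 3082108796928) (nat_lit 40) (nat_lit 2) (nat_lit 1) (nat_lit 5) true (nat_lit 5) true (nat_lit 11) false (nat_lit 1) true (nat_lit 14) true (nat_lit 15) (.s true (nat_lit 1541054398464) (nat_lit 38) (nat_lit 2) (nat_lit 6) (nat_lit 0) true (nat_lit 11) true (nat_lit 16) false (nat_lit 1) true (nat_lit 14) true (nat_lit 10) (.s true (nat_lit 9624710283264) (nat_lit 38) (nat_lit 3) (nat_lit 2) (nat_lit 2) true (nat_lit 7) true (nat_lit 14) false (nat_lit 1) true (nat_lit 13) true (nat_lit 14) (.s true (nat_lit 16679849951232) (nat_lit 39) (nat_lit 3) (nat_lit 2) (nat_lit 2) true (nat_lit 7) true (nat_lit 14) false (nat_lit 1) true (nat_lit 13) true (nat_lit 14) (.s false (nat_lit 49248383533056) (nat_lit 40) (nat_lit 3) (nat_lit 2) (nat_lit 2) true (nat_lit 7) true (nat_lit 14) false (nat_lit 1) true (nat_lit 13) true (nat_lit 14) (.s true (nat_lit 17740853673984) (nat_lit 40) (nat_lit 5) (nat_lit 1) (nat_lit 2) true (nat_lit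 5) true (nat_lit 14) false (nat_lit 1) true (nat_lit 11) true (nat_lit 15) (.s false (nat_lit 1541054398464) (nat_lit 38) (nat_lit 6) (nat_lit 0) (nat_lit 2) true (nat_lit 4) true (nat_lit 14) false (nat_lit 1) true (nat_lit 10) true (nat_lit 16) (.s true (nat_lit 752754622464) (nat_lit 47) (nat_lit 2) (nat_lit 2) (nat_lit 2) true (nat_lit 9) true (nat_lit 14) false (nat_lit 3) true (nat_lit 14) true (nat_lit 14) (.s false (nat_lit 32307104710656) (nat_lit 48) (nat_lit 2) (nat_lit 2) (nat_lit 2) true (nat_lit 9) true (nat_lit 14) false (nat_lit 3) true (nat_lit 14) true (nat_lit 14) dP8_i91)))))))))))))))))))))))))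

noncomputable def dP8_i93 : IL := (.s false (nat_lit 65116619145216) (nat_lit 23) (nat_lit 2) (nat_lit 2) (nat_lit 7) true (nat_lit 3) true (nat_lit 9) true (nat_lit 2) true (nat_lit 14) true (nat_lit 14) (.s false (nat_lit 82127459450880) (nat_lit 24) (nat_lit 2) (nat_lit 2) (nat_lit 7) true (nat_lit 3) true (nat_lit 9) true (nat_lit 2) true (nat_lit 14) true (nat_lit 14) (.s false (nat_lit 73622517055488) (nat_lit 25) (nat_lit 2) (nat_lit 2) (nat_lit 7) true (nat_lit 3) true (nat_lit 9) true (nat_lit 2) true (nat_lit 14) true (nat_lit 14) (.s true (nat_lit 17208918540288) (nat_lit 25) (nat_lit 2) (nat_lit 7) (nat_lit 2) true (nat_lit 9) true (nat_lit 14) true (nat_lit 2) true (nat_lit 14) true (nat_lit 9) (.s true (nat_lit 3117653950464) (nat_lit 20) (nat_lit 7) (nat_lit 2) (nat_lit 2) true (nat_lit 3) true (nat_lit 14) true (nat_lit 2) true (nat_lit 9) true (nat_lit 14) (.s false (nat_lit 62713881427968) (nat_lit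 22) (nat_lit 7) (nat_lit 2) (nat_lit 2) true (nat_lit 3) true (nat_lit 14) true (nat_lit 2) true (nat_lit 9) true (nat_lit 14) (.s true (nat_lit 10613190426624) (nat_lit 25) (nat_lit 7) (nat_lit 2) (nat_lit 2) true (nat_lit 3) true (nat_lit 14) true (nat_lit 2) true (nat_lit 9) true (nat_lit 14) (.s false (nat_lit 28994525724672) (nat_lit 26) (nat_lit 1) (nat_lit 2) (nat_lit 7) true (nat_lit 4) true (nat_lit 9) true (nat_lit 1) true (nat_lit 15) true (nat_lit 14) (.s true (nat_lit 45892233068544) (nat_lit 27) (nat_lit 1) (nat_lit 2) (nat_lit 7) true (nat_lit 4) true (nat_lit 9) true (nat_lit 1) true (nat_lit 15) true (nat_lit 14) (.s true (nat_lit 11845709070336) (nat_lit 28) (nat_lit 1) (nat_lit 2) (nat_lit 7) true (nat_lit 4) true (nat_lit 9) true (nat_lit 1) true (nat_lit 15) true (nat_lit 14) (.s false (nat_lit 14247109066752) (nat_lit 27) (nat_lit 1) (nat_lit 7) (nat_lit 2) true (nat_lit 10) true (nat_lit 14) true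 (nat_lit 1) true (nat_lit 15) true (nat_lit 9) (.s false (nat_lit 513684799488) (nat_lit 30) (nat_lit 1) (nat_lit 7) (nat_lit 2) true (nat_lit 10) true (nat_lit 14) true (nat_lit 1) true (nat_lit 15) true (nat_lit 9) (.s false (nat_lit 24823129964544) (nat_lit 26) (nat_lit 2) (nat_lit 2) (nat_lit 6) true (nat_lit 4) true (nat_lit 10) true (nat_lit 1) true (nat_lit 14) true (nat_lit 14) (.s true (nat_lit 56598203990016) (nat_lit 27) (nat_lit 2) (nat_lit 2) (nat_lit 6) true (nat_lit 4) true (nat_lit 10) true (nat_lit 1) true (nat_lit 14) true (nat_lit 14) (.s true (nat_lit 13900448268288) (nat_lit 28) (nat_lit 2) (nat_lit 2) (nat_lit 6) true (nat_lit 4) true (nat_lit 10) true (nat_lit 1) true (nat_lit 14) true (nat_lit 14) (.s true (nat_lit 1541054398464) (nat_lit 28) (nat_lit 2) (nat_lit 6) (nat_lit 2) true (nat_lit 9) true (nat_lit 14) true (nat_lit 1) true (nat_lit 14) true (nat_lit 10) (.s true (nat_lit 91138155872256)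 (nat_lit 26) (nat_lit 2) (nat_lit 7) (nat_lit 1) true (nat_lit 10) true (nat_lit 15) true (nat_lit 1) true (nat_lit 14) true (nat_lit 9) (.s false (nat_lit 2825266397184) (nat_lit 30) (nat_lit 7) (nat_lit 1) (nat_lit 2) true (nat_lit 3) true (nat_lit 14) true (nat_lit 1) true (nat_lit 9) true (nat_lit 15) (.s true (nat_lit 23889783029760) (nat_lit 27) (nat_lit 7) (nat_lit 2) (nat_lit 1) true (nat_lit 4) true (nat_lit 15) true (nat_lit 1) true (nat_lit 9) true (nat_lit 14) (.s true (nat_lit 5304063098880) (nat_lit 33) (nat_lit 0) (nat_lit 7) (nat_lit 2) true (nat_lit 11) true (nat_lit 14) true (nat_lit 0) true (nat_lit 16) true (nat_lit 9) (.s false (nat_lit 9320283242496) (nat_lit 34) (nat_lit 0) (nat_lit 7) (nat_lit 2) true (nat_lit 11) true (nat_lit 14) true (nat_lit 0) true (nat_lit 16) true (nat_lit 9) (.s true (nat_lit 30697253240832) (nat_lit 33) (nat_lit 2) (nat_lit 2) (nat_lit 5) true (nat_lit 5) true (nat_lit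 11) true (nat_lit 0) true (nat_lit 14) true (nat_lit 14) (.s false (nat_lit 15251928514560) (nat_lit 33) (nat_lit 2) (nat_lit 7) (nat_lit 0) true (nat_lit 11) true (nat_lit 16) true (nat_lit 0) true (nat_lit 14) true (nat_lit 9) (.s false (nat_lit 12501192278016) (nat_lit 34) (nat_lit 2) (nat_lit 7) (nat_lit 0) true (nat_lit 11) true (nat_lit 16) true (nat_lit 0) true (nat_lit 14) true (nat_lit 9) (.s true (nat_lit 19009777434624) (nat_lit 33) (nat_lit 5) (nat_lit 2) (nat_lit 2) true (nat_lit 5) true (nat_lit 14) true (nat_lit 0) true (nat_lit 11) true (nat_lit 14) dP8_i92)))))))))))))))))))))))))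

noncomputable def dP8_i94 : IL := (.s true (nat_lit 20664729206784) (nat_lit 19) (nat_lit 0) (nat_lit 17) (nat_lit 1) true (nat_lit 13) true (nat_lit 15) true (nat_lit 3) true (nat_lit 16) true (nat_lit 4) (.s true (nat_lit 4549015240704) (nat_lit 19) (nat_lit 1) (nat_lit 0) (nat_lit 17) true (nat_lit 0) true (nat_lit 4) true (nat_lit 3) true (nat_lit 15) true (nat_lit 16) (.s false (nat_lit 15309068304384) (nat_lit 19) (nat_lit 1) (nat_lit 1) (nat_lit 15) true (nat_lit 1) true (nat_lit 5) true (nat_lit 3) true (nat_lit 15) true (nat_lit 15) (.s false (nat_lit 8497967136768) (nat_lit 19) (nat_lit 1) (nat_lit 1) (nat_lit 16) true (nat_lit 1) true (nat_lit 5) true (nat_lit 3) true (nat_lit 15) true (nat_lit 15) (.s false (nat_lit 43620783095808) (nat_lit 19) (nat_lit 1) (nat_lit 2) (nat_lit 10) true (nat_lit 2) true (nat_lit 7) true (nat_lit 3) true (nat_lit 15) true (nat_lit 14) (.s false (nat_lit 37715510034432) (nat_lit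 19) (nat_lit 1) (nat_lit 7) (nat_lit 3) true (nat_lit 8) true (nat_lit 13) true (nat_lit 3) true (nat_lit 15) true (nat_lit 9) (.s false (nat_lit 7240509554688) (nat_lit 19) (nat_lit 1) (nat_lit 12) (nat_lit 2) true (nat_lit 10) true (nat_lit 14) true (nat_lit 3) true (nat_lit 15) true (nat_lit 7) (.s true (nat_lit 2645820702720) (nat_lit 19) (nat_lit 1) (nat_lit 15) (nat_lit 1) true (nat_lit 12) true (nat_lit 15) true (nat_lit 3) true (nat_lit 15) true (nat_lit 5) (.s true (nat_lit 7832546574336) (nat_lit 19) (nat_lit 1) (nat_lit 16) (nat_lit 1) true (nat_lit 12) true (nat_lit 15) true (nat_lit 3) true (nat_lit 15) true (nat_lit 5) (.s false (nat_lit 26549172043776) (nat_lit 19) (nat_lit 1) (nat_lit 17) (nat_lit 0) true (nat_lit 13) true (nat_lit 16) true (nat_lit 3) true (nat_lit 15) true (nat_lit 4) (.s true (nat_lit 71111710605312) (nat_lit 19) (nat_lit 2) (nat_lit 1) (nat_lit 10) true (nat_lit 1) true (nat_lit 7)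 true (nat_lit 3) true (nat_lit 14) true (nat_lit 15) (.s true (nat_lit 23938705391616) (nat_lit 19) (nat_lit 2) (nat_lit 3) (nat_lit 6) true (nat_lit 4) true (nat_lit 10) true (nat_lit 3) true (nat_lit 14) true (nat_lit 13) (.s true (nat_lit 17032626044928) (nat_lit 19) (nat_lit 2) (nat_lit 12) (nat_lit 1) true (nat_lit 10) true (nat_lit 15) true (nat_lit 3) true (nat_lit 14) true (nat_lit 7) (.s false (nat_lit 10234710982656) (nat_lit 19) (nat_lit 2) (nat_lit 13) (nat_lit 0) true (nat_lit 11) true (nat_lit 16) true (nat_lit 3) true (nat_lit 14) true (nat_lit 6) (.s true (nat_lit 7283507724288) (nat_lit 19) (nat_lit 3) (nat_lit 7) (nat_lit 1) true (nat_lit 8) true (nat_lit 15) true (nat_lit 3) true (nat_lit 13) true (nat_lit 9) (.s true (nat_lit 2138346749952) (nat_lit 19) (nat_lit 4) (nat_lit 0) (nat_lit 7) true (nat_lit 0) true (nat_lit 9) true (nat_lit 3) true (nat_lit 12) true (nat_lit 16) (.s true (nat_lit 10440528887808)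 (nat_lit 19) (nat_lit 4) (nat_lit 7) (nat_lit 0) true (nat_lit 8) true (nat_lit 16) true (nat_lit 3) true (nat_lit 12) true (nat_lit 9) (.s true (nat_lit 995264299008) (nat_lit 19) (nat_lit 6) (nat_lit 6) (nat_lit 0) true (nat_lit 7) true (nat_lit 16) true (nat_lit 3) true (nat_lit 10) true (nat_lit 10) (.s false (nat_lit 3850820517888) (nat_lit 19) (nat_lit 7) (nat_lit 0) (nat_lit 4) true (nat_lit 0) true (nat_lit 12) true (nat_lit 3) true (nat_lit 9) true (nat_lit 16) (.s true (nat_lit 3117653950464) (nat_lit 19) (nat_lit 8) (nat_lit 2) (nat_lit 2) true (nat_lit 2) true (nat_lit 14) true (nat_lit 3) true (nat_lit 8) true (nat_lit 14) (.s false (nat_lit 119627023122432) (nat_lit 19) (nat_lit 10) (nat_lit 1) (nat_lit 2) true (nat_lit 1) true (nat_lit 14) true (nat_lit 3) true (nat_lit 7) true (nat_lit 15) (.s false (nat_lit 19093098332160) (nat_lit 19) (nat_lit 10) (nat_lit 2) (nat_lit 1) true (nat_lit 2) true (nat_lit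 15) true (nat_lit 3) true (nat_lit 7) true (nat_lit 14) (.s true (nat_lit 15309068304384) (nat_lit 19) (nat_lit 15) (nat_lit 1) (nat_lit 1) true (nat_lit 1) true (nat_lit 15) true (nat_lit 3) true (nat_lit 5) true (nat_lit 15) (.s false (nat_lit 12119368531968) (nat_lit 19) (nat_lit 16) (nat_lit 1) (nat_lit 1) true (nat_lit 1) true (nat_lit 15) true (nat_lit 3) true (nat_lit 5) true (nat_lit 15) (.s true (nat_lit 21229247397888) (nat_lit 19) (nat_lit 17) (nat_lit 1) (nat_lit 0) true (nat_lit 1) true (nat_lit 16) true (nat_lit 3) true (nat_lit 4) true (nat_lit 15) dP8_i93)))))))))))))))))))))))))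

noncomputable def dP8_i95 : IL := (.s true (nat_lit 15274478665728) (nat_lit 11) (nat_lit 7) (nat_lit 6) (nat_lit 2) true (nat_lit 3) true (nat_lit 14) true (nat_lit 7) true (nat_lit 9) true (nat_lit 10) (.s true (nat_lit 59318554853376) (nat_lit 10) (nat_lit 7) (nat_lit 7) (nat_lit 1) true (nat_lit 4) true (nat_lit 15) true (nat_lit 7) true (nat_lit 9) true (nat_lit 9) (.s true (nat_lit 8415219548160) (nat_lit 13) (nat_lit 0) (nat_lit 7) (nat_lit 7) true (nat_lit 5) true (nat_lit 9) true (nat_lit 6) true (nat_lit 16) true (nat_lit 9) (.s false (nat_lit 622422392832) (nat_lit 13) (nat_lit 7) (nat_lit 7) (nat_lit 0) true (nat_lit 5) true (nat_lit 16) true (nat_lit 6) true (nat_lit 9) true (nat_lit 9) (.s false (nat_lit 14768055779328) (nat_lit 14) (nat_lit 7) (nat_lit 7) (nat_lit 0) true (nat_lit 5) true (nat_lit 16) true (nat_lit 6) true (nat_lit 9) true (nat_lit 9) (.s false (nat_lit 7951030419456) (nat_lit 15) (nat_lit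 2) (nat_lit 2) (nat_lit 13) true (nat_lit 0) true (nat_lit 6) true (nat_lit 5) true (nat_lit 14) true (nat_lit 14) (.s true (nat_lit 2183924809728) (nat_lit 15) (nat_lit 2) (nat_lit 2) (nat_lit 14) true (nat_lit 0) true (nat_lit 6) true (nat_lit 5) true (nat_lit 14) true (nat_lit 14) (.s false (nat_lit 10820632707072) (nat_lit 15) (nat_lit 2) (nat_lit 4) (nat_lit 7) true (nat_lit 3) true (nat_lit 9) true (nat_lit 5) true (nat_lit 14) true (nat_lit 12) (.s true (nat_lit 3082108796928) (nat_lit 15) (nat_lit 2) (nat_lit 6) (nat_lit 6) true (nat_lit 4) true (nat_lit 10) true (nat_lit 5) true (nat_lit 14) true (nat_lit 10) (.s true (nat_lit 2183924809728) (nat_lit 15) (nat_lit 2) (nat_lit 14) (nat_lit 2) true (nat_lit 9) true (nat_lit 14) true (nat_lit 5) true (nat_lit 14) true (nat_lit 6) (.s true (nat_lit 2344069103616) (nat_lit 16) (nat_lit 2) (nat_lit 13) (nat_lit 2) true (nat_lit 9) true (nat_lit 14) true (nat_lit 5)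 true (nat_lit 14) true (nat_lit 6) (.s false (nat_lit 10596851122176) (nat_lit 15) (nat_lit 4) (nat_lit 2) (nat_lit 7) true (nat_lit 0) true (nat_lit 9) true (nat_lit 5) true (nat_lit 12) true (nat_lit 14) (.s false (nat_lit 1541054398464) (nat_lit 15) (nat_lit 6) (nat_lit 2) (nat_lit 6) true (nat_lit 0) true (nat_lit 10) true (nat_lit 5) true (nat_lit 10) true (nat_lit 14) (.s false (nat_lit 1541054398464) (nat_lit 17) (nat_lit 2) (nat_lit 0) (nat_lit 17) false (nat_lit 1) true (nat_lit 4) true (nat_lit 4) true (nat_lit 14) true (nat_lit 16) (.s false (nat_lit 9624710283264) (nat_lit 17) (nat_lit 2) (nat_lit 2) (nat_lit 10) true (nat_lit 1) true (nat_lit 7) true (nat_lit 4) true (nat_lit 14) true (nat_lit 14) (.s true (nat_lit 30335304204288) (nat_lit 17) (nat_lit 2) (nat_lit 3) (nat_lit 7) true (nat_lit 3) true (nat_lit 9) true (nat_lit 4) true (nat_lit 14) true (nat_lit 13) (.s true (nat_lit 1541054398464) (nat_lit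 17) (nat_lit 2) (nat_lit 6) (nat_lit 5) true (nat_lit 5) true (nat_lit 11) true (nat_lit 4) true (nat_lit 14) true (nat_lit 10) (.s true (nat_lit 15509153120256) (nat_lit 17) (nat_lit 2) (nat_lit 7) (nat_lit 3) true (nat_lit 7) true (nat_lit 13) true (nat_lit 4) true (nat_lit 14) true (nat_lit 9) (.s true (nat_lit 22781003563008) (nat_lit 18) (nat_lit 2) (nat_lit 7) (nat_lit 3) true (nat_lit 7) true (nat_lit 13) true (nat_lit 4) true (nat_lit 14) true (nat_lit 9) (.s false (nat_lit 16666090536960) (nat_lit 18) (nat_lit 10) (nat_lit 2) (nat_lit 2) true (nat_lit 1) true (nat_lit 14) true (nat_lit 4) true (nat_lit 7) true (nat_lit 14) (.s true (nat_lit 27007819186176) (nat_lit 18) (nat_lit 11) (nat_lit 2) (nat_lit 2) true (nat_lit 1) true (nat_lit 14) true (nat_lit 4) true (nat_lit 7) true (nat_lit 14) (.s false (nat_lit 25786288963584) (nat_lit 19) (nat_lit 0) (nat_lit 1) (nat_lit 17) true (nat_lit 1) true (nat_lit 4)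 true (nat_lit 3) true (nat_lit 16) true (nat_lit 15) (.s true (nat_lit 6595728113664) (nat_lit 19) (nat_lit 0) (nat_lit 2) (nat_lit 13) true (nat_lit 2) true (nat_lit 6) true (nat_lit 3) true (nat_lit 16) true (nat_lit 14) (.s false (nat_lit 3747147153408) (nat_lit 19) (nat_lit 0) (nat_lit 4) (nat_lit 7) true (nat_lit 5) true (nat_lit 9) true (nat_lit 3) true (nat_lit 16) true (nat_lit 12) (.s true (nat_lit 14391582916608) (nat_lit 19) (nat_lit 0) (nat_lit 7) (nat_lit 4) true (nat_lit 8) true (nat_lit 12) true (nat_lit 3) true (nat_lit 16) true (nat_lit 9) dP8_i94)))))))))))))))))))))))))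

noncomputable def dP8_il : IL := (.s false (nat_lit 19353953894400) (nat_lit 7) (nat_lit 3) (nat_lit 7) (nat_lit 6) true (nat_lit 2) true (nat_lit 10) true (nat_lit 9) true (nat_lit 13) true (nat_lit 9) (.s true (nat_lit 7642685767680) (nat_lit 7) (nat_lit 4) (nat_lit 7) (nat_lit 5) true (nat_lit 2) true (nat_lit 11) true (nat_lit 9) true (nat_lit 12) true (nat_lit 9) (.s false (nat_lit 21384614117376) (nat_lit 8) (nat_lit 2) (nat_lit 7) (nat_lit 7) true (nat_lit 3) true (nat_lit 9) true (nat_lit 8) true (nat_lit 14) true (nat_lit 9) (.s false (nat_lit 5395219218432) (nat_lit 9) (nat_lit 2) (nat_lit 7) (nat_lit 7) true (nat_lit 3) true (nat_lit 9) true (nat_lit 8) true (nat_lit 14) true (nat_lit 9) (.s true (nat_lit 105271940874240) (nat_lit 8) (nat_lit 7) (nat_lit 2) (nat_lit 7) false (nat_lit 2) true (nat_lit 9) true (nat_lit 8) true (nat_lit 9) true (nat_lit 14) (.s true (nat_lit 7702596550656) (nat_lit 9) (nat_lit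 7) (nat_lit 2) (nat_lit 7) false (nat_lit 2) true (nat_lit 9) true (nat_lit 8) true (nat_lit 9) true (nat_lit 14) (.s true (nat_lit 86154572464128) (nat_lit 10) (nat_lit 2) (nat_lit 7) (nat_lit 6) true (nat_lit 4) true (nat_lit 10) true (nat_lit 7) true (nat_lit 14) true (nat_lit 9) (.s true (nat_lit 5599317196800) (nat_lit 10) (nat_lit 6) (nat_lit 7) (nat_lit 2) true (nat_lit 4) true (nat_lit 14) true (nat_lit 7) true (nat_lit 10) true (nat_lit 9) (.s false (nat_lit 7179929911296) (nat_lit 10) (nat_lit 7) (nat_lit 1) (nat_lit 7) false (nat_lit 2) true (nat_lit 9) true (nat_lit 7) true (nat_lit 9) true (nat_lit 15) (.s true (nat_lit 18600052654080) (nat_lit 11) (nat_lit 7) (nat_lit 1) (nat_lit 7) false (nat_lit 2) true (nat_lit 9) true (nat_lit 7) true (nat_lit 9) true (nat_lit 15) (.s false (nat_lit 2102897147904) (nat_lit 10) (nat_lit 7) (nat_lit 2) (nat_lit 6) false (nat_lit 1) true (nat_lit 10) true (nat_lit 7) true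 (nat_lit 9) true (nat_lit 14) dP8_i95)))))))))))

theorem dP8_chk : chk 35 idsM dP8_D par2 (clsL [0,0,0,0,0,1,1,2]) P8Ex (.c (nat_lit 2) (nat_lit 1) (.c (nat_lit 2) (nat_lit 1) (.c (nat_lit 2) (nat_lit 1) (.c (nat_lit 2) (nat_lit 1) (.c (nat_lit 2) (nat_lit 1) (.c (nat_lit 1) (nat_lit 16) (.c (nat_lit 1) (nat_lit 16) (.c (nat_lit 0) (nat_lit 256) .nil)))))))) (nat_lit 474) (nat_lit 293) (nat_lit 7) dP8_gs dP8_il = true := by
  decide +kernel

end Chk

/-- certificate of `P8Ex` -/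
theorem cert_P8Ex : Cert.{u} 35 idsM par2 (clsL [0,0,0,0,0,1,1,2]) P8Ex :=
  Chk.chk_sound _ _ (by simp [idsM]) (by simp [idsM]) _ _ _ _ _ _ _ _ _ _ Chk.dP8_chk

end Pool.Agent.MalP
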