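import Pool.Agent.MalP.Check4
import Pool.Agent.MalP.CertPar

/-! # Certificate of R7Ex -/

set_option autoImplicit false
set_option maxRecDepth 100000

namespace Pool.Agent.MalP

universe u

namespace Chk

noncomputable def dR7_c34 : Cm := .mk (nat_lit 7) (nat_lit 34) (nat_lit 9) (nat_lit 3) (.c (nat_lit 2) (nat_lit 1) (nat_lit 2) (nat_lit 1) (nat_lit 3) (.c (nat_lit 4) (nat_lit 1) (nat_lit 1) (nat_lit 1) (nat_lit 4) (.c (nat_lit 5) (nat_lit 2) (nat_lit 0) (nat_lit 1) (nat_lit 5) (.c (nat_lit 2032) (nat_lit 0) (nat_lit 3) (nat_lit 1) (nat_lit 7) .nil))))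

noncomputable def dR7_c19 : Cm := .mk (nat_lit 11) (nat_lit 19) (nat_lit 12) (nat_lit 3) (.c (nat_lit 3) (nat_lit 1) (nat_lit 2) (nat_lit 1) (nat_lit 3) (.c (nat_lit 5) (nat_lit 2) (nat_lit 1) (nat_lit 1) (nat_lit 4) (.c (nat_lit 7) (nat_lit 1) (nat_lit 0) (nat_lit 1) (nat_lit 6) .nil)))

noncomputable def dR7_c50 : Cm := .mk (nat_lit 16) (nat_lit 50) (nat_lit 16) (nat_lit 3) (.c (nat_lit 4) (nat_lit 1) (nat_lit 2) (nat_lit 1) (nat_lit 3) (.c (nat_lit 8) (nat_lit 1) (nat_lit 1) (nat_lit 1) (nat_lit 4) (.c (nat_lit 9) (nat_lit 3) (nat_lit 0) (nat_lit 1) (nat_lit 5) (.c (nat_lit 2032) (nat_lit 0) (nat_lit 5) (nat_lit 2) (nat_lit 8) (.c (nat_lit 2048) (nat_lit 0) (nat_lit 3) (nat_lit 1) (nat_lit 8) .nil)))))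

noncomputable def dR7_c35 : Cm := .mk (nat_lit 21) (nat_lit 35) (nat_lit 19) (nat_lit 5) (.c (nat_lit 4) (nat_lit 1) (nat_lit 3) (nat_lit 1) (nat_lit 5) (.c (nat_lit 5) (nat_lit 2) (nat_lit 2) (nat_lit 1) (nat_lit 6) (.c (nat_lit 9) (nat_lit 3) (nat_lit 1) (nat_lit 1) (nat_lit 8) (.c (nat_lit 12) (nat_lit 3) (nat_lit 0) (nat_lit 1) (nat_lit 11) (.c (nat_lit 2032) (nat_lit 0) (nat_lit 7) (nat_lit 1) (nat_lit 14) .nil)))))

noncomputable def dR7_c20 : Cm := .mk (nat_lit 30) (nat_lit 20) (nat_lit 24) (nat_lit 4) (.c (nat_lit 5) (nat_lit 2) (nat_lit 3) (nat_lit 1) (nat_lit 4) (.c (nat_lit 7) (nat_lit 1) (nat_lit 2) (nat_lit 1) (nat_lit 6) (.c (nat_lit 12) (nat_lit 3) (nat_lit 1) (nat_lit 1) (nat_lit 7) (.c (nat_lit 15) (nat_lit 1) (nat_lit 0) (nat_lit 1) (nat_lit 10) .nil))))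

noncomputable def dR7_c51 : Cm := .mk (nat_lit 37) (nat_lit 51) (nat_lit 28) (nat_lit 6) (.c (nat_lit 5) (nat_lit 2) (nat_lit 4) (nat_lit 1) (nat_lit 6) (.c (nat_lit 8) (nat_lit 1) (nat_lit 3) (nat_lit 1) (nat_lit 8) (.c (nat_lit 9) (nat_lit 3) (nat_lit 2) (nat_lit 1) (nat_lit 9) (.c (nat_lit 16) (nat_lit 3) (nat_lit 1) (nat_lit 1) (nat_lit 12) (.c (nat_lit 19) (nat_lit 5) (nat_lit 0) (nat_lit 1) (nat_lit 15) (.c (nat_lit 2032) (nat_lit 0) (nat_lit 12) (nat_lit 3) (nat_lit 20) (.c (nat_lit 2048) (nat_lit 0) (nat_lit 7) (nat_lit 1) (nat_lit 20) .nil)))))))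

noncomputable def dR7_c36 : Cm := .mk (nat_lit 49) (nat_lit 36) (nat_lit 34) (nat_lit 6) (.c (nat_lit 5) (nat_lit 2) (nat_lit 5) (nat_lit 2) (nat_lit 6) (.c (nat_lit 7) (nat_lit 1) (nat_lit 4) (nat_lit 1) (nat_lit 10) (.c (nat_lit 9) (nat_lit 3) (nat_lit 3) (nat_lit 1) (nat_lit 11) (.c (nat_lit 12) (nat_lit 3) (nat_lit 2) (nat_lit 1) (nat_lit 14) (.c (nat_lit 19) (nat_lit 5) (nat_lit 1) (nat_lit 1) (nat_lit 17) (.c (nat_lit 24) (nat_lit 4) (nat_lit 0) (nat_lit 1) (nat_lit 22) (.c (nat_lit 2032) (nat_lit 0) (nat_lit 15) (nat_lit 1) (nat_lit 26) .nil)))))))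

noncomputable def dR7_t0 : Tr := (.nd (.nd (.nd (.nd (.nd (.nd (.nd .leaf (nat_lit 1024) (nat_lit 0) (.p (nat_lit 2) (nat_lit 4) .z) .df .leaf) (nat_lit 1025) (nat_lit 1) (.p (nat_lit 3) (nat_lit 4) .z) .df .leaf) (nat_lit 2048) (nat_lit 2) (.p (nat_lit 4) (nat_lit 4) .z) .df (.nd .leaf (nat_lit 2049) (nat_lit 3) (.p (nat_lit 5) (nat_lit 4) .z) .df .leaf)) (nat_lit 2050) (nat_lit 10) (.n (nat_lit 9) (nat_lit 4) (.n (nat_lit 10) (nat_lit 4) (.p (nat_lit 11) (nat_lit 4) .z))) (.ct dR7_c34 (nat_lit 4) (nat_lit 0) (.s true (nat_lit 1) (nat_lit 1) (nat_lit 0) (nat_lit 0) (nat_lit 1) true (nat_lit 0) true (nat_lit 1) true (nat_lit 1) true (nat_lit 2) true (nat_lit 2) (.e true (nat_lit 4) (nat_lit 4) (nat_lit 1) (nat_lit 1) (.e true (nat_lit 4) (nat_lit 5) (nat_lit 0) (nat_lit 2) (.e false (nat_lit 4) (nat_lit 6) (nat_lit 0) (nat_lit 2) .nil))))) (.nd (.nd .leaf (nat_lit 3072)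 (nat_lit 4) (.p (nat_lit 6) (nat_lit 4) .z) .df .leaf) (nat_lit 3073) (nat_lit 5) (.p (nat_lit 7) (nat_lit 4) .z) .df (.nd .leaf (nat_lit 3074) (nat_lit 14) (.n (nat_lit 13) (nat_lit 4) (.n (nat_lit 14) (nat_lit 4) .z)) (.ct dR7_c19 (nat_lit 4) (nat_lit 0) (.s true (nat_lit 1) (nat_lit 1) (nat_lit 0) (nat_lit 1) (nat_lit 1) true (nat_lit 0) true (nat_lit 1) true (nat_lit 1) true (nat_lit 2) true (nat_lit 1) (.e true (nat_lit 4) (nat_lit 7) (nat_lit 0) (nat_lit 2) (.e true (nat_lit 4) (nat_lit 6) (nat_lit 1) (nat_lit 1) .nil)))) .leaf))) (nat_lit 4096) (nat_lit 6) (.p (nat_lit 8) (nat_lit 4) .z) .df (.nd (.nd (.nd .leaf (nat_lit 4097) (nat_lit 7) (.p (nat_lit 9) (nat_lit 4) .z) .df .leaf) (nat_lit 4098) (nat_lit 19) (.n (nat_lit 17) (nat_lit 2) (.p (nat_lit 18) (nat_lit 2) .z)) (.ct dR7_c50 (nat_lit 8) (nat_lit 0) (.s false (nat_lit 1) (nat_lit 2) (nat_lit 1) (nat_lit 0)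 (nat_lit 0) true (nat_lit 0) true (nat_lit 2) true (nat_lit 0) true (nat_lit 1) true (nat_lit 2) (.e false (nat_lit 4) (nat_lit 10) (nat_lit 0) (nat_lit 2) (.e true (nat_lit 4) (nat_lit 9) (nat_lit 0) (nat_lit 2) .nil)))) (.nd .leaf (nat_lit 4099) (nat_lit 26) (.n (nat_lit 20) (nat_lit 4) (.p (nat_lit 22) (nat_lit 8) (.p (nat_lit 23) (nat_lit 4) .z))) (.ct dR7_c35 (nat_lit 4) (nat_lit 0) (.s false (nat_lit 1) (nat_lit 3) (nat_lit 0) (nat_lit 1) (nat_lit 0) false (nat_lit 4) true (nat_lit 3) true (nat_lit 0) true (nat_lit 3) true (nat_lit 2) (.e false (nat_lit 8) (nat_lit 13) (nat_lit 0) (nat_lit 3) (.e false (nat_lit 4) (nat_lit 14) (nat_lit 0) (nat_lit 3) (.e true (nat_lit 4) (nat_lit 11) (nat_lit 1) (nat_lit 2) .nil))))) .leaf)) (nat_lit 5120) (nat_lit 8) (.p (nat_lit 10) (nat_lit 4) .z) .df (.nd (.nd .leaf (nat_lit 5121) (nat_lit 11) (.p (nat_lit 12) (nat_lit 4) .z) .df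 .leaf) (nat_lit 5122) (nat_lit 29) (.p (nat_lit 19) (nat_lit 4) (.n (nat_lit 21) (nat_lit 4) (.n (nat_lit 23) (nat_lit 4) .z))) (.ct dR7_c35 (nat_lit 4) (nat_lit 1) (.s true (nat_lit 1) (nat_lit 2) (nat_lit 1) (nat_lit 0) (nat_lit 1) true (nat_lit 0) true (nat_lit 2) true (nat_lit 1) true (nat_lit 2) true (nat_lit 3) (.e false (nat_lit 4) (nat_lit 4) (nat_lit 3) (nat_lit 0) (.e true (nat_lit 8) (nat_lit 10) (nat_lit 1) (nat_lit 2) (.e true (nat_lit 4) (nat_lit 9) (nat_lit 1) (nat_lit 2) (.e false (nat_lit 4) (nat_lit 11) (nat_lit 1) (nat_lit 2) (.e true (nat_lit 4) (nat_lit 12) (nat_lit 0) (nat_lit 3) .nil))))))) (.nd .leaf (nat_lit 5123) (nat_lit 34) (.p (nat_lit 25) (nat_lit 4) (.n (nat_lit 27) (nat_lit 4) .z)) (.ct dR7_c20 (nat_lit 8) (nat_lit 0) (.s true (nat_lit 1) (nat_lit 2) (nat_lit 1) (nat_lit 1) (nat_lit 1) true (nat_lit 0) true (nat_lit 2) true (nat_lit 1) true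 (nat_lit 2) true (nat_lit 2) (.s true (nat_lit 1) (nat_lit 3) (nat_lit 1) (nat_lit 0) (nat_lit 1) true (nat_lit 0) true (nat_lit 2) true (nat_lit 0) true (nat_lit 2) true (nat_lit 3) (.s true (nat_lit 1) (nat_lit 3) (nat_lit 1) (nat_lit 1) (nat_lit 0) true (nat_lit 1) true (nat_lit 3) true (nat_lit 0) true (nat_lit 2) true (nat_lit 2) (.e false (nat_lit 8) (nat_lit 13) (nat_lit 1) (nat_lit 2) (.e true (nat_lit 8) (nat_lit 15) (nat_lit 0) (nat_lit 3) .nil)))))) .leaf)))) (nat_lit 5124) (nat_lit 46) (.p (nat_lit 28) (nat_lit 6) (.n (nat_lit 30) (nat_lit 2) (.n (nat_lit 31) (nat_lit 4) (.p (nat_lit 32) (nat_lit 3) (.n (nat_lit 33) (nat_lit 3) .z))))) (.ct dR7_c51 (nat_lit 4) (nat_lit 0) (.s false (nat_lit 1) (nat_lit 4) (nat_lit 0) (nat_lit 1) (nat_lit 1) true (nat_lit 2) true (nat_lit 3) true (nat_lit 0) true (nat_lit 4) true (nat_lit 3) (.e false (nat_lit 4) (nat_lit 9) (nat_lit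 2) (nat_lit 2) (.e false (nat_lit 4) (nat_lit 16) (nat_lit 1) (nat_lit 3) (.e false (nat_lit 4) (nat_lit 20) (nat_lit 0) (nat_lit 4) (.e true (nat_lit 8) (nat_lit 22) (nat_lit 0) (nat_lit 4) (.e true (nat_lit 4) (nat_lit 23) (nat_lit 0) (nat_lit 4) (.e false (nat_lit 4) (nat_lit 17) (nat_lit 1) (nat_lit 3) .nil)))))))) (.nd (.nd (.nd (.nd .leaf (nat_lit 6144) (nat_lit 9) (.p (nat_lit 11) (nat_lit 4) .z) .df .leaf) (nat_lit 6145) (nat_lit 12) (.p (nat_lit 13) (nat_lit 4) .z) .df (.nd .leaf (nat_lit 6146) (nat_lit 27) (.n (nat_lit 20) (nat_lit 4) (.p (nat_lit 22) (nat_lit 4) (.p (nat_lit 23) (nat_lit 8) .z))) (.ct dR7_c35 (nat_lit 4) (nat_lit 1) (.s true (nat_lit 1) (nat_lit 3) (nat_lit 0) (nat_lit 0) (nat_lit 1) true (nat_lit 1) true (nat_lit 2) true (nat_lit 0) true (nat_lit 3) true (nat_lit 3) (.e true (nat_lit 4) (nat_lit 11) (nat_lit 1) (nat_lit 2) (.e false (nat_lit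 4) (nat_lit 13) (nat_lit 0) (nat_lit 3) (.e false (nat_lit 8) (nat_lit 14) (nat_lit 0) (nat_lit 3) .nil))))) .leaf)) (nat_lit 6147) (nat_lit 35) (.p (nat_lit 25) (nat_lit 8) (.p (nat_lit 26) (nat_lit 8) .z)) (.ct dR7_c20 (nat_lit 4) (nat_lit 0) (.s false (nat_lit 1) (nat_lit 3) (nat_lit 1) (nat_lit 0) (nat_lit 1) true (nat_lit 0) true (nat_lit 2) true (nat_lit 0) true (nat_lit 2) true (nat_lit 3) (.e false (nat_lit 8) (nat_lit 14) (nat_lit 1) (nat_lit 2) (.e false (nat_lit 4) (nat_lit 5) (nat_lit 3) (nat_lit 0) (.e false (nat_lit 4) (nat_lit 13) (nat_lit 1) (nat_lit 2) (.e false (nat_lit 4) (nat_lit 15) (nat_lit 0) (nat_lit 3) .nil)))))) (.nd (.nd .leaf (nat_lit 7168) (nat_lit 13) (.p (nat_lit 14) (nat_lit 4) .z) .df .leaf) (nat_lit 7169) (nat_lit 15) (.p (nat_lit 15) (nat_lit 4) .z) .df (.nd .leaf (nat_lit 7170) (nat_lit 36) (.n (nat_lit 26) (nat_lit 4) (.n (nat_lit 27)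 (nat_lit 4) .z)) (.ct dR7_c20 (nat_lit 4) (nat_lit 1) (.s false (nat_lit 1) (nat_lit 2) (nat_lit 1) (nat_lit 1) (nat_lit 1) true (nat_lit 0) true (nat_lit 2) true (nat_lit 1) true (nat_lit 2) true (nat_lit 2) (.e false (nat_lit 4) (nat_lit 5) (nat_lit 3) (nat_lit 0) (.e true (nat_lit 4) (nat_lit 13) (nat_lit 1) (nat_lit 2) (.e true (nat_lit 4) (nat_lit 14) (nat_lit 1) (nat_lit 2) .nil))))) .leaf))) (nat_lit 7172) (nat_lit 62) (.p (nat_lit 35) (nat_lit 2) (.p (nat_lit 38) (nat_lit 2) (.n (nat_lit 39) (nat_lit 2) .z))) (.ct dR7_c36 (nat_lit 4) (nat_lit 1) (.s true (nat_lit 1) (nat_lit 7) (nat_lit 0) (nat_lit 1) (nat_lit 0) false (nat_lit 6) true (nat_lit 5) false (nat_lit 1) true (nat_lit 5) true (nat_lit 4) (.e true (nat_lit 8) (nat_lit 26) (nat_lit 0) (nat_lit 5) (.e true (nat_lit 4) (nat_lit 27) (nat_lit 0) (nat_lit 5) (.e false (nat_lit 4) (nat_lit 23) (nat_lit 1) (nat_lit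 4) .nil))))) (.nd (.nd (.nd .leaf (nat_lit 8193) (nat_lit 16) (.p (nat_lit 16) (nat_lit 4) .z) .df .leaf) (nat_lit 9216) (nat_lit 17) (.p (nat_lit 17) (nat_lit 4) .z) .df (.nd .leaf (nat_lit 9217) (nat_lit 21) (.p (nat_lit 19) (nat_lit 4) .z) .df .leaf)) (nat_lit 9218) (nat_lit 43) (.p (nat_lit 28) (nat_lit 4) (.n (nat_lit 29) (nat_lit 4) (.n (nat_lit 30) (nat_lit 4) (.n (nat_lit 31) (nat_lit 4) (.p (nat_lit 32) (nat_lit 2) (.p (nat_lit 33) (nat_lit 2) .z)))))) (.ct dR7_c51 (nat_lit 8) (nat_lit 2) (.s true (nat_lit 1) (nat_lit 2) (nat_lit 0) (nat_lit 1) (nat_lit 2) true (nat_lit 0) true (nat_lit 2) true (nat_lit 2) true (nat_lit 4) true (nat_lit 3) (.s false (nat_lit 1) (nat_lit 5) (nat_lit 0) (nat_lit 0) (nat_lit 1) true (nat_lit 2) true (nat_lit 3) false (nat_lit 0) true (nat_lit 4) true (nat_lit 4) (.s true (nat_lit 1) (nat_lit 6) (nat_lit 0) (nat_lit 0) (nat_lit 1) true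 (nat_lit 2) true (nat_lit 3) false (nat_lit 0) true (nat_lit 4) true (nat_lit 4) (.s false (nat_lit 1) (nat_lit 5) (nat_lit 0) (nat_lit 1) (nat_lit 0) false (nat_lit 5) true (nat_lit 4) false (nat_lit 0) true (nat_lit 4) true (nat_lit 3) (.e true (nat_lit 8) (nat_lit 19) (nat_lit 0) (nat_lit 4) (.e true (nat_lit 8) (nat_lit 17) (nat_lit 1) (nat_lit 3) (.e true (nat_lit 8) (nat_lit 18) (nat_lit 1) (nat_lit 3) (.e false (nat_lit 8) (nat_lit 16) (nat_lit 1) (nat_lit 3) (.e false (nat_lit 4) (nat_lit 20) (nat_lit 0) (nat_lit 4) (.e false (nat_lit 4) (nat_lit 22) (nat_lit 0) (nat_lit 4) .nil))))))))))) (.nd (.nd .leaf (nat_lit 9219) (nat_lit 57) (.p (nat_lit 36) (nat_lit 8) (.p (nat_lit 37) (nat_lit 8) (.p (nat_lit 38) (nat_lit 8) (.n (nat_lit 39) (nat_lit 4) .z)))) (.ct dR7_c36 (nat_lit 4) (nat_lit 2) (.s false (nat_lit 1) (nat_lit 3) (nat_lit 0) (nat_lit 2) (nat_lit 1) true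 (nat_lit 3) true (nat_lit 4) true (nat_lit 2) true (nat_lit 5) true (nat_lit 3) (.s true (nat_lit 1) (nat_lit 6) (nat_lit 1) (nat_lit 1) (nat_lit 0) true (nat_lit 3) true (nat_lit 5) true (nat_lit 0) true (nat_lit 4) true (nat_lit 4) (.a true (nat_lit 8) (nat_lit 6) (nat_lit 6) (nat_lit 0) (nat_lit 0) (.e true (nat_lit 8) (nat_lit 13) (nat_lit 2) (nat_lit 3) (.e false (nat_lit 4) (nat_lit 20) (nat_lit 1) (nat_lit 4) (.e true (nat_lit 4) (nat_lit 27) (nat_lit 0) (nat_lit 5) .nil))))))) .leaf) (nat_lit 10240) (nat_lit 18) (.p (nat_lit 18) (nat_lit 4) .z) .df (.nd .leaf (nat_lit 10241) (nat_lit 28) (.n (nat_lit 19) (nat_lit 4) (.p (nat_lit 22) (nat_lit 4) (.p (nat_lit 23) (nat_lit 4) .z))) (.ct dR7_c35 (nat_lit 4) (nat_lit 2) (.s true (nat_lit 1) (nat_lit 2) (nat_lit 0) (nat_lit 1) (nat_lit 1) true (nat_lit 1) true (nat_lit 2) true (nat_lit 1) true (nat_lit 3) true (nat_lit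 2) (.e true (nat_lit 4) (nat_lit 9) (nat_lit 1) (nat_lit 2) (.e false (nat_lit 4) (nat_lit 13) (nat_lit 0) (nat_lit 3) (.e false (nat_lit 4) (nat_lit 14) (nat_lit 0) (nat_lit 3) .nil))))) .leaf))))) (nat_lit 10242) (nat_lit 48) (.n (nat_lit 28) (nat_lit 18) (.p (nat_lit 30) (nat_lit 14) (.p (nat_lit 31) (nat_lit 20) (.n (nat_lit 32) (nat_lit 15) (.p (nat_lit 33) (nat_lit 7) .z))))) (.ct dR7_c51 (nat_lit 4) (nat_lit 2) (.s true (nat_lit 1) (nat_lit 5) (nat_lit 0) (nat_lit 0) (nat_lit 1) true (nat_lit 2) true (nat_lit 3) false (nat_lit 0) true (nat_lit 4) true (nat_lit 4) (.e true (nat_lit 4) (nat_lit 18) (nat_lit 1) (nat_lit 3) (.e true (nat_lit 4) (nat_lit 19) (nat_lit 0) (nat_lit 4) (.e false (nat_lit 8) (nat_lit 21) (nat_lit 0) (nat_lit 4) (.e false (nat_lit 4) (nat_lit 23) (nat_lit 0) (nat_lit 4) .nil)))))) (.nd (.nd (.nd (.nd (.nd (.nd .leaf (nat_lit 10243) (nat_lit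 54) (.p (nat_lit 39) (nat_lit 4) .z) .df .leaf) (nat_lit 11264) (nat_lit 20) (.n (nat_lit 16) (nat_lit 4) (.p (nat_lit 17) (nat_lit 6) (.p (nat_lit 18) (nat_lit 6) .z))) (.ct dR7_c50 (nat_lit 4) (nat_lit 2) (.s true (nat_lit 1) (nat_lit 2) (nat_lit 0) (nat_lit 0) (nat_lit 1) true (nat_lit 0) true (nat_lit 1) true (nat_lit 0) true (nat_lit 2) true (nat_lit 2) (.e true (nat_lit 4) (nat_lit 4) (nat_lit 2) (nat_lit 0) (.e true (nat_lit 4) (nat_lit 8) (nat_lit 1) (nat_lit 1) (.e false (nat_lit 4) (nat_lit 9) (nat_lit 0) (nat_lit 2) (.e false (nat_lit 8) (nat_lit 10) (nat_lit 0) (nat_lit 2) .nil)))))) .leaf) (nat_lit 11265) (nat_lit 22) (.p (nat_lit 20) (nat_lit 4) .z) .df (.nd .leaf (nat_lit 11266) (nat_lit 44) (.n (nat_lit 29) (nat_lit 6) (.n (nat_lit 30) (nat_lit 2) (.n (nat_lit 32) (nat_lit 2) (.p (nat_lit 33) (nat_lit 6) .z)))) (.ct dR7_c51 (nat_lit 8) (nat_lit 2) (.s true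 (nat_lit 1) (nat_lit 2) (nat_lit 1) (nat_lit 0) (nat_lit 2) false (nat_lit 0) true (nat_lit 2) true (nat_lit 2) true (nat_lit 3) true (nat_lit 4) (.s true (nat_lit 1) (nat_lit 4) (nat_lit 0) (nat_lit 1) (nat_lit 1) true (nat_lit 2) true (nat_lit 3) true (nat_lit 0) true (nat_lit 4) true (nat_lit 3) (.s true (nat_lit 1) (nat_lit 6) (nat_lit 0) (nat_lit 0) (nat_lit 1) true (nat_lit 2) true (nat_lit 3) false (nat_lit 0) true (nat_lit 4) true (nat_lit 4) (.e true (nat_lit 12) (nat_lit 17) (nat_lit 1) (nat_lit 3) (.e true (nat_lit 4) (nat_lit 18) (nat_lit 1) (nat_lit 3) (.e false (nat_lit 12) (nat_lit 22) (nat_lit 0) (nat_lit 4) (.e true (nat_lit 4) (nat_lit 20) (nat_lit 0) (nat_lit 4) .nil)))))))) .leaf)) (nat_lit 11267) (nat_lit 63) (.p (nat_lit 35) (nat_lit 4) (.n (nat_lit 37) (nat_lit 16) (.n (nat_lit 38) (nat_lit 12) (.p (nat_lit 39) (nat_lit 4) .z)))) (.ct dR7_c36 (nat_lit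 4) (nat_lit 2) (.s true (nat_lit 1) (nat_lit 3) (nat_lit 0) (nat_lit 0) (nat_lit 3) true (nat_lit 0) true (nat_lit 2) true (nat_lit 2) true (nat_lit 5) true (nat_lit 5) (.a true (nat_lit 8) (nat_lit 6) (nat_lit 6) (nat_lit 0) (nat_lit 0) (.e false (nat_lit 8) (nat_lit 25) (nat_lit 0) (nat_lit 5) (.e false (nat_lit 8) (nat_lit 26) (nat_lit 0) (nat_lit 5) .nil))))) (.nd (.nd .leaf (nat_lit 12288) (nat_lit 23) (.p (nat_lit 21) (nat_lit 4) .z) .df .leaf) (nat_lit 12289) (nat_lit 30) (.p (nat_lit 24) (nat_lit 4) .z) .df (.nd .leaf (nat_lit 12290) (nat_lit 61) (.p (nat_lit 35) (nat_lit 2) (.n (nat_lit 36) (nat_lit 2) (.n (nat_lit 37) (nat_lit 6) (.n (nat_lit 38) (nat_lit 6) .z)))) (.ct dR7_c36 (nat_lit 4) (nat_lit 3) (.s true (nat_lit 1) (nat_lit 2) (nat_lit 1) (nat_lit 1) (nat_lit 2) true (nat_lit 0) true (nat_lit 3) true (nat_lit 3) true (nat_lit 4) true (nat_lit 4) (.a true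 (nat_lit 8) (nat_lit 5) (nat_lit 5) (nat_lit 0) (nat_lit 0) (.e true (nat_lit 4) (nat_lit 13) (nat_lit 2) (nat_lit 3) (.e true (nat_lit 4) (nat_lit 14) (nat_lit 2) (nat_lit 3) (.e true (nat_lit 4) (nat_lit 19) (nat_lit 1) (nat_lit 4) (.e false (nat_lit 4) (nat_lit 21) (nat_lit 1) (nat_lit 4) (.e true (nat_lit 4) (nat_lit 22) (nat_lit 1) (nat_lit 4) (.e false (nat_lit 4) (nat_lit 20) (nat_lit 1) (nat_lit 4) .nil))))))))) .leaf))) (nat_lit 13312) (nat_lit 24) (.p (nat_lit 22) (nat_lit 4) .z) .df (.nd (.nd (.nd .leaf (nat_lit 13313) (nat_lit 31) (.p (nat_lit 25) (nat_lit 4) .z) .df .leaf) (nat_lit 13314) (nat_lit 55) (.p (nat_lit 35) (nat_lit 2) (.n (nat_lit 36) (nat_lit 4) (.n (nat_lit 37) (nat_lit 4) (.n (nat_lit 38) (nat_lit 6) (.p (nat_lit 39) (nat_lit 2) .z))))) (.ct dR7_c36 (nat_lit 8) (nat_lit 3) (.s false (nat_lit 1) (nat_lit 3) (nat_lit 1) (nat_lit 2) (nat_lit 0) true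 (nat_lit 3) true (nat_lit 5) true (nat_lit 2) true (nat_lit 4) true (nat_lit 3) (.s false (nat_lit 1) (nat_lit 7) (nat_lit 0) (nat_lit 0) (nat_lit 1) true (nat_lit 3) true (nat_lit 4) false (nat_lit 1) true (nat_lit 5) true (nat_lit 5) (.e true (nat_lit 8) (nat_lit 26) (nat_lit 0) (nat_lit 5) (.e true (nat_lit 12) (nat_lit 27) (nat_lit 0) (nat_lit 5) (.e false (nat_lit 4) (nat_lit 10) (nat_lit 3) (nat_lit 2) (.e false (nat_lit 4) (nat_lit 20) (nat_lit 1) (nat_lit 4) (.e true (nat_lit 8) (nat_lit 22) (nat_lit 1) (nat_lit 4) .nil)))))))) (.nd .leaf (nat_lit 14336) (nat_lit 25) (.p (nat_lit 23) (nat_lit 4) .z) .df .leaf)) (nat_lit 14337) (nat_lit 32) (.p (nat_lit 26) (nat_lit 4) .z) .df (.nd (.nd .leaf (nat_lit 14338) (nat_lit 59) (.n (nat_lit 35) (nat_lit 2) (.n (nat_lit 37) (nat_lit 4) (.p (nat_lit 38) (nat_lit 2) (.p (nat_lit 39) (nat_lit 2) .z)))) (.ct dR7_c36 (nat_lit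 4) (nat_lit 3) (.s true (nat_lit 1) (nat_lit 7) (nat_lit 0) (nat_lit 0) (nat_lit 1) true (nat_lit 3) true (nat_lit 4) false (nat_lit 1) true (nat_lit 5) true (nat_lit 5) (.e true (nat_lit 4) (nat_lit 23) (nat_lit 1) (nat_lit 4) (.e false (nat_lit 4) (nat_lit 26) (nat_lit 0) (nat_lit 5) (.e false (nat_lit 8) (nat_lit 27) (nat_lit 0) (nat_lit 5) .nil))))) .leaf) (nat_lit 15360) (nat_lit 33) (.p (nat_lit 27) (nat_lit 4) .z) .df (.nd .leaf (nat_lit 16385) (nat_lit 37) (.p (nat_lit 28) (nat_lit 4) .z) .df .leaf)))) (nat_lit 17409) (nat_lit 38) (.p (nat_lit 29) (nat_lit 4) .z) .df (.nd (.nd (.nd (.nd .leaf (nat_lit 18433) (nat_lit 39) (.p (nat_lit 30) (nat_lit 4) .z) .df .leaf) (nat_lit 19456) (nat_lit 40) (.p (nat_lit 31) (nat_lit 4) .z) .df (.nd .leaf (nat_lit 19457) (nat_lit 49) (.p (nat_lit 34) (nat_lit 4) .z) .df .leaf)) (nat_lit 20480) (nat_lit 41) (.p (nat_lit 32) (nat_lit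 4) .z) .df (.nd (.nd .leaf (nat_lit 20481) (nat_lit 50) (.p (nat_lit 35) (nat_lit 4) .z) .df .leaf) (nat_lit 21504) (nat_lit 47) (.n (nat_lit 28) (nat_lit 10) (.p (nat_lit 30) (nat_lit 10) (.p (nat_lit 31) (nat_lit 12) (.n (nat_lit 32) (nat_lit 9) (.p (nat_lit 33) (nat_lit 5) .z))))) (.ct dR7_c51 (nat_lit 4) (nat_lit 4) (.s true (nat_lit 1) (nat_lit 5) (nat_lit 0) (nat_lit 1) (nat_lit 0) false (nat_lit 5) true (nat_lit 4) false (nat_lit 0) true (nat_lit 4) true (nat_lit 3) (.e false (nat_lit 8) (nat_lit 19) (nat_lit 0) (nat_lit 4) (.e true (nat_lit 4) (nat_lit 22) (nat_lit 0) (nat_lit 4) (.e true (nat_lit 8) (nat_lit 23) (nat_lit 0) (nat_lit 4) (.e true (nat_lit 4) (nat_lit 5) (nat_lit 4) (nat_lit 0) (.e false (nat_lit 4) (nat_lit 18) (nat_lit 1) (nat_lit 3) .nil))))))) (.nd .leaf (nat_lit 21505) (nat_lit 60) (.p (nat_lit 34) (nat_lit 4) (.n (nat_lit 35) (nat_lit 2) (.n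 (nat_lit 36) (nat_lit 2) (.n (nat_lit 37) (nat_lit 14) (.n (nat_lit 38) (nat_lit 10) (.p (nat_lit 39) (nat_lit 4) .z)))))) (.ct dR7_c36 (nat_lit 8) (nat_lit 4) (.s false (nat_lit 1) (nat_lit 2) (nat_lit 1) (nat_lit 1) (nat_lit 2) true (nat_lit 0) true (nat_lit 3) true (nat_lit 3) true (nat_lit 4) true (nat_lit 4) (.s true (nat_lit 1) (nat_lit 5) (nat_lit 0) (nat_lit 1) (nat_lit 1) true (nat_lit 3) true (nat_lit 4) true (nat_lit 0) true (nat_lit 5) true (nat_lit 4) (.a false (nat_lit 16) (nat_lit 5) (nat_lit 5) (nat_lit 0) (nat_lit 0) (.e false (nat_lit 4) (nat_lit 13) (nat_lit 2) (nat_lit 3) (.e false (nat_lit 4) (nat_lit 14) (nat_lit 2) (nat_lit 3) (.e false (nat_lit 8) (nat_lit 19) (nat_lit 1) (nat_lit 4) (.e true (nat_lit 4) (nat_lit 23) (nat_lit 1) (nat_lit 4) (.e true (nat_lit 4) (nat_lit 20) (nat_lit 1) (nat_lit 4) (.e false (nat_lit 4) (nat_lit 25) (nat_lit 0) (nat_lit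 5) (.e true (nat_lit 4) (nat_lit 27) (nat_lit 0) (nat_lit 5) .nil))))))))))) .leaf))) (nat_lit 22528) (nat_lit 42) (.p (nat_lit 33) (nat_lit 4) .z) .df (.nd (.nd (.nd .leaf (nat_lit 22529) (nat_lit 51) (.p (nat_lit 36) (nat_lit 4) .z) .df .leaf) (nat_lit 23552) (nat_lit 45) (.p (nat_lit 28) (nat_lit 2) (.n (nat_lit 30) (nat_lit 2) (.p (nat_lit 32) (nat_lit 3) (.n (nat_lit 33) (nat_lit 3) .z)))) (.ct dR7_c51 (nat_lit 8) (nat_lit 4) (.s true (nat_lit 1) (nat_lit 6) (nat_lit 0) (nat_lit 0) (nat_lit 1) true (nat_lit 2) true (nat_lit 3) false (nat_lit 0) true (nat_lit 4) true (nat_lit 4) (.e true (nat_lit 4) (nat_lit 11) (nat_lit 2) (nat_lit 2) (.e false (nat_lit 4) (nat_lit 16) (nat_lit 1) (nat_lit 3) (.e true (nat_lit 6) (nat_lit 17) (nat_lit 1) (nat_lit 3) (.e true (nat_lit 6) (nat_lit 18) (nat_lit 1) (nat_lit 3) (.e false (nat_lit 4) (nat_lit 20) (nat_lit 0) (nat_lit 4) .nil)))))))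 (.nd .leaf (nat_lit 23553) (nat_lit 58) (.p (nat_lit 35) (nat_lit 2) (.p (nat_lit 37) (nat_lit 8) (.p (nat_lit 38) (nat_lit 6) (.n (nat_lit 39) (nat_lit 2) .z)))) (.ct dR7_c36 (nat_lit 8) (nat_lit 4) (.s true (nat_lit 1) (nat_lit 6) (nat_lit 1) (nat_lit 1) (nat_lit 0) true (nat_lit 3) true (nat_lit 5) true (nat_lit 0) true (nat_lit 4) true (nat_lit 4) (.a true (nat_lit 8) (nat_lit 6) (nat_lit 6) (nat_lit 0) (nat_lit 0) (.e true (nat_lit 4) (nat_lit 13) (nat_lit 2) (nat_lit 3) (.e true (nat_lit 4) (nat_lit 25) (nat_lit 0) (nat_lit 5) (.e false (nat_lit 8) (nat_lit 20) (nat_lit 1) (nat_lit 4) (.e true (nat_lit 4) (nat_lit 22) (nat_lit 1) (nat_lit 4) .nil))))))) .leaf)) (nat_lit 24576) (nat_lit 64) (.n (nat_lit 34) (nat_lit 4) (.p (nat_lit 35) (nat_lit 2) (.p (nat_lit 36) (nat_lit 4) (.p (nat_lit 37) (nat_lit 20) (.p (nat_lit 38) (nat_lit 14) (.n (nat_lit 39) (nat_lit 2) .z))))))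 (.ct dR7_c36 (nat_lit 4) (nat_lit 5) (.s true (nat_lit 1) (nat_lit 5) (nat_lit 1) (nat_lit 0) (nat_lit 1) true (nat_lit 2) true (nat_lit 4) true (nat_lit 0) true (nat_lit 4) true (nat_lit 5) (.a true (nat_lit 8) (nat_lit 5) (nat_lit 5) (nat_lit 0) (nat_lit 0) (.e false (nat_lit 4) (nat_lit 10) (nat_lit 3) (nat_lit 2) (.e true (nat_lit 8) (nat_lit 21) (nat_lit 1) (nat_lit 4) (.e false (nat_lit 4) (nat_lit 19) (nat_lit 1) (nat_lit 4) (.e true (nat_lit 4) (nat_lit 23) (nat_lit 1) (nat_lit 4) .nil))))))) (.nd (.nd .leaf (nat_lit 25600) (nat_lit 56) (.p (nat_lit 35) (nat_lit 2) (.n (nat_lit 37) (nat_lit 12) (.n (nat_lit 38) (nat_lit 6) (.p (nat_lit 39) (nat_lit 2) .z)))) (.ct dR7_c36 (nat_lit 4) (nat_lit 5) (.s true (nat_lit 1) (nat_lit 3) (nat_lit 0) (nat_lit 2) (nat_lit 1) true (nat_lit 3) true (nat_lit 4) true (nat_lit 2) true (nat_lit 5) true (nat_lit 3) (.s true (nat_lit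 1) (nat_lit 4) (nat_lit 1) (nat_lit 1) (nat_lit 1) true (nat_lit 2) true (nat_lit 4) true (nat_lit 1) true (nat_lit 4) true (nat_lit 4) (.s true (nat_lit 1) (nat_lit 7) (nat_lit 0) (nat_lit 1) (nat_lit 0) false (nat_lit 6) true (nat_lit 5) false (nat_lit 1) true (nat_lit 5) true (nat_lit 4) (.e false (nat_lit 4) (nat_lit 13) (nat_lit 2) (nat_lit 3) (.e false (nat_lit 4) (nat_lit 22) (nat_lit 1) (nat_lit 4) (.e true (nat_lit 8) (nat_lit 26) (nat_lit 0) (nat_lit 5) .nil))))))) .leaf) (nat_lit 26624) (nat_lit 52) (.p (nat_lit 37) (nat_lit 4) .z) .df (.nd .leaf (nat_lit 27648) (nat_lit 53) (.p (nat_lit 38) (nat_lit 4) .z) .df .leaf))))))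

noncomputable def dR7_cl : CL := (.c (nat_lit 16) (nat_lit 0) (nat_lit 1) (.c (nat_lit 1) (nat_lit 1) (nat_lit 1) (.c (nat_lit 32) (nat_lit 2032) (nat_lit 0) (.c (nat_lit 17) (nat_lit 2) (nat_lit 1) (.c (nat_lit 2) (nat_lit 3) (nat_lit 1) (.c (nat_lit 48) (nat_lit 2048) (nat_lit 0) (.c (nat_lit 33) (nat_lit 4) (nat_lit 1) (.c (nat_lit 18) (nat_lit 5) (nat_lit 2) (.c (nat_lit 3) (nat_lit 7) (nat_lit 1) (.c (nat_lit 49) (nat_lit 8) (nat_lit 1) (.c (nat_lit 34) (nat_lit 9) (nat_lit 3) (.c (nat_lit 19) (nat_lit 12) (nat_lit 3) (.c (nat_lit 4) (nat_lit 15) (nat_lit 1) (.c (nat_lit 50) (nat_lit 16) (nat_lit 3) (.c (nat_lit 35) (nat_lit 19) (nat_lit 5) (.c (nat_lit 20) (nat_lit 24) (nat_lit 4) (.c (nat_lit 51) (nat_lit 28) (nat_lit 6) (.c (nat_lit 36) (nat_lit 34) (nat_lit 6) .nil))))))))))))))))))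

noncomputable def dR7_D : Dt := ⟨(nat_lit 4294967296), (nat_lit 2147483648), (nat_lit 4), (nat_lit 40), (nat_lit 11899622378176894655770678056267375240320292826857789426918338618632915813907295204830329560874192947214034157204226135621668670175385496318311978206007734615639352989118918614779387984958616238742594748261158127766296462936976117815467075449596278018464969492844714567638242106326122499), (nat_lit 16927715734), dR7_t0, dR7_cl⟩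

noncomputable def dR7_gs : BL := (.c (nat_lit 8) (nat_lit 1) (nat_lit 7) (nat_lit 1) (nat_lit 0) (.c (nat_lit 9) (nat_lit 3) (nat_lit 5) (nat_lit 2) (nat_lit 1) (.c (nat_lit 12) (nat_lit 3) (nat_lit 4) (nat_lit 1) (nat_lit 7) (.c (nat_lit 16) (nat_lit 3) (nat_lit 3) (nat_lit 1) (nat_lit 10) (.c (nat_lit 19) (nat_lit 5) (nat_lit 2) (nat_lit 1) (nat_lit 13) (.c (nat_lit 28) (nat_lit 6) (nat_lit 1) (nat_lit 1) (nat_lit 18) (.c (nat_lit 34) (nat_lit 6) (nat_lit 0) (nat_lit 1) (nat_lit 24) (.c (nat_lit 2032) (nat_lit 0) (nat_lit 24) (nat_lit 4) (nat_lit 30) (.c (nat_lit 2048) (nat_lit 0) (nat_lit 15) (nat_lit 1) (nat_lit 30) .nil)))))))))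

noncomputable def dR7_il : IL := (.s true (nat_lit 320) (nat_lit 3) (nat_lit 0) (nat_lit 2) (nat_lit 2) true (nat_lit 2) true (nat_lit 4) true (nat_lit 3) true (nat_lit 6) true (nat_lit 4) (.s false (nat_lit 320) (nat_lit 4) (nat_lit 1) (nat_lit 1) (nat_lit 2) true (nat_lit 1) true (nat_lit 4) true (nat_lit 2) true (nat_lit 5) true (nat_lit 5) (.s true (nat_lit 320) (nat_lit 4) (nat_lit 1) (nat_lit 2) (nat_lit 1) true (nat_lit 3) true (nat_lit 5) true (nat_lit 2) true (nat_lit 5) true (nat_lit 4) (.s true (nat_lit 320) (nat_lit 4) (nat_lit 2) (nat_lit 1) (nat_lit 1) true (nat_lit 1) true (nat_lit 5) true (nat_lit 2) true (nat_lit 4) true (nat_lit 5) (.s true (nat_lit 320) (nat_lit 5) (nat_lit 0) (nat_lit 2) (nat_lit 1) true (nat_lit 4) true (nat_lit 5) true (nat_lit 1) true (nat_lit 6) true (nat_lit 4) (.s true (nat_lit 640) (nat_lit 7) (nat_lit 0) (nat_lit 0) (nat_lit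 2) true (nat_lit 2) true (nat_lit 4) true (nat_lit 0) true (nat_lit 6) true (nat_lit 6) (.s true (nat_lit 320) (nat_lit 9) (nat_lit 0) (nat_lit 1) (nat_lit 1) true (nat_lit 4) true (nat_lit 5) false (nat_lit 1) true (nat_lit 6) true (nat_lit 5) (.s true (nat_lit 640) (nat_lit 13) (nat_lit 0) (nat_lit 0) (nat_lit 1) true (nat_lit 4) true (nat_lit 5) false (nat_lit 2) true (nat_lit 6) true (nat_lit 6) (.s false (nat_lit 320) (nat_lit 14) (nat_lit 0) (nat_lit 0) (nat_lit 1) true (nat_lit 4) true (nat_lit 5) false (nat_lit 2) true (nat_lit 6) true (nat_lit 6) (.s true (nat_lit 640) (nat_lit 12) (nat_lit 0) (nat_lit 1) (nat_lit 0) false (nat_lit 7) true (nat_lit 6) false (nat_lit 2) true (nat_lit 6) true (nat_lit 5) (.s true (nat_lit 640) (nat_lit 13) (nat_lit 0) (nat_lit 1) (nat_lit 0) false (nat_lit 7) true (nat_lit 6) false (nat_lit 2) true (nat_lit 6) true (nat_lit 5) .nil)))))))))))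

theorem dR7_chk : chk 5 idsM dR7_D par1 (clsL [0,0,0,0,1,1,1]) R7Ex (.c (nat_lit 1) (nat_lit 1) (.c (nat_lit 1) (nat_lit 1) (.c (nat_lit 1) (nat_lit 1) (.c (nat_lit 1) (nat_lit 1) (.c (nat_lit 0) (nat_lit 16) (.c (nat_lit 0) (nat_lit 16) (.c (nat_lit 0) (nat_lit 16) .nil))))))) (nat_lit 65) (nat_lit 52) (nat_lit 1) dR7_gs dR7_il = true := by
  decide +kernel

end Chk

/-- certificate of `R7Ex` -/
theorem cert_R7Ex : Cert.{u} 5 idsM par1 (clsL [0,0,0,0,1,1,1]) R7Ex :=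
  Chk.chk_sound _ _ (by simp [idsM]) (by simp [idsM]) _ _ _ _ _ _ _ _ _ _ Chk.dR7_chk

end Pool.Agent.MalP
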