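import Pool.Agent.MalP.Check4
import Pool.Agent.MalP.CertPar

/-! # Certificate of r4Ex -/

set_option autoImplicit false
set_option maxRecDepth 100000

namespace Pool.Agent.MalP

universe u

namespace Chk

noncomputable def dr4_c529 : Cm := .mk (nat_lit 14) (nat_lit 529) (nat_lit 17) (nat_lit 4) (.c (nat_lit 4) (nat_lit 1) (nat_lit 3) (nat_lit 1) (nat_lit 4) (.c (nat_lit 7) (nat_lit 1) (nat_lit 2) (nat_lit 1) (nat_lit 5) (.c (nat_lit 8) (nat_lit 1) (nat_lit 1) (nat_lit 1) (nat_lit 6) (.c (nat_lit 9) (nat_lit 3) (nat_lit 0) (nat_lit 1) (nat_lit 7) (.c (nat_lit 2512) (nat_lit 0) (nat_lit 5) (nat_lit 1) (nat_lit 10) .nil)))))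

noncomputable def dr4_c514 : Cm := .mk (nat_lit 20) (nat_lit 514) (nat_lit 21) (nat_lit 3) (.c (nat_lit 4) (nat_lit 1) (nat_lit 4) (nat_lit 1) (nat_lit 3) (.c (nat_lit 8) (nat_lit 1) (nat_lit 2) (nat_lit 1) (nat_lit 4) (.c (nat_lit 12) (nat_lit 2) (nat_lit 0) (nat_lit 1) (nat_lit 5) (.c (nat_lit 2512) (nat_lit 0) (nat_lit 6) (nat_lit 1) (nat_lit 7) .nil))))

noncomputable def dr4_c274 : Cm := .mk (nat_lit 24) (nat_lit 274) (nat_lit 24) (nat_lit 6) (.c (nat_lit 5) (nat_lit 1) (nat_lit 4) (nat_lit 1) (nat_lit 6) (.c (nat_lit 6) (nat_lit 1) (nat_lit 3) (nat_lit 1) (nat_lit 7) (.c (nat_lit 9) (nat_lit 3) (nat_lit 2) (nat_lit 1) (nat_lit 8) (.c (nat_lit 12) (nat_lit 2) (nat_lit 1) (nat_lit 1) (nat_lit 11) (.c (nat_lit 14) (nat_lit 2) (nat_lit 0) (nat_lit 1) (nat_lit 13) .nil)))))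

noncomputable def dr4_c259 : Cm := .mk (nat_lit 33) (nat_lit 259) (nat_lit 30) (nat_lit 3) (.c (nat_lit 6) (nat_lit 1) (nat_lit 4) (nat_lit 1) (nat_lit 3) (.c (nat_lit 12) (nat_lit 2) (nat_lit 2) (nat_lit 1) (nat_lit 4) (.c (nat_lit 16) (nat_lit 1) (nat_lit 0) (nat_lit 1) (nat_lit 6) .nil)))

noncomputable def dr4_c19 : Cm := .mk (nat_lit 37) (nat_lit 19) (nat_lit 33) (nat_lit 3) (.c (nat_lit 6) (nat_lit 1) (nat_lit 5) (nat_lit 1) (nat_lit 3) (.c (nat_lit 14) (nat_lit 2) (nat_lit 2) (nat_lit 1) (nat_lit 4) (.c (nat_lit 16) (nat_lit 1) (nat_lit 1) (nat_lit 1) (nat_lit 6) .nil)))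

noncomputable def dr4_c530 : Cm := .mk (nat_lit 42) (nat_lit 530) (nat_lit 37) (nat_lit 11) (.c (nat_lit 7) (nat_lit 1) (nat_lit 6) (nat_lit 1) (nat_lit 11) (.c (nat_lit 8) (nat_lit 1) (nat_lit 5) (nat_lit 1) (nat_lit 12) (.c (nat_lit 9) (nat_lit 3) (nat_lit 4) (nat_lit 1) (nat_lit 13) (.c (nat_lit 12) (nat_lit 2) (nat_lit 3) (nat_lit 1) (nat_lit 16) (.c (nat_lit 17) (nat_lit 4) (nat_lit 2) (nat_lit 1) (nat_lit 18) (.c (nat_lit 21) (nat_lit 3) (nat_lit 1) (nat_lit 1) (nat_lit 22) (.c (nat_lit 24) (nat_lit 6) (nat_lit 0) (nat_lit 1) (nat_lit 25) (.c (nat_lit 2512) (nat_lit 0) (nat_lit 14) (nat_lit 2) (nat_lit 31) .nil))))))))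

noncomputable def dr4_c515 : Cm := .mk (nat_lit 62) (nat_lit 515) (nat_lit 48) (nat_lit 5) (.c (nat_lit 8) (nat_lit 1) (nat_lit 6) (nat_lit 1) (nat_lit 5) (.c (nat_lit 12) (nat_lit 2) (nat_lit 4) (nat_lit 1) (nat_lit 6) (.c (nat_lit 21) (nat_lit 3) (nat_lit 2) (nat_lit 1) (nat_lit 8) (.c (nat_lit 30) (nat_lit 3) (nat_lit 0) (nat_lit 1) (nat_lit 11) (.c (nat_lit 2512) (nat_lit 0) (nat_lit 16) (nat_lit 1) (nat_lit 14) .nil)))))

noncomputable def dr4_c275 : Cm := .mk (nat_lit 71) (nat_lit 275) (nat_lit 53) (nat_lit 11) (.c (nat_lit 9) (nat_lit 3) (nat_lit 6) (nat_lit 1) (nat_lit 11) (.c (nat_lit 12) (nat_lit 2) (nat_lit 5) (nat_lit 1) (nat_lit 14) (.c (nat_lit 14) (nat_lit 2) (nat_lit 4) (nat_lit 1) (nat_lit 16) (.c (nat_lit 16) (nat_lit 1) (nat_lit 3) (nat_lit 1) (nat_lit 18) (.c (nat_lit 24) (nat_lit 6) (nat_lit 2) (nat_lit 1) (nat_lit 19) (.c (nat_lit 30) (nat_lit 3) (nat_lit 1) (nat_lit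 1) (nat_lit 25) (.c (nat_lit 33) (nat_lit 3) (nat_lit 0) (nat_lit 1) (nat_lit 28) .nil)))))))

noncomputable def dr4_c260 : Cm := .mk (nat_lit 91) (nat_lit 260) (nat_lit 64) (nat_lit 4) (.c (nat_lit 12) (nat_lit 2) (nat_lit 6) (nat_lit 1) (nat_lit 4) (.c (nat_lit 16) (nat_lit 1) (nat_lit 4) (nat_lit 1) (nat_lit 6) (.c (nat_lit 30) (nat_lit 3) (nat_lit 2) (nat_lit 1) (nat_lit 7) (.c (nat_lit 36) (nat_lit 1) (nat_lit 0) (nat_lit 1) (nat_lit 10) .nil))))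

noncomputable def dr4_c20 : Cm := .mk (nat_lit 98) (nat_lit 20) (nat_lit 68) (nat_lit 4) (.c (nat_lit 14) (nat_lit 2) (nat_lit 6) (nat_lit 1) (nat_lit 4) (.c (nat_lit 16) (nat_lit 1) (nat_lit 5) (nat_lit 1) (nat_lit 6) (.c (nat_lit 33) (nat_lit 3) (nat_lit 2) (nat_lit 1) (nat_lit 7) (.c (nat_lit 36) (nat_lit 1) (nat_lit 1) (nat_lit 1) (nat_lit 10) .nil))))

noncomputable def dr4_c531 : Cm := .mk (nat_lit 105) (nat_lit 531) (nat_lit 72) (nat_lit 21) (.c (nat_lit 12) (nat_lit 2) (nat_lit 9) (nat_lit 3) (nat_lit 21) (.c (nat_lit 14) (nat_lit 2) (nat_lit 8) (nat_lit 1) (nat_lit 27) (.c (nat_lit 16) (nat_lit 1) (nat_lit 7) (nat_lit 1) (nat_lit 29) (.c (nat_lit 17) (nat_lit 4) (nat_lit 6) (nat_lit 1) (nat_lit 30) (.c (nat_lit 21) (nat_lit 3) (nat_lit 5) (nat_lit 1) (nat_lit 34) (.c (nat_lit 24) (nat_lit 6) (nat_lit 4) (nat_lit 1) (nat_lit 37) (.c (nat_lit 30) (nat_lit 3) (nat_lit 3) (nat_lit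 1) (nat_lit 43) (.c (nat_lit 37) (nat_lit 11) (nat_lit 2) (nat_lit 1) (nat_lit 46) (.c (nat_lit 48) (nat_lit 5) (nat_lit 1) (nat_lit 1) (nat_lit 57) (.c (nat_lit 53) (nat_lit 11) (nat_lit 0) (nat_lit 1) (nat_lit 62) (.c (nat_lit 2512) (nat_lit 0) (nat_lit 33) (nat_lit 3) (nat_lit 73) .nil)))))))))))

noncomputable def dr4_c516 : Cm := .mk (nat_lit 154) (nat_lit 516) (nat_lit 93) (nat_lit 6) (.c (nat_lit 12) (nat_lit 2) (nat_lit 12) (nat_lit 2) (nat_lit 6) (.c (nat_lit 16) (nat_lit 1) (nat_lit 8) (nat_lit 1) (nat_lit 10) (.c (nat_lit 21) (nat_lit 3) (nat_lit 6) (nat_lit 1) (nat_lit 11) (.c (nat_lit 30) (nat_lit 3) (nat_lit 4) (nat_lit 1) (nat_lit 14) (.c (nat_lit 48) (nat_lit 5) (nat_lit 2) (nat_lit 1) (nat_lit 17) (.c (nat_lit 64) (nat_lit 4) (nat_lit 0) (nat_lit 1) (nat_lit 22) (.c (nat_lit 2512) (nat_lit 0) (nat_lit 36) (nat_lit 1) (nat_lit 26) .nil)))))))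

noncomputable def dr4_c276 : Cm := .mk (nat_lit 170) (nat_lit 276) (nat_lit 99) (nat_lit 16) (.c (nat_lit 14) (nat_lit 2) (nat_lit 12) (nat_lit 2) (nat_lit 16) (.c (nat_lit 16) (nat_lit 1) (nat_lit 9) (nat_lit 3) (nat_lit 20) (.c (nat_lit 24) (nat_lit 6) (nat_lit 6) (nat_lit 1) (nat_lit 23) (.c (nat_lit 30) (nat_lit 3) (nat_lit 5) (nat_lit 1) (nat_lit 29) (.c (nat_lit 33) (nat_lit 3) (nat_lit 4) (nat_lit 1) (nat_lit 32) (.c (nat_lit 36) (nat_lit 1) (nat_lit 3) (nat_lit 1) (nat_lit 35) (.c (nat_lit 53) (nat_lit 11) (nat_lit 2) (nat_lit 1) (nat_lit 36) (.c (nat_lit 64) (nat_lit 4) (nat_lit 1) (nat_lit 1) (nat_lit 47) (.c (nat_lit 68) (nat_lit 4) (nat_lit 0) (nat_lit 1) (nat_lit 51) .nil)))))))))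

noncomputable def dr4_i0 : IL := (.s true (nat_lit 1) (nat_lit 9) (nat_lit 0) (nat_lit 2) (nat_lit 2) true (nat_lit 5) true (nat_lit 7) true (nat_lit 0) true (nat_lit 9) true (nat_lit 7) (.s true (nat_lit 1) (nat_lit 9) (nat_lit 2) (nat_lit 0) (nat_lit 2) true (nat_lit 3) true (nat_lit 7) true (nat_lit 0) true (nat_lit 7) true (nat_lit 9) (.s true (nat_lit 1) (nat_lit 9) (nat_lit 2) (nat_lit 2) (nat_lit 0) true (nat_lit 5) true (nat_lit 9) true (nat_lit 0) true (nat_lit 7) true (nat_lit 7) (.s true (nat_lit 1) (nat_lit 13) (nat_lit 1) (nat_lit 0) (nat_lit 2) true (nat_lit 4) true (nat_lit 7) false (nat_lit 0) true (nat_lit 8) true (nat_lit 9) (.s true (nat_lit 1) (nat_lit 13) (nat_lit 1) (nat_lit 2) (nat_lit 0) true (nat_lit 6) true (nat_lit 9) false (nat_lit 0) true (nat_lit 8) true (nat_lit 7) (.s true (nat_lit 1) (nat_lit 13) (nat_lit 2) (nat_lit 0) (nat_lit 1) true (nat_lit 4)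 true (nat_lit 8) false (nat_lit 0) true (nat_lit 7) true (nat_lit 9) (.s true (nat_lit 1) (nat_lit 13) (nat_lit 2) (nat_lit 1) (nat_lit 0) true (nat_lit 5) true (nat_lit 9) false (nat_lit 0) true (nat_lit 7) true (nat_lit 8) (.s true (nat_lit 1) (nat_lit 15) (nat_lit 0) (nat_lit 2) (nat_lit 0) false (nat_lit 10) true (nat_lit 9) false (nat_lit 1) true (nat_lit 9) true (nat_lit 7) (.e true (nat_lit 16) (nat_lit 24) (nat_lit 4) (nat_lit 5) (.e false (nat_lit 12) (nat_lit 28) (nat_lit 4) (nat_lit 5) (.e true (nat_lit 8) (nat_lit 39) (nat_lit 2) (nat_lit 7) (.e true (nat_lit 8) (nat_lit 42) (nat_lit 2) (nat_lit 7) (.e false (nat_lit 8) (nat_lit 43) (nat_lit 2) (nat_lit 7) (.e true (nat_lit 4) (nat_lit 46) (nat_lit 2) (nat_lit 7) (.e false (nat_lit 8) (nat_lit 47) (nat_lit 2) (nat_lit 7) (.e false (nat_lit 8) (nat_lit 63) (nat_lit 0) (nat_lit 9) (.e false (nat_lit 8) (nat_lit 54) (nat_lit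 0) (nat_lit 9) (.e true (nat_lit 8) (nat_lit 55) (nat_lit 0) (nat_lit 9) (.e false (nat_lit 8) (nat_lit 45) (nat_lit 2) (nat_lit 7) (.e true (nat_lit 16) (nat_lit 51) (nat_lit 1) (nat_lit 8) (.e true (nat_lit 8) (nat_lit 52) (nat_lit 1) (nat_lit 8) (.e true (nat_lit 4) (nat_lit 57) (nat_lit 0) (nat_lit 9) (.e false (nat_lit 8) (nat_lit 49) (nat_lit 1) (nat_lit 8) (.e false (nat_lit 8) (nat_lit 40) (nat_lit 2) (nat_lit 7) (.e false (nat_lit 8) (nat_lit 48) (nat_lit 1) (nat_lit 8) .nil)))))))))))))))))))))))))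

noncomputable def dr4_i1 : IL := (.s true (nat_lit 2) (nat_lit 9) (nat_lit 0) (nat_lit 2) (nat_lit 2) true (nat_lit 5) true (nat_lit 7) true (nat_lit 0) true (nat_lit 9) true (nat_lit 7) (.s true (nat_lit 2) (nat_lit 9) (nat_lit 2) (nat_lit 0) (nat_lit 2) true (nat_lit 3) true (nat_lit 7) true (nat_lit 0) true (nat_lit 7) true (nat_lit 9) (.s false (nat_lit 1) (nat_lit 11) (nat_lit 2) (nat_lit 0) (nat_lit 2) true (nat_lit 3) true (nat_lit 7) true (nat_lit 0) true (nat_lit 7) true (nat_lit 9) (.s false (nat_lit 2) (nat_lit 11) (nat_lit 2) (nat_lit 2) (nat_lit 0) true (nat_lit 5) true (nat_lit 9) true (nat_lit 0) true (nat_lit 7) true (nat_lit 7) (.s true (nat_lit 2) (nat_lit 13) (nat_lit 1) (nat_lit 2) (nat_lit 0) true (nat_lit 6) true (nat_lit 9) false (nat_lit 0) true (nat_lit 8) true (nat_lit 7) (.s false (nat_lit 1) (nat_lit 12) (nat_lit 2) (nat_lit 0) (nat_lit 1) true (nat_lit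 4) true (nat_lit 8) false (nat_lit 0) true (nat_lit 7) true (nat_lit 9) (.e false (nat_lit 28) (nat_lit 25) (nat_lit 4) (nat_lit 5) (.e true (nat_lit 8) (nat_lit 28) (nat_lit 4) (nat_lit 5) (.e false (nat_lit 4) (nat_lit 48) (nat_lit 1) (nat_lit 8) (.e false (nat_lit 16) (nat_lit 52) (nat_lit 1) (nat_lit 8) (.e true (nat_lit 12) (nat_lit 37) (nat_lit 2) (nat_lit 7) (.e false (nat_lit 4) (nat_lit 42) (nat_lit 2) (nat_lit 7) (.e false (nat_lit 36) (nat_lit 43) (nat_lit 2) (nat_lit 7) (.e true (nat_lit 8) (nat_lit 44) (nat_lit 2) (nat_lit 7) (.e false (nat_lit 4) (nat_lit 45) (nat_lit 2) (nat_lit 7) (.e true (nat_lit 12) (nat_lit 46) (nat_lit 2) (nat_lit 7) (.e false (nat_lit 24) (nat_lit 47) (nat_lit 2) (nat_lit 7) (.e false (nat_lit 4) (nat_lit 41) (nat_lit 2) (nat_lit 7) (.e false (nat_lit 12) (nat_lit 51) (nat_lit 1) (nat_lit 8) (.e true (nat_lit 12) (nat_lit 49) (nat_lit 1) (nat_lit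 8) (.e false (nat_lit 4) (nat_lit 56) (nat_lit 0) (nat_lit 9) (.e true (nat_lit 4) (nat_lit 63) (nat_lit 0) (nat_lit 9) (.e true (nat_lit 16) (nat_lit 53) (nat_lit 0) (nat_lit 9) (.e true (nat_lit 20) (nat_lit 58) (nat_lit 0) (nat_lit 9) (.e true (nat_lit 16) (nat_lit 39) (nat_lit 2) (nat_lit 7) .nil)))))))))))))))))))))))))

noncomputable def dr4_t0 : Tr := (.nd (.nd (.nd (.nd (.nd (.nd (.nd .leaf (nat_lit 1024) (nat_lit 0) (.p (nat_lit 3) (nat_lit 4) .z) .df .leaf) (nat_lit 2048) (nat_lit 1) (.p (nat_lit 4) (nat_lit 4) .z) .df (.nd .leaf (nat_lit 2049) (nat_lit 2) (.p (nat_lit 5) (nat_lit 4) .z) .df .leaf)) (nat_lit 2050) (nat_lit 3) (.p (nat_lit 6) (nat_lit 4) .z) .df (.nd (.nd .leaf (nat_lit 3072) (nat_lit 4) (.p (nat_lit 7) (nat_lit 4) .z) .df .leaf) (nat_lit 3074) (nat_lit 6) (.p (nat_lit 9) (nat_lit 4) .z) .df .leaf)) (nat_lit 4096) (nat_lit 5) (.p (nat_lit 8) (nat_lit 4) .z)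 .df (.nd (.nd (.nd .leaf (nat_lit 4097) (nat_lit 7) (.p (nat_lit 10) (nat_lit 4) .z) .df .leaf) (nat_lit 4098) (nat_lit 9) (.p (nat_lit 12) (nat_lit 4) .z) .df (.nd .leaf (nat_lit 4099) (nat_lit 19) (.n (nat_lit 18) (nat_lit 4) (.p (nat_lit 19) (nat_lit 4) (.p (nat_lit 20) (nat_lit 4) .z))) (.ct dr4_c529 (nat_lit 4) (nat_lit 0) (.s true (nat_lit 1) (nat_lit 2) (nat_lit 0) (nat_lit 0) (nat_lit 1) true (nat_lit 0) true (nat_lit 2) true (nat_lit 1) true (nat_lit 3) true (nat_lit 3) (.e true (nat_lit 4) (nat_lit 8) (nat_lit 1) (nat_lit 2) (.e false (nat_lit 4) (nat_lit 9) (nat_lit 0) (nat_lit 3) (.e false (nat_lit 4) (nat_lit 11) (nat_lit 0) (nat_lit 3) .nil))))) .leaf)) (nat_lit 4100) (nat_lit 23) (.n (nat_lit 21) (nat_lit 4) (.n (nat_lit 22) (nat_lit 4) (.p (nat_lit 23) (nat_lit 4) .z))) (.ct dr4_c514 (nat_lit 4) (nat_lit 0) (.s true (nat_lit 1) (nat_lit 2) (nat_lit 0) (nat_lit 0) (nat_lit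 2) true (nat_lit 0) true (nat_lit 1) true (nat_lit 1) true (nat_lit 2) true (nat_lit 2) (.e true (nat_lit 4) (nat_lit 8) (nat_lit 2) (nat_lit 1) (.e true (nat_lit 4) (nat_lit 12) (nat_lit 0) (nat_lit 2) (.e false (nat_lit 4) (nat_lit 13) (nat_lit 0) (nat_lit 2) .nil))))) (.nd (.nd .leaf (nat_lit 5120) (nat_lit 8) (.p (nat_lit 11) (nat_lit 4) .z) .df .leaf) (nat_lit 5122) (nat_lit 11) (.p (nat_lit 14) (nat_lit 4) .z) .df .leaf))) (nat_lit 5124) (nat_lit 30) (.n (nat_lit 24) (nat_lit 4) (.n (nat_lit 25) (nat_lit 4) (.p (nat_lit 28) (nat_lit 4) (.n (nat_lit 29) (nat_lit 4) .z)))) (.ct dr4_c274 (nat_lit 4) (nat_lit 0) (.s true (nat_lit 1) (nat_lit 2) (nat_lit 0) (nat_lit 1) (nat_lit 2) true (nat_lit 0) true (nat_lit 2) true (nat_lit 2) true (nat_lit 4) true (nat_lit 3) (.e true (nat_lit 4) (nat_lit 10) (nat_lit 2) (nat_lit 2) (.e true (nat_lit 4) (nat_lit 9) (nat_lit 2) (nat_lit 2) (.e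 true (nat_lit 4) (nat_lit 14) (nat_lit 0) (nat_lit 4) (.e false (nat_lit 4) (nat_lit 13) (nat_lit 1) (nat_lit 3) .nil)))))) (.nd (.nd (.nd (.nd .leaf (nat_lit 6144) (nat_lit 10) (.p (nat_lit 13) (nat_lit 4) .z) .df .leaf) (nat_lit 6145) (nat_lit 12) (.p (nat_lit 15) (nat_lit 4) .z) .df (.nd .leaf (nat_lit 6146) (nat_lit 13) (.p (nat_lit 16) (nat_lit 4) .z) .df .leaf)) (nat_lit 6147) (nat_lit 32) (.n (nat_lit 25) (nat_lit 4) (.p (nat_lit 26) (nat_lit 4) (.n (nat_lit 27) (nat_lit 4) (.p (nat_lit 29) (nat_lit 4) .z)))) (.ct dr4_c274 (nat_lit 4) (nat_lit 1) (.s true (nat_lit 1) (nat_lit 2) (nat_lit 0) (nat_lit 2) (nat_lit 1) true (nat_lit 1) true (nat_lit 3) true (nat_lit 2) true (nat_lit 4) true (nat_lit 2) (.e true (nat_lit 4) (nat_lit 12) (nat_lit 1) (nat_lit 3) (.e true (nat_lit 4) (nat_lit 10) (nat_lit 2) (nat_lit 2) (.e false (nat_lit 4) (nat_lit 14) (nat_lit 0) (nat_lit 4) (.e false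 (nat_lit 4) (nat_lit 11) (nat_lit 2) (nat_lit 2) .nil)))))) (.nd (.nd .leaf (nat_lit 6148) (nat_lit 36) (.n (nat_lit 31) (nat_lit 4) (.n (nat_lit 32) (nat_lit 4) .z)) (.ct dr4_c259 (nat_lit 4) (nat_lit 0) (.s true (nat_lit 1) (nat_lit 2) (nat_lit 0) (nat_lit 2) (nat_lit 2) true (nat_lit 0) true (nat_lit 1) true (nat_lit 1) true (nat_lit 2) true (nat_lit 1) (.e true (nat_lit 4) (nat_lit 16) (nat_lit 0) (nat_lit 2) (.e true (nat_lit 4) (nat_lit 13) (nat_lit 2) (nat_lit 1) .nil)))) .leaf) (nat_lit 6149) (nat_lit 40) (.n (nat_lit 34) (nat_lit 4) (.n (nat_lit 35) (nat_lit 4) .z)) (.ct dr4_c19 (nat_lit 4) (nat_lit 0) (.s true (nat_lit 1) (nat_lit 2) (nat_lit 1) (nat_lit 2) (nat_lit 2) true (nat_lit 0) true (nat_lit 1) true (nat_lit 1) true (nat_lit 2) true (nat_lit 1) (.e true (nat_lit 4) (nat_lit 16) (nat_lit 1) (nat_lit 2) (.e true (nat_lit 4) (nat_lit 15) (nat_lit 2) (nat_lit 1) .nil))))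 .leaf)) (nat_lit 7170) (nat_lit 14) (.p (nat_lit 17) (nat_lit 4) .z) .df (.nd (.nd (.nd .leaf (nat_lit 7174) (nat_lit 59) (.n (nat_lit 41) (nat_lit 4) (.p (nat_lit 43) (nat_lit 4) (.n (nat_lit 44) (nat_lit 4) (.p (nat_lit 45) (nat_lit 4) (.p (nat_lit 46) (nat_lit 4) (.n (nat_lit 47) (nat_lit 4) .z)))))) (.ct dr4_c530 (nat_lit 4) (nat_lit 0) (.s false (nat_lit 1) (nat_lit 3) (nat_lit 2) (nat_lit 0) (nat_lit 2) true (nat_lit 0) true (nat_lit 4) true (nat_lit 3) true (nat_lit 4) true (nat_lit 6) (.e false (nat_lit 8) (nat_lit 19) (nat_lit 2) (nat_lit 4) (.e false (nat_lit 4) (nat_lit 12) (nat_lit 3) (nat_lit 3) (.e true (nat_lit 4) (nat_lit 18) (nat_lit 2) (nat_lit 4) (.e false (nat_lit 4) (nat_lit 20) (nat_lit 2) (nat_lit 4) (.e false (nat_lit 4) (nat_lit 24) (nat_lit 0) (nat_lit 6) .nil))))))) .leaf) (nat_lit 8193) (nat_lit 15) (.p (nat_lit 18) (nat_lit 4) .z) .df .leaf) (nat_lit 8194)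 (nat_lit 20) (.p (nat_lit 21) (nat_lit 4) .z) .df (.nd (.nd .leaf (nat_lit 8197) (nat_lit 54) (.p (nat_lit 39) (nat_lit 4) (.n (nat_lit 42) (nat_lit 4) (.n (nat_lit 43) (nat_lit 4) (.n (nat_lit 44) (nat_lit 4) (.p (nat_lit 46) (nat_lit 4) (.n (nat_lit 47) (nat_lit 4) .z)))))) (.ct dr4_c530 (nat_lit 4) (nat_lit 1) (.s true (nat_lit 1) (nat_lit 5) (nat_lit 0) (nat_lit 2) (nat_lit 0) false (nat_lit 7) true (nat_lit 6) true (nat_lit 1) true (nat_lit 6) true (nat_lit 4) (.e true (nat_lit 4) (nat_lit 26) (nat_lit 0) (nat_lit 6) (.e true (nat_lit 4) (nat_lit 24) (nat_lit 0) (nat_lit 6) (.e true (nat_lit 4) (nat_lit 25) (nat_lit 0) (nat_lit 6) (.e false (nat_lit 4) (nat_lit 28) (nat_lit 0) (nat_lit 6) (.e true (nat_lit 4) (nat_lit 29) (nat_lit 0) (nat_lit 6) (.e false (nat_lit 4) (nat_lit 20) (nat_lit 2) (nat_lit 4) .nil)))))))) .leaf) (nat_lit 8198) (nat_lit 67) (.n (nat_lit 49) (nat_lit 4)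 (.p (nat_lit 51) (nat_lit 8) (.p (nat_lit 52) (nat_lit 4) .z))) (.ct dr4_c515 (nat_lit 4) (nat_lit 0) (.s false (nat_lit 1) (nat_lit 6) (nat_lit 0) (nat_lit 2) (nat_lit 0) false (nat_lit 4) true (nat_lit 3) true (nat_lit 0) true (nat_lit 3) true (nat_lit 2) (.e false (nat_lit 8) (nat_lit 31) (nat_lit 0) (nat_lit 3) (.e false (nat_lit 4) (nat_lit 32) (nat_lit 0) (nat_lit 3) (.e true (nat_lit 4) (nat_lit 23) (nat_lit 2) (nat_lit 2) .nil))))) .leaf)))) (nat_lit 9216) (nat_lit 16) (.p (nat_lit 19) (nat_lit 4) .z) .df (.nd (.nd (.nd (.nd (.nd .leaf (nat_lit 9218) (nat_lit 24) (.p (nat_lit 24) (nat_lit 4) .z) .df .leaf) (nat_lit 9220) (nat_lit 57) (.n (nat_lit 38) (nat_lit 4) (.p (nat_lit 43) (nat_lit 4) (.n (nat_lit 44) (nat_lit 4) .z))) (.ct dr4_c530 (nat_lit 4) (nat_lit 2) (.s true (nat_lit 1) (nat_lit 3) (nat_lit 0) (nat_lit 2) (nat_lit 2) true (nat_lit 2) true (nat_lit 4) true (nat_lit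 3) true (nat_lit 6) true (nat_lit 4) (.e true (nat_lit 4) (nat_lit 17) (nat_lit 2) (nat_lit 4) (.e false (nat_lit 4) (nat_lit 12) (nat_lit 3) (nat_lit 3) (.e false (nat_lit 4) (nat_lit 25) (nat_lit 0) (nat_lit 6) (.e true (nat_lit 4) (nat_lit 26) (nat_lit 0) (nat_lit 6) (.e false (nat_lit 4) (nat_lit 27) (nat_lit 0) (nat_lit 6) (.e true (nat_lit 4) (nat_lit 29) (nat_lit 0) (nat_lit 6) (.e true (nat_lit 4) (nat_lit 19) (nat_lit 2) (nat_lit 4) .nil))))))))) (.nd .leaf (nat_lit 9222) (nat_lit 80) (.p (nat_lit 62) (nat_lit 4) .z) .df .leaf)) (nat_lit 10240) (nat_lit 18) (.p (nat_lit 17) (nat_lit 4) (.p (nat_lit 18) (nat_lit 4) (.n (nat_lit 19) (nat_lit 4) .z))) (.ct dr4_c529 (nat_lit 4) (nat_lit 3) (.s true (nat_lit 1) (nat_lit 2) (nat_lit 0) (nat_lit 1) (nat_lit 0) false (nat_lit 4) true (nat_lit 3) true (nat_lit 1) true (nat_lit 3) true (nat_lit 2) (.e false (nat_lit 4) (nat_lit 7) (nat_lit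 2) (nat_lit 1) (.e true (nat_lit 4) (nat_lit 9) (nat_lit 0) (nat_lit 3) (.e false (nat_lit 4) (nat_lit 8) (nat_lit 1) (nat_lit 2) .nil))))) (.nd (.nd .leaf (nat_lit 10242) (nat_lit 25) (.p (nat_lit 25) (nat_lit 4) .z) .df .leaf) (nat_lit 10244) (nat_lit 58) (.p (nat_lit 37) (nat_lit 4) (.n (nat_lit 38) (nat_lit 4) (.n (nat_lit 40) (nat_lit 4) (.n (nat_lit 42) (nat_lit 4) (.n (nat_lit 43) (nat_lit 4) (.p (nat_lit 45) (nat_lit 4) (.p (nat_lit 46) (nat_lit 4) (.n (nat_lit 47) (nat_lit 8) .z)))))))) (.ct dr4_c530 (nat_lit 4) (nat_lit 2) (.s false (nat_lit 1) (nat_lit 4) (nat_lit 2) (nat_lit 0) (nat_lit 1) true (nat_lit 1) true (nat_lit 5) true (nat_lit 2) true (nat_lit 4) true (nat_lit 6) (.e true (nat_lit 4) (nat_lit 8) (nat_lit 5) (nat_lit 1) (.e false (nat_lit 4) (nat_lit 22) (nat_lit 1) (nat_lit 5) (.e true (nat_lit 4) (nat_lit 18) (nat_lit 2) (nat_lit 4) (.e false (nat_lit 4) (nat_lit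 19) (nat_lit 2) (nat_lit 4) (.e false (nat_lit 4) (nat_lit 20) (nat_lit 2) (nat_lit 4) (.e true (nat_lit 4) (nat_lit 25) (nat_lit 0) (nat_lit 6) .nil)))))))) .leaf)) (nat_lit 10246) (nat_lit 82) (.p (nat_lit 53) (nat_lit 8) (.p (nat_lit 54) (nat_lit 12) (.n (nat_lit 55) (nat_lit 4) (.p (nat_lit 56) (nat_lit 4) (.n (nat_lit 57) (nat_lit 4) (.p (nat_lit 58) (nat_lit 4) (.n (nat_lit 60) (nat_lit 4) (.n (nat_lit 62) (nat_lit 4) .z)))))))) (.ct dr4_c275 (nat_lit 4) (nat_lit 0) (.s false (nat_lit 1) (nat_lit 4) (nat_lit 2) (nat_lit 1) (nat_lit 2) true (nat_lit 0) true (nat_lit 4) true (nat_lit 2) true (nat_lit 4) true (nat_lit 5) (.s true (nat_lit 1) (nat_lit 4) (nat_lit 2) (nat_lit 2) (nat_lit 1) true (nat_lit 1) true (nat_lit 5) true (nat_lit 2) true (nat_lit 4) true (nat_lit 4) (.s true (nat_lit 1) (nat_lit 5) (nat_lit 0) (nat_lit 2) (nat_lit 2) true (nat_lit 2) true (nat_lit 4) true (nat_lit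 1) true (nat_lit 6) true (nat_lit 4) (.s false (nat_lit 1) (nat_lit 6) (nat_lit 0) (nat_lit 1) (nat_lit 2) true (nat_lit 2) true (nat_lit 4) true (nat_lit 0) true (nat_lit 6) true (nat_lit 5) (.e false (nat_lit 4) (nat_lit 27) (nat_lit 2) (nat_lit 4) (.e false (nat_lit 8) (nat_lit 24) (nat_lit 2) (nat_lit 4) (.e false (nat_lit 12) (nat_lit 25) (nat_lit 2) (nat_lit 4) (.e true (nat_lit 4) (nat_lit 28) (nat_lit 2) (nat_lit 4) (.e false (nat_lit 4) (nat_lit 29) (nat_lit 2) (nat_lit 4) (.e true (nat_lit 4) (nat_lit 26) (nat_lit 2) (nat_lit 4) (.e true (nat_lit 4) (nat_lit 9) (nat_lit 6) (nat_lit 0) (.e true (nat_lit 4) (nat_lit 32) (nat_lit 1) (nat_lit 5) .nil))))))))))))) (.nd (.nd (.nd .leaf (nat_lit 11264) (nat_lit 17) (.p (nat_lit 20) (nat_lit 4) .z) .df .leaf) (nat_lit 11266) (nat_lit 26) (.p (nat_lit 26) (nat_lit 4) .z) .df .leaf) (nat_lit 11268) (nat_lit 61) (.n (nat_lit 39) (nat_lit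 4) (.p (nat_lit 42) (nat_lit 4) (.p (nat_lit 43) (nat_lit 4) (.n (nat_lit 46) (nat_lit 4) (.p (nat_lit 47) (nat_lit 8) .z))))) (.ct dr4_c530 (nat_lit 4) (nat_lit 2) (.s false (nat_lit 1) (nat_lit 5) (nat_lit 2) (nat_lit 0) (nat_lit 0) true (nat_lit 2) true (nat_lit 6) true (nat_lit 1) true (nat_lit 4) true (nat_lit 6) (.e false (nat_lit 4) (nat_lit 29) (nat_lit 0) (nat_lit 6) (.e true (nat_lit 4) (nat_lit 8) (nat_lit 5) (nat_lit 1) (.e true (nat_lit 4) (nat_lit 26) (nat_lit 0) (nat_lit 6) .nil))))) (.nd (.nd .leaf (nat_lit 11270) (nat_lit 84) (.n (nat_lit 54) (nat_lit 4) (.p (nat_lit 55) (nat_lit 4) (.n (nat_lit 56) (nat_lit 4) (.n (nat_lit 57) (nat_lit 4) (.p (nat_lit 58) (nat_lit 4) (.p (nat_lit 59) (nat_lit 4) (.p (nat_lit 60) (nat_lit 4) (.p (nat_lit 61) (nat_lit 4) (.p (nat_lit 62) (nat_lit 4) .z))))))))) (.ct dr4_c275 (nat_lit 4) (nat_lit 0) (.s true (nat_lit 1) (nat_lit 4) (nat_lit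 1) (nat_lit 2) (nat_lit 2) true (nat_lit 1) true (nat_lit 4) true (nat_lit 2) true (nat_lit 5) true (nat_lit 4) (.s false (nat_lit 1) (nat_lit 5) (nat_lit 2) (nat_lit 0) (nat_lit 2) true (nat_lit 0) true (nat_lit 4) true (nat_lit 1) true (nat_lit 4) true (nat_lit 6) (.s true (nat_lit 1) (nat_lit 5) (nat_lit 2) (nat_lit 2) (nat_lit 0) true (nat_lit 2) true (nat_lit 6) true (nat_lit 1) true (nat_lit 4) true (nat_lit 4) (.s true (nat_lit 1) (nat_lit 6) (nat_lit 2) (nat_lit 0) (nat_lit 1) true (nat_lit 1) true (nat_lit 5) true (nat_lit 0) true (nat_lit 4) true (nat_lit 6) (.e false (nat_lit 8) (nat_lit 25) (nat_lit 2) (nat_lit 4) (.e false (nat_lit 4) (nat_lit 31) (nat_lit 1) (nat_lit 5) (.e false (nat_lit 8) (nat_lit 29) (nat_lit 2) (nat_lit 4) (.e false (nat_lit 8) (nat_lit 24) (nat_lit 2) (nat_lit 4) (.e true (nat_lit 8) (nat_lit 28) (nat_lit 2) (nat_lit 4) (.e true (nat_lit 4) (nat_lit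 10) (nat_lit 6) (nat_lit 0) (.e false (nat_lit 4) (nat_lit 34) (nat_lit 0) (nat_lit 6) .nil)))))))))))) .leaf) (nat_lit 12288) (nat_lit 21) (.p (nat_lit 22) (nat_lit 4) .z) .df .leaf))) (nat_lit 12289) (nat_lit 27) (.p (nat_lit 27) (nat_lit 4) .z) .df (.nd (.nd (.nd (.nd .leaf (nat_lit 12290) (nat_lit 33) (.p (nat_lit 30) (nat_lit 4) .z) .df .leaf) (nat_lit 12291) (nat_lit 53) (.p (nat_lit 37) (nat_lit 4) (.n (nat_lit 38) (nat_lit 8) (.n (nat_lit 39) (nat_lit 4) (.n (nat_lit 41) (nat_lit 4) (.n (nat_lit 42) (nat_lit 4) (.p (nat_lit 43) (nat_lit 4) (.n (nat_lit 44) (nat_lit 4) (.p (nat_lit 45) (nat_lit 4) (.p (nat_lit 46) (nat_lit 4) (.n (nat_lit 47) (nat_lit 4) .z)))))))))) (.ct dr4_c530 (nat_lit 4) (nat_lit 3) (.s true (nat_lit 1) (nat_lit 3) (nat_lit 2) (nat_lit 0) (nat_lit 2) true (nat_lit 0) true (nat_lit 4) true (nat_lit 3) true (nat_lit 4) true (nat_lit 6) (.s false (nat_lit 1)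 (nat_lit 6) (nat_lit 0) (nat_lit 1) (nat_lit 0) false (nat_lit 7) true (nat_lit 6) true (nat_lit 0) true (nat_lit 6) true (nat_lit 5) (.e true (nat_lit 8) (nat_lit 19) (nat_lit 2) (nat_lit 4) (.e false (nat_lit 4) (nat_lit 18) (nat_lit 2) (nat_lit 4) (.e true (nat_lit 4) (nat_lit 20) (nat_lit 2) (nat_lit 4) (.e true (nat_lit 4) (nat_lit 24) (nat_lit 0) (nat_lit 6) (.e false (nat_lit 4) (nat_lit 28) (nat_lit 0) (nat_lit 6) (.e false (nat_lit 4) (nat_lit 25) (nat_lit 0) (nat_lit 6) (.e true (nat_lit 4) (nat_lit 26) (nat_lit 0) (nat_lit 6) (.e false (nat_lit 4) (nat_lit 27) (nat_lit 0) (nat_lit 6) (.e true (nat_lit 4) (nat_lit 29) (nat_lit 0) (nat_lit 6) (.e true (nat_lit 4) (nat_lit 23) (nat_lit 1) (nat_lit 5) .nil))))))))))))) (.nd .leaf (nat_lit 12292) (nat_lit 70) (.p (nat_lit 48) (nat_lit 4) (.n (nat_lit 50) (nat_lit 4) (.n (nat_lit 52) (nat_lit 4) .z))) (.ct dr4_c515 (nat_lit 4)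 (nat_lit 1) (.s true (nat_lit 1) (nat_lit 4) (nat_lit 2) (nat_lit 0) (nat_lit 2) true (nat_lit 0) true (nat_lit 2) true (nat_lit 1) true (nat_lit 2) true (nat_lit 3) (.e false (nat_lit 4) (nat_lit 8) (nat_lit 6) (nat_lit 0) (.e true (nat_lit 8) (nat_lit 22) (nat_lit 2) (nat_lit 2) (.e true (nat_lit 4) (nat_lit 21) (nat_lit 2) (nat_lit 2) (.e false (nat_lit 4) (nat_lit 23) (nat_lit 2) (nat_lit 2) (.e true (nat_lit 4) (nat_lit 30) (nat_lit 0) (nat_lit 3) .nil))))))) .leaf)) (nat_lit 12293) (nat_lit 81) (.p (nat_lit 63) (nat_lit 4) .z) .df (.nd (.nd .leaf (nat_lit 12294) (nat_lit 95) (.p (nat_lit 65) (nat_lit 4) (.n (nat_lit 67) (nat_lit 4) .z)) (.ct dr4_c260 (nat_lit 8) (nat_lit 0) (.s true (nat_lit 1) (nat_lit 4) (nat_lit 2) (nat_lit 2) (nat_lit 2) true (nat_lit 0) true (nat_lit 2) true (nat_lit 1) true (nat_lit 2) true (nat_lit 2) (.s true (nat_lit 1) (nat_lit 6) (nat_lit 2) (nat_lit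 0) (nat_lit 2) true (nat_lit 0) true (nat_lit 2) true (nat_lit 0) true (nat_lit 2) true (nat_lit 3) (.s true (nat_lit 1) (nat_lit 6) (nat_lit 2) (nat_lit 2) (nat_lit 0) true (nat_lit 1) true (nat_lit 3) true (nat_lit 0) true (nat_lit 2) true (nat_lit 2) (.e false (nat_lit 8) (nat_lit 31) (nat_lit 2) (nat_lit 2) (.e true (nat_lit 8) (nat_lit 36) (nat_lit 0) (nat_lit 3) .nil)))))) .leaf) (nat_lit 12297) (nat_lit 151) (.p (nat_lit 72) (nat_lit 12) (.n (nat_lit 74) (nat_lit 8) (.n (nat_lit 75) (nat_lit 22) (.n (nat_lit 76) (nat_lit 6) (.p (nat_lit 77) (nat_lit 6) (.p (nat_lit 78) (nat_lit 16) (.p (nat_lit 79) (nat_lit 8) (.n (nat_lit 80) (nat_lit 28) (.n (nat_lit 81) (nat_lit 4) (.p (nat_lit 82) (nat_lit 4) (.p (nat_lit 83) (nat_lit 6) (.p (nat_lit 84) (nat_lit 8) (.n (nat_lit 85) (nat_lit 10) (.n (nat_lit 86) (nat_lit 2) (.n (nat_lit 87) (nat_lit 10) (.p (nat_lit 88) (nat_lit 12) (.p (nat_lit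 89) (nat_lit 2) (.n (nat_lit 90) (nat_lit 12) (.n (nat_lit 91) (nat_lit 4) (.n (nat_lit 92) (nat_lit 8) .z)))))))))))))))))))) (.ct dr4_c531 (nat_lit 4) (nat_lit 0) (.s false (nat_lit 1) (nat_lit 9) (nat_lit 0) (nat_lit 2) (nat_lit 2) true (nat_lit 5) true (nat_lit 7) true (nat_lit 0) true (nat_lit 9) true (nat_lit 7) (.e false (nat_lit 4) (nat_lit 24) (nat_lit 4) (nat_lit 5) (.e false (nat_lit 4) (nat_lit 38) (nat_lit 2) (nat_lit 7) (.e true (nat_lit 4) (nat_lit 62) (nat_lit 0) (nat_lit 9) (.e false (nat_lit 4) (nat_lit 42) (nat_lit 2) (nat_lit 7) .nil)))))) .leaf)) (nat_lit 12298) (nat_lit 139) (.n (nat_lit 72) (nat_lit 68) (.p (nat_lit 73) (nat_lit 8) (.p (nat_lit 74) (nat_lit 30) (.p (nat_lit 75) (nat_lit 108) (.p (nat_lit 76) (nat_lit 48) (.n (nat_lit 77) (nat_lit 32) (.n (nat_lit 78) (nat_lit 60) (.n (nat_lit 79) (nat_lit 46) (.p (nat_lit 80) (nat_lit 140) (.p (nat_lit 81) (nat_lit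 28) (.n (nat_lit 82) (nat_lit 14) (.n (nat_lit 83) (nat_lit 34) (.n (nat_lit 84) (nat_lit 48) (.p (nat_lit 85) (nat_lit 32) (.p (nat_lit 86) (nat_lit 4) (.p (nat_lit 87) (nat_lit 48) (.n (nat_lit 88) (nat_lit 48) (.n (nat_lit 89) (nat_lit 10) (.p (nat_lit 90) (nat_lit 52) (.p (nat_lit 91) (nat_lit 14) (.p (nat_lit 92) (nat_lit 40) .z))))))))))))))))))))) (.ct dr4_c531 (nat_lit 4) (nat_lit 0) (.s true (nat_lit 1) (nat_lit 4) (nat_lit 2) (nat_lit 1) (nat_lit 4) false (nat_lit 0) true (nat_lit 5) true (nat_lit 5) true (nat_lit 7) true (nat_lit 8) (.e true (nat_lit 4) (nat_lit 27) (nat_lit 4) (nat_lit 5) (.e false (nat_lit 4) (nat_lit 24) (nat_lit 4) (nat_lit 5) (.e false (nat_lit 4) (nat_lit 25) (nat_lit 4) (nat_lit 5) (.e true (nat_lit 4) (nat_lit 28) (nat_lit 4) (nat_lit 5) (.e false (nat_lit 4) (nat_lit 29) (nat_lit 4) (nat_lit 5) (.e false (nat_lit 4) (nat_lit 37) (nat_lit 2) (nat_lit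 7) (.e true (nat_lit 4) (nat_lit 38) (nat_lit 2) (nat_lit 7) (.e true (nat_lit 4) (nat_lit 40) (nat_lit 2) (nat_lit 7) (.e true (nat_lit 4) (nat_lit 42) (nat_lit 2) (nat_lit 7) (.e true (nat_lit 4) (nat_lit 43) (nat_lit 2) (nat_lit 7) (.e false (nat_lit 4) (nat_lit 45) (nat_lit 2) (nat_lit 7) (.e false (nat_lit 4) (nat_lit 46) (nat_lit 2) (nat_lit 7) (.e true (nat_lit 8) (nat_lit 47) (nat_lit 2) (nat_lit 7) (.e false (nat_lit 4) (nat_lit 51) (nat_lit 1) (nat_lit 8) (.e false (nat_lit 4) (nat_lit 52) (nat_lit 1) (nat_lit 8) (.e true (nat_lit 4) (nat_lit 49) (nat_lit 1) (nat_lit 8) .nil)))))))))))))))))) (.nd (.nd (.nd .leaf (nat_lit 12299) (nat_lit 148) (.n (nat_lit 72) (nat_lit 64) (.p (nat_lit 73) (nat_lit 20) (.p (nat_lit 74) (nat_lit 24) (.p (nat_lit 75) (nat_lit 128) (.p (nat_lit 76) (nat_lit 68) (.n (nat_lit 77) (nat_lit 28) (.n (nat_lit 78) (nat_lit 68) (.n (nat_lit 79) (nat_lit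 64) (.p (nat_lit 80) (nat_lit 156) (.p (nat_lit 81) (nat_lit 28) (.n (nat_lit 83) (nat_lit 48) (.n (nat_lit 84) (nat_lit 68) (.p (nat_lit 85) (nat_lit 16) (.n (nat_lit 86) (nat_lit 20) (.p (nat_lit 87) (nat_lit 44) (.n (nat_lit 88) (nat_lit 52) (.p (nat_lit 89) (nat_lit 12) (.p (nat_lit 90) (nat_lit 36) (.p (nat_lit 91) (nat_lit 16) (.p (nat_lit 92) (nat_lit 36) .z)))))))))))))))))))) (.ct dr4_c531 (nat_lit 4) (nat_lit 0) (.s true (nat_lit 1) (nat_lit 11) (nat_lit 2) (nat_lit 0) (nat_lit 2) true (nat_lit 3) true (nat_lit 7) true (nat_lit 0) true (nat_lit 7) true (nat_lit 9) (.e false (nat_lit 4) (nat_lit 20) (nat_lit 6) (nat_lit 3) (.e true (nat_lit 4) (nat_lit 44) (nat_lit 2) (nat_lit 7) (.e true (nat_lit 4) (nat_lit 39) (nat_lit 2) (nat_lit 7) (.e false (nat_lit 4) (nat_lit 42) (nat_lit 2) (nat_lit 7) (.e false (nat_lit 4) (nat_lit 43) (nat_lit 2) (nat_lit 7) (.e true (nat_lit 4)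 (nat_lit 46) (nat_lit 2) (nat_lit 7) (.e false (nat_lit 8) (nat_lit 47) (nat_lit 2) (nat_lit 7) (.e true (nat_lit 4) (nat_lit 55) (nat_lit 0) (nat_lit 9) .nil)))))))))) .leaf) (nat_lit 13312) (nat_lit 22) (.p (nat_lit 23) (nat_lit 4) .z) .df .leaf) (nat_lit 13313) (nat_lit 28) (.p (nat_lit 28) (nat_lit 4) .z) .df (.nd (.nd .leaf (nat_lit 13314) (nat_lit 34) (.p (nat_lit 31) (nat_lit 4) .z) .df .leaf) (nat_lit 13315) (nat_lit 60) (.n (nat_lit 41) (nat_lit 4) (.n (nat_lit 42) (nat_lit 8) (.p (nat_lit 45) (nat_lit 8) (.p (nat_lit 46) (nat_lit 4) (.n (nat_lit 47) (nat_lit 8) .z))))) (.ct dr4_c530 (nat_lit 4) (nat_lit 3) (.s true (nat_lit 1) (nat_lit 6) (nat_lit 0) (nat_lit 0) (nat_lit 1) true (nat_lit 3) true (nat_lit 5) true (nat_lit 0) true (nat_lit 6) true (nat_lit 6) (.e true (nat_lit 4) (nat_lit 23) (nat_lit 1) (nat_lit 5) (.e false (nat_lit 8) (nat_lit 27) (nat_lit 0) (nat_lit 6)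 (.e true (nat_lit 8) (nat_lit 29) (nat_lit 0) (nat_lit 6) (.e true (nat_lit 8) (nat_lit 24) (nat_lit 0) (nat_lit 6) (.e false (nat_lit 4) (nat_lit 28) (nat_lit 0) (nat_lit 6) .nil))))))) .leaf))))) (nat_lit 13316) (nat_lit 68) (.n (nat_lit 49) (nat_lit 4) (.p (nat_lit 51) (nat_lit 4) (.p (nat_lit 52) (nat_lit 8) .z))) (.ct dr4_c515 (nat_lit 4) (nat_lit 1) (.s true (nat_lit 1) (nat_lit 6) (nat_lit 0) (nat_lit 0) (nat_lit 2) true (nat_lit 1) true (nat_lit 2) true (nat_lit 0) true (nat_lit 3) true (nat_lit 3) (.e true (nat_lit 4) (nat_lit 23) (nat_lit 2) (nat_lit 2) (.e false (nat_lit 4) (nat_lit 31) (nat_lit 0) (nat_lit 3) (.e false (nat_lit 8) (nat_lit 32) (nat_lit 0) (nat_lit 3) .nil))))) (.nd (.nd (.nd (.nd (.nd (.nd .leaf (nat_lit 13317) (nat_lit 86) (.p (nat_lit 53) (nat_lit 8) (.p (nat_lit 54) (nat_lit 8) (.n (nat_lit 57) (nat_lit 4) (.p (nat_lit 58) (nat_lit 8) (.n (nat_lit 61)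 (nat_lit 4) (.n (nat_lit 62) (nat_lit 4) .z)))))) (.ct dr4_c275 (nat_lit 4) (nat_lit 1) (.s false (nat_lit 1) (nat_lit 6) (nat_lit 2) (nat_lit 0) (nat_lit 1) true (nat_lit 1) true (nat_lit 5) true (nat_lit 0) true (nat_lit 4) true (nat_lit 6) (.e false (nat_lit 4) (nat_lit 32) (nat_lit 1) (nat_lit 5) (.e false (nat_lit 4) (nat_lit 10) (nat_lit 6) (nat_lit 0) (.e true (nat_lit 4) (nat_lit 25) (nat_lit 2) (nat_lit 4) (.e false (nat_lit 4) (nat_lit 26) (nat_lit 2) (nat_lit 4) (.e true (nat_lit 4) (nat_lit 27) (nat_lit 2) (nat_lit 4) (.e false (nat_lit 4) (nat_lit 29) (nat_lit 2) (nat_lit 4) (.e true (nat_lit 4) (nat_lit 34) (nat_lit 0) (nat_lit 6) .nil))))))))) .leaf) (nat_lit 13318) (nat_lit 96) (.p (nat_lit 65) (nat_lit 8) (.p (nat_lit 66) (nat_lit 8) .z)) (.ct dr4_c260 (nat_lit 4) (nat_lit 0) (.s false (nat_lit 1) (nat_lit 6) (nat_lit 2) (nat_lit 0) (nat_lit 2) true (nat_lit 0) true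 (nat_lit 2) true (nat_lit 0) true (nat_lit 2) true (nat_lit 3) (.e false (nat_lit 8) (nat_lit 32) (nat_lit 2) (nat_lit 2) (.e false (nat_lit 4) (nat_lit 12) (nat_lit 6) (nat_lit 0) (.e false (nat_lit 4) (nat_lit 31) (nat_lit 2) (nat_lit 2) (.e false (nat_lit 4) (nat_lit 36) (nat_lit 0) (nat_lit 3) .nil)))))) (.nd .leaf (nat_lit 13321) (nat_lit 152) (.p (nat_lit 72) (nat_lit 68) (.n (nat_lit 73) (nat_lit 20) (.n (nat_lit 74) (nat_lit 28) (.n (nat_lit 75) (nat_lit 132) (.n (nat_lit 76) (nat_lit 68) (.p (nat_lit 77) (nat_lit 28) (.p (nat_lit 78) (nat_lit 72) (.p (nat_lit 79) (nat_lit 68) (.n (nat_lit 80) (nat_lit 160) (.n (nat_lit 81) (nat_lit 28) (.p (nat_lit 83) (nat_lit 52) (.p (nat_lit 84) (nat_lit 72) (.n (nat_lit 85) (nat_lit 16) (.p (nat_lit 86) (nat_lit 20) (.n (nat_lit 87) (nat_lit 48) (.p (nat_lit 88) (nat_lit 52) (.n (nat_lit 89) (nat_lit 12) (.n (nat_lit 90) (nat_lit 36) (.n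 (nat_lit 91) (nat_lit 20) (.n (nat_lit 92) (nat_lit 36) .z)))))))))))))))))))) (.ct dr4_c531 (nat_lit 4) (nat_lit 0) (.s true (nat_lit 1) (nat_lit 9) (nat_lit 2) (nat_lit 2) (nat_lit 0) true (nat_lit 5) true (nat_lit 9) true (nat_lit 0) true (nat_lit 7) true (nat_lit 7) (.e true (nat_lit 4) (nat_lit 24) (nat_lit 4) (nat_lit 5) (.e true (nat_lit 4) (nat_lit 53) (nat_lit 0) (nat_lit 9) (.e false (nat_lit 8) (nat_lit 38) (nat_lit 2) (nat_lit 7) (.e true (nat_lit 4) (nat_lit 43) (nat_lit 2) (nat_lit 7) (.e false (nat_lit 4) (nat_lit 44) (nat_lit 2) (nat_lit 7) .nil))))))) .leaf)) (nat_lit 13323) (nat_lit 150) (.p (nat_lit 72) (nat_lit 8) (.n (nat_lit 75) (nat_lit 4) (.n (nat_lit 76) (nat_lit 4) (.p (nat_lit 77) (nat_lit 4) (.p (nat_lit 79) (nat_lit 4) (.n (nat_lit 80) (nat_lit 8) (.n (nat_lit 85) (nat_lit 4) (.n (nat_lit 86) (nat_lit 4) (.n (nat_lit 87) (nat_lit 4) (.p (nat_lit 89) (nat_lit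 4) (.n (nat_lit 90) (nat_lit 8) .z))))))))))) (.ct dr4_c531 (nat_lit 4) (nat_lit 0) (.s true (nat_lit 1) (nat_lit 13) (nat_lit 1) (nat_lit 2) (nat_lit 0) true (nat_lit 6) true (nat_lit 9) false (nat_lit 0) true (nat_lit 8) true (nat_lit 7) (.e false (nat_lit 4) (nat_lit 31) (nat_lit 3) (nat_lit 6) (.e true (nat_lit 4) (nat_lit 57) (nat_lit 0) (nat_lit 9) (.e true (nat_lit 4) (nat_lit 49) (nat_lit 1) (nat_lit 8) (.e false (nat_lit 4) (nat_lit 51) (nat_lit 1) (nat_lit 8) (.e false (nat_lit 8) (nat_lit 52) (nat_lit 1) (nat_lit 8) (.e false (nat_lit 4) (nat_lit 41) (nat_lit 2) (nat_lit 7) .nil)))))))) (.nd (.nd .leaf (nat_lit 14336) (nat_lit 29) (.p (nat_lit 29) (nat_lit 4) .z) .df .leaf) (nat_lit 14338) (nat_lit 37) (.p (nat_lit 33) (nat_lit 4) .z) .df .leaf)) (nat_lit 14340) (nat_lit 85) (.p (nat_lit 54) (nat_lit 4) (.p (nat_lit 56) (nat_lit 4) (.n (nat_lit 59) (nat_lit 4) (.n (nat_lit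 60) (nat_lit 4) (.p (nat_lit 63) (nat_lit 4) .z))))) (.ct dr4_c275 (nat_lit 4) (nat_lit 2) (.s false (nat_lit 1) (nat_lit 4) (nat_lit 1) (nat_lit 2) (nat_lit 2) true (nat_lit 1) true (nat_lit 4) true (nat_lit 2) true (nat_lit 5) true (nat_lit 4) (.e false (nat_lit 4) (nat_lit 12) (nat_lit 5) (nat_lit 1) (.e false (nat_lit 4) (nat_lit 25) (nat_lit 2) (nat_lit 4) (.e true (nat_lit 4) (nat_lit 31) (nat_lit 1) (nat_lit 5) (.e true (nat_lit 4) (nat_lit 32) (nat_lit 1) (nat_lit 5) (.e false (nat_lit 4) (nat_lit 27) (nat_lit 2) (nat_lit 4) .nil))))))) (.nd (.nd (.nd .leaf (nat_lit 14342) (nat_lit 102) (.p (nat_lit 69) (nat_lit 4) (.n (nat_lit 71) (nat_lit 4) .z)) (.ct dr4_c20 (nat_lit 8) (nat_lit 0) (.s true (nat_lit 1) (nat_lit 5) (nat_lit 2) (nat_lit 2) (nat_lit 2) true (nat_lit 0) true (nat_lit 2) true (nat_lit 1) true (nat_lit 2) true (nat_lit 2) (.s true (nat_lit 1) (nat_lit 6) (nat_lit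 2) (nat_lit 1) (nat_lit 2) true (nat_lit 0) true (nat_lit 2) true (nat_lit 0) true (nat_lit 2) true (nat_lit 3) (.s true (nat_lit 1) (nat_lit 6) (nat_lit 2) (nat_lit 2) (nat_lit 1) true (nat_lit 1) true (nat_lit 3) true (nat_lit 0) true (nat_lit 2) true (nat_lit 2) (.e false (nat_lit 8) (nat_lit 34) (nat_lit 2) (nat_lit 2) (.e true (nat_lit 8) (nat_lit 36) (nat_lit 1) (nat_lit 3) .nil)))))) .leaf) (nat_lit 14344) (nat_lit 149) (.n (nat_lit 72) (nat_lit 8) (.p (nat_lit 74) (nat_lit 4) (.p (nat_lit 75) (nat_lit 8) (.p (nat_lit 76) (nat_lit 4) (.n (nat_lit 77) (nat_lit 4) (.n (nat_lit 78) (nat_lit 4) (.n (nat_lit 79) (nat_lit 4) (.p (nat_lit 80) (nat_lit 16) (.n (nat_lit 82) (nat_lit 4) (.p (nat_lit 84) (nat_lit 4) (.p (nat_lit 85) (nat_lit 8) (.p (nat_lit 86) (nat_lit 8) (.p (nat_lit 87) (nat_lit 4) (.n (nat_lit 89) (nat_lit 8) (.p (nat_lit 90) (nat_lit 8) (.p (nat_lit 92) (nat_lit 4)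 .z)))))))))))))))) (.ct dr4_c531 (nat_lit 4) (nat_lit 1) (.s false (nat_lit 1) (nat_lit 8) (nat_lit 1) (nat_lit 2) (nat_lit 2) true (nat_lit 4) true (nat_lit 7) true (nat_lit 1) true (nat_lit 8) true (nat_lit 7) (.e false (nat_lit 4) (nat_lit 21) (nat_lit 5) (nat_lit 4) (.e false (nat_lit 4) (nat_lit 37) (nat_lit 2) (nat_lit 7) (.e false (nat_lit 4) (nat_lit 49) (nat_lit 1) (nat_lit 8) (.e true (nat_lit 8) (nat_lit 51) (nat_lit 1) (nat_lit 8) (.e true (nat_lit 4) (nat_lit 52) (nat_lit 1) (nat_lit 8) (.e false (nat_lit 4) (nat_lit 40) (nat_lit 2) (nat_lit 7) .nil)))))))) .leaf) (nat_lit 14348) (nat_lit 200) (.p (nat_lit 99) (nat_lit 6) (.n (nat_lit 100) (nat_lit 2) (.p (nat_lit 101) (nat_lit 4) (.n (nat_lit 102) (nat_lit 8) (.n (nat_lit 103) (nat_lit 6) (.p (nat_lit 104) (nat_lit 10) (.p (nat_lit 105) (nat_lit 1) (.p (nat_lit 106) (nat_lit 5) (.n (nat_lit 107) (nat_lit 1) (.p (nat_lit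 108) (nat_lit 4) (.n (nat_lit 109) (nat_lit 3) (.p (nat_lit 110) (nat_lit 1) (.p (nat_lit 111) (nat_lit 1) (.p (nat_lit 112) (nat_lit 3) (.p (nat_lit 113) (nat_lit 4) (.p (nat_lit 114) (nat_lit 3) .z)))))))))))))))) (.ct dr4_c276 (nat_lit 4) (nat_lit 0) (.s false (nat_lit 1) (nat_lit 12) (nat_lit 1) (nat_lit 2) (nat_lit 2) true (nat_lit 3) true (nat_lit 6) true (nat_lit 0) true (nat_lit 7) true (nat_lit 6) (.e false (nat_lit 4) (nat_lit 30) (nat_lit 5) (nat_lit 3) (.e true (nat_lit 4) (nat_lit 65) (nat_lit 1) (nat_lit 7) (.e false (nat_lit 4) (nat_lit 67) (nat_lit 1) (nat_lit 7) (.e false (nat_lit 4) (nat_lit 53) (nat_lit 2) (nat_lit 6) (.e false (nat_lit 4) (nat_lit 54) (nat_lit 2) (nat_lit 6) (.e true (nat_lit 4) (nat_lit 55) (nat_lit 2) (nat_lit 6) (.e false (nat_lit 4) (nat_lit 59) (nat_lit 2) (nat_lit 6) (.e true (nat_lit 4) (nat_lit 62) (nat_lit 2) (nat_lit 6) (.e true (nat_lit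 4) (nat_lit 63) (nat_lit 2) (nat_lit 6) .nil))))))))))) (.nd (.nd .leaf (nat_lit 14349) (nat_lit 202) (.p (nat_lit 99) (nat_lit 8) (.p (nat_lit 100) (nat_lit 8) (.n (nat_lit 103) (nat_lit 4) (.p (nat_lit 104) (nat_lit 8) (.n (nat_lit 105) (nat_lit 4) (.n (nat_lit 107) (nat_lit 4) (.n (nat_lit 108) (nat_lit 4) (.n (nat_lit 109) (nat_lit 4) (.p (nat_lit 112) (nat_lit 4) .z))))))))) (.ct dr4_c276 (nat_lit 4) (nat_lit 0) (.s false (nat_lit 1) (nat_lit 13) (nat_lit 1) (nat_lit 2) (nat_lit 2) true (nat_lit 3) true (nat_lit 6) true (nat_lit 0) true (nat_lit 7) true (nat_lit 6) (.e false (nat_lit 4) (nat_lit 31) (nat_lit 5) (nat_lit 3) (.e false (nat_lit 4) (nat_lit 57) (nat_lit 2) (nat_lit 6) (.e true (nat_lit 8) (nat_lit 65) (nat_lit 1) (nat_lit 7) (.e true (nat_lit 8) (nat_lit 66) (nat_lit 1) (nat_lit 7) (.e false (nat_lit 4) (nat_lit 59) (nat_lit 2) (nat_lit 6) .nil))))))) .leaf) (nat_lit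 15360) (nat_lit 31) (.n (nat_lit 24) (nat_lit 8) (.n (nat_lit 25) (nat_lit 4) (.p (nat_lit 26) (nat_lit 4) (.p (nat_lit 27) (nat_lit 4) (.p (nat_lit 28) (nat_lit 4) (.n (nat_lit 29) (nat_lit 4) .z)))))) (.ct dr4_c274 (nat_lit 4) (nat_lit 4) (.s false (nat_lit 1) (nat_lit 2) (nat_lit 1) (nat_lit 0) (nat_lit 2) false (nat_lit 0) true (nat_lit 2) true (nat_lit 2) true (nat_lit 3) true (nat_lit 4) (.e false (nat_lit 4) (nat_lit 5) (nat_lit 4) (nat_lit 0) (.e false (nat_lit 4) (nat_lit 11) (nat_lit 2) (nat_lit 2) (.e true (nat_lit 4) (nat_lit 9) (nat_lit 2) (nat_lit 2) (.e false (nat_lit 4) (nat_lit 12) (nat_lit 1) (nat_lit 3) .nil)))))) .leaf))) (nat_lit 15362) (nat_lit 38) (.p (nat_lit 34) (nat_lit 4) .z) .df (.nd (.nd (.nd (.nd .leaf (nat_lit 15364) (nat_lit 87) (.p (nat_lit 54) (nat_lit 4) (.p (nat_lit 55) (nat_lit 4) (.p (nat_lit 56) (nat_lit 4) (.n (nat_lit 57) (nat_lit 4) (.p (nat_lit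 58) (nat_lit 4) (.n (nat_lit 59) (nat_lit 4) (.p (nat_lit 62) (nat_lit 4) .z))))))) (.ct dr4_c275 (nat_lit 4) (nat_lit 2) (.s true (nat_lit 1) (nat_lit 6) (nat_lit 0) (nat_lit 1) (nat_lit 2) true (nat_lit 2) true (nat_lit 4) true (nat_lit 0) true (nat_lit 6) true (nat_lit 5) (.e true (nat_lit 4) (nat_lit 28) (nat_lit 2) (nat_lit 4) (.e false (nat_lit 4) (nat_lit 9) (nat_lit 6) (nat_lit 0) (.e false (nat_lit 4) (nat_lit 34) (nat_lit 0) (nat_lit 6) (.e false (nat_lit 4) (nat_lit 35) (nat_lit 0) (nat_lit 6) (.e false (nat_lit 4) (nat_lit 32) (nat_lit 1) (nat_lit 5) .nil))))))) .leaf) (nat_lit 15366) (nat_lit 103) (.p (nat_lit 69) (nat_lit 8) (.p (nat_lit 70) (nat_lit 8) .z)) (.ct dr4_c20 (nat_lit 4) (nat_lit 0) (.s false (nat_lit 1) (nat_lit 6) (nat_lit 2) (nat_lit 1) (nat_lit 2) true (nat_lit 0) true (nat_lit 2) true (nat_lit 0) true (nat_lit 2) true (nat_lit 3) (.e false (nat_lit 8)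 (nat_lit 35) (nat_lit 2) (nat_lit 2) (.e false (nat_lit 4) (nat_lit 14) (nat_lit 6) (nat_lit 0) (.e false (nat_lit 4) (nat_lit 34) (nat_lit 2) (nat_lit 2) (.e false (nat_lit 4) (nat_lit 36) (nat_lit 1) (nat_lit 3) .nil)))))) (.nd .leaf (nat_lit 15372) (nat_lit 199) (.p (nat_lit 99) (nat_lit 16) (.p (nat_lit 100) (nat_lit 12) (.n (nat_lit 101) (nat_lit 4) (.n (nat_lit 102) (nat_lit 4) (.n (nat_lit 103) (nat_lit 12) (.p (nat_lit 104) (nat_lit 12) (.n (nat_lit 105) (nat_lit 4) (.n (nat_lit 107) (nat_lit 4) (.n (nat_lit 108) (nat_lit 4) (.p (nat_lit 110) (nat_lit 4) (.p (nat_lit 112) (nat_lit 4) .z))))))))))) (.ct dr4_c276 (nat_lit 4) (nat_lit 0) (.s false (nat_lit 1) (nat_lit 6) (nat_lit 4) (nat_lit 1) (nat_lit 2) true (nat_lit 0) true (nat_lit 6) true (nat_lit 2) true (nat_lit 4) true (nat_lit 7) (.e true (nat_lit 4) (nat_lit 59) (nat_lit 2) (nat_lit 6) (.e true (nat_lit 4) (nat_lit 60)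 (nat_lit 2) (nat_lit 6) (.e false (nat_lit 4) (nat_lit 25) (nat_lit 6) (nat_lit 2) (.e false (nat_lit 4) (nat_lit 34) (nat_lit 4) (nat_lit 4) (.e false (nat_lit 4) (nat_lit 35) (nat_lit 4) (nat_lit 4) (.e true (nat_lit 4) (nat_lit 66) (nat_lit 1) (nat_lit 7) (.e true (nat_lit 4) (nat_lit 67) (nat_lit 1) (nat_lit 7) .nil))))))))) .leaf)) (nat_lit 15373) (nat_lit 203) (.p (nat_lit 108) (nat_lit 8) (.p (nat_lit 110) (nat_lit 8) (.p (nat_lit 111) (nat_lit 8) (.n (nat_lit 112) (nat_lit 4) .z)))) (.ct dr4_c276 (nat_lit 4) (nat_lit 0) (.s false (nat_lit 1) (nat_lit 6) (nat_lit 1) (nat_lit 0) (nat_lit 6) false (nat_lit 0) true (nat_lit 2) true (nat_lit 2) true (nat_lit 7) true (nat_lit 8) (.e true (nat_lit 8) (nat_lit 24) (nat_lit 6) (nat_lit 2) (.e false (nat_lit 8) (nat_lit 27) (nat_lit 6) (nat_lit 2) (.e false (nat_lit 4) (nat_lit 28) (nat_lit 6) (nat_lit 2) (.e true (nat_lit 8) (nat_lit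 29) (nat_lit 6) (nat_lit 2) (.e true (nat_lit 8) (nat_lit 65) (nat_lit 1) (nat_lit 7) (.e true (nat_lit 8) (nat_lit 66) (nat_lit 1) (nat_lit 7) .nil)))))))) (.nd (.nd .leaf (nat_lit 16384) (nat_lit 35) (.p (nat_lit 32) (nat_lit 4) .z) .df .leaf) (nat_lit 16385) (nat_lit 39) (.p (nat_lit 35) (nat_lit 4) .z) .df .leaf)) (nat_lit 16386) (nat_lit 41) (.p (nat_lit 36) (nat_lit 4) .z) .df (.nd (.nd (.nd .leaf (nat_lit 16387) (nat_lit 88) (.p (nat_lit 54) (nat_lit 4) (.n (nat_lit 55) (nat_lit 4) (.p (nat_lit 56) (nat_lit 4) (.n (nat_lit 58) (nat_lit 4) (.n (nat_lit 62) (nat_lit 4) .z))))) (.ct dr4_c275 (nat_lit 4) (nat_lit 3) (.s true (nat_lit 1) (nat_lit 3) (nat_lit 2) (nat_lit 2) (nat_lit 2) true (nat_lit 0) true (nat_lit 4) true (nat_lit 3) true (nat_lit 4) true (nat_lit 4) (.e true (nat_lit 4) (nat_lit 9) (nat_lit 6) (nat_lit 0) (.e false (nat_lit 4) (nat_lit 25) (nat_lit 2) (nat_lit 4)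 (.e true (nat_lit 4) (nat_lit 26) (nat_lit 2) (nat_lit 4) (.e false (nat_lit 4) (nat_lit 27) (nat_lit 2) (nat_lit 4) (.e true (nat_lit 4) (nat_lit 29) (nat_lit 2) (nat_lit 4) .nil))))))) .leaf) (nat_lit 16388) (nat_lit 97) (.n (nat_lit 66) (nat_lit 4) (.n (nat_lit 67) (nat_lit 4) .z)) (.ct dr4_c260 (nat_lit 4) (nat_lit 1) (.s false (nat_lit 1) (nat_lit 4) (nat_lit 2) (nat_lit 2) (nat_lit 2) true (nat_lit 0) true (nat_lit 2) true (nat_lit 1) true (nat_lit 2) true (nat_lit 2) (.e false (nat_lit 4) (nat_lit 12) (nat_lit 6) (nat_lit 0) (.e true (nat_lit 4) (nat_lit 31) (nat_lit 2) (nat_lit 2) (.e true (nat_lit 4) (nat_lit 32) (nat_lit 2) (nat_lit 2) .nil))))) .leaf) (nat_lit 16389) (nat_lit 104) (.n (nat_lit 70) (nat_lit 4) (.n (nat_lit 71) (nat_lit 4) .z)) (.ct dr4_c20 (nat_lit 4) (nat_lit 1) (.s false (nat_lit 1) (nat_lit 5) (nat_lit 2) (nat_lit 2) (nat_lit 2) true (nat_lit 0) true (nat_lit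 2) true (nat_lit 1) true (nat_lit 2) true (nat_lit 2) (.e false (nat_lit 4) (nat_lit 14) (nat_lit 6) (nat_lit 0) (.e true (nat_lit 4) (nat_lit 34) (nat_lit 2) (nat_lit 2) (.e true (nat_lit 4) (nat_lit 35) (nat_lit 2) (nat_lit 2) .nil))))) (.nd (.nd .leaf (nat_lit 16392) (nat_lit 167) (.p (nat_lit 94) (nat_lit 2) (.p (nat_lit 97) (nat_lit 2) (.n (nat_lit 98) (nat_lit 2) .z))) (.ct dr4_c516 (nat_lit 4) (nat_lit 1) (.s true (nat_lit 1) (nat_lit 16) (nat_lit 0) (nat_lit 2) (nat_lit 0) false (nat_lit 6) true (nat_lit 5) false (nat_lit 1) true (nat_lit 5) true (nat_lit 4) (.e true (nat_lit 8) (nat_lit 66) (nat_lit 0) (nat_lit 5) (.e true (nat_lit 4) (nat_lit 67) (nat_lit 0) (nat_lit 5) (.e false (nat_lit 4) (nat_lit 52) (nat_lit 2) (nat_lit 4) .nil))))) .leaf) (nat_lit 16393) (nat_lit 206) (.p (nat_lit 100) (nat_lit 8) (.p (nat_lit 102) (nat_lit 8) (.n (nat_lit 105) (nat_lit 4) (.n (nat_lit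 106) (nat_lit 8) (.n (nat_lit 107) (nat_lit 4) (.p (nat_lit 109) (nat_lit 4) (.p (nat_lit 110) (nat_lit 4) (.p (nat_lit 111) (nat_lit 8) (.n (nat_lit 112) (nat_lit 4) .z))))))))) (.ct dr4_c276 (nat_lit 4) (nat_lit 1) (.s false (nat_lit 1) (nat_lit 6) (nat_lit 3) (nat_lit 2) (nat_lit 2) true (nat_lit 1) true (nat_lit 6) true (nat_lit 2) true (nat_lit 5) true (nat_lit 6) (.e false (nat_lit 4) (nat_lit 24) (nat_lit 6) (nat_lit 2) (.e true (nat_lit 4) (nat_lit 62) (nat_lit 2) (nat_lit 6) .nil)))) .leaf)))) (nat_lit 16395) (nat_lit 198) (.p (nat_lit 99) (nat_lit 4) (.p (nat_lit 100) (nat_lit 16) (.n (nat_lit 101) (nat_lit 4) (.p (nat_lit 102) (nat_lit 12) (.n (nat_lit 105) (nat_lit 6) (.n (nat_lit 106) (nat_lit 10) (.n (nat_lit 107) (nat_lit 6) (.n (nat_lit 108) (nat_lit 4) (.p (nat_lit 109) (nat_lit 6) (.p (nat_lit 110) (nat_lit 6) (.p (nat_lit 111) (nat_lit 6) (.n (nat_lit 112) (nat_lit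 6) (.n (nat_lit 114) (nat_lit 2) .z))))))))))))) (.ct dr4_c276 (nat_lit 4) (nat_lit 1) (.s false (nat_lit 1) (nat_lit 16) (nat_lit 2) (nat_lit 1) (nat_lit 0) true (nat_lit 4) true (nat_lit 8) false (nat_lit 1) true (nat_lit 6) true (nat_lit 7) (.e true (nat_lit 4) (nat_lit 35) (nat_lit 4) (nat_lit 4) (.e false (nat_lit 4) (nat_lit 71) (nat_lit 0) (nat_lit 8) (.e true (nat_lit 4) (nat_lit 54) (nat_lit 2) (nat_lit 6) (.e false (nat_lit 4) (nat_lit 55) (nat_lit 2) (nat_lit 6) (.e true (nat_lit 4) (nat_lit 56) (nat_lit 2) (nat_lit 6) (.e false (nat_lit 4) (nat_lit 58) (nat_lit 2) (nat_lit 6) (.e false (nat_lit 4) (nat_lit 62) (nat_lit 2) (nat_lit 6) (.e true (nat_lit 4) (nat_lit 66) (nat_lit 1) (nat_lit 7) .nil)))))))))) (.nd (.nd (.nd (.nd (.nd .leaf (nat_lit 17410) (nat_lit 55) (.p (nat_lit 37) (nat_lit 4) (.n (nat_lit 38) (nat_lit 8) (.n (nat_lit 39) (nat_lit 4) (.n (nat_lit 41) (nat_lit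 4) (.n (nat_lit 42) (nat_lit 4) (.p (nat_lit 43) (nat_lit 4) (.n (nat_lit 44) (nat_lit 4) (.p (nat_lit 45) (nat_lit 8) (.p (nat_lit 46) (nat_lit 4) (.n (nat_lit 47) (nat_lit 8) .z)))))))))) (.ct dr4_c530 (nat_lit 8) (nat_lit 4) (.s true (nat_lit 1) (nat_lit 3) (nat_lit 0) (nat_lit 2) (nat_lit 2) true (nat_lit 2) true (nat_lit 4) true (nat_lit 3) true (nat_lit 6) true (nat_lit 4) (.s true (nat_lit 1) (nat_lit 4) (nat_lit 1) (nat_lit 0) (nat_lit 2) true (nat_lit 1) true (nat_lit 4) true (nat_lit 2) true (nat_lit 5) true (nat_lit 6) (.s true (nat_lit 1) (nat_lit 4) (nat_lit 1) (nat_lit 2) (nat_lit 0) true (nat_lit 3) true (nat_lit 6) true (nat_lit 2) true (nat_lit 5) true (nat_lit 4) (.s true (nat_lit 1) (nat_lit 5) (nat_lit 2) (nat_lit 0) (nat_lit 0) true (nat_lit 2) true (nat_lit 6) true (nat_lit 1) true (nat_lit 4) true (nat_lit 6) (.e false (nat_lit 8) (nat_lit 12) (nat_lit 3) (nat_lit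 3) (.e false (nat_lit 8) (nat_lit 27) (nat_lit 0) (nat_lit 6) (.e true (nat_lit 8) (nat_lit 29) (nat_lit 0) (nat_lit 6) .nil)))))))) .leaf) (nat_lit 17414) (nat_lit 141) (.p (nat_lit 72) (nat_lit 12) (.n (nat_lit 73) (nat_lit 4) (.n (nat_lit 74) (nat_lit 8) (.n (nat_lit 75) (nat_lit 24) (.n (nat_lit 76) (nat_lit 8) (.p (nat_lit 78) (nat_lit 16) (.p (nat_lit 79) (nat_lit 16) (.n (nat_lit 80) (nat_lit 32) (.n (nat_lit 81) (nat_lit 4) (.p (nat_lit 83) (nat_lit 8) (.p (nat_lit 84) (nat_lit 8) (.n (nat_lit 85) (nat_lit 4) (.p (nat_lit 86) (nat_lit 4) (.n (nat_lit 87) (nat_lit 8) (.p (nat_lit 88) (nat_lit 8) (.n (nat_lit 90) (nat_lit 8) (.n (nat_lit 91) (nat_lit 4) (.n (nat_lit 92) (nat_lit 4) .z)))))))))))))))))) (.ct dr4_c531 (nat_lit 4) (nat_lit 3) (.s true (nat_lit 1) (nat_lit 7) (nat_lit 2) (nat_lit 2) (nat_lit 2) true (nat_lit 3) true (nat_lit 7) true (nat_lit 2) true (nat_lit 7) true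 (nat_lit 7) (.s false (nat_lit 1) (nat_lit 16) (nat_lit 0) (nat_lit 1) (nat_lit 0) false (nat_lit 10) true (nat_lit 9) false (nat_lit 2) true (nat_lit 9) true (nat_lit 8) (.e true (nat_lit 4) (nat_lit 41) (nat_lit 2) (nat_lit 7) (.e false (nat_lit 4) (nat_lit 43) (nat_lit 2) (nat_lit 7) (.e true (nat_lit 4) (nat_lit 44) (nat_lit 2) (nat_lit 7) (.e false (nat_lit 4) (nat_lit 45) (nat_lit 2) (nat_lit 7) (.e false (nat_lit 4) (nat_lit 46) (nat_lit 2) (nat_lit 7) (.e true (nat_lit 4) (nat_lit 47) (nat_lit 2) (nat_lit 7) (.e false (nat_lit 4) (nat_lit 60) (nat_lit 0) (nat_lit 9) (.e true (nat_lit 4) (nat_lit 54) (nat_lit 0) (nat_lit 9) (.e false (nat_lit 4) (nat_lit 55) (nat_lit 0) (nat_lit 9) (.e true (nat_lit 4) (nat_lit 56) (nat_lit 0) (nat_lit 9) (.e false (nat_lit 4) (nat_lit 58) (nat_lit 0) (nat_lit 9) (.e false (nat_lit 4) (nat_lit 62) (nat_lit 0) (nat_lit 9) (.e true (nat_lit 4)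 (nat_lit 52) (nat_lit 1) (nat_lit 8) .nil)))))))))))))))) (.nd .leaf (nat_lit 18434) (nat_lit 42) (.p (nat_lit 37) (nat_lit 4) .z) .df .leaf)) (nat_lit 18438) (nat_lit 136) (.n (nat_lit 72) (nat_lit 12) (.p (nat_lit 73) (nat_lit 4) (.p (nat_lit 74) (nat_lit 4) (.p (nat_lit 75) (nat_lit 12) (.p (nat_lit 76) (nat_lit 8) (.n (nat_lit 78) (nat_lit 4) (.n (nat_lit 79) (nat_lit 8) (.p (nat_lit 80) (nat_lit 20) (.p (nat_lit 81) (nat_lit 4) (.n (nat_lit 82) (nat_lit 4) (.p (nat_lit 84) (nat_lit 4) (.p (nat_lit 85) (nat_lit 8) (.p (nat_lit 86) (nat_lit 8) (.p (nat_lit 87) (nat_lit 4) (.n (nat_lit 89) (nat_lit 8) (.p (nat_lit 90) (nat_lit 8) (.p (nat_lit 92) (nat_lit 4) .z))))))))))))))))) (.ct dr4_c531 (nat_lit 4) (nat_lit 3) (.s false (nat_lit 1) (nat_lit 5) (nat_lit 0) (nat_lit 4) (nat_lit 2) true (nat_lit 5) true (nat_lit 7) true (nat_lit 4) true (nat_lit 9) true (nat_lit 5) (.s false (nat_lit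 1) (nat_lit 8) (nat_lit 1) (nat_lit 2) (nat_lit 2) true (nat_lit 4) true (nat_lit 7) true (nat_lit 1) true (nat_lit 8) true (nat_lit 7) (.s false (nat_lit 1) (nat_lit 8) (nat_lit 2) (nat_lit 1) (nat_lit 2) true (nat_lit 3) true (nat_lit 7) true (nat_lit 1) true (nat_lit 7) true (nat_lit 8) (.e true (nat_lit 4) (nat_lit 24) (nat_lit 4) (nat_lit 5) (.e true (nat_lit 4) (nat_lit 25) (nat_lit 4) (nat_lit 5) (.e false (nat_lit 4) (nat_lit 28) (nat_lit 4) (nat_lit 5) (.e true (nat_lit 8) (nat_lit 39) (nat_lit 2) (nat_lit 7) (.e false (nat_lit 8) (nat_lit 42) (nat_lit 2) (nat_lit 7) (.e false (nat_lit 8) (nat_lit 43) (nat_lit 2) (nat_lit 7) (.e true (nat_lit 8) (nat_lit 46) (nat_lit 2) (nat_lit 7) (.e false (nat_lit 12) (nat_lit 47) (nat_lit 2) (nat_lit 7) (.e false (nat_lit 4) (nat_lit 63) (nat_lit 0) (nat_lit 9) (.e false (nat_lit 4) (nat_lit 37) (nat_lit 2) (nat_lit 7) (.e false (nat_lit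 4) (nat_lit 49) (nat_lit 1) (nat_lit 8) (.e true (nat_lit 8) (nat_lit 51) (nat_lit 1) (nat_lit 8) (.e true (nat_lit 4) (nat_lit 52) (nat_lit 1) (nat_lit 8) (.e false (nat_lit 8) (nat_lit 40) (nat_lit 2) (nat_lit 7) (.e false (nat_lit 4) (nat_lit 44) (nat_lit 2) (nat_lit 7) (.e false (nat_lit 4) (nat_lit 48) (nat_lit 1) (nat_lit 8) .nil)))))))))))))))))))) (.nd (.nd .leaf (nat_lit 19458) (nat_lit 43) (.p (nat_lit 38) (nat_lit 4) .z) .df .leaf) (nat_lit 19462) (nat_lit 145) (.p (nat_lit 72) (nat_lit 40) (.n (nat_lit 73) (nat_lit 8) (.n (nat_lit 74) (nat_lit 20) (.n (nat_lit 75) (nat_lit 76) (.n (nat_lit 76) (nat_lit 36) (.p (nat_lit 77) (nat_lit 20) (.p (nat_lit 78) (nat_lit 48) (.p (nat_lit 79) (nat_lit 36) (.n (nat_lit 80) (nat_lit 96) (.n (nat_lit 81) (nat_lit 16) (.p (nat_lit 82) (nat_lit 4) (.p (nat_lit 83) (nat_lit 28) (.p (nat_lit 84) (nat_lit 40) (.n (nat_lit 85) (nat_lit 12)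 (.p (nat_lit 86) (nat_lit 8) (.n (nat_lit 87) (nat_lit 32) (.p (nat_lit 88) (nat_lit 36) (.n (nat_lit 89) (nat_lit 4) (.n (nat_lit 90) (nat_lit 28) (.n (nat_lit 91) (nat_lit 12) (.n (nat_lit 92) (nat_lit 24) .z))))))))))))))))))))) (.ct dr4_c531 (nat_lit 4) (nat_lit 3) (.s false (nat_lit 1) (nat_lit 9) (nat_lit 0) (nat_lit 2) (nat_lit 2) true (nat_lit 5) true (nat_lit 7) true (nat_lit 0) true (nat_lit 9) true (nat_lit 7) (.s false (nat_lit 1) (nat_lit 9) (nat_lit 2) (nat_lit 0) (nat_lit 2) true (nat_lit 3) true (nat_lit 7) true (nat_lit 0) true (nat_lit 7) true (nat_lit 9) (.e false (nat_lit 4) (nat_lit 24) (nat_lit 4) (nat_lit 5) (.e false (nat_lit 8) (nat_lit 38) (nat_lit 2) (nat_lit 7) (.e true (nat_lit 4) (nat_lit 62) (nat_lit 0) (nat_lit 9) (.e false (nat_lit 8) (nat_lit 42) (nat_lit 2) (nat_lit 7) (.e true (nat_lit 4) (nat_lit 43) (nat_lit 2) (nat_lit 7) (.e false (nat_lit 4)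 (nat_lit 44) (nat_lit 2) (nat_lit 7) (.e false (nat_lit 4) (nat_lit 53) (nat_lit 0) (nat_lit 9) .nil)))))))))) .leaf)) (nat_lit 20482) (nat_lit 44) (.p (nat_lit 39) (nat_lit 4) .z) .df (.nd (.nd (.nd .leaf (nat_lit 20486) (nat_lit 135) (.n (nat_lit 72) (nat_lit 60) (.p (nat_lit 73) (nat_lit 20) (.p (nat_lit 74) (nat_lit 24) (.p (nat_lit 75) (nat_lit 124) (.p (nat_lit 76) (nat_lit 64) (.n (nat_lit 77) (nat_lit 24) (.n (nat_lit 78) (nat_lit 68) (.n (nat_lit 79) (nat_lit 60) (.p (nat_lit 80) (nat_lit 148) (.p (nat_lit 81) (nat_lit 28) (.n (nat_lit 83) (nat_lit 48) (.n (nat_lit 84) (nat_lit 68) (.p (nat_lit 85) (nat_lit 16) (.n (nat_lit 86) (nat_lit 20) (.p (nat_lit 87) (nat_lit 48) (.n (nat_lit 88) (nat_lit 52) (.p (nat_lit 89) (nat_lit 12) (.p (nat_lit 90) (nat_lit 36) (.p (nat_lit 91) (nat_lit 16) (.p (nat_lit 92) (nat_lit 36) .z)))))))))))))))))))) (.ct dr4_c531 (nat_lit 4) (nat_lit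 3) (.s true (nat_lit 1) (nat_lit 5) (nat_lit 0) (nat_lit 4) (nat_lit 2) true (nat_lit 5) true (nat_lit 7) true (nat_lit 4) true (nat_lit 9) true (nat_lit 5) (.s true (nat_lit 1) (nat_lit 5) (nat_lit 4) (nat_lit 0) (nat_lit 2) false (nat_lit 0) true (nat_lit 7) true (nat_lit 4) true (nat_lit 5) true (nat_lit 9) (.s false (nat_lit 1) (nat_lit 11) (nat_lit 2) (nat_lit 0) (nat_lit 2) true (nat_lit 3) true (nat_lit 7) true (nat_lit 0) true (nat_lit 7) true (nat_lit 9) (.e true (nat_lit 4) (nat_lit 29) (nat_lit 4) (nat_lit 5) (.e false (nat_lit 8) (nat_lit 39) (nat_lit 2) (nat_lit 7) (.e true (nat_lit 4) (nat_lit 42) (nat_lit 2) (nat_lit 7) (.e true (nat_lit 4) (nat_lit 43) (nat_lit 2) (nat_lit 7) (.e false (nat_lit 4) (nat_lit 46) (nat_lit 2) (nat_lit 7) (.e true (nat_lit 12) (nat_lit 47) (nat_lit 2) (nat_lit 7) (.e true (nat_lit 8) (nat_lit 63) (nat_lit 0) (nat_lit 9) (.e true (nat_lit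 4) (nat_lit 54) (nat_lit 0) (nat_lit 9) (.e true (nat_lit 4) (nat_lit 56) (nat_lit 0) (nat_lit 9) (.e false (nat_lit 4) (nat_lit 59) (nat_lit 0) (nat_lit 9) (.e false (nat_lit 4) (nat_lit 60) (nat_lit 0) (nat_lit 9) (.e false (nat_lit 4) (nat_lit 44) (nat_lit 2) (nat_lit 7) (.e false (nat_lit 4) (nat_lit 55) (nat_lit 0) (nat_lit 9) .nil))))))))))))))))) .leaf) (nat_lit 21505) (nat_lit 45) (.p (nat_lit 40) (nat_lit 4) .z) .df .leaf) (nat_lit 21506) (nat_lit 62) (.p (nat_lit 48) (nat_lit 4) .z) .df (.nd (.nd .leaf (nat_lit 21509) (nat_lit 140) (.n (nat_lit 72) (nat_lit 8) (.p (nat_lit 74) (nat_lit 2) (.p (nat_lit 75) (nat_lit 18) (.p (nat_lit 76) (nat_lit 10) (.n (nat_lit 77) (nat_lit 2) (.n (nat_lit 78) (nat_lit 8) (.n (nat_lit 79) (nat_lit 10) (.p (nat_lit 80) (nat_lit 20) (.n (nat_lit 82) (nat_lit 2) (.n (nat_lit 84) (nat_lit 4) (.n (nat_lit 85) (nat_lit 2) (.n (nat_lit 86) (nat_lit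 6) (.p (nat_lit 87) (nat_lit 6) (.n (nat_lit 88) (nat_lit 4) (.p (nat_lit 89) (nat_lit 4) (.p (nat_lit 91) (nat_lit 2) (.p (nat_lit 92) (nat_lit 4) .z))))))))))))))))) (.ct dr4_c531 (nat_lit 4) (nat_lit 4) (.s false (nat_lit 1) (nat_lit 5) (nat_lit 0) (nat_lit 4) (nat_lit 2) true (nat_lit 5) true (nat_lit 7) true (nat_lit 4) true (nat_lit 9) true (nat_lit 5) (.e true (nat_lit 4) (nat_lit 24) (nat_lit 4) (nat_lit 5) (.e true (nat_lit 4) (nat_lit 25) (nat_lit 4) (nat_lit 5) (.e false (nat_lit 4) (nat_lit 28) (nat_lit 4) (nat_lit 5) (.e true (nat_lit 4) (nat_lit 39) (nat_lit 2) (nat_lit 7) (.e false (nat_lit 4) (nat_lit 42) (nat_lit 2) (nat_lit 7) (.e false (nat_lit 4) (nat_lit 43) (nat_lit 2) (nat_lit 7) (.e true (nat_lit 4) (nat_lit 46) (nat_lit 2) (nat_lit 7) (.e false (nat_lit 8) (nat_lit 47) (nat_lit 2) (nat_lit 7) (.e false (nat_lit 4) (nat_lit 63) (nat_lit 0) (nat_lit 9) .nil)))))))))))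 .leaf) (nat_lit 21510) (nat_lit 162) (.p (nat_lit 95) (nat_lit 8) (.p (nat_lit 96) (nat_lit 8) (.p (nat_lit 97) (nat_lit 8) (.n (nat_lit 98) (nat_lit 4) .z)))) (.ct dr4_c516 (nat_lit 4) (nat_lit 2) (.s false (nat_lit 1) (nat_lit 6) (nat_lit 0) (nat_lit 4) (nat_lit 2) true (nat_lit 3) true (nat_lit 4) true (nat_lit 2) true (nat_lit 5) true (nat_lit 3) (.s true (nat_lit 1) (nat_lit 13) (nat_lit 2) (nat_lit 2) (nat_lit 0) true (nat_lit 3) true (nat_lit 5) true (nat_lit 0) true (nat_lit 4) true (nat_lit 4) (.a true (nat_lit 8) (nat_lit 13) (nat_lit 13) (nat_lit 0) (nat_lit 0) (.e true (nat_lit 8) (nat_lit 31) (nat_lit 4) (nat_lit 3) (.e false (nat_lit 4) (nat_lit 49) (nat_lit 2) (nat_lit 4) (.e true (nat_lit 4) (nat_lit 67) (nat_lit 0) (nat_lit 5) .nil))))))) .leaf))) (nat_lit 22529) (nat_lit 56) (.p (nat_lit 37) (nat_lit 8) (.n (nat_lit 38) (nat_lit 8) (.n (nat_lit 40) (nat_lit 4) (.n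 (nat_lit 42) (nat_lit 8) (.n (nat_lit 43) (nat_lit 4) (.n (nat_lit 44) (nat_lit 4) (.p (nat_lit 45) (nat_lit 4) (.p (nat_lit 46) (nat_lit 8) (.n (nat_lit 47) (nat_lit 12) .z))))))))) (.ct dr4_c530 (nat_lit 4) (nat_lit 5) (.s true (nat_lit 1) (nat_lit 4) (nat_lit 1) (nat_lit 2) (nat_lit 0) true (nat_lit 3) true (nat_lit 6) true (nat_lit 2) true (nat_lit 5) true (nat_lit 4) (.s true (nat_lit 1) (nat_lit 5) (nat_lit 2) (nat_lit 0) (nat_lit 0) true (nat_lit 2) true (nat_lit 6) true (nat_lit 1) true (nat_lit 4) true (nat_lit 6) (.e false (nat_lit 4) (nat_lit 12) (nat_lit 3) (nat_lit 3) (.e true (nat_lit 4) (nat_lit 25) (nat_lit 0) (nat_lit 6) (.e true (nat_lit 4) (nat_lit 21) (nat_lit 1) (nat_lit 5) (.e false (nat_lit 4) (nat_lit 23) (nat_lit 1) (nat_lit 5) (.e false (nat_lit 4) (nat_lit 18) (nat_lit 2) (nat_lit 4) (.e true (nat_lit 4) (nat_lit 29) (nat_lit 0) (nat_lit 6) (.e false (nat_lit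 4) (nat_lit 8) (nat_lit 5) (nat_lit 1) (.e false (nat_lit 4) (nat_lit 26) (nat_lit 0) (nat_lit 6) .nil))))))))))) (.nd (.nd (.nd (.nd .leaf (nat_lit 22530) (nat_lit 69) (.n (nat_lit 48) (nat_lit 4) (.p (nat_lit 51) (nat_lit 4) (.p (nat_lit 52) (nat_lit 4) .z))) (.ct dr4_c515 (nat_lit 4) (nat_lit 2) (.s true (nat_lit 1) (nat_lit 4) (nat_lit 0) (nat_lit 2) (nat_lit 2) true (nat_lit 1) true (nat_lit 2) true (nat_lit 1) true (nat_lit 3) true (nat_lit 2) (.e true (nat_lit 4) (nat_lit 21) (nat_lit 2) (nat_lit 2) (.e false (nat_lit 4) (nat_lit 31) (nat_lit 0) (nat_lit 3) (.e false (nat_lit 4) (nat_lit 32) (nat_lit 0) (nat_lit 3) .nil))))) .leaf) (nat_lit 22533) (nat_lit 143) (.p (nat_lit 72) (nat_lit 84) (.n (nat_lit 73) (nat_lit 20) (.n (nat_lit 74) (nat_lit 34) (.n (nat_lit 75) (nat_lit 154) (.n (nat_lit 76) (nat_lit 78) (.p (nat_lit 77) (nat_lit 38) (.p (nat_lit 78) (nat_lit 84) (.p (nat_lit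 79) (nat_lit 74) (.n (nat_lit 80) (nat_lit 192) (.n (nat_lit 81) (nat_lit 28) (.p (nat_lit 82) (nat_lit 10) (.p (nat_lit 83) (nat_lit 48) (.p (nat_lit 84) (nat_lit 64) (.n (nat_lit 85) (nat_lit 26) (.p (nat_lit 86) (nat_lit 14) (.n (nat_lit 87) (nat_lit 58) (.p (nat_lit 88) (nat_lit 56) (.n (nat_lit 89) (nat_lit 4) (.n (nat_lit 90) (nat_lit 52) (.n (nat_lit 91) (nat_lit 18) (.n (nat_lit 92) (nat_lit 48) .z))))))))))))))))))))) (.ct dr4_c531 (nat_lit 4) (nat_lit 4) (.s false (nat_lit 1) (nat_lit 4) (nat_lit 1) (nat_lit 2) (nat_lit 4) true (nat_lit 0) true (nat_lit 5) true (nat_lit 5) true (nat_lit 8) true (nat_lit 7) (.s false (nat_lit 1) (nat_lit 12) (nat_lit 2) (nat_lit 0) (nat_lit 1) true (nat_lit 4) true (nat_lit 8) false (nat_lit 0) true (nat_lit 7) true (nat_lit 9) (.e false (nat_lit 8) (nat_lit 25) (nat_lit 4) (nat_lit 5) (.e false (nat_lit 4) (nat_lit 24) (nat_lit 4) (nat_lit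 5) (.e true (nat_lit 4) (nat_lit 28) (nat_lit 4) (nat_lit 5) (.e false (nat_lit 4) (nat_lit 29) (nat_lit 4) (nat_lit 5) (.e false (nat_lit 4) (nat_lit 48) (nat_lit 1) (nat_lit 8) (.e true (nat_lit 4) (nat_lit 52) (nat_lit 1) (nat_lit 8) (.e true (nat_lit 4) (nat_lit 37) (nat_lit 2) (nat_lit 7) (.e false (nat_lit 4) (nat_lit 42) (nat_lit 2) (nat_lit 7) (.e false (nat_lit 8) (nat_lit 43) (nat_lit 2) (nat_lit 7) (.e true (nat_lit 4) (nat_lit 46) (nat_lit 2) (nat_lit 7) (.e false (nat_lit 8) (nat_lit 47) (nat_lit 2) (nat_lit 7) (.e true (nat_lit 4) (nat_lit 39) (nat_lit 2) (nat_lit 7) (.e true (nat_lit 4) (nat_lit 56) (nat_lit 0) (nat_lit 9) .nil)))))))))))))))) (.nd .leaf (nat_lit 22534) (nat_lit 159) (.p (nat_lit 98) (nat_lit 4) .z) .df .leaf)) (nat_lit 23553) (nat_lit 46) (.p (nat_lit 41) (nat_lit 4) .z) .df (.nd (.nd .leaf (nat_lit 23554) (nat_lit 63) (.p (nat_lit 49) (nat_lit 4) .z)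 .df .leaf) (nat_lit 23557) (nat_lit 144) (.p (nat_lit 72) (nat_lit 68) (.n (nat_lit 73) (nat_lit 20) (.n (nat_lit 74) (nat_lit 28) (.n (nat_lit 75) (nat_lit 132) (.n (nat_lit 76) (nat_lit 68) (.p (nat_lit 77) (nat_lit 28) (.p (nat_lit 78) (nat_lit 72) (.p (nat_lit 79) (nat_lit 64) (.n (nat_lit 80) (nat_lit 160) (.n (nat_lit 81) (nat_lit 28) (.p (nat_lit 82) (nat_lit 4) (.p (nat_lit 83) (nat_lit 48) (.p (nat_lit 84) (nat_lit 64) (.n (nat_lit 85) (nat_lit 16) (.p (nat_lit 86) (nat_lit 20) (.n (nat_lit 87) (nat_lit 48) (.p (nat_lit 88) (nat_lit 52) (.n (nat_lit 89) (nat_lit 12) (.n (nat_lit 90) (nat_lit 36) (.n (nat_lit 91) (nat_lit 16) (.n (nat_lit 92) (nat_lit 36) .z))))))))))))))))))))) (.ct dr4_c531 (nat_lit 4) (nat_lit 4) (.s false (nat_lit 1) (nat_lit 6) (nat_lit 0) (nat_lit 5) (nat_lit 0) false (nat_lit 10) true (nat_lit 9) true (nat_lit 3) true (nat_lit 9) true (nat_lit 4) (.e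 false (nat_lit 8) (nat_lit 53) (nat_lit 0) (nat_lit 9) (.e false (nat_lit 4) (nat_lit 54) (nat_lit 0) (nat_lit 9) (.e true (nat_lit 8) (nat_lit 57) (nat_lit 0) (nat_lit 9) (.e false (nat_lit 12) (nat_lit 58) (nat_lit 0) (nat_lit 9) (.e true (nat_lit 4) (nat_lit 20) (nat_lit 6) (nat_lit 3) (.e false (nat_lit 4) (nat_lit 55) (nat_lit 0) (nat_lit 9) (.e true (nat_lit 4) (nat_lit 56) (nat_lit 0) (nat_lit 9) (.e false (nat_lit 4) (nat_lit 59) (nat_lit 0) (nat_lit 9) (.e false (nat_lit 4) (nat_lit 60) (nat_lit 0) (nat_lit 9) .nil))))))))))) .leaf)) (nat_lit 23558) (nat_lit 168) (.p (nat_lit 94) (nat_lit 4) (.n (nat_lit 96) (nat_lit 16) (.n (nat_lit 97) (nat_lit 12) (.p (nat_lit 98) (nat_lit 4) .z)))) (.ct dr4_c516 (nat_lit 4) (nat_lit 2) (.s true (nat_lit 1) (nat_lit 6) (nat_lit 0) (nat_lit 0) (nat_lit 6) true (nat_lit 0) true (nat_lit 2) true (nat_lit 2) true (nat_lit 5) true (nat_lit 5)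 (.a true (nat_lit 8) (nat_lit 13) (nat_lit 13) (nat_lit 0) (nat_lit 0) (.e false (nat_lit 8) (nat_lit 65) (nat_lit 0) (nat_lit 5) (.e false (nat_lit 8) (nat_lit 66) (nat_lit 0) (nat_lit 5) .nil))))) (.nd (.nd (.nd .leaf (nat_lit 24576) (nat_lit 47) (.p (nat_lit 42) (nat_lit 4) .z) .df .leaf) (nat_lit 24578) (nat_lit 71) (.p (nat_lit 53) (nat_lit 4) .z) .df .leaf) (nat_lit 24580) (nat_lit 127) (.n (nat_lit 72) (nat_lit 12) (.p (nat_lit 73) (nat_lit 4) (.p (nat_lit 74) (nat_lit 4) (.p (nat_lit 75) (nat_lit 16) (.p (nat_lit 76) (nat_lit 12) (.n (nat_lit 77) (nat_lit 4) (.n (nat_lit 78) (nat_lit 8) (.n (nat_lit 79) (nat_lit 12) (.p (nat_lit 80) (nat_lit 24) (.p (nat_lit 81) (nat_lit 4) (.n (nat_lit 83) (nat_lit 8) (.n (nat_lit 84) (nat_lit 8) (.p (nat_lit 87) (nat_lit 4) (.n (nat_lit 88) (nat_lit 4) (.p (nat_lit 90) (nat_lit 4) (.p (nat_lit 91) (nat_lit 4) (.p (nat_lit 92) (nat_lit 4) .z)))))))))))))))))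 (.ct dr4_c531 (nat_lit 4) (nat_lit 5) (.s false (nat_lit 1) (nat_lit 4) (nat_lit 1) (nat_lit 2) (nat_lit 4) true (nat_lit 0) true (nat_lit 5) true (nat_lit 5) true (nat_lit 8) true (nat_lit 7) (.s false (nat_lit 1) (nat_lit 5) (nat_lit 0) (nat_lit 4) (nat_lit 2) true (nat_lit 5) true (nat_lit 7) true (nat_lit 4) true (nat_lit 9) true (nat_lit 5) (.s false (nat_lit 1) (nat_lit 5) (nat_lit 4) (nat_lit 2) (nat_lit 0) true (nat_lit 1) true (nat_lit 9) true (nat_lit 4) true (nat_lit 5) true (nat_lit 7) (.s false (nat_lit 1) (nat_lit 8) (nat_lit 1) (nat_lit 2) (nat_lit 2) true (nat_lit 4) true (nat_lit 7) true (nat_lit 1) true (nat_lit 8) true (nat_lit 7) (.s false (nat_lit 1) (nat_lit 12) (nat_lit 2) (nat_lit 0) (nat_lit 1) true (nat_lit 4) true (nat_lit 8) false (nat_lit 0) true (nat_lit 7) true (nat_lit 9) (.e false (nat_lit 4) (nat_lit 28) (nat_lit 4) (nat_lit 5) (.e false (nat_lit 4)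 (nat_lit 48) (nat_lit 1) (nat_lit 8) (.e true (nat_lit 8) (nat_lit 52) (nat_lit 1) (nat_lit 8) (.e false (nat_lit 4) (nat_lit 42) (nat_lit 2) (nat_lit 7) (.e false (nat_lit 8) (nat_lit 43) (nat_lit 2) (nat_lit 7) (.e true (nat_lit 4) (nat_lit 46) (nat_lit 2) (nat_lit 7) (.e false (nat_lit 8) (nat_lit 47) (nat_lit 2) (nat_lit 7) (.e true (nat_lit 4) (nat_lit 39) (nat_lit 2) (nat_lit 7) (.e false (nat_lit 4) (nat_lit 63) (nat_lit 0) (nat_lit 9) (.e true (nat_lit 4) (nat_lit 53) (nat_lit 0) (nat_lit 9) (.e true (nat_lit 4) (nat_lit 54) (nat_lit 0) (nat_lit 9) (.e false (nat_lit 4) (nat_lit 57) (nat_lit 0) (nat_lit 9) (.e true (nat_lit 4) (nat_lit 58) (nat_lit 0) (nat_lit 9) (.e false (nat_lit 4) (nat_lit 49) (nat_lit 1) (nat_lit 8) (.e true (nat_lit 8) (nat_lit 51) (nat_lit 1) (nat_lit 8) (.e false (nat_lit 4) (nat_lit 40) (nat_lit 2) (nat_lit 7) (.e true (nat_lit 4) (nat_lit 56) (nat_lit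 0) (nat_lit 9) .nil))))))))))))))))))))))) (.nd (.nd .leaf (nat_lit 24582) (nat_lit 189) (.p (nat_lit 100) (nat_lit 8) (.p (nat_lit 102) (nat_lit 8) (.n (nat_lit 105) (nat_lit 4) (.n (nat_lit 106) (nat_lit 8) (.n (nat_lit 107) (nat_lit 4) (.p (nat_lit 108) (nat_lit 4) (.p (nat_lit 109) (nat_lit 4) (.p (nat_lit 110) (nat_lit 4) (.p (nat_lit 111) (nat_lit 8) (.n (nat_lit 112) (nat_lit 4) .z)))))))))) (.ct dr4_c276 (nat_lit 8) (nat_lit 2) (.s true (nat_lit 2) (nat_lit 6) (nat_lit 3) (nat_lit 2) (nat_lit 2) true (nat_lit 1) true (nat_lit 6) true (nat_lit 2) true (nat_lit 5) true (nat_lit 6) (.s true (nat_lit 1) (nat_lit 16) (nat_lit 0) (nat_lit 1) (nat_lit 2) true (nat_lit 4) true (nat_lit 6) false (nat_lit 1) true (nat_lit 8) true (nat_lit 7) (.s false (nat_lit 1) (nat_lit 16) (nat_lit 1) (nat_lit 0) (nat_lit 2) true (nat_lit 3) true (nat_lit 6) false (nat_lit 1) true (nat_lit 7) true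 (nat_lit 8) (.e false (nat_lit 4) (nat_lit 54) (nat_lit 2) (nat_lit 6) (.e false (nat_lit 4) (nat_lit 55) (nat_lit 2) (nat_lit 6) (.e false (nat_lit 4) (nat_lit 56) (nat_lit 2) (nat_lit 6) (.e false (nat_lit 4) (nat_lit 58) (nat_lit 2) (nat_lit 6) (.e false (nat_lit 8) (nat_lit 62) (nat_lit 2) (nat_lit 6) (.e true (nat_lit 4) (nat_lit 35) (nat_lit 4) (nat_lit 4) (.e true (nat_lit 8) (nat_lit 60) (nat_lit 2) (nat_lit 6) (.e false (nat_lit 4) (nat_lit 70) (nat_lit 0) (nat_lit 8) (.e false (nat_lit 4) (nat_lit 32) (nat_lit 5) (nat_lit 3) (.e true (nat_lit 4) (nat_lit 59) (nat_lit 2) (nat_lit 6) (.e true (nat_lit 4) (nat_lit 61) (nat_lit 2) (nat_lit 6) (.e true (nat_lit 4) (nat_lit 66) (nat_lit 1) (nat_lit 7) .nil)))))))))))))))) .leaf) (nat_lit 25600) (nat_lit 48) (.p (nat_lit 43) (nat_lit 4) .z) .df .leaf))))))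

noncomputable def dr4_t1 : Tr := (.nd (.nd (.nd (.nd (.nd (.nd (.nd .leaf (nat_lit 25604) (nat_lit 128) (.p (nat_lit 72) (nat_lit 8) (.n (nat_lit 73) (nat_lit 4) (.n (nat_lit 74) (nat_lit 2) (.n (nat_lit 75) (nat_lit 18) (.n (nat_lit 76) (nat_lit 14) (.p (nat_lit 77) (nat_lit 2) (.p (nat_lit 78) (nat_lit 8) (.p (nat_lit 79) (nat_lit 10) (.n (nat_lit 80) (nat_lit 20) (.n (nat_lit 81) (nat_lit 4) (.n (nat_lit 82) (nat_lit 2) (.p (nat_lit 83) (nat_lit 8) (.p (nat_lit 84) (nat_lit 12) (.p (nat_lit 85) (nat_lit 6) (.p (nat_lit 86) (nat_lit 10) (.n (nat_lit 87) (nat_lit 6) (.p (nat_lit 88) (nat_lit 8) (.n (nat_lit 89) (nat_lit 8) (.p (nat_lit 90) (nat_lit 4) (.n (nat_lit 91) (nat_lit 2) (.n (nat_lit 92) (nat_lit 4) .z))))))))))))))))))))) (.ct dr4_c531 (nat_lit 8) (nat_lit 5) (.s false (nat_lit 2) (nat_lit 5) (nat_lit 0) (nat_lit 4) (nat_lit 2) true (nat_lit 5) true (nat_lit 7) true (nat_lit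 4) true (nat_lit 9) true (nat_lit 5) (.s false (nat_lit 1) (nat_lit 6) (nat_lit 2) (nat_lit 3) (nat_lit 0) true (nat_lit 5) true (nat_lit 9) true (nat_lit 3) true (nat_lit 7) true (nat_lit 6) (.s false (nat_lit 1) (nat_lit 6) (nat_lit 4) (nat_lit 0) (nat_lit 1) true (nat_lit 0) true (nat_lit 8) true (nat_lit 3) true (nat_lit 5) true (nat_lit 9) (.s false (nat_lit 1) (nat_lit 8) (nat_lit 1) (nat_lit 2) (nat_lit 2) true (nat_lit 4) true (nat_lit 7) true (nat_lit 1) true (nat_lit 8) true (nat_lit 7) (.s false (nat_lit 1) (nat_lit 8) (nat_lit 2) (nat_lit 1) (nat_lit 2) true (nat_lit 3) true (nat_lit 7) true (nat_lit 1) true (nat_lit 7) true (nat_lit 8) (.s false (nat_lit 1) (nat_lit 8) (nat_lit 2) (nat_lit 2) (nat_lit 1) true (nat_lit 4) true (nat_lit 8) true (nat_lit 1) true (nat_lit 7) true (nat_lit 7) dr4_i0))))))) .leaf) (nat_lit 25606) (nat_lit 192) (.p (nat_lit 99) (nat_lit 12) (.p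 (nat_lit 100) (nat_lit 12) (.n (nat_lit 103) (nat_lit 12) (.p (nat_lit 104) (nat_lit 12) (.n (nat_lit 105) (nat_lit 2) (.p (nat_lit 106) (nat_lit 2) (.n (nat_lit 107) (nat_lit 2) (.p (nat_lit 109) (nat_lit 2) (.p (nat_lit 110) (nat_lit 2) (.n (nat_lit 111) (nat_lit 2) (.p (nat_lit 112) (nat_lit 2) (.n (nat_lit 114) (nat_lit 2) .z)))))))))))) (.ct dr4_c276 (nat_lit 4) (nat_lit 2) (.s true (nat_lit 1) (nat_lit 10) (nat_lit 2) (nat_lit 2) (nat_lit 2) true (nat_lit 2) true (nat_lit 6) true (nat_lit 1) true (nat_lit 6) true (nat_lit 6) (.s false (nat_lit 1) (nat_lit 16) (nat_lit 2) (nat_lit 0) (nat_lit 1) true (nat_lit 3) true (nat_lit 7) false (nat_lit 1) true (nat_lit 6) true (nat_lit 8) (.e false (nat_lit 16) (nat_lit 54) (nat_lit 2) (nat_lit 6) (.e false (nat_lit 8) (nat_lit 53) (nat_lit 2) (nat_lit 6) (.e true (nat_lit 8) (nat_lit 55) (nat_lit 2) (nat_lit 6) (.e false (nat_lit 8) (nat_lit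 56) (nat_lit 2) (nat_lit 6) (.e true (nat_lit 4) (nat_lit 57) (nat_lit 2) (nat_lit 6) (.e true (nat_lit 4) (nat_lit 60) (nat_lit 2) (nat_lit 6) (.e true (nat_lit 8) (nat_lit 62) (nat_lit 2) (nat_lit 6) (.e true (nat_lit 4) (nat_lit 32) (nat_lit 5) (nat_lit 3) (.e false (nat_lit 4) (nat_lit 67) (nat_lit 1) (nat_lit 7) (.e true (nat_lit 4) (nat_lit 70) (nat_lit 0) (nat_lit 8) .nil))))))))))))) (.nd .leaf (nat_lit 26624) (nat_lit 49) (.p (nat_lit 44) (nat_lit 4) .z) .df .leaf)) (nat_lit 26626) (nat_lit 73) (.p (nat_lit 55) (nat_lit 4) .z) .df (.nd (.nd .leaf (nat_lit 26628) (nat_lit 138) (.n (nat_lit 77) (nat_lit 4) (.p (nat_lit 85) (nat_lit 4) (.p (nat_lit 86) (nat_lit 4) (.n (nat_lit 89) (nat_lit 4) (.p (nat_lit 90) (nat_lit 8) .z))))) (.ct dr4_c531 (nat_lit 4) (nat_lit 5) (.s true (nat_lit 1) (nat_lit 11) (nat_lit 2) (nat_lit 2) (nat_lit 0) true (nat_lit 5) true (nat_lit 9) true (nat_lit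 0) true (nat_lit 7) true (nat_lit 7) (.s true (nat_lit 1) (nat_lit 13) (nat_lit 2) (nat_lit 1) (nat_lit 0) true (nat_lit 5) true (nat_lit 9) false (nat_lit 0) true (nat_lit 7) true (nat_lit 8) (.e true (nat_lit 4) (nat_lit 55) (nat_lit 0) (nat_lit 9) (.e false (nat_lit 8) (nat_lit 39) (nat_lit 2) (nat_lit 7) (.e true (nat_lit 12) (nat_lit 42) (nat_lit 2) (nat_lit 7) (.e true (nat_lit 4) (nat_lit 43) (nat_lit 2) (nat_lit 7) (.e false (nat_lit 8) (nat_lit 46) (nat_lit 2) (nat_lit 7) (.e true (nat_lit 16) (nat_lit 47) (nat_lit 2) (nat_lit 7) (.e false (nat_lit 4) (nat_lit 28) (nat_lit 4) (nat_lit 5) (.e true (nat_lit 4) (nat_lit 59) (nat_lit 0) (nat_lit 9) (.e true (nat_lit 4) (nat_lit 41) (nat_lit 2) (nat_lit 7) (.e false (nat_lit 8) (nat_lit 45) (nat_lit 2) (nat_lit 7) (.e false (nat_lit 4) (nat_lit 49) (nat_lit 1) (nat_lit 8) .nil)))))))))))))) .leaf) (nat_lit 26630) (nat_lit 196) (.p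 (nat_lit 99) (nat_lit 4) (.p (nat_lit 100) (nat_lit 12) (.p (nat_lit 102) (nat_lit 8) (.n (nat_lit 103) (nat_lit 4) (.p (nat_lit 104) (nat_lit 4) (.n (nat_lit 105) (nat_lit 2) (.n (nat_lit 106) (nat_lit 6) (.n (nat_lit 107) (nat_lit 2) (.p (nat_lit 109) (nat_lit 6) (.p (nat_lit 110) (nat_lit 6) (.p (nat_lit 111) (nat_lit 6) (.n (nat_lit 112) (nat_lit 6) (.n (nat_lit 114) (nat_lit 2) .z))))))))))))) (.ct dr4_c276 (nat_lit 4) (nat_lit 2) (.s false (nat_lit 1) (nat_lit 6) (nat_lit 0) (nat_lit 6) (nat_lit 1) true (nat_lit 5) true (nat_lit 7) true (nat_lit 2) true (nat_lit 8) true (nat_lit 2) (.e false (nat_lit 8) (nat_lit 65) (nat_lit 1) (nat_lit 7) (.e false (nat_lit 8) (nat_lit 66) (nat_lit 1) (nat_lit 7) (.e true (nat_lit 8) (nat_lit 28) (nat_lit 6) (nat_lit 2) (.e false (nat_lit 8) (nat_lit 69) (nat_lit 0) (nat_lit 8) (.e false (nat_lit 8) (nat_lit 70) (nat_lit 0) (nat_lit 8) (.e false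 (nat_lit 8) (nat_lit 24) (nat_lit 6) (nat_lit 2) (.e false (nat_lit 4) (nat_lit 25) (nat_lit 6) (nat_lit 2) (.e true (nat_lit 4) (nat_lit 27) (nat_lit 6) (nat_lit 2) (.e false (nat_lit 4) (nat_lit 29) (nat_lit 6) (nat_lit 2) .nil))))))))))) .leaf)) (nat_lit 27648) (nat_lit 50) (.p (nat_lit 45) (nat_lit 4) .z) .df (.nd (.nd (.nd .leaf (nat_lit 27650) (nat_lit 74) (.p (nat_lit 56) (nat_lit 4) .z) .df .leaf) (nat_lit 27652) (nat_lit 133) (.p (nat_lit 72) (nat_lit 120) (.n (nat_lit 73) (nat_lit 28) (.n (nat_lit 74) (nat_lit 46) (.n (nat_lit 75) (nat_lit 214) (.n (nat_lit 76) (nat_lit 110) (.p (nat_lit 77) (nat_lit 54) (.p (nat_lit 78) (nat_lit 116) (.p (nat_lit 79) (nat_lit 102) (.n (nat_lit 80) (nat_lit 268) (.n (nat_lit 81) (nat_lit 44) (.p (nat_lit 82) (nat_lit 10) (.p (nat_lit 83) (nat_lit 72) (.p (nat_lit 84) (nat_lit 100) (.n (nat_lit 85) (nat_lit 38) (.p (nat_lit 86) (nat_lit 18)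 (.n (nat_lit 87) (nat_lit 82) (.p (nat_lit 88) (nat_lit 84) (.n (nat_lit 89) (nat_lit 4) (.n (nat_lit 90) (nat_lit 76) (.n (nat_lit 91) (nat_lit 26) (.n (nat_lit 92) (nat_lit 68) .z))))))))))))))))))))) (.ct dr4_c531 (nat_lit 8) (nat_lit 5) (.s false (nat_lit 1) (nat_lit 4) (nat_lit 1) (nat_lit 2) (nat_lit 4) true (nat_lit 0) true (nat_lit 5) true (nat_lit 5) true (nat_lit 8) true (nat_lit 7) (.s true (nat_lit 1) (nat_lit 4) (nat_lit 2) (nat_lit 1) (nat_lit 4) false (nat_lit 0) true (nat_lit 5) true (nat_lit 5) true (nat_lit 7) true (nat_lit 8) (.s true (nat_lit 1) (nat_lit 9) (nat_lit 0) (nat_lit 2) (nat_lit 2) true (nat_lit 5) true (nat_lit 7) true (nat_lit 0) true (nat_lit 9) true (nat_lit 7) (.s true (nat_lit 1) (nat_lit 12) (nat_lit 0) (nat_lit 1) (nat_lit 2) true (nat_lit 5) true (nat_lit 7) false (nat_lit 0) true (nat_lit 9) true (nat_lit 8) (.e false (nat_lit 12) (nat_lit 25)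 (nat_lit 4) (nat_lit 5) (.e false (nat_lit 4) (nat_lit 24) (nat_lit 4) (nat_lit 5) (.e true (nat_lit 8) (nat_lit 28) (nat_lit 4) (nat_lit 5) (.e false (nat_lit 8) (nat_lit 29) (nat_lit 4) (nat_lit 5) (.e false (nat_lit 4) (nat_lit 48) (nat_lit 1) (nat_lit 8) (.e true (nat_lit 12) (nat_lit 37) (nat_lit 2) (nat_lit 7) (.e false (nat_lit 8) (nat_lit 38) (nat_lit 2) (nat_lit 7) (.e false (nat_lit 8) (nat_lit 42) (nat_lit 2) (nat_lit 7) (.e false (nat_lit 4) (nat_lit 43) (nat_lit 2) (nat_lit 7) (.e false (nat_lit 8) (nat_lit 44) (nat_lit 2) (nat_lit 7) (.e true (nat_lit 4) (nat_lit 45) (nat_lit 2) (nat_lit 7) (.e true (nat_lit 12) (nat_lit 46) (nat_lit 2) (nat_lit 7) (.e false (nat_lit 16) (nat_lit 47) (nat_lit 2) (nat_lit 7) (.e false (nat_lit 4) (nat_lit 41) (nat_lit 2) (nat_lit 7) (.e false (nat_lit 4) (nat_lit 51) (nat_lit 1) (nat_lit 8) (.e true (nat_lit 4) (nat_lit 49) (nat_lit 1)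 (nat_lit 8) (.e false (nat_lit 4) (nat_lit 62) (nat_lit 0) (nat_lit 9) (.e true (nat_lit 4) (nat_lit 63) (nat_lit 0) (nat_lit 9) .nil))))))))))))))))))))))) .leaf) (nat_lit 27654) (nat_lit 194) (.n (nat_lit 99) (nat_lit 12) (.n (nat_lit 100) (nat_lit 16) (.p (nat_lit 101) (nat_lit 4) (.n (nat_lit 102) (nat_lit 4) (.p (nat_lit 103) (nat_lit 12) (.n (nat_lit 104) (nat_lit 8) (.p (nat_lit 105) (nat_lit 6) (.p (nat_lit 106) (nat_lit 2) (.p (nat_lit 107) (nat_lit 6) (.p (nat_lit 108) (nat_lit 4) (.n (nat_lit 109) (nat_lit 6) (.n (nat_lit 110) (nat_lit 6) (.n (nat_lit 111) (nat_lit 2) (.p (nat_lit 112) (nat_lit 2) (.p (nat_lit 114) (nat_lit 6) .z))))))))))))))) (.ct dr4_c276 (nat_lit 8) (nat_lit 2) (.s false (nat_lit 1) (nat_lit 6) (nat_lit 0) (nat_lit 6) (nat_lit 1) true (nat_lit 5) true (nat_lit 7) true (nat_lit 2) true (nat_lit 8) true (nat_lit 2) (.s false (nat_lit 1) (nat_lit 6) (nat_lit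 2) (nat_lit 2) (nat_lit 3) true (nat_lit 1) true (nat_lit 5) true (nat_lit 2) true (nat_lit 6) true (nat_lit 6) (.s false (nat_lit 1) (nat_lit 16) (nat_lit 0) (nat_lit 1) (nat_lit 2) true (nat_lit 4) true (nat_lit 6) false (nat_lit 1) true (nat_lit 8) true (nat_lit 7) (.s false (nat_lit 1) (nat_lit 16) (nat_lit 1) (nat_lit 2) (nat_lit 0) true (nat_lit 5) true (nat_lit 8) false (nat_lit 1) true (nat_lit 7) true (nat_lit 6) (.s false (nat_lit 1) (nat_lit 16) (nat_lit 2) (nat_lit 1) (nat_lit 0) true (nat_lit 4) true (nat_lit 8) false (nat_lit 1) true (nat_lit 6) true (nat_lit 7) (.e false (nat_lit 8) (nat_lit 65) (nat_lit 1) (nat_lit 7) (.e false (nat_lit 8) (nat_lit 66) (nat_lit 1) (nat_lit 7) (.e true (nat_lit 8) (nat_lit 28) (nat_lit 6) (nat_lit 2) (.e false (nat_lit 8) (nat_lit 69) (nat_lit 0) (nat_lit 8) (.e false (nat_lit 8) (nat_lit 70) (nat_lit 0) (nat_lit 8) (.e false (nat_lit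 8) (nat_lit 24) (nat_lit 6) (nat_lit 2) (.e false (nat_lit 8) (nat_lit 29) (nat_lit 6) (nat_lit 2) (.e false (nat_lit 8) (nat_lit 62) (nat_lit 2) (nat_lit 6) .nil)))))))))))))) (.nd (.nd .leaf (nat_lit 28672) (nat_lit 51) (.p (nat_lit 46) (nat_lit 4) .z) .df .leaf) (nat_lit 28674) (nat_lit 75) (.p (nat_lit 57) (nat_lit 4) .z) .df .leaf))) (nat_lit 28676) (nat_lit 126) (.n (nat_lit 72) (nat_lit 8) (.p (nat_lit 74) (nat_lit 4) (.p (nat_lit 75) (nat_lit 12) (.p (nat_lit 76) (nat_lit 4) (.n (nat_lit 77) (nat_lit 4) (.n (nat_lit 78) (nat_lit 8) (.n (nat_lit 79) (nat_lit 8) (.p (nat_lit 80) (nat_lit 16) (.n (nat_lit 82) (nat_lit 4) (.p (nat_lit 85) (nat_lit 4) (.p (nat_lit 86) (nat_lit 4) (.p (nat_lit 87) (nat_lit 4) (.n (nat_lit 89) (nat_lit 4) (.p (nat_lit 90) (nat_lit 8) (.p (nat_lit 91) (nat_lit 4) .z))))))))))))))) (.ct dr4_c531 (nat_lit 4) (nat_lit 5) (.s false (nat_lit 1) (nat_lit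 5) (nat_lit 0) (nat_lit 4) (nat_lit 2) true (nat_lit 5) true (nat_lit 7) true (nat_lit 4) true (nat_lit 9) true (nat_lit 5) (.s false (nat_lit 1) (nat_lit 5) (nat_lit 4) (nat_lit 0) (nat_lit 2) false (nat_lit 0) true (nat_lit 7) true (nat_lit 4) true (nat_lit 5) true (nat_lit 9) (.s true (nat_lit 1) (nat_lit 6) (nat_lit 5) (nat_lit 0) (nat_lit 0) true (nat_lit 0) true (nat_lit 9) true (nat_lit 3) true (nat_lit 4) true (nat_lit 9) (.s true (nat_lit 1) (nat_lit 11) (nat_lit 2) (nat_lit 0) (nat_lit 2) true (nat_lit 3) true (nat_lit 7) true (nat_lit 0) true (nat_lit 7) true (nat_lit 9) (.s false (nat_lit 1) (nat_lit 13) (nat_lit 2) (nat_lit 1) (nat_lit 0) true (nat_lit 5) true (nat_lit 9) false (nat_lit 0) true (nat_lit 7) true (nat_lit 8) (.s true (nat_lit 1) (nat_lit 14) (nat_lit 0) (nat_lit 0) (nat_lit 2) true (nat_lit 5) true (nat_lit 7) false (nat_lit 1) true (nat_lit 9) true (nat_lit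 9) (.e true (nat_lit 8) (nat_lit 39) (nat_lit 2) (nat_lit 7) (.e false (nat_lit 12) (nat_lit 42) (nat_lit 2) (nat_lit 7) (.e false (nat_lit 4) (nat_lit 43) (nat_lit 2) (nat_lit 7) (.e true (nat_lit 8) (nat_lit 46) (nat_lit 2) (nat_lit 7) (.e false (nat_lit 16) (nat_lit 47) (nat_lit 2) (nat_lit 7) (.e false (nat_lit 4) (nat_lit 54) (nat_lit 0) (nat_lit 9) (.e false (nat_lit 4) (nat_lit 59) (nat_lit 0) (nat_lit 9) (.e false (nat_lit 4) (nat_lit 55) (nat_lit 0) (nat_lit 9) (.e false (nat_lit 8) (nat_lit 58) (nat_lit 0) (nat_lit 9) (.e false (nat_lit 4) (nat_lit 53) (nat_lit 0) (nat_lit 9) (.e true (nat_lit 4) (nat_lit 57) (nat_lit 0) (nat_lit 9) (.e true (nat_lit 4) (nat_lit 44) (nat_lit 2) (nat_lit 7) (.e false (nat_lit 4) (nat_lit 41) (nat_lit 2) (nat_lit 7) (.e true (nat_lit 8) (nat_lit 45) (nat_lit 2) (nat_lit 7) (.e true (nat_lit 4) (nat_lit 49) (nat_lit 1) (nat_lit 8) .nil))))))))))))))))))))))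 (.nd (.nd (.nd (.nd .leaf (nat_lit 28678) (nat_lit 183) (.p (nat_lit 112) (nat_lit 4) .z) .df .leaf) (nat_lit 29696) (nat_lit 52) (.p (nat_lit 47) (nat_lit 4) .z) .df (.nd .leaf (nat_lit 29698) (nat_lit 76) (.p (nat_lit 58) (nat_lit 4) .z) .df .leaf)) (nat_lit 29700) (nat_lit 131) (.p (nat_lit 72) (nat_lit 76) (.n (nat_lit 73) (nat_lit 20) (.n (nat_lit 74) (nat_lit 28) (.n (nat_lit 75) (nat_lit 136) (.n (nat_lit 76) (nat_lit 72) (.p (nat_lit 77) (nat_lit 32) (.p (nat_lit 78) (nat_lit 72) (.p (nat_lit 79) (nat_lit 68) (.n (nat_lit 80) (nat_lit 172) (.n (nat_lit 81) (nat_lit 28) (.p (nat_lit 82) (nat_lit 4) (.p (nat_lit 83) (nat_lit 48) (.p (nat_lit 84) (nat_lit 64) (.n (nat_lit 85) (nat_lit 24) (.p (nat_lit 86) (nat_lit 12) (.n (nat_lit 87) (nat_lit 48) (.p (nat_lit 88) (nat_lit 52) (.n (nat_lit 89) (nat_lit 4) (.n (nat_lit 90) (nat_lit 48) (.n (nat_lit 91) (nat_lit 16) (.n (nat_lit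 92) (nat_lit 44) .z))))))))))))))))))))) (.ct dr4_c531 (nat_lit 4) (nat_lit 5) (.s true (nat_lit 1) (nat_lit 5) (nat_lit 0) (nat_lit 4) (nat_lit 2) true (nat_lit 5) true (nat_lit 7) true (nat_lit 4) true (nat_lit 9) true (nat_lit 5) (.s true (nat_lit 1) (nat_lit 5) (nat_lit 4) (nat_lit 0) (nat_lit 2) false (nat_lit 0) true (nat_lit 7) true (nat_lit 4) true (nat_lit 5) true (nat_lit 9) (.s true (nat_lit 1) (nat_lit 6) (nat_lit 0) (nat_lit 5) (nat_lit 0) false (nat_lit 10) true (nat_lit 9) true (nat_lit 3) true (nat_lit 9) true (nat_lit 4) (.s false (nat_lit 1) (nat_lit 11) (nat_lit 2) (nat_lit 0) (nat_lit 2) true (nat_lit 3) true (nat_lit 7) true (nat_lit 0) true (nat_lit 7) true (nat_lit 9) (.s true (nat_lit 1) (nat_lit 9) (nat_lit 2) (nat_lit 2) (nat_lit 0) true (nat_lit 5) true (nat_lit 9) true (nat_lit 0) true (nat_lit 7) true (nat_lit 7) (.s true (nat_lit 1) (nat_lit 13) (nat_lit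 1) (nat_lit 0) (nat_lit 2) true (nat_lit 4) true (nat_lit 7) false (nat_lit 0) true (nat_lit 8) true (nat_lit 9) (.e true (nat_lit 4) (nat_lit 24) (nat_lit 4) (nat_lit 5) (.e false (nat_lit 8) (nat_lit 39) (nat_lit 2) (nat_lit 7) (.e true (nat_lit 4) (nat_lit 42) (nat_lit 2) (nat_lit 7) (.e true (nat_lit 8) (nat_lit 43) (nat_lit 2) (nat_lit 7) (.e true (nat_lit 12) (nat_lit 47) (nat_lit 2) (nat_lit 7) (.e true (nat_lit 8) (nat_lit 63) (nat_lit 0) (nat_lit 9) (.e true (nat_lit 8) (nat_lit 54) (nat_lit 0) (nat_lit 9) (.e false (nat_lit 4) (nat_lit 59) (nat_lit 0) (nat_lit 9) (.e true (nat_lit 12) (nat_lit 53) (nat_lit 0) (nat_lit 9) (.e false (nat_lit 8) (nat_lit 57) (nat_lit 0) (nat_lit 9) (.e true (nat_lit 12) (nat_lit 58) (nat_lit 0) (nat_lit 9) (.e false (nat_lit 8) (nat_lit 44) (nat_lit 2) (nat_lit 7) (.e false (nat_lit 8) (nat_lit 38) (nat_lit 2) (nat_lit 7) (.e false (nat_lit 4)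 (nat_lit 49) (nat_lit 1) (nat_lit 8) (.e true (nat_lit 4) (nat_lit 51) (nat_lit 1) (nat_lit 8) (.e true (nat_lit 8) (nat_lit 52) (nat_lit 1) (nat_lit 8) .nil))))))))))))))))))))))) (.nd (.nd .leaf (nat_lit 29702) (nat_lit 190) (.n (nat_lit 99) (nat_lit 4) (.n (nat_lit 100) (nat_lit 16) (.p (nat_lit 101) (nat_lit 4) (.n (nat_lit 102) (nat_lit 12) (.p (nat_lit 103) (nat_lit 4) (.p (nat_lit 105) (nat_lit 6) (.p (nat_lit 106) (nat_lit 10) (.p (nat_lit 107) (nat_lit 6) (.n (nat_lit 108) (nat_lit 4) (.n (nat_lit 109) (nat_lit 10) (.n (nat_lit 110) (nat_lit 10) (.n (nat_lit 111) (nat_lit 10) (.p (nat_lit 112) (nat_lit 10) (.p (nat_lit 114) (nat_lit 6) .z)))))))))))))) (.ct dr4_c276 (nat_lit 8) (nat_lit 2) (.s false (nat_lit 1) (nat_lit 6) (nat_lit 0) (nat_lit 6) (nat_lit 1) true (nat_lit 5) true (nat_lit 7) true (nat_lit 2) true (nat_lit 8) true (nat_lit 2) (.s false (nat_lit 2) (nat_lit 6)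 (nat_lit 1) (nat_lit 0) (nat_lit 6) false (nat_lit 0) true (nat_lit 2) true (nat_lit 2) true (nat_lit 7) true (nat_lit 8) (.s false (nat_lit 1) (nat_lit 6) (nat_lit 2) (nat_lit 2) (nat_lit 3) true (nat_lit 1) true (nat_lit 5) true (nat_lit 2) true (nat_lit 6) true (nat_lit 6) (.s true (nat_lit 2) (nat_lit 6) (nat_lit 4) (nat_lit 2) (nat_lit 1) true (nat_lit 1) true (nat_lit 7) true (nat_lit 2) true (nat_lit 4) true (nat_lit 6) (.s true (nat_lit 2) (nat_lit 15) (nat_lit 2) (nat_lit 2) (nat_lit 0) true (nat_lit 4) true (nat_lit 8) false (nat_lit 0) true (nat_lit 6) true (nat_lit 6) (.s false (nat_lit 1) (nat_lit 16) (nat_lit 0) (nat_lit 1) (nat_lit 2) true (nat_lit 4) true (nat_lit 6) false (nat_lit 1) true (nat_lit 8) true (nat_lit 7) (.s false (nat_lit 1) (nat_lit 16) (nat_lit 1) (nat_lit 2) (nat_lit 0) true (nat_lit 5) true (nat_lit 8) false (nat_lit 1) true (nat_lit 7) true (nat_lit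 6) (.s true (nat_lit 2) (nat_lit 16) (nat_lit 2) (nat_lit 0) (nat_lit 1) true (nat_lit 3) true (nat_lit 7) false (nat_lit 1) true (nat_lit 6) true (nat_lit 8) (.s false (nat_lit 1) (nat_lit 16) (nat_lit 2) (nat_lit 1) (nat_lit 0) true (nat_lit 4) true (nat_lit 8) false (nat_lit 1) true (nat_lit 6) true (nat_lit 7) (.e false (nat_lit 16) (nat_lit 70) (nat_lit 0) (nat_lit 8) (.e true (nat_lit 8) (nat_lit 24) (nat_lit 6) (nat_lit 2) (.e false (nat_lit 16) (nat_lit 62) (nat_lit 2) (nat_lit 6) (.e true (nat_lit 16) (nat_lit 54) (nat_lit 2) (nat_lit 6) (.e false (nat_lit 16) (nat_lit 55) (nat_lit 2) (nat_lit 6) (.e false (nat_lit 8) (nat_lit 35) (nat_lit 4) (nat_lit 4) (.e false (nat_lit 8) (nat_lit 57) (nat_lit 2) (nat_lit 6) (.e true (nat_lit 16) (nat_lit 53) (nat_lit 2) (nat_lit 6) (.e true (nat_lit 8) (nat_lit 67) (nat_lit 1) (nat_lit 7) (.e false (nat_lit 8) (nat_lit 32) (nat_lit 5)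 (nat_lit 3) .nil)))))))))))))))))))) .leaf) (nat_lit 30720) (nat_lit 64) (.p (nat_lit 50) (nat_lit 4) .z) .df .leaf)) (nat_lit 30721) (nat_lit 89) (.p (nat_lit 53) (nat_lit 4) (.p (nat_lit 54) (nat_lit 4) (.n (nat_lit 55) (nat_lit 4) (.n (nat_lit 56) (nat_lit 4) (.p (nat_lit 59) (nat_lit 4) (.n (nat_lit 62) (nat_lit 4) (.n (nat_lit 63) (nat_lit 4) .z))))))) (.ct dr4_c275 (nat_lit 4) (nat_lit 5) (.s true (nat_lit 1) (nat_lit 4) (nat_lit 2) (nat_lit 2) (nat_lit 1) true (nat_lit 1) true (nat_lit 5) true (nat_lit 2) true (nat_lit 4) true (nat_lit 4) (.e true (nat_lit 4) (nat_lit 12) (nat_lit 5) (nat_lit 1) (.e true (nat_lit 4) (nat_lit 15) (nat_lit 4) (nat_lit 2) (.e false (nat_lit 4) (nat_lit 24) (nat_lit 2) (nat_lit 4) (.e false (nat_lit 8) (nat_lit 25) (nat_lit 2) (nat_lit 4) (.e true (nat_lit 4) (nat_lit 28) (nat_lit 2) (nat_lit 4) (.e false (nat_lit 4) (nat_lit 29) (nat_lit 2) (nat_lit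 4) .nil)))))))) (.nd (.nd (.nd .leaf (nat_lit 30722) (nat_lit 91) (.p (nat_lit 64) (nat_lit 4) .z) .df .leaf) (nat_lit 30723) (nat_lit 153) (.p (nat_lit 72) (nat_lit 68) (.n (nat_lit 73) (nat_lit 8) (.n (nat_lit 74) (nat_lit 30) (.n (nat_lit 75) (nat_lit 108) (.n (nat_lit 76) (nat_lit 48) (.p (nat_lit 77) (nat_lit 32) (.p (nat_lit 78) (nat_lit 64) (.p (nat_lit 79) (nat_lit 46) (.n (nat_lit 80) (nat_lit 140) (.n (nat_lit 81) (nat_lit 24) (.p (nat_lit 82) (nat_lit 14) (.p (nat_lit 83) (nat_lit 30) (.p (nat_lit 84) (nat_lit 44) (.n (nat_lit 85) (nat_lit 32) (.n (nat_lit 86) (nat_lit 4) (.n (nat_lit 87) (nat_lit 48) (.p (nat_lit 88) (nat_lit 48) (.p (nat_lit 89) (nat_lit 10) (.n (nat_lit 90) (nat_lit 52) (.n (nat_lit 91) (nat_lit 14) (.n (nat_lit 92) (nat_lit 36) .z))))))))))))))))))))) (.ct dr4_c531 (nat_lit 4) (nat_lit 6) (.s true (nat_lit 1) (nat_lit 12) (nat_lit 0) (nat_lit 2) (nat_lit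 1) true (nat_lit 6) true (nat_lit 8) false (nat_lit 0) true (nat_lit 9) true (nat_lit 7) (.e false (nat_lit 4) (nat_lit 48) (nat_lit 1) (nat_lit 8) (.e true (nat_lit 4) (nat_lit 51) (nat_lit 1) (nat_lit 8) (.e true (nat_lit 4) (nat_lit 52) (nat_lit 1) (nat_lit 8) (.e true (nat_lit 4) (nat_lit 12) (nat_lit 10) (nat_lit 0) (.e false (nat_lit 4) (nat_lit 63) (nat_lit 0) (nat_lit 9) (.e false (nat_lit 4) (nat_lit 45) (nat_lit 2) (nat_lit 7) .nil)))))))) .leaf) (nat_lit 30724) (nat_lit 166) (.p (nat_lit 94) (nat_lit 2) (.n (nat_lit 95) (nat_lit 2) (.n (nat_lit 96) (nat_lit 6) (.n (nat_lit 97) (nat_lit 6) .z)))) (.ct dr4_c516 (nat_lit 4) (nat_lit 3) (.s true (nat_lit 1) (nat_lit 4) (nat_lit 2) (nat_lit 2) (nat_lit 4) true (nat_lit 0) true (nat_lit 3) true (nat_lit 3) true (nat_lit 4) true (nat_lit 4) (.a true (nat_lit 8) (nat_lit 12) (nat_lit 12) (nat_lit 0) (nat_lit 0) (.e true (nat_lit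 4) (nat_lit 31) (nat_lit 4) (nat_lit 3) (.e true (nat_lit 4) (nat_lit 32) (nat_lit 4) (nat_lit 3) (.e true (nat_lit 4) (nat_lit 48) (nat_lit 2) (nat_lit 4) (.e false (nat_lit 4) (nat_lit 50) (nat_lit 2) (nat_lit 4) (.e true (nat_lit 4) (nat_lit 51) (nat_lit 2) (nat_lit 4) (.e false (nat_lit 4) (nat_lit 49) (nat_lit 2) (nat_lit 4) .nil))))))))) (.nd (.nd .leaf (nat_lit 30725) (nat_lit 184) (.p (nat_lit 113) (nat_lit 4) .z) .df .leaf) (nat_lit 31744) (nat_lit 65) (.p (nat_lit 51) (nat_lit 4) .z) .df .leaf)))) (nat_lit 31745) (nat_lit 77) (.p (nat_lit 59) (nat_lit 4) .z) .df (.nd (.nd (.nd (.nd (.nd .leaf (nat_lit 31746) (nat_lit 92) (.p (nat_lit 65) (nat_lit 4) .z) .df .leaf) (nat_lit 31747) (nat_lit 142) (.p (nat_lit 72) (nat_lit 8) (.n (nat_lit 74) (nat_lit 4) (.n (nat_lit 75) (nat_lit 4) (.n (nat_lit 76) (nat_lit 4) (.p (nat_lit 77) (nat_lit 4) (.p (nat_lit 79) (nat_lit 4) (.n (nat_lit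 80) (nat_lit 8) (.p (nat_lit 82) (nat_lit 4) (.n (nat_lit 83) (nat_lit 4) (.n (nat_lit 84) (nat_lit 8) (.n (nat_lit 85) (nat_lit 4) (.n (nat_lit 86) (nat_lit 4) (.n (nat_lit 87) (nat_lit 4) (.p (nat_lit 89) (nat_lit 8) (.n (nat_lit 90) (nat_lit 8) .z))))))))))))))) (.ct dr4_c531 (nat_lit 4) (nat_lit 6) (.s false (nat_lit 1) (nat_lit 13) (nat_lit 1) (nat_lit 2) (nat_lit 0) true (nat_lit 6) true (nat_lit 9) false (nat_lit 0) true (nat_lit 8) true (nat_lit 7) (.s false (nat_lit 1) (nat_lit 13) (nat_lit 2) (nat_lit 1) (nat_lit 0) true (nat_lit 5) true (nat_lit 9) false (nat_lit 0) true (nat_lit 7) true (nat_lit 8) (.e false (nat_lit 4) (nat_lit 57) (nat_lit 0) (nat_lit 9) (.e true (nat_lit 4) (nat_lit 51) (nat_lit 1) (nat_lit 8) (.e true (nat_lit 8) (nat_lit 52) (nat_lit 1) (nat_lit 8) (.e true (nat_lit 4) (nat_lit 28) (nat_lit 4) (nat_lit 5) (.e false (nat_lit 4) (nat_lit 59) (nat_lit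 0) (nat_lit 9) (.e false (nat_lit 8) (nat_lit 42) (nat_lit 2) (nat_lit 7) (.e true (nat_lit 8) (nat_lit 45) (nat_lit 2) (nat_lit 7) (.e true (nat_lit 4) (nat_lit 46) (nat_lit 2) (nat_lit 7) (.e false (nat_lit 8) (nat_lit 47) (nat_lit 2) (nat_lit 7) .nil)))))))))))) (.nd .leaf (nat_lit 31748) (nat_lit 160) (.p (nat_lit 94) (nat_lit 2) (.n (nat_lit 95) (nat_lit 4) (.n (nat_lit 96) (nat_lit 4) (.n (nat_lit 97) (nat_lit 6) (.p (nat_lit 98) (nat_lit 2) .z))))) (.ct dr4_c516 (nat_lit 8) (nat_lit 3) (.s false (nat_lit 1) (nat_lit 6) (nat_lit 2) (nat_lit 4) (nat_lit 0) true (nat_lit 3) true (nat_lit 5) true (nat_lit 2) true (nat_lit 4) true (nat_lit 3) (.s false (nat_lit 1) (nat_lit 16) (nat_lit 0) (nat_lit 0) (nat_lit 2) true (nat_lit 3) true (nat_lit 4) false (nat_lit 1) true (nat_lit 5) true (nat_lit 5) (.e true (nat_lit 8) (nat_lit 66) (nat_lit 0) (nat_lit 5) (.e true (nat_lit 12) (nat_lit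 67) (nat_lit 0) (nat_lit 5) (.e false (nat_lit 4) (nat_lit 22) (nat_lit 6) (nat_lit 2) (.e false (nat_lit 4) (nat_lit 49) (nat_lit 2) (nat_lit 4) (.e true (nat_lit 8) (nat_lit 51) (nat_lit 2) (nat_lit 4) .nil)))))))) .leaf)) (nat_lit 31749) (nat_lit 193) (.n (nat_lit 99) (nat_lit 8) (.n (nat_lit 100) (nat_lit 8) (.p (nat_lit 103) (nat_lit 8) (.n (nat_lit 104) (nat_lit 8) (.p (nat_lit 107) (nat_lit 4) (.n (nat_lit 108) (nat_lit 4) (.n (nat_lit 109) (nat_lit 4) (.n (nat_lit 110) (nat_lit 8) (.n (nat_lit 111) (nat_lit 8) (.p (nat_lit 112) (nat_lit 4) .z)))))))))) (.ct dr4_c276 (nat_lit 4) (nat_lit 3) (.s true (nat_lit 1) (nat_lit 13) (nat_lit 1) (nat_lit 2) (nat_lit 2) true (nat_lit 3) true (nat_lit 6) true (nat_lit 0) true (nat_lit 7) true (nat_lit 6) (.s true (nat_lit 1) (nat_lit 13) (nat_lit 2) (nat_lit 1) (nat_lit 2) true (nat_lit 2) true (nat_lit 6) true (nat_lit 0) true (nat_lit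 6) true (nat_lit 7) (.e true (nat_lit 8) (nat_lit 57) (nat_lit 2) (nat_lit 6) (.e false (nat_lit 4) (nat_lit 65) (nat_lit 1) (nat_lit 7) (.e false (nat_lit 8) (nat_lit 66) (nat_lit 1) (nat_lit 7) (.e true (nat_lit 8) (nat_lit 59) (nat_lit 2) (nat_lit 6) (.e false (nat_lit 4) (nat_lit 28) (nat_lit 6) (nat_lit 2) (.e false (nat_lit 8) (nat_lit 53) (nat_lit 2) (nat_lit 6) (.e false (nat_lit 8) (nat_lit 54) (nat_lit 2) (nat_lit 6) (.e false (nat_lit 8) (nat_lit 58) (nat_lit 2) (nat_lit 6) (.e true (nat_lit 4) (nat_lit 61) (nat_lit 2) (nat_lit 6) (.e true (nat_lit 4) (nat_lit 62) (nat_lit 2) (nat_lit 6) .nil))))))))))))) (.nd (.nd .leaf (nat_lit 32768) (nat_lit 66) (.p (nat_lit 52) (nat_lit 4) .z) .df .leaf) (nat_lit 32769) (nat_lit 78) (.p (nat_lit 60) (nat_lit 4) .z) .df .leaf)) (nat_lit 32770) (nat_lit 93) (.p (nat_lit 66) (nat_lit 4) .z) .df (.nd (.nd (.nd .leaf (nat_lit 32771) (nat_lit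 147) (.n (nat_lit 72) (nat_lit 60) (.p (nat_lit 73) (nat_lit 12) (.p (nat_lit 74) (nat_lit 24) (.p (nat_lit 75) (nat_lit 96) (.p (nat_lit 76) (nat_lit 52) (.n (nat_lit 77) (nat_lit 28) (.n (nat_lit 78) (nat_lit 52) (.n (nat_lit 79) (nat_lit 48) (.p (nat_lit 80) (nat_lit 124) (.p (nat_lit 81) (nat_lit 20) (.n (nat_lit 82) (nat_lit 8) (.n (nat_lit 83) (nat_lit 32) (.n (nat_lit 84) (nat_lit 40) (.p (nat_lit 85) (nat_lit 20) (.n (nat_lit 86) (nat_lit 4) (.p (nat_lit 87) (nat_lit 40) (.n (nat_lit 88) (nat_lit 40) (.n (nat_lit 89) (nat_lit 4) (.p (nat_lit 90) (nat_lit 40) (.p (nat_lit 91) (nat_lit 16) (.p (nat_lit 92) (nat_lit 28) .z))))))))))))))))))))) (.ct dr4_c531 (nat_lit 4) (nat_lit 6) (.s true (nat_lit 1) (nat_lit 16) (nat_lit 0) (nat_lit 0) (nat_lit 1) true (nat_lit 6) true (nat_lit 8) false (nat_lit 2) true (nat_lit 9) true (nat_lit 9) (.e true (nat_lit 4) (nat_lit 52) (nat_lit 1)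 (nat_lit 8) (.e false (nat_lit 8) (nat_lit 55) (nat_lit 0) (nat_lit 9) (.e false (nat_lit 8) (nat_lit 58) (nat_lit 0) (nat_lit 9) (.e false (nat_lit 4) (nat_lit 62) (nat_lit 0) (nat_lit 9) (.e true (nat_lit 4) (nat_lit 59) (nat_lit 0) (nat_lit 9) (.e true (nat_lit 4) (nat_lit 60) (nat_lit 0) (nat_lit 9) (.e true (nat_lit 4) (nat_lit 61) (nat_lit 0) (nat_lit 9) .nil))))))))) .leaf) (nat_lit 32772) (nat_lit 164) (.n (nat_lit 94) (nat_lit 2) (.n (nat_lit 96) (nat_lit 4) (.p (nat_lit 97) (nat_lit 2) (.p (nat_lit 98) (nat_lit 2) .z)))) (.ct dr4_c516 (nat_lit 4) (nat_lit 3) (.s true (nat_lit 1) (nat_lit 16) (nat_lit 0) (nat_lit 0) (nat_lit 2) true (nat_lit 3) true (nat_lit 4) false (nat_lit 1) true (nat_lit 5) true (nat_lit 5) (.e true (nat_lit 4) (nat_lit 52) (nat_lit 2) (nat_lit 4) (.e false (nat_lit 4) (nat_lit 66) (nat_lit 0) (nat_lit 5) (.e false (nat_lit 8) (nat_lit 67) (nat_lit 0)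 (nat_lit 5) .nil))))) .leaf) (nat_lit 32773) (nat_lit 185) (.p (nat_lit 114) (nat_lit 4) .z) .df (.nd (.nd .leaf (nat_lit 33792) (nat_lit 90) (.n (nat_lit 53) (nat_lit 4) (.n (nat_lit 54) (nat_lit 8) (.p (nat_lit 55) (nat_lit 4) (.n (nat_lit 56) (nat_lit 4) (.n (nat_lit 58) (nat_lit 4) (.p (nat_lit 59) (nat_lit 4) (.p (nat_lit 60) (nat_lit 4) (.p (nat_lit 61) (nat_lit 4) (.p (nat_lit 62) (nat_lit 4) (.n (nat_lit 63) (nat_lit 4) .z)))))))))) (.ct dr4_c275 (nat_lit 4) (nat_lit 6) (.s true (nat_lit 1) (nat_lit 5) (nat_lit 2) (nat_lit 0) (nat_lit 2) true (nat_lit 0) true (nat_lit 4) true (nat_lit 1) true (nat_lit 4) true (nat_lit 6) (.e false (nat_lit 4) (nat_lit 11) (nat_lit 6) (nat_lit 0) (.e true (nat_lit 8) (nat_lit 29) (nat_lit 2) (nat_lit 4) (.e true (nat_lit 4) (nat_lit 12) (nat_lit 5) (nat_lit 1) (.e true (nat_lit 4) (nat_lit 24) (nat_lit 2) (nat_lit 4) (.e true (nat_lit 4) (nat_lit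 25) (nat_lit 2) (nat_lit 4) (.e false (nat_lit 4) (nat_lit 28) (nat_lit 2) (nat_lit 4) .nil)))))))) .leaf) (nat_lit 33794) (nat_lit 98) (.p (nat_lit 68) (nat_lit 4) .z) .df .leaf))) (nat_lit 33796) (nat_lit 201) (.n (nat_lit 99) (nat_lit 4) (.p (nat_lit 100) (nat_lit 4) (.n (nat_lit 101) (nat_lit 4) (.p (nat_lit 102) (nat_lit 8) (.p (nat_lit 103) (nat_lit 4) (.n (nat_lit 104) (nat_lit 8) (.n (nat_lit 105) (nat_lit 2) (.n (nat_lit 106) (nat_lit 6) (.n (nat_lit 107) (nat_lit 2) (.p (nat_lit 109) (nat_lit 6) (.p (nat_lit 110) (nat_lit 6) (.p (nat_lit 111) (nat_lit 6) (.n (nat_lit 112) (nat_lit 6) (.n (nat_lit 113) (nat_lit 4) (.n (nat_lit 114) (nat_lit 6) .z))))))))))))))) (.ct dr4_c276 (nat_lit 4) (nat_lit 4) (.s true (nat_lit 1) (nat_lit 5) (nat_lit 2) (nat_lit 2) (nat_lit 4) true (nat_lit 0) true (nat_lit 4) true (nat_lit 3) true (nat_lit 6) true (nat_lit 6) (.e true (nat_lit 4) (nat_lit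 14) (nat_lit 12) (nat_lit 0) (.e true (nat_lit 4) (nat_lit 31) (nat_lit 5) (nat_lit 3) (.e true (nat_lit 4) (nat_lit 32) (nat_lit 5) (nat_lit 3) (.e true (nat_lit 4) (nat_lit 63) (nat_lit 2) (nat_lit 6) (.e true (nat_lit 4) (nat_lit 53) (nat_lit 2) (nat_lit 6) (.e true (nat_lit 4) (nat_lit 54) (nat_lit 2) (nat_lit 6) (.e false (nat_lit 4) (nat_lit 57) (nat_lit 2) (nat_lit 6) (.e true (nat_lit 4) (nat_lit 58) (nat_lit 2) (nat_lit 6) .nil)))))))))) (.nd (.nd (.nd (.nd .leaf (nat_lit 34816) (nat_lit 79) (.p (nat_lit 61) (nat_lit 4) .z) .df .leaf) (nat_lit 34818) (nat_lit 99) (.p (nat_lit 69) (nat_lit 4) .z) .df (.nd .leaf (nat_lit 34820) (nat_lit 191) (.n (nat_lit 99) (nat_lit 8) (.n (nat_lit 100) (nat_lit 8) (.p (nat_lit 103) (nat_lit 8) (.n (nat_lit 104) (nat_lit 8) (.p (nat_lit 105) (nat_lit 4) (.p (nat_lit 108) (nat_lit 4) (.p (nat_lit 110) (nat_lit 4) (.p (nat_lit 111) (nat_lit 8)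 (.n (nat_lit 112) (nat_lit 4) .z))))))))) (.ct dr4_c276 (nat_lit 4) (nat_lit 4) (.s false (nat_lit 1) (nat_lit 6) (nat_lit 0) (nat_lit 6) (nat_lit 1) true (nat_lit 5) true (nat_lit 7) true (nat_lit 2) true (nat_lit 8) true (nat_lit 2) (.s false (nat_lit 1) (nat_lit 6) (nat_lit 1) (nat_lit 0) (nat_lit 6) false (nat_lit 0) true (nat_lit 2) true (nat_lit 2) true (nat_lit 7) true (nat_lit 8) (.s false (nat_lit 1) (nat_lit 6) (nat_lit 2) (nat_lit 2) (nat_lit 3) true (nat_lit 1) true (nat_lit 5) true (nat_lit 2) true (nat_lit 6) true (nat_lit 6) (.s true (nat_lit 1) (nat_lit 15) (nat_lit 2) (nat_lit 2) (nat_lit 0) true (nat_lit 4) true (nat_lit 8) false (nat_lit 0) true (nat_lit 6) true (nat_lit 6) (.s false (nat_lit 1) (nat_lit 16) (nat_lit 0) (nat_lit 1) (nat_lit 2) true (nat_lit 4) true (nat_lit 6) false (nat_lit 1) true (nat_lit 8) true (nat_lit 7) (.s false (nat_lit 1) (nat_lit 16) (nat_lit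 1) (nat_lit 2) (nat_lit 0) true (nat_lit 5) true (nat_lit 8) false (nat_lit 1) true (nat_lit 7) true (nat_lit 6) (.s false (nat_lit 1) (nat_lit 16) (nat_lit 2) (nat_lit 1) (nat_lit 0) true (nat_lit 4) true (nat_lit 8) false (nat_lit 1) true (nat_lit 6) true (nat_lit 7) (.e true (nat_lit 4) (nat_lit 28) (nat_lit 6) (nat_lit 2) (.e false (nat_lit 4) (nat_lit 69) (nat_lit 0) (nat_lit 8) (.e false (nat_lit 8) (nat_lit 70) (nat_lit 0) (nat_lit 8) (.e false (nat_lit 4) (nat_lit 62) (nat_lit 2) (nat_lit 6) (.e true (nat_lit 8) (nat_lit 54) (nat_lit 2) (nat_lit 6) (.e true (nat_lit 8) (nat_lit 58) (nat_lit 2) (nat_lit 6) (.e false (nat_lit 8) (nat_lit 57) (nat_lit 2) (nat_lit 6) (.e false (nat_lit 4) (nat_lit 59) (nat_lit 2) (nat_lit 6) (.e true (nat_lit 8) (nat_lit 53) (nat_lit 2) (nat_lit 6) .nil))))))))))))))))) .leaf)) (nat_lit 35840) (nat_lit 83) (.p (nat_lit 54) (nat_lit 4) (.p (nat_lit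 55) (nat_lit 4) (.p (nat_lit 56) (nat_lit 4) (.p (nat_lit 58) (nat_lit 4) (.n (nat_lit 59) (nat_lit 4) (.n (nat_lit 60) (nat_lit 4) (.n (nat_lit 61) (nat_lit 4) .z))))))) (.ct dr4_c275 (nat_lit 4) (nat_lit 6) (.s false (nat_lit 1) (nat_lit 4) (nat_lit 1) (nat_lit 2) (nat_lit 2) true (nat_lit 1) true (nat_lit 4) true (nat_lit 2) true (nat_lit 5) true (nat_lit 4) (.s false (nat_lit 1) (nat_lit 5) (nat_lit 0) (nat_lit 2) (nat_lit 2) true (nat_lit 2) true (nat_lit 4) true (nat_lit 1) true (nat_lit 6) true (nat_lit 4) (.e false (nat_lit 4) (nat_lit 25) (nat_lit 2) (nat_lit 4) (.e true (nat_lit 4) (nat_lit 31) (nat_lit 1) (nat_lit 5) (.e true (nat_lit 4) (nat_lit 32) (nat_lit 1) (nat_lit 5) (.e false (nat_lit 4) (nat_lit 27) (nat_lit 2) (nat_lit 4) (.e false (nat_lit 4) (nat_lit 26) (nat_lit 2) (nat_lit 4) (.e true (nat_lit 4) (nat_lit 34) (nat_lit 0) (nat_lit 6) (.e false (nat_lit 4) (nat_lit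 29) (nat_lit 2) (nat_lit 4) .nil)))))))))) (.nd (.nd .leaf (nat_lit 35842) (nat_lit 100) (.p (nat_lit 70) (nat_lit 4) .z) .df .leaf) (nat_lit 35844) (nat_lit 186) (.p (nat_lit 99) (nat_lit 8) (.n (nat_lit 100) (nat_lit 4) (.p (nat_lit 101) (nat_lit 4) (.n (nat_lit 102) (nat_lit 12) (.n (nat_lit 103) (nat_lit 8) (.p (nat_lit 104) (nat_lit 12) (.p (nat_lit 106) (nat_lit 8) (.n (nat_lit 109) (nat_lit 4) (.n (nat_lit 110) (nat_lit 4) (.n (nat_lit 111) (nat_lit 8) (.p (nat_lit 112) (nat_lit 8) (.p (nat_lit 114) (nat_lit 4) .z)))))))))))) (.ct dr4_c276 (nat_lit 8) (nat_lit 4) (.s true (nat_lit 1) (nat_lit 6) (nat_lit 0) (nat_lit 6) (nat_lit 1) true (nat_lit 5) true (nat_lit 7) true (nat_lit 2) true (nat_lit 8) true (nat_lit 2) (.s true (nat_lit 2) (nat_lit 6) (nat_lit 1) (nat_lit 4) (nat_lit 2) true (nat_lit 3) true (nat_lit 6) true (nat_lit 2) true (nat_lit 7) true (nat_lit 4) (.s false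 (nat_lit 1) (nat_lit 6) (nat_lit 2) (nat_lit 2) (nat_lit 3) true (nat_lit 1) true (nat_lit 5) true (nat_lit 2) true (nat_lit 6) true (nat_lit 6) (.s false (nat_lit 2) (nat_lit 6) (nat_lit 3) (nat_lit 2) (nat_lit 2) true (nat_lit 1) true (nat_lit 6) true (nat_lit 2) true (nat_lit 5) true (nat_lit 6) (.s true (nat_lit 2) (nat_lit 11) (nat_lit 2) (nat_lit 2) (nat_lit 2) true (nat_lit 2) true (nat_lit 6) true (nat_lit 1) true (nat_lit 6) true (nat_lit 6) (.s true (nat_lit 2) (nat_lit 13) (nat_lit 1) (nat_lit 2) (nat_lit 2) true (nat_lit 3) true (nat_lit 6) true (nat_lit 0) true (nat_lit 7) true (nat_lit 6) (.s true (nat_lit 2) (nat_lit 13) (nat_lit 2) (nat_lit 1) (nat_lit 2) true (nat_lit 2) true (nat_lit 6) true (nat_lit 0) true (nat_lit 6) true (nat_lit 7) (.s false (nat_lit 3) (nat_lit 16) (nat_lit 0) (nat_lit 1) (nat_lit 2) true (nat_lit 4) true (nat_lit 6) false (nat_lit 1) true (nat_lit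 8) true (nat_lit 7) (.s false (nat_lit 1) (nat_lit 16) (nat_lit 1) (nat_lit 2) (nat_lit 0) true (nat_lit 5) true (nat_lit 8) false (nat_lit 1) true (nat_lit 7) true (nat_lit 6) (.s false (nat_lit 3) (nat_lit 16) (nat_lit 2) (nat_lit 1) (nat_lit 0) true (nat_lit 4) true (nat_lit 8) false (nat_lit 1) true (nat_lit 6) true (nat_lit 7) (.e true (nat_lit 8) (nat_lit 65) (nat_lit 1) (nat_lit 7) (.e false (nat_lit 16) (nat_lit 28) (nat_lit 6) (nat_lit 2) (.e true (nat_lit 8) (nat_lit 69) (nat_lit 0) (nat_lit 8) (.e true (nat_lit 16) (nat_lit 70) (nat_lit 0) (nat_lit 8) (.e false (nat_lit 8) (nat_lit 32) (nat_lit 5) (nat_lit 3) (.e true (nat_lit 8) (nat_lit 54) (nat_lit 2) (nat_lit 6) (.e false (nat_lit 8) (nat_lit 55) (nat_lit 2) (nat_lit 6) (.e true (nat_lit 24) (nat_lit 56) (nat_lit 2) (nat_lit 6) (.e true (nat_lit 16) (nat_lit 57) (nat_lit 2) (nat_lit 6) (.e false (nat_lit 24) (nat_lit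 58) (nat_lit 2) (nat_lit 6) (.e false (nat_lit 16) (nat_lit 60) (nat_lit 2) (nat_lit 6) (.e false (nat_lit 16) (nat_lit 53) (nat_lit 2) (nat_lit 6) .nil))))))))))))))))))))))) .leaf)) (nat_lit 36864) (nat_lit 94) (.p (nat_lit 67) (nat_lit 4) .z) .df (.nd (.nd (.nd .leaf (nat_lit 36865) (nat_lit 101) (.p (nat_lit 71) (nat_lit 4) .z) .df .leaf) (nat_lit 36867) (nat_lit 204) (.p (nat_lit 100) (nat_lit 4) (.p (nat_lit 101) (nat_lit 4) (.p (nat_lit 102) (nat_lit 4) (.p (nat_lit 104) (nat_lit 4) (.n (nat_lit 105) (nat_lit 4) (.n (nat_lit 106) (nat_lit 8) (.n (nat_lit 107) (nat_lit 4) (.p (nat_lit 108) (nat_lit 4) (.p (nat_lit 109) (nat_lit 4) (.p (nat_lit 110) (nat_lit 4) (.p (nat_lit 111) (nat_lit 8) (.n (nat_lit 112) (nat_lit 4) .z)))))))))))) (.ct dr4_c276 (nat_lit 4) (nat_lit 5) (.s false (nat_lit 1) (nat_lit 16) (nat_lit 1) (nat_lit 2) (nat_lit 0) true (nat_lit 5) true (nat_lit 8) false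 (nat_lit 1) true (nat_lit 7) true (nat_lit 6) (.e false (nat_lit 4) (nat_lit 70) (nat_lit 0) (nat_lit 8) (.e false (nat_lit 4) (nat_lit 16) (nat_lit 11) (nat_lit 1) (.e false (nat_lit 4) (nat_lit 66) (nat_lit 1) (nat_lit 7) (.e false (nat_lit 4) (nat_lit 67) (nat_lit 1) (nat_lit 7) (.e true (nat_lit 4) (nat_lit 60) (nat_lit 2) (nat_lit 6) .nil))))))) .leaf) (nat_lit 37890) (nat_lit 129) (.n (nat_lit 73) (nat_lit 4) (.p (nat_lit 74) (nat_lit 2) (.n (nat_lit 75) (nat_lit 10) (.n (nat_lit 76) (nat_lit 6) (.n (nat_lit 77) (nat_lit 2) (.p (nat_lit 78) (nat_lit 4) (.p (nat_lit 79) (nat_lit 6) (.n (nat_lit 80) (nat_lit 4) (.n (nat_lit 82) (nat_lit 6) (.p (nat_lit 83) (nat_lit 8) (.p (nat_lit 84) (nat_lit 12) (.p (nat_lit 85) (nat_lit 10) (.p (nat_lit 86) (nat_lit 14) (.n (nat_lit 87) (nat_lit 2) (.p (nat_lit 88) (nat_lit 4) (.n (nat_lit 89) (nat_lit 12) (.p (nat_lit 90) (nat_lit 8) (.n (nat_lit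 91) (nat_lit 2) .z)))))))))))))))))) (.ct dr4_c531 (nat_lit 4) (nat_lit 7) (.s false (nat_lit 1) (nat_lit 4) (nat_lit 1) (nat_lit 2) (nat_lit 4) true (nat_lit 0) true (nat_lit 5) true (nat_lit 5) true (nat_lit 8) true (nat_lit 7) (.s true (nat_lit 1) (nat_lit 4) (nat_lit 1) (nat_lit 4) (nat_lit 2) true (nat_lit 4) true (nat_lit 7) true (nat_lit 5) true (nat_lit 8) true (nat_lit 5) (.s false (nat_lit 1) (nat_lit 5) (nat_lit 0) (nat_lit 4) (nat_lit 2) true (nat_lit 5) true (nat_lit 7) true (nat_lit 4) true (nat_lit 9) true (nat_lit 5) (.s true (nat_lit 1) (nat_lit 5) (nat_lit 4) (nat_lit 0) (nat_lit 2) false (nat_lit 0) true (nat_lit 7) true (nat_lit 4) true (nat_lit 5) true (nat_lit 9) (.s true (nat_lit 1) (nat_lit 6) (nat_lit 0) (nat_lit 5) (nat_lit 0) false (nat_lit 10) true (nat_lit 9) true (nat_lit 3) true (nat_lit 9) true (nat_lit 4) (.s false (nat_lit 1) (nat_lit 8) (nat_lit 2)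 (nat_lit 2) (nat_lit 1) true (nat_lit 4) true (nat_lit 8) true (nat_lit 1) true (nat_lit 7) true (nat_lit 7) (.s false (nat_lit 1) (nat_lit 9) (nat_lit 0) (nat_lit 2) (nat_lit 2) true (nat_lit 5) true (nat_lit 7) true (nat_lit 0) true (nat_lit 9) true (nat_lit 7) (.s false (nat_lit 1) (nat_lit 11) (nat_lit 2) (nat_lit 0) (nat_lit 2) true (nat_lit 3) true (nat_lit 7) true (nat_lit 0) true (nat_lit 7) true (nat_lit 9) (.s false (nat_lit 1) (nat_lit 12) (nat_lit 0) (nat_lit 1) (nat_lit 2) true (nat_lit 5) true (nat_lit 7) false (nat_lit 0) true (nat_lit 9) true (nat_lit 8) (.s false (nat_lit 1) (nat_lit 12) (nat_lit 2) (nat_lit 0) (nat_lit 1) true (nat_lit 4) true (nat_lit 8) false (nat_lit 0) true (nat_lit 7) true (nat_lit 9) (.s true (nat_lit 1) (nat_lit 15) (nat_lit 0) (nat_lit 2) (nat_lit 0) false (nat_lit 10) true (nat_lit 9) false (nat_lit 1) true (nat_lit 9) true (nat_lit 7) (.e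 false (nat_lit 4) (nat_lit 25) (nat_lit 4) (nat_lit 5) (.e false (nat_lit 4) (nat_lit 28) (nat_lit 4) (nat_lit 5) (.e false (nat_lit 4) (nat_lit 48) (nat_lit 1) (nat_lit 8) (.e true (nat_lit 4) (nat_lit 42) (nat_lit 2) (nat_lit 7) (.e false (nat_lit 4) (nat_lit 43) (nat_lit 2) (nat_lit 7) (.e false (nat_lit 4) (nat_lit 45) (nat_lit 2) (nat_lit 7) (.e false (nat_lit 4) (nat_lit 46) (nat_lit 2) (nat_lit 7) (.e false (nat_lit 4) (nat_lit 63) (nat_lit 0) (nat_lit 9) (.e true (nat_lit 4) (nat_lit 56) (nat_lit 0) (nat_lit 9) (.e true (nat_lit 4) (nat_lit 59) (nat_lit 0) (nat_lit 9) (.e true (nat_lit 4) (nat_lit 58) (nat_lit 0) (nat_lit 9) .nil))))))))))))))))))))))) (.nd (.nd .leaf (nat_lit 38914) (nat_lit 130) (.p (nat_lit 72) (nat_lit 28) (.n (nat_lit 73) (nat_lit 8) (.n (nat_lit 74) (nat_lit 12) (.n (nat_lit 75) (nat_lit 58) (.n (nat_lit 76) (nat_lit 26) (.p (nat_lit 77) (nat_lit 10) (.p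 (nat_lit 78) (nat_lit 32) (.p (nat_lit 79) (nat_lit 28) (.n (nat_lit 80) (nat_lit 68) (.n (nat_lit 81) (nat_lit 12) (.p (nat_lit 83) (nat_lit 22) (.p (nat_lit 84) (nat_lit 32) (.n (nat_lit 85) (nat_lit 6) (.p (nat_lit 86) (nat_lit 10) (.n (nat_lit 87) (nat_lit 22) (.p (nat_lit 88) (nat_lit 24) (.n (nat_lit 89) (nat_lit 6) (.n (nat_lit 90) (nat_lit 16) (.n (nat_lit 91) (nat_lit 8) (.n (nat_lit 92) (nat_lit 16) .z)))))))))))))))))))) (.ct dr4_c531 (nat_lit 8) (nat_lit 7) (.s false (nat_lit 2) (nat_lit 4) (nat_lit 1) (nat_lit 2) (nat_lit 4) true (nat_lit 0) true (nat_lit 5) true (nat_lit 5) true (nat_lit 8) true (nat_lit 7) (.s true (nat_lit 1) (nat_lit 4) (nat_lit 1) (nat_lit 4) (nat_lit 2) true (nat_lit 4) true (nat_lit 7) true (nat_lit 5) true (nat_lit 8) true (nat_lit 5) (.s true (nat_lit 1) (nat_lit 4) (nat_lit 2) (nat_lit 1) (nat_lit 4) false (nat_lit 0) true (nat_lit 5) true (nat_lit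 5) true (nat_lit 7) true (nat_lit 8) (.s true (nat_lit 1) (nat_lit 5) (nat_lit 4) (nat_lit 0) (nat_lit 2) false (nat_lit 0) true (nat_lit 7) true (nat_lit 4) true (nat_lit 5) true (nat_lit 9) (.s true (nat_lit 1) (nat_lit 6) (nat_lit 0) (nat_lit 5) (nat_lit 0) false (nat_lit 10) true (nat_lit 9) true (nat_lit 3) true (nat_lit 9) true (nat_lit 4) (.s false (nat_lit 2) (nat_lit 6) (nat_lit 2) (nat_lit 3) (nat_lit 0) true (nat_lit 5) true (nat_lit 9) true (nat_lit 3) true (nat_lit 7) true (nat_lit 6) dr4_i1))))))) .leaf) (nat_lit 39938) (nat_lit 105) (.p (nat_lit 72) (nat_lit 4) .z) .df .leaf))))) (nat_lit 40962) (nat_lit 106) (.p (nat_lit 73) (nat_lit 4) .z) .df (.nd (.nd (.nd (.nd (.nd (.nd .leaf (nat_lit 41986) (nat_lit 107) (.p (nat_lit 74) (nat_lit 4) .z) .df .leaf) (nat_lit 43010) (nat_lit 108) (.p (nat_lit 75) (nat_lit 4) .z) .df (.nd .leaf (nat_lit 44034) (nat_lit 109) (.p (nat_lit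 76) (nat_lit 4) .z) .df .leaf)) (nat_lit 45058) (nat_lit 110) (.p (nat_lit 77) (nat_lit 4) .z) .df (.nd (.nd .leaf (nat_lit 46082) (nat_lit 111) (.p (nat_lit 78) (nat_lit 4) .z) .df .leaf) (nat_lit 47106) (nat_lit 112) (.p (nat_lit 79) (nat_lit 4) .z) .df .leaf)) (nat_lit 48130) (nat_lit 113) (.p (nat_lit 80) (nat_lit 4) .z) .df (.nd (.nd (.nd .leaf (nat_lit 49153) (nat_lit 114) (.p (nat_lit 81) (nat_lit 4) .z) .df .leaf) (nat_lit 49154) (nat_lit 154) (.p (nat_lit 93) (nat_lit 4) .z) .df .leaf) (nat_lit 50177) (nat_lit 115) (.p (nat_lit 82) (nat_lit 4) .z) .df (.nd (.nd .leaf (nat_lit 50178) (nat_lit 155) (.p (nat_lit 94) (nat_lit 4) .z) .df .leaf) (nat_lit 51201) (nat_lit 146) (.p (nat_lit 72) (nat_lit 76) (.n (nat_lit 73) (nat_lit 24) (.n (nat_lit 74) (nat_lit 26) (.n (nat_lit 75) (nat_lit 148) (.n (nat_lit 76) (nat_lit 80) (.p (nat_lit 77) (nat_lit 32) (.p (nat_lit 78) (nat_lit 80)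 (.p (nat_lit 79) (nat_lit 74) (.n (nat_lit 80) (nat_lit 180) (.n (nat_lit 81) (nat_lit 24) (.p (nat_lit 82) (nat_lit 2) (.p (nat_lit 83) (nat_lit 50) (.p (nat_lit 84) (nat_lit 68) (.n (nat_lit 85) (nat_lit 16) (.p (nat_lit 86) (nat_lit 24) (.n (nat_lit 87) (nat_lit 52) (.p (nat_lit 88) (nat_lit 56) (.n (nat_lit 89) (nat_lit 14) (.n (nat_lit 90) (nat_lit 40) (.n (nat_lit 91) (nat_lit 18) (.n (nat_lit 92) (nat_lit 40) .z))))))))))))))))))))) (.ct dr4_c531 (nat_lit 4) (nat_lit 8) (.s true (nat_lit 1) (nat_lit 12) (nat_lit 2) (nat_lit 0) (nat_lit 1) true (nat_lit 4) true (nat_lit 8) false (nat_lit 0) true (nat_lit 7) true (nat_lit 9) (.e false (nat_lit 4) (nat_lit 22) (nat_lit 5) (nat_lit 4) (.e false (nat_lit 4) (nat_lit 12) (nat_lit 10) (nat_lit 0) (.e true (nat_lit 4) (nat_lit 37) (nat_lit 2) (nat_lit 7) (.e false (nat_lit 8) (nat_lit 38) (nat_lit 2) (nat_lit 7) (.e false (nat_lit 4)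 (nat_lit 39) (nat_lit 2) (nat_lit 7) (.e false (nat_lit 4) (nat_lit 41) (nat_lit 2) (nat_lit 7) (.e false (nat_lit 4) (nat_lit 42) (nat_lit 2) (nat_lit 7) (.e true (nat_lit 4) (nat_lit 43) (nat_lit 2) (nat_lit 7) (.e false (nat_lit 4) (nat_lit 44) (nat_lit 2) (nat_lit 7) (.e true (nat_lit 4) (nat_lit 45) (nat_lit 2) (nat_lit 7) (.e true (nat_lit 4) (nat_lit 46) (nat_lit 2) (nat_lit 7) (.e false (nat_lit 4) (nat_lit 47) (nat_lit 2) (nat_lit 7) (.e false (nat_lit 4) (nat_lit 56) (nat_lit 0) (nat_lit 9) .nil))))))))))))))) .leaf))) (nat_lit 51202) (nat_lit 165) (.p (nat_lit 93) (nat_lit 4) (.n (nat_lit 94) (nat_lit 2) (.n (nat_lit 95) (nat_lit 2) (.n (nat_lit 96) (nat_lit 14) (.n (nat_lit 97) (nat_lit 10) (.p (nat_lit 98) (nat_lit 4) .z)))))) (.ct dr4_c516 (nat_lit 8) (nat_lit 4) (.s false (nat_lit 1) (nat_lit 4) (nat_lit 2) (nat_lit 2) (nat_lit 4) true (nat_lit 0) true (nat_lit 3) true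 (nat_lit 3) true (nat_lit 4) true (nat_lit 4) (.s true (nat_lit 1) (nat_lit 12) (nat_lit 0) (nat_lit 2) (nat_lit 2) true (nat_lit 3) true (nat_lit 4) true (nat_lit 0) true (nat_lit 5) true (nat_lit 4) (.a false (nat_lit 16) (nat_lit 12) (nat_lit 12) (nat_lit 0) (nat_lit 0) (.e false (nat_lit 4) (nat_lit 31) (nat_lit 4) (nat_lit 3) (.e false (nat_lit 4) (nat_lit 32) (nat_lit 4) (nat_lit 3) (.e false (nat_lit 8) (nat_lit 48) (nat_lit 2) (nat_lit 4) (.e true (nat_lit 4) (nat_lit 52) (nat_lit 2) (nat_lit 4) (.e true (nat_lit 4) (nat_lit 49) (nat_lit 2) (nat_lit 4) (.e false (nat_lit 4) (nat_lit 65) (nat_lit 0) (nat_lit 5) (.e true (nat_lit 4) (nat_lit 67) (nat_lit 0) (nat_lit 5) .nil))))))))))) (.nd (.nd (.nd (.nd .leaf (nat_lit 52225) (nat_lit 116) (.p (nat_lit 83) (nat_lit 4) .z) .df .leaf) (nat_lit 52226) (nat_lit 156) (.p (nat_lit 95) (nat_lit 4) .z) .df (.nd .leaf (nat_lit 53249) (nat_lit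 117) (.p (nat_lit 84) (nat_lit 4) .z) .df .leaf)) (nat_lit 53250) (nat_lit 163) (.p (nat_lit 94) (nat_lit 2) (.p (nat_lit 96) (nat_lit 8) (.p (nat_lit 97) (nat_lit 6) (.n (nat_lit 98) (nat_lit 2) .z)))) (.ct dr4_c516 (nat_lit 8) (nat_lit 4) (.s true (nat_lit 1) (nat_lit 13) (nat_lit 2) (nat_lit 2) (nat_lit 0) true (nat_lit 3) true (nat_lit 5) true (nat_lit 0) true (nat_lit 4) true (nat_lit 4) (.a true (nat_lit 8) (nat_lit 13) (nat_lit 13) (nat_lit 0) (nat_lit 0) (.e true (nat_lit 4) (nat_lit 31) (nat_lit 4) (nat_lit 3) (.e true (nat_lit 4) (nat_lit 65) (nat_lit 0) (nat_lit 5) (.e false (nat_lit 8) (nat_lit 49) (nat_lit 2) (nat_lit 4) (.e true (nat_lit 4) (nat_lit 51) (nat_lit 2) (nat_lit 4) .nil))))))) (.nd (.nd .leaf (nat_lit 54272) (nat_lit 118) (.p (nat_lit 85) (nat_lit 4) .z) .df .leaf) (nat_lit 54274) (nat_lit 170) (.p (nat_lit 99) (nat_lit 4) .z) .df .leaf)) (nat_lit 55296) (nat_lit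 119) (.p (nat_lit 86) (nat_lit 4) .z) .df (.nd (.nd (.nd .leaf (nat_lit 55298) (nat_lit 171) (.p (nat_lit 100) (nat_lit 4) .z) .df .leaf) (nat_lit 56320) (nat_lit 120) (.p (nat_lit 87) (nat_lit 4) .z) .df .leaf) (nat_lit 56322) (nat_lit 172) (.p (nat_lit 101) (nat_lit 4) .z) .df (.nd (.nd .leaf (nat_lit 57344) (nat_lit 121) (.p (nat_lit 88) (nat_lit 4) .z) .df .leaf) (nat_lit 57346) (nat_lit 173) (.p (nat_lit 102) (nat_lit 4) .z) .df .leaf)))) (nat_lit 58368) (nat_lit 122) (.p (nat_lit 89) (nat_lit 4) .z) .df (.nd (.nd (.nd (.nd (.nd .leaf (nat_lit 58370) (nat_lit 174) (.p (nat_lit 103) (nat_lit 4) .z) .df .leaf) (nat_lit 59392) (nat_lit 123) (.p (nat_lit 90) (nat_lit 4) .z) .df (.nd .leaf (nat_lit 59394) (nat_lit 175) (.p (nat_lit 104) (nat_lit 4) .z) .df .leaf)) (nat_lit 60416) (nat_lit 124) (.p (nat_lit 91) (nat_lit 4) .z) .df (.nd (.nd .leaf (nat_lit 60418) (nat_lit 176) (.p (nat_lit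 105) (nat_lit 4) .z) .df .leaf) (nat_lit 61440) (nat_lit 134) (.p (nat_lit 72) (nat_lit 8) (.n (nat_lit 74) (nat_lit 4) (.n (nat_lit 75) (nat_lit 8) (.n (nat_lit 76) (nat_lit 4) (.p (nat_lit 77) (nat_lit 4) (.p (nat_lit 78) (nat_lit 4) (.p (nat_lit 79) (nat_lit 4) (.n (nat_lit 80) (nat_lit 12) (.p (nat_lit 82) (nat_lit 4) (.n (nat_lit 84) (nat_lit 4) (.n (nat_lit 85) (nat_lit 8) (.n (nat_lit 86) (nat_lit 4) (.n (nat_lit 87) (nat_lit 4) (.p (nat_lit 88) (nat_lit 4) (.p (nat_lit 89) (nat_lit 8) (.n (nat_lit 90) (nat_lit 12) (.n (nat_lit 91) (nat_lit 4) .z))))))))))))))))) (.ct dr4_c531 (nat_lit 4) (nat_lit 9) (.s false (nat_lit 1) (nat_lit 4) (nat_lit 1) (nat_lit 2) (nat_lit 4) true (nat_lit 0) true (nat_lit 5) true (nat_lit 5) true (nat_lit 8) true (nat_lit 7) (.s false (nat_lit 1) (nat_lit 5) (nat_lit 0) (nat_lit 4) (nat_lit 2) true (nat_lit 5) true (nat_lit 7) true (nat_lit 4) true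 (nat_lit 9) true (nat_lit 5) (.s true (nat_lit 1) (nat_lit 5) (nat_lit 2) (nat_lit 0) (nat_lit 4) false (nat_lit 0) true (nat_lit 5) true (nat_lit 4) true (nat_lit 7) true (nat_lit 9) (.s true (nat_lit 1) (nat_lit 6) (nat_lit 0) (nat_lit 5) (nat_lit 0) false (nat_lit 10) true (nat_lit 9) true (nat_lit 3) true (nat_lit 9) true (nat_lit 4) (.s false (nat_lit 1) (nat_lit 11) (nat_lit 2) (nat_lit 0) (nat_lit 2) true (nat_lit 3) true (nat_lit 7) true (nat_lit 0) true (nat_lit 7) true (nat_lit 9) (.s false (nat_lit 1) (nat_lit 12) (nat_lit 2) (nat_lit 0) (nat_lit 1) true (nat_lit 4) true (nat_lit 8) false (nat_lit 0) true (nat_lit 7) true (nat_lit 9) (.e false (nat_lit 4) (nat_lit 25) (nat_lit 4) (nat_lit 5) (.e false (nat_lit 4) (nat_lit 48) (nat_lit 1) (nat_lit 8) (.e true (nat_lit 4) (nat_lit 52) (nat_lit 1) (nat_lit 8) (.e true (nat_lit 4) (nat_lit 37) (nat_lit 2) (nat_lit 7) (.e false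 (nat_lit 4) (nat_lit 43) (nat_lit 2) (nat_lit 7) (.e false (nat_lit 4) (nat_lit 47) (nat_lit 2) (nat_lit 7) (.e false (nat_lit 4) (nat_lit 63) (nat_lit 0) (nat_lit 9) (.e true (nat_lit 4) (nat_lit 53) (nat_lit 0) (nat_lit 9) (.e false (nat_lit 4) (nat_lit 57) (nat_lit 0) (nat_lit 9) (.e true (nat_lit 8) (nat_lit 58) (nat_lit 0) (nat_lit 9) (.e true (nat_lit 4) (nat_lit 59) (nat_lit 0) (nat_lit 9) .nil)))))))))))))))))) .leaf)) (nat_lit 61442) (nat_lit 177) (.p (nat_lit 106) (nat_lit 4) .z) .df (.nd (.nd (.nd .leaf (nat_lit 62464) (nat_lit 137) (.p (nat_lit 72) (nat_lit 56) (.n (nat_lit 73) (nat_lit 16) (.n (nat_lit 74) (nat_lit 20) (.n (nat_lit 75) (nat_lit 104) (.n (nat_lit 76) (nat_lit 56) (.p (nat_lit 77) (nat_lit 24) (.p (nat_lit 78) (nat_lit 56) (.p (nat_lit 79) (nat_lit 52) (.n (nat_lit 80) (nat_lit 128) (.n (nat_lit 81) (nat_lit 24) (.p (nat_lit 83) (nat_lit 40) (.p (nat_lit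 84) (nat_lit 56) (.n (nat_lit 85) (nat_lit 8) (.p (nat_lit 86) (nat_lit 20) (.n (nat_lit 87) (nat_lit 36) (.p (nat_lit 88) (nat_lit 44) (.n (nat_lit 89) (nat_lit 12) (.n (nat_lit 90) (nat_lit 20) (.n (nat_lit 91) (nat_lit 16) (.n (nat_lit 92) (nat_lit 32) .z)))))))))))))))))))) (.ct dr4_c531 (nat_lit 4) (nat_lit 9) (.s false (nat_lit 1) (nat_lit 14) (nat_lit 0) (nat_lit 0) (nat_lit 2) true (nat_lit 5) true (nat_lit 7) false (nat_lit 1) true (nat_lit 9) true (nat_lit 9) (.e false (nat_lit 4) (nat_lit 29) (nat_lit 4) (nat_lit 5) (.e false (nat_lit 4) (nat_lit 47) (nat_lit 2) (nat_lit 7) (.e false (nat_lit 12) (nat_lit 54) (nat_lit 0) (nat_lit 9) (.e false (nat_lit 8) (nat_lit 56) (nat_lit 0) (nat_lit 9) (.e true (nat_lit 8) (nat_lit 59) (nat_lit 0) (nat_lit 9) (.e true (nat_lit 8) (nat_lit 60) (nat_lit 0) (nat_lit 9) (.e false (nat_lit 8) (nat_lit 63) (nat_lit 0) (nat_lit 9) (.e false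 (nat_lit 4) (nat_lit 53) (nat_lit 0) (nat_lit 9) (.e true (nat_lit 4) (nat_lit 55) (nat_lit 0) (nat_lit 9) (.e false (nat_lit 4) (nat_lit 58) (nat_lit 0) (nat_lit 9) (.e true (nat_lit 4) (nat_lit 62) (nat_lit 0) (nat_lit 9) .nil))))))))))))) .leaf) (nat_lit 62466) (nat_lit 178) (.p (nat_lit 107) (nat_lit 4) .z) .df .leaf) (nat_lit 63488) (nat_lit 132) (.p (nat_lit 72) (nat_lit 4) (.n (nat_lit 73) (nat_lit 4) (.n (nat_lit 75) (nat_lit 16) (.n (nat_lit 76) (nat_lit 8) (.p (nat_lit 78) (nat_lit 8) (.p (nat_lit 79) (nat_lit 8) (.n (nat_lit 80) (nat_lit 16) (.n (nat_lit 81) (nat_lit 4) (.n (nat_lit 82) (nat_lit 4) (.p (nat_lit 83) (nat_lit 8) (.p (nat_lit 84) (nat_lit 16) (.p (nat_lit 85) (nat_lit 4) (.p (nat_lit 86) (nat_lit 12) (.n (nat_lit 87) (nat_lit 8) (.p (nat_lit 88) (nat_lit 8) (.n (nat_lit 89) (nat_lit 8) (.n (nat_lit 92) (nat_lit 4) .z))))))))))))))))) (.ct dr4_c531 (nat_lit 4)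 (nat_lit 9) (.s false (nat_lit 1) (nat_lit 4) (nat_lit 1) (nat_lit 2) (nat_lit 4) true (nat_lit 0) true (nat_lit 5) true (nat_lit 5) true (nat_lit 8) true (nat_lit 7) (.s true (nat_lit 1) (nat_lit 4) (nat_lit 1) (nat_lit 4) (nat_lit 2) true (nat_lit 4) true (nat_lit 7) true (nat_lit 5) true (nat_lit 8) true (nat_lit 5) (.s true (nat_lit 1) (nat_lit 5) (nat_lit 4) (nat_lit 0) (nat_lit 2) false (nat_lit 0) true (nat_lit 7) true (nat_lit 4) true (nat_lit 5) true (nat_lit 9) (.s true (nat_lit 1) (nat_lit 6) (nat_lit 0) (nat_lit 5) (nat_lit 0) false (nat_lit 10) true (nat_lit 9) true (nat_lit 3) true (nat_lit 9) true (nat_lit 4) (.s false (nat_lit 1) (nat_lit 9) (nat_lit 0) (nat_lit 2) (nat_lit 2) true (nat_lit 5) true (nat_lit 7) true (nat_lit 0) true (nat_lit 9) true (nat_lit 7) (.s false (nat_lit 1) (nat_lit 11) (nat_lit 2) (nat_lit 0) (nat_lit 2) true (nat_lit 3) true (nat_lit 7) true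 (nat_lit 0) true (nat_lit 7) true (nat_lit 9) (.s false (nat_lit 1) (nat_lit 12) (nat_lit 0) (nat_lit 1) (nat_lit 2) true (nat_lit 5) true (nat_lit 7) false (nat_lit 0) true (nat_lit 9) true (nat_lit 8) (.s false (nat_lit 1) (nat_lit 12) (nat_lit 2) (nat_lit 0) (nat_lit 1) true (nat_lit 4) true (nat_lit 8) false (nat_lit 0) true (nat_lit 7) true (nat_lit 9) (.e false (nat_lit 8) (nat_lit 25) (nat_lit 4) (nat_lit 5) (.e false (nat_lit 4) (nat_lit 24) (nat_lit 4) (nat_lit 5) (.e false (nat_lit 4) (nat_lit 42) (nat_lit 2) (nat_lit 7) (.e false (nat_lit 8) (nat_lit 43) (nat_lit 2) (nat_lit 7) (.e true (nat_lit 8) (nat_lit 54) (nat_lit 0) (nat_lit 9) (.e true (nat_lit 4) (nat_lit 56) (nat_lit 0) (nat_lit 9) (.e true (nat_lit 8) (nat_lit 53) (nat_lit 0) (nat_lit 9) (.e false (nat_lit 8) (nat_lit 57) (nat_lit 0) (nat_lit 9) (.e true (nat_lit 12) (nat_lit 58) (nat_lit 0) (nat_lit 9) .nil))))))))))))))))))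 (.nd (.nd .leaf (nat_lit 63490) (nat_lit 179) (.p (nat_lit 108) (nat_lit 4) .z) .df .leaf) (nat_lit 64512) (nat_lit 125) (.p (nat_lit 92) (nat_lit 4) .z) .df .leaf))) (nat_lit 64514) (nat_lit 197) (.p (nat_lit 99) (nat_lit 2) (.p (nat_lit 100) (nat_lit 2) (.n (nat_lit 103) (nat_lit 2) (.p (nat_lit 104) (nat_lit 2) (.p (nat_lit 105) (nat_lit 1) (.p (nat_lit 106) (nat_lit 1) (.n (nat_lit 107) (nat_lit 1) (.p (nat_lit 109) (nat_lit 1) (.p (nat_lit 110) (nat_lit 1) (.p (nat_lit 111) (nat_lit 1) (.n (nat_lit 112) (nat_lit 1) (.n (nat_lit 114) (nat_lit 1) .z)))))))))))) (.ct dr4_c276 (nat_lit 8) (nat_lit 6) (.s false (nat_lit 1) (nat_lit 5) (nat_lit 4) (nat_lit 2) (nat_lit 2) true (nat_lit 0) true (nat_lit 6) true (nat_lit 3) true (nat_lit 4) true (nat_lit 6) (.s false (nat_lit 1) (nat_lit 12) (nat_lit 1) (nat_lit 2) (nat_lit 2) true (nat_lit 3) true (nat_lit 6) true (nat_lit 0) true (nat_lit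 7) true (nat_lit 6) (.e true (nat_lit 4) (nat_lit 54) (nat_lit 2) (nat_lit 6) (.e false (nat_lit 4) (nat_lit 57) (nat_lit 2) (nat_lit 6) (.e true (nat_lit 4) (nat_lit 58) (nat_lit 2) (nat_lit 6) (.e true (nat_lit 4) (nat_lit 34) (nat_lit 4) (nat_lit 4) (.e true (nat_lit 4) (nat_lit 35) (nat_lit 4) (nat_lit 4) (.e true (nat_lit 4) (nat_lit 56) (nat_lit 2) (nat_lit 6) (.e false (nat_lit 8) (nat_lit 59) (nat_lit 2) (nat_lit 6) (.e false (nat_lit 4) (nat_lit 60) (nat_lit 2) (nat_lit 6) (.e true (nat_lit 4) (nat_lit 65) (nat_lit 1) (nat_lit 7) (.e false (nat_lit 4) (nat_lit 67) (nat_lit 1) (nat_lit 7) (.e true (nat_lit 4) (nat_lit 55) (nat_lit 2) (nat_lit 6) (.e true (nat_lit 4) (nat_lit 62) (nat_lit 2) (nat_lit 6) .nil))))))))))))))) (.nd (.nd (.nd (.nd .leaf (nat_lit 65536) (nat_lit 169) (.n (nat_lit 93) (nat_lit 4) (.p (nat_lit 94) (nat_lit 2) (.p (nat_lit 95) (nat_lit 4) (.p (nat_lit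 96) (nat_lit 20) (.p (nat_lit 97) (nat_lit 14) (.n (nat_lit 98) (nat_lit 2) .z)))))) (.ct dr4_c516 (nat_lit 4) (nat_lit 5) (.s true (nat_lit 1) (nat_lit 12) (nat_lit 2) (nat_lit 0) (nat_lit 2) true (nat_lit 2) true (nat_lit 4) true (nat_lit 0) true (nat_lit 4) true (nat_lit 5) (.a true (nat_lit 8) (nat_lit 12) (nat_lit 12) (nat_lit 0) (nat_lit 0) (.e false (nat_lit 4) (nat_lit 22) (nat_lit 6) (nat_lit 2) (.e true (nat_lit 8) (nat_lit 50) (nat_lit 2) (nat_lit 4) (.e false (nat_lit 4) (nat_lit 48) (nat_lit 2) (nat_lit 4) (.e true (nat_lit 4) (nat_lit 52) (nat_lit 2) (nat_lit 4) .nil))))))) .leaf) (nat_lit 65537) (nat_lit 207) (.n (nat_lit 99) (nat_lit 18) (.n (nat_lit 100) (nat_lit 14) (.p (nat_lit 101) (nat_lit 4) (.p (nat_lit 102) (nat_lit 8) (.p (nat_lit 103) (nat_lit 14) (.n (nat_lit 104) (nat_lit 14) (.p (nat_lit 105) (nat_lit 3) (.n (nat_lit 106) (nat_lit 1) (.p (nat_lit 107) (nat_lit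 5) (.p (nat_lit 108) (nat_lit 4) (.n (nat_lit 109) (nat_lit 1) (.n (nat_lit 110) (nat_lit 5) (.n (nat_lit 111) (nat_lit 1) (.n (nat_lit 112) (nat_lit 3) (.n (nat_lit 113) (nat_lit 4) (.p (nat_lit 114) (nat_lit 1) .z)))))))))))))))) (.ct dr4_c276 (nat_lit 4) (nat_lit 7) (.s true (nat_lit 1) (nat_lit 12) (nat_lit 2) (nat_lit 2) (nat_lit 1) true (nat_lit 3) true (nat_lit 7) true (nat_lit 0) true (nat_lit 6) true (nat_lit 6) (.e true (nat_lit 4) (nat_lit 30) (nat_lit 5) (nat_lit 3) (.e true (nat_lit 4) (nat_lit 15) (nat_lit 12) (nat_lit 0) (.e true (nat_lit 4) (nat_lit 63) (nat_lit 2) (nat_lit 6) (.e false (nat_lit 4) (nat_lit 56) (nat_lit 2) (nat_lit 6) .nil)))))) (.nd .leaf (nat_lit 66560) (nat_lit 161) (.p (nat_lit 94) (nat_lit 2) (.n (nat_lit 96) (nat_lit 12) (.n (nat_lit 97) (nat_lit 6) (.p (nat_lit 98) (nat_lit 2) .z)))) (.ct dr4_c516 (nat_lit 4) (nat_lit 5) (.s true (nat_lit 1) (nat_lit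 6) (nat_lit 0) (nat_lit 4) (nat_lit 2) true (nat_lit 3) true (nat_lit 4) true (nat_lit 2) true (nat_lit 5) true (nat_lit 3) (.s true (nat_lit 1) (nat_lit 8) (nat_lit 2) (nat_lit 2) (nat_lit 2) true (nat_lit 2) true (nat_lit 4) true (nat_lit 1) true (nat_lit 4) true (nat_lit 4) (.s true (nat_lit 1) (nat_lit 16) (nat_lit 0) (nat_lit 2) (nat_lit 0) false (nat_lit 6) true (nat_lit 5) false (nat_lit 1) true (nat_lit 5) true (nat_lit 4) (.e false (nat_lit 4) (nat_lit 31) (nat_lit 4) (nat_lit 3) (.e false (nat_lit 4) (nat_lit 51) (nat_lit 2) (nat_lit 4) (.e true (nat_lit 8) (nat_lit 66) (nat_lit 0) (nat_lit 5) .nil))))))) .leaf)) (nat_lit 66561) (nat_lit 180) (.p (nat_lit 109) (nat_lit 4) .z) .df (.nd (.nd .leaf (nat_lit 67584) (nat_lit 157) (.p (nat_lit 96) (nat_lit 4) .z) .df .leaf) (nat_lit 67585) (nat_lit 187) (.n (nat_lit 99) (nat_lit 8) (.n (nat_lit 100) (nat_lit 8) (.p (nat_lit 103)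 (nat_lit 8) (.n (nat_lit 104) (nat_lit 8) (.p (nat_lit 105) (nat_lit 4) (.p (nat_lit 107) (nat_lit 4) (.n (nat_lit 109) (nat_lit 4) (.n (nat_lit 110) (nat_lit 4) (.n (nat_lit 111) (nat_lit 4) .z))))))))) (.ct dr4_c276 (nat_lit 8) (nat_lit 7) (.s true (nat_lit 1) (nat_lit 6) (nat_lit 0) (nat_lit 6) (nat_lit 1) true (nat_lit 5) true (nat_lit 7) true (nat_lit 2) true (nat_lit 8) true (nat_lit 2) (.s true (nat_lit 2) (nat_lit 6) (nat_lit 1) (nat_lit 4) (nat_lit 2) true (nat_lit 3) true (nat_lit 6) true (nat_lit 2) true (nat_lit 7) true (nat_lit 4) (.s false (nat_lit 1) (nat_lit 6) (nat_lit 2) (nat_lit 2) (nat_lit 3) true (nat_lit 1) true (nat_lit 5) true (nat_lit 2) true (nat_lit 6) true (nat_lit 6) (.s false (nat_lit 2) (nat_lit 6) (nat_lit 3) (nat_lit 2) (nat_lit 2) true (nat_lit 1) true (nat_lit 6) true (nat_lit 2) true (nat_lit 5) true (nat_lit 6) (.s true (nat_lit 2) (nat_lit 6) (nat_lit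 5) (nat_lit 0) (nat_lit 2) false (nat_lit 0) true (nat_lit 6) true (nat_lit 2) true (nat_lit 3) true (nat_lit 8) (.s false (nat_lit 2) (nat_lit 13) (nat_lit 2) (nat_lit 1) (nat_lit 2) true (nat_lit 2) true (nat_lit 6) true (nat_lit 0) true (nat_lit 6) true (nat_lit 7) (.s false (nat_lit 3) (nat_lit 16) (nat_lit 0) (nat_lit 1) (nat_lit 2) true (nat_lit 4) true (nat_lit 6) false (nat_lit 1) true (nat_lit 8) true (nat_lit 7) (.s false (nat_lit 1) (nat_lit 16) (nat_lit 1) (nat_lit 2) (nat_lit 0) true (nat_lit 5) true (nat_lit 8) false (nat_lit 1) true (nat_lit 7) true (nat_lit 6) (.s false (nat_lit 1) (nat_lit 16) (nat_lit 2) (nat_lit 1) (nat_lit 0) true (nat_lit 4) true (nat_lit 8) false (nat_lit 1) true (nat_lit 6) true (nat_lit 7) (.e true (nat_lit 8) (nat_lit 65) (nat_lit 1) (nat_lit 7) (.e true (nat_lit 8) (nat_lit 69) (nat_lit 0) (nat_lit 8) (.e true (nat_lit 8) (nat_lit 70) (nat_lit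 0) (nat_lit 8) (.e true (nat_lit 16) (nat_lit 54) (nat_lit 2) (nat_lit 6) (.e false (nat_lit 16) (nat_lit 57) (nat_lit 2) (nat_lit 6) (.e true (nat_lit 16) (nat_lit 58) (nat_lit 2) (nat_lit 6) (.e false (nat_lit 8) (nat_lit 59) (nat_lit 2) (nat_lit 6) (.e true (nat_lit 16) (nat_lit 53) (nat_lit 2) (nat_lit 6) (.e false (nat_lit 8) (nat_lit 61) (nat_lit 2) (nat_lit 6) .nil))))))))))))))))))) .leaf)) (nat_lit 68608) (nat_lit 158) (.p (nat_lit 97) (nat_lit 4) .z) .df (.nd (.nd (.nd .leaf (nat_lit 68609) (nat_lit 188) (.p (nat_lit 99) (nat_lit 4) (.n (nat_lit 100) (nat_lit 4) (.p (nat_lit 101) (nat_lit 8) (.n (nat_lit 102) (nat_lit 8) (.n (nat_lit 103) (nat_lit 8) (.p (nat_lit 104) (nat_lit 12) (.n (nat_lit 105) (nat_lit 2) (.p (nat_lit 106) (nat_lit 6) (.n (nat_lit 107) (nat_lit 2) (.p (nat_lit 108) (nat_lit 8) (.p (nat_lit 109) (nat_lit 2) (.p (nat_lit 110) (nat_lit 2) (.p (nat_lit 111)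 (nat_lit 2) (.p (nat_lit 112) (nat_lit 2) (.p (nat_lit 114) (nat_lit 2) .z))))))))))))))) (.ct dr4_c276 (nat_lit 8) (nat_lit 7) (.s false (nat_lit 1) (nat_lit 6) (nat_lit 1) (nat_lit 4) (nat_lit 2) true (nat_lit 3) true (nat_lit 6) true (nat_lit 2) true (nat_lit 7) true (nat_lit 4) (.s false (nat_lit 1) (nat_lit 10) (nat_lit 2) (nat_lit 2) (nat_lit 2) true (nat_lit 2) true (nat_lit 6) true (nat_lit 1) true (nat_lit 6) true (nat_lit 6) (.s false (nat_lit 1) (nat_lit 13) (nat_lit 1) (nat_lit 2) (nat_lit 2) true (nat_lit 3) true (nat_lit 6) true (nat_lit 0) true (nat_lit 7) true (nat_lit 6) (.s false (nat_lit 1) (nat_lit 13) (nat_lit 2) (nat_lit 1) (nat_lit 2) true (nat_lit 2) true (nat_lit 6) true (nat_lit 0) true (nat_lit 6) true (nat_lit 7) (.s true (nat_lit 1) (nat_lit 16) (nat_lit 2) (nat_lit 0) (nat_lit 1) true (nat_lit 3) true (nat_lit 7) false (nat_lit 1) true (nat_lit 6) true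 (nat_lit 8) (.e true (nat_lit 20) (nat_lit 54) (nat_lit 2) (nat_lit 6) (.e false (nat_lit 12) (nat_lit 55) (nat_lit 2) (nat_lit 6) (.e true (nat_lit 4) (nat_lit 56) (nat_lit 2) (nat_lit 6) (.e false (nat_lit 8) (nat_lit 57) (nat_lit 2) (nat_lit 6) (.e true (nat_lit 4) (nat_lit 58) (nat_lit 2) (nat_lit 6) (.e false (nat_lit 4) (nat_lit 59) (nat_lit 2) (nat_lit 6) (.e false (nat_lit 16) (nat_lit 62) (nat_lit 2) (nat_lit 6) (.e false (nat_lit 4) (nat_lit 35) (nat_lit 4) (nat_lit 4) (.e true (nat_lit 16) (nat_lit 53) (nat_lit 2) (nat_lit 6) (.e false (nat_lit 4) (nat_lit 60) (nat_lit 2) (nat_lit 6) (.e true (nat_lit 8) (nat_lit 66) (nat_lit 1) (nat_lit 7) (.e true (nat_lit 4) (nat_lit 28) (nat_lit 6) (nat_lit 2) (.e false (nat_lit 4) (nat_lit 61) (nat_lit 2) (nat_lit 6) (.e false (nat_lit 4) (nat_lit 70) (nat_lit 0) (nat_lit 8) .nil)))))))))))))))))))) .leaf) (nat_lit 69632) (nat_lit 205)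 (.p (nat_lit 99) (nat_lit 10) (.n (nat_lit 100) (nat_lit 2) (.p (nat_lit 101) (nat_lit 4) (.n (nat_lit 102) (nat_lit 12) (.n (nat_lit 103) (nat_lit 6) (.p (nat_lit 104) (nat_lit 18) (.p (nat_lit 105) (nat_lit 1) (.p (nat_lit 106) (nat_lit 9) (.n (nat_lit 107) (nat_lit 1) (.n (nat_lit 108) (nat_lit 4) (.n (nat_lit 109) (nat_lit 11) (.n (nat_lit 110) (nat_lit 7) (.n (nat_lit 111) (nat_lit 7) (.p (nat_lit 112) (nat_lit 11) (.p (nat_lit 113) (nat_lit 4) (.p (nat_lit 114) (nat_lit 7) .z)))))))))))))))) (.ct dr4_c276 (nat_lit 4) (nat_lit 8) (.s true (nat_lit 1) (nat_lit 14) (nat_lit 2) (nat_lit 2) (nat_lit 0) true (nat_lit 4) true (nat_lit 8) false (nat_lit 0) true (nat_lit 6) true (nat_lit 6) (.e true (nat_lit 4) (nat_lit 33) (nat_lit 4) (nat_lit 4) (.e false (nat_lit 4) (nat_lit 14) (nat_lit 13) (nat_lit 0) (.e true (nat_lit 4) (nat_lit 54) (nat_lit 2) (nat_lit 6) (.e true (nat_lit 4) (nat_lit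 56) (nat_lit 2) (nat_lit 6) (.e false (nat_lit 4) (nat_lit 59) (nat_lit 2) (nat_lit 6) (.e false (nat_lit 4) (nat_lit 60) (nat_lit 2) (nat_lit 6) (.e true (nat_lit 4) (nat_lit 63) (nat_lit 2) (nat_lit 6) (.e false (nat_lit 4) (nat_lit 58) (nat_lit 2) (nat_lit 6) .nil)))))))))) .leaf) (nat_lit 70656) (nat_lit 181) (.p (nat_lit 110) (nat_lit 4) .z) .df (.nd (.nd .leaf (nat_lit 71680) (nat_lit 182) (.p (nat_lit 111) (nat_lit 4) .z) .df .leaf) (nat_lit 72704) (nat_lit 195) (.p (nat_lit 99) (nat_lit 4) (.p (nat_lit 100) (nat_lit 8) (.n (nat_lit 101) (nat_lit 4) (.p (nat_lit 102) (nat_lit 4) (.n (nat_lit 105) (nat_lit 2) (.n (nat_lit 106) (nat_lit 2) (.n (nat_lit 107) (nat_lit 2) (.n (nat_lit 108) (nat_lit 8) (.n (nat_lit 109) (nat_lit 2) (.n (nat_lit 110) (nat_lit 2) (.n (nat_lit 111) (nat_lit 6) (.p (nat_lit 112) (nat_lit 2) (.p (nat_lit 114) (nat_lit 2) .z))))))))))))) (.ct dr4_c276 (nat_lit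 4) (nat_lit 8) (.s false (nat_lit 1) (nat_lit 6) (nat_lit 3) (nat_lit 2) (nat_lit 2) true (nat_lit 1) true (nat_lit 6) true (nat_lit 2) true (nat_lit 5) true (nat_lit 6) (.s false (nat_lit 1) (nat_lit 16) (nat_lit 0) (nat_lit 1) (nat_lit 2) true (nat_lit 4) true (nat_lit 6) false (nat_lit 1) true (nat_lit 8) true (nat_lit 7) (.e false (nat_lit 4) (nat_lit 24) (nat_lit 6) (nat_lit 2) (.e true (nat_lit 4) (nat_lit 62) (nat_lit 2) (nat_lit 6) (.e false (nat_lit 4) (nat_lit 35) (nat_lit 4) (nat_lit 4) (.e false (nat_lit 4) (nat_lit 60) (nat_lit 2) (nat_lit 6) (.e true (nat_lit 4) (nat_lit 70) (nat_lit 0) (nat_lit 8) (.e true (nat_lit 4) (nat_lit 67) (nat_lit 1) (nat_lit 7) .nil))))))))) .leaf))))))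

noncomputable def dr4_t2 : Tr := (.nd dr4_t0 (nat_lit 25602) (nat_lit 72) (.p (nat_lit 54) (nat_lit 4) .z) .df dr4_t1)

noncomputable def dr4_cl : CL := (.c (nat_lit 256) (nat_lit 0) (nat_lit 1) (.c (nat_lit 16) (nat_lit 1) (nat_lit 1) (.c (nat_lit 1) (nat_lit 2) (nat_lit 1) (.c (nat_lit 512) (nat_lit 2512) (nat_lit 0) (.c (nat_lit 272) (nat_lit 3) (nat_lit 1) (.c (nat_lit 257) (nat_lit 4) (nat_lit 1) (.c (nat_lit 17) (nat_lit 5) (nat_lit 1) (.c (nat_lit 2) (nat_lit 6) (nat_lit 1) (.c (nat_lit 528) (nat_lit 7) (nat_lit 1) (.c (nat_lit 513) (nat_lit 8) (nat_lit 1) (.c (nat_lit 273) (nat_lit 9) (nat_lit 3) (.c (nat_lit 258) (nat_lit 12) (nat_lit 2) (.c (nat_lit 18) (nat_lit 14) (nat_lit 2) (.c (nat_lit 3) (nat_lit 16) (nat_lit 1) (.c (nat_lit 529) (nat_lit 17) (nat_lit 4) (.c (nat_lit 514) (nat_lit 21) (nat_lit 3) (.c (nat_lit 274) (nat_lit 24) (nat_lit 6) (.c (nat_lit 259) (nat_lit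 30) (nat_lit 3) (.c (nat_lit 19) (nat_lit 33) (nat_lit 3) (.c (nat_lit 4) (nat_lit 36) (nat_lit 1) (.c (nat_lit 530) (nat_lit 37) (nat_lit 11) (.c (nat_lit 515) (nat_lit 48) (nat_lit 5) (.c (nat_lit 275) (nat_lit 53) (nat_lit 11) (.c (nat_lit 260) (nat_lit 64) (nat_lit 4) (.c (nat_lit 20) (nat_lit 68) (nat_lit 4) (.c (nat_lit 531) (nat_lit 72) (nat_lit 21) (.c (nat_lit 516) (nat_lit 93) (nat_lit 6) (.c (nat_lit 276) (nat_lit 99) (nat_lit 16) .nil))))))))))))))))))))))))))))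

noncomputable def dr4_D : Dt := ⟨(nat_lit 18446744073709551616), (nat_lit 9223372036854775808), (nat_lit 4), (nat_lit 115), (nat_lit 2720284673019518231702995178432584412629282668582661707247055828169002949904937903184200658325141991864315648748874017172359486753552742379357787848284164550696577815382720813040008078539713516830952617240084292922245743090375684723757092218708149183021547026402447961230045373160317030676599721505885564305224425308886593325261686531654918210248063964358522791090463694658402872547242667380144310833940908850042649368896683820539557801519043185068214906297807185527520553294998550563538974176121663875272484742240315085279154620594358295933970511917334550791831013602995250398999869698674673271212809844588413551249304509198981372652293075931522738544349006996701706985144822845782526280038328013597972648222790107956556935665121647801261169890889293706517662634251768977989242987703702605481553993810095786249230968959958777861),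 (nat_lit 9903515610363021995928391476), dr4_t2, dr4_cl⟩

noncomputable def dr4_gs : BL := (.c (nat_lit 17) (nat_lit 4) (nat_lit 16) (nat_lit 1) (nat_lit 0) (.c (nat_lit 21) (nat_lit 3) (nat_lit 14) (nat_lit 2) (nat_lit 4) (.c (nat_lit 24) (nat_lit 6) (nat_lit 12) (nat_lit 2) (nat_lit 10) (.c (nat_lit 30) (nat_lit 3) (nat_lit 9) (nat_lit 3) (nat_lit 22) (.c (nat_lit 33) (nat_lit 3) (nat_lit 8) (nat_lit 1) (nat_lit 31) (.c (nat_lit 36) (nat_lit 1) (nat_lit 7) (nat_lit 1) (nat_lit 34) (.c (nat_lit 37) (nat_lit 11) (nat_lit 6) (nat_lit 1) (nat_lit 35) (.c (nat_lit 48) (nat_lit 5) (nat_lit 5) (nat_lit 1) (nat_lit 46) (.c (nat_lit 53) (nat_lit 11) (nat_lit 4) (nat_lit 1) (nat_lit 51) (.c (nat_lit 64) (nat_lit 4) (nat_lit 3) (nat_lit 1) (nat_lit 62) (.c (nat_lit 72) (nat_lit 21) (nat_lit 2) (nat_lit 1) (nat_lit 66) (.c (nat_lit 93) (nat_lit 6) (nat_lit 1) (nat_lit 1) (nat_lit 87) (.c (nat_lit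 99) (nat_lit 16) (nat_lit 0) (nat_lit 1) (nat_lit 93) (.c (nat_lit 2512) (nat_lit 0) (nat_lit 68) (nat_lit 4) (nat_lit 109) .nil))))))))))))))

noncomputable def dr4_i2 : IL := (.s true (nat_lit 1832) (nat_lit 29) (nat_lit 0) (nat_lit 2) (nat_lit 2) true (nat_lit 8) true (nat_lit 10) false (nat_lit 2) true (nat_lit 12) true (nat_lit 10) (.s true (nat_lit 256) (nat_lit 25) (nat_lit 2) (nat_lit 0) (nat_lit 2) true (nat_lit 6) true (nat_lit 10) false (nat_lit 2) true (nat_lit 10) true (nat_lit 12) (.s true (nat_lit 4000) (nat_lit 26) (nat_lit 2) (nat_lit 0) (nat_lit 2) true (nat_lit 6) true (nat_lit 10) false (nat_lit 2) true (nat_lit 10) true (nat_lit 12) (.s false (nat_lit 3024) (nat_lit 27) (nat_lit 2) (nat_lit 0) (nat_lit 2) true (nat_lit 6) true (nat_lit 10) false (nat_lit 2) true (nat_lit 10) true (nat_lit 12) (.s true (nat_lit 4296) (nat_lit 28) (nat_lit 2) (nat_lit 0) (nat_lit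 2) true (nat_lit 6) true (nat_lit 10) false (nat_lit 2) true (nat_lit 10) true (nat_lit 12) (.s true (nat_lit 5416) (nat_lit 29) (nat_lit 2) (nat_lit 0) (nat_lit 2) true (nat_lit 6) true (nat_lit 10) false (nat_lit 2) true (nat_lit 10) true (nat_lit 12) (.s true (nat_lit 496) (nat_lit 24) (nat_lit 2) (nat_lit 2) (nat_lit 0) true (nat_lit 8) true (nat_lit 12) false (nat_lit 2) true (nat_lit 10) true (nat_lit 10) (.s true (nat_lit 3424) (nat_lit 27) (nat_lit 2) (nat_lit 2) (nat_lit 0) true (nat_lit 8) true (nat_lit 12) false (nat_lit 2) true (nat_lit 10) true (nat_lit 10) (.s false (nat_lit 1720) (nat_lit 28) (nat_lit 2) (nat_lit 2) (nat_lit 0) true (nat_lit 8) true (nat_lit 12) false (nat_lit 2) true (nat_lit 10) true (nat_lit 10) (.s false (nat_lit 1784) (nat_lit 29) (nat_lit 2) (nat_lit 2) (nat_lit 0) true (nat_lit 8) true (nat_lit 12) false (nat_lit 2) true (nat_lit 10) true (nat_lit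 10) (.s true (nat_lit 1600) (nat_lit 31) (nat_lit 0) (nat_lit 1) (nat_lit 2) true (nat_lit 8) true (nat_lit 10) false (nat_lit 3) true (nat_lit 12) true (nat_lit 11) (.s false (nat_lit 12344) (nat_lit 32) (nat_lit 0) (nat_lit 1) (nat_lit 2) true (nat_lit 8) true (nat_lit 10) false (nat_lit 3) true (nat_lit 12) true (nat_lit 11) (.s true (nat_lit 2016) (nat_lit 31) (nat_lit 1) (nat_lit 0) (nat_lit 2) true (nat_lit 7) true (nat_lit 10) false (nat_lit 3) true (nat_lit 11) true (nat_lit 12) (.s true (nat_lit 3320) (nat_lit 32) (nat_lit 1) (nat_lit 0) (nat_lit 2) true (nat_lit 7) true (nat_lit 10) false (nat_lit 3) true (nat_lit 11) true (nat_lit 12) (.s true (nat_lit 2832) (nat_lit 31) (nat_lit 1) (nat_lit 2) (nat_lit 0) true (nat_lit 9) true (nat_lit 12) false (nat_lit 3) true (nat_lit 11) true (nat_lit 10) (.s false (nat_lit 6944) (nat_lit 32) (nat_lit 1) (nat_lit 2) (nat_lit 0) true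 (nat_lit 9) true (nat_lit 12) false (nat_lit 3) true (nat_lit 11) true (nat_lit 10) (.s true (nat_lit 2832) (nat_lit 31) (nat_lit 2) (nat_lit 1) (nat_lit 0) true (nat_lit 8) true (nat_lit 12) false (nat_lit 3) true (nat_lit 10) true (nat_lit 11) (.s false (nat_lit 11048) (nat_lit 32) (nat_lit 2) (nat_lit 1) (nat_lit 0) true (nat_lit 8) true (nat_lit 12) false (nat_lit 3) true (nat_lit 10) true (nat_lit 11) (.s false (nat_lit 224) (nat_lit 33) (nat_lit 0) (nat_lit 0) (nat_lit 2) true (nat_lit 8) true (nat_lit 10) false (nat_lit 4) true (nat_lit 12) true (nat_lit 12) (.s false (nat_lit 2088) (nat_lit 34) (nat_lit 0) (nat_lit 0) (nat_lit 2) true (nat_lit 8) true (nat_lit 10) false (nat_lit 4) true (nat_lit 12) true (nat_lit 12) (.s false (nat_lit 360) (nat_lit 35) (nat_lit 0) (nat_lit 0) (nat_lit 2) true (nat_lit 8) true (nat_lit 10) false (nat_lit 4) true (nat_lit 12) true (nat_lit 12)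 (.s true (nat_lit 368) (nat_lit 34) (nat_lit 2) (nat_lit 0) (nat_lit 0) true (nat_lit 8) true (nat_lit 12) false (nat_lit 4) true (nat_lit 10) true (nat_lit 12) (.s true (nat_lit 368) (nat_lit 35) (nat_lit 2) (nat_lit 0) (nat_lit 0) true (nat_lit 8) true (nat_lit 12) false (nat_lit 4) true (nat_lit 10) true (nat_lit 12) (.s false (nat_lit 6112) (nat_lit 36) (nat_lit 0) (nat_lit 0) (nat_lit 1) true (nat_lit 9) true (nat_lit 11) false (nat_lit 5) true (nat_lit 12) true (nat_lit 12) (.s true (nat_lit 640) (nat_lit 36) (nat_lit 1) (nat_lit 0) (nat_lit 0) true (nat_lit 9) true (nat_lit 12) false (nat_lit 5) true (nat_lit 11) true (nat_lit 12) .nil)))))))))))))))))))))))))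

noncomputable def dr4_i3 : IL := (.s true (nat_lit 4248) (nat_lit 13) (nat_lit 0) (nat_lit 6) (nat_lit 1) true (nat_lit 9) true (nat_lit 11) true (nat_lit 2) true (nat_lit 12) true (nat_lit 6) (.s false (nat_lit 2528) (nat_lit 13) (nat_lit 1) (nat_lit 6) (nat_lit 0) true (nat_lit 9) true (nat_lit 12) true (nat_lit 2) true (nat_lit 11) true (nat_lit 6) (.s true (nat_lit 16528) (nat_lit 13) (nat_lit 2) (nat_lit 2) (nat_lit 3) true (nat_lit 3) true (nat_lit 9) true (nat_lit 2) true (nat_lit 10) true (nat_lit 10) (.s false (nat_lit 1224) (nat_lit 13) (nat_lit 2) (nat_lit 5) (nat_lit 0) true (nat_lit 8) true (nat_lit 12) true (nat_lit 2) true (nat_lit 10) true (nat_lit 7) (.s true (nat_lit 4192) (nat_lit 12) (nat_lit 3) (nat_lit 2) (nat_lit 2) true (nat_lit 3) true (nat_lit 10) true (nat_lit 2) true (nat_lit 9) true (nat_lit 10) (.s false (nat_lit 960) (nat_lit 12) (nat_lit 4) (nat_lit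 1) (nat_lit 2) true (nat_lit 2) true (nat_lit 10) true (nat_lit 2) true (nat_lit 8) true (nat_lit 11) (.s true (nat_lit 64) (nat_lit 12) (nat_lit 4) (nat_lit 2) (nat_lit 1) true (nat_lit 3) true (nat_lit 11) true (nat_lit 2) true (nat_lit 8) true (nat_lit 10) (.s true (nat_lit 1248) (nat_lit 12) (nat_lit 5) (nat_lit 0) (nat_lit 2) true (nat_lit 1) true (nat_lit 10) true (nat_lit 2) true (nat_lit 7) true (nat_lit 12) (.s false (nat_lit 816) (nat_lit 13) (nat_lit 6) (nat_lit 1) (nat_lit 0) true (nat_lit 2) true (nat_lit 12) true (nat_lit 2) true (nat_lit 6) true (nat_lit 11) (.s true (nat_lit 2864) (nat_lit 14) (nat_lit 0) (nat_lit 0) (nat_lit 6) true (nat_lit 2) true (nat_lit 6) true (nat_lit 1) true (nat_lit 12) true (nat_lit 12) (.s true (nat_lit 5784) (nat_lit 14) (nat_lit 0) (nat_lit 6) (nat_lit 0) false (nat_lit 13) true (nat_lit 12) true (nat_lit 1) true (nat_lit 12) true (nat_lit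 6) (.s false (nat_lit 3792) (nat_lit 16) (nat_lit 0) (nat_lit 0) (nat_lit 5) true (nat_lit 3) true (nat_lit 7) true (nat_lit 0) true (nat_lit 12) true (nat_lit 12) (.s true (nat_lit 104) (nat_lit 16) (nat_lit 0) (nat_lit 5) (nat_lit 0) false (nat_lit 13) true (nat_lit 12) true (nat_lit 0) true (nat_lit 12) true (nat_lit 7) (.s false (nat_lit 17056) (nat_lit 19) (nat_lit 2) (nat_lit 2) (nat_lit 2) true (nat_lit 6) true (nat_lit 10) false (nat_lit 0) true (nat_lit 10) true (nat_lit 10) (.s false (nat_lit 3848) (nat_lit 20) (nat_lit 2) (nat_lit 2) (nat_lit 2) true (nat_lit 6) true (nat_lit 10) false (nat_lit 0) true (nat_lit 10) true (nat_lit 10) (.s true (nat_lit 2128) (nat_lit 21) (nat_lit 1) (nat_lit 2) (nat_lit 2) true (nat_lit 7) true (nat_lit 10) false (nat_lit 1) true (nat_lit 11) true (nat_lit 10) (.s true (nat_lit 1824) (nat_lit 22) (nat_lit 1) (nat_lit 2) (nat_lit 2) true (nat_lit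 7) true (nat_lit 10) false (nat_lit 1) true (nat_lit 11) true (nat_lit 10) (.s false (nat_lit 3144) (nat_lit 23) (nat_lit 1) (nat_lit 2) (nat_lit 2) true (nat_lit 7) true (nat_lit 10) false (nat_lit 1) true (nat_lit 11) true (nat_lit 10) (.s true (nat_lit 1920) (nat_lit 21) (nat_lit 2) (nat_lit 1) (nat_lit 2) true (nat_lit 6) true (nat_lit 10) false (nat_lit 1) true (nat_lit 10) true (nat_lit 11) (.s false (nat_lit 8352) (nat_lit 23) (nat_lit 2) (nat_lit 1) (nat_lit 2) true (nat_lit 6) true (nat_lit 10) false (nat_lit 1) true (nat_lit 10) true (nat_lit 11) (.s false (nat_lit 4896) (nat_lit 24) (nat_lit 0) (nat_lit 2) (nat_lit 2) true (nat_lit 8) true (nat_lit 10) false (nat_lit 2) true (nat_lit 12) true (nat_lit 10) (.s true (nat_lit 4736) (nat_lit 25) (nat_lit 0) (nat_lit 2) (nat_lit 2) true (nat_lit 8) true (nat_lit 10) false (nat_lit 2) true (nat_lit 12) true (nat_lit 10) (.s false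 (nat_lit 1088) (nat_lit 26) (nat_lit 0) (nat_lit 2) (nat_lit 2) true (nat_lit 8) true (nat_lit 10) false (nat_lit 2) true (nat_lit 12) true (nat_lit 10) (.s false (nat_lit 464) (nat_lit 27) (nat_lit 0) (nat_lit 2) (nat_lit 2) true (nat_lit 8) true (nat_lit 10) false (nat_lit 2) true (nat_lit 12) true (nat_lit 10) (.s true (nat_lit 1736) (nat_lit 28) (nat_lit 0) (nat_lit 2) (nat_lit 2) true (nat_lit 8) true (nat_lit 10) false (nat_lit 2) true (nat_lit 12) true (nat_lit 10) dr4_i2)))))))))))))))))))))))))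

noncomputable def dr4_il : IL := (.s false (nat_lit 576) (nat_lit 5) (nat_lit 4) (nat_lit 2) (nat_lit 4) false (nat_lit 1) true (nat_lit 8) true (nat_lit 7) true (nat_lit 8) true (nat_lit 10) (.s true (nat_lit 4224) (nat_lit 6) (nat_lit 0) (nat_lit 6) (nat_lit 3) true (nat_lit 5) true (nat_lit 9) true (nat_lit 6) true (nat_lit 12) true (nat_lit 6) (.s false (nat_lit 3584) (nat_lit 6) (nat_lit 2) (nat_lit 3) (nat_lit 4) true (nat_lit 2) true (nat_lit 8) true (nat_lit 6) true (nat_lit 10) true (nat_lit 9) (.s true (nat_lit 18240) (nat_lit 6) (nat_lit 3) (nat_lit 0) (nat_lit 6) false (nat_lit 2) true (nat_lit 6) true (nat_lit 6) true (nat_lit 9) true (nat_lit 12) (.s false (nat_lit 3952) (nat_lit 6) (nat_lit 4) (nat_lit 2) (nat_lit 3) false (nat_lit 0) true (nat_lit 9) true (nat_lit 6) true (nat_lit 8) true (nat_lit 10) (.s true (nat_lit 5872) (nat_lit 8) (nat_lit 1) (nat_lit 2) (nat_lit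 6) true (nat_lit 1) true (nat_lit 6) true (nat_lit 4) true (nat_lit 11) true (nat_lit 10) (.s false (nat_lit 1920) (nat_lit 8) (nat_lit 1) (nat_lit 6) (nat_lit 2) true (nat_lit 7) true (nat_lit 10) true (nat_lit 4) true (nat_lit 11) true (nat_lit 6) (.s true (nat_lit 368) (nat_lit 8) (nat_lit 2) (nat_lit 2) (nat_lit 5) true (nat_lit 1) true (nat_lit 7) true (nat_lit 4) true (nat_lit 10) true (nat_lit 10) (.s true (nat_lit 3952) (nat_lit 8) (nat_lit 6) (nat_lit 1) (nat_lit 2) true (nat_lit 0) true (nat_lit 10) true (nat_lit 4) true (nat_lit 6) true (nat_lit 11) (.s true (nat_lit 5872) (nat_lit 8) (nat_lit 6) (nat_lit 2) (nat_lit 1) true (nat_lit 1) true (nat_lit 11) true (nat_lit 4) true (nat_lit 6) true (nat_lit 10) (.s true (nat_lit 3920) (nat_lit 9) (nat_lit 0) (nat_lit 2) (nat_lit 6) true (nat_lit 2) true (nat_lit 6) true (nat_lit 3) true (nat_lit 12) true (nat_lit 10) (.s false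 (nat_lit 13104) (nat_lit 9) (nat_lit 2) (nat_lit 0) (nat_lit 6) true (nat_lit 0) true (nat_lit 6) true (nat_lit 3) true (nat_lit 10) true (nat_lit 12) (.s false (nat_lit 720) (nat_lit 9) (nat_lit 2) (nat_lit 2) (nat_lit 4) true (nat_lit 2) true (nat_lit 8) true (nat_lit 3) true (nat_lit 10) true (nat_lit 10) (.s false (nat_lit 6896) (nat_lit 9) (nat_lit 2) (nat_lit 4) (nat_lit 2) true (nat_lit 6) true (nat_lit 10) true (nat_lit 3) true (nat_lit 10) true (nat_lit 8) (.s true (nat_lit 416) (nat_lit 11) (nat_lit 2) (nat_lit 4) (nat_lit 2) true (nat_lit 6) true (nat_lit 10) true (nat_lit 3) true (nat_lit 10) true (nat_lit 8) (.s false (nat_lit 312) (nat_lit 11) (nat_lit 2) (nat_lit 6) (nat_lit 0) true (nat_lit 8) true (nat_lit 12) true (nat_lit 3) true (nat_lit 10) true (nat_lit 6) (.s true (nat_lit 1424) (nat_lit 9) (nat_lit 4) (nat_lit 2) (nat_lit 2) true (nat_lit 2) true (nat_lit 10)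 true (nat_lit 3) true (nat_lit 8) true (nat_lit 10) (.s true (nat_lit 64) (nat_lit 10) (nat_lit 4) (nat_lit 2) (nat_lit 2) true (nat_lit 2) true (nat_lit 10) true (nat_lit 3) true (nat_lit 8) true (nat_lit 10) (.s false (nat_lit 416) (nat_lit 11) (nat_lit 4) (nat_lit 2) (nat_lit 2) true (nat_lit 2) true (nat_lit 10) true (nat_lit 3) true (nat_lit 8) true (nat_lit 10) (.s false (nat_lit 672) (nat_lit 12) (nat_lit 0) (nat_lit 5) (nat_lit 2) true (nat_lit 8) true (nat_lit 10) true (nat_lit 2) true (nat_lit 12) true (nat_lit 7) (.s false (nat_lit 2560) (nat_lit 12) (nat_lit 0) (nat_lit 6) (nat_lit 1) true (nat_lit 9) true (nat_lit 11) true (nat_lit 2) true (nat_lit 12) true (nat_lit 6) dr4_i3)))))))))))))))))))))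

theorem dr4_chk : chk 5 idsM dr4_D par1 (clsL [0,0,0,0,1,2,2]) r4Ex (.c (nat_lit 2) (nat_lit 1) (.c (nat_lit 2) (nat_lit 1) (.c (nat_lit 2) (nat_lit 1) (.c (nat_lit 2) (nat_lit 1) (.c (nat_lit 1) (nat_lit 16) (.c (nat_lit 0) (nat_lit 256) (.c (nat_lit 0) (nat_lit 256) .nil))))))) (nat_lit 208) (nat_lit 532) (nat_lit 1) dr4_gs dr4_il = true := by
  decide +kernel

end Chk

/-- certificate of `r4Ex` -/
theorem cert_r4Ex : Cert.{u} 5 idsM par1 (clsL [0,0,0,0,1,2,2]) r4Ex :=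
  Chk.chk_sound _ _ (by simp [idsM]) (by simp [idsM]) _ _ _ _ _ _ _ _ _ _ Chk.dr4_chk

end Pool.Agent.MalP
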