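import Pool.Agent.MalP.CertB0
import Pool.Agent.MalP.CertR7
import Pool.Agent.MalP.Certr1
import Pool.Agent.MalP.Certr2
import Pool.Agent.MalP.Certr4
import Pool.Agent.MalP.Certr5
import Pool.Agent.MalP.CertP8
import Pool.Agent.MalP.CertAl
import Pool.Agent.MalP.CertBe
import Pool.Agent.MalP.CertA4s
import Pool.Agent.MalP.CertA4k
import Pool.Agent.MalP.CertZ8b
import Pool.Agent.MalP.A4Of
import Pool.Agent.MalP.Z8Of
import Pool.Agent.MalP.AlBe

/-! # The finite identities used for the structure of `Q` (part C)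

`ee F x0 x1 x2 x3 x4 y` is alternating in `x0, .., x4` (it is `eL F ![x0, .., x4] y`, 240 times the element `e` of
notes/MP_c45a45_al_h4). All identities hold in every Malcev algebra over a field of characteristic 0. -/

set_option autoImplicit false

open scoped BigOperators

namespace Pool.Agent.MalP

universe u v

theorem clsL_nil : clsL [] = clsL [0, 0, 0, 0, 0, 0, 0] := by
  funext i
  rcases i with _ | _ | _ | _ | _ | _ | _ | i <;> rfl

variable (F : Type u) [Field F] {A : Type v} [NonUnitalNonAssocRing A] [Module F A]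
  [IsScalarTower F A A] [SMulCommClass F A A]

variable [CI 5 F]

variable (A) in
/-- the identity (P') holds in `A` (a theorem if 7 is invertible) -/
class HPc : Prop where
  out : HP F A


/-- (B0), degree 6 -/
theorem base_B0 (h : IsMalcev A) (a b c d v z : A) :
    10 • (P108 a b c d (v * z) - P108 a b c d v * z) =
      ee F a b c d v z - ee F b c d v z a + ee F a c d v z b - ee F a b d v z c +
        ee F a b c v z d :=
  base_B0_of F cert_B0Ex h a b c d v z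

/-- (R7), degree 7 -/
theorem base_R7 (h : IsMalcev A) (x0 x1 x2 x3 x : A) : ee F x0 x1 x2 x3 x x * x = 0 :=
  base_R7_of F cert_R7Ex h x0 x1 x2 x3 x

/-- (r1), degree 7 -/
theorem base_r1 (h : IsMalcev A) (u a x0 x1 x2 x3 : A) :
    ee F (u * a) x0 x1 x2 x3 a ∈ Fsp F ![u, a, x0, x1, x2, x3, a] :=
  base_r1_of F cert_r1Ex h u a x0 x1 x2 x3

/-- (r2), degree 7 -/
theorem base_r2 (h : IsMalcev A) (u v x1 x2 x3 a : A) :
    ee F (u * v) v x1 x2 x3 a ∈ Fsp F ![u, v, v, x1, x2, x3, a] :=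
  base_r2_of F cert_r2Ex h u v x1 x2 x3 a

/-- (r4), degree 7 -/
theorem base_r4 (h : IsMalcev A) (x0 x1 x2 x3 u v : A) :
    ee F x0 x1 x2 x3 v (u * v) ∈ Fsp F ![x0, x1, x2, x3, v, u, v] :=
  base_r4_of F cert_r4Ex h x0 x1 x2 x3 u v

/-- (r5), degree 7 -/
theorem base_r5 (h : IsMalcev A) (y : Fin 7 → A) :
    ∑ s : Equiv.Perm (Fin 7), Equiv.Perm.sign s •
      (2 • ee F (y (s 0) * y (s 1)) (y (s 2)) (y (s 3)) (y (s 4)) (y (s 5)) (y (s 6)) -
        ee F (y (s 0)) (y (s 1)) (y (s 2)) (y (s 3)) (y (s 4)) (y (s 5) * y (s 6))) ∈ Fsp F y :=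
  base_r5_of F (clsL_nil ▸ cert_r5Ex) h y

/-- (P'), degree 8 -/
theorem base_P35 [CI 35 F] (h : IsMalcev A) (x0 x1 x2 x3 x4 u v c : A) :
    (ee F x0 x1 x2 x3 x4 (u * v) - ee F x0 x1 x2 x3 x4 v * u + ee F x0 x1 x2 x3 x4 u * v) * c = 0 :=
  base_P_of2 F cert_P8Ex h x0 x1 x2 x3 x4 u v c

omit [CI 5 F] in
theorem base_P [hP : HPc F A] (_h : IsMalcev A) (x0 x1 x2 x3 x4 u v c : A) :
    (ee F x0 x1 x2 x3 x4 (u * v) - ee F x0 x1 x2 x3 x4 v * u + ee F x0 x1 x2 x3 x4 u * v) * c = 0 :=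
  hP.out x0 x1 x2 x3 x4 u v c

/-- (a'), degree 8 -/
theorem base_a [hP : HPc F A] (h : IsMalcev A) (u v x0 x1 x2 x3 a c : A) : ee F (u * v) x0 x1 x2 x3 a * c = 0 :=
  base_a_ofP F cert_BeEx hP.out h u v x0 x1 x2 x3 a c

/-- (A3), degree 8 -/
theorem base_A3 [hP : HPc F A] (h : IsMalcev A) (x0 x1 x2 x3 x a c : A) : (ee F x0 x1 x2 x3 x a * x) * c = 0 :=
  base_A3_ofP F cert_AlEx hP.out h x0 x1 x2 x3 x a c

/-- (A4), degree 8 -/
theorem base_A4 (h : IsMalcev A) (x0 x1 x2 x3 x a c : A) :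
    ee F x0 x1 x2 x3 x a * (x * c) = (ee F x0 x1 x2 x3 x a * c) * x :=
  base_A4_of2 F cert_A4s cert_A4k h x0 x1 x2 x3 x a c

/-- (Z8), degree 8 -/
theorem base_Z8 [hP : HPc F A] (h : IsMalcev A) (x0 x1 x2 x3 x4 a b c : A) :
    zt (ee F x0 x1 x2 x3 x4 a) b c = zt (ee F x0 x1 x2 x3 x4 c) b a :=
  base_Z8_of2 F cert_Z8b (fun x0 x1 x2 x3 x a c => base_A3 F h x0 x1 x2 x3 x a c)
    (fun x0 x1 x2 x3 x a c => base_A4 F h x0 x1 x2 x3 x a c) h x0 x1 x2 x3 x4 a b c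

end Pool.Agent.MalP
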