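import Pool.Agent.MalP.Certs
import Pool.Agent.MalP.EDefs

/-! # The base identities as expressions -/

set_option autoImplicit false

namespace Pool.Agent.MalP

universe u v

namespace PEx

def pe (x0 x1 x2 x3 x4 y : PEx) : PEx :=
  2 • (((((x0 * y) * x1) * x2) * x3) * x4) + 5 • (((((x0 * x1) * y) * x2) * x3) * x4) +
    4 • (((((x0 * x1) * x2) * y) * x3) * x4) - 3 • ((((x0 * x1) * y) * x2) * (x3 * x4)) -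
    2 • ((((x0 * x1) * x2) * x3) * (x4 * y))

/-- `e'(b, t0, .., t3; y)` is the alternation of `pe1` in `t` -/
def pe1 (b t0 t1 t2 t3 y : PEx) : PEx :=
  pe b t0 t1 t2 t3 y - pe t0 b t1 t2 t3 y + pe t0 t1 b t2 t3 y - pe t0 t1 t2 b t3 y +
    pe t0 t1 t2 t3 b y

/-- `e'(b, c, t0, t1, t2; y)` is the alternation of `pe2` in `t` -/
def pe2 (b c t0 t1 t2 y : PEx) : PEx :=
  pe1 b c t0 t1 t2 y - pe1 b t0 c t1 t2 y + pe1 b t0 t1 c t2 y - pe1 b t0 t1 t2 c y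

/-- `e'(b, c, d, t0, t1; y)` is the alternation of `pe3` in `t` -/
def pe3 (b c d t0 t1 y : PEx) : PEx :=
  pe2 b c d t0 t1 y - pe2 b c t0 d t1 y + pe2 b c t0 t1 d y

/-- `q (b c) - (q b) c - (q c) b` -/
def zt (q b c : PEx) : PEx := q * (b * c) - (q * b) * c - (q * c) * b

end PEx

/-- generator of a letter given by a list -/
def clsL (l : List ℕ) (i : ℕ) : ℕ := l.getD i 0

/-- (B0): letters a,b,c,d odd; v = 4, z = 5 -/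
def B0Ex : PEx :=
  10 • (PEx.P108 (.X 0) (.X 1) (.X 2) (.X 3) (.X 4 * .X 5) -
    PEx.P108 (.X 0) (.X 1) (.X 2) (.X 3) (.X 4) * .X 5) -
    24 • PEx.pe1 (.X 4) (.X 0) (.X 1) (.X 2) (.X 3) (.X 5) +
    24 • PEx.pe2 (.X 4) (.X 5) (.X 1) (.X 2) (.X 3) (.X 0)

/-- (R7): letters 0..3 odd; x = 4, 5, 6 -/
def R7Ex : PEx := PEx.pe1 (.X 4) (.X 0) (.X 1) (.X 2) (.X 3) (.X 5) * .X 6

/-- (r1): letters 0..3 odd; u = 4; a = 5, 6 -/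
def r1Ex : PEx :=
  20 • PEx.pe1 (.X 4 * .X 5) (.X 0) (.X 1) (.X 2) (.X 3) (.X 6) +
    3 • (PEx.pe2 (.X 4) (.X 5) (.X 1) (.X 2) (.X 3) (.X 6) * .X 0) +
    11 • (PEx.pe2 (.X 4) (.X 5) (.X 1) (.X 2) (.X 3) (.X 0) * .X 6) -
    12 • (PEx.pe1 (.X 5) (.X 0) (.X 1) (.X 2) (.X 3) (.X 6) * .X 4)

/-- (r4): letters 0..3 odd; u = 4; v = 5, 6 -/
def r4Ex : PEx :=
  5 • PEx.pe1 (.X 5) (.X 0) (.X 1) (.X 2) (.X 3) (.X 4 * .X 6) -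
    2 • (PEx.pe2 (.X 4) (.X 5) (.X 1) (.X 2) (.X 3) (.X 6) * .X 0) +
    (PEx.pe2 (.X 4) (.X 5) (.X 1) (.X 2) (.X 3) (.X 0) * .X 6) +
    3 • (PEx.pe1 (.X 5) (.X 0) (.X 1) (.X 2) (.X 3) (.X 6) * .X 4)

/-- (r2): letters 0..2 odd; u = 3; v = 4, 5; a = 6 -/
def r2Ex : PEx :=
  5 • PEx.pe2 (.X 3 * .X 4) (.X 5) (.X 0) (.X 1) (.X 2) (.X 6) +
    2 • (PEx.pe2 (.X 3) (.X 4) (.X 0) (.X 1) (.X 2) (.X 5) * .X 6) -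
    2 • (PEx.pe2 (.X 4) (.X 6) (.X 0) (.X 1) (.X 2) (.X 5) * .X 3) +
    5 • (PEx.pe2 (.X 3) (.X 4) (.X 0) (.X 1) (.X 2) (.X 6) * .X 5) +
    2 • (PEx.pe3 (.X 3) (.X 4) (.X 6) (.X 1) (.X 2) (.X 0) * .X 5)

/-- (r5): letters 0..6 odd -/
def r5Ex : PEx :=
  48 • PEx.pe1 (.X 0 * .X 1) (.X 2) (.X 3) (.X 4) (.X 5) (.X 6) -
    120 • PEx.pe (.X 0) (.X 1) (.X 2) (.X 3) (.X 4) (.X 5 * .X 6) -
    240 • (PEx.pe (.X 0) (.X 1) (.X 2) (.X 3) (.X 4) (.X 5) * .X 6)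

/-- (A3): letters 0..3 odd; x = 4, 5; a = 6; c = 7 -/
def A3Ex : PEx := (PEx.pe1 (.X 4) (.X 0) (.X 1) (.X 2) (.X 3) (.X 6) * .X 5) * .X 7

/-- (A4): letters 0..3 odd; x = 4, 5; a = 6; c = 7 -/
def A4Ex : PEx := PEx.pe1 (.X 4) (.X 0) (.X 1) (.X 2) (.X 3) (.X 6) * (.X 5 * .X 7) -
  (PEx.pe1 (.X 4) (.X 0) (.X 1) (.X 2) (.X 3) (.X 6) * .X 7) * .X 5

/-- (Z8): letters 0..4 odd; a = 5; b = 6; c = 7 -/
def Z8Ex : PEx := PEx.zt (PEx.pe (.X 0) (.X 1) (.X 2) (.X 3) (.X 4) (.X 5)) (.X 6) (.X 7) -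
  PEx.zt (PEx.pe (.X 0) (.X 1) (.X 2) (.X 3) (.X 4) (.X 7)) (.X 6) (.X 5)

/-- (P'): letters 0..4 odd; u = 5; v = 6; c = 7 -/
def P8Ex : PEx := (PEx.pe (.X 0) (.X 1) (.X 2) (.X 3) (.X 4) (.X 5 * .X 6) -
  PEx.pe (.X 0) (.X 1) (.X 2) (.X 3) (.X 4) (.X 6) * .X 5 +
  PEx.pe (.X 0) (.X 1) (.X 2) (.X 3) (.X 4) (.X 5) * .X 6) * .X 7

/-- (a'): letters 0..3 odd; u = 4; v = 5; a = 6; c = 7 -/
def a8Ex : PEx := PEx.pe1 (.X 4 * .X 5) (.X 0) (.X 1) (.X 2) (.X 3) (.X 6) * .X 7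

theorem baseEx_ml : [B0Ex, R7Ex, r1Ex, r4Ex, r2Ex, r5Ex, A3Ex, A4Ex, Z8Ex, P8Ex, a8Ex].all
    PEx.ml = true := by decide +kernel

end Pool.Agent.MalP
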