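import Pool.Agent.MalP.Super5

/-! # The finite identities from the certificates -/

set_option autoImplicit false

namespace Pool.Agent.MalP

universe u v

open Finset Equiv

section

variable {B : Type u} [NonUnitalNonAssocRing B]

theorem Jac_negl (x y z : B) : Jac (-x) y z = - Jac x y z := by
  unfold Jac
  simp only [neg_mul, mul_neg]
  abel

theorem Jac_negm (x y z : B) : Jac x (-y) z = - Jac x y z := by
  unfold Jac
  simp only [neg_mul, mul_neg]
  abel

theorem Jac_negr (x y z : B) : Jac x y (-z) = - Jac x y z := by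
  unfold Jac
  simp only [neg_mul, mul_neg]
  abel

/-- the values of the even generators -/
def wv (x1 x2 x3 x4 : B) : ℕ → B
  | 1 => x1
  | 2 => x2
  | 3 => x3
  | 4 => x4
  | _ => 0

end

theorem sig36_12 {B : Type u} [NonUnitalNonAssocRing B] (h : IsMalcev B) (a b c x y : B) :
    sig36 b a c x y = - sig36 a b c x y := by
  unfold sig36
  rw [h.Jac12 a b c, h.P12, neg_mul, neg_mul, smul_neg, Jac_negl, smul_neg]
  abel

theorem sig36_23 {B : Type u} [NonUnitalNonAssocRing B] (h : IsMalcev B) (a b c x y : B) :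
    sig36 a c b x y = - sig36 a b c x y := by
  unfold sig36
  rw [h.Jac23 a b c, h.P23, neg_mul, neg_mul, smul_neg, Jac_negl, smul_neg]
  abel

theorem T108_12 {B : Type u} [NonUnitalNonAssocRing B] (h : IsMalcev B) (v w a b c : B) :
    T108 v w b a c = - T108 v w a b c := by
  unfold T108
  simp only [h.Jac12 a b c, h.Jac23 _ a b, mul_neg, neg_mul, Jac_negl, Jac_negr]
  abel

theorem T108_23 {B : Type u} [NonUnitalNonAssocRing B] (h : IsMalcev B) (v w a b c : B) :
    T108 v w a c b = - T108 v w a b c := by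
  unfold T108
  simp only [h.Jac23 _ b c, mul_neg, neg_mul, Jac_negl, Jac_negr]
  abel

theorem F1_of (F : Type v) [Field F] [C23 F] {B : Type u} [NonUnitalNonAssocRing B]
    [Module F B] (C : Cert.{u} 1 idsM par1 (cls1 3) F1Ex) (h : IsMalcev B) (a b c x y : B) :
    P108 a b c y x - P108 a b c x y = 12 • Jac (Jac a b c) x y + 36 • (Jac a b c * (x * y)) := by
  have key := super_skew (hsm := by decide +kernel) idsM_ml 3 par1 (cls1 3) F1Ex (by decide +kernel) (by decide +kernel)
    (by decide) (by decide +kernel) C (h.algM 1 F) (wv x y 0 0)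
    (fun i j hij _ => skew_of_adj (fun y' => F1Ex.ev (asg 3 (cls1 3) y' (wv x y 0 0))) (by
      intro i z
      fin_cases i
      · show P108 (z 1) (z 0) (z 2) y x - P108 (z 1) (z 0) (z 2) x y -
          (12 • Jac (Jac (z 1) (z 0) (z 2)) x y + 36 • (Jac (z 1) (z 0) (z 2) * (x * y))) =
          -(P108 (z 0) (z 1) (z 2) y x - P108 (z 0) (z 1) (z 2) x y -
          (12 • Jac (Jac (z 0) (z 1) (z 2)) x y + 36 • (Jac (z 0) (z 1) (z 2) * (x * y))))
        rw [h.P12 (z 0), h.P12 (z 0), h.Jac12 (z 0), Jac_negl, neg_mul, smul_neg, smul_neg]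
        abel
      · show P108 (z 0) (z 2) (z 1) y x - P108 (z 0) (z 2) (z 1) x y -
          (12 • Jac (Jac (z 0) (z 2) (z 1)) x y + 36 • (Jac (z 0) (z 2) (z 1) * (x * y))) =
          -(P108 (z 0) (z 1) (z 2) y x - P108 (z 0) (z 1) (z 2) x y -
          (12 • Jac (Jac (z 0) (z 1) (z 2)) x y + 36 • (Jac (z 0) (z 1) (z 2) * (x * y))))
        rw [h.P23 (z 0) (z 1), h.P23 (z 0) (z 1), h.Jac23 (z 0) (z 1), Jac_negl, neg_mul,
          smul_neg, smul_neg]
        abel) i j hij) ![a, b, c]
  exact sub_eq_zero.1 key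



theorem F8b_of (F : Type v) [Field F] [C23 F] {B : Type u} [NonUnitalNonAssocRing B]
    [Module F B] (C : Cert.{u} 1 idsM par1 (cls1 3) F8Ex) (h : IsMalcev B) (v w b c d : B) :
    T108 v w b c d = - sig36 b c d v w := by
  have key := super_skew (hsm := by decide +kernel) idsM_ml 3 par1 (cls1 3) F8Ex (by decide +kernel) (by decide +kernel)
    (by decide) (by decide +kernel) C (h.algM 1 F) (wv v w 0 0)
    (fun i j hij _ => skew_of_adj (fun y' => F8Ex.ev (asg 3 (cls1 3) y' (wv v w 0 0))) (by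
      intro i z
      fin_cases i
      · show T108 v w (z 1) (z 0) (z 2) - (- sig36 (z 1) (z 0) (z 2) v w) =
          -(T108 v w (z 0) (z 1) (z 2) - (- sig36 (z 0) (z 1) (z 2) v w))
        rw [T108_12 h v w (z 0), sig36_12 h (z 0)]
        abel
      · show T108 v w (z 0) (z 2) (z 1) - (- sig36 (z 0) (z 2) (z 1) v w) =
          -(T108 v w (z 0) (z 1) (z 2) - (- sig36 (z 0) (z 1) (z 2) v w))
        rw [T108_23 h v w (z 0) (z 1), sig36_23 h (z 0) (z 1)]
        abel) i j hij) ![b, c, d]
  exact sub_eq_zero.1 key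

theorem F7_of (F : Type v) [Field F] [C23 F] {B : Type u} [NonUnitalNonAssocRing B]
    [Module F B] (C : Cert.{u} 1 idsM par1 (cls1 2) F7Ex) (h : IsMalcev B) (v x y a b : B) :
    36 • Jac ((v * x) * y + (v * y) * x) a b + 2 • sig36 v a b x y - sig36 y a b v x -
      sig36 x a b v y = 0 := by
  have key := super_skew (hsm := by decide +kernel) idsM_ml 2 par1 (cls1 2) F7Ex (by decide +kernel) (by decide +kernel)
    (by decide) (by decide +kernel) C (h.algM 1 F) (wv v x y 0)
    (fun i j hij _ => skew_of_adj (fun y' => F7Ex.ev (asg 2 (cls1 2) y' (wv v x y 0))) (by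
      intro i z
      fin_cases i
      show 36 • Jac ((v * x) * y + (v * y) * x) (z 1) (z 0) + 2 • sig36 v (z 1) (z 0) x y -
          sig36 y (z 1) (z 0) v x - sig36 x (z 1) (z 0) v y =
        -(36 • Jac ((v * x) * y + (v * y) * x) (z 0) (z 1) + 2 • sig36 v (z 0) (z 1) x y -
          sig36 y (z 0) (z 1) v x - sig36 x (z 0) (z 1) v y)
      rw [h.Jac23 _ (z 0), sig36_23 h v (z 0), sig36_23 h y (z 0), sig36_23 h x (z 0)]
      abel) i j hij) ![a, b]
  exact key

theorem F4_of (F : Type v) [Field F] [C23 F] {B : Type u} [NonUnitalNonAssocRing B]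
    [Module F B] (C : Cert.{u} 1 idsV par1 (cls1 0) F4Ex) (h : IsV B) (w x y z t p : B) :
    3 • P108 (w * x) y z t p = P108 x y z (w * t) p - P108 y z w (x * t) p -
      2 • P108 z w x (y * t) p + 2 • P108 w x y (z * t) p := by
  have key := super_skew (hsm := by decide +kernel) idsV_ml 0 par1 (cls1 0) F4Ex (by decide +kernel) (by decide +kernel)
    (by decide) (by decide +kernel) C (h.algV 1 F)
    (fun g => match g with | 1 => w | 2 => x | 3 => y | 4 => z | 5 => t | 6 => p | _ => 0)
    (fun i => i.elim0) ![]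
  exact sub_eq_zero.1 key

theorem F5_of (F : Type v) [Field F] [C23 F] {B : Type u} [NonUnitalNonAssocRing B]
    [Module F B] (C : Cert.{u} 1 idsV par1 (cls1 3) F5Ex) (h : IsV B) (a b c x y z : B) :
    sig36 a b c (x * z) y + sig36 a b c x (y * z) = 0 := by
  have hM := h.toIsMalcev
  have key := super_skew (hsm := by decide +kernel) idsV_ml 3 par1 (cls1 3) F5Ex (by decide +kernel) (by decide +kernel)
    (by decide) (by decide +kernel) C (h.algV 1 F) (wv x y z 0)
    (fun i j hij _ => skew_of_adj (fun y' => F5Ex.ev (asg 3 (cls1 3) y' (wv x y z 0))) (by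
      intro i q
      fin_cases i
      · show sig36 (q 1) (q 0) (q 2) (x * z) y + sig36 (q 1) (q 0) (q 2) x (y * z) =
          -(sig36 (q 0) (q 1) (q 2) (x * z) y + sig36 (q 0) (q 1) (q 2) x (y * z))
        rw [sig36_12 hM (q 0), sig36_12 hM (q 0)]
        abel
      · show sig36 (q 0) (q 2) (q 1) (x * z) y + sig36 (q 0) (q 2) (q 1) x (y * z) =
          -(sig36 (q 0) (q 1) (q 2) (x * z) y + sig36 (q 0) (q 1) (q 2) x (y * z))
        rw [sig36_23 hM (q 0) (q 1), sig36_23 hM (q 0) (q 1)]
        abel) i j hij) ![a, b, c]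
  exact key

theorem F3_of (F : Type v) [Field F] [C23 F] {B : Type u} [NonUnitalNonAssocRing B]
    [Module F B] (C : Cert.{u} 1 idsV par1 (cls1 3) F3Ex) (h : IsV B) (a b c x y z : B) :
    ((GP.J a b c).m z).sig x y = sig36 a b c x y * z := by
  have hM := h.toIsMalcev
  have key := super_skew (hsm := by decide +kernel) idsV_ml 3 par1 (cls1 3) F3Ex (by decide +kernel) (by decide +kernel)
    (by decide) (by decide +kernel) C (h.algV 1 F) (wv x y z 0)
    (fun i j hij _ => skew_of_adj (fun y' => F3Ex.ev (asg 3 (cls1 3) y' (wv x y z 0))) (by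
      intro i q
      fin_cases i
      · show - (36 • (((Jac (q 1) (q 0) (q 2) * z) * x) * y)) +
            12 • Jac (Jac (q 1) (q 0) (q 2) * z) x y + P108 (q 1) (q 0) (q 2) (z * y) x -
            sig36 (q 1) (q 0) (q 2) x y * z =
          -(- (36 • (((Jac (q 0) (q 1) (q 2) * z) * x) * y)) +
            12 • Jac (Jac (q 0) (q 1) (q 2) * z) x y + P108 (q 0) (q 1) (q 2) (z * y) x -
            sig36 (q 0) (q 1) (q 2) x y * z)
        rw [sig36_12 hM (q 0), hM.Jac12 (q 0), hM.P12 (q 0)]
        simp only [neg_mul, Jac_negl, smul_neg]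
        abel
      · show - (36 • (((Jac (q 0) (q 2) (q 1) * z) * x) * y)) +
            12 • Jac (Jac (q 0) (q 2) (q 1) * z) x y + P108 (q 0) (q 2) (q 1) (z * y) x -
            sig36 (q 0) (q 2) (q 1) x y * z =
          -(- (36 • (((Jac (q 0) (q 1) (q 2) * z) * x) * y)) +
            12 • Jac (Jac (q 0) (q 1) (q 2) * z) x y + P108 (q 0) (q 1) (q 2) (z * y) x -
            sig36 (q 0) (q 1) (q 2) x y * z)
        rw [sig36_23 hM (q 0) (q 1), hM.Jac23 (q 0) (q 1), hM.P23 (q 0) (q 1)]
        simp only [neg_mul, Jac_negl, smul_neg]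
        abel) i j hij) ![a, b, c]
  exact sub_eq_zero.1 key

end Pool.Agent.MalP
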