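import Pool.Agent.MalP.EeAlt
import Pool.Agent.MalP.FIdsOf

/-! # The base identities from the certificates -/

set_option autoImplicit false

namespace Pool.Agent.MalP

universe u v

open Finset Equiv

theorem pe_ev {A : Type v} [NonUnitalNonAssocRing A] (w : ℕ → A) (x0 x1 x2 x3 x4 y : PEx) :
    (PEx.pe x0 x1 x2 x3 x4 y).ev w =
      pe ![x0.ev w, x1.ev w, x2.ev w, x3.ev w, x4.ev w] (y.ev w) := rfl

theorem pe1_ev {A : Type v} [NonUnitalNonAssocRing A] (w : ℕ → A) (b x0 x1 x2 x3 y : PEx) :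
    (PEx.pe1 b x0 x1 x2 x3 y).ev w =
      pe1B (b.ev w) ![x0.ev w, x1.ev w, x2.ev w, x3.ev w] (y.ev w) := rfl

theorem pe2_ev {A : Type v} [NonUnitalNonAssocRing A] (w : ℕ → A) (b c x0 x1 x2 y : PEx) :
    (PEx.pe2 b c x0 x1 x2 y).ev w =
      pe2B (b.ev w) (c.ev w) ![x0.ev w, x1.ev w, x2.ev w] (y.ev w) := by
  unfold PEx.pe2 pe2B
  show (PEx.pe1 b c x0 x1 x2 y).ev w - (PEx.pe1 b x0 c x1 x2 y).ev w +
    (PEx.pe1 b x0 x1 c x2 y).ev w - (PEx.pe1 b x0 x1 x2 c y).ev w = _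
  rw [pe1_ev, pe1_ev, pe1_ev, pe1_ev]
  rfl

theorem pe3_ev {A : Type v} [NonUnitalNonAssocRing A] (w : ℕ → A) (b c d x0 x1 y : PEx) :
    (PEx.pe3 b c d x0 x1 y).ev w =
      pe3B (b.ev w) (c.ev w) (d.ev w) ![x0.ev w, x1.ev w] (y.ev w) := by
  unfold PEx.pe3 pe3B
  show (PEx.pe2 b c d x0 x1 y).ev w - (PEx.pe2 b c x0 d x1 y).ev w +
    (PEx.pe2 b c x0 x1 d y).ev w = _
  rw [pe2_ev, pe2_ev, pe2_ev]
  rfl

variable (F : Type u) [Field F] {A : Type v} [NonUnitalNonAssocRing A] [Module F A]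
  [IsScalarTower F A A] [SMulCommClass F A A] [CI 5 F]

theorem base_A3_of (C : Cert.{v} 5 idsM par1 (clsL [0, 0, 0, 0, 1, 1, 2, 3]) A3Ex)
    (h : IsMalcev A) (x0 x1 x2 x3 x a c : A) : (ee F x0 x1 x2 x3 x a * x) * c = 0 := by
  have key := super_alt idsM_ml 4 par1 _ A3Ex (by decide +kernel) (by decide +kernel)
    (by decide) rfl (by decide +kernel) C (h.algM 5 F) (wv x a c 0) ![x0, x1, x2, x3]
  rw [eeA_rot F x x0 x1 x2 x3 a, ee1, ← Alt_mul, ← Alt_mul]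
  exact key

theorem base_R7_of (C : Cert.{v} 5 idsM par1 (clsL [0, 0, 0, 0, 1, 1, 1]) R7Ex)
    (h : IsMalcev A) (x0 x1 x2 x3 x : A) : ee F x0 x1 x2 x3 x x * x = 0 := by
  have key := super_alt idsM_ml 4 par1 _ R7Ex (by decide +kernel) (by decide +kernel)
    (by decide) rfl (by decide +kernel) C (h.algM 5 F) (wv x 0 0 0) ![x0, x1, x2, x3]
  rw [eeA_rot F x x0 x1 x2 x3 x, ee1, ← Alt_mul]
  exact key

theorem base_A4_of (C : Cert.{v} 5 idsM par1 (clsL [0, 0, 0, 0, 1, 1, 2, 3]) A4Ex)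
    (h : IsMalcev A) (x0 x1 x2 x3 x a c : A) :
    ee F x0 x1 x2 x3 x a * (x * c) = (ee F x0 x1 x2 x3 x a * c) * x := by
  have key := super_alt idsM_ml 4 par1 _ A4Ex (by decide +kernel) (by decide +kernel)
    (by decide) rfl (by decide +kernel) C (h.algM 5 F) (wv x a c 0) ![x0, x1, x2, x3]
  rw [← sub_eq_zero, eeA_rot F x x0 x1 x2 x3 a, ee1, ← Alt_mul, ← Alt_mul, ← Alt_mul, ← Alt_sub]
  exact key

theorem zt_alt (n : ℕ) (f : (Fin n → A) → A) (b c : A) (x : Fin n → A) :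
    zt (Alt n f x) b c = Alt n (fun t => zt (f t) b c) x := by
  unfold zt
  rw [Alt_sub, Alt_sub, Alt_mul, Alt_mul, Alt_mul, Alt_mul, Alt_mul]

theorem base_Z8_of (C : Cert.{v} 5 idsM par1 (clsL [0, 0, 0, 0, 0, 1, 2, 3]) Z8Ex)
    (h : IsMalcev A) (x0 x1 x2 x3 x4 a b c : A) :
    zt (ee F x0 x1 x2 x3 x4 a) b c = zt (ee F x0 x1 x2 x3 x4 c) b a := by
  have key := super_alt idsM_ml 5 par1 _ Z8Ex (by decide +kernel) (by decide +kernel)
    (by decide) rfl (by decide +kernel) C (h.algM 5 F) (wv a b c 0) ![x0, x1, x2, x3, x4]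
  rw [← sub_eq_zero, ee0, ee0, zt_alt, zt_alt, ← Alt_sub]
  exact key

theorem base_a_of (C : Cert.{v} 5 idsM par1 (clsL [0, 0, 0, 0, 1, 2, 3, 4]) a8Ex)
    (h : IsMalcev A) (u v x0 x1 x2 x3 a c : A) : ee F (u * v) x0 x1 x2 x3 a * c = 0 := by
  have key := super_alt idsM_ml 4 par1 _ a8Ex (by decide +kernel) (by decide +kernel)
    (by decide) rfl (by decide +kernel) C (h.algM 5 F) (wv u v a c) ![x0, x1, x2, x3]
  rw [ee1, ← Alt_mul]
  exact key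

end Pool.Agent.MalP
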