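import Pool.Agent.MalP.Bhat

/-! # The model algebra is a Malcev algebra -/

set_option autoImplicit false

namespace Pool.Agent.MalP

universe u

variable {F : Type u} [Field F]

namespace Bh

theorem mal (x y z : Bh F) : Jac x y (x * z) = Jac x y z * x := by
  have e1 := ix_sq x.v
  have e2 := ix_sq y.v
  have e3 := ix_sq z.v
  have e4 := ix_anti y.v x.v
  have e5 := ix_anti z.v x.v
  have e6 := ix_anti z.v y.v
  have r1 := rv_ix x.v
  have r2 := rv_ix y.v
  have r3 := rv_ix z.v
  have a1 : ∀ t : Ex F, ix x.v * (ix x.v * t) = 0 := fun t => by rw [← mul_assoc, e1, zero_mul]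
  have a2 : ∀ t : Ex F, ix y.v * (ix y.v * t) = 0 := fun t => by rw [← mul_assoc, e2, zero_mul]
  have a3 : ∀ t : Ex F, ix z.v * (ix z.v * t) = 0 := fun t => by rw [← mul_assoc, e3, zero_mul]
  have a4 : ∀ t : Ex F, ix y.v * (ix x.v * t) = - (ix x.v * (ix y.v * t)) := fun t => by
    rw [← mul_assoc, e4, neg_mul, mul_assoc]
  have a5 : ∀ t : Ex F, ix z.v * (ix x.v * t) = - (ix x.v * (ix z.v * t)) := fun t => by
    rw [← mul_assoc, e5, neg_mul, mul_assoc]
  have a6 : ∀ t : Ex F, ix z.v * (ix y.v * t) = - (ix y.v * (ix z.v * t)) := fun t => by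
    rw [← mul_assoc, e6, neg_mul, mul_assoc]
  apply ext
  · simp [Jac]
  · intro i
    simp only [Jac, w_add, v_add, w_mul, v_mul, z_mul, Finsupp.add_apply, Finsupp.zero_apply, map_add, map_zero, map_sub,
      map_neg, map_smul, zero_smul, smul_zero, smul_sub, smul_add, smul_neg, mul_zero, zero_mul, add_zero, zero_add, sub_zero,
      zero_sub, neg_zero, mul_add, add_mul, mul_sub, sub_mul, smul_mul_assoc, mul_smul_comm, neg_mul,
      mul_neg, mul_assoc, e1, e2, e3, e4, e5, e6, a1, a2, a3, a4, a5, a6]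
    module
  · intro i j
    simp only [Jac, w_add, v_add, z_add, w_mul, v_mul, z_mul, Finsupp.add_apply, Finsupp.zero_apply, map_add, map_zero, map_sub,
      map_neg, map_smul, rv_mul, rv_rv, r1, r2, r3, zero_smul, smul_zero, smul_sub, smul_add, smul_neg, mul_zero, zero_mul, add_zero,
      zero_add, sub_zero,
      zero_sub, neg_zero, mul_add, add_mul, mul_sub, sub_mul, smul_mul_assoc, mul_smul_comm, neg_mul,
      mul_neg, mul_assoc, e1, e2, e3, e4, e5, e6, a1, a2, a3, a4, a5, a6]
    module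

theorem isMalcev : IsMalcev (Bh F) := ⟨sq, mal⟩

end Bh

end Pool.Agent.MalP
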