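import Pool.Agent.MalP.Ex
import Pool.Agent.MalP.Defs

/-! # Fields with some invertible primes -/

set_option autoImplicit false

namespace Pool.Agent.MalP

universe u v

/-- `6 * M` is invertible -/
class CI (M : ℕ) (F : Type v) [Field F] : Prop where
  ne : ((6 * M : ℕ) : F) ≠ 0

variable (F : Type v) [Field F]

instance (priority := 90) C23.ci [C23 F] : CI 1 F := ⟨by
  have h3 : ((6 * 1 : ℕ) : F) = 2 * 3 := by norm_num
  rw [h3]
  exact mul_ne_zero C23.two C23.three⟩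

instance (priority := 80) CI.c23 [CI 5 F] : C23 F where
  two := fun h => CI.ne (M := 5) (F := F) (by
    have h3 : ((6 * 5 : ℕ) : F) = 2 * 15 := by norm_num
    rw [h3, h, zero_mul])
  three := fun h => CI.ne (M := 5) (F := F) (by
    have h3 : ((6 * 5 : ℕ) : F) = 3 * 10 := by norm_num
    rw [h3, h, zero_mul])

instance (priority := 80) CI.ci5 [CI 35 F] : CI 5 F := ⟨fun h => CI.ne (M := 35) (F := F) (by
    have h3 : ((6 * 35 : ℕ) : F) = ((6 * 5 : ℕ) : F) * 7 := by norm_num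
    rw [h3, h, zero_mul])⟩

theorem CI.five [CI 5 F] : (5 : F) ≠ 0 := fun h => CI.ne (M := 5) (F := F) (by
    have h3 : ((6 * 5 : ℕ) : F) = 5 * 6 := by norm_num
    rw [h3, h, zero_mul])

theorem CI.seven [CI 35 F] : (7 : F) ≠ 0 := fun h => CI.ne (M := 35) (F := F) (by
    have h3 : ((6 * 35 : ℕ) : F) = 7 * 30 := by norm_num
    rw [h3, h, zero_mul])

instance (priority := 80) C57.ci [C57 F] : CI 35 F := ⟨by
  have h3 : ((6 * 35 : ℕ) : F) = 2 * 3 * (5 * 7) := by norm_num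
  rw [h3]
  exact mul_ne_zero (mul_ne_zero C23.two C23.three) (mul_ne_zero C57.five C57.seven)⟩

instance (priority := 70) CI.nz5 [CI 5 F] : NeZero (5 : F) := ⟨CI.five F⟩

/-- the numbers `2^a 3^b 5^c` are invertible -/
theorem CI.ne5 [CI 5 F] (a b c : ℕ) : ((2 ^ a * 3 ^ b * 5 ^ c : ℕ) : F) ≠ 0 := by
  push_cast
  exact mul_ne_zero (mul_ne_zero (pow_ne_zero _ C23.two) (pow_ne_zero _ C23.three))
    (pow_ne_zero _ (CI.five F))

variable {F} in
theorem Smooth.cast_ne {M : ℕ} {n : ℤ} (hn : Smooth M n) (F : Type v) [Field F] [CI M F] :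
    (n : F) ≠ 0 := by
  obtain ⟨k, m, hm⟩ := hn
  intro h
  have h1 : (((6 * M : ℕ) : ℤ) ^ k : ℤ) = n * m := hm
  have h2 : ((((6 * M : ℕ) : ℤ) ^ k : ℤ) : F) = 0 := by
    rw [h1, Int.cast_mul, h, zero_mul]
  rw [Int.cast_pow, Int.cast_natCast] at h2
  exact pow_ne_zero k (CI.ne (M := M) (F := F)) h2

end Pool.Agent.MalP
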