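import Pool.Agent.MalP.MQ
import Pool.Agent.MalP.Char23

/-! # Graded quotients: the elements `ew`, `Zt`, `wf` in the model algebra; numerals -/

set_option autoImplicit false

namespace Pool.Agent.MalP

universe u

section

variable {F : Type u} [Field F] [C23 F] (D : GE F)

theorem phiQ_ew (l : List ℕ) (a : ℕ) :
    phiQ D (ew F (l.map (oQ D)) (oQ D a)) = ew F (l.map (Bh.lt F)) (Bh.lt F a) := by
  rw [hom_ew, List.map_map, phiQ_of]
  congr 1
  exact List.map_congr_left fun i _ => phiQ_of D i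

theorem phiQ_Zt (l : List ℕ) (a c : ℕ) :
    phiQ D (Zt F (l.map (oQ D)) (oQ D a) (oQ D c)) =
      Zt F (l.map (Bh.lt F)) (Bh.lt F a) (Bh.lt F c) := by
  rw [hom_Zt, List.map_map, phiQ_of, phiQ_of]
  congr 1
  exact List.map_congr_left fun i _ => phiQ_of D i

theorem phiQ_wf (l : List ℕ) (a : ℕ) :
    phiQ D (wf F (l.map (oQ D)) (oQ D a)) = wf F (l.map (Bh.lt F)) (Bh.lt F a) := by
  rw [hom_wf, List.map_map, phiQ_of]
  congr 1
  exact List.map_congr_left fun i _ => phiQ_of D i

end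

theorem CI.n240 (F : Type u) [Field F] [CI 5 F] : (240 : F) ≠ 0 := by
  have h := CI.ne5 F 4 1 1
  norm_num at h
  exact h

theorem CI.n480 (F : Type u) [Field F] [CI 5 F] : (480 : F) ≠ 0 := by
  have h := CI.ne5 F 5 1 1
  norm_num at h
  exact h

theorem CI.n1920 (F : Type u) [Field F] [CI 5 F] : (1920 : F) ≠ 0 := by
  have h := CI.ne5 F 7 1 1
  norm_num at h
  exact h

end Pool.Agent.MalP
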