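import Pool.Agent.MalP.CSp7
import Pool.Agent.MalP.MQ2

/-! # Part C: injectivity for six letters -/

set_option autoImplicit false

open scoped BigOperators

namespace Pool.Agent.MalP

universe u

variable {F : Type u} [Field F] [CI 5 F]

omit [CI 5 F] in
/-- `ee` with letters is skew in its first five arguments (`ee_sw0..3`) -/
theorem ew_skew5 {A : Type*} [NonUnitalNonAssocRing A] [Module F A] [IsScalarTower F A A]
    [SMulCommClass F A A] (a : A) : SkewL 5 (fun l : List A => ew F l a) := by
  intro l1 x y l2 hn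
  rcases l1 with _ | ⟨p, _ | ⟨q, _ | ⟨r, _ | ⟨s, l1⟩⟩⟩⟩
  · rcases l2 with _ | ⟨p, _ | ⟨q, _ | ⟨r, _ | ⟨s, l2⟩⟩⟩⟩
    · simp at hn
    · simp at hn
    · simp at hn
    · exact ee_sw0 F y x p q r a
    · simp only [List.nil_append, List.length_cons] at hn
      omega
  · rcases l2 with _ | ⟨q, _ | ⟨r, _ | ⟨s, l2⟩⟩⟩
    · simp at hn
    · simp at hn
    · exact ee_sw1 F p y x q r a
    · simp only [List.cons_append, List.nil_append, List.length_cons] at hn
      omega
  · rcases l2 with _ | ⟨r, _ | ⟨s, l2⟩⟩
    · simp at hn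
    · exact ee_sw2 F p q y x r a
    · simp only [List.cons_append, List.nil_append, List.length_cons] at hn
      omega
  · rcases l2 with _ | ⟨s, l2⟩
    · exact ee_sw3 F p q r y x a
    · simp only [List.cons_append, List.nil_append, List.length_cons] at hn
      omega
  · simp only [List.cons_append, List.length_cons, List.length_append] at hn
    omega

variable (D : GE F)

/-- Use `inj_of_dual` with index type `{a // a ∈ L}`, `g a = ew F ((L.erase a).toList.map of) (of a)` (five letters), `f a x = x.w a` (`Bh.ew_lt_w`,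
`px_ne_zero`). Generators of `WLm D 5 L.val`: the list has exactly five letters, it is a permutation of `(L.erase a).toList` (`ew_skew5`). -/
theorem inj6 {L : Finset ℕ} (hL : L.card = 6) {q : MQ D}
    (hq : q ∈ WLm D 5 L.val) (h0 : phiQ D q = 0) : q = 0 := by
  classical
  have hlen : ∀ a ∈ L, (L.erase a).toList.length = 5 := by
    intro a ha
    rw [Finset.length_toList, Finset.card_erase_of_mem ha, hL]
  have hphi : ∀ (a : {a // a ∈ L}) (i : ℕ),
      (phiQ D (ew F ((L.erase a.1).toList.map (oQ D)) (oQ D a.1))).w i =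
        if i = a.1 then (240 : F) • px F (L.erase a.1).toList else 0 := by
    intro a i
    rw [phiQ_ew]
    exact Bh.ew_lt_w (by rw [hlen a.1 a.2]) a.1 i
  refine inj_of_dual (F := F) (ι := {a // a ∈ L}) (M := MQ D) (N := Bh F) (E := Ex F)
    (fun a => ew F ((L.erase a.1).toList.map (oQ D)) (oQ D a.1))
    (phiQ D : MQ D →ₗ[F] Bh F)
    (fun a => { toFun := fun x => x.w a.1, map_add' := fun _ _ => rfl, map_smul' := fun _ _ => rfl })
    ?_ ?_ ?_ h0
  · intro k k' hk
    show (phiQ D (ew F ((L.erase k'.1).toList.map (oQ D)) (oQ D k'.1))).w k.1 = 0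
    rw [hphi k' k.1, if_neg (fun h => hk (Subtype.ext h))]
  · intro k
    show (phiQ D (ew F ((L.erase k.1).toList.map (oQ D)) (oQ D k.1))).w k.1 ≠ 0
    rw [hphi k k.1, if_pos rfl]
    exact smul_ne_zero (CI.n240 F) (px_ne_zero F (Finset.nodup_toList _))
  · unfold WLm at hq
    refine (Submodule.span_le.mpr ?_) hq
    rintro _ ⟨xs, a, h5, hm, rfl⟩
    have ha : a ∈ L := by
      have : a ∈ (xs : Multiset ℕ) + {a} := by simp
      rw [hm] at this
      exact this
    have hxs : (xs : Multiset ℕ) = (L.erase a).val := by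
      rw [Finset.erase_val, ← hm, add_comm, Multiset.singleton_add, Multiset.erase_cons_head]
    have hperm : (xs.map (oQ D : ℕ → MQ D)).Perm
        ((L.erase a).toList.map (oQ D : ℕ → MQ D)) := by
      apply List.Perm.map
      rw [← Multiset.coe_eq_coe, hxs, Finset.coe_toList]
    have hl : (xs.map (oQ D : ℕ → MQ D)).length = 5 := by
      rw [hperm.length_eq, List.length_map, hlen a ha]
    have hmem : ew F ((L.erase a).toList.map (oQ D : ℕ → MQ D))
        (oQ D a) ∈ Submodule.span F (Set.range fun a : {a // a ∈ L} =>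
          ew F ((L.erase a.1).toList.map (oQ D)) (oQ D a.1)) :=
      Submodule.subset_span ⟨⟨a, ha⟩, rfl⟩
    rcases (ew_skew5 (F := F) (oQ D a : MQ D)).perm hperm hl with h | h
    · have h' : ew F (xs.map (oQ D : ℕ → MQ D)) (oQ D a) =
          ew F ((L.erase a).toList.map (oQ D)) (oQ D a) := h
      rw [SetLike.mem_coe, h']
      exact hmem
    · have h' : ew F (xs.map (oQ D : ℕ → MQ D)) (oQ D a) =
          - ew F ((L.erase a).toList.map (oQ D)) (oQ D a) := h
      rw [SetLike.mem_coe, h']
      exact Submodule.neg_mem _ hmem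

end Pool.Agent.MalP
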