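import Pool.Agent.MalP.Homs

/-! # The split seven-dimensional cross product algebra -/

set_option autoImplicit false

open scoped TensorProduct

namespace Pool.Agent.MalP

universe u

open CPA Matrix

variable (F : Type u) [Field F]

/-- the space of `C7` -/
abbrev C7E : Type u := F × (Fin 3 → F) × (Fin 3 → F)

namespace C7Aux

variable {F}

/-- equality in `C7E` -/
theorem ext {x y : C7E F} (h : x.1 = y.1) (h1 : x.2.1 = y.2.1) (h2 : x.2.2 = y.2.2) : x = y :=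
  Prod.ext h (Prod.ext h1 h2)

theorem ext3 {a b : Fin 3 → F} (h0 : a 0 = b 0) (h1 : a 1 = b 1) (h2 : a 2 = b 2) : a = b := by
  funext i
  fin_cases i <;> assumption

/-- the product -/
def mulf (x y : C7E F) : C7E F := (2 * (x.2.1 ⬝ᵥ y.2.2 - x.2.2 ⬝ᵥ y.2.1),
      x.1 • y.2.1 - y.1 • x.2.1 - (2 : F) • (x.2.2 ⨯₃ y.2.2),
      y.1 • x.2.2 - x.1 • y.2.2 + (2 : F) • (x.2.1 ⨯₃ y.2.1))

/-- the form -/
def sf (x y : C7E F) : F := - x.1 * y.1 - 2 * (x.2.1 ⬝ᵥ y.2.2 + x.2.2 ⬝ᵥ y.2.1)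

theorem mulf_1 (x y : C7E F) : (mulf x y).1 = 2 * (x.2.1 0 * y.2.2 0 + x.2.1 1 * y.2.2 1 +
    x.2.1 2 * y.2.2 2 - (x.2.2 0 * y.2.1 0 + x.2.2 1 * y.2.1 1 + x.2.2 2 * y.2.1 2)) := by
  simp only [mulf, vec3_dotProduct]

theorem mulf_u0 (x y : C7E F) : (mulf x y).2.1 0 = x.1 * y.2.1 0 - y.1 * x.2.1 0 -
    2 * (x.2.2 1 * y.2.2 2 - x.2.2 2 * y.2.2 1) := by
  change x.1 * y.2.1 0 - y.1 * x.2.1 0 - 2 * ((x.2.2 ⨯₃ y.2.2) 0) = _
  rw [cross_apply]
  rfl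

theorem mulf_u1 (x y : C7E F) : (mulf x y).2.1 1 = x.1 * y.2.1 1 - y.1 * x.2.1 1 -
    2 * (x.2.2 2 * y.2.2 0 - x.2.2 0 * y.2.2 2) := by
  change x.1 * y.2.1 1 - y.1 * x.2.1 1 - 2 * ((x.2.2 ⨯₃ y.2.2) 1) = _
  rw [cross_apply]
  rfl

theorem mulf_u2 (x y : C7E F) : (mulf x y).2.1 2 = x.1 * y.2.1 2 - y.1 * x.2.1 2 -
    2 * (x.2.2 0 * y.2.2 1 - x.2.2 1 * y.2.2 0) := by
  change x.1 * y.2.1 2 - y.1 * x.2.1 2 - 2 * ((x.2.2 ⨯₃ y.2.2) 2) = _
  rw [cross_apply]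
  rfl

theorem mulf_v0 (x y : C7E F) : (mulf x y).2.2 0 = y.1 * x.2.2 0 - x.1 * y.2.2 0 +
    2 * (x.2.1 1 * y.2.1 2 - x.2.1 2 * y.2.1 1) := by
  change y.1 * x.2.2 0 - x.1 * y.2.2 0 + 2 * ((x.2.1 ⨯₃ y.2.1) 0) = _
  rw [cross_apply]
  rfl

theorem mulf_v1 (x y : C7E F) : (mulf x y).2.2 1 = y.1 * x.2.2 1 - x.1 * y.2.2 1 +
    2 * (x.2.1 2 * y.2.1 0 - x.2.1 0 * y.2.1 2) := by
  change y.1 * x.2.2 1 - x.1 * y.2.2 1 + 2 * ((x.2.1 ⨯₃ y.2.1) 1) = _
  rw [cross_apply]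
  rfl

theorem mulf_v2 (x y : C7E F) : (mulf x y).2.2 2 = y.1 * x.2.2 2 - x.1 * y.2.2 2 +
    2 * (x.2.1 0 * y.2.1 1 - x.2.1 1 * y.2.1 0) := by
  change y.1 * x.2.2 2 - x.1 * y.2.2 2 + 2 * ((x.2.1 ⨯₃ y.2.1) 2) = _
  rw [cross_apply]
  rfl

theorem sf_eq (x y : C7E F) : sf x y = - x.1 * y.1 - 2 * (x.2.1 0 * y.2.2 0 + x.2.1 1 * y.2.2 1 +
    x.2.1 2 * y.2.2 2 + (x.2.2 0 * y.2.1 0 + x.2.2 1 * y.2.1 1 + x.2.2 2 * y.2.1 2)) := by
  simp only [sf, vec3_dotProduct]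

theorem mulf_add_left (x x' y : C7E F) : mulf (x + x') y = mulf x y + mulf x' y := by
  refine C7Aux.ext ?_ (C7Aux.ext3 ?_ ?_ ?_) (C7Aux.ext3 ?_ ?_ ?_) <;>
    (simp only [mulf_1, mulf_u0, mulf_u1, mulf_u2, mulf_v0, mulf_v1, mulf_v2, sf_eq,
      Prod.fst_add, Prod.snd_add, Prod.smul_fst, Prod.smul_snd, Pi.add_apply, Pi.smul_apply,
      Prod.fst_sub, Prod.snd_sub, Pi.sub_apply, Prod.fst_zero, Prod.snd_zero, Pi.zero_apply,
      smul_eq_mul]; ring)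

theorem mulf_smul_left (c : F) (x y : C7E F) : mulf (c • x) y = c • mulf x y := by
  refine C7Aux.ext ?_ (C7Aux.ext3 ?_ ?_ ?_) (C7Aux.ext3 ?_ ?_ ?_) <;>
    (simp only [mulf_1, mulf_u0, mulf_u1, mulf_u2, mulf_v0, mulf_v1, mulf_v2, sf_eq,
      Prod.fst_add, Prod.snd_add, Prod.smul_fst, Prod.smul_snd, Pi.add_apply, Pi.smul_apply,
      Prod.fst_sub, Prod.snd_sub, Pi.sub_apply, Prod.fst_zero, Prod.snd_zero, Pi.zero_apply,
      smul_eq_mul]; ring)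

theorem mulf_add_right (x y y' : C7E F) : mulf x (y + y') = mulf x y + mulf x y' := by
  refine C7Aux.ext ?_ (C7Aux.ext3 ?_ ?_ ?_) (C7Aux.ext3 ?_ ?_ ?_) <;>
    (simp only [mulf_1, mulf_u0, mulf_u1, mulf_u2, mulf_v0, mulf_v1, mulf_v2, sf_eq,
      Prod.fst_add, Prod.snd_add, Prod.smul_fst, Prod.smul_snd, Pi.add_apply, Pi.smul_apply,
      Prod.fst_sub, Prod.snd_sub, Pi.sub_apply, Prod.fst_zero, Prod.snd_zero, Pi.zero_apply,
      smul_eq_mul]; ring)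

theorem mulf_smul_right (c : F) (x y : C7E F) : mulf x (c • y) = c • mulf x y := by
  refine C7Aux.ext ?_ (C7Aux.ext3 ?_ ?_ ?_) (C7Aux.ext3 ?_ ?_ ?_) <;>
    (simp only [mulf_1, mulf_u0, mulf_u1, mulf_u2, mulf_v0, mulf_v1, mulf_v2, sf_eq,
      Prod.fst_add, Prod.snd_add, Prod.smul_fst, Prod.smul_snd, Pi.add_apply, Pi.smul_apply,
      Prod.fst_sub, Prod.snd_sub, Pi.sub_apply, Prod.fst_zero, Prod.snd_zero, Pi.zero_apply,
      smul_eq_mul]; ring)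

theorem sf_add_left (x x' y : C7E F) : sf (x + x') y = sf x y + sf x' y := by
  simp only [sf_eq, Prod.fst_add, Prod.snd_add, Pi.add_apply]
  ring

theorem sf_smul_left (c : F) (x y : C7E F) : sf (c • x) y = c • sf x y := by
  simp only [sf_eq, Prod.smul_fst, Prod.smul_snd, Pi.smul_apply, smul_eq_mul]
  ring

theorem sf_add_right (x y y' : C7E F) : sf x (y + y') = sf x y + sf x y' := by
  simp only [sf_eq, Prod.fst_add, Prod.snd_add, Pi.add_apply]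
  ring

theorem sf_smul_right (c : F) (x y : C7E F) : sf x (c • y) = c • sf x y := by
  simp only [sf_eq, Prod.smul_fst, Prod.smul_snd, Pi.smul_apply, smul_eq_mul]
  ring

theorem mulf_self (x : C7E F) : mulf x x = 0 := by
  refine C7Aux.ext ?_ (C7Aux.ext3 ?_ ?_ ?_) (C7Aux.ext3 ?_ ?_ ?_) <;>
    (simp only [mulf_1, mulf_u0, mulf_u1, mulf_u2, mulf_v0, mulf_v1, mulf_v2, sf_eq,
      Prod.fst_add, Prod.snd_add, Prod.smul_fst, Prod.smul_snd, Pi.add_apply, Pi.smul_apply,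
      Prod.fst_sub, Prod.snd_sub, Pi.sub_apply, Prod.fst_zero, Prod.snd_zero, Pi.zero_apply,
      smul_eq_mul]; ring)

theorem sf_symm (x y : C7E F) : sf x y = sf y x := by
  simp only [sf_eq]
  ring

theorem sf_assoc (x y z : C7E F) : sf (mulf x y) z = sf x (mulf y z) := by
  simp only [sf_eq, mulf_1, mulf_u0, mulf_u1, mulf_u2, mulf_v0, mulf_v1, mulf_v2]
  ring

theorem main (x y z : C7E F) : mulf x (mulf y z) + mulf (mulf x y) z =
    (2 * sf x z) • y - sf x y • z - sf y z • x := by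
  refine C7Aux.ext ?_ (C7Aux.ext3 ?_ ?_ ?_) (C7Aux.ext3 ?_ ?_ ?_) <;>
    (simp only [mulf_1, mulf_u0, mulf_u1, mulf_u2, mulf_v0, mulf_v1, mulf_v2, sf_eq,
      Prod.fst_add, Prod.snd_add, Prod.smul_fst, Prod.smul_snd, Pi.add_apply, Pi.smul_apply,
      Prod.fst_sub, Prod.snd_sub, Pi.sub_apply, Prod.fst_zero, Prod.snd_zero, Pi.zero_apply,
      smul_eq_mul]; ring)

end C7Aux

open C7Aux in
/-- the seven-dimensional cross product algebra over the extension `K` of `F` -/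
noncomputable def C7K (F K : Type u) [Field F] [Field K] [Algebra F K] : CPA F where
  S := K
  E := C7E K
  mul := LinearMap.mk₂ K (fun x y => (2 * (x.2.1 ⬝ᵥ y.2.2 - x.2.2 ⬝ᵥ y.2.1),
      x.1 • y.2.1 - y.1 • x.2.1 - (2 : K) • (x.2.2 ⨯₃ y.2.2),
      y.1 • x.2.2 - x.1 • y.2.2 + (2 : K) • (x.2.1 ⨯₃ y.2.1)))
    mulf_add_left mulf_smul_left mulf_add_right mulf_smul_right
  s := LinearMap.mk₂ K (fun x y => - x.1 * y.1 - 2 * (x.2.1 ⬝ᵥ y.2.2 + x.2.2 ⬝ᵥ y.2.1))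
    sf_add_left sf_smul_left sf_add_right sf_smul_right
  skew := mulf_self
  symm := sf_symm
  assoc := sf_assoc
  main := main

namespace C7Aux

variable {K : Type u} [Field K]

/-- the coordinate vector with index `0` -/
def E0 : C7E K := (1, 0, 0)

/-- the coordinate vectors of the first half -/
def Ei (i : Fin 3) : C7E K := (0, Pi.single i 1, 0)

/-- the coordinate vectors of the second half -/
def Fi (i : Fin 3) : C7E K := (0, 0, Pi.single i 1)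

theorem sf_E0 (x : C7E K) : sf E0 x = - x.1 := by
  simp [sf, E0]

theorem sf_Ei (i : Fin 3) (x : C7E K) : sf (Ei i) x = -(2 * x.2.2 i) := by
  simp [sf, Ei]

theorem sf_Fi (i : Fin 3) (x : C7E K) : sf (Fi i) x = -(2 * x.2.1 i) := by
  simp [sf, Fi]

variable {F : Type u} [Field F] [Algebra F K]

theorem s_eq (x y : (C7K F K).E) : (C7K F K).s x y = sf (x : C7E K) (y : C7E K) := rfl

theorem mul_eq (x y : (C7K F K).E) : (C7K F K).mul x y = mulf (x : C7E K) (y : C7E K) := rfl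

theorem nondeg (h2 : (2 : K) ≠ 0) (x : C7E K) (h : ∀ y : C7E K, sf x y = 0) : x = 0 := by
  have h' : ∀ y : C7E K, sf y x = 0 := fun y => by
    rw [sf_symm]
    exact h y
  have hu : ∀ i, (x : C7E K).2.1 i = 0 := fun i => by
    have := h' (Fi i)
    rw [sf_Fi, neg_eq_zero, mul_eq_zero] at this
    exact this.resolve_left h2
  have hv : ∀ i, (x : C7E K).2.2 i = 0 := fun i => by
    have := h' (Ei i)
    rw [sf_Ei, neg_eq_zero, mul_eq_zero] at this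
    exact this.resolve_left h2
  have h0 : (x : C7E K).1 = 0 := by
    have := h' E0
    rwa [sf_E0, neg_eq_zero] at this
  exact C7Aux.ext h0 (funext hu) (funext hv)

end C7Aux

/-- an extension of a field of characteristic different from 2 and 3 -/
theorem C23.ext (F K : Type*) [Field F] [Field K] [Algebra F K] [C23 F] : C23 K where
  two := by
    have h := (map_ne_zero (algebraMap F K)).2 (C23.two (F := F))
    rwa [map_ofNat] at h
  three := by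
    have h := (map_ne_zero (algebraMap F K)).2 (C23.three (F := F))
    rwa [map_ofNat] at h

end Pool.Agent.MalP
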