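import Pool.Agent.MalP.CSkew

/-! # Part C: products of elements of `Q` with elements of `A²` -/

set_option autoImplicit false

namespace Pool.Agent.MalP

universe u v

variable (F : Type u) [Field F] [CI 5 F] {A : Type v} [NonUnitalNonAssocRing A] [Module F A]
  [IsScalarTower F A A] [SMulCommClass F A A] [HPc F A]

namespace CBetaAux

omit [CI 5 F] [Module F A] [IsScalarTower F A A] [SMulCommClass F A A] in
theorem anti {A : Type v} [NonUnitalNonAssocRing A] (h : IsMalcev A) (x y : A) :
    x * y = -(y * x) := by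
  have h1 := h.sq (x + y)
  rw [mul_add, add_mul, add_mul, h.sq x, h.sq y, zero_add, add_zero] at h1
  exact (eq_neg_of_add_eq_zero_right h1)

include F in
omit [IsScalarTower F A A] [SMulCommClass F A A] in
theorem cancel2 {x y : A} (hxy : (2 : ℕ) • x = (2 : ℕ) • y) : x = y := by
  have h2 : (2 : F) • x = (2 : F) • y := by
    rw [ofNat_smul_eq_nsmul F 2 x, ofNat_smul_eq_nsmul F 2 y]
    exact hxy
  exact smul_right_injective A (two_ne_zero : (2 : F) ≠ 0) h2

theorem mm_prod {A : Type v} [NonUnitalNonAssocRing A] (a b : A) (cs : List A) :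
    ∃ u v : A, mm a b cs = u * v := by
  rcases cs.eq_nil_or_concat with rfl | ⟨l, c, rfl⟩
  · exact ⟨a, b, rfl⟩
  · rw [List.concat_eq_append, mm_append]
    exact ⟨_, _, rfl⟩

theorem eps_succ (k : ℕ) : eps (k + 1) = (-1) ^ (k + 1) * eps k := rfl

theorem eps_cases (k : ℕ) : eps k = 1 ∨ eps k = -1 := by
  induction k with
  | zero => exact Or.inr rfl
  | succ k ih =>
    rw [eps_succ]
    rcases neg_one_pow_eq_or ℤ (k + 1) with h | h <;> rcases ih with h' | h' <;> rw [h, h'] <;> simp

end CBetaAux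

open CBetaAux

/-- Induct on the length `k` of `cs` (last letter first). `q = ew F xs y`.
`k = 0`: `2 q (a b) = zt q a b - zt q b a`, `eps 0 = -1`.
`k = 1`: `good_one`: `q ((a b) c) = ((q a) b) c + ((q a) c) b - (q b)(a c)`; `zt (q a) b c + zt (q a) c b = -2 (((q a) b) c + ((q a) c) b)`,
`2 (q b)(a c) = zt (q b) a c - zt (q b) c a`, so with `Z(p,r;s) = Zt (xs ++ [p,r]) y s`:
`2 q ((a b) c) = -Z(a,b;c) - Z(a,c;b) - Z(b,a;c) + Z(b,c;a) = Z(b,c;a) - Z(a,c;b)` (skewness), `eps 1 = 1`.
`k ≥ 2`, `cs = cs' ++ [z, t]`: `good_one'` (`mm a b cs'` is a product): `q (((mm a b cs') z) t) = - (q z)((mm a b cs') t)`, and `q z = ew (xs ++ [z]) y`;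
by induction this is `- eps (k-1) [Zt (xs ++ z :: b :: cs' ++ [t]) y a - ..]/2`; move `z` over `b :: cs'` (`k - 1` entries): factor `(-1)^(k-1)`;
`eps k = (-1)^k eps (k-1)`. -/
theorem beta_mm (h : IsMalcev A) (cs : List A) : ∀ (xs : List A), 5 ≤ xs.length → ∀ y a b : A,
    2 • (ew F xs y * mm a b cs) =
      eps cs.length • (Zt F (xs ++ b :: cs) y a - Zt F (xs ++ a :: cs) y b) := by
  have key : ∀ (n : ℕ) (cs : List A), cs.length = n → ∀ (xs : List A), 5 ≤ xs.length →
      ∀ y a b : A, 2 • (ew F xs y * mm a b cs) =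
        eps n • (Zt F (xs ++ b :: cs) y a - Zt F (xs ++ a :: cs) y b) := by
    intro n
    induction n with
    | zero =>
      intro cs hcs xs hxs y a b
      obtain rfl := List.length_eq_zero_iff.1 hcs
      rw [Zt_append, Zt_append, mm_nil]
      unfold zt eps
      rw [anti h b a, mul_neg, neg_one_smul]
      abel
    | succ n ih =>
      intro cs hcs xs hxs y a b
      rcases cs.eq_nil_or_concat with rfl | ⟨l, t, rfl⟩
      · simp at hcs
      rw [List.concat_eq_append] at hcs ⊢
      rcases l.eq_nil_or_concat with rfl | ⟨l', z, rfl⟩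
      · -- one letter
        have hn : n = 0 := by simpa using hcs.symm
        subst hn
        have hg : Good (ew F xs y) := good_ew' F h xs y
        have e1 := good_one F h hg a b t
        have e2 : ∀ p r s : A, Zt F (xs ++ p :: [r]) y s = zt (ew F xs y * p) r s := by
          intro p r s
          have : xs ++ p :: [r] = (xs ++ [p]) ++ [r] := by simp
          rw [this, Zt_append, ew_append F hxs]
        have hsk := Zt_skew F h (xs.length + 2) (by omega) y t xs a b [] (by simp)
        have hsk' : Zt F (xs ++ [a, b]) y t = - Zt F (xs ++ [b, a]) y t := hsk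
        rw [e2, e2] at hsk'
        rw [List.nil_append, e2, e2]
        have h3 : mm a b [t] = (a * b) * t := rfl
        have h4 : eps (0 + 1) = 1 := rfl
        rw [h3, h4, one_smul, e1]
        unfold zt at hsk' ⊢
        rw [anti h t a, anti h t b, mul_neg, mul_neg]
        have h5 := eq_neg_iff_add_eq_zero.1 hsk'
        rw [← sub_eq_zero]
        refine Eq.trans ?_ (neg_eq_zero.2 h5)
        abel
      · -- at least two letters
        rw [List.concat_eq_append] at hcs ⊢
        have hl : l'.length + 1 = n := by simpa using hcs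
        obtain ⟨u, v, huv⟩ := mm_prod a b l'
        have hg : Good (ew F xs y) := good_ew' F h xs y
        have e1 := good_one' F h hg u v z t
        rw [mm_append, mm_append, huv, e1, ← huv, ← mm_append, ← ew_append F hxs, smul_neg]
        have e2 := ih (l' ++ [t]) (by simp [hl]) (xs ++ [z]) (by simp; omega) y a b
        rw [e2]
        have e3 : ∀ c d : A, Zt F (xs ++ [z] ++ c :: (l' ++ [t])) y d =
            (-1 : ℤ) ^ n • Zt F (xs ++ c :: (l' ++ [z] ++ [t])) y d := by
          intro c d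
          have hsk := (Zt_skew F h (xs.length + l'.length + 3) (by omega) y d).move xs (c :: l') [t] z
            (by simp; omega)
          have h1 : xs ++ [z] ++ c :: (l' ++ [t]) = xs ++ z :: (c :: l' ++ [t]) := by simp
          have h2 : xs ++ c :: (l' ++ [z] ++ [t]) = xs ++ (c :: l') ++ z :: [t] := by simp
          have h3 : (c :: l').length = n := by simp [hl]
          rw [h1, h2]
          rw [h3] at hsk
          exact hsk
        rw [e3, e3, ← smul_sub, smul_smul, ← neg_smul, eps_succ]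
        congr 1
        ring
  exact key cs.length cs rfl

/-- `e'(X; mm a b cs)` modulo the elements which are killed by all multiplications. Induct on `cs` (last letter first): `P_base`, and
`(e'(X;c) * mm a b cs') * d = 0` (`C1_base`; `mm a b cs'` is a product). -/
theorem e_mm (h : IsMalcev A) (cs : List A) : ∀ x0 x1 x2 x3 x4 a b d : A,
    ee F x0 x1 x2 x3 x4 (mm a b cs) * d =
      (-1 : ℤ) ^ cs.length • ((ew F (x0 :: x1 :: x2 :: x3 :: x4 :: a :: cs) b -
        ew F (x0 :: x1 :: x2 :: x3 :: x4 :: b :: cs) a) * d) := by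
  induction cs using List.reverseRecOn with
  | nil =>
    intro x0 x1 x2 x3 x4 a b d
    rw [mm_nil, P_base F h]
    simp [ew_cons, sub_mul]
  | append_singleton cs c ih =>
    intro x0 x1 x2 x3 x4 a b d
    obtain ⟨u, v, huv⟩ := mm_prod a b cs
    rw [mm_append, P_base F h, ih, huv, C1_base F h, zero_sub]
    have e1 : ∀ p q : A, ew F (x0 :: x1 :: x2 :: x3 :: x4 :: p :: (cs ++ [c])) q =
        ew F (x0 :: x1 :: x2 :: x3 :: x4 :: p :: cs) q * c := by
      intro p q
      have := ew_append F (xs := x0 :: x1 :: x2 :: x3 :: x4 :: p :: cs) (by simp) c q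
      rw [← this]
      simp
    rw [e1, e1, List.length_append, List.length_singleton, pow_succ, mul_neg_one, neg_smul,
      smul_mul_assoc, sub_mul _ _ c]

/-- `B(U;p,q) = eps k Zt U p q + (-1)^k Zt U q p` -/
noncomputable def Bf (k : ℕ) (U : List A) (p q : A) : A := eps k • Zt F U p q + (-1 : ℤ) ^ k • Zt F U q p

/-- (R'). `X = (x0,..,x4)`, `C = cs ++ [b]`, `k = cs.length`, `m = mm a' b' cs`. Use `base_Z8` with `c := m`:
`zt e'(X;a) b m = zt e'(X;m) b a`. LEFT: `(e_a m) b = 0`, `b m = - m b = - mm a' b' C`, so `2 LEFT = - 2 e_a (mm a' b' C) - 2 (e_a b) m`; by `beta_mm` this is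
`- eps (k+1) [Zt (X ++ b' :: C) a a' - Zt (X ++ a' :: C) a b'] - eps k [Zt (X ++ b :: b' :: cs) a a' - Zt (X ++ b :: a' :: cs) a b']`, and moving `b` over `k + 1` entries the
second bracket is `(-1)^(k+1)` times the first: `LEFT = - eps (k+1) [Zt (X ++ b' :: C) a a' - Zt (X ++ a' :: C) a b']`.
RIGHT (`e_mm`, `zt_zero_of`): `(-1)^k [Zt (X ++ a' :: C) b' a - Zt (X ++ b' :: C) a' a]`. -/
theorem R_rel (h : IsMalcev A) (x0 x1 x2 x3 x4 a b a' b' : A) (cs : List A) :
    Bf F (cs.length + 1) (x0 :: x1 :: x2 :: x3 :: x4 :: a' :: (cs ++ [b])) a b' =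
      Bf F (cs.length + 1) (x0 :: x1 :: x2 :: x3 :: x4 :: b' :: (cs ++ [b])) a a' := by
  obtain ⟨u, v, huv⟩ := mm_prod a' b' cs
  have hZ := base_Z8 F h x0 x1 x2 x3 x4 a b (mm a' b' cs)
  set X : List A := [x0, x1, x2, x3, x4] with hX
  have hX5 : X.length = 5 := rfl
  have hewX : ∀ y : A, ew F X y = ee F x0 x1 x2 x3 x4 y := fun y => rfl
  -- the left side
  have hb1 := beta_mm F h (cs ++ [b]) X (le_of_eq hX5.symm) a a' b'
  have hb2 := beta_mm F h cs (X ++ [b]) (by simp [hX5]) a a' b'
  have hmv : ∀ p q : A, Zt F (X ++ [b] ++ p :: cs) a q =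
      (-1 : ℤ) ^ (cs.length + 1) • Zt F (X ++ p :: (cs ++ [b])) a q := by
    intro p q
    have hsk := (Zt_skew F h (cs.length + 7) (by omega) a q).move X (p :: cs) [] b
      (by simp [hX5]; omega)
    have h1 : X ++ [b] ++ p :: cs = X ++ b :: (p :: cs ++ []) := by simp
    have h2 : X ++ p :: (cs ++ [b]) = X ++ (p :: cs) ++ b :: [] := by simp
    rw [h1, h2]
    exact hsk
  have hL : zt (ee F x0 x1 x2 x3 x4 a) b (mm a' b' cs) =
      - (eps (cs.length + 1) • (Zt F (X ++ b' :: (cs ++ [b])) a a' -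
        Zt F (X ++ a' :: (cs ++ [b])) a b')) := by
    apply cancel2 F
    rw [hmv, hmv, ← smul_sub, smul_smul, mul_comm (eps cs.length), ← eps_succ, ew_append F
      (le_of_eq hX5.symm), hewX] at hb2
    rw [hewX, mm_append, List.length_append, List.length_singleton] at hb1
    unfold zt
    have h0 : (ee F x0 x1 x2 x3 x4 a * mm a' b' cs) * b = 0 := by
      rw [huv]
      exact C1_base F h _ _ _ _ _ _ _ _ _
    rw [h0, sub_zero, anti h b (mm a' b' cs), mul_neg, smul_sub, smul_neg, smul_neg, hb1, hb2,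
      two_nsmul]
    abel
  -- the right side
  have hR : zt (ee F x0 x1 x2 x3 x4 (mm a' b' cs)) b a =
      (-1 : ℤ) ^ cs.length • (Zt F (X ++ a' :: (cs ++ [b])) b' a -
        Zt F (X ++ b' :: (cs ++ [b])) a' a) := by
    have h1 : ∀ p q : A, Zt F (X ++ p :: (cs ++ [b])) q a = zt (ew F (X ++ p :: cs) q) b a := by
      intro p q
      have : X ++ p :: (cs ++ [b]) = (X ++ p :: cs) ++ [b] := by simp
      rw [this, Zt_append]
    rw [h1, h1]
    have h2 : ∀ d, ee F x0 x1 x2 x3 x4 (mm a' b' cs) * d =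
        (-1 : ℤ) ^ cs.length • ((ew F (X ++ a' :: cs) b' - ew F (X ++ b' :: cs) a') * d) :=
      fun d => e_mm F h cs x0 x1 x2 x3 x4 a' b' d
    unfold zt
    rw [h2, h2, h2]
    simp only [smul_mul_assoc, sub_mul, smul_sub]
    abel
  rw [hL, hR] at hZ
  have hfin : Bf F (cs.length + 1) (X ++ a' :: (cs ++ [b])) a b' =
      Bf F (cs.length + 1) (X ++ b' :: (cs ++ [b])) a a' := by
    unfold Bf
    rw [pow_succ, mul_neg_one, neg_smul, neg_smul]
    rw [smul_sub, smul_sub] at hZ
    rw [← sub_eq_zero] at hZ ⊢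
    refine Eq.trans ?_ hZ
    abel
  exact hfin

/-- **Symmetry of `Zt`.** `k = 0`: `base_Z8`. `k ≥ 1`: write `U = x0 :: x1 :: x2 :: x3 :: d :: a' :: C`, `C` nonempty; `f d a' q = Bf k U p q` is skew in
`d, a'` (`Zt_skew`) and symmetric in `a', q` (`R_rel`), so it is `0` (`f d a q = -f a d q = -f a q d = f q a d = f q d a = -f d q a = -f d a q`). -/
theorem Bf_zero (h : IsMalcev A) (k : ℕ) (U : List A) (hU : U.length = k + 6) (p q : A) :
    Bf F k U p q = 0 := by
  rcases k with _ | k
  · obtain ⟨x0, x1, x2, x3, x4, t, rfl⟩ := exists_cons5 (xs := U) (by omega)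
    obtain ⟨b, rfl⟩ : ∃ b, t = [b] := by
      apply List.length_eq_one_iff.1
      simpa using hU
    have h1 : ∀ r s : A, Zt F [x0, x1, x2, x3, x4, b] r s = zt (ee F x0 x1 x2 x3 x4 r) b s :=
      fun r s => Zt_append F [x0, x1, x2, x3, x4] b r s
    unfold Bf
    rw [h1, h1, base_Z8 F h x0 x1 x2 x3 x4 p b q]
    have h2 : eps 0 = -1 := rfl
    rw [h2, pow_zero, neg_one_smul, one_smul, neg_add_cancel]
  · obtain ⟨x0, x1, x2, x3, x4, t, rfl⟩ := exists_cons5 (xs := U) (by omega)
    rcases t with _ | ⟨x5, t⟩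
    · simp at hU
    rcases t.eq_nil_or_concat with rfl | ⟨cs, b, rfl⟩
    · simp at hU
    rw [List.concat_eq_append] at hU ⊢
    have hcs : cs.length = k := by simpa using hU
    have hlen : ∀ d a : A, ([x0, x1, x2, x3] ++ d :: a :: (cs ++ [b])).length = k + 7 := by
      intro d a
      simp [hcs]
    have hsk : ∀ d a s : A, Bf F (k + 1) (x0 :: x1 :: x2 :: x3 :: d :: a :: (cs ++ [b])) p s =
        - Bf F (k + 1) (x0 :: x1 :: x2 :: x3 :: a :: d :: (cs ++ [b])) p s := by
      intro d a s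
      have e1 : Zt F (x0 :: x1 :: x2 :: x3 :: d :: a :: (cs ++ [b])) p s =
          - Zt F (x0 :: x1 :: x2 :: x3 :: a :: d :: (cs ++ [b])) p s :=
        Zt_skew F h (k + 7) (by omega) p s [x0, x1, x2, x3] d a (cs ++ [b]) (hlen d a)
      have e2 : Zt F (x0 :: x1 :: x2 :: x3 :: d :: a :: (cs ++ [b])) s p =
          - Zt F (x0 :: x1 :: x2 :: x3 :: a :: d :: (cs ++ [b])) s p :=
        Zt_skew F h (k + 7) (by omega) s p [x0, x1, x2, x3] d a (cs ++ [b]) (hlen d a)
      unfold Bf
      rw [e1, e2, smul_neg, smul_neg]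
      abel
    have hsy : ∀ d a s : A, Bf F (k + 1) (x0 :: x1 :: x2 :: x3 :: d :: a :: (cs ++ [b])) p s =
        Bf F (k + 1) (x0 :: x1 :: x2 :: x3 :: d :: s :: (cs ++ [b])) p a := by
      intro d a s
      have := R_rel F h x0 x1 x2 x3 d p b a s cs
      rw [hcs] at this
      exact this
    have h1 : Bf F (k + 1) (x0 :: x1 :: x2 :: x3 :: x4 :: x5 :: (cs ++ [b])) p q =
        - Bf F (k + 1) (x0 :: x1 :: x2 :: x3 :: x4 :: x5 :: (cs ++ [b])) p q := by
      conv_lhs => rw [hsk, hsy, hsk, hsy, hsk, hsy, neg_neg]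
    apply cancel2 F
    rw [two_nsmul, smul_zero]
    exact eq_neg_iff_add_eq_zero.1 h1

/-- consequence -/
theorem Zt_symm (h : IsMalcev A) (U : List A) (hU : 6 ≤ U.length) (p q : A) :
    Zt F U p q = Zt F U q p ∨ Zt F U p q = - Zt F U q p := by
  have h1 := Bf_zero F h (U.length - 6) U (by omega) p q
  unfold Bf at h1
  rcases eps_cases (U.length - 6) with h2 | h2 <;>
  rcases neg_one_pow_eq_or ℤ (U.length - 6) with h3 | h3 <;>
  rw [h2, h3] at h1
  · rw [one_smul, one_smul] at h1
    exact Or.inr (eq_neg_of_add_eq_zero_left h1)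
  · rw [one_smul, neg_one_smul, ← sub_eq_add_neg] at h1
    exact Or.inl (sub_eq_zero.1 h1)
  · rw [one_smul, neg_one_smul, neg_add_eq_zero] at h1
    exact Or.inl h1
  · rw [neg_one_smul, neg_one_smul, ← neg_add, neg_eq_zero] at h1
    exact Or.inr (eq_neg_of_add_eq_zero_left h1)

end Pool.Agent.MalP
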