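import Pool.Agent.MalP.QDefs
import Pool.Agent.MalP.Base

/-! # Part C: derivations and `e'` -/

set_option autoImplicit false

open scoped BigOperators

namespace Pool.Agent.MalP

universe u v

/-- the map `v ↦ (v b) c - (v c) b + v (b c)` -/
def delt {A : Type*} [NonUnitalNonAssocRing A] (b c v : A) : A := (v * b) * c - (v * c) * b + v * (b * c)

namespace CDerAux

theorem anti {A : Type*} [NonUnitalNonAssocRing A] (h : IsMalcev A) (x y : A) : x * y = -(y * x) := by
  have h1 := h.sq (x + y)
  rw [mul_add, add_mul, add_mul, h.sq, h.sq, zero_add, add_zero] at h1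
  exact eq_neg_of_add_eq_zero_right h1

/-- the linearised Malcev identity -/
theorem lin {A : Type*} [NonUnitalNonAssocRing A] (h : IsMalcev A) (x t y z : A) :
    Jac x y (t * z) + Jac t y (x * z) - Jac x y z * t - Jac t y z * x = 0 := by
  have h1 := h.mal (x + t) y z
  have h2 := h.mal x y z
  have h3 := h.mal t y z
  have e1 : Jac (x + t) y ((x + t) * z) = Jac x y (x * z) + Jac x y (t * z) + Jac t y (x * z) +
      Jac t y (t * z) := by
    simp only [Jac, mul_add, add_mul]
    abel
  have e2 : Jac (x + t) y z * (x + t) = Jac x y z * x + Jac x y z * t + Jac t y z * x +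
      Jac t y z * t := by
    simp only [Jac, mul_add, add_mul]
    abel
  rw [e1, e2, h2, h3] at h1
  have h4 : Jac x y z * x + Jac x y (t * z) + Jac t y (x * z) + Jac t y z * t -
      (Jac x y z * x + Jac x y z * t + Jac t y z * x + Jac t y z * t) = 0 := sub_eq_zero.2 h1
  rw [← h4]
  abel

set_option linter.unusedSimpArgs false in
/-- twice the identity -/
theorem delt_two {A : Type*} [NonUnitalNonAssocRing A] (h : IsMalcev A) (b c v w : A) :
    2 • (delt b c (v * w) - delt b c v * w - v * delt b c w) = 0 := by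
  have ha := anti h
  have r0 : w * v = -(v * w) := ha _ _
  have r1 : b * v = -(v * b) := ha _ _
  have r2 : c * v = -(v * c) := ha _ _
  have r3 : b * w = -(w * b) := ha _ _
  have r4 : c * w = -(w * c) := ha _ _
  have r5 : c * b = -(b * c) := ha _ _
  have r6 : b * (v * w) = -((v * w) * b) := ha _ _
  have r7 : c * (v * w) = -((v * w) * c) := ha _ _
  have r8 : w * (v * b) = -((v * b) * w) := ha _ _
  have r9 : c * (v * b) = -((v * b) * c) := ha _ _
  have r10 : w * (v * c) = -((v * c) * w) := ha _ _
  have r11 : b * (v * c) = -((v * c) * b) := ha _ _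
  have r12 : v * (w * b) = -((w * b) * v) := ha _ _
  have r13 : c * (w * b) = -((w * b) * c) := ha _ _
  have r14 : v * (w * c) = -((w * c) * v) := ha _ _
  have r15 : b * (w * c) = -((w * c) * b) := ha _ _
  have r16 : v * (b * c) = -((b * c) * v) := ha _ _
  have r17 : w * (b * c) = -((b * c) * w) := ha _ _
  have r18 : c * ((v * w) * b) = -(((v * w) * b) * c) := ha _ _
  have r19 : b * ((v * w) * c) = -(((v * w) * c) * b) := ha _ _
  have r20 : c * ((v * b) * w) = -(((v * b) * w) * c) := ha _ _
  have r21 : w * ((v * b) * c) = -(((v * b) * c) * w) := ha _ _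
  have r22 : b * ((v * c) * w) = -(((v * c) * w) * b) := ha _ _
  have r23 : w * ((v * c) * b) = -(((v * c) * b) * w) := ha _ _
  have r24 : c * ((w * b) * v) = -(((w * b) * v) * c) := ha _ _
  have r25 : v * ((w * b) * c) = -(((w * b) * c) * v) := ha _ _
  have r26 : b * ((w * c) * v) = -(((w * c) * v) * b) := ha _ _
  have r27 : v * ((w * c) * b) = -(((w * c) * b) * v) := ha _ _
  have r28 : w * ((b * c) * v) = -(((b * c) * v) * w) := ha _ _
  have r29 : v * ((b * c) * w) = -(((b * c) * w) * v) := ha _ _
  have r30 : (w * b) * (v * c) = -((v * c) * (w * b)) := ha _ _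
  have r31 : (w * c) * (v * b) = -((v * b) * (w * c)) := ha _ _
  have r32 : (b * c) * (v * w) = -((v * w) * (b * c)) := ha _ _
  have i1 := lin h b c w v
  have i2 := lin h v b w c
  have i3 := lin h v b c w
  have i4 := lin h w b v c
  have key : 2 • (delt b c (v * w) - delt b c v * w - v * delt b c w) =
      (Jac b w (c * v) + Jac c w (b * v) - Jac b w v * c - Jac c w v * b) +
      2 • (Jac v w (b * c) + Jac b w (v * c) - Jac v w c * b - Jac b w c * v) +
      (Jac v c (b * w) + Jac b c (v * w) - Jac v c w * b - Jac b c w * v) -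
      (Jac w v (b * c) + Jac b v (w * c) - Jac w v c * b - Jac b v c * w) := by
    simp only [Jac, delt, mul_add, add_mul, mul_sub, sub_mul, mul_neg, neg_mul, neg_neg, r0, r1, r2, r3, r4, r5, r6, r7, r8, r9, r10, r11, r12, r13, r14, r15, r16, r17, r18, r19, r20, r21, r22, r23, r24, r25, r26, r27, r28, r29, r30, r31, r32]
    abel
  rw [key, i1, i2, i3, i4]
  simp

/-- the Leibniz rule for `pe` -/
theorem der_pe {A : Type*} [NonUnitalNonAssocRing A] (D : A → A) (hadd : ∀ a b, D (a + b) = D a + D b)
    (hmul : ∀ a b, D (a * b) = D a * b + a * D b) (x : Fin 5 → A) (y : A) :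
    D (pe x y) = ∑ i, pe (Function.update x i (D (x i))) y + pe x (D y) := by
  let E : A →+ A := AddMonoidHom.mk' D hadd
  have hE : ∀ a, D a = E a := fun _ => rfl
  have hm : ∀ a b, E (a * b) = E a * b + a * E b := hmul
  rw [Fin.sum_univ_five]
  have u : ∀ (i j : Fin 5) (a : A), i ≠ j → Function.update x i a j = x j := fun i j a hij =>
    Function.update_of_ne (Ne.symm hij) _ _
  simp only [pe, hE, map_add, map_sub, map_nsmul, hm, mul_add, add_mul, smul_add,
    Function.update_self, u 0 1 _ (by decide), u 0 2 _ (by decide), u 0 3 _ (by decide), u 0 4 _ (by decide),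
    u 1 0 _ (by decide), u 1 2 _ (by decide), u 1 3 _ (by decide), u 1 4 _ (by decide),
    u 2 0 _ (by decide), u 2 1 _ (by decide), u 2 3 _ (by decide), u 2 4 _ (by decide),
    u 3 0 _ (by decide), u 3 1 _ (by decide), u 3 2 _ (by decide), u 3 4 _ (by decide),
    u 4 0 _ (by decide), u 4 1 _ (by decide), u 4 2 _ (by decide), u 4 3 _ (by decide)]
  abel

end CDerAux

open CDerAux

variable (F : Type u) [Field F] [CI 5 F] {A : Type v} [NonUnitalNonAssocRing A] [Module F A]
  [IsScalarTower F A A] [SMulCommClass F A A]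

include F in
/-- `delt b c` is a derivation of every Malcev algebra (classical, Sagle). Proof: a rational combination of the linearised
Malcev identity `Jac x y (t z) + Jac t y (x z) = (Jac x y z) t + (Jac t y z) x` (degree 4, 15 multilinear words), or of
`sagle4` of COp.lean. -/
theorem delt_mul (h : IsMalcev A) (b c v w : A) :
    delt b c (v * w) = delt b c v * w + v * delt b c w := by
  have h1 := delt_two h b c v w
  have h2 : (2 : F) • (delt b c (v * w) - delt b c v * w - v * delt b c w) = 0 := by
    rw [two_smul, ← two_nsmul]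
    exact h1
  have h3 := (smul_eq_zero.1 h2).resolve_left two_ne_zero
  rw [sub_sub, sub_eq_zero] at h3
  exact h3

/-- An additive map which is a derivation acts on `e'` by the Leibniz rule (`pe` is a sum of products, `eL` a signed sum of `pe`). -/
theorem der_ee (D : A → A) (hadd : ∀ a b, D (a + b) = D a + D b)
    (hmul : ∀ a b, D (a * b) = D a * b + a * D b) (x0 x1 x2 x3 x4 y : A) :
    D (ee F x0 x1 x2 x3 x4 y) =
      ee F (D x0) x1 x2 x3 x4 y + ee F x0 (D x1) x2 x3 x4 y + ee F x0 x1 (D x2) x3 x4 y +
        ee F x0 x1 x2 (D x3) x4 y + ee F x0 x1 x2 x3 (D x4) y + ee F x0 x1 x2 x3 x4 (D y) := by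
  have key : ∀ x : Fin 5 → A, D (eL F x y) =
      ∑ j, eL F (Function.update x j (D (x j))) y + eL F x (D y) := by
    intro x
    let E : A →+ A := AddMonoidHom.mk' D hadd
    have hE : ∀ a, D a = E a := fun _ => rfl
    rw [eL_apply, hE, map_sum]
    have h1 : ∀ s : Equiv.Perm (Fin 5), E (Equiv.Perm.sign s • pe (x ∘ s) y) =
        ∑ j, Equiv.Perm.sign s • pe (Function.update x j (D (x j)) ∘ s) y +
          Equiv.Perm.sign s • pe (x ∘ s) (D y) := by
      intro s
      have e1 : E (Equiv.Perm.sign s • pe (x ∘ s) y) = Equiv.Perm.sign s • E (pe (x ∘ s) y) := by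
        rw [Units.smul_def, Units.smul_def, map_zsmul]
      rw [e1, ← hE, der_pe D hadd hmul, smul_add, Finset.smul_sum]
      congr 1
      rw [← Equiv.sum_comp s (fun j => Equiv.Perm.sign s • pe (Function.update x j (D (x j)) ∘ s) y)]
      refine Finset.sum_congr rfl fun i _ => ?_
      congr 2
      funext k
      by_cases hk : k = i
      · subst hk
        simp
      · rw [Function.update_of_ne hk, Function.comp_apply, Function.comp_apply,
          Function.update_of_ne (fun h => hk (s.injective h))]
    have h2 : ∑ j, eL F (Function.update x j (D (x j))) y =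
        ∑ j, ∑ s : Equiv.Perm (Fin 5), Equiv.Perm.sign s • pe (Function.update x j (D (x j)) ∘ s) y :=
      Finset.sum_congr rfl fun j _ => eL_apply F _ y
    rw [h2, eL_apply F x (D y), Finset.sum_comm, ← Finset.sum_add_distrib]
    exact Finset.sum_congr rfl fun s _ => h1 s
  have h1 := key ![x0, x1, x2, x3, x4]
  rw [Fin.sum_univ_five] at h1
  have u0 : Function.update ![x0, x1, x2, x3, x4] 0 (D (![x0, x1, x2, x3, x4] 0)) = ![D x0, x1, x2, x3, x4] := by
    funext k
    fin_cases k <;> rfl
  have u1 : Function.update ![x0, x1, x2, x3, x4] 1 (D (![x0, x1, x2, x3, x4] 1)) = ![x0, D x1, x2, x3, x4] := by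
    funext k
    fin_cases k <;> rfl
  have u2 : Function.update ![x0, x1, x2, x3, x4] 2 (D (![x0, x1, x2, x3, x4] 2)) = ![x0, x1, D x2, x3, x4] := by
    funext k
    fin_cases k <;> rfl
  have u3 : Function.update ![x0, x1, x2, x3, x4] 3 (D (![x0, x1, x2, x3, x4] 3)) = ![x0, x1, x2, D x3, x4] := by
    funext k
    fin_cases k <;> rfl
  have u4 : Function.update ![x0, x1, x2, x3, x4] 4 (D (![x0, x1, x2, x3, x4] 4)) = ![x0, x1, x2, x3, D x4] := by
    funext k
    fin_cases k <;> rfl
  refine h1.trans ?_
  unfold ee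
  rw [u0, u1, u2, u3, u4]

end Pool.Agent.MalP
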