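import Pool.Agent.MalP.CPhi

/-! # Part C: values of homogeneous elements in the model algebra -/

set_option autoImplicit false

open scoped BigOperators

namespace Pool.Agent.MalP

universe u

variable {F : Type u} [Field F]

namespace CS3Aux

theorem card_content_pos (w : FreeMagma ℕ) : 1 ≤ Multiset.card (content w) := by
  induction w with
  | ih1 i =>
    show 1 ≤ Multiset.card ({i} : Multiset ℕ)
    simp
  | ih2 a b iha ihb =>
    show 1 ≤ Multiset.card (content a + content b)
    rw [Multiset.card_add]
    omega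

theorem evw_v (x : ℕ → Bh F) (w : FreeMagma ℕ) (hw : 2 ≤ Multiset.card (content w)) :
    (evw x w).v = 0 := by
  cases w with
  | of i => simp [content] at hw
  | mul a b => rfl

variable (F) in
/-- the functions of the renaming -/
noncomputable def WP (m : Multiset ℕ) (i : ℕ) : Submodule F ((ℕ → ℕ) → Ex F) :=
  Submodule.span F {t | ∃ l : List ℕ, (l : Multiset ℕ) + {i} = m ∧ t = fun σ => px F (l.map σ)}

theorem WP_mul {m : Multiset ℕ} {i : ℕ} (a : ℕ) {t : (ℕ → ℕ) → Ex F} (ht : t ∈ WP F m i) :
    (fun σ => t σ * xe F (σ a)) ∈ WP F (m + {a}) i := by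
  unfold WP at ht
  induction ht using Submodule.span_induction with
  | mem x hx =>
    obtain ⟨l, hl, rfl⟩ := hx
    refine Submodule.subset_span ⟨l ++ [a], ?_, ?_⟩
    · rw [← hl, ← Multiset.coe_add, Multiset.coe_singleton, add_right_comm]
    · funext σ
      rw [List.map_append, px_append, List.map_singleton, px_singleton]
  | zero =>
    have : (fun σ => (0 : (ℕ → ℕ) → Ex F) σ * xe F (σ a)) = 0 := by
      funext σ
      show (0 : Ex F) * _ = 0
      rw [zero_mul]
    rw [this]
    exact Submodule.zero_mem _
  | add x y _ _ hx hy =>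
    have : (fun σ => (x + y) σ * xe F (σ a)) =
        (fun σ => x σ * xe F (σ a)) + fun σ => y σ * xe F (σ a) := by
      funext σ
      show (x σ + y σ) * _ = _
      rw [add_mul]
      rfl
    rw [this]
    exact Submodule.add_mem _ hx hy
  | smul c x _ hx =>
    have : (fun σ => (c • x) σ * xe F (σ a)) = c • fun σ => x σ * xe F (σ a) := by
      funext σ
      show (c • x σ) * _ = c • (x σ * _)
      rw [smul_mul_assoc]
    rw [this]
    exact Submodule.smul_mem _ c hx

theorem word (w : FreeMagma ℕ) (hw : 2 ≤ Multiset.card (content w)) (i : ℕ) :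
    ∃ t ∈ WP F (content w) i, ∀ σ : ℕ → ℕ, Function.Injective σ →
      (evw (fun k => Bh.lt F (σ k)) w).w (σ i) = t σ := by
  induction w with
  | ih1 a =>
    exfalso
    have h : 2 ≤ Multiset.card ({a} : Multiset ℕ) := hw
    simp at h
  | ih2 w1 w2 ih1 ih2 =>
    rcases w1 with a | ⟨c, d⟩ <;> rcases w2 with b | ⟨c', d'⟩
    · clear ih1 ih2
      refine ⟨(if b = i then (1 : F) else 0) • (fun σ => px F ([a].map σ)) -
        (if a = i then (1 : F) else 0) • (fun σ => px F ([b].map σ)), ?_, ?_⟩
      · apply Submodule.sub_mem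
        · split_ifs with h
          · rw [one_smul]
            refine Submodule.subset_span ⟨[a], ?_, rfl⟩
            rw [← h]
            rfl
          · rw [zero_smul]; exact Submodule.zero_mem _
        · split_ifs with h
          · rw [one_smul]
            refine Submodule.subset_span ⟨[b], ?_, rfl⟩
            rw [← h]
            show ([b] : Multiset ℕ) + {a} = {a} + {b}
            rw [add_comm, Multiset.coe_singleton]
          · rw [zero_smul]; exact Submodule.zero_mem _
      · intro σ hσ
        show (Bh.lt F (σ a) * Bh.lt F (σ b)).w (σ i) = _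
        rw [Bh.w_mul]
        have h1 : (Bh.lt F (σ a)).w (σ i) = 0 := rfl
        have h2 : (Bh.lt F (σ b)).w (σ i) = 0 := rfl
        have h3 : ∀ k, (Bh.lt F (σ k)).v = Finsupp.single (σ k) 1 := fun k => rfl
        have h4 : ∀ k, (Finsupp.single (σ k) (1 : F)) (σ i) = if k = i then 1 else 0 := by
          intro k
          rw [Finsupp.single_apply]
          by_cases h : k = i
          · rw [if_pos h, if_pos (by rw [h])]
          · rw [if_neg h, if_neg (fun e => h (hσ e))]
        rw [h1, h2, zero_mul, zero_mul, h3, h3, h4, h4, add_zero, sub_zero]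
        show _ = (if b = i then (1 : F) else 0) • px F [σ a] -
          (if a = i then (1 : F) else 0) • px F [σ b]
        rw [px_singleton, px_singleton]
        rfl
    · have hc : 2 ≤ Multiset.card (content (FreeMagma.mul c' d')) := by
        show 2 ≤ Multiset.card (content c' + content d')
        rw [Multiset.card_add]
        have := card_content_pos c'
        have := card_content_pos d'
        omega
      obtain ⟨t, ht, h⟩ := ih2 hc
      refine ⟨-(fun σ => t σ * xe F (σ a)), ?_, ?_⟩
      · apply Submodule.neg_mem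
        have := WP_mul a ht
        rwa [add_comm] at this
      · intro σ hσ
        show (Bh.lt F (σ a) * evw (fun k => Bh.lt F (σ k)) (FreeMagma.mul c' d')).w (σ i) = _
        rw [Bh.w_mul, evw_v _ _ hc, h σ hσ]
        have h1 : (Bh.lt F (σ a)).w (σ i) = 0 := rfl
        rw [h1, map_zero, smul_zero, mul_zero, Finsupp.zero_apply, zero_smul, sub_zero, add_zero,
          zero_sub]
        rfl
    · have hc : 2 ≤ Multiset.card (content (FreeMagma.mul c d)) := by
        show 2 ≤ Multiset.card (content c + content d)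
        rw [Multiset.card_add]
        have := card_content_pos c
        have := card_content_pos d
        omega
      obtain ⟨t, ht, h⟩ := ih1 hc
      refine ⟨fun σ => t σ * xe F (σ b), ?_, ?_⟩
      · exact WP_mul b ht
      · intro σ hσ
        show (evw (fun k => Bh.lt F (σ k)) (FreeMagma.mul c d) * Bh.lt F (σ b)).w (σ i) = _
        rw [Bh.w_mul, evw_v _ _ hc, h σ hσ]
        have h1 : (Bh.lt F (σ b)).w (σ i) = 0 := rfl
        rw [h1, map_zero, smul_zero, mul_zero, Finsupp.zero_apply, zero_smul, sub_zero, sub_zero,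
          zero_add]
        rfl
    · refine ⟨0, Submodule.zero_mem _, ?_⟩
      intro σ _
      show (evw (fun k => Bh.lt F (σ k)) (FreeMagma.mul c d) *
        evw (fun k => Bh.lt F (σ k)) (FreeMagma.mul c' d')).w (σ i) = 0
      have h1 : (evw (fun k => Bh.lt F (σ k)) (FreeMagma.mul c d)).v = 0 := rfl
      have h2 : (evw (fun k => Bh.lt F (σ k)) (FreeMagma.mul c' d')).v = 0 := rfl
      rw [Bh.w_mul, h1, h2, map_zero, smul_zero, mul_zero, mul_zero]
      simp

theorem word_out (σ : ℕ → ℕ) (j : ℕ) (w : FreeMagma ℕ) (hj : j ∉ (content w).map σ) :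
    (evw (fun k => Bh.lt F (σ k)) w).w j = 0 := by
  induction w with
  | ih1 a => rfl
  | ih2 w1 w2 ih1 ih2 =>
    have hj' : j ∉ (content w1).map σ ∧ j ∉ (content w2).map σ := by
      have h : j ∉ (content w1 + content w2).map σ := hj
      rw [Multiset.map_add, Multiset.mem_add] at h
      exact not_or.1 h
    have hv : ∀ w : FreeMagma ℕ, j ∉ (content w).map σ →
        (evw (fun k => Bh.lt F (σ k)) w).v j = 0 := by
      intro w hw
      cases w with
      | of a =>
        show (Finsupp.single (σ a) (1 : F)) j = 0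
        rw [Finsupp.single_apply, if_neg]
        intro e
        apply hw
        show j ∈ ({a} : Multiset ℕ).map σ
        rw [Multiset.map_singleton, Multiset.mem_singleton]
        exact e.symm
      | mul a b => rfl
    show (evw (fun k => Bh.lt F (σ k)) w1 * evw (fun k => Bh.lt F (σ k)) w2).w j = 0
    rw [Bh.w_mul, hv w1 hj'.1, hv w2 hj'.2, ih1 hj'.1, ih2 hj'.2]
    simp

end CS3Aux

open CS3Aux

/-- words with at least two letters have no `v`-part: they are products -/
theorem ev_v {m : Multiset ℕ} {p : FA F} (hp : p ∈ Hg F m) (hm : 2 ≤ Multiset.card m)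
    (x : ℕ → Bh F) : (ev x p).v = 0 := by
  unfold Hg at hp
  induction hp using Submodule.span_induction with
  | mem p hp =>
    obtain ⟨w, hw, rfl⟩ := hp
    rw [ev_wd]
    exact evw_v x w (by rw [hw]; exact hm)
  | zero => rw [map_zero]; rfl
  | add a b _ _ ha hb => rw [map_add, Bh.v_add, ha, hb, add_zero]
  | smul c a _ ha => rw [map_smul, Bh.v_smul, ha, smul_zero]

/-- The `w`-part at letters `lt (σ k)`, `σ` injective; the coefficient does not depend on `σ`. `Hg F m` is spanned by the words `wd w`, `content w = m`, and the set of all `p` with the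
property is a subspace. For words, by induction: let `WP m i` be the span of the functions `σ ↦ px F (l.map σ)`, `(l : Multiset) + {i} = m`, in `(ℕ → ℕ) → Ex F`; claim: for a word `w` with
at least two letters there is an element `t` of `WP (content w) i` with `(evw (lt ∘ σ) w).w (σ i) = t σ` for all injective `σ`: `w = w1 w2`; two letters `a b`:
`(lt a' * lt b').w (σ i) = δ_{ib} xe (σ a) - δ_{ia} xe (σ b)`; `w1` a product, `w2 = b` a letter: `(w1).w (σ i) * xe (σ b)`; `w1` a letter, `w2` a product: `- (w2).w (σ i) * xe (σ a)`;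
both products: `0` (no `v`-parts). By `px_map_skew` and `SkewL.perm` all the functions `σ ↦ px F (l.map σ)` are `±` the one for `l0`, so `WP m i` is the line spanned by it. -/
theorem ev_w {m : Multiset ℕ} {p : FA F} (hp : p ∈ Hg F m) (hm : 2 ≤ Multiset.card m) (i : ℕ)
    (l0 : List ℕ) (hl : (l0 : Multiset ℕ) + {i} = m) : ∃ c : F, ∀ σ : ℕ → ℕ, Function.Injective σ →
      (ev (fun k => Bh.lt F (σ k)) p).w (σ i) = c • px F (l0.map σ) := by
  have h1 : ∃ t ∈ WP F m i, ∀ σ : ℕ → ℕ, Function.Injective σ →
      (ev (fun k => Bh.lt F (σ k)) p).w (σ i) = t σ := by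
    unfold Hg at hp
    induction hp using Submodule.span_induction with
    | mem p hp =>
      obtain ⟨w, hw, rfl⟩ := hp
      obtain ⟨t, ht, h⟩ := word (F := F) w (by rw [hw]; exact hm) i
      refine ⟨t, by rw [← hw]; exact ht, fun σ hσ => ?_⟩
      rw [ev_wd]
      exact h σ hσ
    | zero => exact ⟨0, Submodule.zero_mem _, fun σ _ => by rw [map_zero]; rfl⟩
    | add a b _ _ ha hb =>
      obtain ⟨t, ht, h⟩ := ha
      obtain ⟨t', ht', h'⟩ := hb
      refine ⟨t + t', Submodule.add_mem _ ht ht', fun σ hσ => ?_⟩
      rw [map_add, Bh.w_add, h σ hσ, h' σ hσ]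
      rfl
    | smul c a _ ha =>
      obtain ⟨t, ht, h⟩ := ha
      refine ⟨c • t, Submodule.smul_mem _ c ht, fun σ hσ => ?_⟩
      rw [map_smul, Bh.w_smul, h σ hσ]
      rfl
  obtain ⟨t, ht, h⟩ := h1
  have h2 : WP F m i ≤ Submodule.span F {(fun σ => px F (l0.map σ) : (ℕ → ℕ) → Ex F)} := by
    unfold WP
    rw [Submodule.span_le]
    rintro _ ⟨l, hl', rfl⟩
    have hperm : l.Perm l0 := by
      rw [← hl] at hl'
      exact Multiset.coe_eq_coe.1 (add_right_cancel hl')
    rcases (px_map_skew F l.length).perm hperm rfl with e | e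
    · rw [SetLike.mem_coe]
      have e' : (fun σ => px F (l.map σ)) = fun σ : ℕ → ℕ => px F (l0.map σ) := e
      rw [e']
      exact Submodule.mem_span_singleton_self _
    · rw [SetLike.mem_coe]
      have e' : (fun σ => px F (l.map σ)) = -(fun σ : ℕ → ℕ => px F (l0.map σ)) := e
      rw [e']
      exact Submodule.neg_mem _ (Submodule.mem_span_singleton_self _)
  obtain ⟨c, hc⟩ := Submodule.mem_span_singleton.1 (h2 ht)
  refine ⟨c, fun σ hσ => ?_⟩
  rw [h σ hσ, ← hc]
  rfl

/-- the other coordinates vanish: for words by induction -/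
theorem ev_w_out {m : Multiset ℕ} {p : FA F} (hp : p ∈ Hg F m) (hm : 2 ≤ Multiset.card m)
    (σ : ℕ → ℕ) (j : ℕ) (hj : j ∉ m.map σ) :
    (ev (fun k => Bh.lt F (σ k)) p).w j = 0 := by
  unfold Hg at hp
  induction hp using Submodule.span_induction with
  | mem p hp =>
    obtain ⟨w, hw, rfl⟩ := hp
    rw [ev_wd]
    exact word_out σ j w (by rw [hw]; exact hj)
  | zero => rw [map_zero]; rfl
  | add a b _ _ ha hb => rw [map_add, Bh.w_add, ha, hb, add_zero]
  | smul c a _ ha => rw [map_smul, Bh.w_smul, ha, smul_zero]

end Pool.Agent.MalP
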