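import Pool.Agent.MalP.CPhi
import Pool.Agent.MalP.CS3

/-! # Part C: the W-parts of the elements of trivial ideals -/

set_option autoImplicit false

open scoped BigOperators

namespace Pool.Agent.MalP

universe u

variable {F : Type u} [Field F]

namespace CEndAux

theorem content_ne_zero (w : FreeMagma ℕ) : 1 ≤ Multiset.card (content w) := by
  induction w with
  | ih1 i => show 1 ≤ Multiset.card ({i} : Multiset ℕ); simp
  | ih2 a b iha ihb =>
    show 1 ≤ Multiset.card (content a + content b)
    rw [Multiset.card_add]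
    omega

theorem content_single {w : FreeMagma ℕ} {i : ℕ} (h : content w = {i}) : w = FreeMagma.of i := by
  cases w with
  | of j =>
    have h' : ({j} : Multiset ℕ) = {i} := h
    rw [Multiset.singleton_inj.1 h']
  | mul a b =>
    exfalso
    have h' : content a + content b = {i} := h
    have h1 := congrArg Multiset.card h'
    rw [Multiset.card_add, Multiset.card_singleton] at h1
    have h2 := content_ne_zero a
    have h3 := content_ne_zero b
    omega

theorem mk_eq_ev (p : FA F) : (FreeMalcev.mk p : FreeMalcev F ℕ) =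
    ev (fun i => (FreeMalcev.of i : FreeMalcev F ℕ)) p := by
  have h : (FreeMalcev.mkHom : FA F →ₙₐ[F] FreeMalcev F ℕ) =
      ev (fun i => (FreeMalcev.of i : FreeMalcev F ℕ)) := by
    apply FreeNonUnitalNonAssocAlgebra.hom_ext
    intro i
    show (FreeMalcev.mk (FreeNonUnitalNonAssocAlgebra.of F i) : FreeMalcev F ℕ) = _
    rw [ev_of]
    rfl
  exact DFunLike.congr_fun h p

theorem phi_ev (σ : ℕ → ℕ) (p : FA F) :
    phi F (ev (fun i => (FreeMalcev.of (σ i) : FreeMalcev F ℕ)) p) =
      ev (fun k => Bh.lt F (σ k)) p := by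
  rw [hom_ev]
  refine congrArg (fun z : ℕ → Bh F => ev z p) (funext fun i => ?_)
  exact phi_of F (σ i)

theorem phi_mk (p : FA F) : phi F (FreeMalcev.mk p) = ev (Bh.lt F) p := by
  rw [mk_eq_ev]
  exact phi_ev (fun k => k) p

end CEndAux

open CEndAux

/-- (S3). Let `2 ≤ L.card` and `N` larger than all elements of `L`. If the values at the letters and at the letters
shifted by `N` annihilate each other, then all `W`-parts vanish. -/
theorem S3_wN {L : Finset ℕ} (hL : 2 ≤ L.card) {p : FA F} (hp : p ∈ Hg F L.val) {N : ℕ} (hN : ∀ k ∈ L, k < N)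
    (h1 : ev (fun k => Bh.lt F k) p * ev (fun k => Bh.lt F (k + N)) p = 0) (σ : ℕ → ℕ)
    (hσ : Function.Injective σ) (i : ℕ) : (ev (fun k => Bh.lt F (σ k)) p).w i = 0 := by
  have hL' : 2 ≤ Multiset.card L.val := hL
  by_cases hiσ : ∃ j ∈ L, σ j = i
  · obtain ⟨j, hi, rfl⟩ := hiσ
    have hv := ev_v hp hL' (fun k => Bh.lt F k)
    have hv' := ev_v hp hL' (fun k => Bh.lt F (k + N))
    have hw0 : (ev (fun k => Bh.lt F k) p).w (j + N) = 0 := by
      apply ev_w_out hp hL' (fun k => k) (j + N)
      intro h
      rw [Multiset.mem_map] at h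
      obtain ⟨k, hk, hk'⟩ := h
      have := hN k hk
      omega
    have h2 := congrArg (fun b : Bh F => b.z j (j + N)) h1
    simp only [Bh.z_mul, Bh.z_zero, hv, hv', hw0, Finsupp.coe_zero, Pi.zero_apply, zero_smul,
      sub_zero, zero_add, zero_mul] at h2
    -- the coefficient
    obtain ⟨c, hc⟩ := ev_w hp hL' j (L.erase j).toList (by
      have : ((L.erase j).toList : Multiset ℕ) = L.val.erase j := by
        rw [Finset.coe_toList, Finset.erase_val]
      rw [this, add_comm, Multiset.singleton_add]
      exact Multiset.cons_erase hi)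
    have hc1 := hc (fun k => k) (fun a b h => h)
    have hc2 := hc (fun k => k + N) (fun a b h => Nat.add_right_cancel h)
    have hc1' : (ev (fun k => Bh.lt F k) p).w j = c • px F (L.erase j).toList := by
      rw [hc1]
      congr 2
      exact List.map_id _
    have hc2' : (ev (fun k => Bh.lt F (k + N)) p).w (j + N) =
        c • px F ((L.erase j).toList.map (fun k => k + N)) := hc2
    rw [hc1', hc2', map_smul, rv_px, smul_mul_smul_comm, ← px_append] at h2
    have hnd : ((L.erase j).toList.map (fun k => k + N) ++ (L.erase j).toList.reverse).Nodup := by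
      rw [List.nodup_append]
      refine ⟨(Finset.nodup_toList _).map fun a b h => Nat.add_right_cancel h,
        List.nodup_reverse.2 (Finset.nodup_toList _), ?_⟩
      intro a ha b hb hab
      rw [List.mem_map] at ha
      obtain ⟨k, _, rfl⟩ := ha
      rw [List.mem_reverse, Finset.mem_toList] at hb
      have := hN b (Finset.mem_of_mem_erase hb)
      omega
    have h3 := (smul_eq_zero.1 h2).resolve_right (px_ne_zero F hnd)
    have h4 : c = 0 := mul_self_eq_zero.1 h3
    rw [hc σ hσ, h4, zero_smul]
  · exact ev_w_out hp hL' σ i (by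
      intro h
      rw [Multiset.mem_map] at h
      obtain ⟨k, hk, hk'⟩ := h
      exact hiσ ⟨k, hk, hk'⟩)

/-- elements without `v`- and `w`-part annihilate -/
theorem Bh_central {q : Bh F} (hv : q.v = 0) (hw : ∀ i, q.w i = 0) (b : Bh F) :
    q * b = 0 ∧ b * q = 0 := by
  constructor
  · apply Bh.ext
    · simp
    · intro i; simp [Bh.w_mul, hv, hw]
    · intro i j; simp [Bh.z_mul, hv, hw]
  · apply Bh.ext
    · simp
    · intro i; simp [Bh.w_mul, hv, hw]
    · intro i j; simp [Bh.z_mul, hv, hw]

/-- elements of degree at most one have no `W`-parts -/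
theorem small_w {L : Finset ℕ} (hL : L.card < 2) {p : FA F} (hp : p ∈ Hg F L.val) (σ : ℕ → ℕ) (i : ℕ) :
    (ev (fun k => Bh.lt F (σ k)) p).w i = 0 := by
  rcases Nat.lt_or_ge L.card 1 with h0 | h1
  · have hL0 : L = ∅ := Finset.card_eq_zero.1 (by omega)
    subst hL0
    have : {p : FA F | ∃ w, content w = (∅ : Finset ℕ).val ∧ p = wd w} = ∅ := by
      rw [Set.eq_empty_iff_forall_notMem]
      rintro q ⟨w, hw, _⟩
      have h2 := content_ne_zero w
      rw [hw] at h2
      simp at h2
    unfold Hg at hp
    rw [this, Submodule.span_empty, Submodule.mem_bot] at hp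
    rw [hp, map_zero]
    rfl
  · have hL1 : L.card = 1 := by omega
    obtain ⟨j, rfl⟩ := Finset.card_eq_one.1 hL1
    have h2 : Hg F ({j} : Finset ℕ).val ≤ Submodule.span F {wd (FreeMagma.of j)} := by
      unfold Hg
      apply Submodule.span_le.2
      rintro q ⟨w, hw, rfl⟩
      rw [content_single (w := w) (i := j) hw]
      exact Submodule.subset_span rfl
    obtain ⟨c, hc⟩ := Submodule.mem_span_singleton.1 (h2 hp)
    rw [← hc, map_smul, ev_wd, Bh.w_smul]
    have e0 : (evw (fun k : ℕ => Bh.lt F (σ k)) (FreeMagma.of j)).w i = 0 := rfl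
    rw [e0, smul_zero]

end Pool.Agent.MalP
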