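import Pool.Agent.MalP.C7b
import Pool.Agent.MalP.C8
import Pool.Agent.MalP.CSp8

/-! # Part C: injectivity for graded quotients -/

set_option autoImplicit false

namespace Pool.Agent.MalP

universe u

variable {F : Type u} [Field F] [CI 5 F] (D : GE F) [HPc F (MQ D)] [R5c F (MQ D)]

/-- **Injectivity** of `phiQ` on the multilinear elements of `Qid` (`Qid_GM`, `Q_inj_aux`, `inj8`, `Em_le`). -/
theorem Q_injQ {L : Finset ℕ} {q : MQ D} (hq : q ∈ Qid F (MQ D))
    (hm : q ∈ GQ D L.val) (h0 : phiQ D q = 0) : q = 0 :=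
  Q_inj_aux (L := L) (fun h _ hq' h0' => inj8 h hq' h0') (Qid_GM D hq hm)
    (fun h => Em_le D h) h0

end Pool.Agent.MalP
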