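import Pool.Agent.MalP.CPhi

/-! # Graded quotients of the free Malcev algebra

`MQ D` is the quotient of `FreeMalcev F ℕ` by a graded ideal `D.E` in the kernel of `phi`; the API is the same as in
`MGrad.lean` (`FreeMalcev F ℕ -> MQ D`, `FreeMalcev.of -> oQ D`, `wdM -> wdQ D`, `GM F -> GQ D`, `piM F -> piQ D`,
`phi F -> phiQ D`). -/

set_option autoImplicit false

namespace Pool.Agent.MalP

universe u

/-- graded ideals in the kernel of `phi` -/
structure GE (F : Type u) [Field F] [C23 F] where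
  E : Submodule F (FreeMalcev F ℕ)
  idl : IsIdl E
  gr : ∀ (m : Multiset ℕ) (p : FreeMalcev F ℕ), p ∈ E → piM F m p ∈ E
  ph : ∀ p ∈ E, phi F p = 0

variable {F : Type u} [Field F] [C23 F]

variable (F) in
/-- the zero ideal -/
noncomputable def GE.bot : GE F where
  E := ⊥
  idl := fun a ha b => by
    rw [Submodule.mem_bot] at ha
    subst ha
    rw [zero_mul, mul_zero]
    exact ⟨Submodule.zero_mem _, Submodule.zero_mem _⟩
  gr := fun m p hp => by
    rw [Submodule.mem_bot] at hp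
    subst hp
    rw [map_zero]
    exact Submodule.zero_mem _
  ph := fun p hp => by
    rw [Submodule.mem_bot] at hp
    rw [hp, map_zero]

/-- the quotient -/
abbrev MQ (D : GE F) : Type u := IQ D.E D.idl

/-- the quotient map -/
noncomputable abbrev mq (D : GE F) : FreeMalcev F ℕ →ₙₐ[F] MQ D := IQ.mkHom D.idl

theorem mq_surj {D : GE F} (a : MQ D) : ∃ p : FreeMalcev F ℕ, mq D p = a := IQ.mk_surj a

theorem mq_eq_zero {D : GE F} {p : FreeMalcev F ℕ} : mq D p = 0 ↔ p ∈ D.E := IQ.mk_eq_zero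

theorem MQ_isMalcev (D : GE F) : IsMalcev (MQ D) where
  sq := fun x => by
    obtain ⟨x, rfl⟩ := mq_surj x
    rw [← map_mul, FreeMalcev.isMalcev.sq, map_zero]
  mal := fun x y z => by
    obtain ⟨x, rfl⟩ := mq_surj x
    obtain ⟨y, rfl⟩ := mq_surj y
    obtain ⟨z, rfl⟩ := mq_surj z
    rw [← map_mul, ← hom_Jac, ← hom_Jac, ← map_mul, FreeMalcev.isMalcev.mal]

/-- the generators -/
noncomputable def oQ (D : GE F) (i : ℕ) : MQ D := mq D (FreeMalcev.of i)

/-- the words -/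
noncomputable def wdQ (D : GE F) (w : FreeMagma ℕ) : MQ D := mq D (wdM w)

/-- homogeneous elements -/
noncomputable def GQ (D : GE F) (m : Multiset ℕ) : Submodule F (MQ D) := (GM F m).map (IQ.mk D.idl)

/-- the homogeneous component -/
noncomputable def piQ (D : GE F) (m : Multiset ℕ) : MQ D →ₗ[F] MQ D :=
  D.E.mapQ D.E (piM F m) (fun p hp => D.gr m p hp)

theorem mem_GQ {D : GE F} {m : Multiset ℕ} {q : MQ D} : q ∈ GQ D m ↔ ∃ p ∈ GM F m, mq D p = q := Iff.rfl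

theorem mq_mem_GQ {D : GE F} {m : Multiset ℕ} {p : FreeMalcev F ℕ} (hp : p ∈ GM F m) : mq D p ∈ GQ D m :=
  ⟨p, hp, rfl⟩

theorem wdQ_mul {D : GE F} (a b : FreeMagma ℕ) : wdQ D a * wdQ D b = wdQ D (FreeMagma.mul a b) := by
  unfold wdQ
  rw [← map_mul, wdM_mul]

theorem oQ_eq_wdQ {D : GE F} (i : ℕ) : oQ D i = wdQ D (FreeMagma.of i) := by
  unfold oQ wdQ
  rw [of_eq_wdM]

theorem GQ_eq {D : GE F} (m : Multiset ℕ) :
    GQ D m = Submodule.span F {p | ∃ w, content w = m ∧ p = wdQ D w} := by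
  unfold GQ
  rw [GM_eq, Submodule.map_span]
  congr 1
  ext p
  constructor
  · rintro ⟨q, ⟨w, hw, rfl⟩, rfl⟩
    exact ⟨w, hw, rfl⟩
  · rintro ⟨w, hw, rfl⟩
    exact ⟨wdM w, ⟨w, hw, rfl⟩, rfl⟩

theorem span_wdQ {D : GE F} : Submodule.span F (Set.range (wdQ D : FreeMagma ℕ → MQ D)) = ⊤ := by
  have h1 : Set.range (wdQ D : FreeMagma ℕ → MQ D) =
      (IQ.mk D.idl : FreeMalcev F ℕ →ₗ[F] MQ D) '' Set.range (wdM : FreeMagma ℕ → FreeMalcev F ℕ) := by
    rw [← Set.range_comp]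
    rfl
  rw [h1, ← Submodule.map_span, span_wdM, Submodule.map_top]
  exact LinearMap.range_eq_top.mpr (fun a => IQ.mk_surj a)

theorem GQ_mul {D : GE F} {m n : Multiset ℕ} {p q : MQ D} (hp : p ∈ GQ D m) (hq : q ∈ GQ D n) :
    p * q ∈ GQ D (m + n) := by
  obtain ⟨a, ha, rfl⟩ := hp
  obtain ⟨b, hb, rfl⟩ := hq
  exact ⟨a * b, GM_mul ha hb, rfl⟩

theorem piQ_mq {D : GE F} (m : Multiset ℕ) (p : FreeMalcev F ℕ) : piQ D m (mq D p) = mq D (piM F m p) := rfl

theorem piQ_wdQ {D : GE F} (m : Multiset ℕ) (w : FreeMagma ℕ) :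
    piQ D m (wdQ D w) = if content w = m then wdQ D w else 0 := by
  unfold wdQ
  rw [piQ_mq, piM_wdM]
  split_ifs
  · rfl
  · exact map_zero _

theorem piQ_mem {D : GE F} (m : Multiset ℕ) (p : MQ D) : piQ D m p ∈ GQ D m := by
  obtain ⟨a, rfl⟩ := mq_surj p
  rw [piQ_mq]
  exact mq_mem_GQ (piM_mem m a)

theorem piQ_of_mem {D : GE F} {m n : Multiset ℕ} {p : MQ D} (hp : p ∈ GQ D n) :
    piQ D m p = if n = m then p else 0 := by
  obtain ⟨a, ha, rfl⟩ := hp
  have h := piQ_mq (D := D) m a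
  have h2 := piM_of_mem (m := m) ha
  rw [h2] at h
  refine h.trans ?_
  split_ifs
  · rfl
  · exact map_zero _

theorem sum_piQ {D : GE F} (p : MQ D) : ∃ s : Finset (Multiset ℕ), p = ∑ m ∈ s, piQ D m p := by
  obtain ⟨a, rfl⟩ := mq_surj p
  obtain ⟨s, hs⟩ := sum_piM a
  refine ⟨s, ?_⟩
  have h1 : mq D a = mq D (∑ m ∈ s, piM F m a) := by rw [← hs]
  refine h1.trans ?_
  rw [map_sum]
  exact Finset.sum_congr rfl fun m _ => (piQ_mq m a).symm

/-- the homomorphism to the model algebra -/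
noncomputable def phiQ (D : GE F) : MQ D →ₙₐ[F] Bh F where
  toFun := D.E.liftQ (phi F : FreeMalcev F ℕ →ₗ[F] Bh F) (fun p hp => D.ph p hp)
  map_smul' := fun r a => map_smul (D.E.liftQ (phi F : FreeMalcev F ℕ →ₗ[F] Bh F) (fun p hp => D.ph p hp)) r a
  map_zero' := map_zero (D.E.liftQ (phi F : FreeMalcev F ℕ →ₗ[F] Bh F) (fun p hp => D.ph p hp))
  map_add' := map_add (D.E.liftQ (phi F : FreeMalcev F ℕ →ₗ[F] Bh F) (fun p hp => D.ph p hp))
  map_mul' := fun a b => by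
    obtain ⟨a, rfl⟩ := mq_surj a
    obtain ⟨b, rfl⟩ := mq_surj b
    exact map_mul (phi F) a b

theorem phiQ_mq {D : GE F} (p : FreeMalcev F ℕ) : phiQ D (mq D p) = phi F p := rfl

theorem phiQ_of (D : GE F) (i : ℕ) : phiQ D (oQ D i) = Bh.lt F i := phi_of F i

end Pool.Agent.MalP
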