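import Pool.Agent.MalP.CTot2
import Pool.Agent.MalP.CBeta
import Pool.Agent.MalP.MQ

/-! # Part C: spanning sets of the homogeneous parts of `Qid` in the free Malcev algebra -/

set_option autoImplicit false

open scoped BigOperators

namespace Pool.Agent.MalP

universe u v

variable {F : Type u} [Field F] [CI 5 F] (D : GE F)

/-- the span of the `ew F (words) (word)` with at least `n` words in the list and total content `m` -/
noncomputable def Em (n : ℕ) (m : Multiset ℕ) : Submodule F (MQ D) :=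
  Submodule.span F {q | ∃ (xs : List (FreeMagma ℕ)) (a : FreeMagma ℕ), n ≤ xs.length ∧
    (xs.map content).sum + content a = m ∧ q = ew F (xs.map (wdQ D)) (wdQ D a)}

/-- letters only -/
noncomputable def WLm (n : ℕ) (m : Multiset ℕ) : Submodule F (MQ D) :=
  Submodule.span F {q | ∃ (xs : List ℕ) (a : ℕ), n ≤ xs.length ∧
    (xs : Multiset ℕ) + {a} = m ∧ q = ew F (xs.map (oQ D)) (oQ D a)}

/-- the span of the `Zt`, letters only -/
noncomputable def ZLm (m : Multiset ℕ) : Submodule F (MQ D) :=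
  Submodule.span F {q | ∃ (U : List ℕ) (a c : ℕ), 6 ≤ U.length ∧
    (U : Multiset ℕ) + {a} + {c} = m ∧
      q = Zt F (U.map (oQ D)) (oQ D a) (oQ D c)}

/-- the span of the `wf`, letters only -/
noncomputable def VLm (m : Multiset ℕ) : Submodule F (MQ D) :=
  Submodule.span F {q | ∃ (V : List ℕ) (a : ℕ), 7 ≤ V.length ∧
    (V : Multiset ℕ) + {a} = m ∧ q = wf F (V.map (oQ D)) (oQ D a)}

namespace CSpanAux

variable {D}

theorem pe_mem {x : Fin 5 → MQ D} {y : MQ D} {c : Fin 5 → Multiset ℕ}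
    {d : Multiset ℕ} (hx : ∀ i, x i ∈ GQ D (c i)) (hy : y ∈ GQ D d) :
    pe x y ∈ GQ D ((∑ i, c i) + d) := by
  have e0 : (∑ i, c i) = c 0 + c 1 + c 2 + c 3 + c 4 := by
    simp [Fin.sum_univ_succ, add_assoc]
  rw [e0]
  unfold pe
  have h1 : ((((x 0 * y) * x 1) * x 2) * x 3) * x 4 ∈ GQ D (c 0 + c 1 + c 2 + c 3 + c 4 + d) := by
    have h := GQ_mul (GQ_mul (GQ_mul (GQ_mul (GQ_mul (hx 0) hy) (hx 1)) (hx 2)) (hx 3)) (hx 4)
    have e : c 0 + d + c 1 + c 2 + c 3 + c 4 = c 0 + c 1 + c 2 + c 3 + c 4 + d := by abel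
    rwa [e] at h
  have h2 : ((((x 0 * x 1) * y) * x 2) * x 3) * x 4 ∈ GQ D (c 0 + c 1 + c 2 + c 3 + c 4 + d) := by
    have h := GQ_mul (GQ_mul (GQ_mul (GQ_mul (GQ_mul (hx 0) (hx 1)) hy) (hx 2)) (hx 3)) (hx 4)
    have e : c 0 + c 1 + d + c 2 + c 3 + c 4 = c 0 + c 1 + c 2 + c 3 + c 4 + d := by abel
    rwa [e] at h
  have h3 : ((((x 0 * x 1) * x 2) * y) * x 3) * x 4 ∈ GQ D (c 0 + c 1 + c 2 + c 3 + c 4 + d) := by
    have h := GQ_mul (GQ_mul (GQ_mul (GQ_mul (GQ_mul (hx 0) (hx 1)) (hx 2)) hy) (hx 3)) (hx 4)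
    have e : c 0 + c 1 + c 2 + d + c 3 + c 4 = c 0 + c 1 + c 2 + c 3 + c 4 + d := by abel
    rwa [e] at h
  have h4 : (((x 0 * x 1) * y) * x 2) * (x 3 * x 4) ∈ GQ D (c 0 + c 1 + c 2 + c 3 + c 4 + d) := by
    have h := GQ_mul (GQ_mul (GQ_mul (GQ_mul (hx 0) (hx 1)) hy) (hx 2)) (GQ_mul (hx 3) (hx 4))
    have e : c 0 + c 1 + d + c 2 + (c 3 + c 4) = c 0 + c 1 + c 2 + c 3 + c 4 + d := by abel
    rwa [e] at h
  have h5 : (((x 0 * x 1) * x 2) * x 3) * (x 4 * y) ∈ GQ D (c 0 + c 1 + c 2 + c 3 + c 4 + d) := by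
    have h := GQ_mul (GQ_mul (GQ_mul (GQ_mul (hx 0) (hx 1)) (hx 2)) (hx 3)) (GQ_mul (hx 4) hy)
    have e : c 0 + c 1 + c 2 + c 3 + (c 4 + d) = c 0 + c 1 + c 2 + c 3 + c 4 + d := by abel
    rwa [e] at h
  exact Submodule.sub_mem _ (Submodule.sub_mem _ (Submodule.add_mem _ (Submodule.add_mem _
    (Submodule.smul_of_tower_mem _ 2 h1) (Submodule.smul_of_tower_mem _ 5 h2))
    (Submodule.smul_of_tower_mem _ 4 h3))
    (Submodule.smul_of_tower_mem _ 3 h4)) (Submodule.smul_of_tower_mem _ 2 h5)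

theorem eL_mem {x : Fin 5 → MQ D} {y : MQ D} {c : Fin 5 → Multiset ℕ}
    {d : Multiset ℕ} (hx : ∀ i, x i ∈ GQ D (c i)) (hy : y ∈ GQ D d) :
    eL F x y ∈ GQ D ((∑ i, c i) + d) := by
  rw [eL_apply]
  apply Submodule.sum_mem
  intro s _
  have h : pe (x ∘ s) y ∈ GQ D ((∑ i, c (s i)) + d) := pe_mem (fun i => hx (s i)) hy
  rw [Equiv.sum_comp s c] at h
  rw [Units.smul_def]
  exact Submodule.smul_of_tower_mem _ _ h

theorem ee_mem {x0 x1 x2 x3 x4 y : MQ D} {c0 c1 c2 c3 c4 d : Multiset ℕ}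
    (h0 : x0 ∈ GQ D c0) (h1 : x1 ∈ GQ D c1) (h2 : x2 ∈ GQ D c2) (h3 : x3 ∈ GQ D c3)
    (h4 : x4 ∈ GQ D c4) (hy : y ∈ GQ D d) :
    ee F x0 x1 x2 x3 x4 y ∈ GQ D (c0 + c1 + c2 + c3 + c4 + d) := by
  unfold ee
  have h := eL_mem (D := D) (x := ![x0, x1, x2, x3, x4]) (c := ![c0, c1, c2, c3, c4]) (y := y)
    (d := d) (by intro i; fin_cases i <;> assumption) hy
  have e : (∑ i, (![c0, c1, c2, c3, c4] : Fin 5 → Multiset ℕ) i) = c0 + c1 + c2 + c3 + c4 := by
    simp [Fin.sum_univ_succ, add_assoc]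
  rwa [e] at h

theorem foldl_mem (t : List (FreeMagma ℕ)) : ∀ (q : MQ D) (m : Multiset ℕ), q ∈ GQ D m →
    (t.map (wdQ D)).foldl (· * ·) q ∈ GQ D (m + (t.map content).sum) := by
  induction t with
  | nil => intro q m hq; simpa using hq
  | cons w t ih =>
    intro q m hq
    have hw : (wdQ D w : MQ D) ∈ GQ D (content w) := by
      rw [GQ_eq]
      exact Submodule.subset_span ⟨w, rfl, rfl⟩
    have h := ih (q * wdQ D w) (m + content w) (GQ_mul hq hw)
    simpa [add_assoc] using h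

theorem wdQ_mem (w : FreeMagma ℕ) : (wdQ D w : MQ D) ∈ GQ D (content w) := by
  rw [GQ_eq]
  exact Submodule.subset_span ⟨w, rfl, rfl⟩

variable (D)

/-- the span of the `ew` of words, lists of length `n` -/
noncomputable def Sn (n : ℕ) : Submodule F (MQ D) :=
  Submodule.span F {q | ∃ (xs : List (FreeMagma ℕ)) (a : FreeMagma ℕ), xs.length = n ∧
    q = ew F (xs.map (wdQ D)) (wdQ D a)}

variable {D}

theorem red0 (S : Submodule F (MQ D)) (x1 x2 x3 x4 a : MQ D)
    (h : ∀ w : FreeMagma ℕ, ee F (wdQ D w) x1 x2 x3 x4 a ∈ S) (x0 : MQ D) :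
    ee F x0 x1 x2 x3 x4 a ∈ S := by
  have hx : x0 ∈ Submodule.span F (Set.range (wdQ D : FreeMagma ℕ → MQ D)) := by
    rw [span_wdQ]; trivial
  induction hx using Submodule.span_induction with
  | mem x hx =>
    obtain ⟨w, rfl⟩ := hx
    exact h w
  | zero =>
    have h0 := ee_smul0 F (0 : F) (0 : MQ D) x1 x2 x3 x4 a
    rw [zero_smul, zero_smul] at h0
    rw [h0]
    exact Submodule.zero_mem _
  | add x y _ _ hx hy =>
    rw [ee_add0]
    exact Submodule.add_mem _ hx hy
  | smul r x _ hx =>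
    rw [ee_smul0]
    exact Submodule.smul_mem _ _ hx

theorem redy (S : Submodule F (MQ D)) (x0 x1 x2 x3 x4 : MQ D)
    (h : ∀ w : FreeMagma ℕ, ee F x0 x1 x2 x3 x4 (wdQ D w) ∈ S) (a : MQ D) :
    ee F x0 x1 x2 x3 x4 a ∈ S := by
  have hx : a ∈ Submodule.span F (Set.range (wdQ D : FreeMagma ℕ → MQ D)) := by
    rw [span_wdQ]; trivial
  induction hx using Submodule.span_induction with
  | mem x hx =>
    obtain ⟨w, rfl⟩ := hx
    exact h w
  | zero =>
    have h0 := ee_smuly F (0 : F) x0 x1 x2 x3 x4 (0 : MQ D)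
    rw [zero_smul, zero_smul] at h0
    rw [h0]
    exact Submodule.zero_mem _
  | add x y _ _ hx hy =>
    rw [ee_addy]
    exact Submodule.add_mem _ hx hy
  | smul r x _ hx =>
    rw [ee_smuly]
    exact Submodule.smul_mem _ _ hx

theorem ee_Sn (x0 x1 x2 x3 x4 a : MQ D) : ee F x0 x1 x2 x3 x4 a ∈ Sn D 5 := by
  apply redy
  intro w
  apply red0
  intro w0
  rw [← ee_rot]
  apply red0
  intro w4
  rw [← ee_rot]
  apply red0
  intro w3
  rw [← ee_rot]
  apply red0
  intro w2
  rw [← ee_rot]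
  apply red0
  intro w1
  apply Submodule.subset_span
  refine ⟨[w1, w2, w3, w4, w0], w, rfl, ?_⟩
  rw [List.map_cons, List.map_cons, List.map_cons, List.map_cons, List.map_cons, List.map_nil, ew_cons,
    List.foldl_nil]

theorem mul_Sn {n : ℕ} (hn : 5 ≤ n) {q : MQ D} (hq : q ∈ Sn D n) (b : MQ D) :
    q * b ∈ Sn D (n + 1) := by
  have hb : b ∈ Submodule.span F (Set.range (wdQ D : FreeMagma ℕ → MQ D)) := by
    rw [span_wdQ]; trivial
  induction hb using Submodule.span_induction with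
  | mem x hx =>
    obtain ⟨w, rfl⟩ := hx
    unfold Sn at hq
    induction hq using Submodule.span_induction with
    | mem p hp =>
      obtain ⟨xs, a, hl, rfl⟩ := hp
      apply Submodule.subset_span
      refine ⟨xs ++ [w], a, by simp [hl], ?_⟩
      rw [List.map_append, List.map_cons, List.map_nil, ew_append F (by rw [List.length_map, hl]; exact hn)]
    | zero => rw [zero_mul]; exact Submodule.zero_mem _
    | add x y _ _ hx hy => rw [add_mul]; exact Submodule.add_mem _ hx hy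
    | smul r x _ hx => rw [smul_mul_assoc]; exact Submodule.smul_mem _ _ hx
  | zero => rw [mul_zero]; exact Submodule.zero_mem _
  | add x y _ _ hx hy => rw [mul_add]; exact Submodule.add_mem _ hx hy
  | smul r x _ hx => rw [mul_smul_comm]; exact Submodule.smul_mem _ _ hx

theorem foldl_Sn (t : List (MQ D)) : ∀ (n : ℕ) (_ : 5 ≤ n) (q : MQ D),
    q ∈ Sn D n → t.foldl (· * ·) q ∈ Sn D (n + t.length) := by
  induction t with
  | nil => intro n _ q hq; simpa using hq
  | cons b t ih =>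
    intro n hn q hq
    have h := ih (n + 1) (by omega) (q * b) (mul_Sn hn hq b)
    have e : n + (b :: t).length = n + 1 + t.length := by simp; omega
    rw [e]
    exact h

theorem ew_Sn {xs : List (MQ D)} (h : 5 ≤ xs.length) (a : MQ D) :
    ew F xs a ∈ Sn D xs.length := by
  obtain ⟨x0, x1, x2, x3, x4, t, rfl⟩ := exists_cons5 h
  rw [ew_cons]
  have h1 := foldl_Sn t 5 le_rfl _ (ee_Sn x0 x1 x2 x3 x4 a)
  have e : (x0 :: x1 :: x2 :: x3 :: x4 :: t).length = 5 + t.length := by simp; omega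
  rw [e]
  exact h1

end CSpanAux

/-- `ee` of words is homogeneous (`eL_apply`, `pe` is a sum of products of the arguments, `GQ_mul`), and so is `ew`. -/
theorem ew_GM (xs : List (FreeMagma ℕ)) (a : FreeMagma ℕ) :
    ew F (xs.map (wdQ D)) (wdQ D a) ∈ GQ D ((xs.map content).sum + content a) := by
  match xs with
  | [] => exact Submodule.zero_mem _
  | [_] => exact Submodule.zero_mem _
  | [_, _] => exact Submodule.zero_mem _
  | [_, _, _] => exact Submodule.zero_mem _
  | [_, _, _, _] => exact Submodule.zero_mem _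
  | x0 :: x1 :: x2 :: x3 :: x4 :: t =>
    have h := CSpanAux.foldl_mem t _ _ (CSpanAux.ee_mem (CSpanAux.wdQ_mem (D := D) x0)
      (CSpanAux.wdQ_mem x1) (CSpanAux.wdQ_mem x2) (CSpanAux.wdQ_mem x3) (CSpanAux.wdQ_mem x4)
      (CSpanAux.wdQ_mem a))
    simp only [List.map_cons, ew_cons]
    have e : (content x0 :: content x1 :: content x2 :: content x3 :: content x4 ::
        t.map content).sum + content a =
      content x0 + content x1 + content x2 + content x3 + content x4 + content a +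
        (t.map content).sum := by
      simp only [List.sum_cons]
      abel
    rw [e]
    exact h

namespace CSpanAux

variable {D}

theorem Em_of_span {n : ℕ} {m : Multiset ℕ} {q : MQ D}
    (hq : q ∈ Submodule.span F {q | ∃ (xs : List (FreeMagma ℕ)) (a : FreeMagma ℕ), n ≤ xs.length ∧
      q = ew F (xs.map (wdQ D)) (wdQ D a)}) (hm : q ∈ GQ D m) : q ∈ Em D n m := by
  have h1 : piQ D m q = q := by rw [piQ_of_mem hm, if_pos rfl]
  rw [← h1]
  clear h1 hm
  induction hq using Submodule.span_induction with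
  | mem p hp =>
    obtain ⟨xs, a, hl, rfl⟩ := hp
    rw [piQ_of_mem (ew_GM D xs a)]
    split_ifs with hc
    · exact Submodule.subset_span ⟨xs, a, hl, hc, rfl⟩
    · exact Submodule.zero_mem _
  | zero => rw [map_zero]; exact Submodule.zero_mem _
  | add x y _ _ hx hy => rw [map_add]; exact Submodule.add_mem _ hx hy
  | smul r x _ hx => rw [map_smul]; exact Submodule.smul_mem _ _ hx

theorem span_words {n : ℕ} (hn : 5 ≤ n) :
    Submodule.span F {q | ∃ xs : List (MQ D), n ≤ xs.length ∧ ∃ a, q = ew F xs a} ≤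
    Submodule.span F {q | ∃ (xs : List (FreeMagma ℕ)) (a : FreeMagma ℕ), n ≤ xs.length ∧
      q = ew F (xs.map (wdQ D)) (wdQ D a)} := by
  rw [Submodule.span_le]
  rintro q ⟨xs, hl, a, rfl⟩
  have h := ew_Sn (D := D) (hn.trans hl) a
  refine Submodule.span_mono ?_ h
  rintro p ⟨ws, w, hlw, rfl⟩
  exact ⟨ws, w, by omega, rfl⟩

end CSpanAux

/-- `Qid` is spanned by the `ew F xs a` (`Qid_eq_span`); all arguments may be taken to be words (`span_wdQ`, linearity of `ew` in the last argument and in each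
entry of the list); apply `piM m` (`ew_GM`, `piQ_of_mem`). -/
theorem Qid_GM [HPc F (MQ D)] {m : Multiset ℕ} {q : MQ D} (hq : q ∈ Qid F (MQ D))
    (hm : q ∈ GQ D m) : q ∈ Em D 5 m := by
  rw [Qid_eq_span F (MQ_isMalcev D)] at hq
  exact CSpanAux.Em_of_span (CSpanAux.span_words le_rfl hq) hm

/-- the same for `E1A` -/
theorem E1A_GM {m : Multiset ℕ} {q : MQ D} (hq : q ∈ E1A F (MQ D))
    (hm : q ∈ GQ D m) : q ∈ Em D 6 m := by
  unfold E1A at hq
  exact CSpanAux.Em_of_span (CSpanAux.span_words (by norm_num) hq) hm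

namespace CSpanAux

theorem card_content (w : FreeMagma ℕ) : 1 ≤ Multiset.card (content w) := by
  induction w using FreeMagma.recOnMul with
  | ih1 i => simp [content]
  | ih2 a b ha hb =>
    show 1 ≤ Multiset.card (content a + content b)
    rw [Multiset.card_add]
    omega

theorem card_sum (xs : List (FreeMagma ℕ)) : xs.length ≤ Multiset.card (xs.map content).sum := by
  induction xs with
  | nil => simp
  | cons w xs ih =>
    have := card_content w
    simp only [List.length_cons, List.map_cons, List.sum_cons, Multiset.card_add]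
    omega

end CSpanAux

/-- contents of words are nonempty -/
theorem Em_small {m : Multiset ℕ} (hm : Multiset.card m < 6) : Em D 5 m = ⊥ := by
  unfold Em
  rw [Submodule.span_eq_bot]
  rintro q ⟨xs, a, hl, hc, rfl⟩
  exfalso
  have h1 := CSpanAux.card_sum xs
  have h2 := CSpanAux.card_content a
  rw [← hc, Multiset.card_add] at hm
  omega

end Pool.Agent.MalP
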