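import Pool.Agent.MalP.CTot

/-! # Part C: `e'` with two products -/

set_option autoImplicit false

open scoped BigOperators

namespace Pool.Agent.MalP

universe u v

variable (F : Type u) [Field F] [CI 5 F] {A : Type v} [NonUnitalNonAssocRing A] [Module F A]
  [IsScalarTower F A A] [SMulCommClass F A A]

namespace CTot2Aux

/-- cyclic shift of the positions `1, .., 6` -/
def rho : Equiv.Perm (Fin 7) where
  toFun := ![0, 2, 3, 4, 5, 6, 1]
  invFun := ![0, 6, 1, 2, 3, 4, 5]
  left_inv := by decide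
  right_inv := by decide

omit [CI 5 F] [IsScalarTower F A A] [SMulCommClass F A A] in
theorem rot7 {N : Type v} [AddCommGroup N] [Module F N] (G : A [⋀^Fin 7]→ₗ[F] N)
    (a b c d e f g : A) : G ![b, c, d, e, f, g, a] = G ![a, b, c, d, e, f, g] := by
  have h := G.map_perm ![a, b, c, d, e, f, g] (finRotate 7)
  have h1 : (![a, b, c, d, e, f, g] : Fin 7 → A) ∘ (finRotate 7) = ![b, c, d, e, f, g, a] := by
    funext i
    fin_cases i <;> rfl
  have h2 : Equiv.Perm.sign (finRotate 7) = 1 := by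
    rw [sign_finRotate]
    decide
  rw [h1, h2, one_smul] at h
  exact h

omit [CI 5 F] [IsScalarTower F A A] [SMulCommClass F A A] in
theorem rot6 {N : Type v} [AddCommGroup N] [Module F N] (G : A [⋀^Fin 7]→ₗ[F] N)
    (a b c d e f g : A) : G ![a, d, e, f, g, b, c] = G ![a, b, c, d, e, f, g] := by
  have h := G.map_perm ![a, b, c, d, e, f, g] (rho * rho)
  have h1 : (![a, b, c, d, e, f, g] : Fin 7 → A) ∘ (rho * rho : Equiv.Perm (Fin 7)) =
      ![a, d, e, f, g, b, c] := by
    funext i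
    fin_cases i <;> rfl
  rw [h1, map_mul, Int.units_mul_self, one_smul] at h
  exact h

/-- `n • z = 0` with `n ≠ 0` gives `z = 0` -/
theorem nsmul_zero {N : Type v} [AddCommGroup N] [Module F N] (n : ℕ) (hn : (n : F) ≠ 0) {z : N}
    (h : n • z = 0) : z = 0 := by
  rw [← Nat.cast_smul_eq_nsmul F] at h
  rcases smul_eq_zero.1 h with h1 | h1
  · exact absurd h1 hn
  · exact h1

end CTot2Aux

/-- `H = 2 G`: `base_r5` says that the alternating sum of `2 G - H` over all permutations is `0` in the quotient, and it equals `7!` times `2 G - H`. -/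
theorem HA_eq [CI 35 F] (h : IsMalcev A) {G H : A [⋀^Fin 7]→ₗ[F] (A ⧸ E1A F A)}
    (hG : ∀ y : Fin 7 → A, G y = (E1A F A).mkQ (ee F (y 0 * y 1) (y 2) (y 3) (y 4) (y 5) (y 6)))
    (hH : ∀ y : Fin 7 → A, H y = (E1A F A).mkQ (ee F (y 0) (y 1) (y 2) (y 3) (y 4) (y 5 * y 6)))
    (y : Fin 7 → A) : H y = 2 • G y := by
  have h5 := Fsp_le F y (base_r5 F h y)
  rw [← Submodule.Quotient.mk_eq_zero, ← Submodule.mkQ_apply, map_sum] at h5
  have h6 : ∀ s : Equiv.Perm (Fin 7), (E1A F A).mkQ (Equiv.Perm.sign s •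
      (2 • ee F (y (s 0) * y (s 1)) (y (s 2)) (y (s 3)) (y (s 4)) (y (s 5)) (y (s 6)) -
        ee F (y (s 0)) (y (s 1)) (y (s 2)) (y (s 3)) (y (s 4)) (y (s 5) * y (s 6)))) =
      2 • G y - H y := by
    intro s
    have e1 : (E1A F A).mkQ
        (ee F (y (s 0) * y (s 1)) (y (s 2)) (y (s 3)) (y (s 4)) (y (s 5)) (y (s 6))) =
        Equiv.Perm.sign s • G y := by
      rw [← G.map_perm, hG]
      rfl
    have e2 : (E1A F A).mkQ
        (ee F (y (s 0)) (y (s 1)) (y (s 2)) (y (s 3)) (y (s 4)) (y (s 5) * y (s 6))) =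
        Equiv.Perm.sign s • H y := by
      rw [← H.map_perm, hH]
      rfl
    have e3 : (E1A F A).mkQ (2 • ee F (y (s 0) * y (s 1)) (y (s 2)) (y (s 3)) (y (s 4)) (y (s 5))
        (y (s 6)) - ee F (y (s 0)) (y (s 1)) (y (s 2)) (y (s 3)) (y (s 4)) (y (s 5) * y (s 6))) =
        Equiv.Perm.sign s • (2 • G y - H y) := by
      rw [map_sub, map_nsmul, e1, e2, smul_sub, smul_comm]
    rcases Int.units_eq_one_or (Equiv.Perm.sign s) with hs | hs
    · rw [hs, one_smul] at e3 ⊢
      exact e3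
    · rw [hs, Units.neg_smul, one_smul] at e3 ⊢
      rw [map_neg, e3, neg_neg]
  rw [Finset.sum_congr rfl (fun s _ => h6 s), Finset.sum_const] at h5
  have h7 := CTot2Aux.nsmul_zero F _ (by
    have h : (16 * (9 * (5 * 7)) : F) ≠ 0 := mul_ne_zero (by
        have := CI.ne5 F 4 0 0
        push_cast at this
        norm_num at this
        exact this) (mul_ne_zero (by
        have := CI.ne5 F 0 2 0
        push_cast at this
        norm_num at this
        exact this) (mul_ne_zero (CI.five F) (CI.seven F)))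
    norm_num at h
    rw [Finset.card_univ, Fintype.card_perm]
    simpa [Nat.factorial] using h) h5
  exact (sub_eq_zero.1 h7).symm

variable (A) in
/-- the identity (r5) in its sharp form (a theorem if 7 is invertible) -/
class R5c : Prop where
  out : ∀ y : Fin 7 → A, 2 • ee F (y 0 * y 1) (y 2) (y 3) (y 4) (y 5) (y 6) -
    ee F (y 0) (y 1) (y 2) (y 3) (y 4) (y 5 * y 6) ∈ E1A F A

theorem r5c_of35 [CI 35 F] (h : IsMalcev A) : R5c F A where
  out := by
    intro y
    obtain ⟨G, hG⟩ := exists_GA F h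
    obtain ⟨H, hH⟩ := exists_HA F h
    have h1 := HA_eq F h hG hH y
    rw [← Submodule.Quotient.mk_eq_zero, ← Submodule.mkQ_apply, map_sub, map_nsmul, ← hG, ← hH, h1,
      sub_self]

/-- **Products among the arguments.** Let `G, H` be as above, `u, v, s, t, x0, .., x3` arbitrary. `e'(u v, x0,..,x3; s t)` is `G(u,v,x0,..,x3,s t)` and also
`H(u v,x0,..,x3,s,t) = 2 G(u v,x0,..,x3,s,t)`. As `G` is alternating, `G(u,v,x0,..,x3,st) = G(st,u,v,x0,..,x3)` (six transpositions) and
`G(uv,x0,..,x3,s,t) = G(uv,s,t,x0,..,x3)` (eight). So `g(st|u,v) = 2 g(uv|s,t)` where `g(m|s,t) = G(m,s,t,x0,..,x3)`; exchanging the roles of `(u,v)` and `(s,t)`: `g(uv|s,t) = 2 g(st|u,v)`,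
so `g(st|u,v) = 4 g(st|u,v)` and `g(st|u,v) = 0`: `G` vanishes when one of the seven arguments is a product (move it to the front). -/
theorem T_main [hr : R5c F A] (h : IsMalcev A) (y : Fin 7 → A) (i : Fin 7) (a b : A) (hi : y i = a * b) :
    ee F (y 0 * y 1) (y 2) (y 3) (y 4) (y 5) (y 6) ∈ E1A F A ∧
      ee F (y 0) (y 1) (y 2) (y 3) (y 4) (y 5 * y 6) ∈ E1A F A := by
  obtain ⟨G, hG⟩ := exists_GA F h
  obtain ⟨H, hH⟩ := exists_HA F h
  have hHG : ∀ z, H z = 2 • G z := fun z => by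
    have h1 := hr.out z
    rw [← Submodule.Quotient.mk_eq_zero, ← Submodule.mkQ_apply, map_sub, map_nsmul, ← hG, ← hH,
      sub_eq_zero] at h1
    exact h1.symm
  -- the relation between two products
  have key : ∀ u v s t x0 x1 x2 x3 : A,
      G ![s * t, u, v, x0, x1, x2, x3] = 2 • G ![u * v, s, t, x0, x1, x2, x3] := by
    intro u v s t x0 x1 x2 x3
    have e1 : G ![u, v, x0, x1, x2, x3, s * t] = (E1A F A).mkQ (ee F (u * v) x0 x1 x2 x3 (s * t)) :=
      hG ![u, v, x0, x1, x2, x3, s * t]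
    have e2 : H ![u * v, x0, x1, x2, x3, s, t] = (E1A F A).mkQ (ee F (u * v) x0 x1 x2 x3 (s * t)) :=
      hH ![u * v, x0, x1, x2, x3, s, t]
    rw [CTot2Aux.rot7] at e1
    rw [hHG, CTot2Aux.rot6] at e2
    rw [e1, e2]
  have zero : ∀ z : Fin 7 → A, z 0 = a * b → G z = 0 := by
    intro z hz
    have hzv : z = ![a * b, z 1, z 2, z 3, z 4, z 5, z 6] := by
      funext j
      fin_cases j
      · exact hz
      all_goals rfl
    rw [hzv]
    have k1 := key a b (z 1) (z 2) (z 3) (z 4) (z 5) (z 6)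
    have k2 := key (z 1) (z 2) a b (z 3) (z 4) (z 5) (z 6)
    rw [k1, smul_smul] at k2
    apply CTot2Aux.nsmul_zero F 3 (by push_cast; exact C23.three)
    have k3 : (4 : ℕ) • G ![a * b, z 1, z 2, z 3, z 4, z 5, z 6] =
        G ![a * b, z 1, z 2, z 3, z 4, z 5, z 6] := k2.symm
    have k4 : (4 : ℕ) • G ![a * b, z 1, z 2, z 3, z 4, z 5, z 6] =
        (3 : ℕ) • G ![a * b, z 1, z 2, z 3, z 4, z 5, z 6] +
          G ![a * b, z 1, z 2, z 3, z 4, z 5, z 6] := succ_nsmul _ 3
    rw [k4] at k3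
    exact add_eq_right.1 k3
  have hGy : G y = 0 := by
    have h1 := G.map_perm y (Equiv.swap 0 i)
    have h2 : G (y ∘ (Equiv.swap 0 i)) = 0 := by
      apply zero
      rw [Function.comp_apply, Equiv.swap_apply_left]
      exact hi
    rw [h2] at h1
    rcases Int.units_eq_one_or (Equiv.Perm.sign (Equiv.swap 0 i)) with hs | hs
    · rw [hs, one_smul] at h1
      exact h1.symm
    · rw [hs, Units.neg_smul, one_smul] at h1
      exact neg_eq_zero.1 h1.symm
  constructor
  · rw [← Submodule.Quotient.mk_eq_zero, ← Submodule.mkQ_apply, ← hG]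
    exact hGy
  · rw [← Submodule.Quotient.mk_eq_zero, ← Submodule.mkQ_apply, ← hH, hHG, hGy, smul_zero]

end Pool.Agent.MalP
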