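import Pool.Agent.MalP.FEx

/-! # The certificates: statements -/

set_option autoImplicit false

namespace Pool.Agent.MalP

universe u

/-- `e` vanishes in all superalgebras with the identities `ids` when the letter `l` is the
generator `cls l`, the generator `g` having parity `par g`. -/
def Cert (M : ℕ) (ids : List PEx) (par : ℕ → Bool) (cls : ℕ → ℕ) (e : PEx) : Prop :=
  ∀ (S : Type u) [NonUnitalNonAssocRing S] (h : SM M ids S) (v : ℕ → S),
    (∀ g, v g ∈ h.P (par g)) → e.sev (fun l => par (cls l)) (fun l => v (cls l)) = 0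

/-- generator 0 is odd, the others are even -/
def par1 (g : ℕ) : Bool := Nat.beq g 0

/-- the letters `0, .., k-1` are the generator 0, the letter `k + i` is the generator `i + 1` -/
def cls1 (k l : ℕ) : ℕ := l + 1 - k

def idsM : List PEx := [antiEx, sagleEx]

def idsV : List PEx := [antiEx, sagleEx, f6Ex]

theorem idsM_ml : ∀ e ∈ idsM, e.ml = true := by decide

theorem idsV_ml : ∀ e ∈ idsV, e.ml = true := by decide +kernel

theorem IsMalcev.algM (M : ℕ) (F : Type*) [Field F] [CI M F] {A : Type u}
    [NonUnitalNonAssocRing A] [Module F A] (h : IsMalcev A) : Alg M idsM A := h.alg M F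

theorem IsV.algV (M : ℕ) (F : Type*) [Field F] [CI M F] {A : Type u} [NonUnitalNonAssocRing A]
    [Module F A] (h : IsV A) : Alg M idsV A where
  tf := tf_of_field F
  ids := by
    intro e he y
    have h1 := (h.toIsMalcev.algM M F).ids e
    simp only [idsV, List.mem_cons, List.not_mem_nil, or_false] at he
    rcases he with rfl | rfl | rfl
    · exact h1 (by simp [idsM]) y
    · exact h1 (by simp [idsM]) y
    · show P108 (y 0) (y 1) (y 2) (y 3) (y 4 * y 5) - P108 (y 0) (y 1) (y 2) (y 3) (y 4) * y 5 = 0
      rw [h.f6, sub_self]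

end Pool.Agent.MalP
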