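import Pool.Agent.MalP.Check4
import Pool.Agent.MalP.Certs

/-! # Certificate of F3Ex -/

set_option autoImplicit false
set_option maxRecDepth 100000

namespace Pool.Agent.MalP

universe u

namespace Chk

noncomputable def dF3_c4369 : Cm := .mk (nat_lit 26) (nat_lit 4369) (nat_lit 30) (nat_lit 10) (.c (nat_lit 7) (nat_lit 1) (nat_lit 6) (nat_lit 1) (nat_lit 10) (.c (nat_lit 8) (nat_lit 1) (nat_lit 5) (nat_lit 1) (nat_lit 11) (.c (nat_lit 9) (nat_lit 1) (nat_lit 4) (nat_lit 1) (nat_lit 12) (.c (nat_lit 11) (nat_lit 3) (nat_lit 3) (nat_lit 1) (nat_lit 13) (.c (nat_lit 14) (nat_lit 3) (nat_lit 2) (nat_lit 1) (nat_lit 16) (.c (nat_lit 17) (nat_lit 3) (nat_lit 1) (nat_lit 1) (nat_lit 19) (.c (nat_lit 20) (nat_lit 3) (nat_lit 0) (nat_lit 1) (nat_lit 22) .nil)))))))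

noncomputable def dF3_c4354 : Cm := .mk (nat_lit 41) (nat_lit 4354) (nat_lit 40) (nat_lit 6) (.c (nat_lit 8) (nat_lit 1) (nat_lit 7) (nat_lit 1) (nat_lit 6) (.c (nat_lit 10) (nat_lit 1) (nat_lit 4) (nat_lit 1) (nat_lit 7) (.c (nat_lit 14) (nat_lit 3) (nat_lit 3) (nat_lit 1) (nat_lit 8) (.c (nat_lit 23) (nat_lit 2) (nat_lit 1) (nat_lit 1) (nat_lit 11) (.c (nat_lit 25) (nat_lit 2) (nat_lit 0) (nat_lit 1) (nat_lit 13) .nil)))))

noncomputable def dF3_c4114 : Cm := .mk (nat_lit 50) (nat_lit 4114) (nat_lit 46) (nat_lit 6) (.c (nat_lit 9) (nat_lit 1) (nat_lit 7) (nat_lit 1) (nat_lit 6) (.c (nat_lit 10) (nat_lit 1) (nat_lit 5) (nat_lit 1) (nat_lit 7) (.c (nat_lit 17) (nat_lit 3) (nat_lit 3) (nat_lit 1) (nat_lit 8) (.c (nat_lit 23) (nat_lit 2) (nat_lit 2) (nat_lit 1) (nat_lit 11) (.c (nat_lit 27) (nat_lit 2) (nat_lit 0) (nat_lit 1) (nat_lit 13) .nil)))))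

noncomputable def dF3_c274 : Cm := .mk (nat_lit 59) (nat_lit 274) (nat_lit 52) (nat_lit 6) (.c (nat_lit 9) (nat_lit 1) (nat_lit 8) (nat_lit 1) (nat_lit 6) (.c (nat_lit 10) (nat_lit 1) (nat_lit 6) (nat_lit 1) (nat_lit 7) (.c (nat_lit 20) (nat_lit 3) (nat_lit 3) (nat_lit 1) (nat_lit 8) (.c (nat_lit 25) (nat_lit 2) (nat_lit 2) (nat_lit 1) (nat_lit 11) (.c (nat_lit 27) (nat_lit 2) (nat_lit 1) (nat_lit 1) (nat_lit 13) .nil)))))

noncomputable def dF3_c4099 : Cm := .mk (nat_lit 68) (nat_lit 4099) (nat_lit 58) (nat_lit 3) (.c (nat_lit 10) (nat_lit 1) (nat_lit 7) (nat_lit 1) (nat_lit 3) (.c (nat_lit 23) (nat_lit 2) (nat_lit 3) (nat_lit 1) (nat_lit 4) (.c (nat_lit 29) (nat_lit 1) (nat_lit 0) (nat_lit 1) (nat_lit 6) .nil)))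

noncomputable def dF3_c259 : Cm := .mk (nat_lit 72) (nat_lit 259) (nat_lit 61) (nat_lit 3) (.c (nat_lit 10) (nat_lit 1) (nat_lit 8) (nat_lit 1) (nat_lit 3) (.c (nat_lit 25) (nat_lit 2) (nat_lit 3) (nat_lit 1) (nat_lit 4) (.c (nat_lit 29) (nat_lit 1) (nat_lit 1) (nat_lit 1) (nat_lit 6) .nil)))

noncomputable def dF3_c19 : Cm := .mk (nat_lit 76) (nat_lit 19) (nat_lit 64) (nat_lit 3) (.c (nat_lit 10) (nat_lit 1) (nat_lit 9) (nat_lit 1) (nat_lit 3) (.c (nat_lit 27) (nat_lit 2) (nat_lit 3) (nat_lit 1) (nat_lit 4) (.c (nat_lit 29) (nat_lit 1) (nat_lit 2) (nat_lit 1) (nat_lit 6) .nil)))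

noncomputable def dF3_c4370 : Cm := .mk (nat_lit 80) (nat_lit 4370) (nat_lit 67) (nat_lit 25) (.c (nat_lit 11) (nat_lit 3) (nat_lit 10) (nat_lit 1) (nat_lit 25) (.c (nat_lit 14) (nat_lit 3) (nat_lit 9) (nat_lit 1) (nat_lit 28) (.c (nat_lit 17) (nat_lit 3) (nat_lit 8) (nat_lit 1) (nat_lit 31) (.c (nat_lit 20) (nat_lit 3) (nat_lit 7) (nat_lit 1) (nat_lit 34) (.c (nat_lit 23) (nat_lit 2) (nat_lit 6) (nat_lit 1) (nat_lit 37) (.c (nat_lit 25) (nat_lit 2) (nat_lit 5) (nat_lit 1) (nat_lit 39) (.c (nat_lit 27) (nat_lit 2) (nat_lit 4) (nat_lit 1) (nat_lit 41) (.c (nat_lit 30) (nat_lit 10) (nat_lit 3) (nat_lit 1) (nat_lit 43) (.c (nat_lit 40) (nat_lit 6) (nat_lit 2) (nat_lit 1) (nat_lit 53) (.c (nat_lit 46) (nat_lit 6) (nat_lit 1) (nat_lit 1) (nat_lit 59) (.c (nat_lit 52) (nat_lit 6) (nat_lit 0) (nat_lit 1) (nat_lit 65) .nil)))))))))))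

noncomputable def dF3_c4355 : Cm := .mk (nat_lit 126) (nat_lit 4355) (nat_lit 92) (nat_lit 11) (.c (nat_lit 14) (nat_lit 3) (nat_lit 10) (nat_lit 1) (nat_lit 11) (.c (nat_lit 23) (nat_lit 2) (nat_lit 8) (nat_lit 1) (nat_lit 14) (.c (nat_lit 25) (nat_lit 2) (nat_lit 7) (nat_lit 1) (nat_lit 16) (.c (nat_lit 29) (nat_lit 1) (nat_lit 4) (nat_lit 1) (nat_lit 18) (.c (nat_lit 40) (nat_lit 6) (nat_lit 3) (nat_lit 1) (nat_lit 19) (.c (nat_lit 58) (nat_lit 3) (nat_lit 1) (nat_lit 1) (nat_lit 25) (.c (nat_lit 61) (nat_lit 3) (nat_lit 0) (nat_lit 1) (nat_lit 28) .nil)))))))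

noncomputable def dF3_c4115 : Cm := .mk (nat_lit 146) (nat_lit 4115) (nat_lit 103) (nat_lit 11) (.c (nat_lit 17) (nat_lit 3) (nat_lit 10) (nat_lit 1) (nat_lit 11) (.c (nat_lit 23) (nat_lit 2) (nat_lit 9) (nat_lit 1) (nat_lit 14) (.c (nat_lit 27) (nat_lit 2) (nat_lit 7) (nat_lit 1) (nat_lit 16) (.c (nat_lit 29) (nat_lit 1) (nat_lit 5) (nat_lit 1) (nat_lit 18) (.c (nat_lit 46) (nat_lit 6) (nat_lit 3) (nat_lit 1) (nat_lit 19) (.c (nat_lit 58) (nat_lit 3) (nat_lit 2) (nat_lit 1) (nat_lit 25) (.c (nat_lit 64) (nat_lit 3) (nat_lit 0) (nat_lit 1) (nat_lit 28) .nil)))))))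

noncomputable def dF3_c275 : Cm := .mk (nat_lit 166) (nat_lit 275) (nat_lit 114) (nat_lit 11) (.c (nat_lit 20) (nat_lit 3) (nat_lit 10) (nat_lit 1) (nat_lit 11) (.c (nat_lit 25) (nat_lit 2) (nat_lit 9) (nat_lit 1) (nat_lit 14) (.c (nat_lit 27) (nat_lit 2) (nat_lit 8) (nat_lit 1) (nat_lit 16) (.c (nat_lit 29) (nat_lit 1) (nat_lit 6) (nat_lit 1) (nat_lit 18) (.c (nat_lit 52) (nat_lit 6) (nat_lit 3) (nat_lit 1) (nat_lit 19) (.c (nat_lit 61) (nat_lit 3) (nat_lit 2) (nat_lit 1) (nat_lit 25) (.c (nat_lit 64) (nat_lit 3) (nat_lit 1) (nat_lit 1) (nat_lit 28) .nil)))))))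

noncomputable def dF3_i0 : IL := (.s false (nat_lit 1) (nat_lit 7) (nat_lit 2) (nat_lit 1) (nat_lit 3) true (nat_lit 1) true (nat_lit 7) true (nat_lit 3) true (nat_lit 8) true (nat_lit 9) (.s false (nat_lit 1) (nat_lit 7) (nat_lit 2) (nat_lit 3) (nat_lit 1) true (nat_lit 4) true (nat_lit 9) true (nat_lit 3) true (nat_lit 8) true (nat_lit 7) (.s false (nat_lit 1) (nat_lit 8) (nat_lit 3) (nat_lit 0) (nat_lit 2) true (nat_lit 1) true (nat_lit 8) true (nat_lit 2) true (nat_lit 7) true (nat_lit 10) (.s true (nat_lit 2) (nat_lit 9) (nat_lit 0) (nat_lit 1) (nat_lit 3) true (nat_lit 3) true (nat_lit 7) true (nat_lit 1) true (nat_lit 10) true (nat_lit 9) (.s true (nat_lit 1) (nat_lit 9) (nat_lit 0) (nat_lit 3) (nat_lit 1) true (nat_lit 6) true (nat_lit 9) true (nat_lit 1) true (nat_lit 10) true (nat_lit 7) (.s true (nat_lit 1) (nat_lit 9) (nat_lit 3) (nat_lit 1) (nat_lit 0) true (nat_lit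 3) true (nat_lit 10) true (nat_lit 1) true (nat_lit 7) true (nat_lit 9) (.e false (nat_lit 12) (nat_lit 30) (nat_lit 3) (nat_lit 7) (.e true (nat_lit 6) (nat_lit 41) (nat_lit 2) (nat_lit 8) (.e false (nat_lit 6) (nat_lit 42) (nat_lit 2) (nat_lit 8) (.e true (nat_lit 9) (nat_lit 43) (nat_lit 2) (nat_lit 8) (.e false (nat_lit 9) (nat_lit 45) (nat_lit 2) (nat_lit 8) (.e false (nat_lit 3) (nat_lit 33) (nat_lit 3) (nat_lit 7) (.e true (nat_lit 6) (nat_lit 34) (nat_lit 3) (nat_lit 7) (.e true (nat_lit 3) (nat_lit 46) (nat_lit 1) (nat_lit 9) (.e false (nat_lit 3) (nat_lit 50) (nat_lit 1) (nat_lit 9) (.e false (nat_lit 3) (nat_lit 51) (nat_lit 1) (nat_lit 9) (.e false (nat_lit 3) (nat_lit 37) (nat_lit 3) (nat_lit 7) (.e true (nat_lit 3) (nat_lit 49) (nat_lit 1) (nat_lit 9) (.e true (nat_lit 3) (nat_lit 23) (nat_lit 6) (nat_lit 4) (.e false (nat_lit 3) (nat_lit 39) (nat_lit 3) (nat_lit 7)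 (.e false (nat_lit 3) (nat_lit 52) (nat_lit 0) (nat_lit 10) (.e true (nat_lit 3) (nat_lit 56) (nat_lit 0) (nat_lit 10) (.e true (nat_lit 3) (nat_lit 32) (nat_lit 3) (nat_lit 7) (.e false (nat_lit 3) (nat_lit 31) (nat_lit 3) (nat_lit 7) (.e false (nat_lit 3) (nat_lit 35) (nat_lit 3) (nat_lit 7) .nil)))))))))))))))))))))))))

noncomputable def dF3_t0 : Tr := (.nd (.nd (.nd (.nd (.nd (.nd (.nd .leaf (nat_lit 1024) (nat_lit 0) (.p (nat_lit 4) (nat_lit 3) .z) .df .leaf) (nat_lit 2048) (nat_lit 1) (.p (nat_lit 5) (nat_lit 3) .z) .df .leaf) (nat_lit 2049) (nat_lit 2) (.p (nat_lit 6) (nat_lit 3) .z) .df (.nd (.nd .leaf (nat_lit 3072) (nat_lit 3) (.p (nat_lit 7) (nat_lit 3) .z) .df .leaf) (nat_lit 3073) (nat_lit 4) (.p (nat_lit 8) (nat_lit 3) .z) .df .leaf)) (nat_lit 3074) (nat_lit 5) (.p (nat_lit 9) (nat_lit 3) .z) .df (.nd (.nd (.nd .leaf (nat_lit 3075) (nat_lit 6) (.p (nat_lit 10) (nat_lit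 3) .z) .df .leaf) (nat_lit 4098) (nat_lit 7) (.p (nat_lit 11) (nat_lit 3) .z) .df .leaf) (nat_lit 4099) (nat_lit 10) (.p (nat_lit 14) (nat_lit 3) .z) .df (.nd (.nd .leaf (nat_lit 5121) (nat_lit 8) (.p (nat_lit 12) (nat_lit 3) .z) .df .leaf) (nat_lit 5123) (nat_lit 13) (.p (nat_lit 17) (nat_lit 3) .z) .df .leaf))) (nat_lit 6144) (nat_lit 9) (.p (nat_lit 13) (nat_lit 3) .z) .df (.nd (.nd (.nd (.nd .leaf (nat_lit 6147) (nat_lit 16) (.p (nat_lit 20) (nat_lit 3) .z) .df .leaf) (nat_lit 7169) (nat_lit 11) (.p (nat_lit 15) (nat_lit 3) .z) .df .leaf) (nat_lit 7170) (nat_lit 14) (.p (nat_lit 18) (nat_lit 3) .z) .df (.nd (.nd .leaf (nat_lit 7171) (nat_lit 19) (.p (nat_lit 23) (nat_lit 3) .z) .df .leaf) (nat_lit 7174) (nat_lit 38) (.n (nat_lit 32) (nat_lit 3) (.n (nat_lit 33) (nat_lit 3) (.n (nat_lit 34) (nat_lit 3) (.n (nat_lit 35) (nat_lit 3) (.p (nat_lit 36) (nat_lit 3) (.p (nat_lit 37)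 (nat_lit 3) (.p (nat_lit 38) (nat_lit 3) (.p (nat_lit 39) (nat_lit 3) .z)))))))) (.ct dF3_c4369 (nat_lit 3) (nat_lit 0) (.s true (nat_lit 1) (nat_lit 3) (nat_lit 1) (nat_lit 0) (nat_lit 2) true (nat_lit 0) true (nat_lit 4) true (nat_lit 3) true (nat_lit 5) true (nat_lit 6) (.e true (nat_lit 3) (nat_lit 16) (nat_lit 2) (nat_lit 4) (.e true (nat_lit 3) (nat_lit 11) (nat_lit 3) (nat_lit 3) (.e false (nat_lit 3) (nat_lit 17) (nat_lit 1) (nat_lit 5) (.e false (nat_lit 3) (nat_lit 22) (nat_lit 0) (nat_lit 6) .nil)))))) .leaf)) (nat_lit 8192) (nat_lit 12) (.p (nat_lit 16) (nat_lit 3) .z) .df (.nd (.nd (.nd .leaf (nat_lit 8194) (nat_lit 17) (.p (nat_lit 21) (nat_lit 3) .z) .df .leaf) (nat_lit 8195) (nat_lit 21) (.p (nat_lit 25) (nat_lit 3) .z) .df .leaf) (nat_lit 8197) (nat_lit 39) (.p (nat_lit 30) (nat_lit 3) (.n (nat_lit 34) (nat_lit 3) (.p (nat_lit 38) (nat_lit 3) (.p (nat_lit 39) (nat_lit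 3) .z)))) (.ct dF3_c4369 (nat_lit 3) (nat_lit 1) (.s true (nat_lit 1) (nat_lit 3) (nat_lit 0) (nat_lit 1) (nat_lit 2) true (nat_lit 1) true (nat_lit 4) true (nat_lit 3) true (nat_lit 6) true (nat_lit 5) (.e true (nat_lit 3) (nat_lit 15) (nat_lit 2) (nat_lit 4) (.e false (nat_lit 3) (nat_lit 11) (nat_lit 3) (nat_lit 3) (.e false (nat_lit 3) (nat_lit 20) (nat_lit 0) (nat_lit 6) (.e false (nat_lit 3) (nat_lit 19) (nat_lit 1) (nat_lit 5) .nil)))))) (.nd (.nd .leaf (nat_lit 8199) (nat_lit 47) (.n (nat_lit 40) (nat_lit 3) (.n (nat_lit 41) (nat_lit 3) (.p (nat_lit 44) (nat_lit 3) (.n (nat_lit 45) (nat_lit 3) .z)))) (.ct dF3_c4354 (nat_lit 3) (nat_lit 0) (.s true (nat_lit 1) (nat_lit 3) (nat_lit 0) (nat_lit 1) (nat_lit 3) true (nat_lit 0) true (nat_lit 2) true (nat_lit 2) true (nat_lit 4) true (nat_lit 3) (.e true (nat_lit 3) (nat_lit 15) (nat_lit 3) (nat_lit 2) (.e true (nat_lit 3) (nat_lit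 14) (nat_lit 3) (nat_lit 2) (.e true (nat_lit 3) (nat_lit 25) (nat_lit 0) (nat_lit 4) (.e false (nat_lit 3) (nat_lit 24) (nat_lit 1) (nat_lit 3) .nil)))))) .leaf) (nat_lit 9216) (nat_lit 15) (.p (nat_lit 19) (nat_lit 3) .z) .df .leaf)))) (nat_lit 9217) (nat_lit 18) (.p (nat_lit 22) (nat_lit 3) .z) .df (.nd (.nd (.nd (.nd (.nd .leaf (nat_lit 9219) (nat_lit 23) (.p (nat_lit 27) (nat_lit 3) .z) .df .leaf) (nat_lit 9220) (nat_lit 40) (.p (nat_lit 31) (nat_lit 3) (.p (nat_lit 35) (nat_lit 3) (.n (nat_lit 37) (nat_lit 3) (.n (nat_lit 39) (nat_lit 3) .z)))) (.ct dF3_c4369 (nat_lit 3) (nat_lit 2) (.s true (nat_lit 1) (nat_lit 3) (nat_lit 0) (nat_lit 2) (nat_lit 1) true (nat_lit 2) true (nat_lit 5) true (nat_lit 3) true (nat_lit 6) true (nat_lit 4) (.e true (nat_lit 3) (nat_lit 18) (nat_lit 1) (nat_lit 5) (.e false (nat_lit 3) (nat_lit 12) (nat_lit 3) (nat_lit 3) (.e true (nat_lit 3) (nat_lit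 20) (nat_lit 0) (nat_lit 6) (.e false (nat_lit 3) (nat_lit 16) (nat_lit 2) (nat_lit 4) .nil)))))) .leaf) (nat_lit 9223) (nat_lit 56) (.n (nat_lit 46) (nat_lit 3) (.n (nat_lit 47) (nat_lit 3) (.p (nat_lit 50) (nat_lit 3) (.n (nat_lit 51) (nat_lit 3) .z)))) (.ct dF3_c4114 (nat_lit 3) (nat_lit 0) (.s true (nat_lit 1) (nat_lit 3) (nat_lit 0) (nat_lit 2) (nat_lit 3) true (nat_lit 0) true (nat_lit 2) true (nat_lit 2) true (nat_lit 4) true (nat_lit 3) (.e true (nat_lit 3) (nat_lit 18) (nat_lit 3) (nat_lit 2) (.e true (nat_lit 3) (nat_lit 17) (nat_lit 3) (nat_lit 2) (.e true (nat_lit 3) (nat_lit 27) (nat_lit 0) (nat_lit 4) (.e false (nat_lit 3) (nat_lit 24) (nat_lit 2) (nat_lit 3) .nil)))))) (.nd (.nd .leaf (nat_lit 9224) (nat_lit 65) (.n (nat_lit 52) (nat_lit 3) (.n (nat_lit 53) (nat_lit 3) (.p (nat_lit 56) (nat_lit 3) (.n (nat_lit 57) (nat_lit 3) .z)))) (.ct dF3_c274 (nat_lit 3) (nat_lit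 0) (.s true (nat_lit 1) (nat_lit 3) (nat_lit 1) (nat_lit 2) (nat_lit 3) true (nat_lit 0) true (nat_lit 2) true (nat_lit 2) true (nat_lit 4) true (nat_lit 3) (.e true (nat_lit 3) (nat_lit 21) (nat_lit 3) (nat_lit 2) (.e true (nat_lit 3) (nat_lit 20) (nat_lit 3) (nat_lit 2) (.e true (nat_lit 3) (nat_lit 27) (nat_lit 1) (nat_lit 4) (.e false (nat_lit 3) (nat_lit 26) (nat_lit 2) (nat_lit 3) .nil)))))) .leaf) (nat_lit 10240) (nat_lit 20) (.p (nat_lit 24) (nat_lit 3) .z) .df .leaf)) (nat_lit 10241) (nat_lit 22) (.p (nat_lit 26) (nat_lit 3) .z) .df (.nd (.nd (.nd .leaf (nat_lit 10242) (nat_lit 24) (.p (nat_lit 28) (nat_lit 3) .z) .df .leaf) (nat_lit 10243) (nat_lit 25) (.p (nat_lit 29) (nat_lit 3) .z) .df .leaf) (nat_lit 10244) (nat_lit 49) (.n (nat_lit 41) (nat_lit 3) (.p (nat_lit 42) (nat_lit 3) (.n (nat_lit 43) (nat_lit 3) (.p (nat_lit 45) (nat_lit 3) .z)))) (.ct dF3_c4354 (nat_lit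 3) (nat_lit 1) (.s true (nat_lit 1) (nat_lit 3) (nat_lit 0) (nat_lit 3) (nat_lit 1) true (nat_lit 1) true (nat_lit 3) true (nat_lit 2) true (nat_lit 4) true (nat_lit 2) (.e true (nat_lit 3) (nat_lit 23) (nat_lit 1) (nat_lit 3) (.e true (nat_lit 3) (nat_lit 15) (nat_lit 3) (nat_lit 2) (.e false (nat_lit 3) (nat_lit 25) (nat_lit 0) (nat_lit 4) (.e false (nat_lit 3) (nat_lit 16) (nat_lit 3) (nat_lit 2) .nil)))))) (.nd (.nd .leaf (nat_lit 10245) (nat_lit 58) (.n (nat_lit 47) (nat_lit 3) (.p (nat_lit 48) (nat_lit 3) (.n (nat_lit 49) (nat_lit 3) (.p (nat_lit 51) (nat_lit 3) .z)))) (.ct dF3_c4114 (nat_lit 3) (nat_lit 1) (.s true (nat_lit 1) (nat_lit 3) (nat_lit 0) (nat_lit 3) (nat_lit 2) true (nat_lit 1) true (nat_lit 3) true (nat_lit 2) true (nat_lit 4) true (nat_lit 2) (.e true (nat_lit 3) (nat_lit 23) (nat_lit 2) (nat_lit 3) (.e true (nat_lit 3) (nat_lit 18) (nat_lit 3) (nat_lit 2)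 (.e false (nat_lit 3) (nat_lit 27) (nat_lit 0) (nat_lit 4) (.e false (nat_lit 3) (nat_lit 19) (nat_lit 3) (nat_lit 2) .nil)))))) .leaf) (nat_lit 10246) (nat_lit 67) (.n (nat_lit 53) (nat_lit 3) (.p (nat_lit 54) (nat_lit 3) (.n (nat_lit 55) (nat_lit 3) (.p (nat_lit 57) (nat_lit 3) .z)))) (.ct dF3_c274 (nat_lit 3) (nat_lit 1) (.s true (nat_lit 1) (nat_lit 3) (nat_lit 1) (nat_lit 3) (nat_lit 2) true (nat_lit 1) true (nat_lit 3) true (nat_lit 2) true (nat_lit 4) true (nat_lit 2) (.e true (nat_lit 3) (nat_lit 25) (nat_lit 2) (nat_lit 3) (.e true (nat_lit 3) (nat_lit 21) (nat_lit 3) (nat_lit 2) (.e false (nat_lit 3) (nat_lit 27) (nat_lit 1) (nat_lit 4) (.e false (nat_lit 3) (nat_lit 22) (nat_lit 3) (nat_lit 2) .nil)))))) .leaf))) (nat_lit 10247) (nat_lit 71) (.n (nat_lit 59) (nat_lit 3) (.n (nat_lit 60) (nat_lit 3) .z)) (.ct dF3_c4099 (nat_lit 3) (nat_lit 0) (.s true (nat_lit 1) (nat_lit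 3) (nat_lit 0) (nat_lit 3) (nat_lit 3) true (nat_lit 0) true (nat_lit 1) true (nat_lit 1) true (nat_lit 2) true (nat_lit 1) (.e true (nat_lit 3) (nat_lit 29) (nat_lit 0) (nat_lit 2) (.e true (nat_lit 3) (nat_lit 24) (nat_lit 3) (nat_lit 1) .nil)))) (.nd (.nd (.nd (.nd .leaf (nat_lit 10248) (nat_lit 75) (.n (nat_lit 62) (nat_lit 3) (.n (nat_lit 63) (nat_lit 3) .z)) (.ct dF3_c259 (nat_lit 3) (nat_lit 0) (.s true (nat_lit 1) (nat_lit 3) (nat_lit 1) (nat_lit 3) (nat_lit 3) true (nat_lit 0) true (nat_lit 1) true (nat_lit 1) true (nat_lit 2) true (nat_lit 1) (.e true (nat_lit 3) (nat_lit 29) (nat_lit 1) (nat_lit 2) (.e true (nat_lit 3) (nat_lit 26) (nat_lit 3) (nat_lit 1) .nil)))) .leaf) (nat_lit 10249) (nat_lit 79) (.n (nat_lit 65) (nat_lit 3) (.n (nat_lit 66) (nat_lit 3) .z)) (.ct dF3_c19 (nat_lit 3) (nat_lit 0) (.s true (nat_lit 1) (nat_lit 3) (nat_lit 2) (nat_lit 3) (nat_lit 3) true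 (nat_lit 0) true (nat_lit 1) true (nat_lit 1) true (nat_lit 2) true (nat_lit 1) (.e true (nat_lit 3) (nat_lit 29) (nat_lit 2) (nat_lit 2) (.e true (nat_lit 3) (nat_lit 28) (nat_lit 3) (nat_lit 1) .nil)))) .leaf) (nat_lit 11267) (nat_lit 26) (.p (nat_lit 30) (nat_lit 3) .z) .df (.nd (.nd .leaf (nat_lit 11274) (nat_lit 122) (.p (nat_lit 67) (nat_lit 4) (.p (nat_lit 68) (nat_lit 4) (.n (nat_lit 69) (nat_lit 1) (.p (nat_lit 70) (nat_lit 4) (.n (nat_lit 71) (nat_lit 2) (.p (nat_lit 72) (nat_lit 4) (.n (nat_lit 74) (nat_lit 2) (.n (nat_lit 76) (nat_lit 2) (.p (nat_lit 77) (nat_lit 3) (.n (nat_lit 78) (nat_lit 2) (.p (nat_lit 79) (nat_lit 2) (.n (nat_lit 80) (nat_lit 3) (.p (nat_lit 82) (nat_lit 3) (.n (nat_lit 83) (nat_lit 1) (.n (nat_lit 85) (nat_lit 1) (.p (nat_lit 86) (nat_lit 1) (.p (nat_lit 87) (nat_lit 1) (.p (nat_lit 88) (nat_lit 1) (.n (nat_lit 90) (nat_lit 1) (.n (nat_lit 91)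 (nat_lit 1) .z)))))))))))))))))))) (.ct dF3_c4370 (nat_lit 3) (nat_lit 0) (.s false (nat_lit 1) (nat_lit 4) (nat_lit 3) (nat_lit 2) (nat_lit 3) true (nat_lit 0) true (nat_lit 7) true (nat_lit 6) true (nat_lit 7) true (nat_lit 8) (.e false (nat_lit 3) (nat_lit 33) (nat_lit 3) (nat_lit 7) (.e false (nat_lit 3) (nat_lit 27) (nat_lit 4) (nat_lit 6) (.e false (nat_lit 3) (nat_lit 31) (nat_lit 3) (nat_lit 7) (.e false (nat_lit 3) (nat_lit 35) (nat_lit 3) (nat_lit 7) (.e true (nat_lit 3) (nat_lit 37) (nat_lit 3) (nat_lit 7) (.e true (nat_lit 3) (nat_lit 39) (nat_lit 3) (nat_lit 7) (.e false (nat_lit 3) (nat_lit 40) (nat_lit 2) (nat_lit 8) .nil))))))))) .leaf) (nat_lit 12291) (nat_lit 27) (.p (nat_lit 31) (nat_lit 3) .z) .df .leaf)) (nat_lit 12298) (nat_lit 123) (.p (nat_lit 67) (nat_lit 2) (.p (nat_lit 68) (nat_lit 2) (.p (nat_lit 69) (nat_lit 1) (.n (nat_lit 70) (nat_lit 1) (.n (nat_lit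 71) (nat_lit 1) (.n (nat_lit 72) (nat_lit 1) (.p (nat_lit 73) (nat_lit 3) (.n (nat_lit 74) (nat_lit 1) (.p (nat_lit 75) (nat_lit 3) (.p (nat_lit 76) (nat_lit 2) (.p (nat_lit 78) (nat_lit 2) (.n (nat_lit 79) (nat_lit 2) (.p (nat_lit 83) (nat_lit 4) (.n (nat_lit 85) (nat_lit 2) (.n (nat_lit 86) (nat_lit 1) (.p (nat_lit 87) (nat_lit 2) (.n (nat_lit 88) (nat_lit 1) (.p (nat_lit 90) (nat_lit 1) (.p (nat_lit 91) (nat_lit 1) .z))))))))))))))))))) (.ct dF3_c4370 (nat_lit 3) (nat_lit 0) (.s false (nat_lit 1) (nat_lit 5) (nat_lit 3) (nat_lit 1) (nat_lit 3) true (nat_lit 0) true (nat_lit 7) true (nat_lit 5) true (nat_lit 7) true (nat_lit 9) (.e false (nat_lit 3) (nat_lit 36) (nat_lit 3) (nat_lit 7) (.e false (nat_lit 3) (nat_lit 25) (nat_lit 5) (nat_lit 5) (.e false (nat_lit 3) (nat_lit 30) (nat_lit 3) (nat_lit 7) (.e true (nat_lit 3) (nat_lit 34) (nat_lit 3) (nat_lit 7) (.e false (nat_lit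 3) (nat_lit 38) (nat_lit 3) (nat_lit 7) (.e false (nat_lit 3) (nat_lit 39) (nat_lit 3) (nat_lit 7) (.e false (nat_lit 3) (nat_lit 46) (nat_lit 1) (nat_lit 9) .nil))))))))) (.nd (.nd (.nd .leaf (nat_lit 13315) (nat_lit 28) (.p (nat_lit 32) (nat_lit 3) .z) .df .leaf) (nat_lit 13322) (nat_lit 120) (.n (nat_lit 69) (nat_lit 3) (.n (nat_lit 70) (nat_lit 3) (.n (nat_lit 71) (nat_lit 3) (.n (nat_lit 72) (nat_lit 3) (.p (nat_lit 73) (nat_lit 3) (.p (nat_lit 74) (nat_lit 3) (.p (nat_lit 75) (nat_lit 3) (.p (nat_lit 76) (nat_lit 6) (.p (nat_lit 88) (nat_lit 3) (.p (nat_lit 91) (nat_lit 3) .z)))))))))) (.ct dF3_c4370 (nat_lit 3) (nat_lit 0) (.s false (nat_lit 1) (nat_lit 6) (nat_lit 3) (nat_lit 0) (nat_lit 3) true (nat_lit 0) true (nat_lit 7) true (nat_lit 4) true (nat_lit 7) true (nat_lit 10) (.e false (nat_lit 6) (nat_lit 39) (nat_lit 3) (nat_lit 7) (.e false (nat_lit 3) (nat_lit 23) (nat_lit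 6) (nat_lit 4) (.e true (nat_lit 3) (nat_lit 32) (nat_lit 3) (nat_lit 7) (.e true (nat_lit 3) (nat_lit 33) (nat_lit 3) (nat_lit 7) (.e true (nat_lit 3) (nat_lit 34) (nat_lit 3) (nat_lit 7) (.e true (nat_lit 3) (nat_lit 35) (nat_lit 3) (nat_lit 7) (.e false (nat_lit 3) (nat_lit 36) (nat_lit 3) (nat_lit 7) (.e false (nat_lit 3) (nat_lit 37) (nat_lit 3) (nat_lit 7) (.e false (nat_lit 3) (nat_lit 38) (nat_lit 3) (nat_lit 7) (.e false (nat_lit 3) (nat_lit 52) (nat_lit 0) (nat_lit 10) .nil)))))))))))) .leaf) (nat_lit 14338) (nat_lit 29) (.p (nat_lit 33) (nat_lit 3) .z) .df (.nd .leaf (nat_lit 14339) (nat_lit 41) (.p (nat_lit 40) (nat_lit 3) .z) .df .leaf))))) (nat_lit 14345) (nat_lit 112) (.p (nat_lit 67) (nat_lit 1) (.p (nat_lit 68) (nat_lit 1) (.n (nat_lit 69) (nat_lit 1) (.n (nat_lit 70) (nat_lit 2) (.n (nat_lit 71) (nat_lit 2) (.p (nat_lit 72) (nat_lit 1) (.p (nat_lit 74) (nat_lit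 1) (.p (nat_lit 76) (nat_lit 1) (.p (nat_lit 78) (nat_lit 1) (.n (nat_lit 79) (nat_lit 1) (.n (nat_lit 83) (nat_lit 1) (.n (nat_lit 85) (nat_lit 1) (.p (nat_lit 86) (nat_lit 1) (.p (nat_lit 87) (nat_lit 1) (.p (nat_lit 88) (nat_lit 1) (.n (nat_lit 90) (nat_lit 1) (.n (nat_lit 91) (nat_lit 1) .z))))))))))))))))) (.ct dF3_c4370 (nat_lit 3) (nat_lit 1) (.s true (nat_lit 1) (nat_lit 4) (nat_lit 2) (nat_lit 3) (nat_lit 3) true (nat_lit 1) true (nat_lit 7) true (nat_lit 6) true (nat_lit 8) true (nat_lit 7) (.e true (nat_lit 3) (nat_lit 30) (nat_lit 3) (nat_lit 7) (.e false (nat_lit 3) (nat_lit 27) (nat_lit 4) (nat_lit 6) (.e false (nat_lit 3) (nat_lit 41) (nat_lit 2) (nat_lit 8) (.e true (nat_lit 3) (nat_lit 42) (nat_lit 2) (nat_lit 8) (.e false (nat_lit 3) (nat_lit 43) (nat_lit 2) (nat_lit 8) (.e true (nat_lit 3) (nat_lit 45) (nat_lit 2) (nat_lit 8) (.e true (nat_lit 3) (nat_lit 33)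 (nat_lit 3) (nat_lit 7) .nil))))))))) (.nd (.nd (.nd (.nd (.nd (.nd .leaf (nat_lit 14346) (nat_lit 135) (.p (nat_lit 101) (nat_lit 3) .z) .df .leaf) (nat_lit 15362) (nat_lit 30) (.p (nat_lit 34) (nat_lit 3) .z) .df .leaf) (nat_lit 15363) (nat_lit 42) (.p (nat_lit 41) (nat_lit 3) .z) .df (.nd (.nd .leaf (nat_lit 15369) (nat_lit 114) (.n (nat_lit 69) (nat_lit 3) (.n (nat_lit 70) (nat_lit 3) (.n (nat_lit 71) (nat_lit 3) (.n (nat_lit 72) (nat_lit 3) (.p (nat_lit 73) (nat_lit 3) (.p (nat_lit 75) (nat_lit 3) (.p (nat_lit 76) (nat_lit 3) (.p (nat_lit 78) (nat_lit 3) (.p (nat_lit 80) (nat_lit 3) (.p (nat_lit 83) (nat_lit 3) (.n (nat_lit 86) (nat_lit 3) (.p (nat_lit 87) (nat_lit 3) (.p (nat_lit 91) (nat_lit 3) .z))))))))))))) (.ct dF3_c4370 (nat_lit 3) (nat_lit 1) (.s true (nat_lit 1) (nat_lit 7) (nat_lit 2) (nat_lit 1) (nat_lit 3) true (nat_lit 1) true (nat_lit 7) true (nat_lit 3) true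 (nat_lit 8) true (nat_lit 9) (.e true (nat_lit 3) (nat_lit 37) (nat_lit 3) (nat_lit 7) (.e false (nat_lit 3) (nat_lit 20) (nat_lit 7) (nat_lit 3) (.e false (nat_lit 3) (nat_lit 40) (nat_lit 2) (nat_lit 8) (.e false (nat_lit 3) (nat_lit 41) (nat_lit 2) (nat_lit 8) (.e true (nat_lit 3) (nat_lit 44) (nat_lit 2) (nat_lit 8) (.e false (nat_lit 3) (nat_lit 45) (nat_lit 2) (nat_lit 8) (.e false (nat_lit 3) (nat_lit 49) (nat_lit 1) (nat_lit 9) .nil))))))))) .leaf) (nat_lit 15370) (nat_lit 137) (.p (nat_lit 92) (nat_lit 6) (.p (nat_lit 93) (nat_lit 9) (.n (nat_lit 94) (nat_lit 3) (.p (nat_lit 95) (nat_lit 3) (.n (nat_lit 96) (nat_lit 3) (.p (nat_lit 97) (nat_lit 3) (.n (nat_lit 99) (nat_lit 3) (.n (nat_lit 101) (nat_lit 3) .z)))))))) (.ct dF3_c4355 (nat_lit 3) (nat_lit 0) (.s false (nat_lit 1) (nat_lit 7) (nat_lit 3) (nat_lit 1) (nat_lit 3) true (nat_lit 0) true (nat_lit 4) true (nat_lit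 2) true (nat_lit 4) true (nat_lit 5) (.s true (nat_lit 1) (nat_lit 7) (nat_lit 3) (nat_lit 3) (nat_lit 1) true (nat_lit 1) true (nat_lit 5) true (nat_lit 2) true (nat_lit 4) true (nat_lit 4) (.s true (nat_lit 1) (nat_lit 8) (nat_lit 0) (nat_lit 3) (nat_lit 3) true (nat_lit 2) true (nat_lit 4) true (nat_lit 1) true (nat_lit 6) true (nat_lit 4) (.s false (nat_lit 1) (nat_lit 10) (nat_lit 0) (nat_lit 1) (nat_lit 3) true (nat_lit 2) true (nat_lit 4) true (nat_lit 0) true (nat_lit 6) true (nat_lit 5) (.e false (nat_lit 3) (nat_lit 43) (nat_lit 3) (nat_lit 4) (.e false (nat_lit 6) (nat_lit 40) (nat_lit 3) (nat_lit 4) (.e false (nat_lit 9) (nat_lit 41) (nat_lit 3) (nat_lit 4) (.e true (nat_lit 3) (nat_lit 44) (nat_lit 3) (nat_lit 4) (.e false (nat_lit 3) (nat_lit 45) (nat_lit 3) (nat_lit 4) (.e true (nat_lit 3) (nat_lit 42) (nat_lit 3) (nat_lit 4) (.e true (nat_lit 3) (nat_lit 14) (nat_lit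 10) (nat_lit 0) (.e true (nat_lit 3) (nat_lit 60) (nat_lit 1) (nat_lit 5) .nil))))))))))))) .leaf)) (nat_lit 16386) (nat_lit 31) (.p (nat_lit 35) (nat_lit 3) .z) .df (.nd (.nd (.nd .leaf (nat_lit 16387) (nat_lit 43) (.p (nat_lit 42) (nat_lit 3) .z) .df .leaf) (nat_lit 16393) (nat_lit 115) (.p (nat_lit 67) (nat_lit 3) (.n (nat_lit 69) (nat_lit 3) (.n (nat_lit 70) (nat_lit 3) (.n (nat_lit 71) (nat_lit 3) (.n (nat_lit 72) (nat_lit 3) (.p (nat_lit 73) (nat_lit 3) (.p (nat_lit 74) (nat_lit 3) (.p (nat_lit 75) (nat_lit 6) (.p (nat_lit 76) (nat_lit 6) (.n (nat_lit 77) (nat_lit 3) (.p (nat_lit 81) (nat_lit 3) (.n (nat_lit 84) (nat_lit 3) (.n (nat_lit 85) (nat_lit 3) (.n (nat_lit 89) (nat_lit 3) (.p (nat_lit 91) (nat_lit 3) .z))))))))))))))) (.ct dF3_c4370 (nat_lit 3) (nat_lit 1) (.s true (nat_lit 1) (nat_lit 9) (nat_lit 1) (nat_lit 3) (nat_lit 0) true (nat_lit 6) true (nat_lit 10) true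 (nat_lit 1) true (nat_lit 9) true (nat_lit 7) (.e false (nat_lit 3) (nat_lit 27) (nat_lit 4) (nat_lit 6) (.e true (nat_lit 3) (nat_lit 54) (nat_lit 0) (nat_lit 10) (.e true (nat_lit 3) (nat_lit 46) (nat_lit 1) (nat_lit 9) (.e true (nat_lit 3) (nat_lit 47) (nat_lit 1) (nat_lit 9) (.e false (nat_lit 3) (nat_lit 50) (nat_lit 1) (nat_lit 9) (.e true (nat_lit 3) (nat_lit 51) (nat_lit 1) (nat_lit 9) (.e false (nat_lit 3) (nat_lit 38) (nat_lit 3) (nat_lit 7) .nil))))))))) .leaf) (nat_lit 16394) (nat_lit 139) (.n (nat_lit 93) (nat_lit 3) (.p (nat_lit 94) (nat_lit 3) (.n (nat_lit 95) (nat_lit 3) (.n (nat_lit 96) (nat_lit 3) (.p (nat_lit 97) (nat_lit 3) (.p (nat_lit 98) (nat_lit 3) (.p (nat_lit 99) (nat_lit 3) (.p (nat_lit 100) (nat_lit 3) (.p (nat_lit 101) (nat_lit 3) .z))))))))) (.ct dF3_c4355 (nat_lit 3) (nat_lit 0) (.s true (nat_lit 1) (nat_lit 7) (nat_lit 1) (nat_lit 3) (nat_lit 3) true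 (nat_lit 1) true (nat_lit 4) true (nat_lit 2) true (nat_lit 5) true (nat_lit 4) (.s false (nat_lit 1) (nat_lit 8) (nat_lit 3) (nat_lit 0) (nat_lit 3) true (nat_lit 0) true (nat_lit 4) true (nat_lit 1) true (nat_lit 4) true (nat_lit 6) (.s true (nat_lit 1) (nat_lit 8) (nat_lit 3) (nat_lit 3) (nat_lit 0) true (nat_lit 2) true (nat_lit 6) true (nat_lit 1) true (nat_lit 4) true (nat_lit 4) (.s true (nat_lit 1) (nat_lit 10) (nat_lit 3) (nat_lit 0) (nat_lit 1) true (nat_lit 1) true (nat_lit 5) true (nat_lit 0) true (nat_lit 4) true (nat_lit 6) (.e false (nat_lit 6) (nat_lit 41) (nat_lit 3) (nat_lit 4) (.e false (nat_lit 3) (nat_lit 59) (nat_lit 1) (nat_lit 5) (.e false (nat_lit 6) (nat_lit 45) (nat_lit 3) (nat_lit 4) (.e false (nat_lit 6) (nat_lit 40) (nat_lit 3) (nat_lit 4) (.e true (nat_lit 6) (nat_lit 44) (nat_lit 3) (nat_lit 4) (.e true (nat_lit 3) (nat_lit 15) (nat_lit 10) (nat_lit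 0) (.e false (nat_lit 3) (nat_lit 62) (nat_lit 0) (nat_lit 6) .nil)))))))))))) (.nd (.nd .leaf (nat_lit 17409) (nat_lit 32) (.p (nat_lit 36) (nat_lit 3) .z) .df .leaf) (nat_lit 17411) (nat_lit 50) (.p (nat_lit 46) (nat_lit 3) .z) .df .leaf))) (nat_lit 17416) (nat_lit 113) (.p (nat_lit 67) (nat_lit 1) (.p (nat_lit 68) (nat_lit 1) (.n (nat_lit 69) (nat_lit 1) (.n (nat_lit 70) (nat_lit 2) (.p (nat_lit 71) (nat_lit 1) (.n (nat_lit 72) (nat_lit 2) (.n (nat_lit 74) (nat_lit 2) (.p (nat_lit 75) (nat_lit 3) (.p (nat_lit 76) (nat_lit 1) (.n (nat_lit 77) (nat_lit 3) (.p (nat_lit 78) (nat_lit 1) (.n (nat_lit 79) (nat_lit 1) (.p (nat_lit 81) (nat_lit 3) (.p (nat_lit 83) (nat_lit 2) (.n (nat_lit 85) (nat_lit 1) (.n (nat_lit 86) (nat_lit 2) (.p (nat_lit 87) (nat_lit 1) (.p (nat_lit 88) (nat_lit 1) (.n (nat_lit 90) (nat_lit 1) (.p (nat_lit 91) (nat_lit 5) .z)))))))))))))))))))) (.ct dF3_c4370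 (nat_lit 3) (nat_lit 2) (.s true (nat_lit 1) (nat_lit 5) (nat_lit 1) (nat_lit 3) (nat_lit 3) true (nat_lit 2) true (nat_lit 7) true (nat_lit 5) true (nat_lit 9) true (nat_lit 7) (.e true (nat_lit 3) (nat_lit 31) (nat_lit 3) (nat_lit 7) (.e false (nat_lit 3) (nat_lit 25) (nat_lit 5) (nat_lit 5) (.e false (nat_lit 3) (nat_lit 47) (nat_lit 1) (nat_lit 9) (.e true (nat_lit 3) (nat_lit 48) (nat_lit 1) (nat_lit 9) (.e false (nat_lit 3) (nat_lit 49) (nat_lit 1) (nat_lit 9) (.e true (nat_lit 3) (nat_lit 51) (nat_lit 1) (nat_lit 9) (.e true (nat_lit 3) (nat_lit 36) (nat_lit 3) (nat_lit 7) .nil))))))))) (.nd (.nd (.nd (.nd .leaf (nat_lit 17418) (nat_lit 155) (.p (nat_lit 112) (nat_lit 3) .z) .df .leaf) (nat_lit 18433) (nat_lit 33) (.p (nat_lit 37) (nat_lit 3) .z) .df .leaf) (nat_lit 18435) (nat_lit 51) (.p (nat_lit 47) (nat_lit 3) .z) .df (.nd (.nd .leaf (nat_lit 18440) (nat_lit 116) (.p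 (nat_lit 69) (nat_lit 3) (.p (nat_lit 70) (nat_lit 3) (.p (nat_lit 72) (nat_lit 3) (.n (nat_lit 73) (nat_lit 3) (.n (nat_lit 74) (nat_lit 3) (.n (nat_lit 75) (nat_lit 3) (.n (nat_lit 76) (nat_lit 3) (.p (nat_lit 77) (nat_lit 3) (.n (nat_lit 81) (nat_lit 3) (.p (nat_lit 82) (nat_lit 3) (.p (nat_lit 84) (nat_lit 3) (.p (nat_lit 85) (nat_lit 3) (.n (nat_lit 91) (nat_lit 3) .z))))))))))))) (.ct dF3_c4370 (nat_lit 3) (nat_lit 2) (.s true (nat_lit 1) (nat_lit 7) (nat_lit 1) (nat_lit 2) (nat_lit 3) true (nat_lit 2) true (nat_lit 7) true (nat_lit 3) true (nat_lit 9) true (nat_lit 8) (.e true (nat_lit 3) (nat_lit 34) (nat_lit 3) (nat_lit 7) (.e true (nat_lit 3) (nat_lit 20) (nat_lit 7) (nat_lit 3) (.e false (nat_lit 3) (nat_lit 46) (nat_lit 1) (nat_lit 9) (.e false (nat_lit 3) (nat_lit 47) (nat_lit 1) (nat_lit 9) (.e true (nat_lit 3) (nat_lit 50) (nat_lit 1) (nat_lit 9) (.e false (nat_lit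 3) (nat_lit 51) (nat_lit 1) (nat_lit 9) (.e false (nat_lit 3) (nat_lit 43) (nat_lit 2) (nat_lit 8) .nil))))))))) .leaf) (nat_lit 18442) (nat_lit 157) (.p (nat_lit 103) (nat_lit 6) (.p (nat_lit 104) (nat_lit 9) (.n (nat_lit 105) (nat_lit 3) (.p (nat_lit 106) (nat_lit 3) (.n (nat_lit 107) (nat_lit 3) (.p (nat_lit 108) (nat_lit 3) (.n (nat_lit 110) (nat_lit 3) (.n (nat_lit 112) (nat_lit 3) .z)))))))) (.ct dF3_c4115 (nat_lit 3) (nat_lit 0) (.s false (nat_lit 1) (nat_lit 7) (nat_lit 3) (nat_lit 2) (nat_lit 3) true (nat_lit 0) true (nat_lit 4) true (nat_lit 2) true (nat_lit 4) true (nat_lit 5) (.s true (nat_lit 1) (nat_lit 7) (nat_lit 3) (nat_lit 3) (nat_lit 2) true (nat_lit 1) true (nat_lit 5) true (nat_lit 2) true (nat_lit 4) true (nat_lit 4) (.s true (nat_lit 1) (nat_lit 9) (nat_lit 0) (nat_lit 3) (nat_lit 3) true (nat_lit 2) true (nat_lit 4) true (nat_lit 1) true (nat_lit 6) true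 (nat_lit 4) (.s false (nat_lit 1) (nat_lit 10) (nat_lit 0) (nat_lit 2) (nat_lit 3) true (nat_lit 2) true (nat_lit 4) true (nat_lit 0) true (nat_lit 6) true (nat_lit 5) (.e false (nat_lit 3) (nat_lit 49) (nat_lit 3) (nat_lit 4) (.e false (nat_lit 6) (nat_lit 46) (nat_lit 3) (nat_lit 4) (.e false (nat_lit 9) (nat_lit 47) (nat_lit 3) (nat_lit 4) (.e true (nat_lit 3) (nat_lit 50) (nat_lit 3) (nat_lit 4) (.e false (nat_lit 3) (nat_lit 51) (nat_lit 3) (nat_lit 4) (.e true (nat_lit 3) (nat_lit 48) (nat_lit 3) (nat_lit 4) (.e true (nat_lit 3) (nat_lit 17) (nat_lit 10) (nat_lit 0) (.e true (nat_lit 3) (nat_lit 60) (nat_lit 2) (nat_lit 5) .nil))))))))))))) .leaf)) (nat_lit 19457) (nat_lit 34) (.p (nat_lit 38) (nat_lit 3) .z) .df (.nd (.nd (.nd .leaf (nat_lit 19459) (nat_lit 52) (.p (nat_lit 48) (nat_lit 3) .z) .df .leaf) (nat_lit 19464) (nat_lit 117) (.n (nat_lit 67) (nat_lit 1) (.p (nat_lit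 68) (nat_lit 2) (.p (nat_lit 69) (nat_lit 1) (.n (nat_lit 70) (nat_lit 1) (.p (nat_lit 71) (nat_lit 2) (.p (nat_lit 72) (nat_lit 2) (.n (nat_lit 74) (nat_lit 1) (.n (nat_lit 76) (nat_lit 1) (.n (nat_lit 77) (nat_lit 3) (.n (nat_lit 78) (nat_lit 1) (.n (nat_lit 79) (nat_lit 2) (.p (nat_lit 81) (nat_lit 3) (.n (nat_lit 82) (nat_lit 3) (.p (nat_lit 83) (nat_lit 1) (.n (nat_lit 85) (nat_lit 2) (.n (nat_lit 86) (nat_lit 1) (.p (nat_lit 87) (nat_lit 2) (.n (nat_lit 88) (nat_lit 1) (.n (nat_lit 89) (nat_lit 3) (.p (nat_lit 90) (nat_lit 1) (.p (nat_lit 91) (nat_lit 1) .z))))))))))))))))))))) (.ct dF3_c4370 (nat_lit 3) (nat_lit 2) (.s true (nat_lit 1) (nat_lit 8) (nat_lit 2) (nat_lit 3) (nat_lit 0) true (nat_lit 5) true (nat_lit 10) true (nat_lit 2) true (nat_lit 8) true (nat_lit 7) (.e false (nat_lit 3) (nat_lit 25) (nat_lit 5) (nat_lit 5) (.e true (nat_lit 3) (nat_lit 53) (nat_lit 0) (nat_lit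 10) (.e true (nat_lit 3) (nat_lit 40) (nat_lit 2) (nat_lit 8) (.e true (nat_lit 3) (nat_lit 41) (nat_lit 2) (nat_lit 8) (.e false (nat_lit 3) (nat_lit 44) (nat_lit 2) (nat_lit 8) (.e true (nat_lit 3) (nat_lit 45) (nat_lit 2) (nat_lit 8) (.e false (nat_lit 3) (nat_lit 35) (nat_lit 3) (nat_lit 7) .nil))))))))) .leaf) (nat_lit 19466) (nat_lit 159) (.n (nat_lit 104) (nat_lit 3) (.p (nat_lit 105) (nat_lit 3) (.n (nat_lit 106) (nat_lit 3) (.n (nat_lit 107) (nat_lit 3) (.p (nat_lit 108) (nat_lit 3) (.p (nat_lit 109) (nat_lit 3) (.p (nat_lit 110) (nat_lit 3) (.p (nat_lit 111) (nat_lit 3) (.p (nat_lit 112) (nat_lit 3) .z))))))))) (.ct dF3_c4115 (nat_lit 3) (nat_lit 0) (.s true (nat_lit 1) (nat_lit 7) (nat_lit 2) (nat_lit 3) (nat_lit 3) true (nat_lit 1) true (nat_lit 4) true (nat_lit 2) true (nat_lit 5) true (nat_lit 4) (.s false (nat_lit 1) (nat_lit 9) (nat_lit 3) (nat_lit 0) (nat_lit 3)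 true (nat_lit 0) true (nat_lit 4) true (nat_lit 1) true (nat_lit 4) true (nat_lit 6) (.s true (nat_lit 1) (nat_lit 9) (nat_lit 3) (nat_lit 3) (nat_lit 0) true (nat_lit 2) true (nat_lit 6) true (nat_lit 1) true (nat_lit 4) true (nat_lit 4) (.s true (nat_lit 1) (nat_lit 10) (nat_lit 3) (nat_lit 0) (nat_lit 2) true (nat_lit 1) true (nat_lit 5) true (nat_lit 0) true (nat_lit 4) true (nat_lit 6) (.e false (nat_lit 6) (nat_lit 47) (nat_lit 3) (nat_lit 4) (.e false (nat_lit 3) (nat_lit 59) (nat_lit 2) (nat_lit 5) (.e false (nat_lit 6) (nat_lit 51) (nat_lit 3) (nat_lit 4) (.e false (nat_lit 6) (nat_lit 46) (nat_lit 3) (nat_lit 4) (.e true (nat_lit 6) (nat_lit 50) (nat_lit 3) (nat_lit 4) (.e true (nat_lit 3) (nat_lit 18) (nat_lit 10) (nat_lit 0) (.e false (nat_lit 3) (nat_lit 65) (nat_lit 0) (nat_lit 6) .nil)))))))))))) (.nd (.nd .leaf (nat_lit 20480) (nat_lit 35) (.p (nat_lit 39) (nat_lit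 3) .z) .df .leaf) (nat_lit 20483) (nat_lit 59) (.p (nat_lit 52) (nat_lit 3) .z) .df .leaf)))) (nat_lit 20487) (nat_lit 106) (.n (nat_lit 69) (nat_lit 3) (.n (nat_lit 70) (nat_lit 3) (.n (nat_lit 71) (nat_lit 3) (.n (nat_lit 72) (nat_lit 3) (.p (nat_lit 73) (nat_lit 3) (.p (nat_lit 74) (nat_lit 3) (.p (nat_lit 75) (nat_lit 3) (.p (nat_lit 76) (nat_lit 3) (.n (nat_lit 77) (nat_lit 3) (.p (nat_lit 80) (nat_lit 3) (.p (nat_lit 81) (nat_lit 3) (.n (nat_lit 82) (nat_lit 3) (.p (nat_lit 83) (nat_lit 3) (.n (nat_lit 85) (nat_lit 3) (.n (nat_lit 86) (nat_lit 3) (.p (nat_lit 87) (nat_lit 3) (.p (nat_lit 91) (nat_lit 3) .z))))))))))))))))) (.ct dF3_c4370 (nat_lit 3) (nat_lit 3) (.s false (nat_lit 1) (nat_lit 7) (nat_lit 1) (nat_lit 3) (nat_lit 2) true (nat_lit 4) true (nat_lit 8) true (nat_lit 3) true (nat_lit 9) true (nat_lit 7) (.s false (nat_lit 1) (nat_lit 7) (nat_lit 2) (nat_lit 1) (nat_lit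 3) true (nat_lit 1) true (nat_lit 7) true (nat_lit 3) true (nat_lit 8) true (nat_lit 9) (.s false (nat_lit 1) (nat_lit 7) (nat_lit 3) (nat_lit 1) (nat_lit 2) true (nat_lit 1) true (nat_lit 8) true (nat_lit 3) true (nat_lit 7) true (nat_lit 9) (.e false (nat_lit 3) (nat_lit 23) (nat_lit 6) (nat_lit 4) (.e false (nat_lit 3) (nat_lit 46) (nat_lit 1) (nat_lit 9) (.e true (nat_lit 3) (nat_lit 50) (nat_lit 1) (nat_lit 9) (.e false (nat_lit 3) (nat_lit 51) (nat_lit 1) (nat_lit 9) (.e false (nat_lit 3) (nat_lit 37) (nat_lit 3) (nat_lit 7) (.e true (nat_lit 3) (nat_lit 40) (nat_lit 2) (nat_lit 8) (.e false (nat_lit 3) (nat_lit 44) (nat_lit 2) (nat_lit 8) (.e true (nat_lit 3) (nat_lit 45) (nat_lit 2) (nat_lit 8) (.e true (nat_lit 3) (nat_lit 49) (nat_lit 1) (nat_lit 9) (.e false (nat_lit 3) (nat_lit 43) (nat_lit 2) (nat_lit 8) (.e true (nat_lit 3) (nat_lit 32) (nat_lit 3) (nat_lit 7) (.e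 true (nat_lit 3) (nat_lit 33) (nat_lit 3) (nat_lit 7) (.e true (nat_lit 3) (nat_lit 34) (nat_lit 3) (nat_lit 7) (.e true (nat_lit 3) (nat_lit 35) (nat_lit 3) (nat_lit 7) (.e false (nat_lit 3) (nat_lit 36) (nat_lit 3) (nat_lit 7) (.e false (nat_lit 3) (nat_lit 38) (nat_lit 3) (nat_lit 7) (.e false (nat_lit 3) (nat_lit 39) (nat_lit 3) (nat_lit 7) .nil))))))))))))))))))))) (.nd (.nd (.nd (.nd (.nd .leaf (nat_lit 20490) (nat_lit 175) (.p (nat_lit 123) (nat_lit 3) .z) .df .leaf) (nat_lit 21504) (nat_lit 36) (.p (nat_lit 31) (nat_lit 3) (.p (nat_lit 32) (nat_lit 3) (.p (nat_lit 34) (nat_lit 3) (.p (nat_lit 35) (nat_lit 3) (.n (nat_lit 36) (nat_lit 3) (.n (nat_lit 37) (nat_lit 3) (.n (nat_lit 39) (nat_lit 3) .z))))))) (.ct dF3_c4369 (nat_lit 3) (nat_lit 6) (.s true (nat_lit 1) (nat_lit 3) (nat_lit 0) (nat_lit 2) (nat_lit 1) true (nat_lit 2) true (nat_lit 5) true (nat_lit 3) true (nat_lit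 6) true (nat_lit 4) (.s true (nat_lit 1) (nat_lit 3) (nat_lit 1) (nat_lit 2) (nat_lit 0) true (nat_lit 2) true (nat_lit 6) true (nat_lit 3) true (nat_lit 5) true (nat_lit 4) (.e true (nat_lit 3) (nat_lit 18) (nat_lit 1) (nat_lit 5) (.e false (nat_lit 3) (nat_lit 12) (nat_lit 3) (nat_lit 3) (.e true (nat_lit 3) (nat_lit 20) (nat_lit 0) (nat_lit 6) (.e false (nat_lit 3) (nat_lit 16) (nat_lit 2) (nat_lit 4) (.e false (nat_lit 3) (nat_lit 13) (nat_lit 3) (nat_lit 3) (.e true (nat_lit 3) (nat_lit 17) (nat_lit 1) (nat_lit 5) (.e false (nat_lit 3) (nat_lit 15) (nat_lit 2) (nat_lit 4) .nil)))))))))) .leaf) (nat_lit 21507) (nat_lit 60) (.p (nat_lit 53) (nat_lit 3) .z) .df (.nd (.nd .leaf (nat_lit 21511) (nat_lit 118) (.p (nat_lit 74) (nat_lit 3) (.n (nat_lit 78) (nat_lit 3) (.n (nat_lit 83) (nat_lit 3) (.n (nat_lit 84) (nat_lit 3) (.p (nat_lit 86) (nat_lit 3) (.n (nat_lit 87) (nat_lit 3)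 (.n (nat_lit 91) (nat_lit 3) .z))))))) (.ct dF3_c4370 (nat_lit 3) (nat_lit 3) (.s true (nat_lit 1) (nat_lit 7) (nat_lit 1) (nat_lit 3) (nat_lit 2) true (nat_lit 4) true (nat_lit 8) true (nat_lit 3) true (nat_lit 9) true (nat_lit 7) (.e true (nat_lit 3) (nat_lit 23) (nat_lit 6) (nat_lit 4) (.e true (nat_lit 3) (nat_lit 41) (nat_lit 2) (nat_lit 8) (.e true (nat_lit 3) (nat_lit 46) (nat_lit 1) (nat_lit 9) (.e true (nat_lit 3) (nat_lit 47) (nat_lit 1) (nat_lit 9) (.e false (nat_lit 3) (nat_lit 50) (nat_lit 1) (nat_lit 9) (.e true (nat_lit 3) (nat_lit 51) (nat_lit 1) (nat_lit 9) (.e false (nat_lit 3) (nat_lit 37) (nat_lit 3) (nat_lit 7) .nil))))))))) .leaf) (nat_lit 21514) (nat_lit 177) (.p (nat_lit 114) (nat_lit 6) (.p (nat_lit 115) (nat_lit 9) (.n (nat_lit 116) (nat_lit 3) (.p (nat_lit 117) (nat_lit 3) (.n (nat_lit 118) (nat_lit 3) (.p (nat_lit 119) (nat_lit 3) (.n (nat_lit 121) (nat_lit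 3) (.n (nat_lit 123) (nat_lit 3) .z)))))))) (.ct dF3_c275 (nat_lit 3) (nat_lit 0) (.s false (nat_lit 1) (nat_lit 8) (nat_lit 3) (nat_lit 2) (nat_lit 3) true (nat_lit 0) true (nat_lit 4) true (nat_lit 2) true (nat_lit 4) true (nat_lit 5) (.s true (nat_lit 1) (nat_lit 8) (nat_lit 3) (nat_lit 3) (nat_lit 2) true (nat_lit 1) true (nat_lit 5) true (nat_lit 2) true (nat_lit 4) true (nat_lit 4) (.s true (nat_lit 1) (nat_lit 9) (nat_lit 1) (nat_lit 3) (nat_lit 3) true (nat_lit 2) true (nat_lit 4) true (nat_lit 1) true (nat_lit 6) true (nat_lit 4) (.s false (nat_lit 1) (nat_lit 10) (nat_lit 1) (nat_lit 2) (nat_lit 3) true (nat_lit 2) true (nat_lit 4) true (nat_lit 0) true (nat_lit 6) true (nat_lit 5) (.e false (nat_lit 3) (nat_lit 55) (nat_lit 3) (nat_lit 4) (.e false (nat_lit 6) (nat_lit 52) (nat_lit 3) (nat_lit 4) (.e false (nat_lit 9) (nat_lit 53) (nat_lit 3) (nat_lit 4) (.e true (nat_lit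 3) (nat_lit 56) (nat_lit 3) (nat_lit 4) (.e false (nat_lit 3) (nat_lit 57) (nat_lit 3) (nat_lit 4) (.e true (nat_lit 3) (nat_lit 54) (nat_lit 3) (nat_lit 4) (.e true (nat_lit 3) (nat_lit 20) (nat_lit 10) (nat_lit 0) (.e true (nat_lit 3) (nat_lit 63) (nat_lit 2) (nat_lit 5) .nil))))))))))))) .leaf)) (nat_lit 22528) (nat_lit 37) (.p (nat_lit 30) (nat_lit 3) (.n (nat_lit 32) (nat_lit 3) (.n (nat_lit 33) (nat_lit 3) (.n (nat_lit 34) (nat_lit 3) (.p (nat_lit 37) (nat_lit 3) (.p (nat_lit 38) (nat_lit 3) (.p (nat_lit 39) (nat_lit 3) .z))))))) (.ct dF3_c4369 (nat_lit 3) (nat_lit 6) (.s false (nat_lit 1) (nat_lit 3) (nat_lit 1) (nat_lit 0) (nat_lit 2) true (nat_lit 0) true (nat_lit 4) true (nat_lit 3) true (nat_lit 5) true (nat_lit 6) (.s false (nat_lit 1) (nat_lit 3) (nat_lit 2) (nat_lit 0) (nat_lit 1) true (nat_lit 0) true (nat_lit 5) true (nat_lit 3) true (nat_lit 4) true (nat_lit 6)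 (.e false (nat_lit 3) (nat_lit 16) (nat_lit 2) (nat_lit 4) (.e false (nat_lit 3) (nat_lit 11) (nat_lit 3) (nat_lit 3) (.e true (nat_lit 3) (nat_lit 17) (nat_lit 1) (nat_lit 5) (.e false (nat_lit 3) (nat_lit 19) (nat_lit 1) (nat_lit 5) (.e false (nat_lit 3) (nat_lit 12) (nat_lit 3) (nat_lit 3) (.e true (nat_lit 3) (nat_lit 14) (nat_lit 2) (nat_lit 4) (.e true (nat_lit 3) (nat_lit 21) (nat_lit 0) (nat_lit 6) .nil)))))))))) (.nd (.nd (.nd .leaf (nat_lit 22531) (nat_lit 61) (.p (nat_lit 54) (nat_lit 3) .z) .df .leaf) (nat_lit 22535) (nat_lit 119) (.p (nat_lit 71) (nat_lit 3) (.n (nat_lit 77) (nat_lit 3) (.n (nat_lit 78) (nat_lit 3) (.p (nat_lit 81) (nat_lit 3) (.n (nat_lit 82) (nat_lit 3) (.n (nat_lit 84) (nat_lit 3) (.p (nat_lit 91) (nat_lit 3) .z))))))) (.ct dF3_c4370 (nat_lit 3) (nat_lit 3) (.s true (nat_lit 1) (nat_lit 7) (nat_lit 2) (nat_lit 3) (nat_lit 1) true (nat_lit 4) true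 (nat_lit 9) true (nat_lit 3) true (nat_lit 8) true (nat_lit 7) (.e false (nat_lit 3) (nat_lit 23) (nat_lit 6) (nat_lit 4) (.e true (nat_lit 3) (nat_lit 47) (nat_lit 1) (nat_lit 9) (.e true (nat_lit 3) (nat_lit 40) (nat_lit 2) (nat_lit 8) (.e true (nat_lit 3) (nat_lit 41) (nat_lit 2) (nat_lit 8) (.e false (nat_lit 3) (nat_lit 44) (nat_lit 2) (nat_lit 8) (.e true (nat_lit 3) (nat_lit 45) (nat_lit 2) (nat_lit 8) (.e false (nat_lit 3) (nat_lit 34) (nat_lit 3) (nat_lit 7) .nil))))))))) .leaf) (nat_lit 22538) (nat_lit 179) (.n (nat_lit 115) (nat_lit 3) (.p (nat_lit 116) (nat_lit 3) (.n (nat_lit 117) (nat_lit 3) (.n (nat_lit 118) (nat_lit 3) (.p (nat_lit 119) (nat_lit 3) (.p (nat_lit 120) (nat_lit 3) (.p (nat_lit 121) (nat_lit 3) (.p (nat_lit 122) (nat_lit 3) (.p (nat_lit 123) (nat_lit 3) .z))))))))) (.ct dF3_c275 (nat_lit 3) (nat_lit 0) (.s true (nat_lit 1) (nat_lit 8) (nat_lit 2) (nat_lit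 3) (nat_lit 3) true (nat_lit 1) true (nat_lit 4) true (nat_lit 2) true (nat_lit 5) true (nat_lit 4) (.s false (nat_lit 1) (nat_lit 9) (nat_lit 3) (nat_lit 1) (nat_lit 3) true (nat_lit 0) true (nat_lit 4) true (nat_lit 1) true (nat_lit 4) true (nat_lit 6) (.s true (nat_lit 1) (nat_lit 9) (nat_lit 3) (nat_lit 3) (nat_lit 1) true (nat_lit 2) true (nat_lit 6) true (nat_lit 1) true (nat_lit 4) true (nat_lit 4) (.s true (nat_lit 1) (nat_lit 10) (nat_lit 3) (nat_lit 1) (nat_lit 2) true (nat_lit 1) true (nat_lit 5) true (nat_lit 0) true (nat_lit 4) true (nat_lit 6) (.e false (nat_lit 6) (nat_lit 53) (nat_lit 3) (nat_lit 4) (.e false (nat_lit 3) (nat_lit 62) (nat_lit 2) (nat_lit 5) (.e false (nat_lit 6) (nat_lit 57) (nat_lit 3) (nat_lit 4) (.e false (nat_lit 6) (nat_lit 52) (nat_lit 3) (nat_lit 4) (.e true (nat_lit 6) (nat_lit 56) (nat_lit 3) (nat_lit 4) (.e true (nat_lit 3) (nat_lit 21)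 (nat_lit 10) (nat_lit 0) (.e false (nat_lit 3) (nat_lit 65) (nat_lit 1) (nat_lit 6) .nil)))))))))))) (.nd (.nd .leaf (nat_lit 23553) (nat_lit 44) (.p (nat_lit 43) (nat_lit 3) .z) .df .leaf) (nat_lit 23554) (nat_lit 53) (.p (nat_lit 49) (nat_lit 3) .z) .df .leaf))) (nat_lit 23555) (nat_lit 68) (.p (nat_lit 58) (nat_lit 3) .z) .df (.nd (.nd (.nd (.nd .leaf (nat_lit 23558) (nat_lit 104) (.p (nat_lit 91) (nat_lit 3) .z) .df .leaf) (nat_lit 23560) (nat_lit 136) (.p (nat_lit 102) (nat_lit 3) .z) .df .leaf) (nat_lit 23561) (nat_lit 156) (.p (nat_lit 113) (nat_lit 3) .z) .df (.nd (.nd .leaf (nat_lit 24577) (nat_lit 45) (.p (nat_lit 44) (nat_lit 3) .z) .df .leaf) (nat_lit 24578) (nat_lit 54) (.p (nat_lit 50) (nat_lit 3) .z) .df .leaf)) (nat_lit 24579) (nat_lit 69) (.p (nat_lit 59) (nat_lit 3) .z) .df (.nd (.nd (.nd .leaf (nat_lit 24582) (nat_lit 121) (.p (nat_lit 69) (nat_lit 3) (.p (nat_lit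 77) (nat_lit 3) (.n (nat_lit 80) (nat_lit 3) (.n (nat_lit 81) (nat_lit 3) (.p (nat_lit 82) (nat_lit 3) (.n (nat_lit 83) (nat_lit 3) (.p (nat_lit 85) (nat_lit 3) (.p (nat_lit 86) (nat_lit 3) (.n (nat_lit 87) (nat_lit 3) (.n (nat_lit 88) (nat_lit 3) (.n (nat_lit 91) (nat_lit 3) .z))))))))))) (.ct dF3_c4370 (nat_lit 3) (nat_lit 4) (.s true (nat_lit 1) (nat_lit 6) (nat_lit 3) (nat_lit 3) (nat_lit 0) true (nat_lit 3) true (nat_lit 10) true (nat_lit 4) true (nat_lit 7) true (nat_lit 7) (.e true (nat_lit 3) (nat_lit 20) (nat_lit 7) (nat_lit 3) (.e true (nat_lit 3) (nat_lit 52) (nat_lit 0) (nat_lit 10) (.e true (nat_lit 3) (nat_lit 33) (nat_lit 3) (nat_lit 7) (.e true (nat_lit 3) (nat_lit 34) (nat_lit 3) (nat_lit 7) (.e true (nat_lit 3) (nat_lit 35) (nat_lit 3) (nat_lit 7) (.e false (nat_lit 3) (nat_lit 36) (nat_lit 3) (nat_lit 7) (.e false (nat_lit 3) (nat_lit 37) (nat_lit 3) (nat_lit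 7) (.e false (nat_lit 3) (nat_lit 38) (nat_lit 3) (nat_lit 7) (.e false (nat_lit 3) (nat_lit 39) (nat_lit 3) (nat_lit 7) .nil))))))))))) .leaf) (nat_lit 24584) (nat_lit 141) (.p (nat_lit 92) (nat_lit 6) (.p (nat_lit 93) (nat_lit 6) (.n (nat_lit 96) (nat_lit 3) (.p (nat_lit 97) (nat_lit 6) (.n (nat_lit 100) (nat_lit 3) (.n (nat_lit 101) (nat_lit 3) .z)))))) (.ct dF3_c4355 (nat_lit 3) (nat_lit 1) (.s false (nat_lit 1) (nat_lit 10) (nat_lit 3) (nat_lit 0) (nat_lit 1) true (nat_lit 1) true (nat_lit 5) true (nat_lit 0) true (nat_lit 4) true (nat_lit 6) (.e false (nat_lit 3) (nat_lit 60) (nat_lit 1) (nat_lit 5) (.e false (nat_lit 3) (nat_lit 15) (nat_lit 10) (nat_lit 0) (.e true (nat_lit 3) (nat_lit 41) (nat_lit 3) (nat_lit 4) (.e false (nat_lit 3) (nat_lit 42) (nat_lit 3) (nat_lit 4) (.e true (nat_lit 3) (nat_lit 43) (nat_lit 3) (nat_lit 4) (.e false (nat_lit 3) (nat_lit 45) (nat_lit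 3) (nat_lit 4) (.e true (nat_lit 3) (nat_lit 62) (nat_lit 0) (nat_lit 6) .nil))))))))) .leaf) (nat_lit 24585) (nat_lit 161) (.p (nat_lit 103) (nat_lit 6) (.p (nat_lit 104) (nat_lit 6) (.n (nat_lit 107) (nat_lit 3) (.p (nat_lit 108) (nat_lit 6) (.n (nat_lit 111) (nat_lit 3) (.n (nat_lit 112) (nat_lit 3) .z)))))) (.ct dF3_c4115 (nat_lit 3) (nat_lit 1) (.s false (nat_lit 1) (nat_lit 10) (nat_lit 3) (nat_lit 0) (nat_lit 2) true (nat_lit 1) true (nat_lit 5) true (nat_lit 0) true (nat_lit 4) true (nat_lit 6) (.e false (nat_lit 3) (nat_lit 60) (nat_lit 2) (nat_lit 5) (.e false (nat_lit 3) (nat_lit 18) (nat_lit 10) (nat_lit 0) (.e true (nat_lit 3) (nat_lit 47) (nat_lit 3) (nat_lit 4) (.e false (nat_lit 3) (nat_lit 48) (nat_lit 3) (nat_lit 4) (.e true (nat_lit 3) (nat_lit 49) (nat_lit 3) (nat_lit 4) (.e false (nat_lit 3) (nat_lit 51) (nat_lit 3) (nat_lit 4) (.e true (nat_lit 3) (nat_lit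 65) (nat_lit 0) (nat_lit 6) .nil))))))))) (.nd .leaf (nat_lit 25600) (nat_lit 46) (.p (nat_lit 45) (nat_lit 3) .z) .df .leaf))))))

noncomputable def dF3_t1 : Tr := (.nd (.nd (.nd (.nd (.nd (.nd (.nd .leaf (nat_lit 25603) (nat_lit 72) (.p (nat_lit 61) (nat_lit 3) .z) .df .leaf) (nat_lit 25605) (nat_lit 109) (.n (nat_lit 67) (nat_lit 1) (.p (nat_lit 68) (nat_lit 2) (.p (nat_lit 69) (nat_lit 1) (.n (nat_lit 70) (nat_lit 1) (.p (nat_lit 71) (nat_lit 2) (.n (nat_lit 72) (nat_lit 1) (.n (nat_lit 74) (nat_lit 1) (.n (nat_lit 76) (nat_lit 1) (.p (nat_lit 78) (nat_lit 2) (.n (nat_lit 79) (nat_lit 2) (.p (nat_lit 83) (nat_lit 1) (.n (nat_lit 85) (nat_lit 2) (.n (nat_lit 86) (nat_lit 1) (.p (nat_lit 87) (nat_lit 2) (.n (nat_lit 88) (nat_lit 1) (.p (nat_lit 90) (nat_lit 1) (.p (nat_lit 91) (nat_lit 1) .z))))))))))))))))) (.ct dF3_c4370 (nat_lit 3) (nat_lit 5) (.s false (nat_lit 1) (nat_lit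 7) (nat_lit 1) (nat_lit 2) (nat_lit 3) true (nat_lit 2) true (nat_lit 7) true (nat_lit 3) true (nat_lit 9) true (nat_lit 8) (.s false (nat_lit 1) (nat_lit 7) (nat_lit 2) (nat_lit 1) (nat_lit 3) true (nat_lit 1) true (nat_lit 7) true (nat_lit 3) true (nat_lit 8) true (nat_lit 9) (.s false (nat_lit 1) (nat_lit 8) (nat_lit 2) (nat_lit 3) (nat_lit 0) true (nat_lit 5) true (nat_lit 10) true (nat_lit 2) true (nat_lit 8) true (nat_lit 7) (.s false (nat_lit 1) (nat_lit 8) (nat_lit 3) (nat_lit 0) (nat_lit 2) true (nat_lit 1) true (nat_lit 8) true (nat_lit 2) true (nat_lit 7) true (nat_lit 10) (.s false (nat_lit 1) (nat_lit 9) (nat_lit 1) (nat_lit 3) (nat_lit 0) true (nat_lit 6) true (nat_lit 10) true (nat_lit 1) true (nat_lit 9) true (nat_lit 7) (.s false (nat_lit 1) (nat_lit 9) (nat_lit 3) (nat_lit 0) (nat_lit 1) true (nat_lit 2) true (nat_lit 9) true (nat_lit 1) true (nat_lit 7) true (nat_lit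 10) (.e false (nat_lit 3) (nat_lit 51) (nat_lit 1) (nat_lit 9) (.e true (nat_lit 3) (nat_lit 43) (nat_lit 2) (nat_lit 8) (.e false (nat_lit 3) (nat_lit 45) (nat_lit 2) (nat_lit 8) (.e true (nat_lit 3) (nat_lit 49) (nat_lit 1) (nat_lit 9) (.e false (nat_lit 3) (nat_lit 30) (nat_lit 3) (nat_lit 7) (.e true (nat_lit 3) (nat_lit 27) (nat_lit 4) (nat_lit 6) (.e false (nat_lit 3) (nat_lit 31) (nat_lit 3) (nat_lit 7) .nil)))))))))))))) .leaf) (nat_lit 25607) (nat_lit 140) (.p (nat_lit 93) (nat_lit 3) (.p (nat_lit 95) (nat_lit 3) (.n (nat_lit 98) (nat_lit 3) (.n (nat_lit 99) (nat_lit 3) (.p (nat_lit 102) (nat_lit 3) .z))))) (.ct dF3_c4355 (nat_lit 3) (nat_lit 2) (.s false (nat_lit 1) (nat_lit 7) (nat_lit 1) (nat_lit 3) (nat_lit 3) true (nat_lit 1) true (nat_lit 4) true (nat_lit 2) true (nat_lit 5) true (nat_lit 4) (.e false (nat_lit 3) (nat_lit 23) (nat_lit 8) (nat_lit 1) (.e false (nat_lit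 3) (nat_lit 41) (nat_lit 3) (nat_lit 4) (.e true (nat_lit 3) (nat_lit 59) (nat_lit 1) (nat_lit 5) (.e true (nat_lit 3) (nat_lit 60) (nat_lit 1) (nat_lit 5) (.e false (nat_lit 3) (nat_lit 43) (nat_lit 3) (nat_lit 4) .nil))))))) (.nd (.nd .leaf (nat_lit 25609) (nat_lit 176) (.p (nat_lit 124) (nat_lit 3) .z) .df .leaf) (nat_lit 26624) (nat_lit 48) (.n (nat_lit 40) (nat_lit 6) (.n (nat_lit 41) (nat_lit 3) (.p (nat_lit 42) (nat_lit 3) (.p (nat_lit 43) (nat_lit 3) (.p (nat_lit 44) (nat_lit 3) (.n (nat_lit 45) (nat_lit 3) .z)))))) (.ct dF3_c4354 (nat_lit 3) (nat_lit 4) (.s false (nat_lit 1) (nat_lit 3) (nat_lit 1) (nat_lit 0) (nat_lit 3) false (nat_lit 0) true (nat_lit 2) true (nat_lit 2) true (nat_lit 3) true (nat_lit 4) (.e false (nat_lit 3) (nat_lit 8) (nat_lit 7) (nat_lit 0) (.e false (nat_lit 3) (nat_lit 16) (nat_lit 3) (nat_lit 2) (.e true (nat_lit 3) (nat_lit 14) (nat_lit 3) (nat_lit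 2) (.e false (nat_lit 3) (nat_lit 23) (nat_lit 1) (nat_lit 3) .nil)))))) .leaf)) (nat_lit 26626) (nat_lit 63) (.p (nat_lit 56) (nat_lit 3) .z) .df (.nd (.nd (.nd .leaf (nat_lit 26627) (nat_lit 73) (.p (nat_lit 62) (nat_lit 3) .z) .df .leaf) (nat_lit 26629) (nat_lit 124) (.p (nat_lit 67) (nat_lit 2) (.p (nat_lit 68) (nat_lit 2) (.p (nat_lit 69) (nat_lit 1) (.p (nat_lit 70) (nat_lit 2) (.n (nat_lit 71) (nat_lit 4) (.p (nat_lit 72) (nat_lit 2) (.p (nat_lit 74) (nat_lit 2) (.p (nat_lit 76) (nat_lit 2) (.p (nat_lit 77) (nat_lit 3) (.n (nat_lit 78) (nat_lit 1) (.p (nat_lit 79) (nat_lit 1) (.n (nat_lit 81) (nat_lit 3) (.n (nat_lit 83) (nat_lit 5) (.p (nat_lit 85) (nat_lit 1) (.p (nat_lit 86) (nat_lit 2) (.n (nat_lit 87) (nat_lit 1) (.n (nat_lit 88) (nat_lit 1) (.p (nat_lit 90) (nat_lit 1) (.n (nat_lit 91) (nat_lit 5) .z))))))))))))))))))) (.ct dF3_c4370 (nat_lit 3) (nat_lit 5) (.s true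 (nat_lit 1) (nat_lit 5) (nat_lit 3) (nat_lit 3) (nat_lit 1) true (nat_lit 2) true (nat_lit 9) true (nat_lit 5) true (nat_lit 7) true (nat_lit 7) (.e true (nat_lit 3) (nat_lit 17) (nat_lit 8) (nat_lit 2) (.e true (nat_lit 3) (nat_lit 46) (nat_lit 1) (nat_lit 9) (.e false (nat_lit 3) (nat_lit 30) (nat_lit 3) (nat_lit 7) (.e true (nat_lit 3) (nat_lit 34) (nat_lit 3) (nat_lit 7) (.e false (nat_lit 3) (nat_lit 38) (nat_lit 3) (nat_lit 7) (.e false (nat_lit 3) (nat_lit 39) (nat_lit 3) (nat_lit 7) (.e false (nat_lit 3) (nat_lit 31) (nat_lit 3) (nat_lit 7) .nil))))))))) .leaf) (nat_lit 26631) (nat_lit 142) (.p (nat_lit 93) (nat_lit 3) (.p (nat_lit 94) (nat_lit 3) (.p (nat_lit 95) (nat_lit 3) (.n (nat_lit 96) (nat_lit 3) (.p (nat_lit 97) (nat_lit 3) (.n (nat_lit 98) (nat_lit 3) (.p (nat_lit 101) (nat_lit 3) .z))))))) (.ct dF3_c4355 (nat_lit 3) (nat_lit 2) (.s true (nat_lit 1) (nat_lit 10)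 (nat_lit 0) (nat_lit 1) (nat_lit 3) true (nat_lit 2) true (nat_lit 4) true (nat_lit 0) true (nat_lit 6) true (nat_lit 5) (.e true (nat_lit 3) (nat_lit 44) (nat_lit 3) (nat_lit 4) (.e false (nat_lit 3) (nat_lit 14) (nat_lit 10) (nat_lit 0) (.e false (nat_lit 3) (nat_lit 62) (nat_lit 0) (nat_lit 6) (.e false (nat_lit 3) (nat_lit 63) (nat_lit 0) (nat_lit 6) (.e false (nat_lit 3) (nat_lit 60) (nat_lit 1) (nat_lit 5) .nil))))))) (.nd (.nd .leaf (nat_lit 26633) (nat_lit 181) (.p (nat_lit 114) (nat_lit 6) (.p (nat_lit 115) (nat_lit 6) (.n (nat_lit 118) (nat_lit 3) (.p (nat_lit 119) (nat_lit 6) (.n (nat_lit 122) (nat_lit 3) (.n (nat_lit 123) (nat_lit 3) .z)))))) (.ct dF3_c275 (nat_lit 3) (nat_lit 1) (.s false (nat_lit 1) (nat_lit 10) (nat_lit 3) (nat_lit 1) (nat_lit 2) true (nat_lit 1) true (nat_lit 5) true (nat_lit 0) true (nat_lit 4) true (nat_lit 6) (.e false (nat_lit 3) (nat_lit 63)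 (nat_lit 2) (nat_lit 5) (.e false (nat_lit 3) (nat_lit 21) (nat_lit 10) (nat_lit 0) (.e true (nat_lit 3) (nat_lit 53) (nat_lit 3) (nat_lit 4) (.e false (nat_lit 3) (nat_lit 54) (nat_lit 3) (nat_lit 4) (.e true (nat_lit 3) (nat_lit 55) (nat_lit 3) (nat_lit 4) (.e false (nat_lit 3) (nat_lit 57) (nat_lit 3) (nat_lit 4) (.e true (nat_lit 3) (nat_lit 65) (nat_lit 1) (nat_lit 6) .nil))))))))) .leaf) (nat_lit 27648) (nat_lit 55) (.p (nat_lit 51) (nat_lit 3) .z) .df .leaf))) (nat_lit 27649) (nat_lit 64) (.p (nat_lit 57) (nat_lit 3) .z) .df (.nd (.nd (.nd (.nd .leaf (nat_lit 27651) (nat_lit 76) (.p (nat_lit 64) (nat_lit 3) .z) .df .leaf) (nat_lit 27652) (nat_lit 105) (.p (nat_lit 67) (nat_lit 4) (.p (nat_lit 68) (nat_lit 1) (.n (nat_lit 69) (nat_lit 1) (.p (nat_lit 70) (nat_lit 1) (.n (nat_lit 71) (nat_lit 2) (.p (nat_lit 72) (nat_lit 1) (.p (nat_lit 74) (nat_lit 1) (.p (nat_lit 76) (nat_lit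 1) (.n (nat_lit 78) (nat_lit 2) (.p (nat_lit 79) (nat_lit 2) (.n (nat_lit 80) (nat_lit 3) (.p (nat_lit 82) (nat_lit 3) (.n (nat_lit 83) (nat_lit 1) (.n (nat_lit 85) (nat_lit 1) (.p (nat_lit 86) (nat_lit 1) (.p (nat_lit 87) (nat_lit 1) (.p (nat_lit 88) (nat_lit 1) (.n (nat_lit 90) (nat_lit 1) (.n (nat_lit 91) (nat_lit 1) .z))))))))))))))))))) (.ct dF3_c4370 (nat_lit 9) (nat_lit 6) (.s false (nat_lit 2) (nat_lit 4) (nat_lit 2) (nat_lit 3) (nat_lit 3) true (nat_lit 1) true (nat_lit 7) true (nat_lit 6) true (nat_lit 8) true (nat_lit 7) (.s false (nat_lit 1) (nat_lit 7) (nat_lit 1) (nat_lit 2) (nat_lit 3) true (nat_lit 2) true (nat_lit 7) true (nat_lit 3) true (nat_lit 9) true (nat_lit 8) dF3_i0))) .leaf) (nat_lit 27655) (nat_lit 160) (.p (nat_lit 104) (nat_lit 3) (.p (nat_lit 106) (nat_lit 3) (.n (nat_lit 109) (nat_lit 3) (.n (nat_lit 110) (nat_lit 3) (.p (nat_lit 113) (nat_lit 3) .z)))))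 (.ct dF3_c4115 (nat_lit 3) (nat_lit 2) (.s false (nat_lit 1) (nat_lit 7) (nat_lit 2) (nat_lit 3) (nat_lit 3) true (nat_lit 1) true (nat_lit 4) true (nat_lit 2) true (nat_lit 5) true (nat_lit 4) (.e false (nat_lit 3) (nat_lit 23) (nat_lit 9) (nat_lit 1) (.e false (nat_lit 3) (nat_lit 47) (nat_lit 3) (nat_lit 4) (.e true (nat_lit 3) (nat_lit 59) (nat_lit 2) (nat_lit 5) (.e true (nat_lit 3) (nat_lit 60) (nat_lit 2) (nat_lit 5) (.e false (nat_lit 3) (nat_lit 49) (nat_lit 3) (nat_lit 4) .nil))))))) (.nd (.nd .leaf (nat_lit 27656) (nat_lit 180) (.p (nat_lit 115) (nat_lit 3) (.p (nat_lit 117) (nat_lit 3) (.n (nat_lit 120) (nat_lit 3) (.n (nat_lit 121) (nat_lit 3) (.p (nat_lit 124) (nat_lit 3) .z))))) (.ct dF3_c275 (nat_lit 3) (nat_lit 2) (.s false (nat_lit 1) (nat_lit 8) (nat_lit 2) (nat_lit 3) (nat_lit 3) true (nat_lit 1) true (nat_lit 4) true (nat_lit 2) true (nat_lit 5) true (nat_lit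 4) (.e false (nat_lit 3) (nat_lit 25) (nat_lit 9) (nat_lit 1) (.e false (nat_lit 3) (nat_lit 53) (nat_lit 3) (nat_lit 4) (.e true (nat_lit 3) (nat_lit 62) (nat_lit 2) (nat_lit 5) (.e true (nat_lit 3) (nat_lit 63) (nat_lit 2) (nat_lit 5) (.e false (nat_lit 3) (nat_lit 55) (nat_lit 3) (nat_lit 4) .nil))))))) .leaf) (nat_lit 28672) (nat_lit 57) (.n (nat_lit 46) (nat_lit 6) (.n (nat_lit 47) (nat_lit 3) (.p (nat_lit 48) (nat_lit 3) (.p (nat_lit 49) (nat_lit 3) (.p (nat_lit 50) (nat_lit 3) (.n (nat_lit 51) (nat_lit 3) .z)))))) (.ct dF3_c4114 (nat_lit 3) (nat_lit 4) (.s false (nat_lit 1) (nat_lit 3) (nat_lit 2) (nat_lit 0) (nat_lit 3) false (nat_lit 0) true (nat_lit 2) true (nat_lit 2) true (nat_lit 3) true (nat_lit 4) (.e false (nat_lit 3) (nat_lit 9) (nat_lit 7) (nat_lit 0) (.e false (nat_lit 3) (nat_lit 19) (nat_lit 3) (nat_lit 2) (.e true (nat_lit 3) (nat_lit 17) (nat_lit 3) (nat_lit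 2) (.e false (nat_lit 3) (nat_lit 23) (nat_lit 2) (nat_lit 3) .nil)))))) .leaf)) (nat_lit 28673) (nat_lit 66) (.n (nat_lit 52) (nat_lit 6) (.n (nat_lit 53) (nat_lit 3) (.p (nat_lit 54) (nat_lit 3) (.p (nat_lit 55) (nat_lit 3) (.p (nat_lit 56) (nat_lit 3) (.n (nat_lit 57) (nat_lit 3) .z)))))) (.ct dF3_c274 (nat_lit 3) (nat_lit 4) (.s false (nat_lit 1) (nat_lit 3) (nat_lit 2) (nat_lit 1) (nat_lit 3) false (nat_lit 0) true (nat_lit 2) true (nat_lit 2) true (nat_lit 3) true (nat_lit 4) (.e false (nat_lit 3) (nat_lit 9) (nat_lit 8) (nat_lit 0) (.e false (nat_lit 3) (nat_lit 22) (nat_lit 3) (nat_lit 2) (.e true (nat_lit 3) (nat_lit 20) (nat_lit 3) (nat_lit 2) (.e false (nat_lit 3) (nat_lit 25) (nat_lit 2) (nat_lit 3) .nil)))))) (.nd (.nd (.nd .leaf (nat_lit 28675) (nat_lit 77) (.p (nat_lit 65) (nat_lit 3) .z) .df .leaf) (nat_lit 28676) (nat_lit 125) (.p (nat_lit 67) (nat_lit 2) (.p (nat_lit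 68) (nat_lit 2) (.p (nat_lit 69) (nat_lit 1) (.p (nat_lit 70) (nat_lit 2) (.p (nat_lit 71) (nat_lit 2) (.p (nat_lit 72) (nat_lit 2) (.n (nat_lit 74) (nat_lit 4) (.n (nat_lit 76) (nat_lit 4) (.n (nat_lit 77) (nat_lit 3) (.n (nat_lit 78) (nat_lit 1) (.p (nat_lit 79) (nat_lit 1) (.p (nat_lit 83) (nat_lit 1) (.p (nat_lit 85) (nat_lit 1) (.n (nat_lit 86) (nat_lit 1) (.n (nat_lit 87) (nat_lit 1) (.n (nat_lit 88) (nat_lit 1) (.p (nat_lit 90) (nat_lit 1) (.p (nat_lit 91) (nat_lit 1) .z)))))))))))))))))) (.ct dF3_c4370 (nat_lit 3) (nat_lit 6) (.s true (nat_lit 1) (nat_lit 4) (nat_lit 3) (nat_lit 3) (nat_lit 2) true (nat_lit 1) true (nat_lit 8) true (nat_lit 6) true (nat_lit 7) true (nat_lit 7) (.e true (nat_lit 3) (nat_lit 14) (nat_lit 9) (nat_lit 1) (.e true (nat_lit 3) (nat_lit 40) (nat_lit 2) (nat_lit 8) (.e false (nat_lit 3) (nat_lit 31) (nat_lit 3) (nat_lit 7) (.e false (nat_lit 3)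 (nat_lit 35) (nat_lit 3) (nat_lit 7) (.e true (nat_lit 3) (nat_lit 37) (nat_lit 3) (nat_lit 7) (.e true (nat_lit 3) (nat_lit 39) (nat_lit 3) (nat_lit 7) (.e false (nat_lit 3) (nat_lit 30) (nat_lit 3) (nat_lit 7) .nil))))))))) .leaf) (nat_lit 28679) (nat_lit 162) (.p (nat_lit 104) (nat_lit 3) (.p (nat_lit 105) (nat_lit 3) (.p (nat_lit 106) (nat_lit 3) (.n (nat_lit 107) (nat_lit 3) (.p (nat_lit 108) (nat_lit 3) (.n (nat_lit 109) (nat_lit 3) (.p (nat_lit 112) (nat_lit 3) .z))))))) (.ct dF3_c4115 (nat_lit 3) (nat_lit 2) (.s true (nat_lit 1) (nat_lit 10) (nat_lit 0) (nat_lit 2) (nat_lit 3) true (nat_lit 2) true (nat_lit 4) true (nat_lit 0) true (nat_lit 6) true (nat_lit 5) (.e true (nat_lit 3) (nat_lit 50) (nat_lit 3) (nat_lit 4) (.e false (nat_lit 3) (nat_lit 17) (nat_lit 10) (nat_lit 0) (.e false (nat_lit 3) (nat_lit 65) (nat_lit 0) (nat_lit 6) (.e false (nat_lit 3) (nat_lit 66) (nat_lit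 0) (nat_lit 6) (.e false (nat_lit 3) (nat_lit 60) (nat_lit 2) (nat_lit 5) .nil))))))) (.nd (.nd .leaf (nat_lit 28680) (nat_lit 182) (.p (nat_lit 115) (nat_lit 3) (.p (nat_lit 116) (nat_lit 3) (.p (nat_lit 117) (nat_lit 3) (.n (nat_lit 118) (nat_lit 3) (.p (nat_lit 119) (nat_lit 3) (.n (nat_lit 120) (nat_lit 3) (.p (nat_lit 123) (nat_lit 3) .z))))))) (.ct dF3_c275 (nat_lit 3) (nat_lit 2) (.s true (nat_lit 1) (nat_lit 10) (nat_lit 1) (nat_lit 2) (nat_lit 3) true (nat_lit 2) true (nat_lit 4) true (nat_lit 0) true (nat_lit 6) true (nat_lit 5) (.e true (nat_lit 3) (nat_lit 56) (nat_lit 3) (nat_lit 4) (.e false (nat_lit 3) (nat_lit 20) (nat_lit 10) (nat_lit 0) (.e false (nat_lit 3) (nat_lit 65) (nat_lit 1) (nat_lit 6) (.e false (nat_lit 3) (nat_lit 66) (nat_lit 1) (nat_lit 6) (.e false (nat_lit 3) (nat_lit 63) (nat_lit 2) (nat_lit 5) .nil))))))) .leaf) (nat_lit 29696) (nat_lit 70) (.p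 (nat_lit 60) (nat_lit 3) .z) .df .leaf)))) (nat_lit 29697) (nat_lit 74) (.p (nat_lit 63) (nat_lit 3) .z) .df (.nd (.nd (.nd (.nd (.nd .leaf (nat_lit 29698) (nat_lit 78) (.p (nat_lit 66) (nat_lit 3) .z) .df .leaf) (nat_lit 29700) (nat_lit 143) (.p (nat_lit 93) (nat_lit 3) (.n (nat_lit 94) (nat_lit 3) (.p (nat_lit 95) (nat_lit 3) (.n (nat_lit 97) (nat_lit 3) (.n (nat_lit 101) (nat_lit 3) .z))))) (.ct dF3_c4355 (nat_lit 3) (nat_lit 3) (.s true (nat_lit 1) (nat_lit 4) (nat_lit 3) (nat_lit 3) (nat_lit 3) true (nat_lit 0) true (nat_lit 4) true (nat_lit 3) true (nat_lit 4) true (nat_lit 4) (.e true (nat_lit 3) (nat_lit 14) (nat_lit 10) (nat_lit 0) (.e false (nat_lit 3) (nat_lit 41) (nat_lit 3) (nat_lit 4) (.e true (nat_lit 3) (nat_lit 42) (nat_lit 3) (nat_lit 4) (.e false (nat_lit 3) (nat_lit 43) (nat_lit 3) (nat_lit 4) (.e true (nat_lit 3) (nat_lit 45) (nat_lit 3) (nat_lit 4) .nil)))))))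 .leaf) (nat_lit 29701) (nat_lit 163) (.p (nat_lit 104) (nat_lit 3) (.n (nat_lit 105) (nat_lit 3) (.p (nat_lit 106) (nat_lit 3) (.n (nat_lit 108) (nat_lit 3) (.n (nat_lit 112) (nat_lit 3) .z))))) (.ct dF3_c4115 (nat_lit 3) (nat_lit 3) (.s true (nat_lit 1) (nat_lit 5) (nat_lit 3) (nat_lit 3) (nat_lit 3) true (nat_lit 0) true (nat_lit 4) true (nat_lit 3) true (nat_lit 4) true (nat_lit 4) (.e true (nat_lit 3) (nat_lit 17) (nat_lit 10) (nat_lit 0) (.e false (nat_lit 3) (nat_lit 47) (nat_lit 3) (nat_lit 4) (.e true (nat_lit 3) (nat_lit 48) (nat_lit 3) (nat_lit 4) (.e false (nat_lit 3) (nat_lit 49) (nat_lit 3) (nat_lit 4) (.e true (nat_lit 3) (nat_lit 51) (nat_lit 3) (nat_lit 4) .nil))))))) (.nd (.nd .leaf (nat_lit 29702) (nat_lit 183) (.p (nat_lit 115) (nat_lit 3) (.n (nat_lit 116) (nat_lit 3) (.p (nat_lit 117) (nat_lit 3) (.n (nat_lit 119) (nat_lit 3) (.n (nat_lit 123) (nat_lit 3) .z)))))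 (.ct dF3_c275 (nat_lit 3) (nat_lit 3) (.s true (nat_lit 1) (nat_lit 6) (nat_lit 3) (nat_lit 3) (nat_lit 3) true (nat_lit 0) true (nat_lit 4) true (nat_lit 3) true (nat_lit 4) true (nat_lit 4) (.e true (nat_lit 3) (nat_lit 20) (nat_lit 10) (nat_lit 0) (.e false (nat_lit 3) (nat_lit 53) (nat_lit 3) (nat_lit 4) (.e true (nat_lit 3) (nat_lit 54) (nat_lit 3) (nat_lit 4) (.e false (nat_lit 3) (nat_lit 55) (nat_lit 3) (nat_lit 4) (.e true (nat_lit 3) (nat_lit 57) (nat_lit 3) (nat_lit 4) .nil))))))) .leaf) (nat_lit 30723) (nat_lit 80) (.p (nat_lit 67) (nat_lit 3) .z) .df .leaf)) (nat_lit 31747) (nat_lit 81) (.p (nat_lit 68) (nat_lit 3) .z) .df (.nd (.nd (.nd .leaf (nat_lit 32771) (nat_lit 82) (.p (nat_lit 69) (nat_lit 3) .z) .df .leaf) (nat_lit 33795) (nat_lit 83) (.p (nat_lit 70) (nat_lit 3) .z) .df .leaf) (nat_lit 34819) (nat_lit 84) (.p (nat_lit 71) (nat_lit 3) .z) .df (.nd (.nd .leaf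 (nat_lit 35843) (nat_lit 85) (.p (nat_lit 72) (nat_lit 3) .z) .df .leaf) (nat_lit 36867) (nat_lit 86) (.p (nat_lit 73) (nat_lit 3) .z) .df .leaf))) (nat_lit 37891) (nat_lit 87) (.p (nat_lit 74) (nat_lit 3) .z) .df (.nd (.nd (.nd (.nd .leaf (nat_lit 38915) (nat_lit 88) (.p (nat_lit 75) (nat_lit 3) .z) .df .leaf) (nat_lit 39939) (nat_lit 89) (.p (nat_lit 76) (nat_lit 3) .z) .df .leaf) (nat_lit 40962) (nat_lit 90) (.p (nat_lit 77) (nat_lit 3) .z) .df (.nd (.nd .leaf (nat_lit 40963) (nat_lit 126) (.p (nat_lit 92) (nat_lit 3) .z) .df .leaf) (nat_lit 41986) (nat_lit 91) (.p (nat_lit 78) (nat_lit 3) .z) .df .leaf)) (nat_lit 41987) (nat_lit 127) (.p (nat_lit 93) (nat_lit 3) .z) .df (.nd (.nd (.nd .leaf (nat_lit 43010) (nat_lit 92) (.p (nat_lit 79) (nat_lit 3) .z) .df .leaf) (nat_lit 43011) (nat_lit 128) (.p (nat_lit 94) (nat_lit 3) .z) .df .leaf) (nat_lit 44034) (nat_lit 93) (.p (nat_lit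 80) (nat_lit 3) .z) .df (.nd .leaf (nat_lit 44035) (nat_lit 129) (.p (nat_lit 95) (nat_lit 3) .z) .df .leaf))))) (nat_lit 45058) (nat_lit 94) (.p (nat_lit 81) (nat_lit 3) .z) .df (.nd (.nd (.nd (.nd (.nd (.nd .leaf (nat_lit 45059) (nat_lit 130) (.p (nat_lit 96) (nat_lit 3) .z) .df .leaf) (nat_lit 46082) (nat_lit 95) (.p (nat_lit 82) (nat_lit 3) .z) .df .leaf) (nat_lit 46083) (nat_lit 131) (.p (nat_lit 97) (nat_lit 3) .z) .df (.nd (.nd .leaf (nat_lit 47105) (nat_lit 96) (.p (nat_lit 83) (nat_lit 3) .z) .df .leaf) (nat_lit 47107) (nat_lit 146) (.p (nat_lit 103) (nat_lit 3) .z) .df .leaf)) (nat_lit 48129) (nat_lit 97) (.p (nat_lit 84) (nat_lit 3) .z) .df (.nd (.nd (.nd .leaf (nat_lit 48131) (nat_lit 147) (.p (nat_lit 104) (nat_lit 3) .z) .df .leaf) (nat_lit 49153) (nat_lit 107) (.n (nat_lit 67) (nat_lit 2) (.n (nat_lit 68) (nat_lit 2) (.p (nat_lit 69) (nat_lit 2) (.p (nat_lit 70) (nat_lit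 1) (.p (nat_lit 71) (nat_lit 1) (.p (nat_lit 72) (nat_lit 1) (.n (nat_lit 73) (nat_lit 3) (.p (nat_lit 74) (nat_lit 1) (.n (nat_lit 75) (nat_lit 3) (.n (nat_lit 76) (nat_lit 2) (.p (nat_lit 77) (nat_lit 3) (.p (nat_lit 78) (nat_lit 1) (.n (nat_lit 79) (nat_lit 1) (.n (nat_lit 81) (nat_lit 3) (.n (nat_lit 83) (nat_lit 1) (.p (nat_lit 84) (nat_lit 3) (.p (nat_lit 85) (nat_lit 2) (.p (nat_lit 86) (nat_lit 1) (.n (nat_lit 87) (nat_lit 2) (.n (nat_lit 88) (nat_lit 2) (.p (nat_lit 90) (nat_lit 2) (.n (nat_lit 91) (nat_lit 4) .z)))))))))))))))))))))) (.ct dF3_c4370 (nat_lit 3) (nat_lit 9) (.s false (nat_lit 1) (nat_lit 4) (nat_lit 2) (nat_lit 3) (nat_lit 3) true (nat_lit 1) true (nat_lit 7) true (nat_lit 6) true (nat_lit 8) true (nat_lit 7) (.s false (nat_lit 1) (nat_lit 7) (nat_lit 2) (nat_lit 1) (nat_lit 3) true (nat_lit 1) true (nat_lit 7) true (nat_lit 3) true (nat_lit 8) true (nat_lit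 9) (.s false (nat_lit 1) (nat_lit 7) (nat_lit 2) (nat_lit 3) (nat_lit 1) true (nat_lit 4) true (nat_lit 9) true (nat_lit 3) true (nat_lit 8) true (nat_lit 7) (.s true (nat_lit 1) (nat_lit 9) (nat_lit 0) (nat_lit 1) (nat_lit 3) true (nat_lit 3) true (nat_lit 7) true (nat_lit 1) true (nat_lit 10) true (nat_lit 9) (.s true (nat_lit 1) (nat_lit 9) (nat_lit 0) (nat_lit 3) (nat_lit 1) true (nat_lit 6) true (nat_lit 9) true (nat_lit 1) true (nat_lit 10) true (nat_lit 7) (.e false (nat_lit 6) (nat_lit 30) (nat_lit 3) (nat_lit 7) (.e true (nat_lit 6) (nat_lit 27) (nat_lit 4) (nat_lit 6) (.e true (nat_lit 3) (nat_lit 41) (nat_lit 2) (nat_lit 8) (.e false (nat_lit 3) (nat_lit 42) (nat_lit 2) (nat_lit 8) (.e true (nat_lit 3) (nat_lit 43) (nat_lit 2) (nat_lit 8) (.e false (nat_lit 3) (nat_lit 45) (nat_lit 2) (nat_lit 8) (.e false (nat_lit 6) (nat_lit 37) (nat_lit 3) (nat_lit 7) (.e true (nat_lit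 3) (nat_lit 20) (nat_lit 7) (nat_lit 3) (.e true (nat_lit 3) (nat_lit 49) (nat_lit 1) (nat_lit 9) (.e true (nat_lit 3) (nat_lit 23) (nat_lit 6) (nat_lit 4) (.e false (nat_lit 3) (nat_lit 47) (nat_lit 1) (nat_lit 9) (.e true (nat_lit 6) (nat_lit 34) (nat_lit 3) (nat_lit 7) (.e false (nat_lit 3) (nat_lit 51) (nat_lit 1) (nat_lit 9) (.e true (nat_lit 3) (nat_lit 32) (nat_lit 3) (nat_lit 7) (.e false (nat_lit 3) (nat_lit 39) (nat_lit 3) (nat_lit 7) .nil))))))))))))))))))))) .leaf) (nat_lit 49155) (nat_lit 148) (.p (nat_lit 105) (nat_lit 3) .z) .df (.nd (.nd .leaf (nat_lit 50177) (nat_lit 98) (.p (nat_lit 85) (nat_lit 3) .z) .df .leaf) (nat_lit 50179) (nat_lit 149) (.p (nat_lit 106) (nat_lit 3) .z) .df .leaf))) (nat_lit 51201) (nat_lit 99) (.p (nat_lit 86) (nat_lit 3) .z) .df (.nd (.nd (.nd (.nd .leaf (nat_lit 51203) (nat_lit 150) (.p (nat_lit 107) (nat_lit 3) .z) .df .leaf) (nat_lit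 52225) (nat_lit 100) (.p (nat_lit 87) (nat_lit 3) .z) .df .leaf) (nat_lit 52227) (nat_lit 151) (.p (nat_lit 108) (nat_lit 3) .z) .df (.nd (.nd .leaf (nat_lit 53248) (nat_lit 101) (.p (nat_lit 88) (nat_lit 3) .z) .df .leaf) (nat_lit 53251) (nat_lit 166) (.p (nat_lit 114) (nat_lit 3) .z) .df .leaf)) (nat_lit 54272) (nat_lit 102) (.p (nat_lit 89) (nat_lit 3) .z) .df (.nd (.nd (.nd .leaf (nat_lit 54275) (nat_lit 167) (.p (nat_lit 115) (nat_lit 3) .z) .df .leaf) (nat_lit 55296) (nat_lit 110) (.p (nat_lit 67) (nat_lit 1) (.p (nat_lit 68) (nat_lit 1) (.p (nat_lit 69) (nat_lit 2) (.p (nat_lit 70) (nat_lit 4) (.p (nat_lit 71) (nat_lit 1) (.p (nat_lit 72) (nat_lit 4) (.n (nat_lit 73) (nat_lit 3) (.n (nat_lit 74) (nat_lit 2) (.n (nat_lit 75) (nat_lit 3) (.n (nat_lit 76) (nat_lit 5) (.p (nat_lit 77) (nat_lit 3) (.n (nat_lit 78) (nat_lit 2) (.p (nat_lit 79) (nat_lit 2) (.n (nat_lit 80) (nat_lit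 3) (.n (nat_lit 81) (nat_lit 3) (.p (nat_lit 82) (nat_lit 3) (.n (nat_lit 83) (nat_lit 4) (.p (nat_lit 85) (nat_lit 2) (.p (nat_lit 86) (nat_lit 4) (.n (nat_lit 87) (nat_lit 2) (.p (nat_lit 88) (nat_lit 1) (.p (nat_lit 89) (nat_lit 3) (.n (nat_lit 90) (nat_lit 1) (.n (nat_lit 91) (nat_lit 4) .z)))))))))))))))))))))))) (.ct dF3_c4370 (nat_lit 3) (nat_lit 10) (.s true (nat_lit 1) (nat_lit 7) (nat_lit 1) (nat_lit 2) (nat_lit 3) true (nat_lit 2) true (nat_lit 7) true (nat_lit 3) true (nat_lit 9) true (nat_lit 8) (.s true (nat_lit 1) (nat_lit 8) (nat_lit 3) (nat_lit 0) (nat_lit 2) true (nat_lit 1) true (nat_lit 8) true (nat_lit 2) true (nat_lit 7) true (nat_lit 10) (.s true (nat_lit 1) (nat_lit 9) (nat_lit 1) (nat_lit 3) (nat_lit 0) true (nat_lit 6) true (nat_lit 10) true (nat_lit 1) true (nat_lit 9) true (nat_lit 7) (.e true (nat_lit 3) (nat_lit 20) (nat_lit 7) (nat_lit 3) (.e false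 (nat_lit 3) (nat_lit 43) (nat_lit 2) (nat_lit 8) (.e true (nat_lit 3) (nat_lit 45) (nat_lit 2) (nat_lit 8) (.e true (nat_lit 3) (nat_lit 30) (nat_lit 3) (nat_lit 7) (.e true (nat_lit 3) (nat_lit 39) (nat_lit 3) (nat_lit 7) (.e false (nat_lit 3) (nat_lit 53) (nat_lit 0) (nat_lit 10) (.e false (nat_lit 3) (nat_lit 27) (nat_lit 4) (nat_lit 6) .nil))))))))))) .leaf) (nat_lit 55299) (nat_lit 168) (.p (nat_lit 116) (nat_lit 3) .z) .df (.nd .leaf (nat_lit 56320) (nat_lit 111) (.p (nat_lit 67) (nat_lit 2) (.p (nat_lit 68) (nat_lit 2) (.p (nat_lit 69) (nat_lit 1) (.n (nat_lit 70) (nat_lit 1) (.n (nat_lit 71) (nat_lit 1) (.p (nat_lit 72) (nat_lit 2) (.p (nat_lit 74) (nat_lit 2) (.p (nat_lit 75) (nat_lit 3) (.p (nat_lit 76) (nat_lit 2) (.n (nat_lit 77) (nat_lit 3) (.n (nat_lit 78) (nat_lit 4) (.p (nat_lit 79) (nat_lit 1) (.p (nat_lit 81) (nat_lit 3) (.n (nat_lit 82) (nat_lit 3) (.n (nat_lit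 83) (nat_lit 2) (.n (nat_lit 84) (nat_lit 3) (.n (nat_lit 85) (nat_lit 2) (.p (nat_lit 86) (nat_lit 2) (.n (nat_lit 87) (nat_lit 1) (.n (nat_lit 88) (nat_lit 1) (.n (nat_lit 89) (nat_lit 3) (.p (nat_lit 90) (nat_lit 1) (.n (nat_lit 91) (nat_lit 2) .z))))))))))))))))))))))) (.ct dF3_c4370 (nat_lit 3) (nat_lit 10) (.s false (nat_lit 1) (nat_lit 6) (nat_lit 0) (nat_lit 3) (nat_lit 3) true (nat_lit 3) true (nat_lit 7) true (nat_lit 4) true (nat_lit 10) true (nat_lit 7) (.e false (nat_lit 3) (nat_lit 20) (nat_lit 7) (nat_lit 3) (.e false (nat_lit 3) (nat_lit 32) (nat_lit 3) (nat_lit 7) (.e true (nat_lit 3) (nat_lit 23) (nat_lit 6) (nat_lit 4) (.e true (nat_lit 3) (nat_lit 53) (nat_lit 0) (nat_lit 10) (.e false (nat_lit 3) (nat_lit 54) (nat_lit 0) (nat_lit 10) (.e false (nat_lit 3) (nat_lit 57) (nat_lit 0) (nat_lit 10) (.e false (nat_lit 3) (nat_lit 39) (nat_lit 3) (nat_lit 7) .nil)))))))))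 .leaf)))) (nat_lit 56323) (nat_lit 169) (.p (nat_lit 117) (nat_lit 3) .z) .df (.nd (.nd (.nd (.nd (.nd .leaf (nat_lit 57344) (nat_lit 103) (.p (nat_lit 90) (nat_lit 3) .z) .df .leaf) (nat_lit 57347) (nat_lit 170) (.p (nat_lit 118) (nat_lit 3) .z) .df .leaf) (nat_lit 58368) (nat_lit 108) (.p (nat_lit 67) (nat_lit 1) (.p (nat_lit 68) (nat_lit 1) (.n (nat_lit 69) (nat_lit 1) (.n (nat_lit 70) (nat_lit 2) (.p (nat_lit 71) (nat_lit 1) (.p (nat_lit 72) (nat_lit 1) (.p (nat_lit 74) (nat_lit 1) (.p (nat_lit 75) (nat_lit 3) (.p (nat_lit 76) (nat_lit 1) (.n (nat_lit 77) (nat_lit 3) (.n (nat_lit 78) (nat_lit 2) (.n (nat_lit 79) (nat_lit 1) (.p (nat_lit 81) (nat_lit 3) (.n (nat_lit 82) (nat_lit 3) (.n (nat_lit 83) (nat_lit 1) (.n (nat_lit 84) (nat_lit 3) (.n (nat_lit 85) (nat_lit 1) (.p (nat_lit 86) (nat_lit 1) (.n (nat_lit 87) (nat_lit 2) (.n (nat_lit 88) (nat_lit 2) (.n (nat_lit 89) (nat_lit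 3) (.p (nat_lit 90) (nat_lit 2) (.p (nat_lit 91) (nat_lit 2) .z))))))))))))))))))))))) (.ct dF3_c4370 (nat_lit 3) (nat_lit 10) (.s true (nat_lit 1) (nat_lit 4) (nat_lit 2) (nat_lit 3) (nat_lit 3) true (nat_lit 1) true (nat_lit 7) true (nat_lit 6) true (nat_lit 8) true (nat_lit 7) (.s true (nat_lit 1) (nat_lit 7) (nat_lit 2) (nat_lit 3) (nat_lit 1) true (nat_lit 4) true (nat_lit 9) true (nat_lit 3) true (nat_lit 8) true (nat_lit 7) (.s false (nat_lit 1) (nat_lit 9) (nat_lit 0) (nat_lit 1) (nat_lit 3) true (nat_lit 3) true (nat_lit 7) true (nat_lit 1) true (nat_lit 10) true (nat_lit 9) (.e true (nat_lit 3) (nat_lit 30) (nat_lit 3) (nat_lit 7) (.e false (nat_lit 3) (nat_lit 27) (nat_lit 4) (nat_lit 6) (.e true (nat_lit 3) (nat_lit 42) (nat_lit 2) (nat_lit 8) (.e false (nat_lit 3) (nat_lit 43) (nat_lit 2) (nat_lit 8) (.e true (nat_lit 6) (nat_lit 45) (nat_lit 2) (nat_lit 8) (.e true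 (nat_lit 3) (nat_lit 33) (nat_lit 3) (nat_lit 7) (.e false (nat_lit 3) (nat_lit 23) (nat_lit 6) (nat_lit 4) (.e true (nat_lit 3) (nat_lit 47) (nat_lit 1) (nat_lit 9) (.e true (nat_lit 3) (nat_lit 40) (nat_lit 2) (nat_lit 8) (.e false (nat_lit 3) (nat_lit 44) (nat_lit 2) (nat_lit 8) (.e false (nat_lit 3) (nat_lit 34) (nat_lit 3) (nat_lit 7) (.e false (nat_lit 3) (nat_lit 38) (nat_lit 3) (nat_lit 7) (.e true (nat_lit 3) (nat_lit 52) (nat_lit 0) (nat_lit 10) (.e true (nat_lit 3) (nat_lit 53) (nat_lit 0) (nat_lit 10) (.e false (nat_lit 3) (nat_lit 56) (nat_lit 0) (nat_lit 10) (.e true (nat_lit 3) (nat_lit 51) (nat_lit 1) (nat_lit 9) .nil)))))))))))))))))))) (.nd (.nd .leaf (nat_lit 58371) (nat_lit 171) (.p (nat_lit 119) (nat_lit 3) .z) .df .leaf) (nat_lit 59393) (nat_lit 144) (.p (nat_lit 92) (nat_lit 3) (.p (nat_lit 93) (nat_lit 3) (.n (nat_lit 94) (nat_lit 3) (.n (nat_lit 95) (nat_lit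 3) (.p (nat_lit 98) (nat_lit 3) (.n (nat_lit 101) (nat_lit 3) (.n (nat_lit 102) (nat_lit 3) .z))))))) (.ct dF3_c4355 (nat_lit 3) (nat_lit 5) (.s true (nat_lit 1) (nat_lit 7) (nat_lit 3) (nat_lit 3) (nat_lit 1) true (nat_lit 1) true (nat_lit 5) true (nat_lit 2) true (nat_lit 4) true (nat_lit 4) (.e true (nat_lit 3) (nat_lit 23) (nat_lit 8) (nat_lit 1) (.e true (nat_lit 3) (nat_lit 26) (nat_lit 7) (nat_lit 2) (.e false (nat_lit 3) (nat_lit 40) (nat_lit 3) (nat_lit 4) (.e false (nat_lit 6) (nat_lit 41) (nat_lit 3) (nat_lit 4) (.e true (nat_lit 3) (nat_lit 44) (nat_lit 3) (nat_lit 4) (.e false (nat_lit 3) (nat_lit 45) (nat_lit 3) (nat_lit 4) .nil)))))))) .leaf)) (nat_lit 59394) (nat_lit 164) (.p (nat_lit 103) (nat_lit 3) (.p (nat_lit 104) (nat_lit 3) (.n (nat_lit 105) (nat_lit 3) (.n (nat_lit 106) (nat_lit 3) (.p (nat_lit 109) (nat_lit 3) (.n (nat_lit 112) (nat_lit 3) (.n (nat_lit 113)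 (nat_lit 3) .z))))))) (.ct dF3_c4115 (nat_lit 3) (nat_lit 5) (.s true (nat_lit 1) (nat_lit 7) (nat_lit 3) (nat_lit 3) (nat_lit 2) true (nat_lit 1) true (nat_lit 5) true (nat_lit 2) true (nat_lit 4) true (nat_lit 4) (.e true (nat_lit 3) (nat_lit 23) (nat_lit 9) (nat_lit 1) (.e true (nat_lit 3) (nat_lit 28) (nat_lit 7) (nat_lit 2) (.e false (nat_lit 3) (nat_lit 46) (nat_lit 3) (nat_lit 4) (.e false (nat_lit 6) (nat_lit 47) (nat_lit 3) (nat_lit 4) (.e true (nat_lit 3) (nat_lit 50) (nat_lit 3) (nat_lit 4) (.e false (nat_lit 3) (nat_lit 51) (nat_lit 3) (nat_lit 4) .nil)))))))) (.nd (.nd (.nd .leaf (nat_lit 60417) (nat_lit 132) (.p (nat_lit 98) (nat_lit 3) .z) .df .leaf) (nat_lit 60418) (nat_lit 152) (.p (nat_lit 109) (nat_lit 3) .z) .df .leaf) (nat_lit 61441) (nat_lit 133) (.p (nat_lit 99) (nat_lit 3) .z) .df (.nd (.nd .leaf (nat_lit 61442) (nat_lit 153) (.p (nat_lit 110) (nat_lit 3)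 .z) .df .leaf) (nat_lit 62464) (nat_lit 145) (.n (nat_lit 92) (nat_lit 3) (.n (nat_lit 93) (nat_lit 6) (.p (nat_lit 94) (nat_lit 3) (.n (nat_lit 95) (nat_lit 3) (.n (nat_lit 97) (nat_lit 3) (.p (nat_lit 98) (nat_lit 3) (.p (nat_lit 99) (nat_lit 3) (.p (nat_lit 100) (nat_lit 3) (.p (nat_lit 101) (nat_lit 3) (.n (nat_lit 102) (nat_lit 3) .z)))))))))) (.ct dF3_c4355 (nat_lit 3) (nat_lit 6) (.s true (nat_lit 1) (nat_lit 8) (nat_lit 3) (nat_lit 0) (nat_lit 3) true (nat_lit 0) true (nat_lit 4) true (nat_lit 1) true (nat_lit 4) true (nat_lit 6) (.e false (nat_lit 3) (nat_lit 16) (nat_lit 10) (nat_lit 0) (.e true (nat_lit 6) (nat_lit 45) (nat_lit 3) (nat_lit 4) (.e true (nat_lit 3) (nat_lit 23) (nat_lit 8) (nat_lit 1) (.e true (nat_lit 3) (nat_lit 40) (nat_lit 3) (nat_lit 4) (.e true (nat_lit 3) (nat_lit 41) (nat_lit 3) (nat_lit 4) (.e false (nat_lit 3) (nat_lit 44) (nat_lit 3) (nat_lit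 4) .nil)))))))) .leaf))) (nat_lit 62466) (nat_lit 184) (.p (nat_lit 114) (nat_lit 3) (.p (nat_lit 115) (nat_lit 3) (.n (nat_lit 116) (nat_lit 3) (.n (nat_lit 117) (nat_lit 3) (.p (nat_lit 120) (nat_lit 3) (.n (nat_lit 123) (nat_lit 3) (.n (nat_lit 124) (nat_lit 3) .z))))))) (.ct dF3_c275 (nat_lit 3) (nat_lit 5) (.s true (nat_lit 1) (nat_lit 8) (nat_lit 3) (nat_lit 3) (nat_lit 2) true (nat_lit 1) true (nat_lit 5) true (nat_lit 2) true (nat_lit 4) true (nat_lit 4) (.e true (nat_lit 3) (nat_lit 25) (nat_lit 9) (nat_lit 1) (.e true (nat_lit 3) (nat_lit 28) (nat_lit 8) (nat_lit 2) (.e false (nat_lit 3) (nat_lit 52) (nat_lit 3) (nat_lit 4) (.e false (nat_lit 6) (nat_lit 53) (nat_lit 3) (nat_lit 4) (.e true (nat_lit 3) (nat_lit 56) (nat_lit 3) (nat_lit 4) (.e false (nat_lit 3) (nat_lit 57) (nat_lit 3) (nat_lit 4) .nil)))))))) (.nd (.nd (.nd (.nd .leaf (nat_lit 63488) (nat_lit 134) (.p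 (nat_lit 100) (nat_lit 3) .z) .df .leaf) (nat_lit 63490) (nat_lit 172) (.p (nat_lit 120) (nat_lit 3) .z) .df .leaf) (nat_lit 64512) (nat_lit 138) (.p (nat_lit 93) (nat_lit 3) (.p (nat_lit 94) (nat_lit 3) (.p (nat_lit 95) (nat_lit 3) (.p (nat_lit 97) (nat_lit 3) (.n (nat_lit 98) (nat_lit 3) (.n (nat_lit 99) (nat_lit 3) (.n (nat_lit 100) (nat_lit 3) .z))))))) (.ct dF3_c4355 (nat_lit 3) (nat_lit 6) (.s false (nat_lit 1) (nat_lit 7) (nat_lit 1) (nat_lit 3) (nat_lit 3) true (nat_lit 1) true (nat_lit 4) true (nat_lit 2) true (nat_lit 5) true (nat_lit 4) (.s false (nat_lit 1) (nat_lit 8) (nat_lit 0) (nat_lit 3) (nat_lit 3) true (nat_lit 2) true (nat_lit 4) true (nat_lit 1) true (nat_lit 6) true (nat_lit 4) (.e false (nat_lit 3) (nat_lit 41) (nat_lit 3) (nat_lit 4) (.e true (nat_lit 3) (nat_lit 59) (nat_lit 1) (nat_lit 5) (.e true (nat_lit 3) (nat_lit 60) (nat_lit 1) (nat_lit 5) (.e false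 (nat_lit 3) (nat_lit 43) (nat_lit 3) (nat_lit 4) (.e false (nat_lit 3) (nat_lit 42) (nat_lit 3) (nat_lit 4) (.e true (nat_lit 3) (nat_lit 62) (nat_lit 0) (nat_lit 6) (.e false (nat_lit 3) (nat_lit 45) (nat_lit 3) (nat_lit 4) .nil)))))))))) (.nd (.nd .leaf (nat_lit 64514) (nat_lit 173) (.p (nat_lit 121) (nat_lit 3) .z) .df .leaf) (nat_lit 65536) (nat_lit 165) (.n (nat_lit 103) (nat_lit 3) (.n (nat_lit 104) (nat_lit 6) (.p (nat_lit 105) (nat_lit 3) (.n (nat_lit 106) (nat_lit 3) (.n (nat_lit 108) (nat_lit 3) (.p (nat_lit 109) (nat_lit 3) (.p (nat_lit 110) (nat_lit 3) (.p (nat_lit 111) (nat_lit 3) (.p (nat_lit 112) (nat_lit 3) (.n (nat_lit 113) (nat_lit 3) .z)))))))))) (.ct dF3_c4115 (nat_lit 3) (nat_lit 6) (.s true (nat_lit 1) (nat_lit 9) (nat_lit 3) (nat_lit 0) (nat_lit 3) true (nat_lit 0) true (nat_lit 4) true (nat_lit 1) true (nat_lit 4) true (nat_lit 6) (.e false (nat_lit 3) (nat_lit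 19) (nat_lit 10) (nat_lit 0) (.e true (nat_lit 6) (nat_lit 51) (nat_lit 3) (nat_lit 4) (.e true (nat_lit 3) (nat_lit 23) (nat_lit 9) (nat_lit 1) (.e true (nat_lit 3) (nat_lit 46) (nat_lit 3) (nat_lit 4) (.e true (nat_lit 3) (nat_lit 47) (nat_lit 3) (nat_lit 4) (.e false (nat_lit 3) (nat_lit 50) (nat_lit 3) (nat_lit 4) .nil)))))))) .leaf)) (nat_lit 65537) (nat_lit 185) (.n (nat_lit 114) (nat_lit 3) (.n (nat_lit 115) (nat_lit 6) (.p (nat_lit 116) (nat_lit 3) (.n (nat_lit 117) (nat_lit 3) (.n (nat_lit 119) (nat_lit 3) (.p (nat_lit 120) (nat_lit 3) (.p (nat_lit 121) (nat_lit 3) (.p (nat_lit 122) (nat_lit 3) (.p (nat_lit 123) (nat_lit 3) (.n (nat_lit 124) (nat_lit 3) .z)))))))))) (.ct dF3_c275 (nat_lit 3) (nat_lit 6) (.s true (nat_lit 1) (nat_lit 9) (nat_lit 3) (nat_lit 1) (nat_lit 3) true (nat_lit 0) true (nat_lit 4) true (nat_lit 1) true (nat_lit 4) true (nat_lit 6) (.e false (nat_lit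 3) (nat_lit 22) (nat_lit 10) (nat_lit 0) (.e true (nat_lit 6) (nat_lit 57) (nat_lit 3) (nat_lit 4) (.e true (nat_lit 3) (nat_lit 25) (nat_lit 9) (nat_lit 1) (.e true (nat_lit 3) (nat_lit 52) (nat_lit 3) (nat_lit 4) (.e true (nat_lit 3) (nat_lit 53) (nat_lit 3) (nat_lit 4) (.e false (nat_lit 3) (nat_lit 56) (nat_lit 3) (nat_lit 4) .nil)))))))) (.nd (.nd (.nd .leaf (nat_lit 66560) (nat_lit 154) (.p (nat_lit 111) (nat_lit 3) .z) .df .leaf) (nat_lit 66561) (nat_lit 174) (.p (nat_lit 122) (nat_lit 3) .z) .df .leaf) (nat_lit 67584) (nat_lit 158) (.p (nat_lit 104) (nat_lit 3) (.p (nat_lit 105) (nat_lit 3) (.p (nat_lit 106) (nat_lit 3) (.p (nat_lit 108) (nat_lit 3) (.n (nat_lit 109) (nat_lit 3) (.n (nat_lit 110) (nat_lit 3) (.n (nat_lit 111) (nat_lit 3) .z))))))) (.ct dF3_c4115 (nat_lit 3) (nat_lit 6) (.s false (nat_lit 1) (nat_lit 7) (nat_lit 2) (nat_lit 3) (nat_lit 3) true (nat_lit 1)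 true (nat_lit 4) true (nat_lit 2) true (nat_lit 5) true (nat_lit 4) (.s false (nat_lit 1) (nat_lit 9) (nat_lit 0) (nat_lit 3) (nat_lit 3) true (nat_lit 2) true (nat_lit 4) true (nat_lit 1) true (nat_lit 6) true (nat_lit 4) (.e false (nat_lit 3) (nat_lit 47) (nat_lit 3) (nat_lit 4) (.e true (nat_lit 3) (nat_lit 59) (nat_lit 2) (nat_lit 5) (.e true (nat_lit 3) (nat_lit 60) (nat_lit 2) (nat_lit 5) (.e false (nat_lit 3) (nat_lit 49) (nat_lit 3) (nat_lit 4) (.e false (nat_lit 3) (nat_lit 48) (nat_lit 3) (nat_lit 4) (.e true (nat_lit 3) (nat_lit 65) (nat_lit 0) (nat_lit 6) (.e false (nat_lit 3) (nat_lit 51) (nat_lit 3) (nat_lit 4) .nil)))))))))) (.nd .leaf (nat_lit 67585) (nat_lit 178) (.p (nat_lit 115) (nat_lit 3) (.p (nat_lit 116) (nat_lit 3) (.p (nat_lit 117) (nat_lit 3) (.p (nat_lit 119) (nat_lit 3) (.n (nat_lit 120) (nat_lit 3) (.n (nat_lit 121) (nat_lit 3) (.n (nat_lit 122) (nat_lit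 3) .z))))))) (.ct dF3_c275 (nat_lit 3) (nat_lit 6) (.s false (nat_lit 1) (nat_lit 8) (nat_lit 2) (nat_lit 3) (nat_lit 3) true (nat_lit 1) true (nat_lit 4) true (nat_lit 2) true (nat_lit 5) true (nat_lit 4) (.s false (nat_lit 1) (nat_lit 9) (nat_lit 1) (nat_lit 3) (nat_lit 3) true (nat_lit 2) true (nat_lit 4) true (nat_lit 1) true (nat_lit 6) true (nat_lit 4) (.e false (nat_lit 3) (nat_lit 53) (nat_lit 3) (nat_lit 4) (.e true (nat_lit 3) (nat_lit 62) (nat_lit 2) (nat_lit 5) (.e true (nat_lit 3) (nat_lit 63) (nat_lit 2) (nat_lit 5) (.e false (nat_lit 3) (nat_lit 55) (nat_lit 3) (nat_lit 4) (.e false (nat_lit 3) (nat_lit 54) (nat_lit 3) (nat_lit 4) (.e true (nat_lit 3) (nat_lit 65) (nat_lit 1) (nat_lit 6) (.e false (nat_lit 3) (nat_lit 57) (nat_lit 3) (nat_lit 4) .nil)))))))))) .leaf))))))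

noncomputable def dF3_t2 : Tr := (.nd dF3_t0 (nat_lit 25602) (nat_lit 62) (.p (nat_lit 55) (nat_lit 3) .z) .df dF3_t1)

noncomputable def dF3_cl : CL := (.c (nat_lit 4096) (nat_lit 0) (nat_lit 1) (.c (nat_lit 256) (nat_lit 1) (nat_lit 1) (.c (nat_lit 16) (nat_lit 2) (nat_lit 1) (.c (nat_lit 1) (nat_lit 3) (nat_lit 1) (.c (nat_lit 4352) (nat_lit 4) (nat_lit 1) (.c (nat_lit 4112) (nat_lit 5) (nat_lit 1) (.c (nat_lit 272) (nat_lit 6) (nat_lit 1) (.c (nat_lit 4097) (nat_lit 7) (nat_lit 1) (.c (nat_lit 257) (nat_lit 8) (nat_lit 1) (.c (nat_lit 17) (nat_lit 9) (nat_lit 1) (.c (nat_lit 2) (nat_lit 10) (nat_lit 1) (.c (nat_lit 4368) (nat_lit 11) (nat_lit 3) (.c (nat_lit 4353) (nat_lit 14) (nat_lit 3) (.c (nat_lit 4113) (nat_lit 17) (nat_lit 3) (.c (nat_lit 273) (nat_lit 20) (nat_lit 3) (.c (nat_lit 4098) (nat_lit 23) (nat_lit 2) (.c (nat_lit 258) (nat_lit 25) (nat_lit 2) (.c (nat_lit 18)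 (nat_lit 27) (nat_lit 2) (.c (nat_lit 3) (nat_lit 29) (nat_lit 1) (.c (nat_lit 4369) (nat_lit 30) (nat_lit 10) (.c (nat_lit 4354) (nat_lit 40) (nat_lit 6) (.c (nat_lit 4114) (nat_lit 46) (nat_lit 6) (.c (nat_lit 274) (nat_lit 52) (nat_lit 6) (.c (nat_lit 4099) (nat_lit 58) (nat_lit 3) (.c (nat_lit 259) (nat_lit 61) (nat_lit 3) (.c (nat_lit 19) (nat_lit 64) (nat_lit 3) (.c (nat_lit 4370) (nat_lit 67) (nat_lit 25) (.c (nat_lit 4355) (nat_lit 92) (nat_lit 11) (.c (nat_lit 4115) (nat_lit 103) (nat_lit 11) (.c (nat_lit 275) (nat_lit 114) (nat_lit 11) .nil))))))))))))))))))))))))))))))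

noncomputable def dF3_D : Dt := ⟨(nat_lit 4294967296), (nat_lit 2147483648), (nat_lit 3), (nat_lit 125), (nat_lit 3755689954412647238209937141439420305997146426221747943561029060530951917465695351466262454317412368377218123470770253406967137693293370777175412222027826004768967548124446130048523468977319431487411411150046551132428370971792244419388784595557655645501593590746919943017586262553513206597295821058090152579828224715273978862741479782219946002899913616532394652908613361742742356997190868314940628403948959970819234559555548597123981503727911267601554805029706363759816392854858921956544094626327296772588798096809496985590876989895949828607937862949796491363391136111341674428579667441923244025111845246407976232967190485033500326063785374999087338767274967199106168099033263676200899855819173698927921763470076180365078498915737777023467162779660581614649406736486118218922360712643014875827161154145690606275470393598693253762789886860512298956636233176085178477159077471960479379976048728984256519),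 (nat_lit 42535295860165547923066028141882360712), dF3_t2, dF3_cl⟩

noncomputable def dF3_gs : BL := (.c (nat_lit 23) (nat_lit 2) (nat_lit 20) (nat_lit 3) (nat_lit 0) (.c (nat_lit 25) (nat_lit 2) (nat_lit 17) (nat_lit 3) (nat_lit 6) (.c (nat_lit 27) (nat_lit 2) (nat_lit 14) (nat_lit 3) (nat_lit 12) (.c (nat_lit 29) (nat_lit 1) (nat_lit 11) (nat_lit 3) (nat_lit 18) (.c (nat_lit 30) (nat_lit 10) (nat_lit 10) (nat_lit 1) (nat_lit 21) (.c (nat_lit 40) (nat_lit 6) (nat_lit 9) (nat_lit 1) (nat_lit 31) (.c (nat_lit 46) (nat_lit 6) (nat_lit 8) (nat_lit 1) (nat_lit 37) (.c (nat_lit 52) (nat_lit 6) (nat_lit 7) (nat_lit 1) (nat_lit 43) (.c (nat_lit 58) (nat_lit 3) (nat_lit 6) (nat_lit 1) (nat_lit 49) (.c (nat_lit 61) (nat_lit 3) (nat_lit 5) (nat_lit 1) (nat_lit 52) (.c (nat_lit 64) (nat_lit 3) (nat_lit 4) (nat_lit 1) (nat_lit 55) (.c (nat_lit 67) (nat_lit 25) (nat_lit 3) (nat_lit 1) (nat_lit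 58) (.c (nat_lit 92) (nat_lit 11) (nat_lit 2) (nat_lit 1) (nat_lit 83) (.c (nat_lit 103) (nat_lit 11) (nat_lit 1) (nat_lit 1) (nat_lit 94) (.c (nat_lit 114) (nat_lit 11) (nat_lit 0) (nat_lit 1) (nat_lit 105) .nil)))))))))))))))

noncomputable def dF3_i1 : IL := (.s true (nat_lit 180) (nat_lit 24) (nat_lit 1) (nat_lit 3) (nat_lit 2) true (nat_lit 8) true (nat_lit 12) false (nat_lit 0) true (nat_lit 13) true (nat_lit 11) (.s false (nat_lit 612) (nat_lit 23) (nat_lit 2) (nat_lit 1) (nat_lit 3) true (nat_lit 5) true (nat_lit 11) false (nat_lit 0) true (nat_lit 12) true (nat_lit 13) (.s true (nat_lit 1170) (nat_lit 24) (nat_lit 2) (nat_lit 1) (nat_lit 3) true (nat_lit 5) true (nat_lit 11) false (nat_lit 0) true (nat_lit 12) true (nat_lit 13) (.s true (nat_lit 594) (nat_lit 23) (nat_lit 2) (nat_lit 3) (nat_lit 1) true (nat_lit 8) true (nat_lit 13) false (nat_lit 0) true (nat_lit 12) true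 (nat_lit 11) (.s true (nat_lit 504) (nat_lit 24) (nat_lit 2) (nat_lit 3) (nat_lit 1) true (nat_lit 8) true (nat_lit 13) false (nat_lit 0) true (nat_lit 12) true (nat_lit 11) (.s false (nat_lit 306) (nat_lit 23) (nat_lit 3) (nat_lit 1) (nat_lit 2) true (nat_lit 5) true (nat_lit 12) false (nat_lit 0) true (nat_lit 11) true (nat_lit 13) (.s true (nat_lit 126) (nat_lit 24) (nat_lit 3) (nat_lit 1) (nat_lit 2) true (nat_lit 5) true (nat_lit 12) false (nat_lit 0) true (nat_lit 11) true (nat_lit 13) (.s true (nat_lit 342) (nat_lit 23) (nat_lit 3) (nat_lit 2) (nat_lit 1) true (nat_lit 6) true (nat_lit 13) false (nat_lit 0) true (nat_lit 11) true (nat_lit 12) (.s false (nat_lit 954) (nat_lit 25) (nat_lit 0) (nat_lit 2) (nat_lit 3) true (nat_lit 7) true (nat_lit 11) false (nat_lit 1) true (nat_lit 14) true (nat_lit 12) (.s false (nat_lit 45) (nat_lit 26) (nat_lit 0) (nat_lit 2) (nat_lit 3)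 true (nat_lit 7) true (nat_lit 11) false (nat_lit 1) true (nat_lit 14) true (nat_lit 12) (.s true (nat_lit 36) (nat_lit 25) (nat_lit 2) (nat_lit 0) (nat_lit 3) true (nat_lit 5) true (nat_lit 11) false (nat_lit 1) true (nat_lit 12) true (nat_lit 14) (.s false (nat_lit 18) (nat_lit 25) (nat_lit 2) (nat_lit 3) (nat_lit 0) true (nat_lit 9) true (nat_lit 14) false (nat_lit 1) true (nat_lit 12) true (nat_lit 11) (.s true (nat_lit 324) (nat_lit 26) (nat_lit 2) (nat_lit 3) (nat_lit 0) true (nat_lit 9) true (nat_lit 14) false (nat_lit 1) true (nat_lit 12) true (nat_lit 11) (.s true (nat_lit 756) (nat_lit 25) (nat_lit 3) (nat_lit 0) (nat_lit 2) true (nat_lit 5) true (nat_lit 12) false (nat_lit 1) true (nat_lit 11) true (nat_lit 14) (.s false (nat_lit 126) (nat_lit 27) (nat_lit 0) (nat_lit 3) (nat_lit 1) true (nat_lit 10) true (nat_lit 13) false (nat_lit 2) true (nat_lit 14) true (nat_lit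 11) (.s true (nat_lit 720) (nat_lit 28) (nat_lit 0) (nat_lit 3) (nat_lit 1) true (nat_lit 10) true (nat_lit 13) false (nat_lit 2) true (nat_lit 14) true (nat_lit 11) (.s true (nat_lit 45) (nat_lit 28) (nat_lit 1) (nat_lit 0) (nat_lit 3) true (nat_lit 6) true (nat_lit 11) false (nat_lit 2) true (nat_lit 13) true (nat_lit 14) (.s true (nat_lit 342) (nat_lit 27) (nat_lit 1) (nat_lit 3) (nat_lit 0) true (nat_lit 10) true (nat_lit 14) false (nat_lit 2) true (nat_lit 13) true (nat_lit 11) (.s true (nat_lit 414) (nat_lit 27) (nat_lit 3) (nat_lit 0) (nat_lit 1) true (nat_lit 6) true (nat_lit 13) false (nat_lit 2) true (nat_lit 11) true (nat_lit 14) (.s true (nat_lit 36) (nat_lit 28) (nat_lit 3) (nat_lit 1) (nat_lit 0) true (nat_lit 7) true (nat_lit 14) false (nat_lit 2) true (nat_lit 11) true (nat_lit 13) (.s false (nat_lit 162) (nat_lit 29) (nat_lit 0) (nat_lit 2) (nat_lit 1) true (nat_lit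 10) true (nat_lit 13) false (nat_lit 3) true (nat_lit 14) true (nat_lit 12) (.s false (nat_lit 261) (nat_lit 29) (nat_lit 1) (nat_lit 2) (nat_lit 0) true (nat_lit 10) true (nat_lit 14) false (nat_lit 3) true (nat_lit 13) true (nat_lit 12) (.s true (nat_lit 54) (nat_lit 29) (nat_lit 2) (nat_lit 1) (nat_lit 0) true (nat_lit 9) true (nat_lit 14) false (nat_lit 3) true (nat_lit 12) true (nat_lit 13) (.i true (nat_lit 2) (nat_lit 2) (.c (nat_lit 3) (nat_lit 1) (.c (nat_lit 3) (nat_lit 1) (.c (nat_lit 1) (nat_lit 256) (.c (nat_lit 0) (nat_lit 4096) (.c (nat_lit 2) (nat_lit 16) (.c (nat_lit 3) (nat_lit 1) .nil)))))) (.i true (nat_lit 1) (nat_lit 2) (.c (nat_lit 3) (nat_lit 1) (.c (nat_lit 3) (nat_lit 1) (.c (nat_lit 2) (nat_lit 16) (.c (nat_lit 0) (nat_lit 4096) (.c (nat_lit 1) (nat_lit 256) (.c (nat_lit 3) (nat_lit 1) .nil)))))) .nil)))))))))))))))))))))))))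

noncomputable def dF3_i2 : IL := (.s false (nat_lit 9) (nat_lit 10) (nat_lit 4) (nat_lit 2) (nat_lit 3) true (nat_lit 2) true (nat_lit 11) true (nat_lit 4) true (nat_lit 10) true (nat_lit 12) (.s false (nat_lit 504) (nat_lit 10) (nat_lit 6) (nat_lit 0) (nat_lit 3) true (nat_lit 0) true (nat_lit 11) true (nat_lit 4) true (nat_lit 8) true (nat_lit 14) (.s true (nat_lit 171) (nat_lit 10) (nat_lit 6) (nat_lit 3) (nat_lit 0) true (nat_lit 3) true (nat_lit 14) true (nat_lit 4) true (nat_lit 8) true (nat_lit 11) (.s true (nat_lit 720) (nat_lit 10) (nat_lit 7) (nat_lit 2) (nat_lit 1) true (nat_lit 2) true (nat_lit 13) true (nat_lit 4) true (nat_lit 7) true (nat_lit 12) (.s false (nat_lit 999) (nat_lit 10) (nat_lit 8) (nat_lit 2) (nat_lit 0) true (nat_lit 2) true (nat_lit 14) true (nat_lit 4) true (nat_lit 6) true (nat_lit 12) (.s false (nat_lit 153) (nat_lit 12) (nat_lit 3) (nat_lit 3)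 (nat_lit 3) true (nat_lit 4) true (nat_lit 11) true (nat_lit 3) true (nat_lit 11) true (nat_lit 11) (.s true (nat_lit 486) (nat_lit 13) (nat_lit 3) (nat_lit 3) (nat_lit 3) true (nat_lit 4) true (nat_lit 11) true (nat_lit 3) true (nat_lit 11) true (nat_lit 11) (.s false (nat_lit 747) (nat_lit 14) (nat_lit 2) (nat_lit 3) (nat_lit 3) true (nat_lit 5) true (nat_lit 11) true (nat_lit 2) true (nat_lit 12) true (nat_lit 11) (.s true (nat_lit 864) (nat_lit 15) (nat_lit 2) (nat_lit 3) (nat_lit 3) true (nat_lit 5) true (nat_lit 11) true (nat_lit 2) true (nat_lit 12) true (nat_lit 11) (.s false (nat_lit 36) (nat_lit 16) (nat_lit 2) (nat_lit 3) (nat_lit 3) true (nat_lit 5) true (nat_lit 11) true (nat_lit 2) true (nat_lit 12) true (nat_lit 11) (.s false (nat_lit 603) (nat_lit 14) (nat_lit 3) (nat_lit 2) (nat_lit 3) true (nat_lit 4) true (nat_lit 11) true (nat_lit 2) true (nat_lit 11) true (nat_lit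 12) (.s true (nat_lit 18) (nat_lit 15) (nat_lit 3) (nat_lit 2) (nat_lit 3) true (nat_lit 4) true (nat_lit 11) true (nat_lit 2) true (nat_lit 11) true (nat_lit 12) (.s true (nat_lit 162) (nat_lit 16) (nat_lit 3) (nat_lit 2) (nat_lit 3) true (nat_lit 4) true (nat_lit 11) true (nat_lit 2) true (nat_lit 11) true (nat_lit 12) (.s true (nat_lit 63) (nat_lit 14) (nat_lit 3) (nat_lit 3) (nat_lit 2) true (nat_lit 5) true (nat_lit 12) true (nat_lit 2) true (nat_lit 11) true (nat_lit 11) (.s false (nat_lit 1278) (nat_lit 16) (nat_lit 3) (nat_lit 3) (nat_lit 2) true (nat_lit 5) true (nat_lit 12) true (nat_lit 2) true (nat_lit 11) true (nat_lit 11) (.s false (nat_lit 882) (nat_lit 17) (nat_lit 1) (nat_lit 3) (nat_lit 3) true (nat_lit 6) true (nat_lit 11) true (nat_lit 1) true (nat_lit 13) true (nat_lit 11) (.s false (nat_lit 54) (nat_lit 18) (nat_lit 3) (nat_lit 1) (nat_lit 3) true (nat_lit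 4) true (nat_lit 11) true (nat_lit 1) true (nat_lit 11) true (nat_lit 13) (.s false (nat_lit 432) (nat_lit 19) (nat_lit 3) (nat_lit 3) (nat_lit 1) true (nat_lit 6) true (nat_lit 13) true (nat_lit 1) true (nat_lit 11) true (nat_lit 11) (.s false (nat_lit 342) (nat_lit 20) (nat_lit 0) (nat_lit 3) (nat_lit 3) true (nat_lit 7) true (nat_lit 11) true (nat_lit 0) true (nat_lit 14) true (nat_lit 11) (.s true (nat_lit 324) (nat_lit 21) (nat_lit 0) (nat_lit 3) (nat_lit 3) true (nat_lit 7) true (nat_lit 11) true (nat_lit 0) true (nat_lit 14) true (nat_lit 11) (.s false (nat_lit 414) (nat_lit 22) (nat_lit 0) (nat_lit 3) (nat_lit 3) true (nat_lit 7) true (nat_lit 11) true (nat_lit 0) true (nat_lit 14) true (nat_lit 11) (.s false (nat_lit 1008) (nat_lit 21) (nat_lit 3) (nat_lit 0) (nat_lit 3) true (nat_lit 4) true (nat_lit 11) true (nat_lit 0) true (nat_lit 11) true (nat_lit 14) (.s false (nat_lit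 396) (nat_lit 22) (nat_lit 3) (nat_lit 3) (nat_lit 0) true (nat_lit 7) true (nat_lit 14) true (nat_lit 0) true (nat_lit 11) true (nat_lit 11) (.s true (nat_lit 666) (nat_lit 24) (nat_lit 1) (nat_lit 2) (nat_lit 3) true (nat_lit 6) true (nat_lit 11) false (nat_lit 0) true (nat_lit 13) true (nat_lit 12) (.s true (nat_lit 594) (nat_lit 23) (nat_lit 1) (nat_lit 3) (nat_lit 2) true (nat_lit 8) true (nat_lit 12) false (nat_lit 0) true (nat_lit 13) true (nat_lit 11) dF3_i1)))))))))))))))))))))))))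

noncomputable def dF3_il : IL := (.s true (nat_lit 954) (nat_lit 7) (nat_lit 6) (nat_lit 3) (nat_lit 3) true (nat_lit 0) true (nat_lit 11) true (nat_lit 7) true (nat_lit 8) true (nat_lit 11) (.s false (nat_lit 378) (nat_lit 8) (nat_lit 2) (nat_lit 3) (nat_lit 7) true (nat_lit 1) true (nat_lit 7) true (nat_lit 6) true (nat_lit 12) true (nat_lit 11) (.s true (nat_lit 1368) (nat_lit 8) (nat_lit 2) (nat_lit 7) (nat_lit 3) true (nat_lit 5) true (nat_lit 11) true (nat_lit 6) true (nat_lit 12) true (nat_lit 7) (.s false (nat_lit 1116) (nat_lit 8) (nat_lit 3) (nat_lit 2) (nat_lit 7) false (nat_lit 0) true (nat_lit 7) true (nat_lit 6) true (nat_lit 11) true (nat_lit 12) (.s true (nat_lit 1440) (nat_lit 8) (nat_lit 7) (nat_lit 2) (nat_lit 3) false (nat_lit 0) true (nat_lit 11) true (nat_lit 6) true (nat_lit 7) true (nat_lit 12) (.s true (nat_lit 1296) (nat_lit 8) (nat_lit 7) (nat_lit 3)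 (nat_lit 2) true (nat_lit 1) true (nat_lit 12) true (nat_lit 6) true (nat_lit 7) true (nat_lit 11) (.s false (nat_lit 648) (nat_lit 9) (nat_lit 0) (nat_lit 3) (nat_lit 8) true (nat_lit 2) true (nat_lit 6) true (nat_lit 5) true (nat_lit 14) true (nat_lit 11) (.s true (nat_lit 1602) (nat_lit 9) (nat_lit 1) (nat_lit 3) (nat_lit 7) true (nat_lit 2) true (nat_lit 7) true (nat_lit 5) true (nat_lit 13) true (nat_lit 11) (.s true (nat_lit 1332) (nat_lit 9) (nat_lit 1) (nat_lit 7) (nat_lit 3) true (nat_lit 6) true (nat_lit 11) true (nat_lit 5) true (nat_lit 13) true (nat_lit 7) (.s false (nat_lit 1476) (nat_lit 9) (nat_lit 3) (nat_lit 0) (nat_lit 8) false (nat_lit 1) true (nat_lit 6) true (nat_lit 5) true (nat_lit 11) true (nat_lit 14) (.s true (nat_lit 450) (nat_lit 9) (nat_lit 3) (nat_lit 3) (nat_lit 4) true (nat_lit 2) true (nat_lit 10) true (nat_lit 5) true (nat_lit 11) true (nat_lit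 11) (.s false (nat_lit 36) (nat_lit 9) (nat_lit 4) (nat_lit 3) (nat_lit 3) true (nat_lit 2) true (nat_lit 11) true (nat_lit 5) true (nat_lit 10) true (nat_lit 11) (.s false (nat_lit 882) (nat_lit 9) (nat_lit 7) (nat_lit 1) (nat_lit 3) false (nat_lit 0) true (nat_lit 11) true (nat_lit 5) true (nat_lit 7) true (nat_lit 13) (.s true (nat_lit 1602) (nat_lit 9) (nat_lit 8) (nat_lit 0) (nat_lit 3) false (nat_lit 1) true (nat_lit 11) true (nat_lit 5) true (nat_lit 6) true (nat_lit 14) (.s true (nat_lit 261) (nat_lit 10) (nat_lit 0) (nat_lit 2) (nat_lit 8) true (nat_lit 2) true (nat_lit 6) true (nat_lit 4) true (nat_lit 14) true (nat_lit 12) (.s true (nat_lit 315) (nat_lit 10) (nat_lit 1) (nat_lit 3) (nat_lit 5) true (nat_lit 3) true (nat_lit 9) true (nat_lit 4) true (nat_lit 13) true (nat_lit 11) (.s false (nat_lit 162) (nat_lit 10) (nat_lit 2) (nat_lit 3) (nat_lit 4) true (nat_lit 3)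 true (nat_lit 10) true (nat_lit 4) true (nat_lit 12) true (nat_lit 11) (.s true (nat_lit 603) (nat_lit 10) (nat_lit 2) (nat_lit 7) (nat_lit 1) true (nat_lit 8) true (nat_lit 13) true (nat_lit 4) true (nat_lit 12) true (nat_lit 7) (.s true (nat_lit 45) (nat_lit 10) (nat_lit 3) (nat_lit 1) (nat_lit 5) true (nat_lit 1) true (nat_lit 9) true (nat_lit 4) true (nat_lit 11) true (nat_lit 13) (.s true (nat_lit 594) (nat_lit 10) (nat_lit 3) (nat_lit 4) (nat_lit 2) true (nat_lit 5) true (nat_lit 12) true (nat_lit 4) true (nat_lit 11) true (nat_lit 10) dF3_i2))))))))))))))))))))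

theorem dF3_chk : chk 1 idsV dF3_D par1 (cls1 3) F3Ex (.c (nat_lit 3) (nat_lit 1) (.c (nat_lit 3) (nat_lit 1) (.c (nat_lit 3) (nat_lit 1) (.c (nat_lit 2) (nat_lit 16) (.c (nat_lit 1) (nat_lit 256) (.c (nat_lit 0) (nat_lit 4096) .nil)))))) (nat_lit 186) (nat_lit 4371) (nat_lit 1) dF3_gs dF3_il = true := by
  decide +kernel

end Chk

/-- certificate of `F3Ex` -/
theorem cert_F3Ex : Cert.{u} 1 idsV par1 (cls1 3) F3Ex :=
  Chk.chk_sound _ _ (by simp [idsV]) (by simp [idsV]) _ _ _ _ _ _ _ _ _ _ Chk.dF3_chk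

end Pool.Agent.MalP
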