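import Pool.Agent.MalP.Check4
import Pool.Agent.MalP.Certs

/-! # Certificate of F4Ex -/

set_option autoImplicit false
set_option maxRecDepth 100000

namespace Pool.Agent.MalP

universe u

namespace Chk

noncomputable def dF4_c1118464 : Cm := .mk (nat_lit 75) (nat_lit 1118464) (nat_lit 81) (nat_lit 10) (.c (nat_lit 9) (nat_lit 1) (nat_lit 8) (nat_lit 1) (nat_lit 10) (.c (nat_lit 10) (nat_lit 1) (nat_lit 7) (nat_lit 1) (nat_lit 11) (.c (nat_lit 11) (nat_lit 1) (nat_lit 6) (nat_lit 1) (nat_lit 12) (.c (nat_lit 21) (nat_lit 3) (nat_lit 3) (nat_lit 1) (nat_lit 13) (.c (nat_lit 24) (nat_lit 3) (nat_lit 2) (nat_lit 1) (nat_lit 16) (.c (nat_lit 27) (nat_lit 3) (nat_lit 1) (nat_lit 1) (nat_lit 19) (.c (nat_lit 30) (nat_lit 3) (nat_lit 0) (nat_lit 1) (nat_lit 22) .nil)))))))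

noncomputable def dF4_c1118224 : Cm := .mk (nat_lit 90) (nat_lit 1118224) (nat_lit 91) (nat_lit 10) (.c (nat_lit 12) (nat_lit 1) (nat_lit 8) (nat_lit 1) (nat_lit 10) (.c (nat_lit 13) (nat_lit 1) (nat_lit 7) (nat_lit 1) (nat_lit 11) (.c (nat_lit 14) (nat_lit 1) (nat_lit 6) (nat_lit 1) (nat_lit 12) (.c (nat_lit 21) (nat_lit 3) (nat_lit 4) (nat_lit 1) (nat_lit 13) (.c (nat_lit 33) (nat_lit 3) (nat_lit 2) (nat_lit 1) (nat_lit 16) (.c (nat_lit 36) (nat_lit 3) (nat_lit 1) (nat_lit 1) (nat_lit 19) (.c (nat_lit 39) (nat_lit 3) (nat_lit 0) (nat_lit 1) (nat_lit 22) .nil)))))))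

noncomputable def dF4_c1114384 : Cm := .mk (nat_lit 105) (nat_lit 1114384) (nat_lit 101) (nat_lit 10) (.c (nat_lit 12) (nat_lit 1) (nat_lit 10) (nat_lit 1) (nat_lit 10) (.c (nat_lit 13) (nat_lit 1) (nat_lit 9) (nat_lit 1) (nat_lit 11) (.c (nat_lit 15) (nat_lit 1) (nat_lit 6) (nat_lit 1) (nat_lit 12) (.c (nat_lit 24) (nat_lit 3) (nat_lit 4) (nat_lit 1) (nat_lit 13) (.c (nat_lit 33) (nat_lit 3) (nat_lit 3) (nat_lit 1) (nat_lit 16) (.c (nat_lit 42) (nat_lit 3) (nat_lit 1) (nat_lit 1) (nat_lit 19) (.c (nat_lit 45) (nat_lit 3) (nat_lit 0) (nat_lit 1) (nat_lit 22) .nil)))))))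

noncomputable def dF4_c1052944 : Cm := .mk (nat_lit 120) (nat_lit 1052944) (nat_lit 111) (nat_lit 10) (.c (nat_lit 12) (nat_lit 1) (nat_lit 11) (nat_lit 1) (nat_lit 10) (.c (nat_lit 14) (nat_lit 1) (nat_lit 9) (nat_lit 1) (nat_lit 11) (.c (nat_lit 15) (nat_lit 1) (nat_lit 7) (nat_lit 1) (nat_lit 12) (.c (nat_lit 27) (nat_lit 3) (nat_lit 4) (nat_lit 1) (nat_lit 13) (.c (nat_lit 36) (nat_lit 3) (nat_lit 3) (nat_lit 1) (nat_lit 16) (.c (nat_lit 42) (nat_lit 3) (nat_lit 2) (nat_lit 1) (nat_lit 19) (.c (nat_lit 48) (nat_lit 3) (nat_lit 0) (nat_lit 1) (nat_lit 22) .nil)))))))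

noncomputable def dF4_c69904 : Cm := .mk (nat_lit 135) (nat_lit 69904) (nat_lit 121) (nat_lit 10) (.c (nat_lit 13) (nat_lit 1) (nat_lit 11) (nat_lit 1) (nat_lit 10) (.c (nat_lit 14) (nat_lit 1) (nat_lit 10) (nat_lit 1) (nat_lit 11) (.c (nat_lit 15) (nat_lit 1) (nat_lit 8) (nat_lit 1) (nat_lit 12) (.c (nat_lit 30) (nat_lit 3) (nat_lit 4) (nat_lit 1) (nat_lit 13) (.c (nat_lit 39) (nat_lit 3) (nat_lit 3) (nat_lit 1) (nat_lit 16) (.c (nat_lit 45) (nat_lit 3) (nat_lit 2) (nat_lit 1) (nat_lit 19) (.c (nat_lit 48) (nat_lit 3) (nat_lit 1) (nat_lit 1) (nat_lit 22) .nil)))))))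

noncomputable def dF4_c1118209 : Cm := .mk (nat_lit 150) (nat_lit 1118209) (nat_lit 131) (nat_lit 10) (.c (nat_lit 16) (nat_lit 1) (nat_lit 8) (nat_lit 1) (nat_lit 10) (.c (nat_lit 17) (nat_lit 1) (nat_lit 7) (nat_lit 1) (nat_lit 11) (.c (nat_lit 18) (nat_lit 1) (nat_lit 6) (nat_lit 1) (nat_lit 12) (.c (nat_lit 21) (nat_lit 3) (nat_lit 5) (nat_lit 1) (nat_lit 13) (.c (nat_lit 51) (nat_lit 3) (nat_lit 2) (nat_lit 1) (nat_lit 16) (.c (nat_lit 54) (nat_lit 3) (nat_lit 1) (nat_lit 1) (nat_lit 19) (.c (nat_lit 57) (nat_lit 3) (nat_lit 0) (nat_lit 1) (nat_lit 22) .nil)))))))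

noncomputable def dF4_c1114369 : Cm := .mk (nat_lit 165) (nat_lit 1114369) (nat_lit 141) (nat_lit 10) (.c (nat_lit 16) (nat_lit 1) (nat_lit 10) (nat_lit 1) (nat_lit 10) (.c (nat_lit 17) (nat_lit 1) (nat_lit 9) (nat_lit 1) (nat_lit 11) (.c (nat_lit 19) (nat_lit 1) (nat_lit 6) (nat_lit 1) (nat_lit 12) (.c (nat_lit 24) (nat_lit 3) (nat_lit 5) (nat_lit 1) (nat_lit 13) (.c (nat_lit 51) (nat_lit 3) (nat_lit 3) (nat_lit 1) (nat_lit 16) (.c (nat_lit 60) (nat_lit 3) (nat_lit 1) (nat_lit 1) (nat_lit 19) (.c (nat_lit 63) (nat_lit 3) (nat_lit 0) (nat_lit 1) (nat_lit 22) .nil)))))))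

noncomputable def dF4_c1052929 : Cm := .mk (nat_lit 180) (nat_lit 1052929) (nat_lit 151) (nat_lit 10) (.c (nat_lit 16) (nat_lit 1) (nat_lit 11) (nat_lit 1) (nat_lit 10) (.c (nat_lit 18) (nat_lit 1) (nat_lit 9) (nat_lit 1) (nat_lit 11) (.c (nat_lit 19) (nat_lit 1) (nat_lit 7) (nat_lit 1) (nat_lit 12) (.c (nat_lit 27) (nat_lit 3) (nat_lit 5) (nat_lit 1) (nat_lit 13) (.c (nat_lit 54) (nat_lit 3) (nat_lit 3) (nat_lit 1) (nat_lit 16) (.c (nat_lit 60) (nat_lit 3) (nat_lit 2) (nat_lit 1) (nat_lit 19) (.c (nat_lit 66) (nat_lit 3) (nat_lit 0) (nat_lit 1) (nat_lit 22) .nil)))))))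

noncomputable def dF4_c69889 : Cm := .mk (nat_lit 195) (nat_lit 69889) (nat_lit 161) (nat_lit 10) (.c (nat_lit 17) (nat_lit 1) (nat_lit 11) (nat_lit 1) (nat_lit 10) (.c (nat_lit 18) (nat_lit 1) (nat_lit 10) (nat_lit 1) (nat_lit 11) (.c (nat_lit 19) (nat_lit 1) (nat_lit 8) (nat_lit 1) (nat_lit 12) (.c (nat_lit 30) (nat_lit 3) (nat_lit 5) (nat_lit 1) (nat_lit 13) (.c (nat_lit 57) (nat_lit 3) (nat_lit 3) (nat_lit 1) (nat_lit 16) (.c (nat_lit 63) (nat_lit 3) (nat_lit 2) (nat_lit 1) (nat_lit 19) (.c (nat_lit 66) (nat_lit 3) (nat_lit 1) (nat_lit 1) (nat_lit 22) .nil)))))))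

noncomputable def dF4_c1114129 : Cm := .mk (nat_lit 210) (nat_lit 1114129) (nat_lit 171) (nat_lit 10) (.c (nat_lit 16) (nat_lit 1) (nat_lit 13) (nat_lit 1) (nat_lit 10) (.c (nat_lit 17) (nat_lit 1) (nat_lit 12) (nat_lit 1) (nat_lit 11) (.c (nat_lit 20) (nat_lit 1) (nat_lit 6) (nat_lit 1) (nat_lit 12) (.c (nat_lit 33) (nat_lit 3) (nat_lit 5) (nat_lit 1) (nat_lit 13) (.c (nat_lit 51) (nat_lit 3) (nat_lit 4) (nat_lit 1) (nat_lit 16) (.c (nat_lit 69) (nat_lit 3) (nat_lit 1) (nat_lit 1) (nat_lit 19) (.c (nat_lit 72) (nat_lit 3) (nat_lit 0) (nat_lit 1) (nat_lit 22) .nil)))))))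

noncomputable def dF4_c1052689 : Cm := .mk (nat_lit 225) (nat_lit 1052689) (nat_lit 181) (nat_lit 10) (.c (nat_lit 16) (nat_lit 1) (nat_lit 14) (nat_lit 1) (nat_lit 10) (.c (nat_lit 18) (nat_lit 1) (nat_lit 12) (nat_lit 1) (nat_lit 11) (.c (nat_lit 20) (nat_lit 1) (nat_lit 7) (nat_lit 1) (nat_lit 12) (.c (nat_lit 36) (nat_lit 3) (nat_lit 5) (nat_lit 1) (nat_lit 13) (.c (nat_lit 54) (nat_lit 3) (nat_lit 4) (nat_lit 1) (nat_lit 16) (.c (nat_lit 69) (nat_lit 3) (nat_lit 2) (nat_lit 1) (nat_lit 19) (.c (nat_lit 75) (nat_lit 3) (nat_lit 0) (nat_lit 1) (nat_lit 22) .nil)))))))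

noncomputable def dF4_c69649 : Cm := .mk (nat_lit 240) (nat_lit 69649) (nat_lit 191) (nat_lit 10) (.c (nat_lit 17) (nat_lit 1) (nat_lit 14) (nat_lit 1) (nat_lit 10) (.c (nat_lit 18) (nat_lit 1) (nat_lit 13) (nat_lit 1) (nat_lit 11) (.c (nat_lit 20) (nat_lit 1) (nat_lit 8) (nat_lit 1) (nat_lit 12) (.c (nat_lit 39) (nat_lit 3) (nat_lit 5) (nat_lit 1) (nat_lit 13) (.c (nat_lit 57) (nat_lit 3) (nat_lit 4) (nat_lit 1) (nat_lit 16) (.c (nat_lit 72) (nat_lit 3) (nat_lit 2) (nat_lit 1) (nat_lit 19) (.c (nat_lit 75) (nat_lit 3) (nat_lit 1) (nat_lit 1) (nat_lit 22) .nil)))))))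

noncomputable def dF4_c1048849 : Cm := .mk (nat_lit 255) (nat_lit 1048849) (nat_lit 201) (nat_lit 10) (.c (nat_lit 16) (nat_lit 1) (nat_lit 15) (nat_lit 1) (nat_lit 10) (.c (nat_lit 19) (nat_lit 1) (nat_lit 12) (nat_lit 1) (nat_lit 11) (.c (nat_lit 20) (nat_lit 1) (nat_lit 9) (nat_lit 1) (nat_lit 12) (.c (nat_lit 42) (nat_lit 3) (nat_lit 5) (nat_lit 1) (nat_lit 13) (.c (nat_lit 60) (nat_lit 3) (nat_lit 4) (nat_lit 1) (nat_lit 16) (.c (nat_lit 69) (nat_lit 3) (nat_lit 3) (nat_lit 1) (nat_lit 19) (.c (nat_lit 78) (nat_lit 3) (nat_lit 0) (nat_lit 1) (nat_lit 22) .nil)))))))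

noncomputable def dF4_c65809 : Cm := .mk (nat_lit 270) (nat_lit 65809) (nat_lit 211) (nat_lit 10) (.c (nat_lit 17) (nat_lit 1) (nat_lit 15) (nat_lit 1) (nat_lit 10) (.c (nat_lit 19) (nat_lit 1) (nat_lit 13) (nat_lit 1) (nat_lit 11) (.c (nat_lit 20) (nat_lit 1) (nat_lit 10) (nat_lit 1) (nat_lit 12) (.c (nat_lit 45) (nat_lit 3) (nat_lit 5) (nat_lit 1) (nat_lit 13) (.c (nat_lit 63) (nat_lit 3) (nat_lit 4) (nat_lit 1) (nat_lit 16) (.c (nat_lit 72) (nat_lit 3) (nat_lit 3) (nat_lit 1) (nat_lit 19) (.c (nat_lit 78) (nat_lit 3) (nat_lit 1) (nat_lit 1) (nat_lit 22) .nil)))))))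

noncomputable def dF4_c4369 : Cm := .mk (nat_lit 285) (nat_lit 4369) (nat_lit 221) (nat_lit 10) (.c (nat_lit 18) (nat_lit 1) (nat_lit 15) (nat_lit 1) (nat_lit 10) (.c (nat_lit 19) (nat_lit 1) (nat_lit 14) (nat_lit 1) (nat_lit 11) (.c (nat_lit 20) (nat_lit 1) (nat_lit 11) (nat_lit 1) (nat_lit 12) (.c (nat_lit 48) (nat_lit 3) (nat_lit 5) (nat_lit 1) (nat_lit 13) (.c (nat_lit 66) (nat_lit 3) (nat_lit 4) (nat_lit 1) (nat_lit 16) (.c (nat_lit 75) (nat_lit 3) (nat_lit 3) (nat_lit 1) (nat_lit 19) (.c (nat_lit 78) (nat_lit 3) (nat_lit 2) (nat_lit 1) (nat_lit 22) .nil)))))))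

noncomputable def dF4_c1118480 : Cm := .mk (nat_lit 300) (nat_lit 1118480) (nat_lit 231) (nat_lit 44) (.c (nat_lit 21) (nat_lit 3) (nat_lit 15) (nat_lit 1) (nat_lit 44) (.c (nat_lit 24) (nat_lit 3) (nat_lit 14) (nat_lit 1) (nat_lit 47) (.c (nat_lit 27) (nat_lit 3) (nat_lit 13) (nat_lit 1) (nat_lit 50) (.c (nat_lit 30) (nat_lit 3) (nat_lit 12) (nat_lit 1) (nat_lit 53) (.c (nat_lit 33) (nat_lit 3) (nat_lit 11) (nat_lit 1) (nat_lit 56) (.c (nat_lit 36) (nat_lit 3) (nat_lit 10) (nat_lit 1) (nat_lit 59) (.c (nat_lit 39) (nat_lit 3) (nat_lit 9) (nat_lit 1) (nat_lit 62) (.c (nat_lit 42) (nat_lit 3) (nat_lit 8) (nat_lit 1) (nat_lit 65) (.c (nat_lit 45) (nat_lit 3) (nat_lit 7) (nat_lit 1) (nat_lit 68) (.c (nat_lit 48) (nat_lit 3) (nat_lit 6) (nat_lit 1) (nat_lit 71) (.c (nat_lit 81) (nat_lit 10) (nat_lit 4) (nat_lit 1) (nat_lit 74) (.c (nat_lit 91) (nat_lit 10) (nat_lit 3) (nat_lit 1) (nat_lit 84)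 (.c (nat_lit 101) (nat_lit 10) (nat_lit 2) (nat_lit 1) (nat_lit 94) (.c (nat_lit 111) (nat_lit 10) (nat_lit 1) (nat_lit 1) (nat_lit 104) (.c (nat_lit 121) (nat_lit 10) (nat_lit 0) (nat_lit 1) (nat_lit 114) .nil)))))))))))))))

noncomputable def dF4_c1118465 : Cm := .mk (nat_lit 380) (nat_lit 1118465) (nat_lit 275) (nat_lit 44) (.c (nat_lit 21) (nat_lit 3) (nat_lit 19) (nat_lit 1) (nat_lit 44) (.c (nat_lit 24) (nat_lit 3) (nat_lit 18) (nat_lit 1) (nat_lit 47) (.c (nat_lit 27) (nat_lit 3) (nat_lit 17) (nat_lit 1) (nat_lit 50) (.c (nat_lit 30) (nat_lit 3) (nat_lit 16) (nat_lit 1) (nat_lit 53) (.c (nat_lit 51) (nat_lit 3) (nat_lit 11) (nat_lit 1) (nat_lit 56) (.c (nat_lit 54) (nat_lit 3) (nat_lit 10) (nat_lit 1) (nat_lit 59) (.c (nat_lit 57) (nat_lit 3) (nat_lit 9) (nat_lit 1) (nat_lit 62) (.c (nat_lit 60) (nat_lit 3) (nat_lit 8) (nat_lit 1) (nat_lit 65) (.c (nat_lit 63) (nat_lit 3) (nat_lit 7)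 (nat_lit 1) (nat_lit 68) (.c (nat_lit 66) (nat_lit 3) (nat_lit 6) (nat_lit 1) (nat_lit 71) (.c (nat_lit 81) (nat_lit 10) (nat_lit 5) (nat_lit 1) (nat_lit 74) (.c (nat_lit 131) (nat_lit 10) (nat_lit 3) (nat_lit 1) (nat_lit 84) (.c (nat_lit 141) (nat_lit 10) (nat_lit 2) (nat_lit 1) (nat_lit 94) (.c (nat_lit 151) (nat_lit 10) (nat_lit 1) (nat_lit 1) (nat_lit 104) (.c (nat_lit 161) (nat_lit 10) (nat_lit 0) (nat_lit 1) (nat_lit 114) .nil)))))))))))))))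

noncomputable def dF4_c1118225 : Cm := .mk (nat_lit 459) (nat_lit 1118225) (nat_lit 319) (nat_lit 44) (.c (nat_lit 21) (nat_lit 3) (nat_lit 20) (nat_lit 1) (nat_lit 44) (.c (nat_lit 33) (nat_lit 3) (nat_lit 18) (nat_lit 1) (nat_lit 47) (.c (nat_lit 36) (nat_lit 3) (nat_lit 17) (nat_lit 1) (nat_lit 50) (.c (nat_lit 39) (nat_lit 3) (nat_lit 16) (nat_lit 1) (nat_lit 53) (.c (nat_lit 51) (nat_lit 3) (nat_lit 14) (nat_lit 1) (nat_lit 56) (.c (nat_lit 54) (nat_lit 3) (nat_lit 13) (nat_lit 1) (nat_lit 59) (.c (nat_lit 57) (nat_lit 3) (nat_lit 12) (nat_lit 1) (nat_lit 62) (.c (nat_lit 69) (nat_lit 3) (nat_lit 8) (nat_lit 1) (nat_lit 65) (.c (nat_lit 72) (nat_lit 3) (nat_lit 7) (nat_lit 1) (nat_lit 68) (.c (nat_lit 75) (nat_lit 3) (nat_lit 6) (nat_lit 1) (nat_lit 71) (.c (nat_lit 91) (nat_lit 10) (nat_lit 5) (nat_lit 1) (nat_lit 74) (.c (nat_lit 131) (nat_lit 10) (nat_lit 4) (nat_lit 1) (nat_lit 84)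 (.c (nat_lit 171) (nat_lit 10) (nat_lit 2) (nat_lit 1) (nat_lit 94) (.c (nat_lit 181) (nat_lit 10) (nat_lit 1) (nat_lit 1) (nat_lit 104) (.c (nat_lit 191) (nat_lit 10) (nat_lit 0) (nat_lit 1) (nat_lit 114) .nil)))))))))))))))

noncomputable def dF4_c1114385 : Cm := .mk (nat_lit 538) (nat_lit 1114385) (nat_lit 363) (nat_lit 44) (.c (nat_lit 24) (nat_lit 3) (nat_lit 20) (nat_lit 1) (nat_lit 44) (.c (nat_lit 33) (nat_lit 3) (nat_lit 19) (nat_lit 1) (nat_lit 47) (.c (nat_lit 42) (nat_lit 3) (nat_lit 17) (nat_lit 1) (nat_lit 50) (.c (nat_lit 45) (nat_lit 3) (nat_lit 16) (nat_lit 1) (nat_lit 53) (.c (nat_lit 51) (nat_lit 3) (nat_lit 15) (nat_lit 1) (nat_lit 56) (.c (nat_lit 60) (nat_lit 3) (nat_lit 13) (nat_lit 1) (nat_lit 59) (.c (nat_lit 63) (nat_lit 3) (nat_lit 12) (nat_lit 1) (nat_lit 62) (.c (nat_lit 69) (nat_lit 3) (nat_lit 10) (nat_lit 1) (nat_lit 65) (.c (nat_lit 72) (nat_lit 3) (nat_lit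 9) (nat_lit 1) (nat_lit 68) (.c (nat_lit 78) (nat_lit 3) (nat_lit 6) (nat_lit 1) (nat_lit 71) (.c (nat_lit 101) (nat_lit 10) (nat_lit 5) (nat_lit 1) (nat_lit 74) (.c (nat_lit 141) (nat_lit 10) (nat_lit 4) (nat_lit 1) (nat_lit 84) (.c (nat_lit 171) (nat_lit 10) (nat_lit 3) (nat_lit 1) (nat_lit 94) (.c (nat_lit 201) (nat_lit 10) (nat_lit 1) (nat_lit 1) (nat_lit 104) (.c (nat_lit 211) (nat_lit 10) (nat_lit 0) (nat_lit 1) (nat_lit 114) .nil)))))))))))))))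

noncomputable def dF4_c1052945 : Cm := .mk (nat_lit 616) (nat_lit 1052945) (nat_lit 407) (nat_lit 44) (.c (nat_lit 27) (nat_lit 3) (nat_lit 20) (nat_lit 1) (nat_lit 44) (.c (nat_lit 36) (nat_lit 3) (nat_lit 19) (nat_lit 1) (nat_lit 47) (.c (nat_lit 42) (nat_lit 3) (nat_lit 18) (nat_lit 1) (nat_lit 50) (.c (nat_lit 48) (nat_lit 3) (nat_lit 16) (nat_lit 1) (nat_lit 53) (.c (nat_lit 54) (nat_lit 3) (nat_lit 15) (nat_lit 1) (nat_lit 56) (.c (nat_lit 60) (nat_lit 3) (nat_lit 14) (nat_lit 1) (nat_lit 59) (.c (nat_lit 66) (nat_lit 3) (nat_lit 12) (nat_lit 1) (nat_lit 62) (.c (nat_lit 69) (nat_lit 3) (nat_lit 11) (nat_lit 1) (nat_lit 65) (.c (nat_lit 75) (nat_lit 3) (nat_lit 9) (nat_lit 1) (nat_lit 68) (.c (nat_lit 78) (nat_lit 3) (nat_lit 7) (nat_lit 1) (nat_lit 71) (.c (nat_lit 111) (nat_lit 10) (nat_lit 5) (nat_lit 1) (nat_lit 74) (.c (nat_lit 151) (nat_lit 10) (nat_lit 4) (nat_lit 1) (nat_lit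 84) (.c (nat_lit 181) (nat_lit 10) (nat_lit 3) (nat_lit 1) (nat_lit 94) (.c (nat_lit 201) (nat_lit 10) (nat_lit 2) (nat_lit 1) (nat_lit 104) (.c (nat_lit 221) (nat_lit 10) (nat_lit 0) (nat_lit 1) (nat_lit 114) .nil)))))))))))))))

noncomputable def dF4_c69905 : Cm := .mk (nat_lit 694) (nat_lit 69905) (nat_lit 451) (nat_lit 44) (.c (nat_lit 30) (nat_lit 3) (nat_lit 20) (nat_lit 1) (nat_lit 44) (.c (nat_lit 39) (nat_lit 3) (nat_lit 19) (nat_lit 1) (nat_lit 47) (.c (nat_lit 45) (nat_lit 3) (nat_lit 18) (nat_lit 1) (nat_lit 50) (.c (nat_lit 48) (nat_lit 3) (nat_lit 17) (nat_lit 1) (nat_lit 53) (.c (nat_lit 57) (nat_lit 3) (nat_lit 15) (nat_lit 1) (nat_lit 56) (.c (nat_lit 63) (nat_lit 3) (nat_lit 14) (nat_lit 1) (nat_lit 59) (.c (nat_lit 66) (nat_lit 3) (nat_lit 13) (nat_lit 1) (nat_lit 62) (.c (nat_lit 72) (nat_lit 3) (nat_lit 11) (nat_lit 1) (nat_lit 65) (.c (nat_lit 75) (nat_lit 3) (nat_lit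 10) (nat_lit 1) (nat_lit 68) (.c (nat_lit 78) (nat_lit 3) (nat_lit 8) (nat_lit 1) (nat_lit 71) (.c (nat_lit 121) (nat_lit 10) (nat_lit 5) (nat_lit 1) (nat_lit 74) (.c (nat_lit 161) (nat_lit 10) (nat_lit 4) (nat_lit 1) (nat_lit 84) (.c (nat_lit 191) (nat_lit 10) (nat_lit 3) (nat_lit 1) (nat_lit 94) (.c (nat_lit 211) (nat_lit 10) (nat_lit 2) (nat_lit 1) (nat_lit 104) (.c (nat_lit 221) (nat_lit 10) (nat_lit 1) (nat_lit 1) (nat_lit 114) .nil)))))))))))))))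

noncomputable def dF4_i0 : IL := (.e false (nat_lit 1) (nat_lit 24) (nat_lit 14) (nat_lit 1) (.e true (nat_lit 1) (nat_lit 102) (nat_lit 2) (nat_lit 12) (.e true (nat_lit 1) (nat_lit 106) (nat_lit 2) (nat_lit 12) (.e false (nat_lit 1) (nat_lit 86) (nat_lit 4) (nat_lit 10) (.e true (nat_lit 1) (nat_lit 121) (nat_lit 0) (nat_lit 14) (.e false (nat_lit 1) (nat_lit 113) (nat_lit 1) (nat_lit 13) (.e true (nat_lit 1) (nat_lit 123) (nat_lit 0) (nat_lit 14) (.e true (nat_lit 1) (nat_lit 124) (nat_lit 0) (nat_lit 14) (.e true (nat_lit 1) (nat_lit 126) (nat_lit 0) (nat_lit 14) (.e false (nat_lit 1) (nat_lit 127) (nat_lit 0) (nat_lit 14) (.e false (nat_lit 1) (nat_lit 128) (nat_lit 0) (nat_lit 14) (.e false (nat_lit 1) (nat_lit 83) (nat_lit 4) (nat_lit 10) (.e false (nat_lit 1) (nat_lit 84) (nat_lit 4) (nat_lit 10) (.e false (nat_lit 1) (nat_lit 85) (nat_lit 4) (nat_lit 10) (.e true (nat_lit 1) (nat_lit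 88) (nat_lit 4) (nat_lit 10) (.e true (nat_lit 1) (nat_lit 89) (nat_lit 4) (nat_lit 10) (.e true (nat_lit 1) (nat_lit 90) (nat_lit 4) (nat_lit 10) (.e false (nat_lit 1) (nat_lit 93) (nat_lit 3) (nat_lit 11) (.e false (nat_lit 1) (nat_lit 95) (nat_lit 3) (nat_lit 11) (.e false (nat_lit 1) (nat_lit 96) (nat_lit 3) (nat_lit 11) (.e true (nat_lit 1) (nat_lit 97) (nat_lit 3) (nat_lit 11) (.e true (nat_lit 1) (nat_lit 98) (nat_lit 3) (nat_lit 11) (.e true (nat_lit 1) (nat_lit 99) (nat_lit 3) (nat_lit 11) (.e true (nat_lit 1) (nat_lit 100) (nat_lit 3) (nat_lit 11) (.e false (nat_lit 1) (nat_lit 115) (nat_lit 1) (nat_lit 13) .nil)))))))))))))))))))))))))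

noncomputable def dF4_i1 : IL := (.s false (nat_lit 1) (nat_lit 10) (nat_lit 4) (nat_lit 2) (nat_lit 0) true (nat_lit 3) true (nat_lit 14) true (nat_lit 5) true (nat_lit 10) true (nat_lit 12) (.s false (nat_lit 1) (nat_lit 11) (nat_lit 1) (nat_lit 0) (nat_lit 4) true (nat_lit 2) true (nat_lit 10) true (nat_lit 4) true (nat_lit 13) true (nat_lit 14) (.s false (nat_lit 1) (nat_lit 11) (nat_lit 4) (nat_lit 0) (nat_lit 1) true (nat_lit 2) true (nat_lit 13) true (nat_lit 4) true (nat_lit 10) true (nat_lit 14) (.s true (nat_lit 1) (nat_lit 12) (nat_lit 1) (nat_lit 3) (nat_lit 2) true (nat_lit 7) true (nat_lit 12) true (nat_lit 3) true (nat_lit 13) true (nat_lit 11) (.s false (nat_lit 1) (nat_lit 12) (nat_lit 3) (nat_lit 1) (nat_lit 2) true (nat_lit 4) true (nat_lit 12) true (nat_lit 3) true (nat_lit 11) true (nat_lit 13) (.s true (nat_lit 1) (nat_lit 14) (nat_lit 1) (nat_lit 0) (nat_lit 3) true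 (nat_lit 5) true (nat_lit 11) true (nat_lit 1) true (nat_lit 13) true (nat_lit 14) (.e true (nat_lit 1) (nat_lit 93) (nat_lit 3) (nat_lit 11) (.e false (nat_lit 1) (nat_lit 36) (nat_lit 10) (nat_lit 5) (.e false (nat_lit 1) (nat_lit 121) (nat_lit 0) (nat_lit 14) (.e false (nat_lit 1) (nat_lit 129) (nat_lit 0) (nat_lit 14) (.e false (nat_lit 1) (nat_lit 110) (nat_lit 2) (nat_lit 12) (.e true (nat_lit 1) (nat_lit 103) (nat_lit 2) (nat_lit 12) (.e true (nat_lit 1) (nat_lit 83) (nat_lit 4) (nat_lit 10) (.e true (nat_lit 1) (nat_lit 84) (nat_lit 4) (nat_lit 10) (.e false (nat_lit 1) (nat_lit 33) (nat_lit 11) (nat_lit 4) (.e true (nat_lit 1) (nat_lit 119) (nat_lit 1) (nat_lit 13) (.e false (nat_lit 1) (nat_lit 82) (nat_lit 4) (nat_lit 10) (.e true (nat_lit 1) (nat_lit 105) (nat_lit 2) (nat_lit 12) (.e false (nat_lit 1) (nat_lit 98) (nat_lit 3) (nat_lit 11) (.e false (nat_lit 1) (nat_lit 108) (nat_lit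 2) (nat_lit 12) (.e true (nat_lit 1) (nat_lit 96) (nat_lit 3) (nat_lit 11) (.e false (nat_lit 1) (nat_lit 97) (nat_lit 3) (nat_lit 11) (.e true (nat_lit 1) (nat_lit 91) (nat_lit 3) (nat_lit 11) (.e true (nat_lit 1) (nat_lit 24) (nat_lit 14) (nat_lit 1) (.e true (nat_lit 1) (nat_lit 111) (nat_lit 1) (nat_lit 13) .nil)))))))))))))))))))))))))

noncomputable def dF4_i2 : IL := (.e true (nat_lit 1) (nat_lit 102) (nat_lit 2) (nat_lit 12) (.e true (nat_lit 1) (nat_lit 111) (nat_lit 1) (nat_lit 13) (.e false (nat_lit 1) (nat_lit 115) (nat_lit 1) (nat_lit 13) (.e true (nat_lit 1) (nat_lit 101) (nat_lit 2) (nat_lit 12) (.e false (nat_lit 1) (nat_lit 105) (nat_lit 2) (nat_lit 12) (.e true (nat_lit 1) (nat_lit 109) (nat_lit 2) (nat_lit 12) (.e true (nat_lit 1) (nat_lit 110) (nat_lit 2) (nat_lit 12) (.e false (nat_lit 2) (nat_lit 85) (nat_lit 4) (nat_lit 10) (.e true (nat_lit 1) (nat_lit 81) (nat_lit 4)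 (nat_lit 10) (.e false (nat_lit 1) (nat_lit 83) (nat_lit 4) (nat_lit 10) (.e false (nat_lit 1) (nat_lit 84) (nat_lit 4) (nat_lit 10) (.e true (nat_lit 1) (nat_lit 89) (nat_lit 4) (nat_lit 10) (.e true (nat_lit 1) (nat_lit 90) (nat_lit 4) (nat_lit 10) (.e true (nat_lit 1) (nat_lit 33) (nat_lit 11) (nat_lit 4) (.e true (nat_lit 1) (nat_lit 114) (nat_lit 1) (nat_lit 13) (.e false (nat_lit 1) (nat_lit 128) (nat_lit 0) (nat_lit 14) (.e true (nat_lit 1) (nat_lit 91) (nat_lit 3) (nat_lit 11) (.e false (nat_lit 1) (nat_lit 95) (nat_lit 3) (nat_lit 11) (.e true (nat_lit 2) (nat_lit 99) (nat_lit 3) (nat_lit 11) (.e true (nat_lit 1) (nat_lit 100) (nat_lit 3) (nat_lit 11) (.e true (nat_lit 1) (nat_lit 106) (nat_lit 2) (nat_lit 12) (.e false (nat_lit 1) (nat_lit 24) (nat_lit 14) (nat_lit 1) (.e true (nat_lit 1) (nat_lit 121) (nat_lit 0) (nat_lit 14) (.e false (nat_lit 1) (nat_lit 125) (nat_lit 0) (nat_lit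 14) (.e true (nat_lit 1) (nat_lit 129) (nat_lit 0) (nat_lit 14) .nil)))))))))))))))))))))))))

noncomputable def dF4_i3 : IL := (.e true (nat_lit 1) (nat_lit 102) (nat_lit 2) (nat_lit 12) (.e true (nat_lit 1) (nat_lit 106) (nat_lit 2) (nat_lit 12) (.e false (nat_lit 1) (nat_lit 108) (nat_lit 2) (nat_lit 12) (.e false (nat_lit 1) (nat_lit 110) (nat_lit 2) (nat_lit 12) (.e true (nat_lit 1) (nat_lit 94) (nat_lit 3) (nat_lit 11) (.e false (nat_lit 1) (nat_lit 84) (nat_lit 4) (nat_lit 10) (.e false (nat_lit 1) (nat_lit 100) (nat_lit 3) (nat_lit 11) (.e true (nat_lit 1) (nat_lit 33) (nat_lit 11) (nat_lit 4) (.e false (nat_lit 1) (nat_lit 101) (nat_lit 2) (nat_lit 12) (.e false (nat_lit 1) (nat_lit 86) (nat_lit 4) (nat_lit 10) (.e true (nat_lit 1) (nat_lit 88) (nat_lit 4) (nat_lit 10) (.e true (nat_lit 1) (nat_lit 90) (nat_lit 4) (nat_lit 10) (.e true (nat_lit 1) (nat_lit 36) (nat_lit 10) (nat_lit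 5) (.e true (nat_lit 1) (nat_lit 95) (nat_lit 3) (nat_lit 11) (.e false (nat_lit 1) (nat_lit 99) (nat_lit 3) (nat_lit 11) (.e false (nat_lit 1) (nat_lit 109) (nat_lit 2) (nat_lit 12) (.e false (nat_lit 1) (nat_lit 122) (nat_lit 0) (nat_lit 14) (.e false (nat_lit 1) (nat_lit 126) (nat_lit 0) (nat_lit 14) (.e true (nat_lit 1) (nat_lit 128) (nat_lit 0) (nat_lit 14) (.e true (nat_lit 1) (nat_lit 130) (nat_lit 0) (nat_lit 14) (.e false (nat_lit 1) (nat_lit 113) (nat_lit 1) (nat_lit 13) (.e false (nat_lit 1) (nat_lit 114) (nat_lit 1) (nat_lit 13) (.e false (nat_lit 1) (nat_lit 115) (nat_lit 1) (nat_lit 13) (.e true (nat_lit 1) (nat_lit 119) (nat_lit 1) (nat_lit 13) (.e true (nat_lit 1) (nat_lit 120) (nat_lit 1) (nat_lit 13) .nil)))))))))))))))))))))))))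

noncomputable def dF4_i4 : IL := (.e false (nat_lit 1) (nat_lit 24) (nat_lit 14) (nat_lit 1) (.e false (nat_lit 1) (nat_lit 81) (nat_lit 4) (nat_lit 10) (.e true (nat_lit 1) (nat_lit 102) (nat_lit 2) (nat_lit 12) (.e true (nat_lit 1) (nat_lit 106) (nat_lit 2) (nat_lit 12) (.e false (nat_lit 1) (nat_lit 84) (nat_lit 4) (nat_lit 10) (.e true (nat_lit 1) (nat_lit 92) (nat_lit 3) (nat_lit 11) (.e false (nat_lit 1) (nat_lit 39) (nat_lit 9) (nat_lit 6) (.e false (nat_lit 1) (nat_lit 93) (nat_lit 3) (nat_lit 11) (.e false (nat_lit 1) (nat_lit 95) (nat_lit 3) (nat_lit 11) (.e true (nat_lit 1) (nat_lit 97) (nat_lit 3) (nat_lit 11) (.e true (nat_lit 1) (nat_lit 99) (nat_lit 3) (nat_lit 11) (.e false (nat_lit 1) (nat_lit 83) (nat_lit 4) (nat_lit 10) (.e true (nat_lit 1) (nat_lit 101) (nat_lit 2) (nat_lit 12) (.e false (nat_lit 1) (nat_lit 103) (nat_lit 2) (nat_lit 12) (.e false (nat_lit 1) (nat_lit 105)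 (nat_lit 2) (nat_lit 12) (.e true (nat_lit 1) (nat_lit 109) (nat_lit 2) (nat_lit 12) (.e true (nat_lit 1) (nat_lit 112) (nat_lit 1) (nat_lit 13) (.e false (nat_lit 1) (nat_lit 118) (nat_lit 1) (nat_lit 13) (.e false (nat_lit 1) (nat_lit 120) (nat_lit 1) (nat_lit 13) (.e true (nat_lit 1) (nat_lit 123) (nat_lit 0) (nat_lit 14) (.e true (nat_lit 1) (nat_lit 124) (nat_lit 0) (nat_lit 14) (.e true (nat_lit 1) (nat_lit 125) (nat_lit 0) (nat_lit 14) (.e false (nat_lit 1) (nat_lit 128) (nat_lit 0) (nat_lit 14) (.e false (nat_lit 1) (nat_lit 129) (nat_lit 0) (nat_lit 14) (.e false (nat_lit 1) (nat_lit 130) (nat_lit 0) (nat_lit 14) .nil)))))))))))))))))))))))))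

noncomputable def dF4_i5 : IL := (.s true (nat_lit 1) (nat_lit 9) (nat_lit 4) (nat_lit 1) (nat_lit 2) true (nat_lit 1) true (nat_lit 12) true (nat_lit 6) true (nat_lit 10) true (nat_lit 13) (.s false (nat_lit 1) (nat_lit 11) (nat_lit 1) (nat_lit 0) (nat_lit 4) true (nat_lit 2) true (nat_lit 10) true (nat_lit 4) true (nat_lit 13) true (nat_lit 14) (.s false (nat_lit 1) (nat_lit 13) (nat_lit 2) (nat_lit 3) (nat_lit 0) true (nat_lit 8) true (nat_lit 14) true (nat_lit 2) true (nat_lit 12) true (nat_lit 11) (.s true (nat_lit 1) (nat_lit 13) (nat_lit 3) (nat_lit 2) (nat_lit 0) true (nat_lit 6) true (nat_lit 14) true (nat_lit 2) true (nat_lit 11) true (nat_lit 12) (.e true (nat_lit 1) (nat_lit 36) (nat_lit 10) (nat_lit 5) (.e true (nat_lit 1) (nat_lit 92) (nat_lit 3) (nat_lit 11) (.e true (nat_lit 1) (nat_lit 88) (nat_lit 4) (nat_lit 10) (.e true (nat_lit 1) (nat_lit 39) (nat_lit 9) (nat_lit 6) (.e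 false (nat_lit 1) (nat_lit 86) (nat_lit 4) (nat_lit 10) (.e true (nat_lit 1) (nat_lit 29) (nat_lit 13) (nat_lit 2) (.e false (nat_lit 1) (nat_lit 81) (nat_lit 4) (nat_lit 10) (.e false (nat_lit 1) (nat_lit 33) (nat_lit 11) (nat_lit 4) (.e false (nat_lit 1) (nat_lit 113) (nat_lit 1) (nat_lit 13) (.e false (nat_lit 1) (nat_lit 114) (nat_lit 1) (nat_lit 13) (.e false (nat_lit 1) (nat_lit 115) (nat_lit 1) (nat_lit 13) (.e true (nat_lit 1) (nat_lit 119) (nat_lit 1) (nat_lit 13) (.e true (nat_lit 1) (nat_lit 130) (nat_lit 0) (nat_lit 14) (.e false (nat_lit 1) (nat_lit 125) (nat_lit 0) (nat_lit 14) (.e true (nat_lit 1) (nat_lit 96) (nat_lit 3) (nat_lit 11) (.e true (nat_lit 1) (nat_lit 128) (nat_lit 0) (nat_lit 14) (.e false (nat_lit 1) (nat_lit 91) (nat_lit 3) (nat_lit 11) (.e true (nat_lit 1) (nat_lit 95) (nat_lit 3) (nat_lit 11) (.e false (nat_lit 1) (nat_lit 99) (nat_lit 3) (nat_lit 11) (.e false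 (nat_lit 1) (nat_lit 100) (nat_lit 3) (nat_lit 11) (.e false (nat_lit 1) (nat_lit 106) (nat_lit 2) (nat_lit 12) .nil)))))))))))))))))))))))))

noncomputable def dF4_i6 : IL := (.e false (nat_lit 1) (nat_lit 24) (nat_lit 18) (nat_lit 1) (.e true (nat_lit 1) (nat_lit 142) (nat_lit 2) (nat_lit 12) (.e true (nat_lit 1) (nat_lit 146) (nat_lit 2) (nat_lit 12) (.e false (nat_lit 1) (nat_lit 86) (nat_lit 5) (nat_lit 10) (.e true (nat_lit 1) (nat_lit 161) (nat_lit 0) (nat_lit 14) (.e false (nat_lit 1) (nat_lit 153) (nat_lit 1) (nat_lit 13) (.e true (nat_lit 1) (nat_lit 163) (nat_lit 0) (nat_lit 14) (.e true (nat_lit 1) (nat_lit 164) (nat_lit 0) (nat_lit 14) (.e true (nat_lit 1) (nat_lit 166) (nat_lit 0) (nat_lit 14) (.e false (nat_lit 1) (nat_lit 167) (nat_lit 0) (nat_lit 14) (.e false (nat_lit 1) (nat_lit 168) (nat_lit 0) (nat_lit 14) (.e false (nat_lit 1) (nat_lit 83) (nat_lit 5) (nat_lit 10) (.e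 false (nat_lit 1) (nat_lit 84) (nat_lit 5) (nat_lit 10) (.e false (nat_lit 1) (nat_lit 85) (nat_lit 5) (nat_lit 10) (.e true (nat_lit 1) (nat_lit 88) (nat_lit 5) (nat_lit 10) (.e true (nat_lit 1) (nat_lit 89) (nat_lit 5) (nat_lit 10) (.e true (nat_lit 1) (nat_lit 90) (nat_lit 5) (nat_lit 10) (.e false (nat_lit 1) (nat_lit 133) (nat_lit 3) (nat_lit 11) (.e false (nat_lit 1) (nat_lit 135) (nat_lit 3) (nat_lit 11) (.e false (nat_lit 1) (nat_lit 136) (nat_lit 3) (nat_lit 11) (.e true (nat_lit 1) (nat_lit 137) (nat_lit 3) (nat_lit 11) (.e true (nat_lit 1) (nat_lit 138) (nat_lit 3) (nat_lit 11) (.e true (nat_lit 1) (nat_lit 139) (nat_lit 3) (nat_lit 11) (.e true (nat_lit 1) (nat_lit 140) (nat_lit 3) (nat_lit 11) (.e false (nat_lit 1) (nat_lit 155) (nat_lit 1) (nat_lit 13) .nil)))))))))))))))))))))))))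

noncomputable def dF4_i7 : IL := (.s false (nat_lit 1) (nat_lit 10) (nat_lit 5) (nat_lit 2) (nat_lit 0) true (nat_lit 3) true (nat_lit 14) true (nat_lit 5) true (nat_lit 10) true (nat_lit 12) (.s false (nat_lit 1) (nat_lit 11) (nat_lit 1) (nat_lit 0) (nat_lit 5) true (nat_lit 2) true (nat_lit 10) true (nat_lit 4) true (nat_lit 13) true (nat_lit 14) (.s false (nat_lit 1) (nat_lit 11) (nat_lit 5) (nat_lit 0) (nat_lit 1) true (nat_lit 2) true (nat_lit 13) true (nat_lit 4) true (nat_lit 10) true (nat_lit 14) (.s true (nat_lit 1) (nat_lit 16) (nat_lit 1) (nat_lit 3) (nat_lit 2) true (nat_lit 7) true (nat_lit 12) true (nat_lit 3) true (nat_lit 13) true (nat_lit 11) (.s false (nat_lit 1) (nat_lit 16) (nat_lit 3) (nat_lit 1) (nat_lit 2) true (nat_lit 4) true (nat_lit 12) true (nat_lit 3) true (nat_lit 11) true (nat_lit 13) (.s true (nat_lit 1) (nat_lit 18) (nat_lit 1) (nat_lit 0) (nat_lit 3) true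 (nat_lit 5) true (nat_lit 11) true (nat_lit 1) true (nat_lit 13) true (nat_lit 14) (.e true (nat_lit 1) (nat_lit 133) (nat_lit 3) (nat_lit 11) (.e false (nat_lit 1) (nat_lit 54) (nat_lit 10) (nat_lit 5) (.e false (nat_lit 1) (nat_lit 161) (nat_lit 0) (nat_lit 14) (.e false (nat_lit 1) (nat_lit 169) (nat_lit 0) (nat_lit 14) (.e false (nat_lit 1) (nat_lit 150) (nat_lit 2) (nat_lit 12) (.e true (nat_lit 1) (nat_lit 143) (nat_lit 2) (nat_lit 12) (.e true (nat_lit 1) (nat_lit 83) (nat_lit 5) (nat_lit 10) (.e true (nat_lit 1) (nat_lit 84) (nat_lit 5) (nat_lit 10) (.e false (nat_lit 1) (nat_lit 51) (nat_lit 11) (nat_lit 4) (.e true (nat_lit 1) (nat_lit 159) (nat_lit 1) (nat_lit 13) (.e false (nat_lit 1) (nat_lit 82) (nat_lit 5) (nat_lit 10) (.e true (nat_lit 1) (nat_lit 145) (nat_lit 2) (nat_lit 12) (.e false (nat_lit 1) (nat_lit 138) (nat_lit 3) (nat_lit 11) (.e false (nat_lit 1) (nat_lit 148) (nat_lit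 2) (nat_lit 12) (.e true (nat_lit 1) (nat_lit 136) (nat_lit 3) (nat_lit 11) (.e false (nat_lit 1) (nat_lit 137) (nat_lit 3) (nat_lit 11) (.e true (nat_lit 1) (nat_lit 131) (nat_lit 3) (nat_lit 11) (.e true (nat_lit 1) (nat_lit 24) (nat_lit 18) (nat_lit 1) (.e true (nat_lit 1) (nat_lit 151) (nat_lit 1) (nat_lit 13) .nil)))))))))))))))))))))))))

noncomputable def dF4_i8 : IL := (.e true (nat_lit 1) (nat_lit 142) (nat_lit 2) (nat_lit 12) (.e true (nat_lit 1) (nat_lit 151) (nat_lit 1) (nat_lit 13) (.e false (nat_lit 1) (nat_lit 155) (nat_lit 1) (nat_lit 13) (.e true (nat_lit 1) (nat_lit 141) (nat_lit 2) (nat_lit 12) (.e false (nat_lit 1) (nat_lit 145) (nat_lit 2) (nat_lit 12) (.e true (nat_lit 1) (nat_lit 149) (nat_lit 2) (nat_lit 12) (.e true (nat_lit 1) (nat_lit 150) (nat_lit 2) (nat_lit 12) (.e false (nat_lit 2) (nat_lit 85) (nat_lit 5) (nat_lit 10) (.e true (nat_lit 1) (nat_lit 81) (nat_lit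 5) (nat_lit 10) (.e false (nat_lit 1) (nat_lit 83) (nat_lit 5) (nat_lit 10) (.e false (nat_lit 1) (nat_lit 84) (nat_lit 5) (nat_lit 10) (.e true (nat_lit 1) (nat_lit 89) (nat_lit 5) (nat_lit 10) (.e true (nat_lit 1) (nat_lit 90) (nat_lit 5) (nat_lit 10) (.e true (nat_lit 1) (nat_lit 51) (nat_lit 11) (nat_lit 4) (.e true (nat_lit 1) (nat_lit 154) (nat_lit 1) (nat_lit 13) (.e false (nat_lit 1) (nat_lit 168) (nat_lit 0) (nat_lit 14) (.e true (nat_lit 1) (nat_lit 131) (nat_lit 3) (nat_lit 11) (.e false (nat_lit 1) (nat_lit 135) (nat_lit 3) (nat_lit 11) (.e true (nat_lit 2) (nat_lit 139) (nat_lit 3) (nat_lit 11) (.e true (nat_lit 1) (nat_lit 140) (nat_lit 3) (nat_lit 11) (.e true (nat_lit 1) (nat_lit 146) (nat_lit 2) (nat_lit 12) (.e false (nat_lit 1) (nat_lit 24) (nat_lit 18) (nat_lit 1) (.e true (nat_lit 1) (nat_lit 161) (nat_lit 0) (nat_lit 14) (.e false (nat_lit 1) (nat_lit 165) (nat_lit 0)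 (nat_lit 14) (.e true (nat_lit 1) (nat_lit 169) (nat_lit 0) (nat_lit 14) .nil)))))))))))))))))))))))))

noncomputable def dF4_i9 : IL := (.e true (nat_lit 1) (nat_lit 142) (nat_lit 2) (nat_lit 12) (.e true (nat_lit 1) (nat_lit 146) (nat_lit 2) (nat_lit 12) (.e false (nat_lit 1) (nat_lit 148) (nat_lit 2) (nat_lit 12) (.e false (nat_lit 1) (nat_lit 150) (nat_lit 2) (nat_lit 12) (.e true (nat_lit 1) (nat_lit 134) (nat_lit 3) (nat_lit 11) (.e false (nat_lit 1) (nat_lit 84) (nat_lit 5) (nat_lit 10) (.e false (nat_lit 1) (nat_lit 140) (nat_lit 3) (nat_lit 11) (.e true (nat_lit 1) (nat_lit 51) (nat_lit 11) (nat_lit 4) (.e false (nat_lit 1) (nat_lit 141) (nat_lit 2) (nat_lit 12) (.e false (nat_lit 1) (nat_lit 86) (nat_lit 5) (nat_lit 10) (.e true (nat_lit 1) (nat_lit 88) (nat_lit 5) (nat_lit 10) (.e true (nat_lit 1) (nat_lit 90) (nat_lit 5) (nat_lit 10) (.e true (nat_lit 1) (nat_lit 54) (nat_lit 10)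 (nat_lit 5) (.e true (nat_lit 1) (nat_lit 135) (nat_lit 3) (nat_lit 11) (.e false (nat_lit 1) (nat_lit 139) (nat_lit 3) (nat_lit 11) (.e false (nat_lit 1) (nat_lit 149) (nat_lit 2) (nat_lit 12) (.e false (nat_lit 1) (nat_lit 162) (nat_lit 0) (nat_lit 14) (.e false (nat_lit 1) (nat_lit 166) (nat_lit 0) (nat_lit 14) (.e true (nat_lit 1) (nat_lit 168) (nat_lit 0) (nat_lit 14) (.e true (nat_lit 1) (nat_lit 170) (nat_lit 0) (nat_lit 14) (.e false (nat_lit 1) (nat_lit 153) (nat_lit 1) (nat_lit 13) (.e false (nat_lit 1) (nat_lit 154) (nat_lit 1) (nat_lit 13) (.e false (nat_lit 1) (nat_lit 155) (nat_lit 1) (nat_lit 13) (.e true (nat_lit 1) (nat_lit 159) (nat_lit 1) (nat_lit 13) (.e true (nat_lit 1) (nat_lit 160) (nat_lit 1) (nat_lit 13) .nil)))))))))))))))))))))))))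

noncomputable def dF4_i10 : IL := (.e false (nat_lit 1) (nat_lit 24) (nat_lit 18) (nat_lit 1) (.e false (nat_lit 1) (nat_lit 81) (nat_lit 5) (nat_lit 10) (.e true (nat_lit 1) (nat_lit 142) (nat_lit 2) (nat_lit 12) (.e true (nat_lit 1) (nat_lit 146) (nat_lit 2) (nat_lit 12) (.e false (nat_lit 1) (nat_lit 84) (nat_lit 5) (nat_lit 10) (.e true (nat_lit 1) (nat_lit 132) (nat_lit 3) (nat_lit 11) (.e false (nat_lit 1) (nat_lit 57) (nat_lit 9) (nat_lit 6) (.e false (nat_lit 1) (nat_lit 133) (nat_lit 3) (nat_lit 11) (.e false (nat_lit 1) (nat_lit 135) (nat_lit 3) (nat_lit 11) (.e true (nat_lit 1) (nat_lit 137) (nat_lit 3) (nat_lit 11) (.e true (nat_lit 1) (nat_lit 139) (nat_lit 3) (nat_lit 11) (.e false (nat_lit 1) (nat_lit 83) (nat_lit 5) (nat_lit 10) (.e true (nat_lit 1) (nat_lit 141) (nat_lit 2) (nat_lit 12) (.e false (nat_lit 1) (nat_lit 143) (nat_lit 2) (nat_lit 12) (.e false (nat_lit 1) (nat_lit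 145) (nat_lit 2) (nat_lit 12) (.e true (nat_lit 1) (nat_lit 149) (nat_lit 2) (nat_lit 12) (.e true (nat_lit 1) (nat_lit 152) (nat_lit 1) (nat_lit 13) (.e false (nat_lit 1) (nat_lit 158) (nat_lit 1) (nat_lit 13) (.e false (nat_lit 1) (nat_lit 160) (nat_lit 1) (nat_lit 13) (.e true (nat_lit 1) (nat_lit 163) (nat_lit 0) (nat_lit 14) (.e true (nat_lit 1) (nat_lit 164) (nat_lit 0) (nat_lit 14) (.e true (nat_lit 1) (nat_lit 165) (nat_lit 0) (nat_lit 14) (.e false (nat_lit 1) (nat_lit 168) (nat_lit 0) (nat_lit 14) (.e false (nat_lit 1) (nat_lit 169) (nat_lit 0) (nat_lit 14) (.e false (nat_lit 1) (nat_lit 170) (nat_lit 0) (nat_lit 14) .nil)))))))))))))))))))))))))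

noncomputable def dF4_i11 : IL := (.s true (nat_lit 1) (nat_lit 9) (nat_lit 5) (nat_lit 1) (nat_lit 2) true (nat_lit 1) true (nat_lit 12) true (nat_lit 6) true (nat_lit 10) true (nat_lit 13) (.s false (nat_lit 1) (nat_lit 11) (nat_lit 1) (nat_lit 0) (nat_lit 5) true (nat_lit 2) true (nat_lit 10) true (nat_lit 4) true (nat_lit 13) true (nat_lit 14) (.s false (nat_lit 1) (nat_lit 17) (nat_lit 2) (nat_lit 3) (nat_lit 0) true (nat_lit 8) true (nat_lit 14) true (nat_lit 2) true (nat_lit 12) true (nat_lit 11) (.s true (nat_lit 1) (nat_lit 17) (nat_lit 3) (nat_lit 2) (nat_lit 0) true (nat_lit 6) true (nat_lit 14) true (nat_lit 2) true (nat_lit 11) true (nat_lit 12) (.e true (nat_lit 1) (nat_lit 54) (nat_lit 10) (nat_lit 5) (.e true (nat_lit 1) (nat_lit 132) (nat_lit 3) (nat_lit 11) (.e true (nat_lit 1) (nat_lit 88) (nat_lit 5) (nat_lit 10) (.e true (nat_lit 1) (nat_lit 57) (nat_lit 9) (nat_lit 6)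 (.e false (nat_lit 1) (nat_lit 86) (nat_lit 5) (nat_lit 10) (.e true (nat_lit 1) (nat_lit 29) (nat_lit 17) (nat_lit 2) (.e false (nat_lit 1) (nat_lit 81) (nat_lit 5) (nat_lit 10) (.e false (nat_lit 1) (nat_lit 51) (nat_lit 11) (nat_lit 4) (.e false (nat_lit 1) (nat_lit 153) (nat_lit 1) (nat_lit 13) (.e false (nat_lit 1) (nat_lit 154) (nat_lit 1) (nat_lit 13) (.e false (nat_lit 1) (nat_lit 155) (nat_lit 1) (nat_lit 13) (.e true (nat_lit 1) (nat_lit 159) (nat_lit 1) (nat_lit 13) (.e true (nat_lit 1) (nat_lit 170) (nat_lit 0) (nat_lit 14) (.e false (nat_lit 1) (nat_lit 165) (nat_lit 0) (nat_lit 14) (.e true (nat_lit 1) (nat_lit 136) (nat_lit 3) (nat_lit 11) (.e true (nat_lit 1) (nat_lit 168) (nat_lit 0) (nat_lit 14) (.e false (nat_lit 1) (nat_lit 131) (nat_lit 3) (nat_lit 11) (.e true (nat_lit 1) (nat_lit 135) (nat_lit 3) (nat_lit 11) (.e false (nat_lit 1) (nat_lit 139) (nat_lit 3) (nat_lit 11)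 (.e false (nat_lit 1) (nat_lit 140) (nat_lit 3) (nat_lit 11) (.e false (nat_lit 1) (nat_lit 146) (nat_lit 2) (nat_lit 12) .nil)))))))))))))))))))))))))

noncomputable def dF4_i12 : IL := (.e false (nat_lit 1) (nat_lit 33) (nat_lit 18) (nat_lit 1) (.e true (nat_lit 1) (nat_lit 172) (nat_lit 2) (nat_lit 12) (.e true (nat_lit 1) (nat_lit 176) (nat_lit 2) (nat_lit 12) (.e false (nat_lit 1) (nat_lit 96) (nat_lit 5) (nat_lit 10) (.e true (nat_lit 1) (nat_lit 191) (nat_lit 0) (nat_lit 14) (.e false (nat_lit 1) (nat_lit 183) (nat_lit 1) (nat_lit 13) (.e true (nat_lit 1) (nat_lit 193) (nat_lit 0) (nat_lit 14) (.e true (nat_lit 1) (nat_lit 194) (nat_lit 0) (nat_lit 14) (.e true (nat_lit 1) (nat_lit 196) (nat_lit 0) (nat_lit 14) (.e false (nat_lit 1) (nat_lit 197) (nat_lit 0) (nat_lit 14) (.e false (nat_lit 1) (nat_lit 198) (nat_lit 0) (nat_lit 14) (.e false (nat_lit 1) (nat_lit 93) (nat_lit 5) (nat_lit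 10) (.e false (nat_lit 1) (nat_lit 94) (nat_lit 5) (nat_lit 10) (.e false (nat_lit 1) (nat_lit 95) (nat_lit 5) (nat_lit 10) (.e true (nat_lit 1) (nat_lit 98) (nat_lit 5) (nat_lit 10) (.e true (nat_lit 1) (nat_lit 99) (nat_lit 5) (nat_lit 10) (.e true (nat_lit 1) (nat_lit 100) (nat_lit 5) (nat_lit 10) (.e false (nat_lit 1) (nat_lit 133) (nat_lit 4) (nat_lit 11) (.e false (nat_lit 1) (nat_lit 135) (nat_lit 4) (nat_lit 11) (.e false (nat_lit 1) (nat_lit 136) (nat_lit 4) (nat_lit 11) (.e true (nat_lit 1) (nat_lit 137) (nat_lit 4) (nat_lit 11) (.e true (nat_lit 1) (nat_lit 138) (nat_lit 4) (nat_lit 11) (.e true (nat_lit 1) (nat_lit 139) (nat_lit 4) (nat_lit 11) (.e true (nat_lit 1) (nat_lit 140) (nat_lit 4) (nat_lit 11) (.e false (nat_lit 1) (nat_lit 185) (nat_lit 1) (nat_lit 13) .nil)))))))))))))))))))))))))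

noncomputable def dF4_i13 : IL := (.s false (nat_lit 1) (nat_lit 13) (nat_lit 5) (nat_lit 2) (nat_lit 0) true (nat_lit 3) true (nat_lit 14) true (nat_lit 5) true (nat_lit 10) true (nat_lit 12) (.s false (nat_lit 1) (nat_lit 14) (nat_lit 1) (nat_lit 0) (nat_lit 5) true (nat_lit 2) true (nat_lit 10) true (nat_lit 4) true (nat_lit 13) true (nat_lit 14) (.s false (nat_lit 1) (nat_lit 14) (nat_lit 5) (nat_lit 0) (nat_lit 1) true (nat_lit 2) true (nat_lit 13) true (nat_lit 4) true (nat_lit 10) true (nat_lit 14) (.s true (nat_lit 1) (nat_lit 16) (nat_lit 1) (nat_lit 4) (nat_lit 2) true (nat_lit 7) true (nat_lit 12) true (nat_lit 3) true (nat_lit 13) true (nat_lit 11) (.s false (nat_lit 1) (nat_lit 16) (nat_lit 4) (nat_lit 1) (nat_lit 2) true (nat_lit 4) true (nat_lit 12) true (nat_lit 3) true (nat_lit 11) true (nat_lit 13) (.s true (nat_lit 1) (nat_lit 18) (nat_lit 1) (nat_lit 0) (nat_lit 4) true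 (nat_lit 5) true (nat_lit 11) true (nat_lit 1) true (nat_lit 13) true (nat_lit 14) (.e true (nat_lit 1) (nat_lit 133) (nat_lit 4) (nat_lit 11) (.e false (nat_lit 1) (nat_lit 54) (nat_lit 13) (nat_lit 5) (.e false (nat_lit 1) (nat_lit 191) (nat_lit 0) (nat_lit 14) (.e false (nat_lit 1) (nat_lit 199) (nat_lit 0) (nat_lit 14) (.e false (nat_lit 1) (nat_lit 180) (nat_lit 2) (nat_lit 12) (.e true (nat_lit 1) (nat_lit 173) (nat_lit 2) (nat_lit 12) (.e true (nat_lit 1) (nat_lit 93) (nat_lit 5) (nat_lit 10) (.e true (nat_lit 1) (nat_lit 94) (nat_lit 5) (nat_lit 10) (.e false (nat_lit 1) (nat_lit 51) (nat_lit 14) (nat_lit 4) (.e true (nat_lit 1) (nat_lit 189) (nat_lit 1) (nat_lit 13) (.e false (nat_lit 1) (nat_lit 92) (nat_lit 5) (nat_lit 10) (.e true (nat_lit 1) (nat_lit 175) (nat_lit 2) (nat_lit 12) (.e false (nat_lit 1) (nat_lit 138) (nat_lit 4) (nat_lit 11) (.e false (nat_lit 1) (nat_lit 178) (nat_lit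 2) (nat_lit 12) (.e true (nat_lit 1) (nat_lit 136) (nat_lit 4) (nat_lit 11) (.e false (nat_lit 1) (nat_lit 137) (nat_lit 4) (nat_lit 11) (.e true (nat_lit 1) (nat_lit 131) (nat_lit 4) (nat_lit 11) (.e true (nat_lit 1) (nat_lit 33) (nat_lit 18) (nat_lit 1) (.e true (nat_lit 1) (nat_lit 181) (nat_lit 1) (nat_lit 13) .nil)))))))))))))))))))))))))

noncomputable def dF4_i14 : IL := (.e true (nat_lit 1) (nat_lit 172) (nat_lit 2) (nat_lit 12) (.e true (nat_lit 1) (nat_lit 181) (nat_lit 1) (nat_lit 13) (.e false (nat_lit 1) (nat_lit 185) (nat_lit 1) (nat_lit 13) (.e true (nat_lit 1) (nat_lit 171) (nat_lit 2) (nat_lit 12) (.e false (nat_lit 1) (nat_lit 175) (nat_lit 2) (nat_lit 12) (.e true (nat_lit 1) (nat_lit 179) (nat_lit 2) (nat_lit 12) (.e true (nat_lit 1) (nat_lit 180) (nat_lit 2) (nat_lit 12) (.e false (nat_lit 2) (nat_lit 95) (nat_lit 5) (nat_lit 10) (.e true (nat_lit 1) (nat_lit 91) (nat_lit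 5) (nat_lit 10) (.e false (nat_lit 1) (nat_lit 93) (nat_lit 5) (nat_lit 10) (.e false (nat_lit 1) (nat_lit 94) (nat_lit 5) (nat_lit 10) (.e true (nat_lit 1) (nat_lit 99) (nat_lit 5) (nat_lit 10) (.e true (nat_lit 1) (nat_lit 100) (nat_lit 5) (nat_lit 10) (.e true (nat_lit 1) (nat_lit 51) (nat_lit 14) (nat_lit 4) (.e true (nat_lit 1) (nat_lit 184) (nat_lit 1) (nat_lit 13) (.e false (nat_lit 1) (nat_lit 198) (nat_lit 0) (nat_lit 14) (.e true (nat_lit 1) (nat_lit 131) (nat_lit 4) (nat_lit 11) (.e false (nat_lit 1) (nat_lit 135) (nat_lit 4) (nat_lit 11) (.e true (nat_lit 2) (nat_lit 139) (nat_lit 4) (nat_lit 11) (.e true (nat_lit 1) (nat_lit 140) (nat_lit 4) (nat_lit 11) (.e true (nat_lit 1) (nat_lit 176) (nat_lit 2) (nat_lit 12) (.e false (nat_lit 1) (nat_lit 33) (nat_lit 18) (nat_lit 1) (.e true (nat_lit 1) (nat_lit 191) (nat_lit 0) (nat_lit 14) (.e false (nat_lit 1) (nat_lit 195) (nat_lit 0)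 (nat_lit 14) (.e true (nat_lit 1) (nat_lit 199) (nat_lit 0) (nat_lit 14) .nil)))))))))))))))))))))))))

noncomputable def dF4_i15 : IL := (.e true (nat_lit 1) (nat_lit 172) (nat_lit 2) (nat_lit 12) (.e true (nat_lit 1) (nat_lit 176) (nat_lit 2) (nat_lit 12) (.e false (nat_lit 1) (nat_lit 178) (nat_lit 2) (nat_lit 12) (.e false (nat_lit 1) (nat_lit 180) (nat_lit 2) (nat_lit 12) (.e true (nat_lit 1) (nat_lit 134) (nat_lit 4) (nat_lit 11) (.e false (nat_lit 1) (nat_lit 94) (nat_lit 5) (nat_lit 10) (.e false (nat_lit 1) (nat_lit 140) (nat_lit 4) (nat_lit 11) (.e true (nat_lit 1) (nat_lit 51) (nat_lit 14) (nat_lit 4) (.e false (nat_lit 1) (nat_lit 171) (nat_lit 2) (nat_lit 12) (.e false (nat_lit 1) (nat_lit 96) (nat_lit 5) (nat_lit 10) (.e true (nat_lit 1) (nat_lit 98) (nat_lit 5) (nat_lit 10) (.e true (nat_lit 1) (nat_lit 100) (nat_lit 5) (nat_lit 10) (.e true (nat_lit 1) (nat_lit 54) (nat_lit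 13) (nat_lit 5) (.e true (nat_lit 1) (nat_lit 135) (nat_lit 4) (nat_lit 11) (.e false (nat_lit 1) (nat_lit 139) (nat_lit 4) (nat_lit 11) (.e false (nat_lit 1) (nat_lit 179) (nat_lit 2) (nat_lit 12) (.e false (nat_lit 1) (nat_lit 192) (nat_lit 0) (nat_lit 14) (.e false (nat_lit 1) (nat_lit 196) (nat_lit 0) (nat_lit 14) (.e true (nat_lit 1) (nat_lit 198) (nat_lit 0) (nat_lit 14) (.e true (nat_lit 1) (nat_lit 200) (nat_lit 0) (nat_lit 14) (.e false (nat_lit 1) (nat_lit 183) (nat_lit 1) (nat_lit 13) (.e false (nat_lit 1) (nat_lit 184) (nat_lit 1) (nat_lit 13) (.e false (nat_lit 1) (nat_lit 185) (nat_lit 1) (nat_lit 13) (.e true (nat_lit 1) (nat_lit 189) (nat_lit 1) (nat_lit 13) (.e true (nat_lit 1) (nat_lit 190) (nat_lit 1) (nat_lit 13) .nil)))))))))))))))))))))))))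

noncomputable def dF4_i16 : IL := (.e false (nat_lit 1) (nat_lit 33) (nat_lit 18) (nat_lit 1) (.e false (nat_lit 1) (nat_lit 91) (nat_lit 5) (nat_lit 10) (.e true (nat_lit 1) (nat_lit 172) (nat_lit 2) (nat_lit 12) (.e true (nat_lit 1) (nat_lit 176) (nat_lit 2) (nat_lit 12) (.e false (nat_lit 1) (nat_lit 94) (nat_lit 5) (nat_lit 10) (.e true (nat_lit 1) (nat_lit 132) (nat_lit 4) (nat_lit 11) (.e false (nat_lit 1) (nat_lit 57) (nat_lit 12) (nat_lit 6) (.e false (nat_lit 1) (nat_lit 133) (nat_lit 4) (nat_lit 11) (.e false (nat_lit 1) (nat_lit 135) (nat_lit 4) (nat_lit 11) (.e true (nat_lit 1) (nat_lit 137) (nat_lit 4) (nat_lit 11) (.e true (nat_lit 1) (nat_lit 139) (nat_lit 4) (nat_lit 11) (.e false (nat_lit 1) (nat_lit 93) (nat_lit 5) (nat_lit 10) (.e true (nat_lit 1) (nat_lit 171) (nat_lit 2) (nat_lit 12) (.e false (nat_lit 1) (nat_lit 173) (nat_lit 2) (nat_lit 12) (.e false (nat_lit 1) (nat_lit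 175) (nat_lit 2) (nat_lit 12) (.e true (nat_lit 1) (nat_lit 179) (nat_lit 2) (nat_lit 12) (.e true (nat_lit 1) (nat_lit 182) (nat_lit 1) (nat_lit 13) (.e false (nat_lit 1) (nat_lit 188) (nat_lit 1) (nat_lit 13) (.e false (nat_lit 1) (nat_lit 190) (nat_lit 1) (nat_lit 13) (.e true (nat_lit 1) (nat_lit 193) (nat_lit 0) (nat_lit 14) (.e true (nat_lit 1) (nat_lit 194) (nat_lit 0) (nat_lit 14) (.e true (nat_lit 1) (nat_lit 195) (nat_lit 0) (nat_lit 14) (.e false (nat_lit 1) (nat_lit 198) (nat_lit 0) (nat_lit 14) (.e false (nat_lit 1) (nat_lit 199) (nat_lit 0) (nat_lit 14) (.e false (nat_lit 1) (nat_lit 200) (nat_lit 0) (nat_lit 14) .nil)))))))))))))))))))))))))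

noncomputable def dF4_i17 : IL := (.s true (nat_lit 1) (nat_lit 12) (nat_lit 5) (nat_lit 1) (nat_lit 2) true (nat_lit 1) true (nat_lit 12) true (nat_lit 6) true (nat_lit 10) true (nat_lit 13) (.s false (nat_lit 1) (nat_lit 14) (nat_lit 1) (nat_lit 0) (nat_lit 5) true (nat_lit 2) true (nat_lit 10) true (nat_lit 4) true (nat_lit 13) true (nat_lit 14) (.s false (nat_lit 1) (nat_lit 17) (nat_lit 2) (nat_lit 4) (nat_lit 0) true (nat_lit 8) true (nat_lit 14) true (nat_lit 2) true (nat_lit 12) true (nat_lit 11) (.s true (nat_lit 1) (nat_lit 17) (nat_lit 4) (nat_lit 2) (nat_lit 0) true (nat_lit 6) true (nat_lit 14) true (nat_lit 2) true (nat_lit 11) true (nat_lit 12) (.e true (nat_lit 1) (nat_lit 54) (nat_lit 13) (nat_lit 5) (.e true (nat_lit 1) (nat_lit 132) (nat_lit 4) (nat_lit 11) (.e true (nat_lit 1) (nat_lit 98) (nat_lit 5) (nat_lit 10) (.e true (nat_lit 1) (nat_lit 57) (nat_lit 12) (nat_lit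 6) (.e false (nat_lit 1) (nat_lit 96) (nat_lit 5) (nat_lit 10) (.e true (nat_lit 1) (nat_lit 38) (nat_lit 17) (nat_lit 2) (.e false (nat_lit 1) (nat_lit 91) (nat_lit 5) (nat_lit 10) (.e false (nat_lit 1) (nat_lit 51) (nat_lit 14) (nat_lit 4) (.e false (nat_lit 1) (nat_lit 183) (nat_lit 1) (nat_lit 13) (.e false (nat_lit 1) (nat_lit 184) (nat_lit 1) (nat_lit 13) (.e false (nat_lit 1) (nat_lit 185) (nat_lit 1) (nat_lit 13) (.e true (nat_lit 1) (nat_lit 189) (nat_lit 1) (nat_lit 13) (.e true (nat_lit 1) (nat_lit 200) (nat_lit 0) (nat_lit 14) (.e false (nat_lit 1) (nat_lit 195) (nat_lit 0) (nat_lit 14) (.e true (nat_lit 1) (nat_lit 136) (nat_lit 4) (nat_lit 11) (.e true (nat_lit 1) (nat_lit 198) (nat_lit 0) (nat_lit 14) (.e false (nat_lit 1) (nat_lit 131) (nat_lit 4) (nat_lit 11) (.e true (nat_lit 1) (nat_lit 135) (nat_lit 4) (nat_lit 11) (.e false (nat_lit 1) (nat_lit 139) (nat_lit 4) (nat_lit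 11) (.e false (nat_lit 1) (nat_lit 140) (nat_lit 4) (nat_lit 11) (.e false (nat_lit 1) (nat_lit 176) (nat_lit 2) (nat_lit 12) .nil)))))))))))))))))))))))))

noncomputable def dF4_i18 : IL := (.e false (nat_lit 1) (nat_lit 33) (nat_lit 19) (nat_lit 1) (.e true (nat_lit 1) (nat_lit 172) (nat_lit 3) (nat_lit 12) (.e true (nat_lit 1) (nat_lit 176) (nat_lit 3) (nat_lit 12) (.e false (nat_lit 1) (nat_lit 106) (nat_lit 5) (nat_lit 10) (.e true (nat_lit 1) (nat_lit 211) (nat_lit 0) (nat_lit 14) (.e false (nat_lit 1) (nat_lit 203) (nat_lit 1) (nat_lit 13) (.e true (nat_lit 1) (nat_lit 213) (nat_lit 0) (nat_lit 14) (.e true (nat_lit 1) (nat_lit 214) (nat_lit 0) (nat_lit 14) (.e true (nat_lit 1) (nat_lit 216) (nat_lit 0) (nat_lit 14) (.e false (nat_lit 1) (nat_lit 217) (nat_lit 0) (nat_lit 14) (.e false (nat_lit 1) (nat_lit 218) (nat_lit 0) (nat_lit 14) (.e false (nat_lit 1) (nat_lit 103) (nat_lit 5)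 (nat_lit 10) (.e false (nat_lit 1) (nat_lit 104) (nat_lit 5) (nat_lit 10) (.e false (nat_lit 1) (nat_lit 105) (nat_lit 5) (nat_lit 10) (.e true (nat_lit 1) (nat_lit 108) (nat_lit 5) (nat_lit 10) (.e true (nat_lit 1) (nat_lit 109) (nat_lit 5) (nat_lit 10) (.e true (nat_lit 1) (nat_lit 110) (nat_lit 5) (nat_lit 10) (.e false (nat_lit 1) (nat_lit 143) (nat_lit 4) (nat_lit 11) (.e false (nat_lit 1) (nat_lit 145) (nat_lit 4) (nat_lit 11) (.e false (nat_lit 1) (nat_lit 146) (nat_lit 4) (nat_lit 11) (.e true (nat_lit 1) (nat_lit 147) (nat_lit 4) (nat_lit 11) (.e true (nat_lit 1) (nat_lit 148) (nat_lit 4) (nat_lit 11) (.e true (nat_lit 1) (nat_lit 149) (nat_lit 4) (nat_lit 11) (.e true (nat_lit 1) (nat_lit 150) (nat_lit 4) (nat_lit 11) (.e false (nat_lit 1) (nat_lit 205) (nat_lit 1) (nat_lit 13) .nil)))))))))))))))))))))))))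

noncomputable def dF4_i19 : IL := (.s false (nat_lit 1) (nat_lit 13) (nat_lit 5) (nat_lit 3) (nat_lit 0) true (nat_lit 3) true (nat_lit 14) true (nat_lit 5) true (nat_lit 10) true (nat_lit 12) (.s false (nat_lit 1) (nat_lit 15) (nat_lit 1) (nat_lit 0) (nat_lit 5) true (nat_lit 2) true (nat_lit 10) true (nat_lit 4) true (nat_lit 13) true (nat_lit 14) (.s false (nat_lit 1) (nat_lit 15) (nat_lit 5) (nat_lit 0) (nat_lit 1) true (nat_lit 2) true (nat_lit 13) true (nat_lit 4) true (nat_lit 10) true (nat_lit 14) (.s true (nat_lit 1) (nat_lit 16) (nat_lit 1) (nat_lit 4) (nat_lit 3) true (nat_lit 7) true (nat_lit 12) true (nat_lit 3) true (nat_lit 13) true (nat_lit 11) (.s false (nat_lit 1) (nat_lit 16) (nat_lit 4) (nat_lit 1) (nat_lit 3) true (nat_lit 4) true (nat_lit 12) true (nat_lit 3) true (nat_lit 11) true (nat_lit 13) (.s true (nat_lit 1) (nat_lit 19) (nat_lit 1) (nat_lit 0) (nat_lit 4) true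 (nat_lit 5) true (nat_lit 11) true (nat_lit 1) true (nat_lit 13) true (nat_lit 14) (.e true (nat_lit 1) (nat_lit 143) (nat_lit 4) (nat_lit 11) (.e false (nat_lit 1) (nat_lit 60) (nat_lit 13) (nat_lit 5) (.e false (nat_lit 1) (nat_lit 211) (nat_lit 0) (nat_lit 14) (.e false (nat_lit 1) (nat_lit 219) (nat_lit 0) (nat_lit 14) (.e false (nat_lit 1) (nat_lit 180) (nat_lit 3) (nat_lit 12) (.e true (nat_lit 1) (nat_lit 173) (nat_lit 3) (nat_lit 12) (.e true (nat_lit 1) (nat_lit 103) (nat_lit 5) (nat_lit 10) (.e true (nat_lit 1) (nat_lit 104) (nat_lit 5) (nat_lit 10) (.e false (nat_lit 1) (nat_lit 51) (nat_lit 15) (nat_lit 4) (.e true (nat_lit 1) (nat_lit 209) (nat_lit 1) (nat_lit 13) (.e false (nat_lit 1) (nat_lit 102) (nat_lit 5) (nat_lit 10) (.e true (nat_lit 1) (nat_lit 175) (nat_lit 3) (nat_lit 12) (.e false (nat_lit 1) (nat_lit 148) (nat_lit 4) (nat_lit 11) (.e false (nat_lit 1) (nat_lit 178)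 (nat_lit 3) (nat_lit 12) (.e true (nat_lit 1) (nat_lit 146) (nat_lit 4) (nat_lit 11) (.e false (nat_lit 1) (nat_lit 147) (nat_lit 4) (nat_lit 11) (.e true (nat_lit 1) (nat_lit 141) (nat_lit 4) (nat_lit 11) (.e true (nat_lit 1) (nat_lit 33) (nat_lit 19) (nat_lit 1) (.e true (nat_lit 1) (nat_lit 201) (nat_lit 1) (nat_lit 13) .nil)))))))))))))))))))))))))

noncomputable def dF4_i20 : IL := (.e true (nat_lit 1) (nat_lit 172) (nat_lit 3) (nat_lit 12) (.e true (nat_lit 1) (nat_lit 201) (nat_lit 1) (nat_lit 13) (.e false (nat_lit 1) (nat_lit 205) (nat_lit 1) (nat_lit 13) (.e true (nat_lit 1) (nat_lit 171) (nat_lit 3) (nat_lit 12) (.e false (nat_lit 1) (nat_lit 175) (nat_lit 3) (nat_lit 12) (.e true (nat_lit 1) (nat_lit 179) (nat_lit 3) (nat_lit 12) (.e true (nat_lit 1) (nat_lit 180) (nat_lit 3) (nat_lit 12) (.e false (nat_lit 2) (nat_lit 105) (nat_lit 5) (nat_lit 10) (.e true (nat_lit 1) (nat_lit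 101) (nat_lit 5) (nat_lit 10) (.e false (nat_lit 1) (nat_lit 103) (nat_lit 5) (nat_lit 10) (.e false (nat_lit 1) (nat_lit 104) (nat_lit 5) (nat_lit 10) (.e true (nat_lit 1) (nat_lit 109) (nat_lit 5) (nat_lit 10) (.e true (nat_lit 1) (nat_lit 110) (nat_lit 5) (nat_lit 10) (.e true (nat_lit 1) (nat_lit 51) (nat_lit 15) (nat_lit 4) (.e true (nat_lit 1) (nat_lit 204) (nat_lit 1) (nat_lit 13) (.e false (nat_lit 1) (nat_lit 218) (nat_lit 0) (nat_lit 14) (.e true (nat_lit 1) (nat_lit 141) (nat_lit 4) (nat_lit 11) (.e false (nat_lit 1) (nat_lit 145) (nat_lit 4) (nat_lit 11) (.e true (nat_lit 2) (nat_lit 149) (nat_lit 4) (nat_lit 11) (.e true (nat_lit 1) (nat_lit 150) (nat_lit 4) (nat_lit 11) (.e true (nat_lit 1) (nat_lit 176) (nat_lit 3) (nat_lit 12) (.e false (nat_lit 1) (nat_lit 33) (nat_lit 19) (nat_lit 1) (.e true (nat_lit 1) (nat_lit 211) (nat_lit 0) (nat_lit 14) (.e false (nat_lit 1) (nat_lit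 215) (nat_lit 0) (nat_lit 14) (.e true (nat_lit 1) (nat_lit 219) (nat_lit 0) (nat_lit 14) .nil)))))))))))))))))))))))))

noncomputable def dF4_i21 : IL := (.e true (nat_lit 1) (nat_lit 172) (nat_lit 3) (nat_lit 12) (.e true (nat_lit 1) (nat_lit 176) (nat_lit 3) (nat_lit 12) (.e false (nat_lit 1) (nat_lit 178) (nat_lit 3) (nat_lit 12) (.e false (nat_lit 1) (nat_lit 180) (nat_lit 3) (nat_lit 12) (.e true (nat_lit 1) (nat_lit 144) (nat_lit 4) (nat_lit 11) (.e false (nat_lit 1) (nat_lit 104) (nat_lit 5) (nat_lit 10) (.e false (nat_lit 1) (nat_lit 150) (nat_lit 4) (nat_lit 11) (.e true (nat_lit 1) (nat_lit 51) (nat_lit 15) (nat_lit 4) (.e false (nat_lit 1) (nat_lit 171) (nat_lit 3) (nat_lit 12) (.e false (nat_lit 1) (nat_lit 106) (nat_lit 5) (nat_lit 10) (.e true (nat_lit 1) (nat_lit 108) (nat_lit 5) (nat_lit 10) (.e true (nat_lit 1) (nat_lit 110) (nat_lit 5) (nat_lit 10) (.e true (nat_lit 1) (nat_lit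 60) (nat_lit 13) (nat_lit 5) (.e true (nat_lit 1) (nat_lit 145) (nat_lit 4) (nat_lit 11) (.e false (nat_lit 1) (nat_lit 149) (nat_lit 4) (nat_lit 11) (.e false (nat_lit 1) (nat_lit 179) (nat_lit 3) (nat_lit 12) (.e false (nat_lit 1) (nat_lit 212) (nat_lit 0) (nat_lit 14) (.e false (nat_lit 1) (nat_lit 216) (nat_lit 0) (nat_lit 14) (.e true (nat_lit 1) (nat_lit 218) (nat_lit 0) (nat_lit 14) (.e true (nat_lit 1) (nat_lit 220) (nat_lit 0) (nat_lit 14) (.e false (nat_lit 1) (nat_lit 203) (nat_lit 1) (nat_lit 13) (.e false (nat_lit 1) (nat_lit 204) (nat_lit 1) (nat_lit 13) (.e false (nat_lit 1) (nat_lit 205) (nat_lit 1) (nat_lit 13) (.e true (nat_lit 1) (nat_lit 209) (nat_lit 1) (nat_lit 13) (.e true (nat_lit 1) (nat_lit 210) (nat_lit 1) (nat_lit 13) .nil)))))))))))))))))))))))))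

noncomputable def dF4_i22 : IL := (.e false (nat_lit 1) (nat_lit 33) (nat_lit 19) (nat_lit 1) (.e false (nat_lit 1) (nat_lit 101) (nat_lit 5) (nat_lit 10) (.e true (nat_lit 1) (nat_lit 172) (nat_lit 3) (nat_lit 12) (.e true (nat_lit 1) (nat_lit 176) (nat_lit 3) (nat_lit 12) (.e false (nat_lit 1) (nat_lit 104) (nat_lit 5) (nat_lit 10) (.e true (nat_lit 1) (nat_lit 142) (nat_lit 4) (nat_lit 11) (.e false (nat_lit 1) (nat_lit 63) (nat_lit 12) (nat_lit 6) (.e false (nat_lit 1) (nat_lit 143) (nat_lit 4) (nat_lit 11) (.e false (nat_lit 1) (nat_lit 145) (nat_lit 4) (nat_lit 11) (.e true (nat_lit 1) (nat_lit 147) (nat_lit 4) (nat_lit 11) (.e true (nat_lit 1) (nat_lit 149) (nat_lit 4) (nat_lit 11) (.e false (nat_lit 1) (nat_lit 103) (nat_lit 5) (nat_lit 10) (.e true (nat_lit 1) (nat_lit 171) (nat_lit 3) (nat_lit 12) (.e false (nat_lit 1) (nat_lit 173) (nat_lit 3) (nat_lit 12) (.e false (nat_lit 1)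 (nat_lit 175) (nat_lit 3) (nat_lit 12) (.e true (nat_lit 1) (nat_lit 179) (nat_lit 3) (nat_lit 12) (.e true (nat_lit 1) (nat_lit 202) (nat_lit 1) (nat_lit 13) (.e false (nat_lit 1) (nat_lit 208) (nat_lit 1) (nat_lit 13) (.e false (nat_lit 1) (nat_lit 210) (nat_lit 1) (nat_lit 13) (.e true (nat_lit 1) (nat_lit 213) (nat_lit 0) (nat_lit 14) (.e true (nat_lit 1) (nat_lit 214) (nat_lit 0) (nat_lit 14) (.e true (nat_lit 1) (nat_lit 215) (nat_lit 0) (nat_lit 14) (.e false (nat_lit 1) (nat_lit 218) (nat_lit 0) (nat_lit 14) (.e false (nat_lit 1) (nat_lit 219) (nat_lit 0) (nat_lit 14) (.e false (nat_lit 1) (nat_lit 220) (nat_lit 0) (nat_lit 14) .nil)))))))))))))))))))))))))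

noncomputable def dF4_i23 : IL := (.s true (nat_lit 1) (nat_lit 12) (nat_lit 5) (nat_lit 1) (nat_lit 3) true (nat_lit 1) true (nat_lit 12) true (nat_lit 6) true (nat_lit 10) true (nat_lit 13) (.s false (nat_lit 1) (nat_lit 15) (nat_lit 1) (nat_lit 0) (nat_lit 5) true (nat_lit 2) true (nat_lit 10) true (nat_lit 4) true (nat_lit 13) true (nat_lit 14) (.s false (nat_lit 1) (nat_lit 17) (nat_lit 3) (nat_lit 4) (nat_lit 0) true (nat_lit 8) true (nat_lit 14) true (nat_lit 2) true (nat_lit 12) true (nat_lit 11) (.s true (nat_lit 1) (nat_lit 17) (nat_lit 4) (nat_lit 3) (nat_lit 0) true (nat_lit 6) true (nat_lit 14) true (nat_lit 2) true (nat_lit 11) true (nat_lit 12) (.e true (nat_lit 1) (nat_lit 60) (nat_lit 13) (nat_lit 5) (.e true (nat_lit 1) (nat_lit 142) (nat_lit 4) (nat_lit 11) (.e true (nat_lit 1) (nat_lit 108) (nat_lit 5) (nat_lit 10) (.e true (nat_lit 1) (nat_lit 63) (nat_lit 12) (nat_lit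 6) (.e false (nat_lit 1) (nat_lit 106) (nat_lit 5) (nat_lit 10) (.e true (nat_lit 1) (nat_lit 44) (nat_lit 17) (nat_lit 2) (.e false (nat_lit 1) (nat_lit 101) (nat_lit 5) (nat_lit 10) (.e false (nat_lit 1) (nat_lit 51) (nat_lit 15) (nat_lit 4) (.e false (nat_lit 1) (nat_lit 203) (nat_lit 1) (nat_lit 13) (.e false (nat_lit 1) (nat_lit 204) (nat_lit 1) (nat_lit 13) (.e false (nat_lit 1) (nat_lit 205) (nat_lit 1) (nat_lit 13) (.e true (nat_lit 1) (nat_lit 209) (nat_lit 1) (nat_lit 13) (.e true (nat_lit 1) (nat_lit 220) (nat_lit 0) (nat_lit 14) (.e false (nat_lit 1) (nat_lit 215) (nat_lit 0) (nat_lit 14) (.e true (nat_lit 1) (nat_lit 146) (nat_lit 4) (nat_lit 11) (.e true (nat_lit 1) (nat_lit 218) (nat_lit 0) (nat_lit 14) (.e false (nat_lit 1) (nat_lit 141) (nat_lit 4) (nat_lit 11) (.e true (nat_lit 1) (nat_lit 145) (nat_lit 4) (nat_lit 11) (.e false (nat_lit 1) (nat_lit 149) (nat_lit 4) (nat_lit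 11) (.e false (nat_lit 1) (nat_lit 150) (nat_lit 4) (nat_lit 11) (.e false (nat_lit 1) (nat_lit 176) (nat_lit 3) (nat_lit 12) .nil)))))))))))))))))))))))))

noncomputable def dF4_i24 : IL := (.e false (nat_lit 1) (nat_lit 36) (nat_lit 19) (nat_lit 1) (.e true (nat_lit 1) (nat_lit 182) (nat_lit 3) (nat_lit 12) (.e true (nat_lit 1) (nat_lit 186) (nat_lit 3) (nat_lit 12) (.e false (nat_lit 1) (nat_lit 116) (nat_lit 5) (nat_lit 10) (.e true (nat_lit 1) (nat_lit 221) (nat_lit 0) (nat_lit 14) (.e false (nat_lit 1) (nat_lit 203) (nat_lit 2) (nat_lit 13) (.e true (nat_lit 1) (nat_lit 223) (nat_lit 0) (nat_lit 14) (.e true (nat_lit 1) (nat_lit 224) (nat_lit 0) (nat_lit 14) (.e true (nat_lit 1) (nat_lit 226) (nat_lit 0) (nat_lit 14) (.e false (nat_lit 1) (nat_lit 227) (nat_lit 0) (nat_lit 14) (.e false (nat_lit 1) (nat_lit 228) (nat_lit 0) (nat_lit 14) (.e false (nat_lit 1) (nat_lit 113) (nat_lit 5)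 (nat_lit 10) (.e false (nat_lit 1) (nat_lit 114) (nat_lit 5) (nat_lit 10) (.e false (nat_lit 1) (nat_lit 115) (nat_lit 5) (nat_lit 10) (.e true (nat_lit 1) (nat_lit 118) (nat_lit 5) (nat_lit 10) (.e true (nat_lit 1) (nat_lit 119) (nat_lit 5) (nat_lit 10) (.e true (nat_lit 1) (nat_lit 120) (nat_lit 5) (nat_lit 10) (.e false (nat_lit 1) (nat_lit 153) (nat_lit 4) (nat_lit 11) (.e false (nat_lit 1) (nat_lit 155) (nat_lit 4) (nat_lit 11) (.e false (nat_lit 1) (nat_lit 156) (nat_lit 4) (nat_lit 11) (.e true (nat_lit 1) (nat_lit 157) (nat_lit 4) (nat_lit 11) (.e true (nat_lit 1) (nat_lit 158) (nat_lit 4) (nat_lit 11) (.e true (nat_lit 1) (nat_lit 159) (nat_lit 4) (nat_lit 11) (.e true (nat_lit 1) (nat_lit 160) (nat_lit 4) (nat_lit 11) (.e false (nat_lit 1) (nat_lit 205) (nat_lit 2) (nat_lit 13) .nil)))))))))))))))))))))))))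

noncomputable def dF4_i25 : IL := (.s false (nat_lit 1) (nat_lit 14) (nat_lit 5) (nat_lit 3) (nat_lit 0) true (nat_lit 3) true (nat_lit 14) true (nat_lit 5) true (nat_lit 10) true (nat_lit 12) (.s false (nat_lit 1) (nat_lit 15) (nat_lit 2) (nat_lit 0) (nat_lit 5) true (nat_lit 2) true (nat_lit 10) true (nat_lit 4) true (nat_lit 13) true (nat_lit 14) (.s false (nat_lit 1) (nat_lit 15) (nat_lit 5) (nat_lit 0) (nat_lit 2) true (nat_lit 2) true (nat_lit 13) true (nat_lit 4) true (nat_lit 10) true (nat_lit 14) (.s true (nat_lit 1) (nat_lit 16) (nat_lit 2) (nat_lit 4) (nat_lit 3) true (nat_lit 7) true (nat_lit 12) true (nat_lit 3) true (nat_lit 13) true (nat_lit 11) (.s false (nat_lit 1) (nat_lit 16) (nat_lit 4) (nat_lit 2) (nat_lit 3) true (nat_lit 4) true (nat_lit 12) true (nat_lit 3) true (nat_lit 11) true (nat_lit 13) (.s true (nat_lit 1) (nat_lit 19) (nat_lit 2) (nat_lit 0) (nat_lit 4) true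 (nat_lit 5) true (nat_lit 11) true (nat_lit 1) true (nat_lit 13) true (nat_lit 14) (.e true (nat_lit 1) (nat_lit 153) (nat_lit 4) (nat_lit 11) (.e false (nat_lit 1) (nat_lit 60) (nat_lit 14) (nat_lit 5) (.e false (nat_lit 1) (nat_lit 221) (nat_lit 0) (nat_lit 14) (.e false (nat_lit 1) (nat_lit 229) (nat_lit 0) (nat_lit 14) (.e false (nat_lit 1) (nat_lit 190) (nat_lit 3) (nat_lit 12) (.e true (nat_lit 1) (nat_lit 183) (nat_lit 3) (nat_lit 12) (.e true (nat_lit 1) (nat_lit 113) (nat_lit 5) (nat_lit 10) (.e true (nat_lit 1) (nat_lit 114) (nat_lit 5) (nat_lit 10) (.e false (nat_lit 1) (nat_lit 54) (nat_lit 15) (nat_lit 4) (.e true (nat_lit 1) (nat_lit 209) (nat_lit 2) (nat_lit 13) (.e false (nat_lit 1) (nat_lit 112) (nat_lit 5) (nat_lit 10) (.e true (nat_lit 1) (nat_lit 185) (nat_lit 3) (nat_lit 12) (.e false (nat_lit 1) (nat_lit 158) (nat_lit 4) (nat_lit 11) (.e false (nat_lit 1) (nat_lit 188)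 (nat_lit 3) (nat_lit 12) (.e true (nat_lit 1) (nat_lit 156) (nat_lit 4) (nat_lit 11) (.e false (nat_lit 1) (nat_lit 157) (nat_lit 4) (nat_lit 11) (.e true (nat_lit 1) (nat_lit 151) (nat_lit 4) (nat_lit 11) (.e true (nat_lit 1) (nat_lit 36) (nat_lit 19) (nat_lit 1) (.e true (nat_lit 1) (nat_lit 201) (nat_lit 2) (nat_lit 13) .nil)))))))))))))))))))))))))

noncomputable def dF4_i26 : IL := (.e true (nat_lit 1) (nat_lit 182) (nat_lit 3) (nat_lit 12) (.e true (nat_lit 1) (nat_lit 201) (nat_lit 2) (nat_lit 13) (.e false (nat_lit 1) (nat_lit 205) (nat_lit 2) (nat_lit 13) (.e true (nat_lit 1) (nat_lit 181) (nat_lit 3) (nat_lit 12) (.e false (nat_lit 1) (nat_lit 185) (nat_lit 3) (nat_lit 12) (.e true (nat_lit 1) (nat_lit 189) (nat_lit 3) (nat_lit 12) (.e true (nat_lit 1) (nat_lit 190) (nat_lit 3) (nat_lit 12) (.e false (nat_lit 2) (nat_lit 115) (nat_lit 5) (nat_lit 10) (.e true (nat_lit 1) (nat_lit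 111) (nat_lit 5) (nat_lit 10) (.e false (nat_lit 1) (nat_lit 113) (nat_lit 5) (nat_lit 10) (.e false (nat_lit 1) (nat_lit 114) (nat_lit 5) (nat_lit 10) (.e true (nat_lit 1) (nat_lit 119) (nat_lit 5) (nat_lit 10) (.e true (nat_lit 1) (nat_lit 120) (nat_lit 5) (nat_lit 10) (.e true (nat_lit 1) (nat_lit 54) (nat_lit 15) (nat_lit 4) (.e true (nat_lit 1) (nat_lit 204) (nat_lit 2) (nat_lit 13) (.e false (nat_lit 1) (nat_lit 228) (nat_lit 0) (nat_lit 14) (.e true (nat_lit 1) (nat_lit 151) (nat_lit 4) (nat_lit 11) (.e false (nat_lit 1) (nat_lit 155) (nat_lit 4) (nat_lit 11) (.e true (nat_lit 2) (nat_lit 159) (nat_lit 4) (nat_lit 11) (.e true (nat_lit 1) (nat_lit 160) (nat_lit 4) (nat_lit 11) (.e true (nat_lit 1) (nat_lit 186) (nat_lit 3) (nat_lit 12) (.e false (nat_lit 1) (nat_lit 36) (nat_lit 19) (nat_lit 1) (.e true (nat_lit 1) (nat_lit 221) (nat_lit 0) (nat_lit 14) (.e false (nat_lit 1) (nat_lit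 225) (nat_lit 0) (nat_lit 14) (.e true (nat_lit 1) (nat_lit 229) (nat_lit 0) (nat_lit 14) .nil)))))))))))))))))))))))))

noncomputable def dF4_i27 : IL := (.e true (nat_lit 1) (nat_lit 182) (nat_lit 3) (nat_lit 12) (.e true (nat_lit 1) (nat_lit 186) (nat_lit 3) (nat_lit 12) (.e false (nat_lit 1) (nat_lit 188) (nat_lit 3) (nat_lit 12) (.e false (nat_lit 1) (nat_lit 190) (nat_lit 3) (nat_lit 12) (.e true (nat_lit 1) (nat_lit 154) (nat_lit 4) (nat_lit 11) (.e false (nat_lit 1) (nat_lit 114) (nat_lit 5) (nat_lit 10) (.e false (nat_lit 1) (nat_lit 160) (nat_lit 4) (nat_lit 11) (.e true (nat_lit 1) (nat_lit 54) (nat_lit 15) (nat_lit 4) (.e false (nat_lit 1) (nat_lit 181) (nat_lit 3) (nat_lit 12) (.e false (nat_lit 1) (nat_lit 116) (nat_lit 5) (nat_lit 10) (.e true (nat_lit 1) (nat_lit 118) (nat_lit 5) (nat_lit 10) (.e true (nat_lit 1) (nat_lit 120) (nat_lit 5) (nat_lit 10) (.e true (nat_lit 1) (nat_lit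 60) (nat_lit 14) (nat_lit 5) (.e true (nat_lit 1) (nat_lit 155) (nat_lit 4) (nat_lit 11) (.e false (nat_lit 1) (nat_lit 159) (nat_lit 4) (nat_lit 11) (.e false (nat_lit 1) (nat_lit 189) (nat_lit 3) (nat_lit 12) (.e false (nat_lit 1) (nat_lit 222) (nat_lit 0) (nat_lit 14) (.e false (nat_lit 1) (nat_lit 226) (nat_lit 0) (nat_lit 14) (.e true (nat_lit 1) (nat_lit 228) (nat_lit 0) (nat_lit 14) (.e true (nat_lit 1) (nat_lit 230) (nat_lit 0) (nat_lit 14) (.e false (nat_lit 1) (nat_lit 203) (nat_lit 2) (nat_lit 13) (.e false (nat_lit 1) (nat_lit 204) (nat_lit 2) (nat_lit 13) (.e false (nat_lit 1) (nat_lit 205) (nat_lit 2) (nat_lit 13) (.e true (nat_lit 1) (nat_lit 209) (nat_lit 2) (nat_lit 13) (.e true (nat_lit 1) (nat_lit 210) (nat_lit 2) (nat_lit 13) .nil)))))))))))))))))))))))))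

noncomputable def dF4_i28 : IL := (.e false (nat_lit 1) (nat_lit 36) (nat_lit 19) (nat_lit 1) (.e false (nat_lit 1) (nat_lit 111) (nat_lit 5) (nat_lit 10) (.e true (nat_lit 1) (nat_lit 182) (nat_lit 3) (nat_lit 12) (.e true (nat_lit 1) (nat_lit 186) (nat_lit 3) (nat_lit 12) (.e false (nat_lit 1) (nat_lit 114) (nat_lit 5) (nat_lit 10) (.e true (nat_lit 1) (nat_lit 152) (nat_lit 4) (nat_lit 11) (.e false (nat_lit 1) (nat_lit 66) (nat_lit 12) (nat_lit 6) (.e false (nat_lit 1) (nat_lit 153) (nat_lit 4) (nat_lit 11) (.e false (nat_lit 1) (nat_lit 155) (nat_lit 4) (nat_lit 11) (.e true (nat_lit 1) (nat_lit 157) (nat_lit 4) (nat_lit 11) (.e true (nat_lit 1) (nat_lit 159) (nat_lit 4) (nat_lit 11) (.e false (nat_lit 1) (nat_lit 113) (nat_lit 5) (nat_lit 10) (.e true (nat_lit 1) (nat_lit 181) (nat_lit 3) (nat_lit 12) (.e false (nat_lit 1) (nat_lit 183) (nat_lit 3) (nat_lit 12) (.e false (nat_lit 1)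 (nat_lit 185) (nat_lit 3) (nat_lit 12) (.e true (nat_lit 1) (nat_lit 189) (nat_lit 3) (nat_lit 12) (.e true (nat_lit 1) (nat_lit 202) (nat_lit 2) (nat_lit 13) (.e false (nat_lit 1) (nat_lit 208) (nat_lit 2) (nat_lit 13) (.e false (nat_lit 1) (nat_lit 210) (nat_lit 2) (nat_lit 13) (.e true (nat_lit 1) (nat_lit 223) (nat_lit 0) (nat_lit 14) (.e true (nat_lit 1) (nat_lit 224) (nat_lit 0) (nat_lit 14) (.e true (nat_lit 1) (nat_lit 225) (nat_lit 0) (nat_lit 14) (.e false (nat_lit 1) (nat_lit 228) (nat_lit 0) (nat_lit 14) (.e false (nat_lit 1) (nat_lit 229) (nat_lit 0) (nat_lit 14) (.e false (nat_lit 1) (nat_lit 230) (nat_lit 0) (nat_lit 14) .nil)))))))))))))))))))))))))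

noncomputable def dF4_i29 : IL := (.s true (nat_lit 1) (nat_lit 12) (nat_lit 5) (nat_lit 2) (nat_lit 3) true (nat_lit 1) true (nat_lit 12) true (nat_lit 6) true (nat_lit 10) true (nat_lit 13) (.s false (nat_lit 1) (nat_lit 15) (nat_lit 2) (nat_lit 0) (nat_lit 5) true (nat_lit 2) true (nat_lit 10) true (nat_lit 4) true (nat_lit 13) true (nat_lit 14) (.s false (nat_lit 1) (nat_lit 18) (nat_lit 3) (nat_lit 4) (nat_lit 0) true (nat_lit 8) true (nat_lit 14) true (nat_lit 2) true (nat_lit 12) true (nat_lit 11) (.s true (nat_lit 1) (nat_lit 18) (nat_lit 4) (nat_lit 3) (nat_lit 0) true (nat_lit 6) true (nat_lit 14) true (nat_lit 2) true (nat_lit 11) true (nat_lit 12) (.e true (nat_lit 1) (nat_lit 60) (nat_lit 14) (nat_lit 5) (.e true (nat_lit 1) (nat_lit 152) (nat_lit 4) (nat_lit 11) (.e true (nat_lit 1) (nat_lit 118) (nat_lit 5) (nat_lit 10) (.e true (nat_lit 1) (nat_lit 66) (nat_lit 12) (nat_lit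 6) (.e false (nat_lit 1) (nat_lit 116) (nat_lit 5) (nat_lit 10) (.e true (nat_lit 1) (nat_lit 44) (nat_lit 18) (nat_lit 2) (.e false (nat_lit 1) (nat_lit 111) (nat_lit 5) (nat_lit 10) (.e false (nat_lit 1) (nat_lit 54) (nat_lit 15) (nat_lit 4) (.e false (nat_lit 1) (nat_lit 203) (nat_lit 2) (nat_lit 13) (.e false (nat_lit 1) (nat_lit 204) (nat_lit 2) (nat_lit 13) (.e false (nat_lit 1) (nat_lit 205) (nat_lit 2) (nat_lit 13) (.e true (nat_lit 1) (nat_lit 209) (nat_lit 2) (nat_lit 13) (.e true (nat_lit 1) (nat_lit 230) (nat_lit 0) (nat_lit 14) (.e false (nat_lit 1) (nat_lit 225) (nat_lit 0) (nat_lit 14) (.e true (nat_lit 1) (nat_lit 156) (nat_lit 4) (nat_lit 11) (.e true (nat_lit 1) (nat_lit 228) (nat_lit 0) (nat_lit 14) (.e false (nat_lit 1) (nat_lit 151) (nat_lit 4) (nat_lit 11) (.e true (nat_lit 1) (nat_lit 155) (nat_lit 4) (nat_lit 11) (.e false (nat_lit 1) (nat_lit 159) (nat_lit 4) (nat_lit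 11) (.e false (nat_lit 1) (nat_lit 160) (nat_lit 4) (nat_lit 11) (.e false (nat_lit 1) (nat_lit 186) (nat_lit 3) (nat_lit 12) .nil)))))))))))))))))))))))))

noncomputable def dF4_i30 : IL := (.e false (nat_lit 1) (nat_lit 39) (nat_lit 19) (nat_lit 1) (.e true (nat_lit 1) (nat_lit 192) (nat_lit 3) (nat_lit 12) (.e true (nat_lit 1) (nat_lit 196) (nat_lit 3) (nat_lit 12) (.e false (nat_lit 1) (nat_lit 126) (nat_lit 5) (nat_lit 10) (.e true (nat_lit 1) (nat_lit 221) (nat_lit 1) (nat_lit 14) (.e false (nat_lit 1) (nat_lit 213) (nat_lit 2) (nat_lit 13) (.e true (nat_lit 1) (nat_lit 223) (nat_lit 1) (nat_lit 14) (.e true (nat_lit 1) (nat_lit 224) (nat_lit 1) (nat_lit 14) (.e true (nat_lit 1) (nat_lit 226) (nat_lit 1) (nat_lit 14) (.e false (nat_lit 1) (nat_lit 227) (nat_lit 1) (nat_lit 14) (.e false (nat_lit 1) (nat_lit 228) (nat_lit 1) (nat_lit 14) (.e false (nat_lit 1) (nat_lit 123) (nat_lit 5)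 (nat_lit 10) (.e false (nat_lit 1) (nat_lit 124) (nat_lit 5) (nat_lit 10) (.e false (nat_lit 1) (nat_lit 125) (nat_lit 5) (nat_lit 10) (.e true (nat_lit 1) (nat_lit 128) (nat_lit 5) (nat_lit 10) (.e true (nat_lit 1) (nat_lit 129) (nat_lit 5) (nat_lit 10) (.e true (nat_lit 1) (nat_lit 130) (nat_lit 5) (nat_lit 10) (.e false (nat_lit 1) (nat_lit 163) (nat_lit 4) (nat_lit 11) (.e false (nat_lit 1) (nat_lit 165) (nat_lit 4) (nat_lit 11) (.e false (nat_lit 1) (nat_lit 166) (nat_lit 4) (nat_lit 11) (.e true (nat_lit 1) (nat_lit 167) (nat_lit 4) (nat_lit 11) (.e true (nat_lit 1) (nat_lit 168) (nat_lit 4) (nat_lit 11) (.e true (nat_lit 1) (nat_lit 169) (nat_lit 4) (nat_lit 11) (.e true (nat_lit 1) (nat_lit 170) (nat_lit 4) (nat_lit 11) (.e false (nat_lit 1) (nat_lit 215) (nat_lit 2) (nat_lit 13) .nil)))))))))))))))))))))))))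

noncomputable def dF4_i31 : IL := (.s false (nat_lit 1) (nat_lit 14) (nat_lit 5) (nat_lit 3) (nat_lit 1) true (nat_lit 3) true (nat_lit 14) true (nat_lit 5) true (nat_lit 10) true (nat_lit 12) (.s false (nat_lit 1) (nat_lit 15) (nat_lit 2) (nat_lit 1) (nat_lit 5) true (nat_lit 2) true (nat_lit 10) true (nat_lit 4) true (nat_lit 13) true (nat_lit 14) (.s false (nat_lit 1) (nat_lit 15) (nat_lit 5) (nat_lit 1) (nat_lit 2) true (nat_lit 2) true (nat_lit 13) true (nat_lit 4) true (nat_lit 10) true (nat_lit 14) (.s true (nat_lit 1) (nat_lit 17) (nat_lit 2) (nat_lit 4) (nat_lit 3) true (nat_lit 7) true (nat_lit 12) true (nat_lit 3) true (nat_lit 13) true (nat_lit 11) (.s false (nat_lit 1) (nat_lit 17) (nat_lit 4) (nat_lit 2) (nat_lit 3) true (nat_lit 4) true (nat_lit 12) true (nat_lit 3) true (nat_lit 11) true (nat_lit 13) (.s true (nat_lit 1) (nat_lit 19) (nat_lit 2) (nat_lit 1) (nat_lit 4) true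 (nat_lit 5) true (nat_lit 11) true (nat_lit 1) true (nat_lit 13) true (nat_lit 14) (.e true (nat_lit 1) (nat_lit 163) (nat_lit 4) (nat_lit 11) (.e false (nat_lit 1) (nat_lit 63) (nat_lit 14) (nat_lit 5) (.e false (nat_lit 1) (nat_lit 221) (nat_lit 1) (nat_lit 14) (.e false (nat_lit 1) (nat_lit 229) (nat_lit 1) (nat_lit 14) (.e false (nat_lit 1) (nat_lit 200) (nat_lit 3) (nat_lit 12) (.e true (nat_lit 1) (nat_lit 193) (nat_lit 3) (nat_lit 12) (.e true (nat_lit 1) (nat_lit 123) (nat_lit 5) (nat_lit 10) (.e true (nat_lit 1) (nat_lit 124) (nat_lit 5) (nat_lit 10) (.e false (nat_lit 1) (nat_lit 57) (nat_lit 15) (nat_lit 4) (.e true (nat_lit 1) (nat_lit 219) (nat_lit 2) (nat_lit 13) (.e false (nat_lit 1) (nat_lit 122) (nat_lit 5) (nat_lit 10) (.e true (nat_lit 1) (nat_lit 195) (nat_lit 3) (nat_lit 12) (.e false (nat_lit 1) (nat_lit 168) (nat_lit 4) (nat_lit 11) (.e false (nat_lit 1) (nat_lit 198)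 (nat_lit 3) (nat_lit 12) (.e true (nat_lit 1) (nat_lit 166) (nat_lit 4) (nat_lit 11) (.e false (nat_lit 1) (nat_lit 167) (nat_lit 4) (nat_lit 11) (.e true (nat_lit 1) (nat_lit 161) (nat_lit 4) (nat_lit 11) (.e true (nat_lit 1) (nat_lit 39) (nat_lit 19) (nat_lit 1) (.e true (nat_lit 1) (nat_lit 211) (nat_lit 2) (nat_lit 13) .nil)))))))))))))))))))))))))

noncomputable def dF4_i32 : IL := (.e true (nat_lit 1) (nat_lit 192) (nat_lit 3) (nat_lit 12) (.e true (nat_lit 1) (nat_lit 211) (nat_lit 2) (nat_lit 13) (.e false (nat_lit 1) (nat_lit 215) (nat_lit 2) (nat_lit 13) (.e true (nat_lit 1) (nat_lit 191) (nat_lit 3) (nat_lit 12) (.e false (nat_lit 1) (nat_lit 195) (nat_lit 3) (nat_lit 12) (.e true (nat_lit 1) (nat_lit 199) (nat_lit 3) (nat_lit 12) (.e true (nat_lit 1) (nat_lit 200) (nat_lit 3) (nat_lit 12) (.e false (nat_lit 2) (nat_lit 125) (nat_lit 5) (nat_lit 10) (.e true (nat_lit 1) (nat_lit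 121) (nat_lit 5) (nat_lit 10) (.e false (nat_lit 1) (nat_lit 123) (nat_lit 5) (nat_lit 10) (.e false (nat_lit 1) (nat_lit 124) (nat_lit 5) (nat_lit 10) (.e true (nat_lit 1) (nat_lit 129) (nat_lit 5) (nat_lit 10) (.e true (nat_lit 1) (nat_lit 130) (nat_lit 5) (nat_lit 10) (.e true (nat_lit 1) (nat_lit 57) (nat_lit 15) (nat_lit 4) (.e true (nat_lit 1) (nat_lit 214) (nat_lit 2) (nat_lit 13) (.e false (nat_lit 1) (nat_lit 228) (nat_lit 1) (nat_lit 14) (.e true (nat_lit 1) (nat_lit 161) (nat_lit 4) (nat_lit 11) (.e false (nat_lit 1) (nat_lit 165) (nat_lit 4) (nat_lit 11) (.e true (nat_lit 2) (nat_lit 169) (nat_lit 4) (nat_lit 11) (.e true (nat_lit 1) (nat_lit 170) (nat_lit 4) (nat_lit 11) (.e true (nat_lit 1) (nat_lit 196) (nat_lit 3) (nat_lit 12) (.e false (nat_lit 1) (nat_lit 39) (nat_lit 19) (nat_lit 1) (.e true (nat_lit 1) (nat_lit 221) (nat_lit 1) (nat_lit 14) (.e false (nat_lit 1) (nat_lit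 225) (nat_lit 1) (nat_lit 14) (.e true (nat_lit 1) (nat_lit 229) (nat_lit 1) (nat_lit 14) .nil)))))))))))))))))))))))))

noncomputable def dF4_i33 : IL := (.e true (nat_lit 1) (nat_lit 192) (nat_lit 3) (nat_lit 12) (.e true (nat_lit 1) (nat_lit 196) (nat_lit 3) (nat_lit 12) (.e false (nat_lit 1) (nat_lit 198) (nat_lit 3) (nat_lit 12) (.e false (nat_lit 1) (nat_lit 200) (nat_lit 3) (nat_lit 12) (.e true (nat_lit 1) (nat_lit 164) (nat_lit 4) (nat_lit 11) (.e false (nat_lit 1) (nat_lit 124) (nat_lit 5) (nat_lit 10) (.e false (nat_lit 1) (nat_lit 170) (nat_lit 4) (nat_lit 11) (.e true (nat_lit 1) (nat_lit 57) (nat_lit 15) (nat_lit 4) (.e false (nat_lit 1) (nat_lit 191) (nat_lit 3) (nat_lit 12) (.e false (nat_lit 1) (nat_lit 126) (nat_lit 5) (nat_lit 10) (.e true (nat_lit 1) (nat_lit 128) (nat_lit 5) (nat_lit 10) (.e true (nat_lit 1) (nat_lit 130) (nat_lit 5) (nat_lit 10) (.e true (nat_lit 1) (nat_lit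 63) (nat_lit 14) (nat_lit 5) (.e true (nat_lit 1) (nat_lit 165) (nat_lit 4) (nat_lit 11) (.e false (nat_lit 1) (nat_lit 169) (nat_lit 4) (nat_lit 11) (.e false (nat_lit 1) (nat_lit 199) (nat_lit 3) (nat_lit 12) (.e false (nat_lit 1) (nat_lit 222) (nat_lit 1) (nat_lit 14) (.e false (nat_lit 1) (nat_lit 226) (nat_lit 1) (nat_lit 14) (.e true (nat_lit 1) (nat_lit 228) (nat_lit 1) (nat_lit 14) (.e true (nat_lit 1) (nat_lit 230) (nat_lit 1) (nat_lit 14) (.e false (nat_lit 1) (nat_lit 213) (nat_lit 2) (nat_lit 13) (.e false (nat_lit 1) (nat_lit 214) (nat_lit 2) (nat_lit 13) (.e false (nat_lit 1) (nat_lit 215) (nat_lit 2) (nat_lit 13) (.e true (nat_lit 1) (nat_lit 219) (nat_lit 2) (nat_lit 13) (.e true (nat_lit 1) (nat_lit 220) (nat_lit 2) (nat_lit 13) .nil)))))))))))))))))))))))))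

noncomputable def dF4_i34 : IL := (.e false (nat_lit 1) (nat_lit 39) (nat_lit 19) (nat_lit 1) (.e false (nat_lit 1) (nat_lit 121) (nat_lit 5) (nat_lit 10) (.e true (nat_lit 1) (nat_lit 192) (nat_lit 3) (nat_lit 12) (.e true (nat_lit 1) (nat_lit 196) (nat_lit 3) (nat_lit 12) (.e false (nat_lit 1) (nat_lit 124) (nat_lit 5) (nat_lit 10) (.e true (nat_lit 1) (nat_lit 162) (nat_lit 4) (nat_lit 11) (.e false (nat_lit 1) (nat_lit 66) (nat_lit 13) (nat_lit 6) (.e false (nat_lit 1) (nat_lit 163) (nat_lit 4) (nat_lit 11) (.e false (nat_lit 1) (nat_lit 165) (nat_lit 4) (nat_lit 11) (.e true (nat_lit 1) (nat_lit 167) (nat_lit 4) (nat_lit 11) (.e true (nat_lit 1) (nat_lit 169) (nat_lit 4) (nat_lit 11) (.e false (nat_lit 1) (nat_lit 123) (nat_lit 5) (nat_lit 10) (.e true (nat_lit 1) (nat_lit 191) (nat_lit 3) (nat_lit 12) (.e false (nat_lit 1) (nat_lit 193) (nat_lit 3) (nat_lit 12) (.e false (nat_lit 1)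 (nat_lit 195) (nat_lit 3) (nat_lit 12) (.e true (nat_lit 1) (nat_lit 199) (nat_lit 3) (nat_lit 12) (.e true (nat_lit 1) (nat_lit 212) (nat_lit 2) (nat_lit 13) (.e false (nat_lit 1) (nat_lit 218) (nat_lit 2) (nat_lit 13) (.e false (nat_lit 1) (nat_lit 220) (nat_lit 2) (nat_lit 13) (.e true (nat_lit 1) (nat_lit 223) (nat_lit 1) (nat_lit 14) (.e true (nat_lit 1) (nat_lit 224) (nat_lit 1) (nat_lit 14) (.e true (nat_lit 1) (nat_lit 225) (nat_lit 1) (nat_lit 14) (.e false (nat_lit 1) (nat_lit 228) (nat_lit 1) (nat_lit 14) (.e false (nat_lit 1) (nat_lit 229) (nat_lit 1) (nat_lit 14) (.e false (nat_lit 1) (nat_lit 230) (nat_lit 1) (nat_lit 14) .nil)))))))))))))))))))))))))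

noncomputable def dF4_i35 : IL := (.s true (nat_lit 1) (nat_lit 13) (nat_lit 5) (nat_lit 2) (nat_lit 3) true (nat_lit 1) true (nat_lit 12) true (nat_lit 6) true (nat_lit 10) true (nat_lit 13) (.s false (nat_lit 1) (nat_lit 15) (nat_lit 2) (nat_lit 1) (nat_lit 5) true (nat_lit 2) true (nat_lit 10) true (nat_lit 4) true (nat_lit 13) true (nat_lit 14) (.s false (nat_lit 1) (nat_lit 18) (nat_lit 3) (nat_lit 4) (nat_lit 1) true (nat_lit 8) true (nat_lit 14) true (nat_lit 2) true (nat_lit 12) true (nat_lit 11) (.s true (nat_lit 1) (nat_lit 18) (nat_lit 4) (nat_lit 3) (nat_lit 1) true (nat_lit 6) true (nat_lit 14) true (nat_lit 2) true (nat_lit 11) true (nat_lit 12) (.e true (nat_lit 1) (nat_lit 63) (nat_lit 14) (nat_lit 5) (.e true (nat_lit 1) (nat_lit 162) (nat_lit 4) (nat_lit 11) (.e true (nat_lit 1) (nat_lit 128) (nat_lit 5) (nat_lit 10) (.e true (nat_lit 1) (nat_lit 66) (nat_lit 13) (nat_lit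 6) (.e false (nat_lit 1) (nat_lit 126) (nat_lit 5) (nat_lit 10) (.e true (nat_lit 1) (nat_lit 47) (nat_lit 18) (nat_lit 2) (.e false (nat_lit 1) (nat_lit 121) (nat_lit 5) (nat_lit 10) (.e false (nat_lit 1) (nat_lit 57) (nat_lit 15) (nat_lit 4) (.e false (nat_lit 1) (nat_lit 213) (nat_lit 2) (nat_lit 13) (.e false (nat_lit 1) (nat_lit 214) (nat_lit 2) (nat_lit 13) (.e false (nat_lit 1) (nat_lit 215) (nat_lit 2) (nat_lit 13) (.e true (nat_lit 1) (nat_lit 219) (nat_lit 2) (nat_lit 13) (.e true (nat_lit 1) (nat_lit 230) (nat_lit 1) (nat_lit 14) (.e false (nat_lit 1) (nat_lit 225) (nat_lit 1) (nat_lit 14) (.e true (nat_lit 1) (nat_lit 166) (nat_lit 4) (nat_lit 11) (.e true (nat_lit 1) (nat_lit 228) (nat_lit 1) (nat_lit 14) (.e false (nat_lit 1) (nat_lit 161) (nat_lit 4) (nat_lit 11) (.e true (nat_lit 1) (nat_lit 165) (nat_lit 4) (nat_lit 11) (.e false (nat_lit 1) (nat_lit 169) (nat_lit 4) (nat_lit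 11) (.e false (nat_lit 1) (nat_lit 170) (nat_lit 4) (nat_lit 11) (.e false (nat_lit 1) (nat_lit 196) (nat_lit 3) (nat_lit 12) .nil)))))))))))))))))))))))))

noncomputable def dF4_t0 : Tr := (.nd (.nd (.nd (.nd (.nd (.nd (.nd .leaf (nat_lit 1024) (nat_lit 0) (.p (nat_lit 6) (nat_lit 1) .z) .df .leaf) (nat_lit 2048) (nat_lit 1) (.p (nat_lit 7) (nat_lit 1) .z) .df (.nd .leaf (nat_lit 2049) (nat_lit 2) (.p (nat_lit 8) (nat_lit 1) .z) .df .leaf)) (nat_lit 3072) (nat_lit 3) (.p (nat_lit 9) (nat_lit 1) .z) .df (.nd (.nd .leaf (nat_lit 3073) (nat_lit 4) (.p (nat_lit 10) (nat_lit 1) .z) .df .leaf) (nat_lit 3074) (nat_lit 5) (.p (nat_lit 11) (nat_lit 1) .z) .df .leaf)) (nat_lit 4096) (nat_lit 6) (.p (nat_lit 12) (nat_lit 1) .z) .df (.nd (.nd (.nd .leaf (nat_lit 4097) (nat_lit 7) (.p (nat_lit 13) (nat_lit 1) .z) .df .leaf) (nat_lit 4098) (nat_lit 8) (.p (nat_lit 14) (nat_lit 1) .z) .df .leaf) (nat_lit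 4099) (nat_lit 9) (.p (nat_lit 15) (nat_lit 1) .z) .df (.nd (.nd .leaf (nat_lit 5120) (nat_lit 10) (.p (nat_lit 16) (nat_lit 1) .z) .df .leaf) (nat_lit 5121) (nat_lit 11) (.p (nat_lit 17) (nat_lit 1) .z) .df .leaf))) (nat_lit 5122) (nat_lit 12) (.p (nat_lit 18) (nat_lit 1) .z) .df (.nd (.nd (.nd (.nd .leaf (nat_lit 5123) (nat_lit 13) (.p (nat_lit 19) (nat_lit 1) .z) .df .leaf) (nat_lit 5124) (nat_lit 14) (.p (nat_lit 20) (nat_lit 1) .z) .df .leaf) (nat_lit 6146) (nat_lit 15) (.p (nat_lit 21) (nat_lit 1) .z) .df (.nd (.nd .leaf (nat_lit 6147) (nat_lit 18) (.p (nat_lit 24) (nat_lit 1) .z) .df .leaf) (nat_lit 6148) (nat_lit 27) (.p (nat_lit 33) (nat_lit 1) .z) .df .leaf)) (nat_lit 6149) (nat_lit 45) (.p (nat_lit 51) (nat_lit 1) .z) .df (.nd (.nd (.nd .leaf (nat_lit 7169) (nat_lit 16) (.p (nat_lit 22) (nat_lit 1) .z) .df .leaf) (nat_lit 7171) (nat_lit 21) (.p (nat_lit 27) (nat_lit 1) .z) .df .leaf)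 (nat_lit 7172) (nat_lit 30) (.p (nat_lit 36) (nat_lit 1) .z) .df (.nd (.nd .leaf (nat_lit 7173) (nat_lit 48) (.p (nat_lit 54) (nat_lit 1) .z) .df .leaf) (nat_lit 8192) (nat_lit 17) (.p (nat_lit 23) (nat_lit 1) .z) .df .leaf)))) (nat_lit 8195) (nat_lit 24) (.p (nat_lit 30) (nat_lit 1) .z) .df (.nd (.nd (.nd (.nd (.nd .leaf (nat_lit 8196) (nat_lit 33) (.p (nat_lit 39) (nat_lit 1) .z) .df .leaf) (nat_lit 8197) (nat_lit 51) (.p (nat_lit 57) (nat_lit 1) .z) .df .leaf) (nat_lit 9217) (nat_lit 19) (.p (nat_lit 25) (nat_lit 1) .z) .df (.nd (.nd .leaf (nat_lit 9218) (nat_lit 22) (.p (nat_lit 28) (nat_lit 1) .z) .df .leaf) (nat_lit 9220) (nat_lit 36) (.p (nat_lit 42) (nat_lit 1) .z) .df .leaf)) (nat_lit 9221) (nat_lit 54) (.p (nat_lit 60) (nat_lit 1) .z) .df (.nd (.nd (.nd .leaf (nat_lit 9224) (nat_lit 87) (.n (nat_lit 83) (nat_lit 1) (.n (nat_lit 84) (nat_lit 1) (.n (nat_lit 85) (nat_lit 1) (.n (nat_lit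 86) (nat_lit 1) (.p (nat_lit 87) (nat_lit 1) (.p (nat_lit 88) (nat_lit 1) (.p (nat_lit 89) (nat_lit 1) (.p (nat_lit 90) (nat_lit 1) .z)))))))) (.ct dF4_c1118464 (nat_lit 1) (nat_lit 0) (.s true (nat_lit 1) (nat_lit 3) (nat_lit 1) (nat_lit 0) (nat_lit 2) true (nat_lit 0) true (nat_lit 4) true (nat_lit 3) true (nat_lit 5) true (nat_lit 6) (.e true (nat_lit 1) (nat_lit 26) (nat_lit 2) (nat_lit 4) (.e true (nat_lit 1) (nat_lit 21) (nat_lit 3) (nat_lit 3) (.e false (nat_lit 1) (nat_lit 27) (nat_lit 1) (nat_lit 5) (.e false (nat_lit 1) (nat_lit 32) (nat_lit 0) (nat_lit 6) .nil)))))) .leaf) (nat_lit 10240) (nat_lit 20) (.p (nat_lit 26) (nat_lit 1) .z) .df .leaf) (nat_lit 10242) (nat_lit 25) (.p (nat_lit 31) (nat_lit 1) .z) .df (.nd (.nd .leaf (nat_lit 10244) (nat_lit 39) (.p (nat_lit 45) (nat_lit 1) .z) .df .leaf) (nat_lit 10245) (nat_lit 57) (.p (nat_lit 63) (nat_lit 1) .z) .df .leaf))) (nat_lit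 10247) (nat_lit 88) (.p (nat_lit 81) (nat_lit 1) (.n (nat_lit 85) (nat_lit 1) (.p (nat_lit 89) (nat_lit 1) (.p (nat_lit 90) (nat_lit 1) .z)))) (.ct dF4_c1118464 (nat_lit 1) (nat_lit 1) (.s true (nat_lit 1) (nat_lit 3) (nat_lit 0) (nat_lit 1) (nat_lit 2) true (nat_lit 1) true (nat_lit 4) true (nat_lit 3) true (nat_lit 6) true (nat_lit 5) (.e true (nat_lit 1) (nat_lit 25) (nat_lit 2) (nat_lit 4) (.e false (nat_lit 1) (nat_lit 21) (nat_lit 3) (nat_lit 3) (.e false (nat_lit 1) (nat_lit 30) (nat_lit 0) (nat_lit 6) (.e false (nat_lit 1) (nat_lit 29) (nat_lit 1) (nat_lit 5) .nil)))))) (.nd (.nd (.nd (.nd .leaf (nat_lit 11264) (nat_lit 23) (.p (nat_lit 29) (nat_lit 1) .z) .df .leaf) (nat_lit 11265) (nat_lit 26) (.p (nat_lit 32) (nat_lit 1) .z) .df .leaf) (nat_lit 11268) (nat_lit 42) (.p (nat_lit 48) (nat_lit 1) .z) .df (.nd (.nd .leaf (nat_lit 11269) (nat_lit 60) (.p (nat_lit 66) (nat_lit 1) .z) .df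 .leaf) (nat_lit 11270) (nat_lit 89) (.p (nat_lit 82) (nat_lit 1) (.p (nat_lit 86) (nat_lit 1) (.n (nat_lit 88) (nat_lit 1) (.n (nat_lit 90) (nat_lit 1) .z)))) (.ct dF4_c1118464 (nat_lit 1) (nat_lit 2) (.s true (nat_lit 1) (nat_lit 3) (nat_lit 0) (nat_lit 2) (nat_lit 1) true (nat_lit 2) true (nat_lit 5) true (nat_lit 3) true (nat_lit 6) true (nat_lit 4) (.e true (nat_lit 1) (nat_lit 28) (nat_lit 1) (nat_lit 5) (.e false (nat_lit 1) (nat_lit 22) (nat_lit 3) (nat_lit 3) (.e true (nat_lit 1) (nat_lit 30) (nat_lit 0) (nat_lit 6) (.e false (nat_lit 1) (nat_lit 26) (nat_lit 2) (nat_lit 4) .nil)))))) .leaf)) (nat_lit 12289) (nat_lit 28) (.p (nat_lit 34) (nat_lit 1) .z) .df (.nd (.nd (.nd .leaf (nat_lit 12290) (nat_lit 31) (.p (nat_lit 37) (nat_lit 1) .z) .df .leaf) (nat_lit 12291) (nat_lit 37) (.p (nat_lit 43) (nat_lit 1) .z) .df .leaf) (nat_lit 12293) (nat_lit 63) (.p (nat_lit 69) (nat_lit 1) .z)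 .df (.nd (.nd .leaf (nat_lit 12296) (nat_lit 102) (.n (nat_lit 93) (nat_lit 1) (.n (nat_lit 94) (nat_lit 1) (.n (nat_lit 95) (nat_lit 1) (.n (nat_lit 96) (nat_lit 1) (.p (nat_lit 97) (nat_lit 1) (.p (nat_lit 98) (nat_lit 1) (.p (nat_lit 99) (nat_lit 1) (.p (nat_lit 100) (nat_lit 1) .z)))))))) (.ct dF4_c1118224 (nat_lit 1) (nat_lit 0) (.s true (nat_lit 1) (nat_lit 4) (nat_lit 1) (nat_lit 0) (nat_lit 2) true (nat_lit 0) true (nat_lit 4) true (nat_lit 3) true (nat_lit 5) true (nat_lit 6) (.e true (nat_lit 1) (nat_lit 35) (nat_lit 2) (nat_lit 4) (.e true (nat_lit 1) (nat_lit 21) (nat_lit 4) (nat_lit 3) (.e false (nat_lit 1) (nat_lit 36) (nat_lit 1) (nat_lit 5) (.e false (nat_lit 1) (nat_lit 41) (nat_lit 0) (nat_lit 6) .nil)))))) .leaf) (nat_lit 12298) (nat_lit 117) (.n (nat_lit 103) (nat_lit 1) (.n (nat_lit 104) (nat_lit 1) (.n (nat_lit 105) (nat_lit 1) (.n (nat_lit 106) (nat_lit 1) (.p (nat_lit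 107) (nat_lit 1) (.p (nat_lit 108) (nat_lit 1) (.p (nat_lit 109) (nat_lit 1) (.p (nat_lit 110) (nat_lit 1) .z)))))))) (.ct dF4_c1114384 (nat_lit 1) (nat_lit 0) (.s true (nat_lit 1) (nat_lit 4) (nat_lit 1) (nat_lit 0) (nat_lit 3) true (nat_lit 0) true (nat_lit 4) true (nat_lit 3) true (nat_lit 5) true (nat_lit 6) (.e true (nat_lit 1) (nat_lit 35) (nat_lit 3) (nat_lit 4) (.e true (nat_lit 1) (nat_lit 24) (nat_lit 4) (nat_lit 3) (.e false (nat_lit 1) (nat_lit 42) (nat_lit 1) (nat_lit 5) (.e false (nat_lit 1) (nat_lit 47) (nat_lit 0) (nat_lit 6) .nil)))))) .leaf))))) (nat_lit 12299) (nat_lit 132) (.n (nat_lit 113) (nat_lit 1) (.n (nat_lit 114) (nat_lit 1) (.n (nat_lit 115) (nat_lit 1) (.n (nat_lit 116) (nat_lit 1) (.p (nat_lit 117) (nat_lit 1) (.p (nat_lit 118) (nat_lit 1) (.p (nat_lit 119) (nat_lit 1) (.p (nat_lit 120) (nat_lit 1) .z)))))))) (.ct dF4_c1052944 (nat_lit 1) (nat_lit 0) (.s true (nat_lit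 1) (nat_lit 4) (nat_lit 2) (nat_lit 0) (nat_lit 3) true (nat_lit 0) true (nat_lit 4) true (nat_lit 3) true (nat_lit 5) true (nat_lit 6) (.e true (nat_lit 1) (nat_lit 38) (nat_lit 3) (nat_lit 4) (.e true (nat_lit 1) (nat_lit 27) (nat_lit 4) (nat_lit 3) (.e false (nat_lit 1) (nat_lit 42) (nat_lit 2) (nat_lit 5) (.e false (nat_lit 1) (nat_lit 50) (nat_lit 0) (nat_lit 6) .nil)))))) (.nd (.nd (.nd (.nd (.nd (.nd .leaf (nat_lit 13312) (nat_lit 29) (.p (nat_lit 35) (nat_lit 1) .z) .df .leaf) (nat_lit 13314) (nat_lit 34) (.p (nat_lit 40) (nat_lit 1) .z) .df .leaf) (nat_lit 13315) (nat_lit 40) (.p (nat_lit 46) (nat_lit 1) .z) .df (.nd (.nd .leaf (nat_lit 13317) (nat_lit 66) (.p (nat_lit 72) (nat_lit 1) .z) .df .leaf) (nat_lit 13319) (nat_lit 103) (.p (nat_lit 91) (nat_lit 1) (.n (nat_lit 95) (nat_lit 1) (.p (nat_lit 99) (nat_lit 1) (.p (nat_lit 100) (nat_lit 1) .z)))) (.ct dF4_c1118224 (nat_lit 1) (nat_lit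 1) (.s true (nat_lit 1) (nat_lit 4) (nat_lit 0) (nat_lit 1) (nat_lit 2) true (nat_lit 1) true (nat_lit 4) true (nat_lit 3) true (nat_lit 6) true (nat_lit 5) (.e true (nat_lit 1) (nat_lit 34) (nat_lit 2) (nat_lit 4) (.e false (nat_lit 1) (nat_lit 21) (nat_lit 4) (nat_lit 3) (.e false (nat_lit 1) (nat_lit 39) (nat_lit 0) (nat_lit 6) (.e false (nat_lit 1) (nat_lit 38) (nat_lit 1) (nat_lit 5) .nil)))))) .leaf)) (nat_lit 13321) (nat_lit 118) (.p (nat_lit 101) (nat_lit 1) (.n (nat_lit 105) (nat_lit 1) (.p (nat_lit 109) (nat_lit 1) (.p (nat_lit 110) (nat_lit 1) .z)))) (.ct dF4_c1114384 (nat_lit 1) (nat_lit 1) (.s true (nat_lit 1) (nat_lit 4) (nat_lit 0) (nat_lit 1) (nat_lit 3) true (nat_lit 1) true (nat_lit 4) true (nat_lit 3) true (nat_lit 6) true (nat_lit 5) (.e true (nat_lit 1) (nat_lit 34) (nat_lit 3) (nat_lit 4) (.e false (nat_lit 1) (nat_lit 24) (nat_lit 4) (nat_lit 3) (.e false (nat_lit 1)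 (nat_lit 45) (nat_lit 0) (nat_lit 6) (.e false (nat_lit 1) (nat_lit 44) (nat_lit 1) (nat_lit 5) .nil)))))) (.nd (.nd (.nd .leaf (nat_lit 13323) (nat_lit 147) (.n (nat_lit 123) (nat_lit 1) (.n (nat_lit 124) (nat_lit 1) (.n (nat_lit 125) (nat_lit 1) (.n (nat_lit 126) (nat_lit 1) (.p (nat_lit 127) (nat_lit 1) (.p (nat_lit 128) (nat_lit 1) (.p (nat_lit 129) (nat_lit 1) (.p (nat_lit 130) (nat_lit 1) .z)))))))) (.ct dF4_c69904 (nat_lit 1) (nat_lit 0) (.s true (nat_lit 1) (nat_lit 4) (nat_lit 2) (nat_lit 1) (nat_lit 3) true (nat_lit 0) true (nat_lit 4) true (nat_lit 3) true (nat_lit 5) true (nat_lit 6) (.e true (nat_lit 1) (nat_lit 41) (nat_lit 3) (nat_lit 4) (.e true (nat_lit 1) (nat_lit 30) (nat_lit 4) (nat_lit 3) (.e false (nat_lit 1) (nat_lit 45) (nat_lit 2) (nat_lit 5) (.e false (nat_lit 1) (nat_lit 50) (nat_lit 1) (nat_lit 6) .nil)))))) .leaf) (nat_lit 14336) (nat_lit 32) (.p (nat_lit 38) (nat_lit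 1) .z) .df .leaf) (nat_lit 14337) (nat_lit 35) (.p (nat_lit 41) (nat_lit 1) .z) .df (.nd (.nd .leaf (nat_lit 14339) (nat_lit 43) (.p (nat_lit 49) (nat_lit 1) .z) .df .leaf) (nat_lit 14341) (nat_lit 69) (.p (nat_lit 75) (nat_lit 1) .z) .df .leaf))) (nat_lit 14342) (nat_lit 104) (.p (nat_lit 92) (nat_lit 1) (.p (nat_lit 96) (nat_lit 1) (.n (nat_lit 98) (nat_lit 1) (.n (nat_lit 100) (nat_lit 1) .z)))) (.ct dF4_c1118224 (nat_lit 1) (nat_lit 2) (.s true (nat_lit 1) (nat_lit 4) (nat_lit 0) (nat_lit 2) (nat_lit 1) true (nat_lit 2) true (nat_lit 5) true (nat_lit 3) true (nat_lit 6) true (nat_lit 4) (.e true (nat_lit 1) (nat_lit 37) (nat_lit 1) (nat_lit 5) (.e false (nat_lit 1) (nat_lit 22) (nat_lit 4) (nat_lit 3) (.e true (nat_lit 1) (nat_lit 39) (nat_lit 0) (nat_lit 6) (.e false (nat_lit 1) (nat_lit 35) (nat_lit 2) (nat_lit 4) .nil)))))) (.nd (.nd (.nd (.nd .leaf (nat_lit 14345) (nat_lit 133) (.p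 (nat_lit 111) (nat_lit 1) (.n (nat_lit 115) (nat_lit 1) (.p (nat_lit 119) (nat_lit 1) (.p (nat_lit 120) (nat_lit 1) .z)))) (.ct dF4_c1052944 (nat_lit 1) (nat_lit 1) (.s true (nat_lit 1) (nat_lit 4) (nat_lit 0) (nat_lit 2) (nat_lit 3) true (nat_lit 1) true (nat_lit 4) true (nat_lit 3) true (nat_lit 6) true (nat_lit 5) (.e true (nat_lit 1) (nat_lit 37) (nat_lit 3) (nat_lit 4) (.e false (nat_lit 1) (nat_lit 27) (nat_lit 4) (nat_lit 3) (.e false (nat_lit 1) (nat_lit 48) (nat_lit 0) (nat_lit 6) (.e false (nat_lit 1) (nat_lit 44) (nat_lit 2) (nat_lit 5) .nil)))))) .leaf) (nat_lit 14346) (nat_lit 148) (.p (nat_lit 121) (nat_lit 1) (.n (nat_lit 125) (nat_lit 1) (.p (nat_lit 129) (nat_lit 1) (.p (nat_lit 130) (nat_lit 1) .z)))) (.ct dF4_c69904 (nat_lit 1) (nat_lit 1) (.s true (nat_lit 1) (nat_lit 4) (nat_lit 1) (nat_lit 2) (nat_lit 3) true (nat_lit 1) true (nat_lit 4) true (nat_lit 3) true (nat_lit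 6) true (nat_lit 5) (.e true (nat_lit 1) (nat_lit 40) (nat_lit 3) (nat_lit 4) (.e false (nat_lit 1) (nat_lit 30) (nat_lit 4) (nat_lit 3) (.e false (nat_lit 1) (nat_lit 48) (nat_lit 1) (nat_lit 6) (.e false (nat_lit 1) (nat_lit 47) (nat_lit 2) (nat_lit 5) .nil)))))) .leaf) (nat_lit 15360) (nat_lit 38) (.p (nat_lit 44) (nat_lit 1) .z) .df (.nd (.nd .leaf (nat_lit 15361) (nat_lit 41) (.p (nat_lit 47) (nat_lit 1) .z) .df .leaf) (nat_lit 15362) (nat_lit 44) (.p (nat_lit 50) (nat_lit 1) .z) .df .leaf)) (nat_lit 15365) (nat_lit 72) (.p (nat_lit 78) (nat_lit 1) .z) .df (.nd (.nd (.nd .leaf (nat_lit 15366) (nat_lit 119) (.p (nat_lit 102) (nat_lit 1) (.p (nat_lit 106) (nat_lit 1) (.n (nat_lit 108) (nat_lit 1) (.n (nat_lit 110) (nat_lit 1) .z)))) (.ct dF4_c1114384 (nat_lit 1) (nat_lit 2) (.s true (nat_lit 1) (nat_lit 4) (nat_lit 0) (nat_lit 3) (nat_lit 1) true (nat_lit 2) true (nat_lit 5) true (nat_lit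 3) true (nat_lit 6) true (nat_lit 4) (.e true (nat_lit 1) (nat_lit 43) (nat_lit 1) (nat_lit 5) (.e false (nat_lit 1) (nat_lit 25) (nat_lit 4) (nat_lit 3) (.e true (nat_lit 1) (nat_lit 45) (nat_lit 0) (nat_lit 6) (.e false (nat_lit 1) (nat_lit 35) (nat_lit 3) (nat_lit 4) .nil)))))) .leaf) (nat_lit 15367) (nat_lit 134) (.p (nat_lit 112) (nat_lit 1) (.p (nat_lit 116) (nat_lit 1) (.n (nat_lit 118) (nat_lit 1) (.n (nat_lit 120) (nat_lit 1) .z)))) (.ct dF4_c1052944 (nat_lit 1) (nat_lit 2) (.s true (nat_lit 1) (nat_lit 4) (nat_lit 0) (nat_lit 3) (nat_lit 2) true (nat_lit 2) true (nat_lit 5) true (nat_lit 3) true (nat_lit 6) true (nat_lit 4) (.e true (nat_lit 1) (nat_lit 43) (nat_lit 2) (nat_lit 5) (.e false (nat_lit 1) (nat_lit 28) (nat_lit 4) (nat_lit 3) (.e true (nat_lit 1) (nat_lit 48) (nat_lit 0) (nat_lit 6) (.e false (nat_lit 1) (nat_lit 38) (nat_lit 3) (nat_lit 4) .nil)))))) .leaf) (nat_lit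 15368) (nat_lit 149) (.p (nat_lit 122) (nat_lit 1) (.p (nat_lit 126) (nat_lit 1) (.n (nat_lit 128) (nat_lit 1) (.n (nat_lit 130) (nat_lit 1) .z)))) (.ct dF4_c69904 (nat_lit 1) (nat_lit 2) (.s true (nat_lit 1) (nat_lit 4) (nat_lit 1) (nat_lit 3) (nat_lit 2) true (nat_lit 2) true (nat_lit 5) true (nat_lit 3) true (nat_lit 6) true (nat_lit 4) (.e true (nat_lit 1) (nat_lit 46) (nat_lit 2) (nat_lit 5) (.e false (nat_lit 1) (nat_lit 31) (nat_lit 4) (nat_lit 3) (.e true (nat_lit 1) (nat_lit 48) (nat_lit 1) (nat_lit 6) (.e false (nat_lit 1) (nat_lit 41) (nat_lit 3) (nat_lit 4) .nil)))))) (.nd (.nd .leaf (nat_lit 16385) (nat_lit 46) (.p (nat_lit 52) (nat_lit 1) .z) .df .leaf) (nat_lit 16386) (nat_lit 49) (.p (nat_lit 55) (nat_lit 1) .z) .df .leaf)))) (nat_lit 16387) (nat_lit 55) (.p (nat_lit 61) (nat_lit 1) .z) .df (.nd (.nd (.nd (.nd (.nd .leaf (nat_lit 16388) (nat_lit 64) (.p (nat_lit 70) (nat_lit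 1) .z) .df .leaf) (nat_lit 16392) (nat_lit 162) (.n (nat_lit 133) (nat_lit 1) (.n (nat_lit 134) (nat_lit 1) (.n (nat_lit 135) (nat_lit 1) (.n (nat_lit 136) (nat_lit 1) (.p (nat_lit 137) (nat_lit 1) (.p (nat_lit 138) (nat_lit 1) (.p (nat_lit 139) (nat_lit 1) (.p (nat_lit 140) (nat_lit 1) .z)))))))) (.ct dF4_c1118209 (nat_lit 1) (nat_lit 0) (.s true (nat_lit 1) (nat_lit 5) (nat_lit 1) (nat_lit 0) (nat_lit 2) true (nat_lit 0) true (nat_lit 4) true (nat_lit 3) true (nat_lit 5) true (nat_lit 6) (.e true (nat_lit 1) (nat_lit 53) (nat_lit 2) (nat_lit 4) (.e true (nat_lit 1) (nat_lit 21) (nat_lit 5) (nat_lit 3) (.e false (nat_lit 1) (nat_lit 54) (nat_lit 1) (nat_lit 5) (.e false (nat_lit 1) (nat_lit 59) (nat_lit 0) (nat_lit 6) .nil)))))) .leaf) (nat_lit 16394) (nat_lit 177) (.n (nat_lit 143) (nat_lit 1) (.n (nat_lit 144) (nat_lit 1) (.n (nat_lit 145) (nat_lit 1) (.n (nat_lit 146) (nat_lit 1) (.p (nat_lit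 147) (nat_lit 1) (.p (nat_lit 148) (nat_lit 1) (.p (nat_lit 149) (nat_lit 1) (.p (nat_lit 150) (nat_lit 1) .z)))))))) (.ct dF4_c1114369 (nat_lit 1) (nat_lit 0) (.s true (nat_lit 1) (nat_lit 5) (nat_lit 1) (nat_lit 0) (nat_lit 3) true (nat_lit 0) true (nat_lit 4) true (nat_lit 3) true (nat_lit 5) true (nat_lit 6) (.e true (nat_lit 1) (nat_lit 53) (nat_lit 3) (nat_lit 4) (.e true (nat_lit 1) (nat_lit 24) (nat_lit 5) (nat_lit 3) (.e false (nat_lit 1) (nat_lit 60) (nat_lit 1) (nat_lit 5) (.e false (nat_lit 1) (nat_lit 65) (nat_lit 0) (nat_lit 6) .nil)))))) (.nd (.nd .leaf (nat_lit 16395) (nat_lit 192) (.n (nat_lit 153) (nat_lit 1) (.n (nat_lit 154) (nat_lit 1) (.n (nat_lit 155) (nat_lit 1) (.n (nat_lit 156) (nat_lit 1) (.p (nat_lit 157) (nat_lit 1) (.p (nat_lit 158) (nat_lit 1) (.p (nat_lit 159) (nat_lit 1) (.p (nat_lit 160) (nat_lit 1) .z)))))))) (.ct dF4_c1052929 (nat_lit 1) (nat_lit 0) (.s true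 (nat_lit 1) (nat_lit 5) (nat_lit 2) (nat_lit 0) (nat_lit 3) true (nat_lit 0) true (nat_lit 4) true (nat_lit 3) true (nat_lit 5) true (nat_lit 6) (.e true (nat_lit 1) (nat_lit 56) (nat_lit 3) (nat_lit 4) (.e true (nat_lit 1) (nat_lit 27) (nat_lit 5) (nat_lit 3) (.e false (nat_lit 1) (nat_lit 60) (nat_lit 2) (nat_lit 5) (.e false (nat_lit 1) (nat_lit 68) (nat_lit 0) (nat_lit 6) .nil)))))) .leaf) (nat_lit 16397) (nat_lit 222) (.n (nat_lit 173) (nat_lit 1) (.n (nat_lit 174) (nat_lit 1) (.n (nat_lit 175) (nat_lit 1) (.n (nat_lit 176) (nat_lit 1) (.p (nat_lit 177) (nat_lit 1) (.p (nat_lit 178) (nat_lit 1) (.p (nat_lit 179) (nat_lit 1) (.p (nat_lit 180) (nat_lit 1) .z)))))))) (.ct dF4_c1114129 (nat_lit 1) (nat_lit 0) (.s true (nat_lit 1) (nat_lit 5) (nat_lit 1) (nat_lit 0) (nat_lit 4) true (nat_lit 0) true (nat_lit 4) true (nat_lit 3) true (nat_lit 5) true (nat_lit 6) (.e true (nat_lit 1) (nat_lit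 53) (nat_lit 4) (nat_lit 4) (.e true (nat_lit 1) (nat_lit 33) (nat_lit 5) (nat_lit 3) (.e false (nat_lit 1) (nat_lit 69) (nat_lit 1) (nat_lit 5) (.e false (nat_lit 1) (nat_lit 74) (nat_lit 0) (nat_lit 6) .nil)))))) .leaf)) (nat_lit 16398) (nat_lit 237) (.n (nat_lit 183) (nat_lit 1) (.n (nat_lit 184) (nat_lit 1) (.n (nat_lit 185) (nat_lit 1) (.n (nat_lit 186) (nat_lit 1) (.p (nat_lit 187) (nat_lit 1) (.p (nat_lit 188) (nat_lit 1) (.p (nat_lit 189) (nat_lit 1) (.p (nat_lit 190) (nat_lit 1) .z)))))))) (.ct dF4_c1052689 (nat_lit 1) (nat_lit 0) (.s true (nat_lit 1) (nat_lit 5) (nat_lit 2) (nat_lit 0) (nat_lit 4) true (nat_lit 0) true (nat_lit 4) true (nat_lit 3) true (nat_lit 5) true (nat_lit 6) (.e true (nat_lit 1) (nat_lit 56) (nat_lit 4) (nat_lit 4) (.e true (nat_lit 1) (nat_lit 36) (nat_lit 5) (nat_lit 3) (.e false (nat_lit 1) (nat_lit 69) (nat_lit 2) (nat_lit 5) (.e false (nat_lit 1) (nat_lit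 77) (nat_lit 0) (nat_lit 6) .nil)))))) (.nd (.nd (.nd .leaf (nat_lit 16399) (nat_lit 267) (.n (nat_lit 203) (nat_lit 1) (.n (nat_lit 204) (nat_lit 1) (.n (nat_lit 205) (nat_lit 1) (.n (nat_lit 206) (nat_lit 1) (.p (nat_lit 207) (nat_lit 1) (.p (nat_lit 208) (nat_lit 1) (.p (nat_lit 209) (nat_lit 1) (.p (nat_lit 210) (nat_lit 1) .z)))))))) (.ct dF4_c1048849 (nat_lit 1) (nat_lit 0) (.s true (nat_lit 1) (nat_lit 5) (nat_lit 3) (nat_lit 0) (nat_lit 4) true (nat_lit 0) true (nat_lit 4) true (nat_lit 3) true (nat_lit 5) true (nat_lit 6) (.e true (nat_lit 1) (nat_lit 62) (nat_lit 4) (nat_lit 4) (.e true (nat_lit 1) (nat_lit 42) (nat_lit 5) (nat_lit 3) (.e false (nat_lit 1) (nat_lit 69) (nat_lit 3) (nat_lit 5) (.e false (nat_lit 1) (nat_lit 80) (nat_lit 0) (nat_lit 6) .nil)))))) .leaf) (nat_lit 17408) (nat_lit 47) (.p (nat_lit 53) (nat_lit 1) .z) .df .leaf) (nat_lit 17410) (nat_lit 52) (.p (nat_lit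 58) (nat_lit 1) .z) .df (.nd (.nd .leaf (nat_lit 17411) (nat_lit 58) (.p (nat_lit 64) (nat_lit 1) .z) .df .leaf) (nat_lit 17412) (nat_lit 67) (.p (nat_lit 73) (nat_lit 1) .z) .df .leaf))) (nat_lit 17415) (nat_lit 163) (.p (nat_lit 131) (nat_lit 1) (.n (nat_lit 135) (nat_lit 1) (.p (nat_lit 139) (nat_lit 1) (.p (nat_lit 140) (nat_lit 1) .z)))) (.ct dF4_c1118209 (nat_lit 1) (nat_lit 1) (.s true (nat_lit 1) (nat_lit 5) (nat_lit 0) (nat_lit 1) (nat_lit 2) true (nat_lit 1) true (nat_lit 4) true (nat_lit 3) true (nat_lit 6) true (nat_lit 5) (.e true (nat_lit 1) (nat_lit 52) (nat_lit 2) (nat_lit 4) (.e false (nat_lit 1) (nat_lit 21) (nat_lit 5) (nat_lit 3) (.e false (nat_lit 1) (nat_lit 57) (nat_lit 0) (nat_lit 6) (.e false (nat_lit 1) (nat_lit 56) (nat_lit 1) (nat_lit 5) .nil)))))) (.nd (.nd (.nd (.nd .leaf (nat_lit 17417) (nat_lit 178) (.p (nat_lit 141) (nat_lit 1) (.n (nat_lit 145) (nat_lit 1)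 (.p (nat_lit 149) (nat_lit 1) (.p (nat_lit 150) (nat_lit 1) .z)))) (.ct dF4_c1114369 (nat_lit 1) (nat_lit 1) (.s true (nat_lit 1) (nat_lit 5) (nat_lit 0) (nat_lit 1) (nat_lit 3) true (nat_lit 1) true (nat_lit 4) true (nat_lit 3) true (nat_lit 6) true (nat_lit 5) (.e true (nat_lit 1) (nat_lit 52) (nat_lit 3) (nat_lit 4) (.e false (nat_lit 1) (nat_lit 24) (nat_lit 5) (nat_lit 3) (.e false (nat_lit 1) (nat_lit 63) (nat_lit 0) (nat_lit 6) (.e false (nat_lit 1) (nat_lit 62) (nat_lit 1) (nat_lit 5) .nil)))))) .leaf) (nat_lit 17419) (nat_lit 207) (.n (nat_lit 163) (nat_lit 1) (.n (nat_lit 164) (nat_lit 1) (.n (nat_lit 165) (nat_lit 1) (.n (nat_lit 166) (nat_lit 1) (.p (nat_lit 167) (nat_lit 1) (.p (nat_lit 168) (nat_lit 1) (.p (nat_lit 169) (nat_lit 1) (.p (nat_lit 170) (nat_lit 1) .z)))))))) (.ct dF4_c69889 (nat_lit 1) (nat_lit 0) (.s true (nat_lit 1) (nat_lit 5) (nat_lit 2) (nat_lit 1) (nat_lit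 3) true (nat_lit 0) true (nat_lit 4) true (nat_lit 3) true (nat_lit 5) true (nat_lit 6) (.e true (nat_lit 1) (nat_lit 59) (nat_lit 3) (nat_lit 4) (.e true (nat_lit 1) (nat_lit 30) (nat_lit 5) (nat_lit 3) (.e false (nat_lit 1) (nat_lit 63) (nat_lit 2) (nat_lit 5) (.e false (nat_lit 1) (nat_lit 68) (nat_lit 1) (nat_lit 6) .nil)))))) .leaf) (nat_lit 17420) (nat_lit 223) (.p (nat_lit 171) (nat_lit 1) (.n (nat_lit 175) (nat_lit 1) (.p (nat_lit 179) (nat_lit 1) (.p (nat_lit 180) (nat_lit 1) .z)))) (.ct dF4_c1114129 (nat_lit 1) (nat_lit 1) (.s true (nat_lit 1) (nat_lit 5) (nat_lit 0) (nat_lit 1) (nat_lit 4) true (nat_lit 1) true (nat_lit 4) true (nat_lit 3) true (nat_lit 6) true (nat_lit 5) (.e true (nat_lit 1) (nat_lit 52) (nat_lit 4) (nat_lit 4) (.e false (nat_lit 1) (nat_lit 33) (nat_lit 5) (nat_lit 3) (.e false (nat_lit 1) (nat_lit 72) (nat_lit 0) (nat_lit 6) (.e false (nat_lit 1) (nat_lit 71)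 (nat_lit 1) (nat_lit 5) .nil)))))) (.nd (.nd .leaf (nat_lit 17422) (nat_lit 252) (.n (nat_lit 193) (nat_lit 1) (.n (nat_lit 194) (nat_lit 1) (.n (nat_lit 195) (nat_lit 1) (.n (nat_lit 196) (nat_lit 1) (.p (nat_lit 197) (nat_lit 1) (.p (nat_lit 198) (nat_lit 1) (.p (nat_lit 199) (nat_lit 1) (.p (nat_lit 200) (nat_lit 1) .z)))))))) (.ct dF4_c69649 (nat_lit 1) (nat_lit 0) (.s true (nat_lit 1) (nat_lit 5) (nat_lit 2) (nat_lit 1) (nat_lit 4) true (nat_lit 0) true (nat_lit 4) true (nat_lit 3) true (nat_lit 5) true (nat_lit 6) (.e true (nat_lit 1) (nat_lit 59) (nat_lit 4) (nat_lit 4) (.e true (nat_lit 1) (nat_lit 39) (nat_lit 5) (nat_lit 3) (.e false (nat_lit 1) (nat_lit 72) (nat_lit 2) (nat_lit 5) (.e false (nat_lit 1) (nat_lit 77) (nat_lit 1) (nat_lit 6) .nil)))))) .leaf) (nat_lit 17423) (nat_lit 282) (.n (nat_lit 213) (nat_lit 1) (.n (nat_lit 214) (nat_lit 1) (.n (nat_lit 215) (nat_lit 1) (.n (nat_lit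 216) (nat_lit 1) (.p (nat_lit 217) (nat_lit 1) (.p (nat_lit 218) (nat_lit 1) (.p (nat_lit 219) (nat_lit 1) (.p (nat_lit 220) (nat_lit 1) .z)))))))) (.ct dF4_c65809 (nat_lit 1) (nat_lit 0) (.s true (nat_lit 1) (nat_lit 5) (nat_lit 3) (nat_lit 1) (nat_lit 4) true (nat_lit 0) true (nat_lit 4) true (nat_lit 3) true (nat_lit 5) true (nat_lit 6) (.e true (nat_lit 1) (nat_lit 65) (nat_lit 4) (nat_lit 4) (.e true (nat_lit 1) (nat_lit 45) (nat_lit 5) (nat_lit 3) (.e false (nat_lit 1) (nat_lit 72) (nat_lit 3) (nat_lit 5) (.e false (nat_lit 1) (nat_lit 80) (nat_lit 1) (nat_lit 6) .nil)))))) .leaf)) (nat_lit 18432) (nat_lit 50) (.p (nat_lit 56) (nat_lit 1) .z) .df (.nd (.nd (.nd .leaf (nat_lit 18433) (nat_lit 53) (.p (nat_lit 59) (nat_lit 1) .z) .df .leaf) (nat_lit 18435) (nat_lit 61) (.p (nat_lit 67) (nat_lit 1) .z) .df .leaf) (nat_lit 18436) (nat_lit 70) (.p (nat_lit 76) (nat_lit 1) .z) .df (.nd (.nd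 .leaf (nat_lit 18438) (nat_lit 164) (.p (nat_lit 132) (nat_lit 1) (.p (nat_lit 136) (nat_lit 1) (.n (nat_lit 138) (nat_lit 1) (.n (nat_lit 140) (nat_lit 1) .z)))) (.ct dF4_c1118209 (nat_lit 1) (nat_lit 2) (.s true (nat_lit 1) (nat_lit 5) (nat_lit 0) (nat_lit 2) (nat_lit 1) true (nat_lit 2) true (nat_lit 5) true (nat_lit 3) true (nat_lit 6) true (nat_lit 4) (.e true (nat_lit 1) (nat_lit 55) (nat_lit 1) (nat_lit 5) (.e false (nat_lit 1) (nat_lit 22) (nat_lit 5) (nat_lit 3) (.e true (nat_lit 1) (nat_lit 57) (nat_lit 0) (nat_lit 6) (.e false (nat_lit 1) (nat_lit 53) (nat_lit 2) (nat_lit 4) .nil)))))) .leaf) (nat_lit 18441) (nat_lit 193) (.p (nat_lit 151) (nat_lit 1) (.n (nat_lit 155) (nat_lit 1) (.p (nat_lit 159) (nat_lit 1) (.p (nat_lit 160) (nat_lit 1) .z)))) (.ct dF4_c1052929 (nat_lit 1) (nat_lit 1) (.s true (nat_lit 1) (nat_lit 5) (nat_lit 0) (nat_lit 2) (nat_lit 3) true (nat_lit 1) true (nat_lit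 4) true (nat_lit 3) true (nat_lit 6) true (nat_lit 5) (.e true (nat_lit 1) (nat_lit 55) (nat_lit 3) (nat_lit 4) (.e false (nat_lit 1) (nat_lit 27) (nat_lit 5) (nat_lit 3) (.e false (nat_lit 1) (nat_lit 66) (nat_lit 0) (nat_lit 6) (.e false (nat_lit 1) (nat_lit 62) (nat_lit 2) (nat_lit 5) .nil)))))) .leaf))))))

noncomputable def dF4_t1 : Tr := (.nd (.nd (.nd (.nd (.nd (.nd (.nd .leaf (nat_lit 18444) (nat_lit 238) (.p (nat_lit 181) (nat_lit 1) (.n (nat_lit 185) (nat_lit 1) (.p (nat_lit 189) (nat_lit 1) (.p (nat_lit 190) (nat_lit 1) .z)))) (.ct dF4_c1052689 (nat_lit 1) (nat_lit 1) (.s true (nat_lit 1) (nat_lit 5) (nat_lit 0) (nat_lit 2) (nat_lit 4) true (nat_lit 1) true (nat_lit 4) true (nat_lit 3) true (nat_lit 6) true (nat_lit 5) (.e true (nat_lit 1) (nat_lit 55) (nat_lit 4) (nat_lit 4) (.e false (nat_lit 1) (nat_lit 36) (nat_lit 5) (nat_lit 3) (.e false (nat_lit 1) (nat_lit 75) (nat_lit 0)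 (nat_lit 6) (.e false (nat_lit 1) (nat_lit 71) (nat_lit 2) (nat_lit 5) .nil)))))) .leaf) (nat_lit 18445) (nat_lit 253) (.p (nat_lit 191) (nat_lit 1) (.n (nat_lit 195) (nat_lit 1) (.p (nat_lit 199) (nat_lit 1) (.p (nat_lit 200) (nat_lit 1) .z)))) (.ct dF4_c69649 (nat_lit 1) (nat_lit 1) (.s true (nat_lit 1) (nat_lit 5) (nat_lit 1) (nat_lit 2) (nat_lit 4) true (nat_lit 1) true (nat_lit 4) true (nat_lit 3) true (nat_lit 6) true (nat_lit 5) (.e true (nat_lit 1) (nat_lit 58) (nat_lit 4) (nat_lit 4) (.e false (nat_lit 1) (nat_lit 39) (nat_lit 5) (nat_lit 3) (.e false (nat_lit 1) (nat_lit 75) (nat_lit 1) (nat_lit 6) (.e false (nat_lit 1) (nat_lit 74) (nat_lit 2) (nat_lit 5) .nil)))))) (.nd .leaf (nat_lit 18447) (nat_lit 297) (.n (nat_lit 223) (nat_lit 1) (.n (nat_lit 224) (nat_lit 1) (.n (nat_lit 225) (nat_lit 1) (.n (nat_lit 226) (nat_lit 1) (.p (nat_lit 227) (nat_lit 1) (.p (nat_lit 228) (nat_lit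 1) (.p (nat_lit 229) (nat_lit 1) (.p (nat_lit 230) (nat_lit 1) .z)))))))) (.ct dF4_c4369 (nat_lit 1) (nat_lit 0) (.s true (nat_lit 1) (nat_lit 5) (nat_lit 3) (nat_lit 2) (nat_lit 4) true (nat_lit 0) true (nat_lit 4) true (nat_lit 3) true (nat_lit 5) true (nat_lit 6) (.e true (nat_lit 1) (nat_lit 68) (nat_lit 4) (nat_lit 4) (.e true (nat_lit 1) (nat_lit 48) (nat_lit 5) (nat_lit 3) (.e false (nat_lit 1) (nat_lit 75) (nat_lit 3) (nat_lit 5) (.e false (nat_lit 1) (nat_lit 80) (nat_lit 2) (nat_lit 6) .nil)))))) .leaf)) (nat_lit 19456) (nat_lit 56) (.p (nat_lit 62) (nat_lit 1) .z) .df (.nd (.nd .leaf (nat_lit 19457) (nat_lit 59) (.p (nat_lit 65) (nat_lit 1) .z) .df .leaf) (nat_lit 19458) (nat_lit 62) (.p (nat_lit 68) (nat_lit 1) .z) .df .leaf)) (nat_lit 19460) (nat_lit 73) (.p (nat_lit 79) (nat_lit 1) .z) .df (.nd (.nd (.nd .leaf (nat_lit 19462) (nat_lit 179) (.p (nat_lit 142) (nat_lit 1) (.p (nat_lit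 146) (nat_lit 1) (.n (nat_lit 148) (nat_lit 1) (.n (nat_lit 150) (nat_lit 1) .z)))) (.ct dF4_c1114369 (nat_lit 1) (nat_lit 2) (.s true (nat_lit 1) (nat_lit 5) (nat_lit 0) (nat_lit 3) (nat_lit 1) true (nat_lit 2) true (nat_lit 5) true (nat_lit 3) true (nat_lit 6) true (nat_lit 4) (.e true (nat_lit 1) (nat_lit 61) (nat_lit 1) (nat_lit 5) (.e false (nat_lit 1) (nat_lit 25) (nat_lit 5) (nat_lit 3) (.e true (nat_lit 1) (nat_lit 63) (nat_lit 0) (nat_lit 6) (.e false (nat_lit 1) (nat_lit 53) (nat_lit 3) (nat_lit 4) .nil)))))) .leaf) (nat_lit 19463) (nat_lit 194) (.p (nat_lit 152) (nat_lit 1) (.p (nat_lit 156) (nat_lit 1) (.n (nat_lit 158) (nat_lit 1) (.n (nat_lit 160) (nat_lit 1) .z)))) (.ct dF4_c1052929 (nat_lit 1) (nat_lit 2) (.s true (nat_lit 1) (nat_lit 5) (nat_lit 0) (nat_lit 3) (nat_lit 2) true (nat_lit 2) true (nat_lit 5) true (nat_lit 3) true (nat_lit 6) true (nat_lit 4) (.e true (nat_lit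 1) (nat_lit 61) (nat_lit 2) (nat_lit 5) (.e false (nat_lit 1) (nat_lit 28) (nat_lit 5) (nat_lit 3) (.e true (nat_lit 1) (nat_lit 66) (nat_lit 0) (nat_lit 6) (.e false (nat_lit 1) (nat_lit 56) (nat_lit 3) (nat_lit 4) .nil)))))) .leaf) (nat_lit 19464) (nat_lit 209) (.p (nat_lit 162) (nat_lit 1) (.p (nat_lit 166) (nat_lit 1) (.n (nat_lit 168) (nat_lit 1) (.n (nat_lit 170) (nat_lit 1) .z)))) (.ct dF4_c69889 (nat_lit 1) (nat_lit 2) (.s true (nat_lit 1) (nat_lit 5) (nat_lit 1) (nat_lit 3) (nat_lit 2) true (nat_lit 2) true (nat_lit 5) true (nat_lit 3) true (nat_lit 6) true (nat_lit 4) (.e true (nat_lit 1) (nat_lit 64) (nat_lit 2) (nat_lit 5) (.e false (nat_lit 1) (nat_lit 31) (nat_lit 5) (nat_lit 3) (.e true (nat_lit 1) (nat_lit 66) (nat_lit 1) (nat_lit 6) (.e false (nat_lit 1) (nat_lit 59) (nat_lit 3) (nat_lit 4) .nil)))))) (.nd (.nd .leaf (nat_lit 19468) (nat_lit 268) (.p (nat_lit 201) (nat_lit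 1) (.n (nat_lit 205) (nat_lit 1) (.p (nat_lit 209) (nat_lit 1) (.p (nat_lit 210) (nat_lit 1) .z)))) (.ct dF4_c1048849 (nat_lit 1) (nat_lit 1) (.s true (nat_lit 1) (nat_lit 5) (nat_lit 0) (nat_lit 3) (nat_lit 4) true (nat_lit 1) true (nat_lit 4) true (nat_lit 3) true (nat_lit 6) true (nat_lit 5) (.e true (nat_lit 1) (nat_lit 61) (nat_lit 4) (nat_lit 4) (.e false (nat_lit 1) (nat_lit 42) (nat_lit 5) (nat_lit 3) (.e false (nat_lit 1) (nat_lit 78) (nat_lit 0) (nat_lit 6) (.e false (nat_lit 1) (nat_lit 71) (nat_lit 3) (nat_lit 5) .nil)))))) .leaf) (nat_lit 19469) (nat_lit 283) (.p (nat_lit 211) (nat_lit 1) (.n (nat_lit 215) (nat_lit 1) (.p (nat_lit 219) (nat_lit 1) (.p (nat_lit 220) (nat_lit 1) .z)))) (.ct dF4_c65809 (nat_lit 1) (nat_lit 1) (.s true (nat_lit 1) (nat_lit 5) (nat_lit 1) (nat_lit 3) (nat_lit 4) true (nat_lit 1) true (nat_lit 4) true (nat_lit 3) true (nat_lit 6) true (nat_lit 5) (.e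 true (nat_lit 1) (nat_lit 64) (nat_lit 4) (nat_lit 4) (.e false (nat_lit 1) (nat_lit 45) (nat_lit 5) (nat_lit 3) (.e false (nat_lit 1) (nat_lit 78) (nat_lit 1) (nat_lit 6) (.e false (nat_lit 1) (nat_lit 74) (nat_lit 3) (nat_lit 5) .nil)))))) .leaf))) (nat_lit 19470) (nat_lit 298) (.p (nat_lit 221) (nat_lit 1) (.n (nat_lit 225) (nat_lit 1) (.p (nat_lit 229) (nat_lit 1) (.p (nat_lit 230) (nat_lit 1) .z)))) (.ct dF4_c4369 (nat_lit 1) (nat_lit 1) (.s true (nat_lit 1) (nat_lit 5) (nat_lit 2) (nat_lit 3) (nat_lit 4) true (nat_lit 1) true (nat_lit 4) true (nat_lit 3) true (nat_lit 6) true (nat_lit 5) (.e true (nat_lit 1) (nat_lit 67) (nat_lit 4) (nat_lit 4) (.e false (nat_lit 1) (nat_lit 48) (nat_lit 5) (nat_lit 3) (.e false (nat_lit 1) (nat_lit 78) (nat_lit 2) (nat_lit 6) (.e false (nat_lit 1) (nat_lit 77) (nat_lit 3) (nat_lit 5) .nil)))))) (.nd (.nd (.nd (.nd .leaf (nat_lit 20480) (nat_lit 65) (.p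 (nat_lit 71) (nat_lit 1) .z) .df .leaf) (nat_lit 20481) (nat_lit 68) (.p (nat_lit 74) (nat_lit 1) .z) .df .leaf) (nat_lit 20482) (nat_lit 71) (.p (nat_lit 77) (nat_lit 1) .z) .df (.nd (.nd .leaf (nat_lit 20483) (nat_lit 74) (.p (nat_lit 80) (nat_lit 1) .z) .df .leaf) (nat_lit 20486) (nat_lit 224) (.p (nat_lit 172) (nat_lit 1) (.p (nat_lit 176) (nat_lit 1) (.n (nat_lit 178) (nat_lit 1) (.n (nat_lit 180) (nat_lit 1) .z)))) (.ct dF4_c1114129 (nat_lit 1) (nat_lit 2) (.s true (nat_lit 1) (nat_lit 5) (nat_lit 0) (nat_lit 4) (nat_lit 1) true (nat_lit 2) true (nat_lit 5) true (nat_lit 3) true (nat_lit 6) true (nat_lit 4) (.e true (nat_lit 1) (nat_lit 70) (nat_lit 1) (nat_lit 5) (.e false (nat_lit 1) (nat_lit 34) (nat_lit 5) (nat_lit 3) (.e true (nat_lit 1) (nat_lit 72) (nat_lit 0) (nat_lit 6) (.e false (nat_lit 1) (nat_lit 53) (nat_lit 4) (nat_lit 4) .nil)))))) .leaf)) (nat_lit 20487) (nat_lit 239)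 (.p (nat_lit 182) (nat_lit 1) (.p (nat_lit 186) (nat_lit 1) (.n (nat_lit 188) (nat_lit 1) (.n (nat_lit 190) (nat_lit 1) .z)))) (.ct dF4_c1052689 (nat_lit 1) (nat_lit 2) (.s true (nat_lit 1) (nat_lit 5) (nat_lit 0) (nat_lit 4) (nat_lit 2) true (nat_lit 2) true (nat_lit 5) true (nat_lit 3) true (nat_lit 6) true (nat_lit 4) (.e true (nat_lit 1) (nat_lit 70) (nat_lit 2) (nat_lit 5) (.e false (nat_lit 1) (nat_lit 37) (nat_lit 5) (nat_lit 3) (.e true (nat_lit 1) (nat_lit 75) (nat_lit 0) (nat_lit 6) (.e false (nat_lit 1) (nat_lit 56) (nat_lit 4) (nat_lit 4) .nil)))))) (.nd (.nd (.nd .leaf (nat_lit 20488) (nat_lit 254) (.p (nat_lit 192) (nat_lit 1) (.p (nat_lit 196) (nat_lit 1) (.n (nat_lit 198) (nat_lit 1) (.n (nat_lit 200) (nat_lit 1) .z)))) (.ct dF4_c69649 (nat_lit 1) (nat_lit 2) (.s true (nat_lit 1) (nat_lit 5) (nat_lit 1) (nat_lit 4) (nat_lit 2) true (nat_lit 2) true (nat_lit 5) true (nat_lit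 3) true (nat_lit 6) true (nat_lit 4) (.e true (nat_lit 1) (nat_lit 73) (nat_lit 2) (nat_lit 5) (.e false (nat_lit 1) (nat_lit 40) (nat_lit 5) (nat_lit 3) (.e true (nat_lit 1) (nat_lit 75) (nat_lit 1) (nat_lit 6) (.e false (nat_lit 1) (nat_lit 59) (nat_lit 4) (nat_lit 4) .nil)))))) .leaf) (nat_lit 20489) (nat_lit 269) (.p (nat_lit 202) (nat_lit 1) (.p (nat_lit 206) (nat_lit 1) (.n (nat_lit 208) (nat_lit 1) (.n (nat_lit 210) (nat_lit 1) .z)))) (.ct dF4_c1048849 (nat_lit 1) (nat_lit 2) (.s true (nat_lit 1) (nat_lit 5) (nat_lit 0) (nat_lit 4) (nat_lit 3) true (nat_lit 2) true (nat_lit 5) true (nat_lit 3) true (nat_lit 6) true (nat_lit 4) (.e true (nat_lit 1) (nat_lit 70) (nat_lit 3) (nat_lit 5) (.e false (nat_lit 1) (nat_lit 43) (nat_lit 5) (nat_lit 3) (.e true (nat_lit 1) (nat_lit 78) (nat_lit 0) (nat_lit 6) (.e false (nat_lit 1) (nat_lit 62) (nat_lit 4) (nat_lit 4) .nil)))))) .leaf) (nat_lit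 20490) (nat_lit 284) (.p (nat_lit 212) (nat_lit 1) (.p (nat_lit 216) (nat_lit 1) (.n (nat_lit 218) (nat_lit 1) (.n (nat_lit 220) (nat_lit 1) .z)))) (.ct dF4_c65809 (nat_lit 1) (nat_lit 2) (.s true (nat_lit 1) (nat_lit 5) (nat_lit 1) (nat_lit 4) (nat_lit 3) true (nat_lit 2) true (nat_lit 5) true (nat_lit 3) true (nat_lit 6) true (nat_lit 4) (.e true (nat_lit 1) (nat_lit 73) (nat_lit 3) (nat_lit 5) (.e false (nat_lit 1) (nat_lit 46) (nat_lit 5) (nat_lit 3) (.e true (nat_lit 1) (nat_lit 78) (nat_lit 1) (nat_lit 6) (.e false (nat_lit 1) (nat_lit 65) (nat_lit 4) (nat_lit 4) .nil)))))) (.nd (.nd .leaf (nat_lit 20491) (nat_lit 299) (.p (nat_lit 222) (nat_lit 1) (.p (nat_lit 226) (nat_lit 1) (.n (nat_lit 228) (nat_lit 1) (.n (nat_lit 230) (nat_lit 1) .z)))) (.ct dF4_c4369 (nat_lit 1) (nat_lit 2) (.s true (nat_lit 1) (nat_lit 5) (nat_lit 2) (nat_lit 4) (nat_lit 3) true (nat_lit 2) true (nat_lit 5) true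 (nat_lit 3) true (nat_lit 6) true (nat_lit 4) (.e true (nat_lit 1) (nat_lit 76) (nat_lit 3) (nat_lit 5) (.e false (nat_lit 1) (nat_lit 49) (nat_lit 5) (nat_lit 3) (.e true (nat_lit 1) (nat_lit 78) (nat_lit 2) (nat_lit 6) (.e false (nat_lit 1) (nat_lit 68) (nat_lit 4) (nat_lit 4) .nil)))))) .leaf) (nat_lit 21507) (nat_lit 75) (.p (nat_lit 81) (nat_lit 1) .z) .df .leaf)))) (nat_lit 21508) (nat_lit 90) (.p (nat_lit 91) (nat_lit 1) .z) .df (.nd (.nd (.nd (.nd (.nd .leaf (nat_lit 21509) (nat_lit 150) (.p (nat_lit 131) (nat_lit 1) .z) .df .leaf) (nat_lit 21519) (nat_lit 359) (.n (nat_lit 232) (nat_lit 1) (.p (nat_lit 233) (nat_lit 2) (.p (nat_lit 234) (nat_lit 1) (.p (nat_lit 235) (nat_lit 2) (.n (nat_lit 236) (nat_lit 1) (.n (nat_lit 238) (nat_lit 1) (.p (nat_lit 240) (nat_lit 1) (.p (nat_lit 243) (nat_lit 1) (.p (nat_lit 244) (nat_lit 1) (.n (nat_lit 245) (nat_lit 1) (.n (nat_lit 247) (nat_lit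 2) (.n (nat_lit 248) (nat_lit 1) (.n (nat_lit 249) (nat_lit 2) (.n (nat_lit 250) (nat_lit 1) (.p (nat_lit 251) (nat_lit 1) (.p (nat_lit 252) (nat_lit 1) (.n (nat_lit 253) (nat_lit 1) (.n (nat_lit 254) (nat_lit 1) (.n (nat_lit 255) (nat_lit 1) (.n (nat_lit 256) (nat_lit 1) (.p (nat_lit 259) (nat_lit 1) (.n (nat_lit 260) (nat_lit 1) (.p (nat_lit 261) (nat_lit 1) (.p (nat_lit 262) (nat_lit 1) (.n (nat_lit 263) (nat_lit 1) (.n (nat_lit 264) (nat_lit 1) (.n (nat_lit 265) (nat_lit 2) (.n (nat_lit 266) (nat_lit 1) (.n (nat_lit 267) (nat_lit 1) (.n (nat_lit 268) (nat_lit 2) (.p (nat_lit 269) (nat_lit 1) (.p (nat_lit 270) (nat_lit 3) (.p (nat_lit 272) (nat_lit 2) (.p (nat_lit 273) (nat_lit 3) .z)))))))))))))))))))))))))))))))))) (.ct dF4_c1118480 (nat_lit 1) (nat_lit 0) (.s true (nat_lit 1) (nat_lit 6) (nat_lit 2) (nat_lit 3) (nat_lit 4) true (nat_lit 1) true (nat_lit 10) true (nat_lit 9) true (nat_lit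 12) true (nat_lit 11) (.s true (nat_lit 1) (nat_lit 6) (nat_lit 3) (nat_lit 2) (nat_lit 4) true (nat_lit 0) true (nat_lit 10) true (nat_lit 9) true (nat_lit 11) true (nat_lit 12) (.e true (nat_lit 1) (nat_lit 24) (nat_lit 14) (nat_lit 1) (.e true (nat_lit 1) (nat_lit 81) (nat_lit 4) (nat_lit 10) (.e false (nat_lit 1) (nat_lit 102) (nat_lit 2) (nat_lit 12) (.e false (nat_lit 1) (nat_lit 106) (nat_lit 2) (nat_lit 12) (.e true (nat_lit 1) (nat_lit 108) (nat_lit 2) (nat_lit 12) (.e true (nat_lit 1) (nat_lit 110) (nat_lit 2) (nat_lit 12) (.e false (nat_lit 1) (nat_lit 94) (nat_lit 3) (nat_lit 11) (.e true (nat_lit 1) (nat_lit 84) (nat_lit 4) (nat_lit 10) (.e false (nat_lit 1) (nat_lit 92) (nat_lit 3) (nat_lit 11) (.e false (nat_lit 1) (nat_lit 96) (nat_lit 3) (nat_lit 11) (.e true (nat_lit 1) (nat_lit 98) (nat_lit 3) (nat_lit 11) (.e true (nat_lit 1) (nat_lit 100) (nat_lit 3) (nat_lit 11) (.e false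 (nat_lit 1) (nat_lit 104) (nat_lit 2) (nat_lit 12) .nil)))))))))))))))) .leaf) (nat_lit 21523) (nat_lit 439) (.n (nat_lit 276) (nat_lit 1) (.p (nat_lit 277) (nat_lit 2) (.p (nat_lit 278) (nat_lit 1) (.p (nat_lit 279) (nat_lit 2) (.n (nat_lit 280) (nat_lit 1) (.n (nat_lit 282) (nat_lit 1) (.p (nat_lit 284) (nat_lit 1) (.p (nat_lit 287) (nat_lit 1) (.p (nat_lit 288) (nat_lit 1) (.n (nat_lit 289) (nat_lit 1) (.n (nat_lit 291) (nat_lit 2) (.n (nat_lit 292) (nat_lit 1) (.n (nat_lit 293) (nat_lit 2) (.n (nat_lit 294) (nat_lit 1) (.p (nat_lit 295) (nat_lit 1) (.p (nat_lit 296) (nat_lit 1) (.n (nat_lit 297) (nat_lit 1) (.n (nat_lit 298) (nat_lit 1) (.n (nat_lit 299) (nat_lit 1) (.n (nat_lit 300) (nat_lit 1) (.p (nat_lit 303) (nat_lit 1) (.n (nat_lit 304) (nat_lit 1) (.p (nat_lit 305) (nat_lit 1) (.p (nat_lit 306) (nat_lit 1) (.n (nat_lit 307) (nat_lit 1) (.n (nat_lit 308) (nat_lit 1) (.n (nat_lit 309)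 (nat_lit 2) (.n (nat_lit 310) (nat_lit 1) (.n (nat_lit 311) (nat_lit 1) (.n (nat_lit 312) (nat_lit 2) (.p (nat_lit 313) (nat_lit 1) (.p (nat_lit 314) (nat_lit 3) (.p (nat_lit 316) (nat_lit 2) (.p (nat_lit 317) (nat_lit 3) .z)))))))))))))))))))))))))))))))))) (.ct dF4_c1118465 (nat_lit 1) (nat_lit 0) (.s true (nat_lit 1) (nat_lit 6) (nat_lit 2) (nat_lit 3) (nat_lit 5) true (nat_lit 1) true (nat_lit 10) true (nat_lit 9) true (nat_lit 12) true (nat_lit 11) (.s true (nat_lit 1) (nat_lit 6) (nat_lit 3) (nat_lit 2) (nat_lit 5) true (nat_lit 0) true (nat_lit 10) true (nat_lit 9) true (nat_lit 11) true (nat_lit 12) (.e true (nat_lit 1) (nat_lit 24) (nat_lit 18) (nat_lit 1) (.e true (nat_lit 1) (nat_lit 81) (nat_lit 5) (nat_lit 10) (.e false (nat_lit 1) (nat_lit 142) (nat_lit 2) (nat_lit 12) (.e false (nat_lit 1) (nat_lit 146) (nat_lit 2) (nat_lit 12) (.e true (nat_lit 1) (nat_lit 148) (nat_lit 2) (nat_lit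 12) (.e true (nat_lit 1) (nat_lit 150) (nat_lit 2) (nat_lit 12) (.e false (nat_lit 1) (nat_lit 134) (nat_lit 3) (nat_lit 11) (.e true (nat_lit 1) (nat_lit 84) (nat_lit 5) (nat_lit 10) (.e false (nat_lit 1) (nat_lit 132) (nat_lit 3) (nat_lit 11) (.e false (nat_lit 1) (nat_lit 136) (nat_lit 3) (nat_lit 11) (.e true (nat_lit 1) (nat_lit 138) (nat_lit 3) (nat_lit 11) (.e true (nat_lit 1) (nat_lit 140) (nat_lit 3) (nat_lit 11) (.e false (nat_lit 1) (nat_lit 144) (nat_lit 2) (nat_lit 12) .nil)))))))))))))))) (.nd (.nd .leaf (nat_lit 21524) (nat_lit 518) (.n (nat_lit 320) (nat_lit 1) (.p (nat_lit 321) (nat_lit 2) (.p (nat_lit 322) (nat_lit 1) (.p (nat_lit 323) (nat_lit 2) (.n (nat_lit 324) (nat_lit 1) (.n (nat_lit 326) (nat_lit 1) (.p (nat_lit 328) (nat_lit 1) (.p (nat_lit 331) (nat_lit 1) (.p (nat_lit 332) (nat_lit 1) (.n (nat_lit 333) (nat_lit 1) (.n (nat_lit 335) (nat_lit 2) (.n (nat_lit 336) (nat_lit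 1) (.n (nat_lit 337) (nat_lit 2) (.n (nat_lit 338) (nat_lit 1) (.p (nat_lit 339) (nat_lit 1) (.p (nat_lit 340) (nat_lit 1) (.n (nat_lit 341) (nat_lit 1) (.n (nat_lit 342) (nat_lit 1) (.n (nat_lit 343) (nat_lit 1) (.n (nat_lit 344) (nat_lit 1) (.p (nat_lit 347) (nat_lit 1) (.n (nat_lit 348) (nat_lit 1) (.p (nat_lit 349) (nat_lit 1) (.p (nat_lit 350) (nat_lit 1) (.n (nat_lit 351) (nat_lit 1) (.n (nat_lit 352) (nat_lit 1) (.n (nat_lit 353) (nat_lit 2) (.n (nat_lit 354) (nat_lit 1) (.n (nat_lit 355) (nat_lit 1) (.n (nat_lit 356) (nat_lit 2) (.p (nat_lit 357) (nat_lit 1) (.p (nat_lit 358) (nat_lit 3) (.p (nat_lit 360) (nat_lit 2) (.p (nat_lit 361) (nat_lit 3) .z)))))))))))))))))))))))))))))))))) (.ct dF4_c1118225 (nat_lit 1) (nat_lit 0) (.s true (nat_lit 1) (nat_lit 6) (nat_lit 2) (nat_lit 4) (nat_lit 5) true (nat_lit 1) true (nat_lit 10) true (nat_lit 9) true (nat_lit 12) true (nat_lit 11) (.s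 true (nat_lit 1) (nat_lit 6) (nat_lit 4) (nat_lit 2) (nat_lit 5) true (nat_lit 0) true (nat_lit 10) true (nat_lit 9) true (nat_lit 11) true (nat_lit 12) (.e true (nat_lit 1) (nat_lit 33) (nat_lit 18) (nat_lit 1) (.e true (nat_lit 1) (nat_lit 91) (nat_lit 5) (nat_lit 10) (.e false (nat_lit 1) (nat_lit 172) (nat_lit 2) (nat_lit 12) (.e false (nat_lit 1) (nat_lit 176) (nat_lit 2) (nat_lit 12) (.e true (nat_lit 1) (nat_lit 178) (nat_lit 2) (nat_lit 12) (.e true (nat_lit 1) (nat_lit 180) (nat_lit 2) (nat_lit 12) (.e false (nat_lit 1) (nat_lit 134) (nat_lit 4) (nat_lit 11) (.e true (nat_lit 1) (nat_lit 94) (nat_lit 5) (nat_lit 10) (.e false (nat_lit 1) (nat_lit 132) (nat_lit 4) (nat_lit 11) (.e false (nat_lit 1) (nat_lit 136) (nat_lit 4) (nat_lit 11) (.e true (nat_lit 1) (nat_lit 138) (nat_lit 4) (nat_lit 11) (.e true (nat_lit 1) (nat_lit 140) (nat_lit 4) (nat_lit 11) (.e false (nat_lit 1) (nat_lit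 174) (nat_lit 2) (nat_lit 12) .nil)))))))))))))))) .leaf) (nat_lit 22531) (nat_lit 76) (.p (nat_lit 82) (nat_lit 1) .z) .df .leaf)) (nat_lit 22532) (nat_lit 91) (.p (nat_lit 92) (nat_lit 1) .z) .df (.nd (.nd (.nd .leaf (nat_lit 22533) (nat_lit 151) (.p (nat_lit 132) (nat_lit 1) .z) .df .leaf) (nat_lit 22543) (nat_lit 360) (.n (nat_lit 232) (nat_lit 1) (.n (nat_lit 236) (nat_lit 1) (.p (nat_lit 237) (nat_lit 1) (.p (nat_lit 239) (nat_lit 1) (.p (nat_lit 240) (nat_lit 1) (.n (nat_lit 249) (nat_lit 1) (.p (nat_lit 251) (nat_lit 1) (.p (nat_lit 252) (nat_lit 1) (.n (nat_lit 254) (nat_lit 1) (.n (nat_lit 255) (nat_lit 1) (.n (nat_lit 256) (nat_lit 1) (.p (nat_lit 262) (nat_lit 1) (.n (nat_lit 264) (nat_lit 1) (.n (nat_lit 268) (nat_lit 1) (.p (nat_lit 270) (nat_lit 1) (.p (nat_lit 272) (nat_lit 1) (.p (nat_lit 273) (nat_lit 1) .z))))))))))))))))) (.ct dF4_c1118480 (nat_lit 1) (nat_lit 0) (.s true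 (nat_lit 1) (nat_lit 7) (nat_lit 1) (nat_lit 3) (nat_lit 4) true (nat_lit 2) true (nat_lit 10) true (nat_lit 8) true (nat_lit 13) true (nat_lit 11) (.s true (nat_lit 1) (nat_lit 7) (nat_lit 3) (nat_lit 1) (nat_lit 4) true (nat_lit 0) true (nat_lit 10) true (nat_lit 8) true (nat_lit 11) true (nat_lit 13) (.e true (nat_lit 1) (nat_lit 27) (nat_lit 13) (nat_lit 2) (.e true (nat_lit 1) (nat_lit 82) (nat_lit 4) (nat_lit 10) (.e false (nat_lit 1) (nat_lit 112) (nat_lit 1) (nat_lit 13) (.e false (nat_lit 1) (nat_lit 116) (nat_lit 1) (nat_lit 13) (.e true (nat_lit 1) (nat_lit 118) (nat_lit 1) (nat_lit 13) (.e true (nat_lit 1) (nat_lit 120) (nat_lit 1) (nat_lit 13) (.e false (nat_lit 1) (nat_lit 97) (nat_lit 3) (nat_lit 11) (.e true (nat_lit 1) (nat_lit 87) (nat_lit 4) (nat_lit 10) (.e false (nat_lit 1) (nat_lit 91) (nat_lit 3) (nat_lit 11) (.e true (nat_lit 1) (nat_lit 95) (nat_lit 3) (nat_lit 11)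 (.e false (nat_lit 1) (nat_lit 99) (nat_lit 3) (nat_lit 11) (.e false (nat_lit 1) (nat_lit 100) (nat_lit 3) (nat_lit 11) (.e false (nat_lit 1) (nat_lit 114) (nat_lit 1) (nat_lit 13) .nil)))))))))))))))) .leaf) (nat_lit 22547) (nat_lit 440) (.n (nat_lit 276) (nat_lit 1) (.n (nat_lit 280) (nat_lit 1) (.p (nat_lit 281) (nat_lit 1) (.p (nat_lit 283) (nat_lit 1) (.p (nat_lit 284) (nat_lit 1) (.n (nat_lit 293) (nat_lit 1) (.p (nat_lit 295) (nat_lit 1) (.p (nat_lit 296) (nat_lit 1) (.n (nat_lit 298) (nat_lit 1) (.n (nat_lit 299) (nat_lit 1) (.n (nat_lit 300) (nat_lit 1) (.p (nat_lit 306) (nat_lit 1) (.n (nat_lit 308) (nat_lit 1) (.n (nat_lit 312) (nat_lit 1) (.p (nat_lit 314) (nat_lit 1) (.p (nat_lit 316) (nat_lit 1) (.p (nat_lit 317) (nat_lit 1) .z))))))))))))))))) (.ct dF4_c1118465 (nat_lit 1) (nat_lit 0) (.s true (nat_lit 1) (nat_lit 7) (nat_lit 1) (nat_lit 3) (nat_lit 5) true (nat_lit 2) true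 (nat_lit 10) true (nat_lit 8) true (nat_lit 13) true (nat_lit 11) (.s true (nat_lit 1) (nat_lit 7) (nat_lit 3) (nat_lit 1) (nat_lit 5) true (nat_lit 0) true (nat_lit 10) true (nat_lit 8) true (nat_lit 11) true (nat_lit 13) (.e true (nat_lit 1) (nat_lit 27) (nat_lit 17) (nat_lit 2) (.e true (nat_lit 1) (nat_lit 82) (nat_lit 5) (nat_lit 10) (.e false (nat_lit 1) (nat_lit 152) (nat_lit 1) (nat_lit 13) (.e false (nat_lit 1) (nat_lit 156) (nat_lit 1) (nat_lit 13) (.e true (nat_lit 1) (nat_lit 158) (nat_lit 1) (nat_lit 13) (.e true (nat_lit 1) (nat_lit 160) (nat_lit 1) (nat_lit 13) (.e false (nat_lit 1) (nat_lit 137) (nat_lit 3) (nat_lit 11) (.e true (nat_lit 1) (nat_lit 87) (nat_lit 5) (nat_lit 10) (.e false (nat_lit 1) (nat_lit 131) (nat_lit 3) (nat_lit 11) (.e true (nat_lit 1) (nat_lit 135) (nat_lit 3) (nat_lit 11) (.e false (nat_lit 1) (nat_lit 139) (nat_lit 3) (nat_lit 11) (.e false (nat_lit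 1) (nat_lit 140) (nat_lit 3) (nat_lit 11) (.e false (nat_lit 1) (nat_lit 154) (nat_lit 1) (nat_lit 13) .nil)))))))))))))))) (.nd (.nd .leaf (nat_lit 22548) (nat_lit 519) (.n (nat_lit 320) (nat_lit 1) (.n (nat_lit 324) (nat_lit 1) (.p (nat_lit 325) (nat_lit 1) (.p (nat_lit 327) (nat_lit 1) (.p (nat_lit 328) (nat_lit 1) (.n (nat_lit 337) (nat_lit 1) (.p (nat_lit 339) (nat_lit 1) (.p (nat_lit 340) (nat_lit 1) (.n (nat_lit 342) (nat_lit 1) (.n (nat_lit 343) (nat_lit 1) (.n (nat_lit 344) (nat_lit 1) (.p (nat_lit 350) (nat_lit 1) (.n (nat_lit 352) (nat_lit 1) (.n (nat_lit 356) (nat_lit 1) (.p (nat_lit 358) (nat_lit 1) (.p (nat_lit 360) (nat_lit 1) (.p (nat_lit 361) (nat_lit 1) .z))))))))))))))))) (.ct dF4_c1118225 (nat_lit 1) (nat_lit 0) (.s true (nat_lit 1) (nat_lit 7) (nat_lit 1) (nat_lit 4) (nat_lit 5) true (nat_lit 2) true (nat_lit 10) true (nat_lit 8) true (nat_lit 13) true (nat_lit 11) (.s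 true (nat_lit 1) (nat_lit 7) (nat_lit 4) (nat_lit 1) (nat_lit 5) true (nat_lit 0) true (nat_lit 10) true (nat_lit 8) true (nat_lit 11) true (nat_lit 13) (.e true (nat_lit 1) (nat_lit 36) (nat_lit 17) (nat_lit 2) (.e true (nat_lit 1) (nat_lit 92) (nat_lit 5) (nat_lit 10) (.e false (nat_lit 1) (nat_lit 182) (nat_lit 1) (nat_lit 13) (.e false (nat_lit 1) (nat_lit 186) (nat_lit 1) (nat_lit 13) (.e true (nat_lit 1) (nat_lit 188) (nat_lit 1) (nat_lit 13) (.e true (nat_lit 1) (nat_lit 190) (nat_lit 1) (nat_lit 13) (.e false (nat_lit 1) (nat_lit 137) (nat_lit 4) (nat_lit 11) (.e true (nat_lit 1) (nat_lit 97) (nat_lit 5) (nat_lit 10) (.e false (nat_lit 1) (nat_lit 131) (nat_lit 4) (nat_lit 11) (.e true (nat_lit 1) (nat_lit 135) (nat_lit 4) (nat_lit 11) (.e false (nat_lit 1) (nat_lit 139) (nat_lit 4) (nat_lit 11) (.e false (nat_lit 1) (nat_lit 140) (nat_lit 4) (nat_lit 11) (.e false (nat_lit 1) (nat_lit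 184) (nat_lit 1) (nat_lit 13) .nil)))))))))))))))) .leaf) (nat_lit 23555) (nat_lit 77) (.p (nat_lit 83) (nat_lit 1) .z) .df .leaf))) (nat_lit 23556) (nat_lit 92) (.p (nat_lit 93) (nat_lit 1) .z) .df (.nd (.nd (.nd (.nd .leaf (nat_lit 23557) (nat_lit 152) (.p (nat_lit 133) (nat_lit 1) .z) .df .leaf) (nat_lit 23567) (nat_lit 361) (.n (nat_lit 232) (nat_lit 1) (.n (nat_lit 233) (nat_lit 1) (.n (nat_lit 234) (nat_lit 1) (.n (nat_lit 235) (nat_lit 1) (.n (nat_lit 236) (nat_lit 1) (.p (nat_lit 237) (nat_lit 1) (.p (nat_lit 238) (nat_lit 1) (.p (nat_lit 239) (nat_lit 1) (.p (nat_lit 240) (nat_lit 1) (.n (nat_lit 242) (nat_lit 1) (.n (nat_lit 243) (nat_lit 2) (.n (nat_lit 244) (nat_lit 1) (.p (nat_lit 245) (nat_lit 1) (.p (nat_lit 246) (nat_lit 1) (.p (nat_lit 247) (nat_lit 2) (.p (nat_lit 248) (nat_lit 2) (.p (nat_lit 250) (nat_lit 2) (.p (nat_lit 253) (nat_lit 2) (.n (nat_lit 254) (nat_lit 1) (.n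 (nat_lit 256) (nat_lit 1) (.p (nat_lit 257) (nat_lit 1) (.n (nat_lit 259) (nat_lit 1) (.n (nat_lit 261) (nat_lit 1) (.p (nat_lit 262) (nat_lit 1) (.p (nat_lit 265) (nat_lit 2) (.p (nat_lit 266) (nat_lit 2) (.p (nat_lit 267) (nat_lit 1) (.p (nat_lit 268) (nat_lit 1) (.n (nat_lit 269) (nat_lit 1) (.n (nat_lit 270) (nat_lit 2) (.n (nat_lit 271) (nat_lit 1) (.n (nat_lit 272) (nat_lit 1) (.n (nat_lit 273) (nat_lit 1) .z))))))))))))))))))))))))))))))))) (.ct dF4_c1118480 (nat_lit 1) (nat_lit 0) (.s true (nat_lit 1) (nat_lit 6) (nat_lit 3) (nat_lit 4) (nat_lit 2) true (nat_lit 4) true (nat_lit 12) true (nat_lit 9) true (nat_lit 11) true (nat_lit 10) (.s false (nat_lit 1) (nat_lit 15) (nat_lit 1) (nat_lit 2) (nat_lit 0) true (nat_lit 9) true (nat_lit 14) true (nat_lit 0) true (nat_lit 13) true (nat_lit 12) (.e false (nat_lit 1) (nat_lit 33) (nat_lit 11) (nat_lit 4) (.e true (nat_lit 1) (nat_lit 101)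 (nat_lit 2) (nat_lit 12) (.e true (nat_lit 1) (nat_lit 92) (nat_lit 3) (nat_lit 11) (.e true (nat_lit 1) (nat_lit 96) (nat_lit 3) (nat_lit 11) (.e false (nat_lit 1) (nat_lit 98) (nat_lit 3) (nat_lit 11) (.e false (nat_lit 1) (nat_lit 100) (nat_lit 3) (nat_lit 11) (.e false (nat_lit 1) (nat_lit 81) (nat_lit 4) (nat_lit 10) (.e false (nat_lit 1) (nat_lit 129) (nat_lit 0) (nat_lit 14) (.e true (nat_lit 1) (nat_lit 112) (nat_lit 1) (nat_lit 13) (.e true (nat_lit 1) (nat_lit 116) (nat_lit 1) (nat_lit 13) (.e false (nat_lit 1) (nat_lit 118) (nat_lit 1) (nat_lit 13) (.e false (nat_lit 1) (nat_lit 120) (nat_lit 1) (nat_lit 13) (.e true (nat_lit 1) (nat_lit 109) (nat_lit 2) (nat_lit 12) .nil)))))))))))))))) .leaf) (nat_lit 23571) (nat_lit 441) (.n (nat_lit 276) (nat_lit 1) (.n (nat_lit 277) (nat_lit 1) (.n (nat_lit 278) (nat_lit 1) (.n (nat_lit 279) (nat_lit 1) (.n (nat_lit 280) (nat_lit 1) (.p (nat_lit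 281) (nat_lit 1) (.p (nat_lit 282) (nat_lit 1) (.p (nat_lit 283) (nat_lit 1) (.p (nat_lit 284) (nat_lit 1) (.n (nat_lit 286) (nat_lit 1) (.n (nat_lit 287) (nat_lit 2) (.n (nat_lit 288) (nat_lit 1) (.p (nat_lit 289) (nat_lit 1) (.p (nat_lit 290) (nat_lit 1) (.p (nat_lit 291) (nat_lit 2) (.p (nat_lit 292) (nat_lit 2) (.p (nat_lit 294) (nat_lit 2) (.p (nat_lit 297) (nat_lit 2) (.n (nat_lit 298) (nat_lit 1) (.n (nat_lit 300) (nat_lit 1) (.p (nat_lit 301) (nat_lit 1) (.n (nat_lit 303) (nat_lit 1) (.n (nat_lit 305) (nat_lit 1) (.p (nat_lit 306) (nat_lit 1) (.p (nat_lit 309) (nat_lit 2) (.p (nat_lit 310) (nat_lit 2) (.p (nat_lit 311) (nat_lit 1) (.p (nat_lit 312) (nat_lit 1) (.n (nat_lit 313) (nat_lit 1) (.n (nat_lit 314) (nat_lit 2) (.n (nat_lit 315) (nat_lit 1) (.n (nat_lit 316) (nat_lit 1) (.n (nat_lit 317) (nat_lit 1) .z))))))))))))))))))))))))))))))))) (.ct dF4_c1118465 (nat_lit 1) (nat_lit 0)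 (.s true (nat_lit 1) (nat_lit 6) (nat_lit 3) (nat_lit 5) (nat_lit 2) true (nat_lit 4) true (nat_lit 12) true (nat_lit 9) true (nat_lit 11) true (nat_lit 10) (.s false (nat_lit 1) (nat_lit 19) (nat_lit 1) (nat_lit 2) (nat_lit 0) true (nat_lit 9) true (nat_lit 14) true (nat_lit 0) true (nat_lit 13) true (nat_lit 12) (.e false (nat_lit 1) (nat_lit 51) (nat_lit 11) (nat_lit 4) (.e true (nat_lit 1) (nat_lit 141) (nat_lit 2) (nat_lit 12) (.e true (nat_lit 1) (nat_lit 132) (nat_lit 3) (nat_lit 11) (.e true (nat_lit 1) (nat_lit 136) (nat_lit 3) (nat_lit 11) (.e false (nat_lit 1) (nat_lit 138) (nat_lit 3) (nat_lit 11) (.e false (nat_lit 1) (nat_lit 140) (nat_lit 3) (nat_lit 11) (.e false (nat_lit 1) (nat_lit 81) (nat_lit 5) (nat_lit 10) (.e false (nat_lit 1) (nat_lit 169) (nat_lit 0) (nat_lit 14) (.e true (nat_lit 1) (nat_lit 152) (nat_lit 1) (nat_lit 13) (.e true (nat_lit 1) (nat_lit 156) (nat_lit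 1) (nat_lit 13) (.e false (nat_lit 1) (nat_lit 158) (nat_lit 1) (nat_lit 13) (.e false (nat_lit 1) (nat_lit 160) (nat_lit 1) (nat_lit 13) (.e true (nat_lit 1) (nat_lit 149) (nat_lit 2) (nat_lit 12) .nil)))))))))))))))) (.nd (.nd .leaf (nat_lit 23572) (nat_lit 520) (.n (nat_lit 320) (nat_lit 1) (.n (nat_lit 321) (nat_lit 1) (.n (nat_lit 322) (nat_lit 1) (.n (nat_lit 323) (nat_lit 1) (.n (nat_lit 324) (nat_lit 1) (.p (nat_lit 325) (nat_lit 1) (.p (nat_lit 326) (nat_lit 1) (.p (nat_lit 327) (nat_lit 1) (.p (nat_lit 328) (nat_lit 1) (.n (nat_lit 330) (nat_lit 1) (.n (nat_lit 331) (nat_lit 2) (.n (nat_lit 332) (nat_lit 1) (.p (nat_lit 333) (nat_lit 1) (.p (nat_lit 334) (nat_lit 1) (.p (nat_lit 335) (nat_lit 2) (.p (nat_lit 336) (nat_lit 2) (.p (nat_lit 338) (nat_lit 2) (.p (nat_lit 341) (nat_lit 2) (.n (nat_lit 342) (nat_lit 1) (.n (nat_lit 344) (nat_lit 1) (.p (nat_lit 345) (nat_lit 1) (.n (nat_lit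 347) (nat_lit 1) (.n (nat_lit 349) (nat_lit 1) (.p (nat_lit 350) (nat_lit 1) (.p (nat_lit 353) (nat_lit 2) (.p (nat_lit 354) (nat_lit 2) (.p (nat_lit 355) (nat_lit 1) (.p (nat_lit 356) (nat_lit 1) (.n (nat_lit 357) (nat_lit 1) (.n (nat_lit 358) (nat_lit 2) (.n (nat_lit 359) (nat_lit 1) (.n (nat_lit 360) (nat_lit 1) (.n (nat_lit 361) (nat_lit 1) .z))))))))))))))))))))))))))))))))) (.ct dF4_c1118225 (nat_lit 1) (nat_lit 0) (.s true (nat_lit 1) (nat_lit 6) (nat_lit 4) (nat_lit 5) (nat_lit 2) true (nat_lit 4) true (nat_lit 12) true (nat_lit 9) true (nat_lit 11) true (nat_lit 10) (.s false (nat_lit 1) (nat_lit 20) (nat_lit 1) (nat_lit 2) (nat_lit 0) true (nat_lit 9) true (nat_lit 14) true (nat_lit 0) true (nat_lit 13) true (nat_lit 12) (.e false (nat_lit 1) (nat_lit 51) (nat_lit 14) (nat_lit 4) (.e true (nat_lit 1) (nat_lit 171) (nat_lit 2) (nat_lit 12) (.e true (nat_lit 1) (nat_lit 132) (nat_lit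 4) (nat_lit 11) (.e true (nat_lit 1) (nat_lit 136) (nat_lit 4) (nat_lit 11) (.e false (nat_lit 1) (nat_lit 138) (nat_lit 4) (nat_lit 11) (.e false (nat_lit 1) (nat_lit 140) (nat_lit 4) (nat_lit 11) (.e false (nat_lit 1) (nat_lit 91) (nat_lit 5) (nat_lit 10) (.e false (nat_lit 1) (nat_lit 199) (nat_lit 0) (nat_lit 14) (.e true (nat_lit 1) (nat_lit 182) (nat_lit 1) (nat_lit 13) (.e true (nat_lit 1) (nat_lit 186) (nat_lit 1) (nat_lit 13) (.e false (nat_lit 1) (nat_lit 188) (nat_lit 1) (nat_lit 13) (.e false (nat_lit 1) (nat_lit 190) (nat_lit 1) (nat_lit 13) (.e true (nat_lit 1) (nat_lit 179) (nat_lit 2) (nat_lit 12) .nil)))))))))))))))) .leaf) (nat_lit 24578) (nat_lit 78) (.p (nat_lit 84) (nat_lit 1) .z) .df .leaf)) (nat_lit 24580) (nat_lit 105) (.p (nat_lit 101) (nat_lit 1) .z) .df (.nd (.nd (.nd .leaf (nat_lit 24581) (nat_lit 165) (.p (nat_lit 141) (nat_lit 1) .z) .df .leaf) (nat_lit 24590)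 (nat_lit 342) (.p (nat_lit 273) (nat_lit 1) .z) .df .leaf) (nat_lit 24594) (nat_lit 422) (.p (nat_lit 317) (nat_lit 1) .z) .df (.nd (.nd .leaf (nat_lit 24596) (nat_lit 597) (.n (nat_lit 364) (nat_lit 1) (.p (nat_lit 365) (nat_lit 2) (.p (nat_lit 366) (nat_lit 1) (.p (nat_lit 367) (nat_lit 2) (.n (nat_lit 368) (nat_lit 1) (.n (nat_lit 370) (nat_lit 1) (.p (nat_lit 372) (nat_lit 1) (.p (nat_lit 375) (nat_lit 1) (.p (nat_lit 376) (nat_lit 1) (.n (nat_lit 377) (nat_lit 1) (.n (nat_lit 379) (nat_lit 2) (.n (nat_lit 380) (nat_lit 1) (.n (nat_lit 381) (nat_lit 2) (.n (nat_lit 382) (nat_lit 1) (.p (nat_lit 383) (nat_lit 1) (.p (nat_lit 384) (nat_lit 1) (.n (nat_lit 385) (nat_lit 1) (.n (nat_lit 386) (nat_lit 1) (.n (nat_lit 387) (nat_lit 1) (.n (nat_lit 388) (nat_lit 1) (.p (nat_lit 391) (nat_lit 1) (.n (nat_lit 392) (nat_lit 1) (.p (nat_lit 393) (nat_lit 1) (.p (nat_lit 394) (nat_lit 1) (.n (nat_lit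 395) (nat_lit 1) (.n (nat_lit 396) (nat_lit 1) (.n (nat_lit 397) (nat_lit 2) (.n (nat_lit 398) (nat_lit 1) (.n (nat_lit 399) (nat_lit 1) (.n (nat_lit 400) (nat_lit 2) (.p (nat_lit 401) (nat_lit 1) (.p (nat_lit 402) (nat_lit 3) (.p (nat_lit 404) (nat_lit 2) (.p (nat_lit 405) (nat_lit 3) .z)))))))))))))))))))))))))))))))))) (.ct dF4_c1114385 (nat_lit 1) (nat_lit 0) (.s true (nat_lit 1) (nat_lit 6) (nat_lit 3) (nat_lit 4) (nat_lit 5) true (nat_lit 1) true (nat_lit 10) true (nat_lit 9) true (nat_lit 12) true (nat_lit 11) (.s true (nat_lit 1) (nat_lit 6) (nat_lit 4) (nat_lit 3) (nat_lit 5) true (nat_lit 0) true (nat_lit 10) true (nat_lit 9) true (nat_lit 11) true (nat_lit 12) (.e true (nat_lit 1) (nat_lit 33) (nat_lit 19) (nat_lit 1) (.e true (nat_lit 1) (nat_lit 101) (nat_lit 5) (nat_lit 10) (.e false (nat_lit 1) (nat_lit 172) (nat_lit 3) (nat_lit 12) (.e false (nat_lit 1) (nat_lit 176) (nat_lit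 3) (nat_lit 12) (.e true (nat_lit 1) (nat_lit 178) (nat_lit 3) (nat_lit 12) (.e true (nat_lit 1) (nat_lit 180) (nat_lit 3) (nat_lit 12) (.e false (nat_lit 1) (nat_lit 144) (nat_lit 4) (nat_lit 11) (.e true (nat_lit 1) (nat_lit 104) (nat_lit 5) (nat_lit 10) (.e false (nat_lit 1) (nat_lit 142) (nat_lit 4) (nat_lit 11) (.e false (nat_lit 1) (nat_lit 146) (nat_lit 4) (nat_lit 11) (.e true (nat_lit 1) (nat_lit 148) (nat_lit 4) (nat_lit 11) (.e true (nat_lit 1) (nat_lit 150) (nat_lit 4) (nat_lit 11) (.e false (nat_lit 1) (nat_lit 174) (nat_lit 3) (nat_lit 12) .nil)))))))))))))))) .leaf) (nat_lit 25602) (nat_lit 79) (.p (nat_lit 85) (nat_lit 1) .z) .df .leaf))))) (nat_lit 25604) (nat_lit 106) (.p (nat_lit 102) (nat_lit 1) .z) .df (.nd (.nd (.nd (.nd (.nd (.nd .leaf (nat_lit 25605) (nat_lit 166) (.p (nat_lit 142) (nat_lit 1) .z) .df .leaf) (nat_lit 25614) (nat_lit 365) (.p (nat_lit 231) (nat_lit 1)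 (.p (nat_lit 232) (nat_lit 1) (.p (nat_lit 236) (nat_lit 1) (.n (nat_lit 237) (nat_lit 1) (.n (nat_lit 239) (nat_lit 1) (.n (nat_lit 240) (nat_lit 1) (.n (nat_lit 241) (nat_lit 1) (.p (nat_lit 242) (nat_lit 1) (.p (nat_lit 243) (nat_lit 1) (.n (nat_lit 244) (nat_lit 1) (.n (nat_lit 247) (nat_lit 1) (.n (nat_lit 250) (nat_lit 1) (.n (nat_lit 253) (nat_lit 1) (.p (nat_lit 254) (nat_lit 1) (.p (nat_lit 256) (nat_lit 1) (.n (nat_lit 257) (nat_lit 1) (.n (nat_lit 258) (nat_lit 1) (.p (nat_lit 259) (nat_lit 1) (.p (nat_lit 260) (nat_lit 1) (.p (nat_lit 261) (nat_lit 1) (.n (nat_lit 262) (nat_lit 2) (.p (nat_lit 264) (nat_lit 1) (.n (nat_lit 265) (nat_lit 1) (.n (nat_lit 266) (nat_lit 1) (.p (nat_lit 268) (nat_lit 1) (.p (nat_lit 271) (nat_lit 1) (.n (nat_lit 272) (nat_lit 1) (.p (nat_lit 274) (nat_lit 1) .z)))))))))))))))))))))))))))) (.ct dF4_c1118480 (nat_lit 1) (nat_lit 1) (.s true (nat_lit 1)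 (nat_lit 9) (nat_lit 2) (nat_lit 1) (nat_lit 4) true (nat_lit 1) true (nat_lit 10) true (nat_lit 6) true (nat_lit 12) true (nat_lit 13) (.e true (nat_lit 1) (nat_lit 88) (nat_lit 4) (nat_lit 10) (.e true (nat_lit 1) (nat_lit 39) (nat_lit 9) (nat_lit 6) (.e false (nat_lit 1) (nat_lit 101) (nat_lit 2) (nat_lit 12) (.e true (nat_lit 1) (nat_lit 105) (nat_lit 2) (nat_lit 12) (.e false (nat_lit 1) (nat_lit 109) (nat_lit 2) (nat_lit 12) (.e false (nat_lit 1) (nat_lit 110) (nat_lit 2) (nat_lit 12) (.e false (nat_lit 1) (nat_lit 117) (nat_lit 1) (nat_lit 13) .nil))))))))) .leaf) (nat_lit 25618) (nat_lit 444) (.p (nat_lit 275) (nat_lit 1) (.p (nat_lit 276) (nat_lit 1) (.p (nat_lit 280) (nat_lit 1) (.n (nat_lit 281) (nat_lit 1) (.n (nat_lit 283) (nat_lit 1) (.n (nat_lit 284) (nat_lit 1) (.n (nat_lit 285) (nat_lit 1) (.p (nat_lit 286) (nat_lit 1) (.p (nat_lit 287) (nat_lit 1) (.n (nat_lit 288) (nat_lit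 1) (.n (nat_lit 291) (nat_lit 1) (.n (nat_lit 294) (nat_lit 1) (.n (nat_lit 297) (nat_lit 1) (.p (nat_lit 298) (nat_lit 1) (.p (nat_lit 300) (nat_lit 1) (.n (nat_lit 301) (nat_lit 1) (.n (nat_lit 302) (nat_lit 1) (.p (nat_lit 303) (nat_lit 1) (.p (nat_lit 304) (nat_lit 1) (.p (nat_lit 305) (nat_lit 1) (.n (nat_lit 306) (nat_lit 2) (.p (nat_lit 308) (nat_lit 1) (.n (nat_lit 309) (nat_lit 1) (.n (nat_lit 310) (nat_lit 1) (.p (nat_lit 312) (nat_lit 1) (.p (nat_lit 315) (nat_lit 1) (.n (nat_lit 316) (nat_lit 1) (.p (nat_lit 318) (nat_lit 1) .z)))))))))))))))))))))))))))) (.ct dF4_c1118465 (nat_lit 1) (nat_lit 1) (.s true (nat_lit 1) (nat_lit 9) (nat_lit 2) (nat_lit 1) (nat_lit 5) true (nat_lit 1) true (nat_lit 10) true (nat_lit 6) true (nat_lit 12) true (nat_lit 13) (.e true (nat_lit 1) (nat_lit 88) (nat_lit 5) (nat_lit 10) (.e true (nat_lit 1) (nat_lit 57) (nat_lit 9) (nat_lit 6) (.e false (nat_lit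 1) (nat_lit 141) (nat_lit 2) (nat_lit 12) (.e true (nat_lit 1) (nat_lit 145) (nat_lit 2) (nat_lit 12) (.e false (nat_lit 1) (nat_lit 149) (nat_lit 2) (nat_lit 12) (.e false (nat_lit 1) (nat_lit 150) (nat_lit 2) (nat_lit 12) (.e false (nat_lit 1) (nat_lit 157) (nat_lit 1) (nat_lit 13) .nil))))))))) (.nd (.nd .leaf (nat_lit 25620) (nat_lit 598) (.n (nat_lit 364) (nat_lit 1) (.n (nat_lit 368) (nat_lit 1) (.p (nat_lit 369) (nat_lit 1) (.p (nat_lit 371) (nat_lit 1) (.p (nat_lit 372) (nat_lit 1) (.n (nat_lit 381) (nat_lit 1) (.p (nat_lit 383) (nat_lit 1) (.p (nat_lit 384) (nat_lit 1) (.n (nat_lit 386) (nat_lit 1) (.n (nat_lit 387) (nat_lit 1) (.n (nat_lit 388) (nat_lit 1) (.p (nat_lit 394) (nat_lit 1) (.n (nat_lit 396) (nat_lit 1) (.n (nat_lit 400) (nat_lit 1) (.p (nat_lit 402) (nat_lit 1) (.p (nat_lit 404) (nat_lit 1) (.p (nat_lit 405) (nat_lit 1) .z))))))))))))))))) (.ct dF4_c1114385 (nat_lit 1)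 (nat_lit 0) (.s true (nat_lit 1) (nat_lit 9) (nat_lit 1) (nat_lit 4) (nat_lit 5) true (nat_lit 2) true (nat_lit 10) true (nat_lit 8) true (nat_lit 13) true (nat_lit 11) (.s true (nat_lit 1) (nat_lit 9) (nat_lit 4) (nat_lit 1) (nat_lit 5) true (nat_lit 0) true (nat_lit 10) true (nat_lit 8) true (nat_lit 11) true (nat_lit 13) (.e true (nat_lit 1) (nat_lit 42) (nat_lit 17) (nat_lit 2) (.e true (nat_lit 1) (nat_lit 102) (nat_lit 5) (nat_lit 10) (.e false (nat_lit 1) (nat_lit 202) (nat_lit 1) (nat_lit 13) (.e false (nat_lit 1) (nat_lit 206) (nat_lit 1) (nat_lit 13) (.e true (nat_lit 1) (nat_lit 208) (nat_lit 1) (nat_lit 13) (.e true (nat_lit 1) (nat_lit 210) (nat_lit 1) (nat_lit 13) (.e false (nat_lit 1) (nat_lit 147) (nat_lit 4) (nat_lit 11) (.e true (nat_lit 1) (nat_lit 107) (nat_lit 5) (nat_lit 10) (.e false (nat_lit 1) (nat_lit 141) (nat_lit 4) (nat_lit 11) (.e true (nat_lit 1) (nat_lit 145)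 (nat_lit 4) (nat_lit 11) (.e false (nat_lit 1) (nat_lit 149) (nat_lit 4) (nat_lit 11) (.e false (nat_lit 1) (nat_lit 150) (nat_lit 4) (nat_lit 11) (.e false (nat_lit 1) (nat_lit 204) (nat_lit 1) (nat_lit 13) .nil)))))))))))))))) .leaf) (nat_lit 26626) (nat_lit 80) (.p (nat_lit 86) (nat_lit 1) .z) .df .leaf)) (nat_lit 26628) (nat_lit 107) (.p (nat_lit 103) (nat_lit 1) .z) .df (.nd (.nd (.nd .leaf (nat_lit 26629) (nat_lit 167) (.p (nat_lit 143) (nat_lit 1) .z) .df .leaf) (nat_lit 26638) (nat_lit 357) (.p (nat_lit 231) (nat_lit 1) (.n (nat_lit 233) (nat_lit 1) (.n (nat_lit 235) (nat_lit 2) (.p (nat_lit 238) (nat_lit 1) (.p (nat_lit 239) (nat_lit 1) (.n (nat_lit 243) (nat_lit 1) (.p (nat_lit 247) (nat_lit 1) (.p (nat_lit 248) (nat_lit 1) (.p (nat_lit 249) (nat_lit 1) (.n (nat_lit 252) (nat_lit 1) (.p (nat_lit 254) (nat_lit 1) (.p (nat_lit 255) (nat_lit 1) (.p (nat_lit 256) (nat_lit 2) (.p (nat_lit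 260) (nat_lit 1) (.n (nat_lit 262) (nat_lit 1) (.p (nat_lit 263) (nat_lit 1) (.n (nat_lit 267) (nat_lit 1) (.p (nat_lit 268) (nat_lit 1) (.n (nat_lit 270) (nat_lit 1) (.p (nat_lit 271) (nat_lit 1) (.n (nat_lit 273) (nat_lit 1) .z))))))))))))))))))))) (.ct dF4_c1118480 (nat_lit 1) (nat_lit 1) (.s true (nat_lit 1) (nat_lit 6) (nat_lit 2) (nat_lit 4) (nat_lit 3) true (nat_lit 4) true (nat_lit 11) true (nat_lit 9) true (nat_lit 12) true (nat_lit 10) (.s false (nat_lit 1) (nat_lit 14) (nat_lit 1) (nat_lit 3) (nat_lit 0) true (nat_lit 9) true (nat_lit 14) true (nat_lit 1) true (nat_lit 13) true (nat_lit 11) (.e true (nat_lit 1) (nat_lit 33) (nat_lit 11) (nat_lit 4) (.e true (nat_lit 1) (nat_lit 91) (nat_lit 3) (nat_lit 11) (.e true (nat_lit 1) (nat_lit 102) (nat_lit 2) (nat_lit 12) (.e true (nat_lit 1) (nat_lit 106) (nat_lit 2) (nat_lit 12) (.e false (nat_lit 1) (nat_lit 108) (nat_lit 2) (nat_lit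 12) (.e false (nat_lit 1) (nat_lit 110) (nat_lit 2) (nat_lit 12) (.e false (nat_lit 1) (nat_lit 84) (nat_lit 4) (nat_lit 10) (.e false (nat_lit 1) (nat_lit 126) (nat_lit 0) (nat_lit 14) (.e true (nat_lit 1) (nat_lit 111) (nat_lit 1) (nat_lit 13) (.e false (nat_lit 1) (nat_lit 115) (nat_lit 1) (nat_lit 13) (.e true (nat_lit 1) (nat_lit 119) (nat_lit 1) (nat_lit 13) (.e true (nat_lit 1) (nat_lit 120) (nat_lit 1) (nat_lit 13) (.e true (nat_lit 1) (nat_lit 99) (nat_lit 3) (nat_lit 11) .nil)))))))))))))))) .leaf) (nat_lit 26642) (nat_lit 437) (.p (nat_lit 275) (nat_lit 1) (.n (nat_lit 277) (nat_lit 1) (.n (nat_lit 279) (nat_lit 2) (.p (nat_lit 282) (nat_lit 1) (.p (nat_lit 283) (nat_lit 1) (.n (nat_lit 287) (nat_lit 1) (.p (nat_lit 291) (nat_lit 1) (.p (nat_lit 292) (nat_lit 1) (.p (nat_lit 293) (nat_lit 1) (.n (nat_lit 296) (nat_lit 1) (.p (nat_lit 298) (nat_lit 1) (.p (nat_lit 299) (nat_lit 1)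 (.p (nat_lit 300) (nat_lit 2) (.p (nat_lit 304) (nat_lit 1) (.n (nat_lit 306) (nat_lit 1) (.p (nat_lit 307) (nat_lit 1) (.n (nat_lit 311) (nat_lit 1) (.p (nat_lit 312) (nat_lit 1) (.n (nat_lit 314) (nat_lit 1) (.p (nat_lit 315) (nat_lit 1) (.n (nat_lit 317) (nat_lit 1) .z))))))))))))))))))))) (.ct dF4_c1118465 (nat_lit 1) (nat_lit 1) (.s true (nat_lit 1) (nat_lit 6) (nat_lit 2) (nat_lit 5) (nat_lit 3) true (nat_lit 4) true (nat_lit 11) true (nat_lit 9) true (nat_lit 12) true (nat_lit 10) (.s false (nat_lit 1) (nat_lit 18) (nat_lit 1) (nat_lit 3) (nat_lit 0) true (nat_lit 9) true (nat_lit 14) true (nat_lit 1) true (nat_lit 13) true (nat_lit 11) (.e true (nat_lit 1) (nat_lit 51) (nat_lit 11) (nat_lit 4) (.e true (nat_lit 1) (nat_lit 131) (nat_lit 3) (nat_lit 11) (.e true (nat_lit 1) (nat_lit 142) (nat_lit 2) (nat_lit 12) (.e true (nat_lit 1) (nat_lit 146) (nat_lit 2) (nat_lit 12) (.e false (nat_lit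 1) (nat_lit 148) (nat_lit 2) (nat_lit 12) (.e false (nat_lit 1) (nat_lit 150) (nat_lit 2) (nat_lit 12) (.e false (nat_lit 1) (nat_lit 84) (nat_lit 5) (nat_lit 10) (.e false (nat_lit 1) (nat_lit 166) (nat_lit 0) (nat_lit 14) (.e true (nat_lit 1) (nat_lit 151) (nat_lit 1) (nat_lit 13) (.e false (nat_lit 1) (nat_lit 155) (nat_lit 1) (nat_lit 13) (.e true (nat_lit 1) (nat_lit 159) (nat_lit 1) (nat_lit 13) (.e true (nat_lit 1) (nat_lit 160) (nat_lit 1) (nat_lit 13) (.e true (nat_lit 1) (nat_lit 139) (nat_lit 3) (nat_lit 11) .nil)))))))))))))))) (.nd (.nd .leaf (nat_lit 26644) (nat_lit 599) (.n (nat_lit 364) (nat_lit 1) (.n (nat_lit 365) (nat_lit 1) (.n (nat_lit 366) (nat_lit 1) (.n (nat_lit 367) (nat_lit 1) (.n (nat_lit 368) (nat_lit 1) (.p (nat_lit 369) (nat_lit 1) (.p (nat_lit 370) (nat_lit 1) (.p (nat_lit 371) (nat_lit 1) (.p (nat_lit 372) (nat_lit 1) (.n (nat_lit 374) (nat_lit 1) (.n (nat_lit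 375) (nat_lit 2) (.n (nat_lit 376) (nat_lit 1) (.p (nat_lit 377) (nat_lit 1) (.p (nat_lit 378) (nat_lit 1) (.p (nat_lit 379) (nat_lit 2) (.p (nat_lit 380) (nat_lit 2) (.p (nat_lit 382) (nat_lit 2) (.p (nat_lit 385) (nat_lit 2) (.n (nat_lit 386) (nat_lit 1) (.n (nat_lit 388) (nat_lit 1) (.p (nat_lit 389) (nat_lit 1) (.n (nat_lit 391) (nat_lit 1) (.n (nat_lit 393) (nat_lit 1) (.p (nat_lit 394) (nat_lit 1) (.p (nat_lit 397) (nat_lit 2) (.p (nat_lit 398) (nat_lit 2) (.p (nat_lit 399) (nat_lit 1) (.p (nat_lit 400) (nat_lit 1) (.n (nat_lit 401) (nat_lit 1) (.n (nat_lit 402) (nat_lit 2) (.n (nat_lit 403) (nat_lit 1) (.n (nat_lit 404) (nat_lit 1) (.n (nat_lit 405) (nat_lit 1) .z))))))))))))))))))))))))))))))))) (.ct dF4_c1114385 (nat_lit 1) (nat_lit 0) (.s true (nat_lit 1) (nat_lit 6) (nat_lit 4) (nat_lit 5) (nat_lit 3) true (nat_lit 4) true (nat_lit 12) true (nat_lit 9) true (nat_lit 11) true (nat_lit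 10) (.s false (nat_lit 1) (nat_lit 20) (nat_lit 1) (nat_lit 3) (nat_lit 0) true (nat_lit 9) true (nat_lit 14) true (nat_lit 0) true (nat_lit 13) true (nat_lit 12) (.e false (nat_lit 1) (nat_lit 51) (nat_lit 15) (nat_lit 4) (.e true (nat_lit 1) (nat_lit 171) (nat_lit 3) (nat_lit 12) (.e true (nat_lit 1) (nat_lit 142) (nat_lit 4) (nat_lit 11) (.e true (nat_lit 1) (nat_lit 146) (nat_lit 4) (nat_lit 11) (.e false (nat_lit 1) (nat_lit 148) (nat_lit 4) (nat_lit 11) (.e false (nat_lit 1) (nat_lit 150) (nat_lit 4) (nat_lit 11) (.e false (nat_lit 1) (nat_lit 101) (nat_lit 5) (nat_lit 10) (.e false (nat_lit 1) (nat_lit 219) (nat_lit 0) (nat_lit 14) (.e true (nat_lit 1) (nat_lit 202) (nat_lit 1) (nat_lit 13) (.e true (nat_lit 1) (nat_lit 206) (nat_lit 1) (nat_lit 13) (.e false (nat_lit 1) (nat_lit 208) (nat_lit 1) (nat_lit 13) (.e false (nat_lit 1) (nat_lit 210) (nat_lit 1) (nat_lit 13) (.e true (nat_lit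 1) (nat_lit 179) (nat_lit 3) (nat_lit 12) .nil)))))))))))))))) .leaf) (nat_lit 27649) (nat_lit 81) (.p (nat_lit 87) (nat_lit 1) .z) .df .leaf))) (nat_lit 27652) (nat_lit 120) (.p (nat_lit 111) (nat_lit 1) .z) .df (.nd (.nd (.nd (.nd .leaf (nat_lit 27653) (nat_lit 180) (.p (nat_lit 151) (nat_lit 1) .z) .df .leaf) (nat_lit 27661) (nat_lit 355) (.p (nat_lit 231) (nat_lit 1) (.n (nat_lit 232) (nat_lit 1) (.n (nat_lit 233) (nat_lit 1) (.n (nat_lit 234) (nat_lit 1) (.n (nat_lit 235) (nat_lit 2) (.n (nat_lit 236) (nat_lit 1) (.p (nat_lit 237) (nat_lit 1) (.p (nat_lit 238) (nat_lit 2) (.p (nat_lit 239) (nat_lit 2) (.p (nat_lit 240) (nat_lit 1) (.n (nat_lit 241) (nat_lit 1) (.n (nat_lit 242) (nat_lit 1) (.n (nat_lit 243) (nat_lit 2) (.n (nat_lit 244) (nat_lit 1) (.p (nat_lit 245) (nat_lit 1) (.p (nat_lit 246) (nat_lit 1) (.p (nat_lit 247) (nat_lit 2) (.p (nat_lit 248) (nat_lit 2) (.p (nat_lit 250) (nat_lit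 1) (.p (nat_lit 253) (nat_lit 1) (.p (nat_lit 257) (nat_lit 1) (.n (nat_lit 259) (nat_lit 1) (.p (nat_lit 260) (nat_lit 1) (.n (nat_lit 261) (nat_lit 1) (.p (nat_lit 263) (nat_lit 1) (.p (nat_lit 265) (nat_lit 1) (.p (nat_lit 266) (nat_lit 1) (.p (nat_lit 268) (nat_lit 1) (.n (nat_lit 269) (nat_lit 1) (.n (nat_lit 270) (nat_lit 1) (.n (nat_lit 273) (nat_lit 1) .z))))))))))))))))))))))))))))))) (.ct dF4_c1118480 (nat_lit 1) (nat_lit 2) (.s false (nat_lit 1) (nat_lit 7) (nat_lit 3) (nat_lit 4) (nat_lit 1) true (nat_lit 5) true (nat_lit 13) true (nat_lit 8) true (nat_lit 11) true (nat_lit 10) (.s false (nat_lit 1) (nat_lit 7) (nat_lit 4) (nat_lit 3) (nat_lit 1) true (nat_lit 2) true (nat_lit 13) true (nat_lit 8) true (nat_lit 10) true (nat_lit 11) (.e true (nat_lit 1) (nat_lit 36) (nat_lit 10) (nat_lit 5) (.e false (nat_lit 1) (nat_lit 111) (nat_lit 1) (nat_lit 13) (.e false (nat_lit 1) (nat_lit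 91) (nat_lit 3) (nat_lit 11) (.e true (nat_lit 1) (nat_lit 95) (nat_lit 3) (nat_lit 11) (.e false (nat_lit 1) (nat_lit 99) (nat_lit 3) (nat_lit 11) (.e false (nat_lit 1) (nat_lit 100) (nat_lit 3) (nat_lit 11) (.e true (nat_lit 1) (nat_lit 82) (nat_lit 4) (nat_lit 10) (.e false (nat_lit 1) (nat_lit 114) (nat_lit 1) (nat_lit 13) (.e false (nat_lit 1) (nat_lit 81) (nat_lit 4) (nat_lit 10) (.e true (nat_lit 1) (nat_lit 85) (nat_lit 4) (nat_lit 10) (.e false (nat_lit 1) (nat_lit 89) (nat_lit 4) (nat_lit 10) (.e false (nat_lit 1) (nat_lit 90) (nat_lit 4) (nat_lit 10) (.e true (nat_lit 1) (nat_lit 92) (nat_lit 3) (nat_lit 11) .nil)))))))))))))))) .leaf) (nat_lit 27665) (nat_lit 435) (.p (nat_lit 275) (nat_lit 1) (.n (nat_lit 276) (nat_lit 1) (.n (nat_lit 277) (nat_lit 1) (.n (nat_lit 278) (nat_lit 1) (.n (nat_lit 279) (nat_lit 2) (.n (nat_lit 280) (nat_lit 1) (.p (nat_lit 281) (nat_lit 1) (.p (nat_lit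 282) (nat_lit 2) (.p (nat_lit 283) (nat_lit 2) (.p (nat_lit 284) (nat_lit 1) (.n (nat_lit 285) (nat_lit 1) (.n (nat_lit 286) (nat_lit 1) (.n (nat_lit 287) (nat_lit 2) (.n (nat_lit 288) (nat_lit 1) (.p (nat_lit 289) (nat_lit 1) (.p (nat_lit 290) (nat_lit 1) (.p (nat_lit 291) (nat_lit 2) (.p (nat_lit 292) (nat_lit 2) (.p (nat_lit 294) (nat_lit 1) (.p (nat_lit 297) (nat_lit 1) (.p (nat_lit 301) (nat_lit 1) (.n (nat_lit 303) (nat_lit 1) (.p (nat_lit 304) (nat_lit 1) (.n (nat_lit 305) (nat_lit 1) (.p (nat_lit 307) (nat_lit 1) (.p (nat_lit 309) (nat_lit 1) (.p (nat_lit 310) (nat_lit 1) (.p (nat_lit 312) (nat_lit 1) (.n (nat_lit 313) (nat_lit 1) (.n (nat_lit 314) (nat_lit 1) (.n (nat_lit 317) (nat_lit 1) .z))))))))))))))))))))))))))))))) (.ct dF4_c1118465 (nat_lit 1) (nat_lit 2) (.s false (nat_lit 1) (nat_lit 7) (nat_lit 3) (nat_lit 5) (nat_lit 1) true (nat_lit 5) true (nat_lit 13) true (nat_lit 8)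 true (nat_lit 11) true (nat_lit 10) (.s false (nat_lit 1) (nat_lit 7) (nat_lit 5) (nat_lit 3) (nat_lit 1) true (nat_lit 2) true (nat_lit 13) true (nat_lit 8) true (nat_lit 10) true (nat_lit 11) (.e true (nat_lit 1) (nat_lit 54) (nat_lit 10) (nat_lit 5) (.e false (nat_lit 1) (nat_lit 151) (nat_lit 1) (nat_lit 13) (.e false (nat_lit 1) (nat_lit 131) (nat_lit 3) (nat_lit 11) (.e true (nat_lit 1) (nat_lit 135) (nat_lit 3) (nat_lit 11) (.e false (nat_lit 1) (nat_lit 139) (nat_lit 3) (nat_lit 11) (.e false (nat_lit 1) (nat_lit 140) (nat_lit 3) (nat_lit 11) (.e true (nat_lit 1) (nat_lit 82) (nat_lit 5) (nat_lit 10) (.e false (nat_lit 1) (nat_lit 154) (nat_lit 1) (nat_lit 13) (.e false (nat_lit 1) (nat_lit 81) (nat_lit 5) (nat_lit 10) (.e true (nat_lit 1) (nat_lit 85) (nat_lit 5) (nat_lit 10) (.e false (nat_lit 1) (nat_lit 89) (nat_lit 5) (nat_lit 10) (.e false (nat_lit 1) (nat_lit 90) (nat_lit 5)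 (nat_lit 10) (.e true (nat_lit 1) (nat_lit 132) (nat_lit 3) (nat_lit 11) .nil)))))))))))))))) (.nd (.nd .leaf (nat_lit 27668) (nat_lit 675) (.n (nat_lit 408) (nat_lit 1) (.p (nat_lit 409) (nat_lit 2) (.p (nat_lit 410) (nat_lit 1) (.p (nat_lit 411) (nat_lit 2) (.n (nat_lit 412) (nat_lit 1) (.n (nat_lit 414) (nat_lit 1) (.p (nat_lit 416) (nat_lit 1) (.p (nat_lit 419) (nat_lit 1) (.p (nat_lit 420) (nat_lit 1) (.n (nat_lit 421) (nat_lit 1) (.n (nat_lit 423) (nat_lit 2) (.n (nat_lit 424) (nat_lit 1) (.n (nat_lit 425) (nat_lit 2) (.n (nat_lit 426) (nat_lit 1) (.p (nat_lit 427) (nat_lit 1) (.p (nat_lit 428) (nat_lit 1) (.n (nat_lit 429) (nat_lit 1) (.n (nat_lit 430) (nat_lit 1) (.n (nat_lit 431) (nat_lit 1) (.n (nat_lit 432) (nat_lit 1) (.p (nat_lit 435) (nat_lit 1) (.n (nat_lit 436) (nat_lit 1) (.p (nat_lit 437) (nat_lit 1) (.p (nat_lit 438) (nat_lit 1) (.n (nat_lit 439) (nat_lit 1) (.n (nat_lit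 440) (nat_lit 1) (.n (nat_lit 441) (nat_lit 2) (.n (nat_lit 442) (nat_lit 1) (.n (nat_lit 443) (nat_lit 1) (.n (nat_lit 444) (nat_lit 2) (.p (nat_lit 445) (nat_lit 1) (.p (nat_lit 446) (nat_lit 3) (.p (nat_lit 448) (nat_lit 2) (.p (nat_lit 449) (nat_lit 3) .z)))))))))))))))))))))))))))))))))) (.ct dF4_c1052945 (nat_lit 1) (nat_lit 0) (.s true (nat_lit 1) (nat_lit 7) (nat_lit 3) (nat_lit 4) (nat_lit 5) true (nat_lit 1) true (nat_lit 10) true (nat_lit 9) true (nat_lit 12) true (nat_lit 11) (.s true (nat_lit 1) (nat_lit 7) (nat_lit 4) (nat_lit 3) (nat_lit 5) true (nat_lit 0) true (nat_lit 10) true (nat_lit 9) true (nat_lit 11) true (nat_lit 12) (.e true (nat_lit 1) (nat_lit 36) (nat_lit 19) (nat_lit 1) (.e true (nat_lit 1) (nat_lit 111) (nat_lit 5) (nat_lit 10) (.e false (nat_lit 1) (nat_lit 182) (nat_lit 3) (nat_lit 12) (.e false (nat_lit 1) (nat_lit 186) (nat_lit 3) (nat_lit 12) (.e true (nat_lit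 1) (nat_lit 188) (nat_lit 3) (nat_lit 12) (.e true (nat_lit 1) (nat_lit 190) (nat_lit 3) (nat_lit 12) (.e false (nat_lit 1) (nat_lit 154) (nat_lit 4) (nat_lit 11) (.e true (nat_lit 1) (nat_lit 114) (nat_lit 5) (nat_lit 10) (.e false (nat_lit 1) (nat_lit 152) (nat_lit 4) (nat_lit 11) (.e false (nat_lit 1) (nat_lit 156) (nat_lit 4) (nat_lit 11) (.e true (nat_lit 1) (nat_lit 158) (nat_lit 4) (nat_lit 11) (.e true (nat_lit 1) (nat_lit 160) (nat_lit 4) (nat_lit 11) (.e false (nat_lit 1) (nat_lit 184) (nat_lit 3) (nat_lit 12) .nil)))))))))))))))) .leaf) (nat_lit 28673) (nat_lit 82) (.p (nat_lit 88) (nat_lit 1) .z) .df .leaf)) (nat_lit 28676) (nat_lit 121) (.p (nat_lit 112) (nat_lit 1) .z) .df (.nd (.nd (.nd .leaf (nat_lit 28677) (nat_lit 181) (.p (nat_lit 152) (nat_lit 1) .z) .df .leaf) (nat_lit 28685) (nat_lit 366) (.p (nat_lit 231) (nat_lit 1) (.n (nat_lit 232) (nat_lit 1) (.n (nat_lit 235) (nat_lit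 1) (.n (nat_lit 236) (nat_lit 1) (.p (nat_lit 237) (nat_lit 1) (.p (nat_lit 238) (nat_lit 1) (.p (nat_lit 239) (nat_lit 2) (.p (nat_lit 240) (nat_lit 1) (.n (nat_lit 241) (nat_lit 1) (.n (nat_lit 242) (nat_lit 1) (.n (nat_lit 243) (nat_lit 1) (.n (nat_lit 244) (nat_lit 1) (.p (nat_lit 246) (nat_lit 1) (.p (nat_lit 248) (nat_lit 1) (.n (nat_lit 249) (nat_lit 1) (.p (nat_lit 251) (nat_lit 1) (.p (nat_lit 252) (nat_lit 1) (.p (nat_lit 253) (nat_lit 1) (.n (nat_lit 254) (nat_lit 1) (.n (nat_lit 255) (nat_lit 1) (.n (nat_lit 256) (nat_lit 1) (.p (nat_lit 257) (nat_lit 1) (.p (nat_lit 262) (nat_lit 1) (.n (nat_lit 264) (nat_lit 1) (.p (nat_lit 265) (nat_lit 1) (.p (nat_lit 266) (nat_lit 1) (.p (nat_lit 267) (nat_lit 1) (.n (nat_lit 269) (nat_lit 1) (.n (nat_lit 271) (nat_lit 1) (.p (nat_lit 273) (nat_lit 1) .z)))))))))))))))))))))))))))))) (.ct dF4_c1118480 (nat_lit 1) (nat_lit 2) (.s true (nat_lit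 1) (nat_lit 9) (nat_lit 1) (nat_lit 2) (nat_lit 4) true (nat_lit 2) true (nat_lit 10) true (nat_lit 6) true (nat_lit 13) true (nat_lit 12) (.e true (nat_lit 1) (nat_lit 85) (nat_lit 4) (nat_lit 10) (.e false (nat_lit 1) (nat_lit 39) (nat_lit 9) (nat_lit 6) (.e false (nat_lit 1) (nat_lit 111) (nat_lit 1) (nat_lit 13) (.e true (nat_lit 1) (nat_lit 115) (nat_lit 1) (nat_lit 13) (.e false (nat_lit 1) (nat_lit 119) (nat_lit 1) (nat_lit 13) (.e false (nat_lit 1) (nat_lit 120) (nat_lit 1) (nat_lit 13) (.e false (nat_lit 1) (nat_lit 107) (nat_lit 2) (nat_lit 12) .nil))))))))) .leaf) (nat_lit 28689) (nat_lit 445) (.p (nat_lit 275) (nat_lit 1) (.n (nat_lit 276) (nat_lit 1) (.n (nat_lit 279) (nat_lit 1) (.n (nat_lit 280) (nat_lit 1) (.p (nat_lit 281) (nat_lit 1) (.p (nat_lit 282) (nat_lit 1) (.p (nat_lit 283) (nat_lit 2) (.p (nat_lit 284) (nat_lit 1) (.n (nat_lit 285) (nat_lit 1) (.n (nat_lit 286) (nat_lit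 1) (.n (nat_lit 287) (nat_lit 1) (.n (nat_lit 288) (nat_lit 1) (.p (nat_lit 290) (nat_lit 1) (.p (nat_lit 292) (nat_lit 1) (.n (nat_lit 293) (nat_lit 1) (.p (nat_lit 295) (nat_lit 1) (.p (nat_lit 296) (nat_lit 1) (.p (nat_lit 297) (nat_lit 1) (.n (nat_lit 298) (nat_lit 1) (.n (nat_lit 299) (nat_lit 1) (.n (nat_lit 300) (nat_lit 1) (.p (nat_lit 301) (nat_lit 1) (.p (nat_lit 306) (nat_lit 1) (.n (nat_lit 308) (nat_lit 1) (.p (nat_lit 309) (nat_lit 1) (.p (nat_lit 310) (nat_lit 1) (.p (nat_lit 311) (nat_lit 1) (.n (nat_lit 313) (nat_lit 1) (.n (nat_lit 315) (nat_lit 1) (.p (nat_lit 317) (nat_lit 1) .z)))))))))))))))))))))))))))))) (.ct dF4_c1118465 (nat_lit 1) (nat_lit 2) (.s true (nat_lit 1) (nat_lit 9) (nat_lit 1) (nat_lit 2) (nat_lit 5) true (nat_lit 2) true (nat_lit 10) true (nat_lit 6) true (nat_lit 13) true (nat_lit 12) (.e true (nat_lit 1) (nat_lit 85) (nat_lit 5) (nat_lit 10) (.e false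 (nat_lit 1) (nat_lit 57) (nat_lit 9) (nat_lit 6) (.e false (nat_lit 1) (nat_lit 151) (nat_lit 1) (nat_lit 13) (.e true (nat_lit 1) (nat_lit 155) (nat_lit 1) (nat_lit 13) (.e false (nat_lit 1) (nat_lit 159) (nat_lit 1) (nat_lit 13) (.e false (nat_lit 1) (nat_lit 160) (nat_lit 1) (nat_lit 13) (.e false (nat_lit 1) (nat_lit 147) (nat_lit 2) (nat_lit 12) .nil))))))))) (.nd (.nd .leaf (nat_lit 28692) (nat_lit 676) (.n (nat_lit 408) (nat_lit 1) (.n (nat_lit 412) (nat_lit 1) (.p (nat_lit 413) (nat_lit 1) (.p (nat_lit 415) (nat_lit 1) (.p (nat_lit 416) (nat_lit 1) (.n (nat_lit 425) (nat_lit 1) (.p (nat_lit 427) (nat_lit 1) (.p (nat_lit 428) (nat_lit 1) (.n (nat_lit 430) (nat_lit 1) (.n (nat_lit 431) (nat_lit 1) (.n (nat_lit 432) (nat_lit 1) (.p (nat_lit 438) (nat_lit 1) (.n (nat_lit 440) (nat_lit 1) (.n (nat_lit 444) (nat_lit 1) (.p (nat_lit 446) (nat_lit 1) (.p (nat_lit 448) (nat_lit 1) (.p (nat_lit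 449) (nat_lit 1) .z))))))))))))))))) (.ct dF4_c1052945 (nat_lit 1) (nat_lit 0) (.s true (nat_lit 1) (nat_lit 9) (nat_lit 2) (nat_lit 4) (nat_lit 5) true (nat_lit 2) true (nat_lit 10) true (nat_lit 8) true (nat_lit 13) true (nat_lit 11) (.s true (nat_lit 1) (nat_lit 9) (nat_lit 4) (nat_lit 2) (nat_lit 5) true (nat_lit 0) true (nat_lit 10) true (nat_lit 8) true (nat_lit 11) true (nat_lit 13) (.e true (nat_lit 1) (nat_lit 42) (nat_lit 18) (nat_lit 2) (.e true (nat_lit 1) (nat_lit 112) (nat_lit 5) (nat_lit 10) (.e false (nat_lit 1) (nat_lit 202) (nat_lit 2) (nat_lit 13) (.e false (nat_lit 1) (nat_lit 206) (nat_lit 2) (nat_lit 13) (.e true (nat_lit 1) (nat_lit 208) (nat_lit 2) (nat_lit 13) (.e true (nat_lit 1) (nat_lit 210) (nat_lit 2) (nat_lit 13) (.e false (nat_lit 1) (nat_lit 157) (nat_lit 4) (nat_lit 11) (.e true (nat_lit 1) (nat_lit 117) (nat_lit 5) (nat_lit 10) (.e false (nat_lit 1) (nat_lit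 151) (nat_lit 4) (nat_lit 11) (.e true (nat_lit 1) (nat_lit 155) (nat_lit 4) (nat_lit 11) (.e false (nat_lit 1) (nat_lit 159) (nat_lit 4) (nat_lit 11) (.e false (nat_lit 1) (nat_lit 160) (nat_lit 4) (nat_lit 11) (.e false (nat_lit 1) (nat_lit 204) (nat_lit 2) (nat_lit 13) .nil)))))))))))))))) .leaf) (nat_lit 29697) (nat_lit 83) (.p (nat_lit 89) (nat_lit 1) .z) .df .leaf)))) (nat_lit 29700) (nat_lit 122) (.p (nat_lit 113) (nat_lit 1) .z) .df (.nd (.nd (.nd (.nd (.nd .leaf (nat_lit 29701) (nat_lit 182) (.p (nat_lit 153) (nat_lit 1) .z) .df .leaf) (nat_lit 29709) (nat_lit 346) (.n (nat_lit 231) (nat_lit 1) (.p (nat_lit 232) (nat_lit 1) (.p (nat_lit 235) (nat_lit 1) (.p (nat_lit 236) (nat_lit 1) (.n (nat_lit 237) (nat_lit 1) (.n (nat_lit 238) (nat_lit 1) (.n (nat_lit 239) (nat_lit 2) (.n (nat_lit 240) (nat_lit 1) (.n (nat_lit 244) (nat_lit 1) (.p (nat_lit 245) (nat_lit 1) (.n (nat_lit 251) (nat_lit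 1) (.p (nat_lit 254) (nat_lit 1) (.n (nat_lit 257) (nat_lit 1) (.n (nat_lit 262) (nat_lit 1) (.p (nat_lit 264) (nat_lit 1) (.p (nat_lit 267) (nat_lit 1) (.p (nat_lit 268) (nat_lit 1) (.n (nat_lit 270) (nat_lit 1) (.n (nat_lit 272) (nat_lit 1) (.n (nat_lit 273) (nat_lit 1) .z)))))))))))))))))))) (.ct dF4_c1118480 (nat_lit 1) (nat_lit 2) (.s false (nat_lit 1) (nat_lit 10) (nat_lit 4) (nat_lit 2) (nat_lit 0) true (nat_lit 3) true (nat_lit 14) true (nat_lit 5) true (nat_lit 10) true (nat_lit 12) (.s false (nat_lit 1) (nat_lit 11) (nat_lit 4) (nat_lit 0) (nat_lit 1) true (nat_lit 2) true (nat_lit 13) true (nat_lit 4) true (nat_lit 10) true (nat_lit 14) (.s false (nat_lit 1) (nat_lit 12) (nat_lit 3) (nat_lit 1) (nat_lit 2) true (nat_lit 4) true (nat_lit 12) true (nat_lit 3) true (nat_lit 11) true (nat_lit 13) (.s true (nat_lit 1) (nat_lit 14) (nat_lit 1) (nat_lit 0) (nat_lit 3) true (nat_lit 5) true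 (nat_lit 11) true (nat_lit 1) true (nat_lit 13) true (nat_lit 14) (.e true (nat_lit 1) (nat_lit 81) (nat_lit 4) (nat_lit 10) (.e false (nat_lit 1) (nat_lit 85) (nat_lit 4) (nat_lit 10) (.e true (nat_lit 1) (nat_lit 89) (nat_lit 4) (nat_lit 10) (.e true (nat_lit 2) (nat_lit 90) (nat_lit 4) (nat_lit 10) (.e true (nat_lit 1) (nat_lit 103) (nat_lit 2) (nat_lit 12) (.e false (nat_lit 1) (nat_lit 82) (nat_lit 4) (nat_lit 10) (.e false (nat_lit 1) (nat_lit 86) (nat_lit 4) (nat_lit 10) (.e true (nat_lit 1) (nat_lit 88) (nat_lit 4) (nat_lit 10) (.e false (nat_lit 1) (nat_lit 108) (nat_lit 2) (nat_lit 12) (.e true (nat_lit 1) (nat_lit 96) (nat_lit 3) (nat_lit 11) (.e false (nat_lit 1) (nat_lit 97) (nat_lit 3) (nat_lit 11) (.e true (nat_lit 1) (nat_lit 91) (nat_lit 3) (nat_lit 11) (.e true (nat_lit 1) (nat_lit 24) (nat_lit 14) (nat_lit 1) (.e true (nat_lit 1) (nat_lit 111) (nat_lit 1) (nat_lit 13) (.e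 true (nat_lit 1) (nat_lit 119) (nat_lit 1) (nat_lit 13) (.e false (nat_lit 1) (nat_lit 122) (nat_lit 0) (nat_lit 14) (.e false (nat_lit 1) (nat_lit 125) (nat_lit 0) (nat_lit 14) (.e false (nat_lit 1) (nat_lit 126) (nat_lit 0) (nat_lit 14) (.e true (nat_lit 1) (nat_lit 128) (nat_lit 0) (nat_lit 14) (.e true (nat_lit 1) (nat_lit 130) (nat_lit 0) (nat_lit 14) .nil))))))))))))))))))))))))) .leaf) (nat_lit 29713) (nat_lit 426) (.n (nat_lit 275) (nat_lit 1) (.p (nat_lit 276) (nat_lit 1) (.p (nat_lit 279) (nat_lit 1) (.p (nat_lit 280) (nat_lit 1) (.n (nat_lit 281) (nat_lit 1) (.n (nat_lit 282) (nat_lit 1) (.n (nat_lit 283) (nat_lit 2) (.n (nat_lit 284) (nat_lit 1) (.n (nat_lit 288) (nat_lit 1) (.p (nat_lit 289) (nat_lit 1) (.n (nat_lit 295) (nat_lit 1) (.p (nat_lit 298) (nat_lit 1) (.n (nat_lit 301) (nat_lit 1) (.n (nat_lit 306) (nat_lit 1) (.p (nat_lit 308) (nat_lit 1) (.p (nat_lit 311) (nat_lit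 1) (.p (nat_lit 312) (nat_lit 1) (.n (nat_lit 314) (nat_lit 1) (.n (nat_lit 316) (nat_lit 1) (.n (nat_lit 317) (nat_lit 1) .z)))))))))))))))))))) (.ct dF4_c1118465 (nat_lit 1) (nat_lit 2) (.s false (nat_lit 1) (nat_lit 10) (nat_lit 5) (nat_lit 2) (nat_lit 0) true (nat_lit 3) true (nat_lit 14) true (nat_lit 5) true (nat_lit 10) true (nat_lit 12) (.s false (nat_lit 1) (nat_lit 11) (nat_lit 5) (nat_lit 0) (nat_lit 1) true (nat_lit 2) true (nat_lit 13) true (nat_lit 4) true (nat_lit 10) true (nat_lit 14) (.s false (nat_lit 1) (nat_lit 16) (nat_lit 3) (nat_lit 1) (nat_lit 2) true (nat_lit 4) true (nat_lit 12) true (nat_lit 3) true (nat_lit 11) true (nat_lit 13) (.s true (nat_lit 1) (nat_lit 18) (nat_lit 1) (nat_lit 0) (nat_lit 3) true (nat_lit 5) true (nat_lit 11) true (nat_lit 1) true (nat_lit 13) true (nat_lit 14) (.e true (nat_lit 1) (nat_lit 81) (nat_lit 5) (nat_lit 10) (.e false (nat_lit 1)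 (nat_lit 85) (nat_lit 5) (nat_lit 10) (.e true (nat_lit 1) (nat_lit 89) (nat_lit 5) (nat_lit 10) (.e true (nat_lit 2) (nat_lit 90) (nat_lit 5) (nat_lit 10) (.e true (nat_lit 1) (nat_lit 143) (nat_lit 2) (nat_lit 12) (.e false (nat_lit 1) (nat_lit 82) (nat_lit 5) (nat_lit 10) (.e false (nat_lit 1) (nat_lit 86) (nat_lit 5) (nat_lit 10) (.e true (nat_lit 1) (nat_lit 88) (nat_lit 5) (nat_lit 10) (.e false (nat_lit 1) (nat_lit 148) (nat_lit 2) (nat_lit 12) (.e true (nat_lit 1) (nat_lit 136) (nat_lit 3) (nat_lit 11) (.e false (nat_lit 1) (nat_lit 137) (nat_lit 3) (nat_lit 11) (.e true (nat_lit 1) (nat_lit 131) (nat_lit 3) (nat_lit 11) (.e true (nat_lit 1) (nat_lit 24) (nat_lit 18) (nat_lit 1) (.e true (nat_lit 1) (nat_lit 151) (nat_lit 1) (nat_lit 13) (.e true (nat_lit 1) (nat_lit 159) (nat_lit 1) (nat_lit 13) (.e false (nat_lit 1) (nat_lit 162) (nat_lit 0) (nat_lit 14) (.e false (nat_lit 1) (nat_lit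 165) (nat_lit 0) (nat_lit 14) (.e false (nat_lit 1) (nat_lit 166) (nat_lit 0) (nat_lit 14) (.e true (nat_lit 1) (nat_lit 168) (nat_lit 0) (nat_lit 14) (.e true (nat_lit 1) (nat_lit 170) (nat_lit 0) (nat_lit 14) .nil))))))))))))))))))))))))) (.nd (.nd .leaf (nat_lit 29716) (nat_lit 677) (.n (nat_lit 408) (nat_lit 1) (.n (nat_lit 409) (nat_lit 1) (.n (nat_lit 410) (nat_lit 1) (.n (nat_lit 411) (nat_lit 1) (.n (nat_lit 412) (nat_lit 1) (.p (nat_lit 413) (nat_lit 1) (.p (nat_lit 414) (nat_lit 1) (.p (nat_lit 415) (nat_lit 1) (.p (nat_lit 416) (nat_lit 1) (.n (nat_lit 418) (nat_lit 1) (.n (nat_lit 419) (nat_lit 2) (.n (nat_lit 420) (nat_lit 1) (.p (nat_lit 421) (nat_lit 1) (.p (nat_lit 422) (nat_lit 1) (.p (nat_lit 423) (nat_lit 2) (.p (nat_lit 424) (nat_lit 2) (.p (nat_lit 426) (nat_lit 2) (.p (nat_lit 429) (nat_lit 2) (.n (nat_lit 430) (nat_lit 1) (.n (nat_lit 432) (nat_lit 1) (.p (nat_lit 433)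 (nat_lit 1) (.n (nat_lit 435) (nat_lit 1) (.n (nat_lit 437) (nat_lit 1) (.p (nat_lit 438) (nat_lit 1) (.p (nat_lit 441) (nat_lit 2) (.p (nat_lit 442) (nat_lit 2) (.p (nat_lit 443) (nat_lit 1) (.p (nat_lit 444) (nat_lit 1) (.n (nat_lit 445) (nat_lit 1) (.n (nat_lit 446) (nat_lit 2) (.n (nat_lit 447) (nat_lit 1) (.n (nat_lit 448) (nat_lit 1) (.n (nat_lit 449) (nat_lit 1) .z))))))))))))))))))))))))))))))))) (.ct dF4_c1052945 (nat_lit 1) (nat_lit 0) (.s true (nat_lit 1) (nat_lit 7) (nat_lit 4) (nat_lit 5) (nat_lit 3) true (nat_lit 4) true (nat_lit 12) true (nat_lit 9) true (nat_lit 11) true (nat_lit 10) (.s false (nat_lit 1) (nat_lit 20) (nat_lit 2) (nat_lit 3) (nat_lit 0) true (nat_lit 9) true (nat_lit 14) true (nat_lit 0) true (nat_lit 13) true (nat_lit 12) (.e false (nat_lit 1) (nat_lit 54) (nat_lit 15) (nat_lit 4) (.e true (nat_lit 1) (nat_lit 181) (nat_lit 3) (nat_lit 12) (.e true (nat_lit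 1) (nat_lit 152) (nat_lit 4) (nat_lit 11) (.e true (nat_lit 1) (nat_lit 156) (nat_lit 4) (nat_lit 11) (.e false (nat_lit 1) (nat_lit 158) (nat_lit 4) (nat_lit 11) (.e false (nat_lit 1) (nat_lit 160) (nat_lit 4) (nat_lit 11) (.e false (nat_lit 1) (nat_lit 111) (nat_lit 5) (nat_lit 10) (.e false (nat_lit 1) (nat_lit 229) (nat_lit 0) (nat_lit 14) (.e true (nat_lit 1) (nat_lit 202) (nat_lit 2) (nat_lit 13) (.e true (nat_lit 1) (nat_lit 206) (nat_lit 2) (nat_lit 13) (.e false (nat_lit 1) (nat_lit 208) (nat_lit 2) (nat_lit 13) (.e false (nat_lit 1) (nat_lit 210) (nat_lit 2) (nat_lit 13) (.e true (nat_lit 1) (nat_lit 189) (nat_lit 3) (nat_lit 12) .nil)))))))))))))))) .leaf) (nat_lit 30720) (nat_lit 84) (.p (nat_lit 90) (nat_lit 1) .z) .df .leaf)) (nat_lit 30724) (nat_lit 135) (.p (nat_lit 121) (nat_lit 1) .z) .df (.nd (.nd (.nd .leaf (nat_lit 30725) (nat_lit 195) (.p (nat_lit 161) (nat_lit 1) .z)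 .df .leaf) (nat_lit 30732) (nat_lit 356) (.p (nat_lit 232) (nat_lit 1) (.n (nat_lit 233) (nat_lit 2) (.n (nat_lit 234) (nat_lit 1) (.n (nat_lit 235) (nat_lit 1) (.p (nat_lit 236) (nat_lit 1) (.n (nat_lit 239) (nat_lit 1) (.n (nat_lit 240) (nat_lit 1) (.n (nat_lit 244) (nat_lit 1) (.p (nat_lit 245) (nat_lit 1) (.p (nat_lit 247) (nat_lit 1) (.p (nat_lit 248) (nat_lit 1) (.p (nat_lit 249) (nat_lit 1) (.n (nat_lit 251) (nat_lit 1) (.n (nat_lit 252) (nat_lit 1) (.p (nat_lit 254) (nat_lit 1) (.p (nat_lit 255) (nat_lit 1) (.p (nat_lit 256) (nat_lit 1) (.n (nat_lit 257) (nat_lit 1) (.p (nat_lit 260) (nat_lit 1) (.n (nat_lit 262) (nat_lit 2) (.p (nat_lit 263) (nat_lit 1) (.p (nat_lit 264) (nat_lit 2) (.p (nat_lit 268) (nat_lit 2) (.n (nat_lit 270) (nat_lit 2) (.p (nat_lit 271) (nat_lit 1) (.n (nat_lit 272) (nat_lit 2) (.n (nat_lit 273) (nat_lit 2) (.p (nat_lit 274) (nat_lit 1) .z))))))))))))))))))))))))))))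 (.ct dF4_c1118480 (nat_lit 1) (nat_lit 3) (.s true (nat_lit 1) (nat_lit 8) (nat_lit 0) (nat_lit 3) (nat_lit 4) true (nat_lit 3) true (nat_lit 10) true (nat_lit 7) true (nat_lit 14) true (nat_lit 11) (.s true (nat_lit 1) (nat_lit 9) (nat_lit 1) (nat_lit 4) (nat_lit 2) true (nat_lit 7) true (nat_lit 12) true (nat_lit 6) true (nat_lit 13) true (nat_lit 10) (.s false (nat_lit 1) (nat_lit 13) (nat_lit 3) (nat_lit 2) (nat_lit 0) true (nat_lit 6) true (nat_lit 14) true (nat_lit 2) true (nat_lit 11) true (nat_lit 12) (.e true (nat_lit 1) (nat_lit 83) (nat_lit 4) (nat_lit 10) (.e false (nat_lit 1) (nat_lit 122) (nat_lit 0) (nat_lit 14) (.e false (nat_lit 1) (nat_lit 126) (nat_lit 0) (nat_lit 14) (.e true (nat_lit 1) (nat_lit 130) (nat_lit 0) (nat_lit 14) (.e true (nat_lit 1) (nat_lit 102) (nat_lit 2) (nat_lit 12) (.e true (nat_lit 1) (nat_lit 111) (nat_lit 1) (nat_lit 13) (.e false (nat_lit 1) (nat_lit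 115) (nat_lit 1) (nat_lit 13) (.e true (nat_lit 1) (nat_lit 119) (nat_lit 1) (nat_lit 13) (.e true (nat_lit 1) (nat_lit 120) (nat_lit 1) (nat_lit 13) (.e false (nat_lit 1) (nat_lit 88) (nat_lit 4) (nat_lit 10) (.e false (nat_lit 1) (nat_lit 29) (nat_lit 13) (nat_lit 2) (.e true (nat_lit 1) (nat_lit 91) (nat_lit 3) (nat_lit 11) (.e false (nat_lit 1) (nat_lit 95) (nat_lit 3) (nat_lit 11) (.e true (nat_lit 1) (nat_lit 99) (nat_lit 3) (nat_lit 11) (.e true (nat_lit 1) (nat_lit 106) (nat_lit 2) (nat_lit 12) .nil))))))))))))))))))) .leaf) (nat_lit 30736) (nat_lit 436) (.p (nat_lit 276) (nat_lit 1) (.n (nat_lit 277) (nat_lit 2) (.n (nat_lit 278) (nat_lit 1) (.n (nat_lit 279) (nat_lit 1) (.p (nat_lit 280) (nat_lit 1) (.n (nat_lit 283) (nat_lit 1) (.n (nat_lit 284) (nat_lit 1) (.n (nat_lit 288) (nat_lit 1) (.p (nat_lit 289) (nat_lit 1) (.p (nat_lit 291) (nat_lit 1) (.p (nat_lit 292) (nat_lit 1) (.p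 (nat_lit 293) (nat_lit 1) (.n (nat_lit 295) (nat_lit 1) (.n (nat_lit 296) (nat_lit 1) (.p (nat_lit 298) (nat_lit 1) (.p (nat_lit 299) (nat_lit 1) (.p (nat_lit 300) (nat_lit 1) (.n (nat_lit 301) (nat_lit 1) (.p (nat_lit 304) (nat_lit 1) (.n (nat_lit 306) (nat_lit 2) (.p (nat_lit 307) (nat_lit 1) (.p (nat_lit 308) (nat_lit 2) (.p (nat_lit 312) (nat_lit 2) (.n (nat_lit 314) (nat_lit 2) (.p (nat_lit 315) (nat_lit 1) (.n (nat_lit 316) (nat_lit 2) (.n (nat_lit 317) (nat_lit 2) (.p (nat_lit 318) (nat_lit 1) .z)))))))))))))))))))))))))))) (.ct dF4_c1118465 (nat_lit 1) (nat_lit 3) (.s true (nat_lit 1) (nat_lit 8) (nat_lit 0) (nat_lit 3) (nat_lit 5) true (nat_lit 3) true (nat_lit 10) true (nat_lit 7) true (nat_lit 14) true (nat_lit 11) (.s true (nat_lit 1) (nat_lit 9) (nat_lit 1) (nat_lit 5) (nat_lit 2) true (nat_lit 7) true (nat_lit 12) true (nat_lit 6) true (nat_lit 13) true (nat_lit 10) (.s false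 (nat_lit 1) (nat_lit 17) (nat_lit 3) (nat_lit 2) (nat_lit 0) true (nat_lit 6) true (nat_lit 14) true (nat_lit 2) true (nat_lit 11) true (nat_lit 12) (.e true (nat_lit 1) (nat_lit 83) (nat_lit 5) (nat_lit 10) (.e false (nat_lit 1) (nat_lit 162) (nat_lit 0) (nat_lit 14) (.e false (nat_lit 1) (nat_lit 166) (nat_lit 0) (nat_lit 14) (.e true (nat_lit 1) (nat_lit 170) (nat_lit 0) (nat_lit 14) (.e true (nat_lit 1) (nat_lit 142) (nat_lit 2) (nat_lit 12) (.e true (nat_lit 1) (nat_lit 151) (nat_lit 1) (nat_lit 13) (.e false (nat_lit 1) (nat_lit 155) (nat_lit 1) (nat_lit 13) (.e true (nat_lit 1) (nat_lit 159) (nat_lit 1) (nat_lit 13) (.e true (nat_lit 1) (nat_lit 160) (nat_lit 1) (nat_lit 13) (.e false (nat_lit 1) (nat_lit 88) (nat_lit 5) (nat_lit 10) (.e false (nat_lit 1) (nat_lit 29) (nat_lit 17) (nat_lit 2) (.e true (nat_lit 1) (nat_lit 131) (nat_lit 3) (nat_lit 11) (.e false (nat_lit 1) (nat_lit 135)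 (nat_lit 3) (nat_lit 11) (.e true (nat_lit 1) (nat_lit 139) (nat_lit 3) (nat_lit 11) (.e true (nat_lit 1) (nat_lit 146) (nat_lit 2) (nat_lit 12) .nil))))))))))))))))))) (.nd (.nd .leaf (nat_lit 31744) (nat_lit 85) (.p (nat_lit 82) (nat_lit 1) (.p (nat_lit 83) (nat_lit 1) (.p (nat_lit 85) (nat_lit 1) (.p (nat_lit 86) (nat_lit 1) (.n (nat_lit 87) (nat_lit 1) (.n (nat_lit 88) (nat_lit 1) (.n (nat_lit 90) (nat_lit 1) .z))))))) (.ct dF4_c1118464 (nat_lit 1) (nat_lit 6) (.s true (nat_lit 1) (nat_lit 3) (nat_lit 0) (nat_lit 2) (nat_lit 1) true (nat_lit 2) true (nat_lit 5) true (nat_lit 3) true (nat_lit 6) true (nat_lit 4) (.s true (nat_lit 1) (nat_lit 3) (nat_lit 1) (nat_lit 2) (nat_lit 0) true (nat_lit 2) true (nat_lit 6) true (nat_lit 3) true (nat_lit 5) true (nat_lit 4) (.e true (nat_lit 1) (nat_lit 28) (nat_lit 1) (nat_lit 5) (.e false (nat_lit 1) (nat_lit 22) (nat_lit 3) (nat_lit 3) (.e true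 (nat_lit 1) (nat_lit 30) (nat_lit 0) (nat_lit 6) (.e false (nat_lit 1) (nat_lit 26) (nat_lit 2) (nat_lit 4) (.e false (nat_lit 1) (nat_lit 23) (nat_lit 3) (nat_lit 3) (.e true (nat_lit 1) (nat_lit 27) (nat_lit 1) (nat_lit 5) (.e false (nat_lit 1) (nat_lit 25) (nat_lit 2) (nat_lit 4) .nil)))))))))) .leaf) (nat_lit 31748) (nat_lit 136) (.p (nat_lit 122) (nat_lit 1) .z) .df .leaf))) (nat_lit 31749) (nat_lit 196) (.p (nat_lit 162) (nat_lit 1) .z) .df (.nd (.nd (.nd (.nd .leaf (nat_lit 31756) (nat_lit 363) (.p (nat_lit 233) (nat_lit 1) (.p (nat_lit 234) (nat_lit 1) (.p (nat_lit 235) (nat_lit 1) (.n (nat_lit 237) (nat_lit 1) (.n (nat_lit 238) (nat_lit 1) (.n (nat_lit 239) (nat_lit 1) (.p (nat_lit 242) (nat_lit 1) (.p (nat_lit 243) (nat_lit 1) (.p (nat_lit 244) (nat_lit 1) (.n (nat_lit 245) (nat_lit 1) (.n (nat_lit 246) (nat_lit 1) (.n (nat_lit 247) (nat_lit 1) (.n (nat_lit 248) (nat_lit 1) (.n (nat_lit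 250) (nat_lit 1) (.n (nat_lit 253) (nat_lit 1) (.p (nat_lit 256) (nat_lit 1) (.p (nat_lit 259) (nat_lit 1) (.p (nat_lit 261) (nat_lit 1) (.n (nat_lit 265) (nat_lit 1) (.n (nat_lit 266) (nat_lit 1) (.n (nat_lit 267) (nat_lit 1) (.n (nat_lit 268) (nat_lit 1) (.p (nat_lit 269) (nat_lit 1) (.p (nat_lit 270) (nat_lit 1) (.p (nat_lit 271) (nat_lit 1) (.p (nat_lit 272) (nat_lit 1) (.p (nat_lit 273) (nat_lit 1) .z))))))))))))))))))))))))))) (.ct dF4_c1118480 (nat_lit 1) (nat_lit 3) (.s true (nat_lit 1) (nat_lit 10) (nat_lit 0) (nat_lit 2) (nat_lit 4) true (nat_lit 3) true (nat_lit 10) true (nat_lit 5) true (nat_lit 14) true (nat_lit 12) (.e true (nat_lit 1) (nat_lit 86) (nat_lit 4) (nat_lit 10) (.e false (nat_lit 1) (nat_lit 36) (nat_lit 10) (nat_lit 5) (.e false (nat_lit 1) (nat_lit 121) (nat_lit 0) (nat_lit 14) (.e true (nat_lit 1) (nat_lit 125) (nat_lit 0) (nat_lit 14) (.e false (nat_lit 1) (nat_lit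 129) (nat_lit 0) (nat_lit 14) (.e false (nat_lit 1) (nat_lit 130) (nat_lit 0) (nat_lit 14) (.e false (nat_lit 1) (nat_lit 110) (nat_lit 2) (nat_lit 12) .nil))))))))) .leaf) (nat_lit 31760) (nat_lit 442) (.p (nat_lit 277) (nat_lit 1) (.p (nat_lit 278) (nat_lit 1) (.p (nat_lit 279) (nat_lit 1) (.n (nat_lit 281) (nat_lit 1) (.n (nat_lit 282) (nat_lit 1) (.n (nat_lit 283) (nat_lit 1) (.p (nat_lit 286) (nat_lit 1) (.p (nat_lit 287) (nat_lit 1) (.p (nat_lit 288) (nat_lit 1) (.n (nat_lit 289) (nat_lit 1) (.n (nat_lit 290) (nat_lit 1) (.n (nat_lit 291) (nat_lit 1) (.n (nat_lit 292) (nat_lit 1) (.n (nat_lit 294) (nat_lit 1) (.n (nat_lit 297) (nat_lit 1) (.p (nat_lit 300) (nat_lit 1) (.p (nat_lit 303) (nat_lit 1) (.p (nat_lit 305) (nat_lit 1) (.n (nat_lit 309) (nat_lit 1) (.n (nat_lit 310) (nat_lit 1) (.n (nat_lit 311) (nat_lit 1) (.n (nat_lit 312) (nat_lit 1) (.p (nat_lit 313) (nat_lit 1) (.p (nat_lit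 314) (nat_lit 1) (.p (nat_lit 315) (nat_lit 1) (.p (nat_lit 316) (nat_lit 1) (.p (nat_lit 317) (nat_lit 1) .z))))))))))))))))))))))))))) (.ct dF4_c1118465 (nat_lit 1) (nat_lit 3) (.s true (nat_lit 1) (nat_lit 10) (nat_lit 0) (nat_lit 2) (nat_lit 5) true (nat_lit 3) true (nat_lit 10) true (nat_lit 5) true (nat_lit 14) true (nat_lit 12) (.e true (nat_lit 1) (nat_lit 86) (nat_lit 5) (nat_lit 10) (.e false (nat_lit 1) (nat_lit 54) (nat_lit 10) (nat_lit 5) (.e false (nat_lit 1) (nat_lit 161) (nat_lit 0) (nat_lit 14) (.e true (nat_lit 1) (nat_lit 165) (nat_lit 0) (nat_lit 14) (.e false (nat_lit 1) (nat_lit 169) (nat_lit 0) (nat_lit 14) (.e false (nat_lit 1) (nat_lit 170) (nat_lit 0) (nat_lit 14) (.e false (nat_lit 1) (nat_lit 150) (nat_lit 2) (nat_lit 12) .nil))))))))) .leaf) (nat_lit 31764) (nat_lit 753) (.n (nat_lit 452) (nat_lit 1) (.n (nat_lit 456) (nat_lit 1) (.p (nat_lit 457) (nat_lit 1) (.p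 (nat_lit 459) (nat_lit 1) (.p (nat_lit 460) (nat_lit 1) (.n (nat_lit 469) (nat_lit 1) (.p (nat_lit 471) (nat_lit 1) (.p (nat_lit 472) (nat_lit 1) (.n (nat_lit 474) (nat_lit 1) (.n (nat_lit 475) (nat_lit 1) (.n (nat_lit 476) (nat_lit 1) (.p (nat_lit 482) (nat_lit 1) (.n (nat_lit 484) (nat_lit 1) (.n (nat_lit 488) (nat_lit 1) (.p (nat_lit 490) (nat_lit 1) (.p (nat_lit 492) (nat_lit 1) (.p (nat_lit 493) (nat_lit 1) .z))))))))))))))))) (.ct dF4_c69905 (nat_lit 1) (nat_lit 0) (.s true (nat_lit 1) (nat_lit 10) (nat_lit 2) (nat_lit 4) (nat_lit 5) true (nat_lit 2) true (nat_lit 10) true (nat_lit 8) true (nat_lit 13) true (nat_lit 11) (.s true (nat_lit 1) (nat_lit 10) (nat_lit 4) (nat_lit 2) (nat_lit 5) true (nat_lit 0) true (nat_lit 10) true (nat_lit 8) true (nat_lit 11) true (nat_lit 13) (.e true (nat_lit 1) (nat_lit 45) (nat_lit 18) (nat_lit 2) (.e true (nat_lit 1) (nat_lit 122) (nat_lit 5) (nat_lit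 10) (.e false (nat_lit 1) (nat_lit 212) (nat_lit 2) (nat_lit 13) (.e false (nat_lit 1) (nat_lit 216) (nat_lit 2) (nat_lit 13) (.e true (nat_lit 1) (nat_lit 218) (nat_lit 2) (nat_lit 13) (.e true (nat_lit 1) (nat_lit 220) (nat_lit 2) (nat_lit 13) (.e false (nat_lit 1) (nat_lit 167) (nat_lit 4) (nat_lit 11) (.e true (nat_lit 1) (nat_lit 127) (nat_lit 5) (nat_lit 10) (.e false (nat_lit 1) (nat_lit 161) (nat_lit 4) (nat_lit 11) (.e true (nat_lit 1) (nat_lit 165) (nat_lit 4) (nat_lit 11) (.e false (nat_lit 1) (nat_lit 169) (nat_lit 4) (nat_lit 11) (.e false (nat_lit 1) (nat_lit 170) (nat_lit 4) (nat_lit 11) (.e false (nat_lit 1) (nat_lit 214) (nat_lit 2) (nat_lit 13) .nil)))))))))))))))) (.nd (.nd .leaf (nat_lit 32768) (nat_lit 86) (.p (nat_lit 81) (nat_lit 1) (.n (nat_lit 83) (nat_lit 1) (.n (nat_lit 84) (nat_lit 1) (.n (nat_lit 85) (nat_lit 1) (.p (nat_lit 88) (nat_lit 1) (.p (nat_lit 89) (nat_lit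 1) (.p (nat_lit 90) (nat_lit 1) .z))))))) (.ct dF4_c1118464 (nat_lit 1) (nat_lit 6) (.s false (nat_lit 1) (nat_lit 3) (nat_lit 1) (nat_lit 0) (nat_lit 2) true (nat_lit 0) true (nat_lit 4) true (nat_lit 3) true (nat_lit 5) true (nat_lit 6) (.s false (nat_lit 1) (nat_lit 3) (nat_lit 2) (nat_lit 0) (nat_lit 1) true (nat_lit 0) true (nat_lit 5) true (nat_lit 3) true (nat_lit 4) true (nat_lit 6) (.e false (nat_lit 1) (nat_lit 26) (nat_lit 2) (nat_lit 4) (.e false (nat_lit 1) (nat_lit 21) (nat_lit 3) (nat_lit 3) (.e true (nat_lit 1) (nat_lit 27) (nat_lit 1) (nat_lit 5) (.e false (nat_lit 1) (nat_lit 29) (nat_lit 1) (nat_lit 5) (.e false (nat_lit 1) (nat_lit 22) (nat_lit 3) (nat_lit 3) (.e true (nat_lit 1) (nat_lit 24) (nat_lit 2) (nat_lit 4) (.e true (nat_lit 1) (nat_lit 31) (nat_lit 0) (nat_lit 6) .nil)))))))))) .leaf) (nat_lit 32772) (nat_lit 137) (.p (nat_lit 123) (nat_lit 1) .z) .df .leaf)) (nat_lit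 32773) (nat_lit 197) (.p (nat_lit 163) (nat_lit 1) .z) .df (.nd (.nd (.nd .leaf (nat_lit 32780) (nat_lit 358) (.n (nat_lit 231) (nat_lit 1) (.p (nat_lit 233) (nat_lit 1) (.p (nat_lit 234) (nat_lit 1) (.p (nat_lit 235) (nat_lit 2) (.n (nat_lit 238) (nat_lit 2) (.n (nat_lit 239) (nat_lit 1) (.n (nat_lit 240) (nat_lit 1) (.p (nat_lit 243) (nat_lit 1) (.n (nat_lit 247) (nat_lit 2) (.n (nat_lit 248) (nat_lit 1) (.n (nat_lit 249) (nat_lit 1) (.n (nat_lit 250) (nat_lit 1) (.p (nat_lit 252) (nat_lit 1) (.n (nat_lit 253) (nat_lit 1) (.n (nat_lit 255) (nat_lit 1) (.n (nat_lit 256) (nat_lit 1) (.n (nat_lit 257) (nat_lit 1) (.n (nat_lit 260) (nat_lit 1) (.p (nat_lit 261) (nat_lit 1) (.n (nat_lit 263) (nat_lit 1) (.n (nat_lit 265) (nat_lit 1) (.n (nat_lit 266) (nat_lit 1) (.n (nat_lit 268) (nat_lit 1) (.p (nat_lit 269) (nat_lit 1) (.p (nat_lit 270) (nat_lit 2) (.p (nat_lit 272) (nat_lit 1) (.p (nat_lit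 273) (nat_lit 1) .z))))))))))))))))))))))))))) (.ct dF4_c1118480 (nat_lit 1) (nat_lit 3) (.s true (nat_lit 1) (nat_lit 11) (nat_lit 0) (nat_lit 1) (nat_lit 4) true (nat_lit 3) true (nat_lit 10) true (nat_lit 4) true (nat_lit 14) true (nat_lit 13) (.e true (nat_lit 1) (nat_lit 89) (nat_lit 4) (nat_lit 10) (.e false (nat_lit 1) (nat_lit 33) (nat_lit 11) (nat_lit 4) (.e true (nat_lit 1) (nat_lit 123) (nat_lit 0) (nat_lit 14) (.e true (nat_lit 1) (nat_lit 124) (nat_lit 0) (nat_lit 14) (.e true (nat_lit 1) (nat_lit 125) (nat_lit 0) (nat_lit 14) (.e true (nat_lit 1) (nat_lit 126) (nat_lit 0) (nat_lit 14) (.e false (nat_lit 1) (nat_lit 127) (nat_lit 0) (nat_lit 14) (.e false (nat_lit 1) (nat_lit 128) (nat_lit 0) (nat_lit 14) (.e false (nat_lit 1) (nat_lit 129) (nat_lit 0) (nat_lit 14) (.e false (nat_lit 1) (nat_lit 130) (nat_lit 0) (nat_lit 14) (.e false (nat_lit 1) (nat_lit 120) (nat_lit 1) (nat_lit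 13) .nil))))))))))))) .leaf) (nat_lit 32784) (nat_lit 438) (.n (nat_lit 275) (nat_lit 1) (.p (nat_lit 277) (nat_lit 1) (.p (nat_lit 278) (nat_lit 1) (.p (nat_lit 279) (nat_lit 2) (.n (nat_lit 282) (nat_lit 2) (.n (nat_lit 283) (nat_lit 1) (.n (nat_lit 284) (nat_lit 1) (.p (nat_lit 287) (nat_lit 1) (.n (nat_lit 291) (nat_lit 2) (.n (nat_lit 292) (nat_lit 1) (.n (nat_lit 293) (nat_lit 1) (.n (nat_lit 294) (nat_lit 1) (.p (nat_lit 296) (nat_lit 1) (.n (nat_lit 297) (nat_lit 1) (.n (nat_lit 299) (nat_lit 1) (.n (nat_lit 300) (nat_lit 1) (.n (nat_lit 301) (nat_lit 1) (.n (nat_lit 304) (nat_lit 1) (.p (nat_lit 305) (nat_lit 1) (.n (nat_lit 307) (nat_lit 1) (.n (nat_lit 309) (nat_lit 1) (.n (nat_lit 310) (nat_lit 1) (.n (nat_lit 312) (nat_lit 1) (.p (nat_lit 313) (nat_lit 1) (.p (nat_lit 314) (nat_lit 2) (.p (nat_lit 316) (nat_lit 1) (.p (nat_lit 317) (nat_lit 1) .z))))))))))))))))))))))))))) (.ct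 dF4_c1118465 (nat_lit 1) (nat_lit 3) (.s true (nat_lit 1) (nat_lit 11) (nat_lit 0) (nat_lit 1) (nat_lit 5) true (nat_lit 3) true (nat_lit 10) true (nat_lit 4) true (nat_lit 14) true (nat_lit 13) (.e true (nat_lit 1) (nat_lit 89) (nat_lit 5) (nat_lit 10) (.e false (nat_lit 1) (nat_lit 51) (nat_lit 11) (nat_lit 4) (.e true (nat_lit 1) (nat_lit 163) (nat_lit 0) (nat_lit 14) (.e true (nat_lit 1) (nat_lit 164) (nat_lit 0) (nat_lit 14) (.e true (nat_lit 1) (nat_lit 165) (nat_lit 0) (nat_lit 14) (.e true (nat_lit 1) (nat_lit 166) (nat_lit 0) (nat_lit 14) (.e false (nat_lit 1) (nat_lit 167) (nat_lit 0) (nat_lit 14) (.e false (nat_lit 1) (nat_lit 168) (nat_lit 0) (nat_lit 14) (.e false (nat_lit 1) (nat_lit 169) (nat_lit 0) (nat_lit 14) (.e false (nat_lit 1) (nat_lit 170) (nat_lit 0) (nat_lit 14) (.e false (nat_lit 1) (nat_lit 160) (nat_lit 1) (nat_lit 13) .nil))))))))))))) .leaf) (nat_lit 32788) (nat_lit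 754) (.n (nat_lit 452) (nat_lit 1) (.n (nat_lit 453) (nat_lit 1) (.n (nat_lit 454) (nat_lit 1) (.n (nat_lit 455) (nat_lit 1) (.n (nat_lit 456) (nat_lit 1) (.p (nat_lit 457) (nat_lit 1) (.p (nat_lit 458) (nat_lit 1) (.p (nat_lit 459) (nat_lit 1) (.p (nat_lit 460) (nat_lit 1) (.n (nat_lit 462) (nat_lit 1) (.n (nat_lit 463) (nat_lit 2) (.n (nat_lit 464) (nat_lit 1) (.p (nat_lit 465) (nat_lit 1) (.p (nat_lit 466) (nat_lit 1) (.p (nat_lit 467) (nat_lit 2) (.p (nat_lit 468) (nat_lit 2) (.p (nat_lit 470) (nat_lit 2) (.p (nat_lit 473) (nat_lit 2) (.n (nat_lit 474) (nat_lit 1) (.n (nat_lit 476) (nat_lit 1) (.p (nat_lit 477) (nat_lit 1) (.n (nat_lit 479) (nat_lit 1) (.n (nat_lit 481) (nat_lit 1) (.p (nat_lit 482) (nat_lit 1) (.p (nat_lit 485) (nat_lit 2) (.p (nat_lit 486) (nat_lit 2) (.p (nat_lit 487) (nat_lit 1) (.p (nat_lit 488) (nat_lit 1) (.n (nat_lit 489) (nat_lit 1) (.n (nat_lit 490) (nat_lit 2)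 (.n (nat_lit 491) (nat_lit 1) (.n (nat_lit 492) (nat_lit 1) (.n (nat_lit 493) (nat_lit 1) .z))))))))))))))))))))))))))))))))) (.ct dF4_c69905 (nat_lit 1) (nat_lit 0) (.s true (nat_lit 1) (nat_lit 8) (nat_lit 4) (nat_lit 5) (nat_lit 3) true (nat_lit 4) true (nat_lit 12) true (nat_lit 9) true (nat_lit 11) true (nat_lit 10) (.s false (nat_lit 1) (nat_lit 20) (nat_lit 2) (nat_lit 3) (nat_lit 1) true (nat_lit 9) true (nat_lit 14) true (nat_lit 0) true (nat_lit 13) true (nat_lit 12) (.e false (nat_lit 1) (nat_lit 57) (nat_lit 15) (nat_lit 4) (.e true (nat_lit 1) (nat_lit 191) (nat_lit 3) (nat_lit 12) (.e true (nat_lit 1) (nat_lit 162) (nat_lit 4) (nat_lit 11) (.e true (nat_lit 1) (nat_lit 166) (nat_lit 4) (nat_lit 11) (.e false (nat_lit 1) (nat_lit 168) (nat_lit 4) (nat_lit 11) (.e false (nat_lit 1) (nat_lit 170) (nat_lit 4) (nat_lit 11) (.e false (nat_lit 1) (nat_lit 121) (nat_lit 5) (nat_lit 10)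 (.e false (nat_lit 1) (nat_lit 229) (nat_lit 1) (nat_lit 14) (.e true (nat_lit 1) (nat_lit 212) (nat_lit 2) (nat_lit 13) (.e true (nat_lit 1) (nat_lit 216) (nat_lit 2) (nat_lit 13) (.e false (nat_lit 1) (nat_lit 218) (nat_lit 2) (nat_lit 13) (.e false (nat_lit 1) (nat_lit 220) (nat_lit 2) (nat_lit 13) (.e true (nat_lit 1) (nat_lit 199) (nat_lit 3) (nat_lit 12) .nil)))))))))))))))) (.nd (.nd .leaf (nat_lit 33794) (nat_lit 93) (.p (nat_lit 94) (nat_lit 1) .z) .df .leaf) (nat_lit 33795) (nat_lit 108) (.p (nat_lit 104) (nat_lit 1) .z) .df .leaf))))))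

noncomputable def dF4_t2 : Tr := (.nd dF4_t0 (nat_lit 18442) (nat_lit 208) (.p (nat_lit 161) (nat_lit 1) (.n (nat_lit 165) (nat_lit 1) (.p (nat_lit 169) (nat_lit 1) (.p (nat_lit 170) (nat_lit 1) .z)))) (.ct dF4_c69889 (nat_lit 1) (nat_lit 1) (.s true (nat_lit 1) (nat_lit 5) (nat_lit 1) (nat_lit 2) (nat_lit 3) true (nat_lit 1) true (nat_lit 4) true (nat_lit 3) true (nat_lit 6) true (nat_lit 5) (.e true (nat_lit 1) (nat_lit 58) (nat_lit 3) (nat_lit 4) (.e false (nat_lit 1) (nat_lit 30) (nat_lit 5) (nat_lit 3) (.e false (nat_lit 1) (nat_lit 66) (nat_lit 1) (nat_lit 6) (.e false (nat_lit 1) (nat_lit 65) (nat_lit 2) (nat_lit 5) .nil)))))) dF4_t1)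

noncomputable def dF4_t3 : Tr := (.nd (.nd (.nd (.nd (.nd (.nd (.nd .leaf (nat_lit 33803) (nat_lit 343) (.p (nat_lit 274) (nat_lit 1) .z) .df .leaf) (nat_lit 33810) (nat_lit 501) (.p (nat_lit 361) (nat_lit 1) .z) .df (.nd .leaf (nat_lit 33811) (nat_lit 580) (.p (nat_lit 405) (nat_lit 1) .z) .df .leaf)) (nat_lit 34818) (nat_lit 94) (.p (nat_lit 95) (nat_lit 1) .z) .df (.nd (.nd .leaf (nat_lit 34819) (nat_lit 109) (.p (nat_lit 105) (nat_lit 1) .z) .df .leaf) (nat_lit 34821) (nat_lit 211) (.p (nat_lit 172) (nat_lit 1) .z) .df .leaf)) (nat_lit 34827) (nat_lit 367) (.n (nat_lit 233) (nat_lit 1) (.n (nat_lit 234) (nat_lit 1) (.n (nat_lit 235) (nat_lit 1) (.n (nat_lit 243) (nat_lit 1) (.n (nat_lit 244) (nat_lit 1) (.p (nat_lit 245) (nat_lit 1) (.p (nat_lit 247) (nat_lit 2) (.p (nat_lit 248) (nat_lit 1) (.p (nat_lit 249) (nat_lit 1) (.p (nat_lit 250) (nat_lit 1) (.n (nat_lit 251) (nat_lit 1) (.n (nat_lit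 252) (nat_lit 1) (.p (nat_lit 253) (nat_lit 1) (.p (nat_lit 254) (nat_lit 1) (.p (nat_lit 255) (nat_lit 1) (.p (nat_lit 256) (nat_lit 1) (.p (nat_lit 260) (nat_lit 1) (.n (nat_lit 261) (nat_lit 1) (.n (nat_lit 262) (nat_lit 1) (.p (nat_lit 263) (nat_lit 1) (.p (nat_lit 264) (nat_lit 1) (.p (nat_lit 265) (nat_lit 1) (.p (nat_lit 268) (nat_lit 1) (.n (nat_lit 270) (nat_lit 2) (.p (nat_lit 271) (nat_lit 1) (.n (nat_lit 272) (nat_lit 1) (.n (nat_lit 273) (nat_lit 2) (.p (nat_lit 274) (nat_lit 1) .z)))))))))))))))))))))))))))) (.ct dF4_c1118480 (nat_lit 1) (nat_lit 4) (.s true (nat_lit 1) (nat_lit 11) (nat_lit 4) (nat_lit 0) (nat_lit 1) true (nat_lit 2) true (nat_lit 13) true (nat_lit 4) true (nat_lit 10) true (nat_lit 14) (.e false (nat_lit 1) (nat_lit 29) (nat_lit 13) (nat_lit 2) (.e true (nat_lit 1) (nat_lit 120) (nat_lit 1) (nat_lit 13) (.e true (nat_lit 1) (nat_lit 82) (nat_lit 4) (nat_lit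 10) (.e true (nat_lit 1) (nat_lit 86) (nat_lit 4) (nat_lit 10) (.e false (nat_lit 1) (nat_lit 88) (nat_lit 4) (nat_lit 10) (.e false (nat_lit 1) (nat_lit 90) (nat_lit 4) (nat_lit 10) (.e false (nat_lit 1) (nat_lit 123) (nat_lit 0) (nat_lit 14) .nil))))))))) (.nd (.nd (.nd .leaf (nat_lit 34834) (nat_lit 523) (.p (nat_lit 319) (nat_lit 1) (.p (nat_lit 320) (nat_lit 1) (.p (nat_lit 324) (nat_lit 1) (.n (nat_lit 325) (nat_lit 1) (.n (nat_lit 327) (nat_lit 1) (.n (nat_lit 328) (nat_lit 1) (.n (nat_lit 329) (nat_lit 1) (.p (nat_lit 330) (nat_lit 1) (.p (nat_lit 331) (nat_lit 1) (.n (nat_lit 332) (nat_lit 1) (.n (nat_lit 335) (nat_lit 1) (.n (nat_lit 338) (nat_lit 1) (.n (nat_lit 341) (nat_lit 1) (.p (nat_lit 342) (nat_lit 1) (.p (nat_lit 344) (nat_lit 1) (.n (nat_lit 345) (nat_lit 1) (.n (nat_lit 346) (nat_lit 1) (.p (nat_lit 347) (nat_lit 1) (.p (nat_lit 348) (nat_lit 1) (.p (nat_lit 349) (nat_lit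 1) (.n (nat_lit 350) (nat_lit 2) (.p (nat_lit 352) (nat_lit 1) (.n (nat_lit 353) (nat_lit 1) (.n (nat_lit 354) (nat_lit 1) (.p (nat_lit 356) (nat_lit 1) (.p (nat_lit 359) (nat_lit 1) (.n (nat_lit 360) (nat_lit 1) (.p (nat_lit 362) (nat_lit 1) .z)))))))))))))))))))))))))))) (.ct dF4_c1118225 (nat_lit 1) (nat_lit 1) (.s true (nat_lit 1) (nat_lit 12) (nat_lit 2) (nat_lit 1) (nat_lit 5) true (nat_lit 1) true (nat_lit 10) true (nat_lit 6) true (nat_lit 12) true (nat_lit 13) (.e true (nat_lit 1) (nat_lit 98) (nat_lit 5) (nat_lit 10) (.e true (nat_lit 1) (nat_lit 57) (nat_lit 12) (nat_lit 6) (.e false (nat_lit 1) (nat_lit 171) (nat_lit 2) (nat_lit 12) (.e true (nat_lit 1) (nat_lit 175) (nat_lit 2) (nat_lit 12) (.e false (nat_lit 1) (nat_lit 179) (nat_lit 2) (nat_lit 12) (.e false (nat_lit 1) (nat_lit 180) (nat_lit 2) (nat_lit 12) (.e false (nat_lit 1) (nat_lit 187) (nat_lit 1) (nat_lit 13) .nil)))))))))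 .leaf) (nat_lit 34835) (nat_lit 602) (.p (nat_lit 363) (nat_lit 1) (.p (nat_lit 364) (nat_lit 1) (.p (nat_lit 368) (nat_lit 1) (.n (nat_lit 369) (nat_lit 1) (.n (nat_lit 371) (nat_lit 1) (.n (nat_lit 372) (nat_lit 1) (.n (nat_lit 373) (nat_lit 1) (.p (nat_lit 374) (nat_lit 1) (.p (nat_lit 375) (nat_lit 1) (.n (nat_lit 376) (nat_lit 1) (.n (nat_lit 379) (nat_lit 1) (.n (nat_lit 382) (nat_lit 1) (.n (nat_lit 385) (nat_lit 1) (.p (nat_lit 386) (nat_lit 1) (.p (nat_lit 388) (nat_lit 1) (.n (nat_lit 389) (nat_lit 1) (.n (nat_lit 390) (nat_lit 1) (.p (nat_lit 391) (nat_lit 1) (.p (nat_lit 392) (nat_lit 1) (.p (nat_lit 393) (nat_lit 1) (.n (nat_lit 394) (nat_lit 2) (.p (nat_lit 396) (nat_lit 1) (.n (nat_lit 397) (nat_lit 1) (.n (nat_lit 398) (nat_lit 1) (.p (nat_lit 400) (nat_lit 1) (.p (nat_lit 403) (nat_lit 1) (.n (nat_lit 404) (nat_lit 1) (.p (nat_lit 406) (nat_lit 1) .z))))))))))))))))))))))))))))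 (.ct dF4_c1114385 (nat_lit 1) (nat_lit 1) (.s true (nat_lit 1) (nat_lit 12) (nat_lit 3) (nat_lit 1) (nat_lit 5) true (nat_lit 1) true (nat_lit 10) true (nat_lit 6) true (nat_lit 12) true (nat_lit 13) (.e true (nat_lit 1) (nat_lit 108) (nat_lit 5) (nat_lit 10) (.e true (nat_lit 1) (nat_lit 63) (nat_lit 12) (nat_lit 6) (.e false (nat_lit 1) (nat_lit 171) (nat_lit 3) (nat_lit 12) (.e true (nat_lit 1) (nat_lit 175) (nat_lit 3) (nat_lit 12) (.e false (nat_lit 1) (nat_lit 179) (nat_lit 3) (nat_lit 12) (.e false (nat_lit 1) (nat_lit 180) (nat_lit 3) (nat_lit 12) (.e false (nat_lit 1) (nat_lit 207) (nat_lit 1) (nat_lit 13) .nil))))))))) .leaf) (nat_lit 35842) (nat_lit 95) (.p (nat_lit 96) (nat_lit 1) .z) .df (.nd (.nd .leaf (nat_lit 35843) (nat_lit 110) (.p (nat_lit 106) (nat_lit 1) .z) .df .leaf) (nat_lit 35845) (nat_lit 212) (.p (nat_lit 173) (nat_lit 1) .z) .df .leaf))) (nat_lit 35851) (nat_lit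 368) (.n (nat_lit 231) (nat_lit 1) (.p (nat_lit 232) (nat_lit 1) (.p (nat_lit 233) (nat_lit 1) (.p (nat_lit 234) (nat_lit 1) (.p (nat_lit 235) (nat_lit 2) (.p (nat_lit 236) (nat_lit 1) (.n (nat_lit 237) (nat_lit 1) (.n (nat_lit 238) (nat_lit 2) (.n (nat_lit 239) (nat_lit 2) (.n (nat_lit 240) (nat_lit 1) (.p (nat_lit 243) (nat_lit 1) (.n (nat_lit 247) (nat_lit 2) (.n (nat_lit 248) (nat_lit 1) (.n (nat_lit 249) (nat_lit 1) (.n (nat_lit 250) (nat_lit 1) (.p (nat_lit 252) (nat_lit 1) (.n (nat_lit 253) (nat_lit 1) (.n (nat_lit 255) (nat_lit 1) (.n (nat_lit 256) (nat_lit 1) (.n (nat_lit 257) (nat_lit 1) (.p (nat_lit 259) (nat_lit 1) (.n (nat_lit 260) (nat_lit 1) (.p (nat_lit 261) (nat_lit 1) (.n (nat_lit 263) (nat_lit 1) (.n (nat_lit 265) (nat_lit 1) (.n (nat_lit 266) (nat_lit 1) (.n (nat_lit 268) (nat_lit 1) (.p (nat_lit 269) (nat_lit 1) (.p (nat_lit 270) (nat_lit 2) (.p (nat_lit 273) (nat_lit 1)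 .z)))))))))))))))))))))))))))))) (.ct dF4_c1118480 (nat_lit 1) (nat_lit 4) (.s true (nat_lit 1) (nat_lit 11) (nat_lit 4) (nat_lit 1) (nat_lit 0) true (nat_lit 3) true (nat_lit 14) true (nat_lit 4) true (nat_lit 10) true (nat_lit 13) (.e false (nat_lit 1) (nat_lit 32) (nat_lit 12) (nat_lit 3) (.e true (nat_lit 1) (nat_lit 130) (nat_lit 0) (nat_lit 14) (.e false (nat_lit 1) (nat_lit 82) (nat_lit 4) (nat_lit 10) (.e false (nat_lit 1) (nat_lit 86) (nat_lit 4) (nat_lit 10) (.e true (nat_lit 1) (nat_lit 88) (nat_lit 4) (nat_lit 10) (.e true (nat_lit 1) (nat_lit 90) (nat_lit 4) (nat_lit 10) (.e false (nat_lit 1) (nat_lit 113) (nat_lit 1) (nat_lit 13) .nil))))))))) (.nd (.nd (.nd (.nd .leaf (nat_lit 35858) (nat_lit 516) (.p (nat_lit 319) (nat_lit 1) (.n (nat_lit 321) (nat_lit 1) (.n (nat_lit 323) (nat_lit 2) (.p (nat_lit 326) (nat_lit 1) (.p (nat_lit 327) (nat_lit 1) (.n (nat_lit 331) (nat_lit 1) (.p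 (nat_lit 335) (nat_lit 1) (.p (nat_lit 336) (nat_lit 1) (.p (nat_lit 337) (nat_lit 1) (.n (nat_lit 340) (nat_lit 1) (.p (nat_lit 342) (nat_lit 1) (.p (nat_lit 343) (nat_lit 1) (.p (nat_lit 344) (nat_lit 2) (.p (nat_lit 348) (nat_lit 1) (.n (nat_lit 350) (nat_lit 1) (.p (nat_lit 351) (nat_lit 1) (.n (nat_lit 355) (nat_lit 1) (.p (nat_lit 356) (nat_lit 1) (.n (nat_lit 358) (nat_lit 1) (.p (nat_lit 359) (nat_lit 1) (.n (nat_lit 361) (nat_lit 1) .z))))))))))))))))))))) (.ct dF4_c1118225 (nat_lit 1) (nat_lit 1) (.s true (nat_lit 1) (nat_lit 6) (nat_lit 2) (nat_lit 5) (nat_lit 4) true (nat_lit 4) true (nat_lit 11) true (nat_lit 9) true (nat_lit 12) true (nat_lit 10) (.s false (nat_lit 1) (nat_lit 18) (nat_lit 1) (nat_lit 4) (nat_lit 0) true (nat_lit 9) true (nat_lit 14) true (nat_lit 1) true (nat_lit 13) true (nat_lit 11) (.e true (nat_lit 1) (nat_lit 51) (nat_lit 14) (nat_lit 4) (.e true (nat_lit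 1) (nat_lit 131) (nat_lit 4) (nat_lit 11) (.e true (nat_lit 1) (nat_lit 172) (nat_lit 2) (nat_lit 12) (.e true (nat_lit 1) (nat_lit 176) (nat_lit 2) (nat_lit 12) (.e false (nat_lit 1) (nat_lit 178) (nat_lit 2) (nat_lit 12) (.e false (nat_lit 1) (nat_lit 180) (nat_lit 2) (nat_lit 12) (.e false (nat_lit 1) (nat_lit 94) (nat_lit 5) (nat_lit 10) (.e false (nat_lit 1) (nat_lit 196) (nat_lit 0) (nat_lit 14) (.e true (nat_lit 1) (nat_lit 181) (nat_lit 1) (nat_lit 13) (.e false (nat_lit 1) (nat_lit 185) (nat_lit 1) (nat_lit 13) (.e true (nat_lit 1) (nat_lit 189) (nat_lit 1) (nat_lit 13) (.e true (nat_lit 1) (nat_lit 190) (nat_lit 1) (nat_lit 13) (.e true (nat_lit 1) (nat_lit 139) (nat_lit 4) (nat_lit 11) .nil)))))))))))))))) .leaf) (nat_lit 35859) (nat_lit 595) (.p (nat_lit 363) (nat_lit 1) (.n (nat_lit 365) (nat_lit 1) (.n (nat_lit 367) (nat_lit 2) (.p (nat_lit 370) (nat_lit 1) (.p (nat_lit 371) (nat_lit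 1) (.n (nat_lit 375) (nat_lit 1) (.p (nat_lit 379) (nat_lit 1) (.p (nat_lit 380) (nat_lit 1) (.p (nat_lit 381) (nat_lit 1) (.n (nat_lit 384) (nat_lit 1) (.p (nat_lit 386) (nat_lit 1) (.p (nat_lit 387) (nat_lit 1) (.p (nat_lit 388) (nat_lit 2) (.p (nat_lit 392) (nat_lit 1) (.n (nat_lit 394) (nat_lit 1) (.p (nat_lit 395) (nat_lit 1) (.n (nat_lit 399) (nat_lit 1) (.p (nat_lit 400) (nat_lit 1) (.n (nat_lit 402) (nat_lit 1) (.p (nat_lit 403) (nat_lit 1) (.n (nat_lit 405) (nat_lit 1) .z))))))))))))))))))))) (.ct dF4_c1114385 (nat_lit 1) (nat_lit 1) (.s true (nat_lit 1) (nat_lit 6) (nat_lit 3) (nat_lit 5) (nat_lit 4) true (nat_lit 4) true (nat_lit 11) true (nat_lit 9) true (nat_lit 12) true (nat_lit 10) (.s false (nat_lit 1) (nat_lit 19) (nat_lit 1) (nat_lit 4) (nat_lit 0) true (nat_lit 9) true (nat_lit 14) true (nat_lit 1) true (nat_lit 13) true (nat_lit 11) (.e true (nat_lit 1) (nat_lit 51) (nat_lit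 15) (nat_lit 4) (.e true (nat_lit 1) (nat_lit 141) (nat_lit 4) (nat_lit 11) (.e true (nat_lit 1) (nat_lit 172) (nat_lit 3) (nat_lit 12) (.e true (nat_lit 1) (nat_lit 176) (nat_lit 3) (nat_lit 12) (.e false (nat_lit 1) (nat_lit 178) (nat_lit 3) (nat_lit 12) (.e false (nat_lit 1) (nat_lit 180) (nat_lit 3) (nat_lit 12) (.e false (nat_lit 1) (nat_lit 104) (nat_lit 5) (nat_lit 10) (.e false (nat_lit 1) (nat_lit 216) (nat_lit 0) (nat_lit 14) (.e true (nat_lit 1) (nat_lit 201) (nat_lit 1) (nat_lit 13) (.e false (nat_lit 1) (nat_lit 205) (nat_lit 1) (nat_lit 13) (.e true (nat_lit 1) (nat_lit 209) (nat_lit 1) (nat_lit 13) (.e true (nat_lit 1) (nat_lit 210) (nat_lit 1) (nat_lit 13) (.e true (nat_lit 1) (nat_lit 149) (nat_lit 4) (nat_lit 11) .nil)))))))))))))))) .leaf) (nat_lit 36865) (nat_lit 96) (.p (nat_lit 97) (nat_lit 1) .z) .df (.nd (.nd .leaf (nat_lit 36867) (nat_lit 123) (.p (nat_lit 114) (nat_lit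 1) .z) .df .leaf) (nat_lit 36869) (nat_lit 225) (.p (nat_lit 181) (nat_lit 1) .z) .df .leaf)) (nat_lit 36874) (nat_lit 344) (.p (nat_lit 233) (nat_lit 1) (.p (nat_lit 234) (nat_lit 1) (.p (nat_lit 235) (nat_lit 1) (.p (nat_lit 236) (nat_lit 1) (.n (nat_lit 237) (nat_lit 1) (.n (nat_lit 238) (nat_lit 1) (.n (nat_lit 239) (nat_lit 1) (.p (nat_lit 242) (nat_lit 1) (.p (nat_lit 243) (nat_lit 1) (.p (nat_lit 244) (nat_lit 1) (.n (nat_lit 245) (nat_lit 1) (.n (nat_lit 246) (nat_lit 1) (.n (nat_lit 247) (nat_lit 1) (.n (nat_lit 248) (nat_lit 1) (.n (nat_lit 250) (nat_lit 1) (.n (nat_lit 253) (nat_lit 1) (.p (nat_lit 259) (nat_lit 1) (.p (nat_lit 261) (nat_lit 1) (.n (nat_lit 263) (nat_lit 1) (.n (nat_lit 265) (nat_lit 1) (.n (nat_lit 266) (nat_lit 1) (.n (nat_lit 268) (nat_lit 1) (.p (nat_lit 269) (nat_lit 1) (.p (nat_lit 270) (nat_lit 1) (.p (nat_lit 273) (nat_lit 1) .z))))))))))))))))))))))))) (.ct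 dF4_c1118480 (nat_lit 1) (nat_lit 5) (.s false (nat_lit 1) (nat_lit 6) (nat_lit 2) (nat_lit 3) (nat_lit 4) true (nat_lit 1) true (nat_lit 10) true (nat_lit 9) true (nat_lit 12) true (nat_lit 11) (.s false (nat_lit 1) (nat_lit 10) (nat_lit 0) (nat_lit 2) (nat_lit 4) true (nat_lit 3) true (nat_lit 10) true (nat_lit 5) true (nat_lit 14) true (nat_lit 12) (.s false (nat_lit 1) (nat_lit 11) (nat_lit 0) (nat_lit 4) (nat_lit 1) true (nat_lit 9) true (nat_lit 13) true (nat_lit 4) true (nat_lit 14) true (nat_lit 10) (.s true (nat_lit 1) (nat_lit 12) (nat_lit 3) (nat_lit 1) (nat_lit 2) true (nat_lit 4) true (nat_lit 12) true (nat_lit 3) true (nat_lit 11) true (nat_lit 13) dF4_i0))))) (.nd (.nd (.nd .leaf (nat_lit 36881) (nat_lit 514) (.p (nat_lit 319) (nat_lit 1) (.n (nat_lit 320) (nat_lit 1) (.n (nat_lit 321) (nat_lit 1) (.n (nat_lit 322) (nat_lit 1) (.n (nat_lit 323) (nat_lit 2) (.n (nat_lit 324) (nat_lit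 1) (.p (nat_lit 325) (nat_lit 1) (.p (nat_lit 326) (nat_lit 2) (.p (nat_lit 327) (nat_lit 2) (.p (nat_lit 328) (nat_lit 1) (.n (nat_lit 329) (nat_lit 1) (.n (nat_lit 330) (nat_lit 1) (.n (nat_lit 331) (nat_lit 2) (.n (nat_lit 332) (nat_lit 1) (.p (nat_lit 333) (nat_lit 1) (.p (nat_lit 334) (nat_lit 1) (.p (nat_lit 335) (nat_lit 2) (.p (nat_lit 336) (nat_lit 2) (.p (nat_lit 338) (nat_lit 1) (.p (nat_lit 341) (nat_lit 1) (.p (nat_lit 345) (nat_lit 1) (.n (nat_lit 347) (nat_lit 1) (.p (nat_lit 348) (nat_lit 1) (.n (nat_lit 349) (nat_lit 1) (.p (nat_lit 351) (nat_lit 1) (.p (nat_lit 353) (nat_lit 1) (.p (nat_lit 354) (nat_lit 1) (.p (nat_lit 356) (nat_lit 1) (.n (nat_lit 357) (nat_lit 1) (.n (nat_lit 358) (nat_lit 1) (.n (nat_lit 361) (nat_lit 1) .z))))))))))))))))))))))))))))))) (.ct dF4_c1118225 (nat_lit 1) (nat_lit 2) (.s false (nat_lit 1) (nat_lit 7) (nat_lit 4) (nat_lit 5) (nat_lit 1) true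 (nat_lit 5) true (nat_lit 13) true (nat_lit 8) true (nat_lit 11) true (nat_lit 10) (.s false (nat_lit 1) (nat_lit 7) (nat_lit 5) (nat_lit 4) (nat_lit 1) true (nat_lit 2) true (nat_lit 13) true (nat_lit 8) true (nat_lit 10) true (nat_lit 11) (.e true (nat_lit 1) (nat_lit 54) (nat_lit 13) (nat_lit 5) (.e false (nat_lit 1) (nat_lit 181) (nat_lit 1) (nat_lit 13) (.e false (nat_lit 1) (nat_lit 131) (nat_lit 4) (nat_lit 11) (.e true (nat_lit 1) (nat_lit 135) (nat_lit 4) (nat_lit 11) (.e false (nat_lit 1) (nat_lit 139) (nat_lit 4) (nat_lit 11) (.e false (nat_lit 1) (nat_lit 140) (nat_lit 4) (nat_lit 11) (.e true (nat_lit 1) (nat_lit 92) (nat_lit 5) (nat_lit 10) (.e false (nat_lit 1) (nat_lit 184) (nat_lit 1) (nat_lit 13) (.e false (nat_lit 1) (nat_lit 91) (nat_lit 5) (nat_lit 10) (.e true (nat_lit 1) (nat_lit 95) (nat_lit 5) (nat_lit 10) (.e false (nat_lit 1) (nat_lit 99) (nat_lit 5) (nat_lit 10)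 (.e false (nat_lit 1) (nat_lit 100) (nat_lit 5) (nat_lit 10) (.e true (nat_lit 1) (nat_lit 132) (nat_lit 4) (nat_lit 11) .nil)))))))))))))))) .leaf) (nat_lit 36883) (nat_lit 658) (.p (nat_lit 449) (nat_lit 1) .z) .df .leaf) (nat_lit 37889) (nat_lit 97) (.p (nat_lit 98) (nat_lit 1) .z) .df (.nd (.nd .leaf (nat_lit 37891) (nat_lit 124) (.p (nat_lit 115) (nat_lit 1) .z) .df .leaf) (nat_lit 37893) (nat_lit 226) (.p (nat_lit 182) (nat_lit 1) .z) .df .leaf)))) (nat_lit 37898) (nat_lit 369) (.n (nat_lit 233) (nat_lit 1) (.n (nat_lit 235) (nat_lit 1) (.n (nat_lit 243) (nat_lit 1) (.p (nat_lit 247) (nat_lit 1) (.p (nat_lit 248) (nat_lit 1) (.p (nat_lit 249) (nat_lit 1) (.n (nat_lit 252) (nat_lit 1) (.p (nat_lit 254) (nat_lit 1) (.p (nat_lit 255) (nat_lit 1) (.p (nat_lit 256) (nat_lit 1) (.p (nat_lit 260) (nat_lit 1) (.n (nat_lit 262) (nat_lit 1) (.p (nat_lit 263) (nat_lit 1) (.p (nat_lit 264) (nat_lit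 1) (.n (nat_lit 267) (nat_lit 1) (.p (nat_lit 268) (nat_lit 1) (.n (nat_lit 270) (nat_lit 1) (.p (nat_lit 271) (nat_lit 1) (.n (nat_lit 273) (nat_lit 1) .z))))))))))))))))))) (.ct dF4_c1118480 (nat_lit 1) (nat_lit 5) (.s true (nat_lit 1) (nat_lit 10) (nat_lit 4) (nat_lit 0) (nat_lit 2) true (nat_lit 1) true (nat_lit 12) true (nat_lit 5) true (nat_lit 10) true (nat_lit 14) (.e false (nat_lit 1) (nat_lit 26) (nat_lit 14) (nat_lit 1) (.e true (nat_lit 1) (nat_lit 110) (nat_lit 2) (nat_lit 12) (.e true (nat_lit 1) (nat_lit 81) (nat_lit 4) (nat_lit 10) (.e false (nat_lit 1) (nat_lit 85) (nat_lit 4) (nat_lit 10) (.e true (nat_lit 1) (nat_lit 89) (nat_lit 4) (nat_lit 10) (.e true (nat_lit 1) (nat_lit 90) (nat_lit 4) (nat_lit 10) (.e false (nat_lit 1) (nat_lit 122) (nat_lit 0) (nat_lit 14) .nil))))))))) (.nd (.nd (.nd (.nd (.nd .leaf (nat_lit 37905) (nat_lit 524) (.p (nat_lit 319) (nat_lit 1) (.n (nat_lit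 320) (nat_lit 1) (.n (nat_lit 323) (nat_lit 1) (.n (nat_lit 324) (nat_lit 1) (.p (nat_lit 325) (nat_lit 1) (.p (nat_lit 326) (nat_lit 1) (.p (nat_lit 327) (nat_lit 2) (.p (nat_lit 328) (nat_lit 1) (.n (nat_lit 329) (nat_lit 1) (.n (nat_lit 330) (nat_lit 1) (.n (nat_lit 331) (nat_lit 1) (.n (nat_lit 332) (nat_lit 1) (.p (nat_lit 334) (nat_lit 1) (.p (nat_lit 336) (nat_lit 1) (.n (nat_lit 337) (nat_lit 1) (.p (nat_lit 339) (nat_lit 1) (.p (nat_lit 340) (nat_lit 1) (.p (nat_lit 341) (nat_lit 1) (.n (nat_lit 342) (nat_lit 1) (.n (nat_lit 343) (nat_lit 1) (.n (nat_lit 344) (nat_lit 1) (.p (nat_lit 345) (nat_lit 1) (.p (nat_lit 350) (nat_lit 1) (.n (nat_lit 352) (nat_lit 1) (.p (nat_lit 353) (nat_lit 1) (.p (nat_lit 354) (nat_lit 1) (.p (nat_lit 355) (nat_lit 1) (.n (nat_lit 357) (nat_lit 1) (.n (nat_lit 359) (nat_lit 1) (.p (nat_lit 361) (nat_lit 1) .z)))))))))))))))))))))))))))))) (.ct dF4_c1118225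 (nat_lit 1) (nat_lit 2) (.s true (nat_lit 1) (nat_lit 12) (nat_lit 1) (nat_lit 2) (nat_lit 5) true (nat_lit 2) true (nat_lit 10) true (nat_lit 6) true (nat_lit 13) true (nat_lit 12) (.e true (nat_lit 1) (nat_lit 95) (nat_lit 5) (nat_lit 10) (.e false (nat_lit 1) (nat_lit 57) (nat_lit 12) (nat_lit 6) (.e false (nat_lit 1) (nat_lit 181) (nat_lit 1) (nat_lit 13) (.e true (nat_lit 1) (nat_lit 185) (nat_lit 1) (nat_lit 13) (.e false (nat_lit 1) (nat_lit 189) (nat_lit 1) (nat_lit 13) (.e false (nat_lit 1) (nat_lit 190) (nat_lit 1) (nat_lit 13) (.e false (nat_lit 1) (nat_lit 177) (nat_lit 2) (nat_lit 12) .nil))))))))) .leaf) (nat_lit 38913) (nat_lit 98) (.p (nat_lit 99) (nat_lit 1) .z) .df .leaf) (nat_lit 38915) (nat_lit 125) (.p (nat_lit 116) (nat_lit 1) .z) .df (.nd (.nd .leaf (nat_lit 38917) (nat_lit 227) (.p (nat_lit 183) (nat_lit 1) .z) .df .leaf) (nat_lit 38922) (nat_lit 370) (.p (nat_lit 231)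 (nat_lit 1) (.p (nat_lit 233) (nat_lit 1) (.p (nat_lit 234) (nat_lit 1) (.n (nat_lit 237) (nat_lit 1) (.p (nat_lit 242) (nat_lit 1) (.p (nat_lit 243) (nat_lit 1) (.p (nat_lit 244) (nat_lit 1) (.n (nat_lit 245) (nat_lit 1) (.n (nat_lit 246) (nat_lit 1) (.n (nat_lit 247) (nat_lit 1) (.n (nat_lit 248) (nat_lit 1) (.n (nat_lit 250) (nat_lit 1) (.p (nat_lit 251) (nat_lit 1) (.n (nat_lit 253) (nat_lit 1) (.p (nat_lit 256) (nat_lit 1) (.p (nat_lit 259) (nat_lit 1) (.p (nat_lit 261) (nat_lit 1) (.n (nat_lit 265) (nat_lit 1) (.n (nat_lit 266) (nat_lit 1) (.n (nat_lit 267) (nat_lit 1) (.n (nat_lit 268) (nat_lit 1) (.p (nat_lit 270) (nat_lit 1) (.p (nat_lit 271) (nat_lit 1) (.p (nat_lit 272) (nat_lit 1) (.p (nat_lit 273) (nat_lit 1) .z))))))))))))))))))))))))) (.ct dF4_c1118480 (nat_lit 1) (nat_lit 5) (.s true (nat_lit 1) (nat_lit 10) (nat_lit 4) (nat_lit 2) (nat_lit 0) true (nat_lit 3) true (nat_lit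 14) true (nat_lit 5) true (nat_lit 10) true (nat_lit 12) (.e false (nat_lit 1) (nat_lit 31) (nat_lit 12) (nat_lit 3) (.e true (nat_lit 1) (nat_lit 127) (nat_lit 0) (nat_lit 14) (.e false (nat_lit 1) (nat_lit 81) (nat_lit 4) (nat_lit 10) (.e true (nat_lit 1) (nat_lit 85) (nat_lit 4) (nat_lit 10) (.e false (nat_lit 1) (nat_lit 89) (nat_lit 4) (nat_lit 10) (.e false (nat_lit 1) (nat_lit 90) (nat_lit 4) (nat_lit 10) (.e false (nat_lit 1) (nat_lit 103) (nat_lit 2) (nat_lit 12) .nil))))))))) .leaf)) (nat_lit 38929) (nat_lit 505) (.n (nat_lit 319) (nat_lit 1) (.p (nat_lit 320) (nat_lit 1) (.p (nat_lit 323) (nat_lit 1) (.p (nat_lit 324) (nat_lit 1) (.n (nat_lit 325) (nat_lit 1) (.n (nat_lit 326) (nat_lit 1) (.n (nat_lit 327) (nat_lit 2) (.n (nat_lit 328) (nat_lit 1) (.n (nat_lit 332) (nat_lit 1) (.p (nat_lit 333) (nat_lit 1) (.n (nat_lit 339) (nat_lit 1) (.p (nat_lit 342) (nat_lit 1) (.n (nat_lit 345)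 (nat_lit 1) (.n (nat_lit 350) (nat_lit 1) (.p (nat_lit 352) (nat_lit 1) (.p (nat_lit 355) (nat_lit 1) (.p (nat_lit 356) (nat_lit 1) (.n (nat_lit 358) (nat_lit 1) (.n (nat_lit 360) (nat_lit 1) (.n (nat_lit 361) (nat_lit 1) .z)))))))))))))))))))) (.ct dF4_c1118225 (nat_lit 1) (nat_lit 2) (.s false (nat_lit 1) (nat_lit 13) (nat_lit 5) (nat_lit 2) (nat_lit 0) true (nat_lit 3) true (nat_lit 14) true (nat_lit 5) true (nat_lit 10) true (nat_lit 12) (.s false (nat_lit 1) (nat_lit 14) (nat_lit 5) (nat_lit 0) (nat_lit 1) true (nat_lit 2) true (nat_lit 13) true (nat_lit 4) true (nat_lit 10) true (nat_lit 14) (.s false (nat_lit 1) (nat_lit 16) (nat_lit 4) (nat_lit 1) (nat_lit 2) true (nat_lit 4) true (nat_lit 12) true (nat_lit 3) true (nat_lit 11) true (nat_lit 13) (.s true (nat_lit 1) (nat_lit 18) (nat_lit 1) (nat_lit 0) (nat_lit 4) true (nat_lit 5) true (nat_lit 11) true (nat_lit 1) true (nat_lit 13)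 true (nat_lit 14) (.e true (nat_lit 1) (nat_lit 91) (nat_lit 5) (nat_lit 10) (.e false (nat_lit 1) (nat_lit 95) (nat_lit 5) (nat_lit 10) (.e true (nat_lit 1) (nat_lit 99) (nat_lit 5) (nat_lit 10) (.e true (nat_lit 2) (nat_lit 100) (nat_lit 5) (nat_lit 10) (.e true (nat_lit 1) (nat_lit 173) (nat_lit 2) (nat_lit 12) (.e false (nat_lit 1) (nat_lit 92) (nat_lit 5) (nat_lit 10) (.e false (nat_lit 1) (nat_lit 96) (nat_lit 5) (nat_lit 10) (.e true (nat_lit 1) (nat_lit 98) (nat_lit 5) (nat_lit 10) (.e false (nat_lit 1) (nat_lit 178) (nat_lit 2) (nat_lit 12) (.e true (nat_lit 1) (nat_lit 136) (nat_lit 4) (nat_lit 11) (.e false (nat_lit 1) (nat_lit 137) (nat_lit 4) (nat_lit 11) (.e true (nat_lit 1) (nat_lit 131) (nat_lit 4) (nat_lit 11) (.e true (nat_lit 1) (nat_lit 33) (nat_lit 18) (nat_lit 1) (.e true (nat_lit 1) (nat_lit 181) (nat_lit 1) (nat_lit 13) (.e true (nat_lit 1) (nat_lit 189) (nat_lit 1)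 (nat_lit 13) (.e false (nat_lit 1) (nat_lit 192) (nat_lit 0) (nat_lit 14) (.e false (nat_lit 1) (nat_lit 195) (nat_lit 0) (nat_lit 14) (.e false (nat_lit 1) (nat_lit 196) (nat_lit 0) (nat_lit 14) (.e true (nat_lit 1) (nat_lit 198) (nat_lit 0) (nat_lit 14) (.e true (nat_lit 1) (nat_lit 200) (nat_lit 0) (nat_lit 14) .nil))))))))))))))))))))))))) (.nd (.nd (.nd .leaf (nat_lit 38931) (nat_lit 673) (.p (nat_lit 407) (nat_lit 1) (.n (nat_lit 409) (nat_lit 1) (.n (nat_lit 411) (nat_lit 2) (.p (nat_lit 414) (nat_lit 1) (.p (nat_lit 415) (nat_lit 1) (.n (nat_lit 419) (nat_lit 1) (.p (nat_lit 423) (nat_lit 1) (.p (nat_lit 424) (nat_lit 1) (.p (nat_lit 425) (nat_lit 1) (.n (nat_lit 428) (nat_lit 1) (.p (nat_lit 430) (nat_lit 1) (.p (nat_lit 431) (nat_lit 1) (.p (nat_lit 432) (nat_lit 2) (.p (nat_lit 436) (nat_lit 1) (.n (nat_lit 438) (nat_lit 1) (.p (nat_lit 439) (nat_lit 1) (.n (nat_lit 443) (nat_lit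 1) (.p (nat_lit 444) (nat_lit 1) (.n (nat_lit 446) (nat_lit 1) (.p (nat_lit 447) (nat_lit 1) (.n (nat_lit 449) (nat_lit 1) .z))))))))))))))))))))) (.ct dF4_c1052945 (nat_lit 1) (nat_lit 1) (.s true (nat_lit 1) (nat_lit 7) (nat_lit 3) (nat_lit 5) (nat_lit 4) true (nat_lit 4) true (nat_lit 11) true (nat_lit 9) true (nat_lit 12) true (nat_lit 10) (.s false (nat_lit 1) (nat_lit 19) (nat_lit 2) (nat_lit 4) (nat_lit 0) true (nat_lit 9) true (nat_lit 14) true (nat_lit 1) true (nat_lit 13) true (nat_lit 11) (.e true (nat_lit 1) (nat_lit 54) (nat_lit 15) (nat_lit 4) (.e true (nat_lit 1) (nat_lit 151) (nat_lit 4) (nat_lit 11) (.e true (nat_lit 1) (nat_lit 182) (nat_lit 3) (nat_lit 12) (.e true (nat_lit 1) (nat_lit 186) (nat_lit 3) (nat_lit 12) (.e false (nat_lit 1) (nat_lit 188) (nat_lit 3) (nat_lit 12) (.e false (nat_lit 1) (nat_lit 190) (nat_lit 3) (nat_lit 12) (.e false (nat_lit 1) (nat_lit 114) (nat_lit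 5) (nat_lit 10) (.e false (nat_lit 1) (nat_lit 226) (nat_lit 0) (nat_lit 14) (.e true (nat_lit 1) (nat_lit 201) (nat_lit 2) (nat_lit 13) (.e false (nat_lit 1) (nat_lit 205) (nat_lit 2) (nat_lit 13) (.e true (nat_lit 1) (nat_lit 209) (nat_lit 2) (nat_lit 13) (.e true (nat_lit 1) (nat_lit 210) (nat_lit 2) (nat_lit 13) (.e true (nat_lit 1) (nat_lit 159) (nat_lit 4) (nat_lit 11) .nil)))))))))))))))) .leaf) (nat_lit 39936) (nat_lit 99) (.p (nat_lit 100) (nat_lit 1) .z) .df .leaf) (nat_lit 39939) (nat_lit 138) (.p (nat_lit 124) (nat_lit 1) .z) .df (.nd (.nd .leaf (nat_lit 39941) (nat_lit 240) (.p (nat_lit 191) (nat_lit 1) .z) .df .leaf) (nat_lit 39945) (nat_lit 345) (.p (nat_lit 232) (nat_lit 1) (.p (nat_lit 235) (nat_lit 1) (.p (nat_lit 236) (nat_lit 1) (.n (nat_lit 237) (nat_lit 1) (.n (nat_lit 238) (nat_lit 1) (.n (nat_lit 239) (nat_lit 1) (.n (nat_lit 240) (nat_lit 1) (.p (nat_lit 243) (nat_lit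 1) (.n (nat_lit 247) (nat_lit 1) (.n (nat_lit 248) (nat_lit 1) (.n (nat_lit 250) (nat_lit 1) (.n (nat_lit 251) (nat_lit 1) (.n (nat_lit 252) (nat_lit 1) (.n (nat_lit 253) (nat_lit 1) (.p (nat_lit 254) (nat_lit 1) (.p (nat_lit 256) (nat_lit 1) (.n (nat_lit 257) (nat_lit 1) (.p (nat_lit 259) (nat_lit 1) (.p (nat_lit 261) (nat_lit 1) (.n (nat_lit 262) (nat_lit 1) (.n (nat_lit 265) (nat_lit 1) (.n (nat_lit 266) (nat_lit 1) (.n (nat_lit 268) (nat_lit 1) (.p (nat_lit 269) (nat_lit 1) (.p (nat_lit 270) (nat_lit 1) (.p (nat_lit 271) (nat_lit 1) (.p (nat_lit 274) (nat_lit 1) .z))))))))))))))))))))))))))) (.ct dF4_c1118480 (nat_lit 1) (nat_lit 6) (.s true (nat_lit 1) (nat_lit 8) (nat_lit 0) (nat_lit 4) (nat_lit 3) true (nat_lit 6) true (nat_lit 11) true (nat_lit 7) true (nat_lit 14) true (nat_lit 10) (.s true (nat_lit 1) (nat_lit 10) (nat_lit 0) (nat_lit 2) (nat_lit 4) true (nat_lit 3) true (nat_lit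 10) true (nat_lit 5) true (nat_lit 14) true (nat_lit 12) dF4_i1))) .leaf))) (nat_lit 39952) (nat_lit 515) (.p (nat_lit 320) (nat_lit 1) (.n (nat_lit 321) (nat_lit 2) (.n (nat_lit 322) (nat_lit 1) (.n (nat_lit 323) (nat_lit 1) (.p (nat_lit 324) (nat_lit 1) (.n (nat_lit 327) (nat_lit 1) (.n (nat_lit 328) (nat_lit 1) (.n (nat_lit 332) (nat_lit 1) (.p (nat_lit 333) (nat_lit 1) (.p (nat_lit 335) (nat_lit 1) (.p (nat_lit 336) (nat_lit 1) (.p (nat_lit 337) (nat_lit 1) (.n (nat_lit 339) (nat_lit 1) (.n (nat_lit 340) (nat_lit 1) (.p (nat_lit 342) (nat_lit 1) (.p (nat_lit 343) (nat_lit 1) (.p (nat_lit 344) (nat_lit 1) (.n (nat_lit 345) (nat_lit 1) (.p (nat_lit 348) (nat_lit 1) (.n (nat_lit 350) (nat_lit 2) (.p (nat_lit 351) (nat_lit 1) (.p (nat_lit 352) (nat_lit 2) (.p (nat_lit 356) (nat_lit 2) (.n (nat_lit 358) (nat_lit 2) (.p (nat_lit 359) (nat_lit 1) (.n (nat_lit 360) (nat_lit 2) (.n (nat_lit 361)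 (nat_lit 2) (.p (nat_lit 362) (nat_lit 1) .z)))))))))))))))))))))))))))) (.ct dF4_c1118225 (nat_lit 1) (nat_lit 3) (.s true (nat_lit 1) (nat_lit 8) (nat_lit 0) (nat_lit 4) (nat_lit 5) true (nat_lit 3) true (nat_lit 10) true (nat_lit 7) true (nat_lit 14) true (nat_lit 11) (.s true (nat_lit 1) (nat_lit 12) (nat_lit 1) (nat_lit 5) (nat_lit 2) true (nat_lit 7) true (nat_lit 12) true (nat_lit 6) true (nat_lit 13) true (nat_lit 10) (.s false (nat_lit 1) (nat_lit 17) (nat_lit 4) (nat_lit 2) (nat_lit 0) true (nat_lit 6) true (nat_lit 14) true (nat_lit 2) true (nat_lit 11) true (nat_lit 12) (.e true (nat_lit 1) (nat_lit 93) (nat_lit 5) (nat_lit 10) (.e false (nat_lit 1) (nat_lit 192) (nat_lit 0) (nat_lit 14) (.e false (nat_lit 1) (nat_lit 196) (nat_lit 0) (nat_lit 14) (.e true (nat_lit 1) (nat_lit 200) (nat_lit 0) (nat_lit 14) (.e true (nat_lit 1) (nat_lit 172) (nat_lit 2) (nat_lit 12) (.e true (nat_lit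 1) (nat_lit 181) (nat_lit 1) (nat_lit 13) (.e false (nat_lit 1) (nat_lit 185) (nat_lit 1) (nat_lit 13) (.e true (nat_lit 1) (nat_lit 189) (nat_lit 1) (nat_lit 13) (.e true (nat_lit 1) (nat_lit 190) (nat_lit 1) (nat_lit 13) (.e false (nat_lit 1) (nat_lit 98) (nat_lit 5) (nat_lit 10) (.e false (nat_lit 1) (nat_lit 38) (nat_lit 17) (nat_lit 2) (.e true (nat_lit 1) (nat_lit 131) (nat_lit 4) (nat_lit 11) (.e false (nat_lit 1) (nat_lit 135) (nat_lit 4) (nat_lit 11) (.e true (nat_lit 1) (nat_lit 139) (nat_lit 4) (nat_lit 11) (.e true (nat_lit 1) (nat_lit 176) (nat_lit 2) (nat_lit 12) .nil))))))))))))))))))) (.nd (.nd (.nd (.nd .leaf (nat_lit 39955) (nat_lit 736) (.p (nat_lit 493) (nat_lit 1) .z) .df .leaf) (nat_lit 40960) (nat_lit 100) (.p (nat_lit 92) (nat_lit 1) (.p (nat_lit 93) (nat_lit 1) (.p (nat_lit 95) (nat_lit 1) (.p (nat_lit 96) (nat_lit 1) (.n (nat_lit 97) (nat_lit 1) (.n (nat_lit 98) (nat_lit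 1) (.n (nat_lit 100) (nat_lit 1) .z))))))) (.ct dF4_c1118224 (nat_lit 1) (nat_lit 6) (.s true (nat_lit 1) (nat_lit 4) (nat_lit 0) (nat_lit 2) (nat_lit 1) true (nat_lit 2) true (nat_lit 5) true (nat_lit 3) true (nat_lit 6) true (nat_lit 4) (.s true (nat_lit 1) (nat_lit 4) (nat_lit 1) (nat_lit 2) (nat_lit 0) true (nat_lit 2) true (nat_lit 6) true (nat_lit 3) true (nat_lit 5) true (nat_lit 4) (.e true (nat_lit 1) (nat_lit 37) (nat_lit 1) (nat_lit 5) (.e false (nat_lit 1) (nat_lit 22) (nat_lit 4) (nat_lit 3) (.e true (nat_lit 1) (nat_lit 39) (nat_lit 0) (nat_lit 6) (.e false (nat_lit 1) (nat_lit 35) (nat_lit 2) (nat_lit 4) (.e false (nat_lit 1) (nat_lit 23) (nat_lit 4) (nat_lit 3) (.e true (nat_lit 1) (nat_lit 36) (nat_lit 1) (nat_lit 5) (.e false (nat_lit 1) (nat_lit 34) (nat_lit 2) (nat_lit 4) .nil)))))))))) .leaf) (nat_lit 40963) (nat_lit 139) (.p (nat_lit 125) (nat_lit 1) .z) .df (.nd (.nd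 .leaf (nat_lit 40965) (nat_lit 241) (.p (nat_lit 192) (nat_lit 1) .z) .df .leaf) (nat_lit 40969) (nat_lit 371) (.n (nat_lit 231) (nat_lit 1) (.p (nat_lit 232) (nat_lit 1) (.p (nat_lit 235) (nat_lit 1) (.p (nat_lit 236) (nat_lit 1) (.n (nat_lit 237) (nat_lit 1) (.n (nat_lit 238) (nat_lit 1) (.n (nat_lit 239) (nat_lit 2) (.n (nat_lit 240) (nat_lit 2) (.p (nat_lit 243) (nat_lit 1) (.n (nat_lit 244) (nat_lit 1) (.p (nat_lit 245) (nat_lit 1) (.n (nat_lit 247) (nat_lit 1) (.n (nat_lit 248) (nat_lit 1) (.n (nat_lit 251) (nat_lit 1) (.n (nat_lit 253) (nat_lit 1) (.p (nat_lit 254) (nat_lit 1) (.n (nat_lit 257) (nat_lit 1) (.n (nat_lit 262) (nat_lit 1) (.p (nat_lit 264) (nat_lit 1) (.p (nat_lit 267) (nat_lit 1) (.p (nat_lit 268) (nat_lit 1) (.n (nat_lit 272) (nat_lit 1) (.n (nat_lit 273) (nat_lit 1) .z))))))))))))))))))))))) (.ct dF4_c1118480 (nat_lit 1) (nat_lit 6) (.s false (nat_lit 1) (nat_lit 13)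 (nat_lit 3) (nat_lit 2) (nat_lit 0) true (nat_lit 6) true (nat_lit 14) true (nat_lit 2) true (nat_lit 11) true (nat_lit 12) (.e false (nat_lit 1) (nat_lit 128) (nat_lit 0) (nat_lit 14) (.e false (nat_lit 1) (nat_lit 29) (nat_lit 13) (nat_lit 2) (.e true (nat_lit 1) (nat_lit 91) (nat_lit 3) (nat_lit 11) (.e false (nat_lit 1) (nat_lit 95) (nat_lit 3) (nat_lit 11) (.e true (nat_lit 1) (nat_lit 99) (nat_lit 3) (nat_lit 11) (.e true (nat_lit 1) (nat_lit 100) (nat_lit 3) (nat_lit 11) (.e true (nat_lit 1) (nat_lit 106) (nat_lit 2) (nat_lit 12) .nil))))))))) .leaf)) (nat_lit 40976) (nat_lit 521) (.p (nat_lit 321) (nat_lit 1) (.p (nat_lit 322) (nat_lit 1) (.p (nat_lit 323) (nat_lit 1) (.n (nat_lit 325) (nat_lit 1) (.n (nat_lit 326) (nat_lit 1) (.n (nat_lit 327) (nat_lit 1) (.p (nat_lit 330) (nat_lit 1) (.p (nat_lit 331) (nat_lit 1) (.p (nat_lit 332) (nat_lit 1) (.n (nat_lit 333) (nat_lit 1) (.n (nat_lit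 334) (nat_lit 1) (.n (nat_lit 335) (nat_lit 1) (.n (nat_lit 336) (nat_lit 1) (.n (nat_lit 338) (nat_lit 1) (.n (nat_lit 341) (nat_lit 1) (.p (nat_lit 344) (nat_lit 1) (.p (nat_lit 347) (nat_lit 1) (.p (nat_lit 349) (nat_lit 1) (.n (nat_lit 353) (nat_lit 1) (.n (nat_lit 354) (nat_lit 1) (.n (nat_lit 355) (nat_lit 1) (.n (nat_lit 356) (nat_lit 1) (.p (nat_lit 357) (nat_lit 1) (.p (nat_lit 358) (nat_lit 1) (.p (nat_lit 359) (nat_lit 1) (.p (nat_lit 360) (nat_lit 1) (.p (nat_lit 361) (nat_lit 1) .z))))))))))))))))))))))))))) (.ct dF4_c1118225 (nat_lit 1) (nat_lit 3) (.s true (nat_lit 1) (nat_lit 13) (nat_lit 0) (nat_lit 2) (nat_lit 5) true (nat_lit 3) true (nat_lit 10) true (nat_lit 5) true (nat_lit 14) true (nat_lit 12) (.e true (nat_lit 1) (nat_lit 96) (nat_lit 5) (nat_lit 10) (.e false (nat_lit 1) (nat_lit 54) (nat_lit 13) (nat_lit 5) (.e false (nat_lit 1) (nat_lit 191) (nat_lit 0) (nat_lit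 14) (.e true (nat_lit 1) (nat_lit 195) (nat_lit 0) (nat_lit 14) (.e false (nat_lit 1) (nat_lit 199) (nat_lit 0) (nat_lit 14) (.e false (nat_lit 1) (nat_lit 200) (nat_lit 0) (nat_lit 14) (.e false (nat_lit 1) (nat_lit 180) (nat_lit 2) (nat_lit 12) .nil))))))))) (.nd (.nd (.nd .leaf (nat_lit 41984) (nat_lit 101) (.p (nat_lit 91) (nat_lit 1) (.n (nat_lit 93) (nat_lit 1) (.n (nat_lit 94) (nat_lit 1) (.n (nat_lit 95) (nat_lit 1) (.p (nat_lit 98) (nat_lit 1) (.p (nat_lit 99) (nat_lit 1) (.p (nat_lit 100) (nat_lit 1) .z))))))) (.ct dF4_c1118224 (nat_lit 1) (nat_lit 6) (.s false (nat_lit 1) (nat_lit 4) (nat_lit 1) (nat_lit 0) (nat_lit 2) true (nat_lit 0) true (nat_lit 4) true (nat_lit 3) true (nat_lit 5) true (nat_lit 6) (.s false (nat_lit 1) (nat_lit 4) (nat_lit 2) (nat_lit 0) (nat_lit 1) true (nat_lit 0) true (nat_lit 5) true (nat_lit 3) true (nat_lit 4) true (nat_lit 6) (.e false (nat_lit 1) (nat_lit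 35) (nat_lit 2) (nat_lit 4) (.e false (nat_lit 1) (nat_lit 21) (nat_lit 4) (nat_lit 3) (.e true (nat_lit 1) (nat_lit 36) (nat_lit 1) (nat_lit 5) (.e false (nat_lit 1) (nat_lit 38) (nat_lit 1) (nat_lit 5) (.e false (nat_lit 1) (nat_lit 22) (nat_lit 4) (nat_lit 3) (.e true (nat_lit 1) (nat_lit 33) (nat_lit 2) (nat_lit 4) (.e true (nat_lit 1) (nat_lit 40) (nat_lit 0) (nat_lit 6) .nil)))))))))) .leaf) (nat_lit 41987) (nat_lit 140) (.p (nat_lit 126) (nat_lit 1) .z) .df .leaf) (nat_lit 41989) (nat_lit 242) (.p (nat_lit 193) (nat_lit 1) .z) .df (.nd (.nd .leaf (nat_lit 41993) (nat_lit 362) (.n (nat_lit 232) (nat_lit 1) (.p (nat_lit 233) (nat_lit 1) (.p (nat_lit 234) (nat_lit 1) (.n (nat_lit 236) (nat_lit 1) (.p (nat_lit 239) (nat_lit 1) (.p (nat_lit 240) (nat_lit 1) (.p (nat_lit 244) (nat_lit 1) (.n (nat_lit 245) (nat_lit 1) (.n (nat_lit 247) (nat_lit 1) (.p (nat_lit 251) (nat_lit 1) (.n (nat_lit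 254) (nat_lit 1) (.p (nat_lit 257) (nat_lit 1) (.p (nat_lit 258) (nat_lit 1) (.n (nat_lit 260) (nat_lit 1) (.p (nat_lit 262) (nat_lit 2) (.n (nat_lit 263) (nat_lit 1) (.n (nat_lit 264) (nat_lit 1) (.n (nat_lit 268) (nat_lit 1) (.p (nat_lit 270) (nat_lit 1) (.n (nat_lit 271) (nat_lit 1) (.p (nat_lit 272) (nat_lit 1) (.p (nat_lit 273) (nat_lit 2) (.n (nat_lit 274) (nat_lit 1) .z))))))))))))))))))))))) (.ct dF4_c1118480 (nat_lit 1) (nat_lit 6) (.s true (nat_lit 1) (nat_lit 14) (nat_lit 0) (nat_lit 1) (nat_lit 3) true (nat_lit 6) true (nat_lit 11) true (nat_lit 1) true (nat_lit 14) true (nat_lit 13) (.e true (nat_lit 1) (nat_lit 99) (nat_lit 3) (nat_lit 11) (.e false (nat_lit 1) (nat_lit 24) (nat_lit 14) (nat_lit 1) (.e true (nat_lit 1) (nat_lit 121) (nat_lit 0) (nat_lit 14) (.e false (nat_lit 1) (nat_lit 125) (nat_lit 0) (nat_lit 14) (.e true (nat_lit 1) (nat_lit 129) (nat_lit 0) (nat_lit 14)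 (.e true (nat_lit 1) (nat_lit 130) (nat_lit 0) (nat_lit 14) (.e false (nat_lit 1) (nat_lit 112) (nat_lit 1) (nat_lit 13) (.e false (nat_lit 1) (nat_lit 113) (nat_lit 1) (nat_lit 13) (.e false (nat_lit 1) (nat_lit 115) (nat_lit 1) (nat_lit 13) (.e false (nat_lit 1) (nat_lit 116) (nat_lit 1) (nat_lit 13) (.e true (nat_lit 1) (nat_lit 117) (nat_lit 1) (nat_lit 13) (.e true (nat_lit 1) (nat_lit 118) (nat_lit 1) (nat_lit 13) (.e true (nat_lit 1) (nat_lit 120) (nat_lit 1) (nat_lit 13) .nil))))))))))))))) .leaf) (nat_lit 42000) (nat_lit 517) (.n (nat_lit 319) (nat_lit 1) (.p (nat_lit 321) (nat_lit 1) (.p (nat_lit 322) (nat_lit 1) (.p (nat_lit 323) (nat_lit 2) (.n (nat_lit 326) (nat_lit 2) (.n (nat_lit 327) (nat_lit 1) (.n (nat_lit 328) (nat_lit 1) (.p (nat_lit 331) (nat_lit 1) (.n (nat_lit 335) (nat_lit 2) (.n (nat_lit 336) (nat_lit 1) (.n (nat_lit 337) (nat_lit 1) (.n (nat_lit 338) (nat_lit 1) (.p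 (nat_lit 340) (nat_lit 1) (.n (nat_lit 341) (nat_lit 1) (.n (nat_lit 343) (nat_lit 1) (.n (nat_lit 344) (nat_lit 1) (.n (nat_lit 345) (nat_lit 1) (.n (nat_lit 348) (nat_lit 1) (.p (nat_lit 349) (nat_lit 1) (.n (nat_lit 351) (nat_lit 1) (.n (nat_lit 353) (nat_lit 1) (.n (nat_lit 354) (nat_lit 1) (.n (nat_lit 356) (nat_lit 1) (.p (nat_lit 357) (nat_lit 1) (.p (nat_lit 358) (nat_lit 2) (.p (nat_lit 360) (nat_lit 1) (.p (nat_lit 361) (nat_lit 1) .z))))))))))))))))))))))))))) (.ct dF4_c1118225 (nat_lit 1) (nat_lit 3) (.s true (nat_lit 1) (nat_lit 14) (nat_lit 0) (nat_lit 1) (nat_lit 5) true (nat_lit 3) true (nat_lit 10) true (nat_lit 4) true (nat_lit 14) true (nat_lit 13) (.e true (nat_lit 1) (nat_lit 99) (nat_lit 5) (nat_lit 10) (.e false (nat_lit 1) (nat_lit 51) (nat_lit 14) (nat_lit 4) (.e true (nat_lit 1) (nat_lit 193) (nat_lit 0) (nat_lit 14) (.e true (nat_lit 1) (nat_lit 194) (nat_lit 0) (nat_lit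 14) (.e true (nat_lit 1) (nat_lit 195) (nat_lit 0) (nat_lit 14) (.e true (nat_lit 1) (nat_lit 196) (nat_lit 0) (nat_lit 14) (.e false (nat_lit 1) (nat_lit 197) (nat_lit 0) (nat_lit 14) (.e false (nat_lit 1) (nat_lit 198) (nat_lit 0) (nat_lit 14) (.e false (nat_lit 1) (nat_lit 199) (nat_lit 0) (nat_lit 14) (.e false (nat_lit 1) (nat_lit 200) (nat_lit 0) (nat_lit 14) (.e false (nat_lit 1) (nat_lit 190) (nat_lit 1) (nat_lit 13) .nil))))))))))))) .leaf))))) (nat_lit 42003) (nat_lit 751) (.p (nat_lit 451) (nat_lit 1) (.n (nat_lit 453) (nat_lit 1) (.n (nat_lit 455) (nat_lit 2) (.p (nat_lit 458) (nat_lit 1) (.p (nat_lit 459) (nat_lit 1) (.n (nat_lit 463) (nat_lit 1) (.p (nat_lit 467) (nat_lit 1) (.p (nat_lit 468) (nat_lit 1) (.p (nat_lit 469) (nat_lit 1) (.n (nat_lit 472) (nat_lit 1) (.p (nat_lit 474) (nat_lit 1) (.p (nat_lit 475) (nat_lit 1) (.p (nat_lit 476) (nat_lit 2) (.p (nat_lit 480) (nat_lit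 1) (.n (nat_lit 482) (nat_lit 1) (.p (nat_lit 483) (nat_lit 1) (.n (nat_lit 487) (nat_lit 1) (.p (nat_lit 488) (nat_lit 1) (.n (nat_lit 490) (nat_lit 1) (.p (nat_lit 491) (nat_lit 1) (.n (nat_lit 493) (nat_lit 1) .z))))))))))))))))))))) (.ct dF4_c69905 (nat_lit 1) (nat_lit 1) (.s true (nat_lit 1) (nat_lit 8) (nat_lit 3) (nat_lit 5) (nat_lit 4) true (nat_lit 4) true (nat_lit 11) true (nat_lit 9) true (nat_lit 12) true (nat_lit 10) (.s false (nat_lit 1) (nat_lit 19) (nat_lit 2) (nat_lit 4) (nat_lit 1) true (nat_lit 9) true (nat_lit 14) true (nat_lit 1) true (nat_lit 13) true (nat_lit 11) (.e true (nat_lit 1) (nat_lit 57) (nat_lit 15) (nat_lit 4) (.e true (nat_lit 1) (nat_lit 161) (nat_lit 4) (nat_lit 11) (.e true (nat_lit 1) (nat_lit 192) (nat_lit 3) (nat_lit 12) (.e true (nat_lit 1) (nat_lit 196) (nat_lit 3) (nat_lit 12) (.e false (nat_lit 1) (nat_lit 198) (nat_lit 3) (nat_lit 12) (.e false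 (nat_lit 1) (nat_lit 200) (nat_lit 3) (nat_lit 12) (.e false (nat_lit 1) (nat_lit 124) (nat_lit 5) (nat_lit 10) (.e false (nat_lit 1) (nat_lit 226) (nat_lit 1) (nat_lit 14) (.e true (nat_lit 1) (nat_lit 211) (nat_lit 2) (nat_lit 13) (.e false (nat_lit 1) (nat_lit 215) (nat_lit 2) (nat_lit 13) (.e true (nat_lit 1) (nat_lit 219) (nat_lit 2) (nat_lit 13) (.e true (nat_lit 1) (nat_lit 220) (nat_lit 2) (nat_lit 13) (.e true (nat_lit 1) (nat_lit 169) (nat_lit 4) (nat_lit 11) .nil)))))))))))))))) (.nd (.nd (.nd (.nd (.nd (.nd .leaf (nat_lit 43009) (nat_lit 111) (.p (nat_lit 107) (nat_lit 1) .z) .df .leaf) (nat_lit 43010) (nat_lit 126) (.p (nat_lit 117) (nat_lit 1) .z) .df .leaf) (nat_lit 43013) (nat_lit 255) (.p (nat_lit 201) (nat_lit 1) .z) .df (.nd (.nd .leaf (nat_lit 43016) (nat_lit 372) (.p (nat_lit 232) (nat_lit 1) (.n (nat_lit 233) (nat_lit 1) (.n (nat_lit 234) (nat_lit 1) (.n (nat_lit 235)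 (nat_lit 1) (.p (nat_lit 236) (nat_lit 1) (.n (nat_lit 239) (nat_lit 1) (.n (nat_lit 240) (nat_lit 1) (.n (nat_lit 244) (nat_lit 1) (.p (nat_lit 245) (nat_lit 1) (.p (nat_lit 247) (nat_lit 1) (.p (nat_lit 249) (nat_lit 1) (.n (nat_lit 251) (nat_lit 1) (.n (nat_lit 252) (nat_lit 1) (.p (nat_lit 254) (nat_lit 1) (.p (nat_lit 255) (nat_lit 1) (.p (nat_lit 256) (nat_lit 1) (.n (nat_lit 257) (nat_lit 1) (.p (nat_lit 260) (nat_lit 1) (.n (nat_lit 262) (nat_lit 2) (.p (nat_lit 263) (nat_lit 1) (.p (nat_lit 264) (nat_lit 1) (.p (nat_lit 268) (nat_lit 1) (.n (nat_lit 270) (nat_lit 1) (.p (nat_lit 271) (nat_lit 1) (.n (nat_lit 272) (nat_lit 1) (.n (nat_lit 273) (nat_lit 2) (.p (nat_lit 274) (nat_lit 1) .z))))))))))))))))))))))))))) (.ct dF4_c1118480 (nat_lit 1) (nat_lit 7) (.s false (nat_lit 1) (nat_lit 8) (nat_lit 0) (nat_lit 3) (nat_lit 4) true (nat_lit 3) true (nat_lit 10) true (nat_lit 7) true (nat_lit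 14) true (nat_lit 11) (.e false (nat_lit 1) (nat_lit 30) (nat_lit 12) (nat_lit 3) (.e false (nat_lit 1) (nat_lit 83) (nat_lit 4) (nat_lit 10) (.e true (nat_lit 1) (nat_lit 122) (nat_lit 0) (nat_lit 14) (.e true (nat_lit 1) (nat_lit 126) (nat_lit 0) (nat_lit 14) (.e false (nat_lit 1) (nat_lit 128) (nat_lit 0) (nat_lit 14) (.e false (nat_lit 1) (nat_lit 130) (nat_lit 0) (nat_lit 14) (.e true (nat_lit 1) (nat_lit 100) (nat_lit 3) (nat_lit 11) .nil))))))))) .leaf) (nat_lit 43025) (nat_lit 593) (.p (nat_lit 363) (nat_lit 1) (.n (nat_lit 364) (nat_lit 1) (.n (nat_lit 365) (nat_lit 1) (.n (nat_lit 366) (nat_lit 1) (.n (nat_lit 367) (nat_lit 2) (.n (nat_lit 368) (nat_lit 1) (.p (nat_lit 369) (nat_lit 1) (.p (nat_lit 370) (nat_lit 2) (.p (nat_lit 371) (nat_lit 2) (.p (nat_lit 372) (nat_lit 1) (.n (nat_lit 373) (nat_lit 1) (.n (nat_lit 374) (nat_lit 1) (.n (nat_lit 375) (nat_lit 2) (.n (nat_lit 376)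 (nat_lit 1) (.p (nat_lit 377) (nat_lit 1) (.p (nat_lit 378) (nat_lit 1) (.p (nat_lit 379) (nat_lit 2) (.p (nat_lit 380) (nat_lit 2) (.p (nat_lit 382) (nat_lit 1) (.p (nat_lit 385) (nat_lit 1) (.p (nat_lit 389) (nat_lit 1) (.n (nat_lit 391) (nat_lit 1) (.p (nat_lit 392) (nat_lit 1) (.n (nat_lit 393) (nat_lit 1) (.p (nat_lit 395) (nat_lit 1) (.p (nat_lit 397) (nat_lit 1) (.p (nat_lit 398) (nat_lit 1) (.p (nat_lit 400) (nat_lit 1) (.n (nat_lit 401) (nat_lit 1) (.n (nat_lit 402) (nat_lit 1) (.n (nat_lit 405) (nat_lit 1) .z))))))))))))))))))))))))))))))) (.ct dF4_c1114385 (nat_lit 1) (nat_lit 2) (.s false (nat_lit 1) (nat_lit 9) (nat_lit 4) (nat_lit 5) (nat_lit 1) true (nat_lit 5) true (nat_lit 13) true (nat_lit 8) true (nat_lit 11) true (nat_lit 10) (.s false (nat_lit 1) (nat_lit 9) (nat_lit 5) (nat_lit 4) (nat_lit 1) true (nat_lit 2) true (nat_lit 13) true (nat_lit 8) true (nat_lit 10) true (nat_lit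 11) (.e true (nat_lit 1) (nat_lit 60) (nat_lit 13) (nat_lit 5) (.e false (nat_lit 1) (nat_lit 201) (nat_lit 1) (nat_lit 13) (.e false (nat_lit 1) (nat_lit 141) (nat_lit 4) (nat_lit 11) (.e true (nat_lit 1) (nat_lit 145) (nat_lit 4) (nat_lit 11) (.e false (nat_lit 1) (nat_lit 149) (nat_lit 4) (nat_lit 11) (.e false (nat_lit 1) (nat_lit 150) (nat_lit 4) (nat_lit 11) (.e true (nat_lit 1) (nat_lit 102) (nat_lit 5) (nat_lit 10) (.e false (nat_lit 1) (nat_lit 204) (nat_lit 1) (nat_lit 13) (.e false (nat_lit 1) (nat_lit 101) (nat_lit 5) (nat_lit 10) (.e true (nat_lit 1) (nat_lit 105) (nat_lit 5) (nat_lit 10) (.e false (nat_lit 1) (nat_lit 109) (nat_lit 5) (nat_lit 10) (.e false (nat_lit 1) (nat_lit 110) (nat_lit 5) (nat_lit 10) (.e true (nat_lit 1) (nat_lit 142) (nat_lit 4) (nat_lit 11) .nil)))))))))))))))) .leaf)) (nat_lit 43026) (nat_lit 671) (.p (nat_lit 407) (nat_lit 1) (.n (nat_lit 408) (nat_lit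 1) (.n (nat_lit 409) (nat_lit 1) (.n (nat_lit 410) (nat_lit 1) (.n (nat_lit 411) (nat_lit 2) (.n (nat_lit 412) (nat_lit 1) (.p (nat_lit 413) (nat_lit 1) (.p (nat_lit 414) (nat_lit 2) (.p (nat_lit 415) (nat_lit 2) (.p (nat_lit 416) (nat_lit 1) (.n (nat_lit 417) (nat_lit 1) (.n (nat_lit 418) (nat_lit 1) (.n (nat_lit 419) (nat_lit 2) (.n (nat_lit 420) (nat_lit 1) (.p (nat_lit 421) (nat_lit 1) (.p (nat_lit 422) (nat_lit 1) (.p (nat_lit 423) (nat_lit 2) (.p (nat_lit 424) (nat_lit 2) (.p (nat_lit 426) (nat_lit 1) (.p (nat_lit 429) (nat_lit 1) (.p (nat_lit 433) (nat_lit 1) (.n (nat_lit 435) (nat_lit 1) (.p (nat_lit 436) (nat_lit 1) (.n (nat_lit 437) (nat_lit 1) (.p (nat_lit 439) (nat_lit 1) (.p (nat_lit 441) (nat_lit 1) (.p (nat_lit 442) (nat_lit 1) (.p (nat_lit 444) (nat_lit 1) (.n (nat_lit 445) (nat_lit 1) (.n (nat_lit 446) (nat_lit 1) (.n (nat_lit 449) (nat_lit 1) .z)))))))))))))))))))))))))))))))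 (.ct dF4_c1052945 (nat_lit 1) (nat_lit 2) (.s false (nat_lit 1) (nat_lit 9) (nat_lit 4) (nat_lit 5) (nat_lit 2) true (nat_lit 5) true (nat_lit 13) true (nat_lit 8) true (nat_lit 11) true (nat_lit 10) (.s false (nat_lit 1) (nat_lit 9) (nat_lit 5) (nat_lit 4) (nat_lit 2) true (nat_lit 2) true (nat_lit 13) true (nat_lit 8) true (nat_lit 10) true (nat_lit 11) (.e true (nat_lit 1) (nat_lit 60) (nat_lit 14) (nat_lit 5) (.e false (nat_lit 1) (nat_lit 201) (nat_lit 2) (nat_lit 13) (.e false (nat_lit 1) (nat_lit 151) (nat_lit 4) (nat_lit 11) (.e true (nat_lit 1) (nat_lit 155) (nat_lit 4) (nat_lit 11) (.e false (nat_lit 1) (nat_lit 159) (nat_lit 4) (nat_lit 11) (.e false (nat_lit 1) (nat_lit 160) (nat_lit 4) (nat_lit 11) (.e true (nat_lit 1) (nat_lit 112) (nat_lit 5) (nat_lit 10) (.e false (nat_lit 1) (nat_lit 204) (nat_lit 2) (nat_lit 13) (.e false (nat_lit 1) (nat_lit 111) (nat_lit 5) (nat_lit 10)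 (.e true (nat_lit 1) (nat_lit 115) (nat_lit 5) (nat_lit 10) (.e false (nat_lit 1) (nat_lit 119) (nat_lit 5) (nat_lit 10) (.e false (nat_lit 1) (nat_lit 120) (nat_lit 5) (nat_lit 10) (.e true (nat_lit 1) (nat_lit 152) (nat_lit 4) (nat_lit 11) .nil)))))))))))))))) (.nd (.nd (.nd .leaf (nat_lit 44033) (nat_lit 112) (.p (nat_lit 108) (nat_lit 1) .z) .df .leaf) (nat_lit 44034) (nat_lit 127) (.p (nat_lit 118) (nat_lit 1) .z) .df .leaf) (nat_lit 44037) (nat_lit 256) (.p (nat_lit 202) (nat_lit 1) .z) .df (.nd (.nd .leaf (nat_lit 44040) (nat_lit 373) (.p (nat_lit 232) (nat_lit 1) (.p (nat_lit 235) (nat_lit 1) (.p (nat_lit 236) (nat_lit 1) (.n (nat_lit 237) (nat_lit 1) (.n (nat_lit 238) (nat_lit 1) (.n (nat_lit 239) (nat_lit 2) (.n (nat_lit 240) (nat_lit 1) (.p (nat_lit 242) (nat_lit 1) (.p (nat_lit 243) (nat_lit 1) (.n (nat_lit 247) (nat_lit 1) (.n (nat_lit 248) (nat_lit 1) (.n (nat_lit 250) (nat_lit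 1) (.n (nat_lit 251) (nat_lit 1) (.n (nat_lit 252) (nat_lit 1) (.n (nat_lit 253) (nat_lit 1) (.p (nat_lit 254) (nat_lit 1) (.p (nat_lit 256) (nat_lit 1) (.n (nat_lit 257) (nat_lit 1) (.p (nat_lit 259) (nat_lit 1) (.p (nat_lit 261) (nat_lit 1) (.n (nat_lit 262) (nat_lit 1) (.p (nat_lit 264) (nat_lit 1) (.n (nat_lit 265) (nat_lit 1) (.n (nat_lit 266) (nat_lit 1) (.p (nat_lit 269) (nat_lit 1) (.p (nat_lit 271) (nat_lit 1) (.n (nat_lit 272) (nat_lit 1) (.p (nat_lit 274) (nat_lit 1) .z)))))))))))))))))))))))))))) (.ct dF4_c1118480 (nat_lit 1) (nat_lit 7) (.s false (nat_lit 1) (nat_lit 8) (nat_lit 0) (nat_lit 4) (nat_lit 3) true (nat_lit 6) true (nat_lit 11) true (nat_lit 7) true (nat_lit 14) true (nat_lit 10) (.e false (nat_lit 1) (nat_lit 39) (nat_lit 9) (nat_lit 6) (.e false (nat_lit 1) (nat_lit 93) (nat_lit 3) (nat_lit 11) (.e false (nat_lit 1) (nat_lit 122) (nat_lit 0) (nat_lit 14) (.e false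 (nat_lit 1) (nat_lit 126) (nat_lit 0) (nat_lit 14) (.e true (nat_lit 1) (nat_lit 128) (nat_lit 0) (nat_lit 14) (.e true (nat_lit 1) (nat_lit 130) (nat_lit 0) (nat_lit 14) (.e true (nat_lit 1) (nat_lit 90) (nat_lit 4) (nat_lit 10) .nil))))))))) .leaf) (nat_lit 44049) (nat_lit 603) (.p (nat_lit 363) (nat_lit 1) (.n (nat_lit 364) (nat_lit 1) (.n (nat_lit 367) (nat_lit 1) (.n (nat_lit 368) (nat_lit 1) (.p (nat_lit 369) (nat_lit 1) (.p (nat_lit 370) (nat_lit 1) (.p (nat_lit 371) (nat_lit 2) (.p (nat_lit 372) (nat_lit 1) (.n (nat_lit 373) (nat_lit 1) (.n (nat_lit 374) (nat_lit 1) (.n (nat_lit 375) (nat_lit 1) (.n (nat_lit 376) (nat_lit 1) (.p (nat_lit 378) (nat_lit 1) (.p (nat_lit 380) (nat_lit 1) (.n (nat_lit 381) (nat_lit 1) (.p (nat_lit 383) (nat_lit 1) (.p (nat_lit 384) (nat_lit 1) (.p (nat_lit 385) (nat_lit 1) (.n (nat_lit 386) (nat_lit 1) (.n (nat_lit 387) (nat_lit 1) (.n (nat_lit 388) (nat_lit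 1) (.p (nat_lit 389) (nat_lit 1) (.p (nat_lit 394) (nat_lit 1) (.n (nat_lit 396) (nat_lit 1) (.p (nat_lit 397) (nat_lit 1) (.p (nat_lit 398) (nat_lit 1) (.p (nat_lit 399) (nat_lit 1) (.n (nat_lit 401) (nat_lit 1) (.n (nat_lit 403) (nat_lit 1) (.p (nat_lit 405) (nat_lit 1) .z)))))))))))))))))))))))))))))) (.ct dF4_c1114385 (nat_lit 1) (nat_lit 2) (.s true (nat_lit 1) (nat_lit 12) (nat_lit 1) (nat_lit 3) (nat_lit 5) true (nat_lit 2) true (nat_lit 10) true (nat_lit 6) true (nat_lit 13) true (nat_lit 12) (.e true (nat_lit 1) (nat_lit 105) (nat_lit 5) (nat_lit 10) (.e false (nat_lit 1) (nat_lit 63) (nat_lit 12) (nat_lit 6) (.e false (nat_lit 1) (nat_lit 201) (nat_lit 1) (nat_lit 13) (.e true (nat_lit 1) (nat_lit 205) (nat_lit 1) (nat_lit 13) (.e false (nat_lit 1) (nat_lit 209) (nat_lit 1) (nat_lit 13) (.e false (nat_lit 1) (nat_lit 210) (nat_lit 1) (nat_lit 13) (.e false (nat_lit 1) (nat_lit 177)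 (nat_lit 3) (nat_lit 12) .nil))))))))) .leaf))) (nat_lit 44050) (nat_lit 681) (.p (nat_lit 407) (nat_lit 1) (.n (nat_lit 408) (nat_lit 1) (.n (nat_lit 411) (nat_lit 1) (.n (nat_lit 412) (nat_lit 1) (.p (nat_lit 413) (nat_lit 1) (.p (nat_lit 414) (nat_lit 1) (.p (nat_lit 415) (nat_lit 2) (.p (nat_lit 416) (nat_lit 1) (.n (nat_lit 417) (nat_lit 1) (.n (nat_lit 418) (nat_lit 1) (.n (nat_lit 419) (nat_lit 1) (.n (nat_lit 420) (nat_lit 1) (.p (nat_lit 422) (nat_lit 1) (.p (nat_lit 424) (nat_lit 1) (.n (nat_lit 425) (nat_lit 1) (.p (nat_lit 427) (nat_lit 1) (.p (nat_lit 428) (nat_lit 1) (.p (nat_lit 429) (nat_lit 1) (.n (nat_lit 430) (nat_lit 1) (.n (nat_lit 431) (nat_lit 1) (.n (nat_lit 432) (nat_lit 1) (.p (nat_lit 433) (nat_lit 1) (.p (nat_lit 438) (nat_lit 1) (.n (nat_lit 440) (nat_lit 1) (.p (nat_lit 441) (nat_lit 1) (.p (nat_lit 442) (nat_lit 1) (.p (nat_lit 443) (nat_lit 1) (.n (nat_lit 445)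 (nat_lit 1) (.n (nat_lit 447) (nat_lit 1) (.p (nat_lit 449) (nat_lit 1) .z)))))))))))))))))))))))))))))) (.ct dF4_c1052945 (nat_lit 1) (nat_lit 2) (.s true (nat_lit 1) (nat_lit 12) (nat_lit 2) (nat_lit 3) (nat_lit 5) true (nat_lit 2) true (nat_lit 10) true (nat_lit 6) true (nat_lit 13) true (nat_lit 12) (.e true (nat_lit 1) (nat_lit 115) (nat_lit 5) (nat_lit 10) (.e false (nat_lit 1) (nat_lit 66) (nat_lit 12) (nat_lit 6) (.e false (nat_lit 1) (nat_lit 201) (nat_lit 2) (nat_lit 13) (.e true (nat_lit 1) (nat_lit 205) (nat_lit 2) (nat_lit 13) (.e false (nat_lit 1) (nat_lit 209) (nat_lit 2) (nat_lit 13) (.e false (nat_lit 1) (nat_lit 210) (nat_lit 2) (nat_lit 13) (.e false (nat_lit 1) (nat_lit 187) (nat_lit 3) (nat_lit 12) .nil))))))))) (.nd (.nd (.nd (.nd .leaf (nat_lit 45057) (nat_lit 113) (.p (nat_lit 109) (nat_lit 1) .z) .df .leaf) (nat_lit 45058) (nat_lit 128) (.p (nat_lit 119) (nat_lit 1)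 .z) .df .leaf) (nat_lit 45061) (nat_lit 257) (.p (nat_lit 203) (nat_lit 1) .z) .df (.nd (.nd .leaf (nat_lit 45064) (nat_lit 364) (.n (nat_lit 232) (nat_lit 1) (.n (nat_lit 233) (nat_lit 3) (.n (nat_lit 234) (nat_lit 2) (.n (nat_lit 235) (nat_lit 3) (.n (nat_lit 236) (nat_lit 1) (.p (nat_lit 237) (nat_lit 2) (.p (nat_lit 238) (nat_lit 2) (.p (nat_lit 239) (nat_lit 2) (.p (nat_lit 240) (nat_lit 1) (.n (nat_lit 242) (nat_lit 1) (.n (nat_lit 243) (nat_lit 3) (.n (nat_lit 244) (nat_lit 2) (.p (nat_lit 245) (nat_lit 2) (.p (nat_lit 246) (nat_lit 1) (.p (nat_lit 247) (nat_lit 4) (.p (nat_lit 248) (nat_lit 3) (.p (nat_lit 249) (nat_lit 1) (.p (nat_lit 250) (nat_lit 3) (.p (nat_lit 253) (nat_lit 3) (.n (nat_lit 254) (nat_lit 1) (.p (nat_lit 255) (nat_lit 1) (.n (nat_lit 256) (nat_lit 1) (.p (nat_lit 257) (nat_lit 1) (.n (nat_lit 259) (nat_lit 2) (.p (nat_lit 260) (nat_lit 1) (.n (nat_lit 261) (nat_lit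 2) (.p (nat_lit 263) (nat_lit 2) (.p (nat_lit 264) (nat_lit 1) (.p (nat_lit 265) (nat_lit 3) (.p (nat_lit 266) (nat_lit 2) (.p (nat_lit 267) (nat_lit 1) (.p (nat_lit 268) (nat_lit 3) (.n (nat_lit 269) (nat_lit 2) (.n (nat_lit 270) (nat_lit 4) (.n (nat_lit 271) (nat_lit 1) (.n (nat_lit 272) (nat_lit 2) (.n (nat_lit 273) (nat_lit 3) .z))))))))))))))))))))))))))))))))))))) (.ct dF4_c1118480 (nat_lit 1) (nat_lit 7) (.s false (nat_lit 1) (nat_lit 8) (nat_lit 3) (nat_lit 4) (nat_lit 0) true (nat_lit 6) true (nat_lit 14) true (nat_lit 7) true (nat_lit 11) true (nat_lit 10) (.e true (nat_lit 1) (nat_lit 39) (nat_lit 9) (nat_lit 6) (.e false (nat_lit 1) (nat_lit 121) (nat_lit 0) (nat_lit 14) (.e true (nat_lit 1) (nat_lit 93) (nat_lit 3) (nat_lit 11) (.e true (nat_lit 1) (nat_lit 94) (nat_lit 3) (nat_lit 11) (.e true (nat_lit 1) (nat_lit 95) (nat_lit 3) (nat_lit 11) (.e true (nat_lit 1) (nat_lit 96)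 (nat_lit 3) (nat_lit 11) (.e false (nat_lit 1) (nat_lit 97) (nat_lit 3) (nat_lit 11) (.e false (nat_lit 1) (nat_lit 98) (nat_lit 3) (nat_lit 11) (.e false (nat_lit 1) (nat_lit 99) (nat_lit 3) (nat_lit 11) (.e false (nat_lit 1) (nat_lit 100) (nat_lit 3) (nat_lit 11) (.e true (nat_lit 1) (nat_lit 83) (nat_lit 4) (nat_lit 10) .nil))))))))))))) .leaf) (nat_lit 45073) (nat_lit 584) (.n (nat_lit 363) (nat_lit 1) (.p (nat_lit 364) (nat_lit 1) (.p (nat_lit 367) (nat_lit 1) (.p (nat_lit 368) (nat_lit 1) (.n (nat_lit 369) (nat_lit 1) (.n (nat_lit 370) (nat_lit 1) (.n (nat_lit 371) (nat_lit 2) (.n (nat_lit 372) (nat_lit 1) (.n (nat_lit 376) (nat_lit 1) (.p (nat_lit 377) (nat_lit 1) (.n (nat_lit 383) (nat_lit 1) (.p (nat_lit 386) (nat_lit 1) (.n (nat_lit 389) (nat_lit 1) (.n (nat_lit 394) (nat_lit 1) (.p (nat_lit 396) (nat_lit 1) (.p (nat_lit 399) (nat_lit 1) (.p (nat_lit 400) (nat_lit 1) (.n (nat_lit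 402) (nat_lit 1) (.n (nat_lit 404) (nat_lit 1) (.n (nat_lit 405) (nat_lit 1) .z)))))))))))))))))))) (.ct dF4_c1114385 (nat_lit 1) (nat_lit 2) (.s false (nat_lit 1) (nat_lit 13) (nat_lit 5) (nat_lit 3) (nat_lit 0) true (nat_lit 3) true (nat_lit 14) true (nat_lit 5) true (nat_lit 10) true (nat_lit 12) (.s false (nat_lit 1) (nat_lit 15) (nat_lit 5) (nat_lit 0) (nat_lit 1) true (nat_lit 2) true (nat_lit 13) true (nat_lit 4) true (nat_lit 10) true (nat_lit 14) (.s false (nat_lit 1) (nat_lit 16) (nat_lit 4) (nat_lit 1) (nat_lit 3) true (nat_lit 4) true (nat_lit 12) true (nat_lit 3) true (nat_lit 11) true (nat_lit 13) (.s true (nat_lit 1) (nat_lit 19) (nat_lit 1) (nat_lit 0) (nat_lit 4) true (nat_lit 5) true (nat_lit 11) true (nat_lit 1) true (nat_lit 13) true (nat_lit 14) (.e true (nat_lit 1) (nat_lit 101) (nat_lit 5) (nat_lit 10) (.e false (nat_lit 1) (nat_lit 105) (nat_lit 5) (nat_lit 10) (.e true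 (nat_lit 1) (nat_lit 109) (nat_lit 5) (nat_lit 10) (.e true (nat_lit 2) (nat_lit 110) (nat_lit 5) (nat_lit 10) (.e true (nat_lit 1) (nat_lit 173) (nat_lit 3) (nat_lit 12) (.e false (nat_lit 1) (nat_lit 102) (nat_lit 5) (nat_lit 10) (.e false (nat_lit 1) (nat_lit 106) (nat_lit 5) (nat_lit 10) (.e true (nat_lit 1) (nat_lit 108) (nat_lit 5) (nat_lit 10) (.e false (nat_lit 1) (nat_lit 178) (nat_lit 3) (nat_lit 12) (.e true (nat_lit 1) (nat_lit 146) (nat_lit 4) (nat_lit 11) (.e false (nat_lit 1) (nat_lit 147) (nat_lit 4) (nat_lit 11) (.e true (nat_lit 1) (nat_lit 141) (nat_lit 4) (nat_lit 11) (.e true (nat_lit 1) (nat_lit 33) (nat_lit 19) (nat_lit 1) (.e true (nat_lit 1) (nat_lit 201) (nat_lit 1) (nat_lit 13) (.e true (nat_lit 1) (nat_lit 209) (nat_lit 1) (nat_lit 13) (.e false (nat_lit 1) (nat_lit 212) (nat_lit 0) (nat_lit 14) (.e false (nat_lit 1) (nat_lit 215) (nat_lit 0) (nat_lit 14) (.e false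 (nat_lit 1) (nat_lit 216) (nat_lit 0) (nat_lit 14) (.e true (nat_lit 1) (nat_lit 218) (nat_lit 0) (nat_lit 14) (.e true (nat_lit 1) (nat_lit 220) (nat_lit 0) (nat_lit 14) .nil))))))))))))))))))))))))) .leaf)) (nat_lit 45074) (nat_lit 662) (.n (nat_lit 407) (nat_lit 1) (.p (nat_lit 408) (nat_lit 1) (.p (nat_lit 411) (nat_lit 1) (.p (nat_lit 412) (nat_lit 1) (.n (nat_lit 413) (nat_lit 1) (.n (nat_lit 414) (nat_lit 1) (.n (nat_lit 415) (nat_lit 2) (.n (nat_lit 416) (nat_lit 1) (.n (nat_lit 420) (nat_lit 1) (.p (nat_lit 421) (nat_lit 1) (.n (nat_lit 427) (nat_lit 1) (.p (nat_lit 430) (nat_lit 1) (.n (nat_lit 433) (nat_lit 1) (.n (nat_lit 438) (nat_lit 1) (.p (nat_lit 440) (nat_lit 1) (.p (nat_lit 443) (nat_lit 1) (.p (nat_lit 444) (nat_lit 1) (.n (nat_lit 446) (nat_lit 1) (.n (nat_lit 448) (nat_lit 1) (.n (nat_lit 449) (nat_lit 1) .z)))))))))))))))))))) (.ct dF4_c1052945 (nat_lit 1) (nat_lit 2)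 (.s false (nat_lit 1) (nat_lit 14) (nat_lit 5) (nat_lit 3) (nat_lit 0) true (nat_lit 3) true (nat_lit 14) true (nat_lit 5) true (nat_lit 10) true (nat_lit 12) (.s false (nat_lit 1) (nat_lit 15) (nat_lit 5) (nat_lit 0) (nat_lit 2) true (nat_lit 2) true (nat_lit 13) true (nat_lit 4) true (nat_lit 10) true (nat_lit 14) (.s false (nat_lit 1) (nat_lit 16) (nat_lit 4) (nat_lit 2) (nat_lit 3) true (nat_lit 4) true (nat_lit 12) true (nat_lit 3) true (nat_lit 11) true (nat_lit 13) (.s true (nat_lit 1) (nat_lit 19) (nat_lit 2) (nat_lit 0) (nat_lit 4) true (nat_lit 5) true (nat_lit 11) true (nat_lit 1) true (nat_lit 13) true (nat_lit 14) (.e true (nat_lit 1) (nat_lit 111) (nat_lit 5) (nat_lit 10) (.e false (nat_lit 1) (nat_lit 115) (nat_lit 5) (nat_lit 10) (.e true (nat_lit 1) (nat_lit 119) (nat_lit 5) (nat_lit 10) (.e true (nat_lit 2) (nat_lit 120) (nat_lit 5) (nat_lit 10) (.e true (nat_lit 1) (nat_lit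 183) (nat_lit 3) (nat_lit 12) (.e false (nat_lit 1) (nat_lit 112) (nat_lit 5) (nat_lit 10) (.e false (nat_lit 1) (nat_lit 116) (nat_lit 5) (nat_lit 10) (.e true (nat_lit 1) (nat_lit 118) (nat_lit 5) (nat_lit 10) (.e false (nat_lit 1) (nat_lit 188) (nat_lit 3) (nat_lit 12) (.e true (nat_lit 1) (nat_lit 156) (nat_lit 4) (nat_lit 11) (.e false (nat_lit 1) (nat_lit 157) (nat_lit 4) (nat_lit 11) (.e true (nat_lit 1) (nat_lit 151) (nat_lit 4) (nat_lit 11) (.e true (nat_lit 1) (nat_lit 36) (nat_lit 19) (nat_lit 1) (.e true (nat_lit 1) (nat_lit 201) (nat_lit 2) (nat_lit 13) (.e true (nat_lit 1) (nat_lit 209) (nat_lit 2) (nat_lit 13) (.e false (nat_lit 1) (nat_lit 222) (nat_lit 0) (nat_lit 14) (.e false (nat_lit 1) (nat_lit 225) (nat_lit 0) (nat_lit 14) (.e false (nat_lit 1) (nat_lit 226) (nat_lit 0) (nat_lit 14) (.e true (nat_lit 1) (nat_lit 228) (nat_lit 0) (nat_lit 14) (.e true (nat_lit 1) (nat_lit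 230) (nat_lit 0) (nat_lit 14) .nil))))))))))))))))))))))))) (.nd (.nd (.nd .leaf (nat_lit 46080) (nat_lit 114) (.p (nat_lit 110) (nat_lit 1) .z) .df .leaf) (nat_lit 46082) (nat_lit 141) (.p (nat_lit 127) (nat_lit 1) .z) .df .leaf) (nat_lit 46085) (nat_lit 270) (.p (nat_lit 211) (nat_lit 1) .z) .df (.nd (.nd .leaf (nat_lit 46087) (nat_lit 374) (.n (nat_lit 232) (nat_lit 1) (.n (nat_lit 233) (nat_lit 2) (.n (nat_lit 234) (nat_lit 2) (.n (nat_lit 235) (nat_lit 3) (.n (nat_lit 236) (nat_lit 2) (.p (nat_lit 237) (nat_lit 2) (.p (nat_lit 238) (nat_lit 3) (.p (nat_lit 239) (nat_lit 3) (.p (nat_lit 240) (nat_lit 2) (.n (nat_lit 242) (nat_lit 2) (.n (nat_lit 243) (nat_lit 4) (.n (nat_lit 244) (nat_lit 1) (.p (nat_lit 245) (nat_lit 1) (.p (nat_lit 246) (nat_lit 1) (.p (nat_lit 247) (nat_lit 4) (.p (nat_lit 248) (nat_lit 3) (.p (nat_lit 249) (nat_lit 1) (.p (nat_lit 250) (nat_lit 3) (.p (nat_lit 253)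 (nat_lit 3) (.n (nat_lit 254) (nat_lit 1) (.p (nat_lit 255) (nat_lit 1) (.n (nat_lit 256) (nat_lit 1) (.p (nat_lit 257) (nat_lit 2) (.n (nat_lit 259) (nat_lit 2) (.p (nat_lit 260) (nat_lit 1) (.n (nat_lit 261) (nat_lit 2) (.p (nat_lit 262) (nat_lit 1) (.p (nat_lit 263) (nat_lit 1) (.p (nat_lit 265) (nat_lit 3) (.p (nat_lit 266) (nat_lit 3) (.p (nat_lit 267) (nat_lit 1) (.p (nat_lit 268) (nat_lit 2) (.n (nat_lit 269) (nat_lit 2) (.n (nat_lit 270) (nat_lit 3) (.n (nat_lit 271) (nat_lit 2) (.n (nat_lit 272) (nat_lit 1) (.n (nat_lit 273) (nat_lit 2) (.n (nat_lit 274) (nat_lit 1) .z)))))))))))))))))))))))))))))))))))))) (.ct dF4_c1118480 (nat_lit 1) (nat_lit 8) (.s false (nat_lit 1) (nat_lit 7) (nat_lit 1) (nat_lit 3) (nat_lit 4) true (nat_lit 2) true (nat_lit 10) true (nat_lit 8) true (nat_lit 13) true (nat_lit 11) (.e false (nat_lit 1) (nat_lit 27) (nat_lit 13) (nat_lit 2) (.e false (nat_lit 1)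 (nat_lit 82) (nat_lit 4) (nat_lit 10) (.e true (nat_lit 1) (nat_lit 112) (nat_lit 1) (nat_lit 13) (.e true (nat_lit 1) (nat_lit 116) (nat_lit 1) (nat_lit 13) (.e false (nat_lit 1) (nat_lit 118) (nat_lit 1) (nat_lit 13) (.e false (nat_lit 1) (nat_lit 120) (nat_lit 1) (nat_lit 13) (.e true (nat_lit 1) (nat_lit 97) (nat_lit 3) (nat_lit 11) .nil))))))))) .leaf) (nat_lit 46096) (nat_lit 594) (.p (nat_lit 364) (nat_lit 1) (.n (nat_lit 365) (nat_lit 2) (.n (nat_lit 366) (nat_lit 1) (.n (nat_lit 367) (nat_lit 1) (.p (nat_lit 368) (nat_lit 1) (.n (nat_lit 371) (nat_lit 1) (.n (nat_lit 372) (nat_lit 1) (.n (nat_lit 376) (nat_lit 1) (.p (nat_lit 377) (nat_lit 1) (.p (nat_lit 379) (nat_lit 1) (.p (nat_lit 380) (nat_lit 1) (.p (nat_lit 381) (nat_lit 1) (.n (nat_lit 383) (nat_lit 1) (.n (nat_lit 384) (nat_lit 1) (.p (nat_lit 386) (nat_lit 1) (.p (nat_lit 387) (nat_lit 1) (.p (nat_lit 388) (nat_lit 1) (.n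 (nat_lit 389) (nat_lit 1) (.p (nat_lit 392) (nat_lit 1) (.n (nat_lit 394) (nat_lit 2) (.p (nat_lit 395) (nat_lit 1) (.p (nat_lit 396) (nat_lit 2) (.p (nat_lit 400) (nat_lit 2) (.n (nat_lit 402) (nat_lit 2) (.p (nat_lit 403) (nat_lit 1) (.n (nat_lit 404) (nat_lit 2) (.n (nat_lit 405) (nat_lit 2) (.p (nat_lit 406) (nat_lit 1) .z)))))))))))))))))))))))))))) (.ct dF4_c1114385 (nat_lit 1) (nat_lit 3) (.s true (nat_lit 1) (nat_lit 10) (nat_lit 0) (nat_lit 4) (nat_lit 5) true (nat_lit 3) true (nat_lit 10) true (nat_lit 7) true (nat_lit 14) true (nat_lit 11) (.s true (nat_lit 1) (nat_lit 12) (nat_lit 1) (nat_lit 5) (nat_lit 3) true (nat_lit 7) true (nat_lit 12) true (nat_lit 6) true (nat_lit 13) true (nat_lit 10) (.s false (nat_lit 1) (nat_lit 17) (nat_lit 4) (nat_lit 3) (nat_lit 0) true (nat_lit 6) true (nat_lit 14) true (nat_lit 2) true (nat_lit 11) true (nat_lit 12) (.e true (nat_lit 1) (nat_lit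 103) (nat_lit 5) (nat_lit 10) (.e false (nat_lit 1) (nat_lit 212) (nat_lit 0) (nat_lit 14) (.e false (nat_lit 1) (nat_lit 216) (nat_lit 0) (nat_lit 14) (.e true (nat_lit 1) (nat_lit 220) (nat_lit 0) (nat_lit 14) (.e true (nat_lit 1) (nat_lit 172) (nat_lit 3) (nat_lit 12) (.e true (nat_lit 1) (nat_lit 201) (nat_lit 1) (nat_lit 13) (.e false (nat_lit 1) (nat_lit 205) (nat_lit 1) (nat_lit 13) (.e true (nat_lit 1) (nat_lit 209) (nat_lit 1) (nat_lit 13) (.e true (nat_lit 1) (nat_lit 210) (nat_lit 1) (nat_lit 13) (.e false (nat_lit 1) (nat_lit 108) (nat_lit 5) (nat_lit 10) (.e false (nat_lit 1) (nat_lit 44) (nat_lit 17) (nat_lit 2) (.e true (nat_lit 1) (nat_lit 141) (nat_lit 4) (nat_lit 11) (.e false (nat_lit 1) (nat_lit 145) (nat_lit 4) (nat_lit 11) (.e true (nat_lit 1) (nat_lit 149) (nat_lit 4) (nat_lit 11) (.e true (nat_lit 1) (nat_lit 176) (nat_lit 3) (nat_lit 12) .nil))))))))))))))))))) .leaf))))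 (nat_lit 46098) (nat_lit 749) (.p (nat_lit 451) (nat_lit 1) (.n (nat_lit 452) (nat_lit 1) (.n (nat_lit 453) (nat_lit 1) (.n (nat_lit 454) (nat_lit 1) (.n (nat_lit 455) (nat_lit 2) (.n (nat_lit 456) (nat_lit 1) (.p (nat_lit 457) (nat_lit 1) (.p (nat_lit 458) (nat_lit 2) (.p (nat_lit 459) (nat_lit 2) (.p (nat_lit 460) (nat_lit 1) (.n (nat_lit 461) (nat_lit 1) (.n (nat_lit 462) (nat_lit 1) (.n (nat_lit 463) (nat_lit 2) (.n (nat_lit 464) (nat_lit 1) (.p (nat_lit 465) (nat_lit 1) (.p (nat_lit 466) (nat_lit 1) (.p (nat_lit 467) (nat_lit 2) (.p (nat_lit 468) (nat_lit 2) (.p (nat_lit 470) (nat_lit 1) (.p (nat_lit 473) (nat_lit 1) (.p (nat_lit 477) (nat_lit 1) (.n (nat_lit 479) (nat_lit 1) (.p (nat_lit 480) (nat_lit 1) (.n (nat_lit 481) (nat_lit 1) (.p (nat_lit 483) (nat_lit 1) (.p (nat_lit 485) (nat_lit 1) (.p (nat_lit 486) (nat_lit 1) (.p (nat_lit 488) (nat_lit 1) (.n (nat_lit 489) (nat_lit 1) (.n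 (nat_lit 490) (nat_lit 1) (.n (nat_lit 493) (nat_lit 1) .z))))))))))))))))))))))))))))))) (.ct dF4_c69905 (nat_lit 1) (nat_lit 2) (.s false (nat_lit 1) (nat_lit 10) (nat_lit 4) (nat_lit 5) (nat_lit 2) true (nat_lit 5) true (nat_lit 13) true (nat_lit 8) true (nat_lit 11) true (nat_lit 10) (.s false (nat_lit 1) (nat_lit 10) (nat_lit 5) (nat_lit 4) (nat_lit 2) true (nat_lit 2) true (nat_lit 13) true (nat_lit 8) true (nat_lit 10) true (nat_lit 11) (.e true (nat_lit 1) (nat_lit 63) (nat_lit 14) (nat_lit 5) (.e false (nat_lit 1) (nat_lit 211) (nat_lit 2) (nat_lit 13) (.e false (nat_lit 1) (nat_lit 161) (nat_lit 4) (nat_lit 11) (.e true (nat_lit 1) (nat_lit 165) (nat_lit 4) (nat_lit 11) (.e false (nat_lit 1) (nat_lit 169) (nat_lit 4) (nat_lit 11) (.e false (nat_lit 1) (nat_lit 170) (nat_lit 4) (nat_lit 11) (.e true (nat_lit 1) (nat_lit 122) (nat_lit 5) (nat_lit 10) (.e false (nat_lit 1) (nat_lit 214)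 (nat_lit 2) (nat_lit 13) (.e false (nat_lit 1) (nat_lit 121) (nat_lit 5) (nat_lit 10) (.e true (nat_lit 1) (nat_lit 125) (nat_lit 5) (nat_lit 10) (.e false (nat_lit 1) (nat_lit 129) (nat_lit 5) (nat_lit 10) (.e false (nat_lit 1) (nat_lit 130) (nat_lit 5) (nat_lit 10) (.e true (nat_lit 1) (nat_lit 162) (nat_lit 4) (nat_lit 11) .nil)))))))))))))))) (.nd (.nd (.nd (.nd (.nd .leaf (nat_lit 47104) (nat_lit 115) (.p (nat_lit 102) (nat_lit 1) (.p (nat_lit 103) (nat_lit 1) (.p (nat_lit 105) (nat_lit 1) (.p (nat_lit 106) (nat_lit 1) (.n (nat_lit 107) (nat_lit 1) (.n (nat_lit 108) (nat_lit 1) (.n (nat_lit 110) (nat_lit 1) .z))))))) (.ct dF4_c1114384 (nat_lit 1) (nat_lit 6) (.s true (nat_lit 1) (nat_lit 4) (nat_lit 0) (nat_lit 3) (nat_lit 1) true (nat_lit 2) true (nat_lit 5) true (nat_lit 3) true (nat_lit 6) true (nat_lit 4) (.s true (nat_lit 1) (nat_lit 4) (nat_lit 1) (nat_lit 3) (nat_lit 0) true (nat_lit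 2) true (nat_lit 6) true (nat_lit 3) true (nat_lit 5) true (nat_lit 4) (.e true (nat_lit 1) (nat_lit 43) (nat_lit 1) (nat_lit 5) (.e false (nat_lit 1) (nat_lit 25) (nat_lit 4) (nat_lit 3) (.e true (nat_lit 1) (nat_lit 45) (nat_lit 0) (nat_lit 6) (.e false (nat_lit 1) (nat_lit 35) (nat_lit 3) (nat_lit 4) (.e false (nat_lit 1) (nat_lit 26) (nat_lit 4) (nat_lit 3) (.e true (nat_lit 1) (nat_lit 42) (nat_lit 1) (nat_lit 5) (.e false (nat_lit 1) (nat_lit 34) (nat_lit 3) (nat_lit 4) .nil)))))))))) .leaf) (nat_lit 47106) (nat_lit 142) (.p (nat_lit 128) (nat_lit 1) .z) .df .leaf) (nat_lit 47109) (nat_lit 271) (.p (nat_lit 212) (nat_lit 1) .z) .df (.nd (.nd .leaf (nat_lit 47111) (nat_lit 375) (.p (nat_lit 231) (nat_lit 1) (.n (nat_lit 232) (nat_lit 1) (.n (nat_lit 235) (nat_lit 1) (.n (nat_lit 236) (nat_lit 1) (.p (nat_lit 237) (nat_lit 1) (.p (nat_lit 238) (nat_lit 1) (.p (nat_lit 239) (nat_lit 2) (.p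 (nat_lit 240) (nat_lit 1) (.n (nat_lit 245) (nat_lit 1) (.n (nat_lit 249) (nat_lit 1) (.p (nat_lit 251) (nat_lit 1) (.p (nat_lit 252) (nat_lit 1) (.n (nat_lit 254) (nat_lit 1) (.n (nat_lit 255) (nat_lit 1) (.n (nat_lit 256) (nat_lit 1) (.p (nat_lit 257) (nat_lit 1) (.p (nat_lit 262) (nat_lit 1) (.n (nat_lit 264) (nat_lit 1) (.n (nat_lit 268) (nat_lit 1) (.p (nat_lit 270) (nat_lit 1) (.p (nat_lit 272) (nat_lit 1) (.p (nat_lit 273) (nat_lit 1) .z)))))))))))))))))))))) (.ct dF4_c1118480 (nat_lit 1) (nat_lit 8) (.s false (nat_lit 1) (nat_lit 7) (nat_lit 1) (nat_lit 4) (nat_lit 3) true (nat_lit 5) true (nat_lit 11) true (nat_lit 8) true (nat_lit 13) true (nat_lit 10) (.e false (nat_lit 1) (nat_lit 36) (nat_lit 10) (nat_lit 5) (.e false (nat_lit 1) (nat_lit 92) (nat_lit 3) (nat_lit 11) (.e false (nat_lit 1) (nat_lit 112) (nat_lit 1) (nat_lit 13) (.e false (nat_lit 1) (nat_lit 116) (nat_lit 1) (nat_lit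 13) (.e true (nat_lit 1) (nat_lit 118) (nat_lit 1) (nat_lit 13) (.e true (nat_lit 1) (nat_lit 120) (nat_lit 1) (nat_lit 13) (.e true (nat_lit 1) (nat_lit 87) (nat_lit 4) (nat_lit 10) .nil))))))))) .leaf) (nat_lit 47120) (nat_lit 600) (.p (nat_lit 365) (nat_lit 1) (.p (nat_lit 366) (nat_lit 1) (.p (nat_lit 367) (nat_lit 1) (.n (nat_lit 369) (nat_lit 1) (.n (nat_lit 370) (nat_lit 1) (.n (nat_lit 371) (nat_lit 1) (.p (nat_lit 374) (nat_lit 1) (.p (nat_lit 375) (nat_lit 1) (.p (nat_lit 376) (nat_lit 1) (.n (nat_lit 377) (nat_lit 1) (.n (nat_lit 378) (nat_lit 1) (.n (nat_lit 379) (nat_lit 1) (.n (nat_lit 380) (nat_lit 1) (.n (nat_lit 382) (nat_lit 1) (.n (nat_lit 385) (nat_lit 1) (.p (nat_lit 388) (nat_lit 1) (.p (nat_lit 391) (nat_lit 1) (.p (nat_lit 393) (nat_lit 1) (.n (nat_lit 397) (nat_lit 1) (.n (nat_lit 398) (nat_lit 1) (.n (nat_lit 399) (nat_lit 1) (.n (nat_lit 400) (nat_lit 1) (.p (nat_lit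 401) (nat_lit 1) (.p (nat_lit 402) (nat_lit 1) (.p (nat_lit 403) (nat_lit 1) (.p (nat_lit 404) (nat_lit 1) (.p (nat_lit 405) (nat_lit 1) .z))))))))))))))))))))))))))) (.ct dF4_c1114385 (nat_lit 1) (nat_lit 3) (.s true (nat_lit 1) (nat_lit 13) (nat_lit 0) (nat_lit 3) (nat_lit 5) true (nat_lit 3) true (nat_lit 10) true (nat_lit 5) true (nat_lit 14) true (nat_lit 12) (.e true (nat_lit 1) (nat_lit 106) (nat_lit 5) (nat_lit 10) (.e false (nat_lit 1) (nat_lit 60) (nat_lit 13) (nat_lit 5) (.e false (nat_lit 1) (nat_lit 211) (nat_lit 0) (nat_lit 14) (.e true (nat_lit 1) (nat_lit 215) (nat_lit 0) (nat_lit 14) (.e false (nat_lit 1) (nat_lit 219) (nat_lit 0) (nat_lit 14) (.e false (nat_lit 1) (nat_lit 220) (nat_lit 0) (nat_lit 14) (.e false (nat_lit 1) (nat_lit 180) (nat_lit 3) (nat_lit 12) .nil))))))))) .leaf)) (nat_lit 47122) (nat_lit 758) (.p (nat_lit 451) (nat_lit 1) (.n (nat_lit 452) (nat_lit 1)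 (.n (nat_lit 455) (nat_lit 1) (.n (nat_lit 456) (nat_lit 1) (.p (nat_lit 457) (nat_lit 1) (.p (nat_lit 458) (nat_lit 1) (.p (nat_lit 459) (nat_lit 2) (.p (nat_lit 460) (nat_lit 1) (.n (nat_lit 461) (nat_lit 1) (.n (nat_lit 462) (nat_lit 1) (.n (nat_lit 463) (nat_lit 1) (.n (nat_lit 464) (nat_lit 1) (.p (nat_lit 466) (nat_lit 1) (.p (nat_lit 468) (nat_lit 1) (.n (nat_lit 469) (nat_lit 1) (.p (nat_lit 471) (nat_lit 1) (.p (nat_lit 472) (nat_lit 1) (.p (nat_lit 473) (nat_lit 1) (.n (nat_lit 474) (nat_lit 1) (.n (nat_lit 475) (nat_lit 1) (.n (nat_lit 476) (nat_lit 1) (.p (nat_lit 477) (nat_lit 1) (.p (nat_lit 482) (nat_lit 1) (.n (nat_lit 484) (nat_lit 1) (.p (nat_lit 485) (nat_lit 1) (.p (nat_lit 486) (nat_lit 1) (.p (nat_lit 487) (nat_lit 1) (.n (nat_lit 489) (nat_lit 1) (.n (nat_lit 491) (nat_lit 1) (.p (nat_lit 493) (nat_lit 1) .z)))))))))))))))))))))))))))))) (.ct dF4_c69905 (nat_lit 1) (nat_lit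 2) (.s true (nat_lit 1) (nat_lit 13) (nat_lit 2) (nat_lit 3) (nat_lit 5) true (nat_lit 2) true (nat_lit 10) true (nat_lit 6) true (nat_lit 13) true (nat_lit 12) (.e true (nat_lit 1) (nat_lit 125) (nat_lit 5) (nat_lit 10) (.e false (nat_lit 1) (nat_lit 66) (nat_lit 13) (nat_lit 6) (.e false (nat_lit 1) (nat_lit 211) (nat_lit 2) (nat_lit 13) (.e true (nat_lit 1) (nat_lit 215) (nat_lit 2) (nat_lit 13) (.e false (nat_lit 1) (nat_lit 219) (nat_lit 2) (nat_lit 13) (.e false (nat_lit 1) (nat_lit 220) (nat_lit 2) (nat_lit 13) (.e false (nat_lit 1) (nat_lit 197) (nat_lit 3) (nat_lit 12) .nil))))))))) (.nd (.nd (.nd .leaf (nat_lit 48128) (nat_lit 116) (.p (nat_lit 101) (nat_lit 1) (.n (nat_lit 103) (nat_lit 1) (.n (nat_lit 104) (nat_lit 1) (.n (nat_lit 105) (nat_lit 1) (.p (nat_lit 108) (nat_lit 1) (.p (nat_lit 109) (nat_lit 1) (.p (nat_lit 110) (nat_lit 1) .z))))))) (.ct dF4_c1114384 (nat_lit 1) (nat_lit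 6) (.s false (nat_lit 1) (nat_lit 4) (nat_lit 1) (nat_lit 0) (nat_lit 3) true (nat_lit 0) true (nat_lit 4) true (nat_lit 3) true (nat_lit 5) true (nat_lit 6) (.s false (nat_lit 1) (nat_lit 4) (nat_lit 3) (nat_lit 0) (nat_lit 1) true (nat_lit 0) true (nat_lit 5) true (nat_lit 3) true (nat_lit 4) true (nat_lit 6) (.e false (nat_lit 1) (nat_lit 35) (nat_lit 3) (nat_lit 4) (.e false (nat_lit 1) (nat_lit 24) (nat_lit 4) (nat_lit 3) (.e true (nat_lit 1) (nat_lit 42) (nat_lit 1) (nat_lit 5) (.e false (nat_lit 1) (nat_lit 44) (nat_lit 1) (nat_lit 5) (.e false (nat_lit 1) (nat_lit 25) (nat_lit 4) (nat_lit 3) (.e true (nat_lit 1) (nat_lit 33) (nat_lit 3) (nat_lit 4) (.e true (nat_lit 1) (nat_lit 46) (nat_lit 0) (nat_lit 6) .nil)))))))))) .leaf) (nat_lit 48130) (nat_lit 143) (.p (nat_lit 129) (nat_lit 1) .z) .df .leaf) (nat_lit 48133) (nat_lit 272) (.p (nat_lit 213) (nat_lit 1) .z) .df (.nd (.nd .leaf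 (nat_lit 48135) (nat_lit 376) (.n (nat_lit 232) (nat_lit 1) (.n (nat_lit 233) (nat_lit 1) (.n (nat_lit 234) (nat_lit 1) (.n (nat_lit 235) (nat_lit 1) (.n (nat_lit 236) (nat_lit 1) (.p (nat_lit 237) (nat_lit 1) (.p (nat_lit 238) (nat_lit 1) (.p (nat_lit 239) (nat_lit 1) (.p (nat_lit 240) (nat_lit 1) (.n (nat_lit 242) (nat_lit 1) (.n (nat_lit 243) (nat_lit 2) (.n (nat_lit 244) (nat_lit 1) (.p (nat_lit 245) (nat_lit 1) (.p (nat_lit 246) (nat_lit 1) (.p (nat_lit 247) (nat_lit 2) (.p (nat_lit 248) (nat_lit 2) (.p (nat_lit 250) (nat_lit 1) (.p (nat_lit 253) (nat_lit 1) (.p (nat_lit 257) (nat_lit 1) (.n (nat_lit 259) (nat_lit 1) (.n (nat_lit 261) (nat_lit 1) (.p (nat_lit 263) (nat_lit 1) (.p (nat_lit 265) (nat_lit 1) (.p (nat_lit 266) (nat_lit 1) (.p (nat_lit 268) (nat_lit 1) (.n (nat_lit 269) (nat_lit 1) (.n (nat_lit 270) (nat_lit 1) (.n (nat_lit 273) (nat_lit 1) .z)))))))))))))))))))))))))))) (.ct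 dF4_c1118480 (nat_lit 1) (nat_lit 8) (.s false (nat_lit 1) (nat_lit 7) (nat_lit 3) (nat_lit 4) (nat_lit 1) true (nat_lit 5) true (nat_lit 13) true (nat_lit 8) true (nat_lit 11) true (nat_lit 10) (.e true (nat_lit 1) (nat_lit 36) (nat_lit 10) (nat_lit 5) (.e false (nat_lit 1) (nat_lit 111) (nat_lit 1) (nat_lit 13) (.e false (nat_lit 1) (nat_lit 91) (nat_lit 3) (nat_lit 11) (.e true (nat_lit 1) (nat_lit 95) (nat_lit 3) (nat_lit 11) (.e false (nat_lit 1) (nat_lit 99) (nat_lit 3) (nat_lit 11) (.e false (nat_lit 1) (nat_lit 100) (nat_lit 3) (nat_lit 11) (.e true (nat_lit 1) (nat_lit 82) (nat_lit 4) (nat_lit 10) .nil))))))))) .leaf) (nat_lit 48144) (nat_lit 596) (.n (nat_lit 363) (nat_lit 1) (.p (nat_lit 365) (nat_lit 1) (.p (nat_lit 366) (nat_lit 1) (.p (nat_lit 367) (nat_lit 2) (.n (nat_lit 370) (nat_lit 2) (.n (nat_lit 371) (nat_lit 1) (.n (nat_lit 372) (nat_lit 1) (.p (nat_lit 375) (nat_lit 1)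 (.n (nat_lit 379) (nat_lit 2) (.n (nat_lit 380) (nat_lit 1) (.n (nat_lit 381) (nat_lit 1) (.n (nat_lit 382) (nat_lit 1) (.p (nat_lit 384) (nat_lit 1) (.n (nat_lit 385) (nat_lit 1) (.n (nat_lit 387) (nat_lit 1) (.n (nat_lit 388) (nat_lit 1) (.n (nat_lit 389) (nat_lit 1) (.n (nat_lit 392) (nat_lit 1) (.p (nat_lit 393) (nat_lit 1) (.n (nat_lit 395) (nat_lit 1) (.n (nat_lit 397) (nat_lit 1) (.n (nat_lit 398) (nat_lit 1) (.n (nat_lit 400) (nat_lit 1) (.p (nat_lit 401) (nat_lit 1) (.p (nat_lit 402) (nat_lit 2) (.p (nat_lit 404) (nat_lit 1) (.p (nat_lit 405) (nat_lit 1) .z))))))))))))))))))))))))))) (.ct dF4_c1114385 (nat_lit 1) (nat_lit 3) (.s true (nat_lit 1) (nat_lit 15) (nat_lit 0) (nat_lit 1) (nat_lit 5) true (nat_lit 3) true (nat_lit 10) true (nat_lit 4) true (nat_lit 14) true (nat_lit 13) (.e true (nat_lit 1) (nat_lit 109) (nat_lit 5) (nat_lit 10) (.e false (nat_lit 1) (nat_lit 51) (nat_lit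 15) (nat_lit 4) (.e true (nat_lit 1) (nat_lit 213) (nat_lit 0) (nat_lit 14) (.e true (nat_lit 1) (nat_lit 214) (nat_lit 0) (nat_lit 14) (.e true (nat_lit 1) (nat_lit 215) (nat_lit 0) (nat_lit 14) (.e true (nat_lit 1) (nat_lit 216) (nat_lit 0) (nat_lit 14) (.e false (nat_lit 1) (nat_lit 217) (nat_lit 0) (nat_lit 14) (.e false (nat_lit 1) (nat_lit 218) (nat_lit 0) (nat_lit 14) (.e false (nat_lit 1) (nat_lit 219) (nat_lit 0) (nat_lit 14) (.e false (nat_lit 1) (nat_lit 220) (nat_lit 0) (nat_lit 14) (.e false (nat_lit 1) (nat_lit 210) (nat_lit 1) (nat_lit 13) .nil))))))))))))) .leaf))) (nat_lit 48146) (nat_lit 740) (.n (nat_lit 451) (nat_lit 1) (.p (nat_lit 452) (nat_lit 1) (.p (nat_lit 455) (nat_lit 1) (.p (nat_lit 456) (nat_lit 1) (.n (nat_lit 457) (nat_lit 1) (.n (nat_lit 458) (nat_lit 1) (.n (nat_lit 459) (nat_lit 2) (.n (nat_lit 460) (nat_lit 1) (.n (nat_lit 464) (nat_lit 1) (.p (nat_lit 465)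 (nat_lit 1) (.n (nat_lit 471) (nat_lit 1) (.p (nat_lit 474) (nat_lit 1) (.n (nat_lit 477) (nat_lit 1) (.n (nat_lit 482) (nat_lit 1) (.p (nat_lit 484) (nat_lit 1) (.p (nat_lit 487) (nat_lit 1) (.p (nat_lit 488) (nat_lit 1) (.n (nat_lit 490) (nat_lit 1) (.n (nat_lit 492) (nat_lit 1) (.n (nat_lit 493) (nat_lit 1) .z)))))))))))))))))))) (.ct dF4_c69905 (nat_lit 1) (nat_lit 2) (.s false (nat_lit 1) (nat_lit 14) (nat_lit 5) (nat_lit 3) (nat_lit 1) true (nat_lit 3) true (nat_lit 14) true (nat_lit 5) true (nat_lit 10) true (nat_lit 12) (.s false (nat_lit 1) (nat_lit 15) (nat_lit 5) (nat_lit 1) (nat_lit 2) true (nat_lit 2) true (nat_lit 13) true (nat_lit 4) true (nat_lit 10) true (nat_lit 14) (.s false (nat_lit 1) (nat_lit 17) (nat_lit 4) (nat_lit 2) (nat_lit 3) true (nat_lit 4) true (nat_lit 12) true (nat_lit 3) true (nat_lit 11) true (nat_lit 13) (.s true (nat_lit 1) (nat_lit 19) (nat_lit 2) (nat_lit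 1) (nat_lit 4) true (nat_lit 5) true (nat_lit 11) true (nat_lit 1) true (nat_lit 13) true (nat_lit 14) (.e true (nat_lit 1) (nat_lit 121) (nat_lit 5) (nat_lit 10) (.e false (nat_lit 1) (nat_lit 125) (nat_lit 5) (nat_lit 10) (.e true (nat_lit 1) (nat_lit 129) (nat_lit 5) (nat_lit 10) (.e true (nat_lit 2) (nat_lit 130) (nat_lit 5) (nat_lit 10) (.e true (nat_lit 1) (nat_lit 193) (nat_lit 3) (nat_lit 12) (.e false (nat_lit 1) (nat_lit 122) (nat_lit 5) (nat_lit 10) (.e false (nat_lit 1) (nat_lit 126) (nat_lit 5) (nat_lit 10) (.e true (nat_lit 1) (nat_lit 128) (nat_lit 5) (nat_lit 10) (.e false (nat_lit 1) (nat_lit 198) (nat_lit 3) (nat_lit 12) (.e true (nat_lit 1) (nat_lit 166) (nat_lit 4) (nat_lit 11) (.e false (nat_lit 1) (nat_lit 167) (nat_lit 4) (nat_lit 11) (.e true (nat_lit 1) (nat_lit 161) (nat_lit 4) (nat_lit 11) (.e true (nat_lit 1) (nat_lit 39) (nat_lit 19) (nat_lit 1) (.e true (nat_lit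 1) (nat_lit 211) (nat_lit 2) (nat_lit 13) (.e true (nat_lit 1) (nat_lit 219) (nat_lit 2) (nat_lit 13) (.e false (nat_lit 1) (nat_lit 222) (nat_lit 1) (nat_lit 14) (.e false (nat_lit 1) (nat_lit 225) (nat_lit 1) (nat_lit 14) (.e false (nat_lit 1) (nat_lit 226) (nat_lit 1) (nat_lit 14) (.e true (nat_lit 1) (nat_lit 228) (nat_lit 1) (nat_lit 14) (.e true (nat_lit 1) (nat_lit 230) (nat_lit 1) (nat_lit 14) .nil))))))))))))))))))))))))) (.nd (.nd (.nd (.nd .leaf (nat_lit 49152) (nat_lit 129) (.p (nat_lit 120) (nat_lit 1) .z) .df .leaf) (nat_lit 49153) (nat_lit 144) (.p (nat_lit 130) (nat_lit 1) .z) .df .leaf) (nat_lit 49157) (nat_lit 285) (.p (nat_lit 221) (nat_lit 1) .z) .df (.nd (.nd .leaf (nat_lit 49158) (nat_lit 377) (.p (nat_lit 231) (nat_lit 1) (.n (nat_lit 233) (nat_lit 2) (.n (nat_lit 234) (nat_lit 2) (.n (nat_lit 235) (nat_lit 2) (.p (nat_lit 237) (nat_lit 1) (.p (nat_lit 238) (nat_lit 1)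 (.p (nat_lit 239) (nat_lit 1) (.n (nat_lit 243) (nat_lit 1) (.n (nat_lit 244) (nat_lit 1) (.p (nat_lit 245) (nat_lit 1) (.p (nat_lit 247) (nat_lit 2) (.p (nat_lit 248) (nat_lit 1) (.p (nat_lit 249) (nat_lit 1) (.p (nat_lit 250) (nat_lit 1) (.n (nat_lit 251) (nat_lit 1) (.n (nat_lit 252) (nat_lit 1) (.p (nat_lit 253) (nat_lit 1) (.p (nat_lit 254) (nat_lit 1) (.p (nat_lit 255) (nat_lit 1) (.p (nat_lit 256) (nat_lit 1) (.n (nat_lit 259) (nat_lit 1) (.p (nat_lit 260) (nat_lit 1) (.n (nat_lit 261) (nat_lit 1) (.n (nat_lit 262) (nat_lit 1) (.p (nat_lit 263) (nat_lit 1) (.p (nat_lit 264) (nat_lit 1) (.p (nat_lit 265) (nat_lit 2) (.p (nat_lit 266) (nat_lit 1) (.p (nat_lit 267) (nat_lit 1) (.p (nat_lit 268) (nat_lit 2) (.n (nat_lit 269) (nat_lit 1) (.n (nat_lit 270) (nat_lit 3) (.n (nat_lit 272) (nat_lit 2) (.n (nat_lit 273) (nat_lit 2) (.p (nat_lit 274) (nat_lit 1) .z)))))))))))))))))))))))))))))))))))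 (.ct dF4_c1118480 (nat_lit 1) (nat_lit 9) (.s false (nat_lit 1) (nat_lit 6) (nat_lit 2) (nat_lit 3) (nat_lit 4) true (nat_lit 1) true (nat_lit 10) true (nat_lit 9) true (nat_lit 12) true (nat_lit 11) (.e false (nat_lit 1) (nat_lit 24) (nat_lit 14) (nat_lit 1) (.e false (nat_lit 1) (nat_lit 81) (nat_lit 4) (nat_lit 10) (.e true (nat_lit 1) (nat_lit 102) (nat_lit 2) (nat_lit 12) (.e true (nat_lit 1) (nat_lit 106) (nat_lit 2) (nat_lit 12) (.e false (nat_lit 1) (nat_lit 108) (nat_lit 2) (nat_lit 12) (.e false (nat_lit 1) (nat_lit 110) (nat_lit 2) (nat_lit 12) (.e true (nat_lit 1) (nat_lit 94) (nat_lit 3) (nat_lit 11) .nil))))))))) .leaf) (nat_lit 49168) (nat_lit 672) (.p (nat_lit 408) (nat_lit 1) (.n (nat_lit 409) (nat_lit 2) (.n (nat_lit 410) (nat_lit 1) (.n (nat_lit 411) (nat_lit 1) (.p (nat_lit 412) (nat_lit 1) (.n (nat_lit 415) (nat_lit 1) (.n (nat_lit 416) (nat_lit 1) (.n (nat_lit 420) (nat_lit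 1) (.p (nat_lit 421) (nat_lit 1) (.p (nat_lit 423) (nat_lit 1) (.p (nat_lit 424) (nat_lit 1) (.p (nat_lit 425) (nat_lit 1) (.n (nat_lit 427) (nat_lit 1) (.n (nat_lit 428) (nat_lit 1) (.p (nat_lit 430) (nat_lit 1) (.p (nat_lit 431) (nat_lit 1) (.p (nat_lit 432) (nat_lit 1) (.n (nat_lit 433) (nat_lit 1) (.p (nat_lit 436) (nat_lit 1) (.n (nat_lit 438) (nat_lit 2) (.p (nat_lit 439) (nat_lit 1) (.p (nat_lit 440) (nat_lit 2) (.p (nat_lit 444) (nat_lit 2) (.n (nat_lit 446) (nat_lit 2) (.p (nat_lit 447) (nat_lit 1) (.n (nat_lit 448) (nat_lit 2) (.n (nat_lit 449) (nat_lit 2) (.p (nat_lit 450) (nat_lit 1) .z)))))))))))))))))))))))))))) (.ct dF4_c1052945 (nat_lit 1) (nat_lit 3) (.s true (nat_lit 1) (nat_lit 11) (nat_lit 0) (nat_lit 4) (nat_lit 5) true (nat_lit 3) true (nat_lit 10) true (nat_lit 7) true (nat_lit 14) true (nat_lit 11) (.s true (nat_lit 1) (nat_lit 12) (nat_lit 2) (nat_lit 5) (nat_lit 3)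 true (nat_lit 7) true (nat_lit 12) true (nat_lit 6) true (nat_lit 13) true (nat_lit 10) (.s false (nat_lit 1) (nat_lit 18) (nat_lit 4) (nat_lit 3) (nat_lit 0) true (nat_lit 6) true (nat_lit 14) true (nat_lit 2) true (nat_lit 11) true (nat_lit 12) (.e true (nat_lit 1) (nat_lit 113) (nat_lit 5) (nat_lit 10) (.e false (nat_lit 1) (nat_lit 222) (nat_lit 0) (nat_lit 14) (.e false (nat_lit 1) (nat_lit 226) (nat_lit 0) (nat_lit 14) (.e true (nat_lit 1) (nat_lit 230) (nat_lit 0) (nat_lit 14) (.e true (nat_lit 1) (nat_lit 182) (nat_lit 3) (nat_lit 12) (.e true (nat_lit 1) (nat_lit 201) (nat_lit 2) (nat_lit 13) (.e false (nat_lit 1) (nat_lit 205) (nat_lit 2) (nat_lit 13) (.e true (nat_lit 1) (nat_lit 209) (nat_lit 2) (nat_lit 13) (.e true (nat_lit 1) (nat_lit 210) (nat_lit 2) (nat_lit 13) (.e false (nat_lit 1) (nat_lit 118) (nat_lit 5) (nat_lit 10) (.e false (nat_lit 1) (nat_lit 44) (nat_lit 18) (nat_lit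 2) (.e true (nat_lit 1) (nat_lit 151) (nat_lit 4) (nat_lit 11) (.e false (nat_lit 1) (nat_lit 155) (nat_lit 4) (nat_lit 11) (.e true (nat_lit 1) (nat_lit 159) (nat_lit 4) (nat_lit 11) (.e true (nat_lit 1) (nat_lit 186) (nat_lit 3) (nat_lit 12) .nil))))))))))))))))))) .leaf)) (nat_lit 49169) (nat_lit 750) (.p (nat_lit 452) (nat_lit 1) (.n (nat_lit 453) (nat_lit 2) (.n (nat_lit 454) (nat_lit 1) (.n (nat_lit 455) (nat_lit 1) (.p (nat_lit 456) (nat_lit 1) (.n (nat_lit 459) (nat_lit 1) (.n (nat_lit 460) (nat_lit 1) (.n (nat_lit 464) (nat_lit 1) (.p (nat_lit 465) (nat_lit 1) (.p (nat_lit 467) (nat_lit 1) (.p (nat_lit 468) (nat_lit 1) (.p (nat_lit 469) (nat_lit 1) (.n (nat_lit 471) (nat_lit 1) (.n (nat_lit 472) (nat_lit 1) (.p (nat_lit 474) (nat_lit 1) (.p (nat_lit 475) (nat_lit 1) (.p (nat_lit 476) (nat_lit 1) (.n (nat_lit 477) (nat_lit 1) (.p (nat_lit 480) (nat_lit 1) (.n (nat_lit 482) (nat_lit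 2) (.p (nat_lit 483) (nat_lit 1) (.p (nat_lit 484) (nat_lit 2) (.p (nat_lit 488) (nat_lit 2) (.n (nat_lit 490) (nat_lit 2) (.p (nat_lit 491) (nat_lit 1) (.n (nat_lit 492) (nat_lit 2) (.n (nat_lit 493) (nat_lit 2) (.p (nat_lit 494) (nat_lit 1) .z)))))))))))))))))))))))))))) (.ct dF4_c69905 (nat_lit 1) (nat_lit 3) (.s true (nat_lit 1) (nat_lit 11) (nat_lit 1) (nat_lit 4) (nat_lit 5) true (nat_lit 3) true (nat_lit 10) true (nat_lit 7) true (nat_lit 14) true (nat_lit 11) (.s true (nat_lit 1) (nat_lit 13) (nat_lit 2) (nat_lit 5) (nat_lit 3) true (nat_lit 7) true (nat_lit 12) true (nat_lit 6) true (nat_lit 13) true (nat_lit 10) (.s false (nat_lit 1) (nat_lit 18) (nat_lit 4) (nat_lit 3) (nat_lit 1) true (nat_lit 6) true (nat_lit 14) true (nat_lit 2) true (nat_lit 11) true (nat_lit 12) (.e true (nat_lit 1) (nat_lit 123) (nat_lit 5) (nat_lit 10) (.e false (nat_lit 1) (nat_lit 222) (nat_lit 1) (nat_lit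 14) (.e false (nat_lit 1) (nat_lit 226) (nat_lit 1) (nat_lit 14) (.e true (nat_lit 1) (nat_lit 230) (nat_lit 1) (nat_lit 14) (.e true (nat_lit 1) (nat_lit 192) (nat_lit 3) (nat_lit 12) (.e true (nat_lit 1) (nat_lit 211) (nat_lit 2) (nat_lit 13) (.e false (nat_lit 1) (nat_lit 215) (nat_lit 2) (nat_lit 13) (.e true (nat_lit 1) (nat_lit 219) (nat_lit 2) (nat_lit 13) (.e true (nat_lit 1) (nat_lit 220) (nat_lit 2) (nat_lit 13) (.e false (nat_lit 1) (nat_lit 128) (nat_lit 5) (nat_lit 10) (.e false (nat_lit 1) (nat_lit 47) (nat_lit 18) (nat_lit 2) (.e true (nat_lit 1) (nat_lit 161) (nat_lit 4) (nat_lit 11) (.e false (nat_lit 1) (nat_lit 165) (nat_lit 4) (nat_lit 11) (.e true (nat_lit 1) (nat_lit 169) (nat_lit 4) (nat_lit 11) (.e true (nat_lit 1) (nat_lit 196) (nat_lit 3) (nat_lit 12) .nil))))))))))))))))))) (.nd (.nd (.nd .leaf (nat_lit 50176) (nat_lit 130) (.p (nat_lit 112) (nat_lit 1) (.p (nat_lit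 113) (nat_lit 1) (.p (nat_lit 115) (nat_lit 1) (.p (nat_lit 116) (nat_lit 1) (.n (nat_lit 117) (nat_lit 1) (.n (nat_lit 118) (nat_lit 1) (.n (nat_lit 120) (nat_lit 1) .z))))))) (.ct dF4_c1052944 (nat_lit 1) (nat_lit 6) (.s true (nat_lit 1) (nat_lit 4) (nat_lit 0) (nat_lit 3) (nat_lit 2) true (nat_lit 2) true (nat_lit 5) true (nat_lit 3) true (nat_lit 6) true (nat_lit 4) (.s true (nat_lit 1) (nat_lit 4) (nat_lit 2) (nat_lit 3) (nat_lit 0) true (nat_lit 2) true (nat_lit 6) true (nat_lit 3) true (nat_lit 5) true (nat_lit 4) (.e true (nat_lit 1) (nat_lit 43) (nat_lit 2) (nat_lit 5) (.e false (nat_lit 1) (nat_lit 28) (nat_lit 4) (nat_lit 3) (.e true (nat_lit 1) (nat_lit 48) (nat_lit 0) (nat_lit 6) (.e false (nat_lit 1) (nat_lit 38) (nat_lit 3) (nat_lit 4) (.e false (nat_lit 1) (nat_lit 29) (nat_lit 4) (nat_lit 3) (.e true (nat_lit 1) (nat_lit 42) (nat_lit 2) (nat_lit 5) (.e false (nat_lit 1) (nat_lit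 37) (nat_lit 3) (nat_lit 4) .nil)))))))))) .leaf) (nat_lit 50177) (nat_lit 145) (.p (nat_lit 122) (nat_lit 1) (.p (nat_lit 123) (nat_lit 1) (.p (nat_lit 125) (nat_lit 1) (.p (nat_lit 126) (nat_lit 1) (.n (nat_lit 127) (nat_lit 1) (.n (nat_lit 128) (nat_lit 1) (.n (nat_lit 130) (nat_lit 1) .z))))))) (.ct dF4_c69904 (nat_lit 1) (nat_lit 6) (.s true (nat_lit 1) (nat_lit 4) (nat_lit 1) (nat_lit 3) (nat_lit 2) true (nat_lit 2) true (nat_lit 5) true (nat_lit 3) true (nat_lit 6) true (nat_lit 4) (.s true (nat_lit 1) (nat_lit 4) (nat_lit 2) (nat_lit 3) (nat_lit 1) true (nat_lit 2) true (nat_lit 6) true (nat_lit 3) true (nat_lit 5) true (nat_lit 4) (.e true (nat_lit 1) (nat_lit 46) (nat_lit 2) (nat_lit 5) (.e false (nat_lit 1) (nat_lit 31) (nat_lit 4) (nat_lit 3) (.e true (nat_lit 1) (nat_lit 48) (nat_lit 1) (nat_lit 6) (.e false (nat_lit 1) (nat_lit 41) (nat_lit 3) (nat_lit 4) (.e false (nat_lit 1)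 (nat_lit 32) (nat_lit 4) (nat_lit 3) (.e true (nat_lit 1) (nat_lit 45) (nat_lit 2) (nat_lit 5) (.e false (nat_lit 1) (nat_lit 40) (nat_lit 3) (nat_lit 4) .nil)))))))))) .leaf) (nat_lit 50181) (nat_lit 286) (.p (nat_lit 222) (nat_lit 1) .z) .df (.nd (.nd .leaf (nat_lit 50182) (nat_lit 378) (.n (nat_lit 234) (nat_lit 1) (.p (nat_lit 240) (nat_lit 1) (.p (nat_lit 250) (nat_lit 1) (.p (nat_lit 253) (nat_lit 1) (.n (nat_lit 254) (nat_lit 1) (.n (nat_lit 256) (nat_lit 1) (.p (nat_lit 274) (nat_lit 1) .z))))))) (.ct dF4_c1118480 (nat_lit 1) (nat_lit 9) (.s false (nat_lit 1) (nat_lit 6) (nat_lit 2) (nat_lit 4) (nat_lit 3) true (nat_lit 4) true (nat_lit 11) true (nat_lit 9) true (nat_lit 12) true (nat_lit 10) (.e false (nat_lit 1) (nat_lit 33) (nat_lit 11) (nat_lit 4) (.e false (nat_lit 1) (nat_lit 91) (nat_lit 3) (nat_lit 11) (.e false (nat_lit 1) (nat_lit 102) (nat_lit 2) (nat_lit 12) (.e false (nat_lit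 1) (nat_lit 106) (nat_lit 2) (nat_lit 12) (.e true (nat_lit 1) (nat_lit 108) (nat_lit 2) (nat_lit 12) (.e true (nat_lit 1) (nat_lit 110) (nat_lit 2) (nat_lit 12) (.e true (nat_lit 1) (nat_lit 84) (nat_lit 4) (nat_lit 10) .nil))))))))) .leaf) (nat_lit 50192) (nat_lit 679) (.p (nat_lit 409) (nat_lit 1) (.p (nat_lit 410) (nat_lit 1) (.p (nat_lit 411) (nat_lit 1) (.n (nat_lit 413) (nat_lit 1) (.n (nat_lit 414) (nat_lit 1) (.n (nat_lit 415) (nat_lit 1) (.p (nat_lit 418) (nat_lit 1) (.p (nat_lit 419) (nat_lit 1) (.p (nat_lit 420) (nat_lit 1) (.n (nat_lit 421) (nat_lit 1) (.n (nat_lit 422) (nat_lit 1) (.n (nat_lit 423) (nat_lit 1) (.n (nat_lit 424) (nat_lit 1) (.n (nat_lit 426) (nat_lit 1) (.n (nat_lit 429) (nat_lit 1) (.p (nat_lit 432) (nat_lit 1) (.p (nat_lit 435) (nat_lit 1) (.p (nat_lit 437) (nat_lit 1) (.n (nat_lit 441) (nat_lit 1) (.n (nat_lit 442) (nat_lit 1) (.n (nat_lit 443) (nat_lit 1) (.n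 (nat_lit 444) (nat_lit 1) (.p (nat_lit 445) (nat_lit 1) (.p (nat_lit 446) (nat_lit 1) (.p (nat_lit 447) (nat_lit 1) (.p (nat_lit 448) (nat_lit 1) (.p (nat_lit 449) (nat_lit 1) .z))))))))))))))))))))))))))) (.ct dF4_c1052945 (nat_lit 1) (nat_lit 3) (.s true (nat_lit 1) (nat_lit 14) (nat_lit 0) (nat_lit 3) (nat_lit 5) true (nat_lit 3) true (nat_lit 10) true (nat_lit 5) true (nat_lit 14) true (nat_lit 12) (.e true (nat_lit 1) (nat_lit 116) (nat_lit 5) (nat_lit 10) (.e false (nat_lit 1) (nat_lit 60) (nat_lit 14) (nat_lit 5) (.e false (nat_lit 1) (nat_lit 221) (nat_lit 0) (nat_lit 14) (.e true (nat_lit 1) (nat_lit 225) (nat_lit 0) (nat_lit 14) (.e false (nat_lit 1) (nat_lit 229) (nat_lit 0) (nat_lit 14) (.e false (nat_lit 1) (nat_lit 230) (nat_lit 0) (nat_lit 14) (.e false (nat_lit 1) (nat_lit 190) (nat_lit 3) (nat_lit 12) .nil))))))))) .leaf))))))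

noncomputable def dF4_t4 : Tr := (.nd (.nd (.nd (.nd (.nd (.nd (.nd .leaf (nat_lit 51200) (nat_lit 131) (.p (nat_lit 111) (nat_lit 1) (.n (nat_lit 113) (nat_lit 1) (.n (nat_lit 114) (nat_lit 1) (.n (nat_lit 115) (nat_lit 1) (.p (nat_lit 118) (nat_lit 1) (.p (nat_lit 119) (nat_lit 1) (.p (nat_lit 120) (nat_lit 1) .z))))))) (.ct dF4_c1052944 (nat_lit 1) (nat_lit 6) (.s false (nat_lit 1) (nat_lit 4) (nat_lit 2) (nat_lit 0) (nat_lit 3) true (nat_lit 0) true (nat_lit 4) true (nat_lit 3) true (nat_lit 5) true (nat_lit 6) (.s false (nat_lit 1) (nat_lit 4) (nat_lit 3) (nat_lit 0) (nat_lit 2) true (nat_lit 0) true (nat_lit 5) true (nat_lit 3) true (nat_lit 4) true (nat_lit 6) (.e false (nat_lit 1) (nat_lit 38) (nat_lit 3) (nat_lit 4) (.e false (nat_lit 1) (nat_lit 27) (nat_lit 4) (nat_lit 3) (.e true (nat_lit 1) (nat_lit 42) (nat_lit 2) (nat_lit 5) (.e false (nat_lit 1) (nat_lit 44) (nat_lit 2) (nat_lit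 5) (.e false (nat_lit 1) (nat_lit 28) (nat_lit 4) (nat_lit 3) (.e true (nat_lit 1) (nat_lit 36) (nat_lit 3) (nat_lit 4) (.e true (nat_lit 1) (nat_lit 49) (nat_lit 0) (nat_lit 6) .nil)))))))))) .leaf) (nat_lit 51201) (nat_lit 146) (.p (nat_lit 121) (nat_lit 1) (.n (nat_lit 123) (nat_lit 1) (.n (nat_lit 124) (nat_lit 1) (.n (nat_lit 125) (nat_lit 1) (.p (nat_lit 128) (nat_lit 1) (.p (nat_lit 129) (nat_lit 1) (.p (nat_lit 130) (nat_lit 1) .z))))))) (.ct dF4_c69904 (nat_lit 1) (nat_lit 6) (.s false (nat_lit 1) (nat_lit 4) (nat_lit 2) (nat_lit 1) (nat_lit 3) true (nat_lit 0) true (nat_lit 4) true (nat_lit 3) true (nat_lit 5) true (nat_lit 6) (.s false (nat_lit 1) (nat_lit 4) (nat_lit 3) (nat_lit 1) (nat_lit 2) true (nat_lit 0) true (nat_lit 5) true (nat_lit 3) true (nat_lit 4) true (nat_lit 6) (.e false (nat_lit 1) (nat_lit 41) (nat_lit 3) (nat_lit 4) (.e false (nat_lit 1) (nat_lit 30) (nat_lit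 4) (nat_lit 3) (.e true (nat_lit 1) (nat_lit 45) (nat_lit 2) (nat_lit 5) (.e false (nat_lit 1) (nat_lit 47) (nat_lit 2) (nat_lit 5) (.e false (nat_lit 1) (nat_lit 31) (nat_lit 4) (nat_lit 3) (.e true (nat_lit 1) (nat_lit 39) (nat_lit 3) (nat_lit 4) (.e true (nat_lit 1) (nat_lit 49) (nat_lit 1) (nat_lit 6) .nil)))))))))) .leaf) (nat_lit 51205) (nat_lit 287) (.p (nat_lit 223) (nat_lit 1) .z) .df (.nd (.nd .leaf (nat_lit 51206) (nat_lit 379) (.n (nat_lit 231) (nat_lit 1) (.p (nat_lit 241) (nat_lit 1) (.p (nat_lit 244) (nat_lit 1) (.n (nat_lit 246) (nat_lit 1) (.n (nat_lit 248) (nat_lit 1) (.p (nat_lit 249) (nat_lit 1) (.n (nat_lit 274) (nat_lit 1) .z))))))) (.ct dF4_c1118480 (nat_lit 1) (nat_lit 9) (.s false (nat_lit 1) (nat_lit 6) (nat_lit 3) (nat_lit 4) (nat_lit 2) true (nat_lit 4) true (nat_lit 12) true (nat_lit 9) true (nat_lit 11) true (nat_lit 10) (.e true (nat_lit 1) (nat_lit 33) (nat_lit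 11) (nat_lit 4) (.e false (nat_lit 1) (nat_lit 101) (nat_lit 2) (nat_lit 12) (.e false (nat_lit 1) (nat_lit 92) (nat_lit 3) (nat_lit 11) (.e false (nat_lit 1) (nat_lit 96) (nat_lit 3) (nat_lit 11) (.e true (nat_lit 1) (nat_lit 98) (nat_lit 3) (nat_lit 11) (.e true (nat_lit 1) (nat_lit 100) (nat_lit 3) (nat_lit 11) (.e true (nat_lit 1) (nat_lit 81) (nat_lit 4) (nat_lit 10) .nil))))))))) .leaf) (nat_lit 51216) (nat_lit 674) (.n (nat_lit 407) (nat_lit 1) (.p (nat_lit 409) (nat_lit 1) (.p (nat_lit 410) (nat_lit 1) (.p (nat_lit 411) (nat_lit 2) (.n (nat_lit 414) (nat_lit 2) (.n (nat_lit 415) (nat_lit 1) (.n (nat_lit 416) (nat_lit 1) (.p (nat_lit 419) (nat_lit 1) (.n (nat_lit 423) (nat_lit 2) (.n (nat_lit 424) (nat_lit 1) (.n (nat_lit 425) (nat_lit 1) (.n (nat_lit 426) (nat_lit 1) (.p (nat_lit 428) (nat_lit 1) (.n (nat_lit 429) (nat_lit 1) (.n (nat_lit 431) (nat_lit 1) (.n (nat_lit 432) (nat_lit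 1) (.n (nat_lit 433) (nat_lit 1) (.n (nat_lit 436) (nat_lit 1) (.p (nat_lit 437) (nat_lit 1) (.n (nat_lit 439) (nat_lit 1) (.n (nat_lit 441) (nat_lit 1) (.n (nat_lit 442) (nat_lit 1) (.n (nat_lit 444) (nat_lit 1) (.p (nat_lit 445) (nat_lit 1) (.p (nat_lit 446) (nat_lit 2) (.p (nat_lit 448) (nat_lit 1) (.p (nat_lit 449) (nat_lit 1) .z))))))))))))))))))))))))))) (.ct dF4_c1052945 (nat_lit 1) (nat_lit 3) (.s true (nat_lit 1) (nat_lit 15) (nat_lit 0) (nat_lit 2) (nat_lit 5) true (nat_lit 3) true (nat_lit 10) true (nat_lit 4) true (nat_lit 14) true (nat_lit 13) (.e true (nat_lit 1) (nat_lit 119) (nat_lit 5) (nat_lit 10) (.e false (nat_lit 1) (nat_lit 54) (nat_lit 15) (nat_lit 4) (.e true (nat_lit 1) (nat_lit 223) (nat_lit 0) (nat_lit 14) (.e true (nat_lit 1) (nat_lit 224) (nat_lit 0) (nat_lit 14) (.e true (nat_lit 1) (nat_lit 225) (nat_lit 0) (nat_lit 14) (.e true (nat_lit 1) (nat_lit 226) (nat_lit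 0) (nat_lit 14) (.e false (nat_lit 1) (nat_lit 227) (nat_lit 0) (nat_lit 14) (.e false (nat_lit 1) (nat_lit 228) (nat_lit 0) (nat_lit 14) (.e false (nat_lit 1) (nat_lit 229) (nat_lit 0) (nat_lit 14) (.e false (nat_lit 1) (nat_lit 230) (nat_lit 0) (nat_lit 14) (.e false (nat_lit 1) (nat_lit 210) (nat_lit 2) (nat_lit 13) .nil))))))))))))) .leaf)) (nat_lit 51217) (nat_lit 752) (.n (nat_lit 451) (nat_lit 1) (.p (nat_lit 453) (nat_lit 1) (.p (nat_lit 454) (nat_lit 1) (.p (nat_lit 455) (nat_lit 2) (.n (nat_lit 458) (nat_lit 2) (.n (nat_lit 459) (nat_lit 1) (.n (nat_lit 460) (nat_lit 1) (.p (nat_lit 463) (nat_lit 1) (.n (nat_lit 467) (nat_lit 2) (.n (nat_lit 468) (nat_lit 1) (.n (nat_lit 469) (nat_lit 1) (.n (nat_lit 470) (nat_lit 1) (.p (nat_lit 472) (nat_lit 1) (.n (nat_lit 473) (nat_lit 1) (.n (nat_lit 475) (nat_lit 1) (.n (nat_lit 476) (nat_lit 1) (.n (nat_lit 477) (nat_lit 1) (.n (nat_lit 480)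 (nat_lit 1) (.p (nat_lit 481) (nat_lit 1) (.n (nat_lit 483) (nat_lit 1) (.n (nat_lit 485) (nat_lit 1) (.n (nat_lit 486) (nat_lit 1) (.n (nat_lit 488) (nat_lit 1) (.p (nat_lit 489) (nat_lit 1) (.p (nat_lit 490) (nat_lit 2) (.p (nat_lit 492) (nat_lit 1) (.p (nat_lit 493) (nat_lit 1) .z))))))))))))))))))))))))))) (.ct dF4_c69905 (nat_lit 1) (nat_lit 3) (.s true (nat_lit 1) (nat_lit 15) (nat_lit 1) (nat_lit 2) (nat_lit 5) true (nat_lit 3) true (nat_lit 10) true (nat_lit 4) true (nat_lit 14) true (nat_lit 13) (.e true (nat_lit 1) (nat_lit 129) (nat_lit 5) (nat_lit 10) (.e false (nat_lit 1) (nat_lit 57) (nat_lit 15) (nat_lit 4) (.e true (nat_lit 1) (nat_lit 223) (nat_lit 1) (nat_lit 14) (.e true (nat_lit 1) (nat_lit 224) (nat_lit 1) (nat_lit 14) (.e true (nat_lit 1) (nat_lit 225) (nat_lit 1) (nat_lit 14) (.e true (nat_lit 1) (nat_lit 226) (nat_lit 1) (nat_lit 14) (.e false (nat_lit 1) (nat_lit 227)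 (nat_lit 1) (nat_lit 14) (.e false (nat_lit 1) (nat_lit 228) (nat_lit 1) (nat_lit 14) (.e false (nat_lit 1) (nat_lit 229) (nat_lit 1) (nat_lit 14) (.e false (nat_lit 1) (nat_lit 230) (nat_lit 1) (nat_lit 14) (.e false (nat_lit 1) (nat_lit 220) (nat_lit 2) (nat_lit 13) .nil))))))))))))) (.nd (.nd (.nd .leaf (nat_lit 52226) (nat_lit 153) (.p (nat_lit 134) (nat_lit 1) .z) .df .leaf) (nat_lit 52227) (nat_lit 168) (.p (nat_lit 144) (nat_lit 1) .z) .df .leaf) (nat_lit 52228) (nat_lit 213) (.p (nat_lit 174) (nat_lit 1) .z) .df (.nd (.nd .leaf (nat_lit 52235) (nat_lit 423) (.p (nat_lit 318) (nat_lit 1) .z) .df .leaf) (nat_lit 52238) (nat_lit 502) (.p (nat_lit 362) (nat_lit 1) .z) .df .leaf))) (nat_lit 52239) (nat_lit 581) (.p (nat_lit 406) (nat_lit 1) .z) .df (.nd (.nd (.nd (.nd .leaf (nat_lit 53250) (nat_lit 154) (.p (nat_lit 135) (nat_lit 1) .z) .df .leaf) (nat_lit 53251) (nat_lit 169) (.p (nat_lit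 145) (nat_lit 1) .z) .df .leaf) (nat_lit 53252) (nat_lit 214) (.p (nat_lit 175) (nat_lit 1) .z) .df (.nd (.nd .leaf (nat_lit 53259) (nat_lit 446) (.n (nat_lit 277) (nat_lit 1) (.n (nat_lit 278) (nat_lit 1) (.n (nat_lit 279) (nat_lit 1) (.n (nat_lit 287) (nat_lit 1) (.n (nat_lit 288) (nat_lit 1) (.p (nat_lit 289) (nat_lit 1) (.p (nat_lit 291) (nat_lit 2) (.p (nat_lit 292) (nat_lit 1) (.p (nat_lit 293) (nat_lit 1) (.p (nat_lit 294) (nat_lit 1) (.n (nat_lit 295) (nat_lit 1) (.n (nat_lit 296) (nat_lit 1) (.p (nat_lit 297) (nat_lit 1) (.p (nat_lit 298) (nat_lit 1) (.p (nat_lit 299) (nat_lit 1) (.p (nat_lit 300) (nat_lit 1) (.p (nat_lit 304) (nat_lit 1) (.n (nat_lit 305) (nat_lit 1) (.n (nat_lit 306) (nat_lit 1) (.p (nat_lit 307) (nat_lit 1) (.p (nat_lit 308) (nat_lit 1) (.p (nat_lit 309) (nat_lit 1) (.p (nat_lit 312) (nat_lit 1) (.n (nat_lit 314) (nat_lit 2) (.p (nat_lit 315) (nat_lit 1) (.n (nat_lit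 316) (nat_lit 1) (.n (nat_lit 317) (nat_lit 2) (.p (nat_lit 318) (nat_lit 1) .z)))))))))))))))))))))))))))) (.ct dF4_c1118465 (nat_lit 1) (nat_lit 4) (.s true (nat_lit 1) (nat_lit 11) (nat_lit 5) (nat_lit 0) (nat_lit 1) true (nat_lit 2) true (nat_lit 13) true (nat_lit 4) true (nat_lit 10) true (nat_lit 14) (.e false (nat_lit 1) (nat_lit 29) (nat_lit 17) (nat_lit 2) (.e true (nat_lit 1) (nat_lit 160) (nat_lit 1) (nat_lit 13) (.e true (nat_lit 1) (nat_lit 82) (nat_lit 5) (nat_lit 10) (.e true (nat_lit 1) (nat_lit 86) (nat_lit 5) (nat_lit 10) (.e false (nat_lit 1) (nat_lit 88) (nat_lit 5) (nat_lit 10) (.e false (nat_lit 1) (nat_lit 90) (nat_lit 5) (nat_lit 10) (.e false (nat_lit 1) (nat_lit 163) (nat_lit 0) (nat_lit 14) .nil))))))))) .leaf) (nat_lit 53262) (nat_lit 525) (.n (nat_lit 321) (nat_lit 1) (.n (nat_lit 322) (nat_lit 1) (.n (nat_lit 323) (nat_lit 1) (.n (nat_lit 331) (nat_lit 1) (.n (nat_lit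 332) (nat_lit 1) (.p (nat_lit 333) (nat_lit 1) (.p (nat_lit 335) (nat_lit 2) (.p (nat_lit 336) (nat_lit 1) (.p (nat_lit 337) (nat_lit 1) (.p (nat_lit 338) (nat_lit 1) (.n (nat_lit 339) (nat_lit 1) (.n (nat_lit 340) (nat_lit 1) (.p (nat_lit 341) (nat_lit 1) (.p (nat_lit 342) (nat_lit 1) (.p (nat_lit 343) (nat_lit 1) (.p (nat_lit 344) (nat_lit 1) (.p (nat_lit 348) (nat_lit 1) (.n (nat_lit 349) (nat_lit 1) (.n (nat_lit 350) (nat_lit 1) (.p (nat_lit 351) (nat_lit 1) (.p (nat_lit 352) (nat_lit 1) (.p (nat_lit 353) (nat_lit 1) (.p (nat_lit 356) (nat_lit 1) (.n (nat_lit 358) (nat_lit 2) (.p (nat_lit 359) (nat_lit 1) (.n (nat_lit 360) (nat_lit 1) (.n (nat_lit 361) (nat_lit 2) (.p (nat_lit 362) (nat_lit 1) .z)))))))))))))))))))))))))))) (.ct dF4_c1118225 (nat_lit 1) (nat_lit 4) (.s true (nat_lit 1) (nat_lit 14) (nat_lit 5) (nat_lit 0) (nat_lit 1) true (nat_lit 2) true (nat_lit 13) true (nat_lit 4) true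 (nat_lit 10) true (nat_lit 14) (.e false (nat_lit 1) (nat_lit 38) (nat_lit 17) (nat_lit 2) (.e true (nat_lit 1) (nat_lit 190) (nat_lit 1) (nat_lit 13) (.e true (nat_lit 1) (nat_lit 92) (nat_lit 5) (nat_lit 10) (.e true (nat_lit 1) (nat_lit 96) (nat_lit 5) (nat_lit 10) (.e false (nat_lit 1) (nat_lit 98) (nat_lit 5) (nat_lit 10) (.e false (nat_lit 1) (nat_lit 100) (nat_lit 5) (nat_lit 10) (.e false (nat_lit 1) (nat_lit 193) (nat_lit 0) (nat_lit 14) .nil))))))))) .leaf)) (nat_lit 53263) (nat_lit 604) (.n (nat_lit 365) (nat_lit 1) (.n (nat_lit 366) (nat_lit 1) (.n (nat_lit 367) (nat_lit 1) (.n (nat_lit 375) (nat_lit 1) (.n (nat_lit 376) (nat_lit 1) (.p (nat_lit 377) (nat_lit 1) (.p (nat_lit 379) (nat_lit 2) (.p (nat_lit 380) (nat_lit 1) (.p (nat_lit 381) (nat_lit 1) (.p (nat_lit 382) (nat_lit 1) (.n (nat_lit 383) (nat_lit 1) (.n (nat_lit 384) (nat_lit 1) (.p (nat_lit 385) (nat_lit 1) (.p (nat_lit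 386) (nat_lit 1) (.p (nat_lit 387) (nat_lit 1) (.p (nat_lit 388) (nat_lit 1) (.p (nat_lit 392) (nat_lit 1) (.n (nat_lit 393) (nat_lit 1) (.n (nat_lit 394) (nat_lit 1) (.p (nat_lit 395) (nat_lit 1) (.p (nat_lit 396) (nat_lit 1) (.p (nat_lit 397) (nat_lit 1) (.p (nat_lit 400) (nat_lit 1) (.n (nat_lit 402) (nat_lit 2) (.p (nat_lit 403) (nat_lit 1) (.n (nat_lit 404) (nat_lit 1) (.n (nat_lit 405) (nat_lit 2) (.p (nat_lit 406) (nat_lit 1) .z)))))))))))))))))))))))))))) (.ct dF4_c1114385 (nat_lit 1) (nat_lit 4) (.s true (nat_lit 1) (nat_lit 15) (nat_lit 5) (nat_lit 0) (nat_lit 1) true (nat_lit 2) true (nat_lit 13) true (nat_lit 4) true (nat_lit 10) true (nat_lit 14) (.e false (nat_lit 1) (nat_lit 44) (nat_lit 17) (nat_lit 2) (.e true (nat_lit 1) (nat_lit 210) (nat_lit 1) (nat_lit 13) (.e true (nat_lit 1) (nat_lit 102) (nat_lit 5) (nat_lit 10) (.e true (nat_lit 1) (nat_lit 106) (nat_lit 5) (nat_lit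 10) (.e false (nat_lit 1) (nat_lit 108) (nat_lit 5) (nat_lit 10) (.e false (nat_lit 1) (nat_lit 110) (nat_lit 5) (nat_lit 10) (.e false (nat_lit 1) (nat_lit 213) (nat_lit 0) (nat_lit 14) .nil))))))))) (.nd (.nd (.nd .leaf (nat_lit 54274) (nat_lit 155) (.p (nat_lit 136) (nat_lit 1) .z) .df .leaf) (nat_lit 54275) (nat_lit 170) (.p (nat_lit 146) (nat_lit 1) .z) .df .leaf) (nat_lit 54276) (nat_lit 215) (.p (nat_lit 176) (nat_lit 1) .z) .df (.nd (.nd .leaf (nat_lit 54283) (nat_lit 447) (.n (nat_lit 275) (nat_lit 1) (.p (nat_lit 276) (nat_lit 1) (.p (nat_lit 277) (nat_lit 1) (.p (nat_lit 278) (nat_lit 1) (.p (nat_lit 279) (nat_lit 2) (.p (nat_lit 280) (nat_lit 1) (.n (nat_lit 281) (nat_lit 1) (.n (nat_lit 282) (nat_lit 2) (.n (nat_lit 283) (nat_lit 2) (.n (nat_lit 284) (nat_lit 1) (.p (nat_lit 287) (nat_lit 1) (.n (nat_lit 291) (nat_lit 2) (.n (nat_lit 292) (nat_lit 1) (.n (nat_lit 293) (nat_lit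 1) (.n (nat_lit 294) (nat_lit 1) (.p (nat_lit 296) (nat_lit 1) (.n (nat_lit 297) (nat_lit 1) (.n (nat_lit 299) (nat_lit 1) (.n (nat_lit 300) (nat_lit 1) (.n (nat_lit 301) (nat_lit 1) (.p (nat_lit 303) (nat_lit 1) (.n (nat_lit 304) (nat_lit 1) (.p (nat_lit 305) (nat_lit 1) (.n (nat_lit 307) (nat_lit 1) (.n (nat_lit 309) (nat_lit 1) (.n (nat_lit 310) (nat_lit 1) (.n (nat_lit 312) (nat_lit 1) (.p (nat_lit 313) (nat_lit 1) (.p (nat_lit 314) (nat_lit 2) (.p (nat_lit 317) (nat_lit 1) .z)))))))))))))))))))))))))))))) (.ct dF4_c1118465 (nat_lit 1) (nat_lit 4) (.s true (nat_lit 1) (nat_lit 11) (nat_lit 5) (nat_lit 1) (nat_lit 0) true (nat_lit 3) true (nat_lit 14) true (nat_lit 4) true (nat_lit 10) true (nat_lit 13) (.e false (nat_lit 1) (nat_lit 32) (nat_lit 16) (nat_lit 3) (.e true (nat_lit 1) (nat_lit 170) (nat_lit 0) (nat_lit 14) (.e false (nat_lit 1) (nat_lit 82) (nat_lit 5) (nat_lit 10) (.e false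 (nat_lit 1) (nat_lit 86) (nat_lit 5) (nat_lit 10) (.e true (nat_lit 1) (nat_lit 88) (nat_lit 5) (nat_lit 10) (.e true (nat_lit 1) (nat_lit 90) (nat_lit 5) (nat_lit 10) (.e false (nat_lit 1) (nat_lit 153) (nat_lit 1) (nat_lit 13) .nil))))))))) .leaf) (nat_lit 54286) (nat_lit 526) (.n (nat_lit 319) (nat_lit 1) (.p (nat_lit 320) (nat_lit 1) (.p (nat_lit 321) (nat_lit 1) (.p (nat_lit 322) (nat_lit 1) (.p (nat_lit 323) (nat_lit 2) (.p (nat_lit 324) (nat_lit 1) (.n (nat_lit 325) (nat_lit 1) (.n (nat_lit 326) (nat_lit 2) (.n (nat_lit 327) (nat_lit 2) (.n (nat_lit 328) (nat_lit 1) (.p (nat_lit 331) (nat_lit 1) (.n (nat_lit 335) (nat_lit 2) (.n (nat_lit 336) (nat_lit 1) (.n (nat_lit 337) (nat_lit 1) (.n (nat_lit 338) (nat_lit 1) (.p (nat_lit 340) (nat_lit 1) (.n (nat_lit 341) (nat_lit 1) (.n (nat_lit 343) (nat_lit 1) (.n (nat_lit 344) (nat_lit 1) (.n (nat_lit 345) (nat_lit 1) (.p (nat_lit 347) (nat_lit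 1) (.n (nat_lit 348) (nat_lit 1) (.p (nat_lit 349) (nat_lit 1) (.n (nat_lit 351) (nat_lit 1) (.n (nat_lit 353) (nat_lit 1) (.n (nat_lit 354) (nat_lit 1) (.n (nat_lit 356) (nat_lit 1) (.p (nat_lit 357) (nat_lit 1) (.p (nat_lit 358) (nat_lit 2) (.p (nat_lit 361) (nat_lit 1) .z)))))))))))))))))))))))))))))) (.ct dF4_c1118225 (nat_lit 1) (nat_lit 4) (.s true (nat_lit 1) (nat_lit 14) (nat_lit 5) (nat_lit 1) (nat_lit 0) true (nat_lit 3) true (nat_lit 14) true (nat_lit 4) true (nat_lit 10) true (nat_lit 13) (.e false (nat_lit 1) (nat_lit 41) (nat_lit 16) (nat_lit 3) (.e true (nat_lit 1) (nat_lit 200) (nat_lit 0) (nat_lit 14) (.e false (nat_lit 1) (nat_lit 92) (nat_lit 5) (nat_lit 10) (.e false (nat_lit 1) (nat_lit 96) (nat_lit 5) (nat_lit 10) (.e true (nat_lit 1) (nat_lit 98) (nat_lit 5) (nat_lit 10) (.e true (nat_lit 1) (nat_lit 100) (nat_lit 5) (nat_lit 10) (.e false (nat_lit 1) (nat_lit 183) (nat_lit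 1) (nat_lit 13) .nil))))))))) .leaf)))) (nat_lit 54287) (nat_lit 605) (.n (nat_lit 363) (nat_lit 1) (.p (nat_lit 364) (nat_lit 1) (.p (nat_lit 365) (nat_lit 1) (.p (nat_lit 366) (nat_lit 1) (.p (nat_lit 367) (nat_lit 2) (.p (nat_lit 368) (nat_lit 1) (.n (nat_lit 369) (nat_lit 1) (.n (nat_lit 370) (nat_lit 2) (.n (nat_lit 371) (nat_lit 2) (.n (nat_lit 372) (nat_lit 1) (.p (nat_lit 375) (nat_lit 1) (.n (nat_lit 379) (nat_lit 2) (.n (nat_lit 380) (nat_lit 1) (.n (nat_lit 381) (nat_lit 1) (.n (nat_lit 382) (nat_lit 1) (.p (nat_lit 384) (nat_lit 1) (.n (nat_lit 385) (nat_lit 1) (.n (nat_lit 387) (nat_lit 1) (.n (nat_lit 388) (nat_lit 1) (.n (nat_lit 389) (nat_lit 1) (.p (nat_lit 391) (nat_lit 1) (.n (nat_lit 392) (nat_lit 1) (.p (nat_lit 393) (nat_lit 1) (.n (nat_lit 395) (nat_lit 1) (.n (nat_lit 397) (nat_lit 1) (.n (nat_lit 398) (nat_lit 1) (.n (nat_lit 400) (nat_lit 1) (.p (nat_lit 401) (nat_lit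 1) (.p (nat_lit 402) (nat_lit 2) (.p (nat_lit 405) (nat_lit 1) .z)))))))))))))))))))))))))))))) (.ct dF4_c1114385 (nat_lit 1) (nat_lit 4) (.s true (nat_lit 1) (nat_lit 15) (nat_lit 5) (nat_lit 1) (nat_lit 0) true (nat_lit 3) true (nat_lit 14) true (nat_lit 4) true (nat_lit 10) true (nat_lit 13) (.e false (nat_lit 1) (nat_lit 47) (nat_lit 16) (nat_lit 3) (.e true (nat_lit 1) (nat_lit 220) (nat_lit 0) (nat_lit 14) (.e false (nat_lit 1) (nat_lit 102) (nat_lit 5) (nat_lit 10) (.e false (nat_lit 1) (nat_lit 106) (nat_lit 5) (nat_lit 10) (.e true (nat_lit 1) (nat_lit 108) (nat_lit 5) (nat_lit 10) (.e true (nat_lit 1) (nat_lit 110) (nat_lit 5) (nat_lit 10) (.e false (nat_lit 1) (nat_lit 203) (nat_lit 1) (nat_lit 13) .nil))))))))) (.nd (.nd (.nd (.nd (.nd .leaf (nat_lit 55297) (nat_lit 156) (.p (nat_lit 137) (nat_lit 1) .z) .df .leaf) (nat_lit 55299) (nat_lit 183) (.p (nat_lit 154) (nat_lit 1) .z)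 .df .leaf) (nat_lit 55300) (nat_lit 228) (.p (nat_lit 184) (nat_lit 1) .z) .df (.nd (.nd .leaf (nat_lit 55306) (nat_lit 424) (.p (nat_lit 277) (nat_lit 1) (.p (nat_lit 278) (nat_lit 1) (.p (nat_lit 279) (nat_lit 1) (.p (nat_lit 280) (nat_lit 1) (.n (nat_lit 281) (nat_lit 1) (.n (nat_lit 282) (nat_lit 1) (.n (nat_lit 283) (nat_lit 1) (.p (nat_lit 286) (nat_lit 1) (.p (nat_lit 287) (nat_lit 1) (.p (nat_lit 288) (nat_lit 1) (.n (nat_lit 289) (nat_lit 1) (.n (nat_lit 290) (nat_lit 1) (.n (nat_lit 291) (nat_lit 1) (.n (nat_lit 292) (nat_lit 1) (.n (nat_lit 294) (nat_lit 1) (.n (nat_lit 297) (nat_lit 1) (.p (nat_lit 303) (nat_lit 1) (.p (nat_lit 305) (nat_lit 1) (.n (nat_lit 307) (nat_lit 1) (.n (nat_lit 309) (nat_lit 1) (.n (nat_lit 310) (nat_lit 1) (.n (nat_lit 312) (nat_lit 1) (.p (nat_lit 313) (nat_lit 1) (.p (nat_lit 314) (nat_lit 1) (.p (nat_lit 317) (nat_lit 1) .z)))))))))))))))))))))))))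 (.ct dF4_c1118465 (nat_lit 1) (nat_lit 5) (.s false (nat_lit 1) (nat_lit 6) (nat_lit 2) (nat_lit 3) (nat_lit 5) true (nat_lit 1) true (nat_lit 10) true (nat_lit 9) true (nat_lit 12) true (nat_lit 11) (.s false (nat_lit 1) (nat_lit 10) (nat_lit 0) (nat_lit 2) (nat_lit 5) true (nat_lit 3) true (nat_lit 10) true (nat_lit 5) true (nat_lit 14) true (nat_lit 12) (.s false (nat_lit 1) (nat_lit 11) (nat_lit 0) (nat_lit 5) (nat_lit 1) true (nat_lit 9) true (nat_lit 13) true (nat_lit 4) true (nat_lit 14) true (nat_lit 10) (.s true (nat_lit 1) (nat_lit 16) (nat_lit 3) (nat_lit 1) (nat_lit 2) true (nat_lit 4) true (nat_lit 12) true (nat_lit 3) true (nat_lit 11) true (nat_lit 13) dF4_i6))))) .leaf) (nat_lit 55309) (nat_lit 503) (.p (nat_lit 321) (nat_lit 1) (.p (nat_lit 322) (nat_lit 1) (.p (nat_lit 323) (nat_lit 1) (.p (nat_lit 324) (nat_lit 1) (.n (nat_lit 325) (nat_lit 1) (.n (nat_lit 326) (nat_lit 1)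 (.n (nat_lit 327) (nat_lit 1) (.p (nat_lit 330) (nat_lit 1) (.p (nat_lit 331) (nat_lit 1) (.p (nat_lit 332) (nat_lit 1) (.n (nat_lit 333) (nat_lit 1) (.n (nat_lit 334) (nat_lit 1) (.n (nat_lit 335) (nat_lit 1) (.n (nat_lit 336) (nat_lit 1) (.n (nat_lit 338) (nat_lit 1) (.n (nat_lit 341) (nat_lit 1) (.p (nat_lit 347) (nat_lit 1) (.p (nat_lit 349) (nat_lit 1) (.n (nat_lit 351) (nat_lit 1) (.n (nat_lit 353) (nat_lit 1) (.n (nat_lit 354) (nat_lit 1) (.n (nat_lit 356) (nat_lit 1) (.p (nat_lit 357) (nat_lit 1) (.p (nat_lit 358) (nat_lit 1) (.p (nat_lit 361) (nat_lit 1) .z))))))))))))))))))))))))) (.ct dF4_c1118225 (nat_lit 1) (nat_lit 5) (.s false (nat_lit 1) (nat_lit 6) (nat_lit 2) (nat_lit 4) (nat_lit 5) true (nat_lit 1) true (nat_lit 10) true (nat_lit 9) true (nat_lit 12) true (nat_lit 11) (.s false (nat_lit 1) (nat_lit 13) (nat_lit 0) (nat_lit 2) (nat_lit 5) true (nat_lit 3) true (nat_lit 10)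 true (nat_lit 5) true (nat_lit 14) true (nat_lit 12) (.s false (nat_lit 1) (nat_lit 14) (nat_lit 0) (nat_lit 5) (nat_lit 1) true (nat_lit 9) true (nat_lit 13) true (nat_lit 4) true (nat_lit 14) true (nat_lit 10) (.s true (nat_lit 1) (nat_lit 16) (nat_lit 4) (nat_lit 1) (nat_lit 2) true (nat_lit 4) true (nat_lit 12) true (nat_lit 3) true (nat_lit 11) true (nat_lit 13) dF4_i12))))) .leaf)) (nat_lit 55311) (nat_lit 659) (.p (nat_lit 450) (nat_lit 1) .z) .df (.nd (.nd (.nd .leaf (nat_lit 56321) (nat_lit 157) (.p (nat_lit 138) (nat_lit 1) .z) .df .leaf) (nat_lit 56323) (nat_lit 184) (.p (nat_lit 155) (nat_lit 1) .z) .df .leaf) (nat_lit 56324) (nat_lit 229) (.p (nat_lit 185) (nat_lit 1) .z) .df (.nd (.nd .leaf (nat_lit 56330) (nat_lit 448) (.n (nat_lit 277) (nat_lit 1) (.n (nat_lit 279) (nat_lit 1) (.n (nat_lit 287) (nat_lit 1) (.p (nat_lit 291) (nat_lit 1) (.p (nat_lit 292) (nat_lit 1) (.p (nat_lit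 293) (nat_lit 1) (.n (nat_lit 296) (nat_lit 1) (.p (nat_lit 298) (nat_lit 1) (.p (nat_lit 299) (nat_lit 1) (.p (nat_lit 300) (nat_lit 1) (.p (nat_lit 304) (nat_lit 1) (.n (nat_lit 306) (nat_lit 1) (.p (nat_lit 307) (nat_lit 1) (.p (nat_lit 308) (nat_lit 1) (.n (nat_lit 311) (nat_lit 1) (.p (nat_lit 312) (nat_lit 1) (.n (nat_lit 314) (nat_lit 1) (.p (nat_lit 315) (nat_lit 1) (.n (nat_lit 317) (nat_lit 1) .z))))))))))))))))))) (.ct dF4_c1118465 (nat_lit 1) (nat_lit 5) (.s true (nat_lit 1) (nat_lit 10) (nat_lit 5) (nat_lit 0) (nat_lit 2) true (nat_lit 1) true (nat_lit 12) true (nat_lit 5) true (nat_lit 10) true (nat_lit 14) (.e false (nat_lit 1) (nat_lit 26) (nat_lit 18) (nat_lit 1) (.e true (nat_lit 1) (nat_lit 150) (nat_lit 2) (nat_lit 12) (.e true (nat_lit 1) (nat_lit 81) (nat_lit 5) (nat_lit 10) (.e false (nat_lit 1) (nat_lit 85) (nat_lit 5) (nat_lit 10) (.e true (nat_lit 1) (nat_lit 89) (nat_lit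 5) (nat_lit 10) (.e true (nat_lit 1) (nat_lit 90) (nat_lit 5) (nat_lit 10) (.e false (nat_lit 1) (nat_lit 162) (nat_lit 0) (nat_lit 14) .nil))))))))) .leaf) (nat_lit 56333) (nat_lit 527) (.n (nat_lit 321) (nat_lit 1) (.n (nat_lit 323) (nat_lit 1) (.n (nat_lit 331) (nat_lit 1) (.p (nat_lit 335) (nat_lit 1) (.p (nat_lit 336) (nat_lit 1) (.p (nat_lit 337) (nat_lit 1) (.n (nat_lit 340) (nat_lit 1) (.p (nat_lit 342) (nat_lit 1) (.p (nat_lit 343) (nat_lit 1) (.p (nat_lit 344) (nat_lit 1) (.p (nat_lit 348) (nat_lit 1) (.n (nat_lit 350) (nat_lit 1) (.p (nat_lit 351) (nat_lit 1) (.p (nat_lit 352) (nat_lit 1) (.n (nat_lit 355) (nat_lit 1) (.p (nat_lit 356) (nat_lit 1) (.n (nat_lit 358) (nat_lit 1) (.p (nat_lit 359) (nat_lit 1) (.n (nat_lit 361) (nat_lit 1) .z))))))))))))))))))) (.ct dF4_c1118225 (nat_lit 1) (nat_lit 5) (.s true (nat_lit 1) (nat_lit 13) (nat_lit 5) (nat_lit 0) (nat_lit 2) true (nat_lit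 1) true (nat_lit 12) true (nat_lit 5) true (nat_lit 10) true (nat_lit 14) (.e false (nat_lit 1) (nat_lit 35) (nat_lit 18) (nat_lit 1) (.e true (nat_lit 1) (nat_lit 180) (nat_lit 2) (nat_lit 12) (.e true (nat_lit 1) (nat_lit 91) (nat_lit 5) (nat_lit 10) (.e false (nat_lit 1) (nat_lit 95) (nat_lit 5) (nat_lit 10) (.e true (nat_lit 1) (nat_lit 99) (nat_lit 5) (nat_lit 10) (.e true (nat_lit 1) (nat_lit 100) (nat_lit 5) (nat_lit 10) (.e false (nat_lit 1) (nat_lit 192) (nat_lit 0) (nat_lit 14) .nil))))))))) .leaf))) (nat_lit 56335) (nat_lit 682) (.n (nat_lit 409) (nat_lit 1) (.n (nat_lit 410) (nat_lit 1) (.n (nat_lit 411) (nat_lit 1) (.n (nat_lit 419) (nat_lit 1) (.n (nat_lit 420) (nat_lit 1) (.p (nat_lit 421) (nat_lit 1) (.p (nat_lit 423) (nat_lit 2) (.p (nat_lit 424) (nat_lit 1) (.p (nat_lit 425) (nat_lit 1) (.p (nat_lit 426) (nat_lit 1) (.n (nat_lit 427) (nat_lit 1) (.n (nat_lit 428) (nat_lit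 1) (.p (nat_lit 429) (nat_lit 1) (.p (nat_lit 430) (nat_lit 1) (.p (nat_lit 431) (nat_lit 1) (.p (nat_lit 432) (nat_lit 1) (.p (nat_lit 436) (nat_lit 1) (.n (nat_lit 437) (nat_lit 1) (.n (nat_lit 438) (nat_lit 1) (.p (nat_lit 439) (nat_lit 1) (.p (nat_lit 440) (nat_lit 1) (.p (nat_lit 441) (nat_lit 1) (.p (nat_lit 444) (nat_lit 1) (.n (nat_lit 446) (nat_lit 2) (.p (nat_lit 447) (nat_lit 1) (.n (nat_lit 448) (nat_lit 1) (.n (nat_lit 449) (nat_lit 2) (.p (nat_lit 450) (nat_lit 1) .z)))))))))))))))))))))))))))) (.ct dF4_c1052945 (nat_lit 1) (nat_lit 4) (.s true (nat_lit 1) (nat_lit 15) (nat_lit 5) (nat_lit 0) (nat_lit 2) true (nat_lit 2) true (nat_lit 13) true (nat_lit 4) true (nat_lit 10) true (nat_lit 14) (.e false (nat_lit 1) (nat_lit 44) (nat_lit 18) (nat_lit 2) (.e true (nat_lit 1) (nat_lit 210) (nat_lit 2) (nat_lit 13) (.e true (nat_lit 1) (nat_lit 112) (nat_lit 5) (nat_lit 10) (.e true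 (nat_lit 1) (nat_lit 116) (nat_lit 5) (nat_lit 10) (.e false (nat_lit 1) (nat_lit 118) (nat_lit 5) (nat_lit 10) (.e false (nat_lit 1) (nat_lit 120) (nat_lit 5) (nat_lit 10) (.e false (nat_lit 1) (nat_lit 223) (nat_lit 0) (nat_lit 14) .nil))))))))) (.nd (.nd (.nd (.nd .leaf (nat_lit 57345) (nat_lit 158) (.p (nat_lit 139) (nat_lit 1) .z) .df .leaf) (nat_lit 57347) (nat_lit 185) (.p (nat_lit 156) (nat_lit 1) .z) .df .leaf) (nat_lit 57348) (nat_lit 230) (.p (nat_lit 186) (nat_lit 1) .z) .df (.nd (.nd .leaf (nat_lit 57354) (nat_lit 449) (.p (nat_lit 275) (nat_lit 1) (.p (nat_lit 277) (nat_lit 1) (.p (nat_lit 278) (nat_lit 1) (.n (nat_lit 281) (nat_lit 1) (.p (nat_lit 286) (nat_lit 1) (.p (nat_lit 287) (nat_lit 1) (.p (nat_lit 288) (nat_lit 1) (.n (nat_lit 289) (nat_lit 1) (.n (nat_lit 290) (nat_lit 1) (.n (nat_lit 291) (nat_lit 1) (.n (nat_lit 292) (nat_lit 1) (.n (nat_lit 294) (nat_lit 1) (.p (nat_lit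 295) (nat_lit 1) (.n (nat_lit 297) (nat_lit 1) (.p (nat_lit 300) (nat_lit 1) (.p (nat_lit 303) (nat_lit 1) (.p (nat_lit 305) (nat_lit 1) (.n (nat_lit 309) (nat_lit 1) (.n (nat_lit 310) (nat_lit 1) (.n (nat_lit 311) (nat_lit 1) (.n (nat_lit 312) (nat_lit 1) (.p (nat_lit 314) (nat_lit 1) (.p (nat_lit 315) (nat_lit 1) (.p (nat_lit 316) (nat_lit 1) (.p (nat_lit 317) (nat_lit 1) .z))))))))))))))))))))))))) (.ct dF4_c1118465 (nat_lit 1) (nat_lit 5) (.s true (nat_lit 1) (nat_lit 10) (nat_lit 5) (nat_lit 2) (nat_lit 0) true (nat_lit 3) true (nat_lit 14) true (nat_lit 5) true (nat_lit 10) true (nat_lit 12) (.e false (nat_lit 1) (nat_lit 31) (nat_lit 16) (nat_lit 3) (.e true (nat_lit 1) (nat_lit 167) (nat_lit 0) (nat_lit 14) (.e false (nat_lit 1) (nat_lit 81) (nat_lit 5) (nat_lit 10) (.e true (nat_lit 1) (nat_lit 85) (nat_lit 5) (nat_lit 10) (.e false (nat_lit 1) (nat_lit 89) (nat_lit 5) (nat_lit 10)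 (.e false (nat_lit 1) (nat_lit 90) (nat_lit 5) (nat_lit 10) (.e false (nat_lit 1) (nat_lit 143) (nat_lit 2) (nat_lit 12) .nil))))))))) .leaf) (nat_lit 57357) (nat_lit 528) (.p (nat_lit 319) (nat_lit 1) (.p (nat_lit 321) (nat_lit 1) (.p (nat_lit 322) (nat_lit 1) (.n (nat_lit 325) (nat_lit 1) (.p (nat_lit 330) (nat_lit 1) (.p (nat_lit 331) (nat_lit 1) (.p (nat_lit 332) (nat_lit 1) (.n (nat_lit 333) (nat_lit 1) (.n (nat_lit 334) (nat_lit 1) (.n (nat_lit 335) (nat_lit 1) (.n (nat_lit 336) (nat_lit 1) (.n (nat_lit 338) (nat_lit 1) (.p (nat_lit 339) (nat_lit 1) (.n (nat_lit 341) (nat_lit 1) (.p (nat_lit 344) (nat_lit 1) (.p (nat_lit 347) (nat_lit 1) (.p (nat_lit 349) (nat_lit 1) (.n (nat_lit 353) (nat_lit 1) (.n (nat_lit 354) (nat_lit 1) (.n (nat_lit 355) (nat_lit 1) (.n (nat_lit 356) (nat_lit 1) (.p (nat_lit 358) (nat_lit 1) (.p (nat_lit 359) (nat_lit 1) (.p (nat_lit 360) (nat_lit 1) (.p (nat_lit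 361) (nat_lit 1) .z))))))))))))))))))))))))) (.ct dF4_c1118225 (nat_lit 1) (nat_lit 5) (.s true (nat_lit 1) (nat_lit 13) (nat_lit 5) (nat_lit 2) (nat_lit 0) true (nat_lit 3) true (nat_lit 14) true (nat_lit 5) true (nat_lit 10) true (nat_lit 12) (.e false (nat_lit 1) (nat_lit 40) (nat_lit 16) (nat_lit 3) (.e true (nat_lit 1) (nat_lit 197) (nat_lit 0) (nat_lit 14) (.e false (nat_lit 1) (nat_lit 91) (nat_lit 5) (nat_lit 10) (.e true (nat_lit 1) (nat_lit 95) (nat_lit 5) (nat_lit 10) (.e false (nat_lit 1) (nat_lit 99) (nat_lit 5) (nat_lit 10) (.e false (nat_lit 1) (nat_lit 100) (nat_lit 5) (nat_lit 10) (.e false (nat_lit 1) (nat_lit 173) (nat_lit 2) (nat_lit 12) .nil))))))))) .leaf)) (nat_lit 57359) (nat_lit 683) (.n (nat_lit 407) (nat_lit 1) (.p (nat_lit 408) (nat_lit 1) (.p (nat_lit 409) (nat_lit 1) (.p (nat_lit 410) (nat_lit 1) (.p (nat_lit 411) (nat_lit 2) (.p (nat_lit 412) (nat_lit 1) (.n (nat_lit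 413) (nat_lit 1) (.n (nat_lit 414) (nat_lit 2) (.n (nat_lit 415) (nat_lit 2) (.n (nat_lit 416) (nat_lit 1) (.p (nat_lit 419) (nat_lit 1) (.n (nat_lit 423) (nat_lit 2) (.n (nat_lit 424) (nat_lit 1) (.n (nat_lit 425) (nat_lit 1) (.n (nat_lit 426) (nat_lit 1) (.p (nat_lit 428) (nat_lit 1) (.n (nat_lit 429) (nat_lit 1) (.n (nat_lit 431) (nat_lit 1) (.n (nat_lit 432) (nat_lit 1) (.n (nat_lit 433) (nat_lit 1) (.p (nat_lit 435) (nat_lit 1) (.n (nat_lit 436) (nat_lit 1) (.p (nat_lit 437) (nat_lit 1) (.n (nat_lit 439) (nat_lit 1) (.n (nat_lit 441) (nat_lit 1) (.n (nat_lit 442) (nat_lit 1) (.n (nat_lit 444) (nat_lit 1) (.p (nat_lit 445) (nat_lit 1) (.p (nat_lit 446) (nat_lit 2) (.p (nat_lit 449) (nat_lit 1) .z)))))))))))))))))))))))))))))) (.ct dF4_c1052945 (nat_lit 1) (nat_lit 4) (.s true (nat_lit 1) (nat_lit 15) (nat_lit 5) (nat_lit 2) (nat_lit 0) true (nat_lit 3) true (nat_lit 14) true (nat_lit 4)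 true (nat_lit 10) true (nat_lit 13) (.e false (nat_lit 1) (nat_lit 50) (nat_lit 16) (nat_lit 3) (.e true (nat_lit 1) (nat_lit 230) (nat_lit 0) (nat_lit 14) (.e false (nat_lit 1) (nat_lit 112) (nat_lit 5) (nat_lit 10) (.e false (nat_lit 1) (nat_lit 116) (nat_lit 5) (nat_lit 10) (.e true (nat_lit 1) (nat_lit 118) (nat_lit 5) (nat_lit 10) (.e true (nat_lit 1) (nat_lit 120) (nat_lit 5) (nat_lit 10) (.e false (nat_lit 1) (nat_lit 203) (nat_lit 2) (nat_lit 13) .nil))))))))) (.nd (.nd (.nd .leaf (nat_lit 58368) (nat_lit 159) (.p (nat_lit 140) (nat_lit 1) .z) .df .leaf) (nat_lit 58371) (nat_lit 198) (.p (nat_lit 164) (nat_lit 1) .z) .df .leaf) (nat_lit 58372) (nat_lit 243) (.p (nat_lit 194) (nat_lit 1) .z) .df (.nd (.nd .leaf (nat_lit 58377) (nat_lit 425) (.p (nat_lit 276) (nat_lit 1) (.p (nat_lit 279) (nat_lit 1) (.p (nat_lit 280) (nat_lit 1) (.n (nat_lit 281) (nat_lit 1) (.n (nat_lit 282) (nat_lit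 1) (.n (nat_lit 283) (nat_lit 1) (.n (nat_lit 284) (nat_lit 1) (.p (nat_lit 287) (nat_lit 1) (.n (nat_lit 291) (nat_lit 1) (.n (nat_lit 292) (nat_lit 1) (.n (nat_lit 294) (nat_lit 1) (.n (nat_lit 295) (nat_lit 1) (.n (nat_lit 296) (nat_lit 1) (.n (nat_lit 297) (nat_lit 1) (.p (nat_lit 298) (nat_lit 1) (.p (nat_lit 300) (nat_lit 1) (.n (nat_lit 301) (nat_lit 1) (.p (nat_lit 303) (nat_lit 1) (.p (nat_lit 305) (nat_lit 1) (.n (nat_lit 306) (nat_lit 1) (.n (nat_lit 309) (nat_lit 1) (.n (nat_lit 310) (nat_lit 1) (.n (nat_lit 312) (nat_lit 1) (.p (nat_lit 313) (nat_lit 1) (.p (nat_lit 314) (nat_lit 1) (.p (nat_lit 315) (nat_lit 1) (.p (nat_lit 318) (nat_lit 1) .z))))))))))))))))))))))))))) (.ct dF4_c1118465 (nat_lit 1) (nat_lit 6) (.s true (nat_lit 1) (nat_lit 8) (nat_lit 0) (nat_lit 5) (nat_lit 3) true (nat_lit 6) true (nat_lit 11) true (nat_lit 7) true (nat_lit 14) true (nat_lit 10) (.s true (nat_lit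 1) (nat_lit 10) (nat_lit 0) (nat_lit 2) (nat_lit 5) true (nat_lit 3) true (nat_lit 10) true (nat_lit 5) true (nat_lit 14) true (nat_lit 12) dF4_i7))) .leaf) (nat_lit 58380) (nat_lit 504) (.p (nat_lit 320) (nat_lit 1) (.p (nat_lit 323) (nat_lit 1) (.p (nat_lit 324) (nat_lit 1) (.n (nat_lit 325) (nat_lit 1) (.n (nat_lit 326) (nat_lit 1) (.n (nat_lit 327) (nat_lit 1) (.n (nat_lit 328) (nat_lit 1) (.p (nat_lit 331) (nat_lit 1) (.n (nat_lit 335) (nat_lit 1) (.n (nat_lit 336) (nat_lit 1) (.n (nat_lit 338) (nat_lit 1) (.n (nat_lit 339) (nat_lit 1) (.n (nat_lit 340) (nat_lit 1) (.n (nat_lit 341) (nat_lit 1) (.p (nat_lit 342) (nat_lit 1) (.p (nat_lit 344) (nat_lit 1) (.n (nat_lit 345) (nat_lit 1) (.p (nat_lit 347) (nat_lit 1) (.p (nat_lit 349) (nat_lit 1) (.n (nat_lit 350) (nat_lit 1) (.n (nat_lit 353) (nat_lit 1) (.n (nat_lit 354) (nat_lit 1) (.n (nat_lit 356) (nat_lit 1) (.p (nat_lit 357) (nat_lit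 1) (.p (nat_lit 358) (nat_lit 1) (.p (nat_lit 359) (nat_lit 1) (.p (nat_lit 362) (nat_lit 1) .z))))))))))))))))))))))))))) (.ct dF4_c1118225 (nat_lit 1) (nat_lit 6) (.s true (nat_lit 1) (nat_lit 8) (nat_lit 0) (nat_lit 5) (nat_lit 4) true (nat_lit 6) true (nat_lit 11) true (nat_lit 7) true (nat_lit 14) true (nat_lit 10) (.s true (nat_lit 1) (nat_lit 13) (nat_lit 0) (nat_lit 2) (nat_lit 5) true (nat_lit 3) true (nat_lit 10) true (nat_lit 5) true (nat_lit 14) true (nat_lit 12) dF4_i13))) .leaf))))) (nat_lit 58383) (nat_lit 737) (.p (nat_lit 494) (nat_lit 1) .z) .df (.nd (.nd (.nd (.nd (.nd (.nd .leaf (nat_lit 59392) (nat_lit 160) (.p (nat_lit 132) (nat_lit 1) (.p (nat_lit 133) (nat_lit 1) (.p (nat_lit 135) (nat_lit 1) (.p (nat_lit 136) (nat_lit 1) (.n (nat_lit 137) (nat_lit 1) (.n (nat_lit 138) (nat_lit 1) (.n (nat_lit 140) (nat_lit 1) .z))))))) (.ct dF4_c1118209 (nat_lit 1) (nat_lit 6) (.s true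 (nat_lit 1) (nat_lit 5) (nat_lit 0) (nat_lit 2) (nat_lit 1) true (nat_lit 2) true (nat_lit 5) true (nat_lit 3) true (nat_lit 6) true (nat_lit 4) (.s true (nat_lit 1) (nat_lit 5) (nat_lit 1) (nat_lit 2) (nat_lit 0) true (nat_lit 2) true (nat_lit 6) true (nat_lit 3) true (nat_lit 5) true (nat_lit 4) (.e true (nat_lit 1) (nat_lit 55) (nat_lit 1) (nat_lit 5) (.e false (nat_lit 1) (nat_lit 22) (nat_lit 5) (nat_lit 3) (.e true (nat_lit 1) (nat_lit 57) (nat_lit 0) (nat_lit 6) (.e false (nat_lit 1) (nat_lit 53) (nat_lit 2) (nat_lit 4) (.e false (nat_lit 1) (nat_lit 23) (nat_lit 5) (nat_lit 3) (.e true (nat_lit 1) (nat_lit 54) (nat_lit 1) (nat_lit 5) (.e false (nat_lit 1) (nat_lit 52) (nat_lit 2) (nat_lit 4) .nil)))))))))) .leaf) (nat_lit 59395) (nat_lit 199) (.p (nat_lit 165) (nat_lit 1) .z) .df .leaf) (nat_lit 59396) (nat_lit 244) (.p (nat_lit 195) (nat_lit 1) .z) .df (.nd (.nd .leaf (nat_lit 59401)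 (nat_lit 450) (.n (nat_lit 275) (nat_lit 1) (.p (nat_lit 276) (nat_lit 1) (.p (nat_lit 279) (nat_lit 1) (.p (nat_lit 280) (nat_lit 1) (.n (nat_lit 281) (nat_lit 1) (.n (nat_lit 282) (nat_lit 1) (.n (nat_lit 283) (nat_lit 2) (.n (nat_lit 284) (nat_lit 2) (.p (nat_lit 287) (nat_lit 1) (.n (nat_lit 288) (nat_lit 1) (.p (nat_lit 289) (nat_lit 1) (.n (nat_lit 291) (nat_lit 1) (.n (nat_lit 292) (nat_lit 1) (.n (nat_lit 295) (nat_lit 1) (.n (nat_lit 297) (nat_lit 1) (.p (nat_lit 298) (nat_lit 1) (.n (nat_lit 301) (nat_lit 1) (.n (nat_lit 306) (nat_lit 1) (.p (nat_lit 308) (nat_lit 1) (.p (nat_lit 311) (nat_lit 1) (.p (nat_lit 312) (nat_lit 1) (.n (nat_lit 316) (nat_lit 1) (.n (nat_lit 317) (nat_lit 1) .z))))))))))))))))))))))) (.ct dF4_c1118465 (nat_lit 1) (nat_lit 6) (.s false (nat_lit 1) (nat_lit 17) (nat_lit 3) (nat_lit 2) (nat_lit 0) true (nat_lit 6) true (nat_lit 14) true (nat_lit 2) true (nat_lit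 11) true (nat_lit 12) (.e false (nat_lit 1) (nat_lit 168) (nat_lit 0) (nat_lit 14) (.e false (nat_lit 1) (nat_lit 29) (nat_lit 17) (nat_lit 2) (.e true (nat_lit 1) (nat_lit 131) (nat_lit 3) (nat_lit 11) (.e false (nat_lit 1) (nat_lit 135) (nat_lit 3) (nat_lit 11) (.e true (nat_lit 1) (nat_lit 139) (nat_lit 3) (nat_lit 11) (.e true (nat_lit 1) (nat_lit 140) (nat_lit 3) (nat_lit 11) (.e true (nat_lit 1) (nat_lit 146) (nat_lit 2) (nat_lit 12) .nil))))))))) .leaf) (nat_lit 59404) (nat_lit 529) (.n (nat_lit 319) (nat_lit 1) (.p (nat_lit 320) (nat_lit 1) (.p (nat_lit 323) (nat_lit 1) (.p (nat_lit 324) (nat_lit 1) (.n (nat_lit 325) (nat_lit 1) (.n (nat_lit 326) (nat_lit 1) (.n (nat_lit 327) (nat_lit 2) (.n (nat_lit 328) (nat_lit 2) (.p (nat_lit 331) (nat_lit 1) (.n (nat_lit 332) (nat_lit 1) (.p (nat_lit 333) (nat_lit 1) (.n (nat_lit 335) (nat_lit 1) (.n (nat_lit 336) (nat_lit 1) (.n (nat_lit 339)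 (nat_lit 1) (.n (nat_lit 341) (nat_lit 1) (.p (nat_lit 342) (nat_lit 1) (.n (nat_lit 345) (nat_lit 1) (.n (nat_lit 350) (nat_lit 1) (.p (nat_lit 352) (nat_lit 1) (.p (nat_lit 355) (nat_lit 1) (.p (nat_lit 356) (nat_lit 1) (.n (nat_lit 360) (nat_lit 1) (.n (nat_lit 361) (nat_lit 1) .z))))))))))))))))))))))) (.ct dF4_c1118225 (nat_lit 1) (nat_lit 6) (.s false (nat_lit 1) (nat_lit 17) (nat_lit 4) (nat_lit 2) (nat_lit 0) true (nat_lit 6) true (nat_lit 14) true (nat_lit 2) true (nat_lit 11) true (nat_lit 12) (.e false (nat_lit 1) (nat_lit 198) (nat_lit 0) (nat_lit 14) (.e false (nat_lit 1) (nat_lit 38) (nat_lit 17) (nat_lit 2) (.e true (nat_lit 1) (nat_lit 131) (nat_lit 4) (nat_lit 11) (.e false (nat_lit 1) (nat_lit 135) (nat_lit 4) (nat_lit 11) (.e true (nat_lit 1) (nat_lit 139) (nat_lit 4) (nat_lit 11) (.e true (nat_lit 1) (nat_lit 140) (nat_lit 4) (nat_lit 11) (.e true (nat_lit 1) (nat_lit 176)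 (nat_lit 2) (nat_lit 12) .nil))))))))) .leaf)) (nat_lit 59407) (nat_lit 759) (.n (nat_lit 453) (nat_lit 1) (.n (nat_lit 454) (nat_lit 1) (.n (nat_lit 455) (nat_lit 1) (.n (nat_lit 463) (nat_lit 1) (.n (nat_lit 464) (nat_lit 1) (.p (nat_lit 465) (nat_lit 1) (.p (nat_lit 467) (nat_lit 2) (.p (nat_lit 468) (nat_lit 1) (.p (nat_lit 469) (nat_lit 1) (.p (nat_lit 470) (nat_lit 1) (.n (nat_lit 471) (nat_lit 1) (.n (nat_lit 472) (nat_lit 1) (.p (nat_lit 473) (nat_lit 1) (.p (nat_lit 474) (nat_lit 1) (.p (nat_lit 475) (nat_lit 1) (.p (nat_lit 476) (nat_lit 1) (.p (nat_lit 480) (nat_lit 1) (.n (nat_lit 481) (nat_lit 1) (.n (nat_lit 482) (nat_lit 1) (.p (nat_lit 483) (nat_lit 1) (.p (nat_lit 484) (nat_lit 1) (.p (nat_lit 485) (nat_lit 1) (.p (nat_lit 488) (nat_lit 1) (.n (nat_lit 490) (nat_lit 2) (.p (nat_lit 491) (nat_lit 1) (.n (nat_lit 492) (nat_lit 1) (.n (nat_lit 493) (nat_lit 2) (.p (nat_lit 494)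 (nat_lit 1) .z)))))))))))))))))))))))))))) (.ct dF4_c69905 (nat_lit 1) (nat_lit 4) (.s true (nat_lit 1) (nat_lit 15) (nat_lit 5) (nat_lit 1) (nat_lit 2) true (nat_lit 2) true (nat_lit 13) true (nat_lit 4) true (nat_lit 10) true (nat_lit 14) (.e false (nat_lit 1) (nat_lit 47) (nat_lit 18) (nat_lit 2) (.e true (nat_lit 1) (nat_lit 220) (nat_lit 2) (nat_lit 13) (.e true (nat_lit 1) (nat_lit 122) (nat_lit 5) (nat_lit 10) (.e true (nat_lit 1) (nat_lit 126) (nat_lit 5) (nat_lit 10) (.e false (nat_lit 1) (nat_lit 128) (nat_lit 5) (nat_lit 10) (.e false (nat_lit 1) (nat_lit 130) (nat_lit 5) (nat_lit 10) (.e false (nat_lit 1) (nat_lit 223) (nat_lit 1) (nat_lit 14) .nil))))))))) (.nd (.nd (.nd .leaf (nat_lit 60416) (nat_lit 161) (.p (nat_lit 131) (nat_lit 1) (.n (nat_lit 133) (nat_lit 1) (.n (nat_lit 134) (nat_lit 1) (.n (nat_lit 135) (nat_lit 1) (.p (nat_lit 138) (nat_lit 1) (.p (nat_lit 139) (nat_lit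 1) (.p (nat_lit 140) (nat_lit 1) .z))))))) (.ct dF4_c1118209 (nat_lit 1) (nat_lit 6) (.s false (nat_lit 1) (nat_lit 5) (nat_lit 1) (nat_lit 0) (nat_lit 2) true (nat_lit 0) true (nat_lit 4) true (nat_lit 3) true (nat_lit 5) true (nat_lit 6) (.s false (nat_lit 1) (nat_lit 5) (nat_lit 2) (nat_lit 0) (nat_lit 1) true (nat_lit 0) true (nat_lit 5) true (nat_lit 3) true (nat_lit 4) true (nat_lit 6) (.e false (nat_lit 1) (nat_lit 53) (nat_lit 2) (nat_lit 4) (.e false (nat_lit 1) (nat_lit 21) (nat_lit 5) (nat_lit 3) (.e true (nat_lit 1) (nat_lit 54) (nat_lit 1) (nat_lit 5) (.e false (nat_lit 1) (nat_lit 56) (nat_lit 1) (nat_lit 5) (.e false (nat_lit 1) (nat_lit 22) (nat_lit 5) (nat_lit 3) (.e true (nat_lit 1) (nat_lit 51) (nat_lit 2) (nat_lit 4) (.e true (nat_lit 1) (nat_lit 58) (nat_lit 0) (nat_lit 6) .nil)))))))))) .leaf) (nat_lit 60419) (nat_lit 200) (.p (nat_lit 166) (nat_lit 1) .z) .df .leaf) (nat_lit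 60420) (nat_lit 245) (.p (nat_lit 196) (nat_lit 1) .z) .df (.nd (.nd .leaf (nat_lit 60431) (nat_lit 760) (.n (nat_lit 451) (nat_lit 1) (.p (nat_lit 452) (nat_lit 1) (.p (nat_lit 453) (nat_lit 1) (.p (nat_lit 454) (nat_lit 1) (.p (nat_lit 455) (nat_lit 2) (.p (nat_lit 456) (nat_lit 1) (.n (nat_lit 457) (nat_lit 1) (.n (nat_lit 458) (nat_lit 2) (.n (nat_lit 459) (nat_lit 2) (.n (nat_lit 460) (nat_lit 1) (.p (nat_lit 463) (nat_lit 1) (.n (nat_lit 467) (nat_lit 2) (.n (nat_lit 468) (nat_lit 1) (.n (nat_lit 469) (nat_lit 1) (.n (nat_lit 470) (nat_lit 1) (.p (nat_lit 472) (nat_lit 1) (.n (nat_lit 473) (nat_lit 1) (.n (nat_lit 475) (nat_lit 1) (.n (nat_lit 476) (nat_lit 1) (.n (nat_lit 477) (nat_lit 1) (.p (nat_lit 479) (nat_lit 1) (.n (nat_lit 480) (nat_lit 1) (.p (nat_lit 481) (nat_lit 1) (.n (nat_lit 483) (nat_lit 1) (.n (nat_lit 485) (nat_lit 1) (.n (nat_lit 486) (nat_lit 1) (.n (nat_lit 488)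 (nat_lit 1) (.p (nat_lit 489) (nat_lit 1) (.p (nat_lit 490) (nat_lit 2) (.p (nat_lit 493) (nat_lit 1) .z)))))))))))))))))))))))))))))) (.ct dF4_c69905 (nat_lit 1) (nat_lit 4) (.s true (nat_lit 1) (nat_lit 15) (nat_lit 5) (nat_lit 2) (nat_lit 1) true (nat_lit 3) true (nat_lit 14) true (nat_lit 4) true (nat_lit 10) true (nat_lit 13) (.e false (nat_lit 1) (nat_lit 50) (nat_lit 17) (nat_lit 3) (.e true (nat_lit 1) (nat_lit 230) (nat_lit 1) (nat_lit 14) (.e false (nat_lit 1) (nat_lit 122) (nat_lit 5) (nat_lit 10) (.e false (nat_lit 1) (nat_lit 126) (nat_lit 5) (nat_lit 10) (.e true (nat_lit 1) (nat_lit 128) (nat_lit 5) (nat_lit 10) (.e true (nat_lit 1) (nat_lit 130) (nat_lit 5) (nat_lit 10) (.e false (nat_lit 1) (nat_lit 213) (nat_lit 2) (nat_lit 13) .nil))))))))) .leaf) (nat_lit 61441) (nat_lit 171) (.p (nat_lit 147) (nat_lit 1) .z) .df .leaf))) (nat_lit 61442) (nat_lit 186) (.p (nat_lit 157) (nat_lit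 1) .z) .df (.nd (.nd (.nd (.nd .leaf (nat_lit 61444) (nat_lit 258) (.p (nat_lit 204) (nat_lit 1) .z) .df .leaf) (nat_lit 61448) (nat_lit 451) (.p (nat_lit 276) (nat_lit 1) (.n (nat_lit 277) (nat_lit 1) (.n (nat_lit 278) (nat_lit 1) (.n (nat_lit 279) (nat_lit 1) (.p (nat_lit 280) (nat_lit 1) (.n (nat_lit 283) (nat_lit 1) (.n (nat_lit 284) (nat_lit 1) (.n (nat_lit 288) (nat_lit 1) (.p (nat_lit 289) (nat_lit 1) (.p (nat_lit 291) (nat_lit 1) (.p (nat_lit 293) (nat_lit 1) (.n (nat_lit 295) (nat_lit 1) (.n (nat_lit 296) (nat_lit 1) (.p (nat_lit 298) (nat_lit 1) (.p (nat_lit 299) (nat_lit 1) (.p (nat_lit 300) (nat_lit 1) (.n (nat_lit 301) (nat_lit 1) (.p (nat_lit 304) (nat_lit 1) (.n (nat_lit 306) (nat_lit 2) (.p (nat_lit 307) (nat_lit 1) (.p (nat_lit 308) (nat_lit 1) (.p (nat_lit 312) (nat_lit 1) (.n (nat_lit 314) (nat_lit 1) (.p (nat_lit 315) (nat_lit 1) (.n (nat_lit 316) (nat_lit 1) (.n (nat_lit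 317) (nat_lit 2) (.p (nat_lit 318) (nat_lit 1) .z))))))))))))))))))))))))))) (.ct dF4_c1118465 (nat_lit 1) (nat_lit 7) (.s false (nat_lit 1) (nat_lit 8) (nat_lit 0) (nat_lit 3) (nat_lit 5) true (nat_lit 3) true (nat_lit 10) true (nat_lit 7) true (nat_lit 14) true (nat_lit 11) (.e false (nat_lit 1) (nat_lit 30) (nat_lit 16) (nat_lit 3) (.e false (nat_lit 1) (nat_lit 83) (nat_lit 5) (nat_lit 10) (.e true (nat_lit 1) (nat_lit 162) (nat_lit 0) (nat_lit 14) (.e true (nat_lit 1) (nat_lit 166) (nat_lit 0) (nat_lit 14) (.e false (nat_lit 1) (nat_lit 168) (nat_lit 0) (nat_lit 14) (.e false (nat_lit 1) (nat_lit 170) (nat_lit 0) (nat_lit 14) (.e true (nat_lit 1) (nat_lit 140) (nat_lit 3) (nat_lit 11) .nil))))))))) .leaf) (nat_lit 61453) (nat_lit 582) (.p (nat_lit 365) (nat_lit 1) (.p (nat_lit 366) (nat_lit 1) (.p (nat_lit 367) (nat_lit 1) (.p (nat_lit 368) (nat_lit 1) (.n (nat_lit 369) (nat_lit 1) (.n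 (nat_lit 370) (nat_lit 1) (.n (nat_lit 371) (nat_lit 1) (.p (nat_lit 374) (nat_lit 1) (.p (nat_lit 375) (nat_lit 1) (.p (nat_lit 376) (nat_lit 1) (.n (nat_lit 377) (nat_lit 1) (.n (nat_lit 378) (nat_lit 1) (.n (nat_lit 379) (nat_lit 1) (.n (nat_lit 380) (nat_lit 1) (.n (nat_lit 382) (nat_lit 1) (.n (nat_lit 385) (nat_lit 1) (.p (nat_lit 391) (nat_lit 1) (.p (nat_lit 393) (nat_lit 1) (.n (nat_lit 395) (nat_lit 1) (.n (nat_lit 397) (nat_lit 1) (.n (nat_lit 398) (nat_lit 1) (.n (nat_lit 400) (nat_lit 1) (.p (nat_lit 401) (nat_lit 1) (.p (nat_lit 402) (nat_lit 1) (.p (nat_lit 405) (nat_lit 1) .z))))))))))))))))))))))))) (.ct dF4_c1114385 (nat_lit 1) (nat_lit 5) (.s false (nat_lit 1) (nat_lit 6) (nat_lit 3) (nat_lit 4) (nat_lit 5) true (nat_lit 1) true (nat_lit 10) true (nat_lit 9) true (nat_lit 12) true (nat_lit 11) (.s false (nat_lit 1) (nat_lit 13) (nat_lit 0) (nat_lit 3) (nat_lit 5) true (nat_lit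 3) true (nat_lit 10) true (nat_lit 5) true (nat_lit 14) true (nat_lit 12) (.s false (nat_lit 1) (nat_lit 15) (nat_lit 0) (nat_lit 5) (nat_lit 1) true (nat_lit 9) true (nat_lit 13) true (nat_lit 4) true (nat_lit 14) true (nat_lit 10) (.s true (nat_lit 1) (nat_lit 16) (nat_lit 4) (nat_lit 1) (nat_lit 3) true (nat_lit 4) true (nat_lit 12) true (nat_lit 3) true (nat_lit 11) true (nat_lit 13) dF4_i18))))) (.nd (.nd .leaf (nat_lit 61454) (nat_lit 660) (.p (nat_lit 409) (nat_lit 1) (.p (nat_lit 410) (nat_lit 1) (.p (nat_lit 411) (nat_lit 1) (.p (nat_lit 412) (nat_lit 1) (.n (nat_lit 413) (nat_lit 1) (.n (nat_lit 414) (nat_lit 1) (.n (nat_lit 415) (nat_lit 1) (.p (nat_lit 418) (nat_lit 1) (.p (nat_lit 419) (nat_lit 1) (.p (nat_lit 420) (nat_lit 1) (.n (nat_lit 421) (nat_lit 1) (.n (nat_lit 422) (nat_lit 1) (.n (nat_lit 423) (nat_lit 1) (.n (nat_lit 424) (nat_lit 1) (.n (nat_lit 426) (nat_lit 1) (.n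 (nat_lit 429) (nat_lit 1) (.p (nat_lit 435) (nat_lit 1) (.p (nat_lit 437) (nat_lit 1) (.n (nat_lit 439) (nat_lit 1) (.n (nat_lit 441) (nat_lit 1) (.n (nat_lit 442) (nat_lit 1) (.n (nat_lit 444) (nat_lit 1) (.p (nat_lit 445) (nat_lit 1) (.p (nat_lit 446) (nat_lit 1) (.p (nat_lit 449) (nat_lit 1) .z))))))))))))))))))))))))) (.ct dF4_c1052945 (nat_lit 1) (nat_lit 5) (.s false (nat_lit 1) (nat_lit 7) (nat_lit 3) (nat_lit 4) (nat_lit 5) true (nat_lit 1) true (nat_lit 10) true (nat_lit 9) true (nat_lit 12) true (nat_lit 11) (.s false (nat_lit 1) (nat_lit 14) (nat_lit 0) (nat_lit 3) (nat_lit 5) true (nat_lit 3) true (nat_lit 10) true (nat_lit 5) true (nat_lit 14) true (nat_lit 12) (.s false (nat_lit 1) (nat_lit 15) (nat_lit 0) (nat_lit 5) (nat_lit 2) true (nat_lit 9) true (nat_lit 13) true (nat_lit 4) true (nat_lit 14) true (nat_lit 10) (.s true (nat_lit 1) (nat_lit 16) (nat_lit 4) (nat_lit 2) (nat_lit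 3) true (nat_lit 4) true (nat_lit 12) true (nat_lit 3) true (nat_lit 11) true (nat_lit 13) dF4_i24))))) .leaf) (nat_lit 62465) (nat_lit 172) (.p (nat_lit 148) (nat_lit 1) .z) .df .leaf)) (nat_lit 62466) (nat_lit 187) (.p (nat_lit 158) (nat_lit 1) .z) .df (.nd (.nd (.nd .leaf (nat_lit 62468) (nat_lit 259) (.p (nat_lit 205) (nat_lit 1) .z) .df .leaf) (nat_lit 62472) (nat_lit 452) (.p (nat_lit 276) (nat_lit 1) (.p (nat_lit 279) (nat_lit 1) (.p (nat_lit 280) (nat_lit 1) (.n (nat_lit 281) (nat_lit 1) (.n (nat_lit 282) (nat_lit 1) (.n (nat_lit 283) (nat_lit 2) (.n (nat_lit 284) (nat_lit 1) (.p (nat_lit 286) (nat_lit 1) (.p (nat_lit 287) (nat_lit 1) (.n (nat_lit 291) (nat_lit 1) (.n (nat_lit 292) (nat_lit 1) (.n (nat_lit 294) (nat_lit 1) (.n (nat_lit 295) (nat_lit 1) (.n (nat_lit 296) (nat_lit 1) (.n (nat_lit 297) (nat_lit 1) (.p (nat_lit 298) (nat_lit 1) (.p (nat_lit 300) (nat_lit 1) (.n (nat_lit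 301) (nat_lit 1) (.p (nat_lit 303) (nat_lit 1) (.p (nat_lit 305) (nat_lit 1) (.n (nat_lit 306) (nat_lit 1) (.p (nat_lit 308) (nat_lit 1) (.n (nat_lit 309) (nat_lit 1) (.n (nat_lit 310) (nat_lit 1) (.p (nat_lit 313) (nat_lit 1) (.p (nat_lit 315) (nat_lit 1) (.n (nat_lit 316) (nat_lit 1) (.p (nat_lit 318) (nat_lit 1) .z)))))))))))))))))))))))))))) (.ct dF4_c1118465 (nat_lit 1) (nat_lit 7) (.s false (nat_lit 1) (nat_lit 8) (nat_lit 0) (nat_lit 5) (nat_lit 3) true (nat_lit 6) true (nat_lit 11) true (nat_lit 7) true (nat_lit 14) true (nat_lit 10) (.e false (nat_lit 1) (nat_lit 57) (nat_lit 9) (nat_lit 6) (.e false (nat_lit 1) (nat_lit 133) (nat_lit 3) (nat_lit 11) (.e false (nat_lit 1) (nat_lit 162) (nat_lit 0) (nat_lit 14) (.e false (nat_lit 1) (nat_lit 166) (nat_lit 0) (nat_lit 14) (.e true (nat_lit 1) (nat_lit 168) (nat_lit 0) (nat_lit 14) (.e true (nat_lit 1) (nat_lit 170) (nat_lit 0) (nat_lit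 14) (.e true (nat_lit 1) (nat_lit 90) (nat_lit 5) (nat_lit 10) .nil))))))))) .leaf) (nat_lit 62477) (nat_lit 606) (.n (nat_lit 365) (nat_lit 1) (.n (nat_lit 367) (nat_lit 1) (.n (nat_lit 375) (nat_lit 1) (.p (nat_lit 379) (nat_lit 1) (.p (nat_lit 380) (nat_lit 1) (.p (nat_lit 381) (nat_lit 1) (.n (nat_lit 384) (nat_lit 1) (.p (nat_lit 386) (nat_lit 1) (.p (nat_lit 387) (nat_lit 1) (.p (nat_lit 388) (nat_lit 1) (.p (nat_lit 392) (nat_lit 1) (.n (nat_lit 394) (nat_lit 1) (.p (nat_lit 395) (nat_lit 1) (.p (nat_lit 396) (nat_lit 1) (.n (nat_lit 399) (nat_lit 1) (.p (nat_lit 400) (nat_lit 1) (.n (nat_lit 402) (nat_lit 1) (.p (nat_lit 403) (nat_lit 1) (.n (nat_lit 405) (nat_lit 1) .z))))))))))))))))))) (.ct dF4_c1114385 (nat_lit 1) (nat_lit 5) (.s true (nat_lit 1) (nat_lit 13) (nat_lit 5) (nat_lit 0) (nat_lit 3) true (nat_lit 1) true (nat_lit 12) true (nat_lit 5) true (nat_lit 10) true (nat_lit 14)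 (.e false (nat_lit 1) (nat_lit 35) (nat_lit 19) (nat_lit 1) (.e true (nat_lit 1) (nat_lit 180) (nat_lit 3) (nat_lit 12) (.e true (nat_lit 1) (nat_lit 101) (nat_lit 5) (nat_lit 10) (.e false (nat_lit 1) (nat_lit 105) (nat_lit 5) (nat_lit 10) (.e true (nat_lit 1) (nat_lit 109) (nat_lit 5) (nat_lit 10) (.e true (nat_lit 1) (nat_lit 110) (nat_lit 5) (nat_lit 10) (.e false (nat_lit 1) (nat_lit 212) (nat_lit 0) (nat_lit 14) .nil))))))))) (.nd (.nd .leaf (nat_lit 62478) (nat_lit 684) (.n (nat_lit 409) (nat_lit 1) (.n (nat_lit 411) (nat_lit 1) (.n (nat_lit 419) (nat_lit 1) (.p (nat_lit 423) (nat_lit 1) (.p (nat_lit 424) (nat_lit 1) (.p (nat_lit 425) (nat_lit 1) (.n (nat_lit 428) (nat_lit 1) (.p (nat_lit 430) (nat_lit 1) (.p (nat_lit 431) (nat_lit 1) (.p (nat_lit 432) (nat_lit 1) (.p (nat_lit 436) (nat_lit 1) (.n (nat_lit 438) (nat_lit 1) (.p (nat_lit 439) (nat_lit 1) (.p (nat_lit 440) (nat_lit 1) (.n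 (nat_lit 443) (nat_lit 1) (.p (nat_lit 444) (nat_lit 1) (.n (nat_lit 446) (nat_lit 1) (.p (nat_lit 447) (nat_lit 1) (.n (nat_lit 449) (nat_lit 1) .z))))))))))))))))))) (.ct dF4_c1052945 (nat_lit 1) (nat_lit 5) (.s true (nat_lit 1) (nat_lit 14) (nat_lit 5) (nat_lit 0) (nat_lit 3) true (nat_lit 1) true (nat_lit 12) true (nat_lit 5) true (nat_lit 10) true (nat_lit 14) (.e false (nat_lit 1) (nat_lit 38) (nat_lit 19) (nat_lit 1) (.e true (nat_lit 1) (nat_lit 190) (nat_lit 3) (nat_lit 12) (.e true (nat_lit 1) (nat_lit 111) (nat_lit 5) (nat_lit 10) (.e false (nat_lit 1) (nat_lit 115) (nat_lit 5) (nat_lit 10) (.e true (nat_lit 1) (nat_lit 119) (nat_lit 5) (nat_lit 10) (.e true (nat_lit 1) (nat_lit 120) (nat_lit 5) (nat_lit 10) (.e false (nat_lit 1) (nat_lit 222) (nat_lit 0) (nat_lit 14) .nil))))))))) .leaf) (nat_lit 63489) (nat_lit 173) (.p (nat_lit 149) (nat_lit 1) .z) .df .leaf)))) (nat_lit 63490)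 (nat_lit 188) (.p (nat_lit 159) (nat_lit 1) .z) .df (.nd (.nd (.nd (.nd (.nd .leaf (nat_lit 63492) (nat_lit 260) (.p (nat_lit 206) (nat_lit 1) .z) .df .leaf) (nat_lit 63496) (nat_lit 443) (.n (nat_lit 276) (nat_lit 1) (.n (nat_lit 277) (nat_lit 3) (.n (nat_lit 278) (nat_lit 2) (.n (nat_lit 279) (nat_lit 3) (.n (nat_lit 280) (nat_lit 1) (.p (nat_lit 281) (nat_lit 2) (.p (nat_lit 282) (nat_lit 2) (.p (nat_lit 283) (nat_lit 2) (.p (nat_lit 284) (nat_lit 1) (.n (nat_lit 286) (nat_lit 1) (.n (nat_lit 287) (nat_lit 3) (.n (nat_lit 288) (nat_lit 2) (.p (nat_lit 289) (nat_lit 2) (.p (nat_lit 290) (nat_lit 1) (.p (nat_lit 291) (nat_lit 4) (.p (nat_lit 292) (nat_lit 3) (.p (nat_lit 293) (nat_lit 1) (.p (nat_lit 294) (nat_lit 3) (.p (nat_lit 297) (nat_lit 3) (.n (nat_lit 298) (nat_lit 1) (.p (nat_lit 299) (nat_lit 1) (.n (nat_lit 300) (nat_lit 1) (.p (nat_lit 301) (nat_lit 1) (.n (nat_lit 303) (nat_lit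 2) (.p (nat_lit 304) (nat_lit 1) (.n (nat_lit 305) (nat_lit 2) (.p (nat_lit 307) (nat_lit 2) (.p (nat_lit 308) (nat_lit 1) (.p (nat_lit 309) (nat_lit 3) (.p (nat_lit 310) (nat_lit 2) (.p (nat_lit 311) (nat_lit 1) (.p (nat_lit 312) (nat_lit 3) (.n (nat_lit 313) (nat_lit 2) (.n (nat_lit 314) (nat_lit 4) (.n (nat_lit 315) (nat_lit 1) (.n (nat_lit 316) (nat_lit 2) (.n (nat_lit 317) (nat_lit 3) .z))))))))))))))))))))))))))))))))))))) (.ct dF4_c1118465 (nat_lit 1) (nat_lit 7) (.s false (nat_lit 1) (nat_lit 8) (nat_lit 3) (nat_lit 5) (nat_lit 0) true (nat_lit 6) true (nat_lit 14) true (nat_lit 7) true (nat_lit 11) true (nat_lit 10) (.e true (nat_lit 1) (nat_lit 57) (nat_lit 9) (nat_lit 6) (.e false (nat_lit 1) (nat_lit 161) (nat_lit 0) (nat_lit 14) (.e true (nat_lit 1) (nat_lit 133) (nat_lit 3) (nat_lit 11) (.e true (nat_lit 1) (nat_lit 134) (nat_lit 3) (nat_lit 11) (.e true (nat_lit 1) (nat_lit 135)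 (nat_lit 3) (nat_lit 11) (.e true (nat_lit 1) (nat_lit 136) (nat_lit 3) (nat_lit 11) (.e false (nat_lit 1) (nat_lit 137) (nat_lit 3) (nat_lit 11) (.e false (nat_lit 1) (nat_lit 138) (nat_lit 3) (nat_lit 11) (.e false (nat_lit 1) (nat_lit 139) (nat_lit 3) (nat_lit 11) (.e false (nat_lit 1) (nat_lit 140) (nat_lit 3) (nat_lit 11) (.e true (nat_lit 1) (nat_lit 83) (nat_lit 5) (nat_lit 10) .nil))))))))))))) .leaf) (nat_lit 63501) (nat_lit 607) (.p (nat_lit 363) (nat_lit 1) (.p (nat_lit 365) (nat_lit 1) (.p (nat_lit 366) (nat_lit 1) (.n (nat_lit 369) (nat_lit 1) (.p (nat_lit 374) (nat_lit 1) (.p (nat_lit 375) (nat_lit 1) (.p (nat_lit 376) (nat_lit 1) (.n (nat_lit 377) (nat_lit 1) (.n (nat_lit 378) (nat_lit 1) (.n (nat_lit 379) (nat_lit 1) (.n (nat_lit 380) (nat_lit 1) (.n (nat_lit 382) (nat_lit 1) (.p (nat_lit 383) (nat_lit 1) (.n (nat_lit 385) (nat_lit 1) (.p (nat_lit 388) (nat_lit 1) (.p (nat_lit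 391) (nat_lit 1) (.p (nat_lit 393) (nat_lit 1) (.n (nat_lit 397) (nat_lit 1) (.n (nat_lit 398) (nat_lit 1) (.n (nat_lit 399) (nat_lit 1) (.n (nat_lit 400) (nat_lit 1) (.p (nat_lit 402) (nat_lit 1) (.p (nat_lit 403) (nat_lit 1) (.p (nat_lit 404) (nat_lit 1) (.p (nat_lit 405) (nat_lit 1) .z))))))))))))))))))))))))) (.ct dF4_c1114385 (nat_lit 1) (nat_lit 5) (.s true (nat_lit 1) (nat_lit 13) (nat_lit 5) (nat_lit 3) (nat_lit 0) true (nat_lit 3) true (nat_lit 14) true (nat_lit 5) true (nat_lit 10) true (nat_lit 12) (.e false (nat_lit 1) (nat_lit 46) (nat_lit 16) (nat_lit 3) (.e true (nat_lit 1) (nat_lit 217) (nat_lit 0) (nat_lit 14) (.e false (nat_lit 1) (nat_lit 101) (nat_lit 5) (nat_lit 10) (.e true (nat_lit 1) (nat_lit 105) (nat_lit 5) (nat_lit 10) (.e false (nat_lit 1) (nat_lit 109) (nat_lit 5) (nat_lit 10) (.e false (nat_lit 1) (nat_lit 110) (nat_lit 5) (nat_lit 10) (.e false (nat_lit 1) (nat_lit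 173) (nat_lit 3) (nat_lit 12) .nil))))))))) (.nd (.nd .leaf (nat_lit 63502) (nat_lit 685) (.p (nat_lit 407) (nat_lit 1) (.p (nat_lit 409) (nat_lit 1) (.p (nat_lit 410) (nat_lit 1) (.n (nat_lit 413) (nat_lit 1) (.p (nat_lit 418) (nat_lit 1) (.p (nat_lit 419) (nat_lit 1) (.p (nat_lit 420) (nat_lit 1) (.n (nat_lit 421) (nat_lit 1) (.n (nat_lit 422) (nat_lit 1) (.n (nat_lit 423) (nat_lit 1) (.n (nat_lit 424) (nat_lit 1) (.n (nat_lit 426) (nat_lit 1) (.p (nat_lit 427) (nat_lit 1) (.n (nat_lit 429) (nat_lit 1) (.p (nat_lit 432) (nat_lit 1) (.p (nat_lit 435) (nat_lit 1) (.p (nat_lit 437) (nat_lit 1) (.n (nat_lit 441) (nat_lit 1) (.n (nat_lit 442) (nat_lit 1) (.n (nat_lit 443) (nat_lit 1) (.n (nat_lit 444) (nat_lit 1) (.p (nat_lit 446) (nat_lit 1) (.p (nat_lit 447) (nat_lit 1) (.p (nat_lit 448) (nat_lit 1) (.p (nat_lit 449) (nat_lit 1) .z))))))))))))))))))))))))) (.ct dF4_c1052945 (nat_lit 1) (nat_lit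 5) (.s true (nat_lit 1) (nat_lit 14) (nat_lit 5) (nat_lit 3) (nat_lit 0) true (nat_lit 3) true (nat_lit 14) true (nat_lit 5) true (nat_lit 10) true (nat_lit 12) (.e false (nat_lit 1) (nat_lit 49) (nat_lit 16) (nat_lit 3) (.e true (nat_lit 1) (nat_lit 227) (nat_lit 0) (nat_lit 14) (.e false (nat_lit 1) (nat_lit 111) (nat_lit 5) (nat_lit 10) (.e true (nat_lit 1) (nat_lit 115) (nat_lit 5) (nat_lit 10) (.e false (nat_lit 1) (nat_lit 119) (nat_lit 5) (nat_lit 10) (.e false (nat_lit 1) (nat_lit 120) (nat_lit 5) (nat_lit 10) (.e false (nat_lit 1) (nat_lit 183) (nat_lit 3) (nat_lit 12) .nil))))))))) .leaf) (nat_lit 64512) (nat_lit 174) (.p (nat_lit 150) (nat_lit 1) .z) .df .leaf)) (nat_lit 64514) (nat_lit 201) (.p (nat_lit 167) (nat_lit 1) .z) .df (.nd (.nd (.nd .leaf (nat_lit 64516) (nat_lit 273) (.p (nat_lit 214) (nat_lit 1) .z) .df .leaf) (nat_lit 64519) (nat_lit 453) (.n (nat_lit 276) (nat_lit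 1) (.n (nat_lit 277) (nat_lit 2) (.n (nat_lit 278) (nat_lit 2) (.n (nat_lit 279) (nat_lit 3) (.n (nat_lit 280) (nat_lit 2) (.p (nat_lit 281) (nat_lit 2) (.p (nat_lit 282) (nat_lit 3) (.p (nat_lit 283) (nat_lit 3) (.p (nat_lit 284) (nat_lit 2) (.n (nat_lit 286) (nat_lit 2) (.n (nat_lit 287) (nat_lit 4) (.n (nat_lit 288) (nat_lit 1) (.p (nat_lit 289) (nat_lit 1) (.p (nat_lit 290) (nat_lit 1) (.p (nat_lit 291) (nat_lit 4) (.p (nat_lit 292) (nat_lit 3) (.p (nat_lit 293) (nat_lit 1) (.p (nat_lit 294) (nat_lit 3) (.p (nat_lit 297) (nat_lit 3) (.n (nat_lit 298) (nat_lit 1) (.p (nat_lit 299) (nat_lit 1) (.n (nat_lit 300) (nat_lit 1) (.p (nat_lit 301) (nat_lit 2) (.n (nat_lit 303) (nat_lit 2) (.p (nat_lit 304) (nat_lit 1) (.n (nat_lit 305) (nat_lit 2) (.p (nat_lit 306) (nat_lit 1) (.p (nat_lit 307) (nat_lit 1) (.p (nat_lit 309) (nat_lit 3) (.p (nat_lit 310) (nat_lit 3) (.p (nat_lit 311) (nat_lit 1)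 (.p (nat_lit 312) (nat_lit 2) (.n (nat_lit 313) (nat_lit 2) (.n (nat_lit 314) (nat_lit 3) (.n (nat_lit 315) (nat_lit 2) (.n (nat_lit 316) (nat_lit 1) (.n (nat_lit 317) (nat_lit 2) (.n (nat_lit 318) (nat_lit 1) .z)))))))))))))))))))))))))))))))))))))) (.ct dF4_c1118465 (nat_lit 1) (nat_lit 8) (.s false (nat_lit 1) (nat_lit 7) (nat_lit 1) (nat_lit 3) (nat_lit 5) true (nat_lit 2) true (nat_lit 10) true (nat_lit 8) true (nat_lit 13) true (nat_lit 11) (.e false (nat_lit 1) (nat_lit 27) (nat_lit 17) (nat_lit 2) (.e false (nat_lit 1) (nat_lit 82) (nat_lit 5) (nat_lit 10) (.e true (nat_lit 1) (nat_lit 152) (nat_lit 1) (nat_lit 13) (.e true (nat_lit 1) (nat_lit 156) (nat_lit 1) (nat_lit 13) (.e false (nat_lit 1) (nat_lit 158) (nat_lit 1) (nat_lit 13) (.e false (nat_lit 1) (nat_lit 160) (nat_lit 1) (nat_lit 13) (.e true (nat_lit 1) (nat_lit 137) (nat_lit 3) (nat_lit 11) .nil))))))))) .leaf) (nat_lit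 64524) (nat_lit 583) (.p (nat_lit 364) (nat_lit 1) (.p (nat_lit 367) (nat_lit 1) (.p (nat_lit 368) (nat_lit 1) (.n (nat_lit 369) (nat_lit 1) (.n (nat_lit 370) (nat_lit 1) (.n (nat_lit 371) (nat_lit 1) (.n (nat_lit 372) (nat_lit 1) (.p (nat_lit 375) (nat_lit 1) (.n (nat_lit 379) (nat_lit 1) (.n (nat_lit 380) (nat_lit 1) (.n (nat_lit 382) (nat_lit 1) (.n (nat_lit 383) (nat_lit 1) (.n (nat_lit 384) (nat_lit 1) (.n (nat_lit 385) (nat_lit 1) (.p (nat_lit 386) (nat_lit 1) (.p (nat_lit 388) (nat_lit 1) (.n (nat_lit 389) (nat_lit 1) (.p (nat_lit 391) (nat_lit 1) (.p (nat_lit 393) (nat_lit 1) (.n (nat_lit 394) (nat_lit 1) (.n (nat_lit 397) (nat_lit 1) (.n (nat_lit 398) (nat_lit 1) (.n (nat_lit 400) (nat_lit 1) (.p (nat_lit 401) (nat_lit 1) (.p (nat_lit 402) (nat_lit 1) (.p (nat_lit 403) (nat_lit 1) (.p (nat_lit 406) (nat_lit 1) .z))))))))))))))))))))))))))) (.ct dF4_c1114385 (nat_lit 1) (nat_lit 6)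 (.s true (nat_lit 1) (nat_lit 10) (nat_lit 0) (nat_lit 5) (nat_lit 4) true (nat_lit 6) true (nat_lit 11) true (nat_lit 7) true (nat_lit 14) true (nat_lit 10) (.s true (nat_lit 1) (nat_lit 13) (nat_lit 0) (nat_lit 3) (nat_lit 5) true (nat_lit 3) true (nat_lit 10) true (nat_lit 5) true (nat_lit 14) true (nat_lit 12) dF4_i19))) (.nd (.nd .leaf (nat_lit 64526) (nat_lit 738) (.p (nat_lit 453) (nat_lit 1) (.p (nat_lit 454) (nat_lit 1) (.p (nat_lit 455) (nat_lit 1) (.p (nat_lit 456) (nat_lit 1) (.n (nat_lit 457) (nat_lit 1) (.n (nat_lit 458) (nat_lit 1) (.n (nat_lit 459) (nat_lit 1) (.p (nat_lit 462) (nat_lit 1) (.p (nat_lit 463) (nat_lit 1) (.p (nat_lit 464) (nat_lit 1) (.n (nat_lit 465) (nat_lit 1) (.n (nat_lit 466) (nat_lit 1) (.n (nat_lit 467) (nat_lit 1) (.n (nat_lit 468) (nat_lit 1) (.n (nat_lit 470) (nat_lit 1) (.n (nat_lit 473) (nat_lit 1) (.p (nat_lit 479) (nat_lit 1) (.p (nat_lit 481) (nat_lit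 1) (.n (nat_lit 483) (nat_lit 1) (.n (nat_lit 485) (nat_lit 1) (.n (nat_lit 486) (nat_lit 1) (.n (nat_lit 488) (nat_lit 1) (.p (nat_lit 489) (nat_lit 1) (.p (nat_lit 490) (nat_lit 1) (.p (nat_lit 493) (nat_lit 1) .z))))))))))))))))))))))))) (.ct dF4_c69905 (nat_lit 1) (nat_lit 5) (.s false (nat_lit 1) (nat_lit 8) (nat_lit 3) (nat_lit 4) (nat_lit 5) true (nat_lit 1) true (nat_lit 10) true (nat_lit 9) true (nat_lit 12) true (nat_lit 11) (.s false (nat_lit 1) (nat_lit 14) (nat_lit 1) (nat_lit 3) (nat_lit 5) true (nat_lit 3) true (nat_lit 10) true (nat_lit 5) true (nat_lit 14) true (nat_lit 12) (.s false (nat_lit 1) (nat_lit 15) (nat_lit 1) (nat_lit 5) (nat_lit 2) true (nat_lit 9) true (nat_lit 13) true (nat_lit 4) true (nat_lit 14) true (nat_lit 10) (.s true (nat_lit 1) (nat_lit 17) (nat_lit 4) (nat_lit 2) (nat_lit 3) true (nat_lit 4) true (nat_lit 12) true (nat_lit 3) true (nat_lit 11) true (nat_lit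 13) dF4_i30))))) .leaf) (nat_lit 65536) (nat_lit 175) (.p (nat_lit 142) (nat_lit 1) (.p (nat_lit 143) (nat_lit 1) (.p (nat_lit 145) (nat_lit 1) (.p (nat_lit 146) (nat_lit 1) (.n (nat_lit 147) (nat_lit 1) (.n (nat_lit 148) (nat_lit 1) (.n (nat_lit 150) (nat_lit 1) .z))))))) (.ct dF4_c1114369 (nat_lit 1) (nat_lit 6) (.s true (nat_lit 1) (nat_lit 5) (nat_lit 0) (nat_lit 3) (nat_lit 1) true (nat_lit 2) true (nat_lit 5) true (nat_lit 3) true (nat_lit 6) true (nat_lit 4) (.s true (nat_lit 1) (nat_lit 5) (nat_lit 1) (nat_lit 3) (nat_lit 0) true (nat_lit 2) true (nat_lit 6) true (nat_lit 3) true (nat_lit 5) true (nat_lit 4) (.e true (nat_lit 1) (nat_lit 61) (nat_lit 1) (nat_lit 5) (.e false (nat_lit 1) (nat_lit 25) (nat_lit 5) (nat_lit 3) (.e true (nat_lit 1) (nat_lit 63) (nat_lit 0) (nat_lit 6) (.e false (nat_lit 1) (nat_lit 53) (nat_lit 3) (nat_lit 4) (.e false (nat_lit 1) (nat_lit 26) (nat_lit 5)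 (nat_lit 3) (.e true (nat_lit 1) (nat_lit 60) (nat_lit 1) (nat_lit 5) (.e false (nat_lit 1) (nat_lit 52) (nat_lit 3) (nat_lit 4) .nil)))))))))) .leaf))) (nat_lit 65538) (nat_lit 202) (.p (nat_lit 168) (nat_lit 1) .z) .df (.nd (.nd (.nd (.nd .leaf (nat_lit 65540) (nat_lit 274) (.p (nat_lit 215) (nat_lit 1) .z) .df .leaf) (nat_lit 65543) (nat_lit 454) (.p (nat_lit 275) (nat_lit 1) (.n (nat_lit 276) (nat_lit 1) (.n (nat_lit 279) (nat_lit 1) (.n (nat_lit 280) (nat_lit 1) (.p (nat_lit 281) (nat_lit 1) (.p (nat_lit 282) (nat_lit 1) (.p (nat_lit 283) (nat_lit 2) (.p (nat_lit 284) (nat_lit 1) (.n (nat_lit 289) (nat_lit 1) (.n (nat_lit 293) (nat_lit 1) (.p (nat_lit 295) (nat_lit 1) (.p (nat_lit 296) (nat_lit 1) (.n (nat_lit 298) (nat_lit 1) (.n (nat_lit 299) (nat_lit 1) (.n (nat_lit 300) (nat_lit 1) (.p (nat_lit 301) (nat_lit 1) (.p (nat_lit 306) (nat_lit 1) (.n (nat_lit 308) (nat_lit 1) (.n (nat_lit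 312) (nat_lit 1) (.p (nat_lit 314) (nat_lit 1) (.p (nat_lit 316) (nat_lit 1) (.p (nat_lit 317) (nat_lit 1) .z)))))))))))))))))))))) (.ct dF4_c1118465 (nat_lit 1) (nat_lit 8) (.s false (nat_lit 1) (nat_lit 7) (nat_lit 1) (nat_lit 5) (nat_lit 3) true (nat_lit 5) true (nat_lit 11) true (nat_lit 8) true (nat_lit 13) true (nat_lit 10) (.e false (nat_lit 1) (nat_lit 54) (nat_lit 10) (nat_lit 5) (.e false (nat_lit 1) (nat_lit 132) (nat_lit 3) (nat_lit 11) (.e false (nat_lit 1) (nat_lit 152) (nat_lit 1) (nat_lit 13) (.e false (nat_lit 1) (nat_lit 156) (nat_lit 1) (nat_lit 13) (.e true (nat_lit 1) (nat_lit 158) (nat_lit 1) (nat_lit 13) (.e true (nat_lit 1) (nat_lit 160) (nat_lit 1) (nat_lit 13) (.e true (nat_lit 1) (nat_lit 87) (nat_lit 5) (nat_lit 10) .nil))))))))) .leaf) (nat_lit 65548) (nat_lit 608) (.n (nat_lit 363) (nat_lit 1) (.p (nat_lit 364) (nat_lit 1) (.p (nat_lit 367) (nat_lit 1) (.p (nat_lit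 368) (nat_lit 1) (.n (nat_lit 369) (nat_lit 1) (.n (nat_lit 370) (nat_lit 1) (.n (nat_lit 371) (nat_lit 2) (.n (nat_lit 372) (nat_lit 2) (.p (nat_lit 375) (nat_lit 1) (.n (nat_lit 376) (nat_lit 1) (.p (nat_lit 377) (nat_lit 1) (.n (nat_lit 379) (nat_lit 1) (.n (nat_lit 380) (nat_lit 1) (.n (nat_lit 383) (nat_lit 1) (.n (nat_lit 385) (nat_lit 1) (.p (nat_lit 386) (nat_lit 1) (.n (nat_lit 389) (nat_lit 1) (.n (nat_lit 394) (nat_lit 1) (.p (nat_lit 396) (nat_lit 1) (.p (nat_lit 399) (nat_lit 1) (.p (nat_lit 400) (nat_lit 1) (.n (nat_lit 404) (nat_lit 1) (.n (nat_lit 405) (nat_lit 1) .z))))))))))))))))))))))) (.ct dF4_c1114385 (nat_lit 1) (nat_lit 6) (.s false (nat_lit 1) (nat_lit 17) (nat_lit 4) (nat_lit 3) (nat_lit 0) true (nat_lit 6) true (nat_lit 14) true (nat_lit 2) true (nat_lit 11) true (nat_lit 12) (.e false (nat_lit 1) (nat_lit 218) (nat_lit 0) (nat_lit 14) (.e false (nat_lit 1) (nat_lit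 44) (nat_lit 17) (nat_lit 2) (.e true (nat_lit 1) (nat_lit 141) (nat_lit 4) (nat_lit 11) (.e false (nat_lit 1) (nat_lit 145) (nat_lit 4) (nat_lit 11) (.e true (nat_lit 1) (nat_lit 149) (nat_lit 4) (nat_lit 11) (.e true (nat_lit 1) (nat_lit 150) (nat_lit 4) (nat_lit 11) (.e true (nat_lit 1) (nat_lit 176) (nat_lit 3) (nat_lit 12) .nil))))))))) (.nd (.nd .leaf (nat_lit 65550) (nat_lit 761) (.n (nat_lit 453) (nat_lit 1) (.n (nat_lit 455) (nat_lit 1) (.n (nat_lit 463) (nat_lit 1) (.p (nat_lit 467) (nat_lit 1) (.p (nat_lit 468) (nat_lit 1) (.p (nat_lit 469) (nat_lit 1) (.n (nat_lit 472) (nat_lit 1) (.p (nat_lit 474) (nat_lit 1) (.p (nat_lit 475) (nat_lit 1) (.p (nat_lit 476) (nat_lit 1) (.p (nat_lit 480) (nat_lit 1) (.n (nat_lit 482) (nat_lit 1) (.p (nat_lit 483) (nat_lit 1) (.p (nat_lit 484) (nat_lit 1) (.n (nat_lit 487) (nat_lit 1) (.p (nat_lit 488) (nat_lit 1) (.n (nat_lit 490) (nat_lit 1) (.p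 (nat_lit 491) (nat_lit 1) (.n (nat_lit 493) (nat_lit 1) .z))))))))))))))))))) (.ct dF4_c69905 (nat_lit 1) (nat_lit 5) (.s true (nat_lit 1) (nat_lit 14) (nat_lit 5) (nat_lit 1) (nat_lit 3) true (nat_lit 1) true (nat_lit 12) true (nat_lit 5) true (nat_lit 10) true (nat_lit 14) (.e false (nat_lit 1) (nat_lit 41) (nat_lit 19) (nat_lit 1) (.e true (nat_lit 1) (nat_lit 200) (nat_lit 3) (nat_lit 12) (.e true (nat_lit 1) (nat_lit 121) (nat_lit 5) (nat_lit 10) (.e false (nat_lit 1) (nat_lit 125) (nat_lit 5) (nat_lit 10) (.e true (nat_lit 1) (nat_lit 129) (nat_lit 5) (nat_lit 10) (.e true (nat_lit 1) (nat_lit 130) (nat_lit 5) (nat_lit 10) (.e false (nat_lit 1) (nat_lit 222) (nat_lit 1) (nat_lit 14) .nil))))))))) .leaf) (nat_lit 66560) (nat_lit 176) (.p (nat_lit 141) (nat_lit 1) (.n (nat_lit 143) (nat_lit 1) (.n (nat_lit 144) (nat_lit 1) (.n (nat_lit 145) (nat_lit 1) (.p (nat_lit 148) (nat_lit 1) (.p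 (nat_lit 149) (nat_lit 1) (.p (nat_lit 150) (nat_lit 1) .z))))))) (.ct dF4_c1114369 (nat_lit 1) (nat_lit 6) (.s false (nat_lit 1) (nat_lit 5) (nat_lit 1) (nat_lit 0) (nat_lit 3) true (nat_lit 0) true (nat_lit 4) true (nat_lit 3) true (nat_lit 5) true (nat_lit 6) (.s false (nat_lit 1) (nat_lit 5) (nat_lit 3) (nat_lit 0) (nat_lit 1) true (nat_lit 0) true (nat_lit 5) true (nat_lit 3) true (nat_lit 4) true (nat_lit 6) (.e false (nat_lit 1) (nat_lit 53) (nat_lit 3) (nat_lit 4) (.e false (nat_lit 1) (nat_lit 24) (nat_lit 5) (nat_lit 3) (.e true (nat_lit 1) (nat_lit 60) (nat_lit 1) (nat_lit 5) (.e false (nat_lit 1) (nat_lit 62) (nat_lit 1) (nat_lit 5) (.e false (nat_lit 1) (nat_lit 25) (nat_lit 5) (nat_lit 3) (.e true (nat_lit 1) (nat_lit 51) (nat_lit 3) (nat_lit 4) (.e true (nat_lit 1) (nat_lit 64) (nat_lit 0) (nat_lit 6) .nil)))))))))) .leaf)) (nat_lit 66562) (nat_lit 203) (.p (nat_lit 169) (nat_lit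 1) .z) .df (.nd (.nd (.nd .leaf (nat_lit 66564) (nat_lit 275) (.p (nat_lit 216) (nat_lit 1) .z) .df .leaf) (nat_lit 66567) (nat_lit 455) (.n (nat_lit 276) (nat_lit 1) (.n (nat_lit 277) (nat_lit 1) (.n (nat_lit 278) (nat_lit 1) (.n (nat_lit 279) (nat_lit 1) (.n (nat_lit 280) (nat_lit 1) (.p (nat_lit 281) (nat_lit 1) (.p (nat_lit 282) (nat_lit 1) (.p (nat_lit 283) (nat_lit 1) (.p (nat_lit 284) (nat_lit 1) (.n (nat_lit 286) (nat_lit 1) (.n (nat_lit 287) (nat_lit 2) (.n (nat_lit 288) (nat_lit 1) (.p (nat_lit 289) (nat_lit 1) (.p (nat_lit 290) (nat_lit 1) (.p (nat_lit 291) (nat_lit 2) (.p (nat_lit 292) (nat_lit 2) (.p (nat_lit 294) (nat_lit 1) (.p (nat_lit 297) (nat_lit 1) (.p (nat_lit 301) (nat_lit 1) (.n (nat_lit 303) (nat_lit 1) (.n (nat_lit 305) (nat_lit 1) (.p (nat_lit 307) (nat_lit 1) (.p (nat_lit 309) (nat_lit 1) (.p (nat_lit 310) (nat_lit 1) (.p (nat_lit 312) (nat_lit 1) (.n (nat_lit 313)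 (nat_lit 1) (.n (nat_lit 314) (nat_lit 1) (.n (nat_lit 317) (nat_lit 1) .z)))))))))))))))))))))))))))) (.ct dF4_c1118465 (nat_lit 1) (nat_lit 8) (.s false (nat_lit 1) (nat_lit 7) (nat_lit 3) (nat_lit 5) (nat_lit 1) true (nat_lit 5) true (nat_lit 13) true (nat_lit 8) true (nat_lit 11) true (nat_lit 10) (.e true (nat_lit 1) (nat_lit 54) (nat_lit 10) (nat_lit 5) (.e false (nat_lit 1) (nat_lit 151) (nat_lit 1) (nat_lit 13) (.e false (nat_lit 1) (nat_lit 131) (nat_lit 3) (nat_lit 11) (.e true (nat_lit 1) (nat_lit 135) (nat_lit 3) (nat_lit 11) (.e false (nat_lit 1) (nat_lit 139) (nat_lit 3) (nat_lit 11) (.e false (nat_lit 1) (nat_lit 140) (nat_lit 3) (nat_lit 11) (.e true (nat_lit 1) (nat_lit 82) (nat_lit 5) (nat_lit 10) .nil))))))))) .leaf) (nat_lit 66574) (nat_lit 762) (.p (nat_lit 451) (nat_lit 1) (.p (nat_lit 453) (nat_lit 1) (.p (nat_lit 454) (nat_lit 1) (.n (nat_lit 457) (nat_lit 1) (.p (nat_lit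 462) (nat_lit 1) (.p (nat_lit 463) (nat_lit 1) (.p (nat_lit 464) (nat_lit 1) (.n (nat_lit 465) (nat_lit 1) (.n (nat_lit 466) (nat_lit 1) (.n (nat_lit 467) (nat_lit 1) (.n (nat_lit 468) (nat_lit 1) (.n (nat_lit 470) (nat_lit 1) (.p (nat_lit 471) (nat_lit 1) (.n (nat_lit 473) (nat_lit 1) (.p (nat_lit 476) (nat_lit 1) (.p (nat_lit 479) (nat_lit 1) (.p (nat_lit 481) (nat_lit 1) (.n (nat_lit 485) (nat_lit 1) (.n (nat_lit 486) (nat_lit 1) (.n (nat_lit 487) (nat_lit 1) (.n (nat_lit 488) (nat_lit 1) (.p (nat_lit 490) (nat_lit 1) (.p (nat_lit 491) (nat_lit 1) (.p (nat_lit 492) (nat_lit 1) (.p (nat_lit 493) (nat_lit 1) .z))))))))))))))))))))))))) (.ct dF4_c69905 (nat_lit 1) (nat_lit 5) (.s true (nat_lit 1) (nat_lit 14) (nat_lit 5) (nat_lit 3) (nat_lit 1) true (nat_lit 3) true (nat_lit 14) true (nat_lit 5) true (nat_lit 10) true (nat_lit 12) (.e false (nat_lit 1) (nat_lit 49) (nat_lit 17) (nat_lit 3)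 (.e true (nat_lit 1) (nat_lit 227) (nat_lit 1) (nat_lit 14) (.e false (nat_lit 1) (nat_lit 121) (nat_lit 5) (nat_lit 10) (.e true (nat_lit 1) (nat_lit 125) (nat_lit 5) (nat_lit 10) (.e false (nat_lit 1) (nat_lit 129) (nat_lit 5) (nat_lit 10) (.e false (nat_lit 1) (nat_lit 130) (nat_lit 5) (nat_lit 10) (.e false (nat_lit 1) (nat_lit 193) (nat_lit 3) (nat_lit 12) .nil))))))))) (.nd (.nd .leaf (nat_lit 67584) (nat_lit 189) (.p (nat_lit 160) (nat_lit 1) .z) .df .leaf) (nat_lit 67585) (nat_lit 204) (.p (nat_lit 170) (nat_lit 1) .z) .df .leaf))))))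

noncomputable def dF4_t5 : Tr := (.nd dF4_t3 (nat_lit 50193) (nat_lit 756) (.p (nat_lit 453) (nat_lit 1) (.p (nat_lit 454) (nat_lit 1) (.p (nat_lit 455) (nat_lit 1) (.n (nat_lit 457) (nat_lit 1) (.n (nat_lit 458) (nat_lit 1) (.n (nat_lit 459) (nat_lit 1) (.p (nat_lit 462) (nat_lit 1) (.p (nat_lit 463) (nat_lit 1) (.p (nat_lit 464) (nat_lit 1) (.n (nat_lit 465) (nat_lit 1) (.n (nat_lit 466) (nat_lit 1) (.n (nat_lit 467) (nat_lit 1) (.n (nat_lit 468) (nat_lit 1) (.n (nat_lit 470) (nat_lit 1) (.n (nat_lit 473) (nat_lit 1) (.p (nat_lit 476) (nat_lit 1) (.p (nat_lit 479) (nat_lit 1) (.p (nat_lit 481) (nat_lit 1) (.n (nat_lit 485) (nat_lit 1) (.n (nat_lit 486) (nat_lit 1) (.n (nat_lit 487) (nat_lit 1) (.n (nat_lit 488) (nat_lit 1) (.p (nat_lit 489) (nat_lit 1) (.p (nat_lit 490) (nat_lit 1) (.p (nat_lit 491) (nat_lit 1) (.p (nat_lit 492) (nat_lit 1) (.p (nat_lit 493) (nat_lit 1) .z)))))))))))))))))))))))))))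 (.ct dF4_c69905 (nat_lit 1) (nat_lit 3) (.s true (nat_lit 1) (nat_lit 14) (nat_lit 1) (nat_lit 3) (nat_lit 5) true (nat_lit 3) true (nat_lit 10) true (nat_lit 5) true (nat_lit 14) true (nat_lit 12) (.e true (nat_lit 1) (nat_lit 126) (nat_lit 5) (nat_lit 10) (.e false (nat_lit 1) (nat_lit 63) (nat_lit 14) (nat_lit 5) (.e false (nat_lit 1) (nat_lit 221) (nat_lit 1) (nat_lit 14) (.e true (nat_lit 1) (nat_lit 225) (nat_lit 1) (nat_lit 14) (.e false (nat_lit 1) (nat_lit 229) (nat_lit 1) (nat_lit 14) (.e false (nat_lit 1) (nat_lit 230) (nat_lit 1) (nat_lit 14) (.e false (nat_lit 1) (nat_lit 200) (nat_lit 3) (nat_lit 12) .nil))))))))) dF4_t4)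

noncomputable def dF4_t6 : Tr := (.nd dF4_t2 (nat_lit 33797) (nat_lit 210) (.p (nat_lit 171) (nat_lit 1) .z) .df dF4_t5)

noncomputable def dF4_t7 : Tr := (.nd (.nd (.nd (.nd (.nd (.nd (.nd .leaf (nat_lit 67590) (nat_lit 456) (.p (nat_lit 275) (nat_lit 1) (.n (nat_lit 277) (nat_lit 2) (.n (nat_lit 278) (nat_lit 2) (.n (nat_lit 279) (nat_lit 2) (.p (nat_lit 281) (nat_lit 1) (.p (nat_lit 282) (nat_lit 1) (.p (nat_lit 283) (nat_lit 1) (.n (nat_lit 287) (nat_lit 1) (.n (nat_lit 288) (nat_lit 1) (.p (nat_lit 289) (nat_lit 1) (.p (nat_lit 291) (nat_lit 2) (.p (nat_lit 292) (nat_lit 1) (.p (nat_lit 293) (nat_lit 1) (.p (nat_lit 294) (nat_lit 1) (.n (nat_lit 295) (nat_lit 1) (.n (nat_lit 296) (nat_lit 1) (.p (nat_lit 297) (nat_lit 1) (.p (nat_lit 298) (nat_lit 1) (.p (nat_lit 299) (nat_lit 1) (.p (nat_lit 300) (nat_lit 1) (.n (nat_lit 303) (nat_lit 1) (.p (nat_lit 304) (nat_lit 1) (.n (nat_lit 305)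 (nat_lit 1) (.n (nat_lit 306) (nat_lit 1) (.p (nat_lit 307) (nat_lit 1) (.p (nat_lit 308) (nat_lit 1) (.p (nat_lit 309) (nat_lit 2) (.p (nat_lit 310) (nat_lit 1) (.p (nat_lit 311) (nat_lit 1) (.p (nat_lit 312) (nat_lit 2) (.n (nat_lit 313) (nat_lit 1) (.n (nat_lit 314) (nat_lit 3) (.n (nat_lit 316) (nat_lit 2) (.n (nat_lit 317) (nat_lit 2) (.p (nat_lit 318) (nat_lit 1) .z))))))))))))))))))))))))))))))))))) (.ct dF4_c1118465 (nat_lit 1) (nat_lit 9) (.s false (nat_lit 1) (nat_lit 6) (nat_lit 2) (nat_lit 3) (nat_lit 5) true (nat_lit 1) true (nat_lit 10) true (nat_lit 9) true (nat_lit 12) true (nat_lit 11) (.e false (nat_lit 1) (nat_lit 24) (nat_lit 18) (nat_lit 1) (.e false (nat_lit 1) (nat_lit 81) (nat_lit 5) (nat_lit 10) (.e true (nat_lit 1) (nat_lit 142) (nat_lit 2) (nat_lit 12) (.e true (nat_lit 1) (nat_lit 146) (nat_lit 2) (nat_lit 12) (.e false (nat_lit 1) (nat_lit 148) (nat_lit 2) (nat_lit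 12) (.e false (nat_lit 1) (nat_lit 150) (nat_lit 2) (nat_lit 12) (.e true (nat_lit 1) (nat_lit 134) (nat_lit 3) (nat_lit 11) .nil))))))))) .leaf) (nat_lit 67596) (nat_lit 661) (.p (nat_lit 408) (nat_lit 1) (.p (nat_lit 411) (nat_lit 1) (.p (nat_lit 412) (nat_lit 1) (.n (nat_lit 413) (nat_lit 1) (.n (nat_lit 414) (nat_lit 1) (.n (nat_lit 415) (nat_lit 1) (.n (nat_lit 416) (nat_lit 1) (.p (nat_lit 419) (nat_lit 1) (.n (nat_lit 423) (nat_lit 1) (.n (nat_lit 424) (nat_lit 1) (.n (nat_lit 426) (nat_lit 1) (.n (nat_lit 427) (nat_lit 1) (.n (nat_lit 428) (nat_lit 1) (.n (nat_lit 429) (nat_lit 1) (.p (nat_lit 430) (nat_lit 1) (.p (nat_lit 432) (nat_lit 1) (.n (nat_lit 433) (nat_lit 1) (.p (nat_lit 435) (nat_lit 1) (.p (nat_lit 437) (nat_lit 1) (.n (nat_lit 438) (nat_lit 1) (.n (nat_lit 441) (nat_lit 1) (.n (nat_lit 442) (nat_lit 1) (.n (nat_lit 444) (nat_lit 1) (.p (nat_lit 445) (nat_lit 1) (.p (nat_lit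 446) (nat_lit 1) (.p (nat_lit 447) (nat_lit 1) (.p (nat_lit 450) (nat_lit 1) .z))))))))))))))))))))))))))) (.ct dF4_c1052945 (nat_lit 1) (nat_lit 6) (.s true (nat_lit 1) (nat_lit 11) (nat_lit 0) (nat_lit 5) (nat_lit 4) true (nat_lit 6) true (nat_lit 11) true (nat_lit 7) true (nat_lit 14) true (nat_lit 10) (.s true (nat_lit 1) (nat_lit 14) (nat_lit 0) (nat_lit 3) (nat_lit 5) true (nat_lit 3) true (nat_lit 10) true (nat_lit 5) true (nat_lit 14) true (nat_lit 12) dF4_i25))) (.nd .leaf (nat_lit 67597) (nat_lit 739) (.p (nat_lit 452) (nat_lit 1) (.p (nat_lit 455) (nat_lit 1) (.p (nat_lit 456) (nat_lit 1) (.n (nat_lit 457) (nat_lit 1) (.n (nat_lit 458) (nat_lit 1) (.n (nat_lit 459) (nat_lit 1) (.n (nat_lit 460) (nat_lit 1) (.p (nat_lit 463) (nat_lit 1) (.n (nat_lit 467) (nat_lit 1) (.n (nat_lit 468) (nat_lit 1) (.n (nat_lit 470) (nat_lit 1) (.n (nat_lit 471) (nat_lit 1) (.n (nat_lit 472) (nat_lit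 1) (.n (nat_lit 473) (nat_lit 1) (.p (nat_lit 474) (nat_lit 1) (.p (nat_lit 476) (nat_lit 1) (.n (nat_lit 477) (nat_lit 1) (.p (nat_lit 479) (nat_lit 1) (.p (nat_lit 481) (nat_lit 1) (.n (nat_lit 482) (nat_lit 1) (.n (nat_lit 485) (nat_lit 1) (.n (nat_lit 486) (nat_lit 1) (.n (nat_lit 488) (nat_lit 1) (.p (nat_lit 489) (nat_lit 1) (.p (nat_lit 490) (nat_lit 1) (.p (nat_lit 491) (nat_lit 1) (.p (nat_lit 494) (nat_lit 1) .z))))))))))))))))))))))))))) (.ct dF4_c69905 (nat_lit 1) (nat_lit 6) (.s true (nat_lit 1) (nat_lit 11) (nat_lit 1) (nat_lit 5) (nat_lit 4) true (nat_lit 6) true (nat_lit 11) true (nat_lit 7) true (nat_lit 14) true (nat_lit 10) (.s true (nat_lit 1) (nat_lit 14) (nat_lit 1) (nat_lit 3) (nat_lit 5) true (nat_lit 3) true (nat_lit 10) true (nat_lit 5) true (nat_lit 14) true (nat_lit 12) dF4_i31))) .leaf)) (nat_lit 68608) (nat_lit 190) (.p (nat_lit 152) (nat_lit 1) (.p (nat_lit 153)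 (nat_lit 1) (.p (nat_lit 155) (nat_lit 1) (.p (nat_lit 156) (nat_lit 1) (.n (nat_lit 157) (nat_lit 1) (.n (nat_lit 158) (nat_lit 1) (.n (nat_lit 160) (nat_lit 1) .z))))))) (.ct dF4_c1052929 (nat_lit 1) (nat_lit 6) (.s true (nat_lit 1) (nat_lit 5) (nat_lit 0) (nat_lit 3) (nat_lit 2) true (nat_lit 2) true (nat_lit 5) true (nat_lit 3) true (nat_lit 6) true (nat_lit 4) (.s true (nat_lit 1) (nat_lit 5) (nat_lit 2) (nat_lit 3) (nat_lit 0) true (nat_lit 2) true (nat_lit 6) true (nat_lit 3) true (nat_lit 5) true (nat_lit 4) (.e true (nat_lit 1) (nat_lit 61) (nat_lit 2) (nat_lit 5) (.e false (nat_lit 1) (nat_lit 28) (nat_lit 5) (nat_lit 3) (.e true (nat_lit 1) (nat_lit 66) (nat_lit 0) (nat_lit 6) (.e false (nat_lit 1) (nat_lit 56) (nat_lit 3) (nat_lit 4) (.e false (nat_lit 1) (nat_lit 29) (nat_lit 5) (nat_lit 3) (.e true (nat_lit 1) (nat_lit 60) (nat_lit 2) (nat_lit 5) (.e false (nat_lit 1) (nat_lit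 55) (nat_lit 3) (nat_lit 4) .nil)))))))))) (.nd (.nd .leaf (nat_lit 68609) (nat_lit 205) (.p (nat_lit 162) (nat_lit 1) (.p (nat_lit 163) (nat_lit 1) (.p (nat_lit 165) (nat_lit 1) (.p (nat_lit 166) (nat_lit 1) (.n (nat_lit 167) (nat_lit 1) (.n (nat_lit 168) (nat_lit 1) (.n (nat_lit 170) (nat_lit 1) .z))))))) (.ct dF4_c69889 (nat_lit 1) (nat_lit 6) (.s true (nat_lit 1) (nat_lit 5) (nat_lit 1) (nat_lit 3) (nat_lit 2) true (nat_lit 2) true (nat_lit 5) true (nat_lit 3) true (nat_lit 6) true (nat_lit 4) (.s true (nat_lit 1) (nat_lit 5) (nat_lit 2) (nat_lit 3) (nat_lit 1) true (nat_lit 2) true (nat_lit 6) true (nat_lit 3) true (nat_lit 5) true (nat_lit 4) (.e true (nat_lit 1) (nat_lit 64) (nat_lit 2) (nat_lit 5) (.e false (nat_lit 1) (nat_lit 31) (nat_lit 5) (nat_lit 3) (.e true (nat_lit 1) (nat_lit 66) (nat_lit 1) (nat_lit 6) (.e false (nat_lit 1) (nat_lit 59) (nat_lit 3) (nat_lit 4) (.e false (nat_lit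 1) (nat_lit 32) (nat_lit 5) (nat_lit 3) (.e true (nat_lit 1) (nat_lit 63) (nat_lit 2) (nat_lit 5) (.e false (nat_lit 1) (nat_lit 58) (nat_lit 3) (nat_lit 4) .nil)))))))))) .leaf) (nat_lit 68612) (nat_lit 289) (.p (nat_lit 225) (nat_lit 1) .z) .df .leaf)) (nat_lit 68614) (nat_lit 457) (.n (nat_lit 278) (nat_lit 1) (.p (nat_lit 284) (nat_lit 1) (.p (nat_lit 294) (nat_lit 1) (.p (nat_lit 297) (nat_lit 1) (.n (nat_lit 298) (nat_lit 1) (.n (nat_lit 300) (nat_lit 1) (.p (nat_lit 318) (nat_lit 1) .z))))))) (.ct dF4_c1118465 (nat_lit 1) (nat_lit 9) (.s false (nat_lit 1) (nat_lit 6) (nat_lit 2) (nat_lit 5) (nat_lit 3) true (nat_lit 4) true (nat_lit 11) true (nat_lit 9) true (nat_lit 12) true (nat_lit 10) (.e false (nat_lit 1) (nat_lit 51) (nat_lit 11) (nat_lit 4) (.e false (nat_lit 1) (nat_lit 131) (nat_lit 3) (nat_lit 11) (.e false (nat_lit 1) (nat_lit 142) (nat_lit 2) (nat_lit 12) (.e false (nat_lit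 1) (nat_lit 146) (nat_lit 2) (nat_lit 12) (.e true (nat_lit 1) (nat_lit 148) (nat_lit 2) (nat_lit 12) (.e true (nat_lit 1) (nat_lit 150) (nat_lit 2) (nat_lit 12) (.e true (nat_lit 1) (nat_lit 84) (nat_lit 5) (nat_lit 10) .nil))))))))) (.nd (.nd (.nd .leaf (nat_lit 68620) (nat_lit 686) (.n (nat_lit 407) (nat_lit 1) (.p (nat_lit 408) (nat_lit 1) (.p (nat_lit 411) (nat_lit 1) (.p (nat_lit 412) (nat_lit 1) (.n (nat_lit 413) (nat_lit 1) (.n (nat_lit 414) (nat_lit 1) (.n (nat_lit 415) (nat_lit 2) (.n (nat_lit 416) (nat_lit 2) (.p (nat_lit 419) (nat_lit 1) (.n (nat_lit 420) (nat_lit 1) (.p (nat_lit 421) (nat_lit 1) (.n (nat_lit 423) (nat_lit 1) (.n (nat_lit 424) (nat_lit 1) (.n (nat_lit 427) (nat_lit 1) (.n (nat_lit 429) (nat_lit 1) (.p (nat_lit 430) (nat_lit 1) (.n (nat_lit 433) (nat_lit 1) (.n (nat_lit 438) (nat_lit 1) (.p (nat_lit 440) (nat_lit 1) (.p (nat_lit 443) (nat_lit 1) (.p (nat_lit 444)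 (nat_lit 1) (.n (nat_lit 448) (nat_lit 1) (.n (nat_lit 449) (nat_lit 1) .z))))))))))))))))))))))) (.ct dF4_c1052945 (nat_lit 1) (nat_lit 6) (.s false (nat_lit 1) (nat_lit 18) (nat_lit 4) (nat_lit 3) (nat_lit 0) true (nat_lit 6) true (nat_lit 14) true (nat_lit 2) true (nat_lit 11) true (nat_lit 12) (.e false (nat_lit 1) (nat_lit 228) (nat_lit 0) (nat_lit 14) (.e false (nat_lit 1) (nat_lit 44) (nat_lit 18) (nat_lit 2) (.e true (nat_lit 1) (nat_lit 151) (nat_lit 4) (nat_lit 11) (.e false (nat_lit 1) (nat_lit 155) (nat_lit 4) (nat_lit 11) (.e true (nat_lit 1) (nat_lit 159) (nat_lit 4) (nat_lit 11) (.e true (nat_lit 1) (nat_lit 160) (nat_lit 4) (nat_lit 11) (.e true (nat_lit 1) (nat_lit 186) (nat_lit 3) (nat_lit 12) .nil))))))))) .leaf) (nat_lit 68621) (nat_lit 763) (.n (nat_lit 451) (nat_lit 1) (.p (nat_lit 452) (nat_lit 1) (.p (nat_lit 455) (nat_lit 1) (.p (nat_lit 456) (nat_lit 1) (.n (nat_lit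 457) (nat_lit 1) (.n (nat_lit 458) (nat_lit 1) (.n (nat_lit 459) (nat_lit 2) (.n (nat_lit 460) (nat_lit 2) (.p (nat_lit 463) (nat_lit 1) (.n (nat_lit 464) (nat_lit 1) (.p (nat_lit 465) (nat_lit 1) (.n (nat_lit 467) (nat_lit 1) (.n (nat_lit 468) (nat_lit 1) (.n (nat_lit 471) (nat_lit 1) (.n (nat_lit 473) (nat_lit 1) (.p (nat_lit 474) (nat_lit 1) (.n (nat_lit 477) (nat_lit 1) (.n (nat_lit 482) (nat_lit 1) (.p (nat_lit 484) (nat_lit 1) (.p (nat_lit 487) (nat_lit 1) (.p (nat_lit 488) (nat_lit 1) (.n (nat_lit 492) (nat_lit 1) (.n (nat_lit 493) (nat_lit 1) .z))))))))))))))))))))))) (.ct dF4_c69905 (nat_lit 1) (nat_lit 6) (.s false (nat_lit 1) (nat_lit 18) (nat_lit 4) (nat_lit 3) (nat_lit 1) true (nat_lit 6) true (nat_lit 14) true (nat_lit 2) true (nat_lit 11) true (nat_lit 12) (.e false (nat_lit 1) (nat_lit 228) (nat_lit 1) (nat_lit 14) (.e false (nat_lit 1) (nat_lit 47) (nat_lit 18) (nat_lit 2)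 (.e true (nat_lit 1) (nat_lit 161) (nat_lit 4) (nat_lit 11) (.e false (nat_lit 1) (nat_lit 165) (nat_lit 4) (nat_lit 11) (.e true (nat_lit 1) (nat_lit 169) (nat_lit 4) (nat_lit 11) (.e true (nat_lit 1) (nat_lit 170) (nat_lit 4) (nat_lit 11) (.e true (nat_lit 1) (nat_lit 196) (nat_lit 3) (nat_lit 12) .nil))))))))) .leaf) (nat_lit 69632) (nat_lit 191) (.p (nat_lit 151) (nat_lit 1) (.n (nat_lit 153) (nat_lit 1) (.n (nat_lit 154) (nat_lit 1) (.n (nat_lit 155) (nat_lit 1) (.p (nat_lit 158) (nat_lit 1) (.p (nat_lit 159) (nat_lit 1) (.p (nat_lit 160) (nat_lit 1) .z))))))) (.ct dF4_c1052929 (nat_lit 1) (nat_lit 6) (.s false (nat_lit 1) (nat_lit 5) (nat_lit 2) (nat_lit 0) (nat_lit 3) true (nat_lit 0) true (nat_lit 4) true (nat_lit 3) true (nat_lit 5) true (nat_lit 6) (.s false (nat_lit 1) (nat_lit 5) (nat_lit 3) (nat_lit 0) (nat_lit 2) true (nat_lit 0) true (nat_lit 5) true (nat_lit 3) true (nat_lit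 4) true (nat_lit 6) (.e false (nat_lit 1) (nat_lit 56) (nat_lit 3) (nat_lit 4) (.e false (nat_lit 1) (nat_lit 27) (nat_lit 5) (nat_lit 3) (.e true (nat_lit 1) (nat_lit 60) (nat_lit 2) (nat_lit 5) (.e false (nat_lit 1) (nat_lit 62) (nat_lit 2) (nat_lit 5) (.e false (nat_lit 1) (nat_lit 28) (nat_lit 5) (nat_lit 3) (.e true (nat_lit 1) (nat_lit 54) (nat_lit 3) (nat_lit 4) (.e true (nat_lit 1) (nat_lit 67) (nat_lit 0) (nat_lit 6) .nil)))))))))) (.nd (.nd .leaf (nat_lit 69633) (nat_lit 206) (.p (nat_lit 161) (nat_lit 1) (.n (nat_lit 163) (nat_lit 1) (.n (nat_lit 164) (nat_lit 1) (.n (nat_lit 165) (nat_lit 1) (.p (nat_lit 168) (nat_lit 1) (.p (nat_lit 169) (nat_lit 1) (.p (nat_lit 170) (nat_lit 1) .z))))))) (.ct dF4_c69889 (nat_lit 1) (nat_lit 6) (.s false (nat_lit 1) (nat_lit 5) (nat_lit 2) (nat_lit 1) (nat_lit 3) true (nat_lit 0) true (nat_lit 4) true (nat_lit 3) true (nat_lit 5) true (nat_lit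 6) (.s false (nat_lit 1) (nat_lit 5) (nat_lit 3) (nat_lit 1) (nat_lit 2) true (nat_lit 0) true (nat_lit 5) true (nat_lit 3) true (nat_lit 4) true (nat_lit 6) (.e false (nat_lit 1) (nat_lit 59) (nat_lit 3) (nat_lit 4) (.e false (nat_lit 1) (nat_lit 30) (nat_lit 5) (nat_lit 3) (.e true (nat_lit 1) (nat_lit 63) (nat_lit 2) (nat_lit 5) (.e false (nat_lit 1) (nat_lit 65) (nat_lit 2) (nat_lit 5) (.e false (nat_lit 1) (nat_lit 31) (nat_lit 5) (nat_lit 3) (.e true (nat_lit 1) (nat_lit 57) (nat_lit 3) (nat_lit 4) (.e true (nat_lit 1) (nat_lit 67) (nat_lit 1) (nat_lit 6) .nil)))))))))) .leaf) (nat_lit 69636) (nat_lit 290) (.p (nat_lit 226) (nat_lit 1) .z) .df .leaf))) (nat_lit 69638) (nat_lit 458) (.n (nat_lit 275) (nat_lit 1) (.p (nat_lit 285) (nat_lit 1) (.p (nat_lit 288) (nat_lit 1) (.n (nat_lit 290) (nat_lit 1) (.n (nat_lit 292) (nat_lit 1) (.p (nat_lit 293) (nat_lit 1) (.n (nat_lit 318) (nat_lit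 1) .z))))))) (.ct dF4_c1118465 (nat_lit 1) (nat_lit 9) (.s false (nat_lit 1) (nat_lit 6) (nat_lit 3) (nat_lit 5) (nat_lit 2) true (nat_lit 4) true (nat_lit 12) true (nat_lit 9) true (nat_lit 11) true (nat_lit 10) (.e true (nat_lit 1) (nat_lit 51) (nat_lit 11) (nat_lit 4) (.e false (nat_lit 1) (nat_lit 141) (nat_lit 2) (nat_lit 12) (.e false (nat_lit 1) (nat_lit 132) (nat_lit 3) (nat_lit 11) (.e false (nat_lit 1) (nat_lit 136) (nat_lit 3) (nat_lit 11) (.e true (nat_lit 1) (nat_lit 138) (nat_lit 3) (nat_lit 11) (.e true (nat_lit 1) (nat_lit 140) (nat_lit 3) (nat_lit 11) (.e true (nat_lit 1) (nat_lit 81) (nat_lit 5) (nat_lit 10) .nil))))))))) (.nd (.nd (.nd (.nd .leaf (nat_lit 69644) (nat_lit 678) (.n (nat_lit 408) (nat_lit 1) (.p (nat_lit 409) (nat_lit 1) (.p (nat_lit 410) (nat_lit 1) (.n (nat_lit 412) (nat_lit 1) (.p (nat_lit 415) (nat_lit 1) (.p (nat_lit 416) (nat_lit 1) (.p (nat_lit 420) (nat_lit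 1) (.n (nat_lit 421) (nat_lit 1) (.n (nat_lit 423) (nat_lit 1) (.p (nat_lit 427) (nat_lit 1) (.n (nat_lit 430) (nat_lit 1) (.p (nat_lit 433) (nat_lit 1) (.p (nat_lit 434) (nat_lit 1) (.n (nat_lit 436) (nat_lit 1) (.p (nat_lit 438) (nat_lit 2) (.n (nat_lit 439) (nat_lit 1) (.n (nat_lit 440) (nat_lit 1) (.n (nat_lit 444) (nat_lit 1) (.p (nat_lit 446) (nat_lit 1) (.n (nat_lit 447) (nat_lit 1) (.p (nat_lit 448) (nat_lit 1) (.p (nat_lit 449) (nat_lit 2) (.n (nat_lit 450) (nat_lit 1) .z))))))))))))))))))))))) (.ct dF4_c1052945 (nat_lit 1) (nat_lit 6) (.s true (nat_lit 1) (nat_lit 19) (nat_lit 0) (nat_lit 2) (nat_lit 4) true (nat_lit 6) true (nat_lit 11) true (nat_lit 1) true (nat_lit 14) true (nat_lit 13) (.e true (nat_lit 1) (nat_lit 159) (nat_lit 4) (nat_lit 11) (.e false (nat_lit 1) (nat_lit 36) (nat_lit 19) (nat_lit 1) (.e true (nat_lit 1) (nat_lit 221) (nat_lit 0) (nat_lit 14) (.e false (nat_lit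 1) (nat_lit 225) (nat_lit 0) (nat_lit 14) (.e true (nat_lit 1) (nat_lit 229) (nat_lit 0) (nat_lit 14) (.e true (nat_lit 1) (nat_lit 230) (nat_lit 0) (nat_lit 14) (.e false (nat_lit 1) (nat_lit 202) (nat_lit 2) (nat_lit 13) (.e false (nat_lit 1) (nat_lit 203) (nat_lit 2) (nat_lit 13) (.e false (nat_lit 1) (nat_lit 205) (nat_lit 2) (nat_lit 13) (.e false (nat_lit 1) (nat_lit 206) (nat_lit 2) (nat_lit 13) (.e true (nat_lit 1) (nat_lit 207) (nat_lit 2) (nat_lit 13) (.e true (nat_lit 1) (nat_lit 208) (nat_lit 2) (nat_lit 13) (.e true (nat_lit 1) (nat_lit 210) (nat_lit 2) (nat_lit 13) .nil))))))))))))))) .leaf) (nat_lit 69645) (nat_lit 755) (.n (nat_lit 452) (nat_lit 1) (.p (nat_lit 453) (nat_lit 1) (.p (nat_lit 454) (nat_lit 1) (.n (nat_lit 456) (nat_lit 1) (.p (nat_lit 459) (nat_lit 1) (.p (nat_lit 460) (nat_lit 1) (.p (nat_lit 464) (nat_lit 1) (.n (nat_lit 465) (nat_lit 1) (.n (nat_lit 467) (nat_lit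 1) (.p (nat_lit 471) (nat_lit 1) (.n (nat_lit 474) (nat_lit 1) (.p (nat_lit 477) (nat_lit 1) (.p (nat_lit 478) (nat_lit 1) (.n (nat_lit 480) (nat_lit 1) (.p (nat_lit 482) (nat_lit 2) (.n (nat_lit 483) (nat_lit 1) (.n (nat_lit 484) (nat_lit 1) (.n (nat_lit 488) (nat_lit 1) (.p (nat_lit 490) (nat_lit 1) (.n (nat_lit 491) (nat_lit 1) (.p (nat_lit 492) (nat_lit 1) (.p (nat_lit 493) (nat_lit 2) (.n (nat_lit 494) (nat_lit 1) .z))))))))))))))))))))))) (.ct dF4_c69905 (nat_lit 1) (nat_lit 6) (.s true (nat_lit 1) (nat_lit 19) (nat_lit 1) (nat_lit 2) (nat_lit 4) true (nat_lit 6) true (nat_lit 11) true (nat_lit 1) true (nat_lit 14) true (nat_lit 13) (.e true (nat_lit 1) (nat_lit 169) (nat_lit 4) (nat_lit 11) (.e false (nat_lit 1) (nat_lit 39) (nat_lit 19) (nat_lit 1) (.e true (nat_lit 1) (nat_lit 221) (nat_lit 1) (nat_lit 14) (.e false (nat_lit 1) (nat_lit 225) (nat_lit 1) (nat_lit 14) (.e true (nat_lit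 1) (nat_lit 229) (nat_lit 1) (nat_lit 14) (.e true (nat_lit 1) (nat_lit 230) (nat_lit 1) (nat_lit 14) (.e false (nat_lit 1) (nat_lit 212) (nat_lit 2) (nat_lit 13) (.e false (nat_lit 1) (nat_lit 213) (nat_lit 2) (nat_lit 13) (.e false (nat_lit 1) (nat_lit 215) (nat_lit 2) (nat_lit 13) (.e false (nat_lit 1) (nat_lit 216) (nat_lit 2) (nat_lit 13) (.e true (nat_lit 1) (nat_lit 217) (nat_lit 2) (nat_lit 13) (.e true (nat_lit 1) (nat_lit 218) (nat_lit 2) (nat_lit 13) (.e true (nat_lit 1) (nat_lit 220) (nat_lit 2) (nat_lit 13) .nil))))))))))))))) .leaf) (nat_lit 70657) (nat_lit 216) (.p (nat_lit 177) (nat_lit 1) .z) .df (.nd (.nd .leaf (nat_lit 70658) (nat_lit 231) (.p (nat_lit 187) (nat_lit 1) .z) .df .leaf) (nat_lit 70659) (nat_lit 261) (.p (nat_lit 207) (nat_lit 1) .z) .df .leaf)) (nat_lit 70664) (nat_lit 530) (.p (nat_lit 320) (nat_lit 1) (.n (nat_lit 321) (nat_lit 1) (.n (nat_lit 322) (nat_lit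 1) (.n (nat_lit 323) (nat_lit 1) (.p (nat_lit 324) (nat_lit 1) (.n (nat_lit 327) (nat_lit 1) (.n (nat_lit 328) (nat_lit 1) (.n (nat_lit 332) (nat_lit 1) (.p (nat_lit 333) (nat_lit 1) (.p (nat_lit 335) (nat_lit 1) (.p (nat_lit 337) (nat_lit 1) (.n (nat_lit 339) (nat_lit 1) (.n (nat_lit 340) (nat_lit 1) (.p (nat_lit 342) (nat_lit 1) (.p (nat_lit 343) (nat_lit 1) (.p (nat_lit 344) (nat_lit 1) (.n (nat_lit 345) (nat_lit 1) (.p (nat_lit 348) (nat_lit 1) (.n (nat_lit 350) (nat_lit 2) (.p (nat_lit 351) (nat_lit 1) (.p (nat_lit 352) (nat_lit 1) (.p (nat_lit 356) (nat_lit 1) (.n (nat_lit 358) (nat_lit 1) (.p (nat_lit 359) (nat_lit 1) (.n (nat_lit 360) (nat_lit 1) (.n (nat_lit 361) (nat_lit 2) (.p (nat_lit 362) (nat_lit 1) .z))))))))))))))))))))))))))) (.ct dF4_c1118225 (nat_lit 1) (nat_lit 7) (.s false (nat_lit 1) (nat_lit 8) (nat_lit 0) (nat_lit 4) (nat_lit 5) true (nat_lit 3) true (nat_lit 10) true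 (nat_lit 7) true (nat_lit 14) true (nat_lit 11) (.e false (nat_lit 1) (nat_lit 39) (nat_lit 16) (nat_lit 3) (.e false (nat_lit 1) (nat_lit 93) (nat_lit 5) (nat_lit 10) (.e true (nat_lit 1) (nat_lit 192) (nat_lit 0) (nat_lit 14) (.e true (nat_lit 1) (nat_lit 196) (nat_lit 0) (nat_lit 14) (.e false (nat_lit 1) (nat_lit 198) (nat_lit 0) (nat_lit 14) (.e false (nat_lit 1) (nat_lit 200) (nat_lit 0) (nat_lit 14) (.e true (nat_lit 1) (nat_lit 140) (nat_lit 4) (nat_lit 11) .nil))))))))) (.nd (.nd (.nd .leaf (nat_lit 70666) (nat_lit 609) (.p (nat_lit 364) (nat_lit 1) (.n (nat_lit 365) (nat_lit 1) (.n (nat_lit 366) (nat_lit 1) (.n (nat_lit 367) (nat_lit 1) (.p (nat_lit 368) (nat_lit 1) (.n (nat_lit 371) (nat_lit 1) (.n (nat_lit 372) (nat_lit 1) (.n (nat_lit 376) (nat_lit 1) (.p (nat_lit 377) (nat_lit 1) (.p (nat_lit 379) (nat_lit 1) (.p (nat_lit 381) (nat_lit 1) (.n (nat_lit 383) (nat_lit 1) (.n (nat_lit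 384) (nat_lit 1) (.p (nat_lit 386) (nat_lit 1) (.p (nat_lit 387) (nat_lit 1) (.p (nat_lit 388) (nat_lit 1) (.n (nat_lit 389) (nat_lit 1) (.p (nat_lit 392) (nat_lit 1) (.n (nat_lit 394) (nat_lit 2) (.p (nat_lit 395) (nat_lit 1) (.p (nat_lit 396) (nat_lit 1) (.p (nat_lit 400) (nat_lit 1) (.n (nat_lit 402) (nat_lit 1) (.p (nat_lit 403) (nat_lit 1) (.n (nat_lit 404) (nat_lit 1) (.n (nat_lit 405) (nat_lit 2) (.p (nat_lit 406) (nat_lit 1) .z))))))))))))))))))))))))))) (.ct dF4_c1114385 (nat_lit 1) (nat_lit 7) (.s false (nat_lit 1) (nat_lit 10) (nat_lit 0) (nat_lit 4) (nat_lit 5) true (nat_lit 3) true (nat_lit 10) true (nat_lit 7) true (nat_lit 14) true (nat_lit 11) (.e false (nat_lit 1) (nat_lit 45) (nat_lit 16) (nat_lit 3) (.e false (nat_lit 1) (nat_lit 103) (nat_lit 5) (nat_lit 10) (.e true (nat_lit 1) (nat_lit 212) (nat_lit 0) (nat_lit 14) (.e true (nat_lit 1) (nat_lit 216) (nat_lit 0) (nat_lit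 14) (.e false (nat_lit 1) (nat_lit 218) (nat_lit 0) (nat_lit 14) (.e false (nat_lit 1) (nat_lit 220) (nat_lit 0) (nat_lit 14) (.e true (nat_lit 1) (nat_lit 150) (nat_lit 4) (nat_lit 11) .nil))))))))) .leaf) (nat_lit 71681) (nat_lit 217) (.p (nat_lit 178) (nat_lit 1) .z) .df .leaf) (nat_lit 71682) (nat_lit 232) (.p (nat_lit 188) (nat_lit 1) .z) .df (.nd (.nd .leaf (nat_lit 71683) (nat_lit 262) (.p (nat_lit 208) (nat_lit 1) .z) .df .leaf) (nat_lit 71688) (nat_lit 531) (.p (nat_lit 320) (nat_lit 1) (.p (nat_lit 323) (nat_lit 1) (.p (nat_lit 324) (nat_lit 1) (.n (nat_lit 325) (nat_lit 1) (.n (nat_lit 326) (nat_lit 1) (.n (nat_lit 327) (nat_lit 2) (.n (nat_lit 328) (nat_lit 1) (.p (nat_lit 330) (nat_lit 1) (.p (nat_lit 331) (nat_lit 1) (.n (nat_lit 335) (nat_lit 1) (.n (nat_lit 336) (nat_lit 1) (.n (nat_lit 338) (nat_lit 1) (.n (nat_lit 339) (nat_lit 1) (.n (nat_lit 340) (nat_lit 1) (.n (nat_lit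 341) (nat_lit 1) (.p (nat_lit 342) (nat_lit 1) (.p (nat_lit 344) (nat_lit 1) (.n (nat_lit 345) (nat_lit 1) (.p (nat_lit 347) (nat_lit 1) (.p (nat_lit 349) (nat_lit 1) (.n (nat_lit 350) (nat_lit 1) (.p (nat_lit 352) (nat_lit 1) (.n (nat_lit 353) (nat_lit 1) (.n (nat_lit 354) (nat_lit 1) (.p (nat_lit 357) (nat_lit 1) (.p (nat_lit 359) (nat_lit 1) (.n (nat_lit 360) (nat_lit 1) (.p (nat_lit 362) (nat_lit 1) .z)))))))))))))))))))))))))))) (.ct dF4_c1118225 (nat_lit 1) (nat_lit 7) (.s false (nat_lit 1) (nat_lit 8) (nat_lit 0) (nat_lit 5) (nat_lit 4) true (nat_lit 6) true (nat_lit 11) true (nat_lit 7) true (nat_lit 14) true (nat_lit 10) (.e false (nat_lit 1) (nat_lit 57) (nat_lit 12) (nat_lit 6) (.e false (nat_lit 1) (nat_lit 133) (nat_lit 4) (nat_lit 11) (.e false (nat_lit 1) (nat_lit 192) (nat_lit 0) (nat_lit 14) (.e false (nat_lit 1) (nat_lit 196) (nat_lit 0) (nat_lit 14) (.e true (nat_lit 1) (nat_lit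 198) (nat_lit 0) (nat_lit 14) (.e true (nat_lit 1) (nat_lit 200) (nat_lit 0) (nat_lit 14) (.e true (nat_lit 1) (nat_lit 100) (nat_lit 5) (nat_lit 10) .nil))))))))) .leaf)))) (nat_lit 71690) (nat_lit 610) (.p (nat_lit 364) (nat_lit 1) (.p (nat_lit 367) (nat_lit 1) (.p (nat_lit 368) (nat_lit 1) (.n (nat_lit 369) (nat_lit 1) (.n (nat_lit 370) (nat_lit 1) (.n (nat_lit 371) (nat_lit 2) (.n (nat_lit 372) (nat_lit 1) (.p (nat_lit 374) (nat_lit 1) (.p (nat_lit 375) (nat_lit 1) (.n (nat_lit 379) (nat_lit 1) (.n (nat_lit 380) (nat_lit 1) (.n (nat_lit 382) (nat_lit 1) (.n (nat_lit 383) (nat_lit 1) (.n (nat_lit 384) (nat_lit 1) (.n (nat_lit 385) (nat_lit 1) (.p (nat_lit 386) (nat_lit 1) (.p (nat_lit 388) (nat_lit 1) (.n (nat_lit 389) (nat_lit 1) (.p (nat_lit 391) (nat_lit 1) (.p (nat_lit 393) (nat_lit 1) (.n (nat_lit 394) (nat_lit 1) (.p (nat_lit 396) (nat_lit 1) (.n (nat_lit 397) (nat_lit 1) (.n (nat_lit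 398) (nat_lit 1) (.p (nat_lit 401) (nat_lit 1) (.p (nat_lit 403) (nat_lit 1) (.n (nat_lit 404) (nat_lit 1) (.p (nat_lit 406) (nat_lit 1) .z)))))))))))))))))))))))))))) (.ct dF4_c1114385 (nat_lit 1) (nat_lit 7) (.s false (nat_lit 1) (nat_lit 10) (nat_lit 0) (nat_lit 5) (nat_lit 4) true (nat_lit 6) true (nat_lit 11) true (nat_lit 7) true (nat_lit 14) true (nat_lit 10) (.e false (nat_lit 1) (nat_lit 63) (nat_lit 12) (nat_lit 6) (.e false (nat_lit 1) (nat_lit 143) (nat_lit 4) (nat_lit 11) (.e false (nat_lit 1) (nat_lit 212) (nat_lit 0) (nat_lit 14) (.e false (nat_lit 1) (nat_lit 216) (nat_lit 0) (nat_lit 14) (.e true (nat_lit 1) (nat_lit 218) (nat_lit 0) (nat_lit 14) (.e true (nat_lit 1) (nat_lit 220) (nat_lit 0) (nat_lit 14) (.e true (nat_lit 1) (nat_lit 110) (nat_lit 5) (nat_lit 10) .nil))))))))) (.nd (.nd (.nd (.nd (.nd .leaf (nat_lit 71691) (nat_lit 687) (.p (nat_lit 408) (nat_lit 1) (.p (nat_lit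 411) (nat_lit 1) (.p (nat_lit 412) (nat_lit 1) (.n (nat_lit 413) (nat_lit 1) (.n (nat_lit 414) (nat_lit 1) (.n (nat_lit 415) (nat_lit 2) (.n (nat_lit 416) (nat_lit 1) (.p (nat_lit 418) (nat_lit 1) (.p (nat_lit 419) (nat_lit 1) (.n (nat_lit 423) (nat_lit 1) (.n (nat_lit 424) (nat_lit 1) (.n (nat_lit 426) (nat_lit 1) (.n (nat_lit 427) (nat_lit 1) (.n (nat_lit 428) (nat_lit 1) (.n (nat_lit 429) (nat_lit 1) (.p (nat_lit 430) (nat_lit 1) (.p (nat_lit 432) (nat_lit 1) (.n (nat_lit 433) (nat_lit 1) (.p (nat_lit 435) (nat_lit 1) (.p (nat_lit 437) (nat_lit 1) (.n (nat_lit 438) (nat_lit 1) (.p (nat_lit 440) (nat_lit 1) (.n (nat_lit 441) (nat_lit 1) (.n (nat_lit 442) (nat_lit 1) (.p (nat_lit 445) (nat_lit 1) (.p (nat_lit 447) (nat_lit 1) (.n (nat_lit 448) (nat_lit 1) (.p (nat_lit 450) (nat_lit 1) .z)))))))))))))))))))))))))))) (.ct dF4_c1052945 (nat_lit 1) (nat_lit 7) (.s false (nat_lit 1) (nat_lit 11)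 (nat_lit 0) (nat_lit 5) (nat_lit 4) true (nat_lit 6) true (nat_lit 11) true (nat_lit 7) true (nat_lit 14) true (nat_lit 10) (.e false (nat_lit 1) (nat_lit 66) (nat_lit 12) (nat_lit 6) (.e false (nat_lit 1) (nat_lit 153) (nat_lit 4) (nat_lit 11) (.e false (nat_lit 1) (nat_lit 222) (nat_lit 0) (nat_lit 14) (.e false (nat_lit 1) (nat_lit 226) (nat_lit 0) (nat_lit 14) (.e true (nat_lit 1) (nat_lit 228) (nat_lit 0) (nat_lit 14) (.e true (nat_lit 1) (nat_lit 230) (nat_lit 0) (nat_lit 14) (.e true (nat_lit 1) (nat_lit 120) (nat_lit 5) (nat_lit 10) .nil))))))))) .leaf) (nat_lit 72705) (nat_lit 218) (.p (nat_lit 179) (nat_lit 1) .z) .df .leaf) (nat_lit 72706) (nat_lit 233) (.p (nat_lit 189) (nat_lit 1) .z) .df (.nd (.nd .leaf (nat_lit 72707) (nat_lit 263) (.p (nat_lit 209) (nat_lit 1) .z) .df .leaf) (nat_lit 72712) (nat_lit 522) (.n (nat_lit 320) (nat_lit 1) (.n (nat_lit 321) (nat_lit 3) (.n (nat_lit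 322) (nat_lit 2) (.n (nat_lit 323) (nat_lit 3) (.n (nat_lit 324) (nat_lit 1) (.p (nat_lit 325) (nat_lit 2) (.p (nat_lit 326) (nat_lit 2) (.p (nat_lit 327) (nat_lit 2) (.p (nat_lit 328) (nat_lit 1) (.n (nat_lit 330) (nat_lit 1) (.n (nat_lit 331) (nat_lit 3) (.n (nat_lit 332) (nat_lit 2) (.p (nat_lit 333) (nat_lit 2) (.p (nat_lit 334) (nat_lit 1) (.p (nat_lit 335) (nat_lit 4) (.p (nat_lit 336) (nat_lit 3) (.p (nat_lit 337) (nat_lit 1) (.p (nat_lit 338) (nat_lit 3) (.p (nat_lit 341) (nat_lit 3) (.n (nat_lit 342) (nat_lit 1) (.p (nat_lit 343) (nat_lit 1) (.n (nat_lit 344) (nat_lit 1) (.p (nat_lit 345) (nat_lit 1) (.n (nat_lit 347) (nat_lit 2) (.p (nat_lit 348) (nat_lit 1) (.n (nat_lit 349) (nat_lit 2) (.p (nat_lit 351) (nat_lit 2) (.p (nat_lit 352) (nat_lit 1) (.p (nat_lit 353) (nat_lit 3) (.p (nat_lit 354) (nat_lit 2) (.p (nat_lit 355) (nat_lit 1) (.p (nat_lit 356) (nat_lit 3) (.n (nat_lit 357)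 (nat_lit 2) (.n (nat_lit 358) (nat_lit 4) (.n (nat_lit 359) (nat_lit 1) (.n (nat_lit 360) (nat_lit 2) (.n (nat_lit 361) (nat_lit 3) .z))))))))))))))))))))))))))))))))))))) (.ct dF4_c1118225 (nat_lit 1) (nat_lit 7) (.s false (nat_lit 1) (nat_lit 8) (nat_lit 4) (nat_lit 5) (nat_lit 0) true (nat_lit 6) true (nat_lit 14) true (nat_lit 7) true (nat_lit 11) true (nat_lit 10) (.e true (nat_lit 1) (nat_lit 57) (nat_lit 12) (nat_lit 6) (.e false (nat_lit 1) (nat_lit 191) (nat_lit 0) (nat_lit 14) (.e true (nat_lit 1) (nat_lit 133) (nat_lit 4) (nat_lit 11) (.e true (nat_lit 1) (nat_lit 134) (nat_lit 4) (nat_lit 11) (.e true (nat_lit 1) (nat_lit 135) (nat_lit 4) (nat_lit 11) (.e true (nat_lit 1) (nat_lit 136) (nat_lit 4) (nat_lit 11) (.e false (nat_lit 1) (nat_lit 137) (nat_lit 4) (nat_lit 11) (.e false (nat_lit 1) (nat_lit 138) (nat_lit 4) (nat_lit 11) (.e false (nat_lit 1) (nat_lit 139) (nat_lit 4) (nat_lit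 11) (.e false (nat_lit 1) (nat_lit 140) (nat_lit 4) (nat_lit 11) (.e true (nat_lit 1) (nat_lit 93) (nat_lit 5) (nat_lit 10) .nil))))))))))))) .leaf)) (nat_lit 72714) (nat_lit 601) (.n (nat_lit 364) (nat_lit 1) (.n (nat_lit 365) (nat_lit 3) (.n (nat_lit 366) (nat_lit 2) (.n (nat_lit 367) (nat_lit 3) (.n (nat_lit 368) (nat_lit 1) (.p (nat_lit 369) (nat_lit 2) (.p (nat_lit 370) (nat_lit 2) (.p (nat_lit 371) (nat_lit 2) (.p (nat_lit 372) (nat_lit 1) (.n (nat_lit 374) (nat_lit 1) (.n (nat_lit 375) (nat_lit 3) (.n (nat_lit 376) (nat_lit 2) (.p (nat_lit 377) (nat_lit 2) (.p (nat_lit 378) (nat_lit 1) (.p (nat_lit 379) (nat_lit 4) (.p (nat_lit 380) (nat_lit 3) (.p (nat_lit 381) (nat_lit 1) (.p (nat_lit 382) (nat_lit 3) (.p (nat_lit 385) (nat_lit 3) (.n (nat_lit 386) (nat_lit 1) (.p (nat_lit 387) (nat_lit 1) (.n (nat_lit 388) (nat_lit 1) (.p (nat_lit 389) (nat_lit 1) (.n (nat_lit 391) (nat_lit 2) (.p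 (nat_lit 392) (nat_lit 1) (.n (nat_lit 393) (nat_lit 2) (.p (nat_lit 395) (nat_lit 2) (.p (nat_lit 396) (nat_lit 1) (.p (nat_lit 397) (nat_lit 3) (.p (nat_lit 398) (nat_lit 2) (.p (nat_lit 399) (nat_lit 1) (.p (nat_lit 400) (nat_lit 3) (.n (nat_lit 401) (nat_lit 2) (.n (nat_lit 402) (nat_lit 4) (.n (nat_lit 403) (nat_lit 1) (.n (nat_lit 404) (nat_lit 2) (.n (nat_lit 405) (nat_lit 3) .z))))))))))))))))))))))))))))))))))))) (.ct dF4_c1114385 (nat_lit 1) (nat_lit 7) (.s false (nat_lit 1) (nat_lit 10) (nat_lit 4) (nat_lit 5) (nat_lit 0) true (nat_lit 6) true (nat_lit 14) true (nat_lit 7) true (nat_lit 11) true (nat_lit 10) (.e true (nat_lit 1) (nat_lit 63) (nat_lit 12) (nat_lit 6) (.e false (nat_lit 1) (nat_lit 211) (nat_lit 0) (nat_lit 14) (.e true (nat_lit 1) (nat_lit 143) (nat_lit 4) (nat_lit 11) (.e true (nat_lit 1) (nat_lit 144) (nat_lit 4) (nat_lit 11) (.e true (nat_lit 1) (nat_lit 145) (nat_lit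 4) (nat_lit 11) (.e true (nat_lit 1) (nat_lit 146) (nat_lit 4) (nat_lit 11) (.e false (nat_lit 1) (nat_lit 147) (nat_lit 4) (nat_lit 11) (.e false (nat_lit 1) (nat_lit 148) (nat_lit 4) (nat_lit 11) (.e false (nat_lit 1) (nat_lit 149) (nat_lit 4) (nat_lit 11) (.e false (nat_lit 1) (nat_lit 150) (nat_lit 4) (nat_lit 11) (.e true (nat_lit 1) (nat_lit 103) (nat_lit 5) (nat_lit 10) .nil))))))))))))) (.nd (.nd (.nd .leaf (nat_lit 72715) (nat_lit 680) (.n (nat_lit 408) (nat_lit 1) (.n (nat_lit 409) (nat_lit 3) (.n (nat_lit 410) (nat_lit 2) (.n (nat_lit 411) (nat_lit 3) (.n (nat_lit 412) (nat_lit 1) (.p (nat_lit 413) (nat_lit 2) (.p (nat_lit 414) (nat_lit 2) (.p (nat_lit 415) (nat_lit 2) (.p (nat_lit 416) (nat_lit 1) (.n (nat_lit 418) (nat_lit 1) (.n (nat_lit 419) (nat_lit 3) (.n (nat_lit 420) (nat_lit 2) (.p (nat_lit 421) (nat_lit 2) (.p (nat_lit 422) (nat_lit 1) (.p (nat_lit 423) (nat_lit 4) (.p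 (nat_lit 424) (nat_lit 3) (.p (nat_lit 425) (nat_lit 1) (.p (nat_lit 426) (nat_lit 3) (.p (nat_lit 429) (nat_lit 3) (.n (nat_lit 430) (nat_lit 1) (.p (nat_lit 431) (nat_lit 1) (.n (nat_lit 432) (nat_lit 1) (.p (nat_lit 433) (nat_lit 1) (.n (nat_lit 435) (nat_lit 2) (.p (nat_lit 436) (nat_lit 1) (.n (nat_lit 437) (nat_lit 2) (.p (nat_lit 439) (nat_lit 2) (.p (nat_lit 440) (nat_lit 1) (.p (nat_lit 441) (nat_lit 3) (.p (nat_lit 442) (nat_lit 2) (.p (nat_lit 443) (nat_lit 1) (.p (nat_lit 444) (nat_lit 3) (.n (nat_lit 445) (nat_lit 2) (.n (nat_lit 446) (nat_lit 4) (.n (nat_lit 447) (nat_lit 1) (.n (nat_lit 448) (nat_lit 2) (.n (nat_lit 449) (nat_lit 3) .z))))))))))))))))))))))))))))))))))))) (.ct dF4_c1052945 (nat_lit 1) (nat_lit 7) (.s false (nat_lit 1) (nat_lit 11) (nat_lit 4) (nat_lit 5) (nat_lit 0) true (nat_lit 6) true (nat_lit 14) true (nat_lit 7) true (nat_lit 11) true (nat_lit 10) (.e true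 (nat_lit 1) (nat_lit 66) (nat_lit 12) (nat_lit 6) (.e false (nat_lit 1) (nat_lit 221) (nat_lit 0) (nat_lit 14) (.e true (nat_lit 1) (nat_lit 153) (nat_lit 4) (nat_lit 11) (.e true (nat_lit 1) (nat_lit 154) (nat_lit 4) (nat_lit 11) (.e true (nat_lit 1) (nat_lit 155) (nat_lit 4) (nat_lit 11) (.e true (nat_lit 1) (nat_lit 156) (nat_lit 4) (nat_lit 11) (.e false (nat_lit 1) (nat_lit 157) (nat_lit 4) (nat_lit 11) (.e false (nat_lit 1) (nat_lit 158) (nat_lit 4) (nat_lit 11) (.e false (nat_lit 1) (nat_lit 159) (nat_lit 4) (nat_lit 11) (.e false (nat_lit 1) (nat_lit 160) (nat_lit 4) (nat_lit 11) (.e true (nat_lit 1) (nat_lit 113) (nat_lit 5) (nat_lit 10) .nil))))))))))))) .leaf) (nat_lit 73728) (nat_lit 219) (.p (nat_lit 180) (nat_lit 1) .z) .df .leaf) (nat_lit 73730) (nat_lit 246) (.p (nat_lit 197) (nat_lit 1) .z) .df (.nd (.nd .leaf (nat_lit 73731) (nat_lit 276) (.p (nat_lit 217) (nat_lit 1) .z)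 .df .leaf) (nat_lit 73735) (nat_lit 532) (.n (nat_lit 320) (nat_lit 1) (.n (nat_lit 321) (nat_lit 2) (.n (nat_lit 322) (nat_lit 2) (.n (nat_lit 323) (nat_lit 3) (.n (nat_lit 324) (nat_lit 2) (.p (nat_lit 325) (nat_lit 2) (.p (nat_lit 326) (nat_lit 3) (.p (nat_lit 327) (nat_lit 3) (.p (nat_lit 328) (nat_lit 2) (.n (nat_lit 330) (nat_lit 2) (.n (nat_lit 331) (nat_lit 4) (.n (nat_lit 332) (nat_lit 1) (.p (nat_lit 333) (nat_lit 1) (.p (nat_lit 334) (nat_lit 1) (.p (nat_lit 335) (nat_lit 4) (.p (nat_lit 336) (nat_lit 3) (.p (nat_lit 337) (nat_lit 1) (.p (nat_lit 338) (nat_lit 3) (.p (nat_lit 341) (nat_lit 3) (.n (nat_lit 342) (nat_lit 1) (.p (nat_lit 343) (nat_lit 1) (.n (nat_lit 344) (nat_lit 1) (.p (nat_lit 345) (nat_lit 2) (.n (nat_lit 347) (nat_lit 2) (.p (nat_lit 348) (nat_lit 1) (.n (nat_lit 349) (nat_lit 2) (.p (nat_lit 350) (nat_lit 1) (.p (nat_lit 351) (nat_lit 1) (.p (nat_lit 353) (nat_lit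 3) (.p (nat_lit 354) (nat_lit 3) (.p (nat_lit 355) (nat_lit 1) (.p (nat_lit 356) (nat_lit 2) (.n (nat_lit 357) (nat_lit 2) (.n (nat_lit 358) (nat_lit 3) (.n (nat_lit 359) (nat_lit 2) (.n (nat_lit 360) (nat_lit 1) (.n (nat_lit 361) (nat_lit 2) (.n (nat_lit 362) (nat_lit 1) .z)))))))))))))))))))))))))))))))))))))) (.ct dF4_c1118225 (nat_lit 1) (nat_lit 8) (.s false (nat_lit 1) (nat_lit 7) (nat_lit 1) (nat_lit 4) (nat_lit 5) true (nat_lit 2) true (nat_lit 10) true (nat_lit 8) true (nat_lit 13) true (nat_lit 11) (.e false (nat_lit 1) (nat_lit 36) (nat_lit 17) (nat_lit 2) (.e false (nat_lit 1) (nat_lit 92) (nat_lit 5) (nat_lit 10) (.e true (nat_lit 1) (nat_lit 182) (nat_lit 1) (nat_lit 13) (.e true (nat_lit 1) (nat_lit 186) (nat_lit 1) (nat_lit 13) (.e false (nat_lit 1) (nat_lit 188) (nat_lit 1) (nat_lit 13) (.e false (nat_lit 1) (nat_lit 190) (nat_lit 1) (nat_lit 13) (.e true (nat_lit 1) (nat_lit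 137) (nat_lit 4) (nat_lit 11) .nil))))))))) .leaf))) (nat_lit 73739) (nat_lit 764) (.p (nat_lit 452) (nat_lit 1) (.n (nat_lit 453) (nat_lit 1) (.n (nat_lit 454) (nat_lit 1) (.n (nat_lit 455) (nat_lit 1) (.p (nat_lit 456) (nat_lit 1) (.n (nat_lit 459) (nat_lit 1) (.n (nat_lit 460) (nat_lit 1) (.n (nat_lit 464) (nat_lit 1) (.p (nat_lit 465) (nat_lit 1) (.p (nat_lit 467) (nat_lit 1) (.p (nat_lit 469) (nat_lit 1) (.n (nat_lit 471) (nat_lit 1) (.n (nat_lit 472) (nat_lit 1) (.p (nat_lit 474) (nat_lit 1) (.p (nat_lit 475) (nat_lit 1) (.p (nat_lit 476) (nat_lit 1) (.n (nat_lit 477) (nat_lit 1) (.p (nat_lit 480) (nat_lit 1) (.n (nat_lit 482) (nat_lit 2) (.p (nat_lit 483) (nat_lit 1) (.p (nat_lit 484) (nat_lit 1) (.p (nat_lit 488) (nat_lit 1) (.n (nat_lit 490) (nat_lit 1) (.p (nat_lit 491) (nat_lit 1) (.n (nat_lit 492) (nat_lit 1) (.n (nat_lit 493) (nat_lit 2) (.p (nat_lit 494) (nat_lit 1) .z)))))))))))))))))))))))))))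 (.ct dF4_c69905 (nat_lit 1) (nat_lit 7) (.s false (nat_lit 1) (nat_lit 11) (nat_lit 1) (nat_lit 4) (nat_lit 5) true (nat_lit 3) true (nat_lit 10) true (nat_lit 7) true (nat_lit 14) true (nat_lit 11) (.e false (nat_lit 1) (nat_lit 48) (nat_lit 17) (nat_lit 3) (.e false (nat_lit 1) (nat_lit 123) (nat_lit 5) (nat_lit 10) (.e true (nat_lit 1) (nat_lit 222) (nat_lit 1) (nat_lit 14) (.e true (nat_lit 1) (nat_lit 226) (nat_lit 1) (nat_lit 14) (.e false (nat_lit 1) (nat_lit 228) (nat_lit 1) (nat_lit 14) (.e false (nat_lit 1) (nat_lit 230) (nat_lit 1) (nat_lit 14) (.e true (nat_lit 1) (nat_lit 170) (nat_lit 4) (nat_lit 11) .nil))))))))) (.nd (.nd (.nd (.nd .leaf (nat_lit 74752) (nat_lit 220) (.p (nat_lit 172) (nat_lit 1) (.p (nat_lit 173) (nat_lit 1) (.p (nat_lit 175) (nat_lit 1) (.p (nat_lit 176) (nat_lit 1) (.n (nat_lit 177) (nat_lit 1) (.n (nat_lit 178) (nat_lit 1) (.n (nat_lit 180) (nat_lit 1) .z)))))))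 (.ct dF4_c1114129 (nat_lit 1) (nat_lit 6) (.s true (nat_lit 1) (nat_lit 5) (nat_lit 0) (nat_lit 4) (nat_lit 1) true (nat_lit 2) true (nat_lit 5) true (nat_lit 3) true (nat_lit 6) true (nat_lit 4) (.s true (nat_lit 1) (nat_lit 5) (nat_lit 1) (nat_lit 4) (nat_lit 0) true (nat_lit 2) true (nat_lit 6) true (nat_lit 3) true (nat_lit 5) true (nat_lit 4) (.e true (nat_lit 1) (nat_lit 70) (nat_lit 1) (nat_lit 5) (.e false (nat_lit 1) (nat_lit 34) (nat_lit 5) (nat_lit 3) (.e true (nat_lit 1) (nat_lit 72) (nat_lit 0) (nat_lit 6) (.e false (nat_lit 1) (nat_lit 53) (nat_lit 4) (nat_lit 4) (.e false (nat_lit 1) (nat_lit 35) (nat_lit 5) (nat_lit 3) (.e true (nat_lit 1) (nat_lit 69) (nat_lit 1) (nat_lit 5) (.e false (nat_lit 1) (nat_lit 52) (nat_lit 4) (nat_lit 4) .nil)))))))))) .leaf) (nat_lit 74754) (nat_lit 247) (.p (nat_lit 198) (nat_lit 1) .z) .df .leaf) (nat_lit 74755) (nat_lit 277) (.p (nat_lit 218)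 (nat_lit 1) .z) .df (.nd (.nd .leaf (nat_lit 74759) (nat_lit 533) (.p (nat_lit 319) (nat_lit 1) (.n (nat_lit 320) (nat_lit 1) (.n (nat_lit 323) (nat_lit 1) (.n (nat_lit 324) (nat_lit 1) (.p (nat_lit 325) (nat_lit 1) (.p (nat_lit 326) (nat_lit 1) (.p (nat_lit 327) (nat_lit 2) (.p (nat_lit 328) (nat_lit 1) (.n (nat_lit 333) (nat_lit 1) (.n (nat_lit 337) (nat_lit 1) (.p (nat_lit 339) (nat_lit 1) (.p (nat_lit 340) (nat_lit 1) (.n (nat_lit 342) (nat_lit 1) (.n (nat_lit 343) (nat_lit 1) (.n (nat_lit 344) (nat_lit 1) (.p (nat_lit 345) (nat_lit 1) (.p (nat_lit 350) (nat_lit 1) (.n (nat_lit 352) (nat_lit 1) (.n (nat_lit 356) (nat_lit 1) (.p (nat_lit 358) (nat_lit 1) (.p (nat_lit 360) (nat_lit 1) (.p (nat_lit 361) (nat_lit 1) .z)))))))))))))))))))))) (.ct dF4_c1118225 (nat_lit 1) (nat_lit 8) (.s false (nat_lit 1) (nat_lit 7) (nat_lit 1) (nat_lit 5) (nat_lit 4) true (nat_lit 5) true (nat_lit 11) true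 (nat_lit 8) true (nat_lit 13) true (nat_lit 10) (.e false (nat_lit 1) (nat_lit 54) (nat_lit 13) (nat_lit 5) (.e false (nat_lit 1) (nat_lit 132) (nat_lit 4) (nat_lit 11) (.e false (nat_lit 1) (nat_lit 182) (nat_lit 1) (nat_lit 13) (.e false (nat_lit 1) (nat_lit 186) (nat_lit 1) (nat_lit 13) (.e true (nat_lit 1) (nat_lit 188) (nat_lit 1) (nat_lit 13) (.e true (nat_lit 1) (nat_lit 190) (nat_lit 1) (nat_lit 13) (.e true (nat_lit 1) (nat_lit 97) (nat_lit 5) (nat_lit 10) .nil))))))))) .leaf) (nat_lit 74761) (nat_lit 611) (.p (nat_lit 363) (nat_lit 1) (.n (nat_lit 364) (nat_lit 1) (.n (nat_lit 367) (nat_lit 1) (.n (nat_lit 368) (nat_lit 1) (.p (nat_lit 369) (nat_lit 1) (.p (nat_lit 370) (nat_lit 1) (.p (nat_lit 371) (nat_lit 2) (.p (nat_lit 372) (nat_lit 1) (.n (nat_lit 377) (nat_lit 1) (.n (nat_lit 381) (nat_lit 1) (.p (nat_lit 383) (nat_lit 1) (.p (nat_lit 384) (nat_lit 1) (.n (nat_lit 386) (nat_lit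 1) (.n (nat_lit 387) (nat_lit 1) (.n (nat_lit 388) (nat_lit 1) (.p (nat_lit 389) (nat_lit 1) (.p (nat_lit 394) (nat_lit 1) (.n (nat_lit 396) (nat_lit 1) (.n (nat_lit 400) (nat_lit 1) (.p (nat_lit 402) (nat_lit 1) (.p (nat_lit 404) (nat_lit 1) (.p (nat_lit 405) (nat_lit 1) .z)))))))))))))))))))))) (.ct dF4_c1114385 (nat_lit 1) (nat_lit 8) (.s false (nat_lit 1) (nat_lit 9) (nat_lit 1) (nat_lit 5) (nat_lit 4) true (nat_lit 5) true (nat_lit 11) true (nat_lit 8) true (nat_lit 13) true (nat_lit 10) (.e false (nat_lit 1) (nat_lit 60) (nat_lit 13) (nat_lit 5) (.e false (nat_lit 1) (nat_lit 142) (nat_lit 4) (nat_lit 11) (.e false (nat_lit 1) (nat_lit 202) (nat_lit 1) (nat_lit 13) (.e false (nat_lit 1) (nat_lit 206) (nat_lit 1) (nat_lit 13) (.e true (nat_lit 1) (nat_lit 208) (nat_lit 1) (nat_lit 13) (.e true (nat_lit 1) (nat_lit 210) (nat_lit 1) (nat_lit 13) (.e true (nat_lit 1) (nat_lit 107) (nat_lit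 5) (nat_lit 10) .nil))))))))) .leaf)) (nat_lit 74763) (nat_lit 765) (.p (nat_lit 452) (nat_lit 1) (.p (nat_lit 455) (nat_lit 1) (.p (nat_lit 456) (nat_lit 1) (.n (nat_lit 457) (nat_lit 1) (.n (nat_lit 458) (nat_lit 1) (.n (nat_lit 459) (nat_lit 2) (.n (nat_lit 460) (nat_lit 1) (.p (nat_lit 462) (nat_lit 1) (.p (nat_lit 463) (nat_lit 1) (.n (nat_lit 467) (nat_lit 1) (.n (nat_lit 468) (nat_lit 1) (.n (nat_lit 470) (nat_lit 1) (.n (nat_lit 471) (nat_lit 1) (.n (nat_lit 472) (nat_lit 1) (.n (nat_lit 473) (nat_lit 1) (.p (nat_lit 474) (nat_lit 1) (.p (nat_lit 476) (nat_lit 1) (.n (nat_lit 477) (nat_lit 1) (.p (nat_lit 479) (nat_lit 1) (.p (nat_lit 481) (nat_lit 1) (.n (nat_lit 482) (nat_lit 1) (.p (nat_lit 484) (nat_lit 1) (.n (nat_lit 485) (nat_lit 1) (.n (nat_lit 486) (nat_lit 1) (.p (nat_lit 489) (nat_lit 1) (.p (nat_lit 491) (nat_lit 1) (.n (nat_lit 492) (nat_lit 1) (.p (nat_lit 494) (nat_lit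 1) .z)))))))))))))))))))))))))))) (.ct dF4_c69905 (nat_lit 1) (nat_lit 7) (.s false (nat_lit 1) (nat_lit 11) (nat_lit 1) (nat_lit 5) (nat_lit 4) true (nat_lit 6) true (nat_lit 11) true (nat_lit 7) true (nat_lit 14) true (nat_lit 10) (.e false (nat_lit 1) (nat_lit 66) (nat_lit 13) (nat_lit 6) (.e false (nat_lit 1) (nat_lit 163) (nat_lit 4) (nat_lit 11) (.e false (nat_lit 1) (nat_lit 222) (nat_lit 1) (nat_lit 14) (.e false (nat_lit 1) (nat_lit 226) (nat_lit 1) (nat_lit 14) (.e true (nat_lit 1) (nat_lit 228) (nat_lit 1) (nat_lit 14) (.e true (nat_lit 1) (nat_lit 230) (nat_lit 1) (nat_lit 14) (.e true (nat_lit 1) (nat_lit 130) (nat_lit 5) (nat_lit 10) .nil))))))))) (.nd (.nd (.nd .leaf (nat_lit 75776) (nat_lit 221) (.p (nat_lit 171) (nat_lit 1) (.n (nat_lit 173) (nat_lit 1) (.n (nat_lit 174) (nat_lit 1) (.n (nat_lit 175) (nat_lit 1) (.p (nat_lit 178) (nat_lit 1) (.p (nat_lit 179) (nat_lit 1) (.p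 (nat_lit 180) (nat_lit 1) .z))))))) (.ct dF4_c1114129 (nat_lit 1) (nat_lit 6) (.s false (nat_lit 1) (nat_lit 5) (nat_lit 1) (nat_lit 0) (nat_lit 4) true (nat_lit 0) true (nat_lit 4) true (nat_lit 3) true (nat_lit 5) true (nat_lit 6) (.s false (nat_lit 1) (nat_lit 5) (nat_lit 4) (nat_lit 0) (nat_lit 1) true (nat_lit 0) true (nat_lit 5) true (nat_lit 3) true (nat_lit 4) true (nat_lit 6) (.e false (nat_lit 1) (nat_lit 53) (nat_lit 4) (nat_lit 4) (.e false (nat_lit 1) (nat_lit 33) (nat_lit 5) (nat_lit 3) (.e true (nat_lit 1) (nat_lit 69) (nat_lit 1) (nat_lit 5) (.e false (nat_lit 1) (nat_lit 71) (nat_lit 1) (nat_lit 5) (.e false (nat_lit 1) (nat_lit 34) (nat_lit 5) (nat_lit 3) (.e true (nat_lit 1) (nat_lit 51) (nat_lit 4) (nat_lit 4) (.e true (nat_lit 1) (nat_lit 73) (nat_lit 0) (nat_lit 6) .nil)))))))))) .leaf) (nat_lit 75778) (nat_lit 248) (.p (nat_lit 199) (nat_lit 1) .z) .df .leaf) (nat_lit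 75779) (nat_lit 278) (.p (nat_lit 219) (nat_lit 1) .z) .df (.nd (.nd .leaf (nat_lit 75783) (nat_lit 534) (.n (nat_lit 320) (nat_lit 1) (.n (nat_lit 321) (nat_lit 1) (.n (nat_lit 322) (nat_lit 1) (.n (nat_lit 323) (nat_lit 1) (.n (nat_lit 324) (nat_lit 1) (.p (nat_lit 325) (nat_lit 1) (.p (nat_lit 326) (nat_lit 1) (.p (nat_lit 327) (nat_lit 1) (.p (nat_lit 328) (nat_lit 1) (.n (nat_lit 330) (nat_lit 1) (.n (nat_lit 331) (nat_lit 2) (.n (nat_lit 332) (nat_lit 1) (.p (nat_lit 333) (nat_lit 1) (.p (nat_lit 334) (nat_lit 1) (.p (nat_lit 335) (nat_lit 2) (.p (nat_lit 336) (nat_lit 2) (.p (nat_lit 338) (nat_lit 1) (.p (nat_lit 341) (nat_lit 1) (.p (nat_lit 345) (nat_lit 1) (.n (nat_lit 347) (nat_lit 1) (.n (nat_lit 349) (nat_lit 1) (.p (nat_lit 351) (nat_lit 1) (.p (nat_lit 353) (nat_lit 1) (.p (nat_lit 354) (nat_lit 1) (.p (nat_lit 356) (nat_lit 1) (.n (nat_lit 357) (nat_lit 1) (.n (nat_lit 358)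 (nat_lit 1) (.n (nat_lit 361) (nat_lit 1) .z)))))))))))))))))))))))))))) (.ct dF4_c1118225 (nat_lit 1) (nat_lit 8) (.s false (nat_lit 1) (nat_lit 7) (nat_lit 4) (nat_lit 5) (nat_lit 1) true (nat_lit 5) true (nat_lit 13) true (nat_lit 8) true (nat_lit 11) true (nat_lit 10) (.e true (nat_lit 1) (nat_lit 54) (nat_lit 13) (nat_lit 5) (.e false (nat_lit 1) (nat_lit 181) (nat_lit 1) (nat_lit 13) (.e false (nat_lit 1) (nat_lit 131) (nat_lit 4) (nat_lit 11) (.e true (nat_lit 1) (nat_lit 135) (nat_lit 4) (nat_lit 11) (.e false (nat_lit 1) (nat_lit 139) (nat_lit 4) (nat_lit 11) (.e false (nat_lit 1) (nat_lit 140) (nat_lit 4) (nat_lit 11) (.e true (nat_lit 1) (nat_lit 92) (nat_lit 5) (nat_lit 10) .nil))))))))) .leaf) (nat_lit 75785) (nat_lit 612) (.n (nat_lit 364) (nat_lit 1) (.n (nat_lit 365) (nat_lit 1) (.n (nat_lit 366) (nat_lit 1) (.n (nat_lit 367) (nat_lit 1) (.n (nat_lit 368) (nat_lit 1) (.p (nat_lit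 369) (nat_lit 1) (.p (nat_lit 370) (nat_lit 1) (.p (nat_lit 371) (nat_lit 1) (.p (nat_lit 372) (nat_lit 1) (.n (nat_lit 374) (nat_lit 1) (.n (nat_lit 375) (nat_lit 2) (.n (nat_lit 376) (nat_lit 1) (.p (nat_lit 377) (nat_lit 1) (.p (nat_lit 378) (nat_lit 1) (.p (nat_lit 379) (nat_lit 2) (.p (nat_lit 380) (nat_lit 2) (.p (nat_lit 382) (nat_lit 1) (.p (nat_lit 385) (nat_lit 1) (.p (nat_lit 389) (nat_lit 1) (.n (nat_lit 391) (nat_lit 1) (.n (nat_lit 393) (nat_lit 1) (.p (nat_lit 395) (nat_lit 1) (.p (nat_lit 397) (nat_lit 1) (.p (nat_lit 398) (nat_lit 1) (.p (nat_lit 400) (nat_lit 1) (.n (nat_lit 401) (nat_lit 1) (.n (nat_lit 402) (nat_lit 1) (.n (nat_lit 405) (nat_lit 1) .z)))))))))))))))))))))))))))) (.ct dF4_c1114385 (nat_lit 1) (nat_lit 8) (.s false (nat_lit 1) (nat_lit 9) (nat_lit 4) (nat_lit 5) (nat_lit 1) true (nat_lit 5) true (nat_lit 13) true (nat_lit 8) true (nat_lit 11) true (nat_lit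 10) (.e true (nat_lit 1) (nat_lit 60) (nat_lit 13) (nat_lit 5) (.e false (nat_lit 1) (nat_lit 201) (nat_lit 1) (nat_lit 13) (.e false (nat_lit 1) (nat_lit 141) (nat_lit 4) (nat_lit 11) (.e true (nat_lit 1) (nat_lit 145) (nat_lit 4) (nat_lit 11) (.e false (nat_lit 1) (nat_lit 149) (nat_lit 4) (nat_lit 11) (.e false (nat_lit 1) (nat_lit 150) (nat_lit 4) (nat_lit 11) (.e true (nat_lit 1) (nat_lit 102) (nat_lit 5) (nat_lit 10) .nil))))))))) .leaf))))) (nat_lit 75787) (nat_lit 757) (.n (nat_lit 452) (nat_lit 1) (.n (nat_lit 453) (nat_lit 3) (.n (nat_lit 454) (nat_lit 2) (.n (nat_lit 455) (nat_lit 3) (.n (nat_lit 456) (nat_lit 1) (.p (nat_lit 457) (nat_lit 2) (.p (nat_lit 458) (nat_lit 2) (.p (nat_lit 459) (nat_lit 2) (.p (nat_lit 460) (nat_lit 1) (.n (nat_lit 462) (nat_lit 1) (.n (nat_lit 463) (nat_lit 3) (.n (nat_lit 464) (nat_lit 2) (.p (nat_lit 465) (nat_lit 2) (.p (nat_lit 466) (nat_lit 1) (.p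 (nat_lit 467) (nat_lit 4) (.p (nat_lit 468) (nat_lit 3) (.p (nat_lit 469) (nat_lit 1) (.p (nat_lit 470) (nat_lit 3) (.p (nat_lit 473) (nat_lit 3) (.n (nat_lit 474) (nat_lit 1) (.p (nat_lit 475) (nat_lit 1) (.n (nat_lit 476) (nat_lit 1) (.p (nat_lit 477) (nat_lit 1) (.n (nat_lit 479) (nat_lit 2) (.p (nat_lit 480) (nat_lit 1) (.n (nat_lit 481) (nat_lit 2) (.p (nat_lit 483) (nat_lit 2) (.p (nat_lit 484) (nat_lit 1) (.p (nat_lit 485) (nat_lit 3) (.p (nat_lit 486) (nat_lit 2) (.p (nat_lit 487) (nat_lit 1) (.p (nat_lit 488) (nat_lit 3) (.n (nat_lit 489) (nat_lit 2) (.n (nat_lit 490) (nat_lit 4) (.n (nat_lit 491) (nat_lit 1) (.n (nat_lit 492) (nat_lit 2) (.n (nat_lit 493) (nat_lit 3) .z))))))))))))))))))))))))))))))))))))) (.ct dF4_c69905 (nat_lit 1) (nat_lit 7) (.s false (nat_lit 1) (nat_lit 11) (nat_lit 4) (nat_lit 5) (nat_lit 1) true (nat_lit 6) true (nat_lit 14) true (nat_lit 7) true (nat_lit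 11) true (nat_lit 10) (.e true (nat_lit 1) (nat_lit 66) (nat_lit 13) (nat_lit 6) (.e false (nat_lit 1) (nat_lit 221) (nat_lit 1) (nat_lit 14) (.e true (nat_lit 1) (nat_lit 163) (nat_lit 4) (nat_lit 11) (.e true (nat_lit 1) (nat_lit 164) (nat_lit 4) (nat_lit 11) (.e true (nat_lit 1) (nat_lit 165) (nat_lit 4) (nat_lit 11) (.e true (nat_lit 1) (nat_lit 166) (nat_lit 4) (nat_lit 11) (.e false (nat_lit 1) (nat_lit 167) (nat_lit 4) (nat_lit 11) (.e false (nat_lit 1) (nat_lit 168) (nat_lit 4) (nat_lit 11) (.e false (nat_lit 1) (nat_lit 169) (nat_lit 4) (nat_lit 11) (.e false (nat_lit 1) (nat_lit 170) (nat_lit 4) (nat_lit 11) (.e true (nat_lit 1) (nat_lit 123) (nat_lit 5) (nat_lit 10) .nil))))))))))))) (.nd (.nd (.nd (.nd (.nd (.nd .leaf (nat_lit 76800) (nat_lit 234) (.p (nat_lit 190) (nat_lit 1) .z) .df .leaf) (nat_lit 76801) (nat_lit 249) (.p (nat_lit 200) (nat_lit 1) .z) .df .leaf) (nat_lit 76803)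 (nat_lit 291) (.p (nat_lit 227) (nat_lit 1) .z) .df (.nd (.nd .leaf (nat_lit 76806) (nat_lit 535) (.p (nat_lit 319) (nat_lit 1) (.n (nat_lit 321) (nat_lit 2) (.n (nat_lit 322) (nat_lit 2) (.n (nat_lit 323) (nat_lit 2) (.p (nat_lit 325) (nat_lit 1) (.p (nat_lit 326) (nat_lit 1) (.p (nat_lit 327) (nat_lit 1) (.n (nat_lit 331) (nat_lit 1) (.n (nat_lit 332) (nat_lit 1) (.p (nat_lit 333) (nat_lit 1) (.p (nat_lit 335) (nat_lit 2) (.p (nat_lit 336) (nat_lit 1) (.p (nat_lit 337) (nat_lit 1) (.p (nat_lit 338) (nat_lit 1) (.n (nat_lit 339) (nat_lit 1) (.n (nat_lit 340) (nat_lit 1) (.p (nat_lit 341) (nat_lit 1) (.p (nat_lit 342) (nat_lit 1) (.p (nat_lit 343) (nat_lit 1) (.p (nat_lit 344) (nat_lit 1) (.n (nat_lit 347) (nat_lit 1) (.p (nat_lit 348) (nat_lit 1) (.n (nat_lit 349) (nat_lit 1) (.n (nat_lit 350) (nat_lit 1) (.p (nat_lit 351) (nat_lit 1) (.p (nat_lit 352) (nat_lit 1) (.p (nat_lit 353) (nat_lit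 2) (.p (nat_lit 354) (nat_lit 1) (.p (nat_lit 355) (nat_lit 1) (.p (nat_lit 356) (nat_lit 2) (.n (nat_lit 357) (nat_lit 1) (.n (nat_lit 358) (nat_lit 3) (.n (nat_lit 360) (nat_lit 2) (.n (nat_lit 361) (nat_lit 2) (.p (nat_lit 362) (nat_lit 1) .z))))))))))))))))))))))))))))))))))) (.ct dF4_c1118225 (nat_lit 1) (nat_lit 9) (.s false (nat_lit 1) (nat_lit 6) (nat_lit 2) (nat_lit 4) (nat_lit 5) true (nat_lit 1) true (nat_lit 10) true (nat_lit 9) true (nat_lit 12) true (nat_lit 11) (.e false (nat_lit 1) (nat_lit 33) (nat_lit 18) (nat_lit 1) (.e false (nat_lit 1) (nat_lit 91) (nat_lit 5) (nat_lit 10) (.e true (nat_lit 1) (nat_lit 172) (nat_lit 2) (nat_lit 12) (.e true (nat_lit 1) (nat_lit 176) (nat_lit 2) (nat_lit 12) (.e false (nat_lit 1) (nat_lit 178) (nat_lit 2) (nat_lit 12) (.e false (nat_lit 1) (nat_lit 180) (nat_lit 2) (nat_lit 12) (.e true (nat_lit 1) (nat_lit 134) (nat_lit 4) (nat_lit 11)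 .nil))))))))) .leaf) (nat_lit 76809) (nat_lit 688) (.n (nat_lit 408) (nat_lit 1) (.n (nat_lit 409) (nat_lit 2) (.n (nat_lit 410) (nat_lit 2) (.n (nat_lit 411) (nat_lit 3) (.n (nat_lit 412) (nat_lit 2) (.p (nat_lit 413) (nat_lit 2) (.p (nat_lit 414) (nat_lit 3) (.p (nat_lit 415) (nat_lit 3) (.p (nat_lit 416) (nat_lit 2) (.n (nat_lit 418) (nat_lit 2) (.n (nat_lit 419) (nat_lit 4) (.n (nat_lit 420) (nat_lit 1) (.p (nat_lit 421) (nat_lit 1) (.p (nat_lit 422) (nat_lit 1) (.p (nat_lit 423) (nat_lit 4) (.p (nat_lit 424) (nat_lit 3) (.p (nat_lit 425) (nat_lit 1) (.p (nat_lit 426) (nat_lit 3) (.p (nat_lit 429) (nat_lit 3) (.n (nat_lit 430) (nat_lit 1) (.p (nat_lit 431) (nat_lit 1) (.n (nat_lit 432) (nat_lit 1) (.p (nat_lit 433) (nat_lit 2) (.n (nat_lit 435) (nat_lit 2) (.p (nat_lit 436) (nat_lit 1) (.n (nat_lit 437) (nat_lit 2) (.p (nat_lit 438) (nat_lit 1) (.p (nat_lit 439) (nat_lit 1) (.p (nat_lit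 441) (nat_lit 3) (.p (nat_lit 442) (nat_lit 3) (.p (nat_lit 443) (nat_lit 1) (.p (nat_lit 444) (nat_lit 2) (.n (nat_lit 445) (nat_lit 2) (.n (nat_lit 446) (nat_lit 3) (.n (nat_lit 447) (nat_lit 2) (.n (nat_lit 448) (nat_lit 1) (.n (nat_lit 449) (nat_lit 2) (.n (nat_lit 450) (nat_lit 1) .z)))))))))))))))))))))))))))))))))))))) (.ct dF4_c1052945 (nat_lit 1) (nat_lit 8) (.s false (nat_lit 1) (nat_lit 9) (nat_lit 2) (nat_lit 4) (nat_lit 5) true (nat_lit 2) true (nat_lit 10) true (nat_lit 8) true (nat_lit 13) true (nat_lit 11) (.e false (nat_lit 1) (nat_lit 42) (nat_lit 18) (nat_lit 2) (.e false (nat_lit 1) (nat_lit 112) (nat_lit 5) (nat_lit 10) (.e true (nat_lit 1) (nat_lit 202) (nat_lit 2) (nat_lit 13) (.e true (nat_lit 1) (nat_lit 206) (nat_lit 2) (nat_lit 13) (.e false (nat_lit 1) (nat_lit 208) (nat_lit 2) (nat_lit 13) (.e false (nat_lit 1) (nat_lit 210) (nat_lit 2) (nat_lit 13) (.e true (nat_lit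 1) (nat_lit 157) (nat_lit 4) (nat_lit 11) .nil))))))))) .leaf)) (nat_lit 76810) (nat_lit 766) (.n (nat_lit 452) (nat_lit 1) (.n (nat_lit 453) (nat_lit 2) (.n (nat_lit 454) (nat_lit 2) (.n (nat_lit 455) (nat_lit 3) (.n (nat_lit 456) (nat_lit 2) (.p (nat_lit 457) (nat_lit 2) (.p (nat_lit 458) (nat_lit 3) (.p (nat_lit 459) (nat_lit 3) (.p (nat_lit 460) (nat_lit 2) (.n (nat_lit 462) (nat_lit 2) (.n (nat_lit 463) (nat_lit 4) (.n (nat_lit 464) (nat_lit 1) (.p (nat_lit 465) (nat_lit 1) (.p (nat_lit 466) (nat_lit 1) (.p (nat_lit 467) (nat_lit 4) (.p (nat_lit 468) (nat_lit 3) (.p (nat_lit 469) (nat_lit 1) (.p (nat_lit 470) (nat_lit 3) (.p (nat_lit 473) (nat_lit 3) (.n (nat_lit 474) (nat_lit 1) (.p (nat_lit 475) (nat_lit 1) (.n (nat_lit 476) (nat_lit 1) (.p (nat_lit 477) (nat_lit 2) (.n (nat_lit 479) (nat_lit 2) (.p (nat_lit 480) (nat_lit 1) (.n (nat_lit 481) (nat_lit 2) (.p (nat_lit 482) (nat_lit 1)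 (.p (nat_lit 483) (nat_lit 1) (.p (nat_lit 485) (nat_lit 3) (.p (nat_lit 486) (nat_lit 3) (.p (nat_lit 487) (nat_lit 1) (.p (nat_lit 488) (nat_lit 2) (.n (nat_lit 489) (nat_lit 2) (.n (nat_lit 490) (nat_lit 3) (.n (nat_lit 491) (nat_lit 2) (.n (nat_lit 492) (nat_lit 1) (.n (nat_lit 493) (nat_lit 2) (.n (nat_lit 494) (nat_lit 1) .z)))))))))))))))))))))))))))))))))))))) (.ct dF4_c69905 (nat_lit 1) (nat_lit 8) (.s false (nat_lit 1) (nat_lit 10) (nat_lit 2) (nat_lit 4) (nat_lit 5) true (nat_lit 2) true (nat_lit 10) true (nat_lit 8) true (nat_lit 13) true (nat_lit 11) (.e false (nat_lit 1) (nat_lit 45) (nat_lit 18) (nat_lit 2) (.e false (nat_lit 1) (nat_lit 122) (nat_lit 5) (nat_lit 10) (.e true (nat_lit 1) (nat_lit 212) (nat_lit 2) (nat_lit 13) (.e true (nat_lit 1) (nat_lit 216) (nat_lit 2) (nat_lit 13) (.e false (nat_lit 1) (nat_lit 218) (nat_lit 2) (nat_lit 13) (.e false (nat_lit 1) (nat_lit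 220) (nat_lit 2) (nat_lit 13) (.e true (nat_lit 1) (nat_lit 167) (nat_lit 4) (nat_lit 11) .nil))))))))) (.nd (.nd (.nd .leaf (nat_lit 77824) (nat_lit 235) (.p (nat_lit 182) (nat_lit 1) (.p (nat_lit 183) (nat_lit 1) (.p (nat_lit 185) (nat_lit 1) (.p (nat_lit 186) (nat_lit 1) (.n (nat_lit 187) (nat_lit 1) (.n (nat_lit 188) (nat_lit 1) (.n (nat_lit 190) (nat_lit 1) .z))))))) (.ct dF4_c1052689 (nat_lit 1) (nat_lit 6) (.s true (nat_lit 1) (nat_lit 5) (nat_lit 0) (nat_lit 4) (nat_lit 2) true (nat_lit 2) true (nat_lit 5) true (nat_lit 3) true (nat_lit 6) true (nat_lit 4) (.s true (nat_lit 1) (nat_lit 5) (nat_lit 2) (nat_lit 4) (nat_lit 0) true (nat_lit 2) true (nat_lit 6) true (nat_lit 3) true (nat_lit 5) true (nat_lit 4) (.e true (nat_lit 1) (nat_lit 70) (nat_lit 2) (nat_lit 5) (.e false (nat_lit 1) (nat_lit 37) (nat_lit 5) (nat_lit 3) (.e true (nat_lit 1) (nat_lit 75) (nat_lit 0) (nat_lit 6) (.e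 false (nat_lit 1) (nat_lit 56) (nat_lit 4) (nat_lit 4) (.e false (nat_lit 1) (nat_lit 38) (nat_lit 5) (nat_lit 3) (.e true (nat_lit 1) (nat_lit 69) (nat_lit 2) (nat_lit 5) (.e false (nat_lit 1) (nat_lit 55) (nat_lit 4) (nat_lit 4) .nil)))))))))) .leaf) (nat_lit 77825) (nat_lit 250) (.p (nat_lit 192) (nat_lit 1) (.p (nat_lit 193) (nat_lit 1) (.p (nat_lit 195) (nat_lit 1) (.p (nat_lit 196) (nat_lit 1) (.n (nat_lit 197) (nat_lit 1) (.n (nat_lit 198) (nat_lit 1) (.n (nat_lit 200) (nat_lit 1) .z))))))) (.ct dF4_c69649 (nat_lit 1) (nat_lit 6) (.s true (nat_lit 1) (nat_lit 5) (nat_lit 1) (nat_lit 4) (nat_lit 2) true (nat_lit 2) true (nat_lit 5) true (nat_lit 3) true (nat_lit 6) true (nat_lit 4) (.s true (nat_lit 1) (nat_lit 5) (nat_lit 2) (nat_lit 4) (nat_lit 1) true (nat_lit 2) true (nat_lit 6) true (nat_lit 3) true (nat_lit 5) true (nat_lit 4) (.e true (nat_lit 1) (nat_lit 73) (nat_lit 2) (nat_lit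 5) (.e false (nat_lit 1) (nat_lit 40) (nat_lit 5) (nat_lit 3) (.e true (nat_lit 1) (nat_lit 75) (nat_lit 1) (nat_lit 6) (.e false (nat_lit 1) (nat_lit 59) (nat_lit 4) (nat_lit 4) (.e false (nat_lit 1) (nat_lit 41) (nat_lit 5) (nat_lit 3) (.e true (nat_lit 1) (nat_lit 72) (nat_lit 2) (nat_lit 5) (.e false (nat_lit 1) (nat_lit 58) (nat_lit 4) (nat_lit 4) .nil)))))))))) .leaf) (nat_lit 77827) (nat_lit 292) (.p (nat_lit 228) (nat_lit 1) .z) .df (.nd (.nd .leaf (nat_lit 77830) (nat_lit 536) (.n (nat_lit 322) (nat_lit 1) (.p (nat_lit 328) (nat_lit 1) (.p (nat_lit 338) (nat_lit 1) (.p (nat_lit 341) (nat_lit 1) (.n (nat_lit 342) (nat_lit 1) (.n (nat_lit 344) (nat_lit 1) (.p (nat_lit 362) (nat_lit 1) .z))))))) (.ct dF4_c1118225 (nat_lit 1) (nat_lit 9) (.s false (nat_lit 1) (nat_lit 6) (nat_lit 2) (nat_lit 5) (nat_lit 4) true (nat_lit 4) true (nat_lit 11) true (nat_lit 9) true (nat_lit 12) true (nat_lit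 10) (.e false (nat_lit 1) (nat_lit 51) (nat_lit 14) (nat_lit 4) (.e false (nat_lit 1) (nat_lit 131) (nat_lit 4) (nat_lit 11) (.e false (nat_lit 1) (nat_lit 172) (nat_lit 2) (nat_lit 12) (.e false (nat_lit 1) (nat_lit 176) (nat_lit 2) (nat_lit 12) (.e true (nat_lit 1) (nat_lit 178) (nat_lit 2) (nat_lit 12) (.e true (nat_lit 1) (nat_lit 180) (nat_lit 2) (nat_lit 12) (.e true (nat_lit 1) (nat_lit 94) (nat_lit 5) (nat_lit 10) .nil))))))))) .leaf) (nat_lit 77833) (nat_lit 689) (.p (nat_lit 407) (nat_lit 1) (.n (nat_lit 408) (nat_lit 1) (.n (nat_lit 411) (nat_lit 1) (.n (nat_lit 412) (nat_lit 1) (.p (nat_lit 413) (nat_lit 1) (.p (nat_lit 414) (nat_lit 1) (.p (nat_lit 415) (nat_lit 2) (.p (nat_lit 416) (nat_lit 1) (.n (nat_lit 421) (nat_lit 1) (.n (nat_lit 425) (nat_lit 1) (.p (nat_lit 427) (nat_lit 1) (.p (nat_lit 428) (nat_lit 1) (.n (nat_lit 430) (nat_lit 1) (.n (nat_lit 431) (nat_lit 1) (.n (nat_lit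 432) (nat_lit 1) (.p (nat_lit 433) (nat_lit 1) (.p (nat_lit 438) (nat_lit 1) (.n (nat_lit 440) (nat_lit 1) (.n (nat_lit 444) (nat_lit 1) (.p (nat_lit 446) (nat_lit 1) (.p (nat_lit 448) (nat_lit 1) (.p (nat_lit 449) (nat_lit 1) .z)))))))))))))))))))))) (.ct dF4_c1052945 (nat_lit 1) (nat_lit 8) (.s false (nat_lit 1) (nat_lit 9) (nat_lit 2) (nat_lit 5) (nat_lit 4) true (nat_lit 5) true (nat_lit 11) true (nat_lit 8) true (nat_lit 13) true (nat_lit 10) (.e false (nat_lit 1) (nat_lit 60) (nat_lit 14) (nat_lit 5) (.e false (nat_lit 1) (nat_lit 152) (nat_lit 4) (nat_lit 11) (.e false (nat_lit 1) (nat_lit 202) (nat_lit 2) (nat_lit 13) (.e false (nat_lit 1) (nat_lit 206) (nat_lit 2) (nat_lit 13) (.e true (nat_lit 1) (nat_lit 208) (nat_lit 2) (nat_lit 13) (.e true (nat_lit 1) (nat_lit 210) (nat_lit 2) (nat_lit 13) (.e true (nat_lit 1) (nat_lit 117) (nat_lit 5) (nat_lit 10) .nil))))))))) .leaf))) (nat_lit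 77834) (nat_lit 767) (.p (nat_lit 451) (nat_lit 1) (.n (nat_lit 452) (nat_lit 1) (.n (nat_lit 455) (nat_lit 1) (.n (nat_lit 456) (nat_lit 1) (.p (nat_lit 457) (nat_lit 1) (.p (nat_lit 458) (nat_lit 1) (.p (nat_lit 459) (nat_lit 2) (.p (nat_lit 460) (nat_lit 1) (.n (nat_lit 465) (nat_lit 1) (.n (nat_lit 469) (nat_lit 1) (.p (nat_lit 471) (nat_lit 1) (.p (nat_lit 472) (nat_lit 1) (.n (nat_lit 474) (nat_lit 1) (.n (nat_lit 475) (nat_lit 1) (.n (nat_lit 476) (nat_lit 1) (.p (nat_lit 477) (nat_lit 1) (.p (nat_lit 482) (nat_lit 1) (.n (nat_lit 484) (nat_lit 1) (.n (nat_lit 488) (nat_lit 1) (.p (nat_lit 490) (nat_lit 1) (.p (nat_lit 492) (nat_lit 1) (.p (nat_lit 493) (nat_lit 1) .z)))))))))))))))))))))) (.ct dF4_c69905 (nat_lit 1) (nat_lit 8) (.s false (nat_lit 1) (nat_lit 10) (nat_lit 2) (nat_lit 5) (nat_lit 4) true (nat_lit 5) true (nat_lit 11) true (nat_lit 8) true (nat_lit 13) true (nat_lit 10)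 (.e false (nat_lit 1) (nat_lit 63) (nat_lit 14) (nat_lit 5) (.e false (nat_lit 1) (nat_lit 162) (nat_lit 4) (nat_lit 11) (.e false (nat_lit 1) (nat_lit 212) (nat_lit 2) (nat_lit 13) (.e false (nat_lit 1) (nat_lit 216) (nat_lit 2) (nat_lit 13) (.e true (nat_lit 1) (nat_lit 218) (nat_lit 2) (nat_lit 13) (.e true (nat_lit 1) (nat_lit 220) (nat_lit 2) (nat_lit 13) (.e true (nat_lit 1) (nat_lit 127) (nat_lit 5) (nat_lit 10) .nil))))))))) (.nd (.nd (.nd (.nd .leaf (nat_lit 78848) (nat_lit 236) (.p (nat_lit 181) (nat_lit 1) (.n (nat_lit 183) (nat_lit 1) (.n (nat_lit 184) (nat_lit 1) (.n (nat_lit 185) (nat_lit 1) (.p (nat_lit 188) (nat_lit 1) (.p (nat_lit 189) (nat_lit 1) (.p (nat_lit 190) (nat_lit 1) .z))))))) (.ct dF4_c1052689 (nat_lit 1) (nat_lit 6) (.s false (nat_lit 1) (nat_lit 5) (nat_lit 2) (nat_lit 0) (nat_lit 4) true (nat_lit 0) true (nat_lit 4) true (nat_lit 3) true (nat_lit 5) true (nat_lit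 6) (.s false (nat_lit 1) (nat_lit 5) (nat_lit 4) (nat_lit 0) (nat_lit 2) true (nat_lit 0) true (nat_lit 5) true (nat_lit 3) true (nat_lit 4) true (nat_lit 6) (.e false (nat_lit 1) (nat_lit 56) (nat_lit 4) (nat_lit 4) (.e false (nat_lit 1) (nat_lit 36) (nat_lit 5) (nat_lit 3) (.e true (nat_lit 1) (nat_lit 69) (nat_lit 2) (nat_lit 5) (.e false (nat_lit 1) (nat_lit 71) (nat_lit 2) (nat_lit 5) (.e false (nat_lit 1) (nat_lit 37) (nat_lit 5) (nat_lit 3) (.e true (nat_lit 1) (nat_lit 54) (nat_lit 4) (nat_lit 4) (.e true (nat_lit 1) (nat_lit 76) (nat_lit 0) (nat_lit 6) .nil)))))))))) .leaf) (nat_lit 78849) (nat_lit 251) (.p (nat_lit 191) (nat_lit 1) (.n (nat_lit 193) (nat_lit 1) (.n (nat_lit 194) (nat_lit 1) (.n (nat_lit 195) (nat_lit 1) (.p (nat_lit 198) (nat_lit 1) (.p (nat_lit 199) (nat_lit 1) (.p (nat_lit 200) (nat_lit 1) .z))))))) (.ct dF4_c69649 (nat_lit 1) (nat_lit 6) (.s false (nat_lit 1) (nat_lit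 5) (nat_lit 2) (nat_lit 1) (nat_lit 4) true (nat_lit 0) true (nat_lit 4) true (nat_lit 3) true (nat_lit 5) true (nat_lit 6) (.s false (nat_lit 1) (nat_lit 5) (nat_lit 4) (nat_lit 1) (nat_lit 2) true (nat_lit 0) true (nat_lit 5) true (nat_lit 3) true (nat_lit 4) true (nat_lit 6) (.e false (nat_lit 1) (nat_lit 59) (nat_lit 4) (nat_lit 4) (.e false (nat_lit 1) (nat_lit 39) (nat_lit 5) (nat_lit 3) (.e true (nat_lit 1) (nat_lit 72) (nat_lit 2) (nat_lit 5) (.e false (nat_lit 1) (nat_lit 74) (nat_lit 2) (nat_lit 5) (.e false (nat_lit 1) (nat_lit 40) (nat_lit 5) (nat_lit 3) (.e true (nat_lit 1) (nat_lit 57) (nat_lit 4) (nat_lit 4) (.e true (nat_lit 1) (nat_lit 76) (nat_lit 1) (nat_lit 6) .nil)))))))))) .leaf) (nat_lit 78851) (nat_lit 293) (.p (nat_lit 229) (nat_lit 1) .z) .df (.nd (.nd .leaf (nat_lit 78854) (nat_lit 537) (.n (nat_lit 319) (nat_lit 1) (.p (nat_lit 329) (nat_lit 1) (.p (nat_lit 332)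 (nat_lit 1) (.n (nat_lit 334) (nat_lit 1) (.n (nat_lit 336) (nat_lit 1) (.p (nat_lit 337) (nat_lit 1) (.n (nat_lit 362) (nat_lit 1) .z))))))) (.ct dF4_c1118225 (nat_lit 1) (nat_lit 9) (.s false (nat_lit 1) (nat_lit 6) (nat_lit 4) (nat_lit 5) (nat_lit 2) true (nat_lit 4) true (nat_lit 12) true (nat_lit 9) true (nat_lit 11) true (nat_lit 10) (.e true (nat_lit 1) (nat_lit 51) (nat_lit 14) (nat_lit 4) (.e false (nat_lit 1) (nat_lit 171) (nat_lit 2) (nat_lit 12) (.e false (nat_lit 1) (nat_lit 132) (nat_lit 4) (nat_lit 11) (.e false (nat_lit 1) (nat_lit 136) (nat_lit 4) (nat_lit 11) (.e true (nat_lit 1) (nat_lit 138) (nat_lit 4) (nat_lit 11) (.e true (nat_lit 1) (nat_lit 140) (nat_lit 4) (nat_lit 11) (.e true (nat_lit 1) (nat_lit 91) (nat_lit 5) (nat_lit 10) .nil))))))))) .leaf) (nat_lit 78857) (nat_lit 690) (.n (nat_lit 408) (nat_lit 1) (.n (nat_lit 409) (nat_lit 1) (.n (nat_lit 410) (nat_lit 1)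 (.n (nat_lit 411) (nat_lit 1) (.n (nat_lit 412) (nat_lit 1) (.p (nat_lit 413) (nat_lit 1) (.p (nat_lit 414) (nat_lit 1) (.p (nat_lit 415) (nat_lit 1) (.p (nat_lit 416) (nat_lit 1) (.n (nat_lit 418) (nat_lit 1) (.n (nat_lit 419) (nat_lit 2) (.n (nat_lit 420) (nat_lit 1) (.p (nat_lit 421) (nat_lit 1) (.p (nat_lit 422) (nat_lit 1) (.p (nat_lit 423) (nat_lit 2) (.p (nat_lit 424) (nat_lit 2) (.p (nat_lit 426) (nat_lit 1) (.p (nat_lit 429) (nat_lit 1) (.p (nat_lit 433) (nat_lit 1) (.n (nat_lit 435) (nat_lit 1) (.n (nat_lit 437) (nat_lit 1) (.p (nat_lit 439) (nat_lit 1) (.p (nat_lit 441) (nat_lit 1) (.p (nat_lit 442) (nat_lit 1) (.p (nat_lit 444) (nat_lit 1) (.n (nat_lit 445) (nat_lit 1) (.n (nat_lit 446) (nat_lit 1) (.n (nat_lit 449) (nat_lit 1) .z)))))))))))))))))))))))))))) (.ct dF4_c1052945 (nat_lit 1) (nat_lit 8) (.s false (nat_lit 1) (nat_lit 9) (nat_lit 4) (nat_lit 5) (nat_lit 2) true (nat_lit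 5) true (nat_lit 13) true (nat_lit 8) true (nat_lit 11) true (nat_lit 10) (.e true (nat_lit 1) (nat_lit 60) (nat_lit 14) (nat_lit 5) (.e false (nat_lit 1) (nat_lit 201) (nat_lit 2) (nat_lit 13) (.e false (nat_lit 1) (nat_lit 151) (nat_lit 4) (nat_lit 11) (.e true (nat_lit 1) (nat_lit 155) (nat_lit 4) (nat_lit 11) (.e false (nat_lit 1) (nat_lit 159) (nat_lit 4) (nat_lit 11) (.e false (nat_lit 1) (nat_lit 160) (nat_lit 4) (nat_lit 11) (.e true (nat_lit 1) (nat_lit 112) (nat_lit 5) (nat_lit 10) .nil))))))))) .leaf)) (nat_lit 78858) (nat_lit 768) (.n (nat_lit 452) (nat_lit 1) (.n (nat_lit 453) (nat_lit 1) (.n (nat_lit 454) (nat_lit 1) (.n (nat_lit 455) (nat_lit 1) (.n (nat_lit 456) (nat_lit 1) (.p (nat_lit 457) (nat_lit 1) (.p (nat_lit 458) (nat_lit 1) (.p (nat_lit 459) (nat_lit 1) (.p (nat_lit 460) (nat_lit 1) (.n (nat_lit 462) (nat_lit 1) (.n (nat_lit 463) (nat_lit 2) (.n (nat_lit 464) (nat_lit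 1) (.p (nat_lit 465) (nat_lit 1) (.p (nat_lit 466) (nat_lit 1) (.p (nat_lit 467) (nat_lit 2) (.p (nat_lit 468) (nat_lit 2) (.p (nat_lit 470) (nat_lit 1) (.p (nat_lit 473) (nat_lit 1) (.p (nat_lit 477) (nat_lit 1) (.n (nat_lit 479) (nat_lit 1) (.n (nat_lit 481) (nat_lit 1) (.p (nat_lit 483) (nat_lit 1) (.p (nat_lit 485) (nat_lit 1) (.p (nat_lit 486) (nat_lit 1) (.p (nat_lit 488) (nat_lit 1) (.n (nat_lit 489) (nat_lit 1) (.n (nat_lit 490) (nat_lit 1) (.n (nat_lit 493) (nat_lit 1) .z)))))))))))))))))))))))))))) (.ct dF4_c69905 (nat_lit 1) (nat_lit 8) (.s false (nat_lit 1) (nat_lit 10) (nat_lit 4) (nat_lit 5) (nat_lit 2) true (nat_lit 5) true (nat_lit 13) true (nat_lit 8) true (nat_lit 11) true (nat_lit 10) (.e true (nat_lit 1) (nat_lit 63) (nat_lit 14) (nat_lit 5) (.e false (nat_lit 1) (nat_lit 211) (nat_lit 2) (nat_lit 13) (.e false (nat_lit 1) (nat_lit 161) (nat_lit 4) (nat_lit 11) (.e true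 (nat_lit 1) (nat_lit 165) (nat_lit 4) (nat_lit 11) (.e false (nat_lit 1) (nat_lit 169) (nat_lit 4) (nat_lit 11) (.e false (nat_lit 1) (nat_lit 170) (nat_lit 4) (nat_lit 11) (.e true (nat_lit 1) (nat_lit 122) (nat_lit 5) (nat_lit 10) .nil))))))))) (.nd (.nd (.nd .leaf (nat_lit 79872) (nat_lit 264) (.p (nat_lit 210) (nat_lit 1) .z) .df .leaf) (nat_lit 79873) (nat_lit 279) (.p (nat_lit 220) (nat_lit 1) .z) .df .leaf) (nat_lit 79874) (nat_lit 294) (.p (nat_lit 230) (nat_lit 1) .z) .df (.nd (.nd .leaf (nat_lit 79878) (nat_lit 613) (.p (nat_lit 363) (nat_lit 1) (.n (nat_lit 365) (nat_lit 2) (.n (nat_lit 366) (nat_lit 2) (.n (nat_lit 367) (nat_lit 2) (.p (nat_lit 369) (nat_lit 1) (.p (nat_lit 370) (nat_lit 1) (.p (nat_lit 371) (nat_lit 1) (.n (nat_lit 375) (nat_lit 1) (.n (nat_lit 376) (nat_lit 1) (.p (nat_lit 377) (nat_lit 1) (.p (nat_lit 379) (nat_lit 2) (.p (nat_lit 380) (nat_lit 1) (.p (nat_lit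 381) (nat_lit 1) (.p (nat_lit 382) (nat_lit 1) (.n (nat_lit 383) (nat_lit 1) (.n (nat_lit 384) (nat_lit 1) (.p (nat_lit 385) (nat_lit 1) (.p (nat_lit 386) (nat_lit 1) (.p (nat_lit 387) (nat_lit 1) (.p (nat_lit 388) (nat_lit 1) (.n (nat_lit 391) (nat_lit 1) (.p (nat_lit 392) (nat_lit 1) (.n (nat_lit 393) (nat_lit 1) (.n (nat_lit 394) (nat_lit 1) (.p (nat_lit 395) (nat_lit 1) (.p (nat_lit 396) (nat_lit 1) (.p (nat_lit 397) (nat_lit 2) (.p (nat_lit 398) (nat_lit 1) (.p (nat_lit 399) (nat_lit 1) (.p (nat_lit 400) (nat_lit 2) (.n (nat_lit 401) (nat_lit 1) (.n (nat_lit 402) (nat_lit 3) (.n (nat_lit 404) (nat_lit 2) (.n (nat_lit 405) (nat_lit 2) (.p (nat_lit 406) (nat_lit 1) .z))))))))))))))))))))))))))))))))))) (.ct dF4_c1114385 (nat_lit 1) (nat_lit 9) (.s false (nat_lit 1) (nat_lit 6) (nat_lit 3) (nat_lit 4) (nat_lit 5) true (nat_lit 1) true (nat_lit 10) true (nat_lit 9) true (nat_lit 12) true (nat_lit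 11) (.e false (nat_lit 1) (nat_lit 33) (nat_lit 19) (nat_lit 1) (.e false (nat_lit 1) (nat_lit 101) (nat_lit 5) (nat_lit 10) (.e true (nat_lit 1) (nat_lit 172) (nat_lit 3) (nat_lit 12) (.e true (nat_lit 1) (nat_lit 176) (nat_lit 3) (nat_lit 12) (.e false (nat_lit 1) (nat_lit 178) (nat_lit 3) (nat_lit 12) (.e false (nat_lit 1) (nat_lit 180) (nat_lit 3) (nat_lit 12) (.e true (nat_lit 1) (nat_lit 144) (nat_lit 4) (nat_lit 11) .nil))))))))) .leaf) (nat_lit 79879) (nat_lit 691) (.p (nat_lit 407) (nat_lit 1) (.n (nat_lit 409) (nat_lit 2) (.n (nat_lit 410) (nat_lit 2) (.n (nat_lit 411) (nat_lit 2) (.p (nat_lit 413) (nat_lit 1) (.p (nat_lit 414) (nat_lit 1) (.p (nat_lit 415) (nat_lit 1) (.n (nat_lit 419) (nat_lit 1) (.n (nat_lit 420) (nat_lit 1) (.p (nat_lit 421) (nat_lit 1) (.p (nat_lit 423) (nat_lit 2) (.p (nat_lit 424) (nat_lit 1) (.p (nat_lit 425) (nat_lit 1) (.p (nat_lit 426) (nat_lit 1) (.n (nat_lit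 427) (nat_lit 1) (.n (nat_lit 428) (nat_lit 1) (.p (nat_lit 429) (nat_lit 1) (.p (nat_lit 430) (nat_lit 1) (.p (nat_lit 431) (nat_lit 1) (.p (nat_lit 432) (nat_lit 1) (.n (nat_lit 435) (nat_lit 1) (.p (nat_lit 436) (nat_lit 1) (.n (nat_lit 437) (nat_lit 1) (.n (nat_lit 438) (nat_lit 1) (.p (nat_lit 439) (nat_lit 1) (.p (nat_lit 440) (nat_lit 1) (.p (nat_lit 441) (nat_lit 2) (.p (nat_lit 442) (nat_lit 1) (.p (nat_lit 443) (nat_lit 1) (.p (nat_lit 444) (nat_lit 2) (.n (nat_lit 445) (nat_lit 1) (.n (nat_lit 446) (nat_lit 3) (.n (nat_lit 448) (nat_lit 2) (.n (nat_lit 449) (nat_lit 2) (.p (nat_lit 450) (nat_lit 1) .z))))))))))))))))))))))))))))))))))) (.ct dF4_c1052945 (nat_lit 1) (nat_lit 9) (.s false (nat_lit 1) (nat_lit 7) (nat_lit 3) (nat_lit 4) (nat_lit 5) true (nat_lit 1) true (nat_lit 10) true (nat_lit 9) true (nat_lit 12) true (nat_lit 11) (.e false (nat_lit 1) (nat_lit 36) (nat_lit 19)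 (nat_lit 1) (.e false (nat_lit 1) (nat_lit 111) (nat_lit 5) (nat_lit 10) (.e true (nat_lit 1) (nat_lit 182) (nat_lit 3) (nat_lit 12) (.e true (nat_lit 1) (nat_lit 186) (nat_lit 3) (nat_lit 12) (.e false (nat_lit 1) (nat_lit 188) (nat_lit 3) (nat_lit 12) (.e false (nat_lit 1) (nat_lit 190) (nat_lit 3) (nat_lit 12) (.e true (nat_lit 1) (nat_lit 154) (nat_lit 4) (nat_lit 11) .nil))))))))) .leaf)))) (nat_lit 79880) (nat_lit 769) (.p (nat_lit 451) (nat_lit 1) (.n (nat_lit 453) (nat_lit 2) (.n (nat_lit 454) (nat_lit 2) (.n (nat_lit 455) (nat_lit 2) (.p (nat_lit 457) (nat_lit 1) (.p (nat_lit 458) (nat_lit 1) (.p (nat_lit 459) (nat_lit 1) (.n (nat_lit 463) (nat_lit 1) (.n (nat_lit 464) (nat_lit 1) (.p (nat_lit 465) (nat_lit 1) (.p (nat_lit 467) (nat_lit 2) (.p (nat_lit 468) (nat_lit 1) (.p (nat_lit 469) (nat_lit 1) (.p (nat_lit 470) (nat_lit 1) (.n (nat_lit 471) (nat_lit 1) (.n (nat_lit 472) (nat_lit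 1) (.p (nat_lit 473) (nat_lit 1) (.p (nat_lit 474) (nat_lit 1) (.p (nat_lit 475) (nat_lit 1) (.p (nat_lit 476) (nat_lit 1) (.n (nat_lit 479) (nat_lit 1) (.p (nat_lit 480) (nat_lit 1) (.n (nat_lit 481) (nat_lit 1) (.n (nat_lit 482) (nat_lit 1) (.p (nat_lit 483) (nat_lit 1) (.p (nat_lit 484) (nat_lit 1) (.p (nat_lit 485) (nat_lit 2) (.p (nat_lit 486) (nat_lit 1) (.p (nat_lit 487) (nat_lit 1) (.p (nat_lit 488) (nat_lit 2) (.n (nat_lit 489) (nat_lit 1) (.n (nat_lit 490) (nat_lit 3) (.n (nat_lit 492) (nat_lit 2) (.n (nat_lit 493) (nat_lit 2) (.p (nat_lit 494) (nat_lit 1) .z))))))))))))))))))))))))))))))))))) (.ct dF4_c69905 (nat_lit 1) (nat_lit 9) (.s false (nat_lit 1) (nat_lit 8) (nat_lit 3) (nat_lit 4) (nat_lit 5) true (nat_lit 1) true (nat_lit 10) true (nat_lit 9) true (nat_lit 12) true (nat_lit 11) (.e false (nat_lit 1) (nat_lit 39) (nat_lit 19) (nat_lit 1) (.e false (nat_lit 1) (nat_lit 121)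 (nat_lit 5) (nat_lit 10) (.e true (nat_lit 1) (nat_lit 192) (nat_lit 3) (nat_lit 12) (.e true (nat_lit 1) (nat_lit 196) (nat_lit 3) (nat_lit 12) (.e false (nat_lit 1) (nat_lit 198) (nat_lit 3) (nat_lit 12) (.e false (nat_lit 1) (nat_lit 200) (nat_lit 3) (nat_lit 12) (.e true (nat_lit 1) (nat_lit 164) (nat_lit 4) (nat_lit 11) .nil))))))))) (.nd (.nd (.nd (.nd (.nd .leaf (nat_lit 80896) (nat_lit 265) (.p (nat_lit 202) (nat_lit 1) (.p (nat_lit 203) (nat_lit 1) (.p (nat_lit 205) (nat_lit 1) (.p (nat_lit 206) (nat_lit 1) (.n (nat_lit 207) (nat_lit 1) (.n (nat_lit 208) (nat_lit 1) (.n (nat_lit 210) (nat_lit 1) .z))))))) (.ct dF4_c1048849 (nat_lit 1) (nat_lit 6) (.s true (nat_lit 1) (nat_lit 5) (nat_lit 0) (nat_lit 4) (nat_lit 3) true (nat_lit 2) true (nat_lit 5) true (nat_lit 3) true (nat_lit 6) true (nat_lit 4) (.s true (nat_lit 1) (nat_lit 5) (nat_lit 3) (nat_lit 4) (nat_lit 0) true (nat_lit 2)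 true (nat_lit 6) true (nat_lit 3) true (nat_lit 5) true (nat_lit 4) (.e true (nat_lit 1) (nat_lit 70) (nat_lit 3) (nat_lit 5) (.e false (nat_lit 1) (nat_lit 43) (nat_lit 5) (nat_lit 3) (.e true (nat_lit 1) (nat_lit 78) (nat_lit 0) (nat_lit 6) (.e false (nat_lit 1) (nat_lit 62) (nat_lit 4) (nat_lit 4) (.e false (nat_lit 1) (nat_lit 44) (nat_lit 5) (nat_lit 3) (.e true (nat_lit 1) (nat_lit 69) (nat_lit 3) (nat_lit 5) (.e false (nat_lit 1) (nat_lit 61) (nat_lit 4) (nat_lit 4) .nil)))))))))) .leaf) (nat_lit 80897) (nat_lit 280) (.p (nat_lit 212) (nat_lit 1) (.p (nat_lit 213) (nat_lit 1) (.p (nat_lit 215) (nat_lit 1) (.p (nat_lit 216) (nat_lit 1) (.n (nat_lit 217) (nat_lit 1) (.n (nat_lit 218) (nat_lit 1) (.n (nat_lit 220) (nat_lit 1) .z))))))) (.ct dF4_c65809 (nat_lit 1) (nat_lit 6) (.s true (nat_lit 1) (nat_lit 5) (nat_lit 1) (nat_lit 4) (nat_lit 3) true (nat_lit 2) true (nat_lit 5) true (nat_lit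 3) true (nat_lit 6) true (nat_lit 4) (.s true (nat_lit 1) (nat_lit 5) (nat_lit 3) (nat_lit 4) (nat_lit 1) true (nat_lit 2) true (nat_lit 6) true (nat_lit 3) true (nat_lit 5) true (nat_lit 4) (.e true (nat_lit 1) (nat_lit 73) (nat_lit 3) (nat_lit 5) (.e false (nat_lit 1) (nat_lit 46) (nat_lit 5) (nat_lit 3) (.e true (nat_lit 1) (nat_lit 78) (nat_lit 1) (nat_lit 6) (.e false (nat_lit 1) (nat_lit 65) (nat_lit 4) (nat_lit 4) (.e false (nat_lit 1) (nat_lit 47) (nat_lit 5) (nat_lit 3) (.e true (nat_lit 1) (nat_lit 72) (nat_lit 3) (nat_lit 5) (.e false (nat_lit 1) (nat_lit 64) (nat_lit 4) (nat_lit 4) .nil)))))))))) .leaf) (nat_lit 80898) (nat_lit 295) (.p (nat_lit 222) (nat_lit 1) (.p (nat_lit 223) (nat_lit 1) (.p (nat_lit 225) (nat_lit 1) (.p (nat_lit 226) (nat_lit 1) (.n (nat_lit 227) (nat_lit 1) (.n (nat_lit 228) (nat_lit 1) (.n (nat_lit 230) (nat_lit 1) .z))))))) (.ct dF4_c4369 (nat_lit 1) (nat_lit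 6) (.s true (nat_lit 1) (nat_lit 5) (nat_lit 2) (nat_lit 4) (nat_lit 3) true (nat_lit 2) true (nat_lit 5) true (nat_lit 3) true (nat_lit 6) true (nat_lit 4) (.s true (nat_lit 1) (nat_lit 5) (nat_lit 3) (nat_lit 4) (nat_lit 2) true (nat_lit 2) true (nat_lit 6) true (nat_lit 3) true (nat_lit 5) true (nat_lit 4) (.e true (nat_lit 1) (nat_lit 76) (nat_lit 3) (nat_lit 5) (.e false (nat_lit 1) (nat_lit 49) (nat_lit 5) (nat_lit 3) (.e true (nat_lit 1) (nat_lit 78) (nat_lit 2) (nat_lit 6) (.e false (nat_lit 1) (nat_lit 68) (nat_lit 4) (nat_lit 4) (.e false (nat_lit 1) (nat_lit 50) (nat_lit 5) (nat_lit 3) (.e true (nat_lit 1) (nat_lit 75) (nat_lit 3) (nat_lit 5) (.e false (nat_lit 1) (nat_lit 67) (nat_lit 4) (nat_lit 4) .nil)))))))))) (.nd (.nd .leaf (nat_lit 80902) (nat_lit 614) (.n (nat_lit 366) (nat_lit 1) (.p (nat_lit 372) (nat_lit 1) (.p (nat_lit 382) (nat_lit 1) (.p (nat_lit 385) (nat_lit 1) (.n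 (nat_lit 386) (nat_lit 1) (.n (nat_lit 388) (nat_lit 1) (.p (nat_lit 406) (nat_lit 1) .z))))))) (.ct dF4_c1114385 (nat_lit 1) (nat_lit 9) (.s false (nat_lit 1) (nat_lit 6) (nat_lit 3) (nat_lit 5) (nat_lit 4) true (nat_lit 4) true (nat_lit 11) true (nat_lit 9) true (nat_lit 12) true (nat_lit 10) (.e false (nat_lit 1) (nat_lit 51) (nat_lit 15) (nat_lit 4) (.e false (nat_lit 1) (nat_lit 141) (nat_lit 4) (nat_lit 11) (.e false (nat_lit 1) (nat_lit 172) (nat_lit 3) (nat_lit 12) (.e false (nat_lit 1) (nat_lit 176) (nat_lit 3) (nat_lit 12) (.e true (nat_lit 1) (nat_lit 178) (nat_lit 3) (nat_lit 12) (.e true (nat_lit 1) (nat_lit 180) (nat_lit 3) (nat_lit 12) (.e true (nat_lit 1) (nat_lit 104) (nat_lit 5) (nat_lit 10) .nil))))))))) .leaf) (nat_lit 80903) (nat_lit 692) (.n (nat_lit 410) (nat_lit 1) (.p (nat_lit 416) (nat_lit 1) (.p (nat_lit 426) (nat_lit 1) (.p (nat_lit 429) (nat_lit 1) (.n (nat_lit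 430) (nat_lit 1) (.n (nat_lit 432) (nat_lit 1) (.p (nat_lit 450) (nat_lit 1) .z))))))) (.ct dF4_c1052945 (nat_lit 1) (nat_lit 9) (.s false (nat_lit 1) (nat_lit 7) (nat_lit 3) (nat_lit 5) (nat_lit 4) true (nat_lit 4) true (nat_lit 11) true (nat_lit 9) true (nat_lit 12) true (nat_lit 10) (.e false (nat_lit 1) (nat_lit 54) (nat_lit 15) (nat_lit 4) (.e false (nat_lit 1) (nat_lit 151) (nat_lit 4) (nat_lit 11) (.e false (nat_lit 1) (nat_lit 182) (nat_lit 3) (nat_lit 12) (.e false (nat_lit 1) (nat_lit 186) (nat_lit 3) (nat_lit 12) (.e true (nat_lit 1) (nat_lit 188) (nat_lit 3) (nat_lit 12) (.e true (nat_lit 1) (nat_lit 190) (nat_lit 3) (nat_lit 12) (.e true (nat_lit 1) (nat_lit 114) (nat_lit 5) (nat_lit 10) .nil))))))))) .leaf)) (nat_lit 80904) (nat_lit 770) (.n (nat_lit 454) (nat_lit 1) (.p (nat_lit 460) (nat_lit 1) (.p (nat_lit 470) (nat_lit 1) (.p (nat_lit 473) (nat_lit 1) (.n (nat_lit 474) (nat_lit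 1) (.n (nat_lit 476) (nat_lit 1) (.p (nat_lit 494) (nat_lit 1) .z))))))) (.ct dF4_c69905 (nat_lit 1) (nat_lit 9) (.s false (nat_lit 1) (nat_lit 8) (nat_lit 3) (nat_lit 5) (nat_lit 4) true (nat_lit 4) true (nat_lit 11) true (nat_lit 9) true (nat_lit 12) true (nat_lit 10) (.e false (nat_lit 1) (nat_lit 57) (nat_lit 15) (nat_lit 4) (.e false (nat_lit 1) (nat_lit 161) (nat_lit 4) (nat_lit 11) (.e false (nat_lit 1) (nat_lit 192) (nat_lit 3) (nat_lit 12) (.e false (nat_lit 1) (nat_lit 196) (nat_lit 3) (nat_lit 12) (.e true (nat_lit 1) (nat_lit 198) (nat_lit 3) (nat_lit 12) (.e true (nat_lit 1) (nat_lit 200) (nat_lit 3) (nat_lit 12) (.e true (nat_lit 1) (nat_lit 124) (nat_lit 5) (nat_lit 10) .nil))))))))) (.nd (.nd (.nd .leaf (nat_lit 81920) (nat_lit 266) (.p (nat_lit 201) (nat_lit 1) (.n (nat_lit 203) (nat_lit 1) (.n (nat_lit 204) (nat_lit 1) (.n (nat_lit 205) (nat_lit 1) (.p (nat_lit 208) (nat_lit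 1) (.p (nat_lit 209) (nat_lit 1) (.p (nat_lit 210) (nat_lit 1) .z))))))) (.ct dF4_c1048849 (nat_lit 1) (nat_lit 6) (.s false (nat_lit 1) (nat_lit 5) (nat_lit 3) (nat_lit 0) (nat_lit 4) true (nat_lit 0) true (nat_lit 4) true (nat_lit 3) true (nat_lit 5) true (nat_lit 6) (.s false (nat_lit 1) (nat_lit 5) (nat_lit 4) (nat_lit 0) (nat_lit 3) true (nat_lit 0) true (nat_lit 5) true (nat_lit 3) true (nat_lit 4) true (nat_lit 6) (.e false (nat_lit 1) (nat_lit 62) (nat_lit 4) (nat_lit 4) (.e false (nat_lit 1) (nat_lit 42) (nat_lit 5) (nat_lit 3) (.e true (nat_lit 1) (nat_lit 69) (nat_lit 3) (nat_lit 5) (.e false (nat_lit 1) (nat_lit 71) (nat_lit 3) (nat_lit 5) (.e false (nat_lit 1) (nat_lit 43) (nat_lit 5) (nat_lit 3) (.e true (nat_lit 1) (nat_lit 60) (nat_lit 4) (nat_lit 4) (.e true (nat_lit 1) (nat_lit 79) (nat_lit 0) (nat_lit 6) .nil)))))))))) .leaf) (nat_lit 81921) (nat_lit 281) (.p (nat_lit 211)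 (nat_lit 1) (.n (nat_lit 213) (nat_lit 1) (.n (nat_lit 214) (nat_lit 1) (.n (nat_lit 215) (nat_lit 1) (.p (nat_lit 218) (nat_lit 1) (.p (nat_lit 219) (nat_lit 1) (.p (nat_lit 220) (nat_lit 1) .z))))))) (.ct dF4_c65809 (nat_lit 1) (nat_lit 6) (.s false (nat_lit 1) (nat_lit 5) (nat_lit 3) (nat_lit 1) (nat_lit 4) true (nat_lit 0) true (nat_lit 4) true (nat_lit 3) true (nat_lit 5) true (nat_lit 6) (.s false (nat_lit 1) (nat_lit 5) (nat_lit 4) (nat_lit 1) (nat_lit 3) true (nat_lit 0) true (nat_lit 5) true (nat_lit 3) true (nat_lit 4) true (nat_lit 6) (.e false (nat_lit 1) (nat_lit 65) (nat_lit 4) (nat_lit 4) (.e false (nat_lit 1) (nat_lit 45) (nat_lit 5) (nat_lit 3) (.e true (nat_lit 1) (nat_lit 72) (nat_lit 3) (nat_lit 5) (.e false (nat_lit 1) (nat_lit 74) (nat_lit 3) (nat_lit 5) (.e false (nat_lit 1) (nat_lit 46) (nat_lit 5) (nat_lit 3) (.e true (nat_lit 1) (nat_lit 63) (nat_lit 4) (nat_lit 4)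 (.e true (nat_lit 1) (nat_lit 79) (nat_lit 1) (nat_lit 6) .nil)))))))))) .leaf) (nat_lit 81922) (nat_lit 296) (.p (nat_lit 221) (nat_lit 1) (.n (nat_lit 223) (nat_lit 1) (.n (nat_lit 224) (nat_lit 1) (.n (nat_lit 225) (nat_lit 1) (.p (nat_lit 228) (nat_lit 1) (.p (nat_lit 229) (nat_lit 1) (.p (nat_lit 230) (nat_lit 1) .z))))))) (.ct dF4_c4369 (nat_lit 1) (nat_lit 6) (.s false (nat_lit 1) (nat_lit 5) (nat_lit 3) (nat_lit 2) (nat_lit 4) true (nat_lit 0) true (nat_lit 4) true (nat_lit 3) true (nat_lit 5) true (nat_lit 6) (.s false (nat_lit 1) (nat_lit 5) (nat_lit 4) (nat_lit 2) (nat_lit 3) true (nat_lit 0) true (nat_lit 5) true (nat_lit 3) true (nat_lit 4) true (nat_lit 6) (.e false (nat_lit 1) (nat_lit 68) (nat_lit 4) (nat_lit 4) (.e false (nat_lit 1) (nat_lit 48) (nat_lit 5) (nat_lit 3) (.e true (nat_lit 1) (nat_lit 75) (nat_lit 3) (nat_lit 5) (.e false (nat_lit 1) (nat_lit 77) (nat_lit 3) (nat_lit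 5) (.e false (nat_lit 1) (nat_lit 49) (nat_lit 5) (nat_lit 3) (.e true (nat_lit 1) (nat_lit 66) (nat_lit 4) (nat_lit 4) (.e true (nat_lit 1) (nat_lit 79) (nat_lit 2) (nat_lit 6) .nil)))))))))) (.nd (.nd .leaf (nat_lit 81926) (nat_lit 615) (.n (nat_lit 363) (nat_lit 1) (.p (nat_lit 373) (nat_lit 1) (.p (nat_lit 376) (nat_lit 1) (.n (nat_lit 378) (nat_lit 1) (.n (nat_lit 380) (nat_lit 1) (.p (nat_lit 381) (nat_lit 1) (.n (nat_lit 406) (nat_lit 1) .z))))))) (.ct dF4_c1114385 (nat_lit 1) (nat_lit 9) (.s false (nat_lit 1) (nat_lit 6) (nat_lit 4) (nat_lit 5) (nat_lit 3) true (nat_lit 4) true (nat_lit 12) true (nat_lit 9) true (nat_lit 11) true (nat_lit 10) (.e true (nat_lit 1) (nat_lit 51) (nat_lit 15) (nat_lit 4) (.e false (nat_lit 1) (nat_lit 171) (nat_lit 3) (nat_lit 12) (.e false (nat_lit 1) (nat_lit 142) (nat_lit 4) (nat_lit 11) (.e false (nat_lit 1) (nat_lit 146) (nat_lit 4) (nat_lit 11) (.e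 true (nat_lit 1) (nat_lit 148) (nat_lit 4) (nat_lit 11) (.e true (nat_lit 1) (nat_lit 150) (nat_lit 4) (nat_lit 11) (.e true (nat_lit 1) (nat_lit 101) (nat_lit 5) (nat_lit 10) .nil))))))))) .leaf) (nat_lit 81927) (nat_lit 693) (.n (nat_lit 407) (nat_lit 1) (.p (nat_lit 417) (nat_lit 1) (.p (nat_lit 420) (nat_lit 1) (.n (nat_lit 422) (nat_lit 1) (.n (nat_lit 424) (nat_lit 1) (.p (nat_lit 425) (nat_lit 1) (.n (nat_lit 450) (nat_lit 1) .z))))))) (.ct dF4_c1052945 (nat_lit 1) (nat_lit 9) (.s false (nat_lit 1) (nat_lit 7) (nat_lit 4) (nat_lit 5) (nat_lit 3) true (nat_lit 4) true (nat_lit 12) true (nat_lit 9) true (nat_lit 11) true (nat_lit 10) (.e true (nat_lit 1) (nat_lit 54) (nat_lit 15) (nat_lit 4) (.e false (nat_lit 1) (nat_lit 181) (nat_lit 3) (nat_lit 12) (.e false (nat_lit 1) (nat_lit 152) (nat_lit 4) (nat_lit 11) (.e false (nat_lit 1) (nat_lit 156) (nat_lit 4) (nat_lit 11) (.e true (nat_lit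 1) (nat_lit 158) (nat_lit 4) (nat_lit 11) (.e true (nat_lit 1) (nat_lit 160) (nat_lit 4) (nat_lit 11) (.e true (nat_lit 1) (nat_lit 111) (nat_lit 5) (nat_lit 10) .nil))))))))) .leaf))) (nat_lit 81928) (nat_lit 771) (.n (nat_lit 451) (nat_lit 1) (.p (nat_lit 461) (nat_lit 1) (.p (nat_lit 464) (nat_lit 1) (.n (nat_lit 466) (nat_lit 1) (.n (nat_lit 468) (nat_lit 1) (.p (nat_lit 469) (nat_lit 1) (.n (nat_lit 494) (nat_lit 1) .z))))))) (.ct dF4_c69905 (nat_lit 1) (nat_lit 9) (.s false (nat_lit 1) (nat_lit 8) (nat_lit 4) (nat_lit 5) (nat_lit 3) true (nat_lit 4) true (nat_lit 12) true (nat_lit 9) true (nat_lit 11) true (nat_lit 10) (.e true (nat_lit 1) (nat_lit 57) (nat_lit 15) (nat_lit 4) (.e false (nat_lit 1) (nat_lit 191) (nat_lit 3) (nat_lit 12) (.e false (nat_lit 1) (nat_lit 162) (nat_lit 4) (nat_lit 11) (.e false (nat_lit 1) (nat_lit 166) (nat_lit 4) (nat_lit 11) (.e true (nat_lit 1) (nat_lit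 168) (nat_lit 4) (nat_lit 11) (.e true (nat_lit 1) (nat_lit 170) (nat_lit 4) (nat_lit 11) (.e true (nat_lit 1) (nat_lit 121) (nat_lit 5) (nat_lit 10) .nil))))))))) (.nd (.nd (.nd (.nd .leaf (nat_lit 82948) (nat_lit 300) (.p (nat_lit 231) (nat_lit 1) .z) .df .leaf) (nat_lit 82949) (nat_lit 380) (.p (nat_lit 275) (nat_lit 1) .z) .df .leaf) (nat_lit 83972) (nat_lit 301) (.p (nat_lit 232) (nat_lit 1) .z) .df (.nd (.nd .leaf (nat_lit 83973) (nat_lit 381) (.p (nat_lit 276) (nat_lit 1) .z) .df .leaf) (nat_lit 84996) (nat_lit 302) (.p (nat_lit 233) (nat_lit 1) .z) .df .leaf)) (nat_lit 84997) (nat_lit 382) (.p (nat_lit 277) (nat_lit 1) .z) .df (.nd (.nd (.nd .leaf (nat_lit 86020) (nat_lit 303) (.p (nat_lit 234) (nat_lit 1) .z) .df .leaf) (nat_lit 86021) (nat_lit 383) (.p (nat_lit 278) (nat_lit 1) .z) .df .leaf) (nat_lit 87044) (nat_lit 304) (.p (nat_lit 235) (nat_lit 1) .z) .df (.nd (.nd .leaf (nat_lit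 87045) (nat_lit 384) (.p (nat_lit 279) (nat_lit 1) .z) .df .leaf) (nat_lit 88068) (nat_lit 305) (.p (nat_lit 236) (nat_lit 1) .z) .df .leaf))))))

noncomputable def dF4_t8 : Tr := (.nd (.nd (.nd (.nd (.nd (.nd (.nd .leaf (nat_lit 89092) (nat_lit 352) (.p (nat_lit 232) (nat_lit 2) (.p (nat_lit 233) (nat_lit 2) (.p (nat_lit 234) (nat_lit 2) (.p (nat_lit 235) (nat_lit 3) (.p (nat_lit 236) (nat_lit 3) (.n (nat_lit 237) (nat_lit 3) (.n (nat_lit 238) (nat_lit 3) (.n (nat_lit 239) (nat_lit 4) (.n (nat_lit 240) (nat_lit 2) (.p (nat_lit 242) (nat_lit 2) (.p (nat_lit 243) (nat_lit 3) (.p (nat_lit 244) (nat_lit 1) (.n (nat_lit 245) (nat_lit 1) (.n (nat_lit 246) (nat_lit 1) (.n (nat_lit 247) (nat_lit 3) (.n (nat_lit 248) (nat_lit 2) (.n (nat_lit 250) (nat_lit 3) (.n (nat_lit 251) (nat_lit 1) (.n (nat_lit 252) (nat_lit 1) (.n (nat_lit 253) (nat_lit 3) (.p (nat_lit 254) (nat_lit 2) (.p (nat_lit 256) (nat_lit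 2) (.n (nat_lit 257) (nat_lit 2) (.p (nat_lit 259) (nat_lit 2) (.p (nat_lit 261) (nat_lit 2) (.n (nat_lit 262) (nat_lit 2) (.n (nat_lit 263) (nat_lit 1) (.p (nat_lit 264) (nat_lit 1) (.n (nat_lit 265) (nat_lit 3) (.n (nat_lit 266) (nat_lit 3) (.n (nat_lit 267) (nat_lit 1) (.n (nat_lit 268) (nat_lit 1) (.p (nat_lit 269) (nat_lit 2) (.p (nat_lit 270) (nat_lit 2) (.p (nat_lit 271) (nat_lit 2) (.p (nat_lit 273) (nat_lit 1) (.p (nat_lit 274) (nat_lit 1) .z))))))))))))))))))))))))))))))))))))) (.ct dF4_c1118480 (nat_lit 1) (nat_lit 10) (.s false (nat_lit 1) (nat_lit 7) (nat_lit 1) (nat_lit 4) (nat_lit 3) true (nat_lit 5) true (nat_lit 11) true (nat_lit 8) true (nat_lit 13) true (nat_lit 10) (.s true (nat_lit 1) (nat_lit 13) (nat_lit 2) (nat_lit 3) (nat_lit 0) true (nat_lit 8) true (nat_lit 14) true (nat_lit 2) true (nat_lit 12) true (nat_lit 11) (.e false (nat_lit 1) (nat_lit 36) (nat_lit 10) (nat_lit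 5) (.e false (nat_lit 1) (nat_lit 92) (nat_lit 3) (nat_lit 11) (.e false (nat_lit 1) (nat_lit 112) (nat_lit 1) (nat_lit 13) (.e false (nat_lit 1) (nat_lit 116) (nat_lit 1) (nat_lit 13) (.e true (nat_lit 1) (nat_lit 118) (nat_lit 1) (nat_lit 13) (.e true (nat_lit 1) (nat_lit 120) (nat_lit 1) (nat_lit 13) (.e true (nat_lit 1) (nat_lit 125) (nat_lit 0) (nat_lit 14) (.e false (nat_lit 1) (nat_lit 29) (nat_lit 13) (nat_lit 2) (.e false (nat_lit 1) (nat_lit 101) (nat_lit 2) (nat_lit 12) (.e true (nat_lit 1) (nat_lit 105) (nat_lit 2) (nat_lit 12) (.e false (nat_lit 1) (nat_lit 109) (nat_lit 2) (nat_lit 12) (.e false (nat_lit 1) (nat_lit 110) (nat_lit 2) (nat_lit 12) (.e false (nat_lit 1) (nat_lit 96) (nat_lit 3) (nat_lit 11) .nil)))))))))))))))) .leaf) (nat_lit 89093) (nat_lit 432) (.p (nat_lit 276) (nat_lit 2) (.p (nat_lit 277) (nat_lit 2) (.p (nat_lit 278) (nat_lit 2) (.p (nat_lit 279) (nat_lit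 3) (.p (nat_lit 280) (nat_lit 3) (.n (nat_lit 281) (nat_lit 3) (.n (nat_lit 282) (nat_lit 3) (.n (nat_lit 283) (nat_lit 4) (.n (nat_lit 284) (nat_lit 2) (.p (nat_lit 286) (nat_lit 2) (.p (nat_lit 287) (nat_lit 3) (.p (nat_lit 288) (nat_lit 1) (.n (nat_lit 289) (nat_lit 1) (.n (nat_lit 290) (nat_lit 1) (.n (nat_lit 291) (nat_lit 3) (.n (nat_lit 292) (nat_lit 2) (.n (nat_lit 294) (nat_lit 3) (.n (nat_lit 295) (nat_lit 1) (.n (nat_lit 296) (nat_lit 1) (.n (nat_lit 297) (nat_lit 3) (.p (nat_lit 298) (nat_lit 2) (.p (nat_lit 300) (nat_lit 2) (.n (nat_lit 301) (nat_lit 2) (.p (nat_lit 303) (nat_lit 2) (.p (nat_lit 305) (nat_lit 2) (.n (nat_lit 306) (nat_lit 2) (.n (nat_lit 307) (nat_lit 1) (.p (nat_lit 308) (nat_lit 1) (.n (nat_lit 309) (nat_lit 3) (.n (nat_lit 310) (nat_lit 3) (.n (nat_lit 311) (nat_lit 1) (.n (nat_lit 312) (nat_lit 1) (.p (nat_lit 313) (nat_lit 2) (.p (nat_lit 314) (nat_lit 2)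 (.p (nat_lit 315) (nat_lit 2) (.p (nat_lit 317) (nat_lit 1) (.p (nat_lit 318) (nat_lit 1) .z))))))))))))))))))))))))))))))))))))) (.ct dF4_c1118465 (nat_lit 1) (nat_lit 10) (.s false (nat_lit 1) (nat_lit 7) (nat_lit 1) (nat_lit 5) (nat_lit 3) true (nat_lit 5) true (nat_lit 11) true (nat_lit 8) true (nat_lit 13) true (nat_lit 10) (.s true (nat_lit 1) (nat_lit 17) (nat_lit 2) (nat_lit 3) (nat_lit 0) true (nat_lit 8) true (nat_lit 14) true (nat_lit 2) true (nat_lit 12) true (nat_lit 11) (.e false (nat_lit 1) (nat_lit 54) (nat_lit 10) (nat_lit 5) (.e false (nat_lit 1) (nat_lit 132) (nat_lit 3) (nat_lit 11) (.e false (nat_lit 1) (nat_lit 152) (nat_lit 1) (nat_lit 13) (.e false (nat_lit 1) (nat_lit 156) (nat_lit 1) (nat_lit 13) (.e true (nat_lit 1) (nat_lit 158) (nat_lit 1) (nat_lit 13) (.e true (nat_lit 1) (nat_lit 160) (nat_lit 1) (nat_lit 13) (.e true (nat_lit 1) (nat_lit 165) (nat_lit 0) (nat_lit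 14) (.e false (nat_lit 1) (nat_lit 29) (nat_lit 17) (nat_lit 2) (.e false (nat_lit 1) (nat_lit 141) (nat_lit 2) (nat_lit 12) (.e true (nat_lit 1) (nat_lit 145) (nat_lit 2) (nat_lit 12) (.e false (nat_lit 1) (nat_lit 149) (nat_lit 2) (nat_lit 12) (.e false (nat_lit 1) (nat_lit 150) (nat_lit 2) (nat_lit 12) (.e false (nat_lit 1) (nat_lit 136) (nat_lit 3) (nat_lit 11) .nil)))))))))))))))) .leaf) (nat_lit 90116) (nat_lit 306) (.p (nat_lit 237) (nat_lit 1) .z) .df (.nd (.nd .leaf (nat_lit 90117) (nat_lit 386) (.p (nat_lit 281) (nat_lit 1) .z) .df .leaf) (nat_lit 91140) (nat_lit 307) (.p (nat_lit 238) (nat_lit 1) .z) .df .leaf)) (nat_lit 91141) (nat_lit 387) (.p (nat_lit 282) (nat_lit 1) .z) .df (.nd (.nd (.nd .leaf (nat_lit 92164) (nat_lit 308) (.p (nat_lit 239) (nat_lit 1) .z) .df .leaf) (nat_lit 92165) (nat_lit 388) (.p (nat_lit 283) (nat_lit 1) .z) .df .leaf) (nat_lit 93187) (nat_lit 309) (.p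 (nat_lit 240) (nat_lit 1) .z) .df (.nd (.nd .leaf (nat_lit 93189) (nat_lit 459) (.p (nat_lit 319) (nat_lit 1) .z) .df .leaf) (nat_lit 94211) (nat_lit 310) (.p (nat_lit 241) (nat_lit 1) .z) .df .leaf))) (nat_lit 94213) (nat_lit 460) (.p (nat_lit 320) (nat_lit 1) .z) .df (.nd (.nd (.nd (.nd .leaf (nat_lit 95235) (nat_lit 311) (.p (nat_lit 242) (nat_lit 1) .z) .df .leaf) (nat_lit 95237) (nat_lit 461) (.p (nat_lit 321) (nat_lit 1) .z) .df .leaf) (nat_lit 96259) (nat_lit 348) (.p (nat_lit 233) (nat_lit 2) (.p (nat_lit 234) (nat_lit 2) (.p (nat_lit 235) (nat_lit 2) (.n (nat_lit 237) (nat_lit 1) (.n (nat_lit 238) (nat_lit 1) (.n (nat_lit 239) (nat_lit 1) (.p (nat_lit 243) (nat_lit 1) (.p (nat_lit 244) (nat_lit 1) (.n (nat_lit 245) (nat_lit 1) (.n (nat_lit 247) (nat_lit 2) (.n (nat_lit 248) (nat_lit 1) (.n (nat_lit 249) (nat_lit 1) (.n (nat_lit 250) (nat_lit 2) (.p (nat_lit 251) (nat_lit 1) (.p (nat_lit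 252) (nat_lit 1) (.n (nat_lit 253) (nat_lit 2) (.n (nat_lit 255) (nat_lit 1) (.p (nat_lit 259) (nat_lit 1) (.n (nat_lit 260) (nat_lit 1) (.p (nat_lit 261) (nat_lit 1) (.p (nat_lit 262) (nat_lit 1) (.n (nat_lit 263) (nat_lit 1) (.n (nat_lit 264) (nat_lit 1) (.n (nat_lit 265) (nat_lit 2) (.n (nat_lit 266) (nat_lit 1) (.n (nat_lit 267) (nat_lit 1) (.n (nat_lit 268) (nat_lit 2) (.p (nat_lit 269) (nat_lit 1) (.p (nat_lit 270) (nat_lit 3) (.p (nat_lit 272) (nat_lit 2) (.p (nat_lit 273) (nat_lit 3) (.n (nat_lit 274) (nat_lit 1) .z)))))))))))))))))))))))))))))))) (.ct dF4_c1118480 (nat_lit 1) (nat_lit 11) (.s true (nat_lit 1) (nat_lit 10) (nat_lit 0) (nat_lit 2) (nat_lit 4) true (nat_lit 3) true (nat_lit 10) true (nat_lit 5) true (nat_lit 14) true (nat_lit 12) (.s false (nat_lit 1) (nat_lit 11) (nat_lit 4) (nat_lit 0) (nat_lit 1) true (nat_lit 2) true (nat_lit 13) true (nat_lit 4) true (nat_lit 10)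 true (nat_lit 14) (.s false (nat_lit 1) (nat_lit 12) (nat_lit 3) (nat_lit 1) (nat_lit 2) true (nat_lit 4) true (nat_lit 12) true (nat_lit 3) true (nat_lit 11) true (nat_lit 13) (.e false (nat_lit 1) (nat_lit 36) (nat_lit 10) (nat_lit 5) (.e false (nat_lit 1) (nat_lit 121) (nat_lit 0) (nat_lit 14) (.e true (nat_lit 1) (nat_lit 125) (nat_lit 0) (nat_lit 14) (.e false (nat_lit 1) (nat_lit 129) (nat_lit 0) (nat_lit 14) (.e false (nat_lit 1) (nat_lit 130) (nat_lit 0) (nat_lit 14) (.e false (nat_lit 1) (nat_lit 110) (nat_lit 2) (nat_lit 12) (.e true (nat_lit 1) (nat_lit 29) (nat_lit 13) (nat_lit 2) (.e false (nat_lit 1) (nat_lit 120) (nat_lit 1) (nat_lit 13) (.e false (nat_lit 1) (nat_lit 82) (nat_lit 4) (nat_lit 10) (.e true (nat_lit 1) (nat_lit 88) (nat_lit 4) (nat_lit 10) (.e true (nat_lit 1) (nat_lit 90) (nat_lit 4) (nat_lit 10) (.e true (nat_lit 1) (nat_lit 123) (nat_lit 0) (nat_lit 14) (.e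 false (nat_lit 1) (nat_lit 108) (nat_lit 2) (nat_lit 12) (.e true (nat_lit 1) (nat_lit 93) (nat_lit 3) (nat_lit 11) (.e true (nat_lit 1) (nat_lit 95) (nat_lit 3) (nat_lit 11) (.e true (nat_lit 1) (nat_lit 96) (nat_lit 3) (nat_lit 11) (.e false (nat_lit 1) (nat_lit 97) (nat_lit 3) (nat_lit 11) (.e false (nat_lit 1) (nat_lit 98) (nat_lit 3) (nat_lit 11) (.e false (nat_lit 1) (nat_lit 99) (nat_lit 3) (nat_lit 11) (.e false (nat_lit 1) (nat_lit 100) (nat_lit 3) (nat_lit 11) (.e true (nat_lit 1) (nat_lit 115) (nat_lit 1) (nat_lit 13) .nil))))))))))))))))))))))))) (.nd (.nd .leaf (nat_lit 96261) (nat_lit 462) (.p (nat_lit 322) (nat_lit 1) .z) .df .leaf) (nat_lit 97283) (nat_lit 312) (.p (nat_lit 243) (nat_lit 1) .z) .df .leaf)) (nat_lit 97285) (nat_lit 463) (.p (nat_lit 323) (nat_lit 1) .z) .df (.nd (.nd (.nd .leaf (nat_lit 98307) (nat_lit 313) (.p (nat_lit 244) (nat_lit 1) .z) .df .leaf) (nat_lit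 98309) (nat_lit 464) (.p (nat_lit 324) (nat_lit 1) .z) .df .leaf) (nat_lit 99331) (nat_lit 314) (.p (nat_lit 245) (nat_lit 1) .z) .df (.nd (.nd .leaf (nat_lit 99333) (nat_lit 511) (.p (nat_lit 320) (nat_lit 2) (.p (nat_lit 321) (nat_lit 2) (.p (nat_lit 322) (nat_lit 2) (.p (nat_lit 323) (nat_lit 3) (.p (nat_lit 324) (nat_lit 3) (.n (nat_lit 325) (nat_lit 3) (.n (nat_lit 326) (nat_lit 3) (.n (nat_lit 327) (nat_lit 4) (.n (nat_lit 328) (nat_lit 2) (.p (nat_lit 330) (nat_lit 2) (.p (nat_lit 331) (nat_lit 3) (.p (nat_lit 332) (nat_lit 1) (.n (nat_lit 333) (nat_lit 1) (.n (nat_lit 334) (nat_lit 1) (.n (nat_lit 335) (nat_lit 3) (.n (nat_lit 336) (nat_lit 2) (.n (nat_lit 338) (nat_lit 3) (.n (nat_lit 339) (nat_lit 1) (.n (nat_lit 340) (nat_lit 1) (.n (nat_lit 341) (nat_lit 3) (.p (nat_lit 342) (nat_lit 2) (.p (nat_lit 344) (nat_lit 2) (.n (nat_lit 345) (nat_lit 2) (.p (nat_lit 347) (nat_lit 2) (.p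 (nat_lit 349) (nat_lit 2) (.n (nat_lit 350) (nat_lit 2) (.n (nat_lit 351) (nat_lit 1) (.p (nat_lit 352) (nat_lit 1) (.n (nat_lit 353) (nat_lit 3) (.n (nat_lit 354) (nat_lit 3) (.n (nat_lit 355) (nat_lit 1) (.n (nat_lit 356) (nat_lit 1) (.p (nat_lit 357) (nat_lit 2) (.p (nat_lit 358) (nat_lit 2) (.p (nat_lit 359) (nat_lit 2) (.p (nat_lit 361) (nat_lit 1) (.p (nat_lit 362) (nat_lit 1) .z))))))))))))))))))))))))))))))))))))) (.ct dF4_c1118225 (nat_lit 1) (nat_lit 10) (.s false (nat_lit 1) (nat_lit 7) (nat_lit 1) (nat_lit 5) (nat_lit 4) true (nat_lit 5) true (nat_lit 11) true (nat_lit 8) true (nat_lit 13) true (nat_lit 10) (.s true (nat_lit 1) (nat_lit 17) (nat_lit 2) (nat_lit 4) (nat_lit 0) true (nat_lit 8) true (nat_lit 14) true (nat_lit 2) true (nat_lit 12) true (nat_lit 11) (.e false (nat_lit 1) (nat_lit 54) (nat_lit 13) (nat_lit 5) (.e false (nat_lit 1) (nat_lit 132) (nat_lit 4) (nat_lit 11)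 (.e false (nat_lit 1) (nat_lit 182) (nat_lit 1) (nat_lit 13) (.e false (nat_lit 1) (nat_lit 186) (nat_lit 1) (nat_lit 13) (.e true (nat_lit 1) (nat_lit 188) (nat_lit 1) (nat_lit 13) (.e true (nat_lit 1) (nat_lit 190) (nat_lit 1) (nat_lit 13) (.e true (nat_lit 1) (nat_lit 195) (nat_lit 0) (nat_lit 14) (.e false (nat_lit 1) (nat_lit 38) (nat_lit 17) (nat_lit 2) (.e false (nat_lit 1) (nat_lit 171) (nat_lit 2) (nat_lit 12) (.e true (nat_lit 1) (nat_lit 175) (nat_lit 2) (nat_lit 12) (.e false (nat_lit 1) (nat_lit 179) (nat_lit 2) (nat_lit 12) (.e false (nat_lit 1) (nat_lit 180) (nat_lit 2) (nat_lit 12) (.e false (nat_lit 1) (nat_lit 136) (nat_lit 4) (nat_lit 11) .nil)))))))))))))))) .leaf) (nat_lit 100355) (nat_lit 315) (.p (nat_lit 246) (nat_lit 1) .z) .df .leaf)))) (nat_lit 100357) (nat_lit 465) (.p (nat_lit 325) (nat_lit 1) .z) .df (.nd (.nd (.nd (.nd (.nd .leaf (nat_lit 101379) (nat_lit 316)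 (.p (nat_lit 247) (nat_lit 1) .z) .df .leaf) (nat_lit 101381) (nat_lit 466) (.p (nat_lit 326) (nat_lit 1) .z) .df .leaf) (nat_lit 102403) (nat_lit 317) (.p (nat_lit 248) (nat_lit 1) .z) .df (.nd (.nd .leaf (nat_lit 102405) (nat_lit 467) (.p (nat_lit 327) (nat_lit 1) .z) .df .leaf) (nat_lit 103426) (nat_lit 318) (.p (nat_lit 249) (nat_lit 1) .z) .df .leaf)) (nat_lit 103429) (nat_lit 538) (.p (nat_lit 363) (nat_lit 1) .z) .df (.nd (.nd (.nd .leaf (nat_lit 104450) (nat_lit 319) (.p (nat_lit 250) (nat_lit 1) .z) .df .leaf) (nat_lit 104453) (nat_lit 539) (.p (nat_lit 364) (nat_lit 1) .z) .df .leaf) (nat_lit 105474) (nat_lit 320) (.p (nat_lit 251) (nat_lit 1) .z) .df (.nd (.nd .leaf (nat_lit 105477) (nat_lit 540) (.p (nat_lit 365) (nat_lit 1) .z) .df .leaf) (nat_lit 106498) (nat_lit 354) (.p (nat_lit 231) (nat_lit 1) (.n (nat_lit 232) (nat_lit 1) (.n (nat_lit 236) (nat_lit 1) (.p (nat_lit 237) (nat_lit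 1) (.p (nat_lit 239) (nat_lit 1) (.p (nat_lit 240) (nat_lit 1) (.n (nat_lit 241) (nat_lit 1) (.n (nat_lit 244) (nat_lit 1) (.p (nat_lit 246) (nat_lit 1) (.p (nat_lit 248) (nat_lit 1) (.n (nat_lit 249) (nat_lit 1) (.p (nat_lit 273) (nat_lit 1) (.p (nat_lit 274) (nat_lit 1) .z))))))))))))) (.ct dF4_c1118480 (nat_lit 1) (nat_lit 12) (.s true (nat_lit 1) (nat_lit 6) (nat_lit 3) (nat_lit 4) (nat_lit 2) true (nat_lit 4) true (nat_lit 12) true (nat_lit 9) true (nat_lit 11) true (nat_lit 10) (.s true (nat_lit 1) (nat_lit 6) (nat_lit 4) (nat_lit 3) (nat_lit 2) true (nat_lit 1) true (nat_lit 12) true (nat_lit 9) true (nat_lit 10) true (nat_lit 11) (.e false (nat_lit 1) (nat_lit 33) (nat_lit 11) (nat_lit 4) (.e true (nat_lit 1) (nat_lit 101) (nat_lit 2) (nat_lit 12) (.e true (nat_lit 1) (nat_lit 92) (nat_lit 3) (nat_lit 11) (.e true (nat_lit 1) (nat_lit 96) (nat_lit 3) (nat_lit 11) (.e false (nat_lit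 1) (nat_lit 98) (nat_lit 3) (nat_lit 11) (.e false (nat_lit 1) (nat_lit 100) (nat_lit 3) (nat_lit 11) (.e false (nat_lit 1) (nat_lit 81) (nat_lit 4) (nat_lit 10) (.e false (nat_lit 1) (nat_lit 24) (nat_lit 14) (nat_lit 1) (.e true (nat_lit 1) (nat_lit 82) (nat_lit 4) (nat_lit 10) (.e true (nat_lit 1) (nat_lit 86) (nat_lit 4) (nat_lit 10) (.e false (nat_lit 1) (nat_lit 88) (nat_lit 4) (nat_lit 10) (.e false (nat_lit 1) (nat_lit 90) (nat_lit 4) (nat_lit 10) (.e false (nat_lit 1) (nat_lit 91) (nat_lit 3) (nat_lit 11) .nil)))))))))))))))) .leaf))) (nat_lit 106501) (nat_lit 541) (.p (nat_lit 366) (nat_lit 1) .z) .df (.nd (.nd (.nd (.nd .leaf (nat_lit 107522) (nat_lit 321) (.p (nat_lit 252) (nat_lit 1) .z) .df .leaf) (nat_lit 107525) (nat_lit 542) (.p (nat_lit 367) (nat_lit 1) .z) .df .leaf) (nat_lit 108546) (nat_lit 322) (.p (nat_lit 253) (nat_lit 1) .z) .df (.nd (.nd .leaf (nat_lit 108549) (nat_lit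 543) (.p (nat_lit 368) (nat_lit 1) .z) .df .leaf) (nat_lit 109570) (nat_lit 351) (.p (nat_lit 231) (nat_lit 2) (.n (nat_lit 232) (nat_lit 2) (.n (nat_lit 233) (nat_lit 1) (.n (nat_lit 234) (nat_lit 1) (.n (nat_lit 235) (nat_lit 3) (.n (nat_lit 236) (nat_lit 2) (.p (nat_lit 237) (nat_lit 2) (.p (nat_lit 238) (nat_lit 3) (.p (nat_lit 239) (nat_lit 4) (.p (nat_lit 240) (nat_lit 3) (.n (nat_lit 241) (nat_lit 1) (.n (nat_lit 242) (nat_lit 1) (.n (nat_lit 243) (nat_lit 3) (.n (nat_lit 244) (nat_lit 1) (.p (nat_lit 246) (nat_lit 1) (.p (nat_lit 247) (nat_lit 3) (.p (nat_lit 248) (nat_lit 3) (.p (nat_lit 250) (nat_lit 2) (.p (nat_lit 251) (nat_lit 2) (.p (nat_lit 252) (nat_lit 1) (.p (nat_lit 253) (nat_lit 3) (.n (nat_lit 254) (nat_lit 2) (.n (nat_lit 256) (nat_lit 1) (.p (nat_lit 257) (nat_lit 2) (.n (nat_lit 259) (nat_lit 1) (.p (nat_lit 260) (nat_lit 1) (.n (nat_lit 261) (nat_lit 1) (.p (nat_lit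 262) (nat_lit 1) (.p (nat_lit 263) (nat_lit 1) (.n (nat_lit 264) (nat_lit 1) (.p (nat_lit 265) (nat_lit 2) (.p (nat_lit 266) (nat_lit 2) (.p (nat_lit 268) (nat_lit 1) (.n (nat_lit 269) (nat_lit 2) (.n (nat_lit 270) (nat_lit 2) (.n (nat_lit 271) (nat_lit 1) .z)))))))))))))))))))))))))))))))))))) (.ct dF4_c1118480 (nat_lit 1) (nat_lit 12) (.s true (nat_lit 1) (nat_lit 7) (nat_lit 1) (nat_lit 4) (nat_lit 3) true (nat_lit 5) true (nat_lit 11) true (nat_lit 8) true (nat_lit 13) true (nat_lit 10) (.s true (nat_lit 1) (nat_lit 9) (nat_lit 2) (nat_lit 1) (nat_lit 4) true (nat_lit 1) true (nat_lit 10) true (nat_lit 6) true (nat_lit 12) true (nat_lit 13) dF4_i5))) .leaf)) (nat_lit 109573) (nat_lit 590) (.p (nat_lit 364) (nat_lit 2) (.p (nat_lit 365) (nat_lit 2) (.p (nat_lit 366) (nat_lit 2) (.p (nat_lit 367) (nat_lit 3) (.p (nat_lit 368) (nat_lit 3) (.n (nat_lit 369) (nat_lit 3) (.n (nat_lit 370) (nat_lit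 3) (.n (nat_lit 371) (nat_lit 4) (.n (nat_lit 372) (nat_lit 2) (.p (nat_lit 374) (nat_lit 2) (.p (nat_lit 375) (nat_lit 3) (.p (nat_lit 376) (nat_lit 1) (.n (nat_lit 377) (nat_lit 1) (.n (nat_lit 378) (nat_lit 1) (.n (nat_lit 379) (nat_lit 3) (.n (nat_lit 380) (nat_lit 2) (.n (nat_lit 382) (nat_lit 3) (.n (nat_lit 383) (nat_lit 1) (.n (nat_lit 384) (nat_lit 1) (.n (nat_lit 385) (nat_lit 3) (.p (nat_lit 386) (nat_lit 2) (.p (nat_lit 388) (nat_lit 2) (.n (nat_lit 389) (nat_lit 2) (.p (nat_lit 391) (nat_lit 2) (.p (nat_lit 393) (nat_lit 2) (.n (nat_lit 394) (nat_lit 2) (.n (nat_lit 395) (nat_lit 1) (.p (nat_lit 396) (nat_lit 1) (.n (nat_lit 397) (nat_lit 3) (.n (nat_lit 398) (nat_lit 3) (.n (nat_lit 399) (nat_lit 1) (.n (nat_lit 400) (nat_lit 1) (.p (nat_lit 401) (nat_lit 2) (.p (nat_lit 402) (nat_lit 2) (.p (nat_lit 403) (nat_lit 2) (.p (nat_lit 405) (nat_lit 1) (.p (nat_lit 406) (nat_lit 1)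 .z))))))))))))))))))))))))))))))))))))) (.ct dF4_c1114385 (nat_lit 1) (nat_lit 10) (.s false (nat_lit 1) (nat_lit 9) (nat_lit 1) (nat_lit 5) (nat_lit 4) true (nat_lit 5) true (nat_lit 11) true (nat_lit 8) true (nat_lit 13) true (nat_lit 10) (.s true (nat_lit 1) (nat_lit 17) (nat_lit 3) (nat_lit 4) (nat_lit 0) true (nat_lit 8) true (nat_lit 14) true (nat_lit 2) true (nat_lit 12) true (nat_lit 11) (.e false (nat_lit 1) (nat_lit 60) (nat_lit 13) (nat_lit 5) (.e false (nat_lit 1) (nat_lit 142) (nat_lit 4) (nat_lit 11) (.e false (nat_lit 1) (nat_lit 202) (nat_lit 1) (nat_lit 13) (.e false (nat_lit 1) (nat_lit 206) (nat_lit 1) (nat_lit 13) (.e true (nat_lit 1) (nat_lit 208) (nat_lit 1) (nat_lit 13) (.e true (nat_lit 1) (nat_lit 210) (nat_lit 1) (nat_lit 13) (.e true (nat_lit 1) (nat_lit 215) (nat_lit 0) (nat_lit 14) (.e false (nat_lit 1) (nat_lit 44) (nat_lit 17) (nat_lit 2) (.e false (nat_lit 1)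 (nat_lit 171) (nat_lit 3) (nat_lit 12) (.e true (nat_lit 1) (nat_lit 175) (nat_lit 3) (nat_lit 12) (.e false (nat_lit 1) (nat_lit 179) (nat_lit 3) (nat_lit 12) (.e false (nat_lit 1) (nat_lit 180) (nat_lit 3) (nat_lit 12) (.e false (nat_lit 1) (nat_lit 146) (nat_lit 4) (nat_lit 11) .nil)))))))))))))))) (.nd (.nd (.nd .leaf (nat_lit 110594) (nat_lit 323) (.p (nat_lit 254) (nat_lit 1) .z) .df .leaf) (nat_lit 110597) (nat_lit 544) (.p (nat_lit 369) (nat_lit 1) .z) .df .leaf) (nat_lit 111618) (nat_lit 324) (.p (nat_lit 255) (nat_lit 1) .z) .df (.nd (.nd .leaf (nat_lit 111621) (nat_lit 545) (.p (nat_lit 370) (nat_lit 1) .z) .df .leaf) (nat_lit 112642) (nat_lit 325) (.p (nat_lit 256) (nat_lit 1) .z) .df .leaf))))) (nat_lit 112645) (nat_lit 546) (.p (nat_lit 371) (nat_lit 1) .z) .df (.nd (.nd (.nd (.nd (.nd (.nd .leaf (nat_lit 113665) (nat_lit 326) (.p (nat_lit 257) (nat_lit 1) .z) .df .leaf) (nat_lit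 113669) (nat_lit 616) (.p (nat_lit 407) (nat_lit 1) .z) .df .leaf) (nat_lit 114689) (nat_lit 327) (.p (nat_lit 258) (nat_lit 1) .z) .df (.nd (.nd .leaf (nat_lit 114693) (nat_lit 617) (.p (nat_lit 408) (nat_lit 1) .z) .df .leaf) (nat_lit 115713) (nat_lit 328) (.p (nat_lit 259) (nat_lit 1) .z) .df .leaf)) (nat_lit 115717) (nat_lit 618) (.p (nat_lit 409) (nat_lit 1) .z) .df (.nd (.nd (.nd .leaf (nat_lit 116737) (nat_lit 329) (.p (nat_lit 260) (nat_lit 1) .z) .df .leaf) (nat_lit 116741) (nat_lit 619) (.p (nat_lit 410) (nat_lit 1) .z) .df .leaf) (nat_lit 117761) (nat_lit 330) (.p (nat_lit 261) (nat_lit 1) .z) .df (.nd (.nd .leaf (nat_lit 117765) (nat_lit 620) (.p (nat_lit 411) (nat_lit 1) .z) .df .leaf) (nat_lit 118785) (nat_lit 350) (.p (nat_lit 231) (nat_lit 1) (.p (nat_lit 232) (nat_lit 1) (.n (nat_lit 233) (nat_lit 2) (.n (nat_lit 234) (nat_lit 1) (.n (nat_lit 235) (nat_lit 2) (.p (nat_lit 236)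 (nat_lit 1) (.p (nat_lit 238) (nat_lit 1) (.n (nat_lit 240) (nat_lit 1) (.n (nat_lit 241) (nat_lit 1) (.n (nat_lit 243) (nat_lit 1) (.n (nat_lit 244) (nat_lit 2) (.p (nat_lit 245) (nat_lit 1) (.p (nat_lit 246) (nat_lit 1) (.p (nat_lit 247) (nat_lit 2) (.p (nat_lit 248) (nat_lit 2) (.p (nat_lit 249) (nat_lit 1) (.n (nat_lit 251) (nat_lit 1) (.n (nat_lit 252) (nat_lit 1) (.p (nat_lit 254) (nat_lit 2) (.p (nat_lit 255) (nat_lit 1) (.p (nat_lit 256) (nat_lit 2) (.n (nat_lit 257) (nat_lit 1) (.n (nat_lit 258) (nat_lit 1) (.p (nat_lit 260) (nat_lit 2) (.n (nat_lit 262) (nat_lit 3) (.p (nat_lit 263) (nat_lit 2) (.p (nat_lit 264) (nat_lit 2) (.p (nat_lit 265) (nat_lit 1) (.p (nat_lit 268) (nat_lit 3) (.n (nat_lit 269) (nat_lit 1) (.n (nat_lit 270) (nat_lit 3) (.p (nat_lit 271) (nat_lit 2) (.n (nat_lit 272) (nat_lit 2) (.n (nat_lit 273) (nat_lit 3) (.p (nat_lit 274) (nat_lit 1) .z)))))))))))))))))))))))))))))))))))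 (.ct dF4_c1118480 (nat_lit 1) (nat_lit 13) (.s false (nat_lit 1) (nat_lit 6) (nat_lit 2) (nat_lit 3) (nat_lit 4) true (nat_lit 1) true (nat_lit 10) true (nat_lit 9) true (nat_lit 12) true (nat_lit 11) (.s false (nat_lit 1) (nat_lit 6) (nat_lit 3) (nat_lit 2) (nat_lit 4) true (nat_lit 0) true (nat_lit 10) true (nat_lit 9) true (nat_lit 11) true (nat_lit 12) (.s true (nat_lit 1) (nat_lit 8) (nat_lit 3) (nat_lit 4) (nat_lit 0) true (nat_lit 6) true (nat_lit 14) true (nat_lit 7) true (nat_lit 11) true (nat_lit 10) (.s true (nat_lit 1) (nat_lit 15) (nat_lit 1) (nat_lit 0) (nat_lit 2) true (nat_lit 7) true (nat_lit 12) true (nat_lit 0) true (nat_lit 13) true (nat_lit 14) dF4_i4))))) .leaf))) (nat_lit 118789) (nat_lit 621) (.p (nat_lit 412) (nat_lit 1) .z) .df (.nd (.nd (.nd (.nd .leaf (nat_lit 119809) (nat_lit 353) (.p (nat_lit 231) (nat_lit 1) (.p (nat_lit 232) (nat_lit 2) (.p (nat_lit 235) (nat_lit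 1) (.p (nat_lit 236) (nat_lit 2) (.n (nat_lit 237) (nat_lit 1) (.n (nat_lit 238) (nat_lit 1) (.n (nat_lit 239) (nat_lit 2) (.n (nat_lit 240) (nat_lit 2) (.n (nat_lit 241) (nat_lit 1) (.p (nat_lit 242) (nat_lit 1) (.p (nat_lit 243) (nat_lit 2) (.n (nat_lit 244) (nat_lit 1) (.n (nat_lit 247) (nat_lit 2) (.n (nat_lit 248) (nat_lit 1) (.n (nat_lit 249) (nat_lit 1) (.n (nat_lit 250) (nat_lit 2) (.n (nat_lit 251) (nat_lit 1) (.n (nat_lit 253) (nat_lit 2) (.p (nat_lit 254) (nat_lit 2) (.n (nat_lit 255) (nat_lit 1) (.p (nat_lit 256) (nat_lit 1) (.n (nat_lit 257) (nat_lit 2) (.n (nat_lit 258) (nat_lit 1) (.p (nat_lit 259) (nat_lit 2) (.p (nat_lit 260) (nat_lit 1) (.p (nat_lit 261) (nat_lit 2) (.n (nat_lit 262) (nat_lit 3) (.p (nat_lit 264) (nat_lit 1) (.n (nat_lit 265) (nat_lit 2) (.n (nat_lit 266) (nat_lit 2) (.p (nat_lit 269) (nat_lit 1) (.p (nat_lit 270) (nat_lit 1) (.p (nat_lit 271) (nat_lit 2)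 (.n (nat_lit 272) (nat_lit 1) (.p (nat_lit 274) (nat_lit 2) .z))))))))))))))))))))))))))))))))))) (.ct dF4_c1118480 (nat_lit 1) (nat_lit 13) (.s false (nat_lit 1) (nat_lit 11) (nat_lit 1) (nat_lit 0) (nat_lit 4) true (nat_lit 2) true (nat_lit 10) true (nat_lit 4) true (nat_lit 13) true (nat_lit 14) (.e false (nat_lit 1) (nat_lit 29) (nat_lit 13) (nat_lit 2) (.e false (nat_lit 1) (nat_lit 81) (nat_lit 4) (nat_lit 10) (.e true (nat_lit 1) (nat_lit 83) (nat_lit 4) (nat_lit 10) (.e true (nat_lit 1) (nat_lit 84) (nat_lit 4) (nat_lit 10) (.e true (nat_lit 1) (nat_lit 85) (nat_lit 4) (nat_lit 10) (.e false (nat_lit 1) (nat_lit 88) (nat_lit 4) (nat_lit 10) (.e false (nat_lit 1) (nat_lit 89) (nat_lit 4) (nat_lit 10) (.e false (nat_lit 1) (nat_lit 90) (nat_lit 4) (nat_lit 10) (.e false (nat_lit 1) (nat_lit 33) (nat_lit 11) (nat_lit 4) (.e false (nat_lit 1) (nat_lit 113) (nat_lit 1) (nat_lit 13) (.e false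 (nat_lit 1) (nat_lit 114) (nat_lit 1) (nat_lit 13) (.e false (nat_lit 1) (nat_lit 115) (nat_lit 1) (nat_lit 13) (.e false (nat_lit 1) (nat_lit 116) (nat_lit 1) (nat_lit 13) (.e true (nat_lit 1) (nat_lit 118) (nat_lit 1) (nat_lit 13) (.e true (nat_lit 1) (nat_lit 119) (nat_lit 1) (nat_lit 13) (.e true (nat_lit 1) (nat_lit 120) (nat_lit 1) (nat_lit 13) (.e true (nat_lit 1) (nat_lit 130) (nat_lit 0) (nat_lit 14) .nil))))))))))))))))))) .leaf) (nat_lit 119813) (nat_lit 668) (.p (nat_lit 408) (nat_lit 2) (.p (nat_lit 409) (nat_lit 2) (.p (nat_lit 410) (nat_lit 2) (.p (nat_lit 411) (nat_lit 3) (.p (nat_lit 412) (nat_lit 3) (.n (nat_lit 413) (nat_lit 3) (.n (nat_lit 414) (nat_lit 3) (.n (nat_lit 415) (nat_lit 4) (.n (nat_lit 416) (nat_lit 2) (.p (nat_lit 418) (nat_lit 2) (.p (nat_lit 419) (nat_lit 3) (.p (nat_lit 420) (nat_lit 1) (.n (nat_lit 421) (nat_lit 1) (.n (nat_lit 422) (nat_lit 1) (.n (nat_lit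 423) (nat_lit 3) (.n (nat_lit 424) (nat_lit 2) (.n (nat_lit 426) (nat_lit 3) (.n (nat_lit 427) (nat_lit 1) (.n (nat_lit 428) (nat_lit 1) (.n (nat_lit 429) (nat_lit 3) (.p (nat_lit 430) (nat_lit 2) (.p (nat_lit 432) (nat_lit 2) (.n (nat_lit 433) (nat_lit 2) (.p (nat_lit 435) (nat_lit 2) (.p (nat_lit 437) (nat_lit 2) (.n (nat_lit 438) (nat_lit 2) (.n (nat_lit 439) (nat_lit 1) (.p (nat_lit 440) (nat_lit 1) (.n (nat_lit 441) (nat_lit 3) (.n (nat_lit 442) (nat_lit 3) (.n (nat_lit 443) (nat_lit 1) (.n (nat_lit 444) (nat_lit 1) (.p (nat_lit 445) (nat_lit 2) (.p (nat_lit 446) (nat_lit 2) (.p (nat_lit 447) (nat_lit 2) (.p (nat_lit 449) (nat_lit 1) (.p (nat_lit 450) (nat_lit 1) .z))))))))))))))))))))))))))))))))))))) (.ct dF4_c1052945 (nat_lit 1) (nat_lit 10) (.s false (nat_lit 1) (nat_lit 9) (nat_lit 2) (nat_lit 5) (nat_lit 4) true (nat_lit 5) true (nat_lit 11) true (nat_lit 8) true (nat_lit 13) true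 (nat_lit 10) (.s true (nat_lit 1) (nat_lit 18) (nat_lit 3) (nat_lit 4) (nat_lit 0) true (nat_lit 8) true (nat_lit 14) true (nat_lit 2) true (nat_lit 12) true (nat_lit 11) (.e false (nat_lit 1) (nat_lit 60) (nat_lit 14) (nat_lit 5) (.e false (nat_lit 1) (nat_lit 152) (nat_lit 4) (nat_lit 11) (.e false (nat_lit 1) (nat_lit 202) (nat_lit 2) (nat_lit 13) (.e false (nat_lit 1) (nat_lit 206) (nat_lit 2) (nat_lit 13) (.e true (nat_lit 1) (nat_lit 208) (nat_lit 2) (nat_lit 13) (.e true (nat_lit 1) (nat_lit 210) (nat_lit 2) (nat_lit 13) (.e true (nat_lit 1) (nat_lit 225) (nat_lit 0) (nat_lit 14) (.e false (nat_lit 1) (nat_lit 44) (nat_lit 18) (nat_lit 2) (.e false (nat_lit 1) (nat_lit 181) (nat_lit 3) (nat_lit 12) (.e true (nat_lit 1) (nat_lit 185) (nat_lit 3) (nat_lit 12) (.e false (nat_lit 1) (nat_lit 189) (nat_lit 3) (nat_lit 12) (.e false (nat_lit 1) (nat_lit 190) (nat_lit 3) (nat_lit 12) (.e false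 (nat_lit 1) (nat_lit 156) (nat_lit 4) (nat_lit 11) .nil)))))))))))))))) .leaf) (nat_lit 120833) (nat_lit 349) (.p (nat_lit 231) (nat_lit 1) (.n (nat_lit 233) (nat_lit 4) (.n (nat_lit 234) (nat_lit 3) (.n (nat_lit 235) (nat_lit 5) (.p (nat_lit 237) (nat_lit 1) (.p (nat_lit 238) (nat_lit 3) (.p (nat_lit 239) (nat_lit 2) (.p (nat_lit 240) (nat_lit 1) (.n (nat_lit 242) (nat_lit 1) (.n (nat_lit 243) (nat_lit 4) (.n (nat_lit 244) (nat_lit 2) (.p (nat_lit 245) (nat_lit 2) (.p (nat_lit 246) (nat_lit 1) (.p (nat_lit 247) (nat_lit 6) (.p (nat_lit 248) (nat_lit 4) (.p (nat_lit 249) (nat_lit 3) (.p (nat_lit 250) (nat_lit 3) (.n (nat_lit 251) (nat_lit 1) (.n (nat_lit 252) (nat_lit 2) (.p (nat_lit 253) (nat_lit 3) (.p (nat_lit 254) (nat_lit 1) (.p (nat_lit 255) (nat_lit 3) (.p (nat_lit 256) (nat_lit 2) (.p (nat_lit 257) (nat_lit 1) (.n (nat_lit 259) (nat_lit 1) (.p (nat_lit 260) (nat_lit 3) (.n (nat_lit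 261) (nat_lit 2) (.n (nat_lit 262) (nat_lit 2) (.p (nat_lit 263) (nat_lit 3) (.p (nat_lit 264) (nat_lit 2) (.p (nat_lit 265) (nat_lit 3) (.p (nat_lit 266) (nat_lit 2) (.p (nat_lit 268) (nat_lit 4) (.n (nat_lit 269) (nat_lit 2) (.n (nat_lit 270) (nat_lit 6) (.p (nat_lit 271) (nat_lit 1) (.n (nat_lit 272) (nat_lit 3) (.n (nat_lit 273) (nat_lit 5) (.p (nat_lit 274) (nat_lit 1) .z))))))))))))))))))))))))))))))))))))))) (.ct dF4_c1118480 (nat_lit 1) (nat_lit 13) (.s false (nat_lit 1) (nat_lit 6) (nat_lit 2) (nat_lit 3) (nat_lit 4) true (nat_lit 1) true (nat_lit 10) true (nat_lit 9) true (nat_lit 12) true (nat_lit 11) (.s false (nat_lit 1) (nat_lit 6) (nat_lit 3) (nat_lit 2) (nat_lit 4) true (nat_lit 0) true (nat_lit 10) true (nat_lit 9) true (nat_lit 11) true (nat_lit 12) (.s false (nat_lit 1) (nat_lit 6) (nat_lit 3) (nat_lit 4) (nat_lit 2) true (nat_lit 4) true (nat_lit 12) true (nat_lit 9) true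 (nat_lit 11) true (nat_lit 10) (.s false (nat_lit 1) (nat_lit 6) (nat_lit 4) (nat_lit 3) (nat_lit 2) true (nat_lit 1) true (nat_lit 12) true (nat_lit 9) true (nat_lit 10) true (nat_lit 11) (.s false (nat_lit 1) (nat_lit 7) (nat_lit 3) (nat_lit 4) (nat_lit 1) true (nat_lit 5) true (nat_lit 13) true (nat_lit 8) true (nat_lit 11) true (nat_lit 10) (.s false (nat_lit 1) (nat_lit 15) (nat_lit 0) (nat_lit 1) (nat_lit 2) true (nat_lit 8) true (nat_lit 12) true (nat_lit 0) true (nat_lit 14) true (nat_lit 13) dF4_i3))))))) (.nd (.nd .leaf (nat_lit 120837) (nat_lit 622) (.p (nat_lit 413) (nat_lit 1) .z) .df .leaf) (nat_lit 121857) (nat_lit 331) (.p (nat_lit 262) (nat_lit 1) .z) .df .leaf)) (nat_lit 121861) (nat_lit 623) (.p (nat_lit 414) (nat_lit 1) .z) .df (.nd (.nd (.nd .leaf (nat_lit 122881) (nat_lit 347) (.n (nat_lit 231) (nat_lit 1) (.p (nat_lit 233) (nat_lit 1) (.p (nat_lit 234) (nat_lit 1) (.p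 (nat_lit 235) (nat_lit 2) (.n (nat_lit 238) (nat_lit 1) (.n (nat_lit 239) (nat_lit 1) (.n (nat_lit 240) (nat_lit 1) (.p (nat_lit 243) (nat_lit 1) (.n (nat_lit 247) (nat_lit 2) (.n (nat_lit 248) (nat_lit 1) (.n (nat_lit 249) (nat_lit 1) (.n (nat_lit 250) (nat_lit 1) (.p (nat_lit 252) (nat_lit 1) (.n (nat_lit 253) (nat_lit 1) (.n (nat_lit 255) (nat_lit 1) (.n (nat_lit 256) (nat_lit 1) (.n (nat_lit 257) (nat_lit 1) (.n (nat_lit 260) (nat_lit 1) (.p (nat_lit 261) (nat_lit 1) (.n (nat_lit 263) (nat_lit 1) (.p (nat_lit 267) (nat_lit 1) (.p (nat_lit 270) (nat_lit 1) (.n (nat_lit 271) (nat_lit 1) (.p (nat_lit 273) (nat_lit 1) (.n (nat_lit 274) (nat_lit 1) .z))))))))))))))))))))))))) (.ct dF4_c1118480 (nat_lit 1) (nat_lit 13) (.s true (nat_lit 1) (nat_lit 9) (nat_lit 1) (nat_lit 4) (nat_lit 2) true (nat_lit 7) true (nat_lit 12) true (nat_lit 6) true (nat_lit 13) true (nat_lit 10) (.s true (nat_lit 1)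 (nat_lit 9) (nat_lit 2) (nat_lit 4) (nat_lit 1) true (nat_lit 7) true (nat_lit 13) true (nat_lit 6) true (nat_lit 12) true (nat_lit 10) (.s true (nat_lit 1) (nat_lit 11) (nat_lit 1) (nat_lit 0) (nat_lit 4) true (nat_lit 2) true (nat_lit 10) true (nat_lit 4) true (nat_lit 13) true (nat_lit 14) (.s false (nat_lit 1) (nat_lit 13) (nat_lit 3) (nat_lit 2) (nat_lit 0) true (nat_lit 6) true (nat_lit 14) true (nat_lit 2) true (nat_lit 11) true (nat_lit 12) (.s true (nat_lit 1) (nat_lit 14) (nat_lit 0) (nat_lit 1) (nat_lit 3) true (nat_lit 6) true (nat_lit 11) true (nat_lit 1) true (nat_lit 14) true (nat_lit 13) dF4_i2)))))) .leaf) (nat_lit 122885) (nat_lit 624) (.p (nat_lit 415) (nat_lit 1) .z) .df .leaf) (nat_lit 123904) (nat_lit 332) (.p (nat_lit 263) (nat_lit 1) .z) .df (.nd (.nd .leaf (nat_lit 123909) (nat_lit 694) (.p (nat_lit 451) (nat_lit 1) .z) .df .leaf) (nat_lit 124928) (nat_lit 333) (.p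 (nat_lit 264) (nat_lit 1) .z) .df .leaf)))) (nat_lit 124933) (nat_lit 695) (.p (nat_lit 452) (nat_lit 1) .z) .df (.nd (.nd (.nd (.nd (.nd .leaf (nat_lit 125952) (nat_lit 334) (.p (nat_lit 265) (nat_lit 1) .z) .df .leaf) (nat_lit 125957) (nat_lit 696) (.p (nat_lit 453) (nat_lit 1) .z) .df .leaf) (nat_lit 126976) (nat_lit 335) (.p (nat_lit 266) (nat_lit 1) .z) .df (.nd (.nd .leaf (nat_lit 126981) (nat_lit 697) (.p (nat_lit 454) (nat_lit 1) .z) .df .leaf) (nat_lit 128000) (nat_lit 336) (.p (nat_lit 267) (nat_lit 1) .z) .df .leaf)) (nat_lit 128005) (nat_lit 698) (.p (nat_lit 455) (nat_lit 1) .z) .df (.nd (.nd (.nd .leaf (nat_lit 129024) (nat_lit 337) (.p (nat_lit 268) (nat_lit 1) .z) .df .leaf) (nat_lit 129029) (nat_lit 699) (.p (nat_lit 456) (nat_lit 1) .z) .df .leaf) (nat_lit 130048) (nat_lit 338) (.p (nat_lit 269) (nat_lit 1) .z) .df (.nd (.nd .leaf (nat_lit 130053) (nat_lit 746) (.p (nat_lit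 452) (nat_lit 2) (.p (nat_lit 453) (nat_lit 2) (.p (nat_lit 454) (nat_lit 2) (.p (nat_lit 455) (nat_lit 3) (.p (nat_lit 456) (nat_lit 3) (.n (nat_lit 457) (nat_lit 3) (.n (nat_lit 458) (nat_lit 3) (.n (nat_lit 459) (nat_lit 4) (.n (nat_lit 460) (nat_lit 2) (.p (nat_lit 462) (nat_lit 2) (.p (nat_lit 463) (nat_lit 3) (.p (nat_lit 464) (nat_lit 1) (.n (nat_lit 465) (nat_lit 1) (.n (nat_lit 466) (nat_lit 1) (.n (nat_lit 467) (nat_lit 3) (.n (nat_lit 468) (nat_lit 2) (.n (nat_lit 470) (nat_lit 3) (.n (nat_lit 471) (nat_lit 1) (.n (nat_lit 472) (nat_lit 1) (.n (nat_lit 473) (nat_lit 3) (.p (nat_lit 474) (nat_lit 2) (.p (nat_lit 476) (nat_lit 2) (.n (nat_lit 477) (nat_lit 2) (.p (nat_lit 479) (nat_lit 2) (.p (nat_lit 481) (nat_lit 2) (.n (nat_lit 482) (nat_lit 2) (.n (nat_lit 483) (nat_lit 1) (.p (nat_lit 484) (nat_lit 1) (.n (nat_lit 485) (nat_lit 3) (.n (nat_lit 486) (nat_lit 3) (.n (nat_lit 487)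 (nat_lit 1) (.n (nat_lit 488) (nat_lit 1) (.p (nat_lit 489) (nat_lit 2) (.p (nat_lit 490) (nat_lit 2) (.p (nat_lit 491) (nat_lit 2) (.p (nat_lit 493) (nat_lit 1) (.p (nat_lit 494) (nat_lit 1) .z))))))))))))))))))))))))))))))))))))) (.ct dF4_c69905 (nat_lit 1) (nat_lit 10) (.s false (nat_lit 1) (nat_lit 10) (nat_lit 2) (nat_lit 5) (nat_lit 4) true (nat_lit 5) true (nat_lit 11) true (nat_lit 8) true (nat_lit 13) true (nat_lit 10) (.s true (nat_lit 1) (nat_lit 18) (nat_lit 3) (nat_lit 4) (nat_lit 1) true (nat_lit 8) true (nat_lit 14) true (nat_lit 2) true (nat_lit 12) true (nat_lit 11) (.e false (nat_lit 1) (nat_lit 63) (nat_lit 14) (nat_lit 5) (.e false (nat_lit 1) (nat_lit 162) (nat_lit 4) (nat_lit 11) (.e false (nat_lit 1) (nat_lit 212) (nat_lit 2) (nat_lit 13) (.e false (nat_lit 1) (nat_lit 216) (nat_lit 2) (nat_lit 13) (.e true (nat_lit 1) (nat_lit 218) (nat_lit 2) (nat_lit 13) (.e true (nat_lit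 1) (nat_lit 220) (nat_lit 2) (nat_lit 13) (.e true (nat_lit 1) (nat_lit 225) (nat_lit 1) (nat_lit 14) (.e false (nat_lit 1) (nat_lit 47) (nat_lit 18) (nat_lit 2) (.e false (nat_lit 1) (nat_lit 191) (nat_lit 3) (nat_lit 12) (.e true (nat_lit 1) (nat_lit 195) (nat_lit 3) (nat_lit 12) (.e false (nat_lit 1) (nat_lit 199) (nat_lit 3) (nat_lit 12) (.e false (nat_lit 1) (nat_lit 200) (nat_lit 3) (nat_lit 12) (.e false (nat_lit 1) (nat_lit 166) (nat_lit 4) (nat_lit 11) .nil)))))))))))))))) .leaf) (nat_lit 131072) (nat_lit 339) (.p (nat_lit 270) (nat_lit 1) .z) .df .leaf))) (nat_lit 131077) (nat_lit 700) (.p (nat_lit 457) (nat_lit 1) .z) .df (.nd (.nd (.nd (.nd .leaf (nat_lit 132096) (nat_lit 340) (.p (nat_lit 271) (nat_lit 1) .z) .df .leaf) (nat_lit 132101) (nat_lit 701) (.p (nat_lit 458) (nat_lit 1) .z) .df .leaf) (nat_lit 133120) (nat_lit 341) (.p (nat_lit 272) (nat_lit 1) .z) .df (.nd (.nd .leaf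 (nat_lit 133125) (nat_lit 702) (.p (nat_lit 459) (nat_lit 1) .z) .df .leaf) (nat_lit 134147) (nat_lit 389) (.p (nat_lit 284) (nat_lit 1) .z) .df .leaf)) (nat_lit 134148) (nat_lit 468) (.p (nat_lit 328) (nat_lit 1) .z) .df (.nd (.nd (.nd .leaf (nat_lit 135171) (nat_lit 390) (.p (nat_lit 285) (nat_lit 1) .z) .df .leaf) (nat_lit 135172) (nat_lit 469) (.p (nat_lit 329) (nat_lit 1) .z) .df .leaf) (nat_lit 136195) (nat_lit 391) (.p (nat_lit 286) (nat_lit 1) .z) .df (.nd (.nd .leaf (nat_lit 136196) (nat_lit 470) (.p (nat_lit 330) (nat_lit 1) .z) .df .leaf) (nat_lit 137219) (nat_lit 428) (.p (nat_lit 277) (nat_lit 2) (.p (nat_lit 278) (nat_lit 2) (.p (nat_lit 279) (nat_lit 2) (.n (nat_lit 281) (nat_lit 1) (.n (nat_lit 282) (nat_lit 1) (.n (nat_lit 283) (nat_lit 1) (.p (nat_lit 287) (nat_lit 1) (.p (nat_lit 288) (nat_lit 1) (.n (nat_lit 289) (nat_lit 1) (.n (nat_lit 291) (nat_lit 2) (.n (nat_lit 292)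 (nat_lit 1) (.n (nat_lit 293) (nat_lit 1) (.n (nat_lit 294) (nat_lit 2) (.p (nat_lit 295) (nat_lit 1) (.p (nat_lit 296) (nat_lit 1) (.n (nat_lit 297) (nat_lit 2) (.n (nat_lit 299) (nat_lit 1) (.p (nat_lit 303) (nat_lit 1) (.n (nat_lit 304) (nat_lit 1) (.p (nat_lit 305) (nat_lit 1) (.p (nat_lit 306) (nat_lit 1) (.n (nat_lit 307) (nat_lit 1) (.n (nat_lit 308) (nat_lit 1) (.n (nat_lit 309) (nat_lit 2) (.n (nat_lit 310) (nat_lit 1) (.n (nat_lit 311) (nat_lit 1) (.n (nat_lit 312) (nat_lit 2) (.p (nat_lit 313) (nat_lit 1) (.p (nat_lit 314) (nat_lit 3) (.p (nat_lit 316) (nat_lit 2) (.p (nat_lit 317) (nat_lit 3) (.n (nat_lit 318) (nat_lit 1) .z)))))))))))))))))))))))))))))))) (.ct dF4_c1118465 (nat_lit 1) (nat_lit 11) (.s true (nat_lit 1) (nat_lit 10) (nat_lit 0) (nat_lit 2) (nat_lit 5) true (nat_lit 3) true (nat_lit 10) true (nat_lit 5) true (nat_lit 14) true (nat_lit 12) (.s false (nat_lit 1) (nat_lit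 11) (nat_lit 5) (nat_lit 0) (nat_lit 1) true (nat_lit 2) true (nat_lit 13) true (nat_lit 4) true (nat_lit 10) true (nat_lit 14) (.s false (nat_lit 1) (nat_lit 16) (nat_lit 3) (nat_lit 1) (nat_lit 2) true (nat_lit 4) true (nat_lit 12) true (nat_lit 3) true (nat_lit 11) true (nat_lit 13) (.e false (nat_lit 1) (nat_lit 54) (nat_lit 10) (nat_lit 5) (.e false (nat_lit 1) (nat_lit 161) (nat_lit 0) (nat_lit 14) (.e true (nat_lit 1) (nat_lit 165) (nat_lit 0) (nat_lit 14) (.e false (nat_lit 1) (nat_lit 169) (nat_lit 0) (nat_lit 14) (.e false (nat_lit 1) (nat_lit 170) (nat_lit 0) (nat_lit 14) (.e false (nat_lit 1) (nat_lit 150) (nat_lit 2) (nat_lit 12) (.e true (nat_lit 1) (nat_lit 29) (nat_lit 17) (nat_lit 2) (.e false (nat_lit 1) (nat_lit 160) (nat_lit 1) (nat_lit 13) (.e false (nat_lit 1) (nat_lit 82) (nat_lit 5) (nat_lit 10) (.e true (nat_lit 1) (nat_lit 88) (nat_lit 5) (nat_lit 10) (.e true (nat_lit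 1) (nat_lit 90) (nat_lit 5) (nat_lit 10) (.e true (nat_lit 1) (nat_lit 163) (nat_lit 0) (nat_lit 14) (.e false (nat_lit 1) (nat_lit 148) (nat_lit 2) (nat_lit 12) (.e true (nat_lit 1) (nat_lit 133) (nat_lit 3) (nat_lit 11) (.e true (nat_lit 1) (nat_lit 135) (nat_lit 3) (nat_lit 11) (.e true (nat_lit 1) (nat_lit 136) (nat_lit 3) (nat_lit 11) (.e false (nat_lit 1) (nat_lit 137) (nat_lit 3) (nat_lit 11) (.e false (nat_lit 1) (nat_lit 138) (nat_lit 3) (nat_lit 11) (.e false (nat_lit 1) (nat_lit 139) (nat_lit 3) (nat_lit 11) (.e false (nat_lit 1) (nat_lit 140) (nat_lit 3) (nat_lit 11) (.e true (nat_lit 1) (nat_lit 155) (nat_lit 1) (nat_lit 13) .nil))))))))))))))))))))))))) .leaf))))))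

noncomputable def dF4_t9 : Tr := (.nd dF4_t7 (nat_lit 88069) (nat_lit 385) (.p (nat_lit 280) (nat_lit 1) .z) .df dF4_t8)

noncomputable def dF4_t10 : Tr := (.nd (.nd (.nd (.nd (.nd (.nd (.nd .leaf (nat_lit 138243) (nat_lit 392) (.p (nat_lit 287) (nat_lit 1) .z) .df .leaf) (nat_lit 138244) (nat_lit 471) (.p (nat_lit 331) (nat_lit 1) .z) .df (.nd .leaf (nat_lit 139267) (nat_lit 393) (.p (nat_lit 288) (nat_lit 1) .z) .df .leaf)) (nat_lit 139268) (nat_lit 472) (.p (nat_lit 332) (nat_lit 1) .z) .df (.nd (.nd .leaf (nat_lit 140291) (nat_lit 394) (.p (nat_lit 289) (nat_lit 1) .z) .df .leaf) (nat_lit 140292) (nat_lit 473) (.p (nat_lit 333) (nat_lit 1) .z) .df .leaf)) (nat_lit 141315) (nat_lit 395) (.p (nat_lit 290) (nat_lit 1) .z) .df (.nd (.nd (.nd .leaf (nat_lit 141316) (nat_lit 474) (.p (nat_lit 334) (nat_lit 1) .z) .df .leaf) (nat_lit 142339) (nat_lit 396) (.p (nat_lit 291) (nat_lit 1) .z) .df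 .leaf) (nat_lit 142340) (nat_lit 475) (.p (nat_lit 335) (nat_lit 1) .z) .df (.nd (.nd .leaf (nat_lit 143363) (nat_lit 397) (.p (nat_lit 292) (nat_lit 1) .z) .df .leaf) (nat_lit 143364) (nat_lit 476) (.p (nat_lit 336) (nat_lit 1) .z) .df .leaf))) (nat_lit 144386) (nat_lit 398) (.p (nat_lit 293) (nat_lit 1) .z) .df (.nd (.nd (.nd (.nd .leaf (nat_lit 144388) (nat_lit 547) (.p (nat_lit 372) (nat_lit 1) .z) .df .leaf) (nat_lit 145410) (nat_lit 399) (.p (nat_lit 294) (nat_lit 1) .z) .df .leaf) (nat_lit 145412) (nat_lit 548) (.p (nat_lit 373) (nat_lit 1) .z) .df (.nd (.nd .leaf (nat_lit 146434) (nat_lit 400) (.p (nat_lit 295) (nat_lit 1) .z) .df .leaf) (nat_lit 146436) (nat_lit 549) (.p (nat_lit 374) (nat_lit 1) .z) .df .leaf)) (nat_lit 147458) (nat_lit 434) (.p (nat_lit 275) (nat_lit 1) (.n (nat_lit 276) (nat_lit 1) (.n (nat_lit 280) (nat_lit 1) (.p (nat_lit 281) (nat_lit 1) (.p (nat_lit 283) (nat_lit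 1) (.p (nat_lit 284) (nat_lit 1) (.n (nat_lit 285) (nat_lit 1) (.n (nat_lit 288) (nat_lit 1) (.p (nat_lit 290) (nat_lit 1) (.p (nat_lit 292) (nat_lit 1) (.n (nat_lit 293) (nat_lit 1) (.p (nat_lit 317) (nat_lit 1) (.p (nat_lit 318) (nat_lit 1) .z))))))))))))) (.ct dF4_c1118465 (nat_lit 1) (nat_lit 12) (.s true (nat_lit 1) (nat_lit 6) (nat_lit 3) (nat_lit 5) (nat_lit 2) true (nat_lit 4) true (nat_lit 12) true (nat_lit 9) true (nat_lit 11) true (nat_lit 10) (.s true (nat_lit 1) (nat_lit 6) (nat_lit 5) (nat_lit 3) (nat_lit 2) true (nat_lit 1) true (nat_lit 12) true (nat_lit 9) true (nat_lit 10) true (nat_lit 11) (.e false (nat_lit 1) (nat_lit 51) (nat_lit 11) (nat_lit 4) (.e true (nat_lit 1) (nat_lit 141) (nat_lit 2) (nat_lit 12) (.e true (nat_lit 1) (nat_lit 132) (nat_lit 3) (nat_lit 11) (.e true (nat_lit 1) (nat_lit 136) (nat_lit 3) (nat_lit 11) (.e false (nat_lit 1) (nat_lit 138) (nat_lit 3)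 (nat_lit 11) (.e false (nat_lit 1) (nat_lit 140) (nat_lit 3) (nat_lit 11) (.e false (nat_lit 1) (nat_lit 81) (nat_lit 5) (nat_lit 10) (.e false (nat_lit 1) (nat_lit 24) (nat_lit 18) (nat_lit 1) (.e true (nat_lit 1) (nat_lit 82) (nat_lit 5) (nat_lit 10) (.e true (nat_lit 1) (nat_lit 86) (nat_lit 5) (nat_lit 10) (.e false (nat_lit 1) (nat_lit 88) (nat_lit 5) (nat_lit 10) (.e false (nat_lit 1) (nat_lit 90) (nat_lit 5) (nat_lit 10) (.e false (nat_lit 1) (nat_lit 131) (nat_lit 3) (nat_lit 11) .nil)))))))))))))))) (.nd (.nd (.nd .leaf (nat_lit 147460) (nat_lit 586) (.p (nat_lit 365) (nat_lit 2) (.p (nat_lit 366) (nat_lit 2) (.p (nat_lit 367) (nat_lit 2) (.n (nat_lit 369) (nat_lit 1) (.n (nat_lit 370) (nat_lit 1) (.n (nat_lit 371) (nat_lit 1) (.p (nat_lit 375) (nat_lit 1) (.p (nat_lit 376) (nat_lit 1) (.n (nat_lit 377) (nat_lit 1) (.n (nat_lit 379) (nat_lit 2) (.n (nat_lit 380) (nat_lit 1) (.n (nat_lit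 381) (nat_lit 1) (.n (nat_lit 382) (nat_lit 2) (.p (nat_lit 383) (nat_lit 1) (.p (nat_lit 384) (nat_lit 1) (.n (nat_lit 385) (nat_lit 2) (.n (nat_lit 387) (nat_lit 1) (.p (nat_lit 391) (nat_lit 1) (.n (nat_lit 392) (nat_lit 1) (.p (nat_lit 393) (nat_lit 1) (.p (nat_lit 394) (nat_lit 1) (.n (nat_lit 395) (nat_lit 1) (.n (nat_lit 396) (nat_lit 1) (.n (nat_lit 397) (nat_lit 2) (.n (nat_lit 398) (nat_lit 1) (.n (nat_lit 399) (nat_lit 1) (.n (nat_lit 400) (nat_lit 2) (.p (nat_lit 401) (nat_lit 1) (.p (nat_lit 402) (nat_lit 3) (.p (nat_lit 404) (nat_lit 2) (.p (nat_lit 405) (nat_lit 3) (.n (nat_lit 406) (nat_lit 1) .z)))))))))))))))))))))))))))))))) (.ct dF4_c1114385 (nat_lit 1) (nat_lit 11) (.s true (nat_lit 1) (nat_lit 13) (nat_lit 0) (nat_lit 3) (nat_lit 5) true (nat_lit 3) true (nat_lit 10) true (nat_lit 5) true (nat_lit 14) true (nat_lit 12) (.s false (nat_lit 1) (nat_lit 15) (nat_lit 5) (nat_lit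 0) (nat_lit 1) true (nat_lit 2) true (nat_lit 13) true (nat_lit 4) true (nat_lit 10) true (nat_lit 14) (.s false (nat_lit 1) (nat_lit 16) (nat_lit 4) (nat_lit 1) (nat_lit 3) true (nat_lit 4) true (nat_lit 12) true (nat_lit 3) true (nat_lit 11) true (nat_lit 13) (.e false (nat_lit 1) (nat_lit 60) (nat_lit 13) (nat_lit 5) (.e false (nat_lit 1) (nat_lit 211) (nat_lit 0) (nat_lit 14) (.e true (nat_lit 1) (nat_lit 215) (nat_lit 0) (nat_lit 14) (.e false (nat_lit 1) (nat_lit 219) (nat_lit 0) (nat_lit 14) (.e false (nat_lit 1) (nat_lit 220) (nat_lit 0) (nat_lit 14) (.e false (nat_lit 1) (nat_lit 180) (nat_lit 3) (nat_lit 12) (.e true (nat_lit 1) (nat_lit 44) (nat_lit 17) (nat_lit 2) (.e false (nat_lit 1) (nat_lit 210) (nat_lit 1) (nat_lit 13) (.e false (nat_lit 1) (nat_lit 102) (nat_lit 5) (nat_lit 10) (.e true (nat_lit 1) (nat_lit 108) (nat_lit 5) (nat_lit 10) (.e true (nat_lit 1) (nat_lit 110) (nat_lit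 5) (nat_lit 10) (.e true (nat_lit 1) (nat_lit 213) (nat_lit 0) (nat_lit 14) (.e false (nat_lit 1) (nat_lit 178) (nat_lit 3) (nat_lit 12) (.e true (nat_lit 1) (nat_lit 143) (nat_lit 4) (nat_lit 11) (.e true (nat_lit 1) (nat_lit 145) (nat_lit 4) (nat_lit 11) (.e true (nat_lit 1) (nat_lit 146) (nat_lit 4) (nat_lit 11) (.e false (nat_lit 1) (nat_lit 147) (nat_lit 4) (nat_lit 11) (.e false (nat_lit 1) (nat_lit 148) (nat_lit 4) (nat_lit 11) (.e false (nat_lit 1) (nat_lit 149) (nat_lit 4) (nat_lit 11) (.e false (nat_lit 1) (nat_lit 150) (nat_lit 4) (nat_lit 11) (.e true (nat_lit 1) (nat_lit 205) (nat_lit 1) (nat_lit 13) .nil))))))))))))))))))))))))) .leaf) (nat_lit 148482) (nat_lit 401) (.p (nat_lit 296) (nat_lit 1) .z) .df .leaf) (nat_lit 148484) (nat_lit 550) (.p (nat_lit 375) (nat_lit 1) .z) .df (.nd (.nd .leaf (nat_lit 149506) (nat_lit 402) (.p (nat_lit 297) (nat_lit 1) .z) .df .leaf) (nat_lit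 149508) (nat_lit 551) (.p (nat_lit 376) (nat_lit 1) .z) .df .leaf)))) (nat_lit 150530) (nat_lit 431) (.p (nat_lit 275) (nat_lit 2) (.n (nat_lit 276) (nat_lit 2) (.n (nat_lit 277) (nat_lit 1) (.n (nat_lit 278) (nat_lit 1) (.n (nat_lit 279) (nat_lit 3) (.n (nat_lit 280) (nat_lit 2) (.p (nat_lit 281) (nat_lit 2) (.p (nat_lit 282) (nat_lit 3) (.p (nat_lit 283) (nat_lit 4) (.p (nat_lit 284) (nat_lit 3) (.n (nat_lit 285) (nat_lit 1) (.n (nat_lit 286) (nat_lit 1) (.n (nat_lit 287) (nat_lit 3) (.n (nat_lit 288) (nat_lit 1) (.p (nat_lit 290) (nat_lit 1) (.p (nat_lit 291) (nat_lit 3) (.p (nat_lit 292) (nat_lit 3) (.p (nat_lit 294) (nat_lit 2) (.p (nat_lit 295) (nat_lit 2) (.p (nat_lit 296) (nat_lit 1) (.p (nat_lit 297) (nat_lit 3) (.n (nat_lit 298) (nat_lit 2) (.n (nat_lit 300) (nat_lit 1) (.p (nat_lit 301) (nat_lit 2) (.n (nat_lit 303) (nat_lit 1) (.p (nat_lit 304) (nat_lit 1) (.n (nat_lit 305) (nat_lit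 1) (.p (nat_lit 306) (nat_lit 1) (.p (nat_lit 307) (nat_lit 1) (.n (nat_lit 308) (nat_lit 1) (.p (nat_lit 309) (nat_lit 2) (.p (nat_lit 310) (nat_lit 2) (.p (nat_lit 312) (nat_lit 1) (.n (nat_lit 313) (nat_lit 2) (.n (nat_lit 314) (nat_lit 2) (.n (nat_lit 315) (nat_lit 1) .z)))))))))))))))))))))))))))))))))))) (.ct dF4_c1118465 (nat_lit 1) (nat_lit 12) (.s true (nat_lit 1) (nat_lit 7) (nat_lit 1) (nat_lit 5) (nat_lit 3) true (nat_lit 5) true (nat_lit 11) true (nat_lit 8) true (nat_lit 13) true (nat_lit 10) (.s true (nat_lit 1) (nat_lit 9) (nat_lit 2) (nat_lit 1) (nat_lit 5) true (nat_lit 1) true (nat_lit 10) true (nat_lit 6) true (nat_lit 12) true (nat_lit 13) dF4_i11))) (.nd (.nd (.nd (.nd (.nd .leaf (nat_lit 150532) (nat_lit 552) (.p (nat_lit 377) (nat_lit 1) .z) .df .leaf) (nat_lit 151554) (nat_lit 403) (.p (nat_lit 298) (nat_lit 1) .z) .df .leaf) (nat_lit 151556) (nat_lit 553) (.p (nat_lit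 378) (nat_lit 1) .z) .df (.nd (.nd .leaf (nat_lit 152578) (nat_lit 404) (.p (nat_lit 299) (nat_lit 1) .z) .df .leaf) (nat_lit 152580) (nat_lit 554) (.p (nat_lit 379) (nat_lit 1) .z) .df .leaf)) (nat_lit 153602) (nat_lit 405) (.p (nat_lit 300) (nat_lit 1) .z) .df (.nd (.nd (.nd .leaf (nat_lit 153604) (nat_lit 555) (.p (nat_lit 380) (nat_lit 1) .z) .df .leaf) (nat_lit 154625) (nat_lit 406) (.p (nat_lit 301) (nat_lit 1) .z) .df .leaf) (nat_lit 154628) (nat_lit 625) (.p (nat_lit 416) (nat_lit 1) .z) .df (.nd (.nd .leaf (nat_lit 155649) (nat_lit 407) (.p (nat_lit 302) (nat_lit 1) .z) .df .leaf) (nat_lit 155652) (nat_lit 626) (.p (nat_lit 417) (nat_lit 1) .z) .df .leaf))) (nat_lit 156673) (nat_lit 408) (.p (nat_lit 303) (nat_lit 1) .z) .df (.nd (.nd (.nd (.nd .leaf (nat_lit 156676) (nat_lit 627) (.p (nat_lit 418) (nat_lit 1) .z) .df .leaf) (nat_lit 157697) (nat_lit 409) (.p (nat_lit 304) (nat_lit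 1) .z) .df .leaf) (nat_lit 157700) (nat_lit 664) (.p (nat_lit 409) (nat_lit 2) (.p (nat_lit 410) (nat_lit 2) (.p (nat_lit 411) (nat_lit 2) (.n (nat_lit 413) (nat_lit 1) (.n (nat_lit 414) (nat_lit 1) (.n (nat_lit 415) (nat_lit 1) (.p (nat_lit 419) (nat_lit 1) (.p (nat_lit 420) (nat_lit 1) (.n (nat_lit 421) (nat_lit 1) (.n (nat_lit 423) (nat_lit 2) (.n (nat_lit 424) (nat_lit 1) (.n (nat_lit 425) (nat_lit 1) (.n (nat_lit 426) (nat_lit 2) (.p (nat_lit 427) (nat_lit 1) (.p (nat_lit 428) (nat_lit 1) (.n (nat_lit 429) (nat_lit 2) (.n (nat_lit 431) (nat_lit 1) (.p (nat_lit 435) (nat_lit 1) (.n (nat_lit 436) (nat_lit 1) (.p (nat_lit 437) (nat_lit 1) (.p (nat_lit 438) (nat_lit 1) (.n (nat_lit 439) (nat_lit 1) (.n (nat_lit 440) (nat_lit 1) (.n (nat_lit 441) (nat_lit 2) (.n (nat_lit 442) (nat_lit 1) (.n (nat_lit 443) (nat_lit 1) (.n (nat_lit 444) (nat_lit 2) (.p (nat_lit 445) (nat_lit 1) (.p (nat_lit 446)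 (nat_lit 3) (.p (nat_lit 448) (nat_lit 2) (.p (nat_lit 449) (nat_lit 3) (.n (nat_lit 450) (nat_lit 1) .z)))))))))))))))))))))))))))))))) (.ct dF4_c1052945 (nat_lit 1) (nat_lit 11) (.s true (nat_lit 1) (nat_lit 14) (nat_lit 0) (nat_lit 3) (nat_lit 5) true (nat_lit 3) true (nat_lit 10) true (nat_lit 5) true (nat_lit 14) true (nat_lit 12) (.s false (nat_lit 1) (nat_lit 15) (nat_lit 5) (nat_lit 0) (nat_lit 2) true (nat_lit 2) true (nat_lit 13) true (nat_lit 4) true (nat_lit 10) true (nat_lit 14) (.s false (nat_lit 1) (nat_lit 16) (nat_lit 4) (nat_lit 2) (nat_lit 3) true (nat_lit 4) true (nat_lit 12) true (nat_lit 3) true (nat_lit 11) true (nat_lit 13) (.e false (nat_lit 1) (nat_lit 60) (nat_lit 14) (nat_lit 5) (.e false (nat_lit 1) (nat_lit 221) (nat_lit 0) (nat_lit 14) (.e true (nat_lit 1) (nat_lit 225) (nat_lit 0) (nat_lit 14) (.e false (nat_lit 1) (nat_lit 229) (nat_lit 0) (nat_lit 14) (.e false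 (nat_lit 1) (nat_lit 230) (nat_lit 0) (nat_lit 14) (.e false (nat_lit 1) (nat_lit 190) (nat_lit 3) (nat_lit 12) (.e true (nat_lit 1) (nat_lit 44) (nat_lit 18) (nat_lit 2) (.e false (nat_lit 1) (nat_lit 210) (nat_lit 2) (nat_lit 13) (.e false (nat_lit 1) (nat_lit 112) (nat_lit 5) (nat_lit 10) (.e true (nat_lit 1) (nat_lit 118) (nat_lit 5) (nat_lit 10) (.e true (nat_lit 1) (nat_lit 120) (nat_lit 5) (nat_lit 10) (.e true (nat_lit 1) (nat_lit 223) (nat_lit 0) (nat_lit 14) (.e false (nat_lit 1) (nat_lit 188) (nat_lit 3) (nat_lit 12) (.e true (nat_lit 1) (nat_lit 153) (nat_lit 4) (nat_lit 11) (.e true (nat_lit 1) (nat_lit 155) (nat_lit 4) (nat_lit 11) (.e true (nat_lit 1) (nat_lit 156) (nat_lit 4) (nat_lit 11) (.e false (nat_lit 1) (nat_lit 157) (nat_lit 4) (nat_lit 11) (.e false (nat_lit 1) (nat_lit 158) (nat_lit 4) (nat_lit 11) (.e false (nat_lit 1) (nat_lit 159) (nat_lit 4) (nat_lit 11) (.e false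 (nat_lit 1) (nat_lit 160) (nat_lit 4) (nat_lit 11) (.e true (nat_lit 1) (nat_lit 205) (nat_lit 2) (nat_lit 13) .nil))))))))))))))))))))))))) (.nd (.nd .leaf (nat_lit 158721) (nat_lit 410) (.p (nat_lit 305) (nat_lit 1) .z) .df .leaf) (nat_lit 158724) (nat_lit 628) (.p (nat_lit 419) (nat_lit 1) .z) .df .leaf)) (nat_lit 159745) (nat_lit 430) (.p (nat_lit 275) (nat_lit 1) (.p (nat_lit 276) (nat_lit 1) (.n (nat_lit 277) (nat_lit 2) (.n (nat_lit 278) (nat_lit 1) (.n (nat_lit 279) (nat_lit 2) (.p (nat_lit 280) (nat_lit 1) (.p (nat_lit 282) (nat_lit 1) (.n (nat_lit 284) (nat_lit 1) (.n (nat_lit 285) (nat_lit 1) (.n (nat_lit 287) (nat_lit 1) (.n (nat_lit 288) (nat_lit 2) (.p (nat_lit 289) (nat_lit 1) (.p (nat_lit 290) (nat_lit 1) (.p (nat_lit 291) (nat_lit 2) (.p (nat_lit 292) (nat_lit 2) (.p (nat_lit 293) (nat_lit 1) (.n (nat_lit 295) (nat_lit 1) (.n (nat_lit 296) (nat_lit 1) (.p (nat_lit 298) (nat_lit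 2) (.p (nat_lit 299) (nat_lit 1) (.p (nat_lit 300) (nat_lit 2) (.n (nat_lit 301) (nat_lit 1) (.n (nat_lit 302) (nat_lit 1) (.p (nat_lit 304) (nat_lit 2) (.n (nat_lit 306) (nat_lit 3) (.p (nat_lit 307) (nat_lit 2) (.p (nat_lit 308) (nat_lit 2) (.p (nat_lit 309) (nat_lit 1) (.p (nat_lit 312) (nat_lit 3) (.n (nat_lit 313) (nat_lit 1) (.n (nat_lit 314) (nat_lit 3) (.p (nat_lit 315) (nat_lit 2) (.n (nat_lit 316) (nat_lit 2) (.n (nat_lit 317) (nat_lit 3) (.p (nat_lit 318) (nat_lit 1) .z))))))))))))))))))))))))))))))))))) (.ct dF4_c1118465 (nat_lit 1) (nat_lit 13) (.s false (nat_lit 1) (nat_lit 6) (nat_lit 2) (nat_lit 3) (nat_lit 5) true (nat_lit 1) true (nat_lit 10) true (nat_lit 9) true (nat_lit 12) true (nat_lit 11) (.s false (nat_lit 1) (nat_lit 6) (nat_lit 3) (nat_lit 2) (nat_lit 5) true (nat_lit 0) true (nat_lit 10) true (nat_lit 9) true (nat_lit 11) true (nat_lit 12) (.s true (nat_lit 1) (nat_lit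 8) (nat_lit 3) (nat_lit 5) (nat_lit 0) true (nat_lit 6) true (nat_lit 14) true (nat_lit 7) true (nat_lit 11) true (nat_lit 10) (.s true (nat_lit 1) (nat_lit 19) (nat_lit 1) (nat_lit 0) (nat_lit 2) true (nat_lit 7) true (nat_lit 12) true (nat_lit 0) true (nat_lit 13) true (nat_lit 14) dF4_i10))))) (.nd (.nd (.nd .leaf (nat_lit 159748) (nat_lit 629) (.p (nat_lit 420) (nat_lit 1) .z) .df .leaf) (nat_lit 160769) (nat_lit 433) (.p (nat_lit 275) (nat_lit 1) (.p (nat_lit 276) (nat_lit 2) (.p (nat_lit 279) (nat_lit 1) (.p (nat_lit 280) (nat_lit 2) (.n (nat_lit 281) (nat_lit 1) (.n (nat_lit 282) (nat_lit 1) (.n (nat_lit 283) (nat_lit 2) (.n (nat_lit 284) (nat_lit 2) (.n (nat_lit 285) (nat_lit 1) (.p (nat_lit 286) (nat_lit 1) (.p (nat_lit 287) (nat_lit 2) (.n (nat_lit 288) (nat_lit 1) (.n (nat_lit 291) (nat_lit 2) (.n (nat_lit 292) (nat_lit 1) (.n (nat_lit 293) (nat_lit 1) (.n (nat_lit 294) (nat_lit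 2) (.n (nat_lit 295) (nat_lit 1) (.n (nat_lit 297) (nat_lit 2) (.p (nat_lit 298) (nat_lit 2) (.n (nat_lit 299) (nat_lit 1) (.p (nat_lit 300) (nat_lit 1) (.n (nat_lit 301) (nat_lit 2) (.n (nat_lit 302) (nat_lit 1) (.p (nat_lit 303) (nat_lit 2) (.p (nat_lit 304) (nat_lit 1) (.p (nat_lit 305) (nat_lit 2) (.n (nat_lit 306) (nat_lit 3) (.p (nat_lit 308) (nat_lit 1) (.n (nat_lit 309) (nat_lit 2) (.n (nat_lit 310) (nat_lit 2) (.p (nat_lit 313) (nat_lit 1) (.p (nat_lit 314) (nat_lit 1) (.p (nat_lit 315) (nat_lit 2) (.n (nat_lit 316) (nat_lit 1) (.p (nat_lit 318) (nat_lit 2) .z))))))))))))))))))))))))))))))))))) (.ct dF4_c1118465 (nat_lit 1) (nat_lit 13) (.s false (nat_lit 1) (nat_lit 11) (nat_lit 1) (nat_lit 0) (nat_lit 5) true (nat_lit 2) true (nat_lit 10) true (nat_lit 4) true (nat_lit 13) true (nat_lit 14) (.e false (nat_lit 1) (nat_lit 29) (nat_lit 17) (nat_lit 2) (.e false (nat_lit 1) (nat_lit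 81) (nat_lit 5) (nat_lit 10) (.e true (nat_lit 1) (nat_lit 83) (nat_lit 5) (nat_lit 10) (.e true (nat_lit 1) (nat_lit 84) (nat_lit 5) (nat_lit 10) (.e true (nat_lit 1) (nat_lit 85) (nat_lit 5) (nat_lit 10) (.e false (nat_lit 1) (nat_lit 88) (nat_lit 5) (nat_lit 10) (.e false (nat_lit 1) (nat_lit 89) (nat_lit 5) (nat_lit 10) (.e false (nat_lit 1) (nat_lit 90) (nat_lit 5) (nat_lit 10) (.e false (nat_lit 1) (nat_lit 51) (nat_lit 11) (nat_lit 4) (.e false (nat_lit 1) (nat_lit 153) (nat_lit 1) (nat_lit 13) (.e false (nat_lit 1) (nat_lit 154) (nat_lit 1) (nat_lit 13) (.e false (nat_lit 1) (nat_lit 155) (nat_lit 1) (nat_lit 13) (.e false (nat_lit 1) (nat_lit 156) (nat_lit 1) (nat_lit 13) (.e true (nat_lit 1) (nat_lit 158) (nat_lit 1) (nat_lit 13) (.e true (nat_lit 1) (nat_lit 159) (nat_lit 1) (nat_lit 13) (.e true (nat_lit 1) (nat_lit 160) (nat_lit 1) (nat_lit 13) (.e true (nat_lit 1) (nat_lit 170)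 (nat_lit 0) (nat_lit 14) .nil))))))))))))))))))) .leaf) (nat_lit 160772) (nat_lit 630) (.p (nat_lit 421) (nat_lit 1) .z) .df (.nd (.nd .leaf (nat_lit 161793) (nat_lit 429) (.p (nat_lit 275) (nat_lit 1) (.n (nat_lit 277) (nat_lit 4) (.n (nat_lit 278) (nat_lit 3) (.n (nat_lit 279) (nat_lit 5) (.p (nat_lit 281) (nat_lit 1) (.p (nat_lit 282) (nat_lit 3) (.p (nat_lit 283) (nat_lit 2) (.p (nat_lit 284) (nat_lit 1) (.n (nat_lit 286) (nat_lit 1) (.n (nat_lit 287) (nat_lit 4) (.n (nat_lit 288) (nat_lit 2) (.p (nat_lit 289) (nat_lit 2) (.p (nat_lit 290) (nat_lit 1) (.p (nat_lit 291) (nat_lit 6) (.p (nat_lit 292) (nat_lit 4) (.p (nat_lit 293) (nat_lit 3) (.p (nat_lit 294) (nat_lit 3) (.n (nat_lit 295) (nat_lit 1) (.n (nat_lit 296) (nat_lit 2) (.p (nat_lit 297) (nat_lit 3) (.p (nat_lit 298) (nat_lit 1) (.p (nat_lit 299) (nat_lit 3) (.p (nat_lit 300) (nat_lit 2) (.p (nat_lit 301) (nat_lit 1) (.n (nat_lit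 303) (nat_lit 1) (.p (nat_lit 304) (nat_lit 3) (.n (nat_lit 305) (nat_lit 2) (.n (nat_lit 306) (nat_lit 2) (.p (nat_lit 307) (nat_lit 3) (.p (nat_lit 308) (nat_lit 2) (.p (nat_lit 309) (nat_lit 3) (.p (nat_lit 310) (nat_lit 2) (.p (nat_lit 312) (nat_lit 4) (.n (nat_lit 313) (nat_lit 2) (.n (nat_lit 314) (nat_lit 6) (.p (nat_lit 315) (nat_lit 1) (.n (nat_lit 316) (nat_lit 3) (.n (nat_lit 317) (nat_lit 5) (.p (nat_lit 318) (nat_lit 1) .z))))))))))))))))))))))))))))))))))))))) (.ct dF4_c1118465 (nat_lit 1) (nat_lit 13) (.s false (nat_lit 1) (nat_lit 6) (nat_lit 2) (nat_lit 3) (nat_lit 5) true (nat_lit 1) true (nat_lit 10) true (nat_lit 9) true (nat_lit 12) true (nat_lit 11) (.s false (nat_lit 1) (nat_lit 6) (nat_lit 3) (nat_lit 2) (nat_lit 5) true (nat_lit 0) true (nat_lit 10) true (nat_lit 9) true (nat_lit 11) true (nat_lit 12) (.s false (nat_lit 1) (nat_lit 6) (nat_lit 3) (nat_lit 5) (nat_lit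 2) true (nat_lit 4) true (nat_lit 12) true (nat_lit 9) true (nat_lit 11) true (nat_lit 10) (.s false (nat_lit 1) (nat_lit 6) (nat_lit 5) (nat_lit 3) (nat_lit 2) true (nat_lit 1) true (nat_lit 12) true (nat_lit 9) true (nat_lit 10) true (nat_lit 11) (.s false (nat_lit 1) (nat_lit 7) (nat_lit 3) (nat_lit 5) (nat_lit 1) true (nat_lit 5) true (nat_lit 13) true (nat_lit 8) true (nat_lit 11) true (nat_lit 10) (.s false (nat_lit 1) (nat_lit 19) (nat_lit 0) (nat_lit 1) (nat_lit 2) true (nat_lit 8) true (nat_lit 12) true (nat_lit 0) true (nat_lit 14) true (nat_lit 13) dF4_i9))))))) .leaf) (nat_lit 161796) (nat_lit 631) (.p (nat_lit 422) (nat_lit 1) .z) .df .leaf))))) (nat_lit 162817) (nat_lit 411) (.p (nat_lit 306) (nat_lit 1) .z) .df (.nd (.nd (.nd (.nd (.nd (.nd .leaf (nat_lit 162820) (nat_lit 632) (.p (nat_lit 423) (nat_lit 1) .z) .df .leaf) (nat_lit 163841) (nat_lit 427) (.n (nat_lit 275) (nat_lit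 1) (.p (nat_lit 277) (nat_lit 1) (.p (nat_lit 278) (nat_lit 1) (.p (nat_lit 279) (nat_lit 2) (.n (nat_lit 282) (nat_lit 1) (.n (nat_lit 283) (nat_lit 1) (.n (nat_lit 284) (nat_lit 1) (.p (nat_lit 287) (nat_lit 1) (.n (nat_lit 291) (nat_lit 2) (.n (nat_lit 292) (nat_lit 1) (.n (nat_lit 293) (nat_lit 1) (.n (nat_lit 294) (nat_lit 1) (.p (nat_lit 296) (nat_lit 1) (.n (nat_lit 297) (nat_lit 1) (.n (nat_lit 299) (nat_lit 1) (.n (nat_lit 300) (nat_lit 1) (.n (nat_lit 301) (nat_lit 1) (.n (nat_lit 304) (nat_lit 1) (.p (nat_lit 305) (nat_lit 1) (.n (nat_lit 307) (nat_lit 1) (.p (nat_lit 311) (nat_lit 1) (.p (nat_lit 314) (nat_lit 1) (.n (nat_lit 315) (nat_lit 1) (.p (nat_lit 317) (nat_lit 1) (.n (nat_lit 318) (nat_lit 1) .z))))))))))))))))))))))))) (.ct dF4_c1118465 (nat_lit 1) (nat_lit 13) (.s true (nat_lit 1) (nat_lit 9) (nat_lit 1) (nat_lit 5) (nat_lit 2) true (nat_lit 7) true (nat_lit 12) true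 (nat_lit 6) true (nat_lit 13) true (nat_lit 10) (.s true (nat_lit 1) (nat_lit 9) (nat_lit 2) (nat_lit 5) (nat_lit 1) true (nat_lit 7) true (nat_lit 13) true (nat_lit 6) true (nat_lit 12) true (nat_lit 10) (.s true (nat_lit 1) (nat_lit 11) (nat_lit 1) (nat_lit 0) (nat_lit 5) true (nat_lit 2) true (nat_lit 10) true (nat_lit 4) true (nat_lit 13) true (nat_lit 14) (.s false (nat_lit 1) (nat_lit 17) (nat_lit 3) (nat_lit 2) (nat_lit 0) true (nat_lit 6) true (nat_lit 14) true (nat_lit 2) true (nat_lit 11) true (nat_lit 12) (.s true (nat_lit 1) (nat_lit 18) (nat_lit 0) (nat_lit 1) (nat_lit 3) true (nat_lit 6) true (nat_lit 11) true (nat_lit 1) true (nat_lit 14) true (nat_lit 13) dF4_i8)))))) .leaf) (nat_lit 163844) (nat_lit 633) (.p (nat_lit 424) (nat_lit 1) .z) .df (.nd (.nd .leaf (nat_lit 164864) (nat_lit 412) (.p (nat_lit 307) (nat_lit 1) .z) .df .leaf) (nat_lit 164868) (nat_lit 703) (.p (nat_lit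 460) (nat_lit 1) .z) .df .leaf)) (nat_lit 165888) (nat_lit 413) (.p (nat_lit 308) (nat_lit 1) .z) .df (.nd (.nd (.nd .leaf (nat_lit 165892) (nat_lit 704) (.p (nat_lit 461) (nat_lit 1) .z) .df .leaf) (nat_lit 166912) (nat_lit 414) (.p (nat_lit 309) (nat_lit 1) .z) .df .leaf) (nat_lit 166916) (nat_lit 705) (.p (nat_lit 462) (nat_lit 1) .z) .df (.nd (.nd .leaf (nat_lit 167936) (nat_lit 415) (.p (nat_lit 310) (nat_lit 1) .z) .df .leaf) (nat_lit 167940) (nat_lit 742) (.p (nat_lit 453) (nat_lit 2) (.p (nat_lit 454) (nat_lit 2) (.p (nat_lit 455) (nat_lit 2) (.n (nat_lit 457) (nat_lit 1) (.n (nat_lit 458) (nat_lit 1) (.n (nat_lit 459) (nat_lit 1) (.p (nat_lit 463) (nat_lit 1) (.p (nat_lit 464) (nat_lit 1) (.n (nat_lit 465) (nat_lit 1) (.n (nat_lit 467) (nat_lit 2) (.n (nat_lit 468) (nat_lit 1) (.n (nat_lit 469) (nat_lit 1) (.n (nat_lit 470) (nat_lit 2) (.p (nat_lit 471) (nat_lit 1) (.p (nat_lit 472)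 (nat_lit 1) (.n (nat_lit 473) (nat_lit 2) (.n (nat_lit 475) (nat_lit 1) (.p (nat_lit 479) (nat_lit 1) (.n (nat_lit 480) (nat_lit 1) (.p (nat_lit 481) (nat_lit 1) (.p (nat_lit 482) (nat_lit 1) (.n (nat_lit 483) (nat_lit 1) (.n (nat_lit 484) (nat_lit 1) (.n (nat_lit 485) (nat_lit 2) (.n (nat_lit 486) (nat_lit 1) (.n (nat_lit 487) (nat_lit 1) (.n (nat_lit 488) (nat_lit 2) (.p (nat_lit 489) (nat_lit 1) (.p (nat_lit 490) (nat_lit 3) (.p (nat_lit 492) (nat_lit 2) (.p (nat_lit 493) (nat_lit 3) (.n (nat_lit 494) (nat_lit 1) .z)))))))))))))))))))))))))))))))) (.ct dF4_c69905 (nat_lit 1) (nat_lit 11) (.s true (nat_lit 1) (nat_lit 14) (nat_lit 1) (nat_lit 3) (nat_lit 5) true (nat_lit 3) true (nat_lit 10) true (nat_lit 5) true (nat_lit 14) true (nat_lit 12) (.s false (nat_lit 1) (nat_lit 15) (nat_lit 5) (nat_lit 1) (nat_lit 2) true (nat_lit 2) true (nat_lit 13) true (nat_lit 4) true (nat_lit 10) true (nat_lit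 14) (.s false (nat_lit 1) (nat_lit 17) (nat_lit 4) (nat_lit 2) (nat_lit 3) true (nat_lit 4) true (nat_lit 12) true (nat_lit 3) true (nat_lit 11) true (nat_lit 13) (.e false (nat_lit 1) (nat_lit 63) (nat_lit 14) (nat_lit 5) (.e false (nat_lit 1) (nat_lit 221) (nat_lit 1) (nat_lit 14) (.e true (nat_lit 1) (nat_lit 225) (nat_lit 1) (nat_lit 14) (.e false (nat_lit 1) (nat_lit 229) (nat_lit 1) (nat_lit 14) (.e false (nat_lit 1) (nat_lit 230) (nat_lit 1) (nat_lit 14) (.e false (nat_lit 1) (nat_lit 200) (nat_lit 3) (nat_lit 12) (.e true (nat_lit 1) (nat_lit 47) (nat_lit 18) (nat_lit 2) (.e false (nat_lit 1) (nat_lit 220) (nat_lit 2) (nat_lit 13) (.e false (nat_lit 1) (nat_lit 122) (nat_lit 5) (nat_lit 10) (.e true (nat_lit 1) (nat_lit 128) (nat_lit 5) (nat_lit 10) (.e true (nat_lit 1) (nat_lit 130) (nat_lit 5) (nat_lit 10) (.e true (nat_lit 1) (nat_lit 223) (nat_lit 1) (nat_lit 14) (.e false (nat_lit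 1) (nat_lit 198) (nat_lit 3) (nat_lit 12) (.e true (nat_lit 1) (nat_lit 163) (nat_lit 4) (nat_lit 11) (.e true (nat_lit 1) (nat_lit 165) (nat_lit 4) (nat_lit 11) (.e true (nat_lit 1) (nat_lit 166) (nat_lit 4) (nat_lit 11) (.e false (nat_lit 1) (nat_lit 167) (nat_lit 4) (nat_lit 11) (.e false (nat_lit 1) (nat_lit 168) (nat_lit 4) (nat_lit 11) (.e false (nat_lit 1) (nat_lit 169) (nat_lit 4) (nat_lit 11) (.e false (nat_lit 1) (nat_lit 170) (nat_lit 4) (nat_lit 11) (.e true (nat_lit 1) (nat_lit 215) (nat_lit 2) (nat_lit 13) .nil))))))))))))))))))))))))) .leaf))) (nat_lit 168960) (nat_lit 416) (.p (nat_lit 311) (nat_lit 1) .z) .df (.nd (.nd (.nd (.nd .leaf (nat_lit 168964) (nat_lit 706) (.p (nat_lit 463) (nat_lit 1) .z) .df .leaf) (nat_lit 169984) (nat_lit 417) (.p (nat_lit 312) (nat_lit 1) .z) .df .leaf) (nat_lit 169988) (nat_lit 707) (.p (nat_lit 464) (nat_lit 1) .z) .df (.nd (.nd .leaf (nat_lit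 171008) (nat_lit 418) (.p (nat_lit 313) (nat_lit 1) .z) .df .leaf) (nat_lit 171012) (nat_lit 708) (.p (nat_lit 465) (nat_lit 1) .z) .df .leaf)) (nat_lit 172032) (nat_lit 419) (.p (nat_lit 314) (nat_lit 1) .z) .df (.nd (.nd (.nd .leaf (nat_lit 172036) (nat_lit 709) (.p (nat_lit 466) (nat_lit 1) .z) .df .leaf) (nat_lit 173056) (nat_lit 420) (.p (nat_lit 315) (nat_lit 1) .z) .df .leaf) (nat_lit 173060) (nat_lit 710) (.p (nat_lit 467) (nat_lit 1) .z) .df (.nd (.nd .leaf (nat_lit 174080) (nat_lit 421) (.p (nat_lit 316) (nat_lit 1) .z) .df .leaf) (nat_lit 174084) (nat_lit 711) (.p (nat_lit 468) (nat_lit 1) .z) .df .leaf)))) (nat_lit 175106) (nat_lit 477) (.p (nat_lit 337) (nat_lit 1) .z) .df (.nd (.nd (.nd (.nd (.nd .leaf (nat_lit 175107) (nat_lit 556) (.p (nat_lit 381) (nat_lit 1) .z) .df .leaf) (nat_lit 176130) (nat_lit 478) (.p (nat_lit 338) (nat_lit 1) .z) .df .leaf) (nat_lit 176131) (nat_lit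 557) (.p (nat_lit 382) (nat_lit 1) .z) .df (.nd (.nd .leaf (nat_lit 177154) (nat_lit 479) (.p (nat_lit 339) (nat_lit 1) .z) .df .leaf) (nat_lit 177155) (nat_lit 558) (.p (nat_lit 383) (nat_lit 1) .z) .df .leaf)) (nat_lit 178178) (nat_lit 513) (.p (nat_lit 319) (nat_lit 1) (.n (nat_lit 320) (nat_lit 1) (.n (nat_lit 324) (nat_lit 1) (.p (nat_lit 325) (nat_lit 1) (.p (nat_lit 327) (nat_lit 1) (.p (nat_lit 328) (nat_lit 1) (.n (nat_lit 329) (nat_lit 1) (.n (nat_lit 332) (nat_lit 1) (.p (nat_lit 334) (nat_lit 1) (.p (nat_lit 336) (nat_lit 1) (.n (nat_lit 337) (nat_lit 1) (.p (nat_lit 361) (nat_lit 1) (.p (nat_lit 362) (nat_lit 1) .z))))))))))))) (.ct dF4_c1118225 (nat_lit 1) (nat_lit 12) (.s true (nat_lit 1) (nat_lit 6) (nat_lit 4) (nat_lit 5) (nat_lit 2) true (nat_lit 4) true (nat_lit 12) true (nat_lit 9) true (nat_lit 11) true (nat_lit 10) (.s true (nat_lit 1) (nat_lit 6) (nat_lit 5) (nat_lit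 4) (nat_lit 2) true (nat_lit 1) true (nat_lit 12) true (nat_lit 9) true (nat_lit 10) true (nat_lit 11) (.e false (nat_lit 1) (nat_lit 51) (nat_lit 14) (nat_lit 4) (.e true (nat_lit 1) (nat_lit 171) (nat_lit 2) (nat_lit 12) (.e true (nat_lit 1) (nat_lit 132) (nat_lit 4) (nat_lit 11) (.e true (nat_lit 1) (nat_lit 136) (nat_lit 4) (nat_lit 11) (.e false (nat_lit 1) (nat_lit 138) (nat_lit 4) (nat_lit 11) (.e false (nat_lit 1) (nat_lit 140) (nat_lit 4) (nat_lit 11) (.e false (nat_lit 1) (nat_lit 91) (nat_lit 5) (nat_lit 10) (.e false (nat_lit 1) (nat_lit 33) (nat_lit 18) (nat_lit 1) (.e true (nat_lit 1) (nat_lit 92) (nat_lit 5) (nat_lit 10) (.e true (nat_lit 1) (nat_lit 96) (nat_lit 5) (nat_lit 10) (.e false (nat_lit 1) (nat_lit 98) (nat_lit 5) (nat_lit 10) (.e false (nat_lit 1) (nat_lit 100) (nat_lit 5) (nat_lit 10) (.e false (nat_lit 1) (nat_lit 131) (nat_lit 4) (nat_lit 11) .nil))))))))))))))))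 (.nd (.nd (.nd .leaf (nat_lit 178179) (nat_lit 592) (.p (nat_lit 363) (nat_lit 1) (.n (nat_lit 364) (nat_lit 1) (.n (nat_lit 368) (nat_lit 1) (.p (nat_lit 369) (nat_lit 1) (.p (nat_lit 371) (nat_lit 1) (.p (nat_lit 372) (nat_lit 1) (.n (nat_lit 373) (nat_lit 1) (.n (nat_lit 376) (nat_lit 1) (.p (nat_lit 378) (nat_lit 1) (.p (nat_lit 380) (nat_lit 1) (.n (nat_lit 381) (nat_lit 1) (.p (nat_lit 405) (nat_lit 1) (.p (nat_lit 406) (nat_lit 1) .z))))))))))))) (.ct dF4_c1114385 (nat_lit 1) (nat_lit 12) (.s true (nat_lit 1) (nat_lit 6) (nat_lit 4) (nat_lit 5) (nat_lit 3) true (nat_lit 4) true (nat_lit 12) true (nat_lit 9) true (nat_lit 11) true (nat_lit 10) (.s true (nat_lit 1) (nat_lit 6) (nat_lit 5) (nat_lit 4) (nat_lit 3) true (nat_lit 1) true (nat_lit 12) true (nat_lit 9) true (nat_lit 10) true (nat_lit 11) (.e false (nat_lit 1) (nat_lit 51) (nat_lit 15) (nat_lit 4) (.e true (nat_lit 1) (nat_lit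 171) (nat_lit 3) (nat_lit 12) (.e true (nat_lit 1) (nat_lit 142) (nat_lit 4) (nat_lit 11) (.e true (nat_lit 1) (nat_lit 146) (nat_lit 4) (nat_lit 11) (.e false (nat_lit 1) (nat_lit 148) (nat_lit 4) (nat_lit 11) (.e false (nat_lit 1) (nat_lit 150) (nat_lit 4) (nat_lit 11) (.e false (nat_lit 1) (nat_lit 101) (nat_lit 5) (nat_lit 10) (.e false (nat_lit 1) (nat_lit 33) (nat_lit 19) (nat_lit 1) (.e true (nat_lit 1) (nat_lit 102) (nat_lit 5) (nat_lit 10) (.e true (nat_lit 1) (nat_lit 106) (nat_lit 5) (nat_lit 10) (.e false (nat_lit 1) (nat_lit 108) (nat_lit 5) (nat_lit 10) (.e false (nat_lit 1) (nat_lit 110) (nat_lit 5) (nat_lit 10) (.e false (nat_lit 1) (nat_lit 141) (nat_lit 4) (nat_lit 11) .nil)))))))))))))))) .leaf) (nat_lit 179202) (nat_lit 480) (.p (nat_lit 340) (nat_lit 1) .z) .df .leaf) (nat_lit 179203) (nat_lit 559) (.p (nat_lit 384) (nat_lit 1) .z) .df (.nd (.nd .leaf (nat_lit 180226) (nat_lit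 481) (.p (nat_lit 341) (nat_lit 1) .z) .df .leaf) (nat_lit 180227) (nat_lit 560) (.p (nat_lit 385) (nat_lit 1) .z) .df .leaf))) (nat_lit 181250) (nat_lit 510) (.p (nat_lit 319) (nat_lit 2) (.n (nat_lit 320) (nat_lit 2) (.n (nat_lit 321) (nat_lit 1) (.n (nat_lit 322) (nat_lit 1) (.n (nat_lit 323) (nat_lit 3) (.n (nat_lit 324) (nat_lit 2) (.p (nat_lit 325) (nat_lit 2) (.p (nat_lit 326) (nat_lit 3) (.p (nat_lit 327) (nat_lit 4) (.p (nat_lit 328) (nat_lit 3) (.n (nat_lit 329) (nat_lit 1) (.n (nat_lit 330) (nat_lit 1) (.n (nat_lit 331) (nat_lit 3) (.n (nat_lit 332) (nat_lit 1) (.p (nat_lit 334) (nat_lit 1) (.p (nat_lit 335) (nat_lit 3) (.p (nat_lit 336) (nat_lit 3) (.p (nat_lit 338) (nat_lit 2) (.p (nat_lit 339) (nat_lit 2) (.p (nat_lit 340) (nat_lit 1) (.p (nat_lit 341) (nat_lit 3) (.n (nat_lit 342) (nat_lit 2) (.n (nat_lit 344) (nat_lit 1) (.p (nat_lit 345) (nat_lit 2) (.n (nat_lit 347) (nat_lit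 1) (.p (nat_lit 348) (nat_lit 1) (.n (nat_lit 349) (nat_lit 1) (.p (nat_lit 350) (nat_lit 1) (.p (nat_lit 351) (nat_lit 1) (.n (nat_lit 352) (nat_lit 1) (.p (nat_lit 353) (nat_lit 2) (.p (nat_lit 354) (nat_lit 2) (.p (nat_lit 356) (nat_lit 1) (.n (nat_lit 357) (nat_lit 2) (.n (nat_lit 358) (nat_lit 2) (.n (nat_lit 359) (nat_lit 1) .z)))))))))))))))))))))))))))))))))))) (.ct dF4_c1118225 (nat_lit 1) (nat_lit 12) (.s true (nat_lit 1) (nat_lit 7) (nat_lit 1) (nat_lit 5) (nat_lit 4) true (nat_lit 5) true (nat_lit 11) true (nat_lit 8) true (nat_lit 13) true (nat_lit 10) (.s true (nat_lit 1) (nat_lit 12) (nat_lit 2) (nat_lit 1) (nat_lit 5) true (nat_lit 1) true (nat_lit 10) true (nat_lit 6) true (nat_lit 12) true (nat_lit 13) dF4_i17))) (.nd (.nd (.nd (.nd .leaf (nat_lit 181251) (nat_lit 589) (.p (nat_lit 363) (nat_lit 2) (.n (nat_lit 364) (nat_lit 2) (.n (nat_lit 365) (nat_lit 1) (.n (nat_lit 366)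 (nat_lit 1) (.n (nat_lit 367) (nat_lit 3) (.n (nat_lit 368) (nat_lit 2) (.p (nat_lit 369) (nat_lit 2) (.p (nat_lit 370) (nat_lit 3) (.p (nat_lit 371) (nat_lit 4) (.p (nat_lit 372) (nat_lit 3) (.n (nat_lit 373) (nat_lit 1) (.n (nat_lit 374) (nat_lit 1) (.n (nat_lit 375) (nat_lit 3) (.n (nat_lit 376) (nat_lit 1) (.p (nat_lit 378) (nat_lit 1) (.p (nat_lit 379) (nat_lit 3) (.p (nat_lit 380) (nat_lit 3) (.p (nat_lit 382) (nat_lit 2) (.p (nat_lit 383) (nat_lit 2) (.p (nat_lit 384) (nat_lit 1) (.p (nat_lit 385) (nat_lit 3) (.n (nat_lit 386) (nat_lit 2) (.n (nat_lit 388) (nat_lit 1) (.p (nat_lit 389) (nat_lit 2) (.n (nat_lit 391) (nat_lit 1) (.p (nat_lit 392) (nat_lit 1) (.n (nat_lit 393) (nat_lit 1) (.p (nat_lit 394) (nat_lit 1) (.p (nat_lit 395) (nat_lit 1) (.n (nat_lit 396) (nat_lit 1) (.p (nat_lit 397) (nat_lit 2) (.p (nat_lit 398) (nat_lit 2) (.p (nat_lit 400) (nat_lit 1) (.n (nat_lit 401) (nat_lit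 2) (.n (nat_lit 402) (nat_lit 2) (.n (nat_lit 403) (nat_lit 1) .z)))))))))))))))))))))))))))))))))))) (.ct dF4_c1114385 (nat_lit 1) (nat_lit 12) (.s true (nat_lit 1) (nat_lit 9) (nat_lit 1) (nat_lit 5) (nat_lit 4) true (nat_lit 5) true (nat_lit 11) true (nat_lit 8) true (nat_lit 13) true (nat_lit 10) (.s true (nat_lit 1) (nat_lit 12) (nat_lit 3) (nat_lit 1) (nat_lit 5) true (nat_lit 1) true (nat_lit 10) true (nat_lit 6) true (nat_lit 12) true (nat_lit 13) dF4_i23))) .leaf) (nat_lit 182274) (nat_lit 482) (.p (nat_lit 342) (nat_lit 1) .z) .df .leaf) (nat_lit 182275) (nat_lit 561) (.p (nat_lit 386) (nat_lit 1) .z) .df (.nd (.nd .leaf (nat_lit 183298) (nat_lit 483) (.p (nat_lit 343) (nat_lit 1) .z) .df .leaf) (nat_lit 183299) (nat_lit 562) (.p (nat_lit 387) (nat_lit 1) .z) .df .leaf)) (nat_lit 184322) (nat_lit 484) (.p (nat_lit 344) (nat_lit 1) .z) .df (.nd (.nd (.nd .leaf (nat_lit 184323) (nat_lit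 563) (.p (nat_lit 388) (nat_lit 1) .z) .df .leaf) (nat_lit 185345) (nat_lit 485) (.p (nat_lit 345) (nat_lit 1) .z) .df .leaf) (nat_lit 185347) (nat_lit 634) (.p (nat_lit 425) (nat_lit 1) .z) .df (.nd (.nd .leaf (nat_lit 186369) (nat_lit 486) (.p (nat_lit 346) (nat_lit 1) .z) .df .leaf) (nat_lit 186371) (nat_lit 635) (.p (nat_lit 426) (nat_lit 1) .z) .df .leaf))))))

noncomputable def dF4_t11 : Tr := (.nd (.nd (.nd (.nd (.nd (.nd (.nd .leaf (nat_lit 187395) (nat_lit 636) (.p (nat_lit 427) (nat_lit 1) .z) .df .leaf) (nat_lit 188417) (nat_lit 488) (.p (nat_lit 348) (nat_lit 1) .z) .df .leaf) (nat_lit 188419) (nat_lit 670) (.p (nat_lit 407) (nat_lit 1) (.n (nat_lit 408) (nat_lit 1) (.n (nat_lit 412) (nat_lit 1) (.p (nat_lit 413) (nat_lit 1) (.p (nat_lit 415) (nat_lit 1) (.p (nat_lit 416) (nat_lit 1) (.n (nat_lit 417) (nat_lit 1) (.n (nat_lit 420) (nat_lit 1) (.p (nat_lit 422) (nat_lit 1) (.p (nat_lit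 424) (nat_lit 1) (.n (nat_lit 425) (nat_lit 1) (.p (nat_lit 449) (nat_lit 1) (.p (nat_lit 450) (nat_lit 1) .z))))))))))))) (.ct dF4_c1052945 (nat_lit 1) (nat_lit 12) (.s true (nat_lit 1) (nat_lit 7) (nat_lit 4) (nat_lit 5) (nat_lit 3) true (nat_lit 4) true (nat_lit 12) true (nat_lit 9) true (nat_lit 11) true (nat_lit 10) (.s true (nat_lit 1) (nat_lit 7) (nat_lit 5) (nat_lit 4) (nat_lit 3) true (nat_lit 1) true (nat_lit 12) true (nat_lit 9) true (nat_lit 10) true (nat_lit 11) (.e false (nat_lit 1) (nat_lit 54) (nat_lit 15) (nat_lit 4) (.e true (nat_lit 1) (nat_lit 181) (nat_lit 3) (nat_lit 12) (.e true (nat_lit 1) (nat_lit 152) (nat_lit 4) (nat_lit 11) (.e true (nat_lit 1) (nat_lit 156) (nat_lit 4) (nat_lit 11) (.e false (nat_lit 1) (nat_lit 158) (nat_lit 4) (nat_lit 11) (.e false (nat_lit 1) (nat_lit 160) (nat_lit 4) (nat_lit 11) (.e false (nat_lit 1) (nat_lit 111) (nat_lit 5) (nat_lit 10)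 (.e false (nat_lit 1) (nat_lit 36) (nat_lit 19) (nat_lit 1) (.e true (nat_lit 1) (nat_lit 112) (nat_lit 5) (nat_lit 10) (.e true (nat_lit 1) (nat_lit 116) (nat_lit 5) (nat_lit 10) (.e false (nat_lit 1) (nat_lit 118) (nat_lit 5) (nat_lit 10) (.e false (nat_lit 1) (nat_lit 120) (nat_lit 5) (nat_lit 10) (.e false (nat_lit 1) (nat_lit 151) (nat_lit 4) (nat_lit 11) .nil)))))))))))))))) (.nd (.nd .leaf (nat_lit 189441) (nat_lit 489) (.p (nat_lit 349) (nat_lit 1) .z) .df .leaf) (nat_lit 189443) (nat_lit 637) (.p (nat_lit 428) (nat_lit 1) .z) .df .leaf)) (nat_lit 190465) (nat_lit 509) (.p (nat_lit 319) (nat_lit 1) (.p (nat_lit 320) (nat_lit 1) (.n (nat_lit 321) (nat_lit 2) (.n (nat_lit 322) (nat_lit 1) (.n (nat_lit 323) (nat_lit 2) (.p (nat_lit 324) (nat_lit 1) (.p (nat_lit 326) (nat_lit 1) (.n (nat_lit 328) (nat_lit 1) (.n (nat_lit 329) (nat_lit 1) (.n (nat_lit 331) (nat_lit 1) (.n (nat_lit 332) (nat_lit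 2) (.p (nat_lit 333) (nat_lit 1) (.p (nat_lit 334) (nat_lit 1) (.p (nat_lit 335) (nat_lit 2) (.p (nat_lit 336) (nat_lit 2) (.p (nat_lit 337) (nat_lit 1) (.n (nat_lit 339) (nat_lit 1) (.n (nat_lit 340) (nat_lit 1) (.p (nat_lit 342) (nat_lit 2) (.p (nat_lit 343) (nat_lit 1) (.p (nat_lit 344) (nat_lit 2) (.n (nat_lit 345) (nat_lit 1) (.n (nat_lit 346) (nat_lit 1) (.p (nat_lit 348) (nat_lit 2) (.n (nat_lit 350) (nat_lit 3) (.p (nat_lit 351) (nat_lit 2) (.p (nat_lit 352) (nat_lit 2) (.p (nat_lit 353) (nat_lit 1) (.p (nat_lit 356) (nat_lit 3) (.n (nat_lit 357) (nat_lit 1) (.n (nat_lit 358) (nat_lit 3) (.p (nat_lit 359) (nat_lit 2) (.n (nat_lit 360) (nat_lit 2) (.n (nat_lit 361) (nat_lit 3) (.p (nat_lit 362) (nat_lit 1) .z))))))))))))))))))))))))))))))))))) (.ct dF4_c1118225 (nat_lit 1) (nat_lit 13) (.s false (nat_lit 1) (nat_lit 6) (nat_lit 2) (nat_lit 4) (nat_lit 5) true (nat_lit 1) true (nat_lit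 10) true (nat_lit 9) true (nat_lit 12) true (nat_lit 11) (.s false (nat_lit 1) (nat_lit 6) (nat_lit 4) (nat_lit 2) (nat_lit 5) true (nat_lit 0) true (nat_lit 10) true (nat_lit 9) true (nat_lit 11) true (nat_lit 12) (.s true (nat_lit 1) (nat_lit 8) (nat_lit 4) (nat_lit 5) (nat_lit 0) true (nat_lit 6) true (nat_lit 14) true (nat_lit 7) true (nat_lit 11) true (nat_lit 10) (.s true (nat_lit 1) (nat_lit 20) (nat_lit 1) (nat_lit 0) (nat_lit 2) true (nat_lit 7) true (nat_lit 12) true (nat_lit 0) true (nat_lit 13) true (nat_lit 14) dF4_i16))))) (.nd (.nd (.nd .leaf (nat_lit 190467) (nat_lit 638) (.p (nat_lit 429) (nat_lit 1) .z) .df .leaf) (nat_lit 191489) (nat_lit 512) (.p (nat_lit 319) (nat_lit 1) (.p (nat_lit 320) (nat_lit 2) (.p (nat_lit 323) (nat_lit 1) (.p (nat_lit 324) (nat_lit 2) (.n (nat_lit 325) (nat_lit 1) (.n (nat_lit 326) (nat_lit 1) (.n (nat_lit 327) (nat_lit 2) (.n (nat_lit 328) (nat_lit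 2) (.n (nat_lit 329) (nat_lit 1) (.p (nat_lit 330) (nat_lit 1) (.p (nat_lit 331) (nat_lit 2) (.n (nat_lit 332) (nat_lit 1) (.n (nat_lit 335) (nat_lit 2) (.n (nat_lit 336) (nat_lit 1) (.n (nat_lit 337) (nat_lit 1) (.n (nat_lit 338) (nat_lit 2) (.n (nat_lit 339) (nat_lit 1) (.n (nat_lit 341) (nat_lit 2) (.p (nat_lit 342) (nat_lit 2) (.n (nat_lit 343) (nat_lit 1) (.p (nat_lit 344) (nat_lit 1) (.n (nat_lit 345) (nat_lit 2) (.n (nat_lit 346) (nat_lit 1) (.p (nat_lit 347) (nat_lit 2) (.p (nat_lit 348) (nat_lit 1) (.p (nat_lit 349) (nat_lit 2) (.n (nat_lit 350) (nat_lit 3) (.p (nat_lit 352) (nat_lit 1) (.n (nat_lit 353) (nat_lit 2) (.n (nat_lit 354) (nat_lit 2) (.p (nat_lit 357) (nat_lit 1) (.p (nat_lit 358) (nat_lit 1) (.p (nat_lit 359) (nat_lit 2) (.n (nat_lit 360) (nat_lit 1) (.p (nat_lit 362) (nat_lit 2) .z))))))))))))))))))))))))))))))))))) (.ct dF4_c1118225 (nat_lit 1) (nat_lit 13) (.s false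 (nat_lit 1) (nat_lit 14) (nat_lit 1) (nat_lit 0) (nat_lit 5) true (nat_lit 2) true (nat_lit 10) true (nat_lit 4) true (nat_lit 13) true (nat_lit 14) (.e false (nat_lit 1) (nat_lit 38) (nat_lit 17) (nat_lit 2) (.e false (nat_lit 1) (nat_lit 91) (nat_lit 5) (nat_lit 10) (.e true (nat_lit 1) (nat_lit 93) (nat_lit 5) (nat_lit 10) (.e true (nat_lit 1) (nat_lit 94) (nat_lit 5) (nat_lit 10) (.e true (nat_lit 1) (nat_lit 95) (nat_lit 5) (nat_lit 10) (.e false (nat_lit 1) (nat_lit 98) (nat_lit 5) (nat_lit 10) (.e false (nat_lit 1) (nat_lit 99) (nat_lit 5) (nat_lit 10) (.e false (nat_lit 1) (nat_lit 100) (nat_lit 5) (nat_lit 10) (.e false (nat_lit 1) (nat_lit 51) (nat_lit 14) (nat_lit 4) (.e false (nat_lit 1) (nat_lit 183) (nat_lit 1) (nat_lit 13) (.e false (nat_lit 1) (nat_lit 184) (nat_lit 1) (nat_lit 13) (.e false (nat_lit 1) (nat_lit 185) (nat_lit 1) (nat_lit 13) (.e false (nat_lit 1) (nat_lit 186)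 (nat_lit 1) (nat_lit 13) (.e true (nat_lit 1) (nat_lit 188) (nat_lit 1) (nat_lit 13) (.e true (nat_lit 1) (nat_lit 189) (nat_lit 1) (nat_lit 13) (.e true (nat_lit 1) (nat_lit 190) (nat_lit 1) (nat_lit 13) (.e true (nat_lit 1) (nat_lit 200) (nat_lit 0) (nat_lit 14) .nil))))))))))))))))))) .leaf) (nat_lit 191491) (nat_lit 667) (.p (nat_lit 407) (nat_lit 2) (.n (nat_lit 408) (nat_lit 2) (.n (nat_lit 409) (nat_lit 1) (.n (nat_lit 410) (nat_lit 1) (.n (nat_lit 411) (nat_lit 3) (.n (nat_lit 412) (nat_lit 2) (.p (nat_lit 413) (nat_lit 2) (.p (nat_lit 414) (nat_lit 3) (.p (nat_lit 415) (nat_lit 4) (.p (nat_lit 416) (nat_lit 3) (.n (nat_lit 417) (nat_lit 1) (.n (nat_lit 418) (nat_lit 1) (.n (nat_lit 419) (nat_lit 3) (.n (nat_lit 420) (nat_lit 1) (.p (nat_lit 422) (nat_lit 1) (.p (nat_lit 423) (nat_lit 3) (.p (nat_lit 424) (nat_lit 3) (.p (nat_lit 426) (nat_lit 2) (.p (nat_lit 427) (nat_lit 2) (.p (nat_lit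 428) (nat_lit 1) (.p (nat_lit 429) (nat_lit 3) (.n (nat_lit 430) (nat_lit 2) (.n (nat_lit 432) (nat_lit 1) (.p (nat_lit 433) (nat_lit 2) (.n (nat_lit 435) (nat_lit 1) (.p (nat_lit 436) (nat_lit 1) (.n (nat_lit 437) (nat_lit 1) (.p (nat_lit 438) (nat_lit 1) (.p (nat_lit 439) (nat_lit 1) (.n (nat_lit 440) (nat_lit 1) (.p (nat_lit 441) (nat_lit 2) (.p (nat_lit 442) (nat_lit 2) (.p (nat_lit 444) (nat_lit 1) (.n (nat_lit 445) (nat_lit 2) (.n (nat_lit 446) (nat_lit 2) (.n (nat_lit 447) (nat_lit 1) .z)))))))))))))))))))))))))))))))))))) (.ct dF4_c1052945 (nat_lit 1) (nat_lit 12) (.s true (nat_lit 1) (nat_lit 9) (nat_lit 2) (nat_lit 5) (nat_lit 4) true (nat_lit 5) true (nat_lit 11) true (nat_lit 8) true (nat_lit 13) true (nat_lit 10) (.s true (nat_lit 1) (nat_lit 12) (nat_lit 3) (nat_lit 2) (nat_lit 5) true (nat_lit 1) true (nat_lit 10) true (nat_lit 6) true (nat_lit 12) true (nat_lit 13) dF4_i29)))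 (.nd (.nd .leaf (nat_lit 192513) (nat_lit 508) (.p (nat_lit 319) (nat_lit 1) (.n (nat_lit 321) (nat_lit 4) (.n (nat_lit 322) (nat_lit 3) (.n (nat_lit 323) (nat_lit 5) (.p (nat_lit 325) (nat_lit 1) (.p (nat_lit 326) (nat_lit 3) (.p (nat_lit 327) (nat_lit 2) (.p (nat_lit 328) (nat_lit 1) (.n (nat_lit 330) (nat_lit 1) (.n (nat_lit 331) (nat_lit 4) (.n (nat_lit 332) (nat_lit 2) (.p (nat_lit 333) (nat_lit 2) (.p (nat_lit 334) (nat_lit 1) (.p (nat_lit 335) (nat_lit 6) (.p (nat_lit 336) (nat_lit 4) (.p (nat_lit 337) (nat_lit 3) (.p (nat_lit 338) (nat_lit 3) (.n (nat_lit 339) (nat_lit 1) (.n (nat_lit 340) (nat_lit 2) (.p (nat_lit 341) (nat_lit 3) (.p (nat_lit 342) (nat_lit 1) (.p (nat_lit 343) (nat_lit 3) (.p (nat_lit 344) (nat_lit 2) (.p (nat_lit 345) (nat_lit 1) (.n (nat_lit 347) (nat_lit 1) (.p (nat_lit 348) (nat_lit 3) (.n (nat_lit 349) (nat_lit 2) (.n (nat_lit 350) (nat_lit 2) (.p (nat_lit 351)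 (nat_lit 3) (.p (nat_lit 352) (nat_lit 2) (.p (nat_lit 353) (nat_lit 3) (.p (nat_lit 354) (nat_lit 2) (.p (nat_lit 356) (nat_lit 4) (.n (nat_lit 357) (nat_lit 2) (.n (nat_lit 358) (nat_lit 6) (.p (nat_lit 359) (nat_lit 1) (.n (nat_lit 360) (nat_lit 3) (.n (nat_lit 361) (nat_lit 5) (.p (nat_lit 362) (nat_lit 1) .z))))))))))))))))))))))))))))))))))))))) (.ct dF4_c1118225 (nat_lit 1) (nat_lit 13) (.s false (nat_lit 1) (nat_lit 6) (nat_lit 2) (nat_lit 4) (nat_lit 5) true (nat_lit 1) true (nat_lit 10) true (nat_lit 9) true (nat_lit 12) true (nat_lit 11) (.s false (nat_lit 1) (nat_lit 6) (nat_lit 4) (nat_lit 2) (nat_lit 5) true (nat_lit 0) true (nat_lit 10) true (nat_lit 9) true (nat_lit 11) true (nat_lit 12) (.s false (nat_lit 1) (nat_lit 6) (nat_lit 4) (nat_lit 5) (nat_lit 2) true (nat_lit 4) true (nat_lit 12) true (nat_lit 9) true (nat_lit 11) true (nat_lit 10) (.s false (nat_lit 1) (nat_lit 6)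 (nat_lit 5) (nat_lit 4) (nat_lit 2) true (nat_lit 1) true (nat_lit 12) true (nat_lit 9) true (nat_lit 10) true (nat_lit 11) (.s false (nat_lit 1) (nat_lit 7) (nat_lit 4) (nat_lit 5) (nat_lit 1) true (nat_lit 5) true (nat_lit 13) true (nat_lit 8) true (nat_lit 11) true (nat_lit 10) (.s false (nat_lit 1) (nat_lit 20) (nat_lit 0) (nat_lit 1) (nat_lit 2) true (nat_lit 8) true (nat_lit 12) true (nat_lit 0) true (nat_lit 14) true (nat_lit 13) dF4_i15))))))) .leaf) (nat_lit 192515) (nat_lit 639) (.p (nat_lit 430) (nat_lit 1) .z) .df .leaf))) (nat_lit 193537) (nat_lit 490) (.p (nat_lit 350) (nat_lit 1) .z) .df (.nd (.nd (.nd (.nd .leaf (nat_lit 193539) (nat_lit 640) (.p (nat_lit 431) (nat_lit 1) .z) .df .leaf) (nat_lit 194561) (nat_lit 506) (.n (nat_lit 319) (nat_lit 1) (.p (nat_lit 321) (nat_lit 1) (.p (nat_lit 322) (nat_lit 1) (.p (nat_lit 323) (nat_lit 2) (.n (nat_lit 326) (nat_lit 1) (.n (nat_lit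 327) (nat_lit 1) (.n (nat_lit 328) (nat_lit 1) (.p (nat_lit 331) (nat_lit 1) (.n (nat_lit 335) (nat_lit 2) (.n (nat_lit 336) (nat_lit 1) (.n (nat_lit 337) (nat_lit 1) (.n (nat_lit 338) (nat_lit 1) (.p (nat_lit 340) (nat_lit 1) (.n (nat_lit 341) (nat_lit 1) (.n (nat_lit 343) (nat_lit 1) (.n (nat_lit 344) (nat_lit 1) (.n (nat_lit 345) (nat_lit 1) (.n (nat_lit 348) (nat_lit 1) (.p (nat_lit 349) (nat_lit 1) (.n (nat_lit 351) (nat_lit 1) (.p (nat_lit 355) (nat_lit 1) (.p (nat_lit 358) (nat_lit 1) (.n (nat_lit 359) (nat_lit 1) (.p (nat_lit 361) (nat_lit 1) (.n (nat_lit 362) (nat_lit 1) .z))))))))))))))))))))))))) (.ct dF4_c1118225 (nat_lit 1) (nat_lit 13) (.s true (nat_lit 1) (nat_lit 12) (nat_lit 1) (nat_lit 5) (nat_lit 2) true (nat_lit 7) true (nat_lit 12) true (nat_lit 6) true (nat_lit 13) true (nat_lit 10) (.s true (nat_lit 1) (nat_lit 12) (nat_lit 2) (nat_lit 5) (nat_lit 1) true (nat_lit 7)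 true (nat_lit 13) true (nat_lit 6) true (nat_lit 12) true (nat_lit 10) (.s true (nat_lit 1) (nat_lit 14) (nat_lit 1) (nat_lit 0) (nat_lit 5) true (nat_lit 2) true (nat_lit 10) true (nat_lit 4) true (nat_lit 13) true (nat_lit 14) (.s false (nat_lit 1) (nat_lit 17) (nat_lit 4) (nat_lit 2) (nat_lit 0) true (nat_lit 6) true (nat_lit 14) true (nat_lit 2) true (nat_lit 11) true (nat_lit 12) (.s true (nat_lit 1) (nat_lit 18) (nat_lit 0) (nat_lit 1) (nat_lit 4) true (nat_lit 6) true (nat_lit 11) true (nat_lit 1) true (nat_lit 14) true (nat_lit 13) dF4_i14)))))) .leaf) (nat_lit 194563) (nat_lit 641) (.p (nat_lit 432) (nat_lit 1) .z) .df (.nd (.nd .leaf (nat_lit 195584) (nat_lit 491) (.p (nat_lit 351) (nat_lit 1) .z) .df .leaf) (nat_lit 195587) (nat_lit 712) (.p (nat_lit 469) (nat_lit 1) .z) .df .leaf)) (nat_lit 196608) (nat_lit 492) (.p (nat_lit 352) (nat_lit 1) .z) .df (.nd (.nd (.nd .leaf (nat_lit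 196611) (nat_lit 713) (.p (nat_lit 470) (nat_lit 1) .z) .df .leaf) (nat_lit 197632) (nat_lit 493) (.p (nat_lit 353) (nat_lit 1) .z) .df .leaf) (nat_lit 197635) (nat_lit 714) (.p (nat_lit 471) (nat_lit 1) .z) .df (.nd (.nd .leaf (nat_lit 198656) (nat_lit 494) (.p (nat_lit 354) (nat_lit 1) .z) .df .leaf) (nat_lit 198659) (nat_lit 748) (.p (nat_lit 451) (nat_lit 1) (.n (nat_lit 452) (nat_lit 1) (.n (nat_lit 456) (nat_lit 1) (.p (nat_lit 457) (nat_lit 1) (.p (nat_lit 459) (nat_lit 1) (.p (nat_lit 460) (nat_lit 1) (.n (nat_lit 461) (nat_lit 1) (.n (nat_lit 464) (nat_lit 1) (.p (nat_lit 466) (nat_lit 1) (.p (nat_lit 468) (nat_lit 1) (.n (nat_lit 469) (nat_lit 1) (.p (nat_lit 493) (nat_lit 1) (.p (nat_lit 494) (nat_lit 1) .z))))))))))))) (.ct dF4_c69905 (nat_lit 1) (nat_lit 12) (.s true (nat_lit 1) (nat_lit 8) (nat_lit 4) (nat_lit 5) (nat_lit 3) true (nat_lit 4) true (nat_lit 12) true (nat_lit 9)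 true (nat_lit 11) true (nat_lit 10) (.s true (nat_lit 1) (nat_lit 8) (nat_lit 5) (nat_lit 4) (nat_lit 3) true (nat_lit 1) true (nat_lit 12) true (nat_lit 9) true (nat_lit 10) true (nat_lit 11) (.e false (nat_lit 1) (nat_lit 57) (nat_lit 15) (nat_lit 4) (.e true (nat_lit 1) (nat_lit 191) (nat_lit 3) (nat_lit 12) (.e true (nat_lit 1) (nat_lit 162) (nat_lit 4) (nat_lit 11) (.e true (nat_lit 1) (nat_lit 166) (nat_lit 4) (nat_lit 11) (.e false (nat_lit 1) (nat_lit 168) (nat_lit 4) (nat_lit 11) (.e false (nat_lit 1) (nat_lit 170) (nat_lit 4) (nat_lit 11) (.e false (nat_lit 1) (nat_lit 121) (nat_lit 5) (nat_lit 10) (.e false (nat_lit 1) (nat_lit 39) (nat_lit 19) (nat_lit 1) (.e true (nat_lit 1) (nat_lit 122) (nat_lit 5) (nat_lit 10) (.e true (nat_lit 1) (nat_lit 126) (nat_lit 5) (nat_lit 10) (.e false (nat_lit 1) (nat_lit 128) (nat_lit 5) (nat_lit 10) (.e false (nat_lit 1) (nat_lit 130) (nat_lit 5)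 (nat_lit 10) (.e false (nat_lit 1) (nat_lit 161) (nat_lit 4) (nat_lit 11) .nil)))))))))))))))) .leaf)))) (nat_lit 199680) (nat_lit 495) (.p (nat_lit 355) (nat_lit 1) .z) .df (.nd (.nd (.nd (.nd (.nd .leaf (nat_lit 199683) (nat_lit 715) (.p (nat_lit 472) (nat_lit 1) .z) .df .leaf) (nat_lit 200704) (nat_lit 496) (.p (nat_lit 356) (nat_lit 1) .z) .df .leaf) (nat_lit 200707) (nat_lit 716) (.p (nat_lit 473) (nat_lit 1) .z) .df (.nd (.nd .leaf (nat_lit 201728) (nat_lit 497) (.p (nat_lit 357) (nat_lit 1) .z) .df .leaf) (nat_lit 201731) (nat_lit 745) (.p (nat_lit 451) (nat_lit 2) (.n (nat_lit 452) (nat_lit 2) (.n (nat_lit 453) (nat_lit 1) (.n (nat_lit 454) (nat_lit 1) (.n (nat_lit 455) (nat_lit 3) (.n (nat_lit 456) (nat_lit 2) (.p (nat_lit 457) (nat_lit 2) (.p (nat_lit 458) (nat_lit 3) (.p (nat_lit 459) (nat_lit 4) (.p (nat_lit 460) (nat_lit 3) (.n (nat_lit 461) (nat_lit 1) (.n (nat_lit 462) (nat_lit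 1) (.n (nat_lit 463) (nat_lit 3) (.n (nat_lit 464) (nat_lit 1) (.p (nat_lit 466) (nat_lit 1) (.p (nat_lit 467) (nat_lit 3) (.p (nat_lit 468) (nat_lit 3) (.p (nat_lit 470) (nat_lit 2) (.p (nat_lit 471) (nat_lit 2) (.p (nat_lit 472) (nat_lit 1) (.p (nat_lit 473) (nat_lit 3) (.n (nat_lit 474) (nat_lit 2) (.n (nat_lit 476) (nat_lit 1) (.p (nat_lit 477) (nat_lit 2) (.n (nat_lit 479) (nat_lit 1) (.p (nat_lit 480) (nat_lit 1) (.n (nat_lit 481) (nat_lit 1) (.p (nat_lit 482) (nat_lit 1) (.p (nat_lit 483) (nat_lit 1) (.n (nat_lit 484) (nat_lit 1) (.p (nat_lit 485) (nat_lit 2) (.p (nat_lit 486) (nat_lit 2) (.p (nat_lit 488) (nat_lit 1) (.n (nat_lit 489) (nat_lit 2) (.n (nat_lit 490) (nat_lit 2) (.n (nat_lit 491) (nat_lit 1) .z)))))))))))))))))))))))))))))))))))) (.ct dF4_c69905 (nat_lit 1) (nat_lit 12) (.s true (nat_lit 1) (nat_lit 10) (nat_lit 2) (nat_lit 5) (nat_lit 4) true (nat_lit 5) true (nat_lit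 11) true (nat_lit 8) true (nat_lit 13) true (nat_lit 10) (.s true (nat_lit 1) (nat_lit 13) (nat_lit 3) (nat_lit 2) (nat_lit 5) true (nat_lit 1) true (nat_lit 10) true (nat_lit 6) true (nat_lit 12) true (nat_lit 13) dF4_i35))) .leaf)) (nat_lit 202752) (nat_lit 498) (.p (nat_lit 358) (nat_lit 1) .z) .df (.nd (.nd (.nd .leaf (nat_lit 202755) (nat_lit 717) (.p (nat_lit 474) (nat_lit 1) .z) .df .leaf) (nat_lit 203776) (nat_lit 499) (.p (nat_lit 359) (nat_lit 1) .z) .df .leaf) (nat_lit 203779) (nat_lit 718) (.p (nat_lit 475) (nat_lit 1) .z) .df (.nd (.nd .leaf (nat_lit 204800) (nat_lit 500) (.p (nat_lit 360) (nat_lit 1) .z) .df .leaf) (nat_lit 204803) (nat_lit 719) (.p (nat_lit 476) (nat_lit 1) .z) .df .leaf))) (nat_lit 205825) (nat_lit 564) (.p (nat_lit 389) (nat_lit 1) .z) .df (.nd (.nd (.nd (.nd .leaf (nat_lit 205826) (nat_lit 642) (.p (nat_lit 433) (nat_lit 1) .z) .df .leaf) (nat_lit 206849)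 (nat_lit 565) (.p (nat_lit 390) (nat_lit 1) .z) .df .leaf) (nat_lit 206850) (nat_lit 643) (.p (nat_lit 434) (nat_lit 1) .z) .df (.nd (.nd .leaf (nat_lit 207873) (nat_lit 566) (.p (nat_lit 391) (nat_lit 1) .z) .df .leaf) (nat_lit 207874) (nat_lit 644) (.p (nat_lit 435) (nat_lit 1) .z) .df .leaf)) (nat_lit 208897) (nat_lit 567) (.p (nat_lit 392) (nat_lit 1) .z) .df (.nd (.nd (.nd .leaf (nat_lit 208898) (nat_lit 645) (.p (nat_lit 436) (nat_lit 1) .z) .df .leaf) (nat_lit 209921) (nat_lit 568) (.p (nat_lit 393) (nat_lit 1) .z) .df .leaf) (nat_lit 209922) (nat_lit 646) (.p (nat_lit 437) (nat_lit 1) .z) .df (.nd (.nd .leaf (nat_lit 210945) (nat_lit 588) (.p (nat_lit 363) (nat_lit 1) (.p (nat_lit 364) (nat_lit 1) (.n (nat_lit 365) (nat_lit 2) (.n (nat_lit 366) (nat_lit 1) (.n (nat_lit 367) (nat_lit 2) (.p (nat_lit 368) (nat_lit 1) (.p (nat_lit 370) (nat_lit 1) (.n (nat_lit 372) (nat_lit 1) (.n (nat_lit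 373) (nat_lit 1) (.n (nat_lit 375) (nat_lit 1) (.n (nat_lit 376) (nat_lit 2) (.p (nat_lit 377) (nat_lit 1) (.p (nat_lit 378) (nat_lit 1) (.p (nat_lit 379) (nat_lit 2) (.p (nat_lit 380) (nat_lit 2) (.p (nat_lit 381) (nat_lit 1) (.n (nat_lit 383) (nat_lit 1) (.n (nat_lit 384) (nat_lit 1) (.p (nat_lit 386) (nat_lit 2) (.p (nat_lit 387) (nat_lit 1) (.p (nat_lit 388) (nat_lit 2) (.n (nat_lit 389) (nat_lit 1) (.n (nat_lit 390) (nat_lit 1) (.p (nat_lit 392) (nat_lit 2) (.n (nat_lit 394) (nat_lit 3) (.p (nat_lit 395) (nat_lit 2) (.p (nat_lit 396) (nat_lit 2) (.p (nat_lit 397) (nat_lit 1) (.p (nat_lit 400) (nat_lit 3) (.n (nat_lit 401) (nat_lit 1) (.n (nat_lit 402) (nat_lit 3) (.p (nat_lit 403) (nat_lit 2) (.n (nat_lit 404) (nat_lit 2) (.n (nat_lit 405) (nat_lit 3) (.p (nat_lit 406) (nat_lit 1) .z))))))))))))))))))))))))))))))))))) (.ct dF4_c1114385 (nat_lit 1) (nat_lit 13) (.s false (nat_lit 1) (nat_lit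 6) (nat_lit 3) (nat_lit 4) (nat_lit 5) true (nat_lit 1) true (nat_lit 10) true (nat_lit 9) true (nat_lit 12) true (nat_lit 11) (.s false (nat_lit 1) (nat_lit 6) (nat_lit 4) (nat_lit 3) (nat_lit 5) true (nat_lit 0) true (nat_lit 10) true (nat_lit 9) true (nat_lit 11) true (nat_lit 12) (.s true (nat_lit 1) (nat_lit 10) (nat_lit 4) (nat_lit 5) (nat_lit 0) true (nat_lit 6) true (nat_lit 14) true (nat_lit 7) true (nat_lit 11) true (nat_lit 10) (.s true (nat_lit 1) (nat_lit 20) (nat_lit 1) (nat_lit 0) (nat_lit 3) true (nat_lit 7) true (nat_lit 12) true (nat_lit 0) true (nat_lit 13) true (nat_lit 14) dF4_i22))))) .leaf) (nat_lit 210946) (nat_lit 666) (.p (nat_lit 407) (nat_lit 1) (.p (nat_lit 408) (nat_lit 1) (.n (nat_lit 409) (nat_lit 2) (.n (nat_lit 410) (nat_lit 1) (.n (nat_lit 411) (nat_lit 2) (.p (nat_lit 412) (nat_lit 1) (.p (nat_lit 414) (nat_lit 1) (.n (nat_lit 416) (nat_lit 1) (.n (nat_lit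 417) (nat_lit 1) (.n (nat_lit 419) (nat_lit 1) (.n (nat_lit 420) (nat_lit 2) (.p (nat_lit 421) (nat_lit 1) (.p (nat_lit 422) (nat_lit 1) (.p (nat_lit 423) (nat_lit 2) (.p (nat_lit 424) (nat_lit 2) (.p (nat_lit 425) (nat_lit 1) (.n (nat_lit 427) (nat_lit 1) (.n (nat_lit 428) (nat_lit 1) (.p (nat_lit 430) (nat_lit 2) (.p (nat_lit 431) (nat_lit 1) (.p (nat_lit 432) (nat_lit 2) (.n (nat_lit 433) (nat_lit 1) (.n (nat_lit 434) (nat_lit 1) (.p (nat_lit 436) (nat_lit 2) (.n (nat_lit 438) (nat_lit 3) (.p (nat_lit 439) (nat_lit 2) (.p (nat_lit 440) (nat_lit 2) (.p (nat_lit 441) (nat_lit 1) (.p (nat_lit 444) (nat_lit 3) (.n (nat_lit 445) (nat_lit 1) (.n (nat_lit 446) (nat_lit 3) (.p (nat_lit 447) (nat_lit 2) (.n (nat_lit 448) (nat_lit 2) (.n (nat_lit 449) (nat_lit 3) (.p (nat_lit 450) (nat_lit 1) .z))))))))))))))))))))))))))))))))))) (.ct dF4_c1052945 (nat_lit 1) (nat_lit 13) (.s false (nat_lit 1) (nat_lit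 7) (nat_lit 3) (nat_lit 4) (nat_lit 5) true (nat_lit 1) true (nat_lit 10) true (nat_lit 9) true (nat_lit 12) true (nat_lit 11) (.s false (nat_lit 1) (nat_lit 7) (nat_lit 4) (nat_lit 3) (nat_lit 5) true (nat_lit 0) true (nat_lit 10) true (nat_lit 9) true (nat_lit 11) true (nat_lit 12) (.s true (nat_lit 1) (nat_lit 11) (nat_lit 4) (nat_lit 5) (nat_lit 0) true (nat_lit 6) true (nat_lit 14) true (nat_lit 7) true (nat_lit 11) true (nat_lit 10) (.s true (nat_lit 1) (nat_lit 20) (nat_lit 2) (nat_lit 0) (nat_lit 3) true (nat_lit 7) true (nat_lit 12) true (nat_lit 0) true (nat_lit 13) true (nat_lit 14) dF4_i28))))) .leaf))))) (nat_lit 211969) (nat_lit 591) (.p (nat_lit 363) (nat_lit 1) (.p (nat_lit 364) (nat_lit 2) (.p (nat_lit 367) (nat_lit 1) (.p (nat_lit 368) (nat_lit 2) (.n (nat_lit 369) (nat_lit 1) (.n (nat_lit 370) (nat_lit 1) (.n (nat_lit 371) (nat_lit 2) (.n (nat_lit 372) (nat_lit 2) (.n (nat_lit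 373) (nat_lit 1) (.p (nat_lit 374) (nat_lit 1) (.p (nat_lit 375) (nat_lit 2) (.n (nat_lit 376) (nat_lit 1) (.n (nat_lit 379) (nat_lit 2) (.n (nat_lit 380) (nat_lit 1) (.n (nat_lit 381) (nat_lit 1) (.n (nat_lit 382) (nat_lit 2) (.n (nat_lit 383) (nat_lit 1) (.n (nat_lit 385) (nat_lit 2) (.p (nat_lit 386) (nat_lit 2) (.n (nat_lit 387) (nat_lit 1) (.p (nat_lit 388) (nat_lit 1) (.n (nat_lit 389) (nat_lit 2) (.n (nat_lit 390) (nat_lit 1) (.p (nat_lit 391) (nat_lit 2) (.p (nat_lit 392) (nat_lit 1) (.p (nat_lit 393) (nat_lit 2) (.n (nat_lit 394) (nat_lit 3) (.p (nat_lit 396) (nat_lit 1) (.n (nat_lit 397) (nat_lit 2) (.n (nat_lit 398) (nat_lit 2) (.p (nat_lit 401) (nat_lit 1) (.p (nat_lit 402) (nat_lit 1) (.p (nat_lit 403) (nat_lit 2) (.n (nat_lit 404) (nat_lit 1) (.p (nat_lit 406) (nat_lit 2) .z))))))))))))))))))))))))))))))))))) (.ct dF4_c1114385 (nat_lit 1) (nat_lit 13) (.s false (nat_lit 1) (nat_lit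 15) (nat_lit 1) (nat_lit 0) (nat_lit 5) true (nat_lit 2) true (nat_lit 10) true (nat_lit 4) true (nat_lit 13) true (nat_lit 14) (.e false (nat_lit 1) (nat_lit 44) (nat_lit 17) (nat_lit 2) (.e false (nat_lit 1) (nat_lit 101) (nat_lit 5) (nat_lit 10) (.e true (nat_lit 1) (nat_lit 103) (nat_lit 5) (nat_lit 10) (.e true (nat_lit 1) (nat_lit 104) (nat_lit 5) (nat_lit 10) (.e true (nat_lit 1) (nat_lit 105) (nat_lit 5) (nat_lit 10) (.e false (nat_lit 1) (nat_lit 108) (nat_lit 5) (nat_lit 10) (.e false (nat_lit 1) (nat_lit 109) (nat_lit 5) (nat_lit 10) (.e false (nat_lit 1) (nat_lit 110) (nat_lit 5) (nat_lit 10) (.e false (nat_lit 1) (nat_lit 51) (nat_lit 15) (nat_lit 4) (.e false (nat_lit 1) (nat_lit 203) (nat_lit 1) (nat_lit 13) (.e false (nat_lit 1) (nat_lit 204) (nat_lit 1) (nat_lit 13) (.e false (nat_lit 1) (nat_lit 205) (nat_lit 1) (nat_lit 13) (.e false (nat_lit 1) (nat_lit 206) (nat_lit 1)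 (nat_lit 13) (.e true (nat_lit 1) (nat_lit 208) (nat_lit 1) (nat_lit 13) (.e true (nat_lit 1) (nat_lit 209) (nat_lit 1) (nat_lit 13) (.e true (nat_lit 1) (nat_lit 210) (nat_lit 1) (nat_lit 13) (.e true (nat_lit 1) (nat_lit 220) (nat_lit 0) (nat_lit 14) .nil))))))))))))))))))) (.nd (.nd (.nd (.nd (.nd (.nd .leaf (nat_lit 211970) (nat_lit 669) (.p (nat_lit 407) (nat_lit 1) (.p (nat_lit 408) (nat_lit 2) (.p (nat_lit 411) (nat_lit 1) (.p (nat_lit 412) (nat_lit 2) (.n (nat_lit 413) (nat_lit 1) (.n (nat_lit 414) (nat_lit 1) (.n (nat_lit 415) (nat_lit 2) (.n (nat_lit 416) (nat_lit 2) (.n (nat_lit 417) (nat_lit 1) (.p (nat_lit 418) (nat_lit 1) (.p (nat_lit 419) (nat_lit 2) (.n (nat_lit 420) (nat_lit 1) (.n (nat_lit 423) (nat_lit 2) (.n (nat_lit 424) (nat_lit 1) (.n (nat_lit 425) (nat_lit 1) (.n (nat_lit 426) (nat_lit 2) (.n (nat_lit 427) (nat_lit 1) (.n (nat_lit 429) (nat_lit 2) (.p (nat_lit 430) (nat_lit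 2) (.n (nat_lit 431) (nat_lit 1) (.p (nat_lit 432) (nat_lit 1) (.n (nat_lit 433) (nat_lit 2) (.n (nat_lit 434) (nat_lit 1) (.p (nat_lit 435) (nat_lit 2) (.p (nat_lit 436) (nat_lit 1) (.p (nat_lit 437) (nat_lit 2) (.n (nat_lit 438) (nat_lit 3) (.p (nat_lit 440) (nat_lit 1) (.n (nat_lit 441) (nat_lit 2) (.n (nat_lit 442) (nat_lit 2) (.p (nat_lit 445) (nat_lit 1) (.p (nat_lit 446) (nat_lit 1) (.p (nat_lit 447) (nat_lit 2) (.n (nat_lit 448) (nat_lit 1) (.p (nat_lit 450) (nat_lit 2) .z))))))))))))))))))))))))))))))))))) (.ct dF4_c1052945 (nat_lit 1) (nat_lit 13) (.s false (nat_lit 1) (nat_lit 15) (nat_lit 2) (nat_lit 0) (nat_lit 5) true (nat_lit 2) true (nat_lit 10) true (nat_lit 4) true (nat_lit 13) true (nat_lit 14) (.e false (nat_lit 1) (nat_lit 44) (nat_lit 18) (nat_lit 2) (.e false (nat_lit 1) (nat_lit 111) (nat_lit 5) (nat_lit 10) (.e true (nat_lit 1) (nat_lit 113) (nat_lit 5) (nat_lit 10)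 (.e true (nat_lit 1) (nat_lit 114) (nat_lit 5) (nat_lit 10) (.e true (nat_lit 1) (nat_lit 115) (nat_lit 5) (nat_lit 10) (.e false (nat_lit 1) (nat_lit 118) (nat_lit 5) (nat_lit 10) (.e false (nat_lit 1) (nat_lit 119) (nat_lit 5) (nat_lit 10) (.e false (nat_lit 1) (nat_lit 120) (nat_lit 5) (nat_lit 10) (.e false (nat_lit 1) (nat_lit 54) (nat_lit 15) (nat_lit 4) (.e false (nat_lit 1) (nat_lit 203) (nat_lit 2) (nat_lit 13) (.e false (nat_lit 1) (nat_lit 204) (nat_lit 2) (nat_lit 13) (.e false (nat_lit 1) (nat_lit 205) (nat_lit 2) (nat_lit 13) (.e false (nat_lit 1) (nat_lit 206) (nat_lit 2) (nat_lit 13) (.e true (nat_lit 1) (nat_lit 208) (nat_lit 2) (nat_lit 13) (.e true (nat_lit 1) (nat_lit 209) (nat_lit 2) (nat_lit 13) (.e true (nat_lit 1) (nat_lit 210) (nat_lit 2) (nat_lit 13) (.e true (nat_lit 1) (nat_lit 230) (nat_lit 0) (nat_lit 14) .nil))))))))))))))))))) .leaf) (nat_lit 212993) (nat_lit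 587) (.p (nat_lit 363) (nat_lit 1) (.n (nat_lit 365) (nat_lit 4) (.n (nat_lit 366) (nat_lit 3) (.n (nat_lit 367) (nat_lit 5) (.p (nat_lit 369) (nat_lit 1) (.p (nat_lit 370) (nat_lit 3) (.p (nat_lit 371) (nat_lit 2) (.p (nat_lit 372) (nat_lit 1) (.n (nat_lit 374) (nat_lit 1) (.n (nat_lit 375) (nat_lit 4) (.n (nat_lit 376) (nat_lit 2) (.p (nat_lit 377) (nat_lit 2) (.p (nat_lit 378) (nat_lit 1) (.p (nat_lit 379) (nat_lit 6) (.p (nat_lit 380) (nat_lit 4) (.p (nat_lit 381) (nat_lit 3) (.p (nat_lit 382) (nat_lit 3) (.n (nat_lit 383) (nat_lit 1) (.n (nat_lit 384) (nat_lit 2) (.p (nat_lit 385) (nat_lit 3) (.p (nat_lit 386) (nat_lit 1) (.p (nat_lit 387) (nat_lit 3) (.p (nat_lit 388) (nat_lit 2) (.p (nat_lit 389) (nat_lit 1) (.n (nat_lit 391) (nat_lit 1) (.p (nat_lit 392) (nat_lit 3) (.n (nat_lit 393) (nat_lit 2) (.n (nat_lit 394) (nat_lit 2) (.p (nat_lit 395) (nat_lit 3) (.p (nat_lit 396) (nat_lit 2)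 (.p (nat_lit 397) (nat_lit 3) (.p (nat_lit 398) (nat_lit 2) (.p (nat_lit 400) (nat_lit 4) (.n (nat_lit 401) (nat_lit 2) (.n (nat_lit 402) (nat_lit 6) (.p (nat_lit 403) (nat_lit 1) (.n (nat_lit 404) (nat_lit 3) (.n (nat_lit 405) (nat_lit 5) (.p (nat_lit 406) (nat_lit 1) .z))))))))))))))))))))))))))))))))))))))) (.ct dF4_c1114385 (nat_lit 1) (nat_lit 13) (.s false (nat_lit 1) (nat_lit 6) (nat_lit 3) (nat_lit 4) (nat_lit 5) true (nat_lit 1) true (nat_lit 10) true (nat_lit 9) true (nat_lit 12) true (nat_lit 11) (.s false (nat_lit 1) (nat_lit 6) (nat_lit 4) (nat_lit 3) (nat_lit 5) true (nat_lit 0) true (nat_lit 10) true (nat_lit 9) true (nat_lit 11) true (nat_lit 12) (.s false (nat_lit 1) (nat_lit 6) (nat_lit 4) (nat_lit 5) (nat_lit 3) true (nat_lit 4) true (nat_lit 12) true (nat_lit 9) true (nat_lit 11) true (nat_lit 10) (.s false (nat_lit 1) (nat_lit 6) (nat_lit 5) (nat_lit 4) (nat_lit 3) true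 (nat_lit 1) true (nat_lit 12) true (nat_lit 9) true (nat_lit 10) true (nat_lit 11) (.s false (nat_lit 1) (nat_lit 9) (nat_lit 4) (nat_lit 5) (nat_lit 1) true (nat_lit 5) true (nat_lit 13) true (nat_lit 8) true (nat_lit 11) true (nat_lit 10) (.s false (nat_lit 1) (nat_lit 20) (nat_lit 0) (nat_lit 1) (nat_lit 3) true (nat_lit 8) true (nat_lit 12) true (nat_lit 0) true (nat_lit 14) true (nat_lit 13) dF4_i21))))))) .leaf) (nat_lit 212994) (nat_lit 665) (.p (nat_lit 407) (nat_lit 1) (.n (nat_lit 409) (nat_lit 4) (.n (nat_lit 410) (nat_lit 3) (.n (nat_lit 411) (nat_lit 5) (.p (nat_lit 413) (nat_lit 1) (.p (nat_lit 414) (nat_lit 3) (.p (nat_lit 415) (nat_lit 2) (.p (nat_lit 416) (nat_lit 1) (.n (nat_lit 418) (nat_lit 1) (.n (nat_lit 419) (nat_lit 4) (.n (nat_lit 420) (nat_lit 2) (.p (nat_lit 421) (nat_lit 2) (.p (nat_lit 422) (nat_lit 1) (.p (nat_lit 423) (nat_lit 6) (.p (nat_lit 424) (nat_lit 4)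 (.p (nat_lit 425) (nat_lit 3) (.p (nat_lit 426) (nat_lit 3) (.n (nat_lit 427) (nat_lit 1) (.n (nat_lit 428) (nat_lit 2) (.p (nat_lit 429) (nat_lit 3) (.p (nat_lit 430) (nat_lit 1) (.p (nat_lit 431) (nat_lit 3) (.p (nat_lit 432) (nat_lit 2) (.p (nat_lit 433) (nat_lit 1) (.n (nat_lit 435) (nat_lit 1) (.p (nat_lit 436) (nat_lit 3) (.n (nat_lit 437) (nat_lit 2) (.n (nat_lit 438) (nat_lit 2) (.p (nat_lit 439) (nat_lit 3) (.p (nat_lit 440) (nat_lit 2) (.p (nat_lit 441) (nat_lit 3) (.p (nat_lit 442) (nat_lit 2) (.p (nat_lit 444) (nat_lit 4) (.n (nat_lit 445) (nat_lit 2) (.n (nat_lit 446) (nat_lit 6) (.p (nat_lit 447) (nat_lit 1) (.n (nat_lit 448) (nat_lit 3) (.n (nat_lit 449) (nat_lit 5) (.p (nat_lit 450) (nat_lit 1) .z))))))))))))))))))))))))))))))))))))))) (.ct dF4_c1052945 (nat_lit 1) (nat_lit 13) (.s false (nat_lit 1) (nat_lit 7) (nat_lit 3) (nat_lit 4) (nat_lit 5) true (nat_lit 1) true (nat_lit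 10) true (nat_lit 9) true (nat_lit 12) true (nat_lit 11) (.s false (nat_lit 1) (nat_lit 7) (nat_lit 4) (nat_lit 3) (nat_lit 5) true (nat_lit 0) true (nat_lit 10) true (nat_lit 9) true (nat_lit 11) true (nat_lit 12) (.s false (nat_lit 1) (nat_lit 7) (nat_lit 4) (nat_lit 5) (nat_lit 3) true (nat_lit 4) true (nat_lit 12) true (nat_lit 9) true (nat_lit 11) true (nat_lit 10) (.s false (nat_lit 1) (nat_lit 7) (nat_lit 5) (nat_lit 4) (nat_lit 3) true (nat_lit 1) true (nat_lit 12) true (nat_lit 9) true (nat_lit 10) true (nat_lit 11) (.s false (nat_lit 1) (nat_lit 9) (nat_lit 4) (nat_lit 5) (nat_lit 2) true (nat_lit 5) true (nat_lit 13) true (nat_lit 8) true (nat_lit 11) true (nat_lit 10) (.s false (nat_lit 1) (nat_lit 20) (nat_lit 0) (nat_lit 2) (nat_lit 3) true (nat_lit 8) true (nat_lit 12) true (nat_lit 0) true (nat_lit 14) true (nat_lit 13) dF4_i27))))))) (.nd (.nd .leaf (nat_lit 214017) (nat_lit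 569) (.p (nat_lit 394) (nat_lit 1) .z) .df .leaf) (nat_lit 214018) (nat_lit 647) (.p (nat_lit 438) (nat_lit 1) .z) .df .leaf)) (nat_lit 215041) (nat_lit 585) (.n (nat_lit 363) (nat_lit 1) (.p (nat_lit 365) (nat_lit 1) (.p (nat_lit 366) (nat_lit 1) (.p (nat_lit 367) (nat_lit 2) (.n (nat_lit 370) (nat_lit 1) (.n (nat_lit 371) (nat_lit 1) (.n (nat_lit 372) (nat_lit 1) (.p (nat_lit 375) (nat_lit 1) (.n (nat_lit 379) (nat_lit 2) (.n (nat_lit 380) (nat_lit 1) (.n (nat_lit 381) (nat_lit 1) (.n (nat_lit 382) (nat_lit 1) (.p (nat_lit 384) (nat_lit 1) (.n (nat_lit 385) (nat_lit 1) (.n (nat_lit 387) (nat_lit 1) (.n (nat_lit 388) (nat_lit 1) (.n (nat_lit 389) (nat_lit 1) (.n (nat_lit 392) (nat_lit 1) (.p (nat_lit 393) (nat_lit 1) (.n (nat_lit 395) (nat_lit 1) (.p (nat_lit 399) (nat_lit 1) (.p (nat_lit 402) (nat_lit 1) (.n (nat_lit 403) (nat_lit 1) (.p (nat_lit 405) (nat_lit 1) (.n (nat_lit 406) (nat_lit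 1) .z))))))))))))))))))))))))) (.ct dF4_c1114385 (nat_lit 1) (nat_lit 13) (.s true (nat_lit 1) (nat_lit 12) (nat_lit 1) (nat_lit 5) (nat_lit 3) true (nat_lit 7) true (nat_lit 12) true (nat_lit 6) true (nat_lit 13) true (nat_lit 10) (.s true (nat_lit 1) (nat_lit 12) (nat_lit 3) (nat_lit 5) (nat_lit 1) true (nat_lit 7) true (nat_lit 13) true (nat_lit 6) true (nat_lit 12) true (nat_lit 10) (.s true (nat_lit 1) (nat_lit 15) (nat_lit 1) (nat_lit 0) (nat_lit 5) true (nat_lit 2) true (nat_lit 10) true (nat_lit 4) true (nat_lit 13) true (nat_lit 14) (.s false (nat_lit 1) (nat_lit 17) (nat_lit 4) (nat_lit 3) (nat_lit 0) true (nat_lit 6) true (nat_lit 14) true (nat_lit 2) true (nat_lit 11) true (nat_lit 12) (.s true (nat_lit 1) (nat_lit 19) (nat_lit 0) (nat_lit 1) (nat_lit 4) true (nat_lit 6) true (nat_lit 11) true (nat_lit 1) true (nat_lit 14) true (nat_lit 13) dF4_i20)))))) (.nd (.nd (.nd .leaf (nat_lit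 215042) (nat_lit 663) (.n (nat_lit 407) (nat_lit 1) (.p (nat_lit 409) (nat_lit 1) (.p (nat_lit 410) (nat_lit 1) (.p (nat_lit 411) (nat_lit 2) (.n (nat_lit 414) (nat_lit 1) (.n (nat_lit 415) (nat_lit 1) (.n (nat_lit 416) (nat_lit 1) (.p (nat_lit 419) (nat_lit 1) (.n (nat_lit 423) (nat_lit 2) (.n (nat_lit 424) (nat_lit 1) (.n (nat_lit 425) (nat_lit 1) (.n (nat_lit 426) (nat_lit 1) (.p (nat_lit 428) (nat_lit 1) (.n (nat_lit 429) (nat_lit 1) (.n (nat_lit 431) (nat_lit 1) (.n (nat_lit 432) (nat_lit 1) (.n (nat_lit 433) (nat_lit 1) (.n (nat_lit 436) (nat_lit 1) (.p (nat_lit 437) (nat_lit 1) (.n (nat_lit 439) (nat_lit 1) (.p (nat_lit 443) (nat_lit 1) (.p (nat_lit 446) (nat_lit 1) (.n (nat_lit 447) (nat_lit 1) (.p (nat_lit 449) (nat_lit 1) (.n (nat_lit 450) (nat_lit 1) .z))))))))))))))))))))))))) (.ct dF4_c1052945 (nat_lit 1) (nat_lit 13) (.s true (nat_lit 1) (nat_lit 12) (nat_lit 2) (nat_lit 5) (nat_lit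 3) true (nat_lit 7) true (nat_lit 12) true (nat_lit 6) true (nat_lit 13) true (nat_lit 10) (.s true (nat_lit 1) (nat_lit 12) (nat_lit 3) (nat_lit 5) (nat_lit 2) true (nat_lit 7) true (nat_lit 13) true (nat_lit 6) true (nat_lit 12) true (nat_lit 10) (.s true (nat_lit 1) (nat_lit 15) (nat_lit 2) (nat_lit 0) (nat_lit 5) true (nat_lit 2) true (nat_lit 10) true (nat_lit 4) true (nat_lit 13) true (nat_lit 14) (.s false (nat_lit 1) (nat_lit 18) (nat_lit 4) (nat_lit 3) (nat_lit 0) true (nat_lit 6) true (nat_lit 14) true (nat_lit 2) true (nat_lit 11) true (nat_lit 12) (.s true (nat_lit 1) (nat_lit 19) (nat_lit 0) (nat_lit 2) (nat_lit 4) true (nat_lit 6) true (nat_lit 11) true (nat_lit 1) true (nat_lit 14) true (nat_lit 13) dF4_i26)))))) .leaf) (nat_lit 216064) (nat_lit 570) (.p (nat_lit 395) (nat_lit 1) .z) .df .leaf) (nat_lit 216066) (nat_lit 720) (.p (nat_lit 477) (nat_lit 1) .z) .df (.nd (.nd .leaf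 (nat_lit 217088) (nat_lit 571) (.p (nat_lit 396) (nat_lit 1) .z) .df .leaf) (nat_lit 217090) (nat_lit 721) (.p (nat_lit 478) (nat_lit 1) .z) .df .leaf))) (nat_lit 218112) (nat_lit 572) (.p (nat_lit 397) (nat_lit 1) .z) .df (.nd (.nd (.nd (.nd .leaf (nat_lit 218114) (nat_lit 722) (.p (nat_lit 479) (nat_lit 1) .z) .df .leaf) (nat_lit 219136) (nat_lit 573) (.p (nat_lit 398) (nat_lit 1) .z) .df .leaf) (nat_lit 219138) (nat_lit 723) (.p (nat_lit 480) (nat_lit 1) .z) .df (.nd (.nd .leaf (nat_lit 220160) (nat_lit 574) (.p (nat_lit 399) (nat_lit 1) .z) .df .leaf) (nat_lit 220162) (nat_lit 724) (.p (nat_lit 481) (nat_lit 1) .z) .df .leaf)) (nat_lit 221184) (nat_lit 575) (.p (nat_lit 400) (nat_lit 1) .z) .df (.nd (.nd (.nd .leaf (nat_lit 221186) (nat_lit 744) (.p (nat_lit 451) (nat_lit 1) (.p (nat_lit 452) (nat_lit 1) (.n (nat_lit 453) (nat_lit 2) (.n (nat_lit 454) (nat_lit 1) (.n (nat_lit 455) (nat_lit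 2) (.p (nat_lit 456) (nat_lit 1) (.p (nat_lit 458) (nat_lit 1) (.n (nat_lit 460) (nat_lit 1) (.n (nat_lit 461) (nat_lit 1) (.n (nat_lit 463) (nat_lit 1) (.n (nat_lit 464) (nat_lit 2) (.p (nat_lit 465) (nat_lit 1) (.p (nat_lit 466) (nat_lit 1) (.p (nat_lit 467) (nat_lit 2) (.p (nat_lit 468) (nat_lit 2) (.p (nat_lit 469) (nat_lit 1) (.n (nat_lit 471) (nat_lit 1) (.n (nat_lit 472) (nat_lit 1) (.p (nat_lit 474) (nat_lit 2) (.p (nat_lit 475) (nat_lit 1) (.p (nat_lit 476) (nat_lit 2) (.n (nat_lit 477) (nat_lit 1) (.n (nat_lit 478) (nat_lit 1) (.p (nat_lit 480) (nat_lit 2) (.n (nat_lit 482) (nat_lit 3) (.p (nat_lit 483) (nat_lit 2) (.p (nat_lit 484) (nat_lit 2) (.p (nat_lit 485) (nat_lit 1) (.p (nat_lit 488) (nat_lit 3) (.n (nat_lit 489) (nat_lit 1) (.n (nat_lit 490) (nat_lit 3) (.p (nat_lit 491) (nat_lit 2) (.n (nat_lit 492) (nat_lit 2) (.n (nat_lit 493) (nat_lit 3) (.p (nat_lit 494) (nat_lit 1)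 .z))))))))))))))))))))))))))))))))))) (.ct dF4_c69905 (nat_lit 1) (nat_lit 13) (.s false (nat_lit 1) (nat_lit 8) (nat_lit 3) (nat_lit 4) (nat_lit 5) true (nat_lit 1) true (nat_lit 10) true (nat_lit 9) true (nat_lit 12) true (nat_lit 11) (.s false (nat_lit 1) (nat_lit 8) (nat_lit 4) (nat_lit 3) (nat_lit 5) true (nat_lit 0) true (nat_lit 10) true (nat_lit 9) true (nat_lit 11) true (nat_lit 12) (.s true (nat_lit 1) (nat_lit 11) (nat_lit 4) (nat_lit 5) (nat_lit 1) true (nat_lit 6) true (nat_lit 14) true (nat_lit 7) true (nat_lit 11) true (nat_lit 10) (.s true (nat_lit 1) (nat_lit 20) (nat_lit 2) (nat_lit 1) (nat_lit 3) true (nat_lit 7) true (nat_lit 12) true (nat_lit 0) true (nat_lit 13) true (nat_lit 14) dF4_i34))))) .leaf) (nat_lit 222208) (nat_lit 576) (.p (nat_lit 401) (nat_lit 1) .z) .df .leaf) (nat_lit 222210) (nat_lit 747) (.p (nat_lit 451) (nat_lit 1) (.p (nat_lit 452) (nat_lit 2) (.p (nat_lit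 455) (nat_lit 1) (.p (nat_lit 456) (nat_lit 2) (.n (nat_lit 457) (nat_lit 1) (.n (nat_lit 458) (nat_lit 1) (.n (nat_lit 459) (nat_lit 2) (.n (nat_lit 460) (nat_lit 2) (.n (nat_lit 461) (nat_lit 1) (.p (nat_lit 462) (nat_lit 1) (.p (nat_lit 463) (nat_lit 2) (.n (nat_lit 464) (nat_lit 1) (.n (nat_lit 467) (nat_lit 2) (.n (nat_lit 468) (nat_lit 1) (.n (nat_lit 469) (nat_lit 1) (.n (nat_lit 470) (nat_lit 2) (.n (nat_lit 471) (nat_lit 1) (.n (nat_lit 473) (nat_lit 2) (.p (nat_lit 474) (nat_lit 2) (.n (nat_lit 475) (nat_lit 1) (.p (nat_lit 476) (nat_lit 1) (.n (nat_lit 477) (nat_lit 2) (.n (nat_lit 478) (nat_lit 1) (.p (nat_lit 479) (nat_lit 2) (.p (nat_lit 480) (nat_lit 1) (.p (nat_lit 481) (nat_lit 2) (.n (nat_lit 482) (nat_lit 3) (.p (nat_lit 484) (nat_lit 1) (.n (nat_lit 485) (nat_lit 2) (.n (nat_lit 486) (nat_lit 2) (.p (nat_lit 489) (nat_lit 1) (.p (nat_lit 490) (nat_lit 1) (.p (nat_lit 491)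 (nat_lit 2) (.n (nat_lit 492) (nat_lit 1) (.p (nat_lit 494) (nat_lit 2) .z))))))))))))))))))))))))))))))))))) (.ct dF4_c69905 (nat_lit 1) (nat_lit 13) (.s false (nat_lit 1) (nat_lit 15) (nat_lit 2) (nat_lit 1) (nat_lit 5) true (nat_lit 2) true (nat_lit 10) true (nat_lit 4) true (nat_lit 13) true (nat_lit 14) (.e false (nat_lit 1) (nat_lit 47) (nat_lit 18) (nat_lit 2) (.e false (nat_lit 1) (nat_lit 121) (nat_lit 5) (nat_lit 10) (.e true (nat_lit 1) (nat_lit 123) (nat_lit 5) (nat_lit 10) (.e true (nat_lit 1) (nat_lit 124) (nat_lit 5) (nat_lit 10) (.e true (nat_lit 1) (nat_lit 125) (nat_lit 5) (nat_lit 10) (.e false (nat_lit 1) (nat_lit 128) (nat_lit 5) (nat_lit 10) (.e false (nat_lit 1) (nat_lit 129) (nat_lit 5) (nat_lit 10) (.e false (nat_lit 1) (nat_lit 130) (nat_lit 5) (nat_lit 10) (.e false (nat_lit 1) (nat_lit 57) (nat_lit 15) (nat_lit 4) (.e false (nat_lit 1) (nat_lit 213) (nat_lit 2) (nat_lit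 13) (.e false (nat_lit 1) (nat_lit 214) (nat_lit 2) (nat_lit 13) (.e false (nat_lit 1) (nat_lit 215) (nat_lit 2) (nat_lit 13) (.e false (nat_lit 1) (nat_lit 216) (nat_lit 2) (nat_lit 13) (.e true (nat_lit 1) (nat_lit 218) (nat_lit 2) (nat_lit 13) (.e true (nat_lit 1) (nat_lit 219) (nat_lit 2) (nat_lit 13) (.e true (nat_lit 1) (nat_lit 220) (nat_lit 2) (nat_lit 13) (.e true (nat_lit 1) (nat_lit 230) (nat_lit 1) (nat_lit 14) .nil))))))))))))))))))) (.nd (.nd .leaf (nat_lit 223232) (nat_lit 577) (.p (nat_lit 402) (nat_lit 1) .z) .df .leaf) (nat_lit 223234) (nat_lit 743) (.p (nat_lit 451) (nat_lit 1) (.n (nat_lit 453) (nat_lit 4) (.n (nat_lit 454) (nat_lit 3) (.n (nat_lit 455) (nat_lit 5) (.p (nat_lit 457) (nat_lit 1) (.p (nat_lit 458) (nat_lit 3) (.p (nat_lit 459) (nat_lit 2) (.p (nat_lit 460) (nat_lit 1) (.n (nat_lit 462) (nat_lit 1) (.n (nat_lit 463) (nat_lit 4) (.n (nat_lit 464) (nat_lit 2)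 (.p (nat_lit 465) (nat_lit 2) (.p (nat_lit 466) (nat_lit 1) (.p (nat_lit 467) (nat_lit 6) (.p (nat_lit 468) (nat_lit 4) (.p (nat_lit 469) (nat_lit 3) (.p (nat_lit 470) (nat_lit 3) (.n (nat_lit 471) (nat_lit 1) (.n (nat_lit 472) (nat_lit 2) (.p (nat_lit 473) (nat_lit 3) (.p (nat_lit 474) (nat_lit 1) (.p (nat_lit 475) (nat_lit 3) (.p (nat_lit 476) (nat_lit 2) (.p (nat_lit 477) (nat_lit 1) (.n (nat_lit 479) (nat_lit 1) (.p (nat_lit 480) (nat_lit 3) (.n (nat_lit 481) (nat_lit 2) (.n (nat_lit 482) (nat_lit 2) (.p (nat_lit 483) (nat_lit 3) (.p (nat_lit 484) (nat_lit 2) (.p (nat_lit 485) (nat_lit 3) (.p (nat_lit 486) (nat_lit 2) (.p (nat_lit 488) (nat_lit 4) (.n (nat_lit 489) (nat_lit 2) (.n (nat_lit 490) (nat_lit 6) (.p (nat_lit 491) (nat_lit 1) (.n (nat_lit 492) (nat_lit 3) (.n (nat_lit 493) (nat_lit 5) (.p (nat_lit 494) (nat_lit 1) .z))))))))))))))))))))))))))))))))))))))) (.ct dF4_c69905 (nat_lit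 1) (nat_lit 13) (.s false (nat_lit 1) (nat_lit 8) (nat_lit 3) (nat_lit 4) (nat_lit 5) true (nat_lit 1) true (nat_lit 10) true (nat_lit 9) true (nat_lit 12) true (nat_lit 11) (.s false (nat_lit 1) (nat_lit 8) (nat_lit 4) (nat_lit 3) (nat_lit 5) true (nat_lit 0) true (nat_lit 10) true (nat_lit 9) true (nat_lit 11) true (nat_lit 12) (.s false (nat_lit 1) (nat_lit 8) (nat_lit 4) (nat_lit 5) (nat_lit 3) true (nat_lit 4) true (nat_lit 12) true (nat_lit 9) true (nat_lit 11) true (nat_lit 10) (.s false (nat_lit 1) (nat_lit 8) (nat_lit 5) (nat_lit 4) (nat_lit 3) true (nat_lit 1) true (nat_lit 12) true (nat_lit 9) true (nat_lit 10) true (nat_lit 11) (.s false (nat_lit 1) (nat_lit 10) (nat_lit 4) (nat_lit 5) (nat_lit 2) true (nat_lit 5) true (nat_lit 13) true (nat_lit 8) true (nat_lit 11) true (nat_lit 10) (.s false (nat_lit 1) (nat_lit 20) (nat_lit 1) (nat_lit 2) (nat_lit 3) true (nat_lit 8) true (nat_lit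 12) true (nat_lit 0) true (nat_lit 14) true (nat_lit 13) dF4_i33))))))) .leaf)))) (nat_lit 224256) (nat_lit 578) (.p (nat_lit 403) (nat_lit 1) .z) .df (.nd (.nd (.nd (.nd (.nd .leaf (nat_lit 224258) (nat_lit 725) (.p (nat_lit 482) (nat_lit 1) .z) .df .leaf) (nat_lit 225280) (nat_lit 579) (.p (nat_lit 404) (nat_lit 1) .z) .df .leaf) (nat_lit 225282) (nat_lit 741) (.n (nat_lit 451) (nat_lit 1) (.p (nat_lit 453) (nat_lit 1) (.p (nat_lit 454) (nat_lit 1) (.p (nat_lit 455) (nat_lit 2) (.n (nat_lit 458) (nat_lit 1) (.n (nat_lit 459) (nat_lit 1) (.n (nat_lit 460) (nat_lit 1) (.p (nat_lit 463) (nat_lit 1) (.n (nat_lit 467) (nat_lit 2) (.n (nat_lit 468) (nat_lit 1) (.n (nat_lit 469) (nat_lit 1) (.n (nat_lit 470) (nat_lit 1) (.p (nat_lit 472) (nat_lit 1) (.n (nat_lit 473) (nat_lit 1) (.n (nat_lit 475) (nat_lit 1) (.n (nat_lit 476) (nat_lit 1) (.n (nat_lit 477) (nat_lit 1) (.n (nat_lit 480) (nat_lit 1)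 (.p (nat_lit 481) (nat_lit 1) (.n (nat_lit 483) (nat_lit 1) (.p (nat_lit 487) (nat_lit 1) (.p (nat_lit 490) (nat_lit 1) (.n (nat_lit 491) (nat_lit 1) (.p (nat_lit 493) (nat_lit 1) (.n (nat_lit 494) (nat_lit 1) .z))))))))))))))))))))))))) (.ct dF4_c69905 (nat_lit 1) (nat_lit 13) (.s true (nat_lit 1) (nat_lit 13) (nat_lit 2) (nat_lit 5) (nat_lit 3) true (nat_lit 7) true (nat_lit 12) true (nat_lit 6) true (nat_lit 13) true (nat_lit 10) (.s true (nat_lit 1) (nat_lit 13) (nat_lit 3) (nat_lit 5) (nat_lit 2) true (nat_lit 7) true (nat_lit 13) true (nat_lit 6) true (nat_lit 12) true (nat_lit 10) (.s true (nat_lit 1) (nat_lit 15) (nat_lit 2) (nat_lit 1) (nat_lit 5) true (nat_lit 2) true (nat_lit 10) true (nat_lit 4) true (nat_lit 13) true (nat_lit 14) (.s false (nat_lit 1) (nat_lit 18) (nat_lit 4) (nat_lit 3) (nat_lit 1) true (nat_lit 6) true (nat_lit 14) true (nat_lit 2) true (nat_lit 11) true (nat_lit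 12) (.s true (nat_lit 1) (nat_lit 19) (nat_lit 1) (nat_lit 2) (nat_lit 4) true (nat_lit 6) true (nat_lit 11) true (nat_lit 1) true (nat_lit 14) true (nat_lit 13) dF4_i32)))))) (.nd (.nd .leaf (nat_lit 226304) (nat_lit 648) (.p (nat_lit 439) (nat_lit 1) .z) .df .leaf) (nat_lit 226305) (nat_lit 726) (.p (nat_lit 483) (nat_lit 1) .z) .df .leaf)) (nat_lit 227328) (nat_lit 649) (.p (nat_lit 440) (nat_lit 1) .z) .df (.nd (.nd (.nd .leaf (nat_lit 227329) (nat_lit 727) (.p (nat_lit 484) (nat_lit 1) .z) .df .leaf) (nat_lit 228352) (nat_lit 650) (.p (nat_lit 441) (nat_lit 1) .z) .df .leaf) (nat_lit 228353) (nat_lit 728) (.p (nat_lit 485) (nat_lit 1) .z) .df (.nd (.nd .leaf (nat_lit 229376) (nat_lit 651) (.p (nat_lit 442) (nat_lit 1) .z) .df .leaf) (nat_lit 229377) (nat_lit 729) (.p (nat_lit 486) (nat_lit 1) .z) .df .leaf))) (nat_lit 230400) (nat_lit 652) (.p (nat_lit 443) (nat_lit 1) .z) .df (.nd (.nd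 (.nd (.nd .leaf (nat_lit 230401) (nat_lit 730) (.p (nat_lit 487) (nat_lit 1) .z) .df .leaf) (nat_lit 231424) (nat_lit 653) (.p (nat_lit 444) (nat_lit 1) .z) .df .leaf) (nat_lit 231425) (nat_lit 731) (.p (nat_lit 488) (nat_lit 1) .z) .df (.nd (.nd .leaf (nat_lit 232448) (nat_lit 654) (.p (nat_lit 445) (nat_lit 1) .z) .df .leaf) (nat_lit 232449) (nat_lit 732) (.p (nat_lit 489) (nat_lit 1) .z) .df .leaf)) (nat_lit 233472) (nat_lit 655) (.p (nat_lit 446) (nat_lit 1) .z) .df (.nd (.nd (.nd .leaf (nat_lit 233473) (nat_lit 733) (.p (nat_lit 490) (nat_lit 1) .z) .df .leaf) (nat_lit 234496) (nat_lit 656) (.p (nat_lit 447) (nat_lit 1) .z) .df .leaf) (nat_lit 234497) (nat_lit 734) (.p (nat_lit 491) (nat_lit 1) .z) .df (.nd (.nd .leaf (nat_lit 235520) (nat_lit 657) (.p (nat_lit 448) (nat_lit 1) .z) .df .leaf) (nat_lit 235521) (nat_lit 735) (.p (nat_lit 492) (nat_lit 1) .z) .df .leaf))))))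

noncomputable def dF4_t12 : Tr := (.nd dF4_t10 (nat_lit 187393) (nat_lit 487) (.p (nat_lit 347) (nat_lit 1) .z) .df dF4_t11)

noncomputable def dF4_t13 : Tr := (.nd dF4_t9 (nat_lit 137220) (nat_lit 507) (.p (nat_lit 321) (nat_lit 2) (.p (nat_lit 322) (nat_lit 2) (.p (nat_lit 323) (nat_lit 2) (.n (nat_lit 325) (nat_lit 1) (.n (nat_lit 326) (nat_lit 1) (.n (nat_lit 327) (nat_lit 1) (.p (nat_lit 331) (nat_lit 1) (.p (nat_lit 332) (nat_lit 1) (.n (nat_lit 333) (nat_lit 1) (.n (nat_lit 335) (nat_lit 2) (.n (nat_lit 336) (nat_lit 1) (.n (nat_lit 337) (nat_lit 1) (.n (nat_lit 338) (nat_lit 2) (.p (nat_lit 339) (nat_lit 1) (.p (nat_lit 340) (nat_lit 1) (.n (nat_lit 341) (nat_lit 2) (.n (nat_lit 343) (nat_lit 1) (.p (nat_lit 347) (nat_lit 1) (.n (nat_lit 348) (nat_lit 1) (.p (nat_lit 349) (nat_lit 1) (.p (nat_lit 350) (nat_lit 1) (.n (nat_lit 351) (nat_lit 1) (.n (nat_lit 352) (nat_lit 1) (.n (nat_lit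 353) (nat_lit 2) (.n (nat_lit 354) (nat_lit 1) (.n (nat_lit 355) (nat_lit 1) (.n (nat_lit 356) (nat_lit 2) (.p (nat_lit 357) (nat_lit 1) (.p (nat_lit 358) (nat_lit 3) (.p (nat_lit 360) (nat_lit 2) (.p (nat_lit 361) (nat_lit 3) (.n (nat_lit 362) (nat_lit 1) .z)))))))))))))))))))))))))))))))) (.ct dF4_c1118225 (nat_lit 1) (nat_lit 11) (.s true (nat_lit 1) (nat_lit 13) (nat_lit 0) (nat_lit 2) (nat_lit 5) true (nat_lit 3) true (nat_lit 10) true (nat_lit 5) true (nat_lit 14) true (nat_lit 12) (.s false (nat_lit 1) (nat_lit 14) (nat_lit 5) (nat_lit 0) (nat_lit 1) true (nat_lit 2) true (nat_lit 13) true (nat_lit 4) true (nat_lit 10) true (nat_lit 14) (.s false (nat_lit 1) (nat_lit 16) (nat_lit 4) (nat_lit 1) (nat_lit 2) true (nat_lit 4) true (nat_lit 12) true (nat_lit 3) true (nat_lit 11) true (nat_lit 13) (.e false (nat_lit 1) (nat_lit 54) (nat_lit 13) (nat_lit 5) (.e false (nat_lit 1) (nat_lit 191)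 (nat_lit 0) (nat_lit 14) (.e true (nat_lit 1) (nat_lit 195) (nat_lit 0) (nat_lit 14) (.e false (nat_lit 1) (nat_lit 199) (nat_lit 0) (nat_lit 14) (.e false (nat_lit 1) (nat_lit 200) (nat_lit 0) (nat_lit 14) (.e false (nat_lit 1) (nat_lit 180) (nat_lit 2) (nat_lit 12) (.e true (nat_lit 1) (nat_lit 38) (nat_lit 17) (nat_lit 2) (.e false (nat_lit 1) (nat_lit 190) (nat_lit 1) (nat_lit 13) (.e false (nat_lit 1) (nat_lit 92) (nat_lit 5) (nat_lit 10) (.e true (nat_lit 1) (nat_lit 98) (nat_lit 5) (nat_lit 10) (.e true (nat_lit 1) (nat_lit 100) (nat_lit 5) (nat_lit 10) (.e true (nat_lit 1) (nat_lit 193) (nat_lit 0) (nat_lit 14) (.e false (nat_lit 1) (nat_lit 178) (nat_lit 2) (nat_lit 12) (.e true (nat_lit 1) (nat_lit 133) (nat_lit 4) (nat_lit 11) (.e true (nat_lit 1) (nat_lit 135) (nat_lit 4) (nat_lit 11) (.e true (nat_lit 1) (nat_lit 136) (nat_lit 4) (nat_lit 11) (.e false (nat_lit 1) (nat_lit 137)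 (nat_lit 4) (nat_lit 11) (.e false (nat_lit 1) (nat_lit 138) (nat_lit 4) (nat_lit 11) (.e false (nat_lit 1) (nat_lit 139) (nat_lit 4) (nat_lit 11) (.e false (nat_lit 1) (nat_lit 140) (nat_lit 4) (nat_lit 11) (.e true (nat_lit 1) (nat_lit 185) (nat_lit 1) (nat_lit 13) .nil))))))))))))))))))))))))) dF4_t12)

noncomputable def dF4_t14 : Tr := (.nd dF4_t6 (nat_lit 67588) (nat_lit 288) (.p (nat_lit 224) (nat_lit 1) .z) .df dF4_t13)

noncomputable def dF4_cl : CL := (.c (nat_lit 1048576) (nat_lit 0) (nat_lit 1) (.c (nat_lit 65536) (nat_lit 1) (nat_lit 1) (.c (nat_lit 4096) (nat_lit 2) (nat_lit 1) (.c (nat_lit 256) (nat_lit 3) (nat_lit 1) (.c (nat_lit 16) (nat_lit 4) (nat_lit 1) (.c (nat_lit 1) (nat_lit 5) (nat_lit 1) (.c (nat_lit 1114112) (nat_lit 6) (nat_lit 1) (.c (nat_lit 1052672) (nat_lit 7) (nat_lit 1) (.c (nat_lit 69632) (nat_lit 8) (nat_lit 1) (.c (nat_lit 1048832) (nat_lit 9) (nat_lit 1)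 (.c (nat_lit 65792) (nat_lit 10) (nat_lit 1) (.c (nat_lit 4352) (nat_lit 11) (nat_lit 1) (.c (nat_lit 1048592) (nat_lit 12) (nat_lit 1) (.c (nat_lit 65552) (nat_lit 13) (nat_lit 1) (.c (nat_lit 4112) (nat_lit 14) (nat_lit 1) (.c (nat_lit 272) (nat_lit 15) (nat_lit 1) (.c (nat_lit 1048577) (nat_lit 16) (nat_lit 1) (.c (nat_lit 65537) (nat_lit 17) (nat_lit 1) (.c (nat_lit 4097) (nat_lit 18) (nat_lit 1) (.c (nat_lit 257) (nat_lit 19) (nat_lit 1) (.c (nat_lit 17) (nat_lit 20) (nat_lit 1) (.c (nat_lit 1118208) (nat_lit 21) (nat_lit 3) (.c (nat_lit 1114368) (nat_lit 24) (nat_lit 3) (.c (nat_lit 1052928) (nat_lit 27) (nat_lit 3) (.c (nat_lit 69888) (nat_lit 30) (nat_lit 3) (.c (nat_lit 1114128) (nat_lit 33) (nat_lit 3) (.c (nat_lit 1052688) (nat_lit 36) (nat_lit 3) (.c (nat_lit 69648) (nat_lit 39) (nat_lit 3) (.c (nat_lit 1048848) (nat_lit 42) (nat_lit 3) (.c (nat_lit 65808) (nat_lit 45) (nat_lit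 3) (.c (nat_lit 4368) (nat_lit 48) (nat_lit 3) (.c (nat_lit 1114113) (nat_lit 51) (nat_lit 3) (.c (nat_lit 1052673) (nat_lit 54) (nat_lit 3) (.c (nat_lit 69633) (nat_lit 57) (nat_lit 3) (.c (nat_lit 1048833) (nat_lit 60) (nat_lit 3) (.c (nat_lit 65793) (nat_lit 63) (nat_lit 3) (.c (nat_lit 4353) (nat_lit 66) (nat_lit 3) (.c (nat_lit 1048593) (nat_lit 69) (nat_lit 3) (.c (nat_lit 65553) (nat_lit 72) (nat_lit 3) (.c (nat_lit 4113) (nat_lit 75) (nat_lit 3) (.c (nat_lit 273) (nat_lit 78) (nat_lit 3) (.c (nat_lit 1118464) (nat_lit 81) (nat_lit 10) (.c (nat_lit 1118224) (nat_lit 91) (nat_lit 10) (.c (nat_lit 1114384) (nat_lit 101) (nat_lit 10) (.c (nat_lit 1052944) (nat_lit 111) (nat_lit 10) (.c (nat_lit 69904) (nat_lit 121) (nat_lit 10) (.c (nat_lit 1118209) (nat_lit 131) (nat_lit 10) (.c (nat_lit 1114369) (nat_lit 141) (nat_lit 10) (.c (nat_lit 1052929) (nat_lit 151) (nat_lit 10) (.c (nat_lit 69889)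 (nat_lit 161) (nat_lit 10) (.c (nat_lit 1114129) (nat_lit 171) (nat_lit 10) (.c (nat_lit 1052689) (nat_lit 181) (nat_lit 10) (.c (nat_lit 69649) (nat_lit 191) (nat_lit 10) (.c (nat_lit 1048849) (nat_lit 201) (nat_lit 10) (.c (nat_lit 65809) (nat_lit 211) (nat_lit 10) (.c (nat_lit 4369) (nat_lit 221) (nat_lit 10) (.c (nat_lit 1118480) (nat_lit 231) (nat_lit 44) (.c (nat_lit 1118465) (nat_lit 275) (nat_lit 44) (.c (nat_lit 1118225) (nat_lit 319) (nat_lit 44) (.c (nat_lit 1114385) (nat_lit 363) (nat_lit 44) (.c (nat_lit 1052945) (nat_lit 407) (nat_lit 44) (.c (nat_lit 69905) (nat_lit 451) (nat_lit 44) .nil))))))))))))))))))))))))))))))))))))))))))))))))))))))))))))))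

noncomputable def dF4_D : Dt := ⟨(nat_lit 4294967296), (nat_lit 2147483648), (nat_lit 1), (nat_lit 495), (nat_lit 1199347441213120189722302386344331235288704315539549676172979958912764923483682255063360767066720603627978242636221839929162427291670653883180762253955115468076957001388402475540826105288901729463146835255475940214956553736023231111070988016609792547999530742504880111853620998654836503294343787968850193840095270741132389876251904920947494178969791830630925943643019994788030785270818327931567657611202825661644485379836714394159342038880491714944791419782132297099099510098618857145416945960775239071317063773958448410286112022768901293105946127052878564010941836662571714447713873257667526805176939858287180821972991389887666932066917558357765725791013972379480860430204163820134830379903527737386428343058389500569560855049902584565762298842735353615189936257182293606371833899658293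153173361303675018291455195920088827910000762641414893898787152295948649571868763555345123169160469886340218881608583613884401655591399881238258232740847296433955577309445618579356676392877421197229918318273769622942884387373760429335072861012265239032016397026515630184532915736352701699321947373650212089244613338859839502932545180060060330699579017215902760871937212397956062409611860326666769710234490625099518239821778255253105729648709485221636011182036166921346832594477660885106284099095153087726245448792339446395405631974308521229146385680466408111707899198185757201922727132337800046411120415697076740266108935685668822092454480994278318569701058792265295449768005191688673973380409383908989777063124615804701771031422053323160879700794289212596938530700674250292970989338050684369972802249268571165032936625905992444830126949995432006132151225727896297367192992764991299164983939549128487661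795576050831690571400222513519517911867880163221269316638684997427394087829118173129420555691191108823596279435375507767731601610460824256931969461150202827586688348568789315936373713638130803422048831556378101851020697163791057322809117844930473111144501197846119549696133336331854096319905783153442404572651986087745081870783014073808215303914507755083483487479047966843379538129487329708717040827004955182112451288050205971416519887306364370714174500865989376218108972702433154986934306123048688143242436920248596170354893970881339744097728435378742892722902032261160441876411470011637003992672854078001397882028801746414995846104282463588928905665438902105350321140766050303628698926654097390906345792692258924405294423360601046595918456469774030082597968648197387357244941119803998661617107849810921672977423190705216355416557683630970371500860095321876598206264408944123006024597451889422658858282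7045398024898114309373472060969946843023869604310474205006431324834766815406816057039672123409700546067257600448419079548422276109475034669727976561697424588725667735511281103229038701078889872801488738857152515122533660908362471159516526521516097006700894267286024405402973884561652056604034254160728267662625811254760729455675190357605956386138734363560098417652861563473441201933430748130579916400343880574841785780233670102189130067962735033872769879850186524424349193672737920067179962146464256568198080964630748257535269451039617155563352500635751718789871348652875064361542041355214380265594024611826330866390440378769030103521227035014726261475785822772007987600524894405567159495045181142910225307781206575301331670887051756906529544619982480788301771056281387990489194447780873839096135346103139369041470027551839524223873066944758002851145596721038951299259447797655771536935975088156504921428337643144785784656955500059724245684781679623393254727628582278736122071744525),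 (nat_lit 0), dF4_t14, dF4_cl⟩

noncomputable def dF4_gs : BL := (.c (nat_lit 51) (nat_lit 3) (nat_lit 48) (nat_lit 3) (nat_lit 0) (.c (nat_lit 54) (nat_lit 3) (nat_lit 45) (nat_lit 3) (nat_lit 9) (.c (nat_lit 57) (nat_lit 3) (nat_lit 42) (nat_lit 3) (nat_lit 18) (.c (nat_lit 60) (nat_lit 3) (nat_lit 39) (nat_lit 3) (nat_lit 27) (.c (nat_lit 63) (nat_lit 3) (nat_lit 36) (nat_lit 3) (nat_lit 36) (.c (nat_lit 66) (nat_lit 3) (nat_lit 33) (nat_lit 3) (nat_lit 45) (.c (nat_lit 69) (nat_lit 3) (nat_lit 30) (nat_lit 3) (nat_lit 54) (.c (nat_lit 72) (nat_lit 3) (nat_lit 27) (nat_lit 3) (nat_lit 63) (.c (nat_lit 75) (nat_lit 3) (nat_lit 24) (nat_lit 3) (nat_lit 72) (.c (nat_lit 78) (nat_lit 3) (nat_lit 21) (nat_lit 3) (nat_lit 81) (.c (nat_lit 81) (nat_lit 10) (nat_lit 20) (nat_lit 1) (nat_lit 90) (.c (nat_lit 91) (nat_lit 10) (nat_lit 19) (nat_lit 1) (nat_lit 100) (.c (nat_lit 101) (nat_lit 10) (nat_lit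 18) (nat_lit 1) (nat_lit 110) (.c (nat_lit 111) (nat_lit 10) (nat_lit 17) (nat_lit 1) (nat_lit 120) (.c (nat_lit 121) (nat_lit 10) (nat_lit 16) (nat_lit 1) (nat_lit 130) (.c (nat_lit 131) (nat_lit 10) (nat_lit 15) (nat_lit 1) (nat_lit 140) (.c (nat_lit 141) (nat_lit 10) (nat_lit 14) (nat_lit 1) (nat_lit 150) (.c (nat_lit 151) (nat_lit 10) (nat_lit 13) (nat_lit 1) (nat_lit 160) (.c (nat_lit 161) (nat_lit 10) (nat_lit 12) (nat_lit 1) (nat_lit 170) (.c (nat_lit 171) (nat_lit 10) (nat_lit 11) (nat_lit 1) (nat_lit 180) (.c (nat_lit 181) (nat_lit 10) (nat_lit 10) (nat_lit 1) (nat_lit 190) (.c (nat_lit 191) (nat_lit 10) (nat_lit 9) (nat_lit 1) (nat_lit 200) (.c (nat_lit 201) (nat_lit 10) (nat_lit 8) (nat_lit 1) (nat_lit 210) (.c (nat_lit 211) (nat_lit 10) (nat_lit 7) (nat_lit 1) (nat_lit 220) (.c (nat_lit 221) (nat_lit 10) (nat_lit 6) (nat_lit 1) (nat_lit 230) (.c (nat_lit 231) (nat_lit 44) (nat_lit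 5) (nat_lit 1) (nat_lit 240) (.c (nat_lit 275) (nat_lit 44) (nat_lit 4) (nat_lit 1) (nat_lit 284) (.c (nat_lit 319) (nat_lit 44) (nat_lit 3) (nat_lit 1) (nat_lit 328) (.c (nat_lit 363) (nat_lit 44) (nat_lit 2) (nat_lit 1) (nat_lit 372) (.c (nat_lit 407) (nat_lit 44) (nat_lit 1) (nat_lit 1) (nat_lit 416) (.c (nat_lit 451) (nat_lit 44) (nat_lit 0) (nat_lit 1) (nat_lit 460) .nil)))))))))))))))))))))))))))))))

noncomputable def dF4_i36 : IL := (.s false (nat_lit 72) (nat_lit 73) (nat_lit 0) (nat_lit 2) (nat_lit 3) true (nat_lit 21) true (nat_lit 27) false (nat_lit 7) true (nat_lit 30) true (nat_lit 28) (.s true (nat_lit 181) (nat_lit 73) (nat_lit 2) (nat_lit 0) (nat_lit 3) true (nat_lit 19) true (nat_lit 27) false (nat_lit 7) true (nat_lit 28) true (nat_lit 30) (.s false (nat_lit 315) (nat_lit 74) (nat_lit 2) (nat_lit 3) (nat_lit 0) true (nat_lit 23) true (nat_lit 30) false (nat_lit 7) true (nat_lit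 28) true (nat_lit 27) (.s true (nat_lit 184) (nat_lit 72) (nat_lit 3) (nat_lit 0) (nat_lit 2) true (nat_lit 19) true (nat_lit 28) false (nat_lit 7) true (nat_lit 27) true (nat_lit 30) (.s true (nat_lit 173) (nat_lit 73) (nat_lit 3) (nat_lit 0) (nat_lit 2) true (nat_lit 19) true (nat_lit 28) false (nat_lit 7) true (nat_lit 27) true (nat_lit 30) (.s false (nat_lit 313) (nat_lit 74) (nat_lit 3) (nat_lit 2) (nat_lit 0) true (nat_lit 21) true (nat_lit 30) false (nat_lit 7) true (nat_lit 27) true (nat_lit 28) (.s false (nat_lit 140) (nat_lit 75) (nat_lit 0) (nat_lit 1) (nat_lit 3) true (nat_lit 21) true (nat_lit 27) false (nat_lit 8) true (nat_lit 30) true (nat_lit 29) (.s true (nat_lit 237) (nat_lit 76) (nat_lit 0) (nat_lit 1) (nat_lit 3) true (nat_lit 21) true (nat_lit 27) false (nat_lit 8) true (nat_lit 30) true (nat_lit 29) (.s false (nat_lit 382) (nat_lit 77) (nat_lit 0) (nat_lit 1) (nat_lit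 3) true (nat_lit 21) true (nat_lit 27) false (nat_lit 8) true (nat_lit 30) true (nat_lit 29) (.s false (nat_lit 237) (nat_lit 76) (nat_lit 0) (nat_lit 3) (nat_lit 1) true (nat_lit 24) true (nat_lit 29) false (nat_lit 8) true (nat_lit 30) true (nat_lit 27) (.s true (nat_lit 171) (nat_lit 75) (nat_lit 1) (nat_lit 0) (nat_lit 3) true (nat_lit 20) true (nat_lit 27) false (nat_lit 8) true (nat_lit 29) true (nat_lit 30) (.s false (nat_lit 572) (nat_lit 76) (nat_lit 1) (nat_lit 0) (nat_lit 3) true (nat_lit 20) true (nat_lit 27) false (nat_lit 8) true (nat_lit 29) true (nat_lit 30) (.s false (nat_lit 141) (nat_lit 77) (nat_lit 1) (nat_lit 0) (nat_lit 3) true (nat_lit 20) true (nat_lit 27) false (nat_lit 8) true (nat_lit 29) true (nat_lit 30) (.s true (nat_lit 215) (nat_lit 75) (nat_lit 1) (nat_lit 3) (nat_lit 0) true (nat_lit 24) true (nat_lit 30) false (nat_lit 8) true (nat_lit 29) true (nat_lit 27)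 (.s false (nat_lit 673) (nat_lit 76) (nat_lit 3) (nat_lit 0) (nat_lit 1) true (nat_lit 20) true (nat_lit 29) false (nat_lit 8) true (nat_lit 27) true (nat_lit 30) (.s false (nat_lit 380) (nat_lit 75) (nat_lit 3) (nat_lit 1) (nat_lit 0) true (nat_lit 21) true (nat_lit 30) false (nat_lit 8) true (nat_lit 27) true (nat_lit 29) (.s false (nat_lit 22) (nat_lit 78) (nat_lit 0) (nat_lit 2) (nat_lit 1) true (nat_lit 24) true (nat_lit 29) false (nat_lit 9) true (nat_lit 30) true (nat_lit 28) (.s true (nat_lit 107) (nat_lit 80) (nat_lit 0) (nat_lit 2) (nat_lit 1) true (nat_lit 24) true (nat_lit 29) false (nat_lit 9) true (nat_lit 30) true (nat_lit 28) (.s true (nat_lit 206) (nat_lit 78) (nat_lit 1) (nat_lit 0) (nat_lit 2) true (nat_lit 22) true (nat_lit 28) false (nat_lit 9) true (nat_lit 29) true (nat_lit 30) (.s true (nat_lit 18) (nat_lit 79) (nat_lit 1) (nat_lit 0) (nat_lit 2) true (nat_lit 22) true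 (nat_lit 28) false (nat_lit 9) true (nat_lit 29) true (nat_lit 30) (.s true (nat_lit 337) (nat_lit 78) (nat_lit 1) (nat_lit 2) (nat_lit 0) true (nat_lit 24) true (nat_lit 30) false (nat_lit 9) true (nat_lit 29) true (nat_lit 28) (.s true (nat_lit 291) (nat_lit 80) (nat_lit 1) (nat_lit 2) (nat_lit 0) true (nat_lit 24) true (nat_lit 30) false (nat_lit 9) true (nat_lit 29) true (nat_lit 28) (.s true (nat_lit 19) (nat_lit 79) (nat_lit 2) (nat_lit 0) (nat_lit 1) true (nat_lit 22) true (nat_lit 29) false (nat_lit 9) true (nat_lit 28) true (nat_lit 30) (.s false (nat_lit 247) (nat_lit 80) (nat_lit 2) (nat_lit 0) (nat_lit 1) true (nat_lit 22) true (nat_lit 29) false (nat_lit 9) true (nat_lit 28) true (nat_lit 30) (.i true (nat_lit 4) (nat_lit 2) (.c (nat_lit 4) (nat_lit 16) (.c (nat_lit 3) (nat_lit 256) (.c (nat_lit 2) (nat_lit 4096) (.c (nat_lit 1) (nat_lit 65536) (.c (nat_lit 0) (nat_lit 1048576)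 (.c (nat_lit 5) (nat_lit 1) .nil)))))) .nil)))))))))))))))))))))))))

noncomputable def dF4_i37 : IL := (.s true (nat_lit 227) (nat_lit 65) (nat_lit 0) (nat_lit 4) (nat_lit 2) true (nat_lit 23) true (nat_lit 28) false (nat_lit 4) true (nat_lit 30) true (nat_lit 26) (.s true (nat_lit 8) (nat_lit 63) (nat_lit 2) (nat_lit 0) (nat_lit 4) true (nat_lit 16) true (nat_lit 26) false (nat_lit 4) true (nat_lit 28) true (nat_lit 30) (.s false (nat_lit 98) (nat_lit 64) (nat_lit 2) (nat_lit 0) (nat_lit 4) true (nat_lit 16) true (nat_lit 26) false (nat_lit 4) true (nat_lit 28) true (nat_lit 30) (.s false (nat_lit 410) (nat_lit 63) (nat_lit 2) (nat_lit 4) (nat_lit 0) true (nat_lit 23) true (nat_lit 30) false (nat_lit 4) true (nat_lit 28) true (nat_lit 26) (.s false (nat_lit 73) (nat_lit 64) (nat_lit 4) (nat_lit 0) (nat_lit 2) true (nat_lit 16) true (nat_lit 28) false (nat_lit 4) true (nat_lit 26) true (nat_lit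 30) (.s true (nat_lit 182) (nat_lit 63) (nat_lit 4) (nat_lit 2) (nat_lit 0) true (nat_lit 18) true (nat_lit 30) false (nat_lit 4) true (nat_lit 26) true (nat_lit 28) (.s true (nat_lit 24) (nat_lit 64) (nat_lit 4) (nat_lit 2) (nat_lit 0) true (nat_lit 18) true (nat_lit 30) false (nat_lit 4) true (nat_lit 26) true (nat_lit 28) (.s true (nat_lit 7) (nat_lit 66) (nat_lit 0) (nat_lit 1) (nat_lit 4) true (nat_lit 18) true (nat_lit 26) false (nat_lit 5) true (nat_lit 30) true (nat_lit 29) (.s true (nat_lit 717) (nat_lit 67) (nat_lit 0) (nat_lit 4) (nat_lit 1) true (nat_lit 24) true (nat_lit 29) false (nat_lit 5) true (nat_lit 30) true (nat_lit 26) (.s false (nat_lit 249) (nat_lit 68) (nat_lit 0) (nat_lit 4) (nat_lit 1) true (nat_lit 24) true (nat_lit 29) false (nat_lit 5) true (nat_lit 30) true (nat_lit 26) (.s true (nat_lit 10) (nat_lit 66) (nat_lit 1) (nat_lit 0) (nat_lit 4) true (nat_lit 17) true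 (nat_lit 26) false (nat_lit 5) true (nat_lit 29) true (nat_lit 30) (.s true (nat_lit 608) (nat_lit 67) (nat_lit 1) (nat_lit 0) (nat_lit 4) true (nat_lit 17) true (nat_lit 26) false (nat_lit 5) true (nat_lit 29) true (nat_lit 30) (.s true (nat_lit 201) (nat_lit 66) (nat_lit 1) (nat_lit 4) (nat_lit 0) true (nat_lit 24) true (nat_lit 30) false (nat_lit 5) true (nat_lit 29) true (nat_lit 26) (.s true (nat_lit 717) (nat_lit 67) (nat_lit 4) (nat_lit 0) (nat_lit 1) true (nat_lit 17) true (nat_lit 29) false (nat_lit 5) true (nat_lit 26) true (nat_lit 30) (.s true (nat_lit 19) (nat_lit 66) (nat_lit 4) (nat_lit 1) (nat_lit 0) true (nat_lit 18) true (nat_lit 30) false (nat_lit 5) true (nat_lit 26) true (nat_lit 29) (.s true (nat_lit 23) (nat_lit 67) (nat_lit 4) (nat_lit 1) (nat_lit 0) true (nat_lit 18) true (nat_lit 30) false (nat_lit 5) true (nat_lit 26) true (nat_lit 29) (.s true (nat_lit 53) (nat_lit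 71) (nat_lit 1) (nat_lit 2) (nat_lit 3) true (nat_lit 20) true (nat_lit 27) false (nat_lit 6) true (nat_lit 29) true (nat_lit 28) (.s true (nat_lit 426) (nat_lit 70) (nat_lit 1) (nat_lit 3) (nat_lit 2) true (nat_lit 22) true (nat_lit 28) false (nat_lit 6) true (nat_lit 29) true (nat_lit 27) (.s false (nat_lit 301) (nat_lit 71) (nat_lit 2) (nat_lit 1) (nat_lit 3) true (nat_lit 19) true (nat_lit 27) false (nat_lit 6) true (nat_lit 28) true (nat_lit 29) (.s false (nat_lit 198) (nat_lit 70) (nat_lit 2) (nat_lit 3) (nat_lit 1) true (nat_lit 22) true (nat_lit 29) false (nat_lit 6) true (nat_lit 28) true (nat_lit 27) (.s false (nat_lit 646) (nat_lit 71) (nat_lit 2) (nat_lit 3) (nat_lit 1) true (nat_lit 22) true (nat_lit 29) false (nat_lit 6) true (nat_lit 28) true (nat_lit 27) (.s true (nat_lit 429) (nat_lit 70) (nat_lit 3) (nat_lit 1) (nat_lit 2) true (nat_lit 19) true (nat_lit 28) false (nat_lit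 6) true (nat_lit 27) true (nat_lit 29) (.s true (nat_lit 46) (nat_lit 71) (nat_lit 3) (nat_lit 1) (nat_lit 2) true (nat_lit 19) true (nat_lit 28) false (nat_lit 6) true (nat_lit 27) true (nat_lit 29) (.s true (nat_lit 80) (nat_lit 70) (nat_lit 3) (nat_lit 2) (nat_lit 1) true (nat_lit 20) true (nat_lit 29) false (nat_lit 6) true (nat_lit 27) true (nat_lit 28) (.s true (nat_lit 261) (nat_lit 72) (nat_lit 0) (nat_lit 2) (nat_lit 3) true (nat_lit 21) true (nat_lit 27) false (nat_lit 7) true (nat_lit 30) true (nat_lit 28) dF4_i36)))))))))))))))))))))))))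

noncomputable def dF4_i38 : IL := (.s false (nat_lit 259) (nat_lit 54) (nat_lit 4) (nat_lit 1) (nat_lit 3) true (nat_lit 15) true (nat_lit 27) false (nat_lit 1) true (nat_lit 26) true (nat_lit 29) (.s false (nat_lit 916) (nat_lit 55) (nat_lit 4) (nat_lit 1) (nat_lit 3) true (nat_lit 15) true (nat_lit 27) false (nat_lit 1) true (nat_lit 26) true (nat_lit 29) (.s false (nat_lit 113) (nat_lit 55) (nat_lit 4) (nat_lit 3) (nat_lit 1) true (nat_lit 17) true (nat_lit 29) false (nat_lit 1) true (nat_lit 26) true (nat_lit 27) (.s true (nat_lit 141) (nat_lit 56) (nat_lit 4) (nat_lit 3) (nat_lit 1) true (nat_lit 17) true (nat_lit 29) false (nat_lit 1) true (nat_lit 26) true (nat_lit 27) (.s false (nat_lit 27) (nat_lit 57) (nat_lit 0) (nat_lit 3) (nat_lit 4) true (nat_lit 18) true (nat_lit 26) false (nat_lit 2) true (nat_lit 30) true (nat_lit 27) (.s true (nat_lit 79) (nat_lit 58) (nat_lit 0) (nat_lit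 3) (nat_lit 4) true (nat_lit 18) true (nat_lit 26) false (nat_lit 2) true (nat_lit 30) true (nat_lit 27) (.s false (nat_lit 1558) (nat_lit 57) (nat_lit 0) (nat_lit 4) (nat_lit 3) true (nat_lit 21) true (nat_lit 27) false (nat_lit 2) true (nat_lit 30) true (nat_lit 26) (.s false (nat_lit 676) (nat_lit 57) (nat_lit 3) (nat_lit 0) (nat_lit 4) true (nat_lit 15) true (nat_lit 26) false (nat_lit 2) true (nat_lit 27) true (nat_lit 30) (.s true (nat_lit 406) (nat_lit 58) (nat_lit 3) (nat_lit 0) (nat_lit 4) true (nat_lit 15) true (nat_lit 26) false (nat_lit 2) true (nat_lit 27) true (nat_lit 30) (.s false (nat_lit 910) (nat_lit 57) (nat_lit 3) (nat_lit 4) (nat_lit 0) true (nat_lit 21) true (nat_lit 30) false (nat_lit 2) true (nat_lit 27) true (nat_lit 26) (.s true (nat_lit 528) (nat_lit 58) (nat_lit 3) (nat_lit 4) (nat_lit 0) true (nat_lit 21) true (nat_lit 30) false (nat_lit 2) true (nat_lit 27) true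 (nat_lit 26) (.s false (nat_lit 1606) (nat_lit 57) (nat_lit 4) (nat_lit 0) (nat_lit 3) true (nat_lit 15) true (nat_lit 27) false (nat_lit 2) true (nat_lit 26) true (nat_lit 30) (.s true (nat_lit 80) (nat_lit 58) (nat_lit 4) (nat_lit 3) (nat_lit 0) true (nat_lit 18) true (nat_lit 30) false (nat_lit 2) true (nat_lit 26) true (nat_lit 27) (.s true (nat_lit 137) (nat_lit 61) (nat_lit 1) (nat_lit 2) (nat_lit 4) true (nat_lit 17) true (nat_lit 26) false (nat_lit 3) true (nat_lit 29) true (nat_lit 28) (.s false (nat_lit 740) (nat_lit 61) (nat_lit 1) (nat_lit 4) (nat_lit 2) true (nat_lit 22) true (nat_lit 28) false (nat_lit 3) true (nat_lit 29) true (nat_lit 26) (.s true (nat_lit 55) (nat_lit 62) (nat_lit 1) (nat_lit 4) (nat_lit 2) true (nat_lit 22) true (nat_lit 28) false (nat_lit 3) true (nat_lit 29) true (nat_lit 26) (.s true (nat_lit 143) (nat_lit 60) (nat_lit 2) (nat_lit 1) (nat_lit 4) true (nat_lit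 16) true (nat_lit 26) false (nat_lit 3) true (nat_lit 28) true (nat_lit 29) (.s false (nat_lit 660) (nat_lit 61) (nat_lit 2) (nat_lit 1) (nat_lit 4) true (nat_lit 16) true (nat_lit 26) false (nat_lit 3) true (nat_lit 28) true (nat_lit 29) (.s false (nat_lit 490) (nat_lit 61) (nat_lit 2) (nat_lit 4) (nat_lit 1) true (nat_lit 22) true (nat_lit 29) false (nat_lit 3) true (nat_lit 28) true (nat_lit 26) (.s false (nat_lit 4) (nat_lit 62) (nat_lit 2) (nat_lit 4) (nat_lit 1) true (nat_lit 22) true (nat_lit 29) false (nat_lit 3) true (nat_lit 28) true (nat_lit 26) (.s true (nat_lit 2) (nat_lit 60) (nat_lit 4) (nat_lit 1) (nat_lit 2) true (nat_lit 16) true (nat_lit 28) false (nat_lit 3) true (nat_lit 26) true (nat_lit 29) (.s false (nat_lit 589) (nat_lit 61) (nat_lit 4) (nat_lit 1) (nat_lit 2) true (nat_lit 16) true (nat_lit 28) false (nat_lit 3) true (nat_lit 26) true (nat_lit 29) (.s true (nat_lit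 171) (nat_lit 63) (nat_lit 0) (nat_lit 2) (nat_lit 4) true (nat_lit 18) true (nat_lit 26) false (nat_lit 4) true (nat_lit 30) true (nat_lit 28) (.s true (nat_lit 43) (nat_lit 63) (nat_lit 0) (nat_lit 4) (nat_lit 2) true (nat_lit 23) true (nat_lit 28) false (nat_lit 4) true (nat_lit 30) true (nat_lit 26) (.s false (nat_lit 53) (nat_lit 64) (nat_lit 0) (nat_lit 4) (nat_lit 2) true (nat_lit 23) true (nat_lit 28) false (nat_lit 4) true (nat_lit 30) true (nat_lit 26) dF4_i37)))))))))))))))))))))))))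

noncomputable def dF4_i39 : IL := (.s true (nat_lit 561) (nat_lit 50) (nat_lit 0) (nat_lit 5) (nat_lit 1) true (nat_lit 24) true (nat_lit 29) true (nat_lit 0) true (nat_lit 30) true (nat_lit 25) (.s true (nat_lit 448) (nat_lit 50) (nat_lit 1) (nat_lit 0) (nat_lit 5) true (nat_lit 13) true (nat_lit 25) true (nat_lit 0) true (nat_lit 29) true (nat_lit 30) (.s false (nat_lit 16) (nat_lit 48) (nat_lit 1) (nat_lit 5) (nat_lit 0) true (nat_lit 24) true (nat_lit 30) true (nat_lit 0) true (nat_lit 29) true (nat_lit 25) (.s true (nat_lit 442) (nat_lit 49) (nat_lit 1) (nat_lit 5) (nat_lit 0) true (nat_lit 24) true (nat_lit 30) true (nat_lit 0) true (nat_lit 29) true (nat_lit 25) (.s true (nat_lit 168) (nat_lit 48) (nat_lit 5) (nat_lit 0) (nat_lit 1) true (nat_lit 13) true (nat_lit 29) true (nat_lit 0) true (nat_lit 25) true (nat_lit 30) (.s false (nat_lit 291) (nat_lit 50) (nat_lit 5) (nat_lit 0) (nat_lit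 1) true (nat_lit 13) true (nat_lit 29) true (nat_lit 0) true (nat_lit 25) true (nat_lit 30) (.s false (nat_lit 24) (nat_lit 48) (nat_lit 5) (nat_lit 1) (nat_lit 0) true (nat_lit 14) true (nat_lit 30) true (nat_lit 0) true (nat_lit 25) true (nat_lit 29) (.s true (nat_lit 12) (nat_lit 50) (nat_lit 5) (nat_lit 1) (nat_lit 0) true (nat_lit 14) true (nat_lit 30) true (nat_lit 0) true (nat_lit 25) true (nat_lit 29) (.s false (nat_lit 93) (nat_lit 51) (nat_lit 2) (nat_lit 3) (nat_lit 4) true (nat_lit 16) true (nat_lit 26) false (nat_lit 0) true (nat_lit 28) true (nat_lit 27) (.s false (nat_lit 1125) (nat_lit 52) (nat_lit 2) (nat_lit 3) (nat_lit 4) true (nat_lit 16) true (nat_lit 26) false (nat_lit 0) true (nat_lit 28) true (nat_lit 27) (.s true (nat_lit 69) (nat_lit 53) (nat_lit 2) (nat_lit 3) (nat_lit 4) true (nat_lit 16) true (nat_lit 26) false (nat_lit 0) true (nat_lit 28) true (nat_lit 27) (.s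 false (nat_lit 35) (nat_lit 52) (nat_lit 2) (nat_lit 4) (nat_lit 3) true (nat_lit 19) true (nat_lit 27) false (nat_lit 0) true (nat_lit 28) true (nat_lit 26) (.s true (nat_lit 255) (nat_lit 53) (nat_lit 2) (nat_lit 4) (nat_lit 3) true (nat_lit 19) true (nat_lit 27) false (nat_lit 0) true (nat_lit 28) true (nat_lit 26) (.s false (nat_lit 1174) (nat_lit 52) (nat_lit 3) (nat_lit 2) (nat_lit 4) true (nat_lit 15) true (nat_lit 26) false (nat_lit 0) true (nat_lit 27) true (nat_lit 28) (.s true (nat_lit 82) (nat_lit 53) (nat_lit 3) (nat_lit 2) (nat_lit 4) true (nat_lit 15) true (nat_lit 26) false (nat_lit 0) true (nat_lit 27) true (nat_lit 28) (.s true (nat_lit 44) (nat_lit 52) (nat_lit 3) (nat_lit 4) (nat_lit 2) true (nat_lit 19) true (nat_lit 28) false (nat_lit 0) true (nat_lit 27) true (nat_lit 26) (.s false (nat_lit 84) (nat_lit 53) (nat_lit 4) (nat_lit 2) (nat_lit 3) true (nat_lit 15) true (nat_lit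 27) false (nat_lit 0) true (nat_lit 26) true (nat_lit 28) (.s false (nat_lit 832) (nat_lit 52) (nat_lit 4) (nat_lit 3) (nat_lit 2) true (nat_lit 16) true (nat_lit 28) false (nat_lit 0) true (nat_lit 26) true (nat_lit 27) (.s false (nat_lit 43) (nat_lit 54) (nat_lit 1) (nat_lit 3) (nat_lit 4) true (nat_lit 17) true (nat_lit 26) false (nat_lit 1) true (nat_lit 29) true (nat_lit 27) (.s true (nat_lit 91) (nat_lit 54) (nat_lit 1) (nat_lit 4) (nat_lit 3) true (nat_lit 20) true (nat_lit 27) false (nat_lit 1) true (nat_lit 29) true (nat_lit 26) (.s false (nat_lit 894) (nat_lit 55) (nat_lit 1) (nat_lit 4) (nat_lit 3) true (nat_lit 20) true (nat_lit 27) false (nat_lit 1) true (nat_lit 29) true (nat_lit 26) (.s false (nat_lit 216) (nat_lit 54) (nat_lit 3) (nat_lit 1) (nat_lit 4) true (nat_lit 15) true (nat_lit 26) false (nat_lit 1) true (nat_lit 27) true (nat_lit 29) (.s true (nat_lit 28) (nat_lit 55)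 (nat_lit 3) (nat_lit 1) (nat_lit 4) true (nat_lit 15) true (nat_lit 26) false (nat_lit 1) true (nat_lit 27) true (nat_lit 29) (.s false (nat_lit 936) (nat_lit 55) (nat_lit 3) (nat_lit 4) (nat_lit 1) true (nat_lit 20) true (nat_lit 29) false (nat_lit 1) true (nat_lit 27) true (nat_lit 26) (.s false (nat_lit 73) (nat_lit 56) (nat_lit 3) (nat_lit 4) (nat_lit 1) true (nat_lit 20) true (nat_lit 29) false (nat_lit 1) true (nat_lit 27) true (nat_lit 26) dF4_i38)))))))))))))))))))))))))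

noncomputable def dF4_i40 : IL := (.s true (nat_lit 276) (nat_lit 39) (nat_lit 3) (nat_lit 0) (nat_lit 5) true (nat_lit 11) true (nat_lit 25) true (nat_lit 3) true (nat_lit 27) true (nat_lit 30) (.s false (nat_lit 393) (nat_lit 39) (nat_lit 3) (nat_lit 5) (nat_lit 0) true (nat_lit 21) true (nat_lit 30) true (nat_lit 3) true (nat_lit 27) true (nat_lit 25) (.s true (nat_lit 271) (nat_lit 39) (nat_lit 5) (nat_lit 0) (nat_lit 3) true (nat_lit 11) true (nat_lit 27) true (nat_lit 3) true (nat_lit 25) true (nat_lit 30) (.s false (nat_lit 38) (nat_lit 40) (nat_lit 5) (nat_lit 0) (nat_lit 3) true (nat_lit 11) true (nat_lit 27) true (nat_lit 3) true (nat_lit 25) true (nat_lit 30) (.s true (nat_lit 175) (nat_lit 40) (nat_lit 5) (nat_lit 3) (nat_lit 0) true (nat_lit 14) true (nat_lit 30) true (nat_lit 3) true (nat_lit 25) true (nat_lit 27) (.s true (nat_lit 39) (nat_lit 41) (nat_lit 5) (nat_lit 3) (nat_lit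 0) true (nat_lit 14) true (nat_lit 30) true (nat_lit 3) true (nat_lit 25) true (nat_lit 27) (.s true (nat_lit 44) (nat_lit 43) (nat_lit 1) (nat_lit 2) (nat_lit 5) true (nat_lit 13) true (nat_lit 25) true (nat_lit 2) true (nat_lit 29) true (nat_lit 28) (.s true (nat_lit 418) (nat_lit 44) (nat_lit 1) (nat_lit 2) (nat_lit 5) true (nat_lit 13) true (nat_lit 25) true (nat_lit 2) true (nat_lit 29) true (nat_lit 28) (.s true (nat_lit 30) (nat_lit 43) (nat_lit 1) (nat_lit 5) (nat_lit 2) true (nat_lit 22) true (nat_lit 28) true (nat_lit 2) true (nat_lit 29) true (nat_lit 25) (.s true (nat_lit 1228) (nat_lit 44) (nat_lit 1) (nat_lit 5) (nat_lit 2) true (nat_lit 22) true (nat_lit 28) true (nat_lit 2) true (nat_lit 29) true (nat_lit 25) (.s true (nat_lit 1324) (nat_lit 44) (nat_lit 2) (nat_lit 1) (nat_lit 5) true (nat_lit 12) true (nat_lit 25) true (nat_lit 2) true (nat_lit 28) true (nat_lit 29) (.s true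 (nat_lit 12) (nat_lit 43) (nat_lit 2) (nat_lit 5) (nat_lit 1) true (nat_lit 22) true (nat_lit 29) true (nat_lit 2) true (nat_lit 28) true (nat_lit 25) (.s true (nat_lit 620) (nat_lit 44) (nat_lit 2) (nat_lit 5) (nat_lit 1) true (nat_lit 22) true (nat_lit 29) true (nat_lit 2) true (nat_lit 28) true (nat_lit 25) (.s true (nat_lit 32) (nat_lit 43) (nat_lit 5) (nat_lit 1) (nat_lit 2) true (nat_lit 12) true (nat_lit 28) true (nat_lit 2) true (nat_lit 25) true (nat_lit 29) (.s true (nat_lit 12) (nat_lit 43) (nat_lit 5) (nat_lit 2) (nat_lit 1) true (nat_lit 13) true (nat_lit 29) true (nat_lit 2) true (nat_lit 25) true (nat_lit 28) (.s true (nat_lit 653) (nat_lit 44) (nat_lit 5) (nat_lit 2) (nat_lit 1) true (nat_lit 13) true (nat_lit 29) true (nat_lit 2) true (nat_lit 25) true (nat_lit 28) (.s true (nat_lit 175) (nat_lit 45) (nat_lit 0) (nat_lit 2) (nat_lit 5) true (nat_lit 14) true (nat_lit 25) true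 (nat_lit 1) true (nat_lit 30) true (nat_lit 28) (.s true (nat_lit 206) (nat_lit 46) (nat_lit 0) (nat_lit 2) (nat_lit 5) true (nat_lit 14) true (nat_lit 25) true (nat_lit 1) true (nat_lit 30) true (nat_lit 28) (.s true (nat_lit 6) (nat_lit 45) (nat_lit 2) (nat_lit 0) (nat_lit 5) true (nat_lit 12) true (nat_lit 25) true (nat_lit 1) true (nat_lit 28) true (nat_lit 30) (.s false (nat_lit 2) (nat_lit 46) (nat_lit 2) (nat_lit 0) (nat_lit 5) true (nat_lit 12) true (nat_lit 25) true (nat_lit 1) true (nat_lit 28) true (nat_lit 30) (.s false (nat_lit 111) (nat_lit 46) (nat_lit 2) (nat_lit 5) (nat_lit 0) true (nat_lit 23) true (nat_lit 30) true (nat_lit 1) true (nat_lit 28) true (nat_lit 25) (.s true (nat_lit 3) (nat_lit 48) (nat_lit 0) (nat_lit 1) (nat_lit 5) true (nat_lit 14) true (nat_lit 25) true (nat_lit 0) true (nat_lit 30) true (nat_lit 29) (.s true (nat_lit 110) (nat_lit 49) (nat_lit 0) (nat_lit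 1) (nat_lit 5) true (nat_lit 14) true (nat_lit 25) true (nat_lit 0) true (nat_lit 30) true (nat_lit 29) (.s true (nat_lit 193) (nat_lit 48) (nat_lit 0) (nat_lit 5) (nat_lit 1) true (nat_lit 24) true (nat_lit 29) true (nat_lit 0) true (nat_lit 30) true (nat_lit 25) (.s false (nat_lit 11) (nat_lit 49) (nat_lit 0) (nat_lit 5) (nat_lit 1) true (nat_lit 24) true (nat_lit 29) true (nat_lit 0) true (nat_lit 30) true (nat_lit 25) dF4_i39)))))))))))))))))))))))))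

noncomputable def dF4_i41 : IL := (.s true (nat_lit 262) (nat_lit 33) (nat_lit 2) (nat_lit 3) (nat_lit 5) true (nat_lit 12) true (nat_lit 25) true (nat_lit 5) true (nat_lit 28) true (nat_lit 27) (.s false (nat_lit 47) (nat_lit 35) (nat_lit 2) (nat_lit 3) (nat_lit 5) true (nat_lit 12) true (nat_lit 25) true (nat_lit 5) true (nat_lit 28) true (nat_lit 27) (.s false (nat_lit 230) (nat_lit 33) (nat_lit 2) (nat_lit 5) (nat_lit 3) true (nat_lit 19) true (nat_lit 27) true (nat_lit 5) true (nat_lit 28) true (nat_lit 25) (.s false (nat_lit 11) (nat_lit 35) (nat_lit 2) (nat_lit 5) (nat_lit 3) true (nat_lit 19) true (nat_lit 27) true (nat_lit 5) true (nat_lit 28) true (nat_lit 25) (.s false (nat_lit 274) (nat_lit 33) (nat_lit 3) (nat_lit 2) (nat_lit 5) true (nat_lit 11) true (nat_lit 25) true (nat_lit 5) true (nat_lit 27) true (nat_lit 28) (.s false (nat_lit 217) (nat_lit 35) (nat_lit 3) (nat_lit 2)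 (nat_lit 5) true (nat_lit 11) true (nat_lit 25) true (nat_lit 5) true (nat_lit 27) true (nat_lit 28) (.s false (nat_lit 251) (nat_lit 34) (nat_lit 3) (nat_lit 5) (nat_lit 2) true (nat_lit 19) true (nat_lit 28) true (nat_lit 5) true (nat_lit 27) true (nat_lit 25) (.s true (nat_lit 105) (nat_lit 35) (nat_lit 3) (nat_lit 5) (nat_lit 2) true (nat_lit 19) true (nat_lit 28) true (nat_lit 5) true (nat_lit 27) true (nat_lit 25) (.s true (nat_lit 391) (nat_lit 33) (nat_lit 5) (nat_lit 2) (nat_lit 3) true (nat_lit 11) true (nat_lit 27) true (nat_lit 5) true (nat_lit 25) true (nat_lit 28) (.s true (nat_lit 14) (nat_lit 33) (nat_lit 5) (nat_lit 3) (nat_lit 2) true (nat_lit 12) true (nat_lit 28) true (nat_lit 5) true (nat_lit 25) true (nat_lit 27) (.s false (nat_lit 2) (nat_lit 34) (nat_lit 5) (nat_lit 3) (nat_lit 2) true (nat_lit 12) true (nat_lit 28) true (nat_lit 5) true (nat_lit 25) true (nat_lit 27)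 (.s true (nat_lit 68) (nat_lit 35) (nat_lit 5) (nat_lit 3) (nat_lit 2) true (nat_lit 12) true (nat_lit 28) true (nat_lit 5) true (nat_lit 25) true (nat_lit 27) (.s true (nat_lit 282) (nat_lit 36) (nat_lit 1) (nat_lit 3) (nat_lit 5) true (nat_lit 13) true (nat_lit 25) true (nat_lit 4) true (nat_lit 29) true (nat_lit 27) (.s false (nat_lit 286) (nat_lit 38) (nat_lit 1) (nat_lit 3) (nat_lit 5) true (nat_lit 13) true (nat_lit 25) true (nat_lit 4) true (nat_lit 29) true (nat_lit 27) (.s true (nat_lit 514) (nat_lit 36) (nat_lit 1) (nat_lit 5) (nat_lit 3) true (nat_lit 20) true (nat_lit 27) true (nat_lit 4) true (nat_lit 29) true (nat_lit 25) (.s true (nat_lit 123) (nat_lit 36) (nat_lit 3) (nat_lit 1) (nat_lit 5) true (nat_lit 11) true (nat_lit 25) true (nat_lit 4) true (nat_lit 27) true (nat_lit 29) (.s false (nat_lit 47) (nat_lit 37) (nat_lit 3) (nat_lit 1) (nat_lit 5) true (nat_lit 11) true (nat_lit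 25) true (nat_lit 4) true (nat_lit 27) true (nat_lit 29) (.s false (nat_lit 149) (nat_lit 38) (nat_lit 3) (nat_lit 5) (nat_lit 1) true (nat_lit 20) true (nat_lit 29) true (nat_lit 4) true (nat_lit 27) true (nat_lit 25) (.s false (nat_lit 46) (nat_lit 36) (nat_lit 5) (nat_lit 1) (nat_lit 3) true (nat_lit 11) true (nat_lit 27) true (nat_lit 4) true (nat_lit 25) true (nat_lit 29) (.s false (nat_lit 22) (nat_lit 37) (nat_lit 5) (nat_lit 1) (nat_lit 3) true (nat_lit 11) true (nat_lit 27) true (nat_lit 4) true (nat_lit 25) true (nat_lit 29) (.s true (nat_lit 26) (nat_lit 38) (nat_lit 5) (nat_lit 1) (nat_lit 3) true (nat_lit 11) true (nat_lit 27) true (nat_lit 4) true (nat_lit 25) true (nat_lit 29) (.s false (nat_lit 227) (nat_lit 37) (nat_lit 5) (nat_lit 3) (nat_lit 1) true (nat_lit 13) true (nat_lit 29) true (nat_lit 4) true (nat_lit 25) true (nat_lit 27) (.s false (nat_lit 392) (nat_lit 38) (nat_lit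 5) (nat_lit 3) (nat_lit 1) true (nat_lit 13) true (nat_lit 29) true (nat_lit 4) true (nat_lit 25) true (nat_lit 27) (.s true (nat_lit 1040) (nat_lit 39) (nat_lit 0) (nat_lit 5) (nat_lit 3) true (nat_lit 21) true (nat_lit 27) true (nat_lit 3) true (nat_lit 30) true (nat_lit 25) (.s false (nat_lit 514) (nat_lit 41) (nat_lit 0) (nat_lit 5) (nat_lit 3) true (nat_lit 21) true (nat_lit 27) true (nat_lit 3) true (nat_lit 30) true (nat_lit 25) dF4_i40)))))))))))))))))))))))))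

noncomputable def dF4_i42 : IL := (.s false (nat_lit 361) (nat_lit 26) (nat_lit 5) (nat_lit 2) (nat_lit 4) true (nat_lit 10) true (nat_lit 26) true (nat_lit 8) true (nat_lit 25) true (nat_lit 28) (.s true (nat_lit 253) (nat_lit 24) (nat_lit 5) (nat_lit 4) (nat_lit 2) true (nat_lit 12) true (nat_lit 28) true (nat_lit 8) true (nat_lit 25) true (nat_lit 26) (.s true (nat_lit 229) (nat_lit 27) (nat_lit 1) (nat_lit 4) (nat_lit 5) true (nat_lit 13) true (nat_lit 25) true (nat_lit 7) true (nat_lit 29) true (nat_lit 26) (.s false (nat_lit 182) (nat_lit 28) (nat_lit 1) (nat_lit 4) (nat_lit 5) true (nat_lit 13) true (nat_lit 25) true (nat_lit 7) true (nat_lit 29) true (nat_lit 26) (.s false (nat_lit 459) (nat_lit 29) (nat_lit 1) (nat_lit 4) (nat_lit 5) true (nat_lit 13) true (nat_lit 25) true (nat_lit 7) true (nat_lit 29) true (nat_lit 26) (.s false (nat_lit 1) (nat_lit 27) (nat_lit 1) (nat_lit 5) (nat_lit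 4) true (nat_lit 17) true (nat_lit 26) true (nat_lit 7) true (nat_lit 29) true (nat_lit 25) (.s false (nat_lit 220) (nat_lit 28) (nat_lit 1) (nat_lit 5) (nat_lit 4) true (nat_lit 17) true (nat_lit 26) true (nat_lit 7) true (nat_lit 29) true (nat_lit 25) (.s false (nat_lit 96) (nat_lit 27) (nat_lit 4) (nat_lit 1) (nat_lit 5) true (nat_lit 10) true (nat_lit 25) true (nat_lit 7) true (nat_lit 26) true (nat_lit 29) (.s false (nat_lit 457) (nat_lit 29) (nat_lit 4) (nat_lit 1) (nat_lit 5) true (nat_lit 10) true (nat_lit 25) true (nat_lit 7) true (nat_lit 26) true (nat_lit 29) (.s false (nat_lit 202) (nat_lit 28) (nat_lit 4) (nat_lit 5) (nat_lit 1) true (nat_lit 17) true (nat_lit 29) true (nat_lit 7) true (nat_lit 26) true (nat_lit 25) (.s false (nat_lit 8) (nat_lit 29) (nat_lit 4) (nat_lit 5) (nat_lit 1) true (nat_lit 17) true (nat_lit 29) true (nat_lit 7) true (nat_lit 26) true (nat_lit 25) (.s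 false (nat_lit 120) (nat_lit 27) (nat_lit 5) (nat_lit 1) (nat_lit 4) true (nat_lit 10) true (nat_lit 26) true (nat_lit 7) true (nat_lit 25) true (nat_lit 29) (.s false (nat_lit 45) (nat_lit 28) (nat_lit 5) (nat_lit 1) (nat_lit 4) true (nat_lit 10) true (nat_lit 26) true (nat_lit 7) true (nat_lit 25) true (nat_lit 29) (.s false (nat_lit 76) (nat_lit 29) (nat_lit 5) (nat_lit 1) (nat_lit 4) true (nat_lit 10) true (nat_lit 26) true (nat_lit 7) true (nat_lit 25) true (nat_lit 29) (.s false (nat_lit 197) (nat_lit 28) (nat_lit 5) (nat_lit 4) (nat_lit 1) true (nat_lit 13) true (nat_lit 29) true (nat_lit 7) true (nat_lit 25) true (nat_lit 26) (.s false (nat_lit 431) (nat_lit 29) (nat_lit 5) (nat_lit 4) (nat_lit 1) true (nat_lit 13) true (nat_lit 29) true (nat_lit 7) true (nat_lit 25) true (nat_lit 26) (.s false (nat_lit 254) (nat_lit 32) (nat_lit 0) (nat_lit 5) (nat_lit 4) true (nat_lit 18) true (nat_lit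 26) true (nat_lit 6) true (nat_lit 30) true (nat_lit 25) (.s true (nat_lit 142) (nat_lit 30) (nat_lit 4) (nat_lit 0) (nat_lit 5) true (nat_lit 10) true (nat_lit 25) true (nat_lit 6) true (nat_lit 26) true (nat_lit 30) (.s false (nat_lit 4) (nat_lit 31) (nat_lit 4) (nat_lit 0) (nat_lit 5) true (nat_lit 10) true (nat_lit 25) true (nat_lit 6) true (nat_lit 26) true (nat_lit 30) (.s false (nat_lit 48) (nat_lit 30) (nat_lit 4) (nat_lit 5) (nat_lit 0) true (nat_lit 18) true (nat_lit 30) true (nat_lit 6) true (nat_lit 26) true (nat_lit 25) (.s false (nat_lit 289) (nat_lit 32) (nat_lit 4) (nat_lit 5) (nat_lit 0) true (nat_lit 18) true (nat_lit 30) true (nat_lit 6) true (nat_lit 26) true (nat_lit 25) (.s false (nat_lit 28) (nat_lit 30) (nat_lit 5) (nat_lit 0) (nat_lit 4) true (nat_lit 10) true (nat_lit 26) true (nat_lit 6) true (nat_lit 25) true (nat_lit 30) (.s true (nat_lit 31) (nat_lit 31) (nat_lit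 5) (nat_lit 0) (nat_lit 4) true (nat_lit 10) true (nat_lit 26) true (nat_lit 6) true (nat_lit 25) true (nat_lit 30) (.s true (nat_lit 36) (nat_lit 30) (nat_lit 5) (nat_lit 4) (nat_lit 0) true (nat_lit 14) true (nat_lit 30) true (nat_lit 6) true (nat_lit 25) true (nat_lit 26) (.s true (nat_lit 505) (nat_lit 32) (nat_lit 5) (nat_lit 4) (nat_lit 0) true (nat_lit 14) true (nat_lit 30) true (nat_lit 6) true (nat_lit 25) true (nat_lit 26) dF4_i41)))))))))))))))))))))))))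

noncomputable def dF4_i43 : IL := (.s false (nat_lit 372) (nat_lit 20) (nat_lit 3) (nat_lit 6) (nat_lit 2) true (nat_lit 19) true (nat_lit 28) true (nat_lit 10) true (nat_lit 27) true (nat_lit 24) (.s true (nat_lit 186) (nat_lit 20) (nat_lit 3) (nat_lit 7) (nat_lit 1) true (nat_lit 20) true (nat_lit 29) true (nat_lit 10) true (nat_lit 27) true (nat_lit 23) (.s true (nat_lit 398) (nat_lit 20) (nat_lit 3) (nat_lit 8) (nat_lit 0) true (nat_lit 21) true (nat_lit 30) true (nat_lit 10) true (nat_lit 27) true (nat_lit 22) (.s true (nat_lit 6) (nat_lit 20) (nat_lit 6) (nat_lit 3) (nat_lit 2) true (nat_lit 9) true (nat_lit 28) true (nat_lit 10) true (nat_lit 24) true (nat_lit 27) (.s false (nat_lit 346) (nat_lit 20) (nat_lit 8) (nat_lit 0) (nat_lit 3) true (nat_lit 6) true (nat_lit 27) true (nat_lit 10) true (nat_lit 22) true (nat_lit 30) (.s true (nat_lit 119) (nat_lit 20) (nat_lit 10) (nat_lit 0)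 (nat_lit 2) true (nat_lit 6) true (nat_lit 28) true (nat_lit 10) true (nat_lit 20) true (nat_lit 30) (.s false (nat_lit 22) (nat_lit 22) (nat_lit 3) (nat_lit 4) (nat_lit 5) true (nat_lit 11) true (nat_lit 25) true (nat_lit 9) true (nat_lit 27) true (nat_lit 26) (.s true (nat_lit 32) (nat_lit 22) (nat_lit 3) (nat_lit 5) (nat_lit 4) true (nat_lit 15) true (nat_lit 26) true (nat_lit 9) true (nat_lit 27) true (nat_lit 25) (.s false (nat_lit 635) (nat_lit 23) (nat_lit 3) (nat_lit 5) (nat_lit 4) true (nat_lit 15) true (nat_lit 26) true (nat_lit 9) true (nat_lit 27) true (nat_lit 25) (.s true (nat_lit 219) (nat_lit 22) (nat_lit 4) (nat_lit 5) (nat_lit 3) true (nat_lit 15) true (nat_lit 27) true (nat_lit 9) true (nat_lit 26) true (nat_lit 25) (.s true (nat_lit 689) (nat_lit 23) (nat_lit 4) (nat_lit 5) (nat_lit 3) true (nat_lit 15) true (nat_lit 27) true (nat_lit 9) true (nat_lit 26) true (nat_lit 25)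 (.s true (nat_lit 208) (nat_lit 21) (nat_lit 5) (nat_lit 3) (nat_lit 4) true (nat_lit 10) true (nat_lit 26) true (nat_lit 9) true (nat_lit 25) true (nat_lit 27) (.s true (nat_lit 125) (nat_lit 22) (nat_lit 5) (nat_lit 3) (nat_lit 4) true (nat_lit 10) true (nat_lit 26) true (nat_lit 9) true (nat_lit 25) true (nat_lit 27) (.s false (nat_lit 471) (nat_lit 23) (nat_lit 5) (nat_lit 3) (nat_lit 4) true (nat_lit 10) true (nat_lit 26) true (nat_lit 9) true (nat_lit 25) true (nat_lit 27) (.s false (nat_lit 129) (nat_lit 22) (nat_lit 5) (nat_lit 4) (nat_lit 3) true (nat_lit 11) true (nat_lit 27) true (nat_lit 9) true (nat_lit 25) true (nat_lit 26) (.s true (nat_lit 368) (nat_lit 23) (nat_lit 5) (nat_lit 4) (nat_lit 3) true (nat_lit 11) true (nat_lit 27) true (nat_lit 9) true (nat_lit 25) true (nat_lit 26) (.s true (nat_lit 200) (nat_lit 25) (nat_lit 2) (nat_lit 5) (nat_lit 4) true (nat_lit 16) true (nat_lit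 26) true (nat_lit 8) true (nat_lit 28) true (nat_lit 25) (.s false (nat_lit 337) (nat_lit 26) (nat_lit 2) (nat_lit 5) (nat_lit 4) true (nat_lit 16) true (nat_lit 26) true (nat_lit 8) true (nat_lit 28) true (nat_lit 25) (.s false (nat_lit 204) (nat_lit 24) (nat_lit 4) (nat_lit 2) (nat_lit 5) true (nat_lit 10) true (nat_lit 25) true (nat_lit 8) true (nat_lit 26) true (nat_lit 28) (.s false (nat_lit 428) (nat_lit 26) (nat_lit 4) (nat_lit 2) (nat_lit 5) true (nat_lit 10) true (nat_lit 25) true (nat_lit 8) true (nat_lit 26) true (nat_lit 28) (.s true (nat_lit 6) (nat_lit 24) (nat_lit 4) (nat_lit 5) (nat_lit 2) true (nat_lit 16) true (nat_lit 28) true (nat_lit 8) true (nat_lit 26) true (nat_lit 25) (.s true (nat_lit 6) (nat_lit 25) (nat_lit 4) (nat_lit 5) (nat_lit 2) true (nat_lit 16) true (nat_lit 28) true (nat_lit 8) true (nat_lit 26) true (nat_lit 25) (.s false (nat_lit 200) (nat_lit 26) (nat_lit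 4) (nat_lit 5) (nat_lit 2) true (nat_lit 16) true (nat_lit 28) true (nat_lit 8) true (nat_lit 26) true (nat_lit 25) (.s true (nat_lit 52) (nat_lit 24) (nat_lit 5) (nat_lit 2) (nat_lit 4) true (nat_lit 10) true (nat_lit 26) true (nat_lit 8) true (nat_lit 25) true (nat_lit 28) (.s false (nat_lit 236) (nat_lit 25) (nat_lit 5) (nat_lit 2) (nat_lit 4) true (nat_lit 10) true (nat_lit 26) true (nat_lit 8) true (nat_lit 25) true (nat_lit 28) dF4_i42)))))))))))))))))))))))))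

noncomputable def dF4_i44 : IL := (.s true (nat_lit 468) (nat_lit 19) (nat_lit 2) (nat_lit 4) (nat_lit 6) true (nat_lit 9) true (nat_lit 24) true (nat_lit 11) true (nat_lit 28) true (nat_lit 26) (.s true (nat_lit 311) (nat_lit 19) (nat_lit 2) (nat_lit 6) (nat_lit 4) true (nat_lit 16) true (nat_lit 26) true (nat_lit 11) true (nat_lit 28) true (nat_lit 24) (.s false (nat_lit 12) (nat_lit 19) (nat_lit 2) (nat_lit 12) (nat_lit 1) true (nat_lit 22) true (nat_lit 29) true (nat_lit 11) true (nat_lit 28) true (nat_lit 18) (.s false (nat_lit 23) (nat_lit 19) (nat_lit 4) (nat_lit 0) (nat_lit 8) true (nat_lit 3) true (nat_lit 22) true (nat_lit 11) true (nat_lit 26) true (nat_lit 30) (.s true (nat_lit 299) (nat_lit 19) (nat_lit 4) (nat_lit 2) (nat_lit 6) true (nat_lit 5) true (nat_lit 24) true (nat_lit 11) true (nat_lit 26) true (nat_lit 28) (.s true (nat_lit 245) (nat_lit 19) (nat_lit 4) (nat_lit 7)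 (nat_lit 1) true (nat_lit 17) true (nat_lit 29) true (nat_lit 11) true (nat_lit 26) true (nat_lit 23) (.s true (nat_lit 148) (nat_lit 19) (nat_lit 4) (nat_lit 8) (nat_lit 0) true (nat_lit 18) true (nat_lit 30) true (nat_lit 11) true (nat_lit 26) true (nat_lit 22) (.s true (nat_lit 313) (nat_lit 19) (nat_lit 6) (nat_lit 2) (nat_lit 4) true (nat_lit 5) true (nat_lit 26) true (nat_lit 11) true (nat_lit 24) true (nat_lit 28) (.s true (nat_lit 658) (nat_lit 19) (nat_lit 6) (nat_lit 4) (nat_lit 2) true (nat_lit 9) true (nat_lit 28) true (nat_lit 11) true (nat_lit 24) true (nat_lit 26) (.s true (nat_lit 74) (nat_lit 19) (nat_lit 7) (nat_lit 4) (nat_lit 1) true (nat_lit 9) true (nat_lit 29) true (nat_lit 11) true (nat_lit 23) true (nat_lit 26) (.s true (nat_lit 374) (nat_lit 19) (nat_lit 8) (nat_lit 0) (nat_lit 4) true (nat_lit 3) true (nat_lit 26) true (nat_lit 11) true (nat_lit 22) true (nat_lit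 30) (.s true (nat_lit 128) (nat_lit 19) (nat_lit 8) (nat_lit 4) (nat_lit 0) true (nat_lit 9) true (nat_lit 30) true (nat_lit 11) true (nat_lit 22) true (nat_lit 26) (.s true (nat_lit 232) (nat_lit 19) (nat_lit 13) (nat_lit 0) (nat_lit 2) true (nat_lit 3) true (nat_lit 28) true (nat_lit 11) true (nat_lit 17) true (nat_lit 30) (.s false (nat_lit 49) (nat_lit 19) (nat_lit 13) (nat_lit 2) (nat_lit 0) true (nat_lit 5) true (nat_lit 30) true (nat_lit 11) true (nat_lit 17) true (nat_lit 28) (.s true (nat_lit 35) (nat_lit 19) (nat_lit 14) (nat_lit 0) (nat_lit 1) true (nat_lit 3) true (nat_lit 29) true (nat_lit 11) true (nat_lit 16) true (nat_lit 30) (.s true (nat_lit 419) (nat_lit 20) (nat_lit 0) (nat_lit 1) (nat_lit 11) true (nat_lit 7) true (nat_lit 19) true (nat_lit 10) true (nat_lit 30) true (nat_lit 29) (.s false (nat_lit 170) (nat_lit 20) (nat_lit 0) (nat_lit 2) (nat_lit 10) true (nat_lit 8)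 true (nat_lit 20) true (nat_lit 10) true (nat_lit 30) true (nat_lit 28) (.s false (nat_lit 112) (nat_lit 20) (nat_lit 1) (nat_lit 0) (nat_lit 11) true (nat_lit 6) true (nat_lit 19) true (nat_lit 10) true (nat_lit 29) true (nat_lit 30) (.s false (nat_lit 152) (nat_lit 20) (nat_lit 1) (nat_lit 9) (nat_lit 2) true (nat_lit 22) true (nat_lit 28) true (nat_lit 10) true (nat_lit 29) true (nat_lit 21) (.s true (nat_lit 9) (nat_lit 20) (nat_lit 1) (nat_lit 11) (nat_lit 0) true (nat_lit 24) true (nat_lit 30) true (nat_lit 10) true (nat_lit 29) true (nat_lit 19) (.s true (nat_lit 125) (nat_lit 20) (nat_lit 2) (nat_lit 0) (nat_lit 10) true (nat_lit 6) true (nat_lit 20) true (nat_lit 10) true (nat_lit 28) true (nat_lit 30) (.s true (nat_lit 1) (nat_lit 20) (nat_lit 2) (nat_lit 1) (nat_lit 9) true (nat_lit 7) true (nat_lit 21) true (nat_lit 10) true (nat_lit 28) true (nat_lit 29) (.s true (nat_lit 60) (nat_lit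 20) (nat_lit 2) (nat_lit 9) (nat_lit 1) true (nat_lit 22) true (nat_lit 29) true (nat_lit 10) true (nat_lit 28) true (nat_lit 21) (.s false (nat_lit 744) (nat_lit 20) (nat_lit 3) (nat_lit 0) (nat_lit 8) true (nat_lit 6) true (nat_lit 22) true (nat_lit 10) true (nat_lit 27) true (nat_lit 30) (.s false (nat_lit 6) (nat_lit 20) (nat_lit 3) (nat_lit 1) (nat_lit 7) true (nat_lit 7) true (nat_lit 23) true (nat_lit 10) true (nat_lit 27) true (nat_lit 29) dF4_i43)))))))))))))))))))))))))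

noncomputable def dF4_i45 : IL := (.s false (nat_lit 77) (nat_lit 16) (nat_lit 3) (nat_lit 14) (nat_lit 1) true (nat_lit 20) true (nat_lit 29) true (nat_lit 14) true (nat_lit 27) true (nat_lit 16) (.s false (nat_lit 167) (nat_lit 16) (nat_lit 13) (nat_lit 3) (nat_lit 2) true (nat_lit 3) true (nat_lit 28) true (nat_lit 14) true (nat_lit 17) true (nat_lit 27) (.s true (nat_lit 35) (nat_lit 17) (nat_lit 3) (nat_lit 4) (nat_lit 7) true (nat_lit 7) true (nat_lit 23) true (nat_lit 13) true (nat_lit 27) true (nat_lit 26) (.s true (nat_lit 325) (nat_lit 17) (nat_lit 4) (nat_lit 2) (nat_lit 9) true (nat_lit 2) true (nat_lit 21) true (nat_lit 13) true (nat_lit 26) true (nat_lit 28) (.s false (nat_lit 14) (nat_lit 17) (nat_lit 4) (nat_lit 9) (nat_lit 2) true (nat_lit 16) true (nat_lit 28) true (nat_lit 13) true (nat_lit 26) true (nat_lit 21) (.s false (nat_lit 464) (nat_lit 17) (nat_lit 7) (nat_lit 3)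 (nat_lit 4) true (nat_lit 4) true (nat_lit 26) true (nat_lit 13) true (nat_lit 23) true (nat_lit 27) (.s false (nat_lit 335) (nat_lit 17) (nat_lit 7) (nat_lit 4) (nat_lit 3) true (nat_lit 7) true (nat_lit 27) true (nat_lit 13) true (nat_lit 23) true (nat_lit 26) (.s false (nat_lit 33) (nat_lit 17) (nat_lit 11) (nat_lit 0) (nat_lit 4) true (nat_lit 0) true (nat_lit 26) true (nat_lit 13) true (nat_lit 19) true (nat_lit 30) (.s false (nat_lit 74) (nat_lit 17) (nat_lit 11) (nat_lit 4) (nat_lit 0) true (nat_lit 7) true (nat_lit 30) true (nat_lit 13) true (nat_lit 19) true (nat_lit 26) (.s false (nat_lit 91) (nat_lit 17) (nat_lit 14) (nat_lit 0) (nat_lit 3) true (nat_lit 0) true (nat_lit 27) true (nat_lit 13) true (nat_lit 16) true (nat_lit 30) (.s false (nat_lit 778) (nat_lit 17) (nat_lit 15) (nat_lit 2) (nat_lit 0) true (nat_lit 2) true (nat_lit 30) true (nat_lit 13) true (nat_lit 15) true (nat_lit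 28) (.s false (nat_lit 33) (nat_lit 18) (nat_lit 0) (nat_lit 1) (nat_lit 15) true (nat_lit 2) true (nat_lit 15) true (nat_lit 12) true (nat_lit 30) true (nat_lit 29) (.s true (nat_lit 1108) (nat_lit 18) (nat_lit 0) (nat_lit 15) (nat_lit 1) true (nat_lit 24) true (nat_lit 29) true (nat_lit 12) true (nat_lit 30) true (nat_lit 15) (.s false (nat_lit 553) (nat_lit 18) (nat_lit 3) (nat_lit 4) (nat_lit 6) true (nat_lit 8) true (nat_lit 24) true (nat_lit 12) true (nat_lit 27) true (nat_lit 26) (.s false (nat_lit 251) (nat_lit 18) (nat_lit 3) (nat_lit 6) (nat_lit 4) true (nat_lit 15) true (nat_lit 26) true (nat_lit 12) true (nat_lit 27) true (nat_lit 24) (.s false (nat_lit 36) (nat_lit 18) (nat_lit 3) (nat_lit 12) (nat_lit 1) true (nat_lit 20) true (nat_lit 29) true (nat_lit 12) true (nat_lit 27) true (nat_lit 18) (.s false (nat_lit 13) (nat_lit 18) (nat_lit 4) (nat_lit 3) (nat_lit 6) true (nat_lit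 5) true (nat_lit 24) true (nat_lit 12) true (nat_lit 26) true (nat_lit 27) (.s true (nat_lit 560) (nat_lit 18) (nat_lit 4) (nat_lit 6) (nat_lit 3) true (nat_lit 15) true (nat_lit 27) true (nat_lit 12) true (nat_lit 26) true (nat_lit 24) (.s true (nat_lit 308) (nat_lit 18) (nat_lit 6) (nat_lit 4) (nat_lit 3) true (nat_lit 8) true (nat_lit 27) true (nat_lit 12) true (nat_lit 24) true (nat_lit 26) (.s false (nat_lit 4) (nat_lit 18) (nat_lit 10) (nat_lit 0) (nat_lit 4) true (nat_lit 1) true (nat_lit 26) true (nat_lit 12) true (nat_lit 20) true (nat_lit 30) (.s true (nat_lit 109) (nat_lit 18) (nat_lit 13) (nat_lit 0) (nat_lit 3) true (nat_lit 1) true (nat_lit 27) true (nat_lit 12) true (nat_lit 17) true (nat_lit 30) (.s false (nat_lit 214) (nat_lit 18) (nat_lit 15) (nat_lit 0) (nat_lit 1) true (nat_lit 1) true (nat_lit 29) true (nat_lit 12) true (nat_lit 15) true (nat_lit 30) (.s true (nat_lit 243)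 (nat_lit 19) (nat_lit 0) (nat_lit 1) (nat_lit 14) true (nat_lit 4) true (nat_lit 16) true (nat_lit 11) true (nat_lit 30) true (nat_lit 29) (.s false (nat_lit 12) (nat_lit 19) (nat_lit 0) (nat_lit 4) (nat_lit 8) true (nat_lit 9) true (nat_lit 22) true (nat_lit 11) true (nat_lit 30) true (nat_lit 26) (.s true (nat_lit 87) (nat_lit 19) (nat_lit 1) (nat_lit 7) (nat_lit 4) true (nat_lit 17) true (nat_lit 26) true (nat_lit 11) true (nat_lit 29) true (nat_lit 23) dF4_i44)))))))))))))))))))))))))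

noncomputable def dF4_i46 : IL := (.s true (nat_lit 112) (nat_lit 11) (nat_lit 5) (nat_lit 6) (nat_lit 4) true (nat_lit 10) true (nat_lit 26) true (nat_lit 19) true (nat_lit 25) true (nat_lit 24) (.s false (nat_lit 123) (nat_lit 12) (nat_lit 3) (nat_lit 5) (nat_lit 8) true (nat_lit 6) true (nat_lit 22) true (nat_lit 18) true (nat_lit 27) true (nat_lit 25) (.s true (nat_lit 15) (nat_lit 12) (nat_lit 8) (nat_lit 5) (nat_lit 3) true (nat_lit 6) true (nat_lit 27) true (nat_lit 18) true (nat_lit 22) true (nat_lit 25) (.s true (nat_lit 18) (nat_lit 13) (nat_lit 5) (nat_lit 3) (nat_lit 7) false (nat_lit 1) true (nat_lit 23) true (nat_lit 17) true (nat_lit 25) true (nat_lit 27) (.s false (nat_lit 122) (nat_lit 13) (nat_lit 7) (nat_lit 3) (nat_lit 5) false (nat_lit 1) true (nat_lit 25) true (nat_lit 17) true (nat_lit 23) true (nat_lit 27) (.s false (nat_lit 66) (nat_lit 13) (nat_lit 7) (nat_lit 5)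 (nat_lit 3) true (nat_lit 7) true (nat_lit 27) true (nat_lit 17) true (nat_lit 23) true (nat_lit 25) (.s false (nat_lit 143) (nat_lit 14) (nat_lit 0) (nat_lit 5) (nat_lit 10) true (nat_lit 8) true (nat_lit 20) true (nat_lit 16) true (nat_lit 30) true (nat_lit 25) (.s false (nat_lit 37) (nat_lit 14) (nat_lit 1) (nat_lit 9) (nat_lit 5) true (nat_lit 13) true (nat_lit 25) true (nat_lit 16) true (nat_lit 29) true (nat_lit 21) (.s true (nat_lit 444) (nat_lit 14) (nat_lit 3) (nat_lit 5) (nat_lit 6) true (nat_lit 8) true (nat_lit 24) true (nat_lit 16) true (nat_lit 27) true (nat_lit 25) (.s false (nat_lit 85) (nat_lit 14) (nat_lit 3) (nat_lit 6) (nat_lit 5) true (nat_lit 11) true (nat_lit 25) true (nat_lit 16) true (nat_lit 27) true (nat_lit 24) (.s false (nat_lit 310) (nat_lit 14) (nat_lit 5) (nat_lit 0) (nat_lit 10) false (nat_lit 4) true (nat_lit 20) true (nat_lit 16) true (nat_lit 25) true (nat_lit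 30) (.s false (nat_lit 110) (nat_lit 14) (nat_lit 5) (nat_lit 3) (nat_lit 6) false (nat_lit 0) true (nat_lit 24) true (nat_lit 16) true (nat_lit 25) true (nat_lit 27) (.s false (nat_lit 71) (nat_lit 14) (nat_lit 6) (nat_lit 5) (nat_lit 3) true (nat_lit 8) true (nat_lit 27) true (nat_lit 16) true (nat_lit 24) true (nat_lit 25) (.s false (nat_lit 361) (nat_lit 15) (nat_lit 0) (nat_lit 5) (nat_lit 8) true (nat_lit 9) true (nat_lit 22) true (nat_lit 15) true (nat_lit 30) true (nat_lit 25) (.s false (nat_lit 169) (nat_lit 15) (nat_lit 0) (nat_lit 8) (nat_lit 5) true (nat_lit 14) true (nat_lit 25) true (nat_lit 15) true (nat_lit 30) true (nat_lit 22) (.s true (nat_lit 6) (nat_lit 15) (nat_lit 1) (nat_lit 7) (nat_lit 5) true (nat_lit 13) true (nat_lit 25) true (nat_lit 15) true (nat_lit 29) true (nat_lit 23) (.s false (nat_lit 366) (nat_lit 15) (nat_lit 2) (nat_lit 5) (nat_lit 6) true (nat_lit 9)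 true (nat_lit 24) true (nat_lit 15) true (nat_lit 28) true (nat_lit 25) (.s false (nat_lit 328) (nat_lit 15) (nat_lit 2) (nat_lit 6) (nat_lit 5) true (nat_lit 12) true (nat_lit 25) true (nat_lit 15) true (nat_lit 28) true (nat_lit 24) (.s true (nat_lit 448) (nat_lit 15) (nat_lit 5) (nat_lit 2) (nat_lit 6) false (nat_lit 0) true (nat_lit 24) true (nat_lit 15) true (nat_lit 25) true (nat_lit 28) (.s true (nat_lit 175) (nat_lit 15) (nat_lit 5) (nat_lit 6) (nat_lit 2) true (nat_lit 12) true (nat_lit 28) true (nat_lit 15) true (nat_lit 25) true (nat_lit 24) (.s true (nat_lit 766) (nat_lit 15) (nat_lit 5) (nat_lit 8) (nat_lit 0) true (nat_lit 14) true (nat_lit 30) true (nat_lit 15) true (nat_lit 25) true (nat_lit 22) (.s false (nat_lit 572) (nat_lit 15) (nat_lit 6) (nat_lit 5) (nat_lit 2) true (nat_lit 9) true (nat_lit 28) true (nat_lit 15) true (nat_lit 24) true (nat_lit 25) (.s true (nat_lit 799)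 (nat_lit 16) (nat_lit 1) (nat_lit 2) (nat_lit 15) true (nat_lit 1) true (nat_lit 15) true (nat_lit 14) true (nat_lit 29) true (nat_lit 28) (.s false (nat_lit 294) (nat_lit 16) (nat_lit 1) (nat_lit 11) (nat_lit 4) true (nat_lit 17) true (nat_lit 26) true (nat_lit 14) true (nat_lit 29) true (nat_lit 19) (.s true (nat_lit 3) (nat_lit 16) (nat_lit 2) (nat_lit 10) (nat_lit 4) true (nat_lit 16) true (nat_lit 26) true (nat_lit 14) true (nat_lit 28) true (nat_lit 20) dF4_i45)))))))))))))))))))))))))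

noncomputable def dF4_il : IL := (.s false (nat_lit 137) (nat_lit 9) (nat_lit 4) (nat_lit 5) (nat_lit 8) true (nat_lit 3) true (nat_lit 22) true (nat_lit 21) true (nat_lit 26) true (nat_lit 25) (.s true (nat_lit 527) (nat_lit 9) (nat_lit 4) (nat_lit 8) (nat_lit 5) true (nat_lit 10) true (nat_lit 25) true (nat_lit 21) true (nat_lit 26) true (nat_lit 22) (.s false (nat_lit 395) (nat_lit 9) (nat_lit 5) (nat_lit 8) (nat_lit 4) true (nat_lit 10) true (nat_lit 26) true (nat_lit 21) true (nat_lit 25) true (nat_lit 22) (.s false (nat_lit 653) (nat_lit 9) (nat_lit 8) (nat_lit 4) (nat_lit 5) false (nat_lit 2) true (nat_lit 25) true (nat_lit 21) true (nat_lit 22) true (nat_lit 26) (.s true (nat_lit 564) (nat_lit 10) (nat_lit 4) (nat_lit 7) (nat_lit 5) true (nat_lit 10) true (nat_lit 25) true (nat_lit 20) true (nat_lit 26) true (nat_lit 23) (.s true (nat_lit 539) (nat_lit 11) (nat_lit 4) (nat_lit 5) (nat_lit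 6) true (nat_lit 5) true (nat_lit 24) true (nat_lit 19) true (nat_lit 26) true (nat_lit 25) (.s false (nat_lit 305) (nat_lit 11) (nat_lit 4) (nat_lit 6) (nat_lit 5) true (nat_lit 10) true (nat_lit 25) true (nat_lit 19) true (nat_lit 26) true (nat_lit 24) (.s false (nat_lit 96) (nat_lit 11) (nat_lit 5) (nat_lit 4) (nat_lit 6) false (nat_lit 0) true (nat_lit 24) true (nat_lit 19) true (nat_lit 25) true (nat_lit 26) dF4_i46))))))))

theorem dF4_chk : chk 1 idsV dF4_D par1 (cls1 0) F4Ex (.c (nat_lit 5) (nat_lit 1) (.c (nat_lit 4) (nat_lit 16) (.c (nat_lit 3) (nat_lit 256) (.c (nat_lit 2) (nat_lit 4096) (.c (nat_lit 1) (nat_lit 65536) (.c (nat_lit 0) (nat_lit 1048576) .nil)))))) (nat_lit 772) (nat_lit 1118481) (nat_lit 2) dF4_gs dF4_il = true := by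
  decide +kernel

end Chk

/-- certificate of `F4Ex` -/
theorem cert_F4Ex : Cert.{u} 1 idsV par1 (cls1 0) F4Ex :=
  Chk.chk_sound _ _ (by simp [idsV]) (by simp [idsV]) _ _ _ _ _ _ _ _ _ _ Chk.dF4_chk

end Pool.Agent.MalP
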