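import Pool.Agent.MalP.Check4
import Pool.Agent.MalP.CertPar

/-! # Certificate of F6Ex -/

set_option autoImplicit false
set_option maxRecDepth 100000

namespace Pool.Agent.MalP

universe u

namespace Chk

noncomputable def dF6aa_c544 : Cm := .mk (nat_lit 22) (nat_lit 544) (nat_lit 25) (nat_lit 3) (.c (nat_lit 4) (nat_lit 1) (nat_lit 4) (nat_lit 1) (nat_lit 3) (.c (nat_lit 5) (nat_lit 1) (nat_lit 3) (nat_lit 1) (nat_lit 4) (.c (nat_lit 9) (nat_lit 2) (nat_lit 1) (nat_lit 1) (nat_lit 5) (.c (nat_lit 11) (nat_lit 2) (nat_lit 0) (nat_lit 1) (nat_lit 7) .nil))))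

noncomputable def dF6aa_c529 : Cm := .mk (nat_lit 27) (nat_lit 529) (nat_lit 28) (nat_lit 6) (.c (nat_lit 6) (nat_lit 1) (nat_lit 4) (nat_lit 1) (nat_lit 6) (.c (nat_lit 7) (nat_lit 1) (nat_lit 3) (nat_lit 1) (nat_lit 7) (.c (nat_lit 9) (nat_lit 2) (nat_lit 2) (nat_lit 1) (nat_lit 8) (.c (nat_lit 13) (nat_lit 2) (nat_lit 1) (nat_lit 1) (nat_lit 10) (.c (nat_lit 15) (nat_lit 3) (nat_lit 0) (nat_lit 1) (nat_lit 12) .nil)))))

noncomputable def dF6aa_c289 : Cm := .mk (nat_lit 36) (nat_lit 289) (nat_lit 34) (nat_lit 6) (.c (nat_lit 6) (nat_lit 1) (nat_lit 5) (nat_lit 1) (nat_lit 6) (.c (nat_lit 7) (nat_lit 1) (nat_lit 4) (nat_lit 1) (nat_lit 7) (.c (nat_lit 11) (nat_lit 2) (nat_lit 2) (nat_lit 1) (nat_lit 8) (.c (nat_lit 15) (nat_lit 3) (nat_lit 1) (nat_lit 1) (nat_lit 10) (.c (nat_lit 18) (nat_lit 2) (nat_lit 0) (nat_lit 1) (nat_lit 13) .nil)))))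

noncomputable def dF6aa_c514 : Cm := .mk (nat_lit 45) (nat_lit 514) (nat_lit 40) (nat_lit 3) (.c (nat_lit 6) (nat_lit 1) (nat_lit 6) (nat_lit 1) (nat_lit 3) (.c (nat_lit 8) (nat_lit 1) (nat_lit 3) (nat_lit 1) (nat_lit 4) (.c (nat_lit 13) (nat_lit 2) (nat_lit 2) (nat_lit 1) (nat_lit 5) (.c (nat_lit 20) (nat_lit 2) (nat_lit 0) (nat_lit 1) (nat_lit 7) .nil))))

noncomputable def dF6aa_c274 : Cm := .mk (nat_lit 50) (nat_lit 274) (nat_lit 43) (nat_lit 6) (.c (nat_lit 7) (nat_lit 1) (nat_lit 6) (nat_lit 1) (nat_lit 6) (.c (nat_lit 8) (nat_lit 1) (nat_lit 4) (nat_lit 1) (nat_lit 7) (.c (nat_lit 15) (nat_lit 3) (nat_lit 2) (nat_lit 1) (nat_lit 8) (.c (nat_lit 20) (nat_lit 2) (nat_lit 1) (nat_lit 1) (nat_lit 11) (.c (nat_lit 22) (nat_lit 2) (nat_lit 0) (nat_lit 1) (nat_lit 13) .nil)))))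

noncomputable def dF6aa_c34 : Cm := .mk (nat_lit 59) (nat_lit 34) (nat_lit 49) (nat_lit 3) (.c (nat_lit 7) (nat_lit 1) (nat_lit 7) (nat_lit 1) (nat_lit 3) (.c (nat_lit 8) (nat_lit 1) (nat_lit 5) (nat_lit 1) (nat_lit 4) (.c (nat_lit 18) (nat_lit 2) (nat_lit 2) (nat_lit 1) (nat_lit 5) (.c (nat_lit 22) (nat_lit 2) (nat_lit 1) (nat_lit 1) (nat_lit 7) .nil))))

noncomputable def dF6aa_c259 : Cm := .mk (nat_lit 64) (nat_lit 259) (nat_lit 52) (nat_lit 3) (.c (nat_lit 8) (nat_lit 1) (nat_lit 6) (nat_lit 1) (nat_lit 3) (.c (nat_lit 20) (nat_lit 2) (nat_lit 2) (nat_lit 1) (nat_lit 4) (.c (nat_lit 24) (nat_lit 1) (nat_lit 0) (nat_lit 1) (nat_lit 6) .nil)))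

noncomputable def dF6aa_c19 : Cm := .mk (nat_lit 68) (nat_lit 19) (nat_lit 55) (nat_lit 3) (.c (nat_lit 8) (nat_lit 1) (nat_lit 7) (nat_lit 1) (nat_lit 3) (.c (nat_lit 22) (nat_lit 2) (nat_lit 2) (nat_lit 1) (nat_lit 4) (.c (nat_lit 24) (nat_lit 1) (nat_lit 1) (nat_lit 1) (nat_lit 6) .nil)))

noncomputable def dF6aa_c545 : Cm := .mk (nat_lit 72) (nat_lit 545) (nat_lit 58) (nat_lit 14) (.c (nat_lit 9) (nat_lit 2) (nat_lit 7) (nat_lit 1) (nat_lit 14) (.c (nat_lit 11) (nat_lit 2) (nat_lit 6) (nat_lit 1) (nat_lit 16) (.c (nat_lit 13) (nat_lit 2) (nat_lit 5) (nat_lit 1) (nat_lit 18) (.c (nat_lit 15) (nat_lit 3) (nat_lit 4) (nat_lit 1) (nat_lit 20) (.c (nat_lit 18) (nat_lit 2) (nat_lit 3) (nat_lit 1) (nat_lit 23) (.c (nat_lit 25) (nat_lit 3) (nat_lit 2) (nat_lit 1) (nat_lit 25) (.c (nat_lit 28) (nat_lit 6) (nat_lit 1) (nat_lit 1) (nat_lit 28) (.c (nat_lit 34) (nat_lit 6) (nat_lit 0) (nat_lit 1) (nat_lit 34) .nil))))))))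

noncomputable def dF6aa_c530 : Cm := .mk (nat_lit 98) (nat_lit 530) (nat_lit 72) (nat_lit 14) (.c (nat_lit 9) (nat_lit 2) (nat_lit 8) (nat_lit 1) (nat_lit 14) (.c (nat_lit 13) (nat_lit 2) (nat_lit 7) (nat_lit 1) (nat_lit 16) (.c (nat_lit 15) (nat_lit 3) (nat_lit 6) (nat_lit 1) (nat_lit 18) (.c (nat_lit 20) (nat_lit 2) (nat_lit 4) (nat_lit 1) (nat_lit 21) (.c (nat_lit 22) (nat_lit 2) (nat_lit 3) (nat_lit 1) (nat_lit 23) (.c (nat_lit 28) (nat_lit 6) (nat_lit 2) (nat_lit 1) (nat_lit 25) (.c (nat_lit 40) (nat_lit 3) (nat_lit 1) (nat_lit 1) (nat_lit 31) (.c (nat_lit 43) (nat_lit 6) (nat_lit 0) (nat_lit 1) (nat_lit 34) .nil))))))))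

noncomputable def dF6aa_c290 : Cm := .mk (nat_lit 124) (nat_lit 290) (nat_lit 86) (nat_lit 14) (.c (nat_lit 11) (nat_lit 2) (nat_lit 8) (nat_lit 1) (nat_lit 14) (.c (nat_lit 15) (nat_lit 3) (nat_lit 7) (nat_lit 1) (nat_lit 16) (.c (nat_lit 18) (nat_lit 2) (nat_lit 6) (nat_lit 1) (nat_lit 19) (.c (nat_lit 20) (nat_lit 2) (nat_lit 5) (nat_lit 1) (nat_lit 21) (.c (nat_lit 22) (nat_lit 2) (nat_lit 4) (nat_lit 1) (nat_lit 23) (.c (nat_lit 34) (nat_lit 6) (nat_lit 2) (nat_lit 1) (nat_lit 25) (.c (nat_lit 43) (nat_lit 6) (nat_lit 1) (nat_lit 1) (nat_lit 31) (.c (nat_lit 49) (nat_lit 3) (nat_lit 0) (nat_lit 1) (nat_lit 37) .nil))))))))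

noncomputable def dF6aa_c515 : Cm := .mk (nat_lit 150) (nat_lit 515) (nat_lit 100) (nat_lit 6) (.c (nat_lit 13) (nat_lit 2) (nat_lit 8) (nat_lit 1) (nat_lit 6) (.c (nat_lit 20) (nat_lit 2) (nat_lit 6) (nat_lit 1) (nat_lit 8) (.c (nat_lit 24) (nat_lit 1) (nat_lit 3) (nat_lit 1) (nat_lit 10) (.c (nat_lit 40) (nat_lit 3) (nat_lit 2) (nat_lit 1) (nat_lit 11) (.c (nat_lit 52) (nat_lit 3) (nat_lit 0) (nat_lit 1) (nat_lit 14) .nil)))))

noncomputable def dF6aa_c275 : Cm := .mk (nat_lit 161) (nat_lit 275) (nat_lit 106) (nat_lit 11) (.c (nat_lit 15) (nat_lit 3) (nat_lit 8) (nat_lit 1) (nat_lit 11) (.c (nat_lit 20) (nat_lit 2) (nat_lit 7) (nat_lit 1) (nat_lit 14) (.c (nat_lit 22) (nat_lit 2) (nat_lit 6) (nat_lit 1) (nat_lit 16) (.c (nat_lit 24) (nat_lit 1) (nat_lit 4) (nat_lit 1) (nat_lit 18) (.c (nat_lit 43) (nat_lit 6) (nat_lit 2) (nat_lit 1) (nat_lit 19) (.c (nat_lit 52) (nat_lit 3) (nat_lit 1) (nat_lit 1) (nat_lit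 25) (.c (nat_lit 55) (nat_lit 3) (nat_lit 0) (nat_lit 1) (nat_lit 28) .nil)))))))

noncomputable def dF6aa_c35 : Cm := .mk (nat_lit 181) (nat_lit 35) (nat_lit 117) (nat_lit 6) (.c (nat_lit 18) (nat_lit 2) (nat_lit 8) (nat_lit 1) (nat_lit 6) (.c (nat_lit 22) (nat_lit 2) (nat_lit 7) (nat_lit 1) (nat_lit 8) (.c (nat_lit 24) (nat_lit 1) (nat_lit 5) (nat_lit 1) (nat_lit 10) (.c (nat_lit 49) (nat_lit 3) (nat_lit 2) (nat_lit 1) (nat_lit 11) (.c (nat_lit 55) (nat_lit 3) (nat_lit 1) (nat_lit 1) (nat_lit 14) .nil)))))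

noncomputable def dF6aa_c546 : Cm := .mk (nat_lit 192) (nat_lit 546) (nat_lit 123) (nat_lit 33) (.c (nat_lit 15) (nat_lit 3) (nat_lit 15) (nat_lit 3) (nat_lit 33) (.c (nat_lit 18) (nat_lit 2) (nat_lit 13) (nat_lit 2) (nat_lit 42) (.c (nat_lit 20) (nat_lit 2) (nat_lit 11) (nat_lit 2) (nat_lit 46) (.c (nat_lit 22) (nat_lit 2) (nat_lit 9) (nat_lit 2) (nat_lit 50) (.c (nat_lit 25) (nat_lit 3) (nat_lit 8) (nat_lit 1) (nat_lit 54) (.c (nat_lit 28) (nat_lit 6) (nat_lit 7) (nat_lit 1) (nat_lit 57) (.c (nat_lit 34) (nat_lit 6) (nat_lit 6) (nat_lit 1) (nat_lit 63) (.c (nat_lit 40) (nat_lit 3) (nat_lit 5) (nat_lit 1) (nat_lit 69) (.c (nat_lit 43) (nat_lit 6) (nat_lit 4) (nat_lit 1) (nat_lit 72) (.c (nat_lit 49) (nat_lit 3) (nat_lit 3) (nat_lit 1) (nat_lit 78) (.c (nat_lit 58) (nat_lit 14) (nat_lit 2) (nat_lit 1) (nat_lit 81) (.c (nat_lit 72) (nat_lit 14) (nat_lit 1) (nat_lit 1) (nat_lit 95) (.c (nat_lit 86) (nat_lit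 14) (nat_lit 0) (nat_lit 1) (nat_lit 109) .nil)))))))))))))

noncomputable def dF6aa_c531 : Cm := .mk (nat_lit 277) (nat_lit 531) (nat_lit 156) (nat_lit 23) (.c (nat_lit 20) (nat_lit 2) (nat_lit 15) (nat_lit 3) (nat_lit 23) (.c (nat_lit 22) (nat_lit 2) (nat_lit 13) (nat_lit 2) (nat_lit 29) (.c (nat_lit 24) (nat_lit 1) (nat_lit 9) (nat_lit 2) (nat_lit 33) (.c (nat_lit 28) (nat_lit 6) (nat_lit 8) (nat_lit 1) (nat_lit 35) (.c (nat_lit 40) (nat_lit 3) (nat_lit 7) (nat_lit 1) (nat_lit 41) (.c (nat_lit 43) (nat_lit 6) (nat_lit 6) (nat_lit 1) (nat_lit 44) (.c (nat_lit 52) (nat_lit 3) (nat_lit 4) (nat_lit 1) (nat_lit 50) (.c (nat_lit 55) (nat_lit 3) (nat_lit 3) (nat_lit 1) (nat_lit 53) (.c (nat_lit 72) (nat_lit 14) (nat_lit 2) (nat_lit 1) (nat_lit 56) (.c (nat_lit 100) (nat_lit 6) (nat_lit 1) (nat_lit 1) (nat_lit 70) (.c (nat_lit 106) (nat_lit 11) (nat_lit 0) (nat_lit 1) (nat_lit 76) .nil)))))))))))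

noncomputable def dF6aa_c291 : Cm := .mk (nat_lit 341) (nat_lit 291) (nat_lit 179) (nat_lit 23) (.c (nat_lit 20) (nat_lit 2) (nat_lit 18) (nat_lit 2) (nat_lit 23) (.c (nat_lit 22) (nat_lit 2) (nat_lit 15) (nat_lit 3) (nat_lit 27) (.c (nat_lit 24) (nat_lit 1) (nat_lit 11) (nat_lit 2) (nat_lit 33) (.c (nat_lit 34) (nat_lit 6) (nat_lit 8) (nat_lit 1) (nat_lit 35) (.c (nat_lit 43) (nat_lit 6) (nat_lit 7) (nat_lit 1) (nat_lit 41) (.c (nat_lit 49) (nat_lit 3) (nat_lit 6) (nat_lit 1) (nat_lit 47) (.c (nat_lit 52) (nat_lit 3) (nat_lit 5) (nat_lit 1) (nat_lit 50) (.c (nat_lit 55) (nat_lit 3) (nat_lit 4) (nat_lit 1) (nat_lit 53) (.c (nat_lit 86) (nat_lit 14) (nat_lit 2) (nat_lit 1) (nat_lit 56) (.c (nat_lit 106) (nat_lit 11) (nat_lit 1) (nat_lit 1) (nat_lit 70) (.c (nat_lit 117) (nat_lit 6) (nat_lit 0) (nat_lit 1) (nat_lit 81) .nil)))))))))))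

noncomputable def dF6aa_i0 : IL := (.e false (nat_lit 36) (nat_lit 31) (nat_lit 7) (nat_lit 5) (.e false (nat_lit 36) (nat_lit 66) (nat_lit 2) (nat_lit 10) (.e true (nat_lit 72) (nat_lit 71) (nat_lit 2) (nat_lit 10) (.e true (nat_lit 36) (nat_lit 85) (nat_lit 1) (nat_lit 11) (.e false (nat_lit 36) (nat_lit 46) (nat_lit 4) (nat_lit 8) (.e true (nat_lit 36) (nat_lit 88) (nat_lit 0) (nat_lit 12) (.e true (nat_lit 36) (nat_lit 89) (nat_lit 0) (nat_lit 12) (.e false (nat_lit 72) (nat_lit 91) (nat_lit 0) (nat_lit 12) (.e false (nat_lit 36) (nat_lit 95) (nat_lit 0) (nat_lit 12) (.e true (nat_lit 36) (nat_lit 99) (nat_lit 0) (nat_lit 12) (.e false (nat_lit 36) (nat_lit 60) (nat_lit 2) (nat_lit 10) (.e false (nat_lit 72) (nat_lit 65) (nat_lit 2) (nat_lit 10) (.e true (nat_lit 72) (nat_lit 69) (nat_lit 2) (nat_lit 10) (.e true (nat_lit 36) (nat_lit 72) (nat_lit 1) (nat_lit 11) (.e false (nat_lit 36) (nat_lit 75) (nat_lit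 1) (nat_lit 11) (.e true (nat_lit 36) (nat_lit 76) (nat_lit 1) (nat_lit 11) (.e false (nat_lit 72) (nat_lit 79) (nat_lit 1) (nat_lit 11) (.e true (nat_lit 72) (nat_lit 80) (nat_lit 1) (nat_lit 11) (.e true (nat_lit 36) (nat_lit 83) (nat_lit 1) (nat_lit 11) (.e false (nat_lit 36) (nat_lit 84) (nat_lit 1) (nat_lit 11) (.e true (nat_lit 36) (nat_lit 97) (nat_lit 0) (nat_lit 12) (.e true (nat_lit 72) (nat_lit 59) (nat_lit 2) (nat_lit 10) (.e true (nat_lit 36) (nat_lit 67) (nat_lit 2) (nat_lit 10) (.e false (nat_lit 36) (nat_lit 68) (nat_lit 2) (nat_lit 10) (.e false (nat_lit 36) (nat_lit 70) (nat_lit 2) (nat_lit 10) .nil)))))))))))))))))))))))))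

noncomputable def dF6aa_i1 : IL := (.e true (nat_lit 1679616) (nat_lit 61) (nat_lit 2) (nat_lit 10) (.e false (nat_lit 559872) (nat_lit 62) (nat_lit 2) (nat_lit 10) (.e true (nat_lit 279936) (nat_lit 65) (nat_lit 2) (nat_lit 10) (.e false (nat_lit 1259712) (nat_lit 67) (nat_lit 2) (nat_lit 10) (.e true (nat_lit 1819584) (nat_lit 68) (nat_lit 2) (nat_lit 10) (.e false (nat_lit 1959552) (nat_lit 69) (nat_lit 2) (nat_lit 10) (.e true (nat_lit 1819584) (nat_lit 70) (nat_lit 2) (nat_lit 10) (.e false (nat_lit 3079296) (nat_lit 71) (nat_lit 2) (nat_lit 10) (.e true (nat_lit 279936) (nat_lit 79) (nat_lit 1) (nat_lit 11) (.e false (nat_lit 839808) (nat_lit 80) (nat_lit 1) (nat_lit 11) (.e false (nat_lit 139968) (nat_lit 83) (nat_lit 1) (nat_lit 11) (.e false (nat_lit 419904) (nat_lit 84) (nat_lit 1) (nat_lit 11) (.e false (nat_lit 139968) (nat_lit 85) (nat_lit 1) (nat_lit 11) (.e false (nat_lit 699840) (nat_lit 28)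 (nat_lit 7) (nat_lit 5) (.e true (nat_lit 699840) (nat_lit 31) (nat_lit 7) (nat_lit 5) (.e true (nat_lit 1259712) (nat_lit 66) (nat_lit 2) (nat_lit 10) (.e true (nat_lit 419904) (nat_lit 88) (nat_lit 0) (nat_lit 12) (.e true (nat_lit 419904) (nat_lit 89) (nat_lit 0) (nat_lit 12) (.e true (nat_lit 279936) (nat_lit 91) (nat_lit 0) (nat_lit 12) (.e true (nat_lit 699840) (nat_lit 95) (nat_lit 0) (nat_lit 12) (.e true (nat_lit 419904) (nat_lit 99) (nat_lit 0) (nat_lit 12) (.e false (nat_lit 699840) (nat_lit 72) (nat_lit 1) (nat_lit 11) (.e true (nat_lit 139968) (nat_lit 75) (nat_lit 1) (nat_lit 11) (.e false (nat_lit 699840) (nat_lit 76) (nat_lit 1) (nat_lit 11) (.e false (nat_lit 1819584) (nat_lit 97) (nat_lit 0) (nat_lit 12) .nil)))))))))))))))))))))))))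

noncomputable def dF6aa_i2 : IL := (.s false (nat_lit 16848) (nat_lit 14) (nat_lit 1) (nat_lit 2) (nat_lit 1) true (nat_lit 7) true (nat_lit 11) true (nat_lit 1) true (nat_lit 11) true (nat_lit 10) (.s true (nat_lit 3888) (nat_lit 15) (nat_lit 0) (nat_lit 1) (nat_lit 2) true (nat_lit 6) true (nat_lit 10) true (nat_lit 0) true (nat_lit 12) true (nat_lit 11) (.s true (nat_lit 50544) (nat_lit 16) (nat_lit 0) (nat_lit 1) (nat_lit 2) true (nat_lit 6) true (nat_lit 10) true (nat_lit 0) true (nat_lit 12) true (nat_lit 11) (.s true (nat_lit 6480) (nat_lit 15) (nat_lit 0) (nat_lit 2) (nat_lit 1) true (nat_lit 8) true (nat_lit 11) true (nat_lit 0) true (nat_lit 12) true (nat_lit 10) (.s false (nat_lit 7776) (nat_lit 15) (nat_lit 1) (nat_lit 0) (nat_lit 2) true (nat_lit 5) true (nat_lit 10) true (nat_lit 0) true (nat_lit 11) true (nat_lit 12) (.s false (nat_lit 54432) (nat_lit 16) (nat_lit 1) (nat_lit 0) (nat_lit 2)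 true (nat_lit 5) true (nat_lit 10) true (nat_lit 0) true (nat_lit 11) true (nat_lit 12) (.s true (nat_lit 18144) (nat_lit 17) (nat_lit 1) (nat_lit 0) (nat_lit 2) true (nat_lit 5) true (nat_lit 10) true (nat_lit 0) true (nat_lit 11) true (nat_lit 12) (.s false (nat_lit 24624) (nat_lit 15) (nat_lit 1) (nat_lit 2) (nat_lit 0) true (nat_lit 8) true (nat_lit 12) true (nat_lit 0) true (nat_lit 11) true (nat_lit 10) (.s false (nat_lit 34992) (nat_lit 17) (nat_lit 1) (nat_lit 2) (nat_lit 0) true (nat_lit 8) true (nat_lit 12) true (nat_lit 0) true (nat_lit 11) true (nat_lit 10) (.s false (nat_lit 5184) (nat_lit 15) (nat_lit 2) (nat_lit 0) (nat_lit 1) true (nat_lit 5) true (nat_lit 11) true (nat_lit 0) true (nat_lit 10) true (nat_lit 12) (.s true (nat_lit 36288) (nat_lit 16) (nat_lit 2) (nat_lit 0) (nat_lit 1) true (nat_lit 5) true (nat_lit 11) true (nat_lit 0) true (nat_lit 10) true (nat_lit 12) (.s false (nat_lit 15552)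 (nat_lit 16) (nat_lit 2) (nat_lit 1) (nat_lit 0) true (nat_lit 6) true (nat_lit 12) true (nat_lit 0) true (nat_lit 10) true (nat_lit 11) (.s true (nat_lit 10368) (nat_lit 19) (nat_lit 0) (nat_lit 2) (nat_lit 0) true (nat_lit 9) true (nat_lit 12) false (nat_lit 1) true (nat_lit 12) true (nat_lit 10) (.s true (nat_lit 15552) (nat_lit 18) (nat_lit 2) (nat_lit 0) (nat_lit 0) true (nat_lit 6) true (nat_lit 12) false (nat_lit 1) true (nat_lit 10) true (nat_lit 12) (.s true (nat_lit 15552) (nat_lit 20) (nat_lit 0) (nat_lit 1) (nat_lit 1) true (nat_lit 8) true (nat_lit 11) false (nat_lit 2) true (nat_lit 12) true (nat_lit 11) (.s true (nat_lit 18144) (nat_lit 20) (nat_lit 1) (nat_lit 0) (nat_lit 1) true (nat_lit 7) true (nat_lit 11) false (nat_lit 2) true (nat_lit 11) true (nat_lit 12) (.s true (nat_lit 23328) (nat_lit 22) (nat_lit 0) (nat_lit 1) (nat_lit 0) true (nat_lit 9) true (nat_lit 12) false (nat_lit 3) true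 (nat_lit 12) true (nat_lit 11) (.i true (nat_lit 1) (nat_lit 2) (.c (nat_lit 2) (nat_lit 1) (.c (nat_lit 1) (nat_lit 16) (.c (nat_lit 0) (nat_lit 256) (.c (nat_lit 0) (nat_lit 256) (.c (nat_lit 2) (nat_lit 1) (.c (nat_lit 1) (nat_lit 16) .nil)))))) (.i false (nat_lit 1) (nat_lit 2) (.c (nat_lit 2) (nat_lit 1) (.c (nat_lit 2) (nat_lit 1) (.c (nat_lit 1) (nat_lit 16) (.c (nat_lit 0) (nat_lit 256) (.c (nat_lit 1) (nat_lit 16) (.c (nat_lit 0) (nat_lit 256) .nil)))))) (.a true (nat_lit 25194240) (nat_lit 15) (nat_lit 16) (nat_lit 0) (nat_lit 0) (.a false (nat_lit 3359232) (nat_lit 15) (nat_lit 17) (nat_lit 0) (nat_lit 0) (.e true (nat_lit 699840) (nat_lit 46) (nat_lit 4) (nat_lit 8) (.e false (nat_lit 699840) (nat_lit 48) (nat_lit 4) (nat_lit 8) (.e false (nat_lit 2519424) (nat_lit 59) (nat_lit 2) (nat_lit 10) (.e true (nat_lit 139968) (nat_lit 60) (nat_lit 2) (nat_lit 10) dF6aa_i1)))))))))))))))))))))))))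

noncomputable def dF6aa_i3 : IL := (.e true (nat_lit 1411344) (nat_lit 67) (nat_lit 2) (nat_lit 10) (.e false (nat_lit 2391120) (nat_lit 68) (nat_lit 2) (nat_lit 10) (.e true (nat_lit 2192832) (nat_lit 69) (nat_lit 2) (nat_lit 10) (.e false (nat_lit 2391120) (nat_lit 70) (nat_lit 2) (nat_lit 10) (.e true (nat_lit 2122848) (nat_lit 71) (nat_lit 2) (nat_lit 10) (.e true (nat_lit 314928) (nat_lit 74) (nat_lit 1) (nat_lit 11) (.e false (nat_lit 1318032) (nat_lit 79) (nat_lit 1) (nat_lit 11) (.e true (nat_lit 758160) (nat_lit 80) (nat_lit 1) (nat_lit 11) (.e true (nat_lit 186624) (nat_lit 83) (nat_lit 1) (nat_lit 11) (.e false (nat_lit 746496) (nat_lit 84) (nat_lit 1) (nat_lit 11) (.e true (nat_lit 1236384) (nat_lit 85) (nat_lit 1) (nat_lit 11) (.e true (nat_lit 46656) (nat_lit 28) (nat_lit 7) (nat_lit 5) (.e false (nat_lit 921456) (nat_lit 31) (nat_lit 7) (nat_lit 5) (.e false (nat_lit 1761264) (nat_lit 66) (nat_lit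 2) (nat_lit 10) (.e true (nat_lit 466560) (nat_lit 88) (nat_lit 0) (nat_lit 12) (.e true (nat_lit 466560) (nat_lit 89) (nat_lit 0) (nat_lit 12) (.e false (nat_lit 653184) (nat_lit 91) (nat_lit 0) (nat_lit 12) (.e false (nat_lit 746496) (nat_lit 95) (nat_lit 0) (nat_lit 12) (.e true (nat_lit 466560) (nat_lit 99) (nat_lit 0) (nat_lit 12) (.e true (nat_lit 571536) (nat_lit 72) (nat_lit 1) (nat_lit 11) (.e false (nat_lit 1236384) (nat_lit 75) (nat_lit 1) (nat_lit 11) (.e true (nat_lit 606528) (nat_lit 76) (nat_lit 1) (nat_lit 11) (.e false (nat_lit 804816) (nat_lit 29) (nat_lit 7) (nat_lit 5) (.e true (nat_lit 221616) (nat_lit 97) (nat_lit 0) (nat_lit 12) (.e false (nat_lit 314928) (nat_lit 82) (nat_lit 1) (nat_lit 11) .nil)))))))))))))))))))))))))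

noncomputable def dF6aa_i4 : IL := (.s true (nat_lit 11016) (nat_lit 17) (nat_lit 1) (nat_lit 0) (nat_lit 2) true (nat_lit 5) true (nat_lit 10) true (nat_lit 0) true (nat_lit 11) true (nat_lit 12) (.s false (nat_lit 9072) (nat_lit 15) (nat_lit 1) (nat_lit 2) (nat_lit 0) true (nat_lit 8) true (nat_lit 12) true (nat_lit 0) true (nat_lit 11) true (nat_lit 10) (.s false (nat_lit 23976) (nat_lit 17) (nat_lit 1) (nat_lit 2) (nat_lit 0) true (nat_lit 8) true (nat_lit 12) true (nat_lit 0) true (nat_lit 11) true (nat_lit 10) (.s false (nat_lit 16848) (nat_lit 15) (nat_lit 2) (nat_lit 0) (nat_lit 1) true (nat_lit 5) true (nat_lit 11) true (nat_lit 0) true (nat_lit 10) true (nat_lit 12) (.s false (nat_lit 20412) (nat_lit 16) (nat_lit 2) (nat_lit 0) (nat_lit 1) true (nat_lit 5) true (nat_lit 11) true (nat_lit 0) true (nat_lit 10) true (nat_lit 12) (.s false (nat_lit 15552) (nat_lit 16) (nat_lit 2) (nat_lit 1) (nat_lit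 0) true (nat_lit 6) true (nat_lit 12) true (nat_lit 0) true (nat_lit 10) true (nat_lit 11) (.s true (nat_lit 21708) (nat_lit 19) (nat_lit 0) (nat_lit 2) (nat_lit 0) true (nat_lit 9) true (nat_lit 12) false (nat_lit 1) true (nat_lit 12) true (nat_lit 10) (.s false (nat_lit 7776) (nat_lit 18) (nat_lit 2) (nat_lit 0) (nat_lit 0) true (nat_lit 6) true (nat_lit 12) false (nat_lit 1) true (nat_lit 10) true (nat_lit 12) (.s true (nat_lit 7452) (nat_lit 20) (nat_lit 0) (nat_lit 1) (nat_lit 1) true (nat_lit 8) true (nat_lit 11) false (nat_lit 2) true (nat_lit 12) true (nat_lit 11) (.s true (nat_lit 7776) (nat_lit 21) (nat_lit 0) (nat_lit 1) (nat_lit 1) true (nat_lit 8) true (nat_lit 11) false (nat_lit 2) true (nat_lit 12) true (nat_lit 11) (.s true (nat_lit 324) (nat_lit 20) (nat_lit 1) (nat_lit 0) (nat_lit 1) true (nat_lit 7) true (nat_lit 11) false (nat_lit 2) true (nat_lit 11) true (nat_lit 12) (.s false (nat_lit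 7776) (nat_lit 20) (nat_lit 1) (nat_lit 1) (nat_lit 0) true (nat_lit 8) true (nat_lit 12) false (nat_lit 2) true (nat_lit 11) true (nat_lit 11) (.s true (nat_lit 14580) (nat_lit 22) (nat_lit 0) (nat_lit 1) (nat_lit 0) true (nat_lit 9) true (nat_lit 12) false (nat_lit 3) true (nat_lit 12) true (nat_lit 11) (.i true (nat_lit 1) (nat_lit 2) (.c (nat_lit 2) (nat_lit 1) (.c (nat_lit 1) (nat_lit 16) (.c (nat_lit 1) (nat_lit 16) (.c (nat_lit 0) (nat_lit 256) (.c (nat_lit 0) (nat_lit 256) (.c (nat_lit 2) (nat_lit 1) .nil)))))) (.a true (nat_lit 7138368) (nat_lit 15) (nat_lit 16) (nat_lit 0) (nat_lit 0) (.a false (nat_lit 14276736) (nat_lit 15) (nat_lit 17) (nat_lit 0) (nat_lit 0) (.a false (nat_lit 20155392) (nat_lit 16) (nat_lit 17) (nat_lit 0) (nat_lit 0) (.e false (nat_lit 1306368) (nat_lit 46) (nat_lit 4) (nat_lit 8) (.e true (nat_lit 186624) (nat_lit 48) (nat_lit 4) (nat_lit 8) (.e true (nat_lit 2577744) (nat_lit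 59) (nat_lit 2) (nat_lit 10) (.e true (nat_lit 303264) (nat_lit 60) (nat_lit 2) (nat_lit 10) (.e false (nat_lit 2169504) (nat_lit 61) (nat_lit 2) (nat_lit 10) (.e true (nat_lit 1469664) (nat_lit 62) (nat_lit 2) (nat_lit 10) (.e false (nat_lit 2274480) (nat_lit 63) (nat_lit 2) (nat_lit 10) (.e true (nat_lit 1551312) (nat_lit 65) (nat_lit 2) (nat_lit 10) dF6aa_i3)))))))))))))))))))))))))

noncomputable def dF6aa_i5 : IL := (.s false (nat_lit 23328) (nat_lit 6) (nat_lit 1) (nat_lit 2) (nat_lit 4) true (nat_lit 2) true (nat_lit 8) true (nat_lit 6) true (nat_lit 11) true (nat_lit 10) (.s false (nat_lit 28512) (nat_lit 6) (nat_lit 1) (nat_lit 4) (nat_lit 2) true (nat_lit 5) true (nat_lit 10) true (nat_lit 6) true (nat_lit 11) true (nat_lit 8) (.s false (nat_lit 1620) (nat_lit 6) (nat_lit 2) (nat_lit 0) (nat_lit 5) false (nat_lit 1) true (nat_lit 7) true (nat_lit 6) true (nat_lit 10) true (nat_lit 12) (.s true (nat_lit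 2916) (nat_lit 6) (nat_lit 2) (nat_lit 1) (nat_lit 4) true (nat_lit 0) true (nat_lit 8) true (nat_lit 6) true (nat_lit 10) true (nat_lit 11) (.s true (nat_lit 2592) (nat_lit 6) (nat_lit 2) (nat_lit 5) (nat_lit 0) true (nat_lit 6) true (nat_lit 12) true (nat_lit 6) true (nat_lit 10) true (nat_lit 7) (.s true (nat_lit 23976) (nat_lit 7) (nat_lit 0) (nat_lit 0) (nat_lit 7) true (nat_lit 0) true (nat_lit 5) true (nat_lit 5) true (nat_lit 12) true (nat_lit 12) (.s true (nat_lit 12312) (nat_lit 7) (nat_lit 0) (nat_lit 4) (nat_lit 2) true (nat_lit 6) true (nat_lit 10) true (nat_lit 5) true (nat_lit 12) true (nat_lit 8) (.s true (nat_lit 10368) (nat_lit 7) (nat_lit 0) (nat_lit 6) (nat_lit 1) true (nat_lit 8) true (nat_lit 11) true (nat_lit 5) true (nat_lit 12) true (nat_lit 6) (.s false (nat_lit 18630) (nat_lit 7) (nat_lit 1) (nat_lit 2) (nat_lit 3) true (nat_lit 3) true (nat_lit 9) true (nat_lit 5) true (nat_lit 11)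 true (nat_lit 10) (.s false (nat_lit 14580) (nat_lit 7) (nat_lit 1) (nat_lit 3) (nat_lit 2) true (nat_lit 5) true (nat_lit 10) true (nat_lit 5) true (nat_lit 11) true (nat_lit 9) (.s false (nat_lit 1944) (nat_lit 7) (nat_lit 2) (nat_lit 0) (nat_lit 4) true (nat_lit 0) true (nat_lit 8) true (nat_lit 5) true (nat_lit 10) true (nat_lit 12) (.s false (nat_lit 3078) (nat_lit 7) (nat_lit 2) (nat_lit 3) (nat_lit 1) true (nat_lit 5) true (nat_lit 11) true (nat_lit 5) true (nat_lit 10) true (nat_lit 9) (.s true (nat_lit 11016) (nat_lit 7) (nat_lit 2) (nat_lit 4) (nat_lit 0) true (nat_lit 6) true (nat_lit 12) true (nat_lit 5) true (nat_lit 10) true (nat_lit 8) (.s true (nat_lit 26406) (nat_lit 7) (nat_lit 3) (nat_lit 2) (nat_lit 1) true (nat_lit 3) true (nat_lit 11) true (nat_lit 5) true (nat_lit 9) true (nat_lit 10) (.s false (nat_lit 33372) (nat_lit 7) (nat_lit 6) (nat_lit 1) (nat_lit 0) true (nat_lit 1) true (nat_lit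 12) true (nat_lit 5) true (nat_lit 6) true (nat_lit 11) (.s false (nat_lit 7776) (nat_lit 9) (nat_lit 1) (nat_lit 2) (nat_lit 2) true (nat_lit 5) true (nat_lit 10) true (nat_lit 3) true (nat_lit 11) true (nat_lit 10) (.s false (nat_lit 14580) (nat_lit 10) (nat_lit 1) (nat_lit 2) (nat_lit 2) true (nat_lit 5) true (nat_lit 10) true (nat_lit 3) true (nat_lit 11) true (nat_lit 10) (.s false (nat_lit 7776) (nat_lit 11) (nat_lit 2) (nat_lit 2) (nat_lit 0) true (nat_lit 6) true (nat_lit 12) true (nat_lit 2) true (nat_lit 10) true (nat_lit 10) (.s true (nat_lit 1620) (nat_lit 14) (nat_lit 1) (nat_lit 1) (nat_lit 2) true (nat_lit 5) true (nat_lit 10) true (nat_lit 1) true (nat_lit 11) true (nat_lit 11) (.s false (nat_lit 3888) (nat_lit 14) (nat_lit 1) (nat_lit 2) (nat_lit 1) true (nat_lit 7) true (nat_lit 11) true (nat_lit 1) true (nat_lit 11) true (nat_lit 10) (.s false (nat_lit 10368) (nat_lit 15) (nat_lit 0) (nat_lit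 1) (nat_lit 2) true (nat_lit 6) true (nat_lit 10) true (nat_lit 0) true (nat_lit 12) true (nat_lit 11) (.s false (nat_lit 2268) (nat_lit 16) (nat_lit 0) (nat_lit 1) (nat_lit 2) true (nat_lit 6) true (nat_lit 10) true (nat_lit 0) true (nat_lit 12) true (nat_lit 11) (.s true (nat_lit 3888) (nat_lit 15) (nat_lit 0) (nat_lit 2) (nat_lit 1) true (nat_lit 8) true (nat_lit 11) true (nat_lit 0) true (nat_lit 12) true (nat_lit 10) (.s false (nat_lit 2592) (nat_lit 15) (nat_lit 1) (nat_lit 0) (nat_lit 2) true (nat_lit 5) true (nat_lit 10) true (nat_lit 0) true (nat_lit 11) true (nat_lit 12) (.s false (nat_lit 3240) (nat_lit 16) (nat_lit 1) (nat_lit 0) (nat_lit 2) true (nat_lit 5) true (nat_lit 10) true (nat_lit 0) true (nat_lit 11) true (nat_lit 12) dF6aa_i4)))))))))))))))))))))))))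

noncomputable def dF6aa_i6 : IL := (.e false (nat_lit 216) (nat_lit 63) (nat_lit 2) (nat_lit 10) (.e true (nat_lit 216) (nat_lit 65) (nat_lit 2) (nat_lit 10) (.e true (nat_lit 144) (nat_lit 67) (nat_lit 2) (nat_lit 10) (.e false (nat_lit 216) (nat_lit 68) (nat_lit 2) (nat_lit 10) (.e true (nat_lit 216) (nat_lit 69) (nat_lit 2) (nat_lit 10) (.e false (nat_lit 216) (nat_lit 70) (nat_lit 2) (nat_lit 10) (.e true (nat_lit 216) (nat_lit 71) (nat_lit 2) (nat_lit 10) (.e true (nat_lit 144) (nat_lit 85) (nat_lit 1) (nat_lit 11) (.e false (nat_lit 144) (nat_lit 66) (nat_lit 2) (nat_lit 10) (.e false (nat_lit 72) (nat_lit 29) (nat_lit 7) (nat_lit 5) (.e false (nat_lit 72) (nat_lit 99) (nat_lit 0) (nat_lit 12) (.e true (nat_lit 72) (nat_lit 72) (nat_lit 1) (nat_lit 11) (.e false (nat_lit 144) (nat_lit 75) (nat_lit 1) (nat_lit 11) (.e true (nat_lit 72) (nat_lit 76) (nat_lit 1) (nat_lit 11) (.e false (nat_lit 144) (nat_lit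 79) (nat_lit 1) (nat_lit 11) (.e false (nat_lit 72) (nat_lit 82) (nat_lit 1) (nat_lit 11) (.e false (nat_lit 72) (nat_lit 84) (nat_lit 1) (nat_lit 11) (.e true (nat_lit 72) (nat_lit 74) (nat_lit 1) (nat_lit 11) (.e true (nat_lit 72) (nat_lit 80) (nat_lit 1) (nat_lit 11) (.e true (nat_lit 72) (nat_lit 83) (nat_lit 1) (nat_lit 11) (.e false (nat_lit 72) (nat_lit 88) (nat_lit 0) (nat_lit 12) (.e false (nat_lit 72) (nat_lit 89) (nat_lit 0) (nat_lit 12) (.e true (nat_lit 72) (nat_lit 91) (nat_lit 0) (nat_lit 12) (.e true (nat_lit 72) (nat_lit 97) (nat_lit 0) (nat_lit 12) (.e true (nat_lit 72) (nat_lit 98) (nat_lit 0) (nat_lit 12) .nil)))))))))))))))))))))))))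

noncomputable def dF6aa_i7 : IL := (.e false (nat_lit 501552) (nat_lit 69) (nat_lit 2) (nat_lit 10) (.e true (nat_lit 1772928) (nat_lit 70) (nat_lit 2) (nat_lit 10) (.e false (nat_lit 991440) (nat_lit 71) (nat_lit 2) (nat_lit 10) (.e false (nat_lit 279936) (nat_lit 74) (nat_lit 1) (nat_lit 11) (.e false (nat_lit 898128) (nat_lit 79) (nat_lit 1) (nat_lit 11) (.e true (nat_lit 1423008) (nat_lit 80) (nat_lit 1) (nat_lit 11) (.e true (nat_lit 921456) (nat_lit 83) (nat_lit 1) (nat_lit 11) (.e false (nat_lit 921456) (nat_lit 84) (nat_lit 1) (nat_lit 11) (.e false (nat_lit 93312) (nat_lit 85) (nat_lit 1) (nat_lit 11) (.e true (nat_lit 466560) (nat_lit 28) (nat_lit 7) (nat_lit 5) (.e true (nat_lit 968112) (nat_lit 31) (nat_lit 7) (nat_lit 5) (.e true (nat_lit 618192) (nat_lit 66) (nat_lit 2) (nat_lit 10) (.e true (nat_lit 571536) (nat_lit 88) (nat_lit 0) (nat_lit 12) (.e true (nat_lit 571536) (nat_lit 89) (nat_lit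 0) (nat_lit 12) (.e false (nat_lit 898128) (nat_lit 91) (nat_lit 0) (nat_lit 12) (.e true (nat_lit 233280) (nat_lit 95) (nat_lit 0) (nat_lit 12) (.e true (nat_lit 489888) (nat_lit 98) (nat_lit 0) (nat_lit 12) (.e true (nat_lit 571536) (nat_lit 99) (nat_lit 0) (nat_lit 12) (.e false (nat_lit 23328) (nat_lit 72) (nat_lit 1) (nat_lit 11) (.e true (nat_lit 93312) (nat_lit 75) (nat_lit 1) (nat_lit 11) (.e false (nat_lit 618192) (nat_lit 76) (nat_lit 1) (nat_lit 11) (.e true (nat_lit 769824) (nat_lit 29) (nat_lit 7) (nat_lit 5) (.e true (nat_lit 34992) (nat_lit 30) (nat_lit 7) (nat_lit 5) (.e false (nat_lit 233280) (nat_lit 97) (nat_lit 0) (nat_lit 12) (.e true (nat_lit 279936) (nat_lit 82) (nat_lit 1) (nat_lit 11) .nil)))))))))))))))))))))))))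

noncomputable def dF6aa_i8 : IL := (.s true (nat_lit 11988) (nat_lit 15) (nat_lit 1) (nat_lit 0) (nat_lit 2) true (nat_lit 5) true (nat_lit 10) true (nat_lit 0) true (nat_lit 11) true (nat_lit 12) (.s false (nat_lit 26892) (nat_lit 16) (nat_lit 1) (nat_lit 0) (nat_lit 2) true (nat_lit 5) true (nat_lit 10) true (nat_lit 0) true (nat_lit 11) true (nat_lit 12) (.s true (nat_lit 9720) (nat_lit 17) (nat_lit 1) (nat_lit 0) (nat_lit 2) true (nat_lit 5) true (nat_lit 10) true (nat_lit 0) true (nat_lit 11) true (nat_lit 12) (.s true (nat_lit 7776) (nat_lit 15) (nat_lit 1) (nat_lit 2) (nat_lit 0) true (nat_lit 8) true (nat_lit 12) true (nat_lit 0) true (nat_lit 11) true (nat_lit 10) (.s true (nat_lit 7128) (nat_lit 17) (nat_lit 1) (nat_lit 2) (nat_lit 0) true (nat_lit 8) true (nat_lit 12) true (nat_lit 0) true (nat_lit 11) true (nat_lit 10) (.s true (nat_lit 3888) (nat_lit 15) (nat_lit 2) (nat_lit 0) (nat_lit 1) true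 (nat_lit 5) true (nat_lit 11) true (nat_lit 0) true (nat_lit 10) true (nat_lit 12) (.s true (nat_lit 29484) (nat_lit 16) (nat_lit 2) (nat_lit 0) (nat_lit 1) true (nat_lit 5) true (nat_lit 11) true (nat_lit 0) true (nat_lit 10) true (nat_lit 12) (.s true (nat_lit 7776) (nat_lit 18) (nat_lit 2) (nat_lit 0) (nat_lit 0) true (nat_lit 6) true (nat_lit 12) false (nat_lit 1) true (nat_lit 10) true (nat_lit 12) (.s true (nat_lit 7776) (nat_lit 20) (nat_lit 0) (nat_lit 1) (nat_lit 1) true (nat_lit 8) true (nat_lit 11) false (nat_lit 2) true (nat_lit 12) true (nat_lit 11) (.s true (nat_lit 7776) (nat_lit 21) (nat_lit 0) (nat_lit 1) (nat_lit 1) true (nat_lit 8) true (nat_lit 11) false (nat_lit 2) true (nat_lit 12) true (nat_lit 11) (.s true (nat_lit 21708) (nat_lit 20) (nat_lit 1) (nat_lit 0) (nat_lit 1) true (nat_lit 7) true (nat_lit 11) false (nat_lit 2) true (nat_lit 11) true (nat_lit 12) (.s true (nat_lit 16524) (nat_lit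 22) (nat_lit 0) (nat_lit 1) (nat_lit 0) true (nat_lit 9) true (nat_lit 12) false (nat_lit 3) true (nat_lit 12) true (nat_lit 11) (.i false (nat_lit 1) (nat_lit 2) (.c (nat_lit 2) (nat_lit 1) (.c (nat_lit 2) (nat_lit 1) (.c (nat_lit 1) (nat_lit 16) (.c (nat_lit 0) (nat_lit 256) (.c (nat_lit 1) (nat_lit 16) (.c (nat_lit 0) (nat_lit 256) .nil)))))) (.a true (nat_lit 25194240) (nat_lit 15) (nat_lit 16) (nat_lit 0) (nat_lit 0) (.a true (nat_lit 7558272) (nat_lit 15) (nat_lit 17) (nat_lit 0) (nat_lit 0) (.e true (nat_lit 233280) (nat_lit 46) (nat_lit 4) (nat_lit 8) (.e true (nat_lit 326592) (nat_lit 48) (nat_lit 4) (nat_lit 8) (.e false (nat_lit 1446336) (nat_lit 59) (nat_lit 2) (nat_lit 10) (.e false (nat_lit 781488) (nat_lit 60) (nat_lit 2) (nat_lit 10) (.e true (nat_lit 2064528) (nat_lit 61) (nat_lit 2) (nat_lit 10) (.e false (nat_lit 839808) (nat_lit 62) (nat_lit 2) (nat_lit 10) (.e true (nat_lit 2169504) (nat_lit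 63) (nat_lit 2) (nat_lit 10) (.e false (nat_lit 2472768) (nat_lit 65) (nat_lit 2) (nat_lit 10) (.e false (nat_lit 828144) (nat_lit 67) (nat_lit 2) (nat_lit 10) (.e true (nat_lit 1772928) (nat_lit 68) (nat_lit 2) (nat_lit 10) dF6aa_i7)))))))))))))))))))))))))

noncomputable def dF6aa_i9 : IL := (.s true (nat_lit 7452) (nat_lit 4) (nat_lit 2) (nat_lit 2) (nat_lit 4) true (nat_lit 0) true (nat_lit 8) true (nat_lit 8) true (nat_lit 10) true (nat_lit 10) (.s false (nat_lit 29484) (nat_lit 6) (nat_lit 1) (nat_lit 1) (nat_lit 6) true (nat_lit 0) true (nat_lit 6) true (nat_lit 6) true (nat_lit 11) true (nat_lit 11) (.s false (nat_lit 13932) (nat_lit 6) (nat_lit 1) (nat_lit 2) (nat_lit 4) true (nat_lit 2) true (nat_lit 8) true (nat_lit 6) true (nat_lit 11) true (nat_lit 10) (.s false (nat_lit 15552) (nat_lit 6) (nat_lit 1) (nat_lit 4) (nat_lit 2) true (nat_lit 5) true (nat_lit 10) true (nat_lit 6) true (nat_lit 11)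 true (nat_lit 8) (.s false (nat_lit 21708) (nat_lit 6) (nat_lit 2) (nat_lit 0) (nat_lit 5) false (nat_lit 1) true (nat_lit 7) true (nat_lit 6) true (nat_lit 10) true (nat_lit 12) (.s true (nat_lit 21708) (nat_lit 6) (nat_lit 2) (nat_lit 1) (nat_lit 4) true (nat_lit 0) true (nat_lit 8) true (nat_lit 6) true (nat_lit 10) true (nat_lit 11) (.s true (nat_lit 14256) (nat_lit 6) (nat_lit 2) (nat_lit 5) (nat_lit 0) true (nat_lit 6) true (nat_lit 12) true (nat_lit 6) true (nat_lit 10) true (nat_lit 7) (.s false (nat_lit 7128) (nat_lit 7) (nat_lit 0) (nat_lit 0) (nat_lit 7) true (nat_lit 0) true (nat_lit 5) true (nat_lit 5) true (nat_lit 12) true (nat_lit 12) (.s true (nat_lit 11988) (nat_lit 7) (nat_lit 0) (nat_lit 4) (nat_lit 2) true (nat_lit 6) true (nat_lit 10) true (nat_lit 5) true (nat_lit 12) true (nat_lit 8) (.s true (nat_lit 6480) (nat_lit 7) (nat_lit 0) (nat_lit 6) (nat_lit 1) true (nat_lit 8) true (nat_lit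 11) true (nat_lit 5) true (nat_lit 12) true (nat_lit 6) (.s false (nat_lit 16524) (nat_lit 7) (nat_lit 1) (nat_lit 3) (nat_lit 2) true (nat_lit 5) true (nat_lit 10) true (nat_lit 5) true (nat_lit 11) true (nat_lit 9) (.s false (nat_lit 1944) (nat_lit 7) (nat_lit 2) (nat_lit 0) (nat_lit 4) true (nat_lit 0) true (nat_lit 8) true (nat_lit 5) true (nat_lit 10) true (nat_lit 12) (.s false (nat_lit 14580) (nat_lit 7) (nat_lit 2) (nat_lit 4) (nat_lit 0) true (nat_lit 6) true (nat_lit 12) true (nat_lit 5) true (nat_lit 10) true (nat_lit 8) (.s true (nat_lit 7776) (nat_lit 7) (nat_lit 3) (nat_lit 2) (nat_lit 1) true (nat_lit 3) true (nat_lit 11) true (nat_lit 5) true (nat_lit 9) true (nat_lit 10) (.s true (nat_lit 14256) (nat_lit 7) (nat_lit 6) (nat_lit 1) (nat_lit 0) true (nat_lit 1) true (nat_lit 12) true (nat_lit 5) true (nat_lit 6) true (nat_lit 11) (.s false (nat_lit 1296) (nat_lit 8) (nat_lit 1) (nat_lit 4) (nat_lit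 0) true (nat_lit 8) true (nat_lit 12) true (nat_lit 4) true (nat_lit 11) true (nat_lit 8) (.s false (nat_lit 7776) (nat_lit 9) (nat_lit 1) (nat_lit 2) (nat_lit 2) true (nat_lit 5) true (nat_lit 10) true (nat_lit 3) true (nat_lit 11) true (nat_lit 10) (.s false (nat_lit 2268) (nat_lit 10) (nat_lit 1) (nat_lit 2) (nat_lit 2) true (nat_lit 5) true (nat_lit 10) true (nat_lit 3) true (nat_lit 11) true (nat_lit 10) (.s true (nat_lit 1296) (nat_lit 10) (nat_lit 2) (nat_lit 1) (nat_lit 2) true (nat_lit 4) true (nat_lit 10) true (nat_lit 3) true (nat_lit 10) true (nat_lit 11) (.s true (nat_lit 7776) (nat_lit 10) (nat_lit 2) (nat_lit 2) (nat_lit 1) true (nat_lit 5) true (nat_lit 11) true (nat_lit 3) true (nat_lit 10) true (nat_lit 10) (.s true (nat_lit 13932) (nat_lit 14) (nat_lit 1) (nat_lit 1) (nat_lit 2) true (nat_lit 5) true (nat_lit 10) true (nat_lit 1) true (nat_lit 11) true (nat_lit 11) (.s false (nat_lit 14256)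 (nat_lit 14) (nat_lit 1) (nat_lit 2) (nat_lit 1) true (nat_lit 7) true (nat_lit 11) true (nat_lit 1) true (nat_lit 11) true (nat_lit 10) (.s false (nat_lit 3888) (nat_lit 15) (nat_lit 0) (nat_lit 1) (nat_lit 2) true (nat_lit 6) true (nat_lit 10) true (nat_lit 0) true (nat_lit 12) true (nat_lit 11) (.s true (nat_lit 23004) (nat_lit 16) (nat_lit 0) (nat_lit 1) (nat_lit 2) true (nat_lit 6) true (nat_lit 10) true (nat_lit 0) true (nat_lit 12) true (nat_lit 11) (.s false (nat_lit 6156) (nat_lit 15) (nat_lit 0) (nat_lit 2) (nat_lit 1) true (nat_lit 8) true (nat_lit 11) true (nat_lit 0) true (nat_lit 12) true (nat_lit 10) dF6aa_i8)))))))))))))))))))))))))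

noncomputable def dF6aa_i10 : IL := (.e false (nat_lit 468) (nat_lit 61) (nat_lit 2) (nat_lit 10) (.e true (nat_lit 288) (nat_lit 62) (nat_lit 2) (nat_lit 10) (.e false (nat_lit 360) (nat_lit 63) (nat_lit 2) (nat_lit 10) (.e true (nat_lit 432) (nat_lit 65) (nat_lit 2) (nat_lit 10) (.e true (nat_lit 252) (nat_lit 67) (nat_lit 2) (nat_lit 10) (.e false (nat_lit 432) (nat_lit 68) (nat_lit 2) (nat_lit 10) (.e true (nat_lit 252) (nat_lit 69) (nat_lit 2) (nat_lit 10) (.e false (nat_lit 432) (nat_lit 70) (nat_lit 2) (nat_lit 10) (.e true (nat_lit 324) (nat_lit 71) (nat_lit 2) (nat_lit 10) (.e true (nat_lit 36) (nat_lit 79) (nat_lit 1) (nat_lit 11) (.e false (nat_lit 216) (nat_lit 80) (nat_lit 1) (nat_lit 11) (.e false (nat_lit 108) (nat_lit 83) (nat_lit 1) (nat_lit 11) (.e true (nat_lit 108) (nat_lit 84) (nat_lit 1) (nat_lit 11) (.e false (nat_lit 180) (nat_lit 66) (nat_lit 2) (nat_lit 10) (.e true (nat_lit 108)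 (nat_lit 88) (nat_lit 0) (nat_lit 12) (.e false (nat_lit 180) (nat_lit 89) (nat_lit 0) (nat_lit 12) (.e true (nat_lit 36) (nat_lit 91) (nat_lit 0) (nat_lit 12) (.e true (nat_lit 72) (nat_lit 98) (nat_lit 0) (nat_lit 12) (.e false (nat_lit 180) (nat_lit 99) (nat_lit 0) (nat_lit 12) (.e true (nat_lit 72) (nat_lit 72) (nat_lit 1) (nat_lit 11) (.e true (nat_lit 180) (nat_lit 76) (nat_lit 1) (nat_lit 11) (.e false (nat_lit 72) (nat_lit 29) (nat_lit 7) (nat_lit 5) (.e true (nat_lit 36) (nat_lit 30) (nat_lit 7) (nat_lit 5) (.e false (nat_lit 108) (nat_lit 31) (nat_lit 7) (nat_lit 5) (.e false (nat_lit 144) (nat_lit 86) (nat_lit 0) (nat_lit 12) .nil)))))))))))))))))))))))))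

noncomputable def dF6aa_i11 : IL := (.s true (nat_lit 1) (nat_lit 4) (nat_lit 2) (nat_lit 2) (nat_lit 4) true (nat_lit 0) true (nat_lit 8) true (nat_lit 8) true (nat_lit 10) true (nat_lit 10) (.s false (nat_lit 1) (nat_lit 6) (nat_lit 1) (nat_lit 1) (nat_lit 6) true (nat_lit 0) true (nat_lit 6) true (nat_lit 6) true (nat_lit 11) true (nat_lit 11) (.s false (nat_lit 1) (nat_lit 6) (nat_lit 1) (nat_lit 2) (nat_lit 4) true (nat_lit 2) true (nat_lit 8) true (nat_lit 6) true (nat_lit 11) true (nat_lit 10) (.s false (nat_lit 1) (nat_lit 6) (nat_lit 2) (nat_lit 0) (nat_lit 5) false (nat_lit 1) true (nat_lit 7) true (nat_lit 6) true (nat_lit 10) true (nat_lit 12) (.s true (nat_lit 1) (nat_lit 6) (nat_lit 2) (nat_lit 1) (nat_lit 4) true (nat_lit 0) true (nat_lit 8) true (nat_lit 6) true (nat_lit 10) true (nat_lit 11) (.s false (nat_lit 2) (nat_lit 7) (nat_lit 0) (nat_lit 0) (nat_lit 7) true (nat_lit 0) true (nat_lit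 5) true (nat_lit 5) true (nat_lit 12) true (nat_lit 12) (.s true (nat_lit 3) (nat_lit 7) (nat_lit 0) (nat_lit 4) (nat_lit 2) true (nat_lit 6) true (nat_lit 10) true (nat_lit 5) true (nat_lit 12) true (nat_lit 8) (.s true (nat_lit 3) (nat_lit 7) (nat_lit 1) (nat_lit 3) (nat_lit 2) true (nat_lit 5) true (nat_lit 10) true (nat_lit 5) true (nat_lit 11) true (nat_lit 9) (.s true (nat_lit 2) (nat_lit 7) (nat_lit 2) (nat_lit 0) (nat_lit 4) true (nat_lit 0) true (nat_lit 8) true (nat_lit 5) true (nat_lit 10) true (nat_lit 12) (.s false (nat_lit 3) (nat_lit 7) (nat_lit 2) (nat_lit 4) (nat_lit 0) true (nat_lit 6) true (nat_lit 12) true (nat_lit 5) true (nat_lit 10) true (nat_lit 8) (.s true (nat_lit 3) (nat_lit 10) (nat_lit 1) (nat_lit 2) (nat_lit 2) true (nat_lit 5) true (nat_lit 10) true (nat_lit 3) true (nat_lit 11) true (nat_lit 10) (.s true (nat_lit 1) (nat_lit 14) (nat_lit 1) (nat_lit 1) (nat_lit 2) true (nat_lit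 5) true (nat_lit 10) true (nat_lit 1) true (nat_lit 11) true (nat_lit 11) (.s true (nat_lit 1) (nat_lit 16) (nat_lit 0) (nat_lit 1) (nat_lit 2) true (nat_lit 6) true (nat_lit 10) true (nat_lit 0) true (nat_lit 12) true (nat_lit 11) (.s false (nat_lit 1) (nat_lit 15) (nat_lit 0) (nat_lit 2) (nat_lit 1) true (nat_lit 8) true (nat_lit 11) true (nat_lit 0) true (nat_lit 12) true (nat_lit 10) (.s false (nat_lit 1) (nat_lit 15) (nat_lit 1) (nat_lit 0) (nat_lit 2) true (nat_lit 5) true (nat_lit 10) true (nat_lit 0) true (nat_lit 11) true (nat_lit 12) (.s false (nat_lit 1) (nat_lit 16) (nat_lit 1) (nat_lit 0) (nat_lit 2) true (nat_lit 5) true (nat_lit 10) true (nat_lit 0) true (nat_lit 11) true (nat_lit 12) (.s false (nat_lit 2) (nat_lit 17) (nat_lit 1) (nat_lit 0) (nat_lit 2) true (nat_lit 5) true (nat_lit 10) true (nat_lit 0) true (nat_lit 11) true (nat_lit 12) (.s true (nat_lit 2) (nat_lit 17) (nat_lit 1) (nat_lit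 2) (nat_lit 0) true (nat_lit 8) true (nat_lit 12) true (nat_lit 0) true (nat_lit 11) true (nat_lit 10) (.s true (nat_lit 1) (nat_lit 16) (nat_lit 2) (nat_lit 0) (nat_lit 1) true (nat_lit 5) true (nat_lit 11) true (nat_lit 0) true (nat_lit 10) true (nat_lit 12) (.s true (nat_lit 1) (nat_lit 20) (nat_lit 1) (nat_lit 0) (nat_lit 1) true (nat_lit 7) true (nat_lit 11) false (nat_lit 2) true (nat_lit 11) true (nat_lit 12) (.s false (nat_lit 3) (nat_lit 22) (nat_lit 0) (nat_lit 1) (nat_lit 0) true (nat_lit 9) true (nat_lit 12) false (nat_lit 3) true (nat_lit 12) true (nat_lit 11) (.a true (nat_lit 2592) (nat_lit 15) (nat_lit 17) (nat_lit 0) (nat_lit 0) (.e true (nat_lit 144) (nat_lit 48) (nat_lit 4) (nat_lit 8) (.e true (nat_lit 432) (nat_lit 59) (nat_lit 2) (nat_lit 10) (.e true (nat_lit 108) (nat_lit 60) (nat_lit 2) (nat_lit 10) dF6aa_i10)))))))))))))))))))))))))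

noncomputable def dF6aa_i12 : IL := (.s false (nat_lit 1) (nat_lit 15) (nat_lit 1) (nat_lit 0) (nat_lit 2) true (nat_lit 5) true (nat_lit 10) true (nat_lit 0) true (nat_lit 11) true (nat_lit 12) (.s true (nat_lit 1) (nat_lit 20) (nat_lit 0) (nat_lit 1) (nat_lit 1) true (nat_lit 8) true (nat_lit 11) false (nat_lit 2) true (nat_lit 12) true (nat_lit 11) (.e true (nat_lit 36) (nat_lit 46) (nat_lit 4) (nat_lit 8) (.e false (nat_lit 36) (nat_lit 59) (nat_lit 2) (nat_lit 10) (.e true (nat_lit 72) (nat_lit 61) (nat_lit 2) (nat_lit 10) (.e false (nat_lit 36) (nat_lit 62) (nat_lit 2) (nat_lit 10) (.e true (nat_lit 36) (nat_lit 63) (nat_lit 2) (nat_lit 10) (.e false (nat_lit 36) (nat_lit 65) (nat_lit 2) (nat_lit 10) (.e false (nat_lit 36) (nat_lit 67) (nat_lit 2) (nat_lit 10) (.e true (nat_lit 36) (nat_lit 68) (nat_lit 2) (nat_lit 10) (.e false (nat_lit 36) (nat_lit 69) (nat_lit 2) (nat_lit 10) (.e true (nat_lit 36)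 (nat_lit 70) (nat_lit 2) (nat_lit 10) (.e false (nat_lit 36) (nat_lit 72) (nat_lit 1) (nat_lit 11) (.e true (nat_lit 36) (nat_lit 74) (nat_lit 1) (nat_lit 11) (.e false (nat_lit 36) (nat_lit 76) (nat_lit 1) (nat_lit 11) (.e false (nat_lit 36) (nat_lit 29) (nat_lit 7) (nat_lit 5) (.e true (nat_lit 36) (nat_lit 86) (nat_lit 0) (nat_lit 12) (.e false (nat_lit 72) (nat_lit 88) (nat_lit 0) (nat_lit 12) (.e false (nat_lit 36) (nat_lit 90) (nat_lit 0) (nat_lit 12) (.e true (nat_lit 36) (nat_lit 91) (nat_lit 0) (nat_lit 12) (.e true (nat_lit 36) (nat_lit 92) (nat_lit 0) (nat_lit 12) (.e true (nat_lit 36) (nat_lit 97) (nat_lit 0) (nat_lit 12) (.e false (nat_lit 36) (nat_lit 98) (nat_lit 0) (nat_lit 12) (.e true (nat_lit 36) (nat_lit 79) (nat_lit 1) (nat_lit 11) (.e false (nat_lit 36) (nat_lit 82) (nat_lit 1) (nat_lit 11) .nil)))))))))))))))))))))))))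

noncomputable def dF6aa_i13 : IL := (.s true (nat_lit 1) (nat_lit 20) (nat_lit 1) (nat_lit 0) (nat_lit 1) true (nat_lit 7) true (nat_lit 11) false (nat_lit 2) true (nat_lit 11) true (nat_lit 12) (.a false (nat_lit 1296) (nat_lit 15) (nat_lit 17) (nat_lit 0) (nat_lit 0) (.e false (nat_lit 36) (nat_lit 74) (nat_lit 1) (nat_lit 11) (.e true (nat_lit 36) (nat_lit 65) (nat_lit 2) (nat_lit 10) (.e true (nat_lit 36) (nat_lit 66) (nat_lit 2) (nat_lit 10) (.e false (nat_lit 36) (nat_lit 69) (nat_lit 2) (nat_lit 10) (.e false (nat_lit 108) (nat_lit 71) (nat_lit 2) (nat_lit 10) (.e false (nat_lit 36) (nat_lit 88) (nat_lit 0) (nat_lit 12) (.e true (nat_lit 36) (nat_lit 89) (nat_lit 0) (nat_lit 12) (.e false (nat_lit 36) (nat_lit 92) (nat_lit 0) (nat_lit 12) (.e false (nat_lit 36) (nat_lit 93) (nat_lit 0) (nat_lit 12) (.e true (nat_lit 36) (nat_lit 99) (nat_lit 0) (nat_lit 12) (.e false (nat_lit 36) (nat_lit 90) (nat_lit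 0) (nat_lit 12) (.e false (nat_lit 36) (nat_lit 29) (nat_lit 7) (nat_lit 5) (.e true (nat_lit 36) (nat_lit 30) (nat_lit 7) (nat_lit 5) (.e true (nat_lit 36) (nat_lit 86) (nat_lit 0) (nat_lit 12) (.e false (nat_lit 36) (nat_lit 97) (nat_lit 0) (nat_lit 12) (.e false (nat_lit 72) (nat_lit 59) (nat_lit 2) (nat_lit 10) (.e true (nat_lit 36) (nat_lit 63) (nat_lit 2) (nat_lit 10) (.e false (nat_lit 36) (nat_lit 67) (nat_lit 2) (nat_lit 10) (.e true (nat_lit 72) (nat_lit 68) (nat_lit 2) (nat_lit 10) (.e true (nat_lit 72) (nat_lit 70) (nat_lit 2) (nat_lit 10) (.e false (nat_lit 72) (nat_lit 48) (nat_lit 4) (nat_lit 8) (.e true (nat_lit 36) (nat_lit 82) (nat_lit 1) (nat_lit 11) (.e false (nat_lit 36) (nat_lit 46) (nat_lit 4) (nat_lit 8) .nil)))))))))))))))))))))))))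

noncomputable def dF6aa_i14 : IL := (.e true (nat_lit 36) (nat_lit 28) (nat_lit 7) (nat_lit 5) (.e false (nat_lit 36) (nat_lit 31) (nat_lit 7) (nat_lit 5) (.e true (nat_lit 36) (nat_lit 33) (nat_lit 7) (nat_lit 5) (.e false (nat_lit 72) (nat_lit 66) (nat_lit 2) (nat_lit 10) (.e true (nat_lit 72) (nat_lit 71) (nat_lit 2) (nat_lit 10) (.e true (nat_lit 36) (nat_lit 85) (nat_lit 1) (nat_lit 11) (.e false (nat_lit 72) (nat_lit 46) (nat_lit 4) (nat_lit 8) (.e false (nat_lit 36) (nat_lit 48) (nat_lit 4) (nat_lit 8) (.e true (nat_lit 36) (nat_lit 86) (nat_lit 0) (nat_lit 12) (.e false (nat_lit 36) (nat_lit 88) (nat_lit 0) (nat_lit 12) (.e true (nat_lit 36) (nat_lit 89) (nat_lit 0) (nat_lit 12) (.e false (nat_lit 36) (nat_lit 90) (nat_lit 0) (nat_lit 12) (.e false (nat_lit 36) (nat_lit 75) (nat_lit 1) (nat_lit 11) (.e true (nat_lit 36) (nat_lit 99) (nat_lit 0) (nat_lit 12) (.e false (nat_lit 36) (nat_lit 68) (nat_lit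 2) (nat_lit 10) (.e true (nat_lit 36) (nat_lit 80) (nat_lit 1) (nat_lit 11) (.e true (nat_lit 36) (nat_lit 59) (nat_lit 2) (nat_lit 10) (.e true (nat_lit 36) (nat_lit 60) (nat_lit 2) (nat_lit 10) (.e false (nat_lit 36) (nat_lit 61) (nat_lit 2) (nat_lit 10) (.e true (nat_lit 36) (nat_lit 62) (nat_lit 2) (nat_lit 10) (.e false (nat_lit 72) (nat_lit 63) (nat_lit 2) (nat_lit 10) (.e true (nat_lit 72) (nat_lit 65) (nat_lit 2) (nat_lit 10) (.e true (nat_lit 36) (nat_lit 67) (nat_lit 2) (nat_lit 10) (.e true (nat_lit 36) (nat_lit 69) (nat_lit 2) (nat_lit 10) (.e false (nat_lit 36) (nat_lit 70) (nat_lit 2) (nat_lit 10) .nil)))))))))))))))))))))))))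

noncomputable def dF6aa_i15 : IL := (.e true (nat_lit 252) (nat_lit 65) (nat_lit 2) (nat_lit 10) (.e false (nat_lit 108) (nat_lit 31) (nat_lit 7) (nat_lit 5) (.e true (nat_lit 108) (nat_lit 33) (nat_lit 7) (nat_lit 5) (.e true (nat_lit 108) (nat_lit 71) (nat_lit 2) (nat_lit 10) (.e true (nat_lit 180) (nat_lit 59) (nat_lit 2) (nat_lit 10) (.e false (nat_lit 288) (nat_lit 61) (nat_lit 2) (nat_lit 10) (.e true (nat_lit 108) (nat_lit 62) (nat_lit 2) (nat_lit 10) (.e true (nat_lit 144) (nat_lit 67) (nat_lit 2) (nat_lit 10) (.e false (nat_lit 216) (nat_lit 68) (nat_lit 2) (nat_lit 10) (.e true (nat_lit 108) (nat_lit 69) (nat_lit 2) (nat_lit 10) (.e false (nat_lit 216) (nat_lit 70) (nat_lit 2) (nat_lit 10) (.e true (nat_lit 252) (nat_lit 72) (nat_lit 1) (nat_lit 11) (.e false (nat_lit 216) (nat_lit 75) (nat_lit 1) (nat_lit 11) (.e true (nat_lit 324) (nat_lit 76) (nat_lit 1) (nat_lit 11) (.e false (nat_lit 36) (nat_lit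 29) (nat_lit 7) (nat_lit 5) (.e true (nat_lit 36) (nat_lit 99) (nat_lit 0) (nat_lit 12) (.e false (nat_lit 36) (nat_lit 48) (nat_lit 4) (nat_lit 8) (.e false (nat_lit 36) (nat_lit 82) (nat_lit 1) (nat_lit 11) (.e true (nat_lit 36) (nat_lit 89) (nat_lit 0) (nat_lit 12) (.e true (nat_lit 36) (nat_lit 97) (nat_lit 0) (nat_lit 12) (.e false (nat_lit 36) (nat_lit 98) (nat_lit 0) (nat_lit 12) (.e true (nat_lit 108) (nat_lit 30) (nat_lit 7) (nat_lit 5) (.e false (nat_lit 72) (nat_lit 86) (nat_lit 0) (nat_lit 12) (.e true (nat_lit 36) (nat_lit 88) (nat_lit 0) (nat_lit 12) (.e false (nat_lit 36) (nat_lit 95) (nat_lit 0) (nat_lit 12) .nil)))))))))))))))))))))))))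

noncomputable def dF6aa_i16 : IL := (.s true (nat_lit 1) (nat_lit 7) (nat_lit 2) (nat_lit 3) (nat_lit 1) true (nat_lit 5) true (nat_lit 11) true (nat_lit 5) true (nat_lit 10) true (nat_lit 9) (.s true (nat_lit 2) (nat_lit 7) (nat_lit 3) (nat_lit 2) (nat_lit 1) true (nat_lit 3) true (nat_lit 11) true (nat_lit 5) true (nat_lit 9) true (nat_lit 10) (.s false (nat_lit 1) (nat_lit 9) (nat_lit 1) (nat_lit 2) (nat_lit 2) true (nat_lit 5) true (nat_lit 10) true (nat_lit 3) true (nat_lit 11) true (nat_lit 10) (.s true (nat_lit 1) (nat_lit 11) (nat_lit 2) (nat_lit 2) (nat_lit 0) true (nat_lit 6) true (nat_lit 12) true (nat_lit 2) true (nat_lit 10) true (nat_lit 10) (.s false (nat_lit 1) (nat_lit 14) (nat_lit 1) (nat_lit 1) (nat_lit 2) true (nat_lit 5) true (nat_lit 10) true (nat_lit 1) true (nat_lit 11) true (nat_lit 11) (.s true (nat_lit 1) (nat_lit 15) (nat_lit 0) (nat_lit 1) (nat_lit 2) true (nat_lit 6) true (nat_lit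 10) true (nat_lit 0) true (nat_lit 12) true (nat_lit 11) (.s true (nat_lit 2) (nat_lit 16) (nat_lit 0) (nat_lit 1) (nat_lit 2) true (nat_lit 6) true (nat_lit 10) true (nat_lit 0) true (nat_lit 12) true (nat_lit 11) (.s true (nat_lit 2) (nat_lit 15) (nat_lit 0) (nat_lit 2) (nat_lit 1) true (nat_lit 8) true (nat_lit 11) true (nat_lit 0) true (nat_lit 12) true (nat_lit 10) (.s false (nat_lit 1) (nat_lit 15) (nat_lit 1) (nat_lit 0) (nat_lit 2) true (nat_lit 5) true (nat_lit 10) true (nat_lit 0) true (nat_lit 11) true (nat_lit 12) (.s false (nat_lit 1) (nat_lit 16) (nat_lit 1) (nat_lit 0) (nat_lit 2) true (nat_lit 5) true (nat_lit 10) true (nat_lit 0) true (nat_lit 11) true (nat_lit 12) (.s false (nat_lit 3) (nat_lit 15) (nat_lit 1) (nat_lit 2) (nat_lit 0) true (nat_lit 8) true (nat_lit 12) true (nat_lit 0) true (nat_lit 11) true (nat_lit 10) (.s true (nat_lit 1) (nat_lit 16) (nat_lit 2) (nat_lit 0) (nat_lit 1)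 true (nat_lit 5) true (nat_lit 11) true (nat_lit 0) true (nat_lit 10) true (nat_lit 12) (.s true (nat_lit 1) (nat_lit 18) (nat_lit 2) (nat_lit 0) (nat_lit 0) true (nat_lit 6) true (nat_lit 12) false (nat_lit 1) true (nat_lit 10) true (nat_lit 12) (.s false (nat_lit 1) (nat_lit 20) (nat_lit 0) (nat_lit 1) (nat_lit 1) true (nat_lit 8) true (nat_lit 11) false (nat_lit 2) true (nat_lit 12) true (nat_lit 11) (.s false (nat_lit 1) (nat_lit 21) (nat_lit 0) (nat_lit 1) (nat_lit 1) true (nat_lit 8) true (nat_lit 11) false (nat_lit 2) true (nat_lit 12) true (nat_lit 11) (.a false (nat_lit 1296) (nat_lit 15) (nat_lit 16) (nat_lit 0) (nat_lit 0) (.e false (nat_lit 108) (nat_lit 74) (nat_lit 1) (nat_lit 11) (.e false (nat_lit 288) (nat_lit 79) (nat_lit 1) (nat_lit 11) (.e true (nat_lit 36) (nat_lit 80) (nat_lit 1) (nat_lit 11) (.e true (nat_lit 108) (nat_lit 83) (nat_lit 1) (nat_lit 11) (.e false (nat_lit 108) (nat_lit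 84) (nat_lit 1) (nat_lit 11) (.e true (nat_lit 216) (nat_lit 85) (nat_lit 1) (nat_lit 11) (.e false (nat_lit 36) (nat_lit 34) (nat_lit 6) (nat_lit 6) (.e true (nat_lit 72) (nat_lit 60) (nat_lit 2) (nat_lit 10) (.e false (nat_lit 144) (nat_lit 63) (nat_lit 2) (nat_lit 10) dF6aa_i15)))))))))))))))))))))))))

noncomputable def dF6aa_i17 : IL := (.s false (nat_lit 1) (nat_lit 7) (nat_lit 1) (nat_lit 2) (nat_lit 3) true (nat_lit 3) true (nat_lit 9) true (nat_lit 5) true (nat_lit 11) true (nat_lit 10) (.s true (nat_lit 1) (nat_lit 7) (nat_lit 2) (nat_lit 3) (nat_lit 1) true (nat_lit 5) true (nat_lit 11) true (nat_lit 5) true (nat_lit 10) true (nat_lit 9) (.s true (nat_lit 1) (nat_lit 7) (nat_lit 3) (nat_lit 2) (nat_lit 1) true (nat_lit 3) true (nat_lit 11) true (nat_lit 5) true (nat_lit 9) true (nat_lit 10) (.e true (nat_lit 72) (nat_lit 28) (nat_lit 7) (nat_lit 5) (.e false (nat_lit 144) (nat_lit 29) (nat_lit 7)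 (nat_lit 5) (.e true (nat_lit 72) (nat_lit 30) (nat_lit 7) (nat_lit 5) (.e false (nat_lit 144) (nat_lit 31) (nat_lit 7) (nat_lit 5) (.e true (nat_lit 144) (nat_lit 33) (nat_lit 7) (nat_lit 5) (.e false (nat_lit 72) (nat_lit 75) (nat_lit 1) (nat_lit 11) (.e true (nat_lit 72) (nat_lit 76) (nat_lit 1) (nat_lit 11) (.e false (nat_lit 72) (nat_lit 82) (nat_lit 1) (nat_lit 11) (.e false (nat_lit 72) (nat_lit 84) (nat_lit 1) (nat_lit 11) (.e true (nat_lit 72) (nat_lit 85) (nat_lit 1) (nat_lit 11) (.e false (nat_lit 72) (nat_lit 61) (nat_lit 2) (nat_lit 10) (.e true (nat_lit 72) (nat_lit 62) (nat_lit 2) (nat_lit 10) (.e false (nat_lit 72) (nat_lit 63) (nat_lit 2) (nat_lit 10) (.e true (nat_lit 144) (nat_lit 65) (nat_lit 2) (nat_lit 10) (.e true (nat_lit 72) (nat_lit 74) (nat_lit 1) (nat_lit 11) (.e true (nat_lit 144) (nat_lit 59) (nat_lit 2) (nat_lit 10) (.e false (nat_lit 72) (nat_lit 66) (nat_lit 2) (nat_lit 10)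 (.e false (nat_lit 144) (nat_lit 68) (nat_lit 2) (nat_lit 10) (.e false (nat_lit 144) (nat_lit 70) (nat_lit 2) (nat_lit 10) (.e true (nat_lit 72) (nat_lit 71) (nat_lit 2) (nat_lit 10) (.e true (nat_lit 72) (nat_lit 67) (nat_lit 2) (nat_lit 10) (.e true (nat_lit 72) (nat_lit 69) (nat_lit 2) (nat_lit 10) .nil)))))))))))))))))))))))))

noncomputable def dF6aa_i18 : IL := (.s true (nat_lit 1) (nat_lit 6) (nat_lit 2) (nat_lit 1) (nat_lit 4) true (nat_lit 0) true (nat_lit 8) true (nat_lit 6) true (nat_lit 10) true (nat_lit 11) (.s true (nat_lit 1) (nat_lit 7) (nat_lit 0) (nat_lit 0) (nat_lit 7) true (nat_lit 0) true (nat_lit 5) true (nat_lit 5) true (nat_lit 12) true (nat_lit 12) (.s true (nat_lit 1) (nat_lit 7) (nat_lit 2) (nat_lit 4) (nat_lit 0) true (nat_lit 6) true (nat_lit 12) true (nat_lit 5) true (nat_lit 10) true (nat_lit 8) (.s true (nat_lit 1) (nat_lit 14) (nat_lit 1) (nat_lit 1) (nat_lit 2) true (nat_lit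 5) true (nat_lit 10) true (nat_lit 1) true (nat_lit 11) true (nat_lit 11) (.s true (nat_lit 1) (nat_lit 16) (nat_lit 0) (nat_lit 1) (nat_lit 2) true (nat_lit 6) true (nat_lit 10) true (nat_lit 0) true (nat_lit 12) true (nat_lit 11) (.s false (nat_lit 2) (nat_lit 16) (nat_lit 1) (nat_lit 0) (nat_lit 2) true (nat_lit 5) true (nat_lit 10) true (nat_lit 0) true (nat_lit 11) true (nat_lit 12) (.s false (nat_lit 1) (nat_lit 17) (nat_lit 1) (nat_lit 2) (nat_lit 0) true (nat_lit 8) true (nat_lit 12) true (nat_lit 0) true (nat_lit 11) true (nat_lit 10) (.s true (nat_lit 1) (nat_lit 16) (nat_lit 2) (nat_lit 0) (nat_lit 1) true (nat_lit 5) true (nat_lit 11) true (nat_lit 0) true (nat_lit 10) true (nat_lit 12) (.s false (nat_lit 1) (nat_lit 20) (nat_lit 0) (nat_lit 1) (nat_lit 1) true (nat_lit 8) true (nat_lit 11) false (nat_lit 2) true (nat_lit 12) true (nat_lit 11) (.s true (nat_lit 1) (nat_lit 20) (nat_lit 1) (nat_lit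 0) (nat_lit 1) true (nat_lit 7) true (nat_lit 11) false (nat_lit 2) true (nat_lit 11) true (nat_lit 12) (.a true (nat_lit 1296) (nat_lit 15) (nat_lit 16) (nat_lit 0) (nat_lit 0) (.e false (nat_lit 36) (nat_lit 74) (nat_lit 1) (nat_lit 11) (.e true (nat_lit 36) (nat_lit 65) (nat_lit 2) (nat_lit 10) (.e true (nat_lit 36) (nat_lit 66) (nat_lit 2) (nat_lit 10) (.e false (nat_lit 72) (nat_lit 69) (nat_lit 2) (nat_lit 10) (.e false (nat_lit 72) (nat_lit 71) (nat_lit 2) (nat_lit 10) (.e false (nat_lit 72) (nat_lit 59) (nat_lit 2) (nat_lit 10) (.e true (nat_lit 36) (nat_lit 61) (nat_lit 2) (nat_lit 10) (.e true (nat_lit 36) (nat_lit 63) (nat_lit 2) (nat_lit 10) (.e false (nat_lit 36) (nat_lit 67) (nat_lit 2) (nat_lit 10) (.e true (nat_lit 36) (nat_lit 68) (nat_lit 2) (nat_lit 10) (.e true (nat_lit 36) (nat_lit 70) (nat_lit 2) (nat_lit 10) (.e true (nat_lit 36) (nat_lit 33) (nat_lit 7) (nat_lit 5) (.e false (nat_lit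 36) (nat_lit 29) (nat_lit 7) (nat_lit 5) (.e false (nat_lit 36) (nat_lit 97) (nat_lit 0) (nat_lit 12) .nil)))))))))))))))))))))))))

noncomputable def dF6aa_i19 : IL := (.s true (nat_lit 1) (nat_lit 15) (nat_lit 0) (nat_lit 1) (nat_lit 2) true (nat_lit 6) true (nat_lit 10) true (nat_lit 0) true (nat_lit 12) true (nat_lit 11) (.s true (nat_lit 1) (nat_lit 16) (nat_lit 0) (nat_lit 1) (nat_lit 2) true (nat_lit 6) true (nat_lit 10) true (nat_lit 0) true (nat_lit 12) true (nat_lit 11) (.s false (nat_lit 1) (nat_lit 15) (nat_lit 0) (nat_lit 2) (nat_lit 1) true (nat_lit 8) true (nat_lit 11) true (nat_lit 0) true (nat_lit 12) true (nat_lit 10) (.s false (nat_lit 1) (nat_lit 15) (nat_lit 1) (nat_lit 0) (nat_lit 2) true (nat_lit 5) true (nat_lit 10) true (nat_lit 0) true (nat_lit 11) true (nat_lit 12) (.s false (nat_lit 1) (nat_lit 20) (nat_lit 0) (nat_lit 1) (nat_lit 1) true (nat_lit 8) true (nat_lit 11) false (nat_lit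 2) true (nat_lit 12) true (nat_lit 11) (.a false (nat_lit 1296) (nat_lit 15) (nat_lit 16) (nat_lit 0) (nat_lit 0) (.e true (nat_lit 36) (nat_lit 34) (nat_lit 6) (nat_lit 6) (.e true (nat_lit 36) (nat_lit 60) (nat_lit 2) (nat_lit 10) (.e true (nat_lit 72) (nat_lit 65) (nat_lit 2) (nat_lit 10) (.e false (nat_lit 36) (nat_lit 28) (nat_lit 7) (nat_lit 5) (.e true (nat_lit 72) (nat_lit 31) (nat_lit 7) (nat_lit 5) (.e false (nat_lit 36) (nat_lit 33) (nat_lit 7) (nat_lit 5) (.e true (nat_lit 36) (nat_lit 91) (nat_lit 0) (nat_lit 12) (.e false (nat_lit 36) (nat_lit 69) (nat_lit 2) (nat_lit 10) (.e false (nat_lit 36) (nat_lit 41) (nat_lit 5) (nat_lit 7) (.e false (nat_lit 36) (nat_lit 48) (nat_lit 4) (nat_lit 8) (.e false (nat_lit 36) (nat_lit 72) (nat_lit 1) (nat_lit 11) (.e false (nat_lit 36) (nat_lit 76) (nat_lit 1) (nat_lit 11) (.e false (nat_lit 36) (nat_lit 78) (nat_lit 1) (nat_lit 11) (.e false (nat_lit 72) (nat_lit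 80) (nat_lit 1) (nat_lit 11) (.e true (nat_lit 72) (nat_lit 82) (nat_lit 1) (nat_lit 11) (.e false (nat_lit 36) (nat_lit 83) (nat_lit 1) (nat_lit 11) (.e true (nat_lit 36) (nat_lit 84) (nat_lit 1) (nat_lit 11) (.e false (nat_lit 36) (nat_lit 61) (nat_lit 2) (nat_lit 10) (.e true (nat_lit 36) (nat_lit 62) (nat_lit 2) (nat_lit 10) .nil)))))))))))))))))))))))))

noncomputable def dF6aa_i20 : IL := (.s false (nat_lit 1) (nat_lit 16) (nat_lit 1) (nat_lit 0) (nat_lit 2) true (nat_lit 5) true (nat_lit 10) true (nat_lit 0) true (nat_lit 11) true (nat_lit 12) (.e false (nat_lit 36) (nat_lit 33) (nat_lit 7) (nat_lit 5) (.e false (nat_lit 36) (nat_lit 66) (nat_lit 2) (nat_lit 10) (.e true (nat_lit 36) (nat_lit 71) (nat_lit 2) (nat_lit 10) (.e true (nat_lit 36) (nat_lit 34) (nat_lit 6) (nat_lit 6) (.e false (nat_lit 36) (nat_lit 46) (nat_lit 4) (nat_lit 8) (.e true (nat_lit 36) (nat_lit 60) (nat_lit 2) (nat_lit 10) (.e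 false (nat_lit 36) (nat_lit 61) (nat_lit 2) (nat_lit 10) (.e true (nat_lit 36) (nat_lit 62) (nat_lit 2) (nat_lit 10) (.e false (nat_lit 36) (nat_lit 63) (nat_lit 2) (nat_lit 10) (.e true (nat_lit 72) (nat_lit 65) (nat_lit 2) (nat_lit 10) (.e true (nat_lit 36) (nat_lit 89) (nat_lit 0) (nat_lit 12) (.e true (nat_lit 36) (nat_lit 93) (nat_lit 0) (nat_lit 12) (.e false (nat_lit 36) (nat_lit 97) (nat_lit 0) (nat_lit 12) (.e false (nat_lit 36) (nat_lit 98) (nat_lit 0) (nat_lit 12) (.e true (nat_lit 36) (nat_lit 99) (nat_lit 0) (nat_lit 12) (.e true (nat_lit 36) (nat_lit 29) (nat_lit 7) (nat_lit 5) (.e false (nat_lit 36) (nat_lit 30) (nat_lit 7) (nat_lit 5) (.e false (nat_lit 36) (nat_lit 69) (nat_lit 2) (nat_lit 10) (.e false (nat_lit 36) (nat_lit 74) (nat_lit 1) (nat_lit 11) (.e true (nat_lit 36) (nat_lit 79) (nat_lit 1) (nat_lit 11) (.e false (nat_lit 36) (nat_lit 80) (nat_lit 1) (nat_lit 11) (.e false (nat_lit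 36) (nat_lit 83) (nat_lit 1) (nat_lit 11) (.e true (nat_lit 36) (nat_lit 84) (nat_lit 1) (nat_lit 11) (.e true (nat_lit 36) (nat_lit 92) (nat_lit 0) (nat_lit 12) .nil)))))))))))))))))))))))))

noncomputable def dF6aa_i21 : IL := (.e true (nat_lit 72) (nat_lit 74) (nat_lit 1) (nat_lit 11) (.e true (nat_lit 108) (nat_lit 75) (nat_lit 1) (nat_lit 11) (.e false (nat_lit 144) (nat_lit 76) (nat_lit 1) (nat_lit 11) (.e true (nat_lit 180) (nat_lit 79) (nat_lit 1) (nat_lit 11) (.e false (nat_lit 72) (nat_lit 80) (nat_lit 1) (nat_lit 11) (.e true (nat_lit 36) (nat_lit 82) (nat_lit 1) (nat_lit 11) (.e false (nat_lit 72) (nat_lit 83) (nat_lit 1) (nat_lit 11) (.e true (nat_lit 36) (nat_lit 84) (nat_lit 1) (nat_lit 11) (.e false (nat_lit 108) (nat_lit 85) (nat_lit 1) (nat_lit 11) (.e false (nat_lit 36) (nat_lit 30) (nat_lit 7) (nat_lit 5) (.e false (nat_lit 72) (nat_lit 59) (nat_lit 2) (nat_lit 10) (.e false (nat_lit 72)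 (nat_lit 60) (nat_lit 2) (nat_lit 10) (.e true (nat_lit 108) (nat_lit 61) (nat_lit 2) (nat_lit 10) (.e false (nat_lit 72) (nat_lit 62) (nat_lit 2) (nat_lit 10) (.e true (nat_lit 108) (nat_lit 63) (nat_lit 2) (nat_lit 10) (.e false (nat_lit 144) (nat_lit 65) (nat_lit 2) (nat_lit 10) (.e true (nat_lit 36) (nat_lit 66) (nat_lit 2) (nat_lit 10) (.e false (nat_lit 72) (nat_lit 67) (nat_lit 2) (nat_lit 10) (.e true (nat_lit 108) (nat_lit 68) (nat_lit 2) (nat_lit 10) (.e false (nat_lit 72) (nat_lit 69) (nat_lit 2) (nat_lit 10) (.e true (nat_lit 108) (nat_lit 70) (nat_lit 2) (nat_lit 10) (.e false (nat_lit 36) (nat_lit 71) (nat_lit 2) (nat_lit 10) (.e true (nat_lit 36) (nat_lit 28) (nat_lit 7) (nat_lit 5) (.e false (nat_lit 36) (nat_lit 77) (nat_lit 1) (nat_lit 11) (.e false (nat_lit 36) (nat_lit 78) (nat_lit 1) (nat_lit 11) .nil)))))))))))))))))))))))))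

noncomputable def dF6aa_i22 : IL := (.s false (nat_lit 1) (nat_lit 14) (nat_lit 1) (nat_lit 2) (nat_lit 2) true (nat_lit 4) true (nat_lit 8) true (nat_lit 1) true (nat_lit 9) true (nat_lit 8) (.s true (nat_lit 1) (nat_lit 15) (nat_lit 0) (nat_lit 2) (nat_lit 2) true (nat_lit 5) true (nat_lit 8) true (nat_lit 0) true (nat_lit 10) true (nat_lit 8) (.s false (nat_lit 1) (nat_lit 15) (nat_lit 2) (nat_lit 2) (nat_lit 0) true (nat_lit 5) true (nat_lit 10) true (nat_lit 0) true (nat_lit 8) true (nat_lit 8) (.s false (nat_lit 1) (nat_lit 20) (nat_lit 0) (nat_lit 1) (nat_lit 2) true (nat_lit 5) true (nat_lit 8) false (nat_lit 0) true (nat_lit 10) true (nat_lit 9) (.s true (nat_lit 1) (nat_lit 21) (nat_lit 0) (nat_lit 1) (nat_lit 2) true (nat_lit 5) true (nat_lit 8) false (nat_lit 0) true (nat_lit 10) true (nat_lit 9) (.s true (nat_lit 1) (nat_lit 22) (nat_lit 2) (nat_lit 0) (nat_lit 0) true (nat_lit 5) true (nat_lit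 10) false (nat_lit 1) true (nat_lit 8) true (nat_lit 10) (.e false (nat_lit 108) (nat_lit 74) (nat_lit 2) (nat_lit 8) (.e false (nat_lit 36) (nat_lit 80) (nat_lit 2) (nat_lit 8) (.e true (nat_lit 36) (nat_lit 84) (nat_lit 2) (nat_lit 8) (.e true (nat_lit 36) (nat_lit 102) (nat_lit 1) (nat_lit 9) (.e false (nat_lit 36) (nat_lit 103) (nat_lit 1) (nat_lit 9) (.e true (nat_lit 36) (nat_lit 72) (nat_lit 2) (nat_lit 8) (.e true (nat_lit 72) (nat_lit 75) (nat_lit 2) (nat_lit 8) (.e false (nat_lit 108) (nat_lit 106) (nat_lit 0) (nat_lit 10) (.e true (nat_lit 72) (nat_lit 107) (nat_lit 0) (nat_lit 10) (.e true (nat_lit 36) (nat_lit 111) (nat_lit 0) (nat_lit 10) (.e false (nat_lit 36) (nat_lit 43) (nat_lit 6) (nat_lit 5) (.e true (nat_lit 36) (nat_lit 116) (nat_lit 0) (nat_lit 10) (.e true (nat_lit 72) (nat_lit 105) (nat_lit 1) (nat_lit 9) (.e true (nat_lit 108) (nat_lit 78) (nat_lit 2) (nat_lit 8) (.e true (nat_lit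 36) (nat_lit 115) (nat_lit 0) (nat_lit 10) (.e false (nat_lit 36) (nat_lit 77) (nat_lit 2) (nat_lit 8) (.e false (nat_lit 72) (nat_lit 114) (nat_lit 0) (nat_lit 10) (.e true (nat_lit 36) (nat_lit 108) (nat_lit 0) (nat_lit 10) (.e false (nat_lit 36) (nat_lit 73) (nat_lit 2) (nat_lit 8) .nil)))))))))))))))))))))))))

noncomputable def dF6aa_i23 : IL := (.i true (nat_lit 2) (nat_lit 2) (.c (nat_lit 2) (nat_lit 1) (.c (nat_lit 2) (nat_lit 1) (.c (nat_lit 2) (nat_lit 1) (.c (nat_lit 0) (nat_lit 256) (.c (nat_lit 0) (nat_lit 256) (.c (nat_lit 1) (nat_lit 16) .nil)))))) (.i true (nat_lit 2) (nat_lit 2) (.c (nat_lit 2) (nat_lit 1) (.c (nat_lit 2) (nat_lit 1) (.c (nat_lit 2) (nat_lit 1) (.c (nat_lit 0) (nat_lit 256) (.c (nat_lit 1) (nat_lit 16) (.c (nat_lit 0) (nat_lit 256) .nil)))))) (.e true (nat_lit 3919104) (nat_lit 43) (nat_lit 6) (nat_lit 5) (.e false (nat_lit 6718464) (nat_lit 48) (nat_lit 6) (nat_lit 5) (.e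 false (nat_lit 3919104) (nat_lit 102) (nat_lit 1) (nat_lit 9) (.e true (nat_lit 5598720) (nat_lit 103) (nat_lit 1) (nat_lit 9) (.e true (nat_lit 31352832) (nat_lit 74) (nat_lit 2) (nat_lit 8) (.e false (nat_lit 2239488) (nat_lit 79) (nat_lit 2) (nat_lit 8) (.e true (nat_lit 6718464) (nat_lit 80) (nat_lit 2) (nat_lit 8) (.e false (nat_lit 9517824) (nat_lit 84) (nat_lit 2) (nat_lit 8) (.e false (nat_lit 5038848) (nat_lit 116) (nat_lit 0) (nat_lit 10) (.e false (nat_lit 12317184) (nat_lit 72) (nat_lit 2) (nat_lit 8) (.e false (nat_lit 11197440) (nat_lit 75) (nat_lit 2) (nat_lit 8) (.e false (nat_lit 5038848) (nat_lit 76) (nat_lit 2) (nat_lit 8) (.e false (nat_lit 30792960) (nat_lit 78) (nat_lit 2) (nat_lit 8) (.e true (nat_lit 1679616) (nat_lit 82) (nat_lit 2) (nat_lit 8) (.e false (nat_lit 17356032) (nat_lit 107) (nat_lit 0) (nat_lit 10) (.e false (nat_lit 11197440) (nat_lit 115) (nat_lit 0) (nat_lit 10) (.e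 true (nat_lit 12317184) (nat_lit 73) (nat_lit 2) (nat_lit 8) (.e false (nat_lit 11197440) (nat_lit 108) (nat_lit 0) (nat_lit 10) (.e false (nat_lit 4478976) (nat_lit 111) (nat_lit 0) (nat_lit 10) (.e false (nat_lit 15116544) (nat_lit 105) (nat_lit 1) (nat_lit 9) (.e true (nat_lit 23514624) (nat_lit 106) (nat_lit 0) (nat_lit 10) (.e true (nat_lit 7278336) (nat_lit 77) (nat_lit 2) (nat_lit 8) (.e true (nat_lit 16236288) (nat_lit 114) (nat_lit 0) (nat_lit 10) .nil)))))))))))))))))))))))))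

noncomputable def dF6aa_i24 : IL := (.s true (nat_lit 23328) (nat_lit 8) (nat_lit 3) (nat_lit 1) (nat_lit 2) true (nat_lit 1) true (nat_lit 8) true (nat_lit 3) true (nat_lit 7) true (nat_lit 9) (.s false (nat_lit 15552) (nat_lit 8) (nat_lit 4) (nat_lit 0) (nat_lit 2) true (nat_lit 0) true (nat_lit 8) true (nat_lit 3) true (nat_lit 6) true (nat_lit 10) (.s true (nat_lit 7776) (nat_lit 8) (nat_lit 4) (nat_lit 2) (nat_lit 0) true (nat_lit 2) true (nat_lit 10) true (nat_lit 3) true (nat_lit 6) true (nat_lit 8) (.s true (nat_lit 124416) (nat_lit 8) (nat_lit 6) (nat_lit 0) (nat_lit 1) true (nat_lit 0) true (nat_lit 9) true (nat_lit 3) true (nat_lit 5) true (nat_lit 10) (.s true (nat_lit 326592) (nat_lit 14) (nat_lit 1) (nat_lit 2) (nat_lit 2) true (nat_lit 4) true (nat_lit 8) true (nat_lit 1) true (nat_lit 9) true (nat_lit 8) (.s false (nat_lit 147744) (nat_lit 14) (nat_lit 2) (nat_lit 1) (nat_lit 2) true (nat_lit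 3) true (nat_lit 8) true (nat_lit 1) true (nat_lit 8) true (nat_lit 9) (.s true (nat_lit 23328) (nat_lit 14) (nat_lit 2) (nat_lit 2) (nat_lit 1) true (nat_lit 4) true (nat_lit 9) true (nat_lit 1) true (nat_lit 8) true (nat_lit 8) (.s false (nat_lit 264384) (nat_lit 15) (nat_lit 0) (nat_lit 2) (nat_lit 2) true (nat_lit 5) true (nat_lit 8) true (nat_lit 0) true (nat_lit 10) true (nat_lit 8) (.s true (nat_lit 23328) (nat_lit 15) (nat_lit 2) (nat_lit 0) (nat_lit 2) true (nat_lit 3) true (nat_lit 8) true (nat_lit 0) true (nat_lit 8) true (nat_lit 10) (.s true (nat_lit 23328) (nat_lit 17) (nat_lit 2) (nat_lit 0) (nat_lit 2) true (nat_lit 3) true (nat_lit 8) true (nat_lit 0) true (nat_lit 8) true (nat_lit 10) (.s true (nat_lit 62208) (nat_lit 15) (nat_lit 2) (nat_lit 2) (nat_lit 0) true (nat_lit 5) true (nat_lit 10) true (nat_lit 0) true (nat_lit 8) true (nat_lit 8) (.s true (nat_lit 171072) (nat_lit 17) (nat_lit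 2) (nat_lit 2) (nat_lit 0) true (nat_lit 5) true (nat_lit 10) true (nat_lit 0) true (nat_lit 8) true (nat_lit 8) (.s false (nat_lit 62208) (nat_lit 20) (nat_lit 0) (nat_lit 1) (nat_lit 2) true (nat_lit 5) true (nat_lit 8) false (nat_lit 0) true (nat_lit 10) true (nat_lit 9) (.s false (nat_lit 264384) (nat_lit 21) (nat_lit 0) (nat_lit 1) (nat_lit 2) true (nat_lit 5) true (nat_lit 8) false (nat_lit 0) true (nat_lit 10) true (nat_lit 9) (.s true (nat_lit 85536) (nat_lit 21) (nat_lit 0) (nat_lit 2) (nat_lit 1) true (nat_lit 6) true (nat_lit 9) false (nat_lit 0) true (nat_lit 10) true (nat_lit 8) (.s true (nat_lit 116640) (nat_lit 20) (nat_lit 1) (nat_lit 0) (nat_lit 2) true (nat_lit 4) true (nat_lit 8) false (nat_lit 0) true (nat_lit 9) true (nat_lit 10) (.s true (nat_lit 171072) (nat_lit 21) (nat_lit 1) (nat_lit 0) (nat_lit 2) true (nat_lit 4) true (nat_lit 8) false (nat_lit 0) true (nat_lit 9) true (nat_lit 10)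 (.s false (nat_lit 124416) (nat_lit 21) (nat_lit 1) (nat_lit 2) (nat_lit 0) true (nat_lit 6) true (nat_lit 10) false (nat_lit 0) true (nat_lit 9) true (nat_lit 8) (.s false (nat_lit 342144) (nat_lit 20) (nat_lit 2) (nat_lit 0) (nat_lit 1) true (nat_lit 4) true (nat_lit 9) false (nat_lit 0) true (nat_lit 8) true (nat_lit 10) (.s false (nat_lit 163296) (nat_lit 21) (nat_lit 2) (nat_lit 0) (nat_lit 1) true (nat_lit 4) true (nat_lit 9) false (nat_lit 0) true (nat_lit 8) true (nat_lit 10) (.s true (nat_lit 23328) (nat_lit 23) (nat_lit 0) (nat_lit 2) (nat_lit 0) true (nat_lit 7) true (nat_lit 10) false (nat_lit 1) true (nat_lit 10) true (nat_lit 8) (.s false (nat_lit 419904) (nat_lit 22) (nat_lit 2) (nat_lit 0) (nat_lit 0) true (nat_lit 5) true (nat_lit 10) false (nat_lit 1) true (nat_lit 8) true (nat_lit 10) (.s true (nat_lit 23328) (nat_lit 24) (nat_lit 0) (nat_lit 0) (nat_lit 1) true (nat_lit 6) true (nat_lit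 9) false (nat_lit 2) true (nat_lit 10) true (nat_lit 10) (.s false (nat_lit 15552) (nat_lit 24) (nat_lit 0) (nat_lit 1) (nat_lit 0) true (nat_lit 7) true (nat_lit 10) false (nat_lit 2) true (nat_lit 10) true (nat_lit 9) (.i false (nat_lit 3) (nat_lit 2) (.c (nat_lit 2) (nat_lit 1) (.c (nat_lit 1) (nat_lit 16) (.c (nat_lit 0) (nat_lit 256) (.c (nat_lit 0) (nat_lit 256) (.c (nat_lit 2) (nat_lit 1) (.c (nat_lit 2) (nat_lit 1) .nil)))))) dF6aa_i23)))))))))))))))))))))))))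

noncomputable def dF6aa_i25 : IL := (.i false (nat_lit 1) (nat_lit 2) (.c (nat_lit 2) (nat_lit 1) (.c (nat_lit 2) (nat_lit 1) (.c (nat_lit 2) (nat_lit 1) (.c (nat_lit 0) (nat_lit 256) (.c (nat_lit 1) (nat_lit 16) (.c (nat_lit 0) (nat_lit 256) .nil)))))) (.e true (nat_lit 559872) (nat_lit 43) (nat_lit 6) (nat_lit 5) (.e true (nat_lit 2239488) (nat_lit 48) (nat_lit 6) (nat_lit 5) (.e true (nat_lit 1679616) (nat_lit 102) (nat_lit 1) (nat_lit 9) (.e false (nat_lit 1679616) (nat_lit 103) (nat_lit 1) (nat_lit 9) (.e false (nat_lit 10077696) (nat_lit 74) (nat_lit 2) (nat_lit 8) (.e true (nat_lit 559872) (nat_lit 79) (nat_lit 2) (nat_lit 8) (.e false (nat_lit 3359232) (nat_lit 80) (nat_lit 2) (nat_lit 8) (.e false (nat_lit 559872) (nat_lit 83) (nat_lit 2) (nat_lit 8) (.e true (nat_lit 2239488) (nat_lit 84) (nat_lit 2) (nat_lit 8) (.e true (nat_lit 4478976) (nat_lit 72) (nat_lit 2) (nat_lit 8) (.e true (nat_lit 2799360)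 (nat_lit 75) (nat_lit 2) (nat_lit 8) (.e true (nat_lit 2799360) (nat_lit 76) (nat_lit 2) (nat_lit 8) (.e true (nat_lit 10077696) (nat_lit 78) (nat_lit 2) (nat_lit 8) (.e false (nat_lit 2239488) (nat_lit 82) (nat_lit 2) (nat_lit 8) (.e true (nat_lit 559872) (nat_lit 116) (nat_lit 0) (nat_lit 10) (.e true (nat_lit 7278336) (nat_lit 107) (nat_lit 0) (nat_lit 10) (.e true (nat_lit 3359232) (nat_lit 115) (nat_lit 0) (nat_lit 10) (.e false (nat_lit 3359232) (nat_lit 73) (nat_lit 2) (nat_lit 8) (.e true (nat_lit 4478976) (nat_lit 108) (nat_lit 0) (nat_lit 10) (.e true (nat_lit 1119744) (nat_lit 111) (nat_lit 0) (nat_lit 10) (.e true (nat_lit 4478976) (nat_lit 105) (nat_lit 1) (nat_lit 9) (.e false (nat_lit 6718464) (nat_lit 106) (nat_lit 0) (nat_lit 10) (.e false (nat_lit 1679616) (nat_lit 77) (nat_lit 2) (nat_lit 8) (.e false (nat_lit 5038848) (nat_lit 114) (nat_lit 0) (nat_lit 10) .nil)))))))))))))))))))))))))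

noncomputable def dF6aa_i26 : IL := (.s false (nat_lit 2) (nat_lit 21) (nat_lit 0) (nat_lit 1) (nat_lit 2) true (nat_lit 5) true (nat_lit 8) false (nat_lit 0) true (nat_lit 10) true (nat_lit 9) (.s true (nat_lit 2) (nat_lit 21) (nat_lit 1) (nat_lit 0) (nat_lit 2) true (nat_lit 4) true (nat_lit 8) false (nat_lit 0) true (nat_lit 9) true (nat_lit 10) (.s false (nat_lit 2) (nat_lit 21) (nat_lit 1) (nat_lit 2) (nat_lit 0) true (nat_lit 6) true (nat_lit 10) false (nat_lit 0) true (nat_lit 9) true (nat_lit 8) (.s false (nat_lit 1) (nat_lit 20) (nat_lit 2) (nat_lit 0) (nat_lit 1) true (nat_lit 4) true (nat_lit 9) false (nat_lit 0) true (nat_lit 8) true (nat_lit 10) (.s false (nat_lit 2) (nat_lit 21) (nat_lit 2) (nat_lit 0) (nat_lit 1) true (nat_lit 4) true (nat_lit 9) false (nat_lit 0) true (nat_lit 8) true (nat_lit 10) (.s false (nat_lit 1) (nat_lit 22) (nat_lit 2) (nat_lit 0) (nat_lit 0) true (nat_lit 5) true (nat_lit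 10) false (nat_lit 1) true (nat_lit 8) true (nat_lit 10) (.e false (nat_lit 36) (nat_lit 43) (nat_lit 6) (nat_lit 5) (.e true (nat_lit 36) (nat_lit 48) (nat_lit 6) (nat_lit 5) (.e true (nat_lit 324) (nat_lit 74) (nat_lit 2) (nat_lit 8) (.e false (nat_lit 72) (nat_lit 79) (nat_lit 2) (nat_lit 8) (.e true (nat_lit 36) (nat_lit 83) (nat_lit 2) (nat_lit 8) (.e false (nat_lit 72) (nat_lit 85) (nat_lit 2) (nat_lit 8) (.e true (nat_lit 72) (nat_lit 116) (nat_lit 0) (nat_lit 10) (.e false (nat_lit 180) (nat_lit 107) (nat_lit 0) (nat_lit 10) (.e false (nat_lit 144) (nat_lit 72) (nat_lit 2) (nat_lit 8) (.e true (nat_lit 72) (nat_lit 75) (nat_lit 2) (nat_lit 8) (.e false (nat_lit 180) (nat_lit 76) (nat_lit 2) (nat_lit 8) (.e false (nat_lit 108) (nat_lit 108) (nat_lit 0) (nat_lit 10) (.e false (nat_lit 144) (nat_lit 115) (nat_lit 0) (nat_lit 10) (.e false (nat_lit 288) (nat_lit 78) (nat_lit 2) (nat_lit 8) (.e true (nat_lit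 180) (nat_lit 82) (nat_lit 2) (nat_lit 8) (.e true (nat_lit 108) (nat_lit 106) (nat_lit 0) (nat_lit 10) (.e false (nat_lit 72) (nat_lit 105) (nat_lit 1) (nat_lit 9) (.e true (nat_lit 108) (nat_lit 114) (nat_lit 0) (nat_lit 10) (.e true (nat_lit 108) (nat_lit 73) (nat_lit 2) (nat_lit 8) .nil)))))))))))))))))))))))))

noncomputable def dF6aa_i27 : IL := (.s true (nat_lit 15552) (nat_lit 21) (nat_lit 2) (nat_lit 0) (nat_lit 1) true (nat_lit 4) true (nat_lit 9) false (nat_lit 0) true (nat_lit 8) true (nat_lit 10) (.i false (nat_lit 1) (nat_lit 2) (.c (nat_lit 2) (nat_lit 1) (.c (nat_lit 2) (nat_lit 1) (.c (nat_lit 2) (nat_lit 1) (.c (nat_lit 0) (nat_lit 256) (.c (nat_lit 0) (nat_lit 256) (.c (nat_lit 1) (nat_lit 16) .nil)))))) (.e true (nat_lit 1679616) (nat_lit 43) (nat_lit 6) (nat_lit 5) (.e true (nat_lit 1119744) (nat_lit 48) (nat_lit 6) (nat_lit 5) (.e true (nat_lit 1119744) (nat_lit 102) (nat_lit 1) (nat_lit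 9) (.e true (nat_lit 3359232) (nat_lit 74) (nat_lit 2) (nat_lit 8) (.e false (nat_lit 1119744) (nat_lit 79) (nat_lit 2) (nat_lit 8) (.e false (nat_lit 2239488) (nat_lit 80) (nat_lit 2) (nat_lit 8) (.e true (nat_lit 1119744) (nat_lit 84) (nat_lit 2) (nat_lit 8) (.e false (nat_lit 1679616) (nat_lit 85) (nat_lit 2) (nat_lit 8) (.e false (nat_lit 1119744) (nat_lit 72) (nat_lit 2) (nat_lit 8) (.e true (nat_lit 1679616) (nat_lit 75) (nat_lit 2) (nat_lit 8) (.e false (nat_lit 1119744) (nat_lit 76) (nat_lit 2) (nat_lit 8) (.e false (nat_lit 3359232) (nat_lit 78) (nat_lit 2) (nat_lit 8) (.e true (nat_lit 2239488) (nat_lit 82) (nat_lit 2) (nat_lit 8) (.e true (nat_lit 1119744) (nat_lit 116) (nat_lit 0) (nat_lit 10) (.e false (nat_lit 3359232) (nat_lit 115) (nat_lit 0) (nat_lit 10) (.e true (nat_lit 1119744) (nat_lit 73) (nat_lit 2) (nat_lit 8) (.e false (nat_lit 2239488) (nat_lit 107) (nat_lit 0) (nat_lit 10) (.e false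 (nat_lit 1119744) (nat_lit 108) (nat_lit 0) (nat_lit 10) (.e true (nat_lit 559872) (nat_lit 109) (nat_lit 0) (nat_lit 10) (.e false (nat_lit 559872) (nat_lit 111) (nat_lit 0) (nat_lit 10) (.e false (nat_lit 559872) (nat_lit 105) (nat_lit 1) (nat_lit 9) (.e true (nat_lit 2239488) (nat_lit 106) (nat_lit 0) (nat_lit 10) (.e true (nat_lit 1679616) (nat_lit 114) (nat_lit 0) (nat_lit 10) .nil)))))))))))))))))))))))))

noncomputable def dF6aa_i28 : IL := (.s true (nat_lit 1) (nat_lit 14) (nat_lit 2) (nat_lit 1) (nat_lit 2) true (nat_lit 3) true (nat_lit 8) true (nat_lit 1) true (nat_lit 8) true (nat_lit 9) (.s true (nat_lit 1) (nat_lit 15) (nat_lit 2) (nat_lit 2) (nat_lit 0) true (nat_lit 5) true (nat_lit 10) true (nat_lit 0) true (nat_lit 8) true (nat_lit 8) (.s false (nat_lit 1) (nat_lit 21) (nat_lit 1) (nat_lit 0) (nat_lit 2) true (nat_lit 4) true (nat_lit 8) false (nat_lit 0) true (nat_lit 9) true (nat_lit 10)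 (.s true (nat_lit 1) (nat_lit 21) (nat_lit 2) (nat_lit 0) (nat_lit 1) true (nat_lit 4) true (nat_lit 9) false (nat_lit 0) true (nat_lit 8) true (nat_lit 10) (.e false (nat_lit 72) (nat_lit 74) (nat_lit 2) (nat_lit 8) (.e true (nat_lit 108) (nat_lit 79) (nat_lit 2) (nat_lit 8) (.e false (nat_lit 72) (nat_lit 83) (nat_lit 2) (nat_lit 8) (.e true (nat_lit 36) (nat_lit 84) (nat_lit 2) (nat_lit 8) (.e false (nat_lit 72) (nat_lit 85) (nat_lit 2) (nat_lit 8) (.e false (nat_lit 90) (nat_lit 102) (nat_lit 1) (nat_lit 9) (.e true (nat_lit 54) (nat_lit 103) (nat_lit 1) (nat_lit 9) (.e false (nat_lit 18) (nat_lit 104) (nat_lit 1) (nat_lit 9) (.e false (nat_lit 36) (nat_lit 116) (nat_lit 0) (nat_lit 10) (.e false (nat_lit 36) (nat_lit 48) (nat_lit 6) (nat_lit 5) (.e false (nat_lit 36) (nat_lit 107) (nat_lit 0) (nat_lit 10) (.e true (nat_lit 36) (nat_lit 108) (nat_lit 0) (nat_lit 10) (.e true (nat_lit 36) (nat_lit 109) (nat_lit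 0) (nat_lit 10) (.e false (nat_lit 36) (nat_lit 111) (nat_lit 0) (nat_lit 10) (.e true (nat_lit 36) (nat_lit 115) (nat_lit 0) (nat_lit 10) (.e true (nat_lit 36) (nat_lit 78) (nat_lit 2) (nat_lit 8) (.e false (nat_lit 36) (nat_lit 75) (nat_lit 2) (nat_lit 8) (.e true (nat_lit 36) (nat_lit 43) (nat_lit 6) (nat_lit 5) (.e true (nat_lit 36) (nat_lit 106) (nat_lit 0) (nat_lit 10) (.e false (nat_lit 36) (nat_lit 105) (nat_lit 1) (nat_lit 9) (.e false (nat_lit 36) (nat_lit 73) (nat_lit 2) (nat_lit 8) .nil)))))))))))))))))))))))))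

noncomputable def dF6aa_i29 : IL := (.s false (nat_lit 1) (nat_lit 6) (nat_lit 4) (nat_lit 2) (nat_lit 2) true (nat_lit 0) true (nat_lit 8) true (nat_lit 5) true (nat_lit 6) true (nat_lit 8) (.s false (nat_lit 1) (nat_lit 7) (nat_lit 0) (nat_lit 2) (nat_lit 6) true (nat_lit 1) true (nat_lit 5) true (nat_lit 4) true (nat_lit 10) true (nat_lit 8) (.s true (nat_lit 1) (nat_lit 8) (nat_lit 0) (nat_lit 2) (nat_lit 4) true (nat_lit 2) true (nat_lit 6) true (nat_lit 3) true (nat_lit 10) true (nat_lit 8) (.s false (nat_lit 1) (nat_lit 8) (nat_lit 2) (nat_lit 4) (nat_lit 0) true (nat_lit 5) true (nat_lit 10) true (nat_lit 3) true (nat_lit 8) true (nat_lit 6) (.s false (nat_lit 1) (nat_lit 8) (nat_lit 4) (nat_lit 2) (nat_lit 0) true (nat_lit 2) true (nat_lit 10) true (nat_lit 3) true (nat_lit 6) true (nat_lit 8) (.s true (nat_lit 1) (nat_lit 14) (nat_lit 2) (nat_lit 1) (nat_lit 2) true (nat_lit 3) true (nat_lit 8) true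 (nat_lit 1) true (nat_lit 8) true (nat_lit 9) (.s true (nat_lit 1) (nat_lit 15) (nat_lit 2) (nat_lit 0) (nat_lit 2) true (nat_lit 3) true (nat_lit 8) true (nat_lit 0) true (nat_lit 8) true (nat_lit 10) (.e false (nat_lit 36) (nat_lit 74) (nat_lit 2) (nat_lit 8) (.e true (nat_lit 72) (nat_lit 79) (nat_lit 2) (nat_lit 8) (.e true (nat_lit 108) (nat_lit 80) (nat_lit 2) (nat_lit 8) (.e false (nat_lit 18) (nat_lit 101) (nat_lit 1) (nat_lit 9) (.e false (nat_lit 18) (nat_lit 102) (nat_lit 1) (nat_lit 9) (.e true (nat_lit 18) (nat_lit 103) (nat_lit 1) (nat_lit 9) (.e false (nat_lit 18) (nat_lit 104) (nat_lit 1) (nat_lit 9) (.e false (nat_lit 36) (nat_lit 72) (nat_lit 2) (nat_lit 8) (.e false (nat_lit 36) (nat_lit 75) (nat_lit 2) (nat_lit 8) (.e false (nat_lit 36) (nat_lit 76) (nat_lit 2) (nat_lit 8) (.e false (nat_lit 36) (nat_lit 43) (nat_lit 6) (nat_lit 5) (.e true (nat_lit 72) (nat_lit 78) (nat_lit 2) (nat_lit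 8) (.e false (nat_lit 36) (nat_lit 82) (nat_lit 2) (nat_lit 8) (.e false (nat_lit 36) (nat_lit 116) (nat_lit 0) (nat_lit 10) (.e true (nat_lit 36) (nat_lit 33) (nat_lit 8) (nat_lit 3) (.e true (nat_lit 72) (nat_lit 115) (nat_lit 0) (nat_lit 10) (.e false (nat_lit 36) (nat_lit 48) (nat_lit 6) (nat_lit 5) (.e false (nat_lit 36) (nat_lit 106) (nat_lit 0) (nat_lit 10) .nil)))))))))))))))))))))))))

noncomputable def dF6aa_i30 : IL := (.s false (nat_lit 1) (nat_lit 14) (nat_lit 1) (nat_lit 2) (nat_lit 2) true (nat_lit 4) true (nat_lit 8) true (nat_lit 1) true (nat_lit 9) true (nat_lit 8) (.s false (nat_lit 1) (nat_lit 15) (nat_lit 0) (nat_lit 2) (nat_lit 2) true (nat_lit 5) true (nat_lit 8) true (nat_lit 0) true (nat_lit 10) true (nat_lit 8) (.s true (nat_lit 2) (nat_lit 15) (nat_lit 2) (nat_lit 0) (nat_lit 2) true (nat_lit 3) true (nat_lit 8) true (nat_lit 0) true (nat_lit 8) true (nat_lit 10) (.s true (nat_lit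 1) (nat_lit 20) (nat_lit 0) (nat_lit 1) (nat_lit 2) true (nat_lit 5) true (nat_lit 8) false (nat_lit 0) true (nat_lit 10) true (nat_lit 9) (.s false (nat_lit 1) (nat_lit 21) (nat_lit 0) (nat_lit 2) (nat_lit 1) true (nat_lit 6) true (nat_lit 9) false (nat_lit 0) true (nat_lit 10) true (nat_lit 8) (.s false (nat_lit 1) (nat_lit 20) (nat_lit 1) (nat_lit 0) (nat_lit 2) true (nat_lit 4) true (nat_lit 8) false (nat_lit 0) true (nat_lit 9) true (nat_lit 10) (.s true (nat_lit 1) (nat_lit 20) (nat_lit 2) (nat_lit 0) (nat_lit 1) true (nat_lit 4) true (nat_lit 9) false (nat_lit 0) true (nat_lit 8) true (nat_lit 10) (.e false (nat_lit 72) (nat_lit 43) (nat_lit 6) (nat_lit 5) (.e false (nat_lit 72) (nat_lit 101) (nat_lit 1) (nat_lit 9) (.e false (nat_lit 36) (nat_lit 79) (nat_lit 2) (nat_lit 8) (.e true (nat_lit 180) (nat_lit 80) (nat_lit 2) (nat_lit 8) (.e true (nat_lit 72) (nat_lit 83) (nat_lit 2) (nat_lit 8) (.e false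 (nat_lit 36) (nat_lit 84) (nat_lit 2) (nat_lit 8) (.e true (nat_lit 72) (nat_lit 85) (nat_lit 2) (nat_lit 8) (.e false (nat_lit 72) (nat_lit 75) (nat_lit 2) (nat_lit 8) (.e true (nat_lit 36) (nat_lit 78) (nat_lit 2) (nat_lit 8) (.e false (nat_lit 36) (nat_lit 82) (nat_lit 2) (nat_lit 8) (.e true (nat_lit 36) (nat_lit 28) (nat_lit 8) (nat_lit 3) (.e true (nat_lit 36) (nat_lit 33) (nat_lit 8) (nat_lit 3) (.e true (nat_lit 36) (nat_lit 115) (nat_lit 0) (nat_lit 10) (.e false (nat_lit 36) (nat_lit 107) (nat_lit 0) (nat_lit 10) (.e false (nat_lit 36) (nat_lit 108) (nat_lit 0) (nat_lit 10) (.e true (nat_lit 36) (nat_lit 105) (nat_lit 1) (nat_lit 9) (.e false (nat_lit 36) (nat_lit 106) (nat_lit 0) (nat_lit 10) (.e true (nat_lit 36) (nat_lit 114) (nat_lit 0) (nat_lit 10) .nil)))))))))))))))))))))))))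

noncomputable def dF6aa_i31 : IL := (.i false (nat_lit 29) (nat_lit 2) (.c (nat_lit 2) (nat_lit 1) (.c (nat_lit 2) (nat_lit 1) (.c (nat_lit 1) (nat_lit 16) (.c (nat_lit 0) (nat_lit 256) (.c (nat_lit 2) (nat_lit 1) (.c (nat_lit 1) (nat_lit 16) .nil)))))) (.i false (nat_lit 8) (nat_lit 2) (.c (nat_lit 2) (nat_lit 1) (.c (nat_lit 2) (nat_lit 1) (.c (nat_lit 2) (nat_lit 1) (.c (nat_lit 1) (nat_lit 16) (.c (nat_lit 0) (nat_lit 256) (.c (nat_lit 1) (nat_lit 16) .nil)))))) (.e false (nat_lit 27433728) (nat_lit 88) (nat_lit 2) (nat_lit 8) (.e true (nat_lit 19595520) (nat_lit 89) (nat_lit 2) (nat_lit 8) (.e true (nat_lit 35271936) (nat_lit 91) (nat_lit 2) (nat_lit 8) (.e true (nat_lit 12877056) (nat_lit 93) (nat_lit 2) (nat_lit 8) (.e false (nat_lit 1119744) (nat_lit 98) (nat_lit 2) (nat_lit 8) (.e true (nat_lit 19595520) (nat_lit 99) (nat_lit 2) (nat_lit 8) (.e false (nat_lit 20715264) (nat_lit 90) (nat_lit 2) (nat_lit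 8) (.e true (nat_lit 11197440) (nat_lit 45) (nat_lit 7) (nat_lit 4) (.e false (nat_lit 30792960) (nat_lit 43) (nat_lit 7) (nat_lit 4) (.e true (nat_lit 24074496) (nat_lit 44) (nat_lit 7) (nat_lit 4) (.e false (nat_lit 4478976) (nat_lit 118) (nat_lit 0) (nat_lit 10) (.e false (nat_lit 22394880) (nat_lit 119) (nat_lit 0) (nat_lit 10) (.e true (nat_lit 13436928) (nat_lit 97) (nat_lit 2) (nat_lit 8) (.e true (nat_lit 14556672) (nat_lit 46) (nat_lit 7) (nat_lit 4) (.e true (nat_lit 16236288) (nat_lit 37) (nat_lit 8) (nat_lit 3) (.e false (nat_lit 2239488) (nat_lit 107) (nat_lit 1) (nat_lit 9) (.e true (nat_lit 2239488) (nat_lit 109) (nat_lit 1) (nat_lit 9) (.e true (nat_lit 11197440) (nat_lit 110) (nat_lit 1) (nat_lit 9) (.e false (nat_lit 5598720) (nat_lit 111) (nat_lit 1) (nat_lit 9) (.e true (nat_lit 11757312) (nat_lit 122) (nat_lit 0) (nat_lit 10) (.e true (nat_lit 10637568) (nat_lit 108) (nat_lit 1) (nat_lit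 9) (.e true (nat_lit 29113344) (nat_lit 115) (nat_lit 1) (nat_lit 9) (.e true (nat_lit 20715264) (nat_lit 117) (nat_lit 0) (nat_lit 10) .nil)))))))))))))))))))))))))

noncomputable def dF6aa_i32 : IL := (.s false (nat_lit 765936) (nat_lit 8) (nat_lit 0) (nat_lit 7) (nat_lit 1) true (nat_lit 7) true (nat_lit 9) true (nat_lit 3) true (nat_lit 10) true (nat_lit 4) (.s false (nat_lit 808704) (nat_lit 8) (nat_lit 1) (nat_lit 4) (nat_lit 2) true (nat_lit 4) true (nat_lit 8) true (nat_lit 3) true (nat_lit 9) true (nat_lit 7) (.s false (nat_lit 93312) (nat_lit 8) (nat_lit 1) (nat_lit 6) (nat_lit 1) true (nat_lit 6) true (nat_lit 9) true (nat_lit 3) true (nat_lit 9) true (nat_lit 5) (.s true (nat_lit 373248) (nat_lit 8) (nat_lit 2) (nat_lit 4) (nat_lit 1) true (nat_lit 4) true (nat_lit 9) true (nat_lit 3) true (nat_lit 8) true (nat_lit 7) (.s true (nat_lit 435456) (nat_lit 8) (nat_lit 2) (nat_lit 5) (nat_lit 0) true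 (nat_lit 5) true (nat_lit 10) true (nat_lit 3) true (nat_lit 8) true (nat_lit 6) (.s true (nat_lit 489888) (nat_lit 8) (nat_lit 7) (nat_lit 0) (nat_lit 1) true (nat_lit 0) true (nat_lit 9) true (nat_lit 3) true (nat_lit 4) true (nat_lit 10) (.s true (nat_lit 9072) (nat_lit 8) (nat_lit 7) (nat_lit 1) (nat_lit 0) true (nat_lit 1) true (nat_lit 10) true (nat_lit 3) true (nat_lit 4) true (nat_lit 9) (.s false (nat_lit 248832) (nat_lit 11) (nat_lit 2) (nat_lit 2) (nat_lit 2) true (nat_lit 3) true (nat_lit 8) true (nat_lit 2) true (nat_lit 8) true (nat_lit 8) (.s true (nat_lit 559872) (nat_lit 15) (nat_lit 1) (nat_lit 2) (nat_lit 2) true (nat_lit 4) true (nat_lit 8) true (nat_lit 1) true (nat_lit 9) true (nat_lit 8) (.s false (nat_lit 62208) (nat_lit 16) (nat_lit 1) (nat_lit 2) (nat_lit 2) true (nat_lit 4) true (nat_lit 8) true (nat_lit 1) true (nat_lit 9) true (nat_lit 8) (.s true (nat_lit 404352) (nat_lit 15) (nat_lit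 2) (nat_lit 1) (nat_lit 2) true (nat_lit 3) true (nat_lit 8) true (nat_lit 1) true (nat_lit 8) true (nat_lit 9) (.s false (nat_lit 171072) (nat_lit 16) (nat_lit 2) (nat_lit 1) (nat_lit 2) true (nat_lit 3) true (nat_lit 8) true (nat_lit 1) true (nat_lit 8) true (nat_lit 9) (.s false (nat_lit 717984) (nat_lit 17) (nat_lit 2) (nat_lit 1) (nat_lit 2) true (nat_lit 3) true (nat_lit 8) true (nat_lit 1) true (nat_lit 8) true (nat_lit 9) (.s true (nat_lit 186624) (nat_lit 15) (nat_lit 2) (nat_lit 2) (nat_lit 1) true (nat_lit 4) true (nat_lit 9) true (nat_lit 1) true (nat_lit 8) true (nat_lit 8) (.s false (nat_lit 668736) (nat_lit 16) (nat_lit 2) (nat_lit 2) (nat_lit 1) true (nat_lit 4) true (nat_lit 9) true (nat_lit 1) true (nat_lit 8) true (nat_lit 8) (.s true (nat_lit 93312) (nat_lit 18) (nat_lit 2) (nat_lit 0) (nat_lit 2) true (nat_lit 3) true (nat_lit 8) true (nat_lit 0) true (nat_lit 8) true (nat_lit 10) (.s false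 (nat_lit 435456) (nat_lit 21) (nat_lit 1) (nat_lit 2) (nat_lit 1) true (nat_lit 6) true (nat_lit 9) false (nat_lit 0) true (nat_lit 9) true (nat_lit 8) (.s true (nat_lit 108864) (nat_lit 20) (nat_lit 2) (nat_lit 1) (nat_lit 1) true (nat_lit 4) true (nat_lit 9) false (nat_lit 0) true (nat_lit 8) true (nat_lit 9) (.s true (nat_lit 502848) (nat_lit 22) (nat_lit 0) (nat_lit 1) (nat_lit 2) true (nat_lit 5) true (nat_lit 8) false (nat_lit 1) true (nat_lit 10) true (nat_lit 9) (.s false (nat_lit 1124928) (nat_lit 22) (nat_lit 0) (nat_lit 2) (nat_lit 1) true (nat_lit 7) true (nat_lit 9) false (nat_lit 1) true (nat_lit 10) true (nat_lit 8) (.s false (nat_lit 41472) (nat_lit 22) (nat_lit 1) (nat_lit 0) (nat_lit 2) true (nat_lit 4) true (nat_lit 8) false (nat_lit 1) true (nat_lit 9) true (nat_lit 10) (.s true (nat_lit 495072) (nat_lit 22) (nat_lit 1) (nat_lit 2) (nat_lit 0) true (nat_lit 7) true (nat_lit 10) false (nat_lit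 1) true (nat_lit 9) true (nat_lit 8) (.s true (nat_lit 668736) (nat_lit 23) (nat_lit 2) (nat_lit 0) (nat_lit 1) true (nat_lit 4) true (nat_lit 9) false (nat_lit 1) true (nat_lit 8) true (nat_lit 10) (.s true (nat_lit 435456) (nat_lit 24) (nat_lit 0) (nat_lit 1) (nat_lit 1) true (nat_lit 7) true (nat_lit 9) false (nat_lit 2) true (nat_lit 10) true (nat_lit 9) (.i true (nat_lit 22) (nat_lit 2) (.c (nat_lit 2) (nat_lit 1) (.c (nat_lit 2) (nat_lit 1) (.c (nat_lit 1) (nat_lit 16) (.c (nat_lit 0) (nat_lit 256) (.c (nat_lit 1) (nat_lit 16) (.c (nat_lit 2) (nat_lit 1) .nil)))))) dF6aa_i31)))))))))))))))))))))))))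

noncomputable def dF6aa_i33 : IL := (.s true (nat_lit 1) (nat_lit 23) (nat_lit 2) (nat_lit 0) (nat_lit 1) true (nat_lit 4) true (nat_lit 9) false (nat_lit 1) true (nat_lit 8) true (nat_lit 10) (.e false (nat_lit 36) (nat_lit 88) (nat_lit 2) (nat_lit 8) (.e true (nat_lit 36) (nat_lit 89) (nat_lit 2) (nat_lit 8) (.e false (nat_lit 72) (nat_lit 90) (nat_lit 2) (nat_lit 8) (.e true (nat_lit 108) (nat_lit 91) (nat_lit 2) (nat_lit 8) (.e true (nat_lit 72) (nat_lit 93) (nat_lit 2) (nat_lit 8) (.e true (nat_lit 36) (nat_lit 97) (nat_lit 2) (nat_lit 8) (.e true (nat_lit 36) (nat_lit 98) (nat_lit 2) (nat_lit 8) (.e true (nat_lit 36) (nat_lit 99) (nat_lit 2) (nat_lit 8) (.e false (nat_lit 36) (nat_lit 45) (nat_lit 7) (nat_lit 4) (.e false (nat_lit 36) (nat_lit 118) (nat_lit 0) (nat_lit 10) (.e false (nat_lit 36) (nat_lit 119) (nat_lit 0) (nat_lit 10) (.e true (nat_lit 36) (nat_lit 44) (nat_lit 7) (nat_lit 4) (.e true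 (nat_lit 36) (nat_lit 46) (nat_lit 7) (nat_lit 4) (.e true (nat_lit 36) (nat_lit 37) (nat_lit 8) (nat_lit 3) (.e true (nat_lit 36) (nat_lit 39) (nat_lit 8) (nat_lit 3) (.e false (nat_lit 144) (nat_lit 43) (nat_lit 7) (nat_lit 4) (.e false (nat_lit 108) (nat_lit 107) (nat_lit 1) (nat_lit 9) (.e true (nat_lit 72) (nat_lit 110) (nat_lit 1) (nat_lit 9) (.e false (nat_lit 108) (nat_lit 111) (nat_lit 1) (nat_lit 9) (.e true (nat_lit 72) (nat_lit 115) (nat_lit 1) (nat_lit 9) (.e true (nat_lit 36) (nat_lit 122) (nat_lit 0) (nat_lit 10) (.e false (nat_lit 36) (nat_lit 108) (nat_lit 1) (nat_lit 9) (.e true (nat_lit 36) (nat_lit 109) (nat_lit 1) (nat_lit 9) (.e true (nat_lit 36) (nat_lit 117) (nat_lit 0) (nat_lit 10) .nil)))))))))))))))))))))))))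

noncomputable def dF6aa_i34 : IL := (.s false (nat_lit 31104) (nat_lit 24) (nat_lit 0) (nat_lit 1) (nat_lit 1) true (nat_lit 7) true (nat_lit 9) false (nat_lit 2) true (nat_lit 10) true (nat_lit 9) (.i false (nat_lit 4) (nat_lit 2) (.c (nat_lit 2) (nat_lit 1) (.c (nat_lit 2) (nat_lit 1) (.c (nat_lit 1) (nat_lit 16) (.c (nat_lit 0) (nat_lit 256) (.c (nat_lit 1) (nat_lit 16) (.c (nat_lit 2) (nat_lit 1) .nil)))))) (.i true (nat_lit 7) (nat_lit 2) (.c (nat_lit 2) (nat_lit 1) (.c (nat_lit 2) (nat_lit 1) (.c (nat_lit 1) (nat_lit 16) (.c (nat_lit 0) (nat_lit 256) (.c (nat_lit 2) (nat_lit 1) (.c (nat_lit 1) (nat_lit 16) .nil)))))) (.e true (nat_lit 1119744) (nat_lit 88) (nat_lit 2) (nat_lit 8) (.e true (nat_lit 2239488) (nat_lit 91) (nat_lit 2) (nat_lit 8) (.e true (nat_lit 5038848) (nat_lit 93) (nat_lit 2) (nat_lit 8) (.e true (nat_lit 2799360) (nat_lit 98) (nat_lit 2) (nat_lit 8) (.e false (nat_lit 2799360) (nat_lit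 90) (nat_lit 2) (nat_lit 8) (.e false (nat_lit 6158592) (nat_lit 45) (nat_lit 7) (nat_lit 4) (.e false (nat_lit 5038848) (nat_lit 43) (nat_lit 7) (nat_lit 4) (.e false (nat_lit 1119744) (nat_lit 44) (nat_lit 7) (nat_lit 4) (.e true (nat_lit 1679616) (nat_lit 48) (nat_lit 7) (nat_lit 4) (.e false (nat_lit 2799360) (nat_lit 118) (nat_lit 0) (nat_lit 10) (.e true (nat_lit 1679616) (nat_lit 119) (nat_lit 0) (nat_lit 10) (.e true (nat_lit 1679616) (nat_lit 97) (nat_lit 2) (nat_lit 8) (.e true (nat_lit 559872) (nat_lit 46) (nat_lit 7) (nat_lit 4) (.e false (nat_lit 9517824) (nat_lit 107) (nat_lit 1) (nat_lit 9) (.e true (nat_lit 1679616) (nat_lit 109) (nat_lit 1) (nat_lit 9) (.e true (nat_lit 5598720) (nat_lit 110) (nat_lit 1) (nat_lit 9) (.e false (nat_lit 10637568) (nat_lit 111) (nat_lit 1) (nat_lit 9) (.e true (nat_lit 1679616) (nat_lit 39) (nat_lit 8) (nat_lit 3) (.e true (nat_lit 1119744) (nat_lit 122) (nat_lit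 0) (nat_lit 10) (.e false (nat_lit 4478976) (nat_lit 108) (nat_lit 1) (nat_lit 9) (.e true (nat_lit 1119744) (nat_lit 115) (nat_lit 1) (nat_lit 9) (.e false (nat_lit 1119744) (nat_lit 117) (nat_lit 0) (nat_lit 10) .nil)))))))))))))))))))))))))

noncomputable def dF6aa_i35 : IL := (.s true (nat_lit 163296) (nat_lit 7) (nat_lit 1) (nat_lit 6) (nat_lit 2) true (nat_lit 4) true (nat_lit 8) true (nat_lit 4) true (nat_lit 9) true (nat_lit 5) (.s true (nat_lit 186624) (nat_lit 7) (nat_lit 2) (nat_lit 2) (nat_lit 4) true (nat_lit 1) true (nat_lit 7) true (nat_lit 4) true (nat_lit 8) true (nat_lit 8) (.s false (nat_lit 38880) (nat_lit 7) (nat_lit 2) (nat_lit 6) (nat_lit 1) true (nat_lit 4) true (nat_lit 9) true (nat_lit 4) true (nat_lit 8) true (nat_lit 5) (.s true (nat_lit 248832) (nat_lit 7) (nat_lit 6) (nat_lit 2) (nat_lit 1) true (nat_lit 1) true (nat_lit 9) true (nat_lit 4) true (nat_lit 5) true (nat_lit 8) (.s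 false (nat_lit 19440) (nat_lit 8) (nat_lit 0) (nat_lit 1) (nat_lit 7) true (nat_lit 1) true (nat_lit 4) true (nat_lit 3) true (nat_lit 10) true (nat_lit 9) (.s false (nat_lit 11664) (nat_lit 8) (nat_lit 0) (nat_lit 7) (nat_lit 1) true (nat_lit 7) true (nat_lit 9) true (nat_lit 3) true (nat_lit 10) true (nat_lit 4) (.s true (nat_lit 46656) (nat_lit 8) (nat_lit 1) (nat_lit 4) (nat_lit 2) true (nat_lit 4) true (nat_lit 8) true (nat_lit 3) true (nat_lit 9) true (nat_lit 7) (.s false (nat_lit 31104) (nat_lit 8) (nat_lit 1) (nat_lit 6) (nat_lit 1) true (nat_lit 6) true (nat_lit 9) true (nat_lit 3) true (nat_lit 9) true (nat_lit 5) (.s false (nat_lit 15552) (nat_lit 8) (nat_lit 2) (nat_lit 4) (nat_lit 1) true (nat_lit 4) true (nat_lit 9) true (nat_lit 3) true (nat_lit 8) true (nat_lit 7) (.s false (nat_lit 31104) (nat_lit 8) (nat_lit 2) (nat_lit 5) (nat_lit 0) true (nat_lit 5) true (nat_lit 10) true (nat_lit 3) true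 (nat_lit 8) true (nat_lit 6) (.s false (nat_lit 54432) (nat_lit 8) (nat_lit 7) (nat_lit 0) (nat_lit 1) true (nat_lit 0) true (nat_lit 9) true (nat_lit 3) true (nat_lit 4) true (nat_lit 10) (.s false (nat_lit 3888) (nat_lit 8) (nat_lit 7) (nat_lit 1) (nat_lit 0) true (nat_lit 1) true (nat_lit 10) true (nat_lit 3) true (nat_lit 4) true (nat_lit 9) (.s true (nat_lit 31104) (nat_lit 11) (nat_lit 2) (nat_lit 2) (nat_lit 2) true (nat_lit 3) true (nat_lit 8) true (nat_lit 2) true (nat_lit 8) true (nat_lit 8) (.s false (nat_lit 171072) (nat_lit 15) (nat_lit 1) (nat_lit 2) (nat_lit 2) true (nat_lit 4) true (nat_lit 8) true (nat_lit 1) true (nat_lit 9) true (nat_lit 8) (.s false (nat_lit 62208) (nat_lit 16) (nat_lit 1) (nat_lit 2) (nat_lit 2) true (nat_lit 4) true (nat_lit 8) true (nat_lit 1) true (nat_lit 9) true (nat_lit 8) (.s false (nat_lit 15552) (nat_lit 15) (nat_lit 2) (nat_lit 1) (nat_lit 2) true (nat_lit 3)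 true (nat_lit 8) true (nat_lit 1) true (nat_lit 8) true (nat_lit 9) (.s false (nat_lit 15552) (nat_lit 16) (nat_lit 2) (nat_lit 1) (nat_lit 2) true (nat_lit 3) true (nat_lit 8) true (nat_lit 1) true (nat_lit 8) true (nat_lit 9) (.s true (nat_lit 23328) (nat_lit 17) (nat_lit 2) (nat_lit 1) (nat_lit 2) true (nat_lit 3) true (nat_lit 8) true (nat_lit 1) true (nat_lit 8) true (nat_lit 9) (.s true (nat_lit 31104) (nat_lit 18) (nat_lit 2) (nat_lit 0) (nat_lit 2) true (nat_lit 3) true (nat_lit 8) true (nat_lit 0) true (nat_lit 8) true (nat_lit 10) (.s true (nat_lit 31104) (nat_lit 21) (nat_lit 1) (nat_lit 2) (nat_lit 1) true (nat_lit 6) true (nat_lit 9) false (nat_lit 0) true (nat_lit 9) true (nat_lit 8) (.s false (nat_lit 46656) (nat_lit 20) (nat_lit 2) (nat_lit 1) (nat_lit 1) true (nat_lit 4) true (nat_lit 9) false (nat_lit 0) true (nat_lit 8) true (nat_lit 9) (.s false (nat_lit 77760) (nat_lit 22) (nat_lit 0) (nat_lit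 1) (nat_lit 2) true (nat_lit 5) true (nat_lit 8) false (nat_lit 1) true (nat_lit 10) true (nat_lit 9) (.s false (nat_lit 217728) (nat_lit 22) (nat_lit 0) (nat_lit 2) (nat_lit 1) true (nat_lit 7) true (nat_lit 9) false (nat_lit 1) true (nat_lit 10) true (nat_lit 8) (.s true (nat_lit 31104) (nat_lit 22) (nat_lit 1) (nat_lit 0) (nat_lit 2) true (nat_lit 4) true (nat_lit 8) false (nat_lit 1) true (nat_lit 9) true (nat_lit 10) (.s true (nat_lit 23328) (nat_lit 22) (nat_lit 1) (nat_lit 2) (nat_lit 0) true (nat_lit 7) true (nat_lit 10) false (nat_lit 1) true (nat_lit 9) true (nat_lit 8) dF6aa_i34)))))))))))))))))))))))))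

noncomputable def dF6aa_i36 : IL := (.e true (nat_lit 746496) (nat_lit 89) (nat_lit 2) (nat_lit 8) (.e true (nat_lit 3732480) (nat_lit 91) (nat_lit 2) (nat_lit 8) (.e true (nat_lit 3545856) (nat_lit 93) (nat_lit 2) (nat_lit 8) (.e true (nat_lit 1306368) (nat_lit 98) (nat_lit 2) (nat_lit 8) (.e true (nat_lit 746496) (nat_lit 99) (nat_lit 2) (nat_lit 8) (.e false (nat_lit 3545856) (nat_lit 90) (nat_lit 2) (nat_lit 8) (.e false (nat_lit 1679616) (nat_lit 45) (nat_lit 7) (nat_lit 4) (.e false (nat_lit 7278336) (nat_lit 43) (nat_lit 7) (nat_lit 4) (.e true (nat_lit 1866240) (nat_lit 44) (nat_lit 7) (nat_lit 4) (.e true (nat_lit 4665600) (nat_lit 48) (nat_lit 7) (nat_lit 4) (.e false (nat_lit 3545856) (nat_lit 118) (nat_lit 0) (nat_lit 10) (.e false (nat_lit 2052864) (nat_lit 119) (nat_lit 0) (nat_lit 10) (.e true (nat_lit 1679616) (nat_lit 97) (nat_lit 2) (nat_lit 8) (.e false (nat_lit 933120) (nat_lit 46) (nat_lit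 7) (nat_lit 4) (.e false (nat_lit 2052864) (nat_lit 107) (nat_lit 1) (nat_lit 9) (.e true (nat_lit 3172608) (nat_lit 109) (nat_lit 1) (nat_lit 9) (.e false (nat_lit 4105728) (nat_lit 106) (nat_lit 1) (nat_lit 9) (.e false (nat_lit 373248) (nat_lit 110) (nat_lit 1) (nat_lit 9) (.e false (nat_lit 1679616) (nat_lit 111) (nat_lit 1) (nat_lit 9) (.e true (nat_lit 2985984) (nat_lit 37) (nat_lit 8) (nat_lit 3) (.e true (nat_lit 3172608) (nat_lit 39) (nat_lit 8) (nat_lit 3) (.e true (nat_lit 1866240) (nat_lit 122) (nat_lit 0) (nat_lit 10) (.e true (nat_lit 1492992) (nat_lit 108) (nat_lit 1) (nat_lit 9) (.e true (nat_lit 4105728) (nat_lit 115) (nat_lit 1) (nat_lit 9) (.e true (nat_lit 1119744) (nat_lit 117) (nat_lit 0) (nat_lit 10) .nil)))))))))))))))))))))))))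

noncomputable def dF6aa_i37 : IL := (.s false (nat_lit 16848) (nat_lit 8) (nat_lit 0) (nat_lit 7) (nat_lit 1) true (nat_lit 7) true (nat_lit 9) true (nat_lit 3) true (nat_lit 10) true (nat_lit 4) (.s true (nat_lit 88128) (nat_lit 8) (nat_lit 1) (nat_lit 4) (nat_lit 2) true (nat_lit 4) true (nat_lit 8) true (nat_lit 3) true (nat_lit 9) true (nat_lit 7) (.s true (nat_lit 10368) (nat_lit 8) (nat_lit 1) (nat_lit 6) (nat_lit 1) true (nat_lit 6) true (nat_lit 9) true (nat_lit 3) true (nat_lit 9) true (nat_lit 5) (.s true (nat_lit 5184) (nat_lit 8) (nat_lit 2) (nat_lit 4) (nat_lit 1) true (nat_lit 4) true (nat_lit 9) true (nat_lit 3) true (nat_lit 8) true (nat_lit 7) (.s false (nat_lit 93312) (nat_lit 8) (nat_lit 2) (nat_lit 5) (nat_lit 0) true (nat_lit 5) true (nat_lit 10) true (nat_lit 3) true (nat_lit 8) true (nat_lit 6) (.s false (nat_lit 85536) (nat_lit 8) (nat_lit 7) (nat_lit 0) (nat_lit 1) true (nat_lit 0)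 true (nat_lit 9) true (nat_lit 3) true (nat_lit 4) true (nat_lit 10) (.s true (nat_lit 1296) (nat_lit 8) (nat_lit 7) (nat_lit 1) (nat_lit 0) true (nat_lit 1) true (nat_lit 10) true (nat_lit 3) true (nat_lit 4) true (nat_lit 9) (.s true (nat_lit 93312) (nat_lit 11) (nat_lit 2) (nat_lit 2) (nat_lit 2) true (nat_lit 3) true (nat_lit 8) true (nat_lit 2) true (nat_lit 8) true (nat_lit 8) (.s false (nat_lit 171072) (nat_lit 15) (nat_lit 1) (nat_lit 2) (nat_lit 2) true (nat_lit 4) true (nat_lit 8) true (nat_lit 1) true (nat_lit 9) true (nat_lit 8) (.s true (nat_lit 103680) (nat_lit 16) (nat_lit 1) (nat_lit 2) (nat_lit 2) true (nat_lit 4) true (nat_lit 8) true (nat_lit 1) true (nat_lit 9) true (nat_lit 8) (.s true (nat_lit 5184) (nat_lit 15) (nat_lit 2) (nat_lit 1) (nat_lit 2) true (nat_lit 3) true (nat_lit 8) true (nat_lit 1) true (nat_lit 8) true (nat_lit 9) (.s true (nat_lit 88128) (nat_lit 16) (nat_lit 2) (nat_lit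 1) (nat_lit 2) true (nat_lit 3) true (nat_lit 8) true (nat_lit 1) true (nat_lit 8) true (nat_lit 9) (.s true (nat_lit 75168) (nat_lit 17) (nat_lit 2) (nat_lit 1) (nat_lit 2) true (nat_lit 3) true (nat_lit 8) true (nat_lit 1) true (nat_lit 8) true (nat_lit 9) (.s false (nat_lit 20736) (nat_lit 16) (nat_lit 2) (nat_lit 2) (nat_lit 1) true (nat_lit 4) true (nat_lit 9) true (nat_lit 1) true (nat_lit 8) true (nat_lit 8) (.s false (nat_lit 10368) (nat_lit 18) (nat_lit 2) (nat_lit 0) (nat_lit 2) true (nat_lit 3) true (nat_lit 8) true (nat_lit 0) true (nat_lit 8) true (nat_lit 10) (.s true (nat_lit 93312) (nat_lit 21) (nat_lit 1) (nat_lit 2) (nat_lit 1) true (nat_lit 6) true (nat_lit 9) false (nat_lit 0) true (nat_lit 9) true (nat_lit 8) (.s true (nat_lit 15552) (nat_lit 20) (nat_lit 2) (nat_lit 1) (nat_lit 1) true (nat_lit 4) true (nat_lit 9) false (nat_lit 0) true (nat_lit 8) true (nat_lit 9) (.s true (nat_lit 5184)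 (nat_lit 22) (nat_lit 0) (nat_lit 1) (nat_lit 2) true (nat_lit 5) true (nat_lit 8) false (nat_lit 1) true (nat_lit 10) true (nat_lit 9) (.s false (nat_lit 72576) (nat_lit 22) (nat_lit 0) (nat_lit 2) (nat_lit 1) true (nat_lit 7) true (nat_lit 9) false (nat_lit 1) true (nat_lit 10) true (nat_lit 8) (.s true (nat_lit 51840) (nat_lit 22) (nat_lit 1) (nat_lit 0) (nat_lit 2) true (nat_lit 4) true (nat_lit 8) false (nat_lit 1) true (nat_lit 9) true (nat_lit 10) (.s false (nat_lit 69984) (nat_lit 22) (nat_lit 1) (nat_lit 2) (nat_lit 0) true (nat_lit 7) true (nat_lit 10) false (nat_lit 1) true (nat_lit 9) true (nat_lit 8) (.s true (nat_lit 20736) (nat_lit 23) (nat_lit 2) (nat_lit 0) (nat_lit 1) true (nat_lit 4) true (nat_lit 9) false (nat_lit 1) true (nat_lit 8) true (nat_lit 10) (.s false (nat_lit 93312) (nat_lit 24) (nat_lit 0) (nat_lit 1) (nat_lit 1) true (nat_lit 7) true (nat_lit 9) false (nat_lit 2) true (nat_lit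 10) true (nat_lit 9) (.i false (nat_lit 1) (nat_lit 2) (.c (nat_lit 2) (nat_lit 1) (.c (nat_lit 2) (nat_lit 1) (.c (nat_lit 1) (nat_lit 16) (.c (nat_lit 0) (nat_lit 256) (.c (nat_lit 2) (nat_lit 1) (.c (nat_lit 1) (nat_lit 16) .nil)))))) (.e true (nat_lit 373248) (nat_lit 88) (nat_lit 2) (nat_lit 8) dF6aa_i36)))))))))))))))))))))))))

noncomputable def dF6aa_i38 : IL := (.s false (nat_lit 1) (nat_lit 8) (nat_lit 7) (nat_lit 0) (nat_lit 1) true (nat_lit 0) true (nat_lit 9) true (nat_lit 3) true (nat_lit 4) true (nat_lit 10) (.s true (nat_lit 1) (nat_lit 11) (nat_lit 2) (nat_lit 2) (nat_lit 2) true (nat_lit 3) true (nat_lit 8) true (nat_lit 2) true (nat_lit 8) true (nat_lit 8) (.s false (nat_lit 2) (nat_lit 15) (nat_lit 1) (nat_lit 2) (nat_lit 2) true (nat_lit 4) true (nat_lit 8) true (nat_lit 1) true (nat_lit 9) true (nat_lit 8) (.s true (nat_lit 1) (nat_lit 16) (nat_lit 1) (nat_lit 2) (nat_lit 2) true (nat_lit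 4) true (nat_lit 8) true (nat_lit 1) true (nat_lit 9) true (nat_lit 8) (.s true (nat_lit 1) (nat_lit 16) (nat_lit 2) (nat_lit 1) (nat_lit 2) true (nat_lit 3) true (nat_lit 8) true (nat_lit 1) true (nat_lit 8) true (nat_lit 9) (.s true (nat_lit 1) (nat_lit 17) (nat_lit 2) (nat_lit 1) (nat_lit 2) true (nat_lit 3) true (nat_lit 8) true (nat_lit 1) true (nat_lit 8) true (nat_lit 9) (.s true (nat_lit 1) (nat_lit 21) (nat_lit 1) (nat_lit 2) (nat_lit 1) true (nat_lit 6) true (nat_lit 9) false (nat_lit 0) true (nat_lit 9) true (nat_lit 8) (.s false (nat_lit 2) (nat_lit 22) (nat_lit 0) (nat_lit 2) (nat_lit 1) true (nat_lit 7) true (nat_lit 9) false (nat_lit 1) true (nat_lit 10) true (nat_lit 8) (.s false (nat_lit 1) (nat_lit 24) (nat_lit 0) (nat_lit 1) (nat_lit 1) true (nat_lit 7) true (nat_lit 9) false (nat_lit 2) true (nat_lit 10) true (nat_lit 9) (.e false (nat_lit 72) (nat_lit 45) (nat_lit 7) (nat_lit 4) (.e false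 (nat_lit 36) (nat_lit 43) (nat_lit 7) (nat_lit 4) (.e false (nat_lit 36) (nat_lit 118) (nat_lit 0) (nat_lit 10) (.e true (nat_lit 36) (nat_lit 119) (nat_lit 0) (nat_lit 10) (.e false (nat_lit 36) (nat_lit 90) (nat_lit 2) (nat_lit 8) (.e true (nat_lit 36) (nat_lit 91) (nat_lit 2) (nat_lit 8) (.e true (nat_lit 72) (nat_lit 93) (nat_lit 2) (nat_lit 8) (.e false (nat_lit 72) (nat_lit 107) (nat_lit 1) (nat_lit 9) (.e true (nat_lit 36) (nat_lit 109) (nat_lit 1) (nat_lit 9) (.e true (nat_lit 36) (nat_lit 115) (nat_lit 1) (nat_lit 9) (.e true (nat_lit 36) (nat_lit 122) (nat_lit 0) (nat_lit 10) (.e true (nat_lit 36) (nat_lit 39) (nat_lit 8) (nat_lit 3) (.e true (nat_lit 36) (nat_lit 96) (nat_lit 2) (nat_lit 8) (.e false (nat_lit 108) (nat_lit 111) (nat_lit 1) (nat_lit 9) (.e true (nat_lit 36) (nat_lit 110) (nat_lit 1) (nat_lit 9) (.e true (nat_lit 36) (nat_lit 37) (nat_lit 8) (nat_lit 3) .nil)))))))))))))))))))))))))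

noncomputable def dF6aa_i39 : IL := (.s false (nat_lit 3) (nat_lit 7) (nat_lit 6) (nat_lit 2) (nat_lit 1) true (nat_lit 1) true (nat_lit 9) true (nat_lit 4) true (nat_lit 5) true (nat_lit 8) (.s true (nat_lit 1) (nat_lit 8) (nat_lit 1) (nat_lit 6) (nat_lit 1) true (nat_lit 6) true (nat_lit 9) true (nat_lit 3) true (nat_lit 9) true (nat_lit 5) (.s true (nat_lit 2) (nat_lit 15) (nat_lit 1) (nat_lit 2) (nat_lit 2) true (nat_lit 4) true (nat_lit 8) true (nat_lit 1) true (nat_lit 9) true (nat_lit 8) (.s false (nat_lit 2) (nat_lit 16) (nat_lit 1) (nat_lit 2) (nat_lit 2) true (nat_lit 4) true (nat_lit 8) true (nat_lit 1) true (nat_lit 9) true (nat_lit 8) (.s true (nat_lit 1) (nat_lit 16) (nat_lit 2) (nat_lit 1) (nat_lit 2) true (nat_lit 3) true (nat_lit 8) true (nat_lit 1) true (nat_lit 8) true (nat_lit 9) (.s false (nat_lit 1) (nat_lit 18) (nat_lit 2) (nat_lit 0) (nat_lit 2) true (nat_lit 3) true (nat_lit 8) true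 (nat_lit 0) true (nat_lit 8) true (nat_lit 10) (.s true (nat_lit 4) (nat_lit 22) (nat_lit 0) (nat_lit 2) (nat_lit 1) true (nat_lit 7) true (nat_lit 9) false (nat_lit 1) true (nat_lit 10) true (nat_lit 8) (.s false (nat_lit 2) (nat_lit 22) (nat_lit 1) (nat_lit 2) (nat_lit 0) true (nat_lit 7) true (nat_lit 10) false (nat_lit 1) true (nat_lit 9) true (nat_lit 8) (.e false (nat_lit 72) (nat_lit 91) (nat_lit 2) (nat_lit 8) (.e false (nat_lit 72) (nat_lit 93) (nat_lit 2) (nat_lit 8) (.e true (nat_lit 72) (nat_lit 90) (nat_lit 2) (nat_lit 8) (.e true (nat_lit 72) (nat_lit 45) (nat_lit 7) (nat_lit 4) (.e true (nat_lit 72) (nat_lit 43) (nat_lit 7) (nat_lit 4) (.e false (nat_lit 108) (nat_lit 44) (nat_lit 7) (nat_lit 4) (.e false (nat_lit 72) (nat_lit 119) (nat_lit 0) (nat_lit 10) (.e false (nat_lit 72) (nat_lit 97) (nat_lit 2) (nat_lit 8) (.e true (nat_lit 180) (nat_lit 107) (nat_lit 1) (nat_lit 9) (.e false (nat_lit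 36) (nat_lit 109) (nat_lit 1) (nat_lit 9) (.e false (nat_lit 180) (nat_lit 106) (nat_lit 1) (nat_lit 9) (.e false (nat_lit 180) (nat_lit 110) (nat_lit 1) (nat_lit 9) (.e true (nat_lit 324) (nat_lit 111) (nat_lit 1) (nat_lit 9) (.e false (nat_lit 72) (nat_lit 115) (nat_lit 1) (nat_lit 9) (.e false (nat_lit 36) (nat_lit 39) (nat_lit 8) (nat_lit 3) (.e false (nat_lit 36) (nat_lit 96) (nat_lit 2) (nat_lit 8) (.e true (nat_lit 36) (nat_lit 117) (nat_lit 0) (nat_lit 10) .nil)))))))))))))))))))))))))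

noncomputable def dF6aa_i40 : IL := (.s true (nat_lit 1) (nat_lit 22) (nat_lit 1) (nat_lit 0) (nat_lit 2) true (nat_lit 4) true (nat_lit 8) false (nat_lit 1) true (nat_lit 9) true (nat_lit 10) (.s false (nat_lit 1) (nat_lit 22) (nat_lit 1) (nat_lit 2) (nat_lit 0) true (nat_lit 7) true (nat_lit 10) false (nat_lit 1) true (nat_lit 9) true (nat_lit 8) (.s true (nat_lit 1) (nat_lit 23) (nat_lit 2) (nat_lit 0) (nat_lit 1) true (nat_lit 4) true (nat_lit 9) false (nat_lit 1) true (nat_lit 8) true (nat_lit 10) (.e true (nat_lit 72) (nat_lit 45) (nat_lit 7) (nat_lit 4) (.e false (nat_lit 144) (nat_lit 43) (nat_lit 7) (nat_lit 4) (.e true (nat_lit 36) (nat_lit 44) (nat_lit 7) (nat_lit 4) (.e false (nat_lit 108) (nat_lit 47) (nat_lit 7) (nat_lit 4) (.e true (nat_lit 144) (nat_lit 48) (nat_lit 7) (nat_lit 4) (.e false (nat_lit 36) (nat_lit 118) (nat_lit 0) (nat_lit 10) (.e false (nat_lit 108) (nat_lit 119) (nat_lit 0)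 (nat_lit 10) (.e false (nat_lit 36) (nat_lit 90) (nat_lit 2) (nat_lit 8) (.e true (nat_lit 36) (nat_lit 91) (nat_lit 2) (nat_lit 8) (.e true (nat_lit 36) (nat_lit 97) (nat_lit 2) (nat_lit 8) (.e true (nat_lit 36) (nat_lit 98) (nat_lit 2) (nat_lit 8) (.e false (nat_lit 72) (nat_lit 106) (nat_lit 1) (nat_lit 9) (.e true (nat_lit 72) (nat_lit 107) (nat_lit 1) (nat_lit 9) (.e false (nat_lit 36) (nat_lit 110) (nat_lit 1) (nat_lit 9) (.e true (nat_lit 108) (nat_lit 111) (nat_lit 1) (nat_lit 9) (.e false (nat_lit 36) (nat_lit 93) (nat_lit 2) (nat_lit 8) (.e true (nat_lit 36) (nat_lit 108) (nat_lit 1) (nat_lit 9) (.e false (nat_lit 36) (nat_lit 109) (nat_lit 1) (nat_lit 9) (.e false (nat_lit 36) (nat_lit 113) (nat_lit 1) (nat_lit 9) (.e true (nat_lit 36) (nat_lit 115) (nat_lit 1) (nat_lit 9) (.e false (nat_lit 36) (nat_lit 122) (nat_lit 0) (nat_lit 10) (.e true (nat_lit 36) (nat_lit 117) (nat_lit 0) (nat_lit 10) .nil)))))))))))))))))))))))))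

noncomputable def dF6aa_i41 : IL := (.s true (nat_lit 1) (nat_lit 8) (nat_lit 0) (nat_lit 7) (nat_lit 1) true (nat_lit 7) true (nat_lit 9) true (nat_lit 3) true (nat_lit 10) true (nat_lit 4) (.s false (nat_lit 1) (nat_lit 8) (nat_lit 1) (nat_lit 4) (nat_lit 2) true (nat_lit 4) true (nat_lit 8) true (nat_lit 3) true (nat_lit 9) true (nat_lit 7) (.s false (nat_lit 1) (nat_lit 11) (nat_lit 2) (nat_lit 2) (nat_lit 2) true (nat_lit 3) true (nat_lit 8) true (nat_lit 2) true (nat_lit 8) true (nat_lit 8) (.s true (nat_lit 1) (nat_lit 15) (nat_lit 1) (nat_lit 2) (nat_lit 2) true (nat_lit 4) true (nat_lit 8) true (nat_lit 1) true (nat_lit 9) true (nat_lit 8) (.s true (nat_lit 2) (nat_lit 22) (nat_lit 0) (nat_lit 2) (nat_lit 1) true (nat_lit 7) true (nat_lit 9) false (nat_lit 1) true (nat_lit 10) true (nat_lit 8) (.s true (nat_lit 1) (nat_lit 24) (nat_lit 0) (nat_lit 1) (nat_lit 1) true (nat_lit 7) true (nat_lit 9) false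 (nat_lit 2) true (nat_lit 10) true (nat_lit 9) (.e false (nat_lit 36) (nat_lit 88) (nat_lit 2) (nat_lit 8) (.e true (nat_lit 36) (nat_lit 89) (nat_lit 2) (nat_lit 8) (.e false (nat_lit 36) (nat_lit 90) (nat_lit 2) (nat_lit 8) (.e true (nat_lit 36) (nat_lit 91) (nat_lit 2) (nat_lit 8) (.e false (nat_lit 72) (nat_lit 93) (nat_lit 2) (nat_lit 8) (.e false (nat_lit 36) (nat_lit 99) (nat_lit 2) (nat_lit 8) (.e true (nat_lit 72) (nat_lit 45) (nat_lit 7) (nat_lit 4) (.e false (nat_lit 36) (nat_lit 118) (nat_lit 0) (nat_lit 10) (.e false (nat_lit 36) (nat_lit 119) (nat_lit 0) (nat_lit 10) (.e true (nat_lit 36) (nat_lit 107) (nat_lit 1) (nat_lit 9) (.e false (nat_lit 36) (nat_lit 110) (nat_lit 1) (nat_lit 9) (.e true (nat_lit 108) (nat_lit 111) (nat_lit 1) (nat_lit 9) (.e false (nat_lit 36) (nat_lit 115) (nat_lit 1) (nat_lit 9) (.e false (nat_lit 36) (nat_lit 38) (nat_lit 8) (nat_lit 3) (.e false (nat_lit 36) (nat_lit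 47) (nat_lit 7) (nat_lit 4) (.e true (nat_lit 36) (nat_lit 117) (nat_lit 0) (nat_lit 10) (.e false (nat_lit 36) (nat_lit 108) (nat_lit 1) (nat_lit 9) (.e false (nat_lit 36) (nat_lit 109) (nat_lit 1) (nat_lit 9) (.e true (nat_lit 36) (nat_lit 112) (nat_lit 1) (nat_lit 9) .nil)))))))))))))))))))))))))

noncomputable def dF6aa_i42 : IL := (.s false (nat_lit 1) (nat_lit 8) (nat_lit 0) (nat_lit 1) (nat_lit 7) true (nat_lit 1) true (nat_lit 4) true (nat_lit 3) true (nat_lit 10) true (nat_lit 9) (.s true (nat_lit 1) (nat_lit 8) (nat_lit 7) (nat_lit 1) (nat_lit 0) true (nat_lit 1) true (nat_lit 10) true (nat_lit 3) true (nat_lit 4) true (nat_lit 9) (.s false (nat_lit 1) (nat_lit 15) (nat_lit 1) (nat_lit 2) (nat_lit 2) true (nat_lit 4) true (nat_lit 8) true (nat_lit 1) true (nat_lit 9) true (nat_lit 8) (.s true (nat_lit 1) (nat_lit 15) (nat_lit 2) (nat_lit 1) (nat_lit 2) true (nat_lit 3) true (nat_lit 8) true (nat_lit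 1) true (nat_lit 8) true (nat_lit 9) (.s false (nat_lit 1) (nat_lit 17) (nat_lit 2) (nat_lit 1) (nat_lit 2) true (nat_lit 3) true (nat_lit 8) true (nat_lit 1) true (nat_lit 8) true (nat_lit 9) (.s true (nat_lit 1) (nat_lit 16) (nat_lit 2) (nat_lit 2) (nat_lit 1) true (nat_lit 4) true (nat_lit 9) true (nat_lit 1) true (nat_lit 8) true (nat_lit 8) (.s false (nat_lit 1) (nat_lit 23) (nat_lit 2) (nat_lit 0) (nat_lit 1) true (nat_lit 4) true (nat_lit 9) false (nat_lit 1) true (nat_lit 8) true (nat_lit 10) (.e false (nat_lit 36) (nat_lit 47) (nat_lit 7) (nat_lit 4) (.e true (nat_lit 72) (nat_lit 119) (nat_lit 0) (nat_lit 10) (.e false (nat_lit 36) (nat_lit 87) (nat_lit 2) (nat_lit 8) (.e true (nat_lit 36) (nat_lit 90) (nat_lit 2) (nat_lit 8) (.e true (nat_lit 36) (nat_lit 91) (nat_lit 2) (nat_lit 8) (.e false (nat_lit 36) (nat_lit 97) (nat_lit 2) (nat_lit 8) (.e false (nat_lit 36) (nat_lit 98) (nat_lit 2) (nat_lit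 8) (.e false (nat_lit 36) (nat_lit 99) (nat_lit 2) (nat_lit 8) (.e true (nat_lit 36) (nat_lit 37) (nat_lit 8) (nat_lit 3) (.e false (nat_lit 36) (nat_lit 38) (nat_lit 8) (nat_lit 3) (.e false (nat_lit 36) (nat_lit 122) (nat_lit 0) (nat_lit 10) (.e false (nat_lit 36) (nat_lit 109) (nat_lit 1) (nat_lit 9) (.e false (nat_lit 36) (nat_lit 111) (nat_lit 1) (nat_lit 9) (.e true (nat_lit 36) (nat_lit 112) (nat_lit 1) (nat_lit 9) (.e false (nat_lit 36) (nat_lit 113) (nat_lit 1) (nat_lit 9) (.e true (nat_lit 36) (nat_lit 106) (nat_lit 1) (nat_lit 9) (.e true (nat_lit 36) (nat_lit 110) (nat_lit 1) (nat_lit 9) (.e false (nat_lit 36) (nat_lit 117) (nat_lit 0) (nat_lit 10) .nil)))))))))))))))))))))))))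

noncomputable def dF6aa_t0 : Tr := (.nd (.nd (.nd (.nd (.nd (.nd (.nd .leaf (nat_lit 0) (nat_lit 0) (.p (nat_lit 3) (nat_lit 36) .z) .df .leaf) (nat_lit 1024) (nat_lit 1) (.p (nat_lit 4) (nat_lit 36) .z) .df (.nd .leaf (nat_lit 1025) (nat_lit 2) (.p (nat_lit 5) (nat_lit 36) .z) .df .leaf)) (nat_lit 2048) (nat_lit 3) (.p (nat_lit 6) (nat_lit 36) .z) .df (.nd (.nd .leaf (nat_lit 2049) (nat_lit 4) (.p (nat_lit 7) (nat_lit 36) .z) .df .leaf) (nat_lit 2050) (nat_lit 5) (.p (nat_lit 8) (nat_lit 36) .z) .df .leaf)) (nat_lit 3073) (nat_lit 6) (.p (nat_lit 9) (nat_lit 36) .z) .df (.nd (.nd (.nd .leaf (nat_lit 3074) (nat_lit 10) (.p (nat_lit 13) (nat_lit 36) .z) .df .leaf) (nat_lit 4096) (nat_lit 7) (.p (nat_lit 10) (nat_lit 36) .z) .df .leaf) (nat_lit 4097) (nat_lit 8) (.p (nat_lit 11) (nat_lit 36) .z) .df (.nd (.nd .leaf (nat_lit 4098) (nat_lit 12) (.p (nat_lit 15) (nat_lit 36) .z) .df .leaf) (nat_lit 5120) (nat_lit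 9) (.p (nat_lit 12) (nat_lit 36) .z) .df .leaf))) (nat_lit 5122) (nat_lit 15) (.p (nat_lit 18) (nat_lit 36) .z) .df (.nd (.nd (.nd (.nd .leaf (nat_lit 5123) (nat_lit 26) (.p (nat_lit 26) (nat_lit 72) (.n (nat_lit 27) (nat_lit 72) .z)) (.ct dF6aa_c544 (nat_lit 36) (nat_lit 1) (.s true (nat_lit 1) (nat_lit 1) (nat_lit 0) (nat_lit 1) (nat_lit 0) true (nat_lit 1) true (nat_lit 3) true (nat_lit 2) true (nat_lit 3) true (nat_lit 2) (.e true (nat_lit 72) (nat_lit 11) (nat_lit 0) (nat_lit 3) (.e false (nat_lit 72) (nat_lit 10) (nat_lit 1) (nat_lit 2) .nil)))) .leaf) (nat_lit 6144) (nat_lit 11) (.p (nat_lit 14) (nat_lit 36) .z) .df (.nd .leaf (nat_lit 6145) (nat_lit 13) (.p (nat_lit 16) (nat_lit 36) .z) .df .leaf)) (nat_lit 6146) (nat_lit 17) (.p (nat_lit 20) (nat_lit 36) .z) .df (.nd (.nd .leaf (nat_lit 6148) (nat_lit 33) (.p (nat_lit 28) (nat_lit 36) (.n (nat_lit 31) (nat_lit 36) (.n (nat_lit 32) (nat_lit 36) (.p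 (nat_lit 33) (nat_lit 36) .z)))) (.ct dF6aa_c529 (nat_lit 36) (nat_lit 0) (.s true (nat_lit 1) (nat_lit 2) (nat_lit 0) (nat_lit 0) (nat_lit 1) true (nat_lit 0) true (nat_lit 3) true (nat_lit 2) true (nat_lit 4) true (nat_lit 4) (.e true (nat_lit 36) (nat_lit 14) (nat_lit 1) (nat_lit 3) (.e false (nat_lit 36) (nat_lit 9) (nat_lit 2) (nat_lit 2) (.e true (nat_lit 36) (nat_lit 15) (nat_lit 0) (nat_lit 4) (.e false (nat_lit 36) (nat_lit 17) (nat_lit 0) (nat_lit 4) .nil)))))) .leaf) (nat_lit 6149) (nat_lit 44) (.p (nat_lit 35) (nat_lit 36) (.n (nat_lit 36) (nat_lit 72) (.p (nat_lit 37) (nat_lit 72) (.n (nat_lit 38) (nat_lit 72) (.p (nat_lit 39) (nat_lit 36) .z))))) (.ct dF6aa_c289 (nat_lit 36) (nat_lit 0) (.s true (nat_lit 1) (nat_lit 2) (nat_lit 1) (nat_lit 0) (nat_lit 1) true (nat_lit 0) true (nat_lit 3) true (nat_lit 2) true (nat_lit 3) true (nat_lit 4) (.e true (nat_lit 36) (nat_lit 17) (nat_lit 1) (nat_lit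 3) (.e false (nat_lit 36) (nat_lit 11) (nat_lit 2) (nat_lit 2) (.e true (nat_lit 36) (nat_lit 15) (nat_lit 1) (nat_lit 3) (.e false (nat_lit 36) (nat_lit 19) (nat_lit 0) (nat_lit 4) .nil)))))) .leaf)) (nat_lit 7168) (nat_lit 14) (.p (nat_lit 17) (nat_lit 36) .z) .df (.nd (.nd (.nd .leaf (nat_lit 7169) (nat_lit 16) (.p (nat_lit 19) (nat_lit 36) .z) .df .leaf) (nat_lit 7170) (nat_lit 19) (.p (nat_lit 22) (nat_lit 36) .z) .df .leaf) (nat_lit 7171) (nat_lit 35) (.n (nat_lit 28) (nat_lit 36) (.p (nat_lit 29) (nat_lit 72) (.n (nat_lit 30) (nat_lit 36) (.p (nat_lit 31) (nat_lit 72) (.n (nat_lit 33) (nat_lit 72) .z))))) (.ct dF6aa_c529 (nat_lit 36) (nat_lit 1) (.s true (nat_lit 1) (nat_lit 2) (nat_lit 0) (nat_lit 1) (nat_lit 0) true (nat_lit 1) true (nat_lit 4) true (nat_lit 2) true (nat_lit 4) true (nat_lit 3) (.e true (nat_lit 36) (nat_lit 16) (nat_lit 0) (nat_lit 4) (.e false (nat_lit 36) (nat_lit 10) (nat_lit 2)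 (nat_lit 2) (.e true (nat_lit 36) (nat_lit 15) (nat_lit 0) (nat_lit 4) (.e false (nat_lit 36) (nat_lit 14) (nat_lit 1) (nat_lit 3) .nil)))))) (.nd (.nd .leaf (nat_lit 7172) (nat_lit 42) (.p (nat_lit 34) (nat_lit 36) (.n (nat_lit 37) (nat_lit 36) (.p (nat_lit 38) (nat_lit 36) (.n (nat_lit 39) (nat_lit 36) .z)))) (.ct dF6aa_c289 (nat_lit 36) (nat_lit 1) (.s true (nat_lit 1) (nat_lit 2) (nat_lit 0) (nat_lit 1) (nat_lit 1) true (nat_lit 1) true (nat_lit 3) true (nat_lit 2) true (nat_lit 4) true (nat_lit 3) (.e true (nat_lit 36) (nat_lit 16) (nat_lit 1) (nat_lit 3) (.e false (nat_lit 36) (nat_lit 11) (nat_lit 2) (nat_lit 2) (.e true (nat_lit 36) (nat_lit 18) (nat_lit 0) (nat_lit 4) (.e false (nat_lit 36) (nat_lit 17) (nat_lit 1) (nat_lit 3) .nil)))))) .leaf) (nat_lit 7174) (nat_lit 56) (.p (nat_lit 43) (nat_lit 36) (.n (nat_lit 44) (nat_lit 36) (.p (nat_lit 47) (nat_lit 36) (.n (nat_lit 48) (nat_lit 36) .z)))) (.ct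 dF6aa_c274 (nat_lit 36) (nat_lit 0) (.s true (nat_lit 1) (nat_lit 2) (nat_lit 0) (nat_lit 1) (nat_lit 2) true (nat_lit 0) true (nat_lit 2) true (nat_lit 2) true (nat_lit 4) true (nat_lit 3) (.e true (nat_lit 36) (nat_lit 16) (nat_lit 2) (nat_lit 2) (.e false (nat_lit 36) (nat_lit 15) (nat_lit 2) (nat_lit 2) (.e true (nat_lit 36) (nat_lit 22) (nat_lit 0) (nat_lit 4) (.e false (nat_lit 36) (nat_lit 21) (nat_lit 1) (nat_lit 3) .nil)))))) .leaf)))) (nat_lit 8192) (nat_lit 18) (.p (nat_lit 21) (nat_lit 36) .z) .df (.nd (.nd (.nd (.nd (.nd .leaf (nat_lit 8193) (nat_lit 20) (.p (nat_lit 23) (nat_lit 36) .z) .df .leaf) (nat_lit 8194) (nat_lit 21) (.p (nat_lit 24) (nat_lit 36) .z) .df (.nd .leaf (nat_lit 8195) (nat_lit 49) (.p (nat_lit 41) (nat_lit 72) (.n (nat_lit 42) (nat_lit 72) .z)) (.ct dF6aa_c514 (nat_lit 36) (nat_lit 1) (.s true (nat_lit 1) (nat_lit 2) (nat_lit 0) (nat_lit 2) (nat_lit 0) true (nat_lit 1) true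 (nat_lit 3) true (nat_lit 2) true (nat_lit 3) true (nat_lit 2) (.e true (nat_lit 72) (nat_lit 20) (nat_lit 0) (nat_lit 3) (.e false (nat_lit 72) (nat_lit 14) (nat_lit 2) (nat_lit 2) .nil)))) .leaf)) (nat_lit 8196) (nat_lit 58) (.p (nat_lit 44) (nat_lit 36) (.p (nat_lit 45) (nat_lit 36) (.n (nat_lit 46) (nat_lit 36) (.n (nat_lit 48) (nat_lit 36) .z)))) (.ct dF6aa_c274 (nat_lit 36) (nat_lit 1) (.s true (nat_lit 1) (nat_lit 2) (nat_lit 0) (nat_lit 2) (nat_lit 1) true (nat_lit 1) true (nat_lit 3) true (nat_lit 2) true (nat_lit 4) true (nat_lit 2) (.e true (nat_lit 36) (nat_lit 20) (nat_lit 1) (nat_lit 3) (.e false (nat_lit 36) (nat_lit 16) (nat_lit 2) (nat_lit 2) (.e true (nat_lit 36) (nat_lit 22) (nat_lit 0) (nat_lit 4) (.e false (nat_lit 36) (nat_lit 17) (nat_lit 2) (nat_lit 2) .nil)))))) (.nd (.nd .leaf (nat_lit 8197) (nat_lit 63) (.p (nat_lit 50) (nat_lit 72) (.n (nat_lit 51) (nat_lit 72) .z)) (.ct dF6aa_c34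 (nat_lit 36) (nat_lit 1) (.s true (nat_lit 1) (nat_lit 2) (nat_lit 1) (nat_lit 2) (nat_lit 1) true (nat_lit 1) true (nat_lit 3) true (nat_lit 2) true (nat_lit 3) true (nat_lit 2) (.e true (nat_lit 72) (nat_lit 22) (nat_lit 1) (nat_lit 3) (.e false (nat_lit 72) (nat_lit 19) (nat_lit 2) (nat_lit 2) .nil)))) .leaf) (nat_lit 8198) (nat_lit 67) (.p (nat_lit 53) (nat_lit 36) (.n (nat_lit 54) (nat_lit 36) .z)) (.ct dF6aa_c259 (nat_lit 36) (nat_lit 0) (.s true (nat_lit 1) (nat_lit 2) (nat_lit 0) (nat_lit 2) (nat_lit 2) true (nat_lit 0) true (nat_lit 1) true (nat_lit 1) true (nat_lit 2) true (nat_lit 1) (.e true (nat_lit 36) (nat_lit 24) (nat_lit 0) (nat_lit 2) (.e false (nat_lit 36) (nat_lit 21) (nat_lit 2) (nat_lit 1) .nil)))) .leaf)) (nat_lit 8199) (nat_lit 71) (.p (nat_lit 56) (nat_lit 36) (.n (nat_lit 57) (nat_lit 36) .z)) (.ct dF6aa_c19 (nat_lit 36) (nat_lit 0) (.s true (nat_lit 1) (nat_lit 2) (nat_lit 1) (nat_lit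 2) (nat_lit 2) true (nat_lit 0) true (nat_lit 1) true (nat_lit 1) true (nat_lit 2) true (nat_lit 1) (.e true (nat_lit 36) (nat_lit 24) (nat_lit 1) (nat_lit 2) (.e false (nat_lit 36) (nat_lit 23) (nat_lit 2) (nat_lit 1) .nil)))) (.nd (.nd (.nd .leaf (nat_lit 9217) (nat_lit 22) (.p (nat_lit 25) (nat_lit 36) .z) .df .leaf) (nat_lit 9218) (nat_lit 27) (.p (nat_lit 28) (nat_lit 36) .z) .df .leaf) (nat_lit 9223) (nat_lit 90) (.n (nat_lit 59) (nat_lit 72) (.p (nat_lit 61) (nat_lit 36) (.n (nat_lit 62) (nat_lit 36) (.p (nat_lit 63) (nat_lit 36) (.n (nat_lit 65) (nat_lit 72) (.p (nat_lit 66) (nat_lit 36) (.p (nat_lit 68) (nat_lit 36) (.p (nat_lit 70) (nat_lit 36) (.n (nat_lit 71) (nat_lit 36) .z))))))))) (.ct dF6aa_c545 (nat_lit 36) (nat_lit 0) (.s false (nat_lit 1) (nat_lit 4) (nat_lit 2) (nat_lit 1) (nat_lit 0) true (nat_lit 1) true (nat_lit 7) true (nat_lit 3) true (nat_lit 5) true (nat_lit 6) (.s true (nat_lit 1)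 (nat_lit 7) (nat_lit 0) (nat_lit 0) (nat_lit 1) true (nat_lit 3) true (nat_lit 6) true (nat_lit 0) true (nat_lit 7) true (nat_lit 7) (.e false (nat_lit 36) (nat_lit 11) (nat_lit 6) (nat_lit 1) (.e true (nat_lit 36) (nat_lit 29) (nat_lit 1) (nat_lit 6) (.e true (nat_lit 36) (nat_lit 33) (nat_lit 1) (nat_lit 6) (.e false (nat_lit 36) (nat_lit 37) (nat_lit 0) (nat_lit 7) (.e false (nat_lit 36) (nat_lit 35) (nat_lit 0) (nat_lit 7) .nil)))))))) (.nd (.nd .leaf (nat_lit 9224) (nat_lit 123) (.p (nat_lit 72) (nat_lit 108) (.n (nat_lit 73) (nat_lit 108) (.n (nat_lit 74) (nat_lit 108) (.n (nat_lit 75) (nat_lit 36) (.p (nat_lit 76) (nat_lit 108) (.p (nat_lit 77) (nat_lit 36) (.p (nat_lit 78) (nat_lit 36) (.n (nat_lit 79) (nat_lit 108) (.p (nat_lit 80) (nat_lit 36) (.p (nat_lit 83) (nat_lit 36) (.p (nat_lit 85) (nat_lit 36) .z))))))))))) (.ct dF6aa_c530 (nat_lit 36) (nat_lit 0) (.s true (nat_lit 1) (nat_lit 3) (nat_lit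 2) (nat_lit 1) (nat_lit 2) true (nat_lit 0) true (nat_lit 5) true (nat_lit 4) true (nat_lit 5) true (nat_lit 6) (.e true (nat_lit 36) (nat_lit 22) (nat_lit 3) (nat_lit 4) (.e false (nat_lit 36) (nat_lit 28) (nat_lit 2) (nat_lit 5) (.e true (nat_lit 72) (nat_lit 29) (nat_lit 2) (nat_lit 5) (.e true (nat_lit 72) (nat_lit 31) (nat_lit 2) (nat_lit 5) (.e false (nat_lit 72) (nat_lit 33) (nat_lit 2) (nat_lit 5) (.e false (nat_lit 36) (nat_lit 40) (nat_lit 1) (nat_lit 6) .nil)))))))) .leaf) (nat_lit 10241) (nat_lit 23) (.p (nat_lit 26) (nat_lit 36) .z) .df .leaf))) (nat_lit 10242) (nat_lit 28) (.p (nat_lit 29) (nat_lit 36) .z) .df (.nd (.nd (.nd (.nd .leaf (nat_lit 10247) (nat_lit 85) (.p (nat_lit 71) (nat_lit 36) .z) .df .leaf) (nat_lit 10248) (nat_lit 119) (.n (nat_lit 75) (nat_lit 36) (.p (nat_lit 78) (nat_lit 36) (.n (nat_lit 79) (nat_lit 36) (.p (nat_lit 80) (nat_lit 72) (.n (nat_lit 82) (nat_lit 36) (.p (nat_lit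 83) (nat_lit 36) (.n (nat_lit 84) (nat_lit 36) (.p (nat_lit 85) (nat_lit 36) .z)))))))) (.ct dF6aa_c530 (nat_lit 36) (nat_lit 0) (.s true (nat_lit 1) (nat_lit 4) (nat_lit 2) (nat_lit 0) (nat_lit 2) true (nat_lit 0) true (nat_lit 5) true (nat_lit 3) true (nat_lit 5) true (nat_lit 7) (.s false (nat_lit 1) (nat_lit 6) (nat_lit 1) (nat_lit 2) (nat_lit 0) true (nat_lit 3) true (nat_lit 7) true (nat_lit 2) true (nat_lit 6) true (nat_lit 5) (.e true (nat_lit 36) (nat_lit 28) (nat_lit 2) (nat_lit 5) (.e true (nat_lit 36) (nat_lit 33) (nat_lit 2) (nat_lit 5) (.e false (nat_lit 36) (nat_lit 43) (nat_lit 0) (nat_lit 7) (.e false (nat_lit 36) (nat_lit 44) (nat_lit 0) (nat_lit 7) (.e false (nat_lit 36) (nat_lit 17) (nat_lit 6) (nat_lit 2) .nil)))))))) .leaf) (nat_lit 11264) (nat_lit 24) (.p (nat_lit 27) (nat_lit 36) .z) .df (.nd (.nd .leaf (nat_lit 11266) (nat_lit 36) (.p (nat_lit 34) (nat_lit 36) .z) .df .leaf) (nat_lit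 11270) (nat_lit 86) (.n (nat_lit 59) (nat_lit 72) (.p (nat_lit 61) (nat_lit 72) (.n (nat_lit 62) (nat_lit 36) (.p (nat_lit 63) (nat_lit 36) (.n (nat_lit 65) (nat_lit 36) (.p (nat_lit 66) (nat_lit 36) (.n (nat_lit 67) (nat_lit 36) (.p (nat_lit 68) (nat_lit 36) (.n (nat_lit 69) (nat_lit 36) (.p (nat_lit 70) (nat_lit 36) (.n (nat_lit 71) (nat_lit 36) .z))))))))))) (.ct dF6aa_c545 (nat_lit 36) (nat_lit 1) (.s true (nat_lit 1) (nat_lit 4) (nat_lit 0) (nat_lit 1) (nat_lit 2) true (nat_lit 1) true (nat_lit 5) true (nat_lit 3) true (nat_lit 7) true (nat_lit 6) (.s false (nat_lit 1) (nat_lit 4) (nat_lit 1) (nat_lit 2) (nat_lit 0) true (nat_lit 3) true (nat_lit 7) true (nat_lit 3) true (nat_lit 6) true (nat_lit 5) (.s true (nat_lit 1) (nat_lit 7) (nat_lit 1) (nat_lit 0) (nat_lit 0) true (nat_lit 3) true (nat_lit 7) true (nat_lit 0) true (nat_lit 6) true (nat_lit 7) (.e true (nat_lit 72) (nat_lit 26) (nat_lit 2) (nat_lit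 5) (.e false (nat_lit 36) (nat_lit 34) (nat_lit 0) (nat_lit 7) (.e true (nat_lit 36) (nat_lit 37) (nat_lit 0) (nat_lit 7) (.e false (nat_lit 36) (nat_lit 38) (nat_lit 0) (nat_lit 7) (.e false (nat_lit 36) (nat_lit 31) (nat_lit 1) (nat_lit 6) (.e true (nat_lit 36) (nat_lit 33) (nat_lit 1) (nat_lit 6) (.e true (nat_lit 36) (nat_lit 35) (nat_lit 0) (nat_lit 7) (.e false (nat_lit 36) (nat_lit 36) (nat_lit 0) (nat_lit 7) (.e true (nat_lit 36) (nat_lit 10) (nat_lit 7) (nat_lit 0) (.e false (nat_lit 72) (nat_lit 29) (nat_lit 1) (nat_lit 6) (.e true (nat_lit 36) (nat_lit 30) (nat_lit 1) (nat_lit 6) .nil))))))))))))))) .leaf)) (nat_lit 11272) (nat_lit 144) (.n (nat_lit 87) (nat_lit 36) (.p (nat_lit 92) (nat_lit 36) (.p (nat_lit 93) (nat_lit 36) (.n (nat_lit 95) (nat_lit 36) (.p (nat_lit 97) (nat_lit 36) (.n (nat_lit 98) (nat_lit 36) (.p (nat_lit 99) (nat_lit 36) .z))))))) (.ct dF6aa_c290 (nat_lit 36) (nat_lit 0) (.s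 true (nat_lit 1) (nat_lit 4) (nat_lit 2) (nat_lit 1) (nat_lit 2) true (nat_lit 0) true (nat_lit 5) true (nat_lit 4) true (nat_lit 5) true (nat_lit 6) (.e true (nat_lit 36) (nat_lit 36) (nat_lit 2) (nat_lit 5) (.e true (nat_lit 36) (nat_lit 22) (nat_lit 4) (nat_lit 4) (.e true (nat_lit 36) (nat_lit 34) (nat_lit 2) (nat_lit 5) (.e false (nat_lit 36) (nat_lit 37) (nat_lit 2) (nat_lit 5) (.e true (nat_lit 36) (nat_lit 38) (nat_lit 2) (nat_lit 5) (.e false (nat_lit 36) (nat_lit 39) (nat_lit 2) (nat_lit 5) (.e false (nat_lit 36) (nat_lit 43) (nat_lit 1) (nat_lit 6) .nil))))))))) (.nd (.nd (.nd .leaf (nat_lit 12288) (nat_lit 25) (.n (nat_lit 25) (nat_lit 36) (.p (nat_lit 26) (nat_lit 36) (.p (nat_lit 27) (nat_lit 36) .z))) (.ct dF6aa_c544 (nat_lit 36) (nat_lit 3) (.s false (nat_lit 1) (nat_lit 1) (nat_lit 0) (nat_lit 0) (nat_lit 1) true (nat_lit 0) true (nat_lit 2) true (nat_lit 2) true (nat_lit 3) true (nat_lit 3)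 (.a false (nat_lit 648) (nat_lit 4) (nat_lit 4) (nat_lit 0) (nat_lit 0) (.e false (nat_lit 36) (nat_lit 10) (nat_lit 1) (nat_lit 2) (.e true (nat_lit 36) (nat_lit 9) (nat_lit 1) (nat_lit 2) (.e false (nat_lit 36) (nat_lit 11) (nat_lit 0) (nat_lit 3) .nil)))))) .leaf) (nat_lit 12290) (nat_lit 37) (.p (nat_lit 35) (nat_lit 36) .z) .df .leaf) (nat_lit 12294) (nat_lit 91) (.p (nat_lit 60) (nat_lit 36) (.p (nat_lit 65) (nat_lit 36) (.n (nat_lit 66) (nat_lit 36) (.n (nat_lit 69) (nat_lit 36) (.p (nat_lit 71) (nat_lit 36) .z))))) (.ct dF6aa_c545 (nat_lit 36) (nat_lit 1) (.s false (nat_lit 1) (nat_lit 4) (nat_lit 2) (nat_lit 0) (nat_lit 1) true (nat_lit 0) true (nat_lit 6) true (nat_lit 3) true (nat_lit 5) true (nat_lit 7) (.s true (nat_lit 1) (nat_lit 6) (nat_lit 1) (nat_lit 1) (nat_lit 0) true (nat_lit 3) true (nat_lit 7) true (nat_lit 1) true (nat_lit 6) true (nat_lit 6) (.e false (nat_lit 36) (nat_lit 10) (nat_lit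 7) (nat_lit 0) (.e true (nat_lit 36) (nat_lit 34) (nat_lit 0) (nat_lit 7) (.e true (nat_lit 36) (nat_lit 37) (nat_lit 0) (nat_lit 7) (.e false (nat_lit 36) (nat_lit 28) (nat_lit 1) (nat_lit 6) (.e false (nat_lit 36) (nat_lit 33) (nat_lit 1) (nat_lit 6) .nil)))))))) (.nd (.nd .leaf (nat_lit 12296) (nat_lit 148) (.p (nat_lit 87) (nat_lit 36) (.n (nat_lit 88) (nat_lit 72) (.p (nat_lit 89) (nat_lit 72) (.n (nat_lit 90) (nat_lit 72) (.p (nat_lit 92) (nat_lit 36) (.p (nat_lit 93) (nat_lit 36) (.p (nat_lit 96) (nat_lit 36) (.n (nat_lit 98) (nat_lit 72) (.p (nat_lit 99) (nat_lit 36) .z))))))))) (.ct dF6aa_c290 (nat_lit 36) (nat_lit 0) (.s true (nat_lit 1) (nat_lit 5) (nat_lit 2) (nat_lit 0) (nat_lit 2) true (nat_lit 0) true (nat_lit 5) true (nat_lit 3) true (nat_lit 5) true (nat_lit 7) (.e true (nat_lit 72) (nat_lit 39) (nat_lit 2) (nat_lit 5) (.e true (nat_lit 36) (nat_lit 20) (nat_lit 5) (nat_lit 3) (.e true (nat_lit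 36) (nat_lit 35) (nat_lit 2) (nat_lit 5) (.e false (nat_lit 72) (nat_lit 36) (nat_lit 2) (nat_lit 5) (.e true (nat_lit 72) (nat_lit 37) (nat_lit 2) (nat_lit 5) (.e false (nat_lit 72) (nat_lit 38) (nat_lit 2) (nat_lit 5) (.e false (nat_lit 36) (nat_lit 49) (nat_lit 0) (nat_lit 7) .nil))))))))) .leaf) (nat_lit 13313) (nat_lit 29) (.p (nat_lit 30) (nat_lit 36) .z) .df .leaf))))) (nat_lit 13314) (nat_lit 45) (.p (nat_lit 40) (nat_lit 36) .z) .df (.nd (.nd (.nd (.nd (.nd (.nd .leaf (nat_lit 13317) (nat_lit 97) (.p (nat_lit 58) (nat_lit 36) (.n (nat_lit 59) (nat_lit 72) (.n (nat_lit 60) (nat_lit 36) (.p (nat_lit 61) (nat_lit 36) (.n (nat_lit 62) (nat_lit 36) (.p (nat_lit 63) (nat_lit 36) (.n (nat_lit 65) (nat_lit 72) (.p (nat_lit 66) (nat_lit 36) (.n (nat_lit 67) (nat_lit 72) (.p (nat_lit 68) (nat_lit 108) (.n (nat_lit 69) (nat_lit 72) (.p (nat_lit 70) (nat_lit 108) (.n (nat_lit 71) (nat_lit 36) .z))))))))))))) (.ct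 dF6aa_c545 (nat_lit 36) (nat_lit 2) (.s true (nat_lit 1) (nat_lit 3) (nat_lit 1) (nat_lit 2) (nat_lit 1) true (nat_lit 2) true (nat_lit 6) true (nat_lit 4) true (nat_lit 6) true (nat_lit 5) (.e true (nat_lit 36) (nat_lit 19) (nat_lit 3) (nat_lit 4) (.e true (nat_lit 72) (nat_lit 29) (nat_lit 1) (nat_lit 6) (.e false (nat_lit 36) (nat_lit 30) (nat_lit 1) (nat_lit 6) (.e true (nat_lit 72) (nat_lit 31) (nat_lit 1) (nat_lit 6) (.e false (nat_lit 72) (nat_lit 33) (nat_lit 1) (nat_lit 6) (.e false (nat_lit 36) (nat_lit 25) (nat_lit 2) (nat_lit 5) .nil)))))))) .leaf) (nat_lit 13319) (nat_lit 117) (.n (nat_lit 72) (nat_lit 36) (.p (nat_lit 75) (nat_lit 36) (.n (nat_lit 76) (nat_lit 72) (.n (nat_lit 78) (nat_lit 36) (.p (nat_lit 79) (nat_lit 36) (.p (nat_lit 82) (nat_lit 36) (.p (nat_lit 84) (nat_lit 36) (.n (nat_lit 85) (nat_lit 36) .z)))))))) (.ct dF6aa_c530 (nat_lit 36) (nat_lit 1) (.s true (nat_lit 1) (nat_lit 7)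 (nat_lit 0) (nat_lit 0) (nat_lit 2) true (nat_lit 2) true (nat_lit 5) true (nat_lit 1) true (nat_lit 7) true (nat_lit 7) (.e true (nat_lit 36) (nat_lit 17) (nat_lit 6) (nat_lit 2) (.e true (nat_lit 36) (nat_lit 33) (nat_lit 2) (nat_lit 5) (.e false (nat_lit 36) (nat_lit 43) (nat_lit 0) (nat_lit 7) (.e true (nat_lit 36) (nat_lit 44) (nat_lit 0) (nat_lit 7) (.e false (nat_lit 36) (nat_lit 47) (nat_lit 0) (nat_lit 7) .nil))))))) (.nd .leaf (nat_lit 13320) (nat_lit 157) (.p (nat_lit 100) (nat_lit 36) (.n (nat_lit 101) (nat_lit 108) (.p (nat_lit 102) (nat_lit 36) (.p (nat_lit 104) (nat_lit 36) (.p (nat_lit 105) (nat_lit 36) .z))))) (.ct dF6aa_c515 (nat_lit 36) (nat_lit 0) (.s true (nat_lit 1) (nat_lit 8) (nat_lit 0) (nat_lit 0) (nat_lit 2) true (nat_lit 1) true (nat_lit 3) true (nat_lit 0) true (nat_lit 4) true (nat_lit 4) (.e true (nat_lit 36) (nat_lit 21) (nat_lit 6) (nat_lit 1) (.e false (nat_lit 36) (nat_lit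 40) (nat_lit 2) (nat_lit 3) (.e true (nat_lit 36) (nat_lit 41) (nat_lit 2) (nat_lit 3) (.e true (nat_lit 36) (nat_lit 42) (nat_lit 2) (nat_lit 3) (.e false (nat_lit 36) (nat_lit 53) (nat_lit 0) (nat_lit 4) .nil))))))) .leaf)) (nat_lit 14337) (nat_lit 30) (.p (nat_lit 31) (nat_lit 36) .z) .df (.nd (.nd .leaf (nat_lit 14338) (nat_lit 46) (.p (nat_lit 41) (nat_lit 36) .z) .df .leaf) (nat_lit 14341) (nat_lit 92) (.p (nat_lit 59) (nat_lit 72) (.n (nat_lit 61) (nat_lit 36) (.n (nat_lit 63) (nat_lit 36) (.n (nat_lit 66) (nat_lit 36) (.p (nat_lit 67) (nat_lit 36) (.n (nat_lit 68) (nat_lit 36) (.p (nat_lit 69) (nat_lit 72) (.n (nat_lit 70) (nat_lit 36) (.p (nat_lit 71) (nat_lit 36) .z))))))))) (.ct dF6aa_c545 (nat_lit 36) (nat_lit 2) (.s true (nat_lit 1) (nat_lit 5) (nat_lit 2) (nat_lit 0) (nat_lit 0) true (nat_lit 1) true (nat_lit 7) true (nat_lit 2) true (nat_lit 5) true (nat_lit 7) (.e true (nat_lit 36) (nat_lit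 12) (nat_lit 6) (nat_lit 1) (.e true (nat_lit 36) (nat_lit 39) (nat_lit 0) (nat_lit 7) (.e false (nat_lit 72) (nat_lit 26) (nat_lit 2) (nat_lit 5) (.e true (nat_lit 72) (nat_lit 27) (nat_lit 2) (nat_lit 5) (.e false (nat_lit 36) (nat_lit 35) (nat_lit 0) (nat_lit 7) .nil))))))) .leaf)) (nat_lit 14343) (nat_lit 115) (.p (nat_lit 72) (nat_lit 36) (.n (nat_lit 75) (nat_lit 36) (.p (nat_lit 76) (nat_lit 36) (.n (nat_lit 79) (nat_lit 72) (.p (nat_lit 80) (nat_lit 36) (.p (nat_lit 83) (nat_lit 36) (.n (nat_lit 84) (nat_lit 36) (.p (nat_lit 85) (nat_lit 36) .z)))))))) (.ct dF6aa_c530 (nat_lit 36) (nat_lit 1) (.s true (nat_lit 1) (nat_lit 6) (nat_lit 1) (nat_lit 0) (nat_lit 2) true (nat_lit 1) true (nat_lit 5) true (nat_lit 2) true (nat_lit 6) true (nat_lit 7) (.e true (nat_lit 36) (nat_lit 28) (nat_lit 2) (nat_lit 5) (.e false (nat_lit 36) (nat_lit 29) (nat_lit 2) (nat_lit 5) (.e true (nat_lit 36) (nat_lit 30) (nat_lit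 2) (nat_lit 5) (.e false (nat_lit 36) (nat_lit 31) (nat_lit 2) (nat_lit 5) (.e false (nat_lit 36) (nat_lit 32) (nat_lit 2) (nat_lit 5) (.e true (nat_lit 72) (nat_lit 33) (nat_lit 2) (nat_lit 5) (.e true (nat_lit 36) (nat_lit 15) (nat_lit 6) (nat_lit 2) (.e false (nat_lit 36) (nat_lit 46) (nat_lit 0) (nat_lit 7) .nil)))))))))) (.nd (.nd (.nd .leaf (nat_lit 14344) (nat_lit 155) (.p (nat_lit 105) (nat_lit 36) .z) .df .leaf) (nat_lit 15360) (nat_lit 31) (.p (nat_lit 32) (nat_lit 36) .z) .df .leaf) (nat_lit 15361) (nat_lit 38) (.p (nat_lit 36) (nat_lit 36) .z) .df (.nd (.nd .leaf (nat_lit 15362) (nat_lit 50) (.p (nat_lit 43) (nat_lit 36) .z) .df .leaf) (nat_lit 15364) (nat_lit 89) (.n (nat_lit 59) (nat_lit 36) (.n (nat_lit 60) (nat_lit 36) (.p (nat_lit 61) (nat_lit 36) (.n (nat_lit 62) (nat_lit 36) (.p (nat_lit 63) (nat_lit 72) (.p (nat_lit 64) (nat_lit 36) (.n (nat_lit 65) (nat_lit 72) (.n (nat_lit 67) (nat_lit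 36) (.p (nat_lit 68) (nat_lit 72) (.n (nat_lit 69) (nat_lit 36) (.p (nat_lit 70) (nat_lit 36) (.n (nat_lit 71) (nat_lit 36) .z)))))))))))) (.ct dF6aa_c545 (nat_lit 36) (nat_lit 3) (.s true (nat_lit 1) (nat_lit 4) (nat_lit 0) (nat_lit 1) (nat_lit 2) true (nat_lit 1) true (nat_lit 5) true (nat_lit 3) true (nat_lit 7) true (nat_lit 6) (.e true (nat_lit 36) (nat_lit 11) (nat_lit 6) (nat_lit 1) (.e true (nat_lit 36) (nat_lit 26) (nat_lit 2) (nat_lit 5) (.e true (nat_lit 36) (nat_lit 34) (nat_lit 0) (nat_lit 7) (.e false (nat_lit 36) (nat_lit 37) (nat_lit 0) (nat_lit 7) (.e true (nat_lit 36) (nat_lit 38) (nat_lit 0) (nat_lit 7) (.e false (nat_lit 36) (nat_lit 39) (nat_lit 0) (nat_lit 7) (.e false (nat_lit 36) (nat_lit 32) (nat_lit 1) (nat_lit 6) .nil))))))))) .leaf))) (nat_lit 15366) (nat_lit 111) (.p (nat_lit 85) (nat_lit 36) .z) .df (.nd (.nd (.nd (.nd .leaf (nat_lit 15367) (nat_lit 137) (.p (nat_lit 99) (nat_lit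 36) .z) .df .leaf) (nat_lit 15368) (nat_lit 170) (.p (nat_lit 115) (nat_lit 36) .z) .df (.nd .leaf (nat_lit 16384) (nat_lit 34) (.p (nat_lit 28) (nat_lit 36) (.n (nat_lit 29) (nat_lit 36) (.p (nat_lit 30) (nat_lit 36) (.n (nat_lit 31) (nat_lit 36) (.n (nat_lit 32) (nat_lit 36) (.p (nat_lit 33) (nat_lit 72) .z)))))) (.ct dF6aa_c529 (nat_lit 36) (nat_lit 4) (.s false (nat_lit 1) (nat_lit 2) (nat_lit 1) (nat_lit 0) (nat_lit 0) true (nat_lit 0) true (nat_lit 4) true (nat_lit 2) true (nat_lit 3) true (nat_lit 4) (.e false (nat_lit 36) (nat_lit 6) (nat_lit 4) (nat_lit 0) (.e false (nat_lit 36) (nat_lit 17) (nat_lit 0) (nat_lit 4) (.e true (nat_lit 36) (nat_lit 10) (nat_lit 2) (nat_lit 2) (.e false (nat_lit 36) (nat_lit 13) (nat_lit 1) (nat_lit 3) .nil)))))) .leaf)) (nat_lit 16385) (nat_lit 39) (.p (nat_lit 37) (nat_lit 36) .z) .df (.nd (.nd .leaf (nat_lit 16386) (nat_lit 51) (.p (nat_lit 44) (nat_lit 36) .z) .df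 .leaf) (nat_lit 16388) (nat_lit 94) (.n (nat_lit 64) (nat_lit 36) (.p (nat_lit 66) (nat_lit 36) (.n (nat_lit 71) (nat_lit 36) .z))) (.ct dF6aa_c545 (nat_lit 36) (nat_lit 3) (.s true (nat_lit 1) (nat_lit 4) (nat_lit 2) (nat_lit 0) (nat_lit 1) true (nat_lit 0) true (nat_lit 6) true (nat_lit 3) true (nat_lit 5) true (nat_lit 7) (.e true (nat_lit 36) (nat_lit 10) (nat_lit 7) (nat_lit 0) (.e true (nat_lit 36) (nat_lit 32) (nat_lit 1) (nat_lit 6) (.e false (nat_lit 36) (nat_lit 34) (nat_lit 0) (nat_lit 7) .nil))))) .leaf)) (nat_lit 16390) (nat_lit 116) (.n (nat_lit 74) (nat_lit 36) (.p (nat_lit 79) (nat_lit 36) (.n (nat_lit 80) (nat_lit 36) (.p (nat_lit 81) (nat_lit 36) (.n (nat_lit 83) (nat_lit 36) (.p (nat_lit 84) (nat_lit 36) (.n (nat_lit 85) (nat_lit 36) .z))))))) (.ct dF6aa_c530 (nat_lit 36) (nat_lit 2) (.s true (nat_lit 1) (nat_lit 6) (nat_lit 0) (nat_lit 1) (nat_lit 2) true (nat_lit 2) true (nat_lit 5) true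 (nat_lit 2) true (nat_lit 7) true (nat_lit 6) (.e true (nat_lit 36) (nat_lit 31) (nat_lit 2) (nat_lit 5) (.e true (nat_lit 36) (nat_lit 15) (nat_lit 6) (nat_lit 2) (.e true (nat_lit 36) (nat_lit 43) (nat_lit 0) (nat_lit 7) (.e false (nat_lit 36) (nat_lit 44) (nat_lit 0) (nat_lit 7) (.e true (nat_lit 36) (nat_lit 47) (nat_lit 0) (nat_lit 7) (.e false (nat_lit 36) (nat_lit 48) (nat_lit 0) (nat_lit 7) (.e false (nat_lit 36) (nat_lit 42) (nat_lit 1) (nat_lit 6) .nil))))))))) (.nd (.nd (.nd .leaf (nat_lit 16391) (nat_lit 140) (.n (nat_lit 89) (nat_lit 36) (.n (nat_lit 93) (nat_lit 36) (.p (nat_lit 97) (nat_lit 36) (.p (nat_lit 98) (nat_lit 36) (.n (nat_lit 99) (nat_lit 36) .z))))) (.ct dF6aa_c290 (nat_lit 36) (nat_lit 1) (.s true (nat_lit 1) (nat_lit 7) (nat_lit 0) (nat_lit 2) (nat_lit 1) true (nat_lit 4) true (nat_lit 6) true (nat_lit 1) true (nat_lit 7) true (nat_lit 5) (.s true (nat_lit 1) (nat_lit 7) (nat_lit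 1) (nat_lit 0) (nat_lit 2) true (nat_lit 1) true (nat_lit 5) true (nat_lit 1) true (nat_lit 6) true (nat_lit 7) (.s false (nat_lit 1) (nat_lit 7) (nat_lit 1) (nat_lit 2) (nat_lit 0) true (nat_lit 4) true (nat_lit 7) true (nat_lit 1) true (nat_lit 6) true (nat_lit 5) (.e true (nat_lit 36) (nat_lit 45) (nat_lit 1) (nat_lit 6) (.e true (nat_lit 36) (nat_lit 38) (nat_lit 2) (nat_lit 5) (.e true (nat_lit 36) (nat_lit 15) (nat_lit 7) (nat_lit 1) (.e false (nat_lit 36) (nat_lit 51) (nat_lit 0) (nat_lit 7) (.e false (nat_lit 36) (nat_lit 50) (nat_lit 0) (nat_lit 7) .nil))))))))) .leaf) (nat_lit 16392) (nat_lit 172) (.n (nat_lit 106) (nat_lit 72) (.p (nat_lit 107) (nat_lit 108) (.p (nat_lit 108) (nat_lit 36) (.n (nat_lit 109) (nat_lit 36) (.n (nat_lit 110) (nat_lit 36) (.p (nat_lit 111) (nat_lit 36) (.n (nat_lit 113) (nat_lit 36) (.p (nat_lit 115) (nat_lit 36) .z)))))))) (.ct dF6aa_c275 (nat_lit 36) (nat_lit 0) (.s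 true (nat_lit 1) (nat_lit 6) (nat_lit 2) (nat_lit 1) (nat_lit 2) true (nat_lit 0) true (nat_lit 4) true (nat_lit 2) true (nat_lit 4) true (nat_lit 5) (.s true (nat_lit 1) (nat_lit 6) (nat_lit 2) (nat_lit 2) (nat_lit 1) true (nat_lit 1) true (nat_lit 5) true (nat_lit 2) true (nat_lit 4) true (nat_lit 4) (.s false (nat_lit 1) (nat_lit 7) (nat_lit 0) (nat_lit 2) (nat_lit 2) true (nat_lit 2) true (nat_lit 4) true (nat_lit 1) true (nat_lit 6) true (nat_lit 4) (.s false (nat_lit 1) (nat_lit 8) (nat_lit 0) (nat_lit 1) (nat_lit 2) true (nat_lit 2) true (nat_lit 4) true (nat_lit 0) true (nat_lit 6) true (nat_lit 5) (.e true (nat_lit 36) (nat_lit 46) (nat_lit 2) (nat_lit 4) (.e true (nat_lit 72) (nat_lit 43) (nat_lit 2) (nat_lit 4) (.e false (nat_lit 108) (nat_lit 44) (nat_lit 2) (nat_lit 4) (.e true (nat_lit 36) (nat_lit 47) (nat_lit 2) (nat_lit 4) (.e false (nat_lit 36) (nat_lit 48) (nat_lit 2) (nat_lit 4) (.e false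 (nat_lit 36) (nat_lit 45) (nat_lit 2) (nat_lit 4) (.e false (nat_lit 36) (nat_lit 15) (nat_lit 8) (nat_lit 0) (.e true (nat_lit 36) (nat_lit 54) (nat_lit 1) (nat_lit 5) .nil))))))))))))) .leaf) (nat_lit 16399) (nat_lit 273) (.n (nat_lit 123) (nat_lit 72) (.p (nat_lit 124) (nat_lit 36) (.p (nat_lit 125) (nat_lit 36) (.p (nat_lit 127) (nat_lit 72) (.p (nat_lit 128) (nat_lit 36) (.n (nat_lit 129) (nat_lit 36) (.n (nat_lit 131) (nat_lit 72) (.p (nat_lit 132) (nat_lit 36) (.n (nat_lit 133) (nat_lit 72) (.n (nat_lit 134) (nat_lit 72) (.p (nat_lit 135) (nat_lit 36) (.p (nat_lit 136) (nat_lit 72) (.n (nat_lit 137) (nat_lit 72) (.p (nat_lit 138) (nat_lit 72) (.n (nat_lit 139) (nat_lit 72) (.n (nat_lit 141) (nat_lit 36) (.p (nat_lit 142) (nat_lit 36) (.n (nat_lit 143) (nat_lit 36) (.n (nat_lit 144) (nat_lit 36) (.n (nat_lit 145) (nat_lit 36) (.p (nat_lit 146) (nat_lit 72) (.p (nat_lit 148) (nat_lit 36) (.n (nat_lit 149)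 (nat_lit 36) (.n (nat_lit 150) (nat_lit 72) (.n (nat_lit 151) (nat_lit 36) (.n (nat_lit 152) (nat_lit 36) (.p (nat_lit 153) (nat_lit 36) (.p (nat_lit 155) (nat_lit 72) .z)))))))))))))))))))))))))))) (.ct dF6aa_c546 (nat_lit 36) (nat_lit 0) (.s false (nat_lit 1) (nat_lit 15) (nat_lit 0) (nat_lit 2) (nat_lit 1) true (nat_lit 8) true (nat_lit 11) true (nat_lit 0) true (nat_lit 12) true (nat_lit 10) (.e false (nat_lit 36) (nat_lit 43) (nat_lit 4) (nat_lit 8) (.e false (nat_lit 36) (nat_lit 75) (nat_lit 1) (nat_lit 11) (.e true (nat_lit 36) (nat_lit 99) (nat_lit 0) (nat_lit 12) (.e true (nat_lit 36) (nat_lit 68) (nat_lit 2) (nat_lit 10) .nil)))))) (.nd (.nd .leaf (nat_lit 16400) (nat_lit 271) (.p (nat_lit 123) (nat_lit 104) (.n (nat_lit 124) (nat_lit 68) (.p (nat_lit 126) (nat_lit 52) (.n (nat_lit 127) (nat_lit 64) (.n (nat_lit 128) (nat_lit 88) (.p (nat_lit 129) (nat_lit 76) (.n (nat_lit 130) (nat_lit 68) (.p (nat_lit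 131) (nat_lit 136) (.n (nat_lit 132) (nat_lit 68) (.p (nat_lit 134) (nat_lit 60) (.n (nat_lit 136) (nat_lit 164) (.p (nat_lit 137) (nat_lit 36) (.n (nat_lit 138) (nat_lit 256) (.p (nat_lit 139) (nat_lit 188) (.p (nat_lit 140) (nat_lit 36) (.p (nat_lit 141) (nat_lit 92) (.n (nat_lit 142) (nat_lit 196) (.p (nat_lit 143) (nat_lit 128) (.p (nat_lit 144) (nat_lit 208) (.p (nat_lit 145) (nat_lit 244) (.n (nat_lit 146) (nat_lit 244) (.n (nat_lit 147) (nat_lit 36) (.n (nat_lit 148) (nat_lit 84) (.n (nat_lit 149) (nat_lit 136) (.p (nat_lit 150) (nat_lit 244) (.p (nat_lit 151) (nat_lit 24) (.n (nat_lit 152) (nat_lit 24) (.n (nat_lit 153) (nat_lit 72) (.p (nat_lit 154) (nat_lit 36) (.n (nat_lit 155) (nat_lit 168) .z)))))))))))))))))))))))))))))) (.ct dF6aa_c546 (nat_lit 36) (nat_lit 0) (.s false (nat_lit 1) (nat_lit 16) (nat_lit 2) (nat_lit 0) (nat_lit 1) true (nat_lit 5) true (nat_lit 11) true (nat_lit 0) true (nat_lit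 10) true (nat_lit 12) (.e false (nat_lit 36) (nat_lit 28) (nat_lit 7) (nat_lit 5) (.e true (nat_lit 36) (nat_lit 29) (nat_lit 7) (nat_lit 5) (.e false (nat_lit 36) (nat_lit 30) (nat_lit 7) (nat_lit 5) (.e true (nat_lit 36) (nat_lit 31) (nat_lit 7) (nat_lit 5) (.e true (nat_lit 36) (nat_lit 32) (nat_lit 7) (nat_lit 5) (.e false (nat_lit 72) (nat_lit 33) (nat_lit 7) (nat_lit 5) (.e false (nat_lit 36) (nat_lit 81) (nat_lit 1) (nat_lit 11) (.e false (nat_lit 36) (nat_lit 64) (nat_lit 2) (nat_lit 10) (.e true (nat_lit 36) (nat_lit 66) (nat_lit 2) (nat_lit 10) (.e false (nat_lit 36) (nat_lit 71) (nat_lit 2) (nat_lit 10) (.e true (nat_lit 36) (nat_lit 88) (nat_lit 0) (nat_lit 12) .nil))))))))))))) .leaf) (nat_lit 17408) (nat_lit 32) (.p (nat_lit 33) (nat_lit 36) .z) .df .leaf)))) (nat_lit 17409) (nat_lit 40) (.p (nat_lit 38) (nat_lit 36) .z) .df (.nd (.nd (.nd (.nd (.nd .leaf (nat_lit 17410) (nat_lit 52) (.p (nat_lit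 45) (nat_lit 36) .z) .df .leaf) (nat_lit 17412) (nat_lit 95) (.p (nat_lit 59) (nat_lit 72) (.n (nat_lit 61) (nat_lit 36) (.p (nat_lit 62) (nat_lit 36) (.n (nat_lit 63) (nat_lit 36) (.p (nat_lit 65) (nat_lit 36) (.n (nat_lit 66) (nat_lit 36) (.p (nat_lit 67) (nat_lit 36) (.n (nat_lit 68) (nat_lit 72) (.p (nat_lit 69) (nat_lit 36) (.n (nat_lit 70) (nat_lit 36) (.p (nat_lit 71) (nat_lit 36) .z))))))))))) (.ct dF6aa_c545 (nat_lit 36) (nat_lit 3) (.s true (nat_lit 1) (nat_lit 4) (nat_lit 2) (nat_lit 1) (nat_lit 0) true (nat_lit 1) true (nat_lit 7) true (nat_lit 3) true (nat_lit 5) true (nat_lit 6) (.e true (nat_lit 36) (nat_lit 11) (nat_lit 6) (nat_lit 1) (.e true (nat_lit 36) (nat_lit 36) (nat_lit 0) (nat_lit 7) (.e false (nat_lit 36) (nat_lit 29) (nat_lit 1) (nat_lit 6) .nil))))) (.nd .leaf (nat_lit 17414) (nat_lit 112) (.p (nat_lit 72) (nat_lit 36) (.n (nat_lit 75) (nat_lit 36) (.p (nat_lit 76) (nat_lit 36) (.p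 (nat_lit 78) (nat_lit 36) (.n (nat_lit 79) (nat_lit 36) (.p (nat_lit 80) (nat_lit 36) (.n (nat_lit 81) (nat_lit 36) (.n (nat_lit 82) (nat_lit 36) (.p (nat_lit 83) (nat_lit 36) (.n (nat_lit 84) (nat_lit 36) (.p (nat_lit 85) (nat_lit 36) .z))))))))))) (.ct dF6aa_c530 (nat_lit 36) (nat_lit 2) (.s false (nat_lit 1) (nat_lit 6) (nat_lit 0) (nat_lit 1) (nat_lit 2) true (nat_lit 2) true (nat_lit 5) true (nat_lit 2) true (nat_lit 7) true (nat_lit 6) (.s true (nat_lit 1) (nat_lit 6) (nat_lit 2) (nat_lit 1) (nat_lit 0) true (nat_lit 2) true (nat_lit 7) true (nat_lit 2) true (nat_lit 5) true (nat_lit 6) (.e false (nat_lit 36) (nat_lit 15) (nat_lit 6) (nat_lit 2) (.e false (nat_lit 36) (nat_lit 43) (nat_lit 0) (nat_lit 7) (.e true (nat_lit 36) (nat_lit 44) (nat_lit 0) (nat_lit 7) (.e false (nat_lit 36) (nat_lit 47) (nat_lit 0) (nat_lit 7) (.e true (nat_lit 36) (nat_lit 48) (nat_lit 0) (nat_lit 7) (.e true (nat_lit 36)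 (nat_lit 42) (nat_lit 1) (nat_lit 6) (.e true (nat_lit 36) (nat_lit 46) (nat_lit 0) (nat_lit 7) (.e false (nat_lit 36) (nat_lit 28) (nat_lit 2) (nat_lit 5) (.e true (nat_lit 36) (nat_lit 32) (nat_lit 2) (nat_lit 5) (.e false (nat_lit 36) (nat_lit 33) (nat_lit 2) (nat_lit 5) (.e false (nat_lit 36) (nat_lit 41) (nat_lit 1) (nat_lit 6) .nil)))))))))))))) .leaf)) (nat_lit 17415) (nat_lit 142) (.p (nat_lit 86) (nat_lit 36) (.p (nat_lit 87) (nat_lit 36) (.n (nat_lit 88) (nat_lit 72) (.p (nat_lit 89) (nat_lit 108) (.n (nat_lit 90) (nat_lit 72) (.n (nat_lit 91) (nat_lit 36) (.p (nat_lit 93) (nat_lit 36) (.p (nat_lit 94) (nat_lit 36) (.n (nat_lit 95) (nat_lit 36) (.p (nat_lit 97) (nat_lit 36) (.n (nat_lit 98) (nat_lit 72) (.p (nat_lit 99) (nat_lit 36) .z)))))))))))) (.ct dF6aa_c290 (nat_lit 36) (nat_lit 1) (.s true (nat_lit 1) (nat_lit 7) (nat_lit 1) (nat_lit 2) (nat_lit 0) true (nat_lit 4) true (nat_lit 7) true (nat_lit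 1) true (nat_lit 6) true (nat_lit 5) (.e true (nat_lit 36) (nat_lit 22) (nat_lit 4) (nat_lit 4) (.e true (nat_lit 36) (nat_lit 50) (nat_lit 0) (nat_lit 7) (.e false (nat_lit 36) (nat_lit 43) (nat_lit 1) (nat_lit 6) (.e true (nat_lit 36) (nat_lit 44) (nat_lit 1) (nat_lit 6) (.e false (nat_lit 36) (nat_lit 47) (nat_lit 1) (nat_lit 6) (.e true (nat_lit 36) (nat_lit 48) (nat_lit 1) (nat_lit 6) (.e false (nat_lit 36) (nat_lit 38) (nat_lit 2) (nat_lit 5) .nil))))))))) (.nd (.nd .leaf (nat_lit 17416) (nat_lit 174) (.p (nat_lit 107) (nat_lit 36) (.p (nat_lit 108) (nat_lit 36) (.n (nat_lit 109) (nat_lit 36) (.p (nat_lit 110) (nat_lit 36) (.n (nat_lit 111) (nat_lit 36) (.p (nat_lit 112) (nat_lit 36) (.n (nat_lit 113) (nat_lit 36) (.n (nat_lit 114) (nat_lit 36) (.p (nat_lit 115) (nat_lit 36) .z))))))))) (.ct dF6aa_c275 (nat_lit 36) (nat_lit 0) (.s false (nat_lit 1) (nat_lit 6) (nat_lit 1) (nat_lit 2) (nat_lit 2) true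 (nat_lit 1) true (nat_lit 4) true (nat_lit 2) true (nat_lit 5) true (nat_lit 4) (.s true (nat_lit 1) (nat_lit 7) (nat_lit 2) (nat_lit 0) (nat_lit 2) true (nat_lit 0) true (nat_lit 4) true (nat_lit 1) true (nat_lit 4) true (nat_lit 6) (.s true (nat_lit 1) (nat_lit 7) (nat_lit 2) (nat_lit 2) (nat_lit 0) true (nat_lit 2) true (nat_lit 6) true (nat_lit 1) true (nat_lit 4) true (nat_lit 4) (.s false (nat_lit 1) (nat_lit 8) (nat_lit 2) (nat_lit 0) (nat_lit 1) true (nat_lit 1) true (nat_lit 5) true (nat_lit 0) true (nat_lit 4) true (nat_lit 6) (.e true (nat_lit 72) (nat_lit 44) (nat_lit 2) (nat_lit 4) (.e false (nat_lit 36) (nat_lit 53) (nat_lit 1) (nat_lit 5) (.e true (nat_lit 72) (nat_lit 48) (nat_lit 2) (nat_lit 4) (.e false (nat_lit 72) (nat_lit 43) (nat_lit 2) (nat_lit 4) (.e false (nat_lit 72) (nat_lit 47) (nat_lit 2) (nat_lit 4) (.e false (nat_lit 36) (nat_lit 16) (nat_lit 8) (nat_lit 0) (.e true (nat_lit 36)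 (nat_lit 56) (nat_lit 0) (nat_lit 6) .nil)))))))))))) .leaf) (nat_lit 17423) (nat_lit 274) (.n (nat_lit 123) (nat_lit 52) (.p (nat_lit 124) (nat_lit 16) (.n (nat_lit 126) (nat_lit 8) (.p (nat_lit 127) (nat_lit 32) (.p (nat_lit 128) (nat_lit 44) (.n (nat_lit 129) (nat_lit 20) (.p (nat_lit 130) (nat_lit 16) (.n (nat_lit 131) (nat_lit 68) (.p (nat_lit 132) (nat_lit 52) (.n (nat_lit 134) (nat_lit 48) (.p (nat_lit 136) (nat_lit 64) (.n (nat_lit 137) (nat_lit 72) (.p (nat_lit 138) (nat_lit 92) (.n (nat_lit 139) (nat_lit 40) (.p (nat_lit 140) (nat_lit 36) (.n (nat_lit 141) (nat_lit 28) (.p (nat_lit 142) (nat_lit 80) (.n (nat_lit 143) (nat_lit 64) (.n (nat_lit 144) (nat_lit 68) (.n (nat_lit 145) (nat_lit 68) (.p (nat_lit 146) (nat_lit 104) (.p (nat_lit 148) (nat_lit 24) (.p (nat_lit 149) (nat_lit 32) (.n (nat_lit 150) (nat_lit 68) (.n (nat_lit 151) (nat_lit 12) (.p (nat_lit 152) (nat_lit 12) (.p (nat_lit 153) (nat_lit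 72) (.p (nat_lit 154) (nat_lit 36) (.p (nat_lit 155) (nat_lit 48) .z))))))))))))))))))))))))))))) (.ct dF6aa_c546 (nat_lit 36) (nat_lit 0) (.s false (nat_lit 1) (nat_lit 15) (nat_lit 1) (nat_lit 2) (nat_lit 0) true (nat_lit 8) true (nat_lit 12) true (nat_lit 0) true (nat_lit 11) true (nat_lit 10) (.e false (nat_lit 36) (nat_lit 43) (nat_lit 4) (nat_lit 8) (.e false (nat_lit 36) (nat_lit 87) (nat_lit 0) (nat_lit 12) (.e true (nat_lit 36) (nat_lit 85) (nat_lit 1) (nat_lit 11) (.e true (nat_lit 36) (nat_lit 64) (nat_lit 2) (nat_lit 10) .nil)))))) .leaf)) (nat_lit 17424) (nat_lit 257) (.n (nat_lit 123) (nat_lit 64) (.p (nat_lit 124) (nat_lit 28) (.p (nat_lit 125) (nat_lit 72) (.n (nat_lit 126) (nat_lit 104) (.n (nat_lit 127) (nat_lit 88) (.p (nat_lit 128) (nat_lit 32) (.n (nat_lit 129) (nat_lit 44) (.p (nat_lit 130) (nat_lit 64) (.n (nat_lit 131) (nat_lit 56) (.p (nat_lit 132) (nat_lit 28) (.p (nat_lit 133) (nat_lit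 72) (.n (nat_lit 134) (nat_lit 12) (.p (nat_lit 135) (nat_lit 36) (.p (nat_lit 136) (nat_lit 76) (.p (nat_lit 138) (nat_lit 116) (.n (nat_lit 139) (nat_lit 16) (.n (nat_lit 140) (nat_lit 72) (.n (nat_lit 141) (nat_lit 4) (.p (nat_lit 142) (nat_lit 68) (.n (nat_lit 143) (nat_lit 76) (.n (nat_lit 144) (nat_lit 128) (.n (nat_lit 145) (nat_lit 164) (.p (nat_lit 146) (nat_lit 128) (.p (nat_lit 147) (nat_lit 36) (.p (nat_lit 148) (nat_lit 60) (.p (nat_lit 149) (nat_lit 128) (.n (nat_lit 150) (nat_lit 128) (.p (nat_lit 151) (nat_lit 24) (.p (nat_lit 152) (nat_lit 48) (.n (nat_lit 154) (nat_lit 36) (.p (nat_lit 155) (nat_lit 120) .z))))))))))))))))))))))))))))))) (.ct dF6aa_c546 (nat_lit 36) (nat_lit 0) (.s false (nat_lit 1) (nat_lit 16) (nat_lit 2) (nat_lit 1) (nat_lit 0) true (nat_lit 6) true (nat_lit 12) true (nat_lit 0) true (nat_lit 10) true (nat_lit 11) (.e false (nat_lit 36) (nat_lit 37) (nat_lit 6) (nat_lit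 6) (.e false (nat_lit 36) (nat_lit 92) (nat_lit 0) (nat_lit 12) (.e false (nat_lit 36) (nat_lit 64) (nat_lit 2) (nat_lit 10) (.e true (nat_lit 36) (nat_lit 66) (nat_lit 2) (nat_lit 10) (.e false (nat_lit 36) (nat_lit 71) (nat_lit 2) (nat_lit 10) (.e false (nat_lit 36) (nat_lit 72) (nat_lit 1) (nat_lit 11) (.e true (nat_lit 36) (nat_lit 75) (nat_lit 1) (nat_lit 11) (.e false (nat_lit 36) (nat_lit 76) (nat_lit 1) (nat_lit 11) (.e true (nat_lit 72) (nat_lit 79) (nat_lit 1) (nat_lit 11) (.e false (nat_lit 36) (nat_lit 80) (nat_lit 1) (nat_lit 11) (.e true (nat_lit 36) (nat_lit 82) (nat_lit 1) (nat_lit 11) (.e false (nat_lit 36) (nat_lit 83) (nat_lit 1) (nat_lit 11) (.e true (nat_lit 36) (nat_lit 84) (nat_lit 1) (nat_lit 11) (.e false (nat_lit 72) (nat_lit 85) (nat_lit 1) (nat_lit 11) .nil)))))))))))))))) (.nd (.nd (.nd .leaf (nat_lit 17425) (nat_lit 269) (.n (nat_lit 123) (nat_lit 124) (.p (nat_lit 124) (nat_lit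 16) (.n (nat_lit 125) (nat_lit 36) (.n (nat_lit 126) (nat_lit 116) (.n (nat_lit 127) (nat_lit 148) (.p (nat_lit 128) (nat_lit 152) (.n (nat_lit 129) (nat_lit 56) (.p (nat_lit 130) (nat_lit 124) (.n (nat_lit 131) (nat_lit 140) (.p (nat_lit 132) (nat_lit 124) (.p (nat_lit 133) (nat_lit 108) (.n (nat_lit 134) (nat_lit 12) (.n (nat_lit 135) (nat_lit 108) (.p (nat_lit 136) (nat_lit 280) (.n (nat_lit 137) (nat_lit 72) (.p (nat_lit 138) (nat_lit 308) (.n (nat_lit 139) (nat_lit 76) (.p (nat_lit 140) (nat_lit 108) (.n (nat_lit 141) (nat_lit 64) (.p (nat_lit 142) (nat_lit 296) (.n (nat_lit 143) (nat_lit 280) (.n (nat_lit 144) (nat_lit 248) (.n (nat_lit 145) (nat_lit 212) (.p (nat_lit 146) (nat_lit 212) (.n (nat_lit 147) (nat_lit 36) (.p (nat_lit 148) (nat_lit 60) (.p (nat_lit 149) (nat_lit 248) (.n (nat_lit 150) (nat_lit 248) (.p (nat_lit 151) (nat_lit 60) (.p (nat_lit 152) (nat_lit 192) (.p (nat_lit 153) (nat_lit 144)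 (.p (nat_lit 155) (nat_lit 120) .z)))))))))))))))))))))))))))))))) (.ct dF6aa_c546 (nat_lit 36) (nat_lit 0) (.s false (nat_lit 1) (nat_lit 17) (nat_lit 1) (nat_lit 2) (nat_lit 0) true (nat_lit 8) true (nat_lit 12) true (nat_lit 0) true (nat_lit 11) true (nat_lit 10) (.e false (nat_lit 36) (nat_lit 45) (nat_lit 4) (nat_lit 8) (.e false (nat_lit 36) (nat_lit 89) (nat_lit 0) (nat_lit 12) (.e true (nat_lit 36) (nat_lit 72) (nat_lit 1) (nat_lit 11) (.e false (nat_lit 36) (nat_lit 75) (nat_lit 1) (nat_lit 11) (.e true (nat_lit 36) (nat_lit 76) (nat_lit 1) (nat_lit 11) (.e true (nat_lit 36) (nat_lit 78) (nat_lit 1) (nat_lit 11) (.e false (nat_lit 36) (nat_lit 79) (nat_lit 1) (nat_lit 11) (.e true (nat_lit 36) (nat_lit 80) (nat_lit 1) (nat_lit 11) (.e false (nat_lit 36) (nat_lit 81) (nat_lit 1) (nat_lit 11) (.e false (nat_lit 36) (nat_lit 82) (nat_lit 1) (nat_lit 11) (.e true (nat_lit 36) (nat_lit 83) (nat_lit 1) (nat_lit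 11) (.e false (nat_lit 36) (nat_lit 84) (nat_lit 1) (nat_lit 11) (.e true (nat_lit 36) (nat_lit 85) (nat_lit 1) (nat_lit 11) (.e true (nat_lit 36) (nat_lit 65) (nat_lit 2) (nat_lit 10) .nil)))))))))))))))) .leaf) (nat_lit 18432) (nat_lit 41) (.p (nat_lit 39) (nat_lit 36) .z) .df .leaf) (nat_lit 18434) (nat_lit 59) (.p (nat_lit 49) (nat_lit 36) .z) .df (.nd (.nd .leaf (nat_lit 18435) (nat_lit 96) (.n (nat_lit 58) (nat_lit 36) (.p (nat_lit 59) (nat_lit 72) (.p (nat_lit 60) (nat_lit 36) (.n (nat_lit 61) (nat_lit 108) (.p (nat_lit 62) (nat_lit 108) (.n (nat_lit 63) (nat_lit 108) (.p (nat_lit 65) (nat_lit 144) (.n (nat_lit 66) (nat_lit 36) (.n (nat_lit 68) (nat_lit 36) (.n (nat_lit 70) (nat_lit 36) (.p (nat_lit 71) (nat_lit 36) .z))))))))))) (.ct dF6aa_c545 (nat_lit 36) (nat_lit 4) (.s true (nat_lit 1) (nat_lit 3) (nat_lit 1) (nat_lit 1) (nat_lit 2) true (nat_lit 0) true (nat_lit 5) true (nat_lit 4) true (nat_lit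 6) true (nat_lit 6) (.e true (nat_lit 36) (nat_lit 9) (nat_lit 7) (nat_lit 0) (.e true (nat_lit 36) (nat_lit 25) (nat_lit 2) (nat_lit 5) (.e false (nat_lit 36) (nat_lit 28) (nat_lit 1) (nat_lit 6) (.e true (nat_lit 72) (nat_lit 29) (nat_lit 1) (nat_lit 6) (.e false (nat_lit 72) (nat_lit 30) (nat_lit 1) (nat_lit 6) (.e true (nat_lit 72) (nat_lit 31) (nat_lit 1) (nat_lit 6) (.e false (nat_lit 72) (nat_lit 33) (nat_lit 1) (nat_lit 6) .nil))))))))) .leaf) (nat_lit 18438) (nat_lit 143) (.n (nat_lit 87) (nat_lit 36) (.p (nat_lit 90) (nat_lit 36) (.p (nat_lit 92) (nat_lit 36) (.p (nat_lit 93) (nat_lit 36) (.n (nat_lit 97) (nat_lit 72) (.p (nat_lit 99) (nat_lit 36) .z)))))) (.ct dF6aa_c290 (nat_lit 36) (nat_lit 2) (.s true (nat_lit 1) (nat_lit 6) (nat_lit 1) (nat_lit 1) (nat_lit 2) true (nat_lit 1) true (nat_lit 5) true (nat_lit 2) true (nat_lit 6) true (nat_lit 6) (.e true (nat_lit 36) (nat_lit 16) (nat_lit 7) (nat_lit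 1) (.e true (nat_lit 36) (nat_lit 37) (nat_lit 2) (nat_lit 5) (.e true (nat_lit 36) (nat_lit 43) (nat_lit 1) (nat_lit 6) (.e false (nat_lit 36) (nat_lit 44) (nat_lit 1) (nat_lit 6) (.e true (nat_lit 36) (nat_lit 47) (nat_lit 1) (nat_lit 6) (.e false (nat_lit 36) (nat_lit 48) (nat_lit 1) (nat_lit 6) (.e false (nat_lit 36) (nat_lit 46) (nat_lit 1) (nat_lit 6) .nil))))))))) .leaf))) (nat_lit 18440) (nat_lit 188) (.p (nat_lit 117) (nat_lit 36) (.n (nat_lit 118) (nat_lit 108) (.p (nat_lit 119) (nat_lit 36) (.p (nat_lit 121) (nat_lit 36) (.p (nat_lit 122) (nat_lit 36) .z))))) (.ct dF6aa_c35 (nat_lit 36) (nat_lit 0) (.s true (nat_lit 1) (nat_lit 8) (nat_lit 1) (nat_lit 1) (nat_lit 2) true (nat_lit 1) true (nat_lit 3) true (nat_lit 0) true (nat_lit 4) true (nat_lit 4) (.e true (nat_lit 36) (nat_lit 23) (nat_lit 7) (nat_lit 1) (.e false (nat_lit 36) (nat_lit 49) (nat_lit 2) (nat_lit 3) (.e true (nat_lit 36) (nat_lit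 50) (nat_lit 2) (nat_lit 3) (.e true (nat_lit 36) (nat_lit 51) (nat_lit 2) (nat_lit 3) (.e false (nat_lit 36) (nat_lit 56) (nat_lit 1) (nat_lit 4) .nil))))))) (.nd (.nd (.nd (.nd .leaf (nat_lit 18445) (nat_lit 270) (.p (nat_lit 123) (nat_lit 416) (.n (nat_lit 124) (nat_lit 164) (.p (nat_lit 126) (nat_lit 388) (.p (nat_lit 127) (nat_lit 104) (.n (nat_lit 128) (nat_lit 424) (.p (nat_lit 129) (nat_lit 268) (.n (nat_lit 130) (nat_lit 380) (.p (nat_lit 131) (nat_lit 580) (.n (nat_lit 132) (nat_lit 380) (.n (nat_lit 133) (nat_lit 216) (.p (nat_lit 134) (nat_lit 312) (.p (nat_lit 135) (nat_lit 72) (.n (nat_lit 136) (nat_lit 980) (.p (nat_lit 137) (nat_lit 360) (.n (nat_lit 138) (nat_lit 1384) (.p (nat_lit 139) (nat_lit 644) (.n (nat_lit 140) (nat_lit 144) (.p (nat_lit 141) (nat_lit 404) (.n (nat_lit 142) (nat_lit 1144) (.p (nat_lit 143) (nat_lit 980) (.p (nat_lit 144) (nat_lit 1048) (.p (nat_lit 145) (nat_lit 1048)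 (.n (nat_lit 146) (nat_lit 1048) (.n (nat_lit 148) (nat_lit 336) (.n (nat_lit 149) (nat_lit 760) (.p (nat_lit 150) (nat_lit 1048) (.n (nat_lit 151) (nat_lit 48) (.n (nat_lit 152) (nat_lit 312) (.n (nat_lit 153) (nat_lit 432) (.n (nat_lit 155) (nat_lit 672) .z)))))))))))))))))))))))))))))) (.ct dF6aa_c546 (nat_lit 36) (nat_lit 1) (.s false (nat_lit 1) (nat_lit 13) (nat_lit 1) (nat_lit 1) (nat_lit 2) true (nat_lit 5) true (nat_lit 10) true (nat_lit 1) true (nat_lit 11) true (nat_lit 11) (.e false (nat_lit 36) (nat_lit 30) (nat_lit 7) (nat_lit 5) (.e false (nat_lit 36) (nat_lit 62) (nat_lit 2) (nat_lit 10) (.e false (nat_lit 36) (nat_lit 72) (nat_lit 1) (nat_lit 11) (.e true (nat_lit 36) (nat_lit 75) (nat_lit 1) (nat_lit 11) (.e false (nat_lit 72) (nat_lit 76) (nat_lit 1) (nat_lit 11) (.e false (nat_lit 36) (nat_lit 78) (nat_lit 1) (nat_lit 11) (.e true (nat_lit 36) (nat_lit 79) (nat_lit 1) (nat_lit 11) (.e true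 (nat_lit 36) (nat_lit 82) (nat_lit 1) (nat_lit 11) (.e true (nat_lit 36) (nat_lit 84) (nat_lit 1) (nat_lit 11) (.e false (nat_lit 36) (nat_lit 85) (nat_lit 1) (nat_lit 11) (.e true (nat_lit 36) (nat_lit 77) (nat_lit 1) (nat_lit 11) .nil))))))))))))) .leaf) (nat_lit 18446) (nat_lit 265) (.n (nat_lit 123) (nat_lit 136) (.p (nat_lit 124) (nat_lit 64) (.n (nat_lit 125) (nat_lit 36) (.n (nat_lit 126) (nat_lit 104) (.n (nat_lit 127) (nat_lit 16) (.p (nat_lit 128) (nat_lit 140) (.n (nat_lit 129) (nat_lit 80) (.p (nat_lit 130) (nat_lit 100) (.n (nat_lit 131) (nat_lit 200) (.p (nat_lit 132) (nat_lit 100) (.p (nat_lit 133) (nat_lit 108) (.n (nat_lit 134) (nat_lit 84) (.n (nat_lit 135) (nat_lit 72) (.p (nat_lit 136) (nat_lit 328) (.n (nat_lit 137) (nat_lit 108) (.p (nat_lit 138) (nat_lit 476) (.n (nat_lit 139) (nat_lit 196) (.p (nat_lit 140) (nat_lit 36) (.n (nat_lit 141) (nat_lit 148) (.p (nat_lit 142) (nat_lit 392)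 (.n (nat_lit 143) (nat_lit 328) (.n (nat_lit 144) (nat_lit 344) (.n (nat_lit 145) (nat_lit 344) (.p (nat_lit 146) (nat_lit 344) (.p (nat_lit 148) (nat_lit 96) (.p (nat_lit 149) (nat_lit 272) (.n (nat_lit 150) (nat_lit 344) (.p (nat_lit 151) (nat_lit 24) (.p (nat_lit 152) (nat_lit 120) (.p (nat_lit 153) (nat_lit 180) (.p (nat_lit 155) (nat_lit 192) .z))))))))))))))))))))))))))))))) (.ct dF6aa_c546 (nat_lit 36) (nat_lit 1) (.s false (nat_lit 1) (nat_lit 14) (nat_lit 1) (nat_lit 1) (nat_lit 2) true (nat_lit 5) true (nat_lit 10) true (nat_lit 1) true (nat_lit 11) true (nat_lit 11) (.e false (nat_lit 36) (nat_lit 31) (nat_lit 7) (nat_lit 5) (.e false (nat_lit 36) (nat_lit 63) (nat_lit 2) (nat_lit 10) (.e true (nat_lit 36) (nat_lit 72) (nat_lit 1) (nat_lit 11) (.e false (nat_lit 36) (nat_lit 75) (nat_lit 1) (nat_lit 11) (.e true (nat_lit 36) (nat_lit 76) (nat_lit 1) (nat_lit 11) (.e false (nat_lit 72) (nat_lit 79)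 (nat_lit 1) (nat_lit 11) (.e true (nat_lit 36) (nat_lit 80) (nat_lit 1) (nat_lit 11) (.e true (nat_lit 36) (nat_lit 83) (nat_lit 1) (nat_lit 11) (.e false (nat_lit 36) (nat_lit 84) (nat_lit 1) (nat_lit 11) (.e true (nat_lit 36) (nat_lit 85) (nat_lit 1) (nat_lit 11) (.e true (nat_lit 36) (nat_lit 78) (nat_lit 1) (nat_lit 11) .nil))))))))))))) .leaf) (nat_lit 19456) (nat_lit 43) (.n (nat_lit 34) (nat_lit 36) (.p (nat_lit 35) (nat_lit 36) (.n (nat_lit 36) (nat_lit 36) (.p (nat_lit 37) (nat_lit 72) (.n (nat_lit 38) (nat_lit 36) (.p (nat_lit 39) (nat_lit 36) .z)))))) (.ct dF6aa_c289 (nat_lit 36) (nat_lit 4) (.s true (nat_lit 1) (nat_lit 2) (nat_lit 1) (nat_lit 1) (nat_lit 0) true (nat_lit 1) true (nat_lit 4) true (nat_lit 2) true (nat_lit 3) true (nat_lit 3) (.e true (nat_lit 36) (nat_lit 7) (nat_lit 4) (nat_lit 1) (.e false (nat_lit 36) (nat_lit 12) (nat_lit 2) (nat_lit 2) (.e true (nat_lit 36) (nat_lit 15) (nat_lit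 1) (nat_lit 3) (.e false (nat_lit 36) (nat_lit 16) (nat_lit 1) (nat_lit 3) .nil)))))) (.nd (.nd .leaf (nat_lit 19458) (nat_lit 60) (.p (nat_lit 50) (nat_lit 36) .z) .df .leaf) (nat_lit 19459) (nat_lit 93) (.p (nat_lit 59) (nat_lit 72) (.p (nat_lit 60) (nat_lit 36) (.n (nat_lit 61) (nat_lit 108) (.p (nat_lit 62) (nat_lit 72) (.n (nat_lit 63) (nat_lit 108) (.p (nat_lit 65) (nat_lit 144) (.n (nat_lit 66) (nat_lit 36) (.p (nat_lit 67) (nat_lit 72) (.n (nat_lit 68) (nat_lit 108) (.p (nat_lit 69) (nat_lit 72) (.n (nat_lit 70) (nat_lit 108) (.p (nat_lit 71) (nat_lit 36) .z)))))))))))) (.ct dF6aa_c545 (nat_lit 36) (nat_lit 4) (.s true (nat_lit 1) (nat_lit 3) (nat_lit 2) (nat_lit 1) (nat_lit 1) true (nat_lit 0) true (nat_lit 6) true (nat_lit 4) true (nat_lit 5) true (nat_lit 6) (.e true (nat_lit 36) (nat_lit 9) (nat_lit 7) (nat_lit 0) (.e true (nat_lit 36) (nat_lit 30) (nat_lit 1) (nat_lit 6) (.e true (nat_lit 72) (nat_lit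 26) (nat_lit 2) (nat_lit 5) (.e false (nat_lit 72) (nat_lit 27) (nat_lit 2) (nat_lit 5) (.e false (nat_lit 36) (nat_lit 28) (nat_lit 1) (nat_lit 6) .nil))))))) .leaf)) (nat_lit 19462) (nat_lit 147) (.n (nat_lit 87) (nat_lit 36) (.p (nat_lit 88) (nat_lit 36) (.n (nat_lit 89) (nat_lit 72) (.p (nat_lit 90) (nat_lit 36) (.p (nat_lit 91) (nat_lit 36) (.n (nat_lit 94) (nat_lit 36) (.p (nat_lit 95) (nat_lit 36) (.n (nat_lit 97) (nat_lit 36) (.p (nat_lit 98) (nat_lit 36) (.n (nat_lit 99) (nat_lit 36) .z)))))))))) (.ct dF6aa_c290 (nat_lit 36) (nat_lit 2) (.s true (nat_lit 1) (nat_lit 7) (nat_lit 0) (nat_lit 1) (nat_lit 2) true (nat_lit 2) true (nat_lit 5) true (nat_lit 1) true (nat_lit 7) true (nat_lit 6) (.e true (nat_lit 36) (nat_lit 38) (nat_lit 2) (nat_lit 5) (.e true (nat_lit 36) (nat_lit 15) (nat_lit 7) (nat_lit 1) (.e false (nat_lit 36) (nat_lit 48) (nat_lit 1) (nat_lit 6) .nil))))) (.nd (.nd (.nd .leaf (nat_lit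 19464) (nat_lit 186) (.p (nat_lit 122) (nat_lit 36) .z) .df .leaf) (nat_lit 19469) (nat_lit 263) (.n (nat_lit 123) (nat_lit 136) (.p (nat_lit 124) (nat_lit 64) (.n (nat_lit 125) (nat_lit 36) (.n (nat_lit 126) (nat_lit 104) (.n (nat_lit 127) (nat_lit 16) (.p (nat_lit 128) (nat_lit 140) (.n (nat_lit 129) (nat_lit 80) (.p (nat_lit 130) (nat_lit 100) (.n (nat_lit 131) (nat_lit 200) (.p (nat_lit 132) (nat_lit 100) (.p (nat_lit 133) (nat_lit 108) (.n (nat_lit 134) (nat_lit 120) (.n (nat_lit 135) (nat_lit 72) (.p (nat_lit 136) (nat_lit 364) (.n (nat_lit 137) (nat_lit 108) (.p (nat_lit 138) (nat_lit 548) (.n (nat_lit 139) (nat_lit 268) (.p (nat_lit 140) (nat_lit 72) (.n (nat_lit 141) (nat_lit 184) (.p (nat_lit 142) (nat_lit 428) (.n (nat_lit 143) (nat_lit 364) (.n (nat_lit 144) (nat_lit 380) (.n (nat_lit 145) (nat_lit 380) (.p (nat_lit 146) (nat_lit 380) (.p (nat_lit 148) (nat_lit 96) (.p (nat_lit 149) (nat_lit 272)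 (.n (nat_lit 150) (nat_lit 380) (.p (nat_lit 151) (nat_lit 24) (.p (nat_lit 152) (nat_lit 120) (.p (nat_lit 153) (nat_lit 180) (.p (nat_lit 155) (nat_lit 192) .z))))))))))))))))))))))))))))))) (.ct dF6aa_c546 (nat_lit 36) (nat_lit 1) (.s false (nat_lit 1) (nat_lit 13) (nat_lit 1) (nat_lit 2) (nat_lit 1) true (nat_lit 7) true (nat_lit 11) true (nat_lit 1) true (nat_lit 11) true (nat_lit 10) (.e false (nat_lit 36) (nat_lit 40) (nat_lit 5) (nat_lit 7) (.e true (nat_lit 36) (nat_lit 72) (nat_lit 1) (nat_lit 11) (.e false (nat_lit 36) (nat_lit 73) (nat_lit 1) (nat_lit 11) (.e false (nat_lit 36) (nat_lit 74) (nat_lit 1) (nat_lit 11) (.e false (nat_lit 36) (nat_lit 75) (nat_lit 1) (nat_lit 11) (.e true (nat_lit 36) (nat_lit 76) (nat_lit 1) (nat_lit 11) (.e false (nat_lit 36) (nat_lit 79) (nat_lit 1) (nat_lit 11) (.e true (nat_lit 36) (nat_lit 80) (nat_lit 1) (nat_lit 11) (.e true (nat_lit 36) (nat_lit 83) (nat_lit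 1) (nat_lit 11) (.e true (nat_lit 36) (nat_lit 85) (nat_lit 1) (nat_lit 11) (.e false (nat_lit 36) (nat_lit 78) (nat_lit 1) (nat_lit 11) (.e true (nat_lit 36) (nat_lit 62) (nat_lit 2) (nat_lit 10) .nil)))))))))))))) .leaf) (nat_lit 19470) (nat_lit 261) (.p (nat_lit 123) (nat_lit 112) (.n (nat_lit 124) (nat_lit 40) (.p (nat_lit 126) (nat_lit 128) (.p (nat_lit 127) (nat_lit 64) (.n (nat_lit 128) (nat_lit 128) (.p (nat_lit 129) (nat_lit 68) (.n (nat_lit 130) (nat_lit 112) (.p (nat_lit 131) (nat_lit 152) (.n (nat_lit 132) (nat_lit 112) (.n (nat_lit 133) (nat_lit 72) (.p (nat_lit 134) (nat_lit 48) (.p (nat_lit 135) (nat_lit 36) (.n (nat_lit 136) (nat_lit 268) (.p (nat_lit 137) (nat_lit 72) (.n (nat_lit 138) (nat_lit 356) (.p (nat_lit 139) (nat_lit 136) (.n (nat_lit 140) (nat_lit 36) (.p (nat_lit 141) (nat_lit 88) (.n (nat_lit 142) (nat_lit 308) (.p (nat_lit 143) (nat_lit 268) (.p (nat_lit 144) (nat_lit 296) (.p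 (nat_lit 145) (nat_lit 296) (.n (nat_lit 146) (nat_lit 296) (.n (nat_lit 148) (nat_lit 96) (.n (nat_lit 149) (nat_lit 224) (.p (nat_lit 150) (nat_lit 296) (.n (nat_lit 151) (nat_lit 24) (.n (nat_lit 152) (nat_lit 120) (.n (nat_lit 153) (nat_lit 108) (.n (nat_lit 155) (nat_lit 192) .z)))))))))))))))))))))))))))))) (.ct dF6aa_c546 (nat_lit 36) (nat_lit 1) (.s false (nat_lit 1) (nat_lit 14) (nat_lit 1) (nat_lit 2) (nat_lit 1) true (nat_lit 7) true (nat_lit 11) true (nat_lit 1) true (nat_lit 11) true (nat_lit 10) (.e false (nat_lit 36) (nat_lit 41) (nat_lit 5) (nat_lit 7) (.e false (nat_lit 36) (nat_lit 74) (nat_lit 1) (nat_lit 11) (.e true (nat_lit 36) (nat_lit 72) (nat_lit 1) (nat_lit 11) (.e false (nat_lit 36) (nat_lit 75) (nat_lit 1) (nat_lit 11) (.e true (nat_lit 36) (nat_lit 76) (nat_lit 1) (nat_lit 11) (.e false (nat_lit 72) (nat_lit 79) (nat_lit 1) (nat_lit 11) (.e true (nat_lit 36) (nat_lit 80) (nat_lit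 1) (nat_lit 11) (.e true (nat_lit 36) (nat_lit 83) (nat_lit 1) (nat_lit 11) (.e false (nat_lit 36) (nat_lit 84) (nat_lit 1) (nat_lit 11) (.e true (nat_lit 36) (nat_lit 85) (nat_lit 1) (nat_lit 11) (.e true (nat_lit 36) (nat_lit 63) (nat_lit 2) (nat_lit 10) .nil))))))))))))) (.nd (.nd .leaf (nat_lit 20480) (nat_lit 47) (.p (nat_lit 42) (nat_lit 36) .z) .df .leaf) (nat_lit 20481) (nat_lit 53) (.p (nat_lit 46) (nat_lit 36) .z) .df .leaf))))))

noncomputable def dF6aa_t1 : Tr := (.nd (.nd (.nd (.nd (.nd (.nd (.nd .leaf (nat_lit 20484) (nat_lit 121) (.n (nat_lit 72) (nat_lit 36) (.p (nat_lit 74) (nat_lit 36) (.p (nat_lit 75) (nat_lit 36) (.n (nat_lit 76) (nat_lit 36) (.n (nat_lit 78) (nat_lit 36) (.p (nat_lit 79) (nat_lit 36) (.n (nat_lit 80) (nat_lit 36) (.p (nat_lit 82) (nat_lit 36) (.n (nat_lit 83) (nat_lit 36) (.p (nat_lit 84) (nat_lit 36) (.n (nat_lit 85) (nat_lit 36) .z))))))))))) (.ct dF6aa_c530 (nat_lit 36) (nat_lit 3) (.s true (nat_lit 1) (nat_lit 6) (nat_lit 1) (nat_lit 2) (nat_lit 0) true (nat_lit 3) true (nat_lit 7) true (nat_lit 2) true (nat_lit 6) true (nat_lit 5) (.e true (nat_lit 36) (nat_lit 44) (nat_lit 0) (nat_lit 7) (.e true (nat_lit 36) (nat_lit 17) (nat_lit 6) (nat_lit 2) (.e false (nat_lit 36) (nat_lit 31) (nat_lit 2) (nat_lit 5) .nil))))) .leaf) (nat_lit 20485) (nat_lit 145) (.p (nat_lit 88) (nat_lit 36) (.p (nat_lit 89) (nat_lit 36) (.n (nat_lit 91) (nat_lit 36) (.n (nat_lit 95) (nat_lit 36) (.p (nat_lit 99) (nat_lit 36) .z))))) (.ct dF6aa_c290 (nat_lit 36) (nat_lit 3) (.s true (nat_lit 1) (nat_lit 5) (nat_lit 0) (nat_lit 2) (nat_lit 2) true (nat_lit 2) true (nat_lit 5) true (nat_lit 3) true (nat_lit 7) true (nat_lit 5) (.e true (nat_lit 36) (nat_lit 18) (nat_lit 6) (nat_lit 2) (.e true (nat_lit 36) (nat_lit 35) (nat_lit 2) (nat_lit 5) (.e true (nat_lit 72) (nat_lit 50) (nat_lit 0) (nat_lit 7) (.e false (nat_lit 72) (nat_lit 51) (nat_lit 0) (nat_lit 7) (.e false (nat_lit 36) (nat_lit 39) (nat_lit 2) (nat_lit 5) .nil))))))) (.nd .leaf (nat_lit 20486) (nat_lit 158) (.n (nat_lit 101) (nat_lit 18) (.p (nat_lit 102) (nat_lit 18) (.n (nat_lit 103) (nat_lit 18) (.p (nat_lit 104) (nat_lit 18) .z)))) (.ct dF6aa_c515 (nat_lit 72) (nat_lit 1) (.s true (nat_lit 1) (nat_lit 6) (nat_lit 0) (nat_lit 2) (nat_lit 2) true (nat_lit 1) true (nat_lit 3) true (nat_lit 1) true (nat_lit 4) true (nat_lit 3) (.e true (nat_lit 36) (nat_lit 41) (nat_lit 2) (nat_lit 3) (.e true (nat_lit 36) (nat_lit 53) (nat_lit 0) (nat_lit 4) (.e false (nat_lit 36) (nat_lit 54) (nat_lit 0) (nat_lit 4) (.e false (nat_lit 36) (nat_lit 42) (nat_lit 2) (nat_lit 3) .nil)))))) .leaf)) (nat_lit 20487) (nat_lit 171) (.p (nat_lit 116) (nat_lit 36) .z) .df (.nd (.nd .leaf (nat_lit 20491) (nat_lit 266) (.p (nat_lit 138) (nat_lit 36) (.n (nat_lit 140) (nat_lit 36) (.n (nat_lit 144) (nat_lit 36) (.n (nat_lit 145) (nat_lit 36) (.p (nat_lit 146) (nat_lit 36) (.p (nat_lit 148) (nat_lit 36) (.n (nat_lit 150) (nat_lit 36) (.p (nat_lit 155) (nat_lit 36) .z)))))))) (.ct dF6aa_c546 (nat_lit 36) (nat_lit 2) (.s false (nat_lit 1) (nat_lit 20) (nat_lit 0) (nat_lit 1) (nat_lit 1) true (nat_lit 8) true (nat_lit 11) false (nat_lit 2) true (nat_lit 12) true (nat_lit 11) (.e false (nat_lit 36) (nat_lit 46) (nat_lit 4) (nat_lit 8) (.e false (nat_lit 36) (nat_lit 79) (nat_lit 1) (nat_lit 11) (.e true (nat_lit 36) (nat_lit 88) (nat_lit 0) (nat_lit 12) (.e true (nat_lit 36) (nat_lit 89) (nat_lit 0) (nat_lit 12) (.e false (nat_lit 36) (nat_lit 91) (nat_lit 0) (nat_lit 12) (.e false (nat_lit 36) (nat_lit 95) (nat_lit 0) (nat_lit 12) (.e true (nat_lit 36) (nat_lit 99) (nat_lit 0) (nat_lit 12) (.e true (nat_lit 36) (nat_lit 82) (nat_lit 1) (nat_lit 11) .nil)))))))))) .leaf) (nat_lit 20492) (nat_lit 262) (.p (nat_lit 123) (nat_lit 232) (.n (nat_lit 124) (nat_lit 88) (.p (nat_lit 126) (nat_lit 188) (.p (nat_lit 127) (nat_lit 112) (.n (nat_lit 128) (nat_lit 224) (.p (nat_lit 129) (nat_lit 128) (.n (nat_lit 130) (nat_lit 196) (.p (nat_lit 131) (nat_lit 284) (.n (nat_lit 132) (nat_lit 196) (.n (nat_lit 133) (nat_lit 144) (.p (nat_lit 134) (nat_lit 84) (.p (nat_lit 135) (nat_lit 72) (.n (nat_lit 136) (nat_lit 460) (.p (nat_lit 137) (nat_lit 144) (.n (nat_lit 138) (nat_lit 632) (.p (nat_lit 139) (nat_lit 220) (.n (nat_lit 140) (nat_lit 72) (.p (nat_lit 141) (nat_lit 172) (.n (nat_lit 142) (nat_lit 512) (.p (nat_lit 143) (nat_lit 460) (.p (nat_lit 144) (nat_lit 464) (.p (nat_lit 145) (nat_lit 464) (.n (nat_lit 146) (nat_lit 464) (.n (nat_lit 148) (nat_lit 168) (.n (nat_lit 149) (nat_lit 392) (.p (nat_lit 150) (nat_lit 464) (.n (nat_lit 151) (nat_lit 60) (.n (nat_lit 152) (nat_lit 264) (.n (nat_lit 153) (nat_lit 216) (.n (nat_lit 155) (nat_lit 264) .z)))))))))))))))))))))))))))))) (.ct dF6aa_c546 (nat_lit 36) (nat_lit 2) (.s false (nat_lit 1) (nat_lit 20) (nat_lit 1) (nat_lit 1) (nat_lit 0) true (nat_lit 8) true (nat_lit 12) false (nat_lit 2) true (nat_lit 11) true (nat_lit 11) (.e false (nat_lit 36) (nat_lit 46) (nat_lit 4) (nat_lit 8) (.e false (nat_lit 36) (nat_lit 94) (nat_lit 0) (nat_lit 12) (.e false (nat_lit 36) (nat_lit 72) (nat_lit 1) (nat_lit 11) (.e true (nat_lit 36) (nat_lit 74) (nat_lit 1) (nat_lit 11) (.e true (nat_lit 36) (nat_lit 75) (nat_lit 1) (nat_lit 11) (.e false (nat_lit 36) (nat_lit 76) (nat_lit 1) (nat_lit 11) (.e false (nat_lit 36) (nat_lit 78) (nat_lit 1) (nat_lit 11) (.e true (nat_lit 72) (nat_lit 79) (nat_lit 1) (nat_lit 11) (.e false (nat_lit 36) (nat_lit 80) (nat_lit 1) (nat_lit 11) (.e true (nat_lit 36) (nat_lit 82) (nat_lit 1) (nat_lit 11) (.e false (nat_lit 36) (nat_lit 83) (nat_lit 1) (nat_lit 11) (.e true (nat_lit 36) (nat_lit 84) (nat_lit 1) (nat_lit 11) (.e false (nat_lit 36) (nat_lit 85) (nat_lit 1) (nat_lit 11) .nil))))))))))))))) .leaf)) (nat_lit 20495) (nat_lit 337) (.p (nat_lit 159) (nat_lit 36) (.n (nat_lit 164) (nat_lit 36) (.n (nat_lit 175) (nat_lit 36) (.p (nat_lit 177) (nat_lit 36) .z)))) (.ct dF6aa_c531 (nat_lit 36) (nat_lit 0) (.s false (nat_lit 1) (nat_lit 15) (nat_lit 0) (nat_lit 2) (nat_lit 2) true (nat_lit 5) true (nat_lit 8) true (nat_lit 0) true (nat_lit 10) true (nat_lit 8) (.e false (nat_lit 36) (nat_lit 43) (nat_lit 6) (nat_lit 5) (.e false (nat_lit 36) (nat_lit 75) (nat_lit 2) (nat_lit 8) (.e true (nat_lit 36) (nat_lit 115) (nat_lit 0) (nat_lit 10) (.e true (nat_lit 36) (nat_lit 80) (nat_lit 2) (nat_lit 8) .nil)))))) (.nd (.nd (.nd .leaf (nat_lit 20496) (nat_lit 331) (.n (nat_lit 156) (nat_lit 36) (.p (nat_lit 157) (nat_lit 72) (.p (nat_lit 158) (nat_lit 108) (.n (nat_lit 159) (nat_lit 36) (.n (nat_lit 160) (nat_lit 36) (.p (nat_lit 161) (nat_lit 36) (.n (nat_lit 162) (nat_lit 108) (.n (nat_lit 163) (nat_lit 36) (.n (nat_lit 165) (nat_lit 36) (.n (nat_lit 166) (nat_lit 72) (.p (nat_lit 167) (nat_lit 36) (.n (nat_lit 169) (nat_lit 36) (.p (nat_lit 170) (nat_lit 72) (.p (nat_lit 174) (nat_lit 36) (.n (nat_lit 175) (nat_lit 36) (.n (nat_lit 176) (nat_lit 36) (.p (nat_lit 177) (nat_lit 36) .z))))))))))))))))) (.ct dF6aa_c531 (nat_lit 36) (nat_lit 0) (.s false (nat_lit 1) (nat_lit 6) (nat_lit 1) (nat_lit 2) (nat_lit 6) true (nat_lit 0) true (nat_lit 5) true (nat_lit 5) true (nat_lit 9) true (nat_lit 8) (.e false (nat_lit 36) (nat_lit 43) (nat_lit 6) (nat_lit 5) (.e false (nat_lit 36) (nat_lit 47) (nat_lit 6) (nat_lit 5) (.e true (nat_lit 36) (nat_lit 48) (nat_lit 6) (nat_lit 5) (.e true (nat_lit 18) (nat_lit 101) (nat_lit 1) (nat_lit 9) (.e false (nat_lit 18) (nat_lit 102) (nat_lit 1) (nat_lit 9) (.e true (nat_lit 18) (nat_lit 103) (nat_lit 1) (nat_lit 9) (.e false (nat_lit 18) (nat_lit 104) (nat_lit 1) (nat_lit 9) .nil))))))))) .leaf) (nat_lit 20497) (nat_lit 328) (.p (nat_lit 156) (nat_lit 324) (.n (nat_lit 157) (nat_lit 360) (.n (nat_lit 158) (nat_lit 720) (.n (nat_lit 159) (nat_lit 72) (.p (nat_lit 160) (nat_lit 252) (.n (nat_lit 161) (nat_lit 72) (.p (nat_lit 162) (nat_lit 648) (.p (nat_lit 163) (nat_lit 72) (.p (nat_lit 164) (nat_lit 72) (.n (nat_lit 165) (nat_lit 36) (.p (nat_lit 166) (nat_lit 180) (.n (nat_lit 167) (nat_lit 144) (.p (nat_lit 168) (nat_lit 36) (.p (nat_lit 169) (nat_lit 180) (.n (nat_lit 170) (nat_lit 288) (.p (nat_lit 171) (nat_lit 180) (.p (nat_lit 172) (nat_lit 216) (.n (nat_lit 173) (nat_lit 72) (.n (nat_lit 174) (nat_lit 216) (.p (nat_lit 175) (nat_lit 288) (.p (nat_lit 177) (nat_lit 36) .z))))))))))))))))))))) (.ct dF6aa_c531 (nat_lit 36) (nat_lit 0) (.s false (nat_lit 1) (nat_lit 17) (nat_lit 2) (nat_lit 0) (nat_lit 2) true (nat_lit 3) true (nat_lit 8) true (nat_lit 0) true (nat_lit 8) true (nat_lit 10) (.e false (nat_lit 36) (nat_lit 33) (nat_lit 8) (nat_lit 3) (.e true (nat_lit 36) (nat_lit 73) (nat_lit 2) (nat_lit 8) (.e true (nat_lit 36) (nat_lit 74) (nat_lit 2) (nat_lit 8) (.e false (nat_lit 36) (nat_lit 75) (nat_lit 2) (nat_lit 8) (.e false (nat_lit 36) (nat_lit 82) (nat_lit 2) (nat_lit 8) (.e false (nat_lit 36) (nat_lit 84) (nat_lit 2) (nat_lit 8) (.e true (nat_lit 36) (nat_lit 85) (nat_lit 2) (nat_lit 8) (.e true (nat_lit 36) (nat_lit 108) (nat_lit 0) (nat_lit 10) .nil)))))))))) .leaf) (nat_lit 20498) (nat_lit 395) (.p (nat_lit 179) (nat_lit 84) (.n (nat_lit 180) (nat_lit 60) (.p (nat_lit 181) (nat_lit 48) (.n (nat_lit 182) (nat_lit 72) (.n (nat_lit 183) (nat_lit 60) (.p (nat_lit 185) (nat_lit 24) (.n (nat_lit 186) (nat_lit 60) (.n (nat_lit 187) (nat_lit 24) (.n (nat_lit 188) (nat_lit 84) (.n (nat_lit 189) (nat_lit 12) (.n (nat_lit 190) (nat_lit 24) (.p (nat_lit 191) (nat_lit 12) (.n (nat_lit 192) (nat_lit 84) (.n (nat_lit 193) (nat_lit 84) (.p (nat_lit 194) (nat_lit 24) (.p (nat_lit 195) (nat_lit 48) (.n (nat_lit 196) (nat_lit 36) (.n (nat_lit 197) (nat_lit 60) (.p (nat_lit 198) (nat_lit 48) (.n (nat_lit 199) (nat_lit 84) (.n (nat_lit 200) (nat_lit 24) (.n (nat_lit 201) (nat_lit 24) .z)))))))))))))))))))))) (.ct dF6aa_c291 (nat_lit 36) (nat_lit 0) (.s false (nat_lit 1) (nat_lit 18) (nat_lit 0) (nat_lit 2) (nat_lit 2) true (nat_lit 5) true (nat_lit 8) true (nat_lit 0) true (nat_lit 10) true (nat_lit 8) (.e false (nat_lit 36) (nat_lit 49) (nat_lit 6) (nat_lit 5) (.e false (nat_lit 36) (nat_lit 90) (nat_lit 2) (nat_lit 8) (.e true (nat_lit 36) (nat_lit 117) (nat_lit 0) (nat_lit 10) (.e false (nat_lit 108) (nat_lit 118) (nat_lit 0) (nat_lit 10) (.e true (nat_lit 36) (nat_lit 119) (nat_lit 0) (nat_lit 10) (.e true (nat_lit 36) (nat_lit 121) (nat_lit 0) (nat_lit 10) (.e true (nat_lit 36) (nat_lit 122) (nat_lit 0) (nat_lit 10) (.e true (nat_lit 36) (nat_lit 96) (nat_lit 2) (nat_lit 8) .nil)))))))))) (.nd (.nd .leaf (nat_lit 20499) (nat_lit 388) (.p (nat_lit 179) (nat_lit 147) (.n (nat_lit 180) (nat_lit 141) (.p (nat_lit 181) (nat_lit 3) (.n (nat_lit 182) (nat_lit 153) (.p (nat_lit 183) (nat_lit 75) (.p (nat_lit 184) (nat_lit 72) (.p (nat_lit 185) (nat_lit 114) (.n (nat_lit 186) (nat_lit 141) (.n (nat_lit 187) (nat_lit 240) (.n (nat_lit 188) (nat_lit 165) (.n (nat_lit 189) (nat_lit 12) (.p (nat_lit 190) (nat_lit 120) (.n (nat_lit 191) (nat_lit 294) (.n (nat_lit 192) (nat_lit 120) (.n (nat_lit 193) (nat_lit 147) (.n (nat_lit 194) (nat_lit 120) (.p (nat_lit 195) (nat_lit 156) (.n (nat_lit 196) (nat_lit 27) (.n (nat_lit 197) (nat_lit 123) (.p (nat_lit 198) (nat_lit 93) (.n (nat_lit 199) (nat_lit 201) (.n (nat_lit 200) (nat_lit 276) (.n (nat_lit 201) (nat_lit 42) .z))))))))))))))))))))))) (.ct dF6aa_c291 (nat_lit 36) (nat_lit 0) (.s false (nat_lit 1) (nat_lit 20) (nat_lit 2) (nat_lit 1) (nat_lit 1) true (nat_lit 4) true (nat_lit 9) false (nat_lit 0) true (nat_lit 8) true (nat_lit 9) (.e false (nat_lit 36) (nat_lit 46) (nat_lit 7) (nat_lit 4) (.e true (nat_lit 36) (nat_lit 106) (nat_lit 1) (nat_lit 9) (.e false (nat_lit 36) (nat_lit 107) (nat_lit 1) (nat_lit 9) (.e false (nat_lit 36) (nat_lit 108) (nat_lit 1) (nat_lit 9) (.e true (nat_lit 36) (nat_lit 112) (nat_lit 1) (nat_lit 9) (.e false (nat_lit 36) (nat_lit 115) (nat_lit 1) (nat_lit 9) (.e true (nat_lit 36) (nat_lit 116) (nat_lit 1) (nat_lit 9) (.e true (nat_lit 36) (nat_lit 88) (nat_lit 2) (nat_lit 8) (.e true (nat_lit 36) (nat_lit 89) (nat_lit 2) (nat_lit 8) (.e false (nat_lit 36) (nat_lit 91) (nat_lit 2) (nat_lit 8) (.e false (nat_lit 36) (nat_lit 95) (nat_lit 2) (nat_lit 8) (.e true (nat_lit 36) (nat_lit 99) (nat_lit 2) (nat_lit 8) .nil)))))))))))))) .leaf) (nat_lit 21504) (nat_lit 48) (.n (nat_lit 40) (nat_lit 36) (.p (nat_lit 41) (nat_lit 36) (.p (nat_lit 42) (nat_lit 36) .z))) (.ct dF6aa_c514 (nat_lit 36) (nat_lit 3) (.s false (nat_lit 1) (nat_lit 2) (nat_lit 0) (nat_lit 0) (nat_lit 2) true (nat_lit 0) true (nat_lit 2) true (nat_lit 2) true (nat_lit 3) true (nat_lit 3) (.a false (nat_lit 648) (nat_lit 6) (nat_lit 6) (nat_lit 0) (nat_lit 0) (.e false (nat_lit 36) (nat_lit 14) (nat_lit 2) (nat_lit 2) (.e true (nat_lit 36) (nat_lit 13) (nat_lit 2) (nat_lit 2) (.e false (nat_lit 36) (nat_lit 20) (nat_lit 0) (nat_lit 3) .nil)))))) .leaf))) (nat_lit 21505) (nat_lit 54) (.p (nat_lit 47) (nat_lit 36) .z) .df (.nd (.nd (.nd (.nd .leaf (nat_lit 21506) (nat_lit 65) (.p (nat_lit 53) (nat_lit 36) .z) .df .leaf) (nat_lit 21508) (nat_lit 118) (.n (nat_lit 72) (nat_lit 36) (.p (nat_lit 73) (nat_lit 36) (.p (nat_lit 74) (nat_lit 36) (.p (nat_lit 75) (nat_lit 36) (.n (nat_lit 76) (nat_lit 36) (.n (nat_lit 80) (nat_lit 36) (.n (nat_lit 85) (nat_lit 36) .z))))))) (.ct dF6aa_c530 (nat_lit 36) (nat_lit 3) (.s true (nat_lit 1) (nat_lit 4) (nat_lit 2) (nat_lit 2) (nat_lit 0) true (nat_lit 2) true (nat_lit 7) true (nat_lit 3) true (nat_lit 5) true (nat_lit 5) (.e true (nat_lit 36) (nat_lit 15) (nat_lit 6) (nat_lit 2) (.e true (nat_lit 36) (nat_lit 43) (nat_lit 0) (nat_lit 7) (.e true (nat_lit 36) (nat_lit 28) (nat_lit 2) (nat_lit 5) (.e false (nat_lit 36) (nat_lit 31) (nat_lit 2) (nat_lit 5) (.e false (nat_lit 36) (nat_lit 32) (nat_lit 2) (nat_lit 5) (.e true (nat_lit 36) (nat_lit 33) (nat_lit 2) (nat_lit 5) (.e false (nat_lit 36) (nat_lit 29) (nat_lit 2) (nat_lit 5) .nil))))))))) (.nd .leaf (nat_lit 21509) (nat_lit 149) (.p (nat_lit 87) (nat_lit 108) (.n (nat_lit 88) (nat_lit 72) (.p (nat_lit 89) (nat_lit 72) (.n (nat_lit 90) (nat_lit 72) (.n (nat_lit 92) (nat_lit 36) (.n (nat_lit 93) (nat_lit 36) (.n (nat_lit 96) (nat_lit 36) (.p (nat_lit 97) (nat_lit 72) (.n (nat_lit 99) (nat_lit 36) .z))))))))) (.ct dF6aa_c290 (nat_lit 36) (nat_lit 3) (.s true (nat_lit 1) (nat_lit 5) (nat_lit 2) (nat_lit 2) (nat_lit 0) true (nat_lit 2) true (nat_lit 7) true (nat_lit 3) true (nat_lit 5) true (nat_lit 5) (.e true (nat_lit 36) (nat_lit 18) (nat_lit 6) (nat_lit 2) (.e true (nat_lit 36) (nat_lit 49) (nat_lit 0) (nat_lit 7) (.e false (nat_lit 72) (nat_lit 36) (nat_lit 2) (nat_lit 5) (.e true (nat_lit 72) (nat_lit 37) (nat_lit 2) (nat_lit 5) (.e false (nat_lit 72) (nat_lit 38) (nat_lit 2) (nat_lit 5) (.e true (nat_lit 36) (nat_lit 39) (nat_lit 2) (nat_lit 5) .nil)))))))) .leaf)) (nat_lit 21510) (nat_lit 156) (.p (nat_lit 101) (nat_lit 72) (.n (nat_lit 102) (nat_lit 72) (.p (nat_lit 103) (nat_lit 36) (.n (nat_lit 104) (nat_lit 36) (.n (nat_lit 105) (nat_lit 36) .z))))) (.ct dF6aa_c515 (nat_lit 36) (nat_lit 1) (.s true (nat_lit 1) (nat_lit 8) (nat_lit 2) (nat_lit 0) (nat_lit 0) true (nat_lit 1) true (nat_lit 4) true (nat_lit 0) true (nat_lit 3) true (nat_lit 4) (.e true (nat_lit 36) (nat_lit 54) (nat_lit 0) (nat_lit 4) (.e true (nat_lit 36) (nat_lit 14) (nat_lit 8) (nat_lit 0) (.e false (nat_lit 72) (nat_lit 41) (nat_lit 2) (nat_lit 3) (.e true (nat_lit 72) (nat_lit 42) (nat_lit 2) (nat_lit 3) (.e false (nat_lit 36) (nat_lit 53) (nat_lit 0) (nat_lit 4) .nil))))))) (.nd (.nd .leaf (nat_lit 21511) (nat_lit 176) (.p (nat_lit 106) (nat_lit 72) (.n (nat_lit 107) (nat_lit 72) (.p (nat_lit 110) (nat_lit 36) (.n (nat_lit 111) (nat_lit 72) (.p (nat_lit 114) (nat_lit 36) (.n (nat_lit 115) (nat_lit 36) .z)))))) (.ct dF6aa_c275 (nat_lit 36) (nat_lit 1) (.s true (nat_lit 1) (nat_lit 8) (nat_lit 2) (nat_lit 0) (nat_lit 1) true (nat_lit 1) true (nat_lit 5) true (nat_lit 0) true (nat_lit 4) true (nat_lit 6) (.e true (nat_lit 36) (nat_lit 54) (nat_lit 1) (nat_lit 5) (.e true (nat_lit 36) (nat_lit 16) (nat_lit 8) (nat_lit 0) (.e false (nat_lit 36) (nat_lit 44) (nat_lit 2) (nat_lit 4) (.e false (nat_lit 36) (nat_lit 45) (nat_lit 2) (nat_lit 4) (.e true (nat_lit 36) (nat_lit 46) (nat_lit 2) (nat_lit 4) (.e true (nat_lit 36) (nat_lit 48) (nat_lit 2) (nat_lit 4) (.e false (nat_lit 36) (nat_lit 56) (nat_lit 0) (nat_lit 6) .nil))))))))) .leaf) (nat_lit 21515) (nat_lit 272) (.p (nat_lit 123) (nat_lit 344) (.n (nat_lit 124) (nat_lit 128) (.p (nat_lit 126) (nat_lit 280) (.p (nat_lit 127) (nat_lit 176) (.n (nat_lit 128) (nat_lit 352) (.p (nat_lit 129) (nat_lit 196) (.n (nat_lit 130) (nat_lit 308) (.p (nat_lit 131) (nat_lit 436) (.n (nat_lit 132) (nat_lit 308) (.n (nat_lit 133) (nat_lit 216) (.p (nat_lit 134) (nat_lit 168) (.p (nat_lit 135) (nat_lit 144) (.n (nat_lit 136) (nat_lit 764) (.p (nat_lit 137) (nat_lit 216) (.n (nat_lit 138) (nat_lit 1024) (.p (nat_lit 139) (nat_lit 428) (.n (nat_lit 140) (nat_lit 144) (.p (nat_lit 141) (nat_lit 296) (.n (nat_lit 142) (nat_lit 856) (.p (nat_lit 143) (nat_lit 764) (.p (nat_lit 144) (nat_lit 760) (.p (nat_lit 145) (nat_lit 760) (.n (nat_lit 146) (nat_lit 760) (.n (nat_lit 148) (nat_lit 264) (.n (nat_lit 149) (nat_lit 616) (.p (nat_lit 150) (nat_lit 760) (.n (nat_lit 151) (nat_lit 84) (.n (nat_lit 152) (nat_lit 384) (.n (nat_lit 153) (nat_lit 360) (.n (nat_lit 155) (nat_lit 456) .z)))))))))))))))))))))))))))))) (.ct dF6aa_c546 (nat_lit 36) (nat_lit 2) (.s false (nat_lit 1) (nat_lit 11) (nat_lit 2) (nat_lit 2) (nat_lit 0) true (nat_lit 6) true (nat_lit 12) true (nat_lit 2) true (nat_lit 10) true (nat_lit 10) (.e false (nat_lit 36) (nat_lit 34) (nat_lit 6) (nat_lit 6) (.e false (nat_lit 36) (nat_lit 86) (nat_lit 0) (nat_lit 12) (.e false (nat_lit 36) (nat_lit 59) (nat_lit 2) (nat_lit 10) (.e true (nat_lit 36) (nat_lit 61) (nat_lit 2) (nat_lit 10) (.e true (nat_lit 36) (nat_lit 66) (nat_lit 2) (nat_lit 10) (.e false (nat_lit 36) (nat_lit 71) (nat_lit 2) (nat_lit 10) .nil)))))))) .leaf)) (nat_lit 21516) (nat_lit 267) (.n (nat_lit 123) (nat_lit 152) (.p (nat_lit 124) (nat_lit 44) (.p (nat_lit 125) (nat_lit 72) (.n (nat_lit 126) (nat_lit 148) (.n (nat_lit 127) (nat_lit 56) (.p (nat_lit 128) (nat_lit 112) (.n (nat_lit 129) (nat_lit 100) (.p (nat_lit 130) (nat_lit 116) (.n (nat_lit 131) (nat_lit 196) (.p (nat_lit 132) (nat_lit 116) (.p (nat_lit 133) (nat_lit 72) (.n (nat_lit 134) (nat_lit 96) (.p (nat_lit 136) (nat_lit 284) (.n (nat_lit 137) (nat_lit 72) (.p (nat_lit 138) (nat_lit 496) (.n (nat_lit 139) (nat_lit 164) (.n (nat_lit 140) (nat_lit 72) (.n (nat_lit 141) (nat_lit 140) (.p (nat_lit 142) (nat_lit 328) (.n (nat_lit 143) (nat_lit 284) (.n (nat_lit 144) (nat_lit 376) (.n (nat_lit 145) (nat_lit 376) (.p (nat_lit 146) (nat_lit 376) (.p (nat_lit 148) (nat_lit 192) (.p (nat_lit 149) (nat_lit 232) (.n (nat_lit 150) (nat_lit 376) (.p (nat_lit 151) (nat_lit 48) (.p (nat_lit 152) (nat_lit 96) (.p (nat_lit 153) (nat_lit 72) (.p (nat_lit 155) (nat_lit 240) .z)))))))))))))))))))))))))))))) (.ct dF6aa_c546 (nat_lit 36) (nat_lit 2) (.s false (nat_lit 1) (nat_lit 21) (nat_lit 1) (nat_lit 1) (nat_lit 0) true (nat_lit 8) true (nat_lit 12) false (nat_lit 2) true (nat_lit 11) true (nat_lit 11) (.e false (nat_lit 36) (nat_lit 47) (nat_lit 4) (nat_lit 8) (.e false (nat_lit 36) (nat_lit 95) (nat_lit 0) (nat_lit 12) (.e false (nat_lit 36) (nat_lit 72) (nat_lit 1) (nat_lit 11) (.e true (nat_lit 36) (nat_lit 73) (nat_lit 1) (nat_lit 11) (.e true (nat_lit 36) (nat_lit 74) (nat_lit 1) (nat_lit 11) (.e true (nat_lit 36) (nat_lit 75) (nat_lit 1) (nat_lit 11) (.e false (nat_lit 36) (nat_lit 76) (nat_lit 1) (nat_lit 11) (.e false (nat_lit 36) (nat_lit 80) (nat_lit 1) (nat_lit 11) (.e false (nat_lit 36) (nat_lit 85) (nat_lit 1) (nat_lit 11) (.e false (nat_lit 36) (nat_lit 77) (nat_lit 1) (nat_lit 11) (.e true (nat_lit 36) (nat_lit 78) (nat_lit 1) (nat_lit 11) (.e true (nat_lit 36) (nat_lit 79) (nat_lit 1) (nat_lit 11) .nil)))))))))))))) (.nd (.nd (.nd .leaf (nat_lit 21519) (nat_lit 339) (.n (nat_lit 156) (nat_lit 216) (.p (nat_lit 157) (nat_lit 288) (.p (nat_lit 158) (nat_lit 504) (.n (nat_lit 160) (nat_lit 144) (.p (nat_lit 161) (nat_lit 72) (.n (nat_lit 162) (nat_lit 468) (.n (nat_lit 163) (nat_lit 108) (.n (nat_lit 164) (nat_lit 72) (.n (nat_lit 165) (nat_lit 36) (.n (nat_lit 166) (nat_lit 180) (.p (nat_lit 167) (nat_lit 144) (.n (nat_lit 168) (nat_lit 36) (.n (nat_lit 169) (nat_lit 108) (.p (nat_lit 170) (nat_lit 252) (.n (nat_lit 171) (nat_lit 72) (.n (nat_lit 172) (nat_lit 144) (.p (nat_lit 173) (nat_lit 72) (.p (nat_lit 174) (nat_lit 144) (.n (nat_lit 175) (nat_lit 216) (.p (nat_lit 177) (nat_lit 36) .z)))))))))))))))))))) (.ct dF6aa_c531 (nat_lit 36) (nat_lit 0) (.s false (nat_lit 1) (nat_lit 15) (nat_lit 2) (nat_lit 2) (nat_lit 0) true (nat_lit 5) true (nat_lit 10) true (nat_lit 0) true (nat_lit 8) true (nat_lit 8) (.e false (nat_lit 36) (nat_lit 43) (nat_lit 6) (nat_lit 5) (.e false (nat_lit 36) (nat_lit 106) (nat_lit 0) (nat_lit 10) (.e true (nat_lit 36) (nat_lit 85) (nat_lit 2) (nat_lit 8) (.e true (nat_lit 36) (nat_lit 75) (nat_lit 2) (nat_lit 8) .nil)))))) .leaf) (nat_lit 21520) (nat_lit 326) (.p (nat_lit 156) (nat_lit 828) (.n (nat_lit 157) (nat_lit 936) (.n (nat_lit 158) (nat_lit 1728) (.n (nat_lit 159) (nat_lit 216) (.p (nat_lit 160) (nat_lit 648) (.n (nat_lit 161) (nat_lit 180) (.p (nat_lit 162) (nat_lit 1620) (.p (nat_lit 163) (nat_lit 252) (.p (nat_lit 164) (nat_lit 144) (.n (nat_lit 165) (nat_lit 72) (.p (nat_lit 166) (nat_lit 504) (.n (nat_lit 167) (nat_lit 432) (.p (nat_lit 168) (nat_lit 144) (.p (nat_lit 169) (nat_lit 360) (.n (nat_lit 170) (nat_lit 648) (.p (nat_lit 171) (nat_lit 432) (.p (nat_lit 172) (nat_lit 576) (.n (nat_lit 173) (nat_lit 288) (.n (nat_lit 174) (nat_lit 468) (.p (nat_lit 175) (nat_lit 684) (.n (nat_lit 176) (nat_lit 72) (.p (nat_lit 177) (nat_lit 216) .z)))))))))))))))))))))) (.ct dF6aa_c531 (nat_lit 36) (nat_lit 0) (.s false (nat_lit 1) (nat_lit 21) (nat_lit 0) (nat_lit 2) (nat_lit 1) true (nat_lit 6) true (nat_lit 9) false (nat_lit 0) true (nat_lit 10) true (nat_lit 8) (.e false (nat_lit 36) (nat_lit 53) (nat_lit 4) (nat_lit 6) (.e true (nat_lit 36) (nat_lit 100) (nat_lit 1) (nat_lit 9) (.e false (nat_lit 36) (nat_lit 101) (nat_lit 1) (nat_lit 9) (.e false (nat_lit 36) (nat_lit 102) (nat_lit 1) (nat_lit 9) (.e true (nat_lit 72) (nat_lit 106) (nat_lit 0) (nat_lit 10) (.e false (nat_lit 72) (nat_lit 107) (nat_lit 0) (nat_lit 10) (.e true (nat_lit 36) (nat_lit 110) (nat_lit 0) (nat_lit 10) (.e false (nat_lit 72) (nat_lit 111) (nat_lit 0) (nat_lit 10) (.e true (nat_lit 36) (nat_lit 114) (nat_lit 0) (nat_lit 10) (.e false (nat_lit 36) (nat_lit 115) (nat_lit 0) (nat_lit 10) (.e true (nat_lit 36) (nat_lit 83) (nat_lit 2) (nat_lit 8) .nil))))))))))))) .leaf) (nat_lit 21521) (nat_lit 329) (.n (nat_lit 156) (nat_lit 324) (.p (nat_lit 157) (nat_lit 324) (.p (nat_lit 158) (nat_lit 612) (.p (nat_lit 159) (nat_lit 144) (.n (nat_lit 160) (nat_lit 288) (.p (nat_lit 161) (nat_lit 36) (.n (nat_lit 162) (nat_lit 612) (.n (nat_lit 163) (nat_lit 72) (.n (nat_lit 164) (nat_lit 36) (.p (nat_lit 165) (nat_lit 36) (.n (nat_lit 166) (nat_lit 180) (.p (nat_lit 167) (nat_lit 180) (.n (nat_lit 168) (nat_lit 72) (.n (nat_lit 169) (nat_lit 108) (.p (nat_lit 170) (nat_lit 180) (.n (nat_lit 171) (nat_lit 180) (.n (nat_lit 172) (nat_lit 216) (.p (nat_lit 173) (nat_lit 144) (.p (nat_lit 174) (nat_lit 144) (.n (nat_lit 175) (nat_lit 252) (.p (nat_lit 176) (nat_lit 36) (.n (nat_lit 177) (nat_lit 144) .z)))))))))))))))))))))) (.ct dF6aa_c531 (nat_lit 36) (nat_lit 0) (.s false (nat_lit 1) (nat_lit 21) (nat_lit 1) (nat_lit 2) (nat_lit 0) true (nat_lit 6) true (nat_lit 10) false (nat_lit 0) true (nat_lit 9) true (nat_lit 8) (.e false (nat_lit 36) (nat_lit 53) (nat_lit 4) (nat_lit 6) (.e false (nat_lit 36) (nat_lit 110) (nat_lit 0) (nat_lit 10) (.e true (nat_lit 72) (nat_lit 101) (nat_lit 1) (nat_lit 9) (.e false (nat_lit 72) (nat_lit 102) (nat_lit 1) (nat_lit 9) (.e true (nat_lit 36) (nat_lit 103) (nat_lit 1) (nat_lit 9) (.e false (nat_lit 36) (nat_lit 104) (nat_lit 1) (nat_lit 9) (.e false (nat_lit 36) (nat_lit 105) (nat_lit 1) (nat_lit 9) (.e false (nat_lit 36) (nat_lit 77) (nat_lit 2) (nat_lit 8) (.e true (nat_lit 36) (nat_lit 78) (nat_lit 2) (nat_lit 8) (.e true (nat_lit 36) (nat_lit 79) (nat_lit 2) (nat_lit 8) .nil)))))))))))) (.nd (.nd .leaf (nat_lit 21522) (nat_lit 399) (.p (nat_lit 179) (nat_lit 21) (.n (nat_lit 180) (nat_lit 15) (.n (nat_lit 181) (nat_lit 87) (.p (nat_lit 182) (nat_lit 9) (.p (nat_lit 183) (nat_lit 57) (.p (nat_lit 184) (nat_lit 72) (.p (nat_lit 185) (nat_lit 42) (.n (nat_lit 186) (nat_lit 15) (.n (nat_lit 187) (nat_lit 168) (.n (nat_lit 188) (nat_lit 111) (.n (nat_lit 189) (nat_lit 12) (.p (nat_lit 190) (nat_lit 84) (.n (nat_lit 191) (nat_lit 150) (.n (nat_lit 192) (nat_lit 12) (.p (nat_lit 193) (nat_lit 15) (.n (nat_lit 194) (nat_lit 120) (.p (nat_lit 195) (nat_lit 48) (.p (nat_lit 196) (nat_lit 27) (.n (nat_lit 197) (nat_lit 33) (.n (nat_lit 198) (nat_lit 69) (.n (nat_lit 199) (nat_lit 75) (.n (nat_lit 200) (nat_lit 132) (.p (nat_lit 201) (nat_lit 30) .z))))))))))))))))))))))) (.ct dF6aa_c291 (nat_lit 36) (nat_lit 0) (.s false (nat_lit 1) (nat_lit 18) (nat_lit 2) (nat_lit 2) (nat_lit 0) true (nat_lit 5) true (nat_lit 10) true (nat_lit 0) true (nat_lit 8) true (nat_lit 8) (.e false (nat_lit 36) (nat_lit 49) (nat_lit 6) (nat_lit 5) (.e false (nat_lit 36) (nat_lit 117) (nat_lit 0) (nat_lit 10) (.e false (nat_lit 36) (nat_lit 87) (nat_lit 2) (nat_lit 8) (.e true (nat_lit 72) (nat_lit 90) (nat_lit 2) (nat_lit 8) (.e true (nat_lit 36) (nat_lit 92) (nat_lit 2) (nat_lit 8) (.e true (nat_lit 36) (nat_lit 93) (nat_lit 2) (nat_lit 8) (.e false (nat_lit 72) (nat_lit 97) (nat_lit 2) (nat_lit 8) (.e true (nat_lit 36) (nat_lit 99) (nat_lit 2) (nat_lit 8) .nil)))))))))) .leaf) (nat_lit 21523) (nat_lit 398) (.p (nat_lit 179) (nat_lit 81) (.n (nat_lit 180) (nat_lit 27) (.p (nat_lit 181) (nat_lit 45) (.n (nat_lit 182) (nat_lit 99) (.n (nat_lit 183) (nat_lit 27) (.p (nat_lit 185) (nat_lit 18) (.n (nat_lit 186) (nat_lit 27) (.n (nat_lit 187) (nat_lit 36) (.n (nat_lit 188) (nat_lit 63) (.n (nat_lit 191) (nat_lit 18) (.n (nat_lit 192) (nat_lit 72) (.n (nat_lit 193) (nat_lit 81) (.p (nat_lit 194) (nat_lit 36) (.p (nat_lit 195) (nat_lit 36) (.n (nat_lit 196) (nat_lit 45) (.n (nat_lit 197) (nat_lit 45) (.p (nat_lit 198) (nat_lit 63) (.n (nat_lit 199) (nat_lit 63) (.n (nat_lit 200) (nat_lit 36) (.n (nat_lit 201) (nat_lit 18) .z)))))))))))))))))))) (.ct dF6aa_c291 (nat_lit 36) (nat_lit 0) (.s false (nat_lit 1) (nat_lit 21) (nat_lit 1) (nat_lit 2) (nat_lit 1) true (nat_lit 6) true (nat_lit 9) false (nat_lit 0) true (nat_lit 9) true (nat_lit 8) (.e false (nat_lit 36) (nat_lit 53) (nat_lit 5) (nat_lit 6) (.e true (nat_lit 72) (nat_lit 106) (nat_lit 1) (nat_lit 9) (.e false (nat_lit 72) (nat_lit 107) (nat_lit 1) (nat_lit 9) (.e false (nat_lit 72) (nat_lit 111) (nat_lit 1) (nat_lit 9) (.e true (nat_lit 36) (nat_lit 114) (nat_lit 1) (nat_lit 9) (.e false (nat_lit 36) (nat_lit 115) (nat_lit 1) (nat_lit 9) (.e true (nat_lit 36) (nat_lit 95) (nat_lit 2) (nat_lit 8) .nil))))))))) .leaf)))) (nat_lit 22528) (nat_lit 55) (.p (nat_lit 48) (nat_lit 36) .z) .df (.nd (.nd (.nd (.nd (.nd .leaf (nat_lit 22529) (nat_lit 61) (.p (nat_lit 51) (nat_lit 36) .z) .df .leaf) (nat_lit 22530) (nat_lit 68) (.p (nat_lit 55) (nat_lit 36) .z) .df (.nd .leaf (nat_lit 22531) (nat_lit 120) (.n (nat_lit 72) (nat_lit 72) (.p (nat_lit 73) (nat_lit 36) (.p (nat_lit 74) (nat_lit 36) (.p (nat_lit 75) (nat_lit 36) (.n (nat_lit 76) (nat_lit 36) (.n (nat_lit 78) (nat_lit 36) (.p (nat_lit 79) (nat_lit 108) (.n (nat_lit 80) (nat_lit 36) (.n (nat_lit 83) (nat_lit 36) (.n (nat_lit 85) (nat_lit 36) .z)))))))))) (.ct dF6aa_c530 (nat_lit 36) (nat_lit 4) (.s true (nat_lit 1) (nat_lit 3) (nat_lit 1) (nat_lit 2) (nat_lit 2) true (nat_lit 1) true (nat_lit 5) true (nat_lit 4) true (nat_lit 6) true (nat_lit 5) (.e true (nat_lit 36) (nat_lit 13) (nat_lit 7) (nat_lit 1) (.e true (nat_lit 36) (nat_lit 28) (nat_lit 2) (nat_lit 5) (.e true (nat_lit 72) (nat_lit 41) (nat_lit 1) (nat_lit 6) (.e false (nat_lit 72) (nat_lit 42) (nat_lit 1) (nat_lit 6) (.e false (nat_lit 36) (nat_lit 30) (nat_lit 2) (nat_lit 5) .nil))))))) .leaf)) (nat_lit 22532) (nat_lit 138) (.n (nat_lit 86) (nat_lit 36) (.p (nat_lit 88) (nat_lit 36) (.n (nat_lit 89) (nat_lit 36) (.p (nat_lit 90) (nat_lit 36) (.p (nat_lit 91) (nat_lit 36) (.n (nat_lit 92) (nat_lit 36) (.n (nat_lit 93) (nat_lit 36) (.p (nat_lit 95) (nat_lit 36) (.n (nat_lit 97) (nat_lit 36) (.p (nat_lit 98) (nat_lit 36) (.n (nat_lit 99) (nat_lit 36) .z))))))))))) (.ct dF6aa_c290 (nat_lit 36) (nat_lit 4) (.s true (nat_lit 1) (nat_lit 7) (nat_lit 0) (nat_lit 2) (nat_lit 1) true (nat_lit 4) true (nat_lit 6) true (nat_lit 1) true (nat_lit 7) true (nat_lit 5) (.s true (nat_lit 1) (nat_lit 7) (nat_lit 1) (nat_lit 0) (nat_lit 2) true (nat_lit 1) true (nat_lit 5) true (nat_lit 1) true (nat_lit 6) true (nat_lit 7) (.s false (nat_lit 1) (nat_lit 7) (nat_lit 2) (nat_lit 0) (nat_lit 1) true (nat_lit 1) true (nat_lit 6) true (nat_lit 1) true (nat_lit 5) true (nat_lit 7) (.e true (nat_lit 36) (nat_lit 45) (nat_lit 1) (nat_lit 6) (.e true (nat_lit 36) (nat_lit 34) (nat_lit 2) (nat_lit 5) (.e false (nat_lit 36) (nat_lit 37) (nat_lit 2) (nat_lit 5) (.e true (nat_lit 36) (nat_lit 38) (nat_lit 2) (nat_lit 5) (.e false (nat_lit 36) (nat_lit 39) (nat_lit 2) (nat_lit 5) (.e true (nat_lit 36) (nat_lit 15) (nat_lit 7) (nat_lit 1) (.e false (nat_lit 36) (nat_lit 43) (nat_lit 1) (nat_lit 6) (.e true (nat_lit 36) (nat_lit 44) (nat_lit 1) (nat_lit 6) (.e false (nat_lit 36) (nat_lit 47) (nat_lit 1) (nat_lit 6) (.e false (nat_lit 36) (nat_lit 51) (nat_lit 0) (nat_lit 7) (.e true (nat_lit 36) (nat_lit 50) (nat_lit 0) (nat_lit 7) .nil))))))))))))))) (.nd (.nd .leaf (nat_lit 22534) (nat_lit 175) (.n (nat_lit 107) (nat_lit 36) (.p (nat_lit 109) (nat_lit 36) (.n (nat_lit 112) (nat_lit 36) (.p (nat_lit 113) (nat_lit 36) (.n (nat_lit 116) (nat_lit 36) .z))))) (.ct dF6aa_c275 (nat_lit 36) (nat_lit 2) (.s true (nat_lit 1) (nat_lit 6) (nat_lit 1) (nat_lit 2) (nat_lit 2) true (nat_lit 1) true (nat_lit 4) true (nat_lit 2) true (nat_lit 5) true (nat_lit 4) (.e true (nat_lit 36) (nat_lit 20) (nat_lit 7) (nat_lit 1) (.e true (nat_lit 36) (nat_lit 44) (nat_lit 2) (nat_lit 4) (.e true (nat_lit 36) (nat_lit 53) (nat_lit 1) (nat_lit 5) (.e false (nat_lit 36) (nat_lit 54) (nat_lit 1) (nat_lit 5) (.e false (nat_lit 36) (nat_lit 46) (nat_lit 2) (nat_lit 4) .nil))))))) .leaf) (nat_lit 22535) (nat_lit 189) (.n (nat_lit 118) (nat_lit 18) (.p (nat_lit 119) (nat_lit 18) (.n (nat_lit 120) (nat_lit 18) (.p (nat_lit 121) (nat_lit 18) .z)))) (.ct dF6aa_c35 (nat_lit 72) (nat_lit 1) (.s true (nat_lit 1) (nat_lit 7) (nat_lit 1) (nat_lit 2) (nat_lit 2) true (nat_lit 1) true (nat_lit 3) true (nat_lit 1) true (nat_lit 4) true (nat_lit 3) (.e true (nat_lit 36) (nat_lit 50) (nat_lit 2) (nat_lit 3) (.e true (nat_lit 36) (nat_lit 56) (nat_lit 1) (nat_lit 4) (.e false (nat_lit 36) (nat_lit 57) (nat_lit 1) (nat_lit 4) (.e false (nat_lit 36) (nat_lit 51) (nat_lit 2) (nat_lit 3) .nil)))))) .leaf)) (nat_lit 22537) (nat_lit 264) (.p (nat_lit 123) (nat_lit 176) (.n (nat_lit 124) (nat_lit 68) (.p (nat_lit 126) (nat_lit 268) (.p (nat_lit 127) (nat_lit 224) (.n (nat_lit 128) (nat_lit 232) (.p (nat_lit 129) (nat_lit 148) (.n (nat_lit 130) (nat_lit 212) (.p (nat_lit 131) (nat_lit 316) (.n (nat_lit 132) (nat_lit 212) (.n (nat_lit 133) (nat_lit 288) (.p (nat_lit 134) (nat_lit 132) (.p (nat_lit 135) (nat_lit 72) (.n (nat_lit 136) (nat_lit 596) (.p (nat_lit 137) (nat_lit 144) (.n (nat_lit 138) (nat_lit 832) (.p (nat_lit 139) (nat_lit 332) (.n (nat_lit 140) (nat_lit 72) (.p (nat_lit 141) (nat_lit 236) (.n (nat_lit 142) (nat_lit 664) (.p (nat_lit 143) (nat_lit 596) (.p (nat_lit 144) (nat_lit 640) (.p (nat_lit 145) (nat_lit 640) (.n (nat_lit 146) (nat_lit 640) (.n (nat_lit 148) (nat_lit 192) (.n (nat_lit 149) (nat_lit 568) (.p (nat_lit 150) (nat_lit 640) (.n (nat_lit 151) (nat_lit 84) (.n (nat_lit 152) (nat_lit 240) (.n (nat_lit 153) (nat_lit 216) (.n (nat_lit 155) (nat_lit 384) .z)))))))))))))))))))))))))))))) (.ct dF6aa_c546 (nat_lit 36) (nat_lit 3) (.s false (nat_lit 1) (nat_lit 9) (nat_lit 2) (nat_lit 1) (nat_lit 2) true (nat_lit 4) true (nat_lit 10) true (nat_lit 3) true (nat_lit 10) true (nat_lit 11) (.e false (nat_lit 36) (nat_lit 25) (nat_lit 8) (nat_lit 4) (.e false (nat_lit 36) (nat_lit 60) (nat_lit 2) (nat_lit 10) (.e false (nat_lit 72) (nat_lit 59) (nat_lit 2) (nat_lit 10) (.e true (nat_lit 36) (nat_lit 61) (nat_lit 2) (nat_lit 10) (.e false (nat_lit 36) (nat_lit 62) (nat_lit 2) (nat_lit 10) (.e true (nat_lit 36) (nat_lit 63) (nat_lit 2) (nat_lit 10) (.e false (nat_lit 72) (nat_lit 65) (nat_lit 2) (nat_lit 10) (.e true (nat_lit 36) (nat_lit 66) (nat_lit 2) (nat_lit 10) (.e true (nat_lit 36) (nat_lit 68) (nat_lit 2) (nat_lit 10) (.e true (nat_lit 36) (nat_lit 70) (nat_lit 2) (nat_lit 10) (.e false (nat_lit 36) (nat_lit 71) (nat_lit 2) (nat_lit 10) (.e true (nat_lit 36) (nat_lit 72) (nat_lit 1) (nat_lit 11) .nil)))))))))))))) (.nd (.nd (.nd .leaf (nat_lit 22538) (nat_lit 275) (.n (nat_lit 123) (nat_lit 124) (.p (nat_lit 124) (nat_lit 52) (.n (nat_lit 125) (nat_lit 36) (.n (nat_lit 126) (nat_lit 116) (.n (nat_lit 127) (nat_lit 40) (.p (nat_lit 128) (nat_lit 152) (.n (nat_lit 129) (nat_lit 92) (.p (nat_lit 130) (nat_lit 124) (.n (nat_lit 131) (nat_lit 212) (.p (nat_lit 132) (nat_lit 124) (.p (nat_lit 133) (nat_lit 72) (.n (nat_lit 134) (nat_lit 48) (.n (nat_lit 135) (nat_lit 72) (.p (nat_lit 136) (nat_lit 316) (.n (nat_lit 137) (nat_lit 72) (.p (nat_lit 138) (nat_lit 416) (.n (nat_lit 139) (nat_lit 220) (.p (nat_lit 140) (nat_lit 72) (.n (nat_lit 141) (nat_lit 136) (.p (nat_lit 142) (nat_lit 368) (.n (nat_lit 143) (nat_lit 316) (.n (nat_lit 144) (nat_lit 320) (.n (nat_lit 145) (nat_lit 320) (.p (nat_lit 146) (nat_lit 320) (.p (nat_lit 148) (nat_lit 96) (.p (nat_lit 149) (nat_lit 248) (.n (nat_lit 150) (nat_lit 320) (.p (nat_lit 151) (nat_lit 24) (.p (nat_lit 152) (nat_lit 156) (.p (nat_lit 153) (nat_lit 144) (.p (nat_lit 155) (nat_lit 192) .z))))))))))))))))))))))))))))))) (.ct dF6aa_c546 (nat_lit 36) (nat_lit 3) (.s false (nat_lit 1) (nat_lit 10) (nat_lit 2) (nat_lit 1) (nat_lit 2) true (nat_lit 4) true (nat_lit 10) true (nat_lit 3) true (nat_lit 10) true (nat_lit 11) (.e false (nat_lit 36) (nat_lit 26) (nat_lit 8) (nat_lit 4) (.e false (nat_lit 36) (nat_lit 61) (nat_lit 2) (nat_lit 10) (.e true (nat_lit 36) (nat_lit 71) (nat_lit 2) (nat_lit 10) (.e true (nat_lit 36) (nat_lit 73) (nat_lit 1) (nat_lit 11) .nil)))))) .leaf) (nat_lit 22541) (nat_lit 332) (.n (nat_lit 156) (nat_lit 36) (.p (nat_lit 157) (nat_lit 36) (.p (nat_lit 158) (nat_lit 108) (.n (nat_lit 159) (nat_lit 72) (.p (nat_lit 161) (nat_lit 36) (.n (nat_lit 162) (nat_lit 108) (.p (nat_lit 164) (nat_lit 36) (.n (nat_lit 167) (nat_lit 36) (.p (nat_lit 168) (nat_lit 36) (.n (nat_lit 169) (nat_lit 72) (.p (nat_lit 170) (nat_lit 144) (.n (nat_lit 171) (nat_lit 108) (.n (nat_lit 172) (nat_lit 72) (.n (nat_lit 173) (nat_lit 72) (.p (nat_lit 174) (nat_lit 108) (.n (nat_lit 175) (nat_lit 72) (.n (nat_lit 176) (nat_lit 36) (.p (nat_lit 177) (nat_lit 36) .z)))))))))))))))))) (.ct dF6aa_c531 (nat_lit 36) (nat_lit 1) (.s false (nat_lit 1) (nat_lit 22) (nat_lit 0) (nat_lit 0) (nat_lit 2) true (nat_lit 5) true (nat_lit 8) false (nat_lit 1) true (nat_lit 10) true (nat_lit 10) (.e false (nat_lit 36) (nat_lit 48) (nat_lit 6) (nat_lit 5) (.e false (nat_lit 36) (nat_lit 84) (nat_lit 2) (nat_lit 8) (.e true (nat_lit 36) (nat_lit 107) (nat_lit 0) (nat_lit 10) (.e false (nat_lit 36) (nat_lit 106) (nat_lit 0) (nat_lit 10) (.e true (nat_lit 36) (nat_lit 108) (nat_lit 0) (nat_lit 10) (.e true (nat_lit 36) (nat_lit 111) (nat_lit 0) (nat_lit 10) (.e false (nat_lit 36) (nat_lit 114) (nat_lit 0) (nat_lit 10) (.e true (nat_lit 36) (nat_lit 115) (nat_lit 0) (nat_lit 10) .nil)))))))))) .leaf) (nat_lit 22542) (nat_lit 335) (.n (nat_lit 156) (nat_lit 72) (.p (nat_lit 157) (nat_lit 36) (.p (nat_lit 158) (nat_lit 108) (.p (nat_lit 159) (nat_lit 72) (.n (nat_lit 160) (nat_lit 72) (.n (nat_lit 161) (nat_lit 36) (.n (nat_lit 162) (nat_lit 108) (.p (nat_lit 164) (nat_lit 36) (.p (nat_lit 165) (nat_lit 36) (.p (nat_lit 167) (nat_lit 36) (.n (nat_lit 168) (nat_lit 36) (.n (nat_lit 170) (nat_lit 36) (.n (nat_lit 171) (nat_lit 108) (.n (nat_lit 172) (nat_lit 108) (.p (nat_lit 173) (nat_lit 72) (.n (nat_lit 175) (nat_lit 36) (.p (nat_lit 176) (nat_lit 72) (.n (nat_lit 177) (nat_lit 144) .z)))))))))))))))))) (.ct dF6aa_c531 (nat_lit 36) (nat_lit 1) (.s false (nat_lit 1) (nat_lit 14) (nat_lit 1) (nat_lit 2) (nat_lit 2) true (nat_lit 4) true (nat_lit 8) true (nat_lit 1) true (nat_lit 9) true (nat_lit 8) (.e false (nat_lit 36) (nat_lit 41) (nat_lit 7) (nat_lit 4) (.e false (nat_lit 36) (nat_lit 74) (nat_lit 2) (nat_lit 8) (.e true (nat_lit 36) (nat_lit 105) (nat_lit 1) (nat_lit 9) (.e true (nat_lit 36) (nat_lit 78) (nat_lit 2) (nat_lit 8) .nil)))))) (.nd (.nd .leaf (nat_lit 22543) (nat_lit 401) (.n (nat_lit 179) (nat_lit 90) (.p (nat_lit 180) (nat_lit 54) (.n (nat_lit 181) (nat_lit 18) (.p (nat_lit 182) (nat_lit 90) (.n (nat_lit 183) (nat_lit 18) (.n (nat_lit 185) (nat_lit 36) (.p (nat_lit 186) (nat_lit 90) (.p (nat_lit 187) (nat_lit 108) (.p (nat_lit 188) (nat_lit 90) (.n (nat_lit 190) (nat_lit 36) (.p (nat_lit 191) (nat_lit 108) (.p (nat_lit 192) (nat_lit 72) (.p (nat_lit 193) (nat_lit 90) (.p (nat_lit 194) (nat_lit 36) (.n (nat_lit 195) (nat_lit 108) (.p (nat_lit 196) (nat_lit 18) (.p (nat_lit 197) (nat_lit 54) (.n (nat_lit 198) (nat_lit 54) (.p (nat_lit 199) (nat_lit 126) (.p (nat_lit 200) (nat_lit 144) (.p (nat_lit 201) (nat_lit 36) .z))))))))))))))))))))) (.ct dF6aa_c291 (nat_lit 36) (nat_lit 1) (.s false (nat_lit 1) (nat_lit 15) (nat_lit 1) (nat_lit 2) (nat_lit 2) true (nat_lit 4) true (nat_lit 8) true (nat_lit 1) true (nat_lit 9) true (nat_lit 8) (.e false (nat_lit 36) (nat_lit 43) (nat_lit 7) (nat_lit 4) (.e false (nat_lit 36) (nat_lit 87) (nat_lit 2) (nat_lit 8) (.e true (nat_lit 36) (nat_lit 115) (nat_lit 1) (nat_lit 9) (.e true (nat_lit 36) (nat_lit 91) (nat_lit 2) (nat_lit 8) .nil)))))) .leaf) (nat_lit 22544) (nat_lit 392) (.n (nat_lit 179) (nat_lit 138) (.p (nat_lit 180) (nat_lit 114) (.n (nat_lit 181) (nat_lit 30) (.p (nat_lit 182) (nat_lit 162) (.n (nat_lit 183) (nat_lit 66) (.n (nat_lit 184) (nat_lit 36) (.n (nat_lit 185) (nat_lit 96) (.p (nat_lit 186) (nat_lit 114) (.p (nat_lit 187) (nat_lit 168) (.p (nat_lit 188) (nat_lit 138) (.p (nat_lit 189) (nat_lit 12) (.n (nat_lit 190) (nat_lit 84) (.p (nat_lit 191) (nat_lit 240) (.p (nat_lit 192) (nat_lit 120) (.p (nat_lit 193) (nat_lit 138) (.p (nat_lit 194) (nat_lit 84) (.n (nat_lit 195) (nat_lit 156) (.p (nat_lit 196) (nat_lit 18) (.p (nat_lit 197) (nat_lit 114) (.n (nat_lit 198) (nat_lit 102) (.p (nat_lit 199) (nat_lit 174) (.p (nat_lit 200) (nat_lit 240) (.p (nat_lit 201) (nat_lit 60) .z))))))))))))))))))))))) (.ct dF6aa_c291 (nat_lit 36) (nat_lit 1) (.s false (nat_lit 1) (nat_lit 16) (nat_lit 2) (nat_lit 1) (nat_lit 2) true (nat_lit 3) true (nat_lit 8) true (nat_lit 1) true (nat_lit 8) true (nat_lit 9) (.e false (nat_lit 36) (nat_lit 37) (nat_lit 8) (nat_lit 3) (.e false (nat_lit 36) (nat_lit 92) (nat_lit 2) (nat_lit 8) (.e false (nat_lit 36) (nat_lit 89) (nat_lit 2) (nat_lit 8) (.e false (nat_lit 36) (nat_lit 93) (nat_lit 2) (nat_lit 8) (.e true (nat_lit 36) (nat_lit 97) (nat_lit 2) (nat_lit 8) (.e true (nat_lit 36) (nat_lit 98) (nat_lit 2) (nat_lit 8) (.e false (nat_lit 36) (nat_lit 99) (nat_lit 2) (nat_lit 8) (.e true (nat_lit 36) (nat_lit 107) (nat_lit 1) (nat_lit 9) .nil)))))))))) .leaf))) (nat_lit 22545) (nat_lit 394) (.n (nat_lit 179) (nat_lit 81) (.p (nat_lit 180) (nat_lit 63) (.n (nat_lit 181) (nat_lit 9) (.p (nat_lit 182) (nat_lit 63) (.n (nat_lit 183) (nat_lit 9) (.n (nat_lit 184) (nat_lit 36) (.n (nat_lit 185) (nat_lit 54) (.p (nat_lit 186) (nat_lit 27) (.p (nat_lit 187) (nat_lit 72) (.p (nat_lit 188) (nat_lit 27) (.n (nat_lit 190) (nat_lit 36) (.p (nat_lit 191) (nat_lit 90) (.p (nat_lit 192) (nat_lit 36) (.p (nat_lit 193) (nat_lit 45) (.p (nat_lit 194) (nat_lit 36) (.n (nat_lit 195) (nat_lit 36) (.p (nat_lit 196) (nat_lit 9) (.p (nat_lit 197) (nat_lit 45) (.n (nat_lit 198) (nat_lit 27) (.p (nat_lit 199) (nat_lit 63) (.p (nat_lit 200) (nat_lit 72) (.p (nat_lit 201) (nat_lit 18) .z)))))))))))))))))))))) (.ct dF6aa_c291 (nat_lit 36) (nat_lit 1) (.s false (nat_lit 1) (nat_lit 7) (nat_lit 0) (nat_lit 2) (nat_lit 7) true (nat_lit 1) true (nat_lit 4) true (nat_lit 4) true (nat_lit 10) true (nat_lit 8) (.e false (nat_lit 36) (nat_lit 45) (nat_lit 7) (nat_lit 4) (.e true (nat_lit 36) (nat_lit 43) (nat_lit 7) (nat_lit 4) (.e false (nat_lit 36) (nat_lit 44) (nat_lit 7) (nat_lit 4) (.e true (nat_lit 36) (nat_lit 47) (nat_lit 7) (nat_lit 4) (.e false (nat_lit 36) (nat_lit 48) (nat_lit 7) (nat_lit 4) (.e true (nat_lit 18) (nat_lit 118) (nat_lit 0) (nat_lit 10) (.e false (nat_lit 18) (nat_lit 119) (nat_lit 0) (nat_lit 10) (.e true (nat_lit 18) (nat_lit 120) (nat_lit 0) (nat_lit 10) (.e false (nat_lit 18) (nat_lit 121) (nat_lit 0) (nat_lit 10) .nil))))))))))) (.nd (.nd (.nd (.nd .leaf (nat_lit 23552) (nat_lit 57) (.n (nat_lit 43) (nat_lit 72) (.p (nat_lit 44) (nat_lit 36) (.p (nat_lit 45) (nat_lit 36) (.p (nat_lit 46) (nat_lit 36) (.n (nat_lit 47) (nat_lit 36) (.p (nat_lit 48) (nat_lit 36) .z)))))) (.ct dF6aa_c274 (nat_lit 36) (nat_lit 4) (.s false (nat_lit 1) (nat_lit 2) (nat_lit 1) (nat_lit 0) (nat_lit 2) false (nat_lit 0) true (nat_lit 2) true (nat_lit 2) true (nat_lit 3) true (nat_lit 4) (.e true (nat_lit 36) (nat_lit 7) (nat_lit 6) (nat_lit 0) (.e false (nat_lit 36) (nat_lit 17) (nat_lit 2) (nat_lit 2) (.e true (nat_lit 36) (nat_lit 15) (nat_lit 2) (nat_lit 2) (.e false (nat_lit 36) (nat_lit 20) (nat_lit 1) (nat_lit 3) .nil)))))) .leaf) (nat_lit 23553) (nat_lit 62) (.n (nat_lit 49) (nat_lit 36) (.p (nat_lit 50) (nat_lit 36) (.p (nat_lit 51) (nat_lit 36) .z))) (.ct dF6aa_c34 (nat_lit 36) (nat_lit 3) (.s false (nat_lit 1) (nat_lit 2) (nat_lit 1) (nat_lit 1) (nat_lit 2) true (nat_lit 0) true (nat_lit 2) true (nat_lit 2) true (nat_lit 3) true (nat_lit 3) (.a false (nat_lit 648) (nat_lit 7) (nat_lit 7) (nat_lit 0) (nat_lit 0) (.e false (nat_lit 36) (nat_lit 19) (nat_lit 2) (nat_lit 2) (.e true (nat_lit 36) (nat_lit 18) (nat_lit 2) (nat_lit 2) (.e false (nat_lit 36) (nat_lit 22) (nat_lit 1) (nat_lit 3) .nil)))))) .leaf) (nat_lit 23554) (nat_lit 69) (.p (nat_lit 56) (nat_lit 36) .z) .df (.nd (.nd .leaf (nat_lit 23555) (nat_lit 122) (.p (nat_lit 72) (nat_lit 36) (.n (nat_lit 73) (nat_lit 36) (.n (nat_lit 74) (nat_lit 36) (.p (nat_lit 75) (nat_lit 36) (.p (nat_lit 76) (nat_lit 36) (.n (nat_lit 77) (nat_lit 36) (.p (nat_lit 78) (nat_lit 36) (.p (nat_lit 79) (nat_lit 36) (.n (nat_lit 80) (nat_lit 36) (.n (nat_lit 83) (nat_lit 36) (.n (nat_lit 85) (nat_lit 36) .z))))))))))) (.ct dF6aa_c530 (nat_lit 36) (nat_lit 4) (.s true (nat_lit 1) (nat_lit 3) (nat_lit 2) (nat_lit 2) (nat_lit 1) true (nat_lit 1) true (nat_lit 6) true (nat_lit 4) true (nat_lit 5) true (nat_lit 5) (.e true (nat_lit 36) (nat_lit 13) (nat_lit 7) (nat_lit 1) (.e true (nat_lit 36) (nat_lit 40) (nat_lit 1) (nat_lit 6) (.e false (nat_lit 72) (nat_lit 28) (nat_lit 2) (nat_lit 5) (.e true (nat_lit 72) (nat_lit 29) (nat_lit 2) (nat_lit 5) (.e false (nat_lit 36) (nat_lit 30) (nat_lit 2) (nat_lit 5) (.e true (nat_lit 72) (nat_lit 31) (nat_lit 2) (nat_lit 5) (.e false (nat_lit 72) (nat_lit 33) (nat_lit 2) (nat_lit 5) .nil))))))))) .leaf) (nat_lit 23556) (nat_lit 146) (.p (nat_lit 88) (nat_lit 36) (.n (nat_lit 89) (nat_lit 36) (.p (nat_lit 90) (nat_lit 36) (.n (nat_lit 91) (nat_lit 36) (.n (nat_lit 99) (nat_lit 36) .z))))) (.ct dF6aa_c290 (nat_lit 36) (nat_lit 4) (.s true (nat_lit 1) (nat_lit 4) (nat_lit 2) (nat_lit 2) (nat_lit 1) true (nat_lit 1) true (nat_lit 6) true (nat_lit 4) true (nat_lit 5) true (nat_lit 5) (.e true (nat_lit 36) (nat_lit 15) (nat_lit 7) (nat_lit 1) (.e true (nat_lit 36) (nat_lit 43) (nat_lit 1) (nat_lit 6) (.e false (nat_lit 36) (nat_lit 37) (nat_lit 2) (nat_lit 5) (.e true (nat_lit 36) (nat_lit 38) (nat_lit 2) (nat_lit 5) (.e false (nat_lit 36) (nat_lit 39) (nat_lit 2) (nat_lit 5) .nil))))))) .leaf)) (nat_lit 23558) (nat_lit 177) (.p (nat_lit 107) (nat_lit 36) (.n (nat_lit 108) (nat_lit 36) (.n (nat_lit 109) (nat_lit 36) (.n (nat_lit 110) (nat_lit 36) (.p (nat_lit 111) (nat_lit 36) (.p (nat_lit 112) (nat_lit 36) (.n (nat_lit 115) (nat_lit 36) .z))))))) (.ct dF6aa_c275 (nat_lit 36) (nat_lit 2) (.s true (nat_lit 1) (nat_lit 8) (nat_lit 0) (nat_lit 1) (nat_lit 2) true (nat_lit 2) true (nat_lit 4) true (nat_lit 0) true (nat_lit 6) true (nat_lit 5) (.e true (nat_lit 36) (nat_lit 47) (nat_lit 2) (nat_lit 4) (.e true (nat_lit 36) (nat_lit 15) (nat_lit 8) (nat_lit 0) (.e false (nat_lit 36) (nat_lit 56) (nat_lit 0) (nat_lit 6) (.e true (nat_lit 36) (nat_lit 57) (nat_lit 0) (nat_lit 6) (.e false (nat_lit 36) (nat_lit 54) (nat_lit 1) (nat_lit 5) .nil))))))) (.nd (.nd (.nd .leaf (nat_lit 23559) (nat_lit 187) (.p (nat_lit 118) (nat_lit 72) (.n (nat_lit 119) (nat_lit 72) (.p (nat_lit 120) (nat_lit 36) (.n (nat_lit 121) (nat_lit 36) (.n (nat_lit 122) (nat_lit 36) .z))))) (.ct dF6aa_c35 (nat_lit 36) (nat_lit 1) (.s true (nat_lit 1) (nat_lit 8) (nat_lit 2) (nat_lit 1) (nat_lit 1) true (nat_lit 1) true (nat_lit 4) true (nat_lit 0) true (nat_lit 3) true (nat_lit 4) (.e true (nat_lit 36) (nat_lit 57) (nat_lit 1) (nat_lit 4) (.e true (nat_lit 36) (nat_lit 19) (nat_lit 8) (nat_lit 0) (.e false (nat_lit 72) (nat_lit 50) (nat_lit 2) (nat_lit 3) (.e true (nat_lit 72) (nat_lit 51) (nat_lit 2) (nat_lit 3) (.e false (nat_lit 36) (nat_lit 56) (nat_lit 1) (nat_lit 4) .nil))))))) .leaf) (nat_lit 23561) (nat_lit 268) (.n (nat_lit 123) (nat_lit 304) (.p (nat_lit 124) (nat_lit 124) (.n (nat_lit 125) (nat_lit 144) (.n (nat_lit 126) (nat_lit 260) (.n (nat_lit 127) (nat_lit 112) (.p (nat_lit 128) (nat_lit 368) (.n (nat_lit 129) (nat_lit 236) (.p (nat_lit 130) (nat_lit 340) (.n (nat_lit 131) (nat_lit 500) (.p (nat_lit 132) (nat_lit 340) (.p (nat_lit 133) (nat_lit 288) (.n (nat_lit 134) (nat_lit 120) (.n (nat_lit 135) (nat_lit 216) (.p (nat_lit 136) (nat_lit 820) (.n (nat_lit 137) (nat_lit 216) (.p (nat_lit 138) (nat_lit 1064) (.n (nat_lit 139) (nat_lit 508) (.p (nat_lit 140) (nat_lit 216) (.n (nat_lit 141) (nat_lit 316) (.p (nat_lit 142) (nat_lit 944) (.n (nat_lit 143) (nat_lit 820) (.n (nat_lit 144) (nat_lit 824) (.n (nat_lit 145) (nat_lit 824) (.p (nat_lit 146) (nat_lit 824) (.p (nat_lit 148) (nat_lit 240) (.p (nat_lit 149) (nat_lit 680) (.n (nat_lit 150) (nat_lit 824) (.p (nat_lit 151) (nat_lit 96) (.p (nat_lit 152) (nat_lit 408) (.p (nat_lit 153) (nat_lit 432) (.p (nat_lit 155) (nat_lit 480) .z))))))))))))))))))))))))))))))) (.ct dF6aa_c546 (nat_lit 36) (nat_lit 3) (.s false (nat_lit 1) (nat_lit 9) (nat_lit 2) (nat_lit 2) (nat_lit 1) true (nat_lit 5) true (nat_lit 11) true (nat_lit 3) true (nat_lit 10) true (nat_lit 10) (.e false (nat_lit 36) (nat_lit 28) (nat_lit 7) (nat_lit 5) (.e false (nat_lit 36) (nat_lit 72) (nat_lit 1) (nat_lit 11) (.e false (nat_lit 72) (nat_lit 59) (nat_lit 2) (nat_lit 10) (.e true (nat_lit 36) (nat_lit 61) (nat_lit 2) (nat_lit 10) (.e false (nat_lit 36) (nat_lit 62) (nat_lit 2) (nat_lit 10) (.e true (nat_lit 36) (nat_lit 63) (nat_lit 2) (nat_lit 10) (.e false (nat_lit 72) (nat_lit 65) (nat_lit 2) (nat_lit 10) (.e true (nat_lit 36) (nat_lit 66) (nat_lit 2) (nat_lit 10) (.e true (nat_lit 36) (nat_lit 68) (nat_lit 2) (nat_lit 10) (.e true (nat_lit 36) (nat_lit 70) (nat_lit 2) (nat_lit 10) (.e false (nat_lit 36) (nat_lit 71) (nat_lit 2) (nat_lit 10) (.e true (nat_lit 36) (nat_lit 58) (nat_lit 2) (nat_lit 10) .nil)))))))))))))) .leaf) (nat_lit 23562) (nat_lit 276) (.n (nat_lit 123) (nat_lit 60) (.p (nat_lit 124) (nat_lit 24) (.n (nat_lit 125) (nat_lit 36) (.p (nat_lit 126) (nat_lit 24) (.p (nat_lit 127) (nat_lit 48) (.p (nat_lit 128) (nat_lit 12) (.n (nat_lit 129) (nat_lit 12) (.p (nat_lit 130) (nat_lit 24) (.n (nat_lit 131) (nat_lit 12) (.p (nat_lit 132) (nat_lit 24) (.n (nat_lit 133) (nat_lit 72) (.n (nat_lit 135) (nat_lit 36) (.p (nat_lit 136) (nat_lit 24) (.p (nat_lit 138) (nat_lit 12) (.n (nat_lit 139) (nat_lit 60) (.p (nat_lit 140) (nat_lit 36) (.n (nat_lit 141) (nat_lit 24) (.p (nat_lit 142) (nat_lit 48) (.n (nat_lit 143) (nat_lit 24) (.n (nat_lit 144) (nat_lit 12) (.n (nat_lit 145) (nat_lit 12) (.p (nat_lit 146) (nat_lit 12) (.n (nat_lit 149) (nat_lit 24) (.n (nat_lit 150) (nat_lit 12) (.n (nat_lit 151) (nat_lit 36) (.p (nat_lit 152) (nat_lit 36) (.p (nat_lit 153) (nat_lit 36) .z))))))))))))))))))))))))))) (.ct dF6aa_c546 (nat_lit 36) (nat_lit 3) (.s false (nat_lit 1) (nat_lit 10) (nat_lit 2) (nat_lit 2) (nat_lit 1) true (nat_lit 5) true (nat_lit 11) true (nat_lit 3) true (nat_lit 10) true (nat_lit 10) (.e false (nat_lit 36) (nat_lit 29) (nat_lit 7) (nat_lit 5) (.e false (nat_lit 36) (nat_lit 73) (nat_lit 1) (nat_lit 11) (.e true (nat_lit 36) (nat_lit 71) (nat_lit 2) (nat_lit 10) (.e true (nat_lit 36) (nat_lit 59) (nat_lit 2) (nat_lit 10) .nil)))))) (.nd (.nd .leaf (nat_lit 23565) (nat_lit 334) (.n (nat_lit 156) (nat_lit 360) (.p (nat_lit 157) (nat_lit 324) (.p (nat_lit 158) (nat_lit 684) (.p (nat_lit 159) (nat_lit 216) (.n (nat_lit 160) (nat_lit 288) (.n (nat_lit 162) (nat_lit 684) (.n (nat_lit 163) (nat_lit 144) (.n (nat_lit 164) (nat_lit 36) (.p (nat_lit 165) (nat_lit 144) (.n (nat_lit 166) (nat_lit 144) (.p (nat_lit 167) (nat_lit 252) (.n (nat_lit 168) (nat_lit 108) (.n (nat_lit 169) (nat_lit 72) (.p (nat_lit 170) (nat_lit 144) (.n (nat_lit 171) (nat_lit 324) (.n (nat_lit 172) (nat_lit 360) (.p (nat_lit 173) (nat_lit 216) (.p (nat_lit 174) (nat_lit 108) (.n (nat_lit 175) (nat_lit 288) (.p (nat_lit 176) (nat_lit 180) (.n (nat_lit 177) (nat_lit 324) .z))))))))))))))))))))) (.ct dF6aa_c531 (nat_lit 36) (nat_lit 1) (.s false (nat_lit 1) (nat_lit 8) (nat_lit 3) (nat_lit 1) (nat_lit 2) true (nat_lit 1) true (nat_lit 8) true (nat_lit 3) true (nat_lit 7) true (nat_lit 9) (.e false (nat_lit 72) (nat_lit 78) (nat_lit 2) (nat_lit 8) (.e true (nat_lit 72) (nat_lit 79) (nat_lit 2) (nat_lit 8) (.e false (nat_lit 36) (nat_lit 28) (nat_lit 8) (nat_lit 3) (.e true (nat_lit 36) (nat_lit 56) (nat_lit 3) (nat_lit 7) (.e false (nat_lit 36) (nat_lit 57) (nat_lit 3) (nat_lit 7) (.e true (nat_lit 36) (nat_lit 100) (nat_lit 1) (nat_lit 9) (.e false (nat_lit 36) (nat_lit 101) (nat_lit 1) (nat_lit 9) (.e false (nat_lit 36) (nat_lit 102) (nat_lit 1) (nat_lit 9) (.e true (nat_lit 36) (nat_lit 104) (nat_lit 1) (nat_lit 9) (.e true (nat_lit 36) (nat_lit 105) (nat_lit 1) (nat_lit 9) .nil)))))))))))) .leaf) (nat_lit 23566) (nat_lit 327) (.p (nat_lit 156) (nat_lit 72) (.n (nat_lit 157) (nat_lit 108) (.n (nat_lit 158) (nat_lit 180) (.n (nat_lit 159) (nat_lit 72) (.p (nat_lit 160) (nat_lit 72) (.p (nat_lit 162) (nat_lit 180) (.p (nat_lit 163) (nat_lit 72) (.p (nat_lit 164) (nat_lit 36) (.p (nat_lit 166) (nat_lit 72) (.n (nat_lit 167) (nat_lit 108) (.p (nat_lit 168) (nat_lit 36) (.n (nat_lit 170) (nat_lit 36) (.p (nat_lit 172) (nat_lit 36) (.n (nat_lit 173) (nat_lit 72) (.p (nat_lit 175) (nat_lit 72) (.n (nat_lit 176) (nat_lit 36) (.p (nat_lit 177) (nat_lit 36) .z))))))))))))))))) (.ct dF6aa_c531 (nat_lit 36) (nat_lit 1) (.s false (nat_lit 1) (nat_lit 14) (nat_lit 2) (nat_lit 2) (nat_lit 1) true (nat_lit 4) true (nat_lit 9) true (nat_lit 1) true (nat_lit 8) true (nat_lit 8) (.e false (nat_lit 36) (nat_lit 41) (nat_lit 7) (nat_lit 4) (.e false (nat_lit 36) (nat_lit 101) (nat_lit 1) (nat_lit 9) (.e true (nat_lit 36) (nat_lit 72) (nat_lit 2) (nat_lit 8) (.e false (nat_lit 36) (nat_lit 75) (nat_lit 2) (nat_lit 8) (.e true (nat_lit 36) (nat_lit 76) (nat_lit 2) (nat_lit 8) (.e false (nat_lit 72) (nat_lit 79) (nat_lit 2) (nat_lit 8) (.e true (nat_lit 36) (nat_lit 80) (nat_lit 2) (nat_lit 8) (.e true (nat_lit 36) (nat_lit 83) (nat_lit 2) (nat_lit 8) (.e false (nat_lit 36) (nat_lit 84) (nat_lit 2) (nat_lit 8) (.e true (nat_lit 36) (nat_lit 85) (nat_lit 2) (nat_lit 8) (.e true (nat_lit 36) (nat_lit 74) (nat_lit 2) (nat_lit 8) .nil))))))))))))) .leaf))))) (nat_lit 23567) (nat_lit 403) (.n (nat_lit 182) (nat_lit 36) (.n (nat_lit 183) (nat_lit 36) (.n (nat_lit 186) (nat_lit 72) (.p (nat_lit 187) (nat_lit 36) (.n (nat_lit 190) (nat_lit 36) (.p (nat_lit 191) (nat_lit 72) (.n (nat_lit 192) (nat_lit 36) (.p (nat_lit 198) (nat_lit 72) (.n (nat_lit 199) (nat_lit 36) .z))))))))) (.ct dF6aa_c291 (nat_lit 36) (nat_lit 1) (.s false (nat_lit 1) (nat_lit 15) (nat_lit 2) (nat_lit 2) (nat_lit 1) true (nat_lit 4) true (nat_lit 9) true (nat_lit 1) true (nat_lit 8) true (nat_lit 8) (.e false (nat_lit 36) (nat_lit 43) (nat_lit 7) (nat_lit 4) (.e false (nat_lit 36) (nat_lit 106) (nat_lit 1) (nat_lit 9) (.e true (nat_lit 36) (nat_lit 99) (nat_lit 2) (nat_lit 8) (.e true (nat_lit 36) (nat_lit 87) (nat_lit 2) (nat_lit 8) .nil)))))) (.nd (.nd (.nd (.nd (.nd (.nd .leaf (nat_lit 23568) (nat_lit 396) (.n (nat_lit 179) (nat_lit 36) (.p (nat_lit 180) (nat_lit 36) (.p (nat_lit 183) (nat_lit 36) (.n (nat_lit 184) (nat_lit 36) (.n (nat_lit 185) (nat_lit 36) (.p (nat_lit 186) (nat_lit 36) (.p (nat_lit 187) (nat_lit 36) (.p (nat_lit 199) (nat_lit 36) .z)))))))) (.ct dF6aa_c291 (nat_lit 36) (nat_lit 1) (.s false (nat_lit 1) (nat_lit 16) (nat_lit 2) (nat_lit 2) (nat_lit 1) true (nat_lit 4) true (nat_lit 9) true (nat_lit 1) true (nat_lit 8) true (nat_lit 8) (.e false (nat_lit 36) (nat_lit 44) (nat_lit 7) (nat_lit 4) (.e false (nat_lit 36) (nat_lit 107) (nat_lit 1) (nat_lit 9) (.e false (nat_lit 36) (nat_lit 89) (nat_lit 2) (nat_lit 8) (.e false (nat_lit 36) (nat_lit 93) (nat_lit 2) (nat_lit 8) (.e true (nat_lit 36) (nat_lit 97) (nat_lit 2) (nat_lit 8) (.e true (nat_lit 36) (nat_lit 98) (nat_lit 2) (nat_lit 8) (.e false (nat_lit 36) (nat_lit 99) (nat_lit 2) (nat_lit 8) (.e true (nat_lit 36) (nat_lit 88) (nat_lit 2) (nat_lit 8) .nil)))))))))) .leaf) (nat_lit 23569) (nat_lit 393) (.n (nat_lit 179) (nat_lit 105) (.p (nat_lit 180) (nat_lit 3) (.n (nat_lit 181) (nat_lit 33) (.p (nat_lit 182) (nat_lit 99) (.n (nat_lit 183) (nat_lit 33) (.p (nat_lit 184) (nat_lit 36) (.n (nat_lit 185) (nat_lit 30) (.p (nat_lit 186) (nat_lit 75) (.p (nat_lit 187) (nat_lit 120) (.p (nat_lit 188) (nat_lit 159) (.n (nat_lit 189) (nat_lit 12) (.n (nat_lit 190) (nat_lit 24) (.p (nat_lit 191) (nat_lit 102) (.p (nat_lit 192) (nat_lit 96) (.p (nat_lit 193) (nat_lit 105) (.p (nat_lit 194) (nat_lit 24) (.n (nat_lit 195) (nat_lit 96) (.p (nat_lit 196) (nat_lit 45) (.p (nat_lit 197) (nat_lit 57) (.n (nat_lit 198) (nat_lit 51) (.p (nat_lit 199) (nat_lit 123) (.p (nat_lit 200) (nat_lit 156) (.p (nat_lit 201) (nat_lit 66) .z))))))))))))))))))))))) (.ct dF6aa_c291 (nat_lit 36) (nat_lit 1) (.s false (nat_lit 1) (nat_lit 8) (nat_lit 0) (nat_lit 1) (nat_lit 7) true (nat_lit 1) true (nat_lit 4) true (nat_lit 3) true (nat_lit 10) true (nat_lit 9) (.e false (nat_lit 36) (nat_lit 47) (nat_lit 7) (nat_lit 4) (.e true (nat_lit 36) (nat_lit 34) (nat_lit 8) (nat_lit 3) (.e false (nat_lit 36) (nat_lit 37) (nat_lit 8) (nat_lit 3) (.e true (nat_lit 36) (nat_lit 38) (nat_lit 8) (nat_lit 3) (.e false (nat_lit 36) (nat_lit 39) (nat_lit 8) (nat_lit 3) (.e false (nat_lit 36) (nat_lit 122) (nat_lit 0) (nat_lit 10) (.e true (nat_lit 36) (nat_lit 107) (nat_lit 1) (nat_lit 9) (.e false (nat_lit 36) (nat_lit 108) (nat_lit 1) (nat_lit 9) (.e false (nat_lit 36) (nat_lit 109) (nat_lit 1) (nat_lit 9) (.e true (nat_lit 36) (nat_lit 111) (nat_lit 1) (nat_lit 9) (.e true (nat_lit 36) (nat_lit 112) (nat_lit 1) (nat_lit 9) (.e false (nat_lit 36) (nat_lit 113) (nat_lit 1) (nat_lit 9) .nil)))))))))))))) (.nd .leaf (nat_lit 24576) (nat_lit 66) (.p (nat_lit 54) (nat_lit 36) .z) .df .leaf)) (nat_lit 24577) (nat_lit 70) (.p (nat_lit 57) (nat_lit 36) .z) .df (.nd (.nd .leaf (nat_lit 24579) (nat_lit 160) (.n (nat_lit 100) (nat_lit 36) (.p (nat_lit 101) (nat_lit 36) (.p (nat_lit 102) (nat_lit 36) (.n (nat_lit 104) (nat_lit 36) (.n (nat_lit 105) (nat_lit 36) .z))))) (.ct dF6aa_c515 (nat_lit 36) (nat_lit 2) (.s true (nat_lit 1) (nat_lit 3) (nat_lit 2) (nat_lit 2) (nat_lit 2) true (nat_lit 0) true (nat_lit 3) true (nat_lit 2) true (nat_lit 3) true (nat_lit 3) (.e true (nat_lit 36) (nat_lit 13) (nat_lit 8) (nat_lit 0) (.e true (nat_lit 72) (nat_lit 41) (nat_lit 2) (nat_lit 3) (.e false (nat_lit 72) (nat_lit 42) (nat_lit 2) (nat_lit 3) .nil))))) .leaf) (nat_lit 24580) (nat_lit 178) (.n (nat_lit 107) (nat_lit 36) (.n (nat_lit 108) (nat_lit 36) (.p (nat_lit 109) (nat_lit 36) (.p (nat_lit 111) (nat_lit 36) (.n (nat_lit 115) (nat_lit 36) .z))))) (.ct dF6aa_c275 (nat_lit 36) (nat_lit 3) (.s true (nat_lit 1) (nat_lit 4) (nat_lit 2) (nat_lit 2) (nat_lit 2) true (nat_lit 0) true (nat_lit 4) true (nat_lit 3) true (nat_lit 4) true (nat_lit 4) (.e true (nat_lit 36) (nat_lit 15) (nat_lit 8) (nat_lit 0) (.e true (nat_lit 36) (nat_lit 44) (nat_lit 2) (nat_lit 4) (.e true (nat_lit 36) (nat_lit 45) (nat_lit 2) (nat_lit 4) (.e false (nat_lit 36) (nat_lit 46) (nat_lit 2) (nat_lit 4) (.e false (nat_lit 36) (nat_lit 48) (nat_lit 2) (nat_lit 4) .nil))))))) .leaf)) (nat_lit 24581) (nat_lit 191) (.n (nat_lit 117) (nat_lit 36) (.p (nat_lit 118) (nat_lit 36) (.p (nat_lit 119) (nat_lit 36) (.n (nat_lit 121) (nat_lit 36) (.n (nat_lit 122) (nat_lit 36) .z))))) (.ct dF6aa_c35 (nat_lit 36) (nat_lit 2) (.s true (nat_lit 1) (nat_lit 5) (nat_lit 2) (nat_lit 2) (nat_lit 2) true (nat_lit 0) true (nat_lit 3) true (nat_lit 2) true (nat_lit 3) true (nat_lit 3) (.e true (nat_lit 36) (nat_lit 18) (nat_lit 8) (nat_lit 0) (.e true (nat_lit 72) (nat_lit 50) (nat_lit 2) (nat_lit 3) (.e false (nat_lit 72) (nat_lit 51) (nat_lit 2) (nat_lit 3) .nil))))) (.nd (.nd (.nd .leaf (nat_lit 24585) (nat_lit 336) (.n (nat_lit 156) (nat_lit 576) (.p (nat_lit 157) (nat_lit 684) (.p (nat_lit 158) (nat_lit 1332) (.p (nat_lit 159) (nat_lit 72) (.n (nat_lit 160) (nat_lit 432) (.p (nat_lit 161) (nat_lit 144) (.n (nat_lit 162) (nat_lit 1188) (.n (nat_lit 163) (nat_lit 144) (.n (nat_lit 164) (nat_lit 180) (.p (nat_lit 165) (nat_lit 72) (.n (nat_lit 166) (nat_lit 360) (.p (nat_lit 167) (nat_lit 180) (.n (nat_lit 168) (nat_lit 36) (.n (nat_lit 169) (nat_lit 360) (.p (nat_lit 170) (nat_lit 576) (.n (nat_lit 171) (nat_lit 252) (.n (nat_lit 172) (nat_lit 360) (.p (nat_lit 173) (nat_lit 72) (.p (nat_lit 174) (nat_lit 396) (.n (nat_lit 175) (nat_lit 504) (.n (nat_lit 176) (nat_lit 36) (.p (nat_lit 177) (nat_lit 36) .z)))))))))))))))))))))) (.ct dF6aa_c531 (nat_lit 36) (nat_lit 2) (.s false (nat_lit 1) (nat_lit 24) (nat_lit 0) (nat_lit 0) (nat_lit 1) true (nat_lit 6) true (nat_lit 9) false (nat_lit 2) true (nat_lit 10) true (nat_lit 10) (.e false (nat_lit 36) (nat_lit 54) (nat_lit 4) (nat_lit 6) (.e false (nat_lit 36) (nat_lit 104) (nat_lit 1) (nat_lit 9) (.e false (nat_lit 72) (nat_lit 107) (nat_lit 0) (nat_lit 10) (.e true (nat_lit 72) (nat_lit 109) (nat_lit 0) (nat_lit 10) (.e false (nat_lit 36) (nat_lit 115) (nat_lit 0) (nat_lit 10) (.e false (nat_lit 36) (nat_lit 112) (nat_lit 0) (nat_lit 10) (.e true (nat_lit 36) (nat_lit 113) (nat_lit 0) (nat_lit 10) (.e true (nat_lit 36) (nat_lit 114) (nat_lit 0) (nat_lit 10) .nil)))))))))) .leaf) (nat_lit 24586) (nat_lit 333) (.n (nat_lit 156) (nat_lit 864) (.p (nat_lit 157) (nat_lit 1044) (.p (nat_lit 158) (nat_lit 1980) (.p (nat_lit 159) (nat_lit 144) (.n (nat_lit 160) (nat_lit 648) (.p (nat_lit 161) (nat_lit 252) (.n (nat_lit 162) (nat_lit 1836) (.n (nat_lit 163) (nat_lit 360) (.n (nat_lit 164) (nat_lit 288) (.p (nat_lit 165) (nat_lit 108) (.n (nat_lit 166) (nat_lit 540) (.p (nat_lit 167) (nat_lit 396) (.n (nat_lit 168) (nat_lit 72) (.n (nat_lit 169) (nat_lit 468) (.p (nat_lit 170) (nat_lit 900) (.n (nat_lit 171) (nat_lit 432) (.n (nat_lit 172) (nat_lit 540) (.p (nat_lit 173) (nat_lit 144) (.p (nat_lit 174) (nat_lit 612) (.n (nat_lit 175) (nat_lit 828) (.p (nat_lit 176) (nat_lit 36) (.p (nat_lit 177) (nat_lit 36) .z)))))))))))))))))))))) (.ct dF6aa_c531 (nat_lit 36) (nat_lit 2) (.s false (nat_lit 1) (nat_lit 24) (nat_lit 0) (nat_lit 1) (nat_lit 0) true (nat_lit 7) true (nat_lit 10) false (nat_lit 2) true (nat_lit 10) true (nat_lit 9) (.e false (nat_lit 36) (nat_lit 57) (nat_lit 3) (nat_lit 7) (.e false (nat_lit 36) (nat_lit 113) (nat_lit 0) (nat_lit 10) (.e false (nat_lit 36) (nat_lit 107) (nat_lit 0) (nat_lit 10) (.e false (nat_lit 36) (nat_lit 108) (nat_lit 0) (nat_lit 10) (.e true (nat_lit 36) (nat_lit 109) (nat_lit 0) (nat_lit 10) (.e true (nat_lit 36) (nat_lit 111) (nat_lit 0) (nat_lit 10) (.e false (nat_lit 36) (nat_lit 115) (nat_lit 0) (nat_lit 10) (.e true (nat_lit 36) (nat_lit 104) (nat_lit 1) (nat_lit 9) .nil)))))))))) .leaf) (nat_lit 24587) (nat_lit 397) (.p (nat_lit 179) (nat_lit 60) (.n (nat_lit 180) (nat_lit 12) (.p (nat_lit 181) (nat_lit 24) (.n (nat_lit 182) (nat_lit 72) (.n (nat_lit 183) (nat_lit 12) (.n (nat_lit 184) (nat_lit 36) (.p (nat_lit 185) (nat_lit 12) (.n (nat_lit 186) (nat_lit 12) (.n (nat_lit 187) (nat_lit 12) (.n (nat_lit 188) (nat_lit 24) (.n (nat_lit 189) (nat_lit 24) (.n (nat_lit 190) (nat_lit 12) (.n (nat_lit 191) (nat_lit 48) (.n (nat_lit 192) (nat_lit 24) (.n (nat_lit 193) (nat_lit 24) (.n (nat_lit 194) (nat_lit 24) (.p (nat_lit 195) (nat_lit 24) (.n (nat_lit 197) (nat_lit 12) (.p (nat_lit 198) (nat_lit 24) (.n (nat_lit 199) (nat_lit 60) (.n (nat_lit 200) (nat_lit 48) (.n (nat_lit 201) (nat_lit 48) .z)))))))))))))))))))))) (.ct dF6aa_c291 (nat_lit 36) (nat_lit 2) (.s false (nat_lit 1) (nat_lit 11) (nat_lit 2) (nat_lit 2) (nat_lit 2) true (nat_lit 3) true (nat_lit 8) true (nat_lit 2) true (nat_lit 8) true (nat_lit 8) (.e false (nat_lit 36) (nat_lit 34) (nat_lit 8) (nat_lit 3) (.e false (nat_lit 36) (nat_lit 87) (nat_lit 2) (nat_lit 8) (.e true (nat_lit 36) (nat_lit 92) (nat_lit 2) (nat_lit 8) (.e true (nat_lit 36) (nat_lit 93) (nat_lit 2) (nat_lit 8) (.e false (nat_lit 36) (nat_lit 95) (nat_lit 2) (nat_lit 8) (.e true (nat_lit 36) (nat_lit 97) (nat_lit 2) (nat_lit 8) (.e false (nat_lit 36) (nat_lit 98) (nat_lit 2) (nat_lit 8) (.e true (nat_lit 36) (nat_lit 99) (nat_lit 2) (nat_lit 8) .nil)))))))))) (.nd (.nd .leaf (nat_lit 24588) (nat_lit 400) (.p (nat_lit 179) (nat_lit 243) (.n (nat_lit 180) (nat_lit 153) (.p (nat_lit 181) (nat_lit 63) (.n (nat_lit 182) (nat_lit 297) (.p (nat_lit 183) (nat_lit 135) (.p (nat_lit 185) (nat_lit 126) (.n (nat_lit 186) (nat_lit 153) (.n (nat_lit 187) (nat_lit 288) (.n (nat_lit 188) (nat_lit 153) (.n (nat_lit 189) (nat_lit 36) (.p (nat_lit 190) (nat_lit 108) (.n (nat_lit 191) (nat_lit 378) (.n (nat_lit 192) (nat_lit 180) (.n (nat_lit 193) (nat_lit 207) (.n (nat_lit 194) (nat_lit 144) (.p (nat_lit 195) (nat_lit 216) (.n (nat_lit 196) (nat_lit 27) (.n (nat_lit 197) (nat_lit 135) (.p (nat_lit 198) (nat_lit 189) (.n (nat_lit 199) (nat_lit 261) (.n (nat_lit 200) (nat_lit 396) (.n (nat_lit 201) (nat_lit 126) .z)))))))))))))))))))))) (.ct dF6aa_c291 (nat_lit 36) (nat_lit 2) (.s false (nat_lit 1) (nat_lit 24) (nat_lit 1) (nat_lit 1) (nat_lit 0) true (nat_lit 7) true (nat_lit 10) false (nat_lit 2) true (nat_lit 9) true (nat_lit 9) (.e false (nat_lit 36) (nat_lit 57) (nat_lit 4) (nat_lit 7) (.e false (nat_lit 36) (nat_lit 121) (nat_lit 0) (nat_lit 10) (.e false (nat_lit 36) (nat_lit 107) (nat_lit 1) (nat_lit 9) (.e false (nat_lit 36) (nat_lit 108) (nat_lit 1) (nat_lit 9) (.e true (nat_lit 36) (nat_lit 109) (nat_lit 1) (nat_lit 9) (.e true (nat_lit 36) (nat_lit 111) (nat_lit 1) (nat_lit 9) (.e false (nat_lit 36) (nat_lit 115) (nat_lit 1) (nat_lit 9) (.e true (nat_lit 36) (nat_lit 113) (nat_lit 1) (nat_lit 9) .nil)))))))))) .leaf) (nat_lit 25602) (nat_lit 72) (.p (nat_lit 58) (nat_lit 36) .z) .df .leaf))) (nat_lit 25608) (nat_lit 249) (.p (nat_lit 123) (nat_lit 128) (.n (nat_lit 124) (nat_lit 92) (.p (nat_lit 126) (nat_lit 244) (.p (nat_lit 127) (nat_lit 176) (.n (nat_lit 128) (nat_lit 208) (.p (nat_lit 129) (nat_lit 160) (.n (nat_lit 130) (nat_lit 200) (.p (nat_lit 131) (nat_lit 328) (.n (nat_lit 132) (nat_lit 200) (.n (nat_lit 133) (nat_lit 288) (.p (nat_lit 134) (nat_lit 168) (.p (nat_lit 135) (nat_lit 72) (.n (nat_lit 136) (nat_lit 584) (.p (nat_lit 137) (nat_lit 144) (.n (nat_lit 138) (nat_lit 808) (.p (nat_lit 139) (nat_lit 320) (.n (nat_lit 140) (nat_lit 72) (.p (nat_lit 141) (nat_lit 224) (.n (nat_lit 142) (nat_lit 640) (.p (nat_lit 143) (nat_lit 584) (.p (nat_lit 144) (nat_lit 616) (.p (nat_lit 145) (nat_lit 616) (.n (nat_lit 146) (nat_lit 616) (.n (nat_lit 148) (nat_lit 192) (.n (nat_lit 149) (nat_lit 544) (.p (nat_lit 150) (nat_lit 616) (.n (nat_lit 151) (nat_lit 84) (.n (nat_lit 152) (nat_lit 240) (.n (nat_lit 153) (nat_lit 216) (.n (nat_lit 155) (nat_lit 384) .z)))))))))))))))))))))))))))))) (.ct dF6aa_c546 (nat_lit 36) (nat_lit 4) (.s false (nat_lit 1) (nat_lit 7) (nat_lit 3) (nat_lit 2) (nat_lit 1) true (nat_lit 3) true (nat_lit 11) true (nat_lit 5) true (nat_lit 9) true (nat_lit 10) (.s true (nat_lit 1) (nat_lit 9) (nat_lit 2) (nat_lit 1) (nat_lit 2) true (nat_lit 4) true (nat_lit 10) true (nat_lit 3) true (nat_lit 10) true (nat_lit 11) (.e false (nat_lit 72) (nat_lit 72) (nat_lit 1) (nat_lit 11) (.e false (nat_lit 36) (nat_lit 73) (nat_lit 1) (nat_lit 11) (.e false (nat_lit 36) (nat_lit 74) (nat_lit 1) (nat_lit 11) (.e true (nat_lit 72) (nat_lit 75) (nat_lit 1) (nat_lit 11) (.e false (nat_lit 36) (nat_lit 76) (nat_lit 1) (nat_lit 11) (.e true (nat_lit 72) (nat_lit 79) (nat_lit 1) (nat_lit 11) (.e false (nat_lit 36) (nat_lit 80) (nat_lit 1) (nat_lit 11) (.e true (nat_lit 36) (nat_lit 82) (nat_lit 1) (nat_lit 11) (.e false (nat_lit 36) (nat_lit 83) (nat_lit 1) (nat_lit 11) (.e true (nat_lit 36) (nat_lit 84) (nat_lit 1) (nat_lit 11) (.e false (nat_lit 72) (nat_lit 85) (nat_lit 1) (nat_lit 11) (.e false (nat_lit 36) (nat_lit 30) (nat_lit 7) (nat_lit 5) (.e true (nat_lit 72) (nat_lit 61) (nat_lit 2) (nat_lit 10) (.e false (nat_lit 36) (nat_lit 62) (nat_lit 2) (nat_lit 10) (.e true (nat_lit 72) (nat_lit 63) (nat_lit 2) (nat_lit 10) (.e false (nat_lit 72) (nat_lit 65) (nat_lit 2) (nat_lit 10) (.e false (nat_lit 72) (nat_lit 67) (nat_lit 2) (nat_lit 10) (.e true (nat_lit 72) (nat_lit 68) (nat_lit 2) (nat_lit 10) (.e false (nat_lit 72) (nat_lit 69) (nat_lit 2) (nat_lit 10) (.e true (nat_lit 72) (nat_lit 70) (nat_lit 2) (nat_lit 10) .nil))))))))))))))))))))))) (.nd (.nd (.nd (.nd .leaf (nat_lit 26626) (nat_lit 73) (.p (nat_lit 59) (nat_lit 36) .z) .df .leaf) (nat_lit 26632) (nat_lit 248) (.n (nat_lit 123) (nat_lit 148) (.p (nat_lit 124) (nat_lit 76) (.n (nat_lit 125) (nat_lit 108) (.n (nat_lit 126) (nat_lit 92) (.p (nat_lit 127) (nat_lit 8) (.p (nat_lit 128) (nat_lit 164) (.n (nat_lit 129) (nat_lit 104) (.p (nat_lit 130) (nat_lit 148) (.n (nat_lit 131) (nat_lit 224) (.p (nat_lit 132) (nat_lit 148) (.p (nat_lit 133) (nat_lit 72) (.n (nat_lit 134) (nat_lit 48) (.n (nat_lit 135) (nat_lit 108) (.p (nat_lit 136) (nat_lit 340) (.n (nat_lit 137) (nat_lit 72) (.p (nat_lit 138) (nat_lit 428) (.n (nat_lit 139) (nat_lit 280) (.p (nat_lit 140) (nat_lit 108) (.n (nat_lit 141) (nat_lit 160) (.p (nat_lit 142) (nat_lit 416) (.n (nat_lit 143) (nat_lit 340) (.n (nat_lit 144) (nat_lit 332) (.n (nat_lit 145) (nat_lit 332) (.p (nat_lit 146) (nat_lit 332) (.p (nat_lit 148) (nat_lit 96) (.p (nat_lit 149) (nat_lit 224) (.n (nat_lit 150) (nat_lit 332) (.n (nat_lit 151) (nat_lit 12) (.p (nat_lit 152) (nat_lit 156) (.p (nat_lit 153) (nat_lit 180) (.p (nat_lit 155) (nat_lit 192) .z))))))))))))))))))))))))))))))) (.ct dF6aa_c546 (nat_lit 36) (nat_lit 4) (.s false (nat_lit 1) (nat_lit 10) (nat_lit 1) (nat_lit 2) (nat_lit 2) true (nat_lit 5) true (nat_lit 10) true (nat_lit 3) true (nat_lit 11) true (nat_lit 10) (.s true (nat_lit 1) (nat_lit 10) (nat_lit 2) (nat_lit 1) (nat_lit 2) true (nat_lit 4) true (nat_lit 10) true (nat_lit 3) true (nat_lit 10) true (nat_lit 11) (.e false (nat_lit 36) (nat_lit 29) (nat_lit 7) (nat_lit 5) (.e false (nat_lit 36) (nat_lit 59) (nat_lit 2) (nat_lit 10) (.e false (nat_lit 36) (nat_lit 75) (nat_lit 1) (nat_lit 11) (.e true (nat_lit 36) (nat_lit 78) (nat_lit 1) (nat_lit 11) (.e false (nat_lit 36) (nat_lit 79) (nat_lit 1) (nat_lit 11) (.e true (nat_lit 72) (nat_lit 80) (nat_lit 1) (nat_lit 11) (.e false (nat_lit 36) (nat_lit 82) (nat_lit 1) (nat_lit 11) (.e true (nat_lit 36) (nat_lit 83) (nat_lit 1) (nat_lit 11) (.e false (nat_lit 36) (nat_lit 84) (nat_lit 1) (nat_lit 11) (.e true (nat_lit 36) (nat_lit 85) (nat_lit 1) (nat_lit 11) (.e true (nat_lit 72) (nat_lit 61) (nat_lit 2) (nat_lit 10) (.e false (nat_lit 36) (nat_lit 71) (nat_lit 2) (nat_lit 10) (.e false (nat_lit 36) (nat_lit 73) (nat_lit 1) (nat_lit 11) .nil)))))))))))))))) .leaf) (nat_lit 27650) (nat_lit 88) (.p (nat_lit 59) (nat_lit 36) (.n (nat_lit 61) (nat_lit 36) (.p (nat_lit 62) (nat_lit 36) (.n (nat_lit 63) (nat_lit 36) (.p (nat_lit 65) (nat_lit 36) (.p (nat_lit 67) (nat_lit 36) (.n (nat_lit 68) (nat_lit 36) (.p (nat_lit 69) (nat_lit 36) (.n (nat_lit 70) (nat_lit 36) .z))))))))) (.ct dF6aa_c545 (nat_lit 36) (nat_lit 5) (.s true (nat_lit 1) (nat_lit 4) (nat_lit 0) (nat_lit 1) (nat_lit 2) true (nat_lit 1) true (nat_lit 5) true (nat_lit 3) true (nat_lit 7) true (nat_lit 6) (.s false (nat_lit 1) (nat_lit 4) (nat_lit 0) (nat_lit 2) (nat_lit 1) true (nat_lit 3) true (nat_lit 6) true (nat_lit 3) true (nat_lit 7) true (nat_lit 5) (.s true (nat_lit 1) (nat_lit 4) (nat_lit 2) (nat_lit 0) (nat_lit 1) true (nat_lit 0) true (nat_lit 6) true (nat_lit 3) true (nat_lit 5) true (nat_lit 7) (.e true (nat_lit 36) (nat_lit 11) (nat_lit 6) (nat_lit 1) (.e true (nat_lit 36) (nat_lit 26) (nat_lit 2) (nat_lit 5) (.e false (nat_lit 36) (nat_lit 34) (nat_lit 0) (nat_lit 7) (.e false (nat_lit 36) (nat_lit 29) (nat_lit 1) (nat_lit 6) (.e true (nat_lit 36) (nat_lit 10) (nat_lit 7) (nat_lit 0) .nil))))))))) (.nd (.nd .leaf (nat_lit 27656) (nat_lit 256) (.p (nat_lit 123) (nat_lit 188) (.n (nat_lit 124) (nat_lit 80) (.p (nat_lit 125) (nat_lit 72) (.p (nat_lit 126) (nat_lit 184) (.p (nat_lit 127) (nat_lit 128) (.n (nat_lit 128) (nat_lit 256) (.p (nat_lit 129) (nat_lit 136) (.n (nat_lit 130) (nat_lit 224) (.p (nat_lit 131) (nat_lit 304) (.n (nat_lit 132) (nat_lit 224) (.n (nat_lit 133) (nat_lit 180) (.p (nat_lit 134) (nat_lit 132) (.p (nat_lit 135) (nat_lit 108) (.n (nat_lit 136) (nat_lit 572) (.p (nat_lit 137) (nat_lit 180) (.n (nat_lit 138) (nat_lit 712) (.p (nat_lit 139) (nat_lit 308) (.n (nat_lit 140) (nat_lit 144) (.p (nat_lit 141) (nat_lit 212) (.n (nat_lit 142) (nat_lit 616) (.p (nat_lit 143) (nat_lit 572) (.p (nat_lit 144) (nat_lit 520) (.p (nat_lit 145) (nat_lit 520) (.n (nat_lit 146) (nat_lit 520) (.n (nat_lit 148) (nat_lit 156) (.n (nat_lit 149) (nat_lit 448) (.p (nat_lit 150) (nat_lit 520) (.n (nat_lit 151) (nat_lit 48) (.n (nat_lit 152) (nat_lit 276) (.n (nat_lit 153) (nat_lit 288) (.n (nat_lit 155) (nat_lit 312) .z))))))))))))))))))))))))))))))) (.ct dF6aa_c546 (nat_lit 36) (nat_lit 4) (.s false (nat_lit 1) (nat_lit 8) (nat_lit 1) (nat_lit 4) (nat_lit 0) true (nat_lit 8) true (nat_lit 12) true (nat_lit 4) true (nat_lit 11) true (nat_lit 8) (.e true (nat_lit 36) (nat_lit 44) (nat_lit 4) (nat_lit 8) (.e true (nat_lit 36) (nat_lit 45) (nat_lit 4) (nat_lit 8) (.e false (nat_lit 36) (nat_lit 46) (nat_lit 4) (nat_lit 8) (.e false (nat_lit 36) (nat_lit 48) (nat_lit 4) (nat_lit 8) (.e false (nat_lit 36) (nat_lit 88) (nat_lit 0) (nat_lit 12) (.e true (nat_lit 36) (nat_lit 89) (nat_lit 0) (nat_lit 12) (.e false (nat_lit 36) (nat_lit 90) (nat_lit 0) (nat_lit 12) (.e true (nat_lit 36) (nat_lit 91) (nat_lit 0) (nat_lit 12) (.e true (nat_lit 36) (nat_lit 99) (nat_lit 0) (nat_lit 12) (.e false (nat_lit 36) (nat_lit 75) (nat_lit 1) (nat_lit 11) (.e true (nat_lit 36) (nat_lit 78) (nat_lit 1) (nat_lit 11) (.e false (nat_lit 36) (nat_lit 79) (nat_lit 1) (nat_lit 11) (.e true (nat_lit 72) (nat_lit 80) (nat_lit 1) (nat_lit 11) (.e false (nat_lit 36) (nat_lit 82) (nat_lit 1) (nat_lit 11) (.e true (nat_lit 36) (nat_lit 83) (nat_lit 1) (nat_lit 11) (.e false (nat_lit 36) (nat_lit 84) (nat_lit 1) (nat_lit 11) (.e true (nat_lit 36) (nat_lit 85) (nat_lit 1) (nat_lit 11) (.e false (nat_lit 36) (nat_lit 47) (nat_lit 4) (nat_lit 8) .nil)))))))))))))))))))) .leaf) (nat_lit 28673) (nat_lit 74) (.p (nat_lit 60) (nat_lit 36) .z) .df .leaf)) (nat_lit 28674) (nat_lit 98) (.p (nat_lit 72) (nat_lit 36) .z) .df (.nd (.nd (.nd .leaf (nat_lit 28679) (nat_lit 220) (.p (nat_lit 151) (nat_lit 36) .z) .df .leaf) (nat_lit 28680) (nat_lit 308) (.p (nat_lit 156) (nat_lit 108) (.n (nat_lit 157) (nat_lit 72) (.n (nat_lit 159) (nat_lit 144) (.p (nat_lit 160) (nat_lit 144) (.p (nat_lit 161) (nat_lit 72) (.n (nat_lit 164) (nat_lit 72) (.n (nat_lit 167) (nat_lit 144) (.p (nat_lit 168) (nat_lit 72) (.n (nat_lit 169) (nat_lit 144) (.p (nat_lit 170) (nat_lit 144) (.p (nat_lit 171) (nat_lit 72) (.p (nat_lit 172) (nat_lit 72) (.n (nat_lit 173) (nat_lit 144) (.p (nat_lit 174) (nat_lit 72) (.n (nat_lit 176) (nat_lit 144) (.p (nat_lit 177) (nat_lit 216) .z)))))))))))))))) (.ct dF6aa_c531 (nat_lit 36) (nat_lit 3) (.s true (nat_lit 1) (nat_lit 6) (nat_lit 1) (nat_lit 6) (nat_lit 2) true (nat_lit 4) true (nat_lit 8) true (nat_lit 5) true (nat_lit 9) true (nat_lit 5) dF6aa_i29)) .leaf) (nat_lit 29697) (nat_lit 75) (.p (nat_lit 61) (nat_lit 36) .z) .df (.nd (.nd .leaf (nat_lit 29698) (nat_lit 99) (.p (nat_lit 73) (nat_lit 36) .z) .df .leaf) (nat_lit 29703) (nat_lit 221) (.p (nat_lit 152) (nat_lit 36) .z) .df .leaf)))) (nat_lit 29704) (nat_lit 322) (.n (nat_lit 156) (nat_lit 288) (.p (nat_lit 157) (nat_lit 396) (.p (nat_lit 158) (nat_lit 756) (.n (nat_lit 159) (nat_lit 72) (.n (nat_lit 160) (nat_lit 180) (.p (nat_lit 161) (nat_lit 144) (.n (nat_lit 162) (nat_lit 648) (.n (nat_lit 163) (nat_lit 144) (.n (nat_lit 164) (nat_lit 144) (.n (nat_lit 166) (nat_lit 216) (.p (nat_lit 167) (nat_lit 72) (.p (nat_lit 168) (nat_lit 36) (.n (nat_lit 169) (nat_lit 252) (.p (nat_lit 170) (nat_lit 468) (.n (nat_lit 171) (nat_lit 108) (.n (nat_lit 172) (nat_lit 108) (.n (nat_lit 173) (nat_lit 72) (.p (nat_lit 174) (nat_lit 288) (.n (nat_lit 175) (nat_lit 324) (.n (nat_lit 176) (nat_lit 72) (.p (nat_lit 177) (nat_lit 216) .z))))))))))))))))))))) (.ct dF6aa_c531 (nat_lit 36) (nat_lit 3) (.s true (nat_lit 1) (nat_lit 6) (nat_lit 4) (nat_lit 2) (nat_lit 2) true (nat_lit 0) true (nat_lit 8) true (nat_lit 5) true (nat_lit 6) true (nat_lit 8) (.s true (nat_lit 1) (nat_lit 8) (nat_lit 4) (nat_lit 0) (nat_lit 2) true (nat_lit 0) true (nat_lit 8) true (nat_lit 3) true (nat_lit 6) true (nat_lit 10) (.s false (nat_lit 1) (nat_lit 15) (nat_lit 0) (nat_lit 2) (nat_lit 2) true (nat_lit 5) true (nat_lit 8) true (nat_lit 0) true (nat_lit 10) true (nat_lit 8) (.s false (nat_lit 1) (nat_lit 15) (nat_lit 2) (nat_lit 2) (nat_lit 0) true (nat_lit 5) true (nat_lit 10) true (nat_lit 0) true (nat_lit 8) true (nat_lit 8) (.e true (nat_lit 36) (nat_lit 72) (nat_lit 2) (nat_lit 8) (.e false (nat_lit 36) (nat_lit 74) (nat_lit 2) (nat_lit 8) (.e true (nat_lit 36) (nat_lit 76) (nat_lit 2) (nat_lit 8) (.e false (nat_lit 36) (nat_lit 43) (nat_lit 6) (nat_lit 5) (.e true (nat_lit 36) (nat_lit 80) (nat_lit 2) (nat_lit 8) (.e false (nat_lit 36) (nat_lit 73) (nat_lit 2) (nat_lit 8) (.e false (nat_lit 36) (nat_lit 107) (nat_lit 0) (nat_lit 10) (.e false (nat_lit 36) (nat_lit 108) (nat_lit 0) (nat_lit 10) (.e true (nat_lit 36) (nat_lit 109) (nat_lit 0) (nat_lit 10) (.e true (nat_lit 36) (nat_lit 111) (nat_lit 0) (nat_lit 10) (.e false (nat_lit 36) (nat_lit 106) (nat_lit 0) (nat_lit 10) .nil)))))))))))))))) (.nd (.nd (.nd (.nd (.nd .leaf (nat_lit 30721) (nat_lit 76) (.p (nat_lit 62) (nat_lit 36) .z) .df .leaf) (nat_lit 30722) (nat_lit 114) (.n (nat_lit 72) (nat_lit 72) (.p (nat_lit 73) (nat_lit 36) (.p (nat_lit 74) (nat_lit 36) (.p (nat_lit 75) (nat_lit 72) (.n (nat_lit 76) (nat_lit 108) (.p (nat_lit 79) (nat_lit 72) (.n (nat_lit 80) (nat_lit 36) (.p (nat_lit 82) (nat_lit 36) (.n (nat_lit 83) (nat_lit 36) (.p (nat_lit 84) (nat_lit 36) (.n (nat_lit 85) (nat_lit 72) .z))))))))))) (.ct dF6aa_c530 (nat_lit 36) (nat_lit 5) (.s true (nat_lit 1) (nat_lit 6) (nat_lit 0) (nat_lit 1) (nat_lit 2) true (nat_lit 2) true (nat_lit 5) true (nat_lit 2) true (nat_lit 7) true (nat_lit 6) (.s false (nat_lit 1) (nat_lit 6) (nat_lit 0) (nat_lit 2) (nat_lit 1) true (nat_lit 3) true (nat_lit 6) true (nat_lit 2) true (nat_lit 7) true (nat_lit 5) (.s true (nat_lit 1) (nat_lit 6) (nat_lit 1) (nat_lit 2) (nat_lit 0) true (nat_lit 3) true (nat_lit 7) true (nat_lit 2) true (nat_lit 6) true (nat_lit 5) (.e false (nat_lit 36) (nat_lit 31) (nat_lit 2) (nat_lit 5) (.e true (nat_lit 36) (nat_lit 15) (nat_lit 6) (nat_lit 2) (.e true (nat_lit 36) (nat_lit 44) (nat_lit 0) (nat_lit 7) (.e false (nat_lit 36) (nat_lit 42) (nat_lit 1) (nat_lit 6) (.e false (nat_lit 36) (nat_lit 41) (nat_lit 1) (nat_lit 6) (.e true (nat_lit 36) (nat_lit 28) (nat_lit 2) (nat_lit 5) (.e false (nat_lit 36) (nat_lit 29) (nat_lit 2) (nat_lit 5) (.e false (nat_lit 36) (nat_lit 32) (nat_lit 2) (nat_lit 5) (.e true (nat_lit 72) (nat_lit 33) (nat_lit 2) (nat_lit 5) (.e true (nat_lit 36) (nat_lit 17) (nat_lit 6) (nat_lit 2) .nil)))))))))))))) (.nd .leaf (nat_lit 30727) (nat_lit 228) (.p (nat_lit 123) (nat_lit 200) (.n (nat_lit 124) (nat_lit 92) (.p (nat_lit 125) (nat_lit 36) (.p (nat_lit 126) (nat_lit 208) (.p (nat_lit 127) (nat_lit 104) (.n (nat_lit 128) (nat_lit 244) (.p (nat_lit 129) (nat_lit 124) (.n (nat_lit 130) (nat_lit 200) (.p (nat_lit 131) (nat_lit 292) (.n (nat_lit 132) (nat_lit 200) (.n (nat_lit 133) (nat_lit 180) (.p (nat_lit 134) (nat_lit 96) (.p (nat_lit 135) (nat_lit 72) (.n (nat_lit 136) (nat_lit 512) (.p (nat_lit 137) (nat_lit 108) (.n (nat_lit 138) (nat_lit 700) (.p (nat_lit 139) (nat_lit 320) (.n (nat_lit 140) (nat_lit 72) (.p (nat_lit 141) (nat_lit 188) (.n (nat_lit 142) (nat_lit 604) (.p (nat_lit 143) (nat_lit 512) (.p (nat_lit 144) (nat_lit 580) (.p (nat_lit 145) (nat_lit 580) (.n (nat_lit 146) (nat_lit 580) (.n (nat_lit 148) (nat_lit 192) (.n (nat_lit 149) (nat_lit 472) (.p (nat_lit 150) (nat_lit 580) (.n (nat_lit 151) (nat_lit 48) (.n (nat_lit 152) (nat_lit 240) (.n (nat_lit 153) (nat_lit 252) (.n (nat_lit 155) (nat_lit 384) .z))))))))))))))))))))))))))))))) (.ct dF6aa_c546 (nat_lit 72) (nat_lit 5) (.s true (nat_lit 2) (nat_lit 4) (nat_lit 2) (nat_lit 2) (nat_lit 4) true (nat_lit 0) true (nat_lit 8) true (nat_lit 8) true (nat_lit 10) true (nat_lit 10) (.s false (nat_lit 2) (nat_lit 6) (nat_lit 1) (nat_lit 2) (nat_lit 4) true (nat_lit 2) true (nat_lit 8) true (nat_lit 6) true (nat_lit 11) true (nat_lit 10) (.s true (nat_lit 2) (nat_lit 7) (nat_lit 0) (nat_lit 4) (nat_lit 2) true (nat_lit 6) true (nat_lit 10) true (nat_lit 5) true (nat_lit 12) true (nat_lit 8) (.s false (nat_lit 1) (nat_lit 7) (nat_lit 1) (nat_lit 2) (nat_lit 3) true (nat_lit 3) true (nat_lit 9) true (nat_lit 5) true (nat_lit 11) true (nat_lit 10) (.s false (nat_lit 1) (nat_lit 7) (nat_lit 2) (nat_lit 3) (nat_lit 1) true (nat_lit 5) true (nat_lit 11) true (nat_lit 5) true (nat_lit 10) true (nat_lit 9) (.s false (nat_lit 2) (nat_lit 7) (nat_lit 2) (nat_lit 4) (nat_lit 0) true (nat_lit 6) true (nat_lit 12) true (nat_lit 5) true (nat_lit 10) true (nat_lit 8) (.s true (nat_lit 1) (nat_lit 7) (nat_lit 3) (nat_lit 2) (nat_lit 1) true (nat_lit 3) true (nat_lit 11) true (nat_lit 5) true (nat_lit 9) true (nat_lit 10) (.s false (nat_lit 2) (nat_lit 7) (nat_lit 6) (nat_lit 1) (nat_lit 0) true (nat_lit 1) true (nat_lit 12) true (nat_lit 5) true (nat_lit 6) true (nat_lit 11) (.s false (nat_lit 2) (nat_lit 15) (nat_lit 0) (nat_lit 2) (nat_lit 1) true (nat_lit 8) true (nat_lit 11) true (nat_lit 0) true (nat_lit 12) true (nat_lit 10) (.s false (nat_lit 2) (nat_lit 15) (nat_lit 1) (nat_lit 0) (nat_lit 2) true (nat_lit 5) true (nat_lit 10) true (nat_lit 0) true (nat_lit 11) true (nat_lit 12) (.s true (nat_lit 2) (nat_lit 16) (nat_lit 1) (nat_lit 0) (nat_lit 2) true (nat_lit 5) true (nat_lit 10) true (nat_lit 0) true (nat_lit 11) true (nat_lit 12) (.s true (nat_lit 2) (nat_lit 19) (nat_lit 0) (nat_lit 2) (nat_lit 0) true (nat_lit 9) true (nat_lit 12) false (nat_lit 1) true (nat_lit 12) true (nat_lit 10) (.s true (nat_lit 2) (nat_lit 20) (nat_lit 0) (nat_lit 1) (nat_lit 1) true (nat_lit 8) true (nat_lit 11) false (nat_lit 2) true (nat_lit 12) true (nat_lit 11) (.a false (nat_lit 2592) (nat_lit 15) (nat_lit 16) (nat_lit 0) (nat_lit 0) (.e true (nat_lit 216) (nat_lit 59) (nat_lit 2) (nat_lit 10) (.e true (nat_lit 72) (nat_lit 60) (nat_lit 2) (nat_lit 10) (.e false (nat_lit 216) (nat_lit 61) (nat_lit 2) (nat_lit 10) (.e true (nat_lit 144) (nat_lit 62) (nat_lit 2) (nat_lit 10) dF6aa_i6))))))))))))))))))) .leaf)) (nat_lit 30728) (nat_lit 317) (.n (nat_lit 156) (nat_lit 576) (.p (nat_lit 157) (nat_lit 720) (.p (nat_lit 158) (nat_lit 1368) (.n (nat_lit 160) (nat_lit 396) (.p (nat_lit 161) (nat_lit 216) (.n (nat_lit 162) (nat_lit 1260) (.n (nat_lit 163) (nat_lit 216) (.n (nat_lit 164) (nat_lit 216) (.n (nat_lit 166) (nat_lit 360) (.p (nat_lit 167) (nat_lit 252) (.n (nat_lit 169) (nat_lit 432) (.p (nat_lit 170) (nat_lit 756) (.n (nat_lit 171) (nat_lit 252) (.n (nat_lit 172) (nat_lit 360) (.p (nat_lit 174) (nat_lit 504) (.n (nat_lit 175) (nat_lit 612) (.n (nat_lit 176) (nat_lit 108) (.p (nat_lit 177) (nat_lit 216) .z)))))))))))))))))) (.ct dF6aa_c531 (nat_lit 36) (nat_lit 3) (.s true (nat_lit 1) (nat_lit 13) (nat_lit 2) (nat_lit 1) (nat_lit 2) true (nat_lit 3) true (nat_lit 8) true (nat_lit 1) true (nat_lit 8) true (nat_lit 9) (.s false (nat_lit 1) (nat_lit 22) (nat_lit 0) (nat_lit 0) (nat_lit 2) true (nat_lit 5) true (nat_lit 8) false (nat_lit 1) true (nat_lit 10) true (nat_lit 10) (.e true (nat_lit 36) (nat_lit 77) (nat_lit 2) (nat_lit 8) (.e true (nat_lit 36) (nat_lit 72) (nat_lit 2) (nat_lit 8) (.e false (nat_lit 36) (nat_lit 75) (nat_lit 2) (nat_lit 8) (.e true (nat_lit 72) (nat_lit 76) (nat_lit 2) (nat_lit 8) (.e true (nat_lit 36) (nat_lit 78) (nat_lit 2) (nat_lit 8) (.e false (nat_lit 36) (nat_lit 79) (nat_lit 2) (nat_lit 8) (.e false (nat_lit 36) (nat_lit 82) (nat_lit 2) (nat_lit 8) (.e false (nat_lit 72) (nat_lit 84) (nat_lit 2) (nat_lit 8) (.e true (nat_lit 36) (nat_lit 85) (nat_lit 2) (nat_lit 8) (.e false (nat_lit 36) (nat_lit 100) (nat_lit 1) (nat_lit 9) (.e false (nat_lit 36) (nat_lit 48) (nat_lit 6) (nat_lit 5) (.e true (nat_lit 36) (nat_lit 107) (nat_lit 0) (nat_lit 10) (.e false (nat_lit 36) (nat_lit 106) (nat_lit 0) (nat_lit 10) (.e true (nat_lit 36) (nat_lit 108) (nat_lit 0) (nat_lit 10) (.e true (nat_lit 36) (nat_lit 111) (nat_lit 0) (nat_lit 10) (.e false (nat_lit 36) (nat_lit 114) (nat_lit 0) (nat_lit 10) (.e true (nat_lit 36) (nat_lit 115) (nat_lit 0) (nat_lit 10) .nil)))))))))))))))))))) (.nd (.nd .leaf (nat_lit 31745) (nat_lit 77) (.p (nat_lit 63) (nat_lit 36) .z) .df .leaf) (nat_lit 31746) (nat_lit 100) (.p (nat_lit 74) (nat_lit 36) .z) .df .leaf)) (nat_lit 31751) (nat_lit 222) (.p (nat_lit 153) (nat_lit 36) .z) .df (.nd (.nd (.nd .leaf (nat_lit 31752) (nat_lit 311) (.p (nat_lit 156) (nat_lit 1296) (.n (nat_lit 157) (nat_lit 1404) (.n (nat_lit 158) (nat_lit 2556) (.n (nat_lit 159) (nat_lit 504) (.p (nat_lit 160) (nat_lit 1080) (.n (nat_lit 161) (nat_lit 216) (.p (nat_lit 162) (nat_lit 2412) (.p (nat_lit 163) (nat_lit 432) (.p (nat_lit 164) (nat_lit 252) (.n (nat_lit 165) (nat_lit 144) (.p (nat_lit 166) (nat_lit 720) (.n (nat_lit 167) (nat_lit 756) (.p (nat_lit 168) (nat_lit 252) (.p (nat_lit 169) (nat_lit 396) (.n (nat_lit 170) (nat_lit 900) (.p (nat_lit 171) (nat_lit 648) (.p (nat_lit 172) (nat_lit 900) (.n (nat_lit 173) (nat_lit 504) (.n (nat_lit 174) (nat_lit 648) (.p (nat_lit 175) (nat_lit 1080) (.n (nat_lit 176) (nat_lit 252) (.p (nat_lit 177) (nat_lit 396) .z)))))))))))))))))))))) (.ct dF6aa_c531 (nat_lit 36) (nat_lit 3) (.s false (nat_lit 1) (nat_lit 14) (nat_lit 1) (nat_lit 2) (nat_lit 2) true (nat_lit 4) true (nat_lit 8) true (nat_lit 1) true (nat_lit 9) true (nat_lit 8) (.s true (nat_lit 1) (nat_lit 14) (nat_lit 2) (nat_lit 1) (nat_lit 2) true (nat_lit 3) true (nat_lit 8) true (nat_lit 1) true (nat_lit 8) true (nat_lit 9) (.e false (nat_lit 36) (nat_lit 41) (nat_lit 7) (nat_lit 4) (.e false (nat_lit 36) (nat_lit 74) (nat_lit 2) (nat_lit 8) (.e true (nat_lit 36) (nat_lit 105) (nat_lit 1) (nat_lit 9) (.e true (nat_lit 72) (nat_lit 78) (nat_lit 2) (nat_lit 8) (.e false (nat_lit 36) (nat_lit 72) (nat_lit 2) (nat_lit 8) (.e true (nat_lit 36) (nat_lit 75) (nat_lit 2) (nat_lit 8) (.e false (nat_lit 36) (nat_lit 76) (nat_lit 2) (nat_lit 8) (.e true (nat_lit 72) (nat_lit 79) (nat_lit 2) (nat_lit 8) (.e false (nat_lit 36) (nat_lit 80) (nat_lit 2) (nat_lit 8) (.e false (nat_lit 36) (nat_lit 83) (nat_lit 2) (nat_lit 8) (.e true (nat_lit 36) (nat_lit 84) (nat_lit 2) (nat_lit 8) (.e false (nat_lit 36) (nat_lit 85) (nat_lit 2) (nat_lit 8) (.e false (nat_lit 36) (nat_lit 101) (nat_lit 1) (nat_lit 9) .nil)))))))))))))))) .leaf) (nat_lit 32769) (nat_lit 78) (.p (nat_lit 64) (nat_lit 36) .z) .df .leaf) (nat_lit 32770) (nat_lit 101) (.p (nat_lit 75) (nat_lit 36) .z) .df (.nd (.nd .leaf (nat_lit 32775) (nat_lit 259) (.n (nat_lit 123) (nat_lit 40) (.p (nat_lit 124) (nat_lit 4) (.p (nat_lit 125) (nat_lit 36) (.n (nat_lit 126) (nat_lit 92) (.n (nat_lit 127) (nat_lit 136) (.p (nat_lit 128) (nat_lit 20) (.n (nat_lit 129) (nat_lit 32) (.p (nat_lit 130) (nat_lit 76) (.n (nat_lit 131) (nat_lit 8) (.p (nat_lit 132) (nat_lit 40) (.p (nat_lit 133) (nat_lit 108) (.p (nat_lit 134) (nat_lit 24) (.p (nat_lit 136) (nat_lit 52) (.p (nat_lit 138) (nat_lit 68) (.p (nat_lit 139) (nat_lit 44) (.n (nat_lit 140) (nat_lit 36) (.p (nat_lit 141) (nat_lit 20) (.p (nat_lit 142) (nat_lit 56) (.n (nat_lit 143) (nat_lit 52) (.n (nat_lit 144) (nat_lit 116) (.n (nat_lit 145) (nat_lit 116) (.p (nat_lit 146) (nat_lit 80) (.p (nat_lit 148) (nat_lit 24) (.p (nat_lit 149) (nat_lit 152) (.n (nat_lit 150) (nat_lit 80) (.p (nat_lit 151) (nat_lit 60) (.p (nat_lit 152) (nat_lit 84) (.n (nat_lit 154) (nat_lit 36) (.p (nat_lit 155) (nat_lit 48) .z))))))))))))))))))))))))))))) (.ct dF6aa_c546 (nat_lit 36) (nat_lit 5) (.s false (nat_lit 1) (nat_lit 15) (nat_lit 0) (nat_lit 1) (nat_lit 2) true (nat_lit 6) true (nat_lit 10) true (nat_lit 0) true (nat_lit 12) true (nat_lit 11) (.s true (nat_lit 1) (nat_lit 15) (nat_lit 1) (nat_lit 0) (nat_lit 2) true (nat_lit 5) true (nat_lit 10) true (nat_lit 0) true (nat_lit 11) true (nat_lit 12) (.e false (nat_lit 36) (nat_lit 36) (nat_lit 6) (nat_lit 6) (.e false (nat_lit 36) (nat_lit 64) (nat_lit 2) (nat_lit 10) (.e true (nat_lit 36) (nat_lit 99) (nat_lit 0) (nat_lit 12) (.e true (nat_lit 36) (nat_lit 80) (nat_lit 1) (nat_lit 11) (.e true (nat_lit 36) (nat_lit 68) (nat_lit 2) (nat_lit 10) (.e false (nat_lit 36) (nat_lit 85) (nat_lit 1) (nat_lit 11) (.e false (nat_lit 36) (nat_lit 91) (nat_lit 0) (nat_lit 12) .nil)))))))))) .leaf) (nat_lit 32776) (nat_lit 330) (.p (nat_lit 156) (nat_lit 216) (.n (nat_lit 157) (nat_lit 288) (.n (nat_lit 158) (nat_lit 504) (.p (nat_lit 160) (nat_lit 144) (.n (nat_lit 161) (nat_lit 72) (.p (nat_lit 162) (nat_lit 468) (.p (nat_lit 163) (nat_lit 108) (.p (nat_lit 165) (nat_lit 36) (.p (nat_lit 166) (nat_lit 180) (.n (nat_lit 167) (nat_lit 144) (.p (nat_lit 168) (nat_lit 36) (.p (nat_lit 169) (nat_lit 108) (.n (nat_lit 170) (nat_lit 180) (.p (nat_lit 171) (nat_lit 72) (.p (nat_lit 172) (nat_lit 144) (.n (nat_lit 173) (nat_lit 72) (.n (nat_lit 174) (nat_lit 144) (.p (nat_lit 175) (nat_lit 180) (.p (nat_lit 177) (nat_lit 36) .z))))))))))))))))))) (.ct dF6aa_c531 (nat_lit 36) (nat_lit 3) (.s false (nat_lit 1) (nat_lit 15) (nat_lit 0) (nat_lit 2) (nat_lit 2) true (nat_lit 5) true (nat_lit 8) true (nat_lit 0) true (nat_lit 10) true (nat_lit 8) (.s true (nat_lit 1) (nat_lit 15) (nat_lit 2) (nat_lit 0) (nat_lit 2) true (nat_lit 3) true (nat_lit 8) true (nat_lit 0) true (nat_lit 8) true (nat_lit 10) (.e false (nat_lit 36) (nat_lit 43) (nat_lit 6) (nat_lit 5) (.e false (nat_lit 36) (nat_lit 75) (nat_lit 2) (nat_lit 8) (.e true (nat_lit 36) (nat_lit 115) (nat_lit 0) (nat_lit 10) (.e true (nat_lit 72) (nat_lit 80) (nat_lit 2) (nat_lit 8) (.e false (nat_lit 36) (nat_lit 85) (nat_lit 2) (nat_lit 8) (.e false (nat_lit 36) (nat_lit 106) (nat_lit 0) (nat_lit 10) .nil))))))))) .leaf))) (nat_lit 33793) (nat_lit 79) (.p (nat_lit 65) (nat_lit 36) .z) .df (.nd (.nd (.nd (.nd .leaf (nat_lit 33794) (nat_lit 102) (.p (nat_lit 76) (nat_lit 36) .z) .df .leaf) (nat_lit 33799) (nat_lit 232) (.n (nat_lit 123) (nat_lit 112) (.p (nat_lit 124) (nat_lit 40) (.n (nat_lit 126) (nat_lit 128) (.n (nat_lit 127) (nat_lit 100) (.p (nat_lit 128) (nat_lit 128) (.n (nat_lit 129) (nat_lit 68) (.p (nat_lit 130) (nat_lit 112) (.n (nat_lit 131) (nat_lit 152) (.p (nat_lit 132) (nat_lit 112) (.p (nat_lit 133) (nat_lit 108) (.n (nat_lit 134) (nat_lit 48) (.n (nat_lit 135) (nat_lit 36) (.p (nat_lit 136) (nat_lit 268) (.n (nat_lit 137) (nat_lit 72) (.p (nat_lit 138) (nat_lit 356) (.n (nat_lit 139) (nat_lit 136) (.p (nat_lit 140) (nat_lit 36) (.n (nat_lit 141) (nat_lit 88) (.p (nat_lit 142) (nat_lit 308) (.n (nat_lit 143) (nat_lit 268) (.n (nat_lit 144) (nat_lit 296) (.n (nat_lit 145) (nat_lit 296) (.p (nat_lit 146) (nat_lit 296) (.p (nat_lit 148) (nat_lit 96) (.p (nat_lit 149) (nat_lit 260) (.n (nat_lit 150) (nat_lit 296) (.p (nat_lit 151) (nat_lit 24) (.p (nat_lit 152) (nat_lit 156) (.p (nat_lit 153) (nat_lit 144) (.p (nat_lit 155) (nat_lit 192) .z)))))))))))))))))))))))))))))) (.ct dF6aa_c546 (nat_lit 108) (nat_lit 5) (.s false (nat_lit 1) (nat_lit 6) (nat_lit 1) (nat_lit 1) (nat_lit 6) true (nat_lit 0) true (nat_lit 6) true (nat_lit 6) true (nat_lit 11) true (nat_lit 11) (.s false (nat_lit 1) (nat_lit 6) (nat_lit 2) (nat_lit 0) (nat_lit 5) false (nat_lit 1) true (nat_lit 7) true (nat_lit 6) true (nat_lit 10) true (nat_lit 12) (.s true (nat_lit 1) (nat_lit 7) (nat_lit 0) (nat_lit 0) (nat_lit 7) true (nat_lit 0) true (nat_lit 5) true (nat_lit 5) true (nat_lit 12) true (nat_lit 12) (.s false (nat_lit 1) (nat_lit 7) (nat_lit 0) (nat_lit 4) (nat_lit 2) true (nat_lit 6) true (nat_lit 10) true (nat_lit 5) true (nat_lit 12) true (nat_lit 8) (.s false (nat_lit 1) (nat_lit 7) (nat_lit 2) (nat_lit 0) (nat_lit 4) true (nat_lit 0) true (nat_lit 8) true (nat_lit 5) true (nat_lit 10) true (nat_lit 12) (.s true (nat_lit 1) (nat_lit 7) (nat_lit 2) (nat_lit 4) (nat_lit 0) true (nat_lit 6) true (nat_lit 12) true (nat_lit 5) true (nat_lit 10) true (nat_lit 8) (.s true (nat_lit 1) (nat_lit 14) (nat_lit 1) (nat_lit 1) (nat_lit 2) true (nat_lit 5) true (nat_lit 10) true (nat_lit 1) true (nat_lit 11) true (nat_lit 11) (.s true (nat_lit 1) (nat_lit 16) (nat_lit 0) (nat_lit 1) (nat_lit 2) true (nat_lit 6) true (nat_lit 10) true (nat_lit 0) true (nat_lit 12) true (nat_lit 11) (.s false (nat_lit 1) (nat_lit 16) (nat_lit 1) (nat_lit 0) (nat_lit 2) true (nat_lit 5) true (nat_lit 10) true (nat_lit 0) true (nat_lit 11) true (nat_lit 12) (.s true (nat_lit 1) (nat_lit 17) (nat_lit 1) (nat_lit 0) (nat_lit 2) true (nat_lit 5) true (nat_lit 10) true (nat_lit 0) true (nat_lit 11) true (nat_lit 12) (.s false (nat_lit 1) (nat_lit 17) (nat_lit 1) (nat_lit 2) (nat_lit 0) true (nat_lit 8) true (nat_lit 12) true (nat_lit 0) true (nat_lit 11) true (nat_lit 10) (.s true (nat_lit 1) (nat_lit 16) (nat_lit 2) (nat_lit 0) (nat_lit 1) true (nat_lit 5) true (nat_lit 11) true (nat_lit 0) true (nat_lit 10) true (nat_lit 12) (.s false (nat_lit 1) (nat_lit 20) (nat_lit 0) (nat_lit 1) (nat_lit 1) true (nat_lit 8) true (nat_lit 11) false (nat_lit 2) true (nat_lit 12) true (nat_lit 11) dF6aa_i13)))))))))))))) .leaf) (nat_lit 33800) (nat_lit 307) (.p (nat_lit 156) (nat_lit 540) (.n (nat_lit 157) (nat_lit 612) (.n (nat_lit 158) (nat_lit 1188) (.n (nat_lit 159) (nat_lit 144) (.p (nat_lit 160) (nat_lit 396) (.n (nat_lit 161) (nat_lit 144) (.p (nat_lit 162) (nat_lit 1116) (.p (nat_lit 163) (nat_lit 180) (.p (nat_lit 164) (nat_lit 144) (.n (nat_lit 165) (nat_lit 36) (.p (nat_lit 166) (nat_lit 324) (.n (nat_lit 167) (nat_lit 288) (.p (nat_lit 168) (nat_lit 72) (.p (nat_lit 169) (nat_lit 288) (.n (nat_lit 170) (nat_lit 504) (.p (nat_lit 171) (nat_lit 252) (.p (nat_lit 172) (nat_lit 396) (.n (nat_lit 173) (nat_lit 144) (.n (nat_lit 174) (nat_lit 360) (.p (nat_lit 175) (nat_lit 504) (.p (nat_lit 177) (nat_lit 36) .z))))))))))))))))))))) (.ct dF6aa_c531 (nat_lit 36) (nat_lit 3) (.s true (nat_lit 1) (nat_lit 7) (nat_lit 0) (nat_lit 6) (nat_lit 2) true (nat_lit 5) true (nat_lit 8) true (nat_lit 4) true (nat_lit 10) true (nat_lit 5) (.s false (nat_lit 1) (nat_lit 7) (nat_lit 6) (nat_lit 0) (nat_lit 2) false (nat_lit 0) true (nat_lit 8) true (nat_lit 4) true (nat_lit 5) true (nat_lit 10) (.s true (nat_lit 1) (nat_lit 14) (nat_lit 1) (nat_lit 2) (nat_lit 2) true (nat_lit 4) true (nat_lit 8) true (nat_lit 1) true (nat_lit 9) true (nat_lit 8) (.s true (nat_lit 1) (nat_lit 17) (nat_lit 2) (nat_lit 0) (nat_lit 2) true (nat_lit 3) true (nat_lit 8) true (nat_lit 0) true (nat_lit 8) true (nat_lit 10) (.s false (nat_lit 1) (nat_lit 22) (nat_lit 2) (nat_lit 0) (nat_lit 0) true (nat_lit 5) true (nat_lit 10) false (nat_lit 1) true (nat_lit 8) true (nat_lit 10) (.e false (nat_lit 36) (nat_lit 72) (nat_lit 2) (nat_lit 8) (.e true (nat_lit 36) (nat_lit 75) (nat_lit 2) (nat_lit 8) (.e false (nat_lit 36) (nat_lit 78) (nat_lit 2) (nat_lit 8) (.e true (nat_lit 72) (nat_lit 79) (nat_lit 2) (nat_lit 8) (.e false (nat_lit 36) (nat_lit 80) (nat_lit 2) (nat_lit 8) (.e false (nat_lit 36) (nat_lit 83) (nat_lit 2) (nat_lit 8) (.e true (nat_lit 36) (nat_lit 84) (nat_lit 2) (nat_lit 8) (.e false (nat_lit 36) (nat_lit 85) (nat_lit 2) (nat_lit 8) (.e false (nat_lit 36) (nat_lit 41) (nat_lit 7) (nat_lit 4) (.e false (nat_lit 36) (nat_lit 116) (nat_lit 0) (nat_lit 10) (.e false (nat_lit 36) (nat_lit 107) (nat_lit 0) (nat_lit 10) (.e true (nat_lit 36) (nat_lit 74) (nat_lit 2) (nat_lit 8) (.e false (nat_lit 36) (nat_lit 105) (nat_lit 1) (nat_lit 9) (.e false (nat_lit 72) (nat_lit 108) (nat_lit 0) (nat_lit 10) (.e true (nat_lit 36) (nat_lit 106) (nat_lit 0) (nat_lit 10) (.e true (nat_lit 36) (nat_lit 114) (nat_lit 0) (nat_lit 10) (.e false (nat_lit 36) (nat_lit 115) (nat_lit 0) (nat_lit 10) .nil))))))))))))))))))))))) (.nd (.nd .leaf (nat_lit 34816) (nat_lit 80) (.p (nat_lit 66) (nat_lit 36) .z) .df .leaf) (nat_lit 34818) (nat_lit 124) (.p (nat_lit 86) (nat_lit 36) .z) .df .leaf)) (nat_lit 34822) (nat_lit 233) (.p (nat_lit 123) (nat_lit 72) (.n (nat_lit 124) (nat_lit 36) (.p (nat_lit 126) (nat_lit 72) (.p (nat_lit 127) (nat_lit 36) (.n (nat_lit 128) (nat_lit 72) (.p (nat_lit 129) (nat_lit 36) (.n (nat_lit 130) (nat_lit 72) (.p (nat_lit 131) (nat_lit 108) (.n (nat_lit 132) (nat_lit 72) (.n (nat_lit 133) (nat_lit 72) (.p (nat_lit 134) (nat_lit 36) (.p (nat_lit 135) (nat_lit 36) (.n (nat_lit 136) (nat_lit 180) (.p (nat_lit 137) (nat_lit 36) (.n (nat_lit 138) (nat_lit 252) (.p (nat_lit 139) (nat_lit 108) (.n (nat_lit 140) (nat_lit 36) (.p (nat_lit 141) (nat_lit 72) (.n (nat_lit 142) (nat_lit 216) (.p (nat_lit 143) (nat_lit 180) (.p (nat_lit 144) (nat_lit 180) (.p (nat_lit 145) (nat_lit 180) (.n (nat_lit 146) (nat_lit 180) (.n (nat_lit 148) (nat_lit 72) (.n (nat_lit 149) (nat_lit 144) (.p (nat_lit 150) (nat_lit 180) (.n (nat_lit 151) (nat_lit 36) (.n (nat_lit 152) (nat_lit 108) (.n (nat_lit 153) (nat_lit 72) (.n (nat_lit 155) (nat_lit 108) .z)))))))))))))))))))))))))))))) (.ct dF6aa_c546 (nat_lit 72) (nat_lit 6) (.s false (nat_lit 2) (nat_lit 6) (nat_lit 1) (nat_lit 4) (nat_lit 2) true (nat_lit 5) true (nat_lit 10) true (nat_lit 6) true (nat_lit 11) true (nat_lit 8) (.s false (nat_lit 1) (nat_lit 7) (nat_lit 2) (nat_lit 0) (nat_lit 4) true (nat_lit 0) true (nat_lit 8) true (nat_lit 5) true (nat_lit 10) true (nat_lit 12) (.s false (nat_lit 1) (nat_lit 15) (nat_lit 0) (nat_lit 2) (nat_lit 1) true (nat_lit 8) true (nat_lit 11) true (nat_lit 0) true (nat_lit 12) true (nat_lit 10) (.s true (nat_lit 1) (nat_lit 15) (nat_lit 1) (nat_lit 2) (nat_lit 0) true (nat_lit 8) true (nat_lit 12) true (nat_lit 0) true (nat_lit 11) true (nat_lit 10) (.s true (nat_lit 1) (nat_lit 15) (nat_lit 2) (nat_lit 0) (nat_lit 1) true (nat_lit 5) true (nat_lit 11) true (nat_lit 0) true (nat_lit 10) true (nat_lit 12) dF6aa_i14)))))) (.nd (.nd (.nd .leaf (nat_lit 34824) (nat_lit 380) (.p (nat_lit 179) (nat_lit 36) (.n (nat_lit 180) (nat_lit 36) (.p (nat_lit 181) (nat_lit 36) (.n (nat_lit 182) (nat_lit 72) (.n (nat_lit 183) (nat_lit 36) (.n (nat_lit 186) (nat_lit 36) (.p (nat_lit 187) (nat_lit 72) (.p (nat_lit 188) (nat_lit 36) (.n (nat_lit 189) (nat_lit 36) (.n (nat_lit 190) (nat_lit 36) (.p (nat_lit 191) (nat_lit 36) (.n (nat_lit 192) (nat_lit 36) (.p (nat_lit 198) (nat_lit 72) (.n (nat_lit 199) (nat_lit 36) .z)))))))))))))) (.ct dF6aa_c291 (nat_lit 36) (nat_lit 3) (.s false (nat_lit 1) (nat_lit 7) (nat_lit 4) (nat_lit 2) (nat_lit 2) true (nat_lit 1) true (nat_lit 8) true (nat_lit 4) true (nat_lit 7) true (nat_lit 8) (.s false (nat_lit 1) (nat_lit 8) (nat_lit 1) (nat_lit 4) (nat_lit 2) true (nat_lit 4) true (nat_lit 8) true (nat_lit 3) true (nat_lit 9) true (nat_lit 7) (.s true (nat_lit 1) (nat_lit 8) (nat_lit 2) (nat_lit 4) (nat_lit 1) true (nat_lit 4) true (nat_lit 9) true (nat_lit 3) true (nat_lit 8) true (nat_lit 7) (.s true (nat_lit 1) (nat_lit 15) (nat_lit 2) (nat_lit 1) (nat_lit 2) true (nat_lit 3) true (nat_lit 8) true (nat_lit 1) true (nat_lit 8) true (nat_lit 9) (.e false (nat_lit 36) (nat_lit 88) (nat_lit 2) (nat_lit 8) (.e true (nat_lit 36) (nat_lit 89) (nat_lit 2) (nat_lit 8) (.e false (nat_lit 36) (nat_lit 90) (nat_lit 2) (nat_lit 8) (.e false (nat_lit 36) (nat_lit 43) (nat_lit 7) (nat_lit 4) (.e true (nat_lit 36) (nat_lit 91) (nat_lit 2) (nat_lit 8) (.e false (nat_lit 36) (nat_lit 107) (nat_lit 1) (nat_lit 9) (.e false (nat_lit 36) (nat_lit 108) (nat_lit 1) (nat_lit 9) (.e true (nat_lit 36) (nat_lit 109) (nat_lit 1) (nat_lit 9) (.e true (nat_lit 36) (nat_lit 111) (nat_lit 1) (nat_lit 9) (.e true (nat_lit 36) (nat_lit 87) (nat_lit 2) (nat_lit 8) (.e false (nat_lit 36) (nat_lit 106) (nat_lit 1) (nat_lit 9) .nil)))))))))))))))) .leaf) (nat_lit 35840) (nat_lit 81) (.p (nat_lit 67) (nat_lit 36) .z) .df .leaf) (nat_lit 35842) (nat_lit 141) (.p (nat_lit 87) (nat_lit 36) (.n (nat_lit 88) (nat_lit 36) (.n (nat_lit 89) (nat_lit 36) (.p (nat_lit 91) (nat_lit 36) (.n (nat_lit 92) (nat_lit 36) (.n (nat_lit 93) (nat_lit 36) (.p (nat_lit 95) (nat_lit 36) (.p (nat_lit 98) (nat_lit 72) (.n (nat_lit 99) (nat_lit 72) .z))))))))) (.ct dF6aa_c290 (nat_lit 36) (nat_lit 5) (.s false (nat_lit 1) (nat_lit 7) (nat_lit 0) (nat_lit 2) (nat_lit 1) true (nat_lit 4) true (nat_lit 6) true (nat_lit 1) true (nat_lit 7) true (nat_lit 5) (.e false (nat_lit 36) (nat_lit 22) (nat_lit 4) (nat_lit 4) (.e false (nat_lit 36) (nat_lit 45) (nat_lit 1) (nat_lit 6) (.e false (nat_lit 36) (nat_lit 16) (nat_lit 7) (nat_lit 1) (.e false (nat_lit 36) (nat_lit 34) (nat_lit 2) (nat_lit 5) (.e false (nat_lit 36) (nat_lit 36) (nat_lit 2) (nat_lit 5) (.e true (nat_lit 72) (nat_lit 37) (nat_lit 2) (nat_lit 5) (.e false (nat_lit 36) (nat_lit 38) (nat_lit 2) (nat_lit 5) (.e true (nat_lit 36) (nat_lit 39) (nat_lit 2) (nat_lit 5) .nil)))))))))) (.nd (.nd .leaf (nat_lit 35846) (nat_lit 254) (.n (nat_lit 123) (nat_lit 136) (.p (nat_lit 124) (nat_lit 64) (.n (nat_lit 125) (nat_lit 36) (.n (nat_lit 126) (nat_lit 68) (.p (nat_lit 127) (nat_lit 20) (.p (nat_lit 128) (nat_lit 104) (.n (nat_lit 129) (nat_lit 80) (.p (nat_lit 130) (nat_lit 136) (.n (nat_lit 131) (nat_lit 200) (.p (nat_lit 132) (nat_lit 136) (.p (nat_lit 133) (nat_lit 72) (.n (nat_lit 134) (nat_lit 84) (.n (nat_lit 135) (nat_lit 72) (.p (nat_lit 136) (nat_lit 292) (.n (nat_lit 137) (nat_lit 108) (.p (nat_lit 138) (nat_lit 404) (.n (nat_lit 139) (nat_lit 160) (.p (nat_lit 140) (nat_lit 36) (.n (nat_lit 141) (nat_lit 112) (.p (nat_lit 142) (nat_lit 320) (.n (nat_lit 143) (nat_lit 292) (.n (nat_lit 144) (nat_lit 308) (.n (nat_lit 145) (nat_lit 308) (.p (nat_lit 146) (nat_lit 308) (.p (nat_lit 148) (nat_lit 132) (.p (nat_lit 149) (nat_lit 200) (.n (nat_lit 150) (nat_lit 308) (.p (nat_lit 151) (nat_lit 24) (.p (nat_lit 152) (nat_lit 120) (.p (nat_lit 153) (nat_lit 180) (.p (nat_lit 155) (nat_lit 192) .z))))))))))))))))))))))))))))))) (.ct dF6aa_c546 (nat_lit 36) (nat_lit 6) (.s false (nat_lit 1) (nat_lit 6) (nat_lit 2) (nat_lit 5) (nat_lit 0) true (nat_lit 6) true (nat_lit 12) true (nat_lit 6) true (nat_lit 10) true (nat_lit 7) (.e false (nat_lit 72) (nat_lit 36) (nat_lit 6) (nat_lit 6) (.e true (nat_lit 72) (nat_lit 37) (nat_lit 6) (nat_lit 6) (.e false (nat_lit 72) (nat_lit 38) (nat_lit 6) (nat_lit 6) (.e true (nat_lit 72) (nat_lit 39) (nat_lit 6) (nat_lit 6) (.e false (nat_lit 36) (nat_lit 88) (nat_lit 0) (nat_lit 12) (.e false (nat_lit 36) (nat_lit 89) (nat_lit 0) (nat_lit 12) (.e true (nat_lit 36) (nat_lit 91) (nat_lit 0) (nat_lit 12) (.e true (nat_lit 36) (nat_lit 95) (nat_lit 0) (nat_lit 12) (.e false (nat_lit 36) (nat_lit 99) (nat_lit 0) (nat_lit 12) (.e true (nat_lit 36) (nat_lit 60) (nat_lit 2) (nat_lit 10) (.e true (nat_lit 36) (nat_lit 65) (nat_lit 2) (nat_lit 10) (.e false (nat_lit 36) (nat_lit 66) (nat_lit 2) (nat_lit 10) (.e false (nat_lit 36) (nat_lit 69) (nat_lit 2) (nat_lit 10) (.e true (nat_lit 36) (nat_lit 71) (nat_lit 2) (nat_lit 10) (.e false (nat_lit 36) (nat_lit 41) (nat_lit 5) (nat_lit 7) .nil))))))))))))))))) .leaf) (nat_lit 35848) (nat_lit 379) (.n (nat_lit 179) (nat_lit 168) (.p (nat_lit 180) (nat_lit 120) (.n (nat_lit 181) (nat_lit 96) (.p (nat_lit 182) (nat_lit 144) (.p (nat_lit 183) (nat_lit 12) (.n (nat_lit 185) (nat_lit 48) (.p (nat_lit 186) (nat_lit 120) (.p (nat_lit 187) (nat_lit 84) (.p (nat_lit 188) (nat_lit 96) (.n (nat_lit 189) (nat_lit 12) (.n (nat_lit 190) (nat_lit 24) (.p (nat_lit 191) (nat_lit 84) (.p (nat_lit 192) (nat_lit 132) (.p (nat_lit 193) (nat_lit 132) (.p (nat_lit 194) (nat_lit 24) (.n (nat_lit 195) (nat_lit 168) (.p (nat_lit 196) (nat_lit 36) (.p (nat_lit 197) (nat_lit 48) (.n (nat_lit 198) (nat_lit 132) (.p (nat_lit 199) (nat_lit 132) (.p (nat_lit 200) (nat_lit 120) (.p (nat_lit 201) (nat_lit 48) .z)))))))))))))))))))))) (.ct dF6aa_c291 (nat_lit 36) (nat_lit 3) (.s true (nat_lit 1) (nat_lit 7) (nat_lit 0) (nat_lit 2) (nat_lit 7) true (nat_lit 1) true (nat_lit 4) true (nat_lit 4) true (nat_lit 10) true (nat_lit 8) (.s false (nat_lit 1) (nat_lit 7) (nat_lit 0) (nat_lit 7) (nat_lit 2) true (nat_lit 5) true (nat_lit 8) true (nat_lit 4) true (nat_lit 10) true (nat_lit 4) dF6aa_i42))) .leaf))))))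

noncomputable def dF6aa_t2 : Tr := (.nd dF6aa_t0 (nat_lit 20482) (nat_lit 64) (.p (nat_lit 52) (nat_lit 36) .z) .df dF6aa_t1)

noncomputable def dF6aa_t3 : Tr := (.nd (.nd (.nd (.nd (.nd (.nd (.nd .leaf (nat_lit 36866) (nat_lit 125) (.p (nat_lit 87) (nat_lit 36) .z) .df .leaf) (nat_lit 36870) (nat_lit 247) (.n (nat_lit 123) (nat_lit 40) (.p (nat_lit 124) (nat_lit 4) (.n (nat_lit 126) (nat_lit 56) (.n (nat_lit 127) (nat_lit 64) (.p (nat_lit 128) (nat_lit 20) (.n (nat_lit 129) (nat_lit 32) (.p (nat_lit 130) (nat_lit 76) (.n (nat_lit 131) (nat_lit 44) (.p (nat_lit 132) (nat_lit 40) (.p (nat_lit 133) (nat_lit 72) (.n (nat_lit 134) (nat_lit 12) (.p (nat_lit 136) (nat_lit 88) (.n (nat_lit 137) (nat_lit 36) (.p (nat_lit 138) (nat_lit 104) (.p (nat_lit 139) (nat_lit 8) (.n (nat_lit 141) (nat_lit 16) (.p (nat_lit 142) (nat_lit 92) (.n (nat_lit 143) (nat_lit 88) (.n (nat_lit 144) (nat_lit 116) (.n (nat_lit 145) (nat_lit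 116) (.p (nat_lit 146) (nat_lit 80) (.p (nat_lit 148) (nat_lit 24) (.p (nat_lit 149) (nat_lit 116) (.n (nat_lit 150) (nat_lit 80) (.p (nat_lit 151) (nat_lit 24) (.p (nat_lit 152) (nat_lit 48) (.p (nat_lit 153) (nat_lit 36) (.p (nat_lit 155) (nat_lit 48) .z)))))))))))))))))))))))))))) (.ct dF6aa_c546 (nat_lit 36) (nat_lit 6) (.s true (nat_lit 1) (nat_lit 6) (nat_lit 1) (nat_lit 4) (nat_lit 2) true (nat_lit 5) true (nat_lit 10) true (nat_lit 6) true (nat_lit 11) true (nat_lit 8) (.s true (nat_lit 1) (nat_lit 15) (nat_lit 0) (nat_lit 1) (nat_lit 2) true (nat_lit 6) true (nat_lit 10) true (nat_lit 0) true (nat_lit 12) true (nat_lit 11) (.s false (nat_lit 1) (nat_lit 15) (nat_lit 1) (nat_lit 0) (nat_lit 2) true (nat_lit 5) true (nat_lit 10) true (nat_lit 0) true (nat_lit 11) true (nat_lit 12) (.e false (nat_lit 36) (nat_lit 28) (nat_lit 7) (nat_lit 5) (.e true (nat_lit 36) (nat_lit 31) (nat_lit 7) (nat_lit 5) (.e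 false (nat_lit 36) (nat_lit 33) (nat_lit 7) (nat_lit 5) (.e true (nat_lit 36) (nat_lit 66) (nat_lit 2) (nat_lit 10) (.e false (nat_lit 36) (nat_lit 71) (nat_lit 2) (nat_lit 10) (.e false (nat_lit 36) (nat_lit 34) (nat_lit 6) (nat_lit 6) (.e true (nat_lit 36) (nat_lit 46) (nat_lit 4) (nat_lit 8) (.e false (nat_lit 36) (nat_lit 99) (nat_lit 0) (nat_lit 12) (.e false (nat_lit 36) (nat_lit 80) (nat_lit 1) (nat_lit 11) (.e false (nat_lit 36) (nat_lit 68) (nat_lit 2) (nat_lit 10) (.e true (nat_lit 36) (nat_lit 91) (nat_lit 0) (nat_lit 12) .nil))))))))))))))) (.nd .leaf (nat_lit 36872) (nat_lit 390) (.n (nat_lit 179) (nat_lit 180) (.p (nat_lit 180) (nat_lit 108) (.n (nat_lit 181) (nat_lit 36) (.p (nat_lit 182) (nat_lit 144) (.n (nat_lit 183) (nat_lit 72) (.n (nat_lit 185) (nat_lit 72) (.p (nat_lit 186) (nat_lit 180) (.p (nat_lit 187) (nat_lit 252) (.p (nat_lit 188) (nat_lit 180) (.n (nat_lit 190) (nat_lit 108) (.p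 (nat_lit 191) (nat_lit 288) (.p (nat_lit 192) (nat_lit 144) (.p (nat_lit 193) (nat_lit 180) (.p (nat_lit 194) (nat_lit 72) (.n (nat_lit 195) (nat_lit 216) (.p (nat_lit 196) (nat_lit 36) (.p (nat_lit 197) (nat_lit 108) (.n (nat_lit 198) (nat_lit 108) (.p (nat_lit 199) (nat_lit 216) (.p (nat_lit 200) (nat_lit 288) (.p (nat_lit 201) (nat_lit 72) .z))))))))))))))))))))) (.ct dF6aa_c291 (nat_lit 36) (nat_lit 3) (.s false (nat_lit 1) (nat_lit 15) (nat_lit 1) (nat_lit 2) (nat_lit 2) true (nat_lit 4) true (nat_lit 8) true (nat_lit 1) true (nat_lit 9) true (nat_lit 8) (.s true (nat_lit 1) (nat_lit 15) (nat_lit 2) (nat_lit 1) (nat_lit 2) true (nat_lit 3) true (nat_lit 8) true (nat_lit 1) true (nat_lit 8) true (nat_lit 9) (.e false (nat_lit 36) (nat_lit 43) (nat_lit 7) (nat_lit 4) (.e false (nat_lit 36) (nat_lit 87) (nat_lit 2) (nat_lit 8) (.e true (nat_lit 36) (nat_lit 115) (nat_lit 1) (nat_lit 9) (.e true (nat_lit 72)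 (nat_lit 91) (nat_lit 2) (nat_lit 8) (.e false (nat_lit 36) (nat_lit 99) (nat_lit 2) (nat_lit 8) (.e false (nat_lit 36) (nat_lit 106) (nat_lit 1) (nat_lit 9) .nil))))))))) .leaf)) (nat_lit 37888) (nat_lit 83) (.p (nat_lit 69) (nat_lit 36) .z) .df (.nd (.nd .leaf (nat_lit 37890) (nat_lit 126) (.p (nat_lit 88) (nat_lit 36) .z) .df .leaf) (nat_lit 37894) (nat_lit 241) (.n (nat_lit 123) (nat_lit 64) (.p (nat_lit 124) (nat_lit 28) (.p (nat_lit 125) (nat_lit 36) (.n (nat_lit 126) (nat_lit 68) (.n (nat_lit 127) (nat_lit 16) (.p (nat_lit 128) (nat_lit 68) (.n (nat_lit 129) (nat_lit 44) (.p (nat_lit 130) (nat_lit 28) (.n (nat_lit 131) (nat_lit 92) (.p (nat_lit 132) (nat_lit 28) (.n (nat_lit 134) (nat_lit 84) (.p (nat_lit 135) (nat_lit 36) (.p (nat_lit 136) (nat_lit 148) (.n (nat_lit 137) (nat_lit 72) (.p (nat_lit 138) (nat_lit 224) (.n (nat_lit 139) (nat_lit 124) (.n (nat_lit 141) (nat_lit 76) (.p (nat_lit 142) (nat_lit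 140) (.n (nat_lit 143) (nat_lit 148) (.n (nat_lit 144) (nat_lit 128) (.n (nat_lit 145) (nat_lit 164) (.p (nat_lit 146) (nat_lit 164) (.p (nat_lit 148) (nat_lit 60) (.p (nat_lit 149) (nat_lit 92) (.n (nat_lit 150) (nat_lit 164) (.n (nat_lit 151) (nat_lit 12) (.p (nat_lit 152) (nat_lit 12) (.p (nat_lit 153) (nat_lit 36) (.p (nat_lit 155) (nat_lit 120) .z))))))))))))))))))))))))))))) (.ct dF6aa_c546 (nat_lit 36) (nat_lit 6) (.s false (nat_lit 1) (nat_lit 6) (nat_lit 1) (nat_lit 4) (nat_lit 2) true (nat_lit 5) true (nat_lit 10) true (nat_lit 6) true (nat_lit 11) true (nat_lit 8) (.s true (nat_lit 1) (nat_lit 16) (nat_lit 0) (nat_lit 1) (nat_lit 2) true (nat_lit 6) true (nat_lit 10) true (nat_lit 0) true (nat_lit 12) true (nat_lit 11) dF6aa_i20))) .leaf)) (nat_lit 37896) (nat_lit 359) (.p (nat_lit 197) (nat_lit 36) .z) .df (.nd (.nd (.nd .leaf (nat_lit 38912) (nat_lit 84) (.p (nat_lit 70) (nat_lit 36) .z) .df .leaf)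 (nat_lit 38914) (nat_lit 127) (.p (nat_lit 89) (nat_lit 36) .z) .df .leaf) (nat_lit 38918) (nat_lit 243) (.p (nat_lit 123) (nat_lit 56) (.n (nat_lit 124) (nat_lit 20) (.p (nat_lit 126) (nat_lit 100) (.p (nat_lit 127) (nat_lit 68) (.n (nat_lit 128) (nat_lit 64) (.p (nat_lit 129) (nat_lit 52) (.n (nat_lit 130) (nat_lit 92) (.p (nat_lit 131) (nat_lit 76) (.n (nat_lit 132) (nat_lit 56) (.n (nat_lit 133) (nat_lit 72) (.p (nat_lit 134) (nat_lit 24) (.n (nat_lit 136) (nat_lit 152) (.p (nat_lit 137) (nat_lit 36) (.n (nat_lit 138) (nat_lit 232) (.p (nat_lit 139) (nat_lit 104) (.p (nat_lit 141) (nat_lit 80) (.n (nat_lit 142) (nat_lit 208) (.p (nat_lit 143) (nat_lit 152) (.p (nat_lit 144) (nat_lit 184) (.p (nat_lit 145) (nat_lit 220) (.n (nat_lit 146) (nat_lit 184) (.n (nat_lit 148) (nat_lit 48) (.n (nat_lit 149) (nat_lit 184) (.p (nat_lit 150) (nat_lit 184) (.n (nat_lit 151) (nat_lit 12) (.n (nat_lit 152) (nat_lit 60)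 (.n (nat_lit 153) (nat_lit 36) (.n (nat_lit 155) (nat_lit 96) .z)))))))))))))))))))))))))))) (.ct dF6aa_c546 (nat_lit 36) (nat_lit 6) (.s false (nat_lit 1) (nat_lit 7) (nat_lit 0) (nat_lit 4) (nat_lit 2) true (nat_lit 6) true (nat_lit 10) true (nat_lit 5) true (nat_lit 12) true (nat_lit 8) (.e true (nat_lit 36) (nat_lit 34) (nat_lit 6) (nat_lit 6) (.e false (nat_lit 36) (nat_lit 37) (nat_lit 6) (nat_lit 6) (.e false (nat_lit 36) (nat_lit 39) (nat_lit 6) (nat_lit 6) (.e false (nat_lit 72) (nat_lit 59) (nat_lit 2) (nat_lit 10) (.e true (nat_lit 36) (nat_lit 61) (nat_lit 2) (nat_lit 10) (.e false (nat_lit 36) (nat_lit 62) (nat_lit 2) (nat_lit 10) (.e true (nat_lit 36) (nat_lit 63) (nat_lit 2) (nat_lit 10) (.e false (nat_lit 36) (nat_lit 65) (nat_lit 2) (nat_lit 10) (.e true (nat_lit 36) (nat_lit 66) (nat_lit 2) (nat_lit 10) (.e false (nat_lit 36) (nat_lit 67) (nat_lit 2) (nat_lit 10) (.e true (nat_lit 72) (nat_lit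 68) (nat_lit 2) (nat_lit 10) (.e false (nat_lit 36) (nat_lit 69) (nat_lit 2) (nat_lit 10) (.e true (nat_lit 36) (nat_lit 70) (nat_lit 2) (nat_lit 10) (.e false (nat_lit 36) (nat_lit 71) (nat_lit 2) (nat_lit 10) (.e true (nat_lit 36) (nat_lit 29) (nat_lit 7) (nat_lit 5) (.e true (nat_lit 36) (nat_lit 99) (nat_lit 0) (nat_lit 12) (.e false (nat_lit 36) (nat_lit 48) (nat_lit 4) (nat_lit 8) .nil))))))))))))))))))) (.nd (.nd .leaf (nat_lit 38920) (nat_lit 372) (.p (nat_lit 179) (nat_lit 24) (.p (nat_lit 180) (nat_lit 24) (.p (nat_lit 181) (nat_lit 24) (.n (nat_lit 182) (nat_lit 36) (.n (nat_lit 183) (nat_lit 12) (.n (nat_lit 184) (nat_lit 72) (.n (nat_lit 185) (nat_lit 24) (.n (nat_lit 186) (nat_lit 48) (.n (nat_lit 187) (nat_lit 48) (.n (nat_lit 188) (nat_lit 60) (.p (nat_lit 189) (nat_lit 12) (.n (nat_lit 190) (nat_lit 12) (.n (nat_lit 191) (nat_lit 12) (.n (nat_lit 192) (nat_lit 60) (.n (nat_lit 193) (nat_lit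 60) (.p (nat_lit 194) (nat_lit 12) (.p (nat_lit 195) (nat_lit 60) (.n (nat_lit 196) (nat_lit 36) (.n (nat_lit 197) (nat_lit 12) (.p (nat_lit 198) (nat_lit 24) (.n (nat_lit 199) (nat_lit 60) (.n (nat_lit 200) (nat_lit 48) (.n (nat_lit 201) (nat_lit 48) .z))))))))))))))))))))))) (.ct dF6aa_c291 (nat_lit 36) (nat_lit 3) (.s false (nat_lit 3) (nat_lit 7) (nat_lit 0) (nat_lit 2) (nat_lit 7) true (nat_lit 1) true (nat_lit 4) true (nat_lit 4) true (nat_lit 10) true (nat_lit 8) (.s true (nat_lit 3) (nat_lit 7) (nat_lit 0) (nat_lit 7) (nat_lit 2) true (nat_lit 5) true (nat_lit 8) true (nat_lit 4) true (nat_lit 10) true (nat_lit 4) (.s true (nat_lit 2) (nat_lit 7) (nat_lit 2) (nat_lit 2) (nat_lit 4) true (nat_lit 1) true (nat_lit 7) true (nat_lit 4) true (nat_lit 8) true (nat_lit 8) (.s true (nat_lit 4) (nat_lit 7) (nat_lit 6) (nat_lit 2) (nat_lit 1) true (nat_lit 1) true (nat_lit 9) true (nat_lit 4) true (nat_lit 5)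 true (nat_lit 8) (.s true (nat_lit 1) (nat_lit 17) (nat_lit 2) (nat_lit 1) (nat_lit 2) true (nat_lit 3) true (nat_lit 8) true (nat_lit 1) true (nat_lit 8) true (nat_lit 9) (.s false (nat_lit 4) (nat_lit 22) (nat_lit 0) (nat_lit 2) (nat_lit 1) true (nat_lit 7) true (nat_lit 9) false (nat_lit 1) true (nat_lit 10) true (nat_lit 8) (.s false (nat_lit 2) (nat_lit 22) (nat_lit 1) (nat_lit 0) (nat_lit 2) true (nat_lit 4) true (nat_lit 8) false (nat_lit 1) true (nat_lit 9) true (nat_lit 10) (.s true (nat_lit 2) (nat_lit 22) (nat_lit 1) (nat_lit 2) (nat_lit 0) true (nat_lit 7) true (nat_lit 10) false (nat_lit 1) true (nat_lit 9) true (nat_lit 8) (.e false (nat_lit 144) (nat_lit 45) (nat_lit 7) (nat_lit 4) (.e true (nat_lit 108) (nat_lit 43) (nat_lit 7) (nat_lit 4) (.e false (nat_lit 36) (nat_lit 44) (nat_lit 7) (nat_lit 4) (.e true (nat_lit 108) (nat_lit 47) (nat_lit 7) (nat_lit 4) (.e false (nat_lit 144) (nat_lit 48)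 (nat_lit 7) (nat_lit 4) (.e true (nat_lit 144) (nat_lit 119) (nat_lit 0) (nat_lit 10) (.e false (nat_lit 72) (nat_lit 89) (nat_lit 2) (nat_lit 8) (.e true (nat_lit 108) (nat_lit 93) (nat_lit 2) (nat_lit 8) (.e true (nat_lit 72) (nat_lit 46) (nat_lit 7) (nat_lit 4) (.e true (nat_lit 144) (nat_lit 106) (nat_lit 1) (nat_lit 9) (.e false (nat_lit 144) (nat_lit 107) (nat_lit 1) (nat_lit 9) (.e true (nat_lit 144) (nat_lit 110) (nat_lit 1) (nat_lit 9) (.e false (nat_lit 288) (nat_lit 111) (nat_lit 1) (nat_lit 9) (.e false (nat_lit 36) (nat_lit 108) (nat_lit 1) (nat_lit 9) (.e true (nat_lit 72) (nat_lit 122) (nat_lit 0) (nat_lit 10) .nil)))))))))))))))))))))))) .leaf) (nat_lit 39936) (nat_lit 87) (.n (nat_lit 59) (nat_lit 72) (.n (nat_lit 60) (nat_lit 36) (.p (nat_lit 61) (nat_lit 108) (.n (nat_lit 62) (nat_lit 72) (.p (nat_lit 63) (nat_lit 108) (.n (nat_lit 65) (nat_lit 108) (.p (nat_lit 66) (nat_lit 72) (.n (nat_lit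 67) (nat_lit 72) (.p (nat_lit 68) (nat_lit 108) (.n (nat_lit 69) (nat_lit 108) (.p (nat_lit 70) (nat_lit 108) (.n (nat_lit 71) (nat_lit 72) .z)))))))))))) (.ct dF6aa_c545 (nat_lit 36) (nat_lit 7) (.s false (nat_lit 1) (nat_lit 4) (nat_lit 0) (nat_lit 1) (nat_lit 2) true (nat_lit 1) true (nat_lit 5) true (nat_lit 3) true (nat_lit 7) true (nat_lit 6) (.s true (nat_lit 1) (nat_lit 4) (nat_lit 1) (nat_lit 2) (nat_lit 0) true (nat_lit 3) true (nat_lit 7) true (nat_lit 3) true (nat_lit 6) true (nat_lit 5) (.s false (nat_lit 1) (nat_lit 4) (nat_lit 2) (nat_lit 1) (nat_lit 0) true (nat_lit 1) true (nat_lit 7) true (nat_lit 3) true (nat_lit 5) true (nat_lit 6) (.e false (nat_lit 72) (nat_lit 11) (nat_lit 6) (nat_lit 1) (.e false (nat_lit 72) (nat_lit 26) (nat_lit 2) (nat_lit 5) (.e true (nat_lit 36) (nat_lit 37) (nat_lit 0) (nat_lit 7) (.e false (nat_lit 36) (nat_lit 38) (nat_lit 0) (nat_lit 7) (.e true (nat_lit 36)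 (nat_lit 28) (nat_lit 1) (nat_lit 6) (.e false (nat_lit 36) (nat_lit 31) (nat_lit 1) (nat_lit 6) (.e true (nat_lit 36) (nat_lit 33) (nat_lit 1) (nat_lit 6) (.e false (nat_lit 36) (nat_lit 36) (nat_lit 0) (nat_lit 7) (.e true (nat_lit 36) (nat_lit 29) (nat_lit 1) (nat_lit 6) .nil))))))))))))) .leaf))) (nat_lit 39938) (nat_lit 128) (.p (nat_lit 90) (nat_lit 36) .z) .df (.nd (.nd (.nd (.nd .leaf (nat_lit 39942) (nat_lit 242) (.p (nat_lit 123) (nat_lit 216) (.n (nat_lit 124) (nat_lit 108) (.n (nat_lit 125) (nat_lit 36) (.p (nat_lit 126) (nat_lit 216) (.p (nat_lit 127) (nat_lit 36) (.n (nat_lit 128) (nat_lit 216) (.p (nat_lit 129) (nat_lit 144) (.n (nat_lit 130) (nat_lit 180) (.p (nat_lit 131) (nat_lit 324) (.n (nat_lit 132) (nat_lit 180) (.n (nat_lit 133) (nat_lit 72) (.p (nat_lit 134) (nat_lit 180) (.n (nat_lit 136) (nat_lit 504) (.p (nat_lit 137) (nat_lit 180) (.n (nat_lit 138) (nat_lit 756) (.p (nat_lit 139)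 (nat_lit 396) (.n (nat_lit 140) (nat_lit 36) (.p (nat_lit 141) (nat_lit 252) (.n (nat_lit 142) (nat_lit 576) (.p (nat_lit 143) (nat_lit 504) (.p (nat_lit 144) (nat_lit 504) (.p (nat_lit 145) (nat_lit 576) (.n (nat_lit 146) (nat_lit 576) (.n (nat_lit 148) (nat_lit 216) (.n (nat_lit 149) (nat_lit 360) (.p (nat_lit 150) (nat_lit 576) (.n (nat_lit 152) (nat_lit 144) (.n (nat_lit 153) (nat_lit 180) (.n (nat_lit 155) (nat_lit 360) .z))))))))))))))))))))))))))))) (.ct dF6aa_c546 (nat_lit 36) (nat_lit 6) (.s false (nat_lit 1) (nat_lit 6) (nat_lit 2) (nat_lit 0) (nat_lit 5) false (nat_lit 1) true (nat_lit 7) true (nat_lit 6) true (nat_lit 10) true (nat_lit 12) (.s false (nat_lit 1) (nat_lit 6) (nat_lit 2) (nat_lit 5) (nat_lit 0) true (nat_lit 6) true (nat_lit 12) true (nat_lit 6) true (nat_lit 10) true (nat_lit 7) (.s true (nat_lit 1) (nat_lit 14) (nat_lit 1) (nat_lit 1) (nat_lit 2) true (nat_lit 5) true (nat_lit 10)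 true (nat_lit 1) true (nat_lit 11) true (nat_lit 11) (.s false (nat_lit 1) (nat_lit 20) (nat_lit 0) (nat_lit 1) (nat_lit 1) true (nat_lit 8) true (nat_lit 11) false (nat_lit 2) true (nat_lit 12) true (nat_lit 11) (.s true (nat_lit 1) (nat_lit 20) (nat_lit 1) (nat_lit 0) (nat_lit 1) true (nat_lit 7) true (nat_lit 11) false (nat_lit 2) true (nat_lit 11) true (nat_lit 12) (.e false (nat_lit 36) (nat_lit 87) (nat_lit 0) (nat_lit 12) (.e true (nat_lit 36) (nat_lit 88) (nat_lit 0) (nat_lit 12) (.e false (nat_lit 108) (nat_lit 89) (nat_lit 0) (nat_lit 12) (.e true (nat_lit 36) (nat_lit 91) (nat_lit 0) (nat_lit 12) (.e false (nat_lit 36) (nat_lit 92) (nat_lit 0) (nat_lit 12) (.e false (nat_lit 36) (nat_lit 93) (nat_lit 0) (nat_lit 12) (.e true (nat_lit 36) (nat_lit 95) (nat_lit 0) (nat_lit 12) (.e true (nat_lit 72) (nat_lit 98) (nat_lit 0) (nat_lit 12) (.e false (nat_lit 72) (nat_lit 99) (nat_lit 0) (nat_lit 12) (.e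 true (nat_lit 36) (nat_lit 90) (nat_lit 0) (nat_lit 12) (.e false (nat_lit 36) (nat_lit 41) (nat_lit 5) (nat_lit 7) (.e true (nat_lit 36) (nat_lit 31) (nat_lit 7) (nat_lit 5) (.e true (nat_lit 36) (nat_lit 63) (nat_lit 2) (nat_lit 10) (.e false (nat_lit 36) (nat_lit 46) (nat_lit 4) (nat_lit 8) (.e true (nat_lit 36) (nat_lit 82) (nat_lit 1) (nat_lit 11) (.e false (nat_lit 36) (nat_lit 74) (nat_lit 1) (nat_lit 11) (.e false (nat_lit 36) (nat_lit 94) (nat_lit 0) (nat_lit 12) .nil))))))))))))))))))))))) .leaf) (nat_lit 39944) (nat_lit 364) (.p (nat_lit 179) (nat_lit 147) (.n (nat_lit 180) (nat_lit 105) (.p (nat_lit 181) (nat_lit 111) (.n (nat_lit 182) (nat_lit 189) (.n (nat_lit 183) (nat_lit 69) (.n (nat_lit 184) (nat_lit 72) (.p (nat_lit 185) (nat_lit 6) (.n (nat_lit 186) (nat_lit 105) (.p (nat_lit 187) (nat_lit 12) (.n (nat_lit 188) (nat_lit 57) (.n (nat_lit 189) (nat_lit 12) (.n (nat_lit 190) (nat_lit 60) (.p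 (nat_lit 191) (nat_lit 30) (.n (nat_lit 192) (nat_lit 156) (.n (nat_lit 193) (nat_lit 111) (.p (nat_lit 194) (nat_lit 24) (.p (nat_lit 195) (nat_lit 120) (.n (nat_lit 196) (nat_lit 63) (.n (nat_lit 197) (nat_lit 87) (.p (nat_lit 198) (nat_lit 165) (.n (nat_lit 199) (nat_lit 129) (.n (nat_lit 200) (nat_lit 60) (.n (nat_lit 201) (nat_lit 78) .z))))))))))))))))))))))) (.ct dF6aa_c291 (nat_lit 6718464) (nat_lit 3) (.s false (nat_lit 93312) (nat_lit 6) (nat_lit 5) (nat_lit 2) (nat_lit 2) true (nat_lit 0) true (nat_lit 8) true (nat_lit 5) true (nat_lit 6) true (nat_lit 8) (.s true (nat_lit 440640) (nat_lit 7) (nat_lit 0) (nat_lit 2) (nat_lit 7) true (nat_lit 1) true (nat_lit 4) true (nat_lit 4) true (nat_lit 10) true (nat_lit 8) (.s true (nat_lit 106272) (nat_lit 7) (nat_lit 0) (nat_lit 7) (nat_lit 2) true (nat_lit 5) true (nat_lit 8) true (nat_lit 4) true (nat_lit 10) true (nat_lit 4) (.s false (nat_lit 1262304)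 (nat_lit 7) (nat_lit 1) (nat_lit 6) (nat_lit 2) true (nat_lit 4) true (nat_lit 8) true (nat_lit 4) true (nat_lit 9) true (nat_lit 5) (.s true (nat_lit 186624) (nat_lit 7) (nat_lit 2) (nat_lit 2) (nat_lit 4) true (nat_lit 1) true (nat_lit 7) true (nat_lit 4) true (nat_lit 8) true (nat_lit 8) (.s true (nat_lit 461376) (nat_lit 7) (nat_lit 2) (nat_lit 4) (nat_lit 2) true (nat_lit 3) true (nat_lit 8) true (nat_lit 4) true (nat_lit 8) true (nat_lit 7) (.s true (nat_lit 982368) (nat_lit 7) (nat_lit 2) (nat_lit 6) (nat_lit 1) true (nat_lit 4) true (nat_lit 9) true (nat_lit 4) true (nat_lit 8) true (nat_lit 5) (.s false (nat_lit 1130112) (nat_lit 7) (nat_lit 4) (nat_lit 2) (nat_lit 2) true (nat_lit 1) true (nat_lit 8) true (nat_lit 4) true (nat_lit 7) true (nat_lit 8) (.s true (nat_lit 1467072) (nat_lit 7) (nat_lit 6) (nat_lit 2) (nat_lit 1) true (nat_lit 1) true (nat_lit 9) true (nat_lit 4) true (nat_lit 5) true (nat_lit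 8) (.s true (nat_lit 45360) (nat_lit 8) (nat_lit 0) (nat_lit 1) (nat_lit 7) true (nat_lit 1) true (nat_lit 4) true (nat_lit 3) true (nat_lit 10) true (nat_lit 9) dF6aa_i32))))))))))) (.nd .leaf (nat_lit 40961) (nat_lit 103) (.p (nat_lit 77) (nat_lit 36) .z) .df .leaf)) (nat_lit 40962) (nat_lit 150) (.p (nat_lit 100) (nat_lit 36) .z) .df (.nd (.nd .leaf (nat_lit 40965) (nat_lit 260) (.n (nat_lit 123) (nat_lit 272) (.p (nat_lit 124) (nat_lit 92) (.n (nat_lit 126) (nat_lit 208) (.n (nat_lit 127) (nat_lit 104) (.p (nat_lit 128) (nat_lit 280) (.n (nat_lit 129) (nat_lit 160) (.p (nat_lit 130) (nat_lit 200) (.n (nat_lit 131) (nat_lit 400) (.p (nat_lit 132) (nat_lit 200) (.p (nat_lit 133) (nat_lit 216) (.n (nat_lit 134) (nat_lit 132) (.n (nat_lit 135) (nat_lit 144) (.p (nat_lit 136) (nat_lit 584) (.n (nat_lit 137) (nat_lit 144) (.p (nat_lit 138) (nat_lit 880) (.n (nat_lit 139) (nat_lit 320) (.p (nat_lit 140) (nat_lit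 72) (.n (nat_lit 141) (nat_lit 224) (.p (nat_lit 142) (nat_lit 712) (.n (nat_lit 143) (nat_lit 584) (.n (nat_lit 144) (nat_lit 688) (.n (nat_lit 145) (nat_lit 688) (.p (nat_lit 146) (nat_lit 688) (.p (nat_lit 148) (nat_lit 192) (.p (nat_lit 149) (nat_lit 544) (.n (nat_lit 150) (nat_lit 688) (.p (nat_lit 151) (nat_lit 84) (.p (nat_lit 152) (nat_lit 240) (.p (nat_lit 153) (nat_lit 288) (.p (nat_lit 155) (nat_lit 384) .z)))))))))))))))))))))))))))))) (.ct dF6aa_c546 (nat_lit 36) (nat_lit 7) (.s false (nat_lit 1) (nat_lit 7) (nat_lit 3) (nat_lit 1) (nat_lit 2) true (nat_lit 1) true (nat_lit 10) true (nat_lit 5) true (nat_lit 9) true (nat_lit 11) (.s true (nat_lit 1) (nat_lit 13) (nat_lit 1) (nat_lit 2) (nat_lit 1) true (nat_lit 7) true (nat_lit 11) true (nat_lit 1) true (nat_lit 11) true (nat_lit 10) (.e true (nat_lit 36) (nat_lit 60) (nat_lit 2) (nat_lit 10) (.e false (nat_lit 72) (nat_lit 61) (nat_lit 2) (nat_lit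 10) (.e false (nat_lit 72) (nat_lit 63) (nat_lit 2) (nat_lit 10) (.e true (nat_lit 72) (nat_lit 65) (nat_lit 2) (nat_lit 10) (.e false (nat_lit 36) (nat_lit 28) (nat_lit 7) (nat_lit 5) (.e true (nat_lit 36) (nat_lit 72) (nat_lit 1) (nat_lit 11) (.e true (nat_lit 72) (nat_lit 78) (nat_lit 1) (nat_lit 11) (.e false (nat_lit 72) (nat_lit 79) (nat_lit 1) (nat_lit 11) .nil))))))))))) .leaf) (nat_lit 40967) (nat_lit 324) (.n (nat_lit 156) (nat_lit 1188) (.p (nat_lit 157) (nat_lit 1188) (.p (nat_lit 158) (nat_lit 2196) (.p (nat_lit 159) (nat_lit 576) (.n (nat_lit 160) (nat_lit 1044) (.p (nat_lit 161) (nat_lit 108) (.n (nat_lit 162) (nat_lit 2160) (.n (nat_lit 163) (nat_lit 360) (.n (nat_lit 164) (nat_lit 108) (.p (nat_lit 165) (nat_lit 216) (.n (nat_lit 166) (nat_lit 576) (.p (nat_lit 167) (nat_lit 720) (.n (nat_lit 168) (nat_lit 288) (.n (nat_lit 169) (nat_lit 252) (.p (nat_lit 170) (nat_lit 612) (.n (nat_lit 171)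 (nat_lit 720) (.n (nat_lit 172) (nat_lit 936) (.p (nat_lit 173) (nat_lit 576) (.p (nat_lit 174) (nat_lit 468) (.n (nat_lit 175) (nat_lit 900) (.p (nat_lit 176) (nat_lit 360) (.n (nat_lit 177) (nat_lit 684) .z)))))))))))))))))))))) (.ct dF6aa_c531 (nat_lit 36) (nat_lit 4) (.s true (nat_lit 1) (nat_lit 15) (nat_lit 2) (nat_lit 2) (nat_lit 0) true (nat_lit 5) true (nat_lit 10) true (nat_lit 0) true (nat_lit 8) true (nat_lit 8) (.s false (nat_lit 1) (nat_lit 21) (nat_lit 1) (nat_lit 0) (nat_lit 2) true (nat_lit 4) true (nat_lit 8) false (nat_lit 0) true (nat_lit 9) true (nat_lit 10) (.e true (nat_lit 36) (nat_lit 43) (nat_lit 6) (nat_lit 5) (.e true (nat_lit 36) (nat_lit 106) (nat_lit 0) (nat_lit 10) (.e false (nat_lit 36) (nat_lit 85) (nat_lit 2) (nat_lit 8) (.e false (nat_lit 36) (nat_lit 75) (nat_lit 2) (nat_lit 8) (.e false (nat_lit 36) (nat_lit 41) (nat_lit 7) (nat_lit 4) (.e false (nat_lit 36) (nat_lit 42)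 (nat_lit 7) (nat_lit 4) (.e false (nat_lit 36) (nat_lit 83) (nat_lit 2) (nat_lit 8) (.e true (nat_lit 72) (nat_lit 101) (nat_lit 1) (nat_lit 9) (.e false (nat_lit 72) (nat_lit 102) (nat_lit 1) (nat_lit 9) (.e true (nat_lit 36) (nat_lit 103) (nat_lit 1) (nat_lit 9) (.e false (nat_lit 36) (nat_lit 104) (nat_lit 1) (nat_lit 9) (.e false (nat_lit 36) (nat_lit 105) (nat_lit 1) (nat_lit 9) (.e true (nat_lit 36) (nat_lit 112) (nat_lit 0) (nat_lit 10) .nil)))))))))))))))) .leaf)) (nat_lit 41985) (nat_lit 104) (.p (nat_lit 78) (nat_lit 36) .z) .df (.nd (.nd (.nd .leaf (nat_lit 41986) (nat_lit 151) (.p (nat_lit 101) (nat_lit 36) .z) .df .leaf) (nat_lit 41989) (nat_lit 236) (.p (nat_lit 123) (nat_lit 136) (.n (nat_lit 124) (nat_lit 28) (.n (nat_lit 125) (nat_lit 36) (.p (nat_lit 126) (nat_lit 140) (.p (nat_lit 127) (nat_lit 88) (.n (nat_lit 128) (nat_lit 140) (.p (nat_lit 129) (nat_lit 80) (.n (nat_lit 130) (nat_lit 136)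 (.p (nat_lit 131) (nat_lit 164) (.n (nat_lit 132) (nat_lit 136) (.n (nat_lit 133) (nat_lit 36) (.p (nat_lit 134) (nat_lit 84) (.n (nat_lit 136) (nat_lit 292) (.p (nat_lit 137) (nat_lit 108) (.n (nat_lit 138) (nat_lit 404) (.p (nat_lit 139) (nat_lit 160) (.n (nat_lit 140) (nat_lit 36) (.p (nat_lit 141) (nat_lit 112) (.n (nat_lit 142) (nat_lit 320) (.p (nat_lit 143) (nat_lit 292) (.p (nat_lit 144) (nat_lit 272) (.p (nat_lit 145) (nat_lit 272) (.n (nat_lit 146) (nat_lit 272) (.n (nat_lit 148) (nat_lit 96) (.n (nat_lit 149) (nat_lit 200) (.p (nat_lit 150) (nat_lit 272) (.n (nat_lit 151) (nat_lit 24) (.n (nat_lit 152) (nat_lit 120) (.n (nat_lit 153) (nat_lit 108) (.n (nat_lit 155) (nat_lit 192) .z)))))))))))))))))))))))))))))) (.ct dF6aa_c546 (nat_lit 36) (nat_lit 7) (.s true (nat_lit 1) (nat_lit 7) (nat_lit 0) (nat_lit 0) (nat_lit 7) true (nat_lit 0) true (nat_lit 5) true (nat_lit 5) true (nat_lit 12) true (nat_lit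 12) (.s true (nat_lit 1) (nat_lit 7) (nat_lit 2) (nat_lit 4) (nat_lit 0) true (nat_lit 6) true (nat_lit 12) true (nat_lit 5) true (nat_lit 10) true (nat_lit 8) (.s false (nat_lit 1) (nat_lit 7) (nat_lit 6) (nat_lit 1) (nat_lit 0) true (nat_lit 1) true (nat_lit 12) true (nat_lit 5) true (nat_lit 6) true (nat_lit 11) (.s true (nat_lit 1) (nat_lit 14) (nat_lit 1) (nat_lit 2) (nat_lit 1) true (nat_lit 7) true (nat_lit 11) true (nat_lit 1) true (nat_lit 11) true (nat_lit 10) (.s false (nat_lit 1) (nat_lit 17) (nat_lit 1) (nat_lit 2) (nat_lit 0) true (nat_lit 8) true (nat_lit 12) true (nat_lit 0) true (nat_lit 11) true (nat_lit 10) (.e true (nat_lit 36) (nat_lit 33) (nat_lit 7) (nat_lit 5) (.e false (nat_lit 36) (nat_lit 29) (nat_lit 7) (nat_lit 5) (.e false (nat_lit 36) (nat_lit 31) (nat_lit 7) (nat_lit 5) (.e false (nat_lit 36) (nat_lit 97) (nat_lit 0) (nat_lit 12) (.e false (nat_lit 36) (nat_lit 71) (nat_lit 2)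 (nat_lit 10) (.e false (nat_lit 36) (nat_lit 72) (nat_lit 1) (nat_lit 11) (.e true (nat_lit 36) (nat_lit 75) (nat_lit 1) (nat_lit 11) (.e false (nat_lit 36) (nat_lit 76) (nat_lit 1) (nat_lit 11) (.e true (nat_lit 72) (nat_lit 79) (nat_lit 1) (nat_lit 11) (.e false (nat_lit 36) (nat_lit 80) (nat_lit 1) (nat_lit 11) (.e false (nat_lit 36) (nat_lit 83) (nat_lit 1) (nat_lit 11) (.e true (nat_lit 36) (nat_lit 84) (nat_lit 1) (nat_lit 11) (.e false (nat_lit 36) (nat_lit 85) (nat_lit 1) (nat_lit 11) (.e true (nat_lit 36) (nat_lit 74) (nat_lit 1) (nat_lit 11) (.e false (nat_lit 36) (nat_lit 63) (nat_lit 2) (nat_lit 10) (.e true (nat_lit 36) (nat_lit 65) (nat_lit 2) (nat_lit 10) .nil)))))))))))))))))))))) .leaf) (nat_lit 41991) (nat_lit 306) (.n (nat_lit 156) (nat_lit 72) (.p (nat_lit 157) (nat_lit 36) (.p (nat_lit 158) (nat_lit 72) (.p (nat_lit 159) (nat_lit 72) (.n (nat_lit 160) (nat_lit 72) (.n (nat_lit 161) (nat_lit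 36) (.n (nat_lit 162) (nat_lit 72) (.p (nat_lit 164) (nat_lit 36) (.p (nat_lit 165) (nat_lit 36) (.p (nat_lit 167) (nat_lit 36) (.n (nat_lit 168) (nat_lit 36) (.p (nat_lit 169) (nat_lit 36) (.n (nat_lit 170) (nat_lit 36) (.n (nat_lit 171) (nat_lit 108) (.n (nat_lit 172) (nat_lit 108) (.p (nat_lit 173) (nat_lit 72) (.n (nat_lit 175) (nat_lit 36) (.p (nat_lit 176) (nat_lit 72) (.n (nat_lit 177) (nat_lit 144) .z))))))))))))))))))) (.ct dF6aa_c531 (nat_lit 72) (nat_lit 4) (.s false (nat_lit 1) (nat_lit 6) (nat_lit 1) (nat_lit 2) (nat_lit 6) true (nat_lit 0) true (nat_lit 5) true (nat_lit 5) true (nat_lit 9) true (nat_lit 8) (.s false (nat_lit 1) (nat_lit 6) (nat_lit 1) (nat_lit 6) (nat_lit 2) true (nat_lit 4) true (nat_lit 8) true (nat_lit 5) true (nat_lit 9) true (nat_lit 5) (.s false (nat_lit 1) (nat_lit 7) (nat_lit 0) (nat_lit 2) (nat_lit 6) true (nat_lit 1) true (nat_lit 5) true (nat_lit 4) true (nat_lit 10)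 true (nat_lit 8) (.s false (nat_lit 2) (nat_lit 7) (nat_lit 0) (nat_lit 6) (nat_lit 2) true (nat_lit 5) true (nat_lit 8) true (nat_lit 4) true (nat_lit 10) true (nat_lit 5) (.s true (nat_lit 1) (nat_lit 7) (nat_lit 2) (nat_lit 6) (nat_lit 0) true (nat_lit 5) true (nat_lit 10) true (nat_lit 4) true (nat_lit 8) true (nat_lit 5) (.s false (nat_lit 1) (nat_lit 15) (nat_lit 0) (nat_lit 2) (nat_lit 2) true (nat_lit 5) true (nat_lit 8) true (nat_lit 0) true (nat_lit 10) true (nat_lit 8) (.s true (nat_lit 1) (nat_lit 20) (nat_lit 0) (nat_lit 1) (nat_lit 2) true (nat_lit 5) true (nat_lit 8) false (nat_lit 0) true (nat_lit 10) true (nat_lit 9) (.s true (nat_lit 1) (nat_lit 20) (nat_lit 2) (nat_lit 0) (nat_lit 1) true (nat_lit 4) true (nat_lit 9) false (nat_lit 0) true (nat_lit 8) true (nat_lit 10) (.s true (nat_lit 1) (nat_lit 22) (nat_lit 2) (nat_lit 0) (nat_lit 0) true (nat_lit 5) true (nat_lit 10) false (nat_lit 1)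 true (nat_lit 8) true (nat_lit 10) (.e false (nat_lit 36) (nat_lit 43) (nat_lit 6) (nat_lit 5) (.e false (nat_lit 36) (nat_lit 48) (nat_lit 6) (nat_lit 5) (.e false (nat_lit 36) (nat_lit 74) (nat_lit 2) (nat_lit 8) (.e true (nat_lit 72) (nat_lit 80) (nat_lit 2) (nat_lit 8) (.e true (nat_lit 36) (nat_lit 83) (nat_lit 2) (nat_lit 8) (.e false (nat_lit 36) (nat_lit 76) (nat_lit 2) (nat_lit 8) (.e true (nat_lit 36) (nat_lit 82) (nat_lit 2) (nat_lit 8) (.e true (nat_lit 36) (nat_lit 107) (nat_lit 0) (nat_lit 10) (.e false (nat_lit 36) (nat_lit 109) (nat_lit 0) (nat_lit 10) (.e true (nat_lit 72) (nat_lit 115) (nat_lit 0) (nat_lit 10) (.e false (nat_lit 36) (nat_lit 106) (nat_lit 0) (nat_lit 10) (.e true (nat_lit 36) (nat_lit 108) (nat_lit 0) (nat_lit 10) (.e false (nat_lit 36) (nat_lit 114) (nat_lit 0) (nat_lit 10) (.e false (nat_lit 36) (nat_lit 73) (nat_lit 2) (nat_lit 8) .nil)))))))))))))))))))))))) (.nd (.nd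 .leaf (nat_lit 43009) (nat_lit 105) (.p (nat_lit 79) (nat_lit 36) .z) .df .leaf) (nat_lit 43010) (nat_lit 152) (.p (nat_lit 102) (nat_lit 36) .z) .df .leaf)))) (nat_lit 43013) (nat_lit 251) (.n (nat_lit 123) (nat_lit 88) (.p (nat_lit 124) (nat_lit 16) (.n (nat_lit 126) (nat_lit 44) (.p (nat_lit 127) (nat_lit 32) (.p (nat_lit 128) (nat_lit 80) (.n (nat_lit 129) (nat_lit 56) (.p (nat_lit 130) (nat_lit 52) (.n (nat_lit 131) (nat_lit 140) (.p (nat_lit 132) (nat_lit 52) (.n (nat_lit 134) (nat_lit 84) (.p (nat_lit 136) (nat_lit 172) (.n (nat_lit 137) (nat_lit 72) (.p (nat_lit 138) (nat_lit 272) (.n (nat_lit 139) (nat_lit 148) (.n (nat_lit 141) (nat_lit 100) (.p (nat_lit 142) (nat_lit 224) (.n (nat_lit 143) (nat_lit 172) (.n (nat_lit 144) (nat_lit 212) (.n (nat_lit 145) (nat_lit 212) (.p (nat_lit 146) (nat_lit 212) (.p (nat_lit 148) (nat_lit 60) (.p (nat_lit 149) (nat_lit 104) (.n (nat_lit 150) (nat_lit 212) (.n (nat_lit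 151) (nat_lit 12) (.n (nat_lit 152) (nat_lit 24) (.p (nat_lit 153) (nat_lit 72) (.p (nat_lit 155) (nat_lit 120) .z))))))))))))))))))))))))))) (.ct dF6aa_c546 (nat_lit 36) (nat_lit 7) (.s false (nat_lit 1) (nat_lit 20) (nat_lit 0) (nat_lit 1) (nat_lit 1) true (nat_lit 8) true (nat_lit 11) false (nat_lit 2) true (nat_lit 12) true (nat_lit 11) (.s true (nat_lit 1) (nat_lit 20) (nat_lit 1) (nat_lit 0) (nat_lit 1) true (nat_lit 7) true (nat_lit 11) false (nat_lit 2) true (nat_lit 11) true (nat_lit 12) (.e false (nat_lit 36) (nat_lit 46) (nat_lit 4) (nat_lit 8) (.e false (nat_lit 72) (nat_lit 79) (nat_lit 1) (nat_lit 11) (.e true (nat_lit 36) (nat_lit 88) (nat_lit 0) (nat_lit 12) (.e true (nat_lit 36) (nat_lit 89) (nat_lit 0) (nat_lit 12) (.e false (nat_lit 36) (nat_lit 91) (nat_lit 0) (nat_lit 12) (.e false (nat_lit 36) (nat_lit 95) (nat_lit 0) (nat_lit 12) (.e true (nat_lit 36) (nat_lit 99) (nat_lit 0) (nat_lit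 12) (.e true (nat_lit 36) (nat_lit 82) (nat_lit 1) (nat_lit 11) (.e true (nat_lit 36) (nat_lit 72) (nat_lit 1) (nat_lit 11) (.e false (nat_lit 36) (nat_lit 74) (nat_lit 1) (nat_lit 11) (.e false (nat_lit 36) (nat_lit 75) (nat_lit 1) (nat_lit 11) (.e true (nat_lit 36) (nat_lit 76) (nat_lit 1) (nat_lit 11) (.e true (nat_lit 36) (nat_lit 78) (nat_lit 1) (nat_lit 11) (.e true (nat_lit 36) (nat_lit 80) (nat_lit 1) (nat_lit 11) (.e true (nat_lit 36) (nat_lit 83) (nat_lit 1) (nat_lit 11) (.e false (nat_lit 36) (nat_lit 84) (nat_lit 1) (nat_lit 11) (.e true (nat_lit 36) (nat_lit 85) (nat_lit 1) (nat_lit 11) (.e false (nat_lit 36) (nat_lit 94) (nat_lit 0) (nat_lit 12) .nil))))))))))))))))))))) (.nd (.nd (.nd (.nd (.nd .leaf (nat_lit 43015) (nat_lit 320) (.n (nat_lit 156) (nat_lit 288) (.p (nat_lit 157) (nat_lit 288) (.p (nat_lit 158) (nat_lit 540) (.p (nat_lit 159) (nat_lit 144) (.n (nat_lit 160) (nat_lit 252) (.p (nat_lit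 161) (nat_lit 36) (.n (nat_lit 162) (nat_lit 540) (.n (nat_lit 163) (nat_lit 108) (.n (nat_lit 164) (nat_lit 36) (.p (nat_lit 165) (nat_lit 36) (.n (nat_lit 166) (nat_lit 144) (.p (nat_lit 167) (nat_lit 180) (.n (nat_lit 168) (nat_lit 72) (.n (nat_lit 169) (nat_lit 72) (.p (nat_lit 170) (nat_lit 144) (.n (nat_lit 171) (nat_lit 144) (.n (nat_lit 172) (nat_lit 216) (.p (nat_lit 173) (nat_lit 144) (.p (nat_lit 174) (nat_lit 108) (.n (nat_lit 175) (nat_lit 216) (.p (nat_lit 176) (nat_lit 72) (.n (nat_lit 177) (nat_lit 144) .z)))))))))))))))))))))) (.ct dF6aa_c531 (nat_lit 36) (nat_lit 4) (.s false (nat_lit 1) (nat_lit 15) (nat_lit 0) (nat_lit 2) (nat_lit 2) true (nat_lit 5) true (nat_lit 8) true (nat_lit 0) true (nat_lit 10) true (nat_lit 8) (.s true (nat_lit 1) (nat_lit 20) (nat_lit 1) (nat_lit 0) (nat_lit 2) true (nat_lit 4) true (nat_lit 8) false (nat_lit 0) true (nat_lit 9) true (nat_lit 10) (.e false (nat_lit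 36) (nat_lit 43) (nat_lit 6) (nat_lit 5) (.e false (nat_lit 36) (nat_lit 75) (nat_lit 2) (nat_lit 8) (.e true (nat_lit 36) (nat_lit 80) (nat_lit 2) (nat_lit 8) (.e true (nat_lit 36) (nat_lit 82) (nat_lit 2) (nat_lit 8) (.e true (nat_lit 18) (nat_lit 101) (nat_lit 1) (nat_lit 9) (.e false (nat_lit 18) (nat_lit 102) (nat_lit 1) (nat_lit 9) (.e true (nat_lit 18) (nat_lit 103) (nat_lit 1) (nat_lit 9) (.e false (nat_lit 18) (nat_lit 104) (nat_lit 1) (nat_lit 9) (.e true (nat_lit 36) (nat_lit 106) (nat_lit 0) (nat_lit 10) (.e false (nat_lit 36) (nat_lit 107) (nat_lit 0) (nat_lit 10) (.e false (nat_lit 36) (nat_lit 108) (nat_lit 0) (nat_lit 10) (.e false (nat_lit 36) (nat_lit 109) (nat_lit 0) (nat_lit 10) (.e true (nat_lit 36) (nat_lit 112) (nat_lit 0) (nat_lit 10) (.e true (nat_lit 36) (nat_lit 116) (nat_lit 0) (nat_lit 10) .nil))))))))))))))))) .leaf) (nat_lit 44032) (nat_lit 106) (.p (nat_lit 80) (nat_lit 36) .z)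 .df (.nd .leaf (nat_lit 44033) (nat_lit 129) (.p (nat_lit 91) (nat_lit 36) .z) .df .leaf)) (nat_lit 44034) (nat_lit 161) (.p (nat_lit 106) (nat_lit 36) .z) .df (.nd (.nd .leaf (nat_lit 44036) (nat_lit 246) (.n (nat_lit 123) (nat_lit 72) (.p (nat_lit 124) (nat_lit 36) (.p (nat_lit 125) (nat_lit 36) (.p (nat_lit 127) (nat_lit 72) (.p (nat_lit 128) (nat_lit 36) (.n (nat_lit 129) (nat_lit 36) (.p (nat_lit 130) (nat_lit 36) (.n (nat_lit 131) (nat_lit 72) (.p (nat_lit 132) (nat_lit 36) (.n (nat_lit 133) (nat_lit 72) (.n (nat_lit 134) (nat_lit 72) (.p (nat_lit 135) (nat_lit 36) (.p (nat_lit 136) (nat_lit 36) (.n (nat_lit 137) (nat_lit 72) (.p (nat_lit 138) (nat_lit 72) (.n (nat_lit 139) (nat_lit 72) (.n (nat_lit 141) (nat_lit 36) (.p (nat_lit 142) (nat_lit 36) (.n (nat_lit 143) (nat_lit 36) (.n (nat_lit 144) (nat_lit 36) (.n (nat_lit 145) (nat_lit 36) (.p (nat_lit 146) (nat_lit 72) (.p (nat_lit 148) (nat_lit 36) (.n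 (nat_lit 149) (nat_lit 36) (.n (nat_lit 150) (nat_lit 36) (.n (nat_lit 151) (nat_lit 36) (.n (nat_lit 152) (nat_lit 36) (.p (nat_lit 153) (nat_lit 36) (.p (nat_lit 155) (nat_lit 72) .z))))))))))))))))))))))))))))) (.ct dF6aa_c546 (nat_lit 36) (nat_lit 8) (.s false (nat_lit 1) (nat_lit 6) (nat_lit 1) (nat_lit 4) (nat_lit 2) true (nat_lit 5) true (nat_lit 10) true (nat_lit 6) true (nat_lit 11) true (nat_lit 8) (.s false (nat_lit 1) (nat_lit 7) (nat_lit 2) (nat_lit 0) (nat_lit 4) true (nat_lit 0) true (nat_lit 8) true (nat_lit 5) true (nat_lit 10) true (nat_lit 12) (.s true (nat_lit 1) (nat_lit 15) (nat_lit 1) (nat_lit 2) (nat_lit 0) true (nat_lit 8) true (nat_lit 12) true (nat_lit 0) true (nat_lit 11) true (nat_lit 10) (.e false (nat_lit 36) (nat_lit 66) (nat_lit 2) (nat_lit 10) (.e true (nat_lit 36) (nat_lit 34) (nat_lit 6) (nat_lit 6) (.e false (nat_lit 36) (nat_lit 46) (nat_lit 4) (nat_lit 8) (.e false (nat_lit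 36) (nat_lit 48) (nat_lit 4) (nat_lit 8) (.e true (nat_lit 36) (nat_lit 86) (nat_lit 0) (nat_lit 12) (.e false (nat_lit 36) (nat_lit 88) (nat_lit 0) (nat_lit 12) (.e true (nat_lit 36) (nat_lit 89) (nat_lit 0) (nat_lit 12) (.e false (nat_lit 36) (nat_lit 90) (nat_lit 0) (nat_lit 12) (.e true (nat_lit 36) (nat_lit 87) (nat_lit 0) (nat_lit 12) .nil))))))))))))) .leaf) (nat_lit 44038) (nat_lit 298) (.p (nat_lit 177) (nat_lit 36) .z) .df .leaf)) (nat_lit 44039) (nat_lit 360) (.p (nat_lit 198) (nat_lit 36) .z) .df (.nd (.nd (.nd .leaf (nat_lit 45056) (nat_lit 107) (.p (nat_lit 81) (nat_lit 36) .z) .df .leaf) (nat_lit 45057) (nat_lit 130) (.p (nat_lit 92) (nat_lit 36) .z) .df .leaf) (nat_lit 45058) (nat_lit 162) (.p (nat_lit 107) (nat_lit 36) .z) .df (.nd (.nd .leaf (nat_lit 45060) (nat_lit 223) (.p (nat_lit 154) (nat_lit 36) .z) .df .leaf) (nat_lit 45062) (nat_lit 299) (.p (nat_lit 178) (nat_lit 36) .z) .df .leaf)))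 (nat_lit 45063) (nat_lit 361) (.p (nat_lit 199) (nat_lit 36) .z) .df (.nd (.nd (.nd (.nd .leaf (nat_lit 46080) (nat_lit 113) (.p (nat_lit 72) (nat_lit 36) (.n (nat_lit 73) (nat_lit 36) (.n (nat_lit 74) (nat_lit 36) (.p (nat_lit 76) (nat_lit 36) (.p (nat_lit 78) (nat_lit 36) (.n (nat_lit 79) (nat_lit 36) (.p (nat_lit 80) (nat_lit 36) (.n (nat_lit 81) (nat_lit 36) (.p (nat_lit 83) (nat_lit 36) .z))))))))) (.ct dF6aa_c530 (nat_lit 36) (nat_lit 7) (.s true (nat_lit 1) (nat_lit 4) (nat_lit 0) (nat_lit 2) (nat_lit 2) true (nat_lit 2) true (nat_lit 5) true (nat_lit 3) true (nat_lit 7) true (nat_lit 5) (.s false (nat_lit 1) (nat_lit 6) (nat_lit 1) (nat_lit 2) (nat_lit 0) true (nat_lit 3) true (nat_lit 7) true (nat_lit 2) true (nat_lit 6) true (nat_lit 5) (.e true (nat_lit 36) (nat_lit 15) (nat_lit 6) (nat_lit 2) (.e true (nat_lit 36) (nat_lit 29) (nat_lit 2) (nat_lit 5) (.e false (nat_lit 36) (nat_lit 46) (nat_lit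 0) (nat_lit 7) (.e false (nat_lit 36) (nat_lit 48) (nat_lit 0) (nat_lit 7) (.e false (nat_lit 36) (nat_lit 32) (nat_lit 2) (nat_lit 5) (.e false (nat_lit 36) (nat_lit 17) (nat_lit 6) (nat_lit 2) (.e true (nat_lit 36) (nat_lit 31) (nat_lit 2) (nat_lit 5) .nil)))))))))) .leaf) (nat_lit 46081) (nat_lit 131) (.p (nat_lit 93) (nat_lit 36) .z) .df .leaf) (nat_lit 46082) (nat_lit 163) (.p (nat_lit 108) (nat_lit 36) .z) .df (.nd (.nd .leaf (nat_lit 46084) (nat_lit 244) (.n (nat_lit 123) (nat_lit 52) (.p (nat_lit 124) (nat_lit 16) (.n (nat_lit 126) (nat_lit 44) (.n (nat_lit 127) (nat_lit 40) (.p (nat_lit 128) (nat_lit 44) (.n (nat_lit 129) (nat_lit 20) (.p (nat_lit 130) (nat_lit 52) (.n (nat_lit 131) (nat_lit 32) (.p (nat_lit 132) (nat_lit 52) (.p (nat_lit 133) (nat_lit 36) (.p (nat_lit 134) (nat_lit 24) (.n (nat_lit 135) (nat_lit 36) (.p (nat_lit 136) (nat_lit 64) (.p (nat_lit 138) (nat_lit 56) (.n (nat_lit 139) (nat_lit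 4) (.p (nat_lit 141) (nat_lit 8) (.p (nat_lit 142) (nat_lit 44) (.n (nat_lit 143) (nat_lit 64) (.n (nat_lit 144) (nat_lit 68) (.n (nat_lit 145) (nat_lit 68) (.p (nat_lit 146) (nat_lit 32) (.p (nat_lit 148) (nat_lit 24) (.p (nat_lit 149) (nat_lit 68) (.n (nat_lit 150) (nat_lit 68) (.p (nat_lit 151) (nat_lit 24) (.p (nat_lit 152) (nat_lit 84) (.p (nat_lit 153) (nat_lit 36) (.n (nat_lit 154) (nat_lit 36) (.p (nat_lit 155) (nat_lit 48) .z))))))))))))))))))))))))))))) (.ct dF6aa_c546 (nat_lit 36) (nat_lit 8) (.s true (nat_lit 1) (nat_lit 6) (nat_lit 1) (nat_lit 2) (nat_lit 4) true (nat_lit 2) true (nat_lit 8) true (nat_lit 6) true (nat_lit 11) true (nat_lit 10) (.s true (nat_lit 1) (nat_lit 6) (nat_lit 1) (nat_lit 4) (nat_lit 2) true (nat_lit 5) true (nat_lit 10) true (nat_lit 6) true (nat_lit 11) true (nat_lit 8) (.s true (nat_lit 1) (nat_lit 7) (nat_lit 2) (nat_lit 4) (nat_lit 0) true (nat_lit 6) true (nat_lit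 12) true (nat_lit 5) true (nat_lit 10) true (nat_lit 8) (.s false (nat_lit 1) (nat_lit 20) (nat_lit 0) (nat_lit 1) (nat_lit 1) true (nat_lit 8) true (nat_lit 11) false (nat_lit 2) true (nat_lit 12) true (nat_lit 11) (.e true (nat_lit 36) (nat_lit 44) (nat_lit 4) (nat_lit 8) (.e false (nat_lit 36) (nat_lit 34) (nat_lit 6) (nat_lit 6) (.e false (nat_lit 36) (nat_lit 60) (nat_lit 2) (nat_lit 10) (.e true (nat_lit 36) (nat_lit 63) (nat_lit 2) (nat_lit 10) (.e false (nat_lit 36) (nat_lit 65) (nat_lit 2) (nat_lit 10) (.e false (nat_lit 36) (nat_lit 28) (nat_lit 7) (nat_lit 5) (.e true (nat_lit 36) (nat_lit 31) (nat_lit 7) (nat_lit 5) (.e false (nat_lit 36) (nat_lit 33) (nat_lit 7) (nat_lit 5) (.e true (nat_lit 36) (nat_lit 66) (nat_lit 2) (nat_lit 10) (.e false (nat_lit 72) (nat_lit 71) (nat_lit 2) (nat_lit 10) (.e false (nat_lit 36) (nat_lit 86) (nat_lit 0) (nat_lit 12) (.e true (nat_lit 72) (nat_lit 88) (nat_lit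 0) (nat_lit 12) (.e true (nat_lit 36) (nat_lit 90) (nat_lit 0) (nat_lit 12) (.e false (nat_lit 36) (nat_lit 92) (nat_lit 0) (nat_lit 12) (.e false (nat_lit 36) (nat_lit 93) (nat_lit 0) (nat_lit 12) (.e false (nat_lit 36) (nat_lit 97) (nat_lit 0) (nat_lit 12) (.e true (nat_lit 36) (nat_lit 98) (nat_lit 0) (nat_lit 12) (.e false (nat_lit 36) (nat_lit 79) (nat_lit 1) (nat_lit 11) (.e true (nat_lit 36) (nat_lit 82) (nat_lit 1) (nat_lit 11) .nil)))))))))))))))))))))))) .leaf) (nat_lit 46086) (nat_lit 319) (.n (nat_lit 156) (nat_lit 288) (.p (nat_lit 157) (nat_lit 324) (.p (nat_lit 158) (nat_lit 576) (.p (nat_lit 159) (nat_lit 144) (.n (nat_lit 160) (nat_lit 216) (.p (nat_lit 161) (nat_lit 36) (.n (nat_lit 162) (nat_lit 576) (.n (nat_lit 163) (nat_lit 108) (.n (nat_lit 164) (nat_lit 72) (.n (nat_lit 166) (nat_lit 180) (.p (nat_lit 167) (nat_lit 216) (.n (nat_lit 168) (nat_lit 72) (.n (nat_lit 169) (nat_lit 72) (.p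 (nat_lit 170) (nat_lit 180) (.n (nat_lit 171) (nat_lit 180) (.n (nat_lit 172) (nat_lit 252) (.p (nat_lit 173) (nat_lit 144) (.p (nat_lit 174) (nat_lit 144) (.n (nat_lit 175) (nat_lit 288) (.p (nat_lit 176) (nat_lit 72) (.n (nat_lit 177) (nat_lit 108) (.n (nat_lit 178) (nat_lit 36) .z)))))))))))))))))))))) (.ct dF6aa_c531 (nat_lit 36) (nat_lit 5) (.s false (nat_lit 1) (nat_lit 6) (nat_lit 1) (nat_lit 6) (nat_lit 2) true (nat_lit 4) true (nat_lit 8) true (nat_lit 5) true (nat_lit 9) true (nat_lit 5) (.s true (nat_lit 1) (nat_lit 7) (nat_lit 0) (nat_lit 2) (nat_lit 6) true (nat_lit 1) true (nat_lit 5) true (nat_lit 4) true (nat_lit 10) true (nat_lit 8) (.s false (nat_lit 1) (nat_lit 14) (nat_lit 1) (nat_lit 2) (nat_lit 2) true (nat_lit 4) true (nat_lit 8) true (nat_lit 1) true (nat_lit 9) true (nat_lit 8) (.s false (nat_lit 1) (nat_lit 15) (nat_lit 0) (nat_lit 2) (nat_lit 2) true (nat_lit 5) true (nat_lit 8) true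 (nat_lit 0) true (nat_lit 10) true (nat_lit 8) (.s true (nat_lit 1) (nat_lit 20) (nat_lit 0) (nat_lit 1) (nat_lit 2) true (nat_lit 5) true (nat_lit 8) false (nat_lit 0) true (nat_lit 10) true (nat_lit 9) (.e true (nat_lit 36) (nat_lit 80) (nat_lit 2) (nat_lit 8) (.e true (nat_lit 36) (nat_lit 85) (nat_lit 2) (nat_lit 8) (.e true (nat_lit 36) (nat_lit 44) (nat_lit 6) (nat_lit 5) (.e false (nat_lit 36) (nat_lit 102) (nat_lit 1) (nat_lit 9) (.e false (nat_lit 36) (nat_lit 41) (nat_lit 7) (nat_lit 4) (.e true (nat_lit 36) (nat_lit 78) (nat_lit 2) (nat_lit 8) (.e false (nat_lit 36) (nat_lit 43) (nat_lit 6) (nat_lit 5) (.e false (nat_lit 36) (nat_lit 75) (nat_lit 2) (nat_lit 8) (.e true (nat_lit 36) (nat_lit 115) (nat_lit 0) (nat_lit 10) .nil))))))))))))))) .leaf)) (nat_lit 46087) (nat_lit 362) (.p (nat_lit 200) (nat_lit 36) .z) .df (.nd (.nd (.nd .leaf (nat_lit 47104) (nat_lit 108) (.p (nat_lit 82) (nat_lit 36)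 .z) .df .leaf) (nat_lit 47105) (nat_lit 132) (.p (nat_lit 94) (nat_lit 36) .z) .df .leaf) (nat_lit 47106) (nat_lit 164) (.p (nat_lit 109) (nat_lit 36) .z) .df (.nd (.nd .leaf (nat_lit 47108) (nat_lit 224) (.p (nat_lit 155) (nat_lit 36) .z) .df .leaf) (nat_lit 47110) (nat_lit 321) (.n (nat_lit 156) (nat_lit 108) (.p (nat_lit 157) (nat_lit 72) (.p (nat_lit 158) (nat_lit 108) (.p (nat_lit 159) (nat_lit 144) (.n (nat_lit 160) (nat_lit 144) (.n (nat_lit 161) (nat_lit 36) (.n (nat_lit 162) (nat_lit 108) (.n (nat_lit 163) (nat_lit 36) (.p (nat_lit 165) (nat_lit 36) (.n (nat_lit 166) (nat_lit 36) (.p (nat_lit 167) (nat_lit 108) (.n (nat_lit 168) (nat_lit 72) (.p (nat_lit 169) (nat_lit 72) (.n (nat_lit 170) (nat_lit 72) (.n (nat_lit 171) (nat_lit 36) (.n (nat_lit 172) (nat_lit 72) (.p (nat_lit 173) (nat_lit 108) (.n (nat_lit 174) (nat_lit 36) (.n (nat_lit 175) (nat_lit 36) (.p (nat_lit 176) (nat_lit 108) (.n (nat_lit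 177) (nat_lit 144) .z))))))))))))))))))))) (.ct dF6aa_c531 (nat_lit 36) (nat_lit 5) (.s false (nat_lit 1) (nat_lit 15) (nat_lit 0) (nat_lit 2) (nat_lit 2) true (nat_lit 5) true (nat_lit 8) true (nat_lit 0) true (nat_lit 10) true (nat_lit 8) (.s true (nat_lit 1) (nat_lit 20) (nat_lit 0) (nat_lit 1) (nat_lit 2) true (nat_lit 5) true (nat_lit 8) false (nat_lit 0) true (nat_lit 10) true (nat_lit 9) (.e false (nat_lit 36) (nat_lit 43) (nat_lit 6) (nat_lit 5) (.e false (nat_lit 36) (nat_lit 75) (nat_lit 2) (nat_lit 8) (.e true (nat_lit 36) (nat_lit 115) (nat_lit 0) (nat_lit 10) (.e true (nat_lit 36) (nat_lit 80) (nat_lit 2) (nat_lit 8) (.e true (nat_lit 36) (nat_lit 79) (nat_lit 2) (nat_lit 8) (.e false (nat_lit 36) (nat_lit 116) (nat_lit 0) (nat_lit 10) (.e true (nat_lit 18) (nat_lit 101) (nat_lit 1) (nat_lit 9) (.e false (nat_lit 54) (nat_lit 102) (nat_lit 1) (nat_lit 9) (.e true (nat_lit 18) (nat_lit 103) (nat_lit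 1) (nat_lit 9) (.e false (nat_lit 18) (nat_lit 104) (nat_lit 1) (nat_lit 9) (.e false (nat_lit 36) (nat_lit 105) (nat_lit 1) (nat_lit 9) .nil)))))))))))))) .leaf))))) (nat_lit 47111) (nat_lit 363) (.p (nat_lit 201) (nat_lit 36) .z) .df (.nd (.nd (.nd (.nd (.nd (.nd .leaf (nat_lit 48128) (nat_lit 109) (.p (nat_lit 83) (nat_lit 36) .z) .df .leaf) (nat_lit 48129) (nat_lit 133) (.p (nat_lit 95) (nat_lit 36) .z) .df (.nd .leaf (nat_lit 48130) (nat_lit 165) (.p (nat_lit 110) (nat_lit 36) .z) .df .leaf)) (nat_lit 48132) (nat_lit 238) (.p (nat_lit 123) (nat_lit 40) (.n (nat_lit 124) (nat_lit 4) (.p (nat_lit 126) (nat_lit 20) (.n (nat_lit 127) (nat_lit 8) (.n (nat_lit 128) (nat_lit 56) (.p (nat_lit 129) (nat_lit 32) (.n (nat_lit 130) (nat_lit 40) (.p (nat_lit 131) (nat_lit 80) (.n (nat_lit 132) (nat_lit 40) (.p (nat_lit 134) (nat_lit 48) (.n (nat_lit 136) (nat_lit 88) (.p (nat_lit 137) (nat_lit 72) (.n (nat_lit 138)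 (nat_lit 104) (.p (nat_lit 139) (nat_lit 64) (.n (nat_lit 140) (nat_lit 72) (.p (nat_lit 141) (nat_lit 52) (.n (nat_lit 142) (nat_lit 128) (.p (nat_lit 143) (nat_lit 88) (.p (nat_lit 144) (nat_lit 80) (.p (nat_lit 145) (nat_lit 80) (.n (nat_lit 146) (nat_lit 80) (.p (nat_lit 148) (nat_lit 12) (.n (nat_lit 149) (nat_lit 80) (.p (nat_lit 150) (nat_lit 80) (.p (nat_lit 151) (nat_lit 12) (.p (nat_lit 152) (nat_lit 24) (.n (nat_lit 153) (nat_lit 72) (.n (nat_lit 155) (nat_lit 48) .z)))))))))))))))))))))))))))) (.ct dF6aa_c546 (nat_lit 36) (nat_lit 8) (.s true (nat_lit 1) (nat_lit 6) (nat_lit 1) (nat_lit 2) (nat_lit 4) true (nat_lit 2) true (nat_lit 8) true (nat_lit 6) true (nat_lit 11) true (nat_lit 10) (.s true (nat_lit 1) (nat_lit 6) (nat_lit 1) (nat_lit 4) (nat_lit 2) true (nat_lit 5) true (nat_lit 10) true (nat_lit 6) true (nat_lit 11) true (nat_lit 8) (.s false (nat_lit 1) (nat_lit 6) (nat_lit 2) (nat_lit 5)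 (nat_lit 0) true (nat_lit 6) true (nat_lit 12) true (nat_lit 6) true (nat_lit 10) true (nat_lit 7) (.s false (nat_lit 1) (nat_lit 7) (nat_lit 0) (nat_lit 6) (nat_lit 1) true (nat_lit 8) true (nat_lit 11) true (nat_lit 5) true (nat_lit 12) true (nat_lit 6) dF6aa_i19))))) (.nd (.nd .leaf (nat_lit 48134) (nat_lit 315) (.p (nat_lit 156) (nat_lit 36) (.p (nat_lit 157) (nat_lit 36) (.p (nat_lit 158) (nat_lit 108) (.n (nat_lit 159) (nat_lit 216) (.p (nat_lit 160) (nat_lit 108) (.p (nat_lit 161) (nat_lit 108) (.n (nat_lit 162) (nat_lit 108) (.n (nat_lit 163) (nat_lit 36) (.n (nat_lit 165) (nat_lit 72) (.n (nat_lit 166) (nat_lit 72) (.n (nat_lit 167) (nat_lit 72) (.p (nat_lit 168) (nat_lit 108) (.n (nat_lit 169) (nat_lit 144) (.p (nat_lit 170) (nat_lit 252) (.n (nat_lit 171) (nat_lit 36) (.p (nat_lit 172) (nat_lit 36) (.n (nat_lit 173) (nat_lit 144) (.p (nat_lit 174) (nat_lit 144) (.n (nat_lit 175) (nat_lit 72) (.n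 (nat_lit 176) (nat_lit 144) (.p (nat_lit 177) (nat_lit 216) .z))))))))))))))))))))) (.ct dF6aa_c531 (nat_lit 36) (nat_lit 5) (.s false (nat_lit 1) (nat_lit 6) (nat_lit 1) (nat_lit 6) (nat_lit 2) true (nat_lit 4) true (nat_lit 8) true (nat_lit 5) true (nat_lit 9) true (nat_lit 5) (.s false (nat_lit 1) (nat_lit 7) (nat_lit 0) (nat_lit 6) (nat_lit 2) true (nat_lit 5) true (nat_lit 8) true (nat_lit 4) true (nat_lit 10) true (nat_lit 5) (.s false (nat_lit 1) (nat_lit 15) (nat_lit 0) (nat_lit 2) (nat_lit 2) true (nat_lit 5) true (nat_lit 8) true (nat_lit 0) true (nat_lit 10) true (nat_lit 8) (.s true (nat_lit 1) (nat_lit 20) (nat_lit 0) (nat_lit 1) (nat_lit 2) true (nat_lit 5) true (nat_lit 8) false (nat_lit 0) true (nat_lit 10) true (nat_lit 9) (.e true (nat_lit 36) (nat_lit 74) (nat_lit 2) (nat_lit 8) (.e true (nat_lit 36) (nat_lit 79) (nat_lit 2) (nat_lit 8) (.e true (nat_lit 36) (nat_lit 80) (nat_lit 2) (nat_lit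 8) (.e false (nat_lit 36) (nat_lit 102) (nat_lit 1) (nat_lit 9) (.e false (nat_lit 72) (nat_lit 48) (nat_lit 6) (nat_lit 5) (.e false (nat_lit 36) (nat_lit 72) (nat_lit 2) (nat_lit 8) (.e false (nat_lit 36) (nat_lit 76) (nat_lit 2) (nat_lit 8) (.e false (nat_lit 36) (nat_lit 78) (nat_lit 2) (nat_lit 8) (.e true (nat_lit 36) (nat_lit 82) (nat_lit 2) (nat_lit 8) (.e true (nat_lit 36) (nat_lit 41) (nat_lit 7) (nat_lit 4) (.e true (nat_lit 36) (nat_lit 115) (nat_lit 0) (nat_lit 10) (.e false (nat_lit 36) (nat_lit 105) (nat_lit 1) (nat_lit 9) .nil))))))))))))))))) .leaf) (nat_lit 48135) (nat_lit 368) (.n (nat_lit 179) (nat_lit 36) (.p (nat_lit 180) (nat_lit 36) (.n (nat_lit 181) (nat_lit 36) (.p (nat_lit 183) (nat_lit 36) (.p (nat_lit 184) (nat_lit 72) (.p (nat_lit 186) (nat_lit 36) (.p (nat_lit 188) (nat_lit 36) (.n (nat_lit 189) (nat_lit 36) (.p (nat_lit 190) (nat_lit 36) (.n (nat_lit 191) (nat_lit 36) (.p (nat_lit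 192) (nat_lit 36) (.n (nat_lit 194) (nat_lit 36) (.n (nat_lit 195) (nat_lit 36) (.p (nat_lit 199) (nat_lit 36) .z)))))))))))))) (.ct dF6aa_c291 (nat_lit 36) (nat_lit 4) (.s false (nat_lit 1) (nat_lit 7) (nat_lit 0) (nat_lit 2) (nat_lit 7) true (nat_lit 1) true (nat_lit 4) true (nat_lit 4) true (nat_lit 10) true (nat_lit 8) (.s true (nat_lit 3) (nat_lit 7) (nat_lit 0) (nat_lit 7) (nat_lit 2) true (nat_lit 5) true (nat_lit 8) true (nat_lit 4) true (nat_lit 10) true (nat_lit 4) (.s true (nat_lit 2) (nat_lit 7) (nat_lit 1) (nat_lit 6) (nat_lit 2) true (nat_lit 4) true (nat_lit 8) true (nat_lit 4) true (nat_lit 9) true (nat_lit 5) (.s true (nat_lit 2) (nat_lit 7) (nat_lit 2) (nat_lit 2) (nat_lit 4) true (nat_lit 1) true (nat_lit 7) true (nat_lit 4) true (nat_lit 8) true (nat_lit 8) (.s false (nat_lit 2) (nat_lit 7) (nat_lit 2) (nat_lit 6) (nat_lit 1) true (nat_lit 4) true (nat_lit 9) true (nat_lit 4) true (nat_lit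 8) true (nat_lit 5) (.s true (nat_lit 1) (nat_lit 8) (nat_lit 1) (nat_lit 4) (nat_lit 2) true (nat_lit 4) true (nat_lit 8) true (nat_lit 3) true (nat_lit 9) true (nat_lit 7) (.s false (nat_lit 1) (nat_lit 8) (nat_lit 2) (nat_lit 5) (nat_lit 0) true (nat_lit 5) true (nat_lit 10) true (nat_lit 3) true (nat_lit 8) true (nat_lit 6) dF6aa_i38)))))))) .leaf)) (nat_lit 49152) (nat_lit 110) (.p (nat_lit 84) (nat_lit 36) .z) .df (.nd (.nd (.nd .leaf (nat_lit 49153) (nat_lit 139) (.n (nat_lit 87) (nat_lit 36) (.p (nat_lit 88) (nat_lit 36) (.n (nat_lit 89) (nat_lit 36) (.p (nat_lit 90) (nat_lit 36) (.p (nat_lit 91) (nat_lit 36) (.n (nat_lit 94) (nat_lit 36) (.p (nat_lit 95) (nat_lit 36) (.n (nat_lit 97) (nat_lit 36) (.p (nat_lit 98) (nat_lit 36) .z))))))))) (.ct dF6aa_c290 (nat_lit 36) (nat_lit 6) (.s false (nat_lit 1) (nat_lit 4) (nat_lit 1) (nat_lit 2) (nat_lit 2) true (nat_lit 1) true (nat_lit 5) true (nat_lit 4) true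 (nat_lit 6) true (nat_lit 5) (.e false (nat_lit 36) (nat_lit 15) (nat_lit 7) (nat_lit 1) (.e false (nat_lit 36) (nat_lit 34) (nat_lit 2) (nat_lit 5) (.e false (nat_lit 36) (nat_lit 22) (nat_lit 4) (nat_lit 4) (.e false (nat_lit 36) (nat_lit 44) (nat_lit 1) (nat_lit 6) (.e false (nat_lit 36) (nat_lit 45) (nat_lit 1) (nat_lit 6) (.e true (nat_lit 36) (nat_lit 46) (nat_lit 1) (nat_lit 6) (.e true (nat_lit 36) (nat_lit 36) (nat_lit 2) (nat_lit 5) .nil))))))))) .leaf) (nat_lit 49154) (nat_lit 166) (.p (nat_lit 111) (nat_lit 36) .z) .df .leaf) (nat_lit 49156) (nat_lit 225) (.n (nat_lit 123) (nat_lit 72) (.p (nat_lit 124) (nat_lit 36) (.p (nat_lit 127) (nat_lit 72) (.p (nat_lit 128) (nat_lit 36) (.n (nat_lit 129) (nat_lit 36) (.p (nat_lit 130) (nat_lit 36) (.n (nat_lit 131) (nat_lit 72) (.p (nat_lit 132) (nat_lit 36) (.n (nat_lit 133) (nat_lit 72) (.n (nat_lit 134) (nat_lit 36) (.p (nat_lit 136) (nat_lit 36) (.n (nat_lit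 137) (nat_lit 36) (.p (nat_lit 138) (nat_lit 72) (.n (nat_lit 139) (nat_lit 72) (.n (nat_lit 141) (nat_lit 36) (.p (nat_lit 142) (nat_lit 36) (.n (nat_lit 143) (nat_lit 36) (.n (nat_lit 144) (nat_lit 36) (.n (nat_lit 145) (nat_lit 36) (.p (nat_lit 146) (nat_lit 72) (.p (nat_lit 148) (nat_lit 36) (.n (nat_lit 149) (nat_lit 36) (.n (nat_lit 150) (nat_lit 36) (.n (nat_lit 151) (nat_lit 36) (.p (nat_lit 153) (nat_lit 36) (.p (nat_lit 155) (nat_lit 36) .z)))))))))))))))))))))))))) (.ct dF6aa_c546 (nat_lit 36) (nat_lit 8) (.s false (nat_lit 1) (nat_lit 6) (nat_lit 1) (nat_lit 4) (nat_lit 2) true (nat_lit 5) true (nat_lit 10) true (nat_lit 6) true (nat_lit 11) true (nat_lit 8) (.s true (nat_lit 1) (nat_lit 6) (nat_lit 2) (nat_lit 5) (nat_lit 0) true (nat_lit 6) true (nat_lit 12) true (nat_lit 6) true (nat_lit 10) true (nat_lit 7) (.s true (nat_lit 1) (nat_lit 6) (nat_lit 4) (nat_lit 1) (nat_lit 2) true (nat_lit 0)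 true (nat_lit 10) true (nat_lit 6) true (nat_lit 8) true (nat_lit 11) (.s false (nat_lit 1) (nat_lit 7) (nat_lit 0) (nat_lit 0) (nat_lit 7) true (nat_lit 0) true (nat_lit 5) true (nat_lit 5) true (nat_lit 12) true (nat_lit 12) (.s true (nat_lit 1) (nat_lit 7) (nat_lit 0) (nat_lit 4) (nat_lit 2) true (nat_lit 6) true (nat_lit 10) true (nat_lit 5) true (nat_lit 12) true (nat_lit 8) (.s true (nat_lit 1) (nat_lit 7) (nat_lit 0) (nat_lit 6) (nat_lit 1) true (nat_lit 8) true (nat_lit 11) true (nat_lit 5) true (nat_lit 12) true (nat_lit 6) (.s false (nat_lit 1) (nat_lit 7) (nat_lit 2) (nat_lit 4) (nat_lit 0) true (nat_lit 6) true (nat_lit 12) true (nat_lit 5) true (nat_lit 10) true (nat_lit 8) (.s true (nat_lit 1) (nat_lit 7) (nat_lit 6) (nat_lit 1) (nat_lit 0) true (nat_lit 1) true (nat_lit 12) true (nat_lit 5) true (nat_lit 6) true (nat_lit 11) (.s false (nat_lit 1) (nat_lit 14) (nat_lit 1) (nat_lit 2) (nat_lit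 1) true (nat_lit 7) true (nat_lit 11) true (nat_lit 1) true (nat_lit 11) true (nat_lit 10) (.s false (nat_lit 1) (nat_lit 15) (nat_lit 0) (nat_lit 1) (nat_lit 2) true (nat_lit 6) true (nat_lit 10) true (nat_lit 0) true (nat_lit 12) true (nat_lit 11) (.s false (nat_lit 1) (nat_lit 16) (nat_lit 0) (nat_lit 1) (nat_lit 2) true (nat_lit 6) true (nat_lit 10) true (nat_lit 0) true (nat_lit 12) true (nat_lit 11) (.s true (nat_lit 1) (nat_lit 15) (nat_lit 1) (nat_lit 0) (nat_lit 2) true (nat_lit 5) true (nat_lit 10) true (nat_lit 0) true (nat_lit 11) true (nat_lit 12) (.s true (nat_lit 1) (nat_lit 17) (nat_lit 1) (nat_lit 2) (nat_lit 0) true (nat_lit 8) true (nat_lit 12) true (nat_lit 0) true (nat_lit 11) true (nat_lit 10) (.a true (nat_lit 1296) (nat_lit 15) (nat_lit 16) (nat_lit 0) (nat_lit 0) (.e true (nat_lit 36) (nat_lit 28) (nat_lit 7) (nat_lit 5) dF6aa_i0)))))))))))))))) (.nd (.nd .leaf (nat_lit 49158) (nat_lit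 300) (.n (nat_lit 156) (nat_lit 36) (.p (nat_lit 157) (nat_lit 36) (.p (nat_lit 158) (nat_lit 108) (.n (nat_lit 159) (nat_lit 72) (.p (nat_lit 161) (nat_lit 36) (.n (nat_lit 162) (nat_lit 108) (.p (nat_lit 164) (nat_lit 36) (.n (nat_lit 166) (nat_lit 36) (.n (nat_lit 167) (nat_lit 36) (.p (nat_lit 168) (nat_lit 36) (.n (nat_lit 169) (nat_lit 72) (.p (nat_lit 170) (nat_lit 108) (.n (nat_lit 171) (nat_lit 72) (.n (nat_lit 172) (nat_lit 36) (.n (nat_lit 173) (nat_lit 36) (.p (nat_lit 174) (nat_lit 72) (.n (nat_lit 175) (nat_lit 36) (.n (nat_lit 176) (nat_lit 36) (.p (nat_lit 177) (nat_lit 36) .z))))))))))))))))))) (.ct dF6aa_c531 (nat_lit 36) (nat_lit 5) (.s true (nat_lit 1) (nat_lit 6) (nat_lit 1) (nat_lit 6) (nat_lit 2) true (nat_lit 4) true (nat_lit 8) true (nat_lit 5) true (nat_lit 9) true (nat_lit 5) (.s false (nat_lit 1) (nat_lit 7) (nat_lit 2) (nat_lit 0) (nat_lit 6) false (nat_lit 0) true (nat_lit 5) true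 (nat_lit 4) true (nat_lit 8) true (nat_lit 10) (.s true (nat_lit 1) (nat_lit 7) (nat_lit 6) (nat_lit 0) (nat_lit 2) false (nat_lit 0) true (nat_lit 8) true (nat_lit 4) true (nat_lit 5) true (nat_lit 10) dF6aa_i22)))) .leaf) (nat_lit 49159) (nat_lit 365) (.n (nat_lit 179) (nat_lit 111) (.p (nat_lit 180) (nat_lit 69) (.n (nat_lit 181) (nat_lit 39) (.p (nat_lit 182) (nat_lit 81) (.n (nat_lit 183) (nat_lit 3) (.p (nat_lit 184) (nat_lit 36) (.n (nat_lit 185) (nat_lit 42) (.p (nat_lit 186) (nat_lit 69) (.p (nat_lit 187) (nat_lit 96) (.p (nat_lit 188) (nat_lit 93) (.n (nat_lit 189) (nat_lit 24) (.n (nat_lit 190) (nat_lit 12) (.p (nat_lit 191) (nat_lit 78) (.p (nat_lit 192) (nat_lit 84) (.p (nat_lit 193) (nat_lit 75) (.p (nat_lit 194) (nat_lit 12) (.n (nat_lit 195) (nat_lit 84) (.p (nat_lit 196) (nat_lit 27) (.p (nat_lit 197) (nat_lit 51) (.n (nat_lit 198) (nat_lit 21) (.p (nat_lit 199) (nat_lit 93) (.p (nat_lit 200)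 (nat_lit 96) (.p (nat_lit 201) (nat_lit 42) .z))))))))))))))))))))))) (.ct dF6aa_c291 (nat_lit 36) (nat_lit 4) (.s true (nat_lit 3) (nat_lit 7) (nat_lit 0) (nat_lit 7) (nat_lit 2) true (nat_lit 5) true (nat_lit 8) true (nat_lit 4) true (nat_lit 10) true (nat_lit 4) (.s true (nat_lit 2) (nat_lit 7) (nat_lit 2) (nat_lit 2) (nat_lit 4) true (nat_lit 1) true (nat_lit 7) true (nat_lit 4) true (nat_lit 8) true (nat_lit 8) (.s true (nat_lit 1) (nat_lit 7) (nat_lit 2) (nat_lit 4) (nat_lit 2) true (nat_lit 3) true (nat_lit 8) true (nat_lit 4) true (nat_lit 8) true (nat_lit 7) (.s false (nat_lit 2) (nat_lit 7) (nat_lit 4) (nat_lit 2) (nat_lit 2) true (nat_lit 1) true (nat_lit 8) true (nat_lit 4) true (nat_lit 7) true (nat_lit 8) (.s true (nat_lit 3) (nat_lit 7) (nat_lit 6) (nat_lit 2) (nat_lit 1) true (nat_lit 1) true (nat_lit 9) true (nat_lit 4) true (nat_lit 5) true (nat_lit 8) (.s false (nat_lit 1) (nat_lit 8) (nat_lit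 0) (nat_lit 7) (nat_lit 1) true (nat_lit 7) true (nat_lit 9) true (nat_lit 3) true (nat_lit 10) true (nat_lit 4) (.s false (nat_lit 1) (nat_lit 8) (nat_lit 1) (nat_lit 4) (nat_lit 2) true (nat_lit 4) true (nat_lit 8) true (nat_lit 3) true (nat_lit 9) true (nat_lit 7) (.s true (nat_lit 1) (nat_lit 8) (nat_lit 2) (nat_lit 4) (nat_lit 1) true (nat_lit 4) true (nat_lit 9) true (nat_lit 3) true (nat_lit 8) true (nat_lit 7) (.s false (nat_lit 1) (nat_lit 15) (nat_lit 1) (nat_lit 2) (nat_lit 2) true (nat_lit 4) true (nat_lit 8) true (nat_lit 1) true (nat_lit 9) true (nat_lit 8) (.s true (nat_lit 1) (nat_lit 15) (nat_lit 2) (nat_lit 1) (nat_lit 2) true (nat_lit 3) true (nat_lit 8) true (nat_lit 1) true (nat_lit 8) true (nat_lit 9) (.s false (nat_lit 1) (nat_lit 16) (nat_lit 2) (nat_lit 2) (nat_lit 1) true (nat_lit 4) true (nat_lit 9) true (nat_lit 1) true (nat_lit 8) true (nat_lit 8) (.s false (nat_lit 3) (nat_lit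 22) (nat_lit 0) (nat_lit 2) (nat_lit 1) true (nat_lit 7) true (nat_lit 9) false (nat_lit 1) true (nat_lit 10) true (nat_lit 8) dF6aa_i33))))))))))))) .leaf))) (nat_lit 50176) (nat_lit 134) (.p (nat_lit 96) (nat_lit 36) .z) .df (.nd (.nd (.nd (.nd .leaf (nat_lit 50178) (nat_lit 181) (.p (nat_lit 117) (nat_lit 36) .z) .df .leaf) (nat_lit 50182) (nat_lit 386) (.n (nat_lit 179) (nat_lit 27) (.p (nat_lit 180) (nat_lit 9) (.n (nat_lit 181) (nat_lit 27) (.p (nat_lit 182) (nat_lit 45) (.p (nat_lit 183) (nat_lit 9) (.p (nat_lit 185) (nat_lit 18) (.p (nat_lit 186) (nat_lit 9) (.n (nat_lit 187) (nat_lit 72) (.n (nat_lit 188) (nat_lit 63) (.p (nat_lit 190) (nat_lit 36) (.n (nat_lit 191) (nat_lit 18) (.p (nat_lit 193) (nat_lit 27) (.n (nat_lit 194) (nat_lit 72) (.p (nat_lit 196) (nat_lit 27) (.n (nat_lit 197) (nat_lit 9) (.n (nat_lit 198) (nat_lit 81) (.n (nat_lit 199) (nat_lit 27) (.n (nat_lit 200) (nat_lit 36) (.p (nat_lit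 201) (nat_lit 54) .z))))))))))))))))))) (.ct dF6aa_c291 (nat_lit 36) (nat_lit 5) (.s true (nat_lit 1) (nat_lit 18) (nat_lit 0) (nat_lit 2) (nat_lit 2) true (nat_lit 5) true (nat_lit 8) true (nat_lit 0) true (nat_lit 10) true (nat_lit 8) (.s false (nat_lit 1) (nat_lit 18) (nat_lit 2) (nat_lit 0) (nat_lit 2) true (nat_lit 3) true (nat_lit 8) true (nat_lit 0) true (nat_lit 8) true (nat_lit 10) (.e true (nat_lit 72) (nat_lit 90) (nat_lit 2) (nat_lit 8) (.e true (nat_lit 108) (nat_lit 118) (nat_lit 0) (nat_lit 10) (.e false (nat_lit 36) (nat_lit 119) (nat_lit 0) (nat_lit 10) (.e false (nat_lit 36) (nat_lit 121) (nat_lit 0) (nat_lit 10) (.e false (nat_lit 36) (nat_lit 122) (nat_lit 0) (nat_lit 10) (.e false (nat_lit 72) (nat_lit 96) (nat_lit 2) (nat_lit 8) (.e false (nat_lit 36) (nat_lit 39) (nat_lit 8) (nat_lit 3) (.e false (nat_lit 36) (nat_lit 87) (nat_lit 2) (nat_lit 8) (.e true (nat_lit 36) (nat_lit 92) (nat_lit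 2) (nat_lit 8) (.e true (nat_lit 36) (nat_lit 93) (nat_lit 2) (nat_lit 8) (.e false (nat_lit 72) (nat_lit 97) (nat_lit 2) (nat_lit 8) (.e true (nat_lit 36) (nat_lit 99) (nat_lit 2) (nat_lit 8) .nil))))))))))))))) .leaf) (nat_lit 51200) (nat_lit 135) (.p (nat_lit 97) (nat_lit 36) .z) .df (.nd (.nd .leaf (nat_lit 51202) (nat_lit 182) (.p (nat_lit 118) (nat_lit 36) .z) .df .leaf) (nat_lit 51203) (nat_lit 253) (.p (nat_lit 123) (nat_lit 360) (.n (nat_lit 124) (nat_lit 144) (.p (nat_lit 125) (nat_lit 36) (.p (nat_lit 126) (nat_lit 324) (.p (nat_lit 127) (nat_lit 144) (.n (nat_lit 128) (nat_lit 396) (.p (nat_lit 129) (nat_lit 252) (.n (nat_lit 130) (nat_lit 360) (.p (nat_lit 131) (nat_lit 540) (.n (nat_lit 132) (nat_lit 360) (.n (nat_lit 133) (nat_lit 252) (.p (nat_lit 134) (nat_lit 216) (.p (nat_lit 135) (nat_lit 144) (.n (nat_lit 136) (nat_lit 864) (.p (nat_lit 137) (nat_lit 252) (.n (nat_lit 138) (nat_lit 1188)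 (.p (nat_lit 139) (nat_lit 504) (.n (nat_lit 140) (nat_lit 144) (.p (nat_lit 141) (nat_lit 324) (.n (nat_lit 142) (nat_lit 972) (.p (nat_lit 143) (nat_lit 864) (.p (nat_lit 144) (nat_lit 900) (.p (nat_lit 145) (nat_lit 900) (.n (nat_lit 146) (nat_lit 900) (.n (nat_lit 148) (nat_lit 288) (.n (nat_lit 149) (nat_lit 720) (.p (nat_lit 150) (nat_lit 900) (.n (nat_lit 151) (nat_lit 72) (.n (nat_lit 152) (nat_lit 360) (.n (nat_lit 153) (nat_lit 396) (.n (nat_lit 155) (nat_lit 576) .z))))))))))))))))))))))))))))))) (.ct dF6aa_c546 (nat_lit 36) (nat_lit 9) (.s true (nat_lit 1) (nat_lit 7) (nat_lit 1) (nat_lit 2) (nat_lit 3) true (nat_lit 3) true (nat_lit 9) true (nat_lit 5) true (nat_lit 11) true (nat_lit 10) (.s false (nat_lit 1) (nat_lit 9) (nat_lit 2) (nat_lit 1) (nat_lit 2) true (nat_lit 4) true (nat_lit 10) true (nat_lit 3) true (nat_lit 10) true (nat_lit 11) (.e false (nat_lit 36) (nat_lit 28) (nat_lit 7) (nat_lit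 5) (.e true (nat_lit 72) (nat_lit 29) (nat_lit 7) (nat_lit 5) (.e false (nat_lit 36) (nat_lit 30) (nat_lit 7) (nat_lit 5) (.e true (nat_lit 72) (nat_lit 31) (nat_lit 7) (nat_lit 5) (.e false (nat_lit 72) (nat_lit 33) (nat_lit 7) (nat_lit 5) (.e true (nat_lit 36) (nat_lit 75) (nat_lit 1) (nat_lit 11) (.e false (nat_lit 72) (nat_lit 76) (nat_lit 1) (nat_lit 11) (.e false (nat_lit 36) (nat_lit 78) (nat_lit 1) (nat_lit 11) (.e true (nat_lit 36) (nat_lit 79) (nat_lit 1) (nat_lit 11) (.e true (nat_lit 36) (nat_lit 82) (nat_lit 1) (nat_lit 11) (.e true (nat_lit 36) (nat_lit 84) (nat_lit 1) (nat_lit 11) (.e false (nat_lit 36) (nat_lit 85) (nat_lit 1) (nat_lit 11) (.e false (nat_lit 36) (nat_lit 61) (nat_lit 2) (nat_lit 10) (.e false (nat_lit 36) (nat_lit 63) (nat_lit 2) (nat_lit 10) (.e false (nat_lit 36) (nat_lit 25) (nat_lit 8) (nat_lit 4) (.e false (nat_lit 72) (nat_lit 59) (nat_lit 2) (nat_lit 10) (.e true (nat_lit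 36) (nat_lit 66) (nat_lit 2) (nat_lit 10) (.e true (nat_lit 36) (nat_lit 68) (nat_lit 2) (nat_lit 10) (.e true (nat_lit 36) (nat_lit 70) (nat_lit 2) (nat_lit 10) (.e false (nat_lit 36) (nat_lit 71) (nat_lit 2) (nat_lit 10) .nil))))))))))))))))))))))) .leaf)) (nat_lit 51206) (nat_lit 377) (.p (nat_lit 179) (nat_lit 90) (.n (nat_lit 180) (nat_lit 54) (.p (nat_lit 181) (nat_lit 18) (.n (nat_lit 182) (nat_lit 90) (.p (nat_lit 183) (nat_lit 18) (.p (nat_lit 184) (nat_lit 36) (.p (nat_lit 185) (nat_lit 36) (.n (nat_lit 186) (nat_lit 54) (.n (nat_lit 187) (nat_lit 108) (.n (nat_lit 188) (nat_lit 90) (.p (nat_lit 190) (nat_lit 36) (.n (nat_lit 191) (nat_lit 108) (.n (nat_lit 192) (nat_lit 72) (.n (nat_lit 193) (nat_lit 90) (.n (nat_lit 194) (nat_lit 36) (.p (nat_lit 195) (nat_lit 72) (.n (nat_lit 196) (nat_lit 18) (.n (nat_lit 197) (nat_lit 54) (.p (nat_lit 198) (nat_lit 54) (.n (nat_lit 199) (nat_lit 90) (.n (nat_lit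 200) (nat_lit 108) (.n (nat_lit 201) (nat_lit 36) .z)))))))))))))))))))))) (.ct dF6aa_c291 (nat_lit 36) (nat_lit 5) (.s false (nat_lit 1) (nat_lit 7) (nat_lit 1) (nat_lit 6) (nat_lit 2) true (nat_lit 4) true (nat_lit 8) true (nat_lit 4) true (nat_lit 9) true (nat_lit 5) (.s true (nat_lit 1) (nat_lit 7) (nat_lit 2) (nat_lit 6) (nat_lit 1) true (nat_lit 4) true (nat_lit 9) true (nat_lit 4) true (nat_lit 8) true (nat_lit 5) (.s true (nat_lit 1) (nat_lit 7) (nat_lit 6) (nat_lit 2) (nat_lit 1) true (nat_lit 1) true (nat_lit 9) true (nat_lit 4) true (nat_lit 5) true (nat_lit 8) (.s false (nat_lit 1) (nat_lit 16) (nat_lit 2) (nat_lit 1) (nat_lit 2) true (nat_lit 3) true (nat_lit 8) true (nat_lit 1) true (nat_lit 8) true (nat_lit 9) (.e true (nat_lit 36) (nat_lit 44) (nat_lit 7) (nat_lit 4) (.e false (nat_lit 36) (nat_lit 51) (nat_lit 6) (nat_lit 5) (.e false (nat_lit 36) (nat_lit 107) (nat_lit 1) (nat_lit 9) (.e true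 (nat_lit 36) (nat_lit 109) (nat_lit 1) (nat_lit 9) (.e false (nat_lit 36) (nat_lit 112) (nat_lit 1) (nat_lit 9) (.e true (nat_lit 36) (nat_lit 113) (nat_lit 1) (nat_lit 9) (.e true (nat_lit 36) (nat_lit 106) (nat_lit 1) (nat_lit 9) (.e true (nat_lit 36) (nat_lit 110) (nat_lit 1) (nat_lit 9) (.e false (nat_lit 36) (nat_lit 111) (nat_lit 1) (nat_lit 9) (.e false (nat_lit 36) (nat_lit 37) (nat_lit 8) (nat_lit 3) (.e false (nat_lit 36) (nat_lit 92) (nat_lit 2) (nat_lit 8) .nil)))))))))))))))) (.nd (.nd (.nd .leaf (nat_lit 52224) (nat_lit 136) (.p (nat_lit 98) (nat_lit 36) .z) .df .leaf) (nat_lit 52226) (nat_lit 183) (.p (nat_lit 119) (nat_lit 36) .z) .df .leaf) (nat_lit 52227) (nat_lit 258) (.n (nat_lit 123) (nat_lit 136) (.p (nat_lit 124) (nat_lit 64) (.n (nat_lit 125) (nat_lit 36) (.n (nat_lit 126) (nat_lit 104) (.n (nat_lit 127) (nat_lit 16) (.p (nat_lit 128) (nat_lit 140) (.n (nat_lit 129) (nat_lit 116) (.p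 (nat_lit 130) (nat_lit 136) (.n (nat_lit 131) (nat_lit 236) (.p (nat_lit 132) (nat_lit 136) (.p (nat_lit 133) (nat_lit 108) (.n (nat_lit 134) (nat_lit 84) (.n (nat_lit 135) (nat_lit 72) (.p (nat_lit 136) (nat_lit 328) (.n (nat_lit 137) (nat_lit 108) (.p (nat_lit 138) (nat_lit 476) (.n (nat_lit 139) (nat_lit 232) (.p (nat_lit 140) (nat_lit 72) (.n (nat_lit 141) (nat_lit 148) (.p (nat_lit 142) (nat_lit 428) (.n (nat_lit 143) (nat_lit 328) (.n (nat_lit 144) (nat_lit 380) (.n (nat_lit 145) (nat_lit 380) (.p (nat_lit 146) (nat_lit 380) (.p (nat_lit 148) (nat_lit 96) (.p (nat_lit 149) (nat_lit 272) (.n (nat_lit 150) (nat_lit 380) (.p (nat_lit 151) (nat_lit 24) (.p (nat_lit 152) (nat_lit 120) (.p (nat_lit 153) (nat_lit 180) (.p (nat_lit 155) (nat_lit 192) .z))))))))))))))))))))))))))))))) (.ct dF6aa_c546 (nat_lit 36) (nat_lit 9) (.s false (nat_lit 1) (nat_lit 10) (nat_lit 2) (nat_lit 1) (nat_lit 2) true (nat_lit 4)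 true (nat_lit 10) true (nat_lit 3) true (nat_lit 10) true (nat_lit 11) (.s true (nat_lit 1) (nat_lit 22) (nat_lit 0) (nat_lit 1) (nat_lit 0) true (nat_lit 9) true (nat_lit 12) false (nat_lit 3) true (nat_lit 12) true (nat_lit 11) (.e false (nat_lit 36) (nat_lit 26) (nat_lit 8) (nat_lit 4) (.e false (nat_lit 36) (nat_lit 61) (nat_lit 2) (nat_lit 10) (.e true (nat_lit 36) (nat_lit 71) (nat_lit 2) (nat_lit 10) (.e true (nat_lit 36) (nat_lit 73) (nat_lit 1) (nat_lit 11) (.e false (nat_lit 36) (nat_lit 87) (nat_lit 0) (nat_lit 12) (.e false (nat_lit 36) (nat_lit 94) (nat_lit 0) (nat_lit 12) (.e true (nat_lit 36) (nat_lit 86) (nat_lit 0) (nat_lit 12) (.e true (nat_lit 36) (nat_lit 92) (nat_lit 0) (nat_lit 12) (.e true (nat_lit 36) (nat_lit 93) (nat_lit 0) (nat_lit 12) (.e true (nat_lit 36) (nat_lit 99) (nat_lit 0) (nat_lit 12) (.e false (nat_lit 36) (nat_lit 84) (nat_lit 1) (nat_lit 11) .nil)))))))))))))) (.nd (.nd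 .leaf (nat_lit 52230) (nat_lit 376) (.n (nat_lit 179) (nat_lit 18) (.n (nat_lit 180) (nat_lit 18) (.n (nat_lit 181) (nat_lit 18) (.p (nat_lit 182) (nat_lit 18) (.p (nat_lit 183) (nat_lit 18) (.n (nat_lit 186) (nat_lit 18) (.n (nat_lit 187) (nat_lit 36) (.n (nat_lit 188) (nat_lit 18) (.p (nat_lit 190) (nat_lit 36) (.n (nat_lit 191) (nat_lit 36) (.p (nat_lit 193) (nat_lit 18) (.n (nat_lit 194) (nat_lit 36) (.p (nat_lit 196) (nat_lit 18) (.n (nat_lit 197) (nat_lit 18) (.n (nat_lit 198) (nat_lit 18) (.n (nat_lit 199) (nat_lit 18) (.n (nat_lit 200) (nat_lit 36) (.p (nat_lit 201) (nat_lit 36) .z)))))))))))))))))) (.ct dF6aa_c291 (nat_lit 36) (nat_lit 5) (.s false (nat_lit 1) (nat_lit 7) (nat_lit 0) (nat_lit 2) (nat_lit 7) true (nat_lit 1) true (nat_lit 4) true (nat_lit 4) true (nat_lit 10) true (nat_lit 8) (.s true (nat_lit 1) (nat_lit 7) (nat_lit 1) (nat_lit 6) (nat_lit 2) true (nat_lit 4) true (nat_lit 8) true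 (nat_lit 4) true (nat_lit 9) true (nat_lit 5) (.s true (nat_lit 1) (nat_lit 16) (nat_lit 2) (nat_lit 1) (nat_lit 2) true (nat_lit 3) true (nat_lit 8) true (nat_lit 1) true (nat_lit 8) true (nat_lit 9) (.s false (nat_lit 1) (nat_lit 22) (nat_lit 0) (nat_lit 2) (nat_lit 1) true (nat_lit 7) true (nat_lit 9) false (nat_lit 1) true (nat_lit 10) true (nat_lit 8) (.s true (nat_lit 1) (nat_lit 22) (nat_lit 1) (nat_lit 2) (nat_lit 0) true (nat_lit 7) true (nat_lit 10) false (nat_lit 1) true (nat_lit 9) true (nat_lit 8) (.e false (nat_lit 36) (nat_lit 45) (nat_lit 7) (nat_lit 4) (.e false (nat_lit 36) (nat_lit 44) (nat_lit 7) (nat_lit 4) (.e true (nat_lit 36) (nat_lit 119) (nat_lit 0) (nat_lit 10) (.e false (nat_lit 36) (nat_lit 97) (nat_lit 2) (nat_lit 8) (.e true (nat_lit 36) (nat_lit 37) (nat_lit 8) (nat_lit 3) (.e true (nat_lit 36) (nat_lit 92) (nat_lit 2) (nat_lit 8) (.e true (nat_lit 36) (nat_lit 93) (nat_lit 2)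 (nat_lit 8) (.e false (nat_lit 36) (nat_lit 111) (nat_lit 1) (nat_lit 9) (.e false (nat_lit 36) (nat_lit 109) (nat_lit 1) (nat_lit 9) (.e true (nat_lit 36) (nat_lit 112) (nat_lit 1) (nat_lit 9) (.e false (nat_lit 36) (nat_lit 113) (nat_lit 1) (nat_lit 9) .nil))))))))))))))))) .leaf) (nat_lit 53248) (nat_lit 159) (.n (nat_lit 101) (nat_lit 18) (.p (nat_lit 102) (nat_lit 54) (.n (nat_lit 103) (nat_lit 18) (.p (nat_lit 104) (nat_lit 18) (.p (nat_lit 105) (nat_lit 36) .z))))) (.ct dF6aa_c515 (nat_lit 36) (nat_lit 4) (.s false (nat_lit 1) (nat_lit 6) (nat_lit 2) (nat_lit 0) (nat_lit 2) true (nat_lit 0) true (nat_lit 3) true (nat_lit 1) true (nat_lit 3) true (nat_lit 4) (.e false (nat_lit 36) (nat_lit 14) (nat_lit 8) (nat_lit 0) (.e false (nat_lit 36) (nat_lit 42) (nat_lit 2) (nat_lit 3) (.e false (nat_lit 36) (nat_lit 20) (nat_lit 6) (nat_lit 1) .nil))))) .leaf)))) (nat_lit 53249) (nat_lit 179) (.n (nat_lit 106)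 (nat_lit 36) (.p (nat_lit 107) (nat_lit 36) (.p (nat_lit 108) (nat_lit 36) (.p (nat_lit 109) (nat_lit 36) (.n (nat_lit 112) (nat_lit 36) (.p (nat_lit 115) (nat_lit 36) (.n (nat_lit 116) (nat_lit 36) .z))))))) (.ct dF6aa_c275 (nat_lit 36) (nat_lit 5) (.s true (nat_lit 1) (nat_lit 6) (nat_lit 2) (nat_lit 2) (nat_lit 1) true (nat_lit 1) true (nat_lit 5) true (nat_lit 2) true (nat_lit 4) true (nat_lit 4) (.e true (nat_lit 36) (nat_lit 20) (nat_lit 7) (nat_lit 1) (.e true (nat_lit 36) (nat_lit 23) (nat_lit 6) (nat_lit 2) (.e true (nat_lit 36) (nat_lit 43) (nat_lit 2) (nat_lit 4) (.e false (nat_lit 72) (nat_lit 44) (nat_lit 2) (nat_lit 4) (.e true (nat_lit 36) (nat_lit 47) (nat_lit 2) (nat_lit 4) (.e false (nat_lit 36) (nat_lit 48) (nat_lit 2) (nat_lit 4) .nil)))))))) (.nd (.nd (.nd (.nd (.nd .leaf (nat_lit 53252) (nat_lit 340) (.n (nat_lit 156) (nat_lit 36) (.p (nat_lit 157) (nat_lit 72) (.p (nat_lit 158) (nat_lit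 108) (.n (nat_lit 159) (nat_lit 36) (.n (nat_lit 160) (nat_lit 36) (.p (nat_lit 161) (nat_lit 36) (.n (nat_lit 162) (nat_lit 108) (.n (nat_lit 163) (nat_lit 36) (.n (nat_lit 166) (nat_lit 72) (.n (nat_lit 169) (nat_lit 36) (.p (nat_lit 170) (nat_lit 72) (.p (nat_lit 174) (nat_lit 36) (.n (nat_lit 175) (nat_lit 36) (.p (nat_lit 177) (nat_lit 36) .z)))))))))))))) (.ct dF6aa_c531 (nat_lit 36) (nat_lit 6) (.s true (nat_lit 1) (nat_lit 20) (nat_lit 0) (nat_lit 2) (nat_lit 1) true (nat_lit 6) true (nat_lit 9) false (nat_lit 0) true (nat_lit 10) true (nat_lit 8) (.e true (nat_lit 36) (nat_lit 102) (nat_lit 1) (nat_lit 9) (.e false (nat_lit 36) (nat_lit 20) (nat_lit 16) (nat_lit 0) (.e false (nat_lit 36) (nat_lit 116) (nat_lit 0) (nat_lit 10) (.e false (nat_lit 36) (nat_lit 82) (nat_lit 2) (nat_lit 8) .nil)))))) .leaf) (nat_lit 54272) (nat_lit 153) (.p (nat_lit 103) (nat_lit 36) .z) .df (.nd .leaf (nat_lit 54273) (nat_lit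 167) (.p (nat_lit 112) (nat_lit 36) .z) .df .leaf)) (nat_lit 54276) (nat_lit 313) (.p (nat_lit 156) (nat_lit 396) (.n (nat_lit 157) (nat_lit 360) (.n (nat_lit 158) (nat_lit 648) (.n (nat_lit 159) (nat_lit 216) (.p (nat_lit 160) (nat_lit 396) (.p (nat_lit 162) (nat_lit 648) (.p (nat_lit 163) (nat_lit 108) (.n (nat_lit 164) (nat_lit 72) (.n (nat_lit 165) (nat_lit 108) (.p (nat_lit 166) (nat_lit 180) (.n (nat_lit 167) (nat_lit 252) (.p (nat_lit 168) (nat_lit 144) (.n (nat_lit 170) (nat_lit 36) (.p (nat_lit 171) (nat_lit 216) (.p (nat_lit 172) (nat_lit 324) (.n (nat_lit 173) (nat_lit 288) (.n (nat_lit 174) (nat_lit 72) (.p (nat_lit 175) (nat_lit 180) (.n (nat_lit 176) (nat_lit 180) (.p (nat_lit 177) (nat_lit 396) .z)))))))))))))))))))) (.ct dF6aa_c531 (nat_lit 36) (nat_lit 6) (.s false (nat_lit 1) (nat_lit 6) (nat_lit 4) (nat_lit 2) (nat_lit 2) true (nat_lit 0) true (nat_lit 8) true (nat_lit 5) true (nat_lit 6)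 true (nat_lit 8) (.s true (nat_lit 1) (nat_lit 8) (nat_lit 0) (nat_lit 2) (nat_lit 4) true (nat_lit 2) true (nat_lit 6) true (nat_lit 3) true (nat_lit 10) true (nat_lit 8) (.s false (nat_lit 1) (nat_lit 8) (nat_lit 4) (nat_lit 2) (nat_lit 0) true (nat_lit 2) true (nat_lit 10) true (nat_lit 3) true (nat_lit 6) true (nat_lit 8) (.s false (nat_lit 1) (nat_lit 15) (nat_lit 0) (nat_lit 2) (nat_lit 2) true (nat_lit 5) true (nat_lit 8) true (nat_lit 0) true (nat_lit 10) true (nat_lit 8) (.s true (nat_lit 2) (nat_lit 15) (nat_lit 2) (nat_lit 0) (nat_lit 2) true (nat_lit 3) true (nat_lit 8) true (nat_lit 0) true (nat_lit 8) true (nat_lit 10) (.e false (nat_lit 72) (nat_lit 75) (nat_lit 2) (nat_lit 8) (.e false (nat_lit 72) (nat_lit 43) (nat_lit 6) (nat_lit 5) (.e true (nat_lit 144) (nat_lit 80) (nat_lit 2) (nat_lit 8) (.e true (nat_lit 36) (nat_lit 28) (nat_lit 8) (nat_lit 3) (.e false (nat_lit 36) (nat_lit 31) (nat_lit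 8) (nat_lit 3) (.e true (nat_lit 36) (nat_lit 33) (nat_lit 8) (nat_lit 3) (.e true (nat_lit 72) (nat_lit 115) (nat_lit 0) (nat_lit 10) (.e false (nat_lit 36) (nat_lit 107) (nat_lit 0) (nat_lit 10) (.e false (nat_lit 36) (nat_lit 108) (nat_lit 0) (nat_lit 10) (.e true (nat_lit 36) (nat_lit 109) (nat_lit 0) (nat_lit 10) (.e true (nat_lit 36) (nat_lit 111) (nat_lit 0) (nat_lit 10) (.e false (nat_lit 72) (nat_lit 106) (nat_lit 0) (nat_lit 10) .nil)))))))))))))))))) (.nd (.nd .leaf (nat_lit 54277) (nat_lit 385) (.n (nat_lit 179) (nat_lit 48) (.p (nat_lit 180) (nat_lit 96) (.p (nat_lit 181) (nat_lit 24) (.n (nat_lit 183) (nat_lit 84) (.n (nat_lit 185) (nat_lit 96) (.p (nat_lit 186) (nat_lit 96) (.p (nat_lit 187) (nat_lit 132) (.p (nat_lit 188) (nat_lit 48) (.p (nat_lit 189) (nat_lit 12) (.n (nat_lit 190) (nat_lit 120) (.p (nat_lit 191) (nat_lit 204) (.p (nat_lit 192) (nat_lit 12) (.p (nat_lit 193) (nat_lit 12) (.p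 (nat_lit 194) (nat_lit 120) (.n (nat_lit 195) (nat_lit 120) (.n (nat_lit 196) (nat_lit 36) (.p (nat_lit 197) (nat_lit 24) (.n (nat_lit 198) (nat_lit 12) (.p (nat_lit 199) (nat_lit 84) (.p (nat_lit 200) (nat_lit 168) (.n (nat_lit 201) (nat_lit 48) .z))))))))))))))))))))) (.ct dF6aa_c291 (nat_lit 36) (nat_lit 6) (.s true (nat_lit 1) (nat_lit 8) (nat_lit 2) (nat_lit 5) (nat_lit 0) true (nat_lit 5) true (nat_lit 10) true (nat_lit 3) true (nat_lit 8) true (nat_lit 6) (.e false (nat_lit 72) (nat_lit 50) (nat_lit 6) (nat_lit 5) (.e true (nat_lit 72) (nat_lit 51) (nat_lit 6) (nat_lit 5) (.e false (nat_lit 36) (nat_lit 117) (nat_lit 0) (nat_lit 10) (.e true (nat_lit 36) (nat_lit 118) (nat_lit 0) (nat_lit 10) (.e true (nat_lit 36) (nat_lit 119) (nat_lit 0) (nat_lit 10) (.e false (nat_lit 36) (nat_lit 121) (nat_lit 0) (nat_lit 10) (.e false (nat_lit 36) (nat_lit 122) (nat_lit 0) (nat_lit 10) (.e false (nat_lit 36) (nat_lit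 39) (nat_lit 8) (nat_lit 3) (.e false (nat_lit 36) (nat_lit 87) (nat_lit 2) (nat_lit 8) (.e true (nat_lit 72) (nat_lit 88) (nat_lit 2) (nat_lit 8) (.e false (nat_lit 72) (nat_lit 89) (nat_lit 2) (nat_lit 8) (.e true (nat_lit 72) (nat_lit 90) (nat_lit 2) (nat_lit 8) (.e false (nat_lit 36) (nat_lit 92) (nat_lit 2) (nat_lit 8) (.e false (nat_lit 36) (nat_lit 93) (nat_lit 2) (nat_lit 8) (.e false (nat_lit 36) (nat_lit 96) (nat_lit 2) (nat_lit 8) (.e true (nat_lit 72) (nat_lit 98) (nat_lit 2) (nat_lit 8) (.e false (nat_lit 36) (nat_lit 99) (nat_lit 2) (nat_lit 8) .nil))))))))))))))))))) .leaf) (nat_lit 55296) (nat_lit 154) (.p (nat_lit 104) (nat_lit 36) .z) .df .leaf)) (nat_lit 55297) (nat_lit 168) (.p (nat_lit 113) (nat_lit 36) .z) .df (.nd (.nd (.nd .leaf (nat_lit 55300) (nat_lit 323) (.n (nat_lit 156) (nat_lit 180) (.p (nat_lit 157) (nat_lit 288) (.p (nat_lit 158) (nat_lit 576) (.n (nat_lit 159) (nat_lit 72)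 (.n (nat_lit 160) (nat_lit 72) (.p (nat_lit 161) (nat_lit 108) (.n (nat_lit 162) (nat_lit 540) (.n (nat_lit 163) (nat_lit 108) (.n (nat_lit 164) (nat_lit 144) (.n (nat_lit 166) (nat_lit 144) (.p (nat_lit 167) (nat_lit 72) (.p (nat_lit 168) (nat_lit 36) (.n (nat_lit 169) (nat_lit 216) (.p (nat_lit 170) (nat_lit 396) (.n (nat_lit 171) (nat_lit 108) (.n (nat_lit 172) (nat_lit 108) (.n (nat_lit 173) (nat_lit 72) (.p (nat_lit 174) (nat_lit 252) (.n (nat_lit 175) (nat_lit 288) (.n (nat_lit 176) (nat_lit 72) (.p (nat_lit 177) (nat_lit 216) .z))))))))))))))))))))) (.ct dF6aa_c531 (nat_lit 36) (nat_lit 6) (.s false (nat_lit 1) (nat_lit 6) (nat_lit 4) (nat_lit 2) (nat_lit 2) true (nat_lit 0) true (nat_lit 8) true (nat_lit 5) true (nat_lit 6) true (nat_lit 8) (.s true (nat_lit 1) (nat_lit 15) (nat_lit 0) (nat_lit 2) (nat_lit 2) true (nat_lit 5) true (nat_lit 8) true (nat_lit 0) true (nat_lit 10) true (nat_lit 8) (.e true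 (nat_lit 36) (nat_lit 75) (nat_lit 2) (nat_lit 8) (.e false (nat_lit 36) (nat_lit 53) (nat_lit 4) (nat_lit 6) (.e true (nat_lit 36) (nat_lit 78) (nat_lit 2) (nat_lit 8) (.e false (nat_lit 36) (nat_lit 79) (nat_lit 2) (nat_lit 8) (.e false (nat_lit 36) (nat_lit 82) (nat_lit 2) (nat_lit 8) (.e true (nat_lit 36) (nat_lit 83) (nat_lit 2) (nat_lit 8) (.e false (nat_lit 36) (nat_lit 84) (nat_lit 2) (nat_lit 8) (.e true (nat_lit 36) (nat_lit 85) (nat_lit 2) (nat_lit 8) (.e false (nat_lit 36) (nat_lit 115) (nat_lit 0) (nat_lit 10) .nil)))))))))))) .leaf) (nat_lit 55301) (nat_lit 391) (.p (nat_lit 179) (nat_lit 141) (.n (nat_lit 180) (nat_lit 39) (.p (nat_lit 181) (nat_lit 33) (.n (nat_lit 182) (nat_lit 171) (.p (nat_lit 183) (nat_lit 69) (.p (nat_lit 185) (nat_lit 66) (.n (nat_lit 186) (nat_lit 39) (.n (nat_lit 187) (nat_lit 228) (.n (nat_lit 188) (nat_lit 159) (.p (nat_lit 189) (nat_lit 12) (.p (nat_lit 190) (nat_lit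 60) (.n (nat_lit 191) (nat_lit 174) (.n (nat_lit 192) (nat_lit 132) (.n (nat_lit 193) (nat_lit 105) (.n (nat_lit 194) (nat_lit 96) (.p (nat_lit 195) (nat_lit 96) (.n (nat_lit 196) (nat_lit 9) (.n (nat_lit 197) (nat_lit 57) (.p (nat_lit 198) (nat_lit 51) (.n (nat_lit 199) (nat_lit 159) (.n (nat_lit 200) (nat_lit 228) (.n (nat_lit 201) (nat_lit 66) .z)))))))))))))))))))))) (.ct dF6aa_c291 (nat_lit 36) (nat_lit 6) (.s true (nat_lit 1) (nat_lit 8) (nat_lit 1) (nat_lit 6) (nat_lit 1) true (nat_lit 6) true (nat_lit 9) true (nat_lit 3) true (nat_lit 9) true (nat_lit 5) (.e false (nat_lit 36) (nat_lit 53) (nat_lit 5) (nat_lit 6) (.e false (nat_lit 72) (nat_lit 107) (nat_lit 1) (nat_lit 9) (.e false (nat_lit 72) (nat_lit 108) (nat_lit 1) (nat_lit 9) (.e true (nat_lit 36) (nat_lit 112) (nat_lit 1) (nat_lit 9) (.e false (nat_lit 72) (nat_lit 115) (nat_lit 1) (nat_lit 9) (.e false (nat_lit 36) (nat_lit 37) (nat_lit 8)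 (nat_lit 3) (.e true (nat_lit 72) (nat_lit 106) (nat_lit 1) (nat_lit 9) (.e true (nat_lit 36) (nat_lit 113) (nat_lit 1) (nat_lit 9) (.e false (nat_lit 36) (nat_lit 49) (nat_lit 6) (nat_lit 5) (.e true (nat_lit 36) (nat_lit 50) (nat_lit 6) (nat_lit 5) (.e true (nat_lit 36) (nat_lit 51) (nat_lit 6) (nat_lit 5) .nil))))))))))))) .leaf) (nat_lit 56320) (nat_lit 180) (.n (nat_lit 106) (nat_lit 36) (.p (nat_lit 107) (nat_lit 72) (.p (nat_lit 108) (nat_lit 36) (.n (nat_lit 109) (nat_lit 36) (.p (nat_lit 111) (nat_lit 36) (.p (nat_lit 112) (nat_lit 36) (.n (nat_lit 113) (nat_lit 36) (.n (nat_lit 114) (nat_lit 36) (.p (nat_lit 115) (nat_lit 36) (.p (nat_lit 116) (nat_lit 36) .z)))))))))) (.ct dF6aa_c275 (nat_lit 36) (nat_lit 6) (.s false (nat_lit 1) (nat_lit 7) (nat_lit 2) (nat_lit 0) (nat_lit 2) true (nat_lit 0) true (nat_lit 4) true (nat_lit 1) true (nat_lit 4) true (nat_lit 6) (.e false (nat_lit 36) (nat_lit 17)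 (nat_lit 8) (nat_lit 0) (.e false (nat_lit 72) (nat_lit 48) (nat_lit 2) (nat_lit 4) (.e false (nat_lit 36) (nat_lit 20) (nat_lit 7) (nat_lit 1) (.e true (nat_lit 36) (nat_lit 43) (nat_lit 2) (nat_lit 4) (.e false (nat_lit 36) (nat_lit 44) (nat_lit 2) (nat_lit 4) (.e true (nat_lit 36) (nat_lit 47) (nat_lit 2) (nat_lit 4) .nil)))))))) (.nd (.nd .leaf (nat_lit 56321) (nat_lit 190) (.n (nat_lit 118) (nat_lit 18) (.p (nat_lit 119) (nat_lit 54) (.n (nat_lit 120) (nat_lit 18) (.p (nat_lit 121) (nat_lit 18) (.p (nat_lit 122) (nat_lit 36) .z))))) (.ct dF6aa_c35 (nat_lit 36) (nat_lit 4) (.s false (nat_lit 1) (nat_lit 7) (nat_lit 2) (nat_lit 1) (nat_lit 2) true (nat_lit 0) true (nat_lit 3) true (nat_lit 1) true (nat_lit 3) true (nat_lit 4) (.e false (nat_lit 36) (nat_lit 19) (nat_lit 8) (nat_lit 0) (.e false (nat_lit 36) (nat_lit 51) (nat_lit 2) (nat_lit 3) (.e false (nat_lit 36) (nat_lit 22) (nat_lit 7) (nat_lit 1) .nil)))))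 .leaf) (nat_lit 56323) (nat_lit 338) (.p (nat_lit 156) (nat_lit 612) (.n (nat_lit 157) (nat_lit 648) (.n (nat_lit 158) (nat_lit 1152) (.n (nat_lit 159) (nat_lit 288) (.p (nat_lit 160) (nat_lit 504) (.n (nat_lit 161) (nat_lit 72) (.p (nat_lit 162) (nat_lit 1080) (.p (nat_lit 163) (nat_lit 144) (.p (nat_lit 164) (nat_lit 144) (.n (nat_lit 165) (nat_lit 72) (.p (nat_lit 166) (nat_lit 360) (.n (nat_lit 167) (nat_lit 360) (.p (nat_lit 168) (nat_lit 144) (.p (nat_lit 169) (nat_lit 144) (.n (nat_lit 170) (nat_lit 360) (.p (nat_lit 171) (nat_lit 288) (.p (nat_lit 172) (nat_lit 432) (.n (nat_lit 173) (nat_lit 288) (.n (nat_lit 174) (nat_lit 288) (.p (nat_lit 175) (nat_lit 504) (.n (nat_lit 176) (nat_lit 144) (.p (nat_lit 177) (nat_lit 216) .z)))))))))))))))))))))) (.ct dF6aa_c531 (nat_lit 36) (nat_lit 7) (.s true (nat_lit 1) (nat_lit 22) (nat_lit 0) (nat_lit 2) (nat_lit 0) true (nat_lit 7) true (nat_lit 10) false (nat_lit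 1) true (nat_lit 10) true (nat_lit 8) (.e true (nat_lit 36) (nat_lit 111) (nat_lit 0) (nat_lit 10) (.e false (nat_lit 36) (nat_lit 22) (nat_lit 14) (nat_lit 1) (.e true (nat_lit 36) (nat_lit 107) (nat_lit 0) (nat_lit 10) (.e false (nat_lit 36) (nat_lit 109) (nat_lit 0) (nat_lit 10) (.e true (nat_lit 36) (nat_lit 112) (nat_lit 0) (nat_lit 10) (.e false (nat_lit 36) (nat_lit 113) (nat_lit 0) (nat_lit 10) (.e true (nat_lit 36) (nat_lit 116) (nat_lit 0) (nat_lit 10) (.e false (nat_lit 36) (nat_lit 84) (nat_lit 2) (nat_lit 8) .nil)))))))))) .leaf))) (nat_lit 56324) (nat_lit 402) (.n (nat_lit 179) (nat_lit 144) (.p (nat_lit 180) (nat_lit 144) (.n (nat_lit 181) (nat_lit 36) (.p (nat_lit 182) (nat_lit 144) (.n (nat_lit 183) (nat_lit 36) (.n (nat_lit 184) (nat_lit 36) (.n (nat_lit 185) (nat_lit 72) (.p (nat_lit 186) (nat_lit 108) (.p (nat_lit 187) (nat_lit 144) (.p (nat_lit 188) (nat_lit 108) (.n (nat_lit 190) (nat_lit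 72) (.p (nat_lit 191) (nat_lit 180) (.p (nat_lit 192) (nat_lit 108) (.p (nat_lit 193) (nat_lit 108) (.p (nat_lit 194) (nat_lit 72) (.n (nat_lit 195) (nat_lit 144) (.p (nat_lit 197) (nat_lit 108) (.n (nat_lit 198) (nat_lit 72) (.p (nat_lit 199) (nat_lit 144) (.p (nat_lit 200) (nat_lit 180) (.p (nat_lit 201) (nat_lit 36) .z))))))))))))))))))))) (.ct dF6aa_c291 (nat_lit 36) (nat_lit 7) (.s true (nat_lit 1) (nat_lit 22) (nat_lit 0) (nat_lit 2) (nat_lit 1) true (nat_lit 7) true (nat_lit 9) false (nat_lit 1) true (nat_lit 10) true (nat_lit 8) (.e true (nat_lit 36) (nat_lit 111) (nat_lit 1) (nat_lit 9) (.e false (nat_lit 36) (nat_lit 22) (nat_lit 16) (nat_lit 1) (.e true (nat_lit 18) (nat_lit 118) (nat_lit 0) (nat_lit 10) (.e false (nat_lit 18) (nat_lit 119) (nat_lit 0) (nat_lit 10) (.e true (nat_lit 18) (nat_lit 120) (nat_lit 0) (nat_lit 10) (.e false (nat_lit 18) (nat_lit 121) (nat_lit 0) (nat_lit 10) (.e false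 (nat_lit 36) (nat_lit 98) (nat_lit 2) (nat_lit 8) .nil))))))))) (.nd (.nd (.nd (.nd .leaf (nat_lit 57344) (nat_lit 169) (.p (nat_lit 114) (nat_lit 36) .z) .df .leaf) (nat_lit 57345) (nat_lit 184) (.p (nat_lit 120) (nat_lit 36) .z) .df .leaf) (nat_lit 57347) (nat_lit 318) (.p (nat_lit 156) (nat_lit 36) (.p (nat_lit 158) (nat_lit 72) (.n (nat_lit 159) (nat_lit 144) (.p (nat_lit 160) (nat_lit 72) (.p (nat_lit 161) (nat_lit 72) (.n (nat_lit 164) (nat_lit 72) (.n (nat_lit 167) (nat_lit 144) (.p (nat_lit 168) (nat_lit 72) (.n (nat_lit 169) (nat_lit 144) (.p (nat_lit 170) (nat_lit 216) (.n (nat_lit 173) (nat_lit 144) (.p (nat_lit 174) (nat_lit 144) (.n (nat_lit 175) (nat_lit 72) (.n (nat_lit 176) (nat_lit 144) (.p (nat_lit 177) (nat_lit 216) .z))))))))))))))) (.ct dF6aa_c531 (nat_lit 36) (nat_lit 7) (.s false (nat_lit 1) (nat_lit 14) (nat_lit 2) (nat_lit 2) (nat_lit 1) true (nat_lit 4) true (nat_lit 9) true (nat_lit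 1) true (nat_lit 8) true (nat_lit 8) (.s true (nat_lit 1) (nat_lit 23) (nat_lit 0) (nat_lit 2) (nat_lit 0) true (nat_lit 7) true (nat_lit 10) false (nat_lit 1) true (nat_lit 10) true (nat_lit 8) (.e false (nat_lit 36) (nat_lit 41) (nat_lit 7) (nat_lit 4) (.e false (nat_lit 36) (nat_lit 101) (nat_lit 1) (nat_lit 9) (.e false (nat_lit 36) (nat_lit 75) (nat_lit 2) (nat_lit 8) (.e false (nat_lit 36) (nat_lit 79) (nat_lit 2) (nat_lit 8) (.e true (nat_lit 72) (nat_lit 80) (nat_lit 2) (nat_lit 8) (.e true (nat_lit 36) (nat_lit 83) (nat_lit 2) (nat_lit 8) (.e false (nat_lit 72) (nat_lit 84) (nat_lit 2) (nat_lit 8) (.e true (nat_lit 36) (nat_lit 85) (nat_lit 2) (nat_lit 8) (.e true (nat_lit 72) (nat_lit 74) (nat_lit 2) (nat_lit 8) (.e false (nat_lit 72) (nat_lit 106) (nat_lit 0) (nat_lit 10) (.e true (nat_lit 72) (nat_lit 108) (nat_lit 0) (nat_lit 10) (.e true (nat_lit 72) (nat_lit 109) (nat_lit 0) (nat_lit 10) (.e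 false (nat_lit 36) (nat_lit 112) (nat_lit 0) (nat_lit 10) (.e true (nat_lit 36) (nat_lit 115) (nat_lit 0) (nat_lit 10) (.e true (nat_lit 36) (nat_lit 73) (nat_lit 2) (nat_lit 8) (.e false (nat_lit 36) (nat_lit 78) (nat_lit 2) (nat_lit 8) (.e false (nat_lit 36) (nat_lit 82) (nat_lit 2) (nat_lit 8) .nil)))))))))))))))))))) (.nd (.nd .leaf (nat_lit 57348) (nat_lit 389) (.n (nat_lit 179) (nat_lit 93) (.p (nat_lit 180) (nat_lit 15) (.p (nat_lit 181) (nat_lit 15) (.p (nat_lit 182) (nat_lit 63) (.n (nat_lit 183) (nat_lit 93) (.n (nat_lit 185) (nat_lit 42) (.p (nat_lit 186) (nat_lit 87) (.p (nat_lit 187) (nat_lit 276) (.p (nat_lit 188) (nat_lit 183) (.n (nat_lit 189) (nat_lit 24) (.n (nat_lit 190) (nat_lit 120) (.p (nat_lit 191) (nat_lit 258) (.p (nat_lit 192) (nat_lit 84) (.p (nat_lit 193) (nat_lit 129) (.p (nat_lit 194) (nat_lit 84) (.n (nat_lit 195) (nat_lit 156) (.p (nat_lit 196) (nat_lit 9) (.p (nat_lit 197) (nat_lit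 69) (.n (nat_lit 198) (nat_lit 39) (.p (nat_lit 199) (nat_lit 183) (.p (nat_lit 200) (nat_lit 276) (.p (nat_lit 201) (nat_lit 42) .z)))))))))))))))))))))) (.ct dF6aa_c291 (nat_lit 36) (nat_lit 7) (.s true (nat_lit 1) (nat_lit 7) (nat_lit 4) (nat_lit 2) (nat_lit 2) true (nat_lit 1) true (nat_lit 8) true (nat_lit 4) true (nat_lit 7) true (nat_lit 8) (.s false (nat_lit 1) (nat_lit 15) (nat_lit 1) (nat_lit 2) (nat_lit 2) true (nat_lit 4) true (nat_lit 8) true (nat_lit 1) true (nat_lit 9) true (nat_lit 8) (.e false (nat_lit 36) (nat_lit 57) (nat_lit 4) (nat_lit 7) (.e true (nat_lit 72) (nat_lit 91) (nat_lit 2) (nat_lit 8) (.e false (nat_lit 36) (nat_lit 92) (nat_lit 2) (nat_lit 8) (.e false (nat_lit 36) (nat_lit 93) (nat_lit 2) (nat_lit 8) (.e true (nat_lit 36) (nat_lit 95) (nat_lit 2) (nat_lit 8) (.e false (nat_lit 36) (nat_lit 97) (nat_lit 2) (nat_lit 8) (.e true (nat_lit 36) (nat_lit 98) (nat_lit 2) (nat_lit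 8) (.e false (nat_lit 36) (nat_lit 99) (nat_lit 2) (nat_lit 8) (.e false (nat_lit 36) (nat_lit 87) (nat_lit 2) (nat_lit 8) (.e true (nat_lit 36) (nat_lit 115) (nat_lit 1) (nat_lit 9) .nil))))))))))))) .leaf) (nat_lit 58368) (nat_lit 173) (.n (nat_lit 107) (nat_lit 36) (.p (nat_lit 108) (nat_lit 36) (.p (nat_lit 109) (nat_lit 36) (.n (nat_lit 111) (nat_lit 36) (.n (nat_lit 112) (nat_lit 36) (.p (nat_lit 113) (nat_lit 36) (.p (nat_lit 114) (nat_lit 36) .z))))))) (.ct dF6aa_c275 (nat_lit 36) (nat_lit 6) (.s true (nat_lit 1) (nat_lit 6) (nat_lit 1) (nat_lit 2) (nat_lit 2) true (nat_lit 1) true (nat_lit 4) true (nat_lit 2) true (nat_lit 5) true (nat_lit 4) (.s false (nat_lit 1) (nat_lit 7) (nat_lit 0) (nat_lit 2) (nat_lit 2) true (nat_lit 2) true (nat_lit 4) true (nat_lit 1) true (nat_lit 6) true (nat_lit 4) (.e true (nat_lit 36) (nat_lit 44) (nat_lit 2) (nat_lit 4) (.e true (nat_lit 36) (nat_lit 53) (nat_lit 1)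 (nat_lit 5) (.e false (nat_lit 36) (nat_lit 54) (nat_lit 1) (nat_lit 5) (.e false (nat_lit 36) (nat_lit 46) (nat_lit 2) (nat_lit 4) (.e false (nat_lit 36) (nat_lit 45) (nat_lit 2) (nat_lit 4) (.e false (nat_lit 36) (nat_lit 56) (nat_lit 0) (nat_lit 6) (.e true (nat_lit 36) (nat_lit 48) (nat_lit 2) (nat_lit 4) .nil)))))))))) .leaf)) (nat_lit 58369) (nat_lit 185) (.p (nat_lit 121) (nat_lit 36) .z) .df (.nd (.nd (.nd .leaf (nat_lit 58371) (nat_lit 314) (.n (nat_lit 156) (nat_lit 936) (.p (nat_lit 157) (nat_lit 936) (.p (nat_lit 158) (nat_lit 1728) (.p (nat_lit 159) (nat_lit 432) (.n (nat_lit 160) (nat_lit 828) (.p (nat_lit 161) (nat_lit 72) (.n (nat_lit 162) (nat_lit 1620) (.n (nat_lit 163) (nat_lit 216) (.n (nat_lit 164) (nat_lit 144) (.p (nat_lit 165) (nat_lit 216) (.n (nat_lit 166) (nat_lit 432) (.p (nat_lit 167) (nat_lit 468) (.n (nat_lit 168) (nat_lit 216) (.n (nat_lit 169) (nat_lit 216) (.p (nat_lit 170)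 (nat_lit 468) (.n (nat_lit 171) (nat_lit 540) (.n (nat_lit 172) (nat_lit 720) (.p (nat_lit 173) (nat_lit 432) (.p (nat_lit 174) (nat_lit 360) (.n (nat_lit 175) (nat_lit 684) (.p (nat_lit 176) (nat_lit 252) (.n (nat_lit 177) (nat_lit 504) .z)))))))))))))))))))))) (.ct dF6aa_c531 (nat_lit 36) (nat_lit 7) (.s false (nat_lit 1) (nat_lit 6) (nat_lit 4) (nat_lit 2) (nat_lit 2) true (nat_lit 0) true (nat_lit 8) true (nat_lit 5) true (nat_lit 6) true (nat_lit 8) (.s false (nat_lit 1) (nat_lit 8) (nat_lit 4) (nat_lit 2) (nat_lit 0) true (nat_lit 2) true (nat_lit 10) true (nat_lit 3) true (nat_lit 6) true (nat_lit 8) (.s true (nat_lit 1) (nat_lit 15) (nat_lit 2) (nat_lit 0) (nat_lit 2) true (nat_lit 3) true (nat_lit 8) true (nat_lit 0) true (nat_lit 8) true (nat_lit 10) (.s true (nat_lit 1) (nat_lit 24) (nat_lit 0) (nat_lit 1) (nat_lit 0) true (nat_lit 7) true (nat_lit 10) false (nat_lit 2) true (nat_lit 10) true (nat_lit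 9) (.e true (nat_lit 36) (nat_lit 72) (nat_lit 2) (nat_lit 8) (.e false (nat_lit 36) (nat_lit 74) (nat_lit 2) (nat_lit 8) (.e false (nat_lit 36) (nat_lit 75) (nat_lit 2) (nat_lit 8) (.e true (nat_lit 36) (nat_lit 76) (nat_lit 2) (nat_lit 8) (.e false (nat_lit 36) (nat_lit 43) (nat_lit 6) (nat_lit 5) (.e true (nat_lit 36) (nat_lit 78) (nat_lit 2) (nat_lit 8) (.e false (nat_lit 36) (nat_lit 79) (nat_lit 2) (nat_lit 8) (.e true (nat_lit 108) (nat_lit 80) (nat_lit 2) (nat_lit 8) (.e false (nat_lit 36) (nat_lit 82) (nat_lit 2) (nat_lit 8) (.e true (nat_lit 36) (nat_lit 83) (nat_lit 2) (nat_lit 8) (.e false (nat_lit 36) (nat_lit 84) (nat_lit 2) (nat_lit 8) (.e true (nat_lit 36) (nat_lit 85) (nat_lit 2) (nat_lit 8) (.e false (nat_lit 36) (nat_lit 73) (nat_lit 2) (nat_lit 8) (.e false (nat_lit 36) (nat_lit 106) (nat_lit 0) (nat_lit 10) (.e true (nat_lit 36) (nat_lit 113) (nat_lit 0) (nat_lit 10) (.e true (nat_lit 36)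 (nat_lit 115) (nat_lit 0) (nat_lit 10) (.e false (nat_lit 36) (nat_lit 104) (nat_lit 1) (nat_lit 9) .nil)))))))))))))))))))))) .leaf) (nat_lit 58372) (nat_lit 387) (.p (nat_lit 179) (nat_lit 111) (.n (nat_lit 180) (nat_lit 69) (.p (nat_lit 181) (nat_lit 39) (.n (nat_lit 182) (nat_lit 117) (.n (nat_lit 183) (nat_lit 33) (.n (nat_lit 184) (nat_lit 36) (.p (nat_lit 185) (nat_lit 42) (.n (nat_lit 186) (nat_lit 69) (.n (nat_lit 187) (nat_lit 24) (.n (nat_lit 188) (nat_lit 57) (.n (nat_lit 189) (nat_lit 12) (.n (nat_lit 190) (nat_lit 24) (.n (nat_lit 191) (nat_lit 42) (.n (nat_lit 192) (nat_lit 84) (.n (nat_lit 193) (nat_lit 75) (.n (nat_lit 194) (nat_lit 12) (.p (nat_lit 195) (nat_lit 84) (.n (nat_lit 196) (nat_lit 27) (.n (nat_lit 197) (nat_lit 51) (.p (nat_lit 198) (nat_lit 93) (.n (nat_lit 199) (nat_lit 93) (.n (nat_lit 200) (nat_lit 60) (.n (nat_lit 201) (nat_lit 78) .z))))))))))))))))))))))) (.ct dF6aa_c291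 (nat_lit 36) (nat_lit 7) (.s true (nat_lit 1) (nat_lit 8) (nat_lit 1) (nat_lit 4) (nat_lit 2) true (nat_lit 4) true (nat_lit 8) true (nat_lit 3) true (nat_lit 9) true (nat_lit 7) (.e false (nat_lit 36) (nat_lit 44) (nat_lit 7) (nat_lit 4) (.e false (nat_lit 36) (nat_lit 45) (nat_lit 7) (nat_lit 4) (.e true (nat_lit 36) (nat_lit 46) (nat_lit 7) (nat_lit 4) (.e true (nat_lit 36) (nat_lit 48) (nat_lit 7) (nat_lit 4) (.e true (nat_lit 36) (nat_lit 88) (nat_lit 2) (nat_lit 8) (.e false (nat_lit 36) (nat_lit 89) (nat_lit 2) (nat_lit 8) (.e true (nat_lit 36) (nat_lit 90) (nat_lit 2) (nat_lit 8) (.e false (nat_lit 36) (nat_lit 91) (nat_lit 2) (nat_lit 8) (.e false (nat_lit 36) (nat_lit 99) (nat_lit 2) (nat_lit 8) (.e false (nat_lit 36) (nat_lit 34) (nat_lit 8) (nat_lit 3) (.e false (nat_lit 36) (nat_lit 115) (nat_lit 1) (nat_lit 9) .nil))))))))))))) .leaf) (nat_lit 59394) (nat_lit 245) (.p (nat_lit 123) (nat_lit 352)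 (.n (nat_lit 124) (nat_lit 136) (.p (nat_lit 125) (nat_lit 144) (.p (nat_lit 126) (nat_lit 284) (.p (nat_lit 127) (nat_lit 160) (.n (nat_lit 128) (nat_lit 392) (.p (nat_lit 129) (nat_lit 224) (.n (nat_lit 130) (nat_lit 352) (.p (nat_lit 131) (nat_lit 488) (.n (nat_lit 132) (nat_lit 352) (.n (nat_lit 133) (nat_lit 288) (.p (nat_lit 134) (nat_lit 156) (.p (nat_lit 135) (nat_lit 216) (.n (nat_lit 136) (nat_lit 832) (.p (nat_lit 137) (nat_lit 216) (.n (nat_lit 138) (nat_lit 1088) (.p (nat_lit 139) (nat_lit 520) (.n (nat_lit 140) (nat_lit 216) (.p (nat_lit 141) (nat_lit 328) (.n (nat_lit 142) (nat_lit 968) (.p (nat_lit 143) (nat_lit 832) (.p (nat_lit 144) (nat_lit 848) (.p (nat_lit 145) (nat_lit 848) (.n (nat_lit 146) (nat_lit 848) (.n (nat_lit 148) (nat_lit 240) (.n (nat_lit 149) (nat_lit 704) (.p (nat_lit 150) (nat_lit 848) (.n (nat_lit 151) (nat_lit 60) (.n (nat_lit 152) (nat_lit 408) (.n (nat_lit 153) (nat_lit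 432) (.n (nat_lit 155) (nat_lit 480) .z))))))))))))))))))))))))))))))) (.ct dF6aa_c546 (nat_lit 36) (nat_lit 10) (.s false (nat_lit 1) (nat_lit 7) (nat_lit 3) (nat_lit 2) (nat_lit 1) true (nat_lit 3) true (nat_lit 11) true (nat_lit 5) true (nat_lit 9) true (nat_lit 10) (.s true (nat_lit 1) (nat_lit 9) (nat_lit 1) (nat_lit 2) (nat_lit 2) true (nat_lit 5) true (nat_lit 10) true (nat_lit 3) true (nat_lit 11) true (nat_lit 10) (.e false (nat_lit 144) (nat_lit 72) (nat_lit 1) (nat_lit 11) (.e true (nat_lit 72) (nat_lit 73) (nat_lit 1) (nat_lit 11) dF6aa_i21))))) (.nd (.nd .leaf (nat_lit 60418) (nat_lit 192) (.p (nat_lit 123) (nat_lit 36) .z) .df .leaf) (nat_lit 61442) (nat_lit 193) (.p (nat_lit 124) (nat_lit 36) .z) .df .leaf))))))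

noncomputable def dF6aa_t4 : Tr := (.nd (.nd (.nd (.nd (.nd (.nd (.nd .leaf (nat_lit 63490) (nat_lit 195) (.p (nat_lit 126) (nat_lit 36) .z) .df .leaf) (nat_lit 64514) (nat_lit 226) (.p (nat_lit 123) (nat_lit 24) (.p (nat_lit 124) (nat_lit 12) (.n (nat_lit 125) (nat_lit 36) (.p (nat_lit 126) (nat_lit 12) (.p (nat_lit 127) (nat_lit 24) (.n (nat_lit 128) (nat_lit 12) (.p (nat_lit 129) (nat_lit 12) (.n (nat_lit 130) (nat_lit 24) (.p (nat_lit 131) (nat_lit 12) (.n (nat_lit 132) (nat_lit 24) (.p (nat_lit 133) (nat_lit 36) (.p (nat_lit 136) (nat_lit 12) (.p (nat_lit 138) (nat_lit 24) (.n (nat_lit 139) (nat_lit 12) (.n (nat_lit 141) (nat_lit 12) (.p (nat_lit 142) (nat_lit 24) (.n (nat_lit 143) (nat_lit 12) (.n (nat_lit 144) (nat_lit 24) (.n (nat_lit 145) (nat_lit 24) (.p (nat_lit 146) (nat_lit 24) (.p (nat_lit 149) (nat_lit 24) (.n (nat_lit 150) (nat_lit 24) .z)))))))))))))))))))))) (.ct dF6aa_c546 (nat_lit 1679616)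 (nat_lit 10) (.s true (nat_lit 19440) (nat_lit 4) (nat_lit 2) (nat_lit 2) (nat_lit 4) true (nat_lit 0) true (nat_lit 8) true (nat_lit 8) true (nat_lit 10) true (nat_lit 10) (.s false (nat_lit 36288) (nat_lit 6) (nat_lit 1) (nat_lit 1) (nat_lit 6) true (nat_lit 0) true (nat_lit 6) true (nat_lit 6) true (nat_lit 11) true (nat_lit 11) (.s false (nat_lit 18144) (nat_lit 6) (nat_lit 1) (nat_lit 2) (nat_lit 4) true (nat_lit 2) true (nat_lit 8) true (nat_lit 6) true (nat_lit 11) true (nat_lit 10) (.s true (nat_lit 5184) (nat_lit 6) (nat_lit 1) (nat_lit 4) (nat_lit 2) true (nat_lit 5) true (nat_lit 10) true (nat_lit 6) true (nat_lit 11) true (nat_lit 8) (.s false (nat_lit 18144) (nat_lit 6) (nat_lit 2) (nat_lit 0) (nat_lit 5) false (nat_lit 1) true (nat_lit 7) true (nat_lit 6) true (nat_lit 10) true (nat_lit 12) (.s true (nat_lit 18144) (nat_lit 6) (nat_lit 2) (nat_lit 1) (nat_lit 4) true (nat_lit 0) true (nat_lit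 8) true (nat_lit 6) true (nat_lit 10) true (nat_lit 11) (.s true (nat_lit 16848) (nat_lit 6) (nat_lit 2) (nat_lit 5) (nat_lit 0) true (nat_lit 6) true (nat_lit 12) true (nat_lit 6) true (nat_lit 10) true (nat_lit 7) (.s true (nat_lit 19440) (nat_lit 7) (nat_lit 0) (nat_lit 0) (nat_lit 7) true (nat_lit 0) true (nat_lit 5) true (nat_lit 5) true (nat_lit 12) true (nat_lit 12) (.s false (nat_lit 7776) (nat_lit 7) (nat_lit 0) (nat_lit 4) (nat_lit 2) true (nat_lit 6) true (nat_lit 10) true (nat_lit 5) true (nat_lit 12) true (nat_lit 8) (.s false (nat_lit 3888) (nat_lit 7) (nat_lit 0) (nat_lit 6) (nat_lit 1) true (nat_lit 8) true (nat_lit 11) true (nat_lit 5) true (nat_lit 12) true (nat_lit 6) (.s false (nat_lit 11664) (nat_lit 7) (nat_lit 1) (nat_lit 2) (nat_lit 3) true (nat_lit 3) true (nat_lit 9) true (nat_lit 5) true (nat_lit 11) true (nat_lit 10) (.s false (nat_lit 24624) (nat_lit 7) (nat_lit 1) (nat_lit 3) (nat_lit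 2) true (nat_lit 5) true (nat_lit 10) true (nat_lit 5) true (nat_lit 11) true (nat_lit 9) (.s true (nat_lit 6480) (nat_lit 7) (nat_lit 2) (nat_lit 0) (nat_lit 4) true (nat_lit 0) true (nat_lit 8) true (nat_lit 5) true (nat_lit 10) true (nat_lit 12) (.s true (nat_lit 12960) (nat_lit 7) (nat_lit 2) (nat_lit 4) (nat_lit 0) true (nat_lit 6) true (nat_lit 12) true (nat_lit 5) true (nat_lit 10) true (nat_lit 8) (.s false (nat_lit 7776) (nat_lit 7) (nat_lit 3) (nat_lit 1) (nat_lit 2) true (nat_lit 1) true (nat_lit 10) true (nat_lit 5) true (nat_lit 9) true (nat_lit 11) (.s true (nat_lit 19440) (nat_lit 7) (nat_lit 3) (nat_lit 2) (nat_lit 1) true (nat_lit 3) true (nat_lit 11) true (nat_lit 5) true (nat_lit 9) true (nat_lit 10) (.s false (nat_lit 9072) (nat_lit 7) (nat_lit 6) (nat_lit 1) (nat_lit 0) true (nat_lit 1) true (nat_lit 12) true (nat_lit 5) true (nat_lit 6) true (nat_lit 11) (.s false (nat_lit 1296) (nat_lit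 8) (nat_lit 1) (nat_lit 4) (nat_lit 0) true (nat_lit 8) true (nat_lit 12) true (nat_lit 4) true (nat_lit 11) true (nat_lit 8) (.s false (nat_lit 15552) (nat_lit 9) (nat_lit 1) (nat_lit 2) (nat_lit 2) true (nat_lit 5) true (nat_lit 10) true (nat_lit 3) true (nat_lit 11) true (nat_lit 10) (.s false (nat_lit 24624) (nat_lit 10) (nat_lit 1) (nat_lit 2) (nat_lit 2) true (nat_lit 5) true (nat_lit 10) true (nat_lit 3) true (nat_lit 11) true (nat_lit 10) (.s true (nat_lit 1296) (nat_lit 10) (nat_lit 2) (nat_lit 1) (nat_lit 2) true (nat_lit 4) true (nat_lit 10) true (nat_lit 3) true (nat_lit 10) true (nat_lit 11) (.s true (nat_lit 7776) (nat_lit 10) (nat_lit 2) (nat_lit 2) (nat_lit 1) true (nat_lit 5) true (nat_lit 11) true (nat_lit 3) true (nat_lit 10) true (nat_lit 10) (.s true (nat_lit 7776) (nat_lit 11) (nat_lit 2) (nat_lit 2) (nat_lit 0) true (nat_lit 6) true (nat_lit 12) true (nat_lit 2) true (nat_lit 10) true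 (nat_lit 10) (.s true (nat_lit 2592) (nat_lit 14) (nat_lit 1) (nat_lit 1) (nat_lit 2) true (nat_lit 5) true (nat_lit 10) true (nat_lit 1) true (nat_lit 11) true (nat_lit 11) dF6aa_i2))))))))))))))))))))))))) (.nd .leaf (nat_lit 65538) (nat_lit 250) (.p (nat_lit 125) (nat_lit 36) (.n (nat_lit 126) (nat_lit 36) (.n (nat_lit 127) (nat_lit 72) (.p (nat_lit 130) (nat_lit 36) (.p (nat_lit 131) (nat_lit 36) (.p (nat_lit 133) (nat_lit 36) (.p (nat_lit 134) (nat_lit 36) (.n (nat_lit 136) (nat_lit 36) (.p (nat_lit 137) (nat_lit 36) (.n (nat_lit 138) (nat_lit 36) (.p (nat_lit 139) (nat_lit 72) (.n (nat_lit 140) (nat_lit 36) (.p (nat_lit 141) (nat_lit 36) (.n (nat_lit 142) (nat_lit 36) (.n (nat_lit 146) (nat_lit 36) (.p (nat_lit 149) (nat_lit 36) (.p (nat_lit 150) (nat_lit 36) (.p (nat_lit 151) (nat_lit 36) (.p (nat_lit 152) (nat_lit 36) (.n (nat_lit 153) (nat_lit 36) (.n (nat_lit 154) (nat_lit 36) .z)))))))))))))))))))))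 (.ct dF6aa_c546 (nat_lit 36) (nat_lit 10) (.s true (nat_lit 1) (nat_lit 6) (nat_lit 1) (nat_lit 2) (nat_lit 4) true (nat_lit 2) true (nat_lit 8) true (nat_lit 6) true (nat_lit 11) true (nat_lit 10) (.s false (nat_lit 1) (nat_lit 20) (nat_lit 0) (nat_lit 1) (nat_lit 1) true (nat_lit 8) true (nat_lit 11) false (nat_lit 2) true (nat_lit 12) true (nat_lit 11) (.e true (nat_lit 36) (nat_lit 44) (nat_lit 4) (nat_lit 8) (.e true (nat_lit 36) (nat_lit 34) (nat_lit 6) (nat_lit 6) (.e false (nat_lit 36) (nat_lit 37) (nat_lit 6) (nat_lit 6) (.e true (nat_lit 36) (nat_lit 38) (nat_lit 6) (nat_lit 6) (.e false (nat_lit 36) (nat_lit 39) (nat_lit 6) (nat_lit 6) (.e true (nat_lit 36) (nat_lit 85) (nat_lit 1) (nat_lit 11) (.e false (nat_lit 36) (nat_lit 60) (nat_lit 2) (nat_lit 10) (.e true (nat_lit 36) (nat_lit 63) (nat_lit 2) (nat_lit 10) (.e false (nat_lit 36) (nat_lit 65) (nat_lit 2) (nat_lit 10) (.e false (nat_lit 36)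 (nat_lit 46) (nat_lit 4) (nat_lit 8) (.e false (nat_lit 36) (nat_lit 79) (nat_lit 1) (nat_lit 11) (.e true (nat_lit 36) (nat_lit 88) (nat_lit 0) (nat_lit 12) (.e true (nat_lit 36) (nat_lit 89) (nat_lit 0) (nat_lit 12) (.e false (nat_lit 36) (nat_lit 91) (nat_lit 0) (nat_lit 12) (.e false (nat_lit 36) (nat_lit 95) (nat_lit 0) (nat_lit 12) (.e true (nat_lit 36) (nat_lit 99) (nat_lit 0) (nat_lit 12) (.e true (nat_lit 36) (nat_lit 82) (nat_lit 1) (nat_lit 11) .nil)))))))))))))))))))) .leaf)) (nat_lit 66562) (nat_lit 196) (.p (nat_lit 127) (nat_lit 36) .z) .df (.nd (.nd .leaf (nat_lit 67586) (nat_lit 197) (.p (nat_lit 128) (nat_lit 36) .z) .df .leaf) (nat_lit 68610) (nat_lit 198) (.p (nat_lit 129) (nat_lit 36) .z) .df .leaf)) (nat_lit 69634) (nat_lit 199) (.p (nat_lit 130) (nat_lit 36) .z) .df (.nd (.nd (.nd .leaf (nat_lit 70658) (nat_lit 200) (.p (nat_lit 131) (nat_lit 36) .z) .df .leaf) (nat_lit 71682) (nat_lit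 201) (.p (nat_lit 132) (nat_lit 36) .z) .df .leaf) (nat_lit 72706) (nat_lit 202) (.p (nat_lit 133) (nat_lit 36) .z) .df (.nd (.nd .leaf (nat_lit 73729) (nat_lit 203) (.p (nat_lit 134) (nat_lit 36) .z) .df .leaf) (nat_lit 73730) (nat_lit 277) (.p (nat_lit 156) (nat_lit 36) .z) .df .leaf))) (nat_lit 74753) (nat_lit 235) (.n (nat_lit 123) (nat_lit 24) (.p (nat_lit 124) (nat_lit 24) (.n (nat_lit 125) (nat_lit 36) (.p (nat_lit 126) (nat_lit 24) (.p (nat_lit 127) (nat_lit 48) (.p (nat_lit 128) (nat_lit 12) (.n (nat_lit 129) (nat_lit 12) (.p (nat_lit 130) (nat_lit 24) (.n (nat_lit 131) (nat_lit 12) (.p (nat_lit 132) (nat_lit 24) (.n (nat_lit 133) (nat_lit 36) (.n (nat_lit 135) (nat_lit 36) (.p (nat_lit 136) (nat_lit 24) (.p (nat_lit 138) (nat_lit 12) (.n (nat_lit 139) (nat_lit 60) (.p (nat_lit 140) (nat_lit 36) (.n (nat_lit 141) (nat_lit 24) (.p (nat_lit 142) (nat_lit 48) (.n (nat_lit 143) (nat_lit 24) (.n (nat_lit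 144) (nat_lit 12) (.n (nat_lit 145) (nat_lit 12) (.p (nat_lit 146) (nat_lit 12) (.n (nat_lit 149) (nat_lit 24) (.n (nat_lit 150) (nat_lit 12) (.n (nat_lit 151) (nat_lit 36) (.p (nat_lit 153) (nat_lit 36) .z)))))))))))))))))))))))))) (.ct dF6aa_c546 (nat_lit 72) (nat_lit 11) dF6aa_i17) (.nd (.nd (.nd (.nd .leaf (nat_lit 74754) (nat_lit 278) (.p (nat_lit 157) (nat_lit 36) .z) .df .leaf) (nat_lit 75777) (nat_lit 204) (.p (nat_lit 135) (nat_lit 36) .z) .df (.nd .leaf (nat_lit 75778) (nat_lit 279) (.p (nat_lit 158) (nat_lit 36) .z) .df .leaf)) (nat_lit 76801) (nat_lit 205) (.p (nat_lit 136) (nat_lit 36) .z) .df (.nd (.nd .leaf (nat_lit 76802) (nat_lit 280) (.p (nat_lit 159) (nat_lit 36) .z) .df .leaf) (nat_lit 77825) (nat_lit 206) (.p (nat_lit 137) (nat_lit 36) .z) .df .leaf)) (nat_lit 77826) (nat_lit 281) (.p (nat_lit 160) (nat_lit 36) .z) .df (.nd (.nd (.nd .leaf (nat_lit 78849) (nat_lit 234) (.n (nat_lit 123)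 (nat_lit 56) (.p (nat_lit 124) (nat_lit 20) (.p (nat_lit 125) (nat_lit 36) (.n (nat_lit 126) (nat_lit 28) (.p (nat_lit 127) (nat_lit 40) (.p (nat_lit 128) (nat_lit 28) (.n (nat_lit 129) (nat_lit 52) (.p (nat_lit 130) (nat_lit 56) (.n (nat_lit 131) (nat_lit 76) (.p (nat_lit 132) (nat_lit 56) (.n (nat_lit 133) (nat_lit 36) (.n (nat_lit 134) (nat_lit 132) (.p (nat_lit 135) (nat_lit 72) (.p (nat_lit 136) (nat_lit 152) (.n (nat_lit 137) (nat_lit 108) (.p (nat_lit 138) (nat_lit 268) (.n (nat_lit 139) (nat_lit 176) (.n (nat_lit 141) (nat_lit 116) (.p (nat_lit 142) (nat_lit 172) (.n (nat_lit 143) (nat_lit 152) (.n (nat_lit 144) (nat_lit 148) (.n (nat_lit 145) (nat_lit 148) (.p (nat_lit 146) (nat_lit 148) (.p (nat_lit 148) (nat_lit 48) (.p (nat_lit 149) (nat_lit 40) (.n (nat_lit 150) (nat_lit 148) (.n (nat_lit 151) (nat_lit 24) (.n (nat_lit 152) (nat_lit 48) (.p (nat_lit 153) (nat_lit 36) (.p (nat_lit 155) (nat_lit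 96) .z)))))))))))))))))))))))))))))) (.ct dF6aa_c546 (nat_lit 72) (nat_lit 11) (.s false (nat_lit 1) (nat_lit 6) (nat_lit 1) (nat_lit 1) (nat_lit 6) true (nat_lit 0) true (nat_lit 6) true (nat_lit 6) true (nat_lit 11) true (nat_lit 11) (.s true (nat_lit 1) (nat_lit 6) (nat_lit 1) (nat_lit 2) (nat_lit 4) true (nat_lit 2) true (nat_lit 8) true (nat_lit 6) true (nat_lit 11) true (nat_lit 10) (.s true (nat_lit 4) (nat_lit 6) (nat_lit 1) (nat_lit 4) (nat_lit 2) true (nat_lit 5) true (nat_lit 10) true (nat_lit 6) true (nat_lit 11) true (nat_lit 8) (.s false (nat_lit 3) (nat_lit 6) (nat_lit 2) (nat_lit 1) (nat_lit 4) true (nat_lit 0) true (nat_lit 8) true (nat_lit 6) true (nat_lit 10) true (nat_lit 11) (.s false (nat_lit 3) (nat_lit 7) (nat_lit 0) (nat_lit 4) (nat_lit 2) true (nat_lit 6) true (nat_lit 10) true (nat_lit 5) true (nat_lit 12) true (nat_lit 8) (.s false (nat_lit 1) (nat_lit 7) (nat_lit 0) (nat_lit 6)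 (nat_lit 1) true (nat_lit 8) true (nat_lit 11) true (nat_lit 5) true (nat_lit 12) true (nat_lit 6) (.s false (nat_lit 1) (nat_lit 7) (nat_lit 1) (nat_lit 2) (nat_lit 3) true (nat_lit 3) true (nat_lit 9) true (nat_lit 5) true (nat_lit 11) true (nat_lit 10) (.s true (nat_lit 3) (nat_lit 7) (nat_lit 2) (nat_lit 0) (nat_lit 4) true (nat_lit 0) true (nat_lit 8) true (nat_lit 5) true (nat_lit 10) true (nat_lit 12) dF6aa_i16))))))))) .leaf) (nat_lit 78850) (nat_lit 282) (.p (nat_lit 161) (nat_lit 36) .z) .df .leaf) (nat_lit 79873) (nat_lit 237) (.p (nat_lit 123) (nat_lit 160) (.n (nat_lit 124) (nat_lit 52) (.p (nat_lit 126) (nat_lit 116) (.p (nat_lit 127) (nat_lit 40) (.n (nat_lit 128) (nat_lit 152) (.p (nat_lit 129) (nat_lit 92) (.n (nat_lit 130) (nat_lit 124) (.p (nat_lit 131) (nat_lit 212) (.n (nat_lit 132) (nat_lit 124) (.n (nat_lit 133) (nat_lit 72) (.p (nat_lit 134) (nat_lit 48) (.p (nat_lit 135) (nat_lit 72)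 (.n (nat_lit 136) (nat_lit 280) (.p (nat_lit 137) (nat_lit 72) (.n (nat_lit 138) (nat_lit 380) (.p (nat_lit 139) (nat_lit 148) (.n (nat_lit 140) (nat_lit 36) (.p (nat_lit 141) (nat_lit 100) (.n (nat_lit 142) (nat_lit 332) (.p (nat_lit 143) (nat_lit 280) (.p (nat_lit 144) (nat_lit 320) (.p (nat_lit 145) (nat_lit 320) (.n (nat_lit 146) (nat_lit 320) (.n (nat_lit 148) (nat_lit 96) (.n (nat_lit 149) (nat_lit 248) (.p (nat_lit 150) (nat_lit 320) (.n (nat_lit 151) (nat_lit 24) (.n (nat_lit 152) (nat_lit 120) (.n (nat_lit 153) (nat_lit 144) (.n (nat_lit 155) (nat_lit 192) .z)))))))))))))))))))))))))))))) (.ct dF6aa_c546 (nat_lit 36) (nat_lit 11) (.s false (nat_lit 1) (nat_lit 6) (nat_lit 1) (nat_lit 1) (nat_lit 6) true (nat_lit 0) true (nat_lit 6) true (nat_lit 6) true (nat_lit 11) true (nat_lit 11) (.s false (nat_lit 1) (nat_lit 6) (nat_lit 2) (nat_lit 0) (nat_lit 5) false (nat_lit 1) true (nat_lit 7) true (nat_lit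 6) true (nat_lit 10) true (nat_lit 12) dF6aa_i18))) (.nd (.nd .leaf (nat_lit 79874) (nat_lit 283) (.p (nat_lit 162) (nat_lit 36) .z) .df .leaf) (nat_lit 80897) (nat_lit 207) (.p (nat_lit 138) (nat_lit 36) .z) .df .leaf)))) (nat_lit 80898) (nat_lit 284) (.p (nat_lit 163) (nat_lit 36) .z) .df (.nd (.nd (.nd (.nd (.nd .leaf (nat_lit 81921) (nat_lit 208) (.p (nat_lit 139) (nat_lit 36) .z) .df .leaf) (nat_lit 81922) (nat_lit 285) (.p (nat_lit 164) (nat_lit 36) .z) .df (.nd .leaf (nat_lit 82945) (nat_lit 252) (.p (nat_lit 123) (nat_lit 88) (.n (nat_lit 124) (nat_lit 52) (.n (nat_lit 125) (nat_lit 36) (.p (nat_lit 126) (nat_lit 44) (.n (nat_lit 127) (nat_lit 32) (.n (nat_lit 128) (nat_lit 44) (.p (nat_lit 129) (nat_lit 56) (.n (nat_lit 130) (nat_lit 52) (.p (nat_lit 131) (nat_lit 104) (.n (nat_lit 132) (nat_lit 52) (.p (nat_lit 134) (nat_lit 48) (.n (nat_lit 136) (nat_lit 100) (.p (nat_lit 137) (nat_lit 36) (.n (nat_lit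 138) (nat_lit 164) (.p (nat_lit 139) (nat_lit 112) (.p (nat_lit 140) (nat_lit 36) (.p (nat_lit 141) (nat_lit 64) (.n (nat_lit 142) (nat_lit 116) (.p (nat_lit 143) (nat_lit 100) (.p (nat_lit 144) (nat_lit 140) (.p (nat_lit 145) (nat_lit 140) (.n (nat_lit 146) (nat_lit 140) (.n (nat_lit 147) (nat_lit 36) (.n (nat_lit 148) (nat_lit 60) (.n (nat_lit 149) (nat_lit 68) (.p (nat_lit 150) (nat_lit 140) (.p (nat_lit 151) (nat_lit 12) (.n (nat_lit 152) (nat_lit 12) (.n (nat_lit 153) (nat_lit 36) (.p (nat_lit 154) (nat_lit 36) (.n (nat_lit 155) (nat_lit 120) .z))))))))))))))))))))))))))))))) (.ct dF6aa_c546 (nat_lit 36) (nat_lit 11) (.s false (nat_lit 1) (nat_lit 16) (nat_lit 0) (nat_lit 1) (nat_lit 2) true (nat_lit 6) true (nat_lit 10) true (nat_lit 0) true (nat_lit 12) true (nat_lit 11) (.s true (nat_lit 1) (nat_lit 15) (nat_lit 0) (nat_lit 2) (nat_lit 1) true (nat_lit 8) true (nat_lit 11) true (nat_lit 0) true (nat_lit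 12) true (nat_lit 10) (.a true (nat_lit 1296) (nat_lit 15) (nat_lit 16) (nat_lit 0) (nat_lit 0) (.e false (nat_lit 36) (nat_lit 37) (nat_lit 6) (nat_lit 6) (.e false (nat_lit 36) (nat_lit 60) (nat_lit 2) (nat_lit 10) (.e true (nat_lit 36) (nat_lit 61) (nat_lit 2) (nat_lit 10) (.e false (nat_lit 36) (nat_lit 62) (nat_lit 2) (nat_lit 10) (.e true (nat_lit 36) (nat_lit 63) (nat_lit 2) (nat_lit 10) (.e true (nat_lit 36) (nat_lit 64) (nat_lit 2) (nat_lit 10) (.e false (nat_lit 72) (nat_lit 65) (nat_lit 2) (nat_lit 10) (.e false (nat_lit 36) (nat_lit 89) (nat_lit 0) (nat_lit 12) (.e false (nat_lit 36) (nat_lit 93) (nat_lit 0) (nat_lit 12) (.e true (nat_lit 36) (nat_lit 97) (nat_lit 0) (nat_lit 12) (.e true (nat_lit 36) (nat_lit 98) (nat_lit 0) (nat_lit 12) (.e false (nat_lit 72) (nat_lit 99) (nat_lit 0) (nat_lit 12) (.e true (nat_lit 36) (nat_lit 43) (nat_lit 4) (nat_lit 8) (.e true (nat_lit 36) (nat_lit 75) (nat_lit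 1) (nat_lit 11) (.e false (nat_lit 36) (nat_lit 68) (nat_lit 2) (nat_lit 10) .nil))))))))))))))))))) .leaf)) (nat_lit 82946) (nat_lit 325) (.p (nat_lit 156) (nat_lit 576) (.n (nat_lit 157) (nat_lit 648) (.n (nat_lit 158) (nat_lit 1188) (.n (nat_lit 159) (nat_lit 216) (.p (nat_lit 160) (nat_lit 468) (.n (nat_lit 161) (nat_lit 108) (.p (nat_lit 162) (nat_lit 1152) (.p (nat_lit 163) (nat_lit 252) (.p (nat_lit 164) (nat_lit 144) (.n (nat_lit 165) (nat_lit 72) (.p (nat_lit 166) (nat_lit 324) (.n (nat_lit 167) (nat_lit 360) (.p (nat_lit 168) (nat_lit 108) (.p (nat_lit 169) (nat_lit 180) (.n (nat_lit 170) (nat_lit 432) (.p (nat_lit 171) (nat_lit 324) (.p (nat_lit 172) (nat_lit 432) (.n (nat_lit 173) (nat_lit 216) (.n (nat_lit 174) (nat_lit 324) (.p (nat_lit 175) (nat_lit 540) (.n (nat_lit 176) (nat_lit 144) (.p (nat_lit 177) (nat_lit 144) (.p (nat_lit 178) (nat_lit 36) .z))))))))))))))))))))))) (.ct dF6aa_c531 (nat_lit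 36) (nat_lit 8) (.s true (nat_lit 1) (nat_lit 7) (nat_lit 0) (nat_lit 2) (nat_lit 6) true (nat_lit 1) true (nat_lit 5) true (nat_lit 4) true (nat_lit 10) true (nat_lit 8) (.s false (nat_lit 1) (nat_lit 14) (nat_lit 1) (nat_lit 2) (nat_lit 2) true (nat_lit 4) true (nat_lit 8) true (nat_lit 1) true (nat_lit 9) true (nat_lit 8) (.e true (nat_lit 36) (nat_lit 45) (nat_lit 6) (nat_lit 5) (.e true (nat_lit 36) (nat_lit 116) (nat_lit 0) (nat_lit 10) (.e false (nat_lit 36) (nat_lit 80) (nat_lit 2) (nat_lit 8) (.e false (nat_lit 36) (nat_lit 83) (nat_lit 2) (nat_lit 8) (.e true (nat_lit 36) (nat_lit 84) (nat_lit 2) (nat_lit 8) (.e false (nat_lit 36) (nat_lit 41) (nat_lit 7) (nat_lit 4) (.e false (nat_lit 36) (nat_lit 74) (nat_lit 2) (nat_lit 8) (.e true (nat_lit 36) (nat_lit 105) (nat_lit 1) (nat_lit 9) (.e true (nat_lit 36) (nat_lit 78) (nat_lit 2) (nat_lit 8) .nil)))))))))))) (.nd (.nd .leaf (nat_lit 83969) (nat_lit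 209) (.p (nat_lit 140) (nat_lit 36) .z) .df .leaf) (nat_lit 83970) (nat_lit 286) (.p (nat_lit 165) (nat_lit 36) .z) .df .leaf)) (nat_lit 84993) (nat_lit 210) (.p (nat_lit 141) (nat_lit 36) .z) .df (.nd (.nd (.nd .leaf (nat_lit 84994) (nat_lit 301) (.p (nat_lit 156) (nat_lit 360) (.n (nat_lit 157) (nat_lit 360) (.n (nat_lit 158) (nat_lit 720) (.n (nat_lit 159) (nat_lit 144) (.p (nat_lit 160) (nat_lit 324) (.n (nat_lit 161) (nat_lit 36) (.p (nat_lit 162) (nat_lit 684) (.p (nat_lit 163) (nat_lit 144) (.n (nat_lit 165) (nat_lit 108) (.p (nat_lit 166) (nat_lit 180) (.n (nat_lit 167) (nat_lit 180) (.p (nat_lit 168) (nat_lit 72) (.p (nat_lit 169) (nat_lit 108) (.n (nat_lit 170) (nat_lit 216) (.p (nat_lit 171) (nat_lit 252) (.p (nat_lit 172) (nat_lit 288) (.n (nat_lit 173) (nat_lit 144) (.n (nat_lit 174) (nat_lit 180) (.p (nat_lit 175) (nat_lit 288) (.n (nat_lit 176) (nat_lit 108) (.p (nat_lit 177) (nat_lit 180) .z)))))))))))))))))))))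 (.ct dF6aa_c531 (nat_lit 559872) (nat_lit 8) (.s true (nat_lit 342144) (nat_lit 6) (nat_lit 1) (nat_lit 2) (nat_lit 6) true (nat_lit 0) true (nat_lit 5) true (nat_lit 5) true (nat_lit 9) true (nat_lit 8) (.s false (nat_lit 101088) (nat_lit 6) (nat_lit 1) (nat_lit 6) (nat_lit 2) true (nat_lit 4) true (nat_lit 8) true (nat_lit 5) true (nat_lit 9) true (nat_lit 5) (.s true (nat_lit 241056) (nat_lit 7) (nat_lit 0) (nat_lit 2) (nat_lit 6) true (nat_lit 1) true (nat_lit 5) true (nat_lit 4) true (nat_lit 10) true (nat_lit 8) (.s true (nat_lit 334368) (nat_lit 7) (nat_lit 0) (nat_lit 6) (nat_lit 2) true (nat_lit 5) true (nat_lit 8) true (nat_lit 4) true (nat_lit 10) true (nat_lit 5) (.s false (nat_lit 233280) (nat_lit 7) (nat_lit 2) (nat_lit 6) (nat_lit 0) true (nat_lit 5) true (nat_lit 10) true (nat_lit 4) true (nat_lit 8) true (nat_lit 5) (.s false (nat_lit 23328) (nat_lit 7) (nat_lit 6) (nat_lit 0) (nat_lit 2) false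 (nat_lit 0) true (nat_lit 8) true (nat_lit 4) true (nat_lit 5) true (nat_lit 10) (.s false (nat_lit 38880) (nat_lit 8) (nat_lit 0) (nat_lit 2) (nat_lit 4) true (nat_lit 2) true (nat_lit 6) true (nat_lit 3) true (nat_lit 10) true (nat_lit 8) (.s true (nat_lit 69984) (nat_lit 8) (nat_lit 2) (nat_lit 4) (nat_lit 0) true (nat_lit 5) true (nat_lit 10) true (nat_lit 3) true (nat_lit 8) true (nat_lit 6) dF6aa_i24))))))))) .leaf) (nat_lit 86017) (nat_lit 211) (.p (nat_lit 142) (nat_lit 36) .z) .df .leaf) (nat_lit 86018) (nat_lit 287) (.p (nat_lit 166) (nat_lit 36) .z) .df (.nd (.nd .leaf (nat_lit 87041) (nat_lit 212) (.p (nat_lit 143) (nat_lit 36) .z) .df .leaf) (nat_lit 87042) (nat_lit 302) (.p (nat_lit 156) (nat_lit 216) (.n (nat_lit 157) (nat_lit 288) (.n (nat_lit 158) (nat_lit 504) (.n (nat_lit 159) (nat_lit 36) (.p (nat_lit 160) (nat_lit 144) (.n (nat_lit 161) (nat_lit 72) (.p (nat_lit 162) (nat_lit 468) (.p (nat_lit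 163) (nat_lit 108) (.p (nat_lit 164) (nat_lit 72) (.p (nat_lit 165) (nat_lit 36) (.p (nat_lit 166) (nat_lit 180) (.n (nat_lit 167) (nat_lit 144) (.p (nat_lit 168) (nat_lit 36) (.p (nat_lit 169) (nat_lit 108) (.n (nat_lit 170) (nat_lit 216) (.p (nat_lit 171) (nat_lit 72) (.p (nat_lit 172) (nat_lit 144) (.n (nat_lit 173) (nat_lit 72) (.n (nat_lit 174) (nat_lit 144) (.p (nat_lit 175) (nat_lit 216) .z)))))))))))))))))))) (.ct dF6aa_c531 (nat_lit 559872) (nat_lit 8) (.s false (nat_lit 62208) (nat_lit 6) (nat_lit 1) (nat_lit 2) (nat_lit 6) true (nat_lit 0) true (nat_lit 5) true (nat_lit 5) true (nat_lit 9) true (nat_lit 8) (.s true (nat_lit 124416) (nat_lit 6) (nat_lit 1) (nat_lit 6) (nat_lit 2) true (nat_lit 4) true (nat_lit 8) true (nat_lit 5) true (nat_lit 9) true (nat_lit 5) (.s true (nat_lit 23328) (nat_lit 6) (nat_lit 4) (nat_lit 2) (nat_lit 2) true (nat_lit 0) true (nat_lit 8) true (nat_lit 5) true (nat_lit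 6) true (nat_lit 8) (.s false (nat_lit 108864) (nat_lit 7) (nat_lit 0) (nat_lit 2) (nat_lit 6) true (nat_lit 1) true (nat_lit 5) true (nat_lit 4) true (nat_lit 10) true (nat_lit 8) (.s false (nat_lit 31104) (nat_lit 7) (nat_lit 0) (nat_lit 6) (nat_lit 2) true (nat_lit 5) true (nat_lit 8) true (nat_lit 4) true (nat_lit 10) true (nat_lit 5) (.s true (nat_lit 62208) (nat_lit 7) (nat_lit 2) (nat_lit 6) (nat_lit 0) true (nat_lit 5) true (nat_lit 10) true (nat_lit 4) true (nat_lit 8) true (nat_lit 5) (.s true (nat_lit 3888) (nat_lit 8) (nat_lit 0) (nat_lit 2) (nat_lit 4) true (nat_lit 2) true (nat_lit 6) true (nat_lit 3) true (nat_lit 10) true (nat_lit 8) (.s false (nat_lit 50544) (nat_lit 8) (nat_lit 2) (nat_lit 4) (nat_lit 0) true (nat_lit 5) true (nat_lit 10) true (nat_lit 3) true (nat_lit 8) true (nat_lit 6) (.s true (nat_lit 3888) (nat_lit 8) (nat_lit 4) (nat_lit 0) (nat_lit 2) true (nat_lit 0) true (nat_lit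 8) true (nat_lit 3) true (nat_lit 6) true (nat_lit 10) (.s true (nat_lit 19440) (nat_lit 8) (nat_lit 4) (nat_lit 2) (nat_lit 0) true (nat_lit 2) true (nat_lit 10) true (nat_lit 3) true (nat_lit 6) true (nat_lit 8) (.s false (nat_lit 46656) (nat_lit 8) (nat_lit 6) (nat_lit 0) (nat_lit 1) true (nat_lit 0) true (nat_lit 9) true (nat_lit 3) true (nat_lit 5) true (nat_lit 10) (.s false (nat_lit 31104) (nat_lit 14) (nat_lit 1) (nat_lit 2) (nat_lit 2) true (nat_lit 4) true (nat_lit 8) true (nat_lit 1) true (nat_lit 9) true (nat_lit 8) (.s true (nat_lit 46656) (nat_lit 14) (nat_lit 2) (nat_lit 1) (nat_lit 2) true (nat_lit 3) true (nat_lit 8) true (nat_lit 1) true (nat_lit 8) true (nat_lit 9) (.s true (nat_lit 120528) (nat_lit 15) (nat_lit 0) (nat_lit 2) (nat_lit 2) true (nat_lit 5) true (nat_lit 8) true (nat_lit 0) true (nat_lit 10) true (nat_lit 8) (.s false (nat_lit 66096) (nat_lit 15) (nat_lit 2) (nat_lit 0) (nat_lit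 2) true (nat_lit 3) true (nat_lit 8) true (nat_lit 0) true (nat_lit 8) true (nat_lit 10) (.s false (nat_lit 27216) (nat_lit 15) (nat_lit 2) (nat_lit 2) (nat_lit 0) true (nat_lit 5) true (nat_lit 10) true (nat_lit 0) true (nat_lit 8) true (nat_lit 8) (.s false (nat_lit 46656) (nat_lit 17) (nat_lit 2) (nat_lit 2) (nat_lit 0) true (nat_lit 5) true (nat_lit 10) true (nat_lit 0) true (nat_lit 8) true (nat_lit 8) (.s false (nat_lit 31104) (nat_lit 20) (nat_lit 0) (nat_lit 1) (nat_lit 2) true (nat_lit 5) true (nat_lit 8) false (nat_lit 0) true (nat_lit 10) true (nat_lit 9) (.s true (nat_lit 93312) (nat_lit 21) (nat_lit 0) (nat_lit 1) (nat_lit 2) true (nat_lit 5) true (nat_lit 8) false (nat_lit 0) true (nat_lit 10) true (nat_lit 9) (.s false (nat_lit 46656) (nat_lit 21) (nat_lit 1) (nat_lit 0) (nat_lit 2) true (nat_lit 4) true (nat_lit 8) false (nat_lit 0) true (nat_lit 9) true (nat_lit 10) (.s true (nat_lit 46656)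 (nat_lit 21) (nat_lit 1) (nat_lit 2) (nat_lit 0) true (nat_lit 6) true (nat_lit 10) false (nat_lit 0) true (nat_lit 9) true (nat_lit 8) (.s true (nat_lit 62208) (nat_lit 20) (nat_lit 2) (nat_lit 0) (nat_lit 1) true (nat_lit 4) true (nat_lit 9) false (nat_lit 0) true (nat_lit 8) true (nat_lit 10) (.s true (nat_lit 46656) (nat_lit 21) (nat_lit 2) (nat_lit 0) (nat_lit 1) true (nat_lit 4) true (nat_lit 9) false (nat_lit 0) true (nat_lit 8) true (nat_lit 10) (.s true (nat_lit 93312) (nat_lit 22) (nat_lit 2) (nat_lit 0) (nat_lit 0) true (nat_lit 5) true (nat_lit 10) false (nat_lit 1) true (nat_lit 8) true (nat_lit 10) dF6aa_i25))))))))))))))))))))))))) .leaf))) (nat_lit 88064) (nat_lit 229) (.p (nat_lit 123) (nat_lit 236) (.n (nat_lit 124) (nat_lit 92) (.p (nat_lit 125) (nat_lit 36) (.p (nat_lit 126) (nat_lit 208) (.p (nat_lit 127) (nat_lit 140) (.n (nat_lit 128) (nat_lit 244) (.p (nat_lit 129) (nat_lit 160) (.n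 (nat_lit 130) (nat_lit 236) (.p (nat_lit 131) (nat_lit 328) (.n (nat_lit 132) (nat_lit 236) (.n (nat_lit 133) (nat_lit 180) (.p (nat_lit 134) (nat_lit 132) (.p (nat_lit 135) (nat_lit 108) (.n (nat_lit 136) (nat_lit 584) (.p (nat_lit 137) (nat_lit 180) (.n (nat_lit 138) (nat_lit 772) (.p (nat_lit 139) (nat_lit 320) (.n (nat_lit 140) (nat_lit 108) (.p (nat_lit 141) (nat_lit 224) (.n (nat_lit 142) (nat_lit 640) (.p (nat_lit 143) (nat_lit 584) (.p (nat_lit 144) (nat_lit 580) (.p (nat_lit 145) (nat_lit 580) (.n (nat_lit 146) (nat_lit 580) (.n (nat_lit 148) (nat_lit 192) (.n (nat_lit 149) (nat_lit 472) (.p (nat_lit 150) (nat_lit 580) (.n (nat_lit 151) (nat_lit 48) (.n (nat_lit 152) (nat_lit 276) (.n (nat_lit 153) (nat_lit 288) (.n (nat_lit 155) (nat_lit 348) .z))))))))))))))))))))))))))))))) (.ct dF6aa_c546 (nat_lit 559872) (nat_lit 12) dF6aa_i9) (.nd (.nd (.nd (.nd .leaf (nat_lit 88066) (nat_lit 382) (.p (nat_lit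 179) (nat_lit 93) (.n (nat_lit 180) (nat_lit 15) (.p (nat_lit 181) (nat_lit 57) (.n (nat_lit 182) (nat_lit 27) (.n (nat_lit 183) (nat_lit 15) (.n (nat_lit 184) (nat_lit 72) (.p (nat_lit 185) (nat_lit 6) (.n (nat_lit 186) (nat_lit 15) (.n (nat_lit 187) (nat_lit 60) (.n (nat_lit 188) (nat_lit 75) (.p (nat_lit 189) (nat_lit 24) (.n (nat_lit 190) (nat_lit 24) (.n (nat_lit 191) (nat_lit 6) (.n (nat_lit 192) (nat_lit 48) (.n (nat_lit 193) (nat_lit 57) (.p (nat_lit 194) (nat_lit 24) (.p (nat_lit 195) (nat_lit 48) (.n (nat_lit 196) (nat_lit 45) (.p (nat_lit 197) (nat_lit 3) (.p (nat_lit 198) (nat_lit 3) (.n (nat_lit 199) (nat_lit 39) (.n (nat_lit 200) (nat_lit 24) (.n (nat_lit 201) (nat_lit 78) .z))))))))))))))))))))))) (.ct dF6aa_c291 (nat_lit 36) (nat_lit 8) (.s true (nat_lit 1) (nat_lit 7) (nat_lit 0) (nat_lit 7) (nat_lit 2) true (nat_lit 5) true (nat_lit 8) true (nat_lit 4) true (nat_lit 10) true (nat_lit 4) (.e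 true (nat_lit 36) (nat_lit 87) (nat_lit 2) (nat_lit 8) (.e false (nat_lit 72) (nat_lit 88) (nat_lit 2) (nat_lit 8) (.e true (nat_lit 108) (nat_lit 89) (nat_lit 2) (nat_lit 8) (.e false (nat_lit 72) (nat_lit 90) (nat_lit 2) (nat_lit 8) (.e false (nat_lit 36) (nat_lit 91) (nat_lit 2) (nat_lit 8) (.e true (nat_lit 36) (nat_lit 93) (nat_lit 2) (nat_lit 8) (.e true (nat_lit 36) (nat_lit 94) (nat_lit 2) (nat_lit 8) (.e false (nat_lit 36) (nat_lit 95) (nat_lit 2) (nat_lit 8) (.e true (nat_lit 36) (nat_lit 97) (nat_lit 2) (nat_lit 8) (.e false (nat_lit 72) (nat_lit 98) (nat_lit 2) (nat_lit 8) (.e true (nat_lit 36) (nat_lit 99) (nat_lit 2) (nat_lit 8) (.e false (nat_lit 36) (nat_lit 45) (nat_lit 7) (nat_lit 4) (.e true (nat_lit 18) (nat_lit 118) (nat_lit 0) (nat_lit 10) (.e false (nat_lit 18) (nat_lit 119) (nat_lit 0) (nat_lit 10) (.e true (nat_lit 18) (nat_lit 120) (nat_lit 0) (nat_lit 10) (.e false (nat_lit 18) (nat_lit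 121) (nat_lit 0) (nat_lit 10) (.e true (nat_lit 36) (nat_lit 48) (nat_lit 7) (nat_lit 4) .nil))))))))))))))))))) .leaf) (nat_lit 89088) (nat_lit 239) (.p (nat_lit 123) (nat_lit 20) (.n (nat_lit 124) (nat_lit 20) (.n (nat_lit 126) (nat_lit 44) (.n (nat_lit 127) (nat_lit 112) (.p (nat_lit 128) (nat_lit 8) (.p (nat_lit 129) (nat_lit 16) (.p (nat_lit 130) (nat_lit 16) (.p (nat_lit 131) (nat_lit 40) (.p (nat_lit 132) (nat_lit 16) (.p (nat_lit 133) (nat_lit 108) (.p (nat_lit 134) (nat_lit 60) (.n (nat_lit 135) (nat_lit 36) (.n (nat_lit 136) (nat_lit 8) (.p (nat_lit 137) (nat_lit 36) (.n (nat_lit 138) (nat_lit 16) (.p (nat_lit 139) (nat_lit 104) (.p (nat_lit 141) (nat_lit 44) (.p (nat_lit 142) (nat_lit 8) (.p (nat_lit 143) (nat_lit 8) (.n (nat_lit 144) (nat_lit 32) (.n (nat_lit 145) (nat_lit 32) (.n (nat_lit 146) (nat_lit 4) (.n (nat_lit 148) (nat_lit 12) (.p (nat_lit 149) (nat_lit 104) (.p (nat_lit 150) (nat_lit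 4) (.p (nat_lit 151) (nat_lit 60) (.p (nat_lit 152) (nat_lit 84) (.n (nat_lit 155) (nat_lit 24) .z)))))))))))))))))))))))))))) (.ct dF6aa_c546 (nat_lit 36) (nat_lit 12) (.s false (nat_lit 1) (nat_lit 6) (nat_lit 1) (nat_lit 4) (nat_lit 2) true (nat_lit 5) true (nat_lit 10) true (nat_lit 6) true (nat_lit 11) true (nat_lit 8) (.s true (nat_lit 1) (nat_lit 6) (nat_lit 2) (nat_lit 1) (nat_lit 4) true (nat_lit 0) true (nat_lit 8) true (nat_lit 6) true (nat_lit 10) true (nat_lit 11) (.s true (nat_lit 1) (nat_lit 7) (nat_lit 0) (nat_lit 4) (nat_lit 2) true (nat_lit 6) true (nat_lit 10) true (nat_lit 5) true (nat_lit 12) true (nat_lit 8) (.s false (nat_lit 1) (nat_lit 7) (nat_lit 2) (nat_lit 0) (nat_lit 4) true (nat_lit 0) true (nat_lit 8) true (nat_lit 5) true (nat_lit 10) true (nat_lit 12) (.s false (nat_lit 1) (nat_lit 15) (nat_lit 0) (nat_lit 2) (nat_lit 1) true (nat_lit 8) true (nat_lit 11) true (nat_lit 0) true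 (nat_lit 12) true (nat_lit 10) (.s true (nat_lit 1) (nat_lit 15) (nat_lit 1) (nat_lit 2) (nat_lit 0) true (nat_lit 8) true (nat_lit 12) true (nat_lit 0) true (nat_lit 11) true (nat_lit 10) (.e false (nat_lit 36) (nat_lit 66) (nat_lit 2) (nat_lit 10) (.e true (nat_lit 36) (nat_lit 34) (nat_lit 6) (nat_lit 6) (.e true (nat_lit 36) (nat_lit 61) (nat_lit 2) (nat_lit 10) (.e false (nat_lit 36) (nat_lit 72) (nat_lit 1) (nat_lit 11) (.e true (nat_lit 36) (nat_lit 74) (nat_lit 1) (nat_lit 11) (.e false (nat_lit 36) (nat_lit 76) (nat_lit 1) (nat_lit 11) (.e false (nat_lit 36) (nat_lit 29) (nat_lit 7) (nat_lit 5) (.e true (nat_lit 36) (nat_lit 86) (nat_lit 0) (nat_lit 12) (.e false (nat_lit 36) (nat_lit 88) (nat_lit 0) (nat_lit 12) (.e true (nat_lit 36) (nat_lit 89) (nat_lit 0) (nat_lit 12) (.e false (nat_lit 36) (nat_lit 90) (nat_lit 0) (nat_lit 12) .nil)))))))))))))))))) .leaf) (nat_lit 89090) (nat_lit 375) (.n (nat_lit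 179) (nat_lit 90) (.p (nat_lit 180) (nat_lit 54) (.n (nat_lit 181) (nat_lit 18) (.p (nat_lit 182) (nat_lit 126) (.n (nat_lit 183) (nat_lit 18) (.n (nat_lit 185) (nat_lit 36) (.p (nat_lit 186) (nat_lit 90) (.p (nat_lit 187) (nat_lit 108) (.p (nat_lit 188) (nat_lit 90) (.n (nat_lit 190) (nat_lit 36) (.p (nat_lit 191) (nat_lit 108) (.p (nat_lit 192) (nat_lit 108) (.p (nat_lit 193) (nat_lit 90) (.p (nat_lit 194) (nat_lit 36) (.n (nat_lit 195) (nat_lit 108) (.p (nat_lit 196) (nat_lit 18) (.p (nat_lit 197) (nat_lit 54) (.n (nat_lit 198) (nat_lit 90) (.p (nat_lit 199) (nat_lit 126) (.p (nat_lit 200) (nat_lit 144) (.p (nat_lit 201) (nat_lit 36) .z))))))))))))))))))))) (.ct dF6aa_c291 (nat_lit 36) (nat_lit 8) (.s false (nat_lit 1) (nat_lit 7) (nat_lit 0) (nat_lit 7) (nat_lit 2) true (nat_lit 5) true (nat_lit 8) true (nat_lit 4) true (nat_lit 10) true (nat_lit 4) (.s false (nat_lit 1) (nat_lit 7) (nat_lit 2) (nat_lit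 2) (nat_lit 4) true (nat_lit 1) true (nat_lit 7) true (nat_lit 4) true (nat_lit 8) true (nat_lit 8) (.s false (nat_lit 1) (nat_lit 7) (nat_lit 6) (nat_lit 2) (nat_lit 1) true (nat_lit 1) true (nat_lit 9) true (nat_lit 4) true (nat_lit 5) true (nat_lit 8) (.s true (nat_lit 1) (nat_lit 15) (nat_lit 1) (nat_lit 2) (nat_lit 2) true (nat_lit 4) true (nat_lit 8) true (nat_lit 1) true (nat_lit 9) true (nat_lit 8) (.s true (nat_lit 1) (nat_lit 22) (nat_lit 0) (nat_lit 2) (nat_lit 1) true (nat_lit 7) true (nat_lit 9) false (nat_lit 1) true (nat_lit 10) true (nat_lit 8) (.e false (nat_lit 36) (nat_lit 91) (nat_lit 2) (nat_lit 8) (.e false (nat_lit 36) (nat_lit 93) (nat_lit 2) (nat_lit 8) (.e false (nat_lit 36) (nat_lit 99) (nat_lit 2) (nat_lit 8) (.e false (nat_lit 36) (nat_lit 44) (nat_lit 7) (nat_lit 4) (.e false (nat_lit 36) (nat_lit 106) (nat_lit 1) (nat_lit 9) (.e true (nat_lit 36) (nat_lit 107) (nat_lit 1) (nat_lit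 9) (.e false (nat_lit 36) (nat_lit 110) (nat_lit 1) (nat_lit 9) (.e true (nat_lit 72) (nat_lit 111) (nat_lit 1) (nat_lit 9) (.e true (nat_lit 36) (nat_lit 43) (nat_lit 7) (nat_lit 4) (.e false (nat_lit 36) (nat_lit 115) (nat_lit 1) (nat_lit 9) .nil)))))))))))))))) (.nd (.nd .leaf (nat_lit 90112) (nat_lit 213) (.p (nat_lit 144) (nat_lit 36) .z) .df .leaf) (nat_lit 90114) (nat_lit 341) (.p (nat_lit 179) (nat_lit 36) .z) .df .leaf)) (nat_lit 91136) (nat_lit 214) (.p (nat_lit 145) (nat_lit 36) .z) .df (.nd (.nd (.nd .leaf (nat_lit 91138) (nat_lit 342) (.p (nat_lit 180) (nat_lit 36) .z) .df .leaf) (nat_lit 92160) (nat_lit 230) (.p (nat_lit 123) (nat_lit 328) (.n (nat_lit 124) (nat_lit 148) (.p (nat_lit 125) (nat_lit 72) (.p (nat_lit 126) (nat_lit 236) (.p (nat_lit 127) (nat_lit 64) (.n (nat_lit 128) (nat_lit 344) (.p (nat_lit 129) (nat_lit 212) (.n (nat_lit 130) (nat_lit 292) (.p (nat_lit 131) (nat_lit 476) (.n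 (nat_lit 132) (nat_lit 292) (.n (nat_lit 133) (nat_lit 144) (.p (nat_lit 134) (nat_lit 192) (.p (nat_lit 135) (nat_lit 144) (.n (nat_lit 136) (nat_lit 772) (.p (nat_lit 137) (nat_lit 216) (.n (nat_lit 138) (nat_lit 1040) (.p (nat_lit 139) (nat_lit 532) (.n (nat_lit 140) (nat_lit 144) (.p (nat_lit 141) (nat_lit 340) (.n (nat_lit 142) (nat_lit 848) (.p (nat_lit 143) (nat_lit 772) (.p (nat_lit 144) (nat_lit 692) (.p (nat_lit 145) (nat_lit 764) (.n (nat_lit 146) (nat_lit 764) (.n (nat_lit 148) (nat_lit 276) (.n (nat_lit 149) (nat_lit 512) (.p (nat_lit 150) (nat_lit 764) (.n (nat_lit 151) (nat_lit 24) (.n (nat_lit 152) (nat_lit 336) (.n (nat_lit 153) (nat_lit 360) (.n (nat_lit 155) (nat_lit 480) .z))))))))))))))))))))))))))))))) (.ct dF6aa_c546 (nat_lit 144) (nat_lit 12) dF6aa_i11) .leaf) (nat_lit 92162) (nat_lit 343) (.p (nat_lit 181) (nat_lit 36) .z) .df (.nd (.nd .leaf (nat_lit 93184) (nat_lit 215) (.p (nat_lit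 146) (nat_lit 36) .z) .df .leaf) (nat_lit 93186) (nat_lit 344) (.p (nat_lit 182) (nat_lit 36) .z) .df .leaf))))) (nat_lit 94208) (nat_lit 216) (.p (nat_lit 147) (nat_lit 36) .z) .df (.nd (.nd (.nd (.nd (.nd (.nd .leaf (nat_lit 94210) (nat_lit 369) (.n (nat_lit 179) (nat_lit 138) (.p (nat_lit 180) (nat_lit 78) (.n (nat_lit 181) (nat_lit 30) (.p (nat_lit 182) (nat_lit 162) (.n (nat_lit 183) (nat_lit 102) (.n (nat_lit 185) (nat_lit 60) (.p (nat_lit 186) (nat_lit 78) (.p (nat_lit 187) (nat_lit 204) (.p (nat_lit 188) (nat_lit 138) (.p (nat_lit 189) (nat_lit 12) (.n (nat_lit 190) (nat_lit 84) (.p (nat_lit 191) (nat_lit 240) (.p (nat_lit 192) (nat_lit 120) (.p (nat_lit 193) (nat_lit 138) (.p (nat_lit 194) (nat_lit 84) (.n (nat_lit 195) (nat_lit 156) (.p (nat_lit 196) (nat_lit 18) (.p (nat_lit 197) (nat_lit 78) (.n (nat_lit 198) (nat_lit 102) (.p (nat_lit 199) (nat_lit 174) (.p (nat_lit 200) (nat_lit 240) (.p (nat_lit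 201) (nat_lit 60) .z)))))))))))))))))))))) (.ct dF6aa_c291 (nat_lit 108) (nat_lit 8) (.s true (nat_lit 1) (nat_lit 6) (nat_lit 5) (nat_lit 2) (nat_lit 2) true (nat_lit 0) true (nat_lit 8) true (nat_lit 5) true (nat_lit 6) true (nat_lit 8) (.s true (nat_lit 2) (nat_lit 7) (nat_lit 0) (nat_lit 2) (nat_lit 7) true (nat_lit 1) true (nat_lit 4) true (nat_lit 4) true (nat_lit 10) true (nat_lit 8) (.s false (nat_lit 2) (nat_lit 7) (nat_lit 0) (nat_lit 7) (nat_lit 2) true (nat_lit 5) true (nat_lit 8) true (nat_lit 4) true (nat_lit 10) true (nat_lit 4) (.s false (nat_lit 1) (nat_lit 7) (nat_lit 1) (nat_lit 6) (nat_lit 2) true (nat_lit 4) true (nat_lit 8) true (nat_lit 4) true (nat_lit 9) true (nat_lit 5) (.s false (nat_lit 2) (nat_lit 7) (nat_lit 2) (nat_lit 2) (nat_lit 4) true (nat_lit 1) true (nat_lit 7) true (nat_lit 4) true (nat_lit 8) true (nat_lit 8) (.s false (nat_lit 1) (nat_lit 7) (nat_lit 2) (nat_lit 6) (nat_lit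 1) true (nat_lit 4) true (nat_lit 9) true (nat_lit 4) true (nat_lit 8) true (nat_lit 5) dF6aa_i39))))))) .leaf) (nat_lit 95232) (nat_lit 231) (.n (nat_lit 123) (nat_lit 132) (.p (nat_lit 124) (nat_lit 24) (.n (nat_lit 125) (nat_lit 36) (.n (nat_lit 126) (nat_lit 192) (.n (nat_lit 127) (nat_lit 204) (.p (nat_lit 128) (nat_lit 192) (.n (nat_lit 129) (nat_lit 84) (.p (nat_lit 130) (nat_lit 168) (.n (nat_lit 131) (nat_lit 192) (.p (nat_lit 132) (nat_lit 168) (.p (nat_lit 133) (nat_lit 180) (.n (nat_lit 134) (nat_lit 36) (.n (nat_lit 135) (nat_lit 108) (.p (nat_lit 136) (nat_lit 420) (.n (nat_lit 137) (nat_lit 72) (.p (nat_lit 138) (nat_lit 516) (.n (nat_lit 139) (nat_lit 168) (.p (nat_lit 140) (nat_lit 108) (.n (nat_lit 141) (nat_lit 132) (.p (nat_lit 142) (nat_lit 480) (.n (nat_lit 143) (nat_lit 420) (.n (nat_lit 144) (nat_lit 408) (.n (nat_lit 145) (nat_lit 408) (.p (nat_lit 146) (nat_lit 372) (.n (nat_lit 147)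 (nat_lit 36) (.p (nat_lit 148) (nat_lit 108) (.p (nat_lit 149) (nat_lit 408) (.n (nat_lit 150) (nat_lit 408) (.p (nat_lit 151) (nat_lit 72) (.p (nat_lit 152) (nat_lit 252) (.p (nat_lit 153) (nat_lit 180) (.p (nat_lit 155) (nat_lit 216) .z)))))))))))))))))))))))))))))))) (.ct dF6aa_c546 (nat_lit 36) (nat_lit 12) (.s true (nat_lit 1) (nat_lit 4) (nat_lit 2) (nat_lit 2) (nat_lit 4) true (nat_lit 0) true (nat_lit 8) true (nat_lit 8) true (nat_lit 10) true (nat_lit 10) (.s false (nat_lit 1) (nat_lit 6) (nat_lit 1) (nat_lit 2) (nat_lit 4) true (nat_lit 2) true (nat_lit 8) true (nat_lit 6) true (nat_lit 11) true (nat_lit 10) (.s true (nat_lit 1) (nat_lit 6) (nat_lit 2) (nat_lit 1) (nat_lit 4) true (nat_lit 0) true (nat_lit 8) true (nat_lit 6) true (nat_lit 10) true (nat_lit 11) (.s true (nat_lit 1) (nat_lit 7) (nat_lit 0) (nat_lit 4) (nat_lit 2) true (nat_lit 6) true (nat_lit 10) true (nat_lit 5) true (nat_lit 12)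 true (nat_lit 8) (.s false (nat_lit 1) (nat_lit 7) (nat_lit 2) (nat_lit 4) (nat_lit 0) true (nat_lit 6) true (nat_lit 12) true (nat_lit 5) true (nat_lit 10) true (nat_lit 8) (.s false (nat_lit 1) (nat_lit 15) (nat_lit 0) (nat_lit 2) (nat_lit 1) true (nat_lit 8) true (nat_lit 11) true (nat_lit 0) true (nat_lit 12) true (nat_lit 10) dF6aa_i12))))))) (.nd .leaf (nat_lit 95234) (nat_lit 345) (.p (nat_lit 183) (nat_lit 36) .z) .df .leaf)) (nat_lit 96256) (nat_lit 240) (.p (nat_lit 123) (nat_lit 72) (.n (nat_lit 124) (nat_lit 36) (.p (nat_lit 126) (nat_lit 72) (.p (nat_lit 127) (nat_lit 72) (.n (nat_lit 128) (nat_lit 72) (.p (nat_lit 129) (nat_lit 36) (.n (nat_lit 130) (nat_lit 72) (.p (nat_lit 131) (nat_lit 72) (.n (nat_lit 132) (nat_lit 72) (.n (nat_lit 133) (nat_lit 72) (.p (nat_lit 135) (nat_lit 36) (.n (nat_lit 136) (nat_lit 144) (.p (nat_lit 137) (nat_lit 36) (.n (nat_lit 138) (nat_lit 180) (.p (nat_lit 139)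 (nat_lit 36) (.p (nat_lit 141) (nat_lit 36) (.n (nat_lit 142) (nat_lit 144) (.p (nat_lit 143) (nat_lit 144) (.p (nat_lit 144) (nat_lit 144) (.p (nat_lit 145) (nat_lit 144) (.n (nat_lit 146) (nat_lit 144) (.n (nat_lit 148) (nat_lit 72) (.n (nat_lit 149) (nat_lit 144) (.p (nat_lit 150) (nat_lit 144) (.n (nat_lit 151) (nat_lit 36) (.n (nat_lit 152) (nat_lit 144) (.n (nat_lit 153) (nat_lit 72) (.n (nat_lit 155) (nat_lit 108) .z)))))))))))))))))))))))))))) (.ct dF6aa_c546 (nat_lit 36) (nat_lit 12) (.s true (nat_lit 1) (nat_lit 6) (nat_lit 1) (nat_lit 1) (nat_lit 6) true (nat_lit 0) true (nat_lit 6) true (nat_lit 6) true (nat_lit 11) true (nat_lit 11) (.s true (nat_lit 1) (nat_lit 6) (nat_lit 2) (nat_lit 0) (nat_lit 5) false (nat_lit 1) true (nat_lit 7) true (nat_lit 6) true (nat_lit 10) true (nat_lit 12) (.s false (nat_lit 1) (nat_lit 14) (nat_lit 1) (nat_lit 1) (nat_lit 2) true (nat_lit 5) true (nat_lit 10) true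 (nat_lit 1) true (nat_lit 11) true (nat_lit 11) (.s false (nat_lit 1) (nat_lit 16) (nat_lit 0) (nat_lit 1) (nat_lit 2) true (nat_lit 6) true (nat_lit 10) true (nat_lit 0) true (nat_lit 12) true (nat_lit 11) (.s true (nat_lit 1) (nat_lit 16) (nat_lit 1) (nat_lit 0) (nat_lit 2) true (nat_lit 5) true (nat_lit 10) true (nat_lit 0) true (nat_lit 11) true (nat_lit 12) (.s false (nat_lit 1) (nat_lit 16) (nat_lit 2) (nat_lit 0) (nat_lit 1) true (nat_lit 5) true (nat_lit 11) true (nat_lit 0) true (nat_lit 10) true (nat_lit 12) (.s true (nat_lit 1) (nat_lit 20) (nat_lit 0) (nat_lit 1) (nat_lit 1) true (nat_lit 8) true (nat_lit 11) false (nat_lit 2) true (nat_lit 12) true (nat_lit 11) (.s false (nat_lit 1) (nat_lit 20) (nat_lit 1) (nat_lit 0) (nat_lit 1) true (nat_lit 7) true (nat_lit 11) false (nat_lit 2) true (nat_lit 11) true (nat_lit 12) (.e true (nat_lit 36) (nat_lit 74) (nat_lit 1) (nat_lit 11) (.e false (nat_lit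 36) (nat_lit 65) (nat_lit 2) (nat_lit 10) (.e true (nat_lit 36) (nat_lit 87) (nat_lit 0) (nat_lit 12) (.e false (nat_lit 36) (nat_lit 88) (nat_lit 0) (nat_lit 12) (.e true (nat_lit 36) (nat_lit 89) (nat_lit 0) (nat_lit 12) (.e false (nat_lit 36) (nat_lit 98) (nat_lit 0) (nat_lit 12) (.e false (nat_lit 36) (nat_lit 90) (nat_lit 0) (nat_lit 12) (.e false (nat_lit 36) (nat_lit 31) (nat_lit 7) (nat_lit 5) (.e true (nat_lit 36) (nat_lit 61) (nat_lit 2) (nat_lit 10) (.e false (nat_lit 36) (nat_lit 62) (nat_lit 2) (nat_lit 10) (.e true (nat_lit 36) (nat_lit 97) (nat_lit 0) (nat_lit 12) (.e true (nat_lit 36) (nat_lit 46) (nat_lit 4) (nat_lit 8) (.e false (nat_lit 36) (nat_lit 82) (nat_lit 1) (nat_lit 11) .nil)))))))))))))))))))))) (.nd (.nd .leaf (nat_lit 96258) (nat_lit 378) (.p (nat_lit 179) (nat_lit 150) (.n (nat_lit 180) (nat_lit 138) (.p (nat_lit 181) (nat_lit 42) (.n (nat_lit 182) (nat_lit 126) (.p (nat_lit 183)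 (nat_lit 6) (.p (nat_lit 185) (nat_lit 84) (.n (nat_lit 186) (nat_lit 138) (.n (nat_lit 187) (nat_lit 156) (.n (nat_lit 188) (nat_lit 150) (.p (nat_lit 189) (nat_lit 12) (.p (nat_lit 190) (nat_lit 60) (.n (nat_lit 191) (nat_lit 156) (.n (nat_lit 192) (nat_lit 132) (.n (nat_lit 193) (nat_lit 114) (.n (nat_lit 194) (nat_lit 60) (.p (nat_lit 195) (nat_lit 132) (.n (nat_lit 196) (nat_lit 18) (.n (nat_lit 197) (nat_lit 102) (.p (nat_lit 198) (nat_lit 78) (.n (nat_lit 199) (nat_lit 186) (.n (nat_lit 200) (nat_lit 192) (.n (nat_lit 201) (nat_lit 48) .z)))))))))))))))))))))) (.ct dF6aa_c291 (nat_lit 36) (nat_lit 8) (.s false (nat_lit 1) (nat_lit 7) (nat_lit 6) (nat_lit 2) (nat_lit 1) true (nat_lit 1) true (nat_lit 9) true (nat_lit 4) true (nat_lit 5) true (nat_lit 8) (.s true (nat_lit 1) (nat_lit 16) (nat_lit 2) (nat_lit 1) (nat_lit 2) true (nat_lit 3) true (nat_lit 8) true (nat_lit 1) true (nat_lit 8) true (nat_lit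 9) (.e false (nat_lit 36) (nat_lit 106) (nat_lit 1) (nat_lit 9) (.e false (nat_lit 36) (nat_lit 110) (nat_lit 1) (nat_lit 9) (.e true (nat_lit 36) (nat_lit 111) (nat_lit 1) (nat_lit 9) (.e false (nat_lit 36) (nat_lit 46) (nat_lit 7) (nat_lit 4) (.e true (nat_lit 36) (nat_lit 87) (nat_lit 2) (nat_lit 8) (.e false (nat_lit 36) (nat_lit 88) (nat_lit 2) (nat_lit 8) (.e true (nat_lit 108) (nat_lit 89) (nat_lit 2) (nat_lit 8) (.e false (nat_lit 36) (nat_lit 90) (nat_lit 2) (nat_lit 8) (.e false (nat_lit 36) (nat_lit 91) (nat_lit 2) (nat_lit 8) (.e false (nat_lit 36) (nat_lit 95) (nat_lit 2) (nat_lit 8) (.e false (nat_lit 72) (nat_lit 98) (nat_lit 2) (nat_lit 8) (.e true (nat_lit 72) (nat_lit 99) (nat_lit 2) (nat_lit 8) (.e true (nat_lit 36) (nat_lit 37) (nat_lit 8) (nat_lit 3) (.e true (nat_lit 36) (nat_lit 92) (nat_lit 2) (nat_lit 8) (.e true (nat_lit 36) (nat_lit 93) (nat_lit 2) (nat_lit 8) .nil))))))))))))))))))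 .leaf) (nat_lit 97280) (nat_lit 217) (.p (nat_lit 148) (nat_lit 36) .z) .df .leaf)) (nat_lit 97282) (nat_lit 374) (.n (nat_lit 179) (nat_lit 24) (.p (nat_lit 180) (nat_lit 48) (.n (nat_lit 181) (nat_lit 24) (.p (nat_lit 182) (nat_lit 36) (.n (nat_lit 183) (nat_lit 24) (.n (nat_lit 185) (nat_lit 48) (.p (nat_lit 186) (nat_lit 48) (.p (nat_lit 187) (nat_lit 12) (.n (nat_lit 188) (nat_lit 12) (.p (nat_lit 189) (nat_lit 24) (.n (nat_lit 190) (nat_lit 24) (.p (nat_lit 191) (nat_lit 48) (.p (nat_lit 192) (nat_lit 24) (.p (nat_lit 193) (nat_lit 24) (.p (nat_lit 194) (nat_lit 24) (.n (nat_lit 195) (nat_lit 24) (.p (nat_lit 197) (nat_lit 12) (.n (nat_lit 198) (nat_lit 60) (.p (nat_lit 199) (nat_lit 24) (.p (nat_lit 200) (nat_lit 48) (.n (nat_lit 201) (nat_lit 24) .z))))))))))))))))))))) (.ct dF6aa_c291 (nat_lit 36) (nat_lit 8) (.s false (nat_lit 1) (nat_lit 7) (nat_lit 0) (nat_lit 7) (nat_lit 2) true (nat_lit 5) true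 (nat_lit 8) true (nat_lit 4) true (nat_lit 10) true (nat_lit 4) (.s false (nat_lit 1) (nat_lit 7) (nat_lit 2) (nat_lit 2) (nat_lit 4) true (nat_lit 1) true (nat_lit 7) true (nat_lit 4) true (nat_lit 8) true (nat_lit 8) (.s true (nat_lit 1) (nat_lit 7) (nat_lit 4) (nat_lit 2) (nat_lit 2) true (nat_lit 1) true (nat_lit 8) true (nat_lit 4) true (nat_lit 7) true (nat_lit 8) (.s false (nat_lit 1) (nat_lit 7) (nat_lit 6) (nat_lit 2) (nat_lit 1) true (nat_lit 1) true (nat_lit 9) true (nat_lit 4) true (nat_lit 5) true (nat_lit 8) (.s true (nat_lit 1) (nat_lit 8) (nat_lit 0) (nat_lit 7) (nat_lit 1) true (nat_lit 7) true (nat_lit 9) true (nat_lit 3) true (nat_lit 10) true (nat_lit 4) (.s true (nat_lit 1) (nat_lit 16) (nat_lit 2) (nat_lit 2) (nat_lit 1) true (nat_lit 4) true (nat_lit 9) true (nat_lit 1) true (nat_lit 8) true (nat_lit 8) (.s true (nat_lit 1) (nat_lit 22) (nat_lit 0) (nat_lit 2) (nat_lit 1) true (nat_lit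 7) true (nat_lit 9) false (nat_lit 1) true (nat_lit 10) true (nat_lit 8) (.s false (nat_lit 1) (nat_lit 23) (nat_lit 2) (nat_lit 0) (nat_lit 1) true (nat_lit 4) true (nat_lit 9) false (nat_lit 1) true (nat_lit 8) true (nat_lit 10) (.e true (nat_lit 36) (nat_lit 90) (nat_lit 2) (nat_lit 8) (.e false (nat_lit 36) (nat_lit 93) (nat_lit 2) (nat_lit 8) (.e false (nat_lit 72) (nat_lit 97) (nat_lit 2) (nat_lit 8) (.e false (nat_lit 72) (nat_lit 99) (nat_lit 2) (nat_lit 8) (.e true (nat_lit 36) (nat_lit 118) (nat_lit 0) (nat_lit 10) (.e true (nat_lit 36) (nat_lit 119) (nat_lit 0) (nat_lit 10) (.e true (nat_lit 36) (nat_lit 43) (nat_lit 7) (nat_lit 4) (.e false (nat_lit 36) (nat_lit 92) (nat_lit 2) (nat_lit 8) (.e true (nat_lit 36) (nat_lit 106) (nat_lit 1) (nat_lit 9) (.e false (nat_lit 36) (nat_lit 115) (nat_lit 1) (nat_lit 9) (.e false (nat_lit 36) (nat_lit 38) (nat_lit 8) (nat_lit 3) (.e false (nat_lit 36) (nat_lit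 122) (nat_lit 0) (nat_lit 10) (.e false (nat_lit 36) (nat_lit 117) (nat_lit 0) (nat_lit 10) .nil)))))))))))))))))))))) (.nd (.nd (.nd .leaf (nat_lit 98304) (nat_lit 255) (.n (nat_lit 123) (nat_lit 376) (.p (nat_lit 124) (nat_lit 160) (.n (nat_lit 125) (nat_lit 72) (.n (nat_lit 126) (nat_lit 296) (.n (nat_lit 127) (nat_lit 76) (.p (nat_lit 128) (nat_lit 404) (.n (nat_lit 129) (nat_lit 272) (.p (nat_lit 130) (nat_lit 376) (.n (nat_lit 131) (nat_lit 572) (.p (nat_lit 132) (nat_lit 376) (.p (nat_lit 133) (nat_lit 252) (.n (nat_lit 134) (nat_lit 228) (.n (nat_lit 135) (nat_lit 144) (.p (nat_lit 136) (nat_lit 856) (.n (nat_lit 137) (nat_lit 288) (.p (nat_lit 138) (nat_lit 1208) (.n (nat_lit 139) (nat_lit 544) (.p (nat_lit 140) (nat_lit 144) (.n (nat_lit 141) (nat_lit 352) (.p (nat_lit 142) (nat_lit 1016) (.n (nat_lit 143) (nat_lit 856) (.n (nat_lit 144) (nat_lit 932) (.n (nat_lit 145) (nat_lit 932) (.p (nat_lit 146)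 (nat_lit 932) (.p (nat_lit 148) (nat_lit 276) (.p (nat_lit 149) (nat_lit 752) (.n (nat_lit 150) (nat_lit 932) (.p (nat_lit 151) (nat_lit 60) (.p (nat_lit 152) (nat_lit 336) (.p (nat_lit 153) (nat_lit 432) (.p (nat_lit 155) (nat_lit 552) .z))))))))))))))))))))))))))))))) (.ct dF6aa_c546 (nat_lit 36) (nat_lit 12) (.s false (nat_lit 1) (nat_lit 11) (nat_lit 2) (nat_lit 2) (nat_lit 0) true (nat_lit 6) true (nat_lit 12) true (nat_lit 2) true (nat_lit 10) true (nat_lit 10) (.s true (nat_lit 1) (nat_lit 21) (nat_lit 0) (nat_lit 1) (nat_lit 1) true (nat_lit 8) true (nat_lit 11) false (nat_lit 2) true (nat_lit 12) true (nat_lit 11) (.e false (nat_lit 36) (nat_lit 34) (nat_lit 6) (nat_lit 6) (.e false (nat_lit 36) (nat_lit 86) (nat_lit 0) (nat_lit 12) (.e false (nat_lit 36) (nat_lit 59) (nat_lit 2) (nat_lit 10) (.e true (nat_lit 36) (nat_lit 61) (nat_lit 2) (nat_lit 10) (.e true (nat_lit 36) (nat_lit 66) (nat_lit 2)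 (nat_lit 10) (.e false (nat_lit 36) (nat_lit 71) (nat_lit 2) (nat_lit 10) (.e true (nat_lit 36) (nat_lit 47) (nat_lit 4) (nat_lit 8) (.e false (nat_lit 36) (nat_lit 77) (nat_lit 1) (nat_lit 11) (.e true (nat_lit 36) (nat_lit 78) (nat_lit 1) (nat_lit 11) (.e true (nat_lit 36) (nat_lit 79) (nat_lit 1) (nat_lit 11) (.e false (nat_lit 108) (nat_lit 87) (nat_lit 0) (nat_lit 12) (.e true (nat_lit 72) (nat_lit 88) (nat_lit 0) (nat_lit 12) (.e false (nat_lit 72) (nat_lit 89) (nat_lit 0) (nat_lit 12) (.e true (nat_lit 72) (nat_lit 90) (nat_lit 0) (nat_lit 12) (.e true (nat_lit 36) (nat_lit 92) (nat_lit 0) (nat_lit 12) (.e true (nat_lit 36) (nat_lit 93) (nat_lit 0) (nat_lit 12) (.e false (nat_lit 72) (nat_lit 97) (nat_lit 0) (nat_lit 12) (.e true (nat_lit 36) (nat_lit 99) (nat_lit 0) (nat_lit 12) (.e false (nat_lit 36) (nat_lit 83) (nat_lit 1) (nat_lit 11) .nil)))))))))))))))))))))) .leaf) (nat_lit 98306) (nat_lit 367)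 (.n (nat_lit 179) (nat_lit 111) (.p (nat_lit 180) (nat_lit 69) (.n (nat_lit 181) (nat_lit 39) (.p (nat_lit 182) (nat_lit 153) (.n (nat_lit 183) (nat_lit 39) (.n (nat_lit 185) (nat_lit 6) (.p (nat_lit 186) (nat_lit 69) (.p (nat_lit 187) (nat_lit 60) (.p (nat_lit 188) (nat_lit 21) (.p (nat_lit 189) (nat_lit 12) (.n (nat_lit 190) (nat_lit 12) (.p (nat_lit 191) (nat_lit 114) (.p (nat_lit 192) (nat_lit 84) (.p (nat_lit 193) (nat_lit 111) (.p (nat_lit 194) (nat_lit 48) (.n (nat_lit 195) (nat_lit 120) (.p (nat_lit 196) (nat_lit 27) (.p (nat_lit 197) (nat_lit 51) (.n (nat_lit 198) (nat_lit 129) (.p (nat_lit 199) (nat_lit 93) (.p (nat_lit 200) (nat_lit 132) (.p (nat_lit 201) (nat_lit 78) .z)))))))))))))))))))))) (.ct dF6aa_c291 (nat_lit 2985984) (nat_lit 8) (.s true (nat_lit 10368) (nat_lit 6) (nat_lit 5) (nat_lit 2) (nat_lit 2) true (nat_lit 0) true (nat_lit 8) true (nat_lit 5) true (nat_lit 6) true (nat_lit 8) (.s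 true (nat_lit 25920) (nat_lit 7) (nat_lit 0) (nat_lit 2) (nat_lit 7) true (nat_lit 1) true (nat_lit 4) true (nat_lit 4) true (nat_lit 10) true (nat_lit 8) (.s true (nat_lit 209952) (nat_lit 7) (nat_lit 0) (nat_lit 7) (nat_lit 2) true (nat_lit 5) true (nat_lit 8) true (nat_lit 4) true (nat_lit 10) true (nat_lit 4) (.s true (nat_lit 173664) (nat_lit 7) (nat_lit 1) (nat_lit 6) (nat_lit 2) true (nat_lit 4) true (nat_lit 8) true (nat_lit 4) true (nat_lit 9) true (nat_lit 5) (.s true (nat_lit 145152) (nat_lit 7) (nat_lit 2) (nat_lit 2) (nat_lit 4) true (nat_lit 1) true (nat_lit 7) true (nat_lit 4) true (nat_lit 8) true (nat_lit 8) (.s false (nat_lit 194400) (nat_lit 7) (nat_lit 2) (nat_lit 6) (nat_lit 1) true (nat_lit 4) true (nat_lit 9) true (nat_lit 4) true (nat_lit 8) true (nat_lit 5) (.s false (nat_lit 20736) (nat_lit 7) (nat_lit 4) (nat_lit 2) (nat_lit 2) true (nat_lit 1) true (nat_lit 8) true (nat_lit 4) true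 (nat_lit 7) true (nat_lit 8) (.s false (nat_lit 103680) (nat_lit 7) (nat_lit 6) (nat_lit 2) (nat_lit 1) true (nat_lit 1) true (nat_lit 9) true (nat_lit 4) true (nat_lit 5) true (nat_lit 8) (.s true (nat_lit 6480) (nat_lit 8) (nat_lit 0) (nat_lit 1) (nat_lit 7) true (nat_lit 1) true (nat_lit 4) true (nat_lit 3) true (nat_lit 10) true (nat_lit 9) dF6aa_i37)))))))))) .leaf) (nat_lit 99328) (nat_lit 218) (.p (nat_lit 149) (nat_lit 36) .z) .df (.nd (.nd .leaf (nat_lit 99330) (nat_lit 346) (.p (nat_lit 184) (nat_lit 36) .z) .df .leaf) (nat_lit 100352) (nat_lit 227) (.n (nat_lit 123) (nat_lit 236) (.p (nat_lit 124) (nat_lit 92) (.n (nat_lit 125) (nat_lit 36) (.n (nat_lit 126) (nat_lit 244) (.n (nat_lit 127) (nat_lit 140) (.p (nat_lit 128) (nat_lit 280) (.n (nat_lit 129) (nat_lit 160) (.p (nat_lit 130) (nat_lit 236) (.n (nat_lit 131) (nat_lit 364) (.p (nat_lit 132) (nat_lit 236) (.p (nat_lit 133) (nat_lit 180) (.n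 (nat_lit 134) (nat_lit 132) (.n (nat_lit 135) (nat_lit 108) (.p (nat_lit 136) (nat_lit 620) (.n (nat_lit 137) (nat_lit 144) (.p (nat_lit 138) (nat_lit 844) (.n (nat_lit 139) (nat_lit 392) (.p (nat_lit 140) (nat_lit 108) (.n (nat_lit 141) (nat_lit 260) (.p (nat_lit 142) (nat_lit 712) (.n (nat_lit 143) (nat_lit 620) (.n (nat_lit 144) (nat_lit 616) (.n (nat_lit 145) (nat_lit 616) (.p (nat_lit 146) (nat_lit 616) (.p (nat_lit 148) (nat_lit 192) (.p (nat_lit 149) (nat_lit 508) (.n (nat_lit 150) (nat_lit 616) (.p (nat_lit 151) (nat_lit 48) (.p (nat_lit 152) (nat_lit 276) (.p (nat_lit 153) (nat_lit 252) (.p (nat_lit 155) (nat_lit 384) .z))))))))))))))))))))))))))))))) (.ct dF6aa_c546 (nat_lit 104976) (nat_lit 12) (.s true (nat_lit 12960) (nat_lit 4) (nat_lit 2) (nat_lit 2) (nat_lit 4) true (nat_lit 0) true (nat_lit 8) true (nat_lit 8) true (nat_lit 10) true (nat_lit 10) (.s true (nat_lit 4860) (nat_lit 6) (nat_lit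 1) (nat_lit 1) (nat_lit 6) true (nat_lit 0) true (nat_lit 6) true (nat_lit 6) true (nat_lit 11) true (nat_lit 11) dF6aa_i5))) .leaf))) (nat_lit 100354) (nat_lit 347) (.p (nat_lit 185) (nat_lit 36) .z) .df (.nd (.nd (.nd (.nd .leaf (nat_lit 101376) (nat_lit 219) (.p (nat_lit 150) (nat_lit 36) .z) .df .leaf) (nat_lit 101378) (nat_lit 348) (.p (nat_lit 186) (nat_lit 36) .z) .df .leaf) (nat_lit 102401) (nat_lit 309) (.n (nat_lit 156) (nat_lit 288) (.p (nat_lit 157) (nat_lit 396) (.p (nat_lit 158) (nat_lit 756) (.n (nat_lit 160) (nat_lit 180) (.p (nat_lit 161) (nat_lit 144) (.n (nat_lit 162) (nat_lit 648) (.n (nat_lit 163) (nat_lit 144) (.n (nat_lit 164) (nat_lit 180) (.n (nat_lit 166) (nat_lit 216) (.p (nat_lit 167) (nat_lit 144) (.n (nat_lit 169) (nat_lit 252) (.p (nat_lit 170) (nat_lit 396) (.n (nat_lit 171) (nat_lit 72) (.n (nat_lit 172) (nat_lit 144) (.p (nat_lit 174) (nat_lit 252) (.n (nat_lit 175) (nat_lit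 324) (.n (nat_lit 176) (nat_lit 72) (.p (nat_lit 177) (nat_lit 180) .z)))))))))))))))))) (.ct dF6aa_c531 (nat_lit 36) (nat_lit 9) (.s false (nat_lit 1) (nat_lit 6) (nat_lit 1) (nat_lit 2) (nat_lit 6) true (nat_lit 0) true (nat_lit 5) true (nat_lit 5) true (nat_lit 9) true (nat_lit 8) (.s false (nat_lit 2) (nat_lit 6) (nat_lit 1) (nat_lit 6) (nat_lit 2) true (nat_lit 4) true (nat_lit 8) true (nat_lit 5) true (nat_lit 9) true (nat_lit 5) (.s false (nat_lit 1) (nat_lit 6) (nat_lit 4) (nat_lit 2) (nat_lit 2) true (nat_lit 0) true (nat_lit 8) true (nat_lit 5) true (nat_lit 6) true (nat_lit 8) (.s true (nat_lit 1) (nat_lit 7) (nat_lit 0) (nat_lit 2) (nat_lit 6) true (nat_lit 1) true (nat_lit 5) true (nat_lit 4) true (nat_lit 10) true (nat_lit 8) (.s false (nat_lit 1) (nat_lit 7) (nat_lit 0) (nat_lit 6) (nat_lit 2) true (nat_lit 5) true (nat_lit 8) true (nat_lit 4) true (nat_lit 10) true (nat_lit 5) (.s true (nat_lit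 1) (nat_lit 8) (nat_lit 0) (nat_lit 2) (nat_lit 4) true (nat_lit 2) true (nat_lit 6) true (nat_lit 3) true (nat_lit 10) true (nat_lit 8) (.s false (nat_lit 1) (nat_lit 8) (nat_lit 4) (nat_lit 2) (nat_lit 0) true (nat_lit 2) true (nat_lit 10) true (nat_lit 3) true (nat_lit 6) true (nat_lit 8) (.s true (nat_lit 1) (nat_lit 8) (nat_lit 6) (nat_lit 0) (nat_lit 1) true (nat_lit 0) true (nat_lit 9) true (nat_lit 3) true (nat_lit 5) true (nat_lit 10) dF6aa_i30))))))))) (.nd (.nd .leaf (nat_lit 103425) (nat_lit 305) (.p (nat_lit 156) (nat_lit 756) (.n (nat_lit 157) (nat_lit 792) (.n (nat_lit 158) (nat_lit 1440) (.n (nat_lit 159) (nat_lit 360) (.p (nat_lit 160) (nat_lit 648) (.n (nat_lit 161) (nat_lit 72) (.p (nat_lit 162) (nat_lit 1404) (.p (nat_lit 163) (nat_lit 252) (.p (nat_lit 164) (nat_lit 108) (.n (nat_lit 165) (nat_lit 108) (.p (nat_lit 166) (nat_lit 396) (.n (nat_lit 167) (nat_lit 468) (.p (nat_lit 168) (nat_lit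 180) (.p (nat_lit 169) (nat_lit 180) (.n (nat_lit 170) (nat_lit 432) (.p (nat_lit 171) (nat_lit 432) (.p (nat_lit 172) (nat_lit 576) (.n (nat_lit 173) (nat_lit 360) (.n (nat_lit 174) (nat_lit 324) (.p (nat_lit 175) (nat_lit 612) (.n (nat_lit 176) (nat_lit 216) (.p (nat_lit 177) (nat_lit 360) .z)))))))))))))))))))))) (.ct dF6aa_c531 (nat_lit 54) (nat_lit 9) (.s true (nat_lit 1) (nat_lit 6) (nat_lit 1) (nat_lit 6) (nat_lit 2) true (nat_lit 4) true (nat_lit 8) true (nat_lit 5) true (nat_lit 9) true (nat_lit 5) (.s false (nat_lit 1) (nat_lit 7) (nat_lit 0) (nat_lit 2) (nat_lit 6) true (nat_lit 1) true (nat_lit 5) true (nat_lit 4) true (nat_lit 10) true (nat_lit 8) (.s false (nat_lit 1) (nat_lit 8) (nat_lit 6) (nat_lit 0) (nat_lit 1) true (nat_lit 0) true (nat_lit 9) true (nat_lit 3) true (nat_lit 5) true (nat_lit 10) dF6aa_i28)))) .leaf) (nat_lit 104449) (nat_lit 288) (.p (nat_lit 167) (nat_lit 36) .z) .df .leaf))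 (nat_lit 105473) (nat_lit 289) (.p (nat_lit 168) (nat_lit 36) .z) .df (.nd (.nd (.nd .leaf (nat_lit 106497) (nat_lit 304) (.p (nat_lit 156) (nat_lit 540) (.n (nat_lit 157) (nat_lit 648) (.n (nat_lit 158) (nat_lit 1224) (.n (nat_lit 159) (nat_lit 144) (.p (nat_lit 160) (nat_lit 360) (.n (nat_lit 161) (nat_lit 144) (.p (nat_lit 162) (nat_lit 1188) (.p (nat_lit 163) (nat_lit 252) (.p (nat_lit 164) (nat_lit 180) (.n (nat_lit 165) (nat_lit 36) (.p (nat_lit 166) (nat_lit 324) (.n (nat_lit 167) (nat_lit 360) (.p (nat_lit 168) (nat_lit 72) (.p (nat_lit 169) (nat_lit 252) (.n (nat_lit 170) (nat_lit 576) (.p (nat_lit 171) (nat_lit 360) (.p (nat_lit 172) (nat_lit 432) (.n (nat_lit 173) (nat_lit 144) (.n (nat_lit 174) (nat_lit 396) (.p (nat_lit 175) (nat_lit 612) (.n (nat_lit 176) (nat_lit 72) .z))))))))))))))))))))) (.ct dF6aa_c531 (nat_lit 559872) (nat_lit 9) (.s false (nat_lit 46656) (nat_lit 6) (nat_lit 1) (nat_lit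 2) (nat_lit 6) true (nat_lit 0) true (nat_lit 5) true (nat_lit 5) true (nat_lit 9) true (nat_lit 8) (.s false (nat_lit 124416) (nat_lit 6) (nat_lit 1) (nat_lit 6) (nat_lit 2) true (nat_lit 4) true (nat_lit 8) true (nat_lit 5) true (nat_lit 9) true (nat_lit 5) (.s true (nat_lit 23328) (nat_lit 6) (nat_lit 4) (nat_lit 2) (nat_lit 2) true (nat_lit 0) true (nat_lit 8) true (nat_lit 5) true (nat_lit 6) true (nat_lit 8) (.s true (nat_lit 77760) (nat_lit 7) (nat_lit 0) (nat_lit 2) (nat_lit 6) true (nat_lit 1) true (nat_lit 5) true (nat_lit 4) true (nat_lit 10) true (nat_lit 8) (.s false (nat_lit 46656) (nat_lit 7) (nat_lit 0) (nat_lit 6) (nat_lit 2) true (nat_lit 5) true (nat_lit 8) true (nat_lit 4) true (nat_lit 10) true (nat_lit 5) (.s true (nat_lit 3888) (nat_lit 8) (nat_lit 0) (nat_lit 2) (nat_lit 4) true (nat_lit 2) true (nat_lit 6) true (nat_lit 3) true (nat_lit 10) true (nat_lit 8) (.s true (nat_lit 42768)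 (nat_lit 8) (nat_lit 2) (nat_lit 4) (nat_lit 0) true (nat_lit 5) true (nat_lit 10) true (nat_lit 3) true (nat_lit 8) true (nat_lit 6) (.s true (nat_lit 3888) (nat_lit 8) (nat_lit 4) (nat_lit 0) (nat_lit 2) true (nat_lit 0) true (nat_lit 8) true (nat_lit 3) true (nat_lit 6) true (nat_lit 10) (.s true (nat_lit 19440) (nat_lit 8) (nat_lit 4) (nat_lit 2) (nat_lit 0) true (nat_lit 2) true (nat_lit 10) true (nat_lit 3) true (nat_lit 6) true (nat_lit 8) (.s true (nat_lit 31104) (nat_lit 8) (nat_lit 6) (nat_lit 0) (nat_lit 1) true (nat_lit 0) true (nat_lit 9) true (nat_lit 3) true (nat_lit 5) true (nat_lit 10) (.s false (nat_lit 46656) (nat_lit 14) (nat_lit 1) (nat_lit 2) (nat_lit 2) true (nat_lit 4) true (nat_lit 8) true (nat_lit 1) true (nat_lit 9) true (nat_lit 8) (.s false (nat_lit 31104) (nat_lit 14) (nat_lit 2) (nat_lit 1) (nat_lit 2) true (nat_lit 3) true (nat_lit 8) true (nat_lit 1) true (nat_lit 8) true (nat_lit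 9) (.s false (nat_lit 3888) (nat_lit 15) (nat_lit 0) (nat_lit 2) (nat_lit 2) true (nat_lit 5) true (nat_lit 8) true (nat_lit 0) true (nat_lit 10) true (nat_lit 8) (.s true (nat_lit 27216) (nat_lit 15) (nat_lit 2) (nat_lit 0) (nat_lit 2) true (nat_lit 3) true (nat_lit 8) true (nat_lit 0) true (nat_lit 8) true (nat_lit 10) (.s true (nat_lit 34992) (nat_lit 15) (nat_lit 2) (nat_lit 2) (nat_lit 0) true (nat_lit 5) true (nat_lit 10) true (nat_lit 0) true (nat_lit 8) true (nat_lit 8) (.s true (nat_lit 46656) (nat_lit 20) (nat_lit 0) (nat_lit 1) (nat_lit 2) true (nat_lit 5) true (nat_lit 8) false (nat_lit 0) true (nat_lit 10) true (nat_lit 9) (.s false (nat_lit 46656) (nat_lit 21) (nat_lit 0) (nat_lit 2) (nat_lit 1) true (nat_lit 6) true (nat_lit 9) false (nat_lit 0) true (nat_lit 10) true (nat_lit 8) (.s false (nat_lit 46656) (nat_lit 20) (nat_lit 1) (nat_lit 0) (nat_lit 2) true (nat_lit 4) true (nat_lit 8) false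 (nat_lit 0) true (nat_lit 9) true (nat_lit 10) (.s false (nat_lit 15552) (nat_lit 21) (nat_lit 1) (nat_lit 0) (nat_lit 2) true (nat_lit 4) true (nat_lit 8) false (nat_lit 0) true (nat_lit 9) true (nat_lit 10) (.s true (nat_lit 46656) (nat_lit 20) (nat_lit 2) (nat_lit 0) (nat_lit 1) true (nat_lit 4) true (nat_lit 9) false (nat_lit 0) true (nat_lit 8) true (nat_lit 10) dF6aa_i27))))))))))))))))))))) .leaf) (nat_lit 107521) (nat_lit 290) (.p (nat_lit 169) (nat_lit 36) .z) .df .leaf) (nat_lit 108544) (nat_lit 291) (.p (nat_lit 170) (nat_lit 36) .z) .df (.nd (.nd .leaf (nat_lit 108545) (nat_lit 366) (.n (nat_lit 179) (nat_lit 90) (.p (nat_lit 180) (nat_lit 54) (.n (nat_lit 181) (nat_lit 18) (.p (nat_lit 182) (nat_lit 90) (.n (nat_lit 183) (nat_lit 54) (.n (nat_lit 185) (nat_lit 36) (.p (nat_lit 186) (nat_lit 54) (.p (nat_lit 187) (nat_lit 144) (.p (nat_lit 188) (nat_lit 90) (.n (nat_lit 190) (nat_lit 72) (.p (nat_lit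 191) (nat_lit 180) (.p (nat_lit 192) (nat_lit 72) (.p (nat_lit 193) (nat_lit 90) (.p (nat_lit 194) (nat_lit 36) (.n (nat_lit 195) (nat_lit 108) (.p (nat_lit 196) (nat_lit 18) (.p (nat_lit 197) (nat_lit 54) (.n (nat_lit 198) (nat_lit 54) (.p (nat_lit 199) (nat_lit 90) (.p (nat_lit 200) (nat_lit 144) (.p (nat_lit 201) (nat_lit 36) .z))))))))))))))))))))) (.ct dF6aa_c291 (nat_lit 1119744) (nat_lit 9) (.s false (nat_lit 31104) (nat_lit 6) (nat_lit 5) (nat_lit 2) (nat_lit 2) true (nat_lit 0) true (nat_lit 8) true (nat_lit 5) true (nat_lit 6) true (nat_lit 8) (.s false (nat_lit 139968) (nat_lit 7) (nat_lit 0) (nat_lit 2) (nat_lit 7) true (nat_lit 1) true (nat_lit 4) true (nat_lit 4) true (nat_lit 10) true (nat_lit 8) (.s true (nat_lit 241056) (nat_lit 7) (nat_lit 0) (nat_lit 7) (nat_lit 2) true (nat_lit 5) true (nat_lit 8) true (nat_lit 4) true (nat_lit 10) true (nat_lit 4) dF6aa_i35)))) .leaf) (nat_lit 109568) (nat_lit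 292) (.p (nat_lit 171) (nat_lit 36) .z) .df .leaf)))) (nat_lit 109569) (nat_lit 349) (.p (nat_lit 187) (nat_lit 36) .z) .df (.nd (.nd (.nd (.nd (.nd .leaf (nat_lit 110592) (nat_lit 293) (.p (nat_lit 172) (nat_lit 36) .z) .df .leaf) (nat_lit 110593) (nat_lit 350) (.p (nat_lit 188) (nat_lit 36) .z) .df (.nd .leaf (nat_lit 111616) (nat_lit 303) (.p (nat_lit 156) (nat_lit 252) (.n (nat_lit 157) (nat_lit 360) (.n (nat_lit 158) (nat_lit 720) (.p (nat_lit 159) (nat_lit 72) (.p (nat_lit 160) (nat_lit 144) (.n (nat_lit 161) (nat_lit 144) (.p (nat_lit 162) (nat_lit 648) (.p (nat_lit 163) (nat_lit 144) (.p (nat_lit 164) (nat_lit 108) (.p (nat_lit 166) (nat_lit 216) (.n (nat_lit 167) (nat_lit 72) (.n (nat_lit 168) (nat_lit 36) (.p (nat_lit 169) (nat_lit 252) (.n (nat_lit 170) (nat_lit 432) (.p (nat_lit 171) (nat_lit 144) (.p (nat_lit 172) (nat_lit 144) (.p (nat_lit 173) (nat_lit 36) (.n (nat_lit 174) (nat_lit 288) (.p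 (nat_lit 175) (nat_lit 324) (.p (nat_lit 176) (nat_lit 72) (.n (nat_lit 177) (nat_lit 180) .z))))))))))))))))))))) (.ct dF6aa_c531 (nat_lit 36) (nat_lit 10) (.s true (nat_lit 1) (nat_lit 6) (nat_lit 1) (nat_lit 2) (nat_lit 6) true (nat_lit 0) true (nat_lit 5) true (nat_lit 5) true (nat_lit 9) true (nat_lit 8) (.s false (nat_lit 5) (nat_lit 6) (nat_lit 1) (nat_lit 6) (nat_lit 2) true (nat_lit 4) true (nat_lit 8) true (nat_lit 5) true (nat_lit 9) true (nat_lit 5) (.s true (nat_lit 3) (nat_lit 7) (nat_lit 0) (nat_lit 2) (nat_lit 6) true (nat_lit 1) true (nat_lit 5) true (nat_lit 4) true (nat_lit 10) true (nat_lit 8) (.s false (nat_lit 1) (nat_lit 7) (nat_lit 2) (nat_lit 6) (nat_lit 0) true (nat_lit 5) true (nat_lit 10) true (nat_lit 4) true (nat_lit 8) true (nat_lit 5) (.s true (nat_lit 2) (nat_lit 8) (nat_lit 2) (nat_lit 4) (nat_lit 0) true (nat_lit 5) true (nat_lit 10) true (nat_lit 3) true (nat_lit 8) true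 (nat_lit 6) (.s true (nat_lit 2) (nat_lit 8) (nat_lit 6) (nat_lit 0) (nat_lit 1) true (nat_lit 0) true (nat_lit 9) true (nat_lit 3) true (nat_lit 5) true (nat_lit 10) (.s false (nat_lit 2) (nat_lit 14) (nat_lit 2) (nat_lit 1) (nat_lit 2) true (nat_lit 3) true (nat_lit 8) true (nat_lit 1) true (nat_lit 8) true (nat_lit 9) (.s false (nat_lit 3) (nat_lit 15) (nat_lit 0) (nat_lit 2) (nat_lit 2) true (nat_lit 5) true (nat_lit 8) true (nat_lit 0) true (nat_lit 10) true (nat_lit 8) (.s true (nat_lit 2) (nat_lit 15) (nat_lit 2) (nat_lit 0) (nat_lit 2) true (nat_lit 3) true (nat_lit 8) true (nat_lit 0) true (nat_lit 8) true (nat_lit 10) (.s true (nat_lit 2) (nat_lit 17) (nat_lit 2) (nat_lit 2) (nat_lit 0) true (nat_lit 5) true (nat_lit 10) true (nat_lit 0) true (nat_lit 8) true (nat_lit 8) (.s true (nat_lit 1) (nat_lit 20) (nat_lit 0) (nat_lit 1) (nat_lit 2) true (nat_lit 5) true (nat_lit 8) false (nat_lit 0) true (nat_lit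 10) true (nat_lit 9) dF6aa_i26)))))))))))) .leaf)) (nat_lit 111617) (nat_lit 351) (.p (nat_lit 189) (nat_lit 36) .z) .df (.nd (.nd .leaf (nat_lit 112640) (nat_lit 316) (.p (nat_lit 156) (nat_lit 252) (.n (nat_lit 157) (nat_lit 252) (.n (nat_lit 158) (nat_lit 396) (.n (nat_lit 159) (nat_lit 216) (.p (nat_lit 160) (nat_lit 252) (.p (nat_lit 162) (nat_lit 396) (.p (nat_lit 163) (nat_lit 108) (.p (nat_lit 164) (nat_lit 72) (.n (nat_lit 165) (nat_lit 36) (.p (nat_lit 166) (nat_lit 108) (.n (nat_lit 167) (nat_lit 216) (.p (nat_lit 168) (nat_lit 108) (.n (nat_lit 169) (nat_lit 36) (.n (nat_lit 170) (nat_lit 72) (.p (nat_lit 171) (nat_lit 108) (.p (nat_lit 172) (nat_lit 180) (.n (nat_lit 173) (nat_lit 144) (.n (nat_lit 174) (nat_lit 36) (.p (nat_lit 175) (nat_lit 180) (.n (nat_lit 176) (nat_lit 144) (.p (nat_lit 177) (nat_lit 180) .z))))))))))))))))))))) (.ct dF6aa_c531 (nat_lit 36) (nat_lit 10) (.s true (nat_lit 1)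 (nat_lit 15) (nat_lit 2) (nat_lit 2) (nat_lit 0) true (nat_lit 5) true (nat_lit 10) true (nat_lit 0) true (nat_lit 8) true (nat_lit 8) (.s false (nat_lit 1) (nat_lit 21) (nat_lit 0) (nat_lit 1) (nat_lit 2) true (nat_lit 5) true (nat_lit 8) false (nat_lit 0) true (nat_lit 10) true (nat_lit 9) (.e true (nat_lit 36) (nat_lit 43) (nat_lit 6) (nat_lit 5) (.e true (nat_lit 108) (nat_lit 106) (nat_lit 0) (nat_lit 10) (.e false (nat_lit 36) (nat_lit 85) (nat_lit 2) (nat_lit 8) (.e false (nat_lit 36) (nat_lit 75) (nat_lit 2) (nat_lit 8) (.e false (nat_lit 36) (nat_lit 47) (nat_lit 6) (nat_lit 5) (.e true (nat_lit 36) (nat_lit 77) (nat_lit 2) (nat_lit 8) (.e false (nat_lit 36) (nat_lit 78) (nat_lit 2) (nat_lit 8) (.e false (nat_lit 36) (nat_lit 79) (nat_lit 2) (nat_lit 8) (.e false (nat_lit 72) (nat_lit 107) (nat_lit 0) (nat_lit 10) (.e false (nat_lit 72) (nat_lit 111) (nat_lit 0) (nat_lit 10) (.e true (nat_lit 36) (nat_lit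 114) (nat_lit 0) (nat_lit 10) (.e false (nat_lit 36) (nat_lit 115) (nat_lit 0) (nat_lit 10) (.e true (nat_lit 36) (nat_lit 103) (nat_lit 1) (nat_lit 9) .nil)))))))))))))))) .leaf) (nat_lit 112641) (nat_lit 352) (.p (nat_lit 190) (nat_lit 36) .z) .df .leaf)) (nat_lit 113664) (nat_lit 294) (.p (nat_lit 173) (nat_lit 36) .z) .df (.nd (.nd (.nd .leaf (nat_lit 113665) (nat_lit 353) (.p (nat_lit 191) (nat_lit 36) .z) .df .leaf) (nat_lit 114688) (nat_lit 310) (.p (nat_lit 156) (nat_lit 432) (.n (nat_lit 157) (nat_lit 576) (.n (nat_lit 158) (nat_lit 1152) (.p (nat_lit 159) (nat_lit 72) (.p (nat_lit 160) (nat_lit 252) (.n (nat_lit 161) (nat_lit 216) (.p (nat_lit 162) (nat_lit 1080) (.p (nat_lit 163) (nat_lit 252) (.p (nat_lit 164) (nat_lit 144) (.n (nat_lit 165) (nat_lit 36) (.p (nat_lit 166) (nat_lit 324) (.n (nat_lit 167) (nat_lit 180) (.n (nat_lit 168) (nat_lit 36) (.p (nat_lit 169) (nat_lit 360) (.n (nat_lit 170)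 (nat_lit 684) (.p (nat_lit 171) (nat_lit 288) (.p (nat_lit 172) (nat_lit 324) (.n (nat_lit 174) (nat_lit 432) (.p (nat_lit 175) (nat_lit 540) (.p (nat_lit 176) (nat_lit 36) (.n (nat_lit 177) (nat_lit 180) .z))))))))))))))))))))) (.ct dF6aa_c531 (nat_lit 36) (nat_lit 10) (.s true (nat_lit 1) (nat_lit 6) (nat_lit 1) (nat_lit 2) (nat_lit 6) true (nat_lit 0) true (nat_lit 5) true (nat_lit 5) true (nat_lit 9) true (nat_lit 8) (.s true (nat_lit 1) (nat_lit 6) (nat_lit 1) (nat_lit 6) (nat_lit 2) true (nat_lit 4) true (nat_lit 8) true (nat_lit 5) true (nat_lit 9) true (nat_lit 5) (.s true (nat_lit 1) (nat_lit 7) (nat_lit 0) (nat_lit 6) (nat_lit 2) true (nat_lit 5) true (nat_lit 8) true (nat_lit 4) true (nat_lit 10) true (nat_lit 5) (.s false (nat_lit 1) (nat_lit 20) (nat_lit 0) (nat_lit 1) (nat_lit 2) true (nat_lit 5) true (nat_lit 8) false (nat_lit 0) true (nat_lit 10) true (nat_lit 9) (.s true (nat_lit 1) (nat_lit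 20) (nat_lit 1) (nat_lit 0) (nat_lit 2) true (nat_lit 4) true (nat_lit 8) false (nat_lit 0) true (nat_lit 9) true (nat_lit 10) (.s false (nat_lit 1) (nat_lit 20) (nat_lit 2) (nat_lit 0) (nat_lit 1) true (nat_lit 4) true (nat_lit 9) false (nat_lit 0) true (nat_lit 8) true (nat_lit 10) (.e true (nat_lit 36) (nat_lit 48) (nat_lit 6) (nat_lit 5) (.e true (nat_lit 18) (nat_lit 101) (nat_lit 1) (nat_lit 9) (.e false (nat_lit 18) (nat_lit 102) (nat_lit 1) (nat_lit 9) (.e true (nat_lit 18) (nat_lit 103) (nat_lit 1) (nat_lit 9) (.e false (nat_lit 18) (nat_lit 104) (nat_lit 1) (nat_lit 9) (.e false (nat_lit 36) (nat_lit 80) (nat_lit 2) (nat_lit 8) (.e false (nat_lit 36) (nat_lit 83) (nat_lit 2) (nat_lit 8) (.e true (nat_lit 36) (nat_lit 84) (nat_lit 2) (nat_lit 8) (.e false (nat_lit 36) (nat_lit 85) (nat_lit 2) (nat_lit 8) (.e true (nat_lit 36) (nat_lit 82) (nat_lit 2) (nat_lit 8) (.e false (nat_lit 36) (nat_lit 41)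 (nat_lit 7) (nat_lit 4) (.e true (nat_lit 36) (nat_lit 116) (nat_lit 0) (nat_lit 10) (.e true (nat_lit 36) (nat_lit 106) (nat_lit 0) (nat_lit 10) (.e false (nat_lit 36) (nat_lit 107) (nat_lit 0) (nat_lit 10) (.e false (nat_lit 36) (nat_lit 108) (nat_lit 0) (nat_lit 10) (.e false (nat_lit 36) (nat_lit 115) (nat_lit 0) (nat_lit 10) .nil))))))))))))))))))))))) .leaf) (nat_lit 114689) (nat_lit 371) (.p (nat_lit 179) (nat_lit 24) (.p (nat_lit 180) (nat_lit 24) (.p (nat_lit 181) (nat_lit 24) (.n (nat_lit 182) (nat_lit 36) (.n (nat_lit 183) (nat_lit 12) (.n (nat_lit 185) (nat_lit 24) (.p (nat_lit 186) (nat_lit 24) (.p (nat_lit 187) (nat_lit 24) (.p (nat_lit 188) (nat_lit 12) (.p (nat_lit 189) (nat_lit 12) (.n (nat_lit 190) (nat_lit 12) (.n (nat_lit 191) (nat_lit 12) (.p (nat_lit 192) (nat_lit 12) (.n (nat_lit 193) (nat_lit 60) (.p (nat_lit 194) (nat_lit 48) (.p (nat_lit 195) (nat_lit 24) (.n (nat_lit 196) (nat_lit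 36) (.n (nat_lit 197) (nat_lit 12) (.p (nat_lit 198) (nat_lit 24) (.p (nat_lit 199) (nat_lit 12) (.p (nat_lit 200) (nat_lit 24) (.n (nat_lit 201) (nat_lit 48) .z)))))))))))))))))))))) (.ct dF6aa_c291 (nat_lit 36) (nat_lit 9) (.s true (nat_lit 1) (nat_lit 7) (nat_lit 0) (nat_lit 2) (nat_lit 7) true (nat_lit 1) true (nat_lit 4) true (nat_lit 4) true (nat_lit 10) true (nat_lit 8) (.s true (nat_lit 1) (nat_lit 7) (nat_lit 1) (nat_lit 6) (nat_lit 2) true (nat_lit 4) true (nat_lit 8) true (nat_lit 4) true (nat_lit 9) true (nat_lit 5) (.s false (nat_lit 1) (nat_lit 7) (nat_lit 6) (nat_lit 2) (nat_lit 1) true (nat_lit 1) true (nat_lit 9) true (nat_lit 4) true (nat_lit 5) true (nat_lit 8) (.s false (nat_lit 1) (nat_lit 16) (nat_lit 2) (nat_lit 2) (nat_lit 1) true (nat_lit 4) true (nat_lit 9) true (nat_lit 1) true (nat_lit 8) true (nat_lit 8) (.s false (nat_lit 1) (nat_lit 22) (nat_lit 0) (nat_lit 1) (nat_lit 2) true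 (nat_lit 5) true (nat_lit 8) false (nat_lit 1) true (nat_lit 10) true (nat_lit 9) (.s true (nat_lit 1) (nat_lit 22) (nat_lit 0) (nat_lit 2) (nat_lit 1) true (nat_lit 7) true (nat_lit 9) false (nat_lit 1) true (nat_lit 10) true (nat_lit 8) dF6aa_i40))))))) (.nd (.nd .leaf (nat_lit 115712) (nat_lit 312) (.p (nat_lit 156) (nat_lit 864) (.n (nat_lit 157) (nat_lit 900) (.n (nat_lit 158) (nat_lit 1692) (.n (nat_lit 159) (nat_lit 360) (.p (nat_lit 160) (nat_lit 684) (.n (nat_lit 161) (nat_lit 108) (.p (nat_lit 162) (nat_lit 1620) (.p (nat_lit 163) (nat_lit 252) (.p (nat_lit 164) (nat_lit 144) (.n (nat_lit 165) (nat_lit 144) (.p (nat_lit 166) (nat_lit 432) (.n (nat_lit 167) (nat_lit 504) (.p (nat_lit 168) (nat_lit 180) (.p (nat_lit 169) (nat_lit 252) (.n (nat_lit 170) (nat_lit 576) (.p (nat_lit 171) (nat_lit 576) (.p (nat_lit 172) (nat_lit 720) (.n (nat_lit 173) (nat_lit 360) (.n (nat_lit 174) (nat_lit 432) (.p (nat_lit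 175) (nat_lit 756) (.n (nat_lit 176) (nat_lit 216) (.p (nat_lit 177) (nat_lit 360) .z)))))))))))))))))))))) (.ct dF6aa_c531 (nat_lit 36) (nat_lit 10) (.s false (nat_lit 1) (nat_lit 7) (nat_lit 0) (nat_lit 6) (nat_lit 2) true (nat_lit 5) true (nat_lit 8) true (nat_lit 4) true (nat_lit 10) true (nat_lit 5) (.s true (nat_lit 1) (nat_lit 7) (nat_lit 6) (nat_lit 0) (nat_lit 2) false (nat_lit 0) true (nat_lit 8) true (nat_lit 4) true (nat_lit 5) true (nat_lit 10) (.s false (nat_lit 1) (nat_lit 17) (nat_lit 2) (nat_lit 0) (nat_lit 2) true (nat_lit 3) true (nat_lit 8) true (nat_lit 0) true (nat_lit 8) true (nat_lit 10) (.e false (nat_lit 36) (nat_lit 48) (nat_lit 6) (nat_lit 5) (.e false (nat_lit 36) (nat_lit 72) (nat_lit 2) (nat_lit 8) (.e false (nat_lit 36) (nat_lit 76) (nat_lit 2) (nat_lit 8) (.e false (nat_lit 36) (nat_lit 78) (nat_lit 2) (nat_lit 8) (.e true (nat_lit 36) (nat_lit 79) (nat_lit 2) (nat_lit 8) (.e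 false (nat_lit 36) (nat_lit 84) (nat_lit 2) (nat_lit 8) (.e true (nat_lit 72) (nat_lit 41) (nat_lit 7) (nat_lit 4) (.e false (nat_lit 36) (nat_lit 107) (nat_lit 0) (nat_lit 10) (.e true (nat_lit 36) (nat_lit 109) (nat_lit 0) (nat_lit 10) (.e false (nat_lit 36) (nat_lit 112) (nat_lit 0) (nat_lit 10) (.e false (nat_lit 36) (nat_lit 33) (nat_lit 8) (nat_lit 3) (.e true (nat_lit 36) (nat_lit 73) (nat_lit 2) (nat_lit 8) (.e true (nat_lit 36) (nat_lit 74) (nat_lit 2) (nat_lit 8) (.e true (nat_lit 36) (nat_lit 108) (nat_lit 0) (nat_lit 10) .nil)))))))))))))))))) .leaf) (nat_lit 115713) (nat_lit 370) (.n (nat_lit 179) (nat_lit 132) (.p (nat_lit 180) (nat_lit 84) (.n (nat_lit 181) (nat_lit 24) (.p (nat_lit 182) (nat_lit 144) (.n (nat_lit 183) (nat_lit 60) (.n (nat_lit 184) (nat_lit 36) (.n (nat_lit 185) (nat_lit 84) (.p (nat_lit 186) (nat_lit 84) (.p (nat_lit 187) (nat_lit 192) (.p (nat_lit 188) (nat_lit 132) (.n (nat_lit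 189) (nat_lit 12) (.n (nat_lit 190) (nat_lit 60) (.p (nat_lit 191) (nat_lit 156) (.p (nat_lit 192) (nat_lit 132) (.p (nat_lit 193) (nat_lit 96) (.p (nat_lit 194) (nat_lit 96) (.n (nat_lit 195) (nat_lit 96) (.p (nat_lit 197) (nat_lit 84) (.n (nat_lit 198) (nat_lit 96) (.p (nat_lit 199) (nat_lit 132) (.p (nat_lit 200) (nat_lit 192) (.p (nat_lit 201) (nat_lit 48) .z)))))))))))))))))))))) (.ct dF6aa_c291 (nat_lit 36) (nat_lit 9) (.s true (nat_lit 1) (nat_lit 16) (nat_lit 1) (nat_lit 2) (nat_lit 2) true (nat_lit 4) true (nat_lit 8) true (nat_lit 1) true (nat_lit 9) true (nat_lit 8) (.s false (nat_lit 1) (nat_lit 16) (nat_lit 2) (nat_lit 1) (nat_lit 2) true (nat_lit 3) true (nat_lit 8) true (nat_lit 1) true (nat_lit 8) true (nat_lit 9) (.e true (nat_lit 36) (nat_lit 44) (nat_lit 7) (nat_lit 4) (.e true (nat_lit 36) (nat_lit 88) (nat_lit 2) (nat_lit 8) (.e true (nat_lit 72) (nat_lit 106) (nat_lit 1) (nat_lit 9) (.e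 false (nat_lit 72) (nat_lit 107) (nat_lit 1) (nat_lit 9) (.e false (nat_lit 36) (nat_lit 108) (nat_lit 1) (nat_lit 9) (.e true (nat_lit 36) (nat_lit 109) (nat_lit 1) (nat_lit 9) (.e true (nat_lit 36) (nat_lit 110) (nat_lit 1) (nat_lit 9) (.e false (nat_lit 36) (nat_lit 111) (nat_lit 1) (nat_lit 9) (.e false (nat_lit 36) (nat_lit 115) (nat_lit 1) (nat_lit 9) (.e false (nat_lit 72) (nat_lit 92) (nat_lit 2) (nat_lit 8) (.e false (nat_lit 36) (nat_lit 37) (nat_lit 8) (nat_lit 3) (.e false (nat_lit 36) (nat_lit 89) (nat_lit 2) (nat_lit 8) (.e false (nat_lit 36) (nat_lit 93) (nat_lit 2) (nat_lit 8) (.e true (nat_lit 36) (nat_lit 97) (nat_lit 2) (nat_lit 8) (.e true (nat_lit 36) (nat_lit 98) (nat_lit 2) (nat_lit 8) (.e false (nat_lit 36) (nat_lit 99) (nat_lit 2) (nat_lit 8) .nil))))))))))))))))))) .leaf))) (nat_lit 116736) (nat_lit 295) (.p (nat_lit 174) (nat_lit 36) .z) .df (.nd (.nd (.nd (.nd .leaf (nat_lit 116737)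 (nat_lit 383) (.p (nat_lit 179) (nat_lit 75) (.n (nat_lit 180) (nat_lit 33) (.p (nat_lit 181) (nat_lit 39) (.n (nat_lit 182) (nat_lit 117) (.p (nat_lit 183) (nat_lit 75) (.p (nat_lit 185) (nat_lit 6) (.n (nat_lit 186) (nat_lit 33) (.n (nat_lit 187) (nat_lit 60) (.n (nat_lit 188) (nat_lit 57) (.n (nat_lit 189) (nat_lit 12) (.p (nat_lit 190) (nat_lit 48) (.n (nat_lit 191) (nat_lit 114) (.n (nat_lit 192) (nat_lit 48) (.n (nat_lit 193) (nat_lit 111) (.n (nat_lit 194) (nat_lit 12) (.p (nat_lit 195) (nat_lit 84) (.n (nat_lit 196) (nat_lit 27) (.n (nat_lit 197) (nat_lit 51) (.p (nat_lit 198) (nat_lit 93) (.n (nat_lit 199) (nat_lit 57) (.n (nat_lit 200) (nat_lit 132) (.n (nat_lit 201) (nat_lit 78) .z)))))))))))))))))))))) (.ct dF6aa_c291 (nat_lit 36) (nat_lit 9) (.s false (nat_lit 1) (nat_lit 16) (nat_lit 2) (nat_lit 2) (nat_lit 1) true (nat_lit 4) true (nat_lit 9) true (nat_lit 1) true (nat_lit 8) true (nat_lit 8)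 (.s true (nat_lit 1) (nat_lit 23) (nat_lit 2) (nat_lit 0) (nat_lit 1) true (nat_lit 4) true (nat_lit 9) false (nat_lit 1) true (nat_lit 8) true (nat_lit 10) (.e false (nat_lit 36) (nat_lit 107) (nat_lit 1) (nat_lit 9) (.e false (nat_lit 36) (nat_lit 93) (nat_lit 2) (nat_lit 8) (.e true (nat_lit 36) (nat_lit 97) (nat_lit 2) (nat_lit 8) (.e true (nat_lit 36) (nat_lit 98) (nat_lit 2) (nat_lit 8) (.e false (nat_lit 72) (nat_lit 43) (nat_lit 7) (nat_lit 4) (.e true (nat_lit 36) (nat_lit 45) (nat_lit 7) (nat_lit 4) (.e true (nat_lit 36) (nat_lit 46) (nat_lit 7) (nat_lit 4) (.e false (nat_lit 36) (nat_lit 47) (nat_lit 7) (nat_lit 4) (.e true (nat_lit 36) (nat_lit 48) (nat_lit 7) (nat_lit 4) (.e false (nat_lit 36) (nat_lit 90) (nat_lit 2) (nat_lit 8) (.e true (nat_lit 36) (nat_lit 91) (nat_lit 2) (nat_lit 8) (.e true (nat_lit 36) (nat_lit 117) (nat_lit 0) (nat_lit 10) (.e false (nat_lit 36) (nat_lit 118) (nat_lit 0)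 (nat_lit 10) (.e false (nat_lit 36) (nat_lit 119) (nat_lit 0) (nat_lit 10) .nil))))))))))))))))) .leaf) (nat_lit 117760) (nat_lit 296) (.p (nat_lit 175) (nat_lit 36) .z) .df .leaf) (nat_lit 117761) (nat_lit 354) (.p (nat_lit 192) (nat_lit 36) .z) .df (.nd (.nd .leaf (nat_lit 118784) (nat_lit 297) (.p (nat_lit 176) (nat_lit 36) .z) .df .leaf) (nat_lit 118785) (nat_lit 384) (.n (nat_lit 179) (nat_lit 141) (.p (nat_lit 180) (nat_lit 75) (.n (nat_lit 181) (nat_lit 33) (.p (nat_lit 182) (nat_lit 171) (.n (nat_lit 183) (nat_lit 33) (.n (nat_lit 184) (nat_lit 72) (.n (nat_lit 185) (nat_lit 102) (.p (nat_lit 186) (nat_lit 75) (.p (nat_lit 187) (nat_lit 120) (.p (nat_lit 188) (nat_lit 87) (.p (nat_lit 189) (nat_lit 24) (.n (nat_lit 190) (nat_lit 60) (.p (nat_lit 191) (nat_lit 174) (.p (nat_lit 192) (nat_lit 96) (.p (nat_lit 193) (nat_lit 141) (.p (nat_lit 194) (nat_lit 60) (.n (nat_lit 195) (nat_lit 96) (.p (nat_lit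 196) (nat_lit 45) (.p (nat_lit 197) (nat_lit 93) (.n (nat_lit 198) (nat_lit 123) (.p (nat_lit 199) (nat_lit 123) (.p (nat_lit 200) (nat_lit 156) (.p (nat_lit 201) (nat_lit 66) .z))))))))))))))))))))))) (.ct dF6aa_c291 (nat_lit 36) (nat_lit 9) (.s false (nat_lit 1) (nat_lit 7) (nat_lit 1) (nat_lit 6) (nat_lit 2) true (nat_lit 4) true (nat_lit 8) true (nat_lit 4) true (nat_lit 9) true (nat_lit 5) (.e true (nat_lit 36) (nat_lit 43) (nat_lit 7) (nat_lit 4) (.e true (nat_lit 36) (nat_lit 47) (nat_lit 7) (nat_lit 4) (.e false (nat_lit 36) (nat_lit 48) (nat_lit 7) (nat_lit 4) (.e true (nat_lit 36) (nat_lit 87) (nat_lit 2) (nat_lit 8) (.e false (nat_lit 36) (nat_lit 88) (nat_lit 2) (nat_lit 8) (.e true (nat_lit 72) (nat_lit 89) (nat_lit 2) (nat_lit 8) (.e false (nat_lit 36) (nat_lit 90) (nat_lit 2) (nat_lit 8) (.e false (nat_lit 36) (nat_lit 91) (nat_lit 2) (nat_lit 8) (.e true (nat_lit 36) (nat_lit 94) (nat_lit 2)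 (nat_lit 8) (.e false (nat_lit 36) (nat_lit 95) (nat_lit 2) (nat_lit 8) (.e true (nat_lit 36) (nat_lit 97) (nat_lit 2) (nat_lit 8) (.e false (nat_lit 36) (nat_lit 98) (nat_lit 2) (nat_lit 8) (.e true (nat_lit 36) (nat_lit 99) (nat_lit 2) (nat_lit 8) (.e false (nat_lit 36) (nat_lit 51) (nat_lit 6) (nat_lit 5) .nil)))))))))))))))) .leaf)) (nat_lit 119808) (nat_lit 355) (.p (nat_lit 193) (nat_lit 36) .z) .df (.nd (.nd (.nd .leaf (nat_lit 120832) (nat_lit 356) (.p (nat_lit 194) (nat_lit 36) .z) .df .leaf) (nat_lit 121856) (nat_lit 357) (.p (nat_lit 195) (nat_lit 36) .z) .df .leaf) (nat_lit 122880) (nat_lit 381) (.p (nat_lit 179) (nat_lit 12) (.n (nat_lit 180) (nat_lit 60) (.p (nat_lit 181) (nat_lit 12) (.p (nat_lit 183) (nat_lit 48) (.p (nat_lit 185) (nat_lit 24) (.p (nat_lit 186) (nat_lit 12) (.n (nat_lit 187) (nat_lit 60) (.p (nat_lit 188) (nat_lit 60) (.p (nat_lit 189) (nat_lit 24) (.p (nat_lit 190) (nat_lit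 48) (.n (nat_lit 191) (nat_lit 96) (.p (nat_lit 192) (nat_lit 24) (.p (nat_lit 193) (nat_lit 24) (.n (nat_lit 194) (nat_lit 48) (.p (nat_lit 195) (nat_lit 48) (.p (nat_lit 196) (nat_lit 36) (.p (nat_lit 197) (nat_lit 12) (.n (nat_lit 198) (nat_lit 60) (.p (nat_lit 199) (nat_lit 24) (.n (nat_lit 200) (nat_lit 24) (.p (nat_lit 201) (nat_lit 48) .z))))))))))))))))))))) (.ct dF6aa_c291 (nat_lit 36) (nat_lit 10) (.s false (nat_lit 1) (nat_lit 7) (nat_lit 0) (nat_lit 2) (nat_lit 7) true (nat_lit 1) true (nat_lit 4) true (nat_lit 4) true (nat_lit 10) true (nat_lit 8) (.s true (nat_lit 1) (nat_lit 7) (nat_lit 0) (nat_lit 7) (nat_lit 2) true (nat_lit 5) true (nat_lit 8) true (nat_lit 4) true (nat_lit 10) true (nat_lit 4) (.s true (nat_lit 1) (nat_lit 17) (nat_lit 2) (nat_lit 1) (nat_lit 2) true (nat_lit 3) true (nat_lit 8) true (nat_lit 1) true (nat_lit 8) true (nat_lit 9) (.e false (nat_lit 72) (nat_lit 45) (nat_lit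 7) (nat_lit 4) (.e true (nat_lit 36) (nat_lit 43) (nat_lit 7) (nat_lit 4) (.e false (nat_lit 36) (nat_lit 44) (nat_lit 7) (nat_lit 4) (.e true (nat_lit 36) (nat_lit 47) (nat_lit 7) (nat_lit 4) (.e true (nat_lit 36) (nat_lit 118) (nat_lit 0) (nat_lit 10) (.e false (nat_lit 36) (nat_lit 119) (nat_lit 0) (nat_lit 10) (.e false (nat_lit 36) (nat_lit 121) (nat_lit 0) (nat_lit 10) (.e true (nat_lit 36) (nat_lit 93) (nat_lit 2) (nat_lit 8) (.e true (nat_lit 36) (nat_lit 38) (nat_lit 8) (nat_lit 3) (.e false (nat_lit 36) (nat_lit 108) (nat_lit 1) (nat_lit 9) .nil)))))))))))))) (.nd (.nd .leaf (nat_lit 123904) (nat_lit 373) (.n (nat_lit 182) (nat_lit 36) (.p (nat_lit 183) (nat_lit 108) (.n (nat_lit 187) (nat_lit 108) (.p (nat_lit 190) (nat_lit 72) (.n (nat_lit 191) (nat_lit 144) (.n (nat_lit 193) (nat_lit 36) (.n (nat_lit 194) (nat_lit 36) (.p (nat_lit 195) (nat_lit 36) (.n (nat_lit 199) (nat_lit 36) (.n (nat_lit 200)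 (nat_lit 144) .z)))))))))) (.ct dF6aa_c291 (nat_lit 36) (nat_lit 10) (.s false (nat_lit 2) (nat_lit 7) (nat_lit 0) (nat_lit 7) (nat_lit 2) true (nat_lit 5) true (nat_lit 8) true (nat_lit 4) true (nat_lit 10) true (nat_lit 4) (.s false (nat_lit 2) (nat_lit 7) (nat_lit 2) (nat_lit 2) (nat_lit 4) true (nat_lit 1) true (nat_lit 7) true (nat_lit 4) true (nat_lit 8) true (nat_lit 8) (.s true (nat_lit 1) (nat_lit 7) (nat_lit 4) (nat_lit 2) (nat_lit 2) true (nat_lit 1) true (nat_lit 8) true (nat_lit 4) true (nat_lit 7) true (nat_lit 8) (.s false (nat_lit 2) (nat_lit 7) (nat_lit 6) (nat_lit 2) (nat_lit 1) true (nat_lit 1) true (nat_lit 9) true (nat_lit 4) true (nat_lit 5) true (nat_lit 8) dF6aa_i41))))) .leaf) (nat_lit 124928) (nat_lit 358) (.p (nat_lit 196) (nat_lit 36) .z) .df .leaf))))))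

noncomputable def dF6aa_t5 : Tr := (.nd dF6aa_t3 (nat_lit 62466) (nat_lit 194) (.p (nat_lit 125) (nat_lit 36) .z) .df dF6aa_t4)

noncomputable def dF6aa_t6 : Tr := (.nd dF6aa_t2 (nat_lit 36864) (nat_lit 82) (.p (nat_lit 68) (nat_lit 36) .z) .df dF6aa_t5)

noncomputable def dF6aa_cl : CL := (.c (nat_lit 256) (nat_lit 0) (nat_lit 1) (.c (nat_lit 16) (nat_lit 1) (nat_lit 1) (.c (nat_lit 1) (nat_lit 2) (nat_lit 1) (.c (nat_lit 512) (nat_lit 3) (nat_lit 1) (.c (nat_lit 272) (nat_lit 4) (nat_lit 1) (.c (nat_lit 32) (nat_lit 5) (nat_lit 1) (.c (nat_lit 257) (nat_lit 6) (nat_lit 1) (.c (nat_lit 17) (nat_lit 7) (nat_lit 1) (.c (nat_lit 2) (nat_lit 8) (nat_lit 1) (.c (nat_lit 528) (nat_lit 9) (nat_lit 2) (.c (nat_lit 288) (nat_lit 11) (nat_lit 2) (.c (nat_lit 513) (nat_lit 13) (nat_lit 2) (.c (nat_lit 273) (nat_lit 15) (nat_lit 3) (.c (nat_lit 33) (nat_lit 18) (nat_lit 2) (.c (nat_lit 258) (nat_lit 20) (nat_lit 2) (.c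 (nat_lit 18) (nat_lit 22) (nat_lit 2) (.c (nat_lit 3) (nat_lit 24) (nat_lit 1) (.c (nat_lit 544) (nat_lit 25) (nat_lit 3) (.c (nat_lit 529) (nat_lit 28) (nat_lit 6) (.c (nat_lit 289) (nat_lit 34) (nat_lit 6) (.c (nat_lit 514) (nat_lit 40) (nat_lit 3) (.c (nat_lit 274) (nat_lit 43) (nat_lit 6) (.c (nat_lit 34) (nat_lit 49) (nat_lit 3) (.c (nat_lit 259) (nat_lit 52) (nat_lit 3) (.c (nat_lit 19) (nat_lit 55) (nat_lit 3) (.c (nat_lit 545) (nat_lit 58) (nat_lit 14) (.c (nat_lit 530) (nat_lit 72) (nat_lit 14) (.c (nat_lit 290) (nat_lit 86) (nat_lit 14) (.c (nat_lit 515) (nat_lit 100) (nat_lit 6) (.c (nat_lit 275) (nat_lit 106) (nat_lit 11) (.c (nat_lit 35) (nat_lit 117) (nat_lit 6) (.c (nat_lit 546) (nat_lit 123) (nat_lit 33) (.c (nat_lit 531) (nat_lit 156) (nat_lit 23) (.c (nat_lit 291) (nat_lit 179) (nat_lit 23) .nil))))))))))))))))))))))))))))))))))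

noncomputable def dF6aa_D : Dt := ⟨(nat_lit 18446744073709551616), (nat_lit 9223372036854775808), (nat_lit 36), (nat_lit 202), (nat_lit 13894772066966009706606603105718239755249835691794573855208605521015546632262355772046394742855332793878721439909397748471143932569303912773408432236802785677157483523862092894642853596730368281390630112234481633766457331045081687281650705240099139040029044377122144502358306592729143295180285036992307057405029369523109913071074434679147515423324603275453121228092674923463526084456902898158298206076555297525093918831636226986244836117386930061851210102290114848914079202947446589667920066505969803333478252510677638048210954807907519417997820259412857791958129018836694830654251931608462904166658258335237511852199678418732364538714951340306613111331251760678392153386323592745155973506274277328708692911704268796132428335040305783546118952514722904567304993020279416215316123940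1472918372603898059370756115009945778425415101198180541411437411677069463268986834613891022528217055722480854807024466472836441993483554460622011824869937462602641597782620831056956395083636230270777870798031688557763044724378179272167031564625066048813962800933879355876506629410488556219208772076372749723190137255738970710513964544247270172077589972484894911018497013088302229734513050798409958652215524908262707883526721862834275488728749955068526319451831042858159647073755966328146841540788178488351425417707167011590831274744013710957444595676298773132858652800334961230403806903129190913310338024523619038443754933194346465988387140864516786148593184220629088220479493), (nat_lit 10633823966279326982942226106124598791), dF6aa_t6, dF6aa_cl⟩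

noncomputable def dF6aa_gs : BL := (.c (nat_lit 25) (nat_lit 3) (nat_lit 24) (nat_lit 1) (nat_lit 0) (.c (nat_lit 28) (nat_lit 6) (nat_lit 22) (nat_lit 2) (nat_lit 3) (.c (nat_lit 34) (nat_lit 6) (nat_lit 20) (nat_lit 2) (nat_lit 15) (.c (nat_lit 40) (nat_lit 3) (nat_lit 18) (nat_lit 2) (nat_lit 27) (.c (nat_lit 43) (nat_lit 6) (nat_lit 15) (nat_lit 3) (nat_lit 33) (.c (nat_lit 49) (nat_lit 3) (nat_lit 13) (nat_lit 2) (nat_lit 51) (.c (nat_lit 52) (nat_lit 3) (nat_lit 11) (nat_lit 2) (nat_lit 57) (.c (nat_lit 55) (nat_lit 3) (nat_lit 9) (nat_lit 2) (nat_lit 63) (.c (nat_lit 58) (nat_lit 14) (nat_lit 8) (nat_lit 1) (nat_lit 69) (.c (nat_lit 72) (nat_lit 14) (nat_lit 7) (nat_lit 1) (nat_lit 83) (.c (nat_lit 86) (nat_lit 14) (nat_lit 6) (nat_lit 1) (nat_lit 97) (.c (nat_lit 100) (nat_lit 6) (nat_lit 5) (nat_lit 1) (nat_lit 111) (.c (nat_lit 106) (nat_lit 11) (nat_lit 4) (nat_lit 1) (nat_lit 117) (.c (nat_lit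 117) (nat_lit 6) (nat_lit 3) (nat_lit 1) (nat_lit 128) (.c (nat_lit 123) (nat_lit 33) (nat_lit 2) (nat_lit 1) (nat_lit 134) (.c (nat_lit 156) (nat_lit 23) (nat_lit 1) (nat_lit 1) (nat_lit 167) (.c (nat_lit 179) (nat_lit 23) (nat_lit 0) (nat_lit 1) (nat_lit 190) .nil)))))))))))))))))

noncomputable def dF6aa_i43 : IL := (.s false (nat_lit 452570976) (nat_lit 43) (nat_lit 1) (nat_lit 2) (nat_lit 0) true (nat_lit 12) true (nat_lit 16) false (nat_lit 4) true (nat_lit 15) true (nat_lit 14) (.s false (nat_lit 453854016) (nat_lit 43) (nat_lit 2) (nat_lit 0) (nat_lit 1) true (nat_lit 9) true (nat_lit 15) false (nat_lit 4) true (nat_lit 14) true (nat_lit 16) (.s true (nat_lit 104369472) (nat_lit 44) (nat_lit 2) (nat_lit 0) (nat_lit 1) true (nat_lit 9) true (nat_lit 15) false (nat_lit 4) true (nat_lit 14) true (nat_lit 16) (.s true (nat_lit 1920088800) (nat_lit 45) (nat_lit 2) (nat_lit 0) (nat_lit 1) true (nat_lit 9)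 true (nat_lit 15) false (nat_lit 4) true (nat_lit 14) true (nat_lit 16) (.s true (nat_lit 49750848) (nat_lit 46) (nat_lit 2) (nat_lit 0) (nat_lit 1) true (nat_lit 9) true (nat_lit 15) false (nat_lit 4) true (nat_lit 14) true (nat_lit 16) (.s false (nat_lit 861915168) (nat_lit 48) (nat_lit 2) (nat_lit 0) (nat_lit 1) true (nat_lit 9) true (nat_lit 15) false (nat_lit 4) true (nat_lit 14) true (nat_lit 16) (.s false (nat_lit 598153248) (nat_lit 44) (nat_lit 2) (nat_lit 1) (nat_lit 0) true (nat_lit 10) true (nat_lit 16) false (nat_lit 4) true (nat_lit 14) true (nat_lit 15) (.s true (nat_lit 356482944) (nat_lit 46) (nat_lit 2) (nat_lit 1) (nat_lit 0) true (nat_lit 10) true (nat_lit 16) false (nat_lit 4) true (nat_lit 14) true (nat_lit 15) (.s true (nat_lit 932707872) (nat_lit 48) (nat_lit 2) (nat_lit 1) (nat_lit 0) true (nat_lit 10) true (nat_lit 16) false (nat_lit 4) true (nat_lit 14) true (nat_lit 15) (.s false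 (nat_lit 309407040) (nat_lit 50) (nat_lit 0) (nat_lit 0) (nat_lit 2) true (nat_lit 10) true (nat_lit 14) false (nat_lit 5) true (nat_lit 16) true (nat_lit 16) (.s false (nat_lit 320402304) (nat_lit 51) (nat_lit 0) (nat_lit 0) (nat_lit 2) true (nat_lit 10) true (nat_lit 14) false (nat_lit 5) true (nat_lit 16) true (nat_lit 16) (.s true (nat_lit 369733248) (nat_lit 50) (nat_lit 0) (nat_lit 2) (nat_lit 0) true (nat_lit 13) true (nat_lit 16) false (nat_lit 5) true (nat_lit 16) true (nat_lit 14) (.s false (nat_lit 71531424) (nat_lit 50) (nat_lit 2) (nat_lit 0) (nat_lit 0) true (nat_lit 10) true (nat_lit 16) false (nat_lit 5) true (nat_lit 14) true (nat_lit 16) (.s false (nat_lit 302206464) (nat_lit 51) (nat_lit 2) (nat_lit 0) (nat_lit 0) true (nat_lit 10) true (nat_lit 16) false (nat_lit 5) true (nat_lit 14) true (nat_lit 16) (.s true (nat_lit 4478976) (nat_lit 54) (nat_lit 0) (nat_lit 1) (nat_lit 1) true (nat_lit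 12) true (nat_lit 15) false (nat_lit 6) true (nat_lit 16) true (nat_lit 15) (.s false (nat_lit 332112960) (nat_lit 52) (nat_lit 1) (nat_lit 0) (nat_lit 1) true (nat_lit 11) true (nat_lit 15) false (nat_lit 6) true (nat_lit 15) true (nat_lit 16) (.s false (nat_lit 49268736) (nat_lit 54) (nat_lit 1) (nat_lit 0) (nat_lit 1) true (nat_lit 11) true (nat_lit 15) false (nat_lit 6) true (nat_lit 15) true (nat_lit 16) (.s true (nat_lit 979776) (nat_lit 53) (nat_lit 1) (nat_lit 1) (nat_lit 0) true (nat_lit 12) true (nat_lit 16) false (nat_lit 6) true (nat_lit 15) true (nat_lit 15) (.s false (nat_lit 979776) (nat_lit 56) (nat_lit 0) (nat_lit 0) (nat_lit 1) true (nat_lit 12) true (nat_lit 15) false (nat_lit 7) true (nat_lit 16) true (nat_lit 16) (.s false (nat_lit 5038848) (nat_lit 56) (nat_lit 0) (nat_lit 1) (nat_lit 0) true (nat_lit 13) true (nat_lit 16) false (nat_lit 7) true (nat_lit 16) true (nat_lit 15) (.s true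 (nat_lit 11757312) (nat_lit 57) (nat_lit 0) (nat_lit 1) (nat_lit 0) true (nat_lit 13) true (nat_lit 16) false (nat_lit 7) true (nat_lit 16) true (nat_lit 15) (.s true (nat_lit 559872) (nat_lit 56) (nat_lit 1) (nat_lit 0) (nat_lit 0) true (nat_lit 12) true (nat_lit 16) false (nat_lit 7) true (nat_lit 15) true (nat_lit 16) (.i true (nat_lit 2096) (nat_lit 2) (.c (nat_lit 4) (nat_lit 272) (.c (nat_lit 2) (nat_lit 1) (.c (nat_lit 2) (nat_lit 1) (.c (nat_lit 2) (nat_lit 1) (.c (nat_lit 0) (nat_lit 256) (.c (nat_lit 1) (nat_lit 16) .nil)))))) (.i false (nat_lit 14816) (nat_lit 2) (.c (nat_lit 4) (nat_lit 272) (.c (nat_lit 2) (nat_lit 1) (.c (nat_lit 2) (nat_lit 1) (.c (nat_lit 2) (nat_lit 1) (.c (nat_lit 1) (nat_lit 16) (.c (nat_lit 0) (nat_lit 256) .nil)))))) (.i true (nat_lit 12720) (nat_lit 2) (.c (nat_lit 7) (nat_lit 17) (.c (nat_lit 2) (nat_lit 1) (.c (nat_lit 0) (nat_lit 256) (.c (nat_lit 0) (nat_lit 256) (.c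 (nat_lit 2) (nat_lit 1) (.c (nat_lit 1) (nat_lit 16) .nil)))))) .nil)))))))))))))))))))))))))

noncomputable def dF6aa_i44 : IL := (.s false (nat_lit 87106752) (nat_lit 39) (nat_lit 0) (nat_lit 2) (nat_lit 2) true (nat_lit 10) true (nat_lit 14) false (nat_lit 2) true (nat_lit 16) true (nat_lit 14) (.s false (nat_lit 2379456) (nat_lit 37) (nat_lit 2) (nat_lit 0) (nat_lit 2) true (nat_lit 8) true (nat_lit 14) false (nat_lit 2) true (nat_lit 14) true (nat_lit 16) (.s true (nat_lit 536512896) (nat_lit 38) (nat_lit 2) (nat_lit 0) (nat_lit 2) true (nat_lit 8) true (nat_lit 14) false (nat_lit 2) true (nat_lit 14) true (nat_lit 16) (.s true (nat_lit 6158592) (nat_lit 34) (nat_lit 2) (nat_lit 2) (nat_lit 0) true (nat_lit 10) true (nat_lit 16) false (nat_lit 2) true (nat_lit 14) true (nat_lit 14) (.s false (nat_lit 8538048) (nat_lit 37) (nat_lit 2) (nat_lit 2) (nat_lit 0) true (nat_lit 10) true (nat_lit 16) false (nat_lit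 2) true (nat_lit 14) true (nat_lit 14) (.s false (nat_lit 580353984) (nat_lit 38) (nat_lit 2) (nat_lit 2) (nat_lit 0) true (nat_lit 10) true (nat_lit 16) false (nat_lit 2) true (nat_lit 14) true (nat_lit 14) (.s false (nat_lit 1819584) (nat_lit 39) (nat_lit 2) (nat_lit 2) (nat_lit 0) true (nat_lit 10) true (nat_lit 16) false (nat_lit 2) true (nat_lit 14) true (nat_lit 14) (.s true (nat_lit 2519424) (nat_lit 42) (nat_lit 1) (nat_lit 1) (nat_lit 2) true (nat_lit 9) true (nat_lit 14) false (nat_lit 3) true (nat_lit 15) true (nat_lit 15) (.s false (nat_lit 28273536) (nat_lit 40) (nat_lit 1) (nat_lit 2) (nat_lit 1) true (nat_lit 11) true (nat_lit 15) false (nat_lit 3) true (nat_lit 15) true (nat_lit 14) (.s true (nat_lit 455214816) (nat_lit 41) (nat_lit 1) (nat_lit 2) (nat_lit 1) true (nat_lit 11) true (nat_lit 15) false (nat_lit 3) true (nat_lit 15) true (nat_lit 14) (.s true (nat_lit 65924928) (nat_lit 42) (nat_lit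 1) (nat_lit 2) (nat_lit 1) true (nat_lit 11) true (nat_lit 15) false (nat_lit 3) true (nat_lit 15) true (nat_lit 14) (.s false (nat_lit 468566208) (nat_lit 40) (nat_lit 2) (nat_lit 1) (nat_lit 1) true (nat_lit 9) true (nat_lit 15) false (nat_lit 3) true (nat_lit 14) true (nat_lit 15) (.s true (nat_lit 1143585216) (nat_lit 43) (nat_lit 0) (nat_lit 1) (nat_lit 2) true (nat_lit 10) true (nat_lit 14) false (nat_lit 4) true (nat_lit 16) true (nat_lit 15) (.s false (nat_lit 442236672) (nat_lit 46) (nat_lit 0) (nat_lit 1) (nat_lit 2) true (nat_lit 10) true (nat_lit 14) false (nat_lit 4) true (nat_lit 16) true (nat_lit 15) (.s true (nat_lit 436396896) (nat_lit 47) (nat_lit 0) (nat_lit 1) (nat_lit 2) true (nat_lit 10) true (nat_lit 14) false (nat_lit 4) true (nat_lit 16) true (nat_lit 15) (.s false (nat_lit 1199463552) (nat_lit 48) (nat_lit 0) (nat_lit 1) (nat_lit 2) true (nat_lit 10) true (nat_lit 14) false (nat_lit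 4) true (nat_lit 16) true (nat_lit 15) (.s true (nat_lit 567018144) (nat_lit 43) (nat_lit 0) (nat_lit 2) (nat_lit 1) true (nat_lit 12) true (nat_lit 15) false (nat_lit 4) true (nat_lit 16) true (nat_lit 14) (.s false (nat_lit 70077312) (nat_lit 44) (nat_lit 0) (nat_lit 2) (nat_lit 1) true (nat_lit 12) true (nat_lit 15) false (nat_lit 4) true (nat_lit 16) true (nat_lit 14) (.s false (nat_lit 1259237664) (nat_lit 45) (nat_lit 0) (nat_lit 2) (nat_lit 1) true (nat_lit 12) true (nat_lit 15) false (nat_lit 4) true (nat_lit 16) true (nat_lit 14) (.s true (nat_lit 46282752) (nat_lit 48) (nat_lit 0) (nat_lit 2) (nat_lit 1) true (nat_lit 12) true (nat_lit 15) false (nat_lit 4) true (nat_lit 16) true (nat_lit 14) (.s false (nat_lit 291390048) (nat_lit 43) (nat_lit 1) (nat_lit 0) (nat_lit 2) true (nat_lit 9) true (nat_lit 14) false (nat_lit 4) true (nat_lit 15) true (nat_lit 16) (.s true (nat_lit 818649504) (nat_lit 44)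 (nat_lit 1) (nat_lit 0) (nat_lit 2) true (nat_lit 9) true (nat_lit 14) false (nat_lit 4) true (nat_lit 15) true (nat_lit 16) (.s false (nat_lit 601489152) (nat_lit 45) (nat_lit 1) (nat_lit 0) (nat_lit 2) true (nat_lit 9) true (nat_lit 14) false (nat_lit 4) true (nat_lit 15) true (nat_lit 16) (.s false (nat_lit 202969152) (nat_lit 46) (nat_lit 1) (nat_lit 0) (nat_lit 2) true (nat_lit 9) true (nat_lit 14) false (nat_lit 4) true (nat_lit 15) true (nat_lit 16) (.s true (nat_lit 809349408) (nat_lit 48) (nat_lit 1) (nat_lit 0) (nat_lit 2) true (nat_lit 9) true (nat_lit 14) false (nat_lit 4) true (nat_lit 15) true (nat_lit 16) dF6aa_i43)))))))))))))))))))))))))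

noncomputable def dF6aa_i45 : IL := (.s false (nat_lit 11757312) (nat_lit 24) (nat_lit 1) (nat_lit 1) (nat_lit 3) true (nat_lit 7) true (nat_lit 13) true (nat_lit 0) true (nat_lit 15) true (nat_lit 15) (.s true (nat_lit 21835008) (nat_lit 24) (nat_lit 1) (nat_lit 3) (nat_lit 1) true (nat_lit 11) true (nat_lit 15) true (nat_lit 0) true (nat_lit 15) true (nat_lit 13) (.s true (nat_lit 8398080) (nat_lit 24) (nat_lit 3) (nat_lit 1) (nat_lit 1) true (nat_lit 7) true (nat_lit 15) true (nat_lit 0) true (nat_lit 13) true (nat_lit 15) (.s true (nat_lit 30373056) (nat_lit 24) (nat_lit 4) (nat_lit 0) (nat_lit 1) true (nat_lit 6) true (nat_lit 15) true (nat_lit 0) true (nat_lit 12) true (nat_lit 16) (.s false (nat_lit 240744960) (nat_lit 24) (nat_lit 4) (nat_lit 1) (nat_lit 0) true (nat_lit 7) true (nat_lit 16) true (nat_lit 0) true (nat_lit 12) true (nat_lit 15) (.s false (nat_lit 8258112) (nat_lit 26) (nat_lit 2) (nat_lit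 2) (nat_lit 2) true (nat_lit 8) true (nat_lit 14) false (nat_lit 0) true (nat_lit 14) true (nat_lit 14) (.s false (nat_lit 215550720) (nat_lit 27) (nat_lit 2) (nat_lit 2) (nat_lit 2) true (nat_lit 8) true (nat_lit 14) false (nat_lit 0) true (nat_lit 14) true (nat_lit 14) (.s false (nat_lit 436575744) (nat_lit 28) (nat_lit 1) (nat_lit 2) (nat_lit 2) true (nat_lit 9) true (nat_lit 14) false (nat_lit 1) true (nat_lit 15) true (nat_lit 14) (.s true (nat_lit 428340960) (nat_lit 29) (nat_lit 1) (nat_lit 2) (nat_lit 2) true (nat_lit 9) true (nat_lit 14) false (nat_lit 1) true (nat_lit 15) true (nat_lit 14) (.s false (nat_lit 932707872) (nat_lit 30) (nat_lit 1) (nat_lit 2) (nat_lit 2) true (nat_lit 9) true (nat_lit 14) false (nat_lit 1) true (nat_lit 15) true (nat_lit 14) (.s false (nat_lit 12904272) (nat_lit 31) (nat_lit 1) (nat_lit 2) (nat_lit 2) true (nat_lit 9) true (nat_lit 14) false (nat_lit 1) true (nat_lit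 15) true (nat_lit 14) (.s false (nat_lit 197658144) (nat_lit 32) (nat_lit 1) (nat_lit 2) (nat_lit 2) true (nat_lit 9) true (nat_lit 14) false (nat_lit 1) true (nat_lit 15) true (nat_lit 14) (.s true (nat_lit 201592800) (nat_lit 33) (nat_lit 1) (nat_lit 2) (nat_lit 2) true (nat_lit 9) true (nat_lit 14) false (nat_lit 1) true (nat_lit 15) true (nat_lit 14) (.s false (nat_lit 382610304) (nat_lit 28) (nat_lit 2) (nat_lit 1) (nat_lit 2) true (nat_lit 8) true (nat_lit 14) false (nat_lit 1) true (nat_lit 14) true (nat_lit 15) (.s true (nat_lit 595112832) (nat_lit 29) (nat_lit 2) (nat_lit 1) (nat_lit 2) true (nat_lit 8) true (nat_lit 14) false (nat_lit 1) true (nat_lit 14) true (nat_lit 15) (.s false (nat_lit 147604032) (nat_lit 30) (nat_lit 2) (nat_lit 1) (nat_lit 2) true (nat_lit 8) true (nat_lit 14) false (nat_lit 1) true (nat_lit 14) true (nat_lit 15) (.s true (nat_lit 1155260880) (nat_lit 31) (nat_lit 2) (nat_lit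 1) (nat_lit 2) true (nat_lit 8) true (nat_lit 14) false (nat_lit 1) true (nat_lit 14) true (nat_lit 15) (.s false (nat_lit 1507680864) (nat_lit 33) (nat_lit 2) (nat_lit 1) (nat_lit 2) true (nat_lit 8) true (nat_lit 14) false (nat_lit 1) true (nat_lit 14) true (nat_lit 15) (.s false (nat_lit 6158592) (nat_lit 28) (nat_lit 2) (nat_lit 2) (nat_lit 1) true (nat_lit 9) true (nat_lit 15) false (nat_lit 1) true (nat_lit 14) true (nat_lit 14) (.s true (nat_lit 699840) (nat_lit 29) (nat_lit 2) (nat_lit 2) (nat_lit 1) true (nat_lit 9) true (nat_lit 15) false (nat_lit 1) true (nat_lit 14) true (nat_lit 14) (.s true (nat_lit 198245232) (nat_lit 31) (nat_lit 2) (nat_lit 2) (nat_lit 1) true (nat_lit 9) true (nat_lit 15) false (nat_lit 1) true (nat_lit 14) true (nat_lit 14) (.s false (nat_lit 3779136) (nat_lit 33) (nat_lit 2) (nat_lit 2) (nat_lit 1) true (nat_lit 9) true (nat_lit 15) false (nat_lit 1) true (nat_lit 14) true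 (nat_lit 14) (.s false (nat_lit 71360352) (nat_lit 35) (nat_lit 0) (nat_lit 2) (nat_lit 2) true (nat_lit 10) true (nat_lit 14) false (nat_lit 2) true (nat_lit 16) true (nat_lit 14) (.s false (nat_lit 1079036640) (nat_lit 37) (nat_lit 0) (nat_lit 2) (nat_lit 2) true (nat_lit 10) true (nat_lit 14) false (nat_lit 2) true (nat_lit 16) true (nat_lit 14) (.s true (nat_lit 932039136) (nat_lit 38) (nat_lit 0) (nat_lit 2) (nat_lit 2) true (nat_lit 10) true (nat_lit 14) false (nat_lit 2) true (nat_lit 16) true (nat_lit 14) dF6aa_i44)))))))))))))))))))))))))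

noncomputable def dF6aa_i46 : IL := (.s true (nat_lit 22534848) (nat_lit 19) (nat_lit 0) (nat_lit 6) (nat_lit 2) true (nat_lit 10) true (nat_lit 14) true (nat_lit 3) true (nat_lit 16) true (nat_lit 10) (.s false (nat_lit 379810944) (nat_lit 19) (nat_lit 2) (nat_lit 3) (nat_lit 2) true (nat_lit 8) true (nat_lit 14) true (nat_lit 3) true (nat_lit 14) true (nat_lit 13) (.s false (nat_lit 656683200) (nat_lit 19) (nat_lit 6) (nat_lit 0) (nat_lit 2) true (nat_lit 2) true (nat_lit 14) true (nat_lit 3) true (nat_lit 10) true (nat_lit 16) (.s false (nat_lit 297750816) (nat_lit 20) (nat_lit 0) (nat_lit 1) (nat_lit 7) true (nat_lit 4) true (nat_lit 9) true (nat_lit 2) true (nat_lit 16) true (nat_lit 15) (.s true (nat_lit 1959552) (nat_lit 20) (nat_lit 0) (nat_lit 2) (nat_lit 5) true (nat_lit 6) true (nat_lit 11) true (nat_lit 2) true (nat_lit 16) true (nat_lit 14) (.s true (nat_lit 300620160) (nat_lit 20) (nat_lit 0)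 (nat_lit 5) (nat_lit 2) true (nat_lit 10) true (nat_lit 14) true (nat_lit 2) true (nat_lit 16) true (nat_lit 11) (.s false (nat_lit 1096851456) (nat_lit 20) (nat_lit 0) (nat_lit 7) (nat_lit 1) true (nat_lit 12) true (nat_lit 15) true (nat_lit 2) true (nat_lit 16) true (nat_lit 9) (.s false (nat_lit 36173952) (nat_lit 20) (nat_lit 1) (nat_lit 1) (nat_lit 6) true (nat_lit 4) true (nat_lit 10) true (nat_lit 2) true (nat_lit 15) true (nat_lit 15) (.s false (nat_lit 1399680) (nat_lit 20) (nat_lit 1) (nat_lit 4) (nat_lit 2) true (nat_lit 9) true (nat_lit 14) true (nat_lit 2) true (nat_lit 15) true (nat_lit 12) (.s false (nat_lit 261988992) (nat_lit 20) (nat_lit 1) (nat_lit 6) (nat_lit 1) true (nat_lit 11) true (nat_lit 15) true (nat_lit 2) true (nat_lit 15) true (nat_lit 10) (.s true (nat_lit 39704256) (nat_lit 20) (nat_lit 2) (nat_lit 4) (nat_lit 1) true (nat_lit 9) true (nat_lit 15) true (nat_lit 2) true (nat_lit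 14) true (nat_lit 12) (.s true (nat_lit 177494976) (nat_lit 20) (nat_lit 4) (nat_lit 2) (nat_lit 1) true (nat_lit 6) true (nat_lit 15) true (nat_lit 2) true (nat_lit 12) true (nat_lit 14) (.s true (nat_lit 83553120) (nat_lit 20) (nat_lit 7) (nat_lit 0) (nat_lit 1) true (nat_lit 3) true (nat_lit 15) true (nat_lit 2) true (nat_lit 9) true (nat_lit 16) (.s false (nat_lit 144439200) (nat_lit 21) (nat_lit 7) (nat_lit 0) (nat_lit 1) true (nat_lit 3) true (nat_lit 15) true (nat_lit 2) true (nat_lit 9) true (nat_lit 16) (.s false (nat_lit 233661024) (nat_lit 20) (nat_lit 7) (nat_lit 1) (nat_lit 0) true (nat_lit 4) true (nat_lit 16) true (nat_lit 2) true (nat_lit 9) true (nat_lit 15) (.s false (nat_lit 1183250592) (nat_lit 22) (nat_lit 0) (nat_lit 0) (nat_lit 7) true (nat_lit 4) true (nat_lit 9) true (nat_lit 1) true (nat_lit 16) true (nat_lit 16) (.s true (nat_lit 5878656) (nat_lit 23) (nat_lit 0) (nat_lit 6) (nat_lit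 1) true (nat_lit 12) true (nat_lit 15) true (nat_lit 1) true (nat_lit 16) true (nat_lit 10) (.s false (nat_lit 681278688) (nat_lit 22) (nat_lit 0) (nat_lit 7) (nat_lit 0) true (nat_lit 13) true (nat_lit 16) true (nat_lit 1) true (nat_lit 16) true (nat_lit 9) (.s true (nat_lit 198218016) (nat_lit 22) (nat_lit 1) (nat_lit 0) (nat_lit 6) true (nat_lit 4) true (nat_lit 10) true (nat_lit 1) true (nat_lit 15) true (nat_lit 16) (.s false (nat_lit 308862720) (nat_lit 22) (nat_lit 3) (nat_lit 2) (nat_lit 1) true (nat_lit 7) true (nat_lit 15) true (nat_lit 1) true (nat_lit 13) true (nat_lit 14) (.s true (nat_lit 542352672) (nat_lit 22) (nat_lit 6) (nat_lit 0) (nat_lit 1) true (nat_lit 4) true (nat_lit 15) true (nat_lit 1) true (nat_lit 10) true (nat_lit 16) (.s false (nat_lit 222082560) (nat_lit 22) (nat_lit 6) (nat_lit 1) (nat_lit 0) true (nat_lit 5) true (nat_lit 16) true (nat_lit 1) true (nat_lit 10) true (nat_lit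 15) (.s false (nat_lit 91196928) (nat_lit 22) (nat_lit 7) (nat_lit 0) (nat_lit 0) true (nat_lit 4) true (nat_lit 16) true (nat_lit 1) true (nat_lit 9) true (nat_lit 16) (.s true (nat_lit 3359232) (nat_lit 24) (nat_lit 0) (nat_lit 0) (nat_lit 5) true (nat_lit 6) true (nat_lit 11) true (nat_lit 0) true (nat_lit 16) true (nat_lit 16) (.s true (nat_lit 10497600) (nat_lit 24) (nat_lit 1) (nat_lit 0) (nat_lit 4) true (nat_lit 6) true (nat_lit 12) true (nat_lit 0) true (nat_lit 15) true (nat_lit 16) dF6aa_i45)))))))))))))))))))))))))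

noncomputable def dF6aa_i47 : IL := (.s true (nat_lit 1959552) (nat_lit 13) (nat_lit 8) (nat_lit 1) (nat_lit 1) true (nat_lit 1) true (nat_lit 15) true (nat_lit 5) true (nat_lit 8) true (nat_lit 15) (.s false (nat_lit 419904) (nat_lit 15) (nat_lit 0) (nat_lit 1) (nat_lit 8) true (nat_lit 2) true (nat_lit 8) true (nat_lit 4) true (nat_lit 16) true (nat_lit 15) (.s true (nat_lit 441373536) (nat_lit 17) (nat_lit 0) (nat_lit 1) (nat_lit 8) true (nat_lit 2) true (nat_lit 8) true (nat_lit 4) true (nat_lit 16) true (nat_lit 15) (.s false (nat_lit 354546720) (nat_lit 15) (nat_lit 0) (nat_lit 2) (nat_lit 7) true (nat_lit 4) true (nat_lit 9) true (nat_lit 4) true (nat_lit 16) true (nat_lit 14) (.s false (nat_lit 44144352) (nat_lit 15) (nat_lit 0) (nat_lit 7) (nat_lit 2) true (nat_lit 10) true (nat_lit 14) true (nat_lit 4) true (nat_lit 16) true (nat_lit 9) (.s false (nat_lit 657631872) (nat_lit 16) (nat_lit 0) (nat_lit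 7) (nat_lit 2) true (nat_lit 10) true (nat_lit 14) true (nat_lit 4) true (nat_lit 16) true (nat_lit 9) (.s false (nat_lit 78755328) (nat_lit 15) (nat_lit 0) (nat_lit 8) (nat_lit 1) true (nat_lit 12) true (nat_lit 15) true (nat_lit 4) true (nat_lit 16) true (nat_lit 8) (.s true (nat_lit 5878656) (nat_lit 15) (nat_lit 1) (nat_lit 0) (nat_lit 8) true (nat_lit 1) true (nat_lit 8) true (nat_lit 4) true (nat_lit 15) true (nat_lit 16) (.s true (nat_lit 268808544) (nat_lit 15) (nat_lit 1) (nat_lit 2) (nat_lit 6) true (nat_lit 4) true (nat_lit 10) true (nat_lit 4) true (nat_lit 15) true (nat_lit 14) (.s true (nat_lit 1436289408) (nat_lit 16) (nat_lit 1) (nat_lit 2) (nat_lit 6) true (nat_lit 4) true (nat_lit 10) true (nat_lit 4) true (nat_lit 15) true (nat_lit 14) (.s false (nat_lit 824761440) (nat_lit 15) (nat_lit 1) (nat_lit 6) (nat_lit 2) true (nat_lit 9) true (nat_lit 14) true (nat_lit 4) true (nat_lit 15) true (nat_lit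 10) (.s true (nat_lit 758245536) (nat_lit 17) (nat_lit 1) (nat_lit 6) (nat_lit 2) true (nat_lit 9) true (nat_lit 14) true (nat_lit 4) true (nat_lit 15) true (nat_lit 10) (.s true (nat_lit 1196267616) (nat_lit 15) (nat_lit 2) (nat_lit 0) (nat_lit 7) true (nat_lit 1) true (nat_lit 9) true (nat_lit 4) true (nat_lit 14) true (nat_lit 16) (.s true (nat_lit 281825568) (nat_lit 16) (nat_lit 2) (nat_lit 0) (nat_lit 7) true (nat_lit 1) true (nat_lit 9) true (nat_lit 4) true (nat_lit 14) true (nat_lit 16) (.s true (nat_lit 604685088) (nat_lit 17) (nat_lit 2) (nat_lit 2) (nat_lit 4) true (nat_lit 4) true (nat_lit 12) true (nat_lit 4) true (nat_lit 14) true (nat_lit 14) (.s true (nat_lit 608969664) (nat_lit 17) (nat_lit 2) (nat_lit 4) (nat_lit 2) true (nat_lit 8) true (nat_lit 14) true (nat_lit 4) true (nat_lit 14) true (nat_lit 12) (.s true (nat_lit 86679072) (nat_lit 16) (nat_lit 2) (nat_lit 7) (nat_lit 0) true (nat_lit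 10) true (nat_lit 16) true (nat_lit 4) true (nat_lit 14) true (nat_lit 9) (.s true (nat_lit 181071936) (nat_lit 15) (nat_lit 4) (nat_lit 2) (nat_lit 2) true (nat_lit 4) true (nat_lit 14) true (nat_lit 4) true (nat_lit 12) true (nat_lit 14) (.s false (nat_lit 11057472) (nat_lit 16) (nat_lit 4) (nat_lit 2) (nat_lit 2) true (nat_lit 4) true (nat_lit 14) true (nat_lit 4) true (nat_lit 12) true (nat_lit 14) (.s true (nat_lit 101453472) (nat_lit 15) (nat_lit 6) (nat_lit 1) (nat_lit 2) true (nat_lit 2) true (nat_lit 14) true (nat_lit 4) true (nat_lit 10) true (nat_lit 15) (.s true (nat_lit 1472121216) (nat_lit 16) (nat_lit 6) (nat_lit 1) (nat_lit 2) true (nat_lit 2) true (nat_lit 14) true (nat_lit 4) true (nat_lit 10) true (nat_lit 15) (.s false (nat_lit 404787456) (nat_lit 15) (nat_lit 6) (nat_lit 2) (nat_lit 1) true (nat_lit 4) true (nat_lit 15) true (nat_lit 4) true (nat_lit 10) true (nat_lit 14) (.s false (nat_lit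 284726016) (nat_lit 15) (nat_lit 7) (nat_lit 0) (nat_lit 2) true (nat_lit 1) true (nat_lit 14) true (nat_lit 4) true (nat_lit 9) true (nat_lit 16) (.s true (nat_lit 209905344) (nat_lit 15) (nat_lit 7) (nat_lit 2) (nat_lit 0) true (nat_lit 4) true (nat_lit 16) true (nat_lit 4) true (nat_lit 9) true (nat_lit 14) (.s false (nat_lit 326133216) (nat_lit 19) (nat_lit 0) (nat_lit 2) (nat_lit 6) true (nat_lit 5) true (nat_lit 10) true (nat_lit 3) true (nat_lit 16) true (nat_lit 14) dF6aa_i46)))))))))))))))))))))))))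

noncomputable def dF6aa_i48 : IL := (.s true (nat_lit 166810752) (nat_lit 7) (nat_lit 6) (nat_lit 0) (nat_lit 7) false (nat_lit 4) true (nat_lit 9) true (nat_lit 9) true (nat_lit 10) true (nat_lit 16) (.s false (nat_lit 1839296160) (nat_lit 7) (nat_lit 6) (nat_lit 1) (nat_lit 6) false (nat_lit 3) true (nat_lit 10) true (nat_lit 9) true (nat_lit 10) true (nat_lit 15) (.s false (nat_lit 419904) (nat_lit 8) (nat_lit 2) (nat_lit 4) (nat_lit 4) true (nat_lit 4) true (nat_lit 12) true (nat_lit 8) true (nat_lit 14) true (nat_lit 12) (.s false (nat_lit 699840) (nat_lit 8) (nat_lit 5) (nat_lit 0) (nat_lit 6) false (nat_lit 2) true (nat_lit 10) true (nat_lit 8) true (nat_lit 11) true (nat_lit 16) (.s true (nat_lit 152782848) (nat_lit 9) (nat_lit 2) (nat_lit 7) (nat_lit 2) true (nat_lit 8) true (nat_lit 14) true (nat_lit 7) true (nat_lit 14) true (nat_lit 9) (.s false (nat_lit 9377856) (nat_lit 10) (nat_lit 2) (nat_lit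 7) (nat_lit 2) true (nat_lit 8) true (nat_lit 14) true (nat_lit 7) true (nat_lit 14) true (nat_lit 9) (.s true (nat_lit 237385728) (nat_lit 10) (nat_lit 2) (nat_lit 8) (nat_lit 1) true (nat_lit 9) true (nat_lit 15) true (nat_lit 7) true (nat_lit 14) true (nat_lit 8) (.s false (nat_lit 154120320) (nat_lit 9) (nat_lit 7) (nat_lit 2) (nat_lit 2) true (nat_lit 1) true (nat_lit 14) true (nat_lit 7) true (nat_lit 9) true (nat_lit 14) (.s false (nat_lit 419904) (nat_lit 10) (nat_lit 7) (nat_lit 2) (nat_lit 2) true (nat_lit 1) true (nat_lit 14) true (nat_lit 7) true (nat_lit 9) true (nat_lit 14) (.s false (nat_lit 4478976) (nat_lit 11) (nat_lit 2) (nat_lit 2) (nat_lit 6) true (nat_lit 2) true (nat_lit 10) true (nat_lit 6) true (nat_lit 14) true (nat_lit 14) (.s true (nat_lit 71476992) (nat_lit 11) (nat_lit 2) (nat_lit 6) (nat_lit 2) true (nat_lit 8) true (nat_lit 14) true (nat_lit 6) true (nat_lit 14) true (nat_lit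 10) (.s false (nat_lit 92098944) (nat_lit 11) (nat_lit 6) (nat_lit 2) (nat_lit 2) true (nat_lit 2) true (nat_lit 14) true (nat_lit 6) true (nat_lit 10) true (nat_lit 14) (.s false (nat_lit 6298560) (nat_lit 13) (nat_lit 1) (nat_lit 1) (nat_lit 8) true (nat_lit 1) true (nat_lit 8) true (nat_lit 5) true (nat_lit 15) true (nat_lit 15) (.s false (nat_lit 197265456) (nat_lit 14) (nat_lit 1) (nat_lit 1) (nat_lit 8) true (nat_lit 1) true (nat_lit 8) true (nat_lit 5) true (nat_lit 15) true (nat_lit 15) (.s true (nat_lit 730531872) (nat_lit 13) (nat_lit 1) (nat_lit 2) (nat_lit 7) true (nat_lit 3) true (nat_lit 9) true (nat_lit 5) true (nat_lit 15) true (nat_lit 14) (.s false (nat_lit 988314048) (nat_lit 14) (nat_lit 1) (nat_lit 2) (nat_lit 7) true (nat_lit 3) true (nat_lit 9) true (nat_lit 5) true (nat_lit 15) true (nat_lit 14) (.s true (nat_lit 320324544) (nat_lit 13) (nat_lit 1) (nat_lit 7) (nat_lit 2) true (nat_lit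 9) true (nat_lit 14) true (nat_lit 5) true (nat_lit 15) true (nat_lit 9) (.s true (nat_lit 1119744) (nat_lit 13) (nat_lit 1) (nat_lit 8) (nat_lit 1) true (nat_lit 11) true (nat_lit 15) true (nat_lit 5) true (nat_lit 15) true (nat_lit 8) (.s false (nat_lit 425821536) (nat_lit 14) (nat_lit 1) (nat_lit 8) (nat_lit 1) true (nat_lit 11) true (nat_lit 15) true (nat_lit 5) true (nat_lit 15) true (nat_lit 8) (.s true (nat_lit 633565152) (nat_lit 14) (nat_lit 2) (nat_lit 1) (nat_lit 7) true (nat_lit 1) true (nat_lit 9) true (nat_lit 5) true (nat_lit 14) true (nat_lit 15) (.s false (nat_lit 839808) (nat_lit 13) (nat_lit 2) (nat_lit 2) (nat_lit 5) true (nat_lit 3) true (nat_lit 11) true (nat_lit 5) true (nat_lit 14) true (nat_lit 14) (.s false (nat_lit 423302112) (nat_lit 14) (nat_lit 2) (nat_lit 2) (nat_lit 5) true (nat_lit 3) true (nat_lit 11) true (nat_lit 5) true (nat_lit 14) true (nat_lit 14) (.s true (nat_lit 307805184)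 (nat_lit 13) (nat_lit 2) (nat_lit 7) (nat_lit 1) true (nat_lit 9) true (nat_lit 15) true (nat_lit 5) true (nat_lit 14) true (nat_lit 9) (.s true (nat_lit 1397145024) (nat_lit 14) (nat_lit 2) (nat_lit 7) (nat_lit 1) true (nat_lit 9) true (nat_lit 15) true (nat_lit 5) true (nat_lit 14) true (nat_lit 9) (.s true (nat_lit 424141920) (nat_lit 14) (nat_lit 5) (nat_lit 2) (nat_lit 2) true (nat_lit 3) true (nat_lit 14) true (nat_lit 5) true (nat_lit 11) true (nat_lit 14) dF6aa_i47)))))))))))))))))))))))))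

noncomputable def dF6aa_il : IL := (.s true (nat_lit 230496192) (nat_lit 6) (nat_lit 5) (nat_lit 2) (nat_lit 6) false (nat_lit 2) true (nat_lit 10) true (nat_lit 10) true (nat_lit 11) true (nat_lit 14) (.s true (nat_lit 431412480) (nat_lit 7) (nat_lit 0) (nat_lit 7) (nat_lit 6) true (nat_lit 5) true (nat_lit 10) true (nat_lit 9) true (nat_lit 16) true (nat_lit 9) (.s false (nat_lit 1156423392) (nat_lit 7) (nat_lit 1) (nat_lit 6) (nat_lit 6) true (nat_lit 4) true (nat_lit 10) true (nat_lit 9) true (nat_lit 15) true (nat_lit 10) (.s false (nat_lit 6594048) (nat_lit 7) (nat_lit 2) (nat_lit 3) (nat_lit 7) true (nat_lit 1) true (nat_lit 9) true (nat_lit 9) true (nat_lit 14) true (nat_lit 13) (.s true (nat_lit 14976576) (nat_lit 7) (nat_lit 2) (nat_lit 4) (nat_lit 6) true (nat_lit 2) true (nat_lit 10) true (nat_lit 9) true (nat_lit 14) true (nat_lit 12) (.s true (nat_lit 1000219104) (nat_lit 7) (nat_lit 3) (nat_lit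 2) (nat_lit 7) false (nat_lit 1) true (nat_lit 9) true (nat_lit 9) true (nat_lit 13) true (nat_lit 14) (.s false (nat_lit 928594368) (nat_lit 7) (nat_lit 4) (nat_lit 6) (nat_lit 2) true (nat_lit 4) true (nat_lit 14) true (nat_lit 9) true (nat_lit 12) true (nat_lit 10) dF6aa_i48)))))))

theorem dF6aa_chk : chk 1 idsV dF6aa_D par3 (clsL [0,0,0,1,1,2,2]) F6Ex (.c (nat_lit 2) (nat_lit 1) (.c (nat_lit 2) (nat_lit 1) (.c (nat_lit 2) (nat_lit 1) (.c (nat_lit 1) (nat_lit 16) (.c (nat_lit 1) (nat_lit 16) (.c (nat_lit 0) (nat_lit 256) (.c (nat_lit 0) (nat_lit 256) .nil))))))) (nat_lit 404) (nat_lit 547) (nat_lit 1) dF6aa_gs dF6aa_il = true := by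
  decide +kernel

end Chk

/-- certificate of `F6Ex` -/
theorem cert_F6aa : Cert.{u} 1 idsV par3 (clsL [0,0,0,1,1,2,2]) F6Ex :=
  Chk.chk_sound _ _ (by simp [idsV]) (by simp [idsV]) _ _ _ _ _ _ _ _ _ _ Chk.dF6aa_chk

end Pool.Agent.MalP
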