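import Pool.Agent.MalP.Check4
import Pool.Agent.MalP.CertPar

/-! # Certificate of F6Ex -/

set_option autoImplicit false
set_option maxRecDepth 100000

namespace Pool.Agent.MalP

universe u

namespace Chk

noncomputable def dF6as_c544 : Cm := .mk (nat_lit 19) (nat_lit 544) (nat_lit 22) (nat_lit 3) (.c (nat_lit 3) (nat_lit 1) (nat_lit 3) (nat_lit 1) (nat_lit 3) (.c (nat_lit 8) (nat_lit 1) (nat_lit 1) (nat_lit 1) (nat_lit 4) (.c (nat_lit 9) (nat_lit 2) (nat_lit 0) (nat_lit 1) (nat_lit 5) (.c (nat_lit 2512) (nat_lit 0) (nat_lit 4) (nat_lit 1) (nat_lit 7) .nil))))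

noncomputable def dF6as_c529 : Cm := .mk (nat_lit 23) (nat_lit 529) (nat_lit 25) (nat_lit 4) (.c (nat_lit 5) (nat_lit 1) (nat_lit 3) (nat_lit 1) (nat_lit 4) (.c (nat_lit 8) (nat_lit 1) (nat_lit 2) (nat_lit 1) (nat_lit 5) (.c (nat_lit 11) (nat_lit 1) (nat_lit 1) (nat_lit 1) (nat_lit 6) (.c (nat_lit 12) (nat_lit 3) (nat_lit 0) (nat_lit 1) (nat_lit 7) (.c (nat_lit 2512) (nat_lit 0) (nat_lit 6) (nat_lit 1) (nat_lit 10) .nil)))))

noncomputable def dF6as_c289 : Cm := .mk (nat_lit 29) (nat_lit 289) (nat_lit 29) (nat_lit 6) (.c (nat_lit 5) (nat_lit 1) (nat_lit 4) (nat_lit 1) (nat_lit 6) (.c (nat_lit 6) (nat_lit 1) (nat_lit 3) (nat_lit 1) (nat_lit 7) (.c (nat_lit 9) (nat_lit 2) (nat_lit 2) (nat_lit 1) (nat_lit 8) (.c (nat_lit 12) (nat_lit 3) (nat_lit 1) (nat_lit 1) (nat_lit 10) (.c (nat_lit 15) (nat_lit 2) (nat_lit 0) (nat_lit 1) (nat_lit 13) .nil)))))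

noncomputable def dF6as_c514 : Cm := .mk (nat_lit 38) (nat_lit 514) (nat_lit 35) (nat_lit 3) (.c (nat_lit 5) (nat_lit 1) (nat_lit 5) (nat_lit 1) (nat_lit 3) (.c (nat_lit 11) (nat_lit 1) (nat_lit 2) (nat_lit 1) (nat_lit 4) (.c (nat_lit 17) (nat_lit 2) (nat_lit 0) (nat_lit 1) (nat_lit 5) (.c (nat_lit 2512) (nat_lit 0) (nat_lit 7) (nat_lit 1) (nat_lit 7) .nil))))

noncomputable def dF6as_c274 : Cm := .mk (nat_lit 42) (nat_lit 274) (nat_lit 38) (nat_lit 6) (.c (nat_lit 6) (nat_lit 1) (nat_lit 5) (nat_lit 1) (nat_lit 6) (.c (nat_lit 7) (nat_lit 1) (nat_lit 3) (nat_lit 1) (nat_lit 7) (.c (nat_lit 12) (nat_lit 3) (nat_lit 2) (nat_lit 1) (nat_lit 8) (.c (nat_lit 17) (nat_lit 2) (nat_lit 1) (nat_lit 1) (nat_lit 11) (.c (nat_lit 19) (nat_lit 2) (nat_lit 0) (nat_lit 1) (nat_lit 13) .nil)))))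

noncomputable def dF6as_c34 : Cm := .mk (nat_lit 51) (nat_lit 34) (nat_lit 44) (nat_lit 3) (.c (nat_lit 6) (nat_lit 1) (nat_lit 6) (nat_lit 1) (nat_lit 3) (.c (nat_lit 7) (nat_lit 1) (nat_lit 4) (nat_lit 1) (nat_lit 4) (.c (nat_lit 15) (nat_lit 2) (nat_lit 2) (nat_lit 1) (nat_lit 5) (.c (nat_lit 19) (nat_lit 2) (nat_lit 1) (nat_lit 1) (nat_lit 7) .nil))))

noncomputable def dF6as_c259 : Cm := .mk (nat_lit 56) (nat_lit 259) (nat_lit 47) (nat_lit 3) (.c (nat_lit 7) (nat_lit 1) (nat_lit 5) (nat_lit 1) (nat_lit 3) (.c (nat_lit 17) (nat_lit 2) (nat_lit 2) (nat_lit 1) (nat_lit 4) (.c (nat_lit 21) (nat_lit 1) (nat_lit 0) (nat_lit 1) (nat_lit 6) .nil)))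

noncomputable def dF6as_c19 : Cm := .mk (nat_lit 60) (nat_lit 19) (nat_lit 50) (nat_lit 3) (.c (nat_lit 7) (nat_lit 1) (nat_lit 6) (nat_lit 1) (nat_lit 3) (.c (nat_lit 19) (nat_lit 2) (nat_lit 2) (nat_lit 1) (nat_lit 4) (.c (nat_lit 21) (nat_lit 1) (nat_lit 1) (nat_lit 1) (nat_lit 6) .nil)))

noncomputable def dF6as_c545 : Cm := .mk (nat_lit 64) (nat_lit 545) (nat_lit 53) (nat_lit 11) (.c (nat_lit 8) (nat_lit 1) (nat_lit 6) (nat_lit 1) (nat_lit 11) (.c (nat_lit 9) (nat_lit 2) (nat_lit 5) (nat_lit 1) (nat_lit 12) (.c (nat_lit 11) (nat_lit 1) (nat_lit 4) (nat_lit 1) (nat_lit 14) (.c (nat_lit 12) (nat_lit 3) (nat_lit 3) (nat_lit 1) (nat_lit 15) (.c (nat_lit 22) (nat_lit 3) (nat_lit 2) (nat_lit 1) (nat_lit 18) (.c (nat_lit 25) (nat_lit 4) (nat_lit 1) (nat_lit 1) (nat_lit 21) (.c (nat_lit 29) (nat_lit 6) (nat_lit 0) (nat_lit 1) (nat_lit 25) (.c (nat_lit 2512) (nat_lit 0) (nat_lit 15) (nat_lit 2) (nat_lit 31)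 .nil))))))))

noncomputable def dF6as_c530 : Cm := .mk (nat_lit 84) (nat_lit 530) (nat_lit 64) (nat_lit 11) (.c (nat_lit 8) (nat_lit 1) (nat_lit 7) (nat_lit 1) (nat_lit 11) (.c (nat_lit 11) (nat_lit 1) (nat_lit 6) (nat_lit 1) (nat_lit 12) (.c (nat_lit 12) (nat_lit 3) (nat_lit 5) (nat_lit 1) (nat_lit 13) (.c (nat_lit 17) (nat_lit 2) (nat_lit 3) (nat_lit 1) (nat_lit 16) (.c (nat_lit 25) (nat_lit 4) (nat_lit 2) (nat_lit 1) (nat_lit 18) (.c (nat_lit 35) (nat_lit 3) (nat_lit 1) (nat_lit 1) (nat_lit 22) (.c (nat_lit 38) (nat_lit 6) (nat_lit 0) (nat_lit 1) (nat_lit 25) (.c (nat_lit 2512) (nat_lit 0) (nat_lit 19) (nat_lit 2) (nat_lit 31) .nil))))))))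

noncomputable def dF6as_c290 : Cm := .mk (nat_lit 104) (nat_lit 290) (nat_lit 75) (nat_lit 14) (.c (nat_lit 9) (nat_lit 2) (nat_lit 7) (nat_lit 1) (nat_lit 14) (.c (nat_lit 12) (nat_lit 3) (nat_lit 6) (nat_lit 1) (nat_lit 16) (.c (nat_lit 15) (nat_lit 2) (nat_lit 5) (nat_lit 1) (nat_lit 19) (.c (nat_lit 17) (nat_lit 2) (nat_lit 4) (nat_lit 1) (nat_lit 21) (.c (nat_lit 19) (nat_lit 2) (nat_lit 3) (nat_lit 1) (nat_lit 23) (.c (nat_lit 29) (nat_lit 6) (nat_lit 2) (nat_lit 1) (nat_lit 25) (.c (nat_lit 38) (nat_lit 6) (nat_lit 1) (nat_lit 1) (nat_lit 31) (.c (nat_lit 44) (nat_lit 3) (nat_lit 0) (nat_lit 1) (nat_lit 37) .nil))))))))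

noncomputable def dF6as_c515 : Cm := .mk (nat_lit 130) (nat_lit 515) (nat_lit 89) (nat_lit 5) (.c (nat_lit 11) (nat_lit 1) (nat_lit 7) (nat_lit 1) (nat_lit 5) (.c (nat_lit 17) (nat_lit 2) (nat_lit 5) (nat_lit 1) (nat_lit 6) (.c (nat_lit 35) (nat_lit 3) (nat_lit 2) (nat_lit 1) (nat_lit 8) (.c (nat_lit 47) (nat_lit 3) (nat_lit 0) (nat_lit 1) (nat_lit 11) (.c (nat_lit 2512) (nat_lit 0) (nat_lit 21) (nat_lit 1) (nat_lit 14) .nil)))))

noncomputable def dF6as_c275 : Cm := .mk (nat_lit 139) (nat_lit 275) (nat_lit 94) (nat_lit 11) (.c (nat_lit 12) (nat_lit 3) (nat_lit 7) (nat_lit 1) (nat_lit 11) (.c (nat_lit 17) (nat_lit 2) (nat_lit 6) (nat_lit 1) (nat_lit 14) (.c (nat_lit 19) (nat_lit 2) (nat_lit 5) (nat_lit 1) (nat_lit 16) (.c (nat_lit 21) (nat_lit 1) (nat_lit 3) (nat_lit 1) (nat_lit 18) (.c (nat_lit 38) (nat_lit 6) (nat_lit 2) (nat_lit 1) (nat_lit 19) (.c (nat_lit 47) (nat_lit 3) (nat_lit 1) (nat_lit 1) (nat_lit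 25) (.c (nat_lit 50) (nat_lit 3) (nat_lit 0) (nat_lit 1) (nat_lit 28) .nil)))))))

noncomputable def dF6as_c35 : Cm := .mk (nat_lit 159) (nat_lit 35) (nat_lit 105) (nat_lit 6) (.c (nat_lit 15) (nat_lit 2) (nat_lit 7) (nat_lit 1) (nat_lit 6) (.c (nat_lit 19) (nat_lit 2) (nat_lit 6) (nat_lit 1) (nat_lit 8) (.c (nat_lit 21) (nat_lit 1) (nat_lit 4) (nat_lit 1) (nat_lit 10) (.c (nat_lit 44) (nat_lit 3) (nat_lit 2) (nat_lit 1) (nat_lit 11) (.c (nat_lit 50) (nat_lit 3) (nat_lit 1) (nat_lit 1) (nat_lit 14) .nil)))))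

noncomputable def dF6as_c546 : Cm := .mk (nat_lit 170) (nat_lit 546) (nat_lit 111) (nat_lit 26) (.c (nat_lit 12) (nat_lit 3) (nat_lit 12) (nat_lit 3) (nat_lit 26) (.c (nat_lit 15) (nat_lit 2) (nat_lit 11) (nat_lit 1) (nat_lit 35) (.c (nat_lit 17) (nat_lit 2) (nat_lit 9) (nat_lit 2) (nat_lit 37) (.c (nat_lit 19) (nat_lit 2) (nat_lit 8) (nat_lit 1) (nat_lit 41) (.c (nat_lit 22) (nat_lit 3) (nat_lit 7) (nat_lit 1) (nat_lit 43) (.c (nat_lit 25) (nat_lit 4) (nat_lit 6) (nat_lit 1) (nat_lit 46) (.c (nat_lit 29) (nat_lit 6) (nat_lit 5) (nat_lit 1) (nat_lit 50) (.c (nat_lit 35) (nat_lit 3) (nat_lit 4) (nat_lit 1) (nat_lit 56) (.c (nat_lit 38) (nat_lit 6) (nat_lit 3) (nat_lit 1) (nat_lit 59) (.c (nat_lit 53) (nat_lit 11) (nat_lit 2) (nat_lit 1) (nat_lit 65) (.c (nat_lit 64) (nat_lit 11) (nat_lit 1) (nat_lit 1) (nat_lit 76) (.c (nat_lit 75) (nat_lit 14) (nat_lit 0) (nat_lit 1) (nat_lit 87) (.c (nat_lit 2512) (nat_lit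 0) (nat_lit 44) (nat_lit 3) (nat_lit 101) .nil)))))))))))))

noncomputable def dF6as_c531 : Cm := .mk (nat_lit 237) (nat_lit 531) (nat_lit 137) (nat_lit 20) (.c (nat_lit 17) (nat_lit 2) (nat_lit 12) (nat_lit 3) (nat_lit 20) (.c (nat_lit 19) (nat_lit 2) (nat_lit 11) (nat_lit 1) (nat_lit 26) (.c (nat_lit 21) (nat_lit 1) (nat_lit 8) (nat_lit 1) (nat_lit 28) (.c (nat_lit 25) (nat_lit 4) (nat_lit 7) (nat_lit 1) (nat_lit 29) (.c (nat_lit 35) (nat_lit 3) (nat_lit 6) (nat_lit 1) (nat_lit 33) (.c (nat_lit 38) (nat_lit 6) (nat_lit 5) (nat_lit 1) (nat_lit 36) (.c (nat_lit 47) (nat_lit 3) (nat_lit 3) (nat_lit 1) (nat_lit 42) (.c (nat_lit 64) (nat_lit 11) (nat_lit 2) (nat_lit 1) (nat_lit 45) (.c (nat_lit 89) (nat_lit 5) (nat_lit 1) (nat_lit 1) (nat_lit 56) (.c (nat_lit 94) (nat_lit 11) (nat_lit 0) (nat_lit 1) (nat_lit 61) (.c (nat_lit 2512) (nat_lit 0) (nat_lit 50) (nat_lit 3) (nat_lit 72) .nil)))))))))))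

noncomputable def dF6as_c291 : Cm := .mk (nat_lit 289) (nat_lit 291) (nat_lit 157) (nat_lit 23) (.c (nat_lit 17) (nat_lit 2) (nat_lit 15) (nat_lit 2) (nat_lit 23) (.c (nat_lit 19) (nat_lit 2) (nat_lit 12) (nat_lit 3) (nat_lit 27) (.c (nat_lit 21) (nat_lit 1) (nat_lit 9) (nat_lit 2) (nat_lit 33) (.c (nat_lit 29) (nat_lit 6) (nat_lit 7) (nat_lit 1) (nat_lit 35) (.c (nat_lit 38) (nat_lit 6) (nat_lit 6) (nat_lit 1) (nat_lit 41) (.c (nat_lit 44) (nat_lit 3) (nat_lit 5) (nat_lit 1) (nat_lit 47) (.c (nat_lit 47) (nat_lit 3) (nat_lit 4) (nat_lit 1) (nat_lit 50) (.c (nat_lit 50) (nat_lit 3) (nat_lit 3) (nat_lit 1) (nat_lit 53) (.c (nat_lit 75) (nat_lit 14) (nat_lit 2) (nat_lit 1) (nat_lit 56) (.c (nat_lit 94) (nat_lit 11) (nat_lit 1) (nat_lit 1) (nat_lit 70) (.c (nat_lit 105) (nat_lit 6) (nat_lit 0) (nat_lit 1) (nat_lit 81) .nil)))))))))))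

noncomputable def dF6as_i0 : IL := (.a false (nat_lit 1296) (nat_lit 12) (nat_lit 13) (nat_lit 0) (nat_lit 0) (.a false (nat_lit 1296) (nat_lit 14) (nat_lit 14) (nat_lit 0) (nat_lit 0) (.e true (nat_lit 36) (nat_lit 41) (nat_lit 3) (nat_lit 8) (.e true (nat_lit 36) (nat_lit 55) (nat_lit 2) (nat_lit 9) (.e true (nat_lit 36) (nat_lit 61) (nat_lit 2) (nat_lit 9) (.e true (nat_lit 36) (nat_lit 62) (nat_lit 2) (nat_lit 9) (.e true (nat_lit 36) (nat_lit 63) (nat_lit 2) (nat_lit 9) (.e true (nat_lit 72) (nat_lit 66) (nat_lit 1) (nat_lit 10) (.e true (nat_lit 72) (nat_lit 77) (nat_lit 0) (nat_lit 11) (.e true (nat_lit 72) (nat_lit 79) (nat_lit 0) (nat_lit 11) (.e false (nat_lit 72) (nat_lit 80) (nat_lit 0) (nat_lit 11) (.e false (nat_lit 72) (nat_lit 82) (nat_lit 0) (nat_lit 11) (.e false (nat_lit 36) (nat_lit 84) (nat_lit 0) (nat_lit 11) (.e true (nat_lit 72) (nat_lit 86) (nat_lit 0) (nat_lit 11) (.e false (nat_lit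 72) (nat_lit 87) (nat_lit 0) (nat_lit 11) (.e true (nat_lit 36) (nat_lit 57) (nat_lit 2) (nat_lit 9) (.e false (nat_lit 72) (nat_lit 58) (nat_lit 2) (nat_lit 9) (.e true (nat_lit 72) (nat_lit 69) (nat_lit 1) (nat_lit 10) (.e false (nat_lit 72) (nat_lit 73) (nat_lit 1) (nat_lit 10) (.e false (nat_lit 72) (nat_lit 74) (nat_lit 1) (nat_lit 10) (.e false (nat_lit 72) (nat_lit 76) (nat_lit 0) (nat_lit 11) (.e false (nat_lit 72) (nat_lit 70) (nat_lit 1) (nat_lit 10) (.e true (nat_lit 72) (nat_lit 71) (nat_lit 1) (nat_lit 10) (.e false (nat_lit 36) (nat_lit 54) (nat_lit 2) (nat_lit 9) (.e true (nat_lit 36) (nat_lit 56) (nat_lit 2) (nat_lit 9) .nil)))))))))))))))))))))))))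

noncomputable def dF6as_i1 : IL := (.a true (nat_lit 20155392) (nat_lit 13) (nat_lit 14) (nat_lit 0) (nat_lit 0) (.a true (nat_lit 10077696) (nat_lit 12) (nat_lit 12) (nat_lit 0) (nat_lit 0) (.a false (nat_lit 10077696) (nat_lit 13) (nat_lit 13) (nat_lit 0) (nat_lit 0) (.e true (nat_lit 1119744) (nat_lit 76) (nat_lit 0) (nat_lit 11) (.e false (nat_lit 1119744) (nat_lit 77) (nat_lit 0) (nat_lit 11) (.e false (nat_lit 1679616) (nat_lit 79) (nat_lit 0) (nat_lit 11) (.e true (nat_lit 559872) (nat_lit 80) (nat_lit 0) (nat_lit 11) (.e true (nat_lit 1119744) (nat_lit 82) (nat_lit 0) (nat_lit 11) (.e true (nat_lit 1119744) (nat_lit 84) (nat_lit 0) (nat_lit 11) (.e false (nat_lit 1679616) (nat_lit 86) (nat_lit 0) (nat_lit 11) (.e true (nat_lit 1679616) (nat_lit 87) (nat_lit 0) (nat_lit 11) (.e false (nat_lit 1119744) (nat_lit 57) (nat_lit 2) (nat_lit 9) (.e false (nat_lit 559872) (nat_lit 62) (nat_lit 2) (nat_lit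 9) (.e false (nat_lit 1119744) (nat_lit 43) (nat_lit 3) (nat_lit 8) (.e false (nat_lit 1679616) (nat_lit 69) (nat_lit 1) (nat_lit 10) (.e true (nat_lit 1679616) (nat_lit 70) (nat_lit 1) (nat_lit 10) (.e true (nat_lit 1679616) (nat_lit 73) (nat_lit 1) (nat_lit 10) (.e true (nat_lit 2239488) (nat_lit 74) (nat_lit 1) (nat_lit 10) (.e false (nat_lit 2239488) (nat_lit 66) (nat_lit 1) (nat_lit 10) (.e true (nat_lit 559872) (nat_lit 65) (nat_lit 1) (nat_lit 10) (.e false (nat_lit 1119744) (nat_lit 71) (nat_lit 1) (nat_lit 10) (.e true (nat_lit 559872) (nat_lit 54) (nat_lit 2) (nat_lit 9) (.e false (nat_lit 559872) (nat_lit 55) (nat_lit 2) (nat_lit 9) (.e false (nat_lit 559872) (nat_lit 56) (nat_lit 2) (nat_lit 9) (.e true (nat_lit 559872) (nat_lit 81) (nat_lit 0) (nat_lit 11) .nil)))))))))))))))))))))))))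

noncomputable def dF6as_i2 : IL := (.e false (nat_lit 8957952) (nat_lit 43) (nat_lit 3) (nat_lit 8) (.e false (nat_lit 1119744) (nat_lit 55) (nat_lit 2) (nat_lit 9) (.e false (nat_lit 1119744) (nat_lit 56) (nat_lit 2) (nat_lit 9) (.e true (nat_lit 11197440) (nat_lit 58) (nat_lit 2) (nat_lit 9) (.e false (nat_lit 8957952) (nat_lit 61) (nat_lit 2) (nat_lit 9) (.e true (nat_lit 3359232) (nat_lit 62) (nat_lit 2) (nat_lit 9) (.e false (nat_lit 4478976) (nat_lit 63) (nat_lit 2) (nat_lit 9) (.e false (nat_lit 1119744) (nat_lit 54) (nat_lit 2) (nat_lit 9) (.e true (nat_lit 2239488) (nat_lit 57) (nat_lit 2) (nat_lit 9) (.e false (nat_lit 5598720) (nat_lit 65) (nat_lit 1) (nat_lit 10) (.e false (nat_lit 1119744) (nat_lit 70) (nat_lit 1) (nat_lit 10) (.e false (nat_lit 2239488) (nat_lit 64) (nat_lit 1) (nat_lit 10) (.e true (nat_lit 6718464) (nat_lit 66) (nat_lit 1) (nat_lit 10) (.e false (nat_lit 3359232) (nat_lit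 69) (nat_lit 1) (nat_lit 10) (.e false (nat_lit 1119744) (nat_lit 73) (nat_lit 1) (nat_lit 10) (.e false (nat_lit 6718464) (nat_lit 74) (nat_lit 1) (nat_lit 10) (.e true (nat_lit 1119744) (nat_lit 76) (nat_lit 0) (nat_lit 11) (.e false (nat_lit 2799360) (nat_lit 77) (nat_lit 0) (nat_lit 11) (.e true (nat_lit 1679616) (nat_lit 79) (nat_lit 0) (nat_lit 11) (.e true (nat_lit 9517824) (nat_lit 80) (nat_lit 0) (nat_lit 11) (.e true (nat_lit 5598720) (nat_lit 82) (nat_lit 0) (nat_lit 11) (.e false (nat_lit 5038848) (nat_lit 84) (nat_lit 0) (nat_lit 11) (.e true (nat_lit 5598720) (nat_lit 86) (nat_lit 0) (nat_lit 11) (.e false (nat_lit 6158592) (nat_lit 88) (nat_lit 0) (nat_lit 11) (.e false (nat_lit 8957952) (nat_lit 81) (nat_lit 0) (nat_lit 11) .nil)))))))))))))))))))))))))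

noncomputable def dF6as_i3 : IL := (.s false (nat_lit 62208) (nat_lit 5) (nat_lit 2) (nat_lit 1) (nat_lit 3) true (nat_lit 0) true (nat_lit 8) true (nat_lit 6) true (nat_lit 9) true (nat_lit 10) (.s false (nat_lit 186624) (nat_lit 5) (nat_lit 2) (nat_lit 3) (nat_lit 1) true (nat_lit 5) true (nat_lit 10) true (nat_lit 6) true (nat_lit 9) true (nat_lit 8) (.s true (nat_lit 342144) (nat_lit 6) (nat_lit 0) (nat_lit 0) (nat_lit 6) true (nat_lit 0) true (nat_lit 5) true (nat_lit 5) true (nat_lit 11) true (nat_lit 11) (.s false (nat_lit 93312) (nat_lit 6) (nat_lit 0) (nat_lit 3) (nat_lit 2) true (nat_lit 6) true (nat_lit 9) true (nat_lit 5) true (nat_lit 11) true (nat_lit 8) (.s false (nat_lit 62208) (nat_lit 6) (nat_lit 2) (nat_lit 3) (nat_lit 0) true (nat_lit 6) true (nat_lit 11) true (nat_lit 5) true (nat_lit 9) true (nat_lit 8) (.s false (nat_lit 279936) (nat_lit 6) (nat_lit 5) (nat_lit 0) (nat_lit 1) true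 (nat_lit 0) true (nat_lit 10) true (nat_lit 5) true (nat_lit 6) true (nat_lit 11) (.s false (nat_lit 186624) (nat_lit 12) (nat_lit 0) (nat_lit 1) (nat_lit 2) true (nat_lit 6) true (nat_lit 9) true (nat_lit 0) true (nat_lit 11) true (nat_lit 10) (.s false (nat_lit 62208) (nat_lit 12) (nat_lit 0) (nat_lit 2) (nat_lit 1) true (nat_lit 8) true (nat_lit 10) true (nat_lit 0) true (nat_lit 11) true (nat_lit 9) (.s false (nat_lit 186624) (nat_lit 13) (nat_lit 0) (nat_lit 2) (nat_lit 1) true (nat_lit 8) true (nat_lit 10) true (nat_lit 0) true (nat_lit 11) true (nat_lit 9) (.s true (nat_lit 155520) (nat_lit 12) (nat_lit 1) (nat_lit 0) (nat_lit 2) true (nat_lit 5) true (nat_lit 9) true (nat_lit 0) true (nat_lit 10) true (nat_lit 11) (.s true (nat_lit 62208) (nat_lit 13) (nat_lit 1) (nat_lit 0) (nat_lit 2) true (nat_lit 5) true (nat_lit 9) true (nat_lit 0) true (nat_lit 10) true (nat_lit 11) (.s false (nat_lit 124416)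 (nat_lit 13) (nat_lit 1) (nat_lit 2) (nat_lit 0) true (nat_lit 8) true (nat_lit 11) true (nat_lit 0) true (nat_lit 10) true (nat_lit 9) (.s false (nat_lit 124416) (nat_lit 14) (nat_lit 1) (nat_lit 2) (nat_lit 0) true (nat_lit 8) true (nat_lit 11) true (nat_lit 0) true (nat_lit 10) true (nat_lit 9) (.s true (nat_lit 62208) (nat_lit 12) (nat_lit 2) (nat_lit 0) (nat_lit 1) true (nat_lit 5) true (nat_lit 10) true (nat_lit 0) true (nat_lit 9) true (nat_lit 11) (.s false (nat_lit 155520) (nat_lit 13) (nat_lit 2) (nat_lit 0) (nat_lit 1) true (nat_lit 5) true (nat_lit 10) true (nat_lit 0) true (nat_lit 9) true (nat_lit 11) (.s true (nat_lit 155520) (nat_lit 14) (nat_lit 2) (nat_lit 0) (nat_lit 1) true (nat_lit 5) true (nat_lit 10) true (nat_lit 0) true (nat_lit 9) true (nat_lit 11) (.s false (nat_lit 186624) (nat_lit 17) (nat_lit 0) (nat_lit 1) (nat_lit 1) true (nat_lit 8) true (nat_lit 10) false (nat_lit 2) true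 (nat_lit 11) true (nat_lit 10) (.s false (nat_lit 217728) (nat_lit 19) (nat_lit 0) (nat_lit 0) (nat_lit 1) true (nat_lit 8) true (nat_lit 10) false (nat_lit 3) true (nat_lit 11) true (nat_lit 11) (.i true (nat_lit 1) (nat_lit 2) (.c (nat_lit 2) (nat_lit 1) (.c (nat_lit 2) (nat_lit 1) (.c (nat_lit 1) (nat_lit 16) (.c (nat_lit 1) (nat_lit 16) (.c (nat_lit 0) (nat_lit 256) (.c (nat_lit 0) (nat_lit 256) .nil)))))) (.a true (nat_lit 262020096) (nat_lit 12) (nat_lit 12) (nat_lit 0) (nat_lit 0) (.a true (nat_lit 141087744) (nat_lit 14) (nat_lit 14) (nat_lit 0) (nat_lit 0) (.a true (nat_lit 20155392) (nat_lit 13) (nat_lit 13) (nat_lit 0) (nat_lit 0) (.a true (nat_lit 80621568) (nat_lit 12) (nat_lit 13) (nat_lit 0) (nat_lit 0) (.a true (nat_lit 201553920) (nat_lit 13) (nat_lit 14) (nat_lit 0) (nat_lit 0) (.e false (nat_lit 6718464) (nat_lit 41) (nat_lit 3) (nat_lit 8) dF6as_i2)))))))))))))))))))))))))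

noncomputable def dF6as_i4 : IL := (.a false (nat_lit 60466176) (nat_lit 12) (nat_lit 12) (nat_lit 0) (nat_lit 0) (.a false (nat_lit 20155392) (nat_lit 13) (nat_lit 13) (nat_lit 0) (nat_lit 0) (.a false (nat_lit 80621568) (nat_lit 12) (nat_lit 13) (nat_lit 0) (nat_lit 0) (.a false (nat_lit 40310784) (nat_lit 13) (nat_lit 14) (nat_lit 0) (nat_lit 0) (.e true (nat_lit 1119744) (nat_lit 55) (nat_lit 2) (nat_lit 9) (.e false (nat_lit 1119744) (nat_lit 62) (nat_lit 2) (nat_lit 9) (.e false (nat_lit 2239488) (nat_lit 64) (nat_lit 1) (nat_lit 10) (.e false (nat_lit 3359232) (nat_lit 65) (nat_lit 1) (nat_lit 10) (.e true (nat_lit 2239488) (nat_lit 66) (nat_lit 1) (nat_lit 10) (.e true (nat_lit 1119744) (nat_lit 69) (nat_lit 1) (nat_lit 10) (.e false (nat_lit 1119744) (nat_lit 70) (nat_lit 1) (nat_lit 10) (.e true (nat_lit 2239488) (nat_lit 71) (nat_lit 1) (nat_lit 10) (.e true (nat_lit 1119744) (nat_lit 73) (nat_lit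 1) (nat_lit 10) (.e true (nat_lit 1119744) (nat_lit 76) (nat_lit 0) (nat_lit 11) (.e false (nat_lit 1679616) (nat_lit 77) (nat_lit 0) (nat_lit 11) (.e false (nat_lit 1679616) (nat_lit 78) (nat_lit 0) (nat_lit 11) (.e false (nat_lit 1679616) (nat_lit 79) (nat_lit 0) (nat_lit 11) (.e false (nat_lit 559872) (nat_lit 80) (nat_lit 0) (nat_lit 11) (.e false (nat_lit 1119744) (nat_lit 82) (nat_lit 0) (nat_lit 11) (.e true (nat_lit 559872) (nat_lit 84) (nat_lit 0) (nat_lit 11) (.e false (nat_lit 1119744) (nat_lit 86) (nat_lit 0) (nat_lit 11) (.e true (nat_lit 2239488) (nat_lit 87) (nat_lit 0) (nat_lit 11) (.e false (nat_lit 559872) (nat_lit 88) (nat_lit 0) (nat_lit 11) (.e true (nat_lit 3359232) (nat_lit 56) (nat_lit 2) (nat_lit 9) (.e false (nat_lit 1119744) (nat_lit 54) (nat_lit 2) (nat_lit 9) .nil)))))))))))))))))))))))))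

noncomputable def dF6as_i5 : IL := (.s false (nat_lit 1) (nat_lit 14) (nat_lit 2) (nat_lit 0) (nat_lit 1) true (nat_lit 5) true (nat_lit 10) true (nat_lit 0) true (nat_lit 9) true (nat_lit 11) (.a true (nat_lit 648) (nat_lit 14) (nat_lit 14) (nat_lit 0) (nat_lit 0) (.a true (nat_lit 648) (nat_lit 13) (nat_lit 13) (nat_lit 0) (nat_lit 0) (.a false (nat_lit 1296) (nat_lit 13) (nat_lit 14) (nat_lit 0) (nat_lit 0) (.e true (nat_lit 36) (nat_lit 41) (nat_lit 3) (nat_lit 8) (.e true (nat_lit 36) (nat_lit 55) (nat_lit 2) (nat_lit 9) (.e false (nat_lit 36) (nat_lit 58) (nat_lit 2) (nat_lit 9) (.e false (nat_lit 72) (nat_lit 62) (nat_lit 2) (nat_lit 9) (.e false (nat_lit 36) (nat_lit 57) (nat_lit 2) (nat_lit 9) (.e false (nat_lit 36) (nat_lit 17) (nat_lit 9) (nat_lit 2) (.e true (nat_lit 180) (nat_lit 65) (nat_lit 1) (nat_lit 10) (.e true (nat_lit 144) (nat_lit 70) (nat_lit 1) (nat_lit 10) (.e false (nat_lit 108)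 (nat_lit 71) (nat_lit 1) (nat_lit 10) (.e true (nat_lit 72) (nat_lit 64) (nat_lit 1) (nat_lit 10) (.e false (nat_lit 144) (nat_lit 66) (nat_lit 1) (nat_lit 10) (.e false (nat_lit 36) (nat_lit 76) (nat_lit 0) (nat_lit 11) (.e true (nat_lit 36) (nat_lit 77) (nat_lit 0) (nat_lit 11) (.e true (nat_lit 36) (nat_lit 78) (nat_lit 0) (nat_lit 11) (.e true (nat_lit 36) (nat_lit 84) (nat_lit 0) (nat_lit 11) (.e false (nat_lit 36) (nat_lit 86) (nat_lit 0) (nat_lit 11) (.e true (nat_lit 36) (nat_lit 88) (nat_lit 0) (nat_lit 11) (.e true (nat_lit 36) (nat_lit 81) (nat_lit 0) (nat_lit 11) (.e false (nat_lit 72) (nat_lit 69) (nat_lit 1) (nat_lit 10) (.e true (nat_lit 36) (nat_lit 73) (nat_lit 1) (nat_lit 10) (.e true (nat_lit 108) (nat_lit 74) (nat_lit 1) (nat_lit 10) .nil)))))))))))))))))))))))))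

noncomputable def dF6as_i6 : IL := (.a true (nat_lit 648) (nat_lit 12) (nat_lit 12) (nat_lit 0) (nat_lit 0) (.a false (nat_lit 648) (nat_lit 13) (nat_lit 13) (nat_lit 0) (nat_lit 0) (.a true (nat_lit 1296) (nat_lit 13) (nat_lit 14) (nat_lit 0) (nat_lit 0) (.e false (nat_lit 36) (nat_lit 77) (nat_lit 0) (nat_lit 11) (.e true (nat_lit 36) (nat_lit 78) (nat_lit 0) (nat_lit 11) (.e true (nat_lit 72) (nat_lit 80) (nat_lit 0) (nat_lit 11) (.e false (nat_lit 36) (nat_lit 84) (nat_lit 0) (nat_lit 11) (.e true (nat_lit 36) (nat_lit 86) (nat_lit 0) (nat_lit 11) (.e true (nat_lit 36) (nat_lit 87) (nat_lit 0) (nat_lit 11) (.e false (nat_lit 72) (nat_lit 88) (nat_lit 0) (nat_lit 11) (.e true (nat_lit 72) (nat_lit 57) (nat_lit 2) (nat_lit 9) (.e true (nat_lit 144) (nat_lit 58) (nat_lit 2) (nat_lit 9) (.e true (nat_lit 72) (nat_lit 60) (nat_lit 2) (nat_lit 9) (.e false (nat_lit 216) (nat_lit 61) (nat_lit 2) (nat_lit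 9) (.e false (nat_lit 108) (nat_lit 62) (nat_lit 2) (nat_lit 9) (.e false (nat_lit 144) (nat_lit 63) (nat_lit 2) (nat_lit 9) (.e false (nat_lit 72) (nat_lit 43) (nat_lit 3) (nat_lit 8) (.e false (nat_lit 36) (nat_lit 69) (nat_lit 1) (nat_lit 10) (.e true (nat_lit 36) (nat_lit 70) (nat_lit 1) (nat_lit 10) (.e true (nat_lit 36) (nat_lit 73) (nat_lit 1) (nat_lit 10) (.e true (nat_lit 36) (nat_lit 65) (nat_lit 1) (nat_lit 10) (.e true (nat_lit 36) (nat_lit 54) (nat_lit 2) (nat_lit 9) (.e false (nat_lit 36) (nat_lit 55) (nat_lit 2) (nat_lit 9) (.e false (nat_lit 36) (nat_lit 56) (nat_lit 2) (nat_lit 9) (.e false (nat_lit 36) (nat_lit 81) (nat_lit 0) (nat_lit 11) .nil)))))))))))))))))))))))))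

noncomputable def dF6as_i7 : IL := (.s true (nat_lit 1) (nat_lit 17) (nat_lit 0) (nat_lit 1) (nat_lit 1) true (nat_lit 8) true (nat_lit 10) false (nat_lit 2) true (nat_lit 11) true (nat_lit 10) (.s true (nat_lit 1) (nat_lit 19) (nat_lit 0) (nat_lit 0) (nat_lit 1) true (nat_lit 8) true (nat_lit 10) false (nat_lit 3) true (nat_lit 11) true (nat_lit 11) (.a false (nat_lit 648) (nat_lit 12) (nat_lit 12) (nat_lit 0) (nat_lit 0) (.a false (nat_lit 1296) (nat_lit 12) (nat_lit 13) (nat_lit 0) (nat_lit 0) (.a false (nat_lit 648) (nat_lit 14) (nat_lit 14) (nat_lit 0) (nat_lit 0) (.a true (nat_lit 648) (nat_lit 13) (nat_lit 13) (nat_lit 0) (nat_lit 0) (.e false (nat_lit 36) (nat_lit 59) (nat_lit 2) (nat_lit 9) (.e false (nat_lit 36) (nat_lit 60) (nat_lit 2) (nat_lit 9) (.e true (nat_lit 72) (nat_lit 61) (nat_lit 2) (nat_lit 9) (.e true (nat_lit 72) (nat_lit 62) (nat_lit 2) (nat_lit 9) (.e true (nat_lit 72) (nat_lit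 63) (nat_lit 2) (nat_lit 9) (.e false (nat_lit 72) (nat_lit 64) (nat_lit 1) (nat_lit 10) (.e false (nat_lit 108) (nat_lit 65) (nat_lit 1) (nat_lit 10) (.e true (nat_lit 72) (nat_lit 66) (nat_lit 1) (nat_lit 10) (.e false (nat_lit 36) (nat_lit 81) (nat_lit 0) (nat_lit 11) (.e false (nat_lit 36) (nat_lit 84) (nat_lit 0) (nat_lit 11) (.e false (nat_lit 36) (nat_lit 87) (nat_lit 0) (nat_lit 11) (.e false (nat_lit 36) (nat_lit 88) (nat_lit 0) (nat_lit 11) (.e false (nat_lit 36) (nat_lit 58) (nat_lit 2) (nat_lit 9) (.e false (nat_lit 36) (nat_lit 70) (nat_lit 1) (nat_lit 10) (.e true (nat_lit 72) (nat_lit 71) (nat_lit 1) (nat_lit 10) (.e false (nat_lit 36) (nat_lit 54) (nat_lit 2) (nat_lit 9) (.e true (nat_lit 36) (nat_lit 56) (nat_lit 2) (nat_lit 9) (.e true (nat_lit 36) (nat_lit 17) (nat_lit 9) (nat_lit 2) (.e true (nat_lit 36) (nat_lit 43) (nat_lit 3) (nat_lit 8) .nil)))))))))))))))))))))))))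

noncomputable def dF6as_i8 : IL := (.s true (nat_lit 1) (nat_lit 5) (nat_lit 1) (nat_lit 2) (nat_lit 3) true (nat_lit 2) true (nat_lit 8) true (nat_lit 6) true (nat_lit 10) true (nat_lit 9) (.s true (nat_lit 1) (nat_lit 6) (nat_lit 2) (nat_lit 3) (nat_lit 0) true (nat_lit 6) true (nat_lit 11) true (nat_lit 5) true (nat_lit 9) true (nat_lit 8) (.s true (nat_lit 1) (nat_lit 12) (nat_lit 1) (nat_lit 0) (nat_lit 2) true (nat_lit 5) true (nat_lit 9) true (nat_lit 0) true (nat_lit 10) true (nat_lit 11) (.s true (nat_lit 1) (nat_lit 14) (nat_lit 1) (nat_lit 2) (nat_lit 0) true (nat_lit 8) true (nat_lit 11) true (nat_lit 0) true (nat_lit 10) true (nat_lit 9) (.s false (nat_lit 1) (nat_lit 19) (nat_lit 0) (nat_lit 0) (nat_lit 1) true (nat_lit 8) true (nat_lit 10) false (nat_lit 3) true (nat_lit 11) true (nat_lit 11) (.a true (nat_lit 648) (nat_lit 12) (nat_lit 12) (nat_lit 0) (nat_lit 0) (.a true (nat_lit 648)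 (nat_lit 14) (nat_lit 14) (nat_lit 0) (nat_lit 0) (.e true (nat_lit 36) (nat_lit 17) (nat_lit 9) (nat_lit 2) (.e true (nat_lit 36) (nat_lit 70) (nat_lit 1) (nat_lit 10) (.e true (nat_lit 36) (nat_lit 55) (nat_lit 2) (nat_lit 9) (.e true (nat_lit 36) (nat_lit 56) (nat_lit 2) (nat_lit 9) (.e false (nat_lit 36) (nat_lit 57) (nat_lit 2) (nat_lit 9) (.e true (nat_lit 36) (nat_lit 78) (nat_lit 0) (nat_lit 11) (.e true (nat_lit 36) (nat_lit 80) (nat_lit 0) (nat_lit 11) (.e true (nat_lit 36) (nat_lit 87) (nat_lit 0) (nat_lit 11) (.e true (nat_lit 36) (nat_lit 58) (nat_lit 2) (nat_lit 9) (.e false (nat_lit 36) (nat_lit 61) (nat_lit 2) (nat_lit 9) (.e false (nat_lit 72) (nat_lit 62) (nat_lit 2) (nat_lit 9) (.e false (nat_lit 36) (nat_lit 63) (nat_lit 2) (nat_lit 9) (.e true (nat_lit 36) (nat_lit 60) (nat_lit 2) (nat_lit 9) (.e false (nat_lit 36) (nat_lit 66) (nat_lit 1) (nat_lit 10) (.e false (nat_lit 36) (nat_lit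 69) (nat_lit 1) (nat_lit 10) (.e true (nat_lit 36) (nat_lit 73) (nat_lit 1) (nat_lit 10) (.e true (nat_lit 36) (nat_lit 74) (nat_lit 1) (nat_lit 10) (.e false (nat_lit 36) (nat_lit 43) (nat_lit 3) (nat_lit 8) .nil)))))))))))))))))))))))))

noncomputable def dF6as_i9 : IL := (.s false (nat_lit 1) (nat_lit 5) (nat_lit 1) (nat_lit 2) (nat_lit 3) true (nat_lit 2) true (nat_lit 8) true (nat_lit 6) true (nat_lit 10) true (nat_lit 9) (.s false (nat_lit 1) (nat_lit 6) (nat_lit 0) (nat_lit 3) (nat_lit 2) true (nat_lit 6) true (nat_lit 9) true (nat_lit 5) true (nat_lit 11) true (nat_lit 8) (.s true (nat_lit 1) (nat_lit 12) (nat_lit 1) (nat_lit 0) (nat_lit 2) true (nat_lit 5) true (nat_lit 9) true (nat_lit 0) true (nat_lit 10) true (nat_lit 11) (.s false (nat_lit 1) (nat_lit 13) (nat_lit 2) (nat_lit 0) (nat_lit 1) true (nat_lit 5) true (nat_lit 10) true (nat_lit 0) true (nat_lit 9) true (nat_lit 11) (.a true (nat_lit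 648) (nat_lit 12) (nat_lit 12) (nat_lit 0) (nat_lit 0) (.a false (nat_lit 648) (nat_lit 13) (nat_lit 13) (nat_lit 0) (nat_lit 0) (.e false (nat_lit 36) (nat_lit 17) (nat_lit 9) (nat_lit 2) (.e false (nat_lit 36) (nat_lit 39) (nat_lit 3) (nat_lit 8) (.e true (nat_lit 72) (nat_lit 65) (nat_lit 1) (nat_lit 10) (.e true (nat_lit 36) (nat_lit 70) (nat_lit 1) (nat_lit 10) (.e false (nat_lit 72) (nat_lit 71) (nat_lit 1) (nat_lit 10) (.e false (nat_lit 72) (nat_lit 55) (nat_lit 2) (nat_lit 9) (.e false (nat_lit 72) (nat_lit 56) (nat_lit 2) (nat_lit 9) (.e true (nat_lit 72) (nat_lit 57) (nat_lit 2) (nat_lit 9) (.e true (nat_lit 72) (nat_lit 58) (nat_lit 2) (nat_lit 9) (.e true (nat_lit 36) (nat_lit 59) (nat_lit 2) (nat_lit 9) (.e true (nat_lit 36) (nat_lit 60) (nat_lit 2) (nat_lit 9) (.e false (nat_lit 108) (nat_lit 61) (nat_lit 2) (nat_lit 9) (.e false (nat_lit 36) (nat_lit 62) (nat_lit 2) (nat_lit 9) (.e false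 (nat_lit 72) (nat_lit 63) (nat_lit 2) (nat_lit 9) (.e false (nat_lit 36) (nat_lit 88) (nat_lit 0) (nat_lit 11) (.e false (nat_lit 36) (nat_lit 43) (nat_lit 3) (nat_lit 8) (.e true (nat_lit 36) (nat_lit 80) (nat_lit 0) (nat_lit 11) (.e true (nat_lit 36) (nat_lit 54) (nat_lit 2) (nat_lit 9) (.e false (nat_lit 36) (nat_lit 77) (nat_lit 0) (nat_lit 11) .nil)))))))))))))))))))))))))

noncomputable def dF6as_i10 : IL := (.s false (nat_lit 1) (nat_lit 12) (nat_lit 2) (nat_lit 0) (nat_lit 1) true (nat_lit 5) true (nat_lit 10) true (nat_lit 0) true (nat_lit 9) true (nat_lit 11) (.s false (nat_lit 1) (nat_lit 14) (nat_lit 2) (nat_lit 1) (nat_lit 0) true (nat_lit 6) true (nat_lit 11) true (nat_lit 0) true (nat_lit 9) true (nat_lit 10) (.a true (nat_lit 1296) (nat_lit 12) (nat_lit 13) (nat_lit 0) (nat_lit 0) (.a true (nat_lit 648) (nat_lit 12) (nat_lit 12) (nat_lit 0) (nat_lit 0) (.a false (nat_lit 648) (nat_lit 14)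 (nat_lit 14) (nat_lit 0) (nat_lit 0) (.e true (nat_lit 36) (nat_lit 39) (nat_lit 3) (nat_lit 8) (.e false (nat_lit 72) (nat_lit 65) (nat_lit 1) (nat_lit 10) (.e false (nat_lit 36) (nat_lit 70) (nat_lit 1) (nat_lit 10) (.e false (nat_lit 36) (nat_lit 55) (nat_lit 2) (nat_lit 9) (.e false (nat_lit 36) (nat_lit 56) (nat_lit 2) (nat_lit 9) (.e true (nat_lit 72) (nat_lit 58) (nat_lit 2) (nat_lit 9) (.e true (nat_lit 36) (nat_lit 59) (nat_lit 2) (nat_lit 9) (.e false (nat_lit 36) (nat_lit 60) (nat_lit 2) (nat_lit 9) (.e false (nat_lit 72) (nat_lit 61) (nat_lit 2) (nat_lit 9) (.e false (nat_lit 36) (nat_lit 63) (nat_lit 2) (nat_lit 9) (.e false (nat_lit 36) (nat_lit 81) (nat_lit 0) (nat_lit 11) (.e true (nat_lit 36) (nat_lit 82) (nat_lit 0) (nat_lit 11) (.e false (nat_lit 36) (nat_lit 84) (nat_lit 0) (nat_lit 11) (.e false (nat_lit 72) (nat_lit 87) (nat_lit 0) (nat_lit 11) (.e true (nat_lit 36) (nat_lit 54) (nat_lit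 2) (nat_lit 9) (.e true (nat_lit 36) (nat_lit 78) (nat_lit 0) (nat_lit 11) (.e false (nat_lit 72) (nat_lit 38) (nat_lit 3) (nat_lit 8) (.e true (nat_lit 36) (nat_lit 80) (nat_lit 0) (nat_lit 11) (.e false (nat_lit 36) (nat_lit 69) (nat_lit 1) (nat_lit 10) (.e true (nat_lit 36) (nat_lit 66) (nat_lit 1) (nat_lit 10) .nil)))))))))))))))))))))))))

noncomputable def dF6as_i11 : IL := (.s true (nat_lit 15552) (nat_lit 12) (nat_lit 0) (nat_lit 2) (nat_lit 2) true (nat_lit 5) true (nat_lit 7) true (nat_lit 0) true (nat_lit 9) true (nat_lit 7) (.s true (nat_lit 15552) (nat_lit 18) (nat_lit 0) (nat_lit 2) (nat_lit 1) true (nat_lit 6) true (nat_lit 8) false (nat_lit 0) true (nat_lit 9) true (nat_lit 7) (.s true (nat_lit 15552) (nat_lit 18) (nat_lit 2) (nat_lit 0) (nat_lit 1) true (nat_lit 4) true (nat_lit 8) false (nat_lit 0) true (nat_lit 7) true (nat_lit 9) (.s true (nat_lit 15552) (nat_lit 18) (nat_lit 2) (nat_lit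 1) (nat_lit 0) true (nat_lit 5) true (nat_lit 9) false (nat_lit 0) true (nat_lit 7) true (nat_lit 8) (.s true (nat_lit 15552) (nat_lit 19) (nat_lit 0) (nat_lit 0) (nat_lit 2) true (nat_lit 5) true (nat_lit 7) false (nat_lit 1) true (nat_lit 9) true (nat_lit 9) (.s true (nat_lit 15552) (nat_lit 21) (nat_lit 0) (nat_lit 0) (nat_lit 1) true (nat_lit 6) true (nat_lit 8) false (nat_lit 2) true (nat_lit 9) true (nat_lit 9) (.i true (nat_lit 1) (nat_lit 2) (.c (nat_lit 2) (nat_lit 1) (.c (nat_lit 2) (nat_lit 1) (.c (nat_lit 2) (nat_lit 1) (.c (nat_lit 1) (nat_lit 16) (.c (nat_lit 0) (nat_lit 256) (.c (nat_lit 0) (nat_lit 256) .nil)))))) (.e true (nat_lit 1119744) (nat_lit 65) (nat_lit 2) (nat_lit 7) (.e true (nat_lit 559872) (nat_lit 68) (nat_lit 2) (nat_lit 7) (.e true (nat_lit 1119744) (nat_lit 69) (nat_lit 2) (nat_lit 7) (.e true (nat_lit 559872) (nat_lit 70) (nat_lit 2) (nat_lit 7) (.e false (nat_lit 559872)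 (nat_lit 71) (nat_lit 2) (nat_lit 7) (.e false (nat_lit 559872) (nat_lit 72) (nat_lit 2) (nat_lit 7) (.e true (nat_lit 559872) (nat_lit 95) (nat_lit 0) (nat_lit 9) (.e false (nat_lit 559872) (nat_lit 96) (nat_lit 0) (nat_lit 9) (.e false (nat_lit 559872) (nat_lit 97) (nat_lit 0) (nat_lit 9) (.e true (nat_lit 1119744) (nat_lit 98) (nat_lit 0) (nat_lit 9) (.e true (nat_lit 2239488) (nat_lit 99) (nat_lit 0) (nat_lit 9) (.e false (nat_lit 559872) (nat_lit 100) (nat_lit 0) (nat_lit 9) (.e true (nat_lit 559872) (nat_lit 101) (nat_lit 0) (nat_lit 9) (.e false (nat_lit 1119744) (nat_lit 103) (nat_lit 0) (nat_lit 9) (.e false (nat_lit 1119744) (nat_lit 94) (nat_lit 0) (nat_lit 9) (.e true (nat_lit 559872) (nat_lit 92) (nat_lit 1) (nat_lit 8) (.e true (nat_lit 559872) (nat_lit 42) (nat_lit 5) (nat_lit 5) (.e true (nat_lit 559872) (nat_lit 93) (nat_lit 1) (nat_lit 8) .nil)))))))))))))))))))))))))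

noncomputable def dF6as_i12 : IL := (.s false (nat_lit 1) (nat_lit 6) (nat_lit 2) (nat_lit 5) (nat_lit 0) true (nat_lit 5) true (nat_lit 9) true (nat_lit 4) true (nat_lit 7) true (nat_lit 5) (.s true (nat_lit 1) (nat_lit 6) (nat_lit 5) (nat_lit 0) (nat_lit 2) false (nat_lit 0) true (nat_lit 7) true (nat_lit 4) true (nat_lit 5) true (nat_lit 9) (.s true (nat_lit 1) (nat_lit 6) (nat_lit 5) (nat_lit 2) (nat_lit 0) true (nat_lit 1) true (nat_lit 9) true (nat_lit 4) true (nat_lit 5) true (nat_lit 7) (.s true (nat_lit 1) (nat_lit 7) (nat_lit 0) (nat_lit 5) (nat_lit 1) true (nat_lit 6) true (nat_lit 8) true (nat_lit 3) true (nat_lit 9) true (nat_lit 5) (.s true (nat_lit 1) (nat_lit 11) (nat_lit 1) (nat_lit 2) (nat_lit 2) true (nat_lit 4) true (nat_lit 7) true (nat_lit 1) true (nat_lit 8) true (nat_lit 7) (.s true (nat_lit 1) (nat_lit 11) (nat_lit 2) (nat_lit 1) (nat_lit 2) true (nat_lit 3) true (nat_lit 7) true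 (nat_lit 1) true (nat_lit 7) true (nat_lit 8) (.s true (nat_lit 1) (nat_lit 17) (nat_lit 0) (nat_lit 1) (nat_lit 2) true (nat_lit 5) true (nat_lit 7) false (nat_lit 0) true (nat_lit 9) true (nat_lit 8) (.s true (nat_lit 1) (nat_lit 17) (nat_lit 1) (nat_lit 2) (nat_lit 0) true (nat_lit 6) true (nat_lit 9) false (nat_lit 0) true (nat_lit 8) true (nat_lit 7) (.s true (nat_lit 1) (nat_lit 18) (nat_lit 1) (nat_lit 2) (nat_lit 0) true (nat_lit 6) true (nat_lit 9) false (nat_lit 0) true (nat_lit 8) true (nat_lit 7) (.s false (nat_lit 1) (nat_lit 18) (nat_lit 2) (nat_lit 1) (nat_lit 0) true (nat_lit 5) true (nat_lit 9) false (nat_lit 0) true (nat_lit 7) true (nat_lit 8) (.s false (nat_lit 1) (nat_lit 20) (nat_lit 0) (nat_lit 0) (nat_lit 2) true (nat_lit 5) true (nat_lit 7) false (nat_lit 1) true (nat_lit 9) true (nat_lit 9) (.s true (nat_lit 1) (nat_lit 19) (nat_lit 0) (nat_lit 2) (nat_lit 0) false (nat_lit 10)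 true (nat_lit 9) false (nat_lit 1) true (nat_lit 9) true (nat_lit 7) (.s true (nat_lit 1) (nat_lit 21) (nat_lit 0) (nat_lit 0) (nat_lit 1) true (nat_lit 6) true (nat_lit 8) false (nat_lit 2) true (nat_lit 9) true (nat_lit 9) (.e false (nat_lit 72) (nat_lit 42) (nat_lit 5) (nat_lit 5) (.e true (nat_lit 144) (nat_lit 69) (nat_lit 2) (nat_lit 7) (.e false (nat_lit 72) (nat_lit 73) (nat_lit 2) (nat_lit 7) (.e false (nat_lit 108) (nat_lit 74) (nat_lit 2) (nat_lit 7) (.e true (nat_lit 72) (nat_lit 95) (nat_lit 0) (nat_lit 9) (.e true (nat_lit 36) (nat_lit 101) (nat_lit 0) (nat_lit 9) (.e false (nat_lit 36) (nat_lit 94) (nat_lit 0) (nat_lit 9) (.e true (nat_lit 72) (nat_lit 98) (nat_lit 0) (nat_lit 9) (.e true (nat_lit 108) (nat_lit 93) (nat_lit 1) (nat_lit 8) (.e false (nat_lit 72) (nat_lit 96) (nat_lit 0) (nat_lit 9) (.e true (nat_lit 36) (nat_lit 103) (nat_lit 0) (nat_lit 9) (.e false (nat_lit 108) (nat_lit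 72) (nat_lit 2) (nat_lit 7) .nil)))))))))))))))))))))))))

noncomputable def dF6as_i13 : IL := (.i false (nat_lit 29) (nat_lit 2) (.c (nat_lit 2) (nat_lit 1) (.c (nat_lit 2) (nat_lit 1) (.c (nat_lit 1) (nat_lit 16) (.c (nat_lit 0) (nat_lit 256) (.c (nat_lit 2) (nat_lit 1) (.c (nat_lit 1) (nat_lit 16) .nil)))))) (.i true (nat_lit 8) (nat_lit 2) (.c (nat_lit 2) (nat_lit 1) (.c (nat_lit 2) (nat_lit 1) (.c (nat_lit 2) (nat_lit 1) (.c (nat_lit 1) (nat_lit 16) (.c (nat_lit 0) (nat_lit 256) (.c (nat_lit 1) (nat_lit 16) .nil)))))) (.e false (nat_lit 27433728) (nat_lit 77) (nat_lit 2) (nat_lit 8) (.e false (nat_lit 19595520) (nat_lit 78) (nat_lit 2) (nat_lit 8) (.e true (nat_lit 35271936) (nat_lit 80) (nat_lit 2) (nat_lit 8) (.e false (nat_lit 12877056) (nat_lit 82) (nat_lit 2) (nat_lit 8) (.e true (nat_lit 1119744) (nat_lit 87) (nat_lit 2) (nat_lit 8) (.e true (nat_lit 19595520) (nat_lit 88) (nat_lit 2) (nat_lit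 8) (.e false (nat_lit 20715264) (nat_lit 79) (nat_lit 2) (nat_lit 8) (.e false (nat_lit 11197440) (nat_lit 40) (nat_lit 6) (nat_lit 4) (.e false (nat_lit 30792960) (nat_lit 38) (nat_lit 6) (nat_lit 4) (.e true (nat_lit 24074496) (nat_lit 39) (nat_lit 6) (nat_lit 4) (.e false (nat_lit 4478976) (nat_lit 106) (nat_lit 0) (nat_lit 10) (.e false (nat_lit 22394880) (nat_lit 107) (nat_lit 0) (nat_lit 10) (.e false (nat_lit 13436928) (nat_lit 86) (nat_lit 2) (nat_lit 8) (.e true (nat_lit 14556672) (nat_lit 41) (nat_lit 6) (nat_lit 4) (.e true (nat_lit 16236288) (nat_lit 32) (nat_lit 7) (nat_lit 3) (.e false (nat_lit 2239488) (nat_lit 95) (nat_lit 1) (nat_lit 9) (.e true (nat_lit 2239488) (nat_lit 97) (nat_lit 1) (nat_lit 9) (.e false (nat_lit 11197440) (nat_lit 98) (nat_lit 1) (nat_lit 9) (.e false (nat_lit 5598720) (nat_lit 99) (nat_lit 1) (nat_lit 9) (.e true (nat_lit 11757312) (nat_lit 110) (nat_lit 0) (nat_lit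 10) (.e false (nat_lit 10637568) (nat_lit 96) (nat_lit 1) (nat_lit 9) (.e true (nat_lit 29113344) (nat_lit 103) (nat_lit 1) (nat_lit 9) (.e true (nat_lit 20715264) (nat_lit 105) (nat_lit 0) (nat_lit 10) .nil)))))))))))))))))))))))))

noncomputable def dF6as_i14 : IL := (.s true (nat_lit 765936) (nat_lit 7) (nat_lit 0) (nat_lit 6) (nat_lit 1) true (nat_lit 7) true (nat_lit 9) true (nat_lit 3) true (nat_lit 10) true (nat_lit 4) (.s true (nat_lit 808704) (nat_lit 7) (nat_lit 1) (nat_lit 3) (nat_lit 2) true (nat_lit 4) true (nat_lit 8) true (nat_lit 3) true (nat_lit 9) true (nat_lit 7) (.s true (nat_lit 93312) (nat_lit 7) (nat_lit 1) (nat_lit 5) (nat_lit 1) true (nat_lit 6) true (nat_lit 9) true (nat_lit 3) true (nat_lit 9) true (nat_lit 5) (.s false (nat_lit 373248) (nat_lit 7) (nat_lit 2) (nat_lit 3) (nat_lit 1) true (nat_lit 4) true (nat_lit 9) true (nat_lit 3) true (nat_lit 8) true (nat_lit 7) (.s true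 (nat_lit 435456) (nat_lit 7) (nat_lit 2) (nat_lit 4) (nat_lit 0) true (nat_lit 5) true (nat_lit 10) true (nat_lit 3) true (nat_lit 8) true (nat_lit 6) (.s false (nat_lit 489888) (nat_lit 7) (nat_lit 6) (nat_lit 0) (nat_lit 1) true (nat_lit 0) true (nat_lit 9) true (nat_lit 3) true (nat_lit 4) true (nat_lit 10) (.s true (nat_lit 9072) (nat_lit 7) (nat_lit 6) (nat_lit 1) (nat_lit 0) true (nat_lit 1) true (nat_lit 10) true (nat_lit 3) true (nat_lit 4) true (nat_lit 9) (.s false (nat_lit 248832) (nat_lit 9) (nat_lit 2) (nat_lit 2) (nat_lit 2) true (nat_lit 3) true (nat_lit 8) true (nat_lit 2) true (nat_lit 8) true (nat_lit 8) (.s true (nat_lit 559872) (nat_lit 12) (nat_lit 1) (nat_lit 2) (nat_lit 2) true (nat_lit 4) true (nat_lit 8) true (nat_lit 1) true (nat_lit 9) true (nat_lit 8) (.s false (nat_lit 62208) (nat_lit 13) (nat_lit 1) (nat_lit 2) (nat_lit 2) true (nat_lit 4) true (nat_lit 8) true (nat_lit 1)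 true (nat_lit 9) true (nat_lit 8) (.s true (nat_lit 404352) (nat_lit 12) (nat_lit 2) (nat_lit 1) (nat_lit 2) true (nat_lit 3) true (nat_lit 8) true (nat_lit 1) true (nat_lit 8) true (nat_lit 9) (.s false (nat_lit 171072) (nat_lit 13) (nat_lit 2) (nat_lit 1) (nat_lit 2) true (nat_lit 3) true (nat_lit 8) true (nat_lit 1) true (nat_lit 8) true (nat_lit 9) (.s true (nat_lit 717984) (nat_lit 14) (nat_lit 2) (nat_lit 1) (nat_lit 2) true (nat_lit 3) true (nat_lit 8) true (nat_lit 1) true (nat_lit 8) true (nat_lit 9) (.s true (nat_lit 186624) (nat_lit 12) (nat_lit 2) (nat_lit 2) (nat_lit 1) true (nat_lit 4) true (nat_lit 9) true (nat_lit 1) true (nat_lit 8) true (nat_lit 8) (.s false (nat_lit 668736) (nat_lit 13) (nat_lit 2) (nat_lit 2) (nat_lit 1) true (nat_lit 4) true (nat_lit 9) true (nat_lit 1) true (nat_lit 8) true (nat_lit 8) (.s false (nat_lit 93312) (nat_lit 15) (nat_lit 2) (nat_lit 0) (nat_lit 2) true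 (nat_lit 3) true (nat_lit 8) true (nat_lit 0) true (nat_lit 8) true (nat_lit 10) (.s true (nat_lit 435456) (nat_lit 18) (nat_lit 1) (nat_lit 2) (nat_lit 1) true (nat_lit 6) true (nat_lit 9) false (nat_lit 0) true (nat_lit 9) true (nat_lit 8) (.s true (nat_lit 108864) (nat_lit 17) (nat_lit 2) (nat_lit 1) (nat_lit 1) true (nat_lit 4) true (nat_lit 9) false (nat_lit 0) true (nat_lit 8) true (nat_lit 9) (.s true (nat_lit 502848) (nat_lit 19) (nat_lit 0) (nat_lit 1) (nat_lit 2) true (nat_lit 5) true (nat_lit 8) false (nat_lit 1) true (nat_lit 10) true (nat_lit 9) (.s false (nat_lit 1124928) (nat_lit 19) (nat_lit 0) (nat_lit 2) (nat_lit 1) true (nat_lit 7) true (nat_lit 9) false (nat_lit 1) true (nat_lit 10) true (nat_lit 8) (.s true (nat_lit 41472) (nat_lit 19) (nat_lit 1) (nat_lit 0) (nat_lit 2) true (nat_lit 4) true (nat_lit 8) false (nat_lit 1) true (nat_lit 9) true (nat_lit 10) (.s true (nat_lit 495072)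 (nat_lit 19) (nat_lit 1) (nat_lit 2) (nat_lit 0) true (nat_lit 7) true (nat_lit 10) false (nat_lit 1) true (nat_lit 9) true (nat_lit 8) (.s false (nat_lit 668736) (nat_lit 20) (nat_lit 2) (nat_lit 0) (nat_lit 1) true (nat_lit 4) true (nat_lit 9) false (nat_lit 1) true (nat_lit 8) true (nat_lit 10) (.s true (nat_lit 435456) (nat_lit 21) (nat_lit 0) (nat_lit 1) (nat_lit 1) true (nat_lit 7) true (nat_lit 9) false (nat_lit 2) true (nat_lit 10) true (nat_lit 9) (.i true (nat_lit 22) (nat_lit 2) (.c (nat_lit 2) (nat_lit 1) (.c (nat_lit 2) (nat_lit 1) (.c (nat_lit 1) (nat_lit 16) (.c (nat_lit 0) (nat_lit 256) (.c (nat_lit 1) (nat_lit 16) (.c (nat_lit 2) (nat_lit 1) .nil)))))) dF6as_i13)))))))))))))))))))))))))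

noncomputable def dF6as_i15 : IL := (.s false (nat_lit 1) (nat_lit 20) (nat_lit 2) (nat_lit 0) (nat_lit 1) true (nat_lit 4) true (nat_lit 9) false (nat_lit 1) true (nat_lit 8) true (nat_lit 10) (.e false (nat_lit 36) (nat_lit 77) (nat_lit 2) (nat_lit 8) (.e false (nat_lit 36) (nat_lit 78) (nat_lit 2) (nat_lit 8) (.e false (nat_lit 72) (nat_lit 79) (nat_lit 2) (nat_lit 8) (.e true (nat_lit 108) (nat_lit 80) (nat_lit 2) (nat_lit 8) (.e false (nat_lit 72) (nat_lit 82) (nat_lit 2) (nat_lit 8) (.e false (nat_lit 36) (nat_lit 86) (nat_lit 2) (nat_lit 8) (.e false (nat_lit 36) (nat_lit 87) (nat_lit 2) (nat_lit 8) (.e true (nat_lit 36) (nat_lit 88) (nat_lit 2) (nat_lit 8) (.e true (nat_lit 36) (nat_lit 40) (nat_lit 6) (nat_lit 4) (.e false (nat_lit 36) (nat_lit 106) (nat_lit 0) (nat_lit 10) (.e false (nat_lit 36) (nat_lit 107) (nat_lit 0) (nat_lit 10) (.e true (nat_lit 36) (nat_lit 39) (nat_lit 6) (nat_lit 4)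 (.e true (nat_lit 36) (nat_lit 41) (nat_lit 6) (nat_lit 4) (.e true (nat_lit 36) (nat_lit 32) (nat_lit 7) (nat_lit 3) (.e true (nat_lit 36) (nat_lit 34) (nat_lit 7) (nat_lit 3) (.e false (nat_lit 144) (nat_lit 38) (nat_lit 6) (nat_lit 4) (.e false (nat_lit 108) (nat_lit 95) (nat_lit 1) (nat_lit 9) (.e false (nat_lit 72) (nat_lit 98) (nat_lit 1) (nat_lit 9) (.e false (nat_lit 108) (nat_lit 99) (nat_lit 1) (nat_lit 9) (.e true (nat_lit 72) (nat_lit 103) (nat_lit 1) (nat_lit 9) (.e true (nat_lit 36) (nat_lit 110) (nat_lit 0) (nat_lit 10) (.e true (nat_lit 36) (nat_lit 96) (nat_lit 1) (nat_lit 9) (.e true (nat_lit 36) (nat_lit 97) (nat_lit 1) (nat_lit 9) (.e true (nat_lit 36) (nat_lit 105) (nat_lit 0) (nat_lit 10) .nil)))))))))))))))))))))))))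

noncomputable def dF6as_i16 : IL := (.s false (nat_lit 31104) (nat_lit 21) (nat_lit 0) (nat_lit 1) (nat_lit 1) true (nat_lit 7) true (nat_lit 9) false (nat_lit 2) true (nat_lit 10) true (nat_lit 9) (.i false (nat_lit 4) (nat_lit 2) (.c (nat_lit 2) (nat_lit 1) (.c (nat_lit 2) (nat_lit 1) (.c (nat_lit 1) (nat_lit 16) (.c (nat_lit 0) (nat_lit 256) (.c (nat_lit 1) (nat_lit 16) (.c (nat_lit 2) (nat_lit 1) .nil)))))) (.i true (nat_lit 7) (nat_lit 2) (.c (nat_lit 2) (nat_lit 1) (.c (nat_lit 2) (nat_lit 1) (.c (nat_lit 1) (nat_lit 16) (.c (nat_lit 0) (nat_lit 256) (.c (nat_lit 2) (nat_lit 1) (.c (nat_lit 1) (nat_lit 16) .nil)))))) (.e true (nat_lit 1119744) (nat_lit 77) (nat_lit 2) (nat_lit 8) (.e true (nat_lit 2239488) (nat_lit 80) (nat_lit 2) (nat_lit 8) (.e false (nat_lit 5038848) (nat_lit 82) (nat_lit 2) (nat_lit 8) (.e false (nat_lit 2799360) (nat_lit 87) (nat_lit 2) (nat_lit 8) (.e false (nat_lit 2799360)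 (nat_lit 79) (nat_lit 2) (nat_lit 8) (.e true (nat_lit 6158592) (nat_lit 40) (nat_lit 6) (nat_lit 4) (.e false (nat_lit 5038848) (nat_lit 38) (nat_lit 6) (nat_lit 4) (.e false (nat_lit 1119744) (nat_lit 39) (nat_lit 6) (nat_lit 4) (.e true (nat_lit 1679616) (nat_lit 43) (nat_lit 6) (nat_lit 4) (.e false (nat_lit 2799360) (nat_lit 106) (nat_lit 0) (nat_lit 10) (.e true (nat_lit 1679616) (nat_lit 107) (nat_lit 0) (nat_lit 10) (.e false (nat_lit 1679616) (nat_lit 86) (nat_lit 2) (nat_lit 8) (.e true (nat_lit 559872) (nat_lit 41) (nat_lit 6) (nat_lit 4) (.e false (nat_lit 9517824) (nat_lit 95) (nat_lit 1) (nat_lit 9) (.e true (nat_lit 1679616) (nat_lit 97) (nat_lit 1) (nat_lit 9) (.e false (nat_lit 5598720) (nat_lit 98) (nat_lit 1) (nat_lit 9) (.e false (nat_lit 10637568) (nat_lit 99) (nat_lit 1) (nat_lit 9) (.e true (nat_lit 1679616) (nat_lit 34) (nat_lit 7) (nat_lit 3) (.e true (nat_lit 1119744) (nat_lit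 110) (nat_lit 0) (nat_lit 10) (.e true (nat_lit 4478976) (nat_lit 96) (nat_lit 1) (nat_lit 9) (.e true (nat_lit 1119744) (nat_lit 103) (nat_lit 1) (nat_lit 9) (.e false (nat_lit 1119744) (nat_lit 105) (nat_lit 0) (nat_lit 10) .nil)))))))))))))))))))))))))

noncomputable def dF6as_i17 : IL := (.s false (nat_lit 163296) (nat_lit 6) (nat_lit 1) (nat_lit 5) (nat_lit 2) true (nat_lit 4) true (nat_lit 8) true (nat_lit 4) true (nat_lit 9) true (nat_lit 5) (.s true (nat_lit 186624) (nat_lit 6) (nat_lit 2) (nat_lit 2) (nat_lit 3) true (nat_lit 1) true (nat_lit 7) true (nat_lit 4) true (nat_lit 8) true (nat_lit 8) (.s true (nat_lit 38880) (nat_lit 6) (nat_lit 2) (nat_lit 5) (nat_lit 1) true (nat_lit 4) true (nat_lit 9) true (nat_lit 4) true (nat_lit 8) true (nat_lit 5) (.s true (nat_lit 248832) (nat_lit 6) (nat_lit 5) (nat_lit 2) (nat_lit 1) true (nat_lit 1) true (nat_lit 9) true (nat_lit 4) true (nat_lit 5) true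 (nat_lit 8) (.s true (nat_lit 19440) (nat_lit 7) (nat_lit 0) (nat_lit 1) (nat_lit 6) true (nat_lit 1) true (nat_lit 4) true (nat_lit 3) true (nat_lit 10) true (nat_lit 9) (.s true (nat_lit 11664) (nat_lit 7) (nat_lit 0) (nat_lit 6) (nat_lit 1) true (nat_lit 7) true (nat_lit 9) true (nat_lit 3) true (nat_lit 10) true (nat_lit 4) (.s false (nat_lit 46656) (nat_lit 7) (nat_lit 1) (nat_lit 3) (nat_lit 2) true (nat_lit 4) true (nat_lit 8) true (nat_lit 3) true (nat_lit 9) true (nat_lit 7) (.s true (nat_lit 31104) (nat_lit 7) (nat_lit 1) (nat_lit 5) (nat_lit 1) true (nat_lit 6) true (nat_lit 9) true (nat_lit 3) true (nat_lit 9) true (nat_lit 5) (.s true (nat_lit 15552) (nat_lit 7) (nat_lit 2) (nat_lit 3) (nat_lit 1) true (nat_lit 4) true (nat_lit 9) true (nat_lit 3) true (nat_lit 8) true (nat_lit 7) (.s false (nat_lit 31104) (nat_lit 7) (nat_lit 2) (nat_lit 4) (nat_lit 0) true (nat_lit 5) true (nat_lit 10) true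 (nat_lit 3) true (nat_lit 8) true (nat_lit 6) (.s true (nat_lit 54432) (nat_lit 7) (nat_lit 6) (nat_lit 0) (nat_lit 1) true (nat_lit 0) true (nat_lit 9) true (nat_lit 3) true (nat_lit 4) true (nat_lit 10) (.s false (nat_lit 3888) (nat_lit 7) (nat_lit 6) (nat_lit 1) (nat_lit 0) true (nat_lit 1) true (nat_lit 10) true (nat_lit 3) true (nat_lit 4) true (nat_lit 9) (.s true (nat_lit 31104) (nat_lit 9) (nat_lit 2) (nat_lit 2) (nat_lit 2) true (nat_lit 3) true (nat_lit 8) true (nat_lit 2) true (nat_lit 8) true (nat_lit 8) (.s false (nat_lit 171072) (nat_lit 12) (nat_lit 1) (nat_lit 2) (nat_lit 2) true (nat_lit 4) true (nat_lit 8) true (nat_lit 1) true (nat_lit 9) true (nat_lit 8) (.s false (nat_lit 62208) (nat_lit 13) (nat_lit 1) (nat_lit 2) (nat_lit 2) true (nat_lit 4) true (nat_lit 8) true (nat_lit 1) true (nat_lit 9) true (nat_lit 8) (.s false (nat_lit 15552) (nat_lit 12) (nat_lit 2) (nat_lit 1) (nat_lit 2)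 true (nat_lit 3) true (nat_lit 8) true (nat_lit 1) true (nat_lit 8) true (nat_lit 9) (.s false (nat_lit 15552) (nat_lit 13) (nat_lit 2) (nat_lit 1) (nat_lit 2) true (nat_lit 3) true (nat_lit 8) true (nat_lit 1) true (nat_lit 8) true (nat_lit 9) (.s false (nat_lit 23328) (nat_lit 14) (nat_lit 2) (nat_lit 1) (nat_lit 2) true (nat_lit 3) true (nat_lit 8) true (nat_lit 1) true (nat_lit 8) true (nat_lit 9) (.s false (nat_lit 31104) (nat_lit 15) (nat_lit 2) (nat_lit 0) (nat_lit 2) true (nat_lit 3) true (nat_lit 8) true (nat_lit 0) true (nat_lit 8) true (nat_lit 10) (.s false (nat_lit 31104) (nat_lit 18) (nat_lit 1) (nat_lit 2) (nat_lit 1) true (nat_lit 6) true (nat_lit 9) false (nat_lit 0) true (nat_lit 9) true (nat_lit 8) (.s false (nat_lit 46656) (nat_lit 17) (nat_lit 2) (nat_lit 1) (nat_lit 1) true (nat_lit 4) true (nat_lit 9) false (nat_lit 0) true (nat_lit 8) true (nat_lit 9) (.s false (nat_lit 77760) (nat_lit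 19) (nat_lit 0) (nat_lit 1) (nat_lit 2) true (nat_lit 5) true (nat_lit 8) false (nat_lit 1) true (nat_lit 10) true (nat_lit 9) (.s false (nat_lit 217728) (nat_lit 19) (nat_lit 0) (nat_lit 2) (nat_lit 1) true (nat_lit 7) true (nat_lit 9) false (nat_lit 1) true (nat_lit 10) true (nat_lit 8) (.s false (nat_lit 31104) (nat_lit 19) (nat_lit 1) (nat_lit 0) (nat_lit 2) true (nat_lit 4) true (nat_lit 8) false (nat_lit 1) true (nat_lit 9) true (nat_lit 10) (.s true (nat_lit 23328) (nat_lit 19) (nat_lit 1) (nat_lit 2) (nat_lit 0) true (nat_lit 7) true (nat_lit 10) false (nat_lit 1) true (nat_lit 9) true (nat_lit 8) dF6as_i16)))))))))))))))))))))))))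

noncomputable def dF6as_i18 : IL := (.e true (nat_lit 746496) (nat_lit 78) (nat_lit 2) (nat_lit 8) (.e false (nat_lit 3732480) (nat_lit 80) (nat_lit 2) (nat_lit 8) (.e true (nat_lit 3545856) (nat_lit 82) (nat_lit 2) (nat_lit 8) (.e true (nat_lit 1306368) (nat_lit 87) (nat_lit 2) (nat_lit 8) (.e false (nat_lit 746496) (nat_lit 88) (nat_lit 2) (nat_lit 8) (.e true (nat_lit 3545856) (nat_lit 79) (nat_lit 2) (nat_lit 8) (.e false (nat_lit 1679616) (nat_lit 40) (nat_lit 6) (nat_lit 4) (.e true (nat_lit 7278336) (nat_lit 38) (nat_lit 6) (nat_lit 4) (.e false (nat_lit 1866240) (nat_lit 39) (nat_lit 6) (nat_lit 4) (.e false (nat_lit 4665600) (nat_lit 43) (nat_lit 6) (nat_lit 4) (.e true (nat_lit 3545856) (nat_lit 106) (nat_lit 0) (nat_lit 10) (.e true (nat_lit 2052864) (nat_lit 107) (nat_lit 0) (nat_lit 10) (.e true (nat_lit 1679616) (nat_lit 86) (nat_lit 2) (nat_lit 8) (.e true (nat_lit 933120) (nat_lit 41) (nat_lit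 6) (nat_lit 4) (.e true (nat_lit 2052864) (nat_lit 95) (nat_lit 1) (nat_lit 9) (.e false (nat_lit 3172608) (nat_lit 97) (nat_lit 1) (nat_lit 9) (.e true (nat_lit 4105728) (nat_lit 94) (nat_lit 1) (nat_lit 9) (.e false (nat_lit 373248) (nat_lit 98) (nat_lit 1) (nat_lit 9) (.e true (nat_lit 1679616) (nat_lit 99) (nat_lit 1) (nat_lit 9) (.e false (nat_lit 2985984) (nat_lit 32) (nat_lit 7) (nat_lit 3) (.e false (nat_lit 3172608) (nat_lit 34) (nat_lit 7) (nat_lit 3) (.e false (nat_lit 1866240) (nat_lit 110) (nat_lit 0) (nat_lit 10) (.e true (nat_lit 1492992) (nat_lit 96) (nat_lit 1) (nat_lit 9) (.e false (nat_lit 4105728) (nat_lit 103) (nat_lit 1) (nat_lit 9) (.e false (nat_lit 1119744) (nat_lit 105) (nat_lit 0) (nat_lit 10) .nil)))))))))))))))))))))))))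

noncomputable def dF6as_i19 : IL := (.s false (nat_lit 16848) (nat_lit 7) (nat_lit 0) (nat_lit 6) (nat_lit 1) true (nat_lit 7) true (nat_lit 9) true (nat_lit 3) true (nat_lit 10) true (nat_lit 4) (.s true (nat_lit 88128) (nat_lit 7) (nat_lit 1) (nat_lit 3) (nat_lit 2) true (nat_lit 4) true (nat_lit 8) true (nat_lit 3) true (nat_lit 9) true (nat_lit 7) (.s true (nat_lit 10368) (nat_lit 7) (nat_lit 1) (nat_lit 5) (nat_lit 1) true (nat_lit 6) true (nat_lit 9) true (nat_lit 3) true (nat_lit 9) true (nat_lit 5) (.s true (nat_lit 5184) (nat_lit 7) (nat_lit 2) (nat_lit 3) (nat_lit 1) true (nat_lit 4) true (nat_lit 9) true (nat_lit 3) true (nat_lit 8) true (nat_lit 7) (.s true (nat_lit 93312) (nat_lit 7) (nat_lit 2) (nat_lit 4) (nat_lit 0) true (nat_lit 5) true (nat_lit 10) true (nat_lit 3) true (nat_lit 8) true (nat_lit 6) (.s false (nat_lit 85536) (nat_lit 7) (nat_lit 6) (nat_lit 0) (nat_lit 1) true (nat_lit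 0) true (nat_lit 9) true (nat_lit 3) true (nat_lit 4) true (nat_lit 10) (.s false (nat_lit 1296) (nat_lit 7) (nat_lit 6) (nat_lit 1) (nat_lit 0) true (nat_lit 1) true (nat_lit 10) true (nat_lit 3) true (nat_lit 4) true (nat_lit 9) (.s false (nat_lit 93312) (nat_lit 9) (nat_lit 2) (nat_lit 2) (nat_lit 2) true (nat_lit 3) true (nat_lit 8) true (nat_lit 2) true (nat_lit 8) true (nat_lit 8) (.s true (nat_lit 171072) (nat_lit 12) (nat_lit 1) (nat_lit 2) (nat_lit 2) true (nat_lit 4) true (nat_lit 8) true (nat_lit 1) true (nat_lit 9) true (nat_lit 8) (.s false (nat_lit 103680) (nat_lit 13) (nat_lit 1) (nat_lit 2) (nat_lit 2) true (nat_lit 4) true (nat_lit 8) true (nat_lit 1) true (nat_lit 9) true (nat_lit 8) (.s false (nat_lit 5184) (nat_lit 12) (nat_lit 2) (nat_lit 1) (nat_lit 2) true (nat_lit 3) true (nat_lit 8) true (nat_lit 1) true (nat_lit 8) true (nat_lit 9) (.s false (nat_lit 88128) (nat_lit 13) (nat_lit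 2) (nat_lit 1) (nat_lit 2) true (nat_lit 3) true (nat_lit 8) true (nat_lit 1) true (nat_lit 8) true (nat_lit 9) (.s true (nat_lit 75168) (nat_lit 14) (nat_lit 2) (nat_lit 1) (nat_lit 2) true (nat_lit 3) true (nat_lit 8) true (nat_lit 1) true (nat_lit 8) true (nat_lit 9) (.s true (nat_lit 20736) (nat_lit 13) (nat_lit 2) (nat_lit 2) (nat_lit 1) true (nat_lit 4) true (nat_lit 9) true (nat_lit 1) true (nat_lit 8) true (nat_lit 8) (.s false (nat_lit 10368) (nat_lit 15) (nat_lit 2) (nat_lit 0) (nat_lit 2) true (nat_lit 3) true (nat_lit 8) true (nat_lit 0) true (nat_lit 8) true (nat_lit 10) (.s true (nat_lit 93312) (nat_lit 18) (nat_lit 1) (nat_lit 2) (nat_lit 1) true (nat_lit 6) true (nat_lit 9) false (nat_lit 0) true (nat_lit 9) true (nat_lit 8) (.s false (nat_lit 15552) (nat_lit 17) (nat_lit 2) (nat_lit 1) (nat_lit 1) true (nat_lit 4) true (nat_lit 9) false (nat_lit 0) true (nat_lit 8) true (nat_lit 9) (.s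 false (nat_lit 5184) (nat_lit 19) (nat_lit 0) (nat_lit 1) (nat_lit 2) true (nat_lit 5) true (nat_lit 8) false (nat_lit 1) true (nat_lit 10) true (nat_lit 9) (.s true (nat_lit 72576) (nat_lit 19) (nat_lit 0) (nat_lit 2) (nat_lit 1) true (nat_lit 7) true (nat_lit 9) false (nat_lit 1) true (nat_lit 10) true (nat_lit 8) (.s true (nat_lit 51840) (nat_lit 19) (nat_lit 1) (nat_lit 0) (nat_lit 2) true (nat_lit 4) true (nat_lit 8) false (nat_lit 1) true (nat_lit 9) true (nat_lit 10) (.s true (nat_lit 69984) (nat_lit 19) (nat_lit 1) (nat_lit 2) (nat_lit 0) true (nat_lit 7) true (nat_lit 10) false (nat_lit 1) true (nat_lit 9) true (nat_lit 8) (.s true (nat_lit 20736) (nat_lit 20) (nat_lit 2) (nat_lit 0) (nat_lit 1) true (nat_lit 4) true (nat_lit 9) false (nat_lit 1) true (nat_lit 8) true (nat_lit 10) (.s true (nat_lit 93312) (nat_lit 21) (nat_lit 0) (nat_lit 1) (nat_lit 1) true (nat_lit 7) true (nat_lit 9) false (nat_lit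 2) true (nat_lit 10) true (nat_lit 9) (.i true (nat_lit 1) (nat_lit 2) (.c (nat_lit 2) (nat_lit 1) (.c (nat_lit 2) (nat_lit 1) (.c (nat_lit 1) (nat_lit 16) (.c (nat_lit 0) (nat_lit 256) (.c (nat_lit 2) (nat_lit 1) (.c (nat_lit 1) (nat_lit 16) .nil)))))) (.e false (nat_lit 373248) (nat_lit 77) (nat_lit 2) (nat_lit 8) dF6as_i18)))))))))))))))))))))))))

noncomputable def dF6as_i20 : IL := (.s false (nat_lit 1) (nat_lit 7) (nat_lit 6) (nat_lit 0) (nat_lit 1) true (nat_lit 0) true (nat_lit 9) true (nat_lit 3) true (nat_lit 4) true (nat_lit 10) (.s false (nat_lit 1) (nat_lit 9) (nat_lit 2) (nat_lit 2) (nat_lit 2) true (nat_lit 3) true (nat_lit 8) true (nat_lit 2) true (nat_lit 8) true (nat_lit 8) (.s true (nat_lit 2) (nat_lit 12) (nat_lit 1) (nat_lit 2) (nat_lit 2) true (nat_lit 4) true (nat_lit 8) true (nat_lit 1) true (nat_lit 9) true (nat_lit 8) (.s false (nat_lit 1) (nat_lit 13) (nat_lit 1) (nat_lit 2) (nat_lit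 2) true (nat_lit 4) true (nat_lit 8) true (nat_lit 1) true (nat_lit 9) true (nat_lit 8) (.s false (nat_lit 1) (nat_lit 13) (nat_lit 2) (nat_lit 1) (nat_lit 2) true (nat_lit 3) true (nat_lit 8) true (nat_lit 1) true (nat_lit 8) true (nat_lit 9) (.s true (nat_lit 1) (nat_lit 14) (nat_lit 2) (nat_lit 1) (nat_lit 2) true (nat_lit 3) true (nat_lit 8) true (nat_lit 1) true (nat_lit 8) true (nat_lit 9) (.s true (nat_lit 1) (nat_lit 18) (nat_lit 1) (nat_lit 2) (nat_lit 1) true (nat_lit 6) true (nat_lit 9) false (nat_lit 0) true (nat_lit 9) true (nat_lit 8) (.s true (nat_lit 2) (nat_lit 19) (nat_lit 0) (nat_lit 2) (nat_lit 1) true (nat_lit 7) true (nat_lit 9) false (nat_lit 1) true (nat_lit 10) true (nat_lit 8) (.s true (nat_lit 1) (nat_lit 21) (nat_lit 0) (nat_lit 1) (nat_lit 1) true (nat_lit 7) true (nat_lit 9) false (nat_lit 2) true (nat_lit 10) true (nat_lit 9) (.e false (nat_lit 72) (nat_lit 40) (nat_lit 6)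 (nat_lit 4) (.e true (nat_lit 36) (nat_lit 38) (nat_lit 6) (nat_lit 4) (.e true (nat_lit 36) (nat_lit 106) (nat_lit 0) (nat_lit 10) (.e false (nat_lit 36) (nat_lit 107) (nat_lit 0) (nat_lit 10) (.e true (nat_lit 36) (nat_lit 79) (nat_lit 2) (nat_lit 8) (.e false (nat_lit 36) (nat_lit 80) (nat_lit 2) (nat_lit 8) (.e true (nat_lit 72) (nat_lit 82) (nat_lit 2) (nat_lit 8) (.e true (nat_lit 72) (nat_lit 95) (nat_lit 1) (nat_lit 9) (.e false (nat_lit 36) (nat_lit 97) (nat_lit 1) (nat_lit 9) (.e false (nat_lit 36) (nat_lit 103) (nat_lit 1) (nat_lit 9) (.e false (nat_lit 36) (nat_lit 110) (nat_lit 0) (nat_lit 10) (.e false (nat_lit 36) (nat_lit 34) (nat_lit 7) (nat_lit 3) (.e true (nat_lit 36) (nat_lit 85) (nat_lit 2) (nat_lit 8) (.e true (nat_lit 108) (nat_lit 99) (nat_lit 1) (nat_lit 9) (.e true (nat_lit 36) (nat_lit 98) (nat_lit 1) (nat_lit 9) (.e false (nat_lit 36) (nat_lit 32) (nat_lit 7) (nat_lit 3) .nil)))))))))))))))))))))))))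

noncomputable def dF6as_i21 : IL := (.s false (nat_lit 3) (nat_lit 6) (nat_lit 5) (nat_lit 2) (nat_lit 1) true (nat_lit 1) true (nat_lit 9) true (nat_lit 4) true (nat_lit 5) true (nat_lit 8) (.s false (nat_lit 1) (nat_lit 7) (nat_lit 1) (nat_lit 5) (nat_lit 1) true (nat_lit 6) true (nat_lit 9) true (nat_lit 3) true (nat_lit 9) true (nat_lit 5) (.s true (nat_lit 2) (nat_lit 12) (nat_lit 1) (nat_lit 2) (nat_lit 2) true (nat_lit 4) true (nat_lit 8) true (nat_lit 1) true (nat_lit 9) true (nat_lit 8) (.s false (nat_lit 2) (nat_lit 13) (nat_lit 1) (nat_lit 2) (nat_lit 2) true (nat_lit 4) true (nat_lit 8) true (nat_lit 1) true (nat_lit 9) true (nat_lit 8) (.s true (nat_lit 1) (nat_lit 13) (nat_lit 2) (nat_lit 1) (nat_lit 2) true (nat_lit 3) true (nat_lit 8) true (nat_lit 1) true (nat_lit 8) true (nat_lit 9) (.s true (nat_lit 1) (nat_lit 15) (nat_lit 2) (nat_lit 0) (nat_lit 2) true (nat_lit 3) true (nat_lit 8)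 true (nat_lit 0) true (nat_lit 8) true (nat_lit 10) (.s true (nat_lit 4) (nat_lit 19) (nat_lit 0) (nat_lit 2) (nat_lit 1) true (nat_lit 7) true (nat_lit 9) false (nat_lit 1) true (nat_lit 10) true (nat_lit 8) (.s false (nat_lit 2) (nat_lit 19) (nat_lit 1) (nat_lit 2) (nat_lit 0) true (nat_lit 7) true (nat_lit 10) false (nat_lit 1) true (nat_lit 9) true (nat_lit 8) (.e false (nat_lit 72) (nat_lit 80) (nat_lit 2) (nat_lit 8) (.e true (nat_lit 72) (nat_lit 82) (nat_lit 2) (nat_lit 8) (.e true (nat_lit 72) (nat_lit 79) (nat_lit 2) (nat_lit 8) (.e false (nat_lit 72) (nat_lit 40) (nat_lit 6) (nat_lit 4) (.e true (nat_lit 72) (nat_lit 38) (nat_lit 6) (nat_lit 4) (.e false (nat_lit 108) (nat_lit 39) (nat_lit 6) (nat_lit 4) (.e false (nat_lit 72) (nat_lit 107) (nat_lit 0) (nat_lit 10) (.e true (nat_lit 72) (nat_lit 86) (nat_lit 2) (nat_lit 8) (.e true (nat_lit 180) (nat_lit 95) (nat_lit 1) (nat_lit 9) (.e false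 (nat_lit 36) (nat_lit 97) (nat_lit 1) (nat_lit 9) (.e false (nat_lit 180) (nat_lit 94) (nat_lit 1) (nat_lit 9) (.e true (nat_lit 180) (nat_lit 98) (nat_lit 1) (nat_lit 9) (.e true (nat_lit 324) (nat_lit 99) (nat_lit 1) (nat_lit 9) (.e false (nat_lit 72) (nat_lit 103) (nat_lit 1) (nat_lit 9) (.e false (nat_lit 36) (nat_lit 34) (nat_lit 7) (nat_lit 3) (.e true (nat_lit 36) (nat_lit 85) (nat_lit 2) (nat_lit 8) (.e true (nat_lit 36) (nat_lit 105) (nat_lit 0) (nat_lit 10) .nil)))))))))))))))))))))))))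

noncomputable def dF6as_i22 : IL := (.s true (nat_lit 1) (nat_lit 19) (nat_lit 1) (nat_lit 0) (nat_lit 2) true (nat_lit 4) true (nat_lit 8) false (nat_lit 1) true (nat_lit 9) true (nat_lit 10) (.s true (nat_lit 1) (nat_lit 19) (nat_lit 1) (nat_lit 2) (nat_lit 0) true (nat_lit 7) true (nat_lit 10) false (nat_lit 1) true (nat_lit 9) true (nat_lit 8) (.s true (nat_lit 1) (nat_lit 20) (nat_lit 2) (nat_lit 0) (nat_lit 1) true (nat_lit 4) true (nat_lit 9) false (nat_lit 1) true (nat_lit 8) true (nat_lit 10) (.e true (nat_lit 72) (nat_lit 40) (nat_lit 6) (nat_lit 4) (.e true (nat_lit 144) (nat_lit 38) (nat_lit 6) (nat_lit 4) (.e false (nat_lit 36) (nat_lit 39) (nat_lit 6) (nat_lit 4) (.e false (nat_lit 108) (nat_lit 42) (nat_lit 6) (nat_lit 4) (.e false (nat_lit 144) (nat_lit 43) (nat_lit 6) (nat_lit 4) (.e true (nat_lit 36) (nat_lit 106) (nat_lit 0) (nat_lit 10) (.e true (nat_lit 108) (nat_lit 107) (nat_lit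 0) (nat_lit 10) (.e true (nat_lit 36) (nat_lit 79) (nat_lit 2) (nat_lit 8) (.e false (nat_lit 36) (nat_lit 80) (nat_lit 2) (nat_lit 8) (.e true (nat_lit 36) (nat_lit 86) (nat_lit 2) (nat_lit 8) (.e true (nat_lit 36) (nat_lit 87) (nat_lit 2) (nat_lit 8) (.e true (nat_lit 72) (nat_lit 94) (nat_lit 1) (nat_lit 9) (.e false (nat_lit 72) (nat_lit 95) (nat_lit 1) (nat_lit 9) (.e false (nat_lit 36) (nat_lit 98) (nat_lit 1) (nat_lit 9) (.e false (nat_lit 108) (nat_lit 99) (nat_lit 1) (nat_lit 9) (.e false (nat_lit 36) (nat_lit 82) (nat_lit 2) (nat_lit 8) (.e true (nat_lit 36) (nat_lit 96) (nat_lit 1) (nat_lit 9) (.e true (nat_lit 36) (nat_lit 97) (nat_lit 1) (nat_lit 9) (.e true (nat_lit 36) (nat_lit 101) (nat_lit 1) (nat_lit 9) (.e false (nat_lit 36) (nat_lit 103) (nat_lit 1) (nat_lit 9) (.e true (nat_lit 36) (nat_lit 110) (nat_lit 0) (nat_lit 10) (.e false (nat_lit 36) (nat_lit 105) (nat_lit 0) (nat_lit 10) .nil)))))))))))))))))))))))))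

noncomputable def dF6as_i23 : IL := (.s false (nat_lit 1) (nat_lit 7) (nat_lit 0) (nat_lit 6) (nat_lit 1) true (nat_lit 7) true (nat_lit 9) true (nat_lit 3) true (nat_lit 10) true (nat_lit 4) (.s true (nat_lit 1) (nat_lit 7) (nat_lit 1) (nat_lit 3) (nat_lit 2) true (nat_lit 4) true (nat_lit 8) true (nat_lit 3) true (nat_lit 9) true (nat_lit 7) (.s false (nat_lit 1) (nat_lit 9) (nat_lit 2) (nat_lit 2) (nat_lit 2) true (nat_lit 3) true (nat_lit 8) true (nat_lit 2) true (nat_lit 8) true (nat_lit 8) (.s true (nat_lit 1) (nat_lit 12) (nat_lit 1) (nat_lit 2) (nat_lit 2) true (nat_lit 4) true (nat_lit 8) true (nat_lit 1) true (nat_lit 9) true (nat_lit 8) (.s true (nat_lit 2) (nat_lit 19) (nat_lit 0) (nat_lit 2) (nat_lit 1) true (nat_lit 7) true (nat_lit 9) false (nat_lit 1) true (nat_lit 10) true (nat_lit 8) (.s true (nat_lit 1) (nat_lit 21) (nat_lit 0) (nat_lit 1) (nat_lit 1) true (nat_lit 7) true (nat_lit 9)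 false (nat_lit 2) true (nat_lit 10) true (nat_lit 9) (.e false (nat_lit 36) (nat_lit 77) (nat_lit 2) (nat_lit 8) (.e false (nat_lit 36) (nat_lit 78) (nat_lit 2) (nat_lit 8) (.e false (nat_lit 36) (nat_lit 79) (nat_lit 2) (nat_lit 8) (.e true (nat_lit 36) (nat_lit 80) (nat_lit 2) (nat_lit 8) (.e true (nat_lit 72) (nat_lit 82) (nat_lit 2) (nat_lit 8) (.e false (nat_lit 36) (nat_lit 88) (nat_lit 2) (nat_lit 8) (.e false (nat_lit 72) (nat_lit 40) (nat_lit 6) (nat_lit 4) (.e false (nat_lit 36) (nat_lit 106) (nat_lit 0) (nat_lit 10) (.e false (nat_lit 36) (nat_lit 107) (nat_lit 0) (nat_lit 10) (.e true (nat_lit 36) (nat_lit 95) (nat_lit 1) (nat_lit 9) (.e true (nat_lit 36) (nat_lit 98) (nat_lit 1) (nat_lit 9) (.e true (nat_lit 108) (nat_lit 99) (nat_lit 1) (nat_lit 9) (.e false (nat_lit 36) (nat_lit 103) (nat_lit 1) (nat_lit 9) (.e true (nat_lit 36) (nat_lit 33) (nat_lit 7) (nat_lit 3) (.e true (nat_lit 36) (nat_lit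 42) (nat_lit 6) (nat_lit 4) (.e true (nat_lit 36) (nat_lit 105) (nat_lit 0) (nat_lit 10) (.e true (nat_lit 36) (nat_lit 96) (nat_lit 1) (nat_lit 9) (.e false (nat_lit 36) (nat_lit 97) (nat_lit 1) (nat_lit 9) (.e false (nat_lit 36) (nat_lit 100) (nat_lit 1) (nat_lit 9) .nil)))))))))))))))))))))))))

noncomputable def dF6as_i24 : IL := (.s false (nat_lit 1) (nat_lit 7) (nat_lit 0) (nat_lit 1) (nat_lit 6) true (nat_lit 1) true (nat_lit 4) true (nat_lit 3) true (nat_lit 10) true (nat_lit 9) (.s false (nat_lit 1) (nat_lit 7) (nat_lit 6) (nat_lit 1) (nat_lit 0) true (nat_lit 1) true (nat_lit 10) true (nat_lit 3) true (nat_lit 4) true (nat_lit 9) (.s true (nat_lit 1) (nat_lit 12) (nat_lit 1) (nat_lit 2) (nat_lit 2) true (nat_lit 4) true (nat_lit 8) true (nat_lit 1) true (nat_lit 9) true (nat_lit 8) (.s false (nat_lit 1) (nat_lit 12) (nat_lit 2) (nat_lit 1) (nat_lit 2) true (nat_lit 3) true (nat_lit 8) true (nat_lit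 1) true (nat_lit 8) true (nat_lit 9) (.s false (nat_lit 1) (nat_lit 14) (nat_lit 2) (nat_lit 1) (nat_lit 2) true (nat_lit 3) true (nat_lit 8) true (nat_lit 1) true (nat_lit 8) true (nat_lit 9) (.s false (nat_lit 1) (nat_lit 13) (nat_lit 2) (nat_lit 2) (nat_lit 1) true (nat_lit 4) true (nat_lit 9) true (nat_lit 1) true (nat_lit 8) true (nat_lit 8) (.s false (nat_lit 1) (nat_lit 20) (nat_lit 2) (nat_lit 0) (nat_lit 1) true (nat_lit 4) true (nat_lit 9) false (nat_lit 1) true (nat_lit 8) true (nat_lit 10) (.e false (nat_lit 36) (nat_lit 42) (nat_lit 6) (nat_lit 4) (.e false (nat_lit 72) (nat_lit 107) (nat_lit 0) (nat_lit 10) (.e true (nat_lit 36) (nat_lit 76) (nat_lit 2) (nat_lit 8) (.e false (nat_lit 36) (nat_lit 79) (nat_lit 2) (nat_lit 8) (.e false (nat_lit 36) (nat_lit 80) (nat_lit 2) (nat_lit 8) (.e false (nat_lit 36) (nat_lit 86) (nat_lit 2) (nat_lit 8) (.e false (nat_lit 36) (nat_lit 87) (nat_lit 2)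 (nat_lit 8) (.e true (nat_lit 36) (nat_lit 88) (nat_lit 2) (nat_lit 8) (.e false (nat_lit 36) (nat_lit 32) (nat_lit 7) (nat_lit 3) (.e false (nat_lit 36) (nat_lit 33) (nat_lit 7) (nat_lit 3) (.e true (nat_lit 36) (nat_lit 110) (nat_lit 0) (nat_lit 10) (.e true (nat_lit 36) (nat_lit 97) (nat_lit 1) (nat_lit 9) (.e true (nat_lit 36) (nat_lit 99) (nat_lit 1) (nat_lit 9) (.e true (nat_lit 36) (nat_lit 100) (nat_lit 1) (nat_lit 9) (.e true (nat_lit 36) (nat_lit 101) (nat_lit 1) (nat_lit 9) (.e false (nat_lit 36) (nat_lit 94) (nat_lit 1) (nat_lit 9) (.e true (nat_lit 36) (nat_lit 98) (nat_lit 1) (nat_lit 9) (.e true (nat_lit 36) (nat_lit 105) (nat_lit 0) (nat_lit 10) .nil)))))))))))))))))))))))))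

noncomputable def dF6as_t0 : Tr := (.nd (.nd (.nd (.nd (.nd (.nd (.nd .leaf (nat_lit 1024) (nat_lit 0) (.p (nat_lit 3) (nat_lit 36) .z) .df .leaf) (nat_lit 1025) (nat_lit 1) (.p (nat_lit 4) (nat_lit 36) .z) .df .leaf) (nat_lit 2048) (nat_lit 2) (.p (nat_lit 5) (nat_lit 36) .z) .df (.nd (.nd .leaf (nat_lit 2049) (nat_lit 3) (.p (nat_lit 6) (nat_lit 36) .z) .df .leaf) (nat_lit 2050) (nat_lit 4) (.p (nat_lit 7) (nat_lit 36) .z) .df .leaf)) (nat_lit 3072) (nat_lit 5) (.p (nat_lit 8) (nat_lit 36) .z) .df (.nd (.nd (.nd .leaf (nat_lit 3073) (nat_lit 6) (.p (nat_lit 9) (nat_lit 36) .z) .df .leaf) (nat_lit 3074) (nat_lit 9) (.p (nat_lit 12) (nat_lit 36) .z) .df .leaf) (nat_lit 3075) (nat_lit 22) (.n (nat_lit 22) (nat_lit 36) (.n (nat_lit 23) (nat_lit 36) (.p (nat_lit 24) (nat_lit 36) .z))) (.ct dF6as_c544 (nat_lit 36) (nat_lit 0) (.s true (nat_lit 1) (nat_lit 1) (nat_lit 0) (nat_lit 0) (nat_lit 1) true (nat_lit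 0) true (nat_lit 1) true (nat_lit 1) true (nat_lit 2) true (nat_lit 2) (.e true (nat_lit 36) (nat_lit 8) (nat_lit 1) (nat_lit 1) (.e true (nat_lit 36) (nat_lit 9) (nat_lit 0) (nat_lit 2) (.e false (nat_lit 36) (nat_lit 10) (nat_lit 0) (nat_lit 2) .nil))))) (.nd (.nd .leaf (nat_lit 4096) (nat_lit 7) (.p (nat_lit 10) (nat_lit 36) .z) .df .leaf) (nat_lit 4098) (nat_lit 12) (.p (nat_lit 15) (nat_lit 36) .z) .df .leaf))) (nat_lit 5120) (nat_lit 8) (.p (nat_lit 11) (nat_lit 36) .z) .df (.nd (.nd (.nd (.nd .leaf (nat_lit 5121) (nat_lit 10) (.p (nat_lit 13) (nat_lit 36) .z) .df .leaf) (nat_lit 5122) (nat_lit 14) (.p (nat_lit 17) (nat_lit 36) .z) .df .leaf) (nat_lit 5123) (nat_lit 28) (.n (nat_lit 26) (nat_lit 36) (.n (nat_lit 27) (nat_lit 36) (.p (nat_lit 28) (nat_lit 36) .z))) (.ct dF6as_c529 (nat_lit 36) (nat_lit 0) (.s true (nat_lit 1) (nat_lit 2) (nat_lit 0) (nat_lit 0) (nat_lit 1) true (nat_lit 0) true (nat_lit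 2) true (nat_lit 1) true (nat_lit 3) true (nat_lit 3) (.e true (nat_lit 36) (nat_lit 11) (nat_lit 1) (nat_lit 2) (.e true (nat_lit 36) (nat_lit 12) (nat_lit 0) (nat_lit 3) (.e false (nat_lit 36) (nat_lit 14) (nat_lit 0) (nat_lit 3) .nil))))) (.nd (.nd .leaf (nat_lit 5124) (nat_lit 37) (.n (nat_lit 30) (nat_lit 36) (.n (nat_lit 31) (nat_lit 72) (.p (nat_lit 32) (nat_lit 72) (.p (nat_lit 33) (nat_lit 72) (.p (nat_lit 34) (nat_lit 36) .z))))) (.ct dF6as_c289 (nat_lit 36) (nat_lit 0) (.s false (nat_lit 1) (nat_lit 2) (nat_lit 1) (nat_lit 0) (nat_lit 1) true (nat_lit 0) true (nat_lit 3) true (nat_lit 2) true (nat_lit 3) true (nat_lit 4) (.e false (nat_lit 36) (nat_lit 14) (nat_lit 1) (nat_lit 3) (.e false (nat_lit 36) (nat_lit 9) (nat_lit 2) (nat_lit 2) (.e true (nat_lit 36) (nat_lit 12) (nat_lit 1) (nat_lit 3) (.e false (nat_lit 36) (nat_lit 16) (nat_lit 0) (nat_lit 4) .nil)))))) .leaf) (nat_lit 5125) (nat_lit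 41) (.n (nat_lit 35) (nat_lit 36) (.n (nat_lit 36) (nat_lit 36) (.p (nat_lit 37) (nat_lit 36) .z))) (.ct dF6as_c514 (nat_lit 36) (nat_lit 0) (.s true (nat_lit 1) (nat_lit 2) (nat_lit 0) (nat_lit 0) (nat_lit 2) true (nat_lit 0) true (nat_lit 1) true (nat_lit 1) true (nat_lit 2) true (nat_lit 2) (.e true (nat_lit 36) (nat_lit 11) (nat_lit 2) (nat_lit 1) (.e true (nat_lit 36) (nat_lit 17) (nat_lit 0) (nat_lit 2) (.e false (nat_lit 36) (nat_lit 18) (nat_lit 0) (nat_lit 2) .nil))))) .leaf)) (nat_lit 6144) (nat_lit 11) (.p (nat_lit 14) (nat_lit 36) .z) .df (.nd (.nd (.nd .leaf (nat_lit 6145) (nat_lit 13) (.p (nat_lit 16) (nat_lit 36) .z) .df .leaf) (nat_lit 6146) (nat_lit 16) (.p (nat_lit 19) (nat_lit 36) .z) .df .leaf) (nat_lit 6147) (nat_lit 35) (.p (nat_lit 29) (nat_lit 36) (.n (nat_lit 32) (nat_lit 36) (.n (nat_lit 33) (nat_lit 36) (.n (nat_lit 34) (nat_lit 36) .z)))) (.ct dF6as_c289 (nat_lit 36) (nat_lit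 1) (.s true (nat_lit 1) (nat_lit 2) (nat_lit 0) (nat_lit 1) (nat_lit 1) true (nat_lit 1) true (nat_lit 3) true (nat_lit 2) true (nat_lit 4) true (nat_lit 3) (.e true (nat_lit 36) (nat_lit 13) (nat_lit 1) (nat_lit 3) (.e false (nat_lit 36) (nat_lit 9) (nat_lit 2) (nat_lit 2) (.e true (nat_lit 36) (nat_lit 15) (nat_lit 0) (nat_lit 4) (.e true (nat_lit 36) (nat_lit 14) (nat_lit 1) (nat_lit 3) .nil)))))) (.nd .leaf (nat_lit 6149) (nat_lit 48) (.p (nat_lit 38) (nat_lit 36) (.n (nat_lit 39) (nat_lit 36) (.n (nat_lit 42) (nat_lit 36) (.n (nat_lit 43) (nat_lit 36) .z)))) (.ct dF6as_c274 (nat_lit 36) (nat_lit 0) (.s true (nat_lit 1) (nat_lit 2) (nat_lit 0) (nat_lit 1) (nat_lit 2) true (nat_lit 0) true (nat_lit 2) true (nat_lit 2) true (nat_lit 4) true (nat_lit 3) (.e true (nat_lit 36) (nat_lit 13) (nat_lit 2) (nat_lit 2) (.e false (nat_lit 36) (nat_lit 12) (nat_lit 2) (nat_lit 2) (.e true (nat_lit 36) (nat_lit 19)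 (nat_lit 0) (nat_lit 4) (.e true (nat_lit 36) (nat_lit 18) (nat_lit 1) (nat_lit 3) .nil)))))) .leaf)))) (nat_lit 7168) (nat_lit 15) (.p (nat_lit 18) (nat_lit 36) .z) .df (.nd (.nd (.nd (.nd (.nd .leaf (nat_lit 7169) (nat_lit 17) (.p (nat_lit 20) (nat_lit 36) .z) .df .leaf) (nat_lit 7170) (nat_lit 18) (.p (nat_lit 21) (nat_lit 36) .z) .df .leaf) (nat_lit 7171) (nat_lit 50) (.p (nat_lit 39) (nat_lit 36) (.n (nat_lit 40) (nat_lit 36) (.n (nat_lit 41) (nat_lit 36) (.n (nat_lit 43) (nat_lit 36) .z)))) (.ct dF6as_c274 (nat_lit 36) (nat_lit 1) (.s true (nat_lit 1) (nat_lit 2) (nat_lit 0) (nat_lit 2) (nat_lit 1) true (nat_lit 1) true (nat_lit 3) true (nat_lit 2) true (nat_lit 4) true (nat_lit 2) (.e true (nat_lit 36) (nat_lit 17) (nat_lit 1) (nat_lit 3) (.e false (nat_lit 36) (nat_lit 13) (nat_lit 2) (nat_lit 2) (.e true (nat_lit 36) (nat_lit 19) (nat_lit 0) (nat_lit 4) (.e true (nat_lit 36) (nat_lit 14) (nat_lit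 2) (nat_lit 2) .nil)))))) (.nd (.nd .leaf (nat_lit 7172) (nat_lit 55) (.p (nat_lit 45) (nat_lit 72) (.n (nat_lit 46) (nat_lit 72) .z)) (.ct dF6as_c34 (nat_lit 36) (nat_lit 1) (.s true (nat_lit 1) (nat_lit 2) (nat_lit 1) (nat_lit 2) (nat_lit 1) true (nat_lit 1) true (nat_lit 3) true (nat_lit 2) true (nat_lit 3) true (nat_lit 2) (.e true (nat_lit 72) (nat_lit 19) (nat_lit 1) (nat_lit 3) (.e false (nat_lit 72) (nat_lit 16) (nat_lit 2) (nat_lit 2) .nil)))) .leaf) (nat_lit 7173) (nat_lit 59) (.n (nat_lit 48) (nat_lit 36) (.n (nat_lit 49) (nat_lit 36) .z)) (.ct dF6as_c259 (nat_lit 36) (nat_lit 0) (.s true (nat_lit 1) (nat_lit 2) (nat_lit 0) (nat_lit 2) (nat_lit 2) true (nat_lit 0) true (nat_lit 1) true (nat_lit 1) true (nat_lit 2) true (nat_lit 1) (.e true (nat_lit 36) (nat_lit 21) (nat_lit 0) (nat_lit 2) (.e true (nat_lit 36) (nat_lit 18) (nat_lit 2) (nat_lit 1) .nil)))) .leaf)) (nat_lit 7174) (nat_lit 63) (.p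 (nat_lit 51) (nat_lit 36) (.n (nat_lit 52) (nat_lit 36) .z)) (.ct dF6as_c19 (nat_lit 36) (nat_lit 0) (.s true (nat_lit 1) (nat_lit 2) (nat_lit 1) (nat_lit 2) (nat_lit 2) true (nat_lit 0) true (nat_lit 1) true (nat_lit 1) true (nat_lit 2) true (nat_lit 1) (.e true (nat_lit 36) (nat_lit 21) (nat_lit 1) (nat_lit 2) (.e false (nat_lit 36) (nat_lit 20) (nat_lit 2) (nat_lit 1) .nil)))) (.nd (.nd (.nd .leaf (nat_lit 8193) (nat_lit 19) (.p (nat_lit 22) (nat_lit 36) .z) .df .leaf) (nat_lit 8194) (nat_lit 23) (.p (nat_lit 25) (nat_lit 36) .z) .df .leaf) (nat_lit 8198) (nat_lit 81) (.n (nat_lit 57) (nat_lit 36) (.n (nat_lit 58) (nat_lit 36) (.p (nat_lit 61) (nat_lit 36) (.p (nat_lit 62) (nat_lit 72) (.p (nat_lit 63) (nat_lit 36) .z))))) (.ct dF6as_c545 (nat_lit 36) (nat_lit 0) (.s false (nat_lit 1) (nat_lit 6) (nat_lit 0) (nat_lit 1) (nat_lit 0) false (nat_lit 7) true (nat_lit 6) true (nat_lit 0) true (nat_lit 6)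 true (nat_lit 5) (.e false (nat_lit 72) (nat_lit 33) (nat_lit 0) (nat_lit 6) (.e true (nat_lit 36) (nat_lit 29) (nat_lit 0) (nat_lit 6) (.e false (nat_lit 36) (nat_lit 32) (nat_lit 0) (nat_lit 6) (.e false (nat_lit 36) (nat_lit 34) (nat_lit 0) (nat_lit 6) (.e true (nat_lit 36) (nat_lit 28) (nat_lit 1) (nat_lit 5) .nil))))))) (.nd .leaf (nat_lit 8199) (nat_lit 101) (.n (nat_lit 68) (nat_lit 36) (.n (nat_lit 70) (nat_lit 36) (.p (nat_lit 71) (nat_lit 36) (.p (nat_lit 72) (nat_lit 36) (.p (nat_lit 73) (nat_lit 36) (.p (nat_lit 74) (nat_lit 36) .z)))))) (.ct dF6as_c530 (nat_lit 36) (nat_lit 0) (.s false (nat_lit 1) (nat_lit 3) (nat_lit 2) (nat_lit 0) (nat_lit 2) true (nat_lit 0) true (nat_lit 4) true (nat_lit 3) true (nat_lit 4) true (nat_lit 6) (.e false (nat_lit 72) (nat_lit 27) (nat_lit 2) (nat_lit 4) (.e false (nat_lit 36) (nat_lit 17) (nat_lit 3) (nat_lit 3) (.e false (nat_lit 36) (nat_lit 26) (nat_lit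 2) (nat_lit 4) (.e true (nat_lit 36) (nat_lit 28) (nat_lit 2) (nat_lit 4) (.e false (nat_lit 36) (nat_lit 38) (nat_lit 0) (nat_lit 6) .nil))))))) .leaf))) (nat_lit 9216) (nat_lit 20) (.p (nat_lit 23) (nat_lit 36) .z) .df (.nd (.nd (.nd (.nd .leaf (nat_lit 9218) (nat_lit 29) (.p (nat_lit 29) (nat_lit 36) .z) .df .leaf) (nat_lit 9221) (nat_lit 78) (.p (nat_lit 55) (nat_lit 36) (.p (nat_lit 59) (nat_lit 36) (.p (nat_lit 60) (nat_lit 36) (.n (nat_lit 61) (nat_lit 72) (.n (nat_lit 62) (nat_lit 36) (.n (nat_lit 63) (nat_lit 36) .z)))))) (.ct dF6as_c545 (nat_lit 36) (nat_lit 1) (.s true (nat_lit 1) (nat_lit 3) (nat_lit 0) (nat_lit 1) (nat_lit 2) true (nat_lit 1) true (nat_lit 4) true (nat_lit 3) true (nat_lit 6) true (nat_lit 5) (.e true (nat_lit 36) (nat_lit 22) (nat_lit 2) (nat_lit 4) (.e false (nat_lit 36) (nat_lit 12) (nat_lit 3) (nat_lit 3) (.e true (nat_lit 36) (nat_lit 29) (nat_lit 0) (nat_lit 6) (.e false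 (nat_lit 36) (nat_lit 32) (nat_lit 0) (nat_lit 6) (.e false (nat_lit 36) (nat_lit 33) (nat_lit 0) (nat_lit 6) (.e false (nat_lit 36) (nat_lit 34) (nat_lit 0) (nat_lit 6) (.e true (nat_lit 36) (nat_lit 27) (nat_lit 1) (nat_lit 5) .nil))))))))) .leaf) (nat_lit 9223) (nat_lit 124) (.n (nat_lit 76) (nat_lit 36) (.p (nat_lit 81) (nat_lit 36) (.n (nat_lit 82) (nat_lit 36) (.p (nat_lit 84) (nat_lit 36) (.n (nat_lit 86) (nat_lit 36) (.p (nat_lit 87) (nat_lit 36) (.p (nat_lit 88) (nat_lit 36) .z))))))) (.ct dF6as_c290 (nat_lit 36) (nat_lit 0) (.s true (nat_lit 1) (nat_lit 3) (nat_lit 2) (nat_lit 1) (nat_lit 2) true (nat_lit 0) true (nat_lit 5) true (nat_lit 4) true (nat_lit 5) true (nat_lit 6) (.e true (nat_lit 36) (nat_lit 31) (nat_lit 2) (nat_lit 5) (.e false (nat_lit 36) (nat_lit 19) (nat_lit 3) (nat_lit 4) (.e true (nat_lit 36) (nat_lit 29) (nat_lit 2) (nat_lit 5) (.e false (nat_lit 36) (nat_lit 32) (nat_lit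 2) (nat_lit 5) (.e false (nat_lit 36) (nat_lit 33) (nat_lit 2) (nat_lit 5) (.e false (nat_lit 36) (nat_lit 34) (nat_lit 2) (nat_lit 5) (.e false (nat_lit 36) (nat_lit 38) (nat_lit 1) (nat_lit 6) .nil))))))))) (.nd (.nd .leaf (nat_lit 10240) (nat_lit 21) (.p (nat_lit 24) (nat_lit 36) .z) .df .leaf) (nat_lit 10242) (nat_lit 30) (.p (nat_lit 30) (nat_lit 36) .z) .df .leaf)) (nat_lit 10245) (nat_lit 76) (.n (nat_lit 54) (nat_lit 36) (.p (nat_lit 55) (nat_lit 108) (.p (nat_lit 56) (nat_lit 72) (.n (nat_lit 57) (nat_lit 36) (.p (nat_lit 60) (nat_lit 36) (.n (nat_lit 61) (nat_lit 36) (.n (nat_lit 62) (nat_lit 36) .z))))))) (.ct dF6as_c545 (nat_lit 36) (nat_lit 1) (.s true (nat_lit 1) (nat_lit 3) (nat_lit 0) (nat_lit 2) (nat_lit 1) true (nat_lit 3) true (nat_lit 5) true (nat_lit 3) true (nat_lit 6) true (nat_lit 4) (.s false (nat_lit 1) (nat_lit 3) (nat_lit 1) (nat_lit 0) (nat_lit 2) true (nat_lit 0) true (nat_lit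 4) true (nat_lit 3) true (nat_lit 5) true (nat_lit 6) (.s true (nat_lit 1) (nat_lit 5) (nat_lit 1) (nat_lit 1) (nat_lit 0) true (nat_lit 3) true (nat_lit 6) true (nat_lit 1) true (nat_lit 5) true (nat_lit 5) (.s true (nat_lit 1) (nat_lit 6) (nat_lit 0) (nat_lit 1) (nat_lit 0) false (nat_lit 7) true (nat_lit 6) true (nat_lit 0) true (nat_lit 6) true (nat_lit 5) (.e true (nat_lit 36) (nat_lit 25) (nat_lit 1) (nat_lit 5) (.e true (nat_lit 36) (nat_lit 32) (nat_lit 0) (nat_lit 6) (.e true (nat_lit 36) (nat_lit 33) (nat_lit 0) (nat_lit 6) (.e false (nat_lit 108) (nat_lit 26) (nat_lit 1) (nat_lit 5) (.e false (nat_lit 72) (nat_lit 27) (nat_lit 1) (nat_lit 5) (.e true (nat_lit 36) (nat_lit 28) (nat_lit 1) (nat_lit 5) (.e false (nat_lit 36) (nat_lit 31) (nat_lit 0) (nat_lit 6) .nil)))))))))))) (.nd (.nd (.nd .leaf (nat_lit 10247) (nat_lit 128) (.n (nat_lit 76) (nat_lit 36) (.p (nat_lit 77) (nat_lit 72) (.p (nat_lit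 78) (nat_lit 72) (.p (nat_lit 79) (nat_lit 72) (.n (nat_lit 81) (nat_lit 36) (.p (nat_lit 82) (nat_lit 36) (.p (nat_lit 85) (nat_lit 36) (.n (nat_lit 87) (nat_lit 72) (.n (nat_lit 88) (nat_lit 36) .z))))))))) (.ct dF6as_c290 (nat_lit 36) (nat_lit 0) (.s false (nat_lit 1) (nat_lit 4) (nat_lit 2) (nat_lit 0) (nat_lit 2) true (nat_lit 0) true (nat_lit 5) true (nat_lit 3) true (nat_lit 5) true (nat_lit 7) (.e false (nat_lit 72) (nat_lit 34) (nat_lit 2) (nat_lit 5) (.e false (nat_lit 36) (nat_lit 17) (nat_lit 4) (nat_lit 3) (.e true (nat_lit 36) (nat_lit 30) (nat_lit 2) (nat_lit 5) (.e true (nat_lit 72) (nat_lit 31) (nat_lit 2) (nat_lit 5) (.e false (nat_lit 72) (nat_lit 32) (nat_lit 2) (nat_lit 5) (.e false (nat_lit 72) (nat_lit 33) (nat_lit 2) (nat_lit 5) (.e false (nat_lit 36) (nat_lit 44) (nat_lit 0) (nat_lit 7) .nil))))))))) .leaf) (nat_lit 11265) (nat_lit 24) (.p (nat_lit 26) (nat_lit 36) .z) .df .leaf)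 (nat_lit 11266) (nat_lit 38) (.p (nat_lit 35) (nat_lit 36) .z) .df (.nd .leaf (nat_lit 11268) (nat_lit 83) (.n (nat_lit 54) (nat_lit 36) (.p (nat_lit 55) (nat_lit 108) (.p (nat_lit 56) (nat_lit 72) (.n (nat_lit 57) (nat_lit 36) (.p (nat_lit 59) (nat_lit 36) (.p (nat_lit 60) (nat_lit 36) (.n (nat_lit 61) (nat_lit 36) (.n (nat_lit 62) (nat_lit 36) (.n (nat_lit 63) (nat_lit 36) .z))))))))) (.ct dF6as_c545 (nat_lit 36) (nat_lit 2) (.s true (nat_lit 1) (nat_lit 4) (nat_lit 2) (nat_lit 0) (nat_lit 0) true (nat_lit 1) true (nat_lit 6) true (nat_lit 2) true (nat_lit 4) true (nat_lit 6) (.e false (nat_lit 36) (nat_lit 10) (nat_lit 5) (nat_lit 1) (.e true (nat_lit 36) (nat_lit 34) (nat_lit 0) (nat_lit 6) (.e false (nat_lit 36) (nat_lit 30) (nat_lit 0) (nat_lit 6) .nil))))) .leaf))))) (nat_lit 11270) (nat_lit 96) (.n (nat_lit 66) (nat_lit 36) (.n (nat_lit 69) (nat_lit 36) (.p (nat_lit 70) (nat_lit 36) (.p (nat_lit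 71) (nat_lit 36) (.p (nat_lit 73) (nat_lit 36) (.p (nat_lit 74) (nat_lit 36) .z)))))) (.ct dF6as_c530 (nat_lit 36) (nat_lit 1) (.s false (nat_lit 1) (nat_lit 6) (nat_lit 0) (nat_lit 2) (nat_lit 0) false (nat_lit 7) true (nat_lit 6) true (nat_lit 1) true (nat_lit 6) true (nat_lit 4) (.e false (nat_lit 36) (nat_lit 40) (nat_lit 0) (nat_lit 6) (.e true (nat_lit 36) (nat_lit 38) (nat_lit 0) (nat_lit 6) (.e false (nat_lit 36) (nat_lit 39) (nat_lit 0) (nat_lit 6) (.e false (nat_lit 36) (nat_lit 42) (nat_lit 0) (nat_lit 6) (.e false (nat_lit 36) (nat_lit 43) (nat_lit 0) (nat_lit 6) (.e true (nat_lit 36) (nat_lit 28) (nat_lit 2) (nat_lit 4) .nil)))))))) (.nd (.nd (.nd (.nd (.nd (.nd .leaf (nat_lit 11271) (nat_lit 135) (.n (nat_lit 90) (nat_lit 36) (.p (nat_lit 92) (nat_lit 72) (.p (nat_lit 93) (nat_lit 36) .z))) (.ct dF6as_c515 (nat_lit 36) (nat_lit 0) (.s false (nat_lit 1) (nat_lit 7) (nat_lit 0) (nat_lit 2) (nat_lit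 0) false (nat_lit 4) true (nat_lit 3) true (nat_lit 0) true (nat_lit 3) true (nat_lit 2) (.e false (nat_lit 72) (nat_lit 48) (nat_lit 0) (nat_lit 3) (.e false (nat_lit 36) (nat_lit 49) (nat_lit 0) (nat_lit 3) (.e true (nat_lit 36) (nat_lit 37) (nat_lit 2) (nat_lit 2) .nil))))) .leaf) (nat_lit 12288) (nat_lit 25) (.p (nat_lit 27) (nat_lit 36) .z) .df .leaf) (nat_lit 12289) (nat_lit 31) (.p (nat_lit 31) (nat_lit 36) .z) .df (.nd (.nd .leaf (nat_lit 12290) (nat_lit 42) (.p (nat_lit 38) (nat_lit 36) .z) .df .leaf) (nat_lit 12291) (nat_lit 75) (.p (nat_lit 53) (nat_lit 36) (.p (nat_lit 55) (nat_lit 36) (.p (nat_lit 56) (nat_lit 36) (.p (nat_lit 58) (nat_lit 36) (.p (nat_lit 59) (nat_lit 36) (.p (nat_lit 60) (nat_lit 36) (.n (nat_lit 61) (nat_lit 108) (.n (nat_lit 62) (nat_lit 72) (.n (nat_lit 63) (nat_lit 72) .z))))))))) (.ct dF6as_c545 (nat_lit 36) (nat_lit 3) (.s true (nat_lit 1) (nat_lit 3) (nat_lit 1) (nat_lit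 2) (nat_lit 0) true (nat_lit 3) true (nat_lit 6) true (nat_lit 3) true (nat_lit 5) true (nat_lit 4) (.s false (nat_lit 1) (nat_lit 6) (nat_lit 0) (nat_lit 0) (nat_lit 1) true (nat_lit 3) true (nat_lit 5) true (nat_lit 0) true (nat_lit 6) true (nat_lit 6) (.e false (nat_lit 36) (nat_lit 29) (nat_lit 0) (nat_lit 6) (.e false (nat_lit 36) (nat_lit 26) (nat_lit 1) (nat_lit 5) (.e false (nat_lit 36) (nat_lit 27) (nat_lit 1) (nat_lit 5) (.e false (nat_lit 36) (nat_lit 22) (nat_lit 2) (nat_lit 4) (.e true (nat_lit 108) (nat_lit 32) (nat_lit 0) (nat_lit 6) (.e true (nat_lit 72) (nat_lit 33) (nat_lit 0) (nat_lit 6) (.e true (nat_lit 72) (nat_lit 34) (nat_lit 0) (nat_lit 6) (.e false (nat_lit 36) (nat_lit 30) (nat_lit 0) (nat_lit 6) (.e false (nat_lit 36) (nat_lit 31) (nat_lit 0) (nat_lit 6) .nil)))))))))))) .leaf)) (nat_lit 12293) (nat_lit 99) (.n (nat_lit 65) (nat_lit 36) (.n (nat_lit 70) (nat_lit 36) (.p (nat_lit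 71) (nat_lit 36) .z))) (.ct dF6as_c530 (nat_lit 36) (nat_lit 2) (.s true (nat_lit 1) (nat_lit 3) (nat_lit 0) (nat_lit 2) (nat_lit 2) true (nat_lit 2) true (nat_lit 4) true (nat_lit 3) true (nat_lit 6) true (nat_lit 4) (.e true (nat_lit 36) (nat_lit 25) (nat_lit 2) (nat_lit 4) (.e false (nat_lit 36) (nat_lit 17) (nat_lit 3) (nat_lit 3) (.e true (nat_lit 36) (nat_lit 39) (nat_lit 0) (nat_lit 6) (.e false (nat_lit 36) (nat_lit 40) (nat_lit 0) (nat_lit 6) (.e false (nat_lit 36) (nat_lit 41) (nat_lit 0) (nat_lit 6) (.e false (nat_lit 36) (nat_lit 43) (nat_lit 0) (nat_lit 6) (.e true (nat_lit 36) (nat_lit 27) (nat_lit 2) (nat_lit 4) .nil))))))))) (.nd (.nd (.nd .leaf (nat_lit 12294) (nat_lit 117) (.p (nat_lit 88) (nat_lit 36) .z) .df .leaf) (nat_lit 12295) (nat_lit 148) (.p (nat_lit 103) (nat_lit 36) .z) .df .leaf) (nat_lit 13312) (nat_lit 27) (.n (nat_lit 25) (nat_lit 36) (.p (nat_lit 26) (nat_lit 36) (.p (nat_lit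 27) (nat_lit 36) .z))) (.ct dF6as_c529 (nat_lit 36) (nat_lit 3) (.s true (nat_lit 1) (nat_lit 2) (nat_lit 0) (nat_lit 1) (nat_lit 0) false (nat_lit 4) true (nat_lit 3) true (nat_lit 1) true (nat_lit 3) true (nat_lit 2) (.e true (nat_lit 36) (nat_lit 8) (nat_lit 2) (nat_lit 1) (.e false (nat_lit 36) (nat_lit 12) (nat_lit 0) (nat_lit 3) (.e false (nat_lit 36) (nat_lit 11) (nat_lit 1) (nat_lit 2) .nil))))) (.nd .leaf (nat_lit 13313) (nat_lit 32) (.p (nat_lit 32) (nat_lit 36) .z) .df .leaf))) (nat_lit 13314) (nat_lit 43) (.p (nat_lit 39) (nat_lit 36) .z) .df (.nd (.nd (.nd (.nd .leaf (nat_lit 13315) (nat_lit 82) (.p (nat_lit 54) (nat_lit 36) (.n (nat_lit 55) (nat_lit 36) (.n (nat_lit 56) (nat_lit 36) (.n (nat_lit 60) (nat_lit 36) (.p (nat_lit 62) (nat_lit 36) .z))))) (.ct dF6as_c545 (nat_lit 36) (nat_lit 3) (.s true (nat_lit 1) (nat_lit 5) (nat_lit 1) (nat_lit 1) (nat_lit 0) true (nat_lit 3) true (nat_lit 6)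 true (nat_lit 1) true (nat_lit 5) true (nat_lit 5) (.e true (nat_lit 36) (nat_lit 32) (nat_lit 0) (nat_lit 6) (.e true (nat_lit 36) (nat_lit 10) (nat_lit 5) (nat_lit 1) (.e false (nat_lit 72) (nat_lit 26) (nat_lit 1) (nat_lit 5) (.e false (nat_lit 36) (nat_lit 27) (nat_lit 1) (nat_lit 5) (.e true (nat_lit 36) (nat_lit 28) (nat_lit 1) (nat_lit 5) .nil))))))) .leaf) (nat_lit 13317) (nat_lit 100) (.p (nat_lit 64) (nat_lit 36) (.p (nat_lit 65) (nat_lit 36) (.p (nat_lit 67) (nat_lit 36) (.p (nat_lit 69) (nat_lit 36) (.n (nat_lit 70) (nat_lit 36) (.n (nat_lit 72) (nat_lit 36) (.n (nat_lit 73) (nat_lit 36) (.n (nat_lit 74) (nat_lit 72) .z)))))))) (.ct dF6as_c530 (nat_lit 36) (nat_lit 2) (.s true (nat_lit 1) (nat_lit 5) (nat_lit 2) (nat_lit 0) (nat_lit 1) true (nat_lit 1) true (nat_lit 5) true (nat_lit 2) true (nat_lit 4) true (nat_lit 6) (.e false (nat_lit 36) (nat_lit 11) (nat_lit 6) (nat_lit 1) (.e true (nat_lit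 36) (nat_lit 36) (nat_lit 1) (nat_lit 5) (.e true (nat_lit 36) (nat_lit 26) (nat_lit 2) (nat_lit 4) (.e true (nat_lit 36) (nat_lit 27) (nat_lit 2) (nat_lit 4) (.e false (nat_lit 36) (nat_lit 28) (nat_lit 2) (nat_lit 4) (.e true (nat_lit 36) (nat_lit 39) (nat_lit 0) (nat_lit 6) .nil)))))))) .leaf) (nat_lit 13318) (nat_lit 120) (.p (nat_lit 78) (nat_lit 36) (.p (nat_lit 82) (nat_lit 36) (.n (nat_lit 86) (nat_lit 36) (.n (nat_lit 87) (nat_lit 36) (.n (nat_lit 88) (nat_lit 36) .z))))) (.ct dF6as_c290 (nat_lit 36) (nat_lit 1) (.s false (nat_lit 1) (nat_lit 6) (nat_lit 0) (nat_lit 2) (nat_lit 1) true (nat_lit 4) true (nat_lit 6) true (nat_lit 1) true (nat_lit 7) true (nat_lit 5) (.s true (nat_lit 1) (nat_lit 6) (nat_lit 1) (nat_lit 0) (nat_lit 2) true (nat_lit 1) true (nat_lit 5) true (nat_lit 1) true (nat_lit 6) true (nat_lit 7) (.s true (nat_lit 1) (nat_lit 6) (nat_lit 1) (nat_lit 2) (nat_lit 0) true (nat_lit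 4) true (nat_lit 7) true (nat_lit 1) true (nat_lit 6) true (nat_lit 5) (.e false (nat_lit 36) (nat_lit 40) (nat_lit 1) (nat_lit 6) (.e false (nat_lit 36) (nat_lit 33) (nat_lit 2) (nat_lit 5) (.e true (nat_lit 36) (nat_lit 12) (nat_lit 6) (nat_lit 1) (.e true (nat_lit 36) (nat_lit 46) (nat_lit 0) (nat_lit 7) (.e true (nat_lit 36) (nat_lit 45) (nat_lit 0) (nat_lit 7) .nil))))))))) (.nd (.nd .leaf (nat_lit 13319) (nat_lit 150) (.n (nat_lit 94) (nat_lit 72) (.p (nat_lit 95) (nat_lit 108) (.n (nat_lit 96) (nat_lit 36) (.n (nat_lit 97) (nat_lit 36) (.p (nat_lit 98) (nat_lit 36) (.p (nat_lit 99) (nat_lit 36) (.n (nat_lit 101) (nat_lit 36) (.p (nat_lit 103) (nat_lit 36) .z)))))))) (.ct dF6as_c275 (nat_lit 36) (nat_lit 0) (.s true (nat_lit 1) (nat_lit 5) (nat_lit 2) (nat_lit 1) (nat_lit 2) true (nat_lit 0) true (nat_lit 4) true (nat_lit 2) true (nat_lit 4) true (nat_lit 5) (.s true (nat_lit 1) (nat_lit 5) (nat_lit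 2) (nat_lit 2) (nat_lit 1) true (nat_lit 1) true (nat_lit 5) true (nat_lit 2) true (nat_lit 4) true (nat_lit 4) (.s true (nat_lit 1) (nat_lit 6) (nat_lit 0) (nat_lit 2) (nat_lit 2) true (nat_lit 2) true (nat_lit 4) true (nat_lit 1) true (nat_lit 6) true (nat_lit 4) (.s true (nat_lit 1) (nat_lit 7) (nat_lit 0) (nat_lit 1) (nat_lit 2) true (nat_lit 2) true (nat_lit 4) true (nat_lit 0) true (nat_lit 6) true (nat_lit 5) (.e true (nat_lit 36) (nat_lit 41) (nat_lit 2) (nat_lit 4) (.e true (nat_lit 72) (nat_lit 38) (nat_lit 2) (nat_lit 4) (.e false (nat_lit 108) (nat_lit 39) (nat_lit 2) (nat_lit 4) (.e false (nat_lit 36) (nat_lit 42) (nat_lit 2) (nat_lit 4) (.e false (nat_lit 36) (nat_lit 43) (nat_lit 2) (nat_lit 4) (.e true (nat_lit 36) (nat_lit 40) (nat_lit 2) (nat_lit 4) (.e false (nat_lit 36) (nat_lit 12) (nat_lit 7) (nat_lit 0) (.e true (nat_lit 36) (nat_lit 49) (nat_lit 1) (nat_lit 5) .nil))))))))))))) .leaf)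 (nat_lit 13324) (nat_lit 233) (.n (nat_lit 112) (nat_lit 36) (.n (nat_lit 114) (nat_lit 36) (.n (nat_lit 115) (nat_lit 36) (.p (nat_lit 117) (nat_lit 36) (.p (nat_lit 118) (nat_lit 36) (.n (nat_lit 119) (nat_lit 36) (.p (nat_lit 120) (nat_lit 36) (.n (nat_lit 121) (nat_lit 72) (.n (nat_lit 122) (nat_lit 108) (.p (nat_lit 123) (nat_lit 72) (.p (nat_lit 125) (nat_lit 72) (.p (nat_lit 126) (nat_lit 108) (.n (nat_lit 128) (nat_lit 36) (.n (nat_lit 129) (nat_lit 72) (.p (nat_lit 132) (nat_lit 36) (.p (nat_lit 133) (nat_lit 36) (.n (nat_lit 134) (nat_lit 36) (.p (nat_lit 135) (nat_lit 72) .z)))))))))))))))))) (.ct dF6as_c546 (nat_lit 36) (nat_lit 0) (.s false (nat_lit 1) (nat_lit 12) (nat_lit 0) (nat_lit 2) (nat_lit 1) true (nat_lit 8) true (nat_lit 10) true (nat_lit 0) true (nat_lit 11) true (nat_lit 9) (.e false (nat_lit 36) (nat_lit 38) (nat_lit 3) (nat_lit 8) (.e false (nat_lit 36) (nat_lit 65) (nat_lit 1)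 (nat_lit 10) (.e true (nat_lit 36) (nat_lit 88) (nat_lit 0) (nat_lit 11) (.e false (nat_lit 36) (nat_lit 60) (nat_lit 2) (nat_lit 9) .nil)))))) .leaf)) (nat_lit 14336) (nat_lit 26) (.p (nat_lit 28) (nat_lit 36) .z) .df (.nd (.nd (.nd .leaf (nat_lit 14337) (nat_lit 33) (.p (nat_lit 33) (nat_lit 36) .z) .df .leaf) (nat_lit 14338) (nat_lit 44) (.p (nat_lit 40) (nat_lit 36) .z) .df .leaf) (nat_lit 14339) (nat_lit 80) (.n (nat_lit 57) (nat_lit 36) (.n (nat_lit 58) (nat_lit 72) (.n (nat_lit 59) (nat_lit 36) (.n (nat_lit 60) (nat_lit 36) (.p (nat_lit 61) (nat_lit 108) (.p (nat_lit 62) (nat_lit 72) (.p (nat_lit 63) (nat_lit 72) .z))))))) (.ct dF6as_c545 (nat_lit 36) (nat_lit 3) (.s true (nat_lit 1) (nat_lit 3) (nat_lit 1) (nat_lit 2) (nat_lit 0) true (nat_lit 3) true (nat_lit 6) true (nat_lit 3) true (nat_lit 5) true (nat_lit 4) (.e true (nat_lit 36) (nat_lit 12) (nat_lit 3) (nat_lit 3) (.e true (nat_lit 36) (nat_lit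 29) (nat_lit 0) (nat_lit 6) (.e false (nat_lit 36) (nat_lit 26) (nat_lit 1) (nat_lit 5) (.e false (nat_lit 36) (nat_lit 27) (nat_lit 1) (nat_lit 5) (.e true (nat_lit 36) (nat_lit 28) (nat_lit 1) (nat_lit 5) (.e false (nat_lit 36) (nat_lit 22) (nat_lit 2) (nat_lit 4) .nil)))))))) (.nd .leaf (nat_lit 14341) (nat_lit 103) (.n (nat_lit 66) (nat_lit 36) (.n (nat_lit 69) (nat_lit 36) (.p (nat_lit 70) (nat_lit 36) (.p (nat_lit 73) (nat_lit 36) (.p (nat_lit 74) (nat_lit 72) .z))))) (.ct dF6as_c530 (nat_lit 36) (nat_lit 2) (.s false (nat_lit 1) (nat_lit 6) (nat_lit 2) (nat_lit 0) (nat_lit 0) true (nat_lit 2) true (nat_lit 6) true (nat_lit 1) true (nat_lit 4) true (nat_lit 6) (.e false (nat_lit 36) (nat_lit 43) (nat_lit 0) (nat_lit 6) (.e false (nat_lit 36) (nat_lit 11) (nat_lit 6) (nat_lit 1) (.e true (nat_lit 36) (nat_lit 40) (nat_lit 0) (nat_lit 6) .nil))))) .leaf)))) (nat_lit 14342) (nat_lit 122) (.n (nat_lit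 75) (nat_lit 36) (.n (nat_lit 76) (nat_lit 36) (.p (nat_lit 77) (nat_lit 72) (.p (nat_lit 78) (nat_lit 108) (.p (nat_lit 79) (nat_lit 72) (.p (nat_lit 80) (nat_lit 36) (.p (nat_lit 82) (nat_lit 36) (.n (nat_lit 83) (nat_lit 36) (.n (nat_lit 84) (nat_lit 36) (.p (nat_lit 86) (nat_lit 36) (.n (nat_lit 87) (nat_lit 72) (.n (nat_lit 88) (nat_lit 36) .z)))))))))))) (.ct dF6as_c290 (nat_lit 36) (nat_lit 1) (.s true (nat_lit 1) (nat_lit 6) (nat_lit 1) (nat_lit 2) (nat_lit 0) true (nat_lit 4) true (nat_lit 7) true (nat_lit 1) true (nat_lit 6) true (nat_lit 5) (.e true (nat_lit 36) (nat_lit 19) (nat_lit 3) (nat_lit 4) (.e true (nat_lit 36) (nat_lit 45) (nat_lit 0) (nat_lit 7) (.e true (nat_lit 36) (nat_lit 38) (nat_lit 1) (nat_lit 6) (.e false (nat_lit 36) (nat_lit 39) (nat_lit 1) (nat_lit 6) (.e false (nat_lit 36) (nat_lit 42) (nat_lit 1) (nat_lit 6) (.e false (nat_lit 36) (nat_lit 43) (nat_lit 1) (nat_lit 6) (.e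 false (nat_lit 36) (nat_lit 33) (nat_lit 2) (nat_lit 5) .nil))))))))) (.nd (.nd (.nd (.nd (.nd .leaf (nat_lit 14343) (nat_lit 152) (.n (nat_lit 95) (nat_lit 36) (.p (nat_lit 96) (nat_lit 36) (.p (nat_lit 97) (nat_lit 36) (.p (nat_lit 98) (nat_lit 36) (.p (nat_lit 99) (nat_lit 36) (.p (nat_lit 100) (nat_lit 36) (.p (nat_lit 101) (nat_lit 36) (.n (nat_lit 102) (nat_lit 36) (.n (nat_lit 103) (nat_lit 36) .z))))))))) (.ct dF6as_c275 (nat_lit 36) (nat_lit 0) (.s true (nat_lit 1) (nat_lit 5) (nat_lit 1) (nat_lit 2) (nat_lit 2) true (nat_lit 1) true (nat_lit 4) true (nat_lit 2) true (nat_lit 5) true (nat_lit 4) (.s false (nat_lit 1) (nat_lit 6) (nat_lit 2) (nat_lit 0) (nat_lit 2) true (nat_lit 0) true (nat_lit 4) true (nat_lit 1) true (nat_lit 4) true (nat_lit 6) (.s true (nat_lit 1) (nat_lit 6) (nat_lit 2) (nat_lit 2) (nat_lit 0) true (nat_lit 2) true (nat_lit 6) true (nat_lit 1) true (nat_lit 4) true (nat_lit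 4) (.s true (nat_lit 1) (nat_lit 7) (nat_lit 2) (nat_lit 0) (nat_lit 1) true (nat_lit 1) true (nat_lit 5) true (nat_lit 0) true (nat_lit 4) true (nat_lit 6) (.e false (nat_lit 72) (nat_lit 39) (nat_lit 2) (nat_lit 4) (.e false (nat_lit 36) (nat_lit 48) (nat_lit 1) (nat_lit 5) (.e false (nat_lit 72) (nat_lit 43) (nat_lit 2) (nat_lit 4) (.e true (nat_lit 72) (nat_lit 38) (nat_lit 2) (nat_lit 4) (.e false (nat_lit 72) (nat_lit 42) (nat_lit 2) (nat_lit 4) (.e true (nat_lit 36) (nat_lit 13) (nat_lit 7) (nat_lit 0) (.e true (nat_lit 36) (nat_lit 51) (nat_lit 0) (nat_lit 6) .nil)))))))))))) .leaf) (nat_lit 14348) (nat_lit 232) (.p (nat_lit 111) (nat_lit 20) (.n (nat_lit 112) (nat_lit 8) (.n (nat_lit 113) (nat_lit 8) (.n (nat_lit 114) (nat_lit 20) (.n (nat_lit 115) (nat_lit 20) (.p (nat_lit 116) (nat_lit 28) (.p (nat_lit 117) (nat_lit 4) (.p (nat_lit 118) (nat_lit 4) (.p (nat_lit 119) (nat_lit 12) (.p (nat_lit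 120) (nat_lit 24) (.n (nat_lit 121) (nat_lit 16) (.p (nat_lit 122) (nat_lit 32) (.n (nat_lit 123) (nat_lit 8) (.n (nat_lit 124) (nat_lit 28) (.n (nat_lit 125) (nat_lit 8) (.n (nat_lit 126) (nat_lit 20) (.p (nat_lit 127) (nat_lit 4) (.n (nat_lit 128) (nat_lit 4) (.n (nat_lit 129) (nat_lit 4) (.n (nat_lit 130) (nat_lit 8) (.p (nat_lit 131) (nat_lit 24) (.p (nat_lit 132) (nat_lit 16) (.p (nat_lit 133) (nat_lit 8) (.n (nat_lit 134) (nat_lit 16) (.p (nat_lit 135) (nat_lit 4) (.p (nat_lit 136) (nat_lit 16) .z)))))))))))))))))))))))))) (.ct dF6as_c546 (nat_lit 36) (nat_lit 0) (.s true (nat_lit 1) (nat_lit 12) (nat_lit 1) (nat_lit 2) (nat_lit 0) true (nat_lit 8) true (nat_lit 11) true (nat_lit 0) true (nat_lit 10) true (nat_lit 9) (.e true (nat_lit 36) (nat_lit 38) (nat_lit 3) (nat_lit 8) (.e true (nat_lit 36) (nat_lit 76) (nat_lit 0) (nat_lit 11) (.e false (nat_lit 36) (nat_lit 65) (nat_lit 1) (nat_lit 10) (.e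 false (nat_lit 36) (nat_lit 70) (nat_lit 1) (nat_lit 10) (.e true (nat_lit 36) (nat_lit 71) (nat_lit 1) (nat_lit 10) (.e false (nat_lit 36) (nat_lit 56) (nat_lit 2) (nat_lit 9) .nil)))))))) .leaf) (nat_lit 14349) (nat_lit 225) (.p (nat_lit 111) (nat_lit 24) (.p (nat_lit 112) (nat_lit 12) (.p (nat_lit 113) (nat_lit 12) (.p (nat_lit 114) (nat_lit 48) (.p (nat_lit 115) (nat_lit 84) (.p (nat_lit 116) (nat_lit 12) (.n (nat_lit 117) (nat_lit 96) (.n (nat_lit 118) (nat_lit 60) (.p (nat_lit 119) (nat_lit 36) (.n (nat_lit 120) (nat_lit 36) (.p (nat_lit 121) (nat_lit 60) (.p (nat_lit 122) (nat_lit 132) (.n (nat_lit 123) (nat_lit 60) (.n (nat_lit 124) (nat_lit 12) (.n (nat_lit 125) (nat_lit 60) (.n (nat_lit 126) (nat_lit 60) (.p (nat_lit 127) (nat_lit 12) (.p (nat_lit 128) (nat_lit 24) (.p (nat_lit 129) (nat_lit 60) (.n (nat_lit 130) (nat_lit 24) (.p (nat_lit 131) (nat_lit 36) (.n (nat_lit 132) (nat_lit 60) (.n (nat_lit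 133) (nat_lit 12) (.n (nat_lit 134) (nat_lit 12) (.n (nat_lit 135) (nat_lit 96) (.n (nat_lit 136) (nat_lit 24) .z)))))))))))))))))))))))))) (.ct dF6as_c546 (nat_lit 36) (nat_lit 0) (.s false (nat_lit 1) (nat_lit 14) (nat_lit 2) (nat_lit 0) (nat_lit 1) true (nat_lit 5) true (nat_lit 10) true (nat_lit 0) true (nat_lit 9) true (nat_lit 11) (.a false (nat_lit 1296) (nat_lit 13) (nat_lit 14) (nat_lit 0) (nat_lit 0) (.e true (nat_lit 36) (nat_lit 28) (nat_lit 6) (nat_lit 5) (.e false (nat_lit 36) (nat_lit 71) (nat_lit 1) (nat_lit 10) (.e false (nat_lit 36) (nat_lit 57) (nat_lit 2) (nat_lit 9) (.e false (nat_lit 72) (nat_lit 58) (nat_lit 2) (nat_lit 9) (.e false (nat_lit 36) (nat_lit 59) (nat_lit 2) (nat_lit 9) (.e false (nat_lit 36) (nat_lit 60) (nat_lit 2) (nat_lit 9) (.e true (nat_lit 108) (nat_lit 61) (nat_lit 2) (nat_lit 9) (.e true (nat_lit 72) (nat_lit 62) (nat_lit 2) (nat_lit 9) (.e true (nat_lit 72) (nat_lit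 63) (nat_lit 2) (nat_lit 9) (.e false (nat_lit 36) (nat_lit 78) (nat_lit 0) (nat_lit 11) .nil))))))))))))) (.nd (.nd .leaf (nat_lit 15360) (nat_lit 34) (.p (nat_lit 34) (nat_lit 36) .z) .df .leaf) (nat_lit 15362) (nat_lit 51) (.p (nat_lit 44) (nat_lit 36) .z) .df .leaf)) (nat_lit 15365) (nat_lit 123) (.p (nat_lit 76) (nat_lit 36) (.n (nat_lit 79) (nat_lit 36) (.n (nat_lit 81) (nat_lit 36) (.p (nat_lit 82) (nat_lit 36) (.n (nat_lit 86) (nat_lit 72) (.n (nat_lit 88) (nat_lit 36) .z)))))) (.ct dF6as_c290 (nat_lit 36) (nat_lit 2) (.s false (nat_lit 1) (nat_lit 5) (nat_lit 1) (nat_lit 1) (nat_lit 2) true (nat_lit 1) true (nat_lit 5) true (nat_lit 2) true (nat_lit 6) true (nat_lit 6) (.e false (nat_lit 36) (nat_lit 13) (nat_lit 6) (nat_lit 1) (.e false (nat_lit 36) (nat_lit 32) (nat_lit 2) (nat_lit 5) (.e false (nat_lit 36) (nat_lit 38) (nat_lit 1) (nat_lit 6) (.e true (nat_lit 36) (nat_lit 39) (nat_lit 1) (nat_lit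 6) (.e true (nat_lit 36) (nat_lit 42) (nat_lit 1) (nat_lit 6) (.e true (nat_lit 36) (nat_lit 43) (nat_lit 1) (nat_lit 6) (.e true (nat_lit 36) (nat_lit 41) (nat_lit 1) (nat_lit 6) .nil))))))))) (.nd (.nd (.nd .leaf (nat_lit 15367) (nat_lit 166) (.p (nat_lit 105) (nat_lit 36) (.n (nat_lit 106) (nat_lit 108) (.p (nat_lit 107) (nat_lit 36) (.p (nat_lit 109) (nat_lit 36) (.p (nat_lit 110) (nat_lit 36) .z))))) (.ct dF6as_c35 (nat_lit 36) (nat_lit 0) (.s true (nat_lit 1) (nat_lit 7) (nat_lit 1) (nat_lit 1) (nat_lit 2) true (nat_lit 1) true (nat_lit 3) true (nat_lit 0) true (nat_lit 4) true (nat_lit 4) (.e true (nat_lit 36) (nat_lit 20) (nat_lit 6) (nat_lit 1) (.e false (nat_lit 36) (nat_lit 44) (nat_lit 2) (nat_lit 3) (.e true (nat_lit 36) (nat_lit 45) (nat_lit 2) (nat_lit 3) (.e true (nat_lit 36) (nat_lit 46) (nat_lit 2) (nat_lit 3) (.e false (nat_lit 36) (nat_lit 51) (nat_lit 1) (nat_lit 4) .nil))))))) .leaf)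 (nat_lit 15371) (nat_lit 236) (.p (nat_lit 111) (nat_lit 12) (.n (nat_lit 112) (nat_lit 12) (.n (nat_lit 113) (nat_lit 12) (.n (nat_lit 114) (nat_lit 48) (.n (nat_lit 115) (nat_lit 48) (.p (nat_lit 116) (nat_lit 24) (.n (nat_lit 117) (nat_lit 12) (.p (nat_lit 118) (nat_lit 60) (.p (nat_lit 120) (nat_lit 36) (.n (nat_lit 121) (nat_lit 96) (.n (nat_lit 122) (nat_lit 60) (.p (nat_lit 123) (nat_lit 60) (.n (nat_lit 124) (nat_lit 24) (.p (nat_lit 125) (nat_lit 60) (.p (nat_lit 126) (nat_lit 96) (.p (nat_lit 127) (nat_lit 60) (.n (nat_lit 128) (nat_lit 24) (.n (nat_lit 129) (nat_lit 132) (.n (nat_lit 130) (nat_lit 12) (.p (nat_lit 132) (nat_lit 60) (.p (nat_lit 133) (nat_lit 48) (.n (nat_lit 134) (nat_lit 132) (.p (nat_lit 135) (nat_lit 60) (.p (nat_lit 136) (nat_lit 24) .z)))))))))))))))))))))))) (.ct dF6as_c546 (nat_lit 36) (nat_lit 1) (.s false (nat_lit 1) (nat_lit 15) (nat_lit 2) (nat_lit 0) (nat_lit 0) true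 (nat_lit 6) true (nat_lit 11) false (nat_lit 1) true (nat_lit 9) true (nat_lit 11) (.e true (nat_lit 36) (nat_lit 34) (nat_lit 5) (nat_lit 6) (.e false (nat_lit 36) (nat_lit 85) (nat_lit 0) (nat_lit 11) (.e true (nat_lit 36) (nat_lit 79) (nat_lit 0) (nat_lit 11) .nil))))) .leaf) (nat_lit 16384) (nat_lit 36) (.n (nat_lit 29) (nat_lit 36) (.n (nat_lit 30) (nat_lit 36) (.n (nat_lit 31) (nat_lit 36) (.p (nat_lit 32) (nat_lit 72) (.p (nat_lit 33) (nat_lit 36) (.p (nat_lit 34) (nat_lit 36) .z)))))) (.ct dF6as_c289 (nat_lit 36) (nat_lit 4) (.s true (nat_lit 1) (nat_lit 2) (nat_lit 1) (nat_lit 1) (nat_lit 0) true (nat_lit 1) true (nat_lit 4) true (nat_lit 2) true (nat_lit 3) true (nat_lit 3) (.e true (nat_lit 36) (nat_lit 6) (nat_lit 3) (nat_lit 1) (.e true (nat_lit 36) (nat_lit 10) (nat_lit 2) (nat_lit 2) (.e true (nat_lit 36) (nat_lit 12) (nat_lit 1) (nat_lit 3) (.e false (nat_lit 36) (nat_lit 13) (nat_lit 1)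 (nat_lit 3) .nil)))))) (.nd .leaf (nat_lit 16386) (nat_lit 52) (.p (nat_lit 45) (nat_lit 36) .z) .df .leaf))) (nat_lit 16389) (nat_lit 127) (.p (nat_lit 76) (nat_lit 36) (.n (nat_lit 77) (nat_lit 36) (.n (nat_lit 78) (nat_lit 72) (.n (nat_lit 79) (nat_lit 36) (.n (nat_lit 80) (nat_lit 36) (.p (nat_lit 83) (nat_lit 36) (.p (nat_lit 84) (nat_lit 36) (.n (nat_lit 86) (nat_lit 36) (.p (nat_lit 87) (nat_lit 36) (.p (nat_lit 88) (nat_lit 36) .z)))))))))) (.ct dF6as_c290 (nat_lit 36) (nat_lit 2) (.s true (nat_lit 1) (nat_lit 6) (nat_lit 0) (nat_lit 1) (nat_lit 2) true (nat_lit 2) true (nat_lit 5) true (nat_lit 1) true (nat_lit 7) true (nat_lit 6) (.e true (nat_lit 36) (nat_lit 33) (nat_lit 2) (nat_lit 5) (.e false (nat_lit 36) (nat_lit 12) (nat_lit 6) (nat_lit 1) (.e true (nat_lit 36) (nat_lit 43) (nat_lit 1) (nat_lit 6) .nil))))) (.nd (.nd (.nd (.nd .leaf (nat_lit 16391) (nat_lit 164) (.p (nat_lit 110) (nat_lit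 36) .z) .df .leaf) (nat_lit 16395) (nat_lit 220) (.n (nat_lit 111) (nat_lit 8) (.n (nat_lit 112) (nat_lit 4) (.n (nat_lit 113) (nat_lit 4) (.p (nat_lit 114) (nat_lit 44) (.p (nat_lit 115) (nat_lit 8) (.n (nat_lit 116) (nat_lit 40) (.p (nat_lit 117) (nat_lit 20) (.n (nat_lit 118) (nat_lit 16) (.n (nat_lit 119) (nat_lit 12) (.p (nat_lit 120) (nat_lit 12) (.p (nat_lit 121) (nat_lit 28) (.n (nat_lit 122) (nat_lit 20) (.n (nat_lit 123) (nat_lit 4) (.p (nat_lit 124) (nat_lit 40) (.n (nat_lit 125) (nat_lit 4) (.n (nat_lit 126) (nat_lit 28) (.n (nat_lit 127) (nat_lit 52) (.p (nat_lit 128) (nat_lit 16) (.p (nat_lit 129) (nat_lit 52) (.n (nat_lit 130) (nat_lit 4) (.n (nat_lit 131) (nat_lit 24) (.n (nat_lit 132) (nat_lit 28) (.n (nat_lit 133) (nat_lit 32) (.p (nat_lit 134) (nat_lit 100) (.p (nat_lit 135) (nat_lit 20) (.p (nat_lit 136) (nat_lit 8) .z)))))))))))))))))))))))))) (.ct dF6as_c546 (nat_lit 36) (nat_lit 1)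 (.s false (nat_lit 1) (nat_lit 11) (nat_lit 2) (nat_lit 1) (nat_lit 1) true (nat_lit 5) true (nat_lit 10) true (nat_lit 1) true (nat_lit 9) true (nat_lit 10) (.e false (nat_lit 36) (nat_lit 26) (nat_lit 6) (nat_lit 5) (.e false (nat_lit 36) (nat_lit 67) (nat_lit 1) (nat_lit 10) (.e false (nat_lit 36) (nat_lit 54) (nat_lit 2) (nat_lit 9) (.e true (nat_lit 108) (nat_lit 55) (nat_lit 2) (nat_lit 9) (.e true (nat_lit 72) (nat_lit 56) (nat_lit 2) (nat_lit 9) (.e false (nat_lit 36) (nat_lit 57) (nat_lit 2) (nat_lit 9) (.e true (nat_lit 36) (nat_lit 59) (nat_lit 2) (nat_lit 9) (.e true (nat_lit 36) (nat_lit 60) (nat_lit 2) (nat_lit 9) (.e false (nat_lit 36) (nat_lit 61) (nat_lit 2) (nat_lit 9) (.e false (nat_lit 36) (nat_lit 62) (nat_lit 2) (nat_lit 9) (.e false (nat_lit 36) (nat_lit 63) (nat_lit 2) (nat_lit 9) (.e true (nat_lit 36) (nat_lit 64) (nat_lit 1) (nat_lit 10) .nil)))))))))))))) .leaf) (nat_lit 17408)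 (nat_lit 39) (.p (nat_lit 36) (nat_lit 36) .z) .df (.nd (.nd .leaf (nat_lit 17409) (nat_lit 45) (.p (nat_lit 41) (nat_lit 36) .z) .df .leaf) (nat_lit 17410) (nat_lit 56) (.p (nat_lit 47) (nat_lit 36) .z) .df .leaf)) (nat_lit 17411) (nat_lit 95) (.n (nat_lit 64) (nat_lit 36) (.n (nat_lit 65) (nat_lit 72) (.p (nat_lit 66) (nat_lit 36) (.n (nat_lit 68) (nat_lit 36) (.n (nat_lit 69) (nat_lit 36) (.n (nat_lit 70) (nat_lit 36) (.p (nat_lit 71) (nat_lit 36) (.p (nat_lit 72) (nat_lit 36) (.p (nat_lit 73) (nat_lit 36) (.p (nat_lit 74) (nat_lit 36) .z)))))))))) (.ct dF6as_c530 (nat_lit 36) (nat_lit 3) (.s true (nat_lit 1) (nat_lit 3) (nat_lit 2) (nat_lit 0) (nat_lit 2) true (nat_lit 0) true (nat_lit 4) true (nat_lit 3) true (nat_lit 4) true (nat_lit 6) (.s false (nat_lit 1) (nat_lit 7) (nat_lit 0) (nat_lit 1) (nat_lit 0) false (nat_lit 7) true (nat_lit 6) true (nat_lit 0) true (nat_lit 6) true (nat_lit 5) (.e true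 (nat_lit 72) (nat_lit 27) (nat_lit 2) (nat_lit 4) (.e true (nat_lit 36) (nat_lit 26) (nat_lit 2) (nat_lit 4) (.e false (nat_lit 36) (nat_lit 28) (nat_lit 2) (nat_lit 4) (.e true (nat_lit 36) (nat_lit 38) (nat_lit 0) (nat_lit 6) (.e false (nat_lit 36) (nat_lit 42) (nat_lit 0) (nat_lit 6) (.e true (nat_lit 36) (nat_lit 39) (nat_lit 0) (nat_lit 6) (.e false (nat_lit 36) (nat_lit 40) (nat_lit 0) (nat_lit 6) (.e false (nat_lit 36) (nat_lit 41) (nat_lit 0) (nat_lit 6) (.e false (nat_lit 36) (nat_lit 43) (nat_lit 0) (nat_lit 6) (.e true (nat_lit 36) (nat_lit 37) (nat_lit 1) (nat_lit 5) .nil))))))))))))) (.nd (.nd (.nd .leaf (nat_lit 17412) (nat_lit 125) (.p (nat_lit 77) (nat_lit 36) (.n (nat_lit 78) (nat_lit 36) (.n (nat_lit 80) (nat_lit 36) (.p (nat_lit 84) (nat_lit 36) (.p (nat_lit 88) (nat_lit 36) .z))))) (.ct dF6as_c290 (nat_lit 36) (nat_lit 3) (.s false (nat_lit 1) (nat_lit 4) (nat_lit 0) (nat_lit 2) (nat_lit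 2) true (nat_lit 2) true (nat_lit 5) true (nat_lit 3) true (nat_lit 7) true (nat_lit 5) (.e false (nat_lit 36) (nat_lit 15) (nat_lit 5) (nat_lit 2) (.e false (nat_lit 36) (nat_lit 30) (nat_lit 2) (nat_lit 5) (.e false (nat_lit 72) (nat_lit 45) (nat_lit 0) (nat_lit 7) (.e true (nat_lit 72) (nat_lit 46) (nat_lit 0) (nat_lit 7) (.e false (nat_lit 36) (nat_lit 34) (nat_lit 2) (nat_lit 5) .nil))))))) .leaf) (nat_lit 17413) (nat_lit 138) (.p (nat_lit 89) (nat_lit 36) (.n (nat_lit 91) (nat_lit 36) (.n (nat_lit 93) (nat_lit 36) .z))) (.ct dF6as_c515 (nat_lit 36) (nat_lit 1) (.s true (nat_lit 1) (nat_lit 5) (nat_lit 2) (nat_lit 0) (nat_lit 2) true (nat_lit 0) true (nat_lit 2) true (nat_lit 1) true (nat_lit 2) true (nat_lit 3) (.e false (nat_lit 36) (nat_lit 11) (nat_lit 7) (nat_lit 0) (.e true (nat_lit 72) (nat_lit 36) (nat_lit 2) (nat_lit 2) (.e true (nat_lit 36) (nat_lit 35) (nat_lit 2) (nat_lit 2) (.e false (nat_lit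 36) (nat_lit 37) (nat_lit 2) (nat_lit 2) (.e true (nat_lit 36) (nat_lit 47) (nat_lit 0) (nat_lit 3) .nil))))))) .leaf) (nat_lit 17414) (nat_lit 149) (.p (nat_lit 104) (nat_lit 36) .z) .df (.nd .leaf (nat_lit 17417) (nat_lit 199) (.p (nat_lit 111) (nat_lit 48) (.n (nat_lit 112) (nat_lit 12) (.n (nat_lit 113) (nat_lit 48) (.p (nat_lit 114) (nat_lit 60) (.p (nat_lit 115) (nat_lit 60) (.p (nat_lit 116) (nat_lit 24) (.n (nat_lit 117) (nat_lit 48) (.n (nat_lit 118) (nat_lit 48) (.p (nat_lit 119) (nat_lit 72) (.p (nat_lit 120) (nat_lit 36) (.p (nat_lit 121) (nat_lit 48) (.p (nat_lit 122) (nat_lit 120) (.n (nat_lit 123) (nat_lit 48) (.n (nat_lit 124) (nat_lit 60) (.n (nat_lit 125) (nat_lit 84) (.n (nat_lit 126) (nat_lit 84) (.n (nat_lit 127) (nat_lit 12) (.p (nat_lit 128) (nat_lit 48) (.p (nat_lit 129) (nat_lit 84) (.n (nat_lit 130) (nat_lit 12) (.p (nat_lit 131) (nat_lit 36) (.n (nat_lit 132) (nat_lit 48) (.n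 (nat_lit 133) (nat_lit 24) (.p (nat_lit 134) (nat_lit 12) (.n (nat_lit 135) (nat_lit 120) (.n (nat_lit 136) (nat_lit 12) .z)))))))))))))))))))))))))) (.ct dF6as_c546 (nat_lit 2239488) (nat_lit 2) (.s false (nat_lit 62208) (nat_lit 5) (nat_lit 2) (nat_lit 1) (nat_lit 3) true (nat_lit 0) true (nat_lit 8) true (nat_lit 6) true (nat_lit 9) true (nat_lit 10) (.s true (nat_lit 62208) (nat_lit 5) (nat_lit 2) (nat_lit 3) (nat_lit 1) true (nat_lit 5) true (nat_lit 10) true (nat_lit 6) true (nat_lit 9) true (nat_lit 8) (.s false (nat_lit 93312) (nat_lit 6) (nat_lit 0) (nat_lit 0) (nat_lit 6) true (nat_lit 0) true (nat_lit 5) true (nat_lit 5) true (nat_lit 11) true (nat_lit 11) (.s false (nat_lit 31104) (nat_lit 6) (nat_lit 0) (nat_lit 3) (nat_lit 2) true (nat_lit 6) true (nat_lit 9) true (nat_lit 5) true (nat_lit 11) true (nat_lit 8) (.s true (nat_lit 31104) (nat_lit 6) (nat_lit 5) (nat_lit 0) (nat_lit 1) true (nat_lit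 0) true (nat_lit 10) true (nat_lit 5) true (nat_lit 6) true (nat_lit 11) (.s true (nat_lit 62208) (nat_lit 12) (nat_lit 0) (nat_lit 1) (nat_lit 2) true (nat_lit 6) true (nat_lit 9) true (nat_lit 0) true (nat_lit 11) true (nat_lit 10) (.s true (nat_lit 62208) (nat_lit 13) (nat_lit 0) (nat_lit 2) (nat_lit 1) true (nat_lit 8) true (nat_lit 10) true (nat_lit 0) true (nat_lit 11) true (nat_lit 9) (.s false (nat_lit 31104) (nat_lit 12) (nat_lit 1) (nat_lit 0) (nat_lit 2) true (nat_lit 5) true (nat_lit 9) true (nat_lit 0) true (nat_lit 10) true (nat_lit 11) (.s false (nat_lit 62208) (nat_lit 13) (nat_lit 1) (nat_lit 0) (nat_lit 2) true (nat_lit 5) true (nat_lit 9) true (nat_lit 0) true (nat_lit 10) true (nat_lit 11) (.s true (nat_lit 31104) (nat_lit 13) (nat_lit 2) (nat_lit 0) (nat_lit 1) true (nat_lit 5) true (nat_lit 10) true (nat_lit 0) true (nat_lit 9) true (nat_lit 11) (.s false (nat_lit 31104) (nat_lit 14)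 (nat_lit 2) (nat_lit 0) (nat_lit 1) true (nat_lit 5) true (nat_lit 10) true (nat_lit 0) true (nat_lit 9) true (nat_lit 11) (.s true (nat_lit 62208) (nat_lit 17) (nat_lit 0) (nat_lit 1) (nat_lit 1) true (nat_lit 8) true (nat_lit 10) false (nat_lit 2) true (nat_lit 11) true (nat_lit 10) (.s true (nat_lit 31104) (nat_lit 19) (nat_lit 0) (nat_lit 0) (nat_lit 1) true (nat_lit 8) true (nat_lit 10) false (nat_lit 3) true (nat_lit 11) true (nat_lit 11) (.i false (nat_lit 1) (nat_lit 2) (.c (nat_lit 2) (nat_lit 1) (.c (nat_lit 2) (nat_lit 1) (.c (nat_lit 1) (nat_lit 16) (.c (nat_lit 1) (nat_lit 16) (.c (nat_lit 0) (nat_lit 256) (.c (nat_lit 0) (nat_lit 256) .nil)))))) (.a false (nat_lit 60466176) (nat_lit 14) (nat_lit 14) (nat_lit 0) (nat_lit 0) dF6as_i4)))))))))))))))) .leaf))))))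

noncomputable def dF6as_t1 : Tr := (.nd (.nd (.nd (.nd (.nd (.nd (.nd .leaf (nat_lit 17420) (nat_lit 284) (.p (nat_lit 137) (nat_lit 36) (.n (nat_lit 143) (nat_lit 36) (.n (nat_lit 147) (nat_lit 72) (.n (nat_lit 148) (nat_lit 72) (.p (nat_lit 149) (nat_lit 72) (.p (nat_lit 150) (nat_lit 108) (.p (nat_lit 151) (nat_lit 36) (.p (nat_lit 152) (nat_lit 108) (.p (nat_lit 154) (nat_lit 72) (.n (nat_lit 155) (nat_lit 72) (.n (nat_lit 156) (nat_lit 36) .z))))))))))) (.ct dF6as_c531 (nat_lit 36) (nat_lit 0) (.s false (nat_lit 1) (nat_lit 12) (nat_lit 0) (nat_lit 2) (nat_lit 2) true (nat_lit 5) true (nat_lit 7) true (nat_lit 0) true (nat_lit 9) true (nat_lit 7) (.e false (nat_lit 36) (nat_lit 38) (nat_lit 5) (nat_lit 5) (.e false (nat_lit 36) (nat_lit 65) (nat_lit 2) (nat_lit 7) (.e true (nat_lit 36) (nat_lit 103) (nat_lit 0) (nat_lit 9) (.e false (nat_lit 36) (nat_lit 69) (nat_lit 2) (nat_lit 7) .nil)))))) .leaf)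 (nat_lit 17421) (nat_lit 287) (.p (nat_lit 137) (nat_lit 180) (.p (nat_lit 138) (nat_lit 90) (.p (nat_lit 139) (nat_lit 18) (.p (nat_lit 140) (nat_lit 18) (.n (nat_lit 141) (nat_lit 18) (.n (nat_lit 142) (nat_lit 36) (.p (nat_lit 143) (nat_lit 18) (.n (nat_lit 144) (nat_lit 18) (.p (nat_lit 145) (nat_lit 108) (.n (nat_lit 146) (nat_lit 72) (.p (nat_lit 147) (nat_lit 126) (.n (nat_lit 148) (nat_lit 126) (.p (nat_lit 149) (nat_lit 126) (.n (nat_lit 150) (nat_lit 108) (.n (nat_lit 151) (nat_lit 72) (.n (nat_lit 152) (nat_lit 72) (.n (nat_lit 153) (nat_lit 90) (.n (nat_lit 154) (nat_lit 72) (.n (nat_lit 155) (nat_lit 180) (.p (nat_lit 156) (nat_lit 108) .z)))))))))))))))))))) (.ct dF6as_c531 (nat_lit 36) (nat_lit 0) (.s true (nat_lit 1) (nat_lit 17) (nat_lit 0) (nat_lit 2) (nat_lit 1) true (nat_lit 6) true (nat_lit 8) false (nat_lit 0) true (nat_lit 9) true (nat_lit 7) (.e true (nat_lit 36) (nat_lit 47) (nat_lit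 3) (nat_lit 6) (.e false (nat_lit 36) (nat_lit 89) (nat_lit 1) (nat_lit 8) (.e true (nat_lit 36) (nat_lit 92) (nat_lit 1) (nat_lit 8) (.e true (nat_lit 36) (nat_lit 93) (nat_lit 1) (nat_lit 8) (.e false (nat_lit 36) (nat_lit 104) (nat_lit 0) (nat_lit 9) (.e true (nat_lit 36) (nat_lit 72) (nat_lit 2) (nat_lit 7) .nil)))))))) .leaf) (nat_lit 17422) (nat_lit 281) (.p (nat_lit 137) (nat_lit 72) (.p (nat_lit 138) (nat_lit 18) (.p (nat_lit 139) (nat_lit 54) (.p (nat_lit 140) (nat_lit 54) (.n (nat_lit 141) (nat_lit 54) (.n (nat_lit 142) (nat_lit 36) (.n (nat_lit 144) (nat_lit 18) (.p (nat_lit 145) (nat_lit 36) (.p (nat_lit 146) (nat_lit 72) (.n (nat_lit 147) (nat_lit 18) (.p (nat_lit 148) (nat_lit 90) (.n (nat_lit 149) (nat_lit 90) (.n (nat_lit 150) (nat_lit 72) (.p (nat_lit 151) (nat_lit 18) (.n (nat_lit 152) (nat_lit 36) (.n (nat_lit 153) (nat_lit 18) (.n (nat_lit 154) (nat_lit 36) (.p (nat_lit 155) (nat_lit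 36) (.p (nat_lit 156) (nat_lit 18) .z))))))))))))))))))) (.ct dF6as_c531 (nat_lit 36) (nat_lit 0) (.s true (nat_lit 1) (nat_lit 14) (nat_lit 2) (nat_lit 0) (nat_lit 2) true (nat_lit 3) true (nat_lit 7) true (nat_lit 0) true (nat_lit 7) true (nat_lit 9) (.e false (nat_lit 36) (nat_lit 28) (nat_lit 7) (nat_lit 3) (.e true (nat_lit 36) (nat_lit 71) (nat_lit 2) (nat_lit 7) (.e true (nat_lit 36) (nat_lit 66) (nat_lit 2) (nat_lit 7) (.e true (nat_lit 36) (nat_lit 69) (nat_lit 2) (nat_lit 7) (.e false (nat_lit 36) (nat_lit 70) (nat_lit 2) (nat_lit 7) (.e false (nat_lit 36) (nat_lit 73) (nat_lit 2) (nat_lit 7) (.e false (nat_lit 72) (nat_lit 74) (nat_lit 2) (nat_lit 7) (.e true (nat_lit 36) (nat_lit 96) (nat_lit 0) (nat_lit 9) .nil)))))))))) (.nd (.nd .leaf (nat_lit 17423) (nat_lit 343) (.p (nat_lit 157) (nat_lit 84) (.p (nat_lit 158) (nat_lit 60) (.p (nat_lit 159) (nat_lit 48) (.n (nat_lit 160) (nat_lit 72) (.p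 (nat_lit 161) (nat_lit 60) (.n (nat_lit 163) (nat_lit 24) (.n (nat_lit 164) (nat_lit 60) (.n (nat_lit 165) (nat_lit 24) (.p (nat_lit 166) (nat_lit 84) (.n (nat_lit 167) (nat_lit 12) (.p (nat_lit 168) (nat_lit 24) (.p (nat_lit 169) (nat_lit 12) (.n (nat_lit 170) (nat_lit 84) (.n (nat_lit 171) (nat_lit 84) (.p (nat_lit 172) (nat_lit 24) (.p (nat_lit 173) (nat_lit 48) (.n (nat_lit 174) (nat_lit 36) (.n (nat_lit 175) (nat_lit 60) (.p (nat_lit 176) (nat_lit 48) (.n (nat_lit 177) (nat_lit 84) (.p (nat_lit 178) (nat_lit 24) (.n (nat_lit 179) (nat_lit 24) .z)))))))))))))))))))))) (.ct dF6as_c291 (nat_lit 36) (nat_lit 0) (.s false (nat_lit 1) (nat_lit 15) (nat_lit 0) (nat_lit 2) (nat_lit 2) true (nat_lit 5) true (nat_lit 8) true (nat_lit 0) true (nat_lit 10) true (nat_lit 8) (.e false (nat_lit 36) (nat_lit 44) (nat_lit 5) (nat_lit 5) (.e false (nat_lit 36) (nat_lit 79) (nat_lit 2) (nat_lit 8) (.e true (nat_lit 36)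 (nat_lit 105) (nat_lit 0) (nat_lit 10) (.e false (nat_lit 108) (nat_lit 106) (nat_lit 0) (nat_lit 10) (.e true (nat_lit 36) (nat_lit 107) (nat_lit 0) (nat_lit 10) (.e true (nat_lit 36) (nat_lit 109) (nat_lit 0) (nat_lit 10) (.e true (nat_lit 36) (nat_lit 110) (nat_lit 0) (nat_lit 10) (.e false (nat_lit 36) (nat_lit 85) (nat_lit 2) (nat_lit 8) .nil)))))))))) .leaf) (nat_lit 17424) (nat_lit 336) (.p (nat_lit 157) (nat_lit 147) (.p (nat_lit 158) (nat_lit 141) (.p (nat_lit 159) (nat_lit 3) (.n (nat_lit 160) (nat_lit 153) (.n (nat_lit 161) (nat_lit 75) (.n (nat_lit 162) (nat_lit 72) (.n (nat_lit 163) (nat_lit 114) (.n (nat_lit 164) (nat_lit 141) (.n (nat_lit 165) (nat_lit 240) (.p (nat_lit 166) (nat_lit 165) (.n (nat_lit 167) (nat_lit 12) (.n (nat_lit 168) (nat_lit 120) (.n (nat_lit 169) (nat_lit 294) (.n (nat_lit 170) (nat_lit 120) (.n (nat_lit 171) (nat_lit 147) (.n (nat_lit 172) (nat_lit 120) (.p (nat_lit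 173) (nat_lit 156) (.n (nat_lit 174) (nat_lit 27) (.n (nat_lit 175) (nat_lit 123) (.p (nat_lit 176) (nat_lit 93) (.n (nat_lit 177) (nat_lit 201) (.p (nat_lit 178) (nat_lit 276) (.n (nat_lit 179) (nat_lit 42) .z))))))))))))))))))))))) (.ct dF6as_c291 (nat_lit 36) (nat_lit 0) (.s false (nat_lit 1) (nat_lit 17) (nat_lit 2) (nat_lit 1) (nat_lit 1) true (nat_lit 4) true (nat_lit 9) false (nat_lit 0) true (nat_lit 8) true (nat_lit 9) (.e false (nat_lit 36) (nat_lit 41) (nat_lit 6) (nat_lit 4) (.e true (nat_lit 36) (nat_lit 94) (nat_lit 1) (nat_lit 9) (.e false (nat_lit 36) (nat_lit 95) (nat_lit 1) (nat_lit 9) (.e true (nat_lit 36) (nat_lit 96) (nat_lit 1) (nat_lit 9) (.e false (nat_lit 36) (nat_lit 100) (nat_lit 1) (nat_lit 9) (.e false (nat_lit 36) (nat_lit 103) (nat_lit 1) (nat_lit 9) (.e true (nat_lit 36) (nat_lit 104) (nat_lit 1) (nat_lit 9) (.e true (nat_lit 36) (nat_lit 77) (nat_lit 2) (nat_lit 8) (.e false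 (nat_lit 36) (nat_lit 78) (nat_lit 2) (nat_lit 8) (.e false (nat_lit 36) (nat_lit 80) (nat_lit 2) (nat_lit 8) (.e true (nat_lit 36) (nat_lit 84) (nat_lit 2) (nat_lit 8) (.e true (nat_lit 36) (nat_lit 88) (nat_lit 2) (nat_lit 8) .nil)))))))))))))) .leaf)) (nat_lit 18432) (nat_lit 40) (.p (nat_lit 37) (nat_lit 36) .z) .df (.nd (.nd (.nd .leaf (nat_lit 18433) (nat_lit 46) (.p (nat_lit 42) (nat_lit 36) .z) .df .leaf) (nat_lit 18434) (nat_lit 57) (.p (nat_lit 48) (nat_lit 36) .z) .df .leaf) (nat_lit 18435) (nat_lit 102) (.n (nat_lit 68) (nat_lit 36) (.n (nat_lit 69) (nat_lit 72) (.p (nat_lit 72) (nat_lit 72) (.p (nat_lit 73) (nat_lit 36) (.p (nat_lit 74) (nat_lit 72) .z))))) (.ct dF6as_c530 (nat_lit 36) (nat_lit 3) (.s true (nat_lit 1) (nat_lit 7) (nat_lit 0) (nat_lit 0) (nat_lit 1) true (nat_lit 3) true (nat_lit 5) true (nat_lit 0) true (nat_lit 6) true (nat_lit 6) (.e true (nat_lit 36) (nat_lit 37) (nat_lit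 1) (nat_lit 5) (.e false (nat_lit 72) (nat_lit 41) (nat_lit 0) (nat_lit 6) (.e false (nat_lit 72) (nat_lit 43) (nat_lit 0) (nat_lit 6) (.e true (nat_lit 72) (nat_lit 38) (nat_lit 0) (nat_lit 6) (.e false (nat_lit 36) (nat_lit 42) (nat_lit 0) (nat_lit 6) .nil))))))) (.nd .leaf (nat_lit 18436) (nat_lit 129) (.n (nat_lit 76) (nat_lit 108) (.p (nat_lit 77) (nat_lit 72) (.p (nat_lit 78) (nat_lit 72) (.p (nat_lit 79) (nat_lit 72) (.p (nat_lit 81) (nat_lit 36) (.n (nat_lit 82) (nat_lit 36) (.n (nat_lit 85) (nat_lit 36) (.p (nat_lit 86) (nat_lit 72) (.p (nat_lit 88) (nat_lit 36) .z))))))))) (.ct dF6as_c290 (nat_lit 36) (nat_lit 3) (.s true (nat_lit 1) (nat_lit 4) (nat_lit 2) (nat_lit 2) (nat_lit 0) true (nat_lit 2) true (nat_lit 7) true (nat_lit 3) true (nat_lit 5) true (nat_lit 5) (.e true (nat_lit 36) (nat_lit 15) (nat_lit 5) (nat_lit 2) (.e true (nat_lit 36) (nat_lit 44) (nat_lit 0) (nat_lit 7) (.e true (nat_lit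 72) (nat_lit 31) (nat_lit 2) (nat_lit 5) (.e false (nat_lit 72) (nat_lit 32) (nat_lit 2) (nat_lit 5) (.e false (nat_lit 72) (nat_lit 33) (nat_lit 2) (nat_lit 5) (.e false (nat_lit 36) (nat_lit 34) (nat_lit 2) (nat_lit 5) .nil)))))))) .leaf))) (nat_lit 18437) (nat_lit 136) (.n (nat_lit 90) (nat_lit 36) (.p (nat_lit 92) (nat_lit 36) (.p (nat_lit 93) (nat_lit 72) .z))) (.ct dF6as_c515 (nat_lit 36) (nat_lit 1) (.s true (nat_lit 1) (nat_lit 7) (nat_lit 0) (nat_lit 0) (nat_lit 2) true (nat_lit 1) true (nat_lit 2) true (nat_lit 0) true (nat_lit 3) true (nat_lit 3) (.e true (nat_lit 36) (nat_lit 37) (nat_lit 2) (nat_lit 2) (.e false (nat_lit 36) (nat_lit 48) (nat_lit 0) (nat_lit 3) (.e false (nat_lit 72) (nat_lit 49) (nat_lit 0) (nat_lit 3) .nil))))) (.nd (.nd (.nd (.nd .leaf (nat_lit 18438) (nat_lit 154) (.n (nat_lit 94) (nat_lit 72) (.p (nat_lit 95) (nat_lit 72) (.p (nat_lit 98) (nat_lit 36) (.p (nat_lit 99)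 (nat_lit 72) (.p (nat_lit 102) (nat_lit 36) (.p (nat_lit 103) (nat_lit 36) .z)))))) (.ct dF6as_c275 (nat_lit 36) (nat_lit 1) (.s false (nat_lit 1) (nat_lit 7) (nat_lit 2) (nat_lit 0) (nat_lit 1) true (nat_lit 1) true (nat_lit 5) true (nat_lit 0) true (nat_lit 4) true (nat_lit 6) (.e false (nat_lit 36) (nat_lit 49) (nat_lit 1) (nat_lit 5) (.e false (nat_lit 36) (nat_lit 13) (nat_lit 7) (nat_lit 0) (.e true (nat_lit 36) (nat_lit 39) (nat_lit 2) (nat_lit 4) (.e false (nat_lit 36) (nat_lit 40) (nat_lit 2) (nat_lit 4) (.e false (nat_lit 36) (nat_lit 41) (nat_lit 2) (nat_lit 4) (.e false (nat_lit 36) (nat_lit 43) (nat_lit 2) (nat_lit 4) (.e false (nat_lit 36) (nat_lit 51) (nat_lit 0) (nat_lit 6) .nil))))))))) .leaf) (nat_lit 18441) (nat_lit 234) (.n (nat_lit 111) (nat_lit 40) (.n (nat_lit 112) (nat_lit 56) (.n (nat_lit 113) (nat_lit 56) (.n (nat_lit 114) (nat_lit 32) (.n (nat_lit 115) (nat_lit 32) (.p (nat_lit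 116) (nat_lit 16) (.p (nat_lit 117) (nat_lit 136) (.p (nat_lit 118) (nat_lit 64) (.n (nat_lit 119) (nat_lit 24) (.p (nat_lit 120) (nat_lit 24) (.n (nat_lit 121) (nat_lit 40) (.n (nat_lit 122) (nat_lit 136) (.p (nat_lit 123) (nat_lit 88) (.n (nat_lit 124) (nat_lit 16) (.p (nat_lit 125) (nat_lit 52) (.p (nat_lit 126) (nat_lit 40) (.n (nat_lit 127) (nat_lit 8) (.n (nat_lit 128) (nat_lit 64) (.n (nat_lit 129) (nat_lit 64) (.p (nat_lit 130) (nat_lit 88) (.n (nat_lit 131) (nat_lit 48) (.p (nat_lit 132) (nat_lit 40) (.n (nat_lit 133) (nat_lit 16) (.p (nat_lit 134) (nat_lit 32) (.p (nat_lit 135) (nat_lit 64) (.p (nat_lit 136) (nat_lit 40) .z)))))))))))))))))))))))))) (.ct dF6as_c546 (nat_lit 36) (nat_lit 2) (.s false (nat_lit 1) (nat_lit 18) (nat_lit 1) (nat_lit 0) (nat_lit 1) true (nat_lit 7) true (nat_lit 10) false (nat_lit 2) true (nat_lit 10) true (nat_lit 11) (.e true (nat_lit 36) (nat_lit 37) (nat_lit 4)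 (nat_lit 7) (.e false (nat_lit 36) (nat_lit 68) (nat_lit 1) (nat_lit 10) (.e false (nat_lit 72) (nat_lit 69) (nat_lit 1) (nat_lit 10) (.e true (nat_lit 72) (nat_lit 72) (nat_lit 1) (nat_lit 10) (.e true (nat_lit 72) (nat_lit 74) (nat_lit 1) (nat_lit 10) (.e false (nat_lit 36) (nat_lit 84) (nat_lit 0) (nat_lit 11) .nil)))))))) .leaf) (nat_lit 18442) (nat_lit 235) (.n (nat_lit 111) (nat_lit 48) (.n (nat_lit 112) (nat_lit 96) (.n (nat_lit 113) (nat_lit 24) (.n (nat_lit 114) (nat_lit 24) (.n (nat_lit 115) (nat_lit 96) (.p (nat_lit 116) (nat_lit 48) (.p (nat_lit 117) (nat_lit 120) (.p (nat_lit 118) (nat_lit 120) (.p (nat_lit 120) (nat_lit 216) (.n (nat_lit 121) (nat_lit 192) (.n (nat_lit 122) (nat_lit 264) (.p (nat_lit 123) (nat_lit 264) (.n (nat_lit 124) (nat_lit 48) (.p (nat_lit 125) (nat_lit 120) (.p (nat_lit 126) (nat_lit 192) (.n (nat_lit 127) (nat_lit 24) (.n (nat_lit 128) (nat_lit 48) (.n (nat_lit 129)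 (nat_lit 120) (.p (nat_lit 130) (nat_lit 48) (.n (nat_lit 131) (nat_lit 72) (.p (nat_lit 132) (nat_lit 48) (.p (nat_lit 133) (nat_lit 24) (.p (nat_lit 134) (nat_lit 24) (.p (nat_lit 135) (nat_lit 120) (.p (nat_lit 136) (nat_lit 48) .z))))))))))))))))))))))))) (.ct dF6as_c546 (nat_lit 36) (nat_lit 2) (.s false (nat_lit 1) (nat_lit 18) (nat_lit 1) (nat_lit 1) (nat_lit 0) true (nat_lit 8) true (nat_lit 11) false (nat_lit 2) true (nat_lit 10) true (nat_lit 10) (.e false (nat_lit 36) (nat_lit 42) (nat_lit 3) (nat_lit 8) (.e false (nat_lit 36) (nat_lit 84) (nat_lit 0) (nat_lit 11) (.e true (nat_lit 72) (nat_lit 68) (nat_lit 1) (nat_lit 10) (.e true (nat_lit 72) (nat_lit 69) (nat_lit 1) (nat_lit 10) (.e false (nat_lit 72) (nat_lit 72) (nat_lit 1) (nat_lit 10) (.e false (nat_lit 36) (nat_lit 73) (nat_lit 1) (nat_lit 10) (.e false (nat_lit 72) (nat_lit 74) (nat_lit 1) (nat_lit 10) .nil))))))))) (.nd (.nd .leaf (nat_lit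 18444) (nat_lit 286) (.p (nat_lit 137) (nat_lit 72) (.p (nat_lit 139) (nat_lit 36) (.p (nat_lit 140) (nat_lit 36) (.n (nat_lit 141) (nat_lit 36) (.p (nat_lit 143) (nat_lit 36) (.p (nat_lit 147) (nat_lit 36) (.p (nat_lit 148) (nat_lit 72) (.n (nat_lit 149) (nat_lit 72) (.n (nat_lit 150) (nat_lit 108) (.n (nat_lit 151) (nat_lit 36) (.n (nat_lit 152) (nat_lit 108) (.n (nat_lit 154) (nat_lit 72) (.p (nat_lit 155) (nat_lit 36) (.p (nat_lit 156) (nat_lit 36) .z)))))))))))))) (.ct dF6as_c531 (nat_lit 36) (nat_lit 0) (.s true (nat_lit 1) (nat_lit 12) (nat_lit 2) (nat_lit 2) (nat_lit 0) true (nat_lit 5) true (nat_lit 9) true (nat_lit 0) true (nat_lit 7) true (nat_lit 7) (.e true (nat_lit 36) (nat_lit 38) (nat_lit 5) (nat_lit 5) (.e true (nat_lit 36) (nat_lit 94) (nat_lit 0) (nat_lit 9) (.e false (nat_lit 72) (nat_lit 65) (nat_lit 2) (nat_lit 7) (.e false (nat_lit 36) (nat_lit 70) (nat_lit 2) (nat_lit 7) (.e true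 (nat_lit 36) (nat_lit 71) (nat_lit 2) (nat_lit 7) .nil))))))) .leaf) (nat_lit 18445) (nat_lit 282) (.p (nat_lit 137) (nat_lit 72) (.p (nat_lit 138) (nat_lit 36) (.p (nat_lit 139) (nat_lit 36) (.p (nat_lit 140) (nat_lit 36) (.n (nat_lit 141) (nat_lit 36) (.p (nat_lit 143) (nat_lit 36) (.n (nat_lit 144) (nat_lit 36) (.p (nat_lit 145) (nat_lit 72) (.p (nat_lit 147) (nat_lit 108) (.p (nat_lit 148) (nat_lit 72) (.n (nat_lit 149) (nat_lit 72) (.n (nat_lit 150) (nat_lit 180) (.n (nat_lit 151) (nat_lit 72) (.n (nat_lit 152) (nat_lit 180) (.n (nat_lit 153) (nat_lit 36) (.n (nat_lit 154) (nat_lit 144) (.p (nat_lit 155) (nat_lit 36) (.p (nat_lit 156) (nat_lit 108) .z)))))))))))))))))) (.ct dF6as_c531 (nat_lit 36) (nat_lit 0) (.s false (nat_lit 1) (nat_lit 18) (nat_lit 2) (nat_lit 0) (nat_lit 1) true (nat_lit 4) true (nat_lit 8) false (nat_lit 0) true (nat_lit 7) true (nat_lit 9) (.e true (nat_lit 36) (nat_lit 37)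 (nat_lit 6) (nat_lit 4) (.e false (nat_lit 36) (nat_lit 92) (nat_lit 1) (nat_lit 8) (.e false (nat_lit 36) (nat_lit 68) (nat_lit 2) (nat_lit 7) (.e false (nat_lit 72) (nat_lit 69) (nat_lit 2) (nat_lit 7) (.e true (nat_lit 72) (nat_lit 72) (nat_lit 2) (nat_lit 7) (.e true (nat_lit 36) (nat_lit 73) (nat_lit 2) (nat_lit 7) (.e true (nat_lit 72) (nat_lit 74) (nat_lit 2) (nat_lit 7) (.e false (nat_lit 36) (nat_lit 98) (nat_lit 0) (nat_lit 9) .nil)))))))))) .leaf)) (nat_lit 18446) (nat_lit 288) (.n (nat_lit 138) (nat_lit 36) (.n (nat_lit 143) (nat_lit 36) (.n (nat_lit 144) (nat_lit 36) (.p (nat_lit 146) (nat_lit 72) (.n (nat_lit 147) (nat_lit 72) (.p (nat_lit 150) (nat_lit 72) (.p (nat_lit 151) (nat_lit 72) (.p (nat_lit 152) (nat_lit 72) (.p (nat_lit 153) (nat_lit 36) (.p (nat_lit 154) (nat_lit 72) (.n (nat_lit 156) (nat_lit 36) .z))))))))))) (.ct dF6as_c531 (nat_lit 36) (nat_lit 0) (.s false (nat_lit 1) (nat_lit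 18) (nat_lit 1) (nat_lit 2) (nat_lit 0) true (nat_lit 6) true (nat_lit 9) false (nat_lit 0) true (nat_lit 8) true (nat_lit 7) (.e false (nat_lit 36) (nat_lit 48) (nat_lit 3) (nat_lit 6) (.e false (nat_lit 36) (nat_lit 98) (nat_lit 0) (nat_lit 9) (.e true (nat_lit 36) (nat_lit 90) (nat_lit 1) (nat_lit 8) (.e false (nat_lit 36) (nat_lit 92) (nat_lit 1) (nat_lit 8) (.e false (nat_lit 72) (nat_lit 93) (nat_lit 1) (nat_lit 8) (.e true (nat_lit 36) (nat_lit 68) (nat_lit 2) (nat_lit 7) .nil)))))))) (.nd (.nd (.nd .leaf (nat_lit 18447) (nat_lit 347) (.n (nat_lit 157) (nat_lit 21) (.n (nat_lit 158) (nat_lit 15) (.p (nat_lit 159) (nat_lit 87) (.n (nat_lit 160) (nat_lit 9) (.p (nat_lit 161) (nat_lit 57) (.p (nat_lit 162) (nat_lit 72) (.p (nat_lit 163) (nat_lit 42) (.p (nat_lit 164) (nat_lit 15) (.p (nat_lit 165) (nat_lit 168) (.n (nat_lit 166) (nat_lit 111) (.p (nat_lit 167) (nat_lit 12) (.p (nat_lit 168) (nat_lit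 84) (.p (nat_lit 169) (nat_lit 150) (.p (nat_lit 170) (nat_lit 12) (.n (nat_lit 171) (nat_lit 15) (.p (nat_lit 172) (nat_lit 120) (.n (nat_lit 173) (nat_lit 48) (.n (nat_lit 174) (nat_lit 27) (.p (nat_lit 175) (nat_lit 33) (.p (nat_lit 176) (nat_lit 69) (.p (nat_lit 177) (nat_lit 75) (.n (nat_lit 178) (nat_lit 132) (.n (nat_lit 179) (nat_lit 30) .z))))))))))))))))))))))) (.ct dF6as_c291 (nat_lit 36) (nat_lit 0) (.s true (nat_lit 1) (nat_lit 15) (nat_lit 2) (nat_lit 2) (nat_lit 0) true (nat_lit 5) true (nat_lit 10) true (nat_lit 0) true (nat_lit 8) true (nat_lit 8) (.e true (nat_lit 36) (nat_lit 44) (nat_lit 5) (nat_lit 5) (.e true (nat_lit 36) (nat_lit 105) (nat_lit 0) (nat_lit 10) (.e true (nat_lit 36) (nat_lit 76) (nat_lit 2) (nat_lit 8) (.e false (nat_lit 72) (nat_lit 79) (nat_lit 2) (nat_lit 8) (.e false (nat_lit 36) (nat_lit 81) (nat_lit 2) (nat_lit 8) (.e true (nat_lit 36) (nat_lit 82) (nat_lit 2)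 (nat_lit 8) (.e false (nat_lit 72) (nat_lit 86) (nat_lit 2) (nat_lit 8) (.e false (nat_lit 36) (nat_lit 88) (nat_lit 2) (nat_lit 8) .nil)))))))))) .leaf) (nat_lit 18448) (nat_lit 346) (.n (nat_lit 157) (nat_lit 81) (.n (nat_lit 158) (nat_lit 27) (.n (nat_lit 159) (nat_lit 45) (.p (nat_lit 160) (nat_lit 99) (.n (nat_lit 161) (nat_lit 27) (.p (nat_lit 163) (nat_lit 18) (.p (nat_lit 164) (nat_lit 27) (.p (nat_lit 165) (nat_lit 36) (.n (nat_lit 166) (nat_lit 63) (.p (nat_lit 169) (nat_lit 18) (.p (nat_lit 170) (nat_lit 72) (.p (nat_lit 171) (nat_lit 81) (.n (nat_lit 172) (nat_lit 36) (.n (nat_lit 173) (nat_lit 36) (.p (nat_lit 174) (nat_lit 45) (.p (nat_lit 175) (nat_lit 45) (.n (nat_lit 176) (nat_lit 63) (.p (nat_lit 177) (nat_lit 63) (.n (nat_lit 178) (nat_lit 36) (.p (nat_lit 179) (nat_lit 18) .z)))))))))))))))))))) (.ct dF6as_c291 (nat_lit 36) (nat_lit 0) (.s false (nat_lit 1) (nat_lit 18) (nat_lit 1) (nat_lit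 2) (nat_lit 1) true (nat_lit 6) true (nat_lit 9) false (nat_lit 0) true (nat_lit 9) true (nat_lit 8) (.e false (nat_lit 36) (nat_lit 48) (nat_lit 4) (nat_lit 6) (.e false (nat_lit 72) (nat_lit 94) (nat_lit 1) (nat_lit 9) (.e true (nat_lit 72) (nat_lit 95) (nat_lit 1) (nat_lit 9) (.e true (nat_lit 72) (nat_lit 99) (nat_lit 1) (nat_lit 9) (.e true (nat_lit 36) (nat_lit 102) (nat_lit 1) (nat_lit 9) (.e true (nat_lit 36) (nat_lit 103) (nat_lit 1) (nat_lit 9) (.e true (nat_lit 36) (nat_lit 84) (nat_lit 2) (nat_lit 8) .nil))))))))) .leaf) (nat_lit 19456) (nat_lit 47) (.p (nat_lit 43) (nat_lit 36) .z) .df (.nd .leaf (nat_lit 19457) (nat_lit 53) (.p (nat_lit 46) (nat_lit 36) .z) .df .leaf)))) (nat_lit 19458) (nat_lit 60) (.p (nat_lit 50) (nat_lit 36) .z) .df (.nd (.nd (.nd (.nd (.nd .leaf (nat_lit 19459) (nat_lit 118) (.p (nat_lit 75) (nat_lit 36) (.n (nat_lit 77) (nat_lit 36) (.n (nat_lit 78) (nat_lit 36) (.n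 (nat_lit 79) (nat_lit 36) (.n (nat_lit 80) (nat_lit 36) (.p (nat_lit 81) (nat_lit 36) (.n (nat_lit 82) (nat_lit 36) (.p (nat_lit 84) (nat_lit 36) (.n (nat_lit 86) (nat_lit 36) (.p (nat_lit 87) (nat_lit 36) (.p (nat_lit 88) (nat_lit 36) .z))))))))))) (.ct dF6as_c290 (nat_lit 36) (nat_lit 4) (.s true (nat_lit 1) (nat_lit 6) (nat_lit 0) (nat_lit 2) (nat_lit 1) true (nat_lit 4) true (nat_lit 6) true (nat_lit 1) true (nat_lit 7) true (nat_lit 5) (.s false (nat_lit 1) (nat_lit 6) (nat_lit 1) (nat_lit 0) (nat_lit 2) true (nat_lit 1) true (nat_lit 5) true (nat_lit 1) true (nat_lit 6) true (nat_lit 7) (.s true (nat_lit 1) (nat_lit 6) (nat_lit 2) (nat_lit 0) (nat_lit 1) true (nat_lit 1) true (nat_lit 6) true (nat_lit 1) true (nat_lit 5) true (nat_lit 7) (.e true (nat_lit 36) (nat_lit 40) (nat_lit 1) (nat_lit 6) (.e false (nat_lit 36) (nat_lit 29) (nat_lit 2) (nat_lit 5) (.e true (nat_lit 36) (nat_lit 32) (nat_lit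 2) (nat_lit 5) (.e true (nat_lit 36) (nat_lit 33) (nat_lit 2) (nat_lit 5) (.e true (nat_lit 36) (nat_lit 34) (nat_lit 2) (nat_lit 5) (.e false (nat_lit 36) (nat_lit 12) (nat_lit 6) (nat_lit 1) (.e true (nat_lit 36) (nat_lit 38) (nat_lit 1) (nat_lit 6) (.e false (nat_lit 36) (nat_lit 39) (nat_lit 1) (nat_lit 6) (.e false (nat_lit 36) (nat_lit 42) (nat_lit 1) (nat_lit 6) (.e false (nat_lit 36) (nat_lit 46) (nat_lit 0) (nat_lit 7) (.e true (nat_lit 36) (nat_lit 45) (nat_lit 0) (nat_lit 7) .nil))))))))))))))) .leaf) (nat_lit 19461) (nat_lit 153) (.p (nat_lit 95) (nat_lit 36) (.n (nat_lit 97) (nat_lit 36) (.n (nat_lit 100) (nat_lit 36) (.n (nat_lit 101) (nat_lit 36) (.p (nat_lit 104) (nat_lit 36) .z))))) (.ct dF6as_c275 (nat_lit 36) (nat_lit 2) (.s false (nat_lit 1) (nat_lit 5) (nat_lit 1) (nat_lit 2) (nat_lit 2) true (nat_lit 1) true (nat_lit 4) true (nat_lit 2) true (nat_lit 5) true (nat_lit 4) (.e false (nat_lit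 36) (nat_lit 17) (nat_lit 6) (nat_lit 1) (.e false (nat_lit 36) (nat_lit 39) (nat_lit 2) (nat_lit 4) (.e true (nat_lit 36) (nat_lit 48) (nat_lit 1) (nat_lit 5) (.e true (nat_lit 36) (nat_lit 49) (nat_lit 1) (nat_lit 5) (.e true (nat_lit 36) (nat_lit 41) (nat_lit 2) (nat_lit 4) .nil))))))) .leaf) (nat_lit 19462) (nat_lit 167) (.n (nat_lit 106) (nat_lit 18) (.p (nat_lit 107) (nat_lit 18) (.n (nat_lit 108) (nat_lit 18) (.p (nat_lit 109) (nat_lit 18) .z)))) (.ct dF6as_c35 (nat_lit 72) (nat_lit 1) (.s true (nat_lit 1) (nat_lit 6) (nat_lit 1) (nat_lit 2) (nat_lit 2) true (nat_lit 1) true (nat_lit 3) true (nat_lit 1) true (nat_lit 4) true (nat_lit 3) (.e true (nat_lit 36) (nat_lit 45) (nat_lit 2) (nat_lit 3) (.e true (nat_lit 36) (nat_lit 51) (nat_lit 1) (nat_lit 4) (.e false (nat_lit 36) (nat_lit 52) (nat_lit 1) (nat_lit 4) (.e false (nat_lit 36) (nat_lit 46) (nat_lit 2) (nat_lit 3) .nil)))))) (.nd (.nd .leaf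 (nat_lit 19464) (nat_lit 227) (.p (nat_lit 111) (nat_lit 64) (.n (nat_lit 112) (nat_lit 4) (.n (nat_lit 113) (nat_lit 4) (.p (nat_lit 114) (nat_lit 44) (.p (nat_lit 115) (nat_lit 44) (.p (nat_lit 116) (nat_lit 68) (.n (nat_lit 117) (nat_lit 124) (.n (nat_lit 118) (nat_lit 52) (.p (nat_lit 119) (nat_lit 60) (.p (nat_lit 120) (nat_lit 12) (.p (nat_lit 121) (nat_lit 28) (.p (nat_lit 122) (nat_lit 160) (.n (nat_lit 123) (nat_lit 40) (.n (nat_lit 124) (nat_lit 68) (.n (nat_lit 125) (nat_lit 40) (.p (nat_lit 126) (nat_lit 8) (.p (nat_lit 127) (nat_lit 20) (.p (nat_lit 128) (nat_lit 16) (.p (nat_lit 129) (nat_lit 52) (.n (nat_lit 130) (nat_lit 76) (.p (nat_lit 131) (nat_lit 120) (.n (nat_lit 132) (nat_lit 100) (.p (nat_lit 133) (nat_lit 40) (.n (nat_lit 134) (nat_lit 80) (.n (nat_lit 135) (nat_lit 88) (.p (nat_lit 136) (nat_lit 8) .z)))))))))))))))))))))))))) (.ct dF6as_c546 (nat_lit 36) (nat_lit 3) (.s true (nat_lit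 1) (nat_lit 6) (nat_lit 0) (nat_lit 2) (nat_lit 3) true (nat_lit 3) true (nat_lit 8) true (nat_lit 5) true (nat_lit 11) true (nat_lit 9) (.e true (nat_lit 36) (nat_lit 40) (nat_lit 3) (nat_lit 8) (.e true (nat_lit 36) (nat_lit 26) (nat_lit 6) (nat_lit 5) (.e true (nat_lit 36) (nat_lit 27) (nat_lit 6) (nat_lit 5) (.e false (nat_lit 36) (nat_lit 28) (nat_lit 6) (nat_lit 5) (.e true (nat_lit 36) (nat_lit 88) (nat_lit 0) (nat_lit 11) (.e true (nat_lit 36) (nat_lit 58) (nat_lit 2) (nat_lit 9) (.e false (nat_lit 36) (nat_lit 61) (nat_lit 2) (nat_lit 9) (.e false (nat_lit 36) (nat_lit 62) (nat_lit 2) (nat_lit 9) (.e false (nat_lit 36) (nat_lit 63) (nat_lit 2) (nat_lit 9) .nil))))))))))) .leaf) (nat_lit 19467) (nat_lit 278) (.p (nat_lit 139) (nat_lit 36) (.n (nat_lit 142) (nat_lit 36) (.n (nat_lit 143) (nat_lit 36) (.p (nat_lit 146) (nat_lit 36) (.n (nat_lit 147) (nat_lit 90) (.p (nat_lit 149) (nat_lit 36) (.p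 (nat_lit 150) (nat_lit 54) (.p (nat_lit 151) (nat_lit 90) (.p (nat_lit 152) (nat_lit 126) (.n (nat_lit 153) (nat_lit 18) (.p (nat_lit 154) (nat_lit 72) (.n (nat_lit 155) (nat_lit 54) (.n (nat_lit 156) (nat_lit 36) .z))))))))))))) (.ct dF6as_c531 (nat_lit 36) (nat_lit 1) (.s true (nat_lit 1) (nat_lit 19) (nat_lit 0) (nat_lit 2) (nat_lit 0) false (nat_lit 10) true (nat_lit 9) false (nat_lit 1) true (nat_lit 9) true (nat_lit 7) (.e true (nat_lit 36) (nat_lit 99) (nat_lit 0) (nat_lit 9) (.e false (nat_lit 36) (nat_lit 95) (nat_lit 0) (nat_lit 9) (.e true (nat_lit 36) (nat_lit 97) (nat_lit 0) (nat_lit 9) (.e true (nat_lit 36) (nat_lit 100) (nat_lit 0) (nat_lit 9) (.e true (nat_lit 36) (nat_lit 101) (nat_lit 0) (nat_lit 9) (.e false (nat_lit 36) (nat_lit 104) (nat_lit 0) (nat_lit 9) (.e false (nat_lit 36) (nat_lit 74) (nat_lit 2) (nat_lit 7) .nil))))))))) .leaf)) (nat_lit 19468) (nat_lit 349) (.p (nat_lit 157)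 (nat_lit 90) (.p (nat_lit 158) (nat_lit 54) (.p (nat_lit 159) (nat_lit 18) (.n (nat_lit 160) (nat_lit 90) (.n (nat_lit 161) (nat_lit 18) (.n (nat_lit 163) (nat_lit 36) (.n (nat_lit 164) (nat_lit 90) (.n (nat_lit 165) (nat_lit 108) (.p (nat_lit 166) (nat_lit 90) (.n (nat_lit 168) (nat_lit 36) (.n (nat_lit 169) (nat_lit 108) (.n (nat_lit 170) (nat_lit 72) (.n (nat_lit 171) (nat_lit 90) (.n (nat_lit 172) (nat_lit 36) (.p (nat_lit 173) (nat_lit 108) (.n (nat_lit 174) (nat_lit 18) (.n (nat_lit 175) (nat_lit 54) (.p (nat_lit 176) (nat_lit 54) (.n (nat_lit 177) (nat_lit 126) (.p (nat_lit 178) (nat_lit 144) (.n (nat_lit 179) (nat_lit 36) .z))))))))))))))))))))) (.ct dF6as_c291 (nat_lit 36) (nat_lit 1) (.s true (nat_lit 1) (nat_lit 12) (nat_lit 1) (nat_lit 2) (nat_lit 2) true (nat_lit 4) true (nat_lit 8) true (nat_lit 1) true (nat_lit 9) true (nat_lit 8) (.e true (nat_lit 36) (nat_lit 38) (nat_lit 6) (nat_lit 4)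 (.e true (nat_lit 36) (nat_lit 76) (nat_lit 2) (nat_lit 8) (.e false (nat_lit 36) (nat_lit 103) (nat_lit 1) (nat_lit 9) (.e false (nat_lit 36) (nat_lit 80) (nat_lit 2) (nat_lit 8) .nil)))))) (.nd (.nd (.nd .leaf (nat_lit 19469) (nat_lit 340) (.p (nat_lit 157) (nat_lit 138) (.p (nat_lit 158) (nat_lit 114) (.p (nat_lit 159) (nat_lit 30) (.n (nat_lit 160) (nat_lit 162) (.n (nat_lit 161) (nat_lit 66) (.n (nat_lit 162) (nat_lit 36) (.n (nat_lit 163) (nat_lit 96) (.n (nat_lit 164) (nat_lit 114) (.n (nat_lit 165) (nat_lit 168) (.p (nat_lit 166) (nat_lit 138) (.n (nat_lit 167) (nat_lit 12) (.n (nat_lit 168) (nat_lit 84) (.n (nat_lit 169) (nat_lit 240) (.n (nat_lit 170) (nat_lit 120) (.n (nat_lit 171) (nat_lit 138) (.n (nat_lit 172) (nat_lit 84) (.p (nat_lit 173) (nat_lit 156) (.n (nat_lit 174) (nat_lit 18) (.n (nat_lit 175) (nat_lit 114) (.p (nat_lit 176) (nat_lit 102) (.n (nat_lit 177) (nat_lit 174) (.p (nat_lit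 178) (nat_lit 240) (.n (nat_lit 179) (nat_lit 60) .z))))))))))))))))))))))) (.ct dF6as_c291 (nat_lit 36) (nat_lit 1) (.s true (nat_lit 1) (nat_lit 13) (nat_lit 2) (nat_lit 1) (nat_lit 2) true (nat_lit 3) true (nat_lit 8) true (nat_lit 1) true (nat_lit 8) true (nat_lit 9) (.e true (nat_lit 36) (nat_lit 32) (nat_lit 7) (nat_lit 3) (.e true (nat_lit 36) (nat_lit 81) (nat_lit 2) (nat_lit 8) (.e false (nat_lit 36) (nat_lit 78) (nat_lit 2) (nat_lit 8) (.e false (nat_lit 36) (nat_lit 82) (nat_lit 2) (nat_lit 8) (.e true (nat_lit 36) (nat_lit 86) (nat_lit 2) (nat_lit 8) (.e true (nat_lit 36) (nat_lit 87) (nat_lit 2) (nat_lit 8) (.e true (nat_lit 36) (nat_lit 88) (nat_lit 2) (nat_lit 8) (.e false (nat_lit 36) (nat_lit 95) (nat_lit 1) (nat_lit 9) .nil)))))))))) .leaf) (nat_lit 19470) (nat_lit 342) (.n (nat_lit 157) (nat_lit 81) (.n (nat_lit 158) (nat_lit 63) (.n (nat_lit 159) (nat_lit 9) (.p (nat_lit 160) (nat_lit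 63) (.p (nat_lit 161) (nat_lit 9) (.p (nat_lit 162) (nat_lit 36) (.p (nat_lit 163) (nat_lit 54) (.p (nat_lit 164) (nat_lit 27) (.p (nat_lit 165) (nat_lit 72) (.n (nat_lit 166) (nat_lit 27) (.p (nat_lit 168) (nat_lit 36) (.p (nat_lit 169) (nat_lit 90) (.p (nat_lit 170) (nat_lit 36) (.p (nat_lit 171) (nat_lit 45) (.p (nat_lit 172) (nat_lit 36) (.n (nat_lit 173) (nat_lit 36) (.p (nat_lit 174) (nat_lit 9) (.p (nat_lit 175) (nat_lit 45) (.n (nat_lit 176) (nat_lit 27) (.p (nat_lit 177) (nat_lit 63) (.n (nat_lit 178) (nat_lit 72) (.p (nat_lit 179) (nat_lit 18) .z)))))))))))))))))))))) (.ct dF6as_c291 (nat_lit 36) (nat_lit 1) (.s true (nat_lit 1) (nat_lit 6) (nat_lit 0) (nat_lit 2) (nat_lit 6) true (nat_lit 1) true (nat_lit 4) true (nat_lit 4) true (nat_lit 10) true (nat_lit 8) (.e true (nat_lit 36) (nat_lit 40) (nat_lit 6) (nat_lit 4) (.e true (nat_lit 36) (nat_lit 38) (nat_lit 6) (nat_lit 4) (.e false (nat_lit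 36) (nat_lit 39) (nat_lit 6) (nat_lit 4) (.e false (nat_lit 36) (nat_lit 42) (nat_lit 6) (nat_lit 4) (.e false (nat_lit 36) (nat_lit 43) (nat_lit 6) (nat_lit 4) (.e true (nat_lit 18) (nat_lit 106) (nat_lit 0) (nat_lit 10) (.e false (nat_lit 18) (nat_lit 107) (nat_lit 0) (nat_lit 10) (.e true (nat_lit 18) (nat_lit 108) (nat_lit 0) (nat_lit 10) (.e false (nat_lit 18) (nat_lit 109) (nat_lit 0) (nat_lit 10) .nil))))))))))) .leaf) (nat_lit 20480) (nat_lit 49) (.n (nat_lit 38) (nat_lit 72) (.p (nat_lit 39) (nat_lit 36) (.n (nat_lit 40) (nat_lit 36) (.p (nat_lit 41) (nat_lit 36) (.p (nat_lit 42) (nat_lit 36) (.p (nat_lit 43) (nat_lit 36) .z)))))) (.ct dF6as_c274 (nat_lit 36) (nat_lit 4) (.s true (nat_lit 1) (nat_lit 2) (nat_lit 1) (nat_lit 0) (nat_lit 2) false (nat_lit 0) true (nat_lit 2) true (nat_lit 2) true (nat_lit 3) true (nat_lit 4) (.e true (nat_lit 36) (nat_lit 6) (nat_lit 5) (nat_lit 0) (.e true (nat_lit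 36) (nat_lit 14) (nat_lit 2) (nat_lit 2) (.e true (nat_lit 36) (nat_lit 12) (nat_lit 2) (nat_lit 2) (.e false (nat_lit 36) (nat_lit 17) (nat_lit 1) (nat_lit 3) .nil)))))) (.nd .leaf (nat_lit 20481) (nat_lit 54) (.n (nat_lit 44) (nat_lit 36) (.p (nat_lit 45) (nat_lit 36) (.p (nat_lit 46) (nat_lit 36) .z))) (.ct dF6as_c34 (nat_lit 36) (nat_lit 3) (.s false (nat_lit 1) (nat_lit 2) (nat_lit 1) (nat_lit 1) (nat_lit 2) true (nat_lit 0) true (nat_lit 2) true (nat_lit 2) true (nat_lit 3) true (nat_lit 3) (.a false (nat_lit 648) (nat_lit 6) (nat_lit 6) (nat_lit 0) (nat_lit 0) (.e false (nat_lit 36) (nat_lit 16) (nat_lit 2) (nat_lit 2) (.e true (nat_lit 36) (nat_lit 15) (nat_lit 2) (nat_lit 2) (.e false (nat_lit 36) (nat_lit 19) (nat_lit 1) (nat_lit 3) .nil)))))) .leaf))) (nat_lit 20482) (nat_lit 61) (.p (nat_lit 51) (nat_lit 36) .z) .df (.nd (.nd (.nd (.nd .leaf (nat_lit 20483) (nat_lit 126) (.n (nat_lit 77) (nat_lit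 36) (.n (nat_lit 78) (nat_lit 36) (.n (nat_lit 79) (nat_lit 36) (.p (nat_lit 80) (nat_lit 36) (.p (nat_lit 88) (nat_lit 36) .z))))) (.ct dF6as_c290 (nat_lit 36) (nat_lit 4) (.s false (nat_lit 1) (nat_lit 3) (nat_lit 2) (nat_lit 2) (nat_lit 1) true (nat_lit 1) true (nat_lit 6) true (nat_lit 4) true (nat_lit 5) true (nat_lit 5) (.e false (nat_lit 36) (nat_lit 12) (nat_lit 6) (nat_lit 1) (.e false (nat_lit 36) (nat_lit 38) (nat_lit 1) (nat_lit 6) (.e true (nat_lit 36) (nat_lit 32) (nat_lit 2) (nat_lit 5) (.e true (nat_lit 36) (nat_lit 33) (nat_lit 2) (nat_lit 5) (.e true (nat_lit 36) (nat_lit 34) (nat_lit 2) (nat_lit 5) .nil))))))) .leaf) (nat_lit 20485) (nat_lit 155) (.n (nat_lit 95) (nat_lit 36) (.n (nat_lit 96) (nat_lit 36) (.p (nat_lit 97) (nat_lit 36) (.n (nat_lit 98) (nat_lit 36) (.n (nat_lit 99) (nat_lit 36) (.p (nat_lit 100) (nat_lit 36) (.p (nat_lit 103) (nat_lit 36) .z))))))) (.ct dF6as_c275 (nat_lit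 36) (nat_lit 2) (.s true (nat_lit 1) (nat_lit 7) (nat_lit 0) (nat_lit 1) (nat_lit 2) true (nat_lit 2) true (nat_lit 4) true (nat_lit 0) true (nat_lit 6) true (nat_lit 5) (.e true (nat_lit 36) (nat_lit 42) (nat_lit 2) (nat_lit 4) (.e false (nat_lit 36) (nat_lit 12) (nat_lit 7) (nat_lit 0) (.e false (nat_lit 36) (nat_lit 51) (nat_lit 0) (nat_lit 6) (.e true (nat_lit 36) (nat_lit 52) (nat_lit 0) (nat_lit 6) (.e true (nat_lit 36) (nat_lit 49) (nat_lit 1) (nat_lit 5) .nil))))))) .leaf) (nat_lit 20486) (nat_lit 165) (.p (nat_lit 106) (nat_lit 72) (.n (nat_lit 107) (nat_lit 72) (.p (nat_lit 108) (nat_lit 36) (.n (nat_lit 109) (nat_lit 36) (.n (nat_lit 110) (nat_lit 36) .z))))) (.ct dF6as_c35 (nat_lit 36) (nat_lit 1) (.s true (nat_lit 1) (nat_lit 7) (nat_lit 2) (nat_lit 1) (nat_lit 1) true (nat_lit 1) true (nat_lit 4) true (nat_lit 0) true (nat_lit 3) true (nat_lit 4) (.e true (nat_lit 36) (nat_lit 52) (nat_lit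 1) (nat_lit 4) (.e true (nat_lit 36) (nat_lit 16) (nat_lit 7) (nat_lit 0) (.e false (nat_lit 72) (nat_lit 45) (nat_lit 2) (nat_lit 3) (.e true (nat_lit 72) (nat_lit 46) (nat_lit 2) (nat_lit 3) (.e false (nat_lit 36) (nat_lit 51) (nat_lit 1) (nat_lit 4) .nil))))))) (.nd (.nd .leaf (nat_lit 20488) (nat_lit 224) (.n (nat_lit 111) (nat_lit 176) (.p (nat_lit 112) (nat_lit 56) (.p (nat_lit 113) (nat_lit 56) (.n (nat_lit 114) (nat_lit 112) (.n (nat_lit 115) (nat_lit 112) (.n (nat_lit 116) (nat_lit 160) (.p (nat_lit 117) (nat_lit 296) (.p (nat_lit 118) (nat_lit 116) (.n (nat_lit 119) (nat_lit 120) (.n (nat_lit 120) (nat_lit 24) (.n (nat_lit 121) (nat_lit 32) (.n (nat_lit 122) (nat_lit 404) (.p (nat_lit 123) (nat_lit 92) (.p (nat_lit 124) (nat_lit 124) (.p (nat_lit 125) (nat_lit 92) (.p (nat_lit 126) (nat_lit 32) (.n (nat_lit 127) (nat_lit 64) (.n (nat_lit 128) (nat_lit 80) (.n (nat_lit 129) (nat_lit 116) (.p (nat_lit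 130) (nat_lit 164) (.n (nat_lit 131) (nat_lit 276) (.p (nat_lit 132) (nat_lit 212) (.n (nat_lit 133) (nat_lit 56) (.p (nat_lit 134) (nat_lit 184) (.p (nat_lit 135) (nat_lit 224) (.n (nat_lit 136) (nat_lit 40) .z)))))))))))))))))))))))))) (.ct dF6as_c546 (nat_lit 36) (nat_lit 3) (.s false (nat_lit 1) (nat_lit 20) (nat_lit 1) (nat_lit 0) (nat_lit 0) true (nat_lit 8) true (nat_lit 11) false (nat_lit 3) true (nat_lit 10) true (nat_lit 11) (.e false (nat_lit 72) (nat_lit 38) (nat_lit 3) (nat_lit 8) (.e true (nat_lit 36) (nat_lit 39) (nat_lit 3) (nat_lit 8) (.e false (nat_lit 36) (nat_lit 40) (nat_lit 3) (nat_lit 8) (.e true (nat_lit 36) (nat_lit 41) (nat_lit 3) (nat_lit 8) (.e true (nat_lit 36) (nat_lit 42) (nat_lit 3) (nat_lit 8) (.e true (nat_lit 36) (nat_lit 43) (nat_lit 3) (nat_lit 8) (.e true (nat_lit 36) (nat_lit 85) (nat_lit 0) (nat_lit 11) (.e false (nat_lit 72) (nat_lit 87) (nat_lit 0) (nat_lit 11)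 (.e false (nat_lit 36) (nat_lit 80) (nat_lit 0) (nat_lit 11) (.e true (nat_lit 36) (nat_lit 81) (nat_lit 0) (nat_lit 11) (.e false (nat_lit 36) (nat_lit 82) (nat_lit 0) (nat_lit 11) (.e false (nat_lit 36) (nat_lit 76) (nat_lit 0) (nat_lit 11) (.e true (nat_lit 36) (nat_lit 77) (nat_lit 0) (nat_lit 11) (.e true (nat_lit 36) (nat_lit 78) (nat_lit 0) (nat_lit 11) (.e true (nat_lit 36) (nat_lit 79) (nat_lit 0) (nat_lit 11) .nil))))))))))))))))) .leaf) (nat_lit 20491) (nat_lit 279) (.n (nat_lit 139) (nat_lit 36) (.p (nat_lit 140) (nat_lit 36) (.n (nat_lit 141) (nat_lit 36) (.p (nat_lit 146) (nat_lit 36) (.p (nat_lit 147) (nat_lit 36) (.n (nat_lit 148) (nat_lit 72) (.p (nat_lit 150) (nat_lit 36) (.n (nat_lit 151) (nat_lit 36) (.n (nat_lit 152) (nat_lit 36) (.p (nat_lit 153) (nat_lit 36) (.p (nat_lit 154) (nat_lit 36) (.p (nat_lit 155) (nat_lit 36) (.n (nat_lit 156) (nat_lit 36) .z))))))))))))) (.ct dF6as_c531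 (nat_lit 36) (nat_lit 1) (.s true (nat_lit 1) (nat_lit 7) (nat_lit 5) (nat_lit 1) (nat_lit 0) true (nat_lit 1) true (nat_lit 9) true (nat_lit 3) true (nat_lit 5) true (nat_lit 8) (.e false (nat_lit 36) (nat_lit 100) (nat_lit 0) (nat_lit 9) (.e false (nat_lit 36) (nat_lit 101) (nat_lit 0) (nat_lit 9) (.e false (nat_lit 36) (nat_lit 25) (nat_lit 7) (nat_lit 3) (.e true (nat_lit 36) (nat_lit 26) (nat_lit 7) (nat_lit 3) (.e true (nat_lit 36) (nat_lit 27) (nat_lit 7) (nat_lit 3) (.e true (nat_lit 36) (nat_lit 39) (nat_lit 5) (nat_lit 5) (.e false (nat_lit 36) (nat_lit 40) (nat_lit 5) (nat_lit 5) (.e false (nat_lit 36) (nat_lit 41) (nat_lit 5) (nat_lit 5) (.e false (nat_lit 36) (nat_lit 43) (nat_lit 5) (nat_lit 5) (.e true (nat_lit 36) (nat_lit 90) (nat_lit 1) (nat_lit 8) (.e false (nat_lit 36) (nat_lit 92) (nat_lit 1) (nat_lit 8) (.e false (nat_lit 72) (nat_lit 93) (nat_lit 1) (nat_lit 8) .nil))))))))))))))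 .leaf)) (nat_lit 20492) (nat_lit 351) (.p (nat_lit 160) (nat_lit 36) (.n (nat_lit 161) (nat_lit 36) (.p (nat_lit 164) (nat_lit 72) (.n (nat_lit 165) (nat_lit 36) (.n (nat_lit 168) (nat_lit 36) (.n (nat_lit 169) (nat_lit 72) (.p (nat_lit 170) (nat_lit 36) (.n (nat_lit 176) (nat_lit 72) (.p (nat_lit 177) (nat_lit 36) .z))))))))) (.ct dF6as_c291 (nat_lit 36) (nat_lit 1) (.s true (nat_lit 1) (nat_lit 12) (nat_lit 2) (nat_lit 2) (nat_lit 1) true (nat_lit 4) true (nat_lit 9) true (nat_lit 1) true (nat_lit 8) true (nat_lit 8) (.e true (nat_lit 36) (nat_lit 38) (nat_lit 6) (nat_lit 4) (.e true (nat_lit 36) (nat_lit 94) (nat_lit 1) (nat_lit 9) (.e false (nat_lit 36) (nat_lit 88) (nat_lit 2) (nat_lit 8) (.e false (nat_lit 36) (nat_lit 76) (nat_lit 2) (nat_lit 8) .nil)))))) (.nd (.nd (.nd .leaf (nat_lit 20493) (nat_lit 344) (.p (nat_lit 157) (nat_lit 36) (.p (nat_lit 158) (nat_lit 36) (.p (nat_lit 161) (nat_lit 36)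 (.n (nat_lit 162) (nat_lit 36) (.n (nat_lit 163) (nat_lit 36) (.n (nat_lit 164) (nat_lit 36) (.n (nat_lit 165) (nat_lit 36) (.n (nat_lit 177) (nat_lit 36) .z)))))))) (.ct dF6as_c291 (nat_lit 36) (nat_lit 1) (.s true (nat_lit 1) (nat_lit 13) (nat_lit 2) (nat_lit 2) (nat_lit 1) true (nat_lit 4) true (nat_lit 9) true (nat_lit 1) true (nat_lit 8) true (nat_lit 8) (.e true (nat_lit 36) (nat_lit 39) (nat_lit 6) (nat_lit 4) (.e true (nat_lit 36) (nat_lit 95) (nat_lit 1) (nat_lit 9) (.e false (nat_lit 36) (nat_lit 78) (nat_lit 2) (nat_lit 8) (.e false (nat_lit 36) (nat_lit 82) (nat_lit 2) (nat_lit 8) (.e true (nat_lit 36) (nat_lit 86) (nat_lit 2) (nat_lit 8) (.e true (nat_lit 36) (nat_lit 87) (nat_lit 2) (nat_lit 8) (.e true (nat_lit 36) (nat_lit 88) (nat_lit 2) (nat_lit 8) (.e false (nat_lit 36) (nat_lit 77) (nat_lit 2) (nat_lit 8) .nil)))))))))) .leaf) (nat_lit 20494) (nat_lit 341) (.n (nat_lit 157) (nat_lit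 105) (.n (nat_lit 158) (nat_lit 3) (.n (nat_lit 159) (nat_lit 33) (.p (nat_lit 160) (nat_lit 99) (.p (nat_lit 161) (nat_lit 33) (.n (nat_lit 162) (nat_lit 36) (.p (nat_lit 163) (nat_lit 30) (.p (nat_lit 164) (nat_lit 75) (.p (nat_lit 165) (nat_lit 120) (.n (nat_lit 166) (nat_lit 159) (.n (nat_lit 167) (nat_lit 12) (.p (nat_lit 168) (nat_lit 24) (.p (nat_lit 169) (nat_lit 102) (.p (nat_lit 170) (nat_lit 96) (.p (nat_lit 171) (nat_lit 105) (.p (nat_lit 172) (nat_lit 24) (.n (nat_lit 173) (nat_lit 96) (.p (nat_lit 174) (nat_lit 45) (.p (nat_lit 175) (nat_lit 57) (.n (nat_lit 176) (nat_lit 51) (.p (nat_lit 177) (nat_lit 123) (.n (nat_lit 178) (nat_lit 156) (.p (nat_lit 179) (nat_lit 66) .z))))))))))))))))))))))) (.ct dF6as_c291 (nat_lit 36) (nat_lit 1) (.s true (nat_lit 1) (nat_lit 7) (nat_lit 0) (nat_lit 1) (nat_lit 6) true (nat_lit 1) true (nat_lit 4) true (nat_lit 3) true (nat_lit 10) true (nat_lit 9) (.e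 true (nat_lit 36) (nat_lit 42) (nat_lit 6) (nat_lit 4) (.e true (nat_lit 36) (nat_lit 29) (nat_lit 7) (nat_lit 3) (.e false (nat_lit 36) (nat_lit 32) (nat_lit 7) (nat_lit 3) (.e false (nat_lit 36) (nat_lit 33) (nat_lit 7) (nat_lit 3) (.e false (nat_lit 36) (nat_lit 34) (nat_lit 7) (nat_lit 3) (.e false (nat_lit 36) (nat_lit 110) (nat_lit 0) (nat_lit 10) (.e true (nat_lit 36) (nat_lit 95) (nat_lit 1) (nat_lit 9) (.e true (nat_lit 36) (nat_lit 96) (nat_lit 1) (nat_lit 9) (.e false (nat_lit 36) (nat_lit 97) (nat_lit 1) (nat_lit 9) (.e true (nat_lit 36) (nat_lit 99) (nat_lit 1) (nat_lit 9) (.e false (nat_lit 36) (nat_lit 100) (nat_lit 1) (nat_lit 9) (.e false (nat_lit 36) (nat_lit 101) (nat_lit 1) (nat_lit 9) .nil)))))))))))))) .leaf) (nat_lit 21504) (nat_lit 58) (.p (nat_lit 49) (nat_lit 36) .z) .df (.nd .leaf (nat_lit 21505) (nat_lit 62) (.p (nat_lit 52) (nat_lit 36) .z) .df .leaf))))) (nat_lit 21507) (nat_lit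 156) (.p (nat_lit 95) (nat_lit 36) (.n (nat_lit 96) (nat_lit 36) (.n (nat_lit 97) (nat_lit 36) (.n (nat_lit 99) (nat_lit 36) (.p (nat_lit 103) (nat_lit 36) .z))))) (.ct dF6as_c275 (nat_lit 36) (nat_lit 3) (.s false (nat_lit 1) (nat_lit 3) (nat_lit 2) (nat_lit 2) (nat_lit 2) true (nat_lit 0) true (nat_lit 4) true (nat_lit 3) true (nat_lit 4) true (nat_lit 4) (.e false (nat_lit 36) (nat_lit 12) (nat_lit 7) (nat_lit 0) (.e false (nat_lit 36) (nat_lit 39) (nat_lit 2) (nat_lit 4) (.e true (nat_lit 36) (nat_lit 40) (nat_lit 2) (nat_lit 4) (.e true (nat_lit 36) (nat_lit 41) (nat_lit 2) (nat_lit 4) (.e true (nat_lit 36) (nat_lit 43) (nat_lit 2) (nat_lit 4) .nil))))))) (.nd (.nd (.nd (.nd (.nd (.nd .leaf (nat_lit 21508) (nat_lit 169) (.n (nat_lit 105) (nat_lit 36) (.p (nat_lit 106) (nat_lit 36) (.p (nat_lit 107) (nat_lit 36) (.n (nat_lit 109) (nat_lit 36) (.n (nat_lit 110) (nat_lit 36) .z))))) (.ct dF6as_c35 (nat_lit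 36) (nat_lit 2) (.s true (nat_lit 1) (nat_lit 4) (nat_lit 2) (nat_lit 2) (nat_lit 2) true (nat_lit 0) true (nat_lit 3) true (nat_lit 2) true (nat_lit 3) true (nat_lit 3) (.e true (nat_lit 36) (nat_lit 15) (nat_lit 7) (nat_lit 0) (.e true (nat_lit 72) (nat_lit 45) (nat_lit 2) (nat_lit 3) (.e false (nat_lit 72) (nat_lit 46) (nat_lit 2) (nat_lit 3) .nil))))) .leaf) (nat_lit 21512) (nat_lit 283) (.p (nat_lit 146) (nat_lit 36) (.p (nat_lit 148) (nat_lit 36) (.n (nat_lit 149) (nat_lit 36) (.n (nat_lit 150) (nat_lit 36) (.n (nat_lit 152) (nat_lit 36) (.n (nat_lit 154) (nat_lit 36) (.p (nat_lit 155) (nat_lit 36) .z))))))) (.ct dF6as_c531 (nat_lit 36) (nat_lit 2) (.s false (nat_lit 1) (nat_lit 8) (nat_lit 2) (nat_lit 2) (nat_lit 2) true (nat_lit 3) true (nat_lit 7) true (nat_lit 2) true (nat_lit 7) true (nat_lit 7) (.e false (nat_lit 36) (nat_lit 25) (nat_lit 7) (nat_lit 3) (.e false (nat_lit 36) (nat_lit 68) (nat_lit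 2) (nat_lit 7) (.e false (nat_lit 36) (nat_lit 70) (nat_lit 2) (nat_lit 7) (.e true (nat_lit 36) (nat_lit 71) (nat_lit 2) (nat_lit 7) (.e true (nat_lit 36) (nat_lit 72) (nat_lit 2) (nat_lit 7) (.e true (nat_lit 36) (nat_lit 73) (nat_lit 2) (nat_lit 7) (.e true (nat_lit 36) (nat_lit 74) (nat_lit 2) (nat_lit 7) .nil))))))))) .leaf) (nat_lit 21513) (nat_lit 345) (.n (nat_lit 157) (nat_lit 60) (.n (nat_lit 158) (nat_lit 12) (.n (nat_lit 159) (nat_lit 24) (.p (nat_lit 160) (nat_lit 72) (.n (nat_lit 161) (nat_lit 12) (.n (nat_lit 162) (nat_lit 36) (.p (nat_lit 163) (nat_lit 12) (.p (nat_lit 164) (nat_lit 12) (.p (nat_lit 165) (nat_lit 12) (.n (nat_lit 166) (nat_lit 24) (.p (nat_lit 167) (nat_lit 24) (.n (nat_lit 168) (nat_lit 12) (.p (nat_lit 169) (nat_lit 48) (.p (nat_lit 170) (nat_lit 24) (.p (nat_lit 171) (nat_lit 24) (.p (nat_lit 172) (nat_lit 24) (.n (nat_lit 173) (nat_lit 24) (.p (nat_lit 175) (nat_lit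 12) (.n (nat_lit 176) (nat_lit 24) (.p (nat_lit 177) (nat_lit 60) (.n (nat_lit 178) (nat_lit 48) (.p (nat_lit 179) (nat_lit 48) .z)))))))))))))))))))))) (.ct dF6as_c291 (nat_lit 36) (nat_lit 2) (.s true (nat_lit 1) (nat_lit 9) (nat_lit 2) (nat_lit 2) (nat_lit 2) true (nat_lit 3) true (nat_lit 8) true (nat_lit 2) true (nat_lit 8) true (nat_lit 8) (.e true (nat_lit 36) (nat_lit 29) (nat_lit 7) (nat_lit 3) (.e true (nat_lit 36) (nat_lit 76) (nat_lit 2) (nat_lit 8) (.e false (nat_lit 36) (nat_lit 81) (nat_lit 2) (nat_lit 8) (.e true (nat_lit 36) (nat_lit 82) (nat_lit 2) (nat_lit 8) (.e false (nat_lit 36) (nat_lit 84) (nat_lit 2) (nat_lit 8) (.e true (nat_lit 36) (nat_lit 86) (nat_lit 2) (nat_lit 8) (.e false (nat_lit 36) (nat_lit 87) (nat_lit 2) (nat_lit 8) (.e false (nat_lit 36) (nat_lit 88) (nat_lit 2) (nat_lit 8) .nil)))))))))) (.nd (.nd .leaf (nat_lit 21514) (nat_lit 348) (.p (nat_lit 157) (nat_lit 243)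 (.p (nat_lit 158) (nat_lit 153) (.p (nat_lit 159) (nat_lit 63) (.n (nat_lit 160) (nat_lit 297) (.n (nat_lit 161) (nat_lit 135) (.n (nat_lit 163) (nat_lit 126) (.n (nat_lit 164) (nat_lit 153) (.n (nat_lit 165) (nat_lit 288) (.p (nat_lit 166) (nat_lit 153) (.n (nat_lit 167) (nat_lit 36) (.n (nat_lit 168) (nat_lit 108) (.n (nat_lit 169) (nat_lit 378) (.n (nat_lit 170) (nat_lit 180) (.n (nat_lit 171) (nat_lit 207) (.n (nat_lit 172) (nat_lit 144) (.p (nat_lit 173) (nat_lit 216) (.n (nat_lit 174) (nat_lit 27) (.n (nat_lit 175) (nat_lit 135) (.p (nat_lit 176) (nat_lit 189) (.n (nat_lit 177) (nat_lit 261) (.p (nat_lit 178) (nat_lit 396) (.n (nat_lit 179) (nat_lit 126) .z)))))))))))))))))))))) (.ct dF6as_c291 (nat_lit 36) (nat_lit 2) (.s false (nat_lit 1) (nat_lit 21) (nat_lit 1) (nat_lit 1) (nat_lit 0) true (nat_lit 7) true (nat_lit 10) false (nat_lit 2) true (nat_lit 9) true (nat_lit 9) (.e false (nat_lit 36)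 (nat_lit 52) (nat_lit 3) (nat_lit 7) (.e false (nat_lit 36) (nat_lit 109) (nat_lit 0) (nat_lit 10) (.e false (nat_lit 36) (nat_lit 95) (nat_lit 1) (nat_lit 9) (.e true (nat_lit 36) (nat_lit 96) (nat_lit 1) (nat_lit 9) (.e true (nat_lit 36) (nat_lit 97) (nat_lit 1) (nat_lit 9) (.e true (nat_lit 36) (nat_lit 99) (nat_lit 1) (nat_lit 9) (.e false (nat_lit 36) (nat_lit 103) (nat_lit 1) (nat_lit 9) (.e true (nat_lit 36) (nat_lit 101) (nat_lit 1) (nat_lit 9) .nil)))))))))) .leaf) (nat_lit 22530) (nat_lit 64) (.p (nat_lit 53) (nat_lit 36) .z) .df .leaf)) (nat_lit 23554) (nat_lit 77) (.n (nat_lit 53) (nat_lit 36) (.n (nat_lit 55) (nat_lit 72) (.n (nat_lit 56) (nat_lit 72) (.n (nat_lit 58) (nat_lit 72) (.n (nat_lit 59) (nat_lit 36) (.n (nat_lit 60) (nat_lit 72) (.p (nat_lit 61) (nat_lit 144) (.p (nat_lit 62) (nat_lit 144) (.p (nat_lit 63) (nat_lit 108) .z))))))))) (.ct dF6as_c545 (nat_lit 36) (nat_lit 4) (.s true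 (nat_lit 1) (nat_lit 3) (nat_lit 1) (nat_lit 0) (nat_lit 2) true (nat_lit 0) true (nat_lit 4) true (nat_lit 3) true (nat_lit 5) true (nat_lit 6) (.s false (nat_lit 1) (nat_lit 6) (nat_lit 0) (nat_lit 1) (nat_lit 0) false (nat_lit 7) true (nat_lit 6) true (nat_lit 0) true (nat_lit 6) true (nat_lit 5) (.e true (nat_lit 36) (nat_lit 12) (nat_lit 3) (nat_lit 3) (.e true (nat_lit 36) (nat_lit 26) (nat_lit 1) (nat_lit 5) (.e true (nat_lit 36) (nat_lit 27) (nat_lit 1) (nat_lit 5) (.e true (nat_lit 36) (nat_lit 31) (nat_lit 0) (nat_lit 6) (.e false (nat_lit 72) (nat_lit 33) (nat_lit 0) (nat_lit 6) (.e true (nat_lit 36) (nat_lit 29) (nat_lit 0) (nat_lit 6) (.e false (nat_lit 36) (nat_lit 32) (nat_lit 0) (nat_lit 6) (.e false (nat_lit 36) (nat_lit 34) (nat_lit 0) (nat_lit 6) .nil))))))))))) (.nd (.nd (.nd .leaf (nat_lit 23559) (nat_lit 226) (.p (nat_lit 111) (nat_lit 132) (.n (nat_lit 112) (nat_lit 60) (.n (nat_lit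 113) (nat_lit 60) (.p (nat_lit 114) (nat_lit 120) (.p (nat_lit 115) (nat_lit 120) (.p (nat_lit 116) (nat_lit 120) (.n (nat_lit 117) (nat_lit 204) (.n (nat_lit 118) (nat_lit 96) (.p (nat_lit 119) (nat_lit 144) (.p (nat_lit 120) (nat_lit 108) (.p (nat_lit 121) (nat_lit 24) (.p (nat_lit 122) (nat_lit 276) (.n (nat_lit 123) (nat_lit 60) (.n (nat_lit 124) (nat_lit 120) (.n (nat_lit 125) (nat_lit 96) (.n (nat_lit 126) (nat_lit 96) (.p (nat_lit 127) (nat_lit 12) (.p (nat_lit 128) (nat_lit 96) (.p (nat_lit 129) (nat_lit 132) (.n (nat_lit 130) (nat_lit 60) (.p (nat_lit 131) (nat_lit 144) (.n (nat_lit 132) (nat_lit 132) (.n (nat_lit 133) (nat_lit 12) (.n (nat_lit 134) (nat_lit 48) (.n (nat_lit 135) (nat_lit 168) (.p (nat_lit 136) (nat_lit 48) .z)))))))))))))))))))))))))) (.ct dF6as_c546 (nat_lit 36) (nat_lit 4) (.s false (nat_lit 1) (nat_lit 9) (nat_lit 2) (nat_lit 0) (nat_lit 2) true (nat_lit 4) true (nat_lit 9)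 true (nat_lit 2) true (nat_lit 9) true (nat_lit 11) (.e false (nat_lit 36) (nat_lit 58) (nat_lit 2) (nat_lit 9) (.e false (nat_lit 36) (nat_lit 17) (nat_lit 9) (nat_lit 2) (.e true (nat_lit 36) (nat_lit 55) (nat_lit 2) (nat_lit 9) (.e true (nat_lit 36) (nat_lit 59) (nat_lit 2) (nat_lit 9) (.e true (nat_lit 36) (nat_lit 60) (nat_lit 2) (nat_lit 9) (.e false (nat_lit 72) (nat_lit 61) (nat_lit 2) (nat_lit 9) (.e false (nat_lit 36) (nat_lit 62) (nat_lit 2) (nat_lit 9) (.e false (nat_lit 36) (nat_lit 63) (nat_lit 2) (nat_lit 9) (.e false (nat_lit 36) (nat_lit 75) (nat_lit 0) (nat_lit 11) .nil))))))))))) .leaf) (nat_lit 24578) (nat_lit 79) (.p (nat_lit 54) (nat_lit 36) (.n (nat_lit 55) (nat_lit 108) (.n (nat_lit 56) (nat_lit 72) (.p (nat_lit 57) (nat_lit 36) (.n (nat_lit 59) (nat_lit 36) (.n (nat_lit 60) (nat_lit 108) (.p (nat_lit 61) (nat_lit 108) (.p (nat_lit 62) (nat_lit 108) (.p (nat_lit 63) (nat_lit 72)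 .z))))))))) (.ct dF6as_c545 (nat_lit 36) (nat_lit 4) (.s true (nat_lit 1) (nat_lit 4) (nat_lit 0) (nat_lit 0) (nat_lit 2) true (nat_lit 1) true (nat_lit 4) true (nat_lit 2) true (nat_lit 6) true (nat_lit 6) (.e true (nat_lit 36) (nat_lit 10) (nat_lit 5) (nat_lit 1) (.e true (nat_lit 36) (nat_lit 30) (nat_lit 0) (nat_lit 6) (.e true (nat_lit 72) (nat_lit 31) (nat_lit 0) (nat_lit 6) (.e false (nat_lit 72) (nat_lit 32) (nat_lit 0) (nat_lit 6) (.e false (nat_lit 72) (nat_lit 33) (nat_lit 0) (nat_lit 6) (.e false (nat_lit 72) (nat_lit 34) (nat_lit 0) (nat_lit 6) .nil)))))))) .leaf) (nat_lit 24583) (nat_lit 230) (.n (nat_lit 111) (nat_lit 8) (.n (nat_lit 112) (nat_lit 40) (.n (nat_lit 113) (nat_lit 4) (.p (nat_lit 114) (nat_lit 116) (.p (nat_lit 115) (nat_lit 80) (.p (nat_lit 116) (nat_lit 104) (.p (nat_lit 117) (nat_lit 20) (.n (nat_lit 118) (nat_lit 16) (.p (nat_lit 119) (nat_lit 96) (.p (nat_lit 120) (nat_lit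 84) (.p (nat_lit 121) (nat_lit 136) (.p (nat_lit 122) (nat_lit 124) (.n (nat_lit 123) (nat_lit 4) (.n (nat_lit 124) (nat_lit 104) (.n (nat_lit 125) (nat_lit 112) (.n (nat_lit 126) (nat_lit 136) (.n (nat_lit 127) (nat_lit 124) (.p (nat_lit 128) (nat_lit 88) (.p (nat_lit 129) (nat_lit 160) (.p (nat_lit 130) (nat_lit 32) (.p (nat_lit 131) (nat_lit 12) (.n (nat_lit 132) (nat_lit 136) (.n (nat_lit 133) (nat_lit 68) (.p (nat_lit 134) (nat_lit 100) (.n (nat_lit 135) (nat_lit 124) (.p (nat_lit 136) (nat_lit 8) .z)))))))))))))))))))))))))) (.ct dF6as_c546 (nat_lit 36) (nat_lit 4) (.s false (nat_lit 1) (nat_lit 7) (nat_lit 0) (nat_lit 4) (nat_lit 0) false (nat_lit 12) true (nat_lit 11) true (nat_lit 4) true (nat_lit 11) true (nat_lit 7) (.e true (nat_lit 144) (nat_lit 76) (nat_lit 0) (nat_lit 11) (.e false (nat_lit 144) (nat_lit 77) (nat_lit 0) (nat_lit 11) (.e false (nat_lit 144) (nat_lit 78) (nat_lit 0) (nat_lit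 11) (.e false (nat_lit 144) (nat_lit 79) (nat_lit 0) (nat_lit 11) (.e false (nat_lit 72) (nat_lit 86) (nat_lit 0) (nat_lit 11) (.e true (nat_lit 72) (nat_lit 87) (nat_lit 0) (nat_lit 11) (.e true (nat_lit 36) (nat_lit 37) (nat_lit 4) (nat_lit 7) .nil))))))))) (.nd .leaf (nat_lit 25601) (nat_lit 65) (.p (nat_lit 54) (nat_lit 36) .z) .df .leaf))) (nat_lit 25602) (nat_lit 97) (.n (nat_lit 64) (nat_lit 36) (.n (nat_lit 65) (nat_lit 72) (.p (nat_lit 66) (nat_lit 36) (.n (nat_lit 68) (nat_lit 36) (.n (nat_lit 69) (nat_lit 36) (.n (nat_lit 70) (nat_lit 36) (.p (nat_lit 71) (nat_lit 36) (.p (nat_lit 72) (nat_lit 72) (.p (nat_lit 73) (nat_lit 36) (.p (nat_lit 74) (nat_lit 72) .z)))))))))) (.ct dF6as_c530 (nat_lit 72) (nat_lit 4) (.s true (nat_lit 1) (nat_lit 3) (nat_lit 0) (nat_lit 2) (nat_lit 2) true (nat_lit 2) true (nat_lit 4) true (nat_lit 3) true (nat_lit 6) true (nat_lit 4) (.s false (nat_lit 1) (nat_lit 5)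 (nat_lit 1) (nat_lit 0) (nat_lit 2) true (nat_lit 1) true (nat_lit 4) true (nat_lit 2) true (nat_lit 5) true (nat_lit 6) (.s false (nat_lit 1) (nat_lit 5) (nat_lit 1) (nat_lit 2) (nat_lit 0) true (nat_lit 3) true (nat_lit 6) true (nat_lit 2) true (nat_lit 5) true (nat_lit 4) (.s false (nat_lit 1) (nat_lit 6) (nat_lit 2) (nat_lit 0) (nat_lit 0) true (nat_lit 2) true (nat_lit 6) true (nat_lit 1) true (nat_lit 4) true (nat_lit 6) (.e false (nat_lit 72) (nat_lit 17) (nat_lit 3) (nat_lit 3) (.e false (nat_lit 72) (nat_lit 41) (nat_lit 0) (nat_lit 6) (.e false (nat_lit 72) (nat_lit 43) (nat_lit 0) (nat_lit 6) .nil)))))))) (.nd (.nd (.nd (.nd .leaf (nat_lit 25606) (nat_lit 222) (.n (nat_lit 114) (nat_lit 36) (.n (nat_lit 115) (nat_lit 36) (.p (nat_lit 117) (nat_lit 72) (.p (nat_lit 118) (nat_lit 36) (.p (nat_lit 120) (nat_lit 36) (.n (nat_lit 121) (nat_lit 36) (.n (nat_lit 122) (nat_lit 72) (.p (nat_lit 123) (nat_lit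 36) (.p (nat_lit 125) (nat_lit 36) (.p (nat_lit 126) (nat_lit 36) (.n (nat_lit 128) (nat_lit 36) (.n (nat_lit 129) (nat_lit 36) (.p (nat_lit 130) (nat_lit 36) (.n (nat_lit 131) (nat_lit 36) (.p (nat_lit 132) (nat_lit 36) (.p (nat_lit 135) (nat_lit 36) .z)))))))))))))))) (.ct dF6as_c546 (nat_lit 36) (nat_lit 5) (.s false (nat_lit 1) (nat_lit 12) (nat_lit 1) (nat_lit 0) (nat_lit 2) true (nat_lit 5) true (nat_lit 9) true (nat_lit 0) true (nat_lit 10) true (nat_lit 11) (.s true (nat_lit 1) (nat_lit 13) (nat_lit 2) (nat_lit 0) (nat_lit 1) true (nat_lit 5) true (nat_lit 10) true (nat_lit 0) true (nat_lit 9) true (nat_lit 11) (.a false (nat_lit 648) (nat_lit 12) (nat_lit 12) (nat_lit 0) (nat_lit 0) (.a true (nat_lit 648) (nat_lit 13) (nat_lit 13) (nat_lit 0) (nat_lit 0) (.e false (nat_lit 36) (nat_lit 65) (nat_lit 1) (nat_lit 10) (.e true (nat_lit 36) (nat_lit 71) (nat_lit 1) (nat_lit 10) (.e false (nat_lit 36)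 (nat_lit 80) (nat_lit 0) (nat_lit 11) (.e false (nat_lit 36) (nat_lit 26) (nat_lit 6) (nat_lit 5) (.e false (nat_lit 36) (nat_lit 54) (nat_lit 2) (nat_lit 9) (.e true (nat_lit 36) (nat_lit 55) (nat_lit 2) (nat_lit 9) (.e true (nat_lit 36) (nat_lit 56) (nat_lit 2) (nat_lit 9) (.e false (nat_lit 36) (nat_lit 62) (nat_lit 2) (nat_lit 9) (.e true (nat_lit 36) (nat_lit 77) (nat_lit 0) (nat_lit 11) .nil)))))))))))))) .leaf) (nat_lit 25607) (nat_lit 269) (.n (nat_lit 138) (nat_lit 36) (.p (nat_lit 139) (nat_lit 36) (.n (nat_lit 140) (nat_lit 36) (.p (nat_lit 141) (nat_lit 36) (.p (nat_lit 146) (nat_lit 72) (.n (nat_lit 147) (nat_lit 36) (.p (nat_lit 148) (nat_lit 36) (.n (nat_lit 149) (nat_lit 36) (.p (nat_lit 151) (nat_lit 36) (.p (nat_lit 155) (nat_lit 36) (.n (nat_lit 156) (nat_lit 36) .z))))))))))) (.ct dF6as_c531 (nat_lit 36) (nat_lit 3) (.s true (nat_lit 1) (nat_lit 8) (nat_lit 2) (nat_lit 2) (nat_lit 2)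 true (nat_lit 3) true (nat_lit 7) true (nat_lit 2) true (nat_lit 7) true (nat_lit 7) (.s true (nat_lit 1) (nat_lit 21) (nat_lit 0) (nat_lit 1) (nat_lit 0) false (nat_lit 10) true (nat_lit 9) false (nat_lit 2) true (nat_lit 9) true (nat_lit 8) (.e true (nat_lit 36) (nat_lit 68) (nat_lit 2) (nat_lit 7) (.e true (nat_lit 36) (nat_lit 70) (nat_lit 2) (nat_lit 7) (.e false (nat_lit 36) (nat_lit 71) (nat_lit 2) (nat_lit 7) (.e false (nat_lit 36) (nat_lit 72) (nat_lit 2) (nat_lit 7) (.e false (nat_lit 36) (nat_lit 73) (nat_lit 2) (nat_lit 7) (.e false (nat_lit 36) (nat_lit 74) (nat_lit 2) (nat_lit 7) (.e true (nat_lit 36) (nat_lit 101) (nat_lit 0) (nat_lit 9) (.e false (nat_lit 36) (nat_lit 95) (nat_lit 0) (nat_lit 9) (.e true (nat_lit 36) (nat_lit 96) (nat_lit 0) (nat_lit 9) (.e true (nat_lit 36) (nat_lit 97) (nat_lit 0) (nat_lit 9) (.e true (nat_lit 36) (nat_lit 99) (nat_lit 0) (nat_lit 9) (.e false (nat_lit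 36) (nat_lit 103) (nat_lit 0) (nat_lit 9) (.e false (nat_lit 36) (nat_lit 93) (nat_lit 1) (nat_lit 8) .nil)))))))))))))))) .leaf) (nat_lit 26625) (nat_lit 66) (.p (nat_lit 55) (nat_lit 36) .z) .df (.nd (.nd .leaf (nat_lit 26626) (nat_lit 84) (.p (nat_lit 64) (nat_lit 36) .z) .df .leaf) (nat_lit 26630) (nat_lit 204) (.n (nat_lit 111) (nat_lit 36) (.p (nat_lit 112) (nat_lit 36) (.p (nat_lit 113) (nat_lit 36) (.n (nat_lit 114) (nat_lit 36) (.n (nat_lit 115) (nat_lit 36) (.p (nat_lit 117) (nat_lit 36) (.p (nat_lit 118) (nat_lit 36) (.n (nat_lit 121) (nat_lit 36) (.n (nat_lit 122) (nat_lit 72) (.p (nat_lit 123) (nat_lit 36) (.p (nat_lit 124) (nat_lit 36) (.p (nat_lit 125) (nat_lit 36) (.p (nat_lit 126) (nat_lit 36) (.n (nat_lit 129) (nat_lit 36) (.n (nat_lit 131) (nat_lit 36) (.p (nat_lit 132) (nat_lit 36) (.p (nat_lit 135) (nat_lit 36) .z))))))))))))))))) (.ct dF6as_c546 (nat_lit 36) (nat_lit 5) dF6as_i9) .leaf))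 (nat_lit 26631) (nat_lit 260) (.p (nat_lit 139) (nat_lit 36) (.n (nat_lit 140) (nat_lit 36) (.p (nat_lit 141) (nat_lit 36) (.p (nat_lit 143) (nat_lit 36) (.n (nat_lit 144) (nat_lit 36) (.p (nat_lit 145) (nat_lit 72) (.p (nat_lit 146) (nat_lit 72) (.p (nat_lit 147) (nat_lit 36) (.p (nat_lit 148) (nat_lit 144) (.n (nat_lit 149) (nat_lit 72) (.n (nat_lit 150) (nat_lit 180) (.n (nat_lit 152) (nat_lit 108) (.n (nat_lit 153) (nat_lit 36) (.n (nat_lit 154) (nat_lit 108) (.p (nat_lit 155) (nat_lit 36) (.p (nat_lit 156) (nat_lit 72) .z)))))))))))))))) (.ct dF6as_c531 (nat_lit 36) (nat_lit 3) (.s false (nat_lit 1) (nat_lit 5) (nat_lit 2) (nat_lit 2) (nat_lit 3) true (nat_lit 0) true (nat_lit 6) true (nat_lit 5) true (nat_lit 7) true (nat_lit 7) (.s true (nat_lit 2) (nat_lit 6) (nat_lit 0) (nat_lit 5) (nat_lit 2) true (nat_lit 5) true (nat_lit 7) true (nat_lit 4) true (nat_lit 9) true (nat_lit 5) (.s false (nat_lit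 1) (nat_lit 6) (nat_lit 2) (nat_lit 5) (nat_lit 0) true (nat_lit 5) true (nat_lit 9) true (nat_lit 4) true (nat_lit 7) true (nat_lit 5) (.s true (nat_lit 1) (nat_lit 6) (nat_lit 5) (nat_lit 0) (nat_lit 2) false (nat_lit 0) true (nat_lit 7) true (nat_lit 4) true (nat_lit 5) true (nat_lit 9) (.s true (nat_lit 1) (nat_lit 6) (nat_lit 5) (nat_lit 2) (nat_lit 0) true (nat_lit 1) true (nat_lit 9) true (nat_lit 4) true (nat_lit 5) true (nat_lit 7) (.s true (nat_lit 1) (nat_lit 11) (nat_lit 1) (nat_lit 2) (nat_lit 2) true (nat_lit 4) true (nat_lit 7) true (nat_lit 1) true (nat_lit 8) true (nat_lit 7) (.s true (nat_lit 1) (nat_lit 11) (nat_lit 2) (nat_lit 1) (nat_lit 2) true (nat_lit 3) true (nat_lit 7) true (nat_lit 1) true (nat_lit 7) true (nat_lit 8) (.s true (nat_lit 1) (nat_lit 17) (nat_lit 0) (nat_lit 1) (nat_lit 2) true (nat_lit 5) true (nat_lit 7) false (nat_lit 0) true (nat_lit 9) true (nat_lit 8) (.s true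 (nat_lit 1) (nat_lit 17) (nat_lit 1) (nat_lit 2) (nat_lit 0) true (nat_lit 6) true (nat_lit 9) false (nat_lit 0) true (nat_lit 8) true (nat_lit 7) (.s true (nat_lit 1) (nat_lit 19) (nat_lit 0) (nat_lit 2) (nat_lit 0) false (nat_lit 10) true (nat_lit 9) false (nat_lit 1) true (nat_lit 9) true (nat_lit 7) (.e true (nat_lit 36) (nat_lit 70) (nat_lit 2) (nat_lit 7) (.e false (nat_lit 36) (nat_lit 71) (nat_lit 2) (nat_lit 7) (.e true (nat_lit 36) (nat_lit 38) (nat_lit 5) (nat_lit 5) (.e false (nat_lit 36) (nat_lit 42) (nat_lit 5) (nat_lit 5) (.e false (nat_lit 72) (nat_lit 95) (nat_lit 0) (nat_lit 9) (.e true (nat_lit 72) (nat_lit 97) (nat_lit 0) (nat_lit 9) (.e true (nat_lit 36) (nat_lit 100) (nat_lit 0) (nat_lit 9) (.e true (nat_lit 36) (nat_lit 101) (nat_lit 0) (nat_lit 9) (.e true (nat_lit 36) (nat_lit 94) (nat_lit 0) (nat_lit 9) (.e false (nat_lit 36) (nat_lit 98) (nat_lit 0) (nat_lit 9) (.e true (nat_lit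 36) (nat_lit 90) (nat_lit 1) (nat_lit 8) (.e false (nat_lit 72) (nat_lit 92) (nat_lit 1) (nat_lit 8) (.e false (nat_lit 72) (nat_lit 93) (nat_lit 1) (nat_lit 8) .nil)))))))))))))))))))))))) (.nd (.nd (.nd .leaf (nat_lit 27649) (nat_lit 67) (.p (nat_lit 56) (nat_lit 36) .z) .df .leaf) (nat_lit 27650) (nat_lit 85) (.p (nat_lit 65) (nat_lit 36) .z) .df .leaf) (nat_lit 27654) (nat_lit 223) (.p (nat_lit 111) (nat_lit 8) (.n (nat_lit 112) (nat_lit 32) (.n (nat_lit 113) (nat_lit 32) (.n (nat_lit 114) (nat_lit 8) (.n (nat_lit 115) (nat_lit 8) (.p (nat_lit 116) (nat_lit 4) (.p (nat_lit 117) (nat_lit 52) (.p (nat_lit 118) (nat_lit 16) (.n (nat_lit 119) (nat_lit 24) (.n (nat_lit 120) (nat_lit 12) (.p (nat_lit 121) (nat_lit 8) (.n (nat_lit 122) (nat_lit 16) (.p (nat_lit 123) (nat_lit 4) (.n (nat_lit 124) (nat_lit 4) (.p (nat_lit 125) (nat_lit 4) (.n (nat_lit 126) (nat_lit 8) (.p (nat_lit 127) (nat_lit 16) (.n (nat_lit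 128) (nat_lit 16) (.n (nat_lit 129) (nat_lit 16) (.p (nat_lit 130) (nat_lit 40) (.n (nat_lit 131) (nat_lit 12) (.p (nat_lit 132) (nat_lit 28) (.n (nat_lit 133) (nat_lit 4) (.p (nat_lit 134) (nat_lit 8) (.p (nat_lit 135) (nat_lit 16) (.n (nat_lit 136) (nat_lit 8) .z)))))))))))))))))))))))))) (.ct dF6as_c546 (nat_lit 36) (nat_lit 5) (.s false (nat_lit 1) (nat_lit 12) (nat_lit 1) (nat_lit 0) (nat_lit 2) true (nat_lit 5) true (nat_lit 9) true (nat_lit 0) true (nat_lit 10) true (nat_lit 11) (.a false (nat_lit 648) (nat_lit 12) (nat_lit 12) (nat_lit 0) (nat_lit 0) (.e false (nat_lit 36) (nat_lit 60) (nat_lit 2) (nat_lit 9) (.e false (nat_lit 36) (nat_lit 65) (nat_lit 1) (nat_lit 10) (.e false (nat_lit 36) (nat_lit 70) (nat_lit 1) (nat_lit 10) (.e true (nat_lit 36) (nat_lit 71) (nat_lit 1) (nat_lit 10) (.e false (nat_lit 36) (nat_lit 80) (nat_lit 0) (nat_lit 11) .nil)))))))) (.nd .leaf (nat_lit 27655) (nat_lit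 275) (.p (nat_lit 137) (nat_lit 72) (.p (nat_lit 139) (nat_lit 36) (.p (nat_lit 140) (nat_lit 36) (.n (nat_lit 141) (nat_lit 36) (.n (nat_lit 143) (nat_lit 36) (.n (nat_lit 147) (nat_lit 36) (.n (nat_lit 148) (nat_lit 72) (.p (nat_lit 149) (nat_lit 72) (.p (nat_lit 150) (nat_lit 108) (.p (nat_lit 151) (nat_lit 36) (.p (nat_lit 152) (nat_lit 108) (.p (nat_lit 154) (nat_lit 72) (.n (nat_lit 155) (nat_lit 72) (.n (nat_lit 156) (nat_lit 36) .z)))))))))))))) (.ct dF6as_c531 (nat_lit 36) (nat_lit 3) (.s false (nat_lit 1) (nat_lit 12) (nat_lit 0) (nat_lit 2) (nat_lit 2) true (nat_lit 5) true (nat_lit 7) true (nat_lit 0) true (nat_lit 9) true (nat_lit 7) (.s false (nat_lit 1) (nat_lit 12) (nat_lit 2) (nat_lit 0) (nat_lit 2) true (nat_lit 3) true (nat_lit 7) true (nat_lit 0) true (nat_lit 7) true (nat_lit 9) (.e false (nat_lit 36) (nat_lit 38) (nat_lit 5) (nat_lit 5) (.e false (nat_lit 72) (nat_lit 65) (nat_lit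 2) (nat_lit 7) (.e true (nat_lit 36) (nat_lit 103) (nat_lit 0) (nat_lit 9) (.e false (nat_lit 72) (nat_lit 69) (nat_lit 2) (nat_lit 7) (.e false (nat_lit 36) (nat_lit 70) (nat_lit 2) (nat_lit 7) (.e true (nat_lit 36) (nat_lit 71) (nat_lit 2) (nat_lit 7) (.e false (nat_lit 36) (nat_lit 94) (nat_lit 0) (nat_lit 9) .nil)))))))))) .leaf)))) (nat_lit 28673) (nat_lit 68) (.p (nat_lit 57) (nat_lit 36) .z) .df (.nd (.nd (.nd (.nd (.nd .leaf (nat_lit 28674) (nat_lit 86) (.p (nat_lit 66) (nat_lit 36) .z) .df .leaf) (nat_lit 28678) (nat_lit 213) (.n (nat_lit 111) (nat_lit 20) (.p (nat_lit 112) (nat_lit 8) (.p (nat_lit 113) (nat_lit 8) (.p (nat_lit 114) (nat_lit 20) (.p (nat_lit 115) (nat_lit 20) (.n (nat_lit 116) (nat_lit 28) (.p (nat_lit 117) (nat_lit 32) (.n (nat_lit 118) (nat_lit 4) (.n (nat_lit 119) (nat_lit 12) (.n (nat_lit 120) (nat_lit 24) (.p (nat_lit 121) (nat_lit 52) (.p (nat_lit 122) (nat_lit 4) (.n (nat_lit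 123) (nat_lit 28) (.p (nat_lit 124) (nat_lit 28) (.n (nat_lit 125) (nat_lit 28) (.n (nat_lit 126) (nat_lit 52) (.n (nat_lit 127) (nat_lit 4) (.p (nat_lit 128) (nat_lit 4) (.p (nat_lit 129) (nat_lit 4) (.p (nat_lit 130) (nat_lit 8) (.n (nat_lit 131) (nat_lit 24) (.p (nat_lit 132) (nat_lit 20) (.n (nat_lit 133) (nat_lit 8) (.p (nat_lit 134) (nat_lit 16) (.n (nat_lit 135) (nat_lit 4) (.n (nat_lit 136) (nat_lit 16) .z)))))))))))))))))))))))))) (.ct dF6as_c546 (nat_lit 36) (nat_lit 5) (.s true (nat_lit 1) (nat_lit 6) (nat_lit 0) (nat_lit 0) (nat_lit 6) true (nat_lit 0) true (nat_lit 5) true (nat_lit 5) true (nat_lit 11) true (nat_lit 11) (.s false (nat_lit 1) (nat_lit 19) (nat_lit 0) (nat_lit 0) (nat_lit 1) true (nat_lit 8) true (nat_lit 10) false (nat_lit 3) true (nat_lit 11) true (nat_lit 11) (.a true (nat_lit 648) (nat_lit 14) (nat_lit 14) (nat_lit 0) (nat_lit 0) (.e true (nat_lit 36) (nat_lit 76) (nat_lit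 0) (nat_lit 11) (.e false (nat_lit 36) (nat_lit 77) (nat_lit 0) (nat_lit 11) (.e false (nat_lit 72) (nat_lit 78) (nat_lit 0) (nat_lit 11) (.e false (nat_lit 36) (nat_lit 79) (nat_lit 0) (nat_lit 11) (.e true (nat_lit 36) (nat_lit 83) (nat_lit 0) (nat_lit 11) (.e true (nat_lit 72) (nat_lit 87) (nat_lit 0) (nat_lit 11) (.e false (nat_lit 36) (nat_lit 43) (nat_lit 3) (nat_lit 8) (.e false (nat_lit 36) (nat_lit 74) (nat_lit 1) (nat_lit 10) (.e false (nat_lit 36) (nat_lit 81) (nat_lit 0) (nat_lit 11) .nil))))))))))))) .leaf) (nat_lit 28679) (nat_lit 263) (.p (nat_lit 137) (nat_lit 72) (.p (nat_lit 139) (nat_lit 36) (.p (nat_lit 140) (nat_lit 36) (.n (nat_lit 141) (nat_lit 36) (.n (nat_lit 144) (nat_lit 36) (.p (nat_lit 145) (nat_lit 36) (.p (nat_lit 146) (nat_lit 72) (.n (nat_lit 147) (nat_lit 36) (.p (nat_lit 148) (nat_lit 108) (.n (nat_lit 149) (nat_lit 36) (.n (nat_lit 150) (nat_lit 72) (.p (nat_lit 151)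 (nat_lit 36) (.n (nat_lit 154) (nat_lit 36) (.p (nat_lit 155) (nat_lit 36) (.p (nat_lit 156) (nat_lit 36) .z))))))))))))))) (.ct dF6as_c531 (nat_lit 559872) (nat_lit 3) (.s false (nat_lit 15552) (nat_lit 7) (nat_lit 0) (nat_lit 6) (nat_lit 0) false (nat_lit 10) true (nat_lit 9) true (nat_lit 3) true (nat_lit 9) true (nat_lit 4) (.s true (nat_lit 15552) (nat_lit 18) (nat_lit 0) (nat_lit 2) (nat_lit 1) true (nat_lit 6) true (nat_lit 8) false (nat_lit 0) true (nat_lit 9) true (nat_lit 7) (.s false (nat_lit 15552) (nat_lit 18) (nat_lit 1) (nat_lit 2) (nat_lit 0) true (nat_lit 6) true (nat_lit 9) false (nat_lit 0) true (nat_lit 8) true (nat_lit 7) (.s true (nat_lit 15552) (nat_lit 18) (nat_lit 2) (nat_lit 0) (nat_lit 1) true (nat_lit 4) true (nat_lit 8) false (nat_lit 0) true (nat_lit 7) true (nat_lit 9) (.s true (nat_lit 15552) (nat_lit 18) (nat_lit 2) (nat_lit 1) (nat_lit 0) true (nat_lit 5) true (nat_lit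 9) false (nat_lit 0) true (nat_lit 7) true (nat_lit 8) (.s true (nat_lit 15552) (nat_lit 19) (nat_lit 0) (nat_lit 0) (nat_lit 2) true (nat_lit 5) true (nat_lit 7) false (nat_lit 1) true (nat_lit 9) true (nat_lit 9) (.i true (nat_lit 1) (nat_lit 2) (.c (nat_lit 2) (nat_lit 1) (.c (nat_lit 2) (nat_lit 1) (.c (nat_lit 2) (nat_lit 1) (.c (nat_lit 1) (nat_lit 16) (.c (nat_lit 0) (nat_lit 256) (.c (nat_lit 0) (nat_lit 256) .nil)))))) (.e false (nat_lit 1119744) (nat_lit 95) (nat_lit 0) (nat_lit 9) (.e true (nat_lit 1679616) (nat_lit 99) (nat_lit 0) (nat_lit 9) (.e false (nat_lit 1679616) (nat_lit 103) (nat_lit 0) (nat_lit 9) (.e false (nat_lit 559872) (nat_lit 100) (nat_lit 0) (nat_lit 9) (.e true (nat_lit 559872) (nat_lit 101) (nat_lit 0) (nat_lit 9) (.e true (nat_lit 559872) (nat_lit 90) (nat_lit 1) (nat_lit 8) (.e true (nat_lit 559872) (nat_lit 73) (nat_lit 2) (nat_lit 7) (.e false (nat_lit 1119744) (nat_lit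 93) (nat_lit 1) (nat_lit 8) (.e true (nat_lit 559872) (nat_lit 68) (nat_lit 2) (nat_lit 7) (.e true (nat_lit 559872) (nat_lit 74) (nat_lit 2) (nat_lit 7) (.e true (nat_lit 559872) (nat_lit 42) (nat_lit 5) (nat_lit 5) (.e true (nat_lit 559872) (nat_lit 43) (nat_lit 5) (nat_lit 5) .nil)))))))))))))))))))) (.nd (.nd .leaf (nat_lit 29696) (nat_lit 69) (.p (nat_lit 58) (nat_lit 36) .z) .df .leaf) (nat_lit 29698) (nat_lit 104) (.p (nat_lit 75) (nat_lit 36) .z) .df .leaf)) (nat_lit 29701) (nat_lit 216) (.p (nat_lit 111) (nat_lit 36) (.p (nat_lit 114) (nat_lit 72) (.p (nat_lit 115) (nat_lit 72) (.n (nat_lit 116) (nat_lit 36) (.n (nat_lit 117) (nat_lit 72) (.n (nat_lit 118) (nat_lit 72) (.p (nat_lit 119) (nat_lit 36) (.p (nat_lit 121) (nat_lit 72) (.p (nat_lit 122) (nat_lit 108) (.n (nat_lit 123) (nat_lit 72) (.n (nat_lit 125) (nat_lit 72) (.n (nat_lit 126) (nat_lit 72) (.n (nat_lit 127) (nat_lit 36) (.p (nat_lit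 128) (nat_lit 36) (.p (nat_lit 129) (nat_lit 72) (.n (nat_lit 130) (nat_lit 36) (.p (nat_lit 131) (nat_lit 36) (.n (nat_lit 132) (nat_lit 72) (.n (nat_lit 135) (nat_lit 72) (.n (nat_lit 136) (nat_lit 36) .z)))))))))))))))))))) (.ct dF6as_c546 (nat_lit 36) (nat_lit 6) (.s false (nat_lit 1) (nat_lit 5) (nat_lit 1) (nat_lit 2) (nat_lit 3) true (nat_lit 2) true (nat_lit 8) true (nat_lit 6) true (nat_lit 10) true (nat_lit 9) (.e false (nat_lit 36) (nat_lit 17) (nat_lit 9) (nat_lit 2) (.e false (nat_lit 36) (nat_lit 39) (nat_lit 3) (nat_lit 8) (.e false (nat_lit 36) (nat_lit 32) (nat_lit 5) (nat_lit 6) (.e false (nat_lit 36) (nat_lit 33) (nat_lit 5) (nat_lit 6) (.e false (nat_lit 36) (nat_lit 34) (nat_lit 5) (nat_lit 6) (.e true (nat_lit 36) (nat_lit 65) (nat_lit 1) (nat_lit 10) (.e true (nat_lit 36) (nat_lit 70) (nat_lit 1) (nat_lit 10) (.e false (nat_lit 36) (nat_lit 71) (nat_lit 1) (nat_lit 10) (.e false (nat_lit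 36) (nat_lit 55) (nat_lit 2) (nat_lit 9) (.e false (nat_lit 36) (nat_lit 56) (nat_lit 2) (nat_lit 9) (.e true (nat_lit 36) (nat_lit 57) (nat_lit 2) (nat_lit 9) .nil))))))))))))) (.nd (.nd (.nd .leaf (nat_lit 29703) (nat_lit 328) (.p (nat_lit 157) (nat_lit 36) (.p (nat_lit 158) (nat_lit 36) (.p (nat_lit 159) (nat_lit 36) (.n (nat_lit 160) (nat_lit 72) (.p (nat_lit 161) (nat_lit 36) (.n (nat_lit 164) (nat_lit 36) (.p (nat_lit 165) (nat_lit 72) (.n (nat_lit 166) (nat_lit 36) (.n (nat_lit 167) (nat_lit 36) (.p (nat_lit 168) (nat_lit 36) (.p (nat_lit 169) (nat_lit 36) (.n (nat_lit 170) (nat_lit 36) (.p (nat_lit 176) (nat_lit 72) (.n (nat_lit 177) (nat_lit 36) .z)))))))))))))) (.ct dF6as_c291 (nat_lit 36) (nat_lit 3) (.s false (nat_lit 1) (nat_lit 6) (nat_lit 3) (nat_lit 2) (nat_lit 2) true (nat_lit 1) true (nat_lit 8) true (nat_lit 4) true (nat_lit 7) true (nat_lit 8) (.s true (nat_lit 1) (nat_lit 7) (nat_lit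 1) (nat_lit 3) (nat_lit 2) true (nat_lit 4) true (nat_lit 8) true (nat_lit 3) true (nat_lit 9) true (nat_lit 7) (.s false (nat_lit 1) (nat_lit 7) (nat_lit 2) (nat_lit 3) (nat_lit 1) true (nat_lit 4) true (nat_lit 9) true (nat_lit 3) true (nat_lit 8) true (nat_lit 7) (.s true (nat_lit 1) (nat_lit 12) (nat_lit 2) (nat_lit 1) (nat_lit 2) true (nat_lit 3) true (nat_lit 8) true (nat_lit 1) true (nat_lit 8) true (nat_lit 9) (.e false (nat_lit 36) (nat_lit 77) (nat_lit 2) (nat_lit 8) (.e false (nat_lit 36) (nat_lit 78) (nat_lit 2) (nat_lit 8) (.e false (nat_lit 36) (nat_lit 79) (nat_lit 2) (nat_lit 8) (.e false (nat_lit 36) (nat_lit 38) (nat_lit 6) (nat_lit 4) (.e true (nat_lit 36) (nat_lit 80) (nat_lit 2) (nat_lit 8) (.e false (nat_lit 36) (nat_lit 95) (nat_lit 1) (nat_lit 9) (.e true (nat_lit 36) (nat_lit 96) (nat_lit 1) (nat_lit 9) (.e true (nat_lit 36) (nat_lit 97) (nat_lit 1) (nat_lit 9) (.e true (nat_lit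 36) (nat_lit 99) (nat_lit 1) (nat_lit 9) (.e true (nat_lit 36) (nat_lit 76) (nat_lit 2) (nat_lit 8) (.e false (nat_lit 36) (nat_lit 94) (nat_lit 1) (nat_lit 9) .nil)))))))))))))))) .leaf) (nat_lit 30720) (nat_lit 70) (.p (nat_lit 59) (nat_lit 36) .z) .df .leaf) (nat_lit 30722) (nat_lit 121) (.n (nat_lit 76) (nat_lit 36) (.p (nat_lit 77) (nat_lit 36) (.n (nat_lit 78) (nat_lit 36) (.n (nat_lit 80) (nat_lit 36) (.p (nat_lit 81) (nat_lit 36) (.n (nat_lit 82) (nat_lit 36) (.p (nat_lit 84) (nat_lit 36) (.p (nat_lit 87) (nat_lit 72) (.p (nat_lit 88) (nat_lit 72) .z))))))))) (.ct dF6as_c290 (nat_lit 36) (nat_lit 5) (.s false (nat_lit 1) (nat_lit 6) (nat_lit 0) (nat_lit 2) (nat_lit 1) true (nat_lit 4) true (nat_lit 6) true (nat_lit 1) true (nat_lit 7) true (nat_lit 5) (.e false (nat_lit 36) (nat_lit 19) (nat_lit 3) (nat_lit 4) (.e false (nat_lit 36) (nat_lit 40) (nat_lit 1) (nat_lit 6) (.e true (nat_lit 36) (nat_lit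 13) (nat_lit 6) (nat_lit 1) (.e true (nat_lit 36) (nat_lit 29) (nat_lit 2) (nat_lit 5) (.e true (nat_lit 36) (nat_lit 31) (nat_lit 2) (nat_lit 5) (.e false (nat_lit 72) (nat_lit 32) (nat_lit 2) (nat_lit 5) (.e false (nat_lit 36) (nat_lit 33) (nat_lit 2) (nat_lit 5) (.e false (nat_lit 36) (nat_lit 34) (nat_lit 2) (nat_lit 5) .nil)))))))))) (.nd .leaf (nat_lit 30725) (nat_lit 217) (.p (nat_lit 111) (nat_lit 204) (.n (nat_lit 112) (nat_lit 60) (.n (nat_lit 113) (nat_lit 60) (.p (nat_lit 114) (nat_lit 120) (.p (nat_lit 115) (nat_lit 120) (.p (nat_lit 116) (nat_lit 120) (.n (nat_lit 117) (nat_lit 348) (.n (nat_lit 118) (nat_lit 168) (.p (nat_lit 119) (nat_lit 144) (.p (nat_lit 120) (nat_lit 36) (.p (nat_lit 121) (nat_lit 24) (.p (nat_lit 122) (nat_lit 384) (.n (nat_lit 123) (nat_lit 96) (.n (nat_lit 124) (nat_lit 156) (.n (nat_lit 125) (nat_lit 60) (.n (nat_lit 126) (nat_lit 24) (.p (nat_lit 127) (nat_lit 84)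 (.p (nat_lit 128) (nat_lit 24) (.p (nat_lit 129) (nat_lit 96) (.n (nat_lit 130) (nat_lit 96) (.p (nat_lit 131) (nat_lit 252) (.n (nat_lit 132) (nat_lit 168) (.p (nat_lit 133) (nat_lit 60) (.n (nat_lit 134) (nat_lit 228) (.n (nat_lit 135) (nat_lit 204) (.p (nat_lit 136) (nat_lit 48) .z)))))))))))))))))))))))))) (.ct dF6as_c546 (nat_lit 36) (nat_lit 6) (.s false (nat_lit 1) (nat_lit 5) (nat_lit 1) (nat_lit 1) (nat_lit 5) true (nat_lit 0) true (nat_lit 6) true (nat_lit 6) true (nat_lit 10) true (nat_lit 10) (.s false (nat_lit 2) (nat_lit 12) (nat_lit 0) (nat_lit 1) (nat_lit 2) true (nat_lit 6) true (nat_lit 9) true (nat_lit 0) true (nat_lit 11) true (nat_lit 10) (.a false (nat_lit 648) (nat_lit 13) (nat_lit 13) (nat_lit 0) (nat_lit 0) (.a true (nat_lit 1296) (nat_lit 12) (nat_lit 12) (nat_lit 0) (nat_lit 0) (.e false (nat_lit 108) (nat_lit 32) (nat_lit 5) (nat_lit 6) (.e false (nat_lit 72) (nat_lit 33) (nat_lit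 5) (nat_lit 6) (.e false (nat_lit 36) (nat_lit 34) (nat_lit 5) (nat_lit 6) (.e true (nat_lit 36) (nat_lit 64) (nat_lit 1) (nat_lit 10) (.e true (nat_lit 36) (nat_lit 65) (nat_lit 1) (nat_lit 10) (.e false (nat_lit 36) (nat_lit 67) (nat_lit 1) (nat_lit 10) (.e false (nat_lit 36) (nat_lit 69) (nat_lit 1) (nat_lit 10) (.e false (nat_lit 36) (nat_lit 73) (nat_lit 1) (nat_lit 10) (.e false (nat_lit 36) (nat_lit 74) (nat_lit 1) (nat_lit 10) (.e false (nat_lit 36) (nat_lit 71) (nat_lit 1) (nat_lit 10) (.e true (nat_lit 36) (nat_lit 68) (nat_lit 1) (nat_lit 10) (.e false (nat_lit 72) (nat_lit 56) (nat_lit 2) (nat_lit 9) (.e true (nat_lit 72) (nat_lit 88) (nat_lit 0) (nat_lit 11) .nil)))))))))))))))))) .leaf))) (nat_lit 30727) (nat_lit 327) (.p (nat_lit 157) (nat_lit 168) (.p (nat_lit 158) (nat_lit 120) (.p (nat_lit 159) (nat_lit 96) (.n (nat_lit 160) (nat_lit 144) (.p (nat_lit 161) (nat_lit 12) (.n (nat_lit 163)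 (nat_lit 48) (.n (nat_lit 164) (nat_lit 120) (.n (nat_lit 165) (nat_lit 84) (.p (nat_lit 166) (nat_lit 96) (.p (nat_lit 167) (nat_lit 12) (.n (nat_lit 168) (nat_lit 24) (.n (nat_lit 169) (nat_lit 84) (.n (nat_lit 170) (nat_lit 132) (.n (nat_lit 171) (nat_lit 132) (.n (nat_lit 172) (nat_lit 24) (.p (nat_lit 173) (nat_lit 168) (.n (nat_lit 174) (nat_lit 36) (.n (nat_lit 175) (nat_lit 48) (.p (nat_lit 176) (nat_lit 132) (.n (nat_lit 177) (nat_lit 132) (.p (nat_lit 178) (nat_lit 120) (.n (nat_lit 179) (nat_lit 48) .z)))))))))))))))))))))) (.ct dF6as_c291 (nat_lit 36) (nat_lit 3) (.s true (nat_lit 1) (nat_lit 6) (nat_lit 0) (nat_lit 2) (nat_lit 6) true (nat_lit 1) true (nat_lit 4) true (nat_lit 4) true (nat_lit 10) true (nat_lit 8) (.s false (nat_lit 1) (nat_lit 6) (nat_lit 0) (nat_lit 6) (nat_lit 2) true (nat_lit 5) true (nat_lit 8) true (nat_lit 4) true (nat_lit 10) true (nat_lit 4) dF6as_i24))) (.nd (.nd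 (.nd (.nd .leaf (nat_lit 31744) (nat_lit 71) (.p (nat_lit 60) (nat_lit 36) .z) .df .leaf) (nat_lit 31746) (nat_lit 105) (.p (nat_lit 76) (nat_lit 36) .z) .df .leaf) (nat_lit 31749) (nat_lit 229) (.n (nat_lit 111) (nat_lit 12) (.p (nat_lit 112) (nat_lit 12) (.n (nat_lit 113) (nat_lit 24) (.p (nat_lit 114) (nat_lit 48) (.p (nat_lit 115) (nat_lit 48) (.n (nat_lit 116) (nat_lit 24) (.p (nat_lit 117) (nat_lit 12) (.n (nat_lit 118) (nat_lit 24) (.n (nat_lit 120) (nat_lit 36) (.p (nat_lit 121) (nat_lit 96) (.p (nat_lit 122) (nat_lit 24) (.n (nat_lit 123) (nat_lit 60) (.p (nat_lit 124) (nat_lit 24) (.n (nat_lit 125) (nat_lit 60) (.n (nat_lit 126) (nat_lit 96) (.n (nat_lit 127) (nat_lit 24) (.p (nat_lit 128) (nat_lit 24) (.p (nat_lit 129) (nat_lit 60) (.p (nat_lit 130) (nat_lit 12) (.n (nat_lit 131) (nat_lit 36) (.n (nat_lit 132) (nat_lit 24) (.n (nat_lit 133) (nat_lit 48) (.p (nat_lit 134) (nat_lit 60) (.n (nat_lit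 135) (nat_lit 60) (.n (nat_lit 136) (nat_lit 24) .z))))))))))))))))))))))))) (.ct dF6as_c546 (nat_lit 36) (nat_lit 6) (.s true (nat_lit 1) (nat_lit 12) (nat_lit 0) (nat_lit 1) (nat_lit 2) true (nat_lit 6) true (nat_lit 9) true (nat_lit 0) true (nat_lit 11) true (nat_lit 10) (.a false (nat_lit 648) (nat_lit 12) (nat_lit 12) (nat_lit 0) (nat_lit 0) (.e true (nat_lit 36) (nat_lit 56) (nat_lit 2) (nat_lit 9) (.e false (nat_lit 36) (nat_lit 88) (nat_lit 0) (nat_lit 11) (.e true (nat_lit 36) (nat_lit 69) (nat_lit 1) (nat_lit 10) .nil)))))) (.nd (.nd .leaf (nat_lit 31751) (nat_lit 338) (.n (nat_lit 157) (nat_lit 180) (.n (nat_lit 158) (nat_lit 108) (.n (nat_lit 159) (nat_lit 36) (.p (nat_lit 160) (nat_lit 144) (.p (nat_lit 161) (nat_lit 72) (.p (nat_lit 163) (nat_lit 72) (.p (nat_lit 164) (nat_lit 180) (.p (nat_lit 165) (nat_lit 252) (.n (nat_lit 166) (nat_lit 180) (.p (nat_lit 168) (nat_lit 108) (.p (nat_lit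 169) (nat_lit 288) (.p (nat_lit 170) (nat_lit 144) (.p (nat_lit 171) (nat_lit 180) (.p (nat_lit 172) (nat_lit 72) (.n (nat_lit 173) (nat_lit 216) (.p (nat_lit 174) (nat_lit 36) (.p (nat_lit 175) (nat_lit 108) (.n (nat_lit 176) (nat_lit 108) (.p (nat_lit 177) (nat_lit 216) (.n (nat_lit 178) (nat_lit 288) (.p (nat_lit 179) (nat_lit 72) .z))))))))))))))))))))) (.ct dF6as_c291 (nat_lit 36) (nat_lit 3) (.s false (nat_lit 1) (nat_lit 12) (nat_lit 1) (nat_lit 2) (nat_lit 2) true (nat_lit 4) true (nat_lit 8) true (nat_lit 1) true (nat_lit 9) true (nat_lit 8) (.s true (nat_lit 1) (nat_lit 12) (nat_lit 2) (nat_lit 1) (nat_lit 2) true (nat_lit 3) true (nat_lit 8) true (nat_lit 1) true (nat_lit 8) true (nat_lit 9) (.e false (nat_lit 36) (nat_lit 38) (nat_lit 6) (nat_lit 4) (.e false (nat_lit 36) (nat_lit 76) (nat_lit 2) (nat_lit 8) (.e true (nat_lit 36) (nat_lit 103) (nat_lit 1) (nat_lit 9) (.e true (nat_lit 72) (nat_lit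 80) (nat_lit 2) (nat_lit 8) (.e false (nat_lit 36) (nat_lit 88) (nat_lit 2) (nat_lit 8) (.e false (nat_lit 36) (nat_lit 94) (nat_lit 1) (nat_lit 9) .nil))))))))) .leaf) (nat_lit 32768) (nat_lit 72) (.p (nat_lit 61) (nat_lit 36) .z) .df .leaf)) (nat_lit 32770) (nat_lit 106) (.p (nat_lit 77) (nat_lit 36) .z) .df (.nd (.nd (.nd .leaf (nat_lit 32773) (nat_lit 210) (.p (nat_lit 111) (nat_lit 92) (.n (nat_lit 112) (nat_lit 8) (.n (nat_lit 113) (nat_lit 44) (.p (nat_lit 114) (nat_lit 52) (.p (nat_lit 115) (nat_lit 52) (.p (nat_lit 116) (nat_lit 64) (.n (nat_lit 117) (nat_lit 140) (.n (nat_lit 118) (nat_lit 68) (.p (nat_lit 119) (nat_lit 84) (.n (nat_lit 120) (nat_lit 12) (.p (nat_lit 121) (nat_lit 56) (.p (nat_lit 122) (nat_lit 212) (.n (nat_lit 123) (nat_lit 116) (.n (nat_lit 124) (nat_lit 64) (.n (nat_lit 125) (nat_lit 80) (.n (nat_lit 126) (nat_lit 92) (.p (nat_lit 127) (nat_lit 40) (.p (nat_lit 128) (nat_lit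 32) (.p (nat_lit 129) (nat_lit 68) (.n (nat_lit 130) (nat_lit 44) (.p (nat_lit 131) (nat_lit 96) (.n (nat_lit 132) (nat_lit 56) (.p (nat_lit 133) (nat_lit 8) (.n (nat_lit 134) (nat_lit 88) (.n (nat_lit 135) (nat_lit 140) (.p (nat_lit 136) (nat_lit 16) .z)))))))))))))))))))))))))) (.ct dF6as_c546 (nat_lit 36) (nat_lit 6) (.s true (nat_lit 1) (nat_lit 13) (nat_lit 0) (nat_lit 1) (nat_lit 2) true (nat_lit 6) true (nat_lit 9) true (nat_lit 0) true (nat_lit 11) true (nat_lit 10) (.s true (nat_lit 1) (nat_lit 12) (nat_lit 0) (nat_lit 2) (nat_lit 1) true (nat_lit 8) true (nat_lit 10) true (nat_lit 0) true (nat_lit 11) true (nat_lit 9) (.a false (nat_lit 1296) (nat_lit 12) (nat_lit 13) (nat_lit 0) (nat_lit 0) (.e false (nat_lit 36) (nat_lit 54) (nat_lit 2) (nat_lit 9) (.e true (nat_lit 36) (nat_lit 55) (nat_lit 2) (nat_lit 9) (.e true (nat_lit 36) (nat_lit 56) (nat_lit 2) (nat_lit 9) (.e false (nat_lit 36) (nat_lit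 78) (nat_lit 0) (nat_lit 11) (.e false (nat_lit 36) (nat_lit 82) (nat_lit 0) (nat_lit 11) (.e true (nat_lit 36) (nat_lit 86) (nat_lit 0) (nat_lit 11) (.e true (nat_lit 36) (nat_lit 87) (nat_lit 0) (nat_lit 11) (.e true (nat_lit 36) (nat_lit 70) (nat_lit 1) (nat_lit 10) (.e true (nat_lit 36) (nat_lit 38) (nat_lit 3) (nat_lit 8) (.e true (nat_lit 36) (nat_lit 65) (nat_lit 1) (nat_lit 10) (.e true (nat_lit 36) (nat_lit 60) (nat_lit 2) (nat_lit 9) .nil))))))))))))))) .leaf) (nat_lit 32775) (nat_lit 307) (.p (nat_lit 175) (nat_lit 36) .z) .df .leaf) (nat_lit 33792) (nat_lit 73) (.p (nat_lit 62) (nat_lit 36) .z) .df (.nd .leaf (nat_lit 33794) (nat_lit 107) (.p (nat_lit 78) (nat_lit 36) .z) .df .leaf))))))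

noncomputable def dF6as_t2 : Tr := (.nd dF6as_t0 (nat_lit 17418) (nat_lit 228) (.p (nat_lit 111) (nat_lit 80) (.n (nat_lit 112) (nat_lit 32) (.n (nat_lit 113) (nat_lit 32) (.p (nat_lit 114) (nat_lit 64) (.p (nat_lit 115) (nat_lit 64) (.p (nat_lit 116) (nat_lit 112) (.n (nat_lit 117) (nat_lit 128) (.n (nat_lit 118) (nat_lit 56) (.p (nat_lit 119) (nat_lit 120) (.p (nat_lit 120) (nat_lit 96) (.p (nat_lit 121) (nat_lit 8) (.p (nat_lit 122) (nat_lit 164) (.p (nat_lit 123) (nat_lit 4) (.n (nat_lit 124) (nat_lit 148) (.n (nat_lit 125) (nat_lit 32) (.n (nat_lit 126) (nat_lit 8) (.p (nat_lit 127) (nat_lit 16) (.n (nat_lit 128) (nat_lit 16) (.p (nat_lit 129) (nat_lit 56) (.p (nat_lit 130) (nat_lit 4) (.p (nat_lit 131) (nat_lit 132) (.n (nat_lit 132) (nat_lit 116) (.n (nat_lit 133) (nat_lit 4) (.n (nat_lit 134) (nat_lit 64) (.n (nat_lit 135) (nat_lit 128) (.p (nat_lit 136) (nat_lit 64) .z))))))))))))))))))))))))))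 (.ct dF6as_c546 (nat_lit 36) (nat_lit 2) (.s false (nat_lit 1) (nat_lit 17) (nat_lit 1) (nat_lit 1) (nat_lit 0) true (nat_lit 8) true (nat_lit 11) false (nat_lit 2) true (nat_lit 10) true (nat_lit 10) (.e false (nat_lit 36) (nat_lit 41) (nat_lit 3) (nat_lit 8) (.e false (nat_lit 36) (nat_lit 83) (nat_lit 0) (nat_lit 11) (.e false (nat_lit 36) (nat_lit 64) (nat_lit 1) (nat_lit 10) (.e false (nat_lit 36) (nat_lit 66) (nat_lit 1) (nat_lit 10) (.e true (nat_lit 36) (nat_lit 68) (nat_lit 1) (nat_lit 10) (.e false (nat_lit 36) (nat_lit 69) (nat_lit 1) (nat_lit 10) (.e true (nat_lit 72) (nat_lit 70) (nat_lit 1) (nat_lit 10) (.e true (nat_lit 36) (nat_lit 73) (nat_lit 1) (nat_lit 10) (.e true (nat_lit 72) (nat_lit 74) (nat_lit 1) (nat_lit 10) (.e false (nat_lit 36) (nat_lit 67) (nat_lit 1) (nat_lit 10) .nil)))))))))))) dF6as_t1)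

noncomputable def dF6as_t3 : Tr := (.nd (.nd (.nd (.nd (.nd (.nd (.nd .leaf (nat_lit 33799) (nat_lit 320) (.n (nat_lit 157) (nat_lit 24) (.p (nat_lit 158) (nat_lit 24) (.n (nat_lit 159) (nat_lit 24) (.p (nat_lit 160) (nat_lit 36) (.n (nat_lit 161) (nat_lit 12) (.n (nat_lit 162) (nat_lit 72) (.n (nat_lit 163) (nat_lit 24) (.p (nat_lit 164) (nat_lit 48) (.p (nat_lit 165) (nat_lit 48) (.n (nat_lit 166) (nat_lit 60) (.n (nat_lit 167) (nat_lit 12) (.n (nat_lit 168) (nat_lit 12) (.p (nat_lit 169) (nat_lit 12) (.p (nat_lit 170) (nat_lit 60) (.p (nat_lit 171) (nat_lit 60) (.n (nat_lit 172) (nat_lit 12) (.n (nat_lit 173) (nat_lit 60) (.p (nat_lit 174) (nat_lit 36) (.p (nat_lit 175) (nat_lit 12) (.n (nat_lit 176) (nat_lit 24) (.p (nat_lit 177) (nat_lit 60) (.n (nat_lit 178) (nat_lit 48) (.p (nat_lit 179) (nat_lit 48) .z))))))))))))))))))))))) (.ct dF6as_c291 (nat_lit 36) (nat_lit 3) (.s false (nat_lit 3) (nat_lit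 6) (nat_lit 0) (nat_lit 2) (nat_lit 6) true (nat_lit 1) true (nat_lit 4) true (nat_lit 4) true (nat_lit 10) true (nat_lit 8) (.s true (nat_lit 3) (nat_lit 6) (nat_lit 0) (nat_lit 6) (nat_lit 2) true (nat_lit 5) true (nat_lit 8) true (nat_lit 4) true (nat_lit 10) true (nat_lit 4) (.s false (nat_lit 2) (nat_lit 6) (nat_lit 2) (nat_lit 2) (nat_lit 3) true (nat_lit 1) true (nat_lit 7) true (nat_lit 4) true (nat_lit 8) true (nat_lit 8) (.s false (nat_lit 4) (nat_lit 6) (nat_lit 5) (nat_lit 2) (nat_lit 1) true (nat_lit 1) true (nat_lit 9) true (nat_lit 4) true (nat_lit 5) true (nat_lit 8) (.s true (nat_lit 1) (nat_lit 14) (nat_lit 2) (nat_lit 1) (nat_lit 2) true (nat_lit 3) true (nat_lit 8) true (nat_lit 1) true (nat_lit 8) true (nat_lit 9) (.s true (nat_lit 4) (nat_lit 19) (nat_lit 0) (nat_lit 2) (nat_lit 1) true (nat_lit 7) true (nat_lit 9) false (nat_lit 1) true (nat_lit 10) true (nat_lit 8) (.s false (nat_lit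 2) (nat_lit 19) (nat_lit 1) (nat_lit 0) (nat_lit 2) true (nat_lit 4) true (nat_lit 8) false (nat_lit 1) true (nat_lit 9) true (nat_lit 10) (.s false (nat_lit 2) (nat_lit 19) (nat_lit 1) (nat_lit 2) (nat_lit 0) true (nat_lit 7) true (nat_lit 10) false (nat_lit 1) true (nat_lit 9) true (nat_lit 8) (.e false (nat_lit 144) (nat_lit 40) (nat_lit 6) (nat_lit 4) (.e false (nat_lit 108) (nat_lit 38) (nat_lit 6) (nat_lit 4) (.e true (nat_lit 36) (nat_lit 39) (nat_lit 6) (nat_lit 4) (.e true (nat_lit 108) (nat_lit 42) (nat_lit 6) (nat_lit 4) (.e true (nat_lit 144) (nat_lit 43) (nat_lit 6) (nat_lit 4) (.e false (nat_lit 144) (nat_lit 107) (nat_lit 0) (nat_lit 10) (.e false (nat_lit 72) (nat_lit 78) (nat_lit 2) (nat_lit 8) (.e true (nat_lit 108) (nat_lit 82) (nat_lit 2) (nat_lit 8) (.e false (nat_lit 72) (nat_lit 41) (nat_lit 6) (nat_lit 4) (.e false (nat_lit 144) (nat_lit 94) (nat_lit 1) (nat_lit 9) (.e true (nat_lit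 144) (nat_lit 95) (nat_lit 1) (nat_lit 9) (.e true (nat_lit 144) (nat_lit 98) (nat_lit 1) (nat_lit 9) (.e true (nat_lit 288) (nat_lit 99) (nat_lit 1) (nat_lit 9) (.e false (nat_lit 36) (nat_lit 96) (nat_lit 1) (nat_lit 9) (.e false (nat_lit 72) (nat_lit 110) (nat_lit 0) (nat_lit 10) .nil)))))))))))))))))))))))) .leaf) (nat_lit 34816) (nat_lit 74) (.p (nat_lit 63) (nat_lit 36) .z) .df .leaf) (nat_lit 34818) (nat_lit 108) (.p (nat_lit 79) (nat_lit 36) .z) .df (.nd (.nd .leaf (nat_lit 34821) (nat_lit 206) (.p (nat_lit 111) (nat_lit 24) (.n (nat_lit 112) (nat_lit 24) (.p (nat_lit 113) (nat_lit 12) (.p (nat_lit 114) (nat_lit 84) (.p (nat_lit 115) (nat_lit 48) (.n (nat_lit 116) (nat_lit 24) (.n (nat_lit 117) (nat_lit 60) (.n (nat_lit 118) (nat_lit 60) (.p (nat_lit 120) (nat_lit 36) (.p (nat_lit 121) (nat_lit 24) (.p (nat_lit 122) (nat_lit 60) (.p (nat_lit 123) (nat_lit 12) (.p (nat_lit 124) (nat_lit 24) (.n (nat_lit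 125) (nat_lit 24) (.n (nat_lit 126) (nat_lit 24) (.n (nat_lit 127) (nat_lit 60) (.p (nat_lit 128) (nat_lit 24) (.p (nat_lit 129) (nat_lit 60) (.n (nat_lit 130) (nat_lit 24) (.p (nat_lit 131) (nat_lit 36) (.n (nat_lit 132) (nat_lit 96) (.n (nat_lit 133) (nat_lit 12) (.p (nat_lit 134) (nat_lit 60) (.p (nat_lit 135) (nat_lit 12) (.n (nat_lit 136) (nat_lit 24) .z))))))))))))))))))))))))) (.ct dF6as_c546 (nat_lit 36) (nat_lit 6) (.s true (nat_lit 1) (nat_lit 5) (nat_lit 1) (nat_lit 2) (nat_lit 3) true (nat_lit 2) true (nat_lit 8) true (nat_lit 6) true (nat_lit 10) true (nat_lit 9) (.s true (nat_lit 1) (nat_lit 9) (nat_lit 0) (nat_lit 2) (nat_lit 2) true (nat_lit 6) true (nat_lit 9) true (nat_lit 2) true (nat_lit 11) true (nat_lit 9) (.s false (nat_lit 1) (nat_lit 13) (nat_lit 0) (nat_lit 1) (nat_lit 2) true (nat_lit 6) true (nat_lit 9) true (nat_lit 0) true (nat_lit 11) true (nat_lit 10) (.s false (nat_lit 2)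 (nat_lit 12) (nat_lit 0) (nat_lit 2) (nat_lit 1) true (nat_lit 8) true (nat_lit 10) true (nat_lit 0) true (nat_lit 11) true (nat_lit 9) (.s true (nat_lit 1) (nat_lit 12) (nat_lit 1) (nat_lit 0) (nat_lit 2) true (nat_lit 5) true (nat_lit 9) true (nat_lit 0) true (nat_lit 10) true (nat_lit 11) dF6as_i10)))))) .leaf) (nat_lit 34823) (nat_lit 312) (.p (nat_lit 157) (nat_lit 147) (.p (nat_lit 158) (nat_lit 105) (.p (nat_lit 159) (nat_lit 111) (.n (nat_lit 160) (nat_lit 189) (.p (nat_lit 161) (nat_lit 69) (.p (nat_lit 162) (nat_lit 72) (.n (nat_lit 163) (nat_lit 6) (.n (nat_lit 164) (nat_lit 105) (.p (nat_lit 165) (nat_lit 12) (.p (nat_lit 166) (nat_lit 57) (.n (nat_lit 167) (nat_lit 12) (.p (nat_lit 168) (nat_lit 60) (.p (nat_lit 169) (nat_lit 30) (.n (nat_lit 170) (nat_lit 156) (.n (nat_lit 171) (nat_lit 111) (.p (nat_lit 172) (nat_lit 24) (.p (nat_lit 173) (nat_lit 120) (.n (nat_lit 174) (nat_lit 63) (.n (nat_lit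 175) (nat_lit 87) (.p (nat_lit 176) (nat_lit 165) (.n (nat_lit 177) (nat_lit 129) (.p (nat_lit 178) (nat_lit 60) (.n (nat_lit 179) (nat_lit 78) .z))))))))))))))))))))))) (.ct dF6as_c291 (nat_lit 6718464) (nat_lit 3) (.s false (nat_lit 93312) (nat_lit 5) (nat_lit 4) (nat_lit 2) (nat_lit 2) true (nat_lit 0) true (nat_lit 8) true (nat_lit 5) true (nat_lit 6) true (nat_lit 8) (.s false (nat_lit 440640) (nat_lit 6) (nat_lit 0) (nat_lit 2) (nat_lit 6) true (nat_lit 1) true (nat_lit 4) true (nat_lit 4) true (nat_lit 10) true (nat_lit 8) (.s false (nat_lit 106272) (nat_lit 6) (nat_lit 0) (nat_lit 6) (nat_lit 2) true (nat_lit 5) true (nat_lit 8) true (nat_lit 4) true (nat_lit 10) true (nat_lit 4) (.s true (nat_lit 1262304) (nat_lit 6) (nat_lit 1) (nat_lit 5) (nat_lit 2) true (nat_lit 4) true (nat_lit 8) true (nat_lit 4) true (nat_lit 9) true (nat_lit 5) (.s true (nat_lit 186624) (nat_lit 6) (nat_lit 2) (nat_lit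 2) (nat_lit 3) true (nat_lit 1) true (nat_lit 7) true (nat_lit 4) true (nat_lit 8) true (nat_lit 8) (.s false (nat_lit 461376) (nat_lit 6) (nat_lit 2) (nat_lit 3) (nat_lit 2) true (nat_lit 3) true (nat_lit 8) true (nat_lit 4) true (nat_lit 8) true (nat_lit 7) (.s false (nat_lit 982368) (nat_lit 6) (nat_lit 2) (nat_lit 5) (nat_lit 1) true (nat_lit 4) true (nat_lit 9) true (nat_lit 4) true (nat_lit 8) true (nat_lit 5) (.s false (nat_lit 1130112) (nat_lit 6) (nat_lit 3) (nat_lit 2) (nat_lit 2) true (nat_lit 1) true (nat_lit 8) true (nat_lit 4) true (nat_lit 7) true (nat_lit 8) (.s true (nat_lit 1467072) (nat_lit 6) (nat_lit 5) (nat_lit 2) (nat_lit 1) true (nat_lit 1) true (nat_lit 9) true (nat_lit 4) true (nat_lit 5) true (nat_lit 8) (.s false (nat_lit 45360) (nat_lit 7) (nat_lit 0) (nat_lit 1) (nat_lit 6) true (nat_lit 1) true (nat_lit 4) true (nat_lit 3) true (nat_lit 10) true (nat_lit 9) dF6as_i14)))))))))))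 .leaf)) (nat_lit 35841) (nat_lit 87) (.p (nat_lit 67) (nat_lit 36) .z) .df (.nd (.nd (.nd .leaf (nat_lit 35842) (nat_lit 130) (.p (nat_lit 89) (nat_lit 36) .z) .df .leaf) (nat_lit 35844) (nat_lit 231) (.n (nat_lit 111) (nat_lit 8) (.p (nat_lit 112) (nat_lit 32) (.n (nat_lit 113) (nat_lit 4) (.p (nat_lit 114) (nat_lit 44) (.p (nat_lit 115) (nat_lit 8) (.n (nat_lit 116) (nat_lit 40) (.p (nat_lit 117) (nat_lit 20) (.n (nat_lit 118) (nat_lit 16) (.n (nat_lit 119) (nat_lit 48) (.p (nat_lit 120) (nat_lit 12) (.n (nat_lit 121) (nat_lit 8) (.n (nat_lit 122) (nat_lit 56) (.p (nat_lit 123) (nat_lit 32) (.p (nat_lit 124) (nat_lit 76) (.p (nat_lit 125) (nat_lit 32) (.p (nat_lit 126) (nat_lit 8) (.n (nat_lit 127) (nat_lit 52) (.p (nat_lit 128) (nat_lit 16) (.p (nat_lit 129) (nat_lit 52) (.n (nat_lit 130) (nat_lit 4) (.n (nat_lit 131) (nat_lit 24) (.n (nat_lit 132) (nat_lit 28) (.n (nat_lit 133) (nat_lit 32) (.p (nat_lit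 134) (nat_lit 100) (.p (nat_lit 135) (nat_lit 20) (.p (nat_lit 136) (nat_lit 8) .z)))))))))))))))))))))))))) (.ct dF6as_c546 (nat_lit 36) (nat_lit 7) (.s true (nat_lit 1) (nat_lit 11) (nat_lit 1) (nat_lit 2) (nat_lit 1) true (nat_lit 7) true (nat_lit 10) true (nat_lit 1) true (nat_lit 10) true (nat_lit 9) (.e true (nat_lit 36) (nat_lit 64) (nat_lit 1) (nat_lit 10) (.e false (nat_lit 36) (nat_lit 16) (nat_lit 11) (nat_lit 1) (.e true (nat_lit 36) (nat_lit 66) (nat_lit 1) (nat_lit 10) (.e true (nat_lit 36) (nat_lit 69) (nat_lit 1) (nat_lit 10) (.e false (nat_lit 36) (nat_lit 70) (nat_lit 1) (nat_lit 10) (.e false (nat_lit 36) (nat_lit 71) (nat_lit 1) (nat_lit 10) (.e false (nat_lit 36) (nat_lit 73) (nat_lit 1) (nat_lit 10) (.e false (nat_lit 36) (nat_lit 74) (nat_lit 1) (nat_lit 10) (.e false (nat_lit 36) (nat_lit 55) (nat_lit 2) (nat_lit 9) .nil))))))))))) .leaf) (nat_lit 35846) (nat_lit 285) (.p (nat_lit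 138) (nat_lit 18) (.n (nat_lit 139) (nat_lit 18) (.p (nat_lit 140) (nat_lit 54) (.p (nat_lit 141) (nat_lit 18) (.n (nat_lit 142) (nat_lit 36) (.n (nat_lit 143) (nat_lit 18) (.p (nat_lit 144) (nat_lit 18) (.n (nat_lit 147) (nat_lit 36) (.n (nat_lit 148) (nat_lit 126) (.p (nat_lit 149) (nat_lit 54) (.p (nat_lit 150) (nat_lit 126) (.p (nat_lit 151) (nat_lit 18) (.p (nat_lit 152) (nat_lit 90) (.p (nat_lit 154) (nat_lit 108) (.n (nat_lit 155) (nat_lit 54) (.n (nat_lit 156) (nat_lit 72) .z)))))))))))))))) (.ct dF6as_c531 (nat_lit 36) (nat_lit 4) (.s true (nat_lit 1) (nat_lit 11) (nat_lit 1) (nat_lit 2) (nat_lit 2) true (nat_lit 4) true (nat_lit 7) true (nat_lit 1) true (nat_lit 8) true (nat_lit 7) (.e true (nat_lit 36) (nat_lit 64) (nat_lit 2) (nat_lit 7) (.e false (nat_lit 36) (nat_lit 19) (nat_lit 11) (nat_lit 1) (.e true (nat_lit 36) (nat_lit 90) (nat_lit 1) (nat_lit 8) (.e false (nat_lit 72) (nat_lit 92)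 (nat_lit 1) (nat_lit 8) (.e false (nat_lit 36) (nat_lit 93) (nat_lit 1) (nat_lit 8) (.e false (nat_lit 36) (nat_lit 67) (nat_lit 2) (nat_lit 7) .nil)))))))) (.nd (.nd .leaf (nat_lit 36865) (nat_lit 98) (.n (nat_lit 64) (nat_lit 72) (.n (nat_lit 65) (nat_lit 72) (.n (nat_lit 67) (nat_lit 36) (.n (nat_lit 69) (nat_lit 72) (.p (nat_lit 70) (nat_lit 36) (.p (nat_lit 71) (nat_lit 36) (.p (nat_lit 72) (nat_lit 36) (.p (nat_lit 73) (nat_lit 72) (.p (nat_lit 74) (nat_lit 108) .z))))))))) (.ct dF6as_c530 (nat_lit 36) (nat_lit 5) (.s false (nat_lit 1) (nat_lit 5) (nat_lit 1) (nat_lit 2) (nat_lit 0) true (nat_lit 3) true (nat_lit 6) true (nat_lit 2) true (nat_lit 5) true (nat_lit 4) (.s false (nat_lit 1) (nat_lit 6) (nat_lit 2) (nat_lit 0) (nat_lit 0) true (nat_lit 2) true (nat_lit 6) true (nat_lit 1) true (nat_lit 4) true (nat_lit 6) (.e false (nat_lit 36) (nat_lit 17) (nat_lit 3) (nat_lit 3) (.e false (nat_lit 36)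 (nat_lit 39) (nat_lit 0) (nat_lit 6) (.e true (nat_lit 36) (nat_lit 35) (nat_lit 1) (nat_lit 5) (.e false (nat_lit 36) (nat_lit 37) (nat_lit 1) (nat_lit 5) (.e true (nat_lit 36) (nat_lit 26) (nat_lit 2) (nat_lit 4) (.e false (nat_lit 36) (nat_lit 43) (nat_lit 0) (nat_lit 6) (.e false (nat_lit 36) (nat_lit 11) (nat_lit 6) (nat_lit 1) (.e true (nat_lit 36) (nat_lit 40) (nat_lit 0) (nat_lit 6) .nil))))))))))) .leaf) (nat_lit 36866) (nat_lit 137) (.n (nat_lit 89) (nat_lit 36) (.p (nat_lit 92) (nat_lit 36) (.p (nat_lit 93) (nat_lit 36) .z))) (.ct dF6as_c515 (nat_lit 36) (nat_lit 2) (.s true (nat_lit 1) (nat_lit 5) (nat_lit 0) (nat_lit 2) (nat_lit 2) true (nat_lit 1) true (nat_lit 2) true (nat_lit 1) true (nat_lit 3) true (nat_lit 2) (.e true (nat_lit 36) (nat_lit 35) (nat_lit 2) (nat_lit 2) (.e false (nat_lit 36) (nat_lit 48) (nat_lit 0) (nat_lit 3) (.e false (nat_lit 36) (nat_lit 49) (nat_lit 0) (nat_lit 3)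 .nil))))) .leaf))) (nat_lit 36870) (nat_lit 272) (.n (nat_lit 137) (nat_lit 72) (.n (nat_lit 138) (nat_lit 18) (.n (nat_lit 139) (nat_lit 54) (.n (nat_lit 140) (nat_lit 54) (.p (nat_lit 141) (nat_lit 54) (.p (nat_lit 142) (nat_lit 36) (.p (nat_lit 143) (nat_lit 54) (.p (nat_lit 144) (nat_lit 18) (.n (nat_lit 145) (nat_lit 36) (.n (nat_lit 146) (nat_lit 72) (.p (nat_lit 147) (nat_lit 144) (.p (nat_lit 148) (nat_lit 54) (.n (nat_lit 149) (nat_lit 54) (.n (nat_lit 150) (nat_lit 90) (.n (nat_lit 151) (nat_lit 126) (.n (nat_lit 152) (nat_lit 270) (.p (nat_lit 153) (nat_lit 36) (.n (nat_lit 154) (nat_lit 144) (.p (nat_lit 155) (nat_lit 126) (.p (nat_lit 156) (nat_lit 36) .z)))))))))))))))))))) (.ct dF6as_c531 (nat_lit 36) (nat_lit 4) (.s true (nat_lit 1) (nat_lit 6) (nat_lit 2) (nat_lit 5) (nat_lit 0) true (nat_lit 5) true (nat_lit 9) true (nat_lit 4) true (nat_lit 7) true (nat_lit 5) (.e true (nat_lit 36) (nat_lit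 38) (nat_lit 5) (nat_lit 5) (.e false (nat_lit 36) (nat_lit 39) (nat_lit 5) (nat_lit 5) (.e false (nat_lit 36) (nat_lit 42) (nat_lit 5) (nat_lit 5) (.e false (nat_lit 36) (nat_lit 43) (nat_lit 5) (nat_lit 5) (.e true (nat_lit 36) (nat_lit 95) (nat_lit 0) (nat_lit 9) (.e false (nat_lit 36) (nat_lit 97) (nat_lit 0) (nat_lit 9) (.e false (nat_lit 36) (nat_lit 100) (nat_lit 0) (nat_lit 9) (.e false (nat_lit 36) (nat_lit 101) (nat_lit 0) (nat_lit 9) (.e true (nat_lit 36) (nat_lit 104) (nat_lit 0) (nat_lit 9) (.e true (nat_lit 36) (nat_lit 66) (nat_lit 2) (nat_lit 7) (.e true (nat_lit 36) (nat_lit 69) (nat_lit 2) (nat_lit 7) (.e false (nat_lit 36) (nat_lit 70) (nat_lit 2) (nat_lit 7) (.e false (nat_lit 36) (nat_lit 71) (nat_lit 2) (nat_lit 7) (.e false (nat_lit 36) (nat_lit 73) (nat_lit 2) (nat_lit 7) (.e false (nat_lit 36) (nat_lit 74) (nat_lit 2) (nat_lit 7) (.e false (nat_lit 36) (nat_lit 40) (nat_lit 5) (nat_lit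 5) .nil)))))))))))))))))) (.nd (.nd (.nd (.nd .leaf (nat_lit 37889) (nat_lit 88) (.p (nat_lit 68) (nat_lit 36) .z) .df .leaf) (nat_lit 37890) (nat_lit 131) (.p (nat_lit 90) (nat_lit 36) .z) .df .leaf) (nat_lit 37892) (nat_lit 212) (.p (nat_lit 111) (nat_lit 184) (.p (nat_lit 112) (nat_lit 56) (.p (nat_lit 113) (nat_lit 20) (.p (nat_lit 114) (nat_lit 140) (.p (nat_lit 115) (nat_lit 176) (.p (nat_lit 116) (nat_lit 56) (.n (nat_lit 117) (nat_lit 388) (.n (nat_lit 118) (nat_lit 208) (.p (nat_lit 119) (nat_lit 96) (.n (nat_lit 120) (nat_lit 132) (.p (nat_lit 121) (nat_lit 184) (.p (nat_lit 122) (nat_lit 532) (.n (nat_lit 123) (nat_lit 268) (.n (nat_lit 124) (nat_lit 56) (.n (nat_lit 125) (nat_lit 160) (.n (nat_lit 126) (nat_lit 184) (.p (nat_lit 127) (nat_lit 44) (.p (nat_lit 128) (nat_lit 136) (.p (nat_lit 129) (nat_lit 208) (.n (nat_lit 130) (nat_lit 160) (.p (nat_lit 131) (nat_lit 228) (.n (nat_lit 132) (nat_lit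 184) (.p (nat_lit 133) (nat_lit 52) (.n (nat_lit 134) (nat_lit 140) (.n (nat_lit 135) (nat_lit 316) (.n (nat_lit 136) (nat_lit 40) .z)))))))))))))))))))))))))) (.ct dF6as_c546 (nat_lit 36) (nat_lit 7) (.s true (nat_lit 1) (nat_lit 7) (nat_lit 0) (nat_lit 0) (nat_lit 4) true (nat_lit 2) true (nat_lit 7) true (nat_lit 4) true (nat_lit 11) true (nat_lit 11) (.s false (nat_lit 1) (nat_lit 15) (nat_lit 0) (nat_lit 0) (nat_lit 2) true (nat_lit 6) true (nat_lit 9) false (nat_lit 1) true (nat_lit 11) true (nat_lit 11) (.s true (nat_lit 1) (nat_lit 18) (nat_lit 1) (nat_lit 1) (nat_lit 0) true (nat_lit 8) true (nat_lit 11) false (nat_lit 2) true (nat_lit 10) true (nat_lit 10) (.e false (nat_lit 72) (nat_lit 77) (nat_lit 0) (nat_lit 11) (.e false (nat_lit 72) (nat_lit 78) (nat_lit 0) (nat_lit 11) (.e false (nat_lit 36) (nat_lit 79) (nat_lit 0) (nat_lit 11) (.e true (nat_lit 72) (nat_lit 81) (nat_lit 0) (nat_lit 11)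 (.e false (nat_lit 72) (nat_lit 82) (nat_lit 0) (nat_lit 11) (.e true (nat_lit 144) (nat_lit 87) (nat_lit 0) (nat_lit 11) (.e true (nat_lit 72) (nat_lit 88) (nat_lit 0) (nat_lit 11) (.e false (nat_lit 36) (nat_lit 34) (nat_lit 5) (nat_lit 6) (.e false (nat_lit 36) (nat_lit 63) (nat_lit 2) (nat_lit 9) (.e true (nat_lit 36) (nat_lit 42) (nat_lit 3) (nat_lit 8) (.e true (nat_lit 36) (nat_lit 84) (nat_lit 0) (nat_lit 11) (.e false (nat_lit 72) (nat_lit 68) (nat_lit 1) (nat_lit 10) (.e false (nat_lit 72) (nat_lit 69) (nat_lit 1) (nat_lit 10) (.e true (nat_lit 72) (nat_lit 72) (nat_lit 1) (nat_lit 10) (.e true (nat_lit 36) (nat_lit 73) (nat_lit 1) (nat_lit 10) (.e true (nat_lit 72) (nat_lit 74) (nat_lit 1) (nat_lit 10) .nil)))))))))))))))))))) (.nd (.nd .leaf (nat_lit 37894) (nat_lit 277) (.n (nat_lit 137) (nat_lit 72) (.n (nat_lit 139) (nat_lit 36) (.n (nat_lit 140) (nat_lit 36) (.p (nat_lit 141) (nat_lit 36)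 (.p (nat_lit 144) (nat_lit 36) (.n (nat_lit 145) (nat_lit 36) (.n (nat_lit 146) (nat_lit 72) (.n (nat_lit 147) (nat_lit 36) (.n (nat_lit 148) (nat_lit 72) (.p (nat_lit 149) (nat_lit 72) (.p (nat_lit 150) (nat_lit 108) (.p (nat_lit 151) (nat_lit 36) (.p (nat_lit 152) (nat_lit 108) (.p (nat_lit 153) (nat_lit 36) (.p (nat_lit 154) (nat_lit 72) (.n (nat_lit 155) (nat_lit 36) (.n (nat_lit 156) (nat_lit 36) .z))))))))))))))))) (.ct dF6as_c531 (nat_lit 36) (nat_lit 4) (.s false (nat_lit 1) (nat_lit 7) (nat_lit 0) (nat_lit 6) (nat_lit 0) false (nat_lit 10) true (nat_lit 9) true (nat_lit 3) true (nat_lit 9) true (nat_lit 4) (.e true (nat_lit 72) (nat_lit 94) (nat_lit 0) (nat_lit 9) (.e false (nat_lit 36) (nat_lit 95) (nat_lit 0) (nat_lit 9) (.e false (nat_lit 72) (nat_lit 98) (nat_lit 0) (nat_lit 9) (.e false (nat_lit 108) (nat_lit 99) (nat_lit 0) (nat_lit 9) (.e true (nat_lit 36) (nat_lit 28) (nat_lit 7) (nat_lit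 3) (.e false (nat_lit 36) (nat_lit 96) (nat_lit 0) (nat_lit 9) (.e false (nat_lit 36) (nat_lit 97) (nat_lit 0) (nat_lit 9) (.e false (nat_lit 36) (nat_lit 100) (nat_lit 0) (nat_lit 9) (.e false (nat_lit 36) (nat_lit 101) (nat_lit 0) (nat_lit 9) .nil))))))))))) .leaf) (nat_lit 38912) (nat_lit 89) (.p (nat_lit 69) (nat_lit 36) .z) .df .leaf)) (nat_lit 38913) (nat_lit 109) (.p (nat_lit 80) (nat_lit 36) .z) .df (.nd (.nd (.nd .leaf (nat_lit 38914) (nat_lit 139) (.p (nat_lit 94) (nat_lit 36) .z) .df .leaf) (nat_lit 38915) (nat_lit 205) (.n (nat_lit 111) (nat_lit 20) (.p (nat_lit 112) (nat_lit 8) (.p (nat_lit 113) (nat_lit 44) (.p (nat_lit 114) (nat_lit 20) (.p (nat_lit 115) (nat_lit 20) (.n (nat_lit 116) (nat_lit 28) (.n (nat_lit 117) (nat_lit 4) (.n (nat_lit 118) (nat_lit 4) (.n (nat_lit 119) (nat_lit 12) (.p (nat_lit 120) (nat_lit 12) (.p (nat_lit 121) (nat_lit 16) (.n (nat_lit 122) (nat_lit 32) (.p (nat_lit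 123) (nat_lit 44) (.n (nat_lit 124) (nat_lit 8) (.p (nat_lit 125) (nat_lit 8) (.p (nat_lit 126) (nat_lit 20) (.n (nat_lit 127) (nat_lit 40) (.p (nat_lit 128) (nat_lit 4) (.p (nat_lit 129) (nat_lit 4) (.p (nat_lit 130) (nat_lit 8) (.n (nat_lit 131) (nat_lit 24) (.n (nat_lit 132) (nat_lit 16) (.n (nat_lit 133) (nat_lit 8) (.p (nat_lit 134) (nat_lit 16) (.n (nat_lit 135) (nat_lit 4) (.n (nat_lit 136) (nat_lit 16) .z)))))))))))))))))))))))))) (.ct dF6as_c546 (nat_lit 36) (nat_lit 8) (.s false (nat_lit 1) (nat_lit 5) (nat_lit 1) (nat_lit 2) (nat_lit 3) true (nat_lit 2) true (nat_lit 8) true (nat_lit 6) true (nat_lit 10) true (nat_lit 9) (.s true (nat_lit 1) (nat_lit 5) (nat_lit 2) (nat_lit 1) (nat_lit 3) true (nat_lit 0) true (nat_lit 8) true (nat_lit 6) true (nat_lit 9) true (nat_lit 10) (.s true (nat_lit 1) (nat_lit 12) (nat_lit 0) (nat_lit 2) (nat_lit 1) true (nat_lit 8) true (nat_lit 10) true (nat_lit 0)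 true (nat_lit 11) true (nat_lit 9) (.e false (nat_lit 36) (nat_lit 17) (nat_lit 9) (nat_lit 2) (.e false (nat_lit 36) (nat_lit 39) (nat_lit 3) (nat_lit 8) (.e true (nat_lit 108) (nat_lit 65) (nat_lit 1) (nat_lit 10) (.e true (nat_lit 36) (nat_lit 70) (nat_lit 1) (nat_lit 10) (.e false (nat_lit 36) (nat_lit 71) (nat_lit 1) (nat_lit 10) (.e false (nat_lit 36) (nat_lit 56) (nat_lit 2) (nat_lit 9) (.e true (nat_lit 36) (nat_lit 57) (nat_lit 2) (nat_lit 9) (.e true (nat_lit 36) (nat_lit 41) (nat_lit 3) (nat_lit 8) (.e true (nat_lit 36) (nat_lit 59) (nat_lit 2) (nat_lit 9) (.e true (nat_lit 72) (nat_lit 60) (nat_lit 2) (nat_lit 9) (.e false (nat_lit 72) (nat_lit 61) (nat_lit 2) (nat_lit 9) (.e false (nat_lit 36) (nat_lit 62) (nat_lit 2) (nat_lit 9) (.e false (nat_lit 36) (nat_lit 63) (nat_lit 2) (nat_lit 9) (.e true (nat_lit 36) (nat_lit 64) (nat_lit 1) (nat_lit 10) (.e false (nat_lit 36) (nat_lit 66) (nat_lit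 1) (nat_lit 10) (.e false (nat_lit 36) (nat_lit 88) (nat_lit 0) (nat_lit 11) .nil)))))))))))))))))))) .leaf) (nat_lit 38917) (nat_lit 259) (.n (nat_lit 139) (nat_lit 36) (.n (nat_lit 143) (nat_lit 36) (.n (nat_lit 147) (nat_lit 72) (.n (nat_lit 148) (nat_lit 72) (.p (nat_lit 149) (nat_lit 72) (.p (nat_lit 150) (nat_lit 108) (.p (nat_lit 151) (nat_lit 36) (.p (nat_lit 152) (nat_lit 108) (.p (nat_lit 154) (nat_lit 72) (.n (nat_lit 155) (nat_lit 36) (.n (nat_lit 156) (nat_lit 36) .z))))))))))) (.ct dF6as_c531 (nat_lit 36) (nat_lit 5) (.s false (nat_lit 1) (nat_lit 5) (nat_lit 2) (nat_lit 2) (nat_lit 3) true (nat_lit 0) true (nat_lit 6) true (nat_lit 5) true (nat_lit 7) true (nat_lit 7) (.s true (nat_lit 2) (nat_lit 6) (nat_lit 0) (nat_lit 5) (nat_lit 2) true (nat_lit 5) true (nat_lit 7) true (nat_lit 4) true (nat_lit 9) true (nat_lit 5) dF6as_i12))) (.nd .leaf (nat_lit 38918) (nat_lit 308) (.p (nat_lit 176)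 (nat_lit 36) .z) .df .leaf)))) (nat_lit 39936) (nat_lit 90) (.p (nat_lit 70) (nat_lit 36) .z) .df (.nd (.nd (.nd (.nd (.nd .leaf (nat_lit 39937) (nat_lit 110) (.p (nat_lit 81) (nat_lit 36) .z) .df .leaf) (nat_lit 39938) (nat_lit 140) (.p (nat_lit 95) (nat_lit 36) .z) .df .leaf) (nat_lit 39939) (nat_lit 203) (.n (nat_lit 111) (nat_lit 88) (.n (nat_lit 112) (nat_lit 8) (.p (nat_lit 113) (nat_lit 28) (.n (nat_lit 114) (nat_lit 92) (.n (nat_lit 115) (nat_lit 128) (.n (nat_lit 116) (nat_lit 44) (.p (nat_lit 117) (nat_lit 148) (.p (nat_lit 118) (nat_lit 112) (.n (nat_lit 119) (nat_lit 96) (.p (nat_lit 120) (nat_lit 24) (.n (nat_lit 121) (nat_lit 124) (.n (nat_lit 122) (nat_lit 256) (.p (nat_lit 123) (nat_lit 136) (.p (nat_lit 124) (nat_lit 44) (.p (nat_lit 125) (nat_lit 136) (.p (nat_lit 126) (nat_lit 160) (.p (nat_lit 127) (nat_lit 4) (.n (nat_lit 128) (nat_lit 76) (.n (nat_lit 129) (nat_lit 148) (.p (nat_lit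 130) (nat_lit 28) (.n (nat_lit 131) (nat_lit 84) (.p (nat_lit 132) (nat_lit 124) (.p (nat_lit 133) (nat_lit 44) (.n (nat_lit 134) (nat_lit 16) (.p (nat_lit 135) (nat_lit 184) (.p (nat_lit 136) (nat_lit 16) .z)))))))))))))))))))))))))) (.ct dF6as_c546 (nat_lit 36) (nat_lit 8) dF6as_i8) (.nd (.nd .leaf (nat_lit 39941) (nat_lit 261) (.n (nat_lit 140) (nat_lit 36) (.n (nat_lit 143) (nat_lit 18) (.n (nat_lit 147) (nat_lit 72) (.p (nat_lit 149) (nat_lit 36) (.p (nat_lit 150) (nat_lit 36) (.p (nat_lit 151) (nat_lit 54) (.p (nat_lit 152) (nat_lit 108) (.p (nat_lit 154) (nat_lit 36) (.n (nat_lit 155) (nat_lit 36) (.n (nat_lit 156) (nat_lit 18) .z)))))))))) (.ct dF6as_c531 (nat_lit 72) (nat_lit 5) (.s false (nat_lit 2) (nat_lit 6) (nat_lit 2) (nat_lit 5) (nat_lit 0) true (nat_lit 5) true (nat_lit 9) true (nat_lit 4) true (nat_lit 7) true (nat_lit 5) (.s true (nat_lit 2) (nat_lit 6) (nat_lit 5) (nat_lit 2) (nat_lit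 0) true (nat_lit 1) true (nat_lit 9) true (nat_lit 4) true (nat_lit 5) true (nat_lit 7) (.s true (nat_lit 1) (nat_lit 7) (nat_lit 0) (nat_lit 3) (nat_lit 2) true (nat_lit 5) true (nat_lit 7) true (nat_lit 3) true (nat_lit 9) true (nat_lit 6) (.s true (nat_lit 1) (nat_lit 7) (nat_lit 0) (nat_lit 5) (nat_lit 1) true (nat_lit 6) true (nat_lit 8) true (nat_lit 3) true (nat_lit 9) true (nat_lit 5) (.s true (nat_lit 1) (nat_lit 8) (nat_lit 2) (nat_lit 2) (nat_lit 2) true (nat_lit 3) true (nat_lit 7) true (nat_lit 2) true (nat_lit 7) true (nat_lit 7) (.s true (nat_lit 1) (nat_lit 18) (nat_lit 1) (nat_lit 2) (nat_lit 0) true (nat_lit 6) true (nat_lit 9) false (nat_lit 0) true (nat_lit 8) true (nat_lit 7) (.s false (nat_lit 1) (nat_lit 18) (nat_lit 2) (nat_lit 1) (nat_lit 0) true (nat_lit 5) true (nat_lit 9) false (nat_lit 0) true (nat_lit 7) true (nat_lit 8) (.s false (nat_lit 2) (nat_lit 19) (nat_lit 0) (nat_lit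 2) (nat_lit 0) false (nat_lit 10) true (nat_lit 9) false (nat_lit 1) true (nat_lit 9) true (nat_lit 7) (.s true (nat_lit 1) (nat_lit 21) (nat_lit 0) (nat_lit 1) (nat_lit 0) false (nat_lit 10) true (nat_lit 9) false (nat_lit 2) true (nat_lit 9) true (nat_lit 8) (.e false (nat_lit 72) (nat_lit 38) (nat_lit 5) (nat_lit 5) (.e false (nat_lit 36) (nat_lit 100) (nat_lit 0) (nat_lit 9) (.e true (nat_lit 36) (nat_lit 70) (nat_lit 2) (nat_lit 7) (.e true (nat_lit 36) (nat_lit 71) (nat_lit 2) (nat_lit 7) (.e false (nat_lit 36) (nat_lit 73) (nat_lit 2) (nat_lit 7) (.e false (nat_lit 36) (nat_lit 74) (nat_lit 2) (nat_lit 7) (.e false (nat_lit 72) (nat_lit 99) (nat_lit 0) (nat_lit 9) (.e false (nat_lit 36) (nat_lit 72) (nat_lit 2) (nat_lit 7) (.e true (nat_lit 36) (nat_lit 103) (nat_lit 0) (nat_lit 9) (.e false (nat_lit 36) (nat_lit 90) (nat_lit 1) (nat_lit 8) (.e true (nat_lit 72) (nat_lit 92) (nat_lit 1) (nat_lit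 8) (.e true (nat_lit 108) (nat_lit 93) (nat_lit 1) (nat_lit 8) (.e false (nat_lit 36) (nat_lit 26) (nat_lit 7) (nat_lit 3) .nil))))))))))))))))))))))) .leaf) (nat_lit 39942) (nat_lit 309) (.p (nat_lit 177) (nat_lit 36) .z) .df .leaf)) (nat_lit 40960) (nat_lit 91) (.p (nat_lit 71) (nat_lit 36) .z) .df (.nd (.nd (.nd .leaf (nat_lit 40961) (nat_lit 111) (.p (nat_lit 82) (nat_lit 36) .z) .df .leaf) (nat_lit 40962) (nat_lit 141) (.p (nat_lit 96) (nat_lit 36) .z) .df .leaf) (nat_lit 40963) (nat_lit 221) (.n (nat_lit 111) (nat_lit 44) (.n (nat_lit 112) (nat_lit 4) (.n (nat_lit 113) (nat_lit 4) (.n (nat_lit 114) (nat_lit 28) (.n (nat_lit 115) (nat_lit 64) (.n (nat_lit 116) (nat_lit 40) (.p (nat_lit 117) (nat_lit 92) (.p (nat_lit 118) (nat_lit 56) (.n (nat_lit 119) (nat_lit 48) (.p (nat_lit 120) (nat_lit 12) (.n (nat_lit 121) (nat_lit 44) (.n (nat_lit 122) (nat_lit 128) (.p (nat_lit 123) (nat_lit 32) (.p (nat_lit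 124) (nat_lit 40) (.p (nat_lit 125) (nat_lit 32) (.p (nat_lit 126) (nat_lit 8) (.n (nat_lit 127) (nat_lit 16) (.n (nat_lit 128) (nat_lit 20) (.n (nat_lit 129) (nat_lit 56) (.p (nat_lit 130) (nat_lit 32) (.n (nat_lit 131) (nat_lit 60) (.p (nat_lit 132) (nat_lit 80) (.p (nat_lit 133) (nat_lit 4) (.p (nat_lit 134) (nat_lit 28) (.p (nat_lit 135) (nat_lit 92) (.p (nat_lit 136) (nat_lit 8) .z)))))))))))))))))))))))))) (.ct dF6as_c546 (nat_lit 36) (nat_lit 8) (.s true (nat_lit 1) (nat_lit 14) (nat_lit 1) (nat_lit 2) (nat_lit 0) true (nat_lit 8) true (nat_lit 11) true (nat_lit 0) true (nat_lit 10) true (nat_lit 9) (.a true (nat_lit 648) (nat_lit 14) (nat_lit 14) (nat_lit 0) (nat_lit 0) (.e true (nat_lit 36) (nat_lit 78) (nat_lit 0) (nat_lit 11) (.e false (nat_lit 36) (nat_lit 66) (nat_lit 1) (nat_lit 10) (.e false (nat_lit 36) (nat_lit 69) (nat_lit 1) (nat_lit 10) (.e true (nat_lit 36) (nat_lit 70) (nat_lit 1)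 (nat_lit 10) (.e true (nat_lit 36) (nat_lit 73) (nat_lit 1) (nat_lit 10) (.e true (nat_lit 72) (nat_lit 74) (nat_lit 1) (nat_lit 10) (.e false (nat_lit 36) (nat_lit 57) (nat_lit 2) (nat_lit 9) .nil)))))))))) (.nd .leaf (nat_lit 40965) (nat_lit 271) (.n (nat_lit 141) (nat_lit 36) (.n (nat_lit 147) (nat_lit 36) (.p (nat_lit 148) (nat_lit 36) (.p (nat_lit 151) (nat_lit 36) (.p (nat_lit 152) (nat_lit 72) .z))))) (.ct dF6as_c531 (nat_lit 36) (nat_lit 5) (.s false (nat_lit 1) (nat_lit 6) (nat_lit 2) (nat_lit 5) (nat_lit 0) true (nat_lit 5) true (nat_lit 9) true (nat_lit 4) true (nat_lit 7) true (nat_lit 5) (.s true (nat_lit 1) (nat_lit 6) (nat_lit 5) (nat_lit 2) (nat_lit 0) true (nat_lit 1) true (nat_lit 9) true (nat_lit 4) true (nat_lit 5) true (nat_lit 7) (.s false (nat_lit 1) (nat_lit 19) (nat_lit 0) (nat_lit 2) (nat_lit 0) false (nat_lit 10) true (nat_lit 9) false (nat_lit 1) true (nat_lit 9) true (nat_lit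 7) (.e false (nat_lit 36) (nat_lit 95) (nat_lit 0) (nat_lit 9) (.e true (nat_lit 36) (nat_lit 71) (nat_lit 2) (nat_lit 7) (.e true (nat_lit 36) (nat_lit 94) (nat_lit 0) (nat_lit 9) (.e false (nat_lit 36) (nat_lit 98) (nat_lit 0) (nat_lit 9) (.e false (nat_lit 72) (nat_lit 99) (nat_lit 0) (nat_lit 9) .nil))))))))) .leaf))) (nat_lit 40966) (nat_lit 310) (.p (nat_lit 178) (nat_lit 36) .z) .df (.nd (.nd (.nd (.nd .leaf (nat_lit 41984) (nat_lit 92) (.p (nat_lit 72) (nat_lit 36) .z) .df .leaf) (nat_lit 41985) (nat_lit 112) (.p (nat_lit 83) (nat_lit 36) .z) .df .leaf) (nat_lit 41986) (nat_lit 142) (.p (nat_lit 97) (nat_lit 36) .z) .df (.nd (.nd .leaf (nat_lit 41987) (nat_lit 195) (.p (nat_lit 136) (nat_lit 36) .z) .df .leaf) (nat_lit 41989) (nat_lit 262) (.p (nat_lit 137) (nat_lit 144) (.p (nat_lit 138) (nat_lit 72) (.p (nat_lit 139) (nat_lit 72) (.p (nat_lit 140) (nat_lit 72) (.n (nat_lit 141) (nat_lit 72) (.n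 (nat_lit 142) (nat_lit 36) (.n (nat_lit 143) (nat_lit 18) (.p (nat_lit 145) (nat_lit 72) (.n (nat_lit 147) (nat_lit 36) (.n (nat_lit 148) (nat_lit 36) (.p (nat_lit 149) (nat_lit 36) (.n (nat_lit 150) (nat_lit 36) (.p (nat_lit 151) (nat_lit 54) (.p (nat_lit 152) (nat_lit 144) (.n (nat_lit 153) (nat_lit 72) (.p (nat_lit 154) (nat_lit 36) (.n (nat_lit 155) (nat_lit 144) (.p (nat_lit 156) (nat_lit 54) .z)))))))))))))))))) (.ct dF6as_c531 (nat_lit 559872) (nat_lit 5) (.s true (nat_lit 15552) (nat_lit 6) (nat_lit 2) (nat_lit 5) (nat_lit 0) true (nat_lit 5) true (nat_lit 9) true (nat_lit 4) true (nat_lit 7) true (nat_lit 5) (.s false (nat_lit 15552) (nat_lit 6) (nat_lit 5) (nat_lit 2) (nat_lit 0) true (nat_lit 1) true (nat_lit 9) true (nat_lit 4) true (nat_lit 5) true (nat_lit 7) (.s false (nat_lit 15552) (nat_lit 7) (nat_lit 0) (nat_lit 3) (nat_lit 2) true (nat_lit 5) true (nat_lit 7) true (nat_lit 3) true (nat_lit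 9) true (nat_lit 6) (.s false (nat_lit 15552) (nat_lit 8) (nat_lit 2) (nat_lit 2) (nat_lit 2) true (nat_lit 3) true (nat_lit 7) true (nat_lit 2) true (nat_lit 7) true (nat_lit 7) (.s true (nat_lit 15552) (nat_lit 19) (nat_lit 0) (nat_lit 0) (nat_lit 2) true (nat_lit 5) true (nat_lit 7) false (nat_lit 1) true (nat_lit 9) true (nat_lit 9) (.s true (nat_lit 15552) (nat_lit 19) (nat_lit 0) (nat_lit 2) (nat_lit 0) false (nat_lit 10) true (nat_lit 9) false (nat_lit 1) true (nat_lit 9) true (nat_lit 7) (.s true (nat_lit 15552) (nat_lit 21) (nat_lit 0) (nat_lit 0) (nat_lit 1) true (nat_lit 6) true (nat_lit 8) false (nat_lit 2) true (nat_lit 9) true (nat_lit 9) (.s false (nat_lit 15552) (nat_lit 21) (nat_lit 0) (nat_lit 1) (nat_lit 0) false (nat_lit 10) true (nat_lit 9) false (nat_lit 2) true (nat_lit 9) true (nat_lit 8) (.i true (nat_lit 1) (nat_lit 2) (.c (nat_lit 2) (nat_lit 1) (.c (nat_lit 2) (nat_lit 1) (.c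 (nat_lit 2) (nat_lit 1) (.c (nat_lit 1) (nat_lit 16) (.c (nat_lit 0) (nat_lit 256) (.c (nat_lit 0) (nat_lit 256) .nil)))))) (.e false (nat_lit 559872) (nat_lit 39) (nat_lit 5) (nat_lit 5) (.e true (nat_lit 1119744) (nat_lit 43) (nat_lit 5) (nat_lit 5) (.e true (nat_lit 1679616) (nat_lit 95) (nat_lit 0) (nat_lit 9) (.e true (nat_lit 1119744) (nat_lit 101) (nat_lit 0) (nat_lit 9) (.e true (nat_lit 1119744) (nat_lit 69) (nat_lit 2) (nat_lit 7) (.e false (nat_lit 559872) (nat_lit 70) (nat_lit 2) (nat_lit 7) (.e false (nat_lit 2799360) (nat_lit 94) (nat_lit 0) (nat_lit 9) (.e true (nat_lit 2239488) (nat_lit 98) (nat_lit 0) (nat_lit 9) (.e true (nat_lit 3919104) (nat_lit 99) (nat_lit 0) (nat_lit 9) (.e false (nat_lit 559872) (nat_lit 72) (nat_lit 2) (nat_lit 7) (.e false (nat_lit 559872) (nat_lit 103) (nat_lit 0) (nat_lit 9) (.e false (nat_lit 1119744) (nat_lit 96) (nat_lit 0) (nat_lit 9) (.e true (nat_lit 1119744)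 (nat_lit 93) (nat_lit 1) (nat_lit 8) .nil))))))))))))))))))))))) .leaf)) (nat_lit 41990) (nat_lit 311) (.p (nat_lit 179) (nat_lit 36) .z) .df (.nd (.nd (.nd .leaf (nat_lit 43008) (nat_lit 93) (.p (nat_lit 73) (nat_lit 36) .z) .df .leaf) (nat_lit 43009) (nat_lit 113) (.p (nat_lit 84) (nat_lit 36) .z) .df .leaf) (nat_lit 43010) (nat_lit 143) (.p (nat_lit 98) (nat_lit 36) .z) .df (.nd .leaf (nat_lit 43011) (nat_lit 211) (.p (nat_lit 111) (nat_lit 88) (.p (nat_lit 112) (nat_lit 8) (.p (nat_lit 113) (nat_lit 8) (.p (nat_lit 114) (nat_lit 128) (.p (nat_lit 115) (nat_lit 128) (.p (nat_lit 116) (nat_lit 80) (.n (nat_lit 117) (nat_lit 184) (.n (nat_lit 118) (nat_lit 112) (.p (nat_lit 119) (nat_lit 96) (.n (nat_lit 120) (nat_lit 24) (.p (nat_lit 121) (nat_lit 160) (.p (nat_lit 122) (nat_lit 328) (.n (nat_lit 123) (nat_lit 136) (.n (nat_lit 124) (nat_lit 80) (.n (nat_lit 125) (nat_lit 172) (.n (nat_lit 126) (nat_lit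 160) (.n (nat_lit 127) (nat_lit 40) (.p (nat_lit 128) (nat_lit 112) (.p (nat_lit 129) (nat_lit 184) (.n (nat_lit 130) (nat_lit 64) (.p (nat_lit 131) (nat_lit 120) (.n (nat_lit 132) (nat_lit 160) (.n (nat_lit 133) (nat_lit 44) (.p (nat_lit 134) (nat_lit 16) (.n (nat_lit 135) (nat_lit 256) (.n (nat_lit 136) (nat_lit 16) .z)))))))))))))))))))))))))) (.ct dF6as_c546 (nat_lit 72) (nat_lit 8) (.s true (nat_lit 1) (nat_lit 7) (nat_lit 0) (nat_lit 0) (nat_lit 4) true (nat_lit 2) true (nat_lit 7) true (nat_lit 4) true (nat_lit 11) true (nat_lit 11) (.s true (nat_lit 1) (nat_lit 18) (nat_lit 0) (nat_lit 1) (nat_lit 1) true (nat_lit 8) true (nat_lit 10) false (nat_lit 2) true (nat_lit 11) true (nat_lit 10) (.s true (nat_lit 1) (nat_lit 18) (nat_lit 1) (nat_lit 0) (nat_lit 1) true (nat_lit 7) true (nat_lit 10) false (nat_lit 2) true (nat_lit 10) true (nat_lit 11) (.s true (nat_lit 1) (nat_lit 18) (nat_lit 1) (nat_lit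 1) (nat_lit 0) true (nat_lit 8) true (nat_lit 11) false (nat_lit 2) true (nat_lit 10) true (nat_lit 10) (.e true (nat_lit 144) (nat_lit 76) (nat_lit 0) (nat_lit 11) (.e false (nat_lit 144) (nat_lit 77) (nat_lit 0) (nat_lit 11) (.e false (nat_lit 144) (nat_lit 78) (nat_lit 0) (nat_lit 11) (.e false (nat_lit 144) (nat_lit 79) (nat_lit 0) (nat_lit 11) (.e true (nat_lit 144) (nat_lit 87) (nat_lit 0) (nat_lit 11) (.e false (nat_lit 144) (nat_lit 86) (nat_lit 0) (nat_lit 11) (.e true (nat_lit 72) (nat_lit 73) (nat_lit 1) (nat_lit 10) (.e true (nat_lit 72) (nat_lit 84) (nat_lit 0) (nat_lit 11) .nil))))))))))))) .leaf))))) (nat_lit 43013) (nat_lit 256) (.p (nat_lit 156) (nat_lit 36) .z) .df (.nd (.nd (.nd (.nd (.nd (.nd .leaf (nat_lit 43014) (nat_lit 316) (.p (nat_lit 157) (nat_lit 36) (.p (nat_lit 158) (nat_lit 36) (.p (nat_lit 159) (nat_lit 36) (.p (nat_lit 161) (nat_lit 36) (.p (nat_lit 162) (nat_lit 72) (.n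 (nat_lit 164) (nat_lit 36) (.p (nat_lit 166) (nat_lit 36) (.p (nat_lit 167) (nat_lit 36) (.p (nat_lit 168) (nat_lit 36) (.p (nat_lit 169) (nat_lit 36) (.n (nat_lit 170) (nat_lit 36) (.p (nat_lit 172) (nat_lit 36) (.p (nat_lit 173) (nat_lit 36) (.n (nat_lit 177) (nat_lit 36) .z)))))))))))))) (.ct dF6as_c291 (nat_lit 36) (nat_lit 4) (.s false (nat_lit 1) (nat_lit 6) (nat_lit 0) (nat_lit 2) (nat_lit 6) true (nat_lit 1) true (nat_lit 4) true (nat_lit 4) true (nat_lit 10) true (nat_lit 8) (.s true (nat_lit 3) (nat_lit 6) (nat_lit 0) (nat_lit 6) (nat_lit 2) true (nat_lit 5) true (nat_lit 8) true (nat_lit 4) true (nat_lit 10) true (nat_lit 4) (.s true (nat_lit 2) (nat_lit 6) (nat_lit 1) (nat_lit 5) (nat_lit 2) true (nat_lit 4) true (nat_lit 8) true (nat_lit 4) true (nat_lit 9) true (nat_lit 5) (.s false (nat_lit 2) (nat_lit 6) (nat_lit 2) (nat_lit 2) (nat_lit 3) true (nat_lit 1) true (nat_lit 7) true (nat_lit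 4) true (nat_lit 8) true (nat_lit 8) (.s false (nat_lit 2) (nat_lit 6) (nat_lit 2) (nat_lit 5) (nat_lit 1) true (nat_lit 4) true (nat_lit 9) true (nat_lit 4) true (nat_lit 8) true (nat_lit 5) (.s true (nat_lit 1) (nat_lit 7) (nat_lit 1) (nat_lit 3) (nat_lit 2) true (nat_lit 4) true (nat_lit 8) true (nat_lit 3) true (nat_lit 9) true (nat_lit 7) (.s true (nat_lit 1) (nat_lit 7) (nat_lit 2) (nat_lit 4) (nat_lit 0) true (nat_lit 5) true (nat_lit 10) true (nat_lit 3) true (nat_lit 8) true (nat_lit 6) dF6as_i20)))))))) .leaf) (nat_lit 44032) (nat_lit 94) (.p (nat_lit 74) (nat_lit 36) .z) .df .leaf) (nat_lit 44033) (nat_lit 119) (.n (nat_lit 76) (nat_lit 36) (.p (nat_lit 77) (nat_lit 36) (.p (nat_lit 78) (nat_lit 36) (.p (nat_lit 79) (nat_lit 36) (.p (nat_lit 80) (nat_lit 36) (.n (nat_lit 83) (nat_lit 36) (.n (nat_lit 84) (nat_lit 36) (.p (nat_lit 86) (nat_lit 36) (.n (nat_lit 87) (nat_lit 36) .z))))))))) (.ct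 dF6as_c290 (nat_lit 36) (nat_lit 6) (.s false (nat_lit 1) (nat_lit 3) (nat_lit 1) (nat_lit 2) (nat_lit 2) true (nat_lit 1) true (nat_lit 5) true (nat_lit 4) true (nat_lit 6) true (nat_lit 5) (.e false (nat_lit 36) (nat_lit 12) (nat_lit 6) (nat_lit 1) (.e false (nat_lit 36) (nat_lit 29) (nat_lit 2) (nat_lit 5) (.e true (nat_lit 36) (nat_lit 19) (nat_lit 3) (nat_lit 4) (.e false (nat_lit 36) (nat_lit 39) (nat_lit 1) (nat_lit 6) (.e true (nat_lit 36) (nat_lit 40) (nat_lit 1) (nat_lit 6) (.e true (nat_lit 36) (nat_lit 41) (nat_lit 1) (nat_lit 6) (.e true (nat_lit 36) (nat_lit 31) (nat_lit 2) (nat_lit 5) .nil))))))))) (.nd (.nd .leaf (nat_lit 44034) (nat_lit 144) (.p (nat_lit 99) (nat_lit 36) .z) .df .leaf) (nat_lit 44035) (nat_lit 196) (.p (nat_lit 111) (nat_lit 12) (.n (nat_lit 112) (nat_lit 12) (.n (nat_lit 113) (nat_lit 12) (.n (nat_lit 114) (nat_lit 12) (.p (nat_lit 115) (nat_lit 24) (.n (nat_lit 116) (nat_lit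 12) (.n (nat_lit 117) (nat_lit 12) (.n (nat_lit 118) (nat_lit 12) (.n (nat_lit 121) (nat_lit 24) (.n (nat_lit 122) (nat_lit 24) (.p (nat_lit 123) (nat_lit 24) (.n (nat_lit 124) (nat_lit 24) (.p (nat_lit 125) (nat_lit 24) (.p (nat_lit 126) (nat_lit 24) (.p (nat_lit 127) (nat_lit 24) (.n (nat_lit 128) (nat_lit 24) (.n (nat_lit 129) (nat_lit 24) (.p (nat_lit 130) (nat_lit 24) (.p (nat_lit 132) (nat_lit 24) (.p (nat_lit 133) (nat_lit 12) (.n (nat_lit 134) (nat_lit 24) (.p (nat_lit 135) (nat_lit 24) (.n (nat_lit 136) (nat_lit 12) .z))))))))))))))))))))))) (.ct dF6as_c546 (nat_lit 108) (nat_lit 8) (.s false (nat_lit 1) (nat_lit 5) (nat_lit 2) (nat_lit 1) (nat_lit 3) true (nat_lit 0) true (nat_lit 8) true (nat_lit 6) true (nat_lit 9) true (nat_lit 10) (.s false (nat_lit 1) (nat_lit 6) (nat_lit 2) (nat_lit 3) (nat_lit 0) true (nat_lit 6) true (nat_lit 11) true (nat_lit 5) true (nat_lit 9) true (nat_lit 8) (.s false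 (nat_lit 1) (nat_lit 7) (nat_lit 0) (nat_lit 3) (nat_lit 1) true (nat_lit 8) true (nat_lit 10) true (nat_lit 4) true (nat_lit 11) true (nat_lit 8) (.s true (nat_lit 1) (nat_lit 7) (nat_lit 0) (nat_lit 4) (nat_lit 0) false (nat_lit 12) true (nat_lit 11) true (nat_lit 4) true (nat_lit 11) true (nat_lit 7) (.s true (nat_lit 1) (nat_lit 7) (nat_lit 1) (nat_lit 0) (nat_lit 3) true (nat_lit 2) true (nat_lit 8) true (nat_lit 4) true (nat_lit 10) true (nat_lit 11) (.s false (nat_lit 1) (nat_lit 9) (nat_lit 2) (nat_lit 0) (nat_lit 2) true (nat_lit 4) true (nat_lit 9) true (nat_lit 2) true (nat_lit 9) true (nat_lit 11) (.s true (nat_lit 1) (nat_lit 13) (nat_lit 0) (nat_lit 2) (nat_lit 1) true (nat_lit 8) true (nat_lit 10) true (nat_lit 0) true (nat_lit 11) true (nat_lit 9) (.s false (nat_lit 1) (nat_lit 12) (nat_lit 1) (nat_lit 0) (nat_lit 2) true (nat_lit 5) true (nat_lit 9) true (nat_lit 0) true (nat_lit 10) true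 (nat_lit 11) (.s false (nat_lit 1) (nat_lit 13) (nat_lit 1) (nat_lit 0) (nat_lit 2) true (nat_lit 5) true (nat_lit 9) true (nat_lit 0) true (nat_lit 10) true (nat_lit 11) (.s false (nat_lit 2) (nat_lit 14) (nat_lit 1) (nat_lit 2) (nat_lit 0) true (nat_lit 8) true (nat_lit 11) true (nat_lit 0) true (nat_lit 10) true (nat_lit 9) (.s true (nat_lit 1) (nat_lit 13) (nat_lit 2) (nat_lit 0) (nat_lit 1) true (nat_lit 5) true (nat_lit 10) true (nat_lit 0) true (nat_lit 9) true (nat_lit 11) (.s true (nat_lit 1) (nat_lit 17) (nat_lit 0) (nat_lit 1) (nat_lit 1) true (nat_lit 8) true (nat_lit 10) false (nat_lit 2) true (nat_lit 11) true (nat_lit 10) (.s false (nat_lit 1) (nat_lit 18) (nat_lit 1) (nat_lit 0) (nat_lit 1) true (nat_lit 7) true (nat_lit 10) false (nat_lit 2) true (nat_lit 10) true (nat_lit 11) (.s true (nat_lit 2) (nat_lit 19) (nat_lit 0) (nat_lit 0) (nat_lit 1) true (nat_lit 8) true (nat_lit 10) false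 (nat_lit 3) true (nat_lit 11) true (nat_lit 11) (.a false (nat_lit 648) (nat_lit 12) (nat_lit 12) (nat_lit 0) (nat_lit 0) dF6as_i0)))))))))))))))) .leaf)) (nat_lit 44037) (nat_lit 257) (.n (nat_lit 137) (nat_lit 72) (.n (nat_lit 138) (nat_lit 36) (.n (nat_lit 139) (nat_lit 72) (.n (nat_lit 140) (nat_lit 36) (.p (nat_lit 141) (nat_lit 36) (.p (nat_lit 142) (nat_lit 36) (.n (nat_lit 145) (nat_lit 36) (.n (nat_lit 146) (nat_lit 36) (.p (nat_lit 147) (nat_lit 72) (.n (nat_lit 148) (nat_lit 36) (.p (nat_lit 149) (nat_lit 36) (.p (nat_lit 150) (nat_lit 36) (.n (nat_lit 151) (nat_lit 72) (.n (nat_lit 152) (nat_lit 144) (.p (nat_lit 153) (nat_lit 36) (.n (nat_lit 154) (nat_lit 36) (.p (nat_lit 155) (nat_lit 72) (.n (nat_lit 156) (nat_lit 36) .z)))))))))))))))))) (.ct dF6as_c531 (nat_lit 559872) (nat_lit 5) (.s true (nat_lit 15552) (nat_lit 5) (nat_lit 3) (nat_lit 2) (nat_lit 2) true (nat_lit 0) true (nat_lit 7)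 true (nat_lit 5) true (nat_lit 6) true (nat_lit 7) (.s true (nat_lit 15552) (nat_lit 7) (nat_lit 0) (nat_lit 0) (nat_lit 6) true (nat_lit 0) true (nat_lit 4) true (nat_lit 3) true (nat_lit 9) true (nat_lit 9) dF6as_i11))) (.nd (.nd (.nd .leaf (nat_lit 44038) (nat_lit 313) (.n (nat_lit 157) (nat_lit 111) (.n (nat_lit 158) (nat_lit 69) (.n (nat_lit 159) (nat_lit 39) (.p (nat_lit 160) (nat_lit 81) (.p (nat_lit 161) (nat_lit 3) (.n (nat_lit 162) (nat_lit 36) (.p (nat_lit 163) (nat_lit 42) (.p (nat_lit 164) (nat_lit 69) (.p (nat_lit 165) (nat_lit 96) (.n (nat_lit 166) (nat_lit 93) (.n (nat_lit 167) (nat_lit 24) (.p (nat_lit 168) (nat_lit 12) (.p (nat_lit 169) (nat_lit 78) (.p (nat_lit 170) (nat_lit 84) (.p (nat_lit 171) (nat_lit 75) (.p (nat_lit 172) (nat_lit 12) (.n (nat_lit 173) (nat_lit 84) (.p (nat_lit 174) (nat_lit 27) (.p (nat_lit 175) (nat_lit 51) (.n (nat_lit 176) (nat_lit 21) (.p (nat_lit 177) (nat_lit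 93) (.n (nat_lit 178) (nat_lit 96) (.p (nat_lit 179) (nat_lit 42) .z))))))))))))))))))))))) (.ct dF6as_c291 (nat_lit 36) (nat_lit 4) (.s false (nat_lit 3) (nat_lit 6) (nat_lit 0) (nat_lit 6) (nat_lit 2) true (nat_lit 5) true (nat_lit 8) true (nat_lit 4) true (nat_lit 10) true (nat_lit 4) (.s true (nat_lit 2) (nat_lit 6) (nat_lit 2) (nat_lit 2) (nat_lit 3) true (nat_lit 1) true (nat_lit 7) true (nat_lit 4) true (nat_lit 8) true (nat_lit 8) (.s false (nat_lit 1) (nat_lit 6) (nat_lit 2) (nat_lit 3) (nat_lit 2) true (nat_lit 3) true (nat_lit 8) true (nat_lit 4) true (nat_lit 8) true (nat_lit 7) (.s false (nat_lit 2) (nat_lit 6) (nat_lit 3) (nat_lit 2) (nat_lit 2) true (nat_lit 1) true (nat_lit 8) true (nat_lit 4) true (nat_lit 7) true (nat_lit 8) (.s true (nat_lit 3) (nat_lit 6) (nat_lit 5) (nat_lit 2) (nat_lit 1) true (nat_lit 1) true (nat_lit 9) true (nat_lit 4) true (nat_lit 5) true (nat_lit 8) (.s true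 (nat_lit 1) (nat_lit 7) (nat_lit 0) (nat_lit 6) (nat_lit 1) true (nat_lit 7) true (nat_lit 9) true (nat_lit 3) true (nat_lit 10) true (nat_lit 4) (.s true (nat_lit 1) (nat_lit 7) (nat_lit 1) (nat_lit 3) (nat_lit 2) true (nat_lit 4) true (nat_lit 8) true (nat_lit 3) true (nat_lit 9) true (nat_lit 7) (.s false (nat_lit 1) (nat_lit 7) (nat_lit 2) (nat_lit 3) (nat_lit 1) true (nat_lit 4) true (nat_lit 9) true (nat_lit 3) true (nat_lit 8) true (nat_lit 7) (.s false (nat_lit 1) (nat_lit 12) (nat_lit 1) (nat_lit 2) (nat_lit 2) true (nat_lit 4) true (nat_lit 8) true (nat_lit 1) true (nat_lit 9) true (nat_lit 8) (.s true (nat_lit 1) (nat_lit 12) (nat_lit 2) (nat_lit 1) (nat_lit 2) true (nat_lit 3) true (nat_lit 8) true (nat_lit 1) true (nat_lit 8) true (nat_lit 9) (.s false (nat_lit 1) (nat_lit 13) (nat_lit 2) (nat_lit 2) (nat_lit 1) true (nat_lit 4) true (nat_lit 9) true (nat_lit 1) true (nat_lit 8) true (nat_lit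 8) (.s false (nat_lit 3) (nat_lit 19) (nat_lit 0) (nat_lit 2) (nat_lit 1) true (nat_lit 7) true (nat_lit 9) false (nat_lit 1) true (nat_lit 10) true (nat_lit 8) dF6as_i15))))))))))))) .leaf) (nat_lit 45056) (nat_lit 114) (.p (nat_lit 85) (nat_lit 36) .z) .df .leaf) (nat_lit 45058) (nat_lit 159) (.p (nat_lit 105) (nat_lit 36) .z) .df (.nd .leaf (nat_lit 45061) (nat_lit 334) (.n (nat_lit 157) (nat_lit 27) (.n (nat_lit 158) (nat_lit 9) (.n (nat_lit 159) (nat_lit 27) (.p (nat_lit 160) (nat_lit 45) (.n (nat_lit 161) (nat_lit 9) (.n (nat_lit 163) (nat_lit 18) (.p (nat_lit 164) (nat_lit 9) (.n (nat_lit 165) (nat_lit 72) (.p (nat_lit 166) (nat_lit 63) (.n (nat_lit 168) (nat_lit 36) (.n (nat_lit 169) (nat_lit 18) (.p (nat_lit 171) (nat_lit 27) (.n (nat_lit 172) (nat_lit 72) (.p (nat_lit 174) (nat_lit 27) (.n (nat_lit 175) (nat_lit 9) (.n (nat_lit 176) (nat_lit 81) (.n (nat_lit 177) (nat_lit 27) (.p (nat_lit 178)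 (nat_lit 36) (.p (nat_lit 179) (nat_lit 54) .z))))))))))))))))))) (.ct dF6as_c291 (nat_lit 36) (nat_lit 5) (.s true (nat_lit 1) (nat_lit 15) (nat_lit 0) (nat_lit 2) (nat_lit 2) true (nat_lit 5) true (nat_lit 8) true (nat_lit 0) true (nat_lit 10) true (nat_lit 8) (.s true (nat_lit 1) (nat_lit 15) (nat_lit 2) (nat_lit 0) (nat_lit 2) true (nat_lit 3) true (nat_lit 8) true (nat_lit 0) true (nat_lit 8) true (nat_lit 10) (.e true (nat_lit 72) (nat_lit 79) (nat_lit 2) (nat_lit 8) (.e true (nat_lit 108) (nat_lit 106) (nat_lit 0) (nat_lit 10) (.e false (nat_lit 36) (nat_lit 107) (nat_lit 0) (nat_lit 10) (.e false (nat_lit 36) (nat_lit 109) (nat_lit 0) (nat_lit 10) (.e false (nat_lit 36) (nat_lit 110) (nat_lit 0) (nat_lit 10) (.e true (nat_lit 72) (nat_lit 85) (nat_lit 2) (nat_lit 8) (.e false (nat_lit 36) (nat_lit 34) (nat_lit 7) (nat_lit 3) (.e false (nat_lit 36) (nat_lit 76) (nat_lit 2) (nat_lit 8) (.e true (nat_lit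 36) (nat_lit 81) (nat_lit 2) (nat_lit 8) (.e false (nat_lit 36) (nat_lit 82) (nat_lit 2) (nat_lit 8) (.e true (nat_lit 72) (nat_lit 86) (nat_lit 2) (nat_lit 8) (.e true (nat_lit 36) (nat_lit 88) (nat_lit 2) (nat_lit 8) .nil))))))))))))))) .leaf))) (nat_lit 46080) (nat_lit 115) (.p (nat_lit 86) (nat_lit 36) .z) .df (.nd (.nd (.nd (.nd .leaf (nat_lit 46082) (nat_lit 160) (.p (nat_lit 106) (nat_lit 36) .z) .df .leaf) (nat_lit 46085) (nat_lit 325) (.p (nat_lit 157) (nat_lit 90) (.p (nat_lit 158) (nat_lit 54) (.p (nat_lit 159) (nat_lit 18) (.n (nat_lit 160) (nat_lit 90) (.n (nat_lit 161) (nat_lit 18) (.n (nat_lit 162) (nat_lit 36) (.n (nat_lit 163) (nat_lit 36) (.n (nat_lit 164) (nat_lit 54) (.n (nat_lit 165) (nat_lit 108) (.p (nat_lit 166) (nat_lit 90) (.n (nat_lit 168) (nat_lit 36) (.n (nat_lit 169) (nat_lit 108) (.n (nat_lit 170) (nat_lit 72) (.n (nat_lit 171) (nat_lit 90) (.n (nat_lit 172) (nat_lit 36) (.p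 (nat_lit 173) (nat_lit 72) (.n (nat_lit 174) (nat_lit 18) (.n (nat_lit 175) (nat_lit 54) (.p (nat_lit 176) (nat_lit 54) (.n (nat_lit 177) (nat_lit 90) (.p (nat_lit 178) (nat_lit 108) (.n (nat_lit 179) (nat_lit 36) .z)))))))))))))))))))))) (.ct dF6as_c291 (nat_lit 36) (nat_lit 5) (.s true (nat_lit 1) (nat_lit 6) (nat_lit 1) (nat_lit 5) (nat_lit 2) true (nat_lit 4) true (nat_lit 8) true (nat_lit 4) true (nat_lit 9) true (nat_lit 5) (.s false (nat_lit 1) (nat_lit 6) (nat_lit 2) (nat_lit 5) (nat_lit 1) true (nat_lit 4) true (nat_lit 9) true (nat_lit 4) true (nat_lit 8) true (nat_lit 5) (.s true (nat_lit 1) (nat_lit 6) (nat_lit 5) (nat_lit 2) (nat_lit 1) true (nat_lit 1) true (nat_lit 9) true (nat_lit 4) true (nat_lit 5) true (nat_lit 8) (.s false (nat_lit 1) (nat_lit 13) (nat_lit 2) (nat_lit 1) (nat_lit 2) true (nat_lit 3) true (nat_lit 8) true (nat_lit 1) true (nat_lit 8) true (nat_lit 9) (.e true (nat_lit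 36) (nat_lit 39) (nat_lit 6) (nat_lit 4) (.e false (nat_lit 36) (nat_lit 46) (nat_lit 5) (nat_lit 5) (.e false (nat_lit 36) (nat_lit 95) (nat_lit 1) (nat_lit 9) (.e true (nat_lit 36) (nat_lit 97) (nat_lit 1) (nat_lit 9) (.e true (nat_lit 36) (nat_lit 100) (nat_lit 1) (nat_lit 9) (.e true (nat_lit 36) (nat_lit 101) (nat_lit 1) (nat_lit 9) (.e true (nat_lit 36) (nat_lit 94) (nat_lit 1) (nat_lit 9) (.e false (nat_lit 36) (nat_lit 98) (nat_lit 1) (nat_lit 9) (.e false (nat_lit 36) (nat_lit 99) (nat_lit 1) (nat_lit 9) (.e false (nat_lit 36) (nat_lit 32) (nat_lit 7) (nat_lit 3) (.e false (nat_lit 36) (nat_lit 81) (nat_lit 2) (nat_lit 8) .nil)))))))))))))))) .leaf) (nat_lit 47104) (nat_lit 116) (.p (nat_lit 87) (nat_lit 36) .z) .df (.nd (.nd .leaf (nat_lit 47106) (nat_lit 161) (.p (nat_lit 107) (nat_lit 36) .z) .df .leaf) (nat_lit 47109) (nat_lit 324) (.n (nat_lit 157) (nat_lit 18) (.p (nat_lit 158) (nat_lit 18)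 (.n (nat_lit 159) (nat_lit 18) (.p (nat_lit 160) (nat_lit 18) (.n (nat_lit 161) (nat_lit 18) (.n (nat_lit 164) (nat_lit 18) (.n (nat_lit 165) (nat_lit 36) (.p (nat_lit 166) (nat_lit 18) (.n (nat_lit 168) (nat_lit 36) (.n (nat_lit 169) (nat_lit 36) (.p (nat_lit 171) (nat_lit 18) (.n (nat_lit 172) (nat_lit 36) (.p (nat_lit 174) (nat_lit 18) (.n (nat_lit 175) (nat_lit 18) (.n (nat_lit 176) (nat_lit 18) (.n (nat_lit 177) (nat_lit 18) (.p (nat_lit 178) (nat_lit 36) (.p (nat_lit 179) (nat_lit 36) .z)))))))))))))))))) (.ct dF6as_c291 (nat_lit 36) (nat_lit 5) (.s true (nat_lit 1) (nat_lit 6) (nat_lit 0) (nat_lit 2) (nat_lit 6) true (nat_lit 1) true (nat_lit 4) true (nat_lit 4) true (nat_lit 10) true (nat_lit 8) (.s false (nat_lit 1) (nat_lit 6) (nat_lit 1) (nat_lit 5) (nat_lit 2) true (nat_lit 4) true (nat_lit 8) true (nat_lit 4) true (nat_lit 9) true (nat_lit 5) (.s true (nat_lit 1) (nat_lit 13) (nat_lit 2) (nat_lit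 1) (nat_lit 2) true (nat_lit 3) true (nat_lit 8) true (nat_lit 1) true (nat_lit 8) true (nat_lit 9) (.s false (nat_lit 1) (nat_lit 19) (nat_lit 0) (nat_lit 2) (nat_lit 1) true (nat_lit 7) true (nat_lit 9) false (nat_lit 1) true (nat_lit 10) true (nat_lit 8) (.s true (nat_lit 1) (nat_lit 19) (nat_lit 1) (nat_lit 2) (nat_lit 0) true (nat_lit 7) true (nat_lit 10) false (nat_lit 1) true (nat_lit 9) true (nat_lit 8) (.e true (nat_lit 36) (nat_lit 40) (nat_lit 6) (nat_lit 4) (.e false (nat_lit 36) (nat_lit 39) (nat_lit 6) (nat_lit 4) (.e true (nat_lit 36) (nat_lit 107) (nat_lit 0) (nat_lit 10) (.e true (nat_lit 36) (nat_lit 86) (nat_lit 2) (nat_lit 8) (.e true (nat_lit 36) (nat_lit 32) (nat_lit 7) (nat_lit 3) (.e true (nat_lit 36) (nat_lit 81) (nat_lit 2) (nat_lit 8) (.e false (nat_lit 36) (nat_lit 82) (nat_lit 2) (nat_lit 8) (.e false (nat_lit 36) (nat_lit 99) (nat_lit 1) (nat_lit 9) (.e false (nat_lit 36) (nat_lit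 97) (nat_lit 1) (nat_lit 9) (.e false (nat_lit 36) (nat_lit 100) (nat_lit 1) (nat_lit 9) (.e false (nat_lit 36) (nat_lit 101) (nat_lit 1) (nat_lit 9) .nil))))))))))))))))) .leaf)) (nat_lit 48128) (nat_lit 132) (.p (nat_lit 91) (nat_lit 36) .z) .df (.nd (.nd (.nd .leaf (nat_lit 48129) (nat_lit 157) (.n (nat_lit 94) (nat_lit 36) (.p (nat_lit 95) (nat_lit 36) (.n (nat_lit 96) (nat_lit 36) (.p (nat_lit 97) (nat_lit 36) (.p (nat_lit 100) (nat_lit 36) (.p (nat_lit 103) (nat_lit 36) (.n (nat_lit 104) (nat_lit 36) .z))))))) (.ct dF6as_c275 (nat_lit 36) (nat_lit 5) (.s true (nat_lit 1) (nat_lit 5) (nat_lit 2) (nat_lit 2) (nat_lit 1) true (nat_lit 1) true (nat_lit 5) true (nat_lit 2) true (nat_lit 4) true (nat_lit 4) (.e true (nat_lit 36) (nat_lit 17) (nat_lit 6) (nat_lit 1) (.e false (nat_lit 36) (nat_lit 20) (nat_lit 5) (nat_lit 2) (.e true (nat_lit 36) (nat_lit 38) (nat_lit 2) (nat_lit 4) (.e false (nat_lit 72)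 (nat_lit 39) (nat_lit 2) (nat_lit 4) (.e false (nat_lit 36) (nat_lit 42) (nat_lit 2) (nat_lit 4) (.e false (nat_lit 36) (nat_lit 43) (nat_lit 2) (nat_lit 4) .nil)))))))) .leaf) (nat_lit 48131) (nat_lit 274) (.n (nat_lit 137) (nat_lit 144) (.n (nat_lit 138) (nat_lit 72) (.n (nat_lit 139) (nat_lit 18) (.n (nat_lit 140) (nat_lit 18) (.p (nat_lit 141) (nat_lit 18) (.p (nat_lit 143) (nat_lit 18) (.n (nat_lit 145) (nat_lit 90) (.p (nat_lit 146) (nat_lit 72) (.n (nat_lit 147) (nat_lit 72) (.p (nat_lit 148) (nat_lit 126) (.n (nat_lit 149) (nat_lit 126) (.p (nat_lit 150) (nat_lit 18) (.p (nat_lit 151) (nat_lit 54) (.p (nat_lit 152) (nat_lit 18) (.p (nat_lit 153) (nat_lit 90) (.p (nat_lit 154) (nat_lit 36) (.p (nat_lit 155) (nat_lit 162) (.n (nat_lit 156) (nat_lit 54) .z)))))))))))))))))) (.ct dF6as_c531 (nat_lit 36) (nat_lit 6) (.s true (nat_lit 1) (nat_lit 5) (nat_lit 2) (nat_lit 2) (nat_lit 3) true (nat_lit 0)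 true (nat_lit 6) true (nat_lit 5) true (nat_lit 7) true (nat_lit 7) (.s true (nat_lit 1) (nat_lit 12) (nat_lit 0) (nat_lit 2) (nat_lit 2) true (nat_lit 5) true (nat_lit 7) true (nat_lit 0) true (nat_lit 9) true (nat_lit 7) (.e false (nat_lit 36) (nat_lit 39) (nat_lit 5) (nat_lit 5) (.e true (nat_lit 36) (nat_lit 40) (nat_lit 5) (nat_lit 5) (.e true (nat_lit 36) (nat_lit 41) (nat_lit 5) (nat_lit 5) (.e true (nat_lit 36) (nat_lit 43) (nat_lit 5) (nat_lit 5) (.e true (nat_lit 36) (nat_lit 65) (nat_lit 2) (nat_lit 7) (.e false (nat_lit 36) (nat_lit 70) (nat_lit 2) (nat_lit 7) (.e true (nat_lit 36) (nat_lit 71) (nat_lit 2) (nat_lit 7) (.e true (nat_lit 36) (nat_lit 64) (nat_lit 2) (nat_lit 7) (.e false (nat_lit 36) (nat_lit 66) (nat_lit 2) (nat_lit 7) (.e true (nat_lit 36) (nat_lit 38) (nat_lit 5) (nat_lit 5) (.e false (nat_lit 36) (nat_lit 103) (nat_lit 0) (nat_lit 9) (.e true (nat_lit 36) (nat_lit 69) (nat_lit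 2) (nat_lit 7) .nil))))))))))))))) .leaf) (nat_lit 48132) (nat_lit 352) (.p (nat_lit 157) (nat_lit 156) (.p (nat_lit 158) (nat_lit 204) (.p (nat_lit 159) (nat_lit 12) (.n (nat_lit 160) (nat_lit 108) (.n (nat_lit 161) (nat_lit 48) (.n (nat_lit 163) (nat_lit 96) (.n (nat_lit 164) (nat_lit 204) (.n (nat_lit 165) (nat_lit 276) (.p (nat_lit 166) (nat_lit 228) (.n (nat_lit 167) (nat_lit 12) (.n (nat_lit 168) (nat_lit 120) (.n (nat_lit 169) (nat_lit 276) (.n (nat_lit 170) (nat_lit 156) (.n (nat_lit 171) (nat_lit 120) (.n (nat_lit 172) (nat_lit 120) (.p (nat_lit 173) (nat_lit 192) (.n (nat_lit 175) (nat_lit 132) (.p (nat_lit 176) (nat_lit 48) (.n (nat_lit 177) (nat_lit 264) (.p (nat_lit 178) (nat_lit 312) (.n (nat_lit 179) (nat_lit 24) .z))))))))))))))))))))) (.ct dF6as_c291 (nat_lit 36) (nat_lit 6) (.s true (nat_lit 1) (nat_lit 17) (nat_lit 1) (nat_lit 2) (nat_lit 1) true (nat_lit 6) true (nat_lit 9) false (nat_lit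 0) true (nat_lit 9) true (nat_lit 8) (.e true (nat_lit 36) (nat_lit 97) (nat_lit 1) (nat_lit 9) (.e false (nat_lit 36) (nat_lit 17) (nat_lit 16) (nat_lit 0) (.e false (nat_lit 36) (nat_lit 104) (nat_lit 1) (nat_lit 9) (.e false (nat_lit 36) (nat_lit 83) (nat_lit 2) (nat_lit 8) .nil)))))) (.nd .leaf (nat_lit 49152) (nat_lit 133) (.p (nat_lit 92) (nat_lit 36) .z) .df .leaf)))) (nat_lit 49153) (nat_lit 145) (.p (nat_lit 100) (nat_lit 36) .z) .df (.nd (.nd (.nd (.nd (.nd .leaf (nat_lit 49155) (nat_lit 273) (.n (nat_lit 143) (nat_lit 36) (.n (nat_lit 145) (nat_lit 36) (.n (nat_lit 147) (nat_lit 72) (.p (nat_lit 150) (nat_lit 72) (.p (nat_lit 151) (nat_lit 36) (.p (nat_lit 152) (nat_lit 72) (.p (nat_lit 153) (nat_lit 36) (.p (nat_lit 154) (nat_lit 72) (.n (nat_lit 156) (nat_lit 36) .z))))))))) (.ct dF6as_c531 (nat_lit 36) (nat_lit 6) (.s true (nat_lit 1) (nat_lit 18) (nat_lit 1) (nat_lit 2) (nat_lit 0) true (nat_lit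 6) true (nat_lit 9) false (nat_lit 0) true (nat_lit 8) true (nat_lit 7) (.s false (nat_lit 1) (nat_lit 18) (nat_lit 2) (nat_lit 1) (nat_lit 0) true (nat_lit 5) true (nat_lit 9) false (nat_lit 0) true (nat_lit 7) true (nat_lit 8) (.e true (nat_lit 36) (nat_lit 98) (nat_lit 0) (nat_lit 9) (.e true (nat_lit 36) (nat_lit 92) (nat_lit 1) (nat_lit 8) (.e true (nat_lit 72) (nat_lit 93) (nat_lit 1) (nat_lit 8) (.e false (nat_lit 36) (nat_lit 42) (nat_lit 5) (nat_lit 5) (.e false (nat_lit 36) (nat_lit 100) (nat_lit 0) (nat_lit 9) (.e true (nat_lit 72) (nat_lit 69) (nat_lit 2) (nat_lit 7) (.e false (nat_lit 72) (nat_lit 72) (nat_lit 2) (nat_lit 7) (.e false (nat_lit 36) (nat_lit 73) (nat_lit 2) (nat_lit 7) (.e false (nat_lit 72) (nat_lit 74) (nat_lit 2) (nat_lit 7) .nil)))))))))))) .leaf) (nat_lit 49156) (nat_lit 333) (.p (nat_lit 157) (nat_lit 48) (.p (nat_lit 158) (nat_lit 96) (.n (nat_lit 159) (nat_lit 24) (.n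 (nat_lit 161) (nat_lit 84) (.n (nat_lit 163) (nat_lit 96) (.n (nat_lit 164) (nat_lit 96) (.n (nat_lit 165) (nat_lit 132) (.p (nat_lit 166) (nat_lit 48) (.n (nat_lit 167) (nat_lit 12) (.n (nat_lit 168) (nat_lit 120) (.n (nat_lit 169) (nat_lit 204) (.n (nat_lit 170) (nat_lit 12) (.n (nat_lit 171) (nat_lit 12) (.n (nat_lit 172) (nat_lit 120) (.p (nat_lit 173) (nat_lit 120) (.p (nat_lit 174) (nat_lit 36) (.n (nat_lit 175) (nat_lit 24) (.p (nat_lit 176) (nat_lit 12) (.n (nat_lit 177) (nat_lit 84) (.p (nat_lit 178) (nat_lit 168) (.p (nat_lit 179) (nat_lit 48) .z))))))))))))))))))))) (.ct dF6as_c291 (nat_lit 36) (nat_lit 6) (.s false (nat_lit 1) (nat_lit 7) (nat_lit 2) (nat_lit 4) (nat_lit 0) true (nat_lit 5) true (nat_lit 10) true (nat_lit 3) true (nat_lit 8) true (nat_lit 6) (.e true (nat_lit 72) (nat_lit 45) (nat_lit 5) (nat_lit 5) (.e false (nat_lit 72) (nat_lit 46) (nat_lit 5) (nat_lit 5) (.e true (nat_lit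 36) (nat_lit 105) (nat_lit 0) (nat_lit 10) (.e false (nat_lit 36) (nat_lit 106) (nat_lit 0) (nat_lit 10) (.e false (nat_lit 36) (nat_lit 107) (nat_lit 0) (nat_lit 10) (.e true (nat_lit 36) (nat_lit 109) (nat_lit 0) (nat_lit 10) (.e true (nat_lit 36) (nat_lit 110) (nat_lit 0) (nat_lit 10) (.e true (nat_lit 36) (nat_lit 34) (nat_lit 7) (nat_lit 3) (.e true (nat_lit 36) (nat_lit 76) (nat_lit 2) (nat_lit 8) (.e false (nat_lit 72) (nat_lit 77) (nat_lit 2) (nat_lit 8) (.e false (nat_lit 72) (nat_lit 78) (nat_lit 2) (nat_lit 8) (.e false (nat_lit 72) (nat_lit 79) (nat_lit 2) (nat_lit 8) (.e true (nat_lit 36) (nat_lit 81) (nat_lit 2) (nat_lit 8) (.e false (nat_lit 36) (nat_lit 82) (nat_lit 2) (nat_lit 8) (.e false (nat_lit 36) (nat_lit 85) (nat_lit 2) (nat_lit 8) (.e true (nat_lit 72) (nat_lit 87) (nat_lit 2) (nat_lit 8) (.e true (nat_lit 36) (nat_lit 88) (nat_lit 2) (nat_lit 8) .nil))))))))))))))))))) .leaf) (nat_lit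 50176) (nat_lit 134) (.p (nat_lit 93) (nat_lit 36) .z) .df (.nd (.nd .leaf (nat_lit 50177) (nat_lit 146) (.p (nat_lit 101) (nat_lit 36) .z) .df .leaf) (nat_lit 50179) (nat_lit 280) (.p (nat_lit 137) (nat_lit 72) (.p (nat_lit 138) (nat_lit 36) (.p (nat_lit 139) (nat_lit 36) (.p (nat_lit 140) (nat_lit 36) (.n (nat_lit 141) (nat_lit 36) (.p (nat_lit 143) (nat_lit 36) (.p (nat_lit 145) (nat_lit 36) (.n (nat_lit 146) (nat_lit 36) (.p (nat_lit 147) (nat_lit 108) (.n (nat_lit 150) (nat_lit 108) (.n (nat_lit 151) (nat_lit 72) (.n (nat_lit 152) (nat_lit 108) (.n (nat_lit 153) (nat_lit 36) (.n (nat_lit 154) (nat_lit 108) (.n (nat_lit 155) (nat_lit 36) (.p (nat_lit 156) (nat_lit 72) .z)))))))))))))))) (.ct dF6as_c531 (nat_lit 36) (nat_lit 6) (.s true (nat_lit 1) (nat_lit 21) (nat_lit 0) (nat_lit 0) (nat_lit 1) true (nat_lit 6) true (nat_lit 8) false (nat_lit 2) true (nat_lit 9) true (nat_lit 9) (.e true (nat_lit 36)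 (nat_lit 93) (nat_lit 1) (nat_lit 8) (.e false (nat_lit 72) (nat_lit 96) (nat_lit 0) (nat_lit 9) (.e false (nat_lit 72) (nat_lit 99) (nat_lit 0) (nat_lit 9) (.e true (nat_lit 36) (nat_lit 103) (nat_lit 0) (nat_lit 9) (.e true (nat_lit 36) (nat_lit 100) (nat_lit 0) (nat_lit 9) (.e true (nat_lit 36) (nat_lit 101) (nat_lit 0) (nat_lit 9) (.e false (nat_lit 36) (nat_lit 102) (nat_lit 0) (nat_lit 9) .nil))))))))) .leaf)) (nat_lit 50180) (nat_lit 339) (.p (nat_lit 157) (nat_lit 141) (.p (nat_lit 158) (nat_lit 39) (.p (nat_lit 159) (nat_lit 33) (.n (nat_lit 160) (nat_lit 171) (.n (nat_lit 161) (nat_lit 69) (.n (nat_lit 163) (nat_lit 66) (.n (nat_lit 164) (nat_lit 39) (.n (nat_lit 165) (nat_lit 228) (.p (nat_lit 166) (nat_lit 159) (.p (nat_lit 167) (nat_lit 12) (.n (nat_lit 168) (nat_lit 60) (.n (nat_lit 169) (nat_lit 174) (.n (nat_lit 170) (nat_lit 132) (.n (nat_lit 171) (nat_lit 105) (.n (nat_lit 172) (nat_lit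 96) (.p (nat_lit 173) (nat_lit 96) (.n (nat_lit 174) (nat_lit 9) (.n (nat_lit 175) (nat_lit 57) (.p (nat_lit 176) (nat_lit 51) (.n (nat_lit 177) (nat_lit 159) (.p (nat_lit 178) (nat_lit 228) (.n (nat_lit 179) (nat_lit 66) .z)))))))))))))))))))))) (.ct dF6as_c291 (nat_lit 36) (nat_lit 6) (.s false (nat_lit 1) (nat_lit 7) (nat_lit 1) (nat_lit 5) (nat_lit 1) true (nat_lit 6) true (nat_lit 9) true (nat_lit 3) true (nat_lit 9) true (nat_lit 5) (.e true (nat_lit 36) (nat_lit 48) (nat_lit 4) (nat_lit 6) (.e false (nat_lit 72) (nat_lit 95) (nat_lit 1) (nat_lit 9) (.e true (nat_lit 72) (nat_lit 96) (nat_lit 1) (nat_lit 9) (.e false (nat_lit 36) (nat_lit 100) (nat_lit 1) (nat_lit 9) (.e false (nat_lit 72) (nat_lit 103) (nat_lit 1) (nat_lit 9) (.e false (nat_lit 36) (nat_lit 32) (nat_lit 7) (nat_lit 3) (.e true (nat_lit 72) (nat_lit 94) (nat_lit 1) (nat_lit 9) (.e true (nat_lit 36) (nat_lit 101) (nat_lit 1) (nat_lit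 9) (.e false (nat_lit 36) (nat_lit 44) (nat_lit 5) (nat_lit 5) (.e true (nat_lit 36) (nat_lit 45) (nat_lit 5) (nat_lit 5) (.e true (nat_lit 36) (nat_lit 46) (nat_lit 5) (nat_lit 5) .nil))))))))))))) (.nd (.nd (.nd .leaf (nat_lit 51200) (nat_lit 158) (.p (nat_lit 94) (nat_lit 36) (.n (nat_lit 95) (nat_lit 72) (.p (nat_lit 96) (nat_lit 36) (.p (nat_lit 97) (nat_lit 36) (.n (nat_lit 99) (nat_lit 36) (.p (nat_lit 100) (nat_lit 36) (.p (nat_lit 101) (nat_lit 36) (.n (nat_lit 102) (nat_lit 36) (.n (nat_lit 103) (nat_lit 36) (.n (nat_lit 104) (nat_lit 36) .z)))))))))) (.ct dF6as_c275 (nat_lit 36) (nat_lit 6) (.s true (nat_lit 1) (nat_lit 6) (nat_lit 2) (nat_lit 0) (nat_lit 2) true (nat_lit 0) true (nat_lit 4) true (nat_lit 1) true (nat_lit 4) true (nat_lit 6) (.e false (nat_lit 36) (nat_lit 14) (nat_lit 7) (nat_lit 0) (.e true (nat_lit 72) (nat_lit 43) (nat_lit 2) (nat_lit 4) (.e true (nat_lit 36) (nat_lit 17)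 (nat_lit 6) (nat_lit 1) (.e false (nat_lit 36) (nat_lit 38) (nat_lit 2) (nat_lit 4) (.e true (nat_lit 36) (nat_lit 39) (nat_lit 2) (nat_lit 4) (.e true (nat_lit 36) (nat_lit 42) (nat_lit 2) (nat_lit 4) .nil)))))))) .leaf) (nat_lit 51201) (nat_lit 168) (.n (nat_lit 106) (nat_lit 18) (.p (nat_lit 107) (nat_lit 54) (.n (nat_lit 108) (nat_lit 18) (.p (nat_lit 109) (nat_lit 18) (.p (nat_lit 110) (nat_lit 36) .z))))) (.ct dF6as_c35 (nat_lit 36) (nat_lit 4) (.s false (nat_lit 1) (nat_lit 6) (nat_lit 2) (nat_lit 1) (nat_lit 2) true (nat_lit 0) true (nat_lit 3) true (nat_lit 1) true (nat_lit 3) true (nat_lit 4) (.e false (nat_lit 36) (nat_lit 16) (nat_lit 7) (nat_lit 0) (.e false (nat_lit 36) (nat_lit 46) (nat_lit 2) (nat_lit 3) (.e false (nat_lit 36) (nat_lit 19) (nat_lit 6) (nat_lit 1) .nil))))) .leaf) (nat_lit 51203) (nat_lit 350) (.n (nat_lit 157) (nat_lit 144) (.n (nat_lit 158) (nat_lit 144) (.n (nat_lit 159)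 (nat_lit 36) (.p (nat_lit 160) (nat_lit 144) (.p (nat_lit 161) (nat_lit 36) (.p (nat_lit 162) (nat_lit 36) (.p (nat_lit 163) (nat_lit 72) (.p (nat_lit 164) (nat_lit 108) (.p (nat_lit 165) (nat_lit 144) (.n (nat_lit 166) (nat_lit 108) (.p (nat_lit 168) (nat_lit 72) (.p (nat_lit 169) (nat_lit 180) (.p (nat_lit 170) (nat_lit 108) (.p (nat_lit 171) (nat_lit 108) (.p (nat_lit 172) (nat_lit 72) (.n (nat_lit 173) (nat_lit 144) (.p (nat_lit 175) (nat_lit 108) (.n (nat_lit 176) (nat_lit 72) (.p (nat_lit 177) (nat_lit 144) (.n (nat_lit 178) (nat_lit 180) (.p (nat_lit 179) (nat_lit 36) .z))))))))))))))))))))) (.ct dF6as_c291 (nat_lit 36) (nat_lit 7) (.s true (nat_lit 1) (nat_lit 19) (nat_lit 0) (nat_lit 2) (nat_lit 1) true (nat_lit 7) true (nat_lit 9) false (nat_lit 1) true (nat_lit 10) true (nat_lit 8) (.e true (nat_lit 36) (nat_lit 99) (nat_lit 1) (nat_lit 9) (.e true (nat_lit 36) (nat_lit 19) (nat_lit 13) (nat_lit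 1) (.e true (nat_lit 18) (nat_lit 106) (nat_lit 0) (nat_lit 10) (.e false (nat_lit 18) (nat_lit 107) (nat_lit 0) (nat_lit 10) (.e true (nat_lit 18) (nat_lit 108) (nat_lit 0) (nat_lit 10) (.e false (nat_lit 18) (nat_lit 109) (nat_lit 0) (nat_lit 10) (.e true (nat_lit 36) (nat_lit 87) (nat_lit 2) (nat_lit 8) .nil))))))))) (.nd .leaf (nat_lit 52224) (nat_lit 147) (.p (nat_lit 102) (nat_lit 36) .z) .df .leaf))) (nat_lit 52225) (nat_lit 162) (.p (nat_lit 108) (nat_lit 36) .z) .df (.nd (.nd (.nd (.nd .leaf (nat_lit 52227) (nat_lit 337) (.n (nat_lit 157) (nat_lit 93) (.n (nat_lit 158) (nat_lit 15) (.p (nat_lit 159) (nat_lit 15) (.p (nat_lit 160) (nat_lit 63) (.p (nat_lit 161) (nat_lit 93) (.p (nat_lit 163) (nat_lit 42) (.p (nat_lit 164) (nat_lit 87) (.p (nat_lit 165) (nat_lit 276) (.n (nat_lit 166) (nat_lit 183) (.n (nat_lit 167) (nat_lit 24) (.p (nat_lit 168) (nat_lit 120) (.p (nat_lit 169) (nat_lit 258) (.p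 (nat_lit 170) (nat_lit 84) (.p (nat_lit 171) (nat_lit 129) (.p (nat_lit 172) (nat_lit 84) (.n (nat_lit 173) (nat_lit 156) (.p (nat_lit 174) (nat_lit 9) (.p (nat_lit 175) (nat_lit 69) (.n (nat_lit 176) (nat_lit 39) (.p (nat_lit 177) (nat_lit 183) (.n (nat_lit 178) (nat_lit 276) (.p (nat_lit 179) (nat_lit 42) .z)))))))))))))))))))))) (.ct dF6as_c291 (nat_lit 36) (nat_lit 7) (.s true (nat_lit 1) (nat_lit 6) (nat_lit 3) (nat_lit 2) (nat_lit 2) true (nat_lit 1) true (nat_lit 8) true (nat_lit 4) true (nat_lit 7) true (nat_lit 8) (.s false (nat_lit 1) (nat_lit 12) (nat_lit 1) (nat_lit 2) (nat_lit 2) true (nat_lit 4) true (nat_lit 8) true (nat_lit 1) true (nat_lit 9) true (nat_lit 8) (.e false (nat_lit 36) (nat_lit 52) (nat_lit 3) (nat_lit 7) (.e true (nat_lit 72) (nat_lit 80) (nat_lit 2) (nat_lit 8) (.e false (nat_lit 36) (nat_lit 81) (nat_lit 2) (nat_lit 8) (.e true (nat_lit 36) (nat_lit 82) (nat_lit 2) (nat_lit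 8) (.e false (nat_lit 36) (nat_lit 84) (nat_lit 2) (nat_lit 8) (.e true (nat_lit 36) (nat_lit 86) (nat_lit 2) (nat_lit 8) (.e false (nat_lit 36) (nat_lit 87) (nat_lit 2) (nat_lit 8) (.e false (nat_lit 36) (nat_lit 88) (nat_lit 2) (nat_lit 8) (.e false (nat_lit 36) (nat_lit 76) (nat_lit 2) (nat_lit 8) (.e true (nat_lit 36) (nat_lit 103) (nat_lit 1) (nat_lit 9) .nil))))))))))))) .leaf) (nat_lit 53248) (nat_lit 151) (.p (nat_lit 95) (nat_lit 36) (.p (nat_lit 96) (nat_lit 36) (.n (nat_lit 97) (nat_lit 36) (.p (nat_lit 99) (nat_lit 36) (.n (nat_lit 100) (nat_lit 36) (.n (nat_lit 101) (nat_lit 36) (.p (nat_lit 102) (nat_lit 36) .z))))))) (.ct dF6as_c275 (nat_lit 36) (nat_lit 6) (.s false (nat_lit 1) (nat_lit 5) (nat_lit 1) (nat_lit 2) (nat_lit 2) true (nat_lit 1) true (nat_lit 4) true (nat_lit 2) true (nat_lit 5) true (nat_lit 4) (.s false (nat_lit 1) (nat_lit 6) (nat_lit 0) (nat_lit 2) (nat_lit 2) true (nat_lit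 2) true (nat_lit 4) true (nat_lit 1) true (nat_lit 6) true (nat_lit 4) (.e false (nat_lit 36) (nat_lit 39) (nat_lit 2) (nat_lit 4) (.e true (nat_lit 36) (nat_lit 48) (nat_lit 1) (nat_lit 5) (.e true (nat_lit 36) (nat_lit 49) (nat_lit 1) (nat_lit 5) (.e true (nat_lit 36) (nat_lit 41) (nat_lit 2) (nat_lit 4) (.e false (nat_lit 36) (nat_lit 40) (nat_lit 2) (nat_lit 4) (.e false (nat_lit 36) (nat_lit 51) (nat_lit 0) (nat_lit 6) (.e false (nat_lit 36) (nat_lit 43) (nat_lit 2) (nat_lit 4) .nil)))))))))) .leaf) (nat_lit 53249) (nat_lit 163) (.p (nat_lit 109) (nat_lit 36) .z) .df (.nd (.nd .leaf (nat_lit 53251) (nat_lit 335) (.p (nat_lit 157) (nat_lit 111) (.p (nat_lit 158) (nat_lit 69) (.p (nat_lit 159) (nat_lit 39) (.n (nat_lit 160) (nat_lit 117) (.p (nat_lit 161) (nat_lit 33) (.p (nat_lit 162) (nat_lit 36) (.n (nat_lit 163) (nat_lit 42) (.n (nat_lit 164) (nat_lit 69) (.n (nat_lit 165) (nat_lit 24) (.p (nat_lit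 166) (nat_lit 57) (.n (nat_lit 167) (nat_lit 12) (.p (nat_lit 168) (nat_lit 24) (.n (nat_lit 169) (nat_lit 42) (.n (nat_lit 170) (nat_lit 84) (.n (nat_lit 171) (nat_lit 75) (.n (nat_lit 172) (nat_lit 12) (.p (nat_lit 173) (nat_lit 84) (.n (nat_lit 174) (nat_lit 27) (.n (nat_lit 175) (nat_lit 51) (.p (nat_lit 176) (nat_lit 93) (.n (nat_lit 177) (nat_lit 93) (.p (nat_lit 178) (nat_lit 60) (.n (nat_lit 179) (nat_lit 78) .z))))))))))))))))))))))) (.ct dF6as_c291 (nat_lit 36) (nat_lit 7) (.s false (nat_lit 1) (nat_lit 7) (nat_lit 1) (nat_lit 3) (nat_lit 2) true (nat_lit 4) true (nat_lit 8) true (nat_lit 3) true (nat_lit 9) true (nat_lit 7) (.e false (nat_lit 36) (nat_lit 39) (nat_lit 6) (nat_lit 4) (.e true (nat_lit 36) (nat_lit 40) (nat_lit 6) (nat_lit 4) (.e true (nat_lit 36) (nat_lit 41) (nat_lit 6) (nat_lit 4) (.e true (nat_lit 36) (nat_lit 43) (nat_lit 6) (nat_lit 4) (.e true (nat_lit 36) (nat_lit 77) (nat_lit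 2) (nat_lit 8) (.e true (nat_lit 36) (nat_lit 78) (nat_lit 2) (nat_lit 8) (.e true (nat_lit 36) (nat_lit 79) (nat_lit 2) (nat_lit 8) (.e false (nat_lit 36) (nat_lit 80) (nat_lit 2) (nat_lit 8) (.e false (nat_lit 36) (nat_lit 88) (nat_lit 2) (nat_lit 8) (.e false (nat_lit 36) (nat_lit 29) (nat_lit 7) (nat_lit 3) (.e false (nat_lit 36) (nat_lit 103) (nat_lit 1) (nat_lit 9) .nil))))))))))))) .leaf) (nat_lit 54274) (nat_lit 218) (.p (nat_lit 111) (nat_lit 32) (.n (nat_lit 112) (nat_lit 56) (.n (nat_lit 113) (nat_lit 20) (.p (nat_lit 114) (nat_lit 4) (.n (nat_lit 115) (nat_lit 32) (.p (nat_lit 116) (nat_lit 52) (.n (nat_lit 117) (nat_lit 44) (.p (nat_lit 118) (nat_lit 28) (.p (nat_lit 119) (nat_lit 12) (.p (nat_lit 120) (nat_lit 96) (.n (nat_lit 121) (nat_lit 112) (.n (nat_lit 122) (nat_lit 28) (.p (nat_lit 123) (nat_lit 88) (.n (nat_lit 124) (nat_lit 16) (.p (nat_lit 125) (nat_lit 88) (.p (nat_lit 126) (nat_lit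 148) (.p (nat_lit 127) (nat_lit 28) (.n (nat_lit 128) (nat_lit 28) (.n (nat_lit 129) (nat_lit 64) (.n (nat_lit 130) (nat_lit 56) (.p (nat_lit 131) (nat_lit 60) (.n (nat_lit 132) (nat_lit 32) (.p (nat_lit 133) (nat_lit 56) (.n (nat_lit 134) (nat_lit 76) (.p (nat_lit 135) (nat_lit 64) (.p (nat_lit 136) (nat_lit 40) .z)))))))))))))))))))))))))) (.ct dF6as_c546 (nat_lit 36) (nat_lit 9) (.s false (nat_lit 1) (nat_lit 12) (nat_lit 0) (nat_lit 2) (nat_lit 1) true (nat_lit 8) true (nat_lit 10) true (nat_lit 0) true (nat_lit 11) true (nat_lit 9) (.s true (nat_lit 1) (nat_lit 12) (nat_lit 1) (nat_lit 0) (nat_lit 2) true (nat_lit 5) true (nat_lit 9) true (nat_lit 0) true (nat_lit 10) true (nat_lit 11) (.s false (nat_lit 1) (nat_lit 12) (nat_lit 2) (nat_lit 0) (nat_lit 1) true (nat_lit 5) true (nat_lit 10) true (nat_lit 0) true (nat_lit 9) true (nat_lit 11) (.a true (nat_lit 648) (nat_lit 12) (nat_lit 12) (nat_lit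 0) (nat_lit 0) (.e false (nat_lit 36) (nat_lit 38) (nat_lit 3) (nat_lit 8) (.e true (nat_lit 36) (nat_lit 88) (nat_lit 0) (nat_lit 11) (.e true (nat_lit 36) (nat_lit 60) (nat_lit 2) (nat_lit 9) (.e true (nat_lit 36) (nat_lit 70) (nat_lit 1) (nat_lit 10) (.e false (nat_lit 36) (nat_lit 71) (nat_lit 1) (nat_lit 10) (.e true (nat_lit 36) (nat_lit 80) (nat_lit 0) (nat_lit 11) (.e false (nat_lit 36) (nat_lit 69) (nat_lit 1) (nat_lit 10) (.e true (nat_lit 36) (nat_lit 55) (nat_lit 2) (nat_lit 9) (.e true (nat_lit 36) (nat_lit 56) (nat_lit 2) (nat_lit 9) (.e true (nat_lit 36) (nat_lit 58) (nat_lit 2) (nat_lit 9) (.e true (nat_lit 36) (nat_lit 59) (nat_lit 2) (nat_lit 9) (.e false (nat_lit 108) (nat_lit 61) (nat_lit 2) (nat_lit 9) (.e false (nat_lit 72) (nat_lit 62) (nat_lit 2) (nat_lit 9) (.e false (nat_lit 72) (nat_lit 63) (nat_lit 2) (nat_lit 9) (.e false (nat_lit 36) (nat_lit 76) (nat_lit 0) (nat_lit 11) .nil))))))))))))))))))))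 .leaf)) (nat_lit 55298) (nat_lit 170) (.p (nat_lit 111) (nat_lit 36) .z) .df (.nd (.nd (.nd .leaf (nat_lit 56322) (nat_lit 171) (.p (nat_lit 112) (nat_lit 36) .z) .df .leaf) (nat_lit 57346) (nat_lit 172) (.p (nat_lit 113) (nat_lit 36) .z) .df .leaf) (nat_lit 58370) (nat_lit 173) (.p (nat_lit 114) (nat_lit 36) .z) .df (.nd .leaf (nat_lit 59394) (nat_lit 174) (.p (nat_lit 115) (nat_lit 36) .z) .df .leaf))))))

noncomputable def dF6as_t4 : Tr := (.nd (.nd (.nd (.nd (.nd (.nd (.nd .leaf (nat_lit 61442) (nat_lit 200) (.p (nat_lit 111) (nat_lit 8) (.n (nat_lit 112) (nat_lit 32) (.n (nat_lit 113) (nat_lit 32) (.n (nat_lit 114) (nat_lit 8) (.n (nat_lit 115) (nat_lit 8) (.p (nat_lit 116) (nat_lit 4) (.p (nat_lit 117) (nat_lit 52) (.p (nat_lit 118) (nat_lit 16) (.n (nat_lit 119) (nat_lit 24) (.n (nat_lit 120) (nat_lit 48) (.p (nat_lit 121) (nat_lit 8) (.n (nat_lit 122) (nat_lit 16) (.n (nat_lit 123) (nat_lit 32)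 (.p (nat_lit 124) (nat_lit 32) (.p (nat_lit 125) (nat_lit 4) (.n (nat_lit 126) (nat_lit 8) (.p (nat_lit 127) (nat_lit 16) (.n (nat_lit 128) (nat_lit 16) (.n (nat_lit 129) (nat_lit 16) (.p (nat_lit 130) (nat_lit 4) (.n (nat_lit 131) (nat_lit 12) (.p (nat_lit 132) (nat_lit 28) (.n (nat_lit 133) (nat_lit 4) (.p (nat_lit 134) (nat_lit 8) (.p (nat_lit 135) (nat_lit 16) (.n (nat_lit 136) (nat_lit 8) .z)))))))))))))))))))))))))) (.ct dF6as_c546 (nat_lit 72) (nat_lit 9) (.s false (nat_lit 1) (nat_lit 3) (nat_lit 2) (nat_lit 2) (nat_lit 3) true (nat_lit 0) true (nat_lit 8) true (nat_lit 8) true (nat_lit 9) true (nat_lit 9) (.s false (nat_lit 1) (nat_lit 5) (nat_lit 1) (nat_lit 2) (nat_lit 3) true (nat_lit 2) true (nat_lit 8) true (nat_lit 6) true (nat_lit 10) true (nat_lit 9) (.s true (nat_lit 2) (nat_lit 5) (nat_lit 2) (nat_lit 1) (nat_lit 3) true (nat_lit 0) true (nat_lit 8) true (nat_lit 6) true (nat_lit 9) true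 (nat_lit 10) (.s false (nat_lit 1) (nat_lit 6) (nat_lit 0) (nat_lit 0) (nat_lit 6) true (nat_lit 0) true (nat_lit 5) true (nat_lit 5) true (nat_lit 11) true (nat_lit 11) (.s true (nat_lit 1) (nat_lit 6) (nat_lit 0) (nat_lit 3) (nat_lit 2) true (nat_lit 6) true (nat_lit 9) true (nat_lit 5) true (nat_lit 11) true (nat_lit 8) (.s true (nat_lit 1) (nat_lit 6) (nat_lit 2) (nat_lit 3) (nat_lit 0) true (nat_lit 6) true (nat_lit 11) true (nat_lit 5) true (nat_lit 9) true (nat_lit 8) (.s true (nat_lit 1) (nat_lit 6) (nat_lit 5) (nat_lit 0) (nat_lit 1) true (nat_lit 0) true (nat_lit 10) true (nat_lit 5) true (nat_lit 6) true (nat_lit 11) (.s true (nat_lit 1) (nat_lit 12) (nat_lit 0) (nat_lit 2) (nat_lit 1) true (nat_lit 8) true (nat_lit 10) true (nat_lit 0) true (nat_lit 11) true (nat_lit 9) (.s true (nat_lit 1) (nat_lit 12) (nat_lit 1) (nat_lit 0) (nat_lit 2) true (nat_lit 5) true (nat_lit 9) true (nat_lit 0) true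 (nat_lit 10) true (nat_lit 11) (.s true (nat_lit 2) (nat_lit 14) (nat_lit 1) (nat_lit 2) (nat_lit 0) true (nat_lit 8) true (nat_lit 11) true (nat_lit 0) true (nat_lit 10) true (nat_lit 9) (.s false (nat_lit 1) (nat_lit 12) (nat_lit 2) (nat_lit 0) (nat_lit 1) true (nat_lit 5) true (nat_lit 10) true (nat_lit 0) true (nat_lit 9) true (nat_lit 11) (.s true (nat_lit 1) (nat_lit 13) (nat_lit 2) (nat_lit 0) (nat_lit 1) true (nat_lit 5) true (nat_lit 10) true (nat_lit 0) true (nat_lit 9) true (nat_lit 11) dF6as_i5))))))))))))) .leaf) (nat_lit 62466) (nat_lit 175) (.p (nat_lit 116) (nat_lit 36) .z) .df .leaf) (nat_lit 63490) (nat_lit 176) (.p (nat_lit 117) (nat_lit 36) .z) .df (.nd (.nd .leaf (nat_lit 64514) (nat_lit 177) (.p (nat_lit 118) (nat_lit 36) .z) .df .leaf) (nat_lit 65537) (nat_lit 178) (.p (nat_lit 119) (nat_lit 36) .z) .df .leaf)) (nat_lit 65538) (nat_lit 265) (.p (nat_lit 137) (nat_lit 36) (.p (nat_lit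 138) (nat_lit 18) (.p (nat_lit 139) (nat_lit 36) (.n (nat_lit 142) (nat_lit 36) (.n (nat_lit 143) (nat_lit 18) (.n (nat_lit 144) (nat_lit 18) (.p (nat_lit 145) (nat_lit 54) (.p (nat_lit 146) (nat_lit 36) (.n (nat_lit 147) (nat_lit 18) (.p (nat_lit 149) (nat_lit 36) (.n (nat_lit 150) (nat_lit 18) (.p (nat_lit 151) (nat_lit 36) (.p (nat_lit 152) (nat_lit 18) (.n (nat_lit 153) (nat_lit 36) (.n (nat_lit 155) (nat_lit 54) .z))))))))))))))) (.ct dF6as_c531 (nat_lit 1119744) (nat_lit 7) (.s true (nat_lit 15552) (nat_lit 6) (nat_lit 5) (nat_lit 2) (nat_lit 0) true (nat_lit 1) true (nat_lit 9) true (nat_lit 4) true (nat_lit 5) true (nat_lit 7) (.s false (nat_lit 15552) (nat_lit 11) (nat_lit 2) (nat_lit 1) (nat_lit 2) true (nat_lit 3) true (nat_lit 7) true (nat_lit 1) true (nat_lit 7) true (nat_lit 8) (.s false (nat_lit 31104) (nat_lit 12) (nat_lit 0) (nat_lit 2) (nat_lit 2) true (nat_lit 5) true (nat_lit 7) true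 (nat_lit 0) true (nat_lit 9) true (nat_lit 7) (.s false (nat_lit 15552) (nat_lit 17) (nat_lit 0) (nat_lit 1) (nat_lit 2) true (nat_lit 5) true (nat_lit 7) false (nat_lit 0) true (nat_lit 9) true (nat_lit 8) (.s true (nat_lit 15552) (nat_lit 17) (nat_lit 1) (nat_lit 0) (nat_lit 2) true (nat_lit 4) true (nat_lit 7) false (nat_lit 0) true (nat_lit 8) true (nat_lit 9) (.s false (nat_lit 31104) (nat_lit 19) (nat_lit 0) (nat_lit 2) (nat_lit 0) false (nat_lit 10) true (nat_lit 9) false (nat_lit 1) true (nat_lit 9) true (nat_lit 7) (.i true (nat_lit 1) (nat_lit 2) (.c (nat_lit 2) (nat_lit 1) (.c (nat_lit 2) (nat_lit 1) (.c (nat_lit 2) (nat_lit 1) (.c (nat_lit 1) (nat_lit 16) (.c (nat_lit 0) (nat_lit 256) (.c (nat_lit 0) (nat_lit 256) .nil)))))) (.e false (nat_lit 1679616) (nat_lit 94) (nat_lit 0) (nat_lit 9) (.e true (nat_lit 1119744) (nat_lit 98) (nat_lit 0) (nat_lit 9) (.e true (nat_lit 2239488) (nat_lit 99)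 (nat_lit 0) (nat_lit 9) (.e false (nat_lit 559872) (nat_lit 38) (nat_lit 5) (nat_lit 5) (.e false (nat_lit 559872) (nat_lit 39) (nat_lit 5) (nat_lit 5) (.e false (nat_lit 559872) (nat_lit 42) (nat_lit 5) (nat_lit 5) (.e false (nat_lit 559872) (nat_lit 43) (nat_lit 5) (nat_lit 5) (.e false (nat_lit 559872) (nat_lit 70) (nat_lit 2) (nat_lit 7) (.e false (nat_lit 1119744) (nat_lit 73) (nat_lit 2) (nat_lit 7) (.e false (nat_lit 1119744) (nat_lit 74) (nat_lit 2) (nat_lit 7) (.e false (nat_lit 559872) (nat_lit 26) (nat_lit 7) (nat_lit 3) (.e false (nat_lit 559872) (nat_lit 41) (nat_lit 5) (nat_lit 5) (.e true (nat_lit 559872) (nat_lit 93) (nat_lit 1) (nat_lit 8) (.e true (nat_lit 559872) (nat_lit 96) (nat_lit 0) (nat_lit 9) (.e true (nat_lit 1119744) (nat_lit 97) (nat_lit 0) (nat_lit 9) (.e true (nat_lit 1119744) (nat_lit 101) (nat_lit 0) (nat_lit 9) .nil)))))))))))))))))))))))) (.nd (.nd (.nd .leaf (nat_lit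 66561) (nat_lit 179) (.p (nat_lit 120) (nat_lit 36) .z) .df .leaf) (nat_lit 66562) (nat_lit 237) (.p (nat_lit 137) (nat_lit 36) .z) .df .leaf) (nat_lit 67585) (nat_lit 180) (.p (nat_lit 121) (nat_lit 36) .z) .df (.nd .leaf (nat_lit 67586) (nat_lit 264) (.n (nat_lit 138) (nat_lit 18) (.p (nat_lit 139) (nat_lit 18) (.p (nat_lit 140) (nat_lit 18) (.n (nat_lit 141) (nat_lit 18) (.n (nat_lit 142) (nat_lit 36) (.n (nat_lit 143) (nat_lit 36) (.n (nat_lit 144) (nat_lit 18) (.p (nat_lit 146) (nat_lit 72) (.n (nat_lit 147) (nat_lit 90) (.p (nat_lit 148) (nat_lit 18) (.p (nat_lit 149) (nat_lit 18) (.p (nat_lit 150) (nat_lit 72) (.p (nat_lit 151) (nat_lit 90) (.p (nat_lit 152) (nat_lit 108) (.p (nat_lit 153) (nat_lit 18) (.p (nat_lit 154) (nat_lit 72) (.n (nat_lit 156) (nat_lit 54) .z))))))))))))))))) (.ct dF6as_c531 (nat_lit 1119744) (nat_lit 7) (.s false (nat_lit 15552) (nat_lit 6) (nat_lit 0) (nat_lit 5) (nat_lit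 2) true (nat_lit 5) true (nat_lit 7) true (nat_lit 4) true (nat_lit 9) true (nat_lit 5) (.s false (nat_lit 15552) (nat_lit 6) (nat_lit 5) (nat_lit 0) (nat_lit 2) false (nat_lit 0) true (nat_lit 7) true (nat_lit 4) true (nat_lit 5) true (nat_lit 9) (.s true (nat_lit 15552) (nat_lit 14) (nat_lit 2) (nat_lit 0) (nat_lit 2) true (nat_lit 3) true (nat_lit 7) true (nat_lit 0) true (nat_lit 7) true (nat_lit 9) (.i false (nat_lit 1) (nat_lit 2) (.c (nat_lit 2) (nat_lit 1) (.c (nat_lit 2) (nat_lit 1) (.c (nat_lit 2) (nat_lit 1) (.c (nat_lit 1) (nat_lit 16) (.c (nat_lit 0) (nat_lit 256) (.c (nat_lit 0) (nat_lit 256) .nil)))))) (.e false (nat_lit 559872) (nat_lit 43) (nat_lit 5) (nat_lit 5) (.e true (nat_lit 559872) (nat_lit 69) (nat_lit 2) (nat_lit 7) (.e false (nat_lit 559872) (nat_lit 70) (nat_lit 2) (nat_lit 7) (.e false (nat_lit 559872) (nat_lit 73) (nat_lit 2) (nat_lit 7) (.e false (nat_lit 1679616) (nat_lit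 74) (nat_lit 2) (nat_lit 7) (.e true (nat_lit 559872) (nat_lit 95) (nat_lit 0) (nat_lit 9) (.e false (nat_lit 1119744) (nat_lit 97) (nat_lit 0) (nat_lit 9) (.e false (nat_lit 1679616) (nat_lit 101) (nat_lit 0) (nat_lit 9) (.e false (nat_lit 559872) (nat_lit 28) (nat_lit 7) (nat_lit 3) (.e true (nat_lit 559872) (nat_lit 71) (nat_lit 2) (nat_lit 7) (.e false (nat_lit 559872) (nat_lit 96) (nat_lit 0) (nat_lit 9) (.e false (nat_lit 3919104) (nat_lit 99) (nat_lit 0) (nat_lit 9) (.e true (nat_lit 1679616) (nat_lit 103) (nat_lit 0) (nat_lit 9) (.e true (nat_lit 1679616) (nat_lit 94) (nat_lit 0) (nat_lit 9) (.e false (nat_lit 1679616) (nat_lit 98) (nat_lit 0) (nat_lit 9) .nil)))))))))))))))))))) .leaf))) (nat_lit 68609) (nat_lit 209) (.n (nat_lit 111) (nat_lit 48) (.p (nat_lit 112) (nat_lit 84) (.p (nat_lit 113) (nat_lit 48) (.p (nat_lit 114) (nat_lit 12) (.p (nat_lit 115) (nat_lit 12) (.n (nat_lit 116) (nat_lit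 24) (.p (nat_lit 117) (nat_lit 48) (.n (nat_lit 118) (nat_lit 24) (.n (nat_lit 120) (nat_lit 36) (.p (nat_lit 121) (nat_lit 96) (.p (nat_lit 122) (nat_lit 24) (.n (nat_lit 123) (nat_lit 60) (.p (nat_lit 124) (nat_lit 24) (.n (nat_lit 125) (nat_lit 60) (.n (nat_lit 126) (nat_lit 96) (.n (nat_lit 127) (nat_lit 60) (.p (nat_lit 128) (nat_lit 24) (.p (nat_lit 129) (nat_lit 96) (.p (nat_lit 130) (nat_lit 12) (.n (nat_lit 131) (nat_lit 36) (.n (nat_lit 132) (nat_lit 24) (.n (nat_lit 133) (nat_lit 48) (.p (nat_lit 134) (nat_lit 132) (.n (nat_lit 135) (nat_lit 24) (.n (nat_lit 136) (nat_lit 24) .z))))))))))))))))))))))))) (.ct dF6as_c546 (nat_lit 36) (nat_lit 10) (.s false (nat_lit 1) (nat_lit 17) (nat_lit 0) (nat_lit 1) (nat_lit 1) true (nat_lit 8) true (nat_lit 10) false (nat_lit 2) true (nat_lit 11) true (nat_lit 10) (.e false (nat_lit 36) (nat_lit 41) (nat_lit 3) (nat_lit 8) (.e true (nat_lit 72) (nat_lit 64)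 (nat_lit 1) (nat_lit 10) (.e true (nat_lit 72) (nat_lit 65) (nat_lit 1) (nat_lit 10) (.e true (nat_lit 72) (nat_lit 69) (nat_lit 1) (nat_lit 10) (.e false (nat_lit 36) (nat_lit 70) (nat_lit 1) (nat_lit 10) (.e false (nat_lit 36) (nat_lit 71) (nat_lit 1) (nat_lit 10) (.e false (nat_lit 72) (nat_lit 72) (nat_lit 1) (nat_lit 10) (.e false (nat_lit 72) (nat_lit 73) (nat_lit 1) (nat_lit 10) (.e false (nat_lit 108) (nat_lit 74) (nat_lit 1) (nat_lit 10) (.e false (nat_lit 36) (nat_lit 17) (nat_lit 9) (nat_lit 2) (.e true (nat_lit 36) (nat_lit 77) (nat_lit 0) (nat_lit 11) (.e false (nat_lit 36) (nat_lit 78) (nat_lit 0) (nat_lit 11) (.e false (nat_lit 36) (nat_lit 80) (nat_lit 0) (nat_lit 11) (.e true (nat_lit 36) (nat_lit 84) (nat_lit 0) (nat_lit 11) (.e true (nat_lit 36) (nat_lit 88) (nat_lit 0) (nat_lit 11) .nil))))))))))))))))) (.nd (.nd (.nd (.nd .leaf (nat_lit 68610) (nat_lit 266) (.p (nat_lit 137) (nat_lit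 36) (.p (nat_lit 138) (nat_lit 36) (.n (nat_lit 139) (nat_lit 18) (.p (nat_lit 140) (nat_lit 54) (.p (nat_lit 141) (nat_lit 18) (.n (nat_lit 142) (nat_lit 36) (.p (nat_lit 144) (nat_lit 36) (.n (nat_lit 145) (nat_lit 18) (.n (nat_lit 146) (nat_lit 36) (.p (nat_lit 147) (nat_lit 36) (.n (nat_lit 148) (nat_lit 126) (.p (nat_lit 149) (nat_lit 54) (.p (nat_lit 150) (nat_lit 54) (.n (nat_lit 151) (nat_lit 36) (.n (nat_lit 152) (nat_lit 18) (.n (nat_lit 153) (nat_lit 18) (.p (nat_lit 154) (nat_lit 36) (.n (nat_lit 155) (nat_lit 54) (.n (nat_lit 156) (nat_lit 36) .z))))))))))))))))))) (.ct dF6as_c531 (nat_lit 36) (nat_lit 7) (.s false (nat_lit 1) (nat_lit 6) (nat_lit 0) (nat_lit 5) (nat_lit 2) true (nat_lit 5) true (nat_lit 7) true (nat_lit 4) true (nat_lit 9) true (nat_lit 5) (.s false (nat_lit 1) (nat_lit 11) (nat_lit 1) (nat_lit 2) (nat_lit 2) true (nat_lit 4) true (nat_lit 7) true (nat_lit 1) true (nat_lit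 8) true (nat_lit 7) (.s false (nat_lit 1) (nat_lit 19) (nat_lit 0) (nat_lit 2) (nat_lit 0) false (nat_lit 10) true (nat_lit 9) false (nat_lit 1) true (nat_lit 9) true (nat_lit 7) (.e false (nat_lit 36) (nat_lit 38) (nat_lit 5) (nat_lit 5) (.e true (nat_lit 36) (nat_lit 39) (nat_lit 5) (nat_lit 5) (.e true (nat_lit 36) (nat_lit 42) (nat_lit 5) (nat_lit 5) (.e true (nat_lit 36) (nat_lit 66) (nat_lit 2) (nat_lit 7) (.e true (nat_lit 36) (nat_lit 69) (nat_lit 2) (nat_lit 7) (.e false (nat_lit 36) (nat_lit 70) (nat_lit 2) (nat_lit 7) (.e false (nat_lit 36) (nat_lit 73) (nat_lit 2) (nat_lit 7) (.e false (nat_lit 36) (nat_lit 74) (nat_lit 2) (nat_lit 7) (.e false (nat_lit 36) (nat_lit 64) (nat_lit 2) (nat_lit 7) (.e false (nat_lit 36) (nat_lit 90) (nat_lit 1) (nat_lit 8) (.e true (nat_lit 72) (nat_lit 92) (nat_lit 1) (nat_lit 8) (.e true (nat_lit 36) (nat_lit 93) (nat_lit 1) (nat_lit 8) (.e false (nat_lit 36)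 (nat_lit 99) (nat_lit 0) (nat_lit 9) (.e true (nat_lit 36) (nat_lit 95) (nat_lit 0) (nat_lit 9) (.e false (nat_lit 36) (nat_lit 97) (nat_lit 0) (nat_lit 9) (.e false (nat_lit 36) (nat_lit 100) (nat_lit 0) (nat_lit 9) (.e false (nat_lit 36) (nat_lit 101) (nat_lit 0) (nat_lit 9) .nil))))))))))))))))))))) .leaf) (nat_lit 69633) (nat_lit 208) (.n (nat_lit 111) (nat_lit 8) (.p (nat_lit 112) (nat_lit 104) (.p (nat_lit 113) (nat_lit 68) (.p (nat_lit 114) (nat_lit 44) (.p (nat_lit 115) (nat_lit 80) (.n (nat_lit 116) (nat_lit 40) (.n (nat_lit 117) (nat_lit 52) (.n (nat_lit 118) (nat_lit 88) (.p (nat_lit 119) (nat_lit 24) (.n (nat_lit 120) (nat_lit 132) (.p (nat_lit 121) (nat_lit 208) (.p (nat_lit 122) (nat_lit 196) (.n (nat_lit 123) (nat_lit 220) (.p (nat_lit 124) (nat_lit 40) (.n (nat_lit 125) (nat_lit 148) (.n (nat_lit 126) (nat_lit 208) (.n (nat_lit 127) (nat_lit 52) (.p (nat_lit 128) (nat_lit 88) (.p (nat_lit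 129) (nat_lit 160) (.n (nat_lit 130) (nat_lit 40) (.p (nat_lit 131) (nat_lit 12) (.n (nat_lit 132) (nat_lit 64) (.n (nat_lit 133) (nat_lit 32) (.p (nat_lit 134) (nat_lit 100) (.n (nat_lit 135) (nat_lit 124) (.n (nat_lit 136) (nat_lit 64) .z)))))))))))))))))))))))))) (.ct dF6as_c546 (nat_lit 36) (nat_lit 10) (.s true (nat_lit 1) (nat_lit 13) (nat_lit 0) (nat_lit 2) (nat_lit 1) true (nat_lit 8) true (nat_lit 10) true (nat_lit 0) true (nat_lit 11) true (nat_lit 9) (.a false (nat_lit 648) (nat_lit 13) (nat_lit 13) (nat_lit 0) (nat_lit 0) (.e true (nat_lit 36) (nat_lit 39) (nat_lit 3) (nat_lit 8) (.e true (nat_lit 72) (nat_lit 64) (nat_lit 1) (nat_lit 10) (.e true (nat_lit 108) (nat_lit 65) (nat_lit 1) (nat_lit 10) (.e false (nat_lit 36) (nat_lit 66) (nat_lit 1) (nat_lit 10) (.e true (nat_lit 36) (nat_lit 69) (nat_lit 1) (nat_lit 10) (.e true (nat_lit 36) (nat_lit 70) (nat_lit 1) (nat_lit 10) (.e false (nat_lit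 36) (nat_lit 71) (nat_lit 1) (nat_lit 10) (.e false (nat_lit 72) (nat_lit 72) (nat_lit 1) (nat_lit 10) (.e false (nat_lit 36) (nat_lit 73) (nat_lit 1) (nat_lit 10) (.e false (nat_lit 72) (nat_lit 74) (nat_lit 1) (nat_lit 10) (.e false (nat_lit 36) (nat_lit 78) (nat_lit 0) (nat_lit 11) (.e false (nat_lit 36) (nat_lit 82) (nat_lit 0) (nat_lit 11) (.e true (nat_lit 36) (nat_lit 86) (nat_lit 0) (nat_lit 11) (.e true (nat_lit 36) (nat_lit 87) (nat_lit 0) (nat_lit 11) (.e true (nat_lit 36) (nat_lit 88) (nat_lit 0) (nat_lit 11) (.e true (nat_lit 36) (nat_lit 61) (nat_lit 2) (nat_lit 9) .nil))))))))))))))))))) .leaf) (nat_lit 69634) (nat_lit 238) (.p (nat_lit 138) (nat_lit 36) .z) .df (.nd (.nd .leaf (nat_lit 70657) (nat_lit 181) (.p (nat_lit 122) (nat_lit 36) .z) .df .leaf) (nat_lit 70658) (nat_lit 239) (.p (nat_lit 139) (nat_lit 36) .z) .df .leaf)) (nat_lit 71681) (nat_lit 182) (.p (nat_lit 123) (nat_lit 36)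 .z) .df (.nd (.nd (.nd .leaf (nat_lit 71682) (nat_lit 240) (.p (nat_lit 140) (nat_lit 36) .z) .df .leaf) (nat_lit 72705) (nat_lit 183) (.p (nat_lit 124) (nat_lit 36) .z) .df .leaf) (nat_lit 72706) (nat_lit 241) (.p (nat_lit 141) (nat_lit 36) .z) .df (.nd .leaf (nat_lit 73729) (nat_lit 202) (.n (nat_lit 111) (nat_lit 76) (.p (nat_lit 112) (nat_lit 52) (.p (nat_lit 113) (nat_lit 52) (.n (nat_lit 114) (nat_lit 32) (.n (nat_lit 115) (nat_lit 32) (.n (nat_lit 116) (nat_lit 56) (.p (nat_lit 117) (nat_lit 100) (.p (nat_lit 118) (nat_lit 28) (.n (nat_lit 119) (nat_lit 24) (.n (nat_lit 120) (nat_lit 12) (.p (nat_lit 121) (nat_lit 32) (.n (nat_lit 122) (nat_lit 64) (.n (nat_lit 123) (nat_lit 20) (.p (nat_lit 124) (nat_lit 56) (.n (nat_lit 125) (nat_lit 20) (.n (nat_lit 126) (nat_lit 68) (.n (nat_lit 127) (nat_lit 44) (.p (nat_lit 128) (nat_lit 8) (.p (nat_lit 129) (nat_lit 8) (.p (nat_lit 130) (nat_lit 16) (.n (nat_lit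 131) (nat_lit 84) (.p (nat_lit 132) (nat_lit 40) (.n (nat_lit 133) (nat_lit 16) (.p (nat_lit 134) (nat_lit 104) (.p (nat_lit 135) (nat_lit 64) (.n (nat_lit 136) (nat_lit 32) .z)))))))))))))))))))))))))) (.ct dF6as_c546 (nat_lit 36) (nat_lit 10) (.s false (nat_lit 1) (nat_lit 5) (nat_lit 2) (nat_lit 1) (nat_lit 3) true (nat_lit 0) true (nat_lit 8) true (nat_lit 6) true (nat_lit 9) true (nat_lit 10) (.s false (nat_lit 1) (nat_lit 6) (nat_lit 2) (nat_lit 3) (nat_lit 0) true (nat_lit 6) true (nat_lit 11) true (nat_lit 5) true (nat_lit 9) true (nat_lit 8) (.s false (nat_lit 1) (nat_lit 12) (nat_lit 1) (nat_lit 0) (nat_lit 2) true (nat_lit 5) true (nat_lit 9) true (nat_lit 0) true (nat_lit 10) true (nat_lit 11) (.s false (nat_lit 1) (nat_lit 13) (nat_lit 1) (nat_lit 0) (nat_lit 2) true (nat_lit 5) true (nat_lit 9) true (nat_lit 0) true (nat_lit 10) true (nat_lit 11) (.s false (nat_lit 1) (nat_lit 14) (nat_lit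 1) (nat_lit 2) (nat_lit 0) true (nat_lit 8) true (nat_lit 11) true (nat_lit 0) true (nat_lit 10) true (nat_lit 9) (.s true (nat_lit 1) (nat_lit 13) (nat_lit 2) (nat_lit 0) (nat_lit 1) true (nat_lit 5) true (nat_lit 10) true (nat_lit 0) true (nat_lit 9) true (nat_lit 11) dF6as_i7))))))) .leaf)))) (nat_lit 73730) (nat_lit 242) (.p (nat_lit 142) (nat_lit 36) .z) .df (.nd (.nd (.nd (.nd (.nd .leaf (nat_lit 74753) (nat_lit 184) (.p (nat_lit 125) (nat_lit 36) .z) .df .leaf) (nat_lit 74754) (nat_lit 243) (.p (nat_lit 143) (nat_lit 36) .z) .df .leaf) (nat_lit 75777) (nat_lit 185) (.p (nat_lit 126) (nat_lit 36) .z) .df (.nd (.nd .leaf (nat_lit 75778) (nat_lit 258) (.p (nat_lit 139) (nat_lit 36) (.n (nat_lit 142) (nat_lit 36) (.n (nat_lit 143) (nat_lit 36) (.p (nat_lit 146) (nat_lit 36) (.n (nat_lit 147) (nat_lit 36) (.p (nat_lit 150) (nat_lit 36) (.p (nat_lit 151) (nat_lit 36) (.p (nat_lit 152) (nat_lit 36) (.p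 (nat_lit 154) (nat_lit 36) (.n (nat_lit 156) (nat_lit 36) .z)))))))))) (.ct dF6as_c531 (nat_lit 72) (nat_lit 7) (.s true (nat_lit 1) (nat_lit 7) (nat_lit 0) (nat_lit 0) (nat_lit 6) true (nat_lit 0) true (nat_lit 4) true (nat_lit 3) true (nat_lit 9) true (nat_lit 9) (.s true (nat_lit 1) (nat_lit 18) (nat_lit 0) (nat_lit 2) (nat_lit 1) true (nat_lit 6) true (nat_lit 8) false (nat_lit 0) true (nat_lit 9) true (nat_lit 7) (.s false (nat_lit 1) (nat_lit 18) (nat_lit 1) (nat_lit 2) (nat_lit 0) true (nat_lit 6) true (nat_lit 9) false (nat_lit 0) true (nat_lit 8) true (nat_lit 7) (.s true (nat_lit 1) (nat_lit 18) (nat_lit 2) (nat_lit 0) (nat_lit 1) true (nat_lit 4) true (nat_lit 8) false (nat_lit 0) true (nat_lit 7) true (nat_lit 9) (.s true (nat_lit 2) (nat_lit 18) (nat_lit 2) (nat_lit 1) (nat_lit 0) true (nat_lit 5) true (nat_lit 9) false (nat_lit 0) true (nat_lit 7) true (nat_lit 8) (.e false (nat_lit 72) (nat_lit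 97) (nat_lit 0) (nat_lit 9) (.e false (nat_lit 72) (nat_lit 98) (nat_lit 0) (nat_lit 9) (.e false (nat_lit 72) (nat_lit 99) (nat_lit 0) (nat_lit 9) (.e false (nat_lit 72) (nat_lit 101) (nat_lit 0) (nat_lit 9) (.e true (nat_lit 72) (nat_lit 94) (nat_lit 0) (nat_lit 9) (.e true (nat_lit 72) (nat_lit 73) (nat_lit 2) (nat_lit 7) (.e false (nat_lit 72) (nat_lit 93) (nat_lit 1) (nat_lit 8) (.e false (nat_lit 72) (nat_lit 69) (nat_lit 2) (nat_lit 7) (.e true (nat_lit 72) (nat_lit 72) (nat_lit 2) (nat_lit 7) (.e true (nat_lit 72) (nat_lit 42) (nat_lit 5) (nat_lit 5) .nil)))))))))))))))) .leaf) (nat_lit 76800) (nat_lit 214) (.p (nat_lit 111) (nat_lit 44) (.p (nat_lit 112) (nat_lit 4) (.p (nat_lit 113) (nat_lit 4) (.p (nat_lit 114) (nat_lit 28) (.n (nat_lit 115) (nat_lit 8) (.p (nat_lit 116) (nat_lit 76) (.n (nat_lit 117) (nat_lit 92) (.n (nat_lit 118) (nat_lit 20) (.p (nat_lit 119) (nat_lit 48) (.p (nat_lit 120)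 (nat_lit 24) (.p (nat_lit 121) (nat_lit 8) (.p (nat_lit 122) (nat_lit 128) (.n (nat_lit 123) (nat_lit 32) (.n (nat_lit 124) (nat_lit 40) (.n (nat_lit 125) (nat_lit 32) (.n (nat_lit 126) (nat_lit 44) (.p (nat_lit 127) (nat_lit 16) (.p (nat_lit 128) (nat_lit 56) (.p (nat_lit 129) (nat_lit 56) (.n (nat_lit 130) (nat_lit 32) (.p (nat_lit 131) (nat_lit 60) (.n (nat_lit 132) (nat_lit 44) (.n (nat_lit 133) (nat_lit 4) (.n (nat_lit 134) (nat_lit 28) (.n (nat_lit 135) (nat_lit 56) (.p (nat_lit 136) (nat_lit 28) .z)))))))))))))))))))))))))) (.ct dF6as_c546 (nat_lit 36) (nat_lit 11) (.s true (nat_lit 1) (nat_lit 19) (nat_lit 0) (nat_lit 0) (nat_lit 1) true (nat_lit 8) true (nat_lit 10) false (nat_lit 3) true (nat_lit 11) true (nat_lit 11) (.e true (nat_lit 36) (nat_lit 43) (nat_lit 3) (nat_lit 8) (.e true (nat_lit 36) (nat_lit 74) (nat_lit 1) (nat_lit 10) (.e false (nat_lit 36) (nat_lit 77) (nat_lit 0) (nat_lit 11)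 (.e false (nat_lit 36) (nat_lit 78) (nat_lit 0) (nat_lit 11) (.e false (nat_lit 36) (nat_lit 79) (nat_lit 0) (nat_lit 11) (.e false (nat_lit 36) (nat_lit 80) (nat_lit 0) (nat_lit 11) (.e true (nat_lit 36) (nat_lit 81) (nat_lit 0) (nat_lit 11) (.e false (nat_lit 36) (nat_lit 82) (nat_lit 0) (nat_lit 11) (.e true (nat_lit 36) (nat_lit 84) (nat_lit 0) (nat_lit 11) (.e false (nat_lit 36) (nat_lit 86) (nat_lit 0) (nat_lit 11) (.e true (nat_lit 36) (nat_lit 88) (nat_lit 0) (nat_lit 11) .nil))))))))))))) .leaf)) (nat_lit 76802) (nat_lit 330) (.p (nat_lit 157) (nat_lit 93) (.p (nat_lit 158) (nat_lit 15) (.p (nat_lit 159) (nat_lit 57) (.n (nat_lit 160) (nat_lit 27) (.p (nat_lit 161) (nat_lit 15) (.p (nat_lit 162) (nat_lit 72) (.n (nat_lit 163) (nat_lit 6) (.n (nat_lit 164) (nat_lit 15) (.n (nat_lit 165) (nat_lit 60) (.p (nat_lit 166) (nat_lit 75) (.p (nat_lit 167) (nat_lit 24) (.p (nat_lit 168) (nat_lit 24) (.n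 (nat_lit 169) (nat_lit 6) (.n (nat_lit 170) (nat_lit 48) (.n (nat_lit 171) (nat_lit 57) (.p (nat_lit 172) (nat_lit 24) (.p (nat_lit 173) (nat_lit 48) (.n (nat_lit 174) (nat_lit 45) (.p (nat_lit 175) (nat_lit 3) (.p (nat_lit 176) (nat_lit 3) (.n (nat_lit 177) (nat_lit 39) (.p (nat_lit 178) (nat_lit 24) (.n (nat_lit 179) (nat_lit 78) .z))))))))))))))))))))))) (.ct dF6as_c291 (nat_lit 36) (nat_lit 8) (.s false (nat_lit 1) (nat_lit 6) (nat_lit 0) (nat_lit 6) (nat_lit 2) true (nat_lit 5) true (nat_lit 8) true (nat_lit 4) true (nat_lit 10) true (nat_lit 4) (.e true (nat_lit 36) (nat_lit 76) (nat_lit 2) (nat_lit 8) (.e false (nat_lit 72) (nat_lit 77) (nat_lit 2) (nat_lit 8) (.e false (nat_lit 108) (nat_lit 78) (nat_lit 2) (nat_lit 8) (.e false (nat_lit 72) (nat_lit 79) (nat_lit 2) (nat_lit 8) (.e false (nat_lit 36) (nat_lit 80) (nat_lit 2) (nat_lit 8) (.e false (nat_lit 36) (nat_lit 82) (nat_lit 2) (nat_lit 8)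 (.e true (nat_lit 36) (nat_lit 83) (nat_lit 2) (nat_lit 8) (.e true (nat_lit 36) (nat_lit 84) (nat_lit 2) (nat_lit 8) (.e false (nat_lit 36) (nat_lit 86) (nat_lit 2) (nat_lit 8) (.e true (nat_lit 72) (nat_lit 87) (nat_lit 2) (nat_lit 8) (.e true (nat_lit 36) (nat_lit 88) (nat_lit 2) (nat_lit 8) (.e true (nat_lit 36) (nat_lit 40) (nat_lit 6) (nat_lit 4) (.e true (nat_lit 18) (nat_lit 106) (nat_lit 0) (nat_lit 10) (.e false (nat_lit 18) (nat_lit 107) (nat_lit 0) (nat_lit 10) (.e true (nat_lit 18) (nat_lit 108) (nat_lit 0) (nat_lit 10) (.e false (nat_lit 18) (nat_lit 109) (nat_lit 0) (nat_lit 10) (.e true (nat_lit 36) (nat_lit 43) (nat_lit 6) (nat_lit 4) .nil))))))))))))))))))) (.nd (.nd (.nd .leaf (nat_lit 77824) (nat_lit 186) (.p (nat_lit 127) (nat_lit 36) .z) .df .leaf) (nat_lit 77826) (nat_lit 323) (.n (nat_lit 157) (nat_lit 90) (.n (nat_lit 158) (nat_lit 54) (.n (nat_lit 159) (nat_lit 18) (.p (nat_lit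 160) (nat_lit 126) (.p (nat_lit 161) (nat_lit 18) (.p (nat_lit 163) (nat_lit 36) (.p (nat_lit 164) (nat_lit 90) (.p (nat_lit 165) (nat_lit 108) (.n (nat_lit 166) (nat_lit 90) (.p (nat_lit 168) (nat_lit 36) (.p (nat_lit 169) (nat_lit 108) (.p (nat_lit 170) (nat_lit 108) (.p (nat_lit 171) (nat_lit 90) (.p (nat_lit 172) (nat_lit 36) (.n (nat_lit 173) (nat_lit 108) (.p (nat_lit 174) (nat_lit 18) (.p (nat_lit 175) (nat_lit 54) (.n (nat_lit 176) (nat_lit 90) (.p (nat_lit 177) (nat_lit 126) (.n (nat_lit 178) (nat_lit 144) (.p (nat_lit 179) (nat_lit 36) .z))))))))))))))))))))) (.ct dF6as_c291 (nat_lit 36) (nat_lit 8) (.s true (nat_lit 1) (nat_lit 6) (nat_lit 0) (nat_lit 6) (nat_lit 2) true (nat_lit 5) true (nat_lit 8) true (nat_lit 4) true (nat_lit 10) true (nat_lit 4) (.s false (nat_lit 1) (nat_lit 6) (nat_lit 2) (nat_lit 2) (nat_lit 3) true (nat_lit 1) true (nat_lit 7) true (nat_lit 4) true (nat_lit 8) true (nat_lit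 8) (.s false (nat_lit 1) (nat_lit 6) (nat_lit 5) (nat_lit 2) (nat_lit 1) true (nat_lit 1) true (nat_lit 9) true (nat_lit 4) true (nat_lit 5) true (nat_lit 8) (.s true (nat_lit 1) (nat_lit 12) (nat_lit 1) (nat_lit 2) (nat_lit 2) true (nat_lit 4) true (nat_lit 8) true (nat_lit 1) true (nat_lit 9) true (nat_lit 8) (.s true (nat_lit 1) (nat_lit 19) (nat_lit 0) (nat_lit 2) (nat_lit 1) true (nat_lit 7) true (nat_lit 9) false (nat_lit 1) true (nat_lit 10) true (nat_lit 8) (.e false (nat_lit 36) (nat_lit 80) (nat_lit 2) (nat_lit 8) (.e true (nat_lit 36) (nat_lit 82) (nat_lit 2) (nat_lit 8) (.e false (nat_lit 36) (nat_lit 88) (nat_lit 2) (nat_lit 8) (.e false (nat_lit 36) (nat_lit 39) (nat_lit 6) (nat_lit 4) (.e false (nat_lit 36) (nat_lit 94) (nat_lit 1) (nat_lit 9) (.e true (nat_lit 36) (nat_lit 95) (nat_lit 1) (nat_lit 9) (.e true (nat_lit 36) (nat_lit 98) (nat_lit 1) (nat_lit 9) (.e true (nat_lit 72) (nat_lit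 99) (nat_lit 1) (nat_lit 9) (.e true (nat_lit 36) (nat_lit 38) (nat_lit 6) (nat_lit 4) (.e false (nat_lit 36) (nat_lit 103) (nat_lit 1) (nat_lit 9) .nil)))))))))))))))) .leaf) (nat_lit 78848) (nat_lit 187) (.p (nat_lit 128) (nat_lit 36) .z) .df (.nd .leaf (nat_lit 78850) (nat_lit 289) (.p (nat_lit 157) (nat_lit 36) .z) .df .leaf))) (nat_lit 79872) (nat_lit 198) (.p (nat_lit 111) (nat_lit 44) (.p (nat_lit 112) (nat_lit 4) (.p (nat_lit 113) (nat_lit 4) (.p (nat_lit 114) (nat_lit 64) (.p (nat_lit 115) (nat_lit 64) (.p (nat_lit 116) (nat_lit 40) (.n (nat_lit 117) (nat_lit 92) (.n (nat_lit 118) (nat_lit 56) (.p (nat_lit 119) (nat_lit 48) (.n (nat_lit 120) (nat_lit 12) (.p (nat_lit 121) (nat_lit 80) (.p (nat_lit 122) (nat_lit 164) (.n (nat_lit 123) (nat_lit 68) (.n (nat_lit 124) (nat_lit 40) (.n (nat_lit 125) (nat_lit 68) (.n (nat_lit 126) (nat_lit 80) (.p (nat_lit 127) (nat_lit 16) (.p (nat_lit 128) (nat_lit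 20) (.p (nat_lit 129) (nat_lit 56) (.n (nat_lit 130) (nat_lit 32) (.p (nat_lit 131) (nat_lit 60) (.n (nat_lit 132) (nat_lit 80) (.n (nat_lit 133) (nat_lit 4) (.n (nat_lit 134) (nat_lit 28) (.n (nat_lit 135) (nat_lit 92) (.n (nat_lit 136) (nat_lit 8) .z)))))))))))))))))))))))))) (.ct dF6as_c546 (nat_lit 1679616) (nat_lit 11) (.s true (nat_lit 62208) (nat_lit 3) (nat_lit 2) (nat_lit 2) (nat_lit 3) true (nat_lit 0) true (nat_lit 8) true (nat_lit 8) true (nat_lit 9) true (nat_lit 9) (.s true (nat_lit 186624) (nat_lit 5) (nat_lit 1) (nat_lit 2) (nat_lit 3) true (nat_lit 2) true (nat_lit 8) true (nat_lit 6) true (nat_lit 10) true (nat_lit 9) dF6as_i3))) (.nd (.nd (.nd (.nd .leaf (nat_lit 79874) (nat_lit 290) (.p (nat_lit 158) (nat_lit 36) .z) .df .leaf) (nat_lit 80896) (nat_lit 188) (.p (nat_lit 129) (nat_lit 36) .z) .df .leaf) (nat_lit 80898) (nat_lit 291) (.p (nat_lit 159) (nat_lit 36) .z) .df (.nd (.nd .leaf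 (nat_lit 81920) (nat_lit 189) (.p (nat_lit 130) (nat_lit 36) .z) .df .leaf) (nat_lit 81922) (nat_lit 292) (.p (nat_lit 160) (nat_lit 36) .z) .df .leaf)) (nat_lit 82944) (nat_lit 190) (.p (nat_lit 131) (nat_lit 36) .z) .df (.nd (.nd (.nd .leaf (nat_lit 82946) (nat_lit 317) (.n (nat_lit 157) (nat_lit 138) (.n (nat_lit 158) (nat_lit 78) (.n (nat_lit 159) (nat_lit 30) (.p (nat_lit 160) (nat_lit 162) (.p (nat_lit 161) (nat_lit 102) (.p (nat_lit 163) (nat_lit 60) (.p (nat_lit 164) (nat_lit 78) (.p (nat_lit 165) (nat_lit 204) (.n (nat_lit 166) (nat_lit 138) (.p (nat_lit 167) (nat_lit 12) (.p (nat_lit 168) (nat_lit 84) (.p (nat_lit 169) (nat_lit 240) (.p (nat_lit 170) (nat_lit 120) (.p (nat_lit 171) (nat_lit 138) (.p (nat_lit 172) (nat_lit 84) (.n (nat_lit 173) (nat_lit 156) (.p (nat_lit 174) (nat_lit 18) (.p (nat_lit 175) (nat_lit 78) (.n (nat_lit 176) (nat_lit 102) (.p (nat_lit 177) (nat_lit 174) (.n (nat_lit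 178) (nat_lit 240) (.p (nat_lit 179) (nat_lit 60) .z)))))))))))))))))))))) (.ct dF6as_c291 (nat_lit 108) (nat_lit 8) (.s true (nat_lit 1) (nat_lit 5) (nat_lit 4) (nat_lit 2) (nat_lit 2) true (nat_lit 0) true (nat_lit 8) true (nat_lit 5) true (nat_lit 6) true (nat_lit 8) (.s false (nat_lit 2) (nat_lit 6) (nat_lit 0) (nat_lit 2) (nat_lit 6) true (nat_lit 1) true (nat_lit 4) true (nat_lit 4) true (nat_lit 10) true (nat_lit 8) (.s true (nat_lit 2) (nat_lit 6) (nat_lit 0) (nat_lit 6) (nat_lit 2) true (nat_lit 5) true (nat_lit 8) true (nat_lit 4) true (nat_lit 10) true (nat_lit 4) (.s true (nat_lit 1) (nat_lit 6) (nat_lit 1) (nat_lit 5) (nat_lit 2) true (nat_lit 4) true (nat_lit 8) true (nat_lit 4) true (nat_lit 9) true (nat_lit 5) (.s false (nat_lit 2) (nat_lit 6) (nat_lit 2) (nat_lit 2) (nat_lit 3) true (nat_lit 1) true (nat_lit 7) true (nat_lit 4) true (nat_lit 8) true (nat_lit 8) (.s true (nat_lit 1) (nat_lit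 6) (nat_lit 2) (nat_lit 5) (nat_lit 1) true (nat_lit 4) true (nat_lit 9) true (nat_lit 4) true (nat_lit 8) true (nat_lit 5) dF6as_i21))))))) .leaf) (nat_lit 83968) (nat_lit 191) (.p (nat_lit 132) (nat_lit 36) .z) .df .leaf) (nat_lit 83970) (nat_lit 293) (.p (nat_lit 161) (nat_lit 36) .z) .df (.nd .leaf (nat_lit 84992) (nat_lit 207) (.p (nat_lit 111) (nat_lit 120) (.n (nat_lit 112) (nat_lit 12) (.n (nat_lit 113) (nat_lit 12) (.p (nat_lit 114) (nat_lit 96) (.p (nat_lit 115) (nat_lit 132) (.p (nat_lit 116) (nat_lit 96) (.n (nat_lit 117) (nat_lit 228) (.n (nat_lit 118) (nat_lit 120) (.p (nat_lit 119) (nat_lit 108) (.p (nat_lit 121) (nat_lit 84) (.p (nat_lit 122) (nat_lit 300) (.n (nat_lit 123) (nat_lit 84) (.n (nat_lit 124) (nat_lit 132) (.n (nat_lit 125) (nat_lit 84) (.n (nat_lit 126) (nat_lit 48) (.p (nat_lit 127) (nat_lit 24) (.p (nat_lit 128) (nat_lit 48) (.p (nat_lit 129) (nat_lit 120) (.n (nat_lit 130)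 (nat_lit 48) (.p (nat_lit 131) (nat_lit 180) (.n (nat_lit 132) (nat_lit 156) (.p (nat_lit 133) (nat_lit 12) (.n (nat_lit 134) (nat_lit 96) (.n (nat_lit 135) (nat_lit 228) (.n (nat_lit 136) (nat_lit 12) .z))))))))))))))))))))))))) (.ct dF6as_c546 (nat_lit 2239488) (nat_lit 11) (.s false (nat_lit 62208) (nat_lit 19) (nat_lit 0) (nat_lit 0) (nat_lit 1) true (nat_lit 8) true (nat_lit 10) false (nat_lit 3) true (nat_lit 11) true (nat_lit 11) (.i false (nat_lit 1) (nat_lit 2) (.c (nat_lit 2) (nat_lit 1) (.c (nat_lit 2) (nat_lit 1) (.c (nat_lit 1) (nat_lit 16) (.c (nat_lit 1) (nat_lit 16) (.c (nat_lit 0) (nat_lit 256) (.c (nat_lit 0) (nat_lit 256) .nil)))))) (.e false (nat_lit 2239488) (nat_lit 43) (nat_lit 3) (nat_lit 8) (.e false (nat_lit 2239488) (nat_lit 74) (nat_lit 1) (nat_lit 10) (.e false (nat_lit 2799360) (nat_lit 77) (nat_lit 0) (nat_lit 11) (.e false (nat_lit 5038848) (nat_lit 78) (nat_lit 0) (nat_lit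 11) (.e false (nat_lit 3919104) (nat_lit 79) (nat_lit 0) (nat_lit 11) (.e false (nat_lit 559872) (nat_lit 80) (nat_lit 0) (nat_lit 11) (.e false (nat_lit 1119744) (nat_lit 81) (nat_lit 0) (nat_lit 11) (.e true (nat_lit 1119744) (nat_lit 82) (nat_lit 0) (nat_lit 11) (.e true (nat_lit 1679616) (nat_lit 84) (nat_lit 0) (nat_lit 11) (.e false (nat_lit 2239488) (nat_lit 86) (nat_lit 0) (nat_lit 11) (.e true (nat_lit 5598720) (nat_lit 87) (nat_lit 0) (nat_lit 11) (.e true (nat_lit 1679616) (nat_lit 88) (nat_lit 0) (nat_lit 11) (.e true (nat_lit 3359232) (nat_lit 76) (nat_lit 0) (nat_lit 11) .nil)))))))))))))))) .leaf))))) (nat_lit 84994) (nat_lit 326) (.p (nat_lit 157) (nat_lit 150) (.p (nat_lit 158) (nat_lit 138) (.p (nat_lit 159) (nat_lit 42) (.n (nat_lit 160) (nat_lit 126) (.n (nat_lit 161) (nat_lit 6) (.n (nat_lit 163) (nat_lit 84) (.n (nat_lit 164) (nat_lit 138) (.n (nat_lit 165) (nat_lit 156) (.p (nat_lit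 166) (nat_lit 150) (.p (nat_lit 167) (nat_lit 12) (.n (nat_lit 168) (nat_lit 60) (.n (nat_lit 169) (nat_lit 156) (.n (nat_lit 170) (nat_lit 132) (.n (nat_lit 171) (nat_lit 114) (.n (nat_lit 172) (nat_lit 60) (.p (nat_lit 173) (nat_lit 132) (.n (nat_lit 174) (nat_lit 18) (.n (nat_lit 175) (nat_lit 102) (.p (nat_lit 176) (nat_lit 78) (.n (nat_lit 177) (nat_lit 186) (.p (nat_lit 178) (nat_lit 192) (.n (nat_lit 179) (nat_lit 48) .z)))))))))))))))))))))) (.ct dF6as_c291 (nat_lit 36) (nat_lit 8) (.s false (nat_lit 1) (nat_lit 6) (nat_lit 5) (nat_lit 2) (nat_lit 1) true (nat_lit 1) true (nat_lit 9) true (nat_lit 4) true (nat_lit 5) true (nat_lit 8) (.s true (nat_lit 1) (nat_lit 13) (nat_lit 2) (nat_lit 1) (nat_lit 2) true (nat_lit 3) true (nat_lit 8) true (nat_lit 1) true (nat_lit 8) true (nat_lit 9) (.e false (nat_lit 36) (nat_lit 94) (nat_lit 1) (nat_lit 9) (.e true (nat_lit 36) (nat_lit 98) (nat_lit 1) (nat_lit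 9) (.e true (nat_lit 36) (nat_lit 99) (nat_lit 1) (nat_lit 9) (.e false (nat_lit 36) (nat_lit 41) (nat_lit 6) (nat_lit 4) (.e true (nat_lit 36) (nat_lit 76) (nat_lit 2) (nat_lit 8) (.e false (nat_lit 36) (nat_lit 77) (nat_lit 2) (nat_lit 8) (.e false (nat_lit 108) (nat_lit 78) (nat_lit 2) (nat_lit 8) (.e false (nat_lit 36) (nat_lit 79) (nat_lit 2) (nat_lit 8) (.e false (nat_lit 36) (nat_lit 80) (nat_lit 2) (nat_lit 8) (.e true (nat_lit 36) (nat_lit 84) (nat_lit 2) (nat_lit 8) (.e true (nat_lit 72) (nat_lit 87) (nat_lit 2) (nat_lit 8) (.e true (nat_lit 72) (nat_lit 88) (nat_lit 2) (nat_lit 8) (.e true (nat_lit 36) (nat_lit 32) (nat_lit 7) (nat_lit 3) (.e true (nat_lit 36) (nat_lit 81) (nat_lit 2) (nat_lit 8) (.e false (nat_lit 36) (nat_lit 82) (nat_lit 2) (nat_lit 8) .nil)))))))))))))))))) (.nd (.nd (.nd (.nd (.nd (.nd .leaf (nat_lit 86016) (nat_lit 192) (.p (nat_lit 133) (nat_lit 36) .z) .df .leaf) (nat_lit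 86018) (nat_lit 322) (.p (nat_lit 157) (nat_lit 24) (.p (nat_lit 158) (nat_lit 48) (.p (nat_lit 159) (nat_lit 24) (.n (nat_lit 160) (nat_lit 36) (.n (nat_lit 161) (nat_lit 24) (.n (nat_lit 163) (nat_lit 48) (.n (nat_lit 164) (nat_lit 48) (.n (nat_lit 165) (nat_lit 12) (.n (nat_lit 166) (nat_lit 12) (.n (nat_lit 167) (nat_lit 24) (.n (nat_lit 168) (nat_lit 24) (.n (nat_lit 169) (nat_lit 48) (.n (nat_lit 170) (nat_lit 24) (.n (nat_lit 171) (nat_lit 24) (.n (nat_lit 172) (nat_lit 24) (.p (nat_lit 173) (nat_lit 24) (.n (nat_lit 175) (nat_lit 12) (.p (nat_lit 176) (nat_lit 60) (.n (nat_lit 177) (nat_lit 24) (.p (nat_lit 178) (nat_lit 48) (.p (nat_lit 179) (nat_lit 24) .z))))))))))))))))))))) (.ct dF6as_c291 (nat_lit 36) (nat_lit 8) (.s false (nat_lit 1) (nat_lit 6) (nat_lit 0) (nat_lit 6) (nat_lit 2) true (nat_lit 5) true (nat_lit 8) true (nat_lit 4) true (nat_lit 10) true (nat_lit 4) (.s true (nat_lit 1) (nat_lit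 6) (nat_lit 2) (nat_lit 2) (nat_lit 3) true (nat_lit 1) true (nat_lit 7) true (nat_lit 4) true (nat_lit 8) true (nat_lit 8) (.s false (nat_lit 1) (nat_lit 6) (nat_lit 3) (nat_lit 2) (nat_lit 2) true (nat_lit 1) true (nat_lit 8) true (nat_lit 4) true (nat_lit 7) true (nat_lit 8) (.s true (nat_lit 1) (nat_lit 6) (nat_lit 5) (nat_lit 2) (nat_lit 1) true (nat_lit 1) true (nat_lit 9) true (nat_lit 4) true (nat_lit 5) true (nat_lit 8) (.s true (nat_lit 1) (nat_lit 7) (nat_lit 0) (nat_lit 6) (nat_lit 1) true (nat_lit 7) true (nat_lit 9) true (nat_lit 3) true (nat_lit 10) true (nat_lit 4) (.s false (nat_lit 1) (nat_lit 13) (nat_lit 2) (nat_lit 2) (nat_lit 1) true (nat_lit 4) true (nat_lit 9) true (nat_lit 1) true (nat_lit 8) true (nat_lit 8) (.s false (nat_lit 1) (nat_lit 19) (nat_lit 0) (nat_lit 2) (nat_lit 1) true (nat_lit 7) true (nat_lit 9) false (nat_lit 1) true (nat_lit 10) true (nat_lit 8) (.s false (nat_lit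 1) (nat_lit 20) (nat_lit 2) (nat_lit 0) (nat_lit 1) true (nat_lit 4) true (nat_lit 9) false (nat_lit 1) true (nat_lit 8) true (nat_lit 10) (.e false (nat_lit 36) (nat_lit 79) (nat_lit 2) (nat_lit 8) (.e false (nat_lit 36) (nat_lit 82) (nat_lit 2) (nat_lit 8) (.e false (nat_lit 72) (nat_lit 86) (nat_lit 2) (nat_lit 8) (.e true (nat_lit 72) (nat_lit 88) (nat_lit 2) (nat_lit 8) (.e false (nat_lit 36) (nat_lit 106) (nat_lit 0) (nat_lit 10) (.e false (nat_lit 36) (nat_lit 107) (nat_lit 0) (nat_lit 10) (.e false (nat_lit 36) (nat_lit 38) (nat_lit 6) (nat_lit 4) (.e true (nat_lit 36) (nat_lit 81) (nat_lit 2) (nat_lit 8) (.e false (nat_lit 36) (nat_lit 94) (nat_lit 1) (nat_lit 9) (.e true (nat_lit 36) (nat_lit 103) (nat_lit 1) (nat_lit 9) (.e false (nat_lit 36) (nat_lit 33) (nat_lit 7) (nat_lit 3) (.e true (nat_lit 36) (nat_lit 110) (nat_lit 0) (nat_lit 10) (.e true (nat_lit 36) (nat_lit 105) (nat_lit 0) (nat_lit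 10) .nil)))))))))))))))))))))) .leaf) (nat_lit 87040) (nat_lit 219) (.p (nat_lit 111) (nat_lit 36) (.n (nat_lit 112) (nat_lit 36) (.p (nat_lit 114) (nat_lit 36) (.n (nat_lit 117) (nat_lit 72) (.p (nat_lit 120) (nat_lit 72) (.n (nat_lit 121) (nat_lit 72) (.p (nat_lit 123) (nat_lit 72) (.p (nat_lit 125) (nat_lit 36) (.p (nat_lit 126) (nat_lit 72) (.n (nat_lit 129) (nat_lit 36) (.n (nat_lit 130) (nat_lit 36) (.p (nat_lit 131) (nat_lit 36) (.n (nat_lit 132) (nat_lit 36) (.p (nat_lit 133) (nat_lit 36) (.n (nat_lit 134) (nat_lit 72) (.p (nat_lit 135) (nat_lit 72) .z)))))))))))))))) (.ct dF6as_c546 (nat_lit 36) (nat_lit 11) (.s false (nat_lit 1) (nat_lit 15) (nat_lit 0) (nat_lit 0) (nat_lit 2) true (nat_lit 6) true (nat_lit 9) false (nat_lit 1) true (nat_lit 11) true (nat_lit 11) (.e false (nat_lit 36) (nat_lit 34) (nat_lit 5) (nat_lit 6) (.e false (nat_lit 36) (nat_lit 63) (nat_lit 2) (nat_lit 9) (.e false (nat_lit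 36) (nat_lit 76) (nat_lit 0) (nat_lit 11) (.e true (nat_lit 36) (nat_lit 79) (nat_lit 0) (nat_lit 11) (.e true (nat_lit 36) (nat_lit 81) (nat_lit 0) (nat_lit 11) (.e false (nat_lit 36) (nat_lit 82) (nat_lit 0) (nat_lit 11) (.e true (nat_lit 72) (nat_lit 86) (nat_lit 0) (nat_lit 11) (.e true (nat_lit 36) (nat_lit 88) (nat_lit 0) (nat_lit 11) .nil)))))))))) (.nd (.nd .leaf (nat_lit 87042) (nat_lit 315) (.p (nat_lit 157) (nat_lit 111) (.p (nat_lit 158) (nat_lit 69) (.p (nat_lit 159) (nat_lit 39) (.n (nat_lit 160) (nat_lit 153) (.n (nat_lit 161) (nat_lit 39) (.n (nat_lit 163) (nat_lit 6) (.n (nat_lit 164) (nat_lit 69) (.n (nat_lit 165) (nat_lit 60) (.p (nat_lit 166) (nat_lit 21) (.n (nat_lit 167) (nat_lit 12) (.n (nat_lit 168) (nat_lit 12) (.n (nat_lit 169) (nat_lit 114) (.n (nat_lit 170) (nat_lit 84) (.n (nat_lit 171) (nat_lit 111) (.n (nat_lit 172) (nat_lit 48) (.p (nat_lit 173) (nat_lit 120) (.n (nat_lit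 174) (nat_lit 27) (.n (nat_lit 175) (nat_lit 51) (.p (nat_lit 176) (nat_lit 129) (.n (nat_lit 177) (nat_lit 93) (.p (nat_lit 178) (nat_lit 132) (.n (nat_lit 179) (nat_lit 78) .z)))))))))))))))))))))) (.ct dF6as_c291 (nat_lit 2985984) (nat_lit 8) (.s false (nat_lit 10368) (nat_lit 5) (nat_lit 4) (nat_lit 2) (nat_lit 2) true (nat_lit 0) true (nat_lit 8) true (nat_lit 5) true (nat_lit 6) true (nat_lit 8) (.s true (nat_lit 25920) (nat_lit 6) (nat_lit 0) (nat_lit 2) (nat_lit 6) true (nat_lit 1) true (nat_lit 4) true (nat_lit 4) true (nat_lit 10) true (nat_lit 8) (.s true (nat_lit 209952) (nat_lit 6) (nat_lit 0) (nat_lit 6) (nat_lit 2) true (nat_lit 5) true (nat_lit 8) true (nat_lit 4) true (nat_lit 10) true (nat_lit 4) (.s true (nat_lit 173664) (nat_lit 6) (nat_lit 1) (nat_lit 5) (nat_lit 2) true (nat_lit 4) true (nat_lit 8) true (nat_lit 4) true (nat_lit 9) true (nat_lit 5) (.s false (nat_lit 145152) (nat_lit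 6) (nat_lit 2) (nat_lit 2) (nat_lit 3) true (nat_lit 1) true (nat_lit 7) true (nat_lit 4) true (nat_lit 8) true (nat_lit 8) (.s false (nat_lit 194400) (nat_lit 6) (nat_lit 2) (nat_lit 5) (nat_lit 1) true (nat_lit 4) true (nat_lit 9) true (nat_lit 4) true (nat_lit 8) true (nat_lit 5) (.s true (nat_lit 20736) (nat_lit 6) (nat_lit 3) (nat_lit 2) (nat_lit 2) true (nat_lit 1) true (nat_lit 8) true (nat_lit 4) true (nat_lit 7) true (nat_lit 8) (.s true (nat_lit 103680) (nat_lit 6) (nat_lit 5) (nat_lit 2) (nat_lit 1) true (nat_lit 1) true (nat_lit 9) true (nat_lit 4) true (nat_lit 5) true (nat_lit 8) (.s true (nat_lit 6480) (nat_lit 7) (nat_lit 0) (nat_lit 1) (nat_lit 6) true (nat_lit 1) true (nat_lit 4) true (nat_lit 3) true (nat_lit 10) true (nat_lit 9) dF6as_i19)))))))))) .leaf) (nat_lit 88064) (nat_lit 193) (.p (nat_lit 134) (nat_lit 36) .z) .df .leaf)) (nat_lit 88066) (nat_lit 294) (.p (nat_lit 162) (nat_lit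 36) .z) .df (.nd (.nd (.nd .leaf (nat_lit 89088) (nat_lit 194) (.p (nat_lit 135) (nat_lit 36) .z) .df .leaf) (nat_lit 89090) (nat_lit 295) (.p (nat_lit 163) (nat_lit 36) .z) .df .leaf) (nat_lit 90112) (nat_lit 197) (.n (nat_lit 111) (nat_lit 12) (.p (nat_lit 112) (nat_lit 12) (.p (nat_lit 113) (nat_lit 12) (.p (nat_lit 114) (nat_lit 48) (.p (nat_lit 115) (nat_lit 48) (.n (nat_lit 116) (nat_lit 24) (.p (nat_lit 117) (nat_lit 12) (.n (nat_lit 118) (nat_lit 24) (.n (nat_lit 120) (nat_lit 36) (.p (nat_lit 121) (nat_lit 96) (.p (nat_lit 122) (nat_lit 60) (.n (nat_lit 123) (nat_lit 60) (.p (nat_lit 124) (nat_lit 24) (.n (nat_lit 125) (nat_lit 60) (.n (nat_lit 126) (nat_lit 96) (.n (nat_lit 127) (nat_lit 24) (.p (nat_lit 128) (nat_lit 24) (.p (nat_lit 129) (nat_lit 60) (.p (nat_lit 130) (nat_lit 12) (.n (nat_lit 131) (nat_lit 36) (.n (nat_lit 132) (nat_lit 24) (.n (nat_lit 133) (nat_lit 48) (.p (nat_lit 134) (nat_lit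 60) (.n (nat_lit 135) (nat_lit 60) (.n (nat_lit 136) (nat_lit 24) .z))))))))))))))))))))))))) (.ct dF6as_c546 (nat_lit 559872) (nat_lit 11) (.s false (nat_lit 15552) (nat_lit 6) (nat_lit 0) (nat_lit 0) (nat_lit 6) true (nat_lit 0) true (nat_lit 5) true (nat_lit 5) true (nat_lit 11) true (nat_lit 11) (.s false (nat_lit 15552) (nat_lit 6) (nat_lit 0) (nat_lit 3) (nat_lit 2) true (nat_lit 6) true (nat_lit 9) true (nat_lit 5) true (nat_lit 11) true (nat_lit 8) (.s false (nat_lit 15552) (nat_lit 6) (nat_lit 5) (nat_lit 0) (nat_lit 1) true (nat_lit 0) true (nat_lit 10) true (nat_lit 5) true (nat_lit 6) true (nat_lit 11) (.s false (nat_lit 31104) (nat_lit 14) (nat_lit 0) (nat_lit 2) (nat_lit 1) true (nat_lit 8) true (nat_lit 10) true (nat_lit 0) true (nat_lit 11) true (nat_lit 9) (.s true (nat_lit 15552) (nat_lit 12) (nat_lit 1) (nat_lit 0) (nat_lit 2) true (nat_lit 5) true (nat_lit 9) true (nat_lit 0) true (nat_lit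 10) true (nat_lit 11) (.s true (nat_lit 31104) (nat_lit 14) (nat_lit 1) (nat_lit 2) (nat_lit 0) true (nat_lit 8) true (nat_lit 11) true (nat_lit 0) true (nat_lit 10) true (nat_lit 9) (.s false (nat_lit 15552) (nat_lit 13) (nat_lit 2) (nat_lit 0) (nat_lit 1) true (nat_lit 5) true (nat_lit 10) true (nat_lit 0) true (nat_lit 9) true (nat_lit 11) (.s false (nat_lit 15552) (nat_lit 14) (nat_lit 2) (nat_lit 0) (nat_lit 1) true (nat_lit 5) true (nat_lit 10) true (nat_lit 0) true (nat_lit 9) true (nat_lit 11) (.s false (nat_lit 15552) (nat_lit 19) (nat_lit 0) (nat_lit 0) (nat_lit 1) true (nat_lit 8) true (nat_lit 10) false (nat_lit 3) true (nat_lit 11) true (nat_lit 11) (.i false (nat_lit 1) (nat_lit 2) (.c (nat_lit 2) (nat_lit 1) (.c (nat_lit 2) (nat_lit 1) (.c (nat_lit 1) (nat_lit 16) (.c (nat_lit 1) (nat_lit 16) (.c (nat_lit 0) (nat_lit 256) (.c (nat_lit 0) (nat_lit 256) .nil)))))) (.a true (nat_lit 10077696)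 (nat_lit 14) (nat_lit 14) (nat_lit 0) (nat_lit 0) dF6as_i1)))))))))))) (.nd .leaf (nat_lit 90114) (nat_lit 296) (.p (nat_lit 164) (nat_lit 36) .z) .df .leaf))) (nat_lit 91137) (nat_lit 267) (.p (nat_lit 137) (nat_lit 36) (.p (nat_lit 138) (nat_lit 18) (.p (nat_lit 143) (nat_lit 36) (.n (nat_lit 144) (nat_lit 18) (.p (nat_lit 145) (nat_lit 54) (.p (nat_lit 146) (nat_lit 36) (.p (nat_lit 147) (nat_lit 108) (.p (nat_lit 148) (nat_lit 36) (.n (nat_lit 149) (nat_lit 36) (.n (nat_lit 150) (nat_lit 144) (.n (nat_lit 151) (nat_lit 72) (.n (nat_lit 152) (nat_lit 180) (.n (nat_lit 153) (nat_lit 18) (.n (nat_lit 154) (nat_lit 108) (.p (nat_lit 155) (nat_lit 36) (.p (nat_lit 156) (nat_lit 54) .z)))))))))))))))) (.ct dF6as_c531 (nat_lit 1119744) (nat_lit 8) (.s false (nat_lit 31104) (nat_lit 11) (nat_lit 2) (nat_lit 1) (nat_lit 2) true (nat_lit 3) true (nat_lit 7) true (nat_lit 1) true (nat_lit 7) true (nat_lit 8) (.s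 false (nat_lit 31104) (nat_lit 19) (nat_lit 0) (nat_lit 2) (nat_lit 0) false (nat_lit 10) true (nat_lit 9) false (nat_lit 1) true (nat_lit 9) true (nat_lit 7) (.i true (nat_lit 1) (nat_lit 2) (.c (nat_lit 2) (nat_lit 1) (.c (nat_lit 2) (nat_lit 1) (.c (nat_lit 2) (nat_lit 1) (.c (nat_lit 1) (nat_lit 16) (.c (nat_lit 0) (nat_lit 256) (.c (nat_lit 0) (nat_lit 256) .nil)))))) (.e false (nat_lit 1119744) (nat_lit 26) (nat_lit 7) (nat_lit 3) (.e false (nat_lit 1119744) (nat_lit 67) (nat_lit 2) (nat_lit 7) (.e false (nat_lit 1119744) (nat_lit 66) (nat_lit 2) (nat_lit 7) (.e false (nat_lit 1119744) (nat_lit 69) (nat_lit 2) (nat_lit 7) (.e true (nat_lit 1119744) (nat_lit 70) (nat_lit 2) (nat_lit 7) (.e true (nat_lit 1119744) (nat_lit 71) (nat_lit 2) (nat_lit 7) (.e true (nat_lit 1119744) (nat_lit 73) (nat_lit 2) (nat_lit 7) (.e true (nat_lit 2239488) (nat_lit 74) (nat_lit 2) (nat_lit 7) (.e true (nat_lit 2799360)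 (nat_lit 99) (nat_lit 0) (nat_lit 9) (.e true (nat_lit 559872) (nat_lit 97) (nat_lit 0) (nat_lit 9) (.e false (nat_lit 559872) (nat_lit 100) (nat_lit 0) (nat_lit 9) (.e true (nat_lit 1119744) (nat_lit 101) (nat_lit 0) (nat_lit 9) (.e true (nat_lit 1119744) (nat_lit 96) (nat_lit 0) (nat_lit 9) (.e false (nat_lit 1679616) (nat_lit 103) (nat_lit 0) (nat_lit 9) (.e false (nat_lit 1679616) (nat_lit 94) (nat_lit 0) (nat_lit 9) (.e true (nat_lit 1679616) (nat_lit 98) (nat_lit 0) (nat_lit 9) .nil)))))))))))))))))))) (.nd (.nd (.nd (.nd .leaf (nat_lit 92161) (nat_lit 244) (.p (nat_lit 144) (nat_lit 36) .z) .df .leaf) (nat_lit 93185) (nat_lit 276) (.n (nat_lit 139) (nat_lit 54) (.n (nat_lit 140) (nat_lit 54) (.p (nat_lit 141) (nat_lit 54) (.p (nat_lit 143) (nat_lit 54) (.p (nat_lit 145) (nat_lit 18) (.n (nat_lit 146) (nat_lit 72) (.p (nat_lit 147) (nat_lit 162) (.n (nat_lit 148) (nat_lit 54) (.p (nat_lit 149) (nat_lit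 54) (.n (nat_lit 150) (nat_lit 108) (.n (nat_lit 151) (nat_lit 108) (.n (nat_lit 152) (nat_lit 216) (.n (nat_lit 154) (nat_lit 108) (.p (nat_lit 156) (nat_lit 54) .z)))))))))))))) (.ct dF6as_c531 (nat_lit 36) (nat_lit 8) (.s true (nat_lit 1) (nat_lit 12) (nat_lit 0) (nat_lit 2) (nat_lit 2) true (nat_lit 5) true (nat_lit 7) true (nat_lit 0) true (nat_lit 9) true (nat_lit 7) (.s true (nat_lit 1) (nat_lit 17) (nat_lit 0) (nat_lit 1) (nat_lit 2) true (nat_lit 5) true (nat_lit 7) false (nat_lit 0) true (nat_lit 9) true (nat_lit 8) (.e true (nat_lit 36) (nat_lit 38) (nat_lit 5) (nat_lit 5) (.e false (nat_lit 36) (nat_lit 65) (nat_lit 2) (nat_lit 7) (.e false (nat_lit 36) (nat_lit 103) (nat_lit 0) (nat_lit 9) (.e false (nat_lit 36) (nat_lit 69) (nat_lit 2) (nat_lit 7) (.e true (nat_lit 36) (nat_lit 41) (nat_lit 5) (nat_lit 5) (.e false (nat_lit 72) (nat_lit 64) (nat_lit 2) (nat_lit 7) (.e false (nat_lit 36) (nat_lit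 67) (nat_lit 2) (nat_lit 7) (.e true (nat_lit 36) (nat_lit 70) (nat_lit 2) (nat_lit 7) (.e true (nat_lit 36) (nat_lit 71) (nat_lit 2) (nat_lit 7) (.e true (nat_lit 36) (nat_lit 72) (nat_lit 2) (nat_lit 7) (.e true (nat_lit 72) (nat_lit 73) (nat_lit 2) (nat_lit 7) (.e true (nat_lit 108) (nat_lit 74) (nat_lit 2) (nat_lit 7) (.e false (nat_lit 36) (nat_lit 104) (nat_lit 0) (nat_lit 9) .nil)))))))))))))))) .leaf) (nat_lit 94209) (nat_lit 245) (.p (nat_lit 145) (nat_lit 36) .z) .df (.nd (.nd .leaf (nat_lit 95233) (nat_lit 246) (.p (nat_lit 146) (nat_lit 36) .z) .df .leaf) (nat_lit 96256) (nat_lit 247) (.p (nat_lit 147) (nat_lit 36) .z) .df .leaf)) (nat_lit 96257) (nat_lit 314) (.n (nat_lit 157) (nat_lit 90) (.n (nat_lit 158) (nat_lit 54) (.n (nat_lit 159) (nat_lit 18) (.p (nat_lit 160) (nat_lit 90) (.p (nat_lit 161) (nat_lit 54) (.p (nat_lit 163) (nat_lit 36) (.p (nat_lit 164) (nat_lit 54) (.p (nat_lit 165)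 (nat_lit 144) (.n (nat_lit 166) (nat_lit 90) (.p (nat_lit 168) (nat_lit 72) (.p (nat_lit 169) (nat_lit 180) (.p (nat_lit 170) (nat_lit 72) (.p (nat_lit 171) (nat_lit 90) (.p (nat_lit 172) (nat_lit 36) (.n (nat_lit 173) (nat_lit 108) (.p (nat_lit 174) (nat_lit 18) (.p (nat_lit 175) (nat_lit 54) (.n (nat_lit 176) (nat_lit 54) (.p (nat_lit 177) (nat_lit 90) (.n (nat_lit 178) (nat_lit 144) (.p (nat_lit 179) (nat_lit 36) .z))))))))))))))))))))) (.ct dF6as_c291 (nat_lit 1119744) (nat_lit 9) (.s false (nat_lit 31104) (nat_lit 5) (nat_lit 4) (nat_lit 2) (nat_lit 2) true (nat_lit 0) true (nat_lit 8) true (nat_lit 5) true (nat_lit 6) true (nat_lit 8) (.s true (nat_lit 139968) (nat_lit 6) (nat_lit 0) (nat_lit 2) (nat_lit 6) true (nat_lit 1) true (nat_lit 4) true (nat_lit 4) true (nat_lit 10) true (nat_lit 8) (.s false (nat_lit 241056) (nat_lit 6) (nat_lit 0) (nat_lit 6) (nat_lit 2) true (nat_lit 5) true (nat_lit 8)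 true (nat_lit 4) true (nat_lit 10) true (nat_lit 4) dF6as_i17)))) (.nd (.nd (.nd .leaf (nat_lit 97280) (nat_lit 248) (.p (nat_lit 148) (nat_lit 36) .z) .df .leaf) (nat_lit 97281) (nat_lit 297) (.p (nat_lit 165) (nat_lit 36) .z) .df .leaf) (nat_lit 98304) (nat_lit 249) (.p (nat_lit 149) (nat_lit 36) .z) .df (.nd .leaf (nat_lit 98305) (nat_lit 298) (.p (nat_lit 166) (nat_lit 36) .z) .df .leaf)))) (nat_lit 99328) (nat_lit 250) (.p (nat_lit 150) (nat_lit 36) .z) .df (.nd (.nd (.nd (.nd (.nd .leaf (nat_lit 99329) (nat_lit 299) (.p (nat_lit 167) (nat_lit 36) .z) .df .leaf) (nat_lit 100352) (nat_lit 251) (.p (nat_lit 151) (nat_lit 36) .z) .df .leaf) (nat_lit 100353) (nat_lit 300) (.p (nat_lit 168) (nat_lit 36) .z) .df (.nd (.nd .leaf (nat_lit 101376) (nat_lit 252) (.p (nat_lit 152) (nat_lit 36) .z) .df .leaf) (nat_lit 101377) (nat_lit 301) (.p (nat_lit 169) (nat_lit 36) .z) .df .leaf)) (nat_lit 102400) (nat_lit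 253) (.p (nat_lit 153) (nat_lit 36) .z) .df (.nd (.nd (.nd .leaf (nat_lit 102401) (nat_lit 319) (.n (nat_lit 157) (nat_lit 24) (.p (nat_lit 158) (nat_lit 24) (.n (nat_lit 159) (nat_lit 24) (.p (nat_lit 160) (nat_lit 36) (.n (nat_lit 161) (nat_lit 12) (.n (nat_lit 163) (nat_lit 24) (.n (nat_lit 164) (nat_lit 24) (.n (nat_lit 165) (nat_lit 24) (.p (nat_lit 166) (nat_lit 12) (.n (nat_lit 167) (nat_lit 12) (.n (nat_lit 168) (nat_lit 12) (.p (nat_lit 169) (nat_lit 12) (.n (nat_lit 170) (nat_lit 12) (.p (nat_lit 171) (nat_lit 60) (.n (nat_lit 172) (nat_lit 48) (.n (nat_lit 173) (nat_lit 24) (.p (nat_lit 174) (nat_lit 36) (.p (nat_lit 175) (nat_lit 12) (.n (nat_lit 176) (nat_lit 24) (.n (nat_lit 177) (nat_lit 12) (.p (nat_lit 178) (nat_lit 24) (.p (nat_lit 179) (nat_lit 48) .z)))))))))))))))))))))) (.ct dF6as_c291 (nat_lit 36) (nat_lit 9) (.s true (nat_lit 1) (nat_lit 6) (nat_lit 0) (nat_lit 2) (nat_lit 6) true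 (nat_lit 1) true (nat_lit 4) true (nat_lit 4) true (nat_lit 10) true (nat_lit 8) (.s true (nat_lit 1) (nat_lit 6) (nat_lit 1) (nat_lit 5) (nat_lit 2) true (nat_lit 4) true (nat_lit 8) true (nat_lit 4) true (nat_lit 9) true (nat_lit 5) (.s true (nat_lit 1) (nat_lit 6) (nat_lit 5) (nat_lit 2) (nat_lit 1) true (nat_lit 1) true (nat_lit 9) true (nat_lit 4) true (nat_lit 5) true (nat_lit 8) (.s true (nat_lit 1) (nat_lit 13) (nat_lit 2) (nat_lit 2) (nat_lit 1) true (nat_lit 4) true (nat_lit 9) true (nat_lit 1) true (nat_lit 8) true (nat_lit 8) (.s true (nat_lit 1) (nat_lit 19) (nat_lit 0) (nat_lit 1) (nat_lit 2) true (nat_lit 5) true (nat_lit 8) false (nat_lit 1) true (nat_lit 10) true (nat_lit 9) (.s false (nat_lit 1) (nat_lit 19) (nat_lit 0) (nat_lit 2) (nat_lit 1) true (nat_lit 7) true (nat_lit 9) false (nat_lit 1) true (nat_lit 10) true (nat_lit 8) dF6as_i22))))))) .leaf) (nat_lit 103424) (nat_lit 254) (.p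 (nat_lit 154) (nat_lit 36) .z) .df .leaf) (nat_lit 103425) (nat_lit 318) (.n (nat_lit 157) (nat_lit 132) (.n (nat_lit 158) (nat_lit 84) (.n (nat_lit 159) (nat_lit 24) (.p (nat_lit 160) (nat_lit 144) (.p (nat_lit 161) (nat_lit 60) (.p (nat_lit 162) (nat_lit 36) (.p (nat_lit 163) (nat_lit 84) (.p (nat_lit 164) (nat_lit 84) (.p (nat_lit 165) (nat_lit 192) (.n (nat_lit 166) (nat_lit 132) (.n (nat_lit 167) (nat_lit 12) (.p (nat_lit 168) (nat_lit 60) (.p (nat_lit 169) (nat_lit 156) (.p (nat_lit 170) (nat_lit 132) (.p (nat_lit 171) (nat_lit 96) (.p (nat_lit 172) (nat_lit 96) (.n (nat_lit 173) (nat_lit 96) (.p (nat_lit 175) (nat_lit 84) (.n (nat_lit 176) (nat_lit 96) (.p (nat_lit 177) (nat_lit 132) (.n (nat_lit 178) (nat_lit 192) (.p (nat_lit 179) (nat_lit 48) .z)))))))))))))))))))))) (.ct dF6as_c291 (nat_lit 36) (nat_lit 9) (.s true (nat_lit 1) (nat_lit 13) (nat_lit 1) (nat_lit 2) (nat_lit 2) true (nat_lit 4)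 true (nat_lit 8) true (nat_lit 1) true (nat_lit 9) true (nat_lit 8) (.s false (nat_lit 1) (nat_lit 13) (nat_lit 2) (nat_lit 1) (nat_lit 2) true (nat_lit 3) true (nat_lit 8) true (nat_lit 1) true (nat_lit 8) true (nat_lit 9) (.e true (nat_lit 36) (nat_lit 39) (nat_lit 6) (nat_lit 4) (.e true (nat_lit 36) (nat_lit 77) (nat_lit 2) (nat_lit 8) (.e true (nat_lit 72) (nat_lit 94) (nat_lit 1) (nat_lit 9) (.e false (nat_lit 72) (nat_lit 95) (nat_lit 1) (nat_lit 9) (.e true (nat_lit 36) (nat_lit 96) (nat_lit 1) (nat_lit 9) (.e true (nat_lit 36) (nat_lit 97) (nat_lit 1) (nat_lit 9) (.e false (nat_lit 36) (nat_lit 98) (nat_lit 1) (nat_lit 9) (.e false (nat_lit 36) (nat_lit 99) (nat_lit 1) (nat_lit 9) (.e false (nat_lit 36) (nat_lit 103) (nat_lit 1) (nat_lit 9) (.e false (nat_lit 72) (nat_lit 81) (nat_lit 2) (nat_lit 8) (.e false (nat_lit 36) (nat_lit 32) (nat_lit 7) (nat_lit 3) (.e true (nat_lit 36) (nat_lit 78) (nat_lit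 2) (nat_lit 8) (.e true (nat_lit 36) (nat_lit 82) (nat_lit 2) (nat_lit 8) (.e false (nat_lit 36) (nat_lit 86) (nat_lit 2) (nat_lit 8) (.e false (nat_lit 36) (nat_lit 87) (nat_lit 2) (nat_lit 8) (.e false (nat_lit 36) (nat_lit 88) (nat_lit 2) (nat_lit 8) .nil))))))))))))))))))) (.nd .leaf (nat_lit 104448) (nat_lit 268) (.p (nat_lit 137) (nat_lit 72) (.p (nat_lit 138) (nat_lit 36) (.p (nat_lit 139) (nat_lit 36) (.p (nat_lit 140) (nat_lit 36) (.n (nat_lit 141) (nat_lit 36) (.p (nat_lit 143) (nat_lit 36) (.p (nat_lit 145) (nat_lit 36) (.p (nat_lit 147) (nat_lit 108) (.n (nat_lit 149) (nat_lit 72) (.n (nat_lit 150) (nat_lit 108) (.n (nat_lit 151) (nat_lit 72) (.n (nat_lit 152) (nat_lit 180) (.n (nat_lit 154) (nat_lit 72) (.p (nat_lit 156) (nat_lit 72) .z)))))))))))))) (.ct dF6as_c531 (nat_lit 559872) (nat_lit 9) (.s true (nat_lit 15552) (nat_lit 19) (nat_lit 0) (nat_lit 0) (nat_lit 2) true (nat_lit 5) true (nat_lit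 7) false (nat_lit 1) true (nat_lit 9) true (nat_lit 9) (.i true (nat_lit 1) (nat_lit 2) (.c (nat_lit 2) (nat_lit 1) (.c (nat_lit 2) (nat_lit 1) (.c (nat_lit 2) (nat_lit 1) (.c (nat_lit 1) (nat_lit 16) (.c (nat_lit 0) (nat_lit 256) (.c (nat_lit 0) (nat_lit 256) .nil)))))) (.e true (nat_lit 559872) (nat_lit 43) (nat_lit 5) (nat_lit 5) (.e true (nat_lit 559872) (nat_lit 74) (nat_lit 2) (nat_lit 7) (.e true (nat_lit 559872) (nat_lit 95) (nat_lit 0) (nat_lit 9) (.e true (nat_lit 559872) (nat_lit 97) (nat_lit 0) (nat_lit 9) (.e false (nat_lit 559872) (nat_lit 100) (nat_lit 0) (nat_lit 9) (.e true (nat_lit 1119744) (nat_lit 101) (nat_lit 0) (nat_lit 9) (.e false (nat_lit 2239488) (nat_lit 94) (nat_lit 0) (nat_lit 9) (.e true (nat_lit 559872) (nat_lit 96) (nat_lit 0) (nat_lit 9) (.e true (nat_lit 4478976) (nat_lit 99) (nat_lit 0) (nat_lit 9) (.e false (nat_lit 1119744) (nat_lit 103) (nat_lit 0) (nat_lit 9) (.e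 true (nat_lit 1679616) (nat_lit 98) (nat_lit 0) (nat_lit 9) .nil)))))))))))))) .leaf))) (nat_lit 104449) (nat_lit 331) (.n (nat_lit 157) (nat_lit 75) (.n (nat_lit 158) (nat_lit 33) (.n (nat_lit 159) (nat_lit 39) (.p (nat_lit 160) (nat_lit 117) (.p (nat_lit 161) (nat_lit 75) (.p (nat_lit 163) (nat_lit 6) (.p (nat_lit 164) (nat_lit 33) (.p (nat_lit 165) (nat_lit 60) (.n (nat_lit 166) (nat_lit 57) (.p (nat_lit 167) (nat_lit 12) (.p (nat_lit 168) (nat_lit 48) (.p (nat_lit 169) (nat_lit 114) (.p (nat_lit 170) (nat_lit 48) (.p (nat_lit 171) (nat_lit 111) (.p (nat_lit 172) (nat_lit 12) (.n (nat_lit 173) (nat_lit 84) (.p (nat_lit 174) (nat_lit 27) (.p (nat_lit 175) (nat_lit 51) (.n (nat_lit 176) (nat_lit 93) (.p (nat_lit 177) (nat_lit 57) (.n (nat_lit 178) (nat_lit 132) (.p (nat_lit 179) (nat_lit 78) .z)))))))))))))))))))))) (.ct dF6as_c291 (nat_lit 36) (nat_lit 9) (.s true (nat_lit 1) (nat_lit 13) (nat_lit 2)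 (nat_lit 2) (nat_lit 1) true (nat_lit 4) true (nat_lit 9) true (nat_lit 1) true (nat_lit 8) true (nat_lit 8) (.s true (nat_lit 1) (nat_lit 20) (nat_lit 2) (nat_lit 0) (nat_lit 1) true (nat_lit 4) true (nat_lit 9) false (nat_lit 1) true (nat_lit 8) true (nat_lit 10) (.e true (nat_lit 36) (nat_lit 95) (nat_lit 1) (nat_lit 9) (.e false (nat_lit 36) (nat_lit 82) (nat_lit 2) (nat_lit 8) (.e true (nat_lit 36) (nat_lit 86) (nat_lit 2) (nat_lit 8) (.e true (nat_lit 36) (nat_lit 87) (nat_lit 2) (nat_lit 8) (.e true (nat_lit 72) (nat_lit 38) (nat_lit 6) (nat_lit 4) (.e true (nat_lit 36) (nat_lit 40) (nat_lit 6) (nat_lit 4) (.e false (nat_lit 36) (nat_lit 41) (nat_lit 6) (nat_lit 4) (.e false (nat_lit 36) (nat_lit 42) (nat_lit 6) (nat_lit 4) (.e false (nat_lit 36) (nat_lit 43) (nat_lit 6) (nat_lit 4) (.e true (nat_lit 36) (nat_lit 79) (nat_lit 2) (nat_lit 8) (.e false (nat_lit 36) (nat_lit 80) (nat_lit 2) (nat_lit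 8) (.e false (nat_lit 36) (nat_lit 105) (nat_lit 0) (nat_lit 10) (.e true (nat_lit 36) (nat_lit 106) (nat_lit 0) (nat_lit 10) (.e true (nat_lit 36) (nat_lit 107) (nat_lit 0) (nat_lit 10) .nil))))))))))))))))) (.nd (.nd (.nd (.nd .leaf (nat_lit 105472) (nat_lit 255) (.p (nat_lit 155) (nat_lit 36) .z) .df .leaf) (nat_lit 105473) (nat_lit 302) (.p (nat_lit 170) (nat_lit 36) .z) .df .leaf) (nat_lit 106496) (nat_lit 270) (.n (nat_lit 147) (nat_lit 54) (.n (nat_lit 148) (nat_lit 36) (.p (nat_lit 149) (nat_lit 36) (.p (nat_lit 150) (nat_lit 54) (.p (nat_lit 151) (nat_lit 54) (.p (nat_lit 152) (nat_lit 126) (.p (nat_lit 153) (nat_lit 18) (.p (nat_lit 154) (nat_lit 72) (.n (nat_lit 155) (nat_lit 54) .z))))))))) (.ct dF6as_c531 (nat_lit 1119744) (nat_lit 9) (.i false (nat_lit 1) (nat_lit 2) (.c (nat_lit 2) (nat_lit 1) (.c (nat_lit 2) (nat_lit 1) (.c (nat_lit 2) (nat_lit 1) (.c (nat_lit 1) (nat_lit 16) (.c (nat_lit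 0) (nat_lit 256) (.c (nat_lit 0) (nat_lit 256) .nil)))))) (.e true (nat_lit 1119744) (nat_lit 95) (nat_lit 0) (nat_lit 9) (.e false (nat_lit 1119744) (nat_lit 96) (nat_lit 0) (nat_lit 9) (.e false (nat_lit 1679616) (nat_lit 97) (nat_lit 0) (nat_lit 9) (.e false (nat_lit 559872) (nat_lit 100) (nat_lit 0) (nat_lit 9) (.e false (nat_lit 3919104) (nat_lit 99) (nat_lit 0) (nat_lit 9) (.e false (nat_lit 2239488) (nat_lit 101) (nat_lit 0) (nat_lit 9) (.e true (nat_lit 1679616) (nat_lit 103) (nat_lit 0) (nat_lit 9) (.e true (nat_lit 1679616) (nat_lit 94) (nat_lit 0) (nat_lit 9) (.e false (nat_lit 1679616) (nat_lit 98) (nat_lit 0) (nat_lit 9) .nil))))))))))) (.nd (.nd .leaf (nat_lit 106497) (nat_lit 332) (.n (nat_lit 157) (nat_lit 141) (.n (nat_lit 158) (nat_lit 75) (.n (nat_lit 159) (nat_lit 33) (.p (nat_lit 160) (nat_lit 171) (.p (nat_lit 161) (nat_lit 33) (.p (nat_lit 162) (nat_lit 72) (.p (nat_lit 163) (nat_lit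 102) (.p (nat_lit 164) (nat_lit 75) (.p (nat_lit 165) (nat_lit 120) (.n (nat_lit 166) (nat_lit 87) (.p (nat_lit 167) (nat_lit 24) (.p (nat_lit 168) (nat_lit 60) (.p (nat_lit 169) (nat_lit 174) (.p (nat_lit 170) (nat_lit 96) (.p (nat_lit 171) (nat_lit 141) (.p (nat_lit 172) (nat_lit 60) (.n (nat_lit 173) (nat_lit 96) (.p (nat_lit 174) (nat_lit 45) (.p (nat_lit 175) (nat_lit 93) (.n (nat_lit 176) (nat_lit 123) (.p (nat_lit 177) (nat_lit 123) (.n (nat_lit 178) (nat_lit 156) (.p (nat_lit 179) (nat_lit 66) .z))))))))))))))))))))))) (.ct dF6as_c291 (nat_lit 36) (nat_lit 9) (.s true (nat_lit 1) (nat_lit 6) (nat_lit 1) (nat_lit 5) (nat_lit 2) true (nat_lit 4) true (nat_lit 8) true (nat_lit 4) true (nat_lit 9) true (nat_lit 5) (.e true (nat_lit 36) (nat_lit 38) (nat_lit 6) (nat_lit 4) (.e false (nat_lit 36) (nat_lit 42) (nat_lit 6) (nat_lit 4) (.e false (nat_lit 36) (nat_lit 43) (nat_lit 6) (nat_lit 4) (.e true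 (nat_lit 36) (nat_lit 76) (nat_lit 2) (nat_lit 8) (.e false (nat_lit 36) (nat_lit 77) (nat_lit 2) (nat_lit 8) (.e false (nat_lit 72) (nat_lit 78) (nat_lit 2) (nat_lit 8) (.e false (nat_lit 36) (nat_lit 79) (nat_lit 2) (nat_lit 8) (.e false (nat_lit 36) (nat_lit 80) (nat_lit 2) (nat_lit 8) (.e true (nat_lit 36) (nat_lit 83) (nat_lit 2) (nat_lit 8) (.e true (nat_lit 36) (nat_lit 84) (nat_lit 2) (nat_lit 8) (.e false (nat_lit 36) (nat_lit 86) (nat_lit 2) (nat_lit 8) (.e true (nat_lit 36) (nat_lit 87) (nat_lit 2) (nat_lit 8) (.e true (nat_lit 36) (nat_lit 88) (nat_lit 2) (nat_lit 8) (.e false (nat_lit 36) (nat_lit 46) (nat_lit 5) (nat_lit 5) .nil)))))))))))))))) .leaf) (nat_lit 107520) (nat_lit 303) (.p (nat_lit 171) (nat_lit 36) .z) .df .leaf)) (nat_lit 108544) (nat_lit 304) (.p (nat_lit 172) (nat_lit 36) .z) .df (.nd (.nd (.nd .leaf (nat_lit 109568) (nat_lit 305) (.p (nat_lit 173) (nat_lit 36) .z) .df .leaf)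 (nat_lit 110592) (nat_lit 329) (.p (nat_lit 157) (nat_lit 12) (.p (nat_lit 158) (nat_lit 60) (.p (nat_lit 159) (nat_lit 12) (.n (nat_lit 161) (nat_lit 48) (.n (nat_lit 163) (nat_lit 24) (.p (nat_lit 164) (nat_lit 12) (.n (nat_lit 165) (nat_lit 60) (.n (nat_lit 166) (nat_lit 60) (.p (nat_lit 167) (nat_lit 24) (.n (nat_lit 168) (nat_lit 48) (.n (nat_lit 169) (nat_lit 96) (.p (nat_lit 170) (nat_lit 24) (.p (nat_lit 171) (nat_lit 24) (.n (nat_lit 172) (nat_lit 48) (.p (nat_lit 173) (nat_lit 48) (.p (nat_lit 174) (nat_lit 36) (.p (nat_lit 175) (nat_lit 12) (.n (nat_lit 176) (nat_lit 60) (.p (nat_lit 177) (nat_lit 24) (.p (nat_lit 178) (nat_lit 24) (.p (nat_lit 179) (nat_lit 48) .z))))))))))))))))))))) (.ct dF6as_c291 (nat_lit 36) (nat_lit 10) (.s true (nat_lit 1) (nat_lit 6) (nat_lit 0) (nat_lit 2) (nat_lit 6) true (nat_lit 1) true (nat_lit 4) true (nat_lit 4) true (nat_lit 10) true (nat_lit 8) (.s false (nat_lit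 1) (nat_lit 6) (nat_lit 0) (nat_lit 6) (nat_lit 2) true (nat_lit 5) true (nat_lit 8) true (nat_lit 4) true (nat_lit 10) true (nat_lit 4) (.s false (nat_lit 1) (nat_lit 14) (nat_lit 2) (nat_lit 1) (nat_lit 2) true (nat_lit 3) true (nat_lit 8) true (nat_lit 1) true (nat_lit 8) true (nat_lit 9) (.e true (nat_lit 72) (nat_lit 40) (nat_lit 6) (nat_lit 4) (.e true (nat_lit 36) (nat_lit 38) (nat_lit 6) (nat_lit 4) (.e false (nat_lit 36) (nat_lit 39) (nat_lit 6) (nat_lit 4) (.e false (nat_lit 36) (nat_lit 42) (nat_lit 6) (nat_lit 4) (.e true (nat_lit 36) (nat_lit 106) (nat_lit 0) (nat_lit 10) (.e false (nat_lit 36) (nat_lit 107) (nat_lit 0) (nat_lit 10) (.e false (nat_lit 36) (nat_lit 109) (nat_lit 0) (nat_lit 10) (.e false (nat_lit 36) (nat_lit 82) (nat_lit 2) (nat_lit 8) (.e false (nat_lit 36) (nat_lit 33) (nat_lit 7) (nat_lit 3) (.e true (nat_lit 36) (nat_lit 96) (nat_lit 1) (nat_lit 9) .nil)))))))))))))) .leaf)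 (nat_lit 111616) (nat_lit 321) (.n (nat_lit 160) (nat_lit 36) (.n (nat_lit 161) (nat_lit 108) (.n (nat_lit 165) (nat_lit 108) (.n (nat_lit 168) (nat_lit 72) (.n (nat_lit 169) (nat_lit 144) (.n (nat_lit 171) (nat_lit 36) (.n (nat_lit 172) (nat_lit 36) (.p (nat_lit 173) (nat_lit 36) (.n (nat_lit 177) (nat_lit 36) (.p (nat_lit 178) (nat_lit 144) .z)))))))))) (.ct dF6as_c291 (nat_lit 36) (nat_lit 10) (.s true (nat_lit 2) (nat_lit 6) (nat_lit 0) (nat_lit 6) (nat_lit 2) true (nat_lit 5) true (nat_lit 8) true (nat_lit 4) true (nat_lit 10) true (nat_lit 4) (.s false (nat_lit 2) (nat_lit 6) (nat_lit 2) (nat_lit 2) (nat_lit 3) true (nat_lit 1) true (nat_lit 7) true (nat_lit 4) true (nat_lit 8) true (nat_lit 8) (.s true (nat_lit 1) (nat_lit 6) (nat_lit 3) (nat_lit 2) (nat_lit 2) true (nat_lit 1) true (nat_lit 8) true (nat_lit 4) true (nat_lit 7) true (nat_lit 8) (.s false (nat_lit 2) (nat_lit 6) (nat_lit 5) (nat_lit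 2) (nat_lit 1) true (nat_lit 1) true (nat_lit 9) true (nat_lit 4) true (nat_lit 5) true (nat_lit 8) dF6as_i23))))) (.nd .leaf (nat_lit 112640) (nat_lit 306) (.p (nat_lit 174) (nat_lit 36) .z) .df .leaf))))))

noncomputable def dF6as_t5 : Tr := (.nd dF6as_t3 (nat_lit 60418) (nat_lit 201) (.n (nat_lit 111) (nat_lit 48) (.p (nat_lit 112) (nat_lit 48) (.p (nat_lit 113) (nat_lit 48) (.n (nat_lit 114) (nat_lit 24) (.n (nat_lit 115) (nat_lit 24) (.p (nat_lit 116) (nat_lit 48) (.p (nat_lit 117) (nat_lit 48) (.p (nat_lit 118) (nat_lit 48) (.p (nat_lit 121) (nat_lit 24) (.n (nat_lit 122) (nat_lit 12) (.p (nat_lit 123) (nat_lit 12) (.n (nat_lit 124) (nat_lit 12) (.n (nat_lit 125) (nat_lit 24) (.n (nat_lit 126) (nat_lit 24) (.n (nat_lit 127) (nat_lit 24) (.p (nat_lit 128) (nat_lit 24) (.p (nat_lit 129) (nat_lit 24) (.p (nat_lit 130) (nat_lit 12) (.n (nat_lit 131) (nat_lit 36) (.p (nat_lit 132) (nat_lit 12) (.n (nat_lit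 133) (nat_lit 12) (.p (nat_lit 134) (nat_lit 24) (.n (nat_lit 135) (nat_lit 24) (.n (nat_lit 136) (nat_lit 24) .z)))))))))))))))))))))))) (.ct dF6as_c546 (nat_lit 72) (nat_lit 9) (.s true (nat_lit 1) (nat_lit 6) (nat_lit 0) (nat_lit 0) (nat_lit 6) true (nat_lit 0) true (nat_lit 5) true (nat_lit 5) true (nat_lit 11) true (nat_lit 11) (.s false (nat_lit 1) (nat_lit 6) (nat_lit 0) (nat_lit 3) (nat_lit 2) true (nat_lit 6) true (nat_lit 9) true (nat_lit 5) true (nat_lit 11) true (nat_lit 8) (.s false (nat_lit 1) (nat_lit 6) (nat_lit 5) (nat_lit 0) (nat_lit 1) true (nat_lit 0) true (nat_lit 10) true (nat_lit 5) true (nat_lit 6) true (nat_lit 11) (.s true (nat_lit 1) (nat_lit 12) (nat_lit 1) (nat_lit 0) (nat_lit 2) true (nat_lit 5) true (nat_lit 9) true (nat_lit 0) true (nat_lit 10) true (nat_lit 11) (.s false (nat_lit 1) (nat_lit 13) (nat_lit 2) (nat_lit 0) (nat_lit 1) true (nat_lit 5) true (nat_lit 10) true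 (nat_lit 0) true (nat_lit 9) true (nat_lit 11) (.s true (nat_lit 1) (nat_lit 14) (nat_lit 2) (nat_lit 0) (nat_lit 1) true (nat_lit 5) true (nat_lit 10) true (nat_lit 0) true (nat_lit 9) true (nat_lit 11) (.s false (nat_lit 1) (nat_lit 19) (nat_lit 0) (nat_lit 0) (nat_lit 1) true (nat_lit 8) true (nat_lit 10) false (nat_lit 3) true (nat_lit 11) true (nat_lit 11) (.a true (nat_lit 648) (nat_lit 14) (nat_lit 14) (nat_lit 0) (nat_lit 0) dF6as_i6))))))))) dF6as_t4)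

noncomputable def dF6as_t6 : Tr := (.nd dF6as_t2 (nat_lit 33797) (nat_lit 215) (.n (nat_lit 111) (nat_lit 40) (.p (nat_lit 112) (nat_lit 16) (.p (nat_lit 113) (nat_lit 16) (.p (nat_lit 114) (nat_lit 4) (.p (nat_lit 115) (nat_lit 40) (.n (nat_lit 116) (nat_lit 56) (.p (nat_lit 117) (nat_lit 28) (.n (nat_lit 118) (nat_lit 8) (.n (nat_lit 119) (nat_lit 24) (.n (nat_lit 120) (nat_lit 48) (.p (nat_lit 121) (nat_lit 68) (.n (nat_lit 122) (nat_lit 28) (.n (nat_lit 123) (nat_lit 20) (.p (nat_lit 124) (nat_lit 20) (.n (nat_lit 125) (nat_lit 20) (.n (nat_lit 126) (nat_lit 32) (.n (nat_lit 127) (nat_lit 8) (.p (nat_lit 128) (nat_lit 8) (.p (nat_lit 129) (nat_lit 8) (.p (nat_lit 130) (nat_lit 16) (.n (nat_lit 131) (nat_lit 48) (.p (nat_lit 132) (nat_lit 4) (.n (nat_lit 133) (nat_lit 16) (.p (nat_lit 134) (nat_lit 32) (.n (nat_lit 135) (nat_lit 8) (.n (nat_lit 136) (nat_lit 32) .z)))))))))))))))))))))))))) (.ct dF6as_c546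 (nat_lit 36) (nat_lit 6) (.s true (nat_lit 1) (nat_lit 14) (nat_lit 2) (nat_lit 1) (nat_lit 0) true (nat_lit 6) true (nat_lit 11) true (nat_lit 0) true (nat_lit 9) true (nat_lit 10) (.a true (nat_lit 648) (nat_lit 14) (nat_lit 14) (nat_lit 0) (nat_lit 0) (.e true (nat_lit 36) (nat_lit 82) (nat_lit 0) (nat_lit 11) (.e false (nat_lit 36) (nat_lit 57) (nat_lit 2) (nat_lit 9) (.e false (nat_lit 72) (nat_lit 58) (nat_lit 2) (nat_lit 9) (.e false (nat_lit 36) (nat_lit 59) (nat_lit 2) (nat_lit 9) (.e false (nat_lit 36) (nat_lit 60) (nat_lit 2) (nat_lit 9) (.e true (nat_lit 108) (nat_lit 61) (nat_lit 2) (nat_lit 9) (.e true (nat_lit 72) (nat_lit 62) (nat_lit 2) (nat_lit 9) (.e true (nat_lit 72) (nat_lit 63) (nat_lit 2) (nat_lit 9) (.e false (nat_lit 36) (nat_lit 66) (nat_lit 1) (nat_lit 10) .nil)))))))))))) dF6as_t5)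

noncomputable def dF6as_cl : CL := (.c (nat_lit 256) (nat_lit 0) (nat_lit 1) (.c (nat_lit 16) (nat_lit 1) (nat_lit 1) (.c (nat_lit 1) (nat_lit 2) (nat_lit 1) (.c (nat_lit 512) (nat_lit 2512) (nat_lit 0) (.c (nat_lit 272) (nat_lit 3) (nat_lit 1) (.c (nat_lit 32) (nat_lit 4) (nat_lit 1) (.c (nat_lit 257) (nat_lit 5) (nat_lit 1) (.c (nat_lit 17) (nat_lit 6) (nat_lit 1) (.c (nat_lit 2) (nat_lit 7) (nat_lit 1) (.c (nat_lit 528) (nat_lit 8) (nat_lit 1) (.c (nat_lit 288) (nat_lit 9) (nat_lit 2) (.c (nat_lit 513) (nat_lit 11) (nat_lit 1) (.c (nat_lit 273) (nat_lit 12) (nat_lit 3) (.c (nat_lit 33) (nat_lit 15) (nat_lit 2) (.c (nat_lit 258) (nat_lit 17) (nat_lit 2) (.c (nat_lit 18) (nat_lit 19) (nat_lit 2) (.c (nat_lit 3) (nat_lit 21) (nat_lit 1) (.c (nat_lit 544) (nat_lit 22) (nat_lit 3) (.c (nat_lit 529) (nat_lit 25) (nat_lit 4) (.c (nat_lit 289) (nat_lit 29) (nat_lit 6) (.c (nat_lit 514) (nat_lit 35) (nat_lit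 3) (.c (nat_lit 274) (nat_lit 38) (nat_lit 6) (.c (nat_lit 34) (nat_lit 44) (nat_lit 3) (.c (nat_lit 259) (nat_lit 47) (nat_lit 3) (.c (nat_lit 19) (nat_lit 50) (nat_lit 3) (.c (nat_lit 545) (nat_lit 53) (nat_lit 11) (.c (nat_lit 530) (nat_lit 64) (nat_lit 11) (.c (nat_lit 290) (nat_lit 75) (nat_lit 14) (.c (nat_lit 515) (nat_lit 89) (nat_lit 5) (.c (nat_lit 275) (nat_lit 94) (nat_lit 11) (.c (nat_lit 35) (nat_lit 105) (nat_lit 6) (.c (nat_lit 546) (nat_lit 111) (nat_lit 26) (.c (nat_lit 531) (nat_lit 137) (nat_lit 20) (.c (nat_lit 291) (nat_lit 157) (nat_lit 23) .nil))))))))))))))))))))))))))))))))))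

noncomputable def dF6as_D : Dt := ⟨(nat_lit 18446744073709551616), (nat_lit 9223372036854775808), (nat_lit 36), (nat_lit 180), (nat_lit 1409409738610254724521695435842144918743667492002640046717483926020290144517816354929552268806789552216416291989843230497526908302483172700241814945037101933380832933603608302465664544607023077113761393811497615867532553722838591234660983313966214354600348212898200808341944269726172725035507412337717718787425379495081697088272132236933119592353375279381969004916934400246909965801101793025597397129557918042365070636704513547284087713665741599931785394110112412389185963698758760823211980178413207386842241442260458277773891724825621598198399418501879047502555344984203181027121292595172243734400868158390583494920976633823796406594123624675120410804742059731566416471196978770212560771940688872569605787658882947586292979095307343325698441830292316296814421107573884869215627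10137172564308896526088629782454852240192126561034673726565478212888221911898395875328072412078227080338216336304455383210135928540795434832303808177041637298223749244736918906913500078002007250178048518077091406295737414691582763331796399789455679906378721417193255737012981056391891216811695161897728594567206126988172989409081032982147266191299805560952939259667212545991959668761393021922056798145085053451544369351151688499945540974589098784680319120057611230862790243225636391103110402312231609432397499169165541381), (nat_lit 1532495358178184191998037854487873592404031551250729262), dF6as_t6, dF6as_cl⟩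

noncomputable def dF6as_gs : BL := (.c (nat_lit 22) (nat_lit 3) (nat_lit 21) (nat_lit 1) (nat_lit 0) (.c (nat_lit 25) (nat_lit 4) (nat_lit 19) (nat_lit 2) (nat_lit 3) (.c (nat_lit 29) (nat_lit 6) (nat_lit 17) (nat_lit 2) (nat_lit 11) (.c (nat_lit 35) (nat_lit 3) (nat_lit 15) (nat_lit 2) (nat_lit 23) (.c (nat_lit 38) (nat_lit 6) (nat_lit 12) (nat_lit 3) (nat_lit 29) (.c (nat_lit 44) (nat_lit 3) (nat_lit 11) (nat_lit 1) (nat_lit 47) (.c (nat_lit 47) (nat_lit 3) (nat_lit 9) (nat_lit 2) (nat_lit 50) (.c (nat_lit 50) (nat_lit 3) (nat_lit 8) (nat_lit 1) (nat_lit 56) (.c (nat_lit 53) (nat_lit 11) (nat_lit 7) (nat_lit 1) (nat_lit 59) (.c (nat_lit 64) (nat_lit 11) (nat_lit 6) (nat_lit 1) (nat_lit 70) (.c (nat_lit 75) (nat_lit 14) (nat_lit 5) (nat_lit 1) (nat_lit 81) (.c (nat_lit 89) (nat_lit 5) (nat_lit 4) (nat_lit 1) (nat_lit 95) (.c (nat_lit 94) (nat_lit 11) (nat_lit 3) (nat_lit 1) (nat_lit 100) (.c (nat_lit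 111) (nat_lit 26) (nat_lit 2) (nat_lit 1) (nat_lit 111) (.c (nat_lit 137) (nat_lit 20) (nat_lit 1) (nat_lit 1) (nat_lit 137) (.c (nat_lit 157) (nat_lit 23) (nat_lit 0) (nat_lit 1) (nat_lit 157) (.c (nat_lit 2512) (nat_lit 0) (nat_lit 105) (nat_lit 6) (nat_lit 180) .nil)))))))))))))))))

noncomputable def dF6as_i25 : IL := (.s false (nat_lit 576948096) (nat_lit 42) (nat_lit 1) (nat_lit 2) (nat_lit 0) true (nat_lit 12) true (nat_lit 15) false (nat_lit 4) true (nat_lit 14) true (nat_lit 13) (.s true (nat_lit 185387616) (nat_lit 43) (nat_lit 1) (nat_lit 2) (nat_lit 0) true (nat_lit 12) true (nat_lit 15) false (nat_lit 4) true (nat_lit 14) true (nat_lit 13) (.s false (nat_lit 1934917632) (nat_lit 38) (nat_lit 2) (nat_lit 0) (nat_lit 1) true (nat_lit 9) true (nat_lit 14) false (nat_lit 4) true (nat_lit 13) true (nat_lit 15) (.s false (nat_lit 53561088) (nat_lit 39) (nat_lit 2) (nat_lit 0) (nat_lit 1) true (nat_lit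 9) true (nat_lit 14) false (nat_lit 4) true (nat_lit 13) true (nat_lit 15) (.s true (nat_lit 375394176) (nat_lit 41) (nat_lit 2) (nat_lit 0) (nat_lit 1) true (nat_lit 9) true (nat_lit 14) false (nat_lit 4) true (nat_lit 13) true (nat_lit 15) (.s true (nat_lit 679326912) (nat_lit 38) (nat_lit 2) (nat_lit 1) (nat_lit 0) true (nat_lit 10) true (nat_lit 15) false (nat_lit 4) true (nat_lit 13) true (nat_lit 14) (.s false (nat_lit 1973688768) (nat_lit 40) (nat_lit 2) (nat_lit 1) (nat_lit 0) true (nat_lit 10) true (nat_lit 15) false (nat_lit 4) true (nat_lit 13) true (nat_lit 14) (.s false (nat_lit 7231680) (nat_lit 41) (nat_lit 2) (nat_lit 1) (nat_lit 0) true (nat_lit 10) true (nat_lit 15) false (nat_lit 4) true (nat_lit 13) true (nat_lit 14) (.s false (nat_lit 109944864) (nat_lit 42) (nat_lit 2) (nat_lit 1) (nat_lit 0) true (nat_lit 10) true (nat_lit 15) false (nat_lit 4) true (nat_lit 13) true (nat_lit 14)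 (.s true (nat_lit 2192458752) (nat_lit 43) (nat_lit 2) (nat_lit 1) (nat_lit 0) true (nat_lit 10) true (nat_lit 15) false (nat_lit 4) true (nat_lit 13) true (nat_lit 14) (.s true (nat_lit 1529010432) (nat_lit 45) (nat_lit 0) (nat_lit 0) (nat_lit 2) true (nat_lit 10) true (nat_lit 13) false (nat_lit 5) true (nat_lit 15) true (nat_lit 15) (.s false (nat_lit 2462573664) (nat_lit 46) (nat_lit 0) (nat_lit 0) (nat_lit 2) true (nat_lit 10) true (nat_lit 13) false (nat_lit 5) true (nat_lit 15) true (nat_lit 15) (.s false (nat_lit 715376448) (nat_lit 44) (nat_lit 0) (nat_lit 2) (nat_lit 0) false (nat_lit 16) true (nat_lit 15) false (nat_lit 5) true (nat_lit 15) true (nat_lit 13) (.s true (nat_lit 431754624) (nat_lit 44) (nat_lit 2) (nat_lit 0) (nat_lit 0) true (nat_lit 10) true (nat_lit 15) false (nat_lit 5) true (nat_lit 13) true (nat_lit 15) (.s false (nat_lit 1923650208) (nat_lit 45) (nat_lit 2) (nat_lit 0) (nat_lit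 0) true (nat_lit 10) true (nat_lit 15) false (nat_lit 5) true (nat_lit 13) true (nat_lit 15) (.s false (nat_lit 2518934112) (nat_lit 46) (nat_lit 2) (nat_lit 0) (nat_lit 0) true (nat_lit 10) true (nat_lit 15) false (nat_lit 5) true (nat_lit 13) true (nat_lit 15) (.s false (nat_lit 428302080) (nat_lit 48) (nat_lit 0) (nat_lit 1) (nat_lit 1) true (nat_lit 12) true (nat_lit 14) false (nat_lit 6) true (nat_lit 15) true (nat_lit 14) (.s false (nat_lit 858178800) (nat_lit 49) (nat_lit 0) (nat_lit 1) (nat_lit 1) true (nat_lit 12) true (nat_lit 14) false (nat_lit 6) true (nat_lit 15) true (nat_lit 14) (.s false (nat_lit 94058496) (nat_lit 48) (nat_lit 1) (nat_lit 0) (nat_lit 1) true (nat_lit 11) true (nat_lit 14) false (nat_lit 6) true (nat_lit 14) true (nat_lit 15) (.s true (nat_lit 396249408) (nat_lit 48) (nat_lit 1) (nat_lit 1) (nat_lit 0) true (nat_lit 12) true (nat_lit 15) false (nat_lit 6) true (nat_lit 14)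 true (nat_lit 14) (.s false (nat_lit 565494048) (nat_lit 51) (nat_lit 0) (nat_lit 0) (nat_lit 1) true (nat_lit 12) true (nat_lit 14) false (nat_lit 7) true (nat_lit 15) true (nat_lit 15) (.s true (nat_lit 33592320) (nat_lit 51) (nat_lit 1) (nat_lit 0) (nat_lit 0) true (nat_lit 12) true (nat_lit 15) false (nat_lit 7) true (nat_lit 14) true (nat_lit 15) (.s true (nat_lit 16481232) (nat_lit 52) (nat_lit 1) (nat_lit 0) (nat_lit 0) true (nat_lit 12) true (nat_lit 15) false (nat_lit 7) true (nat_lit 14) true (nat_lit 15) (.i true (nat_lit 23214) (nat_lit 2) (.c (nat_lit 2) (nat_lit 1) (.c (nat_lit 2) (nat_lit 1) (.c (nat_lit 1) (nat_lit 16) (.c (nat_lit 0) (nat_lit 256) (.c (nat_lit 3) (nat_lit 272) (.c (nat_lit 2) (nat_lit 1) .nil)))))) (.i true (nat_lit 33631) (nat_lit 2) (.c (nat_lit 4) (nat_lit 32) (.c (nat_lit 2) (nat_lit 1) (.c (nat_lit 2) (nat_lit 1) (.c (nat_lit 2) (nat_lit 1) (.c (nat_lit 0) (nat_lit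 256) (.c (nat_lit 0) (nat_lit 256) .nil)))))) .nil)))))))))))))))))))))))))

noncomputable def dF6as_i26 : IL := (.s true (nat_lit 281195712) (nat_lit 34) (nat_lit 0) (nat_lit 2) (nat_lit 2) true (nat_lit 10) true (nat_lit 13) false (nat_lit 2) true (nat_lit 15) true (nat_lit 13) (.s false (nat_lit 202743648) (nat_lit 29) (nat_lit 2) (nat_lit 0) (nat_lit 2) true (nat_lit 8) true (nat_lit 13) false (nat_lit 2) true (nat_lit 13) true (nat_lit 15) (.s true (nat_lit 763385472) (nat_lit 32) (nat_lit 2) (nat_lit 0) (nat_lit 2) true (nat_lit 8) true (nat_lit 13) false (nat_lit 2) true (nat_lit 13) true (nat_lit 15) (.s true (nat_lit 220449600) (nat_lit 33) (nat_lit 2) (nat_lit 0) (nat_lit 2) true (nat_lit 8) true (nat_lit 13) false (nat_lit 2) true (nat_lit 13) true (nat_lit 15) (.s true (nat_lit 190216512) (nat_lit 34) (nat_lit 2) (nat_lit 0) (nat_lit 2) true (nat_lit 8) true (nat_lit 13) false (nat_lit 2) true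 (nat_lit 13) true (nat_lit 15) (.s true (nat_lit 517974912) (nat_lit 32) (nat_lit 2) (nat_lit 2) (nat_lit 0) true (nat_lit 10) true (nat_lit 15) false (nat_lit 2) true (nat_lit 13) true (nat_lit 13) (.s false (nat_lit 2686499136) (nat_lit 33) (nat_lit 2) (nat_lit 2) (nat_lit 0) true (nat_lit 10) true (nat_lit 15) false (nat_lit 2) true (nat_lit 13) true (nat_lit 13) (.s true (nat_lit 2184325056) (nat_lit 38) (nat_lit 0) (nat_lit 1) (nat_lit 2) true (nat_lit 10) true (nat_lit 13) false (nat_lit 4) true (nat_lit 15) true (nat_lit 14) (.s false (nat_lit 426365856) (nat_lit 39) (nat_lit 0) (nat_lit 1) (nat_lit 2) true (nat_lit 10) true (nat_lit 13) false (nat_lit 4) true (nat_lit 15) true (nat_lit 14) (.s true (nat_lit 290830176) (nat_lit 40) (nat_lit 0) (nat_lit 1) (nat_lit 2) true (nat_lit 10) true (nat_lit 13) false (nat_lit 4) true (nat_lit 15) true (nat_lit 14) (.s false (nat_lit 1420068672) (nat_lit 41)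 (nat_lit 0) (nat_lit 1) (nat_lit 2) true (nat_lit 10) true (nat_lit 13) false (nat_lit 4) true (nat_lit 15) true (nat_lit 14) (.s false (nat_lit 1800081792) (nat_lit 42) (nat_lit 0) (nat_lit 1) (nat_lit 2) true (nat_lit 10) true (nat_lit 13) false (nat_lit 4) true (nat_lit 15) true (nat_lit 14) (.s false (nat_lit 2723730624) (nat_lit 43) (nat_lit 0) (nat_lit 1) (nat_lit 2) true (nat_lit 10) true (nat_lit 13) false (nat_lit 4) true (nat_lit 15) true (nat_lit 14) (.s false (nat_lit 159687936) (nat_lit 38) (nat_lit 0) (nat_lit 2) (nat_lit 1) true (nat_lit 12) true (nat_lit 14) false (nat_lit 4) true (nat_lit 15) true (nat_lit 13) (.s true (nat_lit 112161024) (nat_lit 39) (nat_lit 0) (nat_lit 2) (nat_lit 1) true (nat_lit 12) true (nat_lit 14) false (nat_lit 4) true (nat_lit 15) true (nat_lit 13) (.s false (nat_lit 1757204928) (nat_lit 40) (nat_lit 0) (nat_lit 2) (nat_lit 1) true (nat_lit 12) true (nat_lit 14)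 false (nat_lit 4) true (nat_lit 15) true (nat_lit 13) (.s false (nat_lit 229080960) (nat_lit 42) (nat_lit 0) (nat_lit 2) (nat_lit 1) true (nat_lit 12) true (nat_lit 14) false (nat_lit 4) true (nat_lit 15) true (nat_lit 13) (.s true (nat_lit 62705664) (nat_lit 39) (nat_lit 1) (nat_lit 0) (nat_lit 2) true (nat_lit 9) true (nat_lit 13) false (nat_lit 4) true (nat_lit 14) true (nat_lit 15) (.s true (nat_lit 3794439168) (nat_lit 40) (nat_lit 1) (nat_lit 0) (nat_lit 2) true (nat_lit 9) true (nat_lit 13) false (nat_lit 4) true (nat_lit 14) true (nat_lit 15) (.s false (nat_lit 128863872) (nat_lit 41) (nat_lit 1) (nat_lit 0) (nat_lit 2) true (nat_lit 9) true (nat_lit 13) false (nat_lit 4) true (nat_lit 14) true (nat_lit 15) (.s true (nat_lit 867335040) (nat_lit 42) (nat_lit 1) (nat_lit 0) (nat_lit 2) true (nat_lit 9) true (nat_lit 13) false (nat_lit 4) true (nat_lit 14) true (nat_lit 15) (.s true (nat_lit 2557308672)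 (nat_lit 43) (nat_lit 1) (nat_lit 0) (nat_lit 2) true (nat_lit 9) true (nat_lit 13) false (nat_lit 4) true (nat_lit 14) true (nat_lit 15) (.s true (nat_lit 3243742848) (nat_lit 38) (nat_lit 1) (nat_lit 2) (nat_lit 0) true (nat_lit 12) true (nat_lit 15) false (nat_lit 4) true (nat_lit 14) true (nat_lit 13) (.s false (nat_lit 1705533408) (nat_lit 39) (nat_lit 1) (nat_lit 2) (nat_lit 0) true (nat_lit 12) true (nat_lit 15) false (nat_lit 4) true (nat_lit 14) true (nat_lit 13) (.s true (nat_lit 2335062816) (nat_lit 40) (nat_lit 1) (nat_lit 2) (nat_lit 0) true (nat_lit 12) true (nat_lit 15) false (nat_lit 4) true (nat_lit 14) true (nat_lit 13) dF6as_i25)))))))))))))))))))))))))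

noncomputable def dF6as_i27 : IL := (.s true (nat_lit 26873856) (nat_lit 17) (nat_lit 6) (nat_lit 0) (nat_lit 1) true (nat_lit 3) true (nat_lit 14) true (nat_lit 2) true (nat_lit 9) true (nat_lit 15) (.s false (nat_lit 1458046656) (nat_lit 18) (nat_lit 6) (nat_lit 0) (nat_lit 1) true (nat_lit 3) true (nat_lit 14) true (nat_lit 2) true (nat_lit 9) true (nat_lit 15) (.s false (nat_lit 1877810688) (nat_lit 18) (nat_lit 6) (nat_lit 1) (nat_lit 0) true (nat_lit 4) true (nat_lit 15) true (nat_lit 2) true (nat_lit 9) true (nat_lit 14) (.s false (nat_lit 64338624) (nat_lit 20) (nat_lit 0) (nat_lit 0) (nat_lit 6) true (nat_lit 4) true (nat_lit 9) true (nat_lit 1) true (nat_lit 15) true (nat_lit 15) (.s false (nat_lit 2303733312) (nat_lit 19) (nat_lit 0) (nat_lit 1) (nat_lit 5) true (nat_lit 5) true (nat_lit 10) true (nat_lit 1) true (nat_lit 15) true (nat_lit 14) (.s true (nat_lit 341311968) (nat_lit 19) (nat_lit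 0) (nat_lit 5) (nat_lit 1) true (nat_lit 12) true (nat_lit 14) true (nat_lit 1) true (nat_lit 15) true (nat_lit 10) (.s true (nat_lit 2330373888) (nat_lit 19) (nat_lit 0) (nat_lit 6) (nat_lit 0) false (nat_lit 16) true (nat_lit 15) true (nat_lit 1) true (nat_lit 15) true (nat_lit 9) (.s false (nat_lit 41430528) (nat_lit 20) (nat_lit 0) (nat_lit 6) (nat_lit 0) false (nat_lit 16) true (nat_lit 15) true (nat_lit 1) true (nat_lit 15) true (nat_lit 9) (.s true (nat_lit 1243382400) (nat_lit 19) (nat_lit 2) (nat_lit 3) (nat_lit 0) true (nat_lit 10) true (nat_lit 15) true (nat_lit 1) true (nat_lit 13) true (nat_lit 12) (.s false (nat_lit 430961472) (nat_lit 21) (nat_lit 0) (nat_lit 0) (nat_lit 4) true (nat_lit 6) true (nat_lit 11) true (nat_lit 0) true (nat_lit 15) true (nat_lit 15) (.s true (nat_lit 730597968) (nat_lit 21) (nat_lit 0) (nat_lit 1) (nat_lit 3) true (nat_lit 7) true (nat_lit 12) true (nat_lit 0)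 true (nat_lit 15) true (nat_lit 14) (.s false (nat_lit 321786432) (nat_lit 21) (nat_lit 0) (nat_lit 3) (nat_lit 1) true (nat_lit 12) true (nat_lit 14) true (nat_lit 0) true (nat_lit 15) true (nat_lit 12) (.s false (nat_lit 41290560) (nat_lit 21) (nat_lit 0) (nat_lit 4) (nat_lit 0) false (nat_lit 16) true (nat_lit 15) true (nat_lit 0) true (nat_lit 15) true (nat_lit 11) (.s true (nat_lit 231472080) (nat_lit 21) (nat_lit 1) (nat_lit 0) (nat_lit 3) true (nat_lit 6) true (nat_lit 12) true (nat_lit 0) true (nat_lit 14) true (nat_lit 15) (.s false (nat_lit 1022466240) (nat_lit 21) (nat_lit 3) (nat_lit 0) (nat_lit 1) true (nat_lit 6) true (nat_lit 14) true (nat_lit 0) true (nat_lit 12) true (nat_lit 15) (.s false (nat_lit 512562816) (nat_lit 21) (nat_lit 3) (nat_lit 1) (nat_lit 0) true (nat_lit 7) true (nat_lit 15) true (nat_lit 0) true (nat_lit 12) true (nat_lit 14) (.s false (nat_lit 702149472) (nat_lit 26)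 (nat_lit 1) (nat_lit 2) (nat_lit 2) true (nat_lit 9) true (nat_lit 13) false (nat_lit 1) true (nat_lit 14) true (nat_lit 13) (.s false (nat_lit 2538552960) (nat_lit 27) (nat_lit 1) (nat_lit 2) (nat_lit 2) true (nat_lit 9) true (nat_lit 13) false (nat_lit 1) true (nat_lit 14) true (nat_lit 13) (.s true (nat_lit 2262816) (nat_lit 28) (nat_lit 1) (nat_lit 2) (nat_lit 2) true (nat_lit 9) true (nat_lit 13) false (nat_lit 1) true (nat_lit 14) true (nat_lit 13) (.s false (nat_lit 285534720) (nat_lit 26) (nat_lit 2) (nat_lit 1) (nat_lit 2) true (nat_lit 8) true (nat_lit 13) false (nat_lit 1) true (nat_lit 13) true (nat_lit 14) (.s false (nat_lit 44548704) (nat_lit 27) (nat_lit 2) (nat_lit 1) (nat_lit 2) true (nat_lit 8) true (nat_lit 13) false (nat_lit 1) true (nat_lit 13) true (nat_lit 14) (.s true (nat_lit 35831808) (nat_lit 28) (nat_lit 2) (nat_lit 1) (nat_lit 2) true (nat_lit 8) true (nat_lit 13) false (nat_lit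 1) true (nat_lit 13) true (nat_lit 14) (.s false (nat_lit 73063296) (nat_lit 30) (nat_lit 0) (nat_lit 2) (nat_lit 2) true (nat_lit 10) true (nat_lit 13) false (nat_lit 2) true (nat_lit 15) true (nat_lit 13) (.s true (nat_lit 1050599808) (nat_lit 32) (nat_lit 0) (nat_lit 2) (nat_lit 2) true (nat_lit 10) true (nat_lit 13) false (nat_lit 2) true (nat_lit 15) true (nat_lit 13) (.s false (nat_lit 484475904) (nat_lit 33) (nat_lit 0) (nat_lit 2) (nat_lit 2) true (nat_lit 10) true (nat_lit 13) false (nat_lit 2) true (nat_lit 15) true (nat_lit 13) dF6as_i26)))))))))))))))))))))))))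

noncomputable def dF6as_i28 : IL := (.s false (nat_lit 4992938496) (nat_lit 14) (nat_lit 2) (nat_lit 6) (nat_lit 0) true (nat_lit 10) true (nat_lit 15) true (nat_lit 4) true (nat_lit 13) true (nat_lit 9) (.s true (nat_lit 373994496) (nat_lit 12) (nat_lit 3) (nat_lit 2) (nat_lit 2) true (nat_lit 4) true (nat_lit 13) true (nat_lit 4) true (nat_lit 12) true (nat_lit 13) (.s true (nat_lit 195255360) (nat_lit 13) (nat_lit 3) (nat_lit 2) (nat_lit 2) true (nat_lit 4) true (nat_lit 13) true (nat_lit 4) true (nat_lit 12) true (nat_lit 13) (.s false (nat_lit 126919872) (nat_lit 12) (nat_lit 5) (nat_lit 1) (nat_lit 2) true (nat_lit 2) true (nat_lit 13) true (nat_lit 4) true (nat_lit 10) true (nat_lit 14) (.s true (nat_lit 804302784) (nat_lit 14) (nat_lit 5) (nat_lit 1) (nat_lit 2) true (nat_lit 2) true (nat_lit 13) true (nat_lit 4) true (nat_lit 10) true (nat_lit 14) (.s false (nat_lit 79742880) (nat_lit 12) (nat_lit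 5) (nat_lit 2) (nat_lit 1) true (nat_lit 4) true (nat_lit 14) true (nat_lit 4) true (nat_lit 10) true (nat_lit 13) (.s true (nat_lit 2068011648) (nat_lit 12) (nat_lit 6) (nat_lit 0) (nat_lit 2) true (nat_lit 1) true (nat_lit 13) true (nat_lit 4) true (nat_lit 9) true (nat_lit 15) (.s false (nat_lit 59346432) (nat_lit 13) (nat_lit 7) (nat_lit 0) (nat_lit 1) true (nat_lit 1) true (nat_lit 14) true (nat_lit 4) true (nat_lit 8) true (nat_lit 15) (.s false (nat_lit 30085344) (nat_lit 12) (nat_lit 7) (nat_lit 1) (nat_lit 0) true (nat_lit 2) true (nat_lit 15) true (nat_lit 4) true (nat_lit 8) true (nat_lit 14) (.s false (nat_lit 1119744) (nat_lit 15) (nat_lit 0) (nat_lit 0) (nat_lit 7) true (nat_lit 2) true (nat_lit 8) true (nat_lit 3) true (nat_lit 15) true (nat_lit 15) (.s true (nat_lit 1899085824) (nat_lit 16) (nat_lit 0) (nat_lit 0) (nat_lit 7) true (nat_lit 2) true (nat_lit 8) true (nat_lit 3) true (nat_lit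 15) true (nat_lit 15) (.s false (nat_lit 6718464) (nat_lit 15) (nat_lit 0) (nat_lit 7) (nat_lit 0) false (nat_lit 16) true (nat_lit 15) true (nat_lit 3) true (nat_lit 15) true (nat_lit 8) (.s true (nat_lit 1444609728) (nat_lit 16) (nat_lit 0) (nat_lit 7) (nat_lit 0) false (nat_lit 16) true (nat_lit 15) true (nat_lit 3) true (nat_lit 15) true (nat_lit 8) (.s false (nat_lit 972451008) (nat_lit 15) (nat_lit 2) (nat_lit 5) (nat_lit 0) true (nat_lit 10) true (nat_lit 15) true (nat_lit 3) true (nat_lit 13) true (nat_lit 10) (.s true (nat_lit 959014080) (nat_lit 15) (nat_lit 5) (nat_lit 2) (nat_lit 0) true (nat_lit 5) true (nat_lit 15) true (nat_lit 3) true (nat_lit 10) true (nat_lit 13) (.s false (nat_lit 31072896) (nat_lit 17) (nat_lit 0) (nat_lit 6) (nat_lit 1) true (nat_lit 12) true (nat_lit 14) true (nat_lit 2) true (nat_lit 15) true (nat_lit 9) (.s true (nat_lit 1197099648) (nat_lit 18) (nat_lit 0) (nat_lit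 6) (nat_lit 1) true (nat_lit 12) true (nat_lit 14) true (nat_lit 2) true (nat_lit 15) true (nat_lit 9) (.s true (nat_lit 131289984) (nat_lit 17) (nat_lit 1) (nat_lit 1) (nat_lit 5) true (nat_lit 4) true (nat_lit 10) true (nat_lit 2) true (nat_lit 14) true (nat_lit 14) (.s false (nat_lit 247533408) (nat_lit 17) (nat_lit 1) (nat_lit 3) (nat_lit 2) true (nat_lit 9) true (nat_lit 13) true (nat_lit 2) true (nat_lit 14) true (nat_lit 12) (.s false (nat_lit 134369280) (nat_lit 17) (nat_lit 1) (nat_lit 5) (nat_lit 1) true (nat_lit 11) true (nat_lit 14) true (nat_lit 2) true (nat_lit 14) true (nat_lit 10) (.s true (nat_lit 161243136) (nat_lit 18) (nat_lit 1) (nat_lit 5) (nat_lit 1) true (nat_lit 11) true (nat_lit 14) true (nat_lit 2) true (nat_lit 14) true (nat_lit 10) (.s true (nat_lit 43670016) (nat_lit 18) (nat_lit 3) (nat_lit 1) (nat_lit 2) true (nat_lit 4) true (nat_lit 13) true (nat_lit 2) true (nat_lit 12)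 true (nat_lit 14) (.s true (nat_lit 71663616) (nat_lit 17) (nat_lit 3) (nat_lit 2) (nat_lit 1) true (nat_lit 6) true (nat_lit 14) true (nat_lit 2) true (nat_lit 12) true (nat_lit 13) (.s true (nat_lit 299741472) (nat_lit 18) (nat_lit 3) (nat_lit 2) (nat_lit 1) true (nat_lit 6) true (nat_lit 14) true (nat_lit 2) true (nat_lit 12) true (nat_lit 13) (.s true (nat_lit 369048960) (nat_lit 18) (nat_lit 5) (nat_lit 1) (nat_lit 1) true (nat_lit 4) true (nat_lit 14) true (nat_lit 2) true (nat_lit 10) true (nat_lit 14) dF6as_i27)))))))))))))))))))))))))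

noncomputable def dF6as_i29 : IL := (.s true (nat_lit 185877504) (nat_lit 8) (nat_lit 2) (nat_lit 6) (nat_lit 2) true (nat_lit 8) true (nat_lit 13) true (nat_lit 7) true (nat_lit 13) true (nat_lit 9) (.s true (nat_lit 118692864) (nat_lit 8) (nat_lit 6) (nat_lit 2) (nat_lit 2) true (nat_lit 1) true (nat_lit 13) true (nat_lit 7) true (nat_lit 9) true (nat_lit 13) (.s true (nat_lit 1329696) (nat_lit 9) (nat_lit 0) (nat_lit 7) (nat_lit 2) true (nat_lit 10) true (nat_lit 13) true (nat_lit 6) true (nat_lit 15) true (nat_lit 8) (.s true (nat_lit 404087616) (nat_lit 10) (nat_lit 2) (nat_lit 0) (nat_lit 7) true (nat_lit 0) true (nat_lit 8) true (nat_lit 6) true (nat_lit 13) true (nat_lit 15) (.s false (nat_lit 15676416) (nat_lit 10) (nat_lit 5) (nat_lit 2) (nat_lit 2) true (nat_lit 2) true (nat_lit 13) true (nat_lit 6) true (nat_lit 10) true (nat_lit 13) (.s true (nat_lit 33592320) (nat_lit 11) (nat_lit 1) (nat_lit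 1) (nat_lit 7) true (nat_lit 1) true (nat_lit 8) true (nat_lit 5) true (nat_lit 14) true (nat_lit 14) (.s true (nat_lit 282385440) (nat_lit 11) (nat_lit 1) (nat_lit 2) (nat_lit 6) true (nat_lit 3) true (nat_lit 9) true (nat_lit 5) true (nat_lit 14) true (nat_lit 13) (.s false (nat_lit 188116992) (nat_lit 11) (nat_lit 2) (nat_lit 4) (nat_lit 2) true (nat_lit 8) true (nat_lit 13) true (nat_lit 5) true (nat_lit 13) true (nat_lit 11) (.s false (nat_lit 1856465568) (nat_lit 11) (nat_lit 6) (nat_lit 1) (nat_lit 2) true (nat_lit 1) true (nat_lit 13) true (nat_lit 5) true (nat_lit 9) true (nat_lit 14) (.s false (nat_lit 282385440) (nat_lit 11) (nat_lit 6) (nat_lit 2) (nat_lit 1) true (nat_lit 3) true (nat_lit 14) true (nat_lit 5) true (nat_lit 9) true (nat_lit 13) (.s false (nat_lit 147075264) (nat_lit 12) (nat_lit 0) (nat_lit 1) (nat_lit 7) true (nat_lit 2) true (nat_lit 8) true (nat_lit 4) true (nat_lit 15) true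 (nat_lit 14) (.s true (nat_lit 1657291104) (nat_lit 12) (nat_lit 0) (nat_lit 2) (nat_lit 6) true (nat_lit 4) true (nat_lit 9) true (nat_lit 4) true (nat_lit 15) true (nat_lit 13) (.s true (nat_lit 282665376) (nat_lit 14) (nat_lit 0) (nat_lit 2) (nat_lit 6) true (nat_lit 4) true (nat_lit 9) true (nat_lit 4) true (nat_lit 15) true (nat_lit 13) (.s true (nat_lit 518721408) (nat_lit 13) (nat_lit 0) (nat_lit 6) (nat_lit 2) true (nat_lit 10) true (nat_lit 13) true (nat_lit 4) true (nat_lit 15) true (nat_lit 9) (.s true (nat_lit 38257920) (nat_lit 14) (nat_lit 0) (nat_lit 6) (nat_lit 2) true (nat_lit 10) true (nat_lit 13) true (nat_lit 4) true (nat_lit 15) true (nat_lit 9) (.s false (nat_lit 784061856) (nat_lit 12) (nat_lit 0) (nat_lit 7) (nat_lit 1) true (nat_lit 12) true (nat_lit 14) true (nat_lit 4) true (nat_lit 15) true (nat_lit 8) (.s false (nat_lit 221942592) (nat_lit 12) (nat_lit 1) (nat_lit 0) (nat_lit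 7) true (nat_lit 1) true (nat_lit 8) true (nat_lit 4) true (nat_lit 14) true (nat_lit 15) (.s false (nat_lit 2615683104) (nat_lit 12) (nat_lit 1) (nat_lit 2) (nat_lit 5) true (nat_lit 4) true (nat_lit 10) true (nat_lit 4) true (nat_lit 14) true (nat_lit 13) (.s true (nat_lit 2110204224) (nat_lit 14) (nat_lit 1) (nat_lit 2) (nat_lit 5) true (nat_lit 4) true (nat_lit 10) true (nat_lit 4) true (nat_lit 14) true (nat_lit 13) (.s true (nat_lit 367664832) (nat_lit 12) (nat_lit 2) (nat_lit 0) (nat_lit 6) true (nat_lit 1) true (nat_lit 9) true (nat_lit 4) true (nat_lit 13) true (nat_lit 15) (.s false (nat_lit 530276544) (nat_lit 12) (nat_lit 2) (nat_lit 1) (nat_lit 5) true (nat_lit 2) true (nat_lit 10) true (nat_lit 4) true (nat_lit 13) true (nat_lit 14) (.s false (nat_lit 1485978048) (nat_lit 12) (nat_lit 2) (nat_lit 2) (nat_lit 3) true (nat_lit 4) true (nat_lit 12) true (nat_lit 4) true (nat_lit 13) true (nat_lit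 13) (.s true (nat_lit 281055744) (nat_lit 13) (nat_lit 2) (nat_lit 3) (nat_lit 2) true (nat_lit 8) true (nat_lit 13) true (nat_lit 4) true (nat_lit 13) true (nat_lit 12) (.s true (nat_lit 82861056) (nat_lit 13) (nat_lit 2) (nat_lit 5) (nat_lit 1) true (nat_lit 9) true (nat_lit 14) true (nat_lit 4) true (nat_lit 13) true (nat_lit 10) (.s false (nat_lit 2026884384) (nat_lit 12) (nat_lit 2) (nat_lit 6) (nat_lit 0) true (nat_lit 10) true (nat_lit 15) true (nat_lit 4) true (nat_lit 13) true (nat_lit 9) dF6as_i28)))))))))))))))))))))))))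

noncomputable def dF6as_il : IL := (.s false (nat_lit 2636390592) (nat_lit 6) (nat_lit 0) (nat_lit 6) (nat_lit 5) true (nat_lit 5) true (nat_lit 10) true (nat_lit 9) true (nat_lit 15) true (nat_lit 9) (.s false (nat_lit 147596256) (nat_lit 6) (nat_lit 5) (nat_lit 2) (nat_lit 3) false (nat_lit 1) true (nat_lit 12) true (nat_lit 9) true (nat_lit 10) true (nat_lit 13) (.s false (nat_lit 124291584) (nat_lit 7) (nat_lit 1) (nat_lit 3) (nat_lit 5) true (nat_lit 4) true (nat_lit 10) true (nat_lit 8) true (nat_lit 14) true (nat_lit 12) dF6as_i29)))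

theorem dF6as_chk : chk 1 idsV dF6as_D par2 (clsL [0,0,0,1,1,2,2]) F6Ex (.c (nat_lit 2) (nat_lit 1) (.c (nat_lit 2) (nat_lit 1) (.c (nat_lit 2) (nat_lit 1) (.c (nat_lit 1) (nat_lit 16) (.c (nat_lit 1) (nat_lit 16) (.c (nat_lit 0) (nat_lit 256) (.c (nat_lit 0) (nat_lit 256) .nil))))))) (nat_lit 353) (nat_lit 547) (nat_lit 8) dF6as_gs dF6as_il = true := by
  decide +kernel

end Chk

/-- certificate of `F6Ex` -/
theorem cert_F6as : Cert.{u} 1 idsV par2 (clsL [0,0,0,1,1,2,2]) F6Ex :=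
  Chk.chk_sound _ _ (by simp [idsV]) (by simp [idsV]) _ _ _ _ _ _ _ _ _ _ Chk.dF6as_chk

end Pool.Agent.MalP
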