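import Pool.Agent.MalP.Check4
import Pool.Agent.MalP.CertPar

/-! # Certificate of F6Ex -/

set_option autoImplicit false
set_option maxRecDepth 100000

namespace Pool.Agent.MalP

universe u

namespace Chk

noncomputable def dF6ss_c544 : Cm := .mk (nat_lit 16) (nat_lit 544) (nat_lit 19) (nat_lit 1) (.c (nat_lit 3) (nat_lit 1) (nat_lit 3) (nat_lit 1) (nat_lit 1) (.c (nat_lit 7) (nat_lit 1) (nat_lit 1) (nat_lit 1) (nat_lit 2) (.c (nat_lit 8) (nat_lit 1) (nat_lit 0) (nat_lit 1) (nat_lit 3) (.c (nat_lit 2512) (nat_lit 0) (nat_lit 2032) (nat_lit 0) (nat_lit 4) .nil))))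

noncomputable def dF6ss_c529 : Cm := .mk (nat_lit 18) (nat_lit 529) (nat_lit 20) (nat_lit 4) (.c (nat_lit 4) (nat_lit 1) (nat_lit 3) (nat_lit 1) (nat_lit 4) (.c (nat_lit 7) (nat_lit 1) (nat_lit 2) (nat_lit 1) (nat_lit 5) (.c (nat_lit 9) (nat_lit 1) (nat_lit 1) (nat_lit 1) (nat_lit 6) (.c (nat_lit 10) (nat_lit 3) (nat_lit 0) (nat_lit 1) (nat_lit 7) (.c (nat_lit 2512) (nat_lit 0) (nat_lit 5) (nat_lit 1) (nat_lit 10) .nil)))))

noncomputable def dF6ss_c289 : Cm := .mk (nat_lit 24) (nat_lit 289) (nat_lit 24) (nat_lit 4) (.c (nat_lit 5) (nat_lit 1) (nat_lit 3) (nat_lit 1) (nat_lit 4) (.c (nat_lit 8) (nat_lit 1) (nat_lit 2) (nat_lit 1) (nat_lit 5) (.c (nat_lit 10) (nat_lit 3) (nat_lit 1) (nat_lit 1) (nat_lit 6) (.c (nat_lit 13) (nat_lit 1) (nat_lit 0) (nat_lit 1) (nat_lit 9) (.c (nat_lit 2032) (nat_lit 0) (nat_lit 4) (nat_lit 1) (nat_lit 10) .nil)))))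

noncomputable def dF6ss_c514 : Cm := .mk (nat_lit 30) (nat_lit 514) (nat_lit 28) (nat_lit 3) (.c (nat_lit 4) (nat_lit 1) (nat_lit 4) (nat_lit 1) (nat_lit 3) (.c (nat_lit 9) (nat_lit 1) (nat_lit 2) (nat_lit 1) (nat_lit 4) (.c (nat_lit 14) (nat_lit 2) (nat_lit 0) (nat_lit 1) (nat_lit 5) (.c (nat_lit 2512) (nat_lit 0) (nat_lit 6) (nat_lit 1) (nat_lit 7) .nil))))

noncomputable def dF6ss_c274 : Cm := .mk (nat_lit 34) (nat_lit 274) (nat_lit 31) (nat_lit 6) (.c (nat_lit 5) (nat_lit 1) (nat_lit 4) (nat_lit 1) (nat_lit 6) (.c (nat_lit 6) (nat_lit 1) (nat_lit 3) (nat_lit 1) (nat_lit 7) (.c (nat_lit 10) (nat_lit 3) (nat_lit 2) (nat_lit 1) (nat_lit 8) (.c (nat_lit 14) (nat_lit 2) (nat_lit 1) (nat_lit 1) (nat_lit 11) (.c (nat_lit 16) (nat_lit 2) (nat_lit 0) (nat_lit 1) (nat_lit 13) .nil)))))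

noncomputable def dF6ss_c34 : Cm := .mk (nat_lit 43) (nat_lit 34) (nat_lit 37) (nat_lit 3) (.c (nat_lit 5) (nat_lit 1) (nat_lit 5) (nat_lit 1) (nat_lit 3) (.c (nat_lit 13) (nat_lit 1) (nat_lit 2) (nat_lit 1) (nat_lit 4) (.c (nat_lit 16) (nat_lit 2) (nat_lit 1) (nat_lit 1) (nat_lit 5) (.c (nat_lit 2032) (nat_lit 0) (nat_lit 6) (nat_lit 1) (nat_lit 7) .nil))))

noncomputable def dF6ss_c259 : Cm := .mk (nat_lit 47) (nat_lit 259) (nat_lit 40) (nat_lit 3) (.c (nat_lit 6) (nat_lit 1) (nat_lit 4) (nat_lit 1) (nat_lit 3) (.c (nat_lit 14) (nat_lit 2) (nat_lit 2) (nat_lit 1) (nat_lit 4) (.c (nat_lit 18) (nat_lit 1) (nat_lit 0) (nat_lit 1) (nat_lit 6) .nil)))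

noncomputable def dF6ss_c19 : Cm := .mk (nat_lit 51) (nat_lit 19) (nat_lit 43) (nat_lit 3) (.c (nat_lit 6) (nat_lit 1) (nat_lit 5) (nat_lit 1) (nat_lit 3) (.c (nat_lit 16) (nat_lit 2) (nat_lit 2) (nat_lit 1) (nat_lit 4) (.c (nat_lit 18) (nat_lit 1) (nat_lit 1) (nat_lit 1) (nat_lit 6) .nil)))

noncomputable def dF6ss_c545 : Cm := .mk (nat_lit 55) (nat_lit 545) (nat_lit 46) (nat_lit 8) (.c (nat_lit 7) (nat_lit 1) (nat_lit 5) (nat_lit 1) (nat_lit 8) (.c (nat_lit 8) (nat_lit 1) (nat_lit 4) (nat_lit 1) (nat_lit 9) (.c (nat_lit 10) (nat_lit 3) (nat_lit 3) (nat_lit 1) (nat_lit 10) (.c (nat_lit 19) (nat_lit 1) (nat_lit 2) (nat_lit 1) (nat_lit 13) (.c (nat_lit 20) (nat_lit 4) (nat_lit 1) (nat_lit 1) (nat_lit 14) (.c (nat_lit 24) (nat_lit 4) (nat_lit 0) (nat_lit 1) (nat_lit 18) (.c (nat_lit 2512) (nat_lit 0) (nat_lit 13) (nat_lit 1) (nat_lit 22) (.c (nat_lit 2032) (nat_lit 0) (nat_lit 9) (nat_lit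 1) (nat_lit 22) .nil))))))))

noncomputable def dF6ss_c530 : Cm := .mk (nat_lit 69) (nat_lit 530) (nat_lit 54) (nat_lit 11) (.c (nat_lit 7) (nat_lit 1) (nat_lit 6) (nat_lit 1) (nat_lit 11) (.c (nat_lit 9) (nat_lit 1) (nat_lit 5) (nat_lit 1) (nat_lit 12) (.c (nat_lit 10) (nat_lit 3) (nat_lit 4) (nat_lit 1) (nat_lit 13) (.c (nat_lit 14) (nat_lit 2) (nat_lit 3) (nat_lit 1) (nat_lit 16) (.c (nat_lit 20) (nat_lit 4) (nat_lit 2) (nat_lit 1) (nat_lit 18) (.c (nat_lit 28) (nat_lit 3) (nat_lit 1) (nat_lit 1) (nat_lit 22) (.c (nat_lit 31) (nat_lit 6) (nat_lit 0) (nat_lit 1) (nat_lit 25) (.c (nat_lit 2512) (nat_lit 0) (nat_lit 16) (nat_lit 2) (nat_lit 31) .nil))))))))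

noncomputable def dF6ss_c290 : Cm := .mk (nat_lit 89) (nat_lit 290) (nat_lit 65) (nat_lit 11) (.c (nat_lit 8) (nat_lit 1) (nat_lit 6) (nat_lit 1) (nat_lit 11) (.c (nat_lit 10) (nat_lit 3) (nat_lit 5) (nat_lit 1) (nat_lit 12) (.c (nat_lit 13) (nat_lit 1) (nat_lit 4) (nat_lit 1) (nat_lit 15) (.c (nat_lit 16) (nat_lit 2) (nat_lit 3) (nat_lit 1) (nat_lit 16) (.c (nat_lit 24) (nat_lit 4) (nat_lit 2) (nat_lit 1) (nat_lit 18) (.c (nat_lit 31) (nat_lit 6) (nat_lit 1) (nat_lit 1) (nat_lit 22) (.c (nat_lit 37) (nat_lit 3) (nat_lit 0) (nat_lit 1) (nat_lit 28) (.c (nat_lit 2032) (nat_lit 0) (nat_lit 14) (nat_lit 2) (nat_lit 31) .nil))))))))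

noncomputable def dF6ss_c515 : Cm := .mk (nat_lit 109) (nat_lit 515) (nat_lit 76) (nat_lit 5) (.c (nat_lit 9) (nat_lit 1) (nat_lit 6) (nat_lit 1) (nat_lit 5) (.c (nat_lit 14) (nat_lit 2) (nat_lit 4) (nat_lit 1) (nat_lit 6) (.c (nat_lit 28) (nat_lit 3) (nat_lit 2) (nat_lit 1) (nat_lit 8) (.c (nat_lit 40) (nat_lit 3) (nat_lit 0) (nat_lit 1) (nat_lit 11) (.c (nat_lit 2512) (nat_lit 0) (nat_lit 18) (nat_lit 1) (nat_lit 14) .nil)))))

noncomputable def dF6ss_c275 : Cm := .mk (nat_lit 118) (nat_lit 275) (nat_lit 81) (nat_lit 11) (.c (nat_lit 10) (nat_lit 3) (nat_lit 6) (nat_lit 1) (nat_lit 11) (.c (nat_lit 14) (nat_lit 2) (nat_lit 5) (nat_lit 1) (nat_lit 14) (.c (nat_lit 16) (nat_lit 2) (nat_lit 4) (nat_lit 1) (nat_lit 16) (.c (nat_lit 18) (nat_lit 1) (nat_lit 3) (nat_lit 1) (nat_lit 18) (.c (nat_lit 31) (nat_lit 6) (nat_lit 2) (nat_lit 1) (nat_lit 19) (.c (nat_lit 40) (nat_lit 3) (nat_lit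 1) (nat_lit 1) (nat_lit 25) (.c (nat_lit 43) (nat_lit 3) (nat_lit 0) (nat_lit 1) (nat_lit 28) .nil)))))))

noncomputable def dF6ss_c35 : Cm := .mk (nat_lit 138) (nat_lit 35) (nat_lit 92) (nat_lit 5) (.c (nat_lit 13) (nat_lit 1) (nat_lit 6) (nat_lit 1) (nat_lit 5) (.c (nat_lit 16) (nat_lit 2) (nat_lit 5) (nat_lit 1) (nat_lit 6) (.c (nat_lit 37) (nat_lit 3) (nat_lit 2) (nat_lit 1) (nat_lit 8) (.c (nat_lit 43) (nat_lit 3) (nat_lit 1) (nat_lit 1) (nat_lit 11) (.c (nat_lit 2032) (nat_lit 0) (nat_lit 18) (nat_lit 1) (nat_lit 14) .nil)))))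

noncomputable def dF6ss_c546 : Cm := .mk (nat_lit 147) (nat_lit 546) (nat_lit 97) (nat_lit 25) (.c (nat_lit 10) (nat_lit 3) (nat_lit 10) (nat_lit 3) (nat_lit 25) (.c (nat_lit 13) (nat_lit 1) (nat_lit 9) (nat_lit 1) (nat_lit 34) (.c (nat_lit 14) (nat_lit 2) (nat_lit 8) (nat_lit 1) (nat_lit 35) (.c (nat_lit 16) (nat_lit 2) (nat_lit 7) (nat_lit 1) (nat_lit 37) (.c (nat_lit 19) (nat_lit 1) (nat_lit 6) (nat_lit 1) (nat_lit 39) (.c (nat_lit 20) (nat_lit 4) (nat_lit 5) (nat_lit 1) (nat_lit 40) (.c (nat_lit 24) (nat_lit 4) (nat_lit 4) (nat_lit 1) (nat_lit 44) (.c (nat_lit 31) (nat_lit 6) (nat_lit 3) (nat_lit 1) (nat_lit 48) (.c (nat_lit 46) (nat_lit 8) (nat_lit 2) (nat_lit 1) (nat_lit 54) (.c (nat_lit 54) (nat_lit 11) (nat_lit 1) (nat_lit 1) (nat_lit 62) (.c (nat_lit 65) (nat_lit 11) (nat_lit 0) (nat_lit 1) (nat_lit 73) (.c (nat_lit 2512) (nat_lit 0) (nat_lit 37) (nat_lit 3) (nat_lit 84) (.c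 (nat_lit 2032) (nat_lit 0) (nat_lit 28) (nat_lit 3) (nat_lit 84) .nil)))))))))))))

noncomputable def dF6ss_c531 : Cm := .mk (nat_lit 201) (nat_lit 531) (nat_lit 122) (nat_lit 20) (.c (nat_lit 14) (nat_lit 2) (nat_lit 10) (nat_lit 3) (nat_lit 20) (.c (nat_lit 16) (nat_lit 2) (nat_lit 9) (nat_lit 1) (nat_lit 26) (.c (nat_lit 18) (nat_lit 1) (nat_lit 7) (nat_lit 1) (nat_lit 28) (.c (nat_lit 20) (nat_lit 4) (nat_lit 6) (nat_lit 1) (nat_lit 29) (.c (nat_lit 28) (nat_lit 3) (nat_lit 5) (nat_lit 1) (nat_lit 33) (.c (nat_lit 31) (nat_lit 6) (nat_lit 4) (nat_lit 1) (nat_lit 36) (.c (nat_lit 40) (nat_lit 3) (nat_lit 3) (nat_lit 1) (nat_lit 42) (.c (nat_lit 54) (nat_lit 11) (nat_lit 2) (nat_lit 1) (nat_lit 45) (.c (nat_lit 76) (nat_lit 5) (nat_lit 1) (nat_lit 1) (nat_lit 56) (.c (nat_lit 81) (nat_lit 11) (nat_lit 0) (nat_lit 1) (nat_lit 61) (.c (nat_lit 2512) (nat_lit 0) (nat_lit 43) (nat_lit 3)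 (nat_lit 72) .nil)))))))))))

noncomputable def dF6ss_c291 : Cm := .mk (nat_lit 252) (nat_lit 291) (nat_lit 142) (nat_lit 20) (.c (nat_lit 14) (nat_lit 2) (nat_lit 13) (nat_lit 1) (nat_lit 20) (.c (nat_lit 16) (nat_lit 2) (nat_lit 10) (nat_lit 3) (nat_lit 22) (.c (nat_lit 18) (nat_lit 1) (nat_lit 8) (nat_lit 1) (nat_lit 28) (.c (nat_lit 24) (nat_lit 4) (nat_lit 6) (nat_lit 1) (nat_lit 29) (.c (nat_lit 31) (nat_lit 6) (nat_lit 5) (nat_lit 1) (nat_lit 33) (.c (nat_lit 37) (nat_lit 3) (nat_lit 4) (nat_lit 1) (nat_lit 39) (.c (nat_lit 43) (nat_lit 3) (nat_lit 3) (nat_lit 1) (nat_lit 42) (.c (nat_lit 65) (nat_lit 11) (nat_lit 2) (nat_lit 1) (nat_lit 45) (.c (nat_lit 81) (nat_lit 11) (nat_lit 1) (nat_lit 1) (nat_lit 56) (.c (nat_lit 92) (nat_lit 5) (nat_lit 0) (nat_lit 1) (nat_lit 67) (.c (nat_lit 2032) (nat_lit 0) (nat_lit 40) (nat_lit 3) (nat_lit 72) .nil)))))))))))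

noncomputable def dF6ss_i0 : IL := (.s true (nat_lit 1) (nat_lit 9) (nat_lit 1) (nat_lit 1) (nat_lit 2) true (nat_lit 5) true (nat_lit 8) true (nat_lit 1) true (nat_lit 9) true (nat_lit 9) (.s true (nat_lit 1) (nat_lit 9) (nat_lit 2) (nat_lit 1) (nat_lit 1) true (nat_lit 5) true (nat_lit 9) true (nat_lit 1) true (nat_lit 8) true (nat_lit 9) (.s false (nat_lit 1) (nat_lit 11) (nat_lit 1) (nat_lit 0) (nat_lit 2) true (nat_lit 5) true (nat_lit 8) true (nat_lit 0) true (nat_lit 9) true (nat_lit 10) (.s true (nat_lit 1) (nat_lit 10) (nat_lit 2) (nat_lit 0) (nat_lit 1) true (nat_lit 5) true (nat_lit 9) true (nat_lit 0) true (nat_lit 8) true (nat_lit 10) (.s false (nat_lit 1) (nat_lit 14) (nat_lit 1) (nat_lit 1) (nat_lit 0) true (nat_lit 7) true (nat_lit 10) false (nat_lit 2) true (nat_lit 9) true (nat_lit 9) (.s true (nat_lit 1) (nat_lit 16) (nat_lit 0) (nat_lit 1) (nat_lit 0) false (nat_lit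 11) true (nat_lit 10) false (nat_lit 3) true (nat_lit 10) true (nat_lit 9) (.a true (nat_lit 4) (nat_lit 10) (nat_lit 11) (nat_lit 0) (nat_lit 0) (.e false (nat_lit 2) (nat_lit 21) (nat_lit 5) (nat_lit 5) (.e false (nat_lit 2) (nat_lit 53) (nat_lit 2) (nat_lit 8) (.e true (nat_lit 2) (nat_lit 24) (nat_lit 4) (nat_lit 6) (.e false (nat_lit 4) (nat_lit 55) (nat_lit 1) (nat_lit 9) (.e false (nat_lit 2) (nat_lit 60) (nat_lit 1) (nat_lit 9) (.e false (nat_lit 2) (nat_lit 61) (nat_lit 1) (nat_lit 9) (.e false (nat_lit 4) (nat_lit 66) (nat_lit 0) (nat_lit 10) (.e true (nat_lit 4) (nat_lit 73) (nat_lit 0) (nat_lit 10) (.e false (nat_lit 2) (nat_lit 59) (nat_lit 1) (nat_lit 9) (.e true (nat_lit 2) (nat_lit 63) (nat_lit 1) (nat_lit 9) (.e false (nat_lit 4) (nat_lit 64) (nat_lit 1) (nat_lit 9) (.e true (nat_lit 2) (nat_lit 47) (nat_lit 2) (nat_lit 8) (.e true (nat_lit 2) (nat_lit 54) (nat_lit 1)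 (nat_lit 9) (.e true (nat_lit 2) (nat_lit 52) (nat_lit 2) (nat_lit 8) (.e true (nat_lit 2) (nat_lit 65) (nat_lit 0) (nat_lit 10) (.e true (nat_lit 2) (nat_lit 67) (nat_lit 0) (nat_lit 10) (.e true (nat_lit 4) (nat_lit 70) (nat_lit 0) (nat_lit 10) (.e false (nat_lit 2) (nat_lit 75) (nat_lit 0) (nat_lit 10) .nil)))))))))))))))))))))))))

noncomputable def dF6ss_i1 : IL := (.s true (nat_lit 1) (nat_lit 5) (nat_lit 2) (nat_lit 3) (nat_lit 0) true (nat_lit 6) true (nat_lit 10) true (nat_lit 5) true (nat_lit 8) true (nat_lit 7) (.s true (nat_lit 1) (nat_lit 6) (nat_lit 3) (nat_lit 0) (nat_lit 1) true (nat_lit 2) true (nat_lit 9) true (nat_lit 4) true (nat_lit 7) true (nat_lit 10) (.s true (nat_lit 1) (nat_lit 8) (nat_lit 0) (nat_lit 2) (nat_lit 2) true (nat_lit 6) true (nat_lit 8) true (nat_lit 2) true (nat_lit 10) true (nat_lit 8) (.s true (nat_lit 1) (nat_lit 8) (nat_lit 2) (nat_lit 0) (nat_lit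 2) true (nat_lit 4) true (nat_lit 8) true (nat_lit 2) true (nat_lit 8) true (nat_lit 10) (.s true (nat_lit 1) (nat_lit 8) (nat_lit 2) (nat_lit 2) (nat_lit 0) true (nat_lit 6) true (nat_lit 10) true (nat_lit 2) true (nat_lit 8) true (nat_lit 8) (.s false (nat_lit 1) (nat_lit 9) (nat_lit 1) (nat_lit 1) (nat_lit 2) true (nat_lit 5) true (nat_lit 8) true (nat_lit 1) true (nat_lit 9) true (nat_lit 9) (.s false (nat_lit 1) (nat_lit 11) (nat_lit 1) (nat_lit 2) (nat_lit 0) true (nat_lit 7) true (nat_lit 10) true (nat_lit 0) true (nat_lit 9) true (nat_lit 8) (.s false (nat_lit 1) (nat_lit 12) (nat_lit 2) (nat_lit 0) (nat_lit 1) true (nat_lit 5) true (nat_lit 9) true (nat_lit 0) true (nat_lit 8) true (nat_lit 10) (.s false (nat_lit 1) (nat_lit 12) (nat_lit 2) (nat_lit 1) (nat_lit 0) true (nat_lit 6) true (nat_lit 10) true (nat_lit 0) true (nat_lit 8) true (nat_lit 9) (.s false (nat_lit 1) (nat_lit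 16) (nat_lit 0) (nat_lit 0) (nat_lit 1) true (nat_lit 7) true (nat_lit 9) false (nat_lit 3) true (nat_lit 10) true (nat_lit 10) (.a true (nat_lit 4) (nat_lit 11) (nat_lit 12) (nat_lit 0) (nat_lit 0) (.e false (nat_lit 2) (nat_lit 23) (nat_lit 5) (nat_lit 5) (.e true (nat_lit 2) (nat_lit 51) (nat_lit 2) (nat_lit 8) (.e false (nat_lit 4) (nat_lit 55) (nat_lit 1) (nat_lit 9) (.e true (nat_lit 2) (nat_lit 65) (nat_lit 0) (nat_lit 10) (.e false (nat_lit 2) (nat_lit 68) (nat_lit 0) (nat_lit 10) (.e false (nat_lit 4) (nat_lit 69) (nat_lit 0) (nat_lit 10) (.e true (nat_lit 2) (nat_lit 72) (nat_lit 0) (nat_lit 10) (.e true (nat_lit 4) (nat_lit 70) (nat_lit 0) (nat_lit 10) (.e true (nat_lit 2) (nat_lit 73) (nat_lit 0) (nat_lit 10) (.e false (nat_lit 2) (nat_lit 75) (nat_lit 0) (nat_lit 10) (.e false (nat_lit 2) (nat_lit 64) (nat_lit 1) (nat_lit 9) (.e true (nat_lit 2) (nat_lit 47) (nat_lit 2) (nat_lit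 8) (.e false (nat_lit 2) (nat_lit 66) (nat_lit 0) (nat_lit 10) (.e true (nat_lit 2) (nat_lit 54) (nat_lit 1) (nat_lit 9) .nil)))))))))))))))))))))))))

noncomputable def dF6ss_i2 : IL := (.s false (nat_lit 48) (nat_lit 10) (nat_lit 0) (nat_lit 2) (nat_lit 2) true (nat_lit 5) true (nat_lit 7) true (nat_lit 0) true (nat_lit 9) true (nat_lit 7) (.s true (nat_lit 48) (nat_lit 15) (nat_lit 0) (nat_lit 2) (nat_lit 1) true (nat_lit 6) true (nat_lit 8) false (nat_lit 0) true (nat_lit 9) true (nat_lit 7) (.s true (nat_lit 48) (nat_lit 15) (nat_lit 2) (nat_lit 0) (nat_lit 1) true (nat_lit 4) true (nat_lit 8) false (nat_lit 0) true (nat_lit 7) true (nat_lit 9) (.s true (nat_lit 48) (nat_lit 15) (nat_lit 2) (nat_lit 1) (nat_lit 0) true (nat_lit 5) true (nat_lit 9) false (nat_lit 0) true (nat_lit 7) true (nat_lit 8) (.s true (nat_lit 48) (nat_lit 16) (nat_lit 0) (nat_lit 0) (nat_lit 2) true (nat_lit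 5) true (nat_lit 7) false (nat_lit 1) true (nat_lit 9) true (nat_lit 9) (.s true (nat_lit 48) (nat_lit 18) (nat_lit 0) (nat_lit 0) (nat_lit 1) true (nat_lit 6) true (nat_lit 8) false (nat_lit 2) true (nat_lit 9) true (nat_lit 9) (.i true (nat_lit 1) (nat_lit 2) (.c (nat_lit 2) (nat_lit 1) (.c (nat_lit 2) (nat_lit 1) (.c (nat_lit 2) (nat_lit 1) (.c (nat_lit 1) (nat_lit 16) (.c (nat_lit 0) (nat_lit 256) (.c (nat_lit 0) (nat_lit 256) .nil)))))) (.e false (nat_lit 192) (nat_lit 55) (nat_lit 2) (nat_lit 7) (.e false (nat_lit 96) (nat_lit 58) (nat_lit 2) (nat_lit 7) (.e false (nat_lit 192) (nat_lit 59) (nat_lit 2) (nat_lit 7) (.e true (nat_lit 96) (nat_lit 60) (nat_lit 2) (nat_lit 7) (.e false (nat_lit 96) (nat_lit 61) (nat_lit 2) (nat_lit 7) (.e true (nat_lit 96) (nat_lit 62) (nat_lit 2) (nat_lit 7) (.e true (nat_lit 96) (nat_lit 82) (nat_lit 0) (nat_lit 9) (.e false (nat_lit 96) (nat_lit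 83) (nat_lit 0) (nat_lit 9) (.e true (nat_lit 96) (nat_lit 84) (nat_lit 0) (nat_lit 9) (.e false (nat_lit 192) (nat_lit 85) (nat_lit 0) (nat_lit 9) (.e true (nat_lit 384) (nat_lit 86) (nat_lit 0) (nat_lit 9) (.e false (nat_lit 96) (nat_lit 87) (nat_lit 0) (nat_lit 9) (.e true (nat_lit 96) (nat_lit 88) (nat_lit 0) (nat_lit 9) (.e true (nat_lit 192) (nat_lit 90) (nat_lit 0) (nat_lit 9) (.e true (nat_lit 192) (nat_lit 81) (nat_lit 0) (nat_lit 9) (.e true (nat_lit 96) (nat_lit 79) (nat_lit 1) (nat_lit 8) (.e false (nat_lit 96) (nat_lit 35) (nat_lit 4) (nat_lit 5) (.e true (nat_lit 96) (nat_lit 80) (nat_lit 1) (nat_lit 8) .nil)))))))))))))))))))))))))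

noncomputable def dF6ss_i3 : IL := (.s true (nat_lit 1) (nat_lit 5) (nat_lit 2) (nat_lit 4) (nat_lit 0) true (nat_lit 5) true (nat_lit 9) true (nat_lit 4) true (nat_lit 7) true (nat_lit 5) (.s false (nat_lit 1) (nat_lit 5) (nat_lit 4) (nat_lit 0) (nat_lit 2) false (nat_lit 0) true (nat_lit 7) true (nat_lit 4) true (nat_lit 5) true (nat_lit 9) (.s false (nat_lit 1) (nat_lit 5) (nat_lit 4) (nat_lit 2) (nat_lit 0) true (nat_lit 1) true (nat_lit 9) true (nat_lit 4) true (nat_lit 5) true (nat_lit 7) (.s false (nat_lit 1) (nat_lit 6) (nat_lit 0) (nat_lit 4) (nat_lit 1) true (nat_lit 6) true (nat_lit 8) true (nat_lit 3) true (nat_lit 9) true (nat_lit 5) (.s false (nat_lit 1) (nat_lit 9) (nat_lit 1) (nat_lit 2) (nat_lit 2) true (nat_lit 4) true (nat_lit 7) true (nat_lit 1) true (nat_lit 8) true (nat_lit 7) (.s true (nat_lit 1) (nat_lit 9) (nat_lit 2) (nat_lit 1) (nat_lit 2) true (nat_lit 3)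 true (nat_lit 7) true (nat_lit 1) true (nat_lit 7) true (nat_lit 8) (.s true (nat_lit 1) (nat_lit 14) (nat_lit 0) (nat_lit 1) (nat_lit 2) true (nat_lit 5) true (nat_lit 7) false (nat_lit 0) true (nat_lit 9) true (nat_lit 8) (.s true (nat_lit 1) (nat_lit 14) (nat_lit 1) (nat_lit 2) (nat_lit 0) true (nat_lit 6) true (nat_lit 9) false (nat_lit 0) true (nat_lit 8) true (nat_lit 7) (.s true (nat_lit 1) (nat_lit 15) (nat_lit 1) (nat_lit 2) (nat_lit 0) true (nat_lit 6) true (nat_lit 9) false (nat_lit 0) true (nat_lit 8) true (nat_lit 7) (.s true (nat_lit 1) (nat_lit 15) (nat_lit 2) (nat_lit 1) (nat_lit 0) true (nat_lit 5) true (nat_lit 9) false (nat_lit 0) true (nat_lit 7) true (nat_lit 8) (.s false (nat_lit 1) (nat_lit 17) (nat_lit 0) (nat_lit 0) (nat_lit 2) true (nat_lit 5) true (nat_lit 7) false (nat_lit 1) true (nat_lit 9) true (nat_lit 9) (.s false (nat_lit 1) (nat_lit 16) (nat_lit 0) (nat_lit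 2) (nat_lit 0) false (nat_lit 10) true (nat_lit 9) false (nat_lit 1) true (nat_lit 9) true (nat_lit 7) (.s false (nat_lit 1) (nat_lit 18) (nat_lit 0) (nat_lit 0) (nat_lit 1) true (nat_lit 6) true (nat_lit 8) false (nat_lit 2) true (nat_lit 9) true (nat_lit 9) (.e false (nat_lit 4) (nat_lit 35) (nat_lit 4) (nat_lit 5) (.e true (nat_lit 8) (nat_lit 59) (nat_lit 2) (nat_lit 7) (.e false (nat_lit 4) (nat_lit 63) (nat_lit 2) (nat_lit 7) (.e true (nat_lit 6) (nat_lit 64) (nat_lit 2) (nat_lit 7) (.e false (nat_lit 4) (nat_lit 82) (nat_lit 0) (nat_lit 9) (.e false (nat_lit 2) (nat_lit 88) (nat_lit 0) (nat_lit 9) (.e false (nat_lit 2) (nat_lit 81) (nat_lit 0) (nat_lit 9) (.e true (nat_lit 4) (nat_lit 85) (nat_lit 0) (nat_lit 9) (.e false (nat_lit 6) (nat_lit 80) (nat_lit 1) (nat_lit 8) (.e true (nat_lit 4) (nat_lit 83) (nat_lit 0) (nat_lit 9) (.e true (nat_lit 2) (nat_lit 90) (nat_lit 0) (nat_lit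 9) (.e false (nat_lit 6) (nat_lit 62) (nat_lit 2) (nat_lit 7) .nil)))))))))))))))))))))))))

noncomputable def dF6ss_i4 : IL := (.s true (nat_lit 96) (nat_lit 11) (nat_lit 2) (nat_lit 1) (nat_lit 2) true (nat_lit 3) true (nat_lit 7) true (nat_lit 1) true (nat_lit 7) true (nat_lit 8) (.s false (nat_lit 48) (nat_lit 12) (nat_lit 2) (nat_lit 2) (nat_lit 1) true (nat_lit 4) true (nat_lit 8) true (nat_lit 1) true (nat_lit 7) true (nat_lit 7) (.s false (nat_lit 48) (nat_lit 13) (nat_lit 2) (nat_lit 0) (nat_lit 2) true (nat_lit 3) true (nat_lit 7) true (nat_lit 0) true (nat_lit 7) true (nat_lit 9) (.s true (nat_lit 48) (nat_lit 13) (nat_lit 2) (nat_lit 2) (nat_lit 0) true (nat_lit 5) true (nat_lit 9) true (nat_lit 0) true (nat_lit 7) true (nat_lit 7) (.s true (nat_lit 48) (nat_lit 15) (nat_lit 1) (nat_lit 1) (nat_lit 2) true (nat_lit 4) true (nat_lit 7) false (nat_lit 0) true (nat_lit 8) true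 (nat_lit 8) (.s true (nat_lit 240) (nat_lit 14) (nat_lit 1) (nat_lit 2) (nat_lit 1) false (nat_lit 10) true (nat_lit 8) false (nat_lit 0) true (nat_lit 8) true (nat_lit 7) (.s true (nat_lit 48) (nat_lit 15) (nat_lit 2) (nat_lit 1) (nat_lit 1) true (nat_lit 4) true (nat_lit 8) false (nat_lit 0) true (nat_lit 7) true (nat_lit 8) (.s true (nat_lit 48) (nat_lit 16) (nat_lit 1) (nat_lit 0) (nat_lit 2) true (nat_lit 4) true (nat_lit 7) false (nat_lit 1) true (nat_lit 8) true (nat_lit 9) (.s false (nat_lit 48) (nat_lit 16) (nat_lit 1) (nat_lit 2) (nat_lit 0) true (nat_lit 6) true (nat_lit 9) false (nat_lit 1) true (nat_lit 8) true (nat_lit 7) (.s false (nat_lit 96) (nat_lit 16) (nat_lit 2) (nat_lit 1) (nat_lit 0) true (nat_lit 5) true (nat_lit 9) false (nat_lit 1) true (nat_lit 7) true (nat_lit 8) (.s true (nat_lit 48) (nat_lit 18) (nat_lit 1) (nat_lit 0) (nat_lit 1) false (nat_lit 10) true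 (nat_lit 8) false (nat_lit 2) true (nat_lit 8) true (nat_lit 9) (.i false (nat_lit 1) (nat_lit 2) (.c (nat_lit 2) (nat_lit 1) (.c (nat_lit 2) (nat_lit 1) (.c (nat_lit 2) (nat_lit 1) (.c (nat_lit 0) (nat_lit 256) (.c (nat_lit 1) (nat_lit 16) (.c (nat_lit 1) (nat_lit 16) .nil)))))) (.e true (nat_lit 96) (nat_lit 33) (nat_lit 5) (nat_lit 4) (.e false (nat_lit 96) (nat_lit 32) (nat_lit 5) (nat_lit 4) (.e false (nat_lit 192) (nat_lit 92) (nat_lit 0) (nat_lit 9) (.e true (nat_lit 192) (nat_lit 96) (nat_lit 0) (nat_lit 9) (.e false (nat_lit 96) (nat_lit 65) (nat_lit 2) (nat_lit 7) (.e true (nat_lit 192) (nat_lit 68) (nat_lit 2) (nat_lit 7) (.e true (nat_lit 192) (nat_lit 69) (nat_lit 2) (nat_lit 7) (.e false (nat_lit 192) (nat_lit 72) (nat_lit 2) (nat_lit 7) (.e true (nat_lit 96) (nat_lit 73) (nat_lit 2) (nat_lit 7) (.e true (nat_lit 96) (nat_lit 74) (nat_lit 2) (nat_lit 7) (.e false (nat_lit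 192) (nat_lit 91) (nat_lit 1) (nat_lit 8) (.e true (nat_lit 192) (nat_lit 86) (nat_lit 1) (nat_lit 8) (.e true (nat_lit 96) (nat_lit 44) (nat_lit 3) (nat_lit 6) .nil)))))))))))))))))))))))))

noncomputable def dF6ss_i5 : IL := (.s false (nat_lit 1) (nat_lit 5) (nat_lit 2) (nat_lit 4) (nat_lit 1) true (nat_lit 4) true (nat_lit 8) true (nat_lit 4) true (nat_lit 7) true (nat_lit 5) (.s true (nat_lit 1) (nat_lit 6) (nat_lit 1) (nat_lit 2) (nat_lit 3) true (nat_lit 2) true (nat_lit 6) true (nat_lit 3) true (nat_lit 8) true (nat_lit 7) (.s true (nat_lit 1) (nat_lit 6) (nat_lit 3) (nat_lit 2) (nat_lit 1) true (nat_lit 2) true (nat_lit 8) true (nat_lit 3) true (nat_lit 6) true (nat_lit 7) (.s true (nat_lit 1) (nat_lit 11) (nat_lit 2) (nat_lit 1) (nat_lit 2) true (nat_lit 3) true (nat_lit 7) true (nat_lit 1) true (nat_lit 7) true (nat_lit 8) (.s false (nat_lit 1) (nat_lit 13) (nat_lit 2) (nat_lit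 0) (nat_lit 2) true (nat_lit 3) true (nat_lit 7) true (nat_lit 0) true (nat_lit 7) true (nat_lit 9) (.s true (nat_lit 1) (nat_lit 14) (nat_lit 1) (nat_lit 1) (nat_lit 2) true (nat_lit 4) true (nat_lit 7) false (nat_lit 0) true (nat_lit 8) true (nat_lit 8) (.s true (nat_lit 1) (nat_lit 14) (nat_lit 1) (nat_lit 2) (nat_lit 1) false (nat_lit 10) true (nat_lit 8) false (nat_lit 0) true (nat_lit 8) true (nat_lit 7) (.s true (nat_lit 1) (nat_lit 18) (nat_lit 1) (nat_lit 1) (nat_lit 0) true (nat_lit 6) true (nat_lit 9) false (nat_lit 2) true (nat_lit 8) true (nat_lit 8) (.e false (nat_lit 2) (nat_lit 91) (nat_lit 1) (nat_lit 8) (.e false (nat_lit 4) (nat_lit 68) (nat_lit 2) (nat_lit 7) (.e false (nat_lit 4) (nat_lit 69) (nat_lit 2) (nat_lit 7) (.e true (nat_lit 6) (nat_lit 72) (nat_lit 2) (nat_lit 7) (.e false (nat_lit 4) (nat_lit 73) (nat_lit 2) (nat_lit 7) (.e false (nat_lit 6) (nat_lit 82)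 (nat_lit 1) (nat_lit 8) (.e false (nat_lit 2) (nat_lit 84) (nat_lit 1) (nat_lit 8) (.e true (nat_lit 6) (nat_lit 66) (nat_lit 2) (nat_lit 7) (.e false (nat_lit 4) (nat_lit 71) (nat_lit 2) (nat_lit 7) (.e true (nat_lit 4) (nat_lit 44) (nat_lit 3) (nat_lit 6) (.e true (nat_lit 6) (nat_lit 83) (nat_lit 1) (nat_lit 8) (.e true (nat_lit 4) (nat_lit 86) (nat_lit 1) (nat_lit 8) (.e false (nat_lit 2) (nat_lit 75) (nat_lit 2) (nat_lit 7) (.e false (nat_lit 2) (nat_lit 74) (nat_lit 2) (nat_lit 7) (.e false (nat_lit 2) (nat_lit 92) (nat_lit 0) (nat_lit 9) (.e false (nat_lit 2) (nat_lit 81) (nat_lit 1) (nat_lit 8) (.e true (nat_lit 2) (nat_lit 96) (nat_lit 0) (nat_lit 9) .nil)))))))))))))))))))))))))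

noncomputable def dF6ss_i6 : IL := (.s false (nat_lit 3) (nat_lit 5) (nat_lit 2) (nat_lit 1) (nat_lit 4) false (nat_lit 0) true (nat_lit 5) true (nat_lit 4) true (nat_lit 7) true (nat_lit 8) (.s false (nat_lit 1) (nat_lit 5) (nat_lit 2) (nat_lit 4) (nat_lit 1) true (nat_lit 4) true (nat_lit 8) true (nat_lit 4) true (nat_lit 7) true (nat_lit 5) (.s false (nat_lit 1) (nat_lit 6) (nat_lit 1) (nat_lit 3) (nat_lit 2) true (nat_lit 4) true (nat_lit 7) true (nat_lit 3) true (nat_lit 8) true (nat_lit 6) (.s false (nat_lit 1) (nat_lit 6) (nat_lit 1) (nat_lit 4) (nat_lit 1) false (nat_lit 10) true (nat_lit 8) true (nat_lit 3) true (nat_lit 8) true (nat_lit 5) (.s false (nat_lit 1) (nat_lit 10) (nat_lit 1) (nat_lit 2) (nat_lit 2) true (nat_lit 4) true (nat_lit 7) true (nat_lit 1) true (nat_lit 8) true (nat_lit 7) (.s true (nat_lit 1) (nat_lit 11) (nat_lit 2) (nat_lit 1) (nat_lit 2) true (nat_lit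 3) true (nat_lit 7) true (nat_lit 1) true (nat_lit 7) true (nat_lit 8) (.s false (nat_lit 1) (nat_lit 13) (nat_lit 2) (nat_lit 2) (nat_lit 0) true (nat_lit 5) true (nat_lit 9) true (nat_lit 0) true (nat_lit 7) true (nat_lit 7) (.s true (nat_lit 3) (nat_lit 14) (nat_lit 1) (nat_lit 2) (nat_lit 1) false (nat_lit 10) true (nat_lit 8) false (nat_lit 0) true (nat_lit 8) true (nat_lit 7) (.s false (nat_lit 1) (nat_lit 15) (nat_lit 2) (nat_lit 1) (nat_lit 1) true (nat_lit 4) true (nat_lit 8) false (nat_lit 0) true (nat_lit 7) true (nat_lit 8) (.s true (nat_lit 1) (nat_lit 16) (nat_lit 1) (nat_lit 0) (nat_lit 2) true (nat_lit 4) true (nat_lit 7) false (nat_lit 1) true (nat_lit 8) true (nat_lit 9) (.s true (nat_lit 2) (nat_lit 16) (nat_lit 2) (nat_lit 1) (nat_lit 0) true (nat_lit 5) true (nat_lit 9) false (nat_lit 1) true (nat_lit 7) true (nat_lit 8) (.s true (nat_lit 1) (nat_lit 18) (nat_lit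 1) (nat_lit 1) (nat_lit 0) true (nat_lit 6) true (nat_lit 9) false (nat_lit 2) true (nat_lit 8) true (nat_lit 8) (.e true (nat_lit 4) (nat_lit 33) (nat_lit 5) (nat_lit 4) (.e false (nat_lit 4) (nat_lit 32) (nat_lit 5) (nat_lit 4) (.e false (nat_lit 2) (nat_lit 68) (nat_lit 2) (nat_lit 7) (.e false (nat_lit 8) (nat_lit 69) (nat_lit 2) (nat_lit 7) (.e true (nat_lit 8) (nat_lit 70) (nat_lit 2) (nat_lit 7) (.e false (nat_lit 2) (nat_lit 71) (nat_lit 2) (nat_lit 7) (.e true (nat_lit 2) (nat_lit 72) (nat_lit 2) (nat_lit 7) (.e true (nat_lit 2) (nat_lit 73) (nat_lit 2) (nat_lit 7) (.e false (nat_lit 2) (nat_lit 75) (nat_lit 2) (nat_lit 7) (.e true (nat_lit 2) (nat_lit 81) (nat_lit 1) (nat_lit 8) (.e false (nat_lit 2) (nat_lit 82) (nat_lit 1) (nat_lit 8) (.e true (nat_lit 2) (nat_lit 90) (nat_lit 1) (nat_lit 8) (.e true (nat_lit 2) (nat_lit 83) (nat_lit 1) (nat_lit 8) .nil)))))))))))))))))))))))))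

noncomputable def dF6ss_t0 : Tr := (.nd (.nd (.nd (.nd (.nd (.nd (.nd .leaf (nat_lit 1024) (nat_lit 0) (.p (nat_lit 3) (nat_lit 2) .z) .df .leaf) (nat_lit 2048) (nat_lit 1) (.p (nat_lit 4) (nat_lit 2) .z) .df .leaf) (nat_lit 2049) (nat_lit 2) (.p (nat_lit 5) (nat_lit 2) .z) .df (.nd .leaf (nat_lit 2050) (nat_lit 3) (.p (nat_lit 6) (nat_lit 2) .z) .df .leaf)) (nat_lit 3072) (nat_lit 4) (.p (nat_lit 7) (nat_lit 2) .z) .df (.nd (.nd (.nd .leaf (nat_lit 3073) (nat_lit 5) (.p (nat_lit 8) (nat_lit 2) .z) .df .leaf) (nat_lit 3074) (nat_lit 7) (.p (nat_lit 10) (nat_lit 2) .z) .df .leaf) (nat_lit 4096) (nat_lit 6) (.p (nat_lit 9) (nat_lit 2) .z) .df (.nd .leaf (nat_lit 4097) (nat_lit 8) (.p (nat_lit 11) (nat_lit 2) .z) .df .leaf))) (nat_lit 4098) (nat_lit 11) (.p (nat_lit 14) (nat_lit 2) .z) .df (.nd (.nd (.nd (.nd .leaf (nat_lit 4099) (nat_lit 23) (.n (nat_lit 21) (nat_lit 2) (.p (nat_lit 22)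 (nat_lit 2) (.p (nat_lit 23) (nat_lit 2) .z))) (.ct dF6ss_c529 (nat_lit 2) (nat_lit 0) (.s true (nat_lit 1) (nat_lit 2) (nat_lit 0) (nat_lit 0) (nat_lit 1) true (nat_lit 0) true (nat_lit 2) true (nat_lit 1) true (nat_lit 3) true (nat_lit 3) (.e true (nat_lit 2) (nat_lit 9) (nat_lit 1) (nat_lit 2) (.e false (nat_lit 2) (nat_lit 10) (nat_lit 0) (nat_lit 3) (.e false (nat_lit 2) (nat_lit 12) (nat_lit 0) (nat_lit 3) .nil))))) .leaf) (nat_lit 4100) (nat_lit 33) (.n (nat_lit 28) (nat_lit 2) (.n (nat_lit 29) (nat_lit 2) (.p (nat_lit 30) (nat_lit 2) .z))) (.ct dF6ss_c514 (nat_lit 2) (nat_lit 0) (.s true (nat_lit 1) (nat_lit 2) (nat_lit 0) (nat_lit 0) (nat_lit 2) true (nat_lit 0) true (nat_lit 1) true (nat_lit 1) true (nat_lit 2) true (nat_lit 2) (.e true (nat_lit 2) (nat_lit 9) (nat_lit 2) (nat_lit 1) (.e true (nat_lit 2) (nat_lit 14) (nat_lit 0) (nat_lit 2) (.e false (nat_lit 2) (nat_lit 15)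 (nat_lit 0) (nat_lit 2) .nil))))) .leaf) (nat_lit 5120) (nat_lit 9) (.p (nat_lit 12) (nat_lit 2) .z) .df (.nd .leaf (nat_lit 5121) (nat_lit 10) (.p (nat_lit 13) (nat_lit 2) .z) .df .leaf)) (nat_lit 5122) (nat_lit 13) (.p (nat_lit 16) (nat_lit 2) .z) .df (.nd (.nd .leaf (nat_lit 5123) (nat_lit 29) (.p (nat_lit 24) (nat_lit 2) (.n (nat_lit 26) (nat_lit 2) (.p (nat_lit 27) (nat_lit 2) .z))) (.ct dF6ss_c289 (nat_lit 2) (nat_lit 0) (.s true (nat_lit 1) (nat_lit 2) (nat_lit 0) (nat_lit 1) (nat_lit 1) true (nat_lit 0) true (nat_lit 2) true (nat_lit 1) true (nat_lit 3) true (nat_lit 2) (.e true (nat_lit 2) (nat_lit 11) (nat_lit 1) (nat_lit 2) (.e false (nat_lit 2) (nat_lit 8) (nat_lit 2) (nat_lit 1) (.e false (nat_lit 2) (nat_lit 12) (nat_lit 1) (nat_lit 2) .nil))))) .leaf) (nat_lit 5124) (nat_lit 40) (.n (nat_lit 31) (nat_lit 2) (.n (nat_lit 32) (nat_lit 2) (.p (nat_lit 35) (nat_lit 2) (.n (nat_lit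 36) (nat_lit 2) .z)))) (.ct dF6ss_c274 (nat_lit 2) (nat_lit 0) (.s true (nat_lit 1) (nat_lit 2) (nat_lit 0) (nat_lit 1) (nat_lit 2) true (nat_lit 0) true (nat_lit 2) true (nat_lit 2) true (nat_lit 4) true (nat_lit 3) (.e true (nat_lit 2) (nat_lit 11) (nat_lit 2) (nat_lit 2) (.e true (nat_lit 2) (nat_lit 10) (nat_lit 2) (nat_lit 2) (.e true (nat_lit 2) (nat_lit 16) (nat_lit 0) (nat_lit 4) (.e false (nat_lit 2) (nat_lit 15) (nat_lit 1) (nat_lit 3) .nil)))))) (.nd .leaf (nat_lit 5125) (nat_lit 46) (.n (nat_lit 37) (nat_lit 2) (.n (nat_lit 38) (nat_lit 2) (.p (nat_lit 39) (nat_lit 2) .z))) (.ct dF6ss_c34 (nat_lit 2) (nat_lit 0) (.s true (nat_lit 1) (nat_lit 2) (nat_lit 1) (nat_lit 1) (nat_lit 2) true (nat_lit 0) true (nat_lit 1) true (nat_lit 1) true (nat_lit 2) true (nat_lit 2) (.e true (nat_lit 2) (nat_lit 13) (nat_lit 2) (nat_lit 1) (.e true (nat_lit 2) (nat_lit 16) (nat_lit 1) (nat_lit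 2) (.e false (nat_lit 2) (nat_lit 17) (nat_lit 1) (nat_lit 2) .nil))))) .leaf)))) (nat_lit 6144) (nat_lit 12) (.p (nat_lit 15) (nat_lit 2) .z) .df (.nd (.nd (.nd (.nd (.nd .leaf (nat_lit 6145) (nat_lit 14) (.p (nat_lit 17) (nat_lit 2) .z) .df .leaf) (nat_lit 6146) (nat_lit 15) (.p (nat_lit 18) (nat_lit 2) .z) .df .leaf) (nat_lit 6147) (nat_lit 42) (.n (nat_lit 32) (nat_lit 2) (.p (nat_lit 33) (nat_lit 2) (.n (nat_lit 34) (nat_lit 2) (.p (nat_lit 36) (nat_lit 2) .z)))) (.ct dF6ss_c274 (nat_lit 2) (nat_lit 1) (.s true (nat_lit 1) (nat_lit 2) (nat_lit 0) (nat_lit 2) (nat_lit 1) true (nat_lit 1) true (nat_lit 3) true (nat_lit 2) true (nat_lit 4) true (nat_lit 2) (.e true (nat_lit 2) (nat_lit 14) (nat_lit 1) (nat_lit 3) (.e true (nat_lit 2) (nat_lit 11) (nat_lit 2) (nat_lit 2) (.e false (nat_lit 2) (nat_lit 16) (nat_lit 0) (nat_lit 4) (.e false (nat_lit 2) (nat_lit 12) (nat_lit 2) (nat_lit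 2) .nil)))))) (.nd .leaf (nat_lit 6148) (nat_lit 50) (.n (nat_lit 41) (nat_lit 2) (.n (nat_lit 42) (nat_lit 2) .z)) (.ct dF6ss_c259 (nat_lit 2) (nat_lit 0) (.s true (nat_lit 1) (nat_lit 2) (nat_lit 0) (nat_lit 2) (nat_lit 2) true (nat_lit 0) true (nat_lit 1) true (nat_lit 1) true (nat_lit 2) true (nat_lit 1) (.e true (nat_lit 2) (nat_lit 18) (nat_lit 0) (nat_lit 2) (.e true (nat_lit 2) (nat_lit 15) (nat_lit 2) (nat_lit 1) .nil)))) .leaf)) (nat_lit 6149) (nat_lit 54) (.n (nat_lit 44) (nat_lit 2) (.n (nat_lit 45) (nat_lit 2) .z)) (.ct dF6ss_c19 (nat_lit 2) (nat_lit 0) (.s true (nat_lit 1) (nat_lit 2) (nat_lit 1) (nat_lit 2) (nat_lit 2) true (nat_lit 0) true (nat_lit 1) true (nat_lit 1) true (nat_lit 2) true (nat_lit 1) (.e true (nat_lit 2) (nat_lit 18) (nat_lit 1) (nat_lit 2) (.e true (nat_lit 2) (nat_lit 17) (nat_lit 2) (nat_lit 1) .nil)))) (.nd (.nd (.nd .leaf (nat_lit 7169) (nat_lit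 16) (.p (nat_lit 19) (nat_lit 2) .z) .df .leaf) (nat_lit 7170) (nat_lit 18) (.p (nat_lit 20) (nat_lit 2) .z) .df .leaf) (nat_lit 7173) (nat_lit 62) (.p (nat_lit 53) (nat_lit 2) .z) .df (.nd .leaf (nat_lit 7174) (nat_lit 86) (.n (nat_lit 58) (nat_lit 2) (.p (nat_lit 60) (nat_lit 2) (.n (nat_lit 61) (nat_lit 2) (.p (nat_lit 62) (nat_lit 2) (.p (nat_lit 63) (nat_lit 2) (.n (nat_lit 64) (nat_lit 2) .z)))))) (.ct dF6ss_c530 (nat_lit 2) (nat_lit 0) (.s false (nat_lit 1) (nat_lit 3) (nat_lit 2) (nat_lit 0) (nat_lit 2) true (nat_lit 0) true (nat_lit 4) true (nat_lit 3) true (nat_lit 4) true (nat_lit 6) (.e false (nat_lit 4) (nat_lit 22) (nat_lit 2) (nat_lit 4) (.e false (nat_lit 2) (nat_lit 14) (nat_lit 3) (nat_lit 3) (.e true (nat_lit 2) (nat_lit 21) (nat_lit 2) (nat_lit 4) (.e false (nat_lit 2) (nat_lit 23) (nat_lit 2) (nat_lit 4) (.e false (nat_lit 2) (nat_lit 31) (nat_lit 0) (nat_lit 6) .nil)))))))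 .leaf))) (nat_lit 8192) (nat_lit 17) (.p (nat_lit 19) (nat_lit 2) .z) (.ct dF6ss_c544 (nat_lit 2) (nat_lit 2) (.s false (nat_lit 1) (nat_lit 1) (nat_lit 0) (nat_lit 0) (nat_lit 1) true (nat_lit 0) true (nat_lit 1) true (nat_lit 1) true (nat_lit 2) true (nat_lit 2) (.a false (nat_lit 2) (nat_lit 3) (nat_lit 3) (nat_lit 0) (nat_lit 0) (.e false (nat_lit 2) (nat_lit 7) (nat_lit 1) (nat_lit 1) .nil)))) (.nd (.nd (.nd (.nd .leaf (nat_lit 8194) (nat_lit 24) (.p (nat_lit 24) (nat_lit 2) .z) .df .leaf) (nat_lit 8196) (nat_lit 63) (.n (nat_lit 47) (nat_lit 2) (.p (nat_lit 51) (nat_lit 2) (.p (nat_lit 53) (nat_lit 2) .z))) (.ct dF6ss_c545 (nat_lit 2) (nat_lit 1) (.s true (nat_lit 1) (nat_lit 3) (nat_lit 2) (nat_lit 0) (nat_lit 1) true (nat_lit 0) true (nat_lit 4) true (nat_lit 2) true (nat_lit 3) true (nat_lit 5) (.s false (nat_lit 1) (nat_lit 4) (nat_lit 0) (nat_lit 1) (nat_lit 1) true (nat_lit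 2) true (nat_lit 4) true (nat_lit 1) true (nat_lit 5) true (nat_lit 4) (.e false (nat_lit 2) (nat_lit 7) (nat_lit 5) (nat_lit 0) (.e false (nat_lit 2) (nat_lit 24) (nat_lit 0) (nat_lit 5) (.e true (nat_lit 2) (nat_lit 20) (nat_lit 1) (nat_lit 4) .nil)))))) .leaf) (nat_lit 8198) (nat_lit 106) (.p (nat_lit 68) (nat_lit 4) (.p (nat_lit 69) (nat_lit 4) (.n (nat_lit 70) (nat_lit 4) (.n (nat_lit 72) (nat_lit 2) (.p (nat_lit 75) (nat_lit 2) .z))))) (.ct dF6ss_c290 (nat_lit 2) (nat_lit 0) (.s true (nat_lit 1) (nat_lit 6) (nat_lit 1) (nat_lit 0) (nat_lit 1) false (nat_lit 7) true (nat_lit 5) true (nat_lit 0) true (nat_lit 5) true (nat_lit 6) (.e false (nat_lit 4) (nat_lit 31) (nat_lit 1) (nat_lit 5) (.e false (nat_lit 4) (nat_lit 32) (nat_lit 1) (nat_lit 5) (.e true (nat_lit 4) (nat_lit 33) (nat_lit 1) (nat_lit 5) (.e true (nat_lit 2) (nat_lit 35) (nat_lit 1) (nat_lit 5) (.e false (nat_lit 2)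 (nat_lit 39) (nat_lit 0) (nat_lit 6) .nil))))))) (.nd .leaf (nat_lit 9217) (nat_lit 19) (.p (nat_lit 21) (nat_lit 2) .z) .df .leaf)) (nat_lit 9218) (nat_lit 30) (.p (nat_lit 28) (nat_lit 2) .z) .df (.nd (.nd .leaf (nat_lit 9221) (nat_lit 81) (.p (nat_lit 56) (nat_lit 2) (.n (nat_lit 59) (nat_lit 2) (.n (nat_lit 60) (nat_lit 2) (.n (nat_lit 61) (nat_lit 2) (.p (nat_lit 63) (nat_lit 2) (.n (nat_lit 64) (nat_lit 2) .z)))))) (.ct dF6ss_c530 (nat_lit 2) (nat_lit 1) (.s true (nat_lit 1) (nat_lit 5) (nat_lit 0) (nat_lit 2) (nat_lit 0) false (nat_lit 7) true (nat_lit 6) true (nat_lit 1) true (nat_lit 6) true (nat_lit 4) (.e true (nat_lit 2) (nat_lit 33) (nat_lit 0) (nat_lit 6) (.e true (nat_lit 2) (nat_lit 31) (nat_lit 0) (nat_lit 6) (.e true (nat_lit 2) (nat_lit 32) (nat_lit 0) (nat_lit 6) (.e false (nat_lit 2) (nat_lit 35) (nat_lit 0) (nat_lit 6) (.e true (nat_lit 2) (nat_lit 36) (nat_lit 0)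 (nat_lit 6) (.e false (nat_lit 2) (nat_lit 23) (nat_lit 2) (nat_lit 4) .nil)))))))) .leaf) (nat_lit 9222) (nat_lit 114) (.n (nat_lit 77) (nat_lit 2) (.p (nat_lit 79) (nat_lit 4) (.p (nat_lit 80) (nat_lit 2) .z))) (.ct dF6ss_c515 (nat_lit 2) (nat_lit 0) (.s false (nat_lit 1) (nat_lit 6) (nat_lit 0) (nat_lit 2) (nat_lit 0) false (nat_lit 4) true (nat_lit 3) true (nat_lit 0) true (nat_lit 3) true (nat_lit 2) (.e false (nat_lit 4) (nat_lit 41) (nat_lit 0) (nat_lit 3) (.e false (nat_lit 2) (nat_lit 42) (nat_lit 0) (nat_lit 3) (.e true (nat_lit 2) (nat_lit 30) (nat_lit 2) (nat_lit 2) .nil))))) (.nd .leaf (nat_lit 10240) (nat_lit 20) (.p (nat_lit 22) (nat_lit 2) .z) .df .leaf))))) (nat_lit 10241) (nat_lit 25) (.p (nat_lit 25) (nat_lit 2) .z) .df (.nd (.nd (.nd (.nd (.nd (.nd .leaf (nat_lit 10242) (nat_lit 34) (.p (nat_lit 31) (nat_lit 2) .z) .df .leaf) (nat_lit 10243) (nat_lit 67) (.n (nat_lit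 46) (nat_lit 2) (.n (nat_lit 48) (nat_lit 2) (.p (nat_lit 49) (nat_lit 2) (.p (nat_lit 50) (nat_lit 2) (.p (nat_lit 52) (nat_lit 2) (.n (nat_lit 53) (nat_lit 2) .z)))))) (.ct dF6ss_c545 (nat_lit 2) (nat_lit 2) (.s true (nat_lit 1) (nat_lit 3) (nat_lit 1) (nat_lit 0) (nat_lit 2) true (nat_lit 0) true (nat_lit 3) true (nat_lit 2) true (nat_lit 4) true (nat_lit 5) (.e true (nat_lit 2) (nat_lit 7) (nat_lit 5) (nat_lit 0) (.e true (nat_lit 2) (nat_lit 19) (nat_lit 2) (nat_lit 3) (.e true (nat_lit 2) (nat_lit 21) (nat_lit 1) (nat_lit 4) (.e false (nat_lit 2) (nat_lit 22) (nat_lit 1) (nat_lit 4) (.e false (nat_lit 2) (nat_lit 23) (nat_lit 1) (nat_lit 4) (.e false (nat_lit 2) (nat_lit 25) (nat_lit 0) (nat_lit 5) .nil)))))))) .leaf) (nat_lit 10244) (nat_lit 84) (.n (nat_lit 55) (nat_lit 2) (.p (nat_lit 60) (nat_lit 2) (.n (nat_lit 61) (nat_lit 2) .z))) (.ct dF6ss_c530 (nat_lit 2) (nat_lit 2) (.s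 true (nat_lit 1) (nat_lit 3) (nat_lit 0) (nat_lit 2) (nat_lit 2) true (nat_lit 2) true (nat_lit 4) true (nat_lit 3) true (nat_lit 6) true (nat_lit 4) (.e true (nat_lit 2) (nat_lit 20) (nat_lit 2) (nat_lit 4) (.e false (nat_lit 2) (nat_lit 14) (nat_lit 3) (nat_lit 3) (.e false (nat_lit 2) (nat_lit 32) (nat_lit 0) (nat_lit 6) (.e true (nat_lit 2) (nat_lit 33) (nat_lit 0) (nat_lit 6) (.e false (nat_lit 2) (nat_lit 34) (nat_lit 0) (nat_lit 6) (.e true (nat_lit 2) (nat_lit 36) (nat_lit 0) (nat_lit 6) (.e true (nat_lit 2) (nat_lit 22) (nat_lit 2) (nat_lit 4) .nil))))))))) (.nd .leaf (nat_lit 10245) (nat_lit 100) (.p (nat_lit 65) (nat_lit 4) (.n (nat_lit 66) (nat_lit 2) (.p (nat_lit 67) (nat_lit 2) (.n (nat_lit 68) (nat_lit 2) (.n (nat_lit 69) (nat_lit 2) (.p (nat_lit 70) (nat_lit 2) (.n (nat_lit 71) (nat_lit 2) (.p (nat_lit 72) (nat_lit 2) (.p (nat_lit 73) (nat_lit 2) (.n (nat_lit 75) (nat_lit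 2) .z)))))))))) (.ct dF6ss_c290 (nat_lit 2) (nat_lit 1) (.s true (nat_lit 1) (nat_lit 3) (nat_lit 2) (nat_lit 2) (nat_lit 1) true (nat_lit 1) true (nat_lit 5) true (nat_lit 3) true (nat_lit 4) true (nat_lit 4) (.s true (nat_lit 1) (nat_lit 6) (nat_lit 1) (nat_lit 1) (nat_lit 0) true (nat_lit 3) true (nat_lit 6) true (nat_lit 0) true (nat_lit 5) true (nat_lit 5) (.e true (nat_lit 2) (nat_lit 31) (nat_lit 1) (nat_lit 5) (.e false (nat_lit 4) (nat_lit 24) (nat_lit 2) (nat_lit 4) (.e true (nat_lit 2) (nat_lit 26) (nat_lit 2) (nat_lit 4) (.e false (nat_lit 2) (nat_lit 27) (nat_lit 2) (nat_lit 4) (.e true (nat_lit 2) (nat_lit 39) (nat_lit 0) (nat_lit 6) (.e true (nat_lit 2) (nat_lit 32) (nat_lit 1) (nat_lit 5) (.e false (nat_lit 2) (nat_lit 33) (nat_lit 1) (nat_lit 5) (.e true (nat_lit 2) (nat_lit 34) (nat_lit 1) (nat_lit 5) (.e false (nat_lit 2) (nat_lit 36) (nat_lit 1) (nat_lit 5) (.e false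 (nat_lit 2) (nat_lit 35) (nat_lit 1) (nat_lit 5) .nil))))))))))))) .leaf)) (nat_lit 10246) (nat_lit 127) (.p (nat_lit 90) (nat_lit 2) .z) .df (.nd (.nd (.nd .leaf (nat_lit 10250) (nat_lit 195) (.p (nat_lit 98) (nat_lit 2) (.n (nat_lit 99) (nat_lit 4) (.n (nat_lit 102) (nat_lit 2) (.n (nat_lit 103) (nat_lit 2) (.p (nat_lit 105) (nat_lit 4) (.p (nat_lit 106) (nat_lit 6) (.n (nat_lit 107) (nat_lit 4) (.n (nat_lit 108) (nat_lit 4) (.p (nat_lit 109) (nat_lit 6) (.n (nat_lit 110) (nat_lit 4) (.p (nat_lit 111) (nat_lit 2) (.n (nat_lit 112) (nat_lit 2) (.p (nat_lit 113) (nat_lit 4) (.p (nat_lit 114) (nat_lit 6) (.n (nat_lit 115) (nat_lit 8) (.n (nat_lit 116) (nat_lit 2) (.n (nat_lit 117) (nat_lit 2) (.p (nat_lit 118) (nat_lit 4) (.p (nat_lit 119) (nat_lit 4) (.n (nat_lit 120) (nat_lit 2) (.n (nat_lit 121) (nat_lit 6) .z))))))))))))))))))))) (.ct dF6ss_c546 (nat_lit 2) (nat_lit 0) (.s false (nat_lit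 1) (nat_lit 10) (nat_lit 1) (nat_lit 0) (nat_lit 2) true (nat_lit 5) true (nat_lit 8) true (nat_lit 0) true (nat_lit 9) true (nat_lit 10) (.e false (nat_lit 2) (nat_lit 22) (nat_lit 5) (nat_lit 5) (.e false (nat_lit 2) (nat_lit 52) (nat_lit 2) (nat_lit 8) (.e true (nat_lit 2) (nat_lit 55) (nat_lit 1) (nat_lit 9) (.e false (nat_lit 2) (nat_lit 60) (nat_lit 1) (nat_lit 9) (.e true (nat_lit 2) (nat_lit 61) (nat_lit 1) (nat_lit 9) (.e true (nat_lit 2) (nat_lit 68) (nat_lit 0) (nat_lit 10) .nil)))))))) .leaf) (nat_lit 11264) (nat_lit 22) (.p (nat_lit 20) (nat_lit 2) (.p (nat_lit 21) (nat_lit 2) (.n (nat_lit 22) (nat_lit 2) .z))) (.ct dF6ss_c529 (nat_lit 2) (nat_lit 3) (.s true (nat_lit 1) (nat_lit 2) (nat_lit 0) (nat_lit 1) (nat_lit 0) false (nat_lit 4) true (nat_lit 3) true (nat_lit 1) true (nat_lit 3) true (nat_lit 2) (.e false (nat_lit 2) (nat_lit 7) (nat_lit 2) (nat_lit 1) (.e true (nat_lit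 2) (nat_lit 10) (nat_lit 0) (nat_lit 3) (.e false (nat_lit 2) (nat_lit 9) (nat_lit 1) (nat_lit 2) .nil))))) .leaf) (nat_lit 11265) (nat_lit 26) (.p (nat_lit 26) (nat_lit 2) .z) .df (.nd .leaf (nat_lit 11266) (nat_lit 35) (.p (nat_lit 32) (nat_lit 2) .z) .df .leaf))) (nat_lit 11267) (nat_lit 65) (.n (nat_lit 49) (nat_lit 2) (.p (nat_lit 51) (nat_lit 2) (.p (nat_lit 53) (nat_lit 2) .z))) (.ct dF6ss_c545 (nat_lit 2) (nat_lit 2) (.s true (nat_lit 1) (nat_lit 3) (nat_lit 2) (nat_lit 0) (nat_lit 1) true (nat_lit 0) true (nat_lit 4) true (nat_lit 2) true (nat_lit 3) true (nat_lit 5) (.e false (nat_lit 2) (nat_lit 7) (nat_lit 5) (nat_lit 0) (.e true (nat_lit 2) (nat_lit 22) (nat_lit 1) (nat_lit 4) (.e false (nat_lit 2) (nat_lit 24) (nat_lit 0) (nat_lit 5) .nil))))) (.nd (.nd (.nd (.nd .leaf (nat_lit 11268) (nat_lit 85) (.p (nat_lit 54) (nat_lit 2) (.n (nat_lit 55) (nat_lit 2) (.n (nat_lit 57)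 (nat_lit 2) (.n (nat_lit 59) (nat_lit 2) (.n (nat_lit 60) (nat_lit 2) (.p (nat_lit 62) (nat_lit 2) (.p (nat_lit 63) (nat_lit 2) (.n (nat_lit 64) (nat_lit 4) .z)))))))) (.ct dF6ss_c530 (nat_lit 2) (nat_lit 2) (.s false (nat_lit 1) (nat_lit 4) (nat_lit 2) (nat_lit 0) (nat_lit 1) true (nat_lit 1) true (nat_lit 5) true (nat_lit 2) true (nat_lit 4) true (nat_lit 6) (.e true (nat_lit 2) (nat_lit 9) (nat_lit 5) (nat_lit 1) (.e false (nat_lit 2) (nat_lit 29) (nat_lit 1) (nat_lit 5) (.e true (nat_lit 2) (nat_lit 21) (nat_lit 2) (nat_lit 4) (.e false (nat_lit 2) (nat_lit 22) (nat_lit 2) (nat_lit 4) (.e false (nat_lit 2) (nat_lit 23) (nat_lit 2) (nat_lit 4) (.e true (nat_lit 2) (nat_lit 32) (nat_lit 0) (nat_lit 6) .nil)))))))) .leaf) (nat_lit 11269) (nat_lit 101) (.n (nat_lit 66) (nat_lit 2) (.p (nat_lit 68) (nat_lit 2) (.p (nat_lit 69) (nat_lit 2) (.p (nat_lit 71) (nat_lit 2) (.n (nat_lit 72) (nat_lit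 2) (.p (nat_lit 73) (nat_lit 2) .z)))))) (.ct dF6ss_c290 (nat_lit 2) (nat_lit 1) (.s true (nat_lit 1) (nat_lit 4) (nat_lit 1) (nat_lit 1) (nat_lit 2) true (nat_lit 1) true (nat_lit 4) true (nat_lit 2) true (nat_lit 5) true (nat_lit 5) (.e true (nat_lit 2) (nat_lit 26) (nat_lit 2) (nat_lit 4) (.e false (nat_lit 2) (nat_lit 31) (nat_lit 1) (nat_lit 5) (.e false (nat_lit 2) (nat_lit 32) (nat_lit 1) (nat_lit 5) (.e true (nat_lit 2) (nat_lit 35) (nat_lit 1) (nat_lit 5) (.e false (nat_lit 2) (nat_lit 36) (nat_lit 1) (nat_lit 5) (.e false (nat_lit 2) (nat_lit 34) (nat_lit 1) (nat_lit 5) .nil)))))))) .leaf) (nat_lit 11270) (nat_lit 129) (.p (nat_lit 81) (nat_lit 4) (.p (nat_lit 82) (nat_lit 6) (.n (nat_lit 83) (nat_lit 2) (.p (nat_lit 84) (nat_lit 2) (.n (nat_lit 85) (nat_lit 2) (.p (nat_lit 86) (nat_lit 2) (.n (nat_lit 88) (nat_lit 2) (.n (nat_lit 90) (nat_lit 2) .z)))))))) (.ct dF6ss_c275 (nat_lit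 2) (nat_lit 0) (.s false (nat_lit 1) (nat_lit 4) (nat_lit 2) (nat_lit 1) (nat_lit 2) true (nat_lit 0) true (nat_lit 4) true (nat_lit 2) true (nat_lit 4) true (nat_lit 5) (.s true (nat_lit 1) (nat_lit 4) (nat_lit 2) (nat_lit 2) (nat_lit 1) true (nat_lit 1) true (nat_lit 5) true (nat_lit 2) true (nat_lit 4) true (nat_lit 4) (.s true (nat_lit 1) (nat_lit 5) (nat_lit 0) (nat_lit 2) (nat_lit 2) true (nat_lit 2) true (nat_lit 4) true (nat_lit 1) true (nat_lit 6) true (nat_lit 4) (.s false (nat_lit 1) (nat_lit 6) (nat_lit 0) (nat_lit 1) (nat_lit 2) true (nat_lit 2) true (nat_lit 4) true (nat_lit 0) true (nat_lit 6) true (nat_lit 5) (.e false (nat_lit 2) (nat_lit 34) (nat_lit 2) (nat_lit 4) (.e false (nat_lit 4) (nat_lit 31) (nat_lit 2) (nat_lit 4) (.e false (nat_lit 6) (nat_lit 32) (nat_lit 2) (nat_lit 4) (.e true (nat_lit 2) (nat_lit 35) (nat_lit 2) (nat_lit 4) (.e false (nat_lit 2) (nat_lit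 36) (nat_lit 2) (nat_lit 4) (.e true (nat_lit 2) (nat_lit 33) (nat_lit 2) (nat_lit 4) (.e true (nat_lit 2) (nat_lit 10) (nat_lit 6) (nat_lit 0) (.e true (nat_lit 2) (nat_lit 42) (nat_lit 1) (nat_lit 5) .nil))))))))))))) (.nd .leaf (nat_lit 11274) (nat_lit 190) (.p (nat_lit 97) (nat_lit 2) (.n (nat_lit 98) (nat_lit 6) (.p (nat_lit 99) (nat_lit 8) (.p (nat_lit 100) (nat_lit 6) (.n (nat_lit 101) (nat_lit 4) (.p (nat_lit 102) (nat_lit 8) (.n (nat_lit 103) (nat_lit 6) (.n (nat_lit 104) (nat_lit 2) (.n (nat_lit 105) (nat_lit 6) (.n (nat_lit 106) (nat_lit 8) (.p (nat_lit 107) (nat_lit 4) (.p (nat_lit 108) (nat_lit 8) (.n (nat_lit 109) (nat_lit 16) (.p (nat_lit 110) (nat_lit 8) (.n (nat_lit 111) (nat_lit 6) (.p (nat_lit 112) (nat_lit 6) (.n (nat_lit 113) (nat_lit 14) (.n (nat_lit 114) (nat_lit 18) (.p (nat_lit 115) (nat_lit 22) (.p (nat_lit 116) (nat_lit 8) (.p (nat_lit 117) (nat_lit 4) (.n (nat_lit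 118) (nat_lit 10) (.n (nat_lit 119) (nat_lit 8) (.p (nat_lit 120) (nat_lit 2) (.p (nat_lit 121) (nat_lit 12) .z))))))))))))))))))))))))) (.ct dF6ss_c546 (nat_lit 2) (nat_lit 0) (.s true (nat_lit 1) (nat_lit 4) (nat_lit 2) (nat_lit 1) (nat_lit 3) true (nat_lit 0) true (nat_lit 7) true (nat_lit 6) true (nat_lit 8) true (nat_lit 9) (.e true (nat_lit 2) (nat_lit 34) (nat_lit 3) (nat_lit 7) (.e false (nat_lit 2) (nat_lit 24) (nat_lit 4) (nat_lit 6) (.e true (nat_lit 2) (nat_lit 26) (nat_lit 4) (nat_lit 6) (.e false (nat_lit 2) (nat_lit 27) (nat_lit 4) (nat_lit 6) (.e true (nat_lit 2) (nat_lit 47) (nat_lit 2) (nat_lit 8) (.e false (nat_lit 2) (nat_lit 51) (nat_lit 2) (nat_lit 8) (.e false (nat_lit 2) (nat_lit 53) (nat_lit 2) (nat_lit 8) (.e true (nat_lit 2) (nat_lit 54) (nat_lit 1) (nat_lit 9) (.e false (nat_lit 2) (nat_lit 55) (nat_lit 1) (nat_lit 9) (.e false (nat_lit 2) (nat_lit 56) (nat_lit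 1) (nat_lit 9) .nil)))))))))))) .leaf)) (nat_lit 11275) (nat_lit 199) (.n (nat_lit 97) (nat_lit 4) (.p (nat_lit 98) (nat_lit 6) (.p (nat_lit 99) (nat_lit 2) (.n (nat_lit 100) (nat_lit 8) (.p (nat_lit 101) (nat_lit 10) (.n (nat_lit 102) (nat_lit 10) (.p (nat_lit 103) (nat_lit 6) (.p (nat_lit 104) (nat_lit 4) (.p (nat_lit 105) (nat_lit 6) (.p (nat_lit 106) (nat_lit 12) (.n (nat_lit 107) (nat_lit 2) (.n (nat_lit 108) (nat_lit 8) (.p (nat_lit 109) (nat_lit 16) (.n (nat_lit 110) (nat_lit 4) (.p (nat_lit 111) (nat_lit 6) (.n (nat_lit 112) (nat_lit 8) (.p (nat_lit 113) (nat_lit 6) (.p (nat_lit 114) (nat_lit 6) (.n (nat_lit 115) (nat_lit 14) (.n (nat_lit 116) (nat_lit 4) (.n (nat_lit 117) (nat_lit 4) (.p (nat_lit 118) (nat_lit 6) (.p (nat_lit 119) (nat_lit 10) (.n (nat_lit 120) (nat_lit 6) (.n (nat_lit 121) (nat_lit 8) .z))))))))))))))))))))))))) (.ct dF6ss_c546 (nat_lit 2) (nat_lit 0) (.s false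 (nat_lit 1) (nat_lit 11) (nat_lit 2) (nat_lit 0) (nat_lit 1) true (nat_lit 5) true (nat_lit 9) true (nat_lit 0) true (nat_lit 8) true (nat_lit 10) (.e true (nat_lit 2) (nat_lit 20) (nat_lit 5) (nat_lit 5) (.e true (nat_lit 2) (nat_lit 21) (nat_lit 5) (nat_lit 5) (.e false (nat_lit 2) (nat_lit 22) (nat_lit 5) (nat_lit 5) (.e false (nat_lit 2) (nat_lit 60) (nat_lit 1) (nat_lit 9) (.e true (nat_lit 2) (nat_lit 49) (nat_lit 2) (nat_lit 8) (.e false (nat_lit 2) (nat_lit 51) (nat_lit 2) (nat_lit 8) (.e false (nat_lit 2) (nat_lit 53) (nat_lit 2) (nat_lit 8) (.e true (nat_lit 2) (nat_lit 66) (nat_lit 0) (nat_lit 10) .nil)))))))))) (.nd (.nd .leaf (nat_lit 12288) (nat_lit 21) (.p (nat_lit 23) (nat_lit 2) .z) .df .leaf) (nat_lit 12289) (nat_lit 27) (.p (nat_lit 27) (nat_lit 2) .z) .df (.nd .leaf (nat_lit 12290) (nat_lit 36) (.p (nat_lit 33) (nat_lit 2) .z) .df .leaf)))) (nat_lit 12291) (nat_lit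 66) (.p (nat_lit 51) (nat_lit 2) (.n (nat_lit 52) (nat_lit 2) (.p (nat_lit 53) (nat_lit 2) .z))) (.ct dF6ss_c545 (nat_lit 2) (nat_lit 2) (.s true (nat_lit 1) (nat_lit 3) (nat_lit 2) (nat_lit 1) (nat_lit 0) true (nat_lit 1) true (nat_lit 5) true (nat_lit 2) true (nat_lit 3) true (nat_lit 4) (.e false (nat_lit 2) (nat_lit 8) (nat_lit 4) (nat_lit 1) (.e true (nat_lit 2) (nat_lit 25) (nat_lit 0) (nat_lit 5) (.e false (nat_lit 2) (nat_lit 20) (nat_lit 1) (nat_lit 4) .nil))))) (.nd (.nd (.nd (.nd (.nd .leaf (nat_lit 12292) (nat_lit 88) (.n (nat_lit 56) (nat_lit 2) (.p (nat_lit 59) (nat_lit 2) (.p (nat_lit 60) (nat_lit 2) (.n (nat_lit 63) (nat_lit 2) (.p (nat_lit 64) (nat_lit 4) .z))))) (.ct dF6ss_c530 (nat_lit 2) (nat_lit 2) (.s false (nat_lit 1) (nat_lit 5) (nat_lit 2) (nat_lit 0) (nat_lit 0) true (nat_lit 2) true (nat_lit 6) true (nat_lit 1) true (nat_lit 4) true (nat_lit 6) (.e false (nat_lit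 2) (nat_lit 36) (nat_lit 0) (nat_lit 6) (.e true (nat_lit 2) (nat_lit 9) (nat_lit 5) (nat_lit 1) (.e true (nat_lit 2) (nat_lit 33) (nat_lit 0) (nat_lit 6) .nil))))) .leaf) (nat_lit 12293) (nat_lit 105) (.p (nat_lit 65) (nat_lit 2) (.p (nat_lit 67) (nat_lit 2) (.n (nat_lit 68) (nat_lit 2) (.n (nat_lit 69) (nat_lit 2) (.n (nat_lit 71) (nat_lit 2) (.p (nat_lit 72) (nat_lit 2) (.n (nat_lit 74) (nat_lit 2) .z))))))) (.ct dF6ss_c290 (nat_lit 2) (nat_lit 1) (.s false (nat_lit 1) (nat_lit 5) (nat_lit 2) (nat_lit 0) (nat_lit 1) true (nat_lit 1) true (nat_lit 5) true (nat_lit 1) true (nat_lit 4) true (nat_lit 6) (.e false (nat_lit 2) (nat_lit 36) (nat_lit 1) (nat_lit 5) (.e true (nat_lit 2) (nat_lit 11) (nat_lit 5) (nat_lit 1) (.e false (nat_lit 2) (nat_lit 24) (nat_lit 2) (nat_lit 4) (.e true (nat_lit 2) (nat_lit 26) (nat_lit 2) (nat_lit 4) (.e false (nat_lit 2) (nat_lit 27) (nat_lit 2) (nat_lit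 4) (.e true (nat_lit 2) (nat_lit 37) (nat_lit 0) (nat_lit 6) .nil)))))))) .leaf) (nat_lit 12294) (nat_lit 131) (.n (nat_lit 82) (nat_lit 2) (.p (nat_lit 83) (nat_lit 2) (.n (nat_lit 84) (nat_lit 2) (.n (nat_lit 85) (nat_lit 2) (.p (nat_lit 86) (nat_lit 2) (.p (nat_lit 87) (nat_lit 2) (.p (nat_lit 88) (nat_lit 2) (.p (nat_lit 89) (nat_lit 2) (.p (nat_lit 90) (nat_lit 2) .z))))))))) (.ct dF6ss_c275 (nat_lit 2) (nat_lit 0) (.s true (nat_lit 1) (nat_lit 4) (nat_lit 1) (nat_lit 2) (nat_lit 2) true (nat_lit 1) true (nat_lit 4) true (nat_lit 2) true (nat_lit 5) true (nat_lit 4) (.s false (nat_lit 1) (nat_lit 5) (nat_lit 2) (nat_lit 0) (nat_lit 2) true (nat_lit 0) true (nat_lit 4) true (nat_lit 1) true (nat_lit 4) true (nat_lit 6) (.s true (nat_lit 1) (nat_lit 5) (nat_lit 2) (nat_lit 2) (nat_lit 0) true (nat_lit 2) true (nat_lit 6) true (nat_lit 1) true (nat_lit 4) true (nat_lit 4) (.s true (nat_lit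 1) (nat_lit 6) (nat_lit 2) (nat_lit 0) (nat_lit 1) true (nat_lit 1) true (nat_lit 5) true (nat_lit 0) true (nat_lit 4) true (nat_lit 6) (.e false (nat_lit 4) (nat_lit 32) (nat_lit 2) (nat_lit 4) (.e false (nat_lit 2) (nat_lit 41) (nat_lit 1) (nat_lit 5) (.e false (nat_lit 4) (nat_lit 36) (nat_lit 2) (nat_lit 4) (.e false (nat_lit 4) (nat_lit 31) (nat_lit 2) (nat_lit 4) (.e true (nat_lit 4) (nat_lit 35) (nat_lit 2) (nat_lit 4) (.e true (nat_lit 2) (nat_lit 11) (nat_lit 6) (nat_lit 0) (.e false (nat_lit 2) (nat_lit 44) (nat_lit 0) (nat_lit 6) .nil)))))))))))) (.nd .leaf (nat_lit 12298) (nat_lit 193) (.n (nat_lit 97) (nat_lit 2) (.p (nat_lit 98) (nat_lit 2) (.p (nat_lit 99) (nat_lit 2) (.p (nat_lit 100) (nat_lit 2) (.p (nat_lit 101) (nat_lit 2) (.n (nat_lit 102) (nat_lit 4) (.p (nat_lit 103) (nat_lit 4) (.p (nat_lit 104) (nat_lit 2) (.n (nat_lit 105) (nat_lit 2) (.n (nat_lit 106) (nat_lit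 2) (.p (nat_lit 108) (nat_lit 2) (.p (nat_lit 110) (nat_lit 8) (.n (nat_lit 111) (nat_lit 4) (.p (nat_lit 112) (nat_lit 4) (.n (nat_lit 113) (nat_lit 4) (.n (nat_lit 114) (nat_lit 4) (.p (nat_lit 115) (nat_lit 6) (.p (nat_lit 117) (nat_lit 4) (.n (nat_lit 118) (nat_lit 4) (.p (nat_lit 120) (nat_lit 2) (.p (nat_lit 121) (nat_lit 4) .z))))))))))))))))))))) (.ct dF6ss_c546 (nat_lit 2) (nat_lit 0) (.s true (nat_lit 1) (nat_lit 5) (nat_lit 2) (nat_lit 0) (nat_lit 3) true (nat_lit 0) true (nat_lit 7) true (nat_lit 5) true (nat_lit 8) true (nat_lit 10) (.e true (nat_lit 2) (nat_lit 36) (nat_lit 3) (nat_lit 7) (.e true (nat_lit 2) (nat_lit 21) (nat_lit 5) (nat_lit 5) (.e false (nat_lit 2) (nat_lit 22) (nat_lit 5) (nat_lit 5) (.e false (nat_lit 2) (nat_lit 23) (nat_lit 5) (nat_lit 5) (.e false (nat_lit 2) (nat_lit 53) (nat_lit 2) (nat_lit 8) (.e false (nat_lit 2) (nat_lit 65) (nat_lit 0) (nat_lit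 10) (.e true (nat_lit 2) (nat_lit 66) (nat_lit 0) (nat_lit 10) (.e false (nat_lit 2) (nat_lit 67) (nat_lit 0) (nat_lit 10) .nil)))))))))) .leaf)) (nat_lit 12299) (nat_lit 194) (.p (nat_lit 99) (nat_lit 2) (.n (nat_lit 100) (nat_lit 2) (.p (nat_lit 101) (nat_lit 2) (.p (nat_lit 107) (nat_lit 2) (.n (nat_lit 112) (nat_lit 2) (.n (nat_lit 120) (nat_lit 2) .z)))))) (.ct dF6ss_c546 (nat_lit 2) (nat_lit 0) (.s false (nat_lit 1) (nat_lit 12) (nat_lit 2) (nat_lit 0) (nat_lit 1) true (nat_lit 5) true (nat_lit 9) true (nat_lit 0) true (nat_lit 8) true (nat_lit 10) (.a true (nat_lit 4) (nat_lit 11) (nat_lit 12) (nat_lit 0) (nat_lit 0) (.e true (nat_lit 2) (nat_lit 23) (nat_lit 5) (nat_lit 5) (.e false (nat_lit 2) (nat_lit 61) (nat_lit 1) (nat_lit 9) (.e false (nat_lit 2) (nat_lit 51) (nat_lit 2) (nat_lit 8) (.e true (nat_lit 2) (nat_lit 52) (nat_lit 2) (nat_lit 8) (.e false (nat_lit 2) (nat_lit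 53) (nat_lit 2) (nat_lit 8) (.e true (nat_lit 2) (nat_lit 67) (nat_lit 0) (nat_lit 10) .nil))))))))) (.nd (.nd (.nd .leaf (nat_lit 12300) (nat_lit 200) (.p (nat_lit 97) (nat_lit 2) (.n (nat_lit 99) (nat_lit 2) (.p (nat_lit 100) (nat_lit 4) (.n (nat_lit 101) (nat_lit 4) (.p (nat_lit 102) (nat_lit 2) (.n (nat_lit 103) (nat_lit 4) (.n (nat_lit 104) (nat_lit 2) (.n (nat_lit 105) (nat_lit 2) (.n (nat_lit 106) (nat_lit 2) (.n (nat_lit 107) (nat_lit 2) (.p (nat_lit 108) (nat_lit 2) (.n (nat_lit 109) (nat_lit 4) (.p (nat_lit 110) (nat_lit 2) (.n (nat_lit 111) (nat_lit 4) (.p (nat_lit 112) (nat_lit 2) (.p (nat_lit 115) (nat_lit 6) (.p (nat_lit 117) (nat_lit 4) (.n (nat_lit 118) (nat_lit 2) (.n (nat_lit 119) (nat_lit 2) (.p (nat_lit 121) (nat_lit 2) .z)))))))))))))))))))) (.ct dF6ss_c546 (nat_lit 2) (nat_lit 0) (.s false (nat_lit 1) (nat_lit 12) (nat_lit 2) (nat_lit 1) (nat_lit 0) true (nat_lit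 6) true (nat_lit 10) true (nat_lit 0) true (nat_lit 8) true (nat_lit 9) (.e true (nat_lit 2) (nat_lit 27) (nat_lit 4) (nat_lit 6) (.e false (nat_lit 2) (nat_lit 70) (nat_lit 0) (nat_lit 10) (.e true (nat_lit 2) (nat_lit 51) (nat_lit 2) (nat_lit 8) (.e false (nat_lit 2) (nat_lit 52) (nat_lit 2) (nat_lit 8) (.e true (nat_lit 2) (nat_lit 53) (nat_lit 2) (nat_lit 8) (.e true (nat_lit 2) (nat_lit 56) (nat_lit 1) (nat_lit 9) .nil)))))))) .leaf) (nat_lit 13312) (nat_lit 28) (.p (nat_lit 24) (nat_lit 2) (.n (nat_lit 25) (nat_lit 2) (.p (nat_lit 27) (nat_lit 2) .z))) (.ct dF6ss_c289 (nat_lit 2) (nat_lit 3) (.s false (nat_lit 1) (nat_lit 2) (nat_lit 1) (nat_lit 0) (nat_lit 1) false (nat_lit 4) true (nat_lit 2) true (nat_lit 1) true (nat_lit 2) true (nat_lit 3) (.e false (nat_lit 2) (nat_lit 12) (nat_lit 1) (nat_lit 2) (.e false (nat_lit 2) (nat_lit 8) (nat_lit 2) (nat_lit 1) (.e true (nat_lit 2)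 (nat_lit 10) (nat_lit 1) (nat_lit 2) .nil))))) .leaf) (nat_lit 13314) (nat_lit 43) (.p (nat_lit 37) (nat_lit 2) .z) .df (.nd .leaf (nat_lit 13316) (nat_lit 108) (.p (nat_lit 66) (nat_lit 2) (.n (nat_lit 68) (nat_lit 2) (.n (nat_lit 69) (nat_lit 4) (.p (nat_lit 72) (nat_lit 2) (.n (nat_lit 73) (nat_lit 2) .z))))) (.ct dF6ss_c290 (nat_lit 2) (nat_lit 2) (.s false (nat_lit 1) (nat_lit 4) (nat_lit 2) (nat_lit 1) (nat_lit 1) true (nat_lit 1) true (nat_lit 5) true (nat_lit 2) true (nat_lit 4) true (nat_lit 5) (.e true (nat_lit 2) (nat_lit 11) (nat_lit 5) (nat_lit 1) (.e false (nat_lit 2) (nat_lit 34) (nat_lit 1) (nat_lit 5) (.e true (nat_lit 2) (nat_lit 32) (nat_lit 1) (nat_lit 5) .nil))))) .leaf))) (nat_lit 13318) (nat_lit 143) (.n (nat_lit 93) (nat_lit 2) (.p (nat_lit 95) (nat_lit 4) (.p (nat_lit 96) (nat_lit 2) .z))) (.ct dF6ss_c35 (nat_lit 2) (nat_lit 0) (.s false (nat_lit 1) (nat_lit 6)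 (nat_lit 1) (nat_lit 2) (nat_lit 1) false (nat_lit 4) true (nat_lit 3) true (nat_lit 0) true (nat_lit 3) true (nat_lit 2) (.e false (nat_lit 4) (nat_lit 44) (nat_lit 1) (nat_lit 3) (.e false (nat_lit 2) (nat_lit 45) (nat_lit 1) (nat_lit 3) (.e true (nat_lit 2) (nat_lit 39) (nat_lit 2) (nat_lit 2) .nil))))) (.nd (.nd (.nd (.nd .leaf (nat_lit 14336) (nat_lit 31) (.p (nat_lit 29) (nat_lit 2) .z) .df .leaf) (nat_lit 14337) (nat_lit 37) (.p (nat_lit 34) (nat_lit 2) .z) .df .leaf) (nat_lit 14338) (nat_lit 47) (.p (nat_lit 40) (nat_lit 2) .z) .df (.nd .leaf (nat_lit 14339) (nat_lit 80) (.p (nat_lit 54) (nat_lit 2) (.n (nat_lit 55) (nat_lit 4) (.n (nat_lit 56) (nat_lit 2) (.n (nat_lit 58) (nat_lit 2) (.n (nat_lit 59) (nat_lit 2) (.p (nat_lit 60) (nat_lit 2) (.n (nat_lit 61) (nat_lit 2) (.p (nat_lit 62) (nat_lit 2) (.p (nat_lit 63) (nat_lit 2) (.n (nat_lit 64) (nat_lit 2) .z)))))))))) (.ct dF6ss_c530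 (nat_lit 2) (nat_lit 3) (.s true (nat_lit 1) (nat_lit 3) (nat_lit 2) (nat_lit 0) (nat_lit 2) true (nat_lit 0) true (nat_lit 4) true (nat_lit 3) true (nat_lit 4) true (nat_lit 6) (.s false (nat_lit 1) (nat_lit 6) (nat_lit 0) (nat_lit 1) (nat_lit 0) false (nat_lit 7) true (nat_lit 6) true (nat_lit 0) true (nat_lit 6) true (nat_lit 5) (.e true (nat_lit 4) (nat_lit 22) (nat_lit 2) (nat_lit 4) (.e false (nat_lit 2) (nat_lit 21) (nat_lit 2) (nat_lit 4) (.e true (nat_lit 2) (nat_lit 23) (nat_lit 2) (nat_lit 4) (.e true (nat_lit 2) (nat_lit 31) (nat_lit 0) (nat_lit 6) (.e false (nat_lit 2) (nat_lit 35) (nat_lit 0) (nat_lit 6) (.e false (nat_lit 2) (nat_lit 32) (nat_lit 0) (nat_lit 6) (.e true (nat_lit 2) (nat_lit 33) (nat_lit 0) (nat_lit 6) (.e false (nat_lit 2) (nat_lit 34) (nat_lit 0) (nat_lit 6) (.e true (nat_lit 2) (nat_lit 36) (nat_lit 0) (nat_lit 6) (.e true (nat_lit 2) (nat_lit 30) (nat_lit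 1) (nat_lit 5) .nil))))))))))))) .leaf)) (nat_lit 14340) (nat_lit 117) (.p (nat_lit 76) (nat_lit 2) (.n (nat_lit 78) (nat_lit 2) (.n (nat_lit 80) (nat_lit 2) .z))) (.ct dF6ss_c515 (nat_lit 2) (nat_lit 1) (.s true (nat_lit 1) (nat_lit 4) (nat_lit 2) (nat_lit 0) (nat_lit 2) true (nat_lit 0) true (nat_lit 2) true (nat_lit 1) true (nat_lit 2) true (nat_lit 3) (.e false (nat_lit 2) (nat_lit 9) (nat_lit 6) (nat_lit 0) (.e true (nat_lit 4) (nat_lit 29) (nat_lit 2) (nat_lit 2) (.e true (nat_lit 2) (nat_lit 28) (nat_lit 2) (nat_lit 2) (.e false (nat_lit 2) (nat_lit 30) (nat_lit 2) (nat_lit 2) (.e true (nat_lit 2) (nat_lit 40) (nat_lit 0) (nat_lit 3) .nil))))))) (.nd (.nd .leaf (nat_lit 14341) (nat_lit 128) (.p (nat_lit 91) (nat_lit 2) .z) .df .leaf) (nat_lit 14344) (nat_lit 188) (.p (nat_lit 97) (nat_lit 4) (.n (nat_lit 98) (nat_lit 4) (.p (nat_lit 99) (nat_lit 4) (.p (nat_lit 100) (nat_lit 8)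 (.n (nat_lit 101) (nat_lit 8) (.p (nat_lit 102) (nat_lit 6) (.n (nat_lit 103) (nat_lit 4) (.n (nat_lit 104) (nat_lit 2) (.n (nat_lit 105) (nat_lit 6) (.n (nat_lit 106) (nat_lit 10) (.p (nat_lit 107) (nat_lit 2) (.p (nat_lit 108) (nat_lit 8) (.n (nat_lit 109) (nat_lit 14) (.p (nat_lit 110) (nat_lit 8) (.n (nat_lit 111) (nat_lit 8) (.p (nat_lit 112) (nat_lit 8) (.n (nat_lit 113) (nat_lit 12) (.n (nat_lit 114) (nat_lit 14) (.p (nat_lit 115) (nat_lit 22) (.p (nat_lit 116) (nat_lit 6) (.p (nat_lit 117) (nat_lit 6) (.n (nat_lit 118) (nat_lit 10) (.n (nat_lit 119) (nat_lit 8) (.p (nat_lit 120) (nat_lit 4) (.p (nat_lit 121) (nat_lit 12) .z))))))))))))))))))))))))) (.ct dF6ss_c546 (nat_lit 2) (nat_lit 2) (.s false (nat_lit 1) (nat_lit 8) (nat_lit 0) (nat_lit 2) (nat_lit 2) true (nat_lit 6) true (nat_lit 8) true (nat_lit 2) true (nat_lit 10) true (nat_lit 8) (.e false (nat_lit 2) (nat_lit 24) (nat_lit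 4) (nat_lit 6) (.e false (nat_lit 2) (nat_lit 46) (nat_lit 2) (nat_lit 8) (.e true (nat_lit 4) (nat_lit 68) (nat_lit 0) (nat_lit 10) (.e true (nat_lit 4) (nat_lit 69) (nat_lit 0) (nat_lit 10) (.e false (nat_lit 4) (nat_lit 70) (nat_lit 0) (nat_lit 10) (.e false (nat_lit 2) (nat_lit 72) (nat_lit 0) (nat_lit 10) (.e true (nat_lit 2) (nat_lit 75) (nat_lit 0) (nat_lit 10) (.e false (nat_lit 2) (nat_lit 51) (nat_lit 2) (nat_lit 8) .nil)))))))))) (.nd .leaf (nat_lit 14346) (nat_lit 248) (.p (nat_lit 122) (nat_lit 2) (.n (nat_lit 128) (nat_lit 2) (.n (nat_lit 132) (nat_lit 4) (.p (nat_lit 133) (nat_lit 4) (.n (nat_lit 134) (nat_lit 4) (.p (nat_lit 135) (nat_lit 6) (.p (nat_lit 136) (nat_lit 2) (.n (nat_lit 137) (nat_lit 6) (.n (nat_lit 139) (nat_lit 4) (.n (nat_lit 140) (nat_lit 4) (.n (nat_lit 141) (nat_lit 2) .z))))))))))) (.ct dF6ss_c531 (nat_lit 2) (nat_lit 0) (.s false (nat_lit 1) (nat_lit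 10) (nat_lit 0) (nat_lit 2) (nat_lit 2) true (nat_lit 5) true (nat_lit 7) true (nat_lit 0) true (nat_lit 9) true (nat_lit 7) (.e false (nat_lit 2) (nat_lit 31) (nat_lit 4) (nat_lit 5) (.e false (nat_lit 2) (nat_lit 55) (nat_lit 2) (nat_lit 7) (.e true (nat_lit 2) (nat_lit 90) (nat_lit 0) (nat_lit 9) (.e false (nat_lit 2) (nat_lit 59) (nat_lit 2) (nat_lit 7) .nil)))))) .leaf))))))

noncomputable def dF6ss_t1 : Tr := (.nd (.nd (.nd (.nd (.nd (.nd (.nd .leaf (nat_lit 14348) (nat_lit 245) (.n (nat_lit 122) (nat_lit 4) (.n (nat_lit 123) (nat_lit 1) (.n (nat_lit 124) (nat_lit 3) (.p (nat_lit 125) (nat_lit 3) (.n (nat_lit 126) (nat_lit 3) (.p (nat_lit 127) (nat_lit 2) (.n (nat_lit 129) (nat_lit 1) (.p (nat_lit 130) (nat_lit 2) (.p (nat_lit 131) (nat_lit 4) (.p (nat_lit 132) (nat_lit 1) (.p (nat_lit 133) (nat_lit 5) (.n (nat_lit 134) (nat_lit 5) (.p (nat_lit 135) (nat_lit 4) (.n (nat_lit 136)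 (nat_lit 1) (.n (nat_lit 137) (nat_lit 2) (.n (nat_lit 138) (nat_lit 1) (.n (nat_lit 139) (nat_lit 2) (.n (nat_lit 140) (nat_lit 2) (.n (nat_lit 141) (nat_lit 1) .z))))))))))))))))))) (.ct dF6ss_c531 (nat_lit 2) (nat_lit 0) (.s true (nat_lit 1) (nat_lit 12) (nat_lit 2) (nat_lit 0) (nat_lit 2) true (nat_lit 3) true (nat_lit 7) true (nat_lit 0) true (nat_lit 7) true (nat_lit 9) (.e false (nat_lit 2) (nat_lit 23) (nat_lit 6) (nat_lit 3) (.e true (nat_lit 2) (nat_lit 61) (nat_lit 2) (nat_lit 7) (.e true (nat_lit 2) (nat_lit 56) (nat_lit 2) (nat_lit 7) (.e false (nat_lit 2) (nat_lit 59) (nat_lit 2) (nat_lit 7) (.e false (nat_lit 2) (nat_lit 60) (nat_lit 2) (nat_lit 7) (.e true (nat_lit 2) (nat_lit 63) (nat_lit 2) (nat_lit 7) (.e false (nat_lit 4) (nat_lit 64) (nat_lit 2) (nat_lit 7) (.e true (nat_lit 2) (nat_lit 83) (nat_lit 0) (nat_lit 9) .nil)))))))))) .leaf) (nat_lit 14349) (nat_lit 300)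 (.p (nat_lit 147) (nat_lit 2) (.n (nat_lit 154) (nat_lit 2) (.p (nat_lit 157) (nat_lit 2) .z))) (.ct dF6ss_c291 (nat_lit 2) (nat_lit 0) (.s true (nat_lit 1) (nat_lit 14) (nat_lit 1) (nat_lit 2) (nat_lit 1) false (nat_lit 10) true (nat_lit 8) false (nat_lit 0) true (nat_lit 8) true (nat_lit 7) (.e true (nat_lit 2) (nat_lit 84) (nat_lit 1) (nat_lit 8) (.e false (nat_lit 2) (nat_lit 91) (nat_lit 1) (nat_lit 8) (.e false (nat_lit 2) (nat_lit 71) (nat_lit 2) (nat_lit 7) .nil))))) .leaf) (nat_lit 15360) (nat_lit 32) (.p (nat_lit 30) (nat_lit 2) .z) .df (.nd .leaf (nat_lit 15361) (nat_lit 38) (.p (nat_lit 35) (nat_lit 2) .z) .df .leaf)) (nat_lit 15362) (nat_lit 48) (.p (nat_lit 41) (nat_lit 2) .z) .df (.nd (.nd (.nd .leaf (nat_lit 15363) (nat_lit 87) (.n (nat_lit 58) (nat_lit 2) (.n (nat_lit 59) (nat_lit 4) (.p (nat_lit 62) (nat_lit 4) (.p (nat_lit 63) (nat_lit 2) (.n (nat_lit 64) (nat_lit 4)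 .z))))) (.ct dF6ss_c530 (nat_lit 2) (nat_lit 3) (.s true (nat_lit 1) (nat_lit 6) (nat_lit 0) (nat_lit 0) (nat_lit 1) true (nat_lit 3) true (nat_lit 5) true (nat_lit 0) true (nat_lit 6) true (nat_lit 6) (.e true (nat_lit 2) (nat_lit 30) (nat_lit 1) (nat_lit 5) (.e false (nat_lit 4) (nat_lit 34) (nat_lit 0) (nat_lit 6) (.e true (nat_lit 4) (nat_lit 36) (nat_lit 0) (nat_lit 6) (.e true (nat_lit 4) (nat_lit 31) (nat_lit 0) (nat_lit 6) (.e false (nat_lit 2) (nat_lit 35) (nat_lit 0) (nat_lit 6) .nil))))))) .leaf) (nat_lit 15364) (nat_lit 115) (.n (nat_lit 77) (nat_lit 2) (.p (nat_lit 79) (nat_lit 2) (.p (nat_lit 80) (nat_lit 4) .z))) (.ct dF6ss_c515 (nat_lit 2) (nat_lit 1) (.s true (nat_lit 1) (nat_lit 6) (nat_lit 0) (nat_lit 0) (nat_lit 2) true (nat_lit 1) true (nat_lit 2) true (nat_lit 0) true (nat_lit 3) true (nat_lit 3) (.e true (nat_lit 2) (nat_lit 30) (nat_lit 2) (nat_lit 2) (.e false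 (nat_lit 2) (nat_lit 41) (nat_lit 0) (nat_lit 3) (.e false (nat_lit 4) (nat_lit 42) (nat_lit 0) (nat_lit 3) .nil))))) .leaf) (nat_lit 15365) (nat_lit 133) (.p (nat_lit 81) (nat_lit 4) (.p (nat_lit 82) (nat_lit 4) (.n (nat_lit 85) (nat_lit 2) (.p (nat_lit 86) (nat_lit 4) (.n (nat_lit 89) (nat_lit 2) (.n (nat_lit 90) (nat_lit 2) .z)))))) (.ct dF6ss_c275 (nat_lit 2) (nat_lit 1) (.s false (nat_lit 1) (nat_lit 6) (nat_lit 2) (nat_lit 0) (nat_lit 1) true (nat_lit 1) true (nat_lit 5) true (nat_lit 0) true (nat_lit 4) true (nat_lit 6) (.e false (nat_lit 2) (nat_lit 42) (nat_lit 1) (nat_lit 5) (.e false (nat_lit 2) (nat_lit 11) (nat_lit 6) (nat_lit 0) (.e true (nat_lit 2) (nat_lit 32) (nat_lit 2) (nat_lit 4) (.e false (nat_lit 2) (nat_lit 33) (nat_lit 2) (nat_lit 4) (.e true (nat_lit 2) (nat_lit 34) (nat_lit 2) (nat_lit 4) (.e false (nat_lit 2) (nat_lit 36) (nat_lit 2) (nat_lit 4) (.e true (nat_lit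 2) (nat_lit 44) (nat_lit 0) (nat_lit 6) .nil))))))))) (.nd .leaf (nat_lit 15368) (nat_lit 198) (.p (nat_lit 97) (nat_lit 6) (.n (nat_lit 98) (nat_lit 4) (.p (nat_lit 100) (nat_lit 8) (.n (nat_lit 101) (nat_lit 10) (.p (nat_lit 102) (nat_lit 6) (.n (nat_lit 103) (nat_lit 4) (.n (nat_lit 104) (nat_lit 2) (.n (nat_lit 105) (nat_lit 6) (.n (nat_lit 106) (nat_lit 10) (.p (nat_lit 107) (nat_lit 2) (.p (nat_lit 108) (nat_lit 8) (.n (nat_lit 109) (nat_lit 14) (.p (nat_lit 110) (nat_lit 6) (.n (nat_lit 111) (nat_lit 8) (.p (nat_lit 112) (nat_lit 8) (.n (nat_lit 113) (nat_lit 8) (.n (nat_lit 114) (nat_lit 10) (.p (nat_lit 115) (nat_lit 18) (.p (nat_lit 116) (nat_lit 4) (.p (nat_lit 117) (nat_lit 6) (.n (nat_lit 118) (nat_lit 8) (.n (nat_lit 119) (nat_lit 8) (.p (nat_lit 120) (nat_lit 4) (.p (nat_lit 121) (nat_lit 8) .z)))))))))))))))))))))))) (.ct dF6ss_c546 (nat_lit 2) (nat_lit 2) (.s true (nat_lit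 1) (nat_lit 15) (nat_lit 0) (nat_lit 1) (nat_lit 1) true (nat_lit 7) true (nat_lit 9) false (nat_lit 2) true (nat_lit 10) true (nat_lit 9) (.e true (nat_lit 2) (nat_lit 35) (nat_lit 3) (nat_lit 7) (.e true (nat_lit 2) (nat_lit 58) (nat_lit 1) (nat_lit 9) (.e false (nat_lit 2) (nat_lit 63) (nat_lit 1) (nat_lit 9) .nil))))) .leaf))) (nat_lit 15370) (nat_lit 249) (.p (nat_lit 122) (nat_lit 4) (.p (nat_lit 124) (nat_lit 2) (.n (nat_lit 125) (nat_lit 2) (.p (nat_lit 126) (nat_lit 2) (.p (nat_lit 128) (nat_lit 2) (.p (nat_lit 132) (nat_lit 2) (.n (nat_lit 133) (nat_lit 4) (.p (nat_lit 134) (nat_lit 4) (.n (nat_lit 135) (nat_lit 6) (.n (nat_lit 136) (nat_lit 2) (.p (nat_lit 137) (nat_lit 6) (.p (nat_lit 139) (nat_lit 4) (.p (nat_lit 140) (nat_lit 2) (.p (nat_lit 141) (nat_lit 2) .z)))))))))))))) (.ct dF6ss_c531 (nat_lit 2) (nat_lit 0) (.s true (nat_lit 1) (nat_lit 10) (nat_lit 2) (nat_lit 2)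 (nat_lit 0) true (nat_lit 5) true (nat_lit 9) true (nat_lit 0) true (nat_lit 7) true (nat_lit 7) (.e true (nat_lit 2) (nat_lit 31) (nat_lit 4) (nat_lit 5) (.e true (nat_lit 2) (nat_lit 81) (nat_lit 0) (nat_lit 9) (.e false (nat_lit 4) (nat_lit 55) (nat_lit 2) (nat_lit 7) (.e true (nat_lit 2) (nat_lit 60) (nat_lit 2) (nat_lit 7) (.e false (nat_lit 2) (nat_lit 61) (nat_lit 2) (nat_lit 7) .nil))))))) (.nd (.nd (.nd (.nd .leaf (nat_lit 15371) (nat_lit 246) (.n (nat_lit 122) (nat_lit 4) (.n (nat_lit 123) (nat_lit 2) (.n (nat_lit 124) (nat_lit 2) (.p (nat_lit 125) (nat_lit 2) (.n (nat_lit 126) (nat_lit 2) (.n (nat_lit 128) (nat_lit 2) (.n (nat_lit 129) (nat_lit 2) (.p (nat_lit 130) (nat_lit 4) (.n (nat_lit 132) (nat_lit 6) (.p (nat_lit 133) (nat_lit 4) (.n (nat_lit 134) (nat_lit 4) (.p (nat_lit 135) (nat_lit 10) (.p (nat_lit 136) (nat_lit 4) (.n (nat_lit 137) (nat_lit 10) (.n (nat_lit 138)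 (nat_lit 2) (.n (nat_lit 139) (nat_lit 8) (.n (nat_lit 140) (nat_lit 2) (.n (nat_lit 141) (nat_lit 6) .z)))))))))))))))))) (.ct dF6ss_c531 (nat_lit 2) (nat_lit 0) (.s false (nat_lit 1) (nat_lit 15) (nat_lit 2) (nat_lit 0) (nat_lit 1) true (nat_lit 4) true (nat_lit 8) false (nat_lit 0) true (nat_lit 7) true (nat_lit 9) (.e true (nat_lit 2) (nat_lit 30) (nat_lit 5) (nat_lit 4) (.e false (nat_lit 2) (nat_lit 79) (nat_lit 1) (nat_lit 8) (.e true (nat_lit 2) (nat_lit 58) (nat_lit 2) (nat_lit 7) (.e true (nat_lit 4) (nat_lit 59) (nat_lit 2) (nat_lit 7) (.e false (nat_lit 4) (nat_lit 62) (nat_lit 2) (nat_lit 7) (.e false (nat_lit 2) (nat_lit 63) (nat_lit 2) (nat_lit 7) (.e true (nat_lit 4) (nat_lit 64) (nat_lit 2) (nat_lit 7) (.e true (nat_lit 2) (nat_lit 85) (nat_lit 0) (nat_lit 9) .nil)))))))))) .leaf) (nat_lit 15372) (nat_lit 251) (.p (nat_lit 123) (nat_lit 2) (.p (nat_lit 128) (nat_lit 2)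 (.n (nat_lit 129) (nat_lit 2) (.p (nat_lit 131) (nat_lit 4) (.p (nat_lit 132) (nat_lit 4) (.n (nat_lit 135) (nat_lit 4) (.n (nat_lit 136) (nat_lit 4) (.p (nat_lit 137) (nat_lit 4) (.p (nat_lit 138) (nat_lit 2) (.p (nat_lit 139) (nat_lit 4) (.p (nat_lit 141) (nat_lit 2) .z))))))))))) (.ct dF6ss_c531 (nat_lit 2) (nat_lit 0) (.s true (nat_lit 1) (nat_lit 15) (nat_lit 1) (nat_lit 2) (nat_lit 0) true (nat_lit 6) true (nat_lit 9) false (nat_lit 0) true (nat_lit 8) true (nat_lit 7) (.e false (nat_lit 2) (nat_lit 41) (nat_lit 3) (nat_lit 6) (.e true (nat_lit 2) (nat_lit 85) (nat_lit 0) (nat_lit 9) (.e true (nat_lit 2) (nat_lit 77) (nat_lit 1) (nat_lit 8) (.e false (nat_lit 2) (nat_lit 79) (nat_lit 1) (nat_lit 8) (.e false (nat_lit 4) (nat_lit 80) (nat_lit 1) (nat_lit 8) (.e false (nat_lit 2) (nat_lit 58) (nat_lit 2) (nat_lit 7) .nil)))))))) .leaf) (nat_lit 15373) (nat_lit 301) (.p (nat_lit 142)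 (nat_lit 8) (.n (nat_lit 143) (nat_lit 4) (.n (nat_lit 144) (nat_lit 12) (.n (nat_lit 145) (nat_lit 2) (.p (nat_lit 146) (nat_lit 8) (.n (nat_lit 147) (nat_lit 4) (.n (nat_lit 148) (nat_lit 2) (.p (nat_lit 149) (nat_lit 12) (.p (nat_lit 150) (nat_lit 4) (.n (nat_lit 151) (nat_lit 4) (.p (nat_lit 152) (nat_lit 8) (.n (nat_lit 153) (nat_lit 6) (.p (nat_lit 154) (nat_lit 10) (.n (nat_lit 155) (nat_lit 10) (.p (nat_lit 156) (nat_lit 16) (.n (nat_lit 158) (nat_lit 4) (.n (nat_lit 159) (nat_lit 16) (.n (nat_lit 160) (nat_lit 18) (.p (nat_lit 161) (nat_lit 16) .z))))))))))))))))))) (.ct dF6ss_c291 (nat_lit 2) (nat_lit 0) (.s false (nat_lit 1) (nat_lit 15) (nat_lit 2) (nat_lit 1) (nat_lit 1) true (nat_lit 4) true (nat_lit 8) false (nat_lit 0) true (nat_lit 7) true (nat_lit 8) (.e true (nat_lit 2) (nat_lit 35) (nat_lit 5) (nat_lit 4) (.e false (nat_lit 2) (nat_lit 87) (nat_lit 1) (nat_lit 8) (.e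 true (nat_lit 2) (nat_lit 85) (nat_lit 1) (nat_lit 8) .nil))))) (.nd .leaf (nat_lit 16384) (nat_lit 39) (.p (nat_lit 36) (nat_lit 2) .z) .df .leaf)) (nat_lit 16385) (nat_lit 44) (.p (nat_lit 38) (nat_lit 2) .z) .df (.nd (.nd .leaf (nat_lit 16386) (nat_lit 51) (.p (nat_lit 43) (nat_lit 2) .z) .df .leaf) (nat_lit 16387) (nat_lit 104) (.p (nat_lit 65) (nat_lit 2) (.n (nat_lit 71) (nat_lit 2) (.p (nat_lit 73) (nat_lit 2) .z))) (.ct dF6ss_c290 (nat_lit 2) (nat_lit 3) (.s false (nat_lit 1) (nat_lit 3) (nat_lit 1) (nat_lit 2) (nat_lit 2) true (nat_lit 1) true (nat_lit 4) true (nat_lit 3) true (nat_lit 5) true (nat_lit 4) (.e false (nat_lit 2) (nat_lit 10) (nat_lit 5) (nat_lit 1) (.e false (nat_lit 2) (nat_lit 24) (nat_lit 2) (nat_lit 4) (.e true (nat_lit 2) (nat_lit 32) (nat_lit 1) (nat_lit 5) (.e false (nat_lit 2) (nat_lit 33) (nat_lit 1) (nat_lit 5) (.e true (nat_lit 2) (nat_lit 34) (nat_lit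 1) (nat_lit 5) (.e false (nat_lit 2) (nat_lit 36) (nat_lit 1) (nat_lit 5) (.e false (nat_lit 2) (nat_lit 25) (nat_lit 2) (nat_lit 4) .nil))))))))) (.nd .leaf (nat_lit 16388) (nat_lit 132) (.p (nat_lit 82) (nat_lit 2) (.p (nat_lit 84) (nat_lit 2) (.n (nat_lit 87) (nat_lit 2) (.n (nat_lit 88) (nat_lit 2) (.p (nat_lit 91) (nat_lit 2) .z))))) (.ct dF6ss_c275 (nat_lit 2) (nat_lit 2) (.s false (nat_lit 1) (nat_lit 4) (nat_lit 1) (nat_lit 2) (nat_lit 2) true (nat_lit 1) true (nat_lit 4) true (nat_lit 2) true (nat_lit 5) true (nat_lit 4) (.e false (nat_lit 2) (nat_lit 14) (nat_lit 5) (nat_lit 1) (.e false (nat_lit 2) (nat_lit 32) (nat_lit 2) (nat_lit 4) (.e true (nat_lit 2) (nat_lit 41) (nat_lit 1) (nat_lit 5) (.e true (nat_lit 2) (nat_lit 42) (nat_lit 1) (nat_lit 5) (.e false (nat_lit 2) (nat_lit 34) (nat_lit 2) (nat_lit 4) .nil))))))) .leaf)))) (nat_lit 16389) (nat_lit 146) (.p (nat_lit 92)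 (nat_lit 2) (.n (nat_lit 94) (nat_lit 2) (.n (nat_lit 96) (nat_lit 2) .z))) (.ct dF6ss_c35 (nat_lit 2) (nat_lit 1) (.s true (nat_lit 1) (nat_lit 5) (nat_lit 2) (nat_lit 1) (nat_lit 2) true (nat_lit 0) true (nat_lit 2) true (nat_lit 1) true (nat_lit 2) true (nat_lit 3) (.e false (nat_lit 2) (nat_lit 13) (nat_lit 6) (nat_lit 0) (.e true (nat_lit 4) (nat_lit 38) (nat_lit 2) (nat_lit 2) (.e true (nat_lit 2) (nat_lit 37) (nat_lit 2) (nat_lit 2) (.e false (nat_lit 2) (nat_lit 39) (nat_lit 2) (nat_lit 2) (.e true (nat_lit 2) (nat_lit 43) (nat_lit 1) (nat_lit 3) .nil))))))) (.nd (.nd (.nd (.nd (.nd .leaf (nat_lit 16391) (nat_lit 196) (.n (nat_lit 97) (nat_lit 2) (.p (nat_lit 99) (nat_lit 4) (.p (nat_lit 101) (nat_lit 2) (.n (nat_lit 102) (nat_lit 2) (.p (nat_lit 103) (nat_lit 4) (.p (nat_lit 104) (nat_lit 2) (.n (nat_lit 105) (nat_lit 2) (.n (nat_lit 106) (nat_lit 2) (.p (nat_lit 107) (nat_lit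 2) (.p (nat_lit 108) (nat_lit 2) (.p (nat_lit 110) (nat_lit 4) (.n (nat_lit 113) (nat_lit 4) (.n (nat_lit 114) (nat_lit 4) (.p (nat_lit 115) (nat_lit 4) (.n (nat_lit 118) (nat_lit 2) (.p (nat_lit 121) (nat_lit 4) .z)))))))))))))))) (.ct dF6ss_c546 (nat_lit 2) (nat_lit 3) (.s true (nat_lit 1) (nat_lit 16) (nat_lit 0) (nat_lit 1) (nat_lit 0) false (nat_lit 11) true (nat_lit 10) false (nat_lit 3) true (nat_lit 10) true (nat_lit 9) (.e false (nat_lit 2) (nat_lit 65) (nat_lit 0) (nat_lit 10) (.e true (nat_lit 2) (nat_lit 71) (nat_lit 0) (nat_lit 10) (.e false (nat_lit 2) (nat_lit 64) (nat_lit 1) (nat_lit 9) .nil))))) .leaf) (nat_lit 16393) (nat_lit 242) (.n (nat_lit 124) (nat_lit 2) (.p (nat_lit 127) (nat_lit 2) (.p (nat_lit 128) (nat_lit 2) (.p (nat_lit 131) (nat_lit 2) (.p (nat_lit 132) (nat_lit 5) (.p (nat_lit 134) (nat_lit 2) (.n (nat_lit 135) (nat_lit 3) (.n (nat_lit 136) (nat_lit 5)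 (.p (nat_lit 137) (nat_lit 7) (.n (nat_lit 138) (nat_lit 1) (.p (nat_lit 139) (nat_lit 4) (.p (nat_lit 140) (nat_lit 3) (.p (nat_lit 141) (nat_lit 2) .z))))))))))))) (.ct dF6ss_c531 (nat_lit 2) (nat_lit 1) (.s true (nat_lit 1) (nat_lit 16) (nat_lit 0) (nat_lit 2) (nat_lit 0) false (nat_lit 10) true (nat_lit 9) false (nat_lit 1) true (nat_lit 9) true (nat_lit 7) (.e true (nat_lit 2) (nat_lit 86) (nat_lit 0) (nat_lit 9) (.e false (nat_lit 2) (nat_lit 82) (nat_lit 0) (nat_lit 9) (.e false (nat_lit 2) (nat_lit 84) (nat_lit 0) (nat_lit 9) (.e true (nat_lit 2) (nat_lit 87) (nat_lit 0) (nat_lit 9) (.e true (nat_lit 2) (nat_lit 88) (nat_lit 0) (nat_lit 9) (.e false (nat_lit 2) (nat_lit 91) (nat_lit 0) (nat_lit 9) (.e false (nat_lit 2) (nat_lit 64) (nat_lit 2) (nat_lit 7) .nil))))))))) .leaf) (nat_lit 16394) (nat_lit 291) (.n (nat_lit 142) (nat_lit 1) (.p (nat_lit 143) (nat_lit 1) (.p (nat_lit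 144) (nat_lit 1) (.n (nat_lit 145) (nat_lit 1) (.p (nat_lit 146) (nat_lit 1) (.n (nat_lit 148) (nat_lit 1) (.n (nat_lit 149) (nat_lit 1) (.p (nat_lit 151) (nat_lit 1) (.p (nat_lit 154) (nat_lit 2) (.n (nat_lit 155) (nat_lit 1) (.n (nat_lit 157) (nat_lit 1) (.n (nat_lit 158) (nat_lit 1) (.p (nat_lit 159) (nat_lit 1) (.n (nat_lit 160) (nat_lit 3) (.p (nat_lit 161) (nat_lit 3) .z))))))))))))))) (.ct dF6ss_c291 (nat_lit 2) (nat_lit 1) (.s false (nat_lit 1) (nat_lit 10) (nat_lit 1) (nat_lit 2) (nat_lit 2) true (nat_lit 4) true (nat_lit 7) true (nat_lit 1) true (nat_lit 8) true (nat_lit 7) (.e false (nat_lit 2) (nat_lit 31) (nat_lit 5) (nat_lit 4) (.e true (nat_lit 4) (nat_lit 65) (nat_lit 2) (nat_lit 7) (.e false (nat_lit 2) (nat_lit 66) (nat_lit 2) (nat_lit 7) (.e true (nat_lit 2) (nat_lit 67) (nat_lit 2) (nat_lit 7) (.e false (nat_lit 4) (nat_lit 68) (nat_lit 2) (nat_lit 7) (.e false (nat_lit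 4) (nat_lit 69) (nat_lit 2) (nat_lit 7) (.e true (nat_lit 4) (nat_lit 70) (nat_lit 2) (nat_lit 7) (.e false (nat_lit 2) (nat_lit 71) (nat_lit 2) (nat_lit 7) (.e true (nat_lit 2) (nat_lit 72) (nat_lit 2) (nat_lit 7) (.e true (nat_lit 2) (nat_lit 73) (nat_lit 2) (nat_lit 7) (.e false (nat_lit 2) (nat_lit 75) (nat_lit 2) (nat_lit 7) (.e true (nat_lit 2) (nat_lit 90) (nat_lit 1) (nat_lit 8) .nil)))))))))))))) (.nd .leaf (nat_lit 16395) (nat_lit 296) (.n (nat_lit 142) (nat_lit 4) (.p (nat_lit 144) (nat_lit 8) (.p (nat_lit 145) (nat_lit 8) (.n (nat_lit 146) (nat_lit 4) (.p (nat_lit 147) (nat_lit 4) (.n (nat_lit 148) (nat_lit 6) (.p (nat_lit 150) (nat_lit 2) (.p (nat_lit 151) (nat_lit 2) (.n (nat_lit 152) (nat_lit 2) (.n (nat_lit 154) (nat_lit 2) (.p (nat_lit 155) (nat_lit 4) (.n (nat_lit 156) (nat_lit 2) (.n (nat_lit 157) (nat_lit 2) (.n (nat_lit 158) (nat_lit 2) (.p (nat_lit 159) (nat_lit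 6) (.p (nat_lit 160) (nat_lit 4) (.n (nat_lit 161) (nat_lit 4) .z))))))))))))))))) (.ct dF6ss_c291 (nat_lit 2) (nat_lit 1) (.s true (nat_lit 1) (nat_lit 11) (nat_lit 2) (nat_lit 1) (nat_lit 2) true (nat_lit 3) true (nat_lit 7) true (nat_lit 1) true (nat_lit 7) true (nat_lit 8) (.e false (nat_lit 2) (nat_lit 26) (nat_lit 6) (nat_lit 3) (.e true (nat_lit 2) (nat_lit 66) (nat_lit 2) (nat_lit 7) (.e false (nat_lit 2) (nat_lit 68) (nat_lit 2) (nat_lit 7) (.e false (nat_lit 2) (nat_lit 71) (nat_lit 2) (nat_lit 7) (.e true (nat_lit 2) (nat_lit 72) (nat_lit 2) (nat_lit 7) (.e false (nat_lit 2) (nat_lit 73) (nat_lit 2) (nat_lit 7) (.e true (nat_lit 2) (nat_lit 82) (nat_lit 1) (nat_lit 8) .nil))))))))) .leaf)) (nat_lit 16396) (nat_lit 299) (.n (nat_lit 142) (nat_lit 7) (.p (nat_lit 143) (nat_lit 5) (.p (nat_lit 144) (nat_lit 5) (.n (nat_lit 145) (nat_lit 3) (.n (nat_lit 146) (nat_lit 5) (.p (nat_lit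 147) (nat_lit 4) (.p (nat_lit 148) (nat_lit 5) (.n (nat_lit 149) (nat_lit 11) (.n (nat_lit 150) (nat_lit 4) (.p (nat_lit 151) (nat_lit 3) (.n (nat_lit 152) (nat_lit 6) (.p (nat_lit 153) (nat_lit 4) (.n (nat_lit 154) (nat_lit 8) (.p (nat_lit 155) (nat_lit 3) (.n (nat_lit 156) (nat_lit 10) (.p (nat_lit 157) (nat_lit 5) (.p (nat_lit 158) (nat_lit 5) (.p (nat_lit 159) (nat_lit 7) (.p (nat_lit 160) (nat_lit 9) (.n (nat_lit 161) (nat_lit 9) .z)))))))))))))))))))) (.ct dF6ss_c291 (nat_lit 2) (nat_lit 1) (.s false (nat_lit 1) (nat_lit 16) (nat_lit 2) (nat_lit 1) (nat_lit 0) true (nat_lit 5) true (nat_lit 9) false (nat_lit 1) true (nat_lit 7) true (nat_lit 8) (.e true (nat_lit 2) (nat_lit 38) (nat_lit 4) (nat_lit 5) (.e false (nat_lit 2) (nat_lit 94) (nat_lit 0) (nat_lit 9) (.e true (nat_lit 2) (nat_lit 65) (nat_lit 2) (nat_lit 7) (.e false (nat_lit 2) (nat_lit 71) (nat_lit 2) (nat_lit 7) (.e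 true (nat_lit 2) (nat_lit 73) (nat_lit 2) (nat_lit 7) (.e true (nat_lit 2) (nat_lit 86) (nat_lit 1) (nat_lit 8) .nil)))))))) (.nd (.nd (.nd .leaf (nat_lit 17408) (nat_lit 41) (.n (nat_lit 31) (nat_lit 4) (.n (nat_lit 32) (nat_lit 2) (.p (nat_lit 33) (nat_lit 2) (.p (nat_lit 34) (nat_lit 2) (.p (nat_lit 35) (nat_lit 2) (.n (nat_lit 36) (nat_lit 2) .z)))))) (.ct dF6ss_c274 (nat_lit 2) (nat_lit 4) (.s false (nat_lit 1) (nat_lit 2) (nat_lit 1) (nat_lit 0) (nat_lit 2) false (nat_lit 0) true (nat_lit 2) true (nat_lit 2) true (nat_lit 3) true (nat_lit 4) (.e false (nat_lit 2) (nat_lit 5) (nat_lit 4) (nat_lit 0) (.e false (nat_lit 2) (nat_lit 12) (nat_lit 2) (nat_lit 2) (.e true (nat_lit 2) (nat_lit 10) (nat_lit 2) (nat_lit 2) (.e false (nat_lit 2) (nat_lit 14) (nat_lit 1) (nat_lit 3) .nil)))))) .leaf) (nat_lit 17409) (nat_lit 45) (.p (nat_lit 39) (nat_lit 2) .z) .df .leaf) (nat_lit 17410) (nat_lit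 52) (.p (nat_lit 44) (nat_lit 2) .z) .df (.nd .leaf (nat_lit 17411) (nat_lit 107) (.p (nat_lit 69) (nat_lit 2) (.n (nat_lit 70) (nat_lit 2) (.p (nat_lit 71) (nat_lit 2) (.n (nat_lit 72) (nat_lit 2) (.n (nat_lit 73) (nat_lit 2) (.p (nat_lit 75) (nat_lit 2) .z)))))) (.ct dF6ss_c290 (nat_lit 2) (nat_lit 3) (.s true (nat_lit 1) (nat_lit 3) (nat_lit 2) (nat_lit 2) (nat_lit 1) true (nat_lit 1) true (nat_lit 5) true (nat_lit 3) true (nat_lit 4) true (nat_lit 4) (.e true (nat_lit 2) (nat_lit 10) (nat_lit 5) (nat_lit 1) (.e true (nat_lit 2) (nat_lit 31) (nat_lit 1) (nat_lit 5) (.e false (nat_lit 4) (nat_lit 24) (nat_lit 2) (nat_lit 4) (.e true (nat_lit 2) (nat_lit 26) (nat_lit 2) (nat_lit 4) (.e false (nat_lit 2) (nat_lit 27) (nat_lit 2) (nat_lit 4) .nil))))))) .leaf))) (nat_lit 17412) (nat_lit 134) (.p (nat_lit 82) (nat_lit 2) (.p (nat_lit 83) (nat_lit 2) (.p (nat_lit 84) (nat_lit 2) (.n (nat_lit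 85) (nat_lit 2) (.p (nat_lit 86) (nat_lit 2) (.n (nat_lit 87) (nat_lit 2) (.p (nat_lit 90) (nat_lit 2) .z))))))) (.ct dF6ss_c275 (nat_lit 2) (nat_lit 2) (.s true (nat_lit 1) (nat_lit 6) (nat_lit 0) (nat_lit 1) (nat_lit 2) true (nat_lit 2) true (nat_lit 4) true (nat_lit 0) true (nat_lit 6) true (nat_lit 5) (.e true (nat_lit 2) (nat_lit 35) (nat_lit 2) (nat_lit 4) (.e false (nat_lit 2) (nat_lit 10) (nat_lit 6) (nat_lit 0) (.e false (nat_lit 2) (nat_lit 44) (nat_lit 0) (nat_lit 6) (.e false (nat_lit 2) (nat_lit 45) (nat_lit 0) (nat_lit 6) (.e false (nat_lit 2) (nat_lit 42) (nat_lit 1) (nat_lit 5) .nil))))))) (.nd (.nd (.nd (.nd .leaf (nat_lit 17413) (nat_lit 144) (.n (nat_lit 93) (nat_lit 2) (.p (nat_lit 95) (nat_lit 2) (.p (nat_lit 96) (nat_lit 4) .z))) (.ct dF6ss_c35 (nat_lit 2) (nat_lit 1) (.s true (nat_lit 1) (nat_lit 6) (nat_lit 1) (nat_lit 1) (nat_lit 2) true (nat_lit 1) true (nat_lit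 2) true (nat_lit 0) true (nat_lit 3) true (nat_lit 3) (.e true (nat_lit 2) (nat_lit 39) (nat_lit 2) (nat_lit 2) (.e false (nat_lit 2) (nat_lit 44) (nat_lit 1) (nat_lit 3) (.e false (nat_lit 4) (nat_lit 45) (nat_lit 1) (nat_lit 3) .nil))))) .leaf) (nat_lit 17415) (nat_lit 192) (.n (nat_lit 97) (nat_lit 2) (.p (nat_lit 99) (nat_lit 8) (.p (nat_lit 101) (nat_lit 2) (.n (nat_lit 102) (nat_lit 2) (.p (nat_lit 103) (nat_lit 4) (.p (nat_lit 104) (nat_lit 2) (.n (nat_lit 105) (nat_lit 4) (.n (nat_lit 106) (nat_lit 4) (.p (nat_lit 107) (nat_lit 4) (.p (nat_lit 108) (nat_lit 4) (.n (nat_lit 109) (nat_lit 2) (.p (nat_lit 110) (nat_lit 6) (.n (nat_lit 113) (nat_lit 6) (.n (nat_lit 114) (nat_lit 8) (.p (nat_lit 115) (nat_lit 8) (.p (nat_lit 117) (nat_lit 2) (.n (nat_lit 118) (nat_lit 4) (.p (nat_lit 121) (nat_lit 8) .z)))))))))))))))))) (.ct dF6ss_c546 (nat_lit 2) (nat_lit 3) (.s true (nat_lit 1)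 (nat_lit 6) (nat_lit 0) (nat_lit 1) (nat_lit 3) true (nat_lit 3) true (nat_lit 7) true (nat_lit 4) true (nat_lit 10) true (nat_lit 9) (.e true (nat_lit 2) (nat_lit 35) (nat_lit 3) (nat_lit 7) (.e false (nat_lit 4) (nat_lit 68) (nat_lit 0) (nat_lit 10) (.e false (nat_lit 4) (nat_lit 69) (nat_lit 0) (nat_lit 10) (.e true (nat_lit 4) (nat_lit 70) (nat_lit 0) (nat_lit 10) (.e true (nat_lit 2) (nat_lit 72) (nat_lit 0) (nat_lit 10) (.e false (nat_lit 2) (nat_lit 75) (nat_lit 0) (nat_lit 10) (.e true (nat_lit 2) (nat_lit 60) (nat_lit 1) (nat_lit 9) (.e false (nat_lit 2) (nat_lit 61) (nat_lit 1) (nat_lit 9) (.e true (nat_lit 2) (nat_lit 62) (nat_lit 1) (nat_lit 9) (.e false (nat_lit 2) (nat_lit 64) (nat_lit 1) (nat_lit 9) .nil)))))))))))) .leaf) (nat_lit 17417) (nat_lit 243) (.n (nat_lit 124) (nat_lit 2) (.n (nat_lit 125) (nat_lit 2) (.p (nat_lit 126) (nat_lit 2) (.n (nat_lit 131) (nat_lit 2)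 (.p (nat_lit 132) (nat_lit 2) (.p (nat_lit 133) (nat_lit 4) (.p (nat_lit 135) (nat_lit 2) (.n (nat_lit 136) (nat_lit 2) (.p (nat_lit 137) (nat_lit 2) (.n (nat_lit 138) (nat_lit 2) (.n (nat_lit 139) (nat_lit 2) (.p (nat_lit 140) (nat_lit 2) (.n (nat_lit 141) (nat_lit 2) .z))))))))))))) (.ct dF6ss_c531 (nat_lit 2) (nat_lit 1) (.s false (nat_lit 1) (nat_lit 6) (nat_lit 4) (nat_lit 1) (nat_lit 0) true (nat_lit 1) true (nat_lit 9) true (nat_lit 3) true (nat_lit 5) true (nat_lit 8) (.e true (nat_lit 2) (nat_lit 87) (nat_lit 0) (nat_lit 9) (.e true (nat_lit 2) (nat_lit 88) (nat_lit 0) (nat_lit 9) (.e false (nat_lit 2) (nat_lit 20) (nat_lit 6) (nat_lit 3) (.e false (nat_lit 2) (nat_lit 21) (nat_lit 6) (nat_lit 3) (.e true (nat_lit 2) (nat_lit 22) (nat_lit 6) (nat_lit 3) (.e false (nat_lit 2) (nat_lit 32) (nat_lit 4) (nat_lit 5) (.e true (nat_lit 2) (nat_lit 33) (nat_lit 4) (nat_lit 5) (.e false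 (nat_lit 2) (nat_lit 34) (nat_lit 4) (nat_lit 5) (.e true (nat_lit 2) (nat_lit 36) (nat_lit 4) (nat_lit 5) (.e false (nat_lit 2) (nat_lit 77) (nat_lit 1) (nat_lit 8) (.e true (nat_lit 2) (nat_lit 79) (nat_lit 1) (nat_lit 8) (.e true (nat_lit 4) (nat_lit 80) (nat_lit 1) (nat_lit 8) .nil)))))))))))))) (.nd .leaf (nat_lit 17418) (nat_lit 292) (.p (nat_lit 142) (nat_lit 2) (.p (nat_lit 145) (nat_lit 4) (.n (nat_lit 147) (nat_lit 4) (.n (nat_lit 148) (nat_lit 4) (.p (nat_lit 149) (nat_lit 6) (.p (nat_lit 150) (nat_lit 2) (.p (nat_lit 152) (nat_lit 2) (.n (nat_lit 153) (nat_lit 2) (.p (nat_lit 154) (nat_lit 4) (.p (nat_lit 156) (nat_lit 8) (.n (nat_lit 157) (nat_lit 4) (.n (nat_lit 158) (nat_lit 4) (.n (nat_lit 159) (nat_lit 4) (.n (nat_lit 160) (nat_lit 6) (.p (nat_lit 161) (nat_lit 6) .z))))))))))))))) (.ct dF6ss_c291 (nat_lit 2) (nat_lit 1) (.s false (nat_lit 1) (nat_lit 6) (nat_lit 3) (nat_lit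 1) (nat_lit 2) true (nat_lit 1) true (nat_lit 7) true (nat_lit 3) true (nat_lit 6) true (nat_lit 8) (.s true (nat_lit 1) (nat_lit 18) (nat_lit 1) (nat_lit 1) (nat_lit 0) true (nat_lit 6) true (nat_lit 9) false (nat_lit 2) true (nat_lit 8) true (nat_lit 8) (.e true (nat_lit 2) (nat_lit 69) (nat_lit 2) (nat_lit 7) (.e false (nat_lit 2) (nat_lit 70) (nat_lit 2) (nat_lit 7) (.e true (nat_lit 2) (nat_lit 71) (nat_lit 2) (nat_lit 7) (.e false (nat_lit 2) (nat_lit 73) (nat_lit 2) (nat_lit 7) (.e false (nat_lit 2) (nat_lit 24) (nat_lit 6) (nat_lit 3) (.e true (nat_lit 2) (nat_lit 44) (nat_lit 3) (nat_lit 6) (.e true (nat_lit 2) (nat_lit 96) (nat_lit 0) (nat_lit 9) (.e false (nat_lit 2) (nat_lit 88) (nat_lit 1) (nat_lit 8) .nil))))))))))) .leaf)) (nat_lit 17419) (nat_lit 298) (.p (nat_lit 143) (nat_lit 4) (.n (nat_lit 144) (nat_lit 2) (.n (nat_lit 145) (nat_lit 2) (.n (nat_lit 147) (nat_lit 2)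 (.p (nat_lit 148) (nat_lit 2) (.n (nat_lit 149) (nat_lit 2) (.n (nat_lit 152) (nat_lit 2) (.n (nat_lit 160) (nat_lit 2) .z)))))))) (.ct dF6ss_c291 (nat_lit 2) (nat_lit 1) (.s false (nat_lit 1) (nat_lit 6) (nat_lit 4) (nat_lit 1) (nat_lit 1) true (nat_lit 1) true (nat_lit 8) true (nat_lit 3) true (nat_lit 5) true (nat_lit 8) (.e true (nat_lit 2) (nat_lit 88) (nat_lit 1) (nat_lit 8) (.e false (nat_lit 2) (nat_lit 26) (nat_lit 6) (nat_lit 3) (.e true (nat_lit 2) (nat_lit 82) (nat_lit 1) (nat_lit 8) (.e true (nat_lit 2) (nat_lit 83) (nat_lit 1) (nat_lit 8) (.e true (nat_lit 2) (nat_lit 84) (nat_lit 1) (nat_lit 8) (.e false (nat_lit 2) (nat_lit 85) (nat_lit 1) (nat_lit 8) (.e true (nat_lit 2) (nat_lit 86) (nat_lit 1) (nat_lit 8) (.e true (nat_lit 2) (nat_lit 90) (nat_lit 1) (nat_lit 8) .nil)))))))))) (.nd (.nd .leaf (nat_lit 17420) (nat_lit 297) (.n (nat_lit 142) (nat_lit 2) (.p (nat_lit 144)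 (nat_lit 2) (.p (nat_lit 145) (nat_lit 2) (.p (nat_lit 147) (nat_lit 2) (.n (nat_lit 148) (nat_lit 2) (.p (nat_lit 150) (nat_lit 2) (.n (nat_lit 153) (nat_lit 2) (.n (nat_lit 161) (nat_lit 2) .z)))))))) (.ct dF6ss_c291 (nat_lit 2) (nat_lit 1) (.s true (nat_lit 1) (nat_lit 12) (nat_lit 2) (nat_lit 2) (nat_lit 1) true (nat_lit 4) true (nat_lit 8) true (nat_lit 1) true (nat_lit 7) true (nat_lit 7) (.e true (nat_lit 2) (nat_lit 33) (nat_lit 5) (nat_lit 4) (.e true (nat_lit 2) (nat_lit 83) (nat_lit 1) (nat_lit 8) (.e true (nat_lit 2) (nat_lit 65) (nat_lit 2) (nat_lit 7) (.e false (nat_lit 2) (nat_lit 68) (nat_lit 2) (nat_lit 7) (.e false (nat_lit 2) (nat_lit 69) (nat_lit 2) (nat_lit 7) (.e false (nat_lit 2) (nat_lit 71) (nat_lit 2) (nat_lit 7) (.e true (nat_lit 2) (nat_lit 72) (nat_lit 2) (nat_lit 7) (.e false (nat_lit 2) (nat_lit 74) (nat_lit 2) (nat_lit 7) .nil)))))))))) .leaf) (nat_lit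 18432) (nat_lit 49) (.p (nat_lit 42) (nat_lit 2) .z) .df (.nd .leaf (nat_lit 18433) (nat_lit 53) (.p (nat_lit 45) (nat_lit 2) .z) .df .leaf))))) (nat_lit 18435) (nat_lit 135) (.p (nat_lit 82) (nat_lit 2) (.n (nat_lit 83) (nat_lit 2) (.p (nat_lit 84) (nat_lit 2) (.n (nat_lit 86) (nat_lit 2) (.n (nat_lit 90) (nat_lit 2) .z))))) (.ct dF6ss_c275 (nat_lit 2) (nat_lit 3) (.s true (nat_lit 1) (nat_lit 3) (nat_lit 2) (nat_lit 2) (nat_lit 2) true (nat_lit 0) true (nat_lit 4) true (nat_lit 3) true (nat_lit 4) true (nat_lit 4) (.e true (nat_lit 2) (nat_lit 10) (nat_lit 6) (nat_lit 0) (.e false (nat_lit 2) (nat_lit 32) (nat_lit 2) (nat_lit 4) (.e true (nat_lit 2) (nat_lit 33) (nat_lit 2) (nat_lit 4) (.e false (nat_lit 2) (nat_lit 34) (nat_lit 2) (nat_lit 4) (.e true (nat_lit 2) (nat_lit 36) (nat_lit 2) (nat_lit 4) .nil))))))) (.nd (.nd (.nd (.nd (.nd (.nd .leaf (nat_lit 18439) (nat_lit 247) (.p (nat_lit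 131) (nat_lit 2) (.p (nat_lit 133) (nat_lit 2) (.n (nat_lit 134) (nat_lit 2) (.p (nat_lit 135) (nat_lit 2) (.n (nat_lit 137) (nat_lit 2) (.n (nat_lit 139) (nat_lit 2) (.n (nat_lit 140) (nat_lit 2) .z))))))) (.ct dF6ss_c531 (nat_lit 2) (nat_lit 2) (.s true (nat_lit 1) (nat_lit 7) (nat_lit 2) (nat_lit 2) (nat_lit 2) true (nat_lit 3) true (nat_lit 7) true (nat_lit 2) true (nat_lit 7) true (nat_lit 7) (.e true (nat_lit 2) (nat_lit 20) (nat_lit 6) (nat_lit 3) (.e true (nat_lit 2) (nat_lit 58) (nat_lit 2) (nat_lit 7) (.e false (nat_lit 2) (nat_lit 60) (nat_lit 2) (nat_lit 7) (.e true (nat_lit 2) (nat_lit 61) (nat_lit 2) (nat_lit 7) (.e false (nat_lit 2) (nat_lit 62) (nat_lit 2) (nat_lit 7) (.e false (nat_lit 2) (nat_lit 63) (nat_lit 2) (nat_lit 7) (.e true (nat_lit 2) (nat_lit 64) (nat_lit 2) (nat_lit 7) .nil))))))))) .leaf) (nat_lit 19458) (nat_lit 55) (.p (nat_lit 46) (nat_lit 2) .z) .df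 .leaf) (nat_lit 19462) (nat_lit 197) (.p (nat_lit 97) (nat_lit 6) (.n (nat_lit 98) (nat_lit 4) (.p (nat_lit 99) (nat_lit 4) (.p (nat_lit 100) (nat_lit 8) (.n (nat_lit 101) (nat_lit 10) (.p (nat_lit 102) (nat_lit 6) (.n (nat_lit 103) (nat_lit 4) (.n (nat_lit 104) (nat_lit 2) (.n (nat_lit 105) (nat_lit 6) (.n (nat_lit 106) (nat_lit 10) (.p (nat_lit 107) (nat_lit 2) (.p (nat_lit 108) (nat_lit 8) (.n (nat_lit 109) (nat_lit 14) (.p (nat_lit 110) (nat_lit 10) (.n (nat_lit 111) (nat_lit 8) (.p (nat_lit 112) (nat_lit 8) (.n (nat_lit 113) (nat_lit 12) (.n (nat_lit 114) (nat_lit 14) (.p (nat_lit 115) (nat_lit 22) (.p (nat_lit 116) (nat_lit 6) (.p (nat_lit 117) (nat_lit 6) (.n (nat_lit 118) (nat_lit 10) (.n (nat_lit 119) (nat_lit 8) (.p (nat_lit 120) (nat_lit 4) (.p (nat_lit 121) (nat_lit 12) .z))))))))))))))))))))))))) (.ct dF6ss_c546 (nat_lit 2) (nat_lit 4) (.s false (nat_lit 1) (nat_lit 8) (nat_lit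 2) (nat_lit 0) (nat_lit 2) true (nat_lit 4) true (nat_lit 8) true (nat_lit 2) true (nat_lit 8) true (nat_lit 10) (.e false (nat_lit 2) (nat_lit 14) (nat_lit 8) (nat_lit 2) (.e false (nat_lit 2) (nat_lit 47) (nat_lit 2) (nat_lit 8) (.e true (nat_lit 2) (nat_lit 53) (nat_lit 2) (nat_lit 8) (.e false (nat_lit 2) (nat_lit 65) (nat_lit 0) (nat_lit 10) .nil)))))) (.nd .leaf (nat_lit 20481) (nat_lit 56) (.p (nat_lit 47) (nat_lit 2) .z) .df .leaf)) (nat_lit 20482) (nat_lit 82) (.p (nat_lit 54) (nat_lit 2) (.n (nat_lit 55) (nat_lit 4) (.n (nat_lit 56) (nat_lit 2) (.n (nat_lit 58) (nat_lit 2) (.n (nat_lit 59) (nat_lit 2) (.p (nat_lit 60) (nat_lit 2) (.n (nat_lit 61) (nat_lit 2) (.p (nat_lit 62) (nat_lit 4) (.p (nat_lit 63) (nat_lit 2) (.n (nat_lit 64) (nat_lit 4) .z)))))))))) (.ct dF6ss_c530 (nat_lit 4) (nat_lit 4) (.s true (nat_lit 1) (nat_lit 3) (nat_lit 0) (nat_lit 2) (nat_lit 2) true (nat_lit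 2) true (nat_lit 4) true (nat_lit 3) true (nat_lit 6) true (nat_lit 4) (.s true (nat_lit 1) (nat_lit 4) (nat_lit 1) (nat_lit 0) (nat_lit 2) true (nat_lit 1) true (nat_lit 4) true (nat_lit 2) true (nat_lit 5) true (nat_lit 6) (.s true (nat_lit 1) (nat_lit 4) (nat_lit 1) (nat_lit 2) (nat_lit 0) true (nat_lit 3) true (nat_lit 6) true (nat_lit 2) true (nat_lit 5) true (nat_lit 4) (.s true (nat_lit 1) (nat_lit 5) (nat_lit 2) (nat_lit 0) (nat_lit 0) true (nat_lit 2) true (nat_lit 6) true (nat_lit 1) true (nat_lit 4) true (nat_lit 6) (.e false (nat_lit 4) (nat_lit 14) (nat_lit 3) (nat_lit 3) (.e false (nat_lit 4) (nat_lit 34) (nat_lit 0) (nat_lit 6) (.e true (nat_lit 4) (nat_lit 36) (nat_lit 0) (nat_lit 6) .nil)))))))) (.nd (.nd (.nd .leaf (nat_lit 20485) (nat_lit 186) (.n (nat_lit 99) (nat_lit 6) (.n (nat_lit 101) (nat_lit 2) (.p (nat_lit 105) (nat_lit 2) (.p (nat_lit 106) (nat_lit 2) (.n (nat_lit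 107) (nat_lit 2) (.n (nat_lit 108) (nat_lit 2) (.p (nat_lit 109) (nat_lit 2) (.n (nat_lit 110) (nat_lit 4) (.p (nat_lit 113) (nat_lit 6) (.p (nat_lit 114) (nat_lit 8) (.n (nat_lit 115) (nat_lit 8) (.n (nat_lit 116) (nat_lit 2) (.n (nat_lit 117) (nat_lit 2) (.p (nat_lit 118) (nat_lit 4) (.n (nat_lit 121) (nat_lit 6) .z))))))))))))))) (.ct dF6ss_c546 (nat_lit 2) (nat_lit 5) (.s true (nat_lit 1) (nat_lit 7) (nat_lit 1) (nat_lit 2) (nat_lit 2) true (nat_lit 5) true (nat_lit 8) true (nat_lit 3) true (nat_lit 9) true (nat_lit 8) (.s true (nat_lit 1) (nat_lit 16) (nat_lit 0) (nat_lit 1) (nat_lit 0) false (nat_lit 11) true (nat_lit 10) false (nat_lit 3) true (nat_lit 10) true (nat_lit 9) (.e true (nat_lit 2) (nat_lit 46) (nat_lit 2) (nat_lit 8) (.e true (nat_lit 2) (nat_lit 58) (nat_lit 1) (nat_lit 9) (.e false (nat_lit 2) (nat_lit 60) (nat_lit 1) (nat_lit 9) (.e true (nat_lit 2) (nat_lit 61)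 (nat_lit 1) (nat_lit 9) (.e false (nat_lit 2) (nat_lit 62) (nat_lit 1) (nat_lit 9) (.e false (nat_lit 2) (nat_lit 63) (nat_lit 1) (nat_lit 9) (.e true (nat_lit 2) (nat_lit 47) (nat_lit 2) (nat_lit 8) (.e false (nat_lit 2) (nat_lit 65) (nat_lit 0) (nat_lit 10) (.e true (nat_lit 2) (nat_lit 71) (nat_lit 0) (nat_lit 10) .nil)))))))))))) .leaf) (nat_lit 20486) (nat_lit 233) (.n (nat_lit 123) (nat_lit 2) (.p (nat_lit 124) (nat_lit 2) (.p (nat_lit 125) (nat_lit 2) (.n (nat_lit 126) (nat_lit 2) (.n (nat_lit 131) (nat_lit 4) (.n (nat_lit 132) (nat_lit 2) (.n (nat_lit 133) (nat_lit 2) (.p (nat_lit 134) (nat_lit 2) (.p (nat_lit 136) (nat_lit 2) (.p (nat_lit 140) (nat_lit 2) (.n (nat_lit 141) (nat_lit 2) .z))))))))))) (.ct dF6ss_c531 (nat_lit 2) (nat_lit 3) (.s true (nat_lit 1) (nat_lit 7) (nat_lit 2) (nat_lit 2) (nat_lit 2) true (nat_lit 3) true (nat_lit 7) true (nat_lit 2) true (nat_lit 7) true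 (nat_lit 7) (.s false (nat_lit 1) (nat_lit 18) (nat_lit 0) (nat_lit 1) (nat_lit 0) false (nat_lit 10) true (nat_lit 9) false (nat_lit 2) true (nat_lit 9) true (nat_lit 8) (.e true (nat_lit 2) (nat_lit 58) (nat_lit 2) (nat_lit 7) (.e false (nat_lit 2) (nat_lit 60) (nat_lit 2) (nat_lit 7) (.e true (nat_lit 2) (nat_lit 61) (nat_lit 2) (nat_lit 7) (.e false (nat_lit 2) (nat_lit 62) (nat_lit 2) (nat_lit 7) (.e false (nat_lit 2) (nat_lit 63) (nat_lit 2) (nat_lit 7) (.e true (nat_lit 2) (nat_lit 64) (nat_lit 2) (nat_lit 7) (.e false (nat_lit 2) (nat_lit 88) (nat_lit 0) (nat_lit 9) (.e true (nat_lit 2) (nat_lit 82) (nat_lit 0) (nat_lit 9) (.e false (nat_lit 2) (nat_lit 83) (nat_lit 0) (nat_lit 9) (.e true (nat_lit 2) (nat_lit 84) (nat_lit 0) (nat_lit 9) (.e false (nat_lit 2) (nat_lit 86) (nat_lit 0) (nat_lit 9) (.e false (nat_lit 2) (nat_lit 90) (nat_lit 0) (nat_lit 9) (.e true (nat_lit 2) (nat_lit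 80) (nat_lit 1) (nat_lit 8) .nil)))))))))))))))) .leaf) (nat_lit 21505) (nat_lit 57) (.p (nat_lit 48) (nat_lit 2) .z) .df (.nd .leaf (nat_lit 21506) (nat_lit 69) (.p (nat_lit 54) (nat_lit 2) .z) .df .leaf))) (nat_lit 21509) (nat_lit 169) (.p (nat_lit 119) (nat_lit 2) .z) .df (.nd (.nd (.nd (.nd .leaf (nat_lit 21510) (nat_lit 224) (.n (nat_lit 124) (nat_lit 2) (.n (nat_lit 125) (nat_lit 2) (.p (nat_lit 126) (nat_lit 2) (.n (nat_lit 128) (nat_lit 2) (.n (nat_lit 129) (nat_lit 2) (.p (nat_lit 130) (nat_lit 4) (.p (nat_lit 131) (nat_lit 4) (.n (nat_lit 132) (nat_lit 2) (.p (nat_lit 133) (nat_lit 8) (.n (nat_lit 134) (nat_lit 4) (.p (nat_lit 135) (nat_lit 10) (.n (nat_lit 137) (nat_lit 6) (.n (nat_lit 138) (nat_lit 2) (.n (nat_lit 139) (nat_lit 6) (.n (nat_lit 140) (nat_lit 2) (.n (nat_lit 141) (nat_lit 4) .z)))))))))))))))) (.ct dF6ss_c531 (nat_lit 2) (nat_lit 3) (.s false (nat_lit 1) (nat_lit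 4) (nat_lit 2) (nat_lit 2) (nat_lit 3) true (nat_lit 0) true (nat_lit 6) true (nat_lit 5) true (nat_lit 7) true (nat_lit 7) (.s true (nat_lit 2) (nat_lit 5) (nat_lit 0) (nat_lit 4) (nat_lit 2) true (nat_lit 5) true (nat_lit 7) true (nat_lit 4) true (nat_lit 9) true (nat_lit 5) (.s false (nat_lit 1) (nat_lit 5) (nat_lit 2) (nat_lit 4) (nat_lit 0) true (nat_lit 5) true (nat_lit 9) true (nat_lit 4) true (nat_lit 7) true (nat_lit 5) (.s true (nat_lit 1) (nat_lit 5) (nat_lit 4) (nat_lit 0) (nat_lit 2) false (nat_lit 0) true (nat_lit 7) true (nat_lit 4) true (nat_lit 5) true (nat_lit 9) (.s true (nat_lit 1) (nat_lit 5) (nat_lit 4) (nat_lit 2) (nat_lit 0) true (nat_lit 1) true (nat_lit 9) true (nat_lit 4) true (nat_lit 5) true (nat_lit 7) (.s true (nat_lit 1) (nat_lit 9) (nat_lit 1) (nat_lit 2) (nat_lit 2) true (nat_lit 4) true (nat_lit 7) true (nat_lit 1) true (nat_lit 8) true (nat_lit 7) (.s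 false (nat_lit 1) (nat_lit 9) (nat_lit 2) (nat_lit 1) (nat_lit 2) true (nat_lit 3) true (nat_lit 7) true (nat_lit 1) true (nat_lit 7) true (nat_lit 8) (.s false (nat_lit 1) (nat_lit 14) (nat_lit 0) (nat_lit 1) (nat_lit 2) true (nat_lit 5) true (nat_lit 7) false (nat_lit 0) true (nat_lit 9) true (nat_lit 8) (.s false (nat_lit 1) (nat_lit 14) (nat_lit 1) (nat_lit 2) (nat_lit 0) true (nat_lit 6) true (nat_lit 9) false (nat_lit 0) true (nat_lit 8) true (nat_lit 7) (.s true (nat_lit 1) (nat_lit 16) (nat_lit 0) (nat_lit 2) (nat_lit 0) false (nat_lit 10) true (nat_lit 9) false (nat_lit 1) true (nat_lit 9) true (nat_lit 7) (.e true (nat_lit 2) (nat_lit 60) (nat_lit 2) (nat_lit 7) (.e false (nat_lit 2) (nat_lit 61) (nat_lit 2) (nat_lit 7) (.e false (nat_lit 2) (nat_lit 31) (nat_lit 4) (nat_lit 5) (.e true (nat_lit 2) (nat_lit 35) (nat_lit 4) (nat_lit 5) (.e false (nat_lit 4) (nat_lit 82) (nat_lit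 0) (nat_lit 9) (.e false (nat_lit 4) (nat_lit 84) (nat_lit 0) (nat_lit 9) (.e true (nat_lit 2) (nat_lit 87) (nat_lit 0) (nat_lit 9) (.e true (nat_lit 2) (nat_lit 88) (nat_lit 0) (nat_lit 9) (.e false (nat_lit 2) (nat_lit 81) (nat_lit 0) (nat_lit 9) (.e true (nat_lit 2) (nat_lit 85) (nat_lit 0) (nat_lit 9) (.e true (nat_lit 2) (nat_lit 77) (nat_lit 1) (nat_lit 8) (.e false (nat_lit 4) (nat_lit 79) (nat_lit 1) (nat_lit 8) (.e false (nat_lit 4) (nat_lit 80) (nat_lit 1) (nat_lit 8) .nil)))))))))))))))))))))))) .leaf) (nat_lit 22529) (nat_lit 58) (.p (nat_lit 49) (nat_lit 2) .z) .df .leaf) (nat_lit 22530) (nat_lit 70) (.p (nat_lit 55) (nat_lit 2) .z) .df (.nd .leaf (nat_lit 22533) (nat_lit 176) (.p (nat_lit 98) (nat_lit 2) (.n (nat_lit 99) (nat_lit 4) (.n (nat_lit 100) (nat_lit 2) (.n (nat_lit 102) (nat_lit 2) (.p (nat_lit 105) (nat_lit 4) (.p (nat_lit 106) (nat_lit 4) (.n (nat_lit 107) (nat_lit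 2) (.n (nat_lit 108) (nat_lit 4) (.p (nat_lit 109) (nat_lit 6) (.n (nat_lit 110) (nat_lit 4) (.p (nat_lit 111) (nat_lit 2) (.n (nat_lit 112) (nat_lit 2) (.p (nat_lit 113) (nat_lit 6) (.p (nat_lit 114) (nat_lit 6) (.n (nat_lit 115) (nat_lit 8) (.n (nat_lit 116) (nat_lit 2) (.n (nat_lit 117) (nat_lit 2) (.p (nat_lit 118) (nat_lit 4) (.p (nat_lit 119) (nat_lit 4) (.n (nat_lit 120) (nat_lit 2) (.n (nat_lit 121) (nat_lit 6) .z))))))))))))))))))))) (.ct dF6ss_c546 (nat_lit 2) (nat_lit 5) (.s false (nat_lit 1) (nat_lit 5) (nat_lit 0) (nat_lit 1) (nat_lit 4) true (nat_lit 1) true (nat_lit 6) true (nat_lit 5) true (nat_lit 10) true (nat_lit 9) (.s false (nat_lit 1) (nat_lit 9) (nat_lit 1) (nat_lit 1) (nat_lit 2) true (nat_lit 5) true (nat_lit 8) true (nat_lit 1) true (nat_lit 9) true (nat_lit 9) (.s false (nat_lit 1) (nat_lit 9) (nat_lit 2) (nat_lit 1) (nat_lit 1) true (nat_lit 5) true (nat_lit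 9) true (nat_lit 1) true (nat_lit 8) true (nat_lit 9) (.e false (nat_lit 2) (nat_lit 27) (nat_lit 4) (nat_lit 6) (.e false (nat_lit 2) (nat_lit 21) (nat_lit 5) (nat_lit 5) (.e true (nat_lit 2) (nat_lit 23) (nat_lit 5) (nat_lit 5) (.e true (nat_lit 2) (nat_lit 66) (nat_lit 0) (nat_lit 10) (.e false (nat_lit 2) (nat_lit 68) (nat_lit 0) (nat_lit 10) (.e false (nat_lit 2) (nat_lit 69) (nat_lit 0) (nat_lit 10) (.e false (nat_lit 2) (nat_lit 71) (nat_lit 0) (nat_lit 10) (.e true (nat_lit 2) (nat_lit 72) (nat_lit 0) (nat_lit 10) (.e false (nat_lit 2) (nat_lit 73) (nat_lit 0) (nat_lit 10) (.e false (nat_lit 2) (nat_lit 48) (nat_lit 2) (nat_lit 8) (.e false (nat_lit 2) (nat_lit 56) (nat_lit 1) (nat_lit 9) (.e true (nat_lit 2) (nat_lit 61) (nat_lit 1) (nat_lit 9) (.e true (nat_lit 2) (nat_lit 54) (nat_lit 1) (nat_lit 9) .nil))))))))))))))))) .leaf)) (nat_lit 22534) (nat_lit 239) (.p (nat_lit 122)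 (nat_lit 4) (.p (nat_lit 124) (nat_lit 2) (.n (nat_lit 125) (nat_lit 2) (.p (nat_lit 126) (nat_lit 2) (.n (nat_lit 128) (nat_lit 2) (.n (nat_lit 132) (nat_lit 2) (.p (nat_lit 133) (nat_lit 4) (.n (nat_lit 134) (nat_lit 4) (.p (nat_lit 135) (nat_lit 6) (.p (nat_lit 136) (nat_lit 2) (.n (nat_lit 137) (nat_lit 6) (.n (nat_lit 139) (nat_lit 4) (.n (nat_lit 140) (nat_lit 4) (.n (nat_lit 141) (nat_lit 2) .z)))))))))))))) (.ct dF6ss_c531 (nat_lit 2) (nat_lit 3) (.s false (nat_lit 1) (nat_lit 10) (nat_lit 0) (nat_lit 2) (nat_lit 2) true (nat_lit 5) true (nat_lit 7) true (nat_lit 0) true (nat_lit 9) true (nat_lit 7) (.s false (nat_lit 1) (nat_lit 10) (nat_lit 2) (nat_lit 0) (nat_lit 2) true (nat_lit 3) true (nat_lit 7) true (nat_lit 0) true (nat_lit 7) true (nat_lit 9) (.e false (nat_lit 2) (nat_lit 31) (nat_lit 4) (nat_lit 5) (.e false (nat_lit 4) (nat_lit 55) (nat_lit 2) (nat_lit 7) (.e true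 (nat_lit 2) (nat_lit 90) (nat_lit 0) (nat_lit 9) (.e false (nat_lit 4) (nat_lit 59) (nat_lit 2) (nat_lit 7) (.e true (nat_lit 2) (nat_lit 60) (nat_lit 2) (nat_lit 7) (.e false (nat_lit 2) (nat_lit 61) (nat_lit 2) (nat_lit 7) (.e false (nat_lit 2) (nat_lit 81) (nat_lit 0) (nat_lit 9) .nil)))))))))) (.nd (.nd .leaf (nat_lit 23553) (nat_lit 59) (.p (nat_lit 50) (nat_lit 2) .z) .df .leaf) (nat_lit 23554) (nat_lit 71) (.p (nat_lit 56) (nat_lit 2) .z) .df (.nd .leaf (nat_lit 23557) (nat_lit 170) (.p (nat_lit 120) (nat_lit 2) .z) .df .leaf)))) (nat_lit 23558) (nat_lit 227) (.n (nat_lit 122) (nat_lit 4) (.n (nat_lit 124) (nat_lit 2) (.p (nat_lit 125) (nat_lit 2) (.n (nat_lit 126) (nat_lit 2) (.n (nat_lit 129) (nat_lit 2) (.p (nat_lit 130) (nat_lit 2) (.p (nat_lit 131) (nat_lit 4) (.p (nat_lit 132) (nat_lit 2) (.p (nat_lit 133) (nat_lit 6) (.n (nat_lit 134) (nat_lit 2) (.p (nat_lit 135) (nat_lit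 4) (.n (nat_lit 136) (nat_lit 2) (.n (nat_lit 139) (nat_lit 2) (.n (nat_lit 140) (nat_lit 2) (.n (nat_lit 141) (nat_lit 2) .z))))))))))))))) (.ct dF6ss_c531 (nat_lit 96) (nat_lit 3) (.s false (nat_lit 48) (nat_lit 6) (nat_lit 0) (nat_lit 5) (nat_lit 0) false (nat_lit 10) true (nat_lit 9) true (nat_lit 3) true (nat_lit 9) true (nat_lit 4) (.s true (nat_lit 48) (nat_lit 15) (nat_lit 0) (nat_lit 2) (nat_lit 1) true (nat_lit 6) true (nat_lit 8) false (nat_lit 0) true (nat_lit 9) true (nat_lit 7) (.s true (nat_lit 48) (nat_lit 15) (nat_lit 1) (nat_lit 2) (nat_lit 0) true (nat_lit 6) true (nat_lit 9) false (nat_lit 0) true (nat_lit 8) true (nat_lit 7) (.s true (nat_lit 48) (nat_lit 15) (nat_lit 2) (nat_lit 0) (nat_lit 1) true (nat_lit 4) true (nat_lit 8) false (nat_lit 0) true (nat_lit 7) true (nat_lit 9) (.s true (nat_lit 48) (nat_lit 15) (nat_lit 2) (nat_lit 1) (nat_lit 0) true (nat_lit 5)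 true (nat_lit 9) false (nat_lit 0) true (nat_lit 7) true (nat_lit 8) (.s true (nat_lit 48) (nat_lit 16) (nat_lit 0) (nat_lit 0) (nat_lit 2) true (nat_lit 5) true (nat_lit 7) false (nat_lit 1) true (nat_lit 9) true (nat_lit 9) (.i true (nat_lit 1) (nat_lit 2) (.c (nat_lit 2) (nat_lit 1) (.c (nat_lit 2) (nat_lit 1) (.c (nat_lit 2) (nat_lit 1) (.c (nat_lit 1) (nat_lit 16) (.c (nat_lit 0) (nat_lit 256) (.c (nat_lit 0) (nat_lit 256) .nil)))))) (.e false (nat_lit 192) (nat_lit 82) (nat_lit 0) (nat_lit 9) (.e true (nat_lit 288) (nat_lit 86) (nat_lit 0) (nat_lit 9) (.e true (nat_lit 288) (nat_lit 90) (nat_lit 0) (nat_lit 9) (.e false (nat_lit 96) (nat_lit 87) (nat_lit 0) (nat_lit 9) (.e true (nat_lit 96) (nat_lit 88) (nat_lit 0) (nat_lit 9) (.e true (nat_lit 96) (nat_lit 77) (nat_lit 1) (nat_lit 8) (.e false (nat_lit 96) (nat_lit 63) (nat_lit 2) (nat_lit 7) (.e false (nat_lit 192) (nat_lit 80)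 (nat_lit 1) (nat_lit 8) (.e false (nat_lit 96) (nat_lit 58) (nat_lit 2) (nat_lit 7) (.e true (nat_lit 96) (nat_lit 64) (nat_lit 2) (nat_lit 7) (.e false (nat_lit 96) (nat_lit 35) (nat_lit 4) (nat_lit 5) (.e true (nat_lit 96) (nat_lit 36) (nat_lit 4) (nat_lit 5) .nil)))))))))))))))))))) (.nd (.nd (.nd (.nd (.nd .leaf (nat_lit 24576) (nat_lit 60) (.p (nat_lit 51) (nat_lit 2) .z) .df .leaf) (nat_lit 24578) (nat_lit 89) (.p (nat_lit 65) (nat_lit 2) .z) .df .leaf) (nat_lit 24580) (nat_lit 171) (.p (nat_lit 121) (nat_lit 2) .z) .df (.nd .leaf (nat_lit 24582) (nat_lit 275) (.p (nat_lit 142) (nat_lit 4) (.n (nat_lit 143) (nat_lit 2) (.n (nat_lit 144) (nat_lit 2) (.p (nat_lit 145) (nat_lit 4) (.n (nat_lit 147) (nat_lit 2) (.n (nat_lit 148) (nat_lit 4) (.p (nat_lit 149) (nat_lit 6) (.p (nat_lit 150) (nat_lit 2) (.p (nat_lit 152) (nat_lit 4) (.n (nat_lit 153) (nat_lit 4) (.p (nat_lit 154) (nat_lit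 6) (.n (nat_lit 155) (nat_lit 4) (.p (nat_lit 156) (nat_lit 8) (.n (nat_lit 157) (nat_lit 2) (.n (nat_lit 158) (nat_lit 2) (.n (nat_lit 159) (nat_lit 6) (.n (nat_lit 160) (nat_lit 8) (.p (nat_lit 161) (nat_lit 8) .z)))))))))))))))))) (.ct dF6ss_c291 (nat_lit 2) (nat_lit 3) (.s true (nat_lit 2) (nat_lit 5) (nat_lit 0) (nat_lit 2) (nat_lit 5) true (nat_lit 1) true (nat_lit 4) true (nat_lit 4) true (nat_lit 9) true (nat_lit 7) (.s false (nat_lit 1) (nat_lit 5) (nat_lit 0) (nat_lit 5) (nat_lit 2) true (nat_lit 5) true (nat_lit 7) true (nat_lit 4) true (nat_lit 9) true (nat_lit 4) (.s false (nat_lit 1) (nat_lit 5) (nat_lit 1) (nat_lit 2) (nat_lit 4) true (nat_lit 1) true (nat_lit 5) true (nat_lit 4) true (nat_lit 8) true (nat_lit 7) (.s true (nat_lit 4) (nat_lit 5) (nat_lit 1) (nat_lit 4) (nat_lit 2) true (nat_lit 4) true (nat_lit 7) true (nat_lit 4) true (nat_lit 8) true (nat_lit 5) dF6ss_i6)))))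 .leaf)) (nat_lit 25600) (nat_lit 61) (.p (nat_lit 52) (nat_lit 2) .z) .df (.nd (.nd (.nd .leaf (nat_lit 25602) (nat_lit 102) (.n (nat_lit 65) (nat_lit 4) (.p (nat_lit 66) (nat_lit 2) (.n (nat_lit 67) (nat_lit 2) (.p (nat_lit 68) (nat_lit 2) (.p (nat_lit 69) (nat_lit 4) (.n (nat_lit 70) (nat_lit 4) (.p (nat_lit 71) (nat_lit 2) (.n (nat_lit 72) (nat_lit 2) (.n (nat_lit 73) (nat_lit 2) (.p (nat_lit 75) (nat_lit 2) .z)))))))))) (.ct dF6ss_c290 (nat_lit 4) (nat_lit 4) (.s true (nat_lit 1) (nat_lit 3) (nat_lit 1) (nat_lit 2) (nat_lit 2) true (nat_lit 1) true (nat_lit 4) true (nat_lit 3) true (nat_lit 5) true (nat_lit 4) (.s true (nat_lit 1) (nat_lit 4) (nat_lit 2) (nat_lit 1) (nat_lit 1) true (nat_lit 1) true (nat_lit 5) true (nat_lit 2) true (nat_lit 4) true (nat_lit 5) (.s true (nat_lit 1) (nat_lit 5) (nat_lit 0) (nat_lit 1) (nat_lit 2) true (nat_lit 2) true (nat_lit 4) true (nat_lit 1) true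 (nat_lit 6) true (nat_lit 5) (.s true (nat_lit 1) (nat_lit 5) (nat_lit 0) (nat_lit 2) (nat_lit 1) true (nat_lit 3) true (nat_lit 5) true (nat_lit 1) true (nat_lit 6) true (nat_lit 4) (.e true (nat_lit 4) (nat_lit 10) (nat_lit 5) (nat_lit 1) (.e false (nat_lit 4) (nat_lit 32) (nat_lit 1) (nat_lit 5) (.e true (nat_lit 4) (nat_lit 33) (nat_lit 1) (nat_lit 5) .nil)))))))) .leaf) (nat_lit 25606) (nat_lit 290) (.n (nat_lit 142) (nat_lit 2) (.p (nat_lit 143) (nat_lit 4) (.p (nat_lit 144) (nat_lit 2) (.n (nat_lit 145) (nat_lit 2) (.n (nat_lit 146) (nat_lit 2) (.p (nat_lit 148) (nat_lit 2) (.n (nat_lit 149) (nat_lit 6) (.n (nat_lit 150) (nat_lit 2) (.p (nat_lit 151) (nat_lit 2) (.n (nat_lit 152) (nat_lit 2) (.p (nat_lit 153) (nat_lit 2) (.n (nat_lit 156) (nat_lit 2) (.p (nat_lit 159) (nat_lit 2) (.p (nat_lit 160) (nat_lit 2) (.n (nat_lit 161) (nat_lit 2) .z))))))))))))))) (.ct dF6ss_c291 (nat_lit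 2) (nat_lit 3) (.s true (nat_lit 1) (nat_lit 13) (nat_lit 2) (nat_lit 0) (nat_lit 2) true (nat_lit 3) true (nat_lit 7) true (nat_lit 0) true (nat_lit 7) true (nat_lit 9) (.s false (nat_lit 1) (nat_lit 14) (nat_lit 1) (nat_lit 2) (nat_lit 1) false (nat_lit 10) true (nat_lit 8) false (nat_lit 0) true (nat_lit 8) true (nat_lit 7) (.e false (nat_lit 2) (nat_lit 24) (nat_lit 6) (nat_lit 3) (.e false (nat_lit 2) (nat_lit 27) (nat_lit 6) (nat_lit 3) (.e true (nat_lit 2) (nat_lit 74) (nat_lit 2) (nat_lit 7) (.e false (nat_lit 2) (nat_lit 66) (nat_lit 2) (nat_lit 7) (.e true (nat_lit 2) (nat_lit 68) (nat_lit 2) (nat_lit 7) (.e true (nat_lit 4) (nat_lit 69) (nat_lit 2) (nat_lit 7) (.e false (nat_lit 2) (nat_lit 72) (nat_lit 2) (nat_lit 7) (.e true (nat_lit 2) (nat_lit 73) (nat_lit 2) (nat_lit 7) (.e true (nat_lit 2) (nat_lit 92) (nat_lit 0) (nat_lit 9) (.e false (nat_lit 2) (nat_lit 84) (nat_lit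 1) (nat_lit 8) (.e true (nat_lit 2) (nat_lit 91) (nat_lit 1) (nat_lit 8) (.e true (nat_lit 2) (nat_lit 71) (nat_lit 2) (nat_lit 7) .nil))))))))))))))) .leaf) (nat_lit 26624) (nat_lit 64) (.p (nat_lit 50) (nat_lit 2) (.p (nat_lit 51) (nat_lit 2) (.p (nat_lit 53) (nat_lit 2) .z))) (.ct dF6ss_c545 (nat_lit 2) (nat_lit 5) (.s false (nat_lit 1) (nat_lit 4) (nat_lit 1) (nat_lit 0) (nat_lit 1) false (nat_lit 7) true (nat_lit 4) true (nat_lit 1) true (nat_lit 4) true (nat_lit 5) (.e false (nat_lit 2) (nat_lit 20) (nat_lit 1) (nat_lit 4) (.e false (nat_lit 2) (nat_lit 8) (nat_lit 4) (nat_lit 1) (.e false (nat_lit 2) (nat_lit 23) (nat_lit 1) (nat_lit 4) .nil))))) (.nd .leaf (nat_lit 26626) (nat_lit 90) (.p (nat_lit 66) (nat_lit 2) .z) .df .leaf))) (nat_lit 26628) (nat_lit 173) (.n (nat_lit 97) (nat_lit 2) (.n (nat_lit 99) (nat_lit 2) (.n (nat_lit 102) (nat_lit 2) (.p (nat_lit 103) (nat_lit 4) (.p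 (nat_lit 109) (nat_lit 2) (.n (nat_lit 110) (nat_lit 2) (.p (nat_lit 111) (nat_lit 2) (.p (nat_lit 113) (nat_lit 2) (.p (nat_lit 114) (nat_lit 4) (.n (nat_lit 115) (nat_lit 4) (.n (nat_lit 116) (nat_lit 2) (.n (nat_lit 117) (nat_lit 2) (.p (nat_lit 118) (nat_lit 2) (.p (nat_lit 120) (nat_lit 2) .z)))))))))))))) (.ct dF6ss_c546 (nat_lit 2) (nat_lit 6) (.s false (nat_lit 1) (nat_lit 4) (nat_lit 1) (nat_lit 3) (nat_lit 2) true (nat_lit 5) true (nat_lit 8) true (nat_lit 6) true (nat_lit 9) true (nat_lit 7) (.s false (nat_lit 1) (nat_lit 5) (nat_lit 0) (nat_lit 0) (nat_lit 5) true (nat_lit 0) true (nat_lit 5) true (nat_lit 5) true (nat_lit 10) true (nat_lit 10) dF6ss_i1))) (.nd (.nd (.nd (.nd .leaf (nat_lit 26630) (nat_lit 280) (.n (nat_lit 142) (nat_lit 4) (.p (nat_lit 143) (nat_lit 2) (.p (nat_lit 144) (nat_lit 6) (.p (nat_lit 145) (nat_lit 8) (.n (nat_lit 146) (nat_lit 4) (.p (nat_lit 147)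 (nat_lit 2) (.n (nat_lit 148) (nat_lit 4) (.n (nat_lit 149) (nat_lit 2) (.p (nat_lit 150) (nat_lit 2) (.p (nat_lit 151) (nat_lit 2) (.n (nat_lit 154) (nat_lit 2) (.p (nat_lit 155) (nat_lit 4) (.n (nat_lit 156) (nat_lit 2) (.n (nat_lit 157) (nat_lit 2) (.n (nat_lit 158) (nat_lit 2) (.p (nat_lit 159) (nat_lit 6) (.p (nat_lit 160) (nat_lit 4) (.n (nat_lit 161) (nat_lit 4) .z)))))))))))))))))) (.ct dF6ss_c291 (nat_lit 2) (nat_lit 3) (.s true (nat_lit 1) (nat_lit 5) (nat_lit 1) (nat_lit 2) (nat_lit 4) true (nat_lit 1) true (nat_lit 5) true (nat_lit 4) true (nat_lit 8) true (nat_lit 7) (.s true (nat_lit 1) (nat_lit 5) (nat_lit 2) (nat_lit 4) (nat_lit 1) true (nat_lit 4) true (nat_lit 8) true (nat_lit 4) true (nat_lit 7) true (nat_lit 5) (.s false (nat_lit 1) (nat_lit 11) (nat_lit 2) (nat_lit 1) (nat_lit 2) true (nat_lit 3) true (nat_lit 7) true (nat_lit 1) true (nat_lit 7) true (nat_lit 8)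 (.s false (nat_lit 1) (nat_lit 14) (nat_lit 1) (nat_lit 1) (nat_lit 2) true (nat_lit 4) true (nat_lit 7) false (nat_lit 0) true (nat_lit 8) true (nat_lit 8) (.e true (nat_lit 2) (nat_lit 68) (nat_lit 2) (nat_lit 7) (.e false (nat_lit 2) (nat_lit 72) (nat_lit 2) (nat_lit 7) (.e true (nat_lit 2) (nat_lit 73) (nat_lit 2) (nat_lit 7) (.e true (nat_lit 2) (nat_lit 82) (nat_lit 1) (nat_lit 8) (.e false (nat_lit 2) (nat_lit 88) (nat_lit 1) (nat_lit 8) (.e false (nat_lit 4) (nat_lit 66) (nat_lit 2) (nat_lit 7) (.e true (nat_lit 2) (nat_lit 71) (nat_lit 2) (nat_lit 7) (.e true (nat_lit 2) (nat_lit 81) (nat_lit 1) (nat_lit 8) (.e false (nat_lit 2) (nat_lit 83) (nat_lit 1) (nat_lit 8) (.e false (nat_lit 2) (nat_lit 90) (nat_lit 1) (nat_lit 8) .nil))))))))))))))) .leaf) (nat_lit 27648) (nat_lit 68) (.p (nat_lit 46) (nat_lit 4) (.n (nat_lit 47) (nat_lit 2) (.p (nat_lit 48) (nat_lit 2) (.n (nat_lit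 49) (nat_lit 4) (.p (nat_lit 51) (nat_lit 2) (.n (nat_lit 52) (nat_lit 2) (.p (nat_lit 53) (nat_lit 6) .z))))))) (.ct dF6ss_c545 (nat_lit 2) (nat_lit 5) (.s false (nat_lit 1) (nat_lit 3) (nat_lit 0) (nat_lit 1) (nat_lit 2) true (nat_lit 1) true (nat_lit 3) true (nat_lit 2) true (nat_lit 5) true (nat_lit 4) (.e false (nat_lit 2) (nat_lit 8) (nat_lit 4) (nat_lit 1) (.e false (nat_lit 2) (nat_lit 19) (nat_lit 2) (nat_lit 3) (.e true (nat_lit 2) (nat_lit 10) (nat_lit 3) (nat_lit 2) (.e true (nat_lit 2) (nat_lit 24) (nat_lit 0) (nat_lit 5) (.e false (nat_lit 2) (nat_lit 26) (nat_lit 0) (nat_lit 5) (.e true (nat_lit 2) (nat_lit 22) (nat_lit 1) (nat_lit 4) .nil)))))))) .leaf) (nat_lit 27650) (nat_lit 91) (.p (nat_lit 67) (nat_lit 2) .z) .df (.nd .leaf (nat_lit 27652) (nat_lit 172) (.n (nat_lit 97) (nat_lit 2) (.n (nat_lit 100) (nat_lit 2) (.p (nat_lit 101) (nat_lit 2) (.n (nat_lit 102) (nat_lit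 2) (.p (nat_lit 103) (nat_lit 4) (.p (nat_lit 105) (nat_lit 2) (.p (nat_lit 106) (nat_lit 2) (.p (nat_lit 107) (nat_lit 2) (.n (nat_lit 108) (nat_lit 2) (.p (nat_lit 109) (nat_lit 4) (.n (nat_lit 110) (nat_lit 2) (.p (nat_lit 111) (nat_lit 4) (.n (nat_lit 112) (nat_lit 2) (.n (nat_lit 115) (nat_lit 4) (.n (nat_lit 117) (nat_lit 4) (.p (nat_lit 118) (nat_lit 2) (.p (nat_lit 119) (nat_lit 2) (.n (nat_lit 121) (nat_lit 2) .z)))))))))))))))))) (.ct dF6ss_c546 (nat_lit 2) (nat_lit 6) (.s true (nat_lit 1) (nat_lit 4) (nat_lit 1) (nat_lit 3) (nat_lit 2) true (nat_lit 5) true (nat_lit 8) true (nat_lit 6) true (nat_lit 9) true (nat_lit 7) (.s true (nat_lit 1) (nat_lit 5) (nat_lit 0) (nat_lit 1) (nat_lit 4) true (nat_lit 1) true (nat_lit 6) true (nat_lit 5) true (nat_lit 10) true (nat_lit 9) (.s true (nat_lit 1) (nat_lit 7) (nat_lit 1) (nat_lit 2) (nat_lit 2) true (nat_lit 5) true (nat_lit 8) true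 (nat_lit 3) true (nat_lit 9) true (nat_lit 8) dF6ss_i0)))) .leaf)) (nat_lit 27654) (nat_lit 284) (.n (nat_lit 142) (nat_lit 6) (.p (nat_lit 143) (nat_lit 4) (.p (nat_lit 144) (nat_lit 6) (.n (nat_lit 145) (nat_lit 2) (.n (nat_lit 146) (nat_lit 2) (.p (nat_lit 147) (nat_lit 4) (.p (nat_lit 148) (nat_lit 4) (.n (nat_lit 149) (nat_lit 10) (.n (nat_lit 150) (nat_lit 2) (.p (nat_lit 151) (nat_lit 2) (.n (nat_lit 152) (nat_lit 6) (.p (nat_lit 153) (nat_lit 6) (.n (nat_lit 154) (nat_lit 8) (.p (nat_lit 155) (nat_lit 4) (.n (nat_lit 156) (nat_lit 10) (.p (nat_lit 157) (nat_lit 4) (.p (nat_lit 158) (nat_lit 4) (.p (nat_lit 159) (nat_lit 8) (.p (nat_lit 160) (nat_lit 10) (.n (nat_lit 161) (nat_lit 10) .z)))))))))))))))))))) (.ct dF6ss_c291 (nat_lit 2) (nat_lit 3) (.s false (nat_lit 1) (nat_lit 6) (nat_lit 1) (nat_lit 2) (nat_lit 3) true (nat_lit 2) true (nat_lit 6) true (nat_lit 3) true (nat_lit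 8) true (nat_lit 7) (.s true (nat_lit 1) (nat_lit 8) (nat_lit 2) (nat_lit 2) (nat_lit 2) true (nat_lit 3) true (nat_lit 7) true (nat_lit 2) true (nat_lit 7) true (nat_lit 7) (.e false (nat_lit 2) (nat_lit 44) (nat_lit 3) (nat_lit 6) (.e true (nat_lit 4) (nat_lit 24) (nat_lit 6) (nat_lit 3) (.e false (nat_lit 2) (nat_lit 26) (nat_lit 6) (nat_lit 3) (.e true (nat_lit 2) (nat_lit 90) (nat_lit 1) (nat_lit 8) (.e false (nat_lit 6) (nat_lit 69) (nat_lit 2) (nat_lit 7) (.e true (nat_lit 6) (nat_lit 70) (nat_lit 2) (nat_lit 7) (.e false (nat_lit 2) (nat_lit 71) (nat_lit 2) (nat_lit 7) (.e true (nat_lit 2) (nat_lit 73) (nat_lit 2) (nat_lit 7) (.e false (nat_lit 4) (nat_lit 68) (nat_lit 2) (nat_lit 7) (.e true (nat_lit 2) (nat_lit 72) (nat_lit 2) (nat_lit 7) (.e false (nat_lit 2) (nat_lit 75) (nat_lit 2) (nat_lit 7) .nil)))))))))))))) (.nd (.nd .leaf (nat_lit 28673) (nat_lit 72) (.p (nat_lit 57)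 (nat_lit 2) .z) .df .leaf) (nat_lit 28674) (nat_lit 109) (.p (nat_lit 76) (nat_lit 2) .z) .df (.nd .leaf (nat_lit 29697) (nat_lit 83) (.p (nat_lit 54) (nat_lit 4) (.n (nat_lit 55) (nat_lit 4) (.n (nat_lit 57) (nat_lit 2) (.n (nat_lit 59) (nat_lit 4) (.n (nat_lit 60) (nat_lit 2) (.n (nat_lit 61) (nat_lit 2) (.p (nat_lit 62) (nat_lit 2) (.p (nat_lit 63) (nat_lit 4) (.n (nat_lit 64) (nat_lit 6) .z))))))))) (.ct dF6ss_c530 (nat_lit 2) (nat_lit 5) (.s true (nat_lit 1) (nat_lit 4) (nat_lit 1) (nat_lit 2) (nat_lit 0) true (nat_lit 3) true (nat_lit 6) true (nat_lit 2) true (nat_lit 5) true (nat_lit 4) (.s true (nat_lit 1) (nat_lit 5) (nat_lit 2) (nat_lit 0) (nat_lit 0) true (nat_lit 2) true (nat_lit 6) true (nat_lit 1) true (nat_lit 4) true (nat_lit 6) (.e false (nat_lit 2) (nat_lit 14) (nat_lit 3) (nat_lit 3) (.e true (nat_lit 2) (nat_lit 32) (nat_lit 0) (nat_lit 6) (.e true (nat_lit 2) (nat_lit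 28) (nat_lit 1) (nat_lit 5) (.e false (nat_lit 2) (nat_lit 30) (nat_lit 1) (nat_lit 5) (.e false (nat_lit 2) (nat_lit 21) (nat_lit 2) (nat_lit 4) (.e true (nat_lit 2) (nat_lit 36) (nat_lit 0) (nat_lit 6) (.e false (nat_lit 2) (nat_lit 9) (nat_lit 5) (nat_lit 1) (.e false (nat_lit 2) (nat_lit 33) (nat_lit 0) (nat_lit 6) .nil))))))))))) .leaf))))))

noncomputable def dF6ss_t2 : Tr := (.nd dF6ss_t0 (nat_lit 14347) (nat_lit 250) (.n (nat_lit 122) (nat_lit 10) (.n (nat_lit 123) (nat_lit 5) (.n (nat_lit 124) (nat_lit 1) (.p (nat_lit 125) (nat_lit 1) (.n (nat_lit 126) (nat_lit 1) (.p (nat_lit 127) (nat_lit 2) (.n (nat_lit 128) (nat_lit 1) (.n (nat_lit 129) (nat_lit 1) (.p (nat_lit 130) (nat_lit 6) (.n (nat_lit 131) (nat_lit 4) (.n (nat_lit 132) (nat_lit 7) (.n (nat_lit 133) (nat_lit 7) (.p (nat_lit 134) (nat_lit 7) (.p (nat_lit 135) (nat_lit 6) (.p (nat_lit 136) (nat_lit 4) (.n (nat_lit 137)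 (nat_lit 4) (.n (nat_lit 138) (nat_lit 5) (.n (nat_lit 139) (nat_lit 4) (.p (nat_lit 140) (nat_lit 10) (.n (nat_lit 141) (nat_lit 6) .z)))))))))))))))))))) (.ct dF6ss_c531 (nat_lit 2) (nat_lit 0) (.s true (nat_lit 1) (nat_lit 14) (nat_lit 0) (nat_lit 2) (nat_lit 1) true (nat_lit 6) true (nat_lit 8) false (nat_lit 0) true (nat_lit 9) true (nat_lit 7) (.e true (nat_lit 2) (nat_lit 40) (nat_lit 3) (nat_lit 6) (.e false (nat_lit 2) (nat_lit 76) (nat_lit 1) (nat_lit 8) (.e true (nat_lit 2) (nat_lit 79) (nat_lit 1) (nat_lit 8) (.e true (nat_lit 2) (nat_lit 80) (nat_lit 1) (nat_lit 8) (.e false (nat_lit 2) (nat_lit 91) (nat_lit 0) (nat_lit 9) (.e false (nat_lit 2) (nat_lit 62) (nat_lit 2) (nat_lit 7) .nil)))))))) dF6ss_t1)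

noncomputable def dF6ss_t3 : Tr := (.nd (.nd (.nd (.nd (.nd (.nd (.nd .leaf (nat_lit 29701) (nat_lit 236) (.p (nat_lit 122) (nat_lit 4) (.p (nat_lit 123) (nat_lit 1) (.p (nat_lit 124) (nat_lit 3) (.n (nat_lit 125) (nat_lit 3) (.p (nat_lit 126) (nat_lit 3) (.n (nat_lit 127) (nat_lit 2) (.n (nat_lit 128) (nat_lit 3) (.p (nat_lit 129) (nat_lit 1) (.n (nat_lit 130) (nat_lit 2) (.n (nat_lit 131) (nat_lit 4) (.n (nat_lit 132) (nat_lit 8) (.p (nat_lit 133) (nat_lit 3) (.n (nat_lit 134) (nat_lit 3) (.p (nat_lit 135) (nat_lit 5) (.p (nat_lit 136) (nat_lit 7) (.n (nat_lit 137) (nat_lit 15) (.p (nat_lit 138) (nat_lit 2) (.n (nat_lit 139) (nat_lit 8) (.n (nat_lit 140) (nat_lit 7) (.n (nat_lit 141) (nat_lit 2) .z)))))))))))))))))))) (.ct dF6ss_c531 (nat_lit 2) (nat_lit 4) (.s true (nat_lit 1) (nat_lit 5) (nat_lit 2) (nat_lit 4) (nat_lit 0) true (nat_lit 5) true (nat_lit 9) true (nat_lit 4) true (nat_lit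 7) true (nat_lit 5) (.e false (nat_lit 2) (nat_lit 31) (nat_lit 4) (nat_lit 5) (.e false (nat_lit 2) (nat_lit 32) (nat_lit 4) (nat_lit 5) (.e true (nat_lit 2) (nat_lit 35) (nat_lit 4) (nat_lit 5) (.e false (nat_lit 2) (nat_lit 36) (nat_lit 4) (nat_lit 5) (.e true (nat_lit 2) (nat_lit 82) (nat_lit 0) (nat_lit 9) (.e true (nat_lit 2) (nat_lit 84) (nat_lit 0) (nat_lit 9) (.e false (nat_lit 2) (nat_lit 87) (nat_lit 0) (nat_lit 9) (.e false (nat_lit 2) (nat_lit 88) (nat_lit 0) (nat_lit 9) (.e true (nat_lit 2) (nat_lit 91) (nat_lit 0) (nat_lit 9) (.e true (nat_lit 2) (nat_lit 56) (nat_lit 2) (nat_lit 7) (.e false (nat_lit 2) (nat_lit 59) (nat_lit 2) (nat_lit 7) (.e false (nat_lit 2) (nat_lit 60) (nat_lit 2) (nat_lit 7) (.e false (nat_lit 2) (nat_lit 61) (nat_lit 2) (nat_lit 7) (.e true (nat_lit 2) (nat_lit 63) (nat_lit 2) (nat_lit 7) (.e false (nat_lit 2) (nat_lit 64) (nat_lit 2) (nat_lit 7)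 (.e false (nat_lit 2) (nat_lit 33) (nat_lit 4) (nat_lit 5) .nil)))))))))))))))))) .leaf) (nat_lit 30721) (nat_lit 73) (.p (nat_lit 58) (nat_lit 2) .z) .df .leaf) (nat_lit 30722) (nat_lit 110) (.p (nat_lit 77) (nat_lit 2) .z) .df (.nd .leaf (nat_lit 30725) (nat_lit 241) (.p (nat_lit 122) (nat_lit 4) (.p (nat_lit 124) (nat_lit 2) (.n (nat_lit 125) (nat_lit 2) (.p (nat_lit 126) (nat_lit 2) (.p (nat_lit 129) (nat_lit 2) (.n (nat_lit 130) (nat_lit 2) (.n (nat_lit 131) (nat_lit 4) (.p (nat_lit 132) (nat_lit 2) (.n (nat_lit 133) (nat_lit 4) (.p (nat_lit 134) (nat_lit 4) (.n (nat_lit 135) (nat_lit 6) (.n (nat_lit 136) (nat_lit 2) (.p (nat_lit 137) (nat_lit 6) (.p (nat_lit 138) (nat_lit 2) (.p (nat_lit 139) (nat_lit 4) (.p (nat_lit 140) (nat_lit 2) (.p (nat_lit 141) (nat_lit 2) .z))))))))))))))))) (.ct dF6ss_c531 (nat_lit 2) (nat_lit 4) (.s false (nat_lit 1) (nat_lit 6) (nat_lit 0) (nat_lit 5)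 (nat_lit 0) false (nat_lit 10) true (nat_lit 9) true (nat_lit 3) true (nat_lit 9) true (nat_lit 4) (.e false (nat_lit 4) (nat_lit 81) (nat_lit 0) (nat_lit 9) (.e false (nat_lit 2) (nat_lit 82) (nat_lit 0) (nat_lit 9) (.e true (nat_lit 4) (nat_lit 85) (nat_lit 0) (nat_lit 9) (.e false (nat_lit 6) (nat_lit 86) (nat_lit 0) (nat_lit 9) (.e true (nat_lit 2) (nat_lit 23) (nat_lit 6) (nat_lit 3) (.e false (nat_lit 2) (nat_lit 83) (nat_lit 0) (nat_lit 9) (.e true (nat_lit 2) (nat_lit 84) (nat_lit 0) (nat_lit 9) (.e false (nat_lit 2) (nat_lit 87) (nat_lit 0) (nat_lit 9) (.e false (nat_lit 2) (nat_lit 88) (nat_lit 0) (nat_lit 9) .nil))))))))))) .leaf)) (nat_lit 31744) (nat_lit 74) (.p (nat_lit 59) (nat_lit 2) .z) .df (.nd (.nd (.nd .leaf (nat_lit 31745) (nat_lit 92) (.p (nat_lit 68) (nat_lit 2) .z) .df .leaf) (nat_lit 31746) (nat_lit 118) (.p (nat_lit 81) (nat_lit 2) .z) .df .leaf) (nat_lit 31747)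 (nat_lit 182) (.n (nat_lit 97) (nat_lit 4) (.p (nat_lit 98) (nat_lit 6) (.n (nat_lit 99) (nat_lit 4) (.n (nat_lit 100) (nat_lit 4) (.p (nat_lit 101) (nat_lit 6) (.n (nat_lit 102) (nat_lit 10) (.p (nat_lit 103) (nat_lit 8) (.p (nat_lit 104) (nat_lit 4) (.p (nat_lit 105) (nat_lit 4) (.p (nat_lit 106) (nat_lit 6) (.n (nat_lit 107) (nat_lit 2) (.n (nat_lit 108) (nat_lit 6) (.p (nat_lit 109) (nat_lit 14) (.n (nat_lit 110) (nat_lit 2) (.p (nat_lit 111) (nat_lit 4) (.n (nat_lit 112) (nat_lit 4) (.p (nat_lit 113) (nat_lit 8) (.p (nat_lit 114) (nat_lit 12) (.n (nat_lit 115) (nat_lit 16) (.n (nat_lit 116) (nat_lit 6) (.n (nat_lit 117) (nat_lit 2) (.p (nat_lit 118) (nat_lit 6) (.p (nat_lit 119) (nat_lit 8) (.n (nat_lit 120) (nat_lit 2) (.n (nat_lit 121) (nat_lit 8) .z))))))))))))))))))))))))) (.ct dF6ss_c546 (nat_lit 2) (nat_lit 7) (.s true (nat_lit 1) (nat_lit 5) (nat_lit 3) (nat_lit 2) (nat_lit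 0) true (nat_lit 3) true (nat_lit 10) true (nat_lit 5) true (nat_lit 7) true (nat_lit 8) (.s false (nat_lit 1) (nat_lit 15) (nat_lit 1) (nat_lit 1) (nat_lit 0) true (nat_lit 7) true (nat_lit 10) false (nat_lit 2) true (nat_lit 9) true (nat_lit 9) (.s true (nat_lit 1) (nat_lit 16) (nat_lit 0) (nat_lit 1) (nat_lit 0) false (nat_lit 11) true (nat_lit 10) false (nat_lit 3) true (nat_lit 10) true (nat_lit 9) (.e false (nat_lit 2) (nat_lit 66) (nat_lit 0) (nat_lit 10) (.e true (nat_lit 2) (nat_lit 67) (nat_lit 0) (nat_lit 10) (.e false (nat_lit 2) (nat_lit 22) (nat_lit 5) (nat_lit 5) (.e true (nat_lit 2) (nat_lit 32) (nat_lit 3) (nat_lit 7) (.e true (nat_lit 2) (nat_lit 36) (nat_lit 3) (nat_lit 7) (.e false (nat_lit 2) (nat_lit 51) (nat_lit 2) (nat_lit 8) (.e true (nat_lit 2) (nat_lit 52) (nat_lit 2) (nat_lit 8) (.e false (nat_lit 2) (nat_lit 53) (nat_lit 2) (nat_lit 8) (.e false (nat_lit 2)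 (nat_lit 72) (nat_lit 0) (nat_lit 10) (.e false (nat_lit 4) (nat_lit 59) (nat_lit 1) (nat_lit 9) (.e true (nat_lit 4) (nat_lit 62) (nat_lit 1) (nat_lit 9) (.e true (nat_lit 2) (nat_lit 63) (nat_lit 1) (nat_lit 9) (.e false (nat_lit 6) (nat_lit 64) (nat_lit 1) (nat_lit 9) (.e true (nat_lit 2) (nat_lit 71) (nat_lit 0) (nat_lit 10) .nil)))))))))))))))))) (.nd .leaf (nat_lit 31748) (nat_lit 223) (.n (nat_lit 124) (nat_lit 2) (.n (nat_lit 128) (nat_lit 2) (.n (nat_lit 132) (nat_lit 4) (.p (nat_lit 133) (nat_lit 4) (.n (nat_lit 134) (nat_lit 4) (.p (nat_lit 135) (nat_lit 6) (.p (nat_lit 136) (nat_lit 2) (.n (nat_lit 137) (nat_lit 6) (.n (nat_lit 139) (nat_lit 4) (.n (nat_lit 140) (nat_lit 2) (.n (nat_lit 141) (nat_lit 2) .z))))))))))) (.ct dF6ss_c531 (nat_lit 2) (nat_lit 5) (.s true (nat_lit 1) (nat_lit 4) (nat_lit 2) (nat_lit 2) (nat_lit 3) true (nat_lit 0) true (nat_lit 6) true (nat_lit 5)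 true (nat_lit 7) true (nat_lit 7) (.s false (nat_lit 2) (nat_lit 5) (nat_lit 0) (nat_lit 4) (nat_lit 2) true (nat_lit 5) true (nat_lit 7) true (nat_lit 4) true (nat_lit 9) true (nat_lit 5) dF6ss_i3))) .leaf))) (nat_lit 31749) (nat_lit 278) (.n (nat_lit 142) (nat_lit 4) (.p (nat_lit 144) (nat_lit 4) (.p (nat_lit 145) (nat_lit 2) (.n (nat_lit 146) (nat_lit 2) (.p (nat_lit 147) (nat_lit 4) (.n (nat_lit 148) (nat_lit 2) (.n (nat_lit 149) (nat_lit 4) (.p (nat_lit 151) (nat_lit 2) (.n (nat_lit 154) (nat_lit 2) (.p (nat_lit 155) (nat_lit 2) (.n (nat_lit 156) (nat_lit 6) (.p (nat_lit 159) (nat_lit 6) (.p (nat_lit 160) (nat_lit 4) (.n (nat_lit 161) (nat_lit 4) .z)))))))))))))) (.ct dF6ss_c291 (nat_lit 2) (nat_lit 4) (.s false (nat_lit 1) (nat_lit 5) (nat_lit 0) (nat_lit 2) (nat_lit 5) true (nat_lit 1) true (nat_lit 4) true (nat_lit 4) true (nat_lit 9) true (nat_lit 7) (.s true (nat_lit 1) (nat_lit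 5) (nat_lit 0) (nat_lit 5) (nat_lit 2) true (nat_lit 5) true (nat_lit 7) true (nat_lit 4) true (nat_lit 9) true (nat_lit 4) (.s true (nat_lit 1) (nat_lit 5) (nat_lit 1) (nat_lit 2) (nat_lit 4) true (nat_lit 1) true (nat_lit 5) true (nat_lit 4) true (nat_lit 8) true (nat_lit 7) (.s false (nat_lit 2) (nat_lit 5) (nat_lit 1) (nat_lit 4) (nat_lit 2) true (nat_lit 4) true (nat_lit 7) true (nat_lit 4) true (nat_lit 8) true (nat_lit 5) (.s true (nat_lit 2) (nat_lit 5) (nat_lit 2) (nat_lit 1) (nat_lit 4) false (nat_lit 0) true (nat_lit 5) true (nat_lit 4) true (nat_lit 7) true (nat_lit 8) (.s true (nat_lit 1) (nat_lit 6) (nat_lit 1) (nat_lit 4) (nat_lit 1) false (nat_lit 10) true (nat_lit 8) true (nat_lit 3) true (nat_lit 8) true (nat_lit 5) (.s true (nat_lit 1) (nat_lit 10) (nat_lit 1) (nat_lit 2) (nat_lit 2) true (nat_lit 4) true (nat_lit 7) true (nat_lit 1) true (nat_lit 8) true (nat_lit 7)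 (.s false (nat_lit 1) (nat_lit 11) (nat_lit 2) (nat_lit 1) (nat_lit 2) true (nat_lit 3) true (nat_lit 7) true (nat_lit 1) true (nat_lit 7) true (nat_lit 8) (.s false (nat_lit 2) (nat_lit 14) (nat_lit 1) (nat_lit 2) (nat_lit 1) false (nat_lit 10) true (nat_lit 8) false (nat_lit 0) true (nat_lit 8) true (nat_lit 7) (.s false (nat_lit 1) (nat_lit 16) (nat_lit 1) (nat_lit 0) (nat_lit 2) true (nat_lit 4) true (nat_lit 7) false (nat_lit 1) true (nat_lit 8) true (nat_lit 9) (.s false (nat_lit 1) (nat_lit 16) (nat_lit 2) (nat_lit 1) (nat_lit 0) true (nat_lit 5) true (nat_lit 9) false (nat_lit 1) true (nat_lit 7) true (nat_lit 8) (.e false (nat_lit 4) (nat_lit 33) (nat_lit 5) (nat_lit 4) (.e true (nat_lit 4) (nat_lit 32) (nat_lit 5) (nat_lit 4) (.e true (nat_lit 2) (nat_lit 68) (nat_lit 2) (nat_lit 7) (.e true (nat_lit 4) (nat_lit 69) (nat_lit 2) (nat_lit 7) (.e false (nat_lit 4) (nat_lit 70)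 (nat_lit 2) (nat_lit 7) (.e true (nat_lit 2) (nat_lit 86) (nat_lit 1) (nat_lit 8) (.e false (nat_lit 2) (nat_lit 84) (nat_lit 1) (nat_lit 8) (.e false (nat_lit 2) (nat_lit 90) (nat_lit 1) (nat_lit 8) .nil)))))))))))))))))))) (.nd (.nd (.nd (.nd .leaf (nat_lit 32768) (nat_lit 75) (.p (nat_lit 60) (nat_lit 2) .z) .df .leaf) (nat_lit 32769) (nat_lit 93) (.p (nat_lit 69) (nat_lit 2) .z) .df .leaf) (nat_lit 32770) (nat_lit 119) (.p (nat_lit 82) (nat_lit 2) .z) .df (.nd .leaf (nat_lit 32771) (nat_lit 181) (.p (nat_lit 97) (nat_lit 4) (.n (nat_lit 98) (nat_lit 4) (.n (nat_lit 99) (nat_lit 4) (.p (nat_lit 100) (nat_lit 4) (.n (nat_lit 101) (nat_lit 6) (.p (nat_lit 102) (nat_lit 8) (.n (nat_lit 103) (nat_lit 8) (.n (nat_lit 104) (nat_lit 4) (.n (nat_lit 105) (nat_lit 4) (.n (nat_lit 106) (nat_lit 6) (.p (nat_lit 108) (nat_lit 4) (.n (nat_lit 109) (nat_lit 10) (.n (nat_lit 110) (nat_lit 2) (.n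 (nat_lit 111) (nat_lit 4) (.p (nat_lit 112) (nat_lit 4) (.p (nat_lit 113) (nat_lit 4) (.p (nat_lit 114) (nat_lit 4) (.p (nat_lit 115) (nat_lit 2) (.p (nat_lit 117) (nat_lit 2) (.n (nat_lit 119) (nat_lit 6) (.p (nat_lit 120) (nat_lit 2) .z))))))))))))))))))))) (.ct dF6ss_c546 (nat_lit 2) (nat_lit 7) (.s false (nat_lit 1) (nat_lit 9) (nat_lit 1) (nat_lit 1) (nat_lit 2) true (nat_lit 5) true (nat_lit 8) true (nat_lit 1) true (nat_lit 9) true (nat_lit 9) (.s false (nat_lit 1) (nat_lit 11) (nat_lit 1) (nat_lit 2) (nat_lit 0) true (nat_lit 7) true (nat_lit 10) true (nat_lit 0) true (nat_lit 9) true (nat_lit 8) (.s false (nat_lit 1) (nat_lit 12) (nat_lit 2) (nat_lit 0) (nat_lit 1) true (nat_lit 5) true (nat_lit 9) true (nat_lit 0) true (nat_lit 8) true (nat_lit 10) (.a true (nat_lit 4) (nat_lit 11) (nat_lit 12) (nat_lit 0) (nat_lit 0) (.e false (nat_lit 2) (nat_lit 21) (nat_lit 5) (nat_lit 5)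 (.e false (nat_lit 2) (nat_lit 56) (nat_lit 1) (nat_lit 9) (.e false (nat_lit 2) (nat_lit 64) (nat_lit 1) (nat_lit 9) (.e false (nat_lit 2) (nat_lit 66) (nat_lit 0) (nat_lit 10) (.e true (nat_lit 2) (nat_lit 54) (nat_lit 1) (nat_lit 9) (.e false (nat_lit 2) (nat_lit 55) (nat_lit 1) (nat_lit 9) (.e true (nat_lit 2) (nat_lit 62) (nat_lit 1) (nat_lit 9) (.e true (nat_lit 2) (nat_lit 47) (nat_lit 2) (nat_lit 8) (.e false (nat_lit 2) (nat_lit 49) (nat_lit 2) (nat_lit 8) (.e true (nat_lit 2) (nat_lit 23) (nat_lit 5) (nat_lit 5) (.e false (nat_lit 2) (nat_lit 51) (nat_lit 2) (nat_lit 8) (.e true (nat_lit 2) (nat_lit 52) (nat_lit 2) (nat_lit 8) (.e false (nat_lit 2) (nat_lit 53) (nat_lit 2) (nat_lit 8) (.e true (nat_lit 2) (nat_lit 67) (nat_lit 0) (nat_lit 10) .nil))))))))))))))))))) .leaf)) (nat_lit 32772) (nat_lit 225) (.n (nat_lit 125) (nat_lit 2) (.p (nat_lit 128) (nat_lit 1) (.p (nat_lit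 132) (nat_lit 4) (.p (nat_lit 134) (nat_lit 2) (.n (nat_lit 135) (nat_lit 2) (.n (nat_lit 136) (nat_lit 3) (.p (nat_lit 137) (nat_lit 6) (.p (nat_lit 139) (nat_lit 2) (.p (nat_lit 140) (nat_lit 2) (.p (nat_lit 141) (nat_lit 1) .z)))))))))) (.ct dF6ss_c531 (nat_lit 4) (nat_lit 5) (.s false (nat_lit 2) (nat_lit 5) (nat_lit 2) (nat_lit 4) (nat_lit 0) true (nat_lit 5) true (nat_lit 9) true (nat_lit 4) true (nat_lit 7) true (nat_lit 5) (.s true (nat_lit 2) (nat_lit 5) (nat_lit 4) (nat_lit 2) (nat_lit 0) true (nat_lit 1) true (nat_lit 9) true (nat_lit 4) true (nat_lit 5) true (nat_lit 7) (.s false (nat_lit 1) (nat_lit 6) (nat_lit 0) (nat_lit 3) (nat_lit 2) true (nat_lit 5) true (nat_lit 7) true (nat_lit 3) true (nat_lit 9) true (nat_lit 6) (.s true (nat_lit 1) (nat_lit 6) (nat_lit 0) (nat_lit 4) (nat_lit 1) true (nat_lit 6) true (nat_lit 8) true (nat_lit 3) true (nat_lit 9) true (nat_lit 5)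 (.s false (nat_lit 1) (nat_lit 7) (nat_lit 2) (nat_lit 2) (nat_lit 2) true (nat_lit 3) true (nat_lit 7) true (nat_lit 2) true (nat_lit 7) true (nat_lit 7) (.s false (nat_lit 1) (nat_lit 15) (nat_lit 1) (nat_lit 2) (nat_lit 0) true (nat_lit 6) true (nat_lit 9) false (nat_lit 0) true (nat_lit 8) true (nat_lit 7) (.s false (nat_lit 1) (nat_lit 15) (nat_lit 2) (nat_lit 1) (nat_lit 0) true (nat_lit 5) true (nat_lit 9) false (nat_lit 0) true (nat_lit 7) true (nat_lit 8) (.s false (nat_lit 2) (nat_lit 16) (nat_lit 0) (nat_lit 2) (nat_lit 0) false (nat_lit 10) true (nat_lit 9) false (nat_lit 1) true (nat_lit 9) true (nat_lit 7) (.s true (nat_lit 1) (nat_lit 18) (nat_lit 0) (nat_lit 1) (nat_lit 0) false (nat_lit 10) true (nat_lit 9) false (nat_lit 2) true (nat_lit 9) true (nat_lit 8) (.e true (nat_lit 4) (nat_lit 31) (nat_lit 4) (nat_lit 5) (.e false (nat_lit 2) (nat_lit 87) (nat_lit 0) (nat_lit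 9) (.e true (nat_lit 2) (nat_lit 60) (nat_lit 2) (nat_lit 7) (.e true (nat_lit 2) (nat_lit 61) (nat_lit 2) (nat_lit 7) (.e true (nat_lit 2) (nat_lit 63) (nat_lit 2) (nat_lit 7) (.e false (nat_lit 2) (nat_lit 64) (nat_lit 2) (nat_lit 7) (.e false (nat_lit 4) (nat_lit 86) (nat_lit 0) (nat_lit 9) (.e true (nat_lit 2) (nat_lit 62) (nat_lit 2) (nat_lit 7) (.e false (nat_lit 2) (nat_lit 90) (nat_lit 0) (nat_lit 9) (.e false (nat_lit 2) (nat_lit 77) (nat_lit 1) (nat_lit 8) (.e true (nat_lit 4) (nat_lit 79) (nat_lit 1) (nat_lit 8) (.e true (nat_lit 6) (nat_lit 80) (nat_lit 1) (nat_lit 8) (.e false (nat_lit 2) (nat_lit 21) (nat_lit 6) (nat_lit 3) .nil))))))))))))))))))))))) (.nd (.nd .leaf (nat_lit 32773) (nat_lit 270) (.p (nat_lit 160) (nat_lit 2) .z) .df .leaf) (nat_lit 33792) (nat_lit 76) (.p (nat_lit 61) (nat_lit 2) .z) .df (.nd .leaf (nat_lit 33793) (nat_lit 94) (.p (nat_lit 70) (nat_lit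 2) .z) .df .leaf)))) (nat_lit 33794) (nat_lit 120) (.p (nat_lit 83) (nat_lit 2) .z) .df (.nd (.nd (.nd (.nd (.nd .leaf (nat_lit 33795) (nat_lit 185) (.n (nat_lit 97) (nat_lit 2) (.p (nat_lit 98) (nat_lit 2) (.n (nat_lit 99) (nat_lit 2) (.p (nat_lit 101) (nat_lit 2) (.n (nat_lit 102) (nat_lit 4) (.p (nat_lit 103) (nat_lit 4) (.p (nat_lit 104) (nat_lit 2) (.n (nat_lit 107) (nat_lit 2) (.p (nat_lit 109) (nat_lit 2) (.p (nat_lit 113) (nat_lit 4) (.p (nat_lit 114) (nat_lit 6) (.n (nat_lit 115) (nat_lit 4) (.n (nat_lit 116) (nat_lit 4) (.p (nat_lit 117) (nat_lit 2) (.p (nat_lit 118) (nat_lit 2) (.p (nat_lit 119) (nat_lit 2) (.n (nat_lit 121) (nat_lit 2) .z))))))))))))))))) (.ct dF6ss_c546 (nat_lit 2) (nat_lit 7) (.s false (nat_lit 1) (nat_lit 5) (nat_lit 2) (nat_lit 3) (nat_lit 0) true (nat_lit 6) true (nat_lit 10) true (nat_lit 5) true (nat_lit 8) true (nat_lit 7) (.e true (nat_lit 2) (nat_lit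 24) (nat_lit 4) (nat_lit 6) (.e false (nat_lit 2) (nat_lit 26) (nat_lit 4) (nat_lit 6) (.e true (nat_lit 2) (nat_lit 27) (nat_lit 4) (nat_lit 6) (.e false (nat_lit 2) (nat_lit 65) (nat_lit 0) (nat_lit 10) (.e true (nat_lit 2) (nat_lit 71) (nat_lit 0) (nat_lit 10) (.e false (nat_lit 2) (nat_lit 73) (nat_lit 0) (nat_lit 10) (.e false (nat_lit 2) (nat_lit 22) (nat_lit 5) (nat_lit 5) (.e false (nat_lit 2) (nat_lit 53) (nat_lit 2) (nat_lit 8) .nil)))))))))) .leaf) (nat_lit 33796) (nat_lit 235) (.n (nat_lit 126) (nat_lit 2) (.p (nat_lit 132) (nat_lit 2) (.p (nat_lit 133) (nat_lit 2) (.n (nat_lit 136) (nat_lit 2) (.p (nat_lit 137) (nat_lit 4) .z))))) (.ct dF6ss_c531 (nat_lit 2) (nat_lit 5) (.s false (nat_lit 1) (nat_lit 5) (nat_lit 2) (nat_lit 4) (nat_lit 0) true (nat_lit 5) true (nat_lit 9) true (nat_lit 4) true (nat_lit 7) true (nat_lit 5) (.s true (nat_lit 1) (nat_lit 5) (nat_lit 4) (nat_lit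 2) (nat_lit 0) true (nat_lit 1) true (nat_lit 9) true (nat_lit 4) true (nat_lit 5) true (nat_lit 7) (.s false (nat_lit 1) (nat_lit 16) (nat_lit 0) (nat_lit 2) (nat_lit 0) false (nat_lit 10) true (nat_lit 9) false (nat_lit 1) true (nat_lit 9) true (nat_lit 7) (.e false (nat_lit 2) (nat_lit 82) (nat_lit 0) (nat_lit 9) (.e true (nat_lit 2) (nat_lit 61) (nat_lit 2) (nat_lit 7) (.e false (nat_lit 2) (nat_lit 81) (nat_lit 0) (nat_lit 9) (.e true (nat_lit 2) (nat_lit 85) (nat_lit 0) (nat_lit 9) (.e false (nat_lit 4) (nat_lit 86) (nat_lit 0) (nat_lit 9) .nil))))))))) .leaf) (nat_lit 33797) (nat_lit 271) (.p (nat_lit 161) (nat_lit 2) .z) .df (.nd .leaf (nat_lit 34816) (nat_lit 77) (.p (nat_lit 62) (nat_lit 2) .z) .df .leaf)) (nat_lit 34817) (nat_lit 95) (.p (nat_lit 71) (nat_lit 2) .z) .df (.nd (.nd (.nd .leaf (nat_lit 34818) (nat_lit 121) (.p (nat_lit 84) (nat_lit 2) .z) .df .leaf) (nat_lit 34819)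 (nat_lit 184) (.n (nat_lit 97) (nat_lit 4) (.p (nat_lit 98) (nat_lit 6) (.n (nat_lit 99) (nat_lit 4) (.n (nat_lit 100) (nat_lit 8) (.p (nat_lit 101) (nat_lit 8) (.n (nat_lit 102) (nat_lit 10) (.p (nat_lit 103) (nat_lit 8) (.p (nat_lit 104) (nat_lit 4) (.p (nat_lit 105) (nat_lit 8) (.p (nat_lit 106) (nat_lit 10) (.n (nat_lit 107) (nat_lit 2) (.n (nat_lit 108) (nat_lit 10) (.p (nat_lit 109) (nat_lit 18) (.n (nat_lit 110) (nat_lit 8) (.p (nat_lit 111) (nat_lit 8) (.n (nat_lit 112) (nat_lit 8) (.p (nat_lit 113) (nat_lit 12) (.p (nat_lit 114) (nat_lit 14) (.n (nat_lit 115) (nat_lit 22) (.n (nat_lit 116) (nat_lit 6) (.n (nat_lit 117) (nat_lit 6) (.p (nat_lit 118) (nat_lit 10) (.p (nat_lit 119) (nat_lit 10) (.n (nat_lit 120) (nat_lit 4) (.n (nat_lit 121) (nat_lit 12) .z))))))))))))))))))))))))) (.ct dF6ss_c546 (nat_lit 2) (nat_lit 7) (.s false (nat_lit 1) (nat_lit 4) (nat_lit 1) (nat_lit 3)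 (nat_lit 2) true (nat_lit 5) true (nat_lit 8) true (nat_lit 6) true (nat_lit 9) true (nat_lit 7) (.e true (nat_lit 2) (nat_lit 21) (nat_lit 5) (nat_lit 5) (.e false (nat_lit 2) (nat_lit 22) (nat_lit 5) (nat_lit 5) (.e false (nat_lit 2) (nat_lit 23) (nat_lit 5) (nat_lit 5) (.e true (nat_lit 2) (nat_lit 49) (nat_lit 2) (nat_lit 8) (.e false (nat_lit 2) (nat_lit 51) (nat_lit 2) (nat_lit 8) (.e false (nat_lit 2) (nat_lit 53) (nat_lit 2) (nat_lit 8) (.e false (nat_lit 2) (nat_lit 24) (nat_lit 4) (nat_lit 6) (.e false (nat_lit 2) (nat_lit 55) (nat_lit 1) (nat_lit 9) (.e true (nat_lit 2) (nat_lit 60) (nat_lit 1) (nat_lit 9) (.e false (nat_lit 2) (nat_lit 61) (nat_lit 1) (nat_lit 9) .nil)))))))))))) .leaf) (nat_lit 34820) (nat_lit 226) (.p (nat_lit 122) (nat_lit 8) (.p (nat_lit 123) (nat_lit 4) (.p (nat_lit 124) (nat_lit 4) (.n (nat_lit 125) (nat_lit 4) (.p (nat_lit 126) (nat_lit 4) (.n (nat_lit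 127) (nat_lit 2) (.n (nat_lit 128) (nat_lit 1) (.n (nat_lit 130) (nat_lit 4) (.n (nat_lit 132) (nat_lit 2) (.p (nat_lit 133) (nat_lit 2) (.n (nat_lit 134) (nat_lit 2) (.n (nat_lit 135) (nat_lit 2) (.p (nat_lit 136) (nat_lit 3) (.n (nat_lit 137) (nat_lit 8) (.p (nat_lit 138) (nat_lit 4) (.n (nat_lit 139) (nat_lit 2) (.n (nat_lit 140) (nat_lit 8) (.p (nat_lit 141) (nat_lit 3) .z)))))))))))))))))) (.ct dF6ss_c531 (nat_lit 96) (nat_lit 5) (.s false (nat_lit 48) (nat_lit 5) (nat_lit 2) (nat_lit 4) (nat_lit 0) true (nat_lit 5) true (nat_lit 9) true (nat_lit 4) true (nat_lit 7) true (nat_lit 5) (.s true (nat_lit 48) (nat_lit 5) (nat_lit 4) (nat_lit 2) (nat_lit 0) true (nat_lit 1) true (nat_lit 9) true (nat_lit 4) true (nat_lit 5) true (nat_lit 7) (.s false (nat_lit 48) (nat_lit 6) (nat_lit 0) (nat_lit 3) (nat_lit 2) true (nat_lit 5) true (nat_lit 7) true (nat_lit 3) true (nat_lit 9) true (nat_lit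 6) (.s false (nat_lit 48) (nat_lit 7) (nat_lit 2) (nat_lit 2) (nat_lit 2) true (nat_lit 3) true (nat_lit 7) true (nat_lit 2) true (nat_lit 7) true (nat_lit 7) (.s false (nat_lit 48) (nat_lit 16) (nat_lit 0) (nat_lit 0) (nat_lit 2) true (nat_lit 5) true (nat_lit 7) false (nat_lit 1) true (nat_lit 9) true (nat_lit 9) (.s false (nat_lit 48) (nat_lit 16) (nat_lit 0) (nat_lit 2) (nat_lit 0) false (nat_lit 10) true (nat_lit 9) false (nat_lit 1) true (nat_lit 9) true (nat_lit 7) (.s false (nat_lit 48) (nat_lit 18) (nat_lit 0) (nat_lit 0) (nat_lit 1) true (nat_lit 6) true (nat_lit 8) false (nat_lit 2) true (nat_lit 9) true (nat_lit 9) (.s true (nat_lit 48) (nat_lit 18) (nat_lit 0) (nat_lit 1) (nat_lit 0) false (nat_lit 10) true (nat_lit 9) false (nat_lit 2) true (nat_lit 9) true (nat_lit 8) (.i false (nat_lit 1) (nat_lit 2) (.c (nat_lit 2) (nat_lit 1) (.c (nat_lit 2) (nat_lit 1) (.c (nat_lit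 2) (nat_lit 1) (.c (nat_lit 1) (nat_lit 16) (.c (nat_lit 0) (nat_lit 256) (.c (nat_lit 0) (nat_lit 256) .nil)))))) (.e true (nat_lit 96) (nat_lit 32) (nat_lit 4) (nat_lit 5) (.e false (nat_lit 192) (nat_lit 36) (nat_lit 4) (nat_lit 5) (.e false (nat_lit 288) (nat_lit 82) (nat_lit 0) (nat_lit 9) (.e false (nat_lit 192) (nat_lit 88) (nat_lit 0) (nat_lit 9) (.e true (nat_lit 192) (nat_lit 59) (nat_lit 2) (nat_lit 7) (.e true (nat_lit 96) (nat_lit 60) (nat_lit 2) (nat_lit 7) (.e false (nat_lit 480) (nat_lit 81) (nat_lit 0) (nat_lit 9) (.e true (nat_lit 384) (nat_lit 85) (nat_lit 0) (nat_lit 9) (.e false (nat_lit 672) (nat_lit 86) (nat_lit 0) (nat_lit 9) (.e false (nat_lit 96) (nat_lit 62) (nat_lit 2) (nat_lit 7) (.e false (nat_lit 96) (nat_lit 90) (nat_lit 0) (nat_lit 9) (.e true (nat_lit 192) (nat_lit 83) (nat_lit 0) (nat_lit 9) (.e false (nat_lit 192) (nat_lit 80) (nat_lit 1) (nat_lit 8)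 .nil))))))))))))))))))))))) (.nd .leaf (nat_lit 34821) (nat_lit 289) (.p (nat_lit 142) (nat_lit 16) (.n (nat_lit 143) (nat_lit 4) (.n (nat_lit 144) (nat_lit 26) (.n (nat_lit 145) (nat_lit 14) (.p (nat_lit 146) (nat_lit 16) (.n (nat_lit 147) (nat_lit 12) (.p (nat_lit 149) (nat_lit 18) (.p (nat_lit 150) (nat_lit 4) (.n (nat_lit 151) (nat_lit 8) (.p (nat_lit 152) (nat_lit 16) (.n (nat_lit 153) (nat_lit 10) (.p (nat_lit 154) (nat_lit 24) (.n (nat_lit 155) (nat_lit 18) (.p (nat_lit 156) (nat_lit 26) (.n (nat_lit 157) (nat_lit 4) (.n (nat_lit 158) (nat_lit 4) (.n (nat_lit 159) (nat_lit 30) (.n (nat_lit 160) (nat_lit 34) (.p (nat_lit 161) (nat_lit 28) .z))))))))))))))))))) (.ct dF6ss_c291 (nat_lit 2) (nat_lit 4) (.s true (nat_lit 1) (nat_lit 14) (nat_lit 1) (nat_lit 1) (nat_lit 2) true (nat_lit 4) true (nat_lit 7) false (nat_lit 0) true (nat_lit 8) true (nat_lit 8) (.e true (nat_lit 2) (nat_lit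 71) (nat_lit 2) (nat_lit 7) (.e true (nat_lit 4) (nat_lit 91) (nat_lit 1) (nat_lit 8) (.e false (nat_lit 2) (nat_lit 81) (nat_lit 1) (nat_lit 8) (.e false (nat_lit 2) (nat_lit 82) (nat_lit 1) (nat_lit 8) (.e true (nat_lit 2) (nat_lit 83) (nat_lit 1) (nat_lit 8) (.e true (nat_lit 2) (nat_lit 84) (nat_lit 1) (nat_lit 8) (.e false (nat_lit 2) (nat_lit 87) (nat_lit 1) (nat_lit 8) (.e true (nat_lit 2) (nat_lit 90) (nat_lit 1) (nat_lit 8) .nil)))))))))) .leaf))) (nat_lit 35840) (nat_lit 78) (.p (nat_lit 63) (nat_lit 2) .z) .df (.nd (.nd (.nd (.nd .leaf (nat_lit 35841) (nat_lit 96) (.p (nat_lit 72) (nat_lit 2) .z) .df .leaf) (nat_lit 35842) (nat_lit 122) (.p (nat_lit 85) (nat_lit 2) .z) .df .leaf) (nat_lit 35843) (nat_lit 189) (.p (nat_lit 97) (nat_lit 4) (.n (nat_lit 99) (nat_lit 16) (.n (nat_lit 101) (nat_lit 4) (.p (nat_lit 102) (nat_lit 4) (.n (nat_lit 103) (nat_lit 8) (.n (nat_lit 104)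 (nat_lit 4) (.p (nat_lit 105) (nat_lit 4) (.p (nat_lit 106) (nat_lit 4) (.n (nat_lit 107) (nat_lit 4) (.n (nat_lit 108) (nat_lit 6) (.p (nat_lit 109) (nat_lit 4) (.n (nat_lit 110) (nat_lit 12) (.p (nat_lit 113) (nat_lit 20) (.p (nat_lit 114) (nat_lit 24) (.n (nat_lit 115) (nat_lit 24) (.n (nat_lit 116) (nat_lit 6) (.n (nat_lit 117) (nat_lit 4) (.p (nat_lit 118) (nat_lit 12) (.n (nat_lit 121) (nat_lit 16) .z))))))))))))))))))) (.ct dF6ss_c546 (nat_lit 2) (nat_lit 7) (.s false (nat_lit 1) (nat_lit 15) (nat_lit 1) (nat_lit 1) (nat_lit 0) true (nat_lit 7) true (nat_lit 10) false (nat_lit 2) true (nat_lit 9) true (nat_lit 9) (.e false (nat_lit 2) (nat_lit 72) (nat_lit 0) (nat_lit 10) (.e false (nat_lit 4) (nat_lit 59) (nat_lit 1) (nat_lit 9) (.e true (nat_lit 4) (nat_lit 62) (nat_lit 1) (nat_lit 9) (.e true (nat_lit 2) (nat_lit 63) (nat_lit 1) (nat_lit 9) (.e false (nat_lit 4) (nat_lit 64)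 (nat_lit 1) (nat_lit 9) .nil))))))) (.nd .leaf (nat_lit 35844) (nat_lit 220) (.p (nat_lit 141) (nat_lit 2) .z) .df .leaf)) (nat_lit 35845) (nat_lit 287) (.p (nat_lit 142) (nat_lit 4) (.n (nat_lit 143) (nat_lit 4) (.n (nat_lit 144) (nat_lit 4) (.p (nat_lit 146) (nat_lit 6) (.n (nat_lit 147) (nat_lit 2) (.n (nat_lit 148) (nat_lit 8) (.p (nat_lit 149) (nat_lit 10) (.p (nat_lit 150) (nat_lit 4) (.n (nat_lit 151) (nat_lit 2) (.p (nat_lit 152) (nat_lit 8) (.n (nat_lit 153) (nat_lit 6) (.p (nat_lit 154) (nat_lit 14) (.n (nat_lit 155) (nat_lit 6) (.p (nat_lit 156) (nat_lit 8) (.n (nat_lit 157) (nat_lit 4) (.n (nat_lit 158) (nat_lit 4) (.n (nat_lit 159) (nat_lit 8) (.n (nat_lit 160) (nat_lit 14) (.p (nat_lit 161) (nat_lit 12) .z))))))))))))))))))) (.ct dF6ss_c291 (nat_lit 2) (nat_lit 4) (.s true (nat_lit 1) (nat_lit 15) (nat_lit 1) (nat_lit 1) (nat_lit 2) true (nat_lit 4) true (nat_lit 7) false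 (nat_lit 0) true (nat_lit 8) true (nat_lit 8) (.e true (nat_lit 2) (nat_lit 72) (nat_lit 2) (nat_lit 7) (.e true (nat_lit 4) (nat_lit 81) (nat_lit 1) (nat_lit 8) (.e true (nat_lit 4) (nat_lit 82) (nat_lit 1) (nat_lit 8) (.e false (nat_lit 2) (nat_lit 85) (nat_lit 1) (nat_lit 8) (.e true (nat_lit 4) (nat_lit 86) (nat_lit 1) (nat_lit 8) (.e false (nat_lit 2) (nat_lit 89) (nat_lit 1) (nat_lit 8) (.e false (nat_lit 2) (nat_lit 90) (nat_lit 1) (nat_lit 8) (.e false (nat_lit 2) (nat_lit 87) (nat_lit 1) (nat_lit 8) .nil)))))))))) (.nd (.nd .leaf (nat_lit 36864) (nat_lit 79) (.p (nat_lit 64) (nat_lit 2) .z) .df .leaf) (nat_lit 36865) (nat_lit 97) (.p (nat_lit 73) (nat_lit 2) .z) .df (.nd .leaf (nat_lit 36866) (nat_lit 123) (.p (nat_lit 86) (nat_lit 2) .z) .df .leaf))))) (nat_lit 36867) (nat_lit 175) (.p (nat_lit 97) (nat_lit 2) (.n (nat_lit 99) (nat_lit 6) (.n (nat_lit 100) (nat_lit 4) (.p (nat_lit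 102) (nat_lit 2) (.n (nat_lit 103) (nat_lit 4) (.n (nat_lit 104) (nat_lit 2) (.p (nat_lit 105) (nat_lit 6) (.p (nat_lit 106) (nat_lit 6) (.n (nat_lit 107) (nat_lit 2) (.n (nat_lit 108) (nat_lit 6) (.p (nat_lit 109) (nat_lit 6) (.n (nat_lit 110) (nat_lit 10) (.p (nat_lit 111) (nat_lit 4) (.n (nat_lit 112) (nat_lit 4) (.p (nat_lit 113) (nat_lit 10) (.p (nat_lit 114) (nat_lit 10) (.n (nat_lit 115) (nat_lit 14) (.n (nat_lit 116) (nat_lit 2) (.n (nat_lit 117) (nat_lit 6) (.p (nat_lit 118) (nat_lit 8) (.p (nat_lit 119) (nat_lit 2) (.n (nat_lit 120) (nat_lit 2) (.n (nat_lit 121) (nat_lit 10) .z))))))))))))))))))))))) (.ct dF6ss_c546 (nat_lit 2) (nat_lit 7) (.s true (nat_lit 1) (nat_lit 5) (nat_lit 0) (nat_lit 0) (nat_lit 5) true (nat_lit 0) true (nat_lit 5) true (nat_lit 5) true (nat_lit 10) true (nat_lit 10) (.s true (nat_lit 1) (nat_lit 12) (nat_lit 2) (nat_lit 1) (nat_lit 0) true (nat_lit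 6) true (nat_lit 10) true (nat_lit 0) true (nat_lit 8) true (nat_lit 9) (.s true (nat_lit 1) (nat_lit 16) (nat_lit 0) (nat_lit 0) (nat_lit 1) true (nat_lit 7) true (nat_lit 9) false (nat_lit 3) true (nat_lit 10) true (nat_lit 10) (.e true (nat_lit 2) (nat_lit 23) (nat_lit 5) (nat_lit 5) (.e true (nat_lit 4) (nat_lit 65) (nat_lit 0) (nat_lit 10) (.e true (nat_lit 2) (nat_lit 67) (nat_lit 0) (nat_lit 10) (.e false (nat_lit 2) (nat_lit 68) (nat_lit 0) (nat_lit 10) (.e false (nat_lit 2) (nat_lit 69) (nat_lit 0) (nat_lit 10) (.e false (nat_lit 4) (nat_lit 71) (nat_lit 0) (nat_lit 10) (.e true (nat_lit 2) (nat_lit 72) (nat_lit 0) (nat_lit 10) (.e true (nat_lit 2) (nat_lit 70) (nat_lit 0) (nat_lit 10) (.e true (nat_lit 2) (nat_lit 73) (nat_lit 0) (nat_lit 10) (.e false (nat_lit 2) (nat_lit 75) (nat_lit 0) (nat_lit 10) (.e false (nat_lit 2) (nat_lit 27) (nat_lit 4) (nat_lit 6) (.e false (nat_lit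 2) (nat_lit 51) (nat_lit 2) (nat_lit 8) (.e true (nat_lit 2) (nat_lit 52) (nat_lit 2) (nat_lit 8) (.e false (nat_lit 2) (nat_lit 53) (nat_lit 2) (nat_lit 8) (.e false (nat_lit 2) (nat_lit 56) (nat_lit 1) (nat_lit 9) (.e true (nat_lit 2) (nat_lit 64) (nat_lit 1) (nat_lit 9) .nil)))))))))))))))))))) (.nd (.nd (.nd (.nd (.nd (.nd .leaf (nat_lit 36868) (nat_lit 221) (.p (nat_lit 122) (nat_lit 4) (.p (nat_lit 123) (nat_lit 2) (.p (nat_lit 124) (nat_lit 4) (.n (nat_lit 125) (nat_lit 2) (.p (nat_lit 126) (nat_lit 2) (.n (nat_lit 127) (nat_lit 2) (.n (nat_lit 130) (nat_lit 2) (.n (nat_lit 131) (nat_lit 2) (.n (nat_lit 132) (nat_lit 4) (.n (nat_lit 133) (nat_lit 2) (.p (nat_lit 134) (nat_lit 2) (.n (nat_lit 135) (nat_lit 2) (.p (nat_lit 136) (nat_lit 4) (.n (nat_lit 137) (nat_lit 8) (.p (nat_lit 138) (nat_lit 2) (.n (nat_lit 139) (nat_lit 2) (.n (nat_lit 140) (nat_lit 4) (.p (nat_lit 141) (nat_lit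 2) .z)))))))))))))))))) (.ct dF6ss_c531 (nat_lit 96) (nat_lit 5) (.s true (nat_lit 48) (nat_lit 4) (nat_lit 3) (nat_lit 2) (nat_lit 2) true (nat_lit 0) true (nat_lit 7) true (nat_lit 5) true (nat_lit 6) true (nat_lit 7) (.s true (nat_lit 48) (nat_lit 6) (nat_lit 0) (nat_lit 0) (nat_lit 5) true (nat_lit 0) true (nat_lit 4) true (nat_lit 3) true (nat_lit 9) true (nat_lit 9) dF6ss_i2))) .leaf) (nat_lit 36869) (nat_lit 277) (.p (nat_lit 142) (nat_lit 20) (.n (nat_lit 143) (nat_lit 6) (.n (nat_lit 144) (nat_lit 28) (.n (nat_lit 145) (nat_lit 12) (.p (nat_lit 146) (nat_lit 18) (.n (nat_lit 147) (nat_lit 16) (.n (nat_lit 148) (nat_lit 2) (.p (nat_lit 149) (nat_lit 26) (.p (nat_lit 150) (nat_lit 6) (.n (nat_lit 151) (nat_lit 10) (.p (nat_lit 152) (nat_lit 18) (.n (nat_lit 153) (nat_lit 12) (.p (nat_lit 154) (nat_lit 28) (.n (nat_lit 155) (nat_lit 20) (.p (nat_lit 156) (nat_lit 32) (.n (nat_lit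 157) (nat_lit 6) (.n (nat_lit 158) (nat_lit 6) (.n (nat_lit 159) (nat_lit 34) (.n (nat_lit 160) (nat_lit 40) (.p (nat_lit 161) (nat_lit 34) .z)))))))))))))))))))) (.ct dF6ss_c291 (nat_lit 2) (nat_lit 4) (.s true (nat_lit 1) (nat_lit 6) (nat_lit 1) (nat_lit 3) (nat_lit 2) true (nat_lit 4) true (nat_lit 7) true (nat_lit 3) true (nat_lit 8) true (nat_lit 6) (.s true (nat_lit 1) (nat_lit 14) (nat_lit 1) (nat_lit 1) (nat_lit 2) true (nat_lit 4) true (nat_lit 7) false (nat_lit 0) true (nat_lit 8) true (nat_lit 8) (.s false (nat_lit 1) (nat_lit 18) (nat_lit 1) (nat_lit 1) (nat_lit 0) true (nat_lit 6) true (nat_lit 9) false (nat_lit 2) true (nat_lit 8) true (nat_lit 8) (.e false (nat_lit 2) (nat_lit 32) (nat_lit 5) (nat_lit 4) (.e true (nat_lit 2) (nat_lit 33) (nat_lit 5) (nat_lit 4) (.e true (nat_lit 2) (nat_lit 69) (nat_lit 2) (nat_lit 7) (.e false (nat_lit 2) (nat_lit 70) (nat_lit 2) (nat_lit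 7) (.e true (nat_lit 4) (nat_lit 71) (nat_lit 2) (nat_lit 7) (.e false (nat_lit 2) (nat_lit 72) (nat_lit 2) (nat_lit 7) (.e false (nat_lit 2) (nat_lit 73) (nat_lit 2) (nat_lit 7) (.e true (nat_lit 2) (nat_lit 75) (nat_lit 2) (nat_lit 7) (.e false (nat_lit 2) (nat_lit 24) (nat_lit 6) (nat_lit 3) (.e true (nat_lit 2) (nat_lit 90) (nat_lit 1) (nat_lit 8) (.e true (nat_lit 4) (nat_lit 91) (nat_lit 1) (nat_lit 8) (.e false (nat_lit 2) (nat_lit 81) (nat_lit 1) (nat_lit 8) (.e true (nat_lit 4) (nat_lit 84) (nat_lit 1) (nat_lit 8) (.e false (nat_lit 2) (nat_lit 87) (nat_lit 1) (nat_lit 8) (.e false (nat_lit 2) (nat_lit 96) (nat_lit 0) (nat_lit 9) (.e false (nat_lit 2) (nat_lit 86) (nat_lit 1) (nat_lit 8) (.e true (nat_lit 2) (nat_lit 88) (nat_lit 1) (nat_lit 8) .nil))))))))))))))))))))) .leaf) (nat_lit 37888) (nat_lit 98) (.p (nat_lit 74) (nat_lit 2) .z) .df (.nd .leaf (nat_lit 37890) (nat_lit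 138) (.p (nat_lit 92) (nat_lit 2) .z) .df .leaf)) (nat_lit 38912) (nat_lit 103) (.p (nat_lit 65) (nat_lit 4) (.p (nat_lit 67) (nat_lit 4) (.n (nat_lit 68) (nat_lit 4) (.n (nat_lit 69) (nat_lit 6) (.p (nat_lit 70) (nat_lit 2) (.n (nat_lit 71) (nat_lit 2) (.p (nat_lit 72) (nat_lit 4) (.n (nat_lit 73) (nat_lit 2) (.n (nat_lit 74) (nat_lit 2) .z))))))))) (.ct dF6ss_c290 (nat_lit 2) (nat_lit 6) (.s false (nat_lit 1) (nat_lit 4) (nat_lit 2) (nat_lit 1) (nat_lit 1) true (nat_lit 1) true (nat_lit 5) true (nat_lit 2) true (nat_lit 4) true (nat_lit 5) (.s false (nat_lit 1) (nat_lit 5) (nat_lit 0) (nat_lit 1) (nat_lit 2) true (nat_lit 2) true (nat_lit 4) true (nat_lit 1) true (nat_lit 6) true (nat_lit 5) (.e true (nat_lit 2) (nat_lit 11) (nat_lit 5) (nat_lit 1) (.e false (nat_lit 2) (nat_lit 34) (nat_lit 1) (nat_lit 5) (.e true (nat_lit 2) (nat_lit 32) (nat_lit 1) (nat_lit 5) (.e false (nat_lit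 2) (nat_lit 27) (nat_lit 2) (nat_lit 4) (.e false (nat_lit 2) (nat_lit 10) (nat_lit 5) (nat_lit 1) (.e true (nat_lit 2) (nat_lit 37) (nat_lit 0) (nat_lit 6) (.e false (nat_lit 2) (nat_lit 39) (nat_lit 0) (nat_lit 6) (.e true (nat_lit 2) (nat_lit 36) (nat_lit 1) (nat_lit 5) .nil))))))))))) (.nd (.nd (.nd .leaf (nat_lit 38914) (nat_lit 145) (.n (nat_lit 92) (nat_lit 2) (.p (nat_lit 95) (nat_lit 2) (.p (nat_lit 96) (nat_lit 2) .z))) (.ct dF6ss_c35 (nat_lit 2) (nat_lit 2) (.s true (nat_lit 1) (nat_lit 5) (nat_lit 1) (nat_lit 2) (nat_lit 2) true (nat_lit 1) true (nat_lit 2) true (nat_lit 1) true (nat_lit 3) true (nat_lit 2) (.e true (nat_lit 2) (nat_lit 37) (nat_lit 2) (nat_lit 2) (.e false (nat_lit 2) (nat_lit 44) (nat_lit 1) (nat_lit 3) (.e false (nat_lit 2) (nat_lit 45) (nat_lit 1) (nat_lit 3) .nil))))) .leaf) (nat_lit 38916) (nat_lit 288) (.p (nat_lit 142) (nat_lit 12) (.n (nat_lit 143)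 (nat_lit 4) (.n (nat_lit 144) (nat_lit 18) (.n (nat_lit 145) (nat_lit 6) (.p (nat_lit 146) (nat_lit 10) (.n (nat_lit 147) (nat_lit 10) (.p (nat_lit 148) (nat_lit 2) (.p (nat_lit 149) (nat_lit 14) (.p (nat_lit 150) (nat_lit 2) (.n (nat_lit 151) (nat_lit 6) (.p (nat_lit 152) (nat_lit 10) (.n (nat_lit 153) (nat_lit 6) (.p (nat_lit 154) (nat_lit 12) (.n (nat_lit 155) (nat_lit 12) (.p (nat_lit 156) (nat_lit 18) (.n (nat_lit 157) (nat_lit 4) (.n (nat_lit 158) (nat_lit 2) (.n (nat_lit 159) (nat_lit 20) (.n (nat_lit 160) (nat_lit 18) (.p (nat_lit 161) (nat_lit 18) .z)))))))))))))))))))) (.ct dF6ss_c291 (nat_lit 2) (nat_lit 5) (.s true (nat_lit 1) (nat_lit 5) (nat_lit 1) (nat_lit 4) (nat_lit 2) true (nat_lit 4) true (nat_lit 7) true (nat_lit 4) true (nat_lit 8) true (nat_lit 5) (.e false (nat_lit 2) (nat_lit 31) (nat_lit 5) (nat_lit 4) (.e false (nat_lit 4) (nat_lit 32) (nat_lit 5) (nat_lit 4)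 (.e true (nat_lit 2) (nat_lit 35) (nat_lit 5) (nat_lit 4) (.e false (nat_lit 2) (nat_lit 36) (nat_lit 5) (nat_lit 4) (.e true (nat_lit 2) (nat_lit 66) (nat_lit 2) (nat_lit 7) (.e false (nat_lit 2) (nat_lit 68) (nat_lit 2) (nat_lit 7) (.e false (nat_lit 4) (nat_lit 69) (nat_lit 2) (nat_lit 7) (.e true (nat_lit 2) (nat_lit 72) (nat_lit 2) (nat_lit 7) (.e false (nat_lit 2) (nat_lit 73) (nat_lit 2) (nat_lit 7) (.e true (nat_lit 2) (nat_lit 91) (nat_lit 1) (nat_lit 8) .nil)))))))))))) .leaf) (nat_lit 39936) (nat_lit 99) (.p (nat_lit 75) (nat_lit 2) .z) .df (.nd .leaf (nat_lit 39938) (nat_lit 139) (.p (nat_lit 93) (nat_lit 2) .z) .df .leaf))) (nat_lit 39940) (nat_lit 295) (.n (nat_lit 142) (nat_lit 8) (.p (nat_lit 143) (nat_lit 4) (.p (nat_lit 144) (nat_lit 12) (.p (nat_lit 145) (nat_lit 2) (.n (nat_lit 146) (nat_lit 8) (.p (nat_lit 147) (nat_lit 4) (.p (nat_lit 148) (nat_lit 10) (.n (nat_lit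 149) (nat_lit 16) (.n (nat_lit 150) (nat_lit 8) (.p (nat_lit 151) (nat_lit 4) (.n (nat_lit 152) (nat_lit 12) (.p (nat_lit 153) (nat_lit 10) (.n (nat_lit 154) (nat_lit 22) (.p (nat_lit 155) (nat_lit 10) (.n (nat_lit 156) (nat_lit 22) (.p (nat_lit 157) (nat_lit 4) (.p (nat_lit 158) (nat_lit 8) (.p (nat_lit 159) (nat_lit 18) (.p (nat_lit 160) (nat_lit 30) (.n (nat_lit 161) (nat_lit 20) .z)))))))))))))))))))) (.ct dF6ss_c291 (nat_lit 2) (nat_lit 5) (.s false (nat_lit 1) (nat_lit 6) (nat_lit 1) (nat_lit 4) (nat_lit 1) false (nat_lit 10) true (nat_lit 8) true (nat_lit 3) true (nat_lit 8) true (nat_lit 5) (.e false (nat_lit 8) (nat_lit 82) (nat_lit 1) (nat_lit 8) (.e false (nat_lit 4) (nat_lit 84) (nat_lit 1) (nat_lit 8) (.e true (nat_lit 4) (nat_lit 85) (nat_lit 1) (nat_lit 8) (.e false (nat_lit 4) (nat_lit 86) (nat_lit 1) (nat_lit 8) (.e true (nat_lit 2) (nat_lit 87) (nat_lit 1) (nat_lit 8)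 (.e true (nat_lit 2) (nat_lit 26) (nat_lit 6) (nat_lit 3) (.e false (nat_lit 4) (nat_lit 81) (nat_lit 1) (nat_lit 8) (.e true (nat_lit 2) (nat_lit 88) (nat_lit 1) (nat_lit 8) .nil)))))))))) (.nd (.nd (.nd (.nd .leaf (nat_lit 40960) (nat_lit 111) (.p (nat_lit 78) (nat_lit 2) .z) .df .leaf) (nat_lit 40961) (nat_lit 136) (.p (nat_lit 81) (nat_lit 2) (.p (nat_lit 82) (nat_lit 2) (.n (nat_lit 83) (nat_lit 2) (.n (nat_lit 84) (nat_lit 2) (.p (nat_lit 87) (nat_lit 2) (.n (nat_lit 90) (nat_lit 2) (.n (nat_lit 91) (nat_lit 2) .z))))))) (.ct dF6ss_c275 (nat_lit 2) (nat_lit 5) (.s true (nat_lit 1) (nat_lit 4) (nat_lit 2) (nat_lit 2) (nat_lit 1) true (nat_lit 1) true (nat_lit 5) true (nat_lit 2) true (nat_lit 4) true (nat_lit 4) (.e true (nat_lit 2) (nat_lit 14) (nat_lit 5) (nat_lit 1) (.e true (nat_lit 2) (nat_lit 17) (nat_lit 4) (nat_lit 2) (.e false (nat_lit 2) (nat_lit 31) (nat_lit 2) (nat_lit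 4) (.e false (nat_lit 4) (nat_lit 32) (nat_lit 2) (nat_lit 4) (.e true (nat_lit 2) (nat_lit 35) (nat_lit 2) (nat_lit 4) (.e false (nat_lit 2) (nat_lit 36) (nat_lit 2) (nat_lit 4) .nil)))))))) .leaf) (nat_lit 40963) (nat_lit 238) (.p (nat_lit 122) (nat_lit 8) (.p (nat_lit 123) (nat_lit 4) (.p (nat_lit 124) (nat_lit 1) (.n (nat_lit 125) (nat_lit 1) (.p (nat_lit 126) (nat_lit 1) (.n (nat_lit 128) (nat_lit 1) (.n (nat_lit 130) (nat_lit 5) (.p (nat_lit 131) (nat_lit 4) (.p (nat_lit 132) (nat_lit 4) (.p (nat_lit 133) (nat_lit 7) (.n (nat_lit 134) (nat_lit 7) (.n (nat_lit 135) (nat_lit 1) (.n (nat_lit 136) (nat_lit 3) (.p (nat_lit 137) (nat_lit 1) (.p (nat_lit 138) (nat_lit 5) (.p (nat_lit 139) (nat_lit 2) (.n (nat_lit 140) (nat_lit 9) (.p (nat_lit 141) (nat_lit 3) .z)))))))))))))))))) (.ct dF6ss_c531 (nat_lit 2) (nat_lit 6) (.s true (nat_lit 1) (nat_lit 4) (nat_lit 2) (nat_lit 2) (nat_lit 3)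 true (nat_lit 0) true (nat_lit 6) true (nat_lit 5) true (nat_lit 7) true (nat_lit 7) (.s false (nat_lit 1) (nat_lit 10) (nat_lit 0) (nat_lit 2) (nat_lit 2) true (nat_lit 5) true (nat_lit 7) true (nat_lit 0) true (nat_lit 9) true (nat_lit 7) (.e false (nat_lit 2) (nat_lit 32) (nat_lit 4) (nat_lit 5) (.e true (nat_lit 2) (nat_lit 33) (nat_lit 4) (nat_lit 5) (.e false (nat_lit 2) (nat_lit 34) (nat_lit 4) (nat_lit 5) (.e true (nat_lit 2) (nat_lit 36) (nat_lit 4) (nat_lit 5) (.e false (nat_lit 2) (nat_lit 55) (nat_lit 2) (nat_lit 7) (.e false (nat_lit 2) (nat_lit 60) (nat_lit 2) (nat_lit 7) (.e true (nat_lit 2) (nat_lit 61) (nat_lit 2) (nat_lit 7) (.e true (nat_lit 2) (nat_lit 54) (nat_lit 2) (nat_lit 7) (.e false (nat_lit 2) (nat_lit 56) (nat_lit 2) (nat_lit 7) (.e false (nat_lit 2) (nat_lit 31) (nat_lit 4) (nat_lit 5) (.e true (nat_lit 2) (nat_lit 90) (nat_lit 0) (nat_lit 9) (.e false (nat_lit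 2) (nat_lit 59) (nat_lit 2) (nat_lit 7) .nil))))))))))))))) (.nd .leaf (nat_lit 41984) (nat_lit 112) (.p (nat_lit 79) (nat_lit 2) .z) .df .leaf)) (nat_lit 41985) (nat_lit 124) (.p (nat_lit 87) (nat_lit 2) .z) .df (.nd (.nd .leaf (nat_lit 41987) (nat_lit 237) (.p (nat_lit 128) (nat_lit 2) (.n (nat_lit 130) (nat_lit 2) (.p (nat_lit 132) (nat_lit 4) (.n (nat_lit 135) (nat_lit 4) (.n (nat_lit 136) (nat_lit 2) (.p (nat_lit 137) (nat_lit 4) (.p (nat_lit 138) (nat_lit 2) (.p (nat_lit 139) (nat_lit 4) (.p (nat_lit 141) (nat_lit 2) .z))))))))) (.ct dF6ss_c531 (nat_lit 2) (nat_lit 6) (.s false (nat_lit 1) (nat_lit 15) (nat_lit 1) (nat_lit 2) (nat_lit 0) true (nat_lit 6) true (nat_lit 9) false (nat_lit 0) true (nat_lit 8) true (nat_lit 7) (.s false (nat_lit 1) (nat_lit 15) (nat_lit 2) (nat_lit 1) (nat_lit 0) true (nat_lit 5) true (nat_lit 9) false (nat_lit 0) true (nat_lit 7) true (nat_lit 8) (.e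 false (nat_lit 2) (nat_lit 85) (nat_lit 0) (nat_lit 9) (.e true (nat_lit 2) (nat_lit 79) (nat_lit 1) (nat_lit 8) (.e true (nat_lit 4) (nat_lit 80) (nat_lit 1) (nat_lit 8) (.e true (nat_lit 2) (nat_lit 35) (nat_lit 4) (nat_lit 5) (.e false (nat_lit 2) (nat_lit 87) (nat_lit 0) (nat_lit 9) (.e false (nat_lit 4) (nat_lit 59) (nat_lit 2) (nat_lit 7) (.e true (nat_lit 4) (nat_lit 62) (nat_lit 2) (nat_lit 7) (.e true (nat_lit 2) (nat_lit 63) (nat_lit 2) (nat_lit 7) (.e false (nat_lit 4) (nat_lit 64) (nat_lit 2) (nat_lit 7) .nil)))))))))))) .leaf) (nat_lit 43008) (nat_lit 113) (.p (nat_lit 80) (nat_lit 2) .z) .df (.nd .leaf (nat_lit 43009) (nat_lit 125) (.p (nat_lit 88) (nat_lit 2) .z) .df .leaf)))) (nat_lit 43011) (nat_lit 244) (.n (nat_lit 122) (nat_lit 4) (.n (nat_lit 123) (nat_lit 2) (.n (nat_lit 124) (nat_lit 2) (.p (nat_lit 125) (nat_lit 2) (.n (nat_lit 126) (nat_lit 2) (.n (nat_lit 128)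 (nat_lit 2) (.p (nat_lit 130) (nat_lit 2) (.n (nat_lit 131) (nat_lit 2) (.n (nat_lit 132) (nat_lit 6) (.p (nat_lit 135) (nat_lit 6) (.p (nat_lit 136) (nat_lit 4) (.n (nat_lit 137) (nat_lit 6) (.n (nat_lit 138) (nat_lit 2) (.n (nat_lit 139) (nat_lit 6) (.p (nat_lit 140) (nat_lit 2) (.n (nat_lit 141) (nat_lit 4) .z)))))))))))))))) (.ct dF6ss_c531 (nat_lit 2) (nat_lit 6) (.s true (nat_lit 1) (nat_lit 18) (nat_lit 0) (nat_lit 0) (nat_lit 1) true (nat_lit 6) true (nat_lit 8) false (nat_lit 2) true (nat_lit 9) true (nat_lit 9) (.e true (nat_lit 2) (nat_lit 80) (nat_lit 1) (nat_lit 8) (.e false (nat_lit 4) (nat_lit 83) (nat_lit 0) (nat_lit 9) (.e false (nat_lit 4) (nat_lit 86) (nat_lit 0) (nat_lit 9) (.e false (nat_lit 2) (nat_lit 90) (nat_lit 0) (nat_lit 9) (.e true (nat_lit 2) (nat_lit 87) (nat_lit 0) (nat_lit 9) (.e true (nat_lit 2) (nat_lit 88) (nat_lit 0) (nat_lit 9) (.e true (nat_lit 2)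 (nat_lit 89) (nat_lit 0) (nat_lit 9) .nil))))))))) (.nd (.nd (.nd (.nd (.nd .leaf (nat_lit 44032) (nat_lit 137) (.n (nat_lit 81) (nat_lit 2) (.n (nat_lit 82) (nat_lit 4) (.p (nat_lit 83) (nat_lit 2) (.n (nat_lit 84) (nat_lit 2) (.n (nat_lit 86) (nat_lit 2) (.p (nat_lit 87) (nat_lit 2) (.p (nat_lit 88) (nat_lit 2) (.p (nat_lit 89) (nat_lit 2) (.p (nat_lit 90) (nat_lit 2) (.n (nat_lit 91) (nat_lit 2) .z)))))))))) (.ct dF6ss_c275 (nat_lit 2) (nat_lit 6) (.s true (nat_lit 1) (nat_lit 5) (nat_lit 2) (nat_lit 0) (nat_lit 2) true (nat_lit 0) true (nat_lit 4) true (nat_lit 1) true (nat_lit 4) true (nat_lit 6) (.e false (nat_lit 2) (nat_lit 12) (nat_lit 6) (nat_lit 0) (.e true (nat_lit 4) (nat_lit 36) (nat_lit 2) (nat_lit 4) (.e true (nat_lit 2) (nat_lit 14) (nat_lit 5) (nat_lit 1) (.e true (nat_lit 2) (nat_lit 31) (nat_lit 2) (nat_lit 4) (.e true (nat_lit 2) (nat_lit 32) (nat_lit 2) (nat_lit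 4) (.e false (nat_lit 2) (nat_lit 35) (nat_lit 2) (nat_lit 4) .nil)))))))) .leaf) (nat_lit 44033) (nat_lit 140) (.p (nat_lit 94) (nat_lit 2) .z) .df .leaf) (nat_lit 44035) (nat_lit 294) (.n (nat_lit 142) (nat_lit 5) (.p (nat_lit 143) (nat_lit 1) (.p (nat_lit 144) (nat_lit 3) (.n (nat_lit 145) (nat_lit 3) (.n (nat_lit 146) (nat_lit 1) (.p (nat_lit 147) (nat_lit 6) (.p (nat_lit 148) (nat_lit 1) (.n (nat_lit 149) (nat_lit 9) (.n (nat_lit 150) (nat_lit 2) (.p (nat_lit 151) (nat_lit 3) (.n (nat_lit 152) (nat_lit 2) (.p (nat_lit 153) (nat_lit 2) (.n (nat_lit 154) (nat_lit 2) (.n (nat_lit 155) (nat_lit 1) (.n (nat_lit 156) (nat_lit 6) (.p (nat_lit 157) (nat_lit 3) (.p (nat_lit 158) (nat_lit 3) (.p (nat_lit 159) (nat_lit 3) (.p (nat_lit 160) (nat_lit 3) (.n (nat_lit 161) (nat_lit 3) .z)))))))))))))))))))) (.ct dF6ss_c291 (nat_lit 2) (nat_lit 6) (.s true (nat_lit 1) (nat_lit 5) (nat_lit 2) (nat_lit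 3) (nat_lit 2) true (nat_lit 3) true (nat_lit 7) true (nat_lit 4) true (nat_lit 7) true (nat_lit 6) (.e false (nat_lit 2) (nat_lit 24) (nat_lit 6) (nat_lit 3) (.e true (nat_lit 2) (nat_lit 26) (nat_lit 6) (nat_lit 3) (.e false (nat_lit 2) (nat_lit 27) (nat_lit 6) (nat_lit 3) (.e true (nat_lit 6) (nat_lit 65) (nat_lit 2) (nat_lit 7) (.e false (nat_lit 4) (nat_lit 71) (nat_lit 2) (nat_lit 7) (.e true (nat_lit 4) (nat_lit 73) (nat_lit 2) (nat_lit 7) (.e false (nat_lit 2) (nat_lit 31) (nat_lit 5) (nat_lit 4) (.e false (nat_lit 2) (nat_lit 66) (nat_lit 2) (nat_lit 7) (.e true (nat_lit 2) (nat_lit 67) (nat_lit 2) (nat_lit 7) (.e false (nat_lit 2) (nat_lit 68) (nat_lit 2) (nat_lit 7) (.e false (nat_lit 2) (nat_lit 69) (nat_lit 2) (nat_lit 7) (.e true (nat_lit 2) (nat_lit 70) (nat_lit 2) (nat_lit 7) (.e true (nat_lit 2) (nat_lit 72) (nat_lit 2) (nat_lit 7) (.e false (nat_lit 2) (nat_lit 75) (nat_lit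 2) (nat_lit 7) .nil)))))))))))))))) (.nd .leaf (nat_lit 45056) (nat_lit 126) (.p (nat_lit 89) (nat_lit 2) .z) .df .leaf)) (nat_lit 45057) (nat_lit 141) (.p (nat_lit 95) (nat_lit 2) .z) .df (.nd (.nd (.nd .leaf (nat_lit 45059) (nat_lit 272) (.p (nat_lit 142) (nat_lit 2) (.n (nat_lit 143) (nat_lit 2) (.n (nat_lit 144) (nat_lit 2) (.n (nat_lit 145) (nat_lit 2) (.p (nat_lit 146) (nat_lit 2) (.p (nat_lit 149) (nat_lit 2) (.p (nat_lit 152) (nat_lit 2) (.n (nat_lit 153) (nat_lit 2) (.p (nat_lit 154) (nat_lit 2) (.n (nat_lit 155) (nat_lit 4) (.p (nat_lit 156) (nat_lit 2) (.p (nat_lit 157) (nat_lit 2) (.p (nat_lit 158) (nat_lit 2) (.n (nat_lit 159) (nat_lit 4) (.n (nat_lit 160) (nat_lit 2) (.p (nat_lit 161) (nat_lit 2) .z)))))))))))))))) (.ct dF6ss_c291 (nat_lit 2) (nat_lit 6) (.s false (nat_lit 1) (nat_lit 5) (nat_lit 0) (nat_lit 2) (nat_lit 5) true (nat_lit 1) true (nat_lit 4) true (nat_lit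 4) true (nat_lit 9) true (nat_lit 7) (.s false (nat_lit 1) (nat_lit 5) (nat_lit 1) (nat_lit 4) (nat_lit 2) true (nat_lit 4) true (nat_lit 7) true (nat_lit 4) true (nat_lit 8) true (nat_lit 5) (.s false (nat_lit 1) (nat_lit 5) (nat_lit 3) (nat_lit 2) (nat_lit 2) true (nat_lit 1) true (nat_lit 7) true (nat_lit 4) true (nat_lit 6) true (nat_lit 7) (.s true (nat_lit 1) (nat_lit 10) (nat_lit 1) (nat_lit 2) (nat_lit 2) true (nat_lit 4) true (nat_lit 7) true (nat_lit 1) true (nat_lit 8) true (nat_lit 7) (.s false (nat_lit 1) (nat_lit 16) (nat_lit 2) (nat_lit 1) (nat_lit 0) true (nat_lit 5) true (nat_lit 9) false (nat_lit 1) true (nat_lit 7) true (nat_lit 8) (.s true (nat_lit 1) (nat_lit 18) (nat_lit 1) (nat_lit 1) (nat_lit 0) true (nat_lit 6) true (nat_lit 9) false (nat_lit 2) true (nat_lit 8) true (nat_lit 8) (.e false (nat_lit 2) (nat_lit 33) (nat_lit 5) (nat_lit 4) (.e true (nat_lit 2) (nat_lit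 32) (nat_lit 5) (nat_lit 4) (.e false (nat_lit 2) (nat_lit 92) (nat_lit 0) (nat_lit 9) (.e true (nat_lit 4) (nat_lit 96) (nat_lit 0) (nat_lit 9) (.e false (nat_lit 2) (nat_lit 65) (nat_lit 2) (nat_lit 7) (.e true (nat_lit 2) (nat_lit 68) (nat_lit 2) (nat_lit 7) (.e true (nat_lit 2) (nat_lit 69) (nat_lit 2) (nat_lit 7) (.e false (nat_lit 2) (nat_lit 70) (nat_lit 2) (nat_lit 7) (.e false (nat_lit 2) (nat_lit 73) (nat_lit 2) (nat_lit 7) (.e true (nat_lit 2) (nat_lit 66) (nat_lit 2) (nat_lit 7) (.e false (nat_lit 2) (nat_lit 91) (nat_lit 1) (nat_lit 8) (.e true (nat_lit 4) (nat_lit 86) (nat_lit 1) (nat_lit 8) (.e false (nat_lit 2) (nat_lit 82) (nat_lit 1) (nat_lit 8) (.e true (nat_lit 2) (nat_lit 83) (nat_lit 1) (nat_lit 8) (.e false (nat_lit 2) (nat_lit 84) (nat_lit 1) (nat_lit 8) (.e false (nat_lit 2) (nat_lit 88) (nat_lit 1) (nat_lit 8) .nil))))))))))))))))))))))) .leaf) (nat_lit 46080)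 (nat_lit 130) (.p (nat_lit 82) (nat_lit 2) (.p (nat_lit 83) (nat_lit 2) (.p (nat_lit 84) (nat_lit 2) (.p (nat_lit 86) (nat_lit 2) (.n (nat_lit 87) (nat_lit 2) (.n (nat_lit 88) (nat_lit 2) (.n (nat_lit 89) (nat_lit 2) .z))))))) (.ct dF6ss_c275 (nat_lit 2) (nat_lit 6) (.s false (nat_lit 1) (nat_lit 4) (nat_lit 1) (nat_lit 2) (nat_lit 2) true (nat_lit 1) true (nat_lit 4) true (nat_lit 2) true (nat_lit 5) true (nat_lit 4) (.s false (nat_lit 1) (nat_lit 5) (nat_lit 0) (nat_lit 2) (nat_lit 2) true (nat_lit 2) true (nat_lit 4) true (nat_lit 1) true (nat_lit 6) true (nat_lit 4) (.e false (nat_lit 2) (nat_lit 32) (nat_lit 2) (nat_lit 4) (.e true (nat_lit 2) (nat_lit 41) (nat_lit 1) (nat_lit 5) (.e true (nat_lit 2) (nat_lit 42) (nat_lit 1) (nat_lit 5) (.e false (nat_lit 2) (nat_lit 34) (nat_lit 2) (nat_lit 4) (.e false (nat_lit 2) (nat_lit 33) (nat_lit 2) (nat_lit 4) (.e true (nat_lit 2) (nat_lit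 44) (nat_lit 0) (nat_lit 6) (.e false (nat_lit 2) (nat_lit 36) (nat_lit 2) (nat_lit 4) .nil)))))))))) .leaf) (nat_lit 46081) (nat_lit 142) (.p (nat_lit 96) (nat_lit 2) .z) .df (.nd .leaf (nat_lit 46083) (nat_lit 293) (.n (nat_lit 142) (nat_lit 4) (.p (nat_lit 144) (nat_lit 6) (.p (nat_lit 145) (nat_lit 6) (.n (nat_lit 146) (nat_lit 6) (.p (nat_lit 147) (nat_lit 4) (.n (nat_lit 148) (nat_lit 2) (.n (nat_lit 149) (nat_lit 4) (.p (nat_lit 151) (nat_lit 2) (.n (nat_lit 152) (nat_lit 2) (.p (nat_lit 153) (nat_lit 2) (.n (nat_lit 154) (nat_lit 6) (.p (nat_lit 155) (nat_lit 6) (.n (nat_lit 156) (nat_lit 8) (.p (nat_lit 159) (nat_lit 8) (.p (nat_lit 160) (nat_lit 8) (.n (nat_lit 161) (nat_lit 8) .z)))))))))))))))) (.ct dF6ss_c291 (nat_lit 2) (nat_lit 6) (.s false (nat_lit 1) (nat_lit 18) (nat_lit 1) (nat_lit 1) (nat_lit 0) true (nat_lit 6) true (nat_lit 9) false (nat_lit 2) true (nat_lit 8) true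 (nat_lit 8) (.e false (nat_lit 2) (nat_lit 96) (nat_lit 0) (nat_lit 9) (.e true (nat_lit 2) (nat_lit 82) (nat_lit 1) (nat_lit 8) (.e false (nat_lit 2) (nat_lit 83) (nat_lit 1) (nat_lit 8) (.e true (nat_lit 2) (nat_lit 84) (nat_lit 1) (nat_lit 8) (.e false (nat_lit 2) (nat_lit 86) (nat_lit 1) (nat_lit 8) (.e false (nat_lit 2) (nat_lit 90) (nat_lit 1) (nat_lit 8) (.e true (nat_lit 2) (nat_lit 88) (nat_lit 1) (nat_lit 8) .nil))))))))) .leaf))) (nat_lit 47106) (nat_lit 179) (.p (nat_lit 97) (nat_lit 4) (.n (nat_lit 98) (nat_lit 4) (.p (nat_lit 99) (nat_lit 2) (.p (nat_lit 100) (nat_lit 8) (.n (nat_lit 101) (nat_lit 8) (.p (nat_lit 102) (nat_lit 6) (.n (nat_lit 103) (nat_lit 4) (.n (nat_lit 104) (nat_lit 2) (.n (nat_lit 105) (nat_lit 6) (.n (nat_lit 106) (nat_lit 10) (.p (nat_lit 107) (nat_lit 2) (.p (nat_lit 108) (nat_lit 8) (.n (nat_lit 109) (nat_lit 14) (.p (nat_lit 110) (nat_lit 8) (.n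 (nat_lit 111) (nat_lit 8) (.p (nat_lit 112) (nat_lit 8) (.n (nat_lit 113) (nat_lit 8) (.n (nat_lit 114) (nat_lit 10) (.p (nat_lit 115) (nat_lit 18) (.p (nat_lit 116) (nat_lit 4) (.p (nat_lit 117) (nat_lit 6) (.n (nat_lit 118) (nat_lit 8) (.n (nat_lit 119) (nat_lit 8) (.p (nat_lit 120) (nat_lit 4) (.p (nat_lit 121) (nat_lit 10) .z))))))))))))))))))))))))) (.ct dF6ss_c546 (nat_lit 2) (nat_lit 8) (.s false (nat_lit 1) (nat_lit 4) (nat_lit 2) (nat_lit 1) (nat_lit 3) true (nat_lit 0) true (nat_lit 7) true (nat_lit 6) true (nat_lit 8) true (nat_lit 9) (.s true (nat_lit 1) (nat_lit 7) (nat_lit 1) (nat_lit 2) (nat_lit 2) true (nat_lit 5) true (nat_lit 8) true (nat_lit 3) true (nat_lit 9) true (nat_lit 8) (.s false (nat_lit 1) (nat_lit 11) (nat_lit 1) (nat_lit 0) (nat_lit 2) true (nat_lit 5) true (nat_lit 8) true (nat_lit 0) true (nat_lit 9) true (nat_lit 10) (.s false (nat_lit 1) (nat_lit 14)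 (nat_lit 1) (nat_lit 1) (nat_lit 0) true (nat_lit 7) true (nat_lit 10) false (nat_lit 2) true (nat_lit 9) true (nat_lit 9) (.s true (nat_lit 1) (nat_lit 16) (nat_lit 0) (nat_lit 1) (nat_lit 0) false (nat_lit 11) true (nat_lit 10) false (nat_lit 3) true (nat_lit 10) true (nat_lit 9) (.a true (nat_lit 4) (nat_lit 10) (nat_lit 11) (nat_lit 0) (nat_lit 0) (.e true (nat_lit 2) (nat_lit 24) (nat_lit 4) (nat_lit 6) (.e false (nat_lit 2) (nat_lit 26) (nat_lit 4) (nat_lit 6) (.e true (nat_lit 2) (nat_lit 27) (nat_lit 4) (nat_lit 6) (.e true (nat_lit 2) (nat_lit 54) (nat_lit 1) (nat_lit 9) (.e false (nat_lit 4) (nat_lit 55) (nat_lit 1) (nat_lit 9) (.e false (nat_lit 2) (nat_lit 61) (nat_lit 1) (nat_lit 9) (.e true (nat_lit 2) (nat_lit 63) (nat_lit 1) (nat_lit 9) (.e false (nat_lit 4) (nat_lit 64) (nat_lit 1) (nat_lit 9) (.e false (nat_lit 2) (nat_lit 21) (nat_lit 5) (nat_lit 5) (.e true (nat_lit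 2) (nat_lit 22) (nat_lit 5) (nat_lit 5) (.e false (nat_lit 2) (nat_lit 50) (nat_lit 2) (nat_lit 8) (.e false (nat_lit 4) (nat_lit 59) (nat_lit 1) (nat_lit 9) (.e true (nat_lit 2) (nat_lit 69) (nat_lit 0) (nat_lit 10) (.e false (nat_lit 2) (nat_lit 65) (nat_lit 0) (nat_lit 10) .nil))))))))))))))))))))) (.nd (.nd (.nd (.nd .leaf (nat_lit 48130) (nat_lit 147) (.p (nat_lit 97) (nat_lit 2) .z) .df .leaf) (nat_lit 49154) (nat_lit 148) (.p (nat_lit 98) (nat_lit 2) .z) .df .leaf) (nat_lit 50178) (nat_lit 180) (.p (nat_lit 97) (nat_lit 4) (.n (nat_lit 98) (nat_lit 4) (.p (nat_lit 99) (nat_lit 2) (.p (nat_lit 100) (nat_lit 6) (.n (nat_lit 101) (nat_lit 6) (.p (nat_lit 102) (nat_lit 8) (.n (nat_lit 103) (nat_lit 6) (.n (nat_lit 104) (nat_lit 4) (.n (nat_lit 105) (nat_lit 4) (.n (nat_lit 106) (nat_lit 8) (.p (nat_lit 107) (nat_lit 2) (.p (nat_lit 108) (nat_lit 6) (.n (nat_lit 109) (nat_lit 12) (.p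 (nat_lit 110) (nat_lit 4) (.n (nat_lit 111) (nat_lit 6) (.p (nat_lit 112) (nat_lit 6) (.n (nat_lit 113) (nat_lit 6) (.n (nat_lit 114) (nat_lit 8) (.p (nat_lit 115) (nat_lit 14) (.p (nat_lit 116) (nat_lit 4) (.p (nat_lit 117) (nat_lit 4) (.n (nat_lit 118) (nat_lit 6) (.n (nat_lit 119) (nat_lit 8) (.p (nat_lit 120) (nat_lit 4) (.p (nat_lit 121) (nat_lit 8) .z))))))))))))))))))))))))) (.ct dF6ss_c546 (nat_lit 2) (nat_lit 8) (.s false (nat_lit 1) (nat_lit 4) (nat_lit 1) (nat_lit 3) (nat_lit 2) true (nat_lit 5) true (nat_lit 8) true (nat_lit 6) true (nat_lit 9) true (nat_lit 7) (.s true (nat_lit 1) (nat_lit 8) (nat_lit 2) (nat_lit 2) (nat_lit 0) true (nat_lit 6) true (nat_lit 10) true (nat_lit 2) true (nat_lit 8) true (nat_lit 8) (.s true (nat_lit 1) (nat_lit 9) (nat_lit 1) (nat_lit 1) (nat_lit 2) true (nat_lit 5) true (nat_lit 8) true (nat_lit 1) true (nat_lit 9) true (nat_lit 9) (.s false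 (nat_lit 1) (nat_lit 15) (nat_lit 0) (nat_lit 1) (nat_lit 1) true (nat_lit 7) true (nat_lit 9) false (nat_lit 2) true (nat_lit 10) true (nat_lit 9) (.s true (nat_lit 1) (nat_lit 14) (nat_lit 1) (nat_lit 1) (nat_lit 0) true (nat_lit 7) true (nat_lit 10) false (nat_lit 2) true (nat_lit 9) true (nat_lit 9) (.s false (nat_lit 1) (nat_lit 15) (nat_lit 1) (nat_lit 1) (nat_lit 0) true (nat_lit 7) true (nat_lit 10) false (nat_lit 2) true (nat_lit 9) true (nat_lit 9) (.e true (nat_lit 4) (nat_lit 21) (nat_lit 5) (nat_lit 5) (.e false (nat_lit 2) (nat_lit 22) (nat_lit 5) (nat_lit 5) (.e false (nat_lit 2) (nat_lit 23) (nat_lit 5) (nat_lit 5) (.e true (nat_lit 6) (nat_lit 55) (nat_lit 1) (nat_lit 9) (.e true (nat_lit 2) (nat_lit 65) (nat_lit 0) (nat_lit 10) (.e false (nat_lit 2) (nat_lit 47) (nat_lit 2) (nat_lit 8) (.e false (nat_lit 2) (nat_lit 46) (nat_lit 2) (nat_lit 8) (.e true (nat_lit 2) (nat_lit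 48) (nat_lit 2) (nat_lit 8) (.e true (nat_lit 4) (nat_lit 56) (nat_lit 1) (nat_lit 9) (.e true (nat_lit 2) (nat_lit 64) (nat_lit 1) (nat_lit 9) (.e true (nat_lit 2) (nat_lit 71) (nat_lit 0) (nat_lit 10) (.e false (nat_lit 6) (nat_lit 54) (nat_lit 1) (nat_lit 9) (.e false (nat_lit 2) (nat_lit 72) (nat_lit 0) (nat_lit 10) .nil)))))))))))))))))))) (.nd .leaf (nat_lit 51202) (nat_lit 178) (.p (nat_lit 97) (nat_lit 4) (.n (nat_lit 98) (nat_lit 2) (.p (nat_lit 100) (nat_lit 4) (.n (nat_lit 101) (nat_lit 6) (.p (nat_lit 102) (nat_lit 6) (.n (nat_lit 103) (nat_lit 8) (.n (nat_lit 104) (nat_lit 2) (.n (nat_lit 105) (nat_lit 4) (.n (nat_lit 106) (nat_lit 4) (.p (nat_lit 108) (nat_lit 4) (.n (nat_lit 109) (nat_lit 10) (.p (nat_lit 110) (nat_lit 2) (.n (nat_lit 111) (nat_lit 4) (.p (nat_lit 112) (nat_lit 4) (.n (nat_lit 113) (nat_lit 4) (.n (nat_lit 114) (nat_lit 6) (.p (nat_lit 115) (nat_lit 10)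 (.p (nat_lit 116) (nat_lit 4) (.p (nat_lit 117) (nat_lit 2) (.n (nat_lit 118) (nat_lit 4) (.n (nat_lit 119) (nat_lit 4) (.p (nat_lit 121) (nat_lit 4) .z)))))))))))))))))))))) (.ct dF6ss_c546 (nat_lit 2) (nat_lit 8) (.s false (nat_lit 1) (nat_lit 5) (nat_lit 2) (nat_lit 0) (nat_lit 3) true (nat_lit 0) true (nat_lit 7) true (nat_lit 5) true (nat_lit 8) true (nat_lit 10) (.s true (nat_lit 1) (nat_lit 12) (nat_lit 0) (nat_lit 1) (nat_lit 2) true (nat_lit 6) true (nat_lit 8) true (nat_lit 0) true (nat_lit 10) true (nat_lit 9) (.s true (nat_lit 1) (nat_lit 16) (nat_lit 0) (nat_lit 0) (nat_lit 1) true (nat_lit 7) true (nat_lit 9) false (nat_lit 3) true (nat_lit 10) true (nat_lit 10) (.a true (nat_lit 4) (nat_lit 10) (nat_lit 12) (nat_lit 0) (nat_lit 0) (.e false (nat_lit 2) (nat_lit 21) (nat_lit 5) (nat_lit 5) (.e true (nat_lit 2) (nat_lit 22) (nat_lit 5) (nat_lit 5) (.e true (nat_lit 2) (nat_lit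 23) (nat_lit 5) (nat_lit 5) (.e true (nat_lit 2) (nat_lit 53) (nat_lit 2) (nat_lit 8) (.e true (nat_lit 2) (nat_lit 65) (nat_lit 0) (nat_lit 10) (.e false (nat_lit 2) (nat_lit 66) (nat_lit 0) (nat_lit 10) (.e true (nat_lit 2) (nat_lit 27) (nat_lit 4) (nat_lit 6) (.e true (nat_lit 2) (nat_lit 68) (nat_lit 0) (nat_lit 10) (.e true (nat_lit 4) (nat_lit 69) (nat_lit 0) (nat_lit 10) (.e false (nat_lit 2) (nat_lit 71) (nat_lit 0) (nat_lit 10) (.e false (nat_lit 2) (nat_lit 72) (nat_lit 0) (nat_lit 10) (.e false (nat_lit 2) (nat_lit 61) (nat_lit 1) (nat_lit 9) (.e true (nat_lit 2) (nat_lit 64) (nat_lit 1) (nat_lit 9) (.e true (nat_lit 4) (nat_lit 73) (nat_lit 0) (nat_lit 10) (.e false (nat_lit 2) (nat_lit 70) (nat_lit 0) (nat_lit 10) .nil)))))))))))))))))))) .leaf)) (nat_lit 52226) (nat_lit 149) (.p (nat_lit 99) (nat_lit 2) .z) .df (.nd (.nd .leaf (nat_lit 53250) (nat_lit 150) (.p (nat_lit 100)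 (nat_lit 2) .z) .df .leaf) (nat_lit 54274) (nat_lit 151) (.p (nat_lit 101) (nat_lit 2) .z) .df (.nd .leaf (nat_lit 55297) (nat_lit 152) (.p (nat_lit 102) (nat_lit 2) .z) .df .leaf))))))

noncomputable def dF6ss_t4 : Tr := (.nd (.nd (.nd (.nd (.nd (.nd (.nd .leaf (nat_lit 56321) (nat_lit 153) (.p (nat_lit 103) (nat_lit 2) .z) .df .leaf) (nat_lit 56322) (nat_lit 201) (.p (nat_lit 122) (nat_lit 2) .z) .df .leaf) (nat_lit 57345) (nat_lit 154) (.p (nat_lit 104) (nat_lit 2) .z) .df (.nd .leaf (nat_lit 57346) (nat_lit 228) (.p (nat_lit 123) (nat_lit 1) (.n (nat_lit 124) (nat_lit 1) (.p (nat_lit 125) (nat_lit 1) (.n (nat_lit 126) (nat_lit 1) (.p (nat_lit 127) (nat_lit 2) (.p (nat_lit 128) (nat_lit 2) (.n (nat_lit 129) (nat_lit 1) (.p (nat_lit 131) (nat_lit 4) (.p (nat_lit 132) (nat_lit 5) (.p (nat_lit 133) (nat_lit 1) (.p (nat_lit 134) (nat_lit 1) (.n (nat_lit 135) (nat_lit 4) (.n (nat_lit 136)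 (nat_lit 5) (.p (nat_lit 137) (nat_lit 6) (.p (nat_lit 138) (nat_lit 1) (.p (nat_lit 139) (nat_lit 4) (.p (nat_lit 141) (nat_lit 3) .z))))))))))))))))) (.ct dF6ss_c531 (nat_lit 192) (nat_lit 7) (.s false (nat_lit 48) (nat_lit 5) (nat_lit 0) (nat_lit 4) (nat_lit 2) true (nat_lit 5) true (nat_lit 7) true (nat_lit 4) true (nat_lit 9) true (nat_lit 5) (.s false (nat_lit 48) (nat_lit 5) (nat_lit 4) (nat_lit 0) (nat_lit 2) false (nat_lit 0) true (nat_lit 7) true (nat_lit 4) true (nat_lit 5) true (nat_lit 9) (.s true (nat_lit 48) (nat_lit 12) (nat_lit 2) (nat_lit 0) (nat_lit 2) true (nat_lit 3) true (nat_lit 7) true (nat_lit 0) true (nat_lit 7) true (nat_lit 9) (.i false (nat_lit 1) (nat_lit 2) (.c (nat_lit 2) (nat_lit 1) (.c (nat_lit 2) (nat_lit 1) (.c (nat_lit 2) (nat_lit 1) (.c (nat_lit 1) (nat_lit 16) (.c (nat_lit 0) (nat_lit 256) (.c (nat_lit 0) (nat_lit 256) .nil)))))) (.e false (nat_lit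 96) (nat_lit 36) (nat_lit 4) (nat_lit 5) (.e false (nat_lit 96) (nat_lit 59) (nat_lit 2) (nat_lit 7) (.e false (nat_lit 96) (nat_lit 60) (nat_lit 2) (nat_lit 7) (.e true (nat_lit 96) (nat_lit 63) (nat_lit 2) (nat_lit 7) (.e false (nat_lit 288) (nat_lit 64) (nat_lit 2) (nat_lit 7) (.e true (nat_lit 96) (nat_lit 82) (nat_lit 0) (nat_lit 9) (.e true (nat_lit 192) (nat_lit 84) (nat_lit 0) (nat_lit 9) (.e false (nat_lit 288) (nat_lit 88) (nat_lit 0) (nat_lit 9) (.e false (nat_lit 96) (nat_lit 23) (nat_lit 6) (nat_lit 3) (.e true (nat_lit 96) (nat_lit 61) (nat_lit 2) (nat_lit 7) (.e false (nat_lit 96) (nat_lit 83) (nat_lit 0) (nat_lit 9) (.e false (nat_lit 672) (nat_lit 86) (nat_lit 0) (nat_lit 9) (.e false (nat_lit 288) (nat_lit 90) (nat_lit 0) (nat_lit 9) (.e false (nat_lit 288) (nat_lit 81) (nat_lit 0) (nat_lit 9) (.e true (nat_lit 288) (nat_lit 85) (nat_lit 0) (nat_lit 9) .nil))))))))))))))))))))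 .leaf)) (nat_lit 58369) (nat_lit 187) (.p (nat_lit 98) (nat_lit 2) (.p (nat_lit 104) (nat_lit 2) (.n (nat_lit 105) (nat_lit 2) (.n (nat_lit 106) (nat_lit 2) (.n (nat_lit 107) (nat_lit 2) (.p (nat_lit 108) (nat_lit 2) (.n (nat_lit 109) (nat_lit 2) (.p (nat_lit 119) (nat_lit 2) .z)))))))) (.ct dF6ss_c546 (nat_lit 2) (nat_lit 9) (.s false (nat_lit 1) (nat_lit 9) (nat_lit 1) (nat_lit 1) (nat_lit 2) true (nat_lit 5) true (nat_lit 8) true (nat_lit 1) true (nat_lit 9) true (nat_lit 9) (.e false (nat_lit 2) (nat_lit 21) (nat_lit 5) (nat_lit 5) (.e false (nat_lit 2) (nat_lit 48) (nat_lit 2) (nat_lit 8) (.e false (nat_lit 2) (nat_lit 56) (nat_lit 1) (nat_lit 9) (.e true (nat_lit 2) (nat_lit 59) (nat_lit 1) (nat_lit 9) (.e true (nat_lit 2) (nat_lit 60) (nat_lit 1) (nat_lit 9) (.e true (nat_lit 2) (nat_lit 61) (nat_lit 1) (nat_lit 9) (.e false (nat_lit 2) (nat_lit 63) (nat_lit 1) (nat_lit 9) (.e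 true (nat_lit 2) (nat_lit 64) (nat_lit 1) (nat_lit 9) .nil)))))))))) (.nd (.nd (.nd .leaf (nat_lit 58370) (nat_lit 230) (.p (nat_lit 122) (nat_lit 2) (.p (nat_lit 123) (nat_lit 2) (.n (nat_lit 124) (nat_lit 1) (.n (nat_lit 125) (nat_lit 3) (.n (nat_lit 126) (nat_lit 1) (.n (nat_lit 127) (nat_lit 2) (.n (nat_lit 129) (nat_lit 2) (.p (nat_lit 130) (nat_lit 1) (.p (nat_lit 131) (nat_lit 2) (.p (nat_lit 132) (nat_lit 2) (.p (nat_lit 133) (nat_lit 7) (.n (nat_lit 134) (nat_lit 3) (.p (nat_lit 135) (nat_lit 3) (.n (nat_lit 136) (nat_lit 2) (.p (nat_lit 137) (nat_lit 1) (.p (nat_lit 138) (nat_lit 1) (.n (nat_lit 139) (nat_lit 2) (.n (nat_lit 140) (nat_lit 3) (.n (nat_lit 141) (nat_lit 2) .z))))))))))))))))))) (.ct dF6ss_c531 (nat_lit 2) (nat_lit 7) (.s true (nat_lit 1) (nat_lit 5) (nat_lit 0) (nat_lit 4) (nat_lit 2) true (nat_lit 5) true (nat_lit 7) true (nat_lit 4) true (nat_lit 9) true (nat_lit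 5) (.s true (nat_lit 1) (nat_lit 9) (nat_lit 1) (nat_lit 2) (nat_lit 2) true (nat_lit 4) true (nat_lit 7) true (nat_lit 1) true (nat_lit 8) true (nat_lit 7) (.s true (nat_lit 1) (nat_lit 16) (nat_lit 0) (nat_lit 2) (nat_lit 0) false (nat_lit 10) true (nat_lit 9) false (nat_lit 1) true (nat_lit 9) true (nat_lit 7) (.e false (nat_lit 2) (nat_lit 31) (nat_lit 4) (nat_lit 5) (.e false (nat_lit 2) (nat_lit 32) (nat_lit 4) (nat_lit 5) (.e true (nat_lit 2) (nat_lit 35) (nat_lit 4) (nat_lit 5) (.e false (nat_lit 2) (nat_lit 56) (nat_lit 2) (nat_lit 7) (.e true (nat_lit 2) (nat_lit 59) (nat_lit 2) (nat_lit 7) (.e true (nat_lit 2) (nat_lit 60) (nat_lit 2) (nat_lit 7) (.e false (nat_lit 2) (nat_lit 63) (nat_lit 2) (nat_lit 7) (.e true (nat_lit 2) (nat_lit 64) (nat_lit 2) (nat_lit 7) (.e true (nat_lit 2) (nat_lit 54) (nat_lit 2) (nat_lit 7) (.e true (nat_lit 2) (nat_lit 77) (nat_lit 1) (nat_lit 8)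 (.e false (nat_lit 4) (nat_lit 79) (nat_lit 1) (nat_lit 8) (.e false (nat_lit 2) (nat_lit 80) (nat_lit 1) (nat_lit 8) (.e true (nat_lit 2) (nat_lit 86) (nat_lit 0) (nat_lit 9) (.e false (nat_lit 2) (nat_lit 82) (nat_lit 0) (nat_lit 9) (.e false (nat_lit 2) (nat_lit 84) (nat_lit 0) (nat_lit 9) (.e true (nat_lit 2) (nat_lit 87) (nat_lit 0) (nat_lit 9) (.e true (nat_lit 2) (nat_lit 88) (nat_lit 0) (nat_lit 9) .nil))))))))))))))))))))) .leaf) (nat_lit 59393) (nat_lit 183) (.n (nat_lit 97) (nat_lit 10) (.p (nat_lit 98) (nat_lit 4) (.p (nat_lit 99) (nat_lit 16) (.n (nat_lit 100) (nat_lit 8) (.p (nat_lit 101) (nat_lit 14) (.n (nat_lit 102) (nat_lit 10) (.p (nat_lit 103) (nat_lit 12) (.p (nat_lit 104) (nat_lit 6) (.p (nat_lit 105) (nat_lit 2) (.p (nat_lit 106) (nat_lit 6) (.p (nat_lit 107) (nat_lit 2) (.p (nat_lit 109) (nat_lit 10) (.p (nat_lit 110) (nat_lit 6) (.p (nat_lit 111) (nat_lit 8) (.n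 (nat_lit 112) (nat_lit 8) (.n (nat_lit 113) (nat_lit 12) (.n (nat_lit 114) (nat_lit 14) (.p (nat_lit 115) (nat_lit 6) (.p (nat_lit 116) (nat_lit 2) (.n (nat_lit 117) (nat_lit 2) (.n (nat_lit 118) (nat_lit 4) (.p (nat_lit 119) (nat_lit 8) (.n (nat_lit 120) (nat_lit 4) (.p (nat_lit 121) (nat_lit 8) .z)))))))))))))))))))))))) (.ct dF6ss_c546 (nat_lit 2) (nat_lit 9) (.s false (nat_lit 1) (nat_lit 8) (nat_lit 2) (nat_lit 2) (nat_lit 0) true (nat_lit 6) true (nat_lit 10) true (nat_lit 2) true (nat_lit 8) true (nat_lit 8) (.s true (nat_lit 1) (nat_lit 15) (nat_lit 0) (nat_lit 1) (nat_lit 1) true (nat_lit 7) true (nat_lit 9) false (nat_lit 2) true (nat_lit 10) true (nat_lit 9) (.s true (nat_lit 1) (nat_lit 15) (nat_lit 1) (nat_lit 1) (nat_lit 0) true (nat_lit 7) true (nat_lit 10) false (nat_lit 2) true (nat_lit 9) true (nat_lit 9) (.e false (nat_lit 2) (nat_lit 24) (nat_lit 4) (nat_lit 6) (.e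 false (nat_lit 2) (nat_lit 65) (nat_lit 0) (nat_lit 10) (.e true (nat_lit 2) (nat_lit 47) (nat_lit 2) (nat_lit 8) (.e false (nat_lit 2) (nat_lit 51) (nat_lit 2) (nat_lit 8) (.e false (nat_lit 2) (nat_lit 53) (nat_lit 2) (nat_lit 8) (.e true (nat_lit 2) (nat_lit 46) (nat_lit 2) (nat_lit 8) (.e false (nat_lit 4) (nat_lit 63) (nat_lit 1) (nat_lit 9) (.e true (nat_lit 2) (nat_lit 72) (nat_lit 0) (nat_lit 10) (.e true (nat_lit 4) (nat_lit 59) (nat_lit 1) (nat_lit 9) (.e false (nat_lit 4) (nat_lit 62) (nat_lit 1) (nat_lit 9) (.e true (nat_lit 4) (nat_lit 64) (nat_lit 1) (nat_lit 9) .nil))))))))))))))) .leaf) (nat_lit 59394) (nat_lit 202) (.p (nat_lit 123) (nat_lit 2) .z) .df (.nd .leaf (nat_lit 60417) (nat_lit 155) (.p (nat_lit 105) (nat_lit 2) .z) .df .leaf))) (nat_lit 60418) (nat_lit 203) (.p (nat_lit 124) (nat_lit 2) .z) .df (.nd (.nd (.nd (.nd .leaf (nat_lit 61441) (nat_lit 156) (.p (nat_lit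 106) (nat_lit 2) .z) .df .leaf) (nat_lit 61442) (nat_lit 204) (.p (nat_lit 125) (nat_lit 2) .z) .df .leaf) (nat_lit 62465) (nat_lit 157) (.p (nat_lit 107) (nat_lit 2) .z) .df (.nd .leaf (nat_lit 62466) (nat_lit 205) (.p (nat_lit 126) (nat_lit 2) .z) .df .leaf)) (nat_lit 63489) (nat_lit 177) (.n (nat_lit 97) (nat_lit 2) (.p (nat_lit 99) (nat_lit 8) (.p (nat_lit 101) (nat_lit 2) (.n (nat_lit 102) (nat_lit 2) (.p (nat_lit 103) (nat_lit 4) (.p (nat_lit 104) (nat_lit 2) (.n (nat_lit 106) (nat_lit 2) (.p (nat_lit 107) (nat_lit 2) (.p (nat_lit 108) (nat_lit 2) (.p (nat_lit 110) (nat_lit 6) (.n (nat_lit 113) (nat_lit 10) (.n (nat_lit 114) (nat_lit 12) (.p (nat_lit 115) (nat_lit 12) (.p (nat_lit 116) (nat_lit 4) (.p (nat_lit 117) (nat_lit 2) (.n (nat_lit 118) (nat_lit 6) (.p (nat_lit 121) (nat_lit 8) .z))))))))))))))))) (.ct dF6ss_c546 (nat_lit 2) (nat_lit 9) (.s true (nat_lit 1) (nat_lit 4) (nat_lit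 1) (nat_lit 1) (nat_lit 4) true (nat_lit 0) true (nat_lit 6) true (nat_lit 6) true (nat_lit 9) true (nat_lit 9) (.s false (nat_lit 1) (nat_lit 4) (nat_lit 1) (nat_lit 3) (nat_lit 2) true (nat_lit 5) true (nat_lit 8) true (nat_lit 6) true (nat_lit 9) true (nat_lit 7) (.s true (nat_lit 1) (nat_lit 7) (nat_lit 1) (nat_lit 2) (nat_lit 2) true (nat_lit 5) true (nat_lit 8) true (nat_lit 3) true (nat_lit 9) true (nat_lit 8) (.s true (nat_lit 1) (nat_lit 8) (nat_lit 2) (nat_lit 2) (nat_lit 0) true (nat_lit 6) true (nat_lit 10) true (nat_lit 2) true (nat_lit 8) true (nat_lit 8) (.s true (nat_lit 1) (nat_lit 11) (nat_lit 2) (nat_lit 0) (nat_lit 1) true (nat_lit 5) true (nat_lit 9) true (nat_lit 0) true (nat_lit 8) true (nat_lit 10) (.s false (nat_lit 1) (nat_lit 15) (nat_lit 0) (nat_lit 1) (nat_lit 1) true (nat_lit 7) true (nat_lit 9) false (nat_lit 2) true (nat_lit 10) true (nat_lit 9) (.s true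 (nat_lit 1) (nat_lit 14) (nat_lit 1) (nat_lit 1) (nat_lit 0) true (nat_lit 7) true (nat_lit 10) false (nat_lit 2) true (nat_lit 9) true (nat_lit 9) (.s false (nat_lit 1) (nat_lit 15) (nat_lit 1) (nat_lit 1) (nat_lit 0) true (nat_lit 7) true (nat_lit 10) false (nat_lit 2) true (nat_lit 9) true (nat_lit 9) (.s true (nat_lit 1) (nat_lit 16) (nat_lit 0) (nat_lit 1) (nat_lit 0) false (nat_lit 11) true (nat_lit 10) false (nat_lit 3) true (nat_lit 10) true (nat_lit 9) (.e true (nat_lit 2) (nat_lit 26) (nat_lit 4) (nat_lit 6) (.e false (nat_lit 4) (nat_lit 59) (nat_lit 1) (nat_lit 9) (.e false (nat_lit 2) (nat_lit 60) (nat_lit 1) (nat_lit 9) (.e true (nat_lit 2) (nat_lit 63) (nat_lit 1) (nat_lit 9) (.e false (nat_lit 6) (nat_lit 64) (nat_lit 1) (nat_lit 9) (.e true (nat_lit 2) (nat_lit 61) (nat_lit 1) (nat_lit 9) (.e false (nat_lit 2) (nat_lit 23) (nat_lit 5) (nat_lit 5) (.e true (nat_lit 2)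 (nat_lit 51) (nat_lit 2) (nat_lit 8) (.e true (nat_lit 2) (nat_lit 53) (nat_lit 2) (nat_lit 8) (.e false (nat_lit 2) (nat_lit 66) (nat_lit 0) (nat_lit 10) (.e true (nat_lit 4) (nat_lit 71) (nat_lit 0) (nat_lit 10) (.e true (nat_lit 2) (nat_lit 56) (nat_lit 1) (nat_lit 9) (.e false (nat_lit 2) (nat_lit 72) (nat_lit 0) (nat_lit 10) .nil))))))))))))))))))))))) (.nd (.nd .leaf (nat_lit 63490) (nat_lit 206) (.p (nat_lit 127) (nat_lit 2) .z) .df .leaf) (nat_lit 64513) (nat_lit 158) (.p (nat_lit 108) (nat_lit 2) .z) .df (.nd .leaf (nat_lit 64514) (nat_lit 207) (.p (nat_lit 128) (nat_lit 2) .z) .df .leaf)))) (nat_lit 65537) (nat_lit 159) (.p (nat_lit 109) (nat_lit 2) .z) .df (.nd (.nd (.nd (.nd (.nd .leaf (nat_lit 65538) (nat_lit 222) (.n (nat_lit 124) (nat_lit 2) (.p (nat_lit 127) (nat_lit 2) (.p (nat_lit 128) (nat_lit 2) (.p (nat_lit 131) (nat_lit 2) (.p (nat_lit 132) (nat_lit 2) (.n (nat_lit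 135) (nat_lit 2) (.n (nat_lit 136) (nat_lit 2) (.p (nat_lit 137) (nat_lit 2) (.p (nat_lit 139) (nat_lit 2) (.p (nat_lit 141) (nat_lit 2) .z)))))))))) (.ct dF6ss_c531 (nat_lit 4) (nat_lit 7) (.s true (nat_lit 1) (nat_lit 6) (nat_lit 0) (nat_lit 0) (nat_lit 5) true (nat_lit 0) true (nat_lit 4) true (nat_lit 3) true (nat_lit 9) true (nat_lit 9) (.s true (nat_lit 1) (nat_lit 15) (nat_lit 0) (nat_lit 2) (nat_lit 1) true (nat_lit 6) true (nat_lit 8) false (nat_lit 0) true (nat_lit 9) true (nat_lit 7) (.s true (nat_lit 1) (nat_lit 15) (nat_lit 1) (nat_lit 2) (nat_lit 0) true (nat_lit 6) true (nat_lit 9) false (nat_lit 0) true (nat_lit 8) true (nat_lit 7) (.s true (nat_lit 1) (nat_lit 15) (nat_lit 2) (nat_lit 0) (nat_lit 1) true (nat_lit 4) true (nat_lit 8) false (nat_lit 0) true (nat_lit 7) true (nat_lit 9) (.s true (nat_lit 2) (nat_lit 15) (nat_lit 2) (nat_lit 1) (nat_lit 0) true (nat_lit 5)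 true (nat_lit 9) false (nat_lit 0) true (nat_lit 7) true (nat_lit 8) (.e true (nat_lit 4) (nat_lit 84) (nat_lit 0) (nat_lit 9) (.e true (nat_lit 4) (nat_lit 85) (nat_lit 0) (nat_lit 9) (.e false (nat_lit 4) (nat_lit 86) (nat_lit 0) (nat_lit 9) (.e false (nat_lit 4) (nat_lit 88) (nat_lit 0) (nat_lit 9) (.e false (nat_lit 4) (nat_lit 81) (nat_lit 0) (nat_lit 9) (.e false (nat_lit 4) (nat_lit 63) (nat_lit 2) (nat_lit 7) (.e false (nat_lit 4) (nat_lit 80) (nat_lit 1) (nat_lit 8) (.e true (nat_lit 4) (nat_lit 59) (nat_lit 2) (nat_lit 7) (.e false (nat_lit 4) (nat_lit 62) (nat_lit 2) (nat_lit 7) (.e false (nat_lit 4) (nat_lit 35) (nat_lit 4) (nat_lit 5) .nil)))))))))))))))) .leaf) (nat_lit 66560) (nat_lit 160) (.p (nat_lit 110) (nat_lit 2) .z) .df .leaf) (nat_lit 66562) (nat_lit 252) (.p (nat_lit 142) (nat_lit 2) .z) .df (.nd .leaf (nat_lit 67584) (nat_lit 161) (.p (nat_lit 111) (nat_lit 2)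 .z) .df .leaf)) (nat_lit 67586) (nat_lit 253) (.p (nat_lit 143) (nat_lit 2) .z) .df (.nd (.nd (.nd .leaf (nat_lit 68608) (nat_lit 162) (.p (nat_lit 112) (nat_lit 2) .z) .df .leaf) (nat_lit 68610) (nat_lit 279) (.n (nat_lit 142) (nat_lit 3) (.p (nat_lit 143) (nat_lit 1) (.p (nat_lit 144) (nat_lit 1) (.p (nat_lit 145) (nat_lit 1) (.n (nat_lit 146) (nat_lit 1) (.p (nat_lit 147) (nat_lit 2) (.n (nat_lit 148) (nat_lit 1) (.n (nat_lit 149) (nat_lit 1) (.p (nat_lit 151) (nat_lit 1) (.n (nat_lit 155) (nat_lit 1) (.p (nat_lit 157) (nat_lit 1) (.p (nat_lit 158) (nat_lit 1) (.n (nat_lit 159) (nat_lit 1) (.n (nat_lit 160) (nat_lit 1) (.p (nat_lit 161) (nat_lit 1) .z))))))))))))))) (.ct dF6ss_c291 (nat_lit 4) (nat_lit 7) (.s false (nat_lit 1) (nat_lit 5) (nat_lit 0) (nat_lit 2) (nat_lit 5) true (nat_lit 1) true (nat_lit 4) true (nat_lit 4) true (nat_lit 9) true (nat_lit 7) (.s false (nat_lit 1) (nat_lit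 5) (nat_lit 1) (nat_lit 4) (nat_lit 2) true (nat_lit 4) true (nat_lit 7) true (nat_lit 4) true (nat_lit 8) true (nat_lit 5) (.s false (nat_lit 1) (nat_lit 16) (nat_lit 2) (nat_lit 1) (nat_lit 0) true (nat_lit 5) true (nat_lit 9) false (nat_lit 1) true (nat_lit 7) true (nat_lit 8) (.e false (nat_lit 2) (nat_lit 33) (nat_lit 5) (nat_lit 4) (.e true (nat_lit 2) (nat_lit 32) (nat_lit 5) (nat_lit 4) (.e false (nat_lit 2) (nat_lit 92) (nat_lit 0) (nat_lit 9) (.e true (nat_lit 2) (nat_lit 96) (nat_lit 0) (nat_lit 9) (.e true (nat_lit 6) (nat_lit 65) (nat_lit 2) (nat_lit 7) (.e false (nat_lit 2) (nat_lit 68) (nat_lit 2) (nat_lit 7) (.e false (nat_lit 2) (nat_lit 69) (nat_lit 2) (nat_lit 7) (.e true (nat_lit 2) (nat_lit 70) (nat_lit 2) (nat_lit 7) (.e false (nat_lit 4) (nat_lit 71) (nat_lit 2) (nat_lit 7) (.e true (nat_lit 2) (nat_lit 72) (nat_lit 2) (nat_lit 7) (.e true (nat_lit 2) (nat_lit 73)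 (nat_lit 2) (nat_lit 7) (.e false (nat_lit 2) (nat_lit 75) (nat_lit 2) (nat_lit 7) (.e false (nat_lit 2) (nat_lit 66) (nat_lit 2) (nat_lit 7) (.e false (nat_lit 2) (nat_lit 91) (nat_lit 1) (nat_lit 8) (.e true (nat_lit 2) (nat_lit 86) (nat_lit 1) (nat_lit 8) .nil))))))))))))))))))) .leaf) (nat_lit 69632) (nat_lit 163) (.p (nat_lit 113) (nat_lit 2) .z) .df (.nd .leaf (nat_lit 69634) (nat_lit 254) (.p (nat_lit 144) (nat_lit 2) .z) .df .leaf))) (nat_lit 70656) (nat_lit 164) (.p (nat_lit 114) (nat_lit 2) .z) .df (.nd (.nd (.nd (.nd .leaf (nat_lit 70658) (nat_lit 255) (.p (nat_lit 145) (nat_lit 2) .z) .df .leaf) (nat_lit 71680) (nat_lit 165) (.p (nat_lit 115) (nat_lit 2) .z) .df .leaf) (nat_lit 71682) (nat_lit 256) (.p (nat_lit 146) (nat_lit 2) .z) .df (.nd .leaf (nat_lit 72704) (nat_lit 174) (.p (nat_lit 97) (nat_lit 2) (.n (nat_lit 99) (nat_lit 4) (.n (nat_lit 101) (nat_lit 2) (.p (nat_lit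 102) (nat_lit 2) (.n (nat_lit 103) (nat_lit 4) (.n (nat_lit 104) (nat_lit 2) (.p (nat_lit 105) (nat_lit 2) (.p (nat_lit 106) (nat_lit 2) (.n (nat_lit 107) (nat_lit 2) (.n (nat_lit 108) (nat_lit 2) (.p (nat_lit 109) (nat_lit 2) (.n (nat_lit 110) (nat_lit 2) (.p (nat_lit 113) (nat_lit 4) (.p (nat_lit 114) (nat_lit 4) (.n (nat_lit 115) (nat_lit 4) (.p (nat_lit 118) (nat_lit 2) (.n (nat_lit 121) (nat_lit 4) .z))))))))))))))))) (.ct dF6ss_c546 (nat_lit 2) (nat_lit 10) (.s true (nat_lit 1) (nat_lit 8) (nat_lit 0) (nat_lit 2) (nat_lit 2) true (nat_lit 6) true (nat_lit 8) true (nat_lit 2) true (nat_lit 10) true (nat_lit 8) (.s true (nat_lit 1) (nat_lit 8) (nat_lit 2) (nat_lit 2) (nat_lit 0) true (nat_lit 6) true (nat_lit 10) true (nat_lit 2) true (nat_lit 8) true (nat_lit 8) (.s false (nat_lit 1) (nat_lit 15) (nat_lit 0) (nat_lit 1) (nat_lit 1) true (nat_lit 7) true (nat_lit 9) false (nat_lit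 2) true (nat_lit 10) true (nat_lit 9) (.s false (nat_lit 1) (nat_lit 14) (nat_lit 1) (nat_lit 0) (nat_lit 1) false (nat_lit 12) true (nat_lit 9) false (nat_lit 2) true (nat_lit 9) true (nat_lit 10) (.s false (nat_lit 1) (nat_lit 15) (nat_lit 1) (nat_lit 1) (nat_lit 0) true (nat_lit 7) true (nat_lit 10) false (nat_lit 2) true (nat_lit 9) true (nat_lit 9) (.e true (nat_lit 4) (nat_lit 24) (nat_lit 4) (nat_lit 6) (.e false (nat_lit 4) (nat_lit 68) (nat_lit 0) (nat_lit 10) (.e false (nat_lit 4) (nat_lit 69) (nat_lit 0) (nat_lit 10) (.e true (nat_lit 4) (nat_lit 70) (nat_lit 0) (nat_lit 10) (.e false (nat_lit 2) (nat_lit 75) (nat_lit 0) (nat_lit 10) (.e true (nat_lit 4) (nat_lit 51) (nat_lit 2) (nat_lit 8) (.e true (nat_lit 2) (nat_lit 65) (nat_lit 0) (nat_lit 10) (.e false (nat_lit 2) (nat_lit 47) (nat_lit 2) (nat_lit 8) (.e true (nat_lit 2) (nat_lit 53) (nat_lit 2) (nat_lit 8) (.e true (nat_lit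 2) (nat_lit 63) (nat_lit 1) (nat_lit 9) (.e false (nat_lit 2) (nat_lit 54) (nat_lit 1) (nat_lit 9) (.e true (nat_lit 4) (nat_lit 55) (nat_lit 1) (nat_lit 9) (.e true (nat_lit 2) (nat_lit 56) (nat_lit 1) (nat_lit 9) (.e false (nat_lit 2) (nat_lit 59) (nat_lit 1) (nat_lit 9) (.e false (nat_lit 2) (nat_lit 60) (nat_lit 1) (nat_lit 9) (.e true (nat_lit 2) (nat_lit 61) (nat_lit 1) (nat_lit 9) (.e false (nat_lit 2) (nat_lit 64) (nat_lit 1) (nat_lit 9) .nil))))))))))))))))))))))) .leaf)) (nat_lit 72706) (nat_lit 257) (.p (nat_lit 147) (nat_lit 2) .z) .df (.nd (.nd .leaf (nat_lit 73728) (nat_lit 166) (.p (nat_lit 116) (nat_lit 2) .z) .df .leaf) (nat_lit 73730) (nat_lit 258) (.p (nat_lit 148) (nat_lit 2) .z) .df (.nd .leaf (nat_lit 74752) (nat_lit 167) (.p (nat_lit 117) (nat_lit 2) .z) .df .leaf))))) (nat_lit 74754) (nat_lit 259) (.p (nat_lit 149) (nat_lit 2) .z) .df (.nd (.nd (.nd (.nd (.nd (.nd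 .leaf (nat_lit 75776) (nat_lit 191) (.n (nat_lit 97) (nat_lit 2) (.p (nat_lit 99) (nat_lit 6) (.p (nat_lit 100) (nat_lit 4) (.n (nat_lit 102) (nat_lit 2) (.p (nat_lit 103) (nat_lit 4) (.p (nat_lit 104) (nat_lit 2) (.n (nat_lit 105) (nat_lit 6) (.n (nat_lit 106) (nat_lit 6) (.p (nat_lit 107) (nat_lit 2) (.p (nat_lit 108) (nat_lit 6) (.n (nat_lit 109) (nat_lit 8) (.p (nat_lit 110) (nat_lit 12) (.n (nat_lit 111) (nat_lit 4) (.p (nat_lit 112) (nat_lit 8) (.n (nat_lit 113) (nat_lit 14) (.n (nat_lit 114) (nat_lit 16) (.p (nat_lit 115) (nat_lit 16) (.p (nat_lit 116) (nat_lit 6) (.p (nat_lit 117) (nat_lit 2) (.n (nat_lit 118) (nat_lit 8) (.n (nat_lit 119) (nat_lit 2) (.p (nat_lit 120) (nat_lit 2) (.p (nat_lit 121) (nat_lit 10) .z))))))))))))))))))))))) (.ct dF6ss_c546 (nat_lit 2) (nat_lit 10) (.s true (nat_lit 1) (nat_lit 16) (nat_lit 0) (nat_lit 0) (nat_lit 1) true (nat_lit 7) true (nat_lit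 9) false (nat_lit 3) true (nat_lit 10) true (nat_lit 10) (.e true (nat_lit 2) (nat_lit 36) (nat_lit 3) (nat_lit 7) (.e true (nat_lit 2) (nat_lit 64) (nat_lit 1) (nat_lit 9) (.e false (nat_lit 2) (nat_lit 65) (nat_lit 0) (nat_lit 10) (.e true (nat_lit 4) (nat_lit 73) (nat_lit 0) (nat_lit 10) (.e false (nat_lit 4) (nat_lit 67) (nat_lit 0) (nat_lit 10) (.e true (nat_lit 4) (nat_lit 68) (nat_lit 0) (nat_lit 10) (.e true (nat_lit 6) (nat_lit 69) (nat_lit 0) (nat_lit 10) (.e false (nat_lit 2) (nat_lit 70) (nat_lit 0) (nat_lit 10) (.e false (nat_lit 4) (nat_lit 72) (nat_lit 0) (nat_lit 10) .nil))))))))))) .leaf) (nat_lit 75778) (nat_lit 260) (.p (nat_lit 150) (nat_lit 2) .z) .df .leaf) (nat_lit 76800) (nat_lit 168) (.p (nat_lit 118) (nat_lit 2) .z) .df (.nd .leaf (nat_lit 76802) (nat_lit 261) (.p (nat_lit 151) (nat_lit 2) .z) .df .leaf)) (nat_lit 77825) (nat_lit 231) (.n (nat_lit 122) (nat_lit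 2) (.n (nat_lit 123) (nat_lit 1) (.n (nat_lit 128) (nat_lit 2) (.n (nat_lit 129) (nat_lit 1) (.p (nat_lit 130) (nat_lit 3) (.p (nat_lit 131) (nat_lit 2) (.n (nat_lit 132) (nat_lit 6) (.p (nat_lit 133) (nat_lit 2) (.n (nat_lit 134) (nat_lit 2) (.p (nat_lit 135) (nat_lit 8) (.p (nat_lit 136) (nat_lit 4) (.n (nat_lit 137) (nat_lit 10) (.n (nat_lit 138) (nat_lit 1) (.n (nat_lit 139) (nat_lit 6) (.n (nat_lit 140) (nat_lit 2) (.n (nat_lit 141) (nat_lit 3) .z)))))))))))))))) (.ct dF6ss_c531 (nat_lit 192) (nat_lit 8) (.s true (nat_lit 96) (nat_lit 9) (nat_lit 2) (nat_lit 1) (nat_lit 2) true (nat_lit 3) true (nat_lit 7) true (nat_lit 1) true (nat_lit 7) true (nat_lit 8) (.s false (nat_lit 96) (nat_lit 16) (nat_lit 0) (nat_lit 2) (nat_lit 0) false (nat_lit 10) true (nat_lit 9) false (nat_lit 1) true (nat_lit 9) true (nat_lit 7) (.i true (nat_lit 1) (nat_lit 2) (.c (nat_lit 2) (nat_lit 1) (.c (nat_lit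 2) (nat_lit 1) (.c (nat_lit 2) (nat_lit 1) (.c (nat_lit 1) (nat_lit 16) (.c (nat_lit 0) (nat_lit 256) (.c (nat_lit 0) (nat_lit 256) .nil)))))) (.e false (nat_lit 192) (nat_lit 21) (nat_lit 6) (nat_lit 3) (.e true (nat_lit 192) (nat_lit 57) (nat_lit 2) (nat_lit 7) (.e false (nat_lit 192) (nat_lit 56) (nat_lit 2) (nat_lit 7) (.e true (nat_lit 192) (nat_lit 59) (nat_lit 2) (nat_lit 7) (.e true (nat_lit 192) (nat_lit 60) (nat_lit 2) (nat_lit 7) (.e true (nat_lit 192) (nat_lit 61) (nat_lit 2) (nat_lit 7) (.e false (nat_lit 192) (nat_lit 63) (nat_lit 2) (nat_lit 7) (.e true (nat_lit 384) (nat_lit 64) (nat_lit 2) (nat_lit 7) (.e true (nat_lit 480) (nat_lit 86) (nat_lit 0) (nat_lit 9) (.e false (nat_lit 96) (nat_lit 84) (nat_lit 0) (nat_lit 9) (.e false (nat_lit 96) (nat_lit 87) (nat_lit 0) (nat_lit 9) (.e true (nat_lit 192) (nat_lit 88) (nat_lit 0) (nat_lit 9) (.e true (nat_lit 192) (nat_lit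 83) (nat_lit 0) (nat_lit 9) (.e true (nat_lit 288) (nat_lit 90) (nat_lit 0) (nat_lit 9) (.e true (nat_lit 288) (nat_lit 81) (nat_lit 0) (nat_lit 9) (.e false (nat_lit 288) (nat_lit 85) (nat_lit 0) (nat_lit 9) .nil)))))))))))))))))))) (.nd (.nd (.nd .leaf (nat_lit 78849) (nat_lit 208) (.p (nat_lit 129) (nat_lit 2) .z) .df .leaf) (nat_lit 79873) (nat_lit 240) (.p (nat_lit 124) (nat_lit 3) (.n (nat_lit 125) (nat_lit 3) (.p (nat_lit 126) (nat_lit 3) (.n (nat_lit 128) (nat_lit 3) (.p (nat_lit 130) (nat_lit 1) (.n (nat_lit 131) (nat_lit 4) (.n (nat_lit 132) (nat_lit 9) (.n (nat_lit 133) (nat_lit 3) (.p (nat_lit 134) (nat_lit 3) (.p (nat_lit 135) (nat_lit 6) (.p (nat_lit 136) (nat_lit 6) (.n (nat_lit 137) (nat_lit 12) (.n (nat_lit 139) (nat_lit 6) (.n (nat_lit 141) (nat_lit 3) .z)))))))))))))) (.ct dF6ss_c531 (nat_lit 2) (nat_lit 8) (.s false (nat_lit 1) (nat_lit 10) (nat_lit 0) (nat_lit 2)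 (nat_lit 2) true (nat_lit 5) true (nat_lit 7) true (nat_lit 0) true (nat_lit 9) true (nat_lit 7) (.s false (nat_lit 1) (nat_lit 14) (nat_lit 0) (nat_lit 1) (nat_lit 2) true (nat_lit 5) true (nat_lit 7) false (nat_lit 0) true (nat_lit 9) true (nat_lit 8) (.e false (nat_lit 2) (nat_lit 31) (nat_lit 4) (nat_lit 5) (.e true (nat_lit 2) (nat_lit 55) (nat_lit 2) (nat_lit 7) (.e true (nat_lit 2) (nat_lit 90) (nat_lit 0) (nat_lit 9) (.e true (nat_lit 2) (nat_lit 59) (nat_lit 2) (nat_lit 7) (.e false (nat_lit 2) (nat_lit 34) (nat_lit 4) (nat_lit 5) (.e false (nat_lit 4) (nat_lit 54) (nat_lit 2) (nat_lit 7) (.e true (nat_lit 2) (nat_lit 57) (nat_lit 2) (nat_lit 7) (.e true (nat_lit 2) (nat_lit 60) (nat_lit 2) (nat_lit 7) (.e true (nat_lit 2) (nat_lit 61) (nat_lit 2) (nat_lit 7) (.e false (nat_lit 2) (nat_lit 62) (nat_lit 2) (nat_lit 7) (.e false (nat_lit 4) (nat_lit 63) (nat_lit 2) (nat_lit 7)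 (.e true (nat_lit 6) (nat_lit 64) (nat_lit 2) (nat_lit 7) (.e false (nat_lit 2) (nat_lit 91) (nat_lit 0) (nat_lit 9) .nil)))))))))))))))) .leaf) (nat_lit 80897) (nat_lit 209) (.p (nat_lit 130) (nat_lit 2) .z) .df (.nd .leaf (nat_lit 81921) (nat_lit 210) (.p (nat_lit 131) (nat_lit 2) .z) .df .leaf))) (nat_lit 82944) (nat_lit 211) (.p (nat_lit 132) (nat_lit 2) .z) .df (.nd (.nd (.nd (.nd .leaf (nat_lit 82945) (nat_lit 273) (.p (nat_lit 143) (nat_lit 2) (.n (nat_lit 144) (nat_lit 2) (.n (nat_lit 145) (nat_lit 2) (.n (nat_lit 146) (nat_lit 2) (.p (nat_lit 148) (nat_lit 4) (.n (nat_lit 149) (nat_lit 4) (.n (nat_lit 150) (nat_lit 2) (.n (nat_lit 152) (nat_lit 2) (.p (nat_lit 153) (nat_lit 2) (.n (nat_lit 154) (nat_lit 2) (.n (nat_lit 156) (nat_lit 2) (.p (nat_lit 157) (nat_lit 2) (.p (nat_lit 158) (nat_lit 2) (.p (nat_lit 160) (nat_lit 4) (.n (nat_lit 161) (nat_lit 4) .z))))))))))))))) (.ct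 dF6ss_c291 (nat_lit 96) (nat_lit 8) (.s false (nat_lit 48) (nat_lit 5) (nat_lit 0) (nat_lit 2) (nat_lit 5) true (nat_lit 1) true (nat_lit 4) true (nat_lit 4) true (nat_lit 9) true (nat_lit 7) (.s false (nat_lit 96) (nat_lit 5) (nat_lit 0) (nat_lit 5) (nat_lit 2) true (nat_lit 5) true (nat_lit 7) true (nat_lit 4) true (nat_lit 9) true (nat_lit 4) (.s false (nat_lit 96) (nat_lit 5) (nat_lit 1) (nat_lit 2) (nat_lit 4) true (nat_lit 1) true (nat_lit 5) true (nat_lit 4) true (nat_lit 8) true (nat_lit 7) (.s false (nat_lit 192) (nat_lit 5) (nat_lit 2) (nat_lit 1) (nat_lit 4) false (nat_lit 0) true (nat_lit 5) true (nat_lit 4) true (nat_lit 7) true (nat_lit 8) (.s false (nat_lit 48) (nat_lit 5) (nat_lit 2) (nat_lit 3) (nat_lit 2) true (nat_lit 3) true (nat_lit 7) true (nat_lit 4) true (nat_lit 7) true (nat_lit 6) (.s true (nat_lit 48) (nat_lit 5) (nat_lit 2) (nat_lit 4) (nat_lit 1) true (nat_lit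 4) true (nat_lit 8) true (nat_lit 4) true (nat_lit 7) true (nat_lit 5) (.s true (nat_lit 48) (nat_lit 6) (nat_lit 1) (nat_lit 2) (nat_lit 3) true (nat_lit 2) true (nat_lit 6) true (nat_lit 3) true (nat_lit 8) true (nat_lit 7) (.s false (nat_lit 96) (nat_lit 6) (nat_lit 1) (nat_lit 4) (nat_lit 1) false (nat_lit 10) true (nat_lit 8) true (nat_lit 3) true (nat_lit 8) true (nat_lit 5) (.s false (nat_lit 48) (nat_lit 6) (nat_lit 5) (nat_lit 1) (nat_lit 0) true (nat_lit 1) true (nat_lit 9) true (nat_lit 3) true (nat_lit 4) true (nat_lit 8) (.s false (nat_lit 48) (nat_lit 10) (nat_lit 1) (nat_lit 2) (nat_lit 2) true (nat_lit 4) true (nat_lit 7) true (nat_lit 1) true (nat_lit 8) true (nat_lit 7) dF6ss_i4))))))))))) .leaf) (nat_lit 83968) (nat_lit 212) (.p (nat_lit 133) (nat_lit 2) .z) .df .leaf) (nat_lit 83969) (nat_lit 262) (.p (nat_lit 152) (nat_lit 2) .z) .df (.nd .leaf (nat_lit 84992) (nat_lit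 213) (.p (nat_lit 134) (nat_lit 2) .z) .df .leaf)) (nat_lit 84993) (nat_lit 263) (.p (nat_lit 153) (nat_lit 2) .z) .df (.nd (.nd .leaf (nat_lit 86016) (nat_lit 214) (.p (nat_lit 135) (nat_lit 2) .z) .df .leaf) (nat_lit 86017) (nat_lit 264) (.p (nat_lit 154) (nat_lit 2) .z) .df (.nd .leaf (nat_lit 87040) (nat_lit 215) (.p (nat_lit 136) (nat_lit 2) .z) .df .leaf)))) (nat_lit 87041) (nat_lit 285) (.p (nat_lit 143) (nat_lit 2) (.n (nat_lit 144) (nat_lit 2) (.n (nat_lit 145) (nat_lit 4) (.n (nat_lit 146) (nat_lit 2) (.p (nat_lit 148) (nat_lit 4) (.n (nat_lit 149) (nat_lit 4) (.n (nat_lit 150) (nat_lit 2) (.p (nat_lit 153) (nat_lit 2) (.p (nat_lit 155) (nat_lit 2) (.n (nat_lit 156) (nat_lit 2) (.p (nat_lit 157) (nat_lit 2) (.p (nat_lit 158) (nat_lit 2) (.p (nat_lit 160) (nat_lit 2) (.n (nat_lit 161) (nat_lit 4) .z)))))))))))))) (.ct dF6ss_c291 (nat_lit 2) (nat_lit 8) (.s false (nat_lit 1) (nat_lit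 5) (nat_lit 1) (nat_lit 4) (nat_lit 2) true (nat_lit 4) true (nat_lit 7) true (nat_lit 4) true (nat_lit 8) true (nat_lit 5) (.s true (nat_lit 1) (nat_lit 5) (nat_lit 2) (nat_lit 1) (nat_lit 4) false (nat_lit 0) true (nat_lit 5) true (nat_lit 4) true (nat_lit 7) true (nat_lit 8) (.s false (nat_lit 1) (nat_lit 14) (nat_lit 1) (nat_lit 2) (nat_lit 1) false (nat_lit 10) true (nat_lit 8) false (nat_lit 0) true (nat_lit 8) true (nat_lit 7) (.e true (nat_lit 2) (nat_lit 32) (nat_lit 5) (nat_lit 4) (.e true (nat_lit 2) (nat_lit 69) (nat_lit 2) (nat_lit 7) (.e false (nat_lit 2) (nat_lit 81) (nat_lit 1) (nat_lit 8) (.e false (nat_lit 2) (nat_lit 82) (nat_lit 1) (nat_lit 8) (.e false (nat_lit 2) (nat_lit 86) (nat_lit 1) (nat_lit 8) (.e false (nat_lit 2) (nat_lit 84) (nat_lit 1) (nat_lit 8) .nil)))))))))) (.nd (.nd (.nd (.nd (.nd .leaf (nat_lit 88064) (nat_lit 216) (.p (nat_lit 137) (nat_lit 2) .z)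 .df .leaf) (nat_lit 88065) (nat_lit 265) (.p (nat_lit 155) (nat_lit 2) .z) .df .leaf) (nat_lit 89088) (nat_lit 217) (.p (nat_lit 138) (nat_lit 2) .z) .df (.nd .leaf (nat_lit 89089) (nat_lit 276) (.p (nat_lit 142) (nat_lit 12) (.n (nat_lit 143) (nat_lit 6) (.n (nat_lit 144) (nat_lit 18) (.n (nat_lit 145) (nat_lit 6) (.p (nat_lit 146) (nat_lit 12) (.n (nat_lit 147) (nat_lit 6) (.n (nat_lit 148) (nat_lit 6) (.p (nat_lit 149) (nat_lit 18) (.p (nat_lit 150) (nat_lit 6) (.n (nat_lit 151) (nat_lit 6) (.p (nat_lit 152) (nat_lit 16) (.n (nat_lit 153) (nat_lit 10) (.p (nat_lit 154) (nat_lit 24) (.n (nat_lit 155) (nat_lit 14) (.p (nat_lit 156) (nat_lit 22) (.n (nat_lit 157) (nat_lit 2) (.n (nat_lit 158) (nat_lit 6) (.n (nat_lit 159) (nat_lit 24) (.n (nat_lit 160) (nat_lit 30) (.p (nat_lit 161) (nat_lit 24) .z)))))))))))))))))))) (.ct dF6ss_c291 (nat_lit 96) (nat_lit 8) (.s false (nat_lit 144) (nat_lit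 5) (nat_lit 1) (nat_lit 4) (nat_lit 2) true (nat_lit 4) true (nat_lit 7) true (nat_lit 4) true (nat_lit 8) true (nat_lit 5) (.s true (nat_lit 144) (nat_lit 5) (nat_lit 2) (nat_lit 1) (nat_lit 4) false (nat_lit 0) true (nat_lit 5) true (nat_lit 4) true (nat_lit 7) true (nat_lit 8) (.s false (nat_lit 144) (nat_lit 8) (nat_lit 2) (nat_lit 2) (nat_lit 2) true (nat_lit 3) true (nat_lit 7) true (nat_lit 2) true (nat_lit 7) true (nat_lit 7) (.s false (nat_lit 144) (nat_lit 14) (nat_lit 1) (nat_lit 2) (nat_lit 1) false (nat_lit 10) true (nat_lit 8) false (nat_lit 0) true (nat_lit 8) true (nat_lit 7) (.s false (nat_lit 144) (nat_lit 18) (nat_lit 1) (nat_lit 0) (nat_lit 1) false (nat_lit 10) true (nat_lit 8) false (nat_lit 2) true (nat_lit 8) true (nat_lit 9) (.i true (nat_lit 1) (nat_lit 2) (.c (nat_lit 2) (nat_lit 1) (.c (nat_lit 2) (nat_lit 1) (.c (nat_lit 2) (nat_lit 1) (.c (nat_lit 0) (nat_lit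 256) (.c (nat_lit 1) (nat_lit 16) (.c (nat_lit 1) (nat_lit 16) .nil)))))) (.e true (nat_lit 288) (nat_lit 32) (nat_lit 5) (nat_lit 4) (.e true (nat_lit 576) (nat_lit 68) (nat_lit 2) (nat_lit 7) (.e true (nat_lit 864) (nat_lit 69) (nat_lit 2) (nat_lit 7) (.e false (nat_lit 288) (nat_lit 72) (nat_lit 2) (nat_lit 7) (.e false (nat_lit 192) (nat_lit 91) (nat_lit 1) (nat_lit 8) (.e false (nat_lit 192) (nat_lit 82) (nat_lit 1) (nat_lit 8) (.e true (nat_lit 96) (nat_lit 86) (nat_lit 1) (nat_lit 8) (.e false (nat_lit 288) (nat_lit 24) (nat_lit 6) (nat_lit 3) (.e false (nat_lit 576) (nat_lit 70) (nat_lit 2) (nat_lit 7) (.e true (nat_lit 288) (nat_lit 75) (nat_lit 2) (nat_lit 7) (.e false (nat_lit 288) (nat_lit 84) (nat_lit 1) (nat_lit 8) (.e false (nat_lit 96) (nat_lit 83) (nat_lit 1) (nat_lit 8) (.e true (nat_lit 96) (nat_lit 88) (nat_lit 1) (nat_lit 8) (.e true (nat_lit 288) (nat_lit 96) (nat_lit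 0) (nat_lit 9) .nil))))))))))))))))))))) .leaf)) (nat_lit 90112) (nat_lit 218) (.p (nat_lit 139) (nat_lit 2) .z) .df (.nd (.nd .leaf (nat_lit 90113) (nat_lit 266) (.p (nat_lit 156) (nat_lit 2) .z) .df .leaf) (nat_lit 91136) (nat_lit 232) (.p (nat_lit 122) (nat_lit 4) (.p (nat_lit 123) (nat_lit 2) (.p (nat_lit 124) (nat_lit 2) (.n (nat_lit 125) (nat_lit 2) (.p (nat_lit 126) (nat_lit 2) (.p (nat_lit 128) (nat_lit 2) (.n (nat_lit 130) (nat_lit 2) (.p (nat_lit 132) (nat_lit 6) (.p (nat_lit 134) (nat_lit 4) (.n (nat_lit 135) (nat_lit 6) (.n (nat_lit 136) (nat_lit 4) (.p (nat_lit 137) (nat_lit 10) (.p (nat_lit 139) (nat_lit 4) (.p (nat_lit 141) (nat_lit 4) .z)))))))))))))) (.ct dF6ss_c531 (nat_lit 96) (nat_lit 9) (.s false (nat_lit 48) (nat_lit 16) (nat_lit 0) (nat_lit 0) (nat_lit 2) true (nat_lit 5) true (nat_lit 7) false (nat_lit 1) true (nat_lit 9) true (nat_lit 9) (.i false (nat_lit 1)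 (nat_lit 2) (.c (nat_lit 2) (nat_lit 1) (.c (nat_lit 2) (nat_lit 1) (.c (nat_lit 2) (nat_lit 1) (.c (nat_lit 1) (nat_lit 16) (.c (nat_lit 0) (nat_lit 256) (.c (nat_lit 0) (nat_lit 256) .nil)))))) (.e false (nat_lit 96) (nat_lit 36) (nat_lit 4) (nat_lit 5) (.e false (nat_lit 96) (nat_lit 64) (nat_lit 2) (nat_lit 7) (.e false (nat_lit 96) (nat_lit 82) (nat_lit 0) (nat_lit 9) (.e true (nat_lit 96) (nat_lit 84) (nat_lit 0) (nat_lit 9) (.e true (nat_lit 96) (nat_lit 87) (nat_lit 0) (nat_lit 9) (.e false (nat_lit 192) (nat_lit 88) (nat_lit 0) (nat_lit 9) (.e false (nat_lit 384) (nat_lit 81) (nat_lit 0) (nat_lit 9) (.e false (nat_lit 96) (nat_lit 83) (nat_lit 0) (nat_lit 9) (.e false (nat_lit 768) (nat_lit 86) (nat_lit 0) (nat_lit 9) (.e false (nat_lit 192) (nat_lit 90) (nat_lit 0) (nat_lit 9) (.e true (nat_lit 288) (nat_lit 85) (nat_lit 0) (nat_lit 9) .nil)))))))))))))) (.nd .leaf (nat_lit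 91137) (nat_lit 282) (.n (nat_lit 142) (nat_lit 4) (.p (nat_lit 143) (nat_lit 4) (.p (nat_lit 144) (nat_lit 6) (.n (nat_lit 146) (nat_lit 2) (.p (nat_lit 148) (nat_lit 6) (.n (nat_lit 149) (nat_lit 8) (.n (nat_lit 150) (nat_lit 4) (.p (nat_lit 151) (nat_lit 2) (.n (nat_lit 152) (nat_lit 8) (.p (nat_lit 153) (nat_lit 6) (.n (nat_lit 154) (nat_lit 10) (.p (nat_lit 155) (nat_lit 6) (.n (nat_lit 156) (nat_lit 10) (.p (nat_lit 158) (nat_lit 4) (.p (nat_lit 159) (nat_lit 10) (.p (nat_lit 160) (nat_lit 14) (.n (nat_lit 161) (nat_lit 8) .z))))))))))))))))) (.ct dF6ss_c291 (nat_lit 288) (nat_lit 8) (.s true (nat_lit 144) (nat_lit 5) (nat_lit 1) (nat_lit 4) (nat_lit 2) true (nat_lit 4) true (nat_lit 7) true (nat_lit 4) true (nat_lit 8) true (nat_lit 5) (.s false (nat_lit 144) (nat_lit 5) (nat_lit 2) (nat_lit 1) (nat_lit 4) false (nat_lit 0) true (nat_lit 5) true (nat_lit 4) true (nat_lit 7) true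 (nat_lit 8) (.s true (nat_lit 144) (nat_lit 14) (nat_lit 1) (nat_lit 2) (nat_lit 1) false (nat_lit 10) true (nat_lit 8) false (nat_lit 0) true (nat_lit 8) true (nat_lit 7) (.i false (nat_lit 1) (nat_lit 2) (.c (nat_lit 2) (nat_lit 1) (.c (nat_lit 2) (nat_lit 1) (.c (nat_lit 2) (nat_lit 1) (.c (nat_lit 0) (nat_lit 256) (.c (nat_lit 1) (nat_lit 16) (.c (nat_lit 1) (nat_lit 16) .nil)))))) (.e false (nat_lit 288) (nat_lit 32) (nat_lit 5) (nat_lit 4) (.e false (nat_lit 288) (nat_lit 69) (nat_lit 2) (nat_lit 7) (.e true (nat_lit 192) (nat_lit 91) (nat_lit 1) (nat_lit 8) (.e false (nat_lit 384) (nat_lit 82) (nat_lit 1) (nat_lit 8) (.e false (nat_lit 96) (nat_lit 86) (nat_lit 1) (nat_lit 8) (.e false (nat_lit 288) (nat_lit 84) (nat_lit 1) (nat_lit 8) (.e true (nat_lit 96) (nat_lit 83) (nat_lit 1) (nat_lit 8) (.e true (nat_lit 192) (nat_lit 87) (nat_lit 1) (nat_lit 8) (.e true (nat_lit 192) (nat_lit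 88) (nat_lit 1) (nat_lit 8) (.e true (nat_lit 288) (nat_lit 90) (nat_lit 1) (nat_lit 8) .nil))))))))))))))) .leaf))) (nat_lit 92160) (nat_lit 219) (.p (nat_lit 140) (nat_lit 2) .z) .df (.nd (.nd (.nd (.nd .leaf (nat_lit 92161) (nat_lit 274) (.n (nat_lit 142) (nat_lit 4) (.p (nat_lit 144) (nat_lit 6) (.p (nat_lit 145) (nat_lit 6) (.n (nat_lit 146) (nat_lit 6) (.p (nat_lit 147) (nat_lit 4) (.n (nat_lit 148) (nat_lit 2) (.n (nat_lit 149) (nat_lit 4) (.p (nat_lit 151) (nat_lit 2) (.n (nat_lit 154) (nat_lit 4) (.p (nat_lit 155) (nat_lit 4) (.n (nat_lit 156) (nat_lit 6) (.p (nat_lit 159) (nat_lit 6) (.p (nat_lit 160) (nat_lit 8) (.n (nat_lit 161) (nat_lit 8) .z)))))))))))))) (.ct dF6ss_c291 (nat_lit 2) (nat_lit 8) (.s false (nat_lit 1) (nat_lit 5) (nat_lit 1) (nat_lit 2) (nat_lit 4) true (nat_lit 1) true (nat_lit 5) true (nat_lit 4) true (nat_lit 8) true (nat_lit 7) dF6ss_i5)) .leaf) (nat_lit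 93184) (nat_lit 234) (.p (nat_lit 132) (nat_lit 3) (.n (nat_lit 133) (nat_lit 2) (.p (nat_lit 134) (nat_lit 2) (.n (nat_lit 135) (nat_lit 3) (.n (nat_lit 136) (nat_lit 3) (.p (nat_lit 137) (nat_lit 7) (.p (nat_lit 138) (nat_lit 1) (.p (nat_lit 139) (nat_lit 4) (.p (nat_lit 140) (nat_lit 3) .z))))))))) (.ct dF6ss_c531 (nat_lit 192) (nat_lit 9) (.i false (nat_lit 1) (nat_lit 2) (.c (nat_lit 2) (nat_lit 1) (.c (nat_lit 2) (nat_lit 1) (.c (nat_lit 2) (nat_lit 1) (.c (nat_lit 1) (nat_lit 16) (.c (nat_lit 0) (nat_lit 256) (.c (nat_lit 0) (nat_lit 256) .nil)))))) (.e true (nat_lit 192) (nat_lit 82) (nat_lit 0) (nat_lit 9) (.e false (nat_lit 192) (nat_lit 83) (nat_lit 0) (nat_lit 9) (.e true (nat_lit 288) (nat_lit 84) (nat_lit 0) (nat_lit 9) (.e false (nat_lit 96) (nat_lit 87) (nat_lit 0) (nat_lit 9) (.e false (nat_lit 672) (nat_lit 86) (nat_lit 0) (nat_lit 9) (.e false (nat_lit 384) (nat_lit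 88) (nat_lit 0) (nat_lit 9) (.e false (nat_lit 288) (nat_lit 90) (nat_lit 0) (nat_lit 9) (.e false (nat_lit 288) (nat_lit 81) (nat_lit 0) (nat_lit 9) (.e true (nat_lit 288) (nat_lit 85) (nat_lit 0) (nat_lit 9) .nil))))))))))) .leaf) (nat_lit 93185) (nat_lit 267) (.p (nat_lit 157) (nat_lit 2) .z) .df (.nd .leaf (nat_lit 94208) (nat_lit 268) (.p (nat_lit 158) (nat_lit 2) .z) .df .leaf)) (nat_lit 95232) (nat_lit 286) (.n (nat_lit 142) (nat_lit 12) (.p (nat_lit 143) (nat_lit 2) (.p (nat_lit 144) (nat_lit 18) (.p (nat_lit 145) (nat_lit 10) (.n (nat_lit 146) (nat_lit 12) (.p (nat_lit 147) (nat_lit 10) (.p (nat_lit 148) (nat_lit 4) (.n (nat_lit 149) (nat_lit 18) (.n (nat_lit 150) (nat_lit 6) (.p (nat_lit 151) (nat_lit 8) (.n (nat_lit 152) (nat_lit 12) (.p (nat_lit 153) (nat_lit 10) (.n (nat_lit 154) (nat_lit 24) (.p (nat_lit 155) (nat_lit 14) (.n (nat_lit 156) (nat_lit 24) (.p (nat_lit 157)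 (nat_lit 2) (.p (nat_lit 158) (nat_lit 6) (.p (nat_lit 159) (nat_lit 26) (.p (nat_lit 160) (nat_lit 34) (.n (nat_lit 161) (nat_lit 24) .z)))))))))))))))))))) (.ct dF6ss_c291 (nat_lit 2) (nat_lit 9) (.s true (nat_lit 1) (nat_lit 6) (nat_lit 4) (nat_lit 1) (nat_lit 1) true (nat_lit 1) true (nat_lit 8) true (nat_lit 3) true (nat_lit 5) true (nat_lit 8) (.s true (nat_lit 1) (nat_lit 17) (nat_lit 0) (nat_lit 2) (nat_lit 1) true (nat_lit 6) true (nat_lit 8) false (nat_lit 1) true (nat_lit 9) true (nat_lit 7) (.e false (nat_lit 2) (nat_lit 88) (nat_lit 1) (nat_lit 8) (.e true (nat_lit 2) (nat_lit 26) (nat_lit 6) (nat_lit 3) (.e false (nat_lit 4) (nat_lit 82) (nat_lit 1) (nat_lit 8) (.e true (nat_lit 4) (nat_lit 85) (nat_lit 1) (nat_lit 8) (.e false (nat_lit 4) (nat_lit 86) (nat_lit 1) (nat_lit 8) (.e false (nat_lit 2) (nat_lit 90) (nat_lit 1) (nat_lit 8) (.e true (nat_lit 2) (nat_lit 44) (nat_lit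 3) (nat_lit 6) (.e false (nat_lit 4) (nat_lit 81) (nat_lit 1) (nat_lit 8) (.e false (nat_lit 2) (nat_lit 95) (nat_lit 0) (nat_lit 9) (.e false (nat_lit 4) (nat_lit 96) (nat_lit 0) (nat_lit 9) (.e false (nat_lit 2) (nat_lit 75) (nat_lit 2) (nat_lit 7) .nil)))))))))))))) (.nd (.nd .leaf (nat_lit 96256) (nat_lit 281) (.p (nat_lit 142) (nat_lit 7) (.p (nat_lit 143) (nat_lit 1) (.n (nat_lit 144) (nat_lit 13) (.n (nat_lit 145) (nat_lit 9) (.p (nat_lit 146) (nat_lit 5) (.n (nat_lit 147) (nat_lit 8) (.p (nat_lit 148) (nat_lit 7) (.p (nat_lit 149) (nat_lit 5) (.n (nat_lit 150) (nat_lit 2) (.n (nat_lit 151) (nat_lit 3) (.p (nat_lit 152) (nat_lit 4) (.n (nat_lit 153) (nat_lit 2) (.p (nat_lit 154) (nat_lit 4) (.n (nat_lit 155) (nat_lit 7) (.p (nat_lit 156) (nat_lit 8) (.p (nat_lit 157) (nat_lit 1) (.p (nat_lit 158) (nat_lit 3) (.n (nat_lit 159) (nat_lit 13) (.n (nat_lit 160) (nat_lit 9) (.p (nat_lit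 161) (nat_lit 9) .z)))))))))))))))))))) (.ct dF6ss_c291 (nat_lit 2) (nat_lit 9) (.s false (nat_lit 1) (nat_lit 5) (nat_lit 0) (nat_lit 5) (nat_lit 2) true (nat_lit 5) true (nat_lit 7) true (nat_lit 4) true (nat_lit 9) true (nat_lit 4) (.s false (nat_lit 1) (nat_lit 5) (nat_lit 1) (nat_lit 2) (nat_lit 4) true (nat_lit 1) true (nat_lit 5) true (nat_lit 4) true (nat_lit 8) true (nat_lit 7) (.s true (nat_lit 1) (nat_lit 5) (nat_lit 1) (nat_lit 4) (nat_lit 2) true (nat_lit 4) true (nat_lit 7) true (nat_lit 4) true (nat_lit 8) true (nat_lit 5) (.s false (nat_lit 2) (nat_lit 5) (nat_lit 2) (nat_lit 1) (nat_lit 4) false (nat_lit 0) true (nat_lit 5) true (nat_lit 4) true (nat_lit 7) true (nat_lit 8) (.s false (nat_lit 1) (nat_lit 6) (nat_lit 1) (nat_lit 4) (nat_lit 1) false (nat_lit 10) true (nat_lit 8) true (nat_lit 3) true (nat_lit 8) true (nat_lit 5) (.s true (nat_lit 1) (nat_lit 11) (nat_lit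 2) (nat_lit 1) (nat_lit 2) true (nat_lit 3) true (nat_lit 7) true (nat_lit 1) true (nat_lit 7) true (nat_lit 8) (.s true (nat_lit 2) (nat_lit 14) (nat_lit 1) (nat_lit 2) (nat_lit 1) false (nat_lit 10) true (nat_lit 8) false (nat_lit 0) true (nat_lit 8) true (nat_lit 7) (.e false (nat_lit 2) (nat_lit 65) (nat_lit 2) (nat_lit 7) (.e false (nat_lit 2) (nat_lit 67) (nat_lit 2) (nat_lit 7) (.e true (nat_lit 4) (nat_lit 68) (nat_lit 2) (nat_lit 7) (.e true (nat_lit 4) (nat_lit 69) (nat_lit 2) (nat_lit 7) (.e false (nat_lit 4) (nat_lit 72) (nat_lit 2) (nat_lit 7) (.e true (nat_lit 2) (nat_lit 74) (nat_lit 2) (nat_lit 7) (.e true (nat_lit 2) (nat_lit 33) (nat_lit 5) (nat_lit 4) (.e false (nat_lit 2) (nat_lit 92) (nat_lit 0) (nat_lit 9) (.e true (nat_lit 2) (nat_lit 96) (nat_lit 0) (nat_lit 9) (.e false (nat_lit 2) (nat_lit 36) (nat_lit 5) (nat_lit 4) (.e false (nat_lit 2) (nat_lit 32) (nat_lit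 5) (nat_lit 4) (.e false (nat_lit 4) (nat_lit 91) (nat_lit 1) (nat_lit 8) (.e true (nat_lit 2) (nat_lit 73) (nat_lit 2) (nat_lit 7) (.e false (nat_lit 2) (nat_lit 82) (nat_lit 1) (nat_lit 8) (.e true (nat_lit 2) (nat_lit 87) (nat_lit 1) (nat_lit 8) (.e true (nat_lit 2) (nat_lit 88) (nat_lit 1) (nat_lit 8) .nil)))))))))))))))))))))))) .leaf) (nat_lit 97280) (nat_lit 283) (.n (nat_lit 142) (nat_lit 10) (.p (nat_lit 143) (nat_lit 2) (.p (nat_lit 144) (nat_lit 16) (.p (nat_lit 145) (nat_lit 6) (.n (nat_lit 146) (nat_lit 8) (.p (nat_lit 147) (nat_lit 8) (.p (nat_lit 148) (nat_lit 2) (.n (nat_lit 149) (nat_lit 14) (.n (nat_lit 150) (nat_lit 4) (.p (nat_lit 151) (nat_lit 6) (.n (nat_lit 152) (nat_lit 10) (.p (nat_lit 153) (nat_lit 8) (.n (nat_lit 154) (nat_lit 16) (.p (nat_lit 155) (nat_lit 10) (.n (nat_lit 156) (nat_lit 20) (.p (nat_lit 157) (nat_lit 2) (.p (nat_lit 158) (nat_lit 6) (.p (nat_lit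 159) (nat_lit 18) (.p (nat_lit 160) (nat_lit 24) (.n (nat_lit 161) (nat_lit 18) .z)))))))))))))))))))) (.ct dF6ss_c291 (nat_lit 2) (nat_lit 9) (.s false (nat_lit 1) (nat_lit 5) (nat_lit 1) (nat_lit 4) (nat_lit 2) true (nat_lit 4) true (nat_lit 7) true (nat_lit 4) true (nat_lit 8) true (nat_lit 5) (.s true (nat_lit 1) (nat_lit 5) (nat_lit 2) (nat_lit 1) (nat_lit 4) false (nat_lit 0) true (nat_lit 5) true (nat_lit 4) true (nat_lit 7) true (nat_lit 8) (.s false (nat_lit 1) (nat_lit 6) (nat_lit 5) (nat_lit 1) (nat_lit 0) true (nat_lit 1) true (nat_lit 9) true (nat_lit 3) true (nat_lit 4) true (nat_lit 8) (.s false (nat_lit 1) (nat_lit 12) (nat_lit 2) (nat_lit 2) (nat_lit 1) true (nat_lit 4) true (nat_lit 8) true (nat_lit 1) true (nat_lit 7) true (nat_lit 7) (.s false (nat_lit 1) (nat_lit 13) (nat_lit 2) (nat_lit 0) (nat_lit 2) true (nat_lit 3) true (nat_lit 7) true (nat_lit 0) true (nat_lit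 7) true (nat_lit 9) (.s true (nat_lit 1) (nat_lit 14) (nat_lit 1) (nat_lit 1) (nat_lit 2) true (nat_lit 4) true (nat_lit 7) false (nat_lit 0) true (nat_lit 8) true (nat_lit 8) (.e true (nat_lit 2) (nat_lit 36) (nat_lit 5) (nat_lit 4) (.e true (nat_lit 2) (nat_lit 66) (nat_lit 2) (nat_lit 7) (.e false (nat_lit 2) (nat_lit 73) (nat_lit 2) (nat_lit 7) (.e true (nat_lit 2) (nat_lit 91) (nat_lit 1) (nat_lit 8) (.e true (nat_lit 2) (nat_lit 71) (nat_lit 2) (nat_lit 7) (.e true (nat_lit 2) (nat_lit 86) (nat_lit 1) (nat_lit 8) (.e true (nat_lit 2) (nat_lit 96) (nat_lit 0) (nat_lit 9) (.e false (nat_lit 2) (nat_lit 89) (nat_lit 1) (nat_lit 8) (.e false (nat_lit 2) (nat_lit 65) (nat_lit 2) (nat_lit 7) (.e false (nat_lit 2) (nat_lit 92) (nat_lit 0) (nat_lit 9) (.e true (nat_lit 2) (nat_lit 84) (nat_lit 1) (nat_lit 8) (.e false (nat_lit 2) (nat_lit 87) (nat_lit 1) (nat_lit 8) .nil)))))))))))))))))))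 (.nd .leaf (nat_lit 98304) (nat_lit 269) (.p (nat_lit 159) (nat_lit 2) .z) .df .leaf))))))

noncomputable def dF6ss_t5 : Tr := (.nd dF6ss_t3 (nat_lit 55298) (nat_lit 229) (.n (nat_lit 122) (nat_lit 2) (.n (nat_lit 123) (nat_lit 1) (.n (nat_lit 124) (nat_lit 2) (.p (nat_lit 127) (nat_lit 2) (.p (nat_lit 128) (nat_lit 1) (.n (nat_lit 129) (nat_lit 1) (.p (nat_lit 130) (nat_lit 3) (.p (nat_lit 131) (nat_lit 2) (.p (nat_lit 132) (nat_lit 1) (.p (nat_lit 134) (nat_lit 2) (.p (nat_lit 135) (nat_lit 1) (.n (nat_lit 136) (nat_lit 2) (.p (nat_lit 137) (nat_lit 1) (.n (nat_lit 138) (nat_lit 2) (.p (nat_lit 140) (nat_lit 3) .z))))))))))))))) (.ct dF6ss_c531 (nat_lit 192) (nat_lit 7) (.s true (nat_lit 48) (nat_lit 5) (nat_lit 4) (nat_lit 2) (nat_lit 0) true (nat_lit 1) true (nat_lit 9) true (nat_lit 4) true (nat_lit 5) true (nat_lit 7) (.s true (nat_lit 48) (nat_lit 9) (nat_lit 2) (nat_lit 1) (nat_lit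 2) true (nat_lit 3) true (nat_lit 7) true (nat_lit 1) true (nat_lit 7) true (nat_lit 8) (.s true (nat_lit 96) (nat_lit 10) (nat_lit 0) (nat_lit 2) (nat_lit 2) true (nat_lit 5) true (nat_lit 7) true (nat_lit 0) true (nat_lit 9) true (nat_lit 7) (.s true (nat_lit 48) (nat_lit 14) (nat_lit 0) (nat_lit 1) (nat_lit 2) true (nat_lit 5) true (nat_lit 7) false (nat_lit 0) true (nat_lit 9) true (nat_lit 8) (.s false (nat_lit 48) (nat_lit 14) (nat_lit 1) (nat_lit 0) (nat_lit 2) true (nat_lit 4) true (nat_lit 7) false (nat_lit 0) true (nat_lit 8) true (nat_lit 9) (.s false (nat_lit 96) (nat_lit 16) (nat_lit 0) (nat_lit 2) (nat_lit 0) false (nat_lit 10) true (nat_lit 9) false (nat_lit 1) true (nat_lit 9) true (nat_lit 7) (.i true (nat_lit 1) (nat_lit 2) (.c (nat_lit 2) (nat_lit 1) (.c (nat_lit 2) (nat_lit 1) (.c (nat_lit 2) (nat_lit 1) (.c (nat_lit 1) (nat_lit 16) (.c (nat_lit 0) (nat_lit 256) (.c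 (nat_lit 0) (nat_lit 256) .nil)))))) (.e true (nat_lit 288) (nat_lit 81) (nat_lit 0) (nat_lit 9) (.e false (nat_lit 192) (nat_lit 85) (nat_lit 0) (nat_lit 9) (.e true (nat_lit 384) (nat_lit 86) (nat_lit 0) (nat_lit 9) (.e true (nat_lit 96) (nat_lit 31) (nat_lit 4) (nat_lit 5) (.e false (nat_lit 96) (nat_lit 32) (nat_lit 4) (nat_lit 5) (.e true (nat_lit 96) (nat_lit 35) (nat_lit 4) (nat_lit 5) (.e false (nat_lit 96) (nat_lit 36) (nat_lit 4) (nat_lit 5) (.e false (nat_lit 96) (nat_lit 60) (nat_lit 2) (nat_lit 7) (.e true (nat_lit 192) (nat_lit 63) (nat_lit 2) (nat_lit 7) (.e false (nat_lit 192) (nat_lit 64) (nat_lit 2) (nat_lit 7) (.e false (nat_lit 96) (nat_lit 21) (nat_lit 6) (nat_lit 3) (.e true (nat_lit 96) (nat_lit 34) (nat_lit 4) (nat_lit 5) (.e true (nat_lit 96) (nat_lit 80) (nat_lit 1) (nat_lit 8) (.e true (nat_lit 96) (nat_lit 83) (nat_lit 0) (nat_lit 9) (.e false (nat_lit 192)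 (nat_lit 84) (nat_lit 0) (nat_lit 9) (.e true (nat_lit 192) (nat_lit 88) (nat_lit 0) (nat_lit 9) .nil)))))))))))))))))))))))) dF6ss_t4)

noncomputable def dF6ss_t6 : Tr := (.nd dF6ss_t2 (nat_lit 29698) (nat_lit 116) (.n (nat_lit 76) (nat_lit 2) (.p (nat_lit 79) (nat_lit 2) (.p (nat_lit 80) (nat_lit 2) .z))) (.ct dF6ss_c515 (nat_lit 2) (nat_lit 2) (.s true (nat_lit 1) (nat_lit 4) (nat_lit 0) (nat_lit 2) (nat_lit 2) true (nat_lit 1) true (nat_lit 2) true (nat_lit 1) true (nat_lit 3) true (nat_lit 2) (.e true (nat_lit 2) (nat_lit 28) (nat_lit 2) (nat_lit 2) (.e false (nat_lit 2) (nat_lit 41) (nat_lit 0) (nat_lit 3) (.e false (nat_lit 2) (nat_lit 42) (nat_lit 0) (nat_lit 3) .nil))))) dF6ss_t5)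

noncomputable def dF6ss_cl : CL := (.c (nat_lit 256) (nat_lit 0) (nat_lit 1) (.c (nat_lit 16) (nat_lit 1) (nat_lit 1) (.c (nat_lit 1) (nat_lit 2) (nat_lit 1) (.c (nat_lit 512) (nat_lit 2512) (nat_lit 0) (.c (nat_lit 272) (nat_lit 3) (nat_lit 1) (.c (nat_lit 32) (nat_lit 2032) (nat_lit 0) (.c (nat_lit 257) (nat_lit 4) (nat_lit 1) (.c (nat_lit 17) (nat_lit 5) (nat_lit 1) (.c (nat_lit 2) (nat_lit 6) (nat_lit 1) (.c (nat_lit 528) (nat_lit 7) (nat_lit 1) (.c (nat_lit 288) (nat_lit 8) (nat_lit 1) (.c (nat_lit 513) (nat_lit 9) (nat_lit 1) (.c (nat_lit 273) (nat_lit 10) (nat_lit 3) (.c (nat_lit 33) (nat_lit 13) (nat_lit 1) (.c (nat_lit 258) (nat_lit 14) (nat_lit 2) (.c (nat_lit 18) (nat_lit 16) (nat_lit 2) (.c (nat_lit 3) (nat_lit 18) (nat_lit 1) (.c (nat_lit 544) (nat_lit 19) (nat_lit 1) (.c (nat_lit 529) (nat_lit 20) (nat_lit 4) (.c (nat_lit 289) (nat_lit 24) (nat_lit 4) (.c (nat_lit 514)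 (nat_lit 28) (nat_lit 3) (.c (nat_lit 274) (nat_lit 31) (nat_lit 6) (.c (nat_lit 34) (nat_lit 37) (nat_lit 3) (.c (nat_lit 259) (nat_lit 40) (nat_lit 3) (.c (nat_lit 19) (nat_lit 43) (nat_lit 3) (.c (nat_lit 545) (nat_lit 46) (nat_lit 8) (.c (nat_lit 530) (nat_lit 54) (nat_lit 11) (.c (nat_lit 290) (nat_lit 65) (nat_lit 11) (.c (nat_lit 515) (nat_lit 76) (nat_lit 5) (.c (nat_lit 275) (nat_lit 81) (nat_lit 11) (.c (nat_lit 35) (nat_lit 92) (nat_lit 5) (.c (nat_lit 546) (nat_lit 97) (nat_lit 25) (.c (nat_lit 531) (nat_lit 122) (nat_lit 20) (.c (nat_lit 291) (nat_lit 142) (nat_lit 20) .nil))))))))))))))))))))))))))))))))))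

noncomputable def dF6ss_D : Dt := ⟨(nat_lit 18446744073709551616), (nat_lit 9223372036854775808), (nat_lit 2), (nat_lit 162), (nat_lit 10228487484669095448662033537845713166618204497217585774844816469468606059081074375683517041156041704513142479544163335486267439662144156919463062177381795574775286333733247509682110345425863800356812473861199895820597438854327044517167154891479454256766490389305416430290221832423014834259633312613424048138831989384618805371599486221118086571557097298043472891706167984120780371626876741233186546615549721677453054015338290214667316417448530043690720509313084050999707650873366001721412930957480933848802700915655305535551180621532934228075397261471817922328946699574250322398047016653698963482518643540263908702215746775340992380569629737003775458729183922960400210341696621856424931653730644158731738145710046515281959625541531671697334765244266337855105735124689767385018092210170653998427462735281141656633166315557516639461462603593809168735211831724214330427550724692699771340361397532797301321185392463082126764198421774097870626205952061592867186132473024460574906696337380170423239823602045706977438885416269603817789751996786039909531619824747145132987801085446589117010714127602538998620382595410575712464732760041870862170015553027650139676519806441357317),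 (nat_lit 5846006549318294760990055916844199812954638794292), dF6ss_t6, dF6ss_cl⟩

noncomputable def dF6ss_gs : BL := (.c (nat_lit 19) (nat_lit 1) (nat_lit 18) (nat_lit 1) (nat_lit 0) (.c (nat_lit 20) (nat_lit 4) (nat_lit 16) (nat_lit 2) (nat_lit 1) (.c (nat_lit 24) (nat_lit 4) (nat_lit 14) (nat_lit 2) (nat_lit 9) (.c (nat_lit 28) (nat_lit 3) (nat_lit 13) (nat_lit 1) (nat_lit 17) (.c (nat_lit 31) (nat_lit 6) (nat_lit 10) (nat_lit 3) (nat_lit 20) (.c (nat_lit 37) (nat_lit 3) (nat_lit 9) (nat_lit 1) (nat_lit 38) (.c (nat_lit 40) (nat_lit 3) (nat_lit 8) (nat_lit 1) (nat_lit 41) (.c (nat_lit 43) (nat_lit 3) (nat_lit 7) (nat_lit 1) (nat_lit 44) (.c (nat_lit 46) (nat_lit 8) (nat_lit 6) (nat_lit 1) (nat_lit 47) (.c (nat_lit 54) (nat_lit 11) (nat_lit 5) (nat_lit 1) (nat_lit 55) (.c (nat_lit 65) (nat_lit 11) (nat_lit 4) (nat_lit 1) (nat_lit 66) (.c (nat_lit 81) (nat_lit 11) (nat_lit 3) (nat_lit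 1) (nat_lit 77) (.c (nat_lit 97) (nat_lit 25) (nat_lit 2) (nat_lit 1) (nat_lit 88) (.c (nat_lit 122) (nat_lit 20) (nat_lit 1) (nat_lit 1) (nat_lit 113) (.c (nat_lit 142) (nat_lit 20) (nat_lit 0) (nat_lit 1) (nat_lit 133) (.c (nat_lit 2512) (nat_lit 0) (nat_lit 92) (nat_lit 5) (nat_lit 153) (.c (nat_lit 2032) (nat_lit 0) (nat_lit 76) (nat_lit 5) (nat_lit 153) .nil)))))))))))))))))

noncomputable def dF6ss_i7 : IL := (.s false (nat_lit 691200) (nat_lit 33) (nat_lit 1) (nat_lit 0) (nat_lit 2) true (nat_lit 9) true (nat_lit 12) false (nat_lit 4) true (nat_lit 13) true (nat_lit 14) (.s false (nat_lit 3073328) (nat_lit 34) (nat_lit 1) (nat_lit 0) (nat_lit 2) true (nat_lit 9) true (nat_lit 12) false (nat_lit 4) true (nat_lit 13) true (nat_lit 14) (.s true (nat_lit 1057384) (nat_lit 35) (nat_lit 1) (nat_lit 0) (nat_lit 2) true (nat_lit 9) true (nat_lit 12) false (nat_lit 4) true (nat_lit 13)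 true (nat_lit 14) (.s true (nat_lit 431328) (nat_lit 31) (nat_lit 1) (nat_lit 2) (nat_lit 0) true (nat_lit 11) true (nat_lit 14) false (nat_lit 4) true (nat_lit 13) true (nat_lit 12) (.s false (nat_lit 1470528) (nat_lit 32) (nat_lit 1) (nat_lit 2) (nat_lit 0) true (nat_lit 11) true (nat_lit 14) false (nat_lit 4) true (nat_lit 13) true (nat_lit 12) (.s true (nat_lit 3946336) (nat_lit 33) (nat_lit 1) (nat_lit 2) (nat_lit 0) true (nat_lit 11) true (nat_lit 14) false (nat_lit 4) true (nat_lit 13) true (nat_lit 12) (.s true (nat_lit 3090848) (nat_lit 35) (nat_lit 1) (nat_lit 2) (nat_lit 0) true (nat_lit 11) true (nat_lit 14) false (nat_lit 4) true (nat_lit 13) true (nat_lit 12) (.s false (nat_lit 541328) (nat_lit 36) (nat_lit 1) (nat_lit 2) (nat_lit 0) true (nat_lit 11) true (nat_lit 14) false (nat_lit 4) true (nat_lit 13) true (nat_lit 12) (.s false (nat_lit 899232) (nat_lit 31) (nat_lit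 2) (nat_lit 0) (nat_lit 1) true (nat_lit 9) true (nat_lit 13) false (nat_lit 4) true (nat_lit 12) true (nat_lit 14) (.s true (nat_lit 2086672) (nat_lit 32) (nat_lit 2) (nat_lit 0) (nat_lit 1) true (nat_lit 9) true (nat_lit 13) false (nat_lit 4) true (nat_lit 12) true (nat_lit 14) (.s false (nat_lit 482464) (nat_lit 34) (nat_lit 2) (nat_lit 0) (nat_lit 1) true (nat_lit 9) true (nat_lit 13) false (nat_lit 4) true (nat_lit 12) true (nat_lit 14) (.s false (nat_lit 391504) (nat_lit 36) (nat_lit 2) (nat_lit 0) (nat_lit 1) true (nat_lit 9) true (nat_lit 13) false (nat_lit 4) true (nat_lit 12) true (nat_lit 14) (.s false (nat_lit 1255616) (nat_lit 33) (nat_lit 2) (nat_lit 1) (nat_lit 0) true (nat_lit 10) true (nat_lit 14) false (nat_lit 4) true (nat_lit 12) true (nat_lit 13) (.s true (nat_lit 1977632) (nat_lit 35) (nat_lit 2) (nat_lit 1) (nat_lit 0) true (nat_lit 10) true (nat_lit 14) false (nat_lit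 4) true (nat_lit 12) true (nat_lit 13) (.s false (nat_lit 2748560) (nat_lit 36) (nat_lit 2) (nat_lit 1) (nat_lit 0) true (nat_lit 10) true (nat_lit 14) false (nat_lit 4) true (nat_lit 12) true (nat_lit 13) (.s false (nat_lit 43392) (nat_lit 39) (nat_lit 0) (nat_lit 0) (nat_lit 2) true (nat_lit 10) true (nat_lit 12) false (nat_lit 5) true (nat_lit 14) true (nat_lit 14) (.s false (nat_lit 125568) (nat_lit 39) (nat_lit 0) (nat_lit 2) (nat_lit 0) false (nat_lit 15) true (nat_lit 14) false (nat_lit 5) true (nat_lit 14) true (nat_lit 12) (.s false (nat_lit 18048) (nat_lit 37) (nat_lit 2) (nat_lit 0) (nat_lit 0) true (nat_lit 10) true (nat_lit 14) false (nat_lit 5) true (nat_lit 12) true (nat_lit 14) (.s true (nat_lit 3441384) (nat_lit 41) (nat_lit 0) (nat_lit 1) (nat_lit 1) true (nat_lit 11) true (nat_lit 13) false (nat_lit 6) true (nat_lit 14) true (nat_lit 13) (.s true (nat_lit 1612768) (nat_lit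 42) (nat_lit 0) (nat_lit 1) (nat_lit 1) true (nat_lit 11) true (nat_lit 13) false (nat_lit 6) true (nat_lit 14) true (nat_lit 13) (.s false (nat_lit 4141080) (nat_lit 41) (nat_lit 1) (nat_lit 1) (nat_lit 0) true (nat_lit 11) true (nat_lit 14) false (nat_lit 6) true (nat_lit 13) true (nat_lit 13) (.s false (nat_lit 4197200) (nat_lit 45) (nat_lit 0) (nat_lit 1) (nat_lit 0) false (nat_lit 15) true (nat_lit 14) false (nat_lit 7) true (nat_lit 14) true (nat_lit 13) (.s false (nat_lit 4210832) (nat_lit 45) (nat_lit 1) (nat_lit 0) (nat_lit 0) true (nat_lit 11) true (nat_lit 14) false (nat_lit 7) true (nat_lit 13) true (nat_lit 14) (.i true (nat_lit 12465) (nat_lit 2) (.c (nat_lit 4) (nat_lit 257) (.c (nat_lit 2) (nat_lit 1) (.c (nat_lit 2) (nat_lit 1) (.c (nat_lit 0) (nat_lit 256) (.c (nat_lit 1) (nat_lit 16) (.c (nat_lit 1) (nat_lit 16) .nil)))))) (.i false (nat_lit 19574) (nat_lit 2) (.c (nat_lit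 5) (nat_lit 17) (.c (nat_lit 2) (nat_lit 1) (.c (nat_lit 2) (nat_lit 1) (.c (nat_lit 1) (nat_lit 16) (.c (nat_lit 0) (nat_lit 256) (.c (nat_lit 0) (nat_lit 256) .nil)))))) .nil)))))))))))))))))))))))))

noncomputable def dF6ss_i8 : IL := (.s true (nat_lit 125472) (nat_lit 21) (nat_lit 2) (nat_lit 1) (nat_lit 2) true (nat_lit 8) true (nat_lit 12) false (nat_lit 1) true (nat_lit 12) true (nat_lit 13) (.s true (nat_lit 1087440) (nat_lit 22) (nat_lit 2) (nat_lit 1) (nat_lit 2) true (nat_lit 8) true (nat_lit 12) false (nat_lit 1) true (nat_lit 12) true (nat_lit 13) (.s true (nat_lit 2985936) (nat_lit 23) (nat_lit 2) (nat_lit 1) (nat_lit 2) true (nat_lit 8) true (nat_lit 12) false (nat_lit 1) true (nat_lit 12) true (nat_lit 13) (.s false (nat_lit 95904) (nat_lit 21) (nat_lit 2) (nat_lit 2) (nat_lit 1) true (nat_lit 9) true (nat_lit 13) false (nat_lit 1) true (nat_lit 12) true (nat_lit 12) (.s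 true (nat_lit 678768) (nat_lit 22) (nat_lit 2) (nat_lit 2) (nat_lit 1) true (nat_lit 9) true (nat_lit 13) false (nat_lit 1) true (nat_lit 12) true (nat_lit 12) (.s false (nat_lit 69696) (nat_lit 24) (nat_lit 0) (nat_lit 2) (nat_lit 2) true (nat_lit 10) true (nat_lit 12) false (nat_lit 2) true (nat_lit 14) true (nat_lit 12) (.s false (nat_lit 1508016) (nat_lit 27) (nat_lit 0) (nat_lit 2) (nat_lit 2) true (nat_lit 10) true (nat_lit 12) false (nat_lit 2) true (nat_lit 14) true (nat_lit 12) (.s false (nat_lit 92736) (nat_lit 24) (nat_lit 2) (nat_lit 0) (nat_lit 2) true (nat_lit 8) true (nat_lit 12) false (nat_lit 2) true (nat_lit 12) true (nat_lit 14) (.s false (nat_lit 1668768) (nat_lit 26) (nat_lit 2) (nat_lit 0) (nat_lit 2) true (nat_lit 8) true (nat_lit 12) false (nat_lit 2) true (nat_lit 12) true (nat_lit 14) (.s true (nat_lit 115392) (nat_lit 24) (nat_lit 2) (nat_lit 2) (nat_lit 0)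 true (nat_lit 10) true (nat_lit 14) false (nat_lit 2) true (nat_lit 12) true (nat_lit 12) (.s true (nat_lit 4266456) (nat_lit 30) (nat_lit 1) (nat_lit 2) (nat_lit 1) false (nat_lit 16) true (nat_lit 13) false (nat_lit 3) true (nat_lit 13) true (nat_lit 12) (.s false (nat_lit 1310696) (nat_lit 30) (nat_lit 2) (nat_lit 1) (nat_lit 1) true (nat_lit 9) true (nat_lit 13) false (nat_lit 3) true (nat_lit 12) true (nat_lit 13) (.s false (nat_lit 56448) (nat_lit 31) (nat_lit 0) (nat_lit 1) (nat_lit 2) true (nat_lit 10) true (nat_lit 12) false (nat_lit 4) true (nat_lit 14) true (nat_lit 13) (.s true (nat_lit 553920) (nat_lit 32) (nat_lit 0) (nat_lit 1) (nat_lit 2) true (nat_lit 10) true (nat_lit 12) false (nat_lit 4) true (nat_lit 14) true (nat_lit 13) (.s true (nat_lit 993424) (nat_lit 33) (nat_lit 0) (nat_lit 1) (nat_lit 2) true (nat_lit 10) true (nat_lit 12) false (nat_lit 4) true (nat_lit 14)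 true (nat_lit 13) (.s true (nat_lit 9875984) (nat_lit 35) (nat_lit 0) (nat_lit 1) (nat_lit 2) true (nat_lit 10) true (nat_lit 12) false (nat_lit 4) true (nat_lit 14) true (nat_lit 13) (.s false (nat_lit 2342000) (nat_lit 36) (nat_lit 0) (nat_lit 1) (nat_lit 2) true (nat_lit 10) true (nat_lit 12) false (nat_lit 4) true (nat_lit 14) true (nat_lit 13) (.s false (nat_lit 595968) (nat_lit 31) (nat_lit 0) (nat_lit 2) (nat_lit 1) true (nat_lit 11) true (nat_lit 13) false (nat_lit 4) true (nat_lit 14) true (nat_lit 12) (.s false (nat_lit 2403392) (nat_lit 32) (nat_lit 0) (nat_lit 2) (nat_lit 1) true (nat_lit 11) true (nat_lit 13) false (nat_lit 4) true (nat_lit 14) true (nat_lit 12) (.s false (nat_lit 1882512) (nat_lit 33) (nat_lit 0) (nat_lit 2) (nat_lit 1) true (nat_lit 11) true (nat_lit 13) false (nat_lit 4) true (nat_lit 14) true (nat_lit 12) (.s false (nat_lit 899440) (nat_lit 34) (nat_lit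 0) (nat_lit 2) (nat_lit 1) true (nat_lit 11) true (nat_lit 13) false (nat_lit 4) true (nat_lit 14) true (nat_lit 12) (.s true (nat_lit 3333712) (nat_lit 35) (nat_lit 0) (nat_lit 2) (nat_lit 1) true (nat_lit 11) true (nat_lit 13) false (nat_lit 4) true (nat_lit 14) true (nat_lit 12) (.s false (nat_lit 3325504) (nat_lit 36) (nat_lit 0) (nat_lit 2) (nat_lit 1) true (nat_lit 11) true (nat_lit 13) false (nat_lit 4) true (nat_lit 14) true (nat_lit 12) (.s false (nat_lit 1258928) (nat_lit 31) (nat_lit 1) (nat_lit 0) (nat_lit 2) true (nat_lit 9) true (nat_lit 12) false (nat_lit 4) true (nat_lit 13) true (nat_lit 14) (.s false (nat_lit 1402064) (nat_lit 32) (nat_lit 1) (nat_lit 0) (nat_lit 2) true (nat_lit 9) true (nat_lit 12) false (nat_lit 4) true (nat_lit 13) true (nat_lit 14) dF6ss_i7)))))))))))))))))))))))))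

noncomputable def dF6ss_i9 : IL := (.s false (nat_lit 1286400) (nat_lit 10) (nat_lit 5) (nat_lit 0) (nat_lit 2) true (nat_lit 1) true (nat_lit 12) true (nat_lit 4) true (nat_lit 9) true (nat_lit 14) (.s false (nat_lit 3902016) (nat_lit 12) (nat_lit 5) (nat_lit 0) (nat_lit 2) true (nat_lit 1) true (nat_lit 12) true (nat_lit 4) true (nat_lit 9) true (nat_lit 14) (.s false (nat_lit 146544) (nat_lit 10) (nat_lit 5) (nat_lit 2) (nat_lit 0) true (nat_lit 4) true (nat_lit 14) true (nat_lit 4) true (nat_lit 9) true (nat_lit 12) (.s false (nat_lit 677424) (nat_lit 10) (nat_lit 6) (nat_lit 0) (nat_lit 1) true (nat_lit 1) true (nat_lit 13) true (nat_lit 4) true (nat_lit 8) true (nat_lit 14) (.s false (nat_lit 3648) (nat_lit 11) (nat_lit 6) (nat_lit 0) (nat_lit 1) true (nat_lit 1) true (nat_lit 13) true (nat_lit 4) true (nat_lit 8) true (nat_lit 14) (.s false (nat_lit 1792800) (nat_lit 10) (nat_lit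 6) (nat_lit 1) (nat_lit 0) true (nat_lit 2) true (nat_lit 14) true (nat_lit 4) true (nat_lit 8) true (nat_lit 13) (.s true (nat_lit 4254552) (nat_lit 13) (nat_lit 0) (nat_lit 0) (nat_lit 6) true (nat_lit 2) true (nat_lit 8) true (nat_lit 3) true (nat_lit 14) true (nat_lit 14) (.s true (nat_lit 4261464) (nat_lit 13) (nat_lit 0) (nat_lit 6) (nat_lit 0) false (nat_lit 15) true (nat_lit 14) true (nat_lit 3) true (nat_lit 14) true (nat_lit 8) (.s true (nat_lit 7680) (nat_lit 14) (nat_lit 0) (nat_lit 5) (nat_lit 1) true (nat_lit 11) true (nat_lit 13) true (nat_lit 2) true (nat_lit 14) true (nat_lit 9) (.s false (nat_lit 354720) (nat_lit 14) (nat_lit 1) (nat_lit 1) (nat_lit 4) true (nat_lit 4) true (nat_lit 10) true (nat_lit 2) true (nat_lit 13) true (nat_lit 13) (.s true (nat_lit 7889904) (nat_lit 15) (nat_lit 1) (nat_lit 4) (nat_lit 1) false (nat_lit 16) true (nat_lit 13) true (nat_lit 2)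 true (nat_lit 13) true (nat_lit 10) (.s false (nat_lit 5579648) (nat_lit 15) (nat_lit 2) (nat_lit 1) (nat_lit 3) true (nat_lit 4) true (nat_lit 11) true (nat_lit 2) true (nat_lit 12) true (nat_lit 13) (.s true (nat_lit 1434728) (nat_lit 15) (nat_lit 3) (nat_lit 1) (nat_lit 2) true (nat_lit 4) true (nat_lit 12) true (nat_lit 2) true (nat_lit 11) true (nat_lit 13) (.s true (nat_lit 3037512) (nat_lit 15) (nat_lit 3) (nat_lit 2) (nat_lit 1) true (nat_lit 6) true (nat_lit 13) true (nat_lit 2) true (nat_lit 11) true (nat_lit 12) (.s true (nat_lit 2303536) (nat_lit 15) (nat_lit 4) (nat_lit 1) (nat_lit 1) true (nat_lit 4) true (nat_lit 13) true (nat_lit 2) true (nat_lit 10) true (nat_lit 13) (.s true (nat_lit 1315688) (nat_lit 15) (nat_lit 5) (nat_lit 0) (nat_lit 1) true (nat_lit 3) true (nat_lit 13) true (nat_lit 2) true (nat_lit 9) true (nat_lit 14) (.s false (nat_lit 895536) (nat_lit 16) (nat_lit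 0) (nat_lit 0) (nat_lit 5) true (nat_lit 4) true (nat_lit 9) true (nat_lit 1) true (nat_lit 14) true (nat_lit 14) (.s true (nat_lit 1683120) (nat_lit 16) (nat_lit 0) (nat_lit 5) (nat_lit 0) false (nat_lit 15) true (nat_lit 14) true (nat_lit 1) true (nat_lit 14) true (nat_lit 9) (.s false (nat_lit 6720) (nat_lit 17) (nat_lit 0) (nat_lit 5) (nat_lit 0) false (nat_lit 15) true (nat_lit 14) true (nat_lit 1) true (nat_lit 14) true (nat_lit 9) (.s false (nat_lit 5760) (nat_lit 17) (nat_lit 3) (nat_lit 2) (nat_lit 0) true (nat_lit 7) true (nat_lit 14) true (nat_lit 1) true (nat_lit 11) true (nat_lit 12) (.s false (nat_lit 1180096) (nat_lit 18) (nat_lit 1) (nat_lit 0) (nat_lit 3) true (nat_lit 6) true (nat_lit 11) true (nat_lit 0) true (nat_lit 13) true (nat_lit 14) (.s false (nat_lit 20928) (nat_lit 18) (nat_lit 3) (nat_lit 1) (nat_lit 0) true (nat_lit 7) true (nat_lit 14) true (nat_lit 0) true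 (nat_lit 11) true (nat_lit 13) (.s false (nat_lit 90048) (nat_lit 19) (nat_lit 2) (nat_lit 2) (nat_lit 2) true (nat_lit 8) true (nat_lit 12) false (nat_lit 0) true (nat_lit 12) true (nat_lit 12) (.s true (nat_lit 106656) (nat_lit 21) (nat_lit 1) (nat_lit 2) (nat_lit 2) true (nat_lit 9) true (nat_lit 12) false (nat_lit 1) true (nat_lit 13) true (nat_lit 12) (.s true (nat_lit 403488) (nat_lit 22) (nat_lit 1) (nat_lit 2) (nat_lit 2) true (nat_lit 9) true (nat_lit 12) false (nat_lit 1) true (nat_lit 13) true (nat_lit 12) dF6ss_i8)))))))))))))))))))))))))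

noncomputable def dF6ss_i10 : IL := (.s false (nat_lit 4224) (nat_lit 7) (nat_lit 2) (nat_lit 5) (nat_lit 2) true (nat_lit 8) true (nat_lit 12) true (nat_lit 7) true (nat_lit 12) true (nat_lit 9) (.s false (nat_lit 7296) (nat_lit 7) (nat_lit 5) (nat_lit 2) (nat_lit 2) true (nat_lit 1) true (nat_lit 12) true (nat_lit 7) true (nat_lit 9) true (nat_lit 12) (.s false (nat_lit 11520) (nat_lit 8) (nat_lit 4) (nat_lit 2) (nat_lit 2) true (nat_lit 2) true (nat_lit 12) true (nat_lit 6) true (nat_lit 10) true (nat_lit 12) (.s true (nat_lit 35424) (nat_lit 9) (nat_lit 1) (nat_lit 1) (nat_lit 6) true (nat_lit 1) true (nat_lit 8) true (nat_lit 5) true (nat_lit 13) true (nat_lit 13) (.s true (nat_lit 18048) (nat_lit 9) (nat_lit 1) (nat_lit 5) (nat_lit 2) true (nat_lit 9) true (nat_lit 12) true (nat_lit 5) true (nat_lit 13) true (nat_lit 9) (.s true (nat_lit 125568) (nat_lit 9) (nat_lit 6) (nat_lit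 1) (nat_lit 1) true (nat_lit 1) true (nat_lit 13) true (nat_lit 5) true (nat_lit 8) true (nat_lit 13) (.s false (nat_lit 577104) (nat_lit 10) (nat_lit 0) (nat_lit 1) (nat_lit 6) true (nat_lit 2) true (nat_lit 8) true (nat_lit 4) true (nat_lit 14) true (nat_lit 13) (.s true (nat_lit 2609040) (nat_lit 12) (nat_lit 0) (nat_lit 5) (nat_lit 2) true (nat_lit 10) true (nat_lit 12) true (nat_lit 4) true (nat_lit 14) true (nat_lit 9) (.s false (nat_lit 83136) (nat_lit 10) (nat_lit 0) (nat_lit 6) (nat_lit 1) true (nat_lit 11) true (nat_lit 13) true (nat_lit 4) true (nat_lit 14) true (nat_lit 8) (.s false (nat_lit 1414128) (nat_lit 12) (nat_lit 1) (nat_lit 6) (nat_lit 0) true (nat_lit 11) true (nat_lit 14) true (nat_lit 4) true (nat_lit 13) true (nat_lit 8) (.s true (nat_lit 580944) (nat_lit 10) (nat_lit 2) (nat_lit 0) (nat_lit 5) true (nat_lit 1) true (nat_lit 9) true (nat_lit 4) true (nat_lit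 12) true (nat_lit 14) (.s false (nat_lit 753600) (nat_lit 12) (nat_lit 2) (nat_lit 0) (nat_lit 5) true (nat_lit 1) true (nat_lit 9) true (nat_lit 4) true (nat_lit 12) true (nat_lit 14) (.s false (nat_lit 1024608) (nat_lit 11) (nat_lit 2) (nat_lit 1) (nat_lit 4) true (nat_lit 2) true (nat_lit 10) true (nat_lit 4) true (nat_lit 12) true (nat_lit 13) (.s false (nat_lit 1775664) (nat_lit 12) (nat_lit 2) (nat_lit 1) (nat_lit 4) true (nat_lit 2) true (nat_lit 10) true (nat_lit 4) true (nat_lit 12) true (nat_lit 13) (.s true (nat_lit 4205216) (nat_lit 10) (nat_lit 2) (nat_lit 2) (nat_lit 3) true (nat_lit 4) true (nat_lit 11) true (nat_lit 4) true (nat_lit 12) true (nat_lit 12) (.s true (nat_lit 1889232) (nat_lit 11) (nat_lit 2) (nat_lit 2) (nat_lit 3) true (nat_lit 4) true (nat_lit 11) true (nat_lit 4) true (nat_lit 12) true (nat_lit 12) (.s false (nat_lit 109440) (nat_lit 12) (nat_lit 2) (nat_lit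 2) (nat_lit 3) true (nat_lit 4) true (nat_lit 11) true (nat_lit 4) true (nat_lit 12) true (nat_lit 12) (.s true (nat_lit 1345920) (nat_lit 11) (nat_lit 2) (nat_lit 3) (nat_lit 2) true (nat_lit 8) true (nat_lit 12) true (nat_lit 4) true (nat_lit 12) true (nat_lit 11) (.s false (nat_lit 1505328) (nat_lit 12) (nat_lit 2) (nat_lit 4) (nat_lit 1) true (nat_lit 9) true (nat_lit 13) true (nat_lit 4) true (nat_lit 12) true (nat_lit 10) (.s false (nat_lit 2331792) (nat_lit 12) (nat_lit 2) (nat_lit 5) (nat_lit 0) true (nat_lit 10) true (nat_lit 14) true (nat_lit 4) true (nat_lit 12) true (nat_lit 9) (.s true (nat_lit 9226144) (nat_lit 10) (nat_lit 3) (nat_lit 2) (nat_lit 2) true (nat_lit 4) true (nat_lit 12) true (nat_lit 4) true (nat_lit 11) true (nat_lit 12) (.s false (nat_lit 2688) (nat_lit 10) (nat_lit 4) (nat_lit 1) (nat_lit 2) true (nat_lit 2) true (nat_lit 12) true (nat_lit 4) true (nat_lit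 10) true (nat_lit 13) (.s true (nat_lit 2679936) (nat_lit 11) (nat_lit 4) (nat_lit 1) (nat_lit 2) true (nat_lit 2) true (nat_lit 12) true (nat_lit 4) true (nat_lit 10) true (nat_lit 13) (.s true (nat_lit 241152) (nat_lit 12) (nat_lit 4) (nat_lit 1) (nat_lit 2) true (nat_lit 2) true (nat_lit 12) true (nat_lit 4) true (nat_lit 10) true (nat_lit 13) (.s true (nat_lit 2677248) (nat_lit 11) (nat_lit 4) (nat_lit 2) (nat_lit 1) true (nat_lit 4) true (nat_lit 13) true (nat_lit 4) true (nat_lit 10) true (nat_lit 12) dF6ss_i9)))))))))))))))))))))))))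

noncomputable def dF6ss_il : IL := (.s true (nat_lit 398112) (nat_lit 6) (nat_lit 1) (nat_lit 4) (nat_lit 3) true (nat_lit 6) true (nat_lit 11) true (nat_lit 8) true (nat_lit 13) true (nat_lit 10) (.s false (nat_lit 1212336) (nat_lit 6) (nat_lit 3) (nat_lit 2) (nat_lit 3) false (nat_lit 0) true (nat_lit 11) true (nat_lit 8) true (nat_lit 11) true (nat_lit 12) (.s true (nat_lit 2348544) (nat_lit 6) (nat_lit 3) (nat_lit 3) (nat_lit 2) true (nat_lit 4) true (nat_lit 12) true (nat_lit 8) true (nat_lit 11) true (nat_lit 11) dF6ss_i10)))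

theorem dF6ss_chk : chk 1 idsV dF6ss_D par1 (clsL [0,0,0,1,1,2,2]) F6Ex (.c (nat_lit 2) (nat_lit 1) (.c (nat_lit 2) (nat_lit 1) (.c (nat_lit 2) (nat_lit 1) (.c (nat_lit 1) (nat_lit 16) (.c (nat_lit 1) (nat_lit 16) (.c (nat_lit 0) (nat_lit 256) (.c (nat_lit 0) (nat_lit 256) .nil))))))) (nat_lit 302) (nat_lit 547) (nat_lit 8) dF6ss_gs dF6ss_il = true := by
  decide +kernel

end Chk

/-- certificate of `F6Ex` -/
theorem cert_F6ss : Cert.{u} 1 idsV par1 (clsL [0,0,0,1,1,2,2]) F6Ex :=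
  Chk.chk_sound _ _ (by simp [idsV]) (by simp [idsV]) _ _ _ _ _ _ _ _ _ _ Chk.dF6ss_chk

end Pool.Agent.MalP
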