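import Pool.Agent.MalP.Check4
import Pool.Agent.MalP.Certs

/-! # Certificate of F8Ex -/

set_option autoImplicit false
set_option maxRecDepth 100000

namespace Pool.Agent.MalP

universe u

namespace Chk

noncomputable def dF8_c274 : Cm := .mk (nat_lit 12) (nat_lit 274) (nat_lit 15) (nat_lit 6) (.c (nat_lit 5) (nat_lit 1) (nat_lit 4) (nat_lit 1) (nat_lit 6) (.c (nat_lit 6) (nat_lit 1) (nat_lit 3) (nat_lit 1) (nat_lit 7) (.c (nat_lit 7) (nat_lit 3) (nat_lit 2) (nat_lit 1) (nat_lit 8) (.c (nat_lit 10) (nat_lit 2) (nat_lit 1) (nat_lit 1) (nat_lit 11) (.c (nat_lit 12) (nat_lit 2) (nat_lit 0) (nat_lit 1) (nat_lit 13) .nil)))))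

noncomputable def dF8_c259 : Cm := .mk (nat_lit 21) (nat_lit 259) (nat_lit 21) (nat_lit 3) (.c (nat_lit 6) (nat_lit 1) (nat_lit 4) (nat_lit 1) (nat_lit 3) (.c (nat_lit 10) (nat_lit 2) (nat_lit 2) (nat_lit 1) (nat_lit 4) (.c (nat_lit 14) (nat_lit 1) (nat_lit 0) (nat_lit 1) (nat_lit 6) .nil)))

noncomputable def dF8_c19 : Cm := .mk (nat_lit 25) (nat_lit 19) (nat_lit 24) (nat_lit 3) (.c (nat_lit 6) (nat_lit 1) (nat_lit 5) (nat_lit 1) (nat_lit 3) (.c (nat_lit 12) (nat_lit 2) (nat_lit 2) (nat_lit 1) (nat_lit 4) (.c (nat_lit 14) (nat_lit 1) (nat_lit 1) (nat_lit 1) (nat_lit 6) .nil)))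

noncomputable def dF8_cl : CL := (.c (nat_lit 256) (nat_lit 0) (nat_lit 1) (.c (nat_lit 16) (nat_lit 1) (nat_lit 1) (.c (nat_lit 1) (nat_lit 2) (nat_lit 1) (.c (nat_lit 272) (nat_lit 3) (nat_lit 1) (.c (nat_lit 257) (nat_lit 4) (nat_lit 1) (.c (nat_lit 17) (nat_lit 5) (nat_lit 1) (.c (nat_lit 2) (nat_lit 6) (nat_lit 1) (.c (nat_lit 273) (nat_lit 7) (nat_lit 3) (.c (nat_lit 258) (nat_lit 10) (nat_lit 2) (.c (nat_lit 18) (nat_lit 12) (nat_lit 2) (.c (nat_lit 3) (nat_lit 14) (nat_lit 1) (.c (nat_lit 274) (nat_lit 15) (nat_lit 6) (.c (nat_lit 259) (nat_lit 21) (nat_lit 3) (.c (nat_lit 19) (nat_lit 24) (nat_lit 3) .nil))))))))))))))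

noncomputable def dF8_D : Dt := ⟨(nat_lit 4294967296), (nat_lit 2147483648), (nat_lit 1), (nat_lit 27), (nat_lit 1996207115341006014294602852893918495673513266050868552432681174577562123587633802241059104723100743696300468714288557026310257145931989220938202658866304900636772468804984495074776586932715525), (nat_lit 132137908), (.nd (.nd (.nd (.nd (.nd .leaf (nat_lit 1024) (nat_lit 0) (.p (nat_lit 3) (nat_lit 1) .z) .df .leaf) (nat_lit 2048) (nat_lit 1) (.p (nat_lit 4) (nat_lit 1) .z) .df (.nd .leaf (nat_lit 2049) (nat_lit 2) (.p (nat_lit 5) (nat_lit 1) .z) .df .leaf)) (nat_lit 2050) (nat_lit 3) (.p (nat_lit 6) (nat_lit 1) .z) .df (.nd (.nd .leaf (nat_lit 3074) (nat_lit 4) (.p (nat_lit 7) (nat_lit 1) .z) .df .leaf) (nat_lit 4097) (nat_lit 5) (.p (nat_lit 8) (nat_lit 1) .z) .df (.nd .leaf (nat_lit 4098) (nat_lit 7) (.p (nat_lit 10) (nat_lit 1) .z) .df .leaf))) (nat_lit 5120) (nat_lit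 6) (.p (nat_lit 9) (nat_lit 1) .z) .df (.nd (.nd (.nd .leaf (nat_lit 5122) (nat_lit 9) (.p (nat_lit 12) (nat_lit 1) .z) .df .leaf) (nat_lit 5124) (nat_lit 18) (.n (nat_lit 15) (nat_lit 1) (.n (nat_lit 16) (nat_lit 1) (.p (nat_lit 19) (nat_lit 1) (.n (nat_lit 20) (nat_lit 1) .z)))) (.ct dF8_c274 (nat_lit 1) (nat_lit 0) (.s true (nat_lit 1) (nat_lit 2) (nat_lit 0) (nat_lit 1) (nat_lit 2) true (nat_lit 0) true (nat_lit 2) true (nat_lit 2) true (nat_lit 4) true (nat_lit 3) (.e true (nat_lit 1) (nat_lit 8) (nat_lit 2) (nat_lit 2) (.e true (nat_lit 1) (nat_lit 7) (nat_lit 2) (nat_lit 2) (.e true (nat_lit 1) (nat_lit 12) (nat_lit 0) (nat_lit 4) (.e false (nat_lit 1) (nat_lit 11) (nat_lit 1) (nat_lit 3) .nil)))))) (.nd .leaf (nat_lit 6144) (nat_lit 8) (.p (nat_lit 11) (nat_lit 1) .z) .df .leaf)) (nat_lit 6145) (nat_lit 10) (.p (nat_lit 13) (nat_lit 1) .z) .df (.nd (.nd .leaf (nat_lit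 6146) (nat_lit 11) (.p (nat_lit 14) (nat_lit 1) .z) .df .leaf) (nat_lit 6147) (nat_lit 20) (.n (nat_lit 16) (nat_lit 1) (.p (nat_lit 17) (nat_lit 1) (.n (nat_lit 18) (nat_lit 1) (.p (nat_lit 20) (nat_lit 1) .z)))) (.ct dF8_c274 (nat_lit 1) (nat_lit 1) (.s true (nat_lit 1) (nat_lit 2) (nat_lit 0) (nat_lit 2) (nat_lit 1) true (nat_lit 1) true (nat_lit 3) true (nat_lit 2) true (nat_lit 4) true (nat_lit 2) (.e true (nat_lit 1) (nat_lit 10) (nat_lit 1) (nat_lit 3) (.e true (nat_lit 1) (nat_lit 8) (nat_lit 2) (nat_lit 2) (.e false (nat_lit 1) (nat_lit 12) (nat_lit 0) (nat_lit 4) (.e false (nat_lit 1) (nat_lit 9) (nat_lit 2) (nat_lit 2) .nil)))))) .leaf))) (nat_lit 6148) (nat_lit 24) (.n (nat_lit 22) (nat_lit 1) (.n (nat_lit 23) (nat_lit 1) .z)) (.ct dF8_c259 (nat_lit 1) (nat_lit 0) (.s true (nat_lit 1) (nat_lit 2) (nat_lit 0) (nat_lit 2) (nat_lit 2) true (nat_lit 0) true (nat_lit 1)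 true (nat_lit 1) true (nat_lit 2) true (nat_lit 1) (.e true (nat_lit 1) (nat_lit 14) (nat_lit 0) (nat_lit 2) (.e true (nat_lit 1) (nat_lit 11) (nat_lit 2) (nat_lit 1) .nil)))) (.nd (.nd (.nd (.nd .leaf (nat_lit 6149) (nat_lit 28) (.n (nat_lit 25) (nat_lit 1) (.n (nat_lit 26) (nat_lit 1) .z)) (.ct dF8_c19 (nat_lit 1) (nat_lit 0) (.s true (nat_lit 1) (nat_lit 2) (nat_lit 1) (nat_lit 2) (nat_lit 2) true (nat_lit 0) true (nat_lit 1) true (nat_lit 1) true (nat_lit 2) true (nat_lit 1) (.e true (nat_lit 1) (nat_lit 14) (nat_lit 1) (nat_lit 2) (.e true (nat_lit 1) (nat_lit 13) (nat_lit 2) (nat_lit 1) .nil)))) .leaf) (nat_lit 7170) (nat_lit 12) (.p (nat_lit 15) (nat_lit 1) .z) .df (.nd .leaf (nat_lit 8194) (nat_lit 13) (.p (nat_lit 16) (nat_lit 1) .z) .df .leaf)) (nat_lit 9218) (nat_lit 14) (.p (nat_lit 17) (nat_lit 1) .z) .df (.nd (.nd .leaf (nat_lit 10241) (nat_lit 15) (.p (nat_lit 18)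 (nat_lit 1) .z) .df .leaf) (nat_lit 10242) (nat_lit 21) (.p (nat_lit 21) (nat_lit 1) .z) .df (.nd .leaf (nat_lit 11265) (nat_lit 16) (.p (nat_lit 19) (nat_lit 1) .z) .df .leaf))) (nat_lit 11266) (nat_lit 22) (.p (nat_lit 22) (nat_lit 1) .z) .df (.nd (.nd (.nd .leaf (nat_lit 12288) (nat_lit 17) (.p (nat_lit 20) (nat_lit 1) .z) .df .leaf) (nat_lit 12290) (nat_lit 25) (.p (nat_lit 24) (nat_lit 1) .z) .df (.nd .leaf (nat_lit 13312) (nat_lit 19) (.n (nat_lit 15) (nat_lit 2) (.n (nat_lit 16) (nat_lit 1) (.p (nat_lit 17) (nat_lit 1) (.p (nat_lit 18) (nat_lit 1) (.p (nat_lit 19) (nat_lit 1) (.n (nat_lit 20) (nat_lit 1) .z)))))) (.ct dF8_c274 (nat_lit 1) (nat_lit 4) (.s false (nat_lit 1) (nat_lit 2) (nat_lit 1) (nat_lit 0) (nat_lit 2) false (nat_lit 0) true (nat_lit 2) true (nat_lit 2) true (nat_lit 3) true (nat_lit 4) (.e false (nat_lit 1) (nat_lit 5) (nat_lit 4) (nat_lit 0) (.e false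 (nat_lit 1) (nat_lit 9) (nat_lit 2) (nat_lit 2) (.e true (nat_lit 1) (nat_lit 7) (nat_lit 2) (nat_lit 2) (.e false (nat_lit 1) (nat_lit 10) (nat_lit 1) (nat_lit 3) .nil)))))) .leaf)) (nat_lit 13314) (nat_lit 26) (.p (nat_lit 25) (nat_lit 1) .z) .df (.nd (.nd .leaf (nat_lit 14336) (nat_lit 23) (.p (nat_lit 23) (nat_lit 1) .z) .df .leaf) (nat_lit 14337) (nat_lit 27) (.p (nat_lit 26) (nat_lit 1) .z) .df .leaf)))), dF8_cl⟩

noncomputable def dF8_gs : BL := (.c (nat_lit 7) (nat_lit 3) (nat_lit 6) (nat_lit 1) (nat_lit 0) (.c (nat_lit 10) (nat_lit 2) (nat_lit 5) (nat_lit 1) (nat_lit 3) (.c (nat_lit 12) (nat_lit 2) (nat_lit 4) (nat_lit 1) (nat_lit 5) (.c (nat_lit 14) (nat_lit 1) (nat_lit 3) (nat_lit 1) (nat_lit 7) (.c (nat_lit 15) (nat_lit 6) (nat_lit 2) (nat_lit 1) (nat_lit 8) (.c (nat_lit 21) (nat_lit 3) (nat_lit 1) (nat_lit 1) (nat_lit 14) (.c (nat_lit 24) (nat_lit 3) (nat_lit 0) (nat_lit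 1) (nat_lit 17) .nil)))))))

noncomputable def dF8_il : IL := (.s false (nat_lit 3) (nat_lit 3) (nat_lit 2) (nat_lit 2) (nat_lit 2) true (nat_lit 0) true (nat_lit 4) true (nat_lit 3) true (nat_lit 4) true (nat_lit 4) (.s false (nat_lit 18) (nat_lit 4) (nat_lit 1) (nat_lit 2) (nat_lit 2) true (nat_lit 1) true (nat_lit 4) true (nat_lit 2) true (nat_lit 5) true (nat_lit 4) (.s true (nat_lit 6) (nat_lit 4) (nat_lit 2) (nat_lit 2) (nat_lit 1) true (nat_lit 1) true (nat_lit 5) true (nat_lit 2) true (nat_lit 4) true (nat_lit 4) (.s false (nat_lit 36) (nat_lit 5) (nat_lit 0) (nat_lit 2) (nat_lit 2) true (nat_lit 2) true (nat_lit 4) true (nat_lit 1) true (nat_lit 6) true (nat_lit 4) (.s true (nat_lit 6) (nat_lit 5) (nat_lit 2) (nat_lit 0) (nat_lit 2) true (nat_lit 0) true (nat_lit 4) true (nat_lit 1) true (nat_lit 4) true (nat_lit 6) (.s true (nat_lit 6) (nat_lit 5) (nat_lit 2) (nat_lit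 2) (nat_lit 0) true (nat_lit 2) true (nat_lit 6) true (nat_lit 1) true (nat_lit 4) true (nat_lit 4) (.s false (nat_lit 21) (nat_lit 6) (nat_lit 1) (nat_lit 2) (nat_lit 0) true (nat_lit 3) true (nat_lit 6) true (nat_lit 0) true (nat_lit 5) true (nat_lit 4) (.s true (nat_lit 21) (nat_lit 6) (nat_lit 2) (nat_lit 0) (nat_lit 1) true (nat_lit 1) true (nat_lit 5) true (nat_lit 0) true (nat_lit 4) true (nat_lit 6) .nil))))))))

theorem dF8_chk : chk 1 idsM dF8_D par1 (cls1 3) F8Ex (.c (nat_lit 2) (nat_lit 1) (.c (nat_lit 2) (nat_lit 1) (.c (nat_lit 2) (nat_lit 1) (.c (nat_lit 1) (nat_lit 16) (.c (nat_lit 0) (nat_lit 256) .nil))))) (nat_lit 29) (nat_lit 275) (nat_lit 1) dF8_gs dF8_il = true := by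
  decide +kernel

end Chk

/-- certificate of `F8Ex` -/
theorem cert_F8Ex : Cert.{u} 1 idsM par1 (cls1 3) F8Ex :=
  Chk.chk_sound _ _ (by simp [idsM]) (by simp [idsM]) _ _ _ _ _ _ _ _ _ _ Chk.dF8_chk

end Pool.Agent.MalP
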