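import Pool.Agent.MalP.CertPar

/-! # The identity (r5), sharp form, as an expression -/

set_option autoImplicit false

namespace Pool.Agent.MalP

/-- (r5'): letters 0..5 odd; 6 -/
def r5sEx : PEx :=
  10 • PEx.pe1 (.X 0 * .X 1) (.X 2) (.X 3) (.X 4) (.X 5) (.X 6) -
    25 • PEx.pe (.X 0) (.X 1) (.X 2) (.X 3) (.X 4) (.X 5 * .X 6) -
    110 • (PEx.pe (.X 0) (.X 1) (.X 2) (.X 3) (.X 4) (.X 5) * .X 6) +
    25 • (PEx.pe (.X 0) (.X 1) (.X 2) (.X 3) (.X 4) (.X 6) * .X 5) +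
    17 • (PEx.pe1 (.X 6) (.X 0) (.X 1) (.X 2) (.X 3) (.X 4) * .X 5)

theorem r5sEx_ml : r5sEx.ml = true := by decide +kernel

end Pool.Agent.MalP
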