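import Pool.Agent.MalP.Check4
import Pool.Agent.MalP.R5sEx

/-! # Certificate of r5sEx -/

set_option autoImplicit false
set_option maxRecDepth 100000

namespace Pool.Agent.MalP

universe u

namespace Chk

noncomputable def dr5s_c19 : Cm := .mk (nat_lit 5) (nat_lit 19) (nat_lit 7) (nat_lit 3) (.c (nat_lit 3) (nat_lit 1) (nat_lit 2) (nat_lit 1) (nat_lit 3) (.c (nat_lit 4) (nat_lit 2) (nat_lit 1) (nat_lit 1) (nat_lit 4) (.c (nat_lit 6) (nat_lit 1) (nat_lit 0) (nat_lit 1) (nat_lit 6) .nil)))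

noncomputable def dr5s_c20 : Cm := .mk (nat_lit 10) (nat_lit 20) (nat_lit 11) (nat_lit 4) (.c (nat_lit 4) (nat_lit 2) (nat_lit 3) (nat_lit 1) (nat_lit 4) (.c (nat_lit 6) (nat_lit 1) (nat_lit 2) (nat_lit 1) (nat_lit 6) (.c (nat_lit 7) (nat_lit 3) (nat_lit 1) (nat_lit 1) (nat_lit 7) (.c (nat_lit 10) (nat_lit 1) (nat_lit 0) (nat_lit 1) (nat_lit 10) .nil))))

noncomputable def dr5s_c5 : Cm := .mk (nat_lit 17) (nat_lit 5) (nat_lit 15) (nat_lit 1) (.c (nat_lit 6) (nat_lit 1) (nat_lit 3) (nat_lit 1) (nat_lit 1) (.c (nat_lit 10) (nat_lit 1) (nat_lit 1) (nat_lit 1) (nat_lit 2) .nil))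

noncomputable def dr5s_c21 : Cm := .mk (nat_lit 19) (nat_lit 21) (nat_lit 16) (nat_lit 5) (.c (nat_lit 6) (nat_lit 1) (nat_lit 4) (nat_lit 2) (nat_lit 5) (.c (nat_lit 7) (nat_lit 3) (nat_lit 3) (nat_lit 1) (nat_lit 7) (.c (nat_lit 10) (nat_lit 1) (nat_lit 2) (nat_lit 1) (nat_lit 10) (.c (nat_lit 11) (nat_lit 4) (nat_lit 1) (nat_lit 1) (nat_lit 11) (.c (nat_lit 15) (nat_lit 1) (nat_lit 0) (nat_lit 1) (nat_lit 15) .nil)))))

noncomputable def dr5s_c6 : Cm := .mk (nat_lit 30) (nat_lit 6) (nat_lit 21) (nat_lit 2) (.c (nat_lit 6) (nat_lit 1) (nat_lit 6) (nat_lit 1) (nat_lit 2) (.c (nat_lit 10) (nat_lit 1) (nat_lit 3) (nat_lit 1) (nat_lit 3) (.c (nat_lit 15) (nat_lit 1) (nat_lit 1) (nat_lit 1) (nat_lit 4) .nil)))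

noncomputable def dr5s_cl : CL := (.c (nat_lit 16) (nat_lit 0) (nat_lit 1) (.c (nat_lit 1) (nat_lit 1) (nat_lit 1) (.c (nat_lit 17) (nat_lit 2) (nat_lit 1) (.c (nat_lit 2) (nat_lit 3) (nat_lit 1) (.c (nat_lit 18) (nat_lit 4) (nat_lit 2) (.c (nat_lit 3) (nat_lit 6) (nat_lit 1) (.c (nat_lit 19) (nat_lit 7) (nat_lit 3) (.c (nat_lit 4) (nat_lit 10) (nat_lit 1) (.c (nat_lit 20) (nat_lit 11) (nat_lit 4) (.c (nat_lit 5) (nat_lit 15) (nat_lit 1) (.c (nat_lit 21) (nat_lit 16) (nat_lit 5) (.c (nat_lit 6) (nat_lit 21) (nat_lit 2) .nil))))))))))))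

noncomputable def dr5s_D : Dt := ⟨(nat_lit 4294967296), (nat_lit 2147483648), (nat_lit 1), (nat_lit 23), (nat_lit 18000928951817529877967942991354160329673045182396220563675610697613707217102008120442868026583566785461529739688461255906934074413723825004916097388400945242570755), (nat_lit 2065350), (.nd (.nd (.nd (.nd (.nd (.nd .leaf (nat_lit 1024) (nat_lit 0) (.p (nat_lit 2) (nat_lit 1) .z) .df .leaf) (nat_lit 1025) (nat_lit 1) (.p (nat_lit 3) (nat_lit 1) .z) .df .leaf) (nat_lit 2049) (nat_lit 2) (.p (nat_lit 4) (nat_lit 1) .z) .df (.nd .leaf (nat_lit 3072) (nat_lit 3) (.p (nat_lit 5) (nat_lit 1) .z) .df .leaf)) (nat_lit 3073) (nat_lit 4) (.p (nat_lit 6) (nat_lit 1) .z) .df (.nd (.nd .leaf (nat_lit 3074) (nat_lit 8) (.n (nat_lit 8) (nat_lit 1) (.n (nat_lit 9) (nat_lit 1) .z)) (.ct dr5s_c19 (nat_lit 1) (nat_lit 0) (.s true (nat_lit 1) (nat_lit 1) (nat_lit 0) (nat_lit 1) (nat_lit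 1) true (nat_lit 0) true (nat_lit 1) true (nat_lit 1) true (nat_lit 2) true (nat_lit 1) (.e true (nat_lit 1) (nat_lit 6) (nat_lit 0) (nat_lit 2) (.e true (nat_lit 1) (nat_lit 5) (nat_lit 1) (nat_lit 1) .nil)))) .leaf) (nat_lit 4097) (nat_lit 5) (.p (nat_lit 7) (nat_lit 1) .z) .df (.nd .leaf (nat_lit 4099) (nat_lit 14) (.p (nat_lit 12) (nat_lit 1) (.n (nat_lit 14) (nat_lit 1) .z)) (.ct dr5s_c20 (nat_lit 2) (nat_lit 0) (.s true (nat_lit 1) (nat_lit 2) (nat_lit 1) (nat_lit 1) (nat_lit 1) true (nat_lit 0) true (nat_lit 2) true (nat_lit 1) true (nat_lit 2) true (nat_lit 2) (.s true (nat_lit 1) (nat_lit 3) (nat_lit 1) (nat_lit 0) (nat_lit 1) true (nat_lit 0) true (nat_lit 2) true (nat_lit 0) true (nat_lit 2) true (nat_lit 3) (.s true (nat_lit 1) (nat_lit 3) (nat_lit 1) (nat_lit 1) (nat_lit 0) true (nat_lit 1) true (nat_lit 3) true (nat_lit 0) true (nat_lit 2) true (nat_lit 2) (.e false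 (nat_lit 2) (nat_lit 8) (nat_lit 1) (nat_lit 2) (.e true (nat_lit 2) (nat_lit 10) (nat_lit 0) (nat_lit 3) .nil)))))) .leaf))) (nat_lit 5121) (nat_lit 6) (.p (nat_lit 8) (nat_lit 1) .z) .df (.nd (.nd (.nd .leaf (nat_lit 5123) (nat_lit 15) (.p (nat_lit 12) (nat_lit 2) (.p (nat_lit 13) (nat_lit 2) .z)) (.ct dr5s_c20 (nat_lit 1) (nat_lit 0) (.s false (nat_lit 1) (nat_lit 3) (nat_lit 1) (nat_lit 0) (nat_lit 1) true (nat_lit 0) true (nat_lit 2) true (nat_lit 0) true (nat_lit 2) true (nat_lit 3) (.e false (nat_lit 2) (nat_lit 9) (nat_lit 1) (nat_lit 2) (.e false (nat_lit 1) (nat_lit 4) (nat_lit 3) (nat_lit 0) (.e false (nat_lit 1) (nat_lit 8) (nat_lit 1) (nat_lit 2) (.e false (nat_lit 1) (nat_lit 10) (nat_lit 0) (nat_lit 3) .nil)))))) .leaf) (nat_lit 6144) (nat_lit 7) (.p (nat_lit 9) (nat_lit 1) .z) .df (.nd .leaf (nat_lit 6145) (nat_lit 9) (.p (nat_lit 10) (nat_lit 1) .z) .df .leaf))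 (nat_lit 6146) (nat_lit 16) (.n (nat_lit 13) (nat_lit 1) (.n (nat_lit 14) (nat_lit 1) .z)) (.ct dr5s_c20 (nat_lit 1) (nat_lit 1) (.s false (nat_lit 1) (nat_lit 2) (nat_lit 1) (nat_lit 1) (nat_lit 1) true (nat_lit 0) true (nat_lit 2) true (nat_lit 1) true (nat_lit 2) true (nat_lit 2) (.e false (nat_lit 1) (nat_lit 4) (nat_lit 3) (nat_lit 0) (.e true (nat_lit 1) (nat_lit 8) (nat_lit 1) (nat_lit 2) (.e true (nat_lit 1) (nat_lit 9) (nat_lit 1) (nat_lit 2) .nil))))) (.nd (.nd .leaf (nat_lit 6147) (nat_lit 18) .z (.ct dr5s_c5 (nat_lit 2) (nat_lit 0) (.s true (nat_lit 1) (nat_lit 3) (nat_lit 1) (nat_lit 1) (nat_lit 1) true (nat_lit 0) true (nat_lit 1) true (nat_lit 0) true (nat_lit 1) true (nat_lit 1) .nil)) .leaf) (nat_lit 6148) (nat_lit 26) (.n (nat_lit 20) (nat_lit 1) .z) (.ct dr5s_c21 (nat_lit 1) (nat_lit 0) (.s true (nat_lit 1) (nat_lit 6) (nat_lit 0) (nat_lit 1) (nat_lit 1) true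 (nat_lit 2) true (nat_lit 3) false (nat_lit 0) true (nat_lit 4) true (nat_lit 3) (.e true (nat_lit 1) (nat_lit 10) (nat_lit 2) (nat_lit 2) (.e true (nat_lit 1) (nat_lit 13) (nat_lit 1) (nat_lit 3) (.e true (nat_lit 1) (nat_lit 14) (nat_lit 1) (nat_lit 3) .nil))))) (.nd .leaf (nat_lit 6149) (nat_lit 28) (.p (nat_lit 17) (nat_lit 2) (.p (nat_lit 18) (nat_lit 2) (.n (nat_lit 19) (nat_lit 1) .z))) (.ct dr5s_c21 (nat_lit 1) (nat_lit 0) (.s true (nat_lit 1) (nat_lit 3) (nat_lit 0) (nat_lit 1) (nat_lit 3) true (nat_lit 0) true (nat_lit 1) true (nat_lit 1) true (nat_lit 4) true (nat_lit 3) (.e false (nat_lit 1) (nat_lit 9) (nat_lit 3) (nat_lit 1) .nil))) .leaf)))) (nat_lit 6150) (nat_lit 32) (.p (nat_lit 22) (nat_lit 1) .z) (.ct dr5s_c6 (nat_lit 1) (nat_lit 0) (.s false (nat_lit 1) (nat_lit 3) (nat_lit 1) (nat_lit 1) (nat_lit 3) true (nat_lit 0) true (nat_lit 1) true (nat_lit 1) true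 (nat_lit 2) true (nat_lit 2) (.e false (nat_lit 1) (nat_lit 10) (nat_lit 3) (nat_lit 1) .nil))) (.nd (.nd (.nd (.nd (.nd .leaf (nat_lit 7169) (nat_lit 10) (.p (nat_lit 11) (nat_lit 1) .z) .df .leaf) (nat_lit 7171) (nat_lit 29) (.p (nat_lit 17) (nat_lit 1) (.p (nat_lit 18) (nat_lit 1) (.p (nat_lit 20) (nat_lit 1) .z))) (.ct dr5s_c21 (nat_lit 1) (nat_lit 1) (.s true (nat_lit 1) (nat_lit 3) (nat_lit 2) (nat_lit 1) (nat_lit 1) true (nat_lit 0) true (nat_lit 3) true (nat_lit 1) true (nat_lit 2) true (nat_lit 3) (.e true (nat_lit 1) (nat_lit 6) (nat_lit 4) (nat_lit 0) (.e false (nat_lit 1) (nat_lit 12) (nat_lit 1) (nat_lit 3) (.e true (nat_lit 1) (nat_lit 14) (nat_lit 1) (nat_lit 3) .nil))))) .leaf) (nat_lit 8193) (nat_lit 11) (.p (nat_lit 12) (nat_lit 1) .z) .df (.nd .leaf (nat_lit 8195) (nat_lit 22) (.p (nat_lit 19) (nat_lit 1) .z) .df .leaf)) (nat_lit 9217) (nat_lit 12) (.p (nat_lit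 13) (nat_lit 1) .z) .df (.nd (.nd .leaf (nat_lit 9219) (nat_lit 24) (.p (nat_lit 17) (nat_lit 2) (.p (nat_lit 18) (nat_lit 2) (.n (nat_lit 19) (nat_lit 1) .z))) (.ct dr5s_c21 (nat_lit 1) (nat_lit 1) (.s false (nat_lit 1) (nat_lit 3) (nat_lit 0) (nat_lit 3) (nat_lit 1) true (nat_lit 2) true (nat_lit 3) true (nat_lit 1) true (nat_lit 4) true (nat_lit 1) (.e false (nat_lit 2) (nat_lit 12) (nat_lit 1) (nat_lit 3) (.e false (nat_lit 2) (nat_lit 13) (nat_lit 1) (nat_lit 3) (.e true (nat_lit 1) (nat_lit 8) (nat_lit 3) (nat_lit 1) .nil))))) .leaf) (nat_lit 10240) (nat_lit 13) (.p (nat_lit 14) (nat_lit 1) .z) .df (.nd .leaf (nat_lit 10241) (nat_lit 17) (.p (nat_lit 15) (nat_lit 1) .z) .df .leaf))) (nat_lit 10242) (nat_lit 23) (.p (nat_lit 20) (nat_lit 1) .z) .df (.nd (.nd (.nd .leaf (nat_lit 10243) (nat_lit 31) (.p (nat_lit 22) (nat_lit 1) .z) .df .leaf) (nat_lit 11265) (nat_lit 19) (.p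 (nat_lit 16) (nat_lit 1) .z) .df (.nd .leaf (nat_lit 12289) (nat_lit 20) (.p (nat_lit 17) (nat_lit 1) .z) .df .leaf)) (nat_lit 13313) (nat_lit 21) (.p (nat_lit 18) (nat_lit 1) .z) .df (.nd (.nd .leaf (nat_lit 14337) (nat_lit 25) (.n (nat_lit 18) (nat_lit 1) .z) (.ct dr5s_c21 (nat_lit 4) (nat_lit 3) (.s false (nat_lit 1) (nat_lit 3) (nat_lit 0) (nat_lit 1) (nat_lit 3) true (nat_lit 0) true (nat_lit 1) true (nat_lit 1) true (nat_lit 4) true (nat_lit 3) (.s true (nat_lit 1) (nat_lit 6) (nat_lit 0) (nat_lit 1) (nat_lit 1) true (nat_lit 2) true (nat_lit 3) false (nat_lit 0) true (nat_lit 4) true (nat_lit 3) (.s true (nat_lit 1) (nat_lit 6) (nat_lit 1) (nat_lit 0) (nat_lit 1) true (nat_lit 1) true (nat_lit 3) false (nat_lit 0) true (nat_lit 3) true (nat_lit 4) (.s false (nat_lit 1) (nat_lit 6) (nat_lit 1) (nat_lit 1) (nat_lit 0) true (nat_lit 2) true (nat_lit 4) false (nat_lit 0) true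 (nat_lit 3) true (nat_lit 3) (.e true (nat_lit 4) (nat_lit 13) (nat_lit 1) (nat_lit 3) .nil)))))) .leaf) (nat_lit 15360) (nat_lit 27) (.p (nat_lit 17) (nat_lit 2) (.p (nat_lit 18) (nat_lit 3) (.n (nat_lit 19) (nat_lit 1) (.n (nat_lit 20) (nat_lit 1) .z)))) (.ct dr5s_c21 (nat_lit 1) (nat_lit 4) (.s true (nat_lit 1) (nat_lit 6) (nat_lit 1) (nat_lit 0) (nat_lit 1) true (nat_lit 1) true (nat_lit 3) false (nat_lit 0) true (nat_lit 3) true (nat_lit 4) (.e false (nat_lit 1) (nat_lit 9) (nat_lit 3) (nat_lit 1) (.e true (nat_lit 2) (nat_lit 14) (nat_lit 1) (nat_lit 3) (.e false (nat_lit 1) (nat_lit 6) (nat_lit 4) (nat_lit 0) (.e true (nat_lit 1) (nat_lit 13) (nat_lit 1) (nat_lit 3) .nil)))))) (.nd .leaf (nat_lit 15361) (nat_lit 30) (.p (nat_lit 21) (nat_lit 1) .z) .df .leaf))))), dr5s_cl⟩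

noncomputable def dr5s_gs : BL := (.c (nat_lit 7) (nat_lit 3) (nat_lit 6) (nat_lit 1) (nat_lit 0) (.c (nat_lit 10) (nat_lit 1) (nat_lit 4) (nat_lit 2) (nat_lit 3) (.c (nat_lit 11) (nat_lit 4) (nat_lit 3) (nat_lit 1) (nat_lit 5) (.c (nat_lit 15) (nat_lit 1) (nat_lit 2) (nat_lit 1) (nat_lit 9) (.c (nat_lit 16) (nat_lit 5) (nat_lit 1) (nat_lit 1) (nat_lit 10) (.c (nat_lit 21) (nat_lit 2) (nat_lit 0) (nat_lit 1) (nat_lit 15) .nil))))))

noncomputable def dr5s_il : IL := (.s false (nat_lit 275) (nat_lit 3) (nat_lit 2) (nat_lit 1) (nat_lit 3) false (nat_lit 0) true (nat_lit 2) true (nat_lit 2) true (nat_lit 3) true (nat_lit 4) (.s false (nat_lit 80) (nat_lit 4) (nat_lit 1) (nat_lit 1) (nat_lit 3) true (nat_lit 0) true (nat_lit 2) true (nat_lit 1) true (nat_lit 4) true (nat_lit 4) (.s false (nat_lit 260) (nat_lit 5) (nat_lit 1) (nat_lit 1) (nat_lit 3) true (nat_lit 0) true (nat_lit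 2) true (nat_lit 1) true (nat_lit 4) true (nat_lit 4) (.s true (nat_lit 520) (nat_lit 6) (nat_lit 0) (nat_lit 1) (nat_lit 3) true (nat_lit 1) true (nat_lit 2) true (nat_lit 0) true (nat_lit 5) true (nat_lit 4) (.s true (nat_lit 210) (nat_lit 6) (nat_lit 1) (nat_lit 0) (nat_lit 3) true (nat_lit 0) true (nat_lit 2) true (nat_lit 0) true (nat_lit 4) true (nat_lit 5) (.s false (nat_lit 165) (nat_lit 6) (nat_lit 1) (nat_lit 1) (nat_lit 2) true (nat_lit 1) true (nat_lit 3) true (nat_lit 0) true (nat_lit 4) true (nat_lit 4) (.s true (nat_lit 115) (nat_lit 6) (nat_lit 1) (nat_lit 2) (nat_lit 1) true (nat_lit 2) true (nat_lit 4) true (nat_lit 0) true (nat_lit 4) true (nat_lit 3) (.s true (nat_lit 290) (nat_lit 6) (nat_lit 1) (nat_lit 3) (nat_lit 0) true (nat_lit 3) true (nat_lit 5) true (nat_lit 0) true (nat_lit 4) true (nat_lit 2) (.s false (nat_lit 35) (nat_lit 6) (nat_lit 2) (nat_lit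 1) (nat_lit 1) true (nat_lit 1) true (nat_lit 4) true (nat_lit 0) true (nat_lit 3) true (nat_lit 4) (.s true (nat_lit 370) (nat_lit 6) (nat_lit 3) (nat_lit 0) (nat_lit 1) true (nat_lit 0) true (nat_lit 4) true (nat_lit 0) true (nat_lit 2) true (nat_lit 5) (.s true (nat_lit 440) (nat_lit 10) (nat_lit 1) (nat_lit 1) (nat_lit 0) true (nat_lit 3) true (nat_lit 5) false (nat_lit 1) true (nat_lit 4) true (nat_lit 4) .nil)))))))))))

theorem dr5s_chk : chk 5 idsM dr5s_D par1 (clsL [0,0,0,0,0,0,1]) r5sEx (.c (nat_lit 1) (nat_lit 1) (.c (nat_lit 1) (nat_lit 1) (.c (nat_lit 1) (nat_lit 1) (.c (nat_lit 1) (nat_lit 1) (.c (nat_lit 1) (nat_lit 1) (.c (nat_lit 1) (nat_lit 1) (.c (nat_lit 0) (nat_lit 16) .nil))))))) (nat_lit 33) (nat_lit 22) (nat_lit 4) dr5s_gs dr5s_il = true := by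
  decide +kernel

end Chk

/-- certificate of `r5sEx` -/
theorem cert_r5sEx : Cert.{u} 5 idsM par1 (clsL [0,0,0,0,0,0,1]) r5sEx :=
  Chk.chk_sound _ _ (by simp [idsM]) (by simp [idsM]) _ _ _ _ _ _ _ _ _ _ Chk.dr5s_chk

end Pool.Agent.MalP
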