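import Pool.Agent.MalP.Der

/-! # Characteristic subspaces of the free Malcev algebra -/

set_option autoImplicit false

namespace Pool.Agent.MalP

universe u v

variable {F : Type u} [Field F] [C23 F]

namespace CharIAux

omit [C23 F] in
open Classical in
/-- the Euler derivation of the letter `i` -/
theorem exists_euler (i : ℕ) : ∃ D : FreeMalcev F ℕ →ₗ[F] FreeMalcev F ℕ, IsDer D ∧
    ∀ (m : Multiset ℕ) (p : FreeMalcev F ℕ), p ∈ GM F m → D p = (m.count i : F) • p := by
  obtain ⟨D, hD, h⟩ := exists_der (F := F)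
    (fun j : ℕ => if j = i then (FreeMalcev.of i : FreeMalcev F ℕ) else 0)
  refine ⟨D, hD, fun m p hp => der_count D hD i ?_ ?_ hp⟩
  · rw [h, if_pos rfl]
  · intro j hj
    rw [h, if_neg hj]

theorem ne_of_le3 {a b : ℕ} (ha : a ≤ 3) (hb : b ≤ 3) (h : a ≠ b) : (a : F) - (b : F) ≠ 0 := by
  have h2 : (2 : F) ≠ 0 := C23.two
  have h3 : (3 : F) ≠ 0 := C23.three
  have key : ∀ a b : ℕ, a ≤ 3 → b ≤ 3 → a < b → (b : F) - (a : F) ≠ 0 := by
    intro a b _ hb hab
    have e : (b : F) - (a : F) = ((b - a : ℕ) : F) := by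
      rw [Nat.cast_sub hab.le]
    rw [e]
    obtain ⟨d, hd⟩ : ∃ d, d = b - a := ⟨_, rfl⟩
    rw [← hd]
    have h1 : 1 ≤ d := by omega
    have h4 : d ≤ 3 := by omega
    interval_cases d
    · simp
    · exact_mod_cast h2
    · exact_mod_cast h3
  rcases lt_or_gt_of_ne h with h1 | h1
  · have h4 := key a b ha hb h1
    intro h5
    apply h4
    rw [← neg_sub, h5, neg_zero]
  · exact key b a hb ha h1

/-- separation of the components with at most three occurrences of every letter -/
theorem family {I : Submodule F (FreeMalcev F ℕ)} (hc : IsChar I) (n : ℕ) :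
    ∀ (s : Finset (Multiset ℕ)) (q : Multiset ℕ → FreeMalcev F ℕ), s.card = n →
      (∀ m ∈ s, q m ∈ GM F m) → (∀ m ∈ s, ∀ i, m.count i ≤ 3) → ∑ m ∈ s, q m ∈ I →
      ∀ m ∈ s, q m ∈ I := by
  classical
  induction n with
  | zero =>
    intro s q hs _ _ _ m hm
    rw [Finset.card_eq_zero] at hs
    rw [hs] at hm
    exact absurd hm (Finset.notMem_empty m)
  | succ n ih =>
    intro s q hs hq hct hI m0 hm0
    by_cases h : ∃ m' ∈ s, m' ≠ m0
    · obtain ⟨m', hm', hne⟩ := h
      obtain ⟨i, hi⟩ : ∃ i, m'.count i ≠ m0.count i := by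
        by_contra hcon
        push Not at hcon
        exact hne (Multiset.ext.mpr hcon)
      obtain ⟨D, hD, hDp⟩ := exists_euler (F := F) i
      have h1 : D (∑ m ∈ s, q m) - (m'.count i : F) • ∑ m ∈ s, q m ∈ I :=
        I.sub_mem (hc D hD _ hI) (I.smul_mem _ hI)
      have h2 : D (∑ m ∈ s, q m) - (m'.count i : F) • ∑ m ∈ s, q m =
          ∑ m ∈ s.erase m', ((m.count i : F) - (m'.count i : F)) • q m := by
        rw [map_sum, Finset.smul_sum, ← Finset.sum_sub_distrib, ← Finset.sum_erase_add s _ hm',
          hDp m' _ (hq m' hm'), sub_self, add_zero]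
        refine Finset.sum_congr rfl fun m hm => ?_
        rw [hDp m _ (hq m (Finset.mem_of_mem_erase hm)), sub_smul]
      rw [h2] at h1
      have h3 := ih (s.erase m') (fun m => ((m.count i : F) - (m'.count i : F)) • q m)
        (by rw [Finset.card_erase_of_mem hm', hs]; rfl)
        (fun m hm => (GM F m).smul_mem _ (hq m (Finset.mem_of_mem_erase hm)))
        (fun m hm => hct m (Finset.mem_of_mem_erase hm)) h1 m0
        (Finset.mem_erase.mpr ⟨hne.symm, hm0⟩)
      have h4 : (m0.count i : F) - (m'.count i : F) ≠ 0 :=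
        ne_of_le3 (hct m0 hm0 i) (hct m' hm' i) (Ne.symm hi)
      have h6 := I.smul_mem ((m0.count i : F) - (m'.count i : F))⁻¹ h3
      simpa only [smul_smul, inv_mul_cancel₀ h4, one_smul] using h6
    · push Not at h
      have h1 : s = {m0} := by
        refine Finset.eq_singleton_iff_unique_mem.mpr ⟨hm0, h⟩
      rw [h1, Finset.sum_singleton] at hI
      exact hI

end CharIAux

open CharIAux

namespace CharIAux

omit [C23 F] in
theorem ev_update_zero {L : Finset ℕ} {p : FA F} (hp : p ∈ Hg F L.val) {i : ℕ} (hi : i ∈ L)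
    (x : ℕ → FreeMalcev F ℕ) : ev (Function.update x i 0) p = 0 := by
  have h := ev_update_smul hp hi x (0 : F) (0 : FreeMalcev F ℕ)
  rwa [zero_smul, zero_smul] at h

omit [C23 F] in
theorem subst_aux {I : Submodule F (FreeMalcev F ℕ)} (hc : IsChar I) {L : Finset ℕ} {p : FA F}
    (hp : p ∈ Hg F L.val) (hI : FreeMalcev.mk p ∈ I) (y : ℕ → FreeMalcev F ℕ)
    (hy : ∀ l ∈ L, ∀ D : FreeMalcev F ℕ →ₗ[F] FreeMalcev F ℕ, IsDer D →
      (∀ k, k ≠ l → D (FreeMalcev.of k) = 0) → ∀ i ∈ L, D (y i) = 0) : ev y p ∈ I := by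
  classical
  have key : ∀ A : Finset ℕ, A ⊆ L →
      ev (fun i => if i ∈ A then y i else FreeMalcev.of i) p ∈ I := by
    intro A
    induction A using Finset.induction_on with
    | empty =>
      intro _
      have h : (fun i => if i ∈ (∅ : Finset ℕ) then y i else FreeMalcev.of i) =
          fun i => (FreeMalcev.of i : FreeMalcev F ℕ) := by
        funext i
        rw [if_neg (Finset.notMem_empty i)]
      rw [h, ← mk_eq_ev]
      exact hI
    | insert l A hl ih =>
      intro hA
      have hlL : l ∈ L := hA (Finset.mem_insert_self l A)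
      have hAL : A ⊆ L := (Finset.subset_insert l A).trans hA
      obtain ⟨D, hD, hof⟩ := exists_der (F := F)
        (fun j : ℕ => if j = l then y l else (0 : FreeMalcev F ℕ))
      have h1 := hc D hD _ (ih hAL)
      rw [der_ev D hD hp, Finset.sum_eq_single l] at h1
      · have h2 : Function.update (fun i => if i ∈ A then y i else FreeMalcev.of i) l
            (D (if l ∈ A then y l else FreeMalcev.of l)) =
            fun i => if i ∈ insert l A then y i else (FreeMalcev.of i : FreeMalcev F ℕ) := by
          funext i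
          by_cases hi : i = l
          · subst hi
            rw [Function.update_self, if_neg hl, if_pos (Finset.mem_insert_self i A), hof,
              if_pos rfl]
          · rw [Function.update_of_ne hi]
            by_cases hiA : i ∈ A
            · rw [if_pos hiA, if_pos (Finset.mem_insert_of_mem hiA)]
            · rw [if_neg hiA, if_neg]
              simp [hi, hiA]
        rw [h2] at h1
        exact h1
      · intro i hi hil
        have h3 : D (if i ∈ A then y i else FreeMalcev.of i) = 0 := by
          by_cases hiA : i ∈ A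
          · rw [if_pos hiA]
            refine hy l hlL D hD ?_ i hi
            intro k hk
            rw [hof, if_neg hk]
          · rw [if_neg hiA, hof, if_neg hil]
        rw [h3]
        exact ev_update_zero hp hi _
      · intro h
        exact absurd hlL h
  have h := key L (Finset.Subset.refl L)
  rwa [ev_congr hp _ y] at h
  intro i hi
  exact if_pos hi

end CharIAux

/-- fresh letters -/
theorem char_shift {I : Submodule F (FreeMalcev F ℕ)} (hc : IsChar I) {L : Finset ℕ} {p : FA F}
    (hp : p ∈ Hg F L.val) (hI : FreeMalcev.mk p ∈ I) {N : ℕ} (hN : ∀ k ∈ L, k < N) :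
    ev (fun i => (FreeMalcev.of (i + N) : FreeMalcev F ℕ)) p ∈ I := by
  refine subst_aux hc hp hI _ ?_
  intro l hl D _ hD i _
  refine hD _ ?_
  have := hN l hl
  omega

end Pool.Agent.MalP
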