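import Pool.Agent.MalP.Check

/-! # A checker for identities in superalgebras: products and nodes -/

set_option autoImplicit false

namespace Pool.Agent.MalP.Chk

universe u

section blocks

variable {S : Type u} [NonUnitalNonAssocRing S]

/-- value of a position -/
noncomputable def Gb (w : ℕ → S) (gs : BL) : ℕ → S :=
  BL.rec (motive := fun _ => ℕ → S) (fun _ => 0)
    (fun o1 n1 o2 n2 s _ ih pos => if s ≤ pos ∧ pos < s + n1 * n2 then
      w (o1 + (pos - s) % n1) * w (o2 + (pos - s) / n1) else ih pos) gs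

noncomputable def Mem (gs : BL) (a1 m1 a2 m2 r : ℕ) : Prop :=
  BL.rec (motive := fun _ => Prop) False (fun o1 n1 o2 n2 s _ ih =>
    (o1 = a1 ∧ n1 = m1 ∧ o2 = a2 ∧ n2 = m2 ∧ s = r) ∨ ih) gs

theorem Mem_ok (w : ℕ → S) (a1 m1 a2 m2 r : ℕ) (gs : BL) : ∀ lo : ℕ, gs.ok lo = true →
    Mem gs a1 m1 a2 m2 r → lo ≤ r ∧
      ∀ i < m1 * m2, Gb w gs (r + i) = w (a1 + i % m1) * w (a2 + i / m1) := by
  induction gs with
  | nil => intro _ _ h; exact absurd h id
  | c o1 n1 o2 n2 s t ih =>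
    intro lo h hm
    change bi (Nat.ble lo s) (t.ok (s + n1 * n2)) false = true at h
    obtain ⟨h1, h2⟩ := bi_and h
    have h1' : lo ≤ s := Nat.le_of_ble_eq_true h1
    rcases hm with ⟨rfl, rfl, rfl, rfl, rfl⟩ | hm
    · refine ⟨h1', fun i hi => ?_⟩
      show (if s ≤ s + i ∧ s + i < s + n1 * n2 then
        w (o1 + (s + i - s) % n1) * w (o2 + (s + i - s) / n1) else Gb w t (s + i)) = _
      rw [if_pos ⟨Nat.le_add_right _ _, Nat.add_lt_add_left hi s⟩, Nat.add_sub_cancel_left]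
    · obtain ⟨k1, k2⟩ := ih _ h2 hm
      refine ⟨by omega, fun i hi => ?_⟩
      show (if s ≤ r + i ∧ r + i < s + n1 * n2 then
        w (o1 + (r + i - s) % n1) * w (o2 + (r + i - s) / n1) else Gb w t (r + i)) = _
      rw [if_neg (fun h => absurd h.2 (not_lt.2 (k1.trans (Nat.le_add_right _ _))))]
      exact k2 i hi

theorem get_mem (gs : BL) : ∀ (h a1 m1 a2 m2 r : ℕ), gs.get h = .mk a1 m1 a2 m2 r →
    m1 = 0 ∨ Mem gs a1 m1 a2 m2 r := by
  induction gs with
  | nil =>
    intro h a1 m1 a2 m2 r hg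
    left
    have : Gp.mk 0 0 0 0 0 = Gp.mk a1 m1 a2 m2 r := hg
    injection this with _ h _ _ _
    exact h.symm
  | c o1 n1 o2 n2 s t ih =>
    intro h a1 m1 a2 m2 r hg
    rcases h with _ | h
    · right
      left
      have : Gp.mk o1 n1 o2 n2 s = Gp.mk a1 m1 a2 m2 r := hg
      injection this with q1 q2 q3 q4 q5
      exact ⟨q1, q2, q3, q4, q5⟩
    · rcases ih h a1 m1 a2 m2 r hg with h | h
      · exact Or.inl h
      · exact Or.inr (Or.inr h)

/-- value of a position in a component -/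
noncomputable def Gv (w : ℕ → S) (oN nN : ℕ) (gs : BL) (pos : ℕ) : S :=
  if pos < nN then w (oN + pos) else Gb w gs pos

theorem Gv_mem (w : ℕ → S) (oN nN : ℕ) (gs : BL) (hok : gs.ok nN = true) (a1 m1 a2 m2 r : ℕ)
    (hm : Mem gs a1 m1 a2 m2 r) (k l : ℕ) (hk : a1 ≤ k ∧ k < a1 + m1) (hl : a2 ≤ l ∧ l < a2 + m2) :
    Gv w oN nN gs ((k - a1) * 1 + (l - a2) * m1 + r) = w k * w l := by
  obtain ⟨h1, h2⟩ := Mem_ok w a1 m1 a2 m2 r gs nN hok hm
  have hlt : (k - a1) + (l - a2) * m1 < m1 * m2 := by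
    have a : k - a1 < m1 := by omega
    have b : l - a2 + 1 ≤ m2 := by omega
    calc (k - a1) + (l - a2) * m1 < m1 + (l - a2) * m1 := Nat.add_lt_add_right a _
      _ = m1 * (l - a2 + 1) := by ring
      _ ≤ m1 * m2 := Nat.mul_le_mul_left _ b
  have h3 := h2 _ hlt
  have e1 : (k - a1) * 1 + (l - a2) * m1 + r = r + ((k - a1) + (l - a2) * m1) := by ring
  have hm1 : 0 < m1 := by omega
  unfold Gv
  rw [if_neg (by omega), e1, h3]
  congr 1
  · rw [Nat.add_mul_mod_self_right, Nat.mod_eq_of_lt (show k - a1 < m1 by omega)]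
    congr 1
    omega
  · rw [Nat.add_mul_div_right _ _ hm1, Nat.div_eq_of_lt (show k - a1 < m1 by omega), Nat.zero_add]
    congr 1
    omega

/-- a packing function represents `x` -/
def XR (β : ℕ) (w : ℕ → S) (X : ℕ → ℕ → ℕ → PV) (x : S) : Prop :=
  ∀ o n st, RG β (fun k => (k - o) * st) w (fun k => o ≤ k ∧ k < o + n) (X o n st) x

variable {β : ℕ} {w : ℕ → S}

theorem RG_rp_mem {X Y : ℕ → ℕ → ℕ → PV} {x y : S} (hX : XR β w X x) (hY : XR β w Y y)
    (oN nN : ℕ) (gs : BL) (hok : gs.ok nN = true) (a1 m1 a2 m2 r : ℕ)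
    (hm : m1 = 0 ∨ Mem gs a1 m1 a2 m2 r) :
    RG β id (Gv w oN nN gs) (fun _ => True) (rp β (.mk a1 m1 a2 m2 r) X Y) (x * y) := by
  refine RG.mul r (hX a1 m1 1) (hY a2 m2 m1) fun k l hk hl => ?_
  rcases hm with hm | hm
  · rw [hm] at hk
    exact absurd hk.2 (not_lt.2 hk.1)
  · exact Gv_mem w oN nN gs hok a1 m1 a2 m2 r hm k l hk hl

theorem RG_rp {X Y : ℕ → ℕ → ℕ → PV} {x y : S} (hX : XR β w X x) (hY : XR β w Y y)
    (oN nN : ℕ) (gs : BL) (hok : gs.ok nN = true) (h : ℕ) :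
    RG β id (Gv w oN nN gs) (fun _ => True) (rp β (gs.get h) X Y) (x * y) := by
  cases hg : gs.get h with | mk a1 m1 a2 m2 r =>
  exact RG_rp_mem hX hY oN nN gs hok a1 m1 a2 m2 r (get_mem gs h a1 m1 a2 m2 r hg)

end blocks

section nodes

variable {S : Type u} [NonUnitalNonAssocRing S]

/-- values of the nodes -/
noncomputable def Wf (D : Dt) (v : ℕ → S) : ℕ → ℕ → S
  | 0, _ => 0
  | f + 1, k => if nc D k % 2 = 1 then v (nc D k / 2)
      else Wf D v f (nc D k / 2 / 1024) * Wf D v f (nc D k / 2 % 1024)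

noncomputable def W (D : Dt) (v : ℕ → S) (k : ℕ) : S := if k < D.N then Wf D v (k + 1) k else 0

theorem bool_eq {a b : Bool} (h : bi a b (not b) = true) : a = b := by
  cases a <;> cases b <;> simp_all [bi]

/-- what `chkN` gives -/
def NOk (D : Dt) (par : ℕ → Bool) (k : ℕ) : Prop :=
  (nc D k % 2 = 1 ∧ pr D k = par (nc D k / 2)) ∨
  (nc D k % 2 ≠ 1 ∧ nc D k / 2 / 1024 < k ∧ nc D k / 2 % 1024 < k ∧
    pr D k = xor (pr D (nc D k / 2 / 1024)) (pr D (nc D k / 2 % 1024)))

theorem chkN_ok (D : Dt) (par : ℕ → Bool) (n : ℕ) (h : chkN D par n = true) :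
    ∀ k < n, NOk D par k := by
  induction n with
  | zero => intro k hk; exact absurd hk (Nat.not_lt_zero k)
  | succ n ih =>
    change bi (bi (Nat.beq (Nat.mod (nc D n) 2) 1) _ _) (chkN D par n) false = true at h
    obtain ⟨h1, h2⟩ := bi_and h
    intro k hk
    rcases Nat.lt_succ_iff_lt_or_eq.1 hk with hk | rfl
    · exact ih h2 k hk
    · cases h3 : Nat.beq (Nat.mod (nc D k) 2) 1
      · rw [h3] at h1
        obtain ⟨a1, a2⟩ := bi_and (show bi _ _ false = true from h1)
        obtain ⟨a3, a4⟩ := bi_and a2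
        refine Or.inr ⟨fun e => ?_, Nat.le_of_ble_eq_true a1, Nat.le_of_ble_eq_true a3,
          bool_eq a4⟩
        have e' : Nat.mod (nc D k) 2 = 1 := e
        rw [e'] at h3
        exact absurd h3 (by decide)
      · rw [h3] at h1
        exact Or.inl ⟨Nat.eq_of_beq_eq_true h3, bool_eq (show bi _ _ _ = true from h1)⟩

variable {D : Dt} {par : ℕ → Bool}

theorem Wf_eq (v : ℕ → S) (hN : ∀ k < D.N, NOk D par k) (k : ℕ) : k < D.N → ∀ f, k < f →
    Wf D v f k = Wf D v (k + 1) k := by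
  induction k using Nat.strong_induction_on with
  | _ k ih =>
    intro hk f hf
    obtain ⟨f, rfl⟩ : ∃ g, f = g + 1 := ⟨f - 1, by omega⟩
    unfold Wf
    rcases hN k hk with ⟨h1, _⟩ | ⟨h1, h2, h3, _⟩
    · rw [if_pos h1, if_pos h1]
    · rw [if_neg h1, if_neg h1, ih _ h2 (h2.trans hk) f (by omega), ih _ h3 (h3.trans hk) f (by omega),
        ih _ h2 (h2.trans hk) k h2, ih _ h3 (h3.trans hk) k h3]

theorem W_prod (v : ℕ → S) (hN : ∀ k < D.N, NOk D par k) (k : ℕ) (hk : k < D.N)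
    (h : nc D k % 2 ≠ 1) :
    W D v k = W D v (nc D k / 2 / 1024) * W D v (nc D k / 2 % 1024) := by
  rcases hN k hk with ⟨h1, _⟩ | ⟨h1, h2, h3, _⟩
  · exact absurd h1 h
  · unfold W
    rw [if_pos hk, if_pos (h2.trans hk), if_pos (h3.trans hk)]
    rw [Wf, if_neg h1, Wf_eq v hN _ (h2.trans hk) k h2, Wf_eq v hN _ (h3.trans hk) k h3]

theorem W_gen (v : ℕ → S) (k : ℕ) (hk : k < D.N) (g : ℕ) (h : nc D k = 2 * g + 1) :
    W D v k = v g := by
  unfold W
  rw [if_pos hk, Wf, if_pos (by omega)]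
  congr 1
  omega

theorem W_mem {M : ℕ} {ids : List PEx} (h : SM M ids S) (v : ℕ → S) (hv : ∀ g, v g ∈ h.P (par g))
    (hN : ∀ k < D.N, NOk D par k) (k : ℕ) : W D v k ∈ h.P (pr D k) := by
  induction k using Nat.strong_induction_on with
  | _ k ih =>
    by_cases hk : k < D.N
    · rcases hN k hk with ⟨h1, h2⟩ | ⟨h1, h2, h3, h4⟩
      · rw [W_gen v k hk (nc D k / 2) (by omega), h2]
        exact hv _
      · rw [W_prod v hN k hk h1, h4]
        exact h.mul_mem _ _ _ _ (ih _ h2) (ih _ h3)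
    · unfold W
      rw [if_neg hk]
      exact zero_mem _

end nodes

section look

variable {S : Type u} [NonUnitalNonAssocRing S]

/-- the entries of rank less than R are right -/
def VAL (D : Dt) (w : ℕ → S) (R : ℕ) : Prop :=
  ∀ key, nobad (find D.T R key) →
    D.sc • (w (key / 1024) * w (key % 1024)) = svG w (find D.T R key)

theorem anti_sm {M : ℕ} {ids : List PEx} (h : SM M ids S) (ha : antiEx ∈ ids) (px py : Bool) (x y : S)
    (hx : x ∈ h.P px) (hy : y ∈ h.P py) : x * y = Pool.Agent.MalP.sg (not (and px py)) • (y * x) := by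
  have h1 := h.ids antiEx ha (fun l => Nat.rec px (fun _ _ => py) l) (fun l => Nat.rec x (fun _ _ => y) l)
    (fun l => by cases l with
      | zero => exact hx
      | succ l => exact hy)
  have h2 : Pool.Agent.MalP.sg (xor (xor (py && px && false) false) false) • (x * y) +
    Pool.Agent.MalP.sg (xor (xor (py && px && true) false) false) • (y * x) = 0 := by
    cases px <;> cases py <;> exact h1
  cases px <;> cases py <;> simp [Pool.Agent.MalP.sg] at h2 ⊢ <;>
    first
    | exact eq_neg_of_add_eq_zero_left h2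
    | exact sub_eq_zero.1 (by rw [← h2]; abel)

theorem ble_false {a b : ℕ} (h : Nat.ble a b = false) : b < a := by
  by_contra hc
  have : Nat.ble a b = true := Nat.ble_eq_true_of_le (not_lt.1 hc)
  rw [this] at h
  exact absurd h (by decide)

theorem div_key (i j : ℕ) (hj : j ≤ 1023) : (Nat.add (Nat.mul 1024 i) j) / 1024 = i := by
  show (1024 * i + j) / 1024 = i
  omega

theorem mod_key (i j : ℕ) (hj : j ≤ 1023) : (Nat.add (Nat.mul 1024 i) j) % 1024 = j := by
  show (1024 * i + j) % 1024 = j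
  omega

theorem lk_ok {M : ℕ} {ids : List PEx} (h : SM M ids S) (ha : antiEx ∈ ids) {D : Dt} {w : ℕ → S}
    (hw : ∀ k, w k ∈ h.P (pr D k)) {R : ℕ} (hV : VAL D w R) (i j : ℕ) :
    nobad (lk D R i j) → D.sc • (w i * w j) = svG w (lk D R i j) := by
  unfold lk
  cases h1 : Nat.ble i 1023
  · exact fun h => absurd h id
  cases h2 : Nat.ble j 1023
  · exact fun h => absurd h id
  have h1' : i ≤ 1023 := Nat.le_of_ble_eq_true h1
  have h2' : j ≤ 1023 := Nat.le_of_ble_eq_true h2
  rw [bi_tt, bi_tt]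
  have hsw : ∀ v : SV, v = find D.T R (Nat.add (Nat.mul 1024 j) i) → nobad v →
      D.sc • (w j * w i) = svG w v := by
    intro v hv hb
    rw [hv] at hb ⊢
    have := hV _ hb
    rwa [div_key j i h1', mod_key j i h1'] at this
  have hanti := anti_sm h ha (pr D i) (pr D j) (w i) (w j) (hw i) (hw j)
  cases h3 : Nat.ble i j
  · rw [bi_ff]
    intro hb
    have := hV _ hb
    rwa [div_key i j h2', mod_key i j h2'] at this
  rw [bi_tt]
  cases h4 : Nat.beq i j
  · rw [bi_ff]
    cases h5 : pr D i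
    · rw [bi_ff]
      intro hb
      rw [h5] at hanti
      rw [svG_neg, ← hsw _ rfl (nobad_neg _ hb), hanti]
      simp [Pool.Agent.MalP.sg]
    · rw [bi_tt]
      cases h6 : pr D j
      · rw [bi_ff]
        intro hb
        rw [h5, h6] at hanti
        rw [svG_neg, ← hsw _ rfl (nobad_neg _ hb), hanti]
        simp [Pool.Agent.MalP.sg]
      · rw [bi_tt]
        intro hb
        rw [h5, h6] at hanti
        rw [← hsw _ rfl hb, hanti]
        simp [Pool.Agent.MalP.sg]
  · rw [bi_tt]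
    cases h5 : pr D i
    · rw [bi_ff]
      intro _
      have hij : i = j := Nat.eq_of_beq_eq_true h4
      subst hij
      rw [h5] at hanti
      have h7 : (2 : ℤ) • (w i * w i) = 0 := by
        rw [two_smul]
        nth_rewrite 1 [hanti]
        simp [Pool.Agent.MalP.sg]
      rw [h.tf 2 _ smooth_2 h7, smul_zero]
      rfl
    · rw [bi_tt]
      intro hb
      have := hV _ hb
      rwa [div_key i j h2', mod_key i j h2'] at this

variable {M : ℕ} {ids : List PEx} (h : SM M ids S) (ha : antiEx ∈ ids) {D : Dt} {w : ℕ → S}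
  (hw : ∀ k, w k ∈ h.P (pr D k)) {R : ℕ} (hV : VAL D w R)

theorem XR_X1 (D : Dt) (w : ℕ → S) (k : ℕ) : XR D.β w (X1 D k) (w k) := by
  intro o n st
  refine (RG_pk o n st (.p k 1 .z)).congr ?_
  show 1 • w k + 0 = w k
  rw [one_smul, add_zero]

include ha hw hV in
theorem XR_X2 (a b : ℕ) : XR D.β w (X2 D R a b) (D.sc • (w a * w b)) := by
  intro o n st hb
  have h1 := RG_pk (β := D.β) (g := w) o n st (lk D R a b) hb
  rw [lk_ok h ha hw hV a b (nobad_pk o n st _ hb)]
  exact h1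

include ha hw hV in
theorem XR_X3 (a b c : ℕ) : XR D.β w (X3 D R a b c) (D.sc • ((D.sc • (w a * w b)) * w c)) := by
  intro o n st hb
  have h1 := RG_comb (β := D.β) (g := w) (e := fun k => (k - o) * st)
    (Q := fun k => o ≤ k ∧ k < o + n) (fun k => pk D.β o n st (lk D R k c))
    (fun k => D.sc • (w k * w c)) (fun k => XR_X2 h ha hw hV k c o n st) (lk D R a b) hb
  rw [svG_smul, svG_mul_right, ← lk_ok h ha hw hV a b (nobad_comb _ _ hb)] at h1
  exact h1

/-- `tm` -/
theorem RG_tm {X Y : ℕ → ℕ → ℕ → PV} {x y : S} (hX : XR D.β w X x) (hY : XR D.β w Y y)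
    (oN nN : ℕ) (gs : BL) (hok : gs.ok nN = true) (ha : antiEx ∈ ids) (s f : Bool) (h' : ℕ)
    (px py : Bool) (hx : x ∈ h.P px) (hy : y ∈ h.P py) :
    RG D.β id (Gv w oN nN gs) (fun _ => True) (tm D gs s f h' px py X Y)
      (Pool.Agent.MalP.sg s • (x * y)) := by
  unfold tm
  cases f
  · rw [bi_ff, anti_sm h ha px py x y hx hy]
    have := RG.sg (bi px (bi py s (not s)) (not s)) (RG_rp hY hX oN nN gs hok h')
    refine this.congr ?_
    rw [smul_smul]
    congr 1
    cases px <;> cases py <;> cases s <;> rfl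
  · rw [bi_tt]
    exact RG.sg s (RG_rp hX hY oN nN gs hok h')

end look

end Pool.Agent.MalP.Chk
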