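import Pool.Agent.MalP.Check2
import Pool.Agent.MalP.Certs

/-! # A checker for identities in superalgebras: soundness -/

set_option autoImplicit false

namespace Pool.Agent.MalP.Chk

universe u

open Finset

section

variable {S : Type u} [NonUnitalNonAssocRing S]

/-- assignment of the letters of Sagle's identity -/
def four {α : Type*} (a b c d : α) : ℕ → α
  | 0 => a
  | 1 => b
  | 2 => c
  | _ => d

theorem four0 {α : Type*} (a b c d : α) : four a b c d 0 = a := rfl
theorem four1 {α : Type*} (a b c d : α) : four a b c d 1 = b := rfl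
theorem four2 {α : Type*} (a b c d : α) : four a b c d 2 = c := rfl
theorem four3 {α : Type*} (a b c d : α) : four a b c d 3 = d := rfl

variable {M : ℕ} {ids : List PEx} (h : SM M ids S) (ha : antiEx ∈ ids) (hs : sagleEx ∈ ids) {D : Dt} {w : ℕ → S}
  (hw : ∀ k, w k ∈ h.P (pr D k)) {R : ℕ} (hV : VAL D w R)

include hs in
theorem sagle_sm (pa pb pc pd : Bool) (a b c d : S) (ha : a ∈ h.P pa) (hb : b ∈ h.P pb)
    (hc : c ∈ h.P pc) (hd : d ∈ h.P pd) :
    Pool.Agent.MalP.sg (and pb pc) • ((a * c) * (b * d)) +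
    (Pool.Agent.MalP.sg true • (((a * b) * c) * d) +
    (Pool.Agent.MalP.sg (not (and pa (xor pb (xor pc pd)))) • (((b * c) * d) * a) +
    (Pool.Agent.MalP.sg (not (and (xor pa pb) (xor pc pd))) • (((c * d) * a) * b) +
    Pool.Agent.MalP.sg (not (and pd (xor pa (xor pb pc)))) • (((d * a) * b) * c)))) = 0 := by
  have h1 := h.ids sagleEx hs (four pa pb pc pd) (four a b c d) (fun l => by
    rcases l with _ | _ | _ | l
    · exact ha
    · exact hb
    · exact hc
    · exact hd)
  simp only [sagleEx, PEx.sev, PEx.lts, linv, oinv, List.cons_append, List.nil_append, four0, four1,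
    four2, four3] at h1
  rw [← h1]
  clear h1 ha hb hc hd
  cases pa <;> cases pb <;> cases pc <;> cases pd <;>
    simp [Pool.Agent.MalP.sg, Nat.blt, Nat.ble] <;> abel

include ha hs hw hV in
theorem RG_sag (oN nN : ℕ) (gs : BL) (hok : gs.ok nN = true) (a b c d : ℕ) (f0 : Bool) (h0 : ℕ)
    (f1 : Bool) (h1 : ℕ) (f2 : Bool) (h2 : ℕ) (f3 : Bool) (h3 : ℕ) (f4 : Bool) (h4 : ℕ) :
    RG D.β id (Gv w oN nN gs) (fun _ => True)
      (sag D R gs a b c d f0 h0 f1 h1 f2 h2 f3 h3 f4 h4 (pr D a) (pr D b) (pr D c) (pr D d)) 0 := by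
  have m2 : ∀ a b, D.sc • (w a * w b) ∈ h.P (xor (pr D a) (pr D b)) := fun a b =>
    (h.P _).nsmul_mem (h.mul_mem _ _ _ _ (hw a) (hw b)) _
  have m3 : ∀ a b c, D.sc • ((D.sc • (w a * w b)) * w c) ∈
      h.P (xor (pr D a) (xor (pr D b) (pr D c))) := fun a b c => by
    rw [← Bool.xor_assoc]
    exact (h.P _).nsmul_mem (h.mul_mem _ _ _ _ (m2 a b) (hw c)) _
  have key := RG.add (RG_tm h (XR_X2 h ha hw hV a c) (XR_X2 h ha hw hV b d) oN nN gs hok ha
      (and (pr D b) (pr D c)) f0 h0 _ _ (m2 a c) (m2 b d))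
    (RG.add (RG_tm h (XR_X3 h ha hw hV a b c) (XR_X1 D w d) oN nN gs hok ha true f1 h1 _ _
      (m3 a b c) (hw d))
    (RG.add (RG_tm h (XR_X3 h ha hw hV b c d) (XR_X1 D w a) oN nN gs hok ha
      (not (and (pr D a) (xor (pr D b) (xor (pr D c) (pr D d))))) f2 h2 _ _ (m3 b c d) (hw a))
    (RG.add (RG_tm h (XR_X3 h ha hw hV c d a) (XR_X1 D w b) oN nN gs hok ha
      (not (and (xor (pr D a) (pr D b)) (xor (pr D c) (pr D d)))) f3 h3 _ _ (m3 c d a) (hw b))
    (RG_tm h (XR_X3 h ha hw hV d a b) (XR_X1 D w c) oN nN gs hok ha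
      (not (and (pr D d) (xor (pr D a) (xor (pr D b) (pr D c))))) f4 h4 _ _ (m3 d a b) (hw c)))))
  refine key.congr ?_
  have e := sagle_sm h hs (pr D a) (pr D b) (pr D c) (pr D d) (w a) (w b) (w c) (w d) (hw a) (hw b)
    (hw c) (hw d)
  have e2 := congrArg (fun x => D.sc • D.sc • x) e
  simp only [smul_add, smul_zero] at e2
  rw [← e2]
  simp only [smul_mul_assoc, mul_smul_comm, smul_comm (Pool.Agent.MalP.sg _) D.sc]

/-- the value `x` of an expression is `X` -/
def TR (h : SM M ids S) (D : Dt) (w : ℕ → S) (top : ℕ) (G : ℕ → S) (x : TV) (X : S) : Prop :=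
  ∀ cid m par v, x = .mk cid m par v → v.b < D.β → X ∈ h.P par ∧
    (cid = top → RG D.β id G (fun _ => True) v (D.sc ^ m • X)) ∧
    (cid ≠ top → ∀ o n, D.cl.rg cid = .mk o n →
      RG D.β (fun k => (k - o) * 1) w (fun k => o ≤ k ∧ k < o + n) v (D.sc ^ m • X))

variable {top : ℕ} {G : ℕ → S}

theorem TR.bad (h : SM M ids S) (D : Dt) (w : ℕ → S) (top : ℕ) (G : ℕ → S) (X : S) (c m : ℕ) (p : Bool) :
    TR h D w top G (.mk c m p (pbad D.β)) X := by
  intro cid m par v e hb
  injection e with _ _ _ e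
  rw [← e] at hb
  exact absurd hb (lt_irrefl _)

include hw in
theorem TR_lt (al : AL) : ∀ (i : ℕ) (X : S), (X = w (al.nd i)) →
    TR h D w top G (tlt D top al i) X := by
  induction al with
  | nil => intro i X _; exact TR.bad h D w top G X 0 0 false
  | c k cid t ih =>
    intro i X hX
    rcases i with _ | i
    · have hX' : X = w k := hX
      show TR h D w top G (bi (Nat.beq cid top) (.mk 0 0 false (pbad D.β))
        (.mk cid 0 (pr D k) (Rg.rec (motive := fun _ => PV)
          (fun o n => pk D.β o n 1 (.p k 1 .z)) (D.cl.rg cid)))) X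
      cases h1 : Nat.beq cid top
      · rw [bi_ff]
        intro cid' m' par' v' e hb
        injection e with e1 e2 e3 e4
        subst e1
        subst e2
        subst e3
        rw [hX']
        refine ⟨hw k, fun e => ?_, fun _ o n hr => ?_⟩
        · rw [e] at h1
          have : Nat.beq top top = true := by
            rw [Nat.beq_eq]
          rw [this] at h1
          exact absurd h1 (by decide)
        · rw [hr] at e4
          rw [← e4, pow_zero, one_smul]
          refine (RG_pk o n 1 (.p k 1 .z)).congr ?_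
          show 1 • w k + 0 = w k
          rw [one_smul, add_zero]
      · exact TR.bad h D w top G X 0 0 false
    · exact ih i X hX

theorem TR_add {x y : TV} {X Y : S} (hx : TR h D w top G x X) (hy : TR h D w top G y Y) :
    TR h D w top G (tadd D x y) (X + Y) := by
  cases x with | mk cx mx px vx =>
  cases y with | mk cy my py vy =>
  show TR h D w top G (bi (bi (Nat.beq cx cy) (bi (Nat.beq mx my) (bi px py (not py)) false) false)
    (.mk cx mx px (PV.add vx vy)) (.mk 0 0 false (pbad D.β))) _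
  cases hc : bi (Nat.beq cx cy) (bi (Nat.beq mx my) (bi px py (not py)) false) false
  · exact TR.bad h D w top G _ 0 0 false
  · obtain ⟨h1, h2⟩ := bi_and hc
    obtain ⟨h3, h4⟩ := bi_and h2
    have e1 : cx = cy := Nat.eq_of_beq_eq_true h1
    have e2 : mx = my := Nat.eq_of_beq_eq_true h3
    have e3 : px = py := bool_eq h4
    subst e1
    subst e2
    subst e3
    rw [bi_tt]
    intro cid m par v e hb
    injection e with e1 e2 e3 e4
    subst e1
    subst e2
    subst e3
    subst e4
    rw [PV.b_add] at hb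
    obtain ⟨a1, a2, a3⟩ := hx _ _ _ _ rfl (show vx.b < D.β by omega)
    obtain ⟨b1, b2, b3⟩ := hy _ _ _ _ rfl (show vy.b < D.β by omega)
    refine ⟨add_mem a1 b1, fun e => ?_, fun e o n hr => ?_⟩
    · rw [smul_add]
      exact RG.add (a2 e) (b2 e)
    · rw [smul_add]
      exact RG.add (a3 e o n hr) (b3 e o n hr)

theorem TR_ng {x : TV} {X : S} (hx : TR h D w top G x X) : TR h D w top G (tng x) (-X) := by
  cases x with | mk cx mx px vx =>
  intro cid m par v e hb
  have e' : TV.mk cx mx px (PV.ng vx) = .mk cid m par v := e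
  injection e' with e1 e2 e3 e4
  subst e1
  subst e2
  subst e3
  subst e4
  rw [PV.b_ng] at hb
  obtain ⟨a1, a2, a3⟩ := hx _ _ _ _ rfl hb
  refine ⟨neg_mem a1, fun e => ?_, fun e o n hr => ?_⟩
  · rw [smul_neg]
    exact RG.ng (a2 e)
  · rw [smul_neg]
    exact RG.ng (a3 e o n hr)

theorem TR_sm {x : TV} {X : S} (c : ℕ) (hx : TR h D w top G x X) :
    TR h D w top G (tsm c x) (c • X) := by
  cases x with | mk cx mx px vx =>
  intro cid m par v e hb
  have e' : TV.mk cx mx px (PV.sm c vx) = .mk cid m par v := e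
  injection e' with e1 e2 e3 e4
  subst e1
  subst e2
  subst e3
  subst e4
  rcases Nat.eq_zero_or_pos c with rfl | hc
  · refine ⟨by rw [zero_smul]; exact zero_mem _, fun e => ?_, fun e o n hr => ?_⟩
    · rw [zero_smul, smul_zero]
      intro _
      cases vx with | mk P N b =>
      exact ⟨[], fun t ht => absurd ht (List.not_mem_nil), by
        show ((0 * P : ℕ) : ℤ) - (0 * N : ℕ) = _
        simp [vs], by simp [nb], by simp [vl]⟩
    · rw [zero_smul, smul_zero]
      intro _
      cases vx with | mk P N b =>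
      exact ⟨[], fun t ht => absurd ht (List.not_mem_nil), by
        show ((0 * P : ℕ) : ℤ) - (0 * N : ℕ) = _
        simp [vs], by simp [nb], by simp [vl]⟩
  rw [PV.b_sm] at hb
  have hb' : vx.b < D.β := lt_of_le_of_lt (Nat.le_mul_of_pos_left _ hc) hb
  obtain ⟨a1, a2, a3⟩ := hx _ _ _ _ rfl hb'
  refine ⟨(h.P _).nsmul_mem a1 _, fun e => ?_, fun e o n hr => ?_⟩
  · rw [smul_comm]
    exact RG.sm c (a2 e)
  · rw [smul_comm]
    exact RG.sm c (a3 e o n hr)

theorem TR_sgn {cid m : ℕ} {par : Bool} {v : PV} {X : S} (s : Bool)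
    (hx : TR h D w top G (.mk cid m par v) X) :
    TR h D w top G (.mk cid m par (PV.sg s v)) (Pool.Agent.MalP.sg s • X) := by
  cases s
  · have : PV.sg false v = v := by cases v; rfl
    rw [this]
    show TR h D w top G _ ((1 : ℤ) • X)
    rw [one_smul]
    exact hx
  · have : PV.sg true v = v.ng := by cases v; rfl
    rw [this]
    show TR h D w top G _ ((-1 : ℤ) • X)
    rw [neg_smul, one_smul]
    exact TR_ng h hx

end

section digits

theorem dsum (n : ℕ) (β : ℕ) : ∀ (d : ℕ → ℕ), (∀ i, d i < β) → ∀ i < n,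
    (∑ j ∈ range n, d j * β ^ j) / β ^ i % β = d i := by
  induction n with
  | zero => intro d _ i hi; exact absurd hi (Nat.not_lt_zero i)
  | succ n ih =>
    intro d hd i hi
    have hβ : 0 < β := lt_of_le_of_lt (Nat.zero_le _) (hd 0)
    have e : ∑ j ∈ range (n + 1), d j * β ^ j = d 0 + β * ∑ j ∈ range n, d (j + 1) * β ^ j := by
      rw [sum_range_succ', mul_sum, pow_zero, mul_one, add_comm]
      congr 1
      exact sum_congr rfl fun j _ => by ring
    rw [e]
    rcases i with _ | i
    · rw [pow_zero, Nat.div_one, Nat.add_mul_mod_self_left, Nat.mod_eq_of_lt (hd 0)]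
    · rw [pow_succ', ← Nat.div_div_eq_div_mul, Nat.add_mul_div_left _ _ hβ,
        Nat.div_eq_of_lt (hd 0), Nat.zero_add]
      exact ih (fun j => d (j + 1)) (fun j => hd (j + 1)) i (by omega)

variable {S : Type u} [AddCommGroup S]

theorem geom (β n : ℕ) (hβ : 2 ≤ β) : (β ^ n - 1) / (β - 1) = ∑ j ∈ range n, β ^ j := by
  have h := Nat.geomSum_eq hβ n
  exact h.symm

theorem dg_ok (D : Dt) (g : ℕ → S) (o Q : ℕ) (n : ℕ) (c : ℕ → ℤ)
    (hc : ∀ i < n, ((Q / D.β ^ i % D.β : ℕ) : ℤ) = c i + D.off) :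
    svG g (dg D o Q n) = ∑ i ∈ range n, c i • g (o + i) := by
  induction n with
  | zero => rfl
  | succ n ih =>
    rw [sum_range_succ, ← ih fun i hi => hc i (by omega)]
    have h1 := hc n (Nat.lt_succ_self n)
    show svG g (bi (Nat.beq (Q / D.β ^ n % D.β) D.off) (dg D o Q n)
      (bi (Nat.ble D.off (Q / D.β ^ n % D.β)) (.p (o + n) (Q / D.β ^ n % D.β - D.off) (dg D o Q n))
        (.n (o + n) (D.off - Q / D.β ^ n % D.β) (dg D o Q n)))) = _
    generalize Q / D.β ^ n % D.β = d at h1 ⊢
    cases h2 : Nat.beq d D.off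
    · rw [bi_ff]
      cases h3 : Nat.ble D.off d
      · rw [bi_ff]
        show -((D.off - d) • g (o + n)) + svG g (dg D o Q n) = _
        have h4 : d < D.off := ble_false h3
        have h5 : c n = -((D.off - d : ℕ) : ℤ) := by omega
        rw [h5, neg_smul, natCast_zsmul, add_comm]
      · rw [bi_tt]
        show (d - D.off) • g (o + n) + svG g (dg D o Q n) = _
        have h4 : D.off ≤ d := Nat.le_of_ble_eq_true h3
        have h5 : c n = ((d - D.off : ℕ) : ℤ) := by omega
        rw [h5, natCast_zsmul, add_comm]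
    · rw [bi_tt]
      have h4 : d = D.off := Nat.eq_of_beq_eq_true h2
      have h5 : c n = 0 := by omega
      rw [h5, zero_smul, add_zero]

theorem toSV_ok (D : Dt) (hβ : 2 * D.off = D.β) (hoff : 2 ≤ D.off) (g : ℕ → S) (o n : ℕ) (v : PV)
    (hv : sml D v = true) (x : S)
    (hx : RG D.β (fun k => (k - o) * 1) g (fun k => o ≤ k ∧ k < o + n) v x) :
    svG g (toSV D (.mk o n) v) = x := by
  cases v with | mk P N b =>
  have hb : Nat.ble (Nat.succ b) D.off = true := hv
  have hb' : b < D.off := Nat.le_of_ble_eq_true hb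
  obtain ⟨L, l1, l2, l3, l4⟩ := hx (show b < D.β by omega)
  have l2' : (P : ℤ) - N = vs D.β (fun k => (k - o) * 1) L := l2
  have l3' : nb L ≤ b := l3
  have e : vs D.β (fun k => (k - o) * 1) L = vs D.β (fun k => k - o) L := by
    simp only [mul_one]
  rw [e, vs_eq D.β o n L l1] at l2'
  have hcf : ∀ i, (cf L (o + i)).natAbs < D.off := fun i => ((cf_le L _).trans l3').trans_lt hb'
  show svG g (bi (Nat.ble (Nat.succ b) D.off) (dg D o (P + D.off * ((D.β ^ n - 1) / (D.β - 1)) - N) n)
    .bad) = x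
  rw [hb, bi_tt, geom D.β n (by omega)]
  -- the digits
  have hQ : P + D.off * (∑ j ∈ range n, D.β ^ j) - N =
      ∑ j ∈ range n, ((cf L (o + j) + D.off).toNat) * D.β ^ j := by
    have h1 : ((P + D.off * (∑ j ∈ range n, D.β ^ j) : ℕ) : ℤ) =
        ((N + ∑ j ∈ range n, ((cf L (o + j) + D.off).toNat) * D.β ^ j : ℕ) : ℤ) := by
      push_cast
      have h2 : ∑ j ∈ range n, (((cf L (o + j) + D.off).toNat : ℕ) : ℤ) * (D.β : ℤ) ^ j =
          ∑ j ∈ range n, cf L (o + j) * (D.β : ℤ) ^ j +
            (D.off : ℤ) * ∑ j ∈ range n, (D.β : ℤ) ^ j := by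
        rw [mul_sum, ← sum_add_distrib]
        refine sum_congr rfl fun j _ => ?_
        rw [Int.toNat_of_nonneg (by have := hcf j; omega)]
        ring
      rw [h2, ← l2']
      ring
    have h2 : P + D.off * (∑ j ∈ range n, D.β ^ j) =
      N + ∑ j ∈ range n, ((cf L (o + j) + D.off).toNat) * D.β ^ j := by exact_mod_cast h1
    rw [h2, Nat.add_sub_cancel_left]
  rw [hQ, dg_ok D g o _ n (fun i => cf L (o + i)), ← vl_eq g o n L l1, l4]
  intro i hi
  rw [dsum n D.β (fun j => (cf L (o + j) + D.off).toNat) (fun j => by have := hcf j; omega) i hi]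
  exact Int.toNat_of_nonneg (by have := hcf i; omega)

end digits

end Pool.Agent.MalP.Chk
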