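import Pool.Agent.MalP.Check3

/-! # A checker for identities in superalgebras: the main theorem -/

set_option autoImplicit false

namespace Pool.Agent.MalP.Chk

universe u

open Finset

section

variable {S : Type u} [NonUnitalNonAssocRing S]

variable {M : ℕ} {ids : List PEx} (h : SM M ids S) (ha : antiEx ∈ ids) (hs : sagleEx ∈ ids) {D : Dt} {w : ℕ → S}
  (hw : ∀ k, w k ∈ h.P (pr D k)) {R : ℕ} (hV : VAL D w R) (hβ : 2 * D.off = D.β) (hoff : 2 ≤ D.off)

include ha in
theorem RG_rawm (oN nN : ℕ) (gs : BL) (hok : gs.ok nN = true) (rx ry : Rg) (px py : Bool)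
    (sx sy : SV) (hx : svG w sx ∈ h.P px) (hy : svG w sy ∈ h.P py) :
    ∀ gs' : BL, (∀ a1 m1 a2 m2 r, Mem gs' a1 m1 a2 m2 r → Mem gs a1 m1 a2 m2 r) →
    RG D.β id (Gv w oN nN gs) (fun _ => True) (rawm D gs' rx ry px py sx sy)
      (svG w sx * svG w sy) := by
  cases rx with | mk ox nx =>
  cases ry with | mk oy ny =>
  have hX : ∀ s : SV, XR D.β w (fun o n st => pk D.β o n st s) (svG w s) := fun s o n st =>
    RG_pk o n st s
  intro gs'
  induction gs' with
  | nil => intro _; exact RG.pbad _
  | c o1 n1 o2 n2 s t ih =>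
    intro hm
    have h1 := hm o1 n1 o2 n2 s (Or.inl ⟨rfl, rfl, rfl, rfl, rfl⟩)
    have h2 := ih fun a1 m1 a2 m2 r h => hm a1 m1 a2 m2 r (Or.inr h)
    change RG D.β id (Gv w oN nN gs) (fun _ => True)
      (bi (bi (Nat.beq o1 ox) (Nat.beq o2 oy) false)
        (rp D.β (.mk o1 n1 o2 n2 s) (fun o n st => pk D.β o n st sx) (fun o n st => pk D.β o n st sy))
        (bi (bi (Nat.beq o1 oy) (Nat.beq o2 ox) false)
          (PV.sg (not (and px py)) (rp D.β (.mk o1 n1 o2 n2 s) (fun o n st => pk D.β o n st sy)
            (fun o n st => pk D.β o n st sx))) (rawm D t (.mk ox nx) (.mk oy ny) px py sx sy))) _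
    cases bi (Nat.beq o1 ox) (Nat.beq o2 oy) false
    · rw [bi_ff]
      cases bi (Nat.beq o1 oy) (Nat.beq o2 ox) false
      · rw [bi_ff]
        exact h2
      · rw [bi_tt, anti_sm h ha px py _ _ hx hy]
        exact RG.sg _ (RG_rp_mem (hX sy) (hX sx) oN nN gs hok o1 n1 o2 n2 s (Or.inr h1))
    · rw [bi_tt]
      exact RG_rp_mem (hX sx) (hX sy) oN nN gs hok o1 n1 o2 n2 s (Or.inr h1)

include ha hw hV hβ hoff in
theorem TR_mul (oN nN top : ℕ) (gs : BL) (hok : gs.ok nN = true) (s : Bool) {x y : TV} {X Y : S}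
    (hx : TR h D w top (Gv w oN nN gs) x X) (hy : TR h D w top (Gv w oN nN gs) y Y) :
    TR h D w top (Gv w oN nN gs) (tmul D R top gs s x y) (Pool.Agent.MalP.sg s • (X * Y)) := by
  cases x with | mk cx mx px vx =>
  cases y with | mk cy my py vy =>
  show TR h D w top (Gv w oN nN gs)
    (bi (bi (sml D vx) (bi (sml D vy) (bi (Nat.beq cx top) false
          (bi (Nat.beq cy top) false true)) false) false)
        (bi (Nat.beq (Nat.add cx cy) top)
          (.mk top (Nat.add mx my) (xor px py)
            (PV.sg s (rawm D gs (D.cl.rg cx) (D.cl.rg cy) px py (toSV D (D.cl.rg cx) vx)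
              (toSV D (D.cl.rg cy) vy))))
          (.mk (Nat.add cx cy) (Nat.succ (Nat.add mx my)) (xor px py)
            (PV.sg s (Rg.rec (motive := fun _ => PV) (fun o n =>
              comb D.β (fun k => comb D.β (fun l => pk D.β o n 1 (lk D R k l))
                (toSV D (D.cl.rg cy) vy)) (toSV D (D.cl.rg cx) vx)) (D.cl.rg (Nat.add cx cy))))))
        (.mk 0 0 false (pbad D.β))) _
  cases hc : bi (sml D vx) (bi (sml D vy) (bi (Nat.beq cx top) false
          (bi (Nat.beq cy top) false true)) false) false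
  · exact TR.bad h D w top _ _ 0 0 false
  obtain ⟨h1, h2⟩ := bi_and hc
  obtain ⟨h3, h4⟩ := bi_and h2
  rw [bi_tt]
  have h5 : cx ≠ top := by
    rintro rfl
    have : Nat.beq cx cx = true := by rw [Nat.beq_eq]
    rw [this] at h4
    exact absurd h4 Bool.false_ne_true
  have h6 : cy ≠ top := by
    rintro rfl
    have : Nat.beq cy cy = true := by rw [Nat.beq_eq]
    rw [this] at h4
    cases h7 : Nat.beq cx cy <;> rw [h7] at h4 <;> exact absurd h4 Bool.false_ne_true
  have hbx : vx.b < D.β := by
    cases vx with | mk P N b =>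
    have : b < D.off := Nat.le_of_ble_eq_true (show Nat.ble (Nat.succ b) D.off = true from h1)
    show b < D.β
    omega
  have hby : vy.b < D.β := by
    cases vy with | mk P N b =>
    have : b < D.off := Nat.le_of_ble_eq_true (show Nat.ble (Nat.succ b) D.off = true from h3)
    show b < D.β
    omega
  obtain ⟨a1, _, a3⟩ := hx _ _ _ _ rfl hbx
  obtain ⟨b1, _, b3⟩ := hy _ _ _ _ rfl hby
  have ex : svG w (toSV D (D.cl.rg cx) vx) = D.sc ^ mx • X := by
    cases hr : D.cl.rg cx with | mk o n =>
    exact toSV_ok D hβ hoff w o n vx h1 _ (a3 h5 o n hr)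
  have ey : svG w (toSV D (D.cl.rg cy) vy) = D.sc ^ my • Y := by
    cases hr : D.cl.rg cy with | mk o n =>
    exact toSV_ok D hβ hoff w o n vy h3 _ (b3 h6 o n hr)
  cases h7 : Nat.beq (Nat.add cx cy) top
  · rw [bi_ff]
    refine TR_sgn h s ?_
    intro cid m par v e hb
    injection e with e1 e2 e3 e4
    subst e1
    subst e2
    subst e3
    refine ⟨h.mul_mem _ _ _ _ a1 b1, fun e => ?_, fun _ o n hr => ?_⟩
    · rw [e] at h7
      have : Nat.beq top top = true := by rw [Nat.beq_eq]
      rw [this] at h7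
      exact absurd h7 (by decide)
    · rw [hr] at e4
      subst e4
      have k1 := RG_comb (β := D.β) (g := w) (e := fun k => (k - o) * 1)
        (Q := fun k => o ≤ k ∧ k < o + n)
        (fun k => comb D.β (fun l => pk D.β o n 1 (lk D R k l)) (toSV D (D.cl.rg cy) vy))
        (fun k => svG (fun l => D.sc • (w k * w l)) (toSV D (D.cl.rg cy) vy))
        (fun k => RG_comb _ _ (fun l => XR_X2 h ha hw hV k l o n 1) _) (toSV D (D.cl.rg cx) vx)
      refine k1.congr ?_
      have k2 : (fun k => svG (fun l => D.sc • (w k * w l)) (toSV D (D.cl.rg cy) vy)) =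
          fun k => D.sc • (w k * (D.sc ^ my • Y)) := by
        funext k
        rw [svG_smul, svG_mul_left, ey]
      rw [k2, svG_smul, svG_mul_right, ex, smul_mul_assoc, mul_smul_comm, smul_smul, smul_smul]
      congr 1
      show D.sc * D.sc ^ mx * D.sc ^ my = D.sc ^ (mx + my + 1)
      ring
  · rw [bi_tt]
    refine TR_sgn h s ?_
    intro cid m par v e hb
    injection e with e1 e2 e3 e4
    subst e1
    subst e2
    subst e3
    subst e4
    refine ⟨h.mul_mem _ _ _ _ a1 b1, fun e => ?_, fun hne => absurd rfl hne⟩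
    refine (RG_rawm h ha oN nN gs hok (D.cl.rg cx) (D.cl.rg cy) px py _ _ (by
      rw [ex]
      exact (h.P _).nsmul_mem a1 _) (by
      rw [ey]
      exact (h.P _).nsmul_mem b1 _) gs (fun _ _ _ _ _ h => h)).congr ?_
    rw [ex, ey, smul_mul_assoc, mul_smul_comm, smul_smul]
    congr 1
    show D.sc ^ mx * D.sc ^ my = D.sc ^ (mx + my)
    ring

include ha hw hV hβ hoff in
theorem TR_tev (oN nN top : ℕ) (gs : BL) (hok : gs.ok nN = true) (al : AL) (p : ℕ → Bool)
    (z : ℕ → S) (hz : ∀ i, TR h D w top (Gv w oN nN gs) (tlt D top al i) (z i)) (e : PEx) :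
    TR h D w top (Gv w oN nN gs) (tev D R top gs al p e) (e.sev p z) := by
  induction e with
  | X i => exact hz i
  | add a b iha ihb => exact TR_add h iha ihb
  | sub a b iha ihb =>
    have := TR_add h iha (TR_ng h ihb)
    rw [← sub_eq_add_neg] at this
    exact this
  | neg a iha => exact TR_ng h iha
  | zs n a iha =>
    cases n with
    | ofNat m =>
      have := TR_sm h m iha
      have e : ((Int.ofNat m) • a.sev p z : S) = m • a.sev p z := natCast_zsmul _ _
      show TR h D w top (Gv w oN nN gs) _ ((Int.ofNat m) • a.sev p z)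
      rw [e]
      exact this
    | negSucc m =>
      have := TR_ng h (TR_sm h (Nat.succ m) iha)
      have e : ((Int.negSucc m) • a.sev p z : S) = -((Nat.succ m) • a.sev p z) :=
        negSucc_zsmul _ _
      show TR h D w top (Gv w oN nN gs) _ ((Int.negSucc m) • a.sev p z)
      rw [e]
      exact this
  | ns n a iha => exact TR_sm h n iha
  | mul a b iha ihb => exact TR_mul h ha hw hV hβ hoff oN nN top gs hok _ iha ihb

theorem lget_sev (p : ℕ → Bool) (z : ℕ → S) (hz : ∀ l, z l ∈ h.P (p l)) (l : List PEx)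
    (hl : ∀ e ∈ l, e ∈ ids) : ∀ n, (lget l n).sev p z = 0 := by
  induction l with
  | nil =>
    intro n
    show z 0 - z 0 = 0
    exact sub_self _
  | cons e l ih =>
    intro n
    rcases n with _ | n
    · exact h.ids e (hl e List.mem_cons_self) p z hz
    · exact ih (fun e he => hl e (List.mem_cons_of_mem _ he)) n

include ha hs hw hV hβ hoff in
theorem RG_ils (rk oN nN top : ℕ) (hV' : VAL D w rk) (gs : BL) (hok : gs.ok nN = true) (l : IL) :
    RG D.β id (Gv w oN nN gs) (fun _ => True) (ils ids D R rk top oN nN gs l) 0 := by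
  induction l with
  | nil => exact RG.zero
  | s ng m a b c d f0 h0 f1 h1 f2 h2 f3 h3 f4 h4 t ih =>
    refine (RG.add (RG.sg ng (RG.sm m (RG_sag h ha hs hw hV oN nN gs hok a b c d f0 h0 f1 h1 f2 h2
      f3 h3 f4 h4))) ih).congr ?_
    simp
  | e ng m i j h' t ih =>
    have k1 : RG D.β id (Gv w oN nN gs) (fun _ => True) (pk D.β oN nN 1 (bi (Nat.ble j 1023)
        (find D.T rk (Nat.add (Nat.mul 1024 i) j)) .bad)) (D.sc • (w i * w j)) := by
      intro hb
      have hbad := nobad_pk oN nN 1 _ hb
      obtain ⟨L, l1, l2, l3, l4⟩ := RG_pk (β := D.β) (g := w) oN nN 1 (bi (Nat.ble j 1023)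
        (find D.T rk (Nat.add (Nat.mul 1024 i) j)) .bad) hb
      refine ⟨L.map fun t => (t.1, t.2 - oN), fun _ _ => trivial, ?_, ?_, ?_⟩
      · rw [l2]
        unfold vs
        rw [List.map_map]
        simp only [Function.comp_def, id, mul_one]
      · refine le_trans (le_of_eq ?_) l3
        unfold nb
        rw [List.map_map]
        rfl
      · have e1 : vl (Gv w oN nN gs) (L.map fun t => (t.1, t.2 - oN)) = vl w L := by
          unfold vl
          rw [List.map_map]
          congr 1
          refine List.map_congr_left fun t ht => ?_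
          have ht' := l1 t ht
          show t.1 • Gv w oN nN gs (t.2 - oN) = t.1 • w t.2
          unfold Gv
          rw [if_pos (by omega), show oN + (t.2 - oN) = t.2 by omega]
        rw [e1, l4]
        cases h1 : Nat.ble j 1023
        · rw [h1] at hbad
          exact absurd hbad id
        · rw [h1] at hbad
          rw [bi_tt]
          have h2 : j ≤ 1023 := Nat.le_of_ble_eq_true h1
          have := hV' _ hbad
          rw [div_key i j h2, mod_key i j h2] at this
          exact this.symm
    refine (RG.add (RG.sg ng (RG.sm m (RG.add (RG.sm D.sc (RG_rp (XR_X1 D w i) (XR_X1 D w j) oN nN gs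
      hok h')) (RG.ng k1)))) ih).congr ?_
    simp
  | a ng m k l h1 h2 t ih =>
    refine (RG.add (RG.sg ng (RG.sm m (RG.add (RG_rp (XR_X1 D w k) (XR_X1 D w l) oN nN gs hok h1)
      (RG.sg (and (pr D k) (pr D l)) (RG_rp (XR_X1 D w l) (XR_X1 D w k) oN nN gs hok h2))))) ih).congr ?_
    rw [anti_sm h ha (pr D k) (pr D l) (w k) (w l) (hw k) (hw l)]
    cases pr D k <;> cases pr D l <;> simp [Pool.Agent.MalP.sg]
  | i ng m n al t ih =>
    have k1 : RG D.β id (Gv w oN nN gs) (fun _ => True) (traw D top (tev D R top gs al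
        (fun i => pr D (al.nd i)) (lget ids n))) 0 := by
      have k2 := TR_tev h ha hw hV hβ hoff oN nN top gs hok al (fun i => pr D (al.nd i))
        (fun i => w (al.nd i)) (fun i => TR_lt h hw al i _ rfl) (lget ids n)
      rw [lget_sev h _ _ (fun l => hw _) ids (fun _ h => h) n] at k2
      cases hx : tev D R top gs al (fun i => pr D (al.nd i)) (lget ids n) with | mk c m' p v =>
      rw [hx] at k2
      show RG _ _ _ _ (bi (Nat.beq c top) v (pbad D.β)) _
      cases h3 : Nat.beq c top
      · exact RG.pbad _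
      · rw [bi_tt]
        intro hb
        have := (k2 c m' p v rfl hb).2.1 (Nat.eq_of_beq_eq_true h3)
        rw [smul_zero] at this
        exact this hb
    refine (RG.add (RG.sg ng (RG.sm m k1)) ih).congr ?_
    simp

include ha hs hw hβ hoff in
theorem chkE_ok (v' : ℕ → S) (par : ℕ → Bool) (hN : ∀ k < D.N, NOk D par k)
    (hwd : w = W D v') (key rk : ℕ) (v : SV) (ce : Ce)
    (hV : ∀ R ≤ rk, VAL D w R) (hc : chkE M ids D key rk v ce = true) :
    nobad v ∧ D.sc • (w (key / 1024) * w (key % 1024)) = svG w v := by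
  cases ce with
  | df =>
    cases v with
    | z => exact absurd hc Bool.false_ne_true
    | bad => exact absurd hc Bool.false_ne_true
    | n k m t => exact absurd hc Bool.false_ne_true
    | p k m t =>
      cases t with
      | bad => exact absurd hc Bool.false_ne_true
      | n _ _ _ => exact absurd hc Bool.false_ne_true
      | p _ _ _ => exact absurd hc Bool.false_ne_true
      | z =>
        obtain ⟨h1, h2⟩ := bi_and (show bi (Nat.beq m D.sc) (bi (Nat.beq (nc D k) (Nat.mul 2 key))
          (Nat.ble (Nat.succ k) D.N) false) false = true from hc)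
        obtain ⟨h3, h4⟩ := bi_and h2
        have e1 : m = D.sc := Nat.eq_of_beq_eq_true h1
        have e2 : nc D k = 2 * key := Nat.eq_of_beq_eq_true h3
        have e3 : k < D.N := Nat.le_of_ble_eq_true h4
        refine ⟨trivial, ?_⟩
        have e4 := W_prod v' hN k e3 (by omega)
        rw [show nc D k / 2 = key by omega] at e4
        rw [hwd, ← e4, e1]
        show _ = D.sc • W D v' k + 0
        rw [add_zero]
  | ct C E h' il =>
    cases C with | mk R cid oN nN gs =>
    obtain ⟨h1, h2⟩ := bi_and (show bi (Nat.ble R rk) (bi (smb M E) (bi (gs.ok nN)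
        (pz D.β (PV.add (PV.sm E (PV.add (pk D.β oN nN 1 v)
          (PV.ng (PV.sm D.sc (rp D.β (gs.get h') (X1 D (Nat.div key 1024))
            (X1 D (Nat.mod key 1024)))))))
          (ils ids D R rk cid oN nN gs il)))
        false) false) false = true from hc)
    obtain ⟨h3, h4⟩ := bi_and h2
    obtain ⟨hok, h6⟩ := bi_and h4
    have hR : R ≤ rk := Nat.le_of_ble_eq_true h1
    have hE : 1 ≤ E := pos_of_smb h3
    have hils := RG_ils h ha hs hw (hV R hR) hβ hoff rk oN nN cid (hV rk le_rfl) gs hok il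
    -- nobad
    have hb : (pk D.β oN nN 1 v).b < D.β := by
      by_contra hcon
      have hcon' : D.β ≤ (pk D.β oN nN 1 v).b := not_lt.1 hcon
      have e1 : ∀ x : PV, pz D.β x = true → x.b < D.β := by
        intro x hx
        cases x with | mk P N b =>
        exact Nat.le_of_ble_eq_true (bi_and (show bi (Nat.beq P N) (Nat.ble (Nat.succ b) D.β) false
          = true from hx)).2
      have e2 := e1 _ h6
      rw [PV.b_add, PV.b_sm, PV.b_add] at e2
      have : (pk D.β oN nN 1 v).b ≤ E * ((pk D.β oN nN 1 v).b + (PV.ng (PV.sm D.sc (rp D.β (gs.get h')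
        (X1 D (Nat.div key 1024)) (X1 D (Nat.mod key 1024))))).b) :=
        le_trans (Nat.le_add_right _ _) (Nat.le_mul_of_pos_left _ hE)
      omega
    have hnb := nobad_pk oN nN 1 v hb
    refine ⟨hnb, ?_⟩
    have k1 : RG D.β id (Gv w oN nN gs) (fun _ => True) (pk D.β oN nN 1 v) (svG w v) := by
      intro hb
      obtain ⟨L, l1, l2, l3, l4⟩ := RG_pk (β := D.β) (g := w) oN nN 1 v hb
      refine ⟨L.map fun t => (t.1, t.2 - oN), fun _ _ => trivial, ?_, ?_, ?_⟩
      · rw [l2]
        unfold vs
        rw [List.map_map]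
        simp only [Function.comp_def, id, mul_one]
      · refine le_trans (le_of_eq ?_) l3
        unfold nb
        rw [List.map_map]
        rfl
      · rw [← l4]
        unfold vl
        rw [List.map_map]
        congr 1
        refine List.map_congr_left fun t ht => ?_
        have ht' := l1 t ht
        show t.1 • Gv w oN nN gs (t.2 - oN) = t.1 • w t.2
        unfold Gv
        rw [if_pos (by omega), show oN + (t.2 - oN) = t.2 by omega]
    have k2 := (RG.add (RG.sm E (RG.add k1 (RG.ng (RG.sm D.sc (RG_rp (XR_X1 D w (key / 1024))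
      (XR_X1 D w (key % 1024)) oN nN gs hok h'))))) hils).eq_zero h6
    rw [add_zero] at k2
    have k3 : ((E : ℕ) : ℤ) • (svG w v + -(D.sc • (w (key / 1024) * w (key % 1024)))) = 0 := by
      rw [natCast_zsmul]
      exact k2
    have k4 := h.tf _ _ (smooth_of_smb h3) k3
    rw [← sub_eq_add_neg, sub_eq_zero] at k4
    exact k4.symm

theorem find_ok (R : ℕ) (T : Tr) : chkT M ids D T = true →
    (∀ key rk v ce, rk < R → chkE M ids D key rk v ce = true →
      nobad v ∧ D.sc • (w (key / 1024) * w (key % 1024)) = svG w v) →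
    ∀ key, nobad (find T R key) → D.sc • (w (key / 1024) * w (key % 1024)) = svG w (find T R key) := by
  induction T with
  | leaf => intro _ _ key h; exact absurd h id
  | nd l k rk v ce r ihl ihr =>
    intro hc hE key
    obtain ⟨h1, h2⟩ := bi_and (show bi (chkE M ids D k rk v ce) (bi (chkT M ids D l) (chkT M ids D r) false)
      false = true from hc)
    obtain ⟨h3, h4⟩ := bi_and h2
    show nobad (bi (Nat.ble k key) (bi (Nat.beq k key)
      (bi (Nat.ble (Nat.succ rk) R) v .bad) (find r R key)) (find l R key)) →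
      _ = svG w (bi (Nat.ble k key) (bi (Nat.beq k key)
      (bi (Nat.ble (Nat.succ rk) R) v .bad) (find r R key)) (find l R key))
    cases Nat.ble k key
    · rw [bi_ff]
      exact ihl h3 hE key
    · rw [bi_tt]
      cases h5 : Nat.beq k key
      · rw [bi_ff]
        exact ihr h4 hE key
      · rw [bi_tt]
        cases h6 : Nat.ble (Nat.succ rk) R
        · exact fun h => absurd h id
        · intro _
          have h7 : k = key := Nat.eq_of_beq_eq_true h5
          rw [bi_tt, ← h7]
          exact (hE k rk v ce (Nat.le_of_ble_eq_true h6) h1).2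

include ha hs hw hβ hoff in
theorem VAL_all (v' : ℕ → S) (par : ℕ → Bool) (hN : ∀ k < D.N, NOk D par k) (hwd : w = W D v')
    (hT : chkT M ids D D.T = true) (R : ℕ) : VAL D w R := by
  induction R using Nat.strong_induction_on with
  | _ R ih =>
    intro key
    exact find_ok R D.T hT (fun key rk v ce hrk hc => chkE_ok h ha hs hw hβ hoff v' par hN hwd key rk v
      ce (fun R' hR' => ih R' (lt_of_le_of_lt hR' hrk)) hc) key

end

/-- the letters of the target -/
theorem TR_letters {S : Type u} [NonUnitalNonAssocRing S] {M : ℕ} {ids : List PEx} (h : SM M ids S) {D : Dt}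
    {v : ℕ → S} (hw : ∀ k, W D v k ∈ h.P (pr D k)) (top : ℕ) (G : ℕ → S) (cls : ℕ → ℕ) (al : AL) :
    ∀ i, chkA D cls al i = true → ∀ j, TR h D (W D v) top G (tlt D top al j) (v (cls (j + i))) := by
  induction al with
  | nil => intro i _ j; exact TR.bad h D _ top G _ 0 0 false
  | c k cid t ih =>
    intro i hc j
    obtain ⟨h1, h2⟩ := bi_and (show bi (Nat.beq (nc D k) (Nat.succ (Nat.mul 2 (cls i))))
      (bi (Nat.ble (Nat.succ k) D.N) (chkA D cls t (Nat.succ i)) false) false = true from hc)
    obtain ⟨h3, h4⟩ := bi_and h2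
    rcases j with _ | j
    · refine TR_lt h hw (.c k cid t) 0 _ ?_
      rw [Nat.zero_add]
      exact (W_gen v k (Nat.le_of_ble_eq_true h3) (cls i) (Nat.eq_of_beq_eq_true h1)).symm
    · have := ih (i + 1) h4 j
      rw [show j + (i + 1) = j + 1 + i by ring] at this
      exact this

theorem chk_sound (M : ℕ) (ids : List PEx) (ha : antiEx ∈ ids) (hs : sagleEx ∈ ids) (D : Dt) (par : ℕ → Bool)
    (cls : ℕ → ℕ) (e : PEx) (al : AL) (R top E : ℕ) (gs : BL) (il : IL)
    (hc : chk M ids D par cls e al R top E gs il = true) : Cert.{u} M ids par cls e := by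
  intro S _ h v hv
  obtain ⟨c1, c2⟩ := bi_and (show bi (bi (smb M D.sc) (bi (Nat.ble 2 D.off)
    (bi (Nat.beq (Nat.mul 2 D.off) D.β) (bi (smb M E) (bi (gs.ok 0)
      (bi (chkN D par D.N) (chkA D cls al 0) false) false) false) false) false) false)
    (bi (chkT M ids D D.T)
      (pz D.β (PV.add (PV.sm E (traw D top (tev D R top gs al (fun l => par (cls l)) e)))
        (ils ids D R R top 0 0 gs il))) false) false = true from hc)
  obtain ⟨d1, d2⟩ := bi_and c1
  obtain ⟨d3, d4⟩ := bi_and d2
  obtain ⟨d5, d6⟩ := bi_and d4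
  obtain ⟨d7, d8⟩ := bi_and d6
  obtain ⟨d9, d10⟩ := bi_and d8
  obtain ⟨d11, d12⟩ := bi_and d10
  obtain ⟨hT, hz⟩ := bi_and c2
  have hsc : 1 ≤ D.sc := pos_of_smb d1
  have hoff : 2 ≤ D.off := Nat.le_of_ble_eq_true d3
  have hβ : 2 * D.off = D.β := Nat.eq_of_beq_eq_true d5
  have hE : 1 ≤ E := pos_of_smb d7
  have hN := chkN_ok D par D.N d11
  have hw : ∀ k, W D v k ∈ h.P (pr D k) := W_mem h v hv hN
  have hV : ∀ R, VAL D (W D v) R := VAL_all h ha hs hw hβ hoff v par hN rfl hT
  have k1 := TR_tev h ha hw (hV R) hβ hoff 0 0 top gs d9 al (fun l => par (cls l))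
    (fun l => v (cls l)) (fun j => by
      have := TR_letters h hw top (Gv (W D v) 0 0 gs) cls al 0 d12 j
      rwa [Nat.add_zero] at this) e
  have k2 := RG_ils h ha hs hw (hV R) hβ hoff R 0 0 top (hV R) gs d9 il
  cases hx : tev D R top gs al (fun l => par (cls l)) e with | mk c m p x =>
  rw [hx] at k1 hz
  cases h3 : Nat.beq c top
  · exfalso
    have e1 : traw D top (.mk c m p x) = pbad D.β := by
      show bi (Nat.beq c top) x (pbad D.β) = _
      rw [h3]
    rw [e1] at hz
    have e2 : ∀ x : PV, pz D.β x = true → x.b < D.β := by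
      intro x hx
      cases x with | mk P N b =>
      exact Nat.le_of_ble_eq_true (bi_and (show bi (Nat.beq P N) (Nat.ble (Nat.succ b) D.β) false
        = true from hx)).2
    have e3 := e2 _ hz
    rw [PV.b_add, PV.b_sm] at e3
    have e4 : D.β ≤ E * (pbad D.β).b := Nat.le_mul_of_pos_left _ hE
    omega
  · have e1 : traw D top (.mk c m p x) = x := by
      show bi (Nat.beq c top) x (pbad D.β) = _
      rw [h3]
    rw [e1] at hz
    have k3 : RG D.β id (Gv (W D v) 0 0 gs) (fun _ => True) x
        (D.sc ^ m • e.sev (fun l => par (cls l)) fun l => v (cls l)) := fun hb =>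
      (k1 c m p x rfl hb).2.1 (Nat.eq_of_beq_eq_true h3) hb
    have k4 := (RG.add (RG.sm E k3) k2).eq_zero hz
    rw [add_zero, smul_smul] at k4
    have k5 : ((E * D.sc ^ m : ℕ) : ℤ) • (e.sev (fun l => par (cls l)) fun l => v (cls l)) = 0 := by
      rw [natCast_zsmul]
      exact k4
    refine h.tf _ _ ?_ k5
    rw [Nat.cast_mul, Nat.cast_pow]
    exact (smooth_of_smb d7).mul ((smooth_of_smb d1).pow m)

end Pool.Agent.MalP.Chk
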