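import Pool.Agent.MalP.Ex

/-! # A checker for identities in superalgebras: definitions

Everything is written with recursors, so that the kernel evaluates it quickly. -/

set_option autoImplicit false

namespace Pool.Agent.MalP.Chk

universe u

/-- `if b then t else f` -/
@[reducible] def bi {α : Type} (b : Bool) (t f : α) : α := Bool.rec f t b

/-- formal sums of signed multiples of nodes; `bad` marks a failure -/
inductive SV : Type
  | z : SV
  | bad : SV
  | p (k m : ℕ) (t : SV) : SV
  | n (k m : ℕ) (t : SV) : SV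

noncomputable def SV.neg (v : SV) : SV :=
  SV.rec (motive := fun _ => SV) .z .bad (fun k m _ ih => .n k m ih) (fun k m _ ih => .p k m ih) v

/-- packed vectors: the integer `P - N`, and a bound for the sum of the absolute values of the
digits -/
inductive PV : Type
  | mk (P N b : ℕ) : PV

namespace PV

noncomputable def P (x : PV) : ℕ := PV.rec (motive := fun _ => ℕ) (fun P _ _ => P) x
noncomputable def N (x : PV) : ℕ := PV.rec (motive := fun _ => ℕ) (fun _ N _ => N) x
noncomputable def b (x : PV) : ℕ := PV.rec (motive := fun _ => ℕ) (fun _ _ b => b) x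

noncomputable def add (x y : PV) : PV :=
  PV.rec (motive := fun _ => PV) (fun P N b =>
    PV.rec (motive := fun _ => PV) (fun P' N' b' =>
      .mk (Nat.add P P') (Nat.add N N') (Nat.add b b')) y) x

noncomputable def sm (m : ℕ) (x : PV) : PV :=
  PV.rec (motive := fun _ => PV) (fun P N b => .mk (Nat.mul m P) (Nat.mul m N) (Nat.mul m b)) x

noncomputable def ng (x : PV) : PV :=
  PV.rec (motive := fun _ => PV) (fun P N b => .mk N P b) x

noncomputable def sg (s : Bool) (x : PV) : PV :=
  PV.rec (motive := fun _ => PV) (fun P N b => bi s (.mk N P b) (.mk P N b)) x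

noncomputable def mul (x y : PV) : PV :=
  PV.rec (motive := fun _ => PV) (fun P N b =>
    PV.rec (motive := fun _ => PV) (fun P' N' b' =>
      .mk (Nat.add (Nat.mul P P') (Nat.mul N N')) (Nat.add (Nat.mul P N') (Nat.mul N P'))
        (Nat.add (Nat.mul b b') (Nat.add b b'))) y) x

/-- multiplication by the power `q` of the base -/
noncomputable def sh (q : ℕ) (x : PV) : PV :=
  PV.rec (motive := fun _ => PV) (fun P N b => .mk (Nat.mul P q) (Nat.mul N q) b) x

end PV

/-- a failure -/
@[reducible] def pbad (β : ℕ) : PV := .mk 0 0 β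

@[reducible] def pzero : PV := .mk 0 0 0

/-- pack a sum of nodes between `o` and `o + n`, the node `k` having the exponent
`(k - o) * st` -/
noncomputable def pk (β o n st : ℕ) (v : SV) : PV :=
  SV.rec (motive := fun _ => PV) pzero (pbad β)
    (fun k m _ ih => bi (Nat.ble o k) (bi (Nat.ble (Nat.succ k) (Nat.add o n))
      (PV.rec (motive := fun _ => PV) (fun P N b =>
        .mk (Nat.add (Nat.mul m (Nat.pow β (Nat.mul (Nat.sub k o) st))) P) N (Nat.add m b)) ih)
      (pbad β)) (pbad β))
    (fun k m _ ih => bi (Nat.ble o k) (bi (Nat.ble (Nat.succ k) (Nat.add o n))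
      (PV.rec (motive := fun _ => PV) (fun P N b =>
        .mk P (Nat.add (Nat.mul m (Nat.pow β (Nat.mul (Nat.sub k o) st))) N) (Nat.add m b)) ih)
      (pbad β)) (pbad β)) v

/-- linear combination -/
noncomputable def comb (β : ℕ) (f : ℕ → PV) (v : SV) : PV :=
  SV.rec (motive := fun _ => PV) pzero (pbad β)
    (fun k m _ ih => PV.add (PV.sm m (f k)) ih)
    (fun k m _ ih => PV.add (PV.ng (PV.sm m (f k))) ih) v

/-- products of a node in `[o1, o1 + n1)` and a node in `[o2, o2 + n2)` have the positions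
`s + (l - o2) * n1 + (k - o1)` -/
inductive Gp : Type
  | mk (o1 n1 o2 n2 s : ℕ) : Gp

inductive BL : Type
  | nil : BL
  | c (o1 n1 o2 n2 s : ℕ) (t : BL) : BL

noncomputable def BL.get (gs : BL) : ℕ → Gp :=
  BL.rec (motive := fun _ => ℕ → Gp) (fun _ => .mk 0 0 0 0 0)
    (fun o1 n1 o2 n2 s _ ih i => Nat.rec (motive := fun _ => Gp) (.mk o1 n1 o2 n2 s)
      (fun j _ => ih j) i) gs

/-- the blocks are disjoint -/
noncomputable def BL.ok (gs : BL) : ℕ → Bool :=
  BL.rec (motive := fun _ => ℕ → Bool) (fun _ => true)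
    (fun _ n1 _ n2 s _ ih lo => bi (Nat.ble lo s) (ih (Nat.add s (Nat.mul n1 n2))) false) gs

/-- arguments of an identity: nodes with the codes of their components -/
inductive AL : Type
  | nil : AL
  | c (k cid : ℕ) (t : AL) : AL

/-- instances of identities with coefficients (`ng`: negative) -/
inductive IL : Type
  | nil : IL
  /-- Sagle's identity at the nodes a, b, c, d; the `h` are the groups of the outer products,
  the `f` tell whether the factors are in the right order -/
  | s (ng : Bool) (m a b c d : ℕ) (f0 : Bool) (h0 : ℕ) (f1 : Bool) (h1 : ℕ) (f2 : Bool) (h2 : ℕ)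
      (f3 : Bool) (h3 : ℕ) (f4 : Bool) (h4 : ℕ) (t : IL) : IL
  /-- the entry i, j of the table, in the group h -/
  | e (ng : Bool) (m i j h : ℕ) (t : IL) : IL
  /-- anticommutativity for the nodes k, l; h, h' the groups of (k,l), (l,k) -/
  | a (ng : Bool) (m k l h h' : ℕ) (t : IL) : IL
  /-- the identity e at the nodes al -/
  | i (ng : Bool) (m w : ℕ) (al : AL) (t : IL) : IL

/-- data of a component: entries of rank < R may be used, code of the component, its nodes, its
products -/
inductive Cm : Type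
  | mk (R cid oN nN : ℕ) (gs : BL) : Cm

/-- certificate of an entry -/
inductive Ce : Type
  | df : Ce
  | ct (C : Cm) (E h : ℕ) (il : IL) : Ce

/-- multiplication table -/
inductive Tr : Type
  | leaf : Tr
  | nd (l : Tr) (key rk : ℕ) (v : SV) (ce : Ce) (r : Tr) : Tr

/-- component codes and ranges of nodes -/
inductive CL : Type
  | nil : CL
  | c (cid o n : ℕ) (t : CL) : CL

/-- all data: base `β`, `2 * off = β`, scale, number of nodes, codes of the nodes, parities of the
nodes, table, components -/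
structure Dt : Type where
  β : ℕ
  off : ℕ
  sc : ℕ
  N : ℕ
  ncs : ℕ
  pm : ℕ
  T : Tr
  cl : CL

/-- code of node k: `2 * g + 1` for a generator, `2 * (1024 * i + j)` for a product -/
noncomputable def nc (D : Dt) (k : ℕ) : ℕ :=
  Nat.mod (Nat.div D.ncs (Nat.pow 16777216 k)) 16777216

/-- parity of node k -/
noncomputable def pr (D : Dt) (k : ℕ) : Bool := Nat.beq (Nat.mod (Nat.div D.pm (Nat.pow 2 k)) 2) 1

noncomputable def find (T : Tr) (R key : ℕ) : SV :=
  Tr.rec (motive := fun _ => SV) .bad
    (fun _ k rk v _ _ ihl ihr => bi (Nat.ble k key) (bi (Nat.beq k key)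
      (bi (Nat.ble (Nat.succ rk) R) v .bad) ihr) ihl) T

/-- the product of nodes i and j times the scale -/
noncomputable def lk (D : Dt) (R i j : ℕ) : SV :=
  bi (Nat.ble i 1023) (bi (Nat.ble j 1023)
    (bi (Nat.ble i j)
      (bi (Nat.beq i j)
        (bi (pr D i) (find D.T R (Nat.add (Nat.mul 1024 i) j)) .z)
        (bi (pr D i) (bi (pr D j) (find D.T R (Nat.add (Nat.mul 1024 j) i))
            (SV.neg (find D.T R (Nat.add (Nat.mul 1024 j) i))))
          (SV.neg (find D.T R (Nat.add (Nat.mul 1024 j) i)))))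
      (find D.T R (Nat.add (Nat.mul 1024 i) j))) .bad) .bad

/-- product of X and Y in the group g -/
noncomputable def rp (β : ℕ) (g : Gp) (X Y : ℕ → ℕ → ℕ → PV) : PV :=
  Gp.rec (motive := fun _ => PV) (fun o1 n1 o2 n2 s =>
    PV.sh (Nat.pow β s) (PV.mul (X o1 n1 1) (Y o2 n2 n1))) g

/-- single node -/
noncomputable def X1 (D : Dt) (k : ℕ) (o n st : ℕ) : PV := pk D.β o n st (.p k 1 .z)
/-- product of two nodes -/
noncomputable def X2 (D : Dt) (R a b : ℕ) (o n st : ℕ) : PV := pk D.β o n st (lk D R a b)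
/-- product of three nodes -/
noncomputable def X3 (D : Dt) (R a b c : ℕ) (o n st : ℕ) : PV :=
  comb D.β (fun k => pk D.β o n st (lk D R k c)) (lk D R a b)

/-- signed product of X and Y, of parities px, py, in the group h; f: right order -/
noncomputable def tm (D : Dt) (gs : BL) (s f : Bool) (h : ℕ) (px py : Bool)
    (X Y : ℕ → ℕ → ℕ → PV) : PV :=
  bi f (PV.sg s (rp D.β (gs.get h) X Y))
    (PV.sg (bi px (bi py s (not s)) (not s)) (rp D.β (gs.get h) Y X))

/-- instance of Sagle's identity -/
noncomputable def sag (D : Dt) (R : ℕ) (gs : BL) (a b c d : ℕ) (f0 : Bool) (h0 : ℕ) (f1 : Bool)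
    (h1 : ℕ) (f2 : Bool) (h2 : ℕ) (f3 : Bool) (h3 : ℕ) (f4 : Bool) (h4 : ℕ)
    (pa pb pc pd : Bool) : PV :=
  PV.add (tm D gs (and pb pc) f0 h0 (xor pa pc) (xor pb pd) (X2 D R a c) (X2 D R b d))
  (PV.add (tm D gs true f1 h1 (xor pa (xor pb pc)) pd (X3 D R a b c) (X1 D d))
  (PV.add (tm D gs (not (and pa (xor pb (xor pc pd)))) f2 h2 (xor pb (xor pc pd)) pa
    (X3 D R b c d) (X1 D a))
  (PV.add (tm D gs (not (and (xor pa pb) (xor pc pd))) f3 h3 (xor pc (xor pd pa)) pb
    (X3 D R c d a) (X1 D b))
  (tm D gs (not (and pd (xor pa (xor pb pc)))) f4 h4 (xor pd (xor pa pb)) pc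
    (X3 D R d a b) (X1 D c)))))

/-- values of expressions: code of the component, number of scale factors, parity, vector -/
inductive TV : Type
  | mk (cid m : ℕ) (par : Bool) (v : PV) : TV

inductive Rg : Type
  | mk (o n : ℕ) : Rg

noncomputable def CL.rg (cl : CL) (cid : ℕ) : Rg :=
  CL.rec (motive := fun _ => Rg) (.mk 0 0) (fun cid' o n _ ih => bi (Nat.beq cid' cid) (.mk o n) ih) cl

/-- digits -/
noncomputable def dg (D : Dt) (o Q n : ℕ) : SV :=
  Nat.rec (motive := fun _ => SV) .z (fun i ih =>
    (fun d => bi (Nat.beq d D.off) ih (bi (Nat.ble D.off d)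
      (.p (Nat.add o i) (Nat.sub d D.off) ih) (.n (Nat.add o i) (Nat.sub D.off d) ih)))
      (Nat.mod (Nat.div Q (Nat.pow D.β i)) D.β)) n

/-- from a packed vector to a sum -/
noncomputable def toSV (D : Dt) (r : Rg) (x : PV) : SV :=
  Rg.rec (motive := fun _ => SV) (fun o n => PV.rec (motive := fun _ => SV) (fun P N b =>
    bi (Nat.ble (Nat.succ b) D.off)
      (dg D o (Nat.sub (Nat.add P (Nat.mul D.off (Nat.div (Nat.sub (Nat.pow D.β n) 1)
        (Nat.sub D.β 1)))) N) n) .bad) x) r

/-- is the bound small -/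
noncomputable def sml (D : Dt) (x : PV) : Bool :=
  PV.rec (motive := fun _ => Bool) (fun _ _ b => Nat.ble (Nat.succ b) D.off) x

/-- outer product of two sums in the component with products `gs` -/
noncomputable def rawm (D : Dt) (gs : BL) (rx ry : Rg) (px py : Bool) (sx sy : SV) : PV :=
  Rg.rec (motive := fun _ => PV) (fun ox _ => Rg.rec (motive := fun _ => PV) (fun oy _ =>
    BL.rec (motive := fun _ => PV) (pbad D.β) (fun o1 n1 o2 n2 s _ ih =>
      bi (bi (Nat.beq o1 ox) (Nat.beq o2 oy) false)
        (rp D.β (.mk o1 n1 o2 n2 s) (fun o n st => pk D.β o n st sx) (fun o n st => pk D.β o n st sy))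
        (bi (bi (Nat.beq o1 oy) (Nat.beq o2 ox) false)
          (PV.sg (not (and px py)) (rp D.β (.mk o1 n1 o2 n2 s) (fun o n st => pk D.β o n st sy)
            (fun o n st => pk D.β o n st sx))) ih)) gs) ry) rx

/-- product of two values -/
noncomputable def tmul (D : Dt) (R top : ℕ) (gs : BL) (s : Bool) (x y : TV) : TV :=
  TV.rec (motive := fun _ => TV) (fun cx mx px vx => TV.rec (motive := fun _ => TV)
    (fun cy my py vy =>
      bi (bi (sml D vx) (bi (sml D vy) (bi (Nat.beq cx top) false
          (bi (Nat.beq cy top) false true)) false) false)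
        (bi (Nat.beq (Nat.add cx cy) top)
          (.mk top (Nat.add mx my) (xor px py)
            (PV.sg s (rawm D gs (D.cl.rg cx) (D.cl.rg cy) px py (toSV D (D.cl.rg cx) vx)
              (toSV D (D.cl.rg cy) vy))))
          (.mk (Nat.add cx cy) (Nat.succ (Nat.add mx my)) (xor px py)
            (PV.sg s (Rg.rec (motive := fun _ => PV) (fun o n =>
              comb D.β (fun k => comb D.β (fun l => pk D.β o n 1 (lk D R k l))
                (toSV D (D.cl.rg cy) vy)) (toSV D (D.cl.rg cx) vx)) (D.cl.rg (Nat.add cx cy))))))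
        (.mk 0 0 false (pbad D.β))) y) x

noncomputable def tadd (D : Dt) (x y : TV) : TV :=
  TV.rec (motive := fun _ => TV) (fun cx mx px vx => TV.rec (motive := fun _ => TV)
    (fun cy my py vy =>
      bi (bi (Nat.beq cx cy) (bi (Nat.beq mx my) (bi px py (not py)) false) false)
        (.mk cx mx px (PV.add vx vy)) (.mk 0 0 false (pbad D.β))) y) x

noncomputable def tng (x : TV) : TV :=
  TV.rec (motive := fun _ => TV) (fun cx mx px vx => .mk cx mx px (PV.ng vx)) x

noncomputable def tsm (n : ℕ) (x : TV) : TV :=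
  TV.rec (motive := fun _ => TV) (fun cx mx px vx => .mk cx mx px (PV.sm n vx)) x

/-- the value of letter i -/
noncomputable def tlt (D : Dt) (top : ℕ) (al : AL) : ℕ → TV :=
  AL.rec (motive := fun _ => ℕ → TV) (fun _ => .mk 0 0 false (pbad D.β))
    (fun k cid _ ih i => Nat.rec (motive := fun _ => TV)
      (bi (Nat.beq cid top) (.mk 0 0 false (pbad D.β))
        (.mk cid 0 (pr D k) (Rg.rec (motive := fun _ => PV)
          (fun o n => pk D.β o n 1 (.p k 1 .z)) (D.cl.rg cid))))
      (fun j _ => ih j) i) al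

/-- node of letter i -/
noncomputable def AL.nd (al : AL) : ℕ → ℕ :=
  AL.rec (motive := fun _ => ℕ → ℕ) (fun _ => 0)
    (fun k _ _ ih i => Nat.rec (motive := fun _ => ℕ) k (fun j _ => ih j) i) al

noncomputable def tev (D : Dt) (R top : ℕ) (gs : BL) (al : AL) (p : ℕ → Bool) (e : PEx) : TV :=
  PEx.rec (motive := fun _ => TV) (fun i => tlt D top al i)
    (fun _ _ iha ihb => tadd D iha ihb)
    (fun _ _ iha ihb => tadd D iha (tng ihb))
    (fun _ iha => tng iha)
    (fun n _ iha => Int.rec (motive := fun _ => TV) (fun m => tsm m iha)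
      (fun m => tng (tsm (Nat.succ m) iha)) n)
    (fun n _ iha => tsm n iha)
    (fun a b iha ihb => tmul D R top gs (linv p a.lts b.lts) iha ihb) e

/-- the raw vector of a value -/
noncomputable def traw (D : Dt) (top : ℕ) (x : TV) : PV :=
  TV.rec (motive := fun _ => PV) (fun cx _ _ vx => bi (Nat.beq cx top) vx (pbad D.β)) x

noncomputable def lget (ids : List PEx) : ℕ → PEx :=
  List.rec (motive := fun _ => ℕ → PEx) (fun _ => .sub (.X 0) (.X 0))
    (fun e _ ih i => Nat.rec (motive := fun _ => PEx) e (fun j _ => ih j) i) ids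

/-- sum of instances -/
noncomputable def ils (ids : List PEx) (D : Dt) (R rk top oN nN : ℕ) (gs : BL) (l : IL) : PV :=
  IL.rec (motive := fun _ => PV) pzero
    (fun ng m a b c d f0 h0 f1 h1 f2 h2 f3 h3 f4 h4 _ ih =>
      PV.add (PV.sg ng (PV.sm m (sag D R gs a b c d f0 h0 f1 h1 f2 h2 f3 h3 f4 h4 (pr D a) (pr D b)
        (pr D c) (pr D d)))) ih)
    (fun ng m i j h _ ih =>
      PV.add (PV.sg ng (PV.sm m (PV.add (PV.sm D.sc (rp D.β (gs.get h) (X1 D i) (X1 D j)))
        (PV.ng (pk D.β oN nN 1 (bi (Nat.ble j 1023) (find D.T rk (Nat.add (Nat.mul 1024 i) j))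
          .bad)))))) ih)
    (fun ng m k l h h' _ ih =>
      PV.add (PV.sg ng (PV.sm m (PV.add (rp D.β (gs.get h) (X1 D k) (X1 D l))
        (PV.sg (and (pr D k) (pr D l)) (rp D.β (gs.get h') (X1 D l) (X1 D k)))))) ih)
    (fun ng m w al _ ih =>
      PV.add (PV.sg ng (PV.sm m (traw D top (tev D R top gs al (fun i => pr D (al.nd i))
        (lget ids w))))) ih) l

/-- the vector is zero -/
noncomputable def pz (β : ℕ) (x : PV) : Bool :=
  PV.rec (motive := fun _ => Bool) (fun P N b => bi (Nat.beq P N) (Nat.ble (Nat.succ b) β) false) x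

/-- check of an entry -/
noncomputable def chkE (M : ℕ) (ids : List PEx) (D : Dt) (key rk : ℕ) (v : SV) (ce : Ce) : Bool :=
  Ce.rec (motive := fun _ => Bool)
    (SV.rec (motive := fun _ => Bool) false false
      (fun k m t _ => SV.rec (motive := fun _ => Bool)
        (bi (Nat.beq m D.sc) (bi (Nat.beq (nc D k) (Nat.mul 2 key)) (Nat.ble (Nat.succ k) D.N)
          false) false) false (fun _ _ _ _ => false) (fun _ _ _ _ => false) t)
      (fun _ _ _ _ => false) v)
    (fun C E h il => Cm.rec (motive := fun _ => Bool) (fun R cid oN nN gs =>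
      bi (Nat.ble R rk) (bi (smb M E) (bi (gs.ok nN)
        (pz D.β (PV.add (PV.sm E (PV.add (pk D.β oN nN 1 v)
          (PV.ng (PV.sm D.sc (rp D.β (gs.get h) (X1 D (Nat.div key 1024))
            (X1 D (Nat.mod key 1024)))))))
          (ils ids D R rk cid oN nN gs il)))
        false) false) false) C) ce

/-- check of the table -/
noncomputable def chkT (M : ℕ) (ids : List PEx) (D : Dt) (T : Tr) : Bool :=
  Tr.rec (motive := fun _ => Bool) true
    (fun _ k rk v ce _ ihl ihr => bi (chkE M ids D k rk v ce) (bi ihl ihr false) false) T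

/-- check of the nodes -/
noncomputable def chkN (D : Dt) (par : ℕ → Bool) (n : ℕ) : Bool :=
  Nat.rec (motive := fun _ => Bool) true (fun k ih =>
    bi ((fun c => bi (Nat.beq (Nat.mod c 2) 1)
      ((fun a b : Bool => bi a b (not b)) (pr D k) (par (Nat.div c 2)))
      (bi (Nat.ble (Nat.succ (Nat.div (Nat.div c 2) 1024)) k)
        (bi (Nat.ble (Nat.succ (Nat.mod (Nat.div c 2) 1024)) k)
          ((fun a b : Bool => bi a b (not b)) (pr D k)
            (xor (pr D (Nat.div (Nat.div c 2) 1024)) (pr D (Nat.mod (Nat.div c 2) 1024))))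
          false) false)) (nc D k)) ih false) n

/-- the letters of the target are generators -/
noncomputable def chkA (D : Dt) (cls : ℕ → ℕ) (al : AL) (i : ℕ) : Bool :=
  (AL.rec (motive := fun _ => ℕ → Bool) (fun _ => true)
    (fun k _ _ ih i => bi (Nat.beq (nc D k) (Nat.succ (Nat.mul 2 (cls i))))
      (bi (Nat.ble (Nat.succ k) D.N) (ih (Nat.succ i)) false) false) al : ℕ → Bool) i

/-- the complete check -/
noncomputable def chk (M : ℕ) (ids : List PEx) (D : Dt) (par : ℕ → Bool) (cls : ℕ → ℕ) (e : PEx) (al : AL)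
    (R top E : ℕ) (gs : BL) (il : IL) : Bool :=
  bi (bi (smb M D.sc) (bi (Nat.ble 2 D.off) (bi (Nat.beq (Nat.mul 2 D.off) D.β)
    (bi (smb M E) (bi (gs.ok 0) (bi (chkN D par D.N) (chkA D cls al 0) false) false) false)
      false) false) false)
    (bi (chkT M ids D D.T)
      (pz D.β (PV.add (PV.sm E (traw D top (tev D R top gs al (fun l => par (cls l)) e)))
        (ils ids D R R top 0 0 gs il))) false) false

end Pool.Agent.MalP.Chk
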