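import Pool.Agent.MalP.Ex

/-! # The number of permutations which preserve the classes -/

set_option autoImplicit false

namespace Pool.Agent.MalP

open Finset Equiv

/-- the factorials of the sizes of the classes are smooth -/
def ClsOk (M k : ℕ) (cls : ℕ → ℕ) : Prop :=
  ∀ j : Fin k, smb M ((univ.filter (fun i : Fin k => cls i = cls j)).card.factorial) = true

instance (M k : ℕ) (cls : ℕ → ℕ) : Decidable (ClsOk M k cls) := by
  unfold ClsOk
  infer_instance

theorem smooth_prod {M : ℕ} {α : Type*} (s : Finset α) (f : α → ℕ)
    (h : ∀ a ∈ s, Smooth M (f a : ℤ)) : Smooth M ((∏ a ∈ s, f a : ℕ) : ℤ) := by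
  classical
  induction s using Finset.induction_on with
  | empty => exact smooth_one
  | insert a s ha ih =>
    rw [prod_insert ha, Nat.cast_mul]
    exact (h a (mem_insert_self a s)).mul (ih fun b hb => h b (mem_insert_of_mem hb))

theorem smooth_cls {M k : ℕ} {cls : ℕ → ℕ} (h : ClsOk M k cls) :
    Smooth M ((univ.filter (fun σ : Perm (Fin k) => ∀ i, cls (σ i) = cls i)).card : ℤ) := by
  have h1 := DomMulAct.stabilizer_card' (fun i : Fin k => cls i)
  have h2 : (univ.filter (fun σ : Perm (Fin k) => ∀ i, cls (σ i) = cls i)).card =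
      Fintype.card {g : Perm (Fin k) // (fun i : Fin k => cls i) ∘ g = fun i : Fin k => cls i} := by
    rw [Fintype.card_subtype]
    congr 1
    ext σ
    simp only [mem_filter, mem_univ, true_and]
    constructor
    · intro h
      funext i
      exact h i
    · intro h i
      exact congrFun h i
  rw [h2, h1]
  apply smooth_prod
  intro g hg
  obtain ⟨j, _, rfl⟩ := mem_image.1 hg
  have h3 := smooth_of_smb (h j)
  rwa [Fintype.card_subtype]

end Pool.Agent.MalP
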