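import Pool.Agent.MalP.VDefs

/-! # Skewness and linearity of `Jac` and `P108` -/

set_option autoImplicit false

namespace Pool.Agent.MalP

universe u v

namespace PSkewAux

variable {B : Type v} [NonUnitalNonAssocRing B]

theorem Jac_add1 (x x' y z : B) : Jac (x + x') y z = Jac x y z + Jac x' y z := by
  unfold Jac
  simp only [add_mul, mul_add]
  abel

theorem Jac_add2 (x y y' z : B) : Jac x (y + y') z = Jac x y z + Jac x y' z := by
  unfold Jac
  simp only [add_mul, mul_add]
  abel

theorem Jac_add3 (x y z z' : B) : Jac x y (z + z') = Jac x y z + Jac x y z' := by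
  unfold Jac
  simp only [add_mul, mul_add]
  abel

theorem Jac_neg1 (x y z : B) : Jac (-x) y z = - Jac x y z := by
  unfold Jac
  simp only [neg_mul, mul_neg]
  abel

theorem Jac_smul1 {F : Type u} [Field F] [Module F B] [IsScalarTower F B B] [SMulCommClass F B B]
    (r : F) (x y z : B) : Jac (r • x) y z = r • Jac x y z := by
  unfold Jac
  simp only [smul_mul_assoc, mul_smul_comm, smul_add]

theorem Jac_smul2 {F : Type u} [Field F] [Module F B] [IsScalarTower F B B] [SMulCommClass F B B]
    (r : F) (x y z : B) : Jac x (r • y) z = r • Jac x y z := by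
  unfold Jac
  simp only [smul_mul_assoc, mul_smul_comm, smul_add]

theorem Jac_smul3 {F : Type u} [Field F] [Module F B] [IsScalarTower F B B] [SMulCommClass F B B]
    (r : F) (x y z : B) : Jac x y (r • z) = r • Jac x y z := by
  unfold Jac
  simp only [smul_mul_assoc, mul_smul_comm, smul_add]

end PSkewAux

open PSkewAux

section skew

variable {B : Type v} [NonUnitalNonAssocRing B]

theorem IsMalcev.anti (h : IsMalcev B) (x y : B) : x * y = -(y * x) := by
  have h1 := h.sq (x + y)
  rw [add_mul, mul_add, mul_add, h.sq x, h.sq y, zero_add, add_zero] at h1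
  exact eq_neg_of_add_eq_zero_left h1

theorem IsMalcev.Jac12 (h : IsMalcev B) (x y z : B) : Jac y x z = - Jac x y z := by
  unfold Jac
  rw [h.anti y x, h.anti x z, h.anti z y]
  simp only [neg_mul]
  abel

theorem IsMalcev.Jac23 (h : IsMalcev B) (x y z : B) : Jac x z y = - Jac x y z := by
  unfold Jac
  rw [h.anti x z, h.anti z y, h.anti y x]
  simp only [neg_mul]
  abel

theorem Jac_cyc (x y z : B) : Jac y z x = Jac x y z := by
  unfold Jac
  abel

theorem IsMalcev.Jac_self (h : IsMalcev B) (x y : B) : Jac x x y = 0 := by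
  unfold Jac
  rw [h.sq x, zero_mul, zero_add, h.anti y x, neg_mul, add_neg_cancel]

theorem IsMalcev.P12 (h : IsMalcev B) (a b c d x : B) : P108 b a c d x = - P108 a b c d x := by
  unfold P108
  rw [h.Jac23 x a b, h.Jac23 (Jac x c d) a b, h.Jac12 a b c, h.Jac12 a b d]
  simp only [Jac_neg1, neg_mul, mul_neg, smul_add, smul_sub, smul_neg]
  abel

theorem IsMalcev.P23 (h : IsMalcev B) (a b c d x : B) : P108 a c b d x = - P108 a b c d x := by
  unfold P108
  rw [h.Jac23 x b c, h.Jac23 (Jac x a d) b c, h.Jac23 a b c, h.Jac12 b c d]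
  simp only [Jac_neg1, neg_mul, mul_neg, smul_add, smul_sub, smul_neg]
  abel

theorem IsMalcev.P34 (h : IsMalcev B) (a b c d x : B) : P108 a b d c x = - P108 a b c d x := by
  unfold P108
  rw [h.Jac23 x c d, h.Jac23 (Jac x a b) c d, h.Jac23 a c d, h.Jac23 b c d]
  simp only [Jac_neg1, neg_mul, mul_neg, smul_add, smul_sub, smul_neg]
  abel

end skew

variable (F : Type u) [Field F] {B : Type v} [NonUnitalNonAssocRing B] [Module F B]
  [IsScalarTower F B B] [SMulCommClass F B B]

/-- `P108` as a linear map in the last argument etc. -/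
theorem Jac_lin1 (y z : B) : ∃ f : B →ₗ[F] B, ∀ x, f x = Jac x y z :=
  ⟨{ toFun := fun x => Jac x y z
     map_add' := fun x x' => Jac_add1 x x' y z
     map_smul' := fun r x => Jac_smul1 r x y z }, fun _ => rfl⟩

theorem P108_lin_a (b c d x : B) : ∃ f : B →ₗ[F] B, ∀ a, f a = P108 a b c d x :=
  ⟨{ toFun := fun a => P108 a b c d x
     map_add' := fun a a' => by
      unfold P108
      simp only [Jac_add1, Jac_add2, Jac_add3, add_mul, mul_add, smul_add, smul_sub]
      abel
     map_smul' := fun r a => by
      unfold P108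
      simp only [Jac_smul1, Jac_smul2, Jac_smul3, smul_mul_assoc, mul_smul_comm, smul_add, smul_sub,
        RingHom.id_apply, smul_comm (6 : ℕ) r] }, fun _ => rfl⟩

theorem P108_lin_b (a c d x : B) : ∃ f : B →ₗ[F] B, ∀ b, f b = P108 a b c d x :=
  ⟨{ toFun := fun b => P108 a b c d x
     map_add' := fun b b' => by
      unfold P108
      simp only [Jac_add1, Jac_add2, Jac_add3, add_mul, mul_add, smul_add, smul_sub]
      abel
     map_smul' := fun r b => by
      unfold P108
      simp only [Jac_smul1, Jac_smul2, Jac_smul3, smul_mul_assoc, mul_smul_comm, smul_add, smul_sub,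
        RingHom.id_apply, smul_comm (6 : ℕ) r] }, fun _ => rfl⟩

theorem P108_lin_c (a b d x : B) : ∃ f : B →ₗ[F] B, ∀ c, f c = P108 a b c d x :=
  ⟨{ toFun := fun c => P108 a b c d x
     map_add' := fun c c' => by
      unfold P108
      simp only [Jac_add1, Jac_add2, Jac_add3, add_mul, mul_add, smul_add, smul_sub]
      abel
     map_smul' := fun r c => by
      unfold P108
      simp only [Jac_smul1, Jac_smul2, Jac_smul3, smul_mul_assoc, mul_smul_comm, smul_add, smul_sub,
        RingHom.id_apply, smul_comm (6 : ℕ) r] }, fun _ => rfl⟩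

theorem P108_lin_d (a b c x : B) : ∃ f : B →ₗ[F] B, ∀ d, f d = P108 a b c d x :=
  ⟨{ toFun := fun d => P108 a b c d x
     map_add' := fun d d' => by
      unfold P108
      simp only [Jac_add1, Jac_add2, Jac_add3, add_mul, mul_add, smul_add, smul_sub]
      abel
     map_smul' := fun r d => by
      unfold P108
      simp only [Jac_smul1, Jac_smul2, Jac_smul3, smul_mul_assoc, mul_smul_comm, smul_add, smul_sub,
        RingHom.id_apply, smul_comm (6 : ℕ) r] }, fun _ => rfl⟩

theorem P108_lin_x (a b c d : B) : ∃ f : B →ₗ[F] B, ∀ x, f x = P108 a b c d x :=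
  ⟨{ toFun := fun x => P108 a b c d x
     map_add' := fun x x' => by
      unfold P108
      simp only [Jac_add1, Jac_add2, Jac_add3, add_mul, mul_add, smul_add, smul_sub]
      abel
     map_smul' := fun r x => by
      unfold P108
      simp only [Jac_smul1, Jac_smul2, Jac_smul3, smul_mul_assoc, mul_smul_comm, smul_add, smul_sub,
        RingHom.id_apply, smul_comm (6 : ℕ) r] }, fun _ => rfl⟩

end Pool.Agent.MalP
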