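import Pool.Agent.MalP.C7
import Pool.Agent.MalP.Words3

/-! # Cross product algebras as Malcev algebras -/

set_option autoImplicit false

namespace Pool.Agent.MalP

universe u v

variable {F : Type u} [Field F]

/-- the underlying Malcev algebra -/
@[ext] structure CPA.Mal (A : CPA F) : Type u where
  e : A.E

namespace CPA.Mal

variable {A : CPA F}

noncomputable instance : Zero A.Mal := ⟨⟨0⟩⟩
noncomputable instance : Add A.Mal := ⟨fun x y => ⟨x.e + y.e⟩⟩
noncomputable instance : Neg A.Mal := ⟨fun x => ⟨-x.e⟩⟩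
noncomputable instance : Mul A.Mal := ⟨fun x y => ⟨A.mul x.e y.e⟩⟩
noncomputable instance : SMul F A.Mal := ⟨fun r x => ⟨algebraMap F A.S r • x.e⟩⟩

@[simp] theorem zero_e : (0 : A.Mal).e = 0 := rfl
@[simp] theorem add_e (x y : A.Mal) : (x + y).e = x.e + y.e := rfl
@[simp] theorem neg_e (x : A.Mal) : (-x).e = -x.e := rfl
@[simp] theorem mul_e (x y : A.Mal) : (x * y).e = A.mul x.e y.e := rfl
@[simp] theorem smul_e (r : F) (x : A.Mal) : (r • x).e = algebraMap F A.S r • x.e := rfl

noncomputable instance : NonUnitalNonAssocRing A.Mal where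
  add_assoc := fun x y z => by ext; simp [add_assoc]
  zero_add := fun x => by ext; simp
  add_zero := fun x => by ext; simp
  add_comm := fun x y => by ext; simp [add_comm]
  neg_add_cancel := fun x => by ext; simp
  nsmul := nsmulRec
  zsmul := zsmulRec
  left_distrib := fun x y z => by ext; simp
  right_distrib := fun x y z => by ext; simp
  zero_mul := fun x => by ext; simp
  mul_zero := fun x => by ext; simp

@[simp] theorem sub_e (x y : A.Mal) : (x - y).e = x.e - y.e := by
  rw [sub_eq_add_neg, add_e, neg_e, sub_eq_add_neg]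

noncomputable instance : Module F A.Mal where
  one_smul := fun x => by ext; simp
  mul_smul := fun r t x => by ext; simp [mul_smul]
  smul_zero := fun r => by ext; simp
  smul_add := fun r x y => by ext; simp
  add_smul := fun r t x => by ext; simp [add_smul]
  zero_smul := fun x => by ext; simp

instance : IsScalarTower F A.Mal A.Mal where
  smul_assoc := fun r x y => by ext; simp

instance : SMulCommClass F A.Mal A.Mal where
  smul_comm := fun r x y => by ext; simp

end CPA.Mal

/-- the generic element of the extension -/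
noncomputable def CPA.Y (A : CPA F) [C23 F] : A.ext.E := (⟨0, A.mkW (1, 0, 0)⟩ : A.EE)

namespace MalEAux

theorem mal_id {A : CPA F} (x y z : A.E) :
    A.mul (A.mul x y) (A.mul x z) - A.s x (A.mul x z) • y + A.s y (A.mul x z) • x =
      A.mul (A.mul (A.mul x y) z - A.s x z • y + A.s y z • x) x := by
  set u := A.mul x y with hu
  have m1 := A.main x u z
  have m2 := A.main u x z
  have a1 : A.mul u x = -A.mul x u := A.anti u x
  have a2 : A.mul (A.mul u z) x = -A.mul x (A.mul u z) := A.anti _ x
  have a3 : A.mul y x = -u := by rw [hu]; exact A.anti y x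
  have s1 : A.s x u = 0 := by
    rw [hu, ← A.assoc x x y, A.skew, map_zero, LinearMap.zero_apply]
  have s2 : A.s x (A.mul x z) = 0 := by
    rw [← A.assoc x x z, A.skew, map_zero, LinearMap.zero_apply]
  have s3 : A.s y (A.mul x z) = -A.s u z := by
    rw [← A.assoc y x z, a3, map_neg, LinearMap.neg_apply]
  have s4 : A.s u x = 0 := by rw [A.symm, s1]
  rw [s2, s3]
  simp only [map_add, map_sub, map_smul, LinearMap.add_apply, LinearMap.sub_apply,
    LinearMap.smul_apply, A.skew, smul_zero, add_zero, a3, a2]
  rw [s1] at m1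
  rw [s4, a1, map_neg, LinearMap.neg_apply] at m2
  linear_combination (norm := module) m1 + m2

theorem jac_e {A : CPA F} (x y z : A.Mal) : (Jac x y z).e =
    (3 : A.S) • (A.mul (A.mul x.e y.e) z.e - A.s x.e z.e • y.e + A.s y.e z.e • x.e) := by
  have h := A.chi3 x.e y.e z.e
  rw [← h]
  rfl

/-- the operators given by the scalars of `S` -/
noncomputable def sc {A : CPA F} (r : A.S) : A.Mal →ₗ[F] A.Mal where
  toFun := fun x => ⟨r • x.e⟩
  map_add' := fun x y => by ext; simp
  map_smul' := fun t x => by
    ext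
    show r • (algebraMap F A.S t • x.e) = algebraMap F A.S t • (r • x.e)
    rw [smul_comm]

theorem sc_e {A : CPA F} (r : A.S) (x : A.Mal) : (sc r x).e = r • x.e := rfl

/-- a homomorphism of the cross product algebras is a homomorphism of the Malcev algebras -/
noncomputable def hm {A B : CPA F} (h : CPA.Hom A B) : A.Mal →ₙₐ[F] B.Mal where
  toFun := fun x => ⟨h.ψ x.e⟩
  map_smul' := fun r x => by
    apply CPA.Mal.ext
    show h.ψ (algebraMap F A.S r • x.e) = algebraMap F B.S r • h.ψ x.e
    rw [LinearMap.map_smulₛₗ]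
    congr 1
    exact h.φ.commutes r
  map_zero' := by
    apply CPA.Mal.ext
    exact map_zero h.ψ
  map_add' := fun x y => by
    apply CPA.Mal.ext
    exact map_add h.ψ x.e y.e
  map_mul' := fun x y => by
    apply CPA.Mal.ext
    exact h.map_mul x.e y.e

theorem hm_e {A B : CPA F} (h : CPA.Hom A B) (x : A.Mal) : (hm h x).e = h.ψ x.e := rfl

variable [C23 F]

theorem s_Y (A : CPA F) (e : A.E) (h : A.ext.s (A.incl.ψ e) A.Y = 0) : e = 0 := by
  have h1 := A.ext_s (A.incl.ψ e) A.Y
  rw [h] at h1
  have h2 := congrArg CPA.SE.g h1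
  have h3 : (0 : A.E) = A.sW e (A.mkW (1, 0, 0)) + A.sW 0 0 := h2
  rw [map_zero, add_zero, CPA.sW_mk] at h3
  have h4 : A.sT e (1, 0, 0) = e := by
    show (1 : A.S) • e + A.mul e 0 + TensorProduct.lift (LinearMap.lsmul A.S A.E ∘ₗ A.s e) 0 = e
    rw [one_smul, map_zero, map_zero, add_zero, add_zero]
  rw [h4] at h3
  exact h3.symm

end MalEAux

theorem CPA.Mal.isMalcev [C23 F] (A : CPA F) : IsMalcev A.Mal where
  sq := fun x => by
    apply CPA.Mal.ext
    exact A.skew x.e
  mal := fun x y z => by
    apply CPA.Mal.ext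
    rw [CPA.Mal.mul_e, MalEAux.jac_e, MalEAux.jac_e, map_smul, LinearMap.smul_apply,
      ← MalEAux.mal_id]
    rfl

end Pool.Agent.MalP
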