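import Pool.Agent.MalP.EDef
import Pool.Agent.MalP.MalE

/-! # The cross product algebra of an algebra with operators sigma -/

set_option autoImplicit false
set_option linter.unusedSectionVars false

namespace Pool.Agent.MalP

universe u v

namespace EAlgAux

section lift

variable {R : Type*} [CommRing R] {M P : Type*} [AddCommGroup M] [Module R M] [AddCommGroup P]
  [Module R P]

/-- a bilinear map on a quotient -/
def liftQ2 (N : Submodule R M) (f : M →ₗ[R] M →ₗ[R] P) (h1 : ∀ n ∈ N, ∀ e, f n e = 0)
    (h2 : ∀ n ∈ N, ∀ e, f e n = 0) : M ⧸ N →ₗ[R] M ⧸ N →ₗ[R] P :=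
  N.liftQ
    { toFun := fun e => N.liftQ (f e) (fun n hn => h2 n hn e)
      map_add' := fun a b => by
        apply Submodule.linearMap_qext
        apply LinearMap.ext
        intro x
        show f (a + b) x = f a x + f b x
        rw [map_add, LinearMap.add_apply]
      map_smul' := fun r a => by
        apply Submodule.linearMap_qext
        apply LinearMap.ext
        intro x
        show f (r • a) x = r • f a x
        rw [map_smul, LinearMap.smul_apply] }
    (fun n hn => by
      rw [LinearMap.mem_ker]
      apply Submodule.linearMap_qext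
      apply LinearMap.ext
      intro x
      exact h1 n hn x)

theorem liftQ2_mk (N : Submodule R M) (f : M →ₗ[R] M →ₗ[R] P) (h1 : ∀ n ∈ N, ∀ e, f n e = 0)
    (h2 : ∀ n ∈ N, ∀ e, f e n = 0) (a b : M) :
    liftQ2 N f h1 h2 (N.mkQ a) (N.mkQ b) = f a b := rfl

/-- induction over generators of a quotient of a free module -/
theorem ind {κ : Type*} (N : Submodule R (κ →₀ R)) {P : ((κ →₀ R) ⧸ N) → Prop} (h0 : P 0)
    (ha : ∀ x y, P x → P y → P (x + y)) (hs : ∀ (s : R) x, P x → P (s • x))
    (hi : ∀ a, P (N.mkQ (Finsupp.single a 1))) (x : (κ →₀ R) ⧸ N) : P x := by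
  obtain ⟨x, rfl⟩ := N.mkQ_surjective x
  induction x using Finsupp.induction_linear with
  | zero => rw [map_zero]; exact h0
  | add x y hx hy => rw [map_add]; exact ha _ _ hx hy
  | single a s =>
    have h1 : (Finsupp.single a s : κ →₀ R) = s • Finsupp.single a 1 := by
      rw [Finsupp.smul_single, smul_eq_mul, mul_one]
    rw [h1, map_smul]
    exact hs _ _ (hi a)

end lift

section ext

variable {R : Type*} [CommRing R] {E : Type*} [AddCommGroup E] [Module R E] {κ : Type*}
  {g : κ → E}

/-- induction over the generators -/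
def Ind (g : κ → E) : Prop := ∀ P : E → Prop, P 0 → (∀ x y, P x → P y → P (x + y)) →
  (∀ (s : R) x, P x → P (s • x)) → (∀ a, P (g a)) → ∀ x, P x

variable (hg : Ind (R := R) g) (mul : E →ₗ[R] E →ₗ[R] E) (s : E →ₗ[R] E →ₗ[R] R)

include hg

theorem swap_ext (h : ∀ a b, mul (g a) (g b) + mul (g b) (g a) = 0) (x y : E) :
    mul x y + mul y x = 0 := by
  refine hg (fun x => ∀ y, mul x y + mul y x = 0) ?_ ?_ ?_ ?_ x y
  · intro y
    simp only [map_zero, LinearMap.zero_apply, add_zero]
  · intro x x' hx hx' y
    simp only [map_add, LinearMap.add_apply]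
    linear_combination (norm := module) hx y + hx' y
  · intro r x hx y
    simp only [map_smul, LinearMap.smul_apply]
    rw [← smul_add, hx y, smul_zero]
  · intro a y
    refine hg (fun y => mul (g a) y + mul y (g a) = 0) ?_ ?_ ?_ ?_ y
    · simp only [map_zero, LinearMap.zero_apply, add_zero]
    · intro x x' hx hx'
      simp only [map_add, LinearMap.add_apply]
      linear_combination (norm := module) hx + hx'
    · intro r x hx
      simp only [map_smul, LinearMap.smul_apply]
      rw [← smul_add, hx, smul_zero]
    · intro b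
      exact h a b

theorem symm_ext (h : ∀ a b, s (g a) (g b) = s (g b) (g a)) (x y : E) : s x y = s y x := by
  refine hg (fun x => ∀ y, s x y = s y x) ?_ ?_ ?_ ?_ x y
  · intro y
    simp only [map_zero, LinearMap.zero_apply]
  · intro x x' hx hx' y
    simp only [map_add, LinearMap.add_apply, hx, hx']
  · intro r x hx y
    simp only [map_smul, LinearMap.smul_apply, hx]
  · intro a y
    refine hg (fun y => s (g a) y = s y (g a)) ?_ ?_ ?_ ?_ y
    · simp only [map_zero, LinearMap.zero_apply]
    · intro x x' hx hx'
      simp only [map_add, LinearMap.add_apply, hx, hx']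
    · intro r x hx
      simp only [map_smul, LinearMap.smul_apply, hx]
    · intro b
      exact h a b

theorem assoc_ext (h : ∀ a b c, s (mul (g a) (g b)) (g c) = s (g a) (mul (g b) (g c)))
    (x y z : E) : s (mul x y) z = s x (mul y z) := by
  refine hg (fun x => ∀ y z, s (mul x y) z = s x (mul y z)) ?_ ?_ ?_ ?_ x y z
  · intro y z
    simp only [map_zero, LinearMap.zero_apply]
  · intro x x' hx hx' y z
    simp only [map_add, LinearMap.add_apply, hx, hx']
  · intro r x hx y z
    simp only [map_smul, LinearMap.smul_apply, hx]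
  · intro a y z
    refine hg (fun y => ∀ z, s (mul (g a) y) z = s (g a) (mul y z)) ?_ ?_ ?_ ?_ y z
    · intro z
      simp only [map_zero, LinearMap.zero_apply]
    · intro x x' hx hx' z
      simp only [map_add, LinearMap.add_apply, hx, hx']
    · intro r x hx z
      simp only [map_smul, LinearMap.smul_apply, hx]
    · intro b z
      refine hg (fun z => s (mul (g a) (g b)) z = s (g a) (mul (g b) z)) ?_ ?_ ?_ ?_ z
      · simp only [map_zero]
      · intro x x' hx hx'
        simp only [map_add, hx, hx']
      · intro r x hx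
        simp only [map_smul, hx]
      · intro c
        exact h a b c

theorem main_ext (h : ∀ a b c, mul (g a) (mul (g b) (g c)) + mul (mul (g a) (g b)) (g c) =
      (2 * s (g a) (g c)) • g b - s (g a) (g b) • g c - s (g b) (g c) • g a) (x y z : E) :
    mul x (mul y z) + mul (mul x y) z = (2 * s x z) • y - s x y • z - s y z • x := by
  refine hg (fun x => ∀ y z, mul x (mul y z) + mul (mul x y) z =
    (2 * s x z) • y - s x y • z - s y z • x) ?_ ?_ ?_ ?_ x y z
  · intro y z
    simp only [map_zero, LinearMap.zero_apply, mul_zero, zero_smul, smul_zero, sub_zero, add_zero]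
  · intro x x' hx hx' y z
    simp only [map_add, LinearMap.add_apply]
    linear_combination (norm := module) hx y z + hx' y z
  · intro r x hx y z
    simp only [map_smul, LinearMap.smul_apply, smul_eq_mul]
    rw [← smul_add, hx y z]
    module
  · intro a y z
    refine hg (fun y => ∀ z, mul (g a) (mul y z) + mul (mul (g a) y) z =
      (2 * s (g a) z) • y - s (g a) y • z - s y z • g a) ?_ ?_ ?_ ?_ y z
    · intro z
      simp only [map_zero, LinearMap.zero_apply, zero_smul, smul_zero, sub_zero, add_zero]
    · intro x x' hx hx' z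
      simp only [map_add, LinearMap.add_apply]
      linear_combination (norm := module) hx z + hx' z
    · intro r x hx z
      simp only [map_smul, LinearMap.smul_apply, smul_eq_mul]
      rw [← smul_add, hx z]
      module
    · intro b z
      refine hg (fun z => mul (g a) (mul (g b) z) + mul (mul (g a) (g b)) z =
        (2 * s (g a) z) • g b - s (g a) (g b) • z - s (g b) z • g a) ?_ ?_ ?_ ?_ z
      · simp only [map_zero, mul_zero, zero_smul, smul_zero, sub_zero, add_zero]
      · intro x x' hx hx'
        simp only [map_add]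
        linear_combination (norm := module) hx + hx'
      · intro r x hx
        simp only [map_smul, smul_eq_mul]
        rw [← smul_add, hx]
        module
      · intro c
        exact h a b c

end ext

section Alg

variable {F : Type u} [Field F] {B : Type u} [NonUnitalNonAssocRing B] [Module F B]
  [IsScalarTower F B B] [SMulCommClass F B B]

section

variable (D : SigData F B)

/-- the space of the algebra -/
abbrev EE : Type u := D.E0 ⧸ D.N

/-- the generators -/
noncomputable def io (a : B) : EE D := D.N.mkQ (Finsupp.single a 1)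

theorem ind_io : Ind (R := D.SS) (io D) := fun _ h0 ha hs hi x => ind D.N h0 ha hs hi x

theorem Jn_single (a : B) (s : D.SS) (y z : B) :
    D.Jn (Finsupp.single a s) y z = s • (SigData.jac a y z : JA F B) := by
  unfold SigData.Jn
  rw [Finsupp.linearCombination_single]
  rfl

theorem mem_N_iff (n : D.E0) : n ∈ D.N ↔ ∀ y z, D.Jn n y z = 0 := by
  unfold SigData.N
  rw [LinearMap.mem_ker]
  constructor
  · intro hn y z
    rw [hn]
    rfl
  · intro hn
    funext y z
    exact hn y z

theorem jac_add (a b y z : B) :
    (SigData.jac (a + b) y z : JA F B) = SigData.jac a y z + SigData.jac b y z := by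
  apply Subtype.ext
  show Jac (a + b) y z = Jac a y z + Jac b y z
  unfold Jac
  simp only [add_mul, mul_add]
  abel

theorem jac_smul (r : F) (a y z : B) :
    (SigData.jac (r • a) y z : JA F B) = r • SigData.jac a y z := by
  apply Subtype.ext
  show Jac (r • a) y z = r • Jac a y z
  unfold Jac
  simp only [smul_mul_assoc, mul_smul_comm, smul_add]

theorem mkQ_eq (x y : D.E0) : D.N.mkQ x = D.N.mkQ y ↔ ∀ p q, D.Jn x p q = D.Jn y p q := by
  rw [Submodule.mkQ_apply, Submodule.mkQ_apply, Submodule.Quotient.eq, mem_N_iff]
  refine forall₂_congr fun p q => ?_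
  rw [map_sub]
  exact sub_eq_zero

theorem io_add (a b : B) : io D (a + b) = io D a + io D b := by
  unfold io
  rw [← map_add, mkQ_eq]
  intro y z
  rw [map_add]
  show D.Jn (Finsupp.single (a + b) 1) y z = D.Jn (Finsupp.single a 1) y z +
    D.Jn (Finsupp.single b 1) y z
  rw [Jn_single, Jn_single, Jn_single, one_smul, one_smul, one_smul, jac_add]

theorem algebraMap_smul_JA (r : F) (j : JA F B) : (algebraMap F D.SS r) • j = r • j := by
  rw [SigData.smul_def]
  rfl

theorem io_smul (r : F) (a : B) : io D (r • a) = (algebraMap F D.SS r) • io D a := by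
  unfold io
  rw [← map_smul, mkQ_eq]
  intro y z
  rw [Finsupp.smul_single, smul_eq_mul, mul_one, Jn_single, Jn_single, one_smul, jac_smul,
    algebraMap_smul_JA]

theorem io_zero : io D (0 : B) = 0 := by
  have h1 := io_add D (0 : B) 0
  rw [add_zero] at h1
  exact left_eq_add.1 h1

theorem sg_symm (a b : B) : D.sg a b = D.sg b a := Subtype.ext (D.symm a b)

theorem sg_assoc (a b c : B) : D.sg (a * b) c = D.sg a (b * c) := Subtype.ext (D.assoc a c b)

/-- the value on a combination of three generators -/
theorem Jn_three (a b c : B) (r s t : D.SS) (y z : B) :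
    D.Jn (Finsupp.single b r - Finsupp.single c s - Finsupp.single a t) y z =
      r • SigData.jac b y z - s • SigData.jac c y z - t • SigData.jac a y z := by
  rw [map_sub, map_sub]
  show D.Jn (Finsupp.single b r) y z - D.Jn (Finsupp.single c s) y z -
    D.Jn (Finsupp.single a t) y z = _
  rw [Jn_single, Jn_single, Jn_single]

/-- the main relation between the generators -/
theorem rel_io (h : IsV B) (a b c : B) :
    io D (a * (b * c) + a * b * c) = (2 * D.sg a c) • io D b - D.sg a b • io D c -
      D.sg b c • io D a := by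
  unfold io
  rw [← map_smul, ← map_smul, ← map_smul, ← map_sub, ← map_sub, mkQ_eq]
  intro y z
  rw [Finsupp.smul_single, Finsupp.smul_single, Finsupp.smul_single, smul_eq_mul, smul_eq_mul,
    smul_eq_mul, mul_one, mul_one, mul_one, Jn_three, Jn_single, one_smul]
  have key := D.main b a c y z (SigData.jac b y z) (SigData.jac c y z) (SigData.jac a y z)
    rfl rfl rfl
  have anti : ∀ x y : B, x * y = - (y * x) := by
    intro x y
    have h1 := h.sq (x + y)
    rw [add_mul, mul_add, mul_add, h.sq, h.sq, zero_add, add_zero] at h1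
    exact eq_neg_of_add_eq_zero_left h1
  apply Subtype.ext
  have e2 : (((2 * D.sg a c) • SigData.jac b y z : JA F B) : B) =
      2 • ((D.σ a c (SigData.jac b y z) : JA F B) : B) := by
    rw [mul_smul, two_smul, two_nsmul]
    rfl
  have e3 : (a * (b * c) + a * b * c) = -((b * a) * c + (b * c) * a) := by
    rw [anti a b, anti a (b * c), neg_mul]
    abel
  have e4 : Jac (a * (b * c) + a * b * c) y z = - Jac ((b * a) * c + (b * c) * a) y z := by
    rw [e3]
    unfold Jac
    simp only [neg_mul, mul_neg]
    abel
  show Jac (a * (b * c) + a * b * c) y z = (((2 * D.sg a c) • SigData.jac b y z : JA F B) : B) -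
    ((D.σ a b (SigData.jac c y z) : JA F B) : B) - ((D.σ b c (SigData.jac a y z) : JA F B) : B)
  rw [e4, e2, D.symm a b]
  have e5 : Jac ((b * a) * c + (b * c) * a) y z = ((D.σ b a (SigData.jac c y z) : JA F B) : B) +
      ((D.σ b c (SigData.jac a y z) : JA F B) : B) -
        2 • ((D.σ a c (SigData.jac b y z) : JA F B) : B) := by
    rw [← key]
    abel
  rw [e5]
  abel

end

variable [C23 F] (h : IsV B) (D : SigData F B)

/-- the product -/
noncomputable def mulQ : EE D →ₗ[D.SS] EE D →ₗ[D.SS] EE D :=
  liftQ2 D.N (D.mul0.compr₂ D.N.mkQ)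
    (fun _ hn e => by
      rw [LinearMap.compr₂_apply, Submodule.mkQ_apply, Submodule.Quotient.mk_eq_zero]
      exact (D.N_idl h hn e).1)
    (fun _ hn e => by
      rw [LinearMap.compr₂_apply, Submodule.mkQ_apply, Submodule.Quotient.mk_eq_zero]
      exact (D.N_idl h hn e).2)

/-- the form -/
noncomputable def sQ : EE D →ₗ[D.SS] EE D →ₗ[D.SS] D.SS :=
  liftQ2 D.N D.s0 (fun _ hn e => (D.N_s0 h hn e).1) (fun _ hn e => (D.N_s0 h hn e).2)

theorem mulQ_io (a b : B) : mulQ h D (io D a) (io D b) = io D (a * b) := by
  unfold mulQ io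
  rw [liftQ2_mk, LinearMap.compr₂_apply]
  unfold SigData.mul0
  rw [Finsupp.linearCombination_single, one_smul, Finsupp.linearCombination_single, one_smul]

theorem sQ_io (a b : B) : sQ h D (io D a) (io D b) = D.sg a b := by
  unfold sQ io
  rw [liftQ2_mk]
  unfold SigData.s0
  rw [Finsupp.linearCombination_single, one_smul, Finsupp.linearCombination_single, one_smul]

theorem skewQ (x : EE D) : mulQ h D x x = 0 := by
  have h1 := swap_ext (ind_io D) (mulQ h D) (fun a b => by
    have e : a * b = - (b * a) := by
      have h1 := h.sq (a + b)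
      rw [add_mul, mul_add, mul_add, h.sq, h.sq, zero_add, add_zero] at h1
      exact eq_neg_of_add_eq_zero_left h1
    rw [mulQ_io, mulQ_io, ← io_add, e, neg_add_cancel, io_zero]) x x
  have h2 : (algebraMap F D.SS 2) • mulQ h D x x = 0 := by
    rw [map_ofNat, two_smul]
    exact h1
  have h3 : (algebraMap F D.SS (2⁻¹ : F)) • (algebraMap F D.SS 2) • mulQ h D x x = 0 := by
    rw [h2, smul_zero]
  rw [smul_smul, ← map_mul, inv_mul_cancel₀ (two_ne_zero : (2 : F) ≠ 0), map_one, one_smul] at h3
  exact h3

theorem symmQ (x y : EE D) : sQ h D x y = sQ h D y x :=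
  symm_ext (ind_io D) (sQ h D) (fun a b => by rw [sQ_io, sQ_io, sg_symm]) x y

theorem assocQ (x y z : EE D) : sQ h D (mulQ h D x y) z = sQ h D x (mulQ h D y z) :=
  assoc_ext (ind_io D) (mulQ h D) (sQ h D)
    (fun a b c => by rw [mulQ_io, mulQ_io, sQ_io, sQ_io, sg_assoc]) x y z

theorem mainQ (x y z : EE D) :
    mulQ h D x (mulQ h D y z) + mulQ h D (mulQ h D x y) z =
      (2 * sQ h D x z) • y - sQ h D x y • z - sQ h D y z • x :=
  main_ext (ind_io D) (mulQ h D) (sQ h D)
    (fun a b c => by
      rw [mulQ_io, mulQ_io, mulQ_io, mulQ_io, sQ_io, sQ_io, sQ_io, ← io_add]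
      exact rel_io D h a b c) x y z

end Alg

end EAlgAux

variable {F : Type u} [Field F] [C23 F] {B : Type u} [NonUnitalNonAssocRing B] [Module F B]
  [IsScalarTower F B B] [SMulCommClass F B B]

/-- the cross product algebra -/
theorem exists_cpa (h : IsV B) (D : SigData F B) : ∃ (A : CPA F) (i : B →ₙₐ[F] A.Mal),
    ∀ a, i a = 0 → ∀ y z, Jac a y z = 0 := by
  let A : CPA F :=
    { S := D.SS
      E := EAlgAux.EE D
      mul := EAlgAux.mulQ h D
      s := EAlgAux.sQ h D
      skew := EAlgAux.skewQ h D
      symm := EAlgAux.symmQ h D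
      assoc := EAlgAux.assocQ h D
      main := EAlgAux.mainQ h D }
  let i : B →ₙₐ[F] A.Mal :=
    { toFun := fun a => ⟨EAlgAux.io D a⟩
      map_smul' := fun r a => CPA.Mal.ext (EAlgAux.io_smul D r a)
      map_zero' := CPA.Mal.ext (EAlgAux.io_zero D)
      map_add' := fun a b => CPA.Mal.ext (EAlgAux.io_add D a b)
      map_mul' := fun a b => CPA.Mal.ext (EAlgAux.mulQ_io h D a b).symm }
  refine ⟨A, i, fun a ha y z => ?_⟩
  have h1 : EAlgAux.io D a = 0 := congrArg CPA.Mal.e ha
  unfold EAlgAux.io at h1
  rw [Submodule.mkQ_apply, Submodule.Quotient.mk_eq_zero, EAlgAux.mem_N_iff] at h1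
  have h2 := h1 y z
  rw [EAlgAux.Jn_single, one_smul] at h2
  exact congrArg Subtype.val h2

end Pool.Agent.MalP
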