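import Pool.Agent.MalP.TSMal

/-! # `B ⊕ B*` belongs to the variety -/

set_option autoImplicit false
set_option linter.unusedSectionVars false

namespace Pool.Agent.MalP

universe u v

variable {F : Type u} [Field F] [C23 F] {B : Type u} [NonUnitalNonAssocRing B] [Module F B]
  [IsScalarTower F B B] [SMulCommClass F B B]

namespace TSVAux

open TS

/-- the projection to the dual -/
noncomputable def D (x : TS F B) : TS F B := inl x.l

omit [C23 F] in
theorem D_add (x y : TS F B) : D (x + y) = D x + D y := by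
  unfold D inl
  ext v
  · simp
  · rfl

omit [C23 F] in
theorem D_zero : D (0 : TS F B) = 0 := by
  unfold D inl
  ext v
  · rfl
  · rfl

/-- `D` as a homomorphism of groups -/
noncomputable def Dh : TS F B →+ TS F B where
  toFun := D
  map_zero' := D_zero
  map_add' := D_add

omit [C23 F] in
theorem Dh_apply (x : TS F B) : Dh x = inl x.l := rfl

omit [C23 F] in
theorem Dh_mul (x y : TS F B) : Dh (x * y) = Dh x * y + x * Dh y := by
  rw [Dh_apply, Dh_apply, Dh_apply]
  ext v
  · simp [inl]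
  · simp only [inl, mul_l_apply, add_l, LinearMap.add_apply, mul_zero, map_zero, neg_zero, add_zero,
      zero_add]

omit [C23 F] in
theorem Dh_Jac (x y z : TS F B) :
    Dh (Jac x y z) = Jac (Dh x) y z + Jac x (Dh y) z + Jac x y (Dh z) := by
  unfold Jac
  simp only [map_add, Dh_mul, add_mul, mul_add]
  abel

omit [C23 F] in
theorem Jac_add1 {A : Type*} [NonUnitalNonAssocRing A] (x x' y z : A) :
    Jac (x + x') y z = Jac x y z + Jac x' y z := by
  unfold Jac
  simp only [add_mul, mul_add]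
  abel

omit [C23 F] in
theorem Dh_P108 (a b c d x : TS F B) :
    Dh (P108 a b c d x) = P108 (Dh a) b c d x + P108 a (Dh b) c d x + P108 a b (Dh c) d x +
      P108 a b c (Dh d) x + P108 a b c d (Dh x) := by
  unfold P108
  simp only [map_add, map_sub, map_nsmul, Dh_mul, Dh_Jac, Jac_add1, add_mul, mul_add]
  abel

omit [C23 F] in
theorem sub_b' (x y : TS F B) : (x - y).b = x.b - y.b := by
  rw [sub_eq_add_neg, add_b, neg_b, sub_eq_add_neg]

omit [C23 F] in
theorem sub_l' (x y : TS F B) : (x - y).l = x.l - y.l := by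
  rw [sub_eq_add_neg, add_l, neg_l, sub_eq_add_neg]

omit [C23 F] in
theorem nsmul_b' (n : ℕ) (x : TS F B) : (n • x).b = n • x.b := by
  induction n with
  | zero => rw [zero_smul, zero_smul]; rfl
  | succ n ih => rw [succ_nsmul, succ_nsmul, add_b, ih]

omit [C23 F] in
theorem nsmul_l' (n : ℕ) (x : TS F B) : (n • x).l = n • x.l := by
  induction n with
  | zero => rw [zero_smul, zero_smul]; rfl
  | succ n ih => rw [succ_nsmul, succ_nsmul, add_l, ih]

/-- products with elements of the dual depend only on the first components -/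
theorem mul_congr_left {u x y : TS F B} (hu : u.b = 0) (h : x.b = y.b) : u * x = u * y := by
  ext v
  · rw [mul_b, mul_b, hu, zero_mul, zero_mul]
  · rw [mul_l_apply, mul_l_apply, hu, h, mul_zero, map_zero, map_zero]

theorem mul_congr_right {u x y : TS F B} (hu : u.b = 0) (h : x.b = y.b) : x * u = y * u := by
  ext v
  · rw [mul_b, mul_b, hu, mul_zero, mul_zero]
  · rw [mul_l_apply, mul_l_apply, hu, h, mul_zero, map_zero, map_zero]

theorem Jac_Z {u : TS F B} (hu : u.b = 0) (y z : TS F B) :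
    (Jac u y z).b = 0 ∧ (Jac y u z).b = 0 ∧ (Jac y z u).b = 0 := by
  rw [Jac_b, Jac_b, Jac_b, hu]
  unfold Jac
  simp only [mul_zero, zero_mul, add_zero, and_self]

theorem Jac_congr1 {u y y' z z' : TS F B} (hu : u.b = 0) (hy : y.b = y'.b) (hz : z.b = z'.b) :
    Jac u y z = Jac u y' z' := by
  unfold Jac
  have h1 : u * y = u * y' := mul_congr_left hu hy
  have h2 : (u * y').b = 0 := by rw [mul_b, hu, zero_mul]
  have h3 : u * y' * z = u * y' * z' := mul_congr_left h2 hz
  have h4 : y * z * u = y' * z' * u := mul_congr_right hu (by rw [mul_b, mul_b, hy, hz])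
  have h5 : z * u = z' * u := mul_congr_right hu hz
  have h6 : (z' * u).b = 0 := by rw [mul_b, hu, mul_zero]
  have h7 : z' * u * y = z' * u * y' := mul_congr_left h6 hy
  rw [h1, h3, h4, h5, h7]

theorem Jac_congr2 {u y y' z z' : TS F B} (hu : u.b = 0) (hy : y.b = y'.b) (hz : z.b = z'.b) :
    Jac y u z = Jac y' u z' := by
  rw [← Jac_cyc, ← Jac_cyc y' u z']
  exact Jac_congr1 hu hz hy

theorem Jac_congr3 {u y y' z z' : TS F B} (hu : u.b = 0) (hy : y.b = y'.b) (hz : z.b = z'.b) :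
    Jac y z u = Jac y' z' u := by
  rw [Jac_cyc u y z, Jac_cyc u y' z']
  exact Jac_congr1 hu hy hz

theorem P_la {u b c d x b' c' d' x' : TS F B} (hu : u.b = 0) (hb : b.b = b'.b) (hc : c.b = c'.b)
    (hd : d.b = d'.b) (hx : x.b = x'.b) :
    P108 u b c d x = P108 u b' c' d' x' := by
  have e1 : Jac x u b = Jac x' u b' := Jac_congr2 hu hx hb
  have e2 : Jac x u c = Jac x' u c' := Jac_congr2 hu hx hc
  have e3 : Jac x u d = Jac x' u d' := Jac_congr2 hu hx hd
  have z1 : (Jac x' u b').b = 0 := (Jac_Z hu _ _).2.1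
  have z2 : (Jac x' u c').b = 0 := (Jac_Z hu _ _).2.1
  have z3 : (Jac x' u d').b = 0 := (Jac_Z hu _ _).2.1
  have f1 : Jac u b c = Jac u b' c' := Jac_congr1 hu hb hc
  have f2 : Jac u b d = Jac u b' d' := Jac_congr1 hu hb hd
  have f3 : Jac u c d = Jac u c' d' := Jac_congr1 hu hc hd
  have g1 : (Jac u b' c').b = 0 := (Jac_Z hu _ _).1
  have g2 : (Jac u b' d').b = 0 := (Jac_Z hu _ _).1
  have g3 : (Jac u c' d').b = 0 := (Jac_Z hu _ _).1
  have k1 : (Jac x c d).b = (Jac x' c' d').b := by rw [Jac_b, Jac_b, hx, hc, hd]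
  have k2 : (Jac x b d).b = (Jac x' b' d').b := by rw [Jac_b, Jac_b, hx, hb, hd]
  have k3 : (Jac x b c).b = (Jac x' b' c').b := by rw [Jac_b, Jac_b, hx, hb, hc]
  have k4 : (Jac b c d).b = (Jac b' c' d').b := by rw [Jac_b, Jac_b, hb, hc, hd]
  have m1 : x * Jac u b' c' = x' * Jac u b' c' := mul_congr_right g1 hx
  have m2 : x * Jac u b' d' = x' * Jac u b' d' := mul_congr_right g2 hx
  have m3 : x * Jac u c' d' = x' * Jac u c' d' := mul_congr_right g3 hx
  have n1 : (x' * Jac u b' c').b = 0 := by rw [mul_b, g1, mul_zero]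
  have n2 : (x' * Jac u b' d').b = 0 := by rw [mul_b, g2, mul_zero]
  have n3 : (x' * Jac u c' d').b = 0 := by rw [mul_b, g3, mul_zero]
  have q1 : x * u = x' * u := mul_congr_right hu hx
  have q2 : (x' * u).b = 0 := by rw [mul_b, hu, mul_zero]
  unfold P108
  rw [e1, e2, e3, f1, f2, f3, m1, m2, m3, q1, Jac_congr1 z1 hc hd, Jac_congr1 z2 hb hd,
    Jac_congr1 z3 hb hc, Jac_congr2 hu k1 hb, Jac_congr2 hu k2 hc, Jac_congr2 hu k3 hd,
    mul_congr_left n1 hd, mul_congr_left n2 hc, mul_congr_left n3 hb,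
    mul_congr_right g1 (show (x * d).b = (x' * d').b by rw [mul_b, mul_b, hx, hd]),
    mul_congr_right g2 (show (x * c).b = (x' * c').b by rw [mul_b, mul_b, hx, hc]),
    mul_congr_right g3 (show (x * b).b = (x' * b').b by rw [mul_b, mul_b, hx, hb]),
    mul_congr_left q2 k4,
    mul_congr_right hu (show (x * Jac b c d).b = (x' * Jac b' c' d').b by
      rw [mul_b, mul_b, hx, k4])]

theorem P_lx {u a b c d a' b' c' d' : TS F B} (hu : u.b = 0) (ha : a.b = a'.b) (hb : b.b = b'.b)
    (hc : c.b = c'.b) (hd : d.b = d'.b) :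
    P108 a b c d u = P108 a' b' c' d' u := by
  have J1 : ∀ {y y' z z' : TS F B}, y.b = y'.b → z.b = z'.b → Jac u y z = Jac u y' z' :=
    fun h1 h2 => Jac_congr1 hu h1 h2
  have J2 : ∀ {y y' z z' p p' q q' : TS F B}, y.b = y'.b → z.b = z'.b → p.b = p'.b → q.b = q'.b →
      Jac (Jac u y z) p q = Jac (Jac u y' z') p' q' := by
    intro y y' z z' p p' q q' h1 h2 h3 h4
    rw [J1 h1 h2]
    exact Jac_congr1 (Jac_Z hu _ _).1 h3 h4
  have J3 : ∀ {y y' z z' p p' q q' : TS F B}, y.b = y'.b → z.b = z'.b → p.b = p'.b → q.b = q'.b →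
      u * Jac y z p * q = u * Jac y' z' p' * q' := by
    intro y y' z z' p p' q q' h1 h2 h3 h4
    rw [mul_congr_left hu (show (Jac y z p).b = (Jac y' z' p').b by rw [Jac_b, Jac_b, h1, h2, h3])]
    exact mul_congr_left (by rw [mul_b, hu, zero_mul]) h4
  have J4 : ∀ {y y' z z' p p' q q' : TS F B}, y.b = y'.b → z.b = z'.b → p.b = p'.b → q.b = q'.b →
      u * q * Jac y z p = u * q' * Jac y' z' p' := by
    intro y y' z z' p p' q q' h1 h2 h3 h4
    rw [mul_congr_left hu h4]
    exact mul_congr_left (by rw [mul_b, hu, zero_mul]) (by rw [Jac_b, Jac_b, h1, h2, h3])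
  unfold P108
  rw [J2 ha hb hc hd, J2 hc hd ha hb, J2 ha hc hb hd, J2 hb hd ha hc, J2 ha hd hb hc,
    J2 hb hc ha hd, J3 ha hb hc hd, J4 ha hb hc hd, J3 ha hb hd hc, J4 ha hb hd hc,
    J3 ha hc hd hb, J4 ha hc hd hb, J3 hb hc hd ha, J4 hb hc hd ha]

/-- the defect -/
def Dl {A : Type*} [NonUnitalNonAssocRing A] (a b c d v z : A) : A :=
  P108 a b c d (v * z) - P108 a b c d v * z

theorem inl_b (l : B →ₗ[F] F) : (inl l : TS F B).b = 0 := rfl
theorem inl_l (l : B →ₗ[F] F) : (inl l : TS F B).l = l := rfl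
theorem inb_b (b : B) : (inb F b : TS F B).b = b := rfl
theorem inb_l (b : B) : (inb F b : TS F B).l = 0 := rfl

theorem Dl_b (h : IsV B) (a b c d v z : TS F B) : (Dl a b c d v z).b = 0 := by
  unfold Dl
  rw [sub_b', mul_b, P108_b, P108_b, mul_b, h.f6, sub_self]

include F in
theorem P_zero_a (b c d x : B) : P108 0 b c d x = 0 := by
  obtain ⟨f, hf⟩ := P108_lin_a F b c d x
  rw [← hf, map_zero]

include F in
theorem P_zero_x (a b c d : B) : P108 a b c d 0 = 0 := by
  obtain ⟨f, hf⟩ := P108_lin_x F a b c d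
  rw [← hf, map_zero]

include F in
theorem P_neg_x (a b c d x : B) : P108 a b c d (-x) = -P108 a b c d x := by
  obtain ⟨f, hf⟩ := P108_lin_x F a b c d
  rw [← hf, ← hf, map_neg]

theorem slot_a (h : IsV B) (l : B →ₗ[F] F) (b c d v z : TS F B) : Dl (inl l) b c d v z = 0 := by
  have hM := h.toIsMalcev
  ext w
  · rw [Dl_b h]
    rfl
  · unfold Dl
    rw [P_la (inl_b l) (inb_b b.b).symm (inb_b c.b).symm (inb_b d.b).symm (inb_b (v * z).b).symm,
      P_la (x := v) (inl_b l) (inb_b b.b).symm (inb_b c.b).symm (inb_b d.b).symm (inb_b v.b).symm]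
    rw [sub_l', LinearMap.sub_apply, mul_l_apply, P108_l_a hM, P108_l_a hM, P108_b, mul_b]
    have h1 := F5 F h b.b c.b d.b v.b w z.b
    have h2 : T108 (v.b * z.b) w b.b c.b d.b + T108 v.b (w * z.b) b.b c.b d.b = 0 := by
      rw [F8b F hM, F8b F hM, ← neg_add, h1, neg_zero]
    rw [inb_b, inb_b, inb_b, inl_b, P_zero_a (F := F), mul_zero, map_zero, add_zero,
      sub_neg_eq_add, ← map_add, h2, map_zero]
    rfl

theorem slot_b (h : IsV B) (l : B →ₗ[F] F) (a c d v z : TS F B) : Dl a (inl l) c d v z = 0 := by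
  have hM := TS.isMalcev (F := F) h.toIsMalcev
  have h1 := slot_a h l a c d v z
  unfold Dl at h1 ⊢
  rw [hM.P12 (inl l) a c d (v * z), hM.P12 (inl l) a c d v, neg_mul, sub_neg_eq_add, neg_add_eq_sub,
    ← neg_sub, h1, neg_zero]

theorem slot_c (h : IsV B) (l : B →ₗ[F] F) (a b d v z : TS F B) : Dl a b (inl l) d v z = 0 := by
  have hM := TS.isMalcev (F := F) h.toIsMalcev
  have h1 := slot_b h l a b d v z
  unfold Dl at h1 ⊢
  rw [hM.P23 a (inl l) b d (v * z), hM.P23 a (inl l) b d v, neg_mul, sub_neg_eq_add, neg_add_eq_sub,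
    ← neg_sub, h1, neg_zero]

theorem slot_d (h : IsV B) (l : B →ₗ[F] F) (a b c v z : TS F B) : Dl a b c (inl l) v z = 0 := by
  have hM := TS.isMalcev (F := F) h.toIsMalcev
  have h1 := slot_c h l a b c v z
  unfold Dl at h1 ⊢
  rw [hM.P34 a b (inl l) c (v * z), hM.P34 a b (inl l) c v, neg_mul, sub_neg_eq_add, neg_add_eq_sub,
    ← neg_sub, h1, neg_zero]

theorem eq_inl {u : TS F B} (hu : u.b = 0) : u = inl u.l := by
  ext w
  · exact hu
  · rfl

/-- the value on the dual -/
theorem P_last (h : IsMalcev B) (a b c d u : TS F B) (hu : u.b = 0) (w : B) :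
    (P108 a b c d u).l w = u.l (P108 a.b b.b c.b d.b w) := by
  rw [P_lx hu (inb_b a.b).symm (inb_b b.b).symm (inb_b c.b).symm (inb_b d.b).symm, eq_inl hu,
    P108_l_x h, inl_l]

theorem slot_v (h : IsV B) (l : B →ₗ[F] F) (a b c d z : TS F B) : Dl a b c d (inl l) z = 0 := by
  have hM := h.toIsMalcev
  ext w
  · rw [Dl_b h]
    rfl
  · unfold Dl
    rw [sub_l', LinearMap.sub_apply, mul_l_apply, P_last hM _ _ _ _ _ (inl_b l),
      P_last hM _ _ _ _ _ (by rw [mul_b, inl_b, zero_mul]), mul_l_apply, inl_l, P108_b, inl_b,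
      P_zero_x (F := F), mul_zero, map_zero, h.f6, mul_zero, map_zero, add_zero, sub_self]
    rfl

theorem slot_z (h : IsV B) (l : B →ₗ[F] F) (a b c d v : TS F B) : Dl a b c d v (inl l) = 0 := by
  have hM := h.toIsMalcev
  ext w
  · rw [Dl_b h]
    rfl
  · unfold Dl
    rw [sub_l', LinearMap.sub_apply, mul_l_apply,
      P_last hM _ _ _ _ _ (by rw [mul_b, inl_b, mul_zero]), mul_l_apply, inl_l, P108_b, inl_b,
      mul_zero, map_zero, ← h.f6, hM.anti w v.b, P_neg_x (F := F), h.f6,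
      hM.anti (P108 a.b b.b c.b d.b v.b) w, neg_neg, mul_zero, map_zero, neg_zero, zero_add, sub_self]
    rfl

end TSVAux

open TSVAux in
theorem TS.isV (h : IsV B) : IsV (TS F B) := by
  refine { TS.isMalcev h.toIsMalcev with f6 := ?_ }
  intro a b c d v z
  rw [← sub_eq_zero]
  change Dl a b c d v z = 0
  ext w
  · rw [Dl_b h]
    rfl
  · have h1 : Dh (Dl a b c d v z) = Dl (Dh a) b c d v z + Dl a (Dh b) c d v z +
        Dl a b (Dh c) d v z + Dl a b c (Dh d) v z + Dl a b c d (Dh v) z + Dl a b c d v (Dh z) := by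
      unfold Dl
      obtain ⟨f, hf⟩ := P108_lin_x F a b c d
      rw [map_sub, Dh_P108, Dh_mul, Dh_mul, Dh_P108, ← hf (Dh v * z + v * Dh z), map_add, hf, hf]
      simp only [add_mul]
      abel
    rw [Dh_apply, Dh_apply, Dh_apply, Dh_apply, Dh_apply, Dh_apply, Dh_apply, slot_a h, slot_b h,
      slot_c h, slot_d h, slot_v h, slot_z h] at h1
    simp only [add_zero] at h1
    have h2 := congrArg TS.l h1
    rw [inl_l] at h2
    rw [h2]

end Pool.Agent.MalP
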