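import Pool.Agent.MalP.SigDef

/-! # The ring generated by the operators sigma, formal combinations -/

set_option autoImplicit false

namespace Pool.Agent.MalP

universe u v

variable {F : Type u} [Field F] {B : Type u} [NonUnitalNonAssocRing B] [Module F B]
  [IsScalarTower F B B] [SMulCommClass F B B]

namespace SigData

variable (D : SigData F B)

/-- the generators of the scalars -/
def gens : Set (Module.End F (JA F B)) := {T | ∃ x y, T = D.σ x y}

/-- the ring of the scalars -/
abbrev SS : Type u := Algebra.adjoin F D.gens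

noncomputable instance commSS : CommRing D.SS :=
  Algebra.adjoinCommRingOfComm F (by
    rintro _ ⟨x, y, rfl⟩ _ ⟨z, t, rfl⟩
    exact D.comm x y z t)

/-- sigma as an element of the ring of the scalars -/
noncomputable def sg (x y : B) : D.SS := ⟨D.σ x y, Algebra.subset_adjoin ⟨x, y, rfl⟩⟩

theorem smul_def (s : D.SS) (j : JA F B) : s • j = (s : Module.End F (JA F B)) j := rfl

/-- a Jacobian as an element of `JA` -/
def jac (a b c : B) : JA F B := ⟨Jac a b c, Jac_mem_JA a b c⟩

/-- formal combinations -/
abbrev E0 : Type u := B →₀ D.SS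

/-- the Jacobians of a formal combination -/
noncomputable def Jn : D.E0 →ₗ[D.SS] (B → B → JA F B) :=
  Finsupp.linearCombination D.SS fun a y z => (jac a y z : JA F B)

/-- the product of formal combinations -/
noncomputable def mul0 : D.E0 →ₗ[D.SS] D.E0 →ₗ[D.SS] D.E0 :=
  Finsupp.linearCombination D.SS fun a => Finsupp.linearCombination D.SS fun b =>
    (Finsupp.single (a * b) 1 : D.E0)

/-- the form on formal combinations -/
noncomputable def s0 : D.E0 →ₗ[D.SS] D.E0 →ₗ[D.SS] D.SS :=
  Finsupp.linearCombination D.SS fun a => Finsupp.linearCombination D.SS fun b => D.sg a b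

/-- the kernel -/
noncomputable def N : Submodule D.SS D.E0 := LinearMap.ker D.Jn

variable [C23 F]

/-- the scalars commute with the right multiplications on `JA` -/
theorem smul_mul (h : IsV B) (s : D.SS) (j : JA F B) (z : B) :
    ((s • (⟨(j : B) * z, (mul_mem_JA h.toIsMalcev j.2 z).1⟩ : JA F B) : JA F B) : B) =
      ((s • j : JA F B) : B) * z := by
  obtain ⟨T, hT⟩ := s
  have key : ∀ (T : Module.End F (JA F B)), T ∈ Algebra.adjoin F D.gens → ∀ j : JA F B,
      ((T (⟨(j : B) * z, (mul_mem_JA h.toIsMalcev j.2 z).1⟩ : JA F B) : JA F B) : B) =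
      ((T j : JA F B) : B) * z := by
    intro T hT
    induction hT using Algebra.adjoin_induction with
    | mem T hT =>
      obtain ⟨x, y, rfl⟩ := hT
      intro j
      exact D.R x y z j _ rfl
    | algebraMap r =>
      intro j
      rw [Module.algebraMap_end_apply, Module.algebraMap_end_apply]
      show r • ((j : B) * z) = (r • (j : B)) * z
      rw [smul_mul_assoc]
    | add T S _ _ hT hS =>
      intro j
      rw [LinearMap.add_apply, LinearMap.add_apply]
      show ((T _ : JA F B) : B) + ((S _ : JA F B) : B) = (((T j : JA F B) : B) + (S j : JA F B)) * z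
      rw [hT, hS, add_mul]
    | mul T S _ _ hT hS =>
      intro j
      rw [Module.End.mul_apply, Module.End.mul_apply]
      rw [← hT (S j)]
      congr 3
      exact Subtype.ext (hS j)
  exact key T hT j

end SigData

namespace EDefAux

variable {D : SigData F B} [C23 F]

open SigData

/-- the combination of the values of `φ` is zero -/
def Z (n : D.E0) (φ : B → B) : Prop :=
  ∃ ψ : B → JA F B, (∀ a, (ψ a : B) = φ a) ∧ Finsupp.linearCombination D.SS ψ n = 0

omit [C23 F] in
theorem Z.ext {n : D.E0} {φ φ' : B → B} (h : Z n φ) (e : ∀ a, φ' a = φ a) : Z n φ' := by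
  have : φ' = φ := funext e
  rw [this]; exact h

omit [C23 F] in
theorem Z.eq {n : D.E0} {φ : B → B} (h : Z n φ) (ψ : B → JA F B) (e : ∀ a, (ψ a : B) = φ a) :
    Finsupp.linearCombination D.SS ψ n = 0 := by
  obtain ⟨ψ', h1, h2⟩ := h
  have : ψ = ψ' := funext fun a => Subtype.ext (by rw [e, h1])
  rw [this]; exact h2

omit [C23 F] in
theorem lc_add (n : D.E0) (φ ψ : B → JA F B) :
    Finsupp.linearCombination D.SS (fun a => φ a + ψ a) n =
      Finsupp.linearCombination D.SS φ n + Finsupp.linearCombination D.SS ψ n := by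
  simp only [Finsupp.linearCombination_apply, Finsupp.sum, smul_add, Finset.sum_add_distrib]

omit [C23 F] in
theorem lc_map (n : D.E0) (φ : B → JA F B) (f : JA F B →ₗ[D.SS] JA F B) :
    Finsupp.linearCombination D.SS (fun a => f (φ a)) n =
      f (Finsupp.linearCombination D.SS φ n) := by
  simp only [Finsupp.linearCombination_apply, Finsupp.sum, map_sum, map_smul]

omit [C23 F] in
theorem lc_smul (n : D.E0) (φ : B → JA F B) (c : F) :
    Finsupp.linearCombination D.SS (fun a => c • φ a) n =
      c • Finsupp.linearCombination D.SS φ n := by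
  simp only [Finsupp.linearCombination_apply, Finsupp.sum, Finset.smul_sum]
  refine Finset.sum_congr rfl fun a _ => ?_
  rw [D.smul_def, D.smul_def, map_smul]

omit [C23 F] in
theorem Z.add {n : D.E0} {φ φ' : B → B} (h : Z n φ) (h' : Z n φ') :
    Z n (fun a => φ a + φ' a) := by
  obtain ⟨ψ, h1, h2⟩ := h
  obtain ⟨ψ', h1', h2'⟩ := h'
  refine ⟨fun a => ψ a + ψ' a, fun a => ?_, ?_⟩
  · beta_reduce
    rw [← h1, ← h1']; rfl
  · rw [lc_add, h2, h2', add_zero]

omit [C23 F] in
theorem Z.smul {n : D.E0} {φ : B → B} (h : Z n φ) (c : F) : Z n (fun a => c • φ a) := by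
  obtain ⟨ψ, h1, h2⟩ := h
  refine ⟨fun a => c • ψ a, fun a => ?_, ?_⟩
  · beta_reduce
    rw [← h1]; rfl
  · rw [lc_smul, h2, smul_zero]

omit [C23 F] in
theorem Z.neg {n : D.E0} {φ : B → B} (h : Z n φ) : Z n (fun a => - φ a) :=
  (h.smul (-1)).ext fun a => by rw [neg_one_smul]

omit [C23 F] in
theorem Z.sub {n : D.E0} {φ φ' : B → B} (h : Z n φ) (h' : Z n φ') :
    Z n (fun a => φ a - φ' a) :=
  (h.add h'.neg).ext fun a => by rw [sub_eq_add_neg]

omit [C23 F] in
theorem Z.nsmul {n : D.E0} {φ : B → B} (h : Z n φ) (k : ℕ) : Z n (fun a => k • φ a) :=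
  (h.smul (k : F)).ext fun a => by rw [Nat.cast_smul_eq_nsmul]

theorem Z.div {n : D.E0} {φ : B → B} (k : ℕ) (hk : (k : F) ≠ 0) (h : Z n (fun a => k • φ a)) :
    Z n φ :=
  (h.smul (k : F)⁻¹).ext fun a => by
    rw [← Nat.cast_smul_eq_nsmul F, smul_smul, inv_mul_cancel₀ hk, one_smul]

/-- right multiplication as a map linear over the scalars -/
noncomputable def Rl (D : SigData F B) (h : IsV B) (z : B) : JA F B →ₗ[D.SS] JA F B where
  toFun j := ⟨(j : B) * z, (mul_mem_JA h.toIsMalcev j.2 z).1⟩
  map_add' i j := Subtype.ext (add_mul _ _ _)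
  map_smul' s j := Subtype.ext (D.smul_mul h s j z).symm

theorem Z.mulR {n : D.E0} {φ : B → B} (h : Z n φ) (hV : IsV B) (z : B) :
    Z n (fun a => φ a * z) := by
  obtain ⟨ψ, h1, h2⟩ := h
  refine ⟨fun a => Rl D hV z (ψ a), fun a => ?_, ?_⟩
  · beta_reduce
    rw [← h1]; rfl
  · rw [lc_map, h2, map_zero]

theorem Z.mulL {n : D.E0} {φ : B → B} (h : Z n φ) (hV : IsV B) (z : B) :
    Z n (fun a => z * φ a) :=
  (h.mulR hV z).neg.ext fun a => hV.toIsMalcev.anti _ _

theorem Z.jac {n : D.E0} {φ : B → B} (h : Z n φ) (hV : IsV B) (x y : B) :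
    Z n (fun a => Jac (φ a) x y) :=
  ((((h.mulR hV x).mulR hV y).add (h.mulL hV (x * y))).add ((h.mulL hV y).mulR hV x)).ext
    fun a => rfl

omit [C23 F] in
theorem Jn_apply (n : D.E0) (y z : B) :
    D.Jn n y z = Finsupp.linearCombination D.SS (fun a => (SigData.jac a y z : JA F B)) n := by
  unfold SigData.Jn
  simp only [Finsupp.linearCombination_apply, Finsupp.sum, Finset.sum_apply, Pi.smul_apply]

omit [C23 F] in
theorem mem_N {n : D.E0} : n ∈ D.N ↔ ∀ y z : B, Z n (fun a => Jac a y z) := by
  unfold SigData.N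
  rw [LinearMap.mem_ker]
  constructor
  · intro h y z
    refine ⟨fun a => SigData.jac a y z, fun a => rfl, ?_⟩
    rw [← Jn_apply, h]
    rfl
  · intro h
    funext y z
    rw [Jn_apply]
    exact (h y z).eq _ fun a => rfl

theorem Z_jac_mul {n : D.E0} (hV : IsV B) (hn : n ∈ D.N) (z w x : B) :
    Z n (fun a => Jac z w x * a) := by
  have hN := mem_N.1 hn
  apply Z.div 2 (by exact_mod_cast C23.two (F := F))
  have e : Z n (fun a => Jac a z x * w - Jac a z w * x + 2 • (Jac a w x * z) -
      3 • Jac a z (w * x)) :=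
    (((((hN z x).mulR hV w).sub ((hN z w).mulR hV x)).add
      (((hN w x).mulR hV z).nsmul 2)).sub ((hN z (w * x)).nsmul 3))
  refine e.ext fun a => ?_
  have s := sagle (F := F) hV.toIsMalcev w x a z
  rw [← Jac_cyc x a z, Jac_cyc a w x, ← Jac_cyc (w * x) a z] at s
  rw [s]
  abel

theorem Z_mul {n : D.E0} (hV : IsV B) (hn : n ∈ D.N) {j : B} (hj : j ∈ JA F B) :
    Z n (fun a => j * a) := by
  unfold JA at hj
  induction hj using Submodule.span_induction with
  | mem x hx =>
    obtain ⟨p, q, r, rfl⟩ := hx
    exact Z_jac_mul hV hn p q r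
  | zero =>
    refine ⟨fun _ => 0, fun a => ?_, ?_⟩
    · beta_reduce
      rw [zero_mul]; rfl
    · simp only [Finsupp.linearCombination_apply, Finsupp.sum, smul_zero, Finset.sum_const_zero]
  | add x y _ _ hx hy => exact (hx.add hy).ext fun a => by rw [add_mul]
  | smul c x _ hx => exact (hx.smul c).ext fun a => by rw [smul_mul_assoc]

theorem Z_jac_ab {n : D.E0} (hV : IsV B) (hn : n ∈ D.N) (b y z : B) :
    Z n (fun a => Jac (a * b) y z) := by
  have hN := mem_N.1 hn
  apply Z.div 3 (by exact_mod_cast C23.three (F := F))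
  have e : Z n (fun a => Jac b y z * a - Jac a y z * b - 2 • (-(Jac a z b) * y) +
      2 • (Jac a b y * z)) :=
    ((((Z_mul hV hn (Jac_mem_JA b y z)).sub ((hN y z).mulR hV b)).sub
      ((((hN z b).neg).mulR hV y).nsmul 2)).add (((hN b y).mulR hV z).nsmul 2))
  refine e.ext fun a => ?_
  have s := sagle (F := F) hV.toIsMalcev a b y z
  rw [s, Jac_cyc a y z, hV.toIsMalcev.Jac12 a z b]

theorem Z_mul_ab {n : D.E0} (hV : IsV B) (hn : n ∈ D.N) {j : B} (hj : j ∈ JA F B) (b : B) :
    Z n (fun a => j * (a * b)) := by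
  have hN := mem_N.1 hn
  have e : Z n (fun a => (j * a) * b - (j * b) * a - Jac a b j) :=
    ((((Z_mul hV hn hj).mulR hV b).sub (Z_mul hV hn (mul_mem_JA hV.toIsMalcev hj b).1)).sub
      (hN b j))
  refine e.ext fun a => ?_
  rw [Jac_cyc j a b]
  unfold Jac
  rw [hV.toIsMalcev.anti (a * b) j, hV.toIsMalcev.anti b j, neg_mul]
  abel

theorem Z_sigma {n : D.E0} (hV : IsV B) (hn : n ∈ D.N) (b p q r : B) :
    Z n (fun a => ((D.σ a b (SigData.jac p q r) : JA F B) : B)) := by
  have hN := mem_N.1 hn
  have hM := hV.toIsMalcev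
  apply Z.div 36 (by exact_mod_cast C23.n36 F)
  have hj : Jac p q r ∈ JA F B := Jac_mem_JA p q r
  have hjb : Jac p q r * b ∈ JA F B := (mul_mem_JA hM hj b).1
  have hbj : b * Jac p q r ∈ JA F B := (mul_mem_JA hM hj b).2
  have e : Z n (fun a => -(36 • ((Jac p q r * b) * a)) + 12 • Jac a (Jac p q r) b +
      (Jac a (Jac b p q) r + Jac (Jac a b r) p q - Jac a (Jac b p r) q - Jac (Jac a b q) p r +
        Jac (Jac a b p) q r + Jac a (Jac b q r) p -
        6 • ((b * Jac p q r) * a + Jac p q r * (a * b) -
          ((b * Jac a p q) * r + (b * r) * Jac a p q) +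
          ((b * Jac a p r) * q + (b * q) * Jac a p r) -
          ((b * Jac a q r) * p + (b * p) * Jac a q r)))) := by
    refine ((((Z_mul hV hn hjb).nsmul 36).neg).add ((hN _ _).nsmul 12)).add ?_
    refine ((((((hN _ _).add ((hN _ _).jac hV _ _)).sub (hN _ _)).sub
      ((hN _ _).jac hV _ _)).add ((hN _ _).jac hV _ _)).add (hN _ _)).sub (Z.nsmul ?_ 6)
    refine (((((Z_mul hV hn hbj).add (Z_mul_ab hV hn hj b)).sub ?_).add ?_).sub ?_)
    · exact (((hN _ _).mulL hV _).mulR hV _).add ((hN _ _).mulL hV _)
    · exact (((hN _ _).mulL hV _).mulR hV _).add ((hN _ _).mulL hV _)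
    · exact (((hN _ _).mulL hV _).mulR hV _).add ((hN _ _).mulL hV _)
  refine e.ext fun a => ?_
  have f := D.formula b a (SigData.jac p q r) (fun y x => P108 p q r y x) (Gr_J p q r)
  rw [D.symm a b, f]
  show -(36 • ((Jac p q r * b) * a)) + 12 • Jac (Jac p q r) b a + P108 p q r a b = _
  rw [Jac_cyc a (Jac p q r) b]
  unfold P108
  rw [Jac_cyc a (Jac b p q) r, Jac_cyc a (Jac b p r) q, Jac_cyc a (Jac b q r) p,
    Jac_cyc a b r, Jac_cyc a b q, Jac_cyc a b p, Jac_cyc a p q, Jac_cyc a p r, Jac_cyc a q r,
    hM.anti (b * a) (Jac p q r), hM.anti b a, mul_neg, neg_neg]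

end EDefAux

namespace SigData

variable (D : SigData F B) [C23 F]

open EDefAux

/-- `J(B) n = 0` for `n` in the kernel -/
theorem N_mul (h : IsV B) {n : D.E0} (hn : n ∈ D.N) (j : JA F B) :
    n.sum (fun a s => s • (⟨(j : B) * a, (mul_mem_JA h.toIsMalcev j.2 a).1⟩ : JA F B)) = 0 := by
  have := (Z_mul h hn j.2).eq
    (fun a => (⟨(j : B) * a, (mul_mem_JA h.toIsMalcev j.2 a).1⟩ : JA F B)) fun a => rfl
  rw [Finsupp.linearCombination_apply] at this
  exact this

theorem N_idl (h : IsV B) {n : D.E0} (hn : n ∈ D.N) (e : D.E0) :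
    D.mul0 n e ∈ D.N ∧ D.mul0 e n ∈ D.N := by
  constructor
  · have key : D.Jn ∘ₗ D.mul0 n = 0 := by
      apply Finsupp.lhom_ext
      intro b s
      rw [LinearMap.comp_apply, LinearMap.zero_apply]
      funext y z
      have e1 : D.mul0 n (Finsupp.single b s) =
          s • Finsupp.linearCombination D.SS (fun a => (Finsupp.single (a * b) 1 : D.E0)) n := by
        unfold mul0
        rw [Finsupp.linearCombination_apply, Finsupp.linearCombination_apply, Finsupp.sum,
          Finsupp.sum, LinearMap.sum_apply, Finset.smul_sum]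
        refine Finset.sum_congr rfl fun a _ => ?_
        rw [LinearMap.smul_apply, Finsupp.linearCombination_single, smul_comm]
      rw [e1, map_smul, Pi.smul_apply, Pi.smul_apply]
      have e2 : D.Jn (Finsupp.linearCombination D.SS
          (fun a => (Finsupp.single (a * b) 1 : D.E0)) n) y z =
          Finsupp.linearCombination D.SS (fun a => (jac (a * b) y z : JA F B)) n := by
        rw [Finsupp.linearCombination_apply, Finsupp.linearCombination_apply, Finsupp.sum,
          Finsupp.sum, map_sum, Finset.sum_apply, Finset.sum_apply]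
        refine Finset.sum_congr rfl fun a _ => ?_
        rw [map_smul, Pi.smul_apply, Pi.smul_apply]
        unfold Jn
        rw [Finsupp.linearCombination_single, one_smul]
      rw [e2, (Z_jac_ab h hn b y z).eq _ fun a => rfl, smul_zero]
      rfl
    have := LinearMap.congr_fun key e
    exact this
  · have key : D.Jn ∘ₗ (D.mul0.flip n) = 0 := by
      apply Finsupp.lhom_ext
      intro b s
      rw [LinearMap.comp_apply, LinearMap.zero_apply, LinearMap.flip_apply]
      funext y z
      have e1 : D.mul0 (Finsupp.single b s) n =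
          s • Finsupp.linearCombination D.SS (fun a => (Finsupp.single (b * a) 1 : D.E0)) n := by
        unfold mul0
        rw [Finsupp.linearCombination_single, LinearMap.smul_apply]
      rw [e1, map_smul, Pi.smul_apply, Pi.smul_apply]
      have e2 : D.Jn (Finsupp.linearCombination D.SS
          (fun a => (Finsupp.single (b * a) 1 : D.E0)) n) y z =
          Finsupp.linearCombination D.SS (fun a => (jac (b * a) y z : JA F B)) n := by
        rw [Finsupp.linearCombination_apply, Finsupp.linearCombination_apply, Finsupp.sum,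
          Finsupp.sum, map_sum, Finset.sum_apply, Finset.sum_apply]
        refine Finset.sum_congr rfl fun a _ => ?_
        rw [map_smul, Pi.smul_apply, Pi.smul_apply]
        unfold Jn
        rw [Finsupp.linearCombination_single, one_smul]
      rw [e2, (Z_jac_ab h hn b y z).neg.eq _ fun a => ?_, smul_zero]
      · rfl
      · show Jac (b * a) y z = - Jac (a * b) y z
        rw [h.toIsMalcev.anti b a]
        unfold Jac
        simp only [neg_mul, mul_neg]
        abel
    have := LinearMap.congr_fun key e
    exact this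

theorem N_s0 (h : IsV B) {n : D.E0} (hn : n ∈ D.N) (e : D.E0) :
    D.s0 n e = 0 ∧ D.s0 e n = 0 := by
  have base : ∀ b : B, Finsupp.linearCombination D.SS (fun a => D.sg a b) n = 0 := by
    intro b
    have key : ∀ j : JA F B, (Finsupp.linearCombination D.SS (fun a => D.sg a b) n) • j = 0 := by
      rintro ⟨j, hj⟩
      have hj' := hj
      unfold JA at hj'
      induction hj' using Submodule.span_induction with
      | mem x hx =>
        obtain ⟨p, q, r, rfl⟩ := hx
        have e1 : (Finsupp.linearCombination D.SS (fun a => D.sg a b) n) •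
            (⟨Jac p q r, hj⟩ : JA F B) =
            Finsupp.linearCombination D.SS (fun a => D.σ a b (jac p q r)) n := by
          rw [Finsupp.linearCombination_apply, Finsupp.linearCombination_apply, Finsupp.sum,
            Finsupp.sum, Finset.sum_smul]
          refine Finset.sum_congr rfl fun a _ => ?_
          rw [smul_eq_mul, mul_smul]
          rfl
        rw [e1]
        exact (Z_sigma h hn b p q r).eq _ fun a => rfl
      | zero =>
        have : (⟨0, hj⟩ : JA F B) = 0 := rfl
        rw [this, smul_zero]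
      | add x y hx hy ihx ihy =>
        have : (⟨x + y, hj⟩ : JA F B) = ⟨x, hx⟩ + ⟨y, hy⟩ := rfl
        rw [this, smul_add, ihx hx, ihy hy, add_zero]
      | smul c x hx ihx =>
        have : (⟨c • x, hj⟩ : JA F B) = c • ⟨x, hx⟩ := rfl
        rw [this, D.smul_def, map_smul, ← D.smul_def, ihx hx, smul_zero]
    apply Subtype.ext
    apply LinearMap.ext
    intro j
    exact key j
  constructor
  · have key : D.s0 n = 0 := by
      apply Finsupp.lhom_ext
      intro b s
      unfold s0
      rw [Finsupp.linearCombination_apply, Finsupp.sum, LinearMap.sum_apply, LinearMap.zero_apply]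
      have : ∀ a ∈ n.support, ((n a) • Finsupp.linearCombination D.SS
          (fun b => D.sg a b)) (Finsupp.single b s) = s • (n a • D.sg a b) := by
        intro a _
        rw [LinearMap.smul_apply, Finsupp.linearCombination_single, smul_comm]
      rw [Finset.sum_congr rfl this, ← Finset.smul_sum]
      have b0 := base b
      rw [Finsupp.linearCombination_apply, Finsupp.sum] at b0
      rw [b0, smul_zero]
    rw [key, LinearMap.zero_apply]
  · have key : D.s0.flip n = 0 := by
      apply Finsupp.lhom_ext
      intro b s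
      rw [LinearMap.flip_apply, LinearMap.zero_apply]
      unfold s0
      rw [Finsupp.linearCombination_single, LinearMap.smul_apply]
      have b0 := base b
      have : (fun a => D.sg b a) = fun a => D.sg a b := by
        funext a
        unfold sg
        congr 1
        exact D.symm b a
      rw [this, b0, smul_zero]
    have := LinearMap.congr_fun key e
    exact this

end SigData

end Pool.Agent.MalP
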