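import Pool.Agent.MalP.BDefs
import Pool.Agent.MalP.Place
import Pool.Agent.MalP.Super4
import Pool.Agent.MalP.BaseEx

/-! # Expansions of `ee` as partial alternations -/

set_option autoImplicit false

namespace Pool.Agent.MalP

universe u v

open Finset Equiv

section

variable {A : Type v} [NonUnitalNonAssocRing A]

/-- one placed argument -/
def pe1B (b : A) (t : Fin 4 → A) (y : A) : A :=
  pe ![b, t 0, t 1, t 2, t 3] y - pe ![t 0, b, t 1, t 2, t 3] y + pe ![t 0, t 1, b, t 2, t 3] y -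
    pe ![t 0, t 1, t 2, b, t 3] y + pe ![t 0, t 1, t 2, t 3, b] y

/-- two placed arguments -/
def pe2B (b c : A) (t : Fin 3 → A) (y : A) : A :=
  pe1B b ![c, t 0, t 1, t 2] y - pe1B b ![t 0, c, t 1, t 2] y + pe1B b ![t 0, t 1, c, t 2] y -
    pe1B b ![t 0, t 1, t 2, c] y

/-- three placed arguments -/
def pe3B (b c d : A) (t : Fin 2 → A) (y : A) : A :=
  pe2B b c ![d, t 0, t 1] y - pe2B b c ![t 0, d, t 1] y + pe2B b c ![t 0, t 1, d] y

theorem ins5 (b : A) (t : Fin 4 → A) (g : (Fin 5 → A) → A) :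
    ∑ i : Fin 5, (-1 : ℤˣ) ^ (i : ℕ) • g (i.insertNth b t) =
    g ![b, t 0, t 1, t 2, t 3] - g ![t 0, b, t 1, t 2, t 3] + g ![t 0, t 1, b, t 2, t 3] -
    g ![t 0, t 1, t 2, b, t 3] + g ![t 0, t 1, t 2, t 3, b] := by
  rw [Fin.sum_univ_five]
  have e0 : (0 : Fin 5).insertNth b t = ![b, t 0, t 1, t 2, t 3] := by
    funext j; fin_cases j <;> rfl
  have e1 : (1 : Fin 5).insertNth b t = ![t 0, b, t 1, t 2, t 3] := by
    funext j; fin_cases j <;> rfl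
  have e2 : (2 : Fin 5).insertNth b t = ![t 0, t 1, b, t 2, t 3] := by
    funext j; fin_cases j <;> rfl
  have e3 : (3 : Fin 5).insertNth b t = ![t 0, t 1, t 2, b, t 3] := by
    funext j; fin_cases j <;> rfl
  have e4 : (4 : Fin 5).insertNth b t = ![t 0, t 1, t 2, t 3, b] := by
    funext j; fin_cases j <;> rfl
  rw [e0, e1, e2, e3, e4]
  have s0 : (-1 : ℤˣ) ^ ((0 : Fin 5) : ℕ) = 1 := rfl
  have s1 : (-1 : ℤˣ) ^ ((1 : Fin 5) : ℕ) = -1 := rfl
  have s2 : (-1 : ℤˣ) ^ ((2 : Fin 5) : ℕ) = 1 := rfl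
  have s3 : (-1 : ℤˣ) ^ ((3 : Fin 5) : ℕ) = -1 := rfl
  have s4 : (-1 : ℤˣ) ^ ((4 : Fin 5) : ℕ) = 1 := rfl
  rw [s0, s1, s2, s3, s4]
  simp only [one_smul, Units.neg_smul]
  abel

theorem ins4 (b : A) (t : Fin 3 → A) (g : (Fin 4 → A) → A) :
    ∑ i : Fin 4, (-1 : ℤˣ) ^ (i : ℕ) • g (i.insertNth b t) =
    g ![b, t 0, t 1, t 2] - g ![t 0, b, t 1, t 2] + g ![t 0, t 1, b, t 2] -
    g ![t 0, t 1, t 2, b] := by
  rw [Fin.sum_univ_four]
  have e0 : (0 : Fin 4).insertNth b t = ![b, t 0, t 1, t 2] := by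
    funext j; fin_cases j <;> rfl
  have e1 : (1 : Fin 4).insertNth b t = ![t 0, b, t 1, t 2] := by
    funext j; fin_cases j <;> rfl
  have e2 : (2 : Fin 4).insertNth b t = ![t 0, t 1, b, t 2] := by
    funext j; fin_cases j <;> rfl
  have e3 : (3 : Fin 4).insertNth b t = ![t 0, t 1, t 2, b] := by
    funext j; fin_cases j <;> rfl
  rw [e0, e1, e2, e3]
  have s0 : (-1 : ℤˣ) ^ ((0 : Fin 4) : ℕ) = 1 := rfl
  have s1 : (-1 : ℤˣ) ^ ((1 : Fin 4) : ℕ) = -1 := rfl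
  have s2 : (-1 : ℤˣ) ^ ((2 : Fin 4) : ℕ) = 1 := rfl
  have s3 : (-1 : ℤˣ) ^ ((3 : Fin 4) : ℕ) = -1 := rfl
  rw [s0, s1, s2, s3]
  simp only [one_smul, Units.neg_smul]
  abel

theorem ins3 (b : A) (t : Fin 2 → A) (g : (Fin 3 → A) → A) :
    ∑ i : Fin 3, (-1 : ℤˣ) ^ (i : ℕ) • g (i.insertNth b t) =
    g ![b, t 0, t 1] - g ![t 0, b, t 1] + g ![t 0, t 1, b] := by
  rw [Fin.sum_univ_three]
  have e0 : (0 : Fin 3).insertNth b t = ![b, t 0, t 1] := by
    funext j; fin_cases j <;> rfl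
  have e1 : (1 : Fin 3).insertNth b t = ![t 0, b, t 1] := by
    funext j; fin_cases j <;> rfl
  have e2 : (2 : Fin 3).insertNth b t = ![t 0, t 1, b] := by
    funext j; fin_cases j <;> rfl
  rw [e0, e1, e2]
  have s0 : (-1 : ℤˣ) ^ ((0 : Fin 3) : ℕ) = 1 := rfl
  have s1 : (-1 : ℤˣ) ^ ((1 : Fin 3) : ℕ) = -1 := rfl
  have s2 : (-1 : ℤˣ) ^ ((2 : Fin 3) : ℕ) = 1 := rfl
  rw [s0, s1, s2]
  simp only [one_smul, Units.neg_smul]
  abel

/-- expansion of an alternation of four arguments by the first -/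
theorem Alt4_succ (g : (Fin 4 → A) → A) (x0 x1 x2 x3 : A) :
    Alt 4 g ![x0, x1, x2, x3] =
      Alt 3 (fun t => g (Fin.cons x0 t)) ![x1, x2, x3] -
      Alt 3 (fun t => g (Fin.cons x1 t)) ![x0, x2, x3] +
      Alt 3 (fun t => g (Fin.cons x2 t)) ![x0, x1, x3] -
      Alt 3 (fun t => g (Fin.cons x3 t)) ![x0, x1, x2] := by
  rw [Alt_succ, Fin.sum_univ_four]
  have e0 : (fun j => (![x0, x1, x2, x3] : Fin 4 → A) ((0 : Fin 4).succAbove j)) =
      ![x1, x2, x3] := by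
    funext j; fin_cases j <;> rfl
  have e1 : (fun j => (![x0, x1, x2, x3] : Fin 4 → A) ((1 : Fin 4).succAbove j)) =
      ![x0, x2, x3] := by
    funext j; fin_cases j <;> rfl
  have e2 : (fun j => (![x0, x1, x2, x3] : Fin 4 → A) ((2 : Fin 4).succAbove j)) =
      ![x0, x1, x3] := by
    funext j; fin_cases j <;> rfl
  have e3 : (fun j => (![x0, x1, x2, x3] : Fin 4 → A) ((3 : Fin 4).succAbove j)) =
      ![x0, x1, x2] := by
    funext j; fin_cases j <;> rfl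
  rw [e0, e1, e2, e3]
  have s0 : (-1 : ℤˣ) ^ ((0 : Fin 4) : ℕ) = 1 := rfl
  have s1 : (-1 : ℤˣ) ^ ((1 : Fin 4) : ℕ) = -1 := rfl
  have s2 : (-1 : ℤˣ) ^ ((2 : Fin 4) : ℕ) = 1 := rfl
  have s3 : (-1 : ℤˣ) ^ ((3 : Fin 4) : ℕ) = -1 := rfl
  rw [s0, s1, s2, s3]
  simp only [one_smul, Units.neg_smul]
  show Alt 3 (fun t => g (Fin.cons x0 t)) ![x1, x2, x3] +
      -Alt 3 (fun t => g (Fin.cons x1 t)) ![x0, x2, x3] +
      Alt 3 (fun t => g (Fin.cons x2 t)) ![x0, x1, x3] +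
      -Alt 3 (fun t => g (Fin.cons x3 t)) ![x0, x1, x2] = _
  abel

/-- expansion of an alternation of three arguments by the first -/
theorem Alt3_succ (g : (Fin 3 → A) → A) (x0 x1 x2 : A) :
    Alt 3 g ![x0, x1, x2] =
      Alt 2 (fun t => g (Fin.cons x0 t)) ![x1, x2] -
      Alt 2 (fun t => g (Fin.cons x1 t)) ![x0, x2] +
      Alt 2 (fun t => g (Fin.cons x2 t)) ![x0, x1] := by
  rw [Alt_succ, Fin.sum_univ_three]
  have e0 : (fun j => (![x0, x1, x2] : Fin 3 → A) ((0 : Fin 3).succAbove j)) = ![x1, x2] := by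
    funext j; fin_cases j <;> rfl
  have e1 : (fun j => (![x0, x1, x2] : Fin 3 → A) ((1 : Fin 3).succAbove j)) = ![x0, x2] := by
    funext j; fin_cases j <;> rfl
  have e2 : (fun j => (![x0, x1, x2] : Fin 3 → A) ((2 : Fin 3).succAbove j)) = ![x0, x1] := by
    funext j; fin_cases j <;> rfl
  rw [e0, e1, e2]
  have s0 : (-1 : ℤˣ) ^ ((0 : Fin 3) : ℕ) = 1 := rfl
  have s1 : (-1 : ℤˣ) ^ ((1 : Fin 3) : ℕ) = -1 := rfl
  have s2 : (-1 : ℤˣ) ^ ((2 : Fin 3) : ℕ) = 1 := rfl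
  rw [s0, s1, s2]
  simp only [one_smul, Units.neg_smul]
  show Alt 2 (fun t => g (Fin.cons x0 t)) ![x1, x2] +
      -Alt 2 (fun t => g (Fin.cons x1 t)) ![x0, x2] +
      Alt 2 (fun t => g (Fin.cons x2 t)) ![x0, x1] = _
  abel

end

section

variable (F : Type u) [Field F] {A : Type v} [NonUnitalNonAssocRing A] [Module F A]
  [IsScalarTower F A A] [SMulCommClass F A A]

theorem ee0 (x0 x1 x2 x3 x4 y : A) :
    ee F x0 x1 x2 x3 x4 y = Alt 5 (fun t => pe t y) ![x0, x1, x2, x3, x4] := by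
  unfold ee
  rw [eL_apply]
  rfl

theorem ee1 (b x0 x1 x2 x3 y : A) :
    ee F b x0 x1 x2 x3 y = Alt 4 (fun t => pe1B b t y) ![x0, x1, x2, x3] := by
  rw [ee0]
  show Alt 5 (fun t => pe t y) (Fin.cons b ![x0, x1, x2, x3]) = _
  rw [Alt_cons]
  congr 1
  funext t
  exact ins5 b t (fun t => pe t y)

theorem ee2 (b c x0 x1 x2 y : A) :
    ee F b c x0 x1 x2 y = Alt 3 (fun t => pe2B b c t y) ![x0, x1, x2] := by
  rw [ee1]
  show Alt 4 (fun t => pe1B b t y) (Fin.cons c ![x0, x1, x2]) = _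
  rw [Alt_cons]
  congr 1
  funext t
  exact ins4 c t (fun t => pe1B b t y)

theorem ee3 (b c d x0 x1 y : A) :
    ee F b c d x0 x1 y = Alt 2 (fun t => pe3B b c d t y) ![x0, x1] := by
  rw [ee2]
  show Alt 3 (fun t => pe2B b c t y) (Fin.cons d ![x0, x1]) = _
  rw [Alt_cons]
  congr 1
  funext t
  exact ins3 d t (fun t => pe2B b c t y)

theorem eL_rot (v : Fin 5 → A) : eL F (v ∘ finRotate 5) = eL F v := by
  have h := (eL F (A := A)).map_perm v (finRotate 5)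
  have h2 : Perm.sign (finRotate 5) = 1 := (sign_finRotate 5).trans (by norm_num)
  rw [h2, one_smul] at h
  exact h

theorem eeA_rot (x0 x1 x2 x3 x4 y : A) : ee F x1 x2 x3 x4 x0 y = ee F x0 x1 x2 x3 x4 y := by
  have h1 : (![x0, x1, x2, x3, x4] ∘ (finRotate 5) : Fin 5 → A) = ![x1, x2, x3, x4, x0] := by
    funext j; fin_cases j <;> rfl
  unfold ee
  rw [← h1, eL_rot]

end

/-- the partial alternation of a certified expression vanishes (one odd generator 0) -/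
theorem super_alt {M : ℕ} {ids : List PEx} (hids : ∀ e ∈ ids, e.ml = true) (k : ℕ) (par : ℕ → Bool)
    (cls : ℕ → ℕ) (e : PEx) (he : e.ml = true) (hk : ∀ i : Fin k, (i : ℕ) ∈ e.ls)
    (hodd : ∀ i : Fin k, cls i = 0) (hpar : par 0 = true)
    (heven : ∀ l ∈ e.ls, k ≤ l → par (cls l) = false) (H : Cert.{u} M ids par cls e)
    {A : Type u} [NonUnitalNonAssocRing A] (hA : Alg M ids A) (w : ℕ → A) (y : Fin k → A) :
    Alt k (fun t => e.ev (asg k cls t w)) y = 0 := by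
  have h := super_sound hids k par cls e he hk (fun i => by rw [hodd i, hpar]) heven H hA y w
  rw [filter_true_of_mem] at h
  · exact h
  · intro σ _ i
    rw [hodd, hodd]

end Pool.Agent.MalP
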