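import Mathlib

/-! # Multilinear expressions and their super evaluation -/

set_option autoImplicit false

namespace Pool.Agent.MalP

universe u

/-- nonassociative expressions in the letters `X i` -/
inductive PEx : Type
  | X (i : ℕ) : PEx
  | add (a b : PEx) : PEx
  | sub (a b : PEx) : PEx
  | neg (a : PEx) : PEx
  | zs (n : ℤ) (a : PEx) : PEx
  | ns (n : ℕ) (a : PEx) : PEx
  | mul (a b : PEx) : PEx

/-- parity of the number of `j` in the list with `j < i`, `i` and `j` odd -/
def oinv (p : ℕ → Bool) (i : ℕ) : List ℕ → Bool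
  | [] => false
  | j :: l => xor (p i && p j && Nat.blt j i) (oinv p i l)

/-- parity of the number of inversions of odd letters between two lists -/
def linv (p : ℕ → Bool) : List ℕ → List ℕ → Bool
  | [], _ => false
  | i :: l, m => xor (oinv p i m) (linv p l m)

/-- the sign -/
def sg : Bool → ℤ
  | true => -1
  | false => 1

namespace PEx

/-- the letters (of the leftmost monomial) -/
def lts : PEx → List ℕ
  | X i => [i]
  | add a _ => a.lts
  | sub a _ => a.lts
  | neg a => a.lts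
  | zs _ a => a.lts
  | ns _ a => a.lts
  | mul a b => a.lts ++ b.lts

/-- the expression is multilinear: every letter of `lts` occurs exactly once in every monomial -/
def ml : PEx → Bool
  | X _ => true
  | add a b => a.ml && b.ml && a.lts.isPerm b.lts
  | sub a b => a.ml && b.ml && a.lts.isPerm b.lts
  | neg a => a.ml
  | zs _ a => a.ml
  | ns _ a => a.ml
  | mul a b => a.ml && b.ml && a.lts.all (fun i => b.lts.all (fun j => !(Nat.beq i j)))

/-- evaluation -/
def ev {A : Type u} [NonUnitalNonAssocRing A] (y : ℕ → A) : PEx → A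
  | X i => y i
  | add a b => a.ev y + b.ev y
  | sub a b => a.ev y - b.ev y
  | neg a => - a.ev y
  | zs n a => n • a.ev y
  | ns n a => n • a.ev y
  | mul a b => a.ev y * b.ev y

/-- super evaluation, `p l` is the parity of the letter `l` -/
def sev {S : Type u} [NonUnitalNonAssocRing S] (p : ℕ → Bool) (z : ℕ → S) : PEx → S
  | X i => z i
  | add a b => a.sev p z + b.sev p z
  | sub a b => a.sev p z - b.sev p z
  | neg a => - a.sev p z
  | zs n a => n • a.sev p z
  | ns n a => n • a.sev p z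
  | mul a b => sg (linv p a.lts b.lts) • (a.sev p z * b.sev p z)

end PEx

/-- all prime factors of `n` divide `6 * M` -/
def Smooth (M : ℕ) (n : ℤ) : Prop := ∃ k : ℕ, n ∣ ((6 * M : ℕ) : ℤ) ^ k

section smooth

variable {M : ℕ}

theorem Smooth.mul {a b : ℤ} (ha : Smooth M a) (hb : Smooth M b) : Smooth M (a * b) := by
  obtain ⟨k, hk⟩ := ha
  obtain ⟨l, hl⟩ := hb
  exact ⟨k + l, by rw [pow_add]; exact mul_dvd_mul hk hl⟩

theorem smooth_one : Smooth M 1 := ⟨0, one_dvd _⟩

theorem Smooth.pow {a : ℤ} (ha : Smooth M a) (n : ℕ) : Smooth M (a ^ n) := by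
  induction n with
  | zero => rw [pow_zero]; exact smooth_one
  | succ n ih => rw [pow_succ]; exact ih.mul ha

theorem Smooth.of_dvd {a b : ℤ} (hb : Smooth M b) (h : a ∣ b) : Smooth M a := by
  obtain ⟨k, hk⟩ := hb
  exact ⟨k, h.trans hk⟩

theorem Smooth.neg {a : ℤ} (ha : Smooth M a) : Smooth M (-a) := ha.of_dvd (neg_dvd.2 dvd_rfl)

theorem Smooth.mono {a : ℤ} {M' : ℕ} (h : M ∣ M') (ha : Smooth M a) : Smooth M' a := by
  obtain ⟨k, hk⟩ := ha
  refine ⟨k, hk.trans (pow_dvd_pow_of_dvd ?_ k)⟩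
  exact_mod_cast Int.natCast_dvd_natCast.2 (Nat.mul_dvd_mul_left 6 h)

theorem smooth_6 : Smooth M 6 := ⟨1, by rw [pow_one, Nat.cast_mul]; exact dvd_mul_right _ _⟩
theorem smooth_2 : Smooth M 2 := smooth_6.of_dvd (by norm_num)
theorem smooth_3 : Smooth M 3 := smooth_6.of_dvd (by norm_num)
theorem smooth_4 : Smooth M 4 := (smooth_2.mul smooth_2).of_dvd (by norm_num)
theorem smooth_16 : Smooth M 16 := (smooth_4.mul smooth_4).of_dvd (by norm_num)
theorem smooth_24 : Smooth M 24 := (smooth_4.mul smooth_6).of_dvd (by norm_num)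
theorem smooth_32 : Smooth M 32 := (smooth_16.mul smooth_2).of_dvd (by norm_num)

theorem smooth_self : Smooth M M := ⟨1, by rw [pow_one, Nat.cast_mul]; exact dvd_mul_left _ _⟩

theorem smooth_5 : Smooth 5 5 := smooth_self
theorem smooth_10 : Smooth 5 10 := (smooth_2.mul smooth_5).of_dvd (by norm_num)
theorem smooth_20 : Smooth 5 20 := (smooth_4.mul smooth_5).of_dvd (by norm_num)
theorem smooth_120 : Smooth 5 120 := (smooth_24.mul smooth_5).of_dvd (by norm_num)

/-- the test: `n` divides a power of `6 * M` -/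
def smb (M n : ℕ) : Bool := Nat.ble 1 n && Nat.beq (Nat.mod (Nat.pow (Nat.mul 6 M) 64) n) 0

theorem smooth_of_smb {n : ℕ} (h : smb M n = true) : Smooth M (n : ℤ) := by
  unfold smb at h
  rw [Bool.and_eq_true] at h
  have h1 : (6 * M) ^ 64 % n = 0 := Nat.eq_of_beq_eq_true h.2
  refine ⟨64, ?_⟩
  rw [← Nat.cast_pow]
  exact Int.natCast_dvd_natCast.2 (Nat.dvd_of_mod_eq_zero h1)

theorem pos_of_smb {n : ℕ} (h : smb M n = true) : 1 ≤ n := by
  unfold smb at h
  rw [Bool.and_eq_true] at h
  exact Nat.le_of_ble_eq_true h.1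

end smooth

/-- `A` satisfies the identities `ids` and has no torsion by integers whose prime factors divide
`6 * M` -/
structure Alg (M : ℕ) (ids : List PEx) (A : Type u) [NonUnitalNonAssocRing A] : Prop where
  tf : ∀ (n : ℤ) (x : A), Smooth M n → n • x = 0 → x = 0
  ids : ∀ e ∈ ids, ∀ y : ℕ → A, e.ev y = 0

/-- a superalgebra with the super identities `ids` and without torsion by integers whose prime
factors divide `6 * M` -/
structure SM (M : ℕ) (ids : List PEx) (S : Type u) [NonUnitalNonAssocRing S] where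
  P : Bool → AddSubgroup S
  mul_mem : ∀ (a b : Bool) (x y : S), x ∈ P a → y ∈ P b → x * y ∈ P (xor a b)
  tf : ∀ (n : ℤ) (x : S), Smooth M n → n • x = 0 → x = 0
  ids : ∀ e ∈ ids, ∀ (p : ℕ → Bool) (z : ℕ → S), (∀ l, z l ∈ P (p l)) → e.sev p z = 0

/-- `xy + yx` -/
def antiEx : PEx := .add (.mul (.X 0) (.X 1)) (.mul (.X 1) (.X 0))

/-- Sagle's identity `(xz)(yt) = ((xy)z)t + ((yz)t)x + ((zt)x)y + ((tx)y)z`, letters x,y,z,t = 0,1,2,3 -/
def sagleEx : PEx :=
  .sub (.mul (.mul (.X 0) (.X 2)) (.mul (.X 1) (.X 3)))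
    (.add (.add (.add (.mul (.mul (.mul (.X 0) (.X 1)) (.X 2)) (.X 3))
      (.mul (.mul (.mul (.X 1) (.X 2)) (.X 3)) (.X 0)))
      (.mul (.mul (.mul (.X 2) (.X 3)) (.X 0)) (.X 1)))
      (.mul (.mul (.mul (.X 3) (.X 0)) (.X 1)) (.X 2)))

end Pool.Agent.MalP
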