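import Pool.Agent.MalP.CPA

/-! # The first order extension of a cross product algebra -/

set_option autoImplicit false

open scoped TensorProduct

namespace Pool.Agent.MalP

universe u

namespace CPA

variable {F : Type u} [Field F] (A : CPA F)

theorem two_smul_inj [C23 F] {x y : A.E} (h : (2 : A.S) • x = (2 : A.S) • y) : x = y := by
  have h2 : algebraMap F A.S (1 / 2) * 2 = 1 := by
    have : (2 : A.S) = algebraMap F A.S 2 := by rw [map_ofNat]
    rw [this, ← map_mul, one_div, inv_mul_cancel₀ (two_ne_zero (α := F)), map_one]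
  have h3 := congrArg (fun z => algebraMap F A.S (1 / 2) • z) h
  simp only [← mul_smul, h2, one_smul] at h3
  exact h3

/-- the operator `rho` vanishes -/
theorem rho_id [C23 F] (a b e c : A.E) :
    A.mul c (A.mul (A.mul a b) e - A.s a e • b + A.s b e • a) +
      (A.s c (A.mul a b) • e - A.s c e • A.mul a b + A.s c (A.mul b e) • a -
        A.s c a • A.mul b e + A.s c (A.mul e a) • b - A.s c b • A.mul e a) = 0 := by
  have m1 := A.main c (A.mul a b) e
  have m2 := congrArg (fun z => A.mul z e) (A.main c a b)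
  have m3 := A.main (A.mul c a) b e
  have m4 := A.main c a (A.mul b e)
  have m5 := congrArg (fun z => A.mul c z) (A.main a b e)
  have a1 := A.anti e a
  have s1 := A.assoc a b e
  have s2 := A.assoc c a b
  have s3 := A.assoc c a e
  simp only [map_add, map_sub, map_smul, LinearMap.add_apply, LinearMap.sub_apply,
    LinearMap.smul_apply] at m2 m5
  rw [s1] at m1
  rw [s2, s3] at m3
  apply A.two_smul_inj
  simp only [map_add, map_sub, map_smul, a1, map_neg, smul_zero]
  linear_combination (norm := module) m1 - m2 + m3 - m4 + m5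

theorem chi3 (a b e : A.E) : A.mul (A.mul a b) e + A.mul (A.mul b e) a + A.mul (A.mul e a) b =
    (3 : A.S) • (A.mul (A.mul a b) e - A.s a e • b + A.s b e • a) := by
  have m1 := A.main a b e
  have m2 := A.main e a b
  have a1 := A.anti a (A.mul b e)
  have a2 := A.anti e (A.mul a b)
  rw [a1, A.symm b e] at m1
  rw [a2, A.symm e a] at m2
  rw [A.symm b e]
  linear_combination (norm := module) m2 - m1

theorem defect_t (a b : A.E) (t : A.E ⊗[A.S] A.E) :
    TensorProduct.map (A.mul a) LinearMap.id (TensorProduct.map (A.mul b) LinearMap.id t) +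
      TensorProduct.map (A.mul (A.mul a b)) LinearMap.id t =
    (2 : A.S) • (b ⊗ₜ[A.S] TensorProduct.lift (LinearMap.lsmul A.S A.E ∘ₗ A.s a) t) -
      A.s a b • t - a ⊗ₜ[A.S] TensorProduct.lift (LinearMap.lsmul A.S A.E ∘ₗ A.s b) t := by
  induction t using TensorProduct.induction_on with
  | zero => simp
  | add x y hx hy =>
    simp only [map_add, TensorProduct.tmul_add, smul_add]
    linear_combination (norm := module) hx + hy
  | tmul x y =>
    have m := congrArg (fun z => z ⊗ₜ[A.S] y) (A.main a b x)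
    simp only [TensorProduct.add_tmul, TensorProduct.sub_tmul] at m
    simp only [TensorProduct.map_tmul, LinearMap.id_apply, TensorProduct.lift.tmul,
      LinearMap.comp_apply, LinearMap.lsmul_apply, TensorProduct.tmul_smul]
    simp only [← TensorProduct.smul_tmul'] at m
    linear_combination (norm := module) m

theorem defect (a b : A.E) (w : A.WT) : A.L a (A.L b w) + A.L (A.mul a b) w =
    (2 : A.S) • A.ten b (A.sT a w) - A.s a b • w - A.ten a (A.sT b w) -
      (2 : A.S) • A.rho a b w.2.1 := by
  obtain ⟨r, e, t⟩ := w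
  have m := A.main a b e
  refine Prod.ext ?_ (Prod.ext ?_ ?_)
  · simp [L, ten, rho, sT, A.assoc a b e]
    ring
  · simp [L, ten, rho, sT]
    linear_combination (norm := module) m
  · have hd := A.defect_t a b t
    have a1 := A.anti e a
    simp [L, ten, rho, sT, a1, TensorProduct.tmul_sub, TensorProduct.sub_tmul,
      TensorProduct.tmul_add, TensorProduct.tmul_neg, TensorProduct.neg_tmul,
      ← TensorProduct.smul_tmul']
    linear_combination (norm := module) hd

theorem sT_rho [C23 F] (c a b e : A.E) : A.sT c (A.rho a b e) = 0 := by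
  have h := A.rho_id a b e c
  simp only [sT, rho, LinearMap.coe_mk, AddHom.coe_mk, map_add, map_sub, TensorProduct.lift.tmul,
    LinearMap.comp_apply, LinearMap.lsmul_apply, zero_smul, zero_add, map_smul] at h ⊢
  exact h

theorem sT_L (c d : A.E) (w : A.WT) : A.sT c (A.L d w) = A.sT (A.mul c d) w := by
  obtain ⟨r, e, t⟩ := w
  have m := A.main c d e
  have ht : TensorProduct.lift (LinearMap.lsmul A.S A.E ∘ₗ A.s c)
      (TensorProduct.map (A.mul d) LinearMap.id t) =
      TensorProduct.lift (LinearMap.lsmul A.S A.E ∘ₗ A.s (A.mul c d)) t := by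
    induction t using TensorProduct.induction_on with
    | zero => simp
    | add x y hx hy => simp only [map_add, hx, hy]
    | tmul x y =>
      simp only [TensorProduct.map_tmul, LinearMap.id_apply, TensorProduct.lift.tmul,
        LinearMap.comp_apply, LinearMap.lsmul_apply, A.assoc]
  simp only [sT, L, LinearMap.coe_mk, AddHom.coe_mk, map_add, map_sub, map_smul,
    TensorProduct.lift.tmul, LinearMap.comp_apply, LinearMap.lsmul_apply, ht]
  linear_combination (norm := module) -m

theorem tauT_rho (a b e : A.E) : A.tauT (A.rho a b e) = 0 := by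
  have h1 := A.symm (A.mul a b) e
  have h2 := A.symm (A.mul b e) a
  have h3 := A.symm (A.mul e a) b
  simp only [tauT, rho, LinearMap.coe_mk, AddHom.coe_mk, map_add, map_sub,
    TensorProduct.lift.tmul, h1, h2, h3]
  ring

theorem tauT_L (a : A.E) (w : A.WT) :
    A.tauT (A.L a w) = A.s a (TensorProduct.lift A.mul w.2.2 - (6 : A.S) • w.2.1) := by
  obtain ⟨r, e, t⟩ := w
  have ht : TensorProduct.lift A.s (TensorProduct.map (A.mul a) LinearMap.id t) =
      A.s a (TensorProduct.lift A.mul t) := by
    induction t using TensorProduct.induction_on with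
    | zero => simp
    | add x y hx hy => simp only [map_add, hx, hy]
    | tmul x y =>
      simp only [TensorProduct.map_tmul, LinearMap.id_apply, TensorProduct.lift.tmul, A.assoc]
  simp only [tauT, L, LinearMap.coe_mk, AddHom.coe_mk, map_add, map_sub, map_smul,
    TensorProduct.lift.tmul, ht, A.symm e a, smul_eq_mul]
  ring

theorem tauT_L_rho (d a b e : A.E) : A.tauT (A.L d (A.rho a b e)) = 0 := by
  have h := A.chi3 a b e
  have a1 := A.anti e (A.mul a b)
  have a2 := A.anti a (A.mul b e)
  have a3 := A.anti b (A.mul e a)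
  have : TensorProduct.lift A.mul (A.rho a b e).2.2 - (6 : A.S) • (A.rho a b e).2.1 = 0 := by
    simp only [rho, map_add, map_sub, TensorProduct.lift.tmul, a1, a2, a3]
    linear_combination (norm := module) (2 : A.S) • h
  rw [tauT_L, this, map_zero]

theorem rho_mem (a b e : A.E) : A.rho a b e ∈ A.Rel :=
  Submodule.subset_span (Or.inl ⟨a, b, e, rfl⟩)

theorem L_rho_mem (d a b e : A.E) : A.L d (A.rho a b e) ∈ A.Rel :=
  Submodule.subset_span (Or.inr ⟨d, a, b, e, rfl⟩)

theorem ten_zero (b : A.E) : A.ten b 0 = 0 := by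
  simp [ten]

theorem Rel_le_sT [C23 F] (c : A.E) : A.Rel ≤ LinearMap.ker (A.sT c) := by
  unfold Rel
  rw [Submodule.span_le]
  rintro w (⟨a, b, e, rfl⟩ | ⟨d, a, b, e, rfl⟩)
  · exact A.sT_rho c a b e
  · show A.sT c (A.L d (A.rho a b e)) = 0
    rw [sT_L, sT_rho]

theorem Rel_le_tau : A.Rel ≤ LinearMap.ker A.tauT := by
  unfold Rel
  rw [Submodule.span_le]
  rintro w (⟨a, b, e, rfl⟩ | ⟨d, a, b, e, rfl⟩)
  · exact A.tauT_rho a b e
  · exact A.tauT_L_rho d a b e

theorem Rel_le_L [C23 F] (c : A.E) : A.Rel ≤ A.Rel.comap (A.L c) := by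
  conv_lhs => unfold Rel
  rw [Submodule.span_le]
  rintro w (⟨a, b, e, rfl⟩ | ⟨d, a, b, e, rfl⟩)
  · exact A.L_rho_mem c a b e
  · show A.L c (A.L d (A.rho a b e)) ∈ A.Rel
    have h := A.defect c d (A.rho a b e)
    rw [sT_rho, sT_rho, ten_zero, ten_zero, smul_zero, zero_sub, sub_zero] at h
    rw [eq_sub_of_add_eq h]
    refine A.Rel.sub_mem (A.Rel.sub_mem (A.Rel.neg_mem (A.Rel.smul_mem _ (A.rho_mem a b e)))
      (A.Rel.smul_mem _ (A.rho_mem _ _ _))) (A.L_rho_mem _ a b e)

/-- the operators modulo the relations -/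
def W : Type u := A.WT ⧸ A.Rel

noncomputable instance : AddCommGroup A.W := inferInstanceAs (AddCommGroup (A.WT ⧸ A.Rel))
noncomputable instance : Module A.S A.W := inferInstanceAs (Module A.S (A.WT ⧸ A.Rel))

/-- the quotient map -/
noncomputable def mkW : A.WT →ₗ[A.S] A.W := A.Rel.mkQ

theorem mkW_surj : Function.Surjective A.mkW := Submodule.mkQ_surjective _

theorem mkW_eq_zero {w : A.WT} : A.mkW w = 0 ↔ w ∈ A.Rel := Submodule.Quotient.mk_eq_zero _

/-- the trace -/
noncomputable def tau : A.W →ₗ[A.S] A.S := A.Rel.liftQ A.tauT A.Rel_le_tau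

theorem tau_mk (w : A.WT) : A.tau (A.mkW w) = A.tauT w := rfl

variable [C23 F]

/-- left multiplication -/
noncomputable def LW (a : A.E) : A.W →ₗ[A.S] A.W := A.Rel.mapQ A.Rel (A.L a) (A.Rel_le_L a)

theorem LW_mk (a : A.E) (w : A.WT) : A.LW a (A.mkW w) = A.mkW (A.L a w) := rfl

/-- the form -/
noncomputable def sW (a : A.E) : A.W →ₗ[A.S] A.E := A.Rel.liftQ (A.sT a) (A.Rel_le_sT a)

theorem sW_mk (a : A.E) (w : A.WT) : A.sW a (A.mkW w) = A.sT a w := rfl

end CPA

end Pool.Agent.MalP
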