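import Pool.Agent.MalP.FIds4
import Pool.Agent.MalP.F6Three
import Pool.Agent.MalP.CertF1
import Pool.Agent.MalP.CertF3
import Pool.Agent.MalP.CertF4
import Pool.Agent.MalP.CertF5
import Pool.Agent.MalP.CertF6aa
import Pool.Agent.MalP.CertF6as
import Pool.Agent.MalP.CertF6ss
import Pool.Agent.MalP.CertF7
import Pool.Agent.MalP.CertF8

/-! # The finite identities used for the sigma theory

All of them are identities of Malcev algebras over a field of characteristic 0 (some of them modulo `f6`). -/

set_option autoImplicit false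

namespace Pool.Agent.MalP

universe u v

variable (F : Type u) [Field F] [C23 F] {B : Type v} [NonUnitalNonAssocRing B] [Module F B]
  [IsScalarTower F B B] [SMulCommClass F B B]

include F

/-- degree 4 -/
theorem sagle (h : IsMalcev B) (w x y z : B) :
    3 • Jac (w * x) y z = Jac x y z * w - Jac y z w * x - 2 • (Jac z w x * y) +
      2 • (Jac w x y * z) :=
  sagle' F h w x y z

/-- degree 4, the dual of the Malcev identity -/
theorem mdual1 (h : IsMalcev B) (v x y : B) : Jac v x y * x + Jac (v * x) x y = 0 :=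
  mdual1' h v x y

theorem mdual2 (h : IsMalcev B) (v x z : B) : Jac (v * x) z x + Jac v (x * z) x = 0 :=
  mdual2' h v x z

theorem mdual3 (h : IsMalcev B) (v x y z : B) :
    Jac v x y * z - Jac v y (x * z) - Jac (v * x) y z - v * Jac x y z = 0 :=
  mdual3' h v x y z

/-- degree 5 -/
theorem F1 (h : IsMalcev B) (a b c x y : B) :
    P108 a b c y x - P108 a b c x y = 12 • Jac (Jac a b c) x y + 36 • (Jac a b c * (x * y)) :=
  F1_of F cert_F1Ex h a b c x y

/-- degree 5 -/
theorem F7 (h : IsMalcev B) (v x y a b : B) :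
    36 • Jac ((v * x) * y + (v * y) * x) a b + 2 • sig36 v a b x y - sig36 y a b v x -
      sig36 x a b v y = 0 :=
  F7_of F cert_F7Ex h v x y a b

/-- degree 5 -/
theorem F8b (h : IsMalcev B) (v w b c d : B) : T108 v w b c d = - sig36 b c d v w :=
  F8b_of F cert_F8Ex h v w b c d

/-- degree 6, modulo `f6` -/
theorem F4 (h : IsV B) (w x y z t p : B) :
    3 • P108 (w * x) y z t p = P108 x y z (w * t) p - P108 y z w (x * t) p -
      2 • P108 z w x (y * t) p + 2 • P108 w x y (z * t) p :=
  F4_of F cert_F4Ex h w x y z t p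

/-- degree 6, modulo `f6` -/
theorem F3 (h : IsV B) (a b c x y z : B) :
    ((GP.J a b c).m z).sig x y = sig36 a b c x y * z :=
  F3_of F cert_F3Ex h a b c x y z

/-- degree 6, modulo `f6` -/
theorem F5 (h : IsV B) (a b c x y z : B) :
    sig36 a b c (x * z) y + sig36 a b c x (y * z) = 0 :=
  F5_of F cert_F5Ex h a b c x y z

/-- degree 7, modulo `f6` (follows from the case `(x,x), (x,t)`) -/
theorem F6 (h : IsV B) (a b c x y z t : B) :
    (GP.S a b c z t).sig x y = (GP.S a b c x y).sig z t :=
  F6_of3 F cert_F6ss cert_F6as cert_F6aa h a b c x y z t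

end Pool.Agent.MalP
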