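import Pool.Agent.MalP.Final11
import Pool.Agent.MalP.P5.Q5
import Pool.Agent.MalP.Last.Conc

/-! # Characteristic 5 -/

set_option autoImplicit false

namespace Pool.Agent.MalP

universe u

variable (F : Type u) [Field F] [C23 F]

theorem HH_of_five (h5 : (5 : F) = 0) : HH F := by
  refine HH.of_inj_except (s2h F) 5 ?_ ?_ ?_
  · intro L q hq hm hL h0
    exact Q5_main h5 hL hq hm h0
  · intro m i hi q hq hm
    exact Q5_high h5 hi hq hm
  · intro L p h hL n n' hnn hn hn'
    obtain ⟨T, hT, hT4⟩ := Finset.exists_subset_card_eq (s := L) (n := 4) (by omega)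
    refine h.jac5 hL hn hn' hT hT4 ?_
    intro i hi j hj hij
    refine Q5_seven h5 (L := insert n' (insert n L)) ?_ (h.QF (s2h F) _ _) (h.GM hnn hn hn') (h.phi _ _) ?_ ?_ hij
    · rw [GoodP.card_insert hnn hn hn', hL]
    · exact Finset.mem_insert_of_mem (Finset.mem_insert_of_mem (hT hi))
    · exact Finset.mem_insert_of_mem (Finset.mem_insert_of_mem (hT hj))

end Pool.Agent.MalP
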