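import Pool.Agent.MalP.HH3
import Pool.Agent.MalP.MQ

/-! # The Jacobians of good elements -/

set_option autoImplicit false

namespace Pool.Agent.MalP

universe u

variable {F : Type u} [Field F] [C23 F] {L : Finset ℕ} {p : FA F}

namespace GoodP

/-- the Jacobian is in `QF` -/
theorem QF (hS : S2H F) (h : GoodP F (AlgebraicClosure F) L p) (b c : FreeMalcev F ℕ) :
    Jac (FreeMalcev.mk p) b c ∈ QF F (FreeMalcev F ℕ) :=
  mem_QF_of_C7 hS h.mem h.c7 b c

omit [C23 F] in
/-- the Jacobian is in the kernel of `phi` -/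
theorem phi {K : Type u} [Field K] [Algebra F K] (h : GoodP F K L p) (b c : FreeMalcev F ℕ) :
    phi F (Jac (FreeMalcev.mk p) b c) = 0 := by
  have hv := HHAux.AZ_v h.az
  have hw : ∀ i, (Pool.Agent.MalP.phi F (FreeMalcev.mk p)).w i = 0 := by
    intro i
    rw [CEndAux.phi_mk]
    exact h.w (fun k => k) (fun _ _ h => h) i
  have hc := Bh_central hv hw
  unfold Jac
  simp only [map_add, map_mul, (hc _).1, (hc _).2, zero_mul, add_zero, zero_add]

omit [C23 F] in
/-- the Jacobian is multilinear -/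
theorem GM {K : Type u} [Field K] [Algebra F K] (h : GoodP F K L p) {n n' : ℕ} (hnn : n ≠ n')
    (hn : n ∉ L) (hn' : n' ∉ L) : Jac (FreeMalcev.mk p : FreeMalcev F ℕ) (FreeMalcev.of n) (FreeMalcev.of n') ∈
      GM F (insert n' (insert n L)).val := by
  have hn'L : n' ∉ insert n L := by
    rw [Finset.mem_insert]
    rintro (h | h)
    · exact hnn h.symm
    · exact hn' h
  have hofn : FreeNonUnitalNonAssocAlgebra.of F n ∈ Hg F ({n} : Multiset ℕ) := by
    rw [of_eq_wd]; exact wd_mem (FreeMagma.of n)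
  have hofn' : FreeNonUnitalNonAssocAlgebra.of F n' ∈ Hg F ({n'} : Multiset ℕ) := by
    rw [of_eq_wd]; exact wd_mem (FreeMagma.of n')
  refine ⟨Jac p (FreeNonUnitalNonAssocAlgebra.of F n) (FreeNonUnitalNonAssocAlgebra.of F n'), ?_, ?_⟩
  · have h1 := Jac_mem h.mem hofn hofn'
    have h2 : L.val + {n} + {n'} = (insert n' (insert n L)).val := by
      rw [Finset.insert_val_of_notMem hn'L, Finset.insert_val_of_notMem hn,
        ← Multiset.singleton_add, ← Multiset.singleton_add]
      abel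
    rw [← h2]
    exact h1
  · rfl

omit [C23 F] in
theorem card_insert {n n' : ℕ} (hnn : n ≠ n') (hn : n ∉ L) (hn' : n' ∉ L) :
    (insert n' (insert n L)).card = L.card + 2 := by
  have hn'L : n' ∉ insert n L := by
    rw [Finset.mem_insert]
    rintro (h | h)
    · exact hnn h.symm
    · exact hn' h
  rw [Finset.card_insert_of_notMem hn'L, Finset.card_insert_of_notMem hn]

end GoodP

/-- the facts on `QF`, if multilinear elements of the kernel of `phi` vanish -/
theorem HH.of_inj (hS : S2H F)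
    (h1 : ∀ (L : Finset ℕ) (q : FreeMalcev F ℕ), q ∈ QF F (FreeMalcev F ℕ) → q ∈ GM F L.val →
      phi F q = 0 → q = 0)
    (h2 : ∀ (m : Multiset ℕ) (i : ℕ), 4 ≤ m.count i → ∀ q ∈ QF F (FreeMalcev F ℕ), q ∈ GM F m → q = 0) :
    HH F where
  a := fun L p h n n' hnn hn hn' =>
    h1 (insert n' (insert n L)) _ (h.QF hS _ _) (h.GM hnn hn hn') (h.phi _ _)
  b := h2

/-- the facts on `QF`, if multilinear elements of the kernel of `phi` vanish except in one degree -/
theorem HH.of_inj_except (hS : S2H F) (d : ℕ)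
    (h1 : ∀ (L : Finset ℕ) (q : FreeMalcev F ℕ), q ∈ QF F (FreeMalcev F ℕ) → q ∈ GM F L.val →
      L.card ≠ d + 2 → phi F q = 0 → q = 0)
    (h2 : ∀ (m : Multiset ℕ) (i : ℕ), 4 ≤ m.count i → ∀ q ∈ QF F (FreeMalcev F ℕ), q ∈ GM F m → q = 0)
    (h3 : ∀ (L : Finset ℕ) (p : FA F), GoodP F (AlgebraicClosure F) L p → L.card = d →
      ∀ n n' : ℕ, n ≠ n' → n ∉ L → n' ∉ L →
      Jac (FreeMalcev.mk p : FreeMalcev F ℕ) (FreeMalcev.of n) (FreeMalcev.of n') = 0) :
    HH F where
  a := fun L p h n n' hnn hn hn' => by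
    by_cases hd : L.card = d
    · exact h3 L p h hd n n' hnn hn hn'
    · refine h1 (insert n' (insert n L)) _ (h.QF hS _ _) (h.GM hnn hn hn') ?_ (h.phi _ _)
      rw [GoodP.card_insert hnn hn hn']
      omega
  b := h2

end Pool.Agent.MalP
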