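import Pool.Agent.MalP.Final11
import Pool.Agent.MalP.P7.E7b
import Pool.Agent.MalP.Last.P7

/-! # Characteristic 7 -/

set_option autoImplicit false

namespace Pool.Agent.MalP

universe u

variable (F : Type u) [Field F] [C23 F]

theorem CI5_of_seven (h7 : (7 : F) = 0) : CI 5 F := ⟨by
  have e : ((6 * 5 : ℕ) : F) = 2 + 7 * 4 := by norm_num
  rw [e, h7, zero_mul, add_zero]
  exact C23.two⟩

theorem HH_of_seven (h7 : (7 : F) = 0) : HH F := by
  have h5 := CI5_of_seven F h7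
  have hP : HPc F (MQ (GE7 F h7)) := ⟨fun x0 x1 x2 x3 x4 u v c => zz_MQ7 F h7 x0 x1 x2 x3 x4 u v c⟩
  refine HH.of_inj_except (s2h F) 6 ?_ ?_ ?_
  · intro L q hq hm hL h0
    exact E7_card F h7 (m := L.val) hL (inj_E (GE7 F h7) hq hm h0) hm
  · intro m i hi q hq hm
    exact E7_four F h7 hi (high_E (GE7 F h7) hi hq hm) hm
  · intro L p h hL n n' hnn hn hn'
    exact h.jac7 h7 hL hnn hn hn' (inj_E (GE7 F h7) (h.QF (s2h F) _ _) (h.GM hnn hn hn') (h.phi _ _))

end Pool.Agent.MalP
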