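import Pool.Agent.MalP.Final11
import Pool.Agent.MalP.Final7
import Pool.Agent.MalP.Final5

/-! # The trivial characteristic ideals of the free Malcev algebra are in its Lie center -/

set_option autoImplicit false

namespace Pool.Agent.MalP

universe u

/-- **Theorem.** Let `F` be a field of characteristic different from 2 and 3. Every trivial characteristic ideal of the
free Malcev algebra on countably many generators is contained in the Lie center. -/
theorem trivial_char_ideals (F : Type u) [Field F] (h2 : (2 : F) ≠ 0) (h3 : (3 : F) ≠ 0)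
    (I : Submodule F (FreeMalcev F ℕ)) (hI : IsIdl I) (ht : IsTriv I) (hc : IsChar I) :
    ∀ z ∈ I, z ∈ lieCenter (FreeMalcev F ℕ) := by
  have h23 : C23 F := ⟨h2, h3⟩
  by_cases h5 : (5 : F) = 0
  · exact main_of_H (s2h F) (HH_of_five F h5) I hI ht hc
  by_cases h7 : (7 : F) = 0
  · exact main_of_H (s2h F) (HH_of_seven F h7) I hI ht hc
  have h35 : CI 35 F := ⟨by
    have e : ((6 * 35 : ℕ) : F) = 2 * 3 * 5 * 7 := by norm_num
    rw [e]
    exact mul_ne_zero (mul_ne_zero (mul_ne_zero h2 h3) h5) h7⟩
  exact main_CI35 F I hI ht hc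

end Pool.Agent.MalP
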