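import Pool.Agent.MalP.CSp8
import Pool.Agent.MalP.C6

/-! # Homogeneous elements of `Qid` of degree at least 4 in a letter vanish -/

set_option autoImplicit false

namespace Pool.Agent.MalP

universe u

open CSp7Aux

namespace Q4Aux

/-- a list with two entries `i` -/
theorem exists_dup {l : List ℕ} {i : ℕ} (h : 2 ≤ l.count i) : ∃ t, l.Perm (i :: i :: t) := by
  have h1 : i ∈ l := List.count_pos_iff.mp (by omega)
  have h2 : (l.erase i).count i = l.count i - 1 := List.count_erase_self
  have h3 : i ∈ l.erase i := List.count_pos_iff.mp (by omega)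
  exact ⟨(l.erase i).erase i, (List.perm_cons_erase h1).trans ((List.perm_cons_erase h3).cons i)⟩

section

variable {F : Type u} [Field F] [CI 5 F]

theorem zero_of_neg {B : Type*} [AddCommGroup B] [Module F B] {b : B} (h : b = - b) : b = 0 := by
  have h1 : (2 : F) • b = 0 := by
    rw [two_smul]
    nth_rewrite 2 [h]
    exact add_neg_cancel b
  exact (smul_eq_zero.mp h1).resolve_left two_ne_zero

/-- skew functions vanish on lists with a repeated entry -/
theorem skew_dup {A B : Type*} [AddCommGroup B] [Module F B] {n : ℕ} {f : List A → B}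
    (hf : SkewL n f) {l : List ℕ} (g : ℕ → A) (hl : l.length = n) {i : ℕ} (h : 2 ≤ l.count i) :
    f (l.map g) = 0 := by
  obtain ⟨t, ht⟩ := exists_dup h
  have h1 : (l.map g).Perm (g i :: g i :: t.map g) := by
    have := ht.map g
    simpa using this
  have hl' : (l.map g).length = n := by rw [List.length_map, hl]
  have h2 : f (g i :: g i :: t.map g) = 0 := by
    have h3 := hf [] (g i) (g i) (t.map g) (by
      rw [List.nil_append, ← h1.length_eq, hl'])
    exact zero_of_neg (F := F) h3
  rcases hf.perm h1 hl' with h3 | h3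
  · rw [h3, h2]
  · rw [h3, h2, neg_zero]

theorem count_ge {l : List ℕ} {a i : ℕ} {m : Multiset ℕ} (h : (l : Multiset ℕ) + {a} = m)
    (hi : 4 ≤ m.count i) : 3 ≤ l.count i := by
  rw [← h, Multiset.count_add, Multiset.coe_count] at hi
  have h1 : ({a} : Multiset ℕ).count i ≤ 1 := by
    have := Multiset.count_le_card i ({a} : Multiset ℕ)
    rwa [Multiset.card_singleton] at this
  omega

variable (D : GE F)

theorem WL5 {m : Multiset ℕ} {i : ℕ} (hi : 4 ≤ m.count i) (hm : Multiset.card m = 6) :
    WLm D 5 m = ⊥ := by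
  unfold WLm
  rw [Submodule.span_eq_bot]
  rintro q ⟨xs, a, hl, hc, rfl⟩
  have h1 := count_ge hc hi
  have h2 := congrArg Multiset.card hc
  rw [Multiset.card_add, Multiset.coe_card, Multiset.card_singleton] at h2
  exact skew_dup (F := F) (i := i) (ew_skew5 (oQ D a)) (oQ D) (by omega) (by omega)

theorem WL6 {m : Multiset ℕ} {i : ℕ} (hi : 4 ≤ m.count i) (hm : Multiset.card m = 7) :
    WLm D 6 m = ⊥ := by
  unfold WLm
  rw [Submodule.span_eq_bot]
  rintro q ⟨xs, a, hl, hc, rfl⟩
  have h1 := count_ge hc hi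
  have h2 := congrArg Multiset.card hc
  rw [Multiset.card_add, Multiset.coe_card, Multiset.card_singleton] at h2
  obtain ⟨ys, b, rfl⟩ : ∃ ys b, xs = ys ++ [b] := by
    rcases List.eq_nil_or_concat xs with h | ⟨ys, b, h⟩
    · rw [h] at hl; simp at hl
    · exact ⟨ys, b, by simpa using h⟩
  have h5 : (ys ++ [b]).length = ys.length + 1 := by rw [List.length_append, List.length_singleton]
  rw [List.count_append] at h1
  have h3 : ([b] : List ℕ).count i ≤ 1 := List.count_le_length
  have h4 : ew F (ys.map (oQ D)) (oQ D a) = 0 :=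
    skew_dup (F := F) (i := i) (ew_skew5 (oQ D a)) (oQ D) (by omega) (by omega)
  rw [List.map_append, List.map_singleton, ew_append F (by rw [List.length_map]; omega), h4, zero_mul]

theorem VLm_bot {m : Multiset ℕ} {i : ℕ} (hi : 4 ≤ m.count i) [HPc F (MQ D)] : VLm D m = ⊥ := by
  unfold VLm
  rw [Submodule.span_eq_bot]
  rintro q ⟨V, a, hl, hc, rfl⟩
  have h1 := count_ge hc hi
  exact skew_dup (F := F) (i := i) (wf_skew F (MQ_isMalcev D) V.length hl (oQ D a)) (oQ D) rfl (by omega)

theorem ZLm_bot {m : Multiset ℕ} {i : ℕ} (hi : 4 ≤ m.count i) [HPc F (MQ D)] : ZLm D m = ⊥ := by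
  unfold ZLm
  rw [Submodule.span_eq_bot]
  rintro q ⟨U, a, c, hl, hc, rfl⟩
  have h1 : 3 ≤ ((U : Multiset ℕ) + {a}).count i := by
    rw [← hc, Multiset.count_add] at hi
    have h1 : ({c} : Multiset ℕ).count i ≤ 1 := by
      have := Multiset.count_le_card i ({c} : Multiset ℕ)
      rwa [Multiset.card_singleton] at this
    omega
  have h2 : 2 ≤ U.count i := by
    rw [Multiset.count_add, Multiset.coe_count] at h1
    have h1 : ({a} : Multiset ℕ).count i ≤ 1 := by
      have := Multiset.count_le_card i ({a} : Multiset ℕ)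
      rwa [Multiset.card_singleton] at this
    omega
  exact skew_dup (F := F) (Zt_skew F (MQ_isMalcev D) U.length hl (oQ D a) (oQ D c)) (oQ D) rfl h2

/-- seven letters, one of them at least four times -/
theorem exists_fin7 {m : Multiset ℕ} {i : ℕ} (hi : 4 ≤ m.count i) (hm : Multiset.card m = 7) :
    ∃ l : Fin 7 → ℕ, (Multiset.ofList (List.ofFn l)) = m ∧ l 2 = i ∧ l 3 = i := by
  have h1 : Multiset.replicate 2 i ≤ m := Multiset.le_count_iff_replicate_le.mp (by omega)
  obtain ⟨n, hn⟩ := Multiset.le_iff_exists_add.mp h1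
  have h2 : Multiset.card n = 5 := by
    have h3 := congrArg Multiset.card hn
    rw [Multiset.card_add, Multiset.card_replicate, hm] at h3
    omega
  obtain ⟨t, rfl⟩ : ∃ t : List ℕ, n = (t : Multiset ℕ) := ⟨n.toList, n.coe_toList.symm⟩
  rw [Multiset.coe_card] at h2
  match t, h2 with
  | [a, b, c, d, e], _ =>
    refine ⟨![a, b, i, i, c, d, e], ?_, rfl, rfl⟩
    rw [ofFn_seven, hn]
    show {a} + {b} + {i} + {i} + {c} + {d} + {e} = _
    have e1 : ((([a, b, c, d, e] : List ℕ)) : Multiset ℕ) = {a} + ({b} + ({c} + ({d} + {e}))) := rfl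
    have e2 : Multiset.replicate 2 i = {i} + {i} := rfl
    rw [e1, e2]
    abel

end

end Q4Aux

open Q4Aux

variable {F : Type u} [Field F] [CI 5 F]

/-- `card m < 6`: `Em_small`; `card m = 6`: `Em_six_letters`, `ew` is alternating in its five arguments (`ew_skew5`) and a
letter of degree 4 occurs at least three times there; `card m = 7`: `Em_seven`, `ew` with six letters is alternating in the
first five; `card m ≥ 8`: `Em_le`, `wf_skew`, `Zt_skew`. -/
theorem Qid_GQ_high (D : GE F) [HPc F (MQ D)] [R5c F (MQ D)] {m : Multiset ℕ} {i : ℕ} (hi : 4 ≤ m.count i)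
    {q : MQ D} (hq : q ∈ Qid F (MQ D)) (hm : q ∈ GQ D m) : q = 0 := by
  have h := Qid_GM D hq hm
  rcases Nat.lt_or_ge (Multiset.card m) 6 with h6 | h6
  · rwa [Em_small D h6, Submodule.mem_bot] at h
  rcases Nat.eq_or_lt_of_le h6 with h6 | h7
  · have h1 := Em_six_letters D h6.symm h
    rwa [WL5 D hi h6.symm, Submodule.mem_bot] at h1
  rcases Nat.eq_or_lt_of_le (show 7 ≤ Multiset.card m from h7) with h7 | h8
  · obtain ⟨l, hl, h2, h3⟩ := exists_fin7 hi h7.symm
    rw [← hl] at h
    have h1 := Em_seven D l h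
    rw [hl, WL6 D hi h7.symm, h2, h3, bot_sup_eq] at h1
    have h4 : ee F (oQ D (l 0) * oQ D (l 1)) (oQ D i) (oQ D i) (oQ D (l 4)) (oQ D (l 5)) (oQ D (l 6)) = 0 :=
      zero_of_neg (F := F) (ee_sw1 F _ (oQ D i) (oQ D i) _ _ _)
    rw [h4, Submodule.span_singleton_eq_bot.mpr rfl, Submodule.mem_bot] at h1
    exact h1
  · have h1 := Em_le D (show 8 ≤ Multiset.card m from h8) h
    rwa [VLm_bot D hi, ZLm_bot D hi, bot_sup_eq, Submodule.mem_bot] at h1

end Pool.Agent.MalP
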