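import Pool.Agent.MalP.QDefs
import Pool.Agent.MalP.IdlQuot
import Pool.Agent.MalP.MGrad

/-! # The ideal of the elements `P108 a b c d (v z) - P108 a b c d v z`

The quotient of a Malcev algebra by this ideal belongs to the variety `IsV`. -/

set_option autoImplicit false

namespace Pool.Agent.MalP

universe u v

variable (F : Type u) [Field F] (A : Type v) [NonUnitalNonAssocRing A] [Module F A]
  [IsScalarTower F A A] [SMulCommClass F A A]

/-- the ideal generated by all `P108 a b c d (v z) - P108 a b c d v z` -/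
noncomputable def QF : Submodule F A :=
  sInf {I | IsIdl I ∧ ∀ a b c d v z : A, P108 a b c d (v * z) - P108 a b c d v * z ∈ I}

variable {A}

omit [IsScalarTower F A A] [SMulCommClass F A A] in
theorem QF_idl : IsIdl (QF F A) := by
  intro a ha b
  unfold QF at ha ⊢
  rw [Submodule.mem_sInf] at ha
  simp only [Submodule.mem_sInf]
  exact ⟨fun I hI => (hI.1 a (ha I hI) b).1, fun I hI => (hI.1 a (ha I hI) b).2⟩

omit [IsScalarTower F A A] [SMulCommClass F A A] in
theorem f6_mem_QF (a b c d v z : A) : P108 a b c d (v * z) - P108 a b c d v * z ∈ QF F A := by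
  unfold QF
  rw [Submodule.mem_sInf]
  exact fun I hI => hI.2 a b c d v z

omit [IsScalarTower F A A] [SMulCommClass F A A] in
theorem QF_le {I : Submodule F A} (h1 : IsIdl I)
    (h2 : ∀ a b c d v z : A, P108 a b c d (v * z) - P108 a b c d v * z ∈ I) : QF F A ≤ I := by
  unfold QF
  exact sInf_le ⟨h1, h2⟩

variable {F} in
/-- homomorphisms -/
theorem hom_QF {B : Type v} [NonUnitalNonAssocRing B] [Module F B] [IsScalarTower F B B]
    [SMulCommClass F B B] (f : A →ₙₐ[F] B) {q : A} (hq : q ∈ QF F A) : f q ∈ QF F B := by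
  have h : QF F A ≤ (QF F B).comap (f : A →ₗ[F] B) := by
    refine QF_le F ?_ ?_
    · intro a ha b
      refine ⟨?_, ?_⟩
      · show f (a * b) ∈ QF F B
        rw [map_mul]
        exact (QF_idl F _ ha _).1
      · show f (b * a) ∈ QF F B
        rw [map_mul]
        exact (QF_idl F _ ha _).2
    · intro a b c d v z
      show f (P108 a b c d (v * z) - P108 a b c d v * z) ∈ QF F B
      rw [map_sub, map_mul, hom_P108, hom_P108, map_mul]
      exact f6_mem_QF F _ _ _ _ _ _
  exact h hq

/-- The quotient by `QF` belongs to the variety. -/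
theorem isV_quotF (hA : IsMalcev A) : IsV (IQ (QF F A) (QF_idl F)) := by
  have hmk : ∀ {a : A}, IQ.mkHom (QF_idl F (A := A)) a = 0 ↔ a ∈ QF F A := IQ.mk_eq_zero
  have hs : ∀ a : IQ (QF F A) (QF_idl F), ∃ b : A, IQ.mkHom (QF_idl F (A := A)) b = a :=
    fun a => IQ.mk_surj a
  refine { sq := ?_, mal := ?_, f6 := ?_ }
  · intro x
    obtain ⟨x, rfl⟩ := hs x
    rw [← map_mul, hA.sq, map_zero]
  · intro x y z
    obtain ⟨x, rfl⟩ := hs x
    obtain ⟨y, rfl⟩ := hs y
    obtain ⟨z, rfl⟩ := hs z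
    rw [← map_mul, ← hom_Jac, ← hom_Jac, ← map_mul, hA.mal]
  · intro a b c d v z
    obtain ⟨a, rfl⟩ := hs a
    obtain ⟨b, rfl⟩ := hs b
    obtain ⟨c, rfl⟩ := hs c
    obtain ⟨d, rfl⟩ := hs d
    obtain ⟨v, rfl⟩ := hs v
    obtain ⟨z, rfl⟩ := hs z
    rw [← map_mul, ← hom_P108, ← hom_P108, ← map_mul, ← sub_eq_zero, ← map_sub, hmk]
    exact f6_mem_QF F a b c d v z

/-- `QF` is contained in `Qid` if 10 is invertible -/
theorem QF_le_Qid (h2 : (2 : F) ≠ 0) (h5 : (5 : F) ≠ 0)
    (hB : ∀ a b c d v z : A, 10 • (P108 a b c d (v * z) - P108 a b c d v * z) =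
      ee F a b c d v z - ee F b c d v z a + ee F a c d v z b - ee F a b d v z c +
        ee F a b c v z d) : QF F A ≤ Qid F A := by
  refine QF_le F (Qid_idl F) ?_
  intro a b c d v z
  have h2' : 10 • (P108 a b c d (v * z) - P108 a b c d v * z) ∈ Qid F A := by
    rw [hB]
    exact Submodule.add_mem _ (Submodule.sub_mem _ (Submodule.add_mem _ (Submodule.sub_mem _
      (ee_mem_Qid F _ _ _ _ _ _) (ee_mem_Qid F _ _ _ _ _ _)) (ee_mem_Qid F _ _ _ _ _ _))
      (ee_mem_Qid F _ _ _ _ _ _)) (ee_mem_Qid F _ _ _ _ _ _)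
  have h3 : (10 : F) • (P108 a b c d (v * z) - P108 a b c d v * z) ∈ Qid F A := by
    have e : (10 : F) • (P108 a b c d (v * z) - P108 a b c d v * z) =
        10 • (P108 a b c d (v * z) - P108 a b c d v * z) := by
      have := Nat.cast_smul_eq_nsmul F 10 (P108 a b c d (v * z) - P108 a b c d v * z)
      rw [← this]
      norm_num
    rw [e]
    exact h2'
  have h10 : (10 : F) ≠ 0 := by
    have e : (10 : F) = 2 * 5 := by norm_num
    rw [e]
    exact mul_ne_zero h2 h5
  exact (Submodule.smul_mem_iff _ h10).1 h3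

end Pool.Agent.MalP
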