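import Pool.Agent.MalP.CTot2
import Pool.Agent.MalP.Certr5s

/-! # The identity (r5) in its sharp form for all fields in which 5 is invertible -/

set_option autoImplicit false

namespace Pool.Agent.MalP

universe u v

open Finset Equiv

namespace R5sAux

/-- absorption of an inner alternation over the arguments in the range of `e` -/
theorem Alt_via {A : Type v} [AddCommGroup A] {m n : ℕ} (e : Fin m ↪ Fin n)
    (g : (Fin m → A) → (Fin n → A) → A)
    (hg : ∀ (r : Fin m → A) (t : Fin n → A) (τ : Perm (Fin m)),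
      g r (t ∘ τ.viaFintypeEmbedding e) = g r t) (x : Fin n → A) :
    Alt n (fun t => Alt m (fun r => g r t) (t ∘ e)) x =
      m.factorial • Alt n (fun t => g (t ∘ e) t) x := by
  have e1 := Alt_absorb (fun τ : Perm (Fin m) => τ.viaFintypeEmbedding e)
    (fun t : Fin n → A => g (t ∘ e) t) x
  rw [Fintype.card_perm, Fintype.card_fin] at e1
  rw [← e1]
  congr 1
  funext t
  unfold Alt
  refine sum_congr rfl fun τ _ => ?_
  rw [Perm.viaFintypeEmbedding_sign, hg]
  congr 2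
  funext i
  show t (e (τ i)) = t ((τ.viaFintypeEmbedding e) (e i))
  rw [Perm.viaFintypeEmbedding_apply_image]

/-- the values outside the range do not change -/
theorem via_out {A : Type v} {m n : ℕ} (e : Fin m ↪ Fin n) (τ : Perm (Fin m)) (t : Fin n → A)
    {j : Fin n} (hj : j ∉ Set.range e) : (t ∘ τ.viaFintypeEmbedding e) j = t j := by
  show t ((τ.viaFintypeEmbedding e) j) = t j
  rw [Perm.viaFintypeEmbedding_apply_notMem_range τ e hj]

def e46 : Fin 4 ↪ Fin 6 := ⟨![2, 3, 4, 5], by decide⟩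

def e46' : Fin 4 ↪ Fin 6 := ⟨![0, 1, 2, 3], by decide⟩

def e56 : Fin 5 ↪ Fin 6 := ⟨![0, 1, 2, 3, 4], by decide⟩

def e67 : Fin 6 ↪ Fin 7 := ⟨![0, 1, 2, 3, 4, 5], by decide⟩

theorem e46_not {j : Fin 6} (hj : j = 0 ∨ j = 1) : j ∉ Set.range e46 := by
  rintro ⟨i, hi⟩
  revert hi hj
  revert i j
  decide

theorem e46'_not {j : Fin 6} (hj : j = 4 ∨ j = 5) : j ∉ Set.range e46' := by
  rintro ⟨i, hi⟩
  revert hi hj
  revert i j
  decide

theorem e56_not {j : Fin 6} (hj : j = 5) : j ∉ Set.range e56 := by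
  rintro ⟨i, hi⟩
  revert hi hj
  revert i j
  decide

theorem e67_not {j : Fin 7} (hj : j = 6) : j ∉ Set.range e67 := by
  rintro ⟨i, hi⟩
  revert hi hj
  revert i j
  decide

theorem comp46 {A : Type v} (t : Fin 6 → A) : t ∘ e46 = ![t 2, t 3, t 4, t 5] := by
  funext j; fin_cases j <;> rfl

theorem comp46' {A : Type v} (t : Fin 6 → A) : t ∘ e46' = ![t 0, t 1, t 2, t 3] := by
  funext j; fin_cases j <;> rfl

theorem comp56 {A : Type v} (t : Fin 6 → A) : t ∘ e56 = ![t 0, t 1, t 2, t 3, t 4] := by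
  funext j; fin_cases j <;> rfl

variable (F : Type u) [Field F] {A : Type v} [NonUnitalNonAssocRing A] [Module F A]
  [IsScalarTower F A A] [SMulCommClass F A A]

omit [IsScalarTower F A A] [SMulCommClass F A A] in
theorem mem_of_nsmul {S : Submodule F A} {n : ℕ} (hn : (n : F) ≠ 0) {x : A} (h : n • x ∈ S) :
    x ∈ S := by
  rw [← Nat.cast_smul_eq_nsmul F] at h
  have h1 := S.smul_mem ((n : F)⁻¹) h
  rwa [smul_smul, inv_mul_cancel₀ hn, one_smul] at h1

omit [IsScalarTower F A A] [SMulCommClass F A A] in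
/-- alternation over the first six arguments of an alternating map -/
theorem alt6 {S : Submodule F A} (G : A [⋀^Fin 7]→ₗ[F] (A ⧸ S)) (f : (Fin 6 → A) → A → A)
    (hG : ∀ y : Fin 7 → A, G y = S.mkQ (f (y ∘ e67) (y 6))) (y : Fin 7 → A) :
    S.mkQ (Alt 6 (fun t => f t (y 6)) (y ∘ e67)) = 720 • G y := by
  unfold Alt
  rw [map_sum]
  have h1 : ∀ σ : Perm (Fin 6), S.mkQ (Perm.sign σ • f ((y ∘ e67) ∘ σ) (y 6)) = G y := by
    intro σ
    have h2 := G.map_perm y (σ.viaFintypeEmbedding e67)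
    rw [Perm.viaFintypeEmbedding_sign, hG, via_out e67 σ y (e67_not rfl)] at h2
    have h3 : (y ∘ (σ.viaFintypeEmbedding e67)) ∘ e67 = (y ∘ e67) ∘ σ := by
      funext i
      show y ((σ.viaFintypeEmbedding e67) (e67 i)) = y (e67 (σ i))
      rw [Perm.viaFintypeEmbedding_apply_image]
    rw [h3] at h2
    rcases Int.units_eq_one_or (Perm.sign σ) with hs | hs
    · rw [hs, one_smul] at h2 ⊢
      exact h2
    · rw [hs, Units.neg_smul, one_smul] at h2 ⊢
      rw [map_neg, h2, neg_neg]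
  rw [sum_congr rfl fun σ _ => h1 σ, sum_const, Finset.card_univ, Fintype.card_perm,
    Fintype.card_fin]
  rfl

/-- an alternation of elements of a submodule -/
theorem alt_mem {n : ℕ} {S : Submodule F A} (f : (Fin n → A) → A) (x : Fin n → A)
    (h : ∀ σ : Perm (Fin n), f (x ∘ σ) ∈ S) : Alt n f x ∈ S := by
  refine Submodule.sum_mem _ fun σ _ => ?_
  rcases Int.units_eq_one_or (Perm.sign σ) with hs | hs
  · rw [hs, one_smul]
    exact h σ
  · rw [hs, Units.neg_smul, one_smul]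
    exact neg_mem (h σ)

theorem ee_mem (x0 x1 x2 x3 x4 a b : A) : ee F x0 x1 x2 x3 x4 a * b ∈ E1A F A :=
  Fsp_le F ![x0, x1, x2, x3, x4, a, b]
    (Fsp_mem F ![x0, x1, x2, x3, x4, a, b] ![0, 1, 2, 3, 4, 5, 6] (by decide))

end R5sAux

open R5sAux

variable (F : Type u) [Field F] {A : Type v} [NonUnitalNonAssocRing A] [Module F A]
  [IsScalarTower F A A] [SMulCommClass F A A] [CI 5 F]

/-- the identity (r5) in its sharp form -/
theorem r5c_of5 (h : IsMalcev A) : R5c F A where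
  out := by
    intro y
    obtain ⟨G, hG⟩ := exists_GA F h
    obtain ⟨H, hH⟩ := exists_HA F h
    have n24 : ((24 : ℕ) : F) ≠ 0 := CI.ne5 F 3 1 0
    have n120 : ((120 : ℕ) : F) ≠ 0 := CI.ne5 F 3 1 1
    have n150 : ((150 : ℕ) : F) ≠ 0 := CI.ne5 F 1 1 2
    have key := super_alt idsM_ml 6 par1 _ r5sEx (by decide +kernel) (by decide +kernel)
      (by decide) rfl (by decide +kernel) cert_r5sEx (h.algM 5 F) (wv (y 6) 0 0 0) (y ∘ e67)
    have k1 : Alt 6 (fun t => 10 • pe1B (t 0 * t 1) ![t 2, t 3, t 4, t 5] (y 6) -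
        25 • pe ![t 0, t 1, t 2, t 3, t 4] (t 5 * y 6) -
        110 • (pe ![t 0, t 1, t 2, t 3, t 4] (t 5) * y 6) +
        25 • (pe ![t 0, t 1, t 2, t 3, t 4] (y 6) * t 5) +
        17 • (pe1B (y 6) ![t 0, t 1, t 2, t 3] (t 4) * t 5)) (y ∘ e67) = 0 := key
    rw [Alt_add, Alt_add, Alt_sub, Alt_sub, Alt_nsmul, Alt_nsmul, Alt_nsmul, Alt_nsmul,
      Alt_nsmul] at k1
    -- the five alternations
    have a1 : Alt 6 (fun t => ee F (t 0 * t 1) (t 2) (t 3) (t 4) (t 5) (y 6)) (y ∘ e67) =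
        24 • Alt 6 (fun t => pe1B (t 0 * t 1) ![t 2, t 3, t 4, t 5] (y 6)) (y ∘ e67) := by
      have e1 := Alt_via e46 (fun (r : Fin 4 → A) (t : Fin 6 → A) => pe1B (t 0 * t 1) r (y 6))
        (fun r t τ => by
          rw [via_out e46 τ t (e46_not (Or.inl rfl)), via_out e46 τ t (e46_not (Or.inr rfl))])
        (y ∘ e67)
      simp only [comp46, ← ee1 F] at e1
      exact e1
    have a2 : Alt 6 (fun t => ee F (t 0) (t 1) (t 2) (t 3) (t 4) (t 5 * y 6)) (y ∘ e67) =
        120 • Alt 6 (fun t => pe ![t 0, t 1, t 2, t 3, t 4] (t 5 * y 6)) (y ∘ e67) := by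
      have e1 := Alt_via e56 (fun (r : Fin 5 → A) (t : Fin 6 → A) => pe r (t 5 * y 6))
        (fun r t τ => by rw [via_out e56 τ t (e56_not rfl)]) (y ∘ e67)
      simp only [comp56, ← ee0 F] at e1
      exact e1
    have a3 : Alt 6 (fun t => ee F (t 0) (t 1) (t 2) (t 3) (t 4) (t 5) * y 6) (y ∘ e67) =
        120 • Alt 6 (fun t => pe ![t 0, t 1, t 2, t 3, t 4] (t 5) * y 6) (y ∘ e67) := by
      have e1 := Alt_via e56 (fun (r : Fin 5 → A) (t : Fin 6 → A) => pe r (t 5) * y 6)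
        (fun r t τ => by rw [via_out e56 τ t (e56_not rfl)]) (y ∘ e67)
      simp only [comp56, Alt_mul, ← ee0 F] at e1
      simp only [Alt_mul]
      exact e1
    have a4 : Alt 6 (fun t => ee F (t 0) (t 1) (t 2) (t 3) (t 4) (y 6) * t 5) (y ∘ e67) =
        120 • Alt 6 (fun t => pe ![t 0, t 1, t 2, t 3, t 4] (y 6) * t 5) (y ∘ e67) := by
      have e1 := Alt_via e56 (fun (r : Fin 5 → A) (t : Fin 6 → A) => pe r (y 6) * t 5)
        (fun r t τ => by rw [via_out e56 τ t (e56_not rfl)]) (y ∘ e67)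
      simp only [comp56, Alt_mul, ← ee0 F] at e1
      exact e1
    have a5 : Alt 6 (fun t => ee F (y 6) (t 0) (t 1) (t 2) (t 3) (t 4) * t 5) (y ∘ e67) =
        24 • Alt 6 (fun t => pe1B (y 6) ![t 0, t 1, t 2, t 3] (t 4) * t 5) (y ∘ e67) := by
      have e1 := Alt_via e46' (fun (r : Fin 4 → A) (t : Fin 6 → A) => pe1B (y 6) r (t 4) * t 5)
        (fun r t τ => by
          rw [via_out e46' τ t (e46'_not (Or.inl rfl)), via_out e46' τ t (e46'_not (Or.inr rfl))])
        (y ∘ e67)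
      simp only [comp46', Alt_mul, ← ee1 F] at e1
      exact e1
    have m3 : Alt 6 (fun t => pe ![t 0, t 1, t 2, t 3, t 4] (t 5) * y 6) (y ∘ e67) ∈ E1A F A :=
      mem_of_nsmul F n120 (a3 ▸ alt_mem F _ _ fun σ => ee_mem F _ _ _ _ _ _ _)
    have m4 : Alt 6 (fun t => pe ![t 0, t 1, t 2, t 3, t 4] (y 6) * t 5) (y ∘ e67) ∈ E1A F A :=
      mem_of_nsmul F n120 (a4 ▸ alt_mem F _ _ fun σ => ee_mem F _ _ _ _ _ _ _)
    have m5 : Alt 6 (fun t => pe1B (y 6) ![t 0, t 1, t 2, t 3] (t 4) * t 5) (y ∘ e67) ∈ E1A F A :=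
      mem_of_nsmul F n24 (a5 ▸ alt_mem F _ _ fun σ => ee_mem F _ _ _ _ _ _ _)
    have g1 := alt6 F G (fun t z => ee F (t 0 * t 1) (t 2) (t 3) (t 4) (t 5) z)
      (fun y => hG y) y
    have g2 := alt6 F H (fun t z => ee F (t 0) (t 1) (t 2) (t 3) (t 4) (t 5 * z))
      (fun y => hH y) y
    rw [a1, map_nsmul] at g1
    rw [a2, map_nsmul] at g2
    rw [← Submodule.Quotient.mk_eq_zero, ← Submodule.mkQ_apply] at m3 m4 m5
    have k2 := congrArg (E1A F A).mkQ k1
    simp only [map_add, map_sub, map_nsmul, m3, m4, m5, smul_zero, map_zero, add_zero,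
      sub_zero] at k2
    set X1 := (E1A F A).mkQ (Alt 6 (fun t => pe1B (t 0 * t 1) ![t 2, t 3, t 4, t 5] (y 6)) (y ∘ e67))
    set X2 := (E1A F A).mkQ (Alt 6 (fun t => pe ![t 0, t 1, t 2, t 3, t 4] (t 5 * y 6)) (y ∘ e67))
    have f1 : X1 = 30 • G y := by
      rw [← sub_eq_zero]
      apply CTot2Aux.nsmul_zero F 24 n24
      rw [smul_sub, g1, smul_smul]
      exact sub_self _
    have f2 : X2 = 6 • H y := by
      rw [← sub_eq_zero]
      apply CTot2Aux.nsmul_zero F 120 n120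
      rw [smul_sub, g2, smul_smul]
      exact sub_self _
    have f3 : 2 • G y - H y = 0 := by
      apply CTot2Aux.nsmul_zero F 150 n150
      rw [← k2, f1, f2]
      module
    rw [← Submodule.Quotient.mk_eq_zero, ← Submodule.mkQ_apply, map_sub, map_nsmul, ← hG, ← hH]
    exact f3

end Pool.Agent.MalP
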