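import Pool.Agent.MalP.CEndQ
import Pool.Agent.MalP.Q4
import Pool.Agent.MalP.R5s
import Pool.Agent.MalP.QF

/-! # The kernel of `phi` on `QF` is in the graded ideal `D.E` -/

set_option autoImplicit false

namespace Pool.Agent.MalP

universe u v

section

variable {F : Type u} [Field F] {A : Type v} [NonUnitalNonAssocRing A] [Module F A]
  [IsScalarTower F A A] [SMulCommClass F A A] {B : Type v} [NonUnitalNonAssocRing B] [Module F B]
  [IsScalarTower F B B] [SMulCommClass F B B]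

/-- homomorphisms -/
theorem hom_Qid (f : A →ₙₐ[F] B) {q : A} (hq : q ∈ Qid F A) : f q ∈ Qid F B := by
  have h : Qid F A ≤ (Qid F B).comap (f : A →ₗ[F] B) := by
    refine Qid_le F ?_ ?_
    · intro a ha b
      refine ⟨?_, ?_⟩
      · show f (a * b) ∈ Qid F B
        rw [map_mul]
        exact (Qid_idl F _ ha _).1
      · show f (b * a) ∈ Qid F B
        rw [map_mul]
        exact (Qid_idl F _ ha _).2
    · intro x0 x1 x2 x3 x4 y
      show f (ee F x0 x1 x2 x3 x4 y) ∈ Qid F B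
      rw [hom_ee]
      exact ee_mem_Qid F _ _ _ _ _ _
  exact h hq

end

variable {F : Type u} [Field F] [CI 5 F]

theorem QF_le_Qid5 {A : Type v} [NonUnitalNonAssocRing A] [Module F A] [IsScalarTower F A A]
    [SMulCommClass F A A] (hA : IsMalcev A) : QF F A ≤ Qid F A :=
  QF_le_Qid F C23.two (CI.five F) (base_B0 F hA)

variable (D : GE F) [HPc F (MQ D)]

theorem inj_E {L : Finset ℕ} {q : FreeMalcev F ℕ} (hq : q ∈ QF F (FreeMalcev F ℕ)) (hm : q ∈ GM F L.val)
    (h0 : phi F q = 0) : q ∈ D.E := by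
  have : R5c F (MQ D) := r5c_of5 F (MQ_isMalcev D)
  rw [← mq_eq_zero]
  exact Q_injQ D (L := L) (hom_Qid (mq D) (QF_le_Qid5 FreeMalcev.isMalcev hq)) (mq_mem_GQ hm)
    (by rw [phiQ_mq]; exact h0)

theorem high_E {m : Multiset ℕ} {i : ℕ} (hi : 4 ≤ m.count i) {q : FreeMalcev F ℕ}
    (hq : q ∈ QF F (FreeMalcev F ℕ)) (hm : q ∈ GM F m) : q ∈ D.E := by
  have : R5c F (MQ D) := r5c_of5 F (MQ_isMalcev D)
  rw [← mq_eq_zero]
  exact Qid_GQ_high D hi (hom_Qid (mq D) (QF_le_Qid5 FreeMalcev.isMalcev hq)) (mq_mem_GQ hm)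

end Pool.Agent.MalP
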