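import Pool.Agent.MalP.HH4
import Pool.Agent.MalP.InjE
import Pool.Agent.MalP.E.S2p

/-! # Trivial characteristic ideals: characteristic 0 or at least 11 -/

set_option autoImplicit false

namespace Pool.Agent.MalP

universe u

/-- (S2) -/
theorem s2h (F : Type u) [Field F] [C23 F] : S2H F :=
  fun _ h B _ _ _ _ hB x b c => S2p h B hB x b c

theorem HH_of_CI35 (F : Type u) [Field F] [CI 35 F] : HH F := by
  have : HPc F (MQ (GE.bot F)) := ⟨fun x0 x1 x2 x3 x4 u v c =>
    base_P35 F (MQ_isMalcev (GE.bot F)) x0 x1 x2 x3 x4 u v c⟩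
  refine HH.of_inj (s2h F) ?_ ?_
  · intro L q hq hm h0
    have h := inj_E (GE.bot F) hq hm h0
    exact (Submodule.mem_bot F).1 h
  · intro m i hi q hq hm
    have h := high_E (GE.bot F) hi hq hm
    exact (Submodule.mem_bot F).1 h

/-- **Theorem.** Characteristic 0 or at least 11. -/
theorem main_CI35 (F : Type u) [Field F] [CI 35 F] (I : Submodule F (FreeMalcev F ℕ)) (hi : IsIdl I)
    (ht : IsTriv I) (hc : IsChar I) : ∀ z ∈ I, z ∈ lieCenter (FreeMalcev F ℕ) :=
  main_of_H (s2h F) (HH_of_CI35 F) I hi ht hc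

end Pool.Agent.MalP
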