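import Pool.Agent.MalP.X.S1K
import Pool.Agent.MalP.Der

/-! # The Lie center of the free Malcev algebra and the split seven-dimensional algebra

The Lie center of `C7` over a field is zero; the elements of the Lie center of the free Malcev algebra are identities of
`C7`. -/

set_option autoImplicit false
set_option linter.unusedSimpArgs false

namespace Pool.Agent.MalP

universe u

namespace LC7Aux

open X.C7RAux

variable {K : Type u} [Field K]

theorem jac_formula (g a b : X.C7RE K) : (3 : K) • mulf (mulf a b) g =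
    (mulf (mulf g a) b + mulf (mulf a b) g + mulf (mulf b g) a) +
      (3 : K) • (sf g a • b - sf g b • a) := by
  refine X.C7RAux.ext ?_ (X.C7RAux.ext3 ?_ ?_ ?_) (X.C7RAux.ext3 ?_ ?_ ?_) <;>
    (simp only [mulf_1, mulf_u0, mulf_u1, mulf_u2, mulf_v0, mulf_v1, mulf_v2, sf_eq,
      Prod.fst_add, Prod.snd_add, Prod.smul_fst, Prod.smul_snd, Pi.add_apply, Pi.smul_apply,
      Prod.fst_sub, Prod.snd_sub, Pi.sub_apply, Prod.fst_zero, Prod.snd_zero, Pi.zero_apply,
      smul_eq_mul]; ring)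

/-- a point in coordinates -/
def pt (x0 u0 u1 u2 v0 v1 v2 : K) : X.C7RE K := (x0, ![u0, u1, u2], ![v0, v1, v2])

theorem key (hc : (2 : K) ≠ 0) {g : X.C7RE K}
    (h : ∀ a b, mulf (mulf a b) g = sf g a • b - sf g b • a) : g = 0 := by
  have h1 := h (pt 0 1 0 0 0 0 0) (pt 0 0 1 0 0 0 0)
  have h2 := h (pt 0 0 1 0 0 0 0) (pt 0 0 0 1 0 0 0)
  have h3 := h (pt 0 0 0 1 0 0 0) (pt 0 1 0 0 0 0 0)
  have a1 := congrArg (fun z : X.C7RE K => z.1) h1
  have a2 := congrArg (fun z : X.C7RE K => z.1) h2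
  have a3 := congrArg (fun z : X.C7RE K => z.1) h3
  have b1 := congrArg (fun z : X.C7RE K => z.2.1 0) h1
  have b2 := congrArg (fun z : X.C7RE K => z.2.1 1) h1
  have b3 := congrArg (fun z : X.C7RE K => z.2.1 1) h2
  have c1 := congrArg (fun z : X.C7RE K => z.2.2 2) h1
  simp only [mulf_1, mulf_u0, mulf_u1, mulf_u2, mulf_v0, mulf_v1, mulf_v2, sf_eq,
      Prod.fst_add, Prod.snd_add, Prod.smul_fst, Prod.smul_snd, Pi.add_apply, Pi.smul_apply,
      Prod.fst_sub, Prod.snd_sub, Pi.sub_apply, Prod.fst_zero, Prod.snd_zero, Pi.zero_apply,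
      smul_eq_mul, pt, Matrix.cons_val_zero, Matrix.cons_val_one, Matrix.cons_val] at a1 a2 a3 b1 b2 b3 c1
  have h4 : (2 : K) * 2 ≠ 0 := mul_ne_zero hc hc
  have u2 : g.2.1 2 = 0 := by
    refine (mul_eq_zero.1 (?_ : (2 : K) * 2 * g.2.1 2 = 0)).resolve_left h4
    linear_combination -a1
  have u0 : g.2.1 0 = 0 := by
    refine (mul_eq_zero.1 (?_ : (2 : K) * 2 * g.2.1 0 = 0)).resolve_left h4
    linear_combination -a2
  have u1 : g.2.1 1 = 0 := by
    refine (mul_eq_zero.1 (?_ : (2 : K) * 2 * g.2.1 1 = 0)).resolve_left h4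
    linear_combination -a3
  have v1 : g.2.2 1 = 0 := by
    refine (mul_eq_zero.1 (?_ : (2 : K) * g.2.2 1 = 0)).resolve_left hc
    linear_combination b1
  have v0 : g.2.2 0 = 0 := by
    refine (mul_eq_zero.1 (?_ : (2 : K) * g.2.2 0 = 0)).resolve_left hc
    linear_combination -b2
  have v2 : g.2.2 2 = 0 := by
    refine (mul_eq_zero.1 (?_ : (2 : K) * g.2.2 2 = 0)).resolve_left hc
    linear_combination b3
  have g0 : g.1 = 0 := by
    refine (mul_eq_zero.1 (?_ : (2 : K) * g.1 = 0)).resolve_left hc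
    linear_combination c1
  exact X.C7RAux.ext g0 (X.C7RAux.ext3 u0 u1 u2) (X.C7RAux.ext3 v0 v1 v2)

end LC7Aux

variable {F : Type u} [Field F] {K : Type u} [Field K] [Algebra F K]

/-- the Lie center of `C7` is zero -/
theorem C7R_JN (hc : (2 : K) ≠ 0) (h3 : (3 : K) ≠ 0) (g : (X.C7R F K).Mal)
    (h : ∀ a b : (X.C7R F K).Mal, Jac g a b = 0) : g = 0 := by
  apply CPA.Mal.ext
  refine LC7Aux.key (g := g.e) hc fun a b => ?_
  have h1 : X.C7RAux.mulf (X.C7RAux.mulf g.e a) b + X.C7RAux.mulf (X.C7RAux.mulf a b) g.e +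
      X.C7RAux.mulf (X.C7RAux.mulf b g.e) a = 0 := congrArg CPA.Mal.e (h ⟨a⟩ ⟨b⟩)
  have h2 := LC7Aux.jac_formula (g.e : X.C7RE K) a b
  rw [h1, zero_add] at h2
  have h4 := congrArg (fun z : X.C7RE K => (3 : K)⁻¹ • z) h2
  simp only [smul_smul, inv_mul_cancel₀ h3, one_smul] at h4
  exact h4

variable [C23 F]

/-- the elements of the Lie center of the free Malcev algebra are identities of `C7` -/
theorem LC_C7_ev (hc : (2 : K) ≠ 0) (h3 : (3 : K) ≠ 0) {p : FA F}
    (hz : FreeMalcev.mk p ∈ lieCenter (FreeMalcev F ℕ)) (x : ℕ → (X.C7R F K).Mal) :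
    ev x p = 0 := by
  obtain ⟨N, hN⟩ := X.exists_bdd p
  refine C7R_JN hc h3 _ fun a b => ?_
  let φ : FreeMalcev F ℕ →ₙₐ[F] (X.C7R F K).Mal := FreeMalcev.lift (CPA.Mal.isMalcev (X.C7R F K))
    (fun n => if n < N then x n else if n = N then a else b)
  have h1 : φ (FreeMalcev.mk p) = ev x p := by
    show FreeMalcev.lift _ _ (FreeMalcev.mk p) = _
    rw [FreeMalcev.lift_mk]
    refine hN _ _ fun i hi => ?_
    show (if i < N then x i else if i = N then a else b) = x i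
    rw [if_pos hi]
  have h4 : φ (FreeMalcev.of N) = a := by
    show FreeMalcev.lift _ _ (FreeMalcev.of N) = a
    rw [FreeMalcev.lift_of, if_neg (lt_irrefl N), if_pos rfl]
  have h5 : φ (FreeMalcev.of (N + 1)) = b := by
    show FreeMalcev.lift _ _ (FreeMalcev.of (N + 1)) = b
    rw [FreeMalcev.lift_of, if_neg (by omega), if_neg (by omega)]
  have h6 := congrArg φ (hz (FreeMalcev.of N) (FreeMalcev.of (N + 1)))
  rwa [hom_Jac, map_zero, h1, h4, h5] at h6

/-- homomorphisms to `C7` vanish on the Lie center -/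
theorem LC_C7 (hc : (2 : K) ≠ 0) (h3 : (3 : K) ≠ 0) {z : FreeMalcev F ℕ}
    (hz : z ∈ lieCenter (FreeMalcev F ℕ)) (f : FreeMalcev F ℕ →ₙₐ[F] (X.C7R F K).Mal) :
    f z = 0 := by
  obtain ⟨p, rfl⟩ := FreeMalcev.mk_surj z
  rw [mk_eq_ev, hom_ev]
  exact LC_C7_ev hc h3 hz _

end Pool.Agent.MalP
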