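import Pool.Agent.MalP.MGrad
import Pool.Agent.MalP.Der

/-! # (S0): trivial ideals vanish in all associative algebras -/

set_option autoImplicit false

namespace Pool.Agent.MalP

universe u

/-- the commutator algebra of an associative algebra -/
@[ext] structure Cm (R : Type u) : Type u where
  e : R

namespace Cm

variable {R : Type u} [Ring R]

instance : Zero (Cm R) := ⟨⟨0⟩⟩
instance : Add (Cm R) := ⟨fun x y => ⟨x.e + y.e⟩⟩
instance : Neg (Cm R) := ⟨fun x => ⟨-x.e⟩⟩
instance : Mul (Cm R) := ⟨fun x y => ⟨x.e * y.e - y.e * x.e⟩⟩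

@[simp] theorem zero_e : (0 : Cm R).e = 0 := rfl
@[simp] theorem add_e (x y : Cm R) : (x + y).e = x.e + y.e := rfl
@[simp] theorem neg_e (x : Cm R) : (-x).e = -x.e := rfl
@[simp] theorem mul_e (x y : Cm R) : (x * y).e = x.e * y.e - y.e * x.e := rfl

instance : NonUnitalNonAssocRing (Cm R) where
  add_assoc := fun x y z => by ext; simp [add_assoc]
  zero_add := fun x => by ext; simp
  add_zero := fun x => by ext; simp
  add_comm := fun x y => by ext; simp [add_comm]
  neg_add_cancel := fun x => by ext; simp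
  nsmul := nsmulRec
  zsmul := zsmulRec
  left_distrib := fun x y z => by ext; simp only [mul_e, add_e, mul_add, add_mul]; abel
  right_distrib := fun x y z => by ext; simp only [mul_e, add_e, mul_add, add_mul]; abel
  zero_mul := fun x => by ext; simp
  mul_zero := fun x => by ext; simp

variable {F : Type u} [Field F] [Algebra F R]

instance : SMul F (Cm R) := ⟨fun r x => ⟨r • x.e⟩⟩

@[simp] theorem smul_e (r : F) (x : Cm R) : (r • x).e = r • x.e := rfl

instance : Module F (Cm R) where
  one_smul := fun x => by ext; simp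
  mul_smul := fun r t x => by ext; simp [mul_smul]
  smul_zero := fun r => by ext; simp
  smul_add := fun r x y => by ext; simp
  add_smul := fun r t x => by ext; simp [add_smul]
  zero_smul := fun x => by ext; simp

instance : IsScalarTower F (Cm R) (Cm R) where
  smul_assoc := fun r x y => by ext; simp [smul_sub]

instance : SMulCommClass F (Cm R) (Cm R) where
  smul_comm := fun r x y => by ext; simp [smul_sub]

theorem isMalcev : IsMalcev (Cm R) where
  sq := fun x => by ext; simp
  mal := fun x y z => by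
    ext
    simp only [Jac, mul_e, add_e]
    noncomm_ring

end Cm

variable (F : Type u) [Field F]

/-- the elements which vanish in all associative algebras (for the commutator) -/
noncomputable def AZ : Submodule F (FreeMalcev F ℕ) where
  carrier := {p | ∀ (R : Type u) [Ring R] [Algebra F R] (x : ℕ → Cm R),
    FreeMalcev.lift (Cm.isMalcev (R := R)) x p = 0}
  zero_mem' := fun R _ _ x => map_zero _
  add_mem' := fun {a b} ha hb R _ _ x => by rw [map_add, ha R x, hb R x, add_zero]
  smul_mem' := fun r a ha R _ _ x => by rw [map_smul, ha R x, smul_zero]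

theorem mem_AZ {p : FreeMalcev F ℕ} : p ∈ AZ F ↔ ∀ (R : Type u) [Ring R] [Algebra F R] (x : ℕ → Cm R),
    FreeMalcev.lift (Cm.isMalcev (R := R)) x p = 0 := Iff.rfl

theorem AZ_idl : IsIdl (AZ F) := by
  intro a ha b
  constructor
  · intro R _ _ x
    rw [map_mul, ha R x, zero_mul]
  · intro R _ _ x
    rw [map_mul, ha R x, mul_zero]

namespace S0Aux

variable {F : Type u} [Field F]

/-- a homomorphism of associative algebras is a homomorphism of the commutator algebras -/
noncomputable def cmMap {R S : Type u} [Ring R] [Algebra F R] [Ring S] [Algebra F S] (f : R →ₐ[F] S) :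
    Cm R →ₙₐ[F] Cm S where
  toFun x := ⟨f x.e⟩
  map_smul' r x := by
    apply Cm.ext
    simp
  map_zero' := by
    apply Cm.ext
    simp
  map_add' x y := by
    apply Cm.ext
    simp
  map_mul' x y := by
    apply Cm.ext
    simp

/-- the upper left corner -/
noncomputable def corner (R : Type u) [Ring R] [Algebra F R] : Cm R →ₙₐ[F] Cm (Matrix (Fin 2) (Fin 2) R) where
  toFun x := ⟨!![x.e, 0; 0, 0]⟩
  map_smul' r x := by
    apply Cm.ext
    ext i j
    fin_cases i <;> fin_cases j <;> simp
  map_zero' := by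
    apply Cm.ext
    ext i j
    fin_cases i <;> fin_cases j <;> simp
  map_add' x y := by
    apply Cm.ext
    ext i j
    fin_cases i <;> fin_cases j <;> simp
  map_mul' x y := by
    apply Cm.ext
    ext i j
    fin_cases i <;> fin_cases j <;> simp [Matrix.mul_apply, Fin.sum_univ_two]

/-- a homomorphism together with a derivation, as upper triangular matrices -/
noncomputable def eps {R : Type u} [Ring R] [Algebra F R] (φ : FreeMalcev F ℕ →ₙₐ[F] Cm R)
    (D : FreeMalcev F ℕ →ₗ[F] FreeMalcev F ℕ) (hD : IsDer D) :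
    FreeMalcev F ℕ →ₙₐ[F] Cm (Matrix (Fin 2) (Fin 2) R) where
  toFun y := ⟨!![(φ y).e, (φ (D y)).e; 0, (φ y).e]⟩
  map_smul' r x := by
    apply Cm.ext
    ext i j
    fin_cases i <;> fin_cases j <;> simp
  map_zero' := by
    apply Cm.ext
    ext i j
    fin_cases i <;> fin_cases j <;> simp
  map_add' x y := by
    apply Cm.ext
    ext i j
    fin_cases i <;> fin_cases j <;> simp
  map_mul' x y := by
    apply Cm.ext
    ext i j
    fin_cases i <;> fin_cases j <;> simp [Matrix.mul_apply, Fin.sum_univ_two, hD x y] <;> abel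

end S0Aux

/-- closed under derivations: for `x : ℕ → Cm R` and a derivation `D` evaluate at
`x i + ε (value of D (of i))` in the dual numbers `R[ε]` (`TrivSqZeroExt R R` or `DualNumber R`) -/
theorem AZ_char : IsChar (AZ F) := by
  intro D hD a ha R _ _ x
  have h1 := ha (Matrix (Fin 2) (Fin 2) R)
    (fun i => S0Aux.eps (FreeMalcev.lift (Cm.isMalcev (R := R)) x) D hD (FreeMalcev.of i))
  rw [← FreeMalcev.lift_unique Cm.isMalcev _
    (S0Aux.eps (FreeMalcev.lift (Cm.isMalcev (R := R)) x) D hD) (fun i => rfl)] at h1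
  have h2 := congrArg (fun z : Cm (Matrix (Fin 2) (Fin 2) R) => z.e 0 1) h1
  apply Cm.ext
  exact h2

variable {F} in
/-- the homogeneous components: evaluate at `single (single i 1) (x i)` in `AddMonoidAlgebra R (ℕ →₀ ℕ)` -/
theorem AZ_comp [C23 F] {p : FreeMalcev F ℕ} (hp : p ∈ AZ F) (m : Multiset ℕ) : piM F m p ∈ AZ F := by
  classical
  intro R _ _ x
  let φ : FreeMalcev F ℕ →ₙₐ[F] Cm R := FreeMalcev.lift (Cm.isMalcev (R := R)) x
  let χ : FreeMalcev F ℕ →ₙₐ[F] Cm (AddMonoidAlgebra R (Multiset ℕ)) :=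
    FreeMalcev.lift Cm.isMalcev (fun i => ⟨AddMonoidAlgebra.single {i} (x i).e⟩)
  have hword : ∀ w : FreeMagma ℕ, χ (wdM w) =
      ⟨AddMonoidAlgebra.single (content w) (φ (wdM w)).e⟩ := by
    intro w
    induction w using FreeMagma.rec with
    | of k =>
      rw [← of_eq_wdM]
      have h1 : χ (FreeMalcev.of k) = ⟨AddMonoidAlgebra.single {k} (x k).e⟩ :=
        FreeMalcev.lift_of _ _ k
      have h2 : φ (FreeMalcev.of k) = x k := FreeMalcev.lift_of _ _ k
      rw [h1, h2]
      rfl
    | mul a b iha ihb =>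
      rw [← wdM_mul, map_mul, map_mul, iha, ihb]
      apply Cm.ext
      have hc : content (FreeMagma.mul a b) = content a + content b := rfl
      simp only [Cm.mul_e, AddMonoidAlgebra.single_mul_single, hc]
      rw [add_comm (content b) (content a), ← AddMonoidAlgebra.single_sub]
  have hcoef : ∀ y : FreeMalcev F ℕ,
      (AddMonoidAlgebra.coeff (χ y).e) m = (φ (piM F m y)).e := by
    intro y
    have hy : y ∈ Submodule.span F (Set.range (wdM : FreeMagma ℕ → FreeMalcev F ℕ)) := by
      rw [span_wdM]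
      trivial
    refine Submodule.span_induction (p := fun y _ =>
      (AddMonoidAlgebra.coeff (χ y).e) m = (φ (piM F m y)).e) ?_ ?_ ?_ ?_ hy
    · rintro _ ⟨w, rfl⟩
      rw [hword w, piM_wdM]
      by_cases h : content w = m
      · rw [if_pos h, ← h]
        simp
      · rw [if_neg h, map_zero]
        simp [h]
    · simp
    · intro y z _ _ hy hz
      rw [map_add, map_add, map_add, Cm.add_e, Cm.add_e, ← hy, ← hz]
      rfl
    · intro r y _ hy
      rw [map_smul, map_smul, map_smul, Cm.smul_e, Cm.smul_e, ← hy]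
      rfl
  have h0 : χ p = 0 := hp _ _
  apply Cm.ext
  have h1 := hcoef p
  rw [h0] at h1
  change (φ (piM F m p)).e = 0
  rw [← h1]
  rfl

variable {F} in
/-- Let `p ∈ I`, `c = of N` a letter which does not occur in `p`: `p * (p * c) = 0`. In `FreeAlgebra F ℕ`, `q` the image
of `p`: `q q c - 2 q c q + c q q = 0`. Then `q q = 0` (map the letters `i ≠ N` to `diag(of i, 0)` and `c` to `E_12` in the
matrices over the free algebra), so `q = 0` (`FreeAlgebra F ℕ` is a domain); every `R` is a quotient of evaluations of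
the free algebra. -/
theorem triv_le_AZ [C23 F] {I : Submodule F (FreeMalcev F ℕ)} (hI : IsIdl I) (ht : IsTriv I) : I ≤ AZ F := by
  intro p hp
  obtain ⟨N, -, hN⟩ := exists_bound p
  have h1 : p * (p * FreeMalcev.of N) = 0 := ht p hp _ (hI p hp _).1
  let A := FreeAlgebra F ℕ
  let θ : FreeMalcev F ℕ →ₙₐ[F] Cm A :=
    FreeMalcev.lift (Cm.isMalcev (R := A)) (fun i => ⟨FreeAlgebra.ι F i⟩)
  have hθ : ∀ i, θ (FreeMalcev.of i) = ⟨FreeAlgebra.ι F i⟩ := fun i => FreeMalcev.lift_of _ _ i
  -- the letters from `N` on are shifted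
  let f : FreeMalcev F ℕ →ₙₐ[F] FreeMalcev F ℕ :=
    FreeMalcev.lift FreeMalcev.isMalcev
      (fun j => if j < N then FreeMalcev.of j else FreeMalcev.of (j + 1))
  have hf : ∀ j, f (FreeMalcev.of j) = if j < N then FreeMalcev.of j else FreeMalcev.of (j + 1) :=
    fun j => FreeMalcev.lift_of _ _ j
  have hfp : f p = p := hN f (NonUnitalAlgHom.id F _) fun j hj => by
    rw [hf, if_pos hj]
    rfl
  let θ' : FreeMalcev F ℕ →ₙₐ[F] Cm (Matrix (Fin 2) (Fin 2) A) :=
    FreeMalcev.lift Cm.isMalcev
      (fun i => if i = N then ⟨!![0, 1; 0, 0]⟩ else ⟨!![FreeAlgebra.ι F i, 0; 0, 0]⟩)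
  have hθ' : ∀ i, θ' (FreeMalcev.of i) =
      if i = N then ⟨!![0, 1; 0, 0]⟩ else ⟨!![FreeAlgebra.ι F i, 0; 0, 0]⟩ :=
    fun i => FreeMalcev.lift_of _ _ i
  have hcomp : θ'.comp f = ((S0Aux.corner (F := F) A).comp θ).comp f := by
    apply FreeMalcev.hom_ext
    intro j
    change θ' (f (FreeMalcev.of j)) = S0Aux.corner (F := F) A (θ (f (FreeMalcev.of j)))
    rw [hf]
    by_cases h : j < N
    · rw [if_pos h, hθ', hθ, if_neg (by omega)]
      rfl
    · rw [if_neg h, hθ', hθ, if_neg (by omega)]
      rfl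
  have hP : θ' p = ⟨!![(θ p).e, 0; 0, 0]⟩ := by
    have h2 := DFunLike.congr_fun hcomp p
    change θ' (f p) = S0Aux.corner (F := F) A (θ (f p)) at h2
    rw [hfp] at h2
    exact h2
  have h3 : θ' (p * (p * FreeMalcev.of N)) = 0 := by rw [h1, map_zero]
  rw [map_mul, map_mul, hP, hθ', if_pos rfl] at h3
  have h4 : (θ p).e * (θ p).e = 0 := by
    have h5 := congrArg (fun z : Cm (Matrix (Fin 2) (Fin 2) A) => z.e 0 1) h3
    simpa [Matrix.mul_apply, Fin.sum_univ_two] using h5
  have h6 : (θ p).e = 0 := by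
    rcases mul_eq_zero.1 h4 with h | h <;> exact h
  have h7 : θ p = 0 := Cm.ext h6
  intro R _ _ x
  have h8 : FreeMalcev.lift (Cm.isMalcev (R := R)) x =
      (S0Aux.cmMap (FreeAlgebra.lift F (fun i => (x i).e))).comp θ := by
    symm
    apply FreeMalcev.lift_unique
    intro i
    change S0Aux.cmMap (FreeAlgebra.lift F (fun i => (x i).e)) (θ (FreeMalcev.of i)) = x i
    rw [hθ]
    apply Cm.ext
    exact FreeAlgebra.lift_ι_apply _ _
  rw [h8]
  change S0Aux.cmMap (FreeAlgebra.lift F (fun i => (x i).e)) (θ p) = 0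
  rw [h7, map_zero]

end Pool.Agent.MalP
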