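import Pool.Agent.MalP.LCs
import Pool.Agent.MalP.LC7
import Pool.Agent.MalP.S0
import Pool.Agent.MalP.QF
import Pool.Agent.MalP.X.Main

/-! # The assembly: trivial characteristic ideals are contained in the Lie center, given `HH F`

`GoodP F K L p`: the multilinear element `p` is an identity of the split cross product algebra over `K`, it vanishes in
all associative algebras and its `W`-parts in the model algebra vanish. `HH F`: (a) the Jacobian of such an element with
two new letters vanishes; (b) elements of `QF` of degree at least 4 in a letter vanish. `S2H F`: Jacobians of identities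
of all cross product algebras are in `QF`. -/

set_option autoImplicit false

namespace Pool.Agent.MalP

universe u

/-- the properties of the multilinear elements of trivial characteristic ideals -/
structure GoodP (F : Type u) [Field F] (K : Type u) [Field K] [Algebra F K] (L : Finset ℕ) (p : FA F) : Prop where
  mem : p ∈ Hg F L.val
  c7 : ∀ x : ℕ → (X.C7R F K).Mal, ev x p = 0
  az : FreeMalcev.mk p ∈ AZ F
  w : ∀ σ : ℕ → ℕ, Function.Injective σ → ∀ i, (ev (fun k => Bh.lt F (σ k)) p).w i = 0

/-- the two facts on the ideal `QF` -/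
structure HH (F : Type u) [Field F] : Prop where
  a : ∀ (L : Finset ℕ) (p : FA F), GoodP F (AlgebraicClosure F) L p → ∀ n n' : ℕ, n ≠ n' → n ∉ L → n' ∉ L →
    Jac (FreeMalcev.mk p : FreeMalcev F ℕ) (FreeMalcev.of n) (FreeMalcev.of n') = 0
  b : ∀ (m : Multiset ℕ) (i : ℕ), 4 ≤ m.count i → ∀ q ∈ QF F (FreeMalcev F ℕ), q ∈ GM F m → q = 0

/-- Jacobians of identities of the cross product algebras vanish in the variety -/
def S2H (F : Type u) [Field F] : Prop :=
  ∀ p : FA F, (∀ (A : CPA F) (x : ℕ → A.Mal), ev x p = 0) →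
    ∀ (B : Type u) [NonUnitalNonAssocRing B] [Module F B] [IsScalarTower F B B] [SMulCommClass F B B],
      IsV B → ∀ (x : ℕ → B) (b c : B), Jac (ev x p) b c = 0

variable {F : Type u} [Field F]

/-- the image in the quotient by `QF` -/
theorem mem_QF_of_S2 (hS : S2H F) {p : FA F} (h : ∀ (A : CPA F) (x : ℕ → A.Mal), ev x p = 0)
    (b c : FreeMalcev F ℕ) : Jac (FreeMalcev.mk p) b c ∈ QF F (FreeMalcev F ℕ) := by
  have hB : IsV (IQ (QF F (FreeMalcev F ℕ)) (QF_idl F)) := isV_quotF F FreeMalcev.isMalcev
  set π := IQ.mkHom (QF_idl F (A := FreeMalcev F ℕ)) with hπ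
  have hmk : ∀ {a : FreeMalcev F ℕ}, π a = 0 ↔ a ∈ QF F (FreeMalcev F ℕ) := IQ.mk_eq_zero
  have h2 := hS p h (IQ (QF F (FreeMalcev F ℕ)) (QF_idl F)) hB (fun i => π (FreeMalcev.of i)) (π b) (π c)
  rw [← hom_ev π, ← mk_eq_ev, ← hom_Jac, hmk] at h2
  exact h2

variable [C23 F]

/-- identities of the split algebra over the algebraic closure -/
theorem mem_QF_of_C7 (hS : S2H F) {m : Multiset ℕ} {p : FA F} (hp : p ∈ Hg F m)
    (h : ∀ x : ℕ → (X.C7R F (AlgebraicClosure F)).Mal, ev x p = 0) (b c : FreeMalcev F ℕ) :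
    Jac (FreeMalcev.mk p) b c ∈ QF F (FreeMalcev F ℕ) :=
  mem_QF_of_S2 hS (fun A x => X.evalXK (AlgebraicClosure F) hp h A x) b c

omit [C23 F] in
variable (F) in
theorem K_two [C23 F] : (2 : AlgebraicClosure F) ≠ 0 := by
  have h := C23.two (F := F)
  have h1 := (algebraMap F (AlgebraicClosure F)).injective.ne h
  rw [map_zero, map_ofNat] at h1
  exact h1

omit [C23 F] in
variable (F) in
theorem K_three [C23 F] : (3 : AlgebraicClosure F) ≠ 0 := by
  have h := C23.three (F := F)
  have h1 := (algebraMap F (AlgebraicClosure F)).injective.ne h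
  rw [map_zero, map_ofNat] at h1
  exact h1

/-- a component with at least four occurrences of a letter is in the Lie center -/
theorem high_LC (hS : S2H F) (hH : HH F) {m : Multiset ℕ} {p : FA F} (hp : p ∈ Hg F m)
    (h : ∀ x : ℕ → (X.C7R F (AlgebraicClosure F)).Mal, ev x p = 0) {i : ℕ} (hi : 4 ≤ m.count i) :
    (FreeMalcev.mk p : FreeMalcev F ℕ) ∈ LCs F := by
  have key : ∀ x y : FreeMagma ℕ, Jac (FreeMalcev.mk p : FreeMalcev F ℕ) (wdM x) (wdM y) = 0 := by
    intro x y
    refine hH.b (m + content x + content y) i ?_ _ (mem_QF_of_C7 hS hp h _ _) ?_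
    · rw [Multiset.count_add, Multiset.count_add]
      omega
    · exact ⟨Jac p (wd x) (wd y), Jac_mem hp (wd_mem x) (wd_mem y), rfl⟩
  have key2 : ∀ (x : FreeMagma ℕ) (y : FreeMalcev F ℕ),
      Jac (FreeMalcev.mk p : FreeMalcev F ℕ) (wdM x) y = 0 := by
    intro x y
    have hy : y ∈ Submodule.span F (Set.range (wdM : FreeMagma ℕ → FreeMalcev F ℕ)) := by
      rw [span_wdM]
      exact Submodule.mem_top
    induction hy using Submodule.span_induction with
    | mem y hy =>
      obtain ⟨w, rfl⟩ := hy
      exact key x w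
    | zero => simp [Jac]
    | add a b _ _ ha hb =>
      have e : Jac (FreeMalcev.mk p : FreeMalcev F ℕ) (wdM x) (a + b) =
          Jac (FreeMalcev.mk p) (wdM x) a + Jac (FreeMalcev.mk p) (wdM x) b := by
        unfold Jac
        simp only [add_mul, mul_add]
        abel
      rw [e, ha, hb, add_zero]
    | smul r a _ ha =>
      have e : Jac (FreeMalcev.mk p : FreeMalcev F ℕ) (wdM x) (r • a) =
          r • Jac (FreeMalcev.mk p) (wdM x) a := by
        unfold Jac
        simp only [smul_mul_assoc, mul_smul_comm, smul_add]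
      rw [e, ha, smul_zero]
  intro x y
  have hx : x ∈ Submodule.span F (Set.range (wdM : FreeMagma ℕ → FreeMalcev F ℕ)) := by
    rw [span_wdM]
    exact Submodule.mem_top
  induction hx using Submodule.span_induction with
  | mem x hx =>
    obtain ⟨w, rfl⟩ := hx
    exact key2 w y
  | zero => simp [Jac]
  | add a b _ _ ha hb =>
    have e : Jac (FreeMalcev.mk p : FreeMalcev F ℕ) (a + b) y =
        Jac (FreeMalcev.mk p) a y + Jac (FreeMalcev.mk p) b y := by
      unfold Jac
      simp only [add_mul, mul_add]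
      abel
    rw [e, ha, hb, add_zero]
  | smul r a _ ha =>
    have e : Jac (FreeMalcev.mk p : FreeMalcev F ℕ) (r • a) y =
        r • Jac (FreeMalcev.mk p) a y := by
      unfold Jac
      simp only [smul_mul_assoc, mul_smul_comm, smul_add]
    rw [e, ha, smul_zero]

/-- the extended ideal -/
noncomputable def Iext (I : Submodule F (FreeMalcev F ℕ)) : Submodule F (FreeMalcev F ℕ) := I ⊔ (LCs F ⊓ AZ F)

end Pool.Agent.MalP
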