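import Pool.Agent.MalP.HH
import Pool.Agent.MalP.CEndA

/-! # The assembly, second part -/

set_option autoImplicit false

namespace Pool.Agent.MalP

universe u

variable {F : Type u} [Field F]

namespace HHAux

/-- the coordinate of the linear part as a homomorphism to the zero algebra `Cm F` -/
theorem phi_v_eq (j : ℕ) (z : FreeMalcev F ℕ) :
    (FreeMalcev.lift (Cm.isMalcev (R := F)) (fun i => (⟨if i = j then 1 else 0⟩ : Cm F)) z).e = (phi F z).v j := by
  have hz : z ∈ Submodule.span F (Set.range (wdM : FreeMagma ℕ → FreeMalcev F ℕ)) := by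
    rw [span_wdM]
    exact Submodule.mem_top
  induction hz using Submodule.span_induction with
  | mem z hz =>
    obtain ⟨w, rfl⟩ := hz
    induction w using FreeMagma.recOnMul with
    | ih1 i =>
      rw [show FreeMagma.of i = FreeMagma.of i from rfl, ← of_eq_wdM, FreeMalcev.lift_of, phi_of]
      show (if i = j then (1 : F) else 0) = (Bh.lt F i).v j
      show _ = (Finsupp.single i (1 : F)) j
      rw [Finsupp.single_apply]
    | ih2 a b ha hb =>
      have e : (wdM (a * b) : FreeMalcev F ℕ) = wdM a * wdM b := (wdM_mul a b).symm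
      rw [e, map_mul, map_mul, Cm.mul_e, Bh.v_mul, mul_comm, sub_self]
      rfl
  | zero =>
    rw [map_zero, map_zero]
    rfl
  | add a b _ _ ha hb =>
    rw [map_add, map_add, Cm.add_e, ha, hb, Bh.v_add]
    rfl
  | smul r a _ ha =>
    rw [map_smul, map_smul, Cm.smul_e, ha, Bh.v_smul]
    rfl

theorem AZ_v {z : FreeMalcev F ℕ} (hz : z ∈ AZ F) : (phi F z).v = 0 := by
  ext j
  rw [← phi_v_eq, hz F]
  rfl

end HHAux

open HHAux

variable [C23 F]

section

variable {I : Submodule F (FreeMalcev F ℕ)}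

theorem Iext_char (hc : IsChar I) : IsChar (Iext I) := by
  intro D hD a ha
  obtain ⟨x, hx, y, hy, rfl⟩ := Submodule.mem_sup.1 ha
  rw [map_add]
  exact Submodule.mem_sup.2 ⟨D x, hc D hD x hx, D y, ⟨LCs_char D hD y hy.1, AZ_char F D hD y hy.2⟩, rfl⟩

theorem Iext_AZ (hi : IsIdl I) (ht : IsTriv I) : Iext I ≤ AZ F :=
  sup_le (triv_le_AZ hi ht) inf_le_right

/-- elements of the extended ideal are identities of the split algebra -/
theorem Iext_C7 (hi : IsIdl I) (ht : IsTriv I) {p : FA F} (hp : FreeMalcev.mk p ∈ Iext I)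
    (x : ℕ → (X.C7R F (AlgebraicClosure F)).Mal) : ev x p = 0 := by
  obtain ⟨a, ha, b, hb, h⟩ := Submodule.mem_sup.1 hp
  obtain ⟨a, rfl⟩ := FreeMalcev.mk_surj a
  obtain ⟨b, rfl⟩ := FreeMalcev.mk_surj b
  have h1 : ev x a = 0 := X.S1K _ (K_two F) hi ht ha x
  have h2 : ev x b = 0 := LC_C7_ev (K_two F) (K_three F) hb.1 x
  have h3 := congrArg (FreeMalcev.lift (CPA.Mal.isMalcev (X.C7R F (AlgebraicClosure F))) x) h
  rw [map_add, FreeMalcev.lift_mk, FreeMalcev.lift_mk, FreeMalcev.lift_mk] at h3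
  have h4 : ev x a + ev x b = ev x p := h3
  rw [← h4, h1, h2, add_zero]

/-- the images in the model algebra annihilate each other -/
theorem Iext_mul (hi : IsIdl I) (ht : IsTriv I) {a b : FreeMalcev F ℕ} (ha : a ∈ Iext I) (hb : b ∈ Iext I) :
    phi F a * phi F b = 0 := by
  obtain ⟨x, hx, y, hy, rfl⟩ := Submodule.mem_sup.1 ha
  obtain ⟨x', hx', y', hy', rfl⟩ := Submodule.mem_sup.1 hb
  have h1 : phi F x * phi F x' = 0 := by rw [← map_mul, ht x hx x' hx', map_zero]
  have hy0 := Bh_central (AZ_v hy.2) (fun i => LCs_w hy.1 i)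
  have hy0' := Bh_central (AZ_v hy'.2) (fun i => LCs_w hy'.1 i)
  rw [map_add, map_add, mul_add, add_mul, add_mul, h1, (hy0 _).1, (hy0' _).2, (hy0 _).1]
  simp

end

end Pool.Agent.MalP
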