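import Pool.Agent.MalP.CharI

/-! # Reduction to multilinear elements -/

set_option autoImplicit false

namespace Pool.Agent.MalP

universe u v

variable {F : Type u} [Field F]

namespace LieCAux

theorem lc_zero : (0 : FreeMalcev F ℕ) ∈ lieCenter (FreeMalcev F ℕ) := by
  intro x y
  simp [Jac]

theorem lc_add {a b : FreeMalcev F ℕ} (ha : a ∈ lieCenter (FreeMalcev F ℕ))
    (hb : b ∈ lieCenter (FreeMalcev F ℕ)) : a + b ∈ lieCenter (FreeMalcev F ℕ) := by
  intro x y
  have h1 := ha x y
  have h2 := hb x y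
  have e : Jac (a + b) x y = Jac a x y + Jac b x y := by
    unfold Jac
    simp only [add_mul, mul_add]
    abel
  rw [e, h1, h2, add_zero]

theorem lc_smul (r : F) {a : FreeMalcev F ℕ} (ha : a ∈ lieCenter (FreeMalcev F ℕ)) :
    r • a ∈ lieCenter (FreeMalcev F ℕ) := by
  intro x y
  have h1 := ha x y
  have e : Jac (r • a) x y = r • Jac a x y := by
    unfold Jac
    simp only [smul_mul_assoc, mul_smul_comm, smul_add]
  rw [e, h1, smul_zero]

theorem lc_sum {ι : Type*} (s : Finset ι) (f : ι → FreeMalcev F ℕ)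
    (h : ∀ i ∈ s, f i ∈ lieCenter (FreeMalcev F ℕ)) :
    ∑ i ∈ s, f i ∈ lieCenter (FreeMalcev F ℕ) := by
  classical
  induction s using Finset.induction_on with
  | empty => rw [Finset.sum_empty]; exact lc_zero
  | insert a s ha ih =>
    rw [Finset.sum_insert ha]
    exact lc_add (h a (Finset.mem_insert_self a s))
      (ih fun i hi => h i (Finset.mem_insert_of_mem hi))

end LieCAux

/-- the Lie center is closed under endomorphisms -/
theorem lieCenter_endo {p : FreeMalcev F ℕ} (hp : p ∈ lieCenter (FreeMalcev F ℕ))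
    (f : FreeMalcev F ℕ →ₙₐ[F] FreeMalcev F ℕ) : f p ∈ lieCenter (FreeMalcev F ℕ) := by
  intro x y
  obtain ⟨N, -, hN⟩ := exists_bound p
  let g : FreeMalcev F ℕ →ₙₐ[F] FreeMalcev F ℕ :=
    FreeMalcev.lift FreeMalcev.isMalcev
      (fun j => if j < N then f (FreeMalcev.of j) else if j = N then x else y)
  have hg : ∀ j, g (FreeMalcev.of j) =
      if j < N then f (FreeMalcev.of j) else if j = N then x else y :=
    fun j => FreeMalcev.lift_of _ _ j
  have h1 : g p = f p := hN g f fun j hj => by rw [hg, if_pos hj]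
  have h2 : g (FreeMalcev.of N) = x := by
    rw [hg, if_neg (lt_irrefl N), if_pos rfl]
  have h3 : g (FreeMalcev.of (N + 1)) = y := by
    rw [hg, if_neg (by omega), if_neg (by omega)]
  have h4 := hp (FreeMalcev.of N) (FreeMalcev.of (N + 1))
  have h5 := hom_Jac g p (FreeMalcev.of N) (FreeMalcev.of (N + 1))
  rw [h4, map_zero, h1, h2, h3] at h5
  exact h5.symm

end Pool.Agent.MalP
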