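import Pool.Agent.MalP.HH2
import Pool.Agent.MalP.LieC

/-! # The assembly, third part: the main theorem, given `HH F` -/

set_option autoImplicit false

namespace Pool.Agent.MalP

universe u

variable {F : Type u} [Field F] [C23 F]

theorem high_comp (hS : S2H F) (hH : HH F) {I : Submodule F (FreeMalcev F ℕ)} (hi : IsIdl I) (ht : IsTriv I)
    {z : FreeMalcev F ℕ} (hz : z ∈ I) {m : Multiset ℕ} {i : ℕ} (hm : 4 ≤ m.count i) :
    piM F m z ∈ LCs F ⊓ AZ F := by
  obtain ⟨p, rfl⟩ := FreeMalcev.mk_surj z
  refine ⟨?_, AZ_comp (triv_le_AZ hi ht hz) m⟩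
  rw [piM_mk]
  exact high_LC hS hH (comp_mem m p) (fun x => X.S1comp _ (K_two F) hi ht hz m x) hm

/-- the components of the elements of a trivial characteristic ideal are in the extended ideal -/
theorem Iext_comp (hS : S2H F) (hH : HH F) {I : Submodule F (FreeMalcev F ℕ)} (hi : IsIdl I) (ht : IsTriv I)
    (hc : IsChar I) {z : FreeMalcev F ℕ} (hz : z ∈ I) (m : Multiset ℕ) : piM F m z ∈ Iext I := by
  classical
  by_cases hm : ∃ i, 4 ≤ m.count i
  · obtain ⟨i, hm⟩ := hm
    exact Submodule.mem_sup_right (high_comp hS hH hi ht hz hm)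
  obtain ⟨s, hs⟩ := sum_piM z
  by_cases hms : m ∈ s
  · have h1 : ∑ m ∈ s.filter (fun m => ¬ ∃ i, 4 ≤ m.count i), piM F m z ∈ Iext I := by
      have h2 := Finset.sum_filter_add_sum_filter_not s (fun m => ∃ i, 4 ≤ m.count i) (fun m => piM F m z)
      have h3 : ∑ m ∈ s.filter (fun m => ¬ ∃ i, 4 ≤ m.count i), piM F m z =
          z - ∑ m ∈ s.filter (fun m => ∃ i, 4 ≤ m.count i), piM F m z := by
        rw [eq_sub_iff_add_eq, add_comm]
        exact h2.trans hs.symm
      rw [h3]
      refine Submodule.sub_mem _ (Submodule.mem_sup_left hz) (Submodule.sum_mem _ fun m hm => ?_)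
      obtain ⟨i, hi'⟩ := (Finset.mem_filter.1 hm).2
      exact Submodule.mem_sup_right (high_comp hS hH hi ht hz hi')
    refine CharIAux.family (Iext_char hc) _ _ (fun m => piM F m z) rfl (fun m _ => piM_mem m z) ?_ h1 m
      (Finset.mem_filter.2 ⟨hms, hm⟩)
    intro m hm i
    have h2 := (Finset.mem_filter.1 hm).2
    by_contra h3
    exact h2 ⟨i, by omega⟩
  · have h : piM F m z = 0 := by
      conv_lhs => rw [hs]
      rw [map_sum]
      refine Finset.sum_eq_zero fun k hk => ?_
      rw [piM_of_mem (piM_mem k z), if_neg]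
      rintro rfl
      exact hms hk
    rw [h]
    exact Submodule.zero_mem _

/-- multilinearisation -/
theorem homog3 {I : Submodule F (FreeMalcev F ℕ)} (hc : IsChar I)
    (h : ∀ (L : Finset ℕ) (p : FA F), p ∈ Hg F L.val → FreeMalcev.mk p ∈ I →
      ∀ n n' : ℕ, n ≠ n' → n ∉ L → n' ∉ L →
        Jac (FreeMalcev.mk p : FreeMalcev F ℕ) (FreeMalcev.of n) (FreeMalcev.of n') = 0) :
    ∀ (k : ℕ) (m : Multiset ℕ), Multiset.card m = m.toFinset.card + k → (∀ i, m.count i ≤ 3) →
      ∀ z ∈ I, z ∈ GM F m → z ∈ lieCenter (FreeMalcev F ℕ) := by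
  intro k
  induction k with
  | zero =>
    intro m hm _ z hz hzm
    have hnd : m.Nodup := by
      rw [add_zero] at hm
      exact Multiset.toFinset_card_eq_card_iff_nodup.1 hm.symm
    obtain ⟨p, hp, rfl⟩ := hzm
    have hp' : p ∈ Hg F (⟨m, hnd⟩ : Finset ℕ).val := hp
    intro x y
    obtain ⟨N, -, hN⟩ := exists_bound (FreeMalcev.mk p : FreeMalcev F ℕ)
    obtain ⟨M, hM⟩ : ∃ M : ℕ, ∀ j ∈ m, j < M := by
      refine ⟨m.toFinset.sup id + 1, fun j hj => ?_⟩
      have := Finset.le_sup (f := id) (Multiset.mem_toFinset.2 hj)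
      simp only [id] at this
      omega
    have hn1 : max N M ∉ (⟨m, hnd⟩ : Finset ℕ) := by
      intro hmem
      have := hM _ (Finset.mem_mk.1 hmem)
      have := le_max_right N M
      omega
    have hn2 : max N M + 1 ∉ (⟨m, hnd⟩ : Finset ℕ) := by
      intro hmem
      have := hM _ (Finset.mem_mk.1 hmem)
      have := le_max_right N M
      omega
    have h4 := h ⟨m, hnd⟩ p hp' hz (max N M) (max N M + 1) (by omega) hn1 hn2
    let g : FreeMalcev F ℕ →ₙₐ[F] FreeMalcev F ℕ :=
      FreeMalcev.lift FreeMalcev.isMalcev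
        (fun j => if j < max N M then FreeMalcev.of j else if j = max N M then x else y)
    have hg : ∀ j, g (FreeMalcev.of j) =
        if j < max N M then FreeMalcev.of j else if j = max N M then x else y :=
      fun j => FreeMalcev.lift_of _ _ j
    have h1 : g (FreeMalcev.mk p) = FreeMalcev.mk p :=
      hN g (NonUnitalAlgHom.id F _) fun j hj => by
        rw [hg, if_pos (lt_of_lt_of_le hj (le_max_left N M))]
        rfl
    have h2 : g (FreeMalcev.of (max N M)) = x := by
      rw [hg, if_neg (lt_irrefl _), if_pos rfl]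
    have h3 : g (FreeMalcev.of (max N M + 1)) = y := by
      rw [hg, if_neg (by omega), if_neg (by omega)]
    have h5 := hom_Jac g (FreeMalcev.mk p) (FreeMalcev.of (max N M))
      (FreeMalcev.of (max N M + 1))
    rw [h4, map_zero, h1, h2, h3] at h5
    exact h5.symm
  | succ k ih =>
    intro m hm hct z hz hzm
    have hnd : ¬ m.Nodup := by
      intro hnd
      have := Multiset.toFinset_card_of_nodup hnd
      omega
    obtain ⟨i, hi⟩ : ∃ i, 2 ≤ m.count i := by
      by_contra hcon
      push Not at hcon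
      apply hnd
      rw [Multiset.nodup_iff_count_le_one]
      intro a
      have := hcon a
      omega
    have him : i ∈ m := by
      rw [← Multiset.count_pos]
      omega
    obtain ⟨j, hj⟩ := Infinite.exists_notMem_finset m.toFinset
    rw [Multiset.mem_toFinset] at hj
    obtain ⟨D, hD, hDof⟩ := exists_der (F := F) (X := ℕ)
      (fun k => if k = i then FreeMalcev.of j else 0)
    have hD1 : D (FreeMalcev.of i) = FreeMalcev.of j := by rw [hDof, if_pos rfl]
    have hD2 : ∀ k, k ≠ i → D (FreeMalcev.of k) = 0 := fun k hk => by rw [hDof, if_neg hk]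
    obtain ⟨hA, hB⟩ := der_move D hD i j hD1 hD2 hzm him
    have hcard : Multiset.card (j ::ₘ m.erase i) = (j ::ₘ m.erase i).toFinset.card + k := by
      have e1 : Multiset.card (j ::ₘ m.erase i) = Multiset.card m := by
        rw [Multiset.card_cons, Multiset.card_erase_add_one him]
      have e2 : (m.erase i).toFinset = m.toFinset := by
        ext a
        simp only [Multiset.mem_toFinset]
        by_cases ha : a = i
        · subst ha
          constructor
          · exact fun _ => him
          · intro _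
            rw [← Multiset.count_pos, Multiset.count_erase_self]
            omega
        · exact Multiset.mem_erase_of_ne ha
      have e3 : (j ::ₘ m.erase i).toFinset.card = m.toFinset.card + 1 := by
        rw [Multiset.toFinset_cons, e2, Finset.card_insert_of_notMem]
        rw [Multiset.mem_toFinset]
        exact hj
      omega
    have hct' : ∀ l, (j ::ₘ m.erase i).count l ≤ 3 := by
      intro l
      rw [Multiset.count_cons]
      have h1 : (m.erase i).count l ≤ m.count l := Multiset.count_le_of_le _ (Multiset.erase_le _ _)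
      have h2 := hct l
      split_ifs with h3
      · rw [h3] at h1
        rw [Multiset.count_eq_zero_of_notMem hj] at h1
        rw [h3]
        omega
      · omega
    have hC : D z ∈ lieCenter (FreeMalcev F ℕ) := ih _ hcard hct' (D z) (hc D hD z hz) hA
    let f : FreeMalcev F ℕ →ₙₐ[F] FreeMalcev F ℕ :=
      FreeMalcev.lift FreeMalcev.isMalcev
        (fun k => if k = j then FreeMalcev.of i else FreeMalcev.of k)
    have hf : ∀ k, f (FreeMalcev.of k) =
        if k = j then FreeMalcev.of i else FreeMalcev.of k :=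
      fun k => FreeMalcev.lift_of _ _ k
    have hfD := hB f hj (by rw [hf, if_pos rfl]) (fun k hk => by rw [hf, if_neg hk])
    have hE : (m.count i : F) • z ∈ lieCenter (FreeMalcev F ℕ) := by
      rw [← hfD]
      exact lieCenter_endo hC f
    have hne : (m.count i : F) ≠ 0 := by
      have h1 := CharIAux.ne_of_le3 (F := F) (hct i) (Nat.zero_le 3) (by omega : m.count i ≠ 0)
      simpa using h1
    have := LieCAux.lc_smul (m.count i : F)⁻¹ hE
    rwa [smul_smul, inv_mul_cancel₀ hne, one_smul] at this

/-- the multilinear elements of the extended ideal -/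
theorem Iext_good {I : Submodule F (FreeMalcev F ℕ)} (hi : IsIdl I) (ht : IsTriv I) (hc : IsChar I)
    {L : Finset ℕ} {p : FA F} (hp : p ∈ Hg F L.val) (hI : FreeMalcev.mk p ∈ Iext I) :
    GoodP F (AlgebraicClosure F) L p where
  mem := hp
  c7 := Iext_C7 hi ht hI
  az := Iext_AZ hi ht hI
  w := by
    intro σ hσ i
    rcases Nat.lt_or_ge L.card 2 with hL | hL
    · exact small_w hL hp σ i
    · obtain ⟨N, hN⟩ : ∃ N : ℕ, ∀ k ∈ L, k < N := ⟨L.sup id + 1, fun k hk =>
        Nat.lt_succ_of_le (Finset.le_sup (f := id) hk)⟩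
      refine S3_wN hL hp hN ?_ σ hσ i
      have h1 := Iext_mul hi ht (a := ev (fun i => (FreeMalcev.of i : FreeMalcev F ℕ)) p)
        (by rw [← mk_eq_ev]; exact hI) (char_shift (Iext_char hc) hp hI hN)
      have h2 := CEndAux.phi_ev (F := F) (fun k => k) p
      have h3 := CEndAux.phi_ev (F := F) (fun k => k + N) p
      rw [h2, h3] at h1
      exact h1

/-- **Main theorem**, given the facts on the ideal `QF`. -/
theorem main_of_H (hS : S2H F) (hH : HH F) (I : Submodule F (FreeMalcev F ℕ)) (hi : IsIdl I) (ht : IsTriv I)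
    (hc : IsChar I) : ∀ z ∈ I, z ∈ lieCenter (FreeMalcev F ℕ) := by
  intro z hz
  obtain ⟨s, hs⟩ := sum_piM z
  rw [hs]
  apply LieCAux.lc_sum
  intro m _
  by_cases hm : ∃ i, 4 ≤ m.count i
  · obtain ⟨i, hm⟩ := hm
    exact (high_comp hS hH hi ht hz hm).1
  · obtain ⟨k, hk⟩ := Nat.exists_eq_add_of_le (Multiset.toFinset_card_le m)
    refine homog3 (Iext_char hc) ?_ k m hk ?_ _ (Iext_comp hS hH hi ht hc hz m) (piM_mem m z)
    · intro L p hp hmem n n' hnn hn hn'
      exact hH.a L p (Iext_good hi ht hc hp hmem) n n' hnn hn hn'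
    · intro i
      by_contra h
      exact hm ⟨i, by omega⟩

end Pool.Agent.MalP
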