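import Pool.Agent.MalP.Ext2

/-! # Homomorphisms of cross product algebras: inclusion, functoriality of the extension, dual numbers -/

set_option autoImplicit false

open scoped TensorProduct

namespace Pool.Agent.MalP

universe u

namespace CPA

variable {F : Type u} [Field F] [C23 F]

section ext

variable (A : CPA F)

@[simp] theorem ext_mul (x y : A.ext.E) :
    A.ext.mul x y = (⟨A.mul x.a y.a, A.LW x.a y.w - A.LW y.a x.w⟩ : A.EE) := rfl

@[simp] theorem ext_s (x y : A.ext.E) :
    A.ext.s x y = (⟨A.s x.a y.a, A.sW x.a y.w + A.sW y.a x.w⟩ : A.SE) := rfl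

/-- the inclusion of `A` in its extension -/
noncomputable def incl : Hom A A.ext where
  φ := { SE.inl with commutes' := fun _ => rfl }
  ψ :=
    { toFun := fun a => (⟨a, 0⟩ : A.EE)
      map_add' := fun a b => by
        apply EE.ext
        · rfl
        · exact (add_zero (0 : A.W)).symm
      map_smul' := fun r a => by
        apply EE.ext
        · rfl
        · show (0 : A.W) = r • (0 : A.W) + EE.tenL A a 0
          rw [smul_zero, map_zero, add_zero] }
  map_mul := fun x y => by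
    apply EE.ext
    · rfl
    · show (0 : A.W) = A.LW x 0 - A.LW y 0
      rw [map_zero, map_zero, sub_zero]
  map_s := fun x y => by
    apply SE.ext
    · rfl
    · show (0 : A.E) = A.sW x 0 + A.sW y 0
      rw [map_zero, map_zero, add_zero]

theorem incl_φ (r : A.S) : A.incl.φ r = (⟨r, 0⟩ : A.SE) := rfl
theorem incl_ψ (a : A.E) : A.incl.ψ a = (⟨a, 0⟩ : A.EE) := rfl

/-- the projection of the extension to `A` -/
noncomputable def proj : Hom A.ext A where
  φ :=
    { toFun := fun x => SE.r x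
      map_one' := rfl
      map_mul' := fun _ _ => rfl
      map_zero' := rfl
      map_add' := fun _ _ => rfl
      commutes' := fun _ => rfl }
  ψ :=
    { toFun := fun x => EE.a x
      map_add' := fun _ _ => rfl
      map_smul' := fun _ _ => rfl }
  map_mul := fun _ _ => rfl
  map_s := fun _ _ => rfl

theorem proj_φ (x : A.SE) : A.proj.φ x = x.r := rfl
theorem proj_ψ (x : A.EE) : A.proj.ψ x = x.a := rfl

end ext

section map

variable {A B : CPA F} (h : Hom A B)

/-- the map of the operators -/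
noncomputable def mapT : A.WT →ₛₗ[(h.φ : A.S →+* B.S)] B.WT where
  toFun := fun w => (h.φ w.1, h.ψ w.2.1, TensorProduct.map h.ψ h.ψ w.2.2)
  map_add' := fun w w' => by
    simp only [Prod.fst_add, Prod.snd_add, map_add, Prod.mk_add_mk]
  map_smul' := fun r w => by
    refine Prod.ext ?_ (Prod.ext ?_ ?_)
    · exact map_mul h.φ r w.1
    · exact h.ψ.map_smulₛₗ r w.2.1
    · exact (TensorProduct.map h.ψ h.ψ).map_smulₛₗ r w.2.2

omit [C23 F] in
theorem mapT_ten (b c : A.E) : mapT h (A.ten b c) = B.ten (h.ψ b) (h.ψ c) := by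
  refine Prod.ext ?_ (Prod.ext ?_ ?_)
  · exact map_zero h.φ
  · exact map_zero h.ψ
  · exact TensorProduct.map_tmul _ _ _ _

omit [C23 F] in
theorem mapT_L (a : A.E) (w : A.WT) : mapT h (A.L a w) = B.L (h.ψ a) (mapT h w) := by
  obtain ⟨r, e, t⟩ := w
  have ht : TensorProduct.map h.ψ h.ψ (TensorProduct.map (A.mul a) LinearMap.id t) =
      TensorProduct.map (B.mul (h.ψ a)) LinearMap.id (TensorProduct.map h.ψ h.ψ t) := by
    induction t using TensorProduct.induction_on with
    | zero => simp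
    | add x y hx hy => simp only [map_add, hx, hy]
    | tmul x y => simp only [TensorProduct.map_tmul, LinearMap.id_apply, h.map_mul]
  refine Prod.ext ?_ (Prod.ext ?_ ?_)
  · show h.φ (- A.s a e) = - B.s (h.ψ a) (h.ψ e)
    rw [map_neg, h.map_s]
  · show h.ψ (r • a - A.mul a e) = h.φ r • h.ψ a - B.mul (h.ψ a) (h.ψ e)
    rw [map_sub, h.map_mul, LinearMap.map_smulₛₗ]
    rfl
  · show TensorProduct.map h.ψ h.ψ ((2 : A.S) • (e ⊗ₜ a) - a ⊗ₜ e +
      TensorProduct.map (A.mul a) LinearMap.id t) = (2 : B.S) • (h.ψ e ⊗ₜ h.ψ a) - h.ψ a ⊗ₜ h.ψ e +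
      TensorProduct.map (B.mul (h.ψ a)) LinearMap.id (TensorProduct.map h.ψ h.ψ t)
    rw [map_add, map_sub, ht, LinearMap.map_smulₛₗ, TensorProduct.map_tmul, TensorProduct.map_tmul]
    congr 3
    exact map_ofNat h.φ 2

omit [C23 F] in
theorem mapT_rho (a b e : A.E) :
    mapT h (A.rho a b e) = B.rho (h.ψ a) (h.ψ b) (h.ψ e) := by
  refine Prod.ext ?_ (Prod.ext ?_ ?_)
  · exact map_zero h.φ
  · show h.ψ (A.mul (A.mul a b) e - A.s a e • b + A.s b e • a) = _
    rw [map_add, map_sub, h.map_mul, h.map_mul, LinearMap.map_smulₛₗ, LinearMap.map_smulₛₗ]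
    show B.mul (B.mul (h.ψ a) (h.ψ b)) (h.ψ e) - h.φ (A.s a e) • h.ψ b + h.φ (A.s b e) • h.ψ a = _
    rw [h.map_s, h.map_s]
    rfl
  · simp only [mapT, rho, LinearMap.coe_mk, AddHom.coe_mk, map_add, map_sub,
      TensorProduct.map_tmul, h.map_mul]

omit [C23 F] in
theorem mapT_Rel : A.Rel ≤ B.Rel.comap (mapT h) := by
  conv_lhs => unfold Rel
  rw [Submodule.span_le]
  rintro w (⟨a, b, e, rfl⟩ | ⟨d, a, b, e, rfl⟩)
  · show mapT h (A.rho a b e) ∈ B.Rel
    rw [mapT_rho]
    exact B.rho_mem _ _ _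
  · show mapT h (A.L d (A.rho a b e)) ∈ B.Rel
    rw [mapT_L, mapT_rho]
    exact B.L_rho_mem _ _ _ _

/-- the map of the operators modulo the relations -/
noncomputable def mapW : A.W →ₛₗ[(h.φ : A.S →+* B.S)] B.W :=
  A.Rel.mapQ B.Rel (mapT h) (mapT_Rel h)

theorem mapW_mk (w : A.WT) : mapW h (A.mkW w) = B.mkW (mapT h w) := rfl

theorem mapW_LW (a : A.E) (w : A.W) : mapW h (A.LW a w) = B.LW (h.ψ a) (mapW h w) := by
  obtain ⟨w, rfl⟩ := A.mkW_surj w
  rw [LW_mk, mapW_mk, mapT_L, mapW_mk, LW_mk]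

theorem mapW_tenL (b c : A.E) : mapW h (EE.tenL A b c) = EE.tenL B (h.ψ b) (h.ψ c) := by
  rw [EE.tenL_apply, EE.tenL_apply, mapW_mk, mapT_ten]

theorem mapW_sW (a : A.E) (w : A.W) : h.ψ (A.sW a w) = B.sW (h.ψ a) (mapW h w) := by
  obtain ⟨w, rfl⟩ := A.mkW_surj w
  rw [sW_mk, mapW_mk, sW_mk]
  obtain ⟨r, e, t⟩ := w
  have ht : h.ψ (TensorProduct.lift (LinearMap.lsmul A.S A.E ∘ₗ A.s a) t) =
      TensorProduct.lift (LinearMap.lsmul B.S B.E ∘ₗ B.s (h.ψ a)) (TensorProduct.map h.ψ h.ψ t) := by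
    induction t using TensorProduct.induction_on with
    | zero => simp
    | add x y hx hy => simp only [map_add, hx, hy]
    | tmul x y =>
      simp only [TensorProduct.map_tmul, TensorProduct.lift.tmul, LinearMap.comp_apply,
        LinearMap.lsmul_apply]
      rw [LinearMap.map_smulₛₗ, ← h.map_s]
      rfl
  show h.ψ (r • a + A.mul a e + TensorProduct.lift (LinearMap.lsmul A.S A.E ∘ₗ A.s a) t) =
    h.φ r • h.ψ a + B.mul (h.ψ a) (h.ψ e) +
      TensorProduct.lift (LinearMap.lsmul B.S B.E ∘ₗ B.s (h.ψ a)) (TensorProduct.map h.ψ h.ψ t)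
  rw [map_add, map_add, ht, h.map_mul, LinearMap.map_smulₛₗ]
  rfl

theorem tau_mapW (w : A.W) : B.tau (mapW h w) = h.φ (A.tau w) := by
  obtain ⟨w, rfl⟩ := A.mkW_surj w
  rw [mapW_mk, tau_mk, tau_mk]
  obtain ⟨r, e, t⟩ := w
  have ht : TensorProduct.lift B.s (TensorProduct.map h.ψ h.ψ t) = h.φ (TensorProduct.lift A.s t) := by
    induction t using TensorProduct.induction_on with
    | zero => simp
    | add x y hx hy => simp only [map_add, hx, hy]
    | tmul x y =>
      simp only [TensorProduct.map_tmul, TensorProduct.lift.tmul, h.map_s]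
  show 7 * h.φ r + TensorProduct.lift B.s (TensorProduct.map h.ψ h.ψ t) =
    h.φ (7 * r + TensorProduct.lift A.s t)
  rw [ht, map_add, map_mul, map_ofNat]

/-- functoriality of the extension -/
noncomputable def mapE : Hom A.ext B.ext where
  φ :=
    { toFun := fun x => (⟨h.φ (SE.r x), h.ψ (SE.g x)⟩ : B.SE)
      map_one' := by
        apply SE.ext
        · exact map_one h.φ
        · exact map_zero h.ψ
      map_mul' := fun x y => by
        apply SE.ext
        · exact map_mul h.φ _ _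
        · show h.ψ (SE.r x • SE.g y + SE.r y • SE.g x) =
            h.φ (SE.r x) • h.ψ (SE.g y) + h.φ (SE.r y) • h.ψ (SE.g x)
          rw [map_add, LinearMap.map_smulₛₗ, LinearMap.map_smulₛₗ]
          rfl
      map_zero' := by
        apply SE.ext
        · exact map_zero h.φ
        · exact map_zero h.ψ
      map_add' := fun x y => by
        apply SE.ext
        · exact map_add h.φ _ _
        · exact map_add h.ψ _ _
      commutes' := fun r => by
        apply SE.ext
        · exact h.φ.commutes r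
        · exact map_zero h.ψ }
  ψ :=
    { toFun := fun x => (⟨h.ψ (EE.a x), mapW h (EE.w x)⟩ : B.EE)
      map_add' := fun x y => by
        apply EE.ext
        · exact map_add h.ψ _ _
        · exact map_add (mapW h) _ _
      map_smul' := fun r x => by
        apply EE.ext
        · exact h.ψ.map_smulₛₗ _ _
        · show mapW h (SE.r r • EE.w x + EE.tenL A (EE.a x) (SE.g r)) =
            h.φ (SE.r r) • mapW h (EE.w x) + EE.tenL B (h.ψ (EE.a x)) (h.ψ (SE.g r))
          rw [map_add, mapW_tenL, LinearMap.map_smulₛₗ]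
          rfl }
  map_mul := fun x y => by
    apply EE.ext
    · exact h.map_mul _ _
    · show mapW h (A.LW (EE.a x) (EE.w y) - A.LW (EE.a y) (EE.w x)) =
        B.LW (h.ψ (EE.a x)) (mapW h (EE.w y)) - B.LW (h.ψ (EE.a y)) (mapW h (EE.w x))
      rw [map_sub, mapW_LW, mapW_LW]
  map_s := fun x y => by
    apply SE.ext
    · exact h.map_s _ _
    · show h.ψ (A.sW (EE.a x) (EE.w y) + A.sW (EE.a y) (EE.w x)) =
        B.sW (h.ψ (EE.a x)) (mapW h (EE.w y)) + B.sW (h.ψ (EE.a y)) (mapW h (EE.w x))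
      rw [map_add, mapW_sW, mapW_sW]

theorem mapE_φ (x : A.ext.S) : (mapE h).φ x = (⟨h.φ (SE.r x), h.ψ (SE.g x)⟩ : B.SE) := rfl
theorem mapE_ψ (x : A.ext.E) : (mapE h).ψ x = (⟨h.ψ (EE.a x), mapW h (EE.w x)⟩ : B.EE) := rfl

end map

end CPA

end Pool.Agent.MalP
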