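import Pool.Agent.MalP.CPhi
import Pool.Agent.MalP.CS3
import Pool.Agent.MalP.X.S1K

/-! # The Lie center of the free Malcev algebra -/

set_option autoImplicit false

open scoped BigOperators

namespace Pool.Agent.MalP

universe u

variable {F : Type u} [Field F]

namespace LCsAux

theorem Jac_add_left {A : Type*} [NonUnitalNonAssocRing A] (a b x y : A) :
    Jac (a + b) x y = Jac a x y + Jac b x y := by
  simp only [Jac, add_mul, mul_add]
  abel

theorem Jac_zero_left {A : Type*} [NonUnitalNonAssocRing A] (x y : A) :
    Jac (0 : A) x y = 0 := by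
  simp [Jac]

theorem Jac_smul_left (c : F) (a x y : FreeMalcev F ℕ) : Jac (c • a) x y = c • Jac a x y := by
  simp only [Jac, smul_mul_assoc, mul_smul_comm, smul_add]

theorem Jac_add_mid {A : Type*} [NonUnitalNonAssocRing A] (a x x' y : A) :
    Jac a (x + x') y = Jac a x y + Jac a x' y := by
  simp only [Jac, add_mul, mul_add]
  abel

theorem Jac_zero_mid {A : Type*} [NonUnitalNonAssocRing A] (a y : A) :
    Jac a (0 : A) y = 0 := by
  simp [Jac]

theorem Jac_add_right {A : Type*} [NonUnitalNonAssocRing A] (a x y y' : A) :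
    Jac a x (y + y') = Jac a x y + Jac a x y' := by
  simp only [Jac, add_mul, mul_add]
  abel

theorem Jac_zero_right {A : Type*} [NonUnitalNonAssocRing A] (a x : A) :
    Jac a x (0 : A) = 0 := by
  simp [Jac]

theorem Jac_sum_mid {A : Type*} [NonUnitalNonAssocRing A] {ι : Type*} (s : Finset ι)
    (f : ι → A) (a y : A) : Jac a (∑ i ∈ s, f i) y = ∑ i ∈ s, Jac a (f i) y := by
  classical
  induction s using Finset.induction_on with
  | empty => rw [Finset.sum_empty, Finset.sum_empty, Jac_zero_mid]
  | insert i s hi ih => rw [Finset.sum_insert hi, Finset.sum_insert hi, Jac_add_mid, ih]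

theorem Jac_sum_right {A : Type*} [NonUnitalNonAssocRing A] {ι : Type*} (s : Finset ι)
    (f : ι → A) (a x : A) : Jac a x (∑ i ∈ s, f i) = ∑ i ∈ s, Jac a x (f i) := by
  classical
  induction s using Finset.induction_on with
  | empty => rw [Finset.sum_empty, Finset.sum_empty, Jac_zero_right]
  | insert i s hi ih => rw [Finset.sum_insert hi, Finset.sum_insert hi, Jac_add_right, ih]

end LCsAux

open LCsAux

variable (F) in
/-- the Lie center -/
def LCs : Submodule F (FreeMalcev F ℕ) where
  carrier := lieCenter (FreeMalcev F ℕ)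
  add_mem' := by
    intro a b ha hb x y
    rw [Jac_add_left, ha x y, hb x y, add_zero]
  zero_mem' := fun x y => Jac_zero_left x y
  smul_mem' := by
    intro c a ha x y
    rw [Jac_smul_left, ha x y, smul_zero]

theorem mem_LCs {z : FreeMalcev F ℕ} : z ∈ LCs F ↔ z ∈ lieCenter (FreeMalcev F ℕ) := Iff.rfl

theorem LCs_char : IsChar (LCs F) := by
  intro D hD a ha x y
  have h1 : D (Jac a x y) = Jac (D a) x y + Jac a (D x) y + Jac a x (D y) := by
    have hD' : ∀ a b, D (a * b) = D a * b + a * D b := hD
    unfold Jac
    simp only [map_add, hD', add_mul]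
    abel
  rw [ha x y, ha (D x) y, ha x (D y), map_zero, add_zero, add_zero] at h1
  exact h1.symm

namespace LCsAux

theorem piM_mul_right [C23 F] {m a : Multiset ℕ} (z x : FreeMalcev F ℕ) (hx : x ∈ GM F a) :
    piM F (m + a) (z * x) = piM F m z * x := by
  have key : ∀ z ∈ Submodule.span F (Set.range (wdM : FreeMagma ℕ → FreeMalcev F ℕ)),
      piM F (m + a) (z * x) = piM F m z * x := by
    intro z hz
    induction hz using Submodule.span_induction with
    | mem z hz =>
      obtain ⟨w, rfl⟩ := hz
      have hw : (wdM w : FreeMalcev F ℕ) ∈ GM F (content w) := by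
        rw [GM_eq]
        exact Submodule.subset_span ⟨w, rfl, rfl⟩
      rw [piM_of_mem (GM_mul hw hx), piM_wdM]
      by_cases h : content w = m
      · rw [if_pos h, if_pos (by rw [h])]
      · rw [if_neg h, if_neg (fun e => h (add_right_cancel e)), zero_mul]
    | zero => rw [zero_mul, map_zero, map_zero, zero_mul]
    | add b c _ _ hb hc => rw [add_mul, map_add, hb, hc, map_add, add_mul]
    | smul r b _ hb => rw [smul_mul_assoc, map_smul, hb, map_smul, smul_mul_assoc]
  exact key z (by rw [span_wdM]; exact Submodule.mem_top)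

theorem piM_mul_left [C23 F] {m a : Multiset ℕ} (z x : FreeMalcev F ℕ) (hx : x ∈ GM F a) :
    piM F (m + a) (x * z) = x * piM F m z := by
  have key : ∀ z ∈ Submodule.span F (Set.range (wdM : FreeMagma ℕ → FreeMalcev F ℕ)),
      piM F (m + a) (x * z) = x * piM F m z := by
    intro z hz
    induction hz using Submodule.span_induction with
    | mem z hz =>
      obtain ⟨w, rfl⟩ := hz
      have hw : (wdM w : FreeMalcev F ℕ) ∈ GM F (content w) := by
        rw [GM_eq]
        exact Submodule.subset_span ⟨w, rfl, rfl⟩
      rw [piM_of_mem (GM_mul hx hw), piM_wdM]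
      by_cases h : content w = m
      · rw [if_pos h, if_pos (by rw [h, add_comm])]
      · rw [if_neg h, if_neg (fun e => h (add_right_cancel ((add_comm _ _).trans e))), mul_zero]
    | zero => rw [mul_zero, map_zero, map_zero, mul_zero]
    | add b c _ _ hb hc => rw [mul_add, map_add, hb, hc, map_add, mul_add]
    | smul r b _ hb => rw [mul_smul_comm, map_smul, hb, map_smul, mul_smul_comm]
  exact key z (by rw [span_wdM]; exact Submodule.mem_top)

end LCsAux

theorem piM_Jac [C23 F] {m a b : Multiset ℕ} (z x y : FreeMalcev F ℕ) (hx : x ∈ GM F a)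
    (hy : y ∈ GM F b) : piM F (m + a + b) (Jac z x y) = Jac (piM F m z) x y := by
  unfold Jac
  rw [map_add, map_add]
  have h1 : piM F (m + a + b) (z * x * y) = piM F m z * x * y := by
    rw [piM_mul_right _ _ hy, piM_mul_right _ _ hx]
  have h2 : piM F (m + a + b) (x * y * z) = x * y * piM F m z := by
    have e : m + a + b = m + (a + b) := add_assoc _ _ _
    rw [e, piM_mul_left _ _ (GM_mul hx hy)]
  have h3 : piM F (m + a + b) (y * z * x) = y * piM F m z * x := by
    have e : m + a + b = m + b + a := by rw [add_assoc, add_assoc, add_comm a b]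
    rw [e, piM_mul_right _ _ hx, piM_mul_left _ _ hy]
  rw [h1, h2, h3]

theorem LCs_comp [C23 F] {z : FreeMalcev F ℕ} (hz : z ∈ LCs F) (m : Multiset ℕ) :
    piM F m z ∈ LCs F := by
  intro x y
  have h0 : ∀ a b : Multiset ℕ, Jac (piM F m z) (piM F a x) (piM F b y) = 0 := by
    intro a b
    rw [← piM_Jac z _ _ (piM_mem a x) (piM_mem b y), hz _ _, map_zero]
  obtain ⟨s, hs⟩ := sum_piM x
  obtain ⟨t, ht⟩ := sum_piM y
  rw [hs, Jac_sum_mid]
  refine Finset.sum_eq_zero fun a _ => ?_
  rw [ht, Jac_sum_right]
  exact Finset.sum_eq_zero fun b _ => h0 a b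

namespace LCsAux

theorem mk_eq_ev (p : FA F) : (FreeMalcev.mk p : FreeMalcev F ℕ) =
    ev (fun i => (FreeMalcev.of i : FreeMalcev F ℕ)) p := by
  have h : (FreeMalcev.mkHom : FA F →ₙₐ[F] FreeMalcev F ℕ) =
      ev (fun i => (FreeMalcev.of i : FreeMalcev F ℕ)) := by
    apply FreeNonUnitalNonAssocAlgebra.hom_ext
    intro i
    show (FreeMalcev.mk (FreeNonUnitalNonAssocAlgebra.of F i) : FreeMalcev F ℕ) = _
    rw [ev_of]
    rfl
  exact DFunLike.congr_fun h p

theorem phi_mk (p : FA F) : phi F (FreeMalcev.mk p) = ev (fun k => Bh.lt F k) p := by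
  rw [mk_eq_ev, hom_ev]
  refine congrArg (fun z : ℕ → Bh F => ev z p) (funext fun i => ?_)
  exact phi_of F i

theorem px_zero {l : List ℕ} (h : ¬ l.Nodup) : px F l = 0 := by
  rw [BhNZAux.px_eq]
  rw [List.nodup_iff_injective_get] at h
  simp only [Function.Injective, not_forall] at h
  obtain ⟨i, j, hij, hne⟩ := h
  exact AlternatingMap.map_eq_zero_of_eq _ _ (by simp only [hij]) hne

/-- the `w`-part of a homogeneous element -/
theorem hom_w [C23 F] {m : Multiset ℕ} {q : FreeMalcev F ℕ} (hq : q ∈ GM F m)
    (hz : q ∈ LCs F) (i : ℕ) : (phi F q).w i = 0 := by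
  obtain ⟨p, hp, rfl⟩ := hq
  rcases Nat.lt_or_ge (Multiset.card m) 2 with hm | hm
  · -- at most one letter
    have h1 : ∀ p ∈ Hg F m, (ev (fun k => Bh.lt F k) p).w i = 0 := by
      intro p hp
      unfold Hg at hp
      induction hp using Submodule.span_induction with
      | mem p hp =>
        obtain ⟨w, hw, rfl⟩ := hp
        rw [ev_wd]
        cases w with
        | of j => rfl
        | mul a b =>
          exfalso
          have h2 : content a + content b = m := hw
          have h3 := CS3Aux.card_content_pos a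
          have h4 := CS3Aux.card_content_pos b
          have h5 := congrArg Multiset.card h2
          rw [Multiset.card_add] at h5
          omega
      | zero => rw [map_zero]; rfl
      | add a b _ _ ha hb => rw [map_add, Bh.w_add, ha, hb, add_zero]
      | smul c a _ ha => rw [map_smul, Bh.w_smul, ha, smul_zero]
    rw [phi_mk]
    exact h1 p hp
  · rw [phi_mk]
    by_cases hi : i ∈ m
    · obtain ⟨l0, hl0⟩ : ∃ l0 : List ℕ, (l0 : Multiset ℕ) + {i} = m := by
        refine ⟨(m.erase i).toList, ?_⟩
        rw [Multiset.coe_toList, add_comm, Multiset.singleton_add]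
        exact Multiset.cons_erase hi
      obtain ⟨c, hc⟩ := ev_w hp hm i l0 hl0
      have hc1 : (ev (fun k => Bh.lt F k) p).w i = c • px F l0 := by
        have h := hc (fun k => k) (fun a b h => h)
        rw [h]
        congr 2
        exact List.map_id _
      rw [hc1]
      by_cases hnd : l0.Nodup
      · -- two new letters
        obtain ⟨N, hN⟩ : ∃ N : ℕ, ∀ k ∈ m, k < N := ⟨m.toFinset.sup id + 1, fun k hk =>
          Nat.lt_succ_of_le (Finset.le_sup (f := id) (Multiset.mem_toFinset.2 hk))⟩
        have hiN := hN i hi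
        have hl0m : ∀ k ∈ l0, k ∈ m := by
          intro k hk
          rw [← hl0, Multiset.mem_add]
          exact Or.inl (Multiset.mem_coe.2 hk)
        have h0 : (Jac (ev (fun k => Bh.lt F k) p) (Bh.lt F N) (Bh.lt F (N + 1))).w i = 0 := by
          have h := congrArg (phi F) (hz (FreeMalcev.of N) (FreeMalcev.of (N + 1)))
          rw [hom_Jac, phi_mk, phi_of, phi_of, map_zero] at h
          rw [h]
          rfl
        have hv : (ev (fun k => Bh.lt F k) p).v = 0 := ev_v hp hm (fun k => Bh.lt F k)
        set P := ev (fun k => Bh.lt F k) p with hP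
        have hvn : (Bh.lt F N).v i = 0 := by
          show (Finsupp.single N (1 : F)) i = 0
          rw [Finsupp.single_apply, if_neg (by omega)]
        have hvn' : (Bh.lt F (N + 1)).v i = 0 := by
          show (Finsupp.single (N + 1) (1 : F)) i = 0
          rw [Finsupp.single_apply, if_neg (by omega)]
        have hwn : (Bh.lt F N).w i = 0 := rfl
        have hwn' : (Bh.lt F (N + 1)).w i = 0 := rfl
        have hxn : ix (Bh.lt F N).v = xe F N := rfl
        have hxn' : ix (Bh.lt F (N + 1)).v = xe F (N + 1) := rfl
        unfold Jac at h0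
        simp only [Bh.w_add, Bh.w_mul, Bh.v_mul, hv, hvn, hvn', hwn, hwn', hxn, hxn', map_zero,
          Finsupp.coe_zero, Pi.zero_apply, zero_smul, smul_zero, sub_zero, zero_sub, zero_add,
          add_zero, mul_zero, zero_mul, neg_mul, hc1] at h0
        have h1 : c • px F l0 * xe F N * xe F (N + 1) = c • px F (l0 ++ [N, N + 1]) := by
          rw [px_append, px_cons, px_singleton, smul_mul_assoc, smul_mul_assoc, mul_assoc]
        have h2 : c • px F l0 * xe F (N + 1) * xe F N = - (c • px F (l0 ++ [N, N + 1])) := by
          rw [px_append, px_cons, px_singleton, smul_mul_assoc, smul_mul_assoc, mul_assoc,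
            xe_anti F (N + 1) N, mul_neg, smul_neg]
        rw [h1, h2, neg_neg, ← two_smul F, smul_smul] at h0
        have hnd' : (l0 ++ [N, N + 1]).Nodup := by
          rw [List.nodup_append]
          refine ⟨hnd, ?_, ?_⟩
          · simp
          · intro a ha b hb hab
            have h3 := hN a (hl0m a ha)
            simp only [List.mem_cons, List.not_mem_nil, or_false] at hb
            omega
        have h3 := (smul_eq_zero.1 h0).resolve_right (px_ne_zero F hnd')
        have h4 : c = 0 := (mul_eq_zero.1 h3).resolve_left C23.two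
        rw [h4, zero_smul]
      · rw [px_zero hnd, smul_zero]
    · exact ev_w_out hp hm (fun k => k) i (by
        intro h
        rw [Multiset.mem_map] at h
        obtain ⟨k, hk, hk'⟩ := h
        apply hi
        rw [← hk']
        exact hk)

end LCsAux

theorem LCs_w [C23 F] {z : FreeMalcev F ℕ} (hz : z ∈ LCs F) (i : ℕ) : (phi F z).w i = 0 := by
  obtain ⟨s, hs⟩ := sum_piM z
  have h1 : ∀ m, (phi F (piM F m z)).w i = 0 := fun m => hom_w (piM_mem m z) (LCs_comp hz m) i
  have h2 : (phi F (∑ m ∈ s, piM F m z)).w i = 0 := by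
    classical
    clear hs
    induction s using Finset.induction_on with
    | empty => rw [Finset.sum_empty, map_zero]; rfl
    | insert m s hm ih => rw [Finset.sum_insert hm, map_add, Bh.w_add, h1, ih, add_zero]
  rw [← hs] at h2
  exact h2

end Pool.Agent.MalP
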