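import Pool.Agent.MalP.BaseOf3
import Pool.Agent.MalP.CertPar

/-! # Certificates with two odd generators -/

set_option autoImplicit false

namespace Pool.Agent.MalP

universe u v

open Finset Equiv

theorem skew_cls {k : ℕ} {A : Type u} [AddCommGroup A] (cls : ℕ → ℕ) (G : (Fin k → A) → A)
    (hskew : ∀ i j : Fin k, i ≠ j → cls i = cls j → ∀ y : Fin k → A,
      G (y ∘ swap i j) = - G y) :
    ∀ (n : ℕ) (σ : Perm (Fin k)), σ.support.card = n → (∀ i, cls (σ i) = cls i) →
      ∀ y : Fin k → A, G (y ∘ σ) = (Perm.sign σ : ℤ) • G y := by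
  intro n
  induction n using Nat.strong_induction_on with
  | _ n ih =>
    intro σ hσ hc y
    by_cases h1 : σ = 1
    · subst h1
      simp
    · obtain ⟨x, hx⟩ : ∃ x, σ x ≠ x := by
        by_contra h2
        push Not at h2
        exact h1 (Equiv.ext h2)
      have h3 := Perm.card_support_swap_mul hx
      have h4 : ∀ i, cls ((swap x (σ x) * σ) i) = cls i := by
        intro i
        rw [Perm.mul_apply]
        by_cases e1 : σ i = x
        · rw [e1, swap_apply_left, hc x, ← e1, hc i]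
        · by_cases e2 : σ i = σ x
          · rw [e2, swap_apply_right, ← σ.injective e2]
          · rw [swap_apply_of_ne_of_ne e1 e2, hc i]
      have h5 := ih _ (hσ ▸ h3) (swap x (σ x) * σ) rfl h4 (y ∘ swap x (σ x))
      rw [hskew x (σ x) hx.symm (hc x).symm y, Perm.sign_mul, Perm.sign_swap hx.symm] at h5
      have h6 : (y ∘ swap x (σ x)) ∘ ⇑(swap x (σ x) * σ) = y ∘ σ := by
        funext i
        simp only [Function.comp_apply, Perm.mul_apply, swap_apply_self]
      rw [h6] at h5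
      rw [h5, Units.val_mul, Units.val_neg, Units.val_one, neg_one_mul, neg_smul, smul_neg,
        neg_neg]

/-- a partial alternation of the expression which is skew in the odd letters of every class -/
theorem super_skew2 {M : ℕ} {ids : List PEx} (hids : ∀ e ∈ ids, e.ml = true) (k : ℕ) (par : ℕ → Bool)
    (cls : ℕ → ℕ) (e : PEx) (he : e.ml = true) (hk : ∀ i : Fin k, (i : ℕ) ∈ e.ls)
    (hodd : ∀ i : Fin k, par (cls i) = true)
    (heven : ∀ l ∈ e.ls, k ≤ l → par (cls l) = false)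
    (C : Cert.{u} M ids par cls e)
    {A : Type u} [NonUnitalNonAssocRing A] (hA : Alg M ids A) (w : ℕ → A)
    {ι : Type*} [Fintype ι] (t : ι → Perm (Fin k)) (ht : ∀ a i, cls (t a i) = cls i)
    (f : (Fin k → A) → A)
    (hf : ∀ y, f y = ∑ a, (Perm.sign (t a) : ℤ) • e.ev (asg k cls (y ∘ t a) w))
    (hskew : ∀ i j : Fin k, i ≠ j → cls i = cls j → ∀ y : Fin k → A,
      f (y ∘ swap i j) = - f y) (y : Fin k → A) (hsm : ClsOk M k cls) :
    f y = 0 := by
  set H : Finset (Perm (Fin k)) := univ.filter (fun σ : Perm (Fin k) => ∀ i, cls (σ i) = cls i)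
    with hH
  have h1 := fun y => super_sound hids k par cls e he hk hodd heven C hA y w
  have h2 : ∑ σ ∈ H, (Perm.sign σ : ℤ) • f (y ∘ σ) = H.card • f y := by
    rw [← sum_const]
    refine sum_congr rfl fun σ hσ => ?_
    rw [hH, mem_filter] at hσ
    rw [skew_cls cls f hskew _ σ rfl hσ.2 y, smul_smul, ← Units.val_mul, Int.units_mul_self,
      Units.val_one, one_smul]
  have h3 : ∑ σ ∈ H, (Perm.sign σ : ℤ) • f (y ∘ σ) = 0 := by
    simp_rw [hf, smul_sum]
    rw [sum_comm]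
    refine sum_eq_zero fun a _ => ?_
    rw [← h1 y]
    refine sum_bij (fun σ _ => σ * t a) ?_ ?_ ?_ ?_
    · intro σ hσ
      rw [hH, mem_filter] at hσ
      rw [mem_filter]
      refine ⟨mem_univ _, fun i => ?_⟩
      rw [Perm.mul_apply, hσ.2, ht]
    · intro σ _ σ' _ h
      exact mul_right_cancel h
    · intro σ hσ
      rw [mem_filter] at hσ
      refine ⟨σ * (t a)⁻¹, ?_, by simp⟩
      rw [hH, mem_filter]
      refine ⟨mem_univ _, fun i => ?_⟩
      rw [Perm.mul_apply, hσ.2]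
      have := ht a ((t a)⁻¹ i)
      rw [← this]
      simp
    · intro σ _
      rw [smul_smul, ← Units.val_mul, ← Perm.sign_mul]
      rfl
  rw [h2] at h3
  exact hA.tf (H.card : ℤ) _ (smooth_cls hsm) (by rw [natCast_zsmul]; exact h3)

theorem aux1 {B : Type u} [NonUnitalNonAssocRing B] (a b d u v c : B) :
    (-a - -b * u + -d * v) * c = -((a - b * u + d * v) * c) := by
  simp only [neg_mul, add_mul, sub_mul]
  abel

theorem aux2 {B : Type u} [NonUnitalNonAssocRing B] (a b d u v c : B) :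
    (-a - b * u + d * v) * c = -((a - d * v + b * u) * c) := by
  simp only [neg_mul, add_mul, sub_mul]
  abel

theorem F4_of2 (F : Type v) [Field F] [C23 F] {B : Type u} [NonUnitalNonAssocRing B]
    [Module F B] (C : Cert.{u} 1 idsV par2 (clsL [0, 0, 1, 1, 2, 3]) F4Ex) (h : IsV B)
    (w x y z t p : B) :
    3 • P108 (w * x) y z t p = P108 x y z (w * t) p - P108 y z w (x * t) p -
      2 • P108 z w x (y * t) p + 2 • P108 w x y (z * t) p := by
  have hM := h.toIsMalcev
  have hneg : ∀ a b c d e : B, P108 (-a) b c d e = - P108 a b c d e := by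
    intro a b c d e
    unfold P108
    simp only [Jac_negl, Jac_negm, neg_mul, mul_neg]
    abel
  have key := super_skew2 (hsm := by decide +kernel) idsV_ml 4 par2 (clsL [0, 0, 1, 1, 2, 3]) F4Ex (by decide +kernel)
    (by decide +kernel) (by decide) (by decide +kernel) C (h.algV 1 F)
    (fun g => match g with | 2 => t | 3 => p | _ => 0) (fun _ : Unit => 1) (fun _ _ => rfl)
    (fun q => 3 • P108 (q 0 * q 1) (q 2) (q 3) t p - (P108 (q 1) (q 2) (q 3) (q 0 * t) p -
      P108 (q 2) (q 3) (q 0) (q 1 * t) p -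
      2 • P108 (q 3) (q 0) (q 1) (q 2 * t) p + 2 • P108 (q 0) (q 1) (q 2) (q 3 * t) p))
    (fun q => by
      rw [Fintype.sum_unique, Perm.sign_one, Units.val_one, one_smul]
      rfl)
    (fun i j hij hc q => by
      have h4 : ∀ i j : Fin 4, i ≠ j → clsL [0, 0, 1, 1, 2, 3] i = clsL [0, 0, 1, 1, 2, 3] j →
        (i = 0 ∧ j = 1) ∨ (i = 1 ∧ j = 0) ∨ (i = 2 ∧ j = 3) ∨ (i = 3 ∧ j = 2) := by decide
      have k1 : 3 • P108 (q 1 * q 0) (q 2) (q 3) t p - (P108 (q 0) (q 2) (q 3) (q 1 * t) p -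
          P108 (q 2) (q 3) (q 1) (q 0 * t) p -
          2 • P108 (q 3) (q 1) (q 0) (q 2 * t) p + 2 • P108 (q 1) (q 0) (q 2) (q 3 * t) p) =
          -(3 • P108 (q 0 * q 1) (q 2) (q 3) t p - (P108 (q 1) (q 2) (q 3) (q 0 * t) p -
          P108 (q 2) (q 3) (q 0) (q 1 * t) p -
          2 • P108 (q 3) (q 0) (q 1) (q 2 * t) p + 2 • P108 (q 0) (q 1) (q 2) (q 3 * t) p)) := by
        rw [show q 1 * q 0 = -(q 0 * q 1) from hM.ac _ _, hneg, hM.P12 (q 2) (q 0) (q 3),
          hM.P23 (q 2) (q 3) (q 0), hM.P12 (q 2) (q 1) (q 3), hM.P23 (q 2) (q 3) (q 1),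
          hM.P23 (q 3) (q 0) (q 1), hM.P12 (q 0) (q 1) (q 2)]
        abel
      have k2 : 3 • P108 (q 0 * q 1) (q 3) (q 2) t p - (P108 (q 1) (q 3) (q 2) (q 0 * t) p -
          P108 (q 3) (q 2) (q 0) (q 1 * t) p -
          2 • P108 (q 2) (q 0) (q 1) (q 3 * t) p + 2 • P108 (q 0) (q 1) (q 3) (q 2 * t) p) =
          -(3 • P108 (q 0 * q 1) (q 2) (q 3) t p - (P108 (q 1) (q 2) (q 3) (q 0 * t) p -
          P108 (q 2) (q 3) (q 0) (q 1 * t) p -
          2 • P108 (q 3) (q 0) (q 1) (q 2 * t) p + 2 • P108 (q 0) (q 1) (q 2) (q 3 * t) p)) := by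
        rw [hM.P23 (q 0 * q 1) (q 2) (q 3), hM.P23 (q 1) (q 2) (q 3), hM.P12 (q 2) (q 3) (q 0),
          hM.P12 (q 0) (q 2) (q 1), hM.P23 (q 0) (q 1) (q 2), hM.P23 (q 0) (q 3) (q 1),
          hM.P12 (q 0) (q 3) (q 1)]
        abel
      rcases h4 i j hij hc with ⟨rfl, rfl⟩ | ⟨rfl, rfl⟩ | ⟨rfl, rfl⟩ | ⟨rfl, rfl⟩
      · exact k1
      · exact k1
      · exact k2
      · exact k2) ![w, x, y, z]
  exact sub_eq_zero.1 key

section

variable (F : Type u) [Field F] {A : Type v} [NonUnitalNonAssocRing A] [Module F A]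
  [IsScalarTower F A A] [SMulCommClass F A A]

theorem em57_cls : ∀ i j : Fin 7, i ≠ j →
    clsL [0, 0, 0, 0, 0, 1, 1, 2] i = clsL [0, 0, 0, 0, 0, 1, 1, 2] j →
    (∃ i' j' : Fin 5, i' ≠ j' ∧ em57 i' = i ∧ em57 j' = j) ∨ (i = 5 ∧ j = 6) ∨
      (i = 6 ∧ j = 5) := by decide

omit [NonUnitalNonAssocRing A] in
theorem sw56 (q : Fin 7 → A) : (q ∘ swap (5 : Fin 7) 6) ∘ em57 = q ∘ em57 := by
  funext l
  simp only [Function.comp_apply]
  rw [swap_apply_of_ne_of_ne]
  · rintro e; exact em57_not (j := 5) (Or.inl rfl) ⟨l, e⟩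
  · rintro e; exact em57_not (j := 6) (Or.inr rfl) ⟨l, e⟩

omit [NonUnitalNonAssocRing A] in
theorem sw65 (q : Fin 7 → A) : (q ∘ swap (6 : Fin 7) 5) ∘ em57 = q ∘ em57 := by
  rw [swap_comm]
  exact sw56 q

omit [NonUnitalNonAssocRing A] in
theorem v57 (x0 x1 x2 x3 x4 u v : A) :
    ((![x0, x1, x2, x3, x4, u, v] : Fin 7 → A) ∘ em57) = ![x0, x1, x2, x3, x4] := by
  funext l
  fin_cases l <;> rfl

variable [CI 35 F]

set_option maxRecDepth 20000 in
theorem base_P_of2 (C : Cert.{v} 35 idsM par2 (clsL [0, 0, 0, 0, 0, 1, 1, 2]) P8Ex)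
    (h : IsMalcev A) (x0 x1 x2 x3 x4 u v c : A) :
    (ee F x0 x1 x2 x3 x4 (u * v) - ee F x0 x1 x2 x3 x4 v * u + ee F x0 x1 x2 x3 x4 u * v) * c =
      0 := by
  have key := super_skew2 (hsm := by decide +kernel) idsM_ml 7 par2 (clsL [0, 0, 0, 0, 0, 1, 1, 2]) P8Ex
    (by decide +kernel) (by decide +kernel) (by decide) (by decide +kernel) C (h.algM 35 F)
    (fun _ => c) (fun τ : Perm (Fin 5) => τ.viaFintypeEmbedding em57)
    (fun τ i => by
      have h1 : ∀ i : Fin 7, (∃ i' : Fin 5, em57 i' = i) ∨ i ∉ Set.range em57 := by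
        intro i
        by_cases hi : i ∈ Set.range em57
        · exact Or.inl hi
        · exact Or.inr hi
      rcases h1 i with ⟨i', rfl⟩ | h2
      · rw [Perm.viaFintypeEmbedding_apply_image]
        have h3 : ∀ a b : Fin 5, clsL [0, 0, 0, 0, 0, 1, 1, 2] (em57 a) =
          clsL [0, 0, 0, 0, 0, 1, 1, 2] (em57 b) := by decide
        exact h3 _ _
      · rw [Perm.viaFintypeEmbedding_apply_notMem_range τ em57 h2])
    (fun q => (eL F (q ∘ em57) (q 5 * q 6) - eL F (q ∘ em57) (q 6) * q 5 +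
      eL F (q ∘ em57) (q 5) * q 6) * c)
    (fun q => by
      rw [eL_apply, eL_apply, eL_apply]
      have e1 : (q ∘ em57 : Fin 5 → A) = ![q 0, q 1, q 2, q 3, q 4] := by
        funext j; fin_cases j <;> rfl
      rw [e1]
      have e2 : ∀ r : A, (∑ s : Perm (Fin 5), Perm.sign s • pe (![q 0, q 1, q 2, q 3, q 4] ∘ s) r) =
        Alt 5 (fun t => pe t r) ![q 0, q 1, q 2, q 3, q 4] := fun r => rfl
      rw [e2, e2, e2, ← Alt_mul, ← Alt_mul, ← Alt_sub, ← Alt_add, ← Alt_mul]
      unfold Alt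
      refine sum_congr rfl fun τ _ => ?_
      rw [Perm.viaFintypeEmbedding_sign]
      have e3 := via57 τ q (fun t a b => (pe t (a * b) - pe t b * a + pe t a * b) * c)
      have e4 : ∀ s : ℤˣ, ∀ z : A, s • z = (s : ℤ) • z := fun s z => rfl
      rw [e4]
      exact congrArg (fun z => (Perm.sign τ : ℤ) • z) e3)
    (fun i j hij hc q => by
      rcases em57_cls i j hij hc with ⟨i', j', h1, rfl, rfl⟩ | ⟨rfl, rfl⟩ | ⟨rfl, rfl⟩
      · have e1 : (q ∘ swap (em57 i') (em57 j')) ∘ em57 = (q ∘ em57) ∘ swap i' j' := by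
          funext l
          simp only [Function.comp_apply]
          rw [em57.injective.swap_apply]
        have e5 : (q ∘ swap (em57 i') (em57 j')) 5 = q 5 := by
          have h5 := em57_not (j := 5) (Or.inl rfl)
          rw [Function.comp_apply, swap_apply_of_ne_of_ne]
          · rintro e; exact h5 ⟨i', e.symm⟩
          · rintro e; exact h5 ⟨j', e.symm⟩
        have e6 : (q ∘ swap (em57 i') (em57 j')) 6 = q 6 := by
          have h5 := em57_not (j := 6) (Or.inr rfl)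
          rw [Function.comp_apply, swap_apply_of_ne_of_ne]
          · rintro e; exact h5 ⟨i', e.symm⟩
          · rintro e; exact h5 ⟨j', e.symm⟩
        rw [e1, e5, e6, AlternatingMap.map_swap _ _ h1, LinearMap.neg_apply, LinearMap.neg_apply,
          LinearMap.neg_apply]
        exact aux1 _ _ _ _ _ _
      · have e1 : (q ∘ swap (5 : Fin 7) 6) ∘ em57 = q ∘ em57 := sw56 q
        have e5 : (q ∘ swap (5 : Fin 7) 6) 5 = q 6 := rfl
        have e6 : (q ∘ swap (5 : Fin 7) 6) 6 = q 5 := rfl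
        simp only [e1, e5, e6]
        rw [show q 6 * q 5 = -(q 5 * q 6) from h.ac _ _, map_neg]
        exact aux2 _ _ _ _ _ _
      · have e1 : (q ∘ swap (6 : Fin 7) 5) ∘ em57 = q ∘ em57 := sw65 q
        have e5 : (q ∘ swap (6 : Fin 7) 5) 5 = q 6 := rfl
        have e6 : (q ∘ swap (6 : Fin 7) 5) 6 = q 5 := rfl
        simp only [e1, e5, e6]
        rw [show q 6 * q 5 = -(q 5 * q 6) from h.ac _ _, map_neg]
        exact aux2 _ _ _ _ _ _) ![x0, x1, x2, x3, x4, u, v]
  have e5 : (![x0, x1, x2, x3, x4, u, v] : Fin 7 → A) 5 = u := rfl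
  have e6 : (![x0, x1, x2, x3, x4, u, v] : Fin 7 → A) 6 = v := rfl
  simp only [v57, e5, e6] at key
  exact key

end

end Pool.Agent.MalP
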