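import Pool.Agent.MalP.BDefs

/-! # Part C: definitions

`ew F (x0 :: x1 :: x2 :: x3 :: x4 :: bs) a = e'(x0,..,x4;a) b1 ⋯ bk`; `Good q`: the two identities which all
elements of `Q` satisfy; `mm a b cs = (a b) c1 ⋯ ck`; `Zt F U a c`, `wf F V a`: the elements which span `Q`. -/

set_option autoImplicit false

open scoped BigOperators

namespace Pool.Agent.MalP

universe u v

section

variable {A : Type v} [NonUnitalNonAssocRing A]

/-- the two identities of the elements of `Q` -/
def Good (q : A) : Prop :=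
  (∀ u v c : A, (q * (u * v)) * c = 0) ∧ ∀ b c d : A, ((q * b) * c + (q * c) * b) * d = 0

/-- `(a b) c1 ⋯ ck` -/
def mm (a b : A) (cs : List A) : A := cs.foldl (· * ·) (a * b)

theorem mm_nil (a b : A) : mm a b [] = a * b := rfl

theorem mm_append (a b : A) (cs : List A) (c : A) : mm a b (cs ++ [c]) = mm a b cs * c := by
  simp [mm, List.foldl_append]

/-- the signs -/
def eps : ℕ → ℤ
  | 0 => -1
  | k + 1 => (-1) ^ (k + 1) * eps k

end

variable (F : Type u) [Field F] {A : Type v} [NonUnitalNonAssocRing A] [Module F A]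
  [IsScalarTower F A A] [SMulCommClass F A A]

/-- `e'(x0,..,x4;a) b1 ⋯ bk` -/
noncomputable def ew : List A → A → A
  | x0 :: x1 :: x2 :: x3 :: x4 :: t, a => t.foldl (· * ·) (ee F x0 x1 x2 x3 x4 a)
  | _, _ => 0

/-- twice `zeta(w(U');a); b, c)`, `U = U' ++ [b]` -/
noncomputable def Zt (U : List A) (a c : A) : A := zt (ew F U.dropLast a) (U.getLastD 0) c

/-- twice the element `w(V;a)` -/
noncomputable def wf (V : List A) (a : A) : A := 2 • ew F V a + Zt F V.dropLast a (V.getLastD 0)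

variable (A) in
/-- the ideal generated by all values of `e'` -/
noncomputable def Qid : Submodule F A :=
  sInf {I | IsIdl I ∧ ∀ x0 x1 x2 x3 x4 y : A, ee F x0 x1 x2 x3 x4 y ∈ I}

theorem ew_cons (x0 x1 x2 x3 x4 : A) (t : List A) (a : A) :
    ew F (x0 :: x1 :: x2 :: x3 :: x4 :: t) a = t.foldl (· * ·) (ee F x0 x1 x2 x3 x4 a) := rfl

omit [NonUnitalNonAssocRing A] in
theorem exists_cons5 {xs : List A} (h : 5 ≤ xs.length) : ∃ x0 x1 x2 x3 x4 t,
    xs = x0 :: x1 :: x2 :: x3 :: x4 :: t := by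
  match xs, h with
  | x0 :: x1 :: x2 :: x3 :: x4 :: t, _ => exact ⟨x0, x1, x2, x3, x4, t, rfl⟩
  | [], h => simp at h
  | [_], h => simp at h
  | [_, _], h => simp at h
  | [_, _, _], h => simp at h
  | [_, _, _, _], h => simp at h

theorem ew_append {xs : List A} (h : 5 ≤ xs.length) (b a : A) :
    ew F (xs ++ [b]) a = ew F xs a * b := by
  obtain ⟨x0, x1, x2, x3, x4, t, rfl⟩ := exists_cons5 h
  simp [ew_cons, List.foldl_append]

theorem ew_append_list {xs : List A} (h : 5 ≤ xs.length) (bs : List A) (a : A) :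
    ew F (xs ++ bs) a = bs.foldl (· * ·) (ew F xs a) := by
  obtain ⟨x0, x1, x2, x3, x4, t, rfl⟩ := exists_cons5 h
  simp [ew_cons, List.foldl_append]

theorem Zt_append (xs : List A) (b a c : A) : Zt F (xs ++ [b]) a c = zt (ew F xs a) b c := by
  simp [Zt]

theorem wf_append {U : List A} (h : 5 ≤ U.length) (c a : A) :
    wf F (U ++ [c]) a = 2 • (ew F U a * c) + Zt F U a c := by
  simp [wf, ew_append F h]

theorem Qid_idl : IsIdl (Qid F A) := by
  intro a ha b
  unfold Qid at ha ⊢
  rw [Submodule.mem_sInf] at ha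
  simp only [Submodule.mem_sInf]
  exact ⟨fun I hI => (hI.1 a (ha I hI) b).1, fun I hI => (hI.1 a (ha I hI) b).2⟩

theorem ee_mem_Qid (x0 x1 x2 x3 x4 y : A) : ee F x0 x1 x2 x3 x4 y ∈ Qid F A := by
  unfold Qid
  rw [Submodule.mem_sInf]
  exact fun I hI => hI.2 x0 x1 x2 x3 x4 y

theorem Qid_le {I : Submodule F A} (h1 : IsIdl I) (h2 : ∀ x0 x1 x2 x3 x4 y : A,
    ee F x0 x1 x2 x3 x4 y ∈ I) : Qid F A ≤ I := by
  unfold Qid
  exact sInf_le ⟨h1, h2⟩

theorem ew_mem_Qid (xs : List A) (a : A) : ew F xs a ∈ Qid F A := by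
  by_cases h : 5 ≤ xs.length
  · obtain ⟨x0, x1, x2, x3, x4, t, rfl⟩ := exists_cons5 h
    rw [ew_cons]
    have : ∀ (t : List A) (q : A), q ∈ Qid F A → t.foldl (· * ·) q ∈ Qid F A := by
      intro t
      induction t with
      | nil => exact fun q hq => hq
      | cons b t ih => exact fun q hq => ih (q * b) (Qid_idl F q hq b).1
    exact this t _ (ee_mem_Qid F _ _ _ _ _ _)
  · match xs, h with
    | [], _ => exact Submodule.zero_mem _
    | [_], _ => exact Submodule.zero_mem _
    | [_, _], _ => exact Submodule.zero_mem _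
    | [_, _, _], _ => exact Submodule.zero_mem _
    | [_, _, _, _], _ => exact Submodule.zero_mem _
    | x0 :: x1 :: x2 :: x3 :: x4 :: t, h => simp at h

end Pool.Agent.MalP
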