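import Pool.Agent.MalP.Ex

/-! # The algebra `GrA k A = A ⊗ Λ(k)` -/

set_option autoImplicit false

namespace Pool.Agent.MalP

universe u

open Finset

section sign

variable {k : ℕ}

/-- sign of the product of the basis elements `U`, `V` of the exterior algebra (0 if not disjoint) -/
def ep (U V : Finset (Fin k)) : ℤ :=
  if Disjoint U V then ∏ i ∈ U, ∏ j ∈ V, (if j < i then (-1 : ℤ) else 1) else 0

theorem ep_of_disj {U V : Finset (Fin k)} (h : Disjoint U V) :
    ep U V = ∏ i ∈ U, ∏ j ∈ V, (if j < i then (-1 : ℤ) else 1) := if_pos h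

theorem ep_of_not {U V : Finset (Fin k)} (h : ¬ Disjoint U V) : ep U V = 0 := if_neg h

theorem ep_empty_left (V : Finset (Fin k)) : ep ∅ V = 1 := by
  rw [ep_of_disj (disjoint_empty_left V), prod_empty]

theorem ep_empty_right (U : Finset (Fin k)) : ep U ∅ = 1 := by
  rw [ep_of_disj (disjoint_empty_right U)]
  simp

theorem ep_union_left {U U' : Finset (Fin k)} (h : Disjoint U U') (V : Finset (Fin k)) :
    ep (U ∪ U') V = ep U V * ep U' V := by
  by_cases h1 : Disjoint U V
  · by_cases h2 : Disjoint U' V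
    · rw [ep_of_disj h1, ep_of_disj h2, ep_of_disj (disjoint_union_left.2 ⟨h1, h2⟩),
        prod_union h]
    · rw [ep_of_not h2, mul_zero, ep_of_not]
      rw [disjoint_union_left]
      exact fun h => h2 h.2
  · rw [ep_of_not h1, zero_mul, ep_of_not]
    rw [disjoint_union_left]
    exact fun h => h1 h.1

theorem ep_union_right {V V' : Finset (Fin k)} (h : Disjoint V V') (U : Finset (Fin k)) :
    ep U (V ∪ V') = ep U V * ep U V' := by
  by_cases h1 : Disjoint U V
  · by_cases h2 : Disjoint U V'
    · rw [ep_of_disj h1, ep_of_disj h2, ep_of_disj (disjoint_union_right.2 ⟨h1, h2⟩),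
        ← prod_mul_distrib]
      exact prod_congr rfl fun i _ => prod_union h
    · rw [ep_of_not h2, mul_zero, ep_of_not]
      rw [disjoint_union_right]
      exact fun h => h2 h.2
  · rw [ep_of_not h1, zero_mul, ep_of_not]
    rw [disjoint_union_right]
    exact fun h => h1 h.1

/-- parity of the cardinality -/
def od (U : Finset (Fin k)) : Bool := Nat.bodd U.card

theorem od_union {U V : Finset (Fin k)} (h : Disjoint U V) : od (U ∪ V) = xor (od U) (od V) := by
  unfold od
  rw [card_union_of_disjoint h, Nat.bodd_add]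

theorem neg_one_pow_bodd (n : ℕ) : (-1 : ℤ) ^ n = sg (Nat.bodd n) := by
  induction n with
  | zero => rfl
  | succ n ih =>
    rw [pow_succ, ih, Nat.bodd_succ]
    cases Nat.bodd n <;> rfl

theorem ep_comm (U V : Finset (Fin k)) : ep V U = sg (od U && od V) * ep U V := by
  by_cases h : Disjoint U V
  · rw [ep_of_disj h, ep_of_disj h.symm, prod_comm]
    have h1 : sg (od U && od V) = ∏ i ∈ U, ∏ j ∈ V, (-1 : ℤ) := by
      rw [prod_const, prod_const, ← pow_mul, neg_one_pow_bodd, Nat.bodd_mul, Bool.and_comm]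
      rfl
    rw [h1, ← prod_mul_distrib]
    refine prod_congr rfl fun i hi => ?_
    rw [← prod_mul_distrib]
    refine prod_congr rfl fun j hj => ?_
    have hij : i ≠ j := fun e => (disjoint_left.1 h hi) (e ▸ hj)
    rcases lt_or_gt_of_ne hij with h2 | h2
    · rw [if_pos h2, if_neg (not_lt.2 h2.le)]
      norm_num
    · rw [if_neg (not_lt.2 h2.le), if_pos h2]
      norm_num
  · rw [ep_of_not h, ep_of_not (fun h' => h h'.symm), mul_zero]

end sign

/-- `A ⊗ Λ(k)` -/
def GrA (k : ℕ) (A : Type u) : Type u := Finset (Fin k) → A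

namespace GrA

variable {k : ℕ} {A : Type u} [NonUnitalNonAssocRing A]

instance : AddCommGroup (GrA k A) := inferInstanceAs (AddCommGroup (Finset (Fin k) → A))

instance : Mul (GrA k A) :=
  ⟨fun f g W => ∑ x : Finset (Fin k) × Finset (Fin k),
    if x.1 ∪ x.2 = W then ep x.1 x.2 • (f x.1 * g x.2) else 0⟩

theorem mul_def (f g : GrA k A) (W : Finset (Fin k)) :
    (f * g) W = ∑ x : Finset (Fin k) × Finset (Fin k),
      if x.1 ∪ x.2 = W then ep x.1 x.2 • (f x.1 * g x.2) else 0 := rfl

omit [NonUnitalNonAssocRing A] in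
@[ext] theorem ext {f g : GrA k A} (h : ∀ W, f W = g W) : f = g := funext h

theorem add_ap (f g : GrA k A) (W : Finset (Fin k)) : (f + g) W = f W + g W := rfl
theorem zero_ap (W : Finset (Fin k)) : (0 : GrA k A) W = 0 := rfl
theorem neg_ap (f : GrA k A) (W : Finset (Fin k)) : (-f) W = -f W := rfl
theorem zsmul_ap (n : ℤ) (f : GrA k A) (W : Finset (Fin k)) : (n • f) W = n • f W := rfl
theorem nsmul_ap (n : ℕ) (f : GrA k A) (W : Finset (Fin k)) : (n • f) W = n • f W := rfl
theorem sum_ap {α : Type*} (s : Finset α) (f : α → GrA k A) (W : Finset (Fin k)) :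
    (∑ i ∈ s, f i) W = ∑ i ∈ s, f i W := by
  exact Finset.sum_apply W s f

instance : NonUnitalNonAssocRing (GrA k A) where
  left_distrib := fun a b c => by
    ext W
    simp only [mul_def, add_ap, ← sum_add_distrib]
    refine sum_congr rfl fun x _ => ?_
    split_ifs
    · rw [mul_add, smul_add]
    · rw [add_zero]
  right_distrib := fun a b c => by
    ext W
    simp only [mul_def, add_ap, ← sum_add_distrib]
    refine sum_congr rfl fun x _ => ?_
    split_ifs
    · rw [add_mul, smul_add]
    · rw [add_zero]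
  zero_mul := fun a => by
    ext W
    simp only [mul_def, zero_ap, zero_mul, smul_zero, ite_self, sum_const_zero]
  mul_zero := fun a => by
    ext W
    simp only [mul_def, zero_ap, mul_zero, smul_zero, ite_self, sum_const_zero]

/-- the element `a ⊗ e_U` -/
def sgl (U : Finset (Fin k)) (a : A) : GrA k A := fun W => if W = U then a else 0

theorem sgl_add (U : Finset (Fin k)) (a b : A) : sgl U (a + b) = sgl U a + sgl U b := by
  ext W
  simp only [sgl, add_ap]
  split_ifs
  · rfl
  · rw [add_zero]

theorem sgl_zero (U : Finset (Fin k)) : sgl U (0 : A) = 0 := by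
  ext W
  simp only [sgl, zero_ap, ite_self]

theorem sgl_neg (U : Finset (Fin k)) (a : A) : sgl U (-a) = -sgl U a := by
  ext W
  simp only [sgl, neg_ap]
  split_ifs
  · rfl
  · rw [neg_zero]

theorem sgl_sub (U : Finset (Fin k)) (a b : A) : sgl U (a - b) = sgl U a - sgl U b := by
  rw [sub_eq_add_neg, sub_eq_add_neg, sgl_add, sgl_neg]

theorem sgl_zsmul (U : Finset (Fin k)) (n : ℤ) (a : A) : sgl U (n • a) = n • sgl U a := by
  ext W
  simp only [sgl, zsmul_ap]
  split_ifs
  · rfl
  · rw [smul_zero]

theorem sgl_nsmul (U : Finset (Fin k)) (n : ℕ) (a : A) : sgl U (n • a) = n • sgl U a := by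
  ext W
  simp only [sgl, nsmul_ap]
  split_ifs
  · rfl
  · rw [smul_zero]

theorem sgl_mul (U V : Finset (Fin k)) (a b : A) :
    sgl U a * sgl V b = ep U V • sgl (U ∪ V) (a * b) := by
  ext W
  rw [mul_def, sum_eq_single (U, V)]
  · simp only [sgl, if_true, zsmul_ap]
    by_cases h : U ∪ V = W
    · rw [if_pos h, if_pos h.symm]
    · rw [if_neg h, if_neg (fun h' => h h'.symm), smul_zero]
  · rintro ⟨x, y⟩ _ h
    have h1 : ¬ (x = U ∧ y = V) := by
      rintro ⟨rfl, rfl⟩
      exact h rfl
    simp only [sgl]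
    by_cases hx : x = U
    · have hy : y ≠ V := fun e => h1 ⟨hx, e⟩
      simp only [if_neg hy, mul_zero, smul_zero, ite_self]
    · simp only [if_neg hx, zero_mul, smul_zero, ite_self]
  · intro h
    exact absurd (mem_univ _) h

theorem eq_sum (f : GrA k A) : f = ∑ U, sgl U (f U) := by
  ext W
  rw [sum_ap]
  simp only [sgl]
  rw [sum_ite_eq univ W fun U => f U]
  simp

/-- the elements of parity `b` -/
def P (k : ℕ) (A : Type u) [NonUnitalNonAssocRing A] (b : Bool) : AddSubgroup (GrA k A) where
  carrier := {f | ∀ U, od U ≠ b → f U = 0}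
  zero_mem' := fun _ _ => rfl
  add_mem' := fun {f g} hf hg U hU => by rw [add_ap, hf U hU, hg U hU, add_zero]
  neg_mem' := fun {f} hf U hU => by rw [neg_ap, hf U hU, neg_zero]

theorem sgl_mem (U : Finset (Fin k)) (a : A) : sgl U a ∈ P k A (od U) := by
  intro W hW
  show (if W = U then a else 0) = 0
  rw [if_neg]
  rintro rfl
  exact hW rfl

theorem mul_mem (a b : Bool) (x y : GrA k A) (hx : x ∈ P k A a) (hy : y ∈ P k A b) :
    x * y ∈ P k A (xor a b) := by
  intro W hW
  rw [mul_def]
  refine sum_eq_zero fun z _ => ?_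
  split_ifs with h
  · by_cases hd : Disjoint z.1 z.2
    · have h1 : od W = xor (od z.1) (od z.2) := by rw [← h, od_union hd]
      by_cases h2 : od z.1 = a
      · have h3 : od z.2 ≠ b := by
          rintro rfl
          exact hW (by rw [h1, h2])
        rw [hy _ h3, mul_zero, smul_zero]
      · rw [hx _ h2, zero_mul, smul_zero]
    · rw [ep_of_not hd, zero_smul]
  · rfl

end GrA

end Pool.Agent.MalP
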