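import Pool.Agent.MalP.Super1

/-! # The super evaluation on pure elements -/

set_option autoImplicit false

namespace Pool.Agent.MalP

universe u

open Finset

theorem sg_xor (a b : Bool) : sg (xor a b) = sg a * sg b := by
  cases a <;> cases b <;> rfl

theorem sg_sq (a : Bool) : sg a * sg a = 1 := by
  cases a <;> rfl

section combi

theorem sg_oinv (p : ℕ → Bool) (i : ℕ) (m : List ℕ) (hm : m.Nodup) :
    sg (oinv p i m) = ∏ j ∈ m.toFinset, sg (p i && p j && Nat.blt j i) := by
  induction m with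
  | nil => rfl
  | cons a m ih =>
    rw [List.nodup_cons] at hm
    rw [List.toFinset_cons, prod_insert (by simpa using hm.1), ← ih hm.2]
    exact sg_xor _ _

theorem sg_linv (p : ℕ → Bool) (l m : List ℕ) (hl : l.Nodup) (hm : m.Nodup) :
    sg (linv p l m) = ∏ i ∈ l.toFinset, ∏ j ∈ m.toFinset, sg (p i && p j && Nat.blt j i) := by
  induction l with
  | nil => rfl
  | cons a l ih =>
    rw [List.nodup_cons] at hl
    rw [List.toFinset_cons, prod_insert (by simpa using hl.1), ← ih hl.2, ← sg_oinv p a m hm]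
    exact sg_xor _ _

theorem PEx.ml_add {a b : PEx} (h : (PEx.add a b).ml = true) :
    a.ml = true ∧ b.ml = true ∧ a.lts.Perm b.lts := by
  have h' : (a.ml && b.ml && a.lts.isPerm b.lts) = true := h
  rw [Bool.and_eq_true, Bool.and_eq_true, List.isPerm_iff] at h'
  exact ⟨h'.1.1, h'.1.2, h'.2⟩

theorem PEx.ml_sub {a b : PEx} (h : (PEx.sub a b).ml = true) :
    a.ml = true ∧ b.ml = true ∧ a.lts.Perm b.lts := PEx.ml_add (a := a) (b := b) h

theorem PEx.ml_mul {a b : PEx} (h : (PEx.mul a b).ml = true) :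
    a.ml = true ∧ b.ml = true ∧ ∀ i ∈ a.lts, i ∉ b.lts := by
  have h' : (a.ml && b.ml && a.lts.all (fun i => b.lts.all (fun j => !(Nat.beq i j)))) = true := h
  rw [Bool.and_eq_true, Bool.and_eq_true, List.all_eq_true] at h'
  refine ⟨h'.1.1, h'.1.2, fun i hi hi' => ?_⟩
  have h1 := h'.2 i hi
  rw [List.all_eq_true] at h1
  have h2 := h1 i hi'
  simp at h2

theorem PEx.nodup {e : PEx} (h : e.ml = true) : e.lts.Nodup := by
  induction e with
  | X i => exact List.nodup_singleton i
  | add a b iha ihb => exact iha (PEx.ml_add h).1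
  | sub a b iha ihb => exact iha (PEx.ml_sub h).1
  | neg a ih => exact ih h
  | zs n a ih => exact ih h
  | ns n a ih => exact ih h
  | mul a b iha ihb =>
    obtain ⟨h1, h2, h3⟩ := PEx.ml_mul h
    have : (PEx.mul a b).lts = a.lts ++ b.lts := rfl
    rw [this, List.nodup_append]
    exact ⟨iha h1, ihb h2, fun i hi j hj e => h3 i hi (e ▸ hj)⟩

/-- letters as a finset -/
def PEx.ls (e : PEx) : Finset ℕ := e.lts.toFinset

theorem PEx.ls_X (i : ℕ) : (PEx.X i).ls = {i} := rfl

theorem PEx.ls_add {a b : PEx} (h : (PEx.add a b).ml = true) : b.ls = (PEx.add a b).ls := by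
  exact (List.toFinset_eq_of_perm _ _ (PEx.ml_add h).2.2).symm

theorem PEx.ls_sub {a b : PEx} (h : (PEx.sub a b).ml = true) : b.ls = (PEx.sub a b).ls := by
  exact (List.toFinset_eq_of_perm _ _ (PEx.ml_sub h).2.2).symm

theorem PEx.ls_mul (a b : PEx) : (PEx.mul a b).ls = a.ls ∪ b.ls := by
  exact List.toFinset_append

theorem PEx.mem_ls {e : PEx} {l : ℕ} : l ∈ e.ls ↔ l ∈ e.lts := List.mem_toFinset

theorem PEx.ls_disj {a b : PEx} (h : (PEx.mul a b).ml = true) : Disjoint a.ls b.ls := by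
  rw [disjoint_left]
  intro i hi hi'
  exact (PEx.ml_mul h).2.2 i (PEx.mem_ls.1 hi) (PEx.mem_ls.1 hi')

variable {k : ℕ} (U : ℕ → Finset (Fin k))

/-- the sign of the product of the `U i`, `i ∈ s`, in increasing order -/
def E2 (s : Finset ℕ) : ℤ := ∏ i ∈ s, ∏ j ∈ s, if i < j then ep (U i) (U j) else 1

theorem E2_single (i : ℕ) : E2 U {i} = 1 := by
  simp [E2]

theorem E2_union {s t : Finset ℕ} (h : Disjoint s t) :
    E2 U (s ∪ t) = E2 U s * E2 U t *
      ∏ i ∈ s, ∏ j ∈ t, (if i < j then ep (U i) (U j) else ep (U j) (U i)) := by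
  have h1 : ∏ i ∈ s, ∏ j ∈ t, (if i < j then ep (U i) (U j) else ep (U j) (U i)) =
      (∏ i ∈ s, ∏ j ∈ t, (if i < j then ep (U i) (U j) else 1)) *
      ∏ i ∈ t, ∏ j ∈ s, (if i < j then ep (U i) (U j) else 1) := by
    rw [prod_comm (s := t), ← prod_mul_distrib]
    refine prod_congr rfl fun i hi => ?_
    rw [← prod_mul_distrib]
    refine prod_congr rfl fun j hj => ?_
    have hij : i ≠ j := fun e => (disjoint_left.1 h hi) (e ▸ hj)
    rcases lt_or_gt_of_ne hij with h2 | h2
    · rw [if_pos h2, if_pos h2, if_neg (not_lt.2 h2.le), mul_one]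
    · rw [if_neg (not_lt.2 h2.le), if_neg (not_lt.2 h2.le), if_pos h2, one_mul]
  rw [h1]
  unfold E2
  rw [prod_union h]
  simp_rw [prod_union h]
  rw [prod_mul_distrib, prod_mul_distrib]
  ring

theorem disj_of_E2 {s : Finset ℕ} (h : E2 U s ≠ 0) :
    ∀ i ∈ s, ∀ j ∈ s, i ≠ j → Disjoint (U i) (U j) := by
  have key : ∀ i ∈ s, ∀ j ∈ s, i < j → Disjoint (U i) (U j) := by
    intro i hi j hj hij
    by_contra hd
    apply h
    unfold E2
    rw [prod_eq_zero hi]
    rw [prod_eq_zero hj]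
    rw [if_pos hij, ep_of_not hd]
  intro i hi j hj hij
  rcases lt_or_gt_of_ne hij with h2 | h2
  · exact key i hi j hj h2
  · exact (key j hj i hi h2).symm

theorem ep_biUnion_left {s : Finset ℕ} (h : ∀ i ∈ s, ∀ j ∈ s, i ≠ j → Disjoint (U i) (U j))
    (V : Finset (Fin k)) : ep (s.biUnion U) V = ∏ i ∈ s, ep (U i) V := by
  induction s using Finset.induction_on with
  | empty => rw [biUnion_empty, prod_empty, ep_empty_left]
  | insert a s ha ih =>
    rw [biUnion_insert, prod_insert ha, ep_union_left, ih]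
    · exact fun i hi j hj => h i (mem_insert_of_mem hi) j (mem_insert_of_mem hj)
    · rw [disjoint_biUnion_right]
      intro i hi
      exact h a (mem_insert_self a s) i (mem_insert_of_mem hi) (fun e => ha (e ▸ hi))

theorem ep_biUnion_right {s : Finset ℕ} (h : ∀ i ∈ s, ∀ j ∈ s, i ≠ j → Disjoint (U i) (U j))
    (V : Finset (Fin k)) : ep V (s.biUnion U) = ∏ i ∈ s, ep V (U i) := by
  induction s using Finset.induction_on with
  | empty => rw [biUnion_empty, prod_empty, ep_empty_right]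
  | insert a s ha ih =>
    rw [biUnion_insert, prod_insert ha, ep_union_right, ih]
    · exact fun i hi j hj => h i (mem_insert_of_mem hi) j (mem_insert_of_mem hj)
    · rw [disjoint_biUnion_right]
      intro i hi
      exact h a (mem_insert_self a s) i (mem_insert_of_mem hi) (fun e => ha (e ▸ hi))

theorem E2_union' {s t : Finset ℕ} (h : Disjoint s t) (p : ℕ → Bool)
    (hp : ∀ i ∈ s ∪ t, p i = od (U i)) :
    (E2 U s * E2 U t) * ((∏ i ∈ s, ∏ j ∈ t, sg (p i && p j && Nat.blt j i)) *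
      ep (s.biUnion U) (t.biUnion U)) = E2 U (s ∪ t) := by
  by_cases hs : E2 U s = 0
  · rw [E2_union U h, hs]
    ring
  by_cases ht : E2 U t = 0
  · rw [E2_union U h, ht]
    ring
  rw [E2_union U h, ep_biUnion_left U (disj_of_E2 U hs)]
  congr 1
  rw [← prod_mul_distrib]
  refine prod_congr rfl fun i hi => ?_
  rw [ep_biUnion_right U (disj_of_E2 U ht), ← prod_mul_distrib]
  refine prod_congr rfl fun j hj => ?_
  have hij : i ≠ j := fun e => (disjoint_left.1 h hi) (e ▸ hj)
  rw [hp i (mem_union_left _ hi), hp j (mem_union_right _ hj)]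
  rcases lt_or_gt_of_ne hij with h2 | h2
  · have : Nat.blt j i = false := by
      rw [Bool.eq_false_iff]
      intro h3
      rw [Nat.blt_eq] at h3
      omega
    rw [if_pos h2, this, Bool.and_false]
    exact one_mul _
  · have : Nat.blt j i = true := by
      rw [Nat.blt_eq]
      exact h2
    rw [if_neg (not_lt.2 h2.le), this, Bool.and_true, ep_comm (U i) (U j)]

end combi

variable {k : ℕ} {A : Type u} [NonUnitalNonAssocRing A]

theorem zz_mul (m n : ℤ) (x y : A) : (m • x) * (n • y) = (m * n) • (x * y) := by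
  rw [smul_mul_assoc, mul_smul_comm, smul_smul]

/-- the super evaluation on pure elements -/
theorem sev_sgl (e : PEx) (he : e.ml = true) (p : ℕ → Bool) (z : ℕ → GrA k A)
    (U : ℕ → Finset (Fin k)) (b : ℕ → A) (hz : ∀ l ∈ e.ls, z l = GrA.sgl (U l) (b l))
    (hp : ∀ l ∈ e.ls, p l = od (U l)) :
    e.sev p z = E2 U e.ls • GrA.sgl (e.ls.biUnion U) (e.ev b) := by
  induction e with
  | X i =>
    rw [PEx.ls_X, E2_single, singleton_biUnion, one_smul]
    exact hz i (mem_singleton_self i)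
  | add a c iha ihc =>
    obtain ⟨h1, h2, _⟩ := PEx.ml_add he
    have e1 := iha h1 hz hp
    have e2 := ihc h2 (by rw [PEx.ls_add he]; exact hz) (by rw [PEx.ls_add he]; exact hp)
    rw [PEx.ls_add he] at e2
    show a.sev p z + c.sev p z = _
    rw [e1, e2]
    show E2 U a.ls • _ + E2 U a.ls • _ = E2 U a.ls • GrA.sgl (a.ls.biUnion U) (a.ev b + c.ev b)
    rw [GrA.sgl_add, smul_add]
    rfl
  | sub a c iha ihc =>
    obtain ⟨h1, h2, _⟩ := PEx.ml_sub he
    have e1 := iha h1 hz hp
    have e2 := ihc h2 (by rw [PEx.ls_sub he]; exact hz) (by rw [PEx.ls_sub he]; exact hp)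
    rw [PEx.ls_sub he] at e2
    show a.sev p z - c.sev p z = _
    rw [e1, e2]
    show E2 U a.ls • _ - E2 U a.ls • _ = E2 U a.ls • GrA.sgl (a.ls.biUnion U) (a.ev b - c.ev b)
    rw [GrA.sgl_sub, smul_sub]
    rfl
  | neg a ih =>
    show - a.sev p z = _
    rw [ih he hz hp]
    show _ = E2 U a.ls • GrA.sgl (a.ls.biUnion U) (- a.ev b)
    rw [GrA.sgl_neg, smul_neg]
  | zs n a ih =>
    show n • a.sev p z = _
    rw [ih he hz hp]
    show _ = E2 U a.ls • GrA.sgl (a.ls.biUnion U) (n • a.ev b)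
    rw [GrA.sgl_zsmul, smul_comm]
  | ns n a ih =>
    show n • a.sev p z = _
    rw [ih he hz hp]
    show _ = E2 U a.ls • GrA.sgl (a.ls.biUnion U) (n • a.ev b)
    rw [GrA.sgl_nsmul, smul_comm]
  | mul a c iha ihc =>
    obtain ⟨h1, h2, _⟩ := PEx.ml_mul he
    have hd := PEx.ls_disj he
    rw [PEx.ls_mul] at hz hp
    have e1 := iha h1 (fun l hl => hz l (mem_union_left _ hl)) (fun l hl => hp l (mem_union_left _ hl))
    have e2 := ihc h2 (fun l hl => hz l (mem_union_right _ hl)) (fun l hl => hp l (mem_union_right _ hl))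
    show sg (linv p a.lts c.lts) • (a.sev p z * c.sev p z) = _
    rw [e1, e2, zz_mul, GrA.sgl_mul, PEx.ls_mul, sg_linv p _ _ (PEx.nodup h1) (PEx.nodup h2),
      union_biUnion, smul_smul, smul_smul, ← E2_union' U hd p hp]
    congr 1
    unfold PEx.ls
    ring

end Pool.Agent.MalP
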