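import Pool.Agent.MalP.Super2

/-! # `GrA k A` satisfies the super identities -/

set_option autoImplicit false

namespace Pool.Agent.MalP

universe u

open Finset

section lin

variable {S : Type u} [NonUnitalNonAssocRing S]

theorem PEx.sev_congr (p : ℕ → Bool) {z z' : ℕ → S} (e : PEx) (he : e.ml = true)
    (h : ∀ l ∈ e.ls, z l = z' l) : e.sev p z = e.sev p z' := by
  induction e with
  | X i => exact h i (mem_singleton_self i)
  | add a b iha ihb =>
    show a.sev p z + b.sev p z = a.sev p z' + b.sev p z'
    rw [iha (PEx.ml_add he).1 h, ihb (PEx.ml_add he).2.1 (by rw [PEx.ls_add he]; exact h)]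
  | sub a b iha ihb =>
    show a.sev p z - b.sev p z = a.sev p z' - b.sev p z'
    rw [iha (PEx.ml_sub he).1 h, ihb (PEx.ml_sub he).2.1 (by rw [PEx.ls_sub he]; exact h)]
  | neg a ih =>
    show - a.sev p z = - a.sev p z'
    rw [ih he h]
  | zs n a ih =>
    show n • a.sev p z = n • a.sev p z'
    rw [ih he h]
  | ns n a ih =>
    show n • a.sev p z = n • a.sev p z'
    rw [ih he h]
  | mul a b iha ihb =>
    rw [PEx.ls_mul] at h
    show sg (linv p a.lts b.lts) • (a.sev p z * b.sev p z) =
      sg (linv p a.lts b.lts) • (a.sev p z' * b.sev p z')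
    rw [iha (PEx.ml_mul he).1 (fun l hl => h l (mem_union_left _ hl)),
      ihb (PEx.ml_mul he).2.1 (fun l hl => h l (mem_union_right _ hl))]

/-- the super evaluation is additive in every letter -/
theorem PEx.sev_add (p : ℕ → Bool) (z : ℕ → S) (e : PEx) (he : e.ml = true) (l : ℕ) (hl : l ∈ e.ls)
    (x y : S) : e.sev p (Function.update z l (x + y)) =
      e.sev p (Function.update z l x) + e.sev p (Function.update z l y) := by
  induction e with
  | X i =>
    have : l = i := by
      rw [PEx.ls_X, mem_singleton] at hl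
      exact hl
    subst this
    show Function.update z l (x + y) l = Function.update z l x l + Function.update z l y l
    simp
  | add a b iha ihb =>
    show a.sev p _ + b.sev p _ = (a.sev p _ + b.sev p _) + (a.sev p _ + b.sev p _)
    rw [iha (PEx.ml_add he).1 hl, ihb (PEx.ml_add he).2.1 (by rw [PEx.ls_add he]; exact hl)]
    abel
  | sub a b iha ihb =>
    show a.sev p _ - b.sev p _ = (a.sev p _ - b.sev p _) + (a.sev p _ - b.sev p _)
    rw [iha (PEx.ml_sub he).1 hl, ihb (PEx.ml_sub he).2.1 (by rw [PEx.ls_sub he]; exact hl)]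
    abel
  | neg a ih =>
    show - a.sev p _ = - a.sev p _ + - a.sev p _
    rw [ih he hl]
    abel
  | zs n a ih =>
    show n • a.sev p _ = n • a.sev p _ + n • a.sev p _
    rw [ih he hl, smul_add]
  | ns n a ih =>
    show n • a.sev p _ = n • a.sev p _ + n • a.sev p _
    rw [ih he hl, smul_add]
  | mul a b iha ihb =>
    show sg (linv p a.lts b.lts) • (a.sev p _ * b.sev p _) =
      sg (linv p a.lts b.lts) • (a.sev p _ * b.sev p _) +
      sg (linv p a.lts b.lts) • (a.sev p _ * b.sev p _)
    rw [← smul_add]
    congr 1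
    have hd := PEx.ls_disj he
    rw [PEx.ls_mul, mem_union] at hl
    rcases hl with hl | hl
    · have hl' : l ∉ b.ls := disjoint_left.1 hd hl
      have e1 : ∀ t : S, b.sev p (Function.update z l t) = b.sev p z := fun t =>
        PEx.sev_congr p b (PEx.ml_mul he).2.1 fun i hi => by
          rw [Function.update_of_ne]
          rintro rfl
          exact hl' hi
      rw [e1, e1, e1, iha (PEx.ml_mul he).1 hl, add_mul]
    · have hl' : l ∉ a.ls := disjoint_right.1 hd hl
      have e1 : ∀ t : S, a.sev p (Function.update z l t) = a.sev p z := fun t =>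
        PEx.sev_congr p a (PEx.ml_mul he).1 fun i hi => by
          rw [Function.update_of_ne]
          rintro rfl
          exact hl' hi
      rw [e1, e1, e1, ihb (PEx.ml_mul he).2.1 hl, mul_add]

/-- the super evaluation as an additive function of one letter -/
def PEx.sevHom (p : ℕ → Bool) (z : ℕ → S) (e : PEx) (he : e.ml = true) (l : ℕ) (hl : l ∈ e.ls) :
    S →+ S :=
  AddMonoidHom.mk' (fun x => e.sev p (Function.update z l x))
    (fun x y => PEx.sev_add p z e he l hl x y)

theorem PEx.sevHom_apply (p : ℕ → Bool) (z : ℕ → S) (e : PEx) (he : e.ml = true) (l : ℕ)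
    (hl : l ∈ e.ls) (x : S) : PEx.sevHom p z e he l hl x = e.sev p (Function.update z l x) := rfl

theorem PEx.sev_sum {α : Type*} (p : ℕ → Bool) (z : ℕ → S) (e : PEx) (he : e.ml = true) (l : ℕ)
    (hl : l ∈ e.ls) (s : Finset α) (f : α → S) :
    e.sev p (Function.update z l (∑ i ∈ s, f i)) =
      ∑ i ∈ s, e.sev p (Function.update z l (f i)) := by
  rw [← PEx.sevHom_apply p z e he l hl, map_sum]
  rfl

theorem PEx.sev_zero (p : ℕ → Bool) (z : ℕ → S) (e : PEx) (he : e.ml = true) (l : ℕ)
    (hl : l ∈ e.ls) : e.sev p (Function.update z l 0) = 0 := by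
  rw [← PEx.sevHom_apply p z e he l hl, map_zero]

end lin

variable {k : ℕ} {A : Type u} [NonUnitalNonAssocRing A]

theorem sev_ids (e : PEx) (he : e.ml = true) (hA : ∀ y : ℕ → A, e.ev y = 0) (p : ℕ → Bool)
    (T : Finset ℕ) : ∀ z : ℕ → GrA k A, (∀ l, z l ∈ GrA.P k A (p l)) →
    (∀ l ∈ e.ls, l ∉ T → ∃ (U : Finset (Fin k)) (b : A), od U = p l ∧ z l = GrA.sgl U b) →
    e.sev p z = 0 := by
  induction T using Finset.induction_on with
  | empty =>
    intro z _ h
    have h' : ∀ l, ∃ (U : Finset (Fin k)) (b : A), l ∈ e.ls → (od U = p l ∧ z l = GrA.sgl U b) := by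
      intro l
      by_cases hl : l ∈ e.ls
      · obtain ⟨U, b, h1⟩ := h l hl (notMem_empty l)
        exact ⟨U, b, fun _ => h1⟩
      · exact ⟨∅, 0, fun h => absurd h hl⟩
    choose U b hUb using h'
    rw [sev_sgl e he p z U b (fun l hl => (hUb l hl).2) (fun l hl => (hUb l hl).1.symm), hA,
      GrA.sgl_zero, smul_zero]
  | insert a T _ ih =>
    intro z hz h
    by_cases ha : a ∈ e.ls
    · have h1 : z = Function.update z a (∑ U, GrA.sgl U (z a U)) := by
        rw [← GrA.eq_sum (z a), Function.update_eq_self]
      rw [h1, PEx.sev_sum p z e he a ha]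
      refine sum_eq_zero fun U _ => ?_
      by_cases hU : od U = p a
      · apply ih
        · intro l
          by_cases hl : l = a
          · subst hl
            rw [Function.update_self, ← hU]
            exact GrA.sgl_mem U _
          · rw [Function.update_of_ne hl]
            exact hz l
        · intro l hl hlT
          by_cases hla : l = a
          · subst hla
            rw [Function.update_self]
            exact ⟨U, _, hU, rfl⟩
          · rw [Function.update_of_ne hla]
            exact h l hl (fun h' => (mem_insert.1 h').elim hla hlT)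
      · rw [hz a U hU, GrA.sgl_zero, PEx.sev_zero p z e he a ha]
    · apply ih z hz
      intro l hl hlT
      have hla : l ≠ a := fun e' => ha (e' ▸ hl)
      exact h l hl (fun h' => (mem_insert.1 h').elim hla hlT)

/-- `GrA k A` is a superalgebra with the super identities -/
def GrA.sm (k : ℕ) {M : ℕ} {ids : List PEx} (hids : ∀ e ∈ ids, e.ml = true) (hA : Alg M ids A) :
    SM M ids (GrA k A) where
  P := GrA.P k A
  mul_mem := GrA.mul_mem
  tf := fun n x hn h => by
    ext W
    exact hA.tf n (x W) hn (congrFun h W)
  ids := fun e he p z hz =>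
    sev_ids e (hids e he) (hA.ids e he) p e.ls z hz (fun l hl hl' => absurd hl hl')

end Pool.Agent.MalP
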